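import Pool.Agent.MP_6cbfb8_an.Defs

/-!
# Counting near-rectangles (piece R4b)

A family `w` of points near the unit sphere of `ℝⁿ`, near the graph of a map of small slope over a
`κ`-dimensional subspace (`κ ≥ 2`), with boundedly many points in each ball of radius `ρ`: every
`w i` is a corner of at most `C ρ^{-(2κ-1)}` near-parallelograms `w i + w j ≈ w k + w l`.
The reason: on the sphere a parallelogram is a rectangle, so the increments `w k - w i` and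
`w l - w i` are nearly orthogonal; a strictly monotone map cannot contain two far translates in the
direction of an increment, which gains one power of `ρ` (lemma `tmc_strip`).
-/

namespace Pool.Agent.GNP.TMR

open Pool.Agent.MP_6cbfb8_an

theorem tmc_card_le {α β : Type*} [DecidableEq β] (s : Finset α) (f : α → β) (c : ℝ)
    (hc : ∀ a ∈ s, ((s.filter (fun x => f x = f a)).card : ℝ) ≤ c) :
    (s.card : ℝ) ≤ c * (s.image f).card := by
  classical
  rw [Finset.card_eq_sum_card_image f s]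
  push_cast
  calc _ ≤ ∑ b ∈ s.image f, c := by
        apply Finset.sum_le_sum
        intro b hb
        obtain ⟨a, ha, rfl⟩ := Finset.mem_image.mp hb
        exact hc a ha
    _ = _ := by rw [Finset.sum_const, nsmul_eq_mul, mul_comm]

theorem tmc_cell (d : ℕ) {α : Type*} (P : Finset α) (u : α → EuclideanSpace ℝ (Fin d)) (ρ r c : ℝ)
    (hρ : 0 < ρ) (hr : 0 ≤ r) (hc0 : 0 ≤ c) (h1 : ∀ a ∈ P, ‖u a‖ ≤ r)
    (h2 : ∀ a ∈ P, ((P.filter (fun b => ‖u b - u a‖ ≤ d * ρ)).card : ℝ) ≤ c) :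
    (P.card : ℝ) ≤ c * (2 * r / ρ + 2) ^ d := by
  classical
  let φ : α → Fin d → ℤ := fun a m => ⌊u a m / ρ⌋
  have h3 : (P.card : ℝ) ≤ c * (P.image φ).card := by
    apply tmc_card_le
    intro a ha
    refine le_trans ?_ (h2 a ha)
    norm_cast
    apply Finset.card_le_card
    intro b hb
    rw [Finset.mem_filter] at hb ⊢
    refine ⟨hb.1, ?_⟩
    have h4 : ∀ m, |u b m - u a m| ≤ ρ := by
      intro m
      have h5 : ⌊u b m / ρ⌋ = ⌊u a m / ρ⌋ := congrFun hb.2 m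
      have h6 := Int.abs_sub_lt_one_of_floor_eq_floor h5
      rw [← sub_div, abs_div, abs_of_pos hρ, div_lt_one hρ] at h6
      exact h6.le
    have h7 : ‖u b - u a‖ ^ 2 ≤ (d * ρ) ^ 2 := by
      rw [EuclideanSpace.norm_sq_eq]
      calc ∑ m, ‖(u b - u a) m‖ ^ 2 ≤ ∑ m : Fin d, ρ ^ 2 := by
            apply Finset.sum_le_sum
            intro m _
            rw [Real.norm_eq_abs]
            exact pow_le_pow_left₀ (abs_nonneg _) (h4 m) 2
        _ = d * ρ ^ 2 := by simp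
        _ ≤ (d * ρ) ^ 2 := by
            rw [mul_pow]
            apply mul_le_mul_of_nonneg_right _ (sq_nonneg _)
            have : (d:ℝ) ≤ (d:ℝ)^2 := by
              norm_cast
              exact Nat.le_self_pow two_ne_zero d
            exact this
    exact (sq_le_sq₀ (norm_nonneg _) (by positivity)).mp h7
  have h8 : P.image φ ⊆ Fintype.piFinset (fun _ : Fin d => Finset.Icc ⌊-r / ρ⌋ ⌊r / ρ⌋) := by
    intro x hx
    obtain ⟨a, ha, rfl⟩ := Finset.mem_image.mp hx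
    rw [Fintype.mem_piFinset]
    intro m
    rw [Finset.mem_Icc]
    have h9 : ‖u a m‖ ≤ r := (PiLp.norm_apply_le (u a) m).trans (h1 a ha)
    rw [Real.norm_eq_abs, abs_le] at h9
    constructor
    · exact Int.floor_le_floor (by rw [div_le_div_iff_of_pos_right hρ]; exact h9.1)
    · exact Int.floor_le_floor (by rw [div_le_div_iff_of_pos_right hρ]; exact h9.2)
  have h10 : ((Finset.Icc ⌊-r / ρ⌋ ⌊r / ρ⌋).card : ℝ) ≤ 2 * r / ρ + 2 := by
    rw [Int.card_Icc]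
    have h11 : ⌊-r / ρ⌋ ≤ ⌊r / ρ⌋ := by
      apply Int.floor_le_floor
      rw [div_le_div_iff_of_pos_right hρ]
      linarith
    have h12 : (((⌊r / ρ⌋ + 1 - ⌊-r / ρ⌋).toNat : ℕ) : ℝ) = ((⌊r / ρ⌋ + 1 - ⌊-r / ρ⌋ : ℤ) : ℝ) := by
      have := Int.toNat_of_nonneg (show (0:ℤ) ≤ ⌊r / ρ⌋ + 1 - ⌊-r / ρ⌋ by omega)
      exact_mod_cast this
    rw [h12]
    push_cast
    have h13 := Int.floor_le (r / ρ)
    have h14 := Int.lt_floor_add_one (-r / ρ)
    have h15 : -r / ρ = -(r / ρ) := by ring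
    have h16 : 2 * r / ρ = 2 * (r / ρ) := by ring
    rw [h16]
    linarith
  have h17 : ((P.image φ).card : ℝ) ≤ (2 * r / ρ + 2) ^ d := by
    have h18 := Finset.card_le_card h8
    rw [Fintype.card_piFinset, Finset.prod_const, Finset.card_univ, Fintype.card_fin] at h18
    calc ((P.image φ).card : ℝ) ≤ (((Finset.Icc ⌊-r / ρ⌋ ⌊r / ρ⌋).card ^ d : ℕ) : ℝ) := by
          exact_mod_cast h18
      _ = ((Finset.Icc ⌊-r / ρ⌋ ⌊r / ρ⌋).card : ℝ) ^ d := by push_cast; rfl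
      _ ≤ _ := pow_le_pow_left₀ (Nat.cast_nonneg _) h10 d
  exact h3.trans (mul_le_mul_of_nonneg_left h17 hc0)

/-- Balls of radius `A ρ` contain boundedly many points. -/
theorem tmc_ball (n : ℕ) {ι : Type} [Fintype ι] (w : ι → E n) (ρ A N : ℝ) (hρ : 0 < ρ)
    (hA : 0 ≤ A) (hN : 0 ≤ N)
    (h : ∀ x : E n, ((Finset.univ.filter (fun i => ‖w i - x‖ ≤ ρ)).card : ℝ) ≤ N) (x : E n) :
    ((Finset.univ.filter (fun i => ‖w i - x‖ ≤ A * ρ)).card : ℝ) ≤
      N * (2 * (A * (n + 1)) + 2) ^ n := by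
  classical
  have h1 := tmc_cell n (Finset.univ.filter (fun i => ‖w i - x‖ ≤ A * ρ)) (fun i => w i - x)
    (ρ / (n + 1)) (A * ρ) N (by positivity) (by positivity) hN
    (fun a ha => (Finset.mem_filter.mp ha).2) (by
      intro a _
      refine le_trans ?_ (h (w a))
      norm_cast
      apply Finset.card_le_card
      intro b hb
      rw [Finset.mem_filter] at hb ⊢
      refine ⟨Finset.mem_univ _, ?_⟩
      have h2 := hb.2
      rw [sub_sub_sub_cancel_right] at h2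
      refine h2.trans ?_
      rw [mul_div_assoc', div_le_iff₀ (by positivity)]
      push_cast
      nlinarith)
  have h3 : 2 * (A * ρ) / (ρ / (n + 1)) + 2 = 2 * (A * (n + 1)) + 2 := by
    field_simp
  rwa [h3] at h1

theorem tmc_key {n : ℕ} (M ρ : ℝ) (hM : 1 ≤ M) (hρ : 0 < ρ) (hρ1 : ρ ≤ 1) (wi wj wk wl : E n)
    (hi : |‖wi‖ - 1| ≤ M * ρ) (hj : |‖wj‖ - 1| ≤ M * ρ) (hk : |‖wk‖ - 1| ≤ M * ρ)
    (hl : |‖wl‖ - 1| ≤ M * ρ) (h : ‖wi + wj - wk - wl‖ ≤ 5 * ρ) :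
    |inner ℝ (wk - wi) (wl - wi)| ≤ 29 * M ^ 2 * ρ := by
  have h1 : 2 * inner ℝ (wk - wi) (wl - wi) =
      ‖wk + wl - wi‖ ^ 2 - ‖wk‖ ^ 2 - ‖wl‖ ^ 2 + ‖wi‖ ^ 2 := by
    rw [norm_sub_sq_real, norm_add_sq_real, inner_sub_left, inner_sub_right, inner_sub_right,
      inner_add_left, real_inner_self_eq_norm_sq, real_inner_comm wl wi]
    ring
  have h2 : ‖wj‖ - 5 * ρ ≤ ‖wk + wl - wi‖ ∧ ‖wk + wl - wi‖ ≤ ‖wj‖ + 5 * ρ := by
    have h3 : wk + wl - wi = wj - (wi + wj - wk - wl) := by abel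
    rw [h3]
    constructor
    · have := norm_sub_norm_le wj (wi + wj - wk - wl)
      linarith
    · have := norm_sub_le wj (wi + wj - wk - wl)
      linarith
  have hMρ : 0 < M * ρ := by positivity
  have h4 : ∀ p : ℝ, ∀ c : ℝ, 0 ≤ c → |p - 1| ≤ c * (M * ρ) → |p ^ 2 - 1| ≤ c * (2 + c) * (M ^ 2 * ρ) := by
    intro p c hc hp
    have h5 : p ^ 2 - 1 = (p - 1) * (p + 1) := by ring
    rw [h5, abs_mul]
    have h6 : |p + 1| ≤ (2 + c) * M := by
      have h7 : |p + 1| ≤ |p - 1| + 2 := by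
        have : p + 1 = (p - 1) + 2 := by ring
        rw [this]
        refine (abs_add_le _ _).trans ?_
        norm_num
      have h8 : c * (M * ρ) ≤ c * M := by
        apply mul_le_mul_of_nonneg_left _ hc
        nlinarith
      nlinarith
    calc |p - 1| * |p + 1| ≤ (c * (M * ρ)) * ((2 + c) * M) :=
          mul_le_mul hp h6 (abs_nonneg _) (by positivity)
      _ = _ := by ring
  have ei := h4 ‖wi‖ 1 (by norm_num) (by linarith)
  have ek := h4 ‖wk‖ 1 (by norm_num) (by linarith)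
  have el := h4 ‖wl‖ 1 (by norm_num) (by linarith)
  have ep := h4 ‖wk + wl - wi‖ 6 (by norm_num) (by
    rw [abs_le] at hj ⊢
    constructor <;> nlinarith)
  rw [abs_le] at ei ek el ep
  have h9 : |2 * inner ℝ (wk - wi) (wl - wi)| ≤ 57 * (M ^ 2 * ρ) := by
    rw [h1, abs_le]
    constructor <;> linarith
  rw [abs_mul, abs_of_pos (show (0:ℝ) < 2 by norm_num)] at h9
  nlinarith [show 0 < M ^ 2 * ρ by positivity]

/-- Almost orthogonality of the increments, for the parametrising map. -/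
theorem tmc_key2 {n : ℕ} (M ρ : ℝ) (hM : 1 ≤ M) (hρ : 0 < ρ) (hρ1 : ρ ≤ 1) (wi wk wl hi hk hl : E n)
    (ni : |‖wi‖ - 1| ≤ M * ρ) (nk : |‖wk‖ - 1| ≤ M * ρ) (nl : |‖wl‖ - 1| ≤ M * ρ)
    (di : ‖wi - hi‖ ≤ M * ρ) (dk : ‖wk - hk‖ ≤ M * ρ) (dl : ‖wl - hl‖ ≤ M * ρ)
    (h : |inner ℝ (wk - wi) (wl - wi)| ≤ 29 * M ^ 2 * ρ) :
    |inner ℝ (hk - hi) (hl - hi)| ≤ 50 * M ^ 2 * ρ := by
  have hMρ : 0 < M * ρ := by positivity
  have hMρ' : M * ρ ≤ M := by nlinarith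
  have n1 : ∀ w : E n, |‖w‖ - 1| ≤ M * ρ → ‖w‖ ≤ 2 * M := by
    intro w hw
    rw [abs_le] at hw
    linarith
  have ek : ‖(hk - hi) - (wk - wi)‖ ≤ 2 * (M * ρ) := by
    have : (hk - hi) - (wk - wi) = (wi - hi) - (wk - hk) := by abel
    rw [this]
    have := norm_sub_le (wi - hi) (wk - hk)
    linarith
  have el : ‖(hl - hi) - (wl - wi)‖ ≤ 2 * (M * ρ) := by
    have : (hl - hi) - (wl - wi) = (wi - hi) - (wl - hl) := by abel
    rw [this]
    have := norm_sub_le (wi - hi) (wl - hl)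
    linarith
  have ak : ‖wk - wi‖ ≤ 4 * M := by
    have := norm_sub_le wk wi
    linarith [n1 wk nk, n1 wi ni]
  have al : ‖wl - wi‖ ≤ 4 * M := by
    have := norm_sub_le wl wi
    linarith [n1 wl nl, n1 wi ni]
  have bk : ‖hk - hi‖ ≤ 6 * M := by
    have : hk - hi = (wk - wi) + ((hk - hi) - (wk - wi)) := by abel
    rw [this]
    have := norm_add_le (wk - wi) ((hk - hi) - (wk - wi))
    linarith
  have e1 : inner ℝ (hk - hi) (hl - hi) = inner ℝ (wk - wi) (wl - wi) +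
      inner ℝ ((hk - hi) - (wk - wi)) (wl - wi) + inner ℝ (hk - hi) ((hl - hi) - (wl - wi)) := by
    rw [inner_sub_left (hk - hi) (wk - wi) (wl - wi), inner_sub_right (hk - hi) (hl - hi) (wl - wi)]
    ring
  have e2 : |inner ℝ ((hk - hi) - (wk - wi)) (wl - wi)| ≤ 2 * (M * ρ) * (4 * M) :=
    (abs_real_inner_le_norm _ _).trans (mul_le_mul ek al (norm_nonneg _) (by positivity))
  have e3 : |inner ℝ (hk - hi) ((hl - hi) - (wl - wi))| ≤ 6 * M * (2 * (M * ρ)) :=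
    (abs_real_inner_le_norm _ _).trans (mul_le_mul bk el (norm_nonneg _) (by positivity))
  rw [e1]
  have e4 := abs_add_le (inner ℝ (wk - wi) (wl - wi) +
      inner ℝ ((hk - hi) - (wk - wi)) (wl - wi)) (inner ℝ (hk - hi) ((hl - hi) - (wl - wi)))
  have e5 := abs_add_le (inner ℝ (wk - wi) (wl - wi))
      (inner ℝ ((hk - hi) - (wk - wi)) (wl - wi))
  nlinarith

section Param

variable {n κ : ℕ} (L : E κ →ₗᵢ[ℝ] E n) (G : E κ → E n)

theorem tmc_up (hG : ∀ x y, ‖G x - G y‖ ≤ 1 / 8 * ‖x - y‖) (x y : E κ) :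
    ‖(L x + G x) - (L y + G y)‖ ≤ 9 / 8 * ‖x - y‖ := by
  have h1 : (L x + G x) - (L y + G y) = L (x - y) + (G x - G y) := by
    rw [map_sub]; abel
  rw [h1]
  have h2 := norm_add_le (L (x - y)) (G x - G y)
  rw [L.norm_map] at h2
  linarith [hG x y]

theorem tmc_low (hG : ∀ x y, ‖G x - G y‖ ≤ 1 / 8 * ‖x - y‖) (x y : E κ) :
    7 / 8 * ‖x - y‖ ≤ ‖(L x + G x) - (L y + G y)‖ := by
  have h1 : L (x - y) = ((L x + G x) - (L y + G y)) - (G x - G y) := by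
    rw [map_sub]; abel
  have h2 := norm_sub_le ((L x + G x) - (L y + G y)) (G x - G y)
  rw [← h1, L.norm_map] at h2
  linarith [hG x y]

theorem tmc_mono (hG : ∀ x y, ‖G x - G y‖ ≤ 1 / 8 * ‖x - y‖) (p q p' q' : E κ) :
    inner ℝ (p - q) (p' - q') - 17 / 64 * ‖p - q‖ * ‖p' - q'‖ ≤
      inner ℝ ((L p + G p) - (L q + G q)) ((L p' + G p') - (L q' + G q')) := by
  have h1 : ∀ x y : E κ, (L x + G x) - (L y + G y) = L (x - y) + (G x - G y) := by
    intro x y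
    rw [map_sub]; abel
  rw [h1 p q, h1 p' q', inner_add_left, inner_add_right, inner_add_right, L.inner_map_map]
  have a1 := abs_real_inner_le_norm (L (p - q)) (G p' - G q')
  have a2 := abs_real_inner_le_norm (G p - G q) (L (p' - q'))
  have a3 := abs_real_inner_le_norm (G p - G q) (G p' - G q')
  rw [L.norm_map] at a1 a2
  have g1 := hG p q
  have g2 := hG p' q'
  have b1 : ‖p - q‖ * ‖G p' - G q'‖ ≤ ‖p - q‖ * (1 / 8 * ‖p' - q'‖) :=
    mul_le_mul_of_nonneg_left g2 (norm_nonneg _)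
  have b2 : ‖G p - G q‖ * ‖p' - q'‖ ≤ (1 / 8 * ‖p - q‖) * ‖p' - q'‖ :=
    mul_le_mul_of_nonneg_right g1 (norm_nonneg _)
  have b3 : ‖G p - G q‖ * ‖G p' - G q'‖ ≤ (1 / 8 * ‖p - q‖) * (1 / 8 * ‖p' - q'‖) :=
    mul_le_mul g1 g2 (norm_nonneg _) (by positivity)
  rw [abs_le] at a1 a2 a3
  nlinarith [a1.1, a2.1, a3.1]

end Param

theorem tmc_strip {n κ : ℕ} (L : E κ →ₗᵢ[ℝ] E n) (G : E κ → E n)
    (hG : ∀ x y, ‖G x - G y‖ ≤ 1 / 8 * ‖x - y‖) {ι : Type} (P : Finset ι) (y : ι → E κ)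
    (y0 y1 : E κ) (ρ K c : ℝ) (hρ : 0 < ρ) (hK : 0 < K) (hc : 0 ≤ c) (hs0 : 0 < ‖y1 - y0‖)
    (h1 : ∀ a ∈ P, ‖y a - y0‖ ≤ ‖y1 - y0‖)
    (h2 : ∀ a ∈ P, |inner ℝ ((L y1 + G y1) - (L y0 + G y0))
      ((L (y a) + G (y a)) - (L y0 + G y0))| ≤ K * ρ)
    (h3 : ∀ a ∈ P, ((P.filter (fun b => ‖y b - y a‖ ≤ κ * ρ)).card : ℝ) ≤ c) :
    (P.card : ℝ) * ‖y1 - y0‖ ≤ c * (4 * ‖y1 - y0‖ / ρ + 2) ^ κ *
      (4 * K * ρ / ‖y1 - y0‖ + 2 * κ * ρ) := by
  classical
  set s := ‖y1 - y0‖ with hs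
  set h := 4 * K * ρ / s + 2 * κ * ρ with hh
  have hpos : 0 < h := by positivity
  have hsh : s * h = 4 * K * ρ + 2 * κ * ρ * s := by
    rw [hh]; field_simp
  let N : ℕ := ⌊s / h⌋₊ + 1
  let Q : Finset (ι × ℕ) := P ×ˢ Finset.range N
  let u : ι × ℕ → E κ := fun t => (y t.1 - y0) + ((t.2 : ℝ) * h / s) • (y1 - y0)
  have hQ : ∀ t ∈ Q, t.1 ∈ P ∧ (t.2 : ℝ) * h ≤ s := by
    intro t ht
    rw [Finset.mem_product, Finset.mem_range] at ht
    refine ⟨ht.1, ?_⟩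
    have h4 : t.2 ≤ ⌊s / h⌋₊ := Nat.lt_succ_iff.mp ht.2
    have h5 : (t.2 : ℝ) ≤ s / h := (Nat.cast_le.mpr h4).trans (Nat.floor_le (by positivity))
    rwa [le_div_iff₀ hpos] at h5
  have key : ∀ b ∈ Q, ∀ t ∈ Q, ‖u b - u t‖ ≤ κ * ρ → ¬ t.2 < b.2 := by
    intro b hb t ht hbt hlt
    have hlt' : (t.2 : ℝ) + 1 ≤ b.2 := by exact_mod_cast hlt
    set σ := ((b.2 : ℝ) - t.2) * h with hσ
    have hσh : h ≤ σ := by
      rw [hσ]
      nlinarith
    have e1 : y t.1 - y b.1 = (σ / s) • (y1 - y0) - (u b - u t) := by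
      have : σ / s = (b.2 : ℝ) * h / s - (t.2 : ℝ) * h / s := by rw [hσ]; ring
      rw [this, sub_smul]
      simp only [u]
      abel
    have e2 : inner ℝ (y1 - y0) (y t.1 - y b.1) = σ * s - inner ℝ (y1 - y0) (u b - u t) := by
      rw [e1, inner_sub_right, inner_smul_right, real_inner_self_eq_norm_sq, ← hs]
      field_simp
    have e3 : ‖y t.1 - y b.1‖ ≤ σ + κ * ρ := by
      rw [e1]
      refine (norm_sub_le _ _).trans ?_
      rw [norm_smul, ← hs, Real.norm_eq_abs, abs_of_nonneg (div_nonneg (hpos.le.trans hσh) hs0.le),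
        div_mul_cancel₀ _ hs0.ne']
      linarith
    have e4 : inner ℝ (y1 - y0) (u b - u t) ≤ s * (κ * ρ) := by
      refine (real_inner_le_norm _ _).trans ?_
      exact mul_le_mul_of_nonneg_left hbt hs0.le
    have e5 := tmc_mono L G hG y1 y0 (y t.1) (y b.1)
    have e6 : inner ℝ ((L y1 + G y1) - (L y0 + G y0))
        ((L (y t.1) + G (y t.1)) - (L (y b.1) + G (y b.1))) ≤ 2 * (K * ρ) := by
      have e7 : (L (y t.1) + G (y t.1)) - (L (y b.1) + G (y b.1)) =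
          ((L (y t.1) + G (y t.1)) - (L y0 + G y0)) -
            ((L (y b.1) + G (y b.1)) - (L y0 + G y0)) := by abel
      rw [e7, inner_sub_right]
      have e8 := h2 t.1 (hQ t ht).1
      have e9 := h2 b.1 (hQ b hb).1
      rw [abs_le] at e8 e9
      linarith [e8.2, e9.1]
    rw [e2, ← hs] at e5
    have e10 : 17 / 64 * s * ‖y t.1 - y b.1‖ ≤ 17 / 64 * s * (σ + κ * ρ) :=
      mul_le_mul_of_nonneg_left e3 (by positivity)
    have e11 : s * h ≤ s * σ := mul_le_mul_of_nonneg_left hσh hs0.le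
    have e12 : 0 ≤ κ * ρ * s := by positivity
    nlinarith [mul_pos hK hρ]
  have hcell := tmc_cell κ Q u ρ (2 * s) c hρ (by positivity) hc (by
    intro t ht
    have h5 := hQ t ht
    have h6 := norm_add_le (y t.1 - y0) (((t.2 : ℝ) * h / s) • (y1 - y0))
    rw [norm_smul, ← hs, Real.norm_eq_abs, abs_of_nonneg (by positivity),
      div_mul_cancel₀ _ hs0.ne'] at h6
    have h7 := h1 t.1 h5.1
    simp only [u]
    linarith [h5.2]) (by
    intro t ht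
    refine le_trans ?_ (h3 t.1 (hQ t ht).1)
    norm_cast
    have h4 : Q.filter (fun b => ‖u b - u t‖ ≤ κ * ρ) ⊆
        (P.filter (fun b => ‖y b - y t.1‖ ≤ κ * ρ)) ×ˢ ({t.2} : Finset ℕ) := by
      intro b hb
      rw [Finset.mem_filter] at hb
      have h5 : b.2 = t.2 := by
        have h6 := key b hb.1 t ht hb.2
        have h7 := key t ht b hb.1 (by rw [norm_sub_rev]; exact hb.2)
        omega
      rw [Finset.mem_product, Finset.mem_filter, Finset.mem_singleton]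
      refine ⟨⟨(hQ b hb.1).1, ?_⟩, h5⟩
      have h8 : u b - u t = y b.1 - y t.1 := by
        simp only [u, h5]
        abel
      rw [← h8]
      exact hb.2
    have h9 := Finset.card_le_card h4
    rwa [Finset.card_product, Finset.card_singleton, mul_one] at h9)
  have hcard : (Q.card : ℝ) = P.card * N := by
    simp only [Q, Finset.card_product, Finset.card_range]
    push_cast
    rfl
  rw [hcard] at hcell
  have hN : s ≤ N * h := by
    have h4 := Nat.lt_floor_add_one (s / h)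
    rw [div_lt_iff₀ hpos] at h4
    simp only [N]
    push_cast
    linarith
  have h5 : 2 * (2 * s) / ρ + 2 = 4 * s / ρ + 2 := by ring
  rw [h5] at hcell
  calc (P.card : ℝ) * s ≤ P.card * (N * h) := mul_le_mul_of_nonneg_left hN (Nat.cast_nonneg _)
    _ = (P.card * N) * h := by ring
    _ ≤ _ := mul_le_mul_of_nonneg_right hcell hpos.le

/-- One fixed `k`: the number of `l` not farther from `i` than `k`. -/
theorem tmc_one {n κ' : ℕ} (L : E (κ' + 2) →ₗᵢ[ℝ] E n) (G : E (κ' + 2) → E n)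
    (hG : ∀ x y, ‖G x - G y‖ ≤ 1 / 8 * ‖x - y‖) {ι : Type} (P : Finset ι) (y : ι → E (κ' + 2))
    (y0 y1 : E (κ' + 2)) (ρ K c R : ℝ) (hρ : 0 < ρ) (hρ1 : ρ ≤ 1) (hK : 0 < K) (hc : 0 ≤ c)
    (hR : 0 ≤ R) (hs0 : ‖y1 - y0‖ ≤ R)
    (h1 : ∀ a ∈ P, ‖y a - y0‖ ≤ ‖y1 - y0‖)
    (h2 : ∀ a ∈ P, |inner ℝ ((L y1 + G y1) - (L y0 + G y0))
      ((L (y a) + G (y a)) - (L y0 + G y0))| ≤ K * ρ)
    (h3 : ∀ a ∈ P, ((P.filter (fun b => ‖y b - y a‖ ≤ (κ' + 2 : ℕ) * ρ)).card : ℝ) ≤ c) :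
    (P.card : ℝ) ≤ c * (1 + 6 ^ (κ' + 2) * R ^ κ' * (4 * K + 2 * (κ' + 2) * R)) *
      (1 / ρ) ^ (κ' + 1) := by
  classical
  have hone : 1 ≤ 1 / ρ := by rw [le_div_iff₀ hρ]; linarith
  have hpow : 1 ≤ (1 / ρ) ^ (κ' + 1) := one_le_pow₀ hone
  have hD : 0 ≤ 6 ^ (κ' + 2) * R ^ κ' * (4 * K + 2 * (κ' + 2) * R) := by positivity
  rcases lt_or_ge ‖y1 - y0‖ ρ with hs | hs
  · -- all points are close together
    rcases P.eq_empty_or_nonempty with hP | ⟨a, ha⟩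
    · rw [hP, Finset.card_empty, Nat.cast_zero]
      positivity
    · have h4 : P.filter (fun b => ‖y b - y a‖ ≤ (κ' + 2 : ℕ) * ρ) = P := by
        apply Finset.filter_true_of_mem
        intro b hb
        have h5 : ‖y b - y a‖ ≤ ‖y b - y0‖ + ‖y a - y0‖ := by
          have : y b - y a = (y b - y0) - (y a - y0) := by abel
          rw [this]
          exact norm_sub_le _ _
        have h6 := h1 b hb
        have h7 := h1 a ha
        push_cast
        have h8 : (0:ℝ) ≤ κ' * ρ := by positivity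
        nlinarith
      have h5 := h3 a ha
      rw [h4] at h5
      calc (P.card : ℝ) ≤ c * 1 * 1 := by linarith
        _ ≤ c * (1 + 6 ^ (κ' + 2) * R ^ κ' * (4 * K + 2 * (κ' + 2) * R)) *
            (1 / ρ) ^ (κ' + 1) := by
          apply mul_le_mul _ hpow zero_le_one (by positivity)
          apply mul_le_mul_of_nonneg_left _ hc
          linarith
  · have hs0' : 0 < ‖y1 - y0‖ := hρ.trans_le hs
    have h4 := tmc_strip L G hG P y y0 y1 ρ K c hρ hK hc hs0' h1 h2 h3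
    set s := ‖y1 - y0‖ with hsdef
    have h5 : 1 ≤ s / ρ := by rw [le_div_iff₀ hρ]; linarith
    have h6 : (4 * s / ρ + 2) ^ (κ' + 2) ≤ (6 * s / ρ) ^ (κ' + 2) := by
      apply pow_le_pow_left₀ (by positivity)
      have e1 : 4 * s / ρ = 4 * (s / ρ) := by ring
      have e2 : 6 * s / ρ = 6 * (s / ρ) := by ring
      rw [e1, e2]
      linarith
    have h7 : (P.card : ℝ) * s ≤ c * (6 * s / ρ) ^ (κ' + 2) *
        (4 * K * ρ / s + 2 * (κ' + 2 : ℕ) * ρ) := by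
      refine h4.trans ?_
      apply mul_le_mul_of_nonneg_right _ (by positivity)
      exact mul_le_mul_of_nonneg_left h6 hc
    have h8 : c * (6 * s / ρ) ^ (κ' + 2) * (4 * K * ρ / s + 2 * (κ' + 2 : ℕ) * ρ) =
        (c * (6 ^ (κ' + 2) * s ^ κ' * (4 * K + 2 * (κ' + 2) * s)) * (1 / ρ) ^ (κ' + 1)) * s := by
      push_cast
      have e1 : (6 * s / ρ) ^ (κ' + 2) = 6 ^ (κ' + 2) * s ^ (κ' + 2) * (1 / ρ) ^ (κ' + 2) := by
        rw [← mul_pow, ← mul_pow]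
        congr 1
        ring
      rw [e1, pow_succ (1 / ρ) (κ' + 1), pow_add s κ' 2]
      field_simp
    rw [h8] at h7
    have h9 := le_of_mul_le_mul_right h7 hs0'
    refine h9.trans ?_
    apply mul_le_mul_of_nonneg_right _ (by positivity)
    apply mul_le_mul_of_nonneg_left _ hc
    have h10 : s ^ κ' ≤ R ^ κ' := pow_le_pow_left₀ hs0'.le hs0 κ'
    have h11 : 6 ^ (κ' + 2) * s ^ κ' * (4 * K + 2 * (κ' + 2) * s) ≤
        6 ^ (κ' + 2) * R ^ κ' * (4 * K + 2 * (κ' + 2) * R) := by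
      apply mul_le_mul _ _ (by positivity) (by positivity)
      · exact mul_le_mul_of_nonneg_left h10 (by positivity)
      · have : 2 * ((κ':ℝ) + 2) * s ≤ 2 * ((κ':ℝ) + 2) * R :=
          mul_le_mul_of_nonneg_left hs0 (by positivity)
        linarith
    linarith

/-- The number of pairs `(k, l)` with nearly orthogonal increments. -/
theorem tmc_pairs {n κ' : ℕ} (L : E (κ' + 2) →ₗᵢ[ℝ] E n) (G : E (κ' + 2) → E n)
    (hG : ∀ x y, ‖G x - G y‖ ≤ 1 / 8 * ‖x - y‖) {ι : Type} [Fintype ι] (y : ι → E (κ' + 2))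
    (y0 : E (κ' + 2)) (ρ K c R : ℝ) (hρ : 0 < ρ) (hρ1 : ρ ≤ 1) (hK : 0 < K) (hc : 0 ≤ c)
    (hR : 0 ≤ R) (h1 : ∀ a, ‖y a - y0‖ ≤ R)
    (h3 : ∀ a, ((Finset.univ.filter (fun b => ‖y b - y a‖ ≤ (κ' + 2 : ℕ) * ρ)).card : ℝ) ≤ c) :
    ((Finset.univ.filter (fun t : ι × ι =>
      |inner ℝ ((L (y t.1) + G (y t.1)) - (L y0 + G y0))
        ((L (y t.2) + G (y t.2)) - (L y0 + G y0))| ≤ K * ρ)).card : ℝ) ≤
      2 * (c * (1 + 6 ^ (κ' + 2) * R ^ κ' * (4 * K + 2 * (κ' + 2) * R)) *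
        (c * (2 * R + 2) ^ (κ' + 2))) * (1 / ρ) ^ (2 * κ' + 3) := by
  classical
  set D : ℝ := c * (1 + 6 ^ (κ' + 2) * R ^ κ' * (4 * K + 2 * (κ' + 2) * R)) with hD
  have hD0 : 0 ≤ D := by positivity
  have hone : 1 ≤ 1 / ρ := by rw [le_div_iff₀ hρ]; linarith
  let B : ι → ι → ℝ := fun a b => inner ℝ ((L (y a) + G (y a)) - (L y0 + G y0))
        ((L (y b) + G (y b)) - (L y0 + G y0))
  have hcard : (Fintype.card ι : ℝ) ≤ c * (2 * R + 2) ^ (κ' + 2) * (1 / ρ) ^ (κ' + 2) := by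
    have h4 := tmc_cell (κ' + 2) (Finset.univ : Finset ι) (fun a => y a - y0) ρ R c hρ hR hc
      (fun a _ => h1 a) (by
        intro a _
        refine le_trans (le_of_eq ?_) (h3 a)
        simp only [sub_sub_sub_cancel_right])
    rw [Finset.card_univ] at h4
    refine h4.trans ?_
    rw [mul_assoc, ← mul_pow]
    apply mul_le_mul_of_nonneg_left _ hc
    apply pow_le_pow_left₀ (by positivity)
    have e1 : 2 * R / ρ = 2 * R * (1 / ρ) := by ring
    rw [e1]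
    nlinarith
  -- half of the pairs
  have half : ∀ F : ι × ι → ι × ι, Function.Injective F →
      ((Finset.univ.filter (fun t : ι × ι => |B (F t).1 (F t).2| ≤ K * ρ ∧
        ‖y (F t).2 - y0‖ ≤ ‖y (F t).1 - y0‖)).card : ℝ) ≤
        D * (1 / ρ) ^ (κ' + 1) * Fintype.card ι := by
    intro F hF
    have h4 := tmc_card_le (Finset.univ.filter (fun t : ι × ι => |B (F t).1 (F t).2| ≤ K * ρ ∧
        ‖y (F t).2 - y0‖ ≤ ‖y (F t).1 - y0‖)) (fun t => (F t).1) (D * (1 / ρ) ^ (κ' + 1)) (by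
      intro t _
      let P : Finset ι := Finset.univ.filter (fun l => |B (F t).1 l| ≤ K * ρ ∧
        ‖y l - y0‖ ≤ ‖y (F t).1 - y0‖)
      have h5 := tmc_one L G hG P y y0 (y (F t).1) ρ K c R hρ hρ1 hK hc hR (h1 _)
        (fun a ha => (Finset.mem_filter.mp ha).2.2)
        (fun a ha => (Finset.mem_filter.mp ha).2.1) (by
          intro a _
          refine le_trans ?_ (h3 a)
          norm_cast
          apply Finset.card_le_card
          intro b hb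
          rw [Finset.mem_filter] at hb ⊢
          exact ⟨Finset.mem_univ _, hb.2⟩)
      refine le_trans ?_ h5
      norm_cast
      apply Finset.card_le_card_of_injOn (fun x => (F x).2)
      · intro x hx
        rw [Finset.coe_filter, Set.mem_ofPred_eq, Finset.mem_filter] at hx
        obtain ⟨⟨_, hx1⟩, hx2⟩ := hx
        rw [Finset.mem_coe, Finset.mem_filter]
        refine ⟨Finset.mem_univ _, ?_⟩
        rw [← hx2]
        exact hx1
      · intro x hx x' hx' hxx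
        rw [Finset.coe_filter, Set.mem_ofPred_eq, Finset.mem_filter] at hx hx'
        apply hF
        exact Prod.ext (hx.2.trans hx'.2.symm) hxx)
    refine h4.trans ?_
    apply mul_le_mul_of_nonneg_left _ (by positivity)
    have h6 := Finset.card_le_univ (Finset.image (fun t : ι × ι => (F t).1)
      (Finset.univ.filter (fun t : ι × ι => |B (F t).1 (F t).2| ≤ K * ρ ∧
        ‖y (F t).2 - y0‖ ≤ ‖y (F t).1 - y0‖)))
    exact_mod_cast h6
  have hA := half id Function.injective_id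
  have hB := half Prod.swap Prod.swap_injective
  have hsub : (Finset.univ.filter (fun t : ι × ι => |B t.1 t.2| ≤ K * ρ)) ⊆
      (Finset.univ.filter (fun t : ι × ι => |B (id t).1 (id t).2| ≤ K * ρ ∧
        ‖y (id t).2 - y0‖ ≤ ‖y (id t).1 - y0‖)) ∪
      (Finset.univ.filter (fun t : ι × ι => |B t.swap.1 t.swap.2| ≤ K * ρ ∧
        ‖y t.swap.2 - y0‖ ≤ ‖y t.swap.1 - y0‖)) := by
    intro t ht
    rw [Finset.mem_filter] at ht
    rw [Finset.mem_union, Finset.mem_filter, Finset.mem_filter]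
    rcases le_total ‖y t.2 - y0‖ ‖y t.1 - y0‖ with h4 | h4
    · left
      exact ⟨Finset.mem_univ _, ht.2, h4⟩
    · right
      refine ⟨Finset.mem_univ _, ?_, h4⟩
      have h5 : B t.swap.1 t.swap.2 = B t.1 t.2 := real_inner_comm _ _
      rw [h5]
      exact ht.2
  have h7 := (Finset.card_le_card hsub).trans (Finset.card_union_le _ _)
  have h8 : ((Finset.univ.filter (fun t : ι × ι => |B t.1 t.2| ≤ K * ρ)).card : ℝ) ≤
      2 * (D * (1 / ρ) ^ (κ' + 1) * Fintype.card ι) := by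
    have h7' : ((Finset.univ.filter (fun t : ι × ι => |B t.1 t.2| ≤ K * ρ)).card : ℝ) ≤
        ((Finset.univ.filter (fun t : ι × ι => |B (id t).1 (id t).2| ≤ K * ρ ∧
          ‖y (id t).2 - y0‖ ≤ ‖y (id t).1 - y0‖)).card : ℝ) +
        ((Finset.univ.filter (fun t : ι × ι => |B t.swap.1 t.swap.2| ≤ K * ρ ∧
          ‖y t.swap.2 - y0‖ ≤ ‖y t.swap.1 - y0‖)).card : ℝ) := by
      exact_mod_cast h7
    refine (h7'.trans (add_le_add hA hB)).trans (le_of_eq ?_)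
    ring
  refine h8.trans ?_
  have h9 : 2 * (D * (c * (2 * R + 2) ^ (κ' + 2))) * (1 / ρ) ^ (2 * κ' + 3) =
      2 * (D * (1 / ρ) ^ (κ' + 1) * (c * (2 * R + 2) ^ (κ' + 2) * (1 / ρ) ^ (κ' + 2))) := by
    have e1 : 2 * κ' + 3 = (κ' + 1) + (κ' + 2) := by ring
    rw [e1, pow_add (1 / ρ) (κ' + 1) (κ' + 2)]
    ring
  rw [h9]
  apply mul_le_mul_of_nonneg_left _ (by norm_num)
  exact mul_le_mul_of_nonneg_left hcard (by positivity)

theorem tmc_rect_real (n κ' : ℕ) (M : ℝ) (hM : 1 ≤ M) (N : ℝ) (hN : 0 ≤ N) :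
    ∃ C : ℝ, 0 < C ∧ ∀ ρ : ℝ, 0 < ρ → ρ ≤ 1 →
      ∀ {ι : Type} [Fintype ι] (w : ι → E n) (L : E (κ' + 2) →ₗᵢ[ℝ] E n)
        (G : E (κ' + 2) → E n),
      (∀ x y, ‖G x - G y‖ ≤ 1 / 8 * ‖x - y‖) → (∀ i, |‖w i‖ - 1| ≤ M * ρ) →
      (∀ i, ∃ y, ‖w i - (L y + G y)‖ ≤ M * ρ) →
      (∀ x : E n, ((Finset.univ.filter (fun i => ‖w i - x‖ ≤ ρ)).card : ℝ) ≤ N) →
      ∀ i, ((Finset.univ.filter (fun t : ι × ι × ι =>
        ‖w i + w t.1 - w t.2.1 - w t.2.2‖ ≤ 5 * ρ)).card : ℝ) ≤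
        C * (1 / ρ) ^ (2 * κ' + 3) := by
  classical
  set c : ℝ := N * (2 * ((9 / 8 * ((κ' : ℝ) + 2) + 2 * M) * (n + 1)) + 2) ^ n with hc
  set c5 : ℝ := N * (2 * (5 * ((n : ℝ) + 1)) + 2) ^ n with hc5
  set K : ℝ := 50 * M ^ 2 with hK
  set R : ℝ := 7 * M with hR
  have hM0 : 0 < M := by linarith
  have hc0 : 0 ≤ c := by positivity
  have hc50 : 0 ≤ c5 := by positivity
  have hK0 : 0 < K := by positivity
  have hR0 : 0 ≤ R := by positivity
  set D : ℝ := 2 * (c * (1 + 6 ^ (κ' + 2) * R ^ κ' * (4 * K + 2 * (κ' + 2) * R)) *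
        (c * (2 * R + 2) ^ (κ' + 2))) with hD
  have hD0 : 0 ≤ D := by positivity
  refine ⟨c5 * D + 1, by positivity, ?_⟩
  intro ρ hρ hρ1 ι _ w L G hG hw hy' hN' i
  choose y hy using hy'
  have hMρ : M * ρ ≤ M := by nlinarith
  have hnorm : ∀ a, ‖w a‖ ≤ 2 * M := by
    intro a
    have h1 := hw a
    rw [abs_le] at h1
    linarith
  have hR1 : ∀ a, ‖y a - y i‖ ≤ R := by
    intro a
    have h1 := tmc_low L G hG (y a) (y i)
    have h2 : ‖(L (y a) + G (y a)) - (L (y i) + G (y i))‖ ≤ 6 * M := by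
      have h3 : (L (y a) + G (y a)) - (L (y i) + G (y i)) =
          ((w a - w i) - (w a - (L (y a) + G (y a)))) + (w i - (L (y i) + G (y i))) := by abel
      rw [h3]
      have h4 := norm_add_le ((w a - w i) - (w a - (L (y a) + G (y a))))
        (w i - (L (y i) + G (y i)))
      have h5 := norm_sub_le (w a - w i) (w a - (L (y a) + G (y a)))
      have h6 := norm_sub_le (w a) (w i)
      linarith [hnorm a, hnorm i, hy a, hy i]
    rw [hR]
    linarith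
  have h3 : ∀ a, ((Finset.univ.filter
      (fun b => ‖y b - y a‖ ≤ (κ' + 2 : ℕ) * ρ)).card : ℝ) ≤ c := by
    intro a
    have h4 := tmc_ball n w ρ (9 / 8 * ((κ' : ℝ) + 2) + 2 * M) N hρ (by positivity) hN hN' (w a)
    refine le_trans (Nat.cast_le.mpr (Finset.card_le_card ?_)) h4
    intro b hb
    rw [Finset.mem_filter] at hb ⊢
    refine ⟨Finset.mem_univ _, ?_⟩
    have h5 := tmc_up L G hG (y b) (y a)
    have h6 : w b - w a = (((L (y b) + G (y b)) - (L (y a) + G (y a))) +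
        (w b - (L (y b) + G (y b)))) - (w a - (L (y a) + G (y a))) := by abel
    rw [h6]
    have h7 := norm_sub_le (((L (y b) + G (y b)) - (L (y a) + G (y a))) +
        (w b - (L (y b) + G (y b)))) (w a - (L (y a) + G (y a)))
    have h8 := norm_add_le ((L (y b) + G (y b)) - (L (y a) + G (y a)))
      (w b - (L (y b) + G (y b)))
    have h9 := hb.2
    push_cast at h9
    linarith [hy a, hy b]
  have hp := tmc_pairs L G hG y (y i) ρ K c R hρ hρ1 hK0 hc0 hR0 hR1 h3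
  rw [← hD] at hp
  set T := Finset.univ.filter (fun t : ι × ι × ι =>
    ‖w i + w t.1 - w t.2.1 - w t.2.2‖ ≤ 5 * ρ) with hT
  have h4 := tmc_card_le T (fun t => t.2) c5 (by
    intro t _
    have h5 := tmc_ball n w ρ 5 N hρ (by norm_num) hN hN' (w t.2.1 + w t.2.2 - w i)
    refine le_trans (Nat.cast_le.mpr ?_) h5
    apply Finset.card_le_card_of_injOn (fun x => x.1)
    · intro x hx
      rw [Finset.coe_filter, Set.mem_ofPred_eq] at hx
      obtain ⟨hx1, hx2⟩ := hx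
      rw [hT, Finset.mem_filter] at hx1
      rw [Finset.mem_coe, Finset.mem_filter]
      refine ⟨Finset.mem_univ _, ?_⟩
      have hx3 : x.2 = t.2 := hx2
      have h6 : w x.1 - (w t.2.1 + w t.2.2 - w i) = w i + w x.1 - w x.2.1 - w x.2.2 := by
        rw [hx3]
        abel
      show ‖w x.1 - (w t.2.1 + w t.2.2 - w i)‖ ≤ 5 * ρ
      rw [h6]
      exact hx1.2
    · intro x hx x' hx' hxx
      rw [Finset.coe_filter, Set.mem_ofPred_eq] at hx hx'
      exact Prod.ext hxx (hx.2.trans hx'.2.symm))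
  have h7 : T.image (fun t => t.2) ⊆ Finset.univ.filter (fun t : ι × ι =>
      |inner ℝ ((L (y t.1) + G (y t.1)) - (L (y i) + G (y i)))
        ((L (y t.2) + G (y t.2)) - (L (y i) + G (y i)))| ≤ K * ρ) := by
    intro s hs
    obtain ⟨t, ht, rfl⟩ := Finset.mem_image.mp hs
    rw [hT, Finset.mem_filter] at ht
    rw [Finset.mem_filter]
    refine ⟨Finset.mem_univ _, ?_⟩
    have h8 := tmc_key M ρ hM hρ hρ1 (w i) (w t.1) (w t.2.1) (w t.2.2) (hw i) (hw _) (hw _)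
      (hw _) ht.2
    exact tmc_key2 M ρ hM hρ hρ1 (w i) (w t.2.1) (w t.2.2) (L (y i) + G (y i))
      (L (y t.2.1) + G (y t.2.1)) (L (y t.2.2) + G (y t.2.2)) (hw i) (hw _) (hw _) (hy i)
      (hy _) (hy _) h8
  have h10 : ((T.image (fun t => t.2)).card : ℝ) ≤ D * (1 / ρ) ^ (2 * κ' + 3) :=
    (Nat.cast_le.mpr (Finset.card_le_card h7)).trans hp
  have h11 : 0 ≤ (1 / ρ) ^ (2 * κ' + 3) := by positivity
  calc (T.card : ℝ) ≤ c5 * (T.image (fun t => t.2)).card := h4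
    _ ≤ c5 * (D * (1 / ρ) ^ (2 * κ' + 3)) := mul_le_mul_of_nonneg_left h10 hc50
    _ ≤ (c5 * D + 1) * (1 / ρ) ^ (2 * κ' + 3) := by nlinarith

/-- **Rectangle count.** For a family `w` of points near the unit sphere and near a graph of
dimension `κ ≥ 2` with small slope, with boundedly many points in each `ρ`-ball, every `w i` is the
corner of at most `C ρ^{-(2κ-1)}` near-parallelograms. -/
theorem rect_count (n κ : ℕ) (hκ : 2 ≤ κ) (M : ℝ) (hM : 1 ≤ M) : ∃ C : ℝ, 0 < C ∧ ∀ ρ : ℝ,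
    0 < ρ → ρ ≤ 1 → ∀ {ι : Type} [Fintype ι] (w : ι → E n) (L : E κ →ₗᵢ[ℝ] E n)
    (G : E κ → E n), (∀ x y, ‖G x - G y‖ ≤ 1 / 8 * ‖x - y‖) → (∀ i, |‖w i‖ - 1| ≤ M * ρ) →
    (∀ i, ∃ y, ‖w i - (L y + G y)‖ ≤ M * ρ) →
    (∀ x : E n, ({i | ‖w i - x‖ ≤ ρ}.encard : ℕ∞) ≤ ⌈M⌉₊) →
    ∀ i, ({t : ι × ι × ι | ‖w i + w t.1 - w t.2.1 - w t.2.2‖ ≤ 5 * ρ}.encard : ℕ∞) ≤
      ⌈C * (1 / ρ) ^ (2 * κ - 1)⌉₊ := by
  classical
  obtain ⟨κ', rfl⟩ : ∃ κ', κ = κ' + 2 := ⟨κ - 2, by omega⟩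
  obtain ⟨C, hC, h⟩ := tmc_rect_real n κ' M hM (⌈M⌉₊ : ℝ) (Nat.cast_nonneg _)
  refine ⟨C, hC, ?_⟩
  intro ρ hρ hρ1 ι _ w L G hG hw hy hN i
  have h1 : ∀ x : E n,
      ((Finset.univ.filter (fun i => ‖w i - x‖ ≤ ρ)).card : ℝ) ≤ (⌈M⌉₊ : ℝ) := by
    intro x
    have h2 := hN x
    have h3 : {i | ‖w i - x‖ ≤ ρ} =
        ((Finset.univ.filter (fun i => ‖w i - x‖ ≤ ρ) : Finset ι) : Set ι) := by
      ext j; simp
    rw [h3, Set.encard_coe_eq_coe_finsetCard] at h2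
    exact_mod_cast h2
  have h4 := h ρ hρ hρ1 w L G hG hw hy h1 i
  have h5 : {t : ι × ι × ι | ‖w i + w t.1 - w t.2.1 - w t.2.2‖ ≤ 5 * ρ} =
      ((Finset.univ.filter (fun t : ι × ι × ι =>
        ‖w i + w t.1 - w t.2.1 - w t.2.2‖ ≤ 5 * ρ) : Finset (ι × ι × ι)) : Set (ι × ι × ι)) := by
    ext t; simp
  rw [h5, Set.encard_coe_eq_coe_finsetCard]
  have h6 : 2 * (κ' + 2) - 1 = 2 * κ' + 3 := by omega
  rw [h6]
  exact Nat.cast_le.mpr (Nat.cast_le.mp (h4.trans (Nat.le_ceil _)))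

/-- The same with `ncard`. -/
theorem tmc_rect_ncard (n κ : ℕ) (hκ : 2 ≤ κ) (M : ℝ) (hM : 1 ≤ M) (N : ℕ) : ∃ C : ℝ, 0 < C ∧
    ∀ ρ : ℝ, 0 < ρ → ρ ≤ 1 → ∀ {ι : Type} [Fintype ι] (w : ι → E n) (L : E κ →ₗᵢ[ℝ] E n)
    (G : E κ → E n), (∀ x y, ‖G x - G y‖ ≤ 1 / 8 * ‖x - y‖) → (∀ i, |‖w i‖ - 1| ≤ M * ρ) →
    (∀ i, ∃ y, ‖w i - (L y + G y)‖ ≤ M * ρ) →
    (∀ x : E n, {i | ‖w i - x‖ ≤ ρ}.ncard ≤ N) →
    ∀ i, ({t : ι × ι × ι | ‖w i + w t.1 - w t.2.1 - w t.2.2‖ ≤ 5 * ρ}.ncard : ℝ) ≤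
      C * (1 / ρ) ^ (2 * κ - 1) := by
  classical
  obtain ⟨κ', rfl⟩ : ∃ κ', κ = κ' + 2 := ⟨κ - 2, by omega⟩
  obtain ⟨C, hC, h⟩ := tmc_rect_real n κ' M hM (N : ℝ) (Nat.cast_nonneg _)
  refine ⟨C, hC, ?_⟩
  intro ρ hρ hρ1 ι _ w L G hG hw hy hN i
  have h1 : ∀ x : E n,
      ((Finset.univ.filter (fun i => ‖w i - x‖ ≤ ρ)).card : ℝ) ≤ (N : ℝ) := by
    intro x
    have h2 := hN x
    have h3 : {i | ‖w i - x‖ ≤ ρ} =
        ((Finset.univ.filter (fun i => ‖w i - x‖ ≤ ρ) : Finset ι) : Set ι) := by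
      ext j; simp
    rw [h3, Set.ncard_coe_finset] at h2
    exact_mod_cast h2
  have h4 := h ρ hρ hρ1 w L G hG hw hy h1 i
  have h5 : {t : ι × ι × ι | ‖w i + w t.1 - w t.2.1 - w t.2.2‖ ≤ 5 * ρ} =
      ((Finset.univ.filter (fun t : ι × ι × ι =>
        ‖w i + w t.1 - w t.2.1 - w t.2.2‖ ≤ 5 * ρ) : Finset (ι × ι × ι)) : Set (ι × ι × ι)) := by
    ext t; simp
  rw [h5, Set.ncard_coe_finset]
  have h6 : 2 * (κ' + 2) - 1 = 2 * κ' + 3 := by omega
  rw [h6]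
  exact h4

/-- Boundedly many points in each ball of radius `3 ρ`. -/
theorem tmc_near_ncard (n : ℕ) (N : ℕ) {ι : Type} [Fintype ι] (w : ι → E n) (ρ : ℝ) (hρ : 0 < ρ)
    (hN : ∀ x : E n, {i | ‖w i - x‖ ≤ ρ}.ncard ≤ N) (i : ι) :
    {j | ‖w i - w j‖ ≤ 3 * ρ}.ncard ≤ N * (6 * n + 8) ^ n := by
  classical
  have h1 : ∀ x : E n,
      ((Finset.univ.filter (fun i => ‖w i - x‖ ≤ ρ)).card : ℝ) ≤ (N : ℝ) := by
    intro x
    have h2 := hN x
    have h3 : {i | ‖w i - x‖ ≤ ρ} =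
        ((Finset.univ.filter (fun i => ‖w i - x‖ ≤ ρ) : Finset ι) : Set ι) := by
      ext j; simp
    rw [h3, Set.ncard_coe_finset] at h2
    exact_mod_cast h2
  have h4 := tmc_ball n w ρ 3 N hρ (by norm_num) (Nat.cast_nonneg _) h1 (w i)
  have h5 : {j | ‖w i - w j‖ ≤ 3 * ρ} =
      ((Finset.univ.filter (fun j => ‖w j - w i‖ ≤ 3 * ρ) : Finset ι) : Set ι) := by
    ext t
    simp [norm_sub_rev]
  rw [h5, Set.ncard_coe_finset]
  have h6 : (N : ℝ) * (2 * (3 * ((n : ℝ) + 1)) + 2) ^ n = ((N * (6 * n + 8) ^ n : ℕ) : ℝ) := by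
    push_cast
    congr 2
    ring
  rw [h6] at h4
  exact_mod_cast h4

end Pool.Agent.GNP.TMR
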