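import Pool.Agent.GNP.TMR4
import Pool.Agent.GNP.TMC

/-!
Almost orthogonality for caps along finitely many Lipschitz graphs in the sphere.
-/

set_option autoImplicit false

namespace Pool.Agent.GNP.TMR

open MeasureTheory Set Pool.Agent.MP_6cbfb8_an SchwartzMap
open scoped ENNReal Real RealInnerProductSpace ContDiff ComplexConjugate

theorem spec_extnS {n : ℕ} {w : E n} {ρ : ℝ} {g : E n → ℂ}
    (hg : ContinuousOn g (Metric.sphere 0 1))
    (hs : ∀ x, ‖x‖ = 1 → ρ < ‖x - w‖ → g x = 0) : Spec w ρ (extn g) := by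
  have hc : Continuous fun x : S n => g x := continuousOn_iff_continuous_domRestrict.1 hg
  refine ⟨S n, inferInstance, sm n, fun x => g x, fun x => (x : E n), inferInstance, ?_,
    measurable_subtype_coe, fun x hx => ?_, fun ξ => rfl⟩
  · obtain ⟨B, hB⟩ := (isCompact_range hc).isBounded.exists_norm_le
    exact Integrable.of_bound hc.aestronglyMeasurable B
      (Filter.Eventually.of_forall fun x => hB _ (mem_range_self x))
  · by_contra h
    exact hx (hs x (by simp) (not_le.1 h))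

theorem extn_sum {n : ℕ} {ι : Type} [Fintype ι] (g : ι → E n → ℂ)
    (hg : ∀ i, ContinuousOn (g i) (Metric.sphere 0 1)) (ξ : E n) :
    extn (fun y => ∑ i, g i y) ξ = ∑ i, extn (g i) ξ := by
  unfold extn
  rw [← integral_finsetSum]
  · refine integral_congr_ae (Filter.Eventually.of_forall fun x => ?_)
    simp only [Finset.sum_mul]
  · intro i _
    have hc : Continuous fun x : S n => g i x := continuousOn_iff_continuous_domRestrict.1 (hg i)
    have h2 : Continuous fun x : S n => g i x *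
        Complex.exp (((-(2 * π * inner ℝ (x : E n) ξ) : ℝ) : ℂ) * Complex.I) :=
      hc.mul (by fun_prop)
    obtain ⟨B, hB⟩ := (isCompact_range h2).isBounded.exists_norm_le
    exact Integrable.of_bound h2.aestronglyMeasurable B
      (Filter.Eventually.of_forall fun x => hB _ (mem_range_self x))

/-- Almost orthogonality for caps of radius `ρ` whose centres lie within `9 ρ` of finitely many
`κ`-dimensional Lipschitz graphs. -/
theorem orth_surf (n κ : ℕ) (hκ : 2 ≤ κ) (M P : ℕ) (p : ℝ) (hp : 2 ≤ p) (hp4 : p ≤ 4) :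
    ∃ C : ℝ, 0 < C ∧ ∀ (N : ℕ) (ρ : ℝ) (x : Fin N → E n) (g : Fin N → E n → ℂ)
      (L : Fin P → (E κ →ₗᵢ[ℝ] E n)) (G : Fin P → E κ → E n), 0 < ρ → ρ ≤ 1 →
      (∀ i, ContinuousOn (g i) (Metric.sphere 0 1)) →
      (∀ i y, ‖y‖ = 1 → ρ < ‖y - x i‖ → g i y = 0) →
      (∀ y, {i | ‖y - x i‖ < 4 * ρ}.encard ≤ M) →
      (∀ a u v, ‖G a u - G a v‖ ≤ 1 / 8 * ‖u - v‖) → (∀ i, ‖x i‖ = 1) →
      (∀ i, ∃ a y, ‖x i - (L a y + G a y)‖ ≤ 9 * ρ) →
      ∫⁻ ξ, ‖extn (fun y => ∑ i, g i y) ξ‖ₑ ^ p ≤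
        ENNReal.ofReal (C * (2 + Real.log N) ^ p *
          (1 / ρ) ^ (((2 * κ - 1 : ℕ) : ℝ) * ((p - 2) / 2))) *
          ∑ i, ∫⁻ ξ, ‖extn (g i) ξ‖ₑ ^ p := by
  obtain ⟨C1, hC1, hq⟩ := orthQ n p hp hp4
  obtain ⟨C2, hC2, hr⟩ := rect_count n κ hκ (M + 9) (by
    have : (0 : ℝ) ≤ M := Nat.cast_nonneg _
    linarith)
  have hp0 : 0 < p := by linarith
  refine ⟨((P : ℝ) + 1) ^ (p - 1) * (C1 * (((M + 1 : ℕ) : ℝ) ^ ((4 - p) / 2) *
    (C2 + 1) ^ ((p - 2) / 2))), by positivity, ?_⟩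
  intro N ρ x g L G hρ hρ1 hg hs hM hG hx hnear
  choose a ya hya using hnear
  have hF : ∀ i, Spec (x i) ρ (extn (g i)) := fun i => spec_extnS (hg i) (hs i)
  have hfib : ∀ ξ, extn (fun y => ∑ i, g i y) ξ =
      ∑ b : Fin P, ∑ i : {i : Fin N // a i = b}, extn (g i) ξ := by
    intro ξ
    rw [extn_sum g hg, Fintype.sum_fiberwise a fun i => extn (g i) ξ]
  -- one patch
  set Q : ℕ := ⌈C2 * (1 / ρ) ^ (2 * κ - 1)⌉₊ with hQ
  have hQ1 : 1 ≤ Q := Nat.one_le_iff_ne_zero.2 (Nat.ceil_pos.2 (by positivity)).ne'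
  have hρinv : 1 ≤ 1 / ρ := by rw [le_div_iff₀ hρ]; linarith
  have hQle : (Q : ℝ) ≤ (C2 + 1) * (1 / ρ) ^ (2 * κ - 1) := by
    have h1 := (Nat.ceil_lt_add_one (a := C2 * (1 / ρ) ^ (2 * κ - 1)) (by positivity)).le
    have h2 : 1 ≤ (1 / ρ) ^ (2 * κ - 1) := one_le_pow₀ hρinv
    calc (Q : ℝ) ≤ C2 * (1 / ρ) ^ (2 * κ - 1) + 1 := h1
      _ ≤ _ := by rw [add_mul, one_mul]; linarith
  have hpatch : ∀ b : Fin P, ∫⁻ ξ, ‖∑ i : {i : Fin N // a i = b}, extn (g i) ξ‖ₑ ^ p ≤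
      ENNReal.ofReal (C1 * (2 + Real.log (Fintype.card {i : Fin N // a i = b})) ^ p *
        (((M + 1 : ℕ) : ℝ) ^ ((4 - p) / 2) * (Q : ℝ) ^ ((p - 2) / 2))) *
        ∑ i : {i : Fin N // a i = b}, ∫⁻ ξ, ‖extn (g i) ξ‖ₑ ^ p := by
    intro b
    refine hq ρ hρ (fun i : {i : Fin N // a i = b} => x i) (fun i => extn (g i)) (M + 1) Q
      (by omega) hQ1 (fun i => hF i) (fun i => ?_) (fun i => ?_)
    · refine ENat.toNat_le_of_le_natCast ?_
      rw [← Subtype.val_injective.encard_image]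
      have h1 : (Subtype.val '' {j : {i : Fin N // a i = b} | ‖x i - x j‖ ≤ 3 * ρ}) ⊆
          {j | ‖x i - x j‖ < 4 * ρ} := by
        rintro _ ⟨j, hj, rfl⟩
        have : ‖x i - x j‖ ≤ 3 * ρ := hj
        show ‖x i - x j‖ < 4 * ρ
        linarith
      refine (Set.encard_le_encard h1).trans ((hM (x i)).trans ?_)
      exact_mod_cast Nat.le_succ M
    · refine ENat.toNat_le_of_le_natCast ?_
      refine hr ρ hρ hρ1 (fun i : {i : Fin N // a i = b} => x i) (L b) (G b) (hG b) (fun j => ?_)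
        (fun j => ?_) (fun y => ?_) i
      · rw [hx, sub_self, abs_zero]; positivity
      · refine ⟨ya j, ?_⟩
        have h1 := hya j
        rw [j.2] at h1
        refine h1.trans ?_
        have : (0 : ℝ) ≤ M := Nat.cast_nonneg _
        gcongr
        linarith
      · rw [← Subtype.val_injective.encard_image]
        have h1 : (Subtype.val '' {j : {i : Fin N // a i = b} | ‖x j - y‖ ≤ ρ}) ⊆
            {j | ‖y - x j‖ < 4 * ρ} := by
          rintro _ ⟨j, hj, rfl⟩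
          have : ‖x j - y‖ ≤ ρ := hj
          show ‖y - x j‖ < 4 * ρ
          rw [norm_sub_rev]
          linarith
        refine (Set.encard_le_encard h1).trans ((hM y).trans ?_)
        have h2 : (M : ℝ) ≤ (⌈(M : ℝ) + 9⌉₊ : ℝ) := by
          have := Nat.le_ceil ((M : ℝ) + 9)
          linarith
        exact_mod_cast h2
  -- the constant of one patch
  have hQp : (Q : ℝ) ^ ((p - 2) / 2) ≤
      (C2 + 1) ^ ((p - 2) / 2) * (1 / ρ) ^ (((2 * κ - 1 : ℕ) : ℝ) * ((p - 2) / 2)) := by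
    refine (Real.rpow_le_rpow (Nat.cast_nonneg _) hQle (by linarith)).trans (le_of_eq ?_)
    rw [Real.mul_rpow (by positivity) (by positivity), ← Real.rpow_natCast (1 / ρ),
      ← Real.rpow_mul (by positivity)]
  set Θ : ℝ := (2 + Real.log N) ^ p * (1 / ρ) ^ (((2 * κ - 1 : ℕ) : ℝ) * ((p - 2) / 2)) with hΘ
  have hlogN : 0 ≤ Real.log (N : ℝ) := Real.log_natCast_nonneg _
  have hK : ∀ b : Fin P, C1 * (2 + Real.log (Fintype.card {i : Fin N // a i = b})) ^ p *
        (((M + 1 : ℕ) : ℝ) ^ ((4 - p) / 2) * (Q : ℝ) ^ ((p - 2) / 2)) ≤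
      C1 * (((M + 1 : ℕ) : ℝ) ^ ((4 - p) / 2) * (C2 + 1) ^ ((p - 2) / 2)) * Θ := by
    intro b
    have h1 : Real.log (Fintype.card {i : Fin N // a i = b}) ≤ Real.log N := by
      have h2 : Fintype.card {i : Fin N // a i = b} ≤ N := by
        simpa using Fintype.card_subtype_le fun i : Fin N => a i = b
      rcases Nat.eq_zero_or_pos (Fintype.card {i : Fin N // a i = b}) with h0 | h0
      · rw [h0]; simpa using hlogN
      · exact Real.log_le_log (by exact_mod_cast h0) (by exact_mod_cast h2)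
    have h3 : 0 ≤ Real.log (Fintype.card {i : Fin N // a i = b}) := Real.log_natCast_nonneg _
    calc _ ≤ C1 * (2 + Real.log N) ^ p * (((M + 1 : ℕ) : ℝ) ^ ((4 - p) / 2) *
          ((C2 + 1) ^ ((p - 2) / 2) * (1 / ρ) ^ (((2 * κ - 1 : ℕ) : ℝ) * ((p - 2) / 2)))) := by
          gcongr
      _ = _ := by rw [hΘ]; ring
  set K : ℝ := C1 * (((M + 1 : ℕ) : ℝ) ^ ((4 - p) / 2) * (C2 + 1) ^ ((p - 2) / 2)) * Θ with hKd
  have hK0 : 0 ≤ K := by positivity
  have h1 : ∫⁻ ξ, ‖extn (fun y => ∑ i, g i y) ξ‖ₑ ^ p ≤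
      ∫⁻ ξ, ENNReal.ofReal (((P : ℝ) + 1) ^ (p - 1)) *
        ∑ b : Fin P, ‖∑ i : {i : Fin N // a i = b}, extn (g i) ξ‖ₑ ^ p := by
    refine lintegral_mono fun ξ => ?_
    beta_reduce
    rw [hfib]
    refine (ENNReal.rpow_le_rpow (enorm_sum_le _ _) hp0.le).trans ?_
    refine (ENNReal.rpow_sum_le_const_mul_sum_rpow _ _ (by linarith)).trans ?_
    gcongr
    rw [Finset.card_univ, Fintype.card_fin, ← ENNReal.ofReal_rpow_of_nonneg (by positivity)
      (by linarith)]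
    refine ENNReal.rpow_le_rpow ?_ (by linarith)
    rw [← ENNReal.ofReal_natCast]
    exact ENNReal.ofReal_le_ofReal (by linarith)
  refine h1.trans ?_
  rw [lintegral_const_mul' _ _ ENNReal.ofReal_ne_top, lintegral_finsetSum]
  · have h2 : ∑ b : Fin P, ∫⁻ ξ, ‖∑ i : {i : Fin N // a i = b}, extn (g i) ξ‖ₑ ^ p ≤
        ENNReal.ofReal K * ∑ i, ∫⁻ ξ, ‖extn (g i) ξ‖ₑ ^ p := by
      rw [← Fintype.sum_fiberwise a fun i => ∫⁻ ξ, ‖extn (g i) ξ‖ₑ ^ p, Finset.mul_sum]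
      refine Finset.sum_le_sum fun b _ => (hpatch b).trans ?_
      gcongr
      exact hK b
    calc _ ≤ ENNReal.ofReal (((P : ℝ) + 1) ^ (p - 1)) * (ENNReal.ofReal K *
          ∑ i, ∫⁻ ξ, ‖extn (g i) ξ‖ₑ ^ p) := by gcongr
      _ = _ := by
        rw [← mul_assoc, ← ENNReal.ofReal_mul (by positivity)]
        congr 2
        rw [hKd, hΘ]
        ring
  · intro b _
    have hcont : Continuous fun ξ : E n => ∑ i : {i : Fin N // a i = b}, extn (g i) ξ :=
      continuous_finsetSum _ fun i _ => (hF i).cont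
    exact hcont.enorm.measurable.pow_const p

end Pool.Agent.GNP.TMR
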