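import Pool.Agent.GNP.TMD
import Pool.Agent.GNP.TMR5

/-!
# [DEC] From local decoupling at one exponent to the orthogonality of caps.
-/

set_option autoImplicit false

namespace Pool.Agent.GNP.TM

open MeasureTheory Set Filter Topology Pool.Agent.MP_6cbfb8_an Pool.Agent.GNP.TMR
open scoped ENNReal ContDiff Real

/-- The weight of the ball of centre `y` and radius `ρ⁻²`. -/
noncomputable def wy {n : ℕ} (ρ : ℝ) (y ξ : E n) : ℝ≥0∞ :=
  ENNReal.ofReal (((1 + ρ ^ 2 * ‖ξ - y‖) ^ (n + 1))⁻¹)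

/-- Local `ℓ²`-decoupling of the sphere into caps of radius `ρ` on balls of radius `ρ⁻²`. -/
def LocDec (n : ℕ) (q : ℝ) : Prop :=
  ∀ (M : ℕ) (ε : ℝ), 0 < ε → ∃ C : ℝ≥0∞, C ≠ ⊤ ∧ ∀ (N : ℕ) (ρ : ℝ)
      (x : Fin N → E n) (g : Fin N → E n → ℂ), 0 < ρ → ρ ≤ 1 →
      (∀ i, ContinuousOn (g i) (Metric.sphere 0 1)) →
      (∀ i y, ‖y‖ = 1 → ρ < ‖y - x i‖ → g i y = 0) →
      (∀ y, {i | ‖y - x i‖ < 4 * ρ}.encard ≤ M) → ∀ y : E n,
      ∫⁻ ξ in Metric.ball y ((ρ ^ 2)⁻¹), ‖extn (fun y => ∑ i, g i y) ξ‖ₑ ^ q ≤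
        C * ENNReal.ofReal (ρ ^ (-ε)) *
          (∑ i, (∫⁻ ξ, wy ρ y ξ * ‖extn (g i) ξ‖ₑ ^ q) ^ (2 / q)) ^ (q / 2)

theorem psum {ι : Type*} [Fintype ι] (S : ι → ℝ≥0∞) {t : ℝ} (ht0 : 0 < t) (ht1 : t ≤ 1) :
    ∑ i, S i ^ t ≤ (Fintype.card ι : ℝ≥0∞) ^ (1 - t) * (∑ i, S i) ^ t := by
  have h1 : 1 ≤ 1 / t := by rw [le_div_iff₀ ht0]; linarith
  have h := ENNReal.rpow_sum_le_const_mul_sum_rpow Finset.univ (fun i => S i ^ t) h1
  have h2 := ENNReal.rpow_le_rpow h ht0.le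
  rw [← ENNReal.rpow_mul, one_div_mul_cancel ht0.ne', ENNReal.rpow_one,
    ENNReal.mul_rpow_of_nonneg _ _ ht0.le, ← ENNReal.rpow_mul] at h2
  refine h2.trans (le_of_eq ?_)
  rw [Finset.card_univ]
  congr 2
  · field_simp
  · refine Finset.sum_congr rfl fun i _ => ?_
    rw [← ENNReal.rpow_mul, mul_one_div_cancel ht0.ne', ENNReal.rpow_one]

/-- The integral of the weight. -/
theorem wy_lint {n : ℕ} {ρ : ℝ} (hρ : 0 < ρ) (ξ : E n) :
    ∫⁻ y, wy ρ y ξ = ENNReal.ofReal (((ρ ^ 2) ^ n)⁻¹) *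
      ∫⁻ ξ : E n, ENNReal.ofReal (((1 + ‖ξ‖) ^ (n + 1))⁻¹) := by
  have h2 : 0 < ρ ^ 2 := by positivity
  rw [← TMR.lint_scale (f := fun ξ : E n => ENNReal.ofReal (((1 + ‖ξ‖) ^ (n + 1))⁻¹)) h2 ξ]
  refine lintegral_congr fun y => ?_
  unfold wy
  simp only [norm_smul, Real.norm_eq_abs, abs_of_pos h2]
  rw [norm_sub_rev]

theorem wy_lint' {n : ℕ} {ρ : ℝ} (hρ : 0 < ρ) (y : E n) :
    ∫⁻ ξ, wy ρ y ξ = ENNReal.ofReal (((ρ ^ 2) ^ n)⁻¹) *
      ∫⁻ ξ : E n, ENNReal.ofReal (((1 + ‖ξ‖) ^ (n + 1))⁻¹) := by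
  rw [← wy_lint hρ y]
  refine lintegral_congr fun ξ => ?_
  unfold wy
  rw [norm_sub_rev]

theorem wy_meas {n : ℕ} (ρ : ℝ) : Measurable fun z : E n × E n => wy ρ z.1 z.2 := by
  unfold wy
  fun_prop

/-- From the exponent `q` to larger exponents. -/
theorem orthG_of_loc {n : ℕ} {q p ε : ℝ} (hq : 2 ≤ q) (hqp : q ≤ p) (hε : 0 < ε)
    (hloc : LocDec n q) :
    OrthG n p (p / 2 - 1 + (p - q) / 2) (ε + 2 * n * (1 - q / p)) := by
  have hp0 : 0 < p := by linarith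
  have hq0 : 0 < q := by linarith
  intro M
  obtain ⟨C, hC, hdec⟩ := hloc M ε hε
  obtain ⟨C1, hC1, hlc⟩ := local_const n p (by linarith) (n + 1)
  set ω0 : ℝ≥0∞ := ∫⁻ ξ : E n, ENNReal.ofReal (((1 + ‖ξ‖) ^ (n + 1))⁻¹) with hω0
  have hω : ω0 ≠ ⊤ := (wN_fin (Nat.lt_succ_self n)).ne
  set v : ℝ≥0∞ := volume (Metric.ball (0 : E n) 1) with hv
  have hv0 : v ≠ 0 := (Metric.measure_ball_pos volume 0 one_pos).ne'
  have hvt : v ≠ ⊤ := measure_ball_lt_top.ne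
  set C2 : ℝ≥0∞ := ENNReal.ofReal (C1 * 2 ^ (n + 1)) with hC2
  refine ⟨C * C2 ^ ((p - q) / p) * ω0 ^ (1 - q / p) * ω0 / v, ?_, ?_⟩
  · refine ENNReal.div_ne_top (ENNReal.mul_ne_top (ENNReal.mul_ne_top (ENNReal.mul_ne_top hC ?_) ?_)
      hω) hv0
    · exact ENNReal.rpow_ne_top_of_nonneg (div_nonneg (by linarith) hp0.le) ENNReal.ofReal_ne_top
    · refine ENNReal.rpow_ne_top_of_nonneg ?_ hω
      rw [sub_nonneg, div_le_one hp0]
      exact hqp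
  intro N ρ x g hρ hρ1 hg hs hM
  set F : E n → ℂ := extn (fun y => ∑ i, g i y) with hF
  set S : Fin N → E n → ℝ≥0∞ := fun i y => ∫⁻ ξ, wy ρ y ξ * ‖extn (g i) ξ‖ₑ ^ p with hS
  have hsp : ∀ i, Spec (0 : E n) 1 (extn (g i)) := fun i =>
    spec_extnS (hg i) fun y hy hy2 => absurd hy2 (by rw [sub_zero, hy]; exact lt_irrefl 1)
  have hFc : Continuous F := by
    have h1 : F = fun ξ => ∑ i, extn (g i) ξ := funext fun ξ => TMR.extn_sum g hg ξ
    rw [h1]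
    exact continuous_finsetSum _ fun i _ => (hsp i).cont
  -- local constancy at scale one
  have hlc1 : ∀ i y ξ, ξ ∈ Metric.ball y ((ρ ^ 2)⁻¹) → ‖extn (g i) ξ‖ₑ ^ p ≤ C2 * S i y := by
    intro i y ξ hξ
    have h1 := hlc 1 one_pos 0 (extn (g i)) (hsp i) ξ ξ
    rw [sub_self, norm_zero, mul_zero, add_zero, one_pow, mul_one,
      ← ENNReal.ofReal_rpow_of_nonneg (norm_nonneg _) hp0.le, ofReal_norm] at h1
    refine h1.trans ?_
    rw [hC2, ENNReal.ofReal_mul hC1.le, mul_assoc]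
    gcongr
    rw [hS, ← lintegral_const_mul' _ _ ENNReal.ofReal_ne_top]
    refine lintegral_mono fun η => ?_
    beta_reduce
    rw [← mul_assoc]
    gcongr
    unfold wy
    rw [← ENNReal.ofReal_mul (by positivity)]
    refine ENNReal.ofReal_le_ofReal ?_
    rw [one_pow, one_mul, one_mul]
    have h2 : 1 + ρ ^ 2 * ‖η - y‖ ≤ 2 * (1 + ‖η - ξ‖) := by
      have h3 : ‖η - y‖ ≤ ‖η - ξ‖ + ‖ξ - y‖ := by
        calc ‖η - y‖ = ‖(η - ξ) + (ξ - y)‖ := by congr 1; abel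
          _ ≤ _ := norm_add_le _ _
      have h4 : ‖ξ - y‖ < (ρ ^ 2)⁻¹ := mem_ball_iff_norm.1 hξ
      have h5 : ρ ^ 2 * ‖ξ - y‖ ≤ 1 := by
        calc ρ ^ 2 * ‖ξ - y‖ ≤ ρ ^ 2 * (ρ ^ 2)⁻¹ := by gcongr
          _ = 1 := mul_inv_cancel₀ (by positivity)
      have h6 : ρ ^ 2 ≤ 1 := pow_le_one₀ hρ.le hρ1
      have h7 : ρ ^ 2 * ‖η - ξ‖ ≤ ‖η - ξ‖ := by
        have := norm_nonneg (η - ξ)
        nlinarith
      have h8 : ρ ^ 2 * ‖η - y‖ ≤ ρ ^ 2 * ‖η - ξ‖ + ρ ^ 2 * ‖ξ - y‖ := by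
        rw [← mul_add]
        gcongr
      have := norm_nonneg (η - ξ)
      linarith
    have h9 : (1 + ρ ^ 2 * ‖η - y‖) ^ (n + 1) ≤ 2 ^ (n + 1) * (1 + ‖η - ξ‖) ^ (n + 1) := by
      rw [← mul_pow]
      exact pow_le_pow_left₀ (by positivity) h2 _
    rw [inv_eq_one_div, inv_eq_one_div, mul_one_div, div_le_div_iff₀ (by positivity) (by positivity),
      one_mul]
    exact h9
  -- one ball
  set Z : ℝ≥0∞ := ENNReal.ofReal (((ρ ^ 2) ^ n)⁻¹) * ω0 with hZ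
  have hball : ∀ y, ∫⁻ ξ in Metric.ball y ((ρ ^ 2)⁻¹), ‖F ξ‖ₑ ^ p ≤
      (C * C2 ^ ((p - q) / p)) * ENNReal.ofReal (ρ ^ (-ε)) * Z ^ (1 - q / p) *
        (N : ℝ≥0∞) ^ (p / 2 - 1 + (p - q) / 2) * ∑ i, S i y := by
    intro y
    set U : ℝ≥0∞ := ∑ i, S i y with hU
    have hNc : (Fintype.card (Fin N) : ℝ≥0∞) = N := by rw [Fintype.card_fin]
    have hpq0 : 0 ≤ p - q := by linarith
    -- the sup bound
    set K1 : ℝ≥0∞ := ∑ i, (C2 * S i y) ^ (1 / p) with hK1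
    have hsup : ∀ ξ ∈ Metric.ball y ((ρ ^ 2)⁻¹), ‖F ξ‖ₑ ≤ K1 := by
      intro ξ hξ
      rw [hF, TMR.extn_sum g hg ξ]
      refine (enorm_sum_le _ _).trans (Finset.sum_le_sum fun i _ => ?_)
      have h1 := ENNReal.rpow_le_rpow (hlc1 i y ξ hξ) (by positivity : 0 ≤ 1 / p)
      rwa [← ENNReal.rpow_mul, mul_one_div_cancel hp0.ne', ENNReal.rpow_one] at h1
    have hK1le : K1 ≤ (N : ℝ≥0∞) ^ (1 - 1 / p) * (C2 * U) ^ (1 / p) := by
      have h1 := psum (fun i => C2 * S i y) (t := 1 / p) (by positivity) (by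
        rw [div_le_one hp0]; linarith)
      rw [hNc, ← Finset.mul_sum] at h1
      exact h1
    have h1 : ∫⁻ ξ in Metric.ball y ((ρ ^ 2)⁻¹), ‖F ξ‖ₑ ^ p ≤
        K1 ^ (p - q) * ∫⁻ ξ in Metric.ball y ((ρ ^ 2)⁻¹), ‖F ξ‖ₑ ^ q := by
      rw [← lintegral_const_mul _ (hFc.enorm.measurable.pow_const q)]
      refine setLIntegral_mono_ae ?_ (Filter.Eventually.of_forall fun ξ hξ => ?_)
      · exact ((hFc.enorm.measurable.pow_const q).const_mul _).aemeasurable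
      · have h2 : ‖F ξ‖ₑ ^ p = ‖F ξ‖ₑ ^ (p - q) * ‖F ξ‖ₑ ^ q := by
          rw [← ENNReal.rpow_add_of_nonneg _ _ hpq0 hq0.le]
          congr 1
          ring
        rw [h2]
        gcongr
        exact hsup ξ hξ
    have h3 := hdec N ρ x g hρ hρ1 hg hs hM y
    have h4 : ∀ i, (∫⁻ ξ, wy ρ y ξ * ‖extn (g i) ξ‖ₑ ^ q) ^ (2 / q) ≤
        (Z ^ (p / q - 1) * S i y) ^ (2 / p) := by
      intro i
      have h5 := jensen_lint (volume : Measure (E n)) (p := p / q) (by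
        rw [le_div_iff₀ hq0]; linarith) (k := fun ξ => wy ρ y ξ)
        (f := fun ξ => ‖extn (g i) ξ‖ₑ ^ q) (by
          have h5 : Measurable fun ξ : E n => wy ρ y ξ := by
            unfold wy
            fun_prop
          exact h5.aemeasurable) ((hsp i).cont.enorm.measurable.pow_const q).aemeasurable
      rw [wy_lint' hρ] at h5
      have h6 : ∀ ξ : E n, (‖extn (g i) ξ‖ₑ ^ q) ^ (p / q) = ‖extn (g i) ξ‖ₑ ^ p := by
        intro ξ
        rw [← ENNReal.rpow_mul, mul_div_cancel₀ _ hq0.ne']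
      simp_rw [h6] at h5
      have h7 := ENNReal.rpow_le_rpow h5 (by positivity : 0 ≤ 2 / p)
      rw [← ENNReal.rpow_mul, show p / q * (2 / p) = 2 / q by field_simp] at h7
      exact h7
    have h8 : (∑ i, (∫⁻ ξ, wy ρ y ξ * ‖extn (g i) ξ‖ₑ ^ q) ^ (2 / q)) ^ (q / 2) ≤
        (N : ℝ≥0∞) ^ ((1 - 2 / p) * (q / 2)) * (Z ^ (1 - q / p) * U ^ (q / p)) := by
      have h9 : ∑ i, (∫⁻ ξ, wy ρ y ξ * ‖extn (g i) ξ‖ₑ ^ q) ^ (2 / q) ≤
          (N : ℝ≥0∞) ^ (1 - 2 / p) * (Z ^ (p / q - 1) * U) ^ (2 / p) := by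
        refine (Finset.sum_le_sum fun i _ => h4 i).trans ?_
        have h10 := psum (fun i => Z ^ (p / q - 1) * S i y) (t := 2 / p) (by positivity) (by
          rw [div_le_one hp0]; linarith)
        rw [hNc, ← Finset.mul_sum] at h10
        exact h10
      have h11 := ENNReal.rpow_le_rpow h9 (by positivity : 0 ≤ q / 2)
      rw [ENNReal.mul_rpow_of_nonneg _ _ (by positivity), ← ENNReal.rpow_mul, ← ENNReal.rpow_mul,
        show 2 / p * (q / 2) = q / p by field_simp,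
        ENNReal.mul_rpow_of_nonneg _ _ (by positivity), ← ENNReal.rpow_mul,
        show (p / q - 1) * (q / p) = 1 - q / p by field_simp] at h11
      exact h11
    have h12 : K1 ^ (p - q) ≤ (N : ℝ≥0∞) ^ ((1 - 1 / p) * (p - q)) *
        (C2 ^ ((p - q) / p) * U ^ ((p - q) / p)) := by
      have h13 := ENNReal.rpow_le_rpow hK1le hpq0
      rw [ENNReal.mul_rpow_of_nonneg _ _ hpq0, ← ENNReal.rpow_mul, ← ENNReal.rpow_mul,
        show 1 / p * (p - q) = (p - q) / p by field_simp,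
        ENNReal.mul_rpow_of_nonneg _ _ (by positivity)] at h13
      exact h13
    have hNe : (N : ℝ≥0∞) ^ ((1 - 1 / p) * (p - q)) * (N : ℝ≥0∞) ^ ((1 - 2 / p) * (q / 2)) =
        (N : ℝ≥0∞) ^ (p / 2 - 1 + (p - q) / 2) := by
      have h14 : 0 ≤ 1 - 1 / p := by
        rw [sub_nonneg, div_le_one hp0]; linarith
      have h15 : 0 ≤ 1 - 2 / p := by
        rw [sub_nonneg, div_le_one hp0]; linarith
      rw [← ENNReal.rpow_add_of_nonneg _ _ (mul_nonneg h14 hpq0) (mul_nonneg h15 (by positivity))]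
      congr 1
      field_simp
      ring
    have hUe : U ^ ((p - q) / p) * U ^ (q / p) = U := by
      rw [← ENNReal.rpow_add_of_nonneg _ _ (by positivity) (by positivity),
        show (p - q) / p + q / p = 1 by field_simp; ring, ENNReal.rpow_one]
    calc ∫⁻ ξ in Metric.ball y ((ρ ^ 2)⁻¹), ‖F ξ‖ₑ ^ p
        ≤ K1 ^ (p - q) * ∫⁻ ξ in Metric.ball y ((ρ ^ 2)⁻¹), ‖F ξ‖ₑ ^ q := h1
      _ ≤ ((N : ℝ≥0∞) ^ ((1 - 1 / p) * (p - q)) * (C2 ^ ((p - q) / p) * U ^ ((p - q) / p))) *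
          (C * ENNReal.ofReal (ρ ^ (-ε)) * ((N : ℝ≥0∞) ^ ((1 - 2 / p) * (q / 2)) *
            (Z ^ (1 - q / p) * U ^ (q / p)))) := by
          refine mul_le_mul' h12 (h3.trans ?_)
          gcongr
      _ = (C * C2 ^ ((p - q) / p)) * ENNReal.ofReal (ρ ^ (-ε)) * Z ^ (1 - q / p) *
          ((N : ℝ≥0∞) ^ ((1 - 1 / p) * (p - q)) * (N : ℝ≥0∞) ^ ((1 - 2 / p) * (q / 2))) *
          (U ^ ((p - q) / p) * U ^ (q / p)) := by ring
      _ = _ := by rw [hNe, hUe]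
  -- integration over the balls
  have hL : ∫⁻ y : E n, ∫⁻ ξ in Metric.ball y ((ρ ^ 2)⁻¹), ‖F ξ‖ₑ ^ p =
      (ENNReal.ofReal (((ρ ^ 2) ^ n)⁻¹) * v) * ∫⁻ ξ, ‖F ξ‖ₑ ^ p := by
    have h1 : ∀ y : E n, ∫⁻ ξ in Metric.ball y ((ρ ^ 2)⁻¹), ‖F ξ‖ₑ ^ p =
        ∫⁻ ξ, (Metric.ball y ((ρ ^ 2)⁻¹)).indicator (fun ξ => ‖F ξ‖ₑ ^ p) ξ := fun y =>
      (lintegral_indicator measurableSet_ball _).symm
    simp_rw [h1]
    rw [lintegral_lintegral_swap]
    · have h2 : ∀ ξ : E n, ∫⁻ y, (Metric.ball y ((ρ ^ 2)⁻¹)).indicator (fun ξ => ‖F ξ‖ₑ ^ p) ξ =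
          (ENNReal.ofReal (((ρ ^ 2) ^ n)⁻¹) * v) * ‖F ξ‖ₑ ^ p := by
        intro ξ
        have h3 : ∀ y : E n, (Metric.ball y ((ρ ^ 2)⁻¹)).indicator (fun ξ => ‖F ξ‖ₑ ^ p) ξ =
            (Metric.ball ξ ((ρ ^ 2)⁻¹)).indicator (fun _ => ‖F ξ‖ₑ ^ p) y := by
          intro y
          simp only [Set.indicator, Metric.mem_ball, dist_comm]
        simp_rw [h3]
        rw [lintegral_indicator measurableSet_ball, setLIntegral_const,
          Measure.addHaar_ball_of_pos volume ξ (by positivity), finrank_euclideanSpace_fin,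
          inv_pow, mul_comm]
      simp_rw [h2]
      rw [lintegral_const_mul _ (hFc.enorm.measurable.pow_const p)]
    · refine Measurable.aemeasurable ?_
      have h4 : (Function.uncurry fun (y ξ : E n) =>
          (Metric.ball y ((ρ ^ 2)⁻¹)).indicator (fun ξ => ‖F ξ‖ₑ ^ p) ξ) =
          {z : E n × E n | dist z.2 z.1 < (ρ ^ 2)⁻¹}.indicator (fun z => ‖F z.2‖ₑ ^ p) := by
        funext z
        rfl
      rw [h4]
      refine Measurable.indicator ?_ ?_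
      · exact (hFc.enorm.measurable.pow_const p).comp measurable_snd
      · exact measurableSet_lt (by fun_prop) measurable_const
  have hR : ∀ i, ∫⁻ y, S i y = Z * ∫⁻ ξ, ‖extn (g i) ξ‖ₑ ^ p := by
    intro i
    rw [hS]
    simp only
    rw [lintegral_lintegral_swap]
    · have h3 : ∀ ξ : E n, ∫⁻ y, wy ρ y ξ * ‖extn (g i) ξ‖ₑ ^ p = Z * ‖extn (g i) ξ‖ₑ ^ p := by
        intro ξ
        have h5 : Measurable fun y : E n => wy ρ y ξ := by
          unfold wy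
          fun_prop
        rw [lintegral_mul_const _ h5, wy_lint hρ]
      simp_rw [h3]
      rw [lintegral_const_mul _ ((hsp i).cont.enorm.measurable.pow_const p)]
    · exact ((wy_meas ρ).mul (((hsp i).cont.enorm.measurable.pow_const p).comp
        measurable_snd)).aemeasurable
  have hSm : ∀ i, Measurable (S i) := by
    intro i
    exact ((wy_meas ρ).mul (((hsp i).cont.enorm.measurable.pow_const p).comp
      measurable_snd)).lintegral_prod_right'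
  have hmain := lintegral_mono (μ := (volume : Measure (E n))) hball
  rw [hL] at hmain
  set K : ℝ≥0∞ := (C * C2 ^ ((p - q) / p)) * ENNReal.ofReal (ρ ^ (-ε)) * Z ^ (1 - q / p) *
        (N : ℝ≥0∞) ^ (p / 2 - 1 + (p - q) / 2) with hK
  rw [lintegral_const_mul _ (Finset.measurable_fun_sum _ fun i _ => hSm i),
    lintegral_finsetSum _ fun i _ => hSm i] at hmain
  have h1 : ∑ i, ∫⁻ y, S i y = Z * ∑ i, ∫⁻ ξ, ‖extn (g i) ξ‖ₑ ^ p := by
    rw [Finset.mul_sum]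
    exact Finset.sum_congr rfl fun i _ => hR i
  rw [h1] at hmain
  set X : ℝ≥0∞ := ∫⁻ ξ, ‖F ξ‖ₑ ^ p with hX
  set Y : ℝ≥0∞ := ∑ i, ∫⁻ ξ, ‖extn (g i) ξ‖ₑ ^ p with hY
  set V : ℝ≥0∞ := ENNReal.ofReal (((ρ ^ 2) ^ n)⁻¹) with hV
  have hV0 : V ≠ 0 := by
    rw [hV, ENNReal.ofReal_ne_zero_iff]; positivity
  have hVt : V ≠ ⊤ := ENNReal.ofReal_ne_top
  have h2 : v * X ≤ K * (ω0 * Y) := by
    have h3 : V * (v * X) ≤ V * (K * (ω0 * Y)) := by
      calc V * (v * X) = V * v * X := by ring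
        _ ≤ K * (Z * Y) := hmain
        _ = V * (K * (ω0 * Y)) := by rw [hZ]; ring
    exact (ENNReal.mul_le_mul_iff_right hV0 hVt).1 h3
  have h4 : X ≤ K * (ω0 * Y) / v := by
    rw [ENNReal.le_div_iff_mul_le (Or.inl hv0) (Or.inl hvt), mul_comm]
    exact h2
  refine h4.trans (le_of_eq ?_)
  have hqp1 : 0 ≤ 1 - q / p := by
    rw [sub_nonneg, div_le_one hp0]
    exact hqp
  have h5 : ENNReal.ofReal (ρ ^ (-ε)) * Z ^ (1 - q / p) =
      ENNReal.ofReal (ρ ^ (-(ε + 2 * n * (1 - q / p)))) * ω0 ^ (1 - q / p) := by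
    rw [hZ, ENNReal.mul_rpow_of_nonneg _ _ hqp1, ← mul_assoc]
    congr 1
    rw [ENNReal.ofReal_rpow_of_nonneg (by positivity) hqp1, ← ENNReal.ofReal_mul (by positivity)]
    congr 1
    have h6 : (((ρ ^ 2) ^ n)⁻¹ : ℝ) = ρ ^ (-(2 * n : ℝ)) := by
      rw [← pow_mul, Real.rpow_neg hρ.le, ← Real.rpow_natCast]
      push_cast
      rfl
    rw [h6, ← Real.rpow_mul hρ.le, ← Real.rpow_add hρ]
    congr 1
    ring
  rw [hK]
  calc (C * C2 ^ ((p - q) / p)) * ENNReal.ofReal (ρ ^ (-ε)) * Z ^ (1 - q / p) *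
        (N : ℝ≥0∞) ^ (p / 2 - 1 + (p - q) / 2) * (ω0 * Y) / v
      = (C * C2 ^ ((p - q) / p)) * (ENNReal.ofReal (ρ ^ (-ε)) * Z ^ (1 - q / p)) *
        (N : ℝ≥0∞) ^ (p / 2 - 1 + (p - q) / 2) * (ω0 * Y) * v⁻¹ := by
          simp only [ENNReal.div_eq_inv_mul]; ring
    _ = _ := by
      rw [h5]
      simp only [ENNReal.div_eq_inv_mul]
      ring

/-- Phases with singularities, over the core statement and local decoupling at `q`. -/
theorem tame_loc (d : ℕ) (hd : 1 ≤ d) (q p κ : ℝ) (hq : 2 ≤ q) (hqp : q ≤ p) (hκ : 0 ≤ κ)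
    (hκd : κ < d) (hexp : κ * (p / 2 + (p - q) / 2) + 2 * (d + 1) * (1 - q / p) <
      d * p - (d + 2)) (hloc : LocDec (d + 1) q)
    (hcore : ∀ ε : ℝ, 0 < ε → CoreG d p fun c => ENNReal.ofReal ((1 + |c|) ^ ε))
    (A : ℕ) (V ε : ℝ) (hV : 0 ≤ V) (hε : 0 < ε) : ∃ (k : ℕ) (C : ℝ≥0∞), C ≠ ⊤ ∧
    ∀ (Sig : Set (E (d + 1))) (lam : ℝ) (ψ : E (d + 1) → ℝ) (a : E (d + 1) → ℂ),
      0 ≤ lam → Cov V κ Sig → PhsF k A lam Sig ψ → AmsF k Sig a →
      ∫⁻ ξ, ‖extn (fun x => a x * Complex.exp (((ψ x : ℝ) : ℂ) * Complex.I)) ξ‖ₑ ^ p ≤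
        C * ENNReal.ofReal ((1 + lam) ^ ε) := by
  set gap : ℝ := d * p - (d + 2) - (κ * (p / 2 + (p - q) / 2) + 2 * (d + 1) * (1 - q / p))
    with hgap
  have hgap0 : 0 < gap := by rw [hgap]; linarith
  refine tame_dec d hd p κ (p / 2 - 1 + (p - q) / 2)
    (gap / 2 + 2 * ((d + 1 : ℕ) : ℝ) * (1 - q / p)) (by linarith) hκ hκd (by linarith) ?_
    (orthG_of_loc hq hqp (by positivity) hloc) hcore A V ε hV hε
  push_cast
  have e1 : κ * (p / 2 - 1 + (p - q) / 2 + 1) = κ * (p / 2 + (p - q) / 2) := by ring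
  rw [e1]
  linarith

/-- The closure of a set with few balls is a null set of the sphere. -/
theorem cl_null (n : ℕ) (hn : 1 ≤ n) (κ : ℝ) (hκ : 0 ≤ κ) (hκn : κ < n - 1) (V : ℝ) (hV : 0 ≤ V)
    (Sig : Set (E n)) (hcov : Cov V κ Sig) :
    ∀ᵐ y : S n ∂(sm n), (y : E n) ∉ closure Sig := by
  obtain ⟨B, M, C0, hC0, hpart⟩ := part n hn κ hκ
  choose N x b H hN hx hovl hHc hH1 hHs hHn hHσ using hpart V Sig hV hcov
  have hnear : ∀ K k i y, ‖y - x K k i‖ < 2 * rk k → y ∉ closure Sig := by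
    intro K k i y hy hyS
    obtain ⟨-, h1, -⟩ := hx K k i
    have h2 : Disjoint (Metric.ball (x K k i) (2 * rk k)) (closure Sig) :=
      h1.closure_right Metric.isOpen_ball
    exact Set.disjoint_left.1 h2 (mem_ball_iff_norm.2 hy) hyS
  have hexpneg : κ - (n - 1 : ℝ) < 0 := by linarith
  have hlim : Tendsto (fun K : ℕ => ENNReal.ofReal (C0 * (1 + V) * ((2 : ℝ) ^ K) ^
      (κ - (n - 1 : ℝ)))) atTop (𝓝 0) := by
    have h1 : Tendsto (fun K : ℕ => ((2 : ℝ) ^ K) ^ (κ - (n - 1 : ℝ))) atTop (𝓝 0) := by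
      set t : ℝ := -(κ - (n - 1 : ℝ)) with ht
      have ht0 : 0 < t := by rw [ht]; linarith
      have h2 := (tendsto_rpow_neg_atTop ht0).comp
        (tendsto_pow_atTop_atTop_of_one_lt (one_lt_two (α := ℝ)))
      have e3 : -t = κ - (n - 1 : ℝ) := by rw [ht]; ring
      rw [e3] at h2
      exact h2
    have h3 := ENNReal.tendsto_ofReal (h1.const_mul (C0 * (1 + V)))
    rw [mul_zero, ENNReal.ofReal_zero] at h3
    exact h3
  have hσ : Tendsto (fun K => sm n {y : S n | H K y ≠ 0}) atTop (𝓝 0) :=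
    tendsto_of_tendsto_of_tendsto_of_le_of_le tendsto_const_nhds hlim (fun _ => bot_le) hHσ
  have hcl : sm n {y : S n | (y : E n) ∈ closure Sig} = 0 := by
    refine le_antisymm (ge_of_tendsto' hσ fun K => measure_mono fun y hy => ?_) bot_le
    have h1 := hHs K y (mem_sphere_zero_iff_norm.1 y.2)
    have h2 : ∑ k ∈ Finset.range K, ∑ i, b K k i y = 0 := by
      refine Finset.sum_eq_zero fun k _ => Finset.sum_eq_zero fun i _ => ?_
      obtain ⟨-, -, -, -, h5⟩ := hx K k i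
      refine h5 y ?_
      by_contra h6
      exact hnear K k i y (by have := asm_rk_pos k; linarith) hy
    rw [h2] at h1
    have h3 : H K y = 1 := by linarith
    show H K y ≠ 0
    rw [h3]
    exact one_ne_zero
  rw [ae_iff]
  simpa using hcl

/-- **The whole range `κ < (n-1)²/n`** (`n = d + 1`) over the core statement and local decoupling
at the exponent `2n/(n-1)`. -/
theorem tame_loc_all (d : ℕ) (hd : 2 ≤ d) (p κ : ℝ) (hp : 2 * ((d : ℝ) + 1) / d < p) (hκ : 0 ≤ κ)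
    (hexp : κ * (d + 1) < d ^ 2) (hloc : LocDec (d + 1) (2 * ((d : ℝ) + 1) / d))
    (hcore : ∀ p : ℝ, 2 * ((d : ℝ) + 1) / d < p → ∀ ε : ℝ, 0 < ε →
      CoreG d p fun c => ENNReal.ofReal ((1 + |c|) ^ ε))
    (A : ℕ) (V ε : ℝ) (hV : 0 ≤ V) (hε : 0 < ε) : ∃ (k : ℕ) (C : ℝ≥0∞), C ≠ ⊤ ∧
    ∀ (Sig : Set (E (d + 1))) (lam : ℝ) (ψ : E (d + 1) → ℝ) (a : E (d + 1) → ℂ),
      0 ≤ lam → Cov V κ Sig → PhsF k A lam Sig ψ → AmsF k Sig a →
      ∫⁻ ξ, ‖extn (fun x => a x * Complex.exp (((ψ x : ℝ) : ℂ) * Complex.I)) ξ‖ₑ ^ p ≤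
        C * ENNReal.ofReal ((1 + lam) ^ ε) := by
  have hd0 : (2 : ℝ) ≤ d := by exact_mod_cast hd
  set q : ℝ := 2 * ((d : ℝ) + 1) / d with hq
  have hdq : d * q = 2 * (d + 1) := by
    rw [hq]
    field_simp
  have hq2 : 2 ≤ q := by
    by_contra hc
    have hc' : q < 2 := not_le.1 hc
    nlinarith
  have hκd : κ < d := by nlinarith
  -- the exponent close to `q`
  set gap : ℝ := d - κ * q / 2 with hgap
  have hgap0 : 0 < gap := by
    have h1 : d * (κ * q / 2) < d * d := by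
      calc d * (κ * q / 2) = κ * (d * q) / 2 := by ring
        _ = κ * (d + 1) := by rw [hdq]; ring
        _ < d * d := by nlinarith
    have h2 := lt_of_mul_lt_mul_left h1 (by linarith)
    rw [hgap]
    linarith
  set t : ℝ := min (p - q) (gap / (κ + d + 2)) with ht
  have ht0 : 0 < t := lt_min (by linarith) (by positivity)
  have ht1 : t * (κ + d + 1) < gap := by
    have h1 : t ≤ gap / (κ + d + 2) := min_le_right _ _
    have h2 : t * (κ + d + 2) ≤ gap := by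
      rwa [le_div_iff₀ (by positivity)] at h1
    nlinarith
  have htp : q + t ≤ p := by
    have : t ≤ p - q := min_le_left _ _
    linarith
  set p1 : ℝ := q + t with hp1
  have hp1q : q < p1 := by rw [hp1]; linarith
  have hp10 : 0 < p1 := by linarith
  have hexp1 : κ * (p1 / 2 + (p1 - q) / 2) + 2 * (d + 1) * (1 - q / p1) < d * p1 - (d + 2) := by
    have h1 : 1 - q / p1 ≤ t / 2 := by
      have h2 : 1 - q / p1 = t / p1 := by
        rw [eq_div_iff hp10.ne', sub_mul, one_mul, div_mul_cancel₀ _ hp10.ne', hp1]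
        ring
      rw [h2]
      exact div_le_div_of_nonneg_left ht0.le two_pos (by linarith)
    have h3 : 2 * ((d : ℝ) + 1) * (1 - q / p1) ≤ 2 * (d + 1) * (t / 2) := by gcongr
    have h4 : κ * (p1 / 2 + (p1 - q) / 2) = κ * q / 2 + κ * t := by rw [hp1]; ring
    have h5 : d * p1 = 2 * (d + 1) + d * t := by rw [hp1, mul_add, hdq]
    rw [h4, h5]
    have h6 : κ * q / 2 = d - gap := by rw [hgap]; ring
    rw [h6]
    have h7 : 0 ≤ d * t := by positivity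
    nlinarith
  obtain ⟨k, C, hC, h⟩ := tame_loc d (by omega) q p1 κ hq2 hp1q.le hκ hκd hexp1 hloc
    (hcore p1 hp1q) A V ε hV hε
  have hpp : 0 ≤ p - p1 := by linarith
  refine ⟨k, (sm (d + 1) univ) ^ (p - p1) * C, ENNReal.mul_ne_top
    (ENNReal.rpow_ne_top_of_nonneg hpp (measure_ne_top _ _)) hC,
    fun Sig lam ψ a hl hcov hψ ha => ?_⟩
  have h1 := h Sig lam ψ a hl hcov hψ ha
  have hae := cl_null (d + 1) (by omega) κ hκ (by push_cast; linarith) V hV Sig hcov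
  set w : E (d + 1) → ℂ := fun x => a x * Complex.exp (((ψ x : ℝ) : ℂ) * Complex.I) with hw
  have hwb : ∀ᵐ y : S (d + 1) ∂(sm (d + 1)), ‖w y‖ₑ ≤ 1 := by
    filter_upwards [hae] with y hy
    obtain ⟨r, hr0, hr1, hd'⟩ := asm_ball hy
    obtain ⟨h2, h3⟩ := ha y (mem_sphere_zero_iff_norm.1 y.2) r hr0 hr1 hd'
    have h4 := h3 0 (Nat.zero_le _)
    rw [norm_iteratedFDeriv_zero, pow_zero, div_one] at h4
    rw [hw, ← ofReal_norm]
    simp only
    rw [norm_mul, Complex.norm_exp_ofReal_mul_I, mul_one]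
    exact ENNReal.ofReal_le_one.2 h4
  have hsup : ∀ ξ, ‖extn w ξ‖ₑ ≤ sm (d + 1) univ := by
    intro ξ
    unfold extn
    refine (enorm_integral_le_lintegral_enorm _).trans ?_
    calc ∫⁻ x : S (d + 1), ‖w x * Complex.exp (((-(2 * π * inner ℝ (x : E (d + 1)) ξ) : ℝ) : ℂ) *
          Complex.I)‖ₑ ∂(sm (d + 1))
        ≤ ∫⁻ _ : S (d + 1), 1 ∂(sm (d + 1)) := by
          refine lintegral_mono_ae ?_
          filter_upwards [hwb] with y hy
          have h5 : ‖Complex.exp (((-(2 * π * inner ℝ (y : E (d + 1)) ξ) : ℝ) : ℂ) *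
              Complex.I)‖ₑ = 1 := by
            rw [← ofReal_norm, Complex.norm_exp_ofReal_mul_I, ENNReal.ofReal_one]
          rw [enorm_mul, h5, mul_one]
          exact hy
      _ = sm (d + 1) univ := by rw [lintegral_one]
  calc ∫⁻ ξ, ‖extn w ξ‖ₑ ^ p ≤ ∫⁻ ξ, (sm (d + 1) univ) ^ (p - p1) * ‖extn w ξ‖ₑ ^ p1 := by
        refine lintegral_mono fun ξ => ?_
        beta_reduce
        have e1 : ‖extn w ξ‖ₑ ^ p = ‖extn w ξ‖ₑ ^ (p - p1) * ‖extn w ξ‖ₑ ^ p1 := by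
          rw [← ENNReal.rpow_add_of_nonneg _ _ hpp hp10.le]
          congr 1
          ring
        rw [e1]
        gcongr
        exact hsup ξ
    _ = (sm (d + 1) univ) ^ (p - p1) * ∫⁻ ξ, ‖extn w ξ‖ₑ ^ p1 :=
        lintegral_const_mul' _ _ (ENNReal.rpow_ne_top_of_nonneg hpp (measure_ne_top _ _))
    _ ≤ (sm (d + 1) univ) ^ (p - p1) * (C * ENNReal.ofReal ((1 + lam) ^ ε)) := by gcongr
    _ = _ := by ring

end Pool.Agent.GNP.TM
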