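import Pool.Agent.GNP.P0

/-!
The change of variables of one elimination step: `t = ψ_w (v, w)` for fixed `v`; the
isometry `join : E m × ℝ → E (m + 1)`; rotations.
-/

namespace Pool.Agent.GNP

open MeasureTheory Set Pool.Agent.MP_6cbfb8_an
open scoped ENNReal Real RealInnerProductSpace ContDiff

/-- For fixed `v` put `t = g v w`, with inverse `w = W v t`. -/
theorem cov_eq {X : Type*} [MeasurableSpace X] (μ : Measure X) [SFinite μ] (g g' W : X → ℝ → ℝ)
    (hg : ∀ v w, HasDerivAt (g v) (g' v w) w) (hinv : ∀ v w, W v (g v w) = w)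
    (hsurj : ∀ v t, g v (W v t) = t) (hW : Measurable (Function.uncurry W)) (F : X → ℝ → ℝ≥0∞)
    (hF : Measurable (Function.uncurry F)) :
    ∫⁻ t, (∫⁻ v, F v (W v t) ∂μ) = ∫⁻ v, (∫⁻ w, ENNReal.ofReal |g' v w| * F v w) ∂μ := by
  have h1 : Measurable (Function.uncurry fun (t : ℝ) (v : X) => F v (W v t)) := by
    have h2 : Measurable fun z : ℝ × X => (z.2, W z.2 z.1) :=
      measurable_snd.prodMk (hW.comp (measurable_snd.prodMk measurable_fst))
    exact hF.comp h2
  rw [lintegral_lintegral_swap h1.aemeasurable]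
  refine lintegral_congr fun v => ?_
  have h3 := lintegral_image_eq_lintegral_abs_deriv_mul (s := univ) (f := g v) (f' := g' v)
    MeasurableSet.univ (fun w _ => (hg v w).hasDerivWithinAt)
    (fun a _ b _ hab => by rw [← hinv v a, ← hinv v b]; exact congrArg (W v) hab)
    (fun t => F v (W v t))
  have h4 : g v '' univ = univ := by
    rw [image_univ, range_eq_univ]
    exact fun t => ⟨W v t, hsurj v t⟩
  rw [h4] at h3
  simp only [Measure.restrict_univ, hinv] at h3
  exact h3

/-! ## The isometry `join` -/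

@[simp] theorem j5_castSucc {m : ℕ} (v : E m) (w : ℝ) (i : Fin m) :
    join v w i.castSucc = v i := by simp [join]

@[simp] theorem j5_last {m : ℕ} (v : E m) (w : ℝ) : join v w (Fin.last m) = w := by simp [join]

theorem j5_inner {m : ℕ} (v v' : E m) (w w' : ℝ) :
    ⟪join v w, join v' w'⟫ = ⟪v, v'⟫ + w * w' := by
  simp only [PiLp.inner_apply, Fin.sum_univ_castSucc, j5_castSucc, j5_last]
  simp [mul_comm]

theorem j5_norm_sq {m : ℕ} (v : E m) (w : ℝ) : ‖join v w‖ ^ 2 = ‖v‖ ^ 2 + w ^ 2 := by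
  rw [← real_inner_self_eq_norm_sq, ← real_inner_self_eq_norm_sq, j5_inner, sq w]

/-- `join` as a linear homeomorphism. -/
noncomputable def joinL (m : ℕ) : (E m × ℝ) ≃L[ℝ] E (m + 1) :=
  LinearEquiv.toContinuousLinearEquiv
    { toFun := fun z => join z.1 z.2
      map_add' := fun z z' => by
        ext i
        refine Fin.lastCases ?_ (fun j => ?_) i <;> simp
      map_smul' := fun c z => by
        ext i
        refine Fin.lastCases ?_ (fun j => ?_) i <;> simp
      invFun := fun y => (WithLp.toLp 2 fun i => y (Fin.castSucc i), y (Fin.last m))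
      left_inv := fun z => by
        ext i
        · simp
        · simp
      right_inv := fun y => by
        ext i
        refine Fin.lastCases ?_ (fun j => ?_) i <;> simp }

@[simp] theorem joinL_apply {m : ℕ} (z : E m × ℝ) : joinL m z = join z.1 z.2 := rfl

theorem j5_norm_le {m : ℕ} (z : E m × ℝ) : ‖join z.1 z.2‖ ≤ √2 * ‖z‖ := by
  have h1 := j5_norm_sq z.1 z.2
  have h2 : ‖z.1‖ ≤ ‖z‖ := norm_fst_le z
  have h3 : |z.2| ≤ ‖z‖ := by simpa using norm_snd_le z
  have h4 : ‖join z.1 z.2‖ ^ 2 ≤ (√2 * ‖z‖) ^ 2 := by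
    rw [h1, mul_pow, Real.sq_sqrt (by norm_num), ← sq_abs z.2]
    nlinarith [norm_nonneg z.1, norm_nonneg z, abs_nonneg z.2]
  exact (sq_le_sq₀ (norm_nonneg _) (by positivity)).mp h4

theorem j5_le_norm {m : ℕ} (z : E m × ℝ) : ‖z‖ ≤ ‖join z.1 z.2‖ := by
  have h1 := j5_norm_sq z.1 z.2
  rw [Prod.norm_def]
  refine max_le ?_ ?_
  · have h2 : ‖z.1‖ ^ 2 ≤ ‖join z.1 z.2‖ ^ 2 := by nlinarith [sq_nonneg z.2]
    exact (sq_le_sq₀ (norm_nonneg _) (norm_nonneg _)).mp h2
  · have h2 : ‖z.2‖ ^ 2 ≤ ‖join z.1 z.2‖ ^ 2 := by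
      rw [Real.norm_eq_abs, sq_abs]
      nlinarith [sq_nonneg ‖z.1‖]
    exact (sq_le_sq₀ (norm_nonneg _) (norm_nonneg _)).mp h2

theorem joinL_norm_le (m : ℕ) : ‖(joinL m : (E m × ℝ) →L[ℝ] E (m + 1))‖ ≤ √2 :=
  ContinuousLinearMap.opNorm_le_bound _ (by positivity) fun z => j5_norm_le z

theorem joinL_symm_norm_le (m : ℕ) :
    ‖((joinL m).symm : E (m + 1) →L[ℝ] (E m × ℝ))‖ ≤ 1 := by
  refine ContinuousLinearMap.opNorm_le_bound _ (by norm_num) fun y => ?_
  have h := j5_le_norm ((joinL m).symm y)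
  rw [← joinL_apply] at h
  simpa using h

theorem mp_join (m : ℕ) : MeasurePreserving (fun z : E m × ℝ => join z.1 z.2) volume volume := by
  have h1 : MeasurePreserving (fun z : E m × ℝ => ((z.2, fun i => z.1 i) : ℝ × (Fin m → ℝ)))
      volume volume := by
    have h2 : MeasurePreserving (Prod.swap : (Fin m → ℝ) × ℝ → ℝ × (Fin m → ℝ))
        ((volume : Measure (Fin m → ℝ)).prod (volume : Measure ℝ))
        ((volume : Measure ℝ).prod (volume : Measure (Fin m → ℝ))) :=
      Measure.measurePreserving_swap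
    have h3 : MeasurePreserving (Prod.map (@WithLp.ofLp 2 (Fin m → ℝ)) (id : ℝ → ℝ))
        ((volume : Measure (E m)).prod (volume : Measure ℝ))
        ((volume : Measure (Fin m → ℝ)).prod (volume : Measure ℝ)) :=
      (PiLp.volume_preserving_ofLp (Fin m)).prod (MeasurePreserving.id _)
    exact h2.comp h3
  have h4 := (volume_preserving_piFinSuccAbove (fun _ : Fin (m + 1) => ℝ) (Fin.last m)).symm
  have h5 := (PiLp.volume_preserving_toLp (Fin (m + 1))).comp (h4.comp h1)
  have h6 : (fun z : E m × ℝ => join z.1 z.2) = WithLp.toLp 2 ∘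
      ⇑(MeasurableEquiv.piFinSuccAbove (fun _ : Fin (m + 1) => ℝ) (Fin.last m)).symm ∘
        fun z => (z.2, fun i => z.1.ofLp i) := by
    funext z
    ext i
    refine Fin.lastCases ?_ (fun j => ?_) i
    · simp [MeasurableEquiv.piFinSuccAbove, Fin.insertNthEquiv]
    · simp [MeasurableEquiv.piFinSuccAbove, Fin.insertNthEquiv]
  rw [h6]
  exact h5

theorem measurable_join5 {m : ℕ} : Measurable fun z : E m × ℝ => join z.1 z.2 :=
  (mp_join m).measurable

theorem lintegral_join5 {m : ℕ} (f : E (m + 1) → ℝ≥0∞) (hf : Measurable f) :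
    ∫⁻ y, f y = ∫⁻ v : E m, ∫⁻ w : ℝ, f (join v w) := by
  rw [← (mp_join m).lintegral_comp hf]
  exact lintegral_prod _ (hf.comp (mp_join m).measurable).aemeasurable

theorem lintegral_join5' {m : ℕ} (f : E (m + 1) → ℝ≥0∞) (hf : Measurable f) :
    ∫⁻ y, f y = ∫⁻ w : ℝ, ∫⁻ v : E m, f (join v w) := by
  rw [lintegral_join5 f hf]
  exact lintegral_lintegral_swap (hf.comp (mp_join m).measurable).aemeasurable

theorem integral_join5 {m : ℕ} {G : Type*} [NormedAddCommGroup G] [NormedSpace ℝ G]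
    (f : E (m + 1) → G) : ∫ y, f y = ∫ z : E m × ℝ, f (join z.1 z.2) := by
  have h1 : MeasurableEmbedding (fun z : E m × ℝ => join z.1 z.2) := by
    have h2 := (joinL m).toHomeomorph.measurableEmbedding
    exact h2
  exact ((mp_join m).integral_comp h1 f).symm

theorem integrable_join5 {m : ℕ} {G : Type*} [NormedAddCommGroup G]
    {f : E (m + 1) → G} (hf : Integrable f) :
    Integrable (fun z : E m × ℝ => f (join z.1 z.2))
      ((volume : Measure (E m)).prod (volume : Measure ℝ)) :=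
  (mp_join m).integrable_comp_of_integrable hf

/-- The oscillatory integral as an iterated integral. -/
theorem uu_join {m : ℕ} (a : E (m + 1) → ℂ) (q : E (m + 1) → ℝ) (ha : Integrable a)
    (hq : Continuous q) (x : E m) (t : ℝ) :
    uu a q (join x t) = ∫ v : E m, (∫ w : ℝ, a (join v w) *
      Complex.exp (((q (join v w) - t * w : ℝ) : ℂ) * Complex.I)) *
        Complex.exp (((-⟪x, v⟫ : ℝ) : ℂ) * Complex.I) := by
  have hint : Integrable fun y : E (m + 1) => a y *
      Complex.exp (((q y - ⟪join x t, y⟫ : ℝ) : ℂ) * Complex.I) := by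
    refine ha.mul_bdd (c := 1) ?_ (Filter.Eventually.of_forall fun y => ?_)
    · refine Continuous.aestronglyMeasurable ?_
      fun_prop
    · rw [Complex.norm_exp_ofReal_mul_I]
  rw [uu, integral_join5]
  have h3 := integrable_join5 hint
  have h4 := integral_prod _ h3
  rw [show (volume : Measure (E m × ℝ)) = (volume : Measure (E m)).prod volume from rfl, h4]
  refine integral_congr_ae (Filter.Eventually.of_forall fun v => ?_)
  simp only
  rw [← integral_mul_const]
  refine integral_congr_ae (Filter.Eventually.of_forall fun w => ?_)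
  simp only
  rw [mul_assoc, ← Complex.exp_add, j5_inner]
  congr 2
  push_cast
  ring

/-! ## Rotations -/

/-- Invariance under linear isometries. -/
theorem uu_rot {m : ℕ} (U : E m ≃ₗᵢ[ℝ] E m) (a : E m → ℂ) (q : E m → ℝ) (x : E m) :
    uu a q (U x) = uu (fun y => a (U y)) (fun y => q (U y)) x := by
  rw [uu, ← (U.measurePreserving).integral_comp U.toHomeomorph.measurableEmbedding]
  rw [uu]
  refine integral_congr_ae (Filter.Eventually.of_forall fun y => ?_)
  simp only [LinearIsometryEquiv.inner_map_map]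

theorem lintegral_rot {m : ℕ} (U : E m ≃ₗᵢ[ℝ] E m) (f : E m → ℝ≥0∞) :
    ∫⁻ x, f (U x) = ∫⁻ x, f x :=
  (U.measurePreserving).lintegral_comp_emb U.toHomeomorph.measurableEmbedding f

theorem norm_iteratedFDeriv_rot {m : ℕ} {G : Type*} [NormedAddCommGroup G] [NormedSpace ℝ G]
    (U : E m ≃ₗᵢ[ℝ] E m) (f : E m → G) (j : ℕ) (y : E m) :
    ‖iteratedFDeriv ℝ j (fun y => f (U y)) y‖ = ‖iteratedFDeriv ℝ j f (U y)‖ :=
  U.norm_iteratedFDeriv_comp_right f y j

/-- Every unit vector is the image of the last basis vector. -/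
theorem exists_rot {m : ℕ} (e : E (m + 1)) (he : ‖e‖ = 1) :
    ∃ U : E (m + 1) ≃ₗᵢ[ℝ] E (m + 1), U (join 0 1) = e := by
  have h1 : ‖(join 0 1 : E (m + 1))‖ = ‖e‖ := by
    have h2 := j5_norm_sq (0 : E m) 1
    rw [he]
    have h3 : (0 : ℝ) ≤ ‖(join 0 1 : E (m + 1))‖ := norm_nonneg _
    simp only [norm_zero] at h2
    nlinarith
  exact ⟨(ℝ ∙ ((join 0 1 : E (m + 1)) - e))ᗮ.reflection, Submodule.reflection_sub h1⟩

/-- First derivatives of a rotated function. -/
theorem fderiv_rot {m : ℕ} (U : E m ≃ₗᵢ[ℝ] E m) {q : E m → ℝ} (hq : ContDiff ℝ ∞ q)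
    (y v : E m) : fderiv ℝ (fun y => q (U y)) y v = fderiv ℝ q (U y) (U v) := by
  have hd : Differentiable ℝ q := hq.differentiable (by simp)
  have hL : HasFDerivAt (fun y : E m => U y)
      (U.toContinuousLinearEquiv : E m →L[ℝ] E m) y :=
    (U.toContinuousLinearEquiv : E m →L[ℝ] E m).hasFDerivAt
  have h1 : HasFDerivAt (fun y => q (U y))
      ((fderiv ℝ q (U y)).comp (U.toContinuousLinearEquiv : E m →L[ℝ] E m)) y :=
    (hd (U y)).hasFDerivAt.comp y hL
  rw [h1.fderiv]
  rfl

/-- Second derivatives of a rotated function. -/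
theorem fderiv2_rot {m : ℕ} (U : E m ≃ₗᵢ[ℝ] E m) {q : E m → ℝ} (hq : ContDiff ℝ ∞ q)
    (y v w : E m) : fderiv ℝ (fderiv ℝ (fun y => q (U y))) y v w =
      fderiv ℝ (fderiv ℝ q) (U y) (U v) (U w) := by
  have hd : Differentiable ℝ q := hq.differentiable (by simp)
  have hL : ∀ y, HasFDerivAt (fun y : E m => U y)
      (U.toContinuousLinearEquiv : E m →L[ℝ] E m) y := fun y =>
    (U.toContinuousLinearEquiv : E m →L[ℝ] E m).hasFDerivAt
  have h1 : ∀ y, fderiv ℝ (fun y => q (U y)) y =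
      (fderiv ℝ q (U y)).comp (U.toContinuousLinearEquiv : E m →L[ℝ] E m) := fun y =>
    ((hd (U y)).hasFDerivAt.comp y (hL y)).fderiv
  have h2 : fderiv ℝ (fun y => q (U y)) = fun y =>
      (ContinuousLinearMap.compL ℝ (E m) (E m) ℝ).flip
        (U.toContinuousLinearEquiv : E m →L[ℝ] E m) (fderiv ℝ q (U y)) := by
    funext y
    rw [h1 y]
    rfl
  have h3 : HasFDerivAt (fun y => fderiv ℝ q (U y))
      ((fderiv ℝ (fderiv ℝ q) (U y)).comp (U.toContinuousLinearEquiv : E m →L[ℝ] E m)) y :=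
    (differentiable_fderiv hq (U y)).hasFDerivAt.comp y (hL y)
  have h4 := (((ContinuousLinearMap.compL ℝ (E m) (E m) ℝ).flip
        (U.toContinuousLinearEquiv : E m →L[ℝ] E m)).hasFDerivAt.comp y h3).fderiv
  rw [h2]
  rw [Function.comp_def] at h4
  rw [h4]
  rfl

end Pool.Agent.GNP
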