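import Pool.Agent.GNP.Defs5

/-!
The fixed time theorem in dimension zero.
-/

namespace Pool.Agent.GNP

open MeasureTheory Set Pool.Agent.MP_6cbfb8_an
open scoped ENNReal Real RealInnerProductSpace ContDiff

theorem vol_E0 : (volume : Measure (E 0)) univ = 1 := by
  have h1 := (EuclideanSpace.volume_preserving_symm_measurableEquiv_toLp (Fin 0)).measure_preimage
    (s := (univ : Set (Fin 0 → ℝ))) MeasurableSet.univ.nullMeasurableSet
  rw [preimage_univ] at h1
  rw [h1, volume_pi, Measure.pi_univ]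
  simp

theorem ft_zero (p : ℝ) (hp : 2 < p) : ∃ C1 : ℕ, FTst 0 p C1 := by
  refine ⟨⌈p⌉₊, fun A => ⟨fun _ _ => 0, fun n0 => ⟨0, fun J _ B N =>
    ⟨max 1 (|B 0| ^ p), le_max_left _ _, fun K hK ι _ z q a ρ T M G hρ0 hρ1 hT0 hT hz hC hM hGm
      hG => ?_⟩⟩⟩⟩
  have hK1 : 1 ≤ K := (le_max_left _ _).trans hK
  have hρ : 0 < ρ := lt_of_lt_of_le (by positivity) hρ0
  -- the number of cells
  have hcard : Fintype.card ι ≤ M := by
    have h1 := hM ⊥ 0 0
    have h2 : {x : ι × E 0 | ‖x.2 - z x.1‖ < ρ ∧ x.2 - 0 ∈ (⊥ : Submodule ℝ (E 0)) ∧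
        (∀ f ∈ (⊥ : Submodule ℝ (E 0)), ⟪gr (q x.1) x.2 - 0, f⟫ = 0) ∧
        ∀ f ∈ (⊥ : Submodule ℝ (E 0)), (∀ g ∈ (⊥ : Submodule ℝ (E 0)),
          ⟪Hs (q x.1) x.2 f, g⟫ = 0) → f = 0} = univ := by
      refine eq_univ_of_forall fun x => ⟨?_, ?_, ?_, ?_⟩
      · rw [Subsingleton.elim (x.2 - z x.1) 0, norm_zero]
        exact hρ
      · rw [Subsingleton.elim (x.2 - 0) 0]
        exact Submodule.zero_mem _
      · intro f _
        rw [Subsingleton.elim f 0, inner_zero_right]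
      · intro f _ _
        exact Subsingleton.elim _ _
    rw [h2] at h1
    have h3 : (univ : Set ι).encard ≤ (univ : Set (ι × E 0)).encard := by
      refine Set.encard_le_encard_of_injOn (f := fun i => (i, (0 : E 0))) (fun _ _ => mem_univ _) ?_
      intro i _ j _ hij
      exact congrArg Prod.fst hij
    have h4 := h3.trans h1
    rw [Set.encard_univ, ENat.card_eq_coe_fintype_card] at h4
    exact_mod_cast h4
  -- the left side
  have hL : ∀ x : E 0, ‖∑ i, uu (a i) (q i) x‖ₑ ≤ ENNReal.ofReal (Fintype.card ι * |B 0|) := by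
    intro x
    rw [← ofReal_norm]
    apply ENNReal.ofReal_le_ofReal
    refine (norm_sum_le _ _).trans ?_
    have h1 : ∀ i, ‖uu (a i) (q i) x‖ ≤ |B 0| := by
      intro i
      unfold uu
      refine (norm_integral_le_of_norm_le_const (C := |B 0|)
        (Filter.Eventually.of_forall fun y => ?_)).trans ?_
      · rw [norm_mul, Complex.norm_exp_ofReal_mul_I, mul_one]
        have h2 := (hC i).bda 0 y
        rw [norm_iteratedFDeriv_zero, pow_zero, div_one] at h2
        exact h2.trans (le_abs_self _)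
      · rw [measureReal_def, vol_E0]
        simp
    calc ∑ i, ‖uu (a i) (q i) x‖ ≤ ∑ _i : ι, |B 0| := Finset.sum_le_sum fun i _ => h1 i
      _ = Fintype.card ι * |B 0| := by simp
  have hL2 : ∫⁻ x, ‖∑ i, uu (a i) (q i) x‖ₑ ^ p ≤
      ENNReal.ofReal ((Fintype.card ι * |B 0|) ^ p) := by
    calc ∫⁻ x, ‖∑ i, uu (a i) (q i) x‖ₑ ^ p
        ≤ ∫⁻ _x : E 0, ENNReal.ofReal ((Fintype.card ι * |B 0|) ^ p) := by
          refine lintegral_mono fun x => ?_
          rw [← ENNReal.ofReal_rpow_of_nonneg (by positivity) (by linarith)]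
          exact ENNReal.rpow_le_rpow (hL x) (by linarith)
      _ = _ := by rw [lintegral_const, vol_E0, mul_one]
  -- the right side
  have hR : ∀ i, (1 : ℝ≥0∞) ≤ ∫⁻ y in Metric.ball (z i) ρ, G i y ^ (p - 2) := by
    intro i
    have h1 : Metric.ball (z i) ρ = univ := by
      refine eq_univ_of_forall fun y => ?_
      rw [Subsingleton.elim y (z i)]
      exact Metric.mem_ball_self hρ
    rw [h1, Measure.restrict_univ]
    calc (1 : ℝ≥0∞) = ∫⁻ _y : E 0, 1 := by rw [lintegral_const, vol_E0, mul_one]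
      _ ≤ ∫⁻ y, G i y ^ (p - 2) := by
        refine lintegral_mono fun y => ?_
        have h2 := hG i y 1 (by
          rw [Subsingleton.elim (y - z i) 0, norm_zero]
          exact hρ) zero_le_one (show (1 : ℝ) ≤ 1 from le_rfl)
        rw [ENNReal.ofReal_one] at h2
        exact ENNReal.one_le_rpow h2 (by linarith)
  suffices hkey : ∫⁻ x, ‖∑ i, uu (a i) (q i) x‖ₑ ^ p ≤
      ENNReal.ofReal (max 1 (|B 0| ^ p) * (K * M) ^ ⌈p⌉₊) *
        (∑ i, ∫⁻ y in Metric.ball (z i) ρ, G i y ^ (p - 2)) from le_add_right hkey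
  refine hL2.trans ?_
  rcases Nat.eq_zero_or_pos (Fintype.card ι) with h0 | h0
  · rw [h0, Nat.cast_zero, zero_mul, Real.zero_rpow (by linarith), ENNReal.ofReal_zero]
    exact zero_le
  have hsum : (Fintype.card ι : ℝ≥0∞) ≤
      ∑ i, ∫⁻ y in Metric.ball (z i) ρ, G i y ^ (p - 2) := by
    calc (Fintype.card ι : ℝ≥0∞) = ∑ _i : ι, (1 : ℝ≥0∞) := by simp
      _ ≤ _ := Finset.sum_le_sum fun i _ => hR i
  refine le_trans ?_ (mul_le_mul_right hsum _)
  have hcast : (Fintype.card ι : ℝ≥0∞) = ENNReal.ofReal (Fintype.card ι : ℝ) := by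
    rw [ENNReal.ofReal_natCast]
  rw [hcast, ← ENNReal.ofReal_mul (by positivity)]
  apply ENNReal.ofReal_le_ofReal
  have hc1 : (1 : ℝ) ≤ Fintype.card ι := by exact_mod_cast h0
  have hcM : (Fintype.card ι : ℝ) ≤ M := by exact_mod_cast hcard
  have hM1 : (1 : ℝ) ≤ M := hc1.trans hcM
  rw [Real.mul_rpow (by positivity) (abs_nonneg _)]
  have h1 : (Fintype.card ι : ℝ) ^ p ≤ (K * M) ^ ⌈p⌉₊ * Fintype.card ι := by
    have h2 : (Fintype.card ι : ℝ) ^ p = (Fintype.card ι : ℝ) ^ (p - 1) * Fintype.card ι := by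
      rw [← Real.rpow_add_one (by positivity)]
      congr 1
      ring
    rw [h2]
    refine mul_le_mul_of_nonneg_right ?_ (by positivity)
    calc (Fintype.card ι : ℝ) ^ (p - 1) ≤ (K * M) ^ (p - 1) := by
          refine Real.rpow_le_rpow (by positivity) ?_ (by linarith)
          nlinarith
      _ ≤ (K * M) ^ ((⌈p⌉₊ : ℕ) : ℝ) := by
          refine Real.rpow_le_rpow_of_exponent_le ?_ ?_
          · nlinarith
          · have := Nat.le_ceil p
            linarith
      _ = (K * M) ^ ⌈p⌉₊ := Real.rpow_natCast _ _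
  calc (Fintype.card ι : ℝ) ^ p * |B 0| ^ p ≤
        ((K * M) ^ ⌈p⌉₊ * Fintype.card ι) * max 1 (|B 0| ^ p) := by
        gcongr
        exact le_max_right _ _
    _ = max 1 (|B 0| ^ p) * (K * M) ^ ⌈p⌉₊ * Fintype.card ι := by ring

end Pool.Agent.GNP
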