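import Pool.Agent.GNP.FT5
import Pool.Agent.GNP.FTZ

/-! The fixed time theorem in all dimensions. -/

namespace Pool.Agent.GNP

open MeasureTheory Set Pool.Agent.MP_6cbfb8_an

/-- The fixed time theorem: a bound for every family of cells by the values of the chains of
reductions. -/
theorem ft (m : ℕ) (p : ℝ) (hp : 2 < p) : ∃ C1 : ℕ, FTst m p C1 := by
  induction m with
  | zero => exact ft_zero p hp
  | succ m ih => exact ft_succ m p hp ih

end Pool.Agent.GNP
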