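import Pool.Agent.GNP.Defs

/-! The factor `AA M`, equal to `∏ (1 + μ_j²)^(-1/4)` for a symmetric operator with the eigenvalues
`μ_j`. -/

namespace Pool.Agent.GNP

open MeasureTheory Set Metric Pool.Agent.MP_6cbfb8_an
open scoped ENNReal Real RealInnerProductSpace ContDiff

/-- `|det (1 + M²)|^(-1/4)`. -/
noncomputable def AA {d : ℕ} (M : E d →L[ℝ] E d) : ℝ :=
  |(ContinuousLinearMap.id ℝ (E d) + M ∘L M).det| ^ (-(1 / 4) : ℝ)

/-- An orthonormal basis of eigenvectors. -/
theorem exists_eig {d : ℕ} (M : E d →L[ℝ] E d) (hM : Sy M) :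
    ∃ (e : OrthonormalBasis (Fin d) ℝ (E d)) (μ : Fin d → ℝ), (∀ k, M (e k) = μ k • e k) ∧
      (∀ w k, e.repr (M w) k = μ k * e.repr w k) := by
  have hT : (M : E d →ₗ[ℝ] E d).IsSymmetric := fun v w => hM v w
  have hn : Module.finrank ℝ (E d) = d := by simp
  exact ⟨hT.eigenvectorBasis hn, hT.eigenvalues hn, fun k => hT.apply_eigenvectorBasis hn k,
    fun w k => hT.eigenvectorBasis_apply_self_apply hn w k⟩

theorem det_one_add_sq {d : ℕ} (M : E d →L[ℝ] E d) (e : OrthonormalBasis (Fin d) ℝ (E d))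
    (μ : Fin d → ℝ) (he : ∀ k, M (e k) = μ k • e k) :
    (ContinuousLinearMap.id ℝ (E d) + M ∘L M).det = ∏ k, (1 + μ k ^ 2) := by
  have h1 : LinearMap.toMatrix e.toBasis e.toBasis
      ((ContinuousLinearMap.id ℝ (E d) + M ∘L M : E d →L[ℝ] E d) : E d →ₗ[ℝ] E d) =
      Matrix.diagonal fun k => 1 + μ k ^ 2 := by
    ext i j
    rw [LinearMap.toMatrix_apply]
    have h2 : ((ContinuousLinearMap.id ℝ (E d) + M ∘L M : E d →L[ℝ] E d) : E d →ₗ[ℝ] E d)
        (e.toBasis j) = (1 + μ j ^ 2) • e.toBasis j := by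
      simp only [OrthonormalBasis.coe_toBasis, ContinuousLinearMap.coe_coe, add_apply,
        ContinuousLinearMap.id_apply, ContinuousLinearMap.comp_apply, he, map_smul, smul_smul]
      rw [add_smul, one_smul, sq]
    rw [h2, map_smul, Module.Basis.repr_self, Matrix.diagonal_apply]
    simp only [Finsupp.smul_apply, Finsupp.single_apply, smul_eq_mul]
    by_cases h : i = j
    · simp [h]
    · have h' : ¬ j = i := fun hh => h hh.symm
      simp [h, h']
  have h3 := LinearMap.det_toMatrix e.toBasis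
    ((ContinuousLinearMap.id ℝ (E d) + M ∘L M : E d →L[ℝ] E d) : E d →ₗ[ℝ] E d)
  rw [h1, Matrix.det_diagonal] at h3
  exact h3.symm

theorem AA_eq {d : ℕ} (M : E d →L[ℝ] E d) (e : OrthonormalBasis (Fin d) ℝ (E d))
    (μ : Fin d → ℝ) (he : ∀ k, M (e k) = μ k • e k) :
    AA M = ∏ k, (1 + μ k ^ 2) ^ (-(1 / 4) : ℝ) := by
  rw [AA, det_one_add_sq M e μ he, abs_of_nonneg (Finset.prod_nonneg fun k _ => by positivity),
    Real.finsetProd_rpow _ _ fun k _ => by positivity]

theorem AA_pos {d : ℕ} (M : E d →L[ℝ] E d) (hM : Sy M) : 0 < AA M := by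
  obtain ⟨e, μ, he, -⟩ := exists_eig M hM
  rw [AA_eq M e μ he]
  exact Finset.prod_pos fun k _ => Real.rpow_pos_of_pos (by positivity) _

theorem AA_nonneg {d : ℕ} (M : E d →L[ℝ] E d) : 0 ≤ AA M := Real.rpow_nonneg (abs_nonneg _) _

theorem AA_le_one {d : ℕ} (M : E d →L[ℝ] E d) (hM : Sy M) : AA M ≤ 1 := by
  obtain ⟨e, μ, he, -⟩ := exists_eig M hM
  rw [AA_eq M e μ he]
  refine Finset.prod_le_one (fun k _ => Real.rpow_nonneg (by positivity) _) fun k _ => ?_
  exact Real.rpow_le_one_of_one_le_of_nonpos (by nlinarith [sq_nonneg (μ k)]) (by norm_num)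

/-- comparison with the product of `(1 + |μ|)^(-1/2)` -/
theorem prod_sqrt_le_AA {d : ℕ} (M : E d →L[ℝ] E d) (e : OrthonormalBasis (Fin d) ℝ (E d))
    (μ : Fin d → ℝ) (he : ∀ k, M (e k) = μ k • e k) :
    ∏ k, (√(1 + |μ k|))⁻¹ ≤ AA M := by
  rw [AA_eq M e μ he]
  refine Finset.prod_le_prod (fun k _ => by positivity) fun k _ => ?_
  rw [Real.rpow_neg (by positivity)]
  have h0 : 0 ≤ |μ k| := abs_nonneg _
  apply inv_anti₀ (Real.rpow_pos_of_pos (by positivity) _)
  have h1 : 1 + μ k ^ 2 ≤ (1 + |μ k|) ^ 2 := by nlinarith [sq_abs (μ k)]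
  calc (1 + μ k ^ 2) ^ (1 / 4 : ℝ) ≤ ((1 + |μ k|) ^ 2) ^ (1 / 4 : ℝ) :=
        Real.rpow_le_rpow (by positivity) h1 (by norm_num)
    _ = √(1 + |μ k|) := by
        rw [Real.sqrt_eq_rpow, ← Real.rpow_natCast, ← Real.rpow_mul (by positivity)]
        norm_num

theorem continuous_AA {d : ℕ} : ContinuousOn (AA : (E d →L[ℝ] E d) → ℝ) {M | Sy M} := by
  have h1 : Continuous fun M : E d →L[ℝ] E d => |(ContinuousLinearMap.id ℝ (E d) + M ∘L M).det| := by
    refine continuous_abs.comp (ContinuousLinearMap.continuous_det.comp ?_)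
    exact continuous_const.add (continuous_id.clm_comp continuous_id)
  refine h1.continuousOn.rpow_const fun M hM => Or.inl ?_
  obtain ⟨e, μ, he, -⟩ := exists_eig M hM
  rw [det_one_add_sq M e μ he]
  exact abs_ne_zero.2 (Finset.prod_pos fun k _ => by positivity).ne'

theorem measurable_AA {d : ℕ} : Measurable (AA : (E d →L[ℝ] E d) → ℝ) := by
  have h1 : Continuous fun M : E d →L[ℝ] E d => |(ContinuousLinearMap.id ℝ (E d) + M ∘L M).det| := by
    refine continuous_abs.comp (ContinuousLinearMap.continuous_det.comp ?_)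
    exact continuous_const.add (continuous_id.clm_comp continuous_id)
  exact h1.measurable.pow_const _

end Pool.Agent.GNP
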