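import Pool.Agent.GNP.KR
import Pool.Agent.GNP.AADef

/-!
Every phase in `R^3` and `R^4`: definitions.
-/

namespace Pool.Agent.GNP

open MeasureTheory Set Pool.Agent.MP_6cbfb8_an
open scoped ENNReal Real RealInnerProductSpace ContDiff

/-- The weight `(1 + |∇q(y) - x|/R)^(-N)`. -/
noncomputable def wt {d : ℕ} (N : ℕ) (q : E d → ℝ) (R : ℝ) (x y : E d) : ℝ :=
  ((1 + ‖gr q y - x‖ / R) ^ N)⁻¹

/-- The Hessian at the scale `1/R`. -/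
noncomputable def Mz {d : ℕ} (q : E d → ℝ) (R : ℝ) (y : E d) : E d →L[ℝ] E d := (R ^ 2)⁻¹ • Hs q y

/-- At the scale `1/R` the phase is quadratic up to bounded terms, at the points of `G`. -/
structure Quad (d : ℕ) (A : ℕ → ℝ) (R : ℝ) (q : E d → ℝ) (G : Set (E d)) : Prop where
  sm : ContDiff ℝ ∞ q
  bd : ∀ y ∈ G, ∀ j, 3 ≤ j → ‖iteratedFDeriv ℝ j q y‖ ≤ A j * R ^ j

/-- The derivatives of order `j > J` are at most `A j * κ^(J+1)`. -/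
structure High (d J : ℕ) (A : ℕ → ℝ) (κ : ℝ) (q : E d → ℝ) : Prop where
  sm : ContDiff ℝ ∞ q
  bd : ∀ j, J < j → ∀ y, ‖iteratedFDeriv ℝ j q y‖ ≤ A j * κ ^ (J + 1)

/-- The stopping scale is `1 / Lm`. -/
noncomputable def Lm {d : ℕ} (J : ℕ) (κ : ℝ) (q : E d → ℝ) (y : E d) : ℝ :=
  κ + ∑ j ∈ Finset.Icc 3 J, ‖iteratedFDeriv ℝ j q y‖ ^ ((j : ℝ)⁻¹)

/-- The level: `2^(lv - 1) < Lm ≤ 2^lv` (for `Lm > 1`). -/
noncomputable def lv {d : ℕ} (J : ℕ) (κ : ℝ) (q : E d → ℝ) (y : E d) : ℕ :=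
  ⌈Real.logb 2 (Lm J κ q y)⌉₊

/-- The points of the ball of radius `r` whose level is `k` up to `m`. -/
def Fl {d : ℕ} (J : ℕ) (κ : ℝ) (q : E d → ℝ) (r : ℝ) (m k : ℕ) : Set (E d) :=
  {y | ‖y‖ ≤ r ∧ k ≤ lv J κ q y + m ∧ lv J κ q y ≤ k + m}

/-- The sum of the determinants at the shifted slopes `s + 2jR`, `j ≤ d`. -/
noncomputable def Sd {d : ℕ} (Φ h : E d → ℝ) (c s R : ℝ) (y : E d) : ℝ :=
  ∑ j ∈ Finset.range (d + 1), |(Hs (ph Φ h c (s + 2 * j * R)) y).det|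

/-- The density of the bound at the scale `1/R`. -/
noncomputable def Vv {d : ℕ} (Φ h : E d → ℝ) (c s R : ℝ) (y : E d) : ℝ :=
  R ^ d / Sd Φ h c s R y / AA (Mz (ph Φ h c s) R y)

/-- `h` is strictly concave on the ball of radius `r`. -/
def Df (d : ℕ) (b r : ℝ) (h : E d → ℝ) : Prop :=
  ∀ y, ‖y‖ ≤ r → ∀ v, ⟪Hs h y v, v⟫ ≤ -(b * ‖v‖ ^ 2)

end Pool.Agent.GNP
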