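import Pool.Agent.GNP.Core
import Pool.Agent.GNP.Defs4

/-!
Every phase in few dimensions: the range of large `s`, where the Hessian is definite.
-/

namespace Pool.Agent.GNP

open MeasureTheory Set Pool.Agent.MP_6cbfb8_an
open scoped ENNReal Real RealInnerProductSpace ContDiff

/-- The integral over `|s| ≥ s1 (1 + |c|)`, `s1 = max 1 (2 A 2 / b)`. -/
theorem far_s_aux (d : ℕ) (hd : 1 ≤ d) (A : ℕ → ℝ) (r r' b α p : ℝ) (hr : 0 < r) (hr' : r < r')
    (hb : 0 < b) (hα : 2 / (d : ℝ) < α) (hαp : α ≤ p - 2) :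
    ∃ K : ℝ≥0∞, K ≠ ⊤ ∧ ∀ (Φ h : E d → ℝ) (a : E d → ℂ), Sm d A Φ → Sm d A h → Amp d A r a →
      (∀ y, ‖y‖ ≤ r' → ∀ v, ⟪Hs h y v, v⟫ ≤ -(b * ‖v‖ ^ 2)) → ∀ c : ℝ,
      ∫⁻ s in {s : ℝ | max 1 (2 * A 2 / b) * (1 + |c|) ≤ |s|},
        ∫⁻ x, ‖uu a (ph Φ h c s) x‖ₑ ^ p ≤ K := by
  have hd0 : (0 : ℝ) < d := by exact_mod_cast hd
  have hda : 2 < (d : ℝ) * α := by
    rw [div_lt_iff₀ hd0] at hα
    linarith
  have hα0 : 0 < α := (div_pos two_pos hd0).trans hα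
  obtain ⟨K, hK, key⟩ := key d hd A r r' p ((d * α - 2) / 2) α hr hr' (by linarith) (by linarith)
    hα0.le hαp
  set s0 : ℝ := max 1 (2 * A 2 / b) with hs0
  have hs01 : 1 ≤ s0 := le_max_left _ _
  set c1 : ℝ := b / (4 * √2) with hc1
  have hc1p : 0 < c1 := by positivity
  set ε : ℝ := (d * α - 2) / 2 with hε
  have hεp : 0 < ε := by rw [hε]; linarith
  set τ : ℝ := (d * α + 2) / 4 with hτ
  set V : ℝ≥0∞ := volume (Metric.closedBall (0 : E d) r') with hV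
  have hVt : V ≠ ⊤ := measure_closedBall_lt_top.ne
  set C1 : ℝ := K * √2 ^ ε * c1 ^ (-((d : ℝ) * α)) with hC1
  have hC1p : 0 < C1 := by positivity
  have hτ1 : (Module.finrank ℝ ℝ : ℝ) < τ := by
    rw [Module.finrank_self, hτ]; push_cast; linarith
  refine ⟨ENNReal.ofReal C1 * V * ∫⁻ s : ℝ, ENNReal.ofReal ((1 + ‖s‖) ^ (-τ)),
    ENNReal.mul_ne_top (ENNReal.mul_ne_top ENNReal.ofReal_ne_top hVt)
      (finite_integral_one_add_norm hτ1).ne, ?_⟩
  intro Φ h a hΦ hh ha hdef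
  have hA2 : 0 ≤ A 2 := (norm_nonneg _).trans (hΦ.bd 2 0)
  have hsq : ∀ c s : ℝ, s0 * (1 + |c|) ≤ |s| → √(1 + |c| + |s|) ≤ √2 * √(1 + |s|) := by
    intro c s hs
    rw [← Real.sqrt_mul (by norm_num)]
    refine Real.sqrt_le_sqrt ?_
    have : 1 + |c| ≤ |s| := by nlinarith [abs_nonneg c]
    linarith
  -- the lower bound of the determinant
  have hlow : ∀ c s : ℝ, s0 * (1 + |c|) ≤ |s| → ∀ y : E d, ‖y‖ ≤ r' →
      (c1 * √(1 + |s|)) ^ d ≤ 1 + |(Hs (ph Φ h c s) y).det| / √(1 + |c| + |s|) ^ d := by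
    intro c s hs y hy
    have hX0 : 0 < √(1 + |c| + |s|) := by positivity
    have hs1 : 1 ≤ |s| := by nlinarith [abs_nonneg c]
    have h1 : (b * |s| / 2) ^ d ≤ |(Hs (ph Φ h c s) y).det| := by
      have h2 := det_def d (c • Hs Φ y) (-(Hs h y)) b (|c| * A 2) s hb ?_ ?_ ?_
      · rwa [smul_neg, ← sub_eq_add_neg, ← Hs_ph hΦ.sm hh.sm] at h2
      · rw [norm_smul, Real.norm_eq_abs]
        have h3 := (norm_Hs_le hΦ.sm y).trans (hΦ.bd 2 y)
        gcongr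
      · intro v
        have h4 := hdef y hy v
        have h5 : ⟪(-(Hs h y)) v, v⟫ = -⟪Hs h y v, v⟫ := by
          rw [_root_.neg_apply, inner_neg_left]
        rw [h5]; linarith
      · have h3 : 2 * A 2 / b ≤ s0 := le_max_right _ _
        have h4 : 2 * (|c| * A 2) / b = (2 * A 2 / b) * |c| := by ring
        rw [h4]
        nlinarith [abs_nonneg c]
    have h6 : c1 * √(1 + |s|) ≤ b * |s| / 2 / √(1 + |c| + |s|) := by
      rw [le_div_iff₀ hX0]
      have h7 := hsq c s hs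
      have h8 : √(1 + |s|) * √(1 + |s|) = 1 + |s| := Real.mul_self_sqrt (by positivity)
      have h10 : 0 < √2 := by positivity
      calc c1 * √(1 + |s|) * √(1 + |c| + |s|)
          ≤ b / (4 * √2) * √(1 + |s|) * (√2 * √(1 + |s|)) := by gcongr
        _ = b / 4 * (√(1 + |s|) * √(1 + |s|)) := by field_simp
        _ = b / 4 * (1 + |s|) := by rw [h8]
        _ ≤ b * |s| / 2 := by nlinarith
    calc (c1 * √(1 + |s|)) ^ d ≤ (b * |s| / 2 / √(1 + |c| + |s|)) ^ d :=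
          pow_le_pow_left₀ (by positivity) h6 d
      _ = (b * |s| / 2) ^ d / √(1 + |c| + |s|) ^ d := by rw [div_pow]
      _ ≤ |(Hs (ph Φ h c s) y).det| / √(1 + |c| + |s|) ^ d := by gcongr
      _ ≤ 1 + |(Hs (ph Φ h c s) y).det| / √(1 + |c| + |s|) ^ d := by linarith
  -- the bound for fixed `s`
  have hmain : ∀ c s : ℝ, s0 * (1 + |c|) ≤ |s| → ∫⁻ x, ‖uu a (ph Φ h c s) x‖ₑ ^ p ≤
      ENNReal.ofReal C1 * V * ENNReal.ofReal ((1 + ‖s‖) ^ (-τ)) := by
    intro c s hs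
    rw [Real.norm_eq_abs]
    have hX1 : 1 ≤ 1 + |c| + |s| := by have := abs_nonneg c; have := abs_nonneg s; linarith
    have hR1 : 1 ≤ √(1 + |c| + |s|) := by
      rw [show (1 : ℝ) = √1 by simp]
      exact Real.sqrt_le_sqrt (by simpa using hX1)
    have hR0 : 0 < √(1 + |c| + |s|) := by linarith
    have hY0 : 0 < √(1 + |s|) := by positivity
    have h1 := key a (ph Φ h c s) (√(1 + |c| + |s|)) hR1 ha (core_phq hΦ hh c s)
    refine h1.trans ?_
    have h2 : ∫⁻ y in Metric.closedBall (0 : E d) r',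
        ENNReal.ofReal ((1 + |(Hs (ph Φ h c s) y).det| / √(1 + |c| + |s|) ^ d) ^ (-α)) ≤
        ENNReal.ofReal ((c1 * √(1 + |s|)) ^ (-((d : ℝ) * α))) * V := by
      rw [hV, ← setLIntegral_const]
      refine setLIntegral_mono measurable_const ?_
      intro y hy
      refine ENNReal.ofReal_le_ofReal ?_
      have h3 := hlow c s hs y (by simpa using hy)
      have h4 : 0 < (c1 * √(1 + |s|)) ^ d := by positivity
      refine (Real.rpow_le_rpow_of_nonpos h4 h3 (by linarith)).trans (le_of_eq ?_)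
      rw [← Real.rpow_natCast, ← Real.rpow_mul (by positivity)]
      congr 1; ring
    refine (mul_le_mul_right h2 _).trans ?_
    rw [← mul_assoc, ← ENNReal.ofReal_mul (by positivity), mul_right_comm (ENNReal.ofReal C1),
      ← ENNReal.ofReal_mul hC1p.le]
    refine mul_le_mul_left (ENNReal.ofReal_le_ofReal ?_) _
    have h5 := hsq c s hs
    have h6 : √(1 + |c| + |s|) ^ ε ≤ √2 ^ ε * √(1 + |s|) ^ ε := by
      rw [← Real.mul_rpow (by positivity) (by positivity)]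
      exact Real.rpow_le_rpow hR0.le h5 hεp.le
    have h7 : √(1 + |s|) ^ ε * √(1 + |s|) ^ (-((d : ℝ) * α)) = (1 + |s|) ^ (-τ) := by
      rw [← Real.rpow_add hY0, Real.sqrt_eq_rpow, ← Real.rpow_mul (by positivity)]
      congr 1
      rw [hε, hτ]; ring
    calc K * √(1 + |c| + |s|) ^ ε * (c1 * √(1 + |s|)) ^ (-((d : ℝ) * α))
        ≤ K * (√2 ^ ε * √(1 + |s|) ^ ε) * (c1 * √(1 + |s|)) ^ (-((d : ℝ) * α)) := by gcongr
      _ = K * (√2 ^ ε * √(1 + |s|) ^ ε) *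
          (c1 ^ (-((d : ℝ) * α)) * √(1 + |s|) ^ (-((d : ℝ) * α))) := by
            rw [Real.mul_rpow hc1p.le hY0.le]
      _ = C1 * (√(1 + |s|) ^ ε * √(1 + |s|) ^ (-((d : ℝ) * α))) := by rw [hC1]; ring
      _ = C1 * (1 + |s|) ^ (-τ) := by rw [h7]
  intro c
  rw [← lintegral_const_mul' _ _ (ENNReal.mul_ne_top ENNReal.ofReal_ne_top hVt)]
  refine le_trans ?_ (setLIntegral_le_lintegral {s : ℝ | s0 * (1 + |c|) ≤ |s|} _)
  refine setLIntegral_mono' (measurableSet_le measurable_const (by fun_prop)) ?_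
  intro s hs
  exact hmain c s hs

/-- The integral over `|s| ≥ C1 (1 + |c|)`. -/
theorem far_s (d : ℕ) (hd : 1 ≤ d) (A : ℕ → ℝ) (r r' b p : ℝ) (hr : 0 < r) (hr' : r < r')
    (hb : 0 < b) (hp : 2 * ((d : ℝ) + 1) / d < p) : ∃ K C1 : ℝ, 0 < K ∧ 0 < C1 ∧
    ∀ (Φ h : E d → ℝ) (a : E d → ℂ), Sm d A Φ → Sm d A h → Amp d A r a → Df d b r' h → ∀ c : ℝ,
      ∫⁻ s in {s : ℝ | C1 * (1 + |c|) ≤ |s|}, ∫⁻ x, ‖uu a (ph Φ h c s) x‖ₑ ^ p ≤
        ENNReal.ofReal K := by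
  have hd0 : (0 : ℝ) < d := by exact_mod_cast hd
  have hp' : 2 / (d : ℝ) < p - 2 := by
    rw [div_lt_iff₀ hd0] at hp ⊢
    linarith
  obtain ⟨K, hK, H⟩ := far_s_aux d hd A r r' b (p - 2) p hr hr' hb hp' le_rfl
  refine ⟨K.toReal + 1, max 1 (2 * A 2 / b), by positivity,
    lt_of_lt_of_le one_pos (le_max_left _ _), ?_⟩
  intro Φ h a hΦ hh ha hdef c
  refine (H Φ h a hΦ hh ha hdef c).trans ?_
  rw [← ENNReal.ofReal_toReal hK]
  exact ENNReal.ofReal_le_ofReal (by rw [ENNReal.toReal_ofReal ENNReal.toReal_nonneg]; linarith)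

end Pool.Agent.GNP
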