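import Pool.Agent.GNP.Defs

/-!
Lowering the exponent.
-/

namespace Pool.Agent.GNP

open MeasureTheory Set Pool.Agent.MP_6cbfb8_an
open scoped ENNReal Real RealInnerProductSpace

/-- A smaller exponent `p1` such that `p1 - 2` is not the inverse of a natural number. -/
theorem choose_p (d : ℕ) (hd : 2 ≤ d) (p : ℝ) (hp : 2 * ((d : ℝ) + 1) / d < p) :
    ∃ p1, 2 * ((d : ℝ) + 1) / d < p1 ∧ p1 < p ∧ ∀ m : ℕ, (m : ℝ) * (p1 - 2) ≠ 1 := by
  obtain ⟨p1, h1, h2, h3⟩ := exists_irrational_btwn hp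
  refine ⟨p1, h2, h3, fun m hm => h1 ?_⟩
  have hm0 : (m : ℝ) ≠ 0 := by
    intro h
    rw [h, zero_mul] at hm
    exact zero_ne_one hm
  refine ⟨1 / (m : ℚ) + 2, ?_⟩
  push_cast
  have h4 : p1 - 2 = 1 / (m : ℝ) := by
    rw [eq_div_iff hm0, mul_comm]
    exact hm
  linarith

/-- The integrals are bounded by the integral of the amplitude. -/
theorem uu_sup (d : ℕ) (A : ℕ → ℝ) (r : ℝ) : ∃ C : ℝ, 1 ≤ C ∧
    ∀ (a : E d → ℂ) (q : E d → ℝ), Amp d A r a → ∀ x, ‖uu a q x‖ₑ ≤ ENNReal.ofReal C := by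
  set V : ℝ≥0∞ := volume (Metric.closedBall (0 : E d) r) with hV
  have hVt : V ≠ ⊤ := measure_closedBall_lt_top.ne
  refine ⟨max 1 (A 0 * V.toReal), le_max_left _ _, fun a q ha x => ?_⟩
  have hA : ∀ y, ‖a y‖ ≤ A 0 := by
    intro y
    have h := ha.bd 0 y
    rwa [norm_iteratedFDeriv_zero] at h
  have hA0 : 0 ≤ A 0 := (norm_nonneg _).trans (hA 0)
  calc ‖uu a q x‖ₑ ≤ ∫⁻ y, ‖a y * Complex.exp (((q y - ⟪x, y⟫ : ℝ) : ℂ) * Complex.I)‖ₑ :=
        enorm_integral_le_lintegral_enorm _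
    _ ≤ ∫⁻ y, (Metric.closedBall (0 : E d) r).indicator (fun _ => ENNReal.ofReal (A 0)) y := by
        refine lintegral_mono fun y => ?_
        simp only
        rw [enorm_mul, ← ofReal_norm (Complex.exp _), Complex.norm_exp_ofReal_mul_I,
          ENNReal.ofReal_one, mul_one]
        by_cases hy : y ∈ Metric.closedBall (0 : E d) r
        · rw [indicator_of_mem hy, ← ofReal_norm]
          exact ENNReal.ofReal_le_ofReal (hA y)
        · rw [indicator_of_notMem hy]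
          rw [mem_closedBall_zero_iff, not_le] at hy
          rw [ha.supp y hy, enorm_zero]
    _ = ENNReal.ofReal (A 0) * V := by
        rw [lintegral_indicator_const Metric.isClosed_closedBall.measurableSet]
    _ = ENNReal.ofReal (A 0 * V.toReal) := by
        rw [ENNReal.ofReal_mul hA0, ENNReal.ofReal_toReal hVt]
    _ ≤ _ := ENNReal.ofReal_le_ofReal (le_max_right _ _)

/-- Lowering the exponent. -/
theorem lower_p (d : ℕ) (A : ℕ → ℝ) (r p p1 : ℝ) (h0 : 0 < p1) (h1 : p1 ≤ p) : ∃ K : ℝ, 0 < K ∧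
    ∀ (a : E d → ℂ) (q : E d → ℝ), Amp d A r a →
    ∫⁻ x, ‖uu a q x‖ₑ ^ p ≤ ENNReal.ofReal K * ∫⁻ x, ‖uu a q x‖ₑ ^ p1 := by
  obtain ⟨C, hC, H⟩ := uu_sup d A r
  have hC0 : 0 < C := by linarith
  refine ⟨C ^ (p - p1), by positivity, fun a q ha => ?_⟩
  rw [← lintegral_const_mul' _ _ ENNReal.ofReal_ne_top]
  refine lintegral_mono fun x => ?_
  simp only
  have e1 : ‖uu a q x‖ₑ ^ p = ‖uu a q x‖ₑ ^ (p - p1) * ‖uu a q x‖ₑ ^ p1 := by
    rw [← ENNReal.rpow_add_of_nonneg _ _ (by linarith) h0.le, sub_add_cancel]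
  rw [e1, ← ENNReal.ofReal_rpow_of_pos hC0]
  exact mul_le_mul' (ENNReal.rpow_le_rpow (H a q ha x) (by linarith)) le_rfl

end Pool.Agent.GNP
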