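import Pool.Agent.GNP.POLY

/-!
Reduction to polynomial phases on small balls, the centres chosen first; extension of the Taylor
polynomials.
-/

namespace Pool.Agent.GNP

open MeasureTheory Set Pool.Agent.MP_6cbfb8_an Pool.Agent.GPH
open scoped ENNReal Real RealInnerProductSpace ContDiff Nat

theorem Lam_mono {d : ℕ} {ρ ρ' R : ℝ} (hR : 0 ≤ R) (h : ρ ≤ ρ') : Lam d ρ R ⊆ Lam d ρ' R := by
  intro k hk
  unfold Lam at hk ⊢
  rw [Finset.mem_filter, Fintype.mem_piFinset] at hk ⊢
  have h1 : ρ * R ≤ ρ' * R := mul_le_mul_of_nonneg_right h hR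
  have h2 : ⌈ρ * R⌉ ≤ ⌈ρ' * R⌉ := Int.ceil_mono h1
  refine ⟨fun i => ?_, hk.2.trans h1⟩
  have h3 := hk.1 i
  rw [Finset.mem_Icc] at h3 ⊢
  omega

/-- Reduction to polynomial phases on balls of radius `ρ`, the centres do not depend on the phase. -/
theorem poly_red5 (d N : ℕ) (A : ℕ → ℝ) (r : ℝ) (hr : 0 < r) : ∃ (A' : ℕ → ℝ) (K : ℝ), 0 < K ∧
    ∀ ρ : ℝ, 0 < ρ → ρ ≤ 1 → ∃ Z : Finset (E d), (Z.card : ℝ) ≤ K / ρ ^ d ∧
      (∀ z ∈ Z, ‖z‖ ≤ r + ρ) ∧ ∀ (Φ h : E d → ℝ) (a : E d → ℂ) (c s L : ℝ), Sm d A Φ → Sm d A h →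
      Amp d A r a → 1 + |c| + |s| ≤ L → L * ρ ^ (N + 1) ≤ 1 → ∃ b : E d → E d → ℂ,
        (∀ z ∈ Z, AmpZ d A' ρ z (b z)) ∧
        ∀ x, uu a (ph Φ h c s) x = ∑ z ∈ Z, uu (b z) (ph (TPT Φ z N) (TPT h z N) c s) x := by
  classical
  obtain ⟨A', hA'⟩ := amp_piece d A fun j => A (N + 1) + A j
  obtain ⟨K, hK, hcard⟩ := card_Lam d (r + 1) (by linarith)
  refine ⟨A', K * ((d : ℝ) + 1) ^ d, by positivity, ?_⟩
  intro ρ hρ hρ1
  set R : ℝ := ((d : ℝ) + 1) / ρ with hR
  have hd1 : (0 : ℝ) < (d : ℝ) + 1 := by positivity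
  have hR0 : 0 < R := by positivity
  have hRd : (d : ℝ) + 1 ≤ R := by
    rw [hR, le_div_iff₀ hρ]
    nlinarith
  have hR1 : 1 ≤ R := by
    have : (0 : ℝ) ≤ d := Nat.cast_nonneg d
    linarith
  set z : (Fin d → ℤ) → E d := fun k => R⁻¹ • lp k with hz
  have hzinj : Function.Injective z := by
    intro k k' hkk
    have h1 : lp k = (lp k' : E d) := by
      have h2 := congrArg (fun v => R • v) hkk
      simpa [hz, smul_smul, mul_inv_cancel₀ hR0.ne'] using h2
    funext i
    have h2 := congrArg (fun v : E d => v i) h1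
    simpa [lp] using h2
  refine ⟨(Lam d (r + ρ) R).image z, ?_, ?_, ?_⟩
  · have h1 : (((Lam d (r + ρ) R).image z).card : ℝ) ≤ (Lam d (r + 1) R).card := by
      refine Nat.cast_le.2 (Finset.card_image_le.trans (Finset.card_le_card ?_))
      exact Lam_mono hR0.le (by linarith)
    refine h1.trans ((hcard R hR1).trans (le_of_eq ?_))
    rw [hR, div_pow]
    ring
  · intro w hw
    rw [Finset.mem_image] at hw
    obtain ⟨k, hk, rfl⟩ := hw
    unfold Lam at hk
    rw [Finset.mem_filter] at hk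
    rw [hz]
    dsimp only
    rw [norm_smul, Real.norm_eq_abs, abs_of_pos (inv_pos.2 hR0), inv_mul_le_iff₀ hR0, mul_comm]
    exact hk.2
  intro Φ h a c s L hΦ hh ha hL hLρ
  set q : E d → ℝ := ph Φ h c s with hq
  have hqs : ContDiff ℝ ∞ q := contDiff_ph hΦ.sm hh.sm c s
  set P : E d → E d → ℝ := fun w => ph (TPT Φ w N) (TPT h w N) c s with hP
  have hPs : ∀ w, ContDiff ℝ ∞ (P w) := fun w =>
    contDiff_ph (TPT_smooth Φ w N) (TPT_smooth h w N) c s
  set b : E d → E d → ℂ := fun w y =>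
    chd d (ρ⁻¹ • (y - w)) * (a y * ee (q y - P w y)) with hb
  refine ⟨b, ?_, ?_⟩
  · intro w hw
    rw [Finset.mem_image] at hw
    obtain ⟨k, hk, rfl⟩ := hw
    exact hA' a (fun y => q y - P (z k) y) (z k) ρ hρ hρ1 ha.sm (hqs.sub (hPs _)) ha.bd
        fun j y hy => ph_rem hΦ hh N (z k) hρ hρ1 hL hLρ j hy
  · intro x
    rw [Finset.sum_image fun k _ k' _ h => hzinj h]
    have h0 : uu a q x = ∑ k ∈ Lam d (r + ρ) R, uk a q R k x := by
      have hRr : ((d : ℝ) + 1) / (r + ρ - r) ≤ R := by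
        rw [add_sub_cancel_left]
      unfold uk uu
      rw [← integral_finsetSum]
      · refine integral_congr_ae (Filter.Eventually.of_forall fun y => ?_)
        show a y * _ = ∑ k ∈ Lam d (r + ρ) R, (ch (R • y - lp k) : ℂ) * a y * _
        rw [← Finset.sum_mul, ← Finset.sum_mul]
        by_cases hy : ‖y‖ ≤ r
        · rw [← Complex.ofReal_sum, p1b_ch_sum r (r + ρ) R (by linarith) hRr y hy,
            Complex.ofReal_one, one_mul]
        · rw [ha.supp y (not_le.1 hy)]
          ring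
      · intro k _
        have hac : Continuous a := ha.sm.continuous
        have hqc : Continuous q := hqs.continuous
        have hc : Continuous fun y : E d => (ch (R • y - lp k) : ℂ) * a y *
            Complex.exp (((q y - ⟪x, y⟫ : ℝ) : ℂ) * Complex.I) := by
          have h1 : Continuous fun y : E d => ch (R • y - lp k) :=
            p1b_ch_cont.comp ((continuous_const_smul R).sub continuous_const)
          fun_prop
        refine hc.integrable_of_hasCompactSupport ?_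
        refine HasCompactSupport.intro (isCompact_closedBall (0 : E d) r) fun y hy => ?_
        have h3 : r < ‖y‖ := by simpa using hy
        rw [ha.supp y h3]
        ring
    rw [h0]
    refine Finset.sum_congr rfl fun k _ => ?_
    unfold uk uu
    refine integral_congr_ae (Filter.Eventually.of_forall fun y => ?_)
    show (ch (R • y - lp k) : ℂ) * a y * _ = b (z k) y * _
    have h1 : ((d : ℝ) + 1) • (ρ⁻¹ • (y - z k)) = R • y - lp k := by
      rw [hz]
      dsimp only
      rw [smul_smul, smul_sub, smul_smul, hR, ← div_eq_mul_inv]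
      congr 1
      rw [mul_inv_cancel₀ (by positivity), one_smul]
    have h2 : chd d (ρ⁻¹ • (y - z k)) = ((ch (R • y - lp k) : ℝ) : ℂ) := by
      unfold chd
      rw [h1]
    rw [hb]
    dsimp only
    rw [h2, mul_assoc, mul_assoc, mul_assoc]
    congr 2
    unfold ee
    rw [← Complex.exp_add]
    congr 1
    push_cast
    ring

/-- A smooth cut-off function on `E d`. -/
noncomputable def tpcut (d : ℕ) : ContDiffBump (0 : E d) := ⟨1 / 2, 3 / 4, by norm_num, by norm_num⟩

theorem tpcut_zero {d : ℕ} {v : E d} (h : 1 ≤ ‖v‖) (j : ℕ) :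
    iteratedFDeriv ℝ j (tpcut d : E d → ℝ) v = 0 := by
  by_contra hcon
  have h1 := support_iteratedFDeriv_subset (𝕜 := ℝ) j (f := (tpcut d : E d → ℝ)) hcon
  rw [(tpcut d).tsupport_eq, mem_closedBall_zero_iff] at h1
  have h2 : (tpcut d).rOut = 3 / 4 := rfl
  rw [h2] at h1
  linarith

theorem tpcut_bd (d j : ℕ) : ∃ C : ℝ, 0 ≤ C ∧ ∀ v, ‖iteratedFDeriv ℝ j (tpcut d : E d → ℝ) v‖ ≤ C := by
  have h1 : Continuous (iteratedFDeriv ℝ j (tpcut d : E d → ℝ)) :=
    (tpcut d).contDiff.continuous_iteratedFDeriv (n := j) le_rfl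
  obtain ⟨C, hC⟩ := (isCompact_closedBall (0 : E d) 1).exists_bound_of_continuousOn h1.continuousOn
  refine ⟨max C 0, le_max_right _ _, fun v => ?_⟩
  by_cases hv : ‖v‖ ≤ 1
  · exact (hC v (by simpa using hv)).trans (le_max_left _ _)
  · rw [tpcut_zero (not_le.1 hv).le, norm_zero]
    exact le_max_right _ _

/-- The Taylor polynomials agree near the centre with functions whose derivatives are bounded. -/
theorem tp_ext (d N : ℕ) (A : ℕ → ℝ) : ∃ A' : ℕ → ℝ, ∀ (Φ : E d → ℝ) (z : E d), Sm d A Φ →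
    ∃ Φ' : E d → ℝ, Sm d A' Φ' ∧ ∀ y, ‖y - z‖ ≤ 1 / 2 → Φ' y = TPT Φ z N y := by
  choose Cc hCc0 hCc using tpcut_bd d
  refine ⟨fun n => ∑ i ∈ Finset.range (n + 1), (n.choose i : ℝ) * Cc i *
    (2 * |A (n - i)| + |A (N + 1)|), fun Φ z hΦ => ?_⟩
  set f : E d → ℝ := fun y => (tpcut d : E d → ℝ) (y - z) with hf
  have hfc : ContDiff ℝ ∞ f := (tpcut d).contDiff.comp (contDiff_id.sub contDiff_const)
  have hfd : ∀ j y, iteratedFDeriv ℝ j f y = iteratedFDeriv ℝ j (tpcut d : E d → ℝ) (y - z) := by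
    intro j y
    rw [hf, iteratedFDeriv_comp_sub]
  refine ⟨fun y => f y * TPT Φ z N y, ⟨hfc.mul (TPT_smooth Φ z N), fun n y => ?_⟩, fun y hy => ?_⟩
  · refine (norm_iteratedFDeriv_mul_le hfc (TPT_smooth Φ z N) y
      (n := n) (by exact_mod_cast le_top)).trans ?_
    refine Finset.sum_le_sum fun i _ => ?_
    rw [hfd]
    by_cases hy : ‖y - z‖ ≤ 1
    · have h1 := TPT_bd hΦ N z (n - i) hy
      have h2 : ‖iteratedFDeriv ℝ (n - i) (TPT Φ z N) y‖ ≤ 2 * |A (n - i)| + |A (N + 1)| := by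
        have h3 := le_abs_self (A (n - i))
        have h4 := le_abs_self (A (N + 1))
        linarith
      have h5 := hCc i (y - z)
      have h6 := hCc0 i
      gcongr
    · rw [tpcut_zero (not_le.1 hy).le, norm_zero, mul_zero, zero_mul]
      have h6 := hCc0 i
      positivity
  · have h1 : f y = 1 := by
      rw [hf]
      refine (tpcut d).one_of_mem_closedBall ?_
      rw [mem_closedBall_zero_iff]
      exact hy
    simp only
    rw [h1, one_mul]

end Pool.Agent.GNP
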