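import Pool.Agent.MP_6cbfb8_an.Defs

/-!
GP A4: integrals of weights `(1 + |x - g(z)| / R)^(-N)` when the set of `z` with `g(z)` in a ball of
radius `R` has measure at most `M`, and interpolation between `L^2` and `L^∞`.
-/

namespace Pool.Agent.GNP

open MeasureTheory Set Pool.Agent.MP_6cbfb8_an
open scoped ENNReal Real

/-- the constant of `int_weight` -/
noncomputable def iwC (E : Type*) [NormedAddCommGroup E] [MeasureSpace E] (N : ℝ) : ℝ≥0∞ :=
  ENNReal.ofReal (2 ^ N) * (∫⁻ z : E, ENNReal.ofReal ((1 + ‖z‖) ^ (-N))) /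
    volume (Metric.closedBall (0 : E) 1)

theorem iwC_ne_top {E : Type*} [NormedAddCommGroup E] [InnerProductSpace ℝ E]
    [FiniteDimensional ℝ E] [MeasurableSpace E] [BorelSpace E] {N : ℝ}
    (hN : (Module.finrank ℝ E : ℝ) < N) : iwC E N ≠ ∞ := by
  unfold iwC
  refine ENNReal.div_ne_top ?_ ?_
  · exact ENNReal.mul_ne_top ENNReal.ofReal_ne_top
      (finite_integral_one_add_norm (μ := (volume : Measure E)) hN).ne
  · exact (Metric.measure_closedBall_pos volume (0 : E) one_pos).ne'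

/-- unit scale -/
theorem int_weight_one {E : Type*} [NormedAddCommGroup E] [InnerProductSpace ℝ E]
    [FiniteDimensional ℝ E] [MeasurableSpace E] [BorelSpace E] {N : ℝ} (hN0 : 0 ≤ N)
    {α : Type*} [MeasurableSpace α] (μ : Measure α) [SFinite μ] {g : α → E} (hg : Measurable g)
    (M : ℝ≥0∞) (hM : ∀ x, μ {z | ‖x - g z‖ ≤ 1} ≤ M) (x : E) :
    ∫⁻ z, ENNReal.ofReal ((1 + ‖x - g z‖) ^ (-N)) ∂μ ≤ iwC E N * M := by
  set v := volume (Metric.closedBall (0 : E) 1) with hv
  have hv0 : v ≠ 0 := (Metric.measure_closedBall_pos volume (0 : E) one_pos).ne'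
  have hvt : v ≠ ∞ := (isCompact_closedBall (0 : E) 1).measure_ne_top
  have hvi : ∀ y : E, volume (Metric.closedBall y 1) = v := fun y => by
    rw [hv, Measure.addHaar_closedBall_center]
  set w : E → ℝ≥0∞ := fun y => ENNReal.ofReal (2 ^ N * (1 + ‖x - y‖) ^ (-N)) with hw
  have hwm : Measurable w := by
    have h1 : Measurable fun y : E => 1 + ‖x - y‖ := by fun_prop
    exact ENNReal.measurable_ofReal.comp (measurable_const.mul (h1.pow_const _))
  have hSm : MeasurableSet {q : α × E | ‖q.2 - g q.1‖ ≤ 1} := by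
    refine measurableSet_le ?_ measurable_const
    exact (measurable_snd.sub (hg.comp measurable_fst)).norm
  set S : Set (α × E) := {q : α × E | ‖q.2 - g q.1‖ ≤ 1} with hS
  have hind : Measurable fun q : α × E => S.indicator (fun q => w q.2) q :=
    (hwm.comp measurable_snd).indicator hSm
  have key : (∫⁻ z, ENNReal.ofReal ((1 + ‖x - g z‖) ^ (-N)) ∂μ) * v ≤ M * ∫⁻ y, w y := by
    rw [← lintegral_mul_const' _ _ hvt]
    calc ∫⁻ z, ENNReal.ofReal ((1 + ‖x - g z‖) ^ (-N)) * v ∂μ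
        ≤ ∫⁻ z, (∫⁻ y in Metric.closedBall (g z) 1, w y) ∂μ := by
          refine lintegral_mono fun z => ?_
          rw [← hvi (g z), ← setLIntegral_const]
          refine setLIntegral_mono' measurableSet_closedBall fun y hy => ?_
          refine ENNReal.ofReal_le_ofReal ?_
          have h1 : ‖x - y‖ ≤ ‖x - g z‖ + 1 := by
            have h2 : x - y = (x - g z) - (y - g z) := by abel
            rw [h2]
            refine (norm_sub_le _ _).trans ?_
            have h3 : ‖y - g z‖ ≤ 1 := by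
              rw [← dist_eq_norm]; exact hy
            linarith
          have h4 : 0 < 1 + ‖x - y‖ := by positivity
          have h5 : 0 < 1 + ‖x - g z‖ := by positivity
          have h6 : 1 + ‖x - y‖ ≤ 2 * (1 + ‖x - g z‖) := by
            have := norm_nonneg (x - g z)
            linarith
          rw [Real.rpow_neg h4.le, Real.rpow_neg h5.le]
          have h7 : (1 + ‖x - y‖) ^ N ≤ 2 ^ N * (1 + ‖x - g z‖) ^ N := by
            rw [← Real.mul_rpow (by norm_num) h5.le]
            exact Real.rpow_le_rpow h4.le h6 hN0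
          have h8 : 0 < (1 + ‖x - y‖) ^ N := Real.rpow_pos_of_pos h4 _
          have h9 : 0 < (1 + ‖x - g z‖) ^ N := Real.rpow_pos_of_pos h5 _
          rw [← div_eq_mul_inv, inv_eq_one_div, div_le_div_iff₀ h9 h8]
          linarith
      _ = ∫⁻ z, (∫⁻ y, S.indicator (fun q => w q.2) (z, y)) ∂μ := by
          refine lintegral_congr fun z => ?_
          rw [← lintegral_indicator measurableSet_closedBall]
          refine lintegral_congr fun y => ?_
          have h1 : y ∈ Metric.closedBall (g z) 1 ↔ (z, y) ∈ S := by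
            rw [Metric.mem_closedBall, dist_eq_norm]
            exact Iff.rfl
          by_cases h : (z, y) ∈ S
          · rw [indicator_of_mem h, indicator_of_mem (h1.2 h)]
          · rw [indicator_of_notMem h, indicator_of_notMem (fun h' => h (h1.1 h'))]
      _ = ∫⁻ y, (∫⁻ z, S.indicator (fun q => w q.2) (z, y) ∂μ) :=
          lintegral_lintegral_swap hind.aemeasurable
      _ ≤ ∫⁻ y, M * w y := by
          refine lintegral_mono fun y => ?_
          have h1 : ∀ z, S.indicator (fun q => w q.2) (z, y) =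
              {z | ‖y - g z‖ ≤ 1}.indicator (fun _ => w y) z := by
            intro z
            by_cases h : (z, y) ∈ S
            · rw [indicator_of_mem h, indicator_of_mem (show z ∈ {z | ‖y - g z‖ ≤ 1} from h)]
            · rw [indicator_of_notMem h,
                indicator_of_notMem (show z ∉ {z | ‖y - g z‖ ≤ 1} from h)]
          simp_rw [h1]
          rw [lintegral_indicator_const]
          · rw [mul_comm]
            gcongr
            exact hM y
          · exact measurableSet_le (measurable_const.sub hg).norm measurable_const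
      _ = M * ∫⁻ y, w y := lintegral_const_mul _ hwm
  have hI : ∫⁻ y, w y = ENNReal.ofReal (2 ^ N) * ∫⁻ z : E, ENNReal.ofReal ((1 + ‖z‖) ^ (-N)) := by
    have h1 : ∀ y, w y = ENNReal.ofReal (2 ^ N) * ENNReal.ofReal ((1 + ‖x - y‖) ^ (-N)) := by
      intro y
      rw [hw]
      exact ENNReal.ofReal_mul (by positivity)
    simp_rw [h1]
    rw [lintegral_const_mul' _ _ ENNReal.ofReal_ne_top]
    congr 1
    exact lintegral_sub_left_eq_self (μ := (volume : Measure E))
      (fun z : E => ENNReal.ofReal ((1 + ‖z‖) ^ (-N))) x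
  rw [hI] at key
  have h2 : (∫⁻ z, ENNReal.ofReal ((1 + ‖x - g z‖) ^ (-N)) ∂μ) =
      v⁻¹ * ((∫⁻ z, ENNReal.ofReal ((1 + ‖x - g z‖) ^ (-N)) ∂μ) * v) := by
    rw [mul_comm _ v, ← mul_assoc, ENNReal.inv_mul_cancel hv0 hvt, one_mul]
  rw [h2]
  calc v⁻¹ * ((∫⁻ z, ENNReal.ofReal ((1 + ‖x - g z‖) ^ (-N)) ∂μ) * v)
      ≤ v⁻¹ * (M * (ENNReal.ofReal (2 ^ N) * ∫⁻ z : E, ENNReal.ofReal ((1 + ‖z‖) ^ (-N)))) := by
        gcongr
    _ = iwC E N * M := by
        unfold iwC
        rw [← hv, div_eq_mul_inv]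
        ring

/-- **Integrals of weights.** If for every `x` the set of `z` with `|x - g(z)| ≤ R` has measure at
most `M`, then `∫ (1 + |x - g(z)| / R)^(-N) dμ(z) ≤ C M`, `N > dim`. -/
theorem int_weight {E : Type*} [NormedAddCommGroup E] [InnerProductSpace ℝ E]
    [FiniteDimensional ℝ E] [MeasurableSpace E] [BorelSpace E] {N : ℝ} (hN0 : 0 ≤ N)
    {α : Type*} [MeasurableSpace α] (μ : Measure α) [SFinite μ] {g : α → E} (hg : Measurable g)
    {R : ℝ} (hR : 0 < R) (M : ℝ≥0∞) (hM : ∀ x, μ {z | ‖x - g z‖ ≤ R} ≤ M) (x : E) :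
    ∫⁻ z, ENNReal.ofReal ((1 + ‖x - g z‖ / R) ^ (-N)) ∂μ ≤ iwC E N * M := by
  have h := int_weight_one (E := E) hN0 μ (g := fun z => R⁻¹ • g z) (hg.const_smul _) M ?_
    (R⁻¹ • x)
  · refine le_trans (le_of_eq ?_) h
    refine lintegral_congr fun z => ?_
    rw [← smul_sub, norm_smul, norm_inv, Real.norm_eq_abs, abs_of_pos hR, div_eq_inv_mul]
  · intro y
    refine le_trans (measure_mono ?_) (hM (R • y))
    intro z hz
    change ‖y - R⁻¹ • g z‖ ≤ 1 at hz
    change ‖R • y - g z‖ ≤ R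
    have h3 : R • y - g z = R • (y - R⁻¹ • g z) := by
      rw [smul_sub, smul_smul, mul_inv_cancel₀ hR.ne', one_smul]
    rw [h3, norm_smul, Real.norm_eq_abs, abs_of_pos hR]
    calc R * ‖y - R⁻¹ • g z‖ ≤ R * 1 := by gcongr
      _ = R := mul_one R

/-- the real form, weight with a natural power -/
theorem int_pts (d : ℕ) : ∃ C : ℝ, 0 < C ∧ ∀ {α : Type} [MeasurableSpace α] (μ : Measure α)
    [SFinite μ] (g : α → E d) (_ : Measurable g) (R : ℝ) (M : ℝ≥0∞), 0 < R →
    (∀ x, μ {z | ‖x - g z‖ ≤ R} ≤ M) →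
    ∀ x, ∫⁻ z, ENNReal.ofReal (((1 + ‖x - g z‖ / R) ^ (d + 1))⁻¹) ∂μ ≤ ENNReal.ofReal C * M := by
  have hfin : (Module.finrank ℝ (E d) : ℝ) < ((d : ℝ) + 1) := by
    rw [finrank_euclideanSpace, Fintype.card_fin]
    linarith
  have hC := iwC_ne_top (E := E d) hfin
  refine ⟨(iwC (E d) ((d : ℝ) + 1)).toReal + 1, by positivity, ?_⟩
  intro α _ μ _ g hg R M hR hM x
  have h1 := int_weight (E := E d) (N := (d : ℝ) + 1) (by positivity) μ hg hR M hM x
  have h2 : ∀ z, ENNReal.ofReal (((1 + ‖x - g z‖ / R) ^ (d + 1))⁻¹) =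
      ENNReal.ofReal ((1 + ‖x - g z‖ / R) ^ (-((d : ℝ) + 1))) := by
    intro z
    rw [Real.rpow_neg (by positivity)]
    congr 2
    have : ((d : ℝ) + 1) = ((d + 1 : ℕ) : ℝ) := by push_cast; ring
    rw [this, Real.rpow_natCast]
  simp_rw [h2]
  refine h1.trans ?_
  gcongr
  rw [ENNReal.ofReal_add ENNReal.toReal_nonneg zero_le_one, ENNReal.ofReal_toReal hC]
  exact le_self_add

/-- **Interpolation.** -/
theorem interp {α : Type*} [MeasurableSpace α] (μ : Measure α) (f : α → ℂ) {p : ℝ} (hp : 2 ≤ p)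
    {S : ℝ≥0∞} (hSt : S ≠ ∞) (hS : ∀ x, ‖f x‖ₑ ≤ S) :
    ∫⁻ x, ‖f x‖ₑ ^ p ∂μ ≤ S ^ (p - 2) * ∫⁻ x, ‖f x‖ₑ ^ (2 : ℝ) ∂μ := by
  rw [← lintegral_const_mul' _ _ (ENNReal.rpow_ne_top_of_nonneg (by linarith) hSt)]
  refine lintegral_mono fun x => ?_
  have h1 : ‖f x‖ₑ ^ p = ‖f x‖ₑ ^ (p - 2) * ‖f x‖ₑ ^ (2 : ℝ) := by
    rw [← ENNReal.rpow_add_of_nonneg _ _ (by linarith) (by norm_num)]
    congr 1
    ring
  rw [h1]
  exact mul_le_mul_left (ENNReal.rpow_le_rpow (hS x) (by linarith)) _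

end Pool.Agent.GNP
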