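import Pool.Agent.GNP.A3
import Pool.Agent.GNP.A4a

/-!
Slices: the trivial `L^p` bound of one oscillatory integral and the trivial bound of finite sums.
-/

namespace Pool.Agent.GNP

open MeasureTheory Set Pool.Agent.MP_6cbfb8_an
open scoped ENNReal Real RealInnerProductSpace ContDiff

theorem sla_integrable {m : ℕ} {b : E m → ℂ} (hb : Continuous b) {v0 : E m} {ρ : ℝ}
    (hs : ∀ y, ρ < ‖y - v0‖ → b y = 0) {q : E m → ℝ} (hq : Continuous q) :
    Integrable fun y => b y * Complex.exp ((q y : ℂ) * Complex.I) := by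
  refine Continuous.integrable_of_hasCompactSupport (by fun_prop) ?_
  refine HasCompactSupport.intro (isCompact_closedBall v0 ρ) fun y hy => ?_
  rw [Metric.mem_closedBall, dist_eq_norm, not_le] at hy
  rw [hs y hy, zero_mul]

theorem sla_uu {m : ℕ} (b : E m → ℂ) (q : E m → ℝ) (x : E m) :
    uu b q x = ∫ y, (b y * Complex.exp ((q y : ℂ) * Complex.I)) *
      Complex.exp (((-⟪x, y⟫ : ℝ) : ℂ) * Complex.I) := by
  unfold uu
  refine integral_congr_ae (Filter.Eventually.of_forall fun y => ?_)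
  simp only
  rw [mul_assoc, ← Complex.exp_add]
  congr 2
  push_cast
  ring

theorem continuous_sla {m : ℕ} {b : E m → ℂ} (hb : Continuous b) {v0 : E m} {ρ : ℝ}
    (hs : ∀ y, ρ < ‖y - v0‖ → b y = 0) {q : E m → ℝ} (hq : Continuous q) :
    Continuous (uu b q) := by
  have h0 := sla_integrable hb hs hq
  have h1 : uu b q = fun x => ∫ y, (b y * Complex.exp ((q y : ℂ) * Complex.I)) *
      Complex.exp (((-⟪x, y⟫ : ℝ) : ℂ) * Complex.I) := funext fun x => sla_uu b q x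
  rw [h1]
  refine continuous_of_dominated (bound := fun y =>
    ‖b y * Complex.exp ((q y : ℂ) * Complex.I)‖) (fun x => ?_)
    (fun x => Filter.Eventually.of_forall fun y => ?_) h0.norm
    (Filter.Eventually.of_forall fun y => ?_)
  · exact h0.aestronglyMeasurable.mul (by fun_prop : Continuous fun y : E m =>
      Complex.exp (((-⟪x, y⟫ : ℝ) : ℂ) * Complex.I)).aestronglyMeasurable
  · rw [norm_mul, Complex.norm_exp_ofReal_mul_I, mul_one]
  · fun_prop

/-- The trivial `L^p` bound. -/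
theorem slab_Lp (m : ℕ) (p : ℝ) (hp : 2 ≤ p) : ∃ C : ℝ, 0 < C ∧ ∀ (b : E m → ℂ)
    (q : E m → ℝ) (v0 : E m) (ρ β : ℝ), Continuous b → Continuous q → ρ ≤ 1 →
    (∀ y, ρ < ‖y - v0‖ → b y = 0) → 0 ≤ β → (∀ y, ‖b y‖ ≤ β) →
    ∫⁻ x, ‖uu b q x‖ₑ ^ p ≤ ENNReal.ofReal (C * β ^ p) := by
  set V : ℝ := (volume (Metric.closedBall (0 : E m) 1)).toReal with hV
  have hV0 : 0 ≤ V := ENNReal.toReal_nonneg
  have hVt : volume (Metric.closedBall (0 : E m) 1) ≠ ⊤ := measure_closedBall_lt_top.ne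
  refine ⟨(V + 1) ^ (p - 2) * ((2 * π) ^ m * (V + 1)), by positivity, ?_⟩
  intro b q v0 ρ β hb hq hρ hs hβ hbb
  have hvol : volume (Metric.closedBall v0 1) = ENNReal.ofReal V := by
    rw [hV, ENNReal.ofReal_toReal hVt, Measure.addHaar_closedBall_center]
  have hs1 : ∀ y, y ∉ Metric.closedBall v0 1 → b y = 0 := by
    intro y hy
    rw [Metric.mem_closedBall, dist_eq_norm, not_le] at hy
    exact hs y (hρ.trans_lt hy)
  have hI := sla_integrable hb hs hq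
  have hn : ∀ y, ‖b y * Complex.exp ((q y : ℂ) * Complex.I)‖ₑ = ‖b y‖ₑ := by
    intro y
    rw [← ofReal_norm, norm_mul, Complex.norm_exp_ofReal_mul_I, mul_one, ofReal_norm]
  have hbe : ∀ y, ‖b y‖ₑ ≤ ENNReal.ofReal β := by
    intro y
    rw [← ofReal_norm]
    exact ENNReal.ofReal_le_ofReal (hbb y)
  have hsupp : ∀ (k : ℝ), 0 < k → ∫⁻ y, ‖b y‖ₑ ^ k ≤ ENNReal.ofReal β ^ k * ENNReal.ofReal V := by
    intro k hk
    rw [← hvol, ← setLIntegral_const, ← lintegral_indicator Metric.isClosed_closedBall.measurableSet]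
    refine lintegral_mono fun y => ?_
    by_cases hy : y ∈ Metric.closedBall v0 1
    · rw [indicator_of_mem hy]
      exact ENNReal.rpow_le_rpow (hbe y) hk.le
    · rw [indicator_of_notMem hy, hs1 y hy, enorm_zero, ENNReal.zero_rpow_of_pos hk]
  have hsup : ∀ x, ‖uu b q x‖ₑ ≤ ENNReal.ofReal β * ENNReal.ofReal V := by
    intro x
    have h1 := hsupp 1 one_pos
    simp only [ENNReal.rpow_one] at h1
    refine le_trans ?_ h1
    unfold uu
    refine (enorm_integral_le_lintegral_enorm _).trans (le_of_eq ?_)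
    refine lintegral_congr fun y => ?_
    rw [← ofReal_norm, norm_mul, Complex.norm_exp_ofReal_mul_I, mul_one,
      ofReal_norm]
  have hL2 : ∫⁻ x, ‖uu b q x‖ₑ ^ (2 : ℝ) ≤
      ENNReal.ofReal ((2 * π) ^ m) * (ENNReal.ofReal β ^ (2 : ℝ) * ENNReal.ofReal V) := by
    have h1 := planch m _ hI
    simp_rw [← sla_uu b q] at h1
    refine h1.trans ?_
    gcongr
    refine le_trans (le_of_eq ?_) (hsupp 2 two_pos)
    refine lintegral_congr fun y => ?_
    rw [hn]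
  have hSt : ENNReal.ofReal β * ENNReal.ofReal V ≠ ⊤ :=
    ENNReal.mul_ne_top ENNReal.ofReal_ne_top ENNReal.ofReal_ne_top
  refine (interp volume (uu b q) hp hSt hsup).trans ?_
  refine (mul_le_mul_right hL2 _).trans ?_
  rw [← ENNReal.ofReal_mul hβ, ENNReal.ofReal_rpow_of_nonneg (by positivity) (by linarith),
    ENNReal.ofReal_rpow_of_nonneg hβ (by norm_num), ← ENNReal.ofReal_mul (by positivity),
    ← ENNReal.ofReal_mul (by positivity), ← ENNReal.ofReal_mul (by positivity)]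
  refine ENNReal.ofReal_le_ofReal ?_
  rw [Real.mul_rpow hβ hV0]
  rcases hβ.eq_or_lt with rfl | hβ'
  · rw [Real.zero_rpow (by norm_num : (2 : ℝ) ≠ 0), Real.zero_rpow (by linarith : p ≠ 0)]
    simp
  have h2 : β ^ p = β ^ (p - 2) * β ^ (2 : ℝ) := by
    rw [← Real.rpow_add hβ']
    congr 1
    ring
  have h3 : V ^ (p - 2) ≤ (V + 1) ^ (p - 2) :=
    Real.rpow_le_rpow hV0 (by linarith) (by linarith)
  rw [h2]
  calc β ^ (p - 2) * V ^ (p - 2) * ((2 * π) ^ m * (β ^ (2 : ℝ) * V))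
      ≤ β ^ (p - 2) * (V + 1) ^ (p - 2) * ((2 * π) ^ m * (β ^ (2 : ℝ) * (V + 1))) := by
        gcongr
        linarith
    _ = _ := by ring

/-- The same, in the form used for the slices. -/
theorem uu_Lp (m : ℕ) (p : ℝ) (hp : 2 < p) : ∃ C : ℝ, 0 ≤ C ∧ ∀ (b : E m → ℂ) (q : E m → ℝ)
    (v0 : E m) (ρ β : ℝ), Continuous b → Continuous q → ρ ≤ 1 → 0 ≤ β → (∀ y, ‖b y‖ ≤ β) →
    (∀ y, ρ < ‖y - v0‖ → b y = 0) → ∫⁻ x, ‖uu b q x‖ₑ ^ p ≤ ENNReal.ofReal (C * β ^ p) := by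
  obtain ⟨C, hC, h⟩ := slab_Lp m p hp.le
  exact ⟨C, hC.le, fun b q v0 ρ β h1 h2 h3 h4 h5 h6 => h b q v0 ρ β h1 h2 h3 h6 h4 h5⟩

/-- The trivial bound of a finite sum. -/
theorem lint_sum_rpow {α ι : Type*} [MeasurableSpace α] (μ : Measure α) (s : Finset ι) {p : ℝ}
    (hp : 1 ≤ p) (f : ι → α → ℂ) (hf : ∀ i ∈ s, Measurable (f i)) :
    ∫⁻ x, ‖∑ i ∈ s, f i x‖ₑ ^ p ∂μ ≤ (s.card : ℝ≥0∞) ^ (p - 1) *
      ∑ i ∈ s, ∫⁻ x, ‖f i x‖ₑ ^ p ∂μ := by
  have h1 : ∀ x, ‖∑ i ∈ s, f i x‖ₑ ^ p ≤ (s.card : ℝ≥0∞) ^ (p - 1) * ∑ i ∈ s, ‖f i x‖ₑ ^ p := by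
    intro x
    refine (ENNReal.rpow_le_rpow (enorm_sum_le _ _) (by linarith)).trans ?_
    exact ENNReal.rpow_sum_le_const_mul_sum_rpow s (fun i => ‖f i x‖ₑ) hp
  refine (lintegral_mono h1).trans (le_of_eq ?_)
  rw [lintegral_const_mul' _ _ (ENNReal.rpow_ne_top_of_nonneg (by linarith)
    (ENNReal.natCast_ne_top _)), lintegral_finsetSum' s]
  intro i hi
  exact ((hf i hi).enorm.pow_const _).aemeasurable

end Pool.Agent.GNP
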