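import Pool.Agent.GNP.PIECE
import Pool.Agent.GNP.POLY5
import Pool.Agent.GNP.PLOW
import Pool.Agent.GNP.Far4
import Pool.Agent.GNP.SLu

/-!
Every smooth phase on the ball, all dimensions: from the pieces of size `1/K`, where `K` is a small
power of `1 + |c|`.
-/

namespace Pool.Agent.GNP

open MeasureTheory Set Pool.Agent.MP_6cbfb8_an Pool.Agent.GPH
open scoped ENNReal Real RealInnerProductSpace ContDiff Topology

theorem uu_congr_supp {d : ℕ} {a : E d → ℂ} {q q' : E d → ℝ} (h : ∀ y, a y ≠ 0 → q y = q' y)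
    (x : E d) : uu a q x = uu a q' x := by
  unfold uu
  congr 1
  funext y
  by_cases hy : a y = 0
  · rw [hy, zero_mul, zero_mul]
  · rw [h y hy]

/-- The Taylor polynomial of a strictly concave function is strictly concave near the centre. -/
theorem TPT_DfB {d : ℕ} {A : ℕ → ℝ} {h h' : E d → ℝ} (hh : Sm d A h) {b r' : ℝ}
    (hD : Df d b r' h) (N : ℕ) (hN : 2 ≤ N) (z : E d) {t : ℝ} (ht : 0 < t) (ht4 : 2 * t ≤ 1 / 4)
    (htA : A (N + 1) * (2 * t) ≤ b / 2) (hz : ‖z‖ + 2 * t ≤ r')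
    (he : ∀ y, ‖y - z‖ ≤ 1 / 2 → h' y = TPT h z N y) : DfB (b / 2) z (2 * t) h' := by
  intro y hy v
  have h1 : h' =ᶠ[𝓝 y] TPT h z N := by
    filter_upwards [Metric.ball_mem_nhds y (show (0 : ℝ) < 1 / 4 by norm_num)] with u hu
    rw [mem_ball_iff_norm] at hu
    refine he u ?_
    calc ‖u - z‖ = ‖(u - y) + (y - z)‖ := by congr 1; abel
      _ ≤ ‖u - y‖ + ‖y - z‖ := norm_add_le _ _
      _ ≤ 1 / 2 := by linarith
  rw [(piece_congr h1).2]
  have h2 := TPT_Hs hh N hN z (by positivity : 0 < 2 * t) (by linarith) hy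
  have h3 : ‖y‖ ≤ r' := by
    calc ‖y‖ = ‖z + (y - z)‖ := by congr 1; abel
      _ ≤ ‖z‖ + ‖y - z‖ := norm_add_le _ _
      _ ≤ r' := by linarith
  have h4 := hD y h3 v
  have h5 : |⟪(Hs h y - Hs (TPT h z N) y) v, v⟫| ≤ b / 2 * ‖v‖ ^ 2 := by
    refine (abs_real_inner_le_norm _ _).trans ?_
    have h6 := (Hs h y - Hs (TPT h z N) y).le_opNorm v
    have h7 : ‖Hs h y - Hs (TPT h z N) y‖ ≤ b / 2 := h2.trans htA
    calc ‖(Hs h y - Hs (TPT h z N) y) v‖ * ‖v‖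
        ≤ (‖Hs h y - Hs (TPT h z N) y‖ * ‖v‖) * ‖v‖ := by gcongr
      _ ≤ (b / 2 * ‖v‖) * ‖v‖ := by gcongr
      _ = _ := by ring
  rw [_root_.sub_apply, inner_sub_left, abs_le] at h5
  nlinarith [h5.1, h5.2]

theorem core_low (d : ℕ) (hd : 2 ≤ d) (p : ℝ) (hp : 2 * ((d : ℝ) + 1) / d < p)
    (hp' : ∀ m : ℕ, (m : ℝ) * (p - 2) ≠ 1) (hft : ∃ C1 : ℕ, FTst d p C1) (A : ℕ → ℝ)
    (r r' b ε : ℝ) (hr : 0 < r) (hr' : r < r') (hb : 0 < b) (hε : 0 < ε) :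
    ∃ K : ℝ, 0 < K ∧ ∀ (Φ h : E d → ℝ) (a : E d → ℂ), Sm d A Φ → Sm d A h →
      Amp d A r a → Df d b r' h → ∀ c : ℝ, ∫⁻ s : ℝ, ∫⁻ x, ‖uu a (ph Φ h c s) x‖ₑ ^ p ≤
        ENNReal.ofReal (K * (1 + |c|) ^ ε) := by
  classical
  obtain ⟨C, hC⟩ := piece d hd p hp hp' hft
  obtain ⟨Kf, C1, hKf, hC1, hfar⟩ := far_s d (by omega) A r r' b p hr hr' hb hp
  have hd0 : (0 : ℝ) < d := by
    have : 0 < d := by omega
    exact_mod_cast this
  have hp2 : 2 < p := by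
    refine lt_of_le_of_lt ?_ hp
    rw [le_div_iff₀ hd0]
    linarith
  set E0 : ℕ := (d + 1) * ⌈p⌉₊ + C with hE0
  set n0 : ℕ := ⌈(E0 : ℝ) / ε⌉₊ + ⌈r⌉₊ + 1 with hn0
  have hn1 : 1 ≤ n0 := by omega
  have hn0' : (0 : ℝ) < n0 := by exact_mod_cast hn1
  have hnε : (E0 : ℝ) / n0 ≤ ε := by
    rw [div_le_iff₀ hn0', mul_comm, ← div_le_iff₀ hε]
    refine (Nat.le_ceil _).trans ?_
    rw [hn0]
    push_cast
    have : (0 : ℝ) ≤ (⌈r⌉₊ : ℝ) := Nat.cast_nonneg _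
    linarith
  have hnr : r + 1 ≤ n0 := by
    rw [hn0]
    push_cast
    have h1 := Nat.le_ceil r
    have : (0 : ℝ) ≤ (⌈(E0 : ℝ) / ε⌉₊ : ℝ) := Nat.cast_nonneg _
    linarith
  set N : ℕ := n0 + 2 with hN
  obtain ⟨A', Kz, hKz, hred⟩ := poly_red5 d N A r hr
  obtain ⟨A'', hext⟩ := tp_ext d N A
  set t : ℝ := min (1 / 8) (min ((r' - r) / 8) (b / (4 * (|A (N + 1)| + 1)))) with ht
  have hrr : 0 < r' - r := by linarith
  have hA1 : 0 < |A (N + 1)| + 1 := by positivity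
  have ht0 : 0 < t := by
    rw [ht]
    refine lt_min (by norm_num) (lt_min (by positivity) (by positivity))
  have ht1 : t ≤ 1 / 8 := min_le_left _ _
  have ht2 : t ≤ (r' - r) / 8 := (min_le_right _ _).trans (min_le_left _ _)
  have ht3 : t ≤ b / (4 * (|A (N + 1)| + 1)) := (min_le_right _ _).trans (min_le_right _ _)
  have htA : A (N + 1) * (2 * t) ≤ b / 2 := by
    have h1 : t * (4 * (|A (N + 1)| + 1)) ≤ b := (le_div_iff₀ (by positivity)).1 ht3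
    have h2 : A (N + 1) * t ≤ |A (N + 1)| * t := mul_le_mul_of_nonneg_right (le_abs_self _) ht0.le
    nlinarith
  obtain ⟨K1, hK1, hpc⟩ := hC A'' (fun j => A' j * 2 ^ j) (b / 2) t N n0 (by positivity) ht0
  set K2 : ℝ := K1 + Kz * 2 ^ d + C1 + 1 / (r' - r) with hK2
  have hK2a : K1 ≤ K2 := by
    rw [hK2]
    have : 0 < Kz * 2 ^ d := by positivity
    have : 0 < 1 / (r' - r) := by positivity
    linarith
  have hK2b : Kz * 2 ^ d ≤ K2 := by
    rw [hK2]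
    have : 0 < 1 / (r' - r) := by positivity
    linarith
  have hK2c : C1 ≤ K2 := by
    rw [hK2]
    have : 0 < Kz * 2 ^ d := by positivity
    have : 0 < 1 / (r' - r) := by positivity
    linarith
  have hK2d : 1 / (r' - r) ≤ K2 := by
    rw [hK2]
    have : 0 < Kz * 2 ^ d := by positivity
    linarith
  have hK21 : 1 ≤ K2 := hK1.trans hK2a
  refine ⟨K2 ^ E0 + Kf, by positivity, fun Φ h a hΦ hh ha hDf c => ?_⟩
  set L : ℝ := 1 + |c| with hL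
  have hL1 : 1 ≤ L := by
    have := abs_nonneg c
    linarith
  have hL0 : 0 < L := by linarith
  set K : ℝ := K2 * L ^ (1 / (n0 : ℝ)) with hK
  have hLr : 1 ≤ L ^ (1 / (n0 : ℝ)) := Real.one_le_rpow hL1 (by positivity)
  have hKK : K2 ≤ K := by
    rw [hK]
    nlinarith
  have hK1' : 1 ≤ K := hK21.trans hKK
  have hK0 : 0 < K := by linarith
  have hKn : K ^ n0 = K2 ^ n0 * L := by
    rw [hK, mul_pow, ← Real.rpow_natCast (L ^ (1 / (n0 : ℝ))), ← Real.rpow_mul hL0.le,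
      one_div, inv_mul_cancel₀ hn0'.ne', Real.rpow_one]
  have hK2n : K2 ≤ K2 ^ n0 := le_self_pow₀ hK21 (by omega)
  have hLK : L ≤ K ^ n0 := by
    rw [hKn]
    nlinarith
  have hCK : C1 * L ≤ K ^ n0 := by
    rw [hKn]
    nlinarith
  set ρ : ℝ := K⁻¹ / 2 with hρ
  have hKi : 0 < K⁻¹ := by positivity
  have hKi1 : K⁻¹ ≤ 1 := inv_le_one_of_one_le₀ hK1'
  have hρ0 : 0 < ρ := by positivity
  have hρ2 : ρ ≤ 1 / 2 := by
    rw [hρ]
    linarith
  have hρr : ρ ≤ (r' - r) / 2 := by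
    rw [hρ]
    have h1 : 1 / (r' - r) ≤ K := hK2d.trans hKK
    have h2 : K⁻¹ ≤ r' - r := by
      rw [inv_le_comm₀ hK0 hrr, ← one_div]
      exact h1
    linarith
  obtain ⟨Z, hZc, hZn, hZ⟩ := hred ρ hρ0 (by linarith)
  have hcard : (Z.card : ℝ) ≤ K ^ (d + 1) := by
    refine hZc.trans ?_
    rw [hρ, div_pow, inv_pow, div_div_eq_mul_div, div_inv_eq_mul]
    calc Kz * 2 ^ d * K ^ d ≤ K * K ^ d := by
          have : Kz * 2 ^ d ≤ K := hK2b.trans hKK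
          gcongr
      _ = K ^ (d + 1) := by ring
  -- the majorants
  have hH : ∀ z ∈ Z, ∃ H : ℝ → ℝ≥0∞, Measurable H ∧
      (∫⁻ s in {s : ℝ | |s| ≤ K ^ n0}, H s) ≤ ENNReal.ofReal (K ^ C) ∧
      ∀ s, |s| ≤ K ^ n0 → ∀ a : E d → ℂ, AmpZ d A' ρ z a →
        ∫⁻ x, ‖uu a (ph (TPT Φ z N) (TPT h z N) c s) x‖ₑ ^ p ≤ H s := by
    intro z hz
    obtain ⟨Φ', hΦ', hΦe⟩ := hext Φ z hΦ
    obtain ⟨h', hh', hhe⟩ := hext h z hh
    obtain ⟨P, hP, hPe⟩ := TP_poly Φ z N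
    obtain ⟨P', hP', hPe'⟩ := TP_poly h z N
    have hzn := hZn z hz
    obtain ⟨H, hHm, hHi, hHb⟩ := hpc K (hK2a.trans hKK) Φ' h' P P' z c hΦ' hh' hP hP'
      (fun y hy => by
        have hy2 : ‖y - z‖ ≤ 1 / 2 := by linarith
        rw [hΦe y hy2, hhe y hy2, hPe, hPe']
        exact ⟨rfl, rfl⟩)
      (TPT_DfB hh hDf N (by omega) z ht0 (by linarith) htA (by linarith) hhe) (by linarith) hLK
    refine ⟨H, hHm, hHi, fun s hs a ha => ?_⟩
    have h1 := hHb s hs a ha.sm (fun y hy => ha.supp y hy.le) (fun j y => by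
      refine (ha.bd j y).trans (le_of_eq ?_)
      rw [hρ, div_pow, inv_pow, div_div_eq_mul_div, div_inv_eq_mul])
    refine le_trans (le_of_eq ?_) h1
    congr 1
    funext x
    rw [uu_congr_supp (q := ph (TPT Φ z N) (TPT h z N) c s) (q' := ph Φ' h' c s)]
    intro y hy
    have hy2 : ‖y - z‖ ≤ 1 / 2 := by
      by_contra hc
      push Not at hc
      exact hy (ha.supp y (by linarith))
    simp only [ph]
    rw [hΦe y hy2, hhe y hy2]
  choose! H hHm hHi hHb using hH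
  -- near
  set S : Set ℝ := {s : ℝ | |s| ≤ K ^ n0} with hS
  have hSm : MeasurableSet S := measurableSet_le measurable_norm measurable_const
  have hnear : ∫⁻ s in S, ∫⁻ x, ‖uu a (ph Φ h c s) x‖ₑ ^ p ≤
      ENNReal.ofReal (K ^ E0) := by
    have h1 : ∀ s ∈ S, ∫⁻ x, ‖uu a (ph Φ h c s) x‖ₑ ^ p ≤
        (Z.card : ℝ≥0∞) ^ (p - 1) * ∑ z ∈ Z, H z s := by
      intro s hs
      have hs' : |s| ≤ K ^ n0 := hs
      obtain ⟨β, hβ, hβe⟩ := hZ Φ h a c s (2 * K ^ n0) hΦ hh ha (by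
        rw [← hL]
        linarith) (by
        have h2 : ρ ^ (N + 1) ≤ (K⁻¹) ^ n0 * (1 / 2) := by
          rw [show N + 1 = n0 + 3 by omega, pow_add]
          have h3 : ρ ^ n0 ≤ (K⁻¹) ^ n0 := by
            refine pow_le_pow_left₀ hρ0.le ?_ _
            rw [hρ]
            linarith
          have h4 : ρ ^ 3 ≤ 1 / 2 := by
            calc ρ ^ 3 ≤ ρ ^ 1 := pow_le_pow_of_le_one hρ0.le (by linarith) (by norm_num)
              _ ≤ 1 / 2 := by rw [pow_one]; exact hρ2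
          exact mul_le_mul h3 h4 (by positivity) (by positivity)
        calc 2 * K ^ n0 * ρ ^ (N + 1) ≤ 2 * K ^ n0 * ((K⁻¹) ^ n0 * (1 / 2)) := by gcongr
          _ = 1 := by
            rw [inv_pow]
            field_simp)
      have h5 : ∀ x, uu a (ph Φ h c s) x =
          ∑ z ∈ Z, uu (β z) (ph (TPT Φ z N) (TPT h z N) c s) x := hβe
      simp only [h5]
      refine (lint_sum_rpow volume Z (by linarith)
        (fun z => uu (β z) (ph (TPT Φ z N) (TPT h z N) c s)) fun z hz => ?_).trans ?_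
      · refine (continuous_sla (hβ z hz).sm.continuous (v0 := z) (ρ := ρ)
          (fun y hy => (hβ z hz).supp y hy.le) ?_).measurable
        exact (contDiff_ph (TPT_smooth Φ z N) (TPT_smooth h z N) c s).continuous
      · gcongr with z hz
        exact hHb z hz s hs' (β z) (hβ z hz)
    have hM1 : (1 : ℝ) ≤ K ^ (d + 1) := one_le_pow₀ hK1'
    set M : ℝ≥0∞ := ENNReal.ofReal (K ^ (d + 1)) with hM
    have hM1' : 1 ≤ M := by
      rw [hM]
      exact ENNReal.one_le_ofReal.2 hM1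
    have hMt : M ≠ ⊤ := ENNReal.ofReal_ne_top
    have hM0 : M ≠ 0 := (zero_lt_one.trans_le hM1').ne'
    have hZM : (Z.card : ℝ≥0∞) ≤ M := by
      rw [hM, ← ENNReal.ofReal_natCast]
      exact ENNReal.ofReal_le_ofReal hcard
    calc ∫⁻ s in S, ∫⁻ x, ‖uu a (ph Φ h c s) x‖ₑ ^ p
        ≤ ∫⁻ s in S, (Z.card : ℝ≥0∞) ^ (p - 1) * ∑ z ∈ Z, H z s := setLIntegral_mono' hSm h1
      _ = (Z.card : ℝ≥0∞) ^ (p - 1) * ∑ z ∈ Z, ∫⁻ s in S, H z s := by
        rw [lintegral_const_mul' _ _ (ENNReal.rpow_ne_top_of_nonneg (by linarith)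
          (ENNReal.natCast_ne_top _)), lintegral_finsetSum' _ fun z hz => (hHm z hz).aemeasurable]
      _ ≤ M ^ (p - 1) * (M * ENNReal.ofReal (K ^ C)) := by
        refine mul_le_mul' (ENNReal.rpow_le_rpow hZM (by linarith)) ?_
        refine (Finset.sum_le_card_nsmul Z _ _ hHi).trans ?_
        rw [nsmul_eq_mul]
        gcongr
      _ = M ^ p * ENNReal.ofReal (K ^ C) := by
        rw [← mul_assoc]
        congr 1
        calc M ^ (p - 1) * M = M ^ (p - 1) * M ^ (1 : ℝ) := by rw [ENNReal.rpow_one]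
          _ = M ^ p := by
            rw [← ENNReal.rpow_add _ _ hM0 hMt]
            congr 1
            ring
      _ ≤ M ^ ((⌈p⌉₊ : ℕ) : ℝ) * ENNReal.ofReal (K ^ C) := by
        refine mul_le_mul' (ENNReal.rpow_le_rpow_of_exponent_le hM1' (Nat.le_ceil p)) le_rfl
      _ = ENNReal.ofReal (K ^ E0) := by
        rw [ENNReal.rpow_natCast, hM, ← ENNReal.ofReal_pow (by positivity),
          ← ENNReal.ofReal_mul (by positivity), hE0, ← pow_mul, ← pow_add]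
  -- far
  have hfar1 := hfar Φ h a hΦ hh ha hDf c
  have hcov : (Set.univ : Set ℝ) = S ∪ {s : ℝ | C1 * (1 + |c|) ≤ |s|} := by
    symm
    rw [Set.eq_univ_iff_forall]
    intro s
    by_cases hs : |s| ≤ K ^ n0
    · exact Or.inl hs
    · right
      push Not at hs
      exact hCK.trans hs.le
  calc ∫⁻ s : ℝ, ∫⁻ x, ‖uu a (ph Φ h c s) x‖ₑ ^ p
      = ∫⁻ s in (Set.univ : Set ℝ), ∫⁻ x, ‖uu a (ph Φ h c s) x‖ₑ ^ p := by
        rw [Measure.restrict_univ]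
    _ ≤ (∫⁻ s in S, ∫⁻ x, ‖uu a (ph Φ h c s) x‖ₑ ^ p) +
        ∫⁻ s in {s : ℝ | C1 * (1 + |c|) ≤ |s|}, ∫⁻ x, ‖uu a (ph Φ h c s) x‖ₑ ^ p := by
        rw [hcov]
        exact lintegral_union_le _ _ _
    _ ≤ ENNReal.ofReal (K ^ E0) + ENNReal.ofReal Kf := add_le_add hnear hfar1
    _ = ENNReal.ofReal (K ^ E0 + Kf) := (ENNReal.ofReal_add (by positivity) hKf.le).symm
    _ ≤ ENNReal.ofReal ((K2 ^ E0 + Kf) * L ^ ε) := by
        refine ENNReal.ofReal_le_ofReal ?_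
        have h1 : K ^ E0 ≤ K2 ^ E0 * L ^ ε := by
          rw [hK, mul_pow, ← Real.rpow_natCast (L ^ (1 / (n0 : ℝ))), ← Real.rpow_mul hL0.le]
          refine mul_le_mul_of_nonneg_left (Real.rpow_le_rpow_of_exponent_le hL1 ?_)
            (by positivity)
          rw [one_div, inv_mul_eq_div]
          exact hnε
        have h2 : 1 ≤ L ^ ε := Real.one_le_rpow hL1 hε.le
        nlinarith

theorem core5 (d : ℕ) (hd : 2 ≤ d) (hft : ∀ p : ℝ, 2 < p → ∃ C1 : ℕ, FTst d p C1) (A : ℕ → ℝ)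
    (r r' b p ε : ℝ) (hr : 0 < r) (hr' : r < r') (hb : 0 < b) (hp : 2 * ((d : ℝ) + 1) / d < p)
    (hε : 0 < ε) : ∃ K : ℝ, 0 < K ∧ ∀ (Φ h : E d → ℝ) (a : E d → ℂ), Sm d A Φ → Sm d A h →
      Amp d A r a → Df d b r' h → ∀ c : ℝ, ∫⁻ s : ℝ, ∫⁻ x, ‖uu a (ph Φ h c s) x‖ₑ ^ p ≤
        ENNReal.ofReal (K * (1 + |c|) ^ ε) := by
  obtain ⟨p1, hp1, hpp, hpm⟩ := choose_p d hd p hp
  have hd0 : (0 : ℝ) < d := by
    have : 0 < d := by omega
    exact_mod_cast this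
  have hp2 : 2 < p1 := by
    refine lt_of_le_of_lt ?_ hp1
    rw [le_div_iff₀ hd0]
    linarith
  obtain ⟨K, hK, hK'⟩ := core_low d hd p1 hp1 hpm (hft p1 hp2) A r r' b ε hr hr' hb hε
  obtain ⟨M, hM, hM'⟩ := lower_p d A r p p1 (by linarith) hpp.le
  refine ⟨M * K, by positivity, fun Φ h a hΦ hh ha hD c => ?_⟩
  calc ∫⁻ s : ℝ, ∫⁻ x, ‖uu a (ph Φ h c s) x‖ₑ ^ p
      ≤ ∫⁻ s : ℝ, ENNReal.ofReal M * ∫⁻ x, ‖uu a (ph Φ h c s) x‖ₑ ^ p1 :=
        lintegral_mono fun s => hM' a _ ha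
    _ = ENNReal.ofReal M * ∫⁻ s : ℝ, ∫⁻ x, ‖uu a (ph Φ h c s) x‖ₑ ^ p1 :=
        lintegral_const_mul' _ _ ENNReal.ofReal_ne_top
    _ ≤ ENNReal.ofReal M * ENNReal.ofReal (K * (1 + |c|) ^ ε) := by
        gcongr
        exact hK' Φ h a hΦ hh ha hD c
    _ = ENNReal.ofReal (M * K * (1 + |c|) ^ ε) := by
        rw [← ENNReal.ofReal_mul hM.le, mul_assoc]

end Pool.Agent.GNP
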