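import Pool.Agent.GNP.SP4
import Pool.Agent.GNP.CORE5

/-!
Every smooth phase on the unit sphere of `R^n`, `n ≥ 3`, full range, with a small loss.
-/

namespace Pool.Agent.GNP

open MeasureTheory Set Pool.Agent.MP_6cbfb8_an
open scoped ENNReal Real RealInnerProductSpace ContDiff

theorem coreG5 (d : ℕ) (hd : 2 ≤ d) (hft : ∀ p : ℝ, 2 < p → ∃ C1 : ℕ, FTst d p C1) (p ε : ℝ)
    (hp : 2 * ((d : ℝ) + 1) / d < p) (hε : 0 < ε) :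
    CoreG d p fun c => ENNReal.ofReal ((1 + |c|) ^ ε) := by
  intro A r r' b hr hr' hb
  obtain ⟨K, hK, h⟩ := core5 d hd hft A r r' b p ε hr hr' hb hp hε
  refine ⟨ENNReal.ofReal K, ENNReal.ofReal_ne_top, fun Φ h' a h1 h2 h3 h4 c => ?_⟩
  rw [← ENNReal.ofReal_mul hK.le]
  exact h Φ h' a h1 h2 h3 h4 c

theorem one_le_of_range {d : ℕ} (hd : 2 ≤ d) {p : ℝ} (hp : 2 * ((d : ℝ) + 1) / d < p) : 1 ≤ p := by
  have hd0 : (0 : ℝ) < d := by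
    have : 0 < d := by omega
    exact_mod_cast this
  have : (1 : ℝ) ≤ 2 * ((d : ℝ) + 1) / d := by
    rw [le_div_iff₀ hd0]
    linarith
  linarith

/-- Row SPN. -/
theorem sphere5 (d : ℕ) (hd : 2 ≤ d) (hft : ∀ p : ℝ, 2 < p → ∃ C1 : ℕ, FTst d p C1) (p ε : ℝ)
    (hp : 2 * ((d : ℝ) + 1) / d < p) (hε : 0 < ε) (B : ℕ → ℝ) : ∃ K : ℝ, 0 < K ∧
    ∀ (φ : E (d + 1) → ℝ) (a : E (d + 1) → ℂ),
      (∀ x, ‖x‖ = 1 → ContDiffAt ℝ ∞ φ x) → (∀ x, ‖x‖ = 1 → ContDiffAt ℝ ∞ a x) →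
      (∀ k x, ‖x‖ = 1 → ‖iteratedFDeriv ℝ k φ x‖ ≤ B k) →
      (∀ k x, ‖x‖ = 1 → ‖iteratedFDeriv ℝ k a x‖ ≤ B k) → ∀ c : ℝ,
      ∫⁻ ξ, ‖extn (fun x => a x * Complex.exp (((c * φ x : ℝ) : ℂ) * Complex.I)) ξ‖ₑ ^ p ≤
        ENNReal.ofReal (K * (1 + |c|) ^ ε) := by
  obtain ⟨C, hC, h⟩ := sphere_of_core_at d (by omega) p (one_le_of_range hd hp) _
    (coreG5 d hd hft p ε hp hε) B B
  refine ⟨C.toReal + 1, by positivity, fun φ a h1 h2 h3 h4 c => ?_⟩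
  refine (h φ ⟨h1, h3⟩ a ⟨h2, h4⟩ c).trans ?_
  have h5 : C ≤ ENNReal.ofReal (C.toReal + 1) := by
    rw [← ENNReal.ofReal_toReal hC]
    exact ENNReal.ofReal_le_ofReal (by simp [ENNReal.toReal_ofReal])
  rw [ENNReal.ofReal_mul (by positivity)]
  exact mul_le_mul' h5 le_rfl

/-- Families of phases, smooth at the points of the sphere, uniform constant. -/
theorem sphere5_fam (d : ℕ) (hd : 2 ≤ d) (hft : ∀ p : ℝ, 2 < p → ∃ C1 : ℕ, FTst d p C1) (p ε : ℝ)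
    (hp : 2 * ((d : ℝ) + 1) / d < p) (hε : 0 < ε) (N : ℕ) (B B1 : ℕ → ℝ) : ∃ C : ℝ≥0∞, C ≠ ⊤ ∧
      ∀ φ : Fin N → E (d + 1) → ℝ, (∀ j, Sb (d + 1) B (φ j)) →
      ∀ a : E (d + 1) → ℂ, Sb (d + 1) B1 a → ∀ c : Fin N → ℝ,
        ∫⁻ ξ, ‖extn (fun x => a x *
          Complex.exp (((∑ j, c j * φ j x : ℝ) : ℂ) * Complex.I)) ξ‖ₑ ^ p ≤
          C * ENNReal.ofReal ((1 + ‖c‖) ^ ε) := by
  obtain ⟨C, hC, h⟩ := sphere_family_at d (by omega) p (one_le_of_range hd hp) _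
    (coreG5 d hd hft p ε hp hε) N B B1
  refine ⟨C, hC, fun φ hφ a ha c => ?_⟩
  have h1 := h φ hφ a ha c
  rwa [abs_norm] at h1

end Pool.Agent.GNP
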