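import Pool.Agent.GNP.SP4

/-!
Phases with singularities: definitions.
-/

namespace Pool.Agent.GNP.TM

open MeasureTheory Set Pool.Agent.MP_6cbfb8_an
open scoped ENNReal Real RealInnerProductSpace ContDiff

/-- For `0 < r ≤ 1` the set `Sig` is covered by at most `V r^(-κ)` balls of radius `r`. -/
def Cov {n : ℕ} (V κ : ℝ) (Sig : Set (E n)) : Prop :=
  ∀ r : ℝ, 0 < r → r ≤ 1 → ∃ Z : Finset (E n), (Z.card : ℝ) ≤ V * r ^ (-κ) ∧
    Sig ⊆ ⋃ z ∈ Z, Metric.ball z r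

/-- Phases: at the points `x` of the unit sphere whose ball of radius `r ≤ 1` does not meet `Sig`,
smooth, the derivatives of order `j ≥ 1` are at most `lam * B j / r^(A+j)`. -/
def Phs {n : ℕ} (A : ℕ) (B : ℕ → ℝ) (lam : ℝ) (Sig : Set (E n)) (ψ : E n → ℝ) : Prop :=
  ∀ x, ‖x‖ = 1 → ∀ r : ℝ, 0 < r → r ≤ 1 → Disjoint (Metric.ball x r) Sig →
    ContDiffAt ℝ ∞ ψ x ∧ ∀ j, 1 ≤ j → ‖iteratedFDeriv ℝ j ψ x‖ ≤ lam * B j / r ^ (A + j)

/-- Amplitudes: the same, the derivatives of order `j` are at most `B j / r^j`. -/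
def Ams {n : ℕ} (B : ℕ → ℝ) (Sig : Set (E n)) (a : E n → ℂ) : Prop :=
  ∀ x, ‖x‖ = 1 → ∀ r : ℝ, 0 < r → r ≤ 1 → Disjoint (Metric.ball x r) Sig →
    ContDiffAt ℝ ∞ a x ∧ ∀ j, ‖iteratedFDeriv ℝ j a x‖ ≤ B j / r ^ j

/-- The radius of the caps of the layer `k`. -/
noncomputable def rk (k : ℕ) : ℝ := 1 / 8 * (1 / 2) ^ k

end Pool.Agent.GNP.TM
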