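import Pool.Agent.GNP.Defs2

/-!
Every phase, all dimensions: definitions (cells, multiplicity, one reduction, chains).
-/

namespace Pool.Agent.GNP

open MeasureTheory Set Pool.Agent.MP_6cbfb8_an
open scoped ENNReal Real RealInnerProductSpace ContDiff

/-- A cell of `R^m`: centre `z`, radius `ρ`; a phase whose derivatives of order `j ≥ 2` are at most
`A j * T * ρ^(2-j)` on the ball, and an amplitude at the scale `ρ` which vanishes outside the ball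
of radius `κ ρ`. -/
structure Cel (m : ℕ) (A B : ℕ → ℝ) (κ ρ T : ℝ) (z : E m) (q : E m → ℝ) (a : E m → ℂ) :
    Prop where
  smq : ContDiff ℝ ∞ q
  sma : ContDiff ℝ ∞ a
  supp : ∀ y, κ * ρ < ‖y - z‖ → a y = 0
  bda : ∀ j y, ‖iteratedFDeriv ℝ j a y‖ ≤ B j / ρ ^ j
  bdq : ∀ j, 2 ≤ j → ∀ y, ‖y - z‖ ≤ ρ → ‖iteratedFDeriv ℝ j q y‖ ≤ A j * (T * ρ ^ 2) / ρ ^ j

/-- Multiplicity at most `M`: for every subspace `F`, every `y0` and `ξ` there are at most `M`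
pairs `(i, y)` with `y` in the ball `i`, `y - y0 ∈ F`, `∇q_i(y) - ξ ⟂ F` and `D²q_i(y)`
nondegenerate on `F`. -/
def Mult {m : ℕ} {ι : Type} (M : ℕ) (ρ : ℝ) (z : ι → E m) (q : ι → E m → ℝ) : Prop :=
  ∀ (F : Submodule ℝ (E m)) (y0 ξ : E m),
    {x : ι × E m | ‖x.2 - z x.1‖ < ρ ∧ x.2 - y0 ∈ F ∧ (∀ f ∈ F, ⟪gr (q x.1) x.2 - ξ, f⟫ = 0) ∧
      ∀ f ∈ F, (∀ g ∈ F, ⟪Hs (q x.1) x.2 f, g⟫ = 0) → f = 0}.encard ≤ M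

/-- One reduction (partial Legendre transform) on the ball of radius `ρ` about `v`: `η u` is the
critical point in the direction `U (0,1)`, `ψ` the reduced phase. -/
structure Leg {m : ℕ} (A : ℕ → ℝ) (q : E (m + 1) → ℝ) (R ρ : ℝ)
    (U : E (m + 1) ≃ₗᵢ[ℝ] E (m + 1)) (t : ℝ) (v : E m) (η ψ : E m → ℝ) : Prop where
  smη : ContDiff ℝ ∞ η
  smψ : ContDiff ℝ ∞ ψ
  crit : ∀ u, ‖u - v‖ ≤ ρ → ⟪gr q (U (join u (η u))), U (join 0 1)⟫ = t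
  grad : ∀ u, ‖u - v‖ ≤ ρ → ∀ x : E m, ⟪gr ψ u, x⟫ = ⟪gr q (U (join u (η u))), U (join x 0)⟫
  piv : ∀ u, ‖u - v‖ ≤ ρ →
    R ≤ A 0 * |⟪Hs q (U (join u (η u))) (U (join 0 1)), U (join 0 1)⟫|
  hes : ∀ u, ‖u - v‖ ≤ ρ → ‖Hs q (U (join u (η u)))‖ ≤ A 0 * R
  bdη : ∀ j, 1 ≤ j → ∀ u, ‖u - v‖ ≤ ρ → ‖iteratedFDeriv ℝ j η u‖ ≤ A j * ρ / ρ ^ j
  bdψ : ∀ j, 2 ≤ j → ∀ u, ‖u - v‖ ≤ ρ → ‖iteratedFDeriv ℝ j ψ u‖ ≤ A j * (R * ρ ^ 2) / ρ ^ j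

/-- `r` is the level at `y` inside a cell of radius `ρ`: either `r` is comparable to `ρ`, or the
phase is not quadratic at the scale `K r`. -/
def Lv {m : ℕ} (K : ℝ) (J : ℕ) (ρ : ℝ) (q : E m → ℝ) (y : E m) (r : ℝ) : Prop :=
  0 < r ∧ K * r ≤ ρ ∧ (ρ ≤ K ^ 2 * r ∨ ∃ j, 3 ≤ j ∧ j ≤ J ∧
    max (‖Hs q y‖ * (K * r) ^ 2) 1 ≤ K * (‖iteratedFDeriv ℝ j q y‖ * (K * r) ^ j))

/-- `w` is bounded by the value of a chain of reductions of `q` at `y` (inside a cell of radius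
`ρ`). -/
def Wt (A : ℕ → ℕ → ℝ) (K : ℝ) (J : ℕ) : (m : ℕ) → ℝ → (E m → ℝ) → E m → ℝ → Prop
  | 0, _, _, _, w => w ≤ 1
  | m + 1, ρ, q, y, w => ∃ r : ℝ, Lv K J ρ q y r ∧
      ((‖Hs q y‖ * r ^ 2 ≤ K ^ 2 ∧ w ≤ 1 ∧ w * (r ^ (m + 1) * |(Hs q y).det|) ≤ 1) ∨
        ∃ (R r' t : ℝ) (U : E (m + 1) ≃ₗᵢ[ℝ] E (m + 1)) (v : E m) (η ψ : E m → ℝ),
          1 ≤ R * r ^ 2 ∧ 0 < r' ∧ r ≤ K * r' ∧ r' ≤ r ∧ y = U (join v (η v)) ∧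
            Leg (A m) q R r' U t v η ψ ∧ Wt A K J m r' ψ v (w * √R))

/-- The second alternative in `Wt`. -/
def WtE (A : ℕ → ℕ → ℝ) (K : ℝ) (J : ℕ) (m : ℕ) (r : ℝ) (q : E (m + 1) → ℝ) (y : E (m + 1))
    (w : ℝ) : Prop :=
  ∃ (R r' t : ℝ) (U : E (m + 1) ≃ₗᵢ[ℝ] E (m + 1)) (v : E m) (η ψ : E m → ℝ),
    1 ≤ R * r ^ 2 ∧ 0 < r' ∧ r ≤ K * r' ∧ r' ≤ r ∧ y = U (join v (η v)) ∧
      Leg (A m) q R r' U t v η ψ ∧ Wt A K J m r' ψ v (w * √R)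

theorem Wt_succ (A : ℕ → ℕ → ℝ) (K : ℝ) (J m : ℕ) (ρ : ℝ) (q : E (m + 1) → ℝ) (y : E (m + 1))
    (w : ℝ) : Wt A K J (m + 1) ρ q y w ↔ ∃ r : ℝ, Lv K J ρ q y r ∧
      ((‖Hs q y‖ * r ^ 2 ≤ K ^ 2 ∧ w ≤ 1 ∧ w * (r ^ (m + 1) * |(Hs q y).det|) ≤ 1) ∨
        WtE A K J m r q y w) := Iff.rfl

/-- The bound for a family of cells by the majorants `G` of the values of the chains. -/
def Bnd {m : ℕ} {ι : Type} [Fintype ι] (p K0 K : ℝ) (M C1 N : ℕ) (ρ : ℝ) (z : ι → E m)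
    (q : ι → E m → ℝ) (a : ι → E m → ℂ) (G : ι → E m → ℝ≥0∞) : Prop :=
  ∫⁻ x, ‖∑ i, uu (a i) (q i) x‖ₑ ^ p ≤
    ENNReal.ofReal (K0 * (K * M) ^ C1) * (∑ i, ∫⁻ y in Metric.ball (z i) ρ, G i y ^ (p - 2)) +
    ENNReal.ofReal ((K ^ N)⁻¹ * (Fintype.card ι : ℝ) ^ p)

/-- The fixed time theorem in dimension `m`. -/
def FTst (m : ℕ) (p : ℝ) (C1 : ℕ) : Prop :=
  ∀ A : ℕ → ℝ, ∃ A' : ℕ → ℕ → ℝ, ∀ n0 : ℕ, ∃ J0 : ℕ, ∀ J, J0 ≤ J → ∀ (B : ℕ → ℝ) (N : ℕ),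
    ∃ K0 : ℝ, 1 ≤ K0 ∧ ∀ K, K0 ≤ K →
    ∀ (ι : Type) [Fintype ι] (z : ι → E m) (q : ι → E m → ℝ) (a : ι → E m → ℂ) (ρ T : ℝ) (M : ℕ)
      (G : ι → E m → ℝ≥0∞),
      (K ^ n0)⁻¹ ≤ ρ → ρ ≤ 1 → 0 ≤ T → T ≤ K ^ n0 → (∀ i, ‖z i‖ ≤ n0) →
      (∀ i, Cel m A B (1 / 2) ρ T (z i) (q i) (a i)) → Mult M ρ z q → (∀ i, Measurable (G i)) →
      (∀ i y w, ‖y - z i‖ < ρ → 0 ≤ w → Wt A' K J m ρ (q i) y w → ENNReal.ofReal w ≤ G i y) →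
      Bnd p K0 K M C1 N ρ z q a G

/-- A reduction of `q` in `R^d` to a phase `Q` of `m` variables near `v`: `ι` is the inclusion of
the directions which are left, `Y` the parametrisation of the leaf. -/
structure Red (d m : ℕ) (Λ : ℕ → ℝ) (q : E d → ℝ) (R ρ : ℝ) (ι : E m →ₗᵢ[ℝ] E d)
    (Y : E m → E d) (Q : E m → ℝ) (v : E m) : Prop where
  smY : ContDiff ℝ ∞ Y
  smQ : ContDiff ℝ ∞ Q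
  sec : ∀ u, ‖u - v‖ ≤ ρ → ∀ x : E m, ⟪Y u, ι x⟫ = ⟪u, x⟫
  grad : ∀ u, ‖u - v‖ ≤ ρ → ∀ x : E m, ⟪gr Q u, x⟫ = ⟪gr q (Y u), ι x⟫
  leaf : ∀ u, ‖u - v‖ ≤ ρ → ∀ f : E d, (∀ x, ⟪f, ι x⟫ = 0) →
    ⟪gr q (Y u), f⟫ = ⟪gr q (Y v), f⟫
  nd : ∀ u, ‖u - v‖ ≤ ρ → ∀ f : E d, (∀ x, ⟪f, ι x⟫ = 0) →
    ∃ g : E d, (∀ x, ⟪g, ι x⟫ = 0) ∧ ‖g‖ ≤ 1 ∧ R * ‖f‖ ≤ Λ 0 * |⟪Hs q (Y u) f, g⟫|
  bdY : ∀ j, 1 ≤ j → ∀ u, ‖u - v‖ ≤ ρ → ‖iteratedFDeriv ℝ j Y u‖ ≤ Λ j * ρ / ρ ^ j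
  bdQ : ∀ j, 2 ≤ j → ∀ u, ‖u - v‖ ≤ ρ → ‖iteratedFDeriv ℝ j Q u‖ ≤ Λ j * (R * ρ ^ 2) / ρ ^ j

/-- The labelled gaps of the roots `s` do not grow by more than the factor `K` in the ball of
radius `σ` about `y`, up to the floor `w`. -/
def Stab {d : ℕ} (s : E d → Fin d → ℝ) (K w σ : ℝ) (y : E d) : Prop :=
  ∀ y', ‖y' - y‖ ≤ σ → ∀ a b, |s y' a - s y' b| + w ≤ K * (|s y a - s y b| + w)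

/-- What a chain with the value `w` at `(y, s)` gives: `μ` are the roots at `y`. -/
def Geo (d C : ℕ) (K : ℝ) (μ : Fin d → ℝ) (Un : ℝ → Prop) (s w : ℝ) : Prop :=
  w * ∏ i, √(1 + |s - μ i|) ≤ K ^ C ∨
  ∃ (I : Finset (Fin d)) (r : ℝ), 1 ≤ I.card ∧ 0 < r ∧ r ≤ 1 ∧
    (∀ i ∈ I, |s - μ i| * r ^ 2 ≤ K ^ C) ∧ w ≤ K ^ C * r ^ (d - I.card) ∧
    w * ∏ i ∈ I, (r * |s - μ i|) ≤ K ^ C * r ^ (d - I.card) ∧ (2 ≤ I.card → Un r)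

end Pool.Agent.GNP
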