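-- Pool/Agent/GNP/TR2.lean
import Pool.Agent.GNP.Defs5

/-!
Row T2: lattice bumps at the scales `ρ / K^l` and the pieces of the amplitude of a cell.
-/

namespace Pool.Agent.GNP

open MeasureTheory Set Pool.Agent.MP_6cbfb8_an
open scoped ENNReal Real RealInnerProductSpace ContDiff

namespace TR2

/-! ## The function `th` -/

theorem th_nonneg (x : ℝ) : 0 ≤ th x :=
  sub_nonneg.2 (Real.smoothTransition.monotone (by linarith))

theorem th_le_one (x : ℝ) : th x ≤ 1 := by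
  unfold th
  linarith [Real.smoothTransition.le_one (x + 1), Real.smoothTransition.nonneg x]

theorem th_zero {x : ℝ} (hx : 1 ≤ |x|) : th x = 0 := by
  unfold th
  rcases le_abs.1 hx with h | h
  · rw [Real.smoothTransition.one_of_one_le (by linarith),
      Real.smoothTransition.one_of_one_le h, sub_self]
  · rw [Real.smoothTransition.zero_of_nonpos (by linarith),
      Real.smoothTransition.zero_of_nonpos (by linarith), sub_self]

theorem th_smooth : ContDiff ℝ ∞ th := by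
  unfold th
  exact (Real.smoothTransition.contDiff.comp (contDiff_id.add contDiff_const)).sub
    Real.smoothTransition.contDiff

theorem th_tel (x : ℝ) (a : ℤ) (n : ℕ) : ∑ k ∈ Finset.Icc a (a + n), th (x - k) =
    Real.smoothTransition (x - a + 1) - Real.smoothTransition (x - (a + n)) := by
  induction n with
  | zero => simp [th]
  | succ n ih =>
    have h1 : Finset.Icc a (a + (n + 1 : ℕ)) = insert (a + n + 1) (Finset.Icc a (a + n)) := by
      ext k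
      simp only [Finset.mem_Icc, Finset.mem_insert]
      push_cast
      omega
    rw [h1, Finset.sum_insert (by simp), ih]
    unfold th
    push_cast
    have h2 : x - (a + n + 1) + 1 = x - (a + n) := by ring
    have h3 : x - (a + (n + 1)) = x - (a + n + 1) := by ring
    rw [h2, h3]
    ring

theorem th_sum {x : ℝ} {N : ℤ} (h : |x| ≤ N) : ∑ k ∈ Finset.Icc (-N) N, th (x - k) = 1 := by
  obtain ⟨h1, h2⟩ := abs_le.1 h
  have hN : 0 ≤ N := by
    have : (0 : ℝ) ≤ N := (abs_nonneg x).trans h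
    exact_mod_cast this
  have h3 : N = -N + ((2 * N).toNat : ℕ) := by omega
  have h4 := th_tel x (-N) (2 * N).toNat
  rw [← h3] at h4
  rw [h4]
  have h5 : ((-N : ℤ) : ℝ) + (((2 * N).toNat : ℕ) : ℝ) = N := by exact_mod_cast h3.symm
  rw [h5, Real.smoothTransition.one_of_one_le (by push_cast; linarith),
    Real.smoothTransition.zero_of_nonpos (by linarith), sub_zero]

/-! ## The function `ch` -/

variable {m : ℕ}

theorem ch_nonneg (z : E m) : 0 ≤ ch z := Finset.prod_nonneg fun _ _ => th_nonneg _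

theorem ch_le_one (z : E m) : ch z ≤ 1 :=
  Finset.prod_le_one (fun _ _ => th_nonneg _) fun _ _ => th_le_one _

theorem ch_ne {z : E m} (h : ch z ≠ 0) (i : Fin m) : |z i| < 1 := by
  by_contra h1
  exact h (Finset.prod_eq_zero (Finset.mem_univ i) (th_zero (not_lt.1 h1)))

theorem coord_norm {z : E m} {t : ℝ} (ht : 0 ≤ t) (h : ∀ i, |z i| ≤ t) : ‖z‖ ≤ t * (m + 1) := by
  rw [EuclideanSpace.norm_eq]
  refine Real.sqrt_le_iff.2 ⟨by positivity, ?_⟩
  calc ∑ i, ‖z i‖ ^ 2 ≤ ∑ _i : Fin m, t ^ 2 := by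
        refine Finset.sum_le_sum fun i _ => ?_
        rw [Real.norm_eq_abs]
        exact pow_le_pow_left₀ (abs_nonneg _) (h i) 2
    _ = m * t ^ 2 := by simp
    _ ≤ (t * (m + 1)) ^ 2 := by
        have : (0 : ℝ) ≤ m := Nat.cast_nonneg m
        nlinarith [sq_nonneg t, mul_nonneg this (sq_nonneg t),
          mul_nonneg (mul_nonneg this this) (sq_nonneg t)]

theorem ch_norm {z : E m} (h : ch z ≠ 0) : ‖z‖ ≤ m + 1 := by
  have := coord_norm (z := z) zero_le_one fun i => (ch_ne h i).le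
  rwa [one_mul] at this

theorem ch_smooth : ContDiff ℝ ∞ (ch : E m → ℝ) := by
  unfold ch
  refine contDiff_prod fun i _ => ?_
  exact th_smooth.comp (EuclideanSpace.proj (𝕜 := ℝ) i).contDiff

theorem ch_hcs : HasCompactSupport (ch : E m → ℝ) := by
  refine HasCompactSupport.intro (isCompact_closedBall (0 : E m) (m + 1)) fun z hz => ?_
  by_contra h
  exact hz (mem_closedBall_zero_iff.2 (ch_norm h))

theorem ch_der (m j : ℕ) : ∃ C : ℝ, 0 ≤ C ∧ ∀ z : E m, ‖iteratedFDeriv ℝ j ch z‖ ≤ C := by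
  obtain ⟨C, hC⟩ := (ch_hcs (m := m)).iteratedFDeriv (𝕜 := ℝ) j |>.exists_bound_of_continuous
    (ch_smooth.continuous_iteratedFDeriv (by exact_mod_cast le_top))
  exact ⟨C, (norm_nonneg _).trans (hC 0), hC⟩

/-! ## Counting lattice points -/

theorem lat_card {w : Fin m → ℝ} {t : ℝ} (ht : 0 ≤ t) (S : Finset (Fin m → ℤ))
    (h : ∀ k ∈ S, ∀ i, |w i - k i| ≤ t) : S.card ≤ (⌊2 * t⌋₊ + 1) ^ m := by
  have h1 : S ⊆ Fintype.piFinset fun i => Finset.Icc ⌈w i - t⌉ ⌊w i + t⌋ := by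
    intro k hk
    rw [Fintype.mem_piFinset]
    intro i
    obtain ⟨h2, h3⟩ := abs_le.1 (h k hk i)
    rw [Finset.mem_Icc]
    exact ⟨Int.ceil_le.2 (by linarith), Int.le_floor.2 (by linarith)⟩
  refine (Finset.card_le_card h1).trans ?_
  rw [Fintype.card_piFinset]
  calc ∏ i, (Finset.Icc ⌈w i - t⌉ ⌊w i + t⌋).card ≤ ∏ _i : Fin m, (⌊2 * t⌋₊ + 1) := by
        refine Finset.prod_le_prod' fun i _ => ?_
        rw [Int.card_Icc]
        have h2 : ⌊w i + t⌋ - ⌈w i - t⌉ ≤ ⌊2 * t⌋ := by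
          rw [Int.le_floor]
          push_cast
          have h3 := Int.floor_le (w i + t)
          have h4 := Int.le_ceil (w i - t)
          linarith
        have h3 : ((⌊2 * t⌋₊ : ℕ) : ℤ) = ⌊2 * t⌋ := Int.natCast_floor_eq_floor (by positivity)
        omega
    _ = _ := by simp

/-! ## The bumps -/

/-- The bump at the point `k` of the lattice of step `s` about `z`. -/
noncomputable def bq (s : ℝ) (z : E m) (k : Fin m → ℤ) (y : E m) : ℝ := ch (s⁻¹ • (y - z) - lp k)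

theorem lp_apply (k : Fin m → ℤ) (i : Fin m) : (lp k : E m) i = k i := rfl

theorem bq_nonneg (s : ℝ) (z : E m) (k : Fin m → ℤ) (y : E m) : 0 ≤ bq s z k y := ch_nonneg _

theorem bq_le_one (s : ℝ) (z : E m) (k : Fin m → ℤ) (y : E m) : bq s z k y ≤ 1 := ch_le_one _

theorem bq_smooth (s : ℝ) (z : E m) (k : Fin m → ℤ) : ContDiff ℝ ∞ (bq s z k) :=
  ch_smooth.comp (((contDiff_id.sub contDiff_const).const_smul _).sub contDiff_const)

theorem bq_ne {s : ℝ} (hs : 0 < s) {z : E m} {k : Fin m → ℤ} {y : E m} (h : bq s z k y ≠ 0) :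
    ‖y - (z + s • lp k)‖ ≤ s * (m + 1) := by
  have h1 : y - (z + s • lp k) = s • (s⁻¹ • (y - z) - lp k) := by
    rw [smul_sub, smul_smul, mul_inv_cancel₀ hs.ne', one_smul]
    abel
  rw [h1, norm_smul, Real.norm_of_nonneg hs.le]
  exact mul_le_mul_of_nonneg_left (ch_norm h) hs.le

theorem bq_eq (s : ℝ) (z : E m) (k : Fin m → ℤ) :
    bq s z k = fun y => (fun w => ch (w - (s⁻¹ • z + lp k))) (s⁻¹ • y) := by
  funext y
  unfold bq
  congr 1
  rw [smul_sub]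
  abel

theorem bq_iter {s : ℝ} (z : E m) (k : Fin m → ℤ) (j : ℕ) (y : E m) :
    iteratedFDeriv ℝ j (bq s z k) y =
      (s⁻¹) ^ j • iteratedFDeriv ℝ j ch (s⁻¹ • (y - z) - lp k) := by
  have h0 : ContDiff ℝ ∞ fun w : E m => ch (w - (s⁻¹ • z + lp k)) :=
    ch_smooth.comp (contDiff_id.sub contDiff_const)
  rw [bq_eq, iteratedFDeriv_comp_const_smul (i := j) s⁻¹
    (h0.of_le (by exact_mod_cast le_top))]
  simp only
  rw [iteratedFDeriv_comp_sub]
  congr 2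
  rw [smul_sub]
  abel

theorem bq_der (m j : ℕ) : ∃ C : ℝ, 0 ≤ C ∧ ∀ (s : ℝ) (z : E m) (k : Fin m → ℤ) (y : E m), 0 < s →
    ‖iteratedFDeriv ℝ j (bq s z k) y‖ ≤ C / s ^ j := by
  obtain ⟨C, hC, h⟩ := ch_der m j
  refine ⟨C, hC, fun s z k y hs => ?_⟩
  rw [bq_iter, norm_smul, norm_pow, norm_inv, Real.norm_of_nonneg hs.le, inv_pow, div_eq_inv_mul]
  exact mul_le_mul_of_nonneg_left (h _) (by positivity)

/-- The derivatives vanish at the points which are not near the lattice point. -/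
theorem bq_der_ne {s : ℝ} {z : E m} {k : Fin m → ℤ} {j : ℕ} {y : E m}
    (h : iteratedFDeriv ℝ j (bq s z k) y ≠ 0) (i : Fin m) :
    |(s⁻¹ • (y - z)) i - k i| ≤ 1 := by
  rw [bq_iter] at h
  have h1 : iteratedFDeriv ℝ j ch (s⁻¹ • (y - z) - lp k) ≠ 0 := fun h2 => h (by rw [h2, smul_zero])
  have h2 : (s⁻¹ • (y - z) - lp k : E m) ∈ tsupport (ch : E m → ℝ) :=
    support_iteratedFDeriv_subset (𝕜 := ℝ) j h1
  have h3 : tsupport (ch : E m → ℝ) ⊆ {w : E m | |w i| ≤ 1} := by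
    refine closure_minimal (fun w hw => (ch_ne hw i).le) ?_
    exact isClosed_le ((EuclideanSpace.proj (𝕜 := ℝ) i).continuous.abs) continuous_const
  exact h3 h2

/-- The box of the lattice. -/
noncomputable def bxN (m : ℕ) (N : ℤ) : Finset (Fin m → ℤ) :=
  Fintype.piFinset fun _ => Finset.Icc (-N) N

theorem bq_sum {s : ℝ} {z y : E m} {N : ℤ} (h : ∀ i, |(s⁻¹ • (y - z)) i| ≤ N) :
    ∑ k ∈ bxN m N, bq s z k y = 1 := by
  have h1 : ∀ k : Fin m → ℤ, bq s z k y = ∏ i, th ((s⁻¹ • (y - z)) i - (k i : ℝ)) := fun k => rfl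
  unfold bxN
  rw [Finset.sum_congr rfl fun k _ => h1 k, ← Finset.prod_univ_sum (fun _ => Finset.Icc (-N) N)
    (fun i n => th ((s⁻¹ • (y - z)) i - (n : ℝ)))]
  refine Finset.prod_eq_one fun i _ => ?_
  exact th_sum (h i)

/-- The sum of the bumps over a set of lattice points. -/
noncomputable def bS (s : ℝ) (z : E m) (S : Finset (Fin m → ℤ)) (y : E m) : ℝ :=
  ∑ k ∈ S, bq s z k y

theorem bS_smooth (s : ℝ) (z : E m) (S : Finset (Fin m → ℤ)) : ContDiff ℝ ∞ (bS s z S) :=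
  ContDiff.sum fun k _ => bq_smooth s z k

theorem bS_nonneg (s : ℝ) (z : E m) (S : Finset (Fin m → ℤ)) (y : E m) : 0 ≤ bS s z S y :=
  Finset.sum_nonneg fun k _ => bq_nonneg s z k y

theorem bS_der (m j : ℕ) : ∃ C : ℝ, 0 ≤ C ∧ (∀ (s : ℝ) (z : E m) (S : Finset (Fin m → ℤ)) (y : E m),
    0 < s → ‖iteratedFDeriv ℝ j (bS s z S) y‖ ≤ C / s ^ j) ∧
    ∀ (s : ℝ) (z : E m) (k : Fin m → ℤ) (y : E m), 0 < s →
      ‖iteratedFDeriv ℝ j (bq s z k) y‖ ≤ C / s ^ j := by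
  classical
  obtain ⟨C, hC, h⟩ := bq_der m j
  have h3 : (1 : ℝ) ≤ 3 ^ m := one_le_pow₀ (by norm_num)
  refine ⟨3 ^ m * C, by positivity, fun s z S y hs => ?_, fun s z k y hs => ?_⟩
  · have h1 : iteratedFDeriv ℝ j (bS s z S) y = ∑ k ∈ S, iteratedFDeriv ℝ j (bq s z k) y := by
      exact iteratedFDeriv_fun_sum_apply
        fun k _ => ((bq_smooth s z k).of_le (by exact_mod_cast le_top)).contDiffAt
    rw [h1]
    refine (norm_sum_le _ _).trans ?_
    have h2 : ∑ k ∈ S, ‖iteratedFDeriv ℝ j (bq s z k) y‖ =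
        ∑ k ∈ S.filter (fun k => iteratedFDeriv ℝ j (bq s z k) y ≠ 0),
          ‖iteratedFDeriv ℝ j (bq s z k) y‖ := by
      rw [Finset.sum_filter_of_ne]
      intro k _ hk
      exact fun h => hk (by rw [h, norm_zero])
    rw [h2]
    have h4 : ((S.filter (fun k => iteratedFDeriv ℝ j (bq s z k) y ≠ 0)).card : ℝ) ≤ 3 ^ m := by
      have h5 := lat_card (w := fun i => (s⁻¹ • (y - z)) i) (t := 1) zero_le_one
        (S.filter (fun k => iteratedFDeriv ℝ j (bq s z k) y ≠ 0)) fun k hk i =>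
        bq_der_ne (Finset.mem_filter.1 hk).2 i
      have h6 : ⌊(2 : ℝ) * 1⌋₊ + 1 = 3 := by
        rw [mul_one]
        have : ⌊(2 : ℝ)⌋₊ = 2 := Nat.floor_ofNat 2
        omega
      rw [h6] at h5
      exact_mod_cast h5
    calc ∑ k ∈ S.filter (fun k => iteratedFDeriv ℝ j (bq s z k) y ≠ 0),
          ‖iteratedFDeriv ℝ j (bq s z k) y‖
        ≤ ∑ _k ∈ S.filter (fun k => iteratedFDeriv ℝ j (bq s z k) y ≠ 0), C / s ^ j :=
          Finset.sum_le_sum fun k _ => h s z k y hs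
      _ = ((S.filter (fun k => iteratedFDeriv ℝ j (bq s z k) y ≠ 0)).card : ℝ) * (C / s ^ j) := by
          rw [Finset.sum_const, nsmul_eq_mul]
      _ ≤ 3 ^ m * (C / s ^ j) := mul_le_mul_of_nonneg_right h4 (by positivity)
      _ = _ := by ring
  · refine (h s z k y hs).trans ?_
    rw [div_le_div_iff_of_pos_right (by positivity)]
    nlinarith

/-! ## The pieces -/

/-- The radius of the generation `l`. -/
noncomputable def rl (K ρ : ℝ) (l : ℕ) : ℝ := ρ / K ^ l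

/-- The step of the lattice of the generation `l`. -/
noncomputable def sl (m : ℕ) (κ K ρ : ℝ) (l : ℕ) : ℝ := κ / (m + 1) * rl K ρ l

/-- The centres of the generation `l`. -/
noncomputable def zl (m : ℕ) (κ K ρ : ℝ) (z : E m) (l : ℕ) (k : Fin m → ℤ) : E m :=
  z + sl m κ K ρ l • lp k

/-- The box of the generation `l`. -/
noncomputable def bx (m : ℕ) (κ K : ℝ) (l : ℕ) : Finset (Fin m → ℤ) :=
  bxN m ⌈(m + 1) / κ * K ^ l⌉

theorem rl_pos {K ρ : ℝ} (hK : 1 ≤ K) (hρ : 0 < ρ) (l : ℕ) : 0 < rl K ρ l :=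
  div_pos hρ (pow_pos (zero_lt_one.trans_le hK) _)

theorem rl_le {K ρ : ℝ} (hK : 1 ≤ K) (hρ : 0 < ρ) (l : ℕ) : rl K ρ (l + 1) ≤ rl K ρ l :=
  div_le_div_of_nonneg_left hρ.le (pow_pos (zero_lt_one.trans_le hK) _)
    (pow_le_pow_right₀ hK (Nat.le_succ l))

theorem sl_pos {κ K ρ : ℝ} (hκ : 0 < κ) (hK : 1 ≤ K) (hρ : 0 < ρ) (l : ℕ) :
    0 < sl m κ K ρ l := mul_pos (by positivity) (rl_pos hK hρ l)

theorem bq_near {κ K ρ : ℝ} (hκ : 0 < κ) (hK : 1 ≤ K) (hρ : 0 < ρ) {z : E m} {l : ℕ}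
    {k : Fin m → ℤ} {y : E m} (h : bq (sl m κ K ρ l) z k y ≠ 0) :
    ‖y - zl m κ K ρ z l k‖ ≤ κ * rl K ρ l := by
  have h1 := bq_ne (sl_pos hκ hK hρ l) h
  have h2 : sl m κ K ρ l * (m + 1) = κ * rl K ρ l := by
    unfold sl
    have : (0 : ℝ) < m + 1 := by positivity
    field_simp
  rw [h2] at h1
  exact h1

theorem coord_le (z : E m) (i : Fin m) : |z i| ≤ ‖z‖ := by
  have := EuclideanSpace.norm_eq z
  rw [this, ← Real.sqrt_sq (abs_nonneg (z i))]
  refine Real.sqrt_le_sqrt ?_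
  have h1 : |z i| ^ 2 = ‖z i‖ ^ 2 := by rw [Real.norm_eq_abs]
  rw [h1]
  exact Finset.single_le_sum (f := fun i => ‖z i‖ ^ 2) (fun i _ => sq_nonneg _) (Finset.mem_univ i)

theorem bx_sum {κ K ρ : ℝ} (hκ : 0 < κ) (hK : 1 ≤ K) (hρ : 0 < ρ) {z y : E m} (l : ℕ)
    (hy : ‖y - z‖ ≤ ρ) : ∑ k ∈ bx m κ K l, bq (sl m κ K ρ l) z k y = 1 := by
  refine bq_sum fun i => ?_
  refine (coord_le _ i).trans ?_
  have hs := sl_pos (m := m) hκ hK hρ l
  have hKl : 0 < K ^ l := pow_pos (zero_lt_one.trans_le hK) _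
  rw [norm_smul, norm_inv, Real.norm_of_nonneg hs.le]
  calc (sl m κ K ρ l)⁻¹ * ‖y - z‖ ≤ (sl m κ K ρ l)⁻¹ * ρ :=
        mul_le_mul_of_nonneg_left hy (by positivity)
    _ = (m + 1) / κ * K ^ l := by
        unfold sl rl
        have : (0 : ℝ) < m + 1 := by positivity
        field_simp
    _ ≤ _ := Int.le_ceil _

theorem bx_card (m : ℕ) {κ K : ℝ} (hκ : 0 < κ) (hK : 1 ≤ K) (l : ℕ) :
    ((bx m κ K l).card : ℝ) ≤ ((2 * ((m + 1) / κ) + 3) * K ^ l) ^ m := by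
  have hKl : 1 ≤ K ^ l := one_le_pow₀ hK
  have h0 : (0 : ℝ) ≤ (m + 1) / κ * K ^ l := by positivity
  unfold bx bxN
  rw [Fintype.card_piFinset]
  push_cast
  calc ∏ _i : Fin m, ((Finset.Icc (-⌈(m + 1) / κ * K ^ l⌉) ⌈(m + 1) / κ * K ^ l⌉).card : ℝ)
      ≤ ∏ _i : Fin m, ((2 * ((m + 1) / κ) + 3) * K ^ l) := by
        refine Finset.prod_le_prod (fun _ _ => Nat.cast_nonneg _) fun _ _ => ?_
        rw [Int.card_Icc]
        have h1 : (0 : ℤ) ≤ ⌈(m + 1) / κ * K ^ l⌉ := Int.ceil_nonneg h0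
        have h2 : (((⌈(m + 1) / κ * K ^ l⌉ + 1 - -⌈(m + 1) / κ * K ^ l⌉).toNat : ℕ) : ℝ) =
            2 * (⌈(m + 1) / κ * K ^ l⌉ : ℝ) + 1 := by
          have h3 : (((⌈(m + 1) / κ * K ^ l⌉ + 1 - -⌈(m + 1) / κ * K ^ l⌉).toNat : ℕ) : ℤ) =
              2 * ⌈(m + 1) / κ * K ^ l⌉ + 1 := by omega
          exact_mod_cast h3
        rw [h2]
        have h4 := (Int.ceil_lt_add_one ((m + 1) / κ * K ^ l)).le
        nlinarith
    _ = _ := by simp

open scoped Classical in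
/-- The part of the amplitude which is left after `l` generations; `F l k` = the cell `(l, k)` is
divided. -/
noncomputable def phs (κ K ρ : ℝ) (z : E m) (a : E m → ℂ) (F : ℕ → (Fin m → ℤ) → Prop) :
    ℕ → E m → ℂ
  | 0 => a
  | l + 1 => fun y => bS (sl m κ K ρ (l + 1)) z ((bx m κ K (l + 1)).filter (F (l + 1))) y •
      phs κ K ρ z a F l y

/-- The piece `(l, k)`, `l ≥ 1`. -/
noncomputable def pie (κ K ρ : ℝ) (z : E m) (a : E m → ℂ) (F : ℕ → (Fin m → ℤ) → Prop) (l : ℕ)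
    (k : Fin m → ℤ) (y : E m) : ℂ :=
  bq (sl m κ K ρ l) z k y • phs κ K ρ z a F (l - 1) y

/-- The constants. -/
noncomputable def bcon (B C : ℕ → ℝ) : ℕ → ℕ → ℝ
  | 0, j => |B j|
  | l + 1, j => ∑ i ∈ Finset.range (j + 1), (j.choose i : ℝ) * C i * bcon B C l (j - i)

theorem bcon_nonneg {B C : ℕ → ℝ} (hC : ∀ j, 0 ≤ C j) (l j : ℕ) : 0 ≤ bcon B C l j := by
  induction l generalizing j with
  | zero => exact abs_nonneg _
  | succ l ih =>
    exact Finset.sum_nonneg fun i _ => mul_nonneg (mul_nonneg (Nat.cast_nonneg _) (hC i)) (ih _)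

theorem phs_smooth (κ K ρ : ℝ) (z : E m) {a : E m → ℂ} (ha : ContDiff ℝ ∞ a)
    (F : ℕ → (Fin m → ℤ) → Prop) (l : ℕ) : ContDiff ℝ ∞ (phs κ K ρ z a F l) := by
  induction l with
  | zero => exact ha
  | succ l ih => exact (bS_smooth _ _ _).smul ih

theorem pie_smooth (κ K ρ : ℝ) (z : E m) {a : E m → ℂ} (ha : ContDiff ℝ ∞ a)
    (F : ℕ → (Fin m → ℤ) → Prop) (l : ℕ) (k : Fin m → ℤ) :
    ContDiff ℝ ∞ (pie κ K ρ z a F l k) :=
  (bq_smooth _ _ _).smul (phs_smooth κ K ρ z ha F _)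

theorem smul_der {f : E m → ℝ} {g : E m → ℂ} (hf : ContDiff ℝ ∞ f) (hg : ContDiff ℝ ∞ g)
    {C B : ℕ → ℝ} {r r' : ℝ} (hr : 0 < r) (hr' : r ≤ r') (hC : ∀ j, 0 ≤ C j) (hB : ∀ j, 0 ≤ B j)
    (h1 : ∀ j y, ‖iteratedFDeriv ℝ j f y‖ ≤ C j / r ^ j)
    (h2 : ∀ j y, ‖iteratedFDeriv ℝ j g y‖ ≤ B j / r' ^ j) (j : ℕ) (y : E m) :
    ‖iteratedFDeriv ℝ j (fun y => f y • g y) y‖ ≤
      (∑ i ∈ Finset.range (j + 1), (j.choose i : ℝ) * C i * B (j - i)) / r ^ j := by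
  refine (norm_iteratedFDeriv_smul_le hf hg y (n := j) (by exact_mod_cast le_top)).trans ?_
  rw [Finset.sum_div]
  refine Finset.sum_le_sum fun i hi => ?_
  have hi' : i ≤ j := Nat.lt_succ_iff.1 (Finset.mem_range.1 hi)
  have h3 : ‖iteratedFDeriv ℝ (j - i) g y‖ ≤ B (j - i) / r ^ (j - i) :=
    (h2 _ _).trans (div_le_div_of_nonneg_left (hB _) (by positivity)
      (pow_le_pow_left₀ hr.le hr' _))
  have h4 : r ^ j = r ^ i * r ^ (j - i) := by rw [← pow_add, Nat.add_sub_cancel' hi']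
  calc (j.choose i : ℝ) * ‖iteratedFDeriv ℝ i f y‖ * ‖iteratedFDeriv ℝ (j - i) g y‖
      ≤ (j.choose i : ℝ) * (C i / r ^ i) * (B (j - i) / r ^ (j - i)) := by
        have h5 := h1 i y
        have h6 := hC i
        gcongr
    _ = _ := by
        rw [h4]
        field_simp

theorem phs_der {κ K ρ : ℝ} (hK : 1 ≤ K) (hρ : 0 < ρ) (z : E m)
    {a : E m → ℂ} (ha : ContDiff ℝ ∞ a) {B C : ℕ → ℝ} (hC : ∀ j, 0 ≤ C j)
    (hB : ∀ j y, ‖iteratedFDeriv ℝ j a y‖ ≤ B j / ρ ^ j)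
    (h1 : ∀ l (S : Finset (Fin m → ℤ)) j y,
      ‖iteratedFDeriv ℝ j (bS (sl m κ K ρ l) z S) y‖ ≤ C j / rl K ρ l ^ j)
    (F : ℕ → (Fin m → ℤ) → Prop) (l j : ℕ) (y : E m) :
    ‖iteratedFDeriv ℝ j (phs κ K ρ z a F l) y‖ ≤ bcon B C l j / rl K ρ l ^ j := by
  induction l generalizing j y with
  | zero =>
    have h2 : rl K ρ 0 = ρ := by simp [rl]
    rw [h2]
    exact (hB j y).trans ((div_le_div_iff_of_pos_right (by positivity)).2 (le_abs_self _))
  | succ l ih =>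
    exact smul_der (bS_smooth _ _ _) (phs_smooth κ K ρ z ha F l) (rl_pos hK hρ _)
      (rl_le hK hρ l) hC (bcon_nonneg hC l) (fun j y => h1 _ _ j y) ih j y

theorem phs_ne {κ K ρ : ℝ} (hκ : 0 < κ) (hK : 1 ≤ K) (hρ : 0 < ρ) {z : E m} {a : E m → ℂ}
    {F : ℕ → (Fin m → ℤ) → Prop} {l : ℕ} {y : E m} (h : phs κ K ρ z a F l y ≠ 0) :
    a y ≠ 0 ∧ ∀ l', 1 ≤ l' → l' ≤ l → ∃ k', F l' k' ∧
      ‖y - zl m κ K ρ z l' k'‖ ≤ κ * rl K ρ l' := by
  classical
  induction l with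
  | zero => exact ⟨h, fun l' h1 h2 => by omega⟩
  | succ l ih =>
    have h0 : bS (sl m κ K ρ (l + 1)) z ((bx m κ K (l + 1)).filter (F (l + 1))) y •
      phs κ K ρ z a F l y ≠ 0 := h
    have h1 : bS (sl m κ K ρ (l + 1)) z ((bx m κ K (l + 1)).filter (F (l + 1))) y ≠ 0 := fun h2 =>
      h0 (by rw [h2, zero_smul])
    have h2 : phs κ K ρ z a F l y ≠ 0 := fun h2 => h0 (by rw [h2, smul_zero])
    obtain ⟨h3, h4⟩ := ih h2
    refine ⟨h3, fun l' h5 h6 => ?_⟩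
    rcases Nat.lt_or_ge l l' with h7 | h7
    · have h8 : l' = l + 1 := by omega
      subst h8
      obtain ⟨k, hk, hk2⟩ := Finset.exists_ne_zero_of_sum_ne_zero h1
      exact ⟨k, (Finset.mem_filter.1 hk).2, bq_near hκ hK hρ hk2⟩
    · exact h4 l' h5 h7

theorem phs_norm (κ K ρ : ℝ) {z : E m} {a : E m → ℂ} (hκ : 0 < κ) (hK : 1 ≤ K) (hρ : 0 < ρ)
    (hs : ∀ y, ρ < ‖y - z‖ → a y = 0)
    (F : ℕ → (Fin m → ℤ) → Prop) (l : ℕ) (y : E m) : ‖phs κ K ρ z a F l y‖ ≤ ‖a y‖ := by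
  classical
  induction l with
  | zero => exact le_rfl
  | succ l ih =>
    by_cases hy : ‖y - z‖ ≤ ρ
    · show ‖bS (sl m κ K ρ (l + 1)) z ((bx m κ K (l + 1)).filter (F (l + 1))) y •
        phs κ K ρ z a F l y‖ ≤ ‖a y‖
      rw [norm_smul, Real.norm_of_nonneg (bS_nonneg _ _ _ _)]
      have h1 : bS (sl m κ K ρ (l + 1)) z ((bx m κ K (l + 1)).filter (F (l + 1))) y ≤ 1 := by
        rw [← bx_sum hκ hK hρ (l + 1) hy]
        exact Finset.sum_le_sum_of_subset_of_nonneg (Finset.filter_subset _ _)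
          fun k _ _ => bq_nonneg _ _ _ _
      calc _ ≤ 1 * ‖phs κ K ρ z a F l y‖ := mul_le_mul_of_nonneg_right h1 (norm_nonneg _)
        _ ≤ _ := by rw [one_mul]; exact ih
    · have h1 : phs κ K ρ z a F (l + 1) y = 0 := by
        by_contra h2
        exact (phs_ne hκ hK hρ h2).1 (hs y (not_le.1 hy))
      rw [h1, norm_zero]
      exact norm_nonneg _

open scoped Classical in
theorem phs_tel {κ K ρ : ℝ} (hκ : 0 < κ) (hK : 1 ≤ K) (hρ : 0 < ρ) {z : E m} {a : E m → ℂ}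
    (hs : ∀ y, ρ < ‖y - z‖ → a y = 0) (F : ℕ → (Fin m → ℤ) → Prop) (n : ℕ) (y : E m) :
    a y = phs κ K ρ z a F n y + ∑ l ∈ Finset.Icc 1 n,
      ∑ k ∈ (bx m κ K l).filter (fun k => ¬ F l k), pie κ K ρ z a F l k y := by
  induction n with
  | zero => simp [phs]
  | succ n ih =>
    have h1 : Finset.Icc 1 (n + 1) = insert (n + 1) (Finset.Icc 1 n) := by
      ext l
      simp only [Finset.mem_Icc, Finset.mem_insert]
      omega
    rw [h1, Finset.sum_insert (by simp)]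
    conv_lhs => rw [ih]
    rw [← add_assoc]
    congr 1
    -- one step
    have h2 : ∑ k ∈ (bx m κ K (n + 1)).filter (fun k => ¬ F (n + 1) k),
        pie κ K ρ z a F (n + 1) k y =
        bS (sl m κ K ρ (n + 1)) z ((bx m κ K (n + 1)).filter (fun k => ¬ F (n + 1) k)) y •
          phs κ K ρ z a F n y := by
      unfold bS
      rw [Finset.sum_smul]
      rfl
    rw [h2]
    show phs κ K ρ z a F n y = bS (sl m κ K ρ (n + 1)) z ((bx m κ K (n + 1)).filter (F (n + 1))) y •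
      phs κ K ρ z a F n y + _
    rw [← add_smul]
    by_cases hy : ‖y - z‖ ≤ ρ
    · have h3 : bS (sl m κ K ρ (n + 1)) z ((bx m κ K (n + 1)).filter (F (n + 1))) y +
          bS (sl m κ K ρ (n + 1)) z ((bx m κ K (n + 1)).filter (fun k => ¬ F (n + 1) k)) y = 1 := by
        rw [← bx_sum hκ hK hρ (n + 1) hy]
        exact Finset.sum_filter_add_sum_filter_not _ _ _
      rw [h3, one_smul]
    · have h3 : phs κ K ρ z a F n y = 0 := by
        by_contra h4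
        exact (phs_ne hκ hK hρ h4).1 (hs y (not_le.1 hy))
      rw [h3, smul_zero]

open scoped Classical in
/-- Row T2. The pieces of the amplitude: constants from `m, n, B, κ`. `F l k`: the cell `(l, k)` is
divided. -/
theorem tr_amp (m n : ℕ) (hn : 1 ≤ n) (B : ℕ → ℝ) (κ : ℝ) (hκ : 0 < κ) : ∃ B' : ℕ → ℝ,
    (∀ j, 0 ≤ B' j) ∧ ∀ (K ρ : ℝ) (z : E m) (a : E m → ℂ) (F : ℕ → (Fin m → ℤ) → Prop),
      1 ≤ K → 0 < ρ → ContDiff ℝ ∞ a → (∀ y, ρ < ‖y - z‖ → a y = 0) →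
      (∀ j y, ‖iteratedFDeriv ℝ j a y‖ ≤ B j / ρ ^ j) →
      (∀ k y, a y ≠ 0 → ‖y - zl m κ K ρ z n k‖ ≤ κ * rl K ρ n → ¬ F n k) →
      ∃ b : ℕ → (Fin m → ℤ) → E m → ℂ,
        (∀ l k, ContDiff ℝ ∞ (b l k)) ∧
        (∀ l k j y, 1 ≤ l → l ≤ n → ‖iteratedFDeriv ℝ j (b l k) y‖ ≤ B' j / rl K ρ l ^ j) ∧
        (∀ l k y, ‖b l k y‖ ≤ ‖a y‖) ∧
        (∀ l k y, 1 ≤ l → b l k y ≠ 0 → a y ≠ 0 ∧ ‖y - zl m κ K ρ z l k‖ ≤ κ * rl K ρ l ∧
          ∀ l', 1 ≤ l' → l' < l → ∃ k', F l' k' ∧ ‖y - zl m κ K ρ z l' k'‖ ≤ κ * rl K ρ l') ∧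
        ∀ y, a y = ∑ l ∈ Finset.Icc 1 n, ∑ k ∈ (bx m κ K l).filter (fun k => ¬ F l k), b l k y := by
  choose C hC0 hC1 hC2 using fun j => bS_der m j
  obtain ⟨C', hC'⟩ : ∃ C' : ℕ → ℝ, C' = fun j => C j * ((m + 1) / κ) ^ j := ⟨_, rfl⟩
  have hC'0 : ∀ j, 0 ≤ C' j := fun j => by
    rw [hC']
    exact mul_nonneg (hC0 j) (by positivity)
  refine ⟨fun j => ∑ l ∈ Finset.range (n + 1), bcon B C' l j,
    fun j => Finset.sum_nonneg fun l _ => bcon_nonneg hC'0 l j, ?_⟩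
  intro K ρ z a F hK hρ ha hs hB hlast
  have hscale : ∀ l j, C j / sl m κ K ρ l ^ j = C' j / rl K ρ l ^ j := by
    intro l j
    have h1 := rl_pos hK hρ l
    rw [hC']
    unfold sl
    simp only [mul_pow, div_pow]
    have : (0 : ℝ) < m + 1 := by positivity
    field_simp
  have h1 : ∀ l (S : Finset (Fin m → ℤ)) j y,
      ‖iteratedFDeriv ℝ j (bS (sl m κ K ρ l) z S) y‖ ≤ C' j / rl K ρ l ^ j := by
    intro l S j y
    rw [← hscale]
    exact hC1 j _ z S y (sl_pos hκ hK hρ l)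
  have h2 : ∀ l (k : Fin m → ℤ) j y,
      ‖iteratedFDeriv ℝ j (bq (sl m κ K ρ l) z k) y‖ ≤ C' j / rl K ρ l ^ j := by
    intro l k j y
    rw [← hscale]
    exact hC2 j _ z k y (sl_pos hκ hK hρ l)
  have h3 := fun l j y => phs_der hK hρ z ha hC'0 hB h1 F l j y
  refine ⟨pie κ K ρ z a F, fun l k => pie_smooth κ K ρ z ha F l k, ?_, ?_, ?_, ?_⟩
  · intro l k j y hl1 hln
    obtain ⟨l, rfl⟩ : ∃ l', l = l' + 1 := ⟨l - 1, by omega⟩
    have h4 : ‖iteratedFDeriv ℝ j (pie κ K ρ z a F (l + 1) k) y‖ ≤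
        bcon B C' (l + 1) j / rl K ρ (l + 1) ^ j :=
      smul_der (bq_smooth _ _ _) (phs_smooth κ K ρ z ha F l) (rl_pos hK hρ _)
        (rl_le hK hρ l) hC'0 (bcon_nonneg hC'0 l) (fun j y => h2 _ _ j y) (fun j y => h3 l j y) j y
    refine h4.trans ((div_le_div_iff_of_pos_right (pow_pos (rl_pos hK hρ _) _)).2 ?_)
    exact Finset.single_le_sum (f := fun l => bcon B C' l j) (fun l _ => bcon_nonneg hC'0 l j)
      (Finset.mem_range.2 (by omega))
  · intro l k y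
    unfold pie
    rw [norm_smul, Real.norm_of_nonneg (bq_nonneg _ _ _ _)]
    calc _ ≤ 1 * ‖phs κ K ρ z a F (l - 1) y‖ :=
          mul_le_mul_of_nonneg_right (bq_le_one _ _ _ _) (norm_nonneg _)
      _ ≤ _ := by
          rw [one_mul]
          exact phs_norm κ K ρ hκ hK hρ hs F _ y
  · intro l k y hl hne
    have h4 : bq (sl m κ K ρ l) z k y ≠ 0 := fun h => hne (by unfold pie; rw [h, zero_smul])
    have h5 : phs κ K ρ z a F (l - 1) y ≠ 0 := fun h => hne (by unfold pie; rw [h, smul_zero])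
    obtain ⟨h6, h7⟩ := phs_ne hκ hK hρ h5
    exact ⟨h6, bq_near hκ hK hρ h4, fun l' h8 h9 => h7 l' h8 (by omega)⟩
  · intro y
    have h4 := phs_tel hκ hK hρ hs F n y
    have h5 : phs κ K ρ z a F n y = 0 := by
      by_contra h6
      obtain ⟨h7, h8⟩ := phs_ne hκ hK hρ h6
      obtain ⟨k, h9, h10⟩ := h8 n hn le_rfl
      exact hlast k y h7 h10 h9
    rw [h5, zero_add] at h4
    exact h4

/-- The number of the cells of one generation near a point. -/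
theorem zl_card {κ K ρ : ℝ} (hκ : 0 < κ) (hK : 1 ≤ K) (hρ : 0 < ρ) (z y : E m) (l : ℕ)
    (S : Finset (Fin m → ℤ)) (h : ∀ k ∈ S, ‖y - zl m κ K ρ z l k‖ ≤ rl K ρ l) :
    S.card ≤ (⌊2 * ((m + 1) / κ)⌋₊ + 1) ^ m := by
  have hs := sl_pos (m := m) hκ hK hρ l
  refine lat_card (w := fun i => ((sl m κ K ρ l)⁻¹ • (y - z)) i) (by positivity) S
    fun k hk i => ?_
  have h1 : ((sl m κ K ρ l)⁻¹ • (y - z)) i - k i =
      ((sl m κ K ρ l)⁻¹ • (y - zl m κ K ρ z l k)) i := by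
    have h2 : ((sl m κ K ρ l)⁻¹ • (y - zl m κ K ρ z l k) : E m) =
        (sl m κ K ρ l)⁻¹ • (y - z) - lp k := by
      unfold zl
      rw [← sub_sub, smul_sub, smul_smul, inv_mul_cancel₀ hs.ne', one_smul]
    rw [h2]
    rfl
  rw [h1]
  refine (coord_le _ i).trans ?_
  rw [norm_smul, norm_inv, Real.norm_of_nonneg hs.le]
  calc (sl m κ K ρ l)⁻¹ * ‖y - zl m κ K ρ z l k‖ ≤ (sl m κ K ρ l)⁻¹ * rl K ρ l :=
        mul_le_mul_of_nonneg_left (h k hk) (by positivity)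
    _ = (m + 1) / κ := by
        have h3 := rl_pos hK hρ l
        unfold sl
        have : (0 : ℝ) < m + 1 := by positivity
        field_simp

end TR2

end Pool.Agent.GNP
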