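-- Pool/Agent/GNP/TMa.lean
import Pool.Agent.GNP.TR2

/-!
The layers about a set `Sig` at the scales `2^-k` and the lattice cells of one layer.
-/

namespace Pool.Agent.GNP

open MeasureTheory Set Pool.Agent.MP_6cbfb8_an
open scoped ENNReal Real RealInnerProductSpace ContDiff

namespace TM

open TR2

variable {n : ℕ}

/-- The step of the lattice of the scale `2^-k`. -/
noncomputable def st (n k : ℕ) : ℝ := 1 / (32 * (n + 1)) * (1 / 2) ^ k

/-- The box of the lattice of the scale `2^-k`. -/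
noncomputable def bk (n k : ℕ) : Finset (Fin n → ℤ) := bxN n ⌈(32 * (n + 1) : ℝ) * 2 ^ k⌉

open scoped Classical in
/-- The cut-off to the neighbourhood of `Sig` of radius about `2^-k`. -/
noncomputable def HH (Sig : Set (E n)) (k : ℕ) (x : E n) : ℝ :=
  if k = 0 then 1 else
    bS (st n k) 0 ((bk n k).filter fun m => ∃ y ∈ Sig, ‖st n k • lp m - y‖ < (1 / 2) ^ k) x

/-- The layer `k`. -/
noncomputable def DD (Sig : Set (E n)) (k : ℕ) (x : E n) : ℝ := HH Sig k x - HH Sig (k + 1) x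

/-- The cell `m` of the layer `k`. -/
noncomputable def bb (Sig : Set (E n)) (k : ℕ) (m : Fin n → ℤ) (x : E n) : ℝ :=
  DD Sig k x * bq (st n k) 0 m x

theorem st_pos (n k : ℕ) : 0 < st n k := by
  unfold st
  positivity

theorem st_inv (n k : ℕ) : (st n k)⁻¹ = (32 * (n + 1)) * 2 ^ k := by
  unfold st
  rw [mul_inv, one_div, inv_inv, one_div, inv_pow, inv_inv]

theorem bq_near' {k : ℕ} {m : Fin n → ℤ} {x : E n} (h : bq (st n k) 0 m x ≠ 0) :
    ‖x - st n k • lp m‖ ≤ 1 / 32 * (1 / 2) ^ k := by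
  have h1 := bq_ne (st_pos n k) h
  rw [zero_add] at h1
  refine h1.trans (le_of_eq ?_)
  unfold st
  have : (0 : ℝ) < n + 1 := by positivity
  field_simp

theorem HH_zero (Sig : Set (E n)) : HH Sig 0 = fun _ => 1 := by
  funext x
  unfold HH
  rw [if_pos rfl]

open scoped Classical in
theorem HH_pos (Sig : Set (E n)) {k : ℕ} (hk : k ≠ 0) : HH Sig k =
    bS (st n k) 0 ((bk n k).filter fun m => ∃ y ∈ Sig, ‖st n k • lp m - y‖ < (1 / 2) ^ k) := by
  funext x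
  unfold HH
  rw [if_neg hk]

theorem HH_smooth (Sig : Set (E n)) (k : ℕ) : ContDiff ℝ ∞ (HH Sig k) := by
  rcases eq_or_ne k 0 with rfl | hk
  · rw [HH_zero]
    exact contDiff_const
  · rw [HH_pos Sig hk]
    exact bS_smooth _ _ _

theorem DD_smooth (Sig : Set (E n)) (k : ℕ) : ContDiff ℝ ∞ (DD Sig k) :=
  (HH_smooth Sig k).sub (HH_smooth Sig (k + 1))

theorem bb_smooth (Sig : Set (E n)) (k : ℕ) (m : Fin n → ℤ) : ContDiff ℝ ∞ (bb Sig k m) :=
  (DD_smooth Sig k).mul (bq_smooth _ _ _)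

theorem HH_nonneg (Sig : Set (E n)) (k : ℕ) (x : E n) : 0 ≤ HH Sig k x := by
  rcases eq_or_ne k 0 with rfl | hk
  · rw [HH_zero]
    exact zero_le_one
  · rw [HH_pos Sig hk]
    exact bS_nonneg _ _ _ _

theorem bk_sum (k : ℕ) {x : E n} (hx : ‖x‖ ≤ 1) : ∑ m ∈ bk n k, bq (st n k) 0 m x = 1 := by
  refine bq_sum fun i => ?_
  refine (coord_le _ i).trans ?_
  rw [sub_zero, norm_smul, norm_inv, Real.norm_of_nonneg (st_pos n k).le, st_inv]
  calc (32 * ((n : ℝ) + 1)) * 2 ^ k * ‖x‖ ≤ (32 * ((n : ℝ) + 1)) * 2 ^ k * 1 :=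
        mul_le_mul_of_nonneg_left hx (by positivity)
    _ = (32 * ((n : ℝ) + 1)) * 2 ^ k := mul_one _
    _ ≤ _ := Int.le_ceil _

theorem HH_le_one (Sig : Set (E n)) (k : ℕ) {x : E n} (hx : ‖x‖ ≤ 1) : HH Sig k x ≤ 1 := by
  classical
  rcases eq_or_ne k 0 with rfl | hk
  · rw [HH_zero]
  · rw [HH_pos Sig hk]
    refine le_trans ?_ (bk_sum k hx).le
    exact Finset.sum_le_sum_of_subset_of_nonneg (Finset.filter_subset _ _)
      fun k _ _ => bq_nonneg _ _ _ _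

theorem HH_ne {Sig : Set (E n)} {k : ℕ} (hk : 1 ≤ k) {x : E n} (h : HH Sig k x ≠ 0) :
    ∃ y ∈ Sig, ‖x - y‖ < 33 / 32 * (1 / 2) ^ k := by
  classical
  rw [HH_pos Sig (by omega)] at h
  obtain ⟨m, hm, hm2⟩ := Finset.exists_ne_zero_of_sum_ne_zero h
  obtain ⟨y, hy, hy2⟩ := (Finset.mem_filter.1 hm).2
  refine ⟨y, hy, ?_⟩
  have h1 := bq_near' hm2
  have h2 : x - y = (x - st n k • lp m) + (st n k • lp m - y) := by abel
  rw [h2]
  refine (norm_add_le _ _).trans_lt ?_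
  linarith

/-- `HH = 1` near `Sig`. -/
theorem HH_one {Sig : Set (E n)} {k : ℕ} {x y : E n} (hx : ‖x‖ ≤ 1) (hy : y ∈ Sig)
    (h : ‖x - y‖ < 31 / 32 * (1 / 2) ^ k) : HH Sig k x = 1 := by
  classical
  rcases eq_or_ne k 0 with rfl | hk
  · rw [HH_zero]
  · rw [HH_pos Sig hk]
    refine Eq.trans ?_ (bk_sum k hx)
    unfold bS
    refine Finset.sum_filter_of_ne fun m _ hm => ⟨y, hy, ?_⟩
    have h1 := bq_near' hm
    have h2 : st n k • lp m - y = (x - y) - (x - st n k • lp m) := by abel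
    rw [h2]
    refine (norm_sub_le _ _).trans_lt ?_
    linarith

theorem DD_far {Sig : Set (E n)} {k : ℕ} {x : E n} (hx : ‖x‖ ≤ 1) (h : DD Sig k x ≠ 0) :
    ∀ y ∈ Sig, 31 / 64 * (1 / 2) ^ k ≤ ‖x - y‖ := by
  intro y hy
  by_contra h1
  rw [not_le] at h1
  have h0 : (0 : ℝ) < (1 / 2) ^ k := by positivity
  have h2 : HH Sig (k + 1) x = 1 := HH_one hx hy (by rw [pow_succ]; linarith)
  have h3 : HH Sig k x = 1 := HH_one hx hy (by linarith)
  exact h (by unfold DD; rw [h2, h3, sub_self])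

theorem DD_near {Sig : Set (E n)} {k : ℕ} {x : E n} (hk : 1 ≤ k) (h : DD Sig k x ≠ 0) :
    ∃ y ∈ Sig, ‖x - y‖ < 33 / 32 * (1 / 2) ^ k := by
  by_cases h1 : HH Sig k x = 0
  · have h2 : HH Sig (k + 1) x ≠ 0 := fun h2 => h (by unfold DD; rw [h1, h2, sub_self])
    obtain ⟨y, hy, h3⟩ := HH_ne (by omega) h2
    refine ⟨y, hy, h3.trans_le ?_⟩
    have h0 : (0 : ℝ) < (1 / 2) ^ k := by positivity
    rw [pow_succ]
    linarith
  · exact HH_ne hk h1

theorem DD_abs (Sig : Set (E n)) (k : ℕ) {x : E n} (hx : ‖x‖ ≤ 1) : |DD Sig k x| ≤ 1 := by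
  have h1 := HH_nonneg Sig k x
  have h2 := HH_nonneg Sig (k + 1) x
  have h3 := HH_le_one Sig k hx
  have h4 := HH_le_one Sig (k + 1) hx
  unfold DD
  rw [abs_le]
  constructor <;> linarith

theorem bb_norm (Sig : Set (E n)) (k : ℕ) (m : Fin n → ℤ) {x : E n} (hx : ‖x‖ ≤ 1) :
    |bb Sig k m x| ≤ 1 := by
  unfold bb
  rw [abs_mul, abs_of_nonneg (bq_nonneg _ _ _ _)]
  exact mul_le_one₀ (DD_abs Sig k hx) (bq_nonneg _ _ _ _) (bq_le_one _ _ _ _)

theorem bb_near {Sig : Set (E n)} {k : ℕ} {m : Fin n → ℤ} {x : E n} (h : bb Sig k m x ≠ 0) :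
    ‖x - st n k • lp m‖ ≤ 1 / 32 * (1 / 2) ^ k :=
  bq_near' (right_ne_zero_of_mul h)

theorem bb_DD {Sig : Set (E n)} {k : ℕ} {m : Fin n → ℤ} {x : E n} (h : bb Sig k m x ≠ 0) :
    DD Sig k x ≠ 0 := left_ne_zero_of_mul h

theorem bb_sum (Sig : Set (E n)) (K : ℕ) {x : E n} (hx : ‖x‖ ≤ 1) :
    ∑ k ∈ Finset.range K, ∑ m ∈ bk n k, bb Sig k m x = 1 - HH Sig K x := by
  have h1 : ∀ k, ∑ m ∈ bk n k, bb Sig k m x = HH Sig k x - HH Sig (k + 1) x := by
    intro k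
    unfold bb
    rw [← Finset.mul_sum, bk_sum k hx, mul_one]
    rfl
  rw [Finset.sum_congr rfl fun k _ => h1 k, Finset.sum_range_sub', HH_zero]

/-! ## Derivatives -/

theorem HH_der (n : ℕ) : ∃ B : ℕ → ℝ, (∀ j, 0 ≤ B j) ∧ ∀ (Sig : Set (E n)) (k j : ℕ) (x : E n),
    ‖iteratedFDeriv ℝ j (HH Sig k) x‖ ≤ B j * (2 ^ k) ^ j := by
  choose C hC0 hC1 _ using fun j => bS_der n j
  refine ⟨fun j => 1 + C j * (32 * (n + 1)) ^ j, fun j => ?_, fun Sig k j x => ?_⟩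
  · have := hC0 j
    positivity
  · have hCj := hC0 j
    rcases eq_or_ne k 0 with rfl | hk
    · rw [HH_zero]
      have h1 : ‖iteratedFDeriv ℝ j (fun _ : E n => (1 : ℝ)) x‖ ≤ 1 := by
        rcases eq_or_ne j 0 with rfl | hj
        · rw [norm_iteratedFDeriv_zero, norm_one]
        · rw [iteratedFDeriv_const_of_ne hj]
          simp
      refine h1.trans ?_
      rw [pow_zero, one_pow, mul_one]
      have : 0 ≤ C j * (32 * ((n : ℝ) + 1)) ^ j := by positivity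
      linarith
    · rw [HH_pos Sig hk]
      refine (hC1 j _ _ _ x (st_pos n k)).trans ?_
      rw [div_eq_mul_inv, ← inv_pow, st_inv, mul_pow]
      have : 0 ≤ ((2 : ℝ) ^ k) ^ j := by positivity
      nlinarith

theorem DD_der (n : ℕ) : ∃ B : ℕ → ℝ, (∀ j, 0 ≤ B j) ∧ ∀ (Sig : Set (E n)) (k j : ℕ) (x : E n),
    ‖iteratedFDeriv ℝ j (DD Sig k) x‖ ≤ B j * (2 ^ k) ^ j := by
  obtain ⟨B, hB0, hB⟩ := HH_der n
  refine ⟨fun j => B j * (1 + 2 ^ j), fun j => ?_, fun Sig k j x => ?_⟩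
  · have := hB0 j
    positivity
  · have h1 : iteratedFDeriv ℝ j (DD Sig k) x =
        iteratedFDeriv ℝ j (HH Sig k) x - iteratedFDeriv ℝ j (HH Sig (k + 1)) x := by
      exact iteratedFDeriv_sub_apply
        ((HH_smooth Sig k).of_le (by exact_mod_cast le_top)).contDiffAt
        ((HH_smooth Sig (k + 1)).of_le (by exact_mod_cast le_top)).contDiffAt
    rw [h1]
    refine (norm_sub_le _ _).trans ((add_le_add (hB Sig k j x) (hB Sig (k + 1) j x)).trans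
      (le_of_eq ?_))
    rw [pow_succ, mul_pow]
    ring

theorem bb_der (n : ℕ) : ∃ B : ℕ → ℝ, (∀ j, 0 ≤ B j) ∧
    ∀ (Sig : Set (E n)) (k : ℕ) (m : Fin n → ℤ) (j : ℕ) (x : E n),
      ‖iteratedFDeriv ℝ j (bb Sig k m) x‖ ≤ B j * (2 ^ k) ^ j := by
  obtain ⟨B, hB0, hB⟩ := DD_der n
  choose C hC0 _ hC1 using fun j => bS_der n j
  refine ⟨fun j => ∑ i ∈ Finset.range (j + 1), (j.choose i : ℝ) * B i *
    (C (j - i) * (32 * (n + 1)) ^ (j - i)), fun j => ?_, fun Sig k m j x => ?_⟩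
  · refine Finset.sum_nonneg fun i _ => ?_
    have h1 := hB0 i
    have h2 := hC0 (j - i)
    positivity
  · refine (norm_iteratedFDeriv_mul_le (DD_smooth Sig k) (bq_smooth (st n k) 0 m) x (n := j)
      (by exact_mod_cast le_top)).trans ?_
    rw [Finset.sum_mul]
    refine Finset.sum_le_sum fun i hi => ?_
    have hi' : i ≤ j := Nat.lt_succ_iff.1 (Finset.mem_range.1 hi)
    have h3 : ‖iteratedFDeriv ℝ (j - i) (bq (st n k) 0 m) x‖ ≤
        C (j - i) * ((32 * (n + 1)) ^ (j - i) * (2 ^ k) ^ (j - i)) := by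
      refine (hC1 (j - i) _ _ _ x (st_pos n k)).trans (le_of_eq ?_)
      rw [div_eq_mul_inv, ← inv_pow, st_inv, mul_pow]
    have h4 : ((2 : ℝ) ^ k) ^ j = (2 ^ k) ^ i * (2 ^ k) ^ (j - i) := by
      rw [← pow_add, Nat.add_sub_cancel' hi']
    have h5 := hB Sig k i x
    have h6 := hB0 i
    calc (j.choose i : ℝ) * ‖iteratedFDeriv ℝ i (DD Sig k) x‖ *
          ‖iteratedFDeriv ℝ (j - i) (bq (st n k) 0 m) x‖
        ≤ (j.choose i : ℝ) * (B i * (2 ^ k) ^ i) *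
          (C (j - i) * ((32 * (n + 1)) ^ (j - i) * (2 ^ k) ^ (j - i))) := by
          gcongr
      _ = _ := by
          rw [h4]
          ring

end TM

end Pool.Agent.GNP
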