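-- Pool/Agent/GNP/TMc.lean
import Pool.Agent.GNP.TMa
import Pool.Agent.GNP.TM0

/-!
The surface measure of a cap and of a neighbourhood of a set with small covering numbers.
-/

namespace Pool.Agent.GNP

open MeasureTheory Set Pool.Agent.MP_6cbfb8_an
open scoped ENNReal Real RealInnerProductSpace ContDiff Pointwise

namespace TM

open TR2

/-- The surface measure of a cap of radius `r ≤ 3`. -/
theorem cap_meas (n : ℕ) (hn : 1 ≤ n) : ∃ C : ℝ, 0 ≤ C ∧ ∀ (y : E n) (r : ℝ), 0 < r → r ≤ 3 →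
    sm n {x : S n | ‖(x : E n) - y‖ < r} ≤ ENNReal.ofReal (C * r ^ (n - 1)) := by
  set v := ((volume : Measure (E n)) (Metric.closedBall 0 1)).toReal with hv
  have hv0 : 0 ≤ v := ENNReal.toReal_nonneg
  have hvt : (volume : Measure (E n)) (Metric.closedBall 0 1) = ENNReal.ofReal v :=
    (ENNReal.ofReal_toReal measure_closedBall_lt_top.ne).symm
  refine ⟨n * (4 * (2 ^ n * v)), by positivity, fun y r hr hr3 => ?_⟩
  set N := ⌈1 / r⌉₊ with hN
  have hN1 : 1 / r ≤ N := Nat.le_ceil _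
  have hN0 : (0 : ℝ) < N := (by positivity : 0 < 1 / r).trans_le hN1
  have hN2 : (N : ℝ) ≤ 4 / r := by
    have h1 : (N : ℝ) < 1 / r + 1 := Nat.ceil_lt_add_one (by positivity)
    have h2 : (1 : ℝ) ≤ 3 / r := by rwa [le_div_iff₀ hr, one_mul]
    have h3 : 4 / r = 1 / r + 3 / r := by ring
    linarith
  have hms : MeasurableSet {x : S n | ‖(x : E n) - y‖ < r} :=
    measurableSet_lt (by fun_prop) measurable_const
  rw [Measure.toSphere_apply' _ hms]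
  have hsub : Ioo (0 : ℝ) 1 • (Subtype.val '' {x : S n | ‖(x : E n) - y‖ < r}) ⊆
      ⋃ k ∈ Finset.range N, Metric.closedBall (((k : ℝ) / N) • y) (2 * r) := by
    rintro _ ⟨t, ht, _, ⟨x, hx, rfl⟩, rfl⟩
    have hx1 : ‖(x : E n)‖ = 1 := norm_eq_of_mem_sphere x
    have h1 : ⌊t * N⌋₊ < N := (Nat.floor_lt (by have := ht.1; positivity)).2 (by
      have := ht.2
      nlinarith)
    have h2 : (⌊t * N⌋₊ : ℝ) ≤ t * N := Nat.floor_le (by have := ht.1; positivity)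
    have h3 : t * N < ⌊t * N⌋₊ + 1 := Nat.lt_floor_add_one _
    refine Set.mem_iUnion₂.2 ⟨⌊t * N⌋₊, Finset.mem_range.2 h1, ?_⟩
    rw [mem_closedBall_iff_norm]
    set k := ⌊t * N⌋₊ with hk
    have h4 : (t • (x : E n)) - ((k : ℝ) / N) • y =
        (t - (k : ℝ) / N) • (x : E n) + ((k : ℝ) / N) • ((x : E n) - y) := by
      rw [sub_smul, smul_sub]
      abel
    have h5 : 0 ≤ t - (k : ℝ) / N := by
      rw [sub_nonneg, div_le_iff₀ hN0]
      exact h2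
    have h6 : t - (k : ℝ) / N ≤ r := by
      have h7 : t - (k : ℝ) / N ≤ 1 / N := by
        rw [sub_le_iff_le_add, ← add_div, le_div_iff₀ hN0]
        linarith
      refine h7.trans ?_
      rw [div_le_iff₀ hN0]
      have := mul_le_mul_of_nonneg_left hN1 hr.le
      rwa [mul_one_div_cancel hr.ne'] at this
    have h7 : (k : ℝ) / N ≤ 1 := by
      rw [div_le_one hN0]
      exact_mod_cast h1.le
    have h8 : 0 ≤ (k : ℝ) / N := by positivity
    show ‖(t • (x : E n)) - ((k : ℝ) / N) • y‖ ≤ 2 * r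
    rw [h4]
    refine (norm_add_le _ _).trans ?_
    rw [norm_smul, norm_smul, hx1, Real.norm_of_nonneg h5, Real.norm_of_nonneg h8, mul_one]
    have h9 : (k : ℝ) / N * ‖(x : E n) - y‖ ≤ 1 * r :=
      mul_le_mul h7 hx.le (norm_nonneg _) zero_le_one
    linarith
  have hball : ∀ k : ℕ, (volume : Measure (E n)) (Metric.closedBall (((k : ℝ) / N) • y) (2 * r)) =
      ENNReal.ofReal ((2 * r) ^ n * v) := by
    intro k
    rw [Measure.addHaar_closedBall' _ _ (by positivity), hvt, finrank_euclideanSpace_fin,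
      ← ENNReal.ofReal_mul (by positivity)]
  calc (Module.finrank ℝ (E n) : ℝ≥0∞) *
        volume (Ioo (0 : ℝ) 1 • (Subtype.val '' {x : S n | ‖(x : E n) - y‖ < r}))
      ≤ (n : ℝ≥0∞) * ∑ k ∈ Finset.range N, ENNReal.ofReal ((2 * r) ^ n * v) := by
        rw [finrank_euclideanSpace_fin]
        refine mul_le_mul_right ?_ _
        refine (measure_mono hsub).trans ((measure_biUnion_finset_le _ _).trans ?_)
        exact le_of_eq (Finset.sum_congr rfl fun k _ => hball k)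
    _ = ENNReal.ofReal (n * (N * ((2 * r) ^ n * v))) := by
        rw [Finset.sum_const, Finset.card_range, nsmul_eq_mul,
          ENNReal.ofReal_mul (p := (n : ℝ)) (Nat.cast_nonneg _),
          ENNReal.ofReal_mul (p := (N : ℝ)) (Nat.cast_nonneg _), ENNReal.ofReal_natCast,
          ENNReal.ofReal_natCast]
    _ ≤ ENNReal.ofReal (n * (4 * (2 ^ n * v)) * r ^ (n - 1)) := by
        refine ENNReal.ofReal_le_ofReal ?_
        have h1 : (N : ℝ) * r ≤ 4 := by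
          have := mul_le_mul_of_nonneg_right hN2 hr.le
          rwa [div_mul_cancel₀ _ hr.ne'] at this
        have h2 : (2 * r) ^ n = 2 ^ n * (r ^ (n - 1) * r) := by
          rw [mul_pow, ← pow_succ, Nat.sub_add_cancel hn]
        rw [h2]
        have h3 : 0 ≤ (n : ℝ) * (2 ^ n * r ^ (n - 1) * v) := by positivity
        nlinarith

/-- The surface measure of the neighbourhood of a set which is covered by the balls of radius `r`
about the points of `T`. -/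
theorem near_meas (n : ℕ) (hn : 1 ≤ n) : ∃ C : ℝ, 0 ≤ C ∧ ∀ (Sig : Set (E n)) (r : ℝ)
    (T : Finset (E n)), 0 < r → r ≤ 1 → (∀ y ∈ Sig, ∃ z ∈ T, ‖y - z‖ ≤ r) →
    sm n {x : S n | ∃ y ∈ Sig, ‖(x : E n) - y‖ < 33 / 32 * r} ≤
      ENNReal.ofReal (C * T.card * r ^ (n - 1)) := by
  obtain ⟨C, hC, h⟩ := cap_meas n hn
  refine ⟨C * 3 ^ (n - 1), by positivity, fun Sig r T hr hr1 hT => ?_⟩
  have hsub : {x : S n | ∃ y ∈ Sig, ‖(x : E n) - y‖ < 33 / 32 * r} ⊆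
      ⋃ z ∈ T, {x : S n | ‖(x : E n) - z‖ < 3 * r} := by
    rintro x ⟨y, hy, hxy⟩
    obtain ⟨z, hz, hyz⟩ := hT y hy
    refine Set.mem_iUnion₂.2 ⟨z, hz, ?_⟩
    have h1 : (x : E n) - z = ((x : E n) - y) + (y - z) := by abel
    show ‖(x : E n) - z‖ < 3 * r
    rw [h1]
    refine (norm_add_le _ _).trans_lt ?_
    linarith
  calc sm n {x : S n | ∃ y ∈ Sig, ‖(x : E n) - y‖ < 33 / 32 * r}
      ≤ ∑ z ∈ T, sm n {x : S n | ‖(x : E n) - z‖ < 3 * r} :=
        (measure_mono hsub).trans (measure_biUnion_finset_le _ _)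
    _ ≤ ∑ _z ∈ T, ENNReal.ofReal (C * (3 * r) ^ (n - 1)) :=
        Finset.sum_le_sum fun z _ => h z (3 * r) (by positivity) (by linarith)
    _ = ENNReal.ofReal (C * 3 ^ (n - 1) * T.card * r ^ (n - 1)) := by
        rw [Finset.sum_const, nsmul_eq_mul, ← ENNReal.ofReal_natCast,
          ← ENNReal.ofReal_mul (Nat.cast_nonneg _)]
        congr 1
        rw [mul_pow]
        ring

theorem half_rpow (K : ℕ) (κ : ℝ) : ((1 / 2 : ℝ) ^ K) ^ (-κ) = 2 ^ ((K : ℝ) * κ) := by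
  rw [one_div, inv_pow, Real.inv_rpow (by positivity), ← Real.rpow_neg (by positivity), neg_neg,
    ← Real.rpow_natCast, ← Real.rpow_mul (by norm_num)]

theorem half_pow (K n : ℕ) (hn : 1 ≤ n) : ((1 / 2 : ℝ) ^ K) ^ (n - 1) =
    2 ^ (-((K : ℝ) * ((n : ℝ) - 1))) := by
  have h := half_rpow K (-((n : ℝ) - 1))
  rw [neg_neg] at h
  rw [← mul_neg, ← h, ← Real.rpow_natCast ((1 / 2 : ℝ) ^ K) (n - 1), Nat.cast_sub hn, Nat.cast_one]

/-- The surface measure of the support of the last cut-off. -/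
theorem sig_meas_at (n : ℕ) (hn : 1 ≤ n) : ∃ C : ℝ, 0 ≤ C ∧ ∀ (V κ : ℝ) (Sig : Set (E n)) (K : ℕ),
    1 ≤ K → (∃ t : Finset (E n), (t.card : ℝ) ≤ V * ((1 / 2 : ℝ) ^ K) ^ (-κ) ∧
      Sig ⊆ ⋃ x ∈ t, Metric.ball x ((1 / 2) ^ K)) →
    sm n {x : S n | HH Sig K x ≠ 0} ≤
      ENNReal.ofReal (C * V * 2 ^ ((K : ℝ) * κ) * 2 ^ (-((K : ℝ) * ((n : ℝ) - 1)))) := by
  obtain ⟨C, hC, h⟩ := near_meas n hn
  refine ⟨C, hC, fun V κ Sig K hK ⟨t, ht1, ht2⟩ => ?_⟩
  have h1 : ∀ y ∈ Sig, ∃ z ∈ t, ‖y - z‖ ≤ (1 / 2 : ℝ) ^ K := by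
    intro y hy
    obtain ⟨z, hz, hz2⟩ := Set.mem_iUnion₂.1 (ht2 hy)
    exact ⟨z, hz, (mem_ball_iff_norm.1 hz2).le⟩
  calc sm n {x : S n | HH Sig K x ≠ 0}
      ≤ sm n {x : S n | ∃ y ∈ Sig, ‖(x : E n) - y‖ < 33 / 32 * (1 / 2) ^ K} :=
        measure_mono fun x hx => HH_ne hK hx
    _ ≤ _ := h Sig ((1 / 2) ^ K) t (by positivity) (pow_le_one₀ (by norm_num) (by norm_num)) h1
    _ ≤ _ := by
        refine ENNReal.ofReal_le_ofReal ?_
        rw [← half_pow K n hn, ← half_rpow]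
        have h2 : C * (t.card : ℝ) ≤ C * (V * ((1 / 2 : ℝ) ^ K) ^ (-κ)) :=
          mul_le_mul_of_nonneg_left ht1 hC
        calc C * (t.card : ℝ) * ((1 / 2 : ℝ) ^ K) ^ (n - 1)
            ≤ C * (V * ((1 / 2 : ℝ) ^ K) ^ (-κ)) * ((1 / 2 : ℝ) ^ K) ^ (n - 1) :=
              mul_le_mul_of_nonneg_right h2 (by positivity)
          _ = _ := by ring

theorem two_rpow (K n : ℕ) (κ : ℝ) : (2 : ℝ) ^ ((K : ℝ) * κ) * 2 ^ (-((K : ℝ) * ((n : ℝ) - 1))) =
    ((2 : ℝ) ^ K) ^ (κ - (n - 1)) := by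
  rw [← Real.rpow_add (by norm_num), ← Real.rpow_natCast (2 : ℝ) K, ← Real.rpow_mul (by norm_num)]
  congr 1
  ring

theorem sig_meas (n : ℕ) (hn : 2 ≤ n) : ∃ C : ℝ, 0 ≤ C ∧ ∀ (V κ : ℝ) (Sig : Set (E n)), 0 ≤ V →
    Cov V κ Sig → ∀ K : ℕ, 1 ≤ K → sm n {y : S n | HH Sig K y ≠ 0} ≤
      ENNReal.ofReal (C * V * ((2 : ℝ) ^ K) ^ (κ - (n - 1))) := by
  obtain ⟨C, hC, h⟩ := sig_meas_at n (by omega)
  refine ⟨C, hC, fun V κ Sig _ hcov K hK => ?_⟩
  refine (h V κ Sig K hK (hcov _ (by positivity) (pow_le_one₀ (by norm_num) (by norm_num)))).trans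
    (le_of_eq ?_)
  rw [mul_assoc (C * V), two_rpow]

end TM

end Pool.Agent.GNP
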