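-- Pool/Agent/GNP/TMb.lean
import Pool.Agent.GNP.TMa
import Pool.Agent.GNP.TM0

/-!
The cells of the layers about `Sig`: count, centres, overlap.
-/

namespace Pool.Agent.GNP

open MeasureTheory Set Pool.Agent.MP_6cbfb8_an
open scoped ENNReal Real RealInnerProductSpace ContDiff

namespace TM

open TR2

variable {n : ℕ}

/-- The number of lattice points of the step `st n k` in a ball of radius `R 2^-k`. -/
theorem lat_near (k : ℕ) {R : ℝ} (hR : 0 ≤ R) (y : E n) (S : Finset (Fin n → ℤ))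
    (h : ∀ m ∈ S, ‖y - st n k • lp m‖ ≤ R * (1 / 2) ^ k) :
    S.card ≤ (⌊2 * (32 * (n + 1) * R)⌋₊ + 1) ^ n := by
  have hs := st_pos n k
  refine lat_card (w := fun i => ((st n k)⁻¹ • y) i) (by positivity) S fun m hm i => ?_
  have h1 : ((st n k)⁻¹ • y) i - m i = ((st n k)⁻¹ • (y - st n k • lp m)) i := by
    rw [smul_sub, smul_smul, inv_mul_cancel₀ hs.ne', one_smul]
    rfl
  rw [h1]
  refine (coord_le _ i).trans ?_
  rw [norm_smul, norm_inv, Real.norm_of_nonneg hs.le]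
  calc (st n k)⁻¹ * ‖y - st n k • lp m‖ ≤ (st n k)⁻¹ * (R * (1 / 2) ^ k) :=
        mul_le_mul_of_nonneg_left (h m hm) (by positivity)
    _ = 32 * (n + 1) * R := by
        rw [st_inv]
        have h2 : (2 : ℝ) ^ k * (1 / 2) ^ k = 1 := by rw [← mul_pow]; norm_num
        calc 32 * ((n : ℝ) + 1) * 2 ^ k * (R * (1 / 2) ^ k)
            = 32 * (n + 1) * R * (2 ^ k * (1 / 2) ^ k) := by ring
          _ = _ := by rw [h2, mul_one]

open scoped Classical in
/-- The cells of the layer `k` which meet the sphere. -/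
noncomputable def cs (Sig : Set (E n)) (k : ℕ) : Finset (Fin n → ℤ) :=
  (bk n k).filter fun m => ∃ x : E n, ‖x‖ = 1 ∧ bb Sig k m x ≠ 0

theorem cs_mem {Sig : Set (E n)} {k : ℕ} {m : Fin n → ℤ} (h : m ∈ cs Sig k) :
    ∃ x : E n, ‖x‖ = 1 ∧ bb Sig k m x ≠ 0 := by
  classical
  exact (Finset.mem_filter.1 h).2

theorem cs_sum (Sig : Set (E n)) (K : ℕ) {x : E n} (hx : ‖x‖ = 1) :
    ∑ k ∈ Finset.range K, ∑ m ∈ cs Sig k, bb Sig k m x = 1 - HH Sig K x := by
  classical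
  rw [← bb_sum Sig K hx.le]
  refine Finset.sum_congr rfl fun k _ => ?_
  unfold cs
  exact Finset.sum_filter_of_ne fun m _ hm => ⟨x, hx, hm⟩

/-- The count for the layer 0. -/
theorem cs_card_zero (Sig : Set (E n)) : ((cs Sig 0).card : ℝ) ≤ (bk n 0).card := by
  classical
  unfold cs
  exact_mod_cast Finset.card_filter_le _ _

/-- The count for the layers `k ≥ 1`. -/
theorem cs_card {V κ : ℝ} {Sig : Set (E n)} (h : Cov V κ Sig) {k : ℕ} (hk : 1 ≤ k) :
    ((cs Sig k).card : ℝ) ≤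
      V * 2 ^ ((k : ℝ) * κ) * ((⌊2 * (32 * ((n : ℝ) + 1) * 3)⌋₊ + 1) ^ n : ℕ) := by
  classical
  obtain ⟨t, ht, hcov⟩ := h ((1 / 2) ^ k) (by positivity) (pow_le_one₀ (by norm_num) (by norm_num))
  have h1 : cs Sig k ⊆ t.biUnion fun z =>
      (cs Sig k).filter fun m => ‖z - st n k • lp m‖ ≤ 3 * (1 / 2) ^ k := by
    intro m hm
    obtain ⟨x, hx, hne⟩ := cs_mem hm
    obtain ⟨y, hy, hxy⟩ := DD_near hk (bb_DD hne)
    obtain ⟨z, hz, hyz⟩ := mem_iUnion₂.1 (hcov hy)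
    refine Finset.mem_biUnion.2 ⟨z, hz, Finset.mem_filter.2 ⟨hm, ?_⟩⟩
    have h2 := bb_near hne
    rw [Metric.mem_ball, dist_eq_norm] at hyz
    have h3 : z - st n k • lp m = -(y - z) - (x - y) + (x - st n k • lp m) := by abel
    rw [h3]
    refine (norm_add_le _ _).trans ?_
    have h4 := norm_sub_le (-(y - z)) (x - y)
    rw [norm_neg] at h4
    have h0 : (0 : ℝ) < (1 / 2) ^ k := by positivity
    linarith
  have h2 : (cs Sig k).card ≤ t.card * (⌊2 * (32 * ((n : ℝ) + 1) * 3)⌋₊ + 1) ^ n := by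
    refine (Finset.card_le_card h1).trans (Finset.card_biUnion_le_card_mul _ _ _ fun z _ => ?_)
    exact lat_near k (by norm_num) z _ fun m hm => (Finset.mem_filter.1 hm).2
  have h3 : ((1 / 2 : ℝ) ^ k) ^ (-κ) = 2 ^ ((k : ℝ) * κ) := by
    rw [one_div, ← Real.rpow_natCast, ← Real.rpow_mul (by norm_num), Real.inv_rpow (by norm_num),
      ← Real.rpow_neg (by norm_num)]
    congr 1
    ring
  rw [h3] at ht
  calc ((cs Sig k).card : ℝ) ≤ ((t.card * (⌊2 * (32 * ((n : ℝ) + 1) * 3)⌋₊ + 1) ^ n : ℕ) : ℝ) := by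
        exact_mod_cast h2
    _ = (t.card : ℝ) * ((⌊2 * (32 * ((n : ℝ) + 1) * 3)⌋₊ + 1) ^ n : ℕ) := by push_cast; ring
    _ ≤ _ := mul_le_mul_of_nonneg_right ht (Nat.cast_nonneg _)

/-- The centre of a cell: a point of the sphere in the cell. -/
noncomputable def cx (Sig : Set (E n)) (k : ℕ) (m : {m // m ∈ cs Sig k}) : E n :=
  (cs_mem m.2).choose

theorem cx_norm (Sig : Set (E n)) (k : ℕ) (m : {m // m ∈ cs Sig k}) : ‖cx Sig k m‖ = 1 :=
  (cs_mem m.2).choose_spec.1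

theorem cx_ne (Sig : Set (E n)) (k : ℕ) (m : {m // m ∈ cs Sig k}) :
    bb Sig k m.1 (cx Sig k m) ≠ 0 := (cs_mem m.2).choose_spec.2

theorem cx_far (Sig : Set (E n)) (k : ℕ) (m : {m // m ∈ cs Sig k}) (y : E n) (hy : y ∈ Sig) :
    31 / 64 * (1 / 2) ^ k ≤ ‖cx Sig k m - y‖ :=
  DD_far (cx_norm Sig k m).le (bb_DD (cx_ne Sig k m)) y hy

theorem cx_near (Sig : Set (E n)) {k : ℕ} (hk : 1 ≤ k) (m : {m // m ∈ cs Sig k}) :
    ∃ y ∈ Sig, ‖cx Sig k m - y‖ < 33 / 32 * (1 / 2) ^ k :=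
  DD_near hk (bb_DD (cx_ne Sig k m))

/-- The support of a cell. -/
theorem bb_supp (Sig : Set (E n)) (k : ℕ) (m : {m // m ∈ cs Sig k}) {y : E n}
    (h : 1 / 16 * (1 / 2) ^ k < ‖y - cx Sig k m‖) : bb Sig k m.1 y = 0 := by
  by_contra h1
  have h2 := bb_near h1
  have h3 := bb_near (cx_ne Sig k m)
  have h4 : y - cx Sig k m = (y - st n k • lp m.1) - (cx Sig k m - st n k • lp m.1) := by abel
  have h5 := norm_sub_le (y - st n k • lp m.1) (cx Sig k m - st n k • lp m.1)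
  rw [← h4] at h5
  linarith

/-- The overlap of the balls about the centres in one layer. -/
theorem cx_card (Sig : Set (E n)) (k : ℕ) {R : ℝ} (hR : 0 ≤ R) (y : E n)
    (S : Finset {m // m ∈ cs Sig k}) (h : ∀ m ∈ S, ‖y - cx Sig k m‖ ≤ R * (1 / 2) ^ k) :
    S.card ≤ (⌊2 * (32 * ((n : ℝ) + 1) * (R + 1))⌋₊ + 1) ^ n := by
  classical
  have h1 : (S.map (Function.Embedding.subtype _)).card = S.card := Finset.card_map _
  rw [← h1]
  refine lat_near k (by positivity) y _ fun m hm => ?_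
  obtain ⟨i, hi, rfl⟩ := Finset.mem_map.1 hm
  have h2 := h i hi
  have h3 := bb_near (cx_ne Sig k i)
  have h4 : y - st n k • lp (i : Fin n → ℤ) =
      (y - cx Sig k i) + (cx Sig k i - st n k • lp (i : Fin n → ℤ)) := by abel
  show ‖y - st n k • lp (i : Fin n → ℤ)‖ ≤ _
  rw [h4]
  refine (norm_add_le _ _).trans ?_
  have h0 : (0 : ℝ) < (1 / 2) ^ k := by positivity
  linarith

end TM

end Pool.Agent.GNP
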