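-- Pool/Agent/GNP/TMp.lean
import Pool.Agent.GNP.TMb
import Pool.Agent.GNP.TMc

/-!
The row PART: the partition of the sphere off `Sig` into caps.
-/

namespace Pool.Agent.GNP

open MeasureTheory Set Pool.Agent.MP_6cbfb8_an
open scoped ENNReal Real RealInnerProductSpace ContDiff

namespace TM

open TR2

theorem rk_pos (k : ℕ) : 0 < rk k := by
  unfold rk
  positivity

theorem two_pow_le_rk (k : ℕ) : (2 : ℝ) ^ k ≤ (rk k)⁻¹ := by
  unfold rk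
  rw [mul_inv, one_div, one_div, inv_inv, inv_pow, inv_inv]
  have : (0 : ℝ) < 2 ^ k := by positivity
  linarith

/-- The measure of the support of `HH`, all `K`. -/
theorem sig_meas' (n : ℕ) (hn : 1 ≤ n) : ∃ C : ℝ, 0 ≤ C ∧
    ∀ (κ V : ℝ) (Sig : Set (E n)), 0 ≤ V → Cov V κ Sig → ∀ K : ℕ,
      sm n {y : S n | HH Sig K y ≠ 0} ≤
        ENNReal.ofReal (C * (1 + V) * ((2 : ℝ) ^ K) ^ (κ - (n - 1))) := by
  have hfin : sm n univ ≠ ⊤ := measure_ne_top _ _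
  have h0 : 0 ≤ (sm n univ).toReal := ENNReal.toReal_nonneg
  obtain ⟨C, hC, hC1⟩ := sig_meas_at n hn
  refine ⟨C + (sm n univ).toReal, by positivity, fun κ V Sig hV hcov K => ?_⟩
  rcases Nat.eq_zero_or_pos K with rfl | hK
  · refine (measure_mono (subset_univ _)).trans ?_
    rw [pow_zero, Real.one_rpow, mul_one]
    calc sm n univ = ENNReal.ofReal (sm n univ).toReal := (ENNReal.ofReal_toReal hfin).symm
      _ ≤ _ := ENNReal.ofReal_le_ofReal (by nlinarith)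
  · refine (hC1 V κ Sig K hK (hcov _ (by positivity) (pow_le_one₀ (by norm_num) (by norm_num)))).trans
      (ENNReal.ofReal_le_ofReal ?_)
    have h1 : ((2 : ℝ) ^ K) ^ (κ - (n - 1)) = 2 ^ ((K : ℝ) * κ) * 2 ^ (-((K : ℝ) * ((n : ℝ) - 1))) := by
      rw [← Real.rpow_natCast, ← Real.rpow_mul (by norm_num), ← Real.rpow_add (by norm_num)]
      congr 1
      ring
    rw [h1, mul_assoc (C * V)]
    refine mul_le_mul_of_nonneg_right ?_ (by positivity)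
    nlinarith

/-- The row PART; moreover the centres of the layers `k ≥ 1` are near `Sig`. -/
theorem part_near (n : ℕ) (hn : 1 ≤ n) (κ : ℝ) (hκ : 0 ≤ κ) : ∃ (B : ℕ → ℝ) (M : ℕ) (C0 : ℝ), 0 < C0 ∧
    ∀ (V : ℝ) (Sig : Set (E n)), 0 ≤ V → Cov V κ Sig → ∀ K : ℕ,
    ∃ (N : ℕ → ℕ) (x : (k : ℕ) → Fin (N k) → E n) (b : (k : ℕ) → Fin (N k) → E n → ℝ)
      (H : E n → ℝ),
      (∀ k, (N k : ℝ) ≤ C0 * (1 + V) * ((2 : ℝ) ^ k) ^ κ) ∧
      (∀ k i, ‖x k i‖ = 1 ∧ Disjoint (Metric.ball (x k i) (2 * rk k)) Sig ∧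
        ContDiff ℝ ∞ (b k i) ∧ (∀ j y, ‖iteratedFDeriv ℝ j (b k i) y‖ ≤ B j / rk k ^ j) ∧
        ∀ y, rk k / 2 < ‖y - x k i‖ → b k i y = 0) ∧
      (∀ k i, 1 ≤ k → ∃ z ∈ Sig, ‖x k i - z‖ < 33 / 32 * (1 / 2) ^ k) ∧
      (∀ k y, {i | ‖y - x k i‖ < 4 * rk k}.encard ≤ M) ∧
      Continuous H ∧ (∀ y, ‖y‖ = 1 → 0 ≤ H y ∧ H y ≤ 1) ∧
      (∀ y, ‖y‖ = 1 → ∑ k ∈ Finset.range K, ∑ i, b k i y = 1 - H y) ∧
      (∀ y, H y ≠ 0 → K = 0 ∨ ∃ z ∈ Sig, ‖y - z‖ < 2 * (1 / 2) ^ K) ∧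
      sm n {y : S n | H y ≠ 0} ≤
        ENNReal.ofReal (C0 * (1 + V) * ((2 : ℝ) ^ K) ^ (κ - (n - 1))) := by
  classical
  obtain ⟨B, hB0, hB⟩ := bb_der n
  obtain ⟨C, hC, hC1⟩ := sig_meas' n hn
  set D : ℕ := (⌊2 * (32 * ((n : ℝ) + 1) * 3)⌋₊ + 1) ^ n with hD
  refine ⟨B, (⌊2 * (32 * ((n : ℝ) + 1) * (1 / 2 + 1))⌋₊ + 1) ^ n, C + D + (bk n 0).card + 1,
    by positivity, fun V Sig hV hcov K => ?_⟩
  have hC0 : ∀ t : ℝ, 0 ≤ t → t ≤ C + D + (bk n 0).card + 1 → ∀ s : ℝ, 0 ≤ s →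
      t * (1 + V) * s ≤ (C + D + (bk n 0).card + 1) * (1 + V) * s := fun t _ ht s hs =>
    mul_le_mul_of_nonneg_right (mul_le_mul_of_nonneg_right ht (by linarith)) hs
  have hb0 : (0 : ℝ) ≤ (bk n 0).card := Nat.cast_nonneg _
  have hD0 : (0 : ℝ) ≤ D := Nat.cast_nonneg _
  set e : (k : ℕ) → Fin (cs Sig k).card ≃ {m // m ∈ cs Sig k} := fun k =>
    (Finset.equivFin (cs Sig k)).symm with he
  refine ⟨fun k => (cs Sig k).card, fun k i => cx Sig k (e k i), fun k i => bb Sig k (e k i).1,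
    HH Sig K, ?_, ?_, fun k i hk => cx_near Sig hk (e k i), ?_, (HH_smooth Sig K).continuous,
    fun y hy => ⟨HH_nonneg Sig K y, HH_le_one Sig K hy.le⟩, ?_, ?_, ?_⟩
  · intro k
    have h1 : (0 : ℝ) ≤ ((2 : ℝ) ^ k) ^ κ := by positivity
    rcases Nat.eq_zero_or_pos k with rfl | hk
    · refine (cs_card_zero Sig).trans (le_trans ?_ (hC0 _ hb0 (by linarith) _ h1))
      rw [pow_zero, Real.one_rpow, mul_one]
      nlinarith
    · have h2 : ((2 : ℝ) ^ k) ^ κ = 2 ^ ((k : ℝ) * κ) := by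
        rw [← Real.rpow_natCast, ← Real.rpow_mul (by norm_num)]
      refine (cs_card hcov hk).trans (le_trans ?_ (hC0 _ hD0 (by linarith) _ h1))
      rw [h2]
      have h3 : (0 : ℝ) ≤ (2 : ℝ) ^ ((k : ℝ) * κ) := by positivity
      calc V * 2 ^ ((k : ℝ) * κ) * (D : ℝ) = D * V * 2 ^ ((k : ℝ) * κ) := by ring
        _ ≤ D * (1 + V) * 2 ^ ((k : ℝ) * κ) :=
            mul_le_mul_of_nonneg_right (mul_le_mul_of_nonneg_left (by linarith) hD0) h3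
  · intro k i
    refine ⟨cx_norm _ _ _, ?_, bb_smooth _ _ _, ?_, fun y hy => ?_⟩
    · rw [Set.disjoint_left]
      intro y hy hy2
      have h1 := cx_far Sig k (e k i) y hy2
      rw [Metric.mem_ball, dist_eq_norm, norm_sub_rev] at hy
      unfold rk at hy
      have h0 : (0 : ℝ) < (1 / 2) ^ k := by positivity
      linarith
    · intro j y
      refine (hB Sig k _ j y).trans ?_
      rw [div_eq_mul_inv, ← inv_pow]
      exact mul_le_mul_of_nonneg_left (pow_le_pow_left₀ (by positivity) (two_pow_le_rk k) j)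
        (hB0 j)
    · refine bb_supp Sig k (e k i) ?_
      unfold rk at hy
      linarith
  · intro k y
    have h1 : {i | ‖y - cx Sig k (e k i)‖ < 4 * rk k} =
        ((Finset.univ.filter fun i => ‖y - cx Sig k (e k i)‖ < 4 * rk k : Finset _) : Set _) := by
      ext i
      simp
    rw [h1, Set.encard_coe_eq_coe_finsetCard]
    have h2 : (Finset.univ.filter fun i => ‖y - cx Sig k (e k i)‖ < 4 * rk k).card =
        ((Finset.univ.filter fun i => ‖y - cx Sig k (e k i)‖ < 4 * rk k).map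
          (e k).toEmbedding).card := (Finset.card_map _).symm
    rw [h2]
    refine Nat.cast_le.2 (cx_card Sig k (by norm_num) y _ fun m hm => ?_)
    obtain ⟨i, hi, rfl⟩ := Finset.mem_map.1 hm
    have h3 := (Finset.mem_filter.1 hi).2
    refine h3.le.trans ?_
    unfold rk
    linarith
  · intro y hy
    rw [← cs_sum Sig K hy]
    refine Finset.sum_congr rfl fun k _ => ?_
    rw [← Finset.sum_coe_sort (cs Sig k) fun m => bb Sig k m y]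
    exact Equiv.sum_comp (e k) fun m : {m // m ∈ cs Sig k} => bb Sig k m.1 y
  · intro y hy
    rcases Nat.eq_zero_or_pos K with rfl | hK
    · exact Or.inl rfl
    · obtain ⟨z, hz, h1⟩ := HH_ne hK hy
      refine Or.inr ⟨z, hz, h1.trans ?_⟩
      have h0 : (0 : ℝ) < (1 / 2) ^ K := by positivity
      linarith
  · exact (hC1 κ V Sig hV hcov K).trans (ENNReal.ofReal_le_ofReal
      (hC0 _ hC (by linarith) _ (by positivity)))

/-- The row PART. -/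
theorem part (n : ℕ) (hn : 1 ≤ n) (κ : ℝ) (hκ : 0 ≤ κ) : ∃ (B : ℕ → ℝ) (M : ℕ) (C0 : ℝ), 0 < C0 ∧
    ∀ (V : ℝ) (Sig : Set (E n)), 0 ≤ V → Cov V κ Sig → ∀ K : ℕ,
    ∃ (N : ℕ → ℕ) (x : (k : ℕ) → Fin (N k) → E n) (b : (k : ℕ) → Fin (N k) → E n → ℝ)
      (H : E n → ℝ),
      (∀ k, (N k : ℝ) ≤ C0 * (1 + V) * ((2 : ℝ) ^ k) ^ κ) ∧
      (∀ k i, ‖x k i‖ = 1 ∧ Disjoint (Metric.ball (x k i) (2 * rk k)) Sig ∧
        ContDiff ℝ ∞ (b k i) ∧ (∀ j y, ‖iteratedFDeriv ℝ j (b k i) y‖ ≤ B j / rk k ^ j) ∧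
        ∀ y, rk k / 2 < ‖y - x k i‖ → b k i y = 0) ∧
      (∀ k y, {i | ‖y - x k i‖ < 4 * rk k}.encard ≤ M) ∧
      Continuous H ∧ (∀ y, ‖y‖ = 1 → 0 ≤ H y ∧ H y ≤ 1) ∧
      (∀ y, ‖y‖ = 1 → ∑ k ∈ Finset.range K, ∑ i, b k i y = 1 - H y) ∧
      (∀ y, H y ≠ 0 → K = 0 ∨ ∃ z ∈ Sig, ‖y - z‖ < 2 * (1 / 2) ^ K) ∧
      sm n {y : S n | H y ≠ 0} ≤
        ENNReal.ofReal (C0 * (1 + V) * ((2 : ℝ) ^ K) ^ (κ - (n - 1))) := by
  obtain ⟨B, M, C0, h0, h⟩ := part_near n hn κ hκ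
  refine ⟨B, M, C0, h0, fun V Sig hV hcov K => ?_⟩
  obtain ⟨N, x, b, H, h1, h2, _, h4⟩ := h V Sig hV hcov K
  exact ⟨N, x, b, H, h1, h2, h4⟩

end TM

end Pool.Agent.GNP
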