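import Pool.Agent.GNP.TMasmC
import Pool.Agent.GNP.TMp

/-!
# The assembly of the layers, for any bound of one layer.
-/

set_option autoImplicit false

namespace Pool.Agent.GNP.TM

open MeasureTheory Set Filter Topology Pool.Agent.MP_6cbfb8_an
open scoped ENNReal ContDiff Real

theorem gen_rk_le (k : ℕ) : rk k ≤ 1 / 8 := by
  unfold rk
  have : (1 / 2 : ℝ) ^ k ≤ 1 := pow_le_one₀ (by norm_num) (by norm_num)
  linarith

/-- A point off the closure of `Sig` has a small ball which does not meet `Sig`. -/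
theorem gen_ball {n : ℕ} {Sig : Set (E n)} {x : E n} (hx : x ∉ closure Sig) :
    ∃ r : ℝ, 0 < r ∧ r ≤ 1 ∧ Disjoint (Metric.ball x r) Sig := by
  have h1 : (closure Sig)ᶜ ∈ 𝓝 x := isClosed_closure.isOpen_compl.mem_nhds hx
  obtain ⟨r, hr, h2⟩ := Metric.mem_nhds_iff.1 h1
  refine ⟨min r 1, lt_min hr one_pos, min_le_right _ _, ?_⟩
  rw [Set.disjoint_left]
  intro y hy hyS
  exact h2 (Metric.ball_subset_ball (min_le_left _ _) hy) (subset_closure hyS)

/-- The remainder, for functions bounded by `R`. -/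
theorem gen_rem {n : ℕ} {w : E n → ℂ} {H : E n → ℝ} {R : ℝ}
    (hm : AEStronglyMeasurable (fun x : S n => w x) (sm n))
    (hb : ∀ᵐ x : S n ∂(sm n), ‖w x‖ ≤ R) (hH : Continuous H)
    (hH1 : ∀ y, ‖y‖ = 1 → 0 ≤ H y ∧ H y ≤ 1) (ξ : E n) :
    ‖extn (fun y => ((1 - H y : ℝ) : ℂ) * w y) ξ - extn w ξ‖ₑ ≤
      ENNReal.ofReal R * sm n {y : S n | H y ≠ 0} := by
  have h1 : Integrable (fun x : S n => w x *
      Complex.exp (((-(2 * π * inner ℝ (x : E n) ξ) : ℝ) : ℂ) * Complex.I)) (sm n) := tm_int hm hb ξ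
  have hc : Continuous fun x : S n => ((1 - H x : ℝ) : ℂ) :=
    Complex.continuous_ofReal.comp (continuous_const.sub (hH.comp continuous_subtype_val))
  have h2 : Integrable (fun x : S n => ((1 - H x : ℝ) : ℂ) * w x *
      Complex.exp (((-(2 * π * inner ℝ (x : E n) ξ) : ℝ) : ℂ) * Complex.I)) (sm n) := by
    refine tm_int (g := fun y => ((1 - H y : ℝ) : ℂ) * w y) (R := R)
      (hc.aestronglyMeasurable.mul hm) ?_ ξ
    filter_upwards [hb] with x hx
    obtain ⟨h3, h4⟩ := hH1 x (mem_sphere_zero_iff_norm.1 x.2)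
    rw [norm_mul, Complex.norm_real, Real.norm_eq_abs, abs_of_nonneg (by linarith)]
    calc (1 - H x) * ‖w x‖ ≤ 1 * R :=
          mul_le_mul (by linarith) hx (norm_nonneg _) zero_le_one
      _ = R := one_mul R
  unfold extn
  rw [← integral_sub h2 h1]
  refine (enorm_integral_le_lintegral_enorm _).trans ?_
  have hme : MeasurableSet {y : S n | H y ≠ 0} :=
    (isClosed_singleton.isOpen_compl.preimage (hH.comp continuous_subtype_val)).measurableSet
  rw [← lintegral_indicator_const hme]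
  refine lintegral_mono_ae ?_
  filter_upwards [hb] with x hx
  have e : ((1 - H x : ℝ) : ℂ) * w x *
      Complex.exp (((-(2 * π * inner ℝ (x : E n) ξ) : ℝ) : ℂ) * Complex.I) - w x *
      Complex.exp (((-(2 * π * inner ℝ (x : E n) ξ) : ℝ) : ℂ) * Complex.I) =
      -((H x : ℝ) : ℂ) * w x *
        Complex.exp (((-(2 * π * inner ℝ (x : E n) ξ) : ℝ) : ℂ) * Complex.I) := by
    push_cast
    ring
  rw [e]
  by_cases h0 : H x = 0
  · rw [h0]
    simp
  · rw [indicator_of_mem (by exact h0)]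
    obtain ⟨h3, h4⟩ := hH1 x (mem_sphere_zero_iff_norm.1 x.2)
    rw [enorm_mul, enorm_mul, enorm_neg, ← ofReal_norm
      (Complex.exp (((-(2 * π * inner ℝ (x : E n) ξ) : ℝ) : ℂ) * Complex.I)),
      Complex.norm_exp_ofReal_mul_I, ENNReal.ofReal_one, mul_one, ← ofReal_norm (w x),
      ← ofReal_norm (((H x : ℝ) : ℂ)), Complex.norm_real, Real.norm_eq_abs, abs_of_nonneg h3]
    calc ENNReal.ofReal (H x) * ENNReal.ofReal ‖w x‖ ≤ 1 * ENNReal.ofReal R :=
          mul_le_mul' (ENNReal.ofReal_le_one.2 h4) (ENNReal.ofReal_le_ofReal hx)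
      _ = ENNReal.ofReal R := one_mul _

/-- The assembly: a function `w` which is bounded and continuous on the sphere off the closure of
`Sig`; every layer of caps with radius `rk k` whose doubles do not meet `Sig` has the bound
`L θ^k`. -/
theorem asm_gen (n : ℕ) (hn : 1 ≤ n) (κ : ℝ) (hκ : 0 ≤ κ) (hκn : κ < n - 1) :
    ∃ (B : ℕ → ℝ) (M : ℕ) (C0 : ℝ), 0 < C0 ∧ ∀ (p θ : ℝ), 1 ≤ p → 0 < θ → θ < 1 →
    ∃ K3 : ℝ, 0 < K3 ∧ ∀ (V : ℝ) (Sig : Set (E n)), 0 ≤ V → Cov V κ Sig →
    ∀ (w : E n → ℂ) (R : ℝ),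
      (∀ y, ‖y‖ = 1 → y ∉ closure Sig → ContinuousAt w y ∧ ‖w y‖ ≤ R) → ∀ L : ℝ≥0∞,
      (∀ (k N : ℕ) (x : Fin N → E n) (b : Fin N → E n → ℝ),
        (N : ℝ) ≤ C0 * (1 + V) * ((2 : ℝ) ^ k) ^ κ →
        (∀ i, ‖x i‖ = 1 ∧ Disjoint (Metric.ball (x i) (2 * rk k)) Sig ∧
          ContDiff ℝ ∞ (b i) ∧ (∀ j y, ‖iteratedFDeriv ℝ j (b i) y‖ ≤ B j / rk k ^ j) ∧
          ∀ y, rk k / 2 < ‖y - x i‖ → b i y = 0) →
        (∀ y, {i | ‖y - x i‖ < 4 * rk k}.encard ≤ M) →
        (∀ i, ContinuousOn (fun y => (b i y : ℂ) * w y) (Metric.sphere 0 1)) →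
        ∫⁻ ξ, ‖extn (fun y => ∑ i, (b i y : ℂ) * w y) ξ‖ₑ ^ p ≤ L * ENNReal.ofReal (θ ^ k)) →
      ∫⁻ ξ, ‖extn w ξ‖ₑ ^ p ≤ ENNReal.ofReal K3 * L := by
  obtain ⟨B, M, C0, hC0, hpart⟩ := part n hn κ hκ
  refine ⟨B, M, C0, hC0, fun p θ hp hθ0 hθ1 => ?_⟩
  obtain ⟨K3, hK3, hsum⟩ := tm_sumN (volume : Measure (E n)) p hp θ hθ0 hθ1
  refine ⟨K3, hK3, fun V Sig hV hcov w R hwc L hL => ?_⟩
  choose N x b H hN hx hovl hHc hH1 hHs hHn hHσ using hpart V Sig hV hcov
  -- the points near the centres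
  have hnear : ∀ K k i y, ‖y - x K k i‖ < 2 * rk k → y ∉ closure Sig := by
    intro K k i y hy hyS
    obtain ⟨-, h1, -⟩ := hx K k i
    have h2 : Disjoint (Metric.ball (x K k i) (2 * rk k)) (closure Sig) :=
      h1.closure_right Metric.isOpen_ball
    exact Set.disjoint_left.1 h2 (mem_ball_iff_norm.2 hy) hyS
  -- the pieces
  set g : ∀ K k, Fin (N K k) → E n → ℂ := fun K k i y => (b K k i y : ℂ) * w y with hg
  have hgc : ∀ K k i, ContinuousOn (g K k i) (Metric.sphere 0 1) := by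
    intro K k i y hy
    have hy1 : ‖y‖ = 1 := mem_sphere_zero_iff_norm.1 hy
    obtain ⟨-, -, h3, -, h5⟩ := hx K k i
    refine ContinuousAt.continuousWithinAt ?_
    by_cases hc : ‖y - x K k i‖ < 2 * rk k
    · have h6 := (hwc y hy1 (hnear K k i y hc)).1
      exact (Complex.continuous_ofReal.continuousAt.comp h3.continuous.continuousAt).mul h6
    · have h6 : ∀ᶠ z in 𝓝 y, rk k / 2 < ‖z - x K k i‖ := by
        have h7 : Continuous fun z => ‖z - x K k i‖ := by fun_prop
        refine h7.continuousAt.eventually_const_lt ?_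
        have := rk_pos k
        linarith
      have h8 : (fun _ => (0 : ℂ)) =ᶠ[𝓝 y] g K k i := by
        filter_upwards [h6] with z hz
        rw [hg]
        simp only
        rw [h5 z hz]
        simp
      exact continuousAt_const.congr h8
  have hGc : ∀ K k, ContinuousOn (fun y => ∑ i, g K k i y) (Metric.sphere 0 1) := by
    intro K k
    exact continuousOn_finsetSum _ fun i _ => hgc K k i
  have hlay : ∀ K k, ∫⁻ ξ, ‖extn (fun y => ∑ i, g K k i y) ξ‖ₑ ^ p ≤
      L * ENNReal.ofReal (θ ^ k) := fun K k =>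
    hL k (N K k) (x K k) (b K k) (hN K k) (hx K k) (hovl K k) (hgc K k)
  -- the closure of `Sig` is a null set of the sphere
  have hlim : Tendsto (fun K : ℕ => ENNReal.ofReal (C0 * (1 + V) * ((2 : ℝ) ^ K) ^
      (κ - (n - 1 : ℝ)))) atTop (𝓝 0) := by
    have h1 : Tendsto (fun K : ℕ => ((2 : ℝ) ^ K) ^ (κ - (n - 1 : ℝ))) atTop (𝓝 0) := by
      set t : ℝ := -(κ - (n - 1 : ℝ)) with ht
      have ht0 : 0 < t := by rw [ht]; linarith
      have h2 := (tendsto_rpow_neg_atTop ht0).comp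
        (tendsto_pow_atTop_atTop_of_one_lt (one_lt_two (α := ℝ)))
      have e3 : -t = κ - (n - 1 : ℝ) := by rw [ht]; ring
      rw [e3] at h2
      exact h2
    have h3 := ENNReal.tendsto_ofReal (h1.const_mul (C0 * (1 + V)))
    rw [mul_zero, ENNReal.ofReal_zero] at h3
    exact h3
  have hσ : Tendsto (fun K => sm n {y : S n | H K y ≠ 0}) atTop (𝓝 0) :=
    tendsto_of_tendsto_of_tendsto_of_le_of_le tendsto_const_nhds hlim (fun _ => bot_le) hHσ
  have hcl : sm n {y : S n | (y : E n) ∈ closure Sig} = 0 := by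
    refine le_antisymm (ge_of_tendsto' hσ fun K => measure_mono fun y hy => ?_) bot_le
    have h1 := hHs K y (mem_sphere_zero_iff_norm.1 y.2)
    have h2 : ∑ k ∈ Finset.range K, ∑ i, b K k i y = 0 := by
      refine Finset.sum_eq_zero fun k _ => Finset.sum_eq_zero fun i _ => ?_
      obtain ⟨-, -, -, -, h5⟩ := hx K k i
      refine h5 y ?_
      by_contra h6
      exact hnear K k i y (by have := rk_pos k; linarith) hy
    rw [h2] at h1
    have h3 : H K y = 1 := by linarith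
    show H K y ≠ 0
    rw [h3]
    exact one_ne_zero
  have hae : ∀ᵐ y : S n ∂(sm n), (y : E n) ∉ closure Sig := by
    rw [ae_iff]
    simpa using hcl
  have hwm : AEStronglyMeasurable (fun y : S n => w y) (sm n) := by
    set U : Set (S n) := {y : S n | (y : E n) ∉ closure Sig} with hU
    have hUo : IsOpen U := isClosed_closure.isOpen_compl.preimage continuous_subtype_val
    have h1 : ContinuousOn (fun y : S n => w y) U := by
      intro y hy
      have h2 := (hwc y (mem_sphere_zero_iff_norm.1 y.2) hy).1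
      exact (ContinuousAt.comp (f := fun y : S n => (y : E n)) h2
        continuous_subtype_val.continuousAt).continuousWithinAt
    have h3 := h1.aestronglyMeasurable (μ := sm n) hUo.measurableSet
    have h4 : (sm n).restrict U = sm n := Measure.restrict_eq_self_of_ae_mem hae
    rw [h4] at h3
    exact h3
  have hwb : ∀ᵐ y : S n ∂(sm n), ‖w y‖ ≤ R := by
    filter_upwards [hae] with y hy
    exact (hwc y (mem_sphere_zero_iff_norm.1 y.2) hy).2
  -- the sum
  refine hsum L (fun K k => extn (fun y => ∑ i, g K k i y)) (extn w)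
    (fun K k => (tm_meas (hGc K k)).aestronglyMeasurable) hlay fun ξ => ?_
  have h1 : ∀ K, ∑ k ∈ Finset.range K, extn (fun y => ∑ i, g K k i y) ξ =
      extn (fun y => ((1 - H K y : ℝ) : ℂ) * w y) ξ := by
    intro K
    rw [← tm_extn_sum (Finset.range K) (fun k y => ∑ i, g K k i y) (fun k _ => hGc K k) ξ]
    unfold extn
    refine integral_congr_ae (Filter.Eventually.of_forall fun y => ?_)
    simp only
    rw [← hHs K y (mem_sphere_zero_iff_norm.1 y.2)]
    congr 1
    rw [hg]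
    simp only
    push_cast
    rw [Finset.sum_mul]
    refine Finset.sum_congr rfl fun k _ => ?_
    rw [Finset.sum_mul]
  simp_rw [h1]
  rw [tendsto_iff_edist_tendsto_0]
  have hσR : Tendsto (fun K => ENNReal.ofReal R * sm n {y : S n | H K y ≠ 0}) atTop (𝓝 0) := by
    have h2 := ENNReal.Tendsto.const_mul (a := ENNReal.ofReal R) hσ (Or.inr ENNReal.ofReal_ne_top)
    rwa [mul_zero] at h2
  refine tendsto_of_tendsto_of_tendsto_of_le_of_le tendsto_const_nhds hσR (fun _ => bot_le)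
    fun K => ?_
  simp only
  rw [edist_eq_enorm_sub]
  exact gen_rem hwm hwb (hHc K) (hH1 K) ξ

end Pool.Agent.GNP.TM
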