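import Pool.Agent.GNP.TMD2
import Pool.Agent.GNP.TMgen
import Pool.Agent.GNP.TMc
import Pool.Agent.GNP.SP5
import Pool.Agent.GNP.FTn

/-!
# [DEC] The TAME side for all exponents: decoupling at one exponent, and the sup bound of one layer.
-/

set_option autoImplicit false

namespace Pool.Agent.GNP.TM

open MeasureTheory Set Filter Topology Pool.Agent.MP_6cbfb8_an
open scoped ENNReal ContDiff Real

/-- The sup bound of one layer. -/
theorem layer_sup (n : ℕ) (hn : 1 ≤ n) : ∃ C : ℝ, 0 < C ∧ ∀ (N : ℕ) (ρ m : ℝ)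
      (x : Fin N → E n) (g : Fin N → E n → ℂ), 0 < ρ → ρ ≤ 1 → 0 ≤ m →
      (∀ i, ContinuousOn (g i) (Metric.sphere 0 1)) →
      (∀ i y, ‖y‖ = 1 → ρ < ‖y - x i‖ → g i y = 0) →
      (∀ i y, ‖y‖ = 1 → ‖g i y‖ ≤ m) →
      ∀ ξ, ‖extn (fun y => ∑ i, g i y) ξ‖ₑ ≤ ENNReal.ofReal (C * m * ((N : ℝ) * ρ ^ (n - 1))) := by
  obtain ⟨C, hC, hcap⟩ := cap_meas n hn
  refine ⟨(C + 1) * 2 ^ (n - 1), by positivity, fun N ρ m x g hρ hρ1 hm hgc hs hgm ξ => ?_⟩
  have hone : ∀ i, ∫⁻ y : S n, ‖g i y‖ₑ ∂(sm n) ≤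
      ENNReal.ofReal (m * ((C + 1) * (2 * ρ) ^ (n - 1))) := by
    intro i
    have hme : MeasurableSet {y : S n | ‖(y : E n) - x i‖ < 2 * ρ} :=
      measurableSet_lt (by fun_prop) measurable_const
    calc ∫⁻ y : S n, ‖g i y‖ₑ ∂(sm n)
        ≤ ∫⁻ y : S n, {y : S n | ‖(y : E n) - x i‖ < 2 * ρ}.indicator
            (fun _ => ENNReal.ofReal m) y ∂(sm n) := by
          refine lintegral_mono fun y => ?_
          have hy : ‖(y : E n)‖ = 1 := mem_sphere_zero_iff_norm.1 y.2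
          by_cases h : ‖(y : E n) - x i‖ < 2 * ρ
          · rw [indicator_of_mem (by exact h), ← ofReal_norm]
            exact ENNReal.ofReal_le_ofReal (hgm i y hy)
          · rw [hs i y hy (by linarith [not_lt.1 h])]
            simp
      _ = ENNReal.ofReal m * sm n {y : S n | ‖(y : E n) - x i‖ < 2 * ρ} := by
          rw [lintegral_indicator_const hme]
      _ ≤ ENNReal.ofReal m * ENNReal.ofReal (C * (2 * ρ) ^ (n - 1)) := by
          gcongr
          exact hcap (x i) (2 * ρ) (by positivity) (by linarith)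
      _ ≤ _ := by
          rw [← ENNReal.ofReal_mul hm]
          refine ENNReal.ofReal_le_ofReal (mul_le_mul_of_nonneg_left ?_ hm)
          have : 0 ≤ (2 * ρ) ^ (n - 1) := by positivity
          nlinarith
  have hgm' : ∀ i, Measurable fun y : S n => ‖g i y‖ₑ := by
    intro i
    have h1 : Continuous fun y : S n => g i y := by
      have := (hgc i).domRestrict
      exact this
    exact h1.measurable.enorm
  unfold extn
  calc ‖∫ y : S n, (∑ i, g i y) * Complex.exp (((-(2 * π * inner ℝ (y : E n) ξ) : ℝ) : ℂ) *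
        Complex.I) ∂(sm n)‖ₑ
      ≤ ∫⁻ y : S n, ‖(∑ i, g i y) * Complex.exp (((-(2 * π * inner ℝ (y : E n) ξ) : ℝ) : ℂ) *
        Complex.I)‖ₑ ∂(sm n) := enorm_integral_le_lintegral_enorm _
    _ ≤ ∫⁻ y : S n, ∑ i, ‖g i y‖ₑ ∂(sm n) := by
        refine lintegral_mono fun y => ?_
        have h5 : ‖Complex.exp (((-(2 * π * inner ℝ (y : E n) ξ) : ℝ) : ℂ) * Complex.I)‖ₑ = 1 := by
          rw [← ofReal_norm, Complex.norm_exp_ofReal_mul_I, ENNReal.ofReal_one]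
        rw [enorm_mul, h5, mul_one]
        exact enorm_sum_le _ _
    _ = ∑ i, ∫⁻ y : S n, ‖g i y‖ₑ ∂(sm n) := lintegral_finsetSum _ fun i _ => hgm' i
    _ ≤ ∑ _i : Fin N, ENNReal.ofReal (m * ((C + 1) * (2 * ρ) ^ (n - 1))) :=
        Finset.sum_le_sum fun i _ => hone i
    _ = ENNReal.ofReal ((N : ℝ) * (m * ((C + 1) * (2 * ρ) ^ (n - 1)))) := by
        rw [Finset.sum_const, Finset.card_univ, Fintype.card_fin, nsmul_eq_mul,
          ENNReal.ofReal_mul (Nat.cast_nonneg N), ENNReal.ofReal_natCast]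
    _ = _ := by
        congr 1
        rw [mul_pow]
        ring

/-- Phases with singularities, over decoupling at the exponent `p1 ≤ p`. -/
theorem tame_sup (d : ℕ) (hd : 1 ≤ d) (p1 p κ s σ : ℝ) (hp1 : 1 ≤ p1) (hpp : p1 ≤ p) (hκ : 0 ≤ κ)
    (hκd : κ < d) (hs : 0 ≤ s) (hexp : κ * (s + 1 + (p - p1)) + σ < d * p - (d + 2))
    (horthD : OrthG (d + 1) p1 s σ)
    (hcore : ∀ ε : ℝ, 0 < ε → CoreG d p1 fun c => ENNReal.ofReal ((1 + |c|) ^ ε))
    (A : ℕ) (V ε : ℝ) (hV : 0 ≤ V) (hε : 0 < ε) : ∃ (k : ℕ) (C : ℝ≥0∞), C ≠ ⊤ ∧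
    ∀ (Sig : Set (E (d + 1))) (lam : ℝ) (ψ : E (d + 1) → ℝ) (a : E (d + 1) → ℂ),
      0 ≤ lam → Cov V κ Sig → PhsF k A lam Sig ψ → AmsF k Sig a →
      ∫⁻ ξ, ‖extn (fun x => a x * Complex.exp (((ψ x : ℝ) : ℂ) * Complex.I)) ξ‖ₑ ^ p ≤
        C * ENNReal.ofReal ((1 + lam) ^ ε) := by
  set e1 : ℝ := d * p - (d + 2) with he1
  set e2 : ℝ := d * p1 - (d + 2) with he2
  set u : ℝ := p - p1 with hu
  have hu0 : 0 ≤ u := by rw [hu]; linarith
  set s' : ℝ := s + u with hs'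
  have hs'0 : 0 ≤ s' := by rw [hs']; linarith
  -- the small exponent
  set gap : ℝ := e1 - κ * (s' + 1) - σ with hgap
  have hgap0 : 0 < gap := by
    rw [hgap, hs']
    have : κ * (s + u + 1) = κ * (s + 1 + u) := by ring
    rw [this]
    linarith
  have hA : (0 : ℝ) ≤ A := Nat.cast_nonneg A
  set δ : ℝ := min ε (gap / (2 * ((A : ℝ) + 1))) with hδ
  have hδ0 : 0 < δ := lt_min hε (by positivity)
  have hδε : δ ≤ ε := min_le_left _ _
  have hAδ : (A : ℝ) * δ ≤ gap / 2 := by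
    have h1 : δ ≤ gap / (2 * ((A : ℝ) + 1)) := min_le_right _ _
    have h2 : (A : ℝ) * δ ≤ A * (gap / (2 * ((A : ℝ) + 1))) := mul_le_mul_of_nonneg_left h1 hA
    have h3 : (A : ℝ) * (gap / (2 * ((A : ℝ) + 1))) ≤
        ((A : ℝ) + 1) * (gap / (2 * ((A : ℝ) + 1))) := by
      have : 0 ≤ gap / (2 * ((A : ℝ) + 1)) := by positivity
      nlinarith
    have h4 : ((A : ℝ) + 1) * (gap / (2 * ((A : ℝ) + 1))) = gap / 2 := by
      have : (A : ℝ) + 1 ≠ 0 := by positivity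
      field_simp
    linarith
  -- the constants
  obtain ⟨k0, C1, hC1, hcap⟩ := cap_fin hp1 hδ0 (fun B => cap d hd p1 hp1 _ (hcore δ hδ0) B)
  obtain ⟨B, M, C0, hC0, hgen⟩ := asm_gen (d + 1) (by omega) κ hκ (by push_cast; linarith)
  obtain ⟨C2, hC2, horth⟩ := horthD M
  obtain ⟨C4, hC4, hsupL⟩ := layer_sup (d + 1) (by omega)
  set M0 : ℝ := ∑ m ∈ Finset.range (k0 + 1), ∑ i ∈ Finset.range (m + 1),
    (m.choose i : ℝ) * |B i| with hM0
  have hM00 : 0 ≤ M0 := Finset.sum_nonneg fun m _ => Finset.sum_nonneg fun i _ => by positivity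
  set θ : ℝ := (2 : ℝ) ^ (κ * ((s' + 2) - 1) - (e1 - σ) + A * δ) with hθ
  have hθ0 : 0 < θ := Real.rpow_pos_of_pos two_pos _
  have hθ1 : θ < 1 := by
    rw [hθ]
    refine Real.rpow_lt_one_of_one_lt_of_neg one_lt_two ?_
    have : κ * ((s' + 2) - 1) - (e1 - σ) + A * δ = -gap + A * δ := by
      rw [hgap]; ring
    linarith
  obtain ⟨K3, hK3, hsum⟩ := hgen p θ (by linarith) hθ0 hθ1
  set c0 : ℝ := 1 / 8 with hc0
  have hc0p : 0 < c0 := by rw [hc0]; norm_num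
  set V' : ℝ := C0 * (1 + V) with hV'
  have hV'0 : 0 < V' := by positivity
  set L : ℝ := V' ^ ((s' + 2) - 1) * c0 ^ (e1 - σ) * (1 + c0 ^ (-(A : ℝ))) ^ δ with hL
  have hL0 : 0 < L := by
    have h2 : 0 < c0 ^ (-(A : ℝ)) := Real.rpow_pos_of_pos hc0p _
    have h3 : 0 < c0 ^ (e1 - σ) := Real.rpow_pos_of_pos hc0p _
    positivity
  set m0 : ℝ := |B 0| with hm0
  have hm00 : 0 ≤ m0 := abs_nonneg _
  set Q : ℝ := (C4 * m0) ^ u * M0 ^ p1 with hQ
  have hQ0 : 0 ≤ Q := by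
    have h1 : 0 ≤ (C4 * m0) ^ u := Real.rpow_nonneg (by positivity) _
    have h2 : 0 ≤ M0 ^ p1 := Real.rpow_nonneg hM00 _
    positivity
  refine ⟨k0, ENNReal.ofReal K3 * (C2 * C1 * ENNReal.ofReal (Q * L)), ?_,
    fun Sig lam ψ a hl hcov hψ ha => ?_⟩
  · exact ENNReal.mul_ne_top ENNReal.ofReal_ne_top
      (ENNReal.mul_ne_top (ENNReal.mul_ne_top hC2 hC1) ENNReal.ofReal_ne_top)
  set w : E (d + 1) → ℂ := fun y => a y * Complex.exp (((ψ y : ℝ) : ℂ) * Complex.I) with hw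
  -- the function off the closure of `Sig`
  have hwc : ∀ y, ‖y‖ = 1 → y ∉ closure Sig → ContinuousAt w y ∧ ‖w y‖ ≤ 1 := by
    intro y hy hyS
    obtain ⟨r, hr0, hr1, hd'⟩ := asm_ball hyS
    obtain ⟨h1, -⟩ := hψ y hy r hr0 hr1 hd'
    obtain ⟨h2, h3⟩ := ha y hy r hr0 hr1 hd'
    refine ⟨h2.continuousAt.mul ?_, ?_⟩
    · exact Complex.continuous_exp.continuousAt.comp
        ((Complex.continuous_ofReal.continuousAt.comp h1.continuousAt).mul continuousAt_const)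
    · rw [hw]
      simp only
      rw [norm_mul, Complex.norm_exp_ofReal_mul_I, mul_one]
      have h4 := h3 0 (Nat.zero_le _)
      rw [norm_iteratedFDeriv_zero] at h4
      simpa using h4
  have h1 := hsum V Sig hV hcov w 1 hwc
    (C2 * C1 * ENNReal.ofReal (Q * L) * ENNReal.ofReal ((1 + lam) ^ δ)) ?_
  · refine h1.trans ?_
    have h2 : (1 + lam) ^ δ ≤ (1 + lam) ^ ε := Real.rpow_le_rpow_of_exponent_le (by linarith) hδε
    calc ENNReal.ofReal K3 * (C2 * C1 * ENNReal.ofReal (Q * L) * ENNReal.ofReal ((1 + lam) ^ δ))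
        = ENNReal.ofReal K3 * (C2 * C1 * ENNReal.ofReal (Q * L)) *
          ENNReal.ofReal ((1 + lam) ^ δ) := by ring
      _ ≤ _ := by gcongr
  intro k N x b hN hx hovl hgc
  have hr0 := asm_rk_pos k
  have hnear : ∀ i y, ‖y - x i‖ < 2 * rk k → y ∉ closure Sig := by
    intro i y hy hyS
    obtain ⟨-, h1, -⟩ := hx i
    have h2 : Disjoint (Metric.ball (x i) (2 * rk k)) (closure Sig) :=
      h1.closure_right Metric.isOpen_ball
    exact Set.disjoint_left.1 h2 (mem_ball_iff_norm.2 hy) hyS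
  set g : Fin N → E (d + 1) → ℂ := fun i y => (b i y : ℂ) * w y with hg
  have hg0 : ∀ i y, rk k / 2 < ‖y - x i‖ → g i y = 0 := by
    intro i y hy
    obtain ⟨-, -, -, -, h5⟩ := hx i
    rw [hg]
    simp only
    rw [h5 y hy]
    simp
  -- one piece
  have hone : ∀ i, ∫⁻ ξ, ‖extn (g i) ξ‖ₑ ^ p1 ≤ C1 * ENNReal.ofReal
      (M0 ^ p1 * rk k ^ e2 * (1 + lam / rk k ^ A) ^ δ) := by
    intro i
    obtain ⟨h1, h2, h3, h4, h5⟩ := hx i
    have hball : ∀ y, ‖y - x i‖ ≤ rk k → Disjoint (Metric.ball y (rk k)) Sig := by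
      intro y hy
      refine h2.mono_left fun z hz => ?_
      rw [mem_ball_iff_norm] at hz ⊢
      calc ‖z - x i‖ = ‖(z - y) + (y - x i)‖ := by congr 1; abel
        _ ≤ ‖z - y‖ + ‖y - x i‖ := norm_add_le _ _
        _ < 2 * rk k := by linarith
    have h6 := hcap (x i) (rk k) (lam / rk k ^ A) M0 ψ (fun y => (b i y : ℂ) * a y) h1
      (asm_rk_pos k) (asm_rk_le k) (div_nonneg hl (pow_nonneg (asm_rk_pos k).le _)) hM00
      (fun y hy1 hy2 => ?_) (fun y hy1 hy2 => ?_) (fun y _ hy2 => ?_)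
    · have e2 : g i = fun y => (b i y : ℂ) * a y *
          Complex.exp (((ψ y : ℝ) : ℂ) * Complex.I) := by
        funext y
        rw [hg, hw]
        simp only
        ring
      rw [e2]
      exact h6
    · obtain ⟨h7, h8⟩ := hψ y hy1 (rk k) (asm_rk_pos k) (asm_rk_le k) (hball y hy2)
      refine ⟨h7, fun j hj1 hj2 => (h8 j hj1 hj2).trans_eq ?_⟩
      rw [div_div, ← pow_add]
    · obtain ⟨h7, h8⟩ := ha y hy1 (rk k) (asm_rk_pos k) (asm_rk_le k) (hball y hy2)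
      exact asm_mul k0 B (asm_rk_pos k) h3 h4 h7 h8
    · rw [h5 y hy2]
      simp
  -- the sup bound
  have hsup := hsupL N (rk k) m0 x g hr0 (asm_rk_le k) hm00 hgc
    (fun i y _ hy => hg0 i y (by linarith)) (fun i y hy => by
      by_cases h : rk k / 2 < ‖y - x i‖
      · rw [hg0 i y h, norm_zero]
        exact hm00
      · have h2 : ‖w y‖ ≤ 1 := (hwc y hy (hnear i y (by linarith [not_lt.1 h]))).2
        obtain ⟨-, -, -, h4, -⟩ := hx i
        have h3 := h4 0 y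
        rw [norm_iteratedFDeriv_zero, pow_zero, div_one] at h3
        rw [hg]
        simp only
        rw [norm_mul, Complex.norm_real]
        calc ‖b i y‖ * ‖w y‖ ≤ m0 * 1 :=
              mul_le_mul (h3.trans (le_abs_self _)) h2 (norm_nonneg _) hm00
          _ = m0 := mul_one _)
  have hd1 : d + 1 - 1 = d := by omega
  rw [hd1] at hsup
  have h2 := horth N (rk k) x g hr0 (asm_rk_le k) hgc
    (fun i y _ hy => hg0 i y (by linarith)) hovl
  have h3 : ∑ i, ∫⁻ ξ, ‖extn (g i) ξ‖ₑ ^ p1 ≤ (N : ℝ≥0∞) * (C1 * ENNReal.ofReal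
      (M0 ^ p1 * rk k ^ e2 * (1 + lam / rk k ^ A) ^ δ)) := by
    refine (Finset.sum_le_sum fun i _ => hone i).trans ?_
    rw [Finset.sum_const, Finset.card_univ, Fintype.card_fin, nsmul_eq_mul]
  have h4 := tm_exp (e1 - σ) κ (s' + 2) A δ V' lam hV'0.le (by linarith) hl hδ0.le hA k
    N c0 hc0p (by
      rw [← Real.rpow_natCast (2 : ℝ) k, ← Real.rpow_mul zero_le_two] at hN
      exact hN)
  have hrk : c0 * (1 / 2 : ℝ) ^ k = rk k := rfl
  rw [hrk] at h4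
  have h5 : 1 + lam / rk k ^ A ≤ 1 + (1 + lam) * rk k ^ (-(A : ℝ)) := by
    rw [Real.rpow_neg hr0.le, Real.rpow_natCast, ← div_eq_mul_inv]
    have : lam / rk k ^ A ≤ (1 + lam) / rk k ^ A := by
      gcongr
      linarith
    linarith
  have h6 : (1 + lam / rk k ^ A) ^ δ ≤ (1 + (1 + lam) * rk k ^ (-(A : ℝ))) ^ δ := by
    refine Real.rpow_le_rpow ?_ h5 hδ0.le
    positivity
  have hN0 : (0 : ℝ) ≤ N := Nat.cast_nonneg N
  -- the numbers
  have h7 : (C4 * m0 * ((N : ℝ) * rk k ^ d)) ^ u * (rk k ^ (-σ) * ((N : ℝ) ^ (s + 1) *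
      (M0 ^ p1 * rk k ^ e2 * (1 + lam / rk k ^ A) ^ δ))) ≤
      Q * L * (1 + lam) ^ δ * θ ^ k := by
    have a1 : (C4 * m0 * ((N : ℝ) * rk k ^ d)) ^ u =
        (C4 * m0) ^ u * ((N : ℝ) ^ u * rk k ^ (d * u)) := by
      rw [Real.mul_rpow (by positivity) (by positivity), Real.mul_rpow hN0 (by positivity),
        ← Real.rpow_natCast (rk k) d, ← Real.rpow_mul hr0.le]
    have a2 : (N : ℝ) ^ u * (N : ℝ) ^ (s + 1) = (N : ℝ) ^ ((s' + 2) - 1) := by
      rw [← Real.rpow_add_of_nonneg hN0 hu0 (by linarith)]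
      congr 1
      rw [hs']
      ring
    have a3 : rk k ^ (d * u) * (rk k ^ (-σ) * rk k ^ e2) = rk k ^ (e1 - σ) := by
      rw [← Real.rpow_add hr0, ← Real.rpow_add hr0]
      congr 1
      rw [he1, he2, hu]
      ring
    have a4 : (N : ℝ) ^ ((s' + 2) - 1) *
        (rk k ^ (e1 - σ) * (1 + lam / rk k ^ A) ^ δ) ≤ L * (1 + lam) ^ δ * θ ^ k := by
      refine le_trans ?_ h4
      gcongr
    rw [a1]
    calc (C4 * m0) ^ u * ((N : ℝ) ^ u * rk k ^ (d * u)) * (rk k ^ (-σ) * ((N : ℝ) ^ (s + 1) *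
          (M0 ^ p1 * rk k ^ e2 * (1 + lam / rk k ^ A) ^ δ)))
        = Q * (((N : ℝ) ^ u * (N : ℝ) ^ (s + 1)) * ((rk k ^ (d * u) * (rk k ^ (-σ) *
          rk k ^ e2)) * (1 + lam / rk k ^ A) ^ δ)) := by rw [hQ]; ring
      _ = Q * ((N : ℝ) ^ ((s' + 2) - 1) *
          (rk k ^ (e1 - σ) * (1 + lam / rk k ^ A) ^ δ)) := by rw [a2, a3]
      _ ≤ Q * (L * (1 + lam) ^ δ * θ ^ k) := mul_le_mul_of_nonneg_left a4 hQ0
      _ = _ := by ring
  have hcard := asm_card N (s + 2)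
  rw [show s + 2 - 2 = s by ring, show s + 2 - 1 = s + 1 by ring] at hcard
  set SS : ℝ := C4 * m0 * ((N : ℝ) * rk k ^ d) with hSS
  have hSS0 : 0 ≤ SS := by positivity
  have hSSt : ENNReal.ofReal SS ^ u ≠ ⊤ :=
    ENNReal.rpow_ne_top_of_nonneg hu0 ENNReal.ofReal_ne_top
  have hnn : 0 ≤ rk k ^ (-σ) * ((N : ℝ) ^ (s + 1) *
      (M0 ^ p1 * rk k ^ e2 * (1 + lam / rk k ^ A) ^ δ)) := by positivity
  calc ∫⁻ ξ, ‖extn (fun y => ∑ i, (b i y : ℂ) * w y) ξ‖ₑ ^ p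
      ≤ ∫⁻ ξ, ENNReal.ofReal SS ^ u * ‖extn (fun y => ∑ i, g i y) ξ‖ₑ ^ p1 := by
        refine lintegral_mono fun ξ => ?_
        have e3 : ‖extn (fun y => ∑ i, (b i y : ℂ) * w y) ξ‖ₑ ^ p =
            ‖extn (fun y => ∑ i, g i y) ξ‖ₑ ^ u * ‖extn (fun y => ∑ i, g i y) ξ‖ₑ ^ p1 := by
          rw [← ENNReal.rpow_add_of_nonneg _ _ hu0 (by linarith)]
          congr 1
          rw [hu]
          ring
        beta_reduce
        rw [e3]
        gcongr
        exact hsup ξ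
    _ = ENNReal.ofReal SS ^ u * ∫⁻ ξ, ‖extn (fun y => ∑ i, g i y) ξ‖ₑ ^ p1 :=
        lintegral_const_mul' _ _ hSSt
    _ ≤ ENNReal.ofReal SS ^ u * (C2 * ENNReal.ofReal (rk k ^ (-σ)) * (N : ℝ≥0∞) ^ s *
          ((N : ℝ≥0∞) * (C1 * ENNReal.ofReal
            (M0 ^ p1 * rk k ^ e2 * (1 + lam / rk k ^ A) ^ δ)))) :=
        mul_le_mul_right (h2.trans (mul_le_mul_right h3 _)) _
    _ = C2 * C1 * (ENNReal.ofReal SS ^ u * (ENNReal.ofReal (rk k ^ (-σ)) *
          (((N : ℝ≥0∞) ^ s * (N : ℝ≥0∞)) * ENNReal.ofReal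
            (M0 ^ p1 * rk k ^ e2 * (1 + lam / rk k ^ A) ^ δ)))) := by ring
    _ ≤ C2 * C1 * (ENNReal.ofReal SS ^ u * (ENNReal.ofReal (rk k ^ (-σ)) *
          (ENNReal.ofReal ((N : ℝ) ^ (s + 1)) * ENNReal.ofReal
            (M0 ^ p1 * rk k ^ e2 * (1 + lam / rk k ^ A) ^ δ)))) := by gcongr
    _ = C2 * C1 * ENNReal.ofReal (SS ^ u * (rk k ^ (-σ) * ((N : ℝ) ^ (s + 1) *
          (M0 ^ p1 * rk k ^ e2 * (1 + lam / rk k ^ A) ^ δ)))) := by
        rw [ENNReal.ofReal_rpow_of_nonneg hSS0 hu0,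
          ← ENNReal.ofReal_mul (p := (N : ℝ) ^ (s + 1)) (by positivity),
          ← ENNReal.ofReal_mul (p := rk k ^ (-σ)) (by positivity),
          ← ENNReal.ofReal_mul (p := SS ^ u) (by positivity)]
    _ ≤ C2 * C1 * ENNReal.ofReal (Q * L * (1 + lam) ^ δ * θ ^ k) := by
        gcongr
    _ = _ := by
        rw [ENNReal.ofReal_mul (by positivity), ENNReal.ofReal_mul (by positivity)]
        ring

/-- **Phases with singularities, over local decoupling at the exponent `2n/(n-1)`.** -/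
theorem tame_dec_all (n : ℕ) (hn : 3 ≤ n) (p κ : ℝ) (hp : 2 * (n : ℝ) / (n - 1) < p) (hκ : 0 ≤ κ)
    (hexp : κ * (p - n / (n - 1)) < (n - 1) * p - (n + 1))
    (hloc : LocDec n (2 * (n : ℝ) / (n - 1))) (A : ℕ) (V ε : ℝ) (hV : 0 ≤ V) (hε : 0 < ε) :
    ∃ (k : ℕ) (C : ℝ≥0∞), C ≠ ⊤ ∧
    ∀ (Sig : Set (E n)) (lam : ℝ) (ψ : E n → ℝ) (a : E n → ℂ),
      0 ≤ lam → Cov V κ Sig → PhsF k A lam Sig ψ → AmsF k Sig a →
      ∫⁻ ξ, ‖extn (fun x => a x * Complex.exp (((ψ x : ℝ) : ℂ) * Complex.I)) ξ‖ₑ ^ p ≤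
        C * ENNReal.ofReal ((1 + lam) ^ ε) := by
  obtain ⟨d, rfl⟩ : ∃ m, n = m + 1 := ⟨n - 1, by omega⟩
  have hd : 2 ≤ d := by omega
  have hd0 : (2 : ℝ) ≤ d := by exact_mod_cast hd
  have hd1 : (0 : ℝ) < d := by linarith
  push_cast at hp hexp hloc
  have e1 : (d : ℝ) + 1 - 1 = d := by ring
  rw [e1] at hp hexp hloc
  set q : ℝ := 2 * ((d : ℝ) + 1) / d with hq
  have hdq : d * q = 2 * (d + 1) := by
    rw [hq]
    field_simp
  have hq1 : ((d : ℝ) + 1) / d = q / 2 := by rw [hq]; ring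
  rw [hq1] at hexp
  have hq2 : 2 ≤ q := by
    by_contra hc
    have hc' : q < 2 := not_le.1 hc
    nlinarith
  have hκd : κ < d := by
    by_contra hc
    have hc' : (d : ℝ) ≤ κ := not_lt.1 hc
    have h1 : (d : ℝ) * (p - q / 2) ≤ κ * (p - q / 2) :=
      mul_le_mul_of_nonneg_right hc' (by linarith)
    nlinarith
  set gap : ℝ := d * p - (d + 2) - κ * (p - q / 2) with hgap
  have hgap0 : 0 < gap := by
    rw [hgap]
    linarith
  set t : ℝ := min (p - q) (gap / (4 * (d + 1))) with ht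
  have ht0 : 0 < t := lt_min (by linarith) (by positivity)
  have ht1 : (d + 1) * t ≤ gap / 4 := by
    have h1 : t ≤ gap / (4 * (d + 1)) := min_le_right _ _
    calc (d + 1) * t ≤ (d + 1) * (gap / (4 * (d + 1))) := by gcongr
      _ = gap / 4 := by field_simp
  have htp : t ≤ p - q := min_le_left _ _
  set p1 : ℝ := q + t with hp1
  have hp10 : 0 < p1 := by linarith
  have h1q : 1 - q / p1 ≤ t / 2 := by
    have h2 : 1 - q / p1 = t / p1 := by
      rw [eq_div_iff hp10.ne', sub_mul, one_mul, div_mul_cancel₀ _ hp10.ne', hp1]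
      ring
    rw [h2]
    exact div_le_div_of_nonneg_left ht0.le two_pos (by linarith)
  refine tame_sup d (by omega) p1 p κ (p1 / 2 - 1 + (p1 - q) / 2)
    (gap / 4 + 2 * ((d + 1 : ℕ) : ℝ) * (1 - q / p1)) (by linarith) (by linarith) hκ hκd
    (by linarith) ?_ (orthG_of_loc hq2 (by linarith) (by positivity) hloc)
    (fun ε' hε' => coreG5 d hd (ft d) p1 ε' (by rw [← hq]; linarith) hε') A V ε hV hε
  have h2 : 2 * ((d + 1 : ℕ) : ℝ) * (1 - q / p1) ≤ gap / 4 := by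
    push_cast
    calc 2 * ((d : ℝ) + 1) * (1 - q / p1) ≤ 2 * (d + 1) * (t / 2) := by gcongr
      _ = (d + 1) * t := by ring
      _ ≤ gap / 4 := ht1
  have h3 : κ * (p1 / 2 - 1 + (p1 - q) / 2 + 1 + (p - p1)) = κ * (p - q / 2) := by ring
  rw [h3]
  have h4 : κ * (p - q / 2) = d * p - (d + 2) - gap := by rw [hgap]; ring
  rw [h4]
  linarith

end Pool.Agent.GNP.TM
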