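import Pool.Agent.GNP.TMS

/-!
Almost orthogonality in `L²` and `L⁴` on balls of radius `1/ρ`.
-/

set_option autoImplicit false

namespace Pool.Agent.GNP.TMR

open MeasureTheory Set Pool.Agent.MP_6cbfb8_an SchwartzMap
open scoped ENNReal Real RealInnerProductSpace ContDiff ComplexConjugate

/-- Almost orthogonality in `L⁴`. -/
theorem l4_orth {n : ℕ} {T : 𝓢(E n, ℂ)} {t : E n → ℝ} (hTt : ∀ ξ, T ξ = t ξ) (ht : ∀ ξ, 0 ≤ t ξ)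
    (hT : ∀ x : E n, 1 / 4 ≤ ‖x‖ →
      ∫ ξ, T ξ * Complex.exp (((2 * π * ⟪ξ, x⟫ : ℝ) : ℂ) * Complex.I) = 0)
    {ι : Type} [DecidableEq ι] (I : Finset ι) (w : ι → E n) (F : ι → E n → ℂ) {ρ : ℝ} (hρ : 0 < ρ)
    (hF : ∀ i, Spec (w i) ρ (F i)) (Q : ℕ)
    (hQ : ∀ i ∈ I, ((I ×ˢ I ×ˢ I).filter fun τ => ‖w i + w τ.1 - w τ.2.1 - w τ.2.2‖ ≤ 5 * ρ).card ≤ Q)
    (ξ0 : E n) :
    ∫ ξ, t (ρ • (ξ - ξ0)) * ‖∑ i ∈ I, F i ξ‖ ^ 4 ≤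
      Q * ∑ i ∈ I, ∫ ξ, t (ρ • (ξ - ξ0)) * ‖F i ξ‖ ^ 4 := by
  set J : Finset (ι × ι × ι × ι) := I ×ˢ I ×ˢ I ×ˢ I with hJ
  set P : ι × ι × ι × ι → E n → ℂ := fun τ ξ =>
    (F τ.1 ξ * F τ.2.1 ξ) * (conj (F τ.2.2.1 ξ) * conj (F τ.2.2.2 ξ)) with hP
  have hPs : ∀ τ, Spec ((w τ.1 + w τ.2.1) + (-w τ.2.2.1 + -w τ.2.2.2)) ((ρ + ρ) + (ρ + ρ)) (P τ) :=
    fun τ => ((hF _).mul (hF _)).mul ((hF _).conj.mul (hF _).conj)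
  have hPn : ∀ τ ξ, ‖P τ ξ‖ = ‖F τ.1 ξ‖ * ‖F τ.2.1 ξ‖ * (‖F τ.2.2.1 ξ‖ * ‖F τ.2.2.2 ξ‖) := by
    intro τ ξ
    simp [hP]
  have hexp : ∀ ξ, ((‖∑ i ∈ I, F i ξ‖ ^ 4 : ℝ) : ℂ) = ∑ τ ∈ J, P τ ξ := by
    intro ξ
    have h1 : ∀ z : ℂ, ((‖z‖ ^ 4 : ℝ) : ℂ) = (z * z) * (conj z * conj z) := by
      intro z
      have h2 : z * conj z = ((‖z‖ ^ 2 : ℝ) : ℂ) := by
        rw [Complex.mul_conj, Complex.normSq_eq_norm_sq]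
      calc ((‖z‖ ^ 4 : ℝ) : ℂ) = ((‖z‖ ^ 2 : ℝ) : ℂ) * ((‖z‖ ^ 2 : ℝ) : ℂ) := by
            push_cast; ring
        _ = _ := by rw [← h2]; ring
    rw [h1, map_sum, hJ]
    simp only [Finset.sum_product, hP, ← Finset.mul_sum, ← Finset.sum_mul]
  set A : Finset (ι × ι × ι × ι) := J.filter fun τ =>
    ‖w τ.1 + w τ.2.1 - w τ.2.2.1 - w τ.2.2.2‖ ≤ 5 * ρ with hA
  have hint : ∀ τ, Integrable fun ξ : E n => T (ρ • (ξ - ξ0)) * P τ ξ := by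
    intro τ
    obtain ⟨B, -, hB⟩ := (hPs τ).bdd
    exact weight_integrable T hρ ξ0 (hPs τ).cont hB
  have hvan : ∀ τ ∈ J, τ ∉ A → ∫ ξ, T (ρ • (ξ - ξ0)) * P τ ξ = 0 := by
    intro τ hτ hτA
    refine (hPs τ).vanish hT hρ ?_ ξ0
    have h1 : ¬ ‖w τ.1 + w τ.2.1 - w τ.2.2.1 - w τ.2.2.2‖ ≤ 5 * ρ := fun h =>
      hτA (Finset.mem_filter.2 ⟨hτ, h⟩)
    have h2 : (w τ.1 + w τ.2.1) + (-w τ.2.2.1 + -w τ.2.2.2) =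
      w τ.1 + w τ.2.1 - w τ.2.2.1 - w τ.2.2.2 := by abel
    rw [h2]
    linarith [not_le.1 h1]
  -- the quartic integrals
  set V : ι → ℝ := fun i => ∫ ξ, t (ρ • (ξ - ξ0)) * ‖F i ξ‖ ^ 4 with hV
  have hVint : ∀ i, Integrable fun ξ : E n => t (ρ • (ξ - ξ0)) * ‖F i ξ‖ ^ 4 := by
    intro i
    obtain ⟨B, hB0, hB⟩ := (hF i).bdd
    have h1 : Integrable fun ξ : E n => T (ρ • (ξ - ξ0)) * ((‖F i ξ‖ ^ 4 : ℝ) : ℂ) := by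
      refine weight_integrable T hρ ξ0 ?_ (B := B ^ 4) fun ξ => ?_
      · exact Complex.continuous_ofReal.comp ((hF i).cont.norm.pow 4)
      · rw [Complex.norm_real, Real.norm_eq_abs, abs_of_nonneg (by positivity)]
        exact pow_le_pow_left₀ (norm_nonneg _) (hB ξ) 4
    refine h1.re.congr (Filter.Eventually.of_forall fun ξ => ?_)
    simp only [hTt]
    rw [← Complex.ofReal_mul]
    rfl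
  have hbound : ∀ τ ∈ A, ‖∫ ξ, T (ρ • (ξ - ξ0)) * P τ ξ‖ ≤
      (V τ.1 + V τ.2.1 + V τ.2.2.1 + V τ.2.2.2) / 4 := by
    intro τ _
    have i2 : Integrable fun ξ : E n => t (ρ • (ξ - ξ0)) * ‖F τ.1 ξ‖ ^ 4 +
        t (ρ • (ξ - ξ0)) * ‖F τ.2.1 ξ‖ ^ 4 := (hVint τ.1).add (hVint τ.2.1)
    have i3 : Integrable fun ξ : E n => t (ρ • (ξ - ξ0)) * ‖F τ.1 ξ‖ ^ 4 +
        t (ρ • (ξ - ξ0)) * ‖F τ.2.1 ξ‖ ^ 4 + t (ρ • (ξ - ξ0)) * ‖F τ.2.2.1 ξ‖ ^ 4 :=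
      i2.add (hVint τ.2.2.1)
    have i4 : Integrable fun ξ : E n => t (ρ • (ξ - ξ0)) * ‖F τ.1 ξ‖ ^ 4 +
        t (ρ • (ξ - ξ0)) * ‖F τ.2.1 ξ‖ ^ 4 + t (ρ • (ξ - ξ0)) * ‖F τ.2.2.1 ξ‖ ^ 4 +
        t (ρ • (ξ - ξ0)) * ‖F τ.2.2.2 ξ‖ ^ 4 := i3.add (hVint τ.2.2.2)
    have h1 : (V τ.1 + V τ.2.1 + V τ.2.2.1 + V τ.2.2.2) / 4 =
        ∫ ξ, (t (ρ • (ξ - ξ0)) * ‖F τ.1 ξ‖ ^ 4 + t (ρ • (ξ - ξ0)) * ‖F τ.2.1 ξ‖ ^ 4 +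
          t (ρ • (ξ - ξ0)) * ‖F τ.2.2.1 ξ‖ ^ 4 + t (ρ • (ξ - ξ0)) * ‖F τ.2.2.2 ξ‖ ^ 4) / 4 := by
      rw [integral_div, integral_add i3 (hVint _), integral_add i2 (hVint _),
        integral_add (hVint _) (hVint _)]
    rw [h1]
    refine (norm_integral_le_integral_norm _).trans (integral_mono_of_nonneg
      (Filter.Eventually.of_forall fun ξ => norm_nonneg _)
      (i4.div_const 4)
      (Filter.Eventually.of_forall fun ξ => ?_))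
    simp only [norm_mul, hPn, hTt, Complex.norm_real, Real.norm_eq_abs, abs_of_nonneg (ht _)]
    have h2 : ‖F τ.1 ξ‖ * ‖F τ.2.1 ξ‖ * (‖F τ.2.2.1 ξ‖ * ‖F τ.2.2.2 ξ‖) ≤
        (‖F τ.1 ξ‖ ^ 4 + ‖F τ.2.1 ξ‖ ^ 4 + ‖F τ.2.2.1 ξ‖ ^ 4 + ‖F τ.2.2.2 ξ‖ ^ 4) / 4 := by
      nlinarith [sq_nonneg (‖F τ.1 ξ‖ * ‖F τ.2.1 ξ‖ - ‖F τ.2.2.1 ξ‖ * ‖F τ.2.2.2 ξ‖),
        sq_nonneg (‖F τ.1 ξ‖ ^ 2 - ‖F τ.2.1 ξ‖ ^ 2),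
        sq_nonneg (‖F τ.2.2.1 ξ‖ ^ 2 - ‖F τ.2.2.2 ξ‖ ^ 2)]
    calc t (ρ • (ξ - ξ0)) * (‖F τ.1 ξ‖ * ‖F τ.2.1 ξ‖ * (‖F τ.2.2.1 ξ‖ * ‖F τ.2.2.2 ξ‖)) ≤
        t (ρ • (ξ - ξ0)) *
          ((‖F τ.1 ξ‖ ^ 4 + ‖F τ.2.1 ξ‖ ^ 4 + ‖F τ.2.2.1 ξ‖ ^ 4 + ‖F τ.2.2.2 ξ‖ ^ 4) / 4) :=
          mul_le_mul_of_nonneg_left h2 (ht _)
      _ = _ := by ring
  have hmain : ((∫ ξ, t (ρ • (ξ - ξ0)) * ‖∑ i ∈ I, F i ξ‖ ^ 4 : ℝ) : ℂ) =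
      ∑ τ ∈ A, ∫ ξ, T (ρ • (ξ - ξ0)) * P τ ξ := by
    rw [← integral_complex_ofReal]
    calc ∫ ξ, ((t (ρ • (ξ - ξ0)) * ‖∑ i ∈ I, F i ξ‖ ^ 4 : ℝ) : ℂ) =
        ∫ ξ, ∑ τ ∈ J, T (ρ • (ξ - ξ0)) * P τ ξ := by
          refine integral_congr_ae (Filter.Eventually.of_forall fun ξ => ?_)
          beta_reduce
          rw [Complex.ofReal_mul, hexp, ← hTt, Finset.mul_sum]
      _ = ∑ τ ∈ J, ∫ ξ, T (ρ • (ξ - ξ0)) * P τ ξ := integral_finsetSum _ fun τ _ => hint τ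
      _ = _ := (Finset.sum_subset (Finset.filter_subset _ _) fun τ hτ hτA => hvan τ hτ hτA).symm
  have hV0 : ∀ i, 0 ≤ V i := fun i => integral_nonneg fun ξ => mul_nonneg (ht _) (by positivity)
  have h1 : ∫ ξ, t (ρ • (ξ - ξ0)) * ‖∑ i ∈ I, F i ξ‖ ^ 4 ≤
      ∑ τ ∈ A, (V τ.1 + V τ.2.1 + V τ.2.2.1 + V τ.2.2.2) / 4 := by
    calc _ ≤ ‖((∫ ξ, t (ρ • (ξ - ξ0)) * ‖∑ i ∈ I, F i ξ‖ ^ 4 : ℝ) : ℂ)‖ := by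
          rw [Complex.norm_real]; exact le_abs_self _
      _ ≤ ∑ τ ∈ A, ‖∫ ξ, T (ρ • (ξ - ξ0)) * P τ ξ‖ := by
          rw [hmain]; exact norm_sum_le _ _
      _ ≤ _ := Finset.sum_le_sum hbound
  refine h1.trans ?_
  -- counting
  have hcount : ∑ τ ∈ A, V τ.1 ≤ Q * ∑ i ∈ I, V i := by
    rw [hA, hJ, Finset.sum_filter, Finset.sum_product, Finset.mul_sum]
    refine Finset.sum_le_sum fun i hi => ?_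
    have h3 : ∑ y ∈ I ×ˢ I ×ˢ I, (if ‖w i + w y.1 - w y.2.1 - w y.2.2‖ ≤ 5 * ρ then V i else 0) =
        (((I ×ˢ I ×ˢ I).filter fun τ => ‖w i + w τ.1 - w τ.2.1 - w τ.2.2‖ ≤ 5 * ρ).card : ℝ) *
          V i := by
      rw [← Finset.sum_filter, Finset.sum_const, nsmul_eq_mul]
    refine h3.le.trans ?_
    exact mul_le_mul_of_nonneg_right (by exact_mod_cast hQ i hi) (hV0 i)
  have e2 : ∑ τ ∈ A, V τ.2.1 = ∑ τ ∈ A, V τ.1 := by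
    refine Finset.sum_nbij' (fun τ => (τ.2.1, τ.1, τ.2.2.1, τ.2.2.2))
      (fun τ => (τ.2.1, τ.1, τ.2.2.1, τ.2.2.2)) ?_ ?_ ?_ ?_ ?_
    · intro τ hτ
      simp only [hA, hJ, Finset.mem_filter, Finset.mem_product] at hτ ⊢
      refine ⟨⟨hτ.1.2.1, hτ.1.1, hτ.1.2.2.1, hτ.1.2.2.2⟩, ?_⟩
      rw [add_comm (w τ.2.1)]; exact hτ.2
    · intro τ hτ
      simp only [hA, hJ, Finset.mem_filter, Finset.mem_product] at hτ ⊢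
      refine ⟨⟨hτ.1.2.1, hτ.1.1, hτ.1.2.2.1, hτ.1.2.2.2⟩, ?_⟩
      rw [add_comm (w τ.2.1)]; exact hτ.2
    · intro τ _; rfl
    · intro τ _; rfl
    · intro τ _; rfl
  have e3 : ∑ τ ∈ A, V τ.2.2.1 = ∑ τ ∈ A, V τ.1 := by
    refine Finset.sum_nbij' (fun τ => (τ.2.2.1, τ.2.2.2, τ.1, τ.2.1))
      (fun τ => (τ.2.2.1, τ.2.2.2, τ.1, τ.2.1)) ?_ ?_ ?_ ?_ ?_
    · intro τ hτ
      simp only [hA, hJ, Finset.mem_filter, Finset.mem_product] at hτ ⊢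
      refine ⟨⟨hτ.1.2.2.1, hτ.1.2.2.2, hτ.1.1, hτ.1.2.1⟩, ?_⟩
      have h2 : w τ.2.2.1 + w τ.2.2.2 - w τ.1 - w τ.2.1 =
        -(w τ.1 + w τ.2.1 - w τ.2.2.1 - w τ.2.2.2) := by abel
      rw [h2, norm_neg]; exact hτ.2
    · intro τ hτ
      simp only [hA, hJ, Finset.mem_filter, Finset.mem_product] at hτ ⊢
      refine ⟨⟨hτ.1.2.2.1, hτ.1.2.2.2, hτ.1.1, hτ.1.2.1⟩, ?_⟩
      have h2 : w τ.2.2.1 + w τ.2.2.2 - w τ.1 - w τ.2.1 =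
        -(w τ.1 + w τ.2.1 - w τ.2.2.1 - w τ.2.2.2) := by abel
      rw [h2, norm_neg]; exact hτ.2
    · intro τ _; rfl
    · intro τ _; rfl
    · intro τ _; rfl
  have e4 : ∑ τ ∈ A, V τ.2.2.2 = ∑ τ ∈ A, V τ.2.2.1 := by
    refine Finset.sum_nbij' (fun τ => (τ.1, τ.2.1, τ.2.2.2, τ.2.2.1))
      (fun τ => (τ.1, τ.2.1, τ.2.2.2, τ.2.2.1)) ?_ ?_ ?_ ?_ ?_
    · intro τ hτ
      simp only [hA, hJ, Finset.mem_filter, Finset.mem_product] at hτ ⊢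
      refine ⟨⟨hτ.1.1, hτ.1.2.1, hτ.1.2.2.2, hτ.1.2.2.1⟩, ?_⟩
      rw [sub_right_comm]; exact hτ.2
    · intro τ hτ
      simp only [hA, hJ, Finset.mem_filter, Finset.mem_product] at hτ ⊢
      refine ⟨⟨hτ.1.1, hτ.1.2.1, hτ.1.2.2.2, hτ.1.2.2.1⟩, ?_⟩
      rw [sub_right_comm]; exact hτ.2
    · intro τ _; rfl
    · intro τ _; rfl
    · intro τ _; rfl
  have h2 : ∑ τ ∈ A, (V τ.1 + V τ.2.1 + V τ.2.2.1 + V τ.2.2.2) / 4 = ∑ τ ∈ A, V τ.1 := by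
    rw [← Finset.sum_div, Finset.sum_add_distrib, Finset.sum_add_distrib, Finset.sum_add_distrib,
      e4, e3, e2]
    ring
  rw [h2]
  exact hcount

/-- Almost orthogonality in `L²`. -/
theorem l2_orth {n : ℕ} {T : 𝓢(E n, ℂ)} {t : E n → ℝ} (hTt : ∀ ξ, T ξ = t ξ) (ht : ∀ ξ, 0 ≤ t ξ)
    (hT : ∀ x : E n, 1 / 4 ≤ ‖x‖ →
      ∫ ξ, T ξ * Complex.exp (((2 * π * ⟪ξ, x⟫ : ℝ) : ℂ) * Complex.I) = 0)
    {ι : Type} [DecidableEq ι] (I : Finset ι) (w : ι → E n) (F : ι → E n → ℂ) {ρ : ℝ} (hρ : 0 < ρ)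
    (hF : ∀ i, Spec (w i) ρ (F i)) (Q : ℕ)
    (hQ : ∀ i ∈ I, (I.filter fun j => ‖w i - w j‖ ≤ 3 * ρ).card ≤ Q)
    (ξ0 : E n) :
    ∫ ξ, t (ρ • (ξ - ξ0)) * ‖∑ i ∈ I, F i ξ‖ ^ 2 ≤
      Q * ∑ i ∈ I, ∫ ξ, t (ρ • (ξ - ξ0)) * ‖F i ξ‖ ^ 2 := by
  set J : Finset (ι × ι) := I ×ˢ I with hJ
  set P : ι × ι → E n → ℂ := fun τ ξ => F τ.1 ξ * conj (F τ.2 ξ) with hP
  have hPs : ∀ τ, Spec (w τ.1 + -w τ.2) (ρ + ρ) (P τ) := fun τ => (hF _).mul (hF _).conj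
  have hPn : ∀ τ ξ, ‖P τ ξ‖ = ‖F τ.1 ξ‖ * ‖F τ.2 ξ‖ := by
    intro τ ξ
    simp [hP]
  have hexp : ∀ ξ, ((‖∑ i ∈ I, F i ξ‖ ^ 2 : ℝ) : ℂ) = ∑ τ ∈ J, P τ ξ := by
    intro ξ
    have h1 : ∀ z : ℂ, ((‖z‖ ^ 2 : ℝ) : ℂ) = z * conj z := by
      intro z
      rw [Complex.mul_conj, Complex.normSq_eq_norm_sq]
    rw [h1, map_sum, hJ]
    simp only [Finset.sum_product, hP, ← Finset.mul_sum, ← Finset.sum_mul]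
  set A : Finset (ι × ι) := J.filter fun τ => ‖w τ.1 - w τ.2‖ ≤ 3 * ρ with hA
  have hint : ∀ τ, Integrable fun ξ : E n => T (ρ • (ξ - ξ0)) * P τ ξ := by
    intro τ
    obtain ⟨B, -, hB⟩ := (hPs τ).bdd
    exact weight_integrable T hρ ξ0 (hPs τ).cont hB
  have hvan : ∀ τ ∈ J, τ ∉ A → ∫ ξ, T (ρ • (ξ - ξ0)) * P τ ξ = 0 := by
    intro τ hτ hτA
    refine (hPs τ).vanish hT hρ ?_ ξ0
    have h1 : ¬ ‖w τ.1 - w τ.2‖ ≤ 3 * ρ := fun h => hτA (Finset.mem_filter.2 ⟨hτ, h⟩)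
    rw [← sub_eq_add_neg]
    linarith [not_le.1 h1]
  set V : ι → ℝ := fun i => ∫ ξ, t (ρ • (ξ - ξ0)) * ‖F i ξ‖ ^ 2 with hV
  have hVint : ∀ i, Integrable fun ξ : E n => t (ρ • (ξ - ξ0)) * ‖F i ξ‖ ^ 2 := by
    intro i
    obtain ⟨B, hB0, hB⟩ := (hF i).bdd
    have h1 : Integrable fun ξ : E n => T (ρ • (ξ - ξ0)) * ((‖F i ξ‖ ^ 2 : ℝ) : ℂ) := by
      refine weight_integrable T hρ ξ0 ?_ (B := B ^ 2) fun ξ => ?_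
      · exact Complex.continuous_ofReal.comp ((hF i).cont.norm.pow 2)
      · rw [Complex.norm_real, Real.norm_eq_abs, abs_of_nonneg (by positivity)]
        exact pow_le_pow_left₀ (norm_nonneg _) (hB ξ) 2
    refine h1.re.congr (Filter.Eventually.of_forall fun ξ => ?_)
    simp only [hTt]
    rw [← Complex.ofReal_mul]
    rfl
  have hbound : ∀ τ ∈ A, ‖∫ ξ, T (ρ • (ξ - ξ0)) * P τ ξ‖ ≤ (V τ.1 + V τ.2) / 2 := by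
    intro τ _
    have i2 : Integrable fun ξ : E n => t (ρ • (ξ - ξ0)) * ‖F τ.1 ξ‖ ^ 2 +
        t (ρ • (ξ - ξ0)) * ‖F τ.2 ξ‖ ^ 2 := (hVint τ.1).add (hVint τ.2)
    have h1 : (V τ.1 + V τ.2) / 2 =
        ∫ ξ, (t (ρ • (ξ - ξ0)) * ‖F τ.1 ξ‖ ^ 2 + t (ρ • (ξ - ξ0)) * ‖F τ.2 ξ‖ ^ 2) / 2 := by
      rw [integral_div, integral_add (hVint _) (hVint _)]
    rw [h1]
    refine (norm_integral_le_integral_norm _).trans (integral_mono_of_nonneg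
      (Filter.Eventually.of_forall fun ξ => norm_nonneg _)
      (i2.div_const 2)
      (Filter.Eventually.of_forall fun ξ => ?_))
    simp only [norm_mul, hPn, hTt, Complex.norm_real, Real.norm_eq_abs, abs_of_nonneg (ht _)]
    have h2 : ‖F τ.1 ξ‖ * ‖F τ.2 ξ‖ ≤ (‖F τ.1 ξ‖ ^ 2 + ‖F τ.2 ξ‖ ^ 2) / 2 := by
      nlinarith [sq_nonneg (‖F τ.1 ξ‖ - ‖F τ.2 ξ‖)]
    calc t (ρ • (ξ - ξ0)) * (‖F τ.1 ξ‖ * ‖F τ.2 ξ‖) ≤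
        t (ρ • (ξ - ξ0)) * ((‖F τ.1 ξ‖ ^ 2 + ‖F τ.2 ξ‖ ^ 2) / 2) :=
          mul_le_mul_of_nonneg_left h2 (ht _)
      _ = _ := by ring
  have hmain : ((∫ ξ, t (ρ • (ξ - ξ0)) * ‖∑ i ∈ I, F i ξ‖ ^ 2 : ℝ) : ℂ) =
      ∑ τ ∈ A, ∫ ξ, T (ρ • (ξ - ξ0)) * P τ ξ := by
    rw [← integral_complex_ofReal]
    calc ∫ ξ, ((t (ρ • (ξ - ξ0)) * ‖∑ i ∈ I, F i ξ‖ ^ 2 : ℝ) : ℂ) =
        ∫ ξ, ∑ τ ∈ J, T (ρ • (ξ - ξ0)) * P τ ξ := by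
          refine integral_congr_ae (Filter.Eventually.of_forall fun ξ => ?_)
          beta_reduce
          rw [Complex.ofReal_mul, hexp, ← hTt, Finset.mul_sum]
      _ = ∑ τ ∈ J, ∫ ξ, T (ρ • (ξ - ξ0)) * P τ ξ := integral_finsetSum _ fun τ _ => hint τ
      _ = _ := (Finset.sum_subset (Finset.filter_subset _ _) fun τ hτ hτA => hvan τ hτ hτA).symm
  have hV0 : ∀ i, 0 ≤ V i := fun i => integral_nonneg fun ξ => mul_nonneg (ht _) (by positivity)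
  have h1 : ∫ ξ, t (ρ • (ξ - ξ0)) * ‖∑ i ∈ I, F i ξ‖ ^ 2 ≤ ∑ τ ∈ A, (V τ.1 + V τ.2) / 2 := by
    calc _ ≤ ‖((∫ ξ, t (ρ • (ξ - ξ0)) * ‖∑ i ∈ I, F i ξ‖ ^ 2 : ℝ) : ℂ)‖ := by
          rw [Complex.norm_real]; exact le_abs_self _
      _ ≤ ∑ τ ∈ A, ‖∫ ξ, T (ρ • (ξ - ξ0)) * P τ ξ‖ := by
          rw [hmain]; exact norm_sum_le _ _
      _ ≤ _ := Finset.sum_le_sum hbound
  refine h1.trans ?_
  have hcount : ∑ τ ∈ A, V τ.1 ≤ Q * ∑ i ∈ I, V i := by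
    rw [hA, hJ, Finset.sum_filter, Finset.sum_product, Finset.mul_sum]
    refine Finset.sum_le_sum fun i hi => ?_
    have h3 : ∑ y ∈ I, (if ‖w i - w y‖ ≤ 3 * ρ then V i else 0) =
        ((I.filter fun j => ‖w i - w j‖ ≤ 3 * ρ).card : ℝ) * V i := by
      rw [← Finset.sum_filter, Finset.sum_const, nsmul_eq_mul]
    refine h3.le.trans ?_
    exact mul_le_mul_of_nonneg_right (by exact_mod_cast hQ i hi) (hV0 i)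
  have e2 : ∑ τ ∈ A, V τ.2 = ∑ τ ∈ A, V τ.1 := by
    refine Finset.sum_nbij' (fun τ => (τ.2, τ.1)) (fun τ => (τ.2, τ.1)) ?_ ?_ ?_ ?_ ?_
    · intro τ hτ
      simp only [hA, hJ, Finset.mem_filter, Finset.mem_product] at hτ ⊢
      refine ⟨⟨hτ.1.2, hτ.1.1⟩, ?_⟩
      rw [norm_sub_rev]; exact hτ.2
    · intro τ hτ
      simp only [hA, hJ, Finset.mem_filter, Finset.mem_product] at hτ ⊢
      refine ⟨⟨hτ.1.2, hτ.1.1⟩, ?_⟩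
      rw [norm_sub_rev]; exact hτ.2
    · intro τ _; rfl
    · intro τ _; rfl
    · intro τ _; rfl
  have h2 : ∑ τ ∈ A, (V τ.1 + V τ.2) / 2 = ∑ τ ∈ A, V τ.1 := by
    rw [← Finset.sum_div, Finset.sum_add_distrib, e2]
    ring
  rw [h2]
  exact hcount

end Pool.Agent.GNP.TMR
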