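import Pool.Agent.GNP.TMS

/-!
Local constancy of functions with spectrum in a ball.
-/

set_option autoImplicit false

namespace Pool.Agent.GNP.TMR

open MeasureTheory Set Pool.Agent.MP_6cbfb8_an SchwartzMap
open scoped ENNReal Real RealInnerProductSpace ContDiff ComplexConjugate

/-- Jensen's inequality for a weight. -/
theorem jensen_lint {α : Type*} [MeasurableSpace α] (μ : Measure α) {p : ℝ} (hp : 1 ≤ p)
    {k f : α → ℝ≥0∞} (hk : AEMeasurable k μ) (hf : AEMeasurable f μ) :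
    (∫⁻ a, k a * f a ∂μ) ^ p ≤ (∫⁻ a, k a ∂μ) ^ (p - 1) * ∫⁻ a, k a * f a ^ p ∂μ := by
  rcases eq_or_lt_of_le hp with h | h
  · subst h
    simp
  · have hp0 : 0 < p := by linarith
    have hpq : p.HolderConjugate (p / (p - 1)) := Real.HolderConjugate.conjExponent h
    have hq0 : 0 < p / (p - 1) := div_pos hp0 (by linarith)
    have h1 := ENNReal.lintegral_mul_le_Lp_mul_Lq μ hpq
      (f := fun a => k a ^ (1 / p) * f a) (g := fun a => k a ^ (1 / (p / (p - 1))))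
      ((hk.pow_const _).mul hf) (hk.pow_const _)
    have h2 : ∀ a, ((fun a => k a ^ (1 / p) * f a) * fun a => k a ^ (1 / (p / (p - 1)))) a =
        k a * f a := by
      intro a
      have h3 : k a ^ (1 / p) * k a ^ (1 / (p / (p - 1))) = k a := by
        rw [← ENNReal.rpow_add_of_nonneg _ _ (by positivity) (by positivity)]
        have h4 : 1 / p + 1 / (p / (p - 1)) = 1 := by
          have := hpq.inv_add_inv_eq_one
          rw [one_div, one_div]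
          exact this
        rw [h4, ENNReal.rpow_one]
      simp only [Pi.mul_apply]
      calc k a ^ (1 / p) * f a * k a ^ (1 / (p / (p - 1))) =
          (k a ^ (1 / p) * k a ^ (1 / (p / (p - 1)))) * f a := by ring
        _ = _ := by rw [h3]
    have h5 : ∀ a, (k a ^ (1 / p) * f a) ^ p = k a * f a ^ p := by
      intro a
      rw [ENNReal.mul_rpow_of_nonneg _ _ hp0.le, ← ENNReal.rpow_mul, one_div_mul_cancel hp0.ne',
        ENNReal.rpow_one]
    have h6 : ∀ a, (k a ^ (1 / (p / (p - 1)))) ^ (p / (p - 1)) = k a := by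
      intro a
      rw [← ENNReal.rpow_mul, one_div_mul_cancel hq0.ne', ENNReal.rpow_one]
    simp only [h2, h5, h6] at h1
    have h7 := ENNReal.rpow_le_rpow h1 hp0.le
    rw [ENNReal.mul_rpow_of_nonneg _ _ hp0.le, ← ENNReal.rpow_mul, ← ENNReal.rpow_mul,
      one_div_mul_cancel hp0.ne', ENNReal.rpow_one] at h7
    have h8 : 1 / (p / (p - 1)) * p = p - 1 := by
      field_simp
    rw [h8, mul_comm] at h7
    exact h7

/-- A function with spectrum in a ball is reproduced. -/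
theorem Spec.repro {n : ℕ} {R : 𝓢(E n, ℂ)} (hR : ∀ x : E n, ‖x‖ ≤ 1 →
    ∫ ξ, R ξ * Complex.exp (((2 * π * ⟪ξ, x⟫ : ℝ) : ℂ) * Complex.I) = 1) {w : E n} {ρ : ℝ}
    {F : E n → ℂ} (hF : Spec w ρ F) (hρ : 0 < ρ) (ξ : E n) :
    F ξ = ∫ η, ((ρ ^ n : ℝ) : ℂ) * R (ρ • (ξ - η)) *
      Complex.exp (((-(2 * π * ⟪w, ξ - η⟫) : ℝ) : ℂ) * Complex.I) * F η := by
  obtain ⟨X, _, μ, h, φ, hμ, hh, hφ, hs, hr⟩ := hF
  have hRi : Integrable fun η : E n => R (ρ • (ξ - η)) := by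
    have h1 : Integrable fun ζ : E n => R (ρ • ζ) := (R.integrable (μ := volume)).comp_smul hρ.ne'
    exact h1.comp_sub_left ξ
  have h1 : ∀ η, ((ρ ^ n : ℝ) : ℂ) * R (ρ • (ξ - η)) *
      Complex.exp (((-(2 * π * ⟪w, ξ - η⟫) : ℝ) : ℂ) * Complex.I) * F η =
      ∫ x, ((ρ ^ n : ℝ) : ℂ) * R (ρ • (ξ - η)) *
      Complex.exp (((-(2 * π * ⟪w, ξ - η⟫) : ℝ) : ℂ) * Complex.I) * (h x *
      Complex.exp (((-(2 * π * ⟪φ x, η⟫) : ℝ) : ℂ) * Complex.I)) ∂μ := by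
    intro η
    rw [hr, integral_const_mul]
  simp_rw [h1]
  rw [integral_integral_swap]
  · rw [hr]
    refine integral_congr_ae (Filter.Eventually.of_forall fun x => ?_)
    beta_reduce
    by_cases hx : h x = 0
    · simp [hx]
    · have h2 := hs x hx
      have h5 : ∀ η : E n, ((ρ ^ n : ℝ) : ℂ) * R (ρ • (ξ - η)) *
          Complex.exp (((-(2 * π * ⟪w, ξ - η⟫) : ℝ) : ℂ) * Complex.I) * (h x *
          Complex.exp (((-(2 * π * ⟪φ x, η⟫) : ℝ) : ℂ) * Complex.I)) =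
          (((ρ ^ n : ℝ) : ℂ) * (h x * Complex.exp (((-(2 * π * ⟪φ x, ξ⟫) : ℝ) : ℂ) * Complex.I))) *
          (fun ζ : E n => R (ρ • ζ) * Complex.exp (((2 * π * ⟪ρ • ζ, ρ⁻¹ • (φ x - w)⟫ : ℝ) : ℂ) *
            Complex.I)) (ξ - η) := by
        intro η
        have h6 : ⟪ρ • (ξ - η), ρ⁻¹ • (φ x - w)⟫ = ⟪φ x, ξ⟫ - ⟪φ x, η⟫ - ⟪w, ξ - η⟫ := by
          rw [real_inner_smul_left, real_inner_smul_right, inner_sub_right, real_inner_comm w,
            real_inner_comm (φ x), inner_sub_right (φ x)]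
          field_simp
        simp only [h6]
        have h7 : Complex.exp (((-(2 * π * ⟪w, ξ - η⟫) : ℝ) : ℂ) * Complex.I) *
            Complex.exp (((-(2 * π * ⟪φ x, η⟫) : ℝ) : ℂ) * Complex.I) =
            Complex.exp (((-(2 * π * ⟪φ x, ξ⟫) : ℝ) : ℂ) * Complex.I) *
            Complex.exp (((2 * π * (⟪φ x, ξ⟫ - ⟪φ x, η⟫ - ⟪w, ξ - η⟫) : ℝ) : ℂ) * Complex.I) := by
          rw [← Complex.exp_add, ← Complex.exp_add]
          congr 1
          push_cast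
          ring
        linear_combination ((ρ ^ n : ℝ) : ℂ) * R (ρ • (ξ - η)) * h x * h7
      simp_rw [h5]
      rw [integral_const_mul, integral_sub_left_eq_self (μ := (volume : Measure (E n)))
        (fun ζ : E n => R (ρ • ζ) * Complex.exp (((2 * π * ⟪ρ • ζ, ρ⁻¹ • (φ x - w)⟫ : ℝ) : ℂ) *
            Complex.I))]
      rw [Measure.integral_comp_smul (volume : Measure (E n)) (fun ζ : E n => R ζ *
        Complex.exp (((2 * π * ⟪ζ, ρ⁻¹ • (φ x - w)⟫ : ℝ) : ℂ) * Complex.I)) ρ]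
      rw [hR, finrank_euclideanSpace, Fintype.card_fin, abs_of_pos (by positivity)]
      · rw [Complex.real_smul, mul_one]
        have h8 : ((ρ ^ n : ℝ) : ℂ) ≠ 0 := by
          exact_mod_cast (pow_pos hρ n).ne'
        push_cast at h8 ⊢
        field_simp
      · rw [norm_smul, Real.norm_eq_abs, abs_of_pos (inv_pos.2 hρ), ← div_eq_inv_mul,
          div_le_one hρ]
        exact h2
  · have h2 : Integrable (fun z : E n × X => R (ρ • (ξ - z.1)) * h z.2)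
        ((volume : Measure (E n)).prod μ) := hRi.mul_prod hh
    refine (h2.const_mul (((ρ ^ n : ℝ) : ℂ))).mono ?_ (Filter.Eventually.of_forall fun z => ?_)
    · have h3 : Measurable fun z : E n × X =>
          Complex.exp (((-(2 * π * ⟪w, ξ - z.1⟫) : ℝ) : ℂ) * Complex.I) *
          Complex.exp (((-(2 * π * ⟪φ z.2, z.1⟫) : ℝ) : ℂ) * Complex.I) := by
        have h4 : Measurable fun z : E n × X => ⟪φ z.2, z.1⟫ :=
          (hφ.comp measurable_snd).inner measurable_fst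
        have h5 : Measurable fun z : E n × X => ⟪w, ξ - z.1⟫ := by fun_prop
        fun_prop
      have h5 := ((h2.const_mul (((ρ ^ n : ℝ) : ℂ))).aestronglyMeasurable).mul
        h3.aestronglyMeasurable
      refine h5.congr (Filter.Eventually.of_forall fun z => ?_)
      simp only [Pi.mul_apply, Function.uncurry]
      ring
    · simp only [Function.uncurry, norm_mul, Complex.norm_exp_ofReal_mul_I, mul_one, one_mul,
        mul_assoc, le_refl]

/-- A Schwartz function decays. -/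
theorem schwartz_decay {n : ℕ} (R : 𝓢(E n, ℂ)) (N : ℕ) : ∃ A : ℝ, 0 ≤ A ∧
    ∀ y : E n, ‖R y‖ ≤ A * ((1 + ‖y‖) ^ N)⁻¹ := by
  obtain ⟨C1, h1⟩ := R.decay N 0
  obtain ⟨C0, h0⟩ := R.decay 0 0
  have hC1 : 0 ≤ C1 := le_trans (by positivity) (h1.2 0)
  have hC0 : 0 ≤ C0 := le_trans (by positivity) (h0.2 0)
  refine ⟨2 ^ (N - 1) * (C0 + C1), by positivity, fun y => ?_⟩
  have h2 : 0 < (1 + ‖y‖) ^ N := by positivity
  rw [← div_eq_mul_inv, le_div_iff₀ h2]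
  have h3 := h1.2 y
  have h4 := h0.2 y
  rw [norm_iteratedFDeriv_zero] at h3 h4
  rw [pow_zero, one_mul] at h4
  have h5 : (1 + ‖y‖) ^ N ≤ 2 ^ (N - 1) * (1 ^ N + ‖y‖ ^ N) :=
    add_pow_le zero_le_one (norm_nonneg _) N
  calc ‖R y‖ * (1 + ‖y‖) ^ N ≤ ‖R y‖ * (2 ^ (N - 1) * (1 ^ N + ‖y‖ ^ N)) :=
        mul_le_mul_of_nonneg_left h5 (norm_nonneg _)
    _ = 2 ^ (N - 1) * (‖R y‖ + ‖y‖ ^ N * ‖R y‖) := by rw [one_pow]; ring
    _ ≤ _ := by
        refine mul_le_mul_of_nonneg_left (add_le_add h4 h3) (by positivity)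

theorem local_const (n : ℕ) (p : ℝ) (hp : 1 ≤ p) (N : ℕ) : ∃ C : ℝ, 0 < C ∧
    ∀ (ρ : ℝ), 0 < ρ → ∀ (w : E n) (F : E n → ℂ), Spec w ρ F → ∀ ξ0 ξ : E n,
      ENNReal.ofReal (‖F ξ‖ ^ p) ≤ ENNReal.ofReal (C * (1 + ρ * ‖ξ - ξ0‖) ^ N) *
        ∫⁻ η, ENNReal.ofReal (ρ ^ n * ((1 + ρ * ‖η - ξ0‖) ^ N)⁻¹) * ‖F η‖ₑ ^ p := by
  obtain ⟨R, hR⟩ := exists_repro n
  obtain ⟨A, hA0, hA⟩ := schwartz_decay R N
  have hp0 : 0 < p := by linarith
  have hM0 : 0 ≤ ∫ y, ‖R y‖ := integral_nonneg fun _ => norm_nonneg _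
  refine ⟨(∫ y, ‖R y‖) ^ (p - 1) * A + 1, by positivity, fun ρ hρ w F hF ξ0 ξ => ?_⟩
  have hFm : Measurable fun η => ‖F η‖ₑ := hF.cont.measurable.enorm
  set k : E n → ℝ≥0∞ := fun η => ENNReal.ofReal (ρ ^ n * ‖R (ρ • (ξ - η))‖) with hk
  have hkm : Measurable k := by
    have h1 : Continuous fun η : E n => ρ ^ n * ‖R (ρ • (ξ - η))‖ := by
      have := R.continuous
      fun_prop
    exact h1.measurable.ennreal_ofReal
  -- the mass of the kernel
  have hk1 : ∫⁻ η, k η = ENNReal.ofReal (∫ y, ‖R y‖) := by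
    have hi : Integrable fun η : E n => ρ ^ n * ‖R (ρ • (ξ - η))‖ := by
      have h1 : Integrable fun ζ : E n => R (ρ • ζ) :=
        (R.integrable (μ := volume)).comp_smul hρ.ne'
      exact ((h1.comp_sub_left ξ).norm).const_mul _
    rw [hk, ← ofReal_integral_eq_lintegral_ofReal hi
      (Filter.Eventually.of_forall fun η => by positivity)]
    congr 1
    rw [integral_const_mul, integral_sub_left_eq_self (μ := (volume : Measure (E n)))
      (fun ζ : E n => ‖R (ρ • ζ)‖), Measure.integral_comp_smul (volume : Measure (E n))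
      (fun ζ : E n => ‖R ζ‖) ρ, finrank_euclideanSpace, Fintype.card_fin,
      abs_of_pos (by positivity), smul_eq_mul]
    have h8 : ρ ^ n ≠ 0 := (pow_pos hρ n).ne'
    field_simp
  -- the pointwise bound
  have h1 : ‖F ξ‖ₑ ≤ ∫⁻ η, k η * ‖F η‖ₑ := by
    rw [hF.repro hR hρ ξ]
    refine (enorm_integral_le_lintegral_enorm _).trans (le_of_eq ?_)
    refine lintegral_congr fun η => ?_
    rw [enorm_mul, hk]
    beta_reduce
    congr 1
    rw [← ofReal_norm]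
    congr 1
    rw [norm_mul, norm_mul, Complex.norm_exp_ofReal_mul_I, mul_one, Complex.norm_real,
      Real.norm_eq_abs, abs_of_pos (by positivity)]
  have h2 : ENNReal.ofReal (‖F ξ‖ ^ p) = ‖F ξ‖ₑ ^ p := by
    rw [← ofReal_norm, ENNReal.ofReal_rpow_of_nonneg (norm_nonneg _) hp0.le]
  have h3 : ∀ η, k η ≤ ENNReal.ofReal (A * (1 + ρ * ‖ξ - ξ0‖) ^ N) *
      ENNReal.ofReal (ρ ^ n * ((1 + ρ * ‖η - ξ0‖) ^ N)⁻¹) := by
    intro η
    rw [hk, ← ENNReal.ofReal_mul (by positivity)]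
    refine ENNReal.ofReal_le_ofReal ?_
    have h4 := hA (ρ • (ξ - η))
    rw [norm_smul, Real.norm_eq_abs, abs_of_pos hρ] at h4
    have h5 : 1 + ρ * ‖η - ξ0‖ ≤ (1 + ρ * ‖ξ - η‖) * (1 + ρ * ‖ξ - ξ0‖) := by
      have h6 : ‖η - ξ0‖ ≤ ‖ξ - η‖ + ‖ξ - ξ0‖ := by
        calc ‖η - ξ0‖ = ‖(ξ - ξ0) - (ξ - η)‖ := by congr 1; abel
          _ ≤ ‖ξ - ξ0‖ + ‖ξ - η‖ := norm_sub_le _ _
          _ = _ := add_comm _ _
      have h7 := mul_le_mul_of_nonneg_left h6 hρ.le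
      have h8 : 0 ≤ ρ * ‖ξ - η‖ * (ρ * ‖ξ - ξ0‖) := by positivity
      nlinarith
    have h9 : (1 + ρ * ‖η - ξ0‖) ^ N ≤ (1 + ρ * ‖ξ - η‖) ^ N * (1 + ρ * ‖ξ - ξ0‖) ^ N := by
      rw [← mul_pow]
      exact pow_le_pow_left₀ (by positivity) h5 N
    have h10 : ((1 + ρ * ‖ξ - η‖) ^ N)⁻¹ ≤ (1 + ρ * ‖ξ - ξ0‖) ^ N *
        ((1 + ρ * ‖η - ξ0‖) ^ N)⁻¹ := by
      rw [← div_eq_mul_inv, le_div_iff₀ (by positivity), inv_mul_le_iff₀ (by positivity)]
      exact h9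
    calc ρ ^ n * ‖R (ρ • (ξ - η))‖ ≤ ρ ^ n * (A * ((1 + ρ * ‖ξ - η‖) ^ N)⁻¹) :=
          mul_le_mul_of_nonneg_left h4 (by positivity)
      _ ≤ ρ ^ n * (A * ((1 + ρ * ‖ξ - ξ0‖) ^ N * ((1 + ρ * ‖η - ξ0‖) ^ N)⁻¹)) := by
          refine mul_le_mul_of_nonneg_left ?_ (by positivity)
          exact mul_le_mul_of_nonneg_left h10 hA0
      _ = _ := by ring
  rw [h2]
  calc ‖F ξ‖ₑ ^ p ≤ (∫⁻ η, k η * ‖F η‖ₑ) ^ p := ENNReal.rpow_le_rpow h1 hp0.le
    _ ≤ (∫⁻ η, k η) ^ (p - 1) * ∫⁻ η, k η * ‖F η‖ₑ ^ p :=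
        jensen_lint volume hp hkm.aemeasurable hFm.aemeasurable
    _ ≤ ENNReal.ofReal ((∫ y, ‖R y‖) ^ (p - 1)) *
        ∫⁻ η, ENNReal.ofReal (A * (1 + ρ * ‖ξ - ξ0‖) ^ N) *
          (ENNReal.ofReal (ρ ^ n * ((1 + ρ * ‖η - ξ0‖) ^ N)⁻¹) * ‖F η‖ₑ ^ p) := by
        rw [hk1, ENNReal.ofReal_rpow_of_nonneg hM0 (by linarith)]
        refine mul_le_mul_right (lintegral_mono fun η => ?_) _
        rw [← mul_assoc]
        exact mul_le_mul_left (h3 η) _
    _ = ENNReal.ofReal ((∫ y, ‖R y‖) ^ (p - 1)) * (ENNReal.ofReal (A * (1 + ρ * ‖ξ - ξ0‖) ^ N) *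
        ∫⁻ η, ENNReal.ofReal (ρ ^ n * ((1 + ρ * ‖η - ξ0‖) ^ N)⁻¹) * ‖F η‖ₑ ^ p) := by
        rw [lintegral_const_mul' _ _ ENNReal.ofReal_ne_top]
    _ ≤ _ := by
        rw [← mul_assoc, ← ENNReal.ofReal_mul (by positivity)]
        refine mul_le_mul_left (ENNReal.ofReal_le_ofReal ?_) _
        rw [← mul_assoc]
        exact mul_le_mul_of_nonneg_right (by linarith) (by positivity)

end Pool.Agent.GNP.TMR
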