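import Pool.Agent.MP_6cbfb8_an.Defs

/-!
Parabolic rescaling of inverse Fourier transforms on `R^d × R`.
-/

set_option autoImplicit false

namespace Pool.Agent.GNP.DR

open MeasureTheory Set Pool.Agent.MP_6cbfb8_an
open scoped ENNReal Real RealInnerProductSpace

variable {d : ℕ}

/-- Inverse Fourier transform on `R^d × R`. -/
noncomputable def ift (h : E d × ℝ → ℂ) (q : E d × ℝ) : ℂ :=
  ∫ k : E d × ℝ, h k * Complex.exp (((⟪q.1, k.1⟫ + q.2 * k.2 : ℝ) : ℂ) * Complex.I)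

/-- The map of the frequencies: the paraboloid is mapped to itself, the unit ball to the ball of
radius `ρ` about `a`. -/
noncomputable def Fr (a : E d) (ρ : ℝ) (k : E d × ℝ) : E d × ℝ :=
  (a + ρ • k.1, ρ ^ 2 * k.2 + (2 * ρ * ⟪a, k.1⟫ + ‖a‖ ^ 2))

/-- The map of the positions. -/
noncomputable def Sp (a : E d) (ρ : ℝ) (q : E d × ℝ) : E d × ℝ :=
  (ρ • (q.1 + (2 * q.2) • a), ρ ^ 2 * q.2)

/-- The map `(x, t) ↦ (ρ x, ρ² t)`. -/
theorem map_dil {ρ : ℝ} (hρ : 0 < ρ) :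
    Measure.map (fun k : E d × ℝ => (ρ • k.1, ρ ^ 2 * k.2)) volume =
      ENNReal.ofReal ((ρ ^ (d + 2))⁻¹) • (volume : Measure (E d × ℝ)) := by
  have h1 : Measure.map (fun x : E d => ρ • x) volume =
      ENNReal.ofReal ((ρ ^ d)⁻¹) • (volume : Measure (E d)) := by
    have h := Measure.map_addHaar_smul (volume : Measure (E d)) hρ.ne'
    rwa [finrank_euclideanSpace_fin, abs_of_pos (by positivity)] at h
  have h2 : Measure.map (fun x : ℝ => ρ ^ 2 * x) volume =
      ENNReal.ofReal ((ρ ^ 2)⁻¹) • (volume : Measure ℝ) := by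
    have h := Real.map_volume_mul_left (a := ρ ^ 2) (by positivity)
    rwa [abs_of_pos (by positivity)] at h
  have h3 := Measure.map_prod_map (volume : Measure (E d)) (volume : Measure ℝ)
    (f := fun x : E d => ρ • x) (g := fun x : ℝ => ρ ^ 2 * x) (by fun_prop) (by fun_prop)
  rw [h1, h2, Measure.prod_smul_left, Measure.prod_smul_right, smul_smul,
    ← ENNReal.ofReal_mul (by positivity), ← Measure.volume_eq_prod] at h3
  rw [show (fun k : E d × ℝ => (ρ • k.1, ρ ^ 2 * k.2)) =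
    Prod.map (fun x : E d => ρ • x) (fun x : ℝ => ρ ^ 2 * x) from rfl, ← h3]
  congr 2
  rw [← mul_inv, ← pow_add]

theorem mp_shear (a : E d) : MeasurePreserving
    (fun k : E d × ℝ => (a + k.1, k.2 + (2 * ⟪a, k.1⟫ + ‖a‖ ^ 2))) volume volume := by
  refine MeasurePreserving.skew_product (f := fun x : E d => a + x)
    (g := fun (x : E d) (y : ℝ) => y + (2 * ⟪a, x⟫ + ‖a‖ ^ 2)) (measurePreserving_add_left _ a)
    ?_ ?_
  · unfold Function.uncurry
    fun_prop
  · exact Filter.Eventually.of_forall fun x => (measurePreserving_add_right volume _).map_eq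

theorem Fr_eq (a : E d) (ρ : ℝ) : Fr a ρ =
    (fun k : E d × ℝ => (a + k.1, k.2 + (2 * ⟪a, k.1⟫ + ‖a‖ ^ 2))) ∘
      (fun k : E d × ℝ => (ρ • k.1, ρ ^ 2 * k.2)) := by
  funext k
  simp only [Fr, Function.comp, inner_smul_right]
  congr 2
  ring

theorem map_Fr (a : E d) {ρ : ℝ} (hρ : 0 < ρ) : Measure.map (Fr a ρ) volume =
    ENNReal.ofReal ((ρ ^ (d + 2))⁻¹) • (volume : Measure (E d × ℝ)) := by
  rw [Fr_eq, ← Measure.map_map (mp_shear a).measurable (by fun_prop), map_dil hρ,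
    Measure.map_smul, (mp_shear a).map_eq]

theorem mp_shear2 (a : E d) : MeasurePreserving
    (fun q : E d × ℝ => (q.1 + (2 * q.2) • a, q.2)) volume volume := by
  have h1 : MeasurePreserving (fun p : ℝ × E d => (p.1, p.2 + (2 * p.1) • a))
      (volume.prod volume) (volume.prod volume) := by
    refine MeasurePreserving.skew_product (f := fun x : ℝ => x)
      (g := fun (x : ℝ) (y : E d) => y + (2 * x) • a) (MeasurePreserving.id _) ?_ ?_
    · unfold Function.uncurry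
      fun_prop
    · exact Filter.Eventually.of_forall fun x => (measurePreserving_add_right volume _).map_eq
  have h2 := (Measure.measurePreserving_swap (μ := (volume : Measure ℝ))
    (ν := (volume : Measure (E d)))).comp (h1.comp (Measure.measurePreserving_swap
      (μ := (volume : Measure (E d))) (ν := (volume : Measure ℝ))))
  exact h2

theorem Sp_eq (a : E d) (ρ : ℝ) : Sp a ρ =
    (fun k : E d × ℝ => (ρ • k.1, ρ ^ 2 * k.2)) ∘
      (fun q : E d × ℝ => (q.1 + (2 * q.2) • a, q.2)) := rfl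

theorem map_Sp (a : E d) {ρ : ℝ} (hρ : 0 < ρ) : Measure.map (Sp a ρ) volume =
    ENNReal.ofReal ((ρ ^ (d + 2))⁻¹) • (volume : Measure (E d × ℝ)) := by
  rw [Sp_eq, ← Measure.map_map (by fun_prop) (mp_shear2 a).measurable, (mp_shear2 a).map_eq,
    map_dil hρ]

/-- The inverse of `Fr`. -/
noncomputable def FrInv (a : E d) (ρ : ℝ) (k : E d × ℝ) : E d × ℝ :=
  (ρ⁻¹ • (k.1 - a), (ρ ^ 2)⁻¹ * (k.2 - (2 * ⟪a, k.1⟫ - ‖a‖ ^ 2)))

theorem FrInv_Fr (a : E d) {ρ : ℝ} (hρ : 0 < ρ) (k : E d × ℝ) : FrInv a ρ (Fr a ρ k) = k := by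
  unfold FrInv Fr
  ext1
  · simp [smul_smul, hρ.ne']
  · simp only [inner_add_right, inner_smul_right, real_inner_self_eq_norm_sq]
    field_simp
    ring

theorem Fr_FrInv (a : E d) {ρ : ℝ} (hρ : 0 < ρ) (k : E d × ℝ) : Fr a ρ (FrInv a ρ k) = k := by
  unfold FrInv Fr
  ext1
  · simp [smul_smul, hρ.ne']
  · simp only [inner_smul_right, inner_sub_right, real_inner_self_eq_norm_sq]
    field_simp
    ring

/-- `Fr` as a homeomorphism. -/
noncomputable def FrH (a : E d) {ρ : ℝ} (hρ : 0 < ρ) : E d × ℝ ≃ₜ E d × ℝ where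
  toFun := Fr a ρ
  invFun := FrInv a ρ
  left_inv := FrInv_Fr a hρ
  right_inv := Fr_FrInv a hρ
  continuous_toFun := by unfold Fr; fun_prop
  continuous_invFun := by unfold FrInv; fun_prop

theorem Fr_emb (a : E d) {ρ : ℝ} (hρ : 0 < ρ) : MeasurableEmbedding (Fr a ρ) :=
  (FrH a hρ).measurableEmbedding

theorem Sp_continuous (a : E d) (ρ : ℝ) : Continuous (Sp a ρ) := by
  unfold Sp
  fun_prop

/-- The inverse Fourier transform and the rescaling. -/
theorem norm_ift (a : E d) {ρ : ℝ} (hρ : 0 < ρ) (h : E d × ℝ → ℂ) (q : E d × ℝ) :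
    ‖ift h q‖ = ρ ^ (d + 2) * ‖ift (fun k => h (Fr a ρ k)) (Sp a ρ q)‖ := by
  have h1 : (volume : Measure (E d × ℝ)) =
      ENNReal.ofReal (ρ ^ (d + 2)) • Measure.map (Fr a ρ) volume := by
    rw [map_Fr a hρ, smul_smul, ← ENNReal.ofReal_mul (by positivity), mul_inv_cancel₀
      (by positivity), ENNReal.ofReal_one, one_smul]
  have h2 : ift h q = (ρ ^ (d + 2) : ℝ) • (Complex.exp (((⟪q.1, a⟫ + q.2 * ‖a‖ ^ 2 : ℝ) : ℂ) *
      Complex.I) * ift (fun k => h (Fr a ρ k)) (Sp a ρ q)) := by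
    unfold ift
    conv_lhs => rw [h1]
    rw [integral_smul_measure, ENNReal.toReal_ofReal (by positivity),
      (Fr_emb a hρ).integral_map, ← integral_const_mul]
    congr 1
    refine integral_congr_ae (Filter.Eventually.of_forall fun k => ?_)
    simp only
    rw [mul_left_comm, ← Complex.exp_add]
    congr 2
    rw [← add_mul, ← Complex.ofReal_add]
    congr 2
    simp only [Fr, Sp, inner_add_right, inner_smul_right, inner_add_left, inner_smul_left,
      real_inner_comm a]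
    simp
    ring
  rw [h2, norm_smul, norm_mul, Complex.norm_exp_ofReal_mul_I, one_mul,
    Real.norm_of_nonneg (by positivity)]

/-- **The norms.** -/
theorem lintegral_ift (a : E d) {ρ : ℝ} (hρ : 0 < ρ) (h : E d × ℝ → ℂ) {p : ℝ} (hp : 0 ≤ p)
    (hm : Measurable (ift fun k => h (Fr a ρ k))) :
    ∫⁻ q, ‖ift h q‖ₑ ^ p = ENNReal.ofReal (ρ ^ (d + 2)) ^ p * ENNReal.ofReal ((ρ ^ (d + 2))⁻¹) *
      ∫⁻ q, ‖ift (fun k => h (Fr a ρ k)) q‖ₑ ^ p := by
  have h1 : ∀ q, ‖ift h q‖ₑ ^ p = ENNReal.ofReal (ρ ^ (d + 2)) ^ p *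
      ‖ift (fun k => h (Fr a ρ k)) (Sp a ρ q)‖ₑ ^ p := by
    intro q
    rw [← ENNReal.mul_rpow_of_nonneg _ _ hp]
    congr 1
    rw [← ofReal_norm, ← ofReal_norm, norm_ift a hρ,
      ENNReal.ofReal_mul (by positivity)]
  have h3 : Measurable fun q => ‖ift (fun k => h (Fr a ρ k)) (Sp a ρ q)‖ₑ ^ p :=
    (hm.comp (Sp_continuous a ρ).measurable).enorm.pow_const p
  simp_rw [h1]
  rw [lintegral_const_mul _ h3, mul_assoc]
  congr 1
  have h2 := lintegral_map (μ := volume) (f := fun q => ‖ift (fun k => h (Fr a ρ k)) q‖ₑ ^ p)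
    (hm.enorm.pow_const p) (Sp_continuous a ρ).measurable
  rw [← h2, map_Sp a hρ, lintegral_smul_measure, smul_eq_mul]

/-- The paraboloid is mapped to itself. -/
theorem Fr_par (a : E d) (ρ : ℝ) (k : E d × ℝ) :
    (Fr a ρ k).2 - ‖(Fr a ρ k).1‖ ^ 2 = ρ ^ 2 * (k.2 - ‖k.1‖ ^ 2) := by
  simp only [Fr]
  rw [norm_add_sq_real, norm_smul, inner_smul_right, Real.norm_eq_abs, mul_pow, sq_abs]
  ring

theorem Fr_fst_sub (a : E d) (ρ : ℝ) (k : E d × ℝ) (c : E d) :
    (Fr a ρ k).1 - (a + ρ • c) = ρ • (k.1 - c) := by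
  simp only [Fr]
  rw [add_sub_add_left_eq_sub, smul_sub]

end Pool.Agent.GNP.DR
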