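import Pool.Agent.GNP.Defs2

/-!
GNP row A0: kernels exist.
-/

namespace Pool.Agent.GNP

open MeasureTheory Set Pool.Agent.MP_6cbfb8_an
open scoped ENNReal Real RealInnerProductSpace ContDiff

theorem exists_ker (d : ℕ) (κ : ℝ) (hκ : 0 < κ) : ∃ ρ : E d → ℝ, Ker κ ρ ∧ ∫ v, ρ v = 1 := by
  let f : ContDiffBump (0 : E d) := ⟨κ / 2, κ, by linarith, by linarith⟩
  refine ⟨f.normed volume, ⟨f.contDiff_normed, fun v hv => ?_⟩, f.integral_normed⟩
  have h1 : v ∉ Function.support (f.normed volume) := by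
    rw [f.support_normed_eq, Metric.mem_ball, dist_zero_right]
    exact not_lt.2 hv.le
  simpa using h1

end Pool.Agent.GNP
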