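import Pool.Agent.MP_6cbfb8_an.Defs

/-! Row A: decay of wave packets. -/

namespace Pool.Agent.GPH

open MeasureTheory Set Metric Pool.Agent.MP_6cbfb8_an
open scoped ENNReal Real FourierTransform ContDiff Nat RealInnerProductSpace

/-- the function `t ↦ exp (i t)` -/
noncomputable def ee (t : ℝ) : ℂ := Complex.exp ((t : ℂ) * Complex.I)

theorem contDiff_ee {N : ℕ∞ω} : ContDiff ℝ N ee := by
  unfold ee
  exact (Complex.ofRealCLM.contDiff.mul contDiff_const).cexp

theorem hasDerivAt_ee (t : ℝ) : HasDerivAt ee (Complex.I * ee t) t := by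
  have h1 : HasDerivAt (fun s : ℝ => (s : ℂ) * Complex.I) Complex.I t := by
    simpa using (Complex.ofRealCLM.hasDerivAt (x := t)).mul_const Complex.I
  have h2 := h1.cexp
  rw [mul_comm] at h2
  exact h2

theorem iteratedDeriv_ee (n : ℕ) : iteratedDeriv n ee = fun t => Complex.I ^ n * ee t := by
  induction n with
  | zero => simp
  | succ n ih =>
    rw [iteratedDeriv_succ, ih]
    funext t
    rw [((hasDerivAt_ee t).const_mul _).deriv]
    ring

theorem norm_ee (t : ℝ) : ‖ee t‖ = 1 := Complex.norm_exp_ofReal_mul_I t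

theorem norm_iteratedFDeriv_ee (n : ℕ) (t : ℝ) : ‖iteratedFDeriv ℝ n ee t‖ = 1 := by
  rw [norm_iteratedFDeriv_eq_norm_iteratedDeriv, iteratedDeriv_ee]
  simp [norm_ee]

/-- derivatives of `b e^{ir}` at a point -/
theorem deriv_amp {d : ℕ} (N : ℕ) (b : E d → ℂ) (r : E d → ℝ) (hb : ContDiff ℝ N b)
    (hr : ContDiff ℝ N r) (v : E d) (B M : ℝ) (hB : 0 ≤ B) (hM : 1 ≤ M)
    (hbd : ∀ j ≤ N, ‖iteratedFDeriv ℝ j b v‖ ≤ B)
    (hrd : ∀ j, 1 ≤ j → j ≤ N → ‖iteratedFDeriv ℝ j r v‖ ≤ M) :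
    ∀ j ≤ N, ‖iteratedFDeriv ℝ j (fun y => b y * ee (r y)) v‖ ≤ 2 ^ N * B * (N ! * M ^ N) := by
  intro j hj
  have h1 : ContDiff ℝ N fun y => ee (r y) := contDiff_ee.comp hr
  have h2 : ∀ i ≤ N, ‖iteratedFDeriv ℝ i (fun y => ee (r y)) v‖ ≤ N ! * M ^ N := by
    intro i hi
    have h3 := norm_iteratedFDeriv_comp_le (g := ee) (f := r) (n := i) (N := N)
      contDiff_ee hr (by exact_mod_cast hi) v (C := 1) (D := M)
      (fun k _ => (norm_iteratedFDeriv_ee k _).le)
      (fun k hk1 hk2 => (hrd k hk1 (hk2.trans hi)).trans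
        (by simpa using pow_le_pow_right₀ hM hk1))
    calc ‖iteratedFDeriv ℝ i (fun y => ee (r y)) v‖ ≤ i ! * 1 * M ^ i := h3
      _ ≤ N ! * M ^ N := by
        rw [mul_one]
        gcongr
  have h4 := norm_iteratedFDeriv_mul_le hb h1 v (n := j) (by exact_mod_cast hj)
  refine h4.trans ?_
  calc ∑ i ∈ Finset.range (j + 1), (j.choose i : ℝ) * ‖iteratedFDeriv ℝ i b v‖ *
        ‖iteratedFDeriv ℝ (j - i) (fun y => ee (r y)) v‖
      ≤ ∑ i ∈ Finset.range (j + 1), (j.choose i : ℝ) * B * (N ! * M ^ N) := by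
        refine Finset.sum_le_sum fun i hi => ?_
        have hi' : i ≤ j := by simpa [Nat.lt_succ_iff] using hi
        gcongr
        · exact hbd i (hi'.trans hj)
        · exact h2 (j - i) ((Nat.sub_le _ _).trans hj)
    _ = 2 ^ j * B * (N ! * M ^ N) := by
        rw [← Finset.sum_mul, ← Finset.sum_mul]
        congr 2
        exact_mod_cast Nat.sum_range_choose j
    _ ≤ 2 ^ N * B * (N ! * M ^ N) := by
        gcongr
        exact one_le_two

/-- ROW A1: decay of the Fourier transform -/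
theorem fourier_decay (d N : ℕ) (ρ : ℝ) : ∃ C : ℝ, 0 ≤ C ∧ ∀ (F : E d → ℂ) (M : ℝ),
    ContDiff ℝ N F → (∀ v, ρ < ‖v‖ → F v = 0) →
    (∀ j ≤ N, ∀ v, ‖v‖ ≤ ρ → ‖iteratedFDeriv ℝ j F v‖ ≤ M) →
    ∀ z : E d, ‖𝓕 F z‖ * (1 + ‖z‖) ^ N ≤ C * M := by
  set W : ℝ := (volume (closedBall (0 : E d) ρ)).toReal with hW
  have hW0 : 0 ≤ W := ENNReal.toReal_nonneg
  refine ⟨2 ^ N * (2 * (2 ^ N * (N + 1))) * W, by positivity, ?_⟩
  intro F M hF hsupp hM z
  have hout : ∀ j, ∀ v, ρ < ‖v‖ → iteratedFDeriv ℝ j F v = 0 := by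
    intro j v hv
    have h1 : F =ᶠ[nhds v] fun _ => 0 := by
      have : {w : E d | ρ < ‖w‖} ∈ nhds v := (isOpen_lt continuous_const continuous_norm).mem_nhds hv
      filter_upwards [this] with w hw
      exact hsupp w hw
    rw [(Filter.EventuallyEq.iteratedFDeriv (𝕜 := ℝ) h1 j).self_of_nhds]
    rcases Nat.eq_zero_or_pos j with rfl | hj
    · ext; simp
    · rw [iteratedFDeriv_const_of_ne hj.ne']
      rfl
  have hint : ∀ j ≤ N, Integrable (iteratedFDeriv ℝ j F) ∧
      ∫ v, ‖iteratedFDeriv ℝ j F v‖ ≤ W * M := by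
    intro j hj
    have hc : Continuous (iteratedFDeriv ℝ j F) := hF.continuous_iteratedFDeriv (by exact_mod_cast hj)
    have hcs : HasCompactSupport (iteratedFDeriv ℝ j F) := by
      refine HasCompactSupport.intro (isCompact_closedBall (0 : E d) ρ) fun v hv => hout j v ?_
      simpa using hv
    have hi := hc.integrable_of_hasCompactSupport hcs (μ := volume)
    refine ⟨hi, ?_⟩
    have h1 : ∫ v, ‖iteratedFDeriv ℝ j F v‖ =
        ∫ v in closedBall (0 : E d) ρ, ‖iteratedFDeriv ℝ j F v‖ := by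
      refine (setIntegral_eq_integral_of_forall_compl_eq_zero fun v hv => ?_).symm
      rw [hout j v (by simpa using hv), norm_zero]
    rw [h1]
    have h2 : ∫ v in closedBall (0 : E d) ρ, ‖iteratedFDeriv ℝ j F v‖ ≤
        ∫ _v in closedBall (0 : E d) ρ, M := by
      refine setIntegral_mono_on hi.norm.integrableOn
        (integrableOn_const (hs := (isCompact_closedBall (0 : E d) ρ).measure_lt_top.ne))
        measurableSet_closedBall fun v hv => hM j hj v (by simpa using hv)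
    refine h2.trans (le_of_eq ?_)
    rw [setIntegral_const, smul_eq_mul]
    rfl
  have hM0 : 0 ≤ W * M := le_trans (integral_nonneg fun v => norm_nonneg _) (hint 0 (Nat.zero_le _)).2
  have key : ∀ n ≤ N, ‖z‖ ^ n * ‖𝓕 F z‖ ≤ 2 ^ N * (N + 1) * (W * M) := by
    intro n hn
    have h1 := Real.pow_mul_norm_iteratedFDeriv_fourier_le (V := E d) (f := F) (K := 0) (N := N)
      hF (fun k n hk hn => by
        have hk0 : k = 0 := by simpa using hk
        subst hk0
        simpa using (hint n (by exact_mod_cast hn)).1.norm) (k := 0) (n := n) le_rfl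
        (by exact_mod_cast hn) z
    simp only [norm_iteratedFDeriv_zero, pow_zero, one_mul] at h1
    refine h1.trans ?_
    have h2 : ∑ p ∈ Finset.range (0 + 1) ×ˢ Finset.range (n + 1),
        ∫ v, ‖v‖ ^ p.1 * ‖iteratedFDeriv ℝ p.2 F v‖ ≤ (N + 1) * (W * M) := by
      calc ∑ p ∈ Finset.range (0 + 1) ×ˢ Finset.range (n + 1),
            ∫ v, ‖v‖ ^ p.1 * ‖iteratedFDeriv ℝ p.2 F v‖
          ≤ ∑ _p ∈ Finset.range (0 + 1) ×ˢ Finset.range (n + 1), W * M := by
            refine Finset.sum_le_sum fun p hp => ?_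
            rw [Finset.mem_product, Finset.mem_range, Finset.mem_range] at hp
            have h0 : p.1 = 0 := by omega
            rw [h0]
            simpa using (hint p.2 (by omega)).2
        _ = (n + 1) * (W * M) := by
            rw [Finset.sum_const, Finset.card_product]
            simp
        _ ≤ (N + 1) * (W * M) := by
            gcongr
    have h3 : (2 * ((0 : ℕ) : ℝ) + 2) ^ n ≤ 2 ^ N := by
      rw [Nat.cast_zero, mul_zero, zero_add]
      exact pow_le_pow_right₀ one_le_two hn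
    calc (2 * ((0 : ℕ) : ℝ) + 2) ^ n * _ ≤ 2 ^ N * ((N + 1) * (W * M)) :=
          mul_le_mul h3 h2 (Finset.sum_nonneg fun p _ => integral_nonneg fun v => by positivity)
            (by positivity)
      _ = 2 ^ N * (N + 1) * (W * M) := by ring
  have h0 := key 0 (Nat.zero_le _)
  have hNN := key N le_rfl
  rw [pow_zero, one_mul] at h0
  have h5 : (1 + ‖z‖) ^ N ≤ 2 ^ N * (1 + ‖z‖ ^ N) := by
    refine (add_pow_le zero_le_one (norm_nonneg z) N).trans ?_
    rw [one_pow]
    gcongr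
    · exact one_le_two
    · exact Nat.sub_le _ _
  calc ‖𝓕 F z‖ * (1 + ‖z‖) ^ N ≤ ‖𝓕 F z‖ * (2 ^ N * (1 + ‖z‖ ^ N)) := by gcongr
    _ = 2 ^ N * (‖𝓕 F z‖ + ‖z‖ ^ N * ‖𝓕 F z‖) := by ring
    _ ≤ 2 ^ N * (2 ^ N * (N + 1) * (W * M) + 2 ^ N * (N + 1) * (W * M)) := by gcongr
    _ = 2 ^ N * (2 * (2 ^ N * (N + 1))) * W * M := by ring

end Pool.Agent.GPH
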