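import Pool.Agent.GNP.Defs
import Pool.Agent.GNP.P1h

namespace Pool.Agent.GNP

open MeasureTheory Set Pool.Agent.MP_6cbfb8_an
open scoped Real RealInnerProductSpace ContDiff Nat

/-- a product of functions with bounded derivatives -/
theorem mul_bd {d : ℕ} {f g : E d → ℂ} (hf : ContDiff ℝ ∞ f) (hg : ContDiff ℝ ∞ g) (N : ℕ)
    (F G : ℝ) (z : E d) (hF : ∀ j ≤ N, ‖iteratedFDeriv ℝ j f z‖ ≤ F)
    (hG : ∀ j ≤ N, ‖iteratedFDeriv ℝ j g z‖ ≤ G) :
    ∀ j ≤ N, ‖iteratedFDeriv ℝ j (fun y => f y * g y) z‖ ≤ 2 ^ N * (F * G) := by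
  intro j hj
  have hF0 : 0 ≤ F := (norm_nonneg _).trans (hF 0 (Nat.zero_le _))
  have hG0 : 0 ≤ G := (norm_nonneg _).trans (hG 0 (Nat.zero_le _))
  refine (norm_iteratedFDeriv_mul_le hf hg z (n := j) (by exact_mod_cast le_top)).trans ?_
  have h1 : ∀ i ∈ Finset.range (j + 1), ((j.choose i : ℕ) : ℝ) * ‖iteratedFDeriv ℝ i f z‖ *
      ‖iteratedFDeriv ℝ (j - i) g z‖ ≤ ((j.choose i : ℕ) : ℝ) * (F * G) := by
    intro i hi
    rw [Finset.mem_range] at hi
    rw [mul_assoc]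
    refine mul_le_mul_of_nonneg_left ?_ (Nat.cast_nonneg _)
    exact mul_le_mul (hF i (by omega)) (hG _ (by omega)) (norm_nonneg _) hF0
  refine (Finset.sum_le_sum h1).trans ?_
  rw [← Finset.sum_mul]
  have h2 : ∑ i ∈ Finset.range (j + 1), ((j.choose i : ℕ) : ℝ) = 2 ^ j := by
    exact_mod_cast Nat.sum_range_choose j
  rw [h2]
  exact mul_le_mul_of_nonneg_right (pow_le_pow_right₀ one_le_two hj) (mul_nonneg hF0 hG0)

/-- derivatives of `f (y0 + t v)` -/
theorem iter_affine {d : ℕ} {F : Type*} [NormedAddCommGroup F] [NormedSpace ℝ F] {f : E d → F}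
    (hf : ContDiff ℝ ∞ f) (y0 : E d) (t : ℝ) (j : ℕ) (v : E d) :
    ‖iteratedFDeriv ℝ j (fun v => f (y0 + t • v)) v‖ ≤
      |t| ^ j * ‖iteratedFDeriv ℝ j f (y0 + t • v)‖ := by
  set g : E d → F := fun w => f (y0 + w) with hg
  have hgc : ContDiff ℝ ∞ g := hf.comp (contDiff_const.add contDiff_id)
  set L : E d →L[ℝ] E d := t • ContinuousLinearMap.id ℝ (E d) with hL
  have h1 : (fun v => f (y0 + t • v)) = g ∘ L := by
    funext v
    simp [g, L]
  rw [h1, L.iteratedFDeriv_comp_right hgc v (i := j) (by exact_mod_cast le_top)]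
  refine (ContinuousMultilinearMap.norm_compContinuousLinearMap_le _ _).trans ?_
  have h2 : iteratedFDeriv ℝ j g (L v) = iteratedFDeriv ℝ j f (y0 + t • v) := by
    have h3 := iteratedFDeriv_comp_add_left (𝕜 := ℝ) (f := f) j y0
    rw [hg, h3]
    simp [L]
  rw [h2, mul_comm]
  refine mul_le_mul_of_nonneg_right ?_ (norm_nonneg _)
  rw [Finset.prod_const, Finset.card_univ, Fintype.card_fin]
  refine pow_le_pow_left₀ (norm_nonneg _) ?_ _
  rw [hL, norm_smul, Real.norm_eq_abs]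
  exact mul_le_of_le_one_right (abs_nonneg _) ContinuousLinearMap.norm_id_le

/-- the remainder of the phase after rescaling -/
noncomputable def rem {d : ℕ} (q : E d → ℝ) (R : ℝ) (y0 v : E d) : ℝ :=
  q (y0 + R⁻¹ • v) - q y0 - ⟪R⁻¹ • gr q y0, v⟫

theorem contDiff_rem {d : ℕ} {q : E d → ℝ} (hq : ContDiff ℝ ∞ q) (R : ℝ) (y0 : E d) :
    ContDiff ℝ ∞ (rem q R y0) := by
  unfold rem
  have h1 : ContDiff ℝ ∞ fun v : E d => q (y0 + R⁻¹ • v) :=
    hq.comp (contDiff_const.add (contDiff_id.const_smul _))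
  have h2 : ContDiff ℝ ∞ fun v : E d => ⟪R⁻¹ • gr q y0, v⟫ :=
    contDiff_const.inner ℝ contDiff_id
  exact (h1.sub contDiff_const).sub h2

theorem fderiv_rem {d : ℕ} {q : E d → ℝ} (hq : ContDiff ℝ ∞ q) (R : ℝ) (y0 : E d) :
    fderiv ℝ (rem q R y0) = fun v => fderiv ℝ (fun v => q (y0 + R⁻¹ • v)) v -
      R⁻¹ • fderiv ℝ q y0 := by
  funext v
  have h1 : ContDiff ℝ ∞ fun v : E d => q (y0 + R⁻¹ • v) :=
    hq.comp (contDiff_const.add (contDiff_id.const_smul _))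
  have h1' : HasFDerivAt (fun v : E d => q (y0 + R⁻¹ • v))
      (fderiv ℝ (fun v => q (y0 + R⁻¹ • v)) v) v :=
    ((h1.differentiable (by simp)) v).hasFDerivAt
  have h2 : HasFDerivAt (fun v : E d => ⟪R⁻¹ • gr q y0, v⟫) (R⁻¹ • fderiv ℝ q y0) v := by
    have h3 : (fun v : E d => ⟪R⁻¹ • gr q y0, v⟫) = (R⁻¹ • fderiv ℝ q y0 : E d →L[ℝ] ℝ) := by
      funext w
      rw [inner_smul_left]
      simp [gr]
    rw [h3]
    exact (R⁻¹ • fderiv ℝ q y0 : E d →L[ℝ] ℝ).hasFDerivAt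
  exact ((h1'.sub_const (q y0)).sub h2).fderiv

theorem rem_bound {d : ℕ} (N : ℕ) (A : ℕ → ℝ) (ρ : ℝ) : ∃ M : ℝ, 1 ≤ M ∧
    ∀ (q : E d → ℝ) (R : ℝ) (y0 : E d), 1 ≤ R → ContDiff ℝ ∞ q →
    (∀ j, 2 ≤ j → ∀ v, ‖v‖ ≤ ρ → ‖iteratedFDeriv ℝ j q (y0 + R⁻¹ • v)‖ ≤ A j * R ^ 2) →
    ∀ v, ‖v‖ ≤ ρ → ∀ j, 1 ≤ j → j ≤ N → ‖iteratedFDeriv ℝ j (rem q R y0) v‖ ≤ M := by
  refine ⟨1 + |A 2| * |ρ| + ∑ j ∈ Finset.range (N + 1), |A j|, ?_, ?_⟩
  · have h1 : 0 ≤ |A 2| * |ρ| := by positivity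
    have h2 : 0 ≤ ∑ j ∈ Finset.range (N + 1), |A j| := Finset.sum_nonneg fun _ _ => abs_nonneg _
    linarith
  · intro q R y0 hR hq hA v hv j hj1 hjN
    have hR0 : 0 < R := by linarith
    have h1 : ContDiff ℝ ∞ fun v : E d => q (y0 + R⁻¹ • v) :=
      hq.comp (contDiff_const.add (contDiff_id.const_smul _))
    have hbd : ∀ i, 2 ≤ i → ∀ w, ‖w‖ ≤ ρ →
        ‖iteratedFDeriv ℝ i (fun v => q (y0 + R⁻¹ • v)) w‖ ≤ |A i| := by
      intro i hi w hw
      refine (iter_affine hq y0 R⁻¹ i w).trans ?_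
      have h2 := hA i hi w hw
      rw [abs_of_pos (inv_pos.2 hR0)]
      have h3 : (R⁻¹) ^ i ≤ (R⁻¹) ^ 2 :=
        pow_le_pow_of_le_one (inv_pos.2 hR0).le (inv_le_one_of_one_le₀ hR) hi
      calc (R⁻¹) ^ i * ‖iteratedFDeriv ℝ i q (y0 + R⁻¹ • w)‖
          ≤ (R⁻¹) ^ 2 * (A i * R ^ 2) :=
            mul_le_mul h3 h2 (norm_nonneg _) (by positivity)
        _ = A i := by field_simp
        _ ≤ |A i| := le_abs_self _
    have hfd : ∀ i, ∀ w, ‖iteratedFDeriv ℝ i (rem q R y0) w‖ =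
        ‖iteratedFDeriv ℝ i (rem q R y0) w‖ := fun _ _ => rfl
    have h2 : ∀ i, 1 ≤ i → ∀ w, ‖w‖ ≤ ρ →
        ‖iteratedFDeriv ℝ (i + 1) (rem q R y0) w‖ ≤ |A (i + 1)| := by
      intro i hi w hw
      rw [← norm_iteratedFDeriv_fderiv, fderiv_rem hq]
      have h3 : iteratedFDeriv ℝ i (fun v => fderiv ℝ (fun v => q (y0 + R⁻¹ • v)) v -
          R⁻¹ • fderiv ℝ q y0) w = iteratedFDeriv ℝ i (fderiv ℝ (fun v => q (y0 + R⁻¹ • v))) w := by
        have h4 : ContDiff ℝ ∞ (fderiv ℝ (fun v : E d => q (y0 + R⁻¹ • v))) :=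
          h1.fderiv_right (by simp)
        have h5 := iteratedFDeriv_sub_apply (𝕜 := ℝ) (i := i) (x := w)
          (f := fderiv ℝ (fun v : E d => q (y0 + R⁻¹ • v))) (g := fun _ => R⁻¹ • fderiv ℝ q y0)
          (h4.contDiffAt.of_le (by exact_mod_cast le_top)) contDiffAt_const
        rw [show (fun v => fderiv ℝ (fun v => q (y0 + R⁻¹ • v)) v - R⁻¹ • fderiv ℝ q y0) =
          fderiv ℝ (fun v : E d => q (y0 + R⁻¹ • v)) - fun _ => R⁻¹ • fderiv ℝ q y0 from rfl, h5,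
          iteratedFDeriv_const_of_ne (by omega)]
        simp
      rw [h3, norm_iteratedFDeriv_fderiv]
      exact hbd (i + 1) (by omega) w hw
    have hs : ∀ i ≤ N, |A i| ≤ ∑ j ∈ Finset.range (N + 1), |A j| := fun i hi =>
      Finset.single_le_sum (f := fun j => |A j|) (fun _ _ => abs_nonneg _)
        (Finset.mem_range.2 (by omega))
    have hp : 0 ≤ |A 2| * |ρ| := by positivity
    have hs0 : 0 ≤ ∑ j ∈ Finset.range (N + 1), |A j| := Finset.sum_nonneg fun _ _ => abs_nonneg _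
    rcases Nat.lt_or_ge 1 j with h | h
    · obtain ⟨i, rfl⟩ : ∃ i, j = i + 1 := ⟨j - 1, by omega⟩
      refine (h2 i (by omega) v hv).trans ((hs _ hjN).trans ?_)
      linarith
    · have hj : j = 1 := by omega
      subst hj
      rw [norm_iteratedFDeriv_one]
      have hρ : 0 ≤ ρ := (norm_nonneg _).trans hv
      have h6 : fderiv ℝ (rem q R y0) 0 = 0 := by
        rw [fderiv_rem hq]
        have h7 : HasFDerivAt (fun v : E d => q (y0 + R⁻¹ • v)) (R⁻¹ • fderiv ℝ q y0) 0 := by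
          have h8 : HasFDerivAt (fun v : E d => y0 + R⁻¹ • v)
              (R⁻¹ • ContinuousLinearMap.id ℝ (E d)) 0 :=
            ((hasFDerivAt_id (0 : E d)).const_smul R⁻¹).const_add y0
          have h9 : HasFDerivAt q (fderiv ℝ q y0) ((fun v : E d => y0 + R⁻¹ • v) 0) := by
            simpa using ((hq.differentiable (by simp)) y0).hasFDerivAt
          have h10 := h9.comp (0 : E d) h8
          refine h10.congr_fderiv ?_
          ext w
          simp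
        simp only [h7.fderiv, sub_self]
      have h7 : DifferentiableOn ℝ (fderiv ℝ (rem q R y0)) (Metric.closedBall 0 ρ) :=
        (((contDiff_rem hq R y0).fderiv_right (m := ∞) (by simp)).differentiable
          (by simp)).differentiableOn
      have h8 := (convex_closedBall (0 : E d) ρ).norm_image_sub_le_of_norm_fderiv_le
        (f := fderiv ℝ (rem q R y0)) (C := |A 2|)
        (fun x _ => ((contDiff_rem hq R y0).fderiv_right (m := ∞) (by simp)).differentiable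
          (by simp) x)
        (fun x hx => by
          have h9 := h2 1 le_rfl x (by simpa using hx)
          rw [← norm_iteratedFDeriv_fderiv, norm_iteratedFDeriv_one] at h9
          exact h9)
        (x := 0) (y := v) (by simpa using hρ) (by simpa using hv)
      rw [h6, sub_zero, sub_zero] at h8
      have h10 : |A 2| * ‖v‖ ≤ |A 2| * |ρ| :=
        mul_le_mul_of_nonneg_left (hv.trans (le_abs_self _)) (abs_nonneg _)
      linarith

/-- General wave packets: amplitude `κ (R (y - y0)) a(y)`. -/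
theorem packet_gen (d : ℕ) (A : ℕ → ℝ) (κ : E d → ℂ) (hκ : ContDiff ℝ ∞ κ) (ρ : ℝ)
    (hκ0 : ∀ z, ρ < ‖z‖ → κ z = 0) : ∃ K : ℝ, 0 < K ∧
    ∀ (a : E d → ℂ) (q : E d → ℝ) (r R : ℝ), 1 ≤ R → Amp d A r a → Phq d A R q →
    ∀ y0 x, ‖uu (fun y => κ (R • (y - y0)) * a y) q x‖ ≤
      K * (R ^ d)⁻¹ * ((1 + ‖x - gr q y0‖ / R) ^ (d + 1))⁻¹ := by
  obtain ⟨M, hM1, hM⟩ := rem_bound (d := d) (d + 1) A ρ
  -- bounds of the kernel
  have hcs : HasCompactSupport κ :=
    HasCompactSupport.intro (isCompact_closedBall (0 : E d) ρ) (fun z hz => hκ0 z (by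
      rw [Metric.mem_closedBall, dist_zero_right, not_le] at hz
      exact hz))
  have hkb : ∀ j, ∃ B : ℝ, ∀ z, ‖iteratedFDeriv ℝ j κ z‖ ≤ B := fun j =>
    (hcs.iteratedFDeriv j).exists_bound_of_continuous
      (hκ.continuous_iteratedFDeriv (by exact_mod_cast le_top))
  choose Bk hBk using hkb
  set F : ℝ := ∑ j ∈ Finset.range (d + 2), |Bk j| with hF
  set G : ℝ := ∑ j ∈ Finset.range (d + 2), |A j| with hG
  have hF0 : 0 ≤ F := Finset.sum_nonneg fun _ _ => abs_nonneg _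
  have hG0 : 0 ≤ G := Finset.sum_nonneg fun _ _ => abs_nonneg _
  obtain ⟨C, hC0, hC⟩ := GPH.fourier_decay d (d + 1) ρ
  set M2 : ℝ := 2 ^ (d + 1) * (2 ^ (d + 1) * (F * G)) * ((d + 1)! * M ^ (d + 1)) with hM2
  have hM20 : 0 ≤ M2 := by
    have : 0 ≤ M := by linarith
    positivity
  refine ⟨C * M2 * (2 * π) ^ (d + 1) + 1, by positivity, ?_⟩
  intro a q r R hR ha hq y0 x
  have hR0 : 0 < R := by linarith
  -- the rescaled amplitude
  set at0 : E d → ℂ := fun v => a (y0 + R⁻¹ • v) with hat0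
  have hat : ContDiff ℝ ∞ at0 := ha.sm.comp (contDiff_const.add (contDiff_id.const_smul _))
  have hatb : ∀ j ≤ d + 1, ∀ v, ‖iteratedFDeriv ℝ j at0 v‖ ≤ G := by
    intro j hj v
    refine (iter_affine ha.sm y0 R⁻¹ j v).trans ?_
    have h1 : |R⁻¹| ^ j ≤ 1 := by
      rw [abs_of_pos (inv_pos.2 hR0)]
      exact pow_le_one₀ (inv_pos.2 hR0).le (inv_le_one_of_one_le₀ hR)
    have h2 := ha.bd j (y0 + R⁻¹ • v)
    have h3 : |A j| ≤ G := Finset.single_le_sum (f := fun j => |A j|)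
      (fun _ _ => abs_nonneg _) (Finset.mem_range.2 (by omega))
    calc |R⁻¹| ^ j * ‖iteratedFDeriv ℝ j a (y0 + R⁻¹ • v)‖
        ≤ 1 * ‖iteratedFDeriv ℝ j a (y0 + R⁻¹ • v)‖ :=
          mul_le_mul_of_nonneg_right h1 (norm_nonneg _)
      _ ≤ G := by rw [one_mul]; exact h2.trans ((le_abs_self _).trans h3)
  set am : E d → ℂ := fun v => κ v * at0 v with ham
  have hamc : ContDiff ℝ ∞ am := hκ.mul hat
  have hamb : ∀ j ≤ d + 1, ∀ v, ‖iteratedFDeriv ℝ j am v‖ ≤ 2 ^ (d + 1) * (F * G) := by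
    intro j hj v
    refine mul_bd hκ hat (d + 1) F G v (fun i hi => ?_) (fun i hi => hatb i hi v) j hj
    exact (hBk i v).trans ((le_abs_self _).trans (Finset.single_le_sum (f := fun j => |Bk j|)
      (fun _ _ => abs_nonneg _) (Finset.mem_range.2 (by omega))))
  set b : E d → ℂ := fun v => am v * GPH.ee (rem q R y0 v) with hb
  have hbc : ContDiff ℝ ∞ b := hamc.mul (GPH.contDiff_ee.comp (contDiff_rem hq.sm R y0))
  have hb0 : ∀ v, ρ < ‖v‖ → b v = 0 := by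
    intro v hv
    simp only [hb, ham, hκ0 v hv, zero_mul]
  have hbb : ∀ j ≤ d + 1, ∀ v, ‖v‖ ≤ ρ → ‖iteratedFDeriv ℝ j b v‖ ≤ M2 := by
    intro j hj v hv
    refine GPH.deriv_amp (d + 1) am (rem q R y0) (hamc.of_le (by exact_mod_cast le_top))
      ((contDiff_rem hq.sm R y0).of_le (by exact_mod_cast le_top)) v _ M (by positivity) hM1
      (fun i hi => hamb i hi v) (fun i h1 h2 => ?_) j hj
    exact hM q R y0 hR hq.sm (fun i hi w _ => hq.bd i hi _) v hv i h1 h2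
  -- change of variables
  set η : E d := R⁻¹ • (gr q y0 - x) with hη
  have hG : ∀ v, (fun y => (κ (R • (y - y0)) * a y) *
      Complex.exp (((q y - ⟪x, y⟫ : ℝ) : ℂ) * Complex.I)) (y0 + R⁻¹ • v) =
      (b v * Complex.exp (((⟪η, v⟫ : ℝ) : ℂ) * Complex.I)) *
        Complex.exp (((q y0 - ⟪x, y0⟫ : ℝ) : ℂ) * Complex.I) := by
    intro v
    have h1 : R • (y0 + R⁻¹ • v - y0) = v := by
      rw [add_sub_cancel_left, smul_smul, mul_inv_cancel₀ hR0.ne', one_smul]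
    have h2 : q (y0 + R⁻¹ • v) - ⟪x, y0 + R⁻¹ • v⟫ =
        rem q R y0 v + ⟪η, v⟫ + (q y0 - ⟪x, y0⟫) := by
      rw [hη, rem, inner_smul_left, inner_smul_left, inner_sub_left, inner_add_right,
        inner_smul_right]
      simp only [conj_trivial]
      ring
    simp only [h1, h2, hb, ham, hat0, GPH.ee]
    push_cast
    rw [add_mul, add_mul, Complex.exp_add, Complex.exp_add]
    ring
  have hint : uu (fun y => κ (R • (y - y0)) * a y) q x = ((R ^ d)⁻¹ : ℝ) •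
      ((∫ v, b v * Complex.exp (((⟪η, v⟫ : ℝ) : ℂ) * Complex.I)) *
        Complex.exp (((q y0 - ⟪x, y0⟫ : ℝ) : ℂ) * Complex.I)) := by
    rw [← integral_mul_const]
    simp_rw [← hG]
    set H : E d → ℂ := fun y => (κ (R • (y - y0)) * a y) *
      Complex.exp (((q y - ⟪x, y⟫ : ℝ) : ℂ) * Complex.I) with hH
    have h3 : ∫ v, H (y0 + R⁻¹ • v) = |((R⁻¹) ^ d)⁻¹| • ∫ y, H y := by
      have h4 := Measure.integral_comp_smul (volume : Measure (E d)) (fun w => H (y0 + w)) R⁻¹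
      rw [h4, finrank_euclideanSpace, Fintype.card_fin, integral_add_left_eq_self H y0]
    change ∫ y, H y = ((R ^ d)⁻¹ : ℝ) • ∫ v, H (y0 + R⁻¹ • v)
    rw [h3, smul_smul, inv_pow, inv_inv, abs_of_pos (by positivity),
      inv_mul_cancel₀ (by positivity), one_smul]
  rw [hint, norm_smul, norm_mul, Complex.norm_exp_ofReal_mul_I, mul_one,
    Real.norm_of_nonneg (by positivity)]
  -- Fourier transform
  set w : E d := -((2 * π)⁻¹ • η) with hw
  have hFou : ∫ z, b z * Complex.exp (((⟪η, z⟫ : ℝ) : ℂ) * Complex.I) =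
      FourierTransform.fourier b w := by
    rw [Real.fourier_eq']
    refine integral_congr_ae (Filter.Eventually.of_forall fun z => ?_)
    simp only [smul_eq_mul]
    rw [mul_comm]
    congr 3
    rw [hw, inner_neg_right, inner_smul_right, real_inner_comm z η]
    field_simp
  rw [hFou]
  have h9 := hC b M2 (hbc.of_le (by exact_mod_cast le_top)) hb0 hbb w
  have hwn : ‖x - gr q y0‖ / R = 2 * π * ‖w‖ := by
    rw [hw, norm_neg, norm_smul, Real.norm_of_nonneg (by positivity), hη, norm_smul,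
      Real.norm_of_nonneg (by positivity), norm_sub_rev]
    field_simp
  rw [hwn]
  have h10 : (1 + 2 * π * ‖w‖) ^ (d + 1) ≤ (2 * π) ^ (d + 1) * (1 + ‖w‖) ^ (d + 1) := by
    rw [← mul_pow]
    refine pow_le_pow_left₀ (by positivity) ?_ _
    have : (1 : ℝ) ≤ 2 * π := by linarith [Real.two_le_pi]
    nlinarith [norm_nonneg w]
  have h11 : ‖FourierTransform.fourier b w‖ ≤
      (C * M2 * (2 * π) ^ (d + 1) + 1) * ((1 + 2 * π * ‖w‖) ^ (d + 1))⁻¹ := by
    rw [← div_eq_mul_inv, le_div_iff₀ (by positivity)]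
    calc ‖FourierTransform.fourier b w‖ * (1 + 2 * π * ‖w‖) ^ (d + 1)
        ≤ ‖FourierTransform.fourier b w‖ * ((2 * π) ^ (d + 1) * (1 + ‖w‖) ^ (d + 1)) :=
          mul_le_mul_of_nonneg_left h10 (norm_nonneg _)
      _ = (2 * π) ^ (d + 1) * (‖FourierTransform.fourier b w‖ * (1 + ‖w‖) ^ (d + 1)) := by ring
      _ ≤ (2 * π) ^ (d + 1) * (C * M2) := mul_le_mul_of_nonneg_left h9 (by positivity)
      _ ≤ _ := by linarith
  calc (R ^ d)⁻¹ * ‖FourierTransform.fourier b w‖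
      ≤ (R ^ d)⁻¹ * ((C * M2 * (2 * π) ^ (d + 1) + 1) * ((1 + 2 * π * ‖w‖) ^ (d + 1))⁻¹) :=
        mul_le_mul_of_nonneg_left h11 (by positivity)
    _ = _ := by ring

end Pool.Agent.GNP
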