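import Pool.Agent.GNP.Defs2
import Pool.Agent.GNP.P1g

namespace Pool.Agent.GNP

open MeasureTheory Set Pool.Agent.MP_6cbfb8_an
open scoped ENNReal Real RealInnerProductSpace ContDiff

/-- A1. Packets are localised. -/
theorem packet_c (d : ℕ) (A : ℕ → ℝ) (κ : ℝ) (ρ : E d → ℝ) (hρ : Ker κ ρ) : ∃ K : ℝ, 0 < K ∧
    ∀ (a : E d → ℂ) (q : E d → ℝ) (r R : ℝ), 1 ≤ R → Amp d A r a → Phq d A R q →
    ∀ z x, ‖uz ρ a q R z x‖ ≤ K * ((1 + ‖x - gr q z‖ / R) ^ (d + 1))⁻¹ := by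
  obtain ⟨K, hK, h⟩ := packet_gen d A (fun v => (ρ v : ℂ))
    (Complex.ofRealCLM.contDiff.comp hρ.sm) κ (fun v hv => by rw [hρ.supp v hv]; rfl)
  refine ⟨K, hK, fun a q r R hR ha hq z x => ?_⟩
  have h1 := h a q r R hR ha hq z x
  have hR0 : 0 < R := by linarith
  have hRd : 0 < R ^ d := by positivity
  have h2 : uz ρ a q R z x = ((R ^ d : ℝ) : ℂ) * uu (fun y => (ρ (R • (y - z)) : ℂ) * a y) q x := by
    unfold uz uu
    rw [← integral_const_mul]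
    refine integral_congr_ae (Filter.Eventually.of_forall fun y => ?_)
    push_cast
    ring
  rw [h2, norm_mul, Complex.norm_real, Real.norm_of_nonneg hRd.le]
  calc R ^ d * ‖uu (fun y => (ρ (R • (y - z)) : ℂ) * a y) q x‖
      ≤ R ^ d * (K * (R ^ d)⁻¹ * ((1 + ‖x - gr q z‖ / R) ^ (d + 1))⁻¹) :=
        mul_le_mul_of_nonneg_left h1 hRd.le
    _ = K * ((1 + ‖x - gr q z‖ / R) ^ (d + 1))⁻¹ := by
        field_simp

end Pool.Agent.GNP
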