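import Pool.Agent.GNP.Defs2

namespace Pool.Agent.GNP

open MeasureTheory Set Pool.Agent.MP_6cbfb8_an
open scoped ENNReal Real RealInnerProductSpace ContDiff

/-- The integrand of the packets as a function of `(z, y)`. -/
noncomputable def a2_G {d : ℕ} (ρ : E d → ℝ) (a : E d → ℂ) (q : E d → ℝ) (R : ℝ) (x : E d)
    (p : E d × E d) : ℂ :=
  ((R ^ d * ρ (R • (p.2 - p.1)) : ℝ) : ℂ) * a p.2 *
    Complex.exp (((q p.2 - ⟪x, p.2⟫ : ℝ) : ℂ) * Complex.I)

theorem a2_cont {d : ℕ} {ρ : E d → ℝ} {a : E d → ℂ} {q : E d → ℝ} (hρ : Continuous ρ)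
    (ha : Continuous a) (hq : Continuous q) (R : ℝ) (x : E d) : Continuous (a2_G ρ a q R x) := by
  unfold a2_G
  have h1 : Continuous fun p : E d × E d => ρ (R • (p.2 - p.1)) :=
    hρ.comp (by fun_prop)
  have h2 : Continuous fun p : E d × E d => a p.2 := ha.comp continuous_snd
  have h3 : Continuous fun p : E d × E d => q p.2 := hq.comp continuous_snd
  have h4 : Continuous fun p : E d × E d => ⟪x, p.2⟫ := continuous_const.inner continuous_snd
  refine ((Complex.continuous_ofReal.comp (continuous_const.mul h1)).mul h2).mul ?_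
  exact Complex.continuous_exp.comp
    ((Complex.continuous_ofReal.comp (h3.sub h4)).mul continuous_const)

theorem a2_integrable {d : ℕ} {κ : ℝ} {ρ : E d → ℝ} (hρ : Ker κ ρ) {a : E d → ℂ} {q : E d → ℝ}
    {r R : ℝ} (hR : 1 ≤ R) (ha : Continuous a) (has : ∀ y, r < ‖y‖ → a y = 0) (hq : Continuous q)
    (x : E d) : Integrable (a2_G ρ a q R x) ((volume : Measure (E d)).prod volume) := by
  refine (a2_cont hρ.sm.continuous ha hq R x).integrable_of_hasCompactSupport ?_
  refine HasCompactSupport.intro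
    ((isCompact_closedBall (0 : E d) (|r| + |κ| + 1)).prod (isCompact_closedBall (0 : E d) |r|)) ?_
  rintro ⟨z, y⟩ hzy
  unfold a2_G
  by_cases hy : ‖y‖ ≤ |r|
  · have hz : |r| + |κ| + 1 < ‖z‖ := by
      by_contra hcon
      push Not at hcon
      exact hzy ⟨by simpa using hcon, by simpa using hy⟩
    have h1 : |κ| < ‖y - z‖ := by
      have : ‖z‖ ≤ ‖y‖ + ‖y - z‖ := by
        have h2 := norm_sub_le y (y - z)
        have h3 : y - (y - z) = z := by abel
        rwa [h3] at h2
      linarith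
    have h2 : κ < ‖R • (y - z)‖ := by
      rw [norm_smul, Real.norm_of_nonneg (by linarith)]
      have : ‖y - z‖ ≤ R * ‖y - z‖ := le_mul_of_one_le_left (norm_nonneg _) hR
      linarith [le_abs_self κ]
    simp [hρ.supp _ h2]
  · push Not at hy
    have : a y = 0 := has y (lt_of_le_of_lt (le_abs_self r) hy)
    simp [this]

theorem a2_integrable_restrict {d : ℕ} {κ : ℝ} {ρ : E d → ℝ} (hρ : Ker κ ρ) {a : E d → ℂ}
    {q : E d → ℝ} {r R : ℝ} (hR : 1 ≤ R) (ha : Continuous a) (has : ∀ y, r < ‖y‖ → a y = 0)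
    (hq : Continuous q) (x : E d) (F : Set (E d)) :
    Integrable (a2_G ρ a q R x) ((volume.restrict F).prod (volume : Measure (E d))) := by
  rw [Measure.restrict_prod_eq_prod_univ]
  exact (a2_integrable hρ hR ha has hq x).restrict

theorem a2_uz {d : ℕ} (ρ : E d → ℝ) (a : E d → ℂ) (q : E d → ℝ) (R : ℝ) (z x : E d) :
    uz ρ a q R z x = ∫ y, a2_G ρ a q R x (z, y) := rfl

/-- The weight of the set `F` at the point `y`. -/
noncomputable def a2_w {d : ℕ} (ρ : E d → ℝ) (R : ℝ) (F : Set (E d)) (y : E d) : ℝ :=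
  ∫ z in F, R ^ d * ρ (R • (y - z))

theorem a2_inner {d : ℕ} (ρ : E d → ℝ) (a : E d → ℂ) (q : E d → ℝ) (R : ℝ) (F : Set (E d))
    (x y : E d) : ∫ z in F, a2_G ρ a q R x (z, y) =
      ((a2_w ρ R F y : ℝ) : ℂ) * a y * Complex.exp (((q y - ⟪x, y⟫ : ℝ) : ℂ) * Complex.I) := by
  unfold a2_G a2_w
  simp only
  rw [integral_mul_const, integral_mul_const, integral_complex_ofReal]

/-- A2. Fubini. -/
theorem fubini_c (d : ℕ) (κ : ℝ) (ρ : E d → ℝ) (hρ : Ker κ ρ) (a : E d → ℂ) (q : E d → ℝ)
    (r R : ℝ) (hR : 1 ≤ R) (ha : Continuous a) (has : ∀ y, r < ‖y‖ → a y = 0) (hq : Continuous q)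
    (F : Set (E d)) (hF : MeasurableSet F) (x : E d) :
    uF ρ a q R F x = uu (fun y => ((∫ z in F, R ^ d * ρ (R • (y - z)) : ℝ) : ℂ) * a y) q x := by
  unfold uF
  simp_rw [a2_uz]
  rw [integral_integral_swap (f := fun z y => a2_G ρ a q R x (z, y))
    (a2_integrable_restrict hρ hR ha has hq x F)]
  unfold uu
  refine integral_congr_ae (Filter.Eventually.of_forall fun y => ?_)
  exact a2_inner ρ a q R F x y

/-- A2'. All packets together give the whole function. -/
theorem fubini_all (d : ℕ) (κ : ℝ) (ρ : E d → ℝ) (hρ : Ker κ ρ) (h1 : ∫ v, ρ v = 1) (a : E d → ℂ)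
    (q : E d → ℝ) (r r' R : ℝ) (hR : 1 ≤ R) (hκ : r + κ ≤ r') (ha : Continuous a)
    (has : ∀ y, r < ‖y‖ → a y = 0) (hq : Continuous q) (x : E d) :
    uF ρ a q R (Metric.closedBall 0 r') x = uu a q x := by
  rw [fubini_c d κ ρ hρ a q r R hR ha has hq _ Metric.isClosed_closedBall.measurableSet]
  have hR0 : 0 < R := by linarith
  congr 1
  funext y
  by_cases hy : r < ‖y‖
  · simp [has y hy]
  push Not at hy
  have h2 : ∫ z in Metric.closedBall (0 : E d) r', R ^ d * ρ (R • (y - z)) = 1 := by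
    rw [setIntegral_eq_integral_of_forall_compl_eq_zero]
    · rw [integral_const_mul, integral_sub_left_eq_self (fun z => ρ (R • z)) volume y,
        Measure.integral_comp_smul_of_nonneg volume ρ R (hR := hR0.le), h1,
        finrank_euclideanSpace_fin, smul_eq_mul, mul_one, mul_inv_cancel₀ (by positivity)]
    · intro z hz
      rw [mem_closedBall_zero_iff, not_le] at hz
      have h3 : κ < ‖y - z‖ := by
        have : ‖z‖ ≤ ‖y‖ + ‖y - z‖ := by
          have h4 := norm_sub_le y (y - z)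
          have h5 : y - (y - z) = z := by abel
          rwa [h5] at h4
        linarith
      have h6 : κ < ‖R • (y - z)‖ := by
        rw [norm_smul, Real.norm_of_nonneg hR0.le]
        have : ‖y - z‖ ≤ R * ‖y - z‖ := le_mul_of_one_le_left (norm_nonneg _) hR
        linarith
      rw [hρ.supp _ h6, mul_zero]
  rw [h2]
  simp

/-- A2''. Measurability in `x`. -/
theorem continuous_uF (d : ℕ) (κ : ℝ) (ρ : E d → ℝ) (hρ : Ker κ ρ) (a : E d → ℂ) (q : E d → ℝ)
    (r R : ℝ) (hR : 1 ≤ R) (ha : Continuous a) (has : ∀ y, r < ‖y‖ → a y = 0) (hq : Continuous q)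
    (F : Set (E d)) (hF : MeasurableSet F) : Continuous (uF ρ a q R F) := by
  have h0 : uF ρ a q R F = fun x => ∫ y, ((a2_w ρ R F y : ℝ) : ℂ) * a y *
      Complex.exp (((q y - ⟪x, y⟫ : ℝ) : ℂ) * Complex.I) := by
    funext x
    exact fubini_c d κ ρ hρ a q r R hR ha has hq F hF x
  have hint : ∀ x : E d, Integrable (fun y => ((a2_w ρ R F y : ℝ) : ℂ) * a y *
      Complex.exp (((q y - ⟪x, y⟫ : ℝ) : ℂ) * Complex.I)) := by
    intro x
    have h1 := (a2_integrable_restrict hρ hR ha has hq x F).integral_prod_right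
    refine h1.congr (Filter.Eventually.of_forall fun y => ?_)
    exact a2_inner ρ a q R F x y
  have hnorm : ∀ x y : E d, ‖((a2_w ρ R F y : ℝ) : ℂ) * a y *
      Complex.exp (((q y - ⟪x, y⟫ : ℝ) : ℂ) * Complex.I)‖ = ‖((a2_w ρ R F y : ℝ) : ℂ) * a y‖ := by
    intro x y
    rw [norm_mul, Complex.norm_exp_ofReal_mul_I, mul_one]
  rw [h0]
  refine continuous_of_dominated (bound := fun y => ‖((a2_w ρ R F y : ℝ) : ℂ) * a y‖)
    (fun x => (hint x).aestronglyMeasurable)
    (fun x => Filter.Eventually.of_forall fun y => (hnorm x y).le) ?_ ?_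
  · refine (hint 0).norm.congr (Filter.Eventually.of_forall fun y => ?_)
    exact hnorm 0 y
  · refine Filter.Eventually.of_forall fun y => ?_
    have h4 : Continuous fun x : E d => ⟪x, y⟫ := continuous_id.inner continuous_const
    exact continuous_const.mul (Complex.continuous_exp.comp
      ((Complex.continuous_ofReal.comp (continuous_const.sub h4)).mul continuous_const))

/-- A2'''. Additivity in `F`. -/
theorem uF_union (d : ℕ) (κ : ℝ) (ρ : E d → ℝ) (hρ : Ker κ ρ) (a : E d → ℂ) (q : E d → ℝ)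
    (r R : ℝ) (hR : 1 ≤ R) (ha : Continuous a) (has : ∀ y, r < ‖y‖ → a y = 0) (hq : Continuous q)
    (F G : Set (E d)) (hF : MeasurableSet F) (hG : MeasurableSet G) (hFG : Disjoint F G) (x : E d) :
    uF ρ a q R (F ∪ G) x = uF ρ a q R F x + uF ρ a q R G x := by
  unfold uF
  exact setIntegral_union hFG hG (a2_integrable_restrict hρ hR ha has hq x F).integral_prod_left
    (a2_integrable_restrict hρ hR ha has hq x G).integral_prod_left

end Pool.Agent.GNP
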