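import Pool.Agent.GNP.Defs

/-!
Almost every phase, in all dimensions: continuous wave packets.
-/

namespace Pool.Agent.GNP

open MeasureTheory Set Pool.Agent.MP_6cbfb8_an
open scoped ENNReal Real RealInnerProductSpace ContDiff

/-- Smooth kernels which vanish outside the ball of radius `κ`. -/
structure Ker {d : ℕ} (κ : ℝ) (ρ : E d → ℝ) : Prop where
  sm : ContDiff ℝ ∞ ρ
  supp : ∀ v, κ < ‖v‖ → ρ v = 0

/-- The wave packet at `z` at scale `1/R`. -/
noncomputable def uz {d : ℕ} (ρ : E d → ℝ) (a : E d → ℂ) (q : E d → ℝ) (R : ℝ) (z x : E d) : ℂ :=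
  uu (fun y => ((R ^ d * ρ (R • (y - z)) : ℝ) : ℂ) * a y) q x

/-- The superposition of the packets at the points of `F`. -/
noncomputable def uF {d : ℕ} (ρ : E d → ℝ) (a : E d → ℂ) (q : E d → ℝ) (R : ℝ) (F : Set (E d))
    (x : E d) : ℂ := ∫ z in F, uz ρ a q R z x

end Pool.Agent.GNP
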