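import Pool.Agent.MP_6cbfb8_an.Bessel
import Pool.Agent.GNP.Defs2

/-!
The `L²` bound for families of wave packets.
-/

namespace Pool.Agent.GNP

open MeasureTheory Set Pool.Agent.MP_6cbfb8_an
open scoped ENNReal Real RealInnerProductSpace

/-- Plancherel's inequality. -/
theorem planch (d : ℕ) (G : E d → ℂ) (hG : Integrable G) :
    ∫⁻ x : E d, ‖∫ y, G y * Complex.exp (((-⟪x, y⟫ : ℝ) : ℂ) * Complex.I)‖ₑ ^ (2:ℝ) ≤
      ENNReal.ofReal ((2 * π) ^ d) * ∫⁻ y, ‖G y‖ₑ ^ (2:ℝ) := by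
  have hπ : (2 * π) ≠ 0 := by positivity
  have hA : ∀ φ : E d → ℝ≥0∞, Measurable φ →
      ∫⁻ y : E d, φ ((2 * π)⁻¹ • y) ≤ ENNReal.ofReal ((2 * π) ^ d) * ∫⁻ x, φ x := by
    intro φ hφ
    have h2 : ∫⁻ x : E d, φ ((2 * π)⁻¹ • x) =
        ∫⁻ x, φ x ∂(Measure.map (fun x : E d => (2 * π)⁻¹ • x) volume) :=
      (lintegral_map hφ (measurable_const_smul _)).symm
    rw [h2, Measure.map_addHaar_smul volume (inv_ne_zero hπ), lintegral_smul_measure]
    refine le_of_eq ?_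
    rw [smul_eq_mul]
    congr 2
    rw [finrank_euclideanSpace, Fintype.card_fin, inv_pow, inv_inv, abs_of_nonneg (by positivity)]
  have key := Pool.Agent.MP_6cbfb8_an.bessel (volume : Measure (E d))
    (fun y : E d => (2 * π)⁻¹ • y) (measurable_const_smul _) (ENNReal.ofReal ((2 * π) ^ d))
    ENNReal.ofReal_ne_top hA G hG
  refine le_trans (le_of_eq ?_) key
  refine lintegral_congr fun x => ?_
  congr 2
  refine integral_congr_ae (Filter.Eventually.of_forall fun y => ?_)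
  simp only
  rw [real_inner_smul_left, mul_inv_cancel_left₀ hπ, real_inner_comm]

/-- The `L²` bound, for a kernel `k` with integrals at most `B` in both variables. -/
theorem L2_ker (d : ℕ) (A0 B : ℝ) (hA0 : 0 ≤ A0) (hB : 0 ≤ B) (a : E d → ℂ) (ham : Measurable a)
    (ha : ∀ y, ‖a y‖ ≤ A0) (q : E d → ℝ) (hq : Measurable q) (k : E d → E d → ℝ)
    (hk : Measurable (Function.uncurry k))
    (h1 : ∀ y, ∫⁻ z, ‖k z y‖ₑ ≤ ENNReal.ofReal B) (h2 : ∀ z, ∫⁻ y, ‖k z y‖ₑ ≤ ENNReal.ofReal B)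
    (F : Set (E d)) (hF : volume F ≠ ⊤) :
    (∀ x, ∫ z in F, ∫ y, (k z y : ℂ) * a y * Complex.exp (((q y - ⟪x, y⟫ : ℝ) : ℂ) * Complex.I) =
      ∫ y, ((∫ z in F, k z y : ℝ) : ℂ) * a y *
        Complex.exp (((q y - ⟪x, y⟫ : ℝ) : ℂ) * Complex.I)) ∧
    ∫⁻ x, ‖∫ z in F, ∫ y, (k z y : ℂ) * a y *
        Complex.exp (((q y - ⟪x, y⟫ : ℝ) : ℂ) * Complex.I)‖ₑ ^ (2:ℝ) ≤
      ENNReal.ofReal ((2 * π) ^ d * (A0 ^ 2 * B ^ 2)) * volume F := by
  -- Fubini
  have hkm : Measurable (fun p : E d × E d => k p.1 p.2) := hk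
  have hexp : ∀ (x : E d), Measurable fun y : E d =>
      Complex.exp (((q y - ⟪x, y⟫ : ℝ) : ℂ) * Complex.I) := by
    intro x
    fun_prop
  have hnexp : ∀ (x y : E d), ‖Complex.exp (((q y - ⟪x, y⟫ : ℝ) : ℂ) * Complex.I)‖ = 1 :=
    fun x y => Complex.norm_exp_ofReal_mul_I _
  have htot : ∫⁻ z in F, (∫⁻ y, ‖k z y‖ₑ) ≤ ENNReal.ofReal B * volume F := by
    calc ∫⁻ z in F, (∫⁻ y, ‖k z y‖ₑ) ≤ ∫⁻ _ in F, ENNReal.ofReal B := lintegral_mono fun z => h2 z
      _ = ENNReal.ofReal B * volume F := by simp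
  have hBF : ENNReal.ofReal B * volume F < ⊤ :=
    ENNReal.mul_lt_top ENNReal.ofReal_lt_top (lt_top_iff_ne_top.2 hF)
  have hint : ∀ x : E d, Integrable (Function.uncurry fun z y => (k z y : ℂ) * a y *
      Complex.exp (((q y - ⟪x, y⟫ : ℝ) : ℂ) * Complex.I))
      ((volume.restrict F).prod (volume : Measure (E d))) := by
    intro x
    have hm : Measurable (Function.uncurry fun z y => (k z y : ℂ) * a y *
      Complex.exp (((q y - ⟪x, y⟫ : ℝ) : ℂ) * Complex.I)) := by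
      refine Measurable.mul (Measurable.mul ?_ (ham.comp measurable_snd))
        ((hexp x).comp measurable_snd)
      exact Complex.measurable_ofReal.comp hkm
    refine ⟨hm.aestronglyMeasurable, ?_⟩
    rw [HasFiniteIntegral, lintegral_prod _ hm.enorm.aemeasurable]
    have h3 : ∀ z y, ‖Function.uncurry (fun z y => (k z y : ℂ) * a y *
        Complex.exp (((q y - ⟪x, y⟫ : ℝ) : ℂ) * Complex.I)) (z, y)‖ₑ ≤
        ENNReal.ofReal A0 * ‖k z y‖ₑ := by
      intro z y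
      rw [← ofReal_norm (k z y), ← ENNReal.ofReal_mul hA0, ← ofReal_norm]
      refine ENNReal.ofReal_le_ofReal ?_
      simp only [Function.uncurry]
      rw [norm_mul, norm_mul, hnexp, mul_one, Complex.norm_real, mul_comm]
      exact mul_le_mul_of_nonneg_right (ha y) (norm_nonneg _)
    calc _ ≤ ∫⁻ z in F, ∫⁻ y, ENNReal.ofReal A0 * ‖k z y‖ₑ :=
          lintegral_mono fun z => lintegral_mono fun y => h3 z y
      _ = ∫⁻ z in F, ENNReal.ofReal A0 * ∫⁻ y, ‖k z y‖ₑ := by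
          refine lintegral_congr fun z => lintegral_const_mul' _ _ ENNReal.ofReal_ne_top
      _ = ENNReal.ofReal A0 * ∫⁻ z in F, ∫⁻ y, ‖k z y‖ₑ :=
          lintegral_const_mul' _ _ ENNReal.ofReal_ne_top
      _ ≤ ENNReal.ofReal A0 * (ENNReal.ofReal B * volume F) := by gcongr
      _ < ⊤ := ENNReal.mul_lt_top ENNReal.ofReal_lt_top hBF
  have hfub : ∀ x, ∫ z in F, ∫ y, (k z y : ℂ) * a y *
      Complex.exp (((q y - ⟪x, y⟫ : ℝ) : ℂ) * Complex.I) =
      ∫ y, ((∫ z in F, k z y : ℝ) : ℂ) * a y *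
        Complex.exp (((q y - ⟪x, y⟫ : ℝ) : ℂ) * Complex.I) := by
    intro x
    rw [integral_integral_swap (hint x)]
    refine integral_congr_ae (ae_of_all _ fun y => ?_)
    simp only
    have h5 : (∫ z in F, (k z y : ℂ)) = ((∫ z in F, k z y : ℝ) : ℂ) :=
      integral_ofReal (𝕜 := ℂ) (μ := volume.restrict F) (f := fun z => k z y)
    rw [integral_mul_const, integral_mul_const, h5]
  refine ⟨hfub, ?_⟩
  -- the kernel averaged over F
  set K : E d → ℝ := fun y => ∫ z in F, k z y with hK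
  have hKm : Measurable K := by
    have : StronglyMeasurable K := (hkm.comp measurable_swap).stronglyMeasurable.integral_prod_right
      (f := fun y z => k z y)
    exact this.measurable
  have hKe : ∀ y, ‖K y‖ₑ ≤ ∫⁻ z in F, ‖k z y‖ₑ := fun y => enorm_integral_le_lintegral_enorm _
  have hK1 : ∀ y, ‖K y‖ ≤ B := by
    intro y
    have : ‖K y‖ₑ ≤ ENNReal.ofReal B :=
      (hKe y).trans ((setLIntegral_le_lintegral _ _).trans (h1 y))
    rw [← ofReal_norm] at this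
    exact (ENNReal.ofReal_le_ofReal_iff hB).1 this
  have hKint : ∫⁻ y, ‖K y‖ₑ ≤ ENNReal.ofReal B * volume F := by
    refine (lintegral_mono fun y => hKe y).trans ?_
    rw [lintegral_lintegral_swap]
    · exact htot
    · exact (hkm.comp measurable_swap).enorm.aemeasurable
  -- Plancherel
  set G : E d → ℂ := fun y => (K y : ℂ) * a y * Complex.exp (((q y : ℝ) : ℂ) * Complex.I) with hG
  have hGm : Measurable G := by
    have := Complex.measurable_ofReal.comp hKm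
    have h4 := Complex.measurable_ofReal.comp hq
    exact (this.mul ham).mul (Complex.measurable_exp.comp (h4.mul_const _))
  have hGn : ∀ y, ‖G y‖ = ‖K y‖ * ‖a y‖ := by
    intro y
    simp only [hG]
    rw [norm_mul, norm_mul, Complex.norm_exp_ofReal_mul_I, mul_one, Complex.norm_real]
  have hGi : Integrable G := by
    refine ⟨hGm.aestronglyMeasurable, ?_⟩
    rw [HasFiniteIntegral]
    calc ∫⁻ y, ‖G y‖ₑ ≤ ∫⁻ y, ENNReal.ofReal A0 * ‖K y‖ₑ := by
          refine lintegral_mono fun y => ?_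
          rw [← ofReal_norm (K y), ← ENNReal.ofReal_mul hA0, ← ofReal_norm, hGn y]
          refine ENNReal.ofReal_le_ofReal ?_
          rw [mul_comm]
          exact mul_le_mul_of_nonneg_right (ha y) (norm_nonneg _)
      _ = ENNReal.ofReal A0 * ∫⁻ y, ‖K y‖ₑ :=
          lintegral_const_mul' _ _ ENNReal.ofReal_ne_top
      _ ≤ ENNReal.ofReal A0 * (ENNReal.ofReal B * volume F) := by gcongr
      _ < ⊤ := ENNReal.mul_lt_top ENNReal.ofReal_lt_top hBF
  have hG2 : ∫⁻ y, ‖G y‖ₑ ^ (2:ℝ) ≤ ENNReal.ofReal (A0 ^ 2 * B ^ 2) * volume F := by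
    calc ∫⁻ y, ‖G y‖ₑ ^ (2:ℝ) ≤ ∫⁻ y, ENNReal.ofReal (A0 ^ 2 * B) * ‖K y‖ₑ := by
          refine lintegral_mono fun y => ?_
          rw [← ofReal_norm (K y), ← ENNReal.ofReal_mul (by positivity), ← ofReal_norm, hGn y,
            ENNReal.ofReal_rpow_of_nonneg (by positivity) (by norm_num)]
          refine ENNReal.ofReal_le_ofReal ?_
          rw [Real.rpow_two, mul_pow, mul_comm]
          have h5 : ‖a y‖ ^ 2 ≤ A0 ^ 2 := pow_le_pow_left₀ (norm_nonneg _) (ha y) 2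
          have h6 : ‖K y‖ ^ 2 ≤ B * ‖K y‖ := by nlinarith [norm_nonneg (K y), hK1 y]
          rw [mul_assoc]
          exact mul_le_mul h5 h6 (by positivity) (by positivity)
      _ = ENNReal.ofReal (A0 ^ 2 * B) * ∫⁻ y, ‖K y‖ₑ :=
          lintegral_const_mul' _ _ ENNReal.ofReal_ne_top
      _ ≤ ENNReal.ofReal (A0 ^ 2 * B) * (ENNReal.ofReal B * volume F) := by gcongr
      _ = _ := by
        rw [← mul_assoc, ← ENNReal.ofReal_mul (by positivity)]
        congr 2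
        ring
  have hP := planch d G hGi
  calc ∫⁻ x, ‖∫ z in F, ∫ y, (k z y : ℂ) * a y *
        Complex.exp (((q y - ⟪x, y⟫ : ℝ) : ℂ) * Complex.I)‖ₑ ^ (2:ℝ)
      = ∫⁻ x : E d, ‖∫ y, G y * Complex.exp (((-⟪x, y⟫ : ℝ) : ℂ) * Complex.I)‖ₑ ^ (2:ℝ) := by
        refine lintegral_congr fun x => ?_
        rw [hfub x]
        congr 2
        refine integral_congr_ae (ae_of_all _ fun y => ?_)
        simp only [hG, hK]
        rw [mul_assoc (_ * a y), ← Complex.exp_add]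
        congr 2
        push_cast
        ring
    _ ≤ ENNReal.ofReal ((2 * π) ^ d) * ∫⁻ y, ‖G y‖ₑ ^ (2:ℝ) := hP
    _ ≤ ENNReal.ofReal ((2 * π) ^ d) * (ENNReal.ofReal (A0 ^ 2 * B ^ 2) * volume F) := by gcongr
    _ = _ := by rw [← mul_assoc, ← ENNReal.ofReal_mul (by positivity)]

/-- The integral of a scaled kernel. -/
theorem lint_scaled (d : ℕ) (ρ : E d → ℝ) (R : ℝ) (hR : 0 < R) :
    (∀ z : E d, ∫⁻ y, ‖R ^ d * ρ (R • (y - z))‖ₑ = ∫⁻ v, ‖ρ v‖ₑ) ∧
    (∀ y : E d, ∫⁻ z, ‖R ^ d * ρ (R • (y - z))‖ₑ = ∫⁻ v, ‖ρ v‖ₑ) := by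
  have hRd : 0 < R ^ d := by positivity
  have h0 : ∫⁻ v : E d, ‖R ^ d * ρ (R • v)‖ₑ = ∫⁻ v, ‖ρ v‖ₑ := by
    simp_rw [enorm_mul]
    rw [lintegral_const_mul' _ _ enorm_ne_top]
    have h4 := (Homeomorph.smulOfNeZero (R : ℝ) hR.ne' (α := E d)).measurableEmbedding.lintegral_map
      (μ := volume) (fun y => ‖ρ y‖ₑ)
    have h5 : Measure.map (⇑(Homeomorph.smulOfNeZero (R : ℝ) hR.ne' (α := E d)))
        (volume : Measure (E d)) = ENNReal.ofReal (R ^ d)⁻¹ • volume := by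
      have := Measure.map_addHaar_smul (volume : Measure (E d)) hR.ne'
      simp only [finrank_euclideanSpace, Fintype.card_fin, abs_of_pos (inv_pos.2 hRd)] at this
      exact this
    rw [h5, lintegral_smul_measure, smul_eq_mul] at h4
    have h6 : ∫⁻ v : E d, ‖ρ (R • v)‖ₑ = ENNReal.ofReal (R ^ d)⁻¹ * ∫⁻ v, ‖ρ v‖ₑ := h4.symm
    rw [h6, ← mul_assoc, Real.enorm_of_nonneg hRd.le, ← ENNReal.ofReal_mul hRd.le,
      mul_inv_cancel₀ hRd.ne']
    simp
  refine ⟨fun z => ?_, fun y => ?_⟩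
  · rw [← h0, lintegral_sub_right_eq_self (fun v : E d => ‖R ^ d * ρ (R • v)‖ₑ) z]
  · rw [← h0, lintegral_sub_left_eq_self (fun v : E d => ‖R ^ d * ρ (R • v)‖ₑ) y]

/-- A3. `L^2` bound (Plancherel). -/
theorem L2_c (d : ℕ) (A : ℕ → ℝ) (κ : ℝ) (ρ : E d → ℝ) (hρ : Ker κ ρ) : ∃ K : ℝ, 0 < K ∧
    ∀ (a : E d → ℂ) (q : E d → ℝ) (r R : ℝ), 1 ≤ R → Amp d A r a → Continuous q →
    ∀ F : Set (E d), MeasurableSet F →
      ∫⁻ x, ‖uF ρ a q R F x‖ₑ ^ (2 : ℝ) ≤ ENNReal.ofReal K * volume F := by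
  have hρc : Continuous ρ := hρ.sm.continuous
  have hρs : HasCompactSupport ρ := by
    refine HasCompactSupport.of_support_subset_isCompact (isCompact_closedBall (0 : E d) κ) ?_
    intro v hv
    by_contra h
    have h1 : κ < ‖v‖ := by simpa using h
    exact hv (hρ.supp v h1)
  have hρi : Integrable ρ := hρc.integrable_of_hasCompactSupport hρs
  set B : ℝ := (∫⁻ v, ‖ρ v‖ₑ).toReal with hB
  have hB0 : 0 ≤ B := ENNReal.toReal_nonneg
  have hBe : ∫⁻ v, ‖ρ v‖ₑ = ENNReal.ofReal B := (ENNReal.ofReal_toReal hρi.2.ne).symm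
  refine ⟨(2 * π) ^ d * ((|A 0|) ^ 2 * B ^ 2) + 1, by positivity, ?_⟩
  intro a q r R hR ha hq F hF
  have hR0 : 0 < R := by linarith
  by_cases hFt : volume F = ⊤
  · rw [hFt, ENNReal.mul_top]
    · exact le_top
    · exact (ENNReal.ofReal_pos.2 (by positivity)).ne'
  have hab : ∀ y, ‖a y‖ ≤ |A 0| := by
    intro y
    have := ha.bd 0 y
    rw [norm_iteratedFDeriv_zero] at this
    exact this.trans (le_abs_self _)
  have hkm : Measurable (Function.uncurry fun z y : E d => R ^ d * ρ (R • (y - z))) := by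
    have : Continuous (fun p : E d × E d => R ^ d * ρ (R • (p.2 - p.1))) := by fun_prop
    exact this.measurable
  have h := (L2_ker d |A 0| B (abs_nonneg _) hB0 a ha.sm.continuous.measurable hab q hq.measurable
    (fun z y => R ^ d * ρ (R • (y - z))) hkm
    (fun y => by rw [← hBe]; exact ((lint_scaled d ρ R hR0).2 y).le)
    (fun z => by rw [← hBe]; exact ((lint_scaled d ρ R hR0).1 z).le) F hFt).2
  calc ∫⁻ x, ‖uF ρ a q R F x‖ₑ ^ (2 : ℝ)
      ≤ ENNReal.ofReal ((2 * π) ^ d * ((|A 0|) ^ 2 * B ^ 2)) * volume F := h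
    _ ≤ _ := by
      gcongr
      linarith

end Pool.Agent.GNP
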