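import Pool.Agent.GNP.Defs

namespace Pool.Agent.GNP

open MeasureTheory Set Pool.Agent.MP_6cbfb8_an
open scoped ENNReal Real RealInnerProductSpace ContDiff

/-! ## P0: calculus -/

/-- The dual map as a continuous linear map. -/
noncomputable def P0J (d : ℕ) : (E d →L[ℝ] ℝ) →ₗᵢ[ℝ] E d where
  toFun f := (InnerProductSpace.toDual ℝ (E d)).symm f
  map_add' f g := map_add _ f g
  map_smul' c f := by rw [map_smulₛₗ]; simp
  norm_map' f := (InnerProductSpace.toDual ℝ (E d)).symm.norm_map f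

theorem P0J_apply {d : ℕ} (f : E d →L[ℝ] ℝ) :
    P0J d f = (InnerProductSpace.toDual ℝ (E d)).symm f := rfl

theorem P0J_inner {d : ℕ} (f : E d →L[ℝ] ℝ) (v : E d) : ⟪P0J d f, v⟫ = f v := by
  rw [P0J_apply]; simp

theorem P0J_norm {d : ℕ} (f : E d →L[ℝ] ℝ) : ‖P0J d f‖ = ‖f‖ := (P0J d).norm_map f

theorem gr_eq {d : ℕ} (q : E d → ℝ) : gr q = fun y => P0J d (fderiv ℝ q y) := rfl

theorem inner_gr {d : ℕ} (q : E d → ℝ) (y v : E d) : ⟪gr q y, v⟫ = fderiv ℝ q y v :=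
  P0J_inner _ _

theorem differentiable_fderiv {d : ℕ} {q : E d → ℝ} (hq : ContDiff ℝ ∞ q) :
    Differentiable ℝ (fderiv ℝ q) :=
  (hq.fderiv_right (m := 1) (by norm_cast)).differentiable (by norm_num)

theorem hasFDerivAt_gr {d : ℕ} {q : E d → ℝ} (hq : ContDiff ℝ ∞ q) (y : E d) :
    HasFDerivAt (gr q) (Hs q y) y := by
  have h : DifferentiableAt ℝ (gr q) y := by
    rw [gr_eq]
    exact (P0J d).toContinuousLinearMap.differentiableAt.comp y (differentiable_fderiv hq y)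
  exact h.hasFDerivAt

theorem Hs_eq {d : ℕ} {q : E d → ℝ} (hq : ContDiff ℝ ∞ q) (y : E d) :
    Hs q y = (P0J d).toContinuousLinearMap.comp (fderiv ℝ (fderiv ℝ q) y) := by
  unfold Hs
  rw [gr_eq]
  exact ((P0J d).toContinuousLinearMap.hasFDerivAt.comp y
    (differentiable_fderiv hq y).hasFDerivAt).fderiv

theorem inner_Hs {d : ℕ} {q : E d → ℝ} (hq : ContDiff ℝ ∞ q) (y v w : E d) :
    ⟪Hs q y v, w⟫ = fderiv ℝ (fderiv ℝ q) y v w := by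
  rw [Hs_eq hq]
  exact P0J_inner _ _

theorem Hs_symm {d : ℕ} {q : E d → ℝ} (hq : ContDiff ℝ ∞ q) (y : E d) :
    ∀ v w : E d, ⟪Hs q y v, w⟫ = ⟪v, Hs q y w⟫ := by
  intro v w
  rw [real_inner_comm (Hs q y w) v, inner_Hs hq, inner_Hs hq]
  have h := (hq.contDiffAt (x := y)).isSymmSndFDerivAt (by simp; norm_cast)
  exact h v w

theorem norm_Hs_eq {d : ℕ} {q : E d → ℝ} (hq : ContDiff ℝ ∞ q) (y : E d) :
    ‖Hs q y‖ = ‖iteratedFDeriv ℝ 2 q y‖ := by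
  have h1 : ‖Hs q y‖ = ‖fderiv ℝ (fderiv ℝ q) y‖ := by
    rw [Hs_eq hq]
    exact (P0J d).norm_toContinuousLinearMap_comp
  rw [h1, ← norm_iteratedFDeriv_fderiv, ← norm_iteratedFDeriv_fderiv, norm_iteratedFDeriv_zero]

theorem norm_Hs_le {d : ℕ} {q : E d → ℝ} (hq : ContDiff ℝ ∞ q) (y : E d) :
    ‖Hs q y‖ ≤ ‖iteratedFDeriv ℝ 2 q y‖ := (norm_Hs_eq hq y).le

theorem norm_fderiv_two {V W : Type*} [NormedAddCommGroup V] [NormedSpace ℝ V]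
    [NormedAddCommGroup W] [NormedSpace ℝ W] (q : V → W) (x : V) :
    ‖fderiv ℝ (fderiv ℝ q) x‖ = ‖iteratedFDeriv ℝ 2 q x‖ := by
  rw [← norm_iteratedFDeriv_fderiv, ← norm_iteratedFDeriv_fderiv, norm_iteratedFDeriv_zero]

theorem norm_image_sub_le_aux {V W : Type*} [NormedAddCommGroup V] [NormedSpace ℝ V]
    [NormedAddCommGroup W] [NormedSpace ℝ W] (f : V → W) (ρ B : ℝ) (hd : Differentiable ℝ f)
    (hB : ∀ y, ‖y‖ ≤ ρ → ‖fderiv ℝ f y‖ ≤ B) (y z : V) (hy : ‖y‖ ≤ ρ) (hz : ‖z‖ ≤ ρ) :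
    ‖f y - f z‖ ≤ B * ‖y - z‖ := by
  refine Convex.norm_image_sub_le_of_norm_fderiv_le (𝕜 := ℝ) (f := f)
    (s := Metric.closedBall (0 : V) ρ)
    (fun x _ => hd x) (fun x hx => hB x (by simpa using hx)) (convex_closedBall 0 ρ) ?_ ?_
  · simpa using hz
  · simpa using hy

theorem Hs_lip {d : ℕ} {q : E d → ℝ} (hq : ContDiff ℝ ∞ q) (ρ B : ℝ)
    (hB : ∀ y, ‖y‖ ≤ ρ → ‖iteratedFDeriv ℝ 3 q y‖ ≤ B) (y z : E d) (hy : ‖y‖ ≤ ρ) (hz : ‖z‖ ≤ ρ) :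
    ‖Hs q y - Hs q z‖ ≤ B * ‖y - z‖ := by
  have h1 : ‖Hs q y - Hs q z‖ =
      ‖fderiv ℝ (fderiv ℝ q) y - fderiv ℝ (fderiv ℝ q) z‖ := by
    rw [Hs_eq hq, Hs_eq hq, ← ContinuousLinearMap.comp_sub]
    exact (P0J d).norm_toContinuousLinearMap_comp
  have h2 : ContDiff ℝ 2 (fderiv ℝ q) := hq.fderiv_right (m := 2) (by norm_cast)
  have hd := (h2.fderiv_right (m := 1) (by norm_num)).differentiable (by norm_num)
  rw [h1]
  refine norm_image_sub_le_aux (fderiv ℝ (fderiv ℝ q)) ρ B (fun x => hd x)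
    (fun x hx => ?_) y z hy hz
  have h3 := norm_fderiv_two (fderiv ℝ q) x
  rw [norm_iteratedFDeriv_fderiv] at h3
  exact h3.le.trans (hB x hx)

theorem fderiv_ph {d : ℕ} {Φ h : E d → ℝ} (hΦ : ContDiff ℝ ∞ Φ) (hh : ContDiff ℝ ∞ h) (c s : ℝ)
    (y : E d) : fderiv ℝ (ph Φ h c s) y = c • fderiv ℝ Φ y - s • fderiv ℝ h y := by
  have h1 : HasFDerivAt Φ (fderiv ℝ Φ y) y :=
    (hΦ.differentiable (by norm_num)).differentiableAt.hasFDerivAt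
  have h2 : HasFDerivAt h (fderiv ℝ h y) y :=
    (hh.differentiable (by norm_num)).differentiableAt.hasFDerivAt
  exact ((h1.const_mul c).sub (h2.const_mul s)).fderiv

theorem gr_ph {d : ℕ} {Φ h : E d → ℝ} (hΦ : ContDiff ℝ ∞ Φ) (hh : ContDiff ℝ ∞ h) (c s : ℝ)
    (y : E d) : gr (ph Φ h c s) y = c • gr Φ y - s • gr h y := by
  rw [gr_eq, gr_eq, gr_eq]
  simp only [fderiv_ph hΦ hh, map_sub, map_smul]

theorem Hs_ph {d : ℕ} {Φ h : E d → ℝ} (hΦ : ContDiff ℝ ∞ Φ) (hh : ContDiff ℝ ∞ h) (c s : ℝ)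
    (y : E d) : Hs (ph Φ h c s) y = c • Hs Φ y - s • Hs h y := by
  have h1 := (hasFDerivAt_gr hΦ y).const_smul c
  have h2 := (hasFDerivAt_gr hh y).const_smul s
  have h3 : gr (ph Φ h c s) = fun y => c • gr Φ y - s • gr h y := by
    funext z
    exact gr_ph hΦ hh c s z
  unfold Hs
  rw [h3]
  exact (h1.sub h2).fderiv

theorem contDiff_ph {d : ℕ} {Φ h : E d → ℝ} (hΦ : ContDiff ℝ ∞ Φ) (hh : ContDiff ℝ ∞ h)
    (c s : ℝ) : ContDiff ℝ ∞ (ph Φ h c s) := (contDiff_const.mul hΦ).sub (contDiff_const.mul hh)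

theorem ph_bound {d : ℕ} {Φ h : E d → ℝ} (hΦ : ContDiff ℝ ∞ Φ) (hh : ContDiff ℝ ∞ h) (c s : ℝ)
    (j : ℕ) (y : E d) : ‖iteratedFDeriv ℝ j (ph Φ h c s) y‖ ≤
      |c| * ‖iteratedFDeriv ℝ j Φ y‖ + |s| * ‖iteratedFDeriv ℝ j h y‖ := by
  have h0 : ph Φ h c s = c • Φ - s • h := rfl
  have h1 : ContDiffAt ℝ j (c • Φ) y := ((hΦ.const_smul c).of_le (by norm_cast; exact le_top)).contDiffAt
  have h2 : ContDiffAt ℝ j (s • h) y := ((hh.const_smul s).of_le (by norm_cast; exact le_top)).contDiffAt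
  rw [h0, iteratedFDeriv_sub_apply h1 h2,
    iteratedFDeriv_const_smul_apply ((hΦ.of_le (by norm_cast; exact le_top)).contDiffAt),
    iteratedFDeriv_const_smul_apply ((hh.of_le (by norm_cast; exact le_top)).contDiffAt)]
  refine (norm_sub_le _ _).trans ?_
  rw [norm_smul, norm_smul, Real.norm_eq_abs, Real.norm_eq_abs]

end Pool.Agent.GNP
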