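import Pool.Agent.GNP.A4a
import Pool.Agent.GNP.A1
import Pool.Agent.GNP.P0

/-!
GP A4: the supremum bound for families of wave packets, continuous form.
-/

namespace Pool.Agent.GNP

open MeasureTheory Set Pool.Agent.MP_6cbfb8_an
open scoped ENNReal Real RealInnerProductSpace ContDiff

/-- **The supremum bound.** `|u_z(x)| ≤ K (1 + |x - g(z)|/R)^(-(d+1))` and the set of `z ∈ F` with
`|x - g(z)| ≤ R` has measure at most `M` for all `x`: then `|∫_F u_z(x) dz| ≤ C K M`. -/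
theorem sup_gen (d : ℕ) : ∃ C : ℝ, 0 < C ∧ ∀ (g : E d → E d) (u : E d → E d → ℂ) (K R : ℝ)
    (F : Set (E d)) (M : ℝ≥0∞), Measurable g → 0 ≤ K → 0 < R →
    (∀ z x, ‖u z x‖ ≤ K * ((1 + ‖x - g z‖ / R) ^ (d + 1))⁻¹) →
    (∀ x, volume {z | z ∈ F ∧ ‖x - g z‖ ≤ R} ≤ M) →
    ∀ x, ‖∫ z in F, u z x‖ₑ ≤ ENNReal.ofReal (C * K) * M := by
  obtain ⟨C, hC, h⟩ := int_pts d
  refine ⟨C, hC, ?_⟩
  intro g u K R F M hg hK hR hu hM x
  have h1 := h (volume.restrict F) g hg R M hR (fun y => ?_) x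
  · calc ‖∫ z in F, u z x‖ₑ ≤ ∫⁻ z in F, ‖u z x‖ₑ := enorm_integral_le_lintegral_enorm _
      _ ≤ ∫⁻ z in F, ENNReal.ofReal K * ENNReal.ofReal (((1 + ‖x - g z‖ / R) ^ (d + 1))⁻¹) := by
          refine lintegral_mono fun z => ?_
          rw [← ENNReal.ofReal_mul hK, ← ofReal_norm]
          exact ENNReal.ofReal_le_ofReal (hu z x)
      _ = ENNReal.ofReal K *
          ∫⁻ z in F, ENNReal.ofReal (((1 + ‖x - g z‖ / R) ^ (d + 1))⁻¹) :=
          lintegral_const_mul' _ _ ENNReal.ofReal_ne_top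
      _ ≤ ENNReal.ofReal K * (ENNReal.ofReal C * M) := mul_le_mul_right h1 _
      _ = ENNReal.ofReal (C * K) * M := by
          rw [ENNReal.ofReal_mul hC.le]
          ring
  · have hm : MeasurableSet {z | ‖y - g z‖ ≤ R} :=
      measurableSet_le (measurable_const.sub hg).norm measurable_const
    rw [Measure.restrict_apply hm, inter_comm]
    exact hM y

theorem continuous_gr {d : ℕ} {q : E d → ℝ} (hq : ContDiff ℝ ∞ q) : Continuous (gr q) :=
  continuous_iff_continuousAt.2 fun y => (hasFDerivAt_gr hq y).continuousAt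

/-- A4. Supremum bound. -/
theorem sup_c (d : ℕ) (A : ℕ → ℝ) (κ : ℝ) (ρ : E d → ℝ) (hρ : Ker κ ρ) : ∃ K : ℝ, 0 < K ∧
    ∀ (a : E d → ℂ) (q : E d → ℝ) (r R : ℝ), 1 ≤ R → Amp d A r a → Phq d A R q →
    ∀ F : Set (E d), MeasurableSet F → ∀ N : ℝ≥0∞,
      (∀ x, volume {z | z ∈ F ∧ ‖x - gr q z‖ ≤ R} ≤ N) → ∀ x,
        ‖uF ρ a q R F x‖ₑ ≤ ENNReal.ofReal K * N := by
  obtain ⟨K, hK, hp⟩ := packet_c d A κ ρ hρ
  obtain ⟨C, hC, h⟩ := sup_gen d
  refine ⟨C * K, by positivity, fun a q r R hR ha hq F _ N hN x => ?_⟩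
  exact h (gr q) (uz ρ a q R) K R F N (continuous_gr hq.sm).measurable hK.le (by linarith)
    (hp a q r R hR ha hq) hN x

end Pool.Agent.GNP
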