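import Pool.Agent.GNP.A3
import Pool.Agent.GNP.A4

/-!
GP A5: families of continuous wave packets in `L^p`.
-/

namespace Pool.Agent.GNP

open MeasureTheory Set Pool.Agent.MP_6cbfb8_an
open scoped ENNReal Real RealInnerProductSpace ContDiff

/-- A5. `L^p` bound. -/
theorem fam_c (d : ℕ) (A : ℕ → ℝ) (κ : ℝ) (ρ : E d → ℝ) (hρ : Ker κ ρ) (p : ℝ) (hp : 2 ≤ p) :
    ∃ K : ℝ, 0 < K ∧
    ∀ (a : E d → ℂ) (q : E d → ℝ) (r R : ℝ), 1 ≤ R → Amp d A r a → Phq d A R q →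
    ∀ F : Set (E d), MeasurableSet F → ∀ N : ℝ≥0∞,
      (∀ x, volume {z | z ∈ F ∧ ‖x - gr q z‖ ≤ R} ≤ N) →
        ∫⁻ x, ‖uF ρ a q R F x‖ₑ ^ p ≤ ENNReal.ofReal K * N ^ (p - 2) * volume F := by
  obtain ⟨K1, hK1, h1⟩ := sup_c d A κ ρ hρ
  obtain ⟨K2, hK2, h2⟩ := L2_c d A κ ρ hρ
  refine ⟨K1 ^ (p - 2) * K2, by positivity, ?_⟩
  intro a q r R hR ha hq F hF N hN
  have hp0 : 0 < p := by linarith
  -- a null set
  rcases eq_or_ne (volume F) 0 with hF0 | hF0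
  · have h3 : ∀ x, uF ρ a q R F x = 0 := by
      intro x
      rw [uF, Measure.restrict_eq_zero.2 hF0, integral_zero_measure]
    simp only [h3, enorm_zero, ENNReal.zero_rpow_of_pos hp0, lintegral_zero, zero_le]
  have hL2 := h2 a q r R hR ha hq.sm.continuous F hF
  rcases eq_or_lt_of_le hp with rfl | hp2
  · rw [sub_self, ENNReal.rpow_zero, mul_one, Real.rpow_zero, one_mul]
    exact hL2
  rcases eq_or_ne N ⊤ with rfl | hNt
  · rw [ENNReal.top_rpow_of_pos (by linarith), ENNReal.mul_top, ENNReal.top_mul hF0]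
    · exact le_top
    · exact (ENNReal.ofReal_pos.2 (by positivity)).ne'
  have hS : ENNReal.ofReal K1 * N ≠ ⊤ := ENNReal.mul_ne_top ENNReal.ofReal_ne_top hNt
  calc ∫⁻ x, ‖uF ρ a q R F x‖ₑ ^ p
      ≤ (ENNReal.ofReal K1 * N) ^ (p - 2) * ∫⁻ x, ‖uF ρ a q R F x‖ₑ ^ (2 : ℝ) :=
        interp volume _ hp hS (h1 a q r R hR ha hq F hF N hN)
    _ ≤ (ENNReal.ofReal K1 * N) ^ (p - 2) * (ENNReal.ofReal K2 * volume F) := by gcongr
    _ = ENNReal.ofReal (K1 ^ (p - 2) * K2) * N ^ (p - 2) * volume F := by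
        rw [ENNReal.mul_rpow_of_nonneg _ _ (by linarith),
          ENNReal.ofReal_rpow_of_nonneg hK1.le (by linarith),
          ENNReal.ofReal_mul (by positivity)]
        ring

end Pool.Agent.GNP
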