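import Pool.Agent.GNP.AADef
import Mathlib.Analysis.InnerProductSpace.NormDet
import Mathlib.Analysis.Matrix.Order

/-! ## Volumes: ellipsoids of symmetric maps, and a double counting lemma -/

namespace Pool.Agent.GNP

open MeasureTheory Set Pool.Agent.MP_6cbfb8_an
open scoped ENNReal Real RealInnerProductSpace ContDiff Pointwise

/-- A map `f` with `|f v|² = |v|² + |M v|²` and `(det f)² = det (1 + M²)`. -/
theorem vol_exists_sqrt {d : ℕ} (M : E d →L[ℝ] E d) (hM : Sy M) :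
    ∃ f : E d →L[ℝ] E d, (∀ v, ‖f v‖ ^ 2 = ‖v‖ ^ 2 + ‖M v‖ ^ 2) ∧
      f.det ^ 2 = (ContinuousLinearMap.id ℝ (E d) + M ∘L M).det := by
  classical
  have hadj : ContinuousLinearMap.adjoint M = M := by
    symm
    rw [ContinuousLinearMap.eq_adjoint_iff]
    exact hM
  set e := Matrix.toEuclideanCLM (n := Fin d) (𝕜 := ℝ) with he
  set m := e.symm M with hm
  have hem : e m = M := e.apply_symm_apply M
  have hA : (1 + m.conjTranspose * m).PosSemidef :=
    Matrix.PosSemidef.one.add (Matrix.posSemidef_conjTranspose_mul_self m)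
  have hstar : star m = m := by
    have h : e (star m) = e m := by
      rw [map_star, hem, ContinuousLinearMap.star_eq_adjoint, hadj]
    exact e.injective h
  have hstar' : m.conjTranspose = m := hstar
  obtain ⟨B, hB⟩ : ∃ B : Matrix (Fin d) (Fin d) ℝ, 1 + m.conjTranspose * m = star B * B := by
    open scoped MatrixOrder in
    exact CStarAlgebra.nonneg_iff_eq_star_mul_self.mp hA.nonneg
  have hf : ContinuousLinearMap.adjoint (e B) ∘L e B
      = ContinuousLinearMap.id ℝ (E d) + M ∘L M := by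
    have h1 : e (star B * B) = ContinuousLinearMap.adjoint (e B) ∘L e B := by
      rw [map_mul, map_star, ContinuousLinearMap.star_eq_adjoint]
      rfl
    rw [← h1, ← hB, hstar', map_add, map_one, map_mul, hem]
    rfl
  refine ⟨e B, fun v => ?_, ?_⟩
  · have h2 : ⟪(ContinuousLinearMap.adjoint (e B) ∘L e B) v, v⟫ = ‖e B v‖ ^ 2 := by
      rw [ContinuousLinearMap.comp_apply, ContinuousLinearMap.adjoint_inner_left,
        real_inner_self_eq_norm_sq]
    rw [← h2, hf]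
    rw [add_apply, ContinuousLinearMap.id_apply,
      ContinuousLinearMap.comp_apply, inner_add_left, hM, real_inner_self_eq_norm_sq,
      real_inner_self_eq_norm_sq]
  · have h3 := ContinuousLinearMap.normDet_sq (e B)
    rw [hf] at h3
    rw [← h3, LinearMap.normDet_eq_abs_det, RCLike.ofReal_real_eq_id, id, sq_abs]

/-- The determinant of `1 + M²` is at least one. -/
theorem vol_det_pos {d : ℕ} (M : E d →L[ℝ] E d) (hM : Sy M) :
    0 < (ContinuousLinearMap.id ℝ (E d) + M ∘L M).det := by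
  obtain ⟨f, hf, hdet⟩ := vol_exists_sqrt M hM
  have hinj : Function.Injective f := by
    intro v w hvw
    have h1 := hf (v - w)
    rw [map_sub, hvw, sub_self, norm_zero] at h1
    have h2 : ‖v - w‖ ^ 2 ≤ 0 := by nlinarith [sq_nonneg ‖M (v - w)‖]
    have h3 : ‖v - w‖ = 0 := by
      have := sq_nonneg ‖v - w‖
      exact pow_eq_zero_iff (two_ne_zero) |>.1 (le_antisymm h2 this)
    exact sub_eq_zero.1 (norm_eq_zero.1 h3)
  have hne : f.det ≠ 0 := by
    intro h0
    have h4 := LinearMap.ker_eq_bot.2 (show Function.Injective (f : E d →ₗ[ℝ] E d) from hinj)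
    exact (LinearMap.det_eq_zero_iff_ker_ne_bot.1 h0) h4
  rw [← hdet]
  positivity

/-- The volume of the ellipsoid `|v|² + |M v|² ≤ ρ²`. -/
theorem vol_ellipsoid {d : ℕ} (M : E d →L[ℝ] E d) (hM : Sy M) {ρ : ℝ} (hρ : 0 ≤ ρ) :
    volume {v : E d | ‖v‖ ^ 2 + ‖M v‖ ^ 2 ≤ ρ ^ 2}
      = ENNReal.ofReal (ρ ^ d * AA M ^ 2) * volume (Metric.closedBall (0 : E d) 1) := by
  obtain ⟨f, hf, hdet⟩ := vol_exists_sqrt M hM
  have hpos := vol_det_pos M hM
  have hne : f.det ≠ 0 := by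
    intro h0
    rw [h0] at hdet
    simp at hdet
    exact hpos.ne' hdet.symm
  have hset : {v : E d | ‖v‖ ^ 2 + ‖M v‖ ^ 2 ≤ ρ ^ 2}
      = (f : E d →ₗ[ℝ] E d) ⁻¹' Metric.closedBall 0 ρ := by
    ext v
    simp only [mem_ofPred_eq, mem_preimage, Metric.mem_closedBall, dist_zero_right,
      ContinuousLinearMap.coe_coe]
    rw [← hf v]
    exact ⟨fun h => by
      have := abs_le_of_sq_le_sq' h hρ
      exact this.2, fun h => by gcongr⟩
  have hAA : AA M ^ 2 = |f.det|⁻¹ := by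
    unfold AA
    rw [← hdet, abs_pow, ← Real.rpow_natCast (|f.det|) 2, ← Real.rpow_mul (abs_nonneg _),
      ← Real.rpow_natCast, ← Real.rpow_mul (abs_nonneg _), ← Real.rpow_neg_one]
    norm_num
  rw [hset, Measure.addHaar_preimage_linearMap _ hne, Measure.addHaar_closedBall' _ _ hρ,
    ← mul_assoc, hAA, finrank_euclideanSpace, Fintype.card_fin, abs_inv, mul_comm (ρ ^ d),
    ENNReal.ofReal_mul (by positivity)]

/-- The set where `|v| ≤ ρ`, `|M v| ≤ ρ` has volume at least a constant times `AA M ^ 2`. -/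
theorem vol_ellipsoid_le {d : ℕ} (M : E d →L[ℝ] E d) (hM : Sy M) {ρ : ℝ} (hρ : 0 ≤ ρ) :
    ENNReal.ofReal (ρ ^ d * AA M ^ 2) * volume (Metric.closedBall (0 : E d) 1)
      ≤ volume {v : E d | ‖v‖ ≤ ρ ∧ ‖M v‖ ≤ ρ} := by
  rw [← vol_ellipsoid M hM hρ]
  refine measure_mono fun v hv => ?_
  simp only [mem_ofPred_eq] at hv ⊢
  constructor
  · have : ‖v‖ ^ 2 ≤ ρ ^ 2 := by nlinarith [sq_nonneg ‖M v‖]
    exact (abs_le_of_sq_le_sq' this hρ).2
  · have : ‖M v‖ ^ 2 ≤ ρ ^ 2 := by nlinarith [sq_nonneg ‖v‖]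
    exact (abs_le_of_sq_le_sq' this hρ).2

/-- Double counting: if every ball of radius `ρ` around a point of `Z` meets `Y` in measure at least
`m`, then `m |Z| ≤ |B(0,ρ)| |Y|`. -/
theorem vol_double {d : ℕ} {Z Y : Set (E d)} (hZ : MeasurableSet Z) {ρ : ℝ}
    {m : ℝ≥0∞} (h : ∀ z ∈ Z, m ≤ volume (Y ∩ Metric.closedBall z ρ)) :
    m * volume Z ≤ volume (Metric.closedBall (0 : E d) ρ) * volume Y := by
  have hS : MeasurableSet {p : E d × E d | dist p.2 p.1 ≤ ρ} :=
    (isClosed_le (by fun_prop) continuous_const).measurableSet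
  calc m * volume Z = ∫⁻ _ in Z, m := by rw [setLIntegral_const]
    _ ≤ ∫⁻ z in Z, volume (Y ∩ Metric.closedBall z ρ) := by
        refine setLIntegral_mono' hZ fun z hz => h z hz
    _ = ∫⁻ z in Z, ∫⁻ y in Y, {p : E d × E d | dist p.2 p.1 ≤ ρ}.indicator (fun _ => (1 : ℝ≥0∞))
          (z, y) := by
        refine lintegral_congr fun z => ?_
        have : (fun y => {p : E d × E d | dist p.2 p.1 ≤ ρ}.indicator (fun _ => (1 : ℝ≥0∞)) (z, y))
            = (Metric.closedBall z ρ).indicator (fun _ => (1 : ℝ≥0∞)) := by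
          ext y
          simp [indicator, Metric.mem_closedBall]
        rw [this, lintegral_indicator_const Metric.isClosed_closedBall.measurableSet, one_mul,
          Measure.restrict_apply Metric.isClosed_closedBall.measurableSet, inter_comm]
    _ = ∫⁻ y in Y, ∫⁻ z in Z, {p : E d × E d | dist p.2 p.1 ≤ ρ}.indicator (fun _ => (1 : ℝ≥0∞))
          (z, y) := by
        refine lintegral_lintegral_swap ?_
        exact (measurable_const.indicator hS).aemeasurable
    _ ≤ ∫⁻ _ in Y, volume (Metric.closedBall (0 : E d) ρ) := by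
        refine lintegral_mono fun y => ?_
        have : (fun z => {p : E d × E d | dist p.2 p.1 ≤ ρ}.indicator (fun _ => (1 : ℝ≥0∞)) (z, y))
            = (Metric.closedBall y ρ).indicator (fun _ => (1 : ℝ≥0∞)) := by
          ext z
          simp [indicator, Metric.mem_closedBall, dist_comm]
        rw [this, lintegral_indicator_const Metric.isClosed_closedBall.measurableSet, one_mul]
        calc volume.restrict Z (Metric.closedBall y ρ) ≤ volume (Metric.closedBall y ρ) :=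
              Measure.restrict_apply_le _ _
          _ = volume (Metric.closedBall (0 : E d) ρ) := by
              rw [Measure.addHaar_closedBall_center]
    _ = volume (Metric.closedBall (0 : E d) ρ) * volume Y := by rw [setLIntegral_const]

/-- The volume part of (3.2): if every point `z` of `Z` has a point `y₀` at distance `≤ K r` and a
symmetric map `M` with `AA (r² M) ≥ A` such that `Y` contains all `y₀ + v` with `|v| ≤ κ r`,
`|M v| ≤ κ / r`, then `|Z| ≤ ((K + κ) / κ)^d A⁻² |Y|`. -/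
theorem vol_ZY (d : ℕ) {K κ : ℝ} (hK : 0 ≤ K) (hκ : 0 < κ) {r A : ℝ} (hr : 0 < r) (hA : 0 < A)
    {Z Y : Set (E d)} (hZ : MeasurableSet Z)
    (h : ∀ z ∈ Z, ∃ y₀ : E d, ∃ M : E d →L[ℝ] E d, Sy M ∧ ‖y₀ - z‖ ≤ K * r ∧ A ≤ AA (r ^ 2 • M) ∧
      ∀ v : E d, ‖v‖ ≤ κ * r → ‖M v‖ ≤ κ / r → y₀ + v ∈ Y) :
    volume Z ≤ ENNReal.ofReal (((K + κ) / κ) ^ d * (A ^ 2)⁻¹) * volume Y := by
  set V := volume (Metric.closedBall (0 : E d) 1) with hV
  have hV0 : V ≠ 0 := (Metric.measure_closedBall_pos volume _ one_pos).ne'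
  have hVt : V ≠ ⊤ := measure_closedBall_lt_top.ne
  have h1 : ∀ z ∈ Z, ENNReal.ofReal (r ^ d * (κ ^ d * A ^ 2)) * V
      ≤ volume (Y ∩ Metric.closedBall z ((K + κ) * r)) := by
    intro z hz
    obtain ⟨y₀, M, hM, hy₀, hAM, hY⟩ := h z hz
    have hM2 : Sy (r ^ 2 • M) := by
      intro v w
      rw [smul_apply, smul_apply, inner_smul_left,
        inner_smul_right, hM]
      rfl
    have hsub : (fun w : E d => y₀ + r • w) '' {v : E d | ‖v‖ ≤ κ ∧ ‖(r ^ 2 • M) v‖ ≤ κ}
        ⊆ Y ∩ Metric.closedBall z ((K + κ) * r) := by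
      rintro _ ⟨w, ⟨hw1, hw2⟩, rfl⟩
      have hv1 : ‖r • w‖ ≤ κ * r := by
        rw [norm_smul, Real.norm_eq_abs, abs_of_pos hr, mul_comm]
        gcongr
      refine ⟨hY _ hv1 ?_, ?_⟩
      · rw [smul_apply, norm_smul, Real.norm_eq_abs,
          abs_of_pos (by positivity)] at hw2
        rw [map_smul, norm_smul, Real.norm_eq_abs, abs_of_pos hr, le_div_iff₀ hr]
        calc r * ‖M w‖ * r = r ^ 2 * ‖M w‖ := by ring
          _ ≤ κ := hw2
      · rw [Metric.mem_closedBall, dist_eq_norm]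
        calc ‖y₀ + r • w - z‖ = ‖(y₀ - z) + r • w‖ := by congr 1; abel
          _ ≤ ‖y₀ - z‖ + ‖r • w‖ := norm_add_le _ _
          _ ≤ K * r + κ * r := by gcongr
          _ = (K + κ) * r := by ring
    calc ENNReal.ofReal (r ^ d * (κ ^ d * A ^ 2)) * V
        = ENNReal.ofReal (r ^ d) * (ENNReal.ofReal (κ ^ d * A ^ 2) * V) := by
          rw [ENNReal.ofReal_mul (by positivity), mul_assoc]
      _ ≤ ENNReal.ofReal (r ^ d) * (ENNReal.ofReal (κ ^ d * AA (r ^ 2 • M) ^ 2) * V) := by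
          gcongr
      _ ≤ ENNReal.ofReal (r ^ d) * volume {v : E d | ‖v‖ ≤ κ ∧ ‖(r ^ 2 • M) v‖ ≤ κ} := by
          gcongr
          exact vol_ellipsoid_le _ hM2 hκ.le
      _ = volume ((fun w : E d => y₀ + r • w) '' {v : E d | ‖v‖ ≤ κ ∧ ‖(r ^ 2 • M) v‖ ≤ κ}) := by
          have : (fun w : E d => y₀ + r • w) '' {v : E d | ‖v‖ ≤ κ ∧ ‖(r ^ 2 • M) v‖ ≤ κ}
              = (fun w : E d => y₀ + w) '' (r • {v : E d | ‖v‖ ≤ κ ∧ ‖(r ^ 2 • M) v‖ ≤ κ}) := by
            rw [← image_smul, image_image]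
          rw [this, image_add_left, measure_preimage_add, Measure.addHaar_smul,
            finrank_euclideanSpace, Fintype.card_fin, abs_of_pos (by positivity)]
      _ ≤ _ := measure_mono hsub
  have h2 := vol_double hZ h1
  rw [Measure.addHaar_closedBall' _ _ (by positivity : 0 ≤ (K + κ) * r), finrank_euclideanSpace,
    Fintype.card_fin, ← hV] at h2
  have hc : ENNReal.ofReal (r ^ d * (κ ^ d * A ^ 2)) ≠ 0 := by
    rw [Ne, ENNReal.ofReal_eq_zero, not_le]
    positivity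
  have hct : ENNReal.ofReal (r ^ d * (κ ^ d * A ^ 2)) ≠ ⊤ := ENNReal.ofReal_ne_top
  have hinv : (ENNReal.ofReal (r ^ d * (κ ^ d * A ^ 2)))⁻¹
      = ENNReal.ofReal ((r ^ d * (κ ^ d * A ^ 2))⁻¹) := by
    rw [ENNReal.ofReal_inv_of_pos (by positivity)]
  have hfin : ENNReal.ofReal ((r ^ d * (κ ^ d * A ^ 2))⁻¹) * ENNReal.ofReal (((K + κ) * r) ^ d)
      = ENNReal.ofReal (((K + κ) / κ) ^ d * (A ^ 2)⁻¹) := by
    rw [← ENNReal.ofReal_mul (by positivity)]
    congr 1
    rw [mul_pow, div_pow]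
    field_simp
  generalize ENNReal.ofReal (r ^ d * (κ ^ d * A ^ 2)) = X at h2 hc hct hinv
  generalize ENNReal.ofReal (((K + κ) * r) ^ d) = P at h2 hfin
  have h3 : X * volume Z ≤ P * volume Y := by
    have h2' : X * volume Z * V ≤ P * volume Y * V := by
      calc X * volume Z * V = X * V * volume Z := by ring
        _ ≤ P * V * volume Y := h2
        _ = P * volume Y * V := by ring
    exact (ENNReal.mul_le_mul_iff_left hV0 hVt).1 h2'
  calc volume Z = X⁻¹ * (X * volume Z) := by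
        rw [← mul_assoc, ENNReal.inv_mul_cancel hc hct, one_mul]
    _ ≤ X⁻¹ * (P * volume Y) := by gcongr
    _ = ENNReal.ofReal (((K + κ) / κ) ^ d * (A ^ 2)⁻¹) * volume Y := by
        rw [← mul_assoc, hinv, hfin]

/-- `AA` changes at most by a constant under a bounded change of the map. -/
theorem AA_comp_const {d : ℕ} {M M' : E d →L[ℝ] E d} (hM : Sy M) (hM' : Sy M') {K : ℝ}
    (hK : ‖M - M'‖ ≤ K) : AA M ≤ (2 + 2 * K ^ 2) ^ ((d : ℝ) / 4) * AA M' := by
  have hK0 : 0 ≤ K := (norm_nonneg _).trans hK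
  have hA := AA_pos M hM
  have hA' := AA_pos M' hM'
  set V := volume (Metric.closedBall (0 : E d) 1) with hV
  have hV0 : V ≠ 0 := (Metric.measure_closedBall_pos volume _ one_pos).ne'
  have hVt : V ≠ ⊤ := measure_closedBall_lt_top.ne
  have hsub : {v : E d | ‖v‖ ^ 2 + ‖M v‖ ^ 2 ≤ (1 : ℝ) ^ 2}
      ⊆ {v : E d | ‖v‖ ^ 2 + ‖M' v‖ ^ 2 ≤ √(2 + 2 * K ^ 2) ^ 2} := by
    intro v hv
    simp only [mem_ofPred_eq] at hv ⊢
    rw [Real.sq_sqrt (by positivity)]
    have h1 : ‖M' v‖ ≤ ‖M v‖ + K * ‖v‖ := by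
      have h2 : M' v = M v - (M - M') v := by simp
      calc ‖M' v‖ = ‖M v - (M - M') v‖ := by rw [← h2]
        _ ≤ ‖M v‖ + ‖(M - M') v‖ := norm_sub_le _ _
        _ ≤ ‖M v‖ + K * ‖v‖ := by
            gcongr
            exact (ContinuousLinearMap.le_opNorm _ _).trans (by gcongr)
    have h3 : ‖M' v‖ ^ 2 ≤ (‖M v‖ + K * ‖v‖) ^ 2 := by gcongr
    have h4 : (‖M v‖ + K * ‖v‖) ^ 2 ≤ 2 * ‖M v‖ ^ 2 + 2 * K ^ 2 * ‖v‖ ^ 2 := by
      nlinarith [sq_nonneg (‖M v‖ - K * ‖v‖)]
    nlinarith [sq_nonneg ‖v‖, sq_nonneg ‖M v‖, sq_nonneg K, mul_nonneg (sq_nonneg K) (sq_nonneg ‖M v‖)]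
  have h5 := measure_mono (μ := volume) hsub
  rw [vol_ellipsoid M hM zero_le_one, vol_ellipsoid M' hM' (Real.sqrt_nonneg _), ← hV,
    ENNReal.mul_le_mul_iff_left hV0 hVt, one_pow, one_mul,
    ENNReal.ofReal_le_ofReal_iff (by positivity)] at h5
  have h6 : √(2 + 2 * K ^ 2) ^ d = ((2 + 2 * K ^ 2) ^ ((d : ℝ) / 4)) ^ 2 := by
    rw [Real.sqrt_eq_rpow, ← Real.rpow_natCast, ← Real.rpow_mul (by positivity),
      ← Real.rpow_natCast ((2 + 2 * K ^ 2) ^ ((d : ℝ) / 4)) 2, ← Real.rpow_mul (by positivity)]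
    congr 1
    push_cast
    ring
  rw [h6, ← mul_pow] at h5
  exact (abs_le_of_sq_le_sq' h5 (by positivity)).2

end Pool.Agent.GNP
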