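import Pool.Agent.GNP.P0
import Pool.Agent.GNP.AADef
import Pool.Agent.GNP.Vol

/-!
The factor `AA` of two symmetric operators at bounded distance; the Hessian and the gradient near a
point, in terms of the third derivatives.
-/

namespace Pool.Agent.GNP

open MeasureTheory Set Pool.Agent.MP_6cbfb8_an
open scoped ENNReal Real RealInnerProductSpace ContDiff Pointwise

theorem Hs_lip_loc {d : ℕ} {q : E d → ℝ} (hq : ContDiff ℝ ∞ q) {z : E d} {ρ B : ℝ}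
    (hB : ∀ y, ‖y - z‖ ≤ ρ → ‖iteratedFDeriv ℝ 3 q y‖ ≤ B) {y y' : E d} (hy : ‖y - z‖ ≤ ρ)
    (hy' : ‖y' - z‖ ≤ ρ) : ‖Hs q y - Hs q y'‖ ≤ B * ‖y - y'‖ := by
  have h1 : ‖Hs q y - Hs q y'‖ =
      ‖fderiv ℝ (fderiv ℝ q) y - fderiv ℝ (fderiv ℝ q) y'‖ := by
    rw [Hs_eq hq, Hs_eq hq, ← ContinuousLinearMap.comp_sub]
    exact (P0J d).norm_toContinuousLinearMap_comp
  have h2 : ContDiff ℝ 2 (fderiv ℝ q) := hq.fderiv_right (m := 2) (by norm_cast)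
  have hd := (h2.fderiv_right (m := 1) (by norm_num)).differentiable (by norm_num)
  rw [h1]
  refine Convex.norm_image_sub_le_of_norm_fderiv_le (𝕜 := ℝ) (f := fderiv ℝ (fderiv ℝ q))
    (s := Metric.closedBall z ρ) (fun x _ => hd x) (fun x hx => ?_) (convex_closedBall z ρ) ?_ ?_
  · rw [mem_closedBall_iff_norm] at hx
    have h3 := norm_fderiv_two (fderiv ℝ q) x
    rw [norm_iteratedFDeriv_fderiv] at h3
    exact h3.le.trans (hB x hx)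
  · rwa [mem_closedBall_iff_norm]
  · rwa [mem_closedBall_iff_norm]

theorem gr_taylor_loc {d : ℕ} {q : E d → ℝ} (hq : ContDiff ℝ ∞ q) {z : E d} {ρ B : ℝ}
    (hB : ∀ y, ‖y - z‖ ≤ ρ → ‖iteratedFDeriv ℝ 3 q y‖ ≤ B) {y y' : E d} (hy : ‖y - z‖ ≤ ρ)
    (hy' : ‖y' - z‖ ≤ ρ) : ‖gr q y - gr q y' - Hs q y' (y - y')‖ ≤ B * ‖y - y'‖ ^ 2 := by
  have hB0 : 0 ≤ B := (norm_nonneg _).trans (hB y hy)
  have h1 := Convex.norm_image_sub_le_of_norm_hasFDerivWithin_le' (𝕜 := ℝ) (f := gr q)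
    (f' := Hs q) (φ := Hs q y')
    (C := B * ‖y - y'‖) (s := Metric.closedBall z ρ ∩ Metric.closedBall y' ‖y - y'‖) (x := y')
    (y := y) (fun x _ => (hasFDerivAt_gr hq x).hasFDerivWithinAt) (fun x hx => ?_)
    ((convex_closedBall z ρ).inter (convex_closedBall y' _)) ?_ ?_
  · refine h1.trans (le_of_eq ?_)
    ring
  · obtain ⟨h2, h3⟩ := hx
    rw [mem_closedBall_iff_norm] at h2 h3
    exact (Hs_lip_loc hq hB h2 hy').trans (mul_le_mul_of_nonneg_left h3 hB0)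
  · exact ⟨by rwa [mem_closedBall_iff_norm], Metric.mem_closedBall_self (norm_nonneg _)⟩
  · exact ⟨by rwa [mem_closedBall_iff_norm], by rw [mem_closedBall_iff_norm]⟩

theorem Sy_smul_Hs {d : ℕ} {q : E d → ℝ} (hq : ContDiff ℝ ∞ q) (c : ℝ) (y : E d) :
    Sy (c • Hs q y) := by
  intro v w
  simp only [smul_apply, inner_smul_left, inner_smul_right]
  rw [Hs_symm hq]
  simp

theorem norm_smul_Hs_sub {d : ℕ} (q : E d → ℝ) {c : ℝ} (hc : 0 ≤ c) (y y' : E d) :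
    ‖c • Hs q y - c • Hs q y'‖ = c * ‖Hs q y - Hs q y'‖ := by
  have h1 : c • Hs q y - c • Hs q y' = c • (Hs q y - Hs q y') := (smul_sub c _ _).symm
  rw [h1, norm_smul, Real.norm_of_nonneg hc]

/-- The factor `AA` on the scale `1/R`. -/
theorem AA_loc {d : ℕ} {q : E d → ℝ} (hq : ContDiff ℝ ∞ q) {R K T : ℝ} (hR : 0 < R) (hK : 0 ≤ K)
    {z y y' : E d} (hC : ∀ y, ‖y - z‖ ≤ T / R → ‖iteratedFDeriv ℝ 3 q y‖ ≤ K * R ^ 3)
    (hy : ‖y - z‖ ≤ T / R) (hy' : ‖y' - z‖ ≤ T / R) :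
    AA ((R ^ 2)⁻¹ • Hs q y) ≤
      (2 + 2 * (K * (2 * T)) ^ 2) ^ ((d : ℝ) / 4) * AA ((R ^ 2)⁻¹ • Hs q y') := by
  refine AA_comp_const (Sy_smul_Hs hq _ _) (Sy_smul_Hs hq _ _) ?_
  rw [norm_smul_Hs_sub q (by positivity)]
  have h1 := Hs_lip_loc hq hC hy hy'
  have h2 : ‖y - y'‖ ≤ 2 * T / R := by
    have h3 : y - y' = (y - z) - (y' - z) := by abel
    rw [h3]
    refine (norm_sub_le _ _).trans ?_
    have h4 : 2 * T / R = T / R + T / R := by ring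
    rw [h4]
    exact add_le_add hy hy'
  calc (R ^ 2)⁻¹ * ‖Hs q y - Hs q y'‖ ≤ (R ^ 2)⁻¹ * (K * R ^ 3 * ‖y - y'‖) :=
        mul_le_mul_of_nonneg_left h1 (by positivity)
    _ ≤ (R ^ 2)⁻¹ * (K * R ^ 3 * (2 * T / R)) := by gcongr
    _ = K * (2 * T) := by field_simp

/-- The gradient on the scale `1/R`, near a point, in the directions in which the Hessian is at most
`R²`. -/
theorem gr_loc {d : ℕ} {q : E d → ℝ} (hq : ContDiff ℝ ∞ q) {R K T k : ℝ} (hR : 0 < R)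
    (hK : 0 ≤ K) {z y0 v : E d}
    (hC : ∀ y, ‖y - z‖ ≤ T / R → ‖iteratedFDeriv ℝ 3 q y‖ ≤ K * R ^ 3)
    (hy0 : ‖y0 - z‖ ≤ T / R) (hy : ‖y0 + R⁻¹ • v - z‖ ≤ T / R) (hv : ‖v‖ ≤ k)
    (hMv : ‖Hs q y0 v‖ ≤ k * R ^ 2) (x : E d) :
    ‖gr q (y0 + R⁻¹ • v) - x‖ ≤ ‖gr q y0 - x‖ + (K * k ^ 2 + k) * R := by
  have h1 := gr_taylor_loc hq hC hy hy0
  have hyy : y0 + R⁻¹ • v - y0 = R⁻¹ • v := by abel
  rw [hyy] at h1
  have h2 : ‖R⁻¹ • v‖ ≤ R⁻¹ * k := by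
    rw [norm_smul, Real.norm_of_nonneg (by positivity)]
    gcongr
  have h3 : K * R ^ 3 * ‖R⁻¹ • v‖ ^ 2 ≤ K * k ^ 2 * R := by
    calc K * R ^ 3 * ‖R⁻¹ • v‖ ^ 2 ≤ K * R ^ 3 * (R⁻¹ * k) ^ 2 := by gcongr
      _ = K * k ^ 2 * R := by field_simp
  have h4 : ‖Hs q y0 (R⁻¹ • v)‖ ≤ k * R := by
    rw [map_smul, norm_smul, Real.norm_of_nonneg (by positivity)]
    calc R⁻¹ * ‖Hs q y0 v‖ ≤ R⁻¹ * (k * R ^ 2) := by gcongr
      _ = k * R := by field_simp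
  have h5 : gr q (y0 + R⁻¹ • v) - x = (gr q y0 - x) + (gr q (y0 + R⁻¹ • v) - gr q y0 -
      Hs q y0 (R⁻¹ • v)) + Hs q y0 (R⁻¹ • v) := by abel
  rw [h5]
  refine norm_add₃_le.trans ?_
  have h6 : ‖gr q y0 - x‖ + (K * k ^ 2 + k) * R = ‖gr q y0 - x‖ + K * k ^ 2 * R + k * R := by ring
  rw [h6]
  exact add_le_add (add_le_add le_rfl (h1.trans h3)) h4

end Pool.Agent.GNP
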