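import Pool.Agent.GNP.WCR

/-!
Rough amplitudes (BV3): reduction to a mollified amplitude, for every phase.
-/

namespace Pool.Agent.GNP

open MeasureTheory Set Pool.Agent.MP_6cbfb8_an
open scoped ENNReal Real RealInnerProductSpace ContDiff

/-- Row BV3. For every phase `Φ`: a rough amplitude may be replaced by its mollification at any
scale `1/P₁`, `P₀ √(1+|c|) ≤ P₁`. -/
theorem rough_zero (d : ℕ) (hd : 1 ≤ d) (A : ℕ → ℝ) (r r' b p s V : ℝ) (hr : 0 < r)
    (hr' : r < r') (hr1 : r' < 1) (hb : 0 < b) (hp : 2 * ((d : ℝ) + 1) / d < p)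
    (hs0 : (d : ℝ) / (d + 1) < s) (hV : 0 ≤ V) (η : E d → ℝ) (hη : Ker 1 η)
    (hη0 : ∀ v, 0 ≤ η v) (hη1 : ∫ v, η v = 1) : ∃ P0 K : ℝ, 1 ≤ P0 ∧ 0 < K ∧
    ∀ (Φ h : E d → ℝ) (a : E d → ℂ), Sm d A Φ → Sm d A h → (∀ y, ‖y‖ ≤ r' → h y = hs y) →
    Measurable a → (∀ y, ‖a y‖ ≤ 1) → (∀ y, r < ‖y‖ → a y = 0) → BVE d s V a →
    (∀ y, ‖y‖ ≤ r' → ∀ v, ⟪Hs h y v, v⟫ ≤ -(b * ‖v‖ ^ 2)) → ∀ c P1 : ℝ,
    P0 * √(1 + |c|) ≤ P1 →
    ∫⁻ t : ℝ, ∫⁻ x, ‖uu a (ph Φ h c t) x‖ₑ ^ p ≤ ENNReal.ofReal K *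
      (1 + ∫⁻ t : ℝ, ∫⁻ x, ‖uu (mo η a P1) (ph Φ h c t) x‖ₑ ^ p) := by
  have hd0 : (0 : ℝ) < d := by exact_mod_cast hd
  have hs1 : 0 < s := lt_trans (by positivity) hs0
  have hp2 : 2 < p := by
    have h1 : 2 * ((d : ℝ) + 1) / d = 2 + 2 / d := by field_simp
    have : 0 < 2 / (d : ℝ) := by positivity
    linarith
  obtain ⟨r1, hr1a, hr1b⟩ := exists_between hr'
  have hr10 : 0 < r1 := by linarith
  obtain ⟨A0, hA0⟩ := mo_amp d η hη
  obtain ⟨Km, hKm, hmf⟩ := mf_L1 d η hη hη1 s hs1.le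
  obtain ⟨Kc, hKc, hconv⟩ := mo_conv d η hη hη1 s hs1.le
  set P0 : ℝ := max 1 (1 / (r1 - r)) with hP0
  have hP01 : 1 ≤ P0 := le_max_left _ _
  have hP02 : 1 / P0 ≤ r1 - r := by
    have h1 : 1 / (r1 - r) ≤ P0 := le_max_right _ _
    have h2 : 0 < r1 - r := by linarith
    rw [div_le_iff₀ (by linarith)]
    rw [div_le_iff₀ h2] at h1
    linarith
  set A1 : ℕ → ℝ := fun j => max (A j) (A0 j) with hA1
  have hAA1 : ∀ j, A j ≤ A1 j := fun j => le_max_left _ _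
  have hA02 : ∀ j, A0 j ≤ A1 j := fun j => le_max_right _ _
  obtain ⟨Kf, τf, C1, hKf, hτf, hC1, hfar⟩ := far_lev d hd A1 r1 r' b p hr10 hr1b hb hp
  obtain ⟨Kn, τn, hKn, hτn, hnear⟩ := near_lev d hd r1 s p C1 (Km * V) hr10 (by linarith)
    (by positivity) hs0 hp
  set τ' : ℝ := min τn τf with hτ'
  have hτ'0 : 0 < τ' := lt_min hτn hτf
  obtain ⟨Cs, hCs, hsum⟩ := sum_lev (X := ℝ × E d) (volume : Measure (ℝ × E d)) p (τ' / 2)
    (by linarith) (by linarith)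
  set T : ℝ := ∑' k : ℕ, (Kn + Kf) * 2 ^ (τ' / 2) * ((2 : ℝ) ^ (-(τ' / 2))) ^ k with hT
  have hTs : Summable fun k : ℕ => (Kn + Kf) * 2 ^ (τ' / 2) * ((2 : ℝ) ^ (-(τ' / 2))) ^ k := by
    refine (summable_geometric_of_lt_one (by positivity) ?_).mul_left _
    exact Real.rpow_lt_one_of_one_lt_of_neg (by norm_num) (by linarith)
  have hT0 : 0 ≤ T := tsum_nonneg fun k => by positivity
  have hTe : ∑' k : ℕ, ENNReal.ofReal ((Kn + Kf) * 2 ^ (τ' / 2) * ((2 : ℝ) ^ (-(τ' / 2))) ^ k) =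
      ENNReal.ofReal T := (ENNReal.ofReal_tsum_of_nonneg (fun k => by positivity) hTs).symm
  refine ⟨P0, Cs * (1 + T), hP01, by positivity, ?_⟩
  intro Φ h a hΦ hh hhs ham ha1 har hBV hdef c P1 hP1c
  have hΦm : Measurable Φ := hΦ.sm.continuous.measurable
  have hhm : Measurable h := hh.sm.continuous.measurable
  set R : ℝ := √(1 + |c|) with hR
  have hR1 : 1 ≤ R := by
    rw [hR, Real.one_le_sqrt]
    linarith [abs_nonneg c]
  have hR2 : R ^ 2 = 1 + |c| := Real.sq_sqrt (by positivity)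
  have hP10 : P0 ≤ P1 := (le_mul_of_one_le_right (by positivity) hR1).trans hP1c
  have hP11 : 1 ≤ P1 := hP01.trans hP10
  have hPk1 : ∀ k : ℕ, 1 ≤ 2 ^ k * P1 := by
    intro k
    have h1 : (1 : ℝ) ≤ 2 ^ k := one_le_pow₀ (by norm_num)
    exact one_le_mul_of_one_le_of_one_le h1 hP11
  have hPk2 : ∀ k : ℕ, (2 : ℝ) ^ k ≤ 2 ^ k * P1 := by
    intro k
    exact le_mul_of_one_le_right (by positivity) hP11
  have hPk3 : ∀ k : ℕ, P1 ≤ 2 ^ k * P1 := by
    intro k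
    exact le_mul_of_one_le_left (by positivity) (one_le_pow₀ (by norm_num))
  have hPk4 : ∀ k : ℕ, r + 1 / (2 ^ k * P1) ≤ r1 := by
    intro k
    have h1 : 1 / (2 ^ k * P1) ≤ 1 / P0 :=
      one_div_le_one_div_of_le (by positivity) (hP10.trans (hPk3 k))
    linarith
  have hmoA : ∀ k : ℕ, AmpR d A1 r1 (2 ^ k * P1) (mo η a (2 ^ k * P1)) := by
    intro k
    refine (hA0 a r _ (hPk1 k) ham ha1 har).1.weaken (hPk4 k) fun j => ?_
    have := hPk1 k
    exact mul_le_mul_of_nonneg_right (hA02 j) (by positivity)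
  have hmfA : ∀ k : ℕ, AmpR d A1 r1 (2 ^ k * P1) (mf η a (2 ^ k * P1)) := by
    intro k
    refine (hA0 a r _ (hPk1 k) ham ha1 har).2.weaken (hPk4 k) fun j => ?_
    have := hPk1 k
    exact mul_le_mul_of_nonneg_right (hA02 j) (by positivity)
  -- the levels
  set g : ℕ → ℝ × E d → ℂ := fun k z => Nat.casesOn k
    (uu (mo η a P1) (ph Φ h c z.1) z.2)
    (fun k => uu (mf η a (2 ^ k * P1)) (ph Φ h c z.1) z.2) with hg
  have hg0 : ∀ z, g 0 z = uu (mo η a P1) (ph Φ h c z.1) z.2 := fun z => rfl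
  have hgs : ∀ k z, g (k + 1) z = uu (mf η a (2 ^ k * P1)) (ph Φ h c z.1) z.2 :=
    fun k z => rfl
  have hmo0 : AmpR d A1 r1 P1 (mo η a P1) := by simpa using hmoA 0
  have hgm : ∀ k, Measurable (g k) := by
    intro k
    cases k with
    | zero => exact measurable_uu d _ Φ h c (wcr_integrable hmo0) hΦm hhm
    | succ k => exact measurable_uu d _ Φ h c (wcr_integrable (hmfA k)) hΦm hhm
  have hpart : ∀ (K : ℕ) z, ∑ k ∈ Finset.range (K + 1), g k z =
      uu (mo η a (2 ^ K * P1)) (ph Φ h c z.1) z.2 := by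
    intro K z
    induction K with
    | zero => simp [hg0]
    | succ K ih =>
      rw [Finset.sum_range_succ, ih, hgs]
      have h1 : mf η a (2 ^ K * P1) = fun y => mo η a (2 ^ (K + 1) * P1) y -
          mo η a (2 ^ K * P1) y := by
        funext y
        rw [mf, pow_succ']
        congr 2
        ring
      rw [h1, uu_sub (wcr_integrable (hmoA (K + 1))) (wcr_integrable (hmoA K))
        (measurable_ph hΦm hhm c z.1)]
      ring
  have htend : ∀ z : ℝ × E d, Filter.Tendsto (fun K => ∑ k ∈ Finset.range K, g k z) Filter.atTop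
      (nhds (uu a (ph Φ h c z.1) z.2)) := by
    intro z
    rw [← Filter.tendsto_add_atTop_iff_nat 1]
    rw [tendsto_iff_norm_sub_tendsto_zero]
    have h1 : ∀ K : ℕ, ‖∑ k ∈ Finset.range (K + 1), g k z - uu a (ph Φ h c z.1) z.2‖ ≤
        Kc * V * ((2 : ℝ) ^ (-s)) ^ K := by
      intro K
      rw [hpart, norm_sub_rev]
      refine (hconv a (ph Φ h c z.1) V r _ hV (hPk1 K) ham ha1 har hBV
        (measurable_ph hΦm hhm c z.1) z.2).trans ?_
      refine mul_le_mul_of_nonneg_left ?_ (by positivity)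
      calc (2 ^ K * P1) ^ (-s) ≤ ((2 : ℝ) ^ K) ^ (-s) :=
            Real.rpow_le_rpow_of_nonpos (by positivity) (hPk2 K) (by linarith)
        _ = ((2 : ℝ) ^ (-s)) ^ K := by
            rw [← Real.rpow_natCast, ← Real.rpow_natCast, ← Real.rpow_mul (by norm_num),
              ← Real.rpow_mul (by norm_num), mul_comm]
    refine squeeze_zero (fun _ => norm_nonneg _) h1 ?_
    have h2 : Filter.Tendsto (fun K : ℕ => ((2 : ℝ) ^ (-s)) ^ K) Filter.atTop (nhds 0) :=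
      tendsto_pow_atTop_nhds_zero_of_lt_one (by positivity)
        (Real.rpow_lt_one_of_one_lt_of_neg (by norm_num) (by linarith))
    simpa using h2.const_mul (Kc * V)
  have hmain := hsum (fun z => uu a (ph Φ h c z.1) z.2) g hgm htend
  -- from the product measure to iterated integrals
  have hprod : ∀ f : ℝ × E d → ℂ, Measurable f →
      ∫⁻ z : ℝ × E d, ‖f z‖ₑ ^ p = ∫⁻ t : ℝ, ∫⁻ x : E d, ‖f (t, x)‖ₑ ^ p := by
    intro f hf
    rw [Measure.volume_eq_prod]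
    exact lintegral_prod (μ := volume) (ν := volume) (fun z : ℝ × E d => ‖f z‖ₑ ^ p)
      (hf.enorm.pow_const p).aemeasurable
  have haint : Integrable a := by
    have h1 : IntegrableOn a (Metric.closedBall (0 : E d) r) := by
      refine Measure.integrableOn_of_bounded (M := 1) measure_closedBall_lt_top.ne
        ham.aestronglyMeasurable (Filter.Eventually.of_forall ha1)
    refine h1.integrable_of_forall_notMem_eq_zero fun y hy => har y ?_
    simpa using hy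
  have hfm : Measurable fun z : ℝ × E d => uu a (ph Φ h c z.1) z.2 :=
    measurable_uu d a Φ h c haint hΦm hhm
  rw [hprod _ hfm] at hmain
  -- level k + 1
  have hlev : ∀ k : ℕ, ∫⁻ z : ℝ × E d, ‖g (k + 1) z‖ₑ ^ p ≤
      ENNReal.ofReal ((Kn + Kf) * ((2 : ℝ) ^ (-τ')) ^ k) := by
    intro k
    rw [hprod _ (hgm (k + 1))]
    set P : ℝ := 2 ^ k * P1 with hP
    have hP1 : 1 ≤ P := hPk1 k
    have hms : MeasurableSet {t : ℝ | |t| ≤ C1 * P ^ 2} := by
      exact measurableSet_le (by fun_prop) measurable_const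
    rw [← lintegral_add_compl _ hms]
    have hcompl : {t : ℝ | |t| ≤ C1 * P ^ 2}ᶜ = {t : ℝ | C1 * P ^ 2 < |t|} := by
      ext t
      simp
    rw [hcompl]
    have hfm1 : Measurable (mf η a P) := (hmfA k).sm.continuous.measurable
    have hn := hnear (mf η a P) Φ h c P hP1 hfm1
      (fun y => (mo_le d η hη hη0 hη1 a ha1 P (by linarith) y).2) (hmfA k).supp hΦm hhm
      (fun y hy => hhs y (by linarith)) (hmf a V r P hV hP1 ham ha1 har hBV).1
    have hcP : 1 + |c| ≤ P ^ 2 := by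
      rw [← hR2]
      refine pow_le_pow_left₀ (by positivity) ?_ 2
      refine le_trans ?_ (hPk3 k)
      exact (le_mul_of_one_le_left (by positivity) hP01).trans hP1c
    have hf := hfar (mf η a P) Φ h c P hP1 hcP (hΦ.weaken hAA1) (hh.weaken hAA1) (hmfA k) hdef
    refine (add_le_add hn hf).trans ?_
    rw [← ENNReal.ofReal_add (by positivity) (by positivity)]
    refine ENNReal.ofReal_le_ofReal ?_
    have hpow : ∀ τ : ℝ, τ' ≤ τ → P ^ (-τ) ≤ ((2 : ℝ) ^ (-τ')) ^ k := by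
      intro τ hτ
      calc P ^ (-τ) ≤ P ^ (-τ') := Real.rpow_le_rpow_of_exponent_le hP1 (by linarith)
        _ ≤ ((2 : ℝ) ^ k) ^ (-τ') :=
            Real.rpow_le_rpow_of_nonpos (by positivity) (hPk2 k) (by linarith)
        _ = ((2 : ℝ) ^ (-τ')) ^ k := by
            rw [← Real.rpow_natCast, ← Real.rpow_natCast, ← Real.rpow_mul (by norm_num),
              ← Real.rpow_mul (by norm_num), mul_comm]
    have h1 := mul_le_mul_of_nonneg_left (hpow τn (min_le_left _ _)) hKn.le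
    have h2 := mul_le_mul_of_nonneg_left (hpow τf (min_le_right _ _)) hKf.le
    linarith
  -- summation
  refine hmain.trans ?_
  rw [ENNReal.ofReal_mul hCs.le, mul_assoc]
  refine mul_le_mul_right ?_ _
  rw [tsum_eq_zero_add' ENNReal.summable]
  have e0 : ENNReal.ofReal ((2 : ℝ) ^ (τ' / 2 * ((0 : ℕ) : ℝ))) = 1 := by simp
  rw [e0, one_mul, hprod _ (hgm 0), ENNReal.ofReal_add zero_le_one hT0, ENNReal.ofReal_one]
  set Z : ℝ≥0∞ := ∫⁻ t : ℝ, ∫⁻ x : E d, ‖uu (mo η a P1) (ph Φ h c t) x‖ₑ ^ p with hZ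
  have hZ' : ∫⁻ t : ℝ, ∫⁻ x : E d, ‖g 0 (t, x)‖ₑ ^ p = Z := rfl
  rw [hZ']
  have htail : ∑' k : ℕ, ENNReal.ofReal ((2 : ℝ) ^ (τ' / 2 * ((k + 1 : ℕ) : ℝ))) *
        ∫⁻ z : ℝ × E d, ‖g (k + 1) z‖ₑ ^ p ≤ ENNReal.ofReal T := by
    rw [← hTe]
    refine ENNReal.tsum_le_tsum fun k => ?_
    refine (mul_le_mul_right (hlev k) _).trans (le_of_eq ?_)
    rw [← ENNReal.ofReal_mul (by positivity)]
    congr 1
    have h1 : (2 : ℝ) ^ (τ' / 2 * ((k + 1 : ℕ) : ℝ)) = 2 ^ (τ' / 2) * (2 ^ (τ' / 2)) ^ k := by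
      push_cast
      rw [mul_add, mul_one, Real.rpow_add (by norm_num), mul_comm, ← Real.rpow_natCast,
        ← Real.rpow_mul (by norm_num)]
    have h2 : ((2 : ℝ) ^ (-τ')) ^ k = ((2 : ℝ) ^ (-(τ' / 2))) ^ k * ((2 : ℝ) ^ (-(τ' / 2))) ^ k := by
      rw [← mul_pow, ← Real.rpow_add (by norm_num)]
      congr 2
      ring
    have h3 : ((2 : ℝ) ^ (τ' / 2)) ^ k * ((2 : ℝ) ^ (-(τ' / 2))) ^ k = 1 := by
      rw [← mul_pow, ← Real.rpow_add (by norm_num)]
      simp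
    rw [h1, h2]
    linear_combination ((2 : ℝ) ^ (τ' / 2) * (Kn + Kf) * ((2 : ℝ) ^ (-(τ' / 2))) ^ k) * h3
  calc Z + ∑' k : ℕ, ENNReal.ofReal ((2 : ℝ) ^ (τ' / 2 * ((k + 1 : ℕ) : ℝ))) *
        ∫⁻ z : ℝ × E d, ‖g (k + 1) z‖ₑ ^ p
      ≤ Z + ENNReal.ofReal T := by gcongr
    _ ≤ (1 + ENNReal.ofReal T) * (1 + Z) := by
        rw [add_mul, one_mul, mul_add, mul_one]
        calc Z + ENNReal.ofReal T ≤ (1 + Z) + (ENNReal.ofReal T + ENNReal.ofReal T * Z) := by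
              gcongr
              · exact le_add_self
              · exact le_self_add
          _ = _ := rfl

end Pool.Agent.GNP
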