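import Pool.Agent.GNP.SH

/-!
Definite pencils: the sum of the determinants at shifted parameters, extended form.
-/

namespace Pool.Agent.GNP

open Module Pool.Agent.MP_6cbfb8_an
open scoped RealInnerProductSpace

section SH2

/-- The sum of the determinants at the shifted parameters. -/
noncomputable def DD {d : ℕ} (P Q : E d →L[ℝ] E d) (s R : ℝ) : ENNReal :=
  ∑ j ∈ Finset.range (d + 1), ‖(P + (s + j * 2 * R) • Q).det‖ₑ

theorem DD_eq {d : ℕ} (P Q : E d →L[ℝ] E d) (s R : ℝ) :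
    DD P Q s R = ENNReal.ofReal (∑ j ∈ Finset.range (d + 1), |(P + (s + j * 2 * R) • Q).det|) := by
  unfold DD
  rw [ENNReal.ofReal_sum_of_nonneg (fun _ _ => abs_nonneg _)]
  refine Finset.sum_congr rfl fun j _ => ?_
  rw [← Real.norm_eq_abs, ofReal_norm]

theorem le_DDr {d : ℕ} (P Q : E d →L[ℝ] E d) (s R : ℝ) (j : ℕ) (hj : j ≤ d) :
    |(P + (s + 2 * j * R) • Q).det| ≤
      ∑ j ∈ Finset.range (d + 1), |(P + (s + j * 2 * R) • Q).det| := by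
  have h := Finset.single_le_sum (f := fun j : ℕ => |(P + (s + j * 2 * R) • Q).det|)
    (fun _ _ => abs_nonneg _) (Finset.mem_range.2 (Nat.lt_succ_of_le hj))
  have e : s + 2 * (j : ℝ) * R = s + j * 2 * R := by ring
  rw [e]
  exact h

theorem DDr_pos {d : ℕ} (P Q : E d →L[ℝ] E d) (hP : Sy P) (hQ : Sy Q) {b : ℝ} (hb : 0 < b)
    (hpos : ∀ v, b * ‖v‖ ^ 2 ≤ ⟪Q v, v⟫) (s : ℝ) {R : ℝ} (hR : 0 < R) :
    0 < ∑ j ∈ Finset.range (d + 1), |(P + (s + j * 2 * R) • Q).det| := by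
  obtain ⟨μ, -, -, -, -, h5, -⟩ := pencil_all d P Q hP hQ b ‖Q‖ hb hpos le_rfl
  obtain ⟨j, hj, hle⟩ := h5 s R hR
  have h1 : 0 < b ^ d * ∏ i, max |s - μ i| R :=
    mul_pos (by positivity) (Finset.prod_pos fun i _ => lt_of_lt_of_le hR (le_max_right _ _))
  have h2 : 0 < |(P + (s + 2 * j * R) • Q).det| := by
    by_contra hc
    push Not at hc
    have h3 : ((2 : ℝ) * d + 1) ^ d * |(P + (s + 2 * j * R) • Q).det| ≤ 0 :=
      mul_nonpos_of_nonneg_of_nonpos (by positivity) hc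
    linarith
  exact h2.trans_le (le_DDr P Q s R j hj)

theorem DD_ne {d : ℕ} (P Q : E d →L[ℝ] E d) (hP : Sy P) (hQ : Sy Q) {b : ℝ} (hb : 0 < b)
    (hpos : ∀ v, b * ‖v‖ ^ 2 ≤ ⟪Q v, v⟫) (s : ℝ) {R : ℝ} (hR : 0 < R) :
    DD P Q s R ≠ 0 ∧ DD P Q s R ≠ ⊤ := by
  rw [DD_eq]
  refine ⟨?_, ENNReal.ofReal_ne_top⟩
  rw [Ne, ENNReal.ofReal_eq_zero, not_le]
  exact DDr_pos P Q hP hQ hb hpos s hR

/-- The pencil facts with the bound of `V` in extended form (`R = 1 / r`). -/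
theorem V_enn (d : ℕ) (P Q : E d →L[ℝ] E d) (hP : Sy P) (hQ : Sy Q) (b B : ℝ) (hb : 0 < b)
    (hpos : ∀ v, b * ‖v‖ ^ 2 ≤ ⟪Q v, v⟫) (hB : ‖Q‖ ≤ B) :
    ∃ μ : Fin d → ℝ,
      (∀ s : ℝ, (P + s • Q).det = Q.det * ∏ i, (s - μ i)) ∧
      (∀ s t : ℝ, 0 ≤ t → (∀ i, t ≤ |s - μ i|) → ∀ v, b * t * ‖v‖ ≤ ‖(P + s • Q) v‖) ∧
      (∀ s t : ℝ, 0 ≤ t → (∀ i, |s - μ i| ≤ t) → ‖P + s • Q‖ ≤ B * t) ∧
      (∀ s R : ℝ, 0 < R →
        ENNReal.ofReal (R ^ d) * (DD P Q s R)⁻¹ *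
            ENNReal.ofReal ((AA ((R ^ 2)⁻¹ • (P + s • Q)))⁻¹) ≤
          ENNReal.ofReal (((2 * d + 1) / b * max 1 B) ^ d * ∏ i, fr (1 / R) |s - μ i|)) := by
  obtain ⟨μ, h1, h2, h3, -, -, h6⟩ := pencil_all d P Q hP hQ b B hb hpos hB
  refine ⟨μ, h1, h2, h3, fun s R hR => ?_⟩
  set X := ∑ j ∈ Finset.range (d + 1), |(P + (s + j * 2 * R) • Q).det| with hX
  have hX0 : 0 < X := DDr_pos P Q hP hQ hb hpos s hR
  have h7 := h6 s (1 / R) X (by positivity) (fun j hj => by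
    have h8 := le_DDr P Q s R j hj
    have e : s + 2 * (j : ℝ) / (1 / R) = s + 2 * j * R := by
      rw [div_div_eq_mul_div, div_one]
    rw [e]
    exact h8)
  have e1 : ((1 / R) ^ d * X)⁻¹ = R ^ d * X⁻¹ := by
    rw [mul_inv, one_div, inv_pow, inv_inv]
  have e2 : (1 / R) ^ 2 = (R ^ 2)⁻¹ := by rw [one_div, inv_pow]
  rw [e1, e2] at h7
  have h9 : 0 ≤ (AA ((R ^ 2)⁻¹ • (P + s • Q)))⁻¹ :=
    inv_nonneg.2 (Real.rpow_nonneg (abs_nonneg _) _)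
  rw [DD_eq, ← hX, ← ENNReal.ofReal_inv_of_pos hX0, ← ENNReal.ofReal_mul (by positivity),
    ← ENNReal.ofReal_mul (by positivity)]
  exact ENNReal.ofReal_le_ofReal h7

end SH2

end Pool.Agent.GNP
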