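import Pool.Agent.GNP.Defs4
import Pool.Agent.GNP.P0
import Pool.Agent.GNP.SH2

/-!
The density `Vv` in terms of the roots of the pencil.
-/

namespace Pool.Agent.GNP

open Module Pool.Agent.MP_6cbfb8_an
open scoped RealInnerProductSpace ContDiff

/-- The density `Vv` is at most a product of functions of the distances of `s` to `d` numbers. -/
theorem V_le (d : ℕ) (hd : 1 ≤ d) (A : ℕ → ℝ) (r' b : ℝ) (hb : 0 < b) : ∃ C : ℝ, 0 < C ∧
    ∀ Φ h : E d → ℝ, Sm d A Φ → Sm d A h → Df d b r' h → ∀ y, ‖y‖ ≤ r' → ∀ c : ℝ,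
      ∃ μ : Fin d → ℝ, ∀ s R : ℝ, 1 ≤ R →
        0 < Sd Φ h c s R y ∧
        Vv Φ h c s R y ≤ C * ∏ i, (√(1 + |s - μ i| / R ^ 2) / max 1 (|s - μ i| / R)) ∧
        ∃ i, ‖Hs (ph Φ h c s) y‖ ≤ C * |s - μ i| := by
  set B : ℝ := |A 2| with hBdef
  have hB0 : 0 ≤ B := abs_nonneg _
  refine ⟨((2 * d + 1) / b * max 1 B) ^ d + B, by positivity, ?_⟩
  intro Φ h hΦ hh hDf y hy c
  set P : E d →L[ℝ] E d := c • Hs Φ y with hP
  set Q : E d →L[ℝ] E d := -Hs h y with hQ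
  have hPQ : ∀ s : ℝ, Hs (ph Φ h c s) y = P + s • Q := by
    intro s
    rw [Hs_ph hΦ.sm hh.sm, hP, hQ, smul_neg, sub_eq_add_neg]
  have hPs : Sy P := by
    intro v w
    change ⟪c • Hs Φ y v, w⟫ = ⟪v, c • Hs Φ y w⟫
    rw [real_inner_smul_left, real_inner_smul_right, Hs_symm hΦ.sm]
  have hQs : Sy Q := by
    intro v w
    change ⟪-(Hs h y v), w⟫ = ⟪v, -(Hs h y w)⟫
    rw [inner_neg_left, inner_neg_right, Hs_symm hh.sm]
  have hpos : ∀ v, b * ‖v‖ ^ 2 ≤ ⟪Q v, v⟫ := by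
    intro v
    change b * ‖v‖ ^ 2 ≤ ⟪-(Hs h y v), v⟫
    rw [inner_neg_left]
    linarith [hDf y hy v]
  have hQn : ‖Q‖ ≤ B := by
    rw [hQ, norm_neg]
    exact (norm_Hs_le hh.sm y).trans ((hh.bd 2 y).trans (le_abs_self _))
  obtain ⟨μ, -, -, h3, -, -, h6⟩ := pencil_all d P Q hPs hQs b B hb hpos hQn
  have hSd : ∀ s R : ℝ, Sd Φ h c s R y =
      ∑ j ∈ Finset.range (d + 1), |(P + (s + j * 2 * R) • Q).det| := by
    intro s R
    unfold Sd
    refine Finset.sum_congr rfl fun j _ => ?_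
    rw [hPQ, mul_comm (2 : ℝ) (j : ℝ)]
  refine ⟨μ, fun s R hR => ?_⟩
  have hR0 : 0 < R := lt_of_lt_of_le one_pos hR
  have hSpos : 0 < Sd Φ h c s R y := by
    rw [hSd]
    exact DDr_pos P Q hPs hQs hb hpos s hR0
  refine ⟨hSpos, ?_, ?_⟩
  · have h7 := h6 s (1 / R) (Sd Φ h c s R y) (by positivity) (fun j hj => by
      have h8 := le_DDr P Q s R j hj
      rw [← hSd] at h8
      have e : s + 2 * (j : ℝ) / (1 / R) = s + 2 * j * R := by
        rw [div_div_eq_mul_div, div_one]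
      rw [e]
      exact h8)
    have e1 : ((1 / R) ^ d * Sd Φ h c s R y)⁻¹ = R ^ d * (Sd Φ h c s R y)⁻¹ := by
      rw [mul_inv, one_div, inv_pow, inv_inv]
    have e2 : (1 / R) ^ 2 = (R ^ 2)⁻¹ := by rw [one_div, inv_pow]
    have e3 : ∀ i, fr (1 / R) |s - μ i|
        = √(1 + |s - μ i| / R ^ 2) / max 1 (|s - μ i| / R) := by
      intro i
      unfold fr
      rw [e2, inv_mul_eq_div, one_div_mul_eq_div]
    simp only [e3] at h7
    rw [e1, e2] at h7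
    have e4 : Vv Φ h c s R y = R ^ d * (Sd Φ h c s R y)⁻¹ * (AA ((R ^ 2)⁻¹ • (P + s • Q)))⁻¹ := by
      unfold Vv Mz
      rw [hPQ, div_eq_mul_inv, div_eq_mul_inv]
    rw [e4]
    refine h7.trans (mul_le_mul_of_nonneg_right (by linarith) ?_)
    exact Finset.prod_nonneg fun i _ => by positivity
  · have : Nonempty (Fin d) := ⟨⟨0, hd⟩⟩
    obtain ⟨i, hi⟩ := Finite.exists_max (fun i => |s - μ i|)
    refine ⟨i, ?_⟩
    rw [hPQ]
    refine (h3 s _ (abs_nonneg _) hi).trans (mul_le_mul_of_nonneg_right ?_ (abs_nonneg _))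
    have : 0 ≤ ((2 * d + 1) / b * max 1 B) ^ d := by positivity
    linarith

end Pool.Agent.GNP
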