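import Pool.Agent.GNP.S5
import Pool.Agent.GNP.VLe

/-!
Every phase: the integral of the density in `s`.
-/

namespace Pool.Agent.GNP

open MeasureTheory Set Pool.Agent.MP_6cbfb8_an
open scoped ENNReal Real RealInnerProductSpace ContDiff

/-- The density is integrable in `s`, with integral `≤ K R`. -/
theorem V_int (d : ℕ) (hd : 1 ≤ d) (A : ℕ → ℝ) (r' b α : ℝ) (hb : 0 < b)
    (hα : 2 / (d : ℝ) < α) : ∃ K : ℝ, 0 < K ∧
    ∀ Φ h : E d → ℝ, Sm d A Φ → Sm d A h → Df d b r' h → ∀ y, ‖y‖ ≤ r' → ∀ c R : ℝ, 1 ≤ R →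
      ∫⁻ s : ℝ, ENNReal.ofReal (Vv Φ h c s R y ^ α) ≤ ENNReal.ofReal (K * R) := by
  obtain ⟨C, hC, hV⟩ := V_le d hd A r' b hb
  obtain ⟨K, hK, hS⟩ := S5a d hd α hα
  have hα0 : 0 < α := lt_of_le_of_lt (by positivity) hα
  refine ⟨C ^ α * K, by positivity, ?_⟩
  intro Φ h hΦ hh hDf y hy c R hR
  obtain ⟨μ, hμ⟩ := hV Φ h hΦ hh hDf y hy c
  have hR0 : 0 < R := by linarith
  have hr : 0 < 1 / R := by positivity
  have hr1 : 1 / R ≤ 1 := by
    rw [div_le_one hR0]
    exact hR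
  have h1 : ∀ s : ℝ, ENNReal.ofReal (Vv Φ h c s R y ^ α) ≤
      ENNReal.ofReal (C ^ α) * ENNReal.ofReal ((∏ i, fr (1 / R) |s - μ i|) ^ α) := by
    intro s
    obtain ⟨hSd, hle, -⟩ := hμ s R hR
    have hfr : ∀ i, √(1 + |s - μ i| / R ^ 2) / max 1 (|s - μ i| / R) = fr (1 / R) |s - μ i| := by
      intro i
      unfold fr
      congr 2
      · ring
      · ring
    rw [← ENNReal.ofReal_mul (by positivity)]
    refine ENNReal.ofReal_le_ofReal ?_
    rw [← Real.mul_rpow hC.le (Finset.prod_nonneg fun i _ => fr_nonneg _ _)]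
    refine Real.rpow_le_rpow ?_ ?_ hα0.le
    · unfold Vv
      have : 0 ≤ AA (Mz (ph Φ h c s) R y) := by
        unfold AA
        positivity
      positivity
    · rw [Finset.prod_congr rfl fun i _ => hfr i] at hle
      exact hle
  refine (lintegral_mono h1).trans ?_
  rw [lintegral_const_mul' _ _ ENNReal.ofReal_ne_top]
  refine (mul_le_mul_right (hS (1 / R) μ hr hr1) _).trans (le_of_eq ?_)
  rw [← ENNReal.ofReal_mul (by positivity)]
  congr 1
  field_simp

end Pool.Agent.GNP
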