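import Pool.Agent.GNP.SL

/-!
The set where the traceless part is small and some derivative of it is large.
-/

namespace Pool.Agent.GNP

open MeasureTheory Set Pool.Agent.MP_6cbfb8_an
open scoped ENNReal Real RealInnerProductSpace ContDiff

/-- The points of the ball where some derivative of some `T i` is large. -/
def Nset {d : ℕ} {ι : Type} (J : ℕ) (c0 ρ r : ℝ) (T : ι → E d → ℝ) : Set (E d) :=
  {y | ‖y‖ ≤ ρ ∧ ∃ k, 1 ≤ k ∧ k ≤ J ∧ ∃ i, c0 / r ^ (k + 2) ≤ ‖iteratedFDeriv ℝ k (T i) y‖}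

theorem Nset_eq {d : ℕ} {ι : Type} (J : ℕ) (c0 ρ r : ℝ) (T : ι → E d → ℝ) :
    Nset J c0 ρ r T = {y | ‖y‖ ≤ ρ} ∩ ⋃ k ∈ Finset.Icc 1 J, ⋃ i : ι,
      {y | c0 / r ^ (k + 2) ≤ ‖iteratedFDeriv ℝ k (T i) y‖} := by
  ext y
  simp only [Nset, mem_ofPred_eq, mem_inter_iff, mem_iUnion, Finset.mem_Icc, exists_prop,
    and_assoc]

theorem measurableSet_Nset {d : ℕ} {ι : Type} [Fintype ι] (J : ℕ) (c0 ρ r : ℝ)
    (T : ι → E d → ℝ) (hT : ∀ i, ContDiff ℝ ∞ (T i)) : MeasurableSet (Nset J c0 ρ r T) := by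
  rw [Nset_eq]
  refine (measurableSet_le measurable_norm measurable_const).inter
    (Finset.measurableSet_biUnion _ fun k _ => MeasurableSet.iUnion fun i => ?_)
  have h1 : Continuous (iteratedFDeriv ℝ k (T i)) :=
    (hT i).continuous_iteratedFDeriv (by exact_mod_cast le_top)
  exact measurableSet_le measurable_const h1.norm.measurable

theorem tlc_rpow {δ c r : ℝ} (k : ℕ) (hk : 1 ≤ k) (hc : 0 < c) (hc1 : c ≤ 1) (hr : 0 < r)
    (hδ : 1 / r ^ 2 ≤ δ) : (δ / (c / r ^ (k + 2))) ^ (1 / (k : ℝ)) ≤ c⁻¹ * (δ * r ^ 3) := by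
  have hδ0 : 0 < δ := lt_of_lt_of_le (by positivity) hδ
  have hk0 : (0 : ℝ) < k := by exact_mod_cast hk
  have h1 : δ / (c / r ^ (k + 2)) = (δ * r ^ 2 / c) * r ^ k := by
    rw [pow_add]
    field_simp
  have h2 : 1 ≤ δ * r ^ 2 := by
    rw [div_le_iff₀ (by positivity)] at hδ
    exact hδ
  have h3 : 1 ≤ δ * r ^ 2 / c := by
    rw [le_div_iff₀ hc]
    linarith
  have h4 : (r ^ k) ^ (1 / (k : ℝ)) = r := by
    rw [← Real.rpow_natCast, ← Real.rpow_mul hr.le, mul_one_div, div_self hk0.ne', Real.rpow_one]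
  rw [h1, Real.mul_rpow (by positivity) (by positivity), h4]
  have h5 : (δ * r ^ 2 / c) ^ (1 / (k : ℝ)) ≤ δ * r ^ 2 / c := by
    calc (δ * r ^ 2 / c) ^ (1 / (k : ℝ)) ≤ (δ * r ^ 2 / c) ^ (1 : ℝ) := by
          refine Real.rpow_le_rpow_of_exponent_le h3 ?_
          rw [div_le_one hk0]
          exact_mod_cast hk
      _ = _ := Real.rpow_one _
  calc (δ * r ^ 2 / c) ^ (1 / (k : ℝ)) * r ≤ δ * r ^ 2 / c * r := by gcongr
    _ = _ := by
      field_simp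

theorem Nset_vol (d J : ℕ) (ι : Type) [Fintype ι] (A : ℕ → ℝ) (c0 ρ ε : ℝ) (hc0 : 0 < c0)
    (hρ : 0 < ρ) (hε : 0 < ε) : ∃ K : ℝ, 0 < K ∧ ∀ (T : ι → E d → ℝ) (L r δ : ℝ), 1 ≤ L →
    0 < r → r ≤ 1 → 1 / r ^ 2 ≤ δ → (∀ i, ContDiff ℝ ∞ (T i)) →
    (∀ i j, 1 ≤ j → ∀ y, ‖iteratedFDeriv ℝ j (T i) y‖ ≤ A j * L) →
    volume {y | y ∈ Nset J c0 ρ r T ∧ ∑ i, |T i y| ≤ δ} ≤
      ENNReal.ofReal (K * L ^ ε * δ * r ^ 3) := by
  classical
  set c : ℝ := min c0 1 with hc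
  have hc' : 0 < c := lt_min hc0 one_pos
  have hc1 : c ≤ 1 := min_le_right _ _
  set V : ℝ := (volume (Metric.closedBall (0 : E d) ρ)).toReal with hV
  have hV0 : 0 ≤ V := ENNReal.toReal_nonneg
  have hfin : volume (Metric.closedBall (0 : E d) ρ) ≠ ⊤ :=
    (isCompact_closedBall (0 : E d) ρ).measure_lt_top.ne
  have hex : ∀ k : ℕ, ∃ K : ℝ, 0 < K ∧ (1 ≤ k → ∀ (f : E d → ℝ) (L al be : ℝ), 1 ≤ L → 1 ≤ al →
      1 ≤ be → ContDiff ℝ ∞ f → (∀ j, 1 ≤ j → ∀ y, ‖iteratedFDeriv ℝ j f y‖ ≤ A j * L) →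
      volume {y : E d | ‖y‖ ≤ ρ ∧ |f y| ≤ al ∧ be ≤ ‖iteratedFDeriv ℝ k f y‖} ≤
        ENNReal.ofReal (K * L ^ ε * (al / be) ^ (1 / (k : ℝ)))) := by
    intro k
    by_cases hk : 1 ≤ k
    · obtain ⟨K, hK, h⟩ := sublevel d k hk A ρ ε hρ hε
      exact ⟨K, hK, fun _ => h⟩
    · exact ⟨1, one_pos, fun h => absurd h hk⟩
  choose Kk hKk hsub using hex
  refine ⟨(Fintype.card ι : ℝ) * (∑ k ∈ Finset.Icc 1 J, c⁻¹ * (Kk k + V)) + 1, ?_, ?_⟩
  · have : 0 ≤ ∑ k ∈ Finset.Icc 1 J, c⁻¹ * (Kk k + V) :=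
      Finset.sum_nonneg fun k _ => mul_nonneg (inv_nonneg.2 hc'.le) (by linarith [hKk k])
    positivity
  intro T L r δ hL hr hr1 hδ hT hb
  have hL0 : 0 < L := by linarith
  have hLε : 1 ≤ L ^ ε := Real.one_le_rpow hL hε.le
  have hδ0 : 0 < δ := lt_of_lt_of_le (by positivity) hδ
  have hδ1 : 1 ≤ δ := by
    refine le_trans ?_ hδ
    rw [le_div_iff₀ (by positivity)]
    nlinarith
  have hδr : r ≤ δ * r ^ 3 := by
    rw [div_le_iff₀ (by positivity)] at hδ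
    nlinarith
  have hone : ∀ k ∈ Finset.Icc 1 J, ∀ i : ι,
      volume {y : E d | ‖y‖ ≤ ρ ∧ |T i y| ≤ δ ∧
        c / r ^ (k + 2) ≤ ‖iteratedFDeriv ℝ k (T i) y‖} ≤
      ENNReal.ofReal (c⁻¹ * (Kk k + V) * (L ^ ε * δ * r ^ 3)) := by
    intro k hk i
    rw [Finset.mem_Icc] at hk
    have hK := hKk k
    by_cases hbe : 1 ≤ c / r ^ (k + 2)
    · refine (hsub k hk.1 (T i) L δ (c / r ^ (k + 2)) hL hδ1 hbe (hT i) (hb i)).trans ?_
      refine ENNReal.ofReal_le_ofReal ?_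
      have h1 := tlc_rpow k hk.1 hc' hc1 hr hδ
      calc Kk k * L ^ ε * (δ / (c / r ^ (k + 2))) ^ (1 / (k : ℝ))
          ≤ Kk k * L ^ ε * (c⁻¹ * (δ * r ^ 3)) := by gcongr
        _ = c⁻¹ * (Kk k + 0) * (L ^ ε * δ * r ^ 3) := by ring
        _ ≤ c⁻¹ * (Kk k + V) * (L ^ ε * δ * r ^ 3) := by gcongr
    · push Not at hbe
      have h1 : c < r := by
        rw [div_lt_one (by positivity)] at hbe
        refine hbe.trans_le ?_
        calc r ^ (k + 2) ≤ r ^ 1 := pow_le_pow_of_le_one hr.le hr1 (by omega)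
          _ = r := pow_one r
      refine (measure_mono (t := Metric.closedBall (0 : E d) ρ) fun y hy => ?_).trans ?_
      · simpa using hy.1
      · rw [← ENNReal.ofReal_toReal hfin, ← hV]
        refine ENNReal.ofReal_le_ofReal ?_
        have h2 : c ≤ L ^ ε * δ * r ^ 3 := by
          have h3 : 0 ≤ δ * r ^ 3 := by positivity
          nlinarith
        calc V = c⁻¹ * V * c := by field_simp
          _ ≤ c⁻¹ * (Kk k + V) * c := by
            gcongr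
            linarith
          _ ≤ _ := by gcongr
  have hcov : {y | y ∈ Nset J c0 ρ r T ∧ ∑ i, |T i y| ≤ δ} ⊆
      ⋃ k ∈ Finset.Icc 1 J, ⋃ i ∈ (Finset.univ : Finset ι), {y : E d | ‖y‖ ≤ ρ ∧ |T i y| ≤ δ ∧
        c / r ^ (k + 2) ≤ ‖iteratedFDeriv ℝ k (T i) y‖} := by
    rintro y ⟨⟨h1, k, hk1, hk2, i, hi⟩, h2⟩
    simp only [mem_iUnion, mem_ofPred_eq]
    refine ⟨k, Finset.mem_Icc.2 ⟨hk1, hk2⟩, i, Finset.mem_univ i, h1, ?_, ?_⟩
    · exact (Finset.single_le_sum (f := fun i => |T i y|) (fun i _ => abs_nonneg _)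
        (Finset.mem_univ i)).trans h2
    · refine le_trans ?_ hi
      gcongr
      exact min_le_left _ _
  refine (measure_mono hcov).trans ((measure_biUnion_finset_le _ _).trans ?_)
  have h1 : ∀ k ∈ Finset.Icc 1 J, volume (⋃ i ∈ (Finset.univ : Finset ι),
      {y : E d | ‖y‖ ≤ ρ ∧ |T i y| ≤ δ ∧ c / r ^ (k + 2) ≤ ‖iteratedFDeriv ℝ k (T i) y‖}) ≤
      ENNReal.ofReal ((Fintype.card ι : ℝ) * (c⁻¹ * (Kk k + V) * (L ^ ε * δ * r ^ 3))) := by
    intro k hk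
    refine (measure_biUnion_finset_le _ _).trans
      ((Finset.sum_le_sum fun i _ => hone k hk i).trans ?_)
    rw [Finset.sum_const, Finset.card_univ, nsmul_eq_mul, ← ENNReal.ofReal_natCast,
      ← ENNReal.ofReal_mul (Nat.cast_nonneg _)]
  refine (Finset.sum_le_sum h1).trans ?_
  have hnn : ∀ k, 0 ≤ (Fintype.card ι : ℝ) * (c⁻¹ * (Kk k + V) * (L ^ ε * δ * r ^ 3)) := by
    intro k
    have := hKk k
    positivity
  rw [← ENNReal.ofReal_sum_of_nonneg fun k _ => hnn k]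
  refine ENNReal.ofReal_le_ofReal ?_
  rw [← Finset.mul_sum, ← Finset.sum_mul]
  have h3 : 0 ≤ L ^ ε * δ * r ^ 3 := by positivity
  calc (Fintype.card ι : ℝ) * ((∑ k ∈ Finset.Icc 1 J, c⁻¹ * (Kk k + V)) * (L ^ ε * δ * r ^ 3))
      = ((Fintype.card ι : ℝ) * (∑ k ∈ Finset.Icc 1 J, c⁻¹ * (Kk k + V)) + 0) *
        (L ^ ε * δ * r ^ 3) := by ring
    _ ≤ ((Fintype.card ι : ℝ) * (∑ k ∈ Finset.Icc 1 J, c⁻¹ * (Kk k + V)) + 1) *
        (L ^ ε * δ * r ^ 3) := by gcongr; norm_num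
    _ = _ := by ring

theorem Nset_mem {d : ℕ} {ι : Type} [Fintype ι] (J : ℕ) {c C C' c1 ρ r : ℝ} (T : ι → E d → ℝ)
    (q : E d → ℝ) (y : E d) (hc : 0 < c) (hC : 0 < C) (hC' : 0 < C') (hr : 0 < r)
    (hr1 : r ≤ 1) (hrc : r ≤ c1) (hy : ‖y‖ ≤ ρ) (hc1 : 2 * C * C' * (J + 1) * c1 ≤ c)
    (htl : ∀ k, k + 1 ≤ J → ‖iteratedFDeriv ℝ (k + 3) q y‖ ≤
      C * (∑ i, ‖iteratedFDeriv ℝ (k + 1) (T i) y‖ +
        ∑ i ∈ Finset.range (k + 1), ‖iteratedFDeriv ℝ (i + 2) q y‖))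
    (hlo : ∃ k, k + 1 ≤ J ∧ c / r ^ (k + 3) ≤ ‖iteratedFDeriv ℝ (k + 3) q y‖)
    (hup : ∀ k, k + 1 ≤ J → ‖iteratedFDeriv ℝ (k + 3) q y‖ ≤ C' / r ^ (k + 3))
    (h2 : ‖iteratedFDeriv ℝ 2 q y‖ ≤ C' * c1 / r ^ 3) :
    y ∈ Nset J (c / (2 * C * (Fintype.card ι + 1))) ρ r T := by
  obtain ⟨k, hk, hlk⟩ := hlo
  have hc10 : 0 < c1 := hr.trans_le hrc
  have h3 := htl k hk
  have hrk : 0 < r ^ (k + 3) := by positivity
  have h4 : ∑ i ∈ Finset.range (k + 1), ‖iteratedFDeriv ℝ (i + 2) q y‖ ≤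
      (J + 1) * (C' * c1 / r ^ (k + 3)) := by
    have h5 : ∀ i ∈ Finset.range (k + 1), ‖iteratedFDeriv ℝ (i + 2) q y‖ ≤
        C' * c1 / r ^ (k + 3) := by
      intro i hi
      rw [Finset.mem_range] at hi
      rcases i with _ | i
      · refine h2.trans ?_
        refine div_le_div_of_nonneg_left (by positivity) hrk ?_
        exact pow_le_pow_of_le_one hr.le hr1 (by omega)
      · refine (hup i (by omega)).trans ?_
        rw [div_le_div_iff₀ (by positivity) hrk]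
        have h6 : r ^ (k + 3) = r ^ (k - i) * r ^ (i + 3) := by
          rw [← pow_add]
          congr 1
          omega
        have h7 : r ^ (k - i) ≤ c1 := by
          refine le_trans ?_ hrc
          calc r ^ (k - i) ≤ r ^ 1 := pow_le_pow_of_le_one hr.le hr1 (by omega)
            _ = r := pow_one r
        rw [h6]
        calc C' * (r ^ (k - i) * r ^ (i + 3)) ≤ C' * (c1 * r ^ (i + 3)) := by gcongr
          _ = _ := by ring
    refine (Finset.sum_le_card_nsmul _ _ _ h5).trans ?_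
    rw [Finset.card_range, nsmul_eq_mul]
    have h8 : ((k + 1 : ℕ) : ℝ) ≤ J + 1 := by
      have : ((k + 1 : ℕ) : ℝ) ≤ J := by exact_mod_cast hk
      linarith
    gcongr
  have h5 : c / (2 * C) / r ^ (k + 3) ≤ ∑ i, ‖iteratedFDeriv ℝ (k + 1) (T i) y‖ := by
    have h6 : C * ((J + 1) * (C' * c1 / r ^ (k + 3))) ≤ c / 2 / r ^ (k + 3) := by
      rw [mul_div_assoc', mul_div_assoc']
      rw [div_le_div_iff_of_pos_right hrk]
      nlinarith
    have h7 : c / r ^ (k + 3) ≤ C * (∑ i, ‖iteratedFDeriv ℝ (k + 1) (T i) y‖) +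
        c / 2 / r ^ (k + 3) := by
      refine (hlk.trans h3).trans ?_
      rw [mul_add]
      have := mul_le_mul_of_nonneg_left h4 hC.le
      linarith
    have h8 : c / (2 * C) / r ^ (k + 3) = (c / r ^ (k + 3) - c / 2 / r ^ (k + 3)) / C := by
      field_simp
      ring
    rw [h8, div_le_iff₀ hC]
    linarith
  refine ⟨hy, k + 1, by omega, hk, ?_⟩
  by_contra hcon
  push Not at hcon
  have h9 : ∑ i, ‖iteratedFDeriv ℝ (k + 1) (T i) y‖ ≤
      (Fintype.card ι : ℝ) * (c / (2 * C * (Fintype.card ι + 1)) / r ^ (k + 3)) := by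
    refine (Finset.sum_le_card_nsmul _ _ _ fun i _ => (hcon i).le).trans ?_
    rw [Finset.card_univ, nsmul_eq_mul]
  have hn : (0 : ℝ) ≤ Fintype.card ι := Nat.cast_nonneg _
  have h10 : (Fintype.card ι : ℝ) * (c / (2 * C * (Fintype.card ι + 1)) / r ^ (k + 3)) <
      c / (2 * C) / r ^ (k + 3) := by
    have h11 : c / (2 * C * (Fintype.card ι + 1)) / r ^ (k + 3) =
      (c / (2 * C) / r ^ (k + 3)) / (Fintype.card ι + 1) := by
      field_simp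
    rw [h11, mul_div_assoc', div_lt_iff₀ (by positivity)]
    have : 0 < c / (2 * C) / r ^ (k + 3) := by positivity
    nlinarith
  linarith

end Pool.Agent.GNP
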