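import Mathlib

/-!
The trace free part of the second derivative: its derivatives control those of the function.
-/

set_option autoImplicit false

namespace Pool.Agent.AP4X

open scoped RealInnerProductSpace ContDiff
open Finset

/-- The directional derivative. -/
noncomputable def pd {d : ℕ} (v : EuclideanSpace ℝ (Fin d)) (f : (EuclideanSpace ℝ (Fin d)) → ℝ) (y : EuclideanSpace ℝ (Fin d)) : ℝ := fderiv ℝ f y v

/-- The standard basis vector. -/
noncomputable def be {d : ℕ} (i : Fin d) : EuclideanSpace ℝ (Fin d) := EuclideanSpace.single i 1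

/-- The trace free part of the second derivative of `q` relative to that of `h`. -/
noncomputable def TL {d : ℕ} (q h : (EuclideanSpace ℝ (Fin d)) → ℝ) (a b c e : Fin d) (y : EuclideanSpace ℝ (Fin d)) : ℝ :=
  pd (be a) (pd (be b) q) y * pd (be c) (pd (be e) h) y
    - pd (be c) (pd (be e) q) y * pd (be a) (pd (be b) h) y

theorem norm_be {d : ℕ} (i : Fin d) : ‖(be i : EuclideanSpace ℝ (Fin d))‖ = 1 := by
  simp [be]

theorem pd_contDiff {d : ℕ} {v : EuclideanSpace ℝ (Fin d)} {f : (EuclideanSpace ℝ (Fin d)) → ℝ} (hf : ContDiff ℝ ∞ f) :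
    ContDiff ℝ ∞ (pd v f) := by
  have h : ContDiff ℝ ∞ (fderiv ℝ f) := hf.fderiv_right (by simp)
  exact h.clm_apply contDiff_const

theorem pd_comm {d : ℕ} {v w : EuclideanSpace ℝ (Fin d)} {f : (EuclideanSpace ℝ (Fin d)) → ℝ} (hf : ContDiff ℝ ∞ f) :
    pd v (pd w f) = pd w (pd v f) := by
  funext y
  have hd : DifferentiableAt ℝ (fderiv ℝ f) y :=
    ((hf.fderiv_right (m := ∞) (by simp)).differentiable (by simp)).differentiableAt
  have key : ∀ u u' : EuclideanSpace ℝ (Fin d), pd u (pd u' f) y = fderiv ℝ (fderiv ℝ f) y u u' := by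
    intro u u'
    have : pd u' f = fun z => fderiv ℝ f z u' := rfl
    rw [pd, this, fderiv_clm_apply hd (differentiableAt_const _)]
    simp
  rw [key, key]
  have hs : IsSymmSndFDerivAt ℝ f y :=
    (hf.contDiffAt (x := y)).isSymmSndFDerivAt
      (by
        have h2 : (((2 : ℕ∞)) : WithTop ℕ∞) ≤ ((⊤ : ℕ∞) : WithTop ℕ∞) := WithTop.coe_le_coe.mpr le_top
        simpa using h2)
  exact hs v w

theorem itd_snoc {d k : ℕ} {v : EuclideanSpace ℝ (Fin d)} {f : (EuclideanSpace ℝ (Fin d)) → ℝ} (hf : ContDiff ℝ ∞ f) (x : EuclideanSpace ℝ (Fin d))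
    (m : Fin k → EuclideanSpace ℝ (Fin d)) :
    iteratedFDeriv ℝ (k + 1) f x (Fin.snoc m v) = iteratedFDeriv ℝ k (pd v f) x m := by
  rw [iteratedFDeriv_succ_apply_right]
  have h : ContDiff ℝ ∞ (fderiv ℝ f) := hf.fderiv_right (by simp)
  have h2 := iteratedFDeriv_clm_apply_const_apply (𝕜 := ℝ) (n := ∞) h (i := k)
    (by exact_mod_cast le_top) (x := x) (u := v) (m := m)
  simp only [Fin.init_snoc, Fin.snoc_last]
  exact h2.symm

theorem norm_pd_le {d k : ℕ} {v : EuclideanSpace ℝ (Fin d)} (hv : ‖v‖ ≤ 1) {f : (EuclideanSpace ℝ (Fin d)) → ℝ} (hf : ContDiff ℝ ∞ f)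
    (x : EuclideanSpace ℝ (Fin d)) : ‖iteratedFDeriv ℝ k (pd v f) x‖ ≤ ‖iteratedFDeriv ℝ (k + 1) f x‖ := by
  refine ContinuousMultilinearMap.opNorm_le_bound (norm_nonneg _) fun m => ?_
  rw [← itd_snoc hf]
  refine (ContinuousMultilinearMap.le_opNorm _ _).trans ?_
  rw [Fin.prod_univ_castSucc]
  simp only [Fin.snoc_castSucc, Fin.snoc_last]
  refine mul_le_mul_of_nonneg_left ?_ (norm_nonneg _)
  exact mul_le_of_le_one_right (prod_nonneg fun _ _ => norm_nonneg _) hv

/-- The `k`-th derivative of a product, with the second factor frozen. -/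
theorem freeze {d k : ℕ} {F G : (EuclideanSpace ℝ (Fin d)) → ℝ} (hF : ContDiff ℝ ∞ F) (hG : ContDiff ℝ ∞ G)
    (x : EuclideanSpace ℝ (Fin d)) :
    ‖iteratedFDeriv ℝ k (fun y => F y * G y) x - G x • iteratedFDeriv ℝ k F x‖
      ≤ ∑ i ∈ range k, (k.choose i : ℝ) * ‖iteratedFDeriv ℝ i F x‖ *
        ‖iteratedFDeriv ℝ (k - i) G x‖ := by
  have hG' : ContDiff ℝ ∞ (fun y => G y - G x) := hG.sub contDiff_const
  have h1 : (fun y => F y * G y) = (fun y => G x • F y + F y * (G y - G x)) := by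
    funext y
    simp only [smul_eq_mul]
    ring
  have hk : ((k : ℕ∞) : WithTop ℕ∞) ≤ (∞ : WithTop ℕ∞) := by exact_mod_cast le_top
  have h2 : iteratedFDeriv ℝ k (fun y => F y * G y) x
      = G x • iteratedFDeriv ℝ k F x + iteratedFDeriv ℝ k (fun y => F y * (G y - G x)) x := by
    rw [h1]
    have e1 : ContDiff ℝ k (fun y => G x • F y) := (hF.const_smul (G x)).of_le hk
    have e2 : ContDiff ℝ k (fun y => F y * (G y - G x)) := (hF.mul hG').of_le hk
    have := iteratedFDeriv_add (𝕜 := ℝ) (i := k) e1 e2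
    have h3 : iteratedFDeriv ℝ k (fun y => G x • F y + F y * (G y - G x)) x
        = iteratedFDeriv ℝ k (fun y => G x • F y) x
          + iteratedFDeriv ℝ k (fun y => F y * (G y - G x)) x := by
      exact congrFun this x
    rw [h3]
    congr 1
    have h6 : ContDiffAt ℝ k F x := (hF.of_le hk).contDiffAt
    exact iteratedFDeriv_const_smul_apply (𝕜 := ℝ) (a := G x) (f := F) h6
  rw [h2, add_sub_cancel_left]
  refine (norm_iteratedFDeriv_mul_le (N := (k : ℕ∞)) (hF.of_le hk) (hG'.of_le hk) x le_rfl).trans ?_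
  rw [sum_range_succ]
  have h0 : ‖iteratedFDeriv ℝ (k - k) (fun y => G y - G x) x‖ = 0 := by
    rw [Nat.sub_self, norm_iteratedFDeriv_zero]
    simp
  rw [h0, mul_zero, add_zero]
  refine sum_le_sum fun i hi => ?_
  have hi' : i < k := mem_range.mp hi
  refine mul_le_mul_of_nonneg_left ?_ (by positivity)
  obtain ⟨j, hj⟩ : ∃ j, k - i = j + 1 := ⟨k - i - 1, by omega⟩
  rw [hj]
  have e3 : iteratedFDeriv ℝ (j + 1) (fun y => G y - G x) x = iteratedFDeriv ℝ (j + 1) G x := by
    have hj2 : (((j + 1 : ℕ) : ℕ∞) : WithTop ℕ∞) ≤ (∞ : WithTop ℕ∞) := by exact_mod_cast le_top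
    have := iteratedFDeriv_sub (𝕜 := ℝ) (i := j + 1) (f := G) (g := fun _ => G x) (hG.of_le hj2)
      contDiff_const
    have h4 := congrFun this x
    simp only [Pi.sub_apply] at h4
    have h5 : iteratedFDeriv ℝ (j + 1) (fun _ : EuclideanSpace ℝ (Fin d) => G x) x = 0 := by
      rw [iteratedFDeriv_const_of_ne (by omega)]
      rfl
    rw [h5, sub_zero] at h4
    exact h4
  rw [e3]

/-- The algebra: a symmetric array `T` whose trace free part is small is small. -/
theorem algebra {d : ℕ} (hd : 2 ≤ d) {b A η : ℝ} (hb : 0 < b) (hη : 0 ≤ η)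
    (H : Fin d → Fin d → ℝ) (hA : ∀ i j, |H i j| ≤ A)
    (hpos : ∀ v : Fin d → ℝ, b * ∑ i, v i ^ 2 ≤ |∑ i, ∑ j, v i * v j * H i j|)
    (T : Fin d → Fin d → Fin d → ℝ) (hs : ∀ g a c, T g a c = T a g c)
    (hT : ∀ g a c e e', |T g a c * H e e' - T g e e' * H a c| ≤ η) (g a c : Fin d) :
    |T g a c| ≤ (4 * A / b + 1) * η / b := by
  have hA0 : 0 ≤ A := (abs_nonneg _).trans (hA g g)
  -- diagonal entries
  have hdiag : ∀ i, b ≤ |H i i| := by
    intro i
    have := hpos (Pi.single i 1)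
    have e1 : ∑ j, (Pi.single i (1 : ℝ) : Fin d → ℝ) j ^ 2 = 1 := by
      rw [sum_eq_single i]
      · simp
      · intro j _ hj
        simp [hj]
      · simp
    have e2 : ∑ j, ∑ l, (Pi.single i (1 : ℝ) : Fin d → ℝ) j * (Pi.single i (1 : ℝ) : Fin d → ℝ) l
        * H j l = H i i := by
      rw [sum_eq_single i]
      · rw [sum_eq_single i]
        · simp
        · intro l _ hl
          simp [hl]
        · simp
      · intro j _ hj
        simp [hj]
      · simp
    rw [e1, e2, mul_one] at this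
    exact this
  set o : Fin d := ⟨0, by omega⟩ with ho
  -- `t_g`
  have ht : ∀ g a : Fin d, g ≠ a → T g o o ^ 2 + T a o o ^ 2
      ≤ (|T g o o| + |T a o o|) * (2 * η) / b := by
    intro g a hga
    -- the vector `v = t_g e_a - t_a e_g`
    have hv : ∀ c, |T g o o * H a c - T a o o * H g c| ≤ 2 * η := by
      intro c
      have h1 := hT g a c o o
      have h2 := hT a g c o o
      rw [hs a g c] at h2
      have : T g o o * H a c - T a o o * H g c
          = (T g a c * H o o - T a o o * H g c) - (T g a c * H o o - T g o o * H a c) := by ring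
      rw [this]
      calc _ ≤ |T g a c * H o o - T a o o * H g c| + |T g a c * H o o - T g o o * H a c| :=
            abs_sub _ _
        _ ≤ 2 * η := by linarith
    let v : Fin d → ℝ := fun i => if i = a then T g o o else if i = g then - T a o o else 0
    have hvs : ∀ f : Fin d → ℝ, ∑ i, v i * f i = T g o o * f a - T a o o * f g := by
      intro f
      have : ∀ i, v i * f i = (if i = a then T g o o * f i else 0)
          + (if i = g then - T a o o * f i else 0) := by
        intro i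
        simp only [v]
        by_cases h1 : i = a
        · have h2 : i ≠ g := fun h => hga (h.symm.trans h1)
          simp [h1, hga.symm]
        · by_cases h2 : i = g
          · simp [h2, hga]
          · simp [h1, h2]
      rw [sum_congr rfl fun i _ => this i, sum_add_distrib]
      simp
      ring
    have h3 := hpos v
    have h4 : ∑ i, v i ^ 2 = T g o o ^ 2 + T a o o ^ 2 := by
      have := hvs v
      have e : ∀ i, v i ^ 2 = v i * v i := fun i => sq _
      rw [sum_congr rfl fun i _ => e i, this]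
      simp only [v]
      simp [hga]
      ring
    have h5 : ∑ i, ∑ j, v i * v j * H i j
        = ∑ j, v j * (T g o o * H a j - T a o o * H g j) := by
      rw [sum_comm]
      refine sum_congr rfl fun j _ => ?_
      have : ∑ i, v i * v j * H i j = v j * ∑ i, v i * H i j := by
        rw [mul_sum]
        exact sum_congr rfl fun i _ => by ring
      rw [this, hvs]
    rw [h4, h5, hvs] at h3
    have h6 : |T g o o * (T g o o * H a a - T a o o * H g a)
        - T a o o * (T g o o * H a g - T a o o * H g g)|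
        ≤ (|T g o o| + |T a o o|) * (2 * η) := by
      calc _ ≤ |T g o o * (T g o o * H a a - T a o o * H g a)|
            + |T a o o * (T g o o * H a g - T a o o * H g g)| := abs_sub _ _
        _ = |T g o o| * |T g o o * H a a - T a o o * H g a|
            + |T a o o| * |T g o o * H a g - T a o o * H g g| := by rw [abs_mul, abs_mul]
        _ ≤ |T g o o| * (2 * η) + |T a o o| * (2 * η) := by
            gcongr
            · exact hv a
            · exact hv g
        _ = _ := by ring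
    rw [le_div_iff₀ hb]
    linarith
  have ht2 : ∀ g : Fin d, |T g o o| ≤ 4 * η / b := by
    intro g
    obtain ⟨a, ha⟩ : ∃ a : Fin d, g ≠ a := by
      by_contra hcon
      push Not at hcon
      have h1 := hcon ⟨0, by omega⟩
      have h2 := hcon ⟨1, by omega⟩
      rw [h1] at h2
      simp [Fin.ext_iff] at h2
    have h1 := ht g a ha
    set x := |T g o o|
    set z := |T a o o|
    have hx : T g o o ^ 2 = x ^ 2 := (sq_abs _).symm
    have hz : T a o o ^ 2 = z ^ 2 := (sq_abs _).symm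
    rw [hx, hz, mul_div_assoc] at h1
    set w := 2 * η / b
    have hw : 0 ≤ w := by positivity
    have hx0 : 0 ≤ x := abs_nonneg _
    have hz0 : 0 ≤ z := abs_nonneg _
    have : x ≤ 2 * w := by
      by_contra hcon
      push Not at hcon
      nlinarith [sq_nonneg (x - z), sq_nonneg (z - w / 2), sq_nonneg (x - 2 * w)]
    calc x ≤ 2 * w := this
      _ = 4 * η / b := by simp only [w]; ring
  have h1 := hT g a c o o
  have h2 : |T g a c * H o o| ≤ η + |T g o o * H a c| := by
    calc |T g a c * H o o| = |(T g a c * H o o - T g o o * H a c) + T g o o * H a c| := by ring_nf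
      _ ≤ _ := (abs_add_le _ _).trans (by linarith)
  have h3 : |T g o o * H a c| ≤ 4 * η / b * A := by
    rw [abs_mul]
    exact mul_le_mul (ht2 g) (hA a c) (abs_nonneg _) (by positivity)
  have h4 : |T g a c| * b ≤ |T g a c * H o o| := by
    rw [abs_mul]
    exact mul_le_mul_of_nonneg_left (hdiag o) (abs_nonneg _)
  rw [le_div_iff₀ hb]
  calc |T g a c| * b ≤ η + 4 * η / b * A := by linarith
    _ = (4 * A / b + 1) * η := by ring


/-- The third derivatives in fixed directions, differentiated `k` more times. -/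
noncomputable def TT {d k : ℕ} (q : (EuclideanSpace ℝ (Fin d)) → ℝ) (x : EuclideanSpace ℝ (Fin d)) (m : Fin k → EuclideanSpace ℝ (Fin d)) (g a c : Fin d) : ℝ :=
  iteratedFDeriv ℝ k (pd (be g) (pd (be a) (pd (be c) q))) x m

theorem TT_eq {d k : ℕ} {q : (EuclideanSpace ℝ (Fin d)) → ℝ} (hq : ContDiff ℝ ∞ q) (x : EuclideanSpace ℝ (Fin d)) (m : Fin k → EuclideanSpace ℝ (Fin d))
    (g a c : Fin d) :
    iteratedFDeriv ℝ (k + 1) (pd (be a) (pd (be c) q)) x (Fin.snoc m (be g)) = TT q x m g a c := by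
  rw [itd_snoc (pd_contDiff (pd_contDiff hq))]
  rfl

theorem TT_eq3 {d k : ℕ} {q : (EuclideanSpace ℝ (Fin d)) → ℝ} (hq : ContDiff ℝ ∞ q) (x : EuclideanSpace ℝ (Fin d)) (m : Fin k → EuclideanSpace ℝ (Fin d))
    (u v w : EuclideanSpace ℝ (Fin d)) :
    iteratedFDeriv ℝ (k + 3) q x (Fin.snoc (Fin.snoc (Fin.snoc m u) v) w)
      = iteratedFDeriv ℝ k (pd u (pd v (pd w q))) x m := by
  rw [itd_snoc hq, itd_snoc (pd_contDiff hq), itd_snoc (pd_contDiff (pd_contDiff hq))]

theorem expand {d : ℕ} (z : EuclideanSpace ℝ (Fin d)) : z = ∑ i, z i • (be i : EuclideanSpace ℝ (Fin d)) := by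
  have := (EuclideanSpace.basisFun (Fin d) ℝ).sum_repr z
  simp only [EuclideanSpace.basisFun_apply, EuclideanSpace.basisFun_repr] at this
  exact this.symm

theorem itd_lin {d n : ℕ} (f : (EuclideanSpace ℝ (Fin d)) → ℝ) (hf : ContDiff ℝ ∞ f) (x : EuclideanSpace ℝ (Fin d)) (X : Fin n → EuclideanSpace ℝ (Fin d))
    (w : EuclideanSpace ℝ (Fin d)) :
    iteratedFDeriv ℝ (n + 1) f x (Fin.snoc X w)
      = ∑ l, w l * iteratedFDeriv ℝ n (pd (be l) f) x X := by
  have h : ∀ l, iteratedFDeriv ℝ n (pd (be l) f) x X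
      = iteratedFDeriv ℝ n (fun y => fderiv ℝ f y) x X (be l) := by
    intro l
    rw [← itd_snoc hf, iteratedFDeriv_succ_apply_right]
    simp only [Fin.init_snoc, Fin.snoc_last]
  rw [iteratedFDeriv_succ_apply_right]
  simp only [Fin.init_snoc, Fin.snoc_last]
  simp_rw [h]
  conv_lhs => rw [expand w]
  simp only [map_sum, map_smul, smul_eq_mul]

theorem itd_lin3 {d k : ℕ} {q : (EuclideanSpace ℝ (Fin d)) → ℝ} (hq : ContDiff ℝ ∞ q) (x : EuclideanSpace ℝ (Fin d)) (m : Fin k → EuclideanSpace ℝ (Fin d))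
    (u v w : EuclideanSpace ℝ (Fin d)) :
    iteratedFDeriv ℝ (k + 3) q x (Fin.snoc (Fin.snoc (Fin.snoc m u) v) w)
      = ∑ i, ∑ j, ∑ l, u i * v j * w l * TT q x m i j l := by
  rw [itd_lin q hq]
  have h1 : ∀ l, iteratedFDeriv ℝ (k + 2) (pd (be l) q) x (Fin.snoc (Fin.snoc m u) v)
      = ∑ j, v j * ∑ i, u i * TT q x m i j l := by
    intro l
    rw [itd_lin _ (pd_contDiff hq)]
    refine sum_congr rfl fun j _ => ?_
    rw [itd_lin _ (pd_contDiff (pd_contDiff hq))]
    rfl
  simp_rw [h1, mul_sum]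
  rw [sum_comm]
  rw [sum_congr rfl fun j _ => sum_comm]
  rw [sum_comm]
  refine sum_congr rfl fun i _ => sum_congr rfl fun j _ => sum_congr rfl fun l _ => ?_
  ring

/-- From the basis vectors in the last three slots to all vectors. -/
theorem norm_le_of_TT {d k : ℕ} {q : (EuclideanSpace ℝ (Fin d)) → ℝ} (hq : ContDiff ℝ ∞ q) (x : EuclideanSpace ℝ (Fin d)) {B : ℝ}
    (hB : 0 ≤ B)
    (hT : ∀ (m : Fin k → EuclideanSpace ℝ (Fin d)) (g a c : Fin d), |TT q x m g a c| ≤ B * ∏ i, ‖m i‖) :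
    ‖iteratedFDeriv ℝ (k + 3) q x‖ ≤ (d : ℝ) ^ 3 * B := by
  have hco : ∀ (z : EuclideanSpace ℝ (Fin d)) (i : Fin d), |z i| ≤ ‖z‖ := by
    intro z i
    have := PiLp.norm_apply_le z i
    rwa [Real.norm_eq_abs] at this
  have main : ∀ (m : Fin k → EuclideanSpace ℝ (Fin d)) (u v w : EuclideanSpace ℝ (Fin d)),
      |iteratedFDeriv ℝ (k + 3) q x (Fin.snoc (Fin.snoc (Fin.snoc m u) v) w)|
        ≤ (d : ℝ) ^ 3 * B * ((∏ i, ‖m i‖) * ‖u‖ * ‖v‖ * ‖w‖) := by
    intro m u v w
    have hval : iteratedFDeriv ℝ (k + 3) q x (Fin.snoc (Fin.snoc (Fin.snoc m u) v) w)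
        = ∑ i, ∑ j, ∑ l, u i * v j * w l * TT q x m i j l := itd_lin3 hq x m u v w
    rw [hval]
    have h7 : |∑ i, ∑ j, ∑ l, u i * v j * w l * TT q x m i j l|
        ≤ ∑ _i : Fin d, ∑ _j : Fin d, ∑ _l : Fin d, ‖u‖ * ‖v‖ * ‖w‖ * (B * ∏ i, ‖m i‖) := by
      refine (abs_sum_le_sum_abs _ _).trans (sum_le_sum fun i _ => ?_)
      refine (abs_sum_le_sum_abs _ _).trans (sum_le_sum fun j _ => ?_)
      refine (abs_sum_le_sum_abs _ _).trans (sum_le_sum fun l _ => ?_)
      rw [abs_mul, abs_mul, abs_mul]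
      have g1 := hco u i
      have g2 := hco v j
      have g3 := hco w l
      have g4 := hT m i j l
      have g5 : |u i| * |v j| ≤ ‖u‖ * ‖v‖ := mul_le_mul g1 g2 (abs_nonneg _) (norm_nonneg _)
      have g6 : |u i| * |v j| * |w l| ≤ ‖u‖ * ‖v‖ * ‖w‖ :=
        mul_le_mul g5 g3 (abs_nonneg _) (by positivity)
      exact mul_le_mul g6 g4 (abs_nonneg _) (by positivity)
    refine h7.trans ?_
    simp only [sum_const, card_univ, Fintype.card_fin, nsmul_eq_mul]
    apply le_of_eq
    ring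
  refine ContinuousMultilinearMap.opNorm_le_bound (by positivity) fun M => ?_
  have hM : M = Fin.snoc (Fin.snoc (Fin.snoc
      (fun i => M (Fin.castSucc (Fin.castSucc (Fin.castSucc i))) : Fin k → EuclideanSpace ℝ (Fin d))
      (M (Fin.castSucc (Fin.castSucc (Fin.last k)))))
      (M (Fin.castSucc (Fin.last (k + 1))))) (M (Fin.last (k + 2))) := by
    funext i
    refine Fin.lastCases ?_ (fun i => ?_) i
    · simp only [Fin.snoc_last]
    · refine Fin.lastCases ?_ (fun i => ?_) i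
      · simp only [Fin.snoc_last, Fin.snoc_castSucc]
      · refine Fin.lastCases ?_ (fun i => ?_) i
        · simp only [Fin.snoc_last, Fin.snoc_castSucc]
        · simp only [Fin.snoc_castSucc]
  have hprod : ∏ i, ‖M i‖ = (∏ i, ‖M (Fin.castSucc (Fin.castSucc (Fin.castSucc i)))‖)
      * ‖M (Fin.castSucc (Fin.castSucc (Fin.last k)))‖ * ‖M (Fin.castSucc (Fin.last (k + 1)))‖
      * ‖M (Fin.last (k + 2))‖ := by
    rw [Fin.prod_univ_castSucc, Fin.prod_univ_castSucc, Fin.prod_univ_castSucc]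
  have h8 := main (fun i => M (Fin.castSucc (Fin.castSucc (Fin.castSucc i))))
    (M (Fin.castSucc (Fin.castSucc (Fin.last k)))) (M (Fin.castSucc (Fin.last (k + 1))))
    (M (Fin.last (k + 2)))
  rw [← hM] at h8
  rw [Real.norm_eq_abs, hprod]
  exact h8

/-- **(4.2)** The derivative of order `k + 3` of `q` is controlled by the derivatives of order
`k + 1` of the trace free part and by the derivatives of `q` of lower order (at least two). -/
theorem tl_bound {d : ℕ} (hd : 2 ≤ d) (k : ℕ) {b A : ℝ} (hb : 0 < b) (hA : 0 ≤ A) :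
    ∃ C : ℝ, 0 < C ∧ ∀ (q h : (EuclideanSpace ℝ (Fin d)) → ℝ) (x : EuclideanSpace ℝ (Fin d)), ContDiff ℝ ∞ q → ContDiff ℝ ∞ h →
      (∀ j ≤ k + 3, ‖iteratedFDeriv ℝ j h x‖ ≤ A) →
      (∀ v : Fin d → ℝ, b * ∑ i, v i ^ 2 ≤
        |∑ i, ∑ j, v i * v j * pd (be i) (pd (be j) h) x|) →
      ‖iteratedFDeriv ℝ (k + 3) q x‖ ≤ C * ((∑ a, ∑ c, ∑ e, ∑ e',
        ‖iteratedFDeriv ℝ (k + 1) (TL q h a c e e') x‖)
        + ∑ i ∈ range (k + 1), ‖iteratedFDeriv ℝ (i + 2) q x‖) := by
  classical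
  set C0 : ℝ := 1 + 2 * (2 : ℝ) ^ (k + 1) * A with hC0
  have hC0p : 0 < C0 := by positivity
  refine ⟨(d : ℝ) ^ 3 * ((4 * A / b + 1) / b) * C0 + 1, by positivity, ?_⟩
  intro q h x hq hh hbd hpos
  set S1 : ℝ := ∑ a, ∑ c, ∑ e, ∑ e', ‖iteratedFDeriv ℝ (k + 1) (TL q h a c e e') x‖ with hS1
  set S2 : ℝ := ∑ i ∈ range (k + 1), ‖iteratedFDeriv ℝ (i + 2) q x‖ with hS2
  have hS1p : 0 ≤ S1 := sum_nonneg fun _ _ => sum_nonneg fun _ _ => sum_nonneg fun _ _ =>
    sum_nonneg fun _ _ => norm_nonneg _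
  have hS2p : 0 ≤ S2 := sum_nonneg fun _ _ => norm_nonneg _
  have hq2 : ∀ a c : Fin d, ContDiff ℝ ∞ (pd (be a) (pd (be c) q)) := fun a c =>
    pd_contDiff (pd_contDiff hq)
  have hh2 : ∀ a c : Fin d, ContDiff ℝ ∞ (pd (be a) (pd (be c) h)) := fun a c =>
    pd_contDiff (pd_contDiff hh)
  have n2 : ∀ (f : (EuclideanSpace ℝ (Fin d)) → ℝ), ContDiff ℝ ∞ f → ∀ (a c : Fin d) (i : ℕ),
      ‖iteratedFDeriv ℝ i (pd (be a) (pd (be c) f)) x‖ ≤ ‖iteratedFDeriv ℝ (i + 2) f x‖ := by
    intro f hf a c i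
    exact (norm_pd_le (by rw [norm_be]) (pd_contDiff hf) x).trans
      (norm_pd_le (by rw [norm_be]) hf x)
  -- the frozen product
  have fz : ∀ a c e e' : Fin d,
      ‖iteratedFDeriv ℝ (k + 1) (fun y => pd (be a) (pd (be c) q) y * pd (be e) (pd (be e') h) y) x
        - pd (be e) (pd (be e') h) x • iteratedFDeriv ℝ (k + 1) (pd (be a) (pd (be c) q)) x‖
      ≤ (2 : ℝ) ^ (k + 1) * A * S2 := by
    intro a c e e'
    refine (freeze (hq2 a c) (hh2 e e') x).trans ?_
    rw [hS2, mul_sum]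
    refine sum_le_sum fun i hi => ?_
    have hi' : i < k + 1 := mem_range.mp hi
    have h1 : ((k + 1).choose i : ℝ) ≤ 2 ^ (k + 1) := by
      exact_mod_cast Nat.choose_le_two_pow (k + 1) i
    have h2 := n2 q hq a c i
    have h3 : ‖iteratedFDeriv ℝ (k + 1 - i) (pd (be e) (pd (be e') h)) x‖ ≤ A :=
      (n2 h hh e e' _).trans (hbd _ (by omega))
    calc _ ≤ 2 ^ (k + 1) * ‖iteratedFDeriv ℝ (i + 2) q x‖ * A := by gcongr
      _ = _ := by ring
  -- the derivative of the trace free part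
  have tl : ∀ a c e e' : Fin d,
      ‖iteratedFDeriv ℝ (k + 1) (TL q h a c e e') x
        - (pd (be e) (pd (be e') h) x • iteratedFDeriv ℝ (k + 1) (pd (be a) (pd (be c) q)) x
          - pd (be a) (pd (be c) h) x • iteratedFDeriv ℝ (k + 1) (pd (be e) (pd (be e') q)) x)‖
      ≤ 2 * (2 : ℝ) ^ (k + 1) * A * S2 := by
    intro a c e e'
    have hk : (((k + 1 : ℕ) : ℕ∞) : WithTop ℕ∞) ≤ (∞ : WithTop ℕ∞) := by exact_mod_cast le_top
    have e0 : iteratedFDeriv ℝ (k + 1) (TL q h a c e e') x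
        = iteratedFDeriv ℝ (k + 1)
            (fun y => pd (be a) (pd (be c) q) y * pd (be e) (pd (be e') h) y) x
          - iteratedFDeriv ℝ (k + 1)
            (fun y => pd (be e) (pd (be e') q) y * pd (be a) (pd (be c) h) y) x := by
      have := iteratedFDeriv_sub (𝕜 := ℝ) (i := k + 1)
        (f := fun y => pd (be a) (pd (be c) q) y * pd (be e) (pd (be e') h) y)
        (g := fun y => pd (be e) (pd (be e') q) y * pd (be a) (pd (be c) h) y)
        (((hq2 a c).mul (hh2 e e')).of_le hk) (((hq2 e e').mul (hh2 a c)).of_le hk)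
      exact congrFun this x
    have f1 := fz a c e e'
    have f2 := fz e e' a c
    rw [e0]
    set X1 := iteratedFDeriv ℝ (k + 1)
      (fun y => pd (be a) (pd (be c) q) y * pd (be e) (pd (be e') h) y) x
    set X2 := iteratedFDeriv ℝ (k + 1)
      (fun y => pd (be e) (pd (be e') q) y * pd (be a) (pd (be c) h) y) x
    set Y1 := pd (be e) (pd (be e') h) x • iteratedFDeriv ℝ (k + 1) (pd (be a) (pd (be c) q)) x
    set Y2 := pd (be a) (pd (be c) h) x • iteratedFDeriv ℝ (k + 1) (pd (be e) (pd (be e') q)) x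
    have : X1 - X2 - (Y1 - Y2) = (X1 - Y1) - (X2 - Y2) := by abel
    rw [this]
    calc _ ≤ ‖X1 - Y1‖ + ‖X2 - Y2‖ := norm_sub_le _ _
      _ ≤ _ := by linarith
  have hle : ∀ a c e e' : Fin d, ‖iteratedFDeriv ℝ (k + 1) (TL q h a c e e') x‖ ≤ S1 := by
    intro a c e e'
    rw [hS1]
    calc _ ≤ ∑ e', ‖iteratedFDeriv ℝ (k + 1) (TL q h a c e e') x‖ :=
          single_le_sum (f := fun e' => ‖iteratedFDeriv ℝ (k + 1) (TL q h a c e e') x‖)
            (fun _ _ => norm_nonneg _) (mem_univ e')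
      _ ≤ ∑ e, ∑ e', ‖iteratedFDeriv ℝ (k + 1) (TL q h a c e e') x‖ :=
          single_le_sum (f := fun e => ∑ e', ‖iteratedFDeriv ℝ (k + 1) (TL q h a c e e') x‖)
            (fun _ _ => sum_nonneg fun _ _ => norm_nonneg _) (mem_univ e)
      _ ≤ ∑ c, ∑ e, ∑ e', ‖iteratedFDeriv ℝ (k + 1) (TL q h a c e e') x‖ :=
          single_le_sum (f := fun c => ∑ e, ∑ e',
            ‖iteratedFDeriv ℝ (k + 1) (TL q h a c e e') x‖)
            (fun _ _ => sum_nonneg fun _ _ => sum_nonneg fun _ _ => norm_nonneg _) (mem_univ c)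
      _ ≤ _ :=
          single_le_sum (f := fun a => ∑ c, ∑ e, ∑ e',
            ‖iteratedFDeriv ℝ (k + 1) (TL q h a c e e') x‖)
            (fun _ _ => sum_nonneg fun _ _ => sum_nonneg fun _ _ => sum_nonneg fun _ _ =>
              norm_nonneg _) (mem_univ a)
  -- the array `T` for fixed vectors `m`
  have hTT : ∀ (m : Fin k → EuclideanSpace ℝ (Fin d)) (g a c : Fin d),
      |TT q x m g a c| ≤ (4 * A / b + 1) * ((C0 * (S1 + S2)) * ∏ i, ‖m i‖) / b := by
    intro m g a c
    refine algebra hd (A := A) (η := (C0 * (S1 + S2)) * ∏ i, ‖m i‖) hb ?_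
      (fun i j => pd (be i) (pd (be j) h) x) ?_ hpos
      (fun g a c => TT q x m g a c) ?_ ?_ g a c
    · exact mul_nonneg (mul_nonneg hC0p.le (add_nonneg hS1p hS2p))
        (prod_nonneg fun _ _ => norm_nonneg _)
    · intro i j
      have h1 := n2 h hh i j 0
      rw [norm_iteratedFDeriv_zero, Real.norm_eq_abs] at h1
      exact h1.trans (hbd _ (by omega))
    · intro g a c
      simp only [TT]
      rw [pd_comm (pd_contDiff hq)]
    · intro g a c e e'
      have h1 := tl a c e e'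
      have h2 := ContinuousMultilinearMap.le_opNorm
        (iteratedFDeriv ℝ (k + 1) (TL q h a c e e') x
        - (pd (be e) (pd (be e') h) x • iteratedFDeriv ℝ (k + 1) (pd (be a) (pd (be c) q)) x
          - pd (be a) (pd (be c) h) x • iteratedFDeriv ℝ (k + 1) (pd (be e) (pd (be e') q)) x))
        (Fin.snoc m (be g))
      have h3 := ContinuousMultilinearMap.le_opNorm
        (iteratedFDeriv ℝ (k + 1) (TL q h a c e e') x) (Fin.snoc m (be g))
      have hp : ∏ i, ‖(Fin.snoc m (be g) : Fin (k + 1) → EuclideanSpace ℝ (Fin d)) i‖ = ∏ i, ‖m i‖ := by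
        rw [Fin.prod_univ_castSucc]
        simp only [Fin.snoc_castSucc, Fin.snoc_last, norm_be, mul_one]
      rw [hp] at h2 h3
      simp only [sub_apply, smul_apply,
        smul_eq_mul] at h2
      rw [TT_eq hq, TT_eq hq, Real.norm_eq_abs] at h2
      rw [Real.norm_eq_abs] at h3
      set P := ∏ i, ‖m i‖
      have hP : 0 ≤ P := prod_nonneg fun _ _ => norm_nonneg _
      set Z := iteratedFDeriv ℝ (k + 1) (TL q h a c e e') x (Fin.snoc m (be g))
      set W := pd (be e) (pd (be e') h) x * TT q x m g a c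
        - pd (be a) (pd (be c) h) x * TT q x m g e e'
      have h4 : |W| ≤ |Z| + |Z - W| := by
        calc |W| = |Z - (Z - W)| := by ring_nf
          _ ≤ _ := abs_sub _ _
      have h5 : TT q x m g a c * pd (be e) (pd (be e') h) x
          - TT q x m g e e' * pd (be a) (pd (be c) h) x = W := by simp only [W]; ring
      rw [h5]
      calc |W| ≤ |Z| + |Z - W| := h4
        _ ≤ S1 * P + (2 * (2 : ℝ) ^ (k + 1) * A * S2) * P := by
            gcongr
            · exact h3.trans (mul_le_mul_of_nonneg_right (hle a c e e') hP)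
            · exact h2.trans (mul_le_mul_of_nonneg_right h1 hP)
        _ ≤ (C0 * (S1 + S2)) * P := by
            rw [← add_mul]
            refine mul_le_mul_of_nonneg_right ?_ hP
            rw [hC0]
            have : 0 ≤ 2 * (2 : ℝ) ^ (k + 1) * A := by positivity
            nlinarith [mul_nonneg this hS1p, mul_nonneg this hS2p]
  -- from basis vectors to all vectors
  have hall : ‖iteratedFDeriv ℝ (k + 3) q x‖
      ≤ (d : ℝ) ^ 3 * ((4 * A / b + 1) * (C0 * (S1 + S2)) / b) := by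
    have hC0' : 0 ≤ C0 * (S1 + S2) := mul_nonneg hC0p.le (add_nonneg hS1p hS2p)
    have hB : 0 ≤ (4 * A / b + 1) * (C0 * (S1 + S2)) / b :=
      div_nonneg (mul_nonneg (by positivity) hC0') hb.le
    refine norm_le_of_TT hq x hB fun m g a c => ?_
    refine (hTT m g a c).trans (le_of_eq ?_)
    ring
  calc _ ≤ (d : ℝ) ^ 3 * ((4 * A / b + 1) * (C0 * (S1 + S2)) / b) := hall
    _ = ((d : ℝ) ^ 3 * ((4 * A / b + 1) / b) * C0) * (S1 + S2) := by ring
    _ ≤ _ := by
      refine mul_le_mul_of_nonneg_right ?_ (add_nonneg hS1p hS2p)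
      linarith

end Pool.Agent.AP4X
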