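import Pool.Agent.GNP.Defs
import Pool.Agent.GNP.TL

/-!
The trace free part, in terms of the Hessian operator and the phase `c Φ - s h`.
-/

namespace Pool.Agent.GNP

open MeasureTheory Set Pool.Agent.MP_6cbfb8_an Pool.Agent.AP4X
open scoped ENNReal Real RealInnerProductSpace ContDiff

theorem tlg_gr_inner {d : ℕ} (q : E d → ℝ) (y v : E d) : ⟪gr q y, v⟫ = fderiv ℝ q y v := by
  rw [gr, InnerProductSpace.toDual_symm_apply]

theorem tlg_gr_contDiff {d : ℕ} {q : E d → ℝ} (hq : ContDiff ℝ ∞ q) : ContDiff ℝ ∞ (gr q) := by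
  have h : ContDiff ℝ ∞ (fderiv ℝ q) := hq.fderiv_right (by simp)
  exact (InnerProductSpace.toDual ℝ (E d)).symm.contDiff.comp h

/-- The second directional derivatives are the entries of the Hessian operator. -/
theorem pd_pd_eq {d : ℕ} {f : E d → ℝ} (hf : ContDiff ℝ ∞ f) (v w y : E d) :
    pd v (pd w f) y = ⟪Hs f y v, w⟫ := by
  have h1 : pd w f = fun z => ⟪gr f z, w⟫ := by
    funext z
    rw [tlg_gr_inner]
    rfl
  have hd : DifferentiableAt ℝ (gr f) y :=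
    ((tlg_gr_contDiff hf).differentiable (by simp)).differentiableAt
  rw [pd, h1, fderiv_inner_apply ℝ hd (differentiableAt_const w)]
  simp [Hs]

/-- The Hessian form in coordinates. -/
theorem Hs_form_eq {d : ℕ} {f : E d → ℝ} (hf : ContDiff ℝ ∞ f) (y : E d) (v : Fin d → ℝ) :
    ⟪Hs f y (WithLp.toLp 2 v), (WithLp.toLp 2 v : E d)⟫
      = ∑ i, ∑ j, v i * v j * pd (be i) (pd (be j) f) y := by
  have hv : (WithLp.toLp 2 v : E d) = ∑ i, v i • be i := by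
    have h1 := (EuclideanSpace.basisFun (Fin d) ℝ).sum_repr (WithLp.toLp 2 v : E d)
    simp only [EuclideanSpace.basisFun_apply, EuclideanSpace.basisFun_repr] at h1
    exact h1.symm
  rw [hv, map_sum, sum_inner]
  refine Finset.sum_congr rfl fun i _ => ?_
  rw [inner_sum]
  refine Finset.sum_congr rfl fun j _ => ?_
  rw [map_smul, real_inner_smul_left, real_inner_smul_right, pd_pd_eq hf]
  ring

/-- The form hypothesis of `tl_bound`. -/
theorem form_of_Hs {d : ℕ} {f : E d → ℝ} (hf : ContDiff ℝ ∞ f) (y : E d) {b : ℝ}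
    (hb : ∀ v, b * ‖v‖ ^ 2 ≤ |⟪Hs f y v, v⟫|) (v : Fin d → ℝ) :
    b * ∑ i, v i ^ 2 ≤ |∑ i, ∑ j, v i * v j * pd (be i) (pd (be j) f) y| := by
  have h1 := hb (WithLp.toLp 2 v)
  rw [Hs_form_eq hf, EuclideanSpace.norm_sq_eq] at h1
  simpa using h1

theorem pd_ph {d : ℕ} {Φ h : E d → ℝ} (hΦ : ContDiff ℝ ∞ Φ) (hh : ContDiff ℝ ∞ h) (c s : ℝ)
    (v : E d) : pd v (ph Φ h c s) = ph (pd v Φ) (pd v h) c s := by
  funext y
  have h1 : DifferentiableAt ℝ Φ y := (hΦ.differentiable (by simp)).differentiableAt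
  have h2 : DifferentiableAt ℝ h y := (hh.differentiable (by simp)).differentiableAt
  have h3 : ph Φ h c s = fun z => c * Φ z - s * h z := rfl
  rw [pd, h3, fderiv_fun_sub (h1.const_mul c) (h2.const_mul s), fderiv_const_mul h1,
    fderiv_const_mul h2]
  rfl

theorem ph_contDiff {d : ℕ} {Φ h : E d → ℝ} (hΦ : ContDiff ℝ ∞ Φ) (hh : ContDiff ℝ ∞ h)
    (c s : ℝ) : ContDiff ℝ ∞ (ph Φ h c s) :=
  (contDiff_const.mul hΦ).sub (contDiff_const.mul hh)

/-- The trace free part of `c Φ - s h` relative to `h` does not depend on `s`. -/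
theorem TL_ph {d : ℕ} {Φ h : E d → ℝ} (hΦ : ContDiff ℝ ∞ Φ) (hh : ContDiff ℝ ∞ h) (c s : ℝ)
    (a b e e' : Fin d) : TL (ph Φ h c s) h a b e e' = fun y => c * TL Φ h a b e e' y := by
  funext y
  rw [TL, TL, pd_ph hΦ hh, pd_ph (pd_contDiff hΦ) (pd_contDiff hh), pd_ph hΦ hh,
    pd_ph (pd_contDiff hΦ) (pd_contDiff hh)]
  simp only [ph]
  ring

theorem abs_pd_pd_le {d : ℕ} {f : E d → ℝ} (hf : ContDiff ℝ ∞ f) (y : E d) (a b : Fin d) :
    |pd (be a) (pd (be b) f) y| ≤ ‖Hs f y‖ := by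
  rw [pd_pd_eq hf]
  refine (abs_real_inner_le_norm _ _).trans ?_
  rw [norm_be, mul_one]
  refine (ContinuousLinearMap.le_opNorm _ _).trans ?_
  rw [norm_be, mul_one]

/-- The trace free part is at most the Hessian. -/
theorem abs_TL_le {d : ℕ} {q h : E d → ℝ} (hq : ContDiff ℝ ∞ q) (hh : ContDiff ℝ ∞ h) (y : E d)
    (a b e e' : Fin d) : |TL q h a b e e' y| ≤ 2 * ‖iteratedFDeriv ℝ 2 h y‖ * ‖Hs q y‖ := by
  have n2 : ∀ a c : Fin d, |pd (be a) (pd (be c) h) y| ≤ ‖iteratedFDeriv ℝ 2 h y‖ := by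
    intro a c
    have h1 : ‖iteratedFDeriv ℝ 0 (pd (be a) (pd (be c) h)) y‖ ≤ ‖iteratedFDeriv ℝ 2 h y‖ :=
      (norm_pd_le (by rw [norm_be]) (pd_contDiff hh) y).trans (norm_pd_le (by rw [norm_be]) hh y)
    rwa [norm_iteratedFDeriv_zero, Real.norm_eq_abs] at h1
  have g1 := abs_pd_pd_le hq y a b
  have g2 := abs_pd_pd_le hq y e e'
  have g3 := n2 e e'
  have g4 := n2 a b
  rw [TL]
  refine (abs_sub _ _).trans ?_
  rw [abs_mul, abs_mul]
  have g5 := mul_le_mul g1 g3 (abs_nonneg _) (norm_nonneg _)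
  have g6 := mul_le_mul g2 g4 (abs_nonneg _) (norm_nonneg _)
  linarith

/-- The constants for the derivatives of the trace free part. -/
noncomputable def TLA (A : ℕ → ℝ) (j : ℕ) : ℝ :=
  2 * ∑ i ∈ Finset.range (j + 1), (j.choose i : ℝ) * A (i + 2) * A (j - i + 2)

theorem TL_Sm {d : ℕ} {A : ℕ → ℝ} {Φ h : E d → ℝ} (hΦ : Sm d A Φ) (hh : Sm d A h)
    (a b e e' : Fin d) : Sm d (TLA A) (TL Φ h a b e e') := by
  have hA : ∀ j, 0 ≤ A j := fun j => (norm_nonneg _).trans (hh.bd j 0)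
  have n2 : ∀ (f : E d → ℝ), Sm d A f → ∀ (a c : Fin d) (i : ℕ) (x : E d),
      ‖iteratedFDeriv ℝ i (pd (be a) (pd (be c) f)) x‖ ≤ A (i + 2) := by
    intro f hf a c i x
    exact ((norm_pd_le (by rw [norm_be]) (pd_contDiff hf.sm) x).trans
      (norm_pd_le (by rw [norm_be]) hf.sm x)).trans (hf.bd _ x)
  have c2 : ∀ (f : E d → ℝ), Sm d A f → ∀ (a c : Fin d), ContDiff ℝ ∞ (pd (be a) (pd (be c) f)) :=
    fun f hf a c => pd_contDiff (pd_contDiff hf.sm)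
  refine ⟨((c2 Φ hΦ a b).mul (c2 h hh e e')).sub ((c2 Φ hΦ e e').mul (c2 h hh a b)), ?_⟩
  intro j y
  have hj : ((j : ℕ∞) : WithTop ℕ∞) ≤ (∞ : WithTop ℕ∞) := by exact_mod_cast le_top
  have e0 : iteratedFDeriv ℝ j (TL Φ h a b e e') y
      = iteratedFDeriv ℝ j
          (fun y => pd (be a) (pd (be b) Φ) y * pd (be e) (pd (be e') h) y) y
        - iteratedFDeriv ℝ j
          (fun y => pd (be e) (pd (be e') Φ) y * pd (be a) (pd (be b) h) y) y := by
    have := iteratedFDeriv_sub (𝕜 := ℝ) (i := j)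
      (f := fun y => pd (be a) (pd (be b) Φ) y * pd (be e) (pd (be e') h) y)
      (g := fun y => pd (be e) (pd (be e') Φ) y * pd (be a) (pd (be b) h) y)
      (((c2 Φ hΦ a b).mul (c2 h hh e e')).of_le hj) (((c2 Φ hΦ e e').mul (c2 h hh a b)).of_le hj)
    exact congrFun this y
  have pr : ∀ a b e e' : Fin d, ‖iteratedFDeriv ℝ j
      (fun y => pd (be a) (pd (be b) Φ) y * pd (be e) (pd (be e') h) y) y‖
      ≤ ∑ i ∈ Finset.range (j + 1), (j.choose i : ℝ) * A (i + 2) * A (j - i + 2) := by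
    intro a b e e'
    refine (norm_iteratedFDeriv_mul_le (N := (j : ℕ∞)) ((c2 Φ hΦ a b).of_le hj)
      ((c2 h hh e e').of_le hj) y le_rfl).trans ?_
    refine Finset.sum_le_sum fun i _ => ?_
    have k1 := n2 Φ hΦ a b i y
    have k2 := n2 h hh e e' (j - i) y
    have k3 := hA (i + 2)
    gcongr
  rw [e0, TLA]
  refine (norm_sub_le _ _).trans ?_
  have := pr a b e e'
  have := pr e e' a b
  linarith

/-- The derivatives of order `k + 3` of a function, from those of the trace free part. -/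
theorem tl_Hs {d : ℕ} (hd : 2 ≤ d) (k : ℕ) {b : ℝ} (hb : 0 < b) {A : ℕ → ℝ} (hA : ∀ j, 0 ≤ A j) :
    ∃ C : ℝ, 0 < C ∧ ∀ (Φ h : E d → ℝ) (c s : ℝ) (x : E d), ContDiff ℝ ∞ Φ → Sm d A h →
      (∀ v, b * ‖v‖ ^ 2 ≤ |⟪Hs h x v, v⟫|) →
      ‖iteratedFDeriv ℝ (k + 3) (ph Φ h c s) x‖ ≤ C * ((∑ a, ∑ b, ∑ e, ∑ e',
        ‖iteratedFDeriv ℝ (k + 1) (fun y => c * TL Φ h a b e e' y) x‖)
        + ∑ i ∈ Finset.range (k + 1), ‖iteratedFDeriv ℝ (i + 2) (ph Φ h c s) x‖) := by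
  obtain ⟨C, hC, H⟩ := tl_bound (d := d) hd k hb
    (A := ∑ j ∈ Finset.range (k + 4), A j) (Finset.sum_nonneg fun j _ => hA j)
  refine ⟨C, hC, fun Φ h c s x hΦ hh hpos => ?_⟩
  have h1 := H (ph Φ h c s) h x (ph_contDiff hΦ hh.sm c s) hh.sm (fun j hj =>
    (hh.bd j x).trans (Finset.single_le_sum (f := A) (fun j _ => hA j)
      (Finset.mem_range.2 (by omega)))) (form_of_Hs hh.sm x hpos)
  simpa only [TL_ph hΦ hh.sm] using h1

end Pool.Agent.GNP
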