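import Pool.Agent.GNP.Defs4
import Pool.Agent.GNP.TLc
import Pool.Agent.GNP.TLg

/-!
The points where the Hessian is small compared with the higher derivatives.
-/

namespace Pool.Agent.GNP

open MeasureTheory Set Pool.Agent.MP_6cbfb8_an Pool.Agent.AP4X
open scoped ENNReal Real RealInnerProductSpace ContDiff

/-- The sizes of the derivatives at a point of level `k` (up to `m`). -/
theorem bad_lv {d J m k : ℕ} {κ r : ℝ} {q : E d → ℝ} {y : E d} (hκ : 1 ≤ κ)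
    (hy : y ∈ Fl J κ q r m k) (hk : 2 ^ (m + 3) * κ ≤ 2 ^ k) :
    (∀ j, 3 ≤ j → j ≤ J → ‖iteratedFDeriv ℝ j q y‖ ≤ ((2 : ℝ) ^ m) ^ J * (2 ^ k) ^ j) ∧
    ∃ j, 3 ≤ j ∧ j ≤ J ∧ (1 / (2 ^ (m + 2) * ((J : ℝ) + 1))) ^ J * (2 ^ k) ^ j ≤
      ‖iteratedFDeriv ℝ j q y‖ := by
  obtain ⟨-, hy1, hy2⟩ := hy
  set D : ℕ → ℝ := fun j => ‖iteratedFDeriv ℝ j q y‖ with hD
  have hD0 : ∀ j, 0 ≤ D j := fun j => norm_nonneg _
  set S : ℝ := ∑ j ∈ Finset.Icc 3 J, D j ^ ((j : ℝ)⁻¹) with hS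
  have hS0 : 0 ≤ S := Finset.sum_nonneg fun j _ => Real.rpow_nonneg (hD0 j) _
  have hX : Lm J κ q y = κ + S := rfl
  set X : ℝ := Lm J κ q y with hXdef
  have hX1 : 1 ≤ X := by linarith
  have hX0 : 0 < X := by linarith
  have hlog : 0 ≤ Real.logb 2 X := Real.logb_nonneg (by norm_num) hX1
  have hlv : lv J κ q y = ⌈Real.logb 2 X⌉₊ := rfl
  have hpow : ∀ j, 3 ≤ j → (D j ^ ((j : ℝ)⁻¹)) ^ j = D j := by
    intro j hj
    have : (j : ℝ) ≠ 0 := by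
      have : 0 < j := by omega
      exact_mod_cast this.ne'
    rw [← Real.rpow_natCast, ← Real.rpow_mul (hD0 j), inv_mul_cancel₀ this, Real.rpow_one]
  -- upper bound
  have hup : X ≤ 2 ^ m * 2 ^ k := by
    have h1 : Real.logb 2 X ≤ ((k + m : ℕ) : ℝ) := by
      refine (Nat.le_ceil _).trans ?_
      exact_mod_cast hy2
    rw [Real.logb_le_iff_le_rpow (by norm_num) hX0, Real.rpow_natCast, pow_add] at h1
    linarith
  -- lower bound
  have hlo : (2 : ℝ) ^ k < X * 2 ^ (m + 1) := by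
    have h1 : ((lv J κ q y : ℕ) : ℝ) < Real.logb 2 X + 1 := Nat.ceil_lt_add_one hlog
    have h2 : (k : ℝ) ≤ (lv J κ q y : ℝ) + m := by exact_mod_cast hy1
    have h3 : (k : ℝ) - (m + 1) < Real.logb 2 X := by linarith
    rw [Real.lt_logb_iff_rpow_lt (by norm_num) hX0, Real.rpow_sub (by norm_num),
      Real.rpow_natCast, div_lt_iff₀ (by positivity)] at h3
    have h4 : (2 : ℝ) ^ ((m : ℝ) + 1) = 2 ^ (m + 1) := by
      rw [← Real.rpow_natCast]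
      push_cast
      rfl
    rwa [h4] at h3
  have hsum : (2 : ℝ) ^ k < S * 2 ^ (m + 2) := by
    have h1 : (2 : ℝ) ^ (m + 3) * κ = 4 * (κ * 2 ^ (m + 1)) := by ring
    have h2 : X * 2 ^ (m + 1) = κ * 2 ^ (m + 1) + S * 2 ^ (m + 1) := by
      rw [hX]
      ring
    have h3 : S * 2 ^ (m + 2) = 2 * (S * 2 ^ (m + 1)) := by ring
    have h4 : 0 < (2 : ℝ) ^ k := by positivity
    rw [h1] at hk
    rw [h2] at hlo
    rw [h3]
    linarith
  constructor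
  · intro j hj hjJ
    have h1 : D j ^ ((j : ℝ)⁻¹) ≤ 2 ^ m * 2 ^ k := by
      have h2 : D j ^ ((j : ℝ)⁻¹) ≤ S := Finset.single_le_sum
        (f := fun j => D j ^ ((j : ℝ)⁻¹)) (fun j _ => Real.rpow_nonneg (hD0 j) _)
        (Finset.mem_Icc.2 ⟨hj, hjJ⟩)
      linarith
    have h2 : D j ≤ (2 ^ m * 2 ^ k) ^ j := by
      rw [← hpow j hj]
      exact pow_le_pow_left₀ (Real.rpow_nonneg (hD0 j) _) h1 j
    refine h2.trans ?_
    rw [mul_pow]
    have h3 : ((2 : ℝ) ^ m) ^ j ≤ ((2 : ℝ) ^ m) ^ J :=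
      pow_le_pow_right₀ (one_le_pow₀ (by norm_num)) hjJ
    gcongr
  · by_contra hcon
    push Not at hcon
    set θ : ℝ := 1 / (2 ^ (m + 2) * ((J : ℝ) + 1)) with hθ
    have hθ0 : 0 < θ := by positivity
    have hθ1 : θ ≤ 1 := by
      rw [hθ, div_le_one (by positivity)]
      have h1 : (1 : ℝ) ≤ 2 ^ (m + 2) := one_le_pow₀ (by norm_num)
      have h2 : (1 : ℝ) ≤ (J : ℝ) + 1 := by
        have : (0 : ℝ) ≤ J := Nat.cast_nonneg J
        linarith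
      nlinarith
    have h1 : ∀ j ∈ Finset.Icc 3 J, D j ^ ((j : ℝ)⁻¹) ≤ θ * 2 ^ k := by
      intro j hj
      rw [Finset.mem_Icc] at hj
      by_contra h2
      push Not at h2
      have h3 : (θ * 2 ^ k) ^ j < D j := by
        rw [← hpow j hj.1]
        exact pow_lt_pow_left₀ h2 (by positivity) (by omega)
      have h4 := hcon j hj.1 hj.2
      rw [mul_pow] at h3
      have h5 : θ ^ J ≤ θ ^ j := pow_le_pow_of_le_one hθ0.le hθ1 hj.2
      have h6 : θ ^ J * (2 ^ k) ^ j ≤ θ ^ j * (2 ^ k) ^ j := by gcongr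
      linarith
    have h2 : S ≤ J * (θ * 2 ^ k) := by
      refine (Finset.sum_le_card_nsmul _ _ _ h1).trans ?_
      rw [nsmul_eq_mul, Nat.card_Icc]
      have h3 : ((J + 1 - 3 : ℕ) : ℝ) ≤ J := by exact_mod_cast (by omega)
      gcongr
    have h3 : S * 2 ^ (m + 2) ≤ J * (θ * 2 ^ k) * 2 ^ (m + 2) := by gcongr
    have h4 : (J : ℝ) * (θ * 2 ^ k) * 2 ^ (m + 2) = (J / ((J : ℝ) + 1)) * 2 ^ k := by
      rw [hθ]
      field_simp
    have h5 : (J : ℝ) / ((J : ℝ) + 1) ≤ 1 := by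
      rw [div_le_one (by positivity)]
      linarith
    have h6 : (J : ℝ) / ((J : ℝ) + 1) * 2 ^ k ≤ 1 * 2 ^ k := by gcongr
    linarith

theorem bad (d J m : ℕ) (hd : 2 ≤ d) (A : ℕ → ℝ) (b r' ε : ℝ) (hb : 0 < b) (hr' : 0 < r')
    (hε : 0 < ε) : ∃ c1 C2 K κ1 : ℝ, 0 < c1 ∧ 0 < C2 ∧ 0 < K ∧ 1 ≤ κ1 ∧
    ∀ Φ h : E d → ℝ, Sm d A Φ → Sm d A h → Df d b r' h → ∀ c : ℝ,
      ∃ (e : E d → ℝ) (N : ℕ → Set (E d)), Measurable e ∧ (∀ k, MeasurableSet (N k)) ∧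
        (∀ y, ‖y‖ ≤ r' → ∀ s, e y ≤ C2 * ‖Hs (ph Φ h c s) y‖) ∧
        (∀ κ, κ1 ≤ κ → ∀ k s y, y ∈ Fl J κ (ph Φ h c s) r' m k → 2 ^ (m + 3) * κ ≤ 2 ^ k →
          ‖Hs (ph Φ h c s) y‖ ≤ c1 * (2 ^ k) ^ 3 → y ∈ N k) ∧
        ∀ (k : ℕ) (δ : ℝ), ((2 : ℝ) ^ k) ^ 2 ≤ δ → volume {y | ‖y‖ ≤ r' ∧ y ∈ N k ∧ e y ≤ δ} ≤
          ENNReal.ofReal (K * (1 + |c|) ^ ε * δ / (2 ^ k) ^ 3) := by
  classical
  set A' : ℕ → ℝ := fun j => |A j| with hA'
  have hA0 : ∀ j, 0 ≤ A' j := fun j => abs_nonneg _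
  -- the constants of `tl_Hs`
  have hex := fun k : ℕ => tl_Hs (d := d) hd k hb hA0
  choose Ck hCk htl using hex
  set J' : ℕ := J - 2 with hJ'
  set C : ℝ := ∑ k ∈ Finset.range J', Ck k + 1 with hC
  have hC0 : 0 < C := by
    have : 0 ≤ ∑ k ∈ Finset.range J', Ck k := Finset.sum_nonneg fun k _ => (hCk k).le
    linarith
  have hCkC : ∀ k, k + 1 ≤ J' → Ck k ≤ C := by
    intro k hk
    have : Ck k ≤ ∑ k ∈ Finset.range J', Ck k :=
      Finset.single_le_sum (f := Ck) (fun k _ => (hCk k).le) (Finset.mem_range.2 (by omega))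
    linarith
  set C' : ℝ := ((2 : ℝ) ^ m) ^ J with hC'
  have hC'1 : 1 ≤ C' := one_le_pow₀ (one_le_pow₀ (by norm_num))
  have hC'0 : 0 < C' := by linarith
  set cc : ℝ := (1 / (2 ^ (m + 2) * ((J : ℝ) + 1))) ^ J with hcc
  have hcc0 : 0 < cc := by positivity
  set c1 : ℝ := cc / (2 * C * C' * ((J' : ℝ) + 1)) with hc1
  have hc10 : 0 < c1 := by positivity
  set c0 : ℝ := cc / (2 * C * (Fintype.card (Fin d × Fin d × Fin d × Fin d) + 1)) with hc0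
  have hc00 : 0 < c0 := by positivity
  obtain ⟨K, hK, hvol⟩ := Nset_vol d J' (Fin d × Fin d × Fin d × Fin d) (TLA A') c0 r' ε hc00
    hr' hε
  set C2 : ℝ := (Fintype.card (Fin d × Fin d × Fin d × Fin d) : ℝ) * (2 * A' 2) + 1 with hC2
  have hC20 : 0 < C2 := by
    have := hA0 2
    positivity
  refine ⟨c1, C2, K, max 1 c1⁻¹, hc10, hC20, hK, le_max_left _ _, ?_⟩
  intro Φ h hΦ hh hdf c
  have hΦ' : Sm d A' Φ := ⟨hΦ.sm, fun j y => (hΦ.bd j y).trans (le_abs_self _)⟩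
  have hh' : Sm d A' h := ⟨hh.sm, fun j y => (hh.bd j y).trans (le_abs_self _)⟩
  set T : Fin d × Fin d × Fin d × Fin d → E d → ℝ :=
    fun i y => c * TL Φ h i.1 i.2.1 i.2.2.1 i.2.2.2 y with hT
  have hTs : ∀ i, ContDiff ℝ ∞ (T i) := fun i =>
    contDiff_const.mul (TL_Sm hΦ' hh' i.1 i.2.1 i.2.2.1 i.2.2.2).sm
  have hTb : ∀ i j, 1 ≤ j → ∀ y, ‖iteratedFDeriv ℝ j (T i) y‖ ≤ TLA A' j * (1 + |c|) := by
    intro i j _ y
    have h1 := TL_Sm hΦ' hh' i.1 i.2.1 i.2.2.1 i.2.2.2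
    have h2 : iteratedFDeriv ℝ j (T i) y =
        c • iteratedFDeriv ℝ j (TL Φ h i.1 i.2.1 i.2.2.1 i.2.2.2) y := by
      have h3 : T i = c • TL Φ h i.1 i.2.1 i.2.2.1 i.2.2.2 := rfl
      rw [h3]
      refine iteratedFDeriv_const_smul_apply (h1.sm.of_le ?_).contDiffAt
      exact_mod_cast le_top
    rw [h2, norm_smul, Real.norm_eq_abs, mul_comm]
    have h3 := h1.bd j y
    have h4 : 0 ≤ TLA A' j := (norm_nonneg _).trans h3
    have h5 := abs_nonneg c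
    have h6 : |c| ≤ 1 + |c| := by linarith
    exact mul_le_mul h3 h6 h5 h4
  refine ⟨fun y => ∑ i, |T i y|, fun k => Nset J' c0 r' ((2 : ℝ) ^ k)⁻¹ T, ?_, ?_, ?_, ?_, ?_⟩
  · exact (continuous_finsetSum _ fun i _ => (hTs i).continuous.abs).measurable
  · exact fun k => measurableSet_Nset _ _ _ _ _ hTs
  · -- the size of `e`
    intro y _ s
    have h1 : ∀ i : Fin d × Fin d × Fin d × Fin d,
        |T i y| ≤ 2 * A' 2 * ‖Hs (ph Φ h c s) y‖ := by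
      intro i
      have h2 : T i y = TL (ph Φ h c s) h i.1 i.2.1 i.2.2.1 i.2.2.2 y := by
        rw [TL_ph hΦ.sm hh.sm]
      rw [h2]
      refine (abs_TL_le (ph_contDiff hΦ.sm hh.sm c s) hh.sm y _ _ _ _).trans ?_
      have := hh'.bd 2 y
      gcongr
    refine (Finset.sum_le_card_nsmul _ _ _ fun i _ => h1 i).trans ?_
    rw [Finset.card_univ, nsmul_eq_mul, hC2]
    have := norm_nonneg (Hs (ph Φ h c s) y)
    nlinarith
  · -- membership
    intro κ hκ k s y hy hk hH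
    have hκ1 : 1 ≤ κ := (le_max_left _ _).trans hκ
    obtain ⟨hup, j, hj3, hjJ, hlo⟩ := bad_lv hκ1 hy hk
    have h2k : (0 : ℝ) < 2 ^ k := by positivity
    have h2k1 : (1 : ℝ) ≤ 2 ^ k := one_le_pow₀ (by norm_num)
    have hinv : ∀ (x : ℝ) (n : ℕ), x / (((2 : ℝ) ^ k)⁻¹) ^ n = x * (2 ^ k) ^ n := by
      intro x n
      rw [inv_pow, div_inv_eq_mul]
    refine Nset_mem (C := C) (C' := C') (c1 := c1) J' T (ph Φ h c s) y hcc0 hC0 hC'0
      (inv_pos.2 h2k) (inv_le_one_of_one_le₀ h2k1) ?_ hy.1 ?_ ?_ ?_ ?_ ?_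
    · have h1 : c1⁻¹ ≤ 2 ^ k := by
        have h3 : κ ≤ 2 ^ (m + 3) * κ := by
          have : (1 : ℝ) ≤ 2 ^ (m + 3) := one_le_pow₀ (by norm_num)
          nlinarith
        exact (le_max_right _ _).trans (hκ.trans (h3.trans hk))
      exact (inv_le_comm₀ hc10 h2k).1 h1
    · rw [hc1]
      refine le_of_eq ?_
      field_simp
    · intro k' hk'
      have h1 := htl k' Φ h c s y hΦ.sm hh' fun v => by
        have h3 := hdf y hy.1 v
        have h4 := neg_le_abs (⟪Hs h y v, v⟫ : ℝ)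
        linarith
      have h2 : ∑ i, ‖iteratedFDeriv ℝ (k' + 1) (T i) y‖ = ∑ a, ∑ b, ∑ e, ∑ e',
          ‖iteratedFDeriv ℝ (k' + 1) (fun y => c * TL Φ h a b e e' y) y‖ := by
        simp only [Fintype.sum_prod_type, hT]
      rw [h2]
      refine h1.trans ?_
      refine mul_le_mul_of_nonneg_right (hCkC k' hk') (add_nonneg ?_ ?_)
      · exact Finset.sum_nonneg fun _ _ => Finset.sum_nonneg fun _ _ =>
          Finset.sum_nonneg fun _ _ => Finset.sum_nonneg fun _ _ => norm_nonneg _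
      · exact Finset.sum_nonneg fun _ _ => norm_nonneg _
    · refine ⟨j - 3, by omega, ?_⟩
      rw [hinv, show j - 3 + 3 = j by omega]
      exact hlo
    · intro k' hk'
      rw [hinv]
      exact hup (k' + 3) (by omega) (by omega)
    · rw [hinv, ← norm_Hs_eq (ph_contDiff hΦ.sm hh.sm c s)]
      refine hH.trans ?_
      have : 0 ≤ c1 * (2 ^ k) ^ 3 := by positivity
      nlinarith
  · -- the measure
    intro k δ hδ
    have h2k : (0 : ℝ) < 2 ^ k := by positivity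
    have h2k1 : (1 : ℝ) ≤ 2 ^ k := one_le_pow₀ (by norm_num)
    have h1 := hvol T (1 + |c|) ((2 : ℝ) ^ k)⁻¹ δ (by linarith [abs_nonneg c]) (inv_pos.2 h2k)
      (inv_le_one_of_one_le₀ h2k1) (by rw [inv_pow, one_div, inv_inv]; exact hδ) hTs hTb
    refine (measure_mono fun y hy => ?_).trans (h1.trans (le_of_eq ?_))
    · exact ⟨hy.2.1, hy.2.2⟩
    · rw [inv_pow, div_eq_mul_inv]

end Pool.Agent.GNP
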