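import Pool.Agent.GNP.P0

/-!
Almost every phase, row P0, second part: more calculus of the gradient `gr` and of the Hessian `Hs`.
-/

namespace Pool.Agent.GNP

open MeasureTheory Set Pool.Agent.MP_6cbfb8_an
open scoped ENNReal Real RealInnerProductSpace ContDiff

theorem contDiff_fderiv {d : ℕ} {q : E d → ℝ} (hq : ContDiff ℝ ∞ q) :
    ContDiff ℝ ∞ (fderiv ℝ q) :=
  hq.fderiv_right (by exact le_rfl)

theorem gr_eq' {d : ℕ} (q : E d → ℝ) : gr q = P0J d ∘ fderiv ℝ q := rfl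

theorem contDiff_gr {d : ℕ} {q : E d → ℝ} (hq : ContDiff ℝ ∞ q) : ContDiff ℝ ∞ (gr q) := by
  rw [gr_eq']
  exact (P0J d).contDiff.comp (contDiff_fderiv hq)

theorem contDiff_Hs {d : ℕ} {q : E d → ℝ} (hq : ContDiff ℝ ∞ q) : ContDiff ℝ ∞ (Hs q) :=
  (contDiff_gr hq).fderiv_right (by exact le_rfl)

theorem continuous_gr {d : ℕ} {q : E d → ℝ} (hq : ContDiff ℝ ∞ q) : Continuous (gr q) :=
  (contDiff_gr hq).continuous

theorem continuous_Hs {d : ℕ} {q : E d → ℝ} (hq : ContDiff ℝ ∞ q) : Continuous (Hs q) :=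
  (contDiff_Hs hq).continuous

theorem continuous_det_Hs {d : ℕ} {q : E d → ℝ} (hq : ContDiff ℝ ∞ q) :
    Continuous fun y => (Hs q y).det :=
  ContinuousLinearMap.continuous_det.comp (continuous_Hs hq)

theorem norm_gr {d : ℕ} (q : E d → ℝ) (y : E d) : ‖gr q y‖ = ‖iteratedFDeriv ℝ 1 q y‖ := by
  rw [gr_eq, P0J_norm, norm_iteratedFDeriv_one]

/-- The derivatives of the gradient. -/
theorem norm_iteratedFDeriv_gr {d : ℕ} {q : E d → ℝ} (hq : ContDiff ℝ ∞ q) (j : ℕ) (y : E d) :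
    ‖iteratedFDeriv ℝ j (gr q) y‖ = ‖iteratedFDeriv ℝ (j + 1) q y‖ := by
  rw [gr_eq', LinearIsometry.norm_iteratedFDeriv_comp_left (P0J d)
    ((contDiff_fderiv hq).contDiffAt) (by exact_mod_cast le_top), norm_iteratedFDeriv_fderiv]

/-- The derivatives of the Hessian. -/
theorem norm_iteratedFDeriv_Hs {d : ℕ} {q : E d → ℝ} (hq : ContDiff ℝ ∞ q) (j : ℕ) (y : E d) :
    ‖iteratedFDeriv ℝ j (Hs q) y‖ = ‖iteratedFDeriv ℝ (j + 2) q y‖ := by
  have h1 : Hs q = fderiv ℝ (gr q) := rfl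
  rw [h1, norm_iteratedFDeriv_fderiv, norm_iteratedFDeriv_gr hq]

theorem norm_fderiv_Hs {d : ℕ} {q : E d → ℝ} (hq : ContDiff ℝ ∞ q) (y : E d) :
    ‖fderiv ℝ (Hs q) y‖ = ‖iteratedFDeriv ℝ 3 q y‖ := by
  rw [← norm_iteratedFDeriv_one, norm_iteratedFDeriv_Hs hq]

/-- Lipschitz bound of the Hessian on a convex set. -/
theorem Hs_lip_on {d : ℕ} {q : E d → ℝ} (hq : ContDiff ℝ ∞ q) {s : Set (E d)} (hs : Convex ℝ s)
    {B : ℝ} (hB : ∀ y ∈ s, ‖iteratedFDeriv ℝ 3 q y‖ ≤ B) {y z : E d} (hy : y ∈ s) (hz : z ∈ s) :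
    ‖Hs q y - Hs q z‖ ≤ B * ‖y - z‖ := by
  refine hs.norm_image_sub_le_of_norm_fderiv_le (𝕜 := ℝ) (f := Hs q)
    (fun x _ => (contDiff_Hs hq).differentiable (by simp) x) (fun x hx => ?_) hz hy
  rw [norm_fderiv_Hs hq]
  exact hB x hx

/-- Lipschitz bound of the gradient on a convex set. -/
theorem gr_lip_on {d : ℕ} {q : E d → ℝ} (hq : ContDiff ℝ ∞ q) {s : Set (E d)} (hs : Convex ℝ s)
    {B : ℝ} (hB : ∀ y ∈ s, ‖iteratedFDeriv ℝ 2 q y‖ ≤ B) {y z : E d} (hy : y ∈ s) (hz : z ∈ s) :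
    ‖gr q y - gr q z‖ ≤ B * ‖y - z‖ := by
  refine hs.norm_image_sub_le_of_norm_fderiv_le (𝕜 := ℝ) (f := gr q)
    (fun x _ => (contDiff_gr hq).differentiable (by simp) x) (fun x hx => ?_) hz hy
  exact (norm_Hs_le hq x).trans (hB x hx)

/-- `|∇q(y) - ∇q(z)| ≤ B |y - z|`. -/
theorem gr_lip {d : ℕ} {q : E d → ℝ} (hq : ContDiff ℝ ∞ q) (B : ℝ)
    (hB : ∀ y, ‖iteratedFDeriv ℝ 2 q y‖ ≤ B) (y z : E d) : ‖gr q y - gr q z‖ ≤ B * ‖y - z‖ :=
  gr_lip_on hq convex_univ (fun x _ => hB x) (mem_univ y) (mem_univ z)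

theorem iteratedFDeriv_ph {d : ℕ} {Φ h : E d → ℝ} (hΦ : ContDiff ℝ ∞ Φ) (hh : ContDiff ℝ ∞ h)
    (c s : ℝ) (j : ℕ) (y : E d) : iteratedFDeriv ℝ j (ph Φ h c s) y =
      c • iteratedFDeriv ℝ j Φ y - s • iteratedFDeriv ℝ j h y := by
  have h1 : ContDiff ℝ j Φ := hΦ.of_le (by exact_mod_cast le_top)
  have h2 : ContDiff ℝ j h := hh.of_le (by exact_mod_cast le_top)
  have h3 : ContDiff ℝ j (c • Φ) := h1.const_smul c
  have h4 : ContDiff ℝ j (-s • h) := h2.const_smul (-s)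
  have h5 := iteratedFDeriv_add_apply (𝕜 := ℝ) (i := j) (x := y) h3.contDiffAt h4.contDiffAt
  have h6 : ph Φ h c s = c • Φ - s • h := by
    funext y
    simp [ph]
  rw [h6, sub_eq_add_neg, ← neg_smul, h5, iteratedFDeriv_const_smul_apply h1.contDiffAt,
    iteratedFDeriv_const_smul_apply h2.contDiffAt, neg_smul, sub_eq_add_neg]

/-- `|det A| ≤ ‖A‖ ^ d`. -/
theorem abs_det_le {d : ℕ} (A : E d →L[ℝ] E d) : |A.det| ≤ ‖A‖ ^ d := by
  have h1 : volume (A '' Metric.closedBall (0 : E d) 1) =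
      ENNReal.ofReal |A.det| * volume (Metric.closedBall (0 : E d) 1) :=
    Measure.addHaar_image_continuousLinearMap volume A _
  have h2 : A '' Metric.closedBall (0 : E d) 1 ⊆ Metric.closedBall (0 : E d) ‖A‖ := by
    rintro _ ⟨x, hx, rfl⟩
    rw [mem_closedBall_zero_iff] at hx ⊢
    calc ‖A x‖ ≤ ‖A‖ * ‖x‖ := A.le_opNorm x
      _ ≤ ‖A‖ * 1 := by gcongr
      _ = ‖A‖ := mul_one _
  have h3 : volume (Metric.closedBall (0 : E d) ‖A‖) =
      ENNReal.ofReal (‖A‖ ^ d) * volume (Metric.closedBall (0 : E d) 1) := by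
    have h := Measure.addHaar_closedBall_mul (μ := (volume : Measure (E d))) 0 (norm_nonneg A) zero_le_one
    simpa using h
  have h4 := measure_mono (μ := (volume : Measure (E d))) h2
  rw [h1, h3] at h4
  have h5 : volume (Metric.closedBall (0 : E d) 1) ≠ 0 :=
    (Metric.measure_closedBall_pos volume 0 one_pos).ne'
  have h6 : volume (Metric.closedBall (0 : E d) 1) ≠ ⊤ := measure_closedBall_lt_top.ne
  have h7 := (ENNReal.mul_le_mul_iff_left h5 h6).mp h4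
  exact (ENNReal.ofReal_le_ofReal_iff (by positivity)).mp h7

/-- A phase with all derivatives of `Φ` and `h` bounded is an admissible phase for `R^2 ≥ |c|, |s|`. -/
theorem phq_ph {d : ℕ} {A : ℕ → ℝ} {Φ h : E d → ℝ} (hΦ : Sm d A Φ) (hh : Sm d A h) {c s R C : ℝ}
    (h1 : |c| + |s| ≤ C * R ^ 2) : Phq d (fun j => C * A j) R (ph Φ h c s) := by
  refine ⟨contDiff_ph hΦ.sm hh.sm c s, fun j _ y => (ph_bound hΦ.sm hh.sm c s j y).trans ?_⟩
  have h2 := hΦ.bd j y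
  have h3 := hh.bd j y
  have h4 : 0 ≤ A j := (norm_nonneg _).trans h2
  calc |c| * ‖iteratedFDeriv ℝ j Φ y‖ + |s| * ‖iteratedFDeriv ℝ j h y‖
      ≤ |c| * A j + |s| * A j := by gcongr
    _ = (|c| + |s|) * A j := by ring
    _ ≤ C * R ^ 2 * A j := by gcongr
    _ = C * A j * R ^ 2 := by ring

end Pool.Agent.GNP
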