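import Pool.Agent.GNP.Defs4
import Pool.Agent.GNP.P0
import Pool.Agent.GNP.P0x

/-!
Measurability in `(s, y)` of the levels and of the density of the bound.
-/

namespace Pool.Agent.GNP

open MeasureTheory Set Pool.Agent.MP_6cbfb8_an
open scoped ENNReal Real RealInnerProductSpace ContDiff

/-- The Hessian of `c Φ - s h` is continuous in `(s, y)`, also at the shifted slopes. -/
theorem mv_continuous_Hs {d : ℕ} {Φ h : E d → ℝ} (hΦ : ContDiff ℝ ∞ Φ) (hh : ContDiff ℝ ∞ h)
    (c t : ℝ) : Continuous fun z : ℝ × E d => Hs (ph Φ h c (z.1 + t)) z.2 := by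
  have h1 : (fun z : ℝ × E d => Hs (ph Φ h c (z.1 + t)) z.2) =
      fun z : ℝ × E d => c • Hs Φ z.2 - (z.1 + t) • Hs h z.2 := by
    funext z
    exact Hs_ph hΦ hh c (z.1 + t) z.2
  rw [h1]
  have h2 : Continuous fun z : ℝ × E d => Hs Φ z.2 := (continuous_Hs hΦ).comp continuous_snd
  have h3 : Continuous fun z : ℝ × E d => Hs h z.2 := (continuous_Hs hh).comp continuous_snd
  exact (h2.const_smul c).sub ((continuous_fst.add continuous_const).smul h3)

theorem measurable_Vv (d : ℕ) (Φ h : E d → ℝ) (hΦ : ContDiff ℝ ∞ Φ) (hh : ContDiff ℝ ∞ h)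
    (c R : ℝ) : Measurable fun z : ℝ × E d => Vv Φ h c z.1 R z.2 := by
  have h1 : Measurable fun z : ℝ × E d => Sd Φ h c z.1 R z.2 := by
    unfold Sd
    refine Finset.measurable_fun_sum _ fun j _ => ?_
    exact ((ContinuousLinearMap.continuous_det.comp
      (mv_continuous_Hs hΦ hh c (2 * j * R))).abs).measurable
  have h2 : Measurable fun z : ℝ × E d => AA (Mz (ph Φ h c z.1) R z.2) := by
    refine measurable_AA.comp ?_
    have h3 := mv_continuous_Hs hΦ hh c 0
    simp only [add_zero] at h3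
    exact (h3.const_smul ((R ^ 2)⁻¹)).measurable
  exact (measurable_const.div h1).div h2

theorem mv_measurable_Lm {d : ℕ} (J : ℕ) (κ : ℝ) {Φ h : E d → ℝ} (hΦ : ContDiff ℝ ∞ Φ)
    (hh : ContDiff ℝ ∞ h) (c : ℝ) :
    Measurable fun z : ℝ × E d => Lm J κ (ph Φ h c z.1) z.2 := by
  unfold Lm
  refine measurable_const.add (Finset.measurable_fun_sum _ fun j _ => ?_)
  refine Measurable.pow_const ?_ _
  have h1 : (fun z : ℝ × E d => ‖iteratedFDeriv ℝ j (ph Φ h c z.1) z.2‖) =
      fun z : ℝ × E d => ‖c • iteratedFDeriv ℝ j Φ z.2 - z.1 • iteratedFDeriv ℝ j h z.2‖ := by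
    funext z
    rw [iteratedFDeriv_ph hΦ hh]
  rw [h1]
  have h2 : Continuous fun z : ℝ × E d => iteratedFDeriv ℝ j Φ z.2 :=
    (hΦ.continuous_iteratedFDeriv (by exact_mod_cast le_top)).comp continuous_snd
  have h3 : Continuous fun z : ℝ × E d => iteratedFDeriv ℝ j h z.2 :=
    (hh.continuous_iteratedFDeriv (by exact_mod_cast le_top)).comp continuous_snd
  exact ((h2.const_smul c).sub (continuous_fst.smul h3)).norm.measurable

theorem measurableSet_lev (d J : ℕ) (κ : ℝ) (Φ h : E d → ℝ) (hΦ : ContDiff ℝ ∞ Φ)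
    (hh : ContDiff ℝ ∞ h) (c r : ℝ) (m k : ℕ) :
    MeasurableSet {z : ℝ × E d | z.2 ∈ Fl J κ (ph Φ h c z.1) r m k} := by
  have h1 : Measurable fun z : ℝ × E d => lv J κ (ph Φ h c z.1) z.2 := by
    unfold lv
    refine Nat.measurable_ceil.comp ?_
    unfold Real.logb
    exact (Real.measurable_log.comp (mv_measurable_Lm J κ hΦ hh c)).div_const _
  have h2 : MeasurableSet {z : ℝ × E d | ‖z.2‖ ≤ r} :=
    measurableSet_le measurable_snd.norm measurable_const
  have h3 : MeasurableSet {z : ℝ × E d | k ≤ lv J κ (ph Φ h c z.1) z.2 + m} :=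
    measurableSet_le measurable_const (h1.add_const m)
  have h4 : MeasurableSet {z : ℝ × E d | lv J κ (ph Φ h c z.1) z.2 ≤ k + m} :=
    measurableSet_le h1 measurable_const
  exact h2.inter (h3.inter h4)

end Pool.Agent.GNP
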