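import Pool.Agent.GNP.Defs4
import Pool.Agent.GNP.P0
import Pool.Agent.GNP.SH2

/-!
Condition (M) on a pencil: if one root is far from `s`, then at least `j` roots are.
-/

namespace Pool.Agent.GNP

open Module Pool.Agent.MP_6cbfb8_an
open scoped RealInnerProductSpace ContDiff

/-- Condition (M): on every subspace of dimension at least `d - j + 1` no operator of the pencil is
small compared with the distance of the pencil to zero. -/
def Mop (d j : ℕ) (η : ℝ) (P Q : E d →L[ℝ] E d) : Prop :=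
  ∀ (m : ℝ) (W : Submodule ℝ (E d)), d < Module.finrank ℝ W + j →
    ∃ w ∈ W, ‖w‖ = 1 ∧ ∃ m' : ℝ, η * ‖P + m' • Q‖ ≤ ‖(P + m • Q) w‖

/-- Condition (M) does not change when `P` is multiplied by a nonzero number. -/
theorem Mop.smul {d j : ℕ} {η : ℝ} {P Q : E d →L[ℝ] E d} (h : Mop d j η P Q) {c : ℝ} (hc : c ≠ 0) :
    Mop d j η (c • P) Q := by
  intro m W hW
  obtain ⟨w, hw, hw1, m', hm'⟩ := h (m / c) W hW
  refine ⟨w, hw, hw1, c * m', ?_⟩
  have e1 : ∀ x : ℝ, c • P + (c * x) • Q = c • (P + x • Q) := by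
    intro x
    rw [smul_add, smul_smul]
  have e2 : c • P + m • Q = c • (P + (m / c) • Q) := by
    rw [← e1, mul_div_cancel₀ _ hc]
  rw [e1, e2, norm_smul]
  change η * (‖c‖ * ‖P + m' • Q‖) ≤ ‖c • (P + (m / c) • Q) w‖
  rw [norm_smul]
  calc η * (‖c‖ * ‖P + m' • Q‖) = ‖c‖ * (η * ‖P + m' • Q‖) := by ring
    _ ≤ _ := mul_le_mul_of_nonneg_left hm' (norm_nonneg _)

/-- The pencil with `P = 0` satisfies condition (M). -/
theorem Mop.zero {d j : ℕ} (hj : j ≤ d) (η : ℝ) (Q : E d →L[ℝ] E d) : Mop d j η 0 Q := by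
  intro m W hW
  have hpos : 0 < Module.finrank ℝ W := by omega
  have : Nontrivial W := Module.nontrivial_of_finrank_pos hpos
  obtain ⟨w, hw⟩ := exists_norm_eq W (c := 1) zero_le_one
  refine ⟨w, w.2, by rw [← Submodule.coe_norm]; exact hw, 0, ?_⟩
  have e : (0 : E d →L[ℝ] E d) + (0 : ℝ) • Q = 0 := by
    ext1 v
    change (0 : E d) + (0 : ℝ) • Q v = 0
    rw [zero_smul, add_zero]
  rw [e, norm_zero, mul_zero]
  exact norm_nonneg _

/-- Condition (M) for `P` gives it for every multiple `c • P`. -/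
theorem Mop.smul' {d j : ℕ} {η : ℝ} {P Q : E d →L[ℝ] E d} (h : Mop d j η P Q) (hj : j ≤ d)
    (c : ℝ) : Mop d j η (c • P) Q := by
  rcases eq_or_ne c 0 with hc | hc
  · have e : (0 : ℝ) • P = 0 := by
      ext1 v
      change (0 : ℝ) • P v = 0
      exact zero_smul ℝ _
    rw [hc, e]
    exact Mop.zero hj η Q
  · exact h.smul hc

/-- If one root is far from `s` then at least `j` roots are. -/
theorem far_of_Mop {d j : ℕ} (hj : j ≤ d) (P Q : E d →L[ℝ] E d) {η b B : ℝ} (hη : 0 < η)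
    (hb : 0 < b) (hB : 0 ≤ B) (μ : Fin d → ℝ)
    (hI : ∀ I : Finset (Fin d), ∃ W : Submodule ℝ (E d), finrank ℝ W = I.card ∧
        ∀ s t : ℝ, 0 ≤ t → (∀ i ∈ I, |s - μ i| ≤ t) → ∀ w ∈ W,
          ‖(P + s • Q) w‖ ≤ B * t * ‖w‖)
    (hn : ∀ (s : ℝ) (i : Fin d), b * |s - μ i| ≤ ‖P + s • Q‖) (hM : Mop d j η P Q)
    (s T : ℝ) (hT : 0 < T) (hfar : ∃ i, T ≤ |s - μ i|) :
    ∃ I : Finset (Fin d), j ≤ I.card ∧
      ∀ i ∈ I, min (1 / 2) (η * b / (8 * (B + 1))) * T ≤ |s - μ i| := by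
  classical
  set c : ℝ := min (1 / 2) (η * b / (8 * (B + 1))) with hc
  have hc0 : 0 < c := lt_min (by norm_num) (by positivity)
  have hc1 : c ≤ 1 / 2 := min_le_left _ _
  have hc2 : c ≤ η * b / (8 * (B + 1)) := min_le_right _ _
  set F : Finset (Fin d) := Finset.univ.filter fun i => c * T ≤ |s - μ i| with hF
  refine ⟨F, ?_, fun i hi => (Finset.mem_filter.1 hi).2⟩
  by_contra hcon
  push Not at hcon
  set N : Finset (Fin d) := Finset.univ.filter fun i => ¬ (c * T ≤ |s - μ i|) with hN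
  have hcard : F.card + N.card = d := by
    have := Finset.card_filter_add_card_filter_not (s := (Finset.univ : Finset (Fin d)))
      (p := fun i => c * T ≤ |s - μ i|)
    rw [Finset.card_univ, Fintype.card_fin] at this
    exact this
  obtain ⟨W, hW, hWb⟩ := hI N
  obtain ⟨w, hw, hw1, m', hm'⟩ := hM s W (by rw [hW]; omega)
  have h1 : ‖(P + s • Q) w‖ ≤ B * (c * T) := by
    have := hWb s (c * T) (by positivity) (fun i hi => (not_le.1 (Finset.mem_filter.1 hi).2).le) w hw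
    rwa [hw1, mul_one] at this
  obtain ⟨i0, hi0⟩ := hfar
  have hNne : N.Nonempty := by
    rw [← Finset.card_pos]
    omega
  obtain ⟨i1, hi1⟩ := hNne
  have hi1' : |s - μ i1| < c * T := not_le.1 (Finset.mem_filter.1 hi1).2
  have h2 : (1 - c) * T ≤ |m' - μ i0| + |m' - μ i1| := by
    have e1 : |s - μ i0| ≤ |m' - μ i0| + |m' - μ i1| + |s - μ i1| := by
      have : s - μ i0 = (m' - μ i0) - (m' - μ i1) + (s - μ i1) := by ring
      rw [this]
      calc _ ≤ |(m' - μ i0) - (m' - μ i1)| + |s - μ i1| := abs_add_le _ _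
        _ ≤ (|m' - μ i0| + |m' - μ i1|) + |s - μ i1| := by
          gcongr
          exact abs_sub _ _
    linarith
  have h3 : b * ((1 - c) * T) ≤ 2 * ‖P + m' • Q‖ := by
    have e1 := hn m' i0
    have e2 := hn m' i1
    calc b * ((1 - c) * T) ≤ b * (|m' - μ i0| + |m' - μ i1|) :=
          mul_le_mul_of_nonneg_left h2 hb.le
      _ = b * |m' - μ i0| + b * |m' - μ i1| := by ring
      _ ≤ _ := by linarith
  have h4 : η * (b * ((1 - c) * T)) ≤ 2 * (B * (c * T)) := by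
    calc η * (b * ((1 - c) * T)) ≤ η * (2 * ‖P + m' • Q‖) := mul_le_mul_of_nonneg_left h3 hη.le
      _ = 2 * (η * ‖P + m' • Q‖) := by ring
      _ ≤ 2 * ‖(P + s • Q) w‖ := by linarith
      _ ≤ _ := by linarith
  have h5 : (B + 1) * c ≤ η * b / 8 := by
    have : c * (8 * (B + 1)) ≤ η * b := by
      rwa [le_div_iff₀ (by positivity)] at hc2
    linarith
  have hηb : 0 < η * b := mul_pos hη hb
  have h6 : η * b * (1 / 2) ≤ η * b * (1 - c) := mul_le_mul_of_nonneg_left (by linarith) hηb.le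
  have h7 : η * b * (1 / 2) * T ≤ 2 * (B * c) * T := by
    calc η * b * (1 / 2) * T ≤ η * b * (1 - c) * T := mul_le_mul_of_nonneg_right h6 hT.le
      _ = η * (b * ((1 - c) * T)) := by ring
      _ ≤ 2 * (B * (c * T)) := h4
      _ = _ := by ring
  have h8 : η * b * (1 / 2) ≤ 2 * (B * c) := le_of_mul_le_mul_right h7 hT
  nlinarith

/-- `V_le` together with the consequence of condition (M), for every `c`. -/
theorem V_leMc (d j : ℕ) (hd : 1 ≤ d) (hj : j ≤ d) (A : ℕ → ℝ) (r' b η : ℝ) (hb : 0 < b)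
    (hη : 0 < η) : ∃ C c1 : ℝ, 0 < C ∧ 0 < c1 ∧
    ∀ Φ h : E d → ℝ, Sm d A Φ → Sm d A h → Df d b r' h → ∀ y, ‖y‖ ≤ r' → ∀ c : ℝ,
      ∃ μ : Fin d → ℝ, (∀ s R : ℝ, 1 ≤ R →
        0 < Sd Φ h c s R y ∧
        Vv Φ h c s R y ≤ C * ∏ i, (√(1 + |s - μ i| / R ^ 2) / max 1 (|s - μ i| / R)) ∧
        ∃ i, ‖Hs (ph Φ h c s) y‖ ≤ C * |s - μ i|) ∧
      (Mop d j η (Hs Φ y) (-Hs h y) → ∀ s T : ℝ, 0 < T → (∃ i, T ≤ |s - μ i|) →
        ∃ I : Finset (Fin d), j ≤ I.card ∧ ∀ i ∈ I, c1 * T ≤ |s - μ i|) := by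
  set B : ℝ := |A 2| with hBdef
  have hB0 : 0 ≤ B := abs_nonneg _
  refine ⟨((2 * d + 1) / b * max 1 B) ^ d + B, min (1 / 2) (η * b / (8 * (B + 1))), by positivity,
    lt_min (by norm_num) (by positivity), ?_⟩
  intro Φ h hΦ hh hDf y hy c
  set P : E d →L[ℝ] E d := c • Hs Φ y with hP
  set Q : E d →L[ℝ] E d := -Hs h y with hQ
  have hPQ : ∀ s : ℝ, Hs (ph Φ h c s) y = P + s • Q := by
    intro s
    rw [Hs_ph hΦ.sm hh.sm, hP, hQ, smul_neg, sub_eq_add_neg]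
  have hPs : Sy P := by
    intro v w
    change ⟪c • Hs Φ y v, w⟫ = ⟪v, c • Hs Φ y w⟫
    rw [real_inner_smul_left, real_inner_smul_right, Hs_symm hΦ.sm]
  have hQs : Sy Q := by
    intro v w
    change ⟪-(Hs h y v), w⟫ = ⟪v, -(Hs h y w)⟫
    rw [inner_neg_left, inner_neg_right, Hs_symm hh.sm]
  have hpos : ∀ v, b * ‖v‖ ^ 2 ≤ ⟪Q v, v⟫ := by
    intro v
    change b * ‖v‖ ^ 2 ≤ ⟪-(Hs h y v), v⟫
    rw [inner_neg_left]
    linarith [hDf y hy v]
  have hQn : ‖Q‖ ≤ B := by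
    rw [hQ, norm_neg]
    exact (norm_Hs_le hh.sm y).trans ((hh.bd 2 y).trans (le_abs_self _))
  obtain ⟨μ, -, -, h3, -, -, h6, hI, hn⟩ := pencil_full d P Q hPs hQs b B hb hpos hQn
  have hSd : ∀ s R : ℝ, Sd Φ h c s R y =
      ∑ j ∈ Finset.range (d + 1), |(P + (s + j * 2 * R) • Q).det| := by
    intro s R
    unfold Sd
    refine Finset.sum_congr rfl fun j _ => ?_
    rw [hPQ, mul_comm (2 : ℝ) (j : ℝ)]
  refine ⟨μ, fun s R hR => ?_, fun hM s T hT hfar =>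
    far_of_Mop hj P Q hη hb hB0 μ hI hn (hM.smul' hj c) s T hT hfar⟩
  have hR0 : 0 < R := lt_of_lt_of_le one_pos hR
  have hSpos : 0 < Sd Φ h c s R y := by
    rw [hSd]
    exact DDr_pos P Q hPs hQs hb hpos s hR0
  refine ⟨hSpos, ?_, ?_⟩
  · have h7 := h6 s (1 / R) (Sd Φ h c s R y) (by positivity) (fun j hj => by
      have h8 := le_DDr P Q s R j hj
      rw [← hSd] at h8
      have e : s + 2 * (j : ℝ) / (1 / R) = s + 2 * j * R := by
        rw [div_div_eq_mul_div, div_one]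
      rw [e]
      exact h8)
    have e1 : ((1 / R) ^ d * Sd Φ h c s R y)⁻¹ = R ^ d * (Sd Φ h c s R y)⁻¹ := by
      rw [mul_inv, one_div, inv_pow, inv_inv]
    have e2 : (1 / R) ^ 2 = (R ^ 2)⁻¹ := by rw [one_div, inv_pow]
    have e3 : ∀ i, fr (1 / R) |s - μ i|
        = √(1 + |s - μ i| / R ^ 2) / max 1 (|s - μ i| / R) := by
      intro i
      unfold fr
      rw [e2, inv_mul_eq_div, one_div_mul_eq_div]
    simp only [e3] at h7
    rw [e1, e2] at h7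
    have e4 : Vv Φ h c s R y = R ^ d * (Sd Φ h c s R y)⁻¹ * (AA ((R ^ 2)⁻¹ • (P + s • Q)))⁻¹ := by
      unfold Vv Mz
      rw [hPQ, div_eq_mul_inv, div_eq_mul_inv]
    rw [e4]
    refine h7.trans (mul_le_mul_of_nonneg_right (by linarith) ?_)
    exact Finset.prod_nonneg fun i _ => by positivity
  · have : Nonempty (Fin d) := ⟨⟨0, hd⟩⟩
    obtain ⟨i, hi⟩ := Finite.exists_max (fun i => |s - μ i|)
    refine ⟨i, ?_⟩
    rw [hPQ]
    refine (h3 s _ (abs_nonneg _) hi).trans (mul_le_mul_of_nonneg_right ?_ (abs_nonneg _))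
    have : 0 ≤ ((2 * d + 1) / b * max 1 B) ^ d := by positivity
    linarith

/-- `V_leMc` with the hypothesis `c ≠ 0` in front of the last clause. -/
theorem V_leM (d j : ℕ) (hd : 1 ≤ d) (hj : j ≤ d) (A : ℕ → ℝ) (r' b η : ℝ) (hb : 0 < b)
    (hη : 0 < η) : ∃ C c1 : ℝ, 0 < C ∧ 0 < c1 ∧
    ∀ Φ h : E d → ℝ, Sm d A Φ → Sm d A h → Df d b r' h → ∀ y, ‖y‖ ≤ r' → ∀ c : ℝ,
      ∃ μ : Fin d → ℝ, (∀ s R : ℝ, 1 ≤ R →
        0 < Sd Φ h c s R y ∧
        Vv Φ h c s R y ≤ C * ∏ i, (√(1 + |s - μ i| / R ^ 2) / max 1 (|s - μ i| / R)) ∧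
        ∃ i, ‖Hs (ph Φ h c s) y‖ ≤ C * |s - μ i|) ∧
      (c ≠ 0 → Mop d j η (Hs Φ y) (-Hs h y) → ∀ s T : ℝ, 0 < T → (∃ i, T ≤ |s - μ i|) →
        ∃ I : Finset (Fin d), j ≤ I.card ∧ ∀ i ∈ I, c1 * T ≤ |s - μ i|) := by
  obtain ⟨C, c1, hC, hc1, H⟩ := V_leMc d j hd hj A r' b η hb hη
  refine ⟨C, c1, hC, hc1, fun Φ h hΦ hh hD y hy c => ?_⟩
  obtain ⟨μ, h1, h2⟩ := H Φ h hΦ hh hD y hy c
  exact ⟨μ, h1, fun _ => h2⟩

end Pool.Agent.GNP
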