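import Pool.Agent.GNP.AS2j
import Pool.Agent.GNP.VLeM
import Pool.Agent.GNP.MV
import Pool.Agent.GNP.BAD

/-!
The sum over the levels, integrated in `s`, under condition (M); no amplitude.
-/

namespace Pool.Agent.GNP

open MeasureTheory Set Pool.Agent.MP_6cbfb8_an
open scoped ENNReal Real RealInnerProductSpace ContDiff

theorem ls_fr (r t : ℝ) (R : ℝ) (hR : r = R⁻¹) :
    √(1 + t / R ^ 2) / max 1 (t / R) = fr r t := by
  subst hR
  unfold fr
  congr 2
  · rw [inv_pow]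
    ring_nf
  · rw [inv_mul_eq_div]

theorem ls_Vv_nonneg {d : ℕ} (Φ h : E d → ℝ) (c s R : ℝ) (hR : 0 ≤ R) (y : E d) :
    0 ≤ Vv Φ h c s R y := by
  unfold Vv Sd
  exact div_nonneg (div_nonneg (pow_nonneg hR d) (Finset.sum_nonneg fun _ _ => abs_nonneg _))
    (AA_nonneg _)

theorem ls_meas_Fl {d : ℕ} (J : ℕ) (κ : ℝ) (Φ h : E d → ℝ) (hΦ : ContDiff ℝ ∞ Φ)
    (hh : ContDiff ℝ ∞ h) (c s r : ℝ) (m k : ℕ) :
    MeasurableSet (Fl J κ (ph Φ h c s) r m k) :=
  measurable_prodMk_left (x := s) (measurableSet_lev d J κ Φ h hΦ hh c r m k)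

/-- For `j = 1` condition (M) is empty. -/
theorem Mop_one {d : ℕ} (hd : 1 ≤ d) (P Q : E d →L[ℝ] E d) : Mop d 1 1 P Q := by
  intro m W hW
  have hWt : W = ⊤ := by
    apply Submodule.eq_top_of_finrank_eq
    have h1 := Submodule.finrank_le W
    have h2 : Module.finrank ℝ (E d) = d := by simp
    omega
  subst hWt
  have : Nonempty (Fin d) := ⟨⟨0, hd⟩⟩
  have hcomp : IsCompact (Metric.sphere (0 : E d) 1) := isCompact_sphere 0 1
  have hne : (Metric.sphere (0 : E d) 1).Nonempty := by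
    have : Nontrivial (E d) := by
      apply Module.nontrivial_of_finrank_pos (R := ℝ)
      simp
      omega
    exact NormedSpace.sphere_nonempty.2 zero_le_one
  obtain ⟨w, hw, hmax⟩ := hcomp.exists_isMaxOn hne
    (f := fun w => ‖(P + m • Q) w‖) (by fun_prop)
  have hw1 : ‖w‖ = 1 := by simpa using hw
  refine ⟨w, Submodule.mem_top, hw1, m, ?_⟩
  rw [one_mul]
  refine ContinuousLinearMap.opNorm_le_bound _ (norm_nonneg _) fun v => ?_
  rcases eq_or_ne v 0 with hv | hv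
  · rw [hv, map_zero, norm_zero, mul_zero]
  · have hv0 : 0 < ‖v‖ := norm_pos_iff.2 hv
    have h1 := hmax (show ‖v‖⁻¹ • v ∈ Metric.sphere (0 : E d) 1 by
      rw [mem_sphere_zero_iff_norm, norm_smul, norm_inv, norm_norm, inv_mul_cancel₀ hv0.ne'])
    have h2 : ‖(P + m • Q) (‖v‖⁻¹ • v)‖ = ‖v‖⁻¹ * ‖(P + m • Q) v‖ := by
      rw [map_smul, norm_smul, norm_inv, norm_norm]
    have h3 : ‖v‖⁻¹ * ‖(P + m • Q) v‖ ≤ ‖(P + m • Q) w‖ := by
      rw [← h2]
      exact h1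
    rwa [inv_mul_le_iff₀ hv0, mul_comm] at h3

/-- The sum over the levels. -/
theorem lev_sum_M (d j J m : ℕ) (hd : 2 ≤ d) (hj : 1 ≤ j) (hjd : 2 * j ≤ d) (A : ℕ → ℝ)
    (r' b η α ε : ℝ) (hr' : 0 < r') (hb : 0 < b) (hη : 0 < η) (hα : 2 / (d : ℝ) < α)
    (hα2 : j * α < 2) (hα3 : 2 / 3 ≤ j * α) (hε : 0 < ε) :
    ∃ K : ℝ, 0 < K ∧ ∀ (Φ h : E d → ℝ), Sm d A Φ → Sm d A h → Df d b r' h →
      (∀ y, ‖y‖ ≤ r' → Mop d j η (Hs Φ y) (-Hs h y)) → ∀ c : ℝ, K ≤ |c| →
      ∀ (n : ℕ) (S0 : Set ℝ), MeasurableSet S0 →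
      ∫⁻ s in S0, ∑ k ∈ Finset.range n, ∫⁻ y in Fl J ((1 + |c|) ^ ε) (ph Φ h c s) r' m k,
        ENNReal.ofReal (Vv Φ h c s (2 ^ k) y ^ α) ≤ ENNReal.ofReal (K * (n * (1 + |c|) ^ ε)) := by
  obtain ⟨Cv, cM, hCv, hcM, hV⟩ := V_leMc d j (by omega) (by omega) A r' b η hb hη
  obtain ⟨c1, C2, Kb, κ1, hc1, hC2, hKb, hκ1, hbad⟩ := bad d J m hd A b r' ε hb hr' hε
  obtain ⟨Ka, hKa, habs⟩ := as2_abs_j d j hj hjd α hα hα2 hα3 (cM * c1 / Cv) (C2 * Cv / cM) Cv
    (by positivity) (by positivity) hCv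
  set V : ℝ := (volume (Metric.closedBall (0 : E d) r')).toReal with hVd
  have hV0 : 0 ≤ V := ENNReal.toReal_nonneg
  have hVe : volume (Metric.closedBall (0 : E d) r') = ENNReal.ofReal V :=
    (ENNReal.ofReal_toReal measure_closedBall_lt_top.ne).symm
  set P0 : ℝ := Cv / (cM * c1) with hP0
  have hP00 : 0 < P0 := by positivity
  set K : ℝ := max (κ1 ^ (1 / ε)) (Ka * ((2 ^ (m + 3) + P0) * V + V + Kb)) with hK
  have hKpos : 0 < K := lt_of_lt_of_le (by positivity) (le_max_left _ _)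
  refine ⟨K, hKpos, ?_⟩
  intro Φ h hΦ hh hdef hM c hc n S0 hS0
  set κ : ℝ := (1 + |c|) ^ ε with hκ
  have hc0 : 1 ≤ 1 + |c| := by linarith [abs_nonneg c]
  have hκone : 1 ≤ κ := Real.one_le_rpow hc0 hε.le
  have hκ' : κ1 ≤ κ := by
    have h1 : κ1 ^ (1 / ε) ≤ 1 + |c| := by
      have : κ1 ^ (1 / ε) ≤ K := le_max_left _ _
      linarith
    calc κ1 = (κ1 ^ (1 / ε)) ^ ε := by
          rw [← Real.rpow_mul (by linarith), one_div, inv_mul_cancel₀ hε.ne', Real.rpow_one]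
      _ ≤ κ := Real.rpow_le_rpow (by positivity) h1 hε.le
  rcases Nat.eq_zero_or_pos n with hn0 | hnpos
  · subst hn0
    simp
  obtain ⟨e, N, hem, hNm, he1, hN1, hN2⟩ := hbad Φ h hΦ hh hdef c
  -- the roots
  have hroot : ∀ y : E d, ∃ μ : Fin d → ℝ, ‖y‖ ≤ r' → (∀ s R : ℝ, 1 ≤ R →
      0 < Sd Φ h c s R y ∧
      Vv Φ h c s R y ≤ Cv * ∏ i, (√(1 + |s - μ i| / R ^ 2) / max 1 (|s - μ i| / R)) ∧
      ∃ i, ‖Hs (ph Φ h c s) y‖ ≤ Cv * |s - μ i|) ∧
      ∀ s T : ℝ, 0 < T → (∃ i, T ≤ |s - μ i|) →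
        ∃ I : Finset (Fin d), j ≤ I.card ∧ ∀ i ∈ I, cM * T ≤ |s - μ i| := by
    intro y
    by_cases hy : ‖y‖ ≤ r'
    · obtain ⟨μ, hμ, hμ2⟩ := hV Φ h hΦ hh hdef y hy c
      exact ⟨μ, fun _ => ⟨hμ, hμ2 (hM y hy)⟩⟩
    · exact ⟨0, fun h => absurd h hy⟩
  choose ρ hρ using hroot
  have hpow : ∀ k : ℕ, (1 : ℝ) ≤ 2 ^ k := fun k => one_le_pow₀ (by norm_num)
  have hmain := habs (volume.restrict (Metric.closedBall (0 : E d) r'))
    (fun s => ∑ k ∈ Finset.range n, ∫⁻ y in Fl J κ (ph Φ h c s) r' m k,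
        ENNReal.ofReal (Vv Φ h c s (2 ^ k) y ^ α)) S0 (n - 1)
    1 (2 ^ (m + 3) * κ + P0) (Kb * κ)
    (fun k => {z : ℝ × E d | z.2 ∈ Fl J κ (ph Φ h c z.1) r' m k})
    (fun k z => Vv Φ h c z.1 (2 ^ k) z.2) ρ N e
    hS0 (by positivity) hem
    (fun k _ => measurableSet_lev d J κ Φ h hΦ.sm hh.sm c r' m k)
    (fun k _ => measurable_Vv d Φ h hΦ.sm hh.sm c (2 ^ k)) ?_ ?_ ?_
  · -- the conclusion
    refine hmain.trans ?_
    rw [Measure.restrict_apply_univ, hVe, one_mul]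
    have hn2 : (((n - 1 : ℕ) : ℝ≥0∞) + 1) = ENNReal.ofReal (n : ℝ) := by
      rw [ENNReal.ofReal_natCast]
      have : n = (n - 1) + 1 := by omega
      nth_rewrite 2 [this]
      push_cast
      rfl
    rw [hn2, ← ENNReal.ofReal_mul (by positivity), ← ENNReal.ofReal_add (by positivity) hV0,
      ← ENNReal.ofReal_add (by positivity) (by positivity), ← ENNReal.ofReal_mul (by positivity),
      ← ENNReal.ofReal_mul (by positivity)]
    refine ENNReal.ofReal_le_ofReal ?_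
    have h4 : (2 ^ (m + 3) * κ + P0) * V + V + Kb * κ ≤
        ((2 ^ (m + 3) + P0) * V + V + Kb) * κ := by
      nlinarith [mul_nonneg hP00.le hV0, mul_nonneg (mul_nonneg hP00.le hV0) (sub_nonneg.2 hκone),
        mul_nonneg hV0 (sub_nonneg.2 hκone)]
    calc (n : ℝ) * (Ka * ((2 ^ (m + 3) * κ + P0) * V + V + Kb * κ))
        ≤ (n : ℝ) * (Ka * (((2 ^ (m + 3) + P0) * V + V + Kb) * κ)) := by
          gcongr
      _ = (Ka * ((2 ^ (m + 3) + P0) * V + V + Kb)) * (n * κ) := by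
          ring
      _ ≤ K * (n * κ) := by
          gcongr
          exact le_max_right _ _
  · -- fixed `s`
    intro s _
    rw [one_mul, show n - 1 + 1 = n by omega]
    refine Finset.sum_le_sum fun k _ => le_of_eq ?_
    have hFm : MeasurableSet (Fl J κ (ph Φ h c s) r' m k) :=
      ls_meas_Fl J κ Φ h hΦ.sm hh.sm c s r' m k
    have h1 : ∀ y, ({z : ℝ × E d | z.2 ∈ Fl J κ (ph Φ h c z.1) r' m k}).indicator
        (fun z => ENNReal.ofReal (Vv Φ h c z.1 (2 ^ k) z.2 ^ α)) (s, y) =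
        (Fl J κ (ph Φ h c s) r' m k).indicator
          (fun y => ENNReal.ofReal (Vv Φ h c s (2 ^ k) y ^ α)) y := by
      intro y
      by_cases hy : y ∈ Fl J κ (ph Φ h c s) r' m k
      · rw [indicator_of_mem hy, indicator_of_mem (show (s, y) ∈
          {z : ℝ × E d | z.2 ∈ Fl J κ (ph Φ h c z.1) r' m k} from hy)]
      · rw [indicator_of_notMem hy, indicator_of_notMem (show (s, y) ∉
          {z : ℝ × E d | z.2 ∈ Fl J κ (ph Φ h c z.1) r' m k} from hy)]
    simp_rw [h1]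
    rw [lintegral_indicator hFm, Measure.restrict_restrict hFm]
    congr 2
    refine (inter_eq_self_of_subset_left fun y hy => ?_).symm
    exact mem_closedBall_zero_iff.2 hy.1
  · -- the density
    intro k _ s y hy
    have hy' : ‖y‖ ≤ r' := hy.1
    refine ⟨ls_Vv_nonneg Φ h c s _ (by positivity) y, ?_⟩
    have h1 := ((hρ y hy').1 s (2 ^ k) (hpow k)).2.1
    refine h1.trans (le_of_eq ?_)
    congr 1
    exact Finset.prod_congr rfl fun i _ => ls_fr _ _ _ rfl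
  · -- the levels
    intro k _
    rcases le_or_gt ((2 : ℝ) ^ k) (2 ^ (m + 3) * κ + P0) with hP | hP
    · exact Or.inl hP
    · refine Or.inr ⟨?_, hNm k, ?_, ?_, ?_⟩
      · have h1 : P0 ≤ 2 ^ k := by
          have : 0 ≤ 2 ^ (m + 3) * κ := by positivity
          linarith
        rw [inv_le_comm₀ (by positivity) (by positivity), inv_div]
        exact h1
      · intro s y hy hnot
        have hy' : ‖y‖ ≤ r' := hy.1
        obtain ⟨i, hi⟩ := ((hρ y hy').1 s (2 ^ k) (hpow k)).2.2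
        refine hN1 κ hκ' k s y hy ?_ ?_
        · linarith
        · -- all roots are near, otherwise `j` of them are far
          have hnear : |s - ρ y i| ≤ c1 / Cv * (2 ^ k) ^ 3 := by
            by_contra hcon
            push Not at hcon
            apply hnot
            obtain ⟨I, hI, hI2⟩ := (hρ y hy').2 s (c1 / Cv * (2 ^ k) ^ 3) (by positivity)
              ⟨i, hcon.le⟩
            refine ⟨I, hI, fun l hl => le_trans (le_of_eq ?_) (hI2 l hl)⟩
            rw [inv_pow, div_inv_eq_mul]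
            ring
          refine hi.trans ?_
          calc Cv * |s - ρ y i| ≤ Cv * (c1 / Cv * (2 ^ k) ^ 3) := by gcongr
            _ = c1 * (2 ^ k) ^ 3 := by field_simp
      · intro s y hy
        have hy' : ‖y‖ ≤ r' := hy.1
        obtain ⟨i, hi⟩ := ((hρ y hy').1 s (2 ^ k) (hpow k)).2.2
        have he2 : e y ≤ C2 * Cv * |s - ρ y i| := by
          refine (he1 y hy' s).trans ?_
          rw [mul_assoc]
          gcongr
        rcases (abs_nonneg (s - ρ y i)).eq_or_lt with h0 | h0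
        · -- all roots coincide with `s`
          rw [← h0, mul_zero] at he2
          refine ⟨Finset.univ, by simp; omega, fun l _ => he2.trans (by positivity)⟩
        · obtain ⟨I, hI, hI2⟩ := (hρ y hy').2 s (|s - ρ y i|) h0 ⟨i, le_rfl⟩
          refine ⟨I, hI, fun l hl => he2.trans ?_⟩
          have h5 := hI2 l hl
          have h6 : C2 * Cv / cM * (cM * |s - ρ y i|) = C2 * Cv * |s - ρ y i| := by
            field_simp
          rw [← h6]
          gcongr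
      · intro δ hδ
        have hδ' : ((2 : ℝ) ^ k) ^ 2 ≤ δ := by
          rw [inv_pow, one_div, inv_inv] at hδ
          exact hδ
        have hset : MeasurableSet {y | y ∈ N k ∧ e y ≤ δ} :=
          (hNm k).inter (measurableSet_le hem measurable_const)
        rw [Measure.restrict_apply hset]
        refine (measure_mono ?_).trans ((hN2 k δ hδ').trans (le_of_eq ?_))
        · rintro y ⟨⟨h1, h2⟩, h3⟩
          exact ⟨mem_closedBall_zero_iff.1 h3, h1, h2⟩
        · congr 1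
          rw [inv_pow, ← hκ]
          field_simp

/-- The sum over the levels, without condition (M). -/
theorem lev_sum (d J m : ℕ) (hd : 2 ≤ d) (A : ℕ → ℝ)
    (r' b α ε : ℝ) (hr' : 0 < r') (hb : 0 < b) (hα : 2 / (d : ℝ) < α)
    (hα2 : α < 2) (hα3 : 2 / 3 ≤ α) (hε : 0 < ε) :
    ∃ K : ℝ, 0 < K ∧ ∀ (Φ h : E d → ℝ), Sm d A Φ → Sm d A h → Df d b r' h →
      ∀ c : ℝ, K ≤ |c| → ∀ (n : ℕ) (S0 : Set ℝ), MeasurableSet S0 →
      ∫⁻ s in S0, ∑ k ∈ Finset.range n, ∫⁻ y in Fl J ((1 + |c|) ^ ε) (ph Φ h c s) r' m k,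
        ENNReal.ofReal (Vv Φ h c s (2 ^ k) y ^ α) ≤ ENNReal.ofReal (K * (n * (1 + |c|) ^ ε)) := by
  obtain ⟨K, hK, H⟩ := lev_sum_M d 1 J m hd le_rfl (by omega) A r' b 1 α ε hr' hb one_pos hα
    (by simpa using hα2) (by simpa using hα3) hε
  exact ⟨K, hK, fun Φ h hΦ hh hdef => H Φ h hΦ hh hdef fun y _ => Mop_one (by omega) _ _⟩

end Pool.Agent.GNP
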