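import Pool.Agent.GNP.AB2
import Pool.Agent.GNP.AB3
import Pool.Agent.GNP.AB4
import Pool.Agent.GNP.LS

/-!
Every phase, amplitudes of bounded variation (BV2b): the core.
-/

namespace Pool.Agent.GNP

open MeasureTheory Set Pool.Agent.MP_6cbfb8_an
open scoped ENNReal Real RealInnerProductSpace ContDiff

/-- `N + 1` is at most a small power of `2 ^ N`. -/
theorem ab_log (δ : ℝ) (hδ : 0 < δ) :
    ∃ C : ℝ, 1 ≤ C ∧ ∀ N : ℕ, (N : ℝ) + 1 ≤ C * ((2 : ℝ) ^ N) ^ δ := by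
  set l : ℝ := Real.log 2 with hl
  have hl0 : 0 < l := Real.log_pos (by norm_num)
  refine ⟨max 1 (1 / (δ * l)), le_max_left _ _, fun N => ?_⟩
  have h1 : ((2 : ℝ) ^ N) ^ δ = Real.exp ((N : ℝ) * (δ * l)) := by
    rw [← Real.rpow_natCast, ← Real.rpow_mul (by norm_num), Real.rpow_def_of_pos (by norm_num)]
    congr 1
    ring
  have h2 : (N : ℝ) * (δ * l) + 1 ≤ Real.exp ((N : ℝ) * (δ * l)) := Real.add_one_le_exp _
  rw [h1]
  have h3 : 1 / (δ * l) ≤ max 1 (1 / (δ * l)) := le_max_right _ _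
  have h4 : (1 : ℝ) ≤ max 1 (1 / (δ * l)) := le_max_left _ _
  set C := max 1 (1 / (δ * l)) with hC
  have h5 : 0 < δ * l := by positivity
  have h6 : 1 ≤ C * (δ * l) := by
    rwa [div_le_iff₀ h5] at h3
  have h7 : (0 : ℝ) ≤ N := Nat.cast_nonneg N
  calc (N : ℝ) + 1 ≤ N * (C * (δ * l)) + C := by nlinarith
    _ = C * ((N : ℝ) * (δ * l) + 1) := by ring
    _ ≤ C * Real.exp ((N : ℝ) * (δ * l)) := by gcongr

theorem ab_measurable {d : ℕ} {Φ h : E d → ℝ} (hΦ : ContDiff ℝ ∞ Φ) (hh : ContDiff ℝ ∞ h)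
    (c R β : ℝ) : Measurable (Function.uncurry
      fun (s : ℝ) (y : E d) => ENNReal.ofReal (Vv Φ h c s R y ^ β)) :=
  ENNReal.measurable_ofReal.comp ((measurable_Vv d Φ h hΦ hh c R).pow_const β)

/-- Tonelli for the density. -/
theorem ab_swap {d : ℕ} {Φ h : E d → ℝ} (hΦ : ContDiff ℝ ∞ Φ) (hh : ContDiff ℝ ∞ h)
    (c R β : ℝ) (I : Set ℝ) (G : Set (E d)) :
    ∫⁻ s in I, ∫⁻ y in G, ENNReal.ofReal (Vv Φ h c s R y ^ β) =
      ∫⁻ y in G, ∫⁻ s in I, ENNReal.ofReal (Vv Φ h c s R y ^ β) :=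
  lintegral_lintegral_swap (ab_measurable hΦ hh c R β).aemeasurable

theorem ab_lint {d : ℕ} {Φ h : E d → ℝ} (hΦ : ContDiff ℝ ∞ Φ) (hh : ContDiff ℝ ∞ h)
    (c R β : ℝ) (G : Set (E d)) :
    Measurable fun s : ℝ => ∫⁻ y in G, ENNReal.ofReal (Vv Φ h c s R y ^ β) :=
  (ab_measurable hΦ hh c R β).lintegral_prod_right

/-- A function bounded by the volume of the support: a larger exponent. -/
theorem ab_red {d : ℕ} {a : E d → ℂ} (ha1 : ∀ y, ‖a y‖ ≤ 1) {r : ℝ} (har : ∀ y, r < ‖y‖ → a y = 0)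
    (q : E d → ℝ) {p p' : ℝ} (hp' : 0 ≤ p') (hpp : p' ≤ p) :
    ∫⁻ x, ‖uu a q x‖ₑ ^ p ≤
      ENNReal.ofReal (volume.real (Metric.closedBall (0 : E d) r) ^ (p - p')) *
        ∫⁻ x, ‖uu a q x‖ₑ ^ p' := by
  set v : ℝ := volume.real (Metric.closedBall (0 : E d) r) with hv
  have hv0 : 0 ≤ v := measureReal_nonneg
  have h2 : volume (Metric.closedBall (0 : E d) r) = ENNReal.ofReal v := by
    rw [hv, ofReal_measureReal measure_closedBall_lt_top.ne]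
  have h1 : ∀ x, ‖uu a q x‖ₑ ≤ ENNReal.ofReal v := by
    intro x
    refine (enorm_integral_le_lintegral_enorm _).trans ?_
    rw [← h2, ← setLIntegral_one, ← lintegral_indicator Metric.isClosed_closedBall.measurableSet]
    refine lintegral_mono fun y => ?_
    rw [enorm_mul, ← ofReal_norm (Complex.exp _), Complex.norm_exp_ofReal_mul_I,
      ENNReal.ofReal_one, mul_one]
    by_cases hy : y ∈ Metric.closedBall (0 : E d) r
    · rw [indicator_of_mem hy, ← ofReal_norm]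
      exact ENNReal.ofReal_le_one.2 (ha1 y)
    · rw [indicator_of_notMem hy, har y (by
        rw [mem_closedBall_zero_iff, not_le] at hy
        exact hy)]
      simp
  rw [← lintegral_const_mul' _ _ ENNReal.ofReal_ne_top]
  refine lintegral_mono fun x => ?_
  have h3 : p = (p - p') + p' := by ring
  calc ‖uu a q x‖ₑ ^ p = ‖uu a q x‖ₑ ^ (p - p') * ‖uu a q x‖ₑ ^ p' := by
        rw [← ENNReal.rpow_add_of_nonneg _ _ (by linarith) hp', ← h3]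
    _ ≤ ENNReal.ofReal v ^ (p - p') * ‖uu a q x‖ₑ ^ p' :=
        mul_le_mul' (ENNReal.rpow_le_rpow (h1 x) (by linarith)) le_rfl
    _ = _ := by rw [ENNReal.ofReal_rpow_of_nonneg hv0 (by linarith)]

/-- The sum over the bands. -/
theorem ab_sum {d : ℕ} {Φ h : E d → ℝ} (hΦ : ContDiff ℝ ∞ Φ) (hh : ContDiff ℝ ∞ h)
    (c r' p C K : ℝ) (hp : 2 < p) (hC : 0 < C) (hK : 0 < K)
    (hV : ∀ y, ‖y‖ ≤ r' → ∀ R : ℝ, 1 ≤ R →
      ∫⁻ s : ℝ, ENNReal.ofReal (Vv Φ h c s R y ^ (p - 2)) ≤ ENNReal.ofReal (C * R))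
    (G : ℕ → ℕ → Set (E d))
    (hG : ∀ j i, MeasurableSet (G j i) ∧ (∀ y ∈ G j i, ‖y‖ ≤ r') ∧
      volume (G j i) ≤ ENNReal.ofReal (K * 2 ^ i / 2 ^ j)) (N : ℕ) (I : Set ℝ) :
    ∫⁻ s in I, ∑ j ∈ Finset.range N, ∑ i ∈ Finset.range (N + 1),
      ENNReal.ofReal ((((2 : ℝ) ^ i)⁻¹) ^ p) *
        ∫⁻ y in G j i, ENNReal.ofReal (Vv Φ h c s (2 ^ j) y ^ (p - 2)) ≤
      ENNReal.ofReal (C * K * ((N : ℝ) + 1) ^ 2) := by
  have hm : ∀ j i : ℕ, Measurable fun s : ℝ => ENNReal.ofReal ((((2 : ℝ) ^ i)⁻¹) ^ p) *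
      ∫⁻ y in G j i, ENNReal.ofReal (Vv Φ h c s (2 ^ j) y ^ (p - 2)) := fun j i =>
    (ab_lint hΦ hh c _ _ _).const_mul _
  have h1 : ∀ j i : ℕ, ∫⁻ s in I, ENNReal.ofReal ((((2 : ℝ) ^ i)⁻¹) ^ p) *
      ∫⁻ y in G j i, ENNReal.ofReal (Vv Φ h c s (2 ^ j) y ^ (p - 2)) ≤
      ENNReal.ofReal (C * K) := by
    intro j i
    have h2j : (0 : ℝ) < 2 ^ j := by positivity
    have h2i : (0 : ℝ) < 2 ^ i := by positivity
    have h2j1 : (1 : ℝ) ≤ 2 ^ j := one_le_pow₀ (by norm_num)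
    have h2i1 : (1 : ℝ) ≤ 2 ^ i := one_le_pow₀ (by norm_num)
    obtain ⟨hG1, hG2, hG3⟩ := hG j i
    rw [lintegral_const_mul' _ _ ENNReal.ofReal_ne_top, ab_swap hΦ hh]
    have h3 : ∫⁻ y in G j i, ∫⁻ s in I, ENNReal.ofReal (Vv Φ h c s (2 ^ j) y ^ (p - 2)) ≤
        ENNReal.ofReal (C * 2 ^ j) * volume (G j i) := by
      rw [← setLIntegral_const]
      refine setLIntegral_mono' hG1 fun y hy => ?_
      exact (setLIntegral_le_lintegral _ _).trans (hV y (hG2 y hy) _ h2j1)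
    calc _ ≤ ENNReal.ofReal ((((2 : ℝ) ^ i)⁻¹) ^ p) *
          (ENNReal.ofReal (C * 2 ^ j) * ENNReal.ofReal (K * 2 ^ i / 2 ^ j)) := by
            gcongr
            exact h3.trans (by gcongr)
      _ = ENNReal.ofReal ((((2 : ℝ) ^ i)⁻¹) ^ p * (C * 2 ^ j * (K * 2 ^ i / 2 ^ j))) := by
            rw [← ENNReal.ofReal_mul (by positivity), ← ENNReal.ofReal_mul (by positivity)]
      _ ≤ ENNReal.ofReal (C * K) := by
            refine ENNReal.ofReal_le_ofReal ?_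
            have h4 : (((2 : ℝ) ^ i)⁻¹) ^ p ≤ ((2 : ℝ) ^ i)⁻¹ := by
              have h5 := Real.rpow_le_rpow_of_exponent_ge (inv_pos.2 h2i)
                (inv_le_one_of_one_le₀ h2i1) (show (1 : ℝ) ≤ p by linarith)
              rwa [Real.rpow_one] at h5
            calc (((2 : ℝ) ^ i)⁻¹) ^ p * (C * 2 ^ j * (K * 2 ^ i / 2 ^ j)) ≤
                ((2 : ℝ) ^ i)⁻¹ * (C * 2 ^ j * (K * 2 ^ i / 2 ^ j)) := by gcongr
              _ = C * K := by field_simp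
  rw [lintegral_finsetSum _ fun j _ => Finset.measurable_sum _ fun i _ => hm j i]
  have h5 : ∀ j ∈ Finset.range N, ∫⁻ s in I, ∑ i ∈ Finset.range (N + 1),
      ENNReal.ofReal ((((2 : ℝ) ^ i)⁻¹) ^ p) *
        ∫⁻ y in G j i, ENNReal.ofReal (Vv Φ h c s (2 ^ j) y ^ (p - 2)) ≤
      (N + 1 : ℕ) • ENNReal.ofReal (C * K) := by
    intro j _
    rw [lintegral_finsetSum _ fun i _ => hm j i]
    refine (Finset.sum_le_card_nsmul _ _ _ fun i _ => h1 j i).trans ?_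
    rw [Finset.card_range]
  refine (Finset.sum_le_card_nsmul _ _ _ h5).trans ?_
  rw [Finset.card_range, smul_smul, nsmul_eq_mul, ← ENNReal.ofReal_natCast,
    ← ENNReal.ofReal_mul (by positivity)]
  refine ENNReal.ofReal_le_ofReal ?_
  have h7 : (0 : ℝ) ≤ N := Nat.cast_nonneg N
  push_cast
  have h8 : 0 < C * K := by positivity
  nlinarith

/-- The numbers. -/
theorem ab_real {X ε' ε Kx Kl Cv Cl P1 : ℝ} {N : ℕ} (hX : 1 ≤ X) (hε' : 0 < ε')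
    (hεε : 4 * ε' ≤ ε) (hKx : 0 < Kx) (hKl : 0 < Kl) (hCv : 0 < Cv) (hCl : 1 ≤ Cl) (hP1 : 1 ≤ P1)
    (hN : (2 : ℝ) ^ N ≤ 2 * P1 * √X) (hlog : (N : ℝ) + 1 ≤ Cl * ((2 : ℝ) ^ N) ^ ε') :
    Kx * X ^ ε' * (Kl * (N * X ^ ε') + Cv * Kx * ((N : ℝ) + 1) ^ 2) ≤
      Kx * (Kl * (Cl * (2 * P1) ^ ε') + Cv * Kx * (Cl * (2 * P1) ^ ε') ^ 2) * X ^ ε := by
  have hX0 : 0 < X := by linarith
  set Q : ℝ := Cl * (2 * P1) ^ ε' with hQ
  have hQ1 : 1 ≤ Q := one_le_mul_of_one_le_of_one_le hCl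
    (Real.one_le_rpow (by linarith) hε'.le)
  set x : ℝ := X ^ ε' with hx
  have hx1 : 1 ≤ x := Real.one_le_rpow hX hε'.le
  have h1 : (N : ℝ) + 1 ≤ Q * x := by
    refine hlog.trans ?_
    rw [hQ, hx, mul_assoc, ← Real.mul_rpow (by linarith) hX0.le]
    refine mul_le_mul_of_nonneg_left ?_ (by linarith)
    refine Real.rpow_le_rpow (by positivity) (hN.trans ?_) hε'.le
    have h2 : √X ≤ X := by
      rw [Real.sqrt_le_left hX0.le]
      nlinarith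
    have h3 : 0 ≤ 2 * P1 := by linarith
    exact mul_le_mul_of_nonneg_left h2 h3
  have h3 : x ^ 4 ≤ X ^ ε := by
    have h4 : x ^ 4 = X ^ (4 * ε') := by
      rw [hx, mul_comm, Real.rpow_mul hX0.le, ← Real.rpow_natCast]
      norm_num
    rw [h4]
    exact Real.rpow_le_rpow_of_exponent_le hX hεε
  have hN0 : (0 : ℝ) ≤ (N : ℝ) + 1 := by positivity
  have h5 : ((N : ℝ) + 1) ^ 2 ≤ (Q * x) ^ 2 := pow_le_pow_left₀ hN0 h1 2
  have hx0 : 0 < x := by linarith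
  have hQ0 : 0 < Q := by linarith
  have hN1 : (N : ℝ) ≤ Q * x := by linarith
  have h6 : x ≤ x ^ 2 := by nlinarith
  calc Kx * x * (Kl * (N * x) + Cv * Kx * ((N : ℝ) + 1) ^ 2)
      ≤ Kx * x * (Kl * (Q * x * x) + Cv * Kx * (Q * x) ^ 2) := by gcongr
    _ = Kx * (Kl * Q * (x ^ 2 * x) + Cv * Kx * Q ^ 2 * (x ^ 2 * x)) := by ring
    _ ≤ Kx * (Kl * Q * (x ^ 2 * x ^ 2) + Cv * Kx * Q ^ 2 * (x ^ 2 * x ^ 2)) := by gcongr
    _ = Kx * (Kl * Q + Cv * Kx * Q ^ 2) * x ^ 4 := by ring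
    _ ≤ Kx * (Kl * Q + Cv * Kx * Q ^ 2) * X ^ ε := by gcongr

/-- A power of two near `x`. -/
theorem ab_pow {x : ℝ} (hx : 1 ≤ x) : ∃ N : ℕ, x ≤ 2 ^ N ∧ (2 : ℝ) ^ N ≤ 2 * x := by
  obtain ⟨n, h1, h2⟩ := exists_nat_pow_near hx (one_lt_two : (1 : ℝ) < 2)
  refine ⟨n + 1, h2.le, ?_⟩
  rw [pow_succ]
  linarith

/-- Row BV2b. The core for small exponents: at most `2d/3` equal eigenvalues, or every phase
(`j = 1`). -/
theorem core_bv_small (d j : ℕ) (hd : 2 ≤ d) (hj : 1 ≤ j) (hjd : 2 * j ≤ d) (A : ℕ → ℝ)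
    (r r' b η' p ε V : ℝ) (hr : 0 < r) (hr' : r < r') (hr1 : r' < 1) (hb : 0 < b) (hη' : 0 < η')
    (hp : 2 * ((d : ℝ) + 1) / d < p) (hp3 : 2 / 3 ≤ j * (p - 2)) (hp4 : j * (p - 2) < 2)
    (hε : 0 < ε) (hV : 0 ≤ V) : ∃ K : ℝ, 0 < K ∧ ∀ (Φ h : E d → ℝ) (a : E d → ℂ), Sm d A Φ →
      Sm d A h → (∀ y, ‖y‖ ≤ r' → h y = hs y) → Measurable a → (∀ y, ‖a y‖ ≤ 1) →
      (∀ y, r < ‖y‖ → a y = 0) → BVE d 1 V a → Df d b r' h →
      (∀ y, ‖y‖ ≤ r' → Mop d j η' (Hs Φ y) (-Hs h y)) → ∀ c : ℝ,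
      ∫⁻ s : ℝ, ∫⁻ x, ‖uu a (ph Φ h c s) x‖ₑ ^ p ≤ ENNReal.ofReal (K * (1 + |c|) ^ ε) := by
  have hd1 : 1 ≤ d := by omega
  have hd0 : (0 : ℝ) < d := by exact_mod_cast hd1
  have hβ : 2 / (d : ℝ) < p - 2 := by
    have h1 : 2 * ((d : ℝ) + 1) / d = 2 + 2 / d := by field_simp
    linarith
  have hp2 : 2 < p := by
    have h1 : 0 < 2 / (d : ℝ) := by positivity
    linarith
  have hs1 : (d : ℝ) / (d + 1) < 1 := by
    rw [div_lt_one (by linarith)]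
    linarith
  obtain ⟨r1, hr1a, hr1b⟩ := exists_between hr'
  have hr10 : 0 < r1 := by linarith
  obtain ⟨η, hη, hη0, hη1⟩ := exists_ker_nn d
  obtain ⟨A0, hA0⟩ := mo_amp d η hη
  set A1 : ℕ → ℝ := fun j => max (A j) (A0 j) with hA1
  have hAA1 : ∀ j, A j ≤ A1 j := fun j => le_max_left _ _
  have hA01 : ∀ j, A0 j ≤ A1 j := fun j => le_max_right _ _
  obtain ⟨P0, K0, hP0, hK0, hrz⟩ := rough_zero d hd1 A r r' b p 1 V hr hr' hr1 hb hp hs1 hV η hη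
    hη0 hη1
  set P1 : ℝ := max P0 (1 / (r1 - r)) with hP1def
  have hP1 : 1 ≤ P1 := hP0.trans (le_max_left _ _)
  have hP1r : 1 / P1 ≤ r1 - r := by
    have h1 : 1 / (r1 - r) ≤ P1 := le_max_right _ _
    have h2 : 0 < r1 - r := by linarith
    rw [div_le_iff₀ (by linarith)]
    rw [div_le_iff₀ h2] at h1
    linarith
  obtain ⟨Kf, τf, C1, hKf, hτf, hC1, hfar⟩ := far_lev d hd1 A1 r1 r' b p hr10 hr1b hb hp
  set ε' : ℝ := min (ε / 4) (1 / 4) with hε'def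
  have hε' : 0 < ε' := lt_min (by linarith) (by norm_num)
  have hε'1 : ε' ≤ 1 / 4 := min_le_right _ _
  have hε'2 : 4 * ε' ≤ ε := by
    have : ε' ≤ ε / 4 := min_le_left _ _
    linarith
  set J : ℕ := ⌈1 / ε'⌉₊ with hJdef
  have hJ : 1 ≤ ((J : ℝ) + 1) * ε' := by
    have h1 : 1 / ε' ≤ (J : ℝ) := Nat.le_ceil _
    rw [div_le_iff₀ hε'] at h1
    nlinarith
  obtain ⟨m, Kx, hKx, hfix⟩ := fixed_bv d J A η hη hη0 hη1 r r' b p ε' (4 * C1 * P1 ^ 2) V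
    (2 * P1) hr hr' hb hp2 hε' hε'1 hJ hV
  obtain ⟨Kl, hKl, hlev⟩ := lev_sum_M d j J m hd hj hjd A r' b η' (p - 2) ε' (hr.trans hr') hb hη'
    hβ hp4 hp3 hε'
  obtain ⟨Cv, hCv, hVint⟩ := V_int d hd1 A r' b (p - 2) hb hβ
  obtain ⟨Cl, hCl, hlog⟩ := ab_log ε' hε'
  set Kc : ℝ := max Kx Kl with hKc
  have hKc0 : 0 < Kc := hKx.trans_le (le_max_left _ _)
  set Pm : ℝ := 2 * (P1 * √(1 + Kc)) with hPm
  have hPm0 : 0 < Pm := by positivity
  set Vm : ℝ := volume.real (Metric.closedBall (0 : E d) r1) * Pm with hVm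
  obtain ⟨Kn, τn, hKn, hτn, hnear⟩ := near_lev d hd1 r1 1 p C1 Vm hr10 (by linarith)
    (by positivity) hs1 hp
  set Kb : ℝ := Kx * (Kl * (Cl * (2 * P1) ^ ε') + Cv * Kx * (Cl * (2 * P1) ^ ε') ^ 2) with hKb
  have hKb0 : 0 < Kb := by positivity
  refine ⟨K0 * (1 + Kf + Kn + Kb), by positivity, ?_⟩
  intro Φ h a hΦ hh hhs ham ha1 har hBV hdf hM c
  have hΦ1 : Sm d A1 Φ := hΦ.weaken hAA1
  have hh1 : Sm d A1 h := hh.weaken hAA1
  have hX1 : 1 ≤ 1 + |c| := by linarith [abs_nonneg c]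
  set X : ℝ := 1 + |c| with hX
  have hX0 : 0 < X := by linarith
  have hsX : 1 ≤ √X := by
    rw [Real.one_le_sqrt]
    exact hX1
  have hsX2 : √X ^ 2 = X := Real.sq_sqrt hX0.le
  have hPX : 1 ≤ P1 * √X := one_le_mul_of_one_le_of_one_le hP1 hsX
  obtain ⟨N, hN1, hN2⟩ := ab_pow hPX
  have h2N : (0 : ℝ) < 2 ^ N := by positivity
  have h2N1 : (1 : ℝ) ≤ 2 ^ N := hPX.trans hN1
  have hsN : √X ≤ 2 ^ N := le_trans (le_mul_of_one_le_left (by positivity) hP1) hN1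
  have hP1N : P1 ≤ 2 ^ N := le_trans (le_mul_of_one_le_right (by linarith) hsX) hN1
  have hP0N : P0 * √X ≤ 2 ^ N := by
    refine le_trans ?_ hN1
    exact mul_le_mul_of_nonneg_right (le_max_left _ _) (by positivity)
  set f : E d → ℂ := mo η a (2 ^ N) with hf
  have hfA : AmpR d A1 r1 (2 ^ N) f := by
    refine (hA0 a r _ h2N1 ham ha1 har).1.weaken ?_ fun j => ?_
    · have h1 : 1 / (2 : ℝ) ^ N ≤ 1 / P1 := one_div_le_one_div_of_le (by linarith) hP1N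
      linarith
    · exact mul_le_mul_of_nonneg_right (hA01 j) (by positivity)
  have hf1 : ∀ y, ‖f y‖ ≤ 1 := fun y => mo_le_one hη hη0 hη1 ha1 h2N y
  have hfm : Measurable f := hfA.sm.continuous.measurable
  set F : ℝ → ℝ≥0∞ := fun t => ∫⁻ x, ‖uu f (ph Φ h c t) x‖ₑ ^ p with hF
  have hfarb : ∫⁻ t in {t : ℝ | C1 * (2 ^ N) ^ 2 < |t|}, F t ≤ ENNReal.ofReal Kf := by
    refine (hfar f Φ h c (2 ^ N) h2N1 ?_ hΦ1 hh1 hfA hdf).trans ?_
    · calc 1 + |c| = √X ^ 2 := hsX2.symm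
        _ ≤ (2 ^ N) ^ 2 := pow_le_pow_left₀ (by positivity) hsN 2
    · refine ENNReal.ofReal_le_ofReal ?_
      have h1 : ((2 : ℝ) ^ N) ^ (-τf) ≤ 1 := Real.rpow_le_one_of_one_le_of_nonpos h2N1 (by linarith)
      nlinarith
  have hXε : 1 ≤ X ^ ε := Real.one_le_rpow hX1 hε.le
  have hnearb : ∫⁻ t in {t : ℝ | |t| ≤ C1 * (2 ^ N) ^ 2}, F t ≤
      ENNReal.ofReal ((Kn + Kb) * X ^ ε) := by
    rcases le_total |c| Kc with hc | hc
    · refine (hnear f Φ h c (2 ^ N) h2N1 hfm (fun y => (hf1 y).trans (by norm_num)) hfA.supp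
        hΦ.sm.continuous.measurable hh.sm.continuous.measurable
        (fun y hy => hhs y (hy.trans hr1b.le)) ?_).trans ?_
      · have h1 : ∫⁻ y, ‖f y‖ₑ ≤ volume (Metric.closedBall (0 : E d) r1) := by
          rw [← setLIntegral_one, ← lintegral_indicator Metric.isClosed_closedBall.measurableSet]
          refine lintegral_mono fun y => ?_
          by_cases hy : y ∈ Metric.closedBall (0 : E d) r1
          · rw [indicator_of_mem hy, ← ofReal_norm]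
            exact ENNReal.ofReal_le_one.2 (hf1 y)
          · rw [indicator_of_notMem hy, hfA.supp y (by
              rw [mem_closedBall_zero_iff, not_le] at hy
              exact hy)]
            simp
        refine h1.trans ?_
        have h2 : volume (Metric.closedBall (0 : E d) r1) =
            ENNReal.ofReal (volume.real (Metric.closedBall (0 : E d) r1)) := by
          rw [ofReal_measureReal measure_closedBall_lt_top.ne]
        rw [h2]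
        refine ENNReal.ofReal_le_ofReal ?_
        have h3 : (2 : ℝ) ^ N ≤ Pm := by
          refine hN2.trans ?_
          rw [hPm]
          gcongr
          rw [hX]
          linarith
        rw [hVm, Real.rpow_neg_one, mul_assoc, ← div_eq_mul_inv]
        exact le_mul_of_one_le_right (by positivity) ((one_le_div h2N).2 h3)
      · refine ENNReal.ofReal_le_ofReal ?_
        have h1 : ((2 : ℝ) ^ N) ^ (-τn) ≤ 1 :=
          Real.rpow_le_one_of_one_le_of_nonpos h2N1 (by linarith)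
        nlinarith
    · obtain ⟨G, hG, hGs⟩ := hfix Φ h a hΦ hh ham ha1 har hBV hdf c N
        ((le_max_left _ _).trans hc) hsN (by rw [mul_assoc]; exact hN2)
      set I : Set ℝ := {s : ℝ | |s| ≤ 4 * C1 * P1 ^ 2 * (1 + |c|)} with hI
      have hIm : MeasurableSet I := measurableSet_le continuous_abs.measurable measurable_const
      have h1 : {t : ℝ | |t| ≤ C1 * (2 ^ N) ^ 2} ⊆ I := by
        intro t ht
        have ht : |t| ≤ C1 * (2 ^ N) ^ 2 := ht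
        change |t| ≤ 4 * C1 * P1 ^ 2 * (1 + |c|)
        refine ht.trans ?_
        have h3 : ((2 : ℝ) ^ N) ^ 2 ≤ (2 * (P1 * √X)) ^ 2 := pow_le_pow_left₀ h2N.le hN2 2
        calc C1 * ((2 : ℝ) ^ N) ^ 2 ≤ C1 * (2 * (P1 * √X)) ^ 2 := by gcongr
          _ = 4 * C1 * P1 ^ 2 * √X ^ 2 := by ring
          _ = 4 * C1 * P1 ^ 2 * (1 + |c|) := by rw [hsX2]
      set S1 : ℝ → ℝ≥0∞ := fun s => ∑ k ∈ Finset.range N,
        ∫⁻ y in Fl J ((1 + |c|) ^ ε') (ph Φ h c s) r' m k,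
          ENNReal.ofReal (Vv Φ h c s (2 ^ k) y ^ (p - 2)) with hS1
      set S2 : ℝ → ℝ≥0∞ := fun s => ∑ j ∈ Finset.range N, ∑ i ∈ Finset.range (N + 1),
        ENNReal.ofReal ((((2 : ℝ) ^ i)⁻¹) ^ p) *
          ∫⁻ y in G j i, ENNReal.ofReal (Vv Φ h c s (2 ^ j) y ^ (p - 2)) with hS2
      have hS2m : Measurable S2 := Finset.measurable_sum _ fun j _ =>
        Finset.measurable_sum _ fun i _ => (ab_lint hΦ.sm hh.sm c _ _ _).const_mul _
      have h2 : ∫⁻ s in I, S1 s ≤ ENNReal.ofReal (Kl * (N * (1 + |c|) ^ ε')) :=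
        hlev Φ h hΦ hh hdf hM c ((le_max_right _ _).trans hc) N I hIm
      have h3 : ∫⁻ s in I, S2 s ≤ ENNReal.ofReal (Cv * Kx * ((N : ℝ) + 1) ^ 2) :=
        ab_sum hΦ.sm hh.sm c r' p Cv Kx hp2 hCv hKx
          (fun y hy R hR => hVint Φ h hΦ hh hdf y hy c R hR) G hG N I
      calc ∫⁻ t in {t : ℝ | |t| ≤ C1 * (2 ^ N) ^ 2}, F t ≤ ∫⁻ t in I, F t :=
            lintegral_mono_set h1
        _ ≤ ∫⁻ s in I, ENNReal.ofReal (Kx * (1 + |c|) ^ ε') * (S1 s + S2 s) :=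
            setLIntegral_mono' hIm fun s hs => hGs s hs
        _ = ENNReal.ofReal (Kx * (1 + |c|) ^ ε') *
            ((∫⁻ s in I, S1 s) + ∫⁻ s in I, S2 s) := by
            rw [lintegral_const_mul' _ _ ENNReal.ofReal_ne_top, lintegral_add_right _ hS2m]
        _ ≤ ENNReal.ofReal (Kx * (1 + |c|) ^ ε') *
            (ENNReal.ofReal (Kl * (N * (1 + |c|) ^ ε')) +
              ENNReal.ofReal (Cv * Kx * ((N : ℝ) + 1) ^ 2)) := by gcongr
        _ = ENNReal.ofReal (Kx * X ^ ε' * (Kl * (N * X ^ ε') +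
              Cv * Kx * ((N : ℝ) + 1) ^ 2)) := by
            rw [← ENNReal.ofReal_add (by positivity) (by positivity),
              ← ENNReal.ofReal_mul (by positivity)]
        _ ≤ ENNReal.ofReal ((Kn + Kb) * X ^ ε) := by
            refine ENNReal.ofReal_le_ofReal ?_
            refine (ab_real hX1 hε' hε'2 hKx hKl hCv hCl hP1 (by rw [mul_assoc]; exact hN2)
              (hlog N)).trans ?_
            rw [← hKb]
            nlinarith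
  have hS : MeasurableSet {t : ℝ | C1 * (2 ^ N) ^ 2 < |t|} :=
    measurableSet_lt measurable_const continuous_abs.measurable
  have hSc : {t : ℝ | C1 * (2 ^ N) ^ 2 < |t|}ᶜ = {t : ℝ | |t| ≤ C1 * (2 ^ N) ^ 2} := by
    ext t
    simp
  have htot : ∫⁻ t : ℝ, F t ≤ ENNReal.ofReal (Kf + (Kn + Kb) * X ^ ε) := by
    rw [← lintegral_add_compl F hS, hSc, ENNReal.ofReal_add hKf.le (by positivity)]
    exact add_le_add hfarb hnearb
  refine (hrz Φ h a hΦ hh hhs ham ha1 har hBV hdf c (2 ^ N) hP0N).trans ?_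
  calc ENNReal.ofReal K0 * (1 + ∫⁻ t : ℝ, F t) ≤
      ENNReal.ofReal K0 * (1 + ENNReal.ofReal (Kf + (Kn + Kb) * X ^ ε)) := by gcongr
    _ = ENNReal.ofReal (K0 * (1 + (Kf + (Kn + Kb) * X ^ ε))) := by
        rw [← ENNReal.ofReal_one, ← ENNReal.ofReal_add (by norm_num) (by positivity),
          ← ENNReal.ofReal_mul hK0.le]
    _ ≤ ENNReal.ofReal (K0 * (1 + Kf + Kn + Kb) * X ^ ε) := by
        refine ENNReal.ofReal_le_ofReal ?_
        rw [mul_assoc]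
        refine mul_le_mul_of_nonneg_left ?_ hK0.le
        nlinarith

/-- The core for all exponents. -/
theorem core_bv_Mp (d j : ℕ) (hd : 2 ≤ d) (hj : 1 ≤ j) (hjd : 2 * j ≤ d) (A : ℕ → ℝ)
    (r r' b η' p ε V : ℝ) (hr : 0 < r) (hr' : r < r') (hr1 : r' < 1) (hb : 0 < b) (hη' : 0 < η')
    (hp : 2 * ((d : ℝ) + 1) / d < p) (hp3 : 2 / 3 ≤ j * (p - 2)) (hε : 0 < ε) (hV : 0 ≤ V) :
    ∃ K : ℝ, 0 < K ∧ ∀ (Φ h : E d → ℝ) (a : E d → ℂ), Sm d A Φ →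
      Sm d A h → (∀ y, ‖y‖ ≤ r' → h y = hs y) → Measurable a → (∀ y, ‖a y‖ ≤ 1) →
      (∀ y, r < ‖y‖ → a y = 0) → BVE d 1 V a → Df d b r' h →
      (∀ y, ‖y‖ ≤ r' → Mop d j η' (Hs Φ y) (-Hs h y)) → ∀ c : ℝ,
      ∫⁻ s : ℝ, ∫⁻ x, ‖uu a (ph Φ h c s) x‖ₑ ^ p ≤ ENNReal.ofReal (K * (1 + |c|) ^ ε) := by
  rcases lt_or_ge (j * (p - 2)) 2 with hp4 | hp4
  · exact core_bv_small d j hd hj hjd A r r' b η' p ε V hr hr' hr1 hb hη' hp hp3 hp4 hε hV
  have hj0 : (0 : ℝ) < j := by exact_mod_cast hj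
  have hd0 : (0 : ℝ) < d := by
    have : 0 < d := by omega
    exact_mod_cast this
  have hjd' : 2 * (j : ℝ) ≤ d := by exact_mod_cast hjd
  set p' : ℝ := 2 + 3 / (2 * j) with hp'
  have h1 : (j : ℝ) * (p' - 2) = 3 / 2 := by
    rw [hp']
    field_simp
    ring
  have h2 : p' ≤ p := by
    by_contra h3
    push Not at h3
    have h4 : (j : ℝ) * (p - 2) < j * (p' - 2) := by
      apply mul_lt_mul_of_pos_left _ hj0
      linarith
    linarith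
  have h3 : 2 * ((d : ℝ) + 1) / d < p' := by
    have h4 : 2 * ((d : ℝ) + 1) / d = 2 + 2 / d := by field_simp
    have h5 : 2 / (d : ℝ) < 3 / (2 * j) := by
      rw [div_lt_div_iff₀ hd0 (by positivity)]
      linarith
    rw [h4, hp']
    linarith
  obtain ⟨K, hK, H⟩ := core_bv_small d j hd hj hjd A r r' b η' p' ε V hr hr' hr1 hb hη' h3
    (by rw [h1]; norm_num) (by rw [h1]; norm_num) hε hV
  set v : ℝ := volume.real (Metric.closedBall (0 : E d) r) ^ (p - p') with hv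
  have hv0 : 0 ≤ v := by positivity
  refine ⟨(v + 1) * K, by positivity, ?_⟩
  intro Φ h a hΦ hh hhs ham ha1 har hBV hdf hM c
  have hp0 : 0 ≤ p' := by
    rw [hp']
    positivity
  calc ∫⁻ s : ℝ, ∫⁻ x, ‖uu a (ph Φ h c s) x‖ₑ ^ p ≤
      ∫⁻ s : ℝ, ENNReal.ofReal v * ∫⁻ x, ‖uu a (ph Φ h c s) x‖ₑ ^ p' :=
        lintegral_mono fun s => ab_red ha1 har _ hp0 h2
    _ = ENNReal.ofReal v * ∫⁻ s : ℝ, ∫⁻ x, ‖uu a (ph Φ h c s) x‖ₑ ^ p' :=
        lintegral_const_mul' _ _ ENNReal.ofReal_ne_top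
    _ ≤ ENNReal.ofReal v * ENNReal.ofReal (K * (1 + |c|) ^ ε) := by
        gcongr
        exact H Φ h a hΦ hh hhs ham ha1 har hBV hdf hM c
    _ = ENNReal.ofReal (v * (K * (1 + |c|) ^ ε)) := by rw [ENNReal.ofReal_mul hv0]
    _ ≤ ENNReal.ofReal ((v + 1) * K * (1 + |c|) ^ ε) := by
        refine ENNReal.ofReal_le_ofReal ?_
        have h4 : 0 < K * (1 + |c|) ^ ε := by positivity
        nlinarith

/-- The core under the condition on the multiplicities, full range. -/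
theorem core_bv_M (d j : ℕ) (hd : 2 ≤ d) (hj : 1 ≤ j) (hjd : 2 * j ≤ d) (hjd3 : d ≤ 3 * j)
    (A : ℕ → ℝ) (r r' b η' p ε V : ℝ) (hr : 0 < r) (hr' : r < r') (hr1 : r' < 1) (hb : 0 < b)
    (hη' : 0 < η') (hp : 2 * ((d : ℝ) + 1) / d < p) (hε : 0 < ε) (hV : 0 ≤ V) :
    ∃ K : ℝ, 0 < K ∧ ∀ (Φ h : E d → ℝ) (a : E d → ℂ), Sm d A Φ →
      Sm d A h → (∀ y, ‖y‖ ≤ r' → h y = hs y) → Measurable a → (∀ y, ‖a y‖ ≤ 1) →
      (∀ y, r < ‖y‖ → a y = 0) → BVE d 1 V a → Df d b r' h →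
      (∀ y, ‖y‖ ≤ r' → Mop d j η' (Hs Φ y) (-Hs h y)) → ∀ c : ℝ,
      ∫⁻ s : ℝ, ∫⁻ x, ‖uu a (ph Φ h c s) x‖ₑ ^ p ≤ ENNReal.ofReal (K * (1 + |c|) ^ ε) := by
  have hj0 : (0 : ℝ) < j := by exact_mod_cast hj
  have hd0 : (0 : ℝ) < d := by
    have : 0 < d := by omega
    exact_mod_cast this
  have hjd' : (d : ℝ) ≤ 3 * j := by exact_mod_cast hjd3
  refine core_bv_Mp d j hd hj hjd A r r' b η' p ε V hr hr' hr1 hb hη' hp ?_ hε hV
  have h4 : 2 * ((d : ℝ) + 1) / d = 2 + 2 / d := by field_simp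
  have h5 : 2 / (d : ℝ) ≤ p - 2 := by linarith
  have h6 : 2 / 3 ≤ (j : ℝ) * (2 / d) := by
    rw [mul_div_assoc', div_le_div_iff₀ (by norm_num) hd0]
    linarith
  exact h6.trans (mul_le_mul_of_nonneg_left h5 hj0.le)

/-- Row BV2b. The core: every phase, amplitudes of bounded variation. -/
theorem core4_bv (d : ℕ) (hd : 2 ≤ d) (A : ℕ → ℝ) (r r' b p ε V : ℝ) (hr : 0 < r)
    (hr' : r < r') (hr1 : r' < 1) (hb : 0 < b) (hp : 2 * ((d : ℝ) + 1) / d < p) (hp3 : 8 / 3 ≤ p)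
    (hε : 0 < ε) (hV : 0 ≤ V) : ∃ K : ℝ, 0 < K ∧ ∀ (Φ h : E d → ℝ) (a : E d → ℂ), Sm d A Φ →
      Sm d A h → (∀ y, ‖y‖ ≤ r' → h y = hs y) → Measurable a → (∀ y, ‖a y‖ ≤ 1) →
      (∀ y, r < ‖y‖ → a y = 0) → BVE d 1 V a → Df d b r' h → ∀ c : ℝ,
      ∫⁻ s : ℝ, ∫⁻ x, ‖uu a (ph Φ h c s) x‖ₑ ^ p ≤ ENNReal.ofReal (K * (1 + |c|) ^ ε) := by
  obtain ⟨K, hK, H⟩ := core_bv_Mp d 1 hd le_rfl (by omega) A r r' b 1 p ε V hr hr' hr1 hb one_pos hp
    (by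
      rw [Nat.cast_one, one_mul]
      linarith) hε hV
  exact ⟨K, hK, fun Φ h a hΦ hh hhs ham ha1 har hBV hdf c => H Φ h a hΦ hh hhs ham ha1 har hBV hdf
    (fun y _ => Mop_one (by omega) _ _) c⟩

end Pool.Agent.GNP
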