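import Pool.Agent.GNP.WMO

/-!
Rough amplitudes: classes of local oscillation.
-/

namespace Pool.Agent.GNP

open MeasureTheory Set Pool.Agent.MP_6cbfb8_an
open scoped ENNReal Real RealInnerProductSpace ContDiff Convolution

/-- The local mean oscillation of `a` at the scale `ϱ / P`. -/
noncomputable def OO {d : ℕ} (ϱ : ℝ) (a : E d → ℂ) (P : ℝ) (y : E d) : ℝ≥0∞ :=
  ENNReal.ofReal (P ^ (2 * d)) * ∫⁻ w in Metric.closedBall y (ϱ / P),
    ∫⁻ v in Metric.closedBall y (ϱ / P), ‖a v - a w‖ₑ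

/-- Derivatives of a convolution, `L¹` form. -/
theorem conv_L1 {d : ℕ} {g : E d → ℂ} (hgi : LocallyIntegrable g volume) (κ : ℝ) (j : ℕ) :
    ∀ {F G : Type} [NormedAddCommGroup F] [NormedSpace ℝ F] [NormedAddCommGroup G]
      [NormedSpace ℝ G] (L : F →L[ℝ] ℂ →L[ℝ] G) (f : E d → F) (B : ℝ), ContDiff ℝ ∞ f →
      (∀ v, κ < ‖v‖ → f v = 0) → (∀ v, ‖iteratedFDeriv ℝ j f v‖ ≤ B) → ∀ y,
      ‖iteratedFDeriv ℝ j (f ⋆[L, volume] g) y‖ₑ ≤
        ENNReal.ofReal (‖L‖ * B) * ∫⁻ v in Metric.closedBall y κ, ‖g v‖ₑ := by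
  induction j with
  | zero =>
    intro F G _ _ _ _ L f B hf h0 hB y
    have e0 : ‖iteratedFDeriv ℝ 0 (f ⋆[L, volume] g) y‖ₑ = ‖(f ⋆[L, volume] g) y‖ₑ := by
      rw [← ofReal_norm, norm_iteratedFDeriv_zero, ofReal_norm]
    rw [e0]
    have hB' : ∀ v, ‖f v‖ ≤ B := fun v => by simpa using hB v
    have hB0 : 0 ≤ B := (norm_nonneg _).trans (hB' 0)
    have h1 : ∀ t, ‖L (f t) (g (y - t))‖ₑ ≤
        indicator (Metric.closedBall y κ) (fun v => ENNReal.ofReal (‖L‖ * B) * ‖g v‖ₑ) (y - t) := by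
      intro t
      by_cases ht : ‖t‖ ≤ κ
      · rw [indicator_of_mem (by rw [Metric.mem_closedBall, dist_eq_norm]; simpa using ht)]
        rw [← ofReal_norm, ← ofReal_norm, ← ENNReal.ofReal_mul (by positivity)]
        refine ENNReal.ofReal_le_ofReal ((L.le_opNorm₂ _ _).trans ?_)
        gcongr
        exact hB' t
      · rw [h0 t (not_le.1 ht)]
        simp
    refine (enorm_integral_le_lintegral_enorm _).trans ((lintegral_mono h1).trans ?_)
    rw [lintegral_sub_left_eq_self (fun v => indicator (Metric.closedBall y κ)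
      (fun v => ENNReal.ofReal (‖L‖ * B) * ‖g v‖ₑ) v) y,
      lintegral_indicator Metric.isClosed_closedBall.measurableSet,
      lintegral_const_mul' _ _ ENNReal.ofReal_ne_top]
  | succ j ih =>
    intro F G _ _ _ _ L f B hf h0 hB y
    have hcs : HasCompactSupport f :=
      HasCompactSupport.intro (isCompact_closedBall (0 : E d) κ) fun v hv => h0 v (by
        rw [mem_closedBall_zero_iff, not_le] at hv
        exact hv)
    have h1 : fderiv ℝ (f ⋆[L, volume] g) = (fderiv ℝ f ⋆[L.precompL (E d), volume] g) := by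
      funext x
      exact (hcs.hasFDerivAt_convolution_left L (hf.of_le (by norm_cast)) hgi x).fderiv
    have e1 : ‖iteratedFDeriv ℝ (j + 1) (f ⋆[L, volume] g) y‖ₑ =
        ‖iteratedFDeriv ℝ j (fderiv ℝ f ⋆[L.precompL (E d), volume] g) y‖ₑ := by
      rw [← ofReal_norm, ← norm_iteratedFDeriv_fderiv, h1, ofReal_norm]
    rw [e1]
    have h2 : ContDiff ℝ ∞ (fderiv ℝ f) := hf.fderiv_right (by norm_cast)
    have h3 : ∀ v, κ < ‖v‖ → fderiv ℝ f v = 0 := by
      intro v hv
      have h4 : f =ᶠ[nhds v] fun _ => 0 := by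
        filter_upwards [(isOpen_lt continuous_const continuous_norm).mem_nhds hv] with z hz
        exact h0 z hz
      rw [h4.fderiv_eq]
      simp
    have h5 : ∀ v, ‖iteratedFDeriv ℝ j (fderiv ℝ f) v‖ ≤ B := by
      intro v
      rw [norm_iteratedFDeriv_fderiv]
      exact hB v
    refine (ih (L.precompL (E d)) (fderiv ℝ f) B h2 h3 h5 y).trans ?_
    have hB0 : 0 ≤ B := (norm_nonneg _).trans (h5 0)
    gcongr
    exact L.norm_precompL_le (E d)

theorem bv1_li {d : ℕ} {a : E d → ℂ} (ham : Measurable a) {M : ℝ} (ha : ∀ y, ‖a y‖ ≤ M) :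
    LocallyIntegrable a volume := by
  intro x
  refine ⟨Metric.closedBall x 1, Metric.closedBall_mem_nhds x one_pos, ?_⟩
  exact Measure.integrableOn_of_bounded (M := M) measure_closedBall_lt_top.ne
    ham.aestronglyMeasurable (Filter.Eventually.of_forall ha)

theorem bv1_ki {d : ℕ} {η : E d → ℝ} (hη : Ker 1 η) {a : E d → ℂ} (ham : Measurable a) {M : ℝ}
    (ha : ∀ y, ‖a y‖ ≤ M) {P : ℝ} (hP : 0 < P) (y : E d) :
    Integrable fun v => ((P ^ d * η (P • (y - v)) : ℝ) : ℂ) * a v := by
  exact (mo_ker_int hη hP y).ofReal.mul_bdd (c := M) ham.aestronglyMeasurable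
    (Filter.Eventually.of_forall ha)

theorem mo_sub_const {d : ℕ} {η : E d → ℝ} (hη : Ker 1 η) (h1 : ∫ v, η v = 1) {a : E d → ℂ}
    (ham : Measurable a) {M : ℝ} (ha : ∀ y, ‖a y‖ ≤ M) {P : ℝ} (hP : 0 < P) (c : ℂ) (y : E d) :
    mo η (fun v => a v - c) P y = mo η a P y - c := by
  unfold mo
  have h2 : ∀ v, ((P ^ d * η (P • (y - v)) : ℝ) : ℂ) * (a v - c) =
      ((P ^ d * η (P • (y - v)) : ℝ) : ℂ) * a v - ((P ^ d * η (P • (y - v)) : ℝ) : ℂ) * c :=
    fun v => mul_sub _ _ _
  simp only [h2]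
  have k1 : Integrable fun v => ((P ^ d * η (P • (y - v)) : ℝ) : ℂ) * a v := bv1_ki hη ham ha hP y
  have k2 : Integrable fun v => ((P ^ d * η (P • (y - v)) : ℝ) : ℂ) * c :=
    (mo_ker_int hη hP y).ofReal.mul_const c
  rw [integral_sub k1 k2, integral_mul_const, integral_complex_ofReal, mo_one h1 hP y]
  simp

theorem mf_sub_const {d : ℕ} {η : E d → ℝ} (hη : Ker 1 η) (h1 : ∫ v, η v = 1) {a : E d → ℂ}
    (ham : Measurable a) {M : ℝ} (ha : ∀ y, ‖a y‖ ≤ M) {P : ℝ} (hP : 0 < P) (c : ℂ) :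
    mf η (fun v => a v - c) P = mf η a P := by
  funext y
  unfold mf
  rw [mo_sub_const hη h1 ham ha hP, mo_sub_const hη h1 ham ha (by positivity)]
  ring

/-- Derivatives of a mollification, `L¹` form. -/
theorem mo_L1 {d : ℕ} {η : E d → ℝ} (hη : Ker 1 η) (j : ℕ) : ∃ B : ℝ, 0 ≤ B ∧
    ∀ (g : E d → ℂ) (P : ℝ), 0 < P → LocallyIntegrable g volume → ∀ y,
    ‖iteratedFDeriv ℝ j (mo η g P) y‖ₑ ≤
      ENNReal.ofReal (P ^ d * (P ^ j * B)) * ∫⁻ v in Metric.closedBall y (1 / P), ‖g v‖ₑ := by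
  obtain ⟨B, hB0, hB⟩ := ker_der hη j
  refine ⟨‖(ContinuousLinearMap.lsmul ℝ ℝ : ℝ →L[ℝ] ℂ →L[ℝ] ℂ)‖ * B, by positivity,
    fun g P hP hgi y => ?_⟩
  rw [mo_eq_conv]
  have h1 := conv_L1 hgi (1 / P) j (ContinuousLinearMap.lsmul ℝ ℝ : ℝ →L[ℝ] ℂ →L[ℝ] ℂ)
    (fun v => P ^ d * η (P • v)) (P ^ d * (P ^ j * B))
    (contDiff_const.mul (hη.sm.comp (contDiff_id.const_smul P))) (fun v hv => ?_) (hB P hP) y
  · refine h1.trans (le_of_eq ?_)
    congr 2
    ring
  · have h1 := mo_hcs hη hP 0 (-v) (by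
      rw [mem_closedBall_zero_iff, norm_neg, not_le]
      exact hv)
    rw [zero_sub, neg_neg] at h1
    rw [h1, mul_zero]

theorem mo_contDiff' {d : ℕ} {η : E d → ℝ} (hη : Ker 1 η) {a : E d → ℂ} (ham : Measurable a)
    {M : ℝ} (ha : ∀ y, ‖a y‖ ≤ M) {P : ℝ} (hP : 0 < P) : ContDiff ℝ ∞ (mo η a P) :=
  mo_contDiff hη (bv1_li ham ha) hP

/-- BV1a. The derivatives of the pieces of `a` are bounded by the local oscillation. -/
theorem osc_deriv (d : ℕ) (η : E d → ℝ) (hη : Ker 1 η) (h1 : ∫ v, η v = 1) : ∃ A : ℕ → ℝ,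
    (∀ j, 0 ≤ A j) ∧ ∀ (a : E d → ℂ) (P : ℝ), 0 < P → Measurable a → (∀ y, ‖a y‖ ≤ 1) → ∀ j y,
      ‖iteratedFDeriv ℝ j (mf η a P) y‖ₑ ≤ ENNReal.ofReal (A j * P ^ j) * OO 1 a P y := by
  choose B hB0 hB using fun j => mo_L1 hη j
  set om : ℝ := volume.real (Metric.closedBall (0 : E d) 1) with hom
  have hom0 : 0 < om := by
    rw [hom, measureReal_def]
    exact ENNReal.toReal_pos (Metric.measure_closedBall_pos _ _ one_pos).ne'
      measure_closedBall_lt_top.ne
  refine ⟨fun j => (2 ^ d * 2 ^ j + 1) * B j / om, fun j => by have := hB0 j; positivity,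
    fun a P hP ham ha j y => ?_⟩
  have hBj := hB0 j
  have hc : ∀ c : ℂ, ‖iteratedFDeriv ℝ j (mf η a P) y‖ₑ ≤
      ENNReal.ofReal ((2 ^ d * 2 ^ j + 1) * B j * (P ^ d * P ^ j)) *
        ∫⁻ v in Metric.closedBall y (1 / P), ‖a v - c‖ₑ := by
    intro c
    have ham' : Measurable fun v => a v - c := ham.sub_const c
    have ha' : ∀ v, ‖a v - c‖ ≤ 1 + ‖c‖ := fun v => (norm_sub_le _ _).trans (by linarith [ha v])
    have hli := bv1_li ham' ha'
    rw [← mf_sub_const hη h1 ham ha hP c]
    have e : mf η (fun v => a v - c) P =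
        (mo η (fun v => a v - c) (2 * P)) - (mo η (fun v => a v - c) P) := rfl
    have h2 := hB j _ (2 * P) (by positivity) hli y
    have h3 := hB j _ P hP hli y
    have c1 : ContDiff ℝ j (mo η (fun v => a v - c) (2 * P)) :=
      (mo_contDiff' hη ham' ha' (by positivity)).of_le (by exact_mod_cast le_top)
    have c2 : ContDiff ℝ j (mo η (fun v => a v - c) P) :=
      (mo_contDiff' hη ham' ha' hP).of_le (by exact_mod_cast le_top)
    rw [e, iteratedFDeriv_sub_apply c1.contDiffAt c2.contDiffAt]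
    have h4 : ∫⁻ v in Metric.closedBall y (1 / (2 * P)), ‖a v - c‖ₑ ≤
        ∫⁻ v in Metric.closedBall y (1 / P), ‖a v - c‖ₑ := by
      refine lintegral_mono_set (Metric.closedBall_subset_closedBall ?_)
      exact div_le_div_of_nonneg_left zero_le_one hP (by linarith)
    calc ‖iteratedFDeriv ℝ j (mo η (fun v => a v - c) (2 * P)) y -
          iteratedFDeriv ℝ j (mo η (fun v => a v - c) P) y‖ₑ
        ≤ ‖iteratedFDeriv ℝ j (mo η (fun v => a v - c) (2 * P)) y‖ₑ +
          ‖iteratedFDeriv ℝ j (mo η (fun v => a v - c) P) y‖ₑ := enorm_sub_le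
      _ ≤ ENNReal.ofReal ((2 * P) ^ d * ((2 * P) ^ j * B j)) *
            (∫⁻ v in Metric.closedBall y (1 / P), ‖a v - c‖ₑ) +
          ENNReal.ofReal (P ^ d * (P ^ j * B j)) *
            ∫⁻ v in Metric.closedBall y (1 / P), ‖a v - c‖ₑ :=
          add_le_add (h2.trans (mul_le_mul_right h4 _)) h3
      _ = _ := by
          rw [← add_mul, ← ENNReal.ofReal_add (by positivity) (by positivity)]
          congr 2
          ring
  -- average over `c`
  have hvol : volume (Metric.closedBall y (1 / P)) = ENNReal.ofReal ((P ^ d)⁻¹ * om) := by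
    rw [hom, ← vol_ball_scale hP, measureReal_def, ENNReal.ofReal_toReal
      measure_closedBall_lt_top.ne]
    rw [Measure.addHaar_closedBall_center]
  have hK0 : 0 ≤ (2 ^ d * 2 ^ j + 1) * B j * (P ^ d * P ^ j) := by positivity
  have h5 : ENNReal.ofReal ((P ^ d)⁻¹ * om) * ‖iteratedFDeriv ℝ j (mf η a P) y‖ₑ ≤
      ENNReal.ofReal ((2 ^ d * 2 ^ j + 1) * B j * (P ^ d * P ^ j)) *
        ∫⁻ w in Metric.closedBall y (1 / P), ∫⁻ v in Metric.closedBall y (1 / P),
          ‖a v - a w‖ₑ := by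
    rw [← hvol, mul_comm, ← setLIntegral_const, ← lintegral_const_mul' _ _ ENNReal.ofReal_ne_top]
    exact lintegral_mono fun w => hc (a w)
  have h6 : ‖iteratedFDeriv ℝ j (mf η a P) y‖ₑ =
      ENNReal.ofReal (P ^ d / om) * (ENNReal.ofReal ((P ^ d)⁻¹ * om) *
        ‖iteratedFDeriv ℝ j (mf η a P) y‖ₑ) := by
    rw [← mul_assoc, ← ENNReal.ofReal_mul (by positivity)]
    have : P ^ d / om * ((P ^ d)⁻¹ * om) = 1 := by
      field_simp
    rw [this, ENNReal.ofReal_one, one_mul]
  rw [h6]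
  refine (mul_le_mul_right h5 _).trans (le_of_eq ?_)
  unfold OO
  generalize (∫⁻ w in Metric.closedBall y (1 / P), ∫⁻ v in Metric.closedBall y (1 / P),
    ‖a v - a w‖ₑ) = X
  show ENNReal.ofReal (P ^ d / om) * (ENNReal.ofReal ((2 ^ d * 2 ^ j + 1) * B j *
    (P ^ d * P ^ j)) * X) = ENNReal.ofReal ((2 ^ d * 2 ^ j + 1) * B j / om * P ^ j) *
      (ENNReal.ofReal (P ^ (2 * d)) * X)
  rw [← mul_assoc, ← ENNReal.ofReal_mul (by positivity),
    ← mul_assoc (ENNReal.ofReal ((2 ^ d * 2 ^ j + 1) * B j / om * P ^ j)),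
    ← ENNReal.ofReal_mul (by positivity)]
  congr 2
  field_simp
  try ring

/-- The oscillation at neighbouring points. -/
theorem OO_mono {d : ℕ} {ϱ ϱ' P : ℝ} (a : E d → ℂ) {y z : E d}
    (h : ‖y - z‖ ≤ (ϱ' - ϱ) / P) : OO ϱ a P y ≤ OO ϱ' a P z := by
  unfold OO
  have hsub : Metric.closedBall y (ϱ / P) ⊆ Metric.closedBall z (ϱ' / P) := by
    refine Metric.closedBall_subset_closedBall' ?_
    rw [dist_eq_norm]
    have : ϱ' / P = ϱ / P + (ϱ' - ϱ) / P := by ring
    linarith
  gcongr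

theorem measurable_OO {d : ℕ} (ϱ : ℝ) {a : E d → ℂ} (ha : Measurable a) (P : ℝ) :
    Measurable (OO ϱ a P) := by
  unfold OO
  refine Measurable.const_mul ?_ _
  have h1 : Measurable fun z : (E d × E d) × E d =>
      indicator (Metric.closedBall z.1.1 (ϱ / P)) (fun v => ‖a v - a z.1.2‖ₑ) z.2 := by
    have hm : MeasurableSet {z : (E d × E d) × E d | dist z.2 z.1.1 ≤ ϱ / P} :=
      measurableSet_le (by fun_prop) measurable_const
    have h2 : Measurable fun z : (E d × E d) × E d => ‖a z.2 - a z.1.2‖ₑ :=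
      ((ha.comp measurable_snd).sub (ha.comp (measurable_snd.comp measurable_fst))).enorm
    exact h2.indicator hm
  have h2 : Measurable fun z : E d × E d => ∫⁻ v in Metric.closedBall z.1 (ϱ / P),
      ‖a v - a z.2‖ₑ := by
    have := h1.lintegral_prod_right' (ν := (volume : Measure (E d)))
    simpa only [lintegral_indicator Metric.isClosed_closedBall.measurableSet] using this
  have h3 : Measurable fun z : E d × E d =>
      indicator (Metric.closedBall z.1 (ϱ / P)) (fun w => ∫⁻ v in Metric.closedBall z.1 (ϱ / P),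
        ‖a v - a w‖ₑ) z.2 := by
    have hm : MeasurableSet {z : E d × E d | dist z.2 z.1 ≤ ϱ / P} :=
      measurableSet_le (by fun_prop) measurable_const
    exact h2.indicator hm
  have := h3.lintegral_prod_right' (ν := (volume : Measure (E d)))
  simpa only [lintegral_indicator Metric.isClosed_closedBall.measurableSet] using this

/-- BV1b. The mean of the oscillation. -/
theorem osc_L1 (d : ℕ) (ϱ s : ℝ) (hϱ : 0 < ϱ) : ∃ K : ℝ, 0 < K ∧
    ∀ (a : E d → ℂ) (V P : ℝ), 0 < P → 0 ≤ V → Measurable a → BVE d s V a →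
      ∫⁻ y, OO ϱ a P y ≤ ENNReal.ofReal (K * V * P ^ (-s)) := by
  set om : ℝ := volume.real (Metric.closedBall (0 : E d) 1) with hom
  have hom0 : 0 < om := by
    rw [hom, measureReal_def]
    exact ENNReal.toReal_pos (Metric.measure_closedBall_pos _ _ one_pos).ne'
      measure_closedBall_lt_top.ne
  refine ⟨om * ϱ ^ d * (2 * ϱ) ^ ((d : ℝ) + s), by positivity, fun a V P hP hV ham hBV => ?_⟩
  have hr : 0 < 2 * (ϱ / P) := by positivity
  -- the inner integral is at most `G w`
  set G : E d → ℝ≥0∞ := fun w => ∫⁻ v in Metric.closedBall w (2 * (ϱ / P)), ‖a w - a v‖ₑ with hG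
  have hGm : Measurable G := by
    have h1 : Measurable fun z : E d × E d =>
        indicator (Metric.closedBall z.1 (2 * (ϱ / P))) (fun v => ‖a z.1 - a v‖ₑ) z.2 := by
      have hm : MeasurableSet {z : E d × E d | dist z.2 z.1 ≤ 2 * (ϱ / P)} :=
        measurableSet_le (by fun_prop) measurable_const
      have h2 : Measurable fun z : E d × E d => ‖a z.1 - a z.2‖ₑ :=
        ((ham.comp measurable_fst).sub (ham.comp measurable_snd)).enorm
      exact h2.indicator hm
    have := h1.lintegral_prod_right' (ν := (volume : Measure (E d)))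
    simpa only [lintegral_indicator Metric.isClosed_closedBall.measurableSet] using this
  have h1 : ∀ y, OO ϱ a P y ≤ ENNReal.ofReal (P ^ (2 * d)) *
      ∫⁻ w, indicator (Metric.closedBall y (ϱ / P)) G w := by
    intro y
    unfold OO
    rw [lintegral_indicator Metric.isClosed_closedBall.measurableSet]
    refine mul_le_mul_right (setLIntegral_mono' Metric.isClosed_closedBall.measurableSet
      fun w hw => ?_) _
    rw [hG]
    simp only
    have hsub : Metric.closedBall y (ϱ / P) ⊆ Metric.closedBall w (2 * (ϱ / P)) := by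
      refine Metric.closedBall_subset_closedBall' ?_
      rw [Metric.mem_closedBall, dist_comm] at hw
      linarith
    refine (lintegral_mono_set hsub).trans (le_of_eq ?_)
    refine lintegral_congr fun v => ?_
    rw [← enorm_neg, neg_sub]
  have h2 : ∫⁻ y, ∫⁻ w, indicator (Metric.closedBall y (ϱ / P)) G w =
      ENNReal.ofReal (om * (ϱ / P) ^ d) * ∫⁻ w, G w := by
    have hm : Measurable fun z : E d × E d => indicator (Metric.closedBall z.1 (ϱ / P)) G z.2 := by
      have hm : MeasurableSet {z : E d × E d | dist z.2 z.1 ≤ ϱ / P} :=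
        measurableSet_le (by fun_prop) measurable_const
      exact (hGm.comp measurable_snd).indicator hm
    rw [lintegral_lintegral_swap hm.aemeasurable, ← lintegral_const_mul' _ _ ENNReal.ofReal_ne_top]
    refine lintegral_congr fun w => ?_
    have h3 : ∀ y, indicator (Metric.closedBall y (ϱ / P)) G w =
        indicator (Metric.closedBall w (ϱ / P)) (fun _ => G w) y := by
      intro y
      by_cases h : dist w y ≤ ϱ / P
      · rw [indicator_of_mem (by exact h), indicator_of_mem (by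
          rw [Metric.mem_closedBall, dist_comm]; exact h)]
      · rw [indicator_of_notMem (by exact h), indicator_of_notMem (by
          rw [Metric.mem_closedBall, dist_comm]; exact h)]
    simp only [h3]
    rw [lintegral_indicator Metric.isClosed_closedBall.measurableSet, setLIntegral_const,
      mul_comm]
    congr 1
    have h4 := vol_ball_scale (d := d) (P := P / ϱ) (by positivity)
    rw [one_div, inv_div] at h4
    rw [Measure.addHaar_closedBall_center, ← ENNReal.ofReal_toReal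
      (measure_closedBall_lt_top (x := (0 : E d)) (r := ϱ / P)).ne, ← measureReal_def, h4, ← hom]
    congr 1
    rw [div_pow, inv_div, div_pow]
    ring
  calc ∫⁻ y, OO ϱ a P y
      ≤ ∫⁻ y, ENNReal.ofReal (P ^ (2 * d)) *
          ∫⁻ w, indicator (Metric.closedBall y (ϱ / P)) G w := lintegral_mono h1
    _ = ENNReal.ofReal (P ^ (2 * d)) * (ENNReal.ofReal (om * (ϱ / P) ^ d) * ∫⁻ w, G w) := by
        rw [lintegral_const_mul' _ _ ENNReal.ofReal_ne_top, h2]
    _ ≤ ENNReal.ofReal (P ^ (2 * d)) * (ENNReal.ofReal (om * (ϱ / P) ^ d) *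
          ENNReal.ofReal (V * (2 * (ϱ / P)) ^ ((d : ℝ) + s))) := by
        gcongr
        exact hBV _ hr
    _ = ENNReal.ofReal (om * ϱ ^ d * (2 * ϱ) ^ ((d : ℝ) + s) * V * P ^ (-s)) := by
        rw [← ENNReal.ofReal_mul (by positivity), ← ENNReal.ofReal_mul (by positivity)]
        congr 1
        have e1 : (2 * (ϱ / P)) ^ ((d : ℝ) + s) =
            (2 * ϱ) ^ ((d : ℝ) + s) * (P ^ d)⁻¹ * P ^ (-s) := by
          rw [← mul_div_assoc, Real.div_rpow (by positivity) hP.le, div_eq_mul_inv,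
            ← Real.rpow_neg hP.le, neg_add, Real.rpow_add hP, Real.rpow_neg hP.le,
            Real.rpow_natCast]
          ring
        rw [e1, div_pow, pow_mul']
        have : P ^ d ≠ 0 := by positivity
        field_simp

theorem OO_le (d : ℕ) (ϱ : ℝ) (hϱ : 0 < ϱ) : ∃ C : ℝ, 0 < C ∧ ∀ (a : E d → ℂ) (P : ℝ), 0 < P →
    (∀ y, ‖a y‖ ≤ 1) → ∀ y, OO ϱ a P y ≤ ENNReal.ofReal C := by
  set om : ℝ := volume.real (Metric.closedBall (0 : E d) 1) with hom
  have hom0 : 0 ≤ om := measureReal_nonneg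
  refine ⟨2 * (om * ϱ ^ d) ^ 2 + 1, by positivity, fun a P hP ha y => ?_⟩
  have hvol : volume (Metric.closedBall y (ϱ / P)) = ENNReal.ofReal (om * ϱ ^ d / P ^ d) := by
    have h4 := vol_ball_scale (d := d) (P := P / ϱ) (by positivity)
    rw [one_div, inv_div] at h4
    rw [Measure.addHaar_closedBall_center, ← ENNReal.ofReal_toReal
      (measure_closedBall_lt_top (x := (0 : E d)) (r := ϱ / P)).ne, ← measureReal_def, h4, ← hom]
    congr 1
    rw [div_pow, inv_div]
    ring
  have h1 : ∀ w v : E d, ‖a v - a w‖ₑ ≤ ENNReal.ofReal 2 := by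
    intro w v
    rw [← ofReal_norm]
    exact ENNReal.ofReal_le_ofReal ((norm_sub_le _ _).trans (by linarith [ha v, ha w]))
  unfold OO
  calc ENNReal.ofReal (P ^ (2 * d)) * ∫⁻ w in Metric.closedBall y (ϱ / P),
        ∫⁻ v in Metric.closedBall y (ϱ / P), ‖a v - a w‖ₑ
      ≤ ENNReal.ofReal (P ^ (2 * d)) * ∫⁻ _ in Metric.closedBall y (ϱ / P),
        ∫⁻ _ in Metric.closedBall y (ϱ / P), ENNReal.ofReal 2 := by
        gcongr with w v
        exact h1 w v
    _ = ENNReal.ofReal (P ^ (2 * d) * (2 * (om * ϱ ^ d / P ^ d) * (om * ϱ ^ d / P ^ d))) := by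
        rw [setLIntegral_const, setLIntegral_const, hvol, ← ENNReal.ofReal_mul (by norm_num),
          ← ENNReal.ofReal_mul (by positivity), ← ENNReal.ofReal_mul (by positivity)]
    _ ≤ _ := by
        refine ENNReal.ofReal_le_ofReal ?_
        have : P ^ (2 * d) * (2 * (om * ϱ ^ d / P ^ d) * (om * ϱ ^ d / P ^ d)) =
            2 * (om * ϱ ^ d) ^ 2 := by
          rw [pow_mul']
          field_simp
        linarith

theorem mo_ind_zero {d : ℕ} {ρ : E d → ℝ} (hρ : Ker 1 ρ) {P : ℝ} (hP : 0 < P) {D : Set (E d)}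
    {y : E d} (h : ∀ z ∈ D, 1 / P < ‖y - z‖) : mo ρ (indicator D fun _ => (1 : ℂ)) P y = 0 := by
  unfold mo
  rw [← integral_zero (E d) ℂ]
  refine integral_congr_ae (Filter.Eventually.of_forall fun v => ?_)
  by_cases hv : v ∈ D
  · have h1 : v ∉ Metric.closedBall y (1 / P) := by
      rw [Metric.mem_closedBall, dist_comm, dist_eq_norm, not_le]
      exact h v hv
    simp only [mo_hcs hρ hP y v h1, mul_zero, Complex.ofReal_zero, zero_mul]
  · simp [indicator_of_notMem hv]

/-- The classes: the local oscillation is about `2 ^ (-i)`; `i = I` is the rest. -/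
def Dc {d : ℕ} (a : E d → ℂ) (P : ℝ) (I i : ℕ) : Set (E d) :=
  {z | (i < I → ENNReal.ofReal ((2 ^ i)⁻¹) ≤ OO 3 a P z) ∧
    (0 < i → OO 3 a P z < ENNReal.ofReal ((2 ^ (i - 1))⁻¹))}

theorem Dc_part {d : ℕ} (a : E d → ℂ) (P : ℝ) (I : ℕ) (z : E d) :
    ∑ i ∈ Finset.range (I + 1), indicator (Dc a P I i) (fun _ => (1 : ℂ)) z = 1 := by
  classical
  have hex : ∃ i : ℕ, i = I ∨ ENNReal.ofReal ((2 ^ i)⁻¹) ≤ OO 3 a P z := ⟨I, Or.inl rfl⟩
  set i0 := Nat.find hex with hi0
  have hi0I : i0 ≤ I := Nat.find_min' hex (Or.inl rfl)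
  have hspec := Nat.find_spec hex
  rw [Finset.sum_eq_single i0]
  · rw [indicator_of_mem]
    refine ⟨fun h => ?_, fun h => ?_⟩
    · rcases hspec with h1 | h1
      · exact absurd h1 (by rw [← hi0]; omega)
      · exact h1
    · have h2 := Nat.find_min hex (m := i0 - 1) (by rw [← hi0]; omega)
      push Not at h2
      exact h2.2
  · intro i hi hne
    apply indicator_of_notMem
    rintro ⟨k1, k2⟩
    rw [Finset.mem_range] at hi
    rcases lt_or_gt_of_ne hne with hlt | hgt
    · have h2 := Nat.find_min hex (m := i) (by rw [← hi0]; exact hlt)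
      push Not at h2
      exact absurd (k1 (by omega)) (not_le.2 h2.2)
    · have h3 : ENNReal.ofReal ((2 ^ i0)⁻¹) ≤ OO 3 a P z := by
        rcases hspec with h1 | h1
        · exact absurd h1 (by rw [← hi0]; omega)
        · exact h1
      have h4 := k2 (by omega)
      have h5 : ENNReal.ofReal ((2 ^ (i - 1))⁻¹) ≤ ENNReal.ofReal (((2 : ℝ) ^ i0)⁻¹) := by
        refine ENNReal.ofReal_le_ofReal (inv_anti₀ (by positivity) ?_)
        exact pow_le_pow_right₀ (by norm_num) (by omega)
      exact absurd (h4.trans_le h5) (not_lt.2 h3)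
  · intro h
    exact absurd (Finset.mem_range.2 (by omega)) h

theorem measurableSet_Dc {d : ℕ} {a : E d → ℂ} (ha : Measurable a) (P : ℝ) (I i : ℕ) :
    MeasurableSet (Dc a P I i) := by
  have hm := measurable_OO 3 ha P
  have h1 : MeasurableSet {z | i < I → ENNReal.ofReal ((2 ^ i)⁻¹) ≤ OO 3 a P z} := by
    by_cases h : i < I
    · simp only [h, true_implies]
      exact measurableSet_le measurable_const hm
    · simp only [h, false_implies]
      exact MeasurableSet.univ
  have h2 : MeasurableSet {z | 0 < i → OO 3 a P z < ENNReal.ofReal ((2 ^ (i - 1))⁻¹)} := by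
    by_cases h : 0 < i
    · simp only [h, true_implies]
      exact measurableSet_lt hm measurable_const
    · simp only [h, false_implies]
      exact MeasurableSet.univ
  exact h1.inter h2

/-- BV1. Classes of local oscillation. -/
theorem osc_classes_s (d : ℕ) (κ s : ℝ) (hκ : 0 < κ) (η : E d → ℝ) (hη : Ker 1 η)
    (h1 : ∫ v, η v = 1) : ∃ (A : ℕ → ℝ) (K : ℝ), 0 < K ∧
    ∀ (a : E d → ℂ) (V r P : ℝ), 0 ≤ V → 1 ≤ P → Measurable a → (∀ y, ‖a y‖ ≤ 1) →
    (∀ y, r < ‖y‖ → a y = 0) → BVE d s V a → ∀ I : ℕ,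
    ∃ (b : ℕ → E d → ℂ) (Z : ℕ → Set (E d)),
      (∀ y, mf η a P y = ∑ i ∈ Finset.range (I + 1), b i y) ∧
      ∀ i, i ≤ I → AmpR d A (r + 1 / P) P (fun y => ((2 ^ i : ℝ) : ℂ) * b i y) ∧
        MeasurableSet (Z i) ∧ (∀ y, b i y ≠ 0 → Metric.closedBall y (κ / P) ⊆ Z i) ∧
        (i < I → volume (Z i) ≤ ENNReal.ofReal (K * V * 2 ^ i * P ^ (-s))) := by
  obtain ⟨ρ, hρ, hρ0, hρ1⟩ := exists_ker_nn d
  obtain ⟨A1, hA10, hA1⟩ := osc_deriv d η hη h1
  choose A2 hA20 hA2 using fun j => mo_der hρ j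
  obtain ⟨A3, hA3⟩ := mo_amp d η hη
  obtain ⟨C0, hC0, hC0b⟩ := OO_le d 1 one_pos
  obtain ⟨K, hK, hKb⟩ := osc_L1 d (4 + κ) s (by linarith)
  set C1 : ℝ := max 2 C0 with hC1
  have hC10 : 0 < C1 := lt_max_of_lt_left two_pos
  refine ⟨fun j => C1 * ∑ l ∈ Finset.range (j + 1), (j.choose l : ℝ) * A1 l * A2 (j - l), K, hK,
    fun a V r P hV hP ham ha har hBV I => ?_⟩
  have hP0 : 0 < P := by linarith
  have hind : ∀ i y, ‖indicator (Dc a P I i) (fun _ => (1 : ℂ)) y‖ ≤ 1 := by
    intro i y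
    by_cases h : y ∈ Dc a P I i
    · simp [indicator_of_mem h]
    · simp [indicator_of_notMem h]
  have hindm : ∀ i, Measurable (indicator (Dc a P I i) fun _ => (1 : ℂ)) := fun i =>
    measurable_const.indicator (measurableSet_Dc ham P I i)
  set ψ : ℕ → E d → ℂ := fun i => mo ρ (indicator (Dc a P I i) fun _ => (1 : ℂ)) P with hψ
  have hψs : ∀ i, ContDiff ℝ ∞ (ψ i) := fun i => mo_contDiff' hρ (hindm i) (hind i) hP0
  have hψd : ∀ i j y, ‖iteratedFDeriv ℝ j (ψ i) y‖ ≤ A2 j * P ^ j := fun i j y =>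
    hA2 j _ P hP0 (bv1_li (hindm i) (hind i)) (hind i) y
  have hψ1 : ∀ y, ∑ i ∈ Finset.range (I + 1), ψ i y = 1 := by
    intro y
    simp only [hψ]
    unfold mo
    rw [← integral_finsetSum _ fun i _ => bv1_ki hρ (hindm i) (hind i) hP0 y]
    simp only [← Finset.mul_sum, Dc_part, mul_one]
    rw [integral_complex_ofReal, mo_one hρ1 hP0 y]
    simp
  have hamp := (hA3 a r P hP ham ha har).2
  refine ⟨fun i y => mf η a P y * ψ i y, fun i =>
    if i < I then {y | ENNReal.ofReal ((2 ^ i)⁻¹) ≤ OO (4 + κ) a P y} else univ, ?_, ?_⟩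
  · intro y
    rw [← Finset.mul_sum, hψ1, mul_one]
  · intro i hi
    have hψ0 : ∀ y, ψ i y ≠ 0 → ∃ z ∈ Dc a P I i, ‖y - z‖ ≤ 1 / P := by
      intro y hy
      by_contra hcon
      push Not at hcon
      exact hy (mo_ind_zero hρ hP0 hcon)
    refine ⟨⟨?_, ?_, ?_⟩, ?_, ?_, ?_⟩
    · exact contDiff_const.mul (hamp.sm.mul (hψs i))
    · intro y hy
      simp only
      rw [hamp.supp y hy, zero_mul, mul_zero]
    · intro j y
      by_cases hz : ∃ z ∈ Dc a P I i, ‖y - z‖ ≤ 2 / P
      · obtain ⟨z, hzD, hyz⟩ := hz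
        -- the oscillation at `y`
        have h3 : OO 1 a P y ≤ ENNReal.ofReal (C1 * (2 ^ i)⁻¹) := by
          rcases Nat.eq_zero_or_pos i with rfl | hi0
          · refine (hC0b a P hP0 ha y).trans (ENNReal.ofReal_le_ofReal ?_)
            rw [pow_zero, inv_one, mul_one]
            exact le_max_right _ _
          · have h4 : OO 1 a P y ≤ OO 3 a P z := OO_mono a (by
              have : ((3 : ℝ) - 1) / P = 2 / P := by norm_num
              rwa [this])
            refine (h4.trans (hzD.2 hi0).le).trans (ENNReal.ofReal_le_ofReal ?_)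
            have h5 : ((2 : ℝ) ^ (i - 1))⁻¹ = 2 * (2 ^ i)⁻¹ := by
              obtain ⟨k, rfl⟩ : ∃ k, i = k + 1 := ⟨i - 1, by omega⟩
              rw [Nat.add_sub_cancel, pow_succ]
              field_simp
            rw [h5]
            exact mul_le_mul_of_nonneg_right (le_max_left _ _) (by positivity)
        have h4 : ∀ l, ‖iteratedFDeriv ℝ l (mf η a P) y‖ ≤ A1 l * P ^ l * (C1 * (2 ^ i)⁻¹) := by
          intro l
          have h5 := (hA1 a P hP0 ham ha l y).trans (mul_le_mul_right h3 _)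
          have h6 : 0 ≤ A1 l * P ^ l := mul_nonneg (hA10 l) (by positivity)
          rw [← ENNReal.ofReal_mul h6, ← ofReal_norm, ENNReal.ofReal_le_ofReal_iff
            (mul_nonneg h6 (by positivity))] at h5
          exact h5
        have h5 : iteratedFDeriv ℝ j (fun y => ((2 ^ i : ℝ) : ℂ) * (mf η a P y * ψ i y)) y =
            (2 ^ i : ℝ) • iteratedFDeriv ℝ j (fun y => mf η a P y * ψ i y) y := by
          have h6 : (fun y => ((2 ^ i : ℝ) : ℂ) * (mf η a P y * ψ i y)) =
              fun y => (2 ^ i : ℝ) • (mf η a P y * ψ i y) := by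
            funext y
            rw [Complex.real_smul]
          rw [h6]
          exact iteratedFDeriv_const_smul_apply'
            (((hamp.sm.mul (hψs i)).of_le (by exact_mod_cast le_top)).contDiffAt)
        rw [h5, norm_smul, Real.norm_of_nonneg (by positivity)]
        have h6 := norm_iteratedFDeriv_mul_le (n := j) hamp.sm (hψs i) y
          (by exact_mod_cast le_top)
        calc (2 : ℝ) ^ i * ‖iteratedFDeriv ℝ j (fun y => mf η a P y * ψ i y) y‖
            ≤ 2 ^ i * ∑ l ∈ Finset.range (j + 1), (j.choose l : ℝ) *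
                (A1 l * P ^ l * (C1 * (2 ^ i)⁻¹)) * (A2 (j - l) * P ^ (j - l)) := by
              refine mul_le_mul_of_nonneg_left (h6.trans (Finset.sum_le_sum fun l _ => ?_))
                (by positivity)
              exact mul_le_mul (mul_le_mul_of_nonneg_left (h4 l) (Nat.cast_nonneg _))
                (hψd i (j - l) y) (norm_nonneg _)
                (mul_nonneg (Nat.cast_nonneg _) ((norm_nonneg _).trans (h4 l)))
          _ = C1 * (∑ l ∈ Finset.range (j + 1), (j.choose l : ℝ) * A1 l * A2 (j - l)) * P ^ j := by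
              rw [Finset.mul_sum, Finset.mul_sum, Finset.sum_mul]
              refine Finset.sum_congr rfl fun l hl => ?_
              rw [Finset.mem_range] at hl
              have h9 : P ^ j = P ^ l * P ^ (j - l) := by
                rw [← pow_add]
                congr 1
                omega
              rw [h9]
              field_simp
      · push Not at hz
        have h3 : (fun y => ((2 ^ i : ℝ) : ℂ) * (mf η a P y * ψ i y)) =ᶠ[nhds y] fun _ => 0 := by
          filter_upwards [Metric.ball_mem_nhds y (ε := 1 / P) (by positivity)] with y' hy'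
          have h4 : ψ i y' = 0 := by
            refine mo_ind_zero hρ hP0 fun z hzD => ?_
            have h5 := hz z hzD
            rw [Metric.mem_ball, dist_comm, dist_eq_norm] at hy'
            have h6 : ‖y - z‖ ≤ ‖y - y'‖ + ‖y' - z‖ := by
              have := norm_add_le (y - y') (y' - z)
              rwa [sub_add_sub_cancel] at this
            have h7 : 2 / P = 1 / P + 1 / P := by ring
            linarith
          rw [h4, mul_zero, mul_zero]
        rw [(h3.iteratedFDeriv ℝ j).eq_of_nhds, iteratedFDeriv_fun_zero]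
        simp only [Pi.zero_apply, norm_zero]
        have h8 : 0 ≤ ∑ l ∈ Finset.range (j + 1), (j.choose l : ℝ) * A1 l * A2 (j - l) :=
          Finset.sum_nonneg fun l _ => mul_nonneg (mul_nonneg (Nat.cast_nonneg _) (hA10 l))
            (hA20 _)
        positivity
    · simp only
      split_ifs with h
      · exact measurableSet_le measurable_const (measurable_OO _ ham P)
      · exact MeasurableSet.univ
    · intro y hy
      simp only
      split_ifs with h
      · obtain ⟨z, hzD, hyz⟩ := hψ0 y (right_ne_zero_of_mul hy)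
        intro y' hy'
        refine (hzD.1 h).trans (OO_mono a ?_)
        rw [Metric.mem_closedBall, dist_eq_norm] at hy'
        have h6 : ‖z - y'‖ ≤ ‖z - y‖ + ‖y - y'‖ := by
          have := norm_add_le (z - y) (y - y')
          rwa [sub_add_sub_cancel] at this
        rw [norm_sub_rev z y, norm_sub_rev y y'] at h6
        have h7 : (4 + κ - 3) / P = 1 / P + κ / P := by ring
        linarith
      · exact subset_univ _
    · intro hiI
      simp only [hiI, if_true]
      have h2 : (0 : ℝ) < (2 ^ i)⁻¹ := by positivity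
      have h3 := mul_meas_ge_le_lintegral (μ := volume) (measurable_OO (4 + κ) ham P)
        (ENNReal.ofReal ((2 ^ i)⁻¹))
      have h4 := h3.trans (hKb a V P hP0 hV ham hBV)
      calc volume {y | ENNReal.ofReal ((2 ^ i)⁻¹) ≤ OO (4 + κ) a P y}
          = ENNReal.ofReal (2 ^ i) * (ENNReal.ofReal ((2 ^ i)⁻¹) *
              volume {y | ENNReal.ofReal ((2 ^ i)⁻¹) ≤ OO (4 + κ) a P y}) := by
            rw [← mul_assoc, ← ENNReal.ofReal_mul (by positivity), mul_inv_cancel₀ (by positivity),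
              ENNReal.ofReal_one, one_mul]
        _ ≤ ENNReal.ofReal (2 ^ i) * ENNReal.ofReal (K * V * P ^ (-s)) := mul_le_mul_right h4 _
        _ = _ := by
            rw [← ENNReal.ofReal_mul (by positivity)]
            congr 1
            ring

/-- BV1, order one, in the form of the skeleton. -/
theorem osc_classes (d : ℕ) (η : E d → ℝ) (hη : Ker 1 η) (_hη0 : ∀ v, 0 ≤ η v)
    (hη1 : ∫ v, η v = 1) (κ0 r V : ℝ) (hκ0 : 0 < κ0) (hr : 0 < r) (hV : 0 ≤ V) :
    ∃ (A' : ℕ → ℝ) (K : ℝ), 0 < K ∧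
    ∀ (a : E d → ℂ) (P : ℝ) (I : ℕ), 1 ≤ P → P ≤ 2 ^ I → Measurable a → (∀ y, ‖a y‖ ≤ 1) →
      (∀ y, r < ‖y‖ → a y = 0) → BVE d 1 V a → ∃ (f : ℕ → E d → ℂ) (G : ℕ → Set (E d)),
        (∀ y, mf η a P y = ∑ i ∈ Finset.range (I + 1), ((((2 : ℝ) ^ i)⁻¹ : ℝ) : ℂ) * f i y) ∧
        ∀ i ≤ I, AmpR d A' (r + 1 / P) P (f i) ∧ MeasurableSet (G i) ∧
          (∀ y, f i y ≠ 0 → Metric.closedBall y (κ0 / P) ⊆ G i) ∧
          volume (G i) ≤ ENNReal.ofReal (K * 2 ^ i / P) := by
  obtain ⟨A, K, hK, H⟩ := osc_classes_s d κ0 1 hκ0 η hη hη1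
  set U : ℝ := (volume (Metric.closedBall (0 : E d) (r + 1 + κ0))).toReal with hU
  have hU0 : 0 ≤ U := ENNReal.toReal_nonneg
  refine ⟨A, K * V + U + 1, by positivity, fun a P I hP hPI ham ha har hBV => ?_⟩
  have hP0 : 0 < P := by linarith
  obtain ⟨b, Z, h1, h2⟩ := H a V r P hV hP ham ha har hBV I
  refine ⟨fun i y => ((2 ^ i : ℝ) : ℂ) * b i y, fun i => if i < I then Z i else
    Metric.closedBall 0 (r + 1 + κ0), fun y => ?_, fun i hi => ?_⟩
  · rw [h1 y]
    refine Finset.sum_congr rfl fun i _ => ?_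
    rw [← mul_assoc, ← Complex.ofReal_mul, inv_mul_cancel₀ (by positivity), Complex.ofReal_one,
      one_mul]
  · obtain ⟨k1, k2, k3, k4⟩ := h2 i hi
    refine ⟨k1, ?_, ?_, ?_⟩
    · simp only
      split_ifs with h
      · exact k2
      · exact Metric.isClosed_closedBall.measurableSet
    · intro y hy
      simp only
      split_ifs with h
      · exact k3 y (right_ne_zero_of_mul hy)
      · have h3 : ‖y‖ ≤ r + 1 / P := by
          by_contra hcon
          exact hy (k1.supp y (not_le.1 hcon))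
        refine Metric.closedBall_subset_closedBall' ?_
        rw [dist_zero_right]
        have h4 : κ0 / P ≤ κ0 := div_le_self hκ0.le hP
        have h5 : 1 / P ≤ 1 := by
          rw [div_le_one hP0]
          exact hP
        linarith
    · simp only
      split_ifs with h
      · refine (k4 h).trans (ENNReal.ofReal_le_ofReal ?_)
        rw [Real.rpow_neg_one, ← div_eq_mul_inv]
        have h5 : (0 : ℝ) ≤ 2 ^ i / P := by positivity
        have h6 : K * V * 2 ^ i / P = K * V * (2 ^ i / P) := by ring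
        have h7 : (K * V + U + 1) * 2 ^ i / P = (K * V + U + 1) * (2 ^ i / P) := by ring
        rw [h6, h7]
        exact mul_le_mul_of_nonneg_right (by linarith) h5
      · have hiI : i = I := by omega
        rw [← ENNReal.ofReal_toReal (measure_closedBall_lt_top (x := (0 : E d))
          (r := r + 1 + κ0)).ne]
        refine ENNReal.ofReal_le_ofReal ?_
        have h5 : (1 : ℝ) ≤ 2 ^ i / P := by
          rw [one_le_div hP0, hiI]
          exact hPI
        have h7 : (K * V + U + 1) * 2 ^ i / P = (K * V + U + 1) * (2 ^ i / P) := by ring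
        rw [h7, ← hU]
        have h8 : 0 ≤ K * V := by positivity
        nlinarith

end Pool.Agent.GNP
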