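import Pool.Agent.GNP.WG
import Pool.Agent.GNP.Defs4

/-!
The Wigner lemma for the wave packets at the scale `1/R`.
-/

namespace Pool.Agent.GNP

open MeasureTheory Set Pool.Agent.MP_6cbfb8_an
open scoped ENNReal Real RealInnerProductSpace ContDiff

/-- The phase in the rescaled variable. -/
noncomputable def psc {d : ℕ} (q : E d → ℝ) (R : ℝ) (z x v : E d) : ℝ :=
  q (z + R⁻¹ • v) - ⟪x, z + R⁻¹ • v⟫

theorem contDiff_psc {d : ℕ} {q : E d → ℝ} (hq : ContDiff ℝ ∞ q) (R : ℝ) (z x : E d) :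
    ContDiff ℝ ∞ (psc q R z x) := by
  have h1 : ContDiff ℝ ∞ fun v : E d => z + R⁻¹ • v := contDiff_const.add (contDiff_id.const_smul _)
  unfold psc
  exact (hq.comp h1).sub (contDiff_const.inner ℝ h1)

theorem hasFDerivAt_psc {d : ℕ} {q : E d → ℝ} (hq : ContDiff ℝ ∞ q) (R : ℝ) (z x v : E d) :
    HasFDerivAt (psc q R z x) (fderiv ℝ (fun v => q (z + R⁻¹ • v)) v - R⁻¹ • innerSL ℝ x) v := by
  have h1 : ContDiff ℝ ∞ fun v : E d => q (z + R⁻¹ • v) :=
    hq.comp (contDiff_const.add (contDiff_id.const_smul _))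
  have h2 : HasFDerivAt (fun v : E d => ⟪x, z + R⁻¹ • v⟫) (R⁻¹ • innerSL ℝ x) v := by
    have h3 : (fun v : E d => ⟪x, z + R⁻¹ • v⟫) =
        fun v => ⟪x, z⟫ + (R⁻¹ • innerSL ℝ x : E d →L[ℝ] ℝ) v := by
      funext w
      rw [inner_add_right, inner_smul_right]
      simp
    rw [h3]
    exact (R⁻¹ • innerSL ℝ x : E d →L[ℝ] ℝ).hasFDerivAt.const_add _
  exact ((h1.differentiable (by simp)) v).hasFDerivAt.sub h2

theorem gr_psc {d : ℕ} {q : E d → ℝ} (hq : ContDiff ℝ ∞ q) (R : ℝ) (z x v : E d) :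
    gr (psc q R z x) v = R⁻¹ • (gr q (z + R⁻¹ • v) - x) := by
  have h8 : HasFDerivAt (fun v : E d => z + R⁻¹ • v) (R⁻¹ • ContinuousLinearMap.id ℝ (E d)) v :=
    ((hasFDerivAt_id v).const_smul R⁻¹).const_add z
  have h9 : HasFDerivAt q (fderiv ℝ q (z + R⁻¹ • v)) ((fun v : E d => z + R⁻¹ • v) v) :=
    ((hq.differentiable (by simp)) _).hasFDerivAt
  have h10 := (h9.comp v h8).fderiv
  have h11 := (hasFDerivAt_psc hq R z x v).fderiv
  refine ext_inner_right ℝ fun w => ?_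
  rw [inner_gr, h11, inner_smul_left, inner_sub_left, inner_gr]
  have h12 : fderiv ℝ (fun v => q (z + R⁻¹ • v)) v w = R⁻¹ * fderiv ℝ q (z + R⁻¹ • v) w := by
    change fderiv ℝ (q ∘ fun v => z + R⁻¹ • v) v w = _
    rw [h10]
    simp
  simp only [sub_apply, smul_apply, smul_eq_mul, innerSL_apply_apply, h12, conj_trivial]
  ring

theorem iter_psc {d : ℕ} {q : E d → ℝ} (hq : ContDiff ℝ ∞ q) {R : ℝ} (hR : 0 < R) (z x v : E d)
    {j : ℕ} (hj : 2 ≤ j) {B : ℝ} (hB : ‖iteratedFDeriv ℝ j q (z + R⁻¹ • v)‖ ≤ B * R ^ j) :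
    ‖iteratedFDeriv ℝ j (psc q R z x) v‖ ≤ B := by
  obtain ⟨i, rfl⟩ : ∃ i, j = i + 1 := ⟨j - 1, by omega⟩
  have h1 : ContDiff ℝ ∞ fun v : E d => q (z + R⁻¹ • v) :=
    hq.comp (contDiff_const.add (contDiff_id.const_smul _))
  have hf : fderiv ℝ (psc q R z x) =
      fun v => fderiv ℝ (fun v => q (z + R⁻¹ • v)) v - R⁻¹ • innerSL ℝ x :=
    funext fun v => (hasFDerivAt_psc hq R z x v).fderiv
  rw [← norm_iteratedFDeriv_fderiv, hf]
  have h3 : iteratedFDeriv ℝ i (fun v => fderiv ℝ (fun v => q (z + R⁻¹ • v)) v -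
      R⁻¹ • innerSL ℝ x) v = iteratedFDeriv ℝ i (fderiv ℝ (fun v => q (z + R⁻¹ • v))) v := by
    have h4 : ContDiff ℝ ∞ (fderiv ℝ (fun v : E d => q (z + R⁻¹ • v))) :=
      h1.fderiv_right (by simp)
    have h5 := iteratedFDeriv_sub_apply (𝕜 := ℝ) (i := i) (x := v)
      (f := fderiv ℝ (fun v : E d => q (z + R⁻¹ • v)))
      (g := fun _ => (R⁻¹ • innerSL ℝ x : E d →L[ℝ] ℝ))
      (h4.contDiffAt.of_le (by exact_mod_cast le_top)) contDiffAt_const
    rw [show (fun v => fderiv ℝ (fun v => q (z + R⁻¹ • v)) v - R⁻¹ • innerSL ℝ x) =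
      fderiv ℝ (fun v : E d => q (z + R⁻¹ • v)) - fun _ => (R⁻¹ • innerSL ℝ x : E d →L[ℝ] ℝ)
      from rfl, h5, iteratedFDeriv_const_of_ne (by omega)]
    simp
  rw [h3, norm_iteratedFDeriv_fderiv]
  refine (iter_affine hq z R⁻¹ (i + 1) v).trans ?_
  rw [abs_of_pos (inv_pos.2 hR)]
  calc (R⁻¹) ^ (i + 1) * ‖iteratedFDeriv ℝ (i + 1) q (z + R⁻¹ • v)‖
      ≤ (R⁻¹) ^ (i + 1) * (B * R ^ (i + 1)) := mul_le_mul_of_nonneg_left hB (by positivity)
    _ = B := by
      rw [inv_pow]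
      field_simp

/-- The Wigner lemma for wave packets. -/
theorem uz_wt (d N : ℕ) (A : ℕ → ℝ) (κ : ℝ) (hκ : 0 < κ) (ρ : E d → ℝ) (hρ : Ker κ ρ) :
    ∃ C : ℝ, 0 < C ∧
    ∀ (a : E d → ℂ) (q : E d → ℝ) (R : ℝ) (z x : E d), 0 < R → ContDiff ℝ ∞ a → ContDiff ℝ ∞ q →
    (∀ y, ‖y - z‖ ≤ κ / R → ∀ j, ‖iteratedFDeriv ℝ j a y‖ ≤ A j * R ^ j) →
    (∀ y, ‖y - z‖ ≤ κ / R → ∀ j, 3 ≤ j → ‖iteratedFDeriv ℝ j q y‖ ≤ A j * R ^ j) →
    ‖uz ρ a q R z x‖ₑ ^ 2 ≤ ENNReal.ofReal (C * R ^ d) *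
      ∫⁻ y in Metric.closedBall z (κ / R), ENNReal.ofReal (wt N q R x y) := by
  -- bounds of the kernel
  have hρc : ContDiff ℝ ∞ fun v => (ρ v : ℂ) := Complex.ofRealCLM.contDiff.comp hρ.sm
  have hcs : HasCompactSupport fun v => (ρ v : ℂ) :=
    HasCompactSupport.intro (isCompact_closedBall (0 : E d) κ) (fun z hz => by
      rw [Metric.mem_closedBall, dist_zero_right, not_le] at hz
      simp [hρ.supp z hz])
  have hkb : ∀ j, ∃ B : ℝ, ∀ z, ‖iteratedFDeriv ℝ j (fun v => (ρ v : ℂ)) z‖ ≤ B := fun j =>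
    (hcs.iteratedFDeriv j).exists_bound_of_continuous
      (hρc.continuous_iteratedFDeriv (by exact_mod_cast le_top))
  choose Bk hBk using hkb
  set A' : ℕ → ℝ := fun N => |A N| + 2 ^ N * ((∑ j ∈ Finset.range (N + 1), |Bk j|) *
    ∑ j ∈ Finset.range (N + 1), |A j|) with hA'
  have hnn : ∀ N, 0 ≤ 2 ^ N * ((∑ j ∈ Finset.range (N + 1), |Bk j|) *
      ∑ j ∈ Finset.range (N + 1), |A j|) := fun N =>
    mul_nonneg (by positivity) (mul_nonneg (Finset.sum_nonneg fun _ _ => abs_nonneg _)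
      (Finset.sum_nonneg fun _ _ => abs_nonneg _))
  obtain ⟨C, hC0, hC⟩ := wigner d N A' κ hκ
  refine ⟨C, hC0, fun a q R z x hR ha hq hab hqb => ?_⟩
  have haff : ContDiff ℝ ∞ fun v : E d => z + R⁻¹ • v :=
    contDiff_const.add (contDiff_id.const_smul _)
  have hball : ∀ v : E d, ‖v‖ ≤ κ → ‖z + R⁻¹ • v - z‖ ≤ κ / R := by
    intro v hv
    rw [add_sub_cancel_left, norm_smul, Real.norm_of_nonneg (by positivity), div_eq_inv_mul]
    gcongr
  set b : E d → ℂ := fun v => (ρ v : ℂ) * a (z + R⁻¹ • v) with hb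
  have hbc : ContDiff ℝ ∞ b := hρc.mul (ha.comp haff)
  have hb0 : ∀ v, κ < ‖v‖ → b v = 0 := by
    intro v hv
    simp [hb, hρ.supp v hv]
  have hbb : ∀ j v, ‖iteratedFDeriv ℝ j b v‖ ≤ A' j := by
    intro j v
    by_cases hv : ‖v‖ ≤ κ
    · have h1 := mul_bd hρc (ha.comp haff) j (∑ j ∈ Finset.range (j + 1), |Bk j|)
        (∑ j ∈ Finset.range (j + 1), |A j|) v (fun i hi => ?_) (fun i hi => ?_) j le_rfl
      · refine h1.trans ?_
        rw [hA']
        simp only
        linarith [abs_nonneg (A j)]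
      · exact (hBk i v).trans ((le_abs_self _).trans (Finset.single_le_sum (f := fun j => |Bk j|)
          (fun _ _ => abs_nonneg _) (Finset.mem_range.2 (by omega))))
      · refine (iter_affine ha z R⁻¹ i v).trans ?_
        have h2 := hab _ (hball v hv) i
        have h3 : |A i| ≤ ∑ j ∈ Finset.range (j + 1), |A j| := Finset.single_le_sum
          (f := fun j => |A j|) (fun _ _ => abs_nonneg _) (Finset.mem_range.2 (by omega))
        refine le_trans ?_ ((le_abs_self _).trans h3)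
        rw [abs_of_pos (inv_pos.2 hR)]
        calc (R⁻¹) ^ i * ‖iteratedFDeriv ℝ i a (z + R⁻¹ • v)‖
            ≤ (R⁻¹) ^ i * (A i * R ^ i) := mul_le_mul_of_nonneg_left h2 (by positivity)
          _ = A i := by
            rw [inv_pow]
            field_simp
    · rw [not_le] at hv
      have h1 : b =ᶠ[nhds v] fun _ => 0 := by
        have : {w : E d | κ < ‖w‖} ∈ nhds v :=
          (isOpen_lt continuous_const continuous_norm).mem_nhds hv
        filter_upwards [this] with w hw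
        exact hb0 w hw
      rw [(Filter.EventuallyEq.iteratedFDeriv (𝕜 := ℝ) h1 j).self_of_nhds]
      have h2 : iteratedFDeriv ℝ j (fun _ : E d => (0 : ℂ)) v = 0 := by
        simp
      rw [h2, norm_zero, hA']
      simp only
      linarith [abs_nonneg (A j), hnn j]
  have hφb : ∀ v, ‖v‖ ≤ κ → ∀ j, 3 ≤ j → ‖iteratedFDeriv ℝ j (psc q R z x) v‖ ≤ A' j := by
    intro v hv j hj
    refine (iter_psc hq hR z x v (by omega) (hqb _ (hball v hv) j hj)).trans ?_
    rw [hA']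
    simp only
    linarith [le_abs_self (A j), hnn j]
  have hW := hC b (psc q R z x) hbc (contDiff_psc hq R z x) hb0 hbb hφb
  -- change of variables on the left
  have hL : uz ρ a q R z x = ∫ v, b v * Complex.exp ((psc q R z x v : ℂ) * Complex.I) := by
    set H : E d → ℂ := fun y => ((R ^ d * ρ (R • (y - z)) : ℝ) : ℂ) * a y *
      Complex.exp (((q y - ⟪x, y⟫ : ℝ) : ℂ) * Complex.I) with hH
    have h3 : ∫ v, H (z + R⁻¹ • v) = |((R⁻¹) ^ d)⁻¹| • ∫ y, H y := by
      have h4 := Measure.integral_comp_smul (volume : Measure (E d)) (fun w => H (z + w)) R⁻¹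
      rw [h4, finrank_euclideanSpace, Fintype.card_fin, integral_add_left_eq_self H z]
    have h5 : ∀ v, H (z + R⁻¹ • v) = ((R ^ d : ℝ) : ℂ) *
        (b v * Complex.exp ((psc q R z x v : ℂ) * Complex.I)) := by
      intro v
      have h6 : R • (z + R⁻¹ • v - z) = v := by
        rw [add_sub_cancel_left, smul_smul, mul_inv_cancel₀ hR.ne', one_smul]
      simp only [hH, h6, hb, psc]
      push_cast
      ring
    have h6 : uz ρ a q R z x = ∫ y, H y := rfl
    have h7 : ∫ y, H y = ((R ^ d)⁻¹ : ℝ) • ∫ v, H (z + R⁻¹ • v) := by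
      rw [h3, smul_smul, inv_pow, inv_inv, abs_of_pos (by positivity),
        inv_mul_cancel₀ (by positivity), one_smul]
    rw [h6, h7]
    simp_rw [h5]
    rw [integral_const_mul, Complex.real_smul, ← mul_assoc, ← Complex.ofReal_mul,
      inv_mul_cancel₀ (by positivity), Complex.ofReal_one, one_mul]
  rw [← hL] at hW
  have hgc : ∀ q : E d → ℝ, ContDiff ℝ ∞ q → Continuous (gr q) := by
    intro q hq
    rw [gr_eq]
    exact (P0J d).continuous.comp (hq.continuous_fderiv (by simp))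
  have hcont : Continuous fun w => ((1 + ‖gr (psc q R z x) w‖) ^ N)⁻¹ := by
    have := hgc _ (contDiff_psc hq R z x)
    refine Continuous.inv₀ (by fun_prop) fun w => ?_
    positivity
  have hW2 : ‖uz ρ a q R z x‖ₑ ^ 2 ≤ ENNReal.ofReal C * ∫⁻ w in Metric.closedBall (0 : E d) κ,
      ENNReal.ofReal (((1 + ‖gr (psc q R z x) w‖) ^ N)⁻¹) := by
    rw [← ofReal_integral_eq_lintegral_ofReal
      (hcont.continuousOn.integrableOn_compact (isCompact_closedBall 0 κ))
      (Filter.Eventually.of_forall fun w => by positivity), ← ENNReal.ofReal_mul hC0.le,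
      ← ofReal_norm, ← ENNReal.ofReal_pow (norm_nonneg _)]
    exact ENNReal.ofReal_le_ofReal hW
  refine hW2.trans ?_
  -- change of variables on the right
  have hg : ∀ w, ENNReal.ofReal (((1 + ‖gr (psc q R z x) w‖) ^ N)⁻¹) =
      ENNReal.ofReal (wt N q R x (z + R⁻¹ • w)) := by
    intro w
    rw [gr_psc hq, norm_smul, Real.norm_of_nonneg (by positivity), wt, div_eq_inv_mul]
  have hI : ∫⁻ w in Metric.closedBall (0 : E d) κ,
      ENNReal.ofReal (((1 + ‖gr (psc q R z x) w‖) ^ N)⁻¹) =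
      ENNReal.ofReal (R ^ d) * ∫⁻ y in Metric.closedBall z (κ / R),
        ENNReal.ofReal (wt N q R x y) := by
    simp only [hg]
    set W : E d → ℝ≥0∞ := (Metric.closedBall z (κ / R)).indicator
      fun y => ENNReal.ofReal (wt N q R x y) with hW
    rw [← lintegral_indicator Metric.isClosed_closedBall.measurableSet,
      ← lintegral_indicator Metric.isClosed_closedBall.measurableSet]
    have h1 : (Metric.closedBall (0 : E d) κ).indicator
        (fun w => ENNReal.ofReal (wt N q R x (z + R⁻¹ • w))) = fun w => W (z + R⁻¹ • w) := by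
      funext w
      by_cases hw : w ∈ Metric.closedBall (0 : E d) κ
      · rw [indicator_of_mem hw, hW, indicator_of_mem]
        rw [mem_closedBall_iff_norm]
        exact hball w (by simpa using hw)
      · rw [indicator_of_notMem hw, hW, indicator_of_notMem]
        rw [mem_closedBall_iff_norm, add_sub_cancel_left, norm_smul,
          Real.norm_of_nonneg (by positivity), not_le, div_eq_inv_mul]
        rw [mem_closedBall_zero_iff, not_le] at hw
        exact mul_lt_mul_of_pos_left hw (by positivity)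
    rw [h1]
    have hR0 : R⁻¹ ≠ 0 := (inv_pos.2 hR).ne'
    have h := (Homeomorph.smulOfNeZero R⁻¹ hR0).measurableEmbedding.lintegral_map
      (μ := (volume : Measure (E d))) (fun w => W (z + w))
    have h2 : Measure.map (Homeomorph.smulOfNeZero R⁻¹ hR0 : E d → E d) volume =
        ENNReal.ofReal |(R⁻¹ ^ Module.finrank ℝ (E d))⁻¹| • volume :=
      Measure.map_addHaar_smul volume hR0
    have h3 : ∫⁻ w, W (z + R⁻¹ • w) =
        ∫⁻ w, (fun w => W (z + w)) ((Homeomorph.smulOfNeZero R⁻¹ hR0 : E d → E d) w) := rfl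
    rw [h3, ← h, h2, lintegral_smul_measure, smul_eq_mul, finrank_euclideanSpace_fin, inv_pow,
      inv_inv, abs_of_pos (by positivity), lintegral_add_left_eq_self W z]
  rw [hI, ← mul_assoc, ← ENNReal.ofReal_mul hC0.le]

end Pool.Agent.GNP
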