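import Pool.Agent.GNP.Defs4
import Pool.Agent.GNP.AAC

/-!
AP4, LOC (b): the square root of the average of the weight.
-/

namespace Pool.Agent.GNP

open MeasureTheory Set Pool.Agent.MP_6cbfb8_an
open scoped ENNReal Real RealInnerProductSpace ContDiff Pointwise

theorem loc_half (d M : ℕ) (κ : ℝ) (hκ : 0 < κ) (A3 : ℝ) (hA : 0 ≤ A3) : ∃ C : ℝ, 0 < C ∧
    ∀ (q : E d → ℝ) (R β : ℝ) (z x : E d), ContDiff ℝ ∞ q → 1 ≤ R → 1 ≤ β →
      (∀ y ∈ Metric.closedBall z (2 * κ / R), ‖iteratedFDeriv ℝ 3 q y‖ ≤ A3 * R ^ 3) →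
      (∀ y ∈ Metric.closedBall z (κ / R),
        ENNReal.ofReal β⁻¹ ≤ volume {v : E d | ‖v‖ ≤ 1 ∧ ‖Hs q y v‖ ≤ R ^ 2}) →
      (ENNReal.ofReal (R ^ d) * ∫⁻ y in Metric.closedBall z (κ / R),
        ENNReal.ofReal (wt (2 * M) q R x y)) ^ (1 / 2 : ℝ) ≤
      ENNReal.ofReal (C * √β * R ^ d) * ∫⁻ y in Metric.closedBall z (2 * κ / R),
        ENNReal.ofReal (wt M q R x y) := by
  set s : ℝ := min κ 1 with hs
  have hs0 : 0 < s := lt_min hκ one_pos
  have hsκ : s ≤ κ := min_le_left _ _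
  have hs1 : s ≤ 1 := min_le_right _ _
  set c : ℝ := s ^ d * ((2 + A3) ^ M)⁻¹ with hc
  have hc0 : 0 < c := by positivity
  refine ⟨√(c⁻¹), Real.sqrt_pos.2 (inv_pos.2 hc0), ?_⟩
  intro q R β z x hq hR hβ h3 hV
  have hR0 : 0 < R := by linarith
  have hβ0 : 0 < β := by linarith
  set B1 : Set (E d) := Metric.closedBall z (κ / R) with hB1
  set B2 : Set (E d) := Metric.closedBall z (2 * κ / R) with hB2
  have h12 : B1 ⊆ B2 := Metric.closedBall_subset_closedBall
    (div_le_div_of_nonneg_right (by linarith) hR0.le)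
  have hgr : Continuous (gr q) :=
    continuous_iff_continuousAt.2 fun y => (hasFDerivAt_gr hq y).continuousAt
  -- the point where the weight is largest
  obtain ⟨y0, hy0, hmin⟩ := (isCompact_closedBall z (κ / R)).exists_isMinOn
    ⟨z, Metric.mem_closedBall_self (by positivity)⟩
    (f := fun y => ‖gr q y - x‖) (by fun_prop)
  set D0 : ℝ := ‖gr q y0 - x‖ / R with hD0
  have hD00 : 0 ≤ D0 := by positivity
  set m0 : ℝ := ((1 + D0) ^ M)⁻¹ with hm0
  have hm00 : 0 < m0 := by positivity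
  have hle : ∀ y ∈ B1, wt M q R x y ≤ m0 := by
    intro y hy
    unfold wt
    refine inv_anti₀ (by positivity) (pow_le_pow_left₀ (by positivity) ?_ M)
    have h1 : ‖gr q y0 - x‖ ≤ ‖gr q y - x‖ := hmin hy
    have h2 : D0 ≤ ‖gr q y - x‖ / R := div_le_div_of_nonneg_right h1 hR0.le
    linarith
  have hwm : Measurable fun y => ENNReal.ofReal (wt M q R x y) := by
    unfold wt
    have := hgr.measurable
    fun_prop
  set I : ℝ≥0∞ := ∫⁻ y in B2, ENNReal.ofReal (wt M q R x y) with hI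
  have hw2 : ∀ y, wt (2 * M) q R x y = wt M q R x y * wt M q R x y := by
    intro y
    unfold wt
    rw [← mul_inv, ← pow_add]
    congr 2
    omega
  -- the upper bound
  have hup : ∫⁻ y in B1, ENNReal.ofReal (wt (2 * M) q R x y) ≤ ENNReal.ofReal m0 * I := by
    calc ∫⁻ y in B1, ENNReal.ofReal (wt (2 * M) q R x y)
        ≤ ∫⁻ y in B1, ENNReal.ofReal m0 * ENNReal.ofReal (wt M q R x y) := by
          refine setLIntegral_mono' measurableSet_closedBall fun y hy => ?_
          rw [hw2, ← ENNReal.ofReal_mul hm00.le]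
          refine ENNReal.ofReal_le_ofReal (mul_le_mul_of_nonneg_right (hle y hy) ?_)
          unfold wt
          positivity
      _ = ENNReal.ofReal m0 * ∫⁻ y in B1, ENNReal.ofReal (wt M q R x y) :=
          lintegral_const_mul' _ _ ENNReal.ofReal_ne_top
      _ ≤ _ := mul_le_mul_right (lintegral_mono_set h12) _
  -- the lower bound
  set V : Set (E d) := {v : E d | ‖v‖ ≤ 1 ∧ ‖Hs q y0 v‖ ≤ R ^ 2} with hVd
  set S : Set (E d) := y0 +ᵥ ((s / R) • V) with hS
  set m1 : ℝ := ((2 + A3) ^ M)⁻¹ * m0 with hm1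
  have hm10 : 0 < m1 := by positivity
  have hSB : ∀ y ∈ S, y ∈ B2 ∧ m1 ≤ wt M q R x y := by
    rintro y ⟨u, ⟨v, hv, rfl⟩, rfl⟩
    simp only [vadd_eq_add]
    obtain ⟨hv1, hv2⟩ := hv
    have hn : ‖(s / R) • v‖ ≤ s / R := by
      rw [norm_smul, Real.norm_of_nonneg (by positivity)]
      exact mul_le_of_le_one_right (by positivity) hv1
    have hy0' : ‖y0 - z‖ ≤ κ / R := by rw [← dist_eq_norm]; exact hy0
    have hin : ‖y0 + (s / R) • v - z‖ ≤ 2 * κ / R := by
      have h4 : y0 + (s / R) • v - z = (y0 - z) + (s / R) • v := by abel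
      rw [h4]
      calc ‖(y0 - z) + (s / R) • v‖ ≤ ‖y0 - z‖ + ‖(s / R) • v‖ := norm_add_le _ _
        _ ≤ κ / R + s / R := add_le_add hy0' hn
        _ ≤ κ / R + κ / R := by gcongr
        _ = 2 * κ / R := by ring
    refine ⟨by rw [hB2, Metric.mem_closedBall, dist_eq_norm]; exact hin, ?_⟩
    have hta := gr_taylor_loc hq (z := z) (ρ := 2 * κ / R) (B := A3 * R ^ 3)
      (fun y hy => h3 y (by rw [Metric.mem_closedBall, dist_eq_norm]; exact hy))
      (y := y0 + (s / R) • v) (y' := y0) hin (hy0'.trans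
        (div_le_div_of_nonneg_right (by linarith) hR0.le))
    rw [add_sub_cancel_left] at hta
    have h5 : ‖Hs q y0 ((s / R) • v)‖ ≤ R := by
      rw [map_smul, norm_smul, Real.norm_of_nonneg (by positivity)]
      calc s / R * ‖Hs q y0 v‖ ≤ 1 / R * R ^ 2 := by gcongr
        _ = R := by field_simp
    have h6 : A3 * R ^ 3 * ‖(s / R) • v‖ ^ 2 ≤ A3 * R := by
      calc A3 * R ^ 3 * ‖(s / R) • v‖ ^ 2 ≤ A3 * R ^ 3 * (1 / R) ^ 2 := by
            gcongr
            exact hn.trans (div_le_div_of_nonneg_right hs1 hR0.le)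
        _ = A3 * R := by field_simp
    have h7 : ‖gr q (y0 + (s / R) • v) - x‖ ≤ ‖gr q y0 - x‖ + R + A3 * R := by
      have h8 : gr q (y0 + (s / R) • v) - x = (gr q y0 - x) + Hs q y0 ((s / R) • v) +
          (gr q (y0 + (s / R) • v) - gr q y0 - Hs q y0 ((s / R) • v)) := by abel
      rw [h8]
      refine (norm_add_le _ _).trans (add_le_add ((norm_add_le _ _).trans (by linarith)) ?_)
      exact hta.trans h6
    have h9 : ‖gr q (y0 + (s / R) • v) - x‖ / R ≤ D0 + 1 + A3 := by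
      rw [div_le_iff₀ hR0, hD0]
      have : (‖gr q y0 - x‖ / R + 1 + A3) * R = ‖gr q y0 - x‖ + R + A3 * R := by
        field_simp
      rw [this]
      exact h7
    unfold wt
    rw [hm1, hm0, ← mul_inv, ← mul_pow]
    refine inv_anti₀ (by positivity) (pow_le_pow_left₀ (by positivity) ?_ M)
    nlinarith
  have hvolS : volume S = ENNReal.ofReal ((s / R) ^ d) * volume V := by
    rw [hS, measure_vadd, Measure.addHaar_smul, finrank_euclideanSpace, Fintype.card_fin,
      abs_of_nonneg (by positivity)]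
  have hlow : ENNReal.ofReal m1 * volume S ≤ I := by
    have h1 := mul_meas_ge_le_lintegral (μ := volume.restrict B2) hwm (ENNReal.ofReal m1)
    refine le_trans (mul_le_mul_right ?_ _) h1
    rw [Measure.restrict_apply (measurableSet_le measurable_const hwm)]
    refine measure_mono fun y hy => ?_
    obtain ⟨h2, h3⟩ := hSB y hy
    exact ⟨ENNReal.ofReal_le_ofReal h3, h2⟩
  have hlow2 : ENNReal.ofReal (m0 * (c * β⁻¹ * (R ^ d)⁻¹)) ≤ I := by
    refine le_trans ?_ hlow
    rw [hvolS]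
    calc ENNReal.ofReal (m0 * (c * β⁻¹ * (R ^ d)⁻¹))
        = ENNReal.ofReal m1 * (ENNReal.ofReal ((s / R) ^ d) * ENNReal.ofReal β⁻¹) := by
          rw [← ENNReal.ofReal_mul (by positivity), ← ENNReal.ofReal_mul (by positivity)]
          congr 1
          rw [hm1, hc, div_pow]
          ring
      _ ≤ _ := by
          gcongr
          exact hV y0 hy0
  -- together
  have hfin : ENNReal.ofReal (R ^ d) * ∫⁻ y in B1, ENNReal.ofReal (wt (2 * M) q R x y) ≤
      (ENNReal.ofReal (√(c⁻¹) * √β * R ^ d) * I) ^ (2 : ℝ) := by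
    have h1 : ENNReal.ofReal m0 ≤ ENNReal.ofReal (c⁻¹ * β * R ^ d) * I := by
      calc ENNReal.ofReal m0 = ENNReal.ofReal (c⁻¹ * β * R ^ d) *
            ENNReal.ofReal (m0 * (c * β⁻¹ * (R ^ d)⁻¹)) := by
            rw [← ENNReal.ofReal_mul (by positivity)]
            congr 1
            field_simp
        _ ≤ _ := mul_le_mul_right hlow2 _
    calc ENNReal.ofReal (R ^ d) * ∫⁻ y in B1, ENNReal.ofReal (wt (2 * M) q R x y)
        ≤ ENNReal.ofReal (R ^ d) * (ENNReal.ofReal (c⁻¹ * β * R ^ d) * I * I) :=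
          mul_le_mul_right (hup.trans (mul_le_mul_left h1 _)) _
      _ = (ENNReal.ofReal (√(c⁻¹) * √β * R ^ d) * I) ^ (2 : ℝ) := by
          rw [ENNReal.rpow_two, mul_pow, ← ENNReal.ofReal_pow (by positivity), mul_pow, mul_pow,
            Real.sq_sqrt (inv_nonneg.2 hc0.le), Real.sq_sqrt hβ0.le, mul_assoc, ← mul_assoc,
            ← ENNReal.ofReal_mul (by positivity), sq I]
          have : R ^ d * (c⁻¹ * β * R ^ d) = c⁻¹ * β * (R ^ d) ^ 2 := by ring
          rw [this]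
  calc (ENNReal.ofReal (R ^ d) * ∫⁻ y in B1, ENNReal.ofReal (wt (2 * M) q R x y)) ^ (1 / 2 : ℝ)
      ≤ ((ENNReal.ofReal (√(c⁻¹) * √β * R ^ d) * I) ^ (2 : ℝ)) ^ (1 / 2 : ℝ) :=
        ENNReal.rpow_le_rpow hfin (by norm_num)
    _ = _ := by
        rw [← ENNReal.rpow_mul]
        norm_num

end Pool.Agent.GNP
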