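import Pool.Agent.GNP.LOCe
import Pool.Agent.GNP.LOCa
import Pool.Agent.GNP.LOCb

/-!
AP4, LOC: the bound for one scale and one class.
-/

namespace Pool.Agent.GNP

open MeasureTheory Set Pool.Agent.MP_6cbfb8_an
open scoped ENNReal Real RealInnerProductSpace ContDiff

/-- Kernels with small support. -/
theorem exists_ker_small (d : ℕ) (κ : ℝ) (hκ : 0 < κ) :
    ∃ ρ : E d → ℝ, Ker κ ρ ∧ (∀ v, 0 ≤ ρ v) ∧ ∫ v, ρ v = 1 := by
  let f : ContDiffBump (0 : E d) := ⟨κ / 2, κ, by positivity, by linarith⟩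
  refine ⟨f.normed volume, ⟨f.contDiff_normed, fun v hv => ?_⟩, f.nonneg_normed,
    f.integral_normed⟩
  have h1 : v ∉ Function.support (f.normed volume) := by
    rw [f.support_normed_eq, Metric.mem_ball, dist_zero_right]
    exact not_lt.2 hv.le
  exact Function.notMem_support.1 h1

theorem wt_mono {d : ℕ} {N N' : ℕ} (h : N ≤ N') (q : E d → ℝ) {R : ℝ} (hR : 0 < R) (x y : E d) :
    wt N' q R x y ≤ wt N q R x y := by
  unfold wt
  refine inv_anti₀ (by positivity) (pow_le_pow_right₀ ?_ h)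
  have : 0 ≤ ‖gr q y - x‖ / R := by positivity
  linarith

/-- **LOC.** -/
theorem LOC (d : ℕ) (A : ℕ → ℝ) (M : ℕ) (al : ℝ) (hal : 0 ≤ al) (κ : ℝ) (hκ : 0 < κ)
    (hκ4 : κ ≤ 1 / 4) : ∃ K : ℝ, 0 < K ∧
    ∀ (a : E d → ℂ) (q : E d → ℝ) (r R β : ℝ) (G : Set (E d)), 1 ≤ R → 1 ≤ β →
      AmpR d A r R a → ContDiff ℝ ∞ q → MeasurableSet G →
      (∀ y, a y ≠ 0 → Metric.closedBall y (3 * κ / R) ⊆ G) →
      (∀ y ∈ G, ∀ j, 3 ≤ j → ‖iteratedFDeriv ℝ j q y‖ ≤ A j * R ^ j) →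
      (∀ y ∈ G, ENNReal.ofReal β⁻¹ ≤ volume {v : E d | ‖v‖ ≤ 1 ∧ ‖Hs q y v‖ ≤ R ^ 2}) →
      ∫⁻ x, ‖uu a q x‖ₑ ^ (2 + al) ≤ ENNReal.ofReal (K * β ^ (al / 2) * (R ^ d)⁻¹) *
        ∫⁻ x, (∫⁻ y in G, ENNReal.ofReal (wt M q R x y)) ^ (1 + al) := by
  obtain ⟨ρ, hρ, hρ0, hρ1⟩ := exists_ker_small d κ hκ
  obtain ⟨Cw, hCw, hW⟩ := uz_wt d (2 * M) A κ hκ ρ hρ
  obtain ⟨Cb, hCb, hB⟩ := loc_half d M κ hκ |A 3| (abs_nonneg _)
  obtain ⟨K, hK, hL⟩ := loc_of d M κ (by linarith) ρ hρ hρ0 hρ1 (2 * κ) (√Cw * Cb) Cw al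
    (by positivity) (by positivity) hCw.le hal
  refine ⟨K, hK, fun a q r R β G hR hβ ha hq hG hGa hGq hGv => ?_⟩
  have hR0 : 0 < R := by linarith
  -- the two cases
  have hcase : ∀ z, (Metric.closedBall z (2 * κ / R) ⊆ G) ∨ (∀ x, uz ρ a q R z x = 0) := by
    intro z
    by_cases h : ∃ y ∈ Metric.closedBall z (κ / R), a y ≠ 0
    · obtain ⟨y, hy, hay⟩ := h
      left
      refine Subset.trans ?_ (hGa y hay)
      intro u hu
      rw [Metric.mem_closedBall] at hu hy ⊢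
      calc dist u y ≤ dist u z + dist y z := dist_triangle_right u y z
        _ ≤ 2 * κ / R + κ / R := add_le_add hu hy
        _ = 3 * κ / R := by ring
    · push Not at h
      right
      intro x
      unfold uz uu
      rw [← integral_zero (E d) ℂ (μ := volume)]
      refine integral_congr_ae (Filter.Eventually.of_forall fun y => ?_)
      simp only
      by_cases hy : y ∈ Metric.closedBall z (κ / R)
      · rw [h y hy]
        ring
      · have h1 : ρ (R • (y - z)) = 0 := by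
          refine hρ.supp _ ?_
          rw [Metric.mem_closedBall, not_le, dist_eq_norm, div_lt_iff₀ hR0] at hy
          rw [norm_smul, Real.norm_of_nonneg hR0.le, mul_comm]
          exact hy
        rw [h1]
        simp
  have hsub : ∀ z : E d, Metric.closedBall z (κ / R) ⊆ Metric.closedBall z (2 * κ / R) := by
    intro z
    refine Metric.closedBall_subset_closedBall ?_
    exact div_le_div_of_nonneg_right (by linarith) hR0.le
  have hind : ∀ z x, Metric.closedBall z (2 * κ / R) ⊆ G →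
      ∫⁻ y in Metric.closedBall z (2 * κ / R), ENNReal.ofReal (wt M q R x y) =
        ∫⁻ y in Metric.closedBall z (2 * κ / R),
          G.indicator (fun y => ENNReal.ofReal (wt M q R x y)) y := by
    intro z x h
    refine setLIntegral_congr_fun measurableSet_closedBall fun y hy => ?_
    rw [indicator_of_mem (h hy)]
  have hWz : ∀ z x, Metric.closedBall z (2 * κ / R) ⊆ G → ‖uz ρ a q R z x‖ₑ ^ (2 : ℝ) ≤
      ENNReal.ofReal (Cw * R ^ d) *
        ∫⁻ y in Metric.closedBall z (κ / R), ENNReal.ofReal (wt (2 * M) q R x y) := by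
    intro z x h
    have h1 := hW a q R z x hR0 ha.sm hq (fun y _ j => ha.bd j y)
      (fun y hy j hj => hGq y (h (hsub z (by
        rw [Metric.mem_closedBall, dist_eq_norm]
        exact hy))) j hj)
    simpa only [ENNReal.rpow_two] using h1
  refine hL a q r R β G hR hβ ha.sm.continuous ha.supp hq hG ?_ ?_
  · intro z x
    rcases hcase z with h | h
    · have h1 := hWz z x h
      have h2 := hB q R β z x hq hR hβ (fun y hy => (hGq y (h hy) 3 le_rfl).trans
        (mul_le_mul_of_nonneg_right (le_abs_self _) (by positivity)))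
        (fun y hy => hGv y (h (hsub z hy)))
      rw [← hind z x h]
      calc ‖uz ρ a q R z x‖ₑ = (‖uz ρ a q R z x‖ₑ ^ (2 : ℝ)) ^ (1 / 2 : ℝ) := by
            rw [← ENNReal.rpow_mul]
            norm_num
        _ ≤ (ENNReal.ofReal (Cw * R ^ d) * ∫⁻ y in Metric.closedBall z (κ / R),
              ENNReal.ofReal (wt (2 * M) q R x y)) ^ (1 / 2 : ℝ) :=
            ENNReal.rpow_le_rpow h1 (by norm_num)
        _ = ENNReal.ofReal (√Cw) * (ENNReal.ofReal (R ^ d) * ∫⁻ y in Metric.closedBall z (κ / R),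
              ENNReal.ofReal (wt (2 * M) q R x y)) ^ (1 / 2 : ℝ) := by
            rw [ENNReal.ofReal_mul hCw.le, mul_assoc, ENNReal.mul_rpow_of_nonneg _ _ (by norm_num),
              ENNReal.ofReal_rpow_of_pos hCw, ← Real.sqrt_eq_rpow]
        _ ≤ ENNReal.ofReal (√Cw) * (ENNReal.ofReal (Cb * √β * R ^ d) *
              ∫⁻ y in Metric.closedBall z (2 * κ / R), ENNReal.ofReal (wt M q R x y)) :=
            mul_le_mul_right h2 _
        _ = _ := by
            rw [← mul_assoc, ← ENNReal.ofReal_mul (by positivity)]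
            congr 2
            ring
    · rw [h x, enorm_zero]
      exact zero_le
  · intro z x
    rcases hcase z with h | h
    · refine (hWz z x h).trans (mul_le_mul_right ?_ _)
      calc ∫⁻ y in Metric.closedBall z (κ / R), ENNReal.ofReal (wt (2 * M) q R x y)
          ≤ ∫⁻ y in Metric.closedBall z (κ / R), ENNReal.ofReal (wt M q R x y) :=
            lintegral_mono fun y => ENNReal.ofReal_le_ofReal (wt_mono (by omega) q hR0 x y)
        _ ≤ ∫⁻ y in Metric.closedBall z (2 * κ / R), ENNReal.ofReal (wt M q R x y) :=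
            lintegral_mono_set (hsub z)
        _ = _ := hind z x h
    · rw [h x, enorm_zero, ENNReal.zero_rpow_of_pos (by norm_num)]
      exact zero_le

/-- `LOC` in the existential form. -/
theorem LOC_ex (d : ℕ) (A : ℕ → ℝ) (M : ℕ) (al : ℝ) (hal : 0 ≤ al) :
    ∃ kappa K : ℝ, 0 < kappa ∧ kappa ≤ 1 / 4 ∧ 0 < K ∧
    ∀ (a : E d → ℂ) (q : E d → ℝ) (r R be : ℝ) (G : Set (E d)), 1 ≤ R → 1 ≤ be →
      AmpR d A r R a → ContDiff ℝ ∞ q → MeasurableSet G →
      (∀ y, a y ≠ 0 → Metric.closedBall y (3 * kappa / R) ⊆ G) →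
      (∀ y ∈ G, ∀ j, 3 ≤ j → ‖iteratedFDeriv ℝ j q y‖ ≤ A j * R ^ j) →
      (∀ y ∈ G, ENNReal.ofReal be⁻¹ ≤ volume {v : E d | ‖v‖ ≤ 1 ∧ ‖Hs q y v‖ ≤ R ^ 2}) →
      ∫⁻ x, ‖uu a q x‖ₑ ^ (2 + al) ≤ ENNReal.ofReal (K * be ^ (al / 2) * (R ^ d)⁻¹) *
        ∫⁻ x, (∫⁻ y in G, ENNReal.ofReal (wt M q R x y)) ^ (1 + al) := by
  obtain ⟨K, hK, h⟩ := LOC d A M al hal (1 / 4) (by norm_num) le_rfl
  exact ⟨1 / 4, K, by norm_num, le_rfl, hK, h⟩

end Pool.Agent.GNP
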