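import Pool.Agent.GNP.FS
import Pool.Agent.GNP.LOC

/-!
One level and all levels at fixed `s`, final forms.
-/

namespace Pool.Agent.GNP

open MeasureTheory Set Metric Pool.Agent.MP_6cbfb8_an
open scoped ENNReal Real RealInnerProductSpace ContDiff

theorem locs (d : ℕ) (A : ℕ → ℝ) (M : ℕ) (al : ℝ) (hal : 0 ≤ al) : LOCS d A M al :=
  LOC_ex d A M al hal

/-- One level. -/
theorem one2 (d : ℕ) (A A' : ℕ → ℝ) (r' b p ε : ℝ) (hr' : 0 < r') (hb : 0 < b) (hp : 2 < p)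
    (hε : 0 < ε) : ∃ K : ℝ, 0 < K ∧
    ∀ (Φ h : E d → ℝ) (g : E d → ℂ) (c s r R L : ℝ) (G : Set (E d)), Sm d A Φ → Sm d A h →
      Df d b r' h → 1 ≤ R → 1 + |c| + |s| + R ≤ L → AmpR d A' r R g → MeasurableSet G →
      (∀ y ∈ G, ‖y‖ ≤ r') → (∀ y, g y ≠ 0 → closedBall y (1 / R) ⊆ G) →
      (∀ y ∈ G, ∀ j, 3 ≤ j → ‖iteratedFDeriv ℝ j (ph Φ h c s) y‖ ≤ A' j * R ^ j) →
      ∫⁻ x, ‖uu g (ph Φ h c s) x‖ₑ ^ p ≤ ENNReal.ofReal (K * L ^ ε) *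
        ∫⁻ y in G, ENNReal.ofReal (Vv Φ h c s R y ^ (p - 2)) :=
  one2_of d A A' r' b p ε hr' hb hp hε fun A' => locs d A' (d + 1) (p - 2) (by linarith)

/-- All levels at fixed `s`, for amplitudes which are smooth at the scale `1/κ` only. -/
theorem fixed_sR (d J : ℕ) (A : ℕ → ℝ) (r r' b p ε C1 : ℝ) (hr : 0 < r) (hr' : r < r')
    (hb : 0 < b) (hp : 2 < p) (hε : 0 < ε) : ∃ (m : ℕ) (κ1 K : ℝ), 1 ≤ κ1 ∧ 0 < K ∧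
    ∀ (Φ h : E d → ℝ) (a : E d → ℂ) (c s κ : ℝ), Sm d A Φ → Sm d A h →
      AmpR d A r κ a → Df d b r' h → κ1 ≤ κ → 1 + |c| ≤ κ ^ (J + 1) →
      κ ≤ (1 + |c|) ^ (max 1 ε) → |s| ≤ C1 * (1 + |c|) →
      ∫⁻ x, ‖uu a (ph Φ h c s) x‖ₑ ^ p ≤ ENNReal.ofReal (K * (1 + |c|) ^ ε) *
        ∑ k ∈ Finset.range ⌈K * (1 + |c|) ^ ε⌉₊,
          ∫⁻ y in Fl J κ (ph Φ h c s) r' m k,
            ENNReal.ofReal (Vv Φ h c s (2 ^ k) y ^ (p - 2)) :=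
  fixed_sR_of d J A r r' b p ε C1 hr hr' hb hp hε fun A' => locs d A' (d + 1) (p - 2) (by linarith)

/-- All levels at fixed `s`. -/
theorem fixed_s (d J : ℕ) (hd : 1 ≤ d) (A : ℕ → ℝ) (r r' b p ε C1 : ℝ) (hr : 0 < r) (hr' : r < r')
    (hb : 0 < b) (hp : 2 < p) (hε : 0 < ε) (hJ : 1 ≤ ((J : ℝ) + 1) * ε) :
    ∃ (m : ℕ) (K : ℝ), 0 < K ∧ ∀ (Φ h : E d → ℝ) (a : E d → ℂ), Sm d A Φ → Sm d A h →
      Amp d A r a → Df d b r' h → ∀ c s : ℝ, K ≤ |c| → |s| ≤ C1 * (1 + |c|) →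
      ∫⁻ x, ‖uu a (ph Φ h c s) x‖ₑ ^ p ≤ ENNReal.ofReal (K * (1 + |c|) ^ ε) *
        ∑ k ∈ Finset.range ⌈K * (1 + |c|) ^ ε⌉₊,
          ∫⁻ y in Fl J ((1 + |c|) ^ ε) (ph Φ h c s) r' m k,
            ENNReal.ofReal (Vv Φ h c s (2 ^ k) y ^ (p - 2)) :=
  fixed_s_of d J hd A r r' b p ε C1 hr hr' hb hp hε hJ
    fun A' => locs d A' (d + 1) (p - 2) (by linarith)

end Pool.Agent.GNP
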