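import Pool.Agent.GNP.ABL
import Pool.Agent.GNP.FS4
import Pool.Agent.GNP.AB1

/-!
Rough amplitudes, every phase: fixed `s`, the mollified amplitude.
-/

namespace Pool.Agent.GNP

open MeasureTheory Set Metric Pool.Agent.MP_6cbfb8_an
open scoped ENNReal Real RealInnerProductSpace ContDiff

/-- Products of amplitudes. -/
theorem ab_mul {d : ℕ} {A B : ℕ → ℝ} {r R : ℝ} {f g : E d → ℂ} (hf : AmpR d A r R f)
    (hg : ContDiff ℝ ∞ g) (hB : ∀ j y, ‖iteratedFDeriv ℝ j g y‖ ≤ B j * R ^ j) :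
    AmpR d (fun j => ∑ i ∈ Finset.range (j + 1), (j.choose i : ℝ) * (A i * B (j - i))) r R
      fun y => f y * g y :=
  ⟨hf.sm.mul hg, fun y hy => by rw [hf.supp y hy, zero_mul],
    fun j y => mul_der hf.sm hg hf.bd hB j y⟩

theorem ab_wk {d : ℕ} {A B : ℕ → ℝ} {r r' R : ℝ} {f : E d → ℂ} (h : AmpR d A r R f)
    (hr : r ≤ r') (hR : 0 ≤ R) (hA : ∀ j, A j ≤ B j) : AmpR d B r' R f :=
  ⟨h.sm, fun y hy => h.supp y (lt_of_le_of_lt hr hy), fun j y => (h.bd j y).trans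
    (mul_le_mul_of_nonneg_right (hA j) (pow_nonneg hR j))⟩

theorem ab_int {d : ℕ} {A : ℕ → ℝ} {r R : ℝ} {f : E d → ℂ} (h : AmpR d A r R f) :
    Integrable f := by
  refine h.sm.continuous.integrable_of_hasCompactSupport ?_
  refine HasCompactSupport.intro (isCompact_closedBall (0 : E d) r) fun x hx => h.supp x ?_
  simpa using hx

/-- Telescoping. -/
theorem ab_tele {d : ℕ} (η : E d → ℝ) (a : E d → ℂ) (y : E d) {k N : ℕ} (h : k ≤ N) :
    mo η a (2 ^ N) y = mo η a (2 ^ k) y + ∑ j ∈ Finset.Ico k N, mf η a (2 ^ j) y := by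
  induction N, h using Nat.le_induction with
  | base => simp
  | succ N hN ih =>
    rw [Finset.sum_Ico_succ_top hN, ← add_assoc, ← ih, mf, pow_succ']
    ring

/-- Continuity in `x`. -/
theorem ab_cont {d : ℕ} {f : E d → ℂ} {q : E d → ℝ} (hf : Integrable f)
    (hq : Measurable q) : Continuous (uu f q) := by
  unfold uu
  refine continuous_of_dominated (bound := fun y => ‖f y‖) (fun x => ?_) (fun x => ?_) hf.norm ?_
  · exact hf.aestronglyMeasurable.mul (Complex.measurable_exp.comp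
      ((Complex.measurable_ofReal.comp (hq.sub
        (measurable_const.inner measurable_id))).mul measurable_const)).aestronglyMeasurable
  · refine Filter.Eventually.of_forall fun y => ?_
    rw [norm_mul, Complex.norm_exp_ofReal_mul_I, mul_one]
  · refine Filter.Eventually.of_forall fun y => ?_
    fun_prop

theorem ab_uu_const {d : ℕ} (z : ℂ) (f : E d → ℂ) (q : E d → ℝ) (x : E d) :
    uu (fun y => z * f y) q x = z * uu f q x := by
  unfold uu
  rw [← integral_const_mul]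
  refine integral_congr_ae (Filter.Eventually.of_forall fun y => ?_)
  simp only
  ring

theorem ab_uu_zero {d : ℕ} (q : E d → ℝ) (x : E d) : uu (fun _ => (0 : ℂ)) q x = 0 := by
  unfold uu
  simp

/-- The number of scales. -/
theorem ab_num (C ε : ℝ) (hε : 0 < ε) : ∃ K : ℝ, 0 < K ∧ ∀ (X : ℝ) (n : ℕ), 1 ≤ X →
    (2 : ℝ) ^ n ≤ C * X → (n : ℝ) + 1 ≤ K * X ^ ε := by
  refine ⟨2 * (max C 1) ^ ε / ε + 1, by positivity, ?_⟩
  intro L n hL hn
  have hC1 : 1 ≤ max C 1 := le_max_right _ _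
  have h0 : 0 < max C 1 * L := by positivity
  have h1 : (2 : ℝ) ^ n ≤ max C 1 * L :=
    hn.trans (mul_le_mul_of_nonneg_right (le_max_left _ _) (by linarith))
  have h2 : (n : ℝ) * Real.log 2 ≤ Real.log (max C 1 * L) := by
    rw [← Real.log_pow]
    exact Real.log_le_log (by positivity) h1
  have h3 : Real.log (max C 1 * L) ≤ (max C 1 * L) ^ ε / ε := Real.log_le_rpow_div h0.le hε
  have h4 : (1 : ℝ) / 2 ≤ Real.log 2 := by
    have := Real.log_two_gt_d9
    linarith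
  have h5 : (n : ℝ) / 2 ≤ (max C 1 * L) ^ ε / ε := by
    calc (n : ℝ) / 2 = n * (1 / 2) := by ring
      _ ≤ n * Real.log 2 := by gcongr
      _ ≤ _ := h2.trans h3
  have h6 : 1 ≤ L ^ ε := Real.one_le_rpow hL hε.le
  rw [Real.mul_rpow (by positivity) (by linarith)] at h5
  calc (n : ℝ) + 1 = 2 * (n / 2) + 1 := by ring
    _ ≤ 2 * ((max C 1) ^ ε * L ^ ε / ε) + L ^ ε := by gcongr
    _ = (2 * (max C 1) ^ ε / ε + 1) * L ^ ε := by ring

/-- The high derivatives of the phases `c Φ - s h`. -/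
theorem ab_high {d J : ℕ} {A : ℕ → ℝ} {κ C1 : ℝ}
    {Φ h : E d → ℝ} (hΦ : Sm d A Φ) (hh : Sm d A h) {c s : ℝ} (h3 : 1 + |c| ≤ κ ^ (J + 1))
    (hs : |s| ≤ C1 * (1 + |c|)) :
    High d J (fun j => (1 + |C1|) * |A j|) κ (ph Φ h c s) := by
  have hc : 1 ≤ 1 + |c| := by linarith [abs_nonneg c]
  refine ⟨(contDiff_const.mul hΦ.sm).sub (contDiff_const.mul hh.sm), fun j _ y => ?_⟩
  refine (ph_bound hΦ.sm hh.sm c s j y).trans ?_
  have h1 : ‖iteratedFDeriv ℝ j Φ y‖ ≤ |A j| := (hΦ.bd j y).trans (le_abs_self _)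
  have h2 : ‖iteratedFDeriv ℝ j h y‖ ≤ |A j| := (hh.bd j y).trans (le_abs_self _)
  have h4 : |s| ≤ |C1| * (1 + |c|) := hs.trans (by gcongr; exact le_abs_self _)
  calc |c| * ‖iteratedFDeriv ℝ j Φ y‖ + |s| * ‖iteratedFDeriv ℝ j h y‖
      ≤ (1 + |c|) * |A j| + (|C1| * (1 + |c|)) * |A j| := by
        gcongr
        linarith
    _ = (1 + |C1|) * |A j| * (1 + |c|) := by ring
    _ ≤ (1 + |C1|) * |A j| * κ ^ (J + 1) := by gcongr

/-- The size of the stopping scale. -/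
theorem ab_Lm {d J : ℕ} {A : ℕ → ℝ} {κ C1 : ℝ} {Φ h : E d → ℝ} (hΦ : Sm d A Φ)
    (hh : Sm d A h) {c s : ℝ} (h0 : κ ≤ (1 + |c|) ^ (1 / 3 : ℝ)) (hs : |s| ≤ C1 * (1 + |c|))
    (y : E d) :
    Lm J κ (ph Φ h c s) y ≤
      (1 + ∑ j ∈ Finset.Icc 3 J, max 1 ((1 + |C1|) * |A j|)) * (1 + |c|) ^ (1 / 3 : ℝ) := by
  have hc : 1 ≤ 1 + |c| := by linarith [abs_nonneg c]
  unfold Lm
  rw [add_mul, one_mul, Finset.sum_mul]
  refine add_le_add h0 (Finset.sum_le_sum fun j hj => ?_)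
  have hj3 : 3 ≤ j := (Finset.mem_Icc.1 hj).1
  have hj0 : (3 : ℝ) ≤ j := by exact_mod_cast hj3
  have h1 : ‖iteratedFDeriv ℝ j Φ y‖ ≤ |A j| := (hΦ.bd j y).trans (le_abs_self _)
  have h2 : ‖iteratedFDeriv ℝ j h y‖ ≤ |A j| := (hh.bd j y).trans (le_abs_self _)
  have h4 : |s| ≤ |C1| * (1 + |c|) := hs.trans (by gcongr; exact le_abs_self _)
  have h5 : ‖iteratedFDeriv ℝ j (ph Φ h c s) y‖ ≤
      max 1 ((1 + |C1|) * |A j|) * (1 + |c|) := by
    refine (ph_bound hΦ.sm hh.sm c s j y).trans ?_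
    calc |c| * ‖iteratedFDeriv ℝ j Φ y‖ + |s| * ‖iteratedFDeriv ℝ j h y‖
        ≤ (1 + |c|) * |A j| + (|C1| * (1 + |c|)) * |A j| := by
          gcongr
          linarith
      _ = (1 + |C1|) * |A j| * (1 + |c|) := by ring
      _ ≤ max 1 ((1 + |C1|) * |A j|) * (1 + |c|) := by
          gcongr
          exact le_max_right _ _
  have hm : 1 ≤ max 1 ((1 + |C1|) * |A j|) := le_max_left _ _
  calc ‖iteratedFDeriv ℝ j (ph Φ h c s) y‖ ^ ((j : ℝ)⁻¹)
      ≤ (max 1 ((1 + |C1|) * |A j|) * (1 + |c|)) ^ ((j : ℝ)⁻¹) :=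
        Real.rpow_le_rpow (norm_nonneg _) h5 (by positivity)
    _ = (max 1 ((1 + |C1|) * |A j|)) ^ ((j : ℝ)⁻¹) * (1 + |c|) ^ ((j : ℝ)⁻¹) :=
        Real.mul_rpow (by positivity) (by positivity)
    _ ≤ (max 1 ((1 + |C1|) * |A j|)) ^ (1 : ℝ) * (1 + |c|) ^ (1 / 3 : ℝ) := by
        refine mul_le_mul (Real.rpow_le_rpow_of_exponent_le hm ?_)
          (Real.rpow_le_rpow_of_exponent_le hc ?_) (by positivity) (by positivity)
        · exact inv_le_one_of_one_le₀ (by linarith)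
        · rw [one_div]
          exact inv_anti₀ (by norm_num) hj0
    _ = _ := by rw [Real.rpow_one]

/-- Row BV2a. -/
theorem fixed_bv (d J : ℕ) (A : ℕ → ℝ) (η : E d → ℝ) (hη : Ker 1 η)
    (hη0 : ∀ v, 0 ≤ η v) (hη1 : ∫ v, η v = 1) (r r' b p ε C1 V P0 : ℝ) (hr : 0 < r) (hr' : r < r')
    (hb : 0 < b) (hp : 2 < p) (hε : 0 < ε) (hε1 : ε ≤ 1 / 4) (hJ : 1 ≤ ((J : ℝ) + 1) * ε)
    (hV : 0 ≤ V) : ∃ (m : ℕ) (K : ℝ), 0 < K ∧ ∀ (Φ h : E d → ℝ) (a : E d → ℂ), Sm d A Φ →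
      Sm d A h → Measurable a → (∀ y, ‖a y‖ ≤ 1) → (∀ y, r < ‖y‖ → a y = 0) → BVE d 1 V a →
      Df d b r' h → ∀ (c : ℝ) (N : ℕ), K ≤ |c| → √(1 + |c|) ≤ 2 ^ N → 2 ^ N ≤ P0 * √(1 + |c|) →
      ∃ G : ℕ → ℕ → Set (E d), (∀ j i, MeasurableSet (G j i) ∧ (∀ y ∈ G j i, ‖y‖ ≤ r') ∧
        volume (G j i) ≤ ENNReal.ofReal (K * 2 ^ i / 2 ^ j)) ∧ ∀ s : ℝ, |s| ≤ C1 * (1 + |c|) →
      ∫⁻ x, ‖uu (mo η a (2 ^ N)) (ph Φ h c s) x‖ₑ ^ p ≤ ENNReal.ofReal (K * (1 + |c|) ^ ε) *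
        ((∑ k ∈ Finset.range N, ∫⁻ y in Fl J ((1 + |c|) ^ ε) (ph Φ h c s) r' m k,
            ENNReal.ofReal (Vv Φ h c s (2 ^ k) y ^ (p - 2))) +
          ∑ j ∈ Finset.range N, ∑ i ∈ Finset.range (N + 1), ENNReal.ofReal ((((2 : ℝ) ^ i)⁻¹) ^ p) *
            ∫⁻ y in G j i, ENNReal.ofReal (Vv Φ h c s (2 ^ j) y ^ (p - 2))) := by
  classical
  obtain ⟨r1, hr1a, hr1b⟩ := exists_between hr'
  have hr10 : 0 < r1 := hr.trans hr1a
  have hrr : 0 < r1 - r := sub_pos.2 hr1a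
  obtain ⟨A1, m, κ1, hκ1, hA1, hlev⟩ := levels_R d J (fun j => (1 + |C1|) * |A j|) 1 one_pos r1 r'
    hr1b
  obtain ⟨A2, K2, hK2, hosc⟩ := osc_classes d η hη hη0 hη1 1 r V one_pos hr hV
  obtain ⟨A0, hA0⟩ := mo_amp d η hη
  set B1 : ℕ → ℝ := fun j => ∑ i ∈ Finset.range (j + 1), (j.choose i : ℝ) * (A0 i * A1 (j - i))
    with hB1
  set B2 : ℕ → ℝ := fun j => ∑ i ∈ Finset.range (j + 1), (j.choose i : ℝ) * (A2 i * A1 (j - i))
    with hB2
  set A3 : ℕ → ℝ := fun j => |B1 j| + |B2 j| + A1 j with hA3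
  have hA31 : ∀ j, B1 j ≤ A3 j := fun j => by
    have h1 := le_abs_self (B1 j)
    have h2 := abs_nonneg (B2 j)
    have h3 := hA1 j
    simp only [hA3]
    linarith
  have hA32 : ∀ j, B2 j ≤ A3 j := fun j => by
    have h1 := le_abs_self (B2 j)
    have h2 := abs_nonneg (B1 j)
    have h3 := hA1 j
    simp only [hA3]
    linarith
  have hA33 : ∀ j, A1 j ≤ A3 j := fun j => by
    have h1 := abs_nonneg (B2 j)
    have h2 := abs_nonneg (B1 j)
    simp only [hA3]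
    linarith
  obtain ⟨K1, hK1, hone⟩ := one2 d A A3 r' b p (ε / 2) (hr.trans hr') hb hp (by positivity)
  set e : ℝ := 3 * (p - 1) + 1 with he
  have he0 : 0 < e := by
    rw [he]
    linarith
  obtain ⟨K3, hK3, hnum⟩ := ab_num |P0| (ε / (2 * e)) (by positivity)
  set C3 : ℝ := 1 + ∑ j ∈ Finset.Icc 3 J, max 1 ((1 + |C1|) * |A j|) with hC3
  have hC30 : 0 < C3 := by
    have : 0 ≤ ∑ j ∈ Finset.Icc 3 J, max 1 ((1 + |C1|) * |A j|) :=
      Finset.sum_nonneg fun j _ => zero_le_one.trans (le_max_left _ _)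
    rw [hC3]
    linarith
  obtain ⟨X0, hX0⟩ : ∃ X0 : ℝ, ∀ X ≥ X0, κ1 ≤ X ^ ε ∧ 2 ^ m / (r1 - r) ≤ X ^ ε ∧
      2 ^ (m + 2) * C3 ≤ X ^ (1 / 6 : ℝ) ∧ 1 / (r1 - r) ≤ X ^ (1 / 2 : ℝ) := by
    have t1 := (tendsto_rpow_atTop hε).eventually_ge_atTop κ1
    have t2 := (tendsto_rpow_atTop hε).eventually_ge_atTop (2 ^ m / (r1 - r))
    have t3 := (tendsto_rpow_atTop (by norm_num : (0 : ℝ) < 1 / 6)).eventually_ge_atTop
      (2 ^ (m + 2) * C3)
    have t4 := (tendsto_rpow_atTop (by norm_num : (0 : ℝ) < 1 / 2)).eventually_ge_atTop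
      (1 / (r1 - r))
    obtain ⟨X0, hX0⟩ := Filter.eventually_atTop.1 (t1.and (t2.and (t3.and t4)))
    exact ⟨X0, fun X hX => hX0 X hX⟩
  set D : ℝ := (1 + |C1|) + |P0| with hD
  have hD0 : 0 < D := by positivity
  set K : ℝ := max (max X0 1) (max K2 (K3 ^ e * (K1 * D ^ (ε / 2)))) with hK
  have hKX : X0 ≤ K := (le_max_left _ _).trans (le_max_left _ _)
  have hK1' : 1 ≤ K := (le_max_right _ _).trans (le_max_left _ _)
  have hKK2 : K2 ≤ K := (le_max_left _ _).trans (le_max_right _ _)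
  have hKK3 : K3 ^ e * (K1 * D ^ (ε / 2)) ≤ K := (le_max_right _ _).trans (le_max_right _ _)
  refine ⟨m, K, by linarith, ?_⟩
  intro Φ h a hΦ hh ham ha1 har hBV hdef c N hc hN1 hN2
  set X : ℝ := 1 + |c| with hX
  have hX1 : 1 ≤ X := by linarith [abs_nonneg c]
  have hXX0 : X0 ≤ X := by linarith
  obtain ⟨hx1, hx2, hx3, hx4⟩ := hX0 X hXX0
  -- the classes
  have hcl : ∀ j, ∃ (f : ℕ → E d → ℂ) (G : ℕ → Set (E d)), j < N →
      (∀ y, mf η a (2 ^ j) y = ∑ i ∈ Finset.range (N + 1), ((((2 : ℝ) ^ i)⁻¹ : ℝ) : ℂ) * f i y) ∧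
        ∀ i ≤ N, AmpR d A2 (r + 1 / 2 ^ j) (2 ^ j) (f i) ∧ MeasurableSet (G i) ∧
          (∀ y, f i y ≠ 0 → closedBall y (1 / 2 ^ j) ⊆ G i) ∧
          volume (G i) ≤ ENNReal.ofReal (K2 * 2 ^ i / 2 ^ j) := by
    intro j
    by_cases hj : j < N
    · obtain ⟨f, G, h1, h2⟩ := hosc a (2 ^ j) N (one_le_pow₀ (by norm_num))
        (pow_le_pow_right₀ (by norm_num) hj.le) ham ha1 har hBV
      exact ⟨f, G, fun _ => ⟨h1, h2⟩⟩
    · exact ⟨fun _ _ => 0, fun _ => ∅, fun h => absurd h hj⟩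
  choose f G' hfG using hcl
  refine ⟨fun j i => if j < N ∧ i ≤ N then G' j i ∩ closedBall 0 r' else ∅, fun j i => ?_,
    fun s hs => ?_⟩
  · by_cases hji : j < N ∧ i ≤ N
    · simp only [hji, and_self, if_true]
      obtain ⟨-, h2, -, h4⟩ := (hfG j hji.1).2 i hji.2
      refine ⟨h2.inter isClosed_closedBall.measurableSet, fun y hy => by simpa using hy.2,
        (measure_mono inter_subset_left).trans (h4.trans (ENNReal.ofReal_le_ofReal ?_))⟩
      gcongr
    · simp only [hji, if_false]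
      exact ⟨MeasurableSet.empty, fun y hy => absurd hy (notMem_empty y), by simp⟩
  set G : ℕ → ℕ → Set (E d) := fun j i => if j < N ∧ i ≤ N then G' j i ∩ closedBall 0 r' else ∅
    with hG
  have hGeq : ∀ {j i : ℕ}, j < N → i ≤ N → G j i = G' j i ∩ closedBall 0 r' := by
    intro j i hj hi
    simp only [hG, hj, hi, and_self, if_true]
  -- the levels
  set q : E d → ℝ := ph Φ h c s with hq
  have hqs : ContDiff ℝ ∞ q := (contDiff_const.mul hΦ.sm).sub (contDiff_const.mul hh.sm)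
  set κ : ℝ := X ^ ε with hκ
  have hκ1' : 1 ≤ κ := Real.one_le_rpow hX1 hε.le
  have hκJ : 1 + |c| ≤ κ ^ (J + 1) := by
    rw [hκ, ← Real.rpow_natCast, ← Real.rpow_mul (by linarith)]
    calc 1 + |c| = X ^ (1 : ℝ) := (Real.rpow_one _).symm
      _ ≤ X ^ (ε * ((J + 1 : ℕ) : ℝ)) := by
          refine Real.rpow_le_rpow_of_exponent_le hX1 ?_
          push_cast
          linarith
  have hκ3 : κ ≤ (1 + |c|) ^ (1 / 3 : ℝ) :=
    Real.rpow_le_rpow_of_exponent_le hX1 (by linarith)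
  have hLm : ∀ y, Lm J κ q y ≤ C3 * X ^ (1 / 3 : ℝ) := fun y => ab_Lm hΦ hh hκ3 hs y
  set n : ℕ := ⌈Real.logb 2 (C3 * X ^ (1 / 3 : ℝ))⌉₊ with hn
  have hlv : ∀ y, lv J κ q y ≤ n := by
    intro y
    have h1 : 0 < Lm J κ q y := (zero_lt_one.trans_le hκ1').trans_le (Lm_ge J κ q y)
    exact Nat.ceil_mono (Real.logb_le_logb_of_le (by norm_num) h1 (hLm y))
  have hC3X : 1 ≤ C3 * X ^ (1 / 3 : ℝ) := by
    have h1 : 1 ≤ C3 := by
      have : 0 ≤ ∑ j ∈ Finset.Icc 3 J, max 1 ((1 + |C1|) * |A j|) :=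
        Finset.sum_nonneg fun j _ => zero_le_one.trans (le_max_left _ _)
      rw [hC3]
      linarith
    exact one_le_mul_of_one_le_of_one_le h1 (Real.one_le_rpow hX1 (by norm_num))
  have hnN : n + m + 1 ≤ N := by
    have h1 : (2 : ℝ) ^ n ≤ 2 * (C3 * X ^ (1 / 3 : ℝ)) := by
      have h2 : (n : ℝ) < Real.logb 2 (C3 * X ^ (1 / 3 : ℝ)) + 1 :=
        Nat.ceil_lt_add_one (Real.logb_nonneg (by norm_num) hC3X)
      have h3 : (2 : ℝ) ^ (n : ℝ) ≤ 2 ^ (Real.logb 2 (C3 * X ^ (1 / 3 : ℝ)) + 1) :=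
        Real.rpow_le_rpow_of_exponent_le (by norm_num) h2.le
      rw [Real.rpow_add (by norm_num), Real.rpow_logb (by norm_num) (by norm_num) (by linarith),
        Real.rpow_one, Real.rpow_natCast] at h3
      linarith
    have h2 : (2 : ℝ) ^ (n + m + 1) ≤ 2 ^ N := by
      calc (2 : ℝ) ^ (n + m + 1) = 2 ^ n * 2 ^ (m + 1) := by rw [← pow_add, add_assoc]
        _ ≤ 2 * (C3 * X ^ (1 / 3 : ℝ)) * 2 ^ (m + 1) := by gcongr
        _ = (2 ^ (m + 2) * C3) * X ^ (1 / 3 : ℝ) := by ring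
        _ ≤ X ^ (1 / 6 : ℝ) * X ^ (1 / 3 : ℝ) := by gcongr
        _ = √X := by
            rw [← Real.rpow_add (by linarith), Real.sqrt_eq_rpow]
            norm_num
        _ ≤ 2 ^ N := hN1
    exact (pow_le_pow_iff_right₀ one_lt_two).1 h2
  obtain ⟨θ, hθ1, hθ2, hθ3, hθ4, hθ5, -⟩ := hlev q κ n hx1 (ab_high hΦ hh hκJ hs) hlv
  set Kp : ℕ → Prop := fun k => ∃ y, ‖y‖ ≤ r1 ∧ θ k y ≠ 0 with hKp
  have hKr : ∀ k, Kp k → r + 1 / 2 ^ k ≤ r1 := by
    rintro k ⟨y, hy, hy0⟩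
    have h1 := (hθ5 k y hy hy0).2
    have h2 : 2 ^ m / (r1 - r) ≤ 2 ^ (k + m) := hx2.trans h1
    have h3 : 1 / (2 : ℝ) ^ k ≤ r1 - r := by
      rw [div_le_iff₀ hrr, pow_add] at h2
      rw [div_le_iff₀ (by positivity)]
      have h4 : (0 : ℝ) < 2 ^ m := by positivity
      have h5 : (2 : ℝ) ^ m * 1 ≤ 2 ^ m * ((r1 - r) * 2 ^ k) := by linarith
      exact le_of_mul_le_mul_left h5 h4
    linarith
  -- the pieces
  set gI : ℕ → E d → ℂ := fun k y => if Kp k then mo η a (2 ^ k) y * θ k y else 0 with hgI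
  set gII : ℕ × ℕ × ℕ → E d → ℂ := fun t y => if Kp t.1 ∧ t.1 ≤ t.2.1 then
    ((((2 : ℝ) ^ t.2.2)⁻¹ : ℝ) : ℂ) * (f t.2.1 t.2.2 y * θ t.1 y) else 0 with hgII
  have ampI : ∀ k, Kp k → AmpR d A3 r1 (2 ^ k) fun y => mo η a (2 ^ k) y * θ k y := by
    intro k hk
    have h1 := (hA0 a r (2 ^ k) (one_le_pow₀ (by norm_num)) ham ha1 har).1
    exact ab_wk (ab_mul h1 (hθ1 k) (hθ2 k)) (hKr k hk) (by positivity) hA31
  have ampII : ∀ k j i, Kp k → k ≤ j → j < N → i ≤ N →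
      AmpR d A3 r1 (2 ^ j) fun y => f j i y * θ k y := by
    intro k j i hk hkj hj hi
    have h1 := ((hfG j hj).2 i hi).1
    have hkj' : (2 : ℝ) ^ k ≤ 2 ^ j := pow_le_pow_right₀ (by norm_num) hkj
    refine ab_wk (ab_mul h1 (hθ1 k) fun l y => (hθ2 k l y).trans ?_) ?_ (by positivity) hA32
    · exact mul_le_mul_of_nonneg_left (pow_le_pow_left₀ (by positivity) hkj' l) (hA1 l)
    · refine le_trans ?_ (hKr k hk)
      gcongr
  have intI : ∀ k, Integrable (gI k) := by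
    intro k
    simp only [hgI]
    by_cases hk : Kp k
    · simp only [hk, if_true]
      exact ab_int (ampI k hk)
    · simp only [hk, if_false]
      exact integrable_zero _ _ _
  have intII : ∀ t : ℕ × ℕ × ℕ, t.2.1 < N → t.2.2 ≤ N → Integrable (gII t) := by
    intro t ht1 ht2
    simp only [hgII]
    by_cases hk : Kp t.1 ∧ t.1 ≤ t.2.1
    · simp only [hk, and_self, if_true]
      exact (ab_int (ampII t.1 t.2.1 t.2.2 hk.1 hk.2 ht1 ht2)).const_mul _
    · simp only [hk, if_false]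
      exact integrable_zero _ _ _
  set M0 : ℕ := n + m + 1 with hM0
  have hsum : ∀ y, (∑ k ∈ Finset.range M0, gI k y) +
      ∑ t ∈ Finset.range M0 ×ˢ (Finset.range N ×ˢ Finset.range (N + 1)), gII t y =
      mo η a (2 ^ N) y := by
    intro y
    rw [Finset.sum_product, ← Finset.sum_add_distrib]
    by_cases hy : ‖y‖ ≤ r1
    · have h1 : ∀ k ∈ Finset.range M0, gI k y +
          ∑ x ∈ Finset.range N ×ˢ Finset.range (N + 1), gII (k, x) y =
          mo η a (2 ^ N) y * θ k y := by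
        intro k hk
        have hkN : k < N := (Finset.mem_range.1 hk).trans_le hnN
        by_cases hkp : Kp k
        · rw [Finset.sum_product, ab_tele η a y hkN.le, add_mul]
          simp only [hgI, hgII, hkp, if_true, true_and]
          congr 1
          rw [Finset.sum_mul]
          have h2 : Finset.Ico k N = (Finset.range N).filter fun j => k ≤ j := by
            ext j
            simp only [Finset.mem_Ico, Finset.mem_filter, Finset.mem_range]
            tauto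
          rw [h2, Finset.sum_filter]
          refine Finset.sum_congr rfl fun j hj => ?_
          by_cases hkj : k ≤ j
          · simp only [hkj, if_true]
            rw [(hfG j (Finset.mem_range.1 hj)).1 y, Finset.sum_mul]
            exact Finset.sum_congr rfl fun i _ => by ring
          · simp only [hkj, if_false, Finset.sum_const_zero]
        · have h2 : θ k y = 0 := by
            by_contra h3
            exact hkp ⟨y, hy, h3⟩
          simp only [hgI, hgII, hkp, if_false, false_and, Finset.sum_const_zero, h2, mul_zero,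
            add_zero]
      rw [Finset.sum_congr rfl h1, ← Finset.mul_sum, hθ3 y hy, mul_one]
    · rw [not_le] at hy
      have h1 : mo η a (2 ^ N) y = 0 := by
        refine mo_supp hη har (by positivity) y (lt_of_le_of_lt ?_ hy)
        have h2 : 1 / (2 : ℝ) ^ N ≤ r1 - r := by
          have h3 : 1 / (r1 - r) ≤ 2 ^ N := hx4.trans (by rw [← Real.sqrt_eq_rpow]; exact hN1)
          rw [div_le_iff₀ hrr] at h3
          rw [div_le_iff₀ (by positivity)]
          linarith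
        linarith
      rw [h1]
      refine Finset.sum_eq_zero fun k hk => ?_
      have hI : gI k y = 0 := by
        simp only [hgI]
        by_cases hkp : Kp k
        · simp only [hkp, if_true]
          exact (ampI k hkp).supp y hy
        · simp only [hkp, if_false]
      rw [hI, zero_add]
      refine Finset.sum_eq_zero fun t ht => ?_
      obtain ⟨ht1, ht2⟩ := Finset.mem_product.1 ht
      simp only [hgII]
      by_cases hkp : Kp k ∧ k ≤ t.1
      · simp only [hkp, and_self, if_true]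
        have h3 := (ampII k t.1 t.2 hkp.1 hkp.2 (Finset.mem_range.1 ht1)
          (Nat.lt_succ_iff.1 (Finset.mem_range.1 ht2))).supp y hy
        rw [h3, mul_zero]
      · simp only [hkp, if_false]
  -- one finite family
  set U : Finset (ℕ ⊕ ℕ × ℕ × ℕ) := (Finset.range M0).disjSum
    (Finset.range M0 ×ˢ (Finset.range N ×ˢ Finset.range (N + 1))) with hU
  set g : ℕ ⊕ ℕ × ℕ × ℕ → E d → ℂ := Sum.elim gI gII with hg
  have intg : ∀ u ∈ U, Integrable (g u) := by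
    intro u hu
    rcases Finset.mem_disjSum.1 hu with ⟨k, _, rfl⟩ | ⟨t, ht, rfl⟩
    · exact intI k
    · obtain ⟨-, ht⟩ := Finset.mem_product.1 ht
      obtain ⟨ht1, ht2⟩ := Finset.mem_product.1 ht
      exact intII t (Finset.mem_range.1 ht1) (Nat.lt_succ_iff.1 (Finset.mem_range.1 ht2))
  have huu : ∀ x, uu (mo η a (2 ^ N)) q x = ∑ u ∈ U, uu (g u) q x :=
    uu_sum_fin U g _ q intg hqs.continuous fun y => by
      rw [hU, Finset.sum_disjSum]
      exact hsum y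
  have hp1 : 1 ≤ p := by linarith
  have hmain : ∫⁻ x, ‖uu (mo η a (2 ^ N)) q x‖ₑ ^ p ≤
      (U.card : ℝ≥0∞) ^ (p - 1) * ∑ u ∈ U, ∫⁻ x, ‖uu (g u) q x‖ₑ ^ p := by
    simp only [huu]
    exact lint_sum_fin volume U (fun u x => uu (g u) q x) p hp1 fun u hu =>
      (ab_cont (intg u hu) hqs.continuous.measurable).measurable.aemeasurable
  have hsplit : ∑ u ∈ U, ∫⁻ x, ‖uu (g u) q x‖ₑ ^ p =
      (∑ k ∈ Finset.range M0, ∫⁻ x, ‖uu (g (Sum.inl k)) q x‖ₑ ^ p) +
        ∑ t ∈ Finset.range M0 ×ˢ (Finset.range N ×ˢ Finset.range (N + 1)),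
          ∫⁻ x, ‖uu (g (Sum.inr t)) q x‖ₑ ^ p := by
    rw [hU, Finset.sum_disjSum]
  refine hmain.trans ?_
  rw [hsplit]
  -- the bounds of the pieces
  set L : ℝ := D * X with hL
  set Bq : ℝ≥0∞ := ENNReal.ofReal (K1 * L ^ (ε / 2)) with hBq
  have hLb : ∀ j, j < N → 1 + |c| + |s| + 2 ^ j ≤ L := by
    intro j hj
    have h1 : |s| ≤ |C1| * X := hs.trans (by gcongr; exact le_abs_self _)
    have h2 : (2 : ℝ) ^ j ≤ |P0| * X := by
      calc (2 : ℝ) ^ j ≤ 2 ^ N := pow_le_pow_right₀ (by norm_num) hj.le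
        _ ≤ P0 * √X := hN2
        _ ≤ |P0| * X := by
            refine mul_le_mul (le_abs_self _) ?_ (Real.sqrt_nonneg _) (abs_nonneg _)
            rw [Real.sqrt_le_left (by linarith)]
            nlinarith
    rw [hL, hD]
    nlinarith
  have bI : ∀ k ∈ Finset.range M0, ∫⁻ x, ‖uu (gI k) q x‖ₑ ^ p ≤
      Bq * ∫⁻ y in Fl J κ q r' m k, ENNReal.ofReal (Vv Φ h c s (2 ^ k) y ^ (p - 2)) := by
    intro k hk
    have hkN : k < N := (Finset.mem_range.1 hk).trans_le hnN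
    by_cases hkp : Kp k
    · have h1 : gI k = fun y => mo η a (2 ^ k) y * θ k y := by
        funext y
        simp only [hgI, hkp, if_true]
      rw [h1]
      refine hone Φ h _ c s r1 (2 ^ k) L (Fl J κ q r' m k) hΦ hh hdef
        (one_le_pow₀ (by norm_num)) (hLb k hkN) (ampI k hkp) ?_ (fun y hy => hy.1) ?_ ?_
      · exact measurableSet_Fl d J κ q hqs r' m k
      · intro y hy
        have hyr : ‖y‖ ≤ r1 := by
          by_contra h2
          exact hy ((ampI k hkp).supp y (not_le.1 h2))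
        exact (hθ5 k y hyr (right_ne_zero_of_mul hy)).1
      · intro y hy j hj
        refine ((hθ4 k).bd y hy j hj).trans ?_
        exact mul_le_mul_of_nonneg_right (hA33 j) (by positivity)
    · have h1 : gI k = fun _ => 0 := by
        funext y
        simp only [hgI, hkp, if_false]
      rw [h1]
      simp only [ab_uu_zero, enorm_zero, ENNReal.zero_rpow_of_pos (by linarith : 0 < p),
        lintegral_zero, zero_le]
  have bII : ∀ k j i, k ∈ Finset.range M0 → j ∈ Finset.range N → i ∈ Finset.range (N + 1) →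
      ∫⁻ x, ‖uu (gII (k, j, i)) q x‖ₑ ^ p ≤ Bq * (ENNReal.ofReal ((((2 : ℝ) ^ i)⁻¹) ^ p) *
        ∫⁻ y in G j i, ENNReal.ofReal (Vv Φ h c s (2 ^ j) y ^ (p - 2))) := by
    intro k j i hk hj hi
    have hjN : j < N := Finset.mem_range.1 hj
    have hiN : i ≤ N := Nat.lt_succ_iff.1 (Finset.mem_range.1 hi)
    by_cases hkp : Kp k ∧ k ≤ j
    · obtain ⟨hkp, hkj⟩ := hkp
      have hkj' : (2 : ℝ) ^ k ≤ 2 ^ j := pow_le_pow_right₀ (by norm_num) hkj
      have h1 : gII (k, j, i) = fun y => ((((2 : ℝ) ^ i)⁻¹ : ℝ) : ℂ) * (f j i y * θ k y) := by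
        funext y
        simp only [hgII, hkp, hkj, and_self, if_true]
      have h2 : ∀ x, ‖uu (gII (k, j, i)) q x‖ₑ ^ p = ENNReal.ofReal ((((2 : ℝ) ^ i)⁻¹) ^ p) *
          ‖uu (fun y => f j i y * θ k y) q x‖ₑ ^ p := by
        intro x
        rw [h1, ab_uu_const, enorm_mul, ENNReal.mul_rpow_of_nonneg _ _ (by linarith)]
        congr 1
        rw [← ofReal_norm, Complex.norm_real, Real.norm_of_nonneg (by positivity),
          ENNReal.ofReal_rpow_of_nonneg (by positivity) (by linarith)]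
      simp only [h2]
      rw [lintegral_const_mul' _ _ ENNReal.ofReal_ne_top, ← mul_assoc, mul_comm Bq, mul_assoc]
      refine mul_le_mul_right ?_ _
      have h3 := (hfG j hjN).2 i hiN
      have h4 := hone Φ h (fun y => f j i y * θ k y) c s r1 (2 ^ j) L
        (G' j i ∩ Fl J κ q r' m k) hΦ hh hdef (one_le_pow₀ (by norm_num)) (hLb j hjN)
        (ampII k j i hkp hkj hjN hiN) (h3.2.1.inter (measurableSet_Fl d J κ q hqs r' m k))
        (fun y hy => hy.2.1) ?_ ?_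
      · refine h4.trans ?_
        refine mul_le_mul_right (lintegral_mono_set ?_) _
        rw [hGeq hjN hiN]
        intro y hy
        exact ⟨hy.1, by simpa using hy.2.1⟩
      · intro y hy
        have hyr : ‖y‖ ≤ r1 := by
          by_contra h2
          exact hy ((ampII k j i hkp hkj hjN hiN).supp y (not_le.1 h2))
        refine subset_inter (h3.2.2.1 y (left_ne_zero_of_mul hy)) ?_
        refine (closedBall_subset_closedBall ?_).trans (hθ5 k y hyr (right_ne_zero_of_mul hy)).1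
        exact one_div_le_one_div_of_le (by positivity) hkj'
      · intro y hy l hl
        refine ((hθ4 k).bd y hy.2 l hl).trans ?_
        exact mul_le_mul (hA33 l) (pow_le_pow_left₀ (by positivity) hkj' l) (by positivity)
          ((hA1 l).trans (hA33 l))
    · have h1 : gII (k, j, i) = fun _ => 0 := by
        funext y
        simp only [hgII, hkp, if_false]
      rw [h1]
      simp only [ab_uu_zero, enorm_zero, ENNReal.zero_rpow_of_pos (by linarith : 0 < p),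
        lintegral_zero, zero_le]
  set S1 : ℝ≥0∞ := ∑ k ∈ Finset.range N, ∫⁻ y in Fl J κ q r' m k,
    ENNReal.ofReal (Vv Φ h c s (2 ^ k) y ^ (p - 2)) with hS1
  set S2 : ℝ≥0∞ := ∑ j ∈ Finset.range N, ∑ i ∈ Finset.range (N + 1),
    ENNReal.ofReal ((((2 : ℝ) ^ i)⁻¹) ^ p) *
      ∫⁻ y in G j i, ENNReal.ofReal (Vv Φ h c s (2 ^ j) y ^ (p - 2)) with hS2
  have t1 : ∑ k ∈ Finset.range M0, ∫⁻ x, ‖uu (g (Sum.inl k)) q x‖ₑ ^ p ≤ Bq * S1 := by
    calc ∑ k ∈ Finset.range M0, ∫⁻ x, ‖uu (g (Sum.inl k)) q x‖ₑ ^ p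
        ≤ ∑ k ∈ Finset.range M0, Bq * ∫⁻ y in Fl J κ q r' m k,
            ENNReal.ofReal (Vv Φ h c s (2 ^ k) y ^ (p - 2)) := Finset.sum_le_sum bI
      _ ≤ ∑ k ∈ Finset.range N, Bq * ∫⁻ y in Fl J κ q r' m k,
            ENNReal.ofReal (Vv Φ h c s (2 ^ k) y ^ (p - 2)) :=
          Finset.sum_le_sum_of_subset (Finset.range_subset_range.2 hnN)
      _ = Bq * S1 := by rw [hS1, Finset.mul_sum]
  have t2 : ∑ t ∈ Finset.range M0 ×ˢ (Finset.range N ×ˢ Finset.range (N + 1)),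
      ∫⁻ x, ‖uu (g (Sum.inr t)) q x‖ₑ ^ p ≤ (N : ℝ≥0∞) * (Bq * S2) := by
    rw [Finset.sum_product]
    calc ∑ k ∈ Finset.range M0, ∑ t ∈ Finset.range N ×ˢ Finset.range (N + 1),
          ∫⁻ x, ‖uu (g (Sum.inr (k, t))) q x‖ₑ ^ p
        ≤ ∑ _k ∈ Finset.range M0, Bq * S2 := by
          refine Finset.sum_le_sum fun k hk => ?_
          rw [Finset.sum_product, hS2, Finset.mul_sum]
          refine Finset.sum_le_sum fun j hj => ?_
          rw [Finset.mul_sum]
          exact Finset.sum_le_sum fun i hi => bII k j i hk hj hi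
      _ = (M0 : ℝ≥0∞) * (Bq * S2) := by
          rw [Finset.sum_const, Finset.card_range, nsmul_eq_mul]
      _ ≤ (N : ℝ≥0∞) * (Bq * S2) := by
          gcongr
  have hcard : U.card ≤ (N + 1) ^ 3 := by
    rw [hU, Finset.card_disjSum, Finset.card_product, Finset.card_product, Finset.card_range,
      Finset.card_range, Finset.card_range]
    have h1 : M0 + M0 * (N * (N + 1)) ≤ N + N * (N * (N + 1)) := by gcongr
    nlinarith
  have hNX : (N : ℝ) + 1 ≤ K3 * X ^ (ε / (2 * e)) := by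
    refine hnum X N hX1 (hN2.trans ?_)
    refine mul_le_mul (le_abs_self _) ?_ (Real.sqrt_nonneg _) (abs_nonneg _)
    rw [Real.sqrt_le_left (by linarith)]
    nlinarith
  have hfin : (U.card : ℝ≥0∞) ^ (p - 1) * ((N : ℝ≥0∞) + 1) * Bq ≤
      ENNReal.ofReal (K * X ^ ε) := by
    have h1 : (U.card : ℝ≥0∞) ≤ ENNReal.ofReal (((N : ℝ) + 1) ^ 3) := by
      rw [← ENNReal.ofReal_natCast]
      refine ENNReal.ofReal_le_ofReal ?_
      exact_mod_cast hcard
    have h2 : (U.card : ℝ≥0∞) ^ (p - 1) ≤ ENNReal.ofReal (((N : ℝ) + 1) ^ (3 * (p - 1))) := by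
      refine (ENNReal.rpow_le_rpow h1 (by linarith)).trans (le_of_eq ?_)
      rw [ENNReal.ofReal_rpow_of_nonneg (by positivity) (by linarith), ← Real.rpow_natCast,
        ← Real.rpow_mul (by positivity)]
      norm_num
    have h3 : (N : ℝ≥0∞) + 1 = ENNReal.ofReal ((N : ℝ) + 1) := by
      rw [ENNReal.ofReal_add (by positivity) zero_le_one, ENNReal.ofReal_natCast,
        ENNReal.ofReal_one]
    rw [h3, hBq]
    calc (U.card : ℝ≥0∞) ^ (p - 1) * ENNReal.ofReal ((N : ℝ) + 1) *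
          ENNReal.ofReal (K1 * L ^ (ε / 2))
        ≤ ENNReal.ofReal (((N : ℝ) + 1) ^ (3 * (p - 1))) * ENNReal.ofReal ((N : ℝ) + 1) *
          ENNReal.ofReal (K1 * L ^ (ε / 2)) := by gcongr
      _ = ENNReal.ofReal (((N : ℝ) + 1) ^ e * (K1 * L ^ (ε / 2))) := by
          rw [← ENNReal.ofReal_mul (by positivity), ← ENNReal.ofReal_mul (by positivity), he,
            Real.rpow_add (by positivity) (3 * (p - 1)) 1, Real.rpow_one]
      _ ≤ ENNReal.ofReal (K * X ^ ε) := by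
          refine ENNReal.ofReal_le_ofReal ?_
          have h4 : ((N : ℝ) + 1) ^ e ≤ K3 ^ e * X ^ (ε / 2) := by
            refine (Real.rpow_le_rpow (by positivity) hNX he0.le).trans (le_of_eq ?_)
            rw [Real.mul_rpow hK3.le (by positivity), ← Real.rpow_mul (by linarith)]
            congr 2
            field_simp
          have h5 : L ^ (ε / 2) = D ^ (ε / 2) * X ^ (ε / 2) :=
            Real.mul_rpow hD0.le (by linarith)
          have h6 : X ^ (ε / 2) * X ^ (ε / 2) = X ^ ε := by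
            rw [← Real.rpow_add (by linarith)]
            congr 1
            ring
          calc ((N : ℝ) + 1) ^ e * (K1 * L ^ (ε / 2))
              ≤ K3 ^ e * X ^ (ε / 2) * (K1 * (D ^ (ε / 2) * X ^ (ε / 2))) := by
                rw [h5]
                gcongr
            _ = K3 ^ e * (K1 * D ^ (ε / 2)) * (X ^ (ε / 2) * X ^ (ε / 2)) := by ring
            _ ≤ K * X ^ ε := by
                rw [h6]
                gcongr
  calc (U.card : ℝ≥0∞) ^ (p - 1) * ((∑ k ∈ Finset.range M0,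
        ∫⁻ x, ‖uu (g (Sum.inl k)) q x‖ₑ ^ p) +
        ∑ t ∈ Finset.range M0 ×ˢ (Finset.range N ×ˢ Finset.range (N + 1)),
          ∫⁻ x, ‖uu (g (Sum.inr t)) q x‖ₑ ^ p)
      ≤ (U.card : ℝ≥0∞) ^ (p - 1) * (Bq * S1 + (N : ℝ≥0∞) * (Bq * S2)) := by gcongr
    _ ≤ (U.card : ℝ≥0∞) ^ (p - 1) * (((N : ℝ≥0∞) + 1) * (Bq * S1) +
        ((N : ℝ≥0∞) + 1) * (Bq * S2)) := by
        refine mul_le_mul_right (add_le_add ?_ ?_) _
        · calc Bq * S1 = 1 * (Bq * S1) := (one_mul _).symm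
            _ ≤ _ := mul_le_mul_left (le_add_self) _
        · exact mul_le_mul_left (le_self_add) _
    _ = (U.card : ℝ≥0∞) ^ (p - 1) * ((N : ℝ≥0∞) + 1) * Bq * (S1 + S2) := by ring
    _ ≤ ENNReal.ofReal (K * X ^ ε) * (S1 + S2) := by gcongr

end Pool.Agent.GNP
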