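import Pool.Agent.GNP.Defs2

/-!
Rough amplitudes: definitions.
-/

namespace Pool.Agent.GNP

open MeasureTheory Set Pool.Agent.MP_6cbfb8_an
open scoped ENNReal Real RealInnerProductSpace ContDiff

/-- `a` has `L¹`-modulus of continuity of order `s` in `R^d`, in the mean over pairs of points. -/
def BVE (d : ℕ) (s V : ℝ) (a : E d → ℂ) : Prop :=
  ∀ r : ℝ, 0 < r →
    ∫⁻ x : E d, (∫⁻ y in Metric.closedBall x r, ‖a x - a y‖ₑ) ≤
      ENNReal.ofReal (V * r ^ ((d : ℝ) + s))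

/-- `a` has `L¹`-modulus of continuity of order `s` on the unit sphere of `R^n`, in the mean over
pairs of points: for `s = 1` these are the functions of bounded variation. -/
def BVn (n : ℕ) (s V : ℝ) (a : E n → ℂ) : Prop :=
  ∀ r : ℝ, 0 < r →
    ∫⁻ x : S n, (∫⁻ y in Metric.closedBall x r, ‖a x - a y‖ₑ ∂(sm n)) ∂(sm n) ≤
      ENNReal.ofReal (V * r ^ ((n : ℝ) - 1 + s))

/-- Bounds for the derivatives of a phase near the sphere. -/
def PhB (n : ℕ) (B : ℕ → ℝ) (φ : E n → ℝ) : Prop :=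
  ContDiff ℝ ∞ φ ∧ ∀ k x, ‖x‖ ≤ 2 → ‖iteratedFDeriv ℝ k φ x‖ ≤ B k

/-- Mollification at scale `1/P`. -/
noncomputable def mo {d : ℕ} (η : E d → ℝ) (a : E d → ℂ) (P : ℝ) (y : E d) : ℂ :=
  ∫ v, ((P ^ d * η (P • (y - v)) : ℝ) : ℂ) * a v

/-- The difference of the mollifications at the scales `1/(2P)` and `1/P`. -/
noncomputable def mf {d : ℕ} (η : E d → ℝ) (a : E d → ℂ) (P : ℝ) (y : E d) : ℂ :=
  mo η a (2 * P) y - mo η a P y

end Pool.Agent.GNP
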