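import Pool.Agent.GNP.CHU
import Pool.Agent.GNP.Defs3

/-! The chart for rough amplitudes. -/

namespace Pool.Agent.GNP

open MeasureTheory Set Metric Pool.Agent.MP_6cbfb8_an
open scoped ENNReal Real RealInnerProductSpace ContDiff

theorem chw_lip {d : ℕ} {W : Type*} [NormedAddCommGroup W] [NormedSpace ℝ W] {A : ℕ → ℝ}
    {g : E d → W} (hg : ContDiff ℝ ∞ g) (hA : ∀ j y, ‖iteratedFDeriv ℝ j g y‖ ≤ A j) (x y : E d) :
    ‖g x - g y‖ ≤ A 1 * ‖x - y‖ := by
  refine Convex.norm_image_sub_le_of_norm_fderiv_le (𝕜 := ℝ) (s := univ)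
    (fun z _ => (hg.differentiable (by simp)) z) (fun z _ => ?_) convex_univ (mem_univ y)
    (mem_univ x)
  rw [← norm_iteratedFDeriv_one]
  exact hA 1 z

theorem chw_graph_meas (n : ℕ) : Measurable fun y : E (n + 1) => (join y (hs y) : E (n + 2)) :=
  Pool.Agent.MST.hch_measurable_graph n

theorem chw_one (n : ℕ) (φ : E (n + 2) → ℝ≥0∞) (hφ : Measurable φ) :
    ∫⁻ u in ball (0 : E (n + 1)) 1, φ (join u (hs u)) ≤ ∫⁻ x : S (n + 2), φ x ∂(sm (n + 2)) := by
  calc ∫⁻ u in ball (0 : E (n + 1)) 1, φ (join u (hs u))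
      ≤ ∫⁻ u in ball (0 : E (n + 1)) 1, φ (join u √(1 - ‖u‖ ^ 2)) *
          ENNReal.ofReal (1 / √(1 - ‖u‖ ^ 2)) := by
        refine setLIntegral_mono' measurableSet_ball fun u hu => ?_
        have h1 : 0 < √(1 - ‖u‖ ^ 2) := cha_hs_pos hu
        have h2 : √(1 - ‖u‖ ^ 2) ≤ 1 := by
          refine Real.sqrt_le_iff.2 ⟨zero_le_one, ?_⟩
          nlinarith [norm_nonneg u]
        have h3 : (1 : ℝ≥0∞) ≤ ENNReal.ofReal (1 / √(1 - ‖u‖ ^ 2)) := by
          rw [ENNReal.one_le_ofReal]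
          exact (one_le_div h1).2 h2
        calc φ (join u (hs u)) = φ (join u √(1 - ‖u‖ ^ 2)) * 1 := by rw [mul_one]; rfl
          _ ≤ _ := by gcongr
    _ = ∫⁻ x : S (n + 2), (if 0 < (x : E (n + 2)) (Fin.last (n + 1)) then φ x else 0)
          ∂(sm (n + 2)) := (Pool.Agent.MST.chart_lintegral n φ hφ).symm
    _ ≤ _ := lintegral_mono fun x => by
        simp only
        split_ifs <;> simp

theorem chw_two (n : ℕ) (K : E (n + 2) × E (n + 2) → ℝ≥0∞) (hK : Measurable K) :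
    ∫⁻ x in ball (0 : E (n + 1)) 1, ∫⁻ y in ball (0 : E (n + 1)) 1,
      K (join x (hs x), join y (hs y)) ≤
      ∫⁻ X : S (n + 2), ∫⁻ Y : S (n + 2), K ((X : E (n + 2)), (Y : E (n + 2))) ∂(sm (n + 2))
        ∂(sm (n + 2)) := by
  have h1 : Measurable fun X : E (n + 2) =>
      ∫⁻ Y : S (n + 2), K (X, (Y : E (n + 2))) ∂(sm (n + 2)) := by
    refine Measurable.lintegral_prod_right'
      (f := fun q : E (n + 2) × S (n + 2) => K (q.1, (q.2 : E (n + 2)))) ?_
    exact hK.comp (measurable_fst.prodMk (measurable_subtype_coe.comp measurable_snd))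
  refine le_trans (lintegral_mono fun x => ?_) (chw_one n _ h1)
  exact chw_one n (fun Y => K (join x (hs x), Y)) (hK.comp measurable_prodMk_left)

theorem chw_bve (n : ℕ) (r : ℝ) (hr : 0 < r) (hr1 : r < 1) (s V L : ℝ) (hs0 : 0 < s)
    (hs1 : s ≤ 1) (hV : 0 ≤ V) (hL : 0 ≤ L) :
    ∃ V' : ℝ, 1 ≤ V' ∧ ∀ (w : E (n + 1) → ℝ) (a : E (n + 2) → ℂ), Measurable a →
      (∀ x, ‖a x‖ ≤ 1) → Measurable w → (∀ y, |w y| ≤ 1) →
      (∀ x y, |w x - w y| ≤ L * ‖x - y‖) → (∀ y, r < ‖y‖ → (w y : ℂ) * a (join y (hs y)) = 0) →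
      BVn (n + 2) s V a → BVE (n + 1) s V' (fun y => (w y : ℂ) * a (join y (hs y))) := by
  classical
  set t0 : ℝ := (1 - r) / 2 with ht0
  have ht00 : 0 < t0 := by rw [ht0]; linarith
  have hr' : r + t0 < 1 := by rw [ht0]; linarith
  obtain ⟨A, g, hg1, hg2, hg3, -⟩ := cha_cut (r + t0) hr'
    (fun y : E (n + 1) => (join y (hs y) : E (n + 2))) cha_graph_smooth
  set Λ : ℝ := max 1 (A 1) with hΛ
  have hΛ1 : 1 ≤ Λ := le_max_left _ _
  have hlip : ∀ x y : E (n + 1), ‖x‖ ≤ r + t0 → ‖y‖ ≤ r + t0 →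
      dist (join y (hs y) : E (n + 2)) (join x (hs x)) ≤ Λ * dist y x := by
    intro x y hx hy
    rw [dist_eq_norm, dist_eq_norm, ← hg3 y hy, ← hg3 x hx]
    refine (chw_lip hg1 hg2 y x).trans ?_
    gcongr
    exact le_max_right _ _
  set β : ℝ≥0∞ := volume (ball (0 : E (n + 1)) 1) with hβ
  have hβt : β ≠ ⊤ := measure_ball_lt_top.ne
  set b : ℝ := β.toReal with hb
  have hb0 : 0 ≤ b := ENNReal.toReal_nonneg
  have hβb : β = ENNReal.ofReal b := (ENNReal.ofReal_toReal hβt).symm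
  set D : ℝ := ((n + 1 : ℕ) : ℝ) + s with hD
  refine ⟨max 1 (V * Λ ^ D + L * b ^ 2 + 2 * b ^ 2 * t0 ^ (-s)), le_max_left _ _, ?_⟩
  intro w a ha ha1 hw hw1 hwL hsupp hbv t ht
  have hball : ∀ x : E (n + 1), volume (closedBall x t) = ENNReal.ofReal (t ^ (n + 1) * b) := by
    intro x
    rw [Measure.addHaar_closedBall _ x ht.le, finrank_euclideanSpace_fin,
      ENNReal.ofReal_mul (by positivity), ← hβb]
  set A' : E (n + 1) → ℂ := fun y => (w y : ℂ) * a (join y (hs y)) with hA'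
  have hA'm : Measurable A' := by
    rw [hA']
    exact (Complex.measurable_ofReal.comp hw).mul (ha.comp (chw_graph_meas n))
  have hA'1 : ∀ y, ‖A' y‖ ≤ 1 := by
    intro y
    rw [hA']
    simp only
    rw [norm_mul, Complex.norm_real, Real.norm_eq_abs]
    exact mul_le_one₀ (hw1 y) (norm_nonneg _) (ha1 _)
  have hA'int : ∫⁻ y, ‖A' y‖ₑ ≤ ENNReal.ofReal b := by
    rw [← hβb, hβ, ← lintegral_indicator_one measurableSet_ball]
    refine lintegral_mono fun y => ?_
    by_cases hy : y ∈ ball (0 : E (n + 1)) 1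
    · rw [indicator_of_mem hy, ← ofReal_norm]
      simpa using ENNReal.ofReal_le_ofReal (hA'1 y)
    · have hy1 : 1 ≤ ‖y‖ := by simpa using hy
      have : A' y = 0 := hsupp y (hr1.trans_le hy1)
      rw [this]
      simp
  have htD : t ^ D = t ^ (n + 1) * t ^ s := by
    rw [hD, Real.rpow_add ht, Real.rpow_natCast]
  rcases le_or_gt t t0 with htt | htt
  · -- small distances
    set K : E (n + 2) × E (n + 2) → ℝ≥0∞ := fun q =>
      if dist q.2 q.1 ≤ Λ * t then ‖a q.1 - a q.2‖ₑ else 0 with hK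
    have hKm : Measurable K := by
      refine Measurable.ite (measurableSet_le (by fun_prop) measurable_const) ?_ measurable_const
      exact ((ha.comp measurable_fst).sub (ha.comp measurable_snd)).enorm
    have hpt : ∀ x ∈ ball (0 : E (n + 1)) 1, ∀ y ∈ closedBall x t, ‖A' x - A' y‖ₑ ≤
        (ball (0 : E (n + 1)) 1).indicator (fun y => K (join x (hs x), join y (hs y))) y +
          ENNReal.ofReal (L * t) := by
      intro x hx y hy
      have hyx : dist y x ≤ t := hy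
      by_cases hc : ‖x‖ ≤ r ∨ ‖y‖ ≤ r
      · have h1 : ‖x‖ ≤ r + t0 ∧ ‖y‖ ≤ r + t0 := by
          rw [dist_eq_norm] at hyx
          rcases hc with hc | hc
          · refine ⟨by linarith, ?_⟩
            have := norm_add_le (y - x) x
            rw [sub_add_cancel] at this
            linarith
          · refine ⟨?_, by linarith⟩
            have := norm_add_le (x - y) y
            rw [sub_add_cancel] at this
            rw [norm_sub_rev] at this
            linarith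
        have hyb : y ∈ ball (0 : E (n + 1)) 1 := by simpa using h1.2.trans_lt hr'
        rw [indicator_of_mem hyb, hK]
        simp only
        rw [if_pos ((hlip x y h1.1 h1.2).trans (by gcongr)), ← ofReal_norm,
          ← ofReal_norm, ← ENNReal.ofReal_add (norm_nonneg _) (by positivity)]
        refine ENNReal.ofReal_le_ofReal ?_
        have e : A' x - A' y = (w x : ℂ) * (a (join x (hs x)) - a (join y (hs y))) +
            ((w x - w y : ℝ) : ℂ) * a (join y (hs y)) := by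
          rw [hA']
          push_cast
          ring
        rw [e]
        refine (norm_add_le _ _).trans (add_le_add ?_ ?_)
        · rw [norm_mul, Complex.norm_real, Real.norm_eq_abs]
          calc |w x| * ‖a (join x (hs x)) - a (join y (hs y))‖ ≤
              1 * ‖a (join x (hs x)) - a (join y (hs y))‖ := by gcongr; exact hw1 x
            _ = _ := one_mul _
        · rw [norm_mul, Complex.norm_real, Real.norm_eq_abs]
          calc |w x - w y| * ‖a (join y (hs y))‖ ≤ (L * t) * 1 := by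
                have h2 := hwL x y
                have h3 : ‖x - y‖ ≤ t := by rw [← dist_eq_norm, dist_comm]; exact hyx
                have h4 : |w x - w y| ≤ L * t := h2.trans (by gcongr)
                exact mul_le_mul h4 (ha1 _) (norm_nonneg _) (by positivity)
            _ = _ := mul_one _
      · push Not at hc
        have h1 : A' x = 0 := hsupp x hc.1
        have h2 : A' y = 0 := hsupp y hc.2
        rw [h1, h2]
        simp
    have hx1 : ∀ x : E (n + 1), ∫⁻ y in closedBall x t, ‖A' x - A' y‖ₑ ≤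
        (ball (0 : E (n + 1)) 1).indicator (fun x => (∫⁻ y in ball (0 : E (n + 1)) 1,
          K (join x (hs x), join y (hs y))) + ENNReal.ofReal (L * t * (t ^ (n + 1) * b))) x := by
      intro x
      by_cases hx : x ∈ ball (0 : E (n + 1)) 1
      · rw [indicator_of_mem hx]
        calc ∫⁻ y in closedBall x t, ‖A' x - A' y‖ₑ
            ≤ ∫⁻ y in closedBall x t, ((ball (0 : E (n + 1)) 1).indicator
                (fun y => K (join x (hs x), join y (hs y))) y + ENNReal.ofReal (L * t)) :=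
              setLIntegral_mono' measurableSet_closedBall (hpt x hx)
          _ = (∫⁻ y in closedBall x t, (ball (0 : E (n + 1)) 1).indicator
                (fun y => K (join x (hs x), join y (hs y))) y) +
                ∫⁻ y in closedBall x t, ENNReal.ofReal (L * t) :=
              lintegral_add_right _ measurable_const
          _ ≤ (∫⁻ y, (ball (0 : E (n + 1)) 1).indicator
                (fun y => K (join x (hs x), join y (hs y))) y) +
                ENNReal.ofReal (L * t * (t ^ (n + 1) * b)) := by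
              refine add_le_add (setLIntegral_le_lintegral _ _) ?_
              rw [setLIntegral_const, hball, ← ENNReal.ofReal_mul (by positivity)]
          _ = _ := by rw [lintegral_indicator measurableSet_ball]
      · rw [indicator_of_notMem hx]
        have hx1 : 1 ≤ ‖x‖ := by simpa using hx
        refine le_of_eq ?_
        rw [← lintegral_zero (μ := volume.restrict (closedBall x t))]
        refine setLIntegral_congr_fun measurableSet_closedBall fun y hy => ?_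
        have hyx : dist y x ≤ t := hy
        have h2 : r < ‖y‖ := by
          rw [dist_eq_norm, norm_sub_rev] at hyx
          have := norm_add_le (x - y) y
          rw [sub_add_cancel] at this
          linarith
        have h3 : A' x = 0 := hsupp x (hr1.trans_le hx1)
        have h4 : A' y = 0 := hsupp y h2
        simp [h3, h4]
    calc ∫⁻ x, ∫⁻ y in closedBall x t, ‖A' x - A' y‖ₑ
        ≤ ∫⁻ x, (ball (0 : E (n + 1)) 1).indicator (fun x => (∫⁻ y in ball (0 : E (n + 1)) 1,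
          K (join x (hs x), join y (hs y))) + ENNReal.ofReal (L * t * (t ^ (n + 1) * b))) x :=
          lintegral_mono hx1
      _ = ∫⁻ x in ball (0 : E (n + 1)) 1, ((∫⁻ y in ball (0 : E (n + 1)) 1,
          K (join x (hs x), join y (hs y))) + ENNReal.ofReal (L * t * (t ^ (n + 1) * b))) :=
          lintegral_indicator measurableSet_ball _
      _ = (∫⁻ x in ball (0 : E (n + 1)) 1, ∫⁻ y in ball (0 : E (n + 1)) 1,
          K (join x (hs x), join y (hs y))) + ENNReal.ofReal (L * t * (t ^ (n + 1) * b)) * β := by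
          rw [lintegral_add_right _ measurable_const, setLIntegral_const]
      _ ≤ ENNReal.ofReal (V * (Λ * t) ^ D) + ENNReal.ofReal (L * t * (t ^ (n + 1) * b)) * β := by
          refine add_le_add ((chw_two n K hKm).trans ?_) le_rfl
          have h5 := hbv (Λ * t) (by positivity)
          have h6 : (((n + 2 : ℕ) : ℝ) - 1 + s) = D := by
            rw [hD]
            push_cast
            ring
          rw [h6] at h5
          refine le_trans (le_of_eq ?_) h5
          refine lintegral_congr fun X => ?_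
          rw [← lintegral_indicator measurableSet_closedBall]
          refine lintegral_congr fun Y => ?_
          rw [hK]
          simp only [indicator, mem_closedBall]
          rfl
      _ = ENNReal.ofReal (V * (Λ * t) ^ D + L * t * (t ^ (n + 1) * b) * b) := by
          rw [hβb, ← ENNReal.ofReal_mul (by positivity), ← ENNReal.ofReal_add (by positivity)
            (by positivity)]
      _ ≤ _ := by
          refine ENNReal.ofReal_le_ofReal ?_
          have ht1 : t ≤ 1 := by linarith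
          have h7 : t ≤ t ^ s := by
            calc t = t ^ (1 : ℝ) := (Real.rpow_one t).symm
              _ ≤ t ^ s := Real.rpow_le_rpow_of_exponent_ge ht ht1 hs1
          have h8 : (Λ * t) ^ D = Λ ^ D * t ^ D :=
            Real.mul_rpow (by positivity) ht.le
          rw [h8]
          calc V * (Λ ^ D * t ^ D) + L * t * (t ^ (n + 1) * b) * b
              = V * Λ ^ D * t ^ D + L * b ^ 2 * (t ^ (n + 1) * t) := by ring
            _ ≤ V * Λ ^ D * t ^ D + L * b ^ 2 * (t ^ (n + 1) * t ^ s) := by gcongr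
            _ = (V * Λ ^ D + L * b ^ 2) * t ^ D := by rw [← htD]; ring
            _ ≤ max 1 (V * Λ ^ D + L * b ^ 2 + 2 * b ^ 2 * t0 ^ (-s)) * t ^ D := by
                gcongr
                refine le_trans ?_ (le_max_right _ _)
                have : 0 ≤ 2 * b ^ 2 * t0 ^ (-s) := by positivity
                linarith
  · -- large distances
    have h1 : ∀ x : E (n + 1), ∫⁻ y in closedBall x t, ‖A' x - A' y‖ₑ ≤
        ‖A' x‖ₑ * ENNReal.ofReal (t ^ (n + 1) * b) + ∫⁻ y in closedBall x t, ‖A' y‖ₑ := by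
      intro x
      calc ∫⁻ y in closedBall x t, ‖A' x - A' y‖ₑ
          ≤ ∫⁻ y in closedBall x t, (‖A' x‖ₑ + ‖A' y‖ₑ) := lintegral_mono fun y => enorm_sub_le
        _ = (∫⁻ y in closedBall x t, ‖A' x‖ₑ) + ∫⁻ y in closedBall x t, ‖A' y‖ₑ :=
            lintegral_add_left measurable_const _
        _ = _ := by rw [setLIntegral_const, hball]
    have h2 : ∫⁻ x, ∫⁻ y in closedBall x t, ‖A' y‖ₑ =
        ∫⁻ y, ‖A' y‖ₑ * ENNReal.ofReal (t ^ (n + 1) * b) := by
      have h3 : ∀ x : E (n + 1), ∫⁻ y in closedBall x t, ‖A' y‖ₑ =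
          ∫⁻ y, if dist y x ≤ t then ‖A' y‖ₑ else 0 := by
        intro x
        rw [← lintegral_indicator measurableSet_closedBall]
        refine lintegral_congr fun y => ?_
        simp only [indicator, mem_closedBall]
      simp_rw [h3]
      rw [lintegral_lintegral_swap]
      · refine lintegral_congr fun y => ?_
        have h4 : ∀ x : E (n + 1), (if dist y x ≤ t then ‖A' y‖ₑ else 0) =
            (closedBall y t).indicator (fun _ => ‖A' y‖ₑ) x := by
          intro x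
          simp only [indicator, mem_closedBall, dist_comm x y]
        simp_rw [h4]
        rw [lintegral_indicator measurableSet_closedBall, setLIntegral_const, hball]
      · refine Measurable.aemeasurable ?_
        refine Measurable.ite (measurableSet_le (by fun_prop) measurable_const) ?_
          measurable_const
        exact (hA'm.comp measurable_snd).enorm
    calc ∫⁻ x, ∫⁻ y in closedBall x t, ‖A' x - A' y‖ₑ
        ≤ ∫⁻ x, (‖A' x‖ₑ * ENNReal.ofReal (t ^ (n + 1) * b) +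
            ∫⁻ y in closedBall x t, ‖A' y‖ₑ) := lintegral_mono h1
      _ = (∫⁻ x, ‖A' x‖ₑ * ENNReal.ofReal (t ^ (n + 1) * b)) +
            ∫⁻ x, ∫⁻ y in closedBall x t, ‖A' y‖ₑ :=
          lintegral_add_left (hA'm.enorm.mul_const _) _
      _ = (∫⁻ x, ‖A' x‖ₑ) * ENNReal.ofReal (t ^ (n + 1) * b) +
            (∫⁻ x, ‖A' x‖ₑ) * ENNReal.ofReal (t ^ (n + 1) * b) := by
          rw [h2, lintegral_mul_const _ hA'm.enorm]
      _ ≤ ENNReal.ofReal b * ENNReal.ofReal (t ^ (n + 1) * b) +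
            ENNReal.ofReal b * ENNReal.ofReal (t ^ (n + 1) * b) := by gcongr
      _ = ENNReal.ofReal (b * (t ^ (n + 1) * b) + b * (t ^ (n + 1) * b)) := by
          rw [← ENNReal.ofReal_mul hb0, ← ENNReal.ofReal_add (by positivity) (by positivity)]
      _ ≤ _ := by
          refine ENNReal.ofReal_le_ofReal ?_
          have h5 : 1 ≤ t0 ^ (-s) * t ^ s := by
            rw [Real.rpow_neg ht00.le, ← div_eq_inv_mul, ← Real.div_rpow ht.le ht00.le]
            exact Real.one_le_rpow ((one_le_div ht00).2 htt.le) hs0.le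
          calc b * (t ^ (n + 1) * b) + b * (t ^ (n + 1) * b)
              = 2 * b ^ 2 * t ^ (n + 1) * 1 := by ring
            _ ≤ 2 * b ^ 2 * t ^ (n + 1) * (t0 ^ (-s) * t ^ s) := by gcongr
            _ = (2 * b ^ 2 * t0 ^ (-s)) * t ^ D := by rw [htD]; ring
            _ ≤ max 1 (V * Λ ^ D + L * b ^ 2 + 2 * b ^ 2 * t0 ^ (-s)) * t ^ D := by
                gcongr
                refine le_trans ?_ (le_max_right _ _)
                have : 0 ≤ V * Λ ^ D + L * b ^ 2 := by positivity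
                linarith

/-- The transform of a density supported in the upper half sphere, in the chart: measurable
amplitudes. -/
theorem chw_formula (n : ℕ) (r : ℝ) (hr1 : r < 1) (a : E (n + 2) → ℂ)
    (ha : Measurable a) (ha1 : ∀ x, ‖a x‖ ≤ 1) (φ : E (n + 2) → ℝ) (hφ : Measurable φ)
    (hsupp : ∀ (y : E (n + 1)) (t : ℝ), ‖y‖ ^ 2 + t ^ 2 = 1 → (r < ‖y‖ ∨ t ≤ 0) →
      a (join y t) = 0)
    (a' : E (n + 1) → ℂ) (Φ h : E (n + 1) → ℝ)
    (h1 : ∀ y, ‖y‖ ≤ r → a' y = ((1 / hs y : ℝ) : ℂ) * a (join y (hs y)))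
    (h2 : ∀ y, r < ‖y‖ → a' y = 0) (h3 : ∀ y, ‖y‖ ≤ r → Φ y = φ (join y (hs y)))
    (h4 : ∀ y, ‖y‖ ≤ r → h y = hs y) (c : ℝ) (X : E (n + 1)) (t : ℝ) :
    extn (fun x => a x * Complex.exp (((c * φ x : ℝ) : ℂ) * Complex.I)) (join X t) =
      uu a' (ph Φ h c (2 * π * t)) ((2 * π) • X) := by
  classical
  set F : E (n + 2) → ℂ := fun x => a x * Complex.exp (((c * φ x : ℝ) : ℂ) * Complex.I) with hF
  have hFm : Measurable F := by
    rw [hF]
    fun_prop
  have hFn : ∀ x, ‖F x‖ ≤ 1 := fun x => by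
    rw [hF]
    simp only
    rw [norm_mul, Complex.norm_exp_ofReal_mul_I, mul_one]
    exact ha1 x
  have key := Pool.Agent.MST.chart n F hFm hFn X t
  have e1 : extn F (join X t) =
      extn (fun x : E (n + 2) => if 0 < x (Fin.last (n + 1)) then F x else 0) (join X t) := by
    unfold extn
    refine integral_congr_ae (Filter.Eventually.of_forall fun x => ?_)
    simp only
    have hx1 : ‖(x : E (n + 2))‖ = 1 := by simp
    obtain ⟨y, u, hu, hyu⟩ := ch_join_exists (x : E (n + 2))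
    by_cases hx : 0 < (x : E (n + 2)) (Fin.last (n + 1))
    · rw [if_pos hx]
    · rw [if_neg hx]
      have h0 : a (x : E (n + 2)) = 0 := by
        rw [← hyu]
        refine hsupp y u ?_ (Or.inr (by rw [hu]; exact not_lt.mp hx))
        rw [← norm_join_sq, hyu, hx1, one_pow]
      rw [hF]
      simp [h0]
  rw [e1, key]
  have e2 : uu a' (ph Φ h c (2 * π * t)) ((2 * π) • X) = ∫ y in Metric.ball (0 : E (n + 1)) 1,
      a' y * Complex.exp (((ph Φ h c (2 * π * t) y - ⟪(2 * π) • X, y⟫ : ℝ) : ℂ) * Complex.I) := by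
    unfold uu
    rw [setIntegral_eq_integral_of_forall_compl_eq_zero]
    intro y hy
    have hy1 : 1 ≤ ‖y‖ := by simpa using hy
    rw [h2 y (by linarith), zero_mul]
  rw [e2]
  refine setIntegral_congr_fun measurableSet_ball fun u hu => ?_
  have hu1 : ‖u‖ < 1 := by simpa using hu
  have hu2 : 0 < 1 - ‖u‖ ^ 2 := by nlinarith [norm_nonneg u]
  have hsq : √(1 - ‖u‖ ^ 2) ^ 2 = 1 - ‖u‖ ^ 2 := Real.sq_sqrt hu2.le
  by_cases hur : ‖u‖ ≤ r
  · rw [h1 u hur]
    have e3 : ph Φ h c (2 * π * t) u - ⟪(2 * π) • X, u⟫ = c * φ (join u √(1 - ‖u‖ ^ 2)) +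
        -(2 * π * (inner ℝ u X + √(1 - ‖u‖ ^ 2) * t)) := by
      unfold ph
      rw [h3 u hur, h4 u hur, real_inner_smul_left, real_inner_comm]
      unfold hs
      ring
    rw [e3]
    have e4 : Complex.exp (((c * φ (join u √(1 - ‖u‖ ^ 2)) +
        -(2 * π * (inner ℝ u X + √(1 - ‖u‖ ^ 2) * t)) : ℝ) : ℂ) * Complex.I) =
        Complex.exp (((c * φ (join u √(1 - ‖u‖ ^ 2)) : ℝ) : ℂ) * Complex.I) *
        Pool.Agent.MST.ex (inner ℝ u X + √(1 - ‖u‖ ^ 2) * t) := by
      unfold Pool.Agent.MST.ex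
      rw [← Complex.exp_add]
      congr 1
      push_cast
      ring
    rw [e4, hF]
    simp only
    unfold hs
    ring
  · have h0 : a (join u √(1 - ‖u‖ ^ 2)) = 0 :=
      hsupp u _ (by rw [hsq]; ring) (Or.inl (not_le.mp hur))
    rw [h2 u (not_le.mp hur), hF]
    simp [h0]

theorem chw_lint (n : ℕ) (r : ℝ) (hr1 : r < 1) (a : E (n + 2) → ℂ)
    (ha : Measurable a) (ha1 : ∀ x, ‖a x‖ ≤ 1) (φ : E (n + 2) → ℝ) (hφ : Measurable φ)
    (hsupp : ∀ (y : E (n + 1)) (t : ℝ), ‖y‖ ^ 2 + t ^ 2 = 1 → (r < ‖y‖ ∨ t ≤ 0) →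
      a (join y t) = 0)
    (a' : E (n + 1) → ℂ) (Φ h : E (n + 1) → ℝ)
    (h1 : ∀ y, ‖y‖ ≤ r → a' y = ((1 / hs y : ℝ) : ℂ) * a (join y (hs y)))
    (h2 : ∀ y, r < ‖y‖ → a' y = 0) (h3 : ∀ y, ‖y‖ ≤ r → Φ y = φ (join y (hs y)))
    (h4 : ∀ y, ‖y‖ ≤ r → h y = hs y) (p : ℝ) (c : ℝ) :
    ∫⁻ ξ, ‖extn (fun x => a x * Complex.exp (((c * φ x : ℝ) : ℂ) * Complex.I)) ξ‖ₑ ^ p ≤
      ∫⁻ s : ℝ, ∫⁻ x, ‖uu a' (ph Φ h c s) x‖ₑ ^ p := by
  set F : E (n + 2) → ℂ := fun x => a x * Complex.exp (((c * φ x : ℝ) : ℂ) * Complex.I) with hF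
  have hFm : Measurable F := by
    rw [hF]
    fun_prop
  have hm : Measurable fun ξ => ‖extn F ξ‖ₑ ^ p := (measurable_extn F hFm).enorm.pow_const p
  have hm2 : Measurable fun q : E (n + 1) × ℝ => ‖extn F (join q.1 q.2)‖ₑ ^ p :=
    hm.comp continuous_join.measurable
  rw [lintegral_join (n + 1) _ hm, lintegral_lintegral_swap hm2.aemeasurable]
  have hpi : (1:ℝ) ≤ 2 * π := by linarith [Real.pi_gt_three]
  calc ∫⁻ t : ℝ, ∫⁻ X : E (n + 1), ‖extn F (join X t)‖ₑ ^ p
      = ∫⁻ t : ℝ, ∫⁻ X : E (n + 1), ‖uu a' (ph Φ h c (2 * π * t)) ((2 * π) • X)‖ₑ ^ p := by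
        refine lintegral_congr fun t => lintegral_congr fun X => ?_
        rw [hF, chw_formula n r hr1 a ha ha1 φ hφ hsupp a' Φ h h1 h2 h3 h4 c X t]
    _ ≤ ∫⁻ t : ℝ, ∫⁻ x : E (n + 1), ‖uu a' (ph Φ h c (2 * π * t)) x‖ₑ ^ p := by
        refine lintegral_mono fun t => ?_
        exact ch_scale volume (fun x => ‖uu a' (ph Φ h c (2 * π * t)) x‖ₑ ^ p) (2 * π) hpi
    _ ≤ ∫⁻ s : ℝ, ∫⁻ x : E (n + 1), ‖uu a' (ph Φ h c s) x‖ₑ ^ p := by
        have := ch_scale (volume : Measure ℝ)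
          (fun s => ∫⁻ x : E (n + 1), ‖uu a' (ph Φ h c s) x‖ₑ ^ p) (2 * π) hpi
        simpa only [smul_eq_mul] using this

theorem chw_uu {d : ℕ} (C : ℝ) (a : E d → ℂ) (q : E d → ℝ) (x : E d) :
    uu (fun y => (C : ℂ) * a y) q x = (C : ℂ) * uu a q x := by
  unfold uu
  rw [← integral_const_mul]
  refine integral_congr_ae (Filter.Eventually.of_forall fun y => ?_)
  simp only
  ring

/-- The chart for rough amplitudes, with the height chosen first. -/
theorem chart_w' (d : ℕ) (hd : 1 ≤ d) (r ρ s V : ℝ) (hr : 0 < r) (hrρ : r < ρ) (hρ : ρ < 1)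
    (hs0 : 0 < s) (hs1 : s ≤ 1) (hV : 0 ≤ V) (B : ℕ → ℝ) :
    ∃ (A : ℕ → ℝ) (V' C0 : ℝ) (h : E d → ℝ), 1 ≤ V' ∧ 1 ≤ C0 ∧ Sm d A h ∧
      (∀ y, ‖y‖ < ρ → h y = hs y) ∧
      ∀ (φ : E (d + 1) → ℝ) (a : E (d + 1) → ℂ), Measurable φ →
        (∀ x, ‖x‖ = 1 → ContDiffAt ℝ ∞ φ x) →
        (∀ k x, ‖x‖ = 1 → ‖iteratedFDeriv ℝ k φ x‖ ≤ B k) → Measurable a →
        (∀ x, ‖a x‖ ≤ 1) → BVn (d + 1) s V a →
        (∀ (y : E d) (t : ℝ), ‖y‖ ^ 2 + t ^ 2 = 1 → (r < ‖y‖ ∨ t ≤ 0) → a (join y t) = 0) →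
        ∃ (Φ : E d → ℝ) (a' : E d → ℂ), Sm d A Φ ∧ Measurable a' ∧ (∀ y, ‖a' y‖ ≤ 1) ∧
          (∀ y, r < ‖y‖ → a' y = 0) ∧ BVE d s V' a' ∧
          (∀ y, ‖y‖ < ρ → Φ y = φ (join y (hs y))) ∧
          ∀ (p : ℝ), 0 < p → ∀ c : ℝ,
            ∫⁻ ξ, ‖extn (fun x => a x * Complex.exp (((c * φ x : ℝ) : ℂ) * Complex.I)) ξ‖ₑ ^ p ≤
              ENNReal.ofReal (C0 ^ p) * ∫⁻ t : ℝ, ∫⁻ x, ‖uu a' (ph Φ h c t) x‖ₑ ^ p := by
  obtain ⟨n, rfl⟩ : ∃ n, d = n + 1 := ⟨d - 1, by omega⟩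
  obtain ⟨A1, h, hh, hh'⟩ := cha_h (d := n + 1) ρ hρ
  obtain ⟨r2, hr2, hcut⟩ := chu_cut (d := n + 1) ρ hρ
  obtain ⟨C2, η, hη1, hη2, hη3, hη4⟩ := hcut (fun _ => 1) contDiffOn_const
  obtain ⟨C3, ζ, hζ1, hζ2, hζ3, hζ4⟩ := hcut (fun y => 1 / hs y)
    (contDiffOn_const.div cha_hs_smooth fun y hy => (cha_hs_pos hy).ne')
  obtain ⟨D, hD⟩ := chu_graph (d := n + 1) r2 hr2
  set M : ℕ → ℝ := fun j => j.factorial * (∑ i ∈ Finset.range (j + 1), |B i|) * D j ^ j with hMd
  set A2 : ℕ → ℝ := fun n => ∑ i ∈ Finset.range (n + 1), (n.choose i : ℝ) * C2 i * |M (n - i)|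
    with hA2
  set C0 : ℝ := max 1 (C3 0) with hC0
  have hC01 : 1 ≤ C0 := le_max_left _ _
  have hC00 : 0 < C0 := by linarith
  have hζb : ∀ y, |ζ y| ≤ C0 := by
    intro y
    have h1 := hζ2 0 y
    rw [norm_iteratedFDeriv_zero, Real.norm_eq_abs] at h1
    exact h1.trans (le_max_right _ _)
  have hC31 : 0 ≤ C3 1 := (norm_nonneg _).trans (hζ2 1 0)
  obtain ⟨V', hV'1, hV'⟩ := chw_bve n r hr (hrρ.trans hρ) s V (C3 1) hs0 hs1 hV hC31
  refine ⟨fun j => max (A1 j) (A2 j), V', C0, h, hV'1, hC01,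
    ⟨hh.sm, fun j y => (hh.bd j y).trans (le_max_left _ _)⟩, hh',
    fun φ a hφm hφ hB ha ha1 hbv hsupp => ?_⟩
  obtain ⟨e1, e2⟩ := hD ℝ φ B hφ hB
  obtain ⟨f1, f2⟩ := chu_mul r2 hr2 C2 M η hη1 hη2 hη4 _ e1 e2
  have g1 : ∀ y : E (n + 1), ‖y‖ < ρ → η y • φ (join y (hs y)) = φ (join y (hs y)) :=
    fun y hy => by rw [hη3 y hy.le, one_smul]
  have g2 : ∀ y : E (n + 1), r < ‖y‖ → (ζ y / C0 = 0 ∨ a (join y (hs y)) = 0) := by
    intro y hy
    rcases lt_or_ge ‖y‖ 1 with hy1 | hy1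
    · exact Or.inr (hsupp y (hs y) (cha_hs_sq (by simpa using hy1)) (Or.inl hy))
    · left
      rw [hζ4 y (hr2.trans_le hy1), zero_div]
  have g3 : ∀ y : E (n + 1), r < ‖y‖ → ((ζ y / C0 : ℝ) : ℂ) * a (join y (hs y)) = 0 := by
    intro y hy
    rcases g2 y hy with h0 | h0
    · rw [h0, Complex.ofReal_zero, zero_mul]
    · rw [h0, mul_zero]
  have g4 : ∀ y : E (n + 1), |ζ y / C0| ≤ 1 := by
    intro y
    rw [abs_div, abs_of_pos hC00, div_le_one hC00]
    exact hζb y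
  refine ⟨fun y => η y • φ (join y (hs y)), fun y => ((ζ y / C0 : ℝ) : ℂ) * a (join y (hs y)),
    ⟨f1, fun j y => (f2 j y).trans (le_max_right _ _)⟩, ?_, fun y => ?_, g3, ?_, g1,
    fun p hp c => ?_⟩
  · exact (Complex.measurable_ofReal.comp (hζ1.continuous.measurable.div_const _)).mul
      (ha.comp (chw_graph_meas n))
  · rw [norm_mul, Complex.norm_real, Real.norm_eq_abs]
    exact mul_le_one₀ (g4 y) (norm_nonneg _) (ha1 _)
  · refine hV' (fun y => ζ y / C0) a ha ha1 (hζ1.continuous.measurable.div_const _) g4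
      (fun x y => ?_) g3 hbv
    have h1 := chw_lip hζ1 hζ2 x y
    rw [Real.norm_eq_abs] at h1
    rw [← sub_div, abs_div, abs_of_pos hC00]
    exact (div_le_self (abs_nonneg _) hC01).trans h1
  · have key := chw_lint n r (hrρ.trans hρ) a ha ha1 φ hφm hsupp
      (fun y => (C0 : ℂ) * (((ζ y / C0 : ℝ) : ℂ) * a (join y (hs y))))
      (fun y => η y • φ (join y (hs y))) h (fun y hy => ?_) (fun y hy => by rw [g3 y hy, mul_zero])
      (fun y hy => g1 y (hy.trans_lt hrρ)) (fun y hy => hh' y (hy.trans_lt hrρ)) p c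
    · refine key.trans (le_of_eq ?_)
      rw [← lintegral_const_mul']
      · refine lintegral_congr fun t => ?_
        rw [← lintegral_const_mul']
        · refine lintegral_congr fun x => ?_
          rw [chw_uu, enorm_mul, ENNReal.mul_rpow_of_nonneg _ _ hp.le]
          congr 1
          rw [← ofReal_norm, Complex.norm_real, Real.norm_of_nonneg hC00.le,
            ENNReal.ofReal_rpow_of_pos hC00]
        · exact ENNReal.ofReal_ne_top
      · exact ENNReal.ofReal_ne_top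
    · have h5 : (C0 : ℂ) ≠ 0 := by exact_mod_cast hC00.ne'
      rw [hζ3 y (hy.trans hrρ.le)]
      push_cast
      field_simp

/-- The chart for rough amplitudes. -/
theorem chart_w (d : ℕ) (hd : 1 ≤ d) (r ρ s V : ℝ) (hr : 0 < r) (hrρ : r < ρ) (hρ : ρ < 1)
    (hs0 : 0 < s) (hs1 : s ≤ 1) (hV : 1 ≤ V) (B : ℕ → ℝ) :
    ∃ (A : ℕ → ℝ) (V' C0 : ℝ), 1 ≤ V' ∧ 1 ≤ C0 ∧
    ∀ (φ : E (d + 1) → ℝ) (a : E (d + 1) → ℂ), PhB (d + 1) B φ → Measurable a →
    (∀ x, ‖a x‖ ≤ 1) → BVn (d + 1) s V a →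
    (∀ (y : E d) (t : ℝ), ‖y‖ ^ 2 + t ^ 2 = 1 → (r < ‖y‖ ∨ t ≤ 0) → a (join y t) = 0) →
    ∃ (Φ h : E d → ℝ) (a' : E d → ℂ), Sm d A Φ ∧ Sm d A h ∧ Measurable a' ∧ (∀ y, ‖a' y‖ ≤ 1) ∧
      (∀ y, r < ‖y‖ → a' y = 0) ∧ BVE d s V' a' ∧
      (∀ y, ‖y‖ < ρ → h y = hs y) ∧ (∀ y, ‖y‖ < ρ → Φ y = φ (join y (hs y))) ∧
      ∀ (p : ℝ), 0 < p → ∀ c : ℝ,
        ∫⁻ ξ, ‖extn (fun x => a x * Complex.exp (((c * φ x : ℝ) : ℂ) * Complex.I)) ξ‖ₑ ^ p ≤
          ENNReal.ofReal (C0 ^ p) * ∫⁻ t : ℝ, ∫⁻ x, ‖uu a' (ph Φ h c t) x‖ₑ ^ p := by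
  obtain ⟨A, V', C0, h, h1, h2, h3, h4, h5⟩ := chart_w' d hd r ρ s V hr hrρ hρ hs0 hs1
    (by linarith) B
  refine ⟨A, V', C0, h1, h2, fun φ a hφ ha ha1 hbv hsupp => ?_⟩
  obtain ⟨Φ, a', k1, k2, k3, k4, k5, k6, k7⟩ := h5 φ a hφ.1.continuous.measurable
    (fun x _ => hφ.1.contDiffAt) (fun k x hx => hφ.2 k x (by rw [hx]; norm_num)) ha ha1 hbv hsupp
  exact ⟨Φ, h, a', k1, h3, k2, k3, k4, k5, h4, k6, k7⟩

end Pool.Agent.GNP
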