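import Pool.Agent.GNP.Defs3
import Pool.Agent.MP_6cbfb8_an.Sphere

/-!
W10a, W10b: the class `BVn` under products with Lipschitz functions and under isometries.
-/

namespace Pool.Agent.GNP

open MeasureTheory Set Pool.Agent.MP_6cbfb8_an
open scoped ENNReal Real RealInnerProductSpace

/-- the pole -/
noncomputable def wbe (n : ℕ) : E (n + 1) := join (0 : E n) 1

lemma wb_norm_e (n : ℕ) : ‖wbe n‖ = 1 := by
  have h := norm_join_sq (0 : E n) 1
  have h2 : ‖wbe n‖ ^ 2 = 1 := by
    unfold wbe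
    rw [h]; simp
  nlinarith [norm_nonneg (wbe n)]

/-- every point of the sphere is the image of the pole under an isometry -/
lemma wb_exists_rot {n : ℕ} (x : E (n + 1)) (hx : ‖x‖ = 1) :
    ∃ R : E (n + 1) ≃ₗᵢ[ℝ] E (n + 1), R (wbe n) = x :=
  ⟨_, Submodule.reflection_sub ((wb_norm_e n).trans hx.symm)⟩

lemma wb_dist_pt {n : ℕ} (θ : ℝ) (ω : S n) :
    ‖pt θ (ω : E n) - wbe n‖ ^ 2 = 2 - 2 * Real.cos θ := by
  have e : pt θ (ω : E n) - wbe n = join (Real.sin θ • (ω : E n)) (Real.cos θ - 1) := by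
    unfold pt wbe join
    ext i
    refine Fin.lastCases ?_ (fun j => ?_) i
    · simp
    · simp
  have hω : ‖(ω : E n)‖ = 1 := by simp
  rw [e, norm_join_sq, norm_smul, hω, mul_one, Real.norm_eq_abs, sq_abs]
  nlinarith [Real.sin_sq_add_cos_sq θ]

/-- the angle is controlled by the distance -/
lemma wb_angle {θ r : ℝ} (h0 : 0 < θ) (h1 : θ < π) (hr : 0 ≤ r) (h : 2 - 2 * Real.cos θ ≤ r ^ 2) :
    θ ≤ π / 2 * r := by
  have e : 2 - 2 * Real.cos θ = (2 * Real.sin (θ / 2)) ^ 2 := by
    have h1 := Real.cos_sq (θ / 2)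
    rw [show 2 * (θ / 2) = θ by ring] at h1
    have h2 := Real.sin_sq_add_cos_sq (θ / 2)
    nlinarith
  rw [e] at h
  have hs0 : 0 ≤ 2 * Real.sin (θ / 2) := by
    have := Real.sin_nonneg_of_nonneg_of_le_pi (x := θ / 2) (by linarith) (by linarith)
    linarith
  have h2 : 2 * Real.sin (θ / 2) ≤ r := by
    exact (sq_le_sq₀ hs0 hr).1 h
  have h3 : 2 / π * (θ / 2) ≤ Real.sin (θ / 2) :=
    Real.mul_le_sin (by linarith) (by linarith)
  have hπ := Real.pi_pos
  have h4 : 2 * (2 / π * (θ / 2)) = 2 / π * θ := by ring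
  have h5 : 2 / π * θ ≤ r := by linarith
  have h6 : π / 2 * (2 / π * θ) = θ := by field_simp
  calc θ = π / 2 * (2 / π * θ) := h6.symm
    _ ≤ π / 2 * r := mul_le_mul_of_nonneg_left h5 (by positivity)

/-- the caps around the pole -/
lemma wb_cap_pole (j : ℕ) {r : ℝ} (hr : 0 ≤ r) :
    sm (j + 2) {y : S (j + 2) | ‖(y : E (j + 2)) - wbe (j + 1)‖ ≤ r} ≤
      ENNReal.ofReal ((π / 2 * r) ^ (j + 1)) * sm (j + 1) univ := by
  have hmp := slicing j
  have hA : MeasurableSet {y : S (j + 2) | ‖(y : E (j + 2)) - wbe (j + 1)‖ ≤ r} := by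
    refine measurableSet_le ?_ measurable_const
    exact (by fun_prop : Continuous fun y : S (j + 2) => ‖(y : E (j + 2)) - wbe (j + 1)‖).measurable
  rw [← hmp.measure_preimage hA.nullMeasurableSet]
  have hsub : (fun q : ℝ × S (j + 1) => (⟨pt q.1 (q.2 : E (j + 1)), pt_mem q.1 q.2⟩ : S (j + 2))) ⁻¹'
      {y : S (j + 2) | ‖(y : E (j + 2)) - wbe (j + 1)‖ ≤ r} ⊆
      ({θ : ℝ | θ ∉ Ioo 0 π} ∪ Ioc 0 (π / 2 * r)) ×ˢ univ := by
    rintro ⟨θ, ω⟩ h
    simp only [mem_preimage, mem_ofPred_eq] at h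
    refine ⟨?_, mem_univ _⟩
    by_cases hθ : θ ∈ Ioo 0 π
    · right
      refine ⟨hθ.1, wb_angle hθ.1 hθ.2 hr ?_⟩
      rw [← wb_dist_pt θ ω]
      exact pow_le_pow_left₀ (norm_nonneg _) h 2
    · left
      exact hθ
  refine (measure_mono hsub).trans ?_
  rw [Measure.prod_prod]
  gcongr
  refine (measure_union_le _ _).trans ?_
  have h1 : (((volume : Measure ℝ).restrict (Ioo 0 π)).withDensity
        (fun θ => ENNReal.ofReal (Real.sin θ ^ j))) {θ : ℝ | θ ∉ Ioo 0 π} = 0 := by
    refine withDensity_absolutelyContinuous _ _ ?_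
    rw [Measure.restrict_apply]
    · have : {θ : ℝ | θ ∉ Ioo 0 π} ∩ Ioo 0 π = ∅ := by
        ext θ; simp
      rw [this]; simp
    · exact measurableSet_Ioo.compl
  rw [h1, zero_add, withDensity_apply _ measurableSet_Ioc]
  rw [Measure.restrict_restrict measurableSet_Ioc]
  have hπ := Real.pi_pos
  have h2 : ∫⁻ θ in Ioc 0 (π / 2 * r) ∩ Ioo 0 π, ENNReal.ofReal (Real.sin θ ^ j) ≤
      ∫⁻ _θ in Ioc 0 (π / 2 * r), ENNReal.ofReal ((π / 2 * r) ^ j) := by
    refine (setLIntegral_mono' (measurableSet_Ioc.inter measurableSet_Ioo)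
      (fun θ hθ => ?_)).trans (lintegral_mono_set inter_subset_left)
    apply ENNReal.ofReal_le_ofReal
    refine pow_le_pow_left₀ ?_ ((Real.sin_le hθ.1.1.le).trans hθ.1.2) j
    exact Real.sin_nonneg_of_nonneg_of_le_pi hθ.2.1.le hθ.2.2.le
  refine h2.trans (le_of_eq ?_)
  rw [lintegral_const, Measure.restrict_apply MeasurableSet.univ, univ_inter, Real.volume_Ioc,
    sub_zero, ← ENNReal.ofReal_mul (by positivity), ← pow_succ]

/-- the measure of a cap -/
lemma wb_cap (n : ℕ) (hn : 2 ≤ n) : ∃ K : ℝ, 0 ≤ K ∧ ∀ (x : S n) (r : ℝ), 0 ≤ r →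
    sm n (Metric.closedBall x r) ≤ ENNReal.ofReal (K * r ^ (n - 1)) := by
  obtain ⟨j, rfl⟩ : ∃ j, n = j + 2 := ⟨n - 2, by omega⟩
  have hfin : sm (j + 1) univ ≠ ∞ := measure_ne_top _ _
  refine ⟨(π / 2) ^ (j + 1) * (sm (j + 1) univ).toReal, by positivity, fun x r hr => ?_⟩
  obtain ⟨R, hR⟩ := wb_exists_rot (n := j + 1) (x : E (j + 2)) (by simp)
  have hmp := measurePreserving_isometry R
  have hA : MeasurableSet (Metric.closedBall x r) := Metric.isClosed_closedBall.measurableSet
  rw [← hmp.measure_preimage hA.nullMeasurableSet]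
  have e : (fun y : S (j + 2) => (⟨R y, by simp⟩ : S (j + 2))) ⁻¹' Metric.closedBall x r
      = {y : S (j + 2) | ‖(y : E (j + 2)) - wbe (j + 1)‖ ≤ r} := by
    ext y
    simp only [mem_preimage, Metric.mem_closedBall, mem_ofPred_eq, Subtype.dist_eq, dist_eq_norm]
    rw [← hR, ← map_sub, R.norm_map]
  rw [e]
  refine (wb_cap_pole j hr).trans (le_of_eq ?_)
  rw [show j + 2 - 1 = j + 1 by omega, mul_comm ((π / 2) ^ (j + 1)), mul_assoc,
    ENNReal.ofReal_mul ENNReal.toReal_nonneg, ENNReal.ofReal_toReal hfin, mul_comm, mul_pow]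

/-- W10a. Product with a Lipschitz function. -/
theorem BVn_mul (n : ℕ) (hn : 2 ≤ n) (s : ℝ) (hs0 : 0 < s) (hs1 : s ≤ 1) : ∃ K : ℝ, 0 < K ∧
    ∀ (V L : ℝ) (a : E n → ℂ) (u : E n → ℝ), 0 ≤ V → 0 ≤ L → Measurable a → (∀ x, ‖a x‖ ≤ 1) →
    Measurable u → (∀ x, |u x| ≤ 1) →
    (∀ x y, ‖x‖ = 1 → ‖y‖ = 1 → |u x - u y| ≤ L * ‖x - y‖) → BVn n s V a →
    BVn n s (V + K * L) (fun x => (u x : ℂ) * a x) := by
  obtain ⟨K, hK, hcap⟩ := wb_cap n hn
  set M : ℝ := (sm n univ).toReal with hM
  have hfin : sm n univ ≠ ∞ := measure_ne_top _ _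
  have hM0 : 0 ≤ M := ENNReal.toReal_nonneg
  refine ⟨1 + K * M + 2 * M * M, by positivity, ?_⟩
  intro V L a u hV hL _ ha1 _ hu1 hu h r hr
  have hn1 : (1 : ℝ) ≤ (n : ℝ) := by exact_mod_cast (by omega : 1 ≤ n)
  -- the pointwise bound
  have key : ∀ x y : S n, ‖(u x : ℂ) * a x - (u y : ℂ) * a y‖ₑ ≤
      ‖a x - a y‖ₑ + ENNReal.ofReal (L * ‖(x : E n) - y‖) := by
    intro x y
    rw [← ofReal_norm, ← ofReal_norm, ← ENNReal.ofReal_add (norm_nonneg _) (by positivity)]
    apply ENNReal.ofReal_le_ofReal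
    have e : (u x : ℂ) * a x - (u y : ℂ) * a y = (u x : ℂ) * (a x - a y)
        + ((u x : ℂ) - (u y : ℂ)) * a y := by ring
    rw [e]
    refine (norm_add_le _ _).trans (add_le_add ?_ ?_)
    · rw [norm_mul, Complex.norm_real, Real.norm_eq_abs]
      exact mul_le_of_le_one_left (norm_nonneg _) (hu1 x)
    · rw [norm_mul, ← Complex.ofReal_sub, Complex.norm_real, Real.norm_eq_abs]
      calc |u x - u y| * ‖a y‖ ≤ |u x - u y| * 1 :=
            mul_le_mul_of_nonneg_left (ha1 y) (abs_nonneg _)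
        _ ≤ _ := by
            rw [mul_one]
            exact hu x y (by simp) (by simp)
  -- the Lipschitz part on one ball
  have hball : ∀ x : S n, ∃ D : ℝ, 0 ≤ D ∧ (∫⁻ y in Metric.closedBall x r,
      ENNReal.ofReal (L * ‖(x : E n) - y‖) ∂(sm n)) ≤ ENNReal.ofReal D ∧
      D * M ≤ (K * M + 2 * M * M) * L * r ^ ((n : ℝ) - 1 + s) := by
    intro x
    rcases le_total r 1 with hr1 | hr1
    · refine ⟨L * r * (K * r ^ (n - 1)), by positivity, ?_, ?_⟩
      · calc _ ≤ ∫⁻ _y in Metric.closedBall x r, ENNReal.ofReal (L * r) ∂(sm n) := by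
              refine setLIntegral_mono' Metric.isClosed_closedBall.measurableSet fun y hy => ?_
              apply ENNReal.ofReal_le_ofReal
              refine mul_le_mul_of_nonneg_left ?_ hL
              rw [Metric.mem_closedBall, dist_comm, Subtype.dist_eq, dist_eq_norm] at hy
              exact hy
          _ = ENNReal.ofReal (L * r) * sm n (Metric.closedBall x r) := by
              rw [lintegral_const, Measure.restrict_apply MeasurableSet.univ, univ_inter]
          _ ≤ ENNReal.ofReal (L * r) * ENNReal.ofReal (K * r ^ (n - 1)) := by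
              gcongr
              exact hcap x r hr.le
          _ = _ := (ENNReal.ofReal_mul (by positivity)).symm
      · have h3 : r ^ (n : ℝ) ≤ r ^ ((n : ℝ) - 1 + s) :=
          Real.rpow_le_rpow_of_exponent_ge hr hr1 (by linarith)
        have h4 : r * r ^ (n - 1) = r ^ (n : ℝ) := by
          rw [← pow_succ', Real.rpow_natCast]
          congr 1
          omega
        have h5 : L * r * (K * r ^ (n - 1)) * M = (K * M) * L * (r * r ^ (n - 1)) := by ring
        rw [h5, h4]
        calc (K * M) * L * r ^ (n : ℝ) ≤ (K * M) * L * r ^ ((n : ℝ) - 1 + s) :=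
              mul_le_mul_of_nonneg_left h3 (by positivity)
          _ ≤ _ := by
              refine mul_le_mul_of_nonneg_right ?_ (by positivity)
              refine mul_le_mul_of_nonneg_right ?_ hL
              nlinarith [mul_nonneg hM0 hM0]
    · refine ⟨2 * L * M, by positivity, ?_, ?_⟩
      · calc _ ≤ ∫⁻ y, ENNReal.ofReal (L * ‖(x : E n) - y‖) ∂(sm n) :=
              setLIntegral_le_lintegral _ _
          _ ≤ ∫⁻ _y : S n, ENNReal.ofReal (2 * L) ∂(sm n) := by
              refine lintegral_mono fun y => ?_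
              apply ENNReal.ofReal_le_ofReal
              have hd : ‖(x : E n) - y‖ ≤ 2 := by
                refine (norm_sub_le _ _).trans ?_
                have hx : ‖(x : E n)‖ = 1 := by simp
                have hy : ‖(y : E n)‖ = 1 := by simp
                rw [hx, hy]; norm_num
              nlinarith
          _ = ENNReal.ofReal (2 * L) * ENNReal.ofReal M := by
              rw [lintegral_const, hM, ENNReal.ofReal_toReal hfin]
          _ = _ := (ENNReal.ofReal_mul (by positivity)).symm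
      · have h3 : (1 : ℝ) ≤ r ^ ((n : ℝ) - 1 + s) := Real.one_le_rpow hr1 (by linarith)
        have h5 : 2 * L * M * M = (2 * M * M) * L * 1 := by ring
        rw [h5]
        calc (2 * M * M) * L * 1 ≤ (2 * M * M) * L * r ^ ((n : ℝ) - 1 + s) :=
              mul_le_mul_of_nonneg_left h3 (by positivity)
          _ ≤ _ := by
              refine mul_le_mul_of_nonneg_right ?_ (by positivity)
              refine mul_le_mul_of_nonneg_right ?_ hL
              nlinarith [mul_nonneg hK hM0]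
  set D0 : ℝ := (K * M + 2 * M * M) * L * r ^ ((n : ℝ) - 1 + s) with hD0
  have hD00 : 0 ≤ D0 := by positivity
  have hinner : ∀ x : S n, ∫⁻ y in Metric.closedBall x r,
      ‖(u x : ℂ) * a x - (u y : ℂ) * a y‖ₑ ∂(sm n) ≤
      (∫⁻ y in Metric.closedBall x r, ‖a x - a y‖ₑ ∂(sm n)) +
        ∫⁻ y in Metric.closedBall x r, ENNReal.ofReal (L * ‖(x : E n) - y‖) ∂(sm n) := by
    intro x
    rw [← lintegral_add_right]
    · exact lintegral_mono fun y => key x y
    · exact (by fun_prop : Measurable fun y : S n => ENNReal.ofReal (L * ‖(x : E n) - y‖))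
  have hlip : ∫⁻ x : S n, (∫⁻ y in Metric.closedBall x r,
      ENNReal.ofReal (L * ‖(x : E n) - y‖) ∂(sm n)) ∂(sm n) ≤ ENNReal.ofReal D0 := by
    by_cases hM1 : M = 0
    · have h0 : sm n univ = 0 := by
        rw [hM, ENNReal.toReal_eq_zero_iff] at hM1
        rcases hM1 with h | h
        · exact h
        · exact absurd h hfin
      rw [Measure.measure_univ_eq_zero.1 h0]
      simp
    · have hMp : 0 < M := lt_of_le_of_ne hM0 (Ne.symm hM1)
      calc _ ≤ ∫⁻ _x : S n, ENNReal.ofReal (D0 / M) ∂(sm n) := by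
            refine lintegral_mono fun x => ?_
            obtain ⟨D, hD1, hD2, hD3⟩ := hball x
            refine hD2.trans (ENNReal.ofReal_le_ofReal ?_)
            rw [le_div_iff₀ hMp]
            exact hD3
        _ = ENNReal.ofReal (D0 / M) * ENNReal.ofReal M := by
            rw [lintegral_const, hM, ENNReal.ofReal_toReal hfin]
        _ = _ := by
            rw [← ENNReal.ofReal_mul (by positivity)]
            congr 1
            field_simp
  have hmeas : Measurable fun x : S n => ∫⁻ y in Metric.closedBall x r,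
      ENNReal.ofReal (L * ‖(x : E n) - y‖) ∂(sm n) := by
    have hfm : Measurable (Function.uncurry fun x y : S n =>
        ENNReal.ofReal (L * ‖(x : E n) - y‖)) := by
      have : Continuous fun q : S n × S n => L * ‖(q.1 : E n) - q.2‖ := by fun_prop
      exact this.measurable.ennreal_ofReal
    have e : ∀ x : S n, ∫⁻ y in Metric.closedBall x r, ENNReal.ofReal (L * ‖(x : E n) - y‖) ∂(sm n)
        = ∫⁻ y, ({q : S n × S n | dist q.2 q.1 ≤ r}.indicator
          (Function.uncurry fun x y : S n => ENNReal.ofReal (L * ‖(x : E n) - y‖))) (x, y)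
          ∂(sm n) := by
      intro x
      rw [← lintegral_indicator Metric.isClosed_closedBall.measurableSet]
      rfl
    simp_rw [e]
    refine Measurable.lintegral_prod_right' (hfm.indicator ?_)
    exact measurableSet_le (by fun_prop) measurable_const
  calc ∫⁻ x : S n, (∫⁻ y in Metric.closedBall x r, ‖(u x : ℂ) * a x - (u y : ℂ) * a y‖ₑ ∂(sm n))
        ∂(sm n)
      ≤ ∫⁻ x : S n, ((∫⁻ y in Metric.closedBall x r, ‖a x - a y‖ₑ ∂(sm n)) +
        ∫⁻ y in Metric.closedBall x r, ENNReal.ofReal (L * ‖(x : E n) - y‖) ∂(sm n)) ∂(sm n) :=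
        lintegral_mono hinner
    _ = (∫⁻ x : S n, (∫⁻ y in Metric.closedBall x r, ‖a x - a y‖ₑ ∂(sm n)) ∂(sm n)) +
        ∫⁻ x : S n, (∫⁻ y in Metric.closedBall x r,
          ENNReal.ofReal (L * ‖(x : E n) - y‖) ∂(sm n)) ∂(sm n) := lintegral_add_right _ hmeas
    _ ≤ ENNReal.ofReal (V * r ^ ((n : ℝ) - 1 + s)) + ENNReal.ofReal D0 := add_le_add (h r hr) hlip
    _ = ENNReal.ofReal (V * r ^ ((n : ℝ) - 1 + s) + D0) :=
        (ENNReal.ofReal_add (by positivity) hD00).symm
    _ ≤ _ := by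
        apply ENNReal.ofReal_le_ofReal
        have hp : 0 ≤ r ^ ((n : ℝ) - 1 + s) := by positivity
        rw [hD0]
        nlinarith [mul_nonneg hL hp]

/-- W10b. Invariance under isometries. -/
theorem BVn_iso (n : ℕ) (s V : ℝ) (a : E n → ℂ) (ha : Measurable a) (h : BVn n s V a)
    (R : E n ≃ₗᵢ[ℝ] E n) : BVn n s V (fun x => a (R x)) := by
  intro r hr
  have hmp := measurePreserving_isometry R
  set e : S n → S n := fun x : S n => (⟨R x, by simp⟩ : S n) with he
  have hc : Continuous e := (R.continuous.comp continuous_subtype_val).subtype_mk _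
  have hinj : Function.Injective e := by
    intro x y hxy
    apply Subtype.ext
    apply R.injective
    exact congrArg Subtype.val hxy
  have hemb : MeasurableEmbedding e := (hc.isClosedEmbedding hinj).measurableEmbedding
  have hin : ∀ x : S n, ∫⁻ y in Metric.closedBall x r, ‖a (R x) - a (R y)‖ₑ ∂(sm n) =
      ∫⁻ y in Metric.closedBall (e x) r, ‖a (e x : E n) - a (y : E n)‖ₑ ∂(sm n) := by
    intro x
    have hpre : e ⁻¹' Metric.closedBall (e x) r = Metric.closedBall x r := by
      ext y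
      simp only [mem_preimage, Metric.mem_closedBall, Subtype.dist_eq, he, R.dist_map]
    rw [← hmp.setLIntegral_comp_preimage_emb hemb
      (fun y : S n => ‖a (e x : E n) - a (y : E n)‖ₑ) (Metric.closedBall (e x) r), hpre]
  calc ∫⁻ x : S n, (∫⁻ y in Metric.closedBall x r, ‖a (R x) - a (R y)‖ₑ ∂(sm n)) ∂(sm n)
      = ∫⁻ x : S n, (∫⁻ y in Metric.closedBall (e x) r,
          ‖a (e x : E n) - a (y : E n)‖ₑ ∂(sm n)) ∂(sm n) := lintegral_congr hin
    _ = ∫⁻ x : S n, (∫⁻ y in Metric.closedBall x r, ‖a (x : E n) - a (y : E n)‖ₑ ∂(sm n)) ∂(sm n) :=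
        hmp.lintegral_comp_emb hemb (fun x : S n => ∫⁻ y in Metric.closedBall x r,
          ‖a (x : E n) - a (y : E n)‖ₑ ∂(sm n))
    _ ≤ _ := h r hr

end Pool.Agent.GNP
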