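import Pool.Agent.GNP.CH

/-! The chart with one sequence of bounds for a whole family of phases and amplitudes. -/

namespace Pool.Agent.GNP

open MeasureTheory Set Metric Pool.Agent.MP_6cbfb8_an
open scoped ENNReal Real RealInnerProductSpace ContDiff

theorem chu_nhds {V W : Type*} [NormedAddCommGroup V] [NormedSpace ℝ V] [NormedAddCommGroup W]
    [NormedSpace ℝ W] {g : V → W} {x : V} (hg : ContDiffAt ℝ ∞ g x) (n : ℕ) :
    ∃ t : Set V, IsOpen t ∧ x ∈ t ∧ ContDiffOn ℝ n g t := by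
  have h1 : ContDiffAt ℝ n g x := hg.of_le (by exact_mod_cast le_top)
  have h2 := h1.eventually (by simp)
  obtain ⟨t, ht, ho, hx⟩ := _root_.eventually_nhds_iff.1 h2
  exact ⟨t, ho, hx, fun y hy => (ht y hy).contDiffWithinAt⟩

theorem chu_comp {U V W : Type*} [NormedAddCommGroup U] [NormedSpace ℝ U] [NormedAddCommGroup V]
    [NormedSpace ℝ V] [NormedAddCommGroup W] [NormedSpace ℝ W] {g : V → W} {f : U → V} {x : U}
    (hg : ContDiffAt ℝ ∞ g (f x)) (hf : ContDiffAt ℝ ∞ f x) (n : ℕ) {C D : ℝ}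
    (hC : ∀ i, i ≤ n → ‖iteratedFDeriv ℝ i g (f x)‖ ≤ C)
    (hD : ∀ i, 1 ≤ i → i ≤ n → ‖iteratedFDeriv ℝ i f x‖ ≤ D ^ i) :
    ‖iteratedFDeriv ℝ n (fun y => g (f y)) x‖ ≤ n.factorial * C * D ^ n := by
  obtain ⟨t, ht, hxt, hgt⟩ := chu_nhds hg n
  obtain ⟨s, hs, hxs, hfs⟩ := chu_nhds hf n
  have ho : IsOpen (s ∩ f ⁻¹' t) := hfs.continuousOn.isOpen_inter_preimage hs ht
  have hx : x ∈ s ∩ f ⁻¹' t := ⟨hxs, hxt⟩
  have h := norm_iteratedFDerivWithin_comp_le (x := x) (C := C) (D := D) hgt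
    (hfs.mono inter_subset_left) le_rfl ht.uniqueDiffOn ho.uniqueDiffOn (fun y hy => hy.2) hx
    (fun i hi => by rw [iteratedFDerivWithin_of_isOpen i ht hxt]; exact hC i hi)
    (fun i hi1 hi => by rw [iteratedFDerivWithin_of_isOpen i ho hx]; exact hD i hi1 hi)
  rw [iteratedFDerivWithin_of_isOpen n ho hx] at h
  exact h

theorem chu_smul {U W : Type*} [NormedAddCommGroup U] [NormedSpace ℝ U] [NormedAddCommGroup W]
    [NormedSpace ℝ W] {η : U → ℝ} {f : U → W} {x : U}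
    (hη : ContDiffAt ℝ ∞ η x) (hf : ContDiffAt ℝ ∞ f x) (n : ℕ) :
    ‖iteratedFDeriv ℝ n (fun y => η y • f y) x‖ ≤ ∑ i ∈ Finset.range (n + 1),
      (n.choose i : ℝ) * ‖iteratedFDeriv ℝ i η x‖ * ‖iteratedFDeriv ℝ (n - i) f x‖ := by
  obtain ⟨t, ht, hxt, hgt⟩ := chu_nhds hη n
  obtain ⟨s, hs, hxs, hfs⟩ := chu_nhds hf n
  have ho : IsOpen (s ∩ t) := hs.inter ht
  have hx : x ∈ s ∩ t := ⟨hxs, hxt⟩
  have h := norm_iteratedFDerivWithin_smul_le (hgt.mono inter_subset_right)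
    (hfs.mono inter_subset_left) ho.uniqueDiffOn hx (le_refl (n : WithTop ℕ∞))
  rw [iteratedFDerivWithin_of_isOpen n ho hx] at h
  refine h.trans_eq (Finset.sum_congr rfl fun i _ => ?_)
  rw [iteratedFDerivWithin_of_isOpen i ho hx, iteratedFDerivWithin_of_isOpen (n - i) ho hx]

/-- cut-off functions with support in a smaller ball -/
theorem chu_cut {d : ℕ} (ρ : ℝ) (hρ : ρ < 1) : ∃ r2 : ℝ, r2 < 1 ∧ ∀ w : E d → ℝ,
    ContDiffOn ℝ ∞ w (ball 0 1) → ∃ (C : ℕ → ℝ) (η : E d → ℝ), ContDiff ℝ ∞ η ∧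
      (∀ j y, ‖iteratedFDeriv ℝ j η y‖ ≤ C j) ∧ (∀ y, ‖y‖ ≤ ρ → η y = w y) ∧
      ∀ y, r2 < ‖y‖ → η y = 0 := by
  obtain ⟨r1, hr1, hr1'⟩ := exists_between (max_lt hρ one_pos)
  obtain ⟨r2, hr2, hr2'⟩ := exists_between hr1'
  have hr10 : 0 < r1 := lt_of_le_of_lt (le_max_right _ _) hr1
  let χ : ContDiffBump (0 : E d) := ⟨r1, r2, hr10, hr2⟩
  have hχ0 : ∀ y : E d, r2 ≤ ‖y‖ → χ y = 0 := fun y hy =>
    χ.zero_of_le_dist (by simpa using hy)
  refine ⟨r2, hr2', fun f hf => ?_⟩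
  have hg : ContDiff ℝ ∞ fun y => χ y • f y := by
    rw [contDiff_iff_contDiffAt]
    intro y
    by_cases hy : y ∈ ball (0 : E d) 1
    · exact (χ.contDiff.contDiffAt).smul (hf.contDiffAt (isOpen_ball.mem_nhds hy))
    · have hy1 : 1 ≤ ‖y‖ := by simpa using hy
      have h2 : {w : E d | r2 < ‖w‖} ∈ nhds y :=
        (isOpen_lt continuous_const continuous_norm).mem_nhds (lt_of_lt_of_le hr2' hy1)
      have h3 : (fun w => χ w • f w) =ᶠ[nhds y] fun _ => 0 := by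
        filter_upwards [h2] with w hw
        rw [hχ0 w (le_of_lt hw), zero_smul]
      exact contDiffAt_const.congr_of_eventuallyEq h3
  have hcs : HasCompactSupport fun y => χ y • f y := by
    refine HasCompactSupport.intro (isCompact_closedBall (0 : E d) r2) fun y hy => ?_
    have hy1 : r2 < ‖y‖ := by simpa using hy
    rw [hχ0 y hy1.le, zero_smul]
  have hb : ∀ j : ℕ, ∃ C : ℝ, ∀ y, ‖iteratedFDeriv ℝ j (fun y => χ y • f y) y‖ ≤ C := fun j =>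
    (hg.continuous_iteratedFDeriv (m := j) (by exact_mod_cast le_top)).bounded_above_of_compact_support
      (hcs.iteratedFDeriv j)
  choose A hA using hb
  refine ⟨A, fun y => χ y • f y, hg, hA, fun y hy => ?_, fun y hy => ?_⟩
  · have : χ y = 1 := χ.one_of_mem_closedBall
      (by simpa using hy.trans ((le_max_left _ _).trans hr1.le))
    simp only [this, one_smul]
  · simp only [hχ0 y hy.le, zero_smul]

theorem chu_mul {d : ℕ} {W : Type*} [NormedAddCommGroup W] [NormedSpace ℝ W] (r2 : ℝ)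
    (hr2 : r2 < 1) (C M : ℕ → ℝ) (η : E d → ℝ) (hη : ContDiff ℝ ∞ η)
    (hC : ∀ j y, ‖iteratedFDeriv ℝ j η y‖ ≤ C j) (h0 : ∀ y, r2 < ‖y‖ → η y = 0) (f : E d → W)
    (hf : ContDiffOn ℝ ∞ f (ball 0 1)) (hM : ∀ j y, ‖y‖ ≤ r2 → ‖iteratedFDeriv ℝ j f y‖ ≤ M j) :
    ContDiff ℝ ∞ (fun y => η y • f y) ∧ ∀ n y, ‖iteratedFDeriv ℝ n (fun y => η y • f y) y‖ ≤
      ∑ i ∈ Finset.range (n + 1), (n.choose i : ℝ) * C i * |M (n - i)| := by
  have hC0 : ∀ j, 0 ≤ C j := fun j => (norm_nonneg _).trans (hC j 0)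
  have hz : ∀ y : E d, r2 < ‖y‖ → (fun w => η w • f w) =ᶠ[nhds y] fun _ => (0 : W) := by
    intro y hy
    have h2 : {w : E d | r2 < ‖w‖} ∈ nhds y :=
      (isOpen_lt continuous_const continuous_norm).mem_nhds hy
    filter_upwards [h2] with w hw
    rw [h0 w hw, zero_smul]
  constructor
  · rw [contDiff_iff_contDiffAt]
    intro y
    by_cases hy : y ∈ ball (0 : E d) 1
    · exact (hη.contDiffAt).smul (hf.contDiffAt (isOpen_ball.mem_nhds hy))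
    · have hy1 : 1 ≤ ‖y‖ := by simpa using hy
      exact contDiffAt_const.congr_of_eventuallyEq (hz y (hr2.trans_le hy1))
  · intro n y
    rcases le_or_gt ‖y‖ r2 with hy | hy
    · have hyb : y ∈ ball (0 : E d) 1 := by simpa using hy.trans_lt hr2
      refine (chu_smul hη.contDiffAt (hf.contDiffAt (isOpen_ball.mem_nhds hyb)) n).trans ?_
      refine Finset.sum_le_sum fun i _ => ?_
      have h1 := hC i y
      have h2 := (hM (n - i) y hy).trans (le_abs_self _)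
      have h3 := hC0 i
      gcongr
    · rw [(hz y hy).iteratedFDeriv ℝ n |>.eq_of_nhds]
      have : iteratedFDeriv ℝ n (fun _ : E d => (0 : W)) y = 0 := by
        simp
      rw [this, norm_zero]
      exact Finset.sum_nonneg fun i _ => mul_nonneg (mul_nonneg (by positivity) (hC0 i))
        (abs_nonneg _)

theorem chu_norm {d : ℕ} {y : E d} (hy : y ∈ ball (0 : E d) 1) :
    ‖(join y (hs y) : E (d + 1))‖ = 1 := by
  have h1 := norm_join_sq y (hs y)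
  rw [cha_hs_sq hy] at h1
  nlinarith [norm_nonneg (join y (hs y) : E (d + 1))]

theorem chu_graph {d : ℕ} (r2 : ℝ) (hr2 : r2 < 1) : ∃ D : ℕ → ℝ, ∀ (W : Type)
    [NormedAddCommGroup W] [NormedSpace ℝ W] (φ : E (d + 1) → W) (B : ℕ → ℝ),
    (∀ x, ‖x‖ = 1 → ContDiffAt ℝ ∞ φ x) →
    (∀ k x, ‖x‖ = 1 → ‖iteratedFDeriv ℝ k φ x‖ ≤ B k) →
    ContDiffOn ℝ ∞ (fun y : E d => φ (join y (hs y))) (ball 0 1) ∧
    ∀ j (y : E d), ‖y‖ ≤ r2 → ‖iteratedFDeriv ℝ j (fun y : E d => φ (join y (hs y))) y‖ ≤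
      j.factorial * (∑ i ∈ Finset.range (j + 1), |B i|) * D j ^ j := by
  obtain ⟨r3, hr3, hr3'⟩ := exists_between hr2
  obtain ⟨A, g, hg1, hg2, hg3, -⟩ := cha_cut r3 hr3' (fun y : E d => (join y (hs y) : E (d + 1)))
    cha_graph_smooth
  have hA0 : ∀ j, 0 ≤ A j := fun j => (norm_nonneg _).trans (hg2 j 0)
  refine ⟨fun j => 1 + ∑ i ∈ Finset.range (j + 1), A i, fun W _ _ φ B hφ hB => ⟨?_, ?_⟩⟩
  · intro y hy
    have h1 : ContDiffAt ℝ ∞ (fun y : E d => (join y (hs y) : E (d + 1))) y :=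
      cha_graph_smooth.contDiffAt (isOpen_ball.mem_nhds hy)
    exact ((hφ _ (chu_norm hy)).comp y h1).contDiffWithinAt
  · intro j y hy
    have hyb : y ∈ ball (0 : E d) 1 := by simpa using hy.trans_lt hr2
    have h1 : ContDiffAt ℝ ∞ (fun y : E d => (join y (hs y) : E (d + 1))) y :=
      cha_graph_smooth.contDiffAt (isOpen_ball.mem_nhds hyb)
    refine chu_comp (g := φ) (f := fun y : E d => (join y (hs y) : E (d + 1)))
      (hφ _ (chu_norm hyb)) h1 j (fun i hi => ?_) fun i hi1 hi => ?_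
    · refine (hB i _ (chu_norm hyb)).trans ((le_abs_self _).trans ?_)
      exact Finset.single_le_sum (f := fun i => |B i|) (fun i _ => abs_nonneg _)
        (Finset.mem_range.2 (by omega))
    · have h2 : (fun y : E d => (join y (hs y) : E (d + 1))) =ᶠ[nhds y] g := by
        have h3 : {w : E d | ‖w‖ < r3} ∈ nhds y :=
          (isOpen_lt continuous_norm continuous_const).mem_nhds (hy.trans_lt hr3)
        filter_upwards [h3] with w hw
        exact (hg3 w (le_of_lt hw)).symm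
      rw [h2.iteratedFDeriv ℝ i |>.eq_of_nhds]
      have h4 : A i ≤ ∑ i ∈ Finset.range (j + 1), A i :=
        Finset.single_le_sum (f := A) (fun i _ => hA0 i) (Finset.mem_range.2 (by omega))
      have h5 : 0 ≤ ∑ i ∈ Finset.range (j + 1), A i := Finset.sum_nonneg fun i _ => hA0 i
      calc ‖iteratedFDeriv ℝ i g y‖ ≤ 1 + ∑ i ∈ Finset.range (j + 1), A i := by
            linarith [hg2 i y]
        _ ≤ (1 + ∑ i ∈ Finset.range (j + 1), A i) ^ i :=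
            le_self_pow₀ (by linarith) (by omega)

theorem chu_tietze {d : ℕ} {Y : Type} [TopologicalSpace Y] [TietzeExtension.{0, 0} Y] (f : E d → Y)
    (hf : ContinuousOn f (sphere 0 1)) :
    ∃ g : E d → Y, Continuous g ∧ ∀ x, ‖x‖ = 1 → g x = f x := by
  obtain ⟨g, hg⟩ := ContinuousMap.exists_restrict_eq (X := E d) isClosed_sphere
    ⟨(sphere (0 : E d) 1).domRestrict f, continuousOn_iff_continuous_domRestrict.1 hf⟩
  refine ⟨g, g.continuous, fun x hx => ?_⟩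
  have hx' : x ∈ sphere (0 : E d) 1 := by simpa using hx
  have := congrArg (fun k => k ⟨x, hx'⟩) hg
  simpa using this

/-- The integral inequality, for functions continuous on the sphere. -/
theorem ch_lint_on (n : ℕ) (r : ℝ) (hr1 : r < 1) (a : E (n + 2) → ℂ)
    (ha : ContinuousOn a (sphere 0 1)) (φ : E (n + 2) → ℝ) (hφ : ContinuousOn φ (sphere 0 1))
    (hsupp : ∀ (y : E (n + 1)) (t : ℝ), ‖y‖ ^ 2 + t ^ 2 = 1 → (r < ‖y‖ ∨ t ≤ 0) →
      a (join y t) = 0)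
    (a' : E (n + 1) → ℂ) (Φ h : E (n + 1) → ℝ)
    (h1 : ∀ y, ‖y‖ ≤ r → a' y = ((1 / hs y : ℝ) : ℂ) * a (join y (hs y)))
    (h2 : ∀ y, r < ‖y‖ → a' y = 0) (h3 : ∀ y, ‖y‖ ≤ r → Φ y = φ (join y (hs y)))
    (h4 : ∀ y, ‖y‖ ≤ r → h y = hs y) (p : ℝ) (c : ℝ) :
    ∫⁻ ξ, ‖extn (fun x => a x * Complex.exp (((c * φ x : ℝ) : ℂ) * Complex.I)) ξ‖ₑ ^ p ≤
      ∫⁻ s : ℝ, ∫⁻ x, ‖uu a' (ph Φ h c s) x‖ₑ ^ p := by
  obtain ⟨b, hb, hb'⟩ := chu_tietze a ha
  obtain ⟨ψ, hψ, hψ'⟩ := chu_tietze φ hφ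
  have hj : ∀ (y : E (n + 1)) (t : ℝ), ‖y‖ ^ 2 + t ^ 2 = 1 → ‖(join y t : E (n + 2))‖ = 1 := by
    intro y t hyt
    have h5 := norm_join_sq y t
    rw [hyt] at h5
    nlinarith [norm_nonneg (join y t : E (n + 2))]
  have hball : ∀ y : E (n + 1), ‖y‖ ≤ r → ‖(join y (hs y) : E (n + 2))‖ = 1 := fun y hy =>
    chu_norm (by simpa using hy.trans_lt hr1)
  have key := ch_lint n r hr1 b hb ψ hψ
    (fun y t hyt hc => by rw [hb' _ (hj y t hyt)]; exact hsupp y t hyt hc) a' Φ h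
    (fun y hy => by rw [hb' _ (hball y hy)]; exact h1 y hy) h2
    (fun y hy => by rw [hψ' _ (hball y hy)]; exact h3 y hy) h4 p c
  have e : extn (fun x => a x * Complex.exp (((c * φ x : ℝ) : ℂ) * Complex.I)) =
      extn (fun x => b x * Complex.exp (((c * ψ x : ℝ) : ℂ) * Complex.I)) := by
    funext ξ
    unfold extn
    refine integral_congr_ae (Filter.Eventually.of_forall fun x => ?_)
    have hx1 : ‖(x : E (n + 2))‖ = 1 := by simp
    simp only [hb' _ hx1, hψ' _ hx1]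
  rw [e]
  exact key

/-- The chart: one sequence of bounds for all phases and amplitudes with given bounds. -/
theorem chart_U (d : ℕ) (hd : 1 ≤ d) (r ρ : ℝ) (hrρ : r < ρ) (hρ : ρ < 1) (B : ℕ → ℝ) :
    ∃ (A : ℕ → ℝ) (h : E d → ℝ), Sm d A h ∧ (∀ y, ‖y‖ < ρ → h y = hs y) ∧
      ∀ (φ : E (d + 1) → ℝ) (a : E (d + 1) → ℂ), (∀ x, ‖x‖ = 1 → ContDiffAt ℝ ∞ φ x) →
        (∀ x, ‖x‖ = 1 → ContDiffAt ℝ ∞ a x) →
        (∀ k x, ‖x‖ = 1 → ‖iteratedFDeriv ℝ k φ x‖ ≤ B k) →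
        (∀ k x, ‖x‖ = 1 → ‖iteratedFDeriv ℝ k a x‖ ≤ B k) →
        (∀ (y : E d) (t : ℝ), ‖y‖ ^ 2 + t ^ 2 = 1 → (r < ‖y‖ ∨ t ≤ 0) → a (join y t) = 0) →
        ∃ (Φ : E d → ℝ) (a' : E d → ℂ), Sm d A Φ ∧ Amp d A r a' ∧
          (∀ y, ‖y‖ < ρ → Φ y = φ (join y (hs y))) ∧
          ∀ (p : ℝ), 0 < p → ∀ c : ℝ,
            ∫⁻ ξ, ‖extn (fun x => a x * Complex.exp (((c * φ x : ℝ) : ℂ) * Complex.I)) ξ‖ₑ ^ p ≤
              ∫⁻ s : ℝ, ∫⁻ x, ‖uu a' (ph Φ h c s) x‖ₑ ^ p := by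
  obtain ⟨A1, h, hh, hh'⟩ := cha_h (d := d) ρ hρ
  obtain ⟨r2, hr2, hcut⟩ := chu_cut (d := d) ρ hρ
  obtain ⟨C2, η, hη1, hη2, hη3, hη4⟩ := hcut (fun _ => 1) contDiffOn_const
  obtain ⟨C3, ζ, hζ1, hζ2, hζ3, hζ4⟩ := hcut (fun y => 1 / hs y)
    (contDiffOn_const.div cha_hs_smooth fun y hy => (cha_hs_pos hy).ne')
  obtain ⟨D, hD⟩ := chu_graph (d := d) r2 hr2
  set M : ℕ → ℝ := fun j => j.factorial * (∑ i ∈ Finset.range (j + 1), |B i|) * D j ^ j with hMd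
  set A2 : ℕ → ℝ := fun n => ∑ i ∈ Finset.range (n + 1), (n.choose i : ℝ) * C2 i * |M (n - i)|
    with hA2
  set A3 : ℕ → ℝ := fun n => ∑ i ∈ Finset.range (n + 1), (n.choose i : ℝ) * C3 i * |M (n - i)|
    with hA3
  refine ⟨fun j => max (A1 j) (max (A2 j) (A3 j)), h,
    ⟨hh.sm, fun j y => (hh.bd j y).trans (le_max_left _ _)⟩, hh', fun φ a hφ ha hB1 hB2 hsupp =>
    ?_⟩
  obtain ⟨e1, e2⟩ := hD ℝ φ B hφ hB1
  obtain ⟨e3, e4⟩ := hD ℂ a B ha hB2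
  obtain ⟨f1, f2⟩ := chu_mul r2 hr2 C2 M η hη1 hη2 hη4 _ e1 e2
  obtain ⟨f3, f4⟩ := chu_mul r2 hr2 C3 M ζ hζ1 hζ2 hζ4 _ e3 e4
  have g1 : ∀ y : E d, ‖y‖ < ρ → η y • φ (join y (hs y)) = φ (join y (hs y)) := fun y hy => by
    rw [hη3 y hy.le, one_smul]
  have g2 : ∀ y : E d, r < ‖y‖ → ζ y • a (join y (hs y)) = 0 := by
    intro y hy
    rcases lt_or_ge ‖y‖ 1 with hy1 | hy1
    · rw [hsupp y (hs y) (cha_hs_sq (by simpa using hy1)) (Or.inl hy), smul_zero]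
    · rw [hζ4 y (hr2.trans_le hy1), zero_smul]
  refine ⟨fun y => η y • φ (join y (hs y)), fun y => ζ y • a (join y (hs y)),
    ⟨f1, fun j y => (f2 j y).trans ((le_max_left _ _).trans (le_max_right _ _))⟩,
    ⟨f3, g2, fun j y => (f4 j y).trans ((le_max_right _ _).trans (le_max_right _ _))⟩, g1,
    fun p _ c => ?_⟩
  obtain ⟨n, rfl⟩ : ∃ n, d = n + 1 := ⟨d - 1, by omega⟩
  refine ch_lint_on n r (hrρ.trans hρ) a
    (fun x hx => (ha x (by simpa using hx)).continuousAt.continuousWithinAt) φ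
    (fun x hx => (hφ x (by simpa using hx)).continuousAt.continuousWithinAt) hsupp _ _ h
    (fun y hy => ?_) g2 (fun y hy => g1 y (hy.trans_lt hrρ))
    (fun y hy => hh' y (hy.trans_lt hrρ)) p c
  rw [hζ3 y (hy.trans hrρ.le), Complex.real_smul]

/-- Bounds for `φ + ∑ b_j x_j²` on the sphere, the same for all `|b_j| ≤ M`. -/
theorem chu_pb (n : ℕ) (M : ℝ) (B : ℕ → ℝ) : ∃ B' : ℕ → ℝ, ∀ (φ : E n → ℝ) (b : Fin n → ℝ),
    (∀ j, |b j| ≤ M) → (∀ x, ‖x‖ = 1 → ContDiffAt ℝ ∞ φ x) →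
    (∀ k x, ‖x‖ = 1 → ‖iteratedFDeriv ℝ k φ x‖ ≤ B k) →
    (∀ x, ‖x‖ = 1 → ContDiffAt ℝ ∞ (pb φ b) x) ∧
    ∀ k x, ‖x‖ = 1 → ‖iteratedFDeriv ℝ k (pb φ b) x‖ ≤ B' k := by
  have hQ : ∀ j : Fin n, ContDiff ℝ ∞ fun x : E n => x j ^ 2 := fun j =>
    ((contDiff_euclidean.mp contDiff_id) j).pow 2
  have hb : ∀ (k : ℕ) (j : Fin n), ∃ C : ℝ, ∀ x : E n, ‖x‖ = 1 →
      ‖iteratedFDeriv ℝ k (fun x : E n => x j ^ 2) x‖ ≤ C := by
    intro k j
    obtain ⟨C, hC⟩ := (isCompact_sphere (0 : E n) 1).exists_bound_of_continuousOn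
      ((hQ j).continuous_iteratedFDeriv (m := k) (by exact_mod_cast le_top)).continuousOn
    exact ⟨C, fun x hx => hC x (by simpa using hx)⟩
  choose C hC using hb
  refine ⟨fun k => B k + ∑ j, M * |C k j|, fun φ b hbM hφ hB => ⟨fun x hx => ?_, fun k x hx => ?_⟩⟩
  · exact (hφ x hx).add (ContDiff.sum fun j _ => contDiff_const.mul (hQ j)).contDiffAt
  · have h1 : ∀ j ∈ Finset.univ, ContDiffAt ℝ k (fun x : E n => b j * x j ^ 2) x := fun j _ =>
      (contDiff_const.mul (hQ j)).contDiffAt.of_le (by exact_mod_cast le_top)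
    have h2 : ContDiffAt ℝ k (fun x : E n => ∑ j, b j * x j ^ 2) x := ContDiffAt.sum h1
    have h3 : ContDiffAt ℝ k φ x := (hφ x hx).of_le (by exact_mod_cast le_top)
    have h4 : iteratedFDeriv ℝ k (pb φ b) x =
        iteratedFDeriv ℝ k φ x + ∑ j, iteratedFDeriv ℝ k (fun x : E n => b j * x j ^ 2) x := by
      have h5 := fun_iteratedFDeriv_add_apply h3 h2
      rw [iteratedFDeriv_fun_sum_apply h1] at h5
      exact h5
    rw [h4]
    refine (norm_add_le _ _).trans (add_le_add (hB k x hx) ((norm_sum_le _ _).trans ?_))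
    refine Finset.sum_le_sum fun j _ => ?_
    have h6 : iteratedFDeriv ℝ k (fun x : E n => b j * x j ^ 2) x =
        b j • iteratedFDeriv ℝ k (fun x : E n => x j ^ 2) x :=
      iteratedFDeriv_const_smul_apply' (a := b j)
        ((hQ j).contDiffAt.of_le (by exact_mod_cast le_top))
    rw [h6, norm_smul, Real.norm_eq_abs]
    have h7 := hbM j
    have h8 := (hC k j x hx).trans (le_abs_self _)
    have h9 : 0 ≤ M := (abs_nonneg _).trans h7
    gcongr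

end Pool.Agent.GNP
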