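import Pool.Agent.GNP.AEB
import Pool.Agent.GNP.CHU

/-!
The average of `JJ` over the box, uniformly for phases with bounded derivatives on the sphere.
-/

namespace Pool.Agent.GNP

open MeasureTheory Set Pool.Agent.MP_6cbfb8_an
open scoped ENNReal Real RealInnerProductSpace ContDiff

theorem aeJ_U (d : ℕ) (hd : 3 ≤ d) (r α M : ℝ) (B : ℕ → ℝ) (hr1 : r < 1)
    (hα : 2 / (d : ℝ) < α) (hα1 : α < 1) (hM : 0 ≤ M) : ∃ K : ℝ≥0∞, K ≠ ⊤ ∧
    ∀ φ : E (d + 1) → ℝ, (∀ x, ‖x‖ = 1 → ContDiffAt ℝ ∞ φ x) →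
      (∀ k x, ‖x‖ = 1 → ‖iteratedFDeriv ℝ k φ x‖ ≤ B k) →
      ∫⁻ b in Set.pi univ fun _ : Fin (d + 1) => Icc (-M) M,
        JJ d r α (kap d α) (fun y => pb φ b (join y (hs y))) hs ≤ K := by
  obtain ⟨ρ, hρ, hρ1⟩ := exists_between hr1
  obtain ⟨A, h, -, -, hA⟩ := chart_U d (by omega) r ρ hρ hρ1 B
  obtain ⟨C, hC, h1⟩ := int_J_unif d hd r α M (A 2) hr1 hα hα1 hM
  refine ⟨C, hC, fun φ hφ hB => ?_⟩
  rw [pi_univ_Icc]
  refine h1 φ hφ fun y hy => ?_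
  have hB0 : ∀ k, 0 ≤ B k := by
    intro k
    have hx : ‖(EuclideanSpace.single (0 : Fin (d + 1)) (1 : ℝ) : E (d + 1))‖ = 1 := by simp
    exact (norm_nonneg _).trans (hB k _ hx)
  obtain ⟨Φ, a', hΦ, -, hΦφ, -⟩ := hA φ (fun _ => 0) hφ (fun _ _ => contDiffAt_const) hB
    (fun k x _ => by
      have : iteratedFDeriv ℝ k (fun _ : E (d + 1) => (0 : ℂ)) x = 0 := by
        have := congrFun (iteratedFDeriv_fun_zero (𝕜 := ℝ) (E := E (d + 1)) (F := ℂ) (n := k)) x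
        exact this
      rw [this, norm_zero]
      exact hB0 k) (fun _ _ _ _ => rfl)
  have h2 : Hs (fun y => φ (join y (hs y))) y = Hs Φ y := by
    refine (Hs_congr_ball (ρ := ρ) (fun z hz => (hΦφ z hz).symm) ?_)
    linarith
  rw [h2]
  exact (norm_Hs_le hΦ.sm y).trans (hΦ.bd 2 y)

end Pool.Agent.GNP
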