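import Pool.Agent.GNP.WCR
import Pool.Agent.GNP.WCH
import Pool.Agent.GNP.AJU

/-!
Rough amplitudes: one chart, average over `b`.
-/

namespace Pool.Agent.GNP

open MeasureTheory Set Pool.Agent.MP_6cbfb8_an
open scoped ENNReal Real RealInnerProductSpace ContDiff

/-- The bounds of `φ + ∑ b_j x_j²` on the ball of radius two, for `b` in a box. -/
theorem PhB_pb (n : ℕ) (B : ℕ → ℝ) (M : ℝ) : ∃ B' : ℕ → ℝ, ∀ φ : E n → ℝ, PhB n B φ →
    ∀ b : Fin n → ℝ, (∀ j, |b j| ≤ M) → PhB n B' (pb φ b) := by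
  have h1 : ∀ j : Fin n, ContDiff ℝ ∞ fun x : E n => x j ^ 2 := fun j =>
    ((EuclideanSpace.proj (𝕜 := ℝ) j).contDiff (n := ∞)).pow 2
  have h0 : ∀ (j : Fin n) (k : ℕ), ∃ C : ℝ, ∀ x ∈ Metric.closedBall (0 : E n) 2,
      ‖iteratedFDeriv ℝ k (fun x : E n => x j ^ 2) x‖ ≤ C := by
    intro j k
    exact (isCompact_closedBall (0 : E n) 2).exists_bound_of_continuousOn
      ((h1 j).continuous_iteratedFDeriv (m := k) (by exact_mod_cast le_top)).continuousOn
  choose Q hQ using h0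
  refine ⟨fun k => B k + ∑ j, M * Q j k, fun φ hφ b hb => ⟨?_, ?_⟩⟩
  · exact hφ.1.add (ContDiff.sum fun j _ => contDiff_const.mul (h1 j))
  · intro k x hx
    have h2 : pb φ b = φ + fun x => ∑ j, b j * x j ^ 2 := rfl
    have h3 : ContDiff ℝ k fun x : E n => ∑ j, b j * x j ^ 2 :=
      (ContDiff.sum fun j _ => contDiff_const.mul (h1 j)).of_le (by exact_mod_cast le_top)
    rw [h2, iteratedFDeriv_add_apply ((hφ.1.of_le (by exact_mod_cast le_top)).contDiffAt)
      h3.contDiffAt]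
    have h4 : iteratedFDeriv ℝ k (fun x : E n => ∑ j, b j * x j ^ 2) x =
        ∑ j, b j • iteratedFDeriv ℝ k (fun x : E n => x j ^ 2) x := by
      rw [iteratedFDeriv_fun_sum_apply fun j _ => ((contDiff_const.mul (h1 j)).of_le
        (by exact_mod_cast le_top)).contDiffAt]
      refine Finset.sum_congr rfl fun j _ => ?_
      exact iteratedFDeriv_const_smul_apply' (a := b j) (f := fun x : E n => x j ^ 2) (x := x)
        (((h1 j).of_le (by exact_mod_cast le_top)).contDiffAt)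
    rw [h4]
    refine (norm_add_le _ _).trans (add_le_add (hφ.2 k x hx) ?_)
    refine (norm_sum_le _ _).trans (Finset.sum_le_sum fun j _ => ?_)
    rw [norm_smul]
    have h5 : ‖b j‖ ≤ M := hb j
    exact mul_le_mul h5 (hQ j k x (by simpa using hx)) (norm_nonneg _) ((norm_nonneg _).trans h5)

/-- W10. One chart, average over `b`. -/
theorem piece_w (d : ℕ) (hd : 3 ≤ d) (r s V M p : ℝ) (hr : 0 < r) (hr1 : r < 1)
    (hsd : (d : ℝ) / (d + 1) < s) (hs1 : s ≤ 1) (hV : 1 ≤ V) (hp : 2 * ((d : ℝ) + 1) / d < p)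
    (B : ℕ → ℝ) : ∃ C : ℝ≥0∞, C ≠ ⊤ ∧ ∀ (φ : E (d + 1) → ℝ) (a : E (d + 1) → ℂ),
    PhB (d + 1) B φ → Measurable a → (∀ x, ‖a x‖ ≤ 1) → BVn (d + 1) s V a →
    (∀ (y : E d) (t : ℝ), ‖y‖ ^ 2 + t ^ 2 = 1 → (r < ‖y‖ ∨ t ≤ 0) → a (join y t) = 0) →
    ∫⁻ b in Icc (fun _ : Fin (d + 1) => -M) (fun _ => M), ⨆ c : ℝ,
      ∫⁻ ξ, ‖extn (fun x => a x * Complex.exp (((c * pb φ b x : ℝ) : ℂ) * Complex.I)) ξ‖ₑ ^ p
      ≤ C := by
  obtain ⟨r', hrr', hr'1⟩ := exists_between hr1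
  obtain ⟨ρ, hr'ρ, hρ1⟩ := exists_between hr'1
  have hd0 : (0 : ℝ) < d := by
    have : 0 < d := by omega
    exact_mod_cast this
  have hd3 : (3 : ℝ) ≤ d := by exact_mod_cast hd
  have h2d : 2 / (d : ℝ) < 1 := by
    rw [div_lt_one hd0]
    linarith
  have hp2 : 2 / (d : ℝ) < p - 2 := by
    have : 2 * ((d : ℝ) + 1) / d = 2 + 2 / d := by
      field_simp
    linarith
  have hp0 : 0 < p := by
    have : 0 < 2 / (d : ℝ) := by positivity
    linarith
  have hs0 : 0 < s := lt_trans (by positivity) hsd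
  obtain ⟨α, hα0, hα⟩ := exists_between (lt_min h2d hp2)
  have hα1 : α < 1 := hα.trans_le (min_le_left _ _)
  have hαp : α ≤ p - 2 := (hα.trans_le (min_le_right _ _)).le
  obtain ⟨B', hB'⟩ := PhB_pb (d + 1) B |M|
  obtain ⟨A, V', C0, hV', hC0, hA⟩ := chart_w d (by omega) r ρ s V hr (hrr'.trans hr'ρ) hρ1 hs0
    hs1 hV B'
  obtain ⟨K, hK, hcore⟩ := core_rough d (by omega) A r r' 1 α p s V' hr hrr' hr'1 one_pos hα0 hαp
    hsd (by linarith)
  obtain ⟨K', hK', hae⟩ := aeJ_U d hd r' α |M| B hr'1 hα0 hα1 (abs_nonneg M)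
  have hbm : MeasurableSet (Icc (fun _ : Fin (d + 1) => -M) (fun _ => M)) := measurableSet_Icc
  have hvol : volume (Icc (fun _ : Fin (d + 1) => -M) (fun _ => M)) ≠ ⊤ :=
    isCompact_Icc.measure_lt_top.ne
  refine ⟨ENNReal.ofReal (C0 ^ p) * K *
    (volume (Icc (fun _ : Fin (d + 1) => -M) (fun _ => M)) + K'), ?_,
    fun φ a hφ ham ha1 haV hsupp => ?_⟩
  · exact ENNReal.mul_ne_top (ENNReal.mul_ne_top ENNReal.ofReal_ne_top hK)
      (ENNReal.add_ne_top.2 ⟨hvol, hK'⟩)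
  · calc ∫⁻ b in Icc (fun _ : Fin (d + 1) => -M) (fun _ => M), ⨆ c : ℝ,
          ∫⁻ ξ, ‖extn (fun x => a x *
            Complex.exp (((c * pb φ b x : ℝ) : ℂ) * Complex.I)) ξ‖ₑ ^ p
        ≤ ∫⁻ b in Icc (fun _ : Fin (d + 1) => -M) (fun _ => M), ENNReal.ofReal (C0 ^ p) * K *
            (1 + JJ d r' α (kap d α) (fun y => pb φ b (join y (hs y))) hs) := by
          refine setLIntegral_mono' hbm fun b hb => ?_
          refine iSup_le fun c => ?_
          have hbM : ∀ j, |b j| ≤ |M| := by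
            intro j
            exact (abs_le.2 ⟨hb.1 j, hb.2 j⟩).trans (le_abs_self M)
          obtain ⟨Φ, h, a', hΦ, hh, ha'm, ha'1, ha's, ha'V, hhs, hΦs, hI⟩ := hA (pb φ b) a
            (hB' φ hφ b hbM) ham ha1 haV hsupp
          have hdef : ∀ y, ‖y‖ ≤ r' → ∀ v, ⟪Hs h y v, v⟫ ≤ -(1 * ‖v‖ ^ 2) := by
            intro y hy v
            rw [Hs_congr_ball hhs (lt_of_le_of_lt hy hr'ρ), one_mul]
            exact Hs_hs y v (lt_of_le_of_lt hy hr'1)
          refine (hI p hp0 c).trans ?_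
          rw [mul_assoc]
          refine mul_le_mul_right ((hcore Φ h a' hΦ hh (fun y hy => hhs y (lt_of_le_of_lt hy hr'ρ))
            ha'm ha'1 ha's ha'V hdef c).trans (le_of_eq ?_)) _
          rw [JJ_congr hr'ρ hΦs hhs]
      _ = ENNReal.ofReal (C0 ^ p) * K *
            (volume (Icc (fun _ : Fin (d + 1) => -M) (fun _ => M)) +
            ∫⁻ b in Icc (fun _ : Fin (d + 1) => -M) (fun _ => M),
            JJ d r' α (kap d α) (fun y => pb φ b (join y (hs y))) hs) := by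
          rw [lintegral_const_mul' _ _ (ENNReal.mul_ne_top ENNReal.ofReal_ne_top hK),
            lintegral_add_left measurable_const, setLIntegral_one]
      _ ≤ _ := by
          gcongr
          refine (lintegral_mono_set ?_).trans (hae φ (fun x _ => hφ.1.contDiffAt)
            fun k x hx => hφ.2 k x (by rw [hx]; norm_num))
          intro b hb j _
          have hM := le_abs_self M
          exact ⟨by linarith [hb.1 j], (hb.2 j).trans hM⟩

end Pool.Agent.GNP
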