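import Pool.Agent.GNP.UPU
import Pool.Agent.GNP.WBV
import Pool.Agent.GNP.WPiece

/-!
Rough amplitudes: the whole sphere.
-/

namespace Pool.Agent.GNP

open MeasureTheory Set Pool.Agent.MP_6cbfb8_an
open scoped ENNReal Real RealInnerProductSpace ContDiff Topology

theorem PhB.comp_iso {n : ℕ} {B : ℕ → ℝ} {φ : E n → ℝ} (h : PhB n B φ) (R : E n ≃ₗᵢ[ℝ] E n) :
    PhB n B fun x => φ (R x) := by
  refine ⟨h.1.comp R.contDiff, fun k x hx => ?_⟩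
  have h1 := R.norm_iteratedFDeriv_comp_right (𝕜 := ℝ) φ x k
  have h2 : iteratedFDeriv ℝ k (fun x => φ (R x)) x = iteratedFDeriv ℝ k (φ ∘ R) x := rfl
  rw [h2, h1]
  exact h.2 k (R x) (by rwa [LinearIsometryEquiv.norm_map])

/-- Smooth functions are Lipschitz on the unit sphere. -/
theorem exists_lip {n : ℕ} {u : E n → ℝ} (hu : ContDiff ℝ ∞ u) : ∃ L : ℝ, 0 ≤ L ∧
    ∀ x y : E n, ‖x‖ = 1 → ‖y‖ = 1 → |u x - u y| ≤ L * ‖x - y‖ := by
  have hc : Continuous fun x => ‖fderiv ℝ u x‖ := (hu.continuous_fderiv (by simp)).norm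
  obtain ⟨L, hL⟩ := (isCompact_closedBall (0 : E n) 1).bddAbove_image hc.continuousOn
  have hL' : ∀ x ∈ Metric.closedBall (0 : E n) 1, ‖fderiv ℝ u x‖ ≤ max L 0 := fun x hx =>
    le_max_of_le_left (hL (mem_image_of_mem _ hx))
  refine ⟨max L 0, le_max_right _ _, fun x y hx hy => ?_⟩
  have h := (convex_closedBall (0 : E n) 1).norm_image_sub_le_of_norm_fderiv_le (𝕜 := ℝ)
    (fun z _ => (hu.differentiable (by simp)).differentiableAt) hL'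
    (by simp [hy] : y ∈ Metric.closedBall (0 : E n) 1)
    (by simp [hx] : x ∈ Metric.closedBall (0 : E n) 1)
  simpa [Real.norm_eq_abs] using h

theorem FF_singleton {n : ℕ} (a : E n → ℂ) (p : ℝ) (φ : E n → ℝ) (b : Fin n → ℝ) :
    FF {a} p φ b = ⨆ c : ℝ, ∫⁻ ξ, ‖extn (fun x => a x *
      Complex.exp (((c * pb φ b x : ℝ) : ℂ) * Complex.I)) ξ‖ₑ ^ p := by
  unfold FF
  simp

theorem box_eq (n : ℕ) (M : ℝ) : Icc (fun _ : Fin n => -M) (fun _ => M) = bx n M := by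
  unfold bx
  rw [Set.pi_univ_Icc]

/-- W11. -/
theorem main_w (d : ℕ) (hd : 3 ≤ d) (s V M p : ℝ) (hs : (d : ℝ) / (d + 1) < s) (hs1 : s ≤ 1)
    (hV : 1 ≤ V) (hp : 2 * ((d : ℝ) + 1) / d < p) (B : ℕ → ℝ) : ∃ C : ℝ≥0∞, C ≠ ⊤ ∧
    ∀ (φ : E (d + 1) → ℝ) (a : E (d + 1) → ℂ), PhB (d + 1) B φ → Measurable a →
    (∀ x, ‖a x‖ ≤ 1) → BVn (d + 1) s V a →
    ∫⁻ b in Icc (fun _ : Fin (d + 1) => -M) (fun _ => M), ⨆ c : ℝ,
      ∫⁻ ξ, ‖extn (fun x => a x * Complex.exp (((c * pb φ b x : ℝ) : ℂ) * Complex.I)) ξ‖ₑ ^ p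
      ≤ C := by
  have hd0 : (0 : ℝ) < d := by
    have : 0 < d := by omega
    exact_mod_cast this
  have hs0 : 0 < s := lt_of_le_of_lt (by positivity) hs
  have hp1 : 1 ≤ p := by
    have : (1 : ℝ) ≤ 2 * ((d : ℝ) + 1) / d := by
      rw [le_div_iff₀ hd0]
      linarith
    linarith
  obtain ⟨K, hK, hmul⟩ := BVn_mul (d + 1) (by omega) s hs0 hs1
  choose L hL0 hL using fun i : Fin (d + 1) × Bool => exists_lip (contDiff_pw (d := d) i)
  set Λ : ℝ := ∑ i, L i with hΛ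
  have hLΛ : ∀ i, L i ≤ Λ := fun i =>
    Finset.single_le_sum (f := L) (fun j _ => hL0 j) (Finset.mem_univ i)
  have hΛ0 : 0 ≤ Λ := Finset.sum_nonneg fun j _ => hL0 j
  set V' : ℝ := V + K * Λ with hV'
  have hV1 : 1 ≤ V' := by
    have := mul_nonneg hK.le hΛ0
    linarith
  have key := main_U d p M hp1 {φ | PhB (d + 1) B φ} (fun φ hφ => hφ.1.continuous)
    (fun φ hφ R => PhB.comp_iso hφ R)
    {𝒜 | ∃ a : E (d + 1) → ℂ, 𝒜 = {a} ∧ Measurable a ∧ (∀ x, ‖a x‖ ≤ 1) ∧ BVn (d + 1) s V a}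
    {𝒜 | ∃ a : E (d + 1) → ℂ, 𝒜 = {a} ∧ Measurable a ∧ (∀ x, ‖a x‖ ≤ 1) ∧ BVn (d + 1) s V' a}
    ?_ ?_ ?_ ?_ ?_
  · obtain ⟨C, hC, hCb⟩ := key
    refine ⟨C, hC, fun φ a hφ ham ha hBV => ?_⟩
    have h := hCb φ hφ {a} ⟨a, rfl, ham, ha, hBV⟩
    simp only [FF_singleton] at h
    rw [box_eq]
    exact h
  · rintro _ ⟨a, rfl, ham, ha, hBV⟩ a' ha'
    rw [mem_singleton_iff] at ha'
    rw [ha']
    exact ham
  · rintro _ ⟨a, rfl, ham, ha, hBV⟩ a' ha'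
    rw [mem_singleton_iff] at ha'
    rw [ha']
    exact ha
  · rintro _ ⟨a, rfl, ham, ha, hBV⟩ i
    have hw := (contDiff_pw (d := d) i).continuous.measurable
    refine ⟨fun x => (pw i x : ℂ) * a x, image_singleton, by fun_prop, fun x => ?_, ?_⟩
    · rw [norm_mul, Complex.norm_real, Real.norm_eq_abs, abs_of_nonneg (pw_nonneg i x)]
      exact mul_le_one₀ (pw_le_one i x) (norm_nonneg _) (ha x)
    · refine hmul V Λ a (pw i) (by linarith) hΛ0 ham ha hw (fun x => ?_) (fun x y hx hy => ?_) hBV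
      · rw [abs_of_nonneg (pw_nonneg i x)]
        exact pw_le_one i x
      · exact (hL i x y hx hy).trans (mul_le_mul_of_nonneg_right (hLΛ i) (norm_nonneg _))
  · rintro _ ⟨a, rfl, ham, ha, hBV⟩ R
    exact ⟨fun x => a (R x), image_singleton, ham.comp R.continuous.measurable, fun x => ha _,
      BVn_iso (d + 1) s V' a ham hBV R⟩
  · intro r hr hr1
    obtain ⟨C, hC, hCb⟩ := piece_w d hd r s V' M p hr hr1 hs hs1 hV1 hp B
    refine ⟨C, hC, ?_⟩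
    rintro φ hφ _ ⟨a, rfl, ham, ha, hBV⟩ hsupp
    simp only [FF_singleton]
    rw [← box_eq]
    exact hCb φ a hφ ham ha hBV (hsupp a (mem_singleton a))

theorem BVn.mono {n : ℕ} {s V V' : ℝ} {a : E n → ℂ} (h : BVn n s V a) (hV : V ≤ V') :
    BVn n s V' a := by
  intro r hr
  refine (h r hr).trans (ENNReal.ofReal_le_ofReal ?_)
  exact mul_le_mul_of_nonneg_right hV (Real.rpow_nonneg hr.le _)

theorem exists_PhB {n : ℕ} {φ : E n → ℝ} (hφ : ContDiff ℝ ∞ φ) : ∃ B : ℕ → ℝ, PhB n B φ := by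
  have h : ∀ k : ℕ, ∃ B : ℝ, ∀ x : E n, ‖x‖ ≤ 2 → ‖iteratedFDeriv ℝ k φ x‖ ≤ B := by
    intro k
    have hc : Continuous fun x => ‖iteratedFDeriv ℝ k φ x‖ :=
      (hφ.continuous_iteratedFDeriv (by exact_mod_cast le_top)).norm
    obtain ⟨B, hB⟩ := (isCompact_closedBall (0 : E n) 2).bddAbove_image hc.continuousOn
    exact ⟨B, fun x hx => hB (mem_image_of_mem _ (by simpa using hx))⟩
  choose B hB using h
  exact ⟨B, hφ, hB⟩

theorem enorm_extn_le {n : ℕ} {g : E n → ℂ} (hb : ∀ x, ‖g x‖ ≤ 1) (ξ : E n) :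
    ‖extn g ξ‖ₑ ≤ (sm n) univ := by
  unfold extn
  refine (enorm_integral_le_lintegral_enorm _).trans ?_
  refine (lintegral_mono (g := fun _ => 1) fun x => ?_).trans (by simp)
  rw [enorm_mul, ← ofReal_norm, ← ofReal_norm, Complex.norm_exp_ofReal_mul_I, ENNReal.ofReal_one,
    mul_one]
  exact ENNReal.ofReal_le_one.2 (hb _)

/-- A bound for an exponent gives a bound for every larger exponent. -/
theorem lint_extn_mono {n : ℕ} {g : E n → ℂ} (hb : ∀ x, ‖g x‖ ≤ 1) {q p : ℝ} (hq : 0 ≤ q)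
    (hqp : q ≤ p) : ∫⁻ ξ, ‖extn g ξ‖ₑ ^ p ≤
      (sm n) univ ^ (p - q) * ∫⁻ ξ, ‖extn g ξ‖ₑ ^ q := by
  have hfin : (sm n) univ ^ (p - q) ≠ ⊤ :=
    ENNReal.rpow_ne_top_of_nonneg (by linarith) (measure_ne_top _ _)
  rw [← lintegral_const_mul' _ _ hfin]
  refine lintegral_mono fun ξ => ?_
  have e : p = (p - q) + q := by ring
  calc ‖extn g ξ‖ₑ ^ p = ‖extn g ξ‖ₑ ^ (p - q) * ‖extn g ξ‖ₑ ^ q := by
        rw [← ENNReal.rpow_add_of_nonneg _ _ (by linarith) hq, sub_add_cancel]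
    _ ≤ (sm n) univ ^ (p - q) * ‖extn g ξ‖ₑ ^ q := by
        gcongr
        exact enorm_extn_le hb ξ

/-- W11'. -/
theorem main_w_ae (d : ℕ) (hd : 3 ≤ d) (s V : ℝ) (hs : (d : ℝ) / (d + 1) < s) (hs1 : s ≤ 1)
    (φ : E (d + 1) → ℝ) (a : E (d + 1) → ℂ) (hφ : ContDiff ℝ ∞ φ) (ham : Measurable a)
    (ha : ∀ x, ‖a x‖ ≤ 1) (hV : BVn (d + 1) s V a) : ∀ᵐ b : Fin (d + 1) → ℝ,
    ∀ p : ℝ, 2 * ((d : ℝ) + 1) / d < p → ∃ C : ℝ≥0∞, C ≠ ⊤ ∧ ∀ c : ℝ,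
      ∫⁻ ξ, ‖extn (fun x => a x * Complex.exp (((c * pb φ b x : ℝ) : ℂ) * Complex.I)) ξ‖ₑ ^ p
        ≤ C := by
  obtain ⟨B, hB⟩ := exists_PhB hφ
  set p0 : ℝ := 2 * ((d : ℝ) + 1) / d with hp0
  have hp0' : 0 ≤ p0 := by positivity
  have h1 : ∀ k m : ℕ, ∀ᵐ b : Fin (d + 1) → ℝ, b ∈ bx (d + 1) (k : ℝ) →
      FF {a} (p0 + 1 / ((m : ℝ) + 1)) φ b < ⊤ := by
    intro k m
    have hp : p0 < p0 + 1 / ((m : ℝ) + 1) := by
      have : (0 : ℝ) < 1 / ((m : ℝ) + 1) := by positivity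
      linarith
    obtain ⟨C, hC, hCb⟩ := main_w d hd s (max V 1) k _ hs hs1 (le_max_right _ _) hp B
    have h2 := hCb φ a hB ham ha (hV.mono (le_max_left _ _))
    rw [box_eq] at h2
    have h3 : ∫⁻ b in bx (d + 1) (k : ℝ), FF {a} (p0 + 1 / ((m : ℝ) + 1)) φ b ≠ ⊤ := by
      simp only [FF_singleton]
      exact ne_top_of_le_ne_top hC h2
    have hm : Measurable (FF {a} (p0 + 1 / ((m : ℝ) + 1)) φ) :=
      measurable_FF (by rintro _ rfl; exact ham) (by rintro _ rfl; exact ha) hφ.continuous _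
    have h4 := ae_lt_top hm h3
    have hbm : MeasurableSet (bx (d + 1) (k : ℝ)) :=
      MeasurableSet.univ_pi fun _ => measurableSet_Icc
    rwa [ae_restrict_iff' hbm] at h4
  have h2 : ∀ᵐ b : Fin (d + 1) → ℝ, ∀ k m : ℕ, b ∈ bx (d + 1) (k : ℝ) →
      FF {a} (p0 + 1 / ((m : ℝ) + 1)) φ b < ⊤ := by
    rw [ae_all_iff]
    intro k
    rw [ae_all_iff]
    exact h1 k
  filter_upwards [h2] with b hb p hp
  obtain ⟨k, hk⟩ := exists_nat_ge (∑ i, |b i|)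
  have hbk : b ∈ bx (d + 1) (k : ℝ) := by
    intro i _
    have h3 : |b i| ≤ k := (Finset.single_le_sum (f := fun i => |b i|)
      (fun j _ => abs_nonneg _) (Finset.mem_univ i)).trans hk
    exact abs_le.1 h3
  obtain ⟨m, hm⟩ := exists_nat_one_div_lt (sub_pos.2 hp)
  set q : ℝ := p0 + 1 / ((m : ℝ) + 1) with hq
  have hq0 : 0 ≤ q := by positivity
  have hqp : q ≤ p := by linarith
  refine ⟨(sm (d + 1)) univ ^ (p - q) * FF {a} q φ b, ?_, fun c => ?_⟩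
  · exact ENNReal.mul_ne_top (ENNReal.rpow_ne_top_of_nonneg (by linarith) (measure_ne_top _ _))
      (hb k m hbk).ne
  · have hg : ∀ x, ‖a x * Complex.exp (((c * pb φ b x : ℝ) : ℂ) * Complex.I)‖ ≤ 1 := by
      intro x
      rw [norm_mul, Complex.norm_exp_ofReal_mul_I, mul_one]
      exact ha x
    refine (lint_extn_mono hg hq0 hqp).trans ?_
    gcongr
    rw [FF_singleton]
    exact le_iSup (fun c : ℝ => ∫⁻ ξ, ‖extn (fun x => a x *
      Complex.exp (((c * pb φ b x : ℝ) : ℂ) * Complex.I)) ξ‖ₑ ^ q) c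

end Pool.Agent.GNP
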