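import Pool.Agent.GNP.SP4

/-!
Bounds at the points of the sphere; measurable phases.
-/

namespace Pool.Agent.GNP

open MeasureTheory Set Filter Topology Pool.Agent.MP_6cbfb8_an
open scoped ENNReal Real RealInnerProductSpace ContDiff

theorem exists_Sb {n : ℕ} {F : Type} [NormedAddCommGroup F] [NormedSpace ℝ F] {f : E n → F}
    (hf : ∀ x, ‖x‖ = 1 → ContDiffAt ℝ ∞ f x) : ∃ B : ℕ → ℝ, Sb n B f := by
  have h1 : ∀ k : ℕ, ∃ B : ℝ, ∀ x, ‖x‖ = 1 → ‖iteratedFDeriv ℝ k f x‖ ≤ B := by
    intro k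
    have hc : ContinuousOn (fun x => ‖iteratedFDeriv ℝ k f x‖) (Metric.sphere (0 : E n) 1) := by
      intro x hx
      have h2 : ContDiffAt ℝ k f x := (hf x (by simpa using hx)).of_le (by exact_mod_cast le_top)
      have h3 : ContDiffAt ℝ 0 (iteratedFDeriv ℝ k f) x :=
        h2.iteratedFDeriv_right (m := 0) (i := k) (by simp)
      exact h3.continuousAt.norm.continuousWithinAt
    obtain ⟨B, hB⟩ := (isCompact_sphere (0 : E n) 1).bddAbove_image hc
    exact ⟨B, fun x hx => hB ⟨x, by simpa using hx, rfl⟩⟩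
  choose B hB using h1
  exact ⟨B, hf, hB⟩

theorem exists_Sb_fin {n N : ℕ} {F : Type} [NormedAddCommGroup F] [NormedSpace ℝ F]
    {f : Fin N → E n → F} (hf : ∀ j x, ‖x‖ = 1 → ContDiffAt ℝ ∞ (f j) x) :
    ∃ B : ℕ → ℝ, ∀ j, Sb n B (f j) := by
  choose B hB using fun j => exists_Sb (hf j)
  refine ⟨fun k => ∑ j, |B j k|, fun j => (hB j).mono fun k => ?_⟩
  exact (le_abs_self _).trans (Finset.single_le_sum (f := fun j => |B j k|)
    (fun j _ => abs_nonneg _) (Finset.mem_univ j))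

/-- A measurable phase which agrees with the given one near the sphere. -/
theorem exists_meas_near {n : ℕ} {B : ℕ → ℝ} {φ : E n → ℝ} (h : Sb n B φ) :
    ∃ φ' : E n → ℝ, Measurable φ' ∧ Sb n B φ' ∧ ∀ x, ‖x‖ = 1 → φ' =ᶠ[𝓝 x] φ := by
  classical
  set U : Set (E n) := interior {y | ContinuousAt φ y} with hU
  have hUo : IsOpen U := isOpen_interior
  have hUc : ContinuousOn φ U := fun y hy =>
    (show ContinuousAt φ y from interior_subset hy).continuousWithinAt
  have hmem : ∀ x, ‖x‖ = 1 → U ∈ 𝓝 x := by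
    intro x hx
    have h1 : ContDiffAt ℝ 1 φ x := (h.sm x hx).of_le (by exact_mod_cast le_top)
    have h2 : ∀ᶠ y in 𝓝 x, ContinuousAt φ y := by
      filter_upwards [h1.eventually (by simp)] with y hy
      exact hy.continuousAt
    exact interior_mem_nhds.2 h2
  have hev : ∀ x, ‖x‖ = 1 → indicator U φ =ᶠ[𝓝 x] φ := by
    intro x hx
    filter_upwards [hmem x hx] with y hy
    exact indicator_of_mem hy _
  refine ⟨indicator U φ, ?_, ⟨fun x hx => (h.sm x hx).congr_of_eventuallyEq (hev x hx),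
    fun k x hx => ?_⟩, hev⟩
  · rw [← Set.piecewise_eq_indicator]
    exact hUc.measurable_piecewise continuousOn_const hUo.measurableSet
  · rw [((hev x hx).iteratedFDeriv (𝕜 := ℝ) k).eq_of_nhds]
    exact h.bd k x hx

end Pool.Agent.GNP
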