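import Pool.Agent.GNP.P0

/-!
Integration in `s`: the range `1 ≤ |c|`.
-/

namespace Pool.Agent.GNP

open MeasureTheory Set Pool.Agent.MP_6cbfb8_an
open scoped ENNReal Real RealInnerProductSpace ContDiff

/-- The key estimate, as a statement. -/
def KeyEst (d : ℕ) (A : ℕ → ℝ) (r r' p ε α : ℝ) : Prop := ∃ K : ℝ, 0 < K ∧
    ∀ (a : E d → ℂ) (q : E d → ℝ) (R : ℝ), 1 ≤ R → Amp d A r a → Phq d A R q →
    ∫⁻ x, ‖uu a q x‖ₑ ^ p ≤ ENNReal.ofReal (K * R ^ ε) *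
      ∫⁻ y in Metric.closedBall (0 : E d) r',
        ENNReal.ofReal ((1 + |(Hs q y).det| / R ^ d) ^ (-α))

theorem core_phq {d : ℕ} {A : ℕ → ℝ} {Φ h : E d → ℝ} (hΦ : Sm d A Φ) (hh : Sm d A h) (c s : ℝ) :
    Phq d A (√(1 + |c| + |s|)) (ph Φ h c s) where
  sm := contDiff_ph hΦ.sm hh.sm c s
  bd := by
    intro j _ y
    have h1 := ph_bound hΦ.sm hh.sm c s j y
    have hA : 0 ≤ A j := (norm_nonneg _).trans (hΦ.bd j y)
    rw [Real.sq_sqrt (by positivity)]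
    nlinarith [hΦ.bd j y, hh.bd j y, abs_nonneg c, abs_nonneg s]

theorem core_det_smul {d : ℕ} (c : ℝ) (T : E d →L[ℝ] E d) : (c • T).det = c ^ d * T.det := by
  have h := LinearMap.det_smul c (T : E d →ₗ[ℝ] E d)
  rw [finrank_euclideanSpace, Fintype.card_fin] at h
  exact h

theorem pt_le (d : ℕ) {m R α : ℝ} (D : ℝ) (hm : 0 < m) (hR : 0 < R) (hα : 0 < α) :
    ENNReal.ofReal ((1 + m * |D| / R ^ d) ^ (-α)) ≤
      ENNReal.ofReal (R ^ ((d : ℝ) * α) * m ^ (-α)) * ‖D‖ₑ ^ (-α) := by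
  have hc : 0 < R ^ ((d : ℝ) * α) * m ^ (-α) := by positivity
  rcases eq_or_ne D 0 with rfl | hD
  · rw [enorm_zero, ENNReal.zero_rpow_of_neg (by linarith), ENNReal.mul_top]
    · exact le_top
    · exact (ENNReal.ofReal_pos.2 hc).ne'
  · have hD' : 0 < |D| := abs_pos.2 hD
    rw [Real.enorm_eq_ofReal_abs, ENNReal.ofReal_rpow_of_pos hD', ← ENNReal.ofReal_mul hc.le]
    refine ENNReal.ofReal_le_ofReal ?_
    have hRd : 0 < R ^ d := by positivity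
    have h1 : (1 + m * |D| / R ^ d) ^ (-α) ≤ (m * |D| / R ^ d) ^ (-α) :=
      Real.rpow_le_rpow_of_nonpos (by positivity) (by linarith) (by linarith)
    refine h1.trans (le_of_eq ?_)
    rw [Real.div_rpow (by positivity) hRd.le, Real.mul_rpow hm.le hD'.le,
      Real.rpow_neg hRd.le, div_inv_eq_mul, Real.rpow_mul hR.le, Real.rpow_natCast]
    ring

theorem lint_scale (f : ℝ → ℝ≥0∞) {c : ℝ} (hc : c ≠ 0) :
    ∫⁻ s, f s = ENNReal.ofReal |c| * ∫⁻ σ, f (c * σ) := by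
  have h1 : Measure.map (fun x : ℝ => c * x) volume = ENNReal.ofReal |c⁻¹| • volume :=
    Real.map_volume_mul_left hc
  have h2 : ∫⁻ σ, f (c * σ) = ∫⁻ s, f s ∂(Measure.map (fun x : ℝ => c * x) volume) := by
    have := lintegral_map_equiv (μ := volume) f (Homeomorph.mulLeft₀ c hc).toMeasurableEquiv
    exact this.symm
  rw [h2, h1, lintegral_smul_measure, smul_eq_mul, ← mul_assoc, ← ENNReal.ofReal_mul (abs_nonneg c),
    ← abs_mul, mul_inv_cancel₀ hc]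
  simp

theorem core_big_u (d : ℕ) (hd : 1 ≤ d) (A : ℕ → ℝ) (r r' α p : ℝ) (hα : 2 / (d : ℝ) < α)
    (hkey : KeyEst d A r r' p ((d * α - 2) / 2) α) : ∃ K : ℝ≥0∞, K ≠ ⊤ ∧
    ∀ (Φ h : E d → ℝ) (a : E d → ℂ), Sm d A Φ → Sm d A h → Amp d A r a → ∀ c : ℝ, 1 ≤ |c| →
      ∫⁻ s : ℝ, ∫⁻ x, ‖uu a (ph Φ h c s) x‖ₑ ^ p ≤ K * JJ d r' α (kap d α) Φ h := by
  obtain ⟨K, hK, key⟩ := hkey
  have hd0 : (0 : ℝ) < d := by exact_mod_cast hd
  have hda : 2 < (d : ℝ) * α := by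
    rw [div_lt_iff₀ hd0] at hα
    linarith
  have hα0 : 0 < α := by
    by_contra hcon
    nlinarith
  set κ : ℝ := kap d α with hκ
  have hκ2 : κ = (3 * d * α - 2) / 4 := rfl
  have hκ0 : 0 < κ := by rw [hκ2]; nlinarith
  refine ⟨ENNReal.ofReal (K * 2 ^ κ), ENNReal.ofReal_ne_top, ?_⟩
  intro Φ h a hΦ hh ha c hc
  have hc0 : 0 < |c| := by linarith
  have hcne : c ≠ 0 := abs_pos.1 hc0
  have hmain : ∀ σ : ℝ, ∫⁻ x, ‖uu a (ph Φ h c (c * σ)) x‖ₑ ^ p ≤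
      ENNReal.ofReal (K * 2 ^ κ * |c| ^ (κ - d * α)) *
        ∫⁻ y in Metric.closedBall (0 : E d) r',
          ENNReal.ofReal ((1 + |σ|) ^ κ) * ‖(Hs Φ y - σ • Hs h y).det‖ₑ ^ (-α) := by
    intro σ
    set X : ℝ := 1 + |c| + |c * σ| with hX
    have hX1 : 1 ≤ X := by have := abs_nonneg (c * σ); linarith
    have hX0 : 0 < X := by linarith
    have hR1 : 1 ≤ √X := by
      rw [show (1 : ℝ) = √1 by simp]
      exact Real.sqrt_le_sqrt hX1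
    have hR0 : 0 < √X := by linarith
    have h1 := key a (ph Φ h c (c * σ)) (√X) hR1 ha (core_phq hΦ hh c (c * σ))
    refine h1.trans ?_
    have h2 : ∀ y : E d, ENNReal.ofReal ((1 + |(Hs (ph Φ h c (c * σ)) y).det| / √X ^ d) ^ (-α)) ≤
        ENNReal.ofReal (√X ^ ((d : ℝ) * α) * (|c| ^ d) ^ (-α)) *
          ‖(Hs Φ y - σ • Hs h y).det‖ₑ ^ (-α) := by
      intro y
      have h3 : (Hs (ph Φ h c (c * σ)) y).det = c ^ d * (Hs Φ y - σ • Hs h y).det := by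
        rw [Hs_ph hΦ.sm hh.sm, ← core_det_smul]
        congr 1
        rw [smul_sub, smul_smul]
      rw [h3, abs_mul, abs_pow]
      exact pt_le d _ (by positivity) hR0 hα0
    have h4 : ∫⁻ y in Metric.closedBall (0 : E d) r',
        ENNReal.ofReal ((1 + |(Hs (ph Φ h c (c * σ)) y).det| / √X ^ d) ^ (-α)) ≤
        ENNReal.ofReal (√X ^ ((d : ℝ) * α) * (|c| ^ d) ^ (-α)) *
          ∫⁻ y in Metric.closedBall (0 : E d) r', ‖(Hs Φ y - σ • Hs h y).det‖ₑ ^ (-α) := by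
      rw [← lintegral_const_mul' _ _ ENNReal.ofReal_ne_top]
      exact lintegral_mono h2
    rw [lintegral_const_mul' _ _ ENNReal.ofReal_ne_top, ← mul_assoc,
      ← ENNReal.ofReal_mul (by positivity)]
    refine (mul_le_mul_right h4 _).trans ?_
    rw [← mul_assoc, ← ENNReal.ofReal_mul (by positivity)]
    refine mul_le_mul_left (ENNReal.ofReal_le_ofReal ?_) _
    have e1 : √X ^ (((d : ℝ) * α - 2) / 2) * √X ^ ((d : ℝ) * α) = X ^ κ := by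
      rw [← Real.rpow_add hR0, Real.sqrt_eq_rpow, ← Real.rpow_mul hX0.le]
      congr 1
      rw [hκ2]; ring
    have e2 : (|c| ^ d) ^ (-α) = |c| ^ (-((d : ℝ) * α)) := by
      rw [← Real.rpow_natCast, ← Real.rpow_mul hc0.le]
      congr 1; ring
    have e3 : X ^ κ ≤ 2 ^ κ * |c| ^ κ * (1 + |σ|) ^ κ := by
      rw [← Real.mul_rpow (by norm_num) hc0.le, ← Real.mul_rpow (by positivity) (by positivity)]
      refine Real.rpow_le_rpow hX0.le ?_ hκ0.le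
      rw [hX, abs_mul]
      nlinarith [abs_nonneg σ, mul_nonneg hc0.le (abs_nonneg σ)]
    have e4 : |c| ^ κ * |c| ^ (-((d : ℝ) * α)) = |c| ^ (κ - d * α) := by
      rw [← Real.rpow_add hc0]; congr 1
    calc K * √X ^ (((d : ℝ) * α - 2) / 2) * (√X ^ ((d : ℝ) * α) * (|c| ^ d) ^ (-α))
        = K * (√X ^ (((d : ℝ) * α - 2) / 2) * √X ^ ((d : ℝ) * α)) * |c| ^ (-((d : ℝ) * α)) := by
          rw [e2]; ring
      _ = K * X ^ κ * |c| ^ (-((d : ℝ) * α)) := by rw [e1]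
      _ ≤ K * (2 ^ κ * |c| ^ κ * (1 + |σ|) ^ κ) * |c| ^ (-((d : ℝ) * α)) := by gcongr
      _ = K * 2 ^ κ * (|c| ^ κ * |c| ^ (-((d : ℝ) * α))) * (1 + |σ|) ^ κ := by ring
      _ = K * 2 ^ κ * |c| ^ (κ - d * α) * (1 + |σ|) ^ κ := by rw [e4]
  rw [lint_scale _ hcne]
  calc ENNReal.ofReal |c| * ∫⁻ σ, ∫⁻ x, ‖uu a (ph Φ h c (c * σ)) x‖ₑ ^ p
      ≤ ENNReal.ofReal |c| * ∫⁻ σ : ℝ, ENNReal.ofReal (K * 2 ^ κ * |c| ^ (κ - d * α)) *
        ∫⁻ y in Metric.closedBall (0 : E d) r',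
          ENNReal.ofReal ((1 + |σ|) ^ κ) * ‖(Hs Φ y - σ • Hs h y).det‖ₑ ^ (-α) := by
        gcongr with σ
        exact hmain σ
    _ = ENNReal.ofReal (|c| * (K * 2 ^ κ * |c| ^ (κ - d * α))) * JJ d r' α κ Φ h := by
        rw [lintegral_const_mul' _ _ ENNReal.ofReal_ne_top, ← mul_assoc,
          ← ENNReal.ofReal_mul (abs_nonneg c)]
        rfl
    _ ≤ ENNReal.ofReal (K * 2 ^ κ) * JJ d r' α κ Φ h := by
        refine mul_le_mul_left (ENNReal.ofReal_le_ofReal ?_) _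
        have h5 : |c| * |c| ^ (κ - d * α) ≤ 1 := by
          have : |c| * |c| ^ (κ - d * α) = |c| ^ (1 + (κ - d * α)) := by
            rw [Real.rpow_add hc0, Real.rpow_one]
          rw [this]
          refine Real.rpow_le_one_of_one_le_of_nonpos hc ?_
          rw [hκ2]; nlinarith
        have h6 : 0 < K * 2 ^ κ := by positivity
        nlinarith

theorem core_big (d : ℕ) (hd : 1 ≤ d) (A : ℕ → ℝ) (r r' α p : ℝ) (hα : 2 / (d : ℝ) < α)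
    (Φ h : E d → ℝ) (a : E d → ℂ) (hΦ : Sm d A Φ) (hh : Sm d A h) (ha : Amp d A r a)
    (hkey : KeyEst d A r r' p ((d * α - 2) / 2) α)
    (hJ : JJ d r' α (kap d α) Φ h ≠ ⊤) :
    ∃ C : ℝ≥0∞, C ≠ ⊤ ∧ ∀ c : ℝ, 1 ≤ |c| →
      ∫⁻ s : ℝ, ∫⁻ x, ‖uu a (ph Φ h c s) x‖ₑ ^ p ≤ C := by
  obtain ⟨K, hK, h1⟩ := core_big_u d hd A r r' α p hα hkey
  exact ⟨K * JJ d r' α (kap d α) Φ h, ENNReal.mul_ne_top hK hJ, h1 Φ h a hΦ hh ha⟩

end Pool.Agent.GNP
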