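import Pool.Agent.GNP.KE
import Pool.Agent.GNP.CoreBig

/-!
Every phase: the trivial bound for one slope.
-/

namespace Pool.Agent.GNP

open MeasureTheory Set Pool.Agent.MP_6cbfb8_an
open scoped ENNReal Real RealInnerProductSpace ContDiff

theorem near_s (d : ℕ) (hd : 1 ≤ d) (A : ℕ → ℝ) (r r' p : ℝ) (hr : 0 < r) (hr' : r < r')
    (hp : 2 < p) : ∃ K : ℝ, 0 < K ∧ ∀ (Φ h : E d → ℝ) (a : E d → ℂ), Sm d A Φ → Sm d A h →
      Amp d A r a → ∀ c s : ℝ, ∫⁻ x, ‖uu a (ph Φ h c s) x‖ₑ ^ p ≤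
        ENNReal.ofReal (K * (1 + |c| + |s|)) := by
  obtain ⟨K, hK, hkey⟩ := key d hd A r r' p 2 0 hr hr' hp two_pos le_rfl (by linarith)
  set V : ℝ := (volume (Metric.closedBall (0 : E d) r')).toReal with hV
  have hVt : volume (Metric.closedBall (0 : E d) r') ≠ ⊤ := measure_closedBall_lt_top.ne
  have hV0 : 0 ≤ V := ENNReal.toReal_nonneg
  refine ⟨K * (V + 1), by positivity, fun Φ h a hΦ hh ha c s => ?_⟩
  have hX : 1 ≤ 1 + |c| + |s| := by have := abs_nonneg c; have := abs_nonneg s; linarith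
  have hR1 : 1 ≤ √(1 + |c| + |s|) := by
    rw [show (1 : ℝ) = √1 by simp]
    exact Real.sqrt_le_sqrt (by simpa using hX)
  have h1 := hkey a (ph Φ h c s) (√(1 + |c| + |s|)) hR1 ha (core_phq hΦ hh c s)
  refine h1.trans ?_
  have h2 : ∫⁻ y in Metric.closedBall (0 : E d) r',
      ENNReal.ofReal ((1 + |(Hs (ph Φ h c s) y).det| / √(1 + |c| + |s|) ^ d) ^ (-(0 : ℝ))) =
      ENNReal.ofReal V := by
    simp only [neg_zero, Real.rpow_zero, ENNReal.ofReal_one, lintegral_const, one_mul,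
      Measure.restrict_apply MeasurableSet.univ, univ_inter]
    rw [hV, ENNReal.ofReal_toReal hVt]
  rw [h2, ← ENNReal.ofReal_mul (by positivity)]
  refine ENNReal.ofReal_le_ofReal ?_
  have h3 : √(1 + |c| + |s|) ^ (2 : ℝ) = 1 + |c| + |s| := by
    rw [Real.rpow_two, Real.sq_sqrt (by linarith)]
  rw [h3]
  have h4 : 0 ≤ K * (1 + |c| + |s|) := by positivity
  nlinarith

end Pool.Agent.GNP
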