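import Pool.Agent.GNP.LS
import Pool.Agent.GNP.FS4
import Pool.Agent.GNP.NearS
import Pool.Agent.GNP.Far4

/-!
Phases in all dimensions under condition (M): the bound in a chart, with a loss.
-/

namespace Pool.Agent.GNP

open MeasureTheory Set Pool.Agent.MP_6cbfb8_an
open scoped ENNReal Real RealInnerProductSpace ContDiff

/-- Large `c`. -/
theorem c4M_big (d j : ℕ) (hd : 2 ≤ d) (hj : 1 ≤ j) (hjd : 2 * j ≤ d) (A : ℕ → ℝ)
    (r r' b η p ε C1 : ℝ) (hr : 0 < r) (hr' : r < r') (hb : 0 < b) (hη : 0 < η)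
    (hp : 2 / (d : ℝ) < p - 2) (hp2 : j * (p - 2) < 2)
    (hp3 : 2 / 3 ≤ j * (p - 2)) (hε : 0 < ε) :
    ∃ K : ℝ, 0 < K ∧ ∀ (Φ h : E d → ℝ) (a : E d → ℂ), Sm d A Φ → Sm d A h → Amp d A r a →
      Df d b r' h → (∀ y, ‖y‖ ≤ r' → Mop d j η (Hs Φ y) (-Hs h y)) → ∀ c : ℝ, K ≤ |c| →
      ∫⁻ s in {s : ℝ | |s| ≤ C1 * (1 + |c|)}, ∫⁻ x, ‖uu a (ph Φ h c s) x‖ₑ ^ p ≤
        ENNReal.ofReal (K * (1 + |c|) ^ (3 * ε)) := by
  have hd0 : (0 : ℝ) < d := by exact_mod_cast (show 0 < d by omega)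
  have hp0 : 2 < p := by
    have : 0 < 2 / (d : ℝ) := by positivity
    linarith
  set J : ℕ := ⌈1 / ε⌉₊ with hJ
  have hJ1 : 1 ≤ ((J : ℝ) + 1) * ε := by
    have h1 : 1 / ε ≤ J := Nat.le_ceil _
    rw [div_le_iff₀ hε] at h1
    nlinarith
  obtain ⟨m, Ks, hKs, hfix⟩ := fixed_s d J (by omega) A r r' b p ε C1 hr hr' hb hp0 hε hJ1
  obtain ⟨Kl, hKl, hlev⟩ := lev_sum_M d j J m hd hj hjd A r' b η (p - 2) ε (by linarith) hb hη hp
    hp2 hp3 hε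
  set K : ℝ := max (max Ks Kl) (Ks * (Kl * (Ks + 1))) with hK
  refine ⟨K, lt_of_lt_of_le hKs ((le_max_left _ _).trans (le_max_left _ _)), ?_⟩
  intro Φ h a hΦ hh ha hdef hM c hc
  set κ : ℝ := (1 + |c|) ^ ε with hκ
  have hc0 : 1 ≤ 1 + |c| := by linarith [abs_nonneg c]
  have hκone : 1 ≤ κ := Real.one_le_rpow hc0 hε.le
  have hKsc : Ks ≤ |c| := ((le_max_left _ _).trans (le_max_left _ _)).trans hc
  have hKlc : Kl ≤ |c| := ((le_max_right _ _).trans (le_max_left _ _)).trans hc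
  set n : ℕ := ⌈Ks * κ⌉₊ with hn
  have hn2 : (n : ℝ) ≤ (Ks + 1) * κ := by
    have h2 : ((⌈Ks * κ⌉₊ : ℕ) : ℝ) < Ks * κ + 1 := Nat.ceil_lt_add_one (by positivity)
    rw [hn]
    nlinarith
  have hS0 : MeasurableSet {s : ℝ | |s| ≤ C1 * (1 + |c|)} :=
    measurableSet_le (by fun_prop) measurable_const
  calc ∫⁻ s in {s : ℝ | |s| ≤ C1 * (1 + |c|)}, ∫⁻ x, ‖uu a (ph Φ h c s) x‖ₑ ^ p
      ≤ ∫⁻ s in {s : ℝ | |s| ≤ C1 * (1 + |c|)}, ENNReal.ofReal (Ks * κ) *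
          ∑ k ∈ Finset.range n, ∫⁻ y in Fl J κ (ph Φ h c s) r' m k,
            ENNReal.ofReal (Vv Φ h c s (2 ^ k) y ^ (p - 2)) :=
        setLIntegral_mono' hS0 fun s hs => hfix Φ h a hΦ hh ha hdef c s hKsc hs
    _ = ENNReal.ofReal (Ks * κ) * ∫⁻ s in {s : ℝ | |s| ≤ C1 * (1 + |c|)},
          ∑ k ∈ Finset.range n, ∫⁻ y in Fl J κ (ph Φ h c s) r' m k,
            ENNReal.ofReal (Vv Φ h c s (2 ^ k) y ^ (p - 2)) :=
        lintegral_const_mul' _ _ ENNReal.ofReal_ne_top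
    _ ≤ ENNReal.ofReal (Ks * κ) * ENNReal.ofReal (Kl * (n * κ)) := by
        gcongr
        exact hlev Φ h hΦ hh hdef hM c hKlc n _ hS0
    _ = ENNReal.ofReal (Ks * κ * (Kl * (n * κ))) := by
        rw [← ENNReal.ofReal_mul (by positivity)]
    _ ≤ _ := by
        refine ENNReal.ofReal_le_ofReal ?_
        have h3 : (1 + |c|) ^ (3 * ε) = κ * κ * κ := by
          rw [hκ, ← Real.rpow_add (by linarith), ← Real.rpow_add (by linarith)]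
          congr 1
          ring
        rw [h3]
        calc Ks * κ * (Kl * (n * κ)) ≤ Ks * κ * (Kl * ((Ks + 1) * κ * κ)) := by gcongr
          _ = (Ks * (Kl * (Ks + 1))) * (κ * κ * κ) := by ring
          _ ≤ K * (κ * κ * κ) := by
              gcongr
              exact le_max_right _ _

/-- Small `c`. -/
theorem c4M_small (d : ℕ) (hd : 1 ≤ d) (A : ℕ → ℝ) (r r' p C1 c0 : ℝ) (hr : 0 < r)
    (hr' : r < r') (hp : 2 < p) (hC1 : 0 < C1) (hc0 : 0 ≤ c0) :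
    ∃ K : ℝ, 0 < K ∧ ∀ (Φ h : E d → ℝ) (a : E d → ℂ), Sm d A Φ → Sm d A h → Amp d A r a →
      ∀ c : ℝ, |c| ≤ c0 →
      ∫⁻ s in {s : ℝ | |s| ≤ C1 * (1 + |c|)}, ∫⁻ x, ‖uu a (ph Φ h c s) x‖ₑ ^ p ≤
        ENNReal.ofReal K := by
  obtain ⟨K, hK, H⟩ := near_s d hd A r r' p hr hr' hp
  set T : ℝ := C1 * (1 + c0) with hT
  have hT0 : 0 < T := by positivity
  refine ⟨K * (1 + c0 + T) * (2 * T), by positivity, ?_⟩
  intro Φ h a hΦ hh ha c hc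
  have hsub : {s : ℝ | |s| ≤ C1 * (1 + |c|)} ⊆ Icc (-T) T := by
    intro s hs
    refine abs_le.1 (le_trans hs ?_)
    rw [hT]
    gcongr
  refine (lintegral_mono_set hsub).trans ?_
  refine (setLIntegral_mono' measurableSet_Icc (g := fun _ => ENNReal.ofReal (K * (1 + c0 + T)))
    fun s hs => (H Φ h a hΦ hh ha c s).trans (ENNReal.ofReal_le_ofReal ?_)).trans ?_
  · have h1 : |s| ≤ T := abs_le.2 hs
    gcongr
  · rw [setLIntegral_const, Real.volume_Icc, ← ENNReal.ofReal_mul (by positivity)]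
    exact ENNReal.ofReal_le_ofReal (le_of_eq (by ring))

/-- The range of small exponents. -/
theorem c4M_aux (d j : ℕ) (hd : 2 ≤ d) (hj : 1 ≤ j) (hjd : 2 * j ≤ d) (A : ℕ → ℝ)
    (r r' b η p ε : ℝ) (hr : 0 < r) (hr' : r < r') (hb : 0 < b) (hη : 0 < η)
    (hp : 2 / (d : ℝ) < p - 2) (hp2 : j * (p - 2) < 2)
    (hp3 : 2 / 3 ≤ j * (p - 2)) (hε : 0 < ε) :
    ∃ K : ℝ, 0 < K ∧ ∀ (Φ h : E d → ℝ) (a : E d → ℂ), Sm d A Φ → Sm d A h → Amp d A r a →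
      Df d b r' h → (∀ y, ‖y‖ ≤ r' → Mop d j η (Hs Φ y) (-Hs h y)) → ∀ c : ℝ,
      ∫⁻ s : ℝ, ∫⁻ x, ‖uu a (ph Φ h c s) x‖ₑ ^ p ≤ ENNReal.ofReal (K * (1 + |c|) ^ ε) := by
  have hd0 : (0 : ℝ) < d := by
    have : (2 : ℝ) ≤ d := by exact_mod_cast hd
    linarith
  have hp' : 2 * ((d : ℝ) + 1) / d < p := by
    rw [div_lt_iff₀ hd0] at hp ⊢
    linarith
  have hpos : 0 < 2 / (d : ℝ) := by positivity
  obtain ⟨Kf, C1, hKf, hC1, hfar⟩ := far_s d (by omega) A r r' b p hr hr' hb hp'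
  obtain ⟨K1, hK1, hbig⟩ := c4M_big d j hd hj hjd A r r' b η p (ε / 3) C1 hr hr' hb hη hp hp2 hp3
    (by positivity)
  obtain ⟨K2, hK2, hsmall⟩ := c4M_small d (by omega) A r r' p C1 K1 hr hr' (by linarith) hC1 hK1.le
  refine ⟨Kf + K1 + K2, by positivity, ?_⟩
  intro Φ h a hΦ hh ha hdef hM c
  have hc1 : 1 ≤ (1 + |c|) ^ ε := Real.one_le_rpow (by linarith [abs_nonneg c]) hε.le
  have hnear : ∫⁻ s in {s : ℝ | |s| ≤ C1 * (1 + |c|)}, ∫⁻ x, ‖uu a (ph Φ h c s) x‖ₑ ^ p ≤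
      ENNReal.ofReal ((K1 + K2) * (1 + |c|) ^ ε) := by
    rcases le_total K1 |c| with hc | hc
    · refine (hbig Φ h a hΦ hh ha hdef hM c hc).trans (ENNReal.ofReal_le_ofReal ?_)
      rw [show 3 * (ε / 3) = ε by ring]
      gcongr
      linarith
    · refine (hsmall Φ h a hΦ hh ha c hc).trans (ENNReal.ofReal_le_ofReal ?_)
      nlinarith
  have huniv : (univ : Set ℝ) ⊆ {s : ℝ | |s| ≤ C1 * (1 + |c|)} ∪ {s : ℝ | C1 * (1 + |c|) ≤ |s|} :=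
    fun s _ => (le_total |s| (C1 * (1 + |c|))).imp id id
  calc ∫⁻ s : ℝ, ∫⁻ x, ‖uu a (ph Φ h c s) x‖ₑ ^ p
      = ∫⁻ s in univ, ∫⁻ x, ‖uu a (ph Φ h c s) x‖ₑ ^ p := by rw [Measure.restrict_univ]
    _ ≤ ∫⁻ s in {s : ℝ | |s| ≤ C1 * (1 + |c|)} ∪ {s : ℝ | C1 * (1 + |c|) ≤ |s|},
          ∫⁻ x, ‖uu a (ph Φ h c s) x‖ₑ ^ p := lintegral_mono_set huniv
    _ ≤ _ := lintegral_union_le _ _ _
    _ ≤ ENNReal.ofReal ((K1 + K2) * (1 + |c|) ^ ε) + ENNReal.ofReal Kf :=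
        add_le_add hnear (hfar Φ h a hΦ hh ha hdef c)
    _ ≤ _ := by
        rw [← ENNReal.ofReal_add (by positivity) hKf.le]
        refine ENNReal.ofReal_le_ofReal ?_
        nlinarith

theorem c4M_uu_le {d : ℕ} {A : ℕ → ℝ} {r : ℝ} {a : E d → ℂ} (ha : Amp d A r a) (q : E d → ℝ)
    (x : E d) : ‖uu a q x‖ ≤ A 0 * (volume (Metric.closedBall (0 : E d) r)).toReal := by
  have hA : ∀ y, ‖a y‖ ≤ A 0 := fun y => by
    have := ha.bd 0 y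
    rwa [norm_iteratedFDeriv_zero] at this
  have hA0 : 0 ≤ A 0 := (norm_nonneg _).trans (hA 0)
  unfold uu
  have h1 : ∫ y, a y * Complex.exp (((q y - ⟪x, y⟫ : ℝ) : ℂ) * Complex.I) =
      ∫ y in Metric.closedBall (0 : E d) r,
        a y * Complex.exp (((q y - ⟪x, y⟫ : ℝ) : ℂ) * Complex.I) := by
    symm
    refine setIntegral_eq_integral_of_forall_compl_eq_zero fun y hy => ?_
    rw [ha.supp y (by simpa using hy), zero_mul]
  rw [h1]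
  refine norm_setIntegral_le_of_norm_le_const measure_closedBall_lt_top fun y _ => ?_
  rw [norm_mul, Complex.norm_exp_ofReal_mul_I, mul_one]
  exact hA y

/-- Condition (M) with `j` far roots, `2 / 3 ≤ j (p - 2)`: the bound in a chart, with a loss of
`(1 + |c|)^ε`. -/
theorem core_Mp (d j : ℕ) (hd : 2 ≤ d) (hj : 1 ≤ j) (hjd : 2 * j ≤ d)
    (A : ℕ → ℝ) (r r' b η p ε : ℝ) (hr : 0 < r) (hr' : r < r') (hb : 0 < b) (hη : 0 < η)
    (hp : 2 * ((d : ℝ) + 1) / d < p) (hp3 : 2 / 3 ≤ j * (p - 2)) (hε : 0 < ε) :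
    ∃ K : ℝ, 0 < K ∧ ∀ (Φ h : E d → ℝ) (a : E d → ℂ), Sm d A Φ → Sm d A h → Amp d A r a →
      Df d b r' h → (∀ y, ‖y‖ ≤ r' → Mop d j η (Hs Φ y) (-Hs h y)) → ∀ c : ℝ,
      ∫⁻ s : ℝ, ∫⁻ x, ‖uu a (ph Φ h c s) x‖ₑ ^ p ≤
        ENNReal.ofReal (K * (1 + |c|) ^ ε) := by
  have hd2 : (2 : ℝ) ≤ d := by exact_mod_cast hd
  have hd0 : (0 : ℝ) < d := by linarith
  have hj0 : (0 : ℝ) < j := by exact_mod_cast hj
  have hjd' : 2 * (j : ℝ) ≤ d := by exact_mod_cast hjd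
  have hp' : 2 / (d : ℝ) < p - 2 := by
    rw [div_lt_iff₀ hd0] at hp ⊢
    linarith
  -- the reduced exponent
  set α : ℝ := min (p - 2) (3 / (2 * j)) with hα
  have hα1 : 2 / (d : ℝ) < α := by
    refine lt_min hp' ?_
    rw [div_lt_div_iff₀ hd0 (by positivity)]
    linarith
  have hα2 : j * α < 2 := by
    have h1 : α ≤ 3 / (2 * j) := min_le_right _ _
    have h2 : j * α ≤ j * (3 / (2 * j)) := mul_le_mul_of_nonneg_left h1 hj0.le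
    have h3 : (j : ℝ) * (3 / (2 * j)) = 3 / 2 := by field_simp
    linarith
  have hα3 : 2 / 3 ≤ j * α := by
    rcases min_choice (p - 2) (3 / (2 * (j : ℝ))) with h | h
    · rw [hα, h]
      exact hp3
    · rw [hα, h]
      have h3 : (j : ℝ) * (3 / (2 * j)) = 3 / 2 := by field_simp
      rw [h3]
      norm_num
  set p0 : ℝ := 2 + α with hp0
  have hp0p : p0 ≤ p := by
    have : α ≤ p - 2 := min_le_left _ _
    linarith
  obtain ⟨K, hK, H⟩ := c4M_aux d j hd hj hjd A r r' b η p0 ε hr hr' hb hη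
    (by rw [hp0]; linarith) (by rw [hp0]; ring_nf; ring_nf at hα2; linarith)
    (by rw [hp0]; ring_nf; ring_nf at hα3; linarith) hε
  set B : ℝ := |A 0| * (volume (Metric.closedBall (0 : E d) r)).toReal + 1 with hB
  have hB0 : 0 < B := by positivity
  refine ⟨B ^ (p - p0) * K, by positivity, ?_⟩
  intro Φ h a hΦ hh ha hdef hM c
  have hp00 : 0 ≤ p0 := by
    have : 0 < 2 / (d : ℝ) := by positivity
    linarith
  have hpt : ∀ s x, ‖uu a (ph Φ h c s) x‖ₑ ^ p ≤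
      ENNReal.ofReal (B ^ (p - p0)) * ‖uu a (ph Φ h c s) x‖ₑ ^ p0 := by
    intro s x
    have h1 : ‖uu a (ph Φ h c s) x‖ ≤ B := by
      refine (c4M_uu_le ha _ x).trans ?_
      rw [hB]
      have : A 0 * (volume (Metric.closedBall (0 : E d) r)).toReal ≤
          |A 0| * (volume (Metric.closedBall (0 : E d) r)).toReal :=
        mul_le_mul_of_nonneg_right (le_abs_self _) ENNReal.toReal_nonneg
      linarith
    have h2 : ‖uu a (ph Φ h c s) x‖ₑ ≤ ENNReal.ofReal B := by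
      rw [← ofReal_norm]
      exact ENNReal.ofReal_le_ofReal h1
    calc ‖uu a (ph Φ h c s) x‖ₑ ^ p = ‖uu a (ph Φ h c s) x‖ₑ ^ (p - p0) *
          ‖uu a (ph Φ h c s) x‖ₑ ^ p0 := by
          rw [← ENNReal.rpow_add_of_nonneg _ _ (by linarith) hp00]
          congr 1
          ring
      _ ≤ ENNReal.ofReal B ^ (p - p0) * ‖uu a (ph Φ h c s) x‖ₑ ^ p0 := by
          gcongr
      _ = _ := by rw [ENNReal.ofReal_rpow_of_pos hB0]
  calc ∫⁻ s : ℝ, ∫⁻ x, ‖uu a (ph Φ h c s) x‖ₑ ^ p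
      ≤ ∫⁻ s : ℝ, ENNReal.ofReal (B ^ (p - p0)) * ∫⁻ x, ‖uu a (ph Φ h c s) x‖ₑ ^ p0 := by
        refine lintegral_mono fun s => ?_
        rw [← lintegral_const_mul' _ _ ENNReal.ofReal_ne_top]
        exact lintegral_mono fun x => hpt s x
    _ = ENNReal.ofReal (B ^ (p - p0)) * ∫⁻ s : ℝ, ∫⁻ x, ‖uu a (ph Φ h c s) x‖ₑ ^ p0 :=
        lintegral_const_mul' _ _ ENNReal.ofReal_ne_top
    _ ≤ ENNReal.ofReal (B ^ (p - p0)) * ENNReal.ofReal (K * (1 + |c|) ^ ε) := by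
        gcongr
        exact H Φ h a hΦ hh ha hdef hM c
    _ = _ := by
        rw [← ENNReal.ofReal_mul (by positivity)]
        congr 1
        ring

/-- Condition (M) with `j` far roots, `d ≤ 3 j`: the bound in a chart, with a loss of
`(1 + |c|)^ε`. -/
theorem core_M (d j : ℕ) (hd : 2 ≤ d) (hj : 1 ≤ j) (hjd : 2 * j ≤ d) (hj3 : d ≤ 3 * j)
    (A : ℕ → ℝ) (r r' b η p ε : ℝ) (hr : 0 < r) (hr' : r < r') (hb : 0 < b) (hη : 0 < η)
    (hp : 2 * ((d : ℝ) + 1) / d < p) (hε : 0 < ε) :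
    ∃ K : ℝ, 0 < K ∧ ∀ (Φ h : E d → ℝ) (a : E d → ℂ), Sm d A Φ → Sm d A h → Amp d A r a →
      Df d b r' h → (∀ y, ‖y‖ ≤ r' → Mop d j η (Hs Φ y) (-Hs h y)) → ∀ c : ℝ,
      ∫⁻ s : ℝ, ∫⁻ x, ‖uu a (ph Φ h c s) x‖ₑ ^ p ≤
        ENNReal.ofReal (K * (1 + |c|) ^ ε) := by
  refine core_Mp d j hd hj hjd A r r' b η p ε hr hr' hb hη hp ?_ hε
  have hd0 : (0 : ℝ) < d := by exact_mod_cast (show 0 < d by omega)
  have hj0 : (0 : ℝ) < j := by exact_mod_cast hj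
  have hj3' : (d : ℝ) ≤ 3 * j := by exact_mod_cast hj3
  have hp' : 2 / (d : ℝ) ≤ p - 2 := by
    rw [div_lt_iff₀ hd0] at hp
    rw [div_le_iff₀ hd0]
    linarith
  have h1 : (j : ℝ) * (2 / d) ≤ j * (p - 2) := mul_le_mul_of_nonneg_left hp' hj0.le
  have h2 : (2 : ℝ) / 3 ≤ j * (2 / d) := by
    rw [mul_div_assoc', le_div_iff₀ hd0]
    linarith
  linarith

/-- No condition, `8 / 3 ≤ p`: the bound in a chart, with a loss of `(1 + |c|)^ε`. -/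
theorem core4M (d : ℕ) (hd : 2 ≤ d) (A : ℕ → ℝ) (r r' b p ε : ℝ) (hr : 0 < r)
    (hr' : r < r') (hb : 0 < b) (hp : 2 * ((d : ℝ) + 1) / d < p) (hp3 : 8 / 3 ≤ p) (hε : 0 < ε) :
    ∃ K : ℝ, 0 < K ∧ ∀ (Φ h : E d → ℝ) (a : E d → ℂ), Sm d A Φ → Sm d A h → Amp d A r a →
      Df d b r' h → ∀ c : ℝ, ∫⁻ s : ℝ, ∫⁻ x, ‖uu a (ph Φ h c s) x‖ₑ ^ p ≤
        ENNReal.ofReal (K * (1 + |c|) ^ ε) := by
  obtain ⟨K, hK, H⟩ := core_Mp d 1 hd le_rfl (by omega) A r r' b 1 p ε hr hr' hb one_pos hp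
    (by push_cast; linarith) hε
  exact ⟨K, hK, fun Φ h a hΦ hh ha hdef => H Φ h a hΦ hh ha hdef fun y _ => Mop_one (by omega) _ _⟩

end Pool.Agent.GNP
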