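import Pool.Agent.MP_6cbfb8_an.Defs

/-!
Row M6: the condition on the tangential Hessians, stated on the sphere. `MopS n j η φ x` says that
the forms `b_μ(v, v') = D²φ(x)(v, v') - μ ⟨v, v'⟩` on `x^⊥` are, for every real `μ`, large on every
subspace `W` of codimension less than `j` of `x^⊥`, as large as one of the forms `b_μ'` up to the
factor `η`.
-/

namespace Pool.Agent.GNP

open Module Pool.Agent.MP_6cbfb8_an
open scoped RealInnerProductSpace ContDiff Topology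

/-- The condition at the point `x`: for every `μ` and every subspace `W` of `x^⊥` of codimension
less than `j` in `x^⊥`, the form `D²φ(x) - μ ⟨,⟩`, restricted to `W × x^⊥`, is at least `η` times
one of the forms `D²φ(x) - μ' ⟨,⟩` on `x^⊥ × x^⊥`. -/
def MopS (n j : ℕ) (η : ℝ) (φ : E n → ℝ) (x : E n) : Prop :=
  ∀ (μ : ℝ) (W : Submodule ℝ (E n)), (∀ w ∈ W, ⟪x, w⟫ = 0) → n < finrank ℝ W + j + 1 →
    ∃ w ∈ W, ∃ u : E n, ∃ μ' : ℝ, ‖w‖ ≤ 1 ∧ ‖u‖ ≤ 1 ∧ ⟪x, u⟫ = 0 ∧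
      ∀ v v' : E n, ‖v‖ ≤ 1 → ‖v'‖ ≤ 1 → ⟪x, v⟫ = 0 → ⟪x, v'⟫ = 0 →
        η * |fderiv ℝ (fderiv ℝ φ) x v v' - μ' * ⟪v, v'⟫| ≤
          |fderiv ℝ (fderiv ℝ φ) x w u - μ * ⟪w, u⟫|

theorem MopS.mono {n j j' : ℕ} {η η' : ℝ} {φ : E n → ℝ} {x : E n} (h : MopS n j' η' φ x)
    (hj : j ≤ j') (hη : η ≤ η') : MopS n j η φ x := by
  intro μ W hW hd
  obtain ⟨w, hw, u, μ', h1, h2, h3, h4⟩ := h μ W hW (by omega)
  exact ⟨w, hw, u, μ', h1, h2, h3, fun v v' a b c d =>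
    (mul_le_mul_of_nonneg_right hη (abs_nonneg _)).trans (h4 v v' a b c d)⟩

theorem MopS.congr {n j : ℕ} {η : ℝ} {φ ψ : E n → ℝ} {x : E n} (h : MopS n j η φ x)
    (hφ : φ =ᶠ[𝓝 x] ψ) : MopS n j η ψ x := by
  have h2 : fderiv ℝ (fderiv ℝ ψ) x = fderiv ℝ (fderiv ℝ φ) x := hφ.fderiv.fderiv_eq.symm
  intro μ W hW hd
  rw [h2]
  exact h μ W hW hd

theorem fderiv2_mul {n : ℕ} (c : ℝ) (φ : E n → ℝ) (x : E n) :
    fderiv ℝ (fderiv ℝ fun y => c * φ y) x = c • fderiv ℝ (fderiv ℝ φ) x := by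
  have h1 : (fun y => c * φ y) = c • φ := rfl
  rw [h1, fderiv_const_smul_field]
  exact congrFun (fderiv_const_smul_field (f := fderiv ℝ φ) c) x

theorem MopS.mul {n j : ℕ} {η : ℝ} {φ : E n → ℝ} {x : E n} (h : MopS n j η φ x) (c : ℝ) :
    MopS n j η (fun y => c * φ y) x := by
  intro μ W hW hd
  rw [fderiv2_mul]
  rcases eq_or_ne c 0 with rfl | hc
  · exact ⟨0, W.zero_mem, 0, 0, by simp, by simp, by simp, fun v v' _ _ _ _ => by simp⟩
  · obtain ⟨w, hw, u, μ', h1, h2, h3, h4⟩ := h (μ / c) W hW hd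
    refine ⟨w, hw, u, c * μ', h1, h2, h3, fun v v' a b c' d => ?_⟩
    have h5 : ∀ v v' : E n, (c • fderiv ℝ (fderiv ℝ φ) x) v v' = c * fderiv ℝ (fderiv ℝ φ) x v v' :=
      fun _ _ => rfl
    rw [h5, h5, show c * fderiv ℝ (fderiv ℝ φ) x v v' - c * μ' * ⟪v, v'⟫ =
      c * (fderiv ℝ (fderiv ℝ φ) x v v' - μ' * ⟪v, v'⟫) by ring,
      show c * fderiv ℝ (fderiv ℝ φ) x w u - μ * ⟪w, u⟫ =
      c * (fderiv ℝ (fderiv ℝ φ) x w u - μ / c * ⟪w, u⟫) by field_simp, abs_mul, abs_mul]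
    calc η * (|c| * |fderiv ℝ (fderiv ℝ φ) x v v' - μ' * ⟪v, v'⟫|)
        = |c| * (η * |fderiv ℝ (fderiv ℝ φ) x v v' - μ' * ⟪v, v'⟫|) := by ring
      _ ≤ _ := mul_le_mul_of_nonneg_left (h4 v v' a b c' d) (abs_nonneg _)

theorem fderiv2_isom {n : ℕ} (φ : E n → ℝ) (R : E n ≃ₗᵢ[ℝ] E n) (x v w : E n) :
    fderiv ℝ (fderiv ℝ fun y => φ (R y)) x v w = fderiv ℝ (fderiv ℝ φ) (R x) (R v) (R w) := by
  set R' : E n ≃L[ℝ] E n := R.toContinuousLinearEquiv with hR'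
  set L : (E n →L[ℝ] ℝ) ≃L[ℝ] (E n →L[ℝ] ℝ) :=
    R'.symm.arrowCongr (ContinuousLinearEquiv.refl ℝ ℝ) with hL
  have h1 : (fderiv ℝ fun y => φ (R y)) = L ∘ ((fderiv ℝ φ) ∘ R') := by
    ext y z
    have h2 : fderiv ℝ (φ ∘ R') y = (fderiv ℝ φ (R' y)).comp (R' : E n →L[ℝ] E n) :=
      R'.comp_right_fderiv
    exact DFunLike.congr_fun h2 z
  rw [h1, L.comp_fderiv, R'.comp_right_fderiv]
  rfl

theorem MopS.comp_isom {n j : ℕ} {η : ℝ} {φ : E n → ℝ} {x : E n} (R : E n ≃ₗᵢ[ℝ] E n)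
    (h : MopS n j η φ (R x)) : MopS n j η (fun y => φ (R y)) x := by
  intro μ W hW hd
  have hd' : n < finrank ℝ (W.map (R.toLinearEquiv : E n →ₗ[ℝ] E n)) + j + 1 := by
    rw [LinearEquiv.finrank_map_eq]
    exact hd
  obtain ⟨w, hw, u, μ', h1, h2, h3, h4⟩ := h μ (W.map (R.toLinearEquiv : E n →ₗ[ℝ] E n)) (by
    rintro w ⟨w', hw', rfl⟩
    have : ⟪R x, R w'⟫ = ⟪x, w'⟫ := R.inner_map_map x w'
    exact this.trans (hW w' hw')) hd'
  obtain ⟨w', hw', rfl⟩ := hw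
  have hw'' : (R.toLinearEquiv : E n →ₗ[ℝ] E n) w' = R w' := rfl
  rw [hw''] at h1 h4
  refine ⟨w', hw', R.symm u, μ', by rwa [R.norm_map] at h1, by rwa [R.symm.norm_map], ?_,
    fun v v' a b c d => ?_⟩
  · rw [← R.inner_map_map, R.apply_symm_apply, h3]
  · rw [fderiv2_isom, fderiv2_isom, R.apply_symm_apply]
    have h5 := h4 (R v) (R v') (by rwa [R.norm_map]) (by rwa [R.norm_map])
      (by rwa [R.inner_map_map]) (by rwa [R.inner_map_map])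
    rw [R.inner_map_map] at h5
    have h6 : ⟪R w', u⟫ = ⟪w', R.symm u⟫ := by
      rw [← R.inner_map_map w', R.apply_symm_apply]
    rwa [h6] at h5

/-- On the sphere the condition does not change under isometries. -/
theorem MopS_sphere_isom {n j : ℕ} {η : ℝ} {φ : E n → ℝ} (h : ∀ x, ‖x‖ = 1 → MopS n j η φ x)
    (R : E n ≃ₗᵢ[ℝ] E n) : ∀ x, ‖x‖ = 1 → MopS n j η (fun y => φ (R y)) x :=
  fun x hx => (h (R x) (by rwa [R.norm_map])).comp_isom R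

/-- For `j = 1` and `η = 1` the condition always holds. -/
theorem MopS_one {n : ℕ} (φ : E n → ℝ) {x : E n} (hx : x ≠ 0) : MopS n 1 1 φ x := by
  intro μ W hW hd
  have hWe : W = (ℝ ∙ x)ᗮ := by
    have hle : W ≤ (ℝ ∙ x)ᗮ := fun w hw => Submodule.mem_orthogonal_singleton_iff_inner_right.2
      (hW w hw)
    refine Submodule.eq_of_le_of_finrank_le hle ?_
    have h1 := Submodule.finrank_add_finrank_orthogonal (ℝ ∙ x)
    rw [finrank_span_singleton hx, finrank_euclideanSpace_fin] at h1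
    omega
  set K : Set (E n × E n) := {p | ‖p.1‖ ≤ 1 ∧ ‖p.2‖ ≤ 1 ∧ ⟪x, p.1⟫ = 0 ∧ ⟪x, p.2⟫ = 0} with hK
  have hKc : IsCompact K := by
    refine ((isCompact_closedBall (0 : E n) 1).prod
      (isCompact_closedBall (0 : E n) 1)).of_isClosed_subset ?_ ?_
    · refine IsClosed.and ?_ (IsClosed.and ?_ (IsClosed.and ?_ ?_))
      · exact isClosed_le (by fun_prop) (by fun_prop)
      · exact isClosed_le (by fun_prop) (by fun_prop)
      · exact isClosed_eq (by fun_prop) (by fun_prop)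
      · exact isClosed_eq (by fun_prop) (by fun_prop)
    · rintro p ⟨h1, h2, -, -⟩
      exact ⟨by simpa using h1, by simpa using h2⟩
  have hKn : K.Nonempty := ⟨0, by simp [hK]⟩
  obtain ⟨p, hp, hmax⟩ := hKc.exists_isMaxOn hKn
    (f := fun p => |fderiv ℝ (fderiv ℝ φ) x p.1 p.2 - μ * ⟪p.1, p.2⟫|) (by fun_prop)
  obtain ⟨h1, h2, h3, h4⟩ := hp
  refine ⟨p.1, ?_, p.2, μ, h1, h2, h4, fun v v' a b c d => ?_⟩
  · rw [hWe]
    exact Submodule.mem_orthogonal_singleton_iff_inner_right.2 h3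
  · rw [one_mul]
    exact hmax (show (v, v') ∈ K from ⟨a, b, c, d⟩)

end Pool.Agent.GNP
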