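import Pool.Agent.GNP.HI
import Pool.Agent.GNP.VLeM
import Pool.Agent.GNP.M6

/-!
The condition on the eigenvalues: from the sphere to the chart.
-/

namespace Pool.Agent.GNP

open MeasureTheory Set Metric Pool.Agent.MP_6cbfb8_an
open scoped ENNReal Real RealInnerProductSpace ContDiff

/-- The tangential part. -/
noncomputable def tx {n : ℕ} (x u : E n) : E n := u - ⟪x, u⟫ • x

theorem tx_smul {n : ℕ} (x u : E n) (c : ℝ) : tx x (c • u) = c • tx x u := by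
  unfold tx
  rw [inner_smul_right]
  module

/-- The second derivative as an operator, at a point of smoothness. -/
theorem inner_Hs_pt {d : ℕ} {q : E d → ℝ} {y : E d} (hq : ContDiffAt ℝ ∞ q y) (v w : E d) :
    ⟪Hs q y v, w⟫ = fderiv ℝ (fderiv ℝ q) y v w := by
  have h1 : DifferentiableAt ℝ (fderiv ℝ q) y :=
    (hq.fderiv_right (m := ∞) (by simp)).differentiableAt (by simp)
  have h2 : Hs q y = (P0J d).toContinuousLinearMap.comp (fderiv ℝ (fderiv ℝ q) y) := by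
    unfold Hs
    rw [gr_eq]
    exact ((P0J d).toContinuousLinearMap.hasFDerivAt.comp y h1.hasFDerivAt).fderiv
  rw [h2]
  exact P0J_inner _ _

/-- The condition on the sphere in terms of operators. -/
theorem MopS_op {n j : ℕ} (hj : j < n) {η : ℝ} {φ : E n → ℝ} {x : E n}
    (hx : ‖x‖ = 1) (hφ : ContDiffAt ℝ ∞ φ x) (h : MopS n j η φ x) (m : ℝ)
    (W : Submodule ℝ (E n)) (hW : ∀ w ∈ W, ⟪x, w⟫ = 0) (hfr : n < Module.finrank ℝ W + j + 1) :
    ∃ w ∈ W, ‖w‖ = 1 ∧ ∃ m' : ℝ, ∀ v, ⟪x, v⟫ = 0 →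
      η * ‖tx x (Hs φ x v) + m' • v‖ ≤ ‖tx x (Hs φ x w) + m • w‖ * ‖v‖ := by
  have hform : ∀ (c : ℝ) (v v' : E n), ⟪x, v'⟫ = 0 →
      ⟪tx x (Hs φ x v) + c • v, v'⟫ = fderiv ℝ (fderiv ℝ φ) x v v' + c * ⟪v, v'⟫ := by
    intro c v v' hv'
    rw [inner_add_left, tx, inner_sub_left, inner_smul_left, inner_smul_left, hv',
      inner_Hs_pt hφ]
    simp
  have hperp : ∀ (c : ℝ) (v : E n), ⟪x, v⟫ = 0 → ⟪x, tx x (Hs φ x v) + c • v⟫ = 0 := by
    intro c v hv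
    rw [inner_add_right, inner_smul_right, hv, tx, inner_sub_right, inner_smul_right,
      real_inner_self_eq_norm_sq, hx]
    ring
  obtain ⟨w, hw, u, μ', hw1, hu1, hxu, hv⟩ := h (-m) W hW hfr
  set D : ℝ := ‖tx x (Hs φ x w) + m • w‖ with hD
  have hD0 : 0 ≤ D := norm_nonneg _
  have hrhs : |fderiv ℝ (fderiv ℝ φ) x w u - -m * ⟪w, u⟫| ≤ D := by
    have h1 := hform m w u hxu
    have h2 : fderiv ℝ (fderiv ℝ φ) x w u - -m * ⟪w, u⟫ =
        ⟪tx x (Hs φ x w) + m • w, u⟫ := by rw [h1]; ring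
    rw [h2]
    exact (abs_real_inner_le_norm _ _).trans (mul_le_of_le_one_right hD0 hu1)
  have hl1 : ∀ v, ⟪x, v⟫ = 0 → ‖v‖ ≤ 1 → η * ‖tx x (Hs φ x v) + (-μ') • v‖ ≤ D := by
    intro v hxv hv1
    set z : E n := tx x (Hs φ x v) + (-μ') • v with hz
    rcases (norm_nonneg z).eq_or_lt with h0 | h0
    · rw [← h0, mul_zero]
      exact hD0
    have hxz : ⟪x, ‖z‖⁻¹ • z⟫ = 0 := by
      rw [inner_smul_right, hz, hperp _ _ hxv, mul_zero]
    have h1 := hv v (‖z‖⁻¹ • z) hv1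
      (by rw [norm_smul, norm_inv, norm_norm, inv_mul_cancel₀ h0.ne']) hxv hxz
    have h2 := hform (-μ') v _ hxz
    have h3 : fderiv ℝ (fderiv ℝ φ) x v (‖z‖⁻¹ • z) - μ' * ⟪v, ‖z‖⁻¹ • z⟫ = ‖z‖ := by
      have h4 : ⟪z, ‖z‖⁻¹ • z⟫ = ‖z‖ := by
        rw [inner_smul_right, real_inner_self_eq_norm_sq]
        field_simp
      rw [← hz, h4] at h2
      linarith
    rw [h3, abs_norm] at h1
    exact h1.trans hrhs
  have hl : ∀ v, ⟪x, v⟫ = 0 → η * ‖tx x (Hs φ x v) + (-μ') • v‖ ≤ D * ‖v‖ := by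
    intro v hxv
    rcases (norm_nonneg v).eq_or_lt with h0 | h0
    · have hv0 : v = 0 := norm_eq_zero.1 h0.symm
      rw [hv0, map_zero, smul_zero, norm_zero, mul_zero]
      have : tx x (0 : E n) = 0 := by simp [tx]
      rw [this, add_zero, norm_zero, mul_zero]
    · have h1 := hl1 (‖v‖⁻¹ • v) (by rw [inner_smul_right, hxv, mul_zero])
        (by rw [norm_smul, norm_inv, norm_norm, inv_mul_cancel₀ h0.ne'])
      have h2 : tx x (Hs φ x (‖v‖⁻¹ • v)) + (-μ') • ‖v‖⁻¹ • v =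
          ‖v‖⁻¹ • (tx x (Hs φ x v) + (-μ') • v) := by
        rw [map_smul, tx_smul]
        module
      rw [h2, norm_smul, norm_inv, norm_norm] at h1
      have h3 : η * ‖tx x (Hs φ x v) + (-μ') • v‖ =
          (η * (‖v‖⁻¹ * ‖tx x (Hs φ x v) + (-μ') • v‖)) * ‖v‖ := by
        field_simp
      rw [h3]
      exact mul_le_mul_of_nonneg_right h1 h0.le
  rcases (norm_nonneg w).eq_or_lt with h0 | h0
  · have hw0 : w = 0 := norm_eq_zero.1 h0.symm
    have hD00 : D = 0 := by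
      rw [hD, hw0, map_zero, smul_zero]
      have : tx x (0 : E n) = 0 := by simp [tx]
      rw [this, add_zero, norm_zero]
    have hne : W ≠ ⊥ := by
      rintro rfl
      rw [finrank_bot] at hfr
      omega
    obtain ⟨w2, hw2, hw20⟩ := W.ne_bot_iff.1 hne
    have hw2n : 0 < ‖w2‖ := norm_pos_iff.2 hw20
    refine ⟨‖w2‖⁻¹ • w2, W.smul_mem _ hw2,
      by rw [norm_smul, norm_inv, norm_norm, inv_mul_cancel₀ hw2n.ne'], -μ', fun v hxv => ?_⟩
    refine (hl v hxv).trans ?_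
    rw [hD00, zero_mul]
    positivity
  · refine ⟨‖w‖⁻¹ • w, W.smul_mem _ hw,
      by rw [norm_smul, norm_inv, norm_norm, inv_mul_cancel₀ h0.ne'], -μ', fun v hxv => ?_⟩
    refine (hl v hxv).trans (mul_le_mul_of_nonneg_right ?_ (norm_nonneg v))
    have h2 : tx x (Hs φ x (‖w‖⁻¹ • w)) + m • ‖w‖⁻¹ • w =
        ‖w‖⁻¹ • (tx x (Hs φ x w) + m • w) := by
      rw [map_smul, tx_smul]
      module
    rw [h2, norm_smul, norm_inv, norm_norm, ← hD]
    exact le_mul_of_one_le_left hD0 ((one_le_inv₀ h0).2 hw1)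

/-! ## The graph -/

/-- `join` as a linear map. -/
noncomputable def jl (d : ℕ) : (E d × ℝ) →L[ℝ] E (d + 1) :=
  LinearMap.toContinuousLinearMap
    { toFun := fun q => join q.1 q.2
      map_add' := fun p q => by
        ext i
        refine Fin.lastCases ?_ (fun i => ?_) i <;> simp [join]
      map_smul' := fun c q => by
        ext i
        refine Fin.lastCases ?_ (fun i => ?_) i <;> simp [join] }

theorem jl_apply {d : ℕ} (q : E d × ℝ) : jl d q = join q.1 q.2 := rfl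

theorem inner_jl {d : ℕ} (p q : E d × ℝ) : ⟪jl d p, jl d q⟫ = ⟪p.1, q.1⟫ + p.2 * q.2 := by
  simp only [jl_apply, PiLp.inner_apply, Fin.sum_univ_castSucc, join]
  simp [mul_comm]

theorem exists_jl {d : ℕ} (z : E (d + 1)) : ∃ (v : E d) (t : ℝ), z = jl d (v, t) := by
  refine ⟨WithLp.toLp 2 fun i => z (Fin.castSucc i), z (Fin.last d), ?_⟩
  rw [jl_apply]
  unfold join
  ext i
  refine Fin.lastCases ?_ (fun i => ?_) i <;> simp

/-- The derivative of the graph. -/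
noncomputable def Jg {d : ℕ} (y : E d) : E d →L[ℝ] E (d + 1) :=
  (jl d).comp ((ContinuousLinearMap.id ℝ (E d)).prod (innerSL ℝ (gr hs y)))

theorem Jg_apply {d : ℕ} (y v : E d) : Jg y v = jl d (v, ⟪gr hs y, v⟫) := rfl

theorem hasFDerivAt_Jg {d : ℕ} {y : E d} (hy : ‖y‖ < 1) :
    HasFDerivAt (fun z : E d => (join z (hs z) : E (d + 1))) (Jg y) y := by
  have h1 : HasFDerivAt (hs : E d → ℝ) (innerSL ℝ (gr hs y)) y := by
    have h2 := ((contDiffAt_hs hy).differentiableAt (by simp)).hasFDerivAt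
    refine h2.congr_fderiv ?_
    ext v
    rw [innerSL_apply_apply, inner_gr]
  exact (jl d).hasFDerivAt.comp y ((hasFDerivAt_id y).prodMk h1)

theorem inner_Jg {d : ℕ} {y : E d} (hy : ‖y‖ < 1) (v w : E d) :
    ⟪Jg y v, Jg y w⟫ = -(hs y * ⟪Hs hs y v, w⟫) := by
  have h0 : hs y ≠ 0 := (hs_pos_of hy).ne'
  rw [Jg_apply, Jg_apply, inner_jl, Hs_hs_eq hy, gr_hs hy]
  simp only [neg_apply, add_apply, smul_apply, ContinuousLinearMap.id_apply,
    ContinuousLinearMap.smulRight_apply, innerSL_apply_apply, inner_neg_left, inner_add_left,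
    inner_smul_left, smul_eq_mul, conj_trivial]
  field_simp

theorem graph_perp {d : ℕ} {y : E d} (hy : ‖y‖ < 1) (v : E d) :
    ⟪(join y (hs y) : E (d + 1)), Jg y v⟫ = 0 := by
  have h0 : hs y ≠ 0 := (hs_pos_of hy).ne'
  have h1 : (join y (hs y) : E (d + 1)) = jl d (y, hs y) := rfl
  rw [h1, Jg_apply, inner_jl, gr_hs hy]
  simp only [inner_neg_left, inner_smul_left, conj_trivial]
  field_simp
  ring

theorem norm_le_Jg {d : ℕ} (y v : E d) : ‖v‖ ≤ ‖Jg y v‖ := by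
  have h1 : ‖Jg y v‖ ^ 2 = ‖v‖ ^ 2 + ⟪gr hs y, v⟫ ^ 2 := by
    rw [← real_inner_self_eq_norm_sq, Jg_apply, inner_jl, real_inner_self_eq_norm_sq, sq]
    ring
  refine (sq_le_sq₀ (norm_nonneg _) (norm_nonneg _)).1 ?_
  rw [h1]
  nlinarith [sq_nonneg ⟪gr hs y, v⟫]

theorem Jg_le {d : ℕ} {y : E d} (hy : ‖y‖ < 1) (v : E d) : ‖Jg y v‖ ≤ (hs y)⁻¹ * ‖v‖ := by
  have h0 := hs_pos_of hy
  have h1 : ‖Jg y v‖ ^ 2 = ‖v‖ ^ 2 + ⟪gr hs y, v⟫ ^ 2 := by
    rw [← real_inner_self_eq_norm_sq, Jg_apply, inner_jl, real_inner_self_eq_norm_sq, sq]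
    ring
  refine (sq_le_sq₀ (norm_nonneg _) (by positivity)).1 ?_
  rw [h1, gr_hs hy, inner_neg_left, inner_smul_left, neg_sq, mul_pow, mul_pow, conj_trivial]
  have h2 : ⟪y, v⟫ ^ 2 ≤ ‖y‖ ^ 2 * ‖v‖ ^ 2 := by
    rw [← mul_pow, ← sq_abs]
    exact pow_le_pow_left₀ (abs_nonneg _) (abs_real_inner_le_norm y v) 2
  have h3 : ‖y‖ ^ 2 = 1 - hs y ^ 2 := by rw [hs_sq_of hy]; ring
  have h4 : ((hs y)⁻¹) ^ 2 * ⟪y, v⟫ ^ 2 ≤ ((hs y)⁻¹) ^ 2 * (‖y‖ ^ 2 * ‖v‖ ^ 2) :=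
    mul_le_mul_of_nonneg_left h2 (by positivity)
  have h5 : ((hs y)⁻¹) ^ 2 * (‖y‖ ^ 2 * ‖v‖ ^ 2) = ((hs y)⁻¹) ^ 2 * ‖v‖ ^ 2 - ‖v‖ ^ 2 := by
    rw [h3]
    field_simp
  linarith

theorem exists_Jg {d : ℕ} {y : E d} (hy : ‖y‖ < 1) {z : E (d + 1)}
    (hz : ⟪(join y (hs y) : E (d + 1)), z⟫ = 0) : ∃ u : E d, Jg y u = z := by
  have h0 : hs y ≠ 0 := (hs_pos_of hy).ne'
  obtain ⟨v, t, rfl⟩ := exists_jl z
  have h1 : (join y (hs y) : E (d + 1)) = jl d (y, hs y) := rfl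
  rw [h1, inner_jl] at hz
  refine ⟨v, ?_⟩
  rw [Jg_apply, gr_hs hy]
  congr 2
  simp only [inner_neg_left, inner_smul_left, conj_trivial]
  simp only at hz
  field_simp
  linarith

/-- The Hessian in the chart. -/
theorem Hs_graph {d : ℕ} {φ : E (d + 1) → ℝ} (hφ : ∀ x, ‖x‖ = 1 → ContDiffAt ℝ ∞ φ x) {y : E d}
    (hy : ‖y‖ < 1) (v w : E d) :
    ⟪Hs (fun y : E d => φ (join y (hs y))) y v, w⟫ =
      ⟪Hs φ (join y (hs y)) (Jg y v), Jg y w⟫ +
        ⟪gr φ (join y (hs y)), jl d (0, 1)⟫ * ⟪Hs hs y v, w⟫ := by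
  set Φ : E d → ℝ := fun y : E d => φ (join y (hs y)) with hΦ
  have hgr : ∀ᶠ z in nhds y, ⟪gr Φ z, w⟫ = ⟪gr φ (join z (hs z)), jl d (w, ⟪gr hs z, w⟫)⟫ := by
    filter_upwards [HS_nhds hy] with z hz
    have h1 : HasFDerivAt φ (fderiv ℝ φ (join z (hs z))) (join z (hs z)) :=
      ((hφ _ (hi_norm hz)).differentiableAt (by simp)).hasFDerivAt
    have h2 : HasFDerivAt Φ ((fderiv ℝ φ (join z (hs z))).comp (Jg z)) z :=
      HasFDerivAt.comp (x := z) (g := φ) h1 (hasFDerivAt_Jg hz)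
    rw [inner_gr, h2.fderiv, inner_gr]
    rfl
  have hL : HasFDerivAt (fun z => ⟪gr Φ z, w⟫)
      ((innerSL ℝ w).comp (Hs Φ y)) y := by
    have h1 : HasFDerivAt (gr Φ) (Hs Φ y) y :=
      ((contDiffAt_gr (hi_phi_at hφ hy)).differentiableAt (by simp)).hasFDerivAt
    have h2 := (innerSL ℝ w).hasFDerivAt.comp y h1
    refine h2.congr_of_eventuallyEq (Filter.Eventually.of_forall fun z => ?_)
    simp [real_inner_comm]
  have hx := hi_norm hy
  have hG : HasFDerivAt (fun z => gr φ (join z (hs z)))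
      ((Hs φ (join y (hs y))).comp (Jg y)) y := by
    have h1 : HasFDerivAt (gr φ) (Hs φ (join y (hs y))) (join y (hs y)) :=
      ((contDiffAt_gr (hφ _ hx)).differentiableAt (by simp)).hasFDerivAt
    exact HasFDerivAt.comp (x := y) (g := gr φ) h1 (hasFDerivAt_Jg hy)
  have hU : HasFDerivAt (fun z : E d => jl d (w, ⟪gr hs z, w⟫))
      ((jl d).comp ((0 : E d →L[ℝ] E d).prod ((innerSL ℝ w).comp (Hs hs y)))) y := by
    have h1 : HasFDerivAt (gr (hs : E d → ℝ)) (Hs hs y) y :=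
      ((contDiffAt_gr (contDiffAt_hs hy)).differentiableAt (by simp)).hasFDerivAt
    have h2 : HasFDerivAt (fun z : E d => ⟪gr hs z, w⟫) ((innerSL ℝ w).comp (Hs hs y)) y := by
      have h3 := (innerSL ℝ w).hasFDerivAt.comp y h1
      refine h3.congr_of_eventuallyEq (Filter.Eventually.of_forall fun z => ?_)
      simp [real_inner_comm]
    exact (jl d).hasFDerivAt.comp y ((hasFDerivAt_const w y).prodMk h2)
  have hR := hG.inner ℝ hU
  have hEq := hL.unique (hR.congr_of_eventuallyEq hgr)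
  have h3 := congrArg (fun T : E d →L[ℝ] ℝ => T v) hEq
  simp only [ContinuousLinearMap.comp_apply, innerSL_apply_apply] at h3
  rw [real_inner_comm, h3]
  have h4 : (jl d) (0, ⟪w, Hs hs y v⟫) = ⟪Hs hs y v, w⟫ • jl d (0, 1) := by
    rw [← map_smul, real_inner_comm]
    simp
  simp only [fderivInnerCLM_apply, ContinuousLinearMap.prod_apply,
    ContinuousLinearMap.comp_apply, innerSL_apply_apply, zero_apply]
  rw [h4, inner_smul_right, Jg_apply y w]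
  ring

/-- The condition in the chart. -/
theorem Mop_of_MopS {d j : ℕ} (hj : j ≤ d) {η r' : ℝ} (hη : 0 ≤ η) (hr' : r' < 1) {φ : E (d + 1) → ℝ}
    (hφ : ∀ x, ‖x‖ = 1 → ContDiffAt ℝ ∞ φ x) {y : E d} (hy : ‖y‖ ≤ r')
    (hM : MopS (d + 1) j η φ (join y (hs y))) :
    Mop d j (η * (1 - r' ^ 2)) (Hs (fun y : E d => φ (join y (hs y))) y) (-(Hs hs y)) := by
  have hy1 : ‖y‖ < 1 := hy.trans_lt hr'
  have h0 := hs_pos_of hy1
  set x : E (d + 1) := join y (hs y) with hx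
  set P : E d →L[ℝ] E d := Hs (fun y : E d => φ (join y (hs y))) y with hP
  set Q : E d →L[ℝ] E d := -(Hs hs y) with hQ
  set κ : ℝ := ⟪gr φ x, jl d (0, 1)⟫ with hκ
  -- the pencil
  have hpen : ∀ (m : ℝ) (v w : E d), ⟪(P + (hs y * m + κ) • Q) v, w⟫ =
      ⟪tx x (Hs φ x (Jg y v)) + m • Jg y v, Jg y w⟫ := by
    intro m v w
    have h1 := Hs_graph hφ hy1 v w
    have h2 := inner_Jg hy1 v w
    have h3 := graph_perp hy1 w
    rw [← hx] at h3
    rw [← hP, ← hx, ← hκ] at h1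
    rw [inner_add_left, tx, inner_sub_left, inner_smul_left, inner_smul_left, h3, h2]
    have h4 : (P + (hs y * m + κ) • Q) v = P v - (hs y * m + κ) • Hs hs y v := by
      rw [hQ]
      simp [sub_eq_add_neg]
    rw [h4, inner_sub_left, inner_smul_left, h1]
    simp only [conj_trivial]
    ring
  intro m W hW
  -- the image of the subspace
  have hinj : Function.Injective (Jg y : E d →ₗ[ℝ] E (d + 1)) := by
    rw [← LinearMap.ker_eq_bot, LinearMap.ker_eq_bot']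
    intro v hv
    have h1 := norm_le_Jg y v
    have h2 : Jg y v = 0 := hv
    rw [h2, norm_zero] at h1
    exact norm_le_zero_iff.1 h1
  have hfr : Module.finrank ℝ (W.map (Jg y : E d →ₗ[ℝ] E (d + 1))) = Module.finrank ℝ W :=
    (Submodule.equivMapOfInjective _ hinj W).finrank_eq.symm
  obtain ⟨w, hwW, hw1, m', hm'⟩ := MopS_op (by omega) (hi_norm hy1) (hφ _ (hi_norm hy1)) hM
    ((m - κ) / hs y) (W.map (Jg y : E d →ₗ[ℝ] E (d + 1)))
    (by
      rintro _ ⟨v, -, rfl⟩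
      exact graph_perp hy1 v) (by rw [hfr]; omega)
  obtain ⟨u0, hu0W, hu0⟩ := hwW
  have hu0' : Jg y u0 = w := hu0
  have hmm : hs y * ((m - κ) / hs y) + κ = m := by
    field_simp
    ring
  set D : ℝ := ‖tx x (Hs φ x w) + ((m - κ) / hs y) • w‖ with hD
  -- the lower bound
  have hlow : D ≤ ‖(P + m • Q) u0‖ := by
    have hperp : ⟪x, tx x (Hs φ x w) + ((m - κ) / hs y) • w⟫ = 0 := by
      have h1 : ⟪x, w⟫ = 0 := by rw [← hu0']; exact graph_perp hy1 u0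
      have h2 : ‖x‖ = 1 := hi_norm hy1
      rw [inner_add_right, inner_smul_right, h1, tx, inner_sub_right, inner_smul_right,
        real_inner_self_eq_norm_sq, h2]
      ring
    obtain ⟨u1, hu1⟩ := exists_Jg hy1 hperp
    have h1 := hpen ((m - κ) / hs y) u0 u1
    rw [hmm, hu0', hu1, real_inner_self_eq_norm_sq, ← hD] at h1
    have h2 : ‖u1‖ ≤ D := by
      rw [hD, ← hu1]
      exact norm_le_Jg y u1
    have h3 : D ^ 2 ≤ ‖(P + m • Q) u0‖ * D := by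
      rw [← h1]
      exact (real_inner_le_norm _ _).trans (mul_le_mul_of_nonneg_left h2 (norm_nonneg _))
    rcases (norm_nonneg (tx x (Hs φ x w) + ((m - κ) / hs y) • w)).eq_or_lt with h4 | h4
    · rw [hD, ← h4]
      exact norm_nonneg _
    · rw [← hD] at h4
      nlinarith
  have hu0n : ‖u0‖ ≤ 1 := by
    rw [← hw1, ← hu0']
    exact norm_le_Jg y u0
  have hu00 : 0 < ‖u0‖ := by
    rw [norm_pos_iff]
    rintro rfl
    rw [map_zero] at hu0'
    rw [← hu0', norm_zero] at hw1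
    exact zero_ne_one hw1
  refine ⟨‖u0‖⁻¹ • u0, W.smul_mem _ hu0W, ?_, hs y * m' + κ, ?_⟩
  · rw [norm_smul, norm_inv, norm_norm, inv_mul_cancel₀ hu00.ne']
  -- the upper bound
  have hup : η * ‖P + (hs y * m' + κ) • Q‖ ≤ ((hs y) ^ 2)⁻¹ * D := by
    rcases hη.eq_or_lt with h | h
    · rw [← h, zero_mul]
      positivity
    rw [← le_div_iff₀' h]
    refine ContinuousLinearMap.opNorm_le_bound _ (by positivity) fun v => ?_
    set z : E d := (P + (hs y * m' + κ) • Q) v with hz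
    have h1 := hpen m' v z
    rw [← hz, real_inner_self_eq_norm_sq] at h1
    have h2 : ‖z‖ ^ 2 ≤ ‖tx x (Hs φ x (Jg y v)) + m' • Jg y v‖ * ((hs y)⁻¹ * ‖z‖) := by
      rw [h1]
      exact (real_inner_le_norm _ _).trans (mul_le_mul_of_nonneg_left (Jg_le hy1 z)
        (norm_nonneg _))
    have h3 : η * ‖tx x (Hs φ x (Jg y v)) + m' • Jg y v‖ ≤ D * ((hs y)⁻¹ * ‖v‖) :=
      (hm' (Jg y v) (graph_perp hy1 v)).trans (mul_le_mul_of_nonneg_left (Jg_le hy1 v)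
        (norm_nonneg _))
    have h4 : ‖tx x (Hs φ x (Jg y v)) + m' • Jg y v‖ ≤ D * ((hs y)⁻¹ * ‖v‖) / η := by
      rw [le_div_iff₀' h]
      exact h3
    rcases (norm_nonneg z).eq_or_lt with h5 | h5
    · rw [← h5]
      positivity
    · have h6 : ‖z‖ ≤ ‖tx x (Hs φ x (Jg y v)) + m' • Jg y v‖ * (hs y)⁻¹ := by
        nlinarith
      refine h6.trans ?_
      calc ‖tx x (Hs φ x (Jg y v)) + m' • Jg y v‖ * (hs y)⁻¹
          ≤ D * ((hs y)⁻¹ * ‖v‖) / η * (hs y)⁻¹ := mul_le_mul_of_nonneg_right h4 (by positivity)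
        _ = ((hs y) ^ 2)⁻¹ * D / η * ‖v‖ := by
          field_simp
  have h1 : η * (1 - r' ^ 2) * ‖P + (hs y * m' + κ) • Q‖ ≤ D := by
    have h2 : 1 - r' ^ 2 ≤ hs y ^ 2 := by
      rw [hs_sq_of hy1]
      nlinarith [norm_nonneg y]
    calc η * (1 - r' ^ 2) * ‖P + (hs y * m' + κ) • Q‖
        ≤ η * hs y ^ 2 * ‖P + (hs y * m' + κ) • Q‖ := by gcongr
      _ = hs y ^ 2 * (η * ‖P + (hs y * m' + κ) • Q‖) := by ring
      _ ≤ hs y ^ 2 * (((hs y) ^ 2)⁻¹ * D) := by gcongr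
      _ = D := by field_simp
  refine h1.trans (hlow.trans ?_)
  rw [map_smul, norm_smul, norm_inv, norm_norm]
  have h3 : 1 ≤ ‖u0‖⁻¹ := (one_le_inv₀ hu00).2 hu0n
  nlinarith [norm_nonneg ((P + m • Q) u0)]

/-- The condition in the chart, for any extensions of the phase and the height. -/
theorem Mop_chart {d j : ℕ} (hj : j ≤ d) {η r' ρ : ℝ} (hη : 0 ≤ η) (hr' : r' < ρ) (hρ : ρ ≤ 1)
    {φ : E (d + 1) → ℝ} (hφ : ∀ x, ‖x‖ = 1 → ContDiffAt ℝ ∞ φ x) {Φ h : E d → ℝ}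
    (hh : ∀ y, ‖y‖ < ρ → h y = hs y) (hΦ : ∀ y, ‖y‖ < ρ → Φ y = φ (join y (hs y)))
    (hM : ∀ x, ‖x‖ = 1 → MopS (d + 1) j η φ x) {y : E d} (hy : ‖y‖ ≤ r') :
    Mop d j (η * (1 - r' ^ 2)) (Hs Φ y) (-(Hs h y)) := by
  have hyρ : ‖y‖ < ρ := hy.trans_lt hr'
  rw [Hs_congr_ball hΦ hyρ, Hs_congr_ball hh hyρ]
  exact Mop_of_MopS hj hη (hr'.trans_le hρ) hφ hy (hM _ (hi_norm (hyρ.trans_le hρ)))

end Pool.Agent.GNP
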