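import Pool.Agent.GNP.SPM
import Pool.Agent.GNP.M3
import Pool.Agent.GNP.C4M

/-!
Condition (M): from the charts to the sphere.
-/

namespace Pool.Agent.GNP

open MeasureTheory Set Pool.Agent.MP_6cbfb8_an
open scoped ENNReal Real RealInnerProductSpace ContDiff

/-- Condition (M) on the sphere gives condition (M) in the chart. -/
theorem transM (d j : ℕ) (hj : j ≤ d) {η : ℝ} (hη : 0 ≤ η) :
    Trans d (fun φ => ∀ x, ‖x‖ = 1 → MopS (d + 1) j η φ x) fun r' Φ h =>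
      ∀ y, ‖y‖ ≤ r' → Mop d j (η * (1 - r' ^ 2)) (Hs Φ y) (-(Hs h y)) :=
  fun _ _ _ hr'ρ hρ1 _ hφ hM _ _ hh hΦ _ hy => Mop_chart hj hη hr'ρ hρ1.le hφ hh hΦ hM hy

/-- `core_M` in the form used on the sphere. -/
theorem corePM (d j : ℕ) (hd : 2 ≤ d) (hj : 1 ≤ j) (h2j : 2 * j ≤ d) (h3j : d ≤ 3 * j) {η : ℝ}
    (hη : 0 < η) (p ε : ℝ) (hp : 2 * ((d : ℝ) + 1) / d < p) (hε : 0 < ε) :
    CoreP d p (fun c => ENNReal.ofReal ((1 + |c|) ^ ε)) fun r' Φ h =>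
      ∀ y, ‖y‖ ≤ r' → Mop d j (η * (1 - r' ^ 2)) (Hs Φ y) (-(Hs h y)) := by
  intro A r r' b hr hr' hr1 hb
  have hη' : 0 < η * (1 - r' ^ 2) := mul_pos hη (by nlinarith)
  obtain ⟨K, hK, h⟩ := core_M d j hd hj h2j h3j A r r' b (η * (1 - r' ^ 2)) p ε hr hr' hb hη' hp hε
  refine ⟨ENNReal.ofReal K, ENNReal.ofReal_ne_top, fun Φ h' a h1 h2 h3 h4 h5 c => ?_⟩
  rw [← ENNReal.ofReal_mul hK.le]
  exact h Φ h' a h1 h2 h3 h4 h5 c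

/-- One phase with condition (M) on the sphere, uniform constant. -/
theorem sphereM (d j : ℕ) (hd : 2 ≤ d) (hj : 1 ≤ j) (h2j : 2 * j ≤ d) (h3j : d ≤ 3 * j) (η : ℝ)
    (hη : 0 < η) (p ε : ℝ) (hp : 2 * ((d : ℝ) + 1) / d < p) (hε : 0 < ε) (B : ℕ → ℝ) :
    ∃ K : ℝ, 0 < K ∧ ∀ (φ : E (d + 1) → ℝ) (a : E (d + 1) → ℂ),
      (∀ x, ‖x‖ = 1 → ContDiffAt ℝ ∞ φ x) → (∀ x, ‖x‖ = 1 → ContDiffAt ℝ ∞ a x) →
      (∀ k x, ‖x‖ = 1 → ‖iteratedFDeriv ℝ k φ x‖ ≤ B k) →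
      (∀ k x, ‖x‖ = 1 → ‖iteratedFDeriv ℝ k a x‖ ≤ B k) →
      (∀ x, ‖x‖ = 1 → MopS (d + 1) j η φ x) → ∀ c : ℝ,
      ∫⁻ ξ, ‖extn (fun x => a x * Complex.exp (((c * φ x : ℝ) : ℂ) * Complex.I)) ξ‖ₑ ^ p ≤
        ENNReal.ofReal (K * (1 + |c|) ^ ε) := by
  have hd0 : (0 : ℝ) < d := by
    have : 0 < d := by omega
    exact_mod_cast this
  have hp1 : 1 ≤ p := by
    have : (1 : ℝ) ≤ 2 * ((d : ℝ) + 1) / d := by
      rw [le_div_iff₀ hd0]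
      linarith
    linarith
  obtain ⟨C, hC, h⟩ := sphere_of_core_P d (by omega) p hp1 _
    (fun φ => ∀ x, ‖x‖ = 1 → MopS (d + 1) j η φ x) _ (fun φ hφ R => MopS_sphere_isom hφ R)
    (transM d j (by omega) hη.le) (corePM d j hd hj h2j h3j hη p ε hp hε) B B
  refine ⟨C.toReal + 1, by positivity, fun φ a h1 h2 h3 h4 h5 c => ?_⟩
  refine (h φ ⟨h1, h3⟩ h5 a ⟨h2, h4⟩ c).trans ?_
  have h6 : C ≤ ENNReal.ofReal (C.toReal + 1) := by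
    rw [← ENNReal.ofReal_toReal hC]
    exact ENNReal.ofReal_le_ofReal (by simp [ENNReal.toReal_ofReal])
  rw [ENNReal.ofReal_mul (by positivity)]
  exact mul_le_mul' h6 le_rfl

/-- Families with condition (M) for the combinations with coefficients of norm one. -/
theorem sphereM_fam (d j : ℕ) (hd : 2 ≤ d) (hj : 1 ≤ j) (h2j : 2 * j ≤ d) (h3j : d ≤ 3 * j) (η : ℝ)
    (hη : 0 < η) (p ε : ℝ) (hp : 2 * ((d : ℝ) + 1) / d < p) (hε : 0 < ε) (N : ℕ) (B B1 : ℕ → ℝ) :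
    ∃ C : ℝ≥0∞, C ≠ ⊤ ∧ ∀ φ : Fin (N + 1) → E (d + 1) → ℝ, (∀ i, Sb (d + 1) B (φ i)) →
      (∀ c : Fin (N + 1) → ℝ, ‖c‖ = 1 → ∀ x, ‖x‖ = 1 →
        MopS (d + 1) j η (fun x => ∑ i, c i * φ i x) x) →
      ∀ a : E (d + 1) → ℂ, Sb (d + 1) B1 a → ∀ c : Fin (N + 1) → ℝ,
        ∫⁻ ξ, ‖extn (fun x => a x *
          Complex.exp (((∑ i, c i * φ i x : ℝ) : ℂ) * Complex.I)) ξ‖ₑ ^ p ≤
        C * ENNReal.ofReal ((1 + ‖c‖) ^ ε) := by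
  have hd0 : (0 : ℝ) < d := by
    have : 0 < d := by omega
    exact_mod_cast this
  have hp1 : 1 ≤ p := by
    have : (1 : ℝ) ≤ 2 * ((d : ℝ) + 1) / d := by
      rw [le_div_iff₀ hd0]
      linarith
    linarith
  obtain ⟨C, hC, h⟩ := sphere_family_P d (by omega) p hp1 _
    (fun φ => ∀ x, ‖x‖ = 1 → MopS (d + 1) j η φ x) _ (fun φ hφ R => MopS_sphere_isom hφ R)
    (transM d j (by omega) hη.le) (corePM d j hd hj h2j h3j hη p ε hp hε) N B B1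
  refine ⟨C, hC, fun φ hφ hM a ha c => ?_⟩
  have h1 := h φ hφ hM a ha c
  rwa [abs_norm] at h1

end Pool.Agent.GNP
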