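import Pool.Agent.GNP.AB6
import Pool.Agent.GNP.MeasNear
import Pool.Agent.GNP.M5
import Pool.Agent.GNP.AB

/-!
Condition (M), amplitudes of bounded variation: the sphere.
-/

namespace Pool.Agent.GNP

open MeasureTheory Set Filter Topology Pool.Agent.MP_6cbfb8_an
open scoped ENNReal Real RealInnerProductSpace ContDiff

/-- The estimate with a small loss for one phase with condition (M) on the sphere and amplitudes of
bounded variation, in the range `p > p0`. The constant depends on the phase only through the bounds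
`B k` and `η`. -/
def OneLossMA (n j : ℕ) (p0 s : ℝ) : Prop :=
  ∀ V : ℝ, 1 ≤ V → ∀ p : ℝ, p0 < p → ∀ ε : ℝ, 0 < ε → ∀ η : ℝ, 0 < η → ∀ B : ℕ → ℝ,
    ∃ K : ℝ, 0 < K ∧ ∀ (φ : E n → ℝ) (w : E n → ℂ),
    (∀ x, ‖x‖ = 1 → ContDiffAt ℝ ∞ φ x) →
    (∀ k x, ‖x‖ = 1 → ‖iteratedFDeriv ℝ k φ x‖ ≤ B k) →
    (∀ x, ‖x‖ = 1 → MopS n j η φ x) →
    (Measurable w ∧ (∀ x, ‖w x‖ ≤ 1) ∧ BVn n s V w) → ∀ c : ℝ,
    ∫⁻ ξ, ‖extn (fun x => w x * Complex.exp (((c * φ x : ℝ) : ℂ) * Complex.I)) ξ‖ₑ ^ p ≤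
      ENNReal.ofReal (K * (1 + |c|) ^ ε)

/-- `core_bv_M` in the form used on the sphere. -/
theorem coreWM (d j : ℕ) (hd : 2 ≤ d) (hj : 1 ≤ j) (hjd : 2 * j ≤ d) (hj3 : d ≤ 3 * j) {η : ℝ}
    (hη : 0 < η) (p ε : ℝ) (hp : 2 * ((d : ℝ) + 1) / d < p) (hε : 0 < ε) :
    CoreW d 1 p (fun c => ENNReal.ofReal ((1 + |c|) ^ ε)) fun r' Φ h =>
      ∀ y, ‖y‖ ≤ r' → Mop d j (η * (1 - r' ^ 2)) (Hs Φ y) (-(Hs h y)) := by
  intro A r r' b V hr hr' hr1 hb hV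
  have hη' : 0 < η * (1 - r' ^ 2) := mul_pos hη (by nlinarith)
  obtain ⟨K, hK, h⟩ := core_bv_M d j hd hj hjd hj3 A r r' b (η * (1 - r' ^ 2)) p ε V hr hr' hr1 hb
    hη' hp hε hV
  refine ⟨ENNReal.ofReal K, ENNReal.ofReal_ne_top,
    fun Φ h' a h1 h2 h3 h4 h5 h6 h7 h8 h9 c => ?_⟩
  rw [← ENNReal.ofReal_mul hK.le]
  exact h Φ h' a h1 h2 h3 h4 h5 h6 h7 h8 h9 c

/-- One phase with condition (M) on the sphere, amplitudes of bounded variation. -/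
theorem sphereMA (d j : ℕ) (hd : 2 ≤ d) (hj : 1 ≤ j) (hjd : 2 * j ≤ d) (hj3 : d ≤ 3 * j) (η : ℝ)
    (hη : 0 < η) (p ε V : ℝ) (hp : 2 * ((d : ℝ) + 1) / d < p) (hε : 0 < ε) (B : ℕ → ℝ) :
    ∃ K : ℝ, 0 < K ∧ ∀ (φ : E (d + 1) → ℝ) (w : E (d + 1) → ℂ),
      (∀ x, ‖x‖ = 1 → ContDiffAt ℝ ∞ φ x) →
      (∀ k x, ‖x‖ = 1 → ‖iteratedFDeriv ℝ k φ x‖ ≤ B k) →
      (∀ x, ‖x‖ = 1 → MopS (d + 1) j η φ x) →
      (Measurable w ∧ (∀ x, ‖w x‖ ≤ 1) ∧ BVn (d + 1) 1 V w) → ∀ c : ℝ,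
      ∫⁻ ξ, ‖extn (fun x => w x * Complex.exp (((c * φ x : ℝ) : ℂ) * Complex.I)) ξ‖ₑ ^ p ≤
        ENNReal.ofReal (K * (1 + |c|) ^ ε) := by
  have hd0 : (0 : ℝ) < d := by
    have : 0 < d := by omega
    exact_mod_cast this
  have hp1 : 1 ≤ p := by
    have : (1 : ℝ) ≤ 2 * ((d : ℝ) + 1) / d := by
      rw [le_div_iff₀ hd0]
      linarith
    linarith
  obtain ⟨C, hC, h⟩ := sphere_of_core_W d (by omega) 1 p one_pos le_rfl hp1 _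
    (fun φ => ∀ x, ‖x‖ = 1 → MopS (d + 1) j η φ x) _ (fun φ hφ R => MopS_sphere_isom hφ R)
    (transM d j (by omega) hη.le) (coreWM d j hd hj hjd hj3 hη p ε hp hε) B V
  refine ⟨C.toReal + 1, by positivity, fun φ w h1 h2 h3 h4 c => ?_⟩
  obtain ⟨φ', hm', hS', he'⟩ := exists_meas_near (⟨h1, h2⟩ : Sb (d + 1) B φ)
  have h5 := h φ' hm' hS' (fun x hx => (h3 x hx).congr (he' x hx).symm) w h4.1 h4.2.1 h4.2.2 c
  have h6 : ∀ ξ, extn (fun x => w x * Complex.exp (((c * φ x : ℝ) : ℂ) * Complex.I)) ξ =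
      extn (fun x => w x * Complex.exp (((c * φ' x : ℝ) : ℂ) * Complex.I)) ξ := by
    intro ξ
    refine extn_congr (fun x => ?_) ξ
    have hx : ‖(x : E (d + 1))‖ = 1 := mem_sphere_zero_iff_norm.mp x.2
    rw [(he' _ hx).eq_of_nhds]
  simp only [h6]
  refine h5.trans ?_
  have h7 : C ≤ ENNReal.ofReal (C.toReal + 1) := by
    rw [← ENNReal.ofReal_toReal hC]
    exact ENNReal.ofReal_le_ofReal (by simp [ENNReal.toReal_ofReal])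
  rw [ENNReal.ofReal_mul (by positivity)]
  exact mul_le_mul' h7 le_rfl

/-- Families with condition (M) for the combinations with coefficients of norm one, amplitudes of
bounded variation. -/
theorem sphereMA_fam (d j : ℕ) (hd : 2 ≤ d) (hj : 1 ≤ j) (hjd : 2 * j ≤ d) (hj3 : d ≤ 3 * j) (η : ℝ)
    (hη : 0 < η) (p ε V : ℝ) (hp : 2 * ((d : ℝ) + 1) / d < p) (hε : 0 < ε) (N : ℕ) (B : ℕ → ℝ) :
    ∃ C : ℝ≥0∞, C ≠ ⊤ ∧ ∀ φ : Fin (N + 1) → E (d + 1) → ℝ, (∀ i, Sb (d + 1) B (φ i)) →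
      (∀ c : Fin (N + 1) → ℝ, ‖c‖ = 1 → ∀ x, ‖x‖ = 1 →
        MopS (d + 1) j η (fun x => ∑ i, c i * φ i x) x) →
      ∀ w : E (d + 1) → ℂ, Measurable w → (∀ x, ‖w x‖ ≤ 1) → BVn (d + 1) 1 V w →
      ∀ c : Fin (N + 1) → ℝ, ∫⁻ ξ, ‖extn (fun x => w x *
          Complex.exp (((∑ i, c i * φ i x : ℝ) : ℂ) * Complex.I)) ξ‖ₑ ^ p ≤
        C * ENNReal.ofReal ((1 + ‖c‖) ^ ε) := by
  obtain ⟨K, hK, h⟩ := sphereMA d j hd hj hjd hj3 η hη p ε V hp hε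
    (fun k => ∑ _j : Fin (N + 1), |B k|)
  refine ⟨ENNReal.ofReal K, ENNReal.ofReal_ne_top, fun φ hφ hM w hwm hw1 hwV c => ?_⟩
  obtain ⟨u, hu, huc⟩ : ∃ u : Fin (N + 1) → ℝ, ‖u‖ = 1 ∧ ∀ j, ‖c‖ * u j = c j := by
    by_cases h0 : ‖c‖ = 0
    · have h3 : c = 0 := norm_eq_zero.1 h0
      refine ⟨fun _ => 1, by simp, fun j => ?_⟩
      simp [h3]
    · refine ⟨fun j => c j / ‖c‖, ?_, fun j => by field_simp⟩
      have : (fun j => c j / ‖c‖) = ‖c‖⁻¹ • c := by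
        funext j
        simp [div_eq_inv_mul]
      rw [this, norm_smul, norm_inv, norm_norm, inv_mul_cancel₀ h0]
  have h1 : ∀ j, |u j| ≤ 1 := by
    intro j
    have := norm_le_pi_norm u j
    rwa [hu] at this
  have h2 : ∀ x, ‖c‖ * ∑ j, u j * φ j x = ∑ j, c j * φ j x := by
    intro x
    rw [Finset.mul_sum]
    refine Finset.sum_congr rfl fun j _ => ?_
    rw [← mul_assoc, huc]
  have h4 := Sb.comb hφ u h1
  have h3 := h _ w h4.sm h4.bd (hM u hu) ⟨hwm, hw1, hwV⟩ ‖c‖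
  simp only [h2, abs_norm] at h3
  rwa [← ENNReal.ofReal_mul hK.le]

/-- Condition (M), amplitudes of bounded variation, all dimensions `n ≥ 3`. -/
theorem oneLossMA (n : ℕ) (hn : 3 ≤ n) : OneLossMA n ((n + 1) / 3) (2 * n / (n - 1)) 1 := by
  obtain ⟨d, rfl⟩ : ∃ d, n = d + 1 := ⟨n - 1, by omega⟩
  intro V _ p hp ε hε η hη B
  have hp' : 2 * ((d : ℝ) + 1) / d < p := by
    have h1 : (2 * ((d + 1 : ℕ) : ℝ) / (((d + 1 : ℕ) : ℝ) - 1)) = 2 * ((d : ℝ) + 1) / d := by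
      push_cast
      ring_nf
    rwa [← h1]
  exact sphereMA d ((d + 1 + 1) / 3) (by omega) (by omega) (by omega) (by omega) η hη p ε V hp' hε B

end Pool.Agent.GNP
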