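import Pool.Agent.GNP.LEV

/-! Levels, pointwise form: an explicit partition of unity, for amplitudes at the scale `1/κ`. -/

namespace Pool.Agent.GNP

open MeasureTheory Set Metric Pool.Agent.MP_6cbfb8_an
open scoped ENNReal Real RealInnerProductSpace ContDiff

/-- The partition of unity by the levels of `L`. -/
theorem theta_lev (d : ℕ) : ∃ B : ℕ → ℝ, (∀ j, 0 ≤ B j) ∧
    ∀ (L : E d → ℝ) (C0 r : ℝ), Measurable L → 1 ≤ C0 → (∀ y, 1 ≤ L y) →
    (∀ y w, ‖y‖ ≤ r + 1 → ‖w‖ ≤ 1 / L y → L (y + w) ≤ C0 * L y) →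
    ∃ θ : ℕ → E d → ℂ, (∀ k, ContDiff ℝ ∞ (θ k)) ∧
      (∀ k j y, ‖iteratedFDeriv ℝ j (θ k) y‖ ≤ B j * (2 ^ k) ^ j) ∧
      (∀ k y, ‖y‖ ≤ r → θ k y ≠ 0 → 2 ^ k ≤ 2 * (C0 * L y) ∧ L y ≤ C0 * 2 ^ k) ∧
      ∀ K : ℕ, (∀ y, ‖y‖ ≤ r → C0 * L y ≤ 2 ^ K) → ∀ y, ‖y‖ ≤ r →
        ∑ k ∈ Finset.range (K + 1), θ k y = 1 := by
  obtain ⟨η, hη, h0, h1⟩ := exists_ker_nn d
  choose B hB0 hB using fun j => mo_der hη j
  refine ⟨fun j => 2 * B j, fun j => mul_nonneg zero_le_two (hB0 j), ?_⟩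
  intro L C0 r hLm hC0 hL1 hL
  set g : ℕ → E d → ℂ := fun k => lvg η L r (2 ^ k) with hg
  have hP : ∀ k : ℕ, (1:ℝ) ≤ 2 ^ k := fun k => one_le_pow₀ (by norm_num)
  have hint : ∀ k : ℕ, LocallyIntegrable (lvS L r (2 ^ k)) volume := fun k =>
    (amp_int (lvS_measurable hLm r _) (lvS_le L r _) (lvS_zero L r _)).locallyIntegrable
  have hgs : ∀ k, ContDiff ℝ ∞ (g k) := fun k =>
    mo_contDiff hη (hint k) (by linarith [hP k])
  have hgb : ∀ k j y, ‖iteratedFDeriv ℝ j (g k) y‖ ≤ B j * (2 ^ k) ^ j := fun k j y =>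
    hB j _ _ (by linarith [hP k]) (hint k) (lvS_le L r _) y
  set D : ℕ → E d → ℂ := fun k => match k with
    | 0 => g 0
    | (k + 1) => fun y => g (k + 1) y - g k y with hD
  have hDs : ∀ k, ContDiff ℝ ∞ (D k) := by
    intro k
    cases k with
    | zero => exact hgs 0
    | succ k => exact (hgs (k + 1)).sub (hgs k)
  have hDb : ∀ k j y, ‖iteratedFDeriv ℝ j (D k) y‖ ≤ (2 * B j) * (2 ^ k) ^ j := by
    intro k j y
    cases k with
    | zero =>
      refine (hgb 0 j y).trans ?_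
      have : 0 ≤ B j * ((2:ℝ) ^ 0) ^ j := mul_nonneg (hB0 j) (by positivity)
      linarith
    | succ k =>
      have h3 : D (k + 1) = g (k + 1) - g k := rfl
      have h4 : ContDiffAt ℝ j (g (k + 1)) y :=
        ((hgs (k + 1)).of_le (by exact_mod_cast le_top)).contDiffAt
      have h5 : ContDiffAt ℝ j (g k) y := ((hgs k).of_le (by exact_mod_cast le_top)).contDiffAt
      rw [h3, iteratedFDeriv_sub_apply h4 h5]
      refine (norm_sub_le _ _).trans ?_
      have h6 := hgb (k + 1) j y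
      have h7 : B j * ((2:ℝ) ^ k) ^ j ≤ B j * (2 ^ (k + 1)) ^ j := by
        refine mul_le_mul_of_nonneg_left ?_ (hB0 j)
        refine pow_le_pow_left₀ (by positivity) ?_ j
        exact pow_le_pow_right₀ (by norm_num) (Nat.le_succ k)
      have h8 := hgb k j y
      linarith
  have hsum : ∀ (n : ℕ) y, ∑ k ∈ Finset.range (n + 1), D k y = g n y := by
    intro n y
    induction n with
    | zero => simp [hD]
    | succ n ih =>
      rw [Finset.sum_range_succ, ih]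
      simp only [hD]
      ring
  refine ⟨D, hDs, hDb, fun k y hy hD0 => ?_, fun K hLK y hy => ?_⟩
  · refine ⟨?_, ?_⟩
    · by_contra h
      rw [not_le] at h
      cases k with
      | zero =>
        have := hL1 y
        rw [pow_zero] at h
        nlinarith
      | succ k =>
        rw [pow_succ] at h
        have h9 : C0 * L y ≤ 2 ^ k := by linarith
        have h10 : C0 * L y ≤ 2 ^ (k + 1) :=
          h9.trans (pow_le_pow_right₀ (by norm_num) (Nat.le_succ k))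
        apply hD0
        simp only [hD, hg]
        rw [lvg_one hη h1 hC0 hL1 hL (hP _) y hy h9, lvg_one hη h1 hC0 hL1 hL (hP _) y hy h10,
          sub_self]
    · by_contra h
      rw [not_le] at h
      apply hD0
      cases k with
      | zero => exact lvg_zero hη hC0 hL1 hL (hP 0) y hy h
      | succ k =>
        have h9 : C0 * 2 ^ k < L y := by
          refine lt_of_le_of_lt ?_ h
          have : (2:ℝ) ^ k ≤ 2 ^ (k + 1) := pow_le_pow_right₀ (by norm_num) (Nat.le_succ k)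
          gcongr
        simp only [hD, hg]
        rw [lvg_zero hη hC0 hL1 hL (hP _) y hy h9, lvg_zero hη hC0 hL1 hL (hP _) y hy h, sub_self]
  · rw [hsum]
    simp only [hg]
    exact lvg_one hη h1 hC0 hL1 hL (hP K) y hy (hLK y hy)

theorem iter_nonneg {d : ℕ} {A : ℕ → ℝ} {r R : ℝ} {a : E d → ℂ} (h : AmpR d A r R a) (hR : 0 < R)
    (j : ℕ) : 0 ≤ A j := by
  have h2 := (norm_nonneg _).trans (h.bd j 0)
  by_contra h3
  rw [not_le] at h3
  exact absurd h2 (not_le.2 (mul_neg_of_neg_of_pos h3 (by positivity)))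

/-- Row BV5: levels with an explicit partition of unity, amplitudes at the scale `1/κ`. -/
theorem levels_R (d J : ℕ) (A : ℕ → ℝ) (κ0 : ℝ) (hκ0 : 0 < κ0) (r r' : ℝ)
    (hr' : r < r') : ∃ (A' : ℕ → ℝ) (m : ℕ) (κ1 : ℝ), 1 ≤ κ1 ∧ (∀ j, 0 ≤ A' j) ∧
    ∀ (q : E d → ℝ) (κ : ℝ) (n : ℕ), κ1 ≤ κ → High d J A κ q → (∀ y, lv J κ q y ≤ n) →
      ∃ θ : ℕ → E d → ℂ,
        (∀ k, ContDiff ℝ ∞ (θ k)) ∧
        (∀ k j y, ‖iteratedFDeriv ℝ j (θ k) y‖ ≤ A' j * (2 ^ k) ^ j) ∧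
        (∀ y, ‖y‖ ≤ r → ∑ k ∈ Finset.range (n + m + 1), θ k y = 1) ∧
        (∀ k, Quad d A' (2 ^ k) q (Fl J κ q r' m k)) ∧
        (∀ k y, ‖y‖ ≤ r → θ k y ≠ 0 →
          closedBall y (κ0 / 2 ^ k) ⊆ Fl J κ q r' m k ∧ κ ≤ 2 ^ (k + m)) ∧
        ∀ a : E d → ℂ, AmpR d A r κ a →
          (∀ k, AmpR d A' r (2 ^ k) fun y => a y * θ k y) ∧
          (∀ y, ∑ k ∈ Finset.range (n + m + 1), a y * θ k y = a y) ∧
          ∀ x, uu a q x = ∑ k ∈ Finset.range (n + m + 1), uu (fun y => a y * θ k y) q x := by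
  obtain ⟨C0, hC0, h0⟩ := slow d J A 1
  obtain ⟨C1, hC1, h1⟩ := slow d J A (κ0 * C0)
  obtain ⟨B, hB0, hB⟩ := theta_lev d
  obtain ⟨m, hm⟩ := pow_unbounded_of_one_lt (2 * (C0 * C1)) (one_lt_two (α := ℝ))
  have hC0' : 0 < C0 := zero_lt_one.trans_le hC0
  have hC1' : 0 < C1 := zero_lt_one.trans_le hC1
  have hrr : 0 < r' - r := sub_pos.2 hr'
  have hA'0 : ∀ j : ℕ, 0 ≤ ∑ i ∈ Finset.range (j + 1),
      (j.choose i : ℝ) * (|A i| * C0 ^ i * B (j - i)) := fun j =>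
    Finset.sum_nonneg fun i _ => mul_nonneg (Nat.cast_nonneg _)
      (mul_nonneg (mul_nonneg (abs_nonneg _) (by positivity)) (hB0 _))
  refine ⟨fun j => (B j + ∑ i ∈ Finset.range (j + 1),
    (j.choose i : ℝ) * (|A i| * C0 ^ i * B (j - i))) + max 1 |A j| * (2 ^ m) ^ j, m,
    max 1 (κ0 * C0 / (r' - r)), le_max_left _ _, fun j =>
      add_nonneg (add_nonneg (hB0 j) (hA'0 j)) (by positivity), ?_⟩
  intro q κ n hκ hq hn
  have hκ1 : 1 ≤ κ := (le_max_left _ _).trans hκ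
  have hκp : 0 < κ := zero_lt_one.trans_le hκ1
  have hLp : ∀ y, 0 < Lm J κ q y := fun y => hκp.trans_le (Lm_ge J κ q y)
  have hm0 : C0 ≤ 2 ^ m := by nlinarith
  obtain ⟨θ, hf1, hf2, hf3, hf4⟩ := hB (Lm J κ q) C0 r (Lm_cont J κ hq.sm).measurable hC0
    (fun y => hκ1.trans (Lm_ge J κ q y)) (fun y w _ hw => (h0 q κ hκ1 hq y w hw).1)
  have hone : ∀ y, ‖y‖ ≤ r → ∑ k ∈ Finset.range (n + m + 1), θ k y = 1 := by
    refine hf4 (n + m) fun y _ => ?_
    rw [pow_add, mul_comm ((2 : ℝ) ^ n)]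
    exact mul_le_mul hm0 ((Lm_le_lv hκp y).trans
      (pow_le_pow_right₀ one_le_two (hn y))) (hLp y).le (by positivity)
  refine ⟨θ, hf1, fun k j y => ?_, hone, fun k => ⟨hq.sm, fun y hy j hj => ?_⟩,
    fun k y hyr hy => ⟨fun z hz => ?_, ?_⟩, fun a ha => ?_⟩
  · refine (hf2 k j y).trans (mul_le_mul_of_nonneg_right ?_ (by positivity))
    have h2 : 0 ≤ max 1 |A j| * ((2 : ℝ) ^ m) ^ j := by positivity
    linarith [hA'0 j]
  · obtain ⟨-, -, h2⟩ := hy
    have h3 : Lm J κ q y ≤ 2 ^ m * 2 ^ k := by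
      rw [← pow_add, add_comm m k]
      exact (Lm_le_lv hκp y).trans (pow_le_pow_right₀ one_le_two h2)
    calc ‖iteratedFDeriv ℝ j q y‖ ≤ max 1 |A j| * Lm J κ q y ^ j := der_le hκ1 hq y j hj
      _ ≤ max 1 |A j| * (2 ^ m * 2 ^ k) ^ j :=
          mul_le_mul_of_nonneg_left (pow_le_pow_left₀ (hLp y).le h3 j) (by positivity)
      _ = max 1 |A j| * (2 ^ m) ^ j * (2 ^ k) ^ j := by rw [mul_pow, mul_assoc]
      _ ≤ _ := mul_le_mul_of_nonneg_right (le_add_of_nonneg_left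
          (add_nonneg (hB0 j) (hA'0 j))) (by positivity)
  · obtain ⟨h2, h3⟩ := hf3 k y hyr hy
    have hk0 : (0 : ℝ) < 2 ^ k := by positivity
    have hzy : ‖z - y‖ ≤ κ0 / 2 ^ k := by rwa [← dist_eq_norm]
    have h4 : κ0 / 2 ^ k ≤ κ0 * C0 / Lm J κ q y := by
      rw [div_le_div_iff₀ hk0 (hLp y)]
      calc κ0 * Lm J κ q y ≤ κ0 * (C0 * 2 ^ k) := mul_le_mul_of_nonneg_left h3 hκ0.le
        _ = κ0 * C0 * 2 ^ k := by ring
    obtain ⟨h5, h6, -⟩ := h1 q κ hκ1 hq y (z - y) (hzy.trans h4)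
    rw [add_sub_cancel] at h5 h6
    refine ⟨?_, ?_, ?_⟩
    · have h7 : κ0 / 2 ^ k ≤ r' - r := by
        have h8 : κ0 * C0 / (r' - r) ≤ Lm J κ q y :=
          ((le_max_right _ _).trans hκ).trans (Lm_ge J κ q y)
        rw [div_le_iff₀ hrr] at h8
        rw [div_le_iff₀ hk0]
        have h9 : κ0 * C0 ≤ C0 * ((r' - r) * 2 ^ k) := by
          calc κ0 * C0 ≤ Lm J κ q y * (r' - r) := h8
            _ ≤ C0 * 2 ^ k * (r' - r) := mul_le_mul_of_nonneg_right h3 hrr.le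
            _ = _ := by ring
        rw [mul_comm κ0] at h9
        exact le_of_mul_le_mul_left h9 hC0'
      calc ‖z‖ = ‖y + (z - y)‖ := by rw [add_sub_cancel]
        _ ≤ ‖y‖ + ‖z - y‖ := norm_add_le _ _
        _ ≤ r + (r' - r) := add_le_add hyr (hzy.trans h7)
        _ = r' := by ring
    · have h7 : (2 : ℝ) ^ k ≤ 2 ^ (lv J κ q z + m) := by
        calc (2 : ℝ) ^ k ≤ 2 * (C0 * Lm J κ q y) := h2
          _ ≤ 2 * (C0 * (C1 * Lm J κ q z)) := by gcongr
          _ = 2 * (C0 * C1) * Lm J κ q z := by ring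
          _ ≤ 2 ^ m * 2 ^ lv J κ q z :=
              mul_le_mul hm.le (Lm_le_lv hκp z) (hLp z).le (by positivity)
          _ = _ := by rw [← pow_add, add_comm]
      exact (pow_le_pow_iff_right₀ one_lt_two).1 h7
    · have h7 : (2 : ℝ) ^ lv J κ q z ≤ 2 ^ (k + m) := by
        calc (2 : ℝ) ^ lv J κ q z ≤ 2 * Lm J κ q z := (lv_lt_Lm hκ1 z).le
          _ ≤ 2 * (C1 * (C0 * 2 ^ k)) := by
              refine mul_le_mul_of_nonneg_left (h5.trans ?_) zero_le_two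
              exact mul_le_mul_of_nonneg_left h3 hC1'.le
          _ = 2 * (C0 * C1) * 2 ^ k := by ring
          _ ≤ 2 ^ m * 2 ^ k := mul_le_mul_of_nonneg_right hm.le hk0.le
          _ = _ := by rw [← pow_add, add_comm]
      exact (pow_le_pow_iff_right₀ one_lt_two).1 h7
  · obtain ⟨-, h3⟩ := hf3 k y hyr hy
    calc κ ≤ Lm J κ q y := Lm_ge J κ q y
      _ ≤ C0 * 2 ^ k := h3
      _ ≤ 2 ^ m * 2 ^ k := mul_le_mul_of_nonneg_right hm0 (by positivity)
      _ = _ := by rw [← pow_add, add_comm]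
  · have hsum : ∀ y, ∑ k ∈ Finset.range (n + m + 1), a y * θ k y = a y := by
      intro y
      rw [← Finset.mul_sum]
      by_cases hy : ‖y‖ ≤ r
      · rw [hone y hy, mul_one]
      · rw [ha.supp y (not_le.1 hy), zero_mul]
    have hamp : ∀ k, AmpR d (fun j => (B j + ∑ i ∈ Finset.range (j + 1),
        (j.choose i : ℝ) * (|A i| * C0 ^ i * B (j - i))) + max 1 |A j| * (2 ^ m) ^ j) r (2 ^ k)
        fun y => a y * θ k y := by
      intro k
      refine ⟨ha.sm.mul (hf1 k), fun y hy => by rw [ha.supp y hy, zero_mul],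
        fun j y => ?_⟩
      have hrhs : 0 ≤ ∑ i ∈ Finset.range (j + 1),
          (j.choose i : ℝ) * (|A i| * C0 ^ i * B (j - i)) := hA'0 j
      by_cases hz : ∃ z, ‖z‖ ≤ r ∧ θ k z ≠ 0
      · obtain ⟨z, hzr, hz0⟩ := hz
        have h3 : κ ≤ C0 * 2 ^ k := (Lm_ge J κ q z).trans (hf3 k z hzr hz0).2
        have hab : ∀ i z, ‖iteratedFDeriv ℝ i a z‖ ≤ (|A i| * C0 ^ i) * (2 ^ k) ^ i := by
          intro i z
          calc ‖iteratedFDeriv ℝ i a z‖ ≤ A i * κ ^ i := ha.bd i z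
            _ ≤ |A i| * (C0 * 2 ^ k) ^ i :=
                mul_le_mul (le_abs_self _) (pow_le_pow_left₀ hκp.le h3 i) (by positivity)
                  (abs_nonneg _)
            _ = _ := by rw [mul_pow, mul_assoc]
        refine (mul_der ha.sm (hf1 k) hab (hf2 k) j y).trans
          (mul_le_mul_of_nonneg_right ?_ (by positivity))
        have h4 : 0 ≤ max 1 |A j| * ((2 : ℝ) ^ m) ^ j := by positivity
        linarith [hB0 j]
      · push Not at hz
        have hzero : (fun y => a y * θ k y) = fun _ => (0 : ℂ) := by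
          funext y
          by_cases hy : ‖y‖ ≤ r
          · rw [hz y hy, mul_zero]
          · rw [ha.supp y (not_le.1 hy), zero_mul]
        rw [hzero, iteratedFDeriv_fun_zero]
        simp only [Pi.zero_apply, norm_zero]
        exact mul_nonneg (add_nonneg (add_nonneg (hB0 j) hrhs) (by positivity)) (by positivity)
    exact ⟨hamp, hsum, fun x => uu_sum_fin _ (fun k y => a y * θ k y) a q
      (fun k _ => (hamp k).integrable') hq.sm.continuous hsum x⟩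

end Pool.Agent.GNP
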