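import Pool.Agent.GNP.Defs

/-!
ROW DI: the diagonal average.
-/

namespace Pool.Agent.GNP

open MeasureTheory Set Pool.Agent.MP_6cbfb8_an
open scoped ENNReal Real RealInnerProductSpace

theorem lint_abs_rpow_lt_top (α : ℝ) (hα : α < 1) :
    ∫⁻ u in Ioo (-1 : ℝ) 1, ENNReal.ofReal |u| ^ (-α) < ∞ := by
  have h1 : ∫⁻ u in Ioo (0 : ℝ) 1, ENNReal.ofReal u ^ (-α) < ∞ := by
    have h := (intervalIntegral.integrableOn_Ioo_rpow_iff (s := -α) (t := 1) one_pos).2
      (by linarith)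
    have h2 := Integrable.lintegral_lt_top h
    refine lt_of_le_of_lt (le_of_eq ?_) h2
    refine setLIntegral_congr_fun measurableSet_Ioo fun u hu => ?_
    exact ENNReal.ofReal_rpow_of_pos hu.1
  rw [← lintegral_indicator measurableSet_Ioo] at h1 ⊢
  set f : ℝ → ℝ≥0∞ := (Ioo (0 : ℝ) 1).indicator fun u => ENNReal.ofReal u ^ (-α) with hf
  have hae : ∀ᵐ u : ℝ, (Ioo (-1 : ℝ) 1).indicator (fun u => ENNReal.ofReal |u| ^ (-α)) u ≤
      f u + f (-u) := by
    have h0 : ∀ᵐ u : ℝ, u ≠ 0 := by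
      rw [ae_iff]
      simp
    filter_upwards [h0] with u hu
    by_cases hm : u ∈ Ioo (-1 : ℝ) 1
    · rw [indicator_of_mem hm]
      rcases lt_or_gt_of_ne hu with h | h
      · rw [abs_of_neg h]
        have : -u ∈ Ioo (0 : ℝ) 1 := ⟨by linarith, by linarith [hm.1]⟩
        simp only [hf]
        rw [indicator_of_mem this]
        exact le_add_self
      · rw [abs_of_pos h]
        have : u ∈ Ioo (0 : ℝ) 1 := ⟨h, hm.2⟩
        simp only [hf]
        rw [indicator_of_mem this]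
        exact le_self_add
    · rw [indicator_of_notMem hm]
      exact zero_le
  refine lt_of_le_of_lt (lintegral_mono_ae hae) ?_
  have hfm : Measurable f := by
    refine Measurable.indicator ?_ measurableSet_Ioo
    fun_prop
  rw [lintegral_add_left hfm, lintegral_neg_eq_self f]
  exact ENNReal.add_lt_top.2 ⟨h1, h1⟩

/-- The one-dimensional estimate. -/
theorem lint_affine (α M : ℝ) (hα : 0 ≤ α) (hα1 : α < 1) : ∃ C : ℝ≥0∞, C ≠ ∞ ∧ C ≠ 0 ∧
    ∀ X Y : ℝ, ∫⁻ x in Icc (-M) M, ENNReal.ofReal |x * X + Y| ^ (-α) ≤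
      C * ENNReal.ofReal |X| ^ (-α) := by
  set C0 := ∫⁻ u in Ioo (-1 : ℝ) 1, ENNReal.ofReal |u| ^ (-α) with hC0
  have hC0' : C0 < ∞ := lint_abs_rpow_lt_top α hα1
  refine ⟨C0 + volume (Icc (-M) M) + 1, ?_, by simp, fun X Y => ?_⟩
  · refine (ENNReal.add_lt_top.2 ⟨ENNReal.add_lt_top.2 ⟨hC0', ?_⟩, by simp⟩).ne
    exact isCompact_Icc.measure_lt_top
  by_cases hX : X = 0
  · rcases hα.eq_or_lt with h | h
    · subst h
      simp only [neg_zero, ENNReal.rpow_zero, mul_one, lintegral_const, one_mul,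
        MeasurableSet.univ, Measure.restrict_apply, univ_inter]
      exact le_add_right le_add_self
    · subst hX
      simp only [abs_zero, ENNReal.ofReal_zero]
      rw [ENNReal.zero_rpow_of_neg (by linarith)]
      rw [ENNReal.mul_top (by simp)]
      exact le_top
  have hform : ∀ x : ℝ, ENNReal.ofReal |x * X + Y| ^ (-α) =
      ENNReal.ofReal |X| ^ (-α) * ENNReal.ofReal |x + Y / X| ^ (-α) := by
    intro x
    rw [← ENNReal.mul_rpow_of_ne_top (by simp) (by simp), ← ENNReal.ofReal_mul (abs_nonneg _),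
      ← abs_mul]
    congr 3
    field_simp
  simp_rw [hform]
  rw [lintegral_const_mul _ (by fun_prop), mul_comm]
  gcongr
  have hle : ∀ x : ℝ, ENNReal.ofReal |x + Y / X| ^ (-α) ≤
      (Ioo (-1 : ℝ) 1).indicator (fun u => ENNReal.ofReal |u| ^ (-α)) (x + Y / X) + 1 := by
    intro x
    by_cases hm : x + Y / X ∈ Ioo (-1 : ℝ) 1
    · rw [indicator_of_mem hm]
      exact le_self_add
    · rw [indicator_of_notMem hm, zero_add]
      have h1 : 1 ≤ |x + Y / X| := by
        by_contra hcon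
        push Not at hcon
        exact hm (abs_lt.1 hcon)
      rcases hα.eq_or_lt with h | h
      · simp [← h]
      · rw [ENNReal.rpow_neg, ENNReal.inv_le_one]
        exact ENNReal.one_le_rpow (by simpa using h1) h
  calc ∫⁻ x in Icc (-M) M, ENNReal.ofReal |x + Y / X| ^ (-α)
      ≤ ∫⁻ x in Icc (-M) M, ((Ioo (-1 : ℝ) 1).indicator
          (fun u => ENNReal.ofReal |u| ^ (-α)) (x + Y / X) + 1) := lintegral_mono hle
    _ = (∫⁻ x in Icc (-M) M, (Ioo (-1 : ℝ) 1).indicator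
          (fun u => ENNReal.ofReal |u| ^ (-α)) (x + Y / X)) + volume (Icc (-M) M) := by
        rw [lintegral_add_right _ measurable_const]
        simp
    _ ≤ (∫⁻ x : ℝ, (Ioo (-1 : ℝ) 1).indicator
          (fun u => ENNReal.ofReal |u| ^ (-α)) (x + Y / X)) + volume (Icc (-M) M) := by
        gcongr
        exact Measure.restrict_le_self
    _ = C0 + volume (Icc (-M) M) := by
        rw [lintegral_add_right_eq_self
          (fun u => (Ioo (-1 : ℝ) 1).indicator (fun u => ENNReal.ofReal |u| ^ (-α)) u),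
          lintegral_indicator measurableSet_Ioo]
    _ ≤ C0 + volume (Icc (-M) M) + 1 := le_self_add

theorem det_cons {d : ℕ} (A : Matrix (Fin (d + 1)) (Fin (d + 1)) ℝ) (b0 : ℝ) (b : Fin d → ℝ) :
    (A + Matrix.diagonal (Fin.cons b0 b)).det =
      b0 * (A.submatrix Fin.succ Fin.succ + Matrix.diagonal b).det +
        (A + Matrix.diagonal (Fin.cons 0 b)).det := by
  rw [Matrix.det_succ_row_zero, Matrix.det_succ_row_zero (A + Matrix.diagonal (Fin.cons 0 b))]
  rw [Fin.sum_univ_succ, Fin.sum_univ_succ]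
  have h1 : ∀ (c : ℝ) (f : Fin d → Fin (d + 1)), (A + Matrix.diagonal (Fin.cons c b)).submatrix
      Fin.succ f = (A + Matrix.diagonal (Fin.cons 0 b)).submatrix Fin.succ f := by
    intro c f
    ext i j
    simp only [Matrix.submatrix_apply, Matrix.add_apply, Matrix.diagonal_apply]
    split_ifs with h
    · rw [Fin.cons_succ, Fin.cons_succ]
    · rfl
  have h2 : (A + Matrix.diagonal (Fin.cons 0 b)).submatrix Fin.succ Fin.succ =
      A.submatrix Fin.succ Fin.succ + Matrix.diagonal b := by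
    ext i j
    simp only [Matrix.submatrix_apply, Matrix.add_apply, Matrix.diagonal_apply]
    simp [Fin.succ_inj]
  simp only [h1 b0]
  simp only [Fin.val_zero, pow_zero, one_mul, Matrix.add_apply, Matrix.diagonal_apply_eq,
    Fin.cons_zero, Fin.succAbove_zero, h2]
  have h3 : ∀ x : Fin d, (Matrix.diagonal (Fin.cons b0 b) : Matrix (Fin (d + 1)) (Fin (d + 1)) ℝ) 0
      x.succ = 0 := fun x => Matrix.diagonal_apply_ne _ (Fin.succ_ne_zero x).symm
  have h4 : ∀ x : Fin d, (Matrix.diagonal (Fin.cons 0 b) : Matrix (Fin (d + 1)) (Fin (d + 1)) ℝ) 0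
      x.succ = 0 := fun x => Matrix.diagonal_apply_ne _ (Fin.succ_ne_zero x).symm
  simp only [h3, h4, add_zero]
  ring

theorem det_pi (ν : Measure ℝ) [SigmaFinite ν] (α : ℝ) (C : ℝ≥0∞)
    (hν : ∀ X Y : ℝ, ∫⁻ x, ENNReal.ofReal |x * X + Y| ^ (-α) ∂ν ≤
      C * ENNReal.ofReal |X| ^ (-α)) : ∀ (d : ℕ) (A : Matrix (Fin d) (Fin d) ℝ),
    ∫⁻ b, ENNReal.ofReal |(A + Matrix.diagonal b).det| ^ (-α)
      ∂(Measure.pi fun _ : Fin d => ν) ≤ C ^ d
  | 0, A => by
      simp
  | d + 1, A => by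
      have hmeas : ∀ (k : ℕ) (B : Matrix (Fin k) (Fin k) ℝ), Measurable fun b : Fin k → ℝ =>
          ENNReal.ofReal |(B + Matrix.diagonal b).det| ^ (-α) := by
        intro k B
        have : Continuous fun b : Fin k → ℝ => (B + Matrix.diagonal b).det :=
          (continuous_const.add (continuous_id.matrix_diagonal)).matrix_det
        exact (ENNReal.measurable_ofReal.comp this.abs.measurable).pow_const _
      have hmp := (measurePreserving_piFinSuccAbove (fun _ : Fin (d + 1) => ν) 0).symm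
      rw [← hmp.lintegral_comp (hmeas (d + 1) A)]
      rw [lintegral_prod_symm' (fun a : ℝ × (Fin d → ℝ) => ENNReal.ofReal |(A + Matrix.diagonal
        ((MeasurableEquiv.piFinSuccAbove (fun _ : Fin (d + 1) => ℝ) 0).symm a)).det| ^ (-α))
        ((hmeas (d + 1) A).comp (MeasurableEquiv.measurable _))]
      calc ∫⁻ b : Fin d → ℝ, ∫⁻ x : ℝ, ENNReal.ofReal |(A + Matrix.diagonal
              ((MeasurableEquiv.piFinSuccAbove (fun _ : Fin (d + 1) => ℝ) 0).symm (x, b))).det| ^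
                (-α) ∂ν ∂(Measure.pi fun _ : Fin d => ν)
          ≤ ∫⁻ b : Fin d → ℝ, C * ENNReal.ofReal |(A.submatrix Fin.succ Fin.succ +
              Matrix.diagonal b).det| ^ (-α) ∂(Measure.pi fun _ : Fin d => ν) := by
            refine lintegral_mono fun b => ?_
            refine le_trans (le_of_eq ?_) (hν _ ((A + Matrix.diagonal (Fin.cons 0 b)).det))
            refine lintegral_congr fun x => ?_
            have he : (MeasurableEquiv.piFinSuccAbove (fun _ : Fin (d + 1) => ℝ) 0).symm (x, b) =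
                Fin.cons x b := by
              simp [MeasurableEquiv.piFinSuccAbove, Fin.insertNthEquiv]
            rw [← det_cons, he]
        _ ≤ C * C ^ d := by
            rw [lintegral_const_mul _ (hmeas d _)]
            gcongr
            exact det_pi ν α C hν d _
        _ = C ^ (d + 1) := by rw [pow_succ']

theorem det_diag_mat (d : ℕ) (α M : ℝ) (hα : 0 ≤ α) (hα1 : α < 1) : ∃ C : ℝ≥0∞, C ≠ ∞ ∧
    ∀ A : Matrix (Fin d) (Fin d) ℝ, ∫⁻ b in Icc (fun _ : Fin d => -M) (fun _ => M),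
      ENNReal.ofReal |(A + Matrix.diagonal b).det| ^ (-α) ≤ C := by
  obtain ⟨C, hC, -, hC1⟩ := lint_affine α M hα hα1
  refine ⟨C ^ d, ENNReal.pow_ne_top hC, fun A => ?_⟩
  rw [← pi_univ_Icc, volume_pi, Measure.restrict_pi_pi]
  exact det_pi (volume.restrict (Icc (-M) M)) α C hC1 d A

theorem det_toEuclideanCLM {d : ℕ} (A : Matrix (Fin d) (Fin d) ℝ) :
    (Matrix.toEuclideanCLM (n := Fin d) (𝕜 := ℝ) A).det = A.det := by
  have h : ((Matrix.toEuclideanCLM (n := Fin d) (𝕜 := ℝ) A : E d →L[ℝ] E d) : E d →ₗ[ℝ] E d) =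
      Matrix.toLin (EuclideanSpace.basisFun (Fin d) ℝ).toBasis
        (EuclideanSpace.basisFun (Fin d) ℝ).toBasis A := by
    rw [Matrix.coe_toEuclideanCLM_eq_toEuclideanLin, Matrix.toEuclideanLin_eq_toLin_orthonormal]
  change LinearMap.det ((Matrix.toEuclideanCLM (n := Fin d) (𝕜 := ℝ) A : E d →L[ℝ] E d) :
    E d →ₗ[ℝ] E d) = A.det
  rw [h, LinearMap.det_toLin]

theorem det_diag (d : ℕ) (α M : ℝ) (hα : 0 ≤ α) (hα1 : α < 1) : ∃ C : ℝ≥0∞, C ≠ ⊤ ∧
    ∀ S : E d →L[ℝ] E d, ∫⁻ t in Set.pi univ (fun _ : Fin d => Icc (-M) M),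
      ‖(S + dg fun j => 2 * t j).det‖ₑ ^ (-α) ≤ C := by
  obtain ⟨C, hC, hC1⟩ := det_diag_mat d α M hα hα1
  refine ⟨C, hC, fun S => ?_⟩
  set A : Matrix (Fin d) (Fin d) ℝ :=
    (Matrix.toEuclideanCLM (n := Fin d) (𝕜 := ℝ)).symm S with hA
  have hS : S = Matrix.toEuclideanCLM (n := Fin d) (𝕜 := ℝ) A := by simp [hA]
  have h1 : ∀ t : Fin d → ℝ, (S + dg fun j => 2 * t j).det =
      2 ^ d * ((2 : ℝ)⁻¹ • A + Matrix.diagonal t).det := by
    intro t
    rw [hS, dg, ← map_add, det_toEuclideanCLM]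
    have : A + Matrix.diagonal (fun j => 2 * t j) =
        (2 : ℝ) • ((2 : ℝ)⁻¹ • A + Matrix.diagonal t) := by
      rw [smul_add, smul_smul, mul_inv_cancel₀ (by norm_num), one_smul]
      congr 1
      ext i j
      simp [Matrix.diagonal_apply]
    rw [this, Matrix.det_smul, Fintype.card_fin]
  rw [pi_univ_Icc]
  refine le_trans (lintegral_mono fun t => ?_) (hC1 ((2 : ℝ)⁻¹ • A))
  show ‖(S + dg fun j => 2 * t j).det‖ₑ ^ (-α) ≤
    ENNReal.ofReal |((2 : ℝ)⁻¹ • A + Matrix.diagonal t).det| ^ (-α)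
  rw [h1, Real.enorm_eq_ofReal_abs, abs_mul, ENNReal.ofReal_mul (abs_nonneg _),
    ENNReal.mul_rpow_of_ne_top (by simp) (by simp)]
  have h2 : ENNReal.ofReal |(2 : ℝ) ^ d| ^ (-α) ≤ 1 := by
    rw [ENNReal.rpow_neg, ENNReal.inv_le_one]
    rcases hα.eq_or_lt with h | h
    · simp [← h]
    · refine ENNReal.one_le_rpow ?_ h
      rw [ENNReal.one_le_ofReal, abs_of_nonneg (by positivity)]
      exact one_le_pow₀ (by norm_num)
  calc ENNReal.ofReal |(2 : ℝ) ^ d| ^ (-α) *
        ENNReal.ofReal |((2 : ℝ)⁻¹ • A + Matrix.diagonal t).det| ^ (-α)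
      ≤ 1 * ENNReal.ofReal |((2 : ℝ)⁻¹ • A + Matrix.diagonal t).det| ^ (-α) := by gcongr
    _ = _ := one_mul _

end Pool.Agent.GNP
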