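import Pool.Agent.GNP.Defs
import Mathlib.Analysis.InnerProductSpace.NormDet

namespace Pool.Agent.GNP

open MeasureTheory Set Pool.Agent.MP_6cbfb8_an
open scoped ENNReal Real RealInnerProductSpace ContDiff

/-! ## DD: definite pencils have a large determinant -/

/-- A map which is bounded below by `β` has determinant at least `β ^ d`. -/
theorem dd_pow_le_det {V : Type*} [NormedAddCommGroup V] [InnerProductSpace ℝ V]
    [FiniteDimensional ℝ V] (A : V →L[ℝ] V) {β : ℝ} (hβ : 0 ≤ β) (h : ∀ v, β * ‖v‖ ≤ ‖A v‖) :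
    β ^ Module.finrank ℝ V ≤ |A.det| := by
  classical
  set f : V →ₗ[ℝ] V := A.toLinearMap with hf
  set T : V →ₗ[ℝ] V := LinearMap.adjoint f ∘ₗ f with hTdef
  have hTi : ∀ v w, ⟪T v, w⟫ = ⟪A v, A w⟫ := by
    intro v w
    change ⟪LinearMap.adjoint f (f v), w⟫ = _
    rw [LinearMap.adjoint_inner_left]
    rfl
  have hT : T.IsSymmetric := by
    intro v w
    rw [hTi, real_inner_comm, ← hTi, real_inner_comm]
  have hlow : ∀ i, β ^ 2 ≤ hT.eigenvalues rfl i := by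
    intro i
    have h2 : ⟪T (hT.eigenvectorBasis rfl i), hT.eigenvectorBasis rfl i⟫ =
        hT.eigenvalues rfl i := by
      rw [hT.apply_eigenvectorBasis rfl i, inner_smul_left, real_inner_self_eq_norm_sq,
        (hT.eigenvectorBasis rfl).norm_eq_one]
      simp
    rw [← h2, hTi, real_inner_self_eq_norm_sq]
    have h3 := h (hT.eigenvectorBasis rfl i)
    rw [(hT.eigenvectorBasis rfl).norm_eq_one, mul_one] at h3
    exact pow_le_pow_left₀ hβ h3 2
  have hdet : |A.det| ^ 2 = ∏ i, hT.eigenvalues rfl i := by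
    have h1 := LinearMap.normDet_sq f
    rw [LinearMap.normDet_eq_abs_det] at h1
    have h2 := hT.det_eq_prod_eigenvalues rfl
    rw [← hTdef] at h1
    rw [h2] at h1
    simpa using h1
  have h1 : (β ^ Module.finrank ℝ V) ^ 2 ≤ |A.det| ^ 2 := by
    rw [hdet]
    calc (β ^ Module.finrank ℝ V) ^ 2 = ∏ _i : Fin (Module.finrank ℝ V), β ^ 2 := by
          simp [← pow_mul, mul_comm]
      _ ≤ _ := Finset.prod_le_prod (fun _ _ => by positivity) (fun i _ => hlow i)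
  exact le_of_sq_le_sq h1 (abs_nonneg _)

theorem det_def (d : ℕ) (P Q : E d →L[ℝ] E d) (b M t : ℝ) (hb : 0 < b) (hM : ‖P‖ ≤ M)
    (hQ : ∀ v, b * ‖v‖ ^ 2 ≤ ⟪Q v, v⟫) (ht : 2 * M / b ≤ |t|) :
    (b * |t| / 2) ^ d ≤ |(P + t • Q).det| := by
  have hbs : 0 ≤ b * |t| / 2 := by positivity
  have ht' : 2 * M ≤ b * |t| := by
    rw [div_le_iff₀ hb] at ht
    linarith
  have hlow : ∀ v : E d, b * |t| / 2 * ‖v‖ ≤ ‖(P + t • Q) v‖ := by
    intro v
    rcases eq_or_ne v 0 with hv | hv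
    · rw [hv]
      simp
    have hvp : 0 < ‖v‖ := norm_pos_iff.2 hv
    have h1 : |t| * (b * ‖v‖ ^ 2) ≤ |⟪t • Q v, v⟫| := by
      rw [real_inner_smul_left, abs_mul]
      exact mul_le_mul_of_nonneg_left ((hQ v).trans (le_abs_self _)) (abs_nonneg _)
    have h2 : |⟪P v, v⟫| ≤ M * ‖v‖ ^ 2 := by
      calc |⟪P v, v⟫| ≤ ‖P v‖ * ‖v‖ := abs_real_inner_le_norm _ _
        _ ≤ (M * ‖v‖) * ‖v‖ := by
          refine mul_le_mul_of_nonneg_right ?_ (norm_nonneg _)
          exact (P.le_opNorm v).trans (mul_le_mul_of_nonneg_right hM (norm_nonneg _))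
        _ = _ := by ring
    have h3 : |⟪t • Q v, v⟫| - |⟪P v, v⟫| ≤ |⟪(P + t • Q) v, v⟫| := by
      have h4 : ⟪(P + t • Q) v, v⟫ = ⟪t • Q v, v⟫ - (-⟪P v, v⟫) := by
        change ⟪P v + t • Q v, v⟫ = _
        rw [inner_add_left]
        ring
      rw [h4, ← abs_neg ⟪P v, v⟫]
      exact abs_sub_abs_le_abs_sub _ _
    have h5 : |⟪(P + t • Q) v, v⟫| ≤ ‖(P + t • Q) v‖ * ‖v‖ := abs_real_inner_le_norm _ _
    have h6 : (b * |t| / 2 * ‖v‖) * ‖v‖ ≤ ‖(P + t • Q) v‖ * ‖v‖ := by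
      have h7 : 2 * M * ‖v‖ ^ 2 ≤ b * |t| * ‖v‖ ^ 2 :=
        mul_le_mul_of_nonneg_right ht' (by positivity)
      nlinarith
    exact le_of_mul_le_mul_right h6 hvp
  have h8 := dd_pow_le_det (P + t • Q) hbs hlow
  rwa [finrank_euclideanSpace_fin] at h8

end Pool.Agent.GNP
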