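import Pool.Agent.GNP.HI
import Pool.Agent.GNP.DD
import Mathlib.Analysis.SpecialFunctions.JapaneseBracket

/-!
The part `|σ| > σ₀` of the integral `JJ`: definite pencils.
-/

namespace Pool.Agent.GNP

open MeasureTheory Set Pool.Agent.MP_6cbfb8_an
open scoped ENNReal Real RealInnerProductSpace ContDiff

lemma aef_norm_dg {d : ℕ} (t : Fin d → ℝ) (M : ℝ) (hM : 0 ≤ M) (h : ∀ j, |t j| ≤ M) :
    ‖dg t‖ ≤ M := by
  refine ContinuousLinearMap.opNorm_le_bound _ hM fun y => ?_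
  rw [← sq_le_sq₀ (norm_nonneg _) (by positivity), EuclideanSpace.norm_sq_eq, mul_pow,
    EuclideanSpace.norm_sq_eq, Finset.mul_sum]
  refine Finset.sum_le_sum fun j _ => ?_
  rw [dg_apply, norm_mul, mul_pow]
  refine mul_le_mul_of_nonneg_right ?_ (by positivity)
  exact pow_le_pow_left₀ (norm_nonneg _) (h j) 2

lemma aef_bound {d : ℕ} (φ : E (d + 1) → ℝ) (hφ : ∀ x, ‖x‖ = 1 → ContDiffAt ℝ ∞ φ x) (r : ℝ) (hr1 : r < 1) :
    ∃ K : ℝ, 0 ≤ K ∧ ∀ y : E d, ‖y‖ ≤ r → ‖Hs (fun y => φ (join y (hs y))) y‖ ≤ K := by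
  have hc : ContinuousOn (Hs (fun y : E d => φ (join y (hs y)))) (Metric.closedBall 0 r) :=
    (continuousOn_Hs_phi hφ).mono (Metric.closedBall_subset_ball hr1)
  obtain ⟨K, hK⟩ := (isCompact_closedBall (0 : E d) r).exists_bound_of_continuousOn hc
  exact ⟨max K 0, le_max_right _ _, fun y hy =>
    (hK y (by rwa [mem_closedBall_zero_iff])).trans (le_max_left _ _)⟩

lemma aef_pb_bound {d : ℕ} (φ : E (d + 1) → ℝ) (hφ : ∀ x, ‖x‖ = 1 → ContDiffAt ℝ ∞ φ x) (r M : ℝ) (hr1 : r < 1)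
    (hM : 0 ≤ M) : ∃ K : ℝ, 0 ≤ K ∧ ∀ b : Fin (d + 1) → ℝ, (∀ j, |b j| ≤ M) → ∀ y : E d,
      ‖y‖ ≤ r → ‖Hs (fun y => pb φ b (join y (hs y))) y‖ ≤ K := by
  obtain ⟨K, hK0, hK⟩ := aef_bound φ hφ r hr1
  refine ⟨K + (2 * M + 2 * M), by positivity, fun b hb y hy => ?_⟩
  rw [Hs_pb' φ hφ b (hy.trans_lt hr1), add_sub_assoc]
  refine (norm_add_le _ _).trans (add_le_add (hK y hy) ((norm_sub_le _ _).trans ?_))
  refine add_le_add ?_ ?_
  · refine aef_norm_dg _ _ (by positivity) fun j => ?_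
    rw [abs_mul, abs_two]
    exact mul_le_mul_of_nonneg_left (hb _) (by norm_num)
  · rw [norm_smul]
    have h1 : ‖(2 * b (Fin.last d) : ℝ)‖ ≤ 2 * M := by
      rw [Real.norm_eq_abs, abs_mul, abs_two]
      exact mul_le_mul_of_nonneg_left (hb _) (by norm_num)
    calc ‖(2 * b (Fin.last d) : ℝ)‖ * ‖ContinuousLinearMap.id ℝ (E d)‖ ≤ (2 * M) * 1 :=
          mul_le_mul h1 ContinuousLinearMap.norm_id_le (norm_nonneg _) (by positivity)
      _ = 2 * M := mul_one _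

/-- Pointwise bound for large `σ`. -/
lemma aef_pt (d : ℕ) (α κ K σ : ℝ) (hα : 0 ≤ α) (P : E d →L[ℝ] E d)
    (hP : ‖P‖ ≤ K) (y : E d) (hy : ‖y‖ < 1) (h1 : 1 ≤ |σ|) (h2 : 2 * K ≤ |σ|) :
    ENNReal.ofReal ((1 + |σ|) ^ κ) * ‖(P - σ • Hs hs y).det‖ₑ ^ (-α) ≤
      ENNReal.ofReal (4 ^ (d * α) * (1 + |σ|) ^ (κ - d * α)) := by
  have hdet : (1 * |σ| / 2) ^ d ≤ |(P + σ • (-Hs hs y)).det| := by
    refine det_def d P (-Hs hs y) 1 K σ one_pos hP (fun v => ?_) (by simpa using h2)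
    have h := Hs_hs y v hy
    have e : (-Hs hs y) v = -(Hs hs y v) := rfl
    rw [e, inner_neg_left, one_mul]
    linarith
  have e1 : P + σ • (-Hs hs y) = P - σ • Hs hs y := by
    rw [smul_neg, sub_eq_add_neg]
  rw [e1, one_mul] at hdet
  have hpos : 0 < ((1 + |σ|) / 4) ^ d := by positivity
  have hle : ((1 + |σ|) / 4) ^ d ≤ |(P - σ • Hs hs y).det| := by
    refine le_trans (pow_le_pow_left₀ (by positivity) ?_ d) hdet
    linarith
  have h3 : ‖(P - σ • Hs hs y).det‖ₑ ^ (-α) ≤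
      ENNReal.ofReal ((((1 + |σ|) / 4) ^ d) ^ (-α)) := by
    rw [← ENNReal.ofReal_rpow_of_pos hpos, Real.enorm_eq_ofReal_abs, ENNReal.rpow_neg,
      ENNReal.rpow_neg]
    refine ENNReal.inv_le_inv.2 (ENNReal.rpow_le_rpow (ENNReal.ofReal_le_ofReal hle) hα)
  refine (mul_le_mul_right h3 _).trans (le_of_eq ?_)
  rw [← ENNReal.ofReal_mul (by positivity)]
  congr 1
  have h4 : (((1 + |σ|) / 4) ^ d) ^ (-α) = (1 + |σ|) ^ (-(d * α)) * 4 ^ (d * α) := by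
    rw [← Real.rpow_natCast, ← Real.rpow_mul (by positivity), Real.div_rpow (by positivity)
      (by norm_num), div_eq_mul_inv, ← Real.rpow_neg (by norm_num)]
    congr 2 <;> ring
  rw [h4, ← mul_assoc, ← Real.rpow_add (by positivity), mul_comm, sub_eq_add_neg]

/-- The far part of `JJ`, uniformly for `b` in a box. -/
theorem aef_far (d : ℕ) (hd : 1 ≤ d) (φ : E (d + 1) → ℝ) (hφ : ∀ x, ‖x‖ = 1 → ContDiffAt ℝ ∞ φ x) (r α M : ℝ)
    (hr1 : r < 1) (hα : 2 / (d : ℝ) < α) (hM : 0 ≤ M) :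
    ∃ s0 : ℝ, 0 < s0 ∧ ∃ C : ℝ≥0∞, C ≠ ⊤ ∧ ∀ b : Fin (d + 1) → ℝ, (∀ j, |b j| ≤ M) →
      ∫⁻ σ in {σ : ℝ | s0 < |σ|}, ∫⁻ y in Metric.closedBall (0 : E d) r,
        ENNReal.ofReal ((1 + |σ|) ^ (kap d α)) *
          ‖(Hs (fun y => pb φ b (join y (hs y))) y - σ • Hs hs y).det‖ₑ ^ (-α) ≤ C := by
  obtain ⟨K, hK0, hK⟩ := aef_pb_bound φ hφ r M hr1 hM
  have hd0 : (0 : ℝ) < d := by exact_mod_cast hd
  have hα0 : 0 < α := lt_trans (by positivity) hα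
  have hda : 2 < d * α := by
    rw [div_lt_iff₀ hd0] at hα
    linarith
  set I : ℝ≥0∞ := ∫⁻ σ : ℝ, ENNReal.ofReal ((1 + ‖σ‖) ^ (-((d * α + 2) / 4))) with hI
  have hIt : I < ⊤ := by
    refine finite_integral_one_add_norm (μ := volume) ?_
    rw [Module.finrank_self]
    push_cast
    linarith
  refine ⟨max (2 * K) 1, by positivity, volume (Metric.closedBall (0 : E d) r) *
    (ENNReal.ofReal (4 ^ (d * α)) * I), ?_, fun b hb => ?_⟩
  · refine ENNReal.mul_ne_top ?_ (ENNReal.mul_ne_top ENNReal.ofReal_ne_top hIt.ne)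
    exact measure_closedBall_lt_top.ne
  have hmeas : MeasurableSet {σ : ℝ | max (2 * K) 1 < |σ|} := by
    exact measurableSet_lt measurable_const (by fun_prop)
  calc ∫⁻ σ in {σ : ℝ | max (2 * K) 1 < |σ|}, ∫⁻ y in Metric.closedBall (0 : E d) r,
        ENNReal.ofReal ((1 + |σ|) ^ (kap d α)) *
          ‖(Hs (fun y => pb φ b (join y (hs y))) y - σ • Hs hs y).det‖ₑ ^ (-α)
      ≤ ∫⁻ σ in {σ : ℝ | max (2 * K) 1 < |σ|}, ∫⁻ y in Metric.closedBall (0 : E d) r,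
        ENNReal.ofReal (4 ^ (d * α) * (1 + |σ|) ^ (kap d α - d * α)) := by
        refine setLIntegral_mono' hmeas fun σ hσ => ?_
        refine setLIntegral_mono' Metric.isClosed_closedBall.measurableSet fun y hy => ?_
        rw [mem_closedBall_zero_iff] at hy
        have hσ' : max (2 * K) 1 < |σ| := hσ
        exact aef_pt d α _ K σ hα0.le _ (hK b hb y hy) y (hy.trans_lt hr1)
          (((le_max_right _ _).trans_lt hσ').le) (((le_max_left _ _).trans_lt hσ').le)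
    _ = ∫⁻ σ in {σ : ℝ | max (2 * K) 1 < |σ|}, volume (Metric.closedBall (0 : E d) r) *
        (ENNReal.ofReal (4 ^ (d * α)) *
          ENNReal.ofReal ((1 + ‖σ‖) ^ (-((d * α + 2) / 4)))) := by
        refine setLIntegral_congr_fun hmeas fun σ _ => ?_
        rw [setLIntegral_const, mul_comm, ENNReal.ofReal_mul (by positivity), Real.norm_eq_abs]
        congr 4
        unfold kap
        ring
    _ ≤ ∫⁻ σ : ℝ, volume (Metric.closedBall (0 : E d) r) *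
        (ENNReal.ofReal (4 ^ (d * α)) *
          ENNReal.ofReal ((1 + ‖σ‖) ^ (-((d * α + 2) / 4)))) := setLIntegral_le_lintegral _ _
    _ = volume (Metric.closedBall (0 : E d) r) * (ENNReal.ofReal (4 ^ (d * α)) * I) := by
        rw [lintegral_const_mul' _ _ measure_closedBall_lt_top.ne,
          lintegral_const_mul' _ _ ENNReal.ofReal_ne_top]

/-- The far part of `JJ`, uniformly for `b` in a box (all real `M`). -/
theorem far_J (d : ℕ) (hd : 3 ≤ d) (φ : E (d + 1) → ℝ) (hφ : ∀ x, ‖x‖ = 1 → ContDiffAt ℝ ∞ φ x) (r α M : ℝ)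
    (_hr : 0 < r) (hr1 : r < 1) (hα : 2 / (d : ℝ) < α) :
    ∃ s0 : ℝ, 0 ≤ s0 ∧ ∃ C : ℝ≥0∞, C ≠ ⊤ ∧ ∀ b : Fin (d + 1) → ℝ, (∀ j, |b j| ≤ M) →
      ∫⁻ σ in {σ : ℝ | s0 < |σ|}, ∫⁻ y in Metric.closedBall (0 : E d) r,
        ENNReal.ofReal ((1 + |σ|) ^ kap d α) *
          ‖(Hs (fun y => pb φ b (join y (hs y))) y - σ • Hs hs y).det‖ₑ ^ (-α) ≤ C := by
  rcases le_or_gt 0 M with hM | hM
  · obtain ⟨s0, hs0, C, hC, h⟩ := aef_far d (by omega) φ hφ r α M hr1 hα hM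
    exact ⟨s0, hs0.le, C, hC, h⟩
  · refine ⟨0, le_rfl, 0, by simp, fun b hb => ?_⟩
    exact absurd (hb 0) (by linarith [abs_nonneg (b 0)])

end Pool.Agent.GNP
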