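import Pool.Agent.GNP.HI
import Pool.Agent.GNP.DI
import Pool.Agent.GNP.FarB

/-!
ROW AEB: the integral `JJ` is finite for almost every `b`.
-/

namespace Pool.Agent.GNP

open MeasureTheory Set Pool.Agent.MP_6cbfb8_an
open scoped ENNReal Real RealInnerProductSpace ContDiff

/-- The Hessian of the phase `φ` in the chart, the diagonal operator and the height. -/
noncomputable def pen {d : ℕ} (φ : E (d + 1) → ℝ) (b : Fin (d + 1) → ℝ) (σ : ℝ) (y : E d) :
    E d →L[ℝ] E d :=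
  Hs (fun y => φ (join y (hs y))) y + dg (fun j => 2 * (b j.castSucc - b (Fin.last d)))
    - σ • Hs hs y

theorem measurable_Hs {d : ℕ} (q : E d → ℝ) : Measurable (Hs q) := measurable_fderiv ℝ (gr q)

theorem measurable_pen {d : ℕ} (φ : E (d + 1) → ℝ) :
    Measurable fun q : ((Fin (d + 1) → ℝ) × ℝ) × E d => pen φ q.1.1 q.1.2 q.2 := by
  unfold pen
  have h1 : Measurable fun q : ((Fin (d + 1) → ℝ) × ℝ) × E d =>
      Hs (fun y => φ (join y (hs y))) q.2 := (measurable_Hs _).comp measurable_snd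
  have h2 : Measurable fun q : ((Fin (d + 1) → ℝ) × ℝ) × E d =>
      dg (fun j : Fin d => 2 * (q.1.1 j.castSucc - q.1.1 (Fin.last d))) :=
    (continuous_dg.comp (f := fun q : ((Fin (d + 1) → ℝ) × ℝ) × E d =>
      fun j : Fin d => 2 * (q.1.1 j.castSucc - q.1.1 (Fin.last d))) (by fun_prop)).measurable
  have h3 : Measurable fun q : ((Fin (d + 1) → ℝ) × ℝ) × E d => q.1.2 • Hs hs q.2 :=
    (measurable_snd.comp measurable_fst).smul ((measurable_Hs (hs : E d → ℝ)).comp measurable_snd)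
  exact (h1.add h2).sub h3

/-- The integrand. -/
noncomputable def penF {d : ℕ} (α κ : ℝ) (φ : E (d + 1) → ℝ) (b : Fin (d + 1) → ℝ) (σ : ℝ)
    (y : E d) : ℝ≥0∞ :=
  ENNReal.ofReal ((1 + |σ|) ^ κ) * ‖(pen φ b σ y).det‖ₑ ^ (-α)

theorem measurable_penF {d : ℕ} (α κ : ℝ) (φ : E (d + 1) → ℝ) :
    Measurable fun q : ((Fin (d + 1) → ℝ) × ℝ) × E d => penF α κ φ q.1.1 q.1.2 q.2 := by
  unfold penF
  refine Measurable.mul ?_ ?_
  · fun_prop
  · exact ((ContinuousLinearMap.continuous_det.measurable.comp (measurable_pen φ)).enorm).pow_const _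

theorem JJ_eq_pen {d : ℕ} {φ : E (d + 1) → ℝ} (hφ : ∀ x, ‖x‖ = 1 → ContDiffAt ℝ ∞ φ x)
    {r α κ : ℝ} (hr1 : r < 1) (b : Fin (d + 1) → ℝ) :
    JJ d r α κ (fun y => pb φ b (join y (hs y))) hs =
      ∫⁻ σ : ℝ, ∫⁻ y in Metric.closedBall (0 : E d) r, penF α κ φ b σ y := by
  unfold JJ
  refine lintegral_congr fun σ => setLIntegral_congr_fun measurableSet_closedBall fun y hy => ?_
  have hy1 : ‖y‖ < 1 := lt_of_le_of_lt (by simpa using hy) hr1
  simp only [penF, pen, Hs_pb φ hφ b hy1]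

/-- The integral over the box for fixed `σ` and `y`. -/
theorem pen_box {d : ℕ} (α M : ℝ) (hα : 0 ≤ α) (hα1 : α < 1) : ∃ C : ℝ≥0∞, C ≠ ⊤ ∧
    ∀ (φ : E (d + 1) → ℝ) (σ : ℝ) (y : E d),
      ∫⁻ b in Icc (fun _ : Fin (d + 1) => -M) (fun _ => M), ‖(pen φ b σ y).det‖ₑ ^ (-α) ≤ C := by
  obtain ⟨C, hC, hC1⟩ := det_diag d α M hα hα1
  set ν : Measure ℝ := volume.restrict (Icc (-M) M) with hν
  have hνfin : ν univ ≠ ⊤ := by
    rw [hν, Measure.restrict_apply_univ]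
    exact isCompact_Icc.measure_lt_top.ne
  refine ⟨C * ν univ, ENNReal.mul_ne_top hC hνfin, fun φ σ y => ?_⟩
  rw [← pi_univ_Icc, volume_pi, Measure.restrict_pi_pi]
  have hm : Measurable fun b : Fin (d + 1) → ℝ => ‖(pen φ b σ y).det‖ₑ ^ (-α) := by
    have h1 : Measurable fun b : Fin (d + 1) → ℝ => pen φ b σ y :=
      (measurable_pen φ).comp (f := fun b : Fin (d + 1) → ℝ => ((b, σ), y)) (by fun_prop)
    exact ((ContinuousLinearMap.continuous_det.measurable.comp h1).enorm).pow_const _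
  have hmp := (measurePreserving_piFinSuccAbove (fun _ : Fin (d + 1) => ν) (Fin.last d)).symm
  rw [← hmp.lintegral_comp hm]
  rw [lintegral_prod (fun a : ℝ × (Fin d → ℝ) => ‖(pen φ ((MeasurableEquiv.piFinSuccAbove
    (fun _ : Fin (d + 1) => ℝ) (Fin.last d)).symm a) σ y).det‖ₑ ^ (-α))
    (hm.comp (MeasurableEquiv.measurable _)).aemeasurable]
  have hinner : ∀ x : ℝ, ∫⁻ t : Fin d → ℝ, ‖(pen φ ((MeasurableEquiv.piFinSuccAbove
      (fun _ : Fin (d + 1) => ℝ) (Fin.last d)).symm (x, t)) σ y).det‖ₑ ^ (-α)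
        ∂(Measure.pi fun _ : Fin d => ν) ≤ C := by
    intro x
    have h1 := hC1 (Hs (fun y => φ (join y (hs y))) y - σ • Hs hs y -
      (2 * x) • ContinuousLinearMap.id ℝ (E d))
    rw [volume_pi, Measure.restrict_pi_pi] at h1
    refine le_trans (le_of_eq ?_) h1
    refine lintegral_congr fun t => ?_
    have he : (MeasurableEquiv.piFinSuccAbove (fun _ : Fin (d + 1) => ℝ) (Fin.last d)).symm (x, t) =
        (Fin.last d).insertNth x t := rfl
    rw [he, pen]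
    have h2 : (fun j : Fin d => 2 * (((Fin.last d).insertNth x t : Fin (d + 1) → ℝ) j.castSucc -
        ((Fin.last d).insertNth x t : Fin (d + 1) → ℝ) (Fin.last d))) =
        fun j => 2 * (t j - x) := by
      funext j
      rw [Fin.insertNth_apply_same, ← Fin.succAbove_last, Fin.insertNth_apply_succAbove]
    rw [h2, dg_sub_const]
    congr 3
    abel
  calc _ ≤ ∫⁻ _ : ℝ, C ∂ν := lintegral_mono hinner
    _ = C * ν univ := lintegral_const _

/-- The part `|σ| ≤ s`, integrated over the box. -/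
theorem near_J (d : ℕ) (r α κ M s : ℝ) (hα : 0 ≤ α) (hα1 : α < 1) (hκ : 0 ≤ κ) :
    ∃ C : ℝ≥0∞, C ≠ ⊤ ∧ ∀ φ : E (d + 1) → ℝ,
    ∫⁻ b in Icc (fun _ : Fin (d + 1) => -M) (fun _ => M), ∫⁻ σ in {σ : ℝ | |σ| ≤ s},
      ∫⁻ y in Metric.closedBall (0 : E d) r, penF α κ φ b σ y ≤ C := by
  obtain ⟨C, hC, hC1⟩ := pen_box (d := d) α M hα hα1
  refine ⟨ENNReal.ofReal ((1 + s) ^ κ) * C * volume (Metric.closedBall (0 : E d) r) *
        volume {σ : ℝ | |σ| ≤ s}, ?_, fun φ => ?_⟩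
  · refine ENNReal.mul_ne_top (ENNReal.mul_ne_top (ENNReal.mul_ne_top (by simp) hC) ?_) ?_
    · exact (isCompact_closedBall _ _).measure_lt_top.ne
    · have : {σ : ℝ | |σ| ≤ s} = Icc (-s) s := by
        ext σ
        simp [abs_le]
      rw [this]
      exact isCompact_Icc.measure_lt_top.ne
  have hm := measurable_penF (d := d) α κ φ
  have hm1 : Measurable fun q : (Fin (d + 1) → ℝ) × ℝ =>
      ∫⁻ y in Metric.closedBall (0 : E d) r, penF α κ φ q.1 q.2 y := hm.lintegral_prod_right'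
  rw [lintegral_lintegral_swap hm1.aemeasurable]
  have hm2 : ∀ σ : ℝ, Measurable fun q : (Fin (d + 1) → ℝ) × E d => penF α κ φ q.1 σ q.2 := by
    intro σ
    exact hm.comp (f := fun q : (Fin (d + 1) → ℝ) × E d => ((q.1, σ), q.2)) (by fun_prop)
  have hms : MeasurableSet {σ : ℝ | |σ| ≤ s} := by
    exact measurableSet_le (by fun_prop) measurable_const
  have hbd : ∀ σ ∈ {σ : ℝ | |σ| ≤ s},
      ∫⁻ b in Icc (fun _ : Fin (d + 1) => -M) (fun _ => M),
        ∫⁻ y in Metric.closedBall (0 : E d) r, penF α κ φ b σ y ≤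
      ENNReal.ofReal ((1 + s) ^ κ) * C * volume (Metric.closedBall (0 : E d) r) := by
    intro σ hσ
    rw [lintegral_lintegral_swap (hm2 σ).aemeasurable]
    calc ∫⁻ y in Metric.closedBall (0 : E d) r,
          ∫⁻ b in Icc (fun _ : Fin (d + 1) => -M) (fun _ => M), penF α κ φ b σ y
        ≤ ∫⁻ _ in Metric.closedBall (0 : E d) r, ENNReal.ofReal ((1 + s) ^ κ) * C := by
          refine lintegral_mono fun y => ?_
          have hmb : Measurable fun b : Fin (d + 1) → ℝ => ‖(pen φ b σ y).det‖ₑ ^ (-α) := by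
            have h1 : Measurable fun b : Fin (d + 1) → ℝ => pen φ b σ y :=
              (measurable_pen φ).comp (f := fun b : Fin (d + 1) → ℝ => ((b, σ), y)) (by fun_prop)
            exact ((ContinuousLinearMap.continuous_det.measurable.comp h1).enorm).pow_const _
          simp only [penF]
          rw [lintegral_const_mul _ hmb]
          refine mul_le_mul' (ENNReal.ofReal_le_ofReal ?_) (hC1 φ σ y)
          have hσ' : |σ| ≤ s := hσ
          exact Real.rpow_le_rpow (by positivity) (by linarith) hκ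
      _ = _ := by rw [setLIntegral_const]
  rw [← setLIntegral_const]
  exact setLIntegral_mono' hms hbd

lemma pen_norm {d : ℕ} {φ : E (d + 1) → ℝ} {r M K0 : ℝ} (hM : 0 ≤ M)
    (hK0 : ∀ y : E d, ‖y‖ ≤ r → ‖Hs (fun y => φ (join y (hs y))) y‖ ≤ K0)
    {b : Fin (d + 1) → ℝ} (hb : ∀ j, |b j| ≤ M) {y : E d} (hy : ‖y‖ ≤ r) :
    ‖Hs (fun y => φ (join y (hs y))) y + dg (fun j => 2 * (b j.castSucc - b (Fin.last d)))‖ ≤
      K0 + 4 * M := by
  refine (norm_add_le _ _).trans (add_le_add (hK0 y hy) ?_)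
  refine aef_norm_dg _ _ (by positivity) fun j => ?_
  rw [abs_mul, abs_two]
  have h1 := abs_sub (b j.castSucc) (b (Fin.last d))
  linarith [hb j.castSucc, hb (Fin.last d)]

/-- The part `|σ| > s0`, uniformly for `b` in the box. -/
theorem far_pen (d : ℕ) (hd : 1 ≤ d) (r α M K0 : ℝ) (hr1 : r < 1) (hα : 2 / (d : ℝ) < α)
    (hM : 0 ≤ M) : ∃ s0 : ℝ, 0 < s0 ∧ ∃ C : ℝ≥0∞, C ≠ ⊤ ∧ ∀ φ : E (d + 1) → ℝ,
      (∀ y : E d, ‖y‖ ≤ r → ‖Hs (fun y => φ (join y (hs y))) y‖ ≤ K0) →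
      ∀ b : Fin (d + 1) → ℝ, (∀ j, |b j| ≤ M) →
      ∫⁻ σ in {σ : ℝ | s0 < |σ|}, ∫⁻ y in Metric.closedBall (0 : E d) r,
        penF α (kap d α) φ b σ y ≤ C := by
  have hd0 : (0 : ℝ) < d := by exact_mod_cast hd
  have hα0 : 0 < α := lt_trans (by positivity) hα
  have hda : 2 < d * α := by
    rw [div_lt_iff₀ hd0] at hα
    linarith
  set K : ℝ := K0 + 4 * M with hK
  set I : ℝ≥0∞ := ∫⁻ σ : ℝ, ENNReal.ofReal ((1 + ‖σ‖) ^ (-((d * α + 2) / 4))) with hI
  have hIt : I < ⊤ := by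
    refine finite_integral_one_add_norm (μ := volume) ?_
    rw [Module.finrank_self]
    push_cast
    linarith
  refine ⟨max (2 * K) 1, by positivity, volume (Metric.closedBall (0 : E d) r) *
    (ENNReal.ofReal (4 ^ (d * α)) * I), ?_, fun φ hφ b hb => ?_⟩
  · refine ENNReal.mul_ne_top ?_ (ENNReal.mul_ne_top ENNReal.ofReal_ne_top hIt.ne)
    exact measure_closedBall_lt_top.ne
  have hmeas : MeasurableSet {σ : ℝ | max (2 * K) 1 < |σ|} := by
    exact measurableSet_lt measurable_const (by fun_prop)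
  calc ∫⁻ σ in {σ : ℝ | max (2 * K) 1 < |σ|}, ∫⁻ y in Metric.closedBall (0 : E d) r,
        penF α (kap d α) φ b σ y
      ≤ ∫⁻ σ in {σ : ℝ | max (2 * K) 1 < |σ|}, ∫⁻ y in Metric.closedBall (0 : E d) r,
        ENNReal.ofReal (4 ^ (d * α) * (1 + |σ|) ^ (kap d α - d * α)) := by
        refine setLIntegral_mono' hmeas fun σ hσ => ?_
        refine setLIntegral_mono' Metric.isClosed_closedBall.measurableSet fun y hy => ?_
        rw [mem_closedBall_zero_iff] at hy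
        have hσ' : max (2 * K) 1 < |σ| := hσ
        exact aef_pt d α _ K σ hα0.le _ (pen_norm hM hφ hb hy) y (hy.trans_lt hr1)
          (((le_max_right _ _).trans_lt hσ').le) (((le_max_left _ _).trans_lt hσ').le)
    _ = ∫⁻ σ in {σ : ℝ | max (2 * K) 1 < |σ|}, volume (Metric.closedBall (0 : E d) r) *
        (ENNReal.ofReal (4 ^ (d * α)) *
          ENNReal.ofReal ((1 + ‖σ‖) ^ (-((d * α + 2) / 4)))) := by
        refine setLIntegral_congr_fun hmeas fun σ _ => ?_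
        rw [setLIntegral_const, mul_comm, ENNReal.ofReal_mul (by positivity), Real.norm_eq_abs]
        congr 4
        unfold kap
        ring
    _ ≤ ∫⁻ σ : ℝ, volume (Metric.closedBall (0 : E d) r) *
        (ENNReal.ofReal (4 ^ (d * α)) *
          ENNReal.ofReal ((1 + ‖σ‖) ^ (-((d * α + 2) / 4)))) := setLIntegral_le_lintegral _ _
    _ = volume (Metric.closedBall (0 : E d) r) * (ENNReal.ofReal (4 ^ (d * α)) * I) := by
        rw [lintegral_const_mul' _ _ measure_closedBall_lt_top.ne,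
          lintegral_const_mul' _ _ ENNReal.ofReal_ne_top]

/-- The integral of `JJ` over the box is bounded, uniformly for bounded Hessians. -/
theorem int_J_unif (d : ℕ) (hd : 3 ≤ d) (r α M K0 : ℝ) (hr1 : r < 1)
    (hα : 2 / (d : ℝ) < α) (hα1 : α < 1) (hM : 0 ≤ M) : ∃ C : ℝ≥0∞, C ≠ ⊤ ∧
    ∀ φ : E (d + 1) → ℝ, (∀ x, ‖x‖ = 1 → ContDiffAt ℝ ∞ φ x) →
      (∀ y : E d, ‖y‖ ≤ r → ‖Hs (fun y => φ (join y (hs y))) y‖ ≤ K0) →
      ∫⁻ b in Icc (fun _ : Fin (d + 1) => -M) (fun _ => M),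
        JJ d r α (kap d α) (fun y => pb φ b (join y (hs y))) hs ≤ C := by
  have hd0 : (0 : ℝ) < d := by
    have : (3 : ℝ) ≤ d := by exact_mod_cast hd
    linarith
  have hα0 : 0 < α := lt_of_le_of_lt (by positivity) hα
  have hdα : 2 < d * α := by
    rw [div_lt_iff₀ hd0] at hα
    linarith
  have hκ : 0 ≤ kap d α := by
    unfold kap
    nlinarith
  obtain ⟨s0, hs0, C, hC, hC1⟩ := far_pen d (by omega) r α M K0 hr1 hα hM
  obtain ⟨C', hC', hC1'⟩ := near_J d r α (kap d α) M s0 hα0.le hα1 hκ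
  have hmS : MeasurableSet {σ : ℝ | s0 < |σ|} := measurableSet_lt measurable_const (by fun_prop)
  refine ⟨C' + C * volume (Icc (fun _ : Fin (d + 1) => -M) (fun _ => M)),
    ENNReal.add_ne_top.2 ⟨hC', ENNReal.mul_ne_top hC isCompact_Icc.measure_lt_top.ne⟩,
    fun φ hφ hK0 => ?_⟩
  have hsplit : ∀ b ∈ Icc (fun _ : Fin (d + 1) => -M) (fun _ => M),
      JJ d r α (kap d α) (fun y => pb φ b (join y (hs y))) hs ≤
        (∫⁻ σ in {σ : ℝ | |σ| ≤ s0}, ∫⁻ y in Metric.closedBall (0 : E d) r,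
          penF α (kap d α) φ b σ y) + C := by
    intro b hb
    rw [JJ_eq_pen hφ hr1 b, ← lintegral_add_compl _ hmS, add_comm]
    have hcompl : {σ : ℝ | s0 < |σ|}ᶜ = {σ : ℝ | |σ| ≤ s0} := by
      ext σ
      simp
    rw [hcompl]
    gcongr
    exact hC1 φ hK0 b fun j => abs_le.2 ⟨hb.1 j, hb.2 j⟩
  refine (setLIntegral_mono' measurableSet_Icc hsplit).trans ?_
  rw [lintegral_add_right _ measurable_const, setLIntegral_const]
  exact add_le_add (hC1' φ) le_rfl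

theorem Hs_phi_bound {d : ℕ} {φ : E (d + 1) → ℝ} (hφ : ∀ x, ‖x‖ = 1 → ContDiffAt ℝ ∞ φ x)
    {r : ℝ} (hr1 : r < 1) :
    ∃ K : ℝ, ∀ y : E d, ‖y‖ ≤ r → ‖Hs (fun y => φ (join y (hs y))) y‖ ≤ K := by
  obtain ⟨K, hK⟩ := (isCompact_closedBall (0 : E d) r).exists_bound_of_continuousOn
    ((continuousOn_Hs_phi hφ).mono (Metric.closedBall_subset_ball hr1))
  exact ⟨K, fun y hy => hK y (by simpa using hy)⟩

/-- The integral over the box is finite. -/
theorem int_J (d : ℕ) (hd : 3 ≤ d) (φ : E (d + 1) → ℝ)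
    (hφ : ∀ x, ‖x‖ = 1 → ContDiffAt ℝ ∞ φ x) (r α M : ℝ) (hr1 : r < 1)
    (hα : 2 / (d : ℝ) < α) (hα1 : α < 1) (hM : 0 ≤ M) :
    ∫⁻ b in Icc (fun _ : Fin (d + 1) => -M) (fun _ => M),
      JJ d r α (kap d α) (fun y => pb φ b (join y (hs y))) hs ≠ ⊤ := by
  obtain ⟨K0, hK0⟩ := Hs_phi_bound hφ hr1
  obtain ⟨C, hC, h⟩ := int_J_unif d hd r α M K0 hr1 hα hα1 hM
  exact ne_top_of_le_ne_top hC (h φ hφ hK0)

theorem measurable_JJ {d : ℕ} {φ : E (d + 1) → ℝ} (hφ : ∀ x, ‖x‖ = 1 → ContDiffAt ℝ ∞ φ x)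
    {r α κ : ℝ} (hr1 : r < 1) : Measurable fun b : Fin (d + 1) → ℝ =>
      JJ d r α κ (fun y => pb φ b (join y (hs y))) hs := by
  simp_rw [JJ_eq_pen hφ hr1]
  have hm1 : Measurable fun q : (Fin (d + 1) → ℝ) × ℝ =>
      ∫⁻ y in Metric.closedBall (0 : E d) r, penF α κ φ q.1 q.2 y :=
    (measurable_penF (d := d) α κ φ).lintegral_prod_right'
  exact hm1.lintegral_prod_right'

/-- `JJ` is finite for almost every `b`; `φ` is smooth at the points of the sphere. -/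
theorem ae_J_at (d : ℕ) (hd : 3 ≤ d) (φ : E (d + 1) → ℝ)
    (hφ : ∀ x, ‖x‖ = 1 → ContDiffAt ℝ ∞ φ x) (r α : ℝ) (hr1 : r < 1)
    (hα : 2 / (d : ℝ) < α) (hα1 : α < 1) :
    ∀ᵐ b : Fin (d + 1) → ℝ, JJ d r α (kap d α) (fun y => pb φ b (join y (hs y))) hs ≠ ⊤ := by
  have h1 : ∀ᵐ b : Fin (d + 1) → ℝ, ∀ M : ℕ, b ∈ Icc (fun _ : Fin (d + 1) => -(M : ℝ))
      (fun _ => (M : ℝ)) → JJ d r α (kap d α) (fun y => pb φ b (join y (hs y))) hs ≠ ⊤ := by
    rw [ae_all_iff]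
    intro M
    rw [← ae_restrict_iff' measurableSet_Icc]
    have h2 := ae_lt_top (measurable_JJ hφ hr1)
      (int_J d hd φ hφ r α M hr1 hα hα1 (Nat.cast_nonneg M))
    filter_upwards [h2] with b hb
    exact hb.ne
  filter_upwards [h1] with b hb
  obtain ⟨M, hM⟩ := exists_nat_ge (∑ j, |b j|)
  have h3 : ∀ j, |b j| ≤ M := fun j =>
    (Finset.single_le_sum (f := fun j => |b j|) (fun j _ => abs_nonneg _) (Finset.mem_univ j)).trans
      hM
  exact hb M ⟨fun j => (abs_le.1 (h3 j)).1, fun j => (abs_le.1 (h3 j)).2⟩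

theorem ae_J (d : ℕ) (hd : 3 ≤ d) (φ : E (d + 1) → ℝ) (hφ : ContDiff ℝ ∞ φ) (r α : ℝ)
    (_hr : 0 < r) (hr1 : r < 1) (hα : 2 / (d : ℝ) < α) (hα1 : α < 1) :
    ∀ᵐ b : Fin (d + 1) → ℝ, JJ d r α (kap d α) (fun y => pb φ b (join y (hs y))) hs ≠ ⊤ :=
  ae_J_at d hd φ (fun _ _ => hφ.contDiffAt) r α hr1 hα hα1

end Pool.Agent.GNP
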