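import Pool.Agent.GNP.S5j
import Pool.Agent.GNP.AS1

/-!
Phases in all dimensions: the contribution of one level, when at least `j` roots are far.
-/

namespace Pool.Agent.GNP

open MeasureTheory Set
open scoped ENNReal Real

theorem level_int_j (d j : ℕ) (hj : 1 ≤ j) (hjd : 2 * j ≤ d) (α : ℝ) (hα : 2 / (d : ℝ) < α)
    (hα1 : j * α < 2) (hα3 : 2 / 3 ≤ j * α) (c1 C2 : ℝ) (hc1 : 0 < c1) (hC2 : 0 < C2) :
    ∃ K : ℝ, 0 < K ∧ ∀ {Y : Type} [MeasurableSpace Y] (μ : Measure Y) (r M : ℝ)
      (ρ : Y → Fin d → ℝ) (F : Y → Set ℝ) (N : Set Y) (e : Y → ℝ),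
      0 < r → r ≤ 1 → r ≤ c1 → 0 ≤ M → Measurable e → MeasurableSet N →
      (∀ y, ∀ σ ∈ F y, ¬ Farj j (c1 / r ^ 3) (ρ y) σ → y ∈ N) →
      (∀ y, ∀ σ ∈ F y, ∃ I : Finset (Fin d), j ≤ I.card ∧ ∀ i ∈ I, e y ≤ C2 * |σ - ρ y i|) →
      (∀ δ, 1 / r ^ 2 ≤ δ → μ {y | y ∈ N ∧ e y ≤ δ} ≤ ENNReal.ofReal (M * δ * r ^ 3)) →
      ∫⁻ y, (∫⁻ σ in F y, ENNReal.ofReal ((∏ i, fr r |σ - ρ y i|) ^ α) ∂volume) ∂μ ≤
        ENNReal.ofReal K * (μ univ + ENNReal.ofReal M) := by
  obtain ⟨Ka, hKa, ha⟩ := S5a d (by omega) α hα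
  obtain ⟨Kb, hKb, hb⟩ := S5bj d j hj hjd α hα
  set τ : ℝ := j * α with hτ
  have hα0 : 0 < τ := by linarith
  -- the constants
  set x : ℝ := 2 ^ (1 - τ / 2) with hx
  have hx1 : 1 < x := Real.one_lt_rpow (by norm_num) (by linarith)
  have hx2 : x ≤ 2 := by
    calc x ≤ (2 : ℝ) ^ (1 : ℝ) := Real.rpow_le_rpow_of_exponent_le (by norm_num) (by linarith)
      _ = 2 := Real.rpow_one 2
  have hxm : 0 < x - 1 := by linarith
  set A : ℝ := Kb * (c1 ^ (-(τ / 2)) + 2) with hA
  have hA0 : 0 < A := by positivity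
  refine ⟨A + Ka * (C2 + 1) + 2 * Kb * (C2 + 1) * (4 / (x - 1)), by positivity, ?_⟩
  intro Y _ μ r M ρ F N e hr hr1 hrc hM he hN h1 h2 h3
  set D0 : ℝ := C2 + 1 with hD0
  have hD00 : 0 < D0 := by positivity
  have hr2 : 0 < 1 / r ^ 2 := by positivity
  obtain ⟨m, hm1, hm2⟩ := exists_nat_pow_near (x := 1 / r) (y := 2)
    (by rw [le_div_iff₀ hr]; linarith) (by norm_num)
  set n := m + 1 with hn
  have hn1 : 1 / r ≤ 2 ^ n := hm2.le
  have hn2 : (2 : ℝ) ^ n ≤ 2 / r := by
    rw [hn, pow_succ]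
    calc (2 : ℝ) ^ m * 2 ≤ 1 / r * 2 := by gcongr
      _ = 2 / r := by ring
  -- the weights
  set B : ℕ → ℝ := fun k => if k = 0 then Ka / r else 2 * Kb * r ^ (τ - 1) * 2 ^ (-(k * τ / 2))
    with hB
  have hB0 : ∀ k, 0 ≤ B k := fun k => by
    rw [hB]
    dsimp only
    split_ifs <;> positivity
  set Nk : ℕ → Set Y := fun k => {y | y ∈ N ∧ e y ≤ D0 * 2 ^ k * (1 / r ^ 2)} with hNk
  have hNkm : ∀ k, MeasurableSet (Nk k) := fun k =>
    hN.inter (measurableSet_le he measurable_const)
  have hNkμ : ∀ k, μ (Nk k) ≤ ENNReal.ofReal (M * (D0 * 2 ^ k) * r) := by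
    intro k
    have h4 : 1 / r ^ 2 ≤ D0 * 2 ^ k * (1 / r ^ 2) := by
      have h5 : (1 : ℝ) ≤ D0 * 2 ^ k := by
        have : (1 : ℝ) ≤ 2 ^ k := one_le_pow₀ (by norm_num)
        nlinarith
      nlinarith
    refine (h3 _ h4).trans (le_of_eq ?_)
    congr 1
    field_simp
  -- the pointwise bound
  have hpt : ∀ y, ∫⁻ σ in F y, ENNReal.ofReal ((∏ i, fr r |σ - ρ y i|) ^ α) ≤
      ENNReal.ofReal A + ∑ k ∈ Finset.range (n + 1),
        (Nk k).indicator (fun _ => ENNReal.ofReal (B k)) y := by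
    intro y
    have hfar : ∀ T, 1 / r ^ 2 ≤ T → (∀ σ ∈ F y, Farj j T (ρ y) σ) →
        ∫⁻ σ in F y, ENNReal.ofReal ((∏ i, fr r |σ - ρ y i|) ^ α) ≤
          ENNReal.ofReal (Kb * (r⁻¹ * T ^ (-(τ / 2)) + 1)) := by
      intro T hT hF
      exact (lintegral_mono_set fun σ hσ => hF σ hσ).trans (hb r T (ρ y) hr hr1 hT)
    by_cases hy : y ∈ N
    · by_cases hy0 : e y ≤ D0 * (1 / r ^ 2)
      · -- the first class
        have hmem : y ∈ Nk 0 := ⟨hy, by simpa using hy0⟩
        have h5 : ENNReal.ofReal (B 0) ≤ ∑ k ∈ Finset.range (n + 1),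
            (Nk k).indicator (fun _ => ENNReal.ofReal (B k)) y := by
          have := Finset.single_le_sum
            (f := fun k => (Nk k).indicator (fun _ => ENNReal.ofReal (B k)) y)
            (fun k _ => zero_le) (Finset.mem_range.2 (Nat.succ_pos n))
          rwa [indicator_of_mem hmem] at this
        have h6 : B 0 = Ka / r := by simp [hB]
        refine (setLIntegral_le_lintegral _ _).trans ((ha r (ρ y) hr hr1).trans ?_)
        rw [← h6]
        exact h5.trans le_add_self
      · push Not at hy0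
        have he0 : 0 < e y := lt_trans (by positivity) hy0
        have hTe : ∀ σ ∈ F y, Farj j (e y / D0) (ρ y) σ := by
          intro σ hσ
          obtain ⟨I, hI, hi⟩ := h2 y σ hσ
          refine ⟨I, hI, fun i hiI => ?_⟩
          rw [div_le_iff₀ hD00]
          nlinarith [abs_nonneg (σ - ρ y i), hi i hiI]
        set X := e y * r ^ 2 / D0 with hX
        have hX1 : 1 < X := by
          rw [hX, lt_div_iff₀ hD00]
          rw [mul_one_div, div_lt_iff₀ (by positivity)] at hy0
          linarith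
        have hTX : e y / D0 = X * (1 / r ^ 2) := by
          rw [hX]
          field_simp
        by_cases hXn : X < 2 ^ n
        · obtain ⟨l, hl1, hl2⟩ := exists_nat_pow_near hX1.le (show (1 : ℝ) < 2 by norm_num)
          have hln : l + 1 < n + 1 := by
            have : (2 : ℝ) ^ l < 2 ^ n := lt_of_le_of_lt hl1 hXn
            have := (pow_lt_pow_iff_right₀ (show (1 : ℝ) < 2 by norm_num)).1 this
            omega
          have hmem : y ∈ Nk (l + 1) := by
            refine ⟨hy, ?_⟩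
            have h7 : e y = D0 * (X * (1 / r ^ 2)) := by
              rw [← hTX]
              field_simp
            rw [h7]
            have : X * (1 / r ^ 2) ≤ 2 ^ (l + 1) * (1 / r ^ 2) := by gcongr
            nlinarith
          have h5 : ENNReal.ofReal (B (l + 1)) ≤ ∑ k ∈ Finset.range (n + 1),
              (Nk k).indicator (fun _ => ENNReal.ofReal (B k)) y := by
            have := Finset.single_le_sum
              (f := fun k => (Nk k).indicator (fun _ => ENNReal.ofReal (B k)) y)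
              (fun k _ => zero_le) (Finset.mem_range.2 hln)
            rwa [indicator_of_mem hmem] at this
          have hT1 : 2 ^ l * (1 / r ^ 2) ≤ e y / D0 := by
            rw [hTX]
            gcongr
          have hT2 : 1 / r ^ 2 ≤ e y / D0 := by
            refine le_trans ?_ hT1
            have : (1 : ℝ) ≤ 2 ^ l := one_le_pow₀ (by norm_num)
            nlinarith
          refine (hfar _ hT2 hTe).trans ?_
          have h8 : (e y / D0) ^ (-(τ / 2)) ≤ (2 ^ l * (1 / r ^ 2)) ^ (-(τ / 2)) :=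
            Real.rpow_le_rpow_of_nonpos (by positivity) hT1 (by linarith)
          have h9 : r⁻¹ * (2 ^ l * (1 / r ^ 2)) ^ (-(τ / 2)) ≤
              2 * (r ^ (τ - 1) * 2 ^ (-(((l + 1 : ℕ) : ℝ) * τ / 2))) := by
            rw [Real.mul_rpow (by positivity) (by positivity), ← Real.rpow_natCast 2 l,
              ← Real.rpow_mul (by norm_num), one_div, Real.inv_rpow (by positivity),
              ← Real.rpow_natCast r 2, ← Real.rpow_mul hr.le, ← Real.rpow_neg hr.le,
              show -(((2 : ℕ) : ℝ) * (-(τ / 2))) = τ by push_cast; ring,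
              show (-(((l + 1 : ℕ) : ℝ) * τ / 2)) = (l : ℝ) * (-(τ / 2)) + (-(τ / 2)) by
                push_cast; ring, Real.rpow_add (by norm_num), Real.rpow_sub hr, Real.rpow_one]
            have h10 : (1 : ℝ) ≤ 2 * 2 ^ (-(τ / 2)) := by
              have : (2 : ℝ) ^ (-(1 : ℝ)) ≤ 2 ^ (-(τ / 2)) :=
                Real.rpow_le_rpow_of_exponent_le (by norm_num) (by linarith)
              rw [Real.rpow_neg_one] at this
              linarith
            have h11 : 0 ≤ r ^ τ / r * 2 ^ ((l : ℝ) * (-(τ / 2))) := by positivity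
            calc r⁻¹ * (2 ^ ((l : ℝ) * (-(τ / 2))) * r ^ τ)
                = (r ^ τ / r * 2 ^ ((l : ℝ) * (-(τ / 2)))) * 1 := by
                  field_simp
              _ ≤ (r ^ τ / r * 2 ^ ((l : ℝ) * (-(τ / 2)))) * (2 * 2 ^ (-(τ / 2))) := by gcongr
              _ = _ := by ring
          have h12 : Kb * (r⁻¹ * (e y / D0) ^ (-(τ / 2)) + 1) ≤ A + B (l + 1) := by
            have h13 : B (l + 1) = 2 * Kb * r ^ (τ - 1) * 2 ^ (-(((l + 1 : ℕ) : ℝ) * τ / 2)) := by
              simp [hB]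
            have h14 : r⁻¹ * (e y / D0) ^ (-(τ / 2)) ≤
                2 * (r ^ (τ - 1) * 2 ^ (-(((l + 1 : ℕ) : ℝ) * τ / 2))) :=
              le_trans (by gcongr) h9
            have h15 : 0 < c1 ^ (-(τ / 2)) := by positivity
            rw [h13, hA]
            nlinarith
          calc ENNReal.ofReal (Kb * (r⁻¹ * (e y / D0) ^ (-(τ / 2)) + 1))
              ≤ ENNReal.ofReal (A + B (l + 1)) := ENNReal.ofReal_le_ofReal h12
            _ = ENNReal.ofReal A + ENNReal.ofReal (B (l + 1)) :=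
                ENNReal.ofReal_add hA0.le (hB0 _)
            _ ≤ _ := by gcongr
        · push Not at hXn
          have hT1 : 1 / r ^ 3 ≤ e y / D0 := by
            rw [hTX]
            calc 1 / r ^ 3 = (1 / r) * (1 / r ^ 2) := by field_simp
              _ ≤ X * (1 / r ^ 2) := by
                have : 1 / r ≤ X := hn1.trans hXn
                gcongr
          have hT2 : 1 / r ^ 2 ≤ e y / D0 := by
            rw [hTX]
            nlinarith
          refine (hfar _ hT2 hTe).trans (le_trans ?_ le_self_add)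
          refine ENNReal.ofReal_le_ofReal ?_
          have h5 := as1_far_le hα3 one_pos hr hr1 hT1
          rw [Real.one_rpow] at h5
          have h15 : 0 < c1 ^ (-(τ / 2)) := by positivity
          rw [hA]
          nlinarith
    · -- outside `N`
      have hT2 : 1 / r ^ 2 ≤ c1 / r ^ 3 := by
        rw [div_le_div_iff₀ (by positivity) (by positivity)]
        nlinarith [pow_pos hr 2]
      refine (hfar (c1 / r ^ 3) hT2 fun σ hσ => ?_).trans (le_trans ?_ le_self_add)
      · by_contra hcon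
        exact hy (h1 y σ hσ hcon)
      · refine ENNReal.ofReal_le_ofReal ?_
        have h5 := as1_far_le hα3 hc1 hr hr1 (le_refl (c1 / r ^ 3))
        rw [hA]
        nlinarith
  -- integrate
  refine (lintegral_mono hpt).trans ?_
  rw [lintegral_add_left measurable_const, lintegral_const,
    lintegral_finsetSum' _ fun k _ => (measurable_const.indicator (hNkm k)).aemeasurable]
  have hterm : ∀ k ∈ Finset.range (n + 1),
      ∫⁻ y, (Nk k).indicator (fun _ => ENNReal.ofReal (B k)) y ∂μ ≤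
        ENNReal.ofReal (M * (if k = 0 then Ka * D0 else 2 * Kb * D0 * r ^ τ * x ^ k)) := by
    intro k _
    rw [lintegral_indicator_const (hNkm k)]
    refine (mul_le_mul_right (hNkμ k) _).trans ?_
    rw [← ENNReal.ofReal_mul (hB0 k)]
    refine ENNReal.ofReal_le_ofReal (le_of_eq ?_)
    by_cases hk : k = 0
    · subst hk
      simp only [hB, if_true, pow_zero, mul_one]
      field_simp
    · simp only [hB, if_neg hk]
      have h5 : x ^ k = 2 ^ k * 2 ^ (-(k * τ / 2)) := by
        rw [hx, ← Real.rpow_natCast, ← Real.rpow_mul (by norm_num), ← Real.rpow_natCast 2 k,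
          ← Real.rpow_add (by norm_num)]
        congr 1
        ring
      rw [h5, Real.rpow_sub hr, Real.rpow_one]
      field_simp
  have hsum : ∑ k ∈ Finset.range (n + 1),
      (if k = 0 then Ka * D0 else 2 * Kb * D0 * r ^ τ * x ^ k) ≤
      Ka * D0 + 2 * Kb * D0 * (4 / (x - 1)) := by
    rw [Finset.sum_range_succ']
    simp only [if_true, Nat.succ_ne_zero, if_false]
    rw [← Finset.mul_sum, add_comm]
    have h5 : ∑ k ∈ Finset.range n, x ^ (k + 1) ≤ x * (x ^ n / (x - 1)) := by
      have h6 : ∑ k ∈ Finset.range n, x ^ (k + 1) = x * ∑ k ∈ Finset.range n, x ^ k := by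
        rw [Finset.mul_sum]
        exact Finset.sum_congr rfl fun k _ => by ring
      rw [h6, geom_sum_eq hx1.ne']
      gcongr
      linarith
    have h7 : x ^ n ≤ 2 * r ^ (-(1 - τ / 2)) := by
      have h8 : x ^ n = ((2 : ℝ) ^ n) ^ (1 - τ / 2) := by
        rw [hx, ← Real.rpow_natCast, ← Real.rpow_mul (by norm_num), ← Real.rpow_natCast 2 n,
          ← Real.rpow_mul (by norm_num), mul_comm]
      rw [h8]
      calc ((2 : ℝ) ^ n) ^ (1 - τ / 2) ≤ (2 / r) ^ (1 - τ / 2) :=
            Real.rpow_le_rpow (by positivity) hn2 (by linarith)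
        _ = x * r ^ (-(1 - τ / 2)) := by
            rw [Real.div_rpow (by norm_num) hr.le, Real.rpow_neg hr.le, div_eq_mul_inv]
        _ ≤ _ := by gcongr
    have h9 : r ^ τ * (x * (x ^ n / (x - 1))) ≤ 4 / (x - 1) := by
      have h10 : r ^ τ * r ^ (-(1 - τ / 2)) ≤ 1 := by
        rw [← Real.rpow_add hr]
        exact as1_rpow_le_one hr hr1 (by linarith)
      calc r ^ τ * (x * (x ^ n / (x - 1))) = (x * (r ^ τ * x ^ n)) / (x - 1) := by
            field_simp
        _ ≤ (2 * (r ^ τ * (2 * r ^ (-(1 - τ / 2))))) / (x - 1) := by gcongr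
        _ = (4 * (r ^ τ * r ^ (-(1 - τ / 2)))) / (x - 1) := by ring
        _ ≤ (4 * 1) / (x - 1) := by gcongr
        _ = _ := by rw [mul_one]
    have h11 : 0 ≤ 2 * Kb * D0 := by positivity
    calc Ka * D0 + 2 * Kb * D0 * r ^ τ * ∑ k ∈ Finset.range n, x ^ (k + 1)
        ≤ Ka * D0 + 2 * Kb * D0 * (r ^ τ * (x * (x ^ n / (x - 1)))) := by
          rw [mul_assoc]
          gcongr
      _ ≤ _ := by gcongr
  refine (add_le_add_right (Finset.sum_le_sum hterm) _).trans ?_
  rw [← ENNReal.ofReal_sum_of_nonneg (fun k _ => by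
    split_ifs <;> positivity), ← Finset.mul_sum]
  have hfin : ENNReal.ofReal (M * ∑ k ∈ Finset.range (n + 1),
      (if k = 0 then Ka * D0 else 2 * Kb * D0 * r ^ τ * x ^ k)) ≤
      ENNReal.ofReal (A + Ka * D0 + 2 * Kb * D0 * (4 / (x - 1))) * ENNReal.ofReal M := by
    rw [← ENNReal.ofReal_mul (by positivity)]
    refine ENNReal.ofReal_le_ofReal ?_
    rw [mul_comm]
    refine mul_le_mul_of_nonneg_right (hsum.trans ?_) hM
    linarith
  rw [mul_add (ENNReal.ofReal _) (μ univ)]
  refine add_le_add ?_ hfin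
  refine mul_le_mul_left (ENNReal.ofReal_le_ofReal ?_) _
  have h5 : 0 ≤ Ka * D0 := by positivity
  have h6 : 0 ≤ 2 * Kb * D0 * (4 / (x - 1)) := by positivity
  linarith

end Pool.Agent.GNP
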