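import Pool.Agent.GNP.AS1

/-!
Every phase in few dimensions: the sum over the levels and the integration in `s`.
-/

namespace Pool.Agent.GNP

open MeasureTheory Set
open scoped ENNReal Real

theorem as2_abs (d : ℕ) (hd : 2 ≤ d) (α : ℝ) (hα : 2 / (d : ℝ) < α)
    (hα2 : α < 2) (hα3 : 2 / 3 ≤ α) (c1 C2 C3 : ℝ) (hc1 : 0 < c1) (hC2 : 0 < C2)
    (hC3 : 0 < C3) :
    ∃ K : ℝ, 0 < K ∧ ∀ {Y : Type} [MeasurableSpace Y] (μ : Measure Y) [SFinite μ] (f : ℝ → ℝ≥0∞)
      (S0 : Set ℝ) (n : ℕ) (D : ℝ≥0∞) (P M : ℝ) (G : ℕ → Set (ℝ × Y)) (W : ℕ → ℝ × Y → ℝ)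
      (ρ : Y → Fin d → ℝ) (N : ℕ → Set Y) (e : Y → ℝ),
      MeasurableSet S0 → 0 ≤ M → Measurable e →
      (∀ k ≤ n, MeasurableSet (G k)) → (∀ k ≤ n, Measurable (W k)) →
      (∀ s ∈ S0, f s ≤ D * ∑ k ∈ Finset.range (n + 1), ∫⁻ y,
        (G k).indicator (fun z => ENNReal.ofReal (W k z ^ α)) (s, y) ∂μ) →
      (∀ k ≤ n, ∀ s y, (s, y) ∈ G k → 0 ≤ W k (s, y) ∧
        W k (s, y) ≤ C3 * ∏ i, fr ((2 : ℝ) ^ k)⁻¹ |s - ρ y i|) →
      (∀ k ≤ n, (2 : ℝ) ^ k ≤ P ∨ (((2 : ℝ) ^ k)⁻¹ ≤ c1 ∧ MeasurableSet (N k) ∧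
        (∀ s y, (s, y) ∈ G k → (∀ i, |s - ρ y i| ≤ c1 / (((2 : ℝ) ^ k)⁻¹) ^ 3) → y ∈ N k) ∧
        (∀ s y, (s, y) ∈ G k → ∃ i, e y ≤ C2 * |s - ρ y i|) ∧
        (∀ δ, 1 / (((2 : ℝ) ^ k)⁻¹) ^ 2 ≤ δ →
          μ {y | y ∈ N k ∧ e y ≤ δ} ≤ ENNReal.ofReal (M * δ * (((2 : ℝ) ^ k)⁻¹) ^ 3)))) →
      ∫⁻ s in S0, f s ≤
        D * ((n + 1) * (ENNReal.ofReal K * (ENNReal.ofReal P * μ univ + μ univ +
          ENNReal.ofReal M))) := by
  obtain ⟨K1, hK1, h5a⟩ := S5a d (by omega) α hα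
  obtain ⟨K2, hK2, hlev⟩ := level_int d hd α hα hα2 hα3 c1 C2 hc1 hC2
  have hα0 : 0 < α := by linarith
  refine ⟨C3 ^ α * (K1 + K2), by positivity, ?_⟩
  intro Y _ μ _ f S0 n D P M G W ρ N e hS0 hM he hG hW hf hWle hk
  -- one level
  have hone : ∀ k ≤ n, ∫⁻ s, ∫⁻ y, (G k).indicator (fun z => ENNReal.ofReal (W k z ^ α)) (s, y) ∂μ ≤
      ENNReal.ofReal (C3 ^ α * (K1 + K2)) * (ENNReal.ofReal P * μ univ + μ univ +
        ENNReal.ofReal M) := by
    intro k hkn
    have hr : (0 : ℝ) < ((2 : ℝ) ^ k)⁻¹ := by positivity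
    have hr1 : ((2 : ℝ) ^ k)⁻¹ ≤ 1 := inv_le_one_of_one_le₀ (one_le_pow₀ (by norm_num))
    set r : ℝ := ((2 : ℝ) ^ k)⁻¹ with hrd
    have hmeas : Measurable (Function.uncurry fun (s : ℝ) (y : Y) =>
        (G k).indicator (fun z => ENNReal.ofReal (W k z ^ α)) (s, y)) := by
      refine Measurable.indicator ?_ (hG k hkn)
      exact ((hW k hkn).pow_const α).ennreal_ofReal
    rw [lintegral_lintegral_swap hmeas.aemeasurable]
    -- pointwise in `y`
    have hy : ∀ y, ∫⁻ s, (G k).indicator (fun z => ENNReal.ofReal (W k z ^ α)) (s, y) ≤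
        ENNReal.ofReal (C3 ^ α) * ∫⁻ s in {s | (s, y) ∈ G k},
          ENNReal.ofReal ((∏ i, fr r |s - ρ y i|) ^ α) := by
      intro y
      have hms : MeasurableSet {s | (s, y) ∈ G k} := measurable_prodMk_right (hG k hkn)
      rw [← lintegral_const_mul' _ _ ENNReal.ofReal_ne_top, ← lintegral_indicator hms]
      refine lintegral_mono fun s => ?_
      by_cases hs : (s, y) ∈ G k
      · have hs' : s ∈ {s | (s, y) ∈ G k} := hs
        rw [indicator_of_mem hs, indicator_of_mem hs', ← ENNReal.ofReal_mul (by positivity)]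
        refine ENNReal.ofReal_le_ofReal ?_
        rw [← Real.mul_rpow hC3.le (Finset.prod_nonneg fun i _ => fr_nonneg _ _)]
        exact Real.rpow_le_rpow (hWle k hkn s y hs).1 (hWle k hkn s y hs).2 hα0.le
      · rw [indicator_of_notMem hs]
        exact zero_le
    refine (lintegral_mono hy).trans ?_
    rw [lintegral_const_mul' _ _ ENNReal.ofReal_ne_top, ENNReal.ofReal_mul (by positivity),
      mul_assoc]
    refine mul_le_mul_right ?_ _
    rcases hk k hkn with hP | ⟨hrc, hNm, h1, h2, h3⟩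
    · -- low levels
      calc ∫⁻ y, ∫⁻ s in {s | (s, y) ∈ G k}, ENNReal.ofReal ((∏ i, fr r |s - ρ y i|) ^ α) ∂volume ∂μ
          ≤ ∫⁻ _y, ENNReal.ofReal (K1 * P) ∂μ := by
            refine lintegral_mono fun y => ?_
            refine (setLIntegral_le_lintegral _ _).trans ((h5a r (ρ y) hr hr1).trans ?_)
            refine ENNReal.ofReal_le_ofReal ?_
            rw [hrd, div_inv_eq_mul]
            gcongr
        _ = ENNReal.ofReal K1 * (ENNReal.ofReal P * μ univ) := by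
            rw [lintegral_const, ENNReal.ofReal_mul hK1.le, mul_assoc]
        _ ≤ ENNReal.ofReal (K1 + K2) * (ENNReal.ofReal P * μ univ + μ univ +
              ENNReal.ofReal M) := by
            refine mul_le_mul' (ENNReal.ofReal_le_ofReal (by linarith)) ?_
            rw [add_assoc]
            exact le_self_add
    · -- high levels
      refine (hlev μ r M ρ (fun y => {s | (s, y) ∈ G k}) (N k) e hr hr1 hrc hM he hNm
        (fun y σ hσ => h1 σ y hσ) (fun y σ hσ => h2 σ y hσ) h3).trans ?_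
      refine mul_le_mul' (ENNReal.ofReal_le_ofReal (by linarith)) ?_
      gcongr
      exact le_add_self
  -- the sum
  calc ∫⁻ s in S0, f s
      ≤ ∫⁻ s in S0, D * ∑ k ∈ Finset.range (n + 1), ∫⁻ y,
          (G k).indicator (fun z => ENNReal.ofReal (W k z ^ α)) (s, y) ∂μ :=
        setLIntegral_mono' hS0 hf
    _ ≤ ∫⁻ s, D * ∑ k ∈ Finset.range (n + 1), ∫⁻ y,
          (G k).indicator (fun z => ENNReal.ofReal (W k z ^ α)) (s, y) ∂μ :=
        setLIntegral_le_lintegral _ _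
    _ = D * ∑ k ∈ Finset.range (n + 1), ∫⁻ s, ∫⁻ y,
          (G k).indicator (fun z => ENNReal.ofReal (W k z ^ α)) (s, y) ∂μ := by
        have hm : ∀ k ∈ Finset.range (n + 1), Measurable fun s : ℝ => ∫⁻ y,
            (G k).indicator (fun z => ENNReal.ofReal (W k z ^ α)) (s, y) ∂μ := by
          intro k hk'
          have hkn : k ≤ n := Nat.lt_succ_iff.1 (Finset.mem_range.1 hk')
          have hmeas : Measurable (Function.uncurry fun (s : ℝ) (y : Y) =>
              (G k).indicator (fun z => ENNReal.ofReal (W k z ^ α)) (s, y)) := by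
            refine Measurable.indicator ?_ (hG k hkn)
            exact ((hW k hkn).pow_const α).ennreal_ofReal
          exact hmeas.lintegral_prod_right'
        rw [lintegral_const_mul _ (Finset.measurable_sum _ hm), lintegral_finsetSum _ hm]
    _ ≤ D * ∑ k ∈ Finset.range (n + 1), (ENNReal.ofReal (C3 ^ α * (K1 + K2)) *
          (ENNReal.ofReal P * μ univ + μ univ + ENNReal.ofReal M)) := by
        refine mul_le_mul_right (Finset.sum_le_sum fun k hk' => ?_) _
        exact hone k (Nat.lt_succ_iff.1 (Finset.mem_range.1 hk'))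
    _ = _ := by
        rw [Finset.sum_const, Finset.card_range, nsmul_eq_mul]
        push_cast
        rfl

end Pool.Agent.GNP
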