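import Mathlib

/-! ## Calculus of smooth functions with bounded derivatives -/

namespace Pool.Agent.GNP

open Set
open scoped ContDiff Nat

variable {X Y Z W : Type*} [NormedAddCommGroup X] [NormedSpace ℝ X]
  [NormedAddCommGroup Y] [NormedSpace ℝ Y] [NormedAddCommGroup Z] [NormedSpace ℝ Z]
  [NormedAddCommGroup W] [NormedSpace ℝ W]

/-- Smooth functions whose derivatives of order `j ≥ k` are bounded by `A j`. -/
structure Bk (k : ℕ) (A : ℕ → ℝ) (f : X → Y) : Prop where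
  sm : ContDiff ℝ ∞ f
  bd : ∀ j, k ≤ j → ∀ x, ‖iteratedFDeriv ℝ j f x‖ ≤ A j

namespace Bk

variable {k : ℕ} {A B : ℕ → ℝ} {f g : X → Y}

theorem mono (h : Bk k A f) {l : ℕ} (hl : k ≤ l) (hB : ∀ j, l ≤ j → A j ≤ B j) : Bk l B f :=
  ⟨h.sm, fun j hj x => (h.bd j (hl.trans hj) x).trans (hB j hj)⟩

theorem fderiv (h : Bk (k + 1) A f) : Bk k (fun j => A (j + 1)) (fderiv ℝ f) :=
  ⟨h.sm.fderiv_right (by simp), fun j hj x => by
    rw [norm_iteratedFDeriv_fderiv]
    exact h.bd (j + 1) (by omega) x⟩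

theorem of_fderiv (hf : ContDiff ℝ ∞ f) (h : Bk k A (_root_.fderiv ℝ f)) :
    Bk (k + 1) (fun j => A (j - 1)) f :=
  ⟨hf, fun j hj x => by
    obtain ⟨j, rfl⟩ : ∃ i, j = i + 1 := ⟨j - 1, by omega⟩
    rw [← norm_iteratedFDeriv_fderiv]
    exact h.bd j (by omega) x⟩

theorem clm (h : Bk k A f) (L : Y →L[ℝ] Z) : Bk k (fun j => ‖L‖ * A j) (fun x => L (f x)) :=
  ⟨L.contDiff.comp h.sm, fun j hj x => by
    refine (L.norm_iteratedFDeriv_comp_left (n := j) (N := ∞) h.sm.contDiffAt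
      (by exact_mod_cast le_top)).trans ?_
    exact mul_le_mul_of_nonneg_left (h.bd j hj x) (norm_nonneg _)⟩

theorem add (hf : Bk k A f) (hg : Bk k B g) : Bk k (fun j => A j + B j) (fun x => f x + g x) :=
  ⟨hf.sm.add hg.sm, fun j hj x => by
    have h1 : iteratedFDeriv ℝ j (fun x => f x + g x) x
        = iteratedFDeriv ℝ j f x + iteratedFDeriv ℝ j g x := by
      have := iteratedFDeriv_add_apply (𝕜 := ℝ) (i := j) (f := f) (g := g) (x := x)
        (hf.sm.contDiffAt.of_le (by exact_mod_cast le_top))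
        (hg.sm.contDiffAt.of_le (by exact_mod_cast le_top))
      exact this
    rw [h1]
    exact (norm_add_le _ _).trans (add_le_add (hf.bd j hj x) (hg.bd j hj x))⟩

theorem neg (hf : Bk k A f) : Bk k A (fun x => - f x) :=
  ⟨hf.sm.neg, fun j hj x => by
    have h1 : iteratedFDeriv ℝ j (fun x => - f x) x = - iteratedFDeriv ℝ j f x :=
      iteratedFDeriv_neg_apply
    rw [h1, norm_neg]
    exact hf.bd j hj x⟩

/-- Bilinear products of two functions bounded from order zero. -/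
theorem bilin {A B : ℕ → ℝ} {f : X → Y} {g : X → Z} (hf : Bk 0 A f) (hg : Bk 0 B g)
    (L : Y →L[ℝ] Z →L[ℝ] W) (hL : ‖L‖ ≤ 1) :
    Bk 0 (fun n => ∑ i ∈ Finset.range (n + 1), (n.choose i : ℝ) * A i * B (n - i))
      (fun x => L (f x) (g x)) := by
  refine ⟨L.isBoundedBilinearMap.contDiff.comp (hf.sm.prodMk hg.sm), fun n _ x => ?_⟩
  refine (L.norm_iteratedFDeriv_le_of_bilinear_of_le_one (n := n) (N := ∞) hf.sm hg.sm x
    (by exact_mod_cast le_top) hL).trans ?_
  refine Finset.sum_le_sum fun i _ => ?_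
  have h1 := hf.bd i (by omega) x
  have h2 := hg.bd (n - i) (by omega) x
  have h3 : 0 ≤ A i := (norm_nonneg _).trans h1
  gcongr

/-- Composition, outer function bounded from order zero, inner one from order one. -/
theorem comp {A B : ℕ → ℝ} {g : Y → Z} {f : X → Y} (hg : Bk 0 A g) (hf : Bk 1 B f) :
    Bk 0 (fun n => n ! * (∑ i ∈ Finset.range (n + 1), |A i|)
      * (1 + ∑ i ∈ Finset.range (n + 1), |B i|) ^ n) (fun x => g (f x)) := by
  refine ⟨hg.sm.comp hf.sm, fun n _ x => ?_⟩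
  refine norm_iteratedFDeriv_comp_le (N := ∞) hg.sm hf.sm (by exact_mod_cast le_top) x
    (fun i hi => ?_) (fun i h1 hi => ?_)
  · refine (hg.bd i (by omega) _).trans ((le_abs_self _).trans ?_)
    exact Finset.single_le_sum (f := fun i => |A i|) (fun _ _ => abs_nonneg _)
      (Finset.mem_range.2 (by omega))
  · have h2 : |B i| ≤ ∑ i ∈ Finset.range (n + 1), |B i| :=
      Finset.single_le_sum (f := fun i => |B i|) (fun _ _ => abs_nonneg _)
        (Finset.mem_range.2 (by omega))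
    have h3 : (1 : ℝ) ≤ 1 + ∑ i ∈ Finset.range (n + 1), |B i| := by
      have : 0 ≤ ∑ i ∈ Finset.range (n + 1), |B i| := Finset.sum_nonneg fun _ _ => abs_nonneg _
      linarith
    calc ‖iteratedFDeriv ℝ i f x‖ ≤ |B i| := (hf.bd i h1 x).trans (le_abs_self _)
      _ ≤ 1 + ∑ i ∈ Finset.range (n + 1), |B i| := by linarith
      _ = (1 + ∑ i ∈ Finset.range (n + 1), |B i|) ^ 1 := (pow_one _).symm
      _ ≤ _ := pow_le_pow_right₀ h3 h1

/-- Products of a scalar function and a vector valued function. -/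
theorem smul {A B : ℕ → ℝ} {f : X → ℝ} {g : X → Z} (hf : Bk 0 A f) (hg : Bk 0 B g) :
    Bk 0 (fun n => ∑ i ∈ Finset.range (n + 1), (n.choose i : ℝ) * A i * B (n - i))
      (fun x => f x • g x) :=
  hf.bilin hg (ContinuousLinearMap.lsmul ℝ ℝ) ContinuousLinearMap.opNorm_lsmul_le

/-- Reciprocals of functions bounded below. -/
theorem exists_inv (X : Type*) [NormedAddCommGroup X] [NormedSpace ℝ X] (A : ℕ → ℝ) (c : ℝ)
    (hc : 0 < c) : ∃ C : ℕ → ℝ, ∀ f : X → ℝ, Bk 0 A f → (∀ x, c ≤ f x) →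
      Bk 0 C (fun x => (f x)⁻¹) := by
  have hinv : ContDiffOn ℝ ∞ (fun t : ℝ => t⁻¹) (Ioi 0) := fun t ht =>
    (contDiffAt_inv ℝ (ne_of_gt ht)).contDiffWithinAt
  have hK : ∀ i : ℕ, ∃ K : ℝ, ∀ t ∈ Icc c (A 0),
      ‖iteratedFDerivWithin ℝ i (fun t : ℝ => t⁻¹) (Ioi 0) t‖ ≤ K := by
    intro i
    have h1 : ContinuousOn (iteratedFDerivWithin ℝ i (fun t : ℝ => t⁻¹) (Ioi 0)) (Icc c (A 0)) :=
      (hinv.continuousOn_iteratedFDerivWithin (m := i) (by exact_mod_cast le_top)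
        isOpen_Ioi.uniqueDiffOn).mono fun t ht => lt_of_lt_of_le hc ht.1
    exact isCompact_Icc.exists_bound_of_continuousOn h1
  choose K hK using hK
  refine ⟨fun n => n ! * (∑ i ∈ Finset.range (n + 1), |K i|)
      * (1 + ∑ i ∈ Finset.range (n + 1), |A i|) ^ n, fun f hf hcf => ⟨?_, fun n _ x => ?_⟩⟩
  · exact hf.sm.inv fun x => (lt_of_lt_of_le hc (hcf x)).ne'
  · have hpos : range f ⊆ Ioi 0 := by
      rintro _ ⟨y, rfl⟩
      exact lt_of_lt_of_le hc (hcf y)
    have hx : f x ∈ Icc c (A 0) := by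
      refine ⟨hcf x, ?_⟩
      have := hf.bd 0 le_rfl x
      rw [norm_iteratedFDeriv_zero] at this
      exact (le_abs_self _).trans this
    refine norm_iteratedFDeriv_comp_le' (N := ∞) hpos isOpen_Ioi.uniqueDiffOn hinv hf.sm
      (by exact_mod_cast le_top) x (fun i hi => ?_) (fun i h1 hi => ?_)
    · refine (hK i _ hx).trans ((le_abs_self _).trans ?_)
      exact Finset.single_le_sum (f := fun i => |K i|) (fun _ _ => abs_nonneg _)
        (Finset.mem_range.2 (by omega))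
    · have h2 : |A i| ≤ ∑ i ∈ Finset.range (n + 1), |A i| :=
        Finset.single_le_sum (f := fun i => |A i|) (fun _ _ => abs_nonneg _)
          (Finset.mem_range.2 (by omega))
      have h3 : (1 : ℝ) ≤ 1 + ∑ i ∈ Finset.range (n + 1), |A i| := by
        have : 0 ≤ ∑ i ∈ Finset.range (n + 1), |A i| := Finset.sum_nonneg fun _ _ => abs_nonneg _
        linarith
      calc ‖iteratedFDeriv ℝ i f x‖ ≤ |A i| := (hf.bd i (by omega) x).trans (le_abs_self _)
        _ ≤ 1 + ∑ i ∈ Finset.range (n + 1), |A i| := by linarith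
        _ = (1 + ∑ i ∈ Finset.range (n + 1), |A i|) ^ 1 := (pow_one _).symm
        _ ≤ _ := pow_le_pow_right₀ h3 h1

end Bk

end Pool.Agent.GNP
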