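import Pool.Agent.GNP.Bd

/-!
From cuts to functions of bounded variation.
-/

namespace Pool.Agent.GNP

open MeasureTheory Set Pool.Agent.MP_6cbfb8_an
open scoped ENNReal Real

section

variable {n : ℕ}

/-- Upper sets of the line. -/
lemma upper_cases (U : Set ℝ) (hU : IsUpperSet U) :
    U = ∅ ∨ U = univ ∨ (∃ t, U = Ioi t) ∨ ∃ t, U = Ici t := by
  rcases U.eq_empty_or_nonempty with h | h
  · exact Or.inl h
  by_cases hb : BddBelow U
  · right; right
    have h1 : Ioi (sInf U) ⊆ U := by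
      intro x hx
      obtain ⟨u, hu, hux⟩ := (csInf_lt_iff hb h).1 hx
      exact hU hux.le hu
    have h2 : U ⊆ Ici (sInf U) := fun x hx => csInf_le hb hx
    by_cases hm : sInf U ∈ U
    · right
      refine ⟨sInf U, h2.antisymm fun x hx => hU hx hm⟩
    · left
      refine ⟨sInf U, Subset.antisymm (fun x hx => ?_) h1⟩
      exact lt_of_le_of_ne (show sInf U ≤ x from h2 hx) fun h3 => hm (by rw [h3]; exact hx)
  · right; left
    refine eq_univ_of_forall fun x => ?_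
    rw [not_bddBelow_iff] at hb
    obtain ⟨u, hu, hux⟩ := hb x
    exact hU hux.le hu

lemma bv_integrable {g : E n → ℂ} (hg : Measurable g) {K : ℝ} (hb : ∀ x, ‖g x‖ ≤ K) (ξ : E n) :
    Integrable (fun x : S n => g x *
      Complex.exp (((-(2 * π * inner ℝ (x : E n) ξ) : ℝ) : ℂ) * Complex.I)) (sm n) := by
  refine Integrable.of_bound (C := K) ?_ (ae_of_all _ fun x => ?_)
  · refine Measurable.aestronglyMeasurable ?_
    have h1 : Measurable fun x : S n => g x := hg.comp measurable_subtype_coe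
    have h2 : Continuous fun x : S n =>
        Complex.exp (((-(2 * π * inner ℝ (x : E n) ξ) : ℝ) : ℂ) * Complex.I) := by fun_prop
    exact h1.mul h2.measurable
  · rw [norm_mul, Complex.norm_exp_ofReal_mul_I, mul_one]
    exact hb x

lemma bv_extn_add {g g' : E n → ℂ} (hg : Measurable g) (hg' : Measurable g') {K K' : ℝ}
    (hb : ∀ x, ‖g x‖ ≤ K) (hb' : ∀ x, ‖g' x‖ ≤ K') (ξ : E n) :
    extn (fun x => g x + g' x) ξ = extn g ξ + extn g' ξ := by
  unfold extn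
  rw [← integral_add (bv_integrable hg hb ξ) (bv_integrable hg' hb' ξ)]
  refine integral_congr_ae (ae_of_all _ fun x => ?_)
  simp only
  ring

lemma bv_extn_mul (c : ℂ) (g : E n → ℂ) (ξ : E n) :
    extn (fun x => c * g x) ξ = c * extn g ξ := by
  unfold extn
  rw [← integral_const_mul]
  refine integral_congr_ae (ae_of_all _ fun x => ?_)
  simp only
  ring

lemma bv_add {g g' : E n → ℂ} (hg : Measurable g) (hg' : Measurable g') {K K' : ℝ}
    (hb : ∀ x, ‖g x‖ ≤ K) (hb' : ∀ x, ‖g' x‖ ≤ K') {p : ℝ} (hp : 1 ≤ p) {C : ℝ≥0∞}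
    (H : ∫⁻ ξ, ‖extn g ξ‖ₑ ^ p ≤ C) (H' : ∫⁻ ξ, ‖extn g' ξ‖ₑ ^ p ≤ C) :
    ∫⁻ ξ, ‖extn (fun x => g x + g' x) ξ‖ₑ ^ p ≤ 2 ^ p * C := by
  have hm : Measurable fun ξ : E n => ‖extn g ξ‖ₑ ^ p := by
    have h1 : Measurable fun q : Unit × E n => extn g q.2 :=
      measurable_extn_param (fun _ : Unit => g) (by
        simp only [Function.uncurry_def]
        exact hg.comp measurable_snd)
    have h2 : Measurable fun ξ : E n => extn g ξ :=
      h1.comp (f := fun ξ : E n => ((), ξ)) (by fun_prop)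
    exact (h2.enorm).pow_const p
  calc ∫⁻ ξ, ‖extn (fun x => g x + g' x) ξ‖ₑ ^ p
      ≤ ∫⁻ ξ, 2 ^ (p - 1) * (‖extn g ξ‖ₑ ^ p + ‖extn g' ξ‖ₑ ^ p) := by
        refine lintegral_mono fun ξ => ?_
        simp only
        rw [bv_extn_add hg hg' hb hb' ξ]
        refine le_trans (ENNReal.rpow_le_rpow (enorm_add_le _ _) (by linarith)) ?_
        exact ENNReal.rpow_add_le_mul_rpow_add_rpow _ _ hp
    _ = 2 ^ (p - 1) * ((∫⁻ ξ, ‖extn g ξ‖ₑ ^ p) + ∫⁻ ξ, ‖extn g' ξ‖ₑ ^ p) := by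
        rw [lintegral_const_mul' _ _ (ENNReal.rpow_ne_top_of_nonneg (by linarith) (by norm_num)),
          lintegral_add_left hm]
    _ ≤ 2 ^ (p - 1) * (C + C) := by gcongr
    _ = 2 ^ p * C := by
        rw [← two_mul, ← mul_assoc]
        congr 1
        nth_rewrite 2 [← ENNReal.rpow_one 2]
        rw [← ENNReal.rpow_add _ _ (by norm_num) (by norm_num), sub_add_cancel]

lemma bv_mul (c : ℂ) {a : ℝ≥0∞} (ha : ‖c‖ₑ ≤ a) {g : E n → ℂ} {p : ℝ} (hp : 0 ≤ p) {C : ℝ≥0∞}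
    (haT : a ≠ ∞) (H : ∫⁻ ξ, ‖extn g ξ‖ₑ ^ p ≤ C) :
    ∫⁻ ξ, ‖extn (fun x => c * g x) ξ‖ₑ ^ p ≤ a ^ p * C := by
  calc ∫⁻ ξ, ‖extn (fun x => c * g x) ξ‖ₑ ^ p
      ≤ ∫⁻ ξ, a ^ p * ‖extn g ξ‖ₑ ^ p := by
        refine lintegral_mono fun ξ => ?_
        simp only
        rw [bv_extn_mul, enorm_mul, ENNReal.mul_rpow_of_nonneg _ _ hp]
        gcongr
    _ = a ^ p * ∫⁻ ξ, ‖extn g ξ‖ₑ ^ p :=
        lintegral_const_mul' _ _ (ENNReal.rpow_ne_top_of_nonneg hp haT)
    _ ≤ a ^ p * C := by gcongr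

/-- Half lines. -/
lemma bv_upper (φ : E n → ℝ) (hφ : Measurable φ) {p : ℝ} (hp : 1 ≤ p) {C : ℝ≥0∞}
    (H0 : ∀ l : ℝ, ∫⁻ ξ, ‖extn (fun x => Complex.exp (((l * φ x : ℝ) : ℂ) * Complex.I)) ξ‖ₑ ^ p ≤ C)
    (H1 : ∀ l t : ℝ, ∫⁻ ξ, ‖extn (fun x => Complex.exp (((l * φ x : ℝ) : ℂ) * Complex.I) *
      if t < φ x then 1 else 0) ξ‖ₑ ^ p ≤ C)
    (H2 : ∀ l t : ℝ, ∫⁻ ξ, ‖extn (fun x => Complex.exp (((l * φ x : ℝ) : ℂ) * Complex.I) *
      if φ x < t then 1 else 0) ξ‖ₑ ^ p ≤ C)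
    (l : ℝ) (U : Set ℝ) (hU : IsUpperSet U) [DecidablePred (· ∈ U)] :
    ∫⁻ ξ, ‖extn (fun x => Complex.exp (((l * φ x : ℝ) : ℂ) * Complex.I) *
      if φ x ∈ U then 1 else 0) ξ‖ₑ ^ p ≤ 2 ^ p * C := by
  have hC : C ≤ 2 ^ p * C := by
    refine le_mul_of_one_le_left bot_le ?_
    exact ENNReal.one_le_rpow (by norm_num) (by linarith)
  have hem : Measurable fun x : E n => Complex.exp (((l * φ x : ℝ) : ℂ) * Complex.I) := by
    have h2 : Measurable fun x : E n => (l * φ x : ℝ) := measurable_const.mul hφ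
    exact Complex.measurable_exp.comp ((Complex.measurable_ofReal.comp h2).mul_const _)
  rcases upper_cases U hU with h | h | ⟨t, h⟩ | ⟨t, h⟩
  · have h1 : (fun x => Complex.exp (((l * φ x : ℝ) : ℂ) * Complex.I) *
        if φ x ∈ U then (1:ℂ) else 0) = fun x => (0:ℂ) * 0 := by
      funext x
      rw [if_neg (by rw [h]; exact notMem_empty _), mul_zero, mul_zero]
    rw [h1]
    have h3 : ∀ ξ : E n, ‖extn (fun x : E n => (0:ℂ) * 0) ξ‖ₑ ^ p = 0 := by
      intro ξ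
      rw [bv_extn_mul, zero_mul, enorm_zero, ENNReal.zero_rpow_of_pos (by linarith)]
    simp only [h3, lintegral_zero, zero_le]
  · have h1 : (fun x => Complex.exp (((l * φ x : ℝ) : ℂ) * Complex.I) *
        if φ x ∈ U then (1:ℂ) else 0) = fun x => Complex.exp (((l * φ x : ℝ) : ℂ) * Complex.I) := by
      funext x
      rw [if_pos (by rw [h]; exact mem_univ _), mul_one]
    rw [h1]
    exact (H0 l).trans hC
  · have h1 : (fun x => Complex.exp (((l * φ x : ℝ) : ℂ) * Complex.I) *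
        if φ x ∈ U then (1:ℂ) else 0) = fun x => Complex.exp (((l * φ x : ℝ) : ℂ) * Complex.I) *
        if t < φ x then 1 else 0 := by
      funext x
      simp only [h, mem_Ioi]
    rw [h1]
    exact (H1 l t).trans hC
  · have h1 : (fun x => Complex.exp (((l * φ x : ℝ) : ℂ) * Complex.I) *
        if φ x ∈ U then (1:ℂ) else 0) = fun x => Complex.exp (((l * φ x : ℝ) : ℂ) * Complex.I) +
        (-1) * (Complex.exp (((l * φ x : ℝ) : ℂ) * Complex.I) * if φ x < t then 1 else 0) := by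
      funext x
      simp only [h, mem_Ici]
      by_cases h2 : t ≤ φ x
      · rw [if_pos h2, if_neg (not_lt.2 h2)]
        ring
      · rw [if_neg h2, if_pos (not_le.1 h2)]
        ring
    rw [h1]
    have hcm : Measurable fun x : E n => (Complex.exp (((l * φ x : ℝ) : ℂ) * Complex.I) *
        if φ x < t then 1 else 0) :=
      hem.mul (Measurable.ite (measurableSet_lt hφ measurable_const) measurable_const
        measurable_const)
    refine bv_add (K := 1) (K' := 1) hem (hcm.const_mul _) ?_ ?_ hp (H0 l) ?_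
    · intro x
      rw [Complex.norm_exp_ofReal_mul_I]
    · intro x
      rw [norm_mul, norm_mul, Complex.norm_exp_ofReal_mul_I]
      split_ifs <;> simp
    · refine le_trans (bv_mul (-1) (a := 1) (by simp) (by linarith) (by simp) (H2 l t)) ?_
      rw [ENNReal.one_rpow, one_mul]

/-- Monotone functions. -/
lemma bv_mono (φ : E n → ℝ) (hφ : Measurable φ) {p : ℝ} (hp : 1 ≤ p) {C : ℝ≥0∞}
    (H0 : ∀ l : ℝ, ∫⁻ ξ, ‖extn (fun x => Complex.exp (((l * φ x : ℝ) : ℂ) * Complex.I)) ξ‖ₑ ^ p ≤ C)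
    (H1 : ∀ l t : ℝ, ∫⁻ ξ, ‖extn (fun x => Complex.exp (((l * φ x : ℝ) : ℂ) * Complex.I) *
      if t < φ x then 1 else 0) ξ‖ₑ ^ p ≤ C)
    (H2 : ∀ l t : ℝ, ∫⁻ ξ, ‖extn (fun x => Complex.exp (((l * φ x : ℝ) : ℂ) * Complex.I) *
      if φ x < t then 1 else 0) ξ‖ₑ ^ p ≤ C)
    (l : ℝ) (M : ℝ → ℝ) (hM : Monotone M) (hM0 : ∀ t, 0 ≤ M t) (hM1 : ∀ t, M t ≤ 1) :
    ∫⁻ ξ, ‖extn (fun x => Complex.exp (((l * φ x : ℝ) : ℂ) * Complex.I) * (M (φ x) : ℂ)) ξ‖ₑ ^ p ≤
      2 ^ p * C := by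
  classical
  have hem : Measurable fun x : E n => Complex.exp (((l * φ x : ℝ) : ℂ) * Complex.I) := by
    have h2 : Measurable fun x : E n => (l * φ x : ℝ) := measurable_const.mul hφ
    exact Complex.measurable_exp.comp ((Complex.measurable_ofReal.comp h2).mul_const _)
  have hMm : Measurable fun x : E n => M (φ x) := hM.measurable.comp hφ
  have key := lintegral_mix_le (n := n) hp (C := 2 ^ p * C)
    (fun g => ∃ U : Set ℝ, IsUpperSet U ∧ g = fun x =>
      Complex.exp (((l * φ x : ℝ) : ℂ) * Complex.I) * if φ x ∈ U then 1 else 0)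
    (by
      rintro g _ _ ⟨U, hU, rfl⟩
      exact bv_upper φ hφ hp H0 H1 H2 l U hU)
    ((volume : Measure ℝ).restrict (Ioc 0 1)) (fun _ => LinearIsometryEquiv.refl ℝ (E n))
    (fun _ => 0) (fun s x => Complex.exp (((l * φ x : ℝ) : ℂ) * Complex.I) *
      if s < M (φ x) then 1 else 0)
    (by simpa using measurable_snd) measurable_const
    (by
      simp only [Function.uncurry_def]
      refine (hem.comp measurable_snd).mul (Measurable.ite (measurableSet_lt measurable_fst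
        (hMm.comp measurable_snd)) measurable_const measurable_const))
    (by
      intro s x
      rw [norm_mul, Complex.norm_exp_ofReal_mul_I]
      split_ifs <;> simp)
    (by
      intro s
      refine ⟨{t | s < M t}, fun a b hab ha => lt_of_lt_of_le ha (hM hab), ?_⟩
      funext x
      simp only [mem_ofPred_eq])
  have hν : ((volume : Measure ℝ).restrict (Ioc 0 1)) univ = 1 := by
    rw [Measure.restrict_apply MeasurableSet.univ, univ_inter, Real.volume_Ioc]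
    simp
  rw [hν, ENNReal.one_rpow, mul_one] at key
  refine le_trans (le_of_eq ?_) key
  refine lintegral_congr fun ξ => ?_
  congr 3
  funext x
  unfold mix
  have h3 : ∀ s : ℝ, Complex.exp (((2 * π * inner ℝ x (0 : E n) : ℝ) : ℂ) * Complex.I) *
      (Complex.exp (((l * φ ((LinearIsometryEquiv.refl ℝ (E n)) x) : ℝ) : ℂ) * Complex.I) *
        if s < M (φ ((LinearIsometryEquiv.refl ℝ (E n)) x)) then 1 else 0) =
      Complex.exp (((l * φ x : ℝ) : ℂ) * Complex.I) *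
        ((if s < M (φ x) then (1:ℝ) else 0 : ℝ) : ℂ) := by
    intro s
    rw [inner_zero_right, mul_zero, Complex.ofReal_zero, zero_mul, Complex.exp_zero, one_mul]
    simp only [LinearIsometryEquiv.coe_refl, id_eq]
    by_cases h : s < M (φ x)
    · simp [h]
    · simp [h]
  simp only [h3]
  rw [integral_const_mul, integral_complex_ofReal]
  congr 2
  have h4 : (fun s : ℝ => if s < M (φ x) then (1:ℝ) else 0) =
      (Iio (M (φ x))).indicator (fun _ => (1:ℝ)) := by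
    funext s
    simp only [indicator, mem_Iio]
  rw [h4, integral_indicator measurableSet_Iio, setIntegral_const, smul_eq_mul, mul_one,
    measureReal_restrict_apply measurableSet_Iio]
  have h6 : Iio (M (φ x)) ∩ Ioc 0 1 = Ioo 0 (M (φ x)) := by
    ext s
    simp only [mem_inter_iff, mem_Iio, mem_Ioc, mem_Ioo]
    constructor
    · rintro ⟨h7, h8, -⟩
      exact ⟨h8, h7⟩
    · rintro ⟨h7, h8⟩
      exact ⟨h8, h7, h8.le.trans (hM1 _)⟩
  rw [h6, Real.volume_real_Ioo_of_le (hM0 _), sub_zero]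

/-- The Jordan decomposition. -/
lemma jordan (f : ℝ → ℝ) (hf : eVariationOn f univ ≤ 1) (hb : ∀ t, |f t| ≤ 1) :
    ∃ V M : ℝ → ℝ, Monotone V ∧ Monotone M ∧ (∀ t, 0 ≤ V t) ∧ (∀ t, V t ≤ 1) ∧
      (∀ t, 0 ≤ M t) ∧ (∀ t, M t ≤ 1) ∧ ∀ t, f t = 1 + V t - 3 * M t := by
  have hle : ∀ t, eVariationOn f (Iic t) ≤ 1 := fun t =>
    (eVariationOn.mono f (subset_univ _)).trans hf
  have hfin : ∀ t, eVariationOn f (Iic t) ≠ ∞ := fun t => ((hle t).trans_lt ENNReal.one_lt_top).ne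
  have hV : Monotone fun t => (eVariationOn f (Iic t)).toReal := by
    intro a b hab
    exact ENNReal.toReal_mono (hfin b) (eVariationOn.mono f (Iic_subset_Iic.2 hab))
  have hV0 : ∀ t, 0 ≤ (eVariationOn f (Iic t)).toReal := fun t => ENNReal.toReal_nonneg
  have hV1 : ∀ t, (eVariationOn f (Iic t)).toReal ≤ 1 := by
    intro t
    have := ENNReal.toReal_mono ENNReal.one_ne_top (hle t)
    rwa [ENNReal.toReal_one] at this
  have hd : ∀ a b : ℝ, a ≤ b → f b - f a ≤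
      (eVariationOn f (Iic b)).toReal - (eVariationOn f (Iic a)).toReal := by
    intro a b hab
    have h1 : eVariationOn f (Iic a) + eVariationOn f (Icc a b) ≤ eVariationOn f (Iic b) := by
      have h2 := eVariationOn.add_le_union f (s := Iic a) (t := Icc a b)
        (fun x hx y hy => (mem_Iic.1 hx).trans hy.1)
      refine h2.trans (eVariationOn.mono f ?_)
      intro x hx
      rcases hx with hx | hx
      · exact (mem_Iic.1 hx).trans hab
      · exact hx.2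
    have h3 : edist (f b) (f a) ≤ eVariationOn f (Icc a b) :=
      eVariationOn.edist_le f (right_mem_Icc.2 hab) (left_mem_Icc.2 hab)
    have h4 : eVariationOn f (Iic a) + edist (f b) (f a) ≤ eVariationOn f (Iic b) :=
      le_trans (by gcongr) h1
    have h5 := ENNReal.toReal_mono (hfin b) h4
    rw [ENNReal.toReal_add (hfin a) (edist_ne_top _ _), edist_dist,
      ENNReal.toReal_ofReal dist_nonneg, Real.dist_eq] at h5
    have := le_abs_self (f b - f a)
    linarith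
  refine ⟨fun t => (eVariationOn f (Iic t)).toReal,
    fun t => ((eVariationOn f (Iic t)).toReal - f t + 1) / 3, hV, ?_, hV0, hV1, ?_, ?_, ?_⟩
  · intro a b hab
    have := hd a b hab
    simp only
    linarith
  · intro t
    have h1 := (abs_le.1 (hb t)).2
    have h2 := hV0 t
    simp only
    linarith
  · intro t
    have h1 := (abs_le.1 (hb t)).1
    have h2 := hV1 t
    simp only
    linarith
  · intro t
    simp only
    ring

/-- Functions of bounded variation. -/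
theorem bv_single (φ : E n → ℝ) (hφ : Measurable φ) {p : ℝ} (hp : 1 ≤ p) {C : ℝ≥0∞}
    (H0 : ∀ l : ℝ, ∫⁻ ξ, ‖extn (fun x => Complex.exp (((l * φ x : ℝ) : ℂ) * Complex.I)) ξ‖ₑ ^ p ≤ C)
    (H1 : ∀ l t : ℝ, ∫⁻ ξ, ‖extn (fun x => Complex.exp (((l * φ x : ℝ) : ℂ) * Complex.I) *
      if t < φ x then 1 else 0) ξ‖ₑ ^ p ≤ C)
    (H2 : ∀ l t : ℝ, ∫⁻ ξ, ‖extn (fun x => Complex.exp (((l * φ x : ℝ) : ℂ) * Complex.I) *
      if φ x < t then 1 else 0) ξ‖ₑ ^ p ≤ C)
    (l : ℝ) (B : ℝ → ℂ) (hB : ∀ t, ‖B t‖ ≤ 1) (hv : eVariationOn B univ ≤ 1) :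
    ∫⁻ ξ, ‖extn (fun x => Complex.exp (((l * φ x : ℝ) : ℂ) * Complex.I) * B (φ x)) ξ‖ₑ ^ p ≤
      2 ^ p * (2 ^ p * (2 ^ p * (3 ^ p * (2 ^ p * C)))) := by
  have hem : Measurable fun x : E n => Complex.exp (((l * φ x : ℝ) : ℂ) * Complex.I) := by
    have h2 : Measurable fun x : E n => (l * φ x : ℝ) := measurable_const.mul hφ
    exact Complex.measurable_exp.comp ((Complex.measurable_ofReal.comp h2).mul_const _)
  have h2p : (1:ℝ≥0∞) ≤ 2 ^ p := ENNReal.one_le_rpow (by norm_num) (by linarith)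
  have hup : ∀ D : ℝ≥0∞, D ≤ 2 ^ p * D := fun D => le_mul_of_one_le_left bot_le h2p
  obtain ⟨V1, M1, hV1, hM1, hV1a, hV1b, hM1a, hM1b, hf1⟩ := jordan (fun t => (B t).re) (by
    refine le_trans ?_ hv
    unfold eVariationOn
    refine iSup_mono fun q => Finset.sum_le_sum fun i _ => ?_
    rw [edist_dist, edist_dist]
    refine ENNReal.ofReal_le_ofReal ?_
    rw [Real.dist_eq, Complex.dist_eq, ← Complex.sub_re]
    exact Complex.abs_re_le_norm _) (fun t => (Complex.abs_re_le_norm _).trans (hB t))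
  obtain ⟨V2, M2, hV2, hM2, hV2a, hV2b, hM2a, hM2b, hf2⟩ := jordan (fun t => (B t).im) (by
    refine le_trans ?_ hv
    unfold eVariationOn
    refine iSup_mono fun q => Finset.sum_le_sum fun i _ => ?_
    rw [edist_dist, edist_dist]
    refine ENNReal.ofReal_le_ofReal ?_
    rw [Real.dist_eq, Complex.dist_eq, ← Complex.sub_im]
    exact Complex.abs_im_le_norm _) (fun t => (Complex.abs_im_le_norm _).trans (hB t))
  have hmon := fun (M : ℝ → ℝ) (hM : Monotone M) (h0 : ∀ t, 0 ≤ M t) (h1 : ∀ t, M t ≤ 1) =>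
    bv_mono φ hφ hp H0 H1 H2 l M hM h0 h1
  have hmm : ∀ (c : ℂ) (M : ℝ → ℝ), Monotone M → Measurable fun x : E n =>
      c * (Complex.exp (((l * φ x : ℝ) : ℂ) * Complex.I) * (M (φ x) : ℂ)) := by
    intro c M hM
    exact (hem.mul (Complex.measurable_ofReal.comp (hM.measurable.comp hφ))).const_mul c
  have hbb : ∀ (c : ℂ) (M : ℝ → ℝ), (∀ t, 0 ≤ M t) → (∀ t, M t ≤ 1) → ∀ x : E n,
      ‖c * (Complex.exp (((l * φ x : ℝ) : ℂ) * Complex.I) * (M (φ x) : ℂ))‖ ≤ ‖c‖ := by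
    intro c M h0 h1 x
    rw [norm_mul, norm_mul, Complex.norm_exp_ofReal_mul_I, one_mul, Complex.norm_real,
      Real.norm_eq_abs, abs_of_nonneg (h0 _)]
    exact mul_le_of_le_one_right (norm_nonneg _) (h1 _)
  have hb3 : ∀ c : ℂ, ‖c‖ ≤ 3 → ‖c‖ₑ ≤ 3 := by
    intro c hc
    rw [← ofReal_norm]
    refine (ENNReal.ofReal_le_ofReal hc).trans ?_
    norm_num
  have hone : ∀ (c : ℂ), ‖c‖ ≤ 3 → ∀ (M : ℝ → ℝ), Monotone M → (∀ t, 0 ≤ M t) →
      (∀ t, M t ≤ 1) → ∫⁻ ξ, ‖extn (fun x => c * (Complex.exp (((l * φ x : ℝ) : ℂ) * Complex.I) *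
        (M (φ x) : ℂ))) ξ‖ₑ ^ p ≤ 3 ^ p * (2 ^ p * C) := by
    intro c hc M hM h0 h1
    exact bv_mul c (hb3 c hc) (by linarith) (by norm_num) (hmon M hM h0 h1)
  have hI : ‖(1 + Complex.I : ℂ)‖ ≤ 3 := by
    refine (norm_add_le _ _).trans ?_
    rw [norm_one, Complex.norm_I]
    norm_num
  have h12 := bv_add (K := ‖(1:ℂ)‖) (K' := ‖(-3:ℂ)‖) (hmm 1 V1 hV1) (hmm (-3) M1 hM1)
    (hbb 1 V1 hV1a hV1b) (hbb (-3) M1 hM1a hM1b) hp (hone 1 (by norm_num) V1 hV1 hV1a hV1b)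
    (hone (-3) (by norm_num) M1 hM1 hM1a hM1b)
  have h34 := bv_add (K := ‖Complex.I‖) (K' := ‖(-3 * Complex.I:ℂ)‖) (hmm Complex.I V2 hV2)
    (hmm (-3 * Complex.I) M2 hM2) (hbb Complex.I V2 hV2a hV2b) (hbb (-3 * Complex.I) M2 hM2a hM2b)
    hp (hone Complex.I (by rw [Complex.norm_I]; norm_num) V2 hV2 hV2a hV2b)
    (hone (-3 * Complex.I) (by rw [norm_mul, Complex.norm_I]; norm_num) M2 hM2 hM2a hM2b)
  have h5 := hone (1 + Complex.I) hI (fun _ => 1) monotone_const (fun _ => zero_le_one)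
    (fun _ => le_rfl)
  have h1234 := bv_add (K := ‖(1:ℂ)‖ + ‖(-3:ℂ)‖) (K' := ‖Complex.I‖ + ‖(-3 * Complex.I:ℂ)‖)
    ((hmm 1 V1 hV1).add (hmm (-3) M1 hM1)) ((hmm Complex.I V2 hV2).add (hmm (-3 * Complex.I) M2 hM2))
    (fun x => (norm_add_le _ _).trans (add_le_add (hbb 1 V1 hV1a hV1b x) (hbb (-3) M1 hM1a hM1b x)))
    (fun x => (norm_add_le _ _).trans (add_le_add (hbb Complex.I V2 hV2a hV2b x)
      (hbb (-3 * Complex.I) M2 hM2a hM2b x))) hp h12 h34
  have hall := bv_add (K := (‖(1:ℂ)‖ + ‖(-3:ℂ)‖) + (‖Complex.I‖ + ‖(-3 * Complex.I:ℂ)‖))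
    (K' := ‖(1 + Complex.I : ℂ)‖)
    (((hmm 1 V1 hV1).add (hmm (-3) M1 hM1)).add
      ((hmm Complex.I V2 hV2).add (hmm (-3 * Complex.I) M2 hM2)))
    (hmm (1 + Complex.I) (fun _ => 1) monotone_const)
    (fun x => (norm_add_le _ _).trans (add_le_add
      ((norm_add_le _ _).trans (add_le_add (hbb 1 V1 hV1a hV1b x) (hbb (-3) M1 hM1a hM1b x)))
      ((norm_add_le _ _).trans (add_le_add (hbb Complex.I V2 hV2a hV2b x)
      (hbb (-3 * Complex.I) M2 hM2a hM2b x)))))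
    (hbb (1 + Complex.I) (fun _ => 1) (fun _ => zero_le_one) (fun _ => le_rfl)) hp h1234
    (h5.trans ((hup _).trans (hup _)))
  refine le_trans (le_of_eq ?_) hall
  refine lintegral_congr fun ξ => ?_
  congr 3
  funext x
  have h6 : B (φ x) = ((B (φ x)).re : ℂ) + ((B (φ x)).im : ℂ) * Complex.I :=
    (Complex.re_add_im _).symm
  rw [h6, show (B (φ x)).re = _ from hf1 (φ x), show (B (φ x)).im = _ from hf2 (φ x)]
  simp only [Pi.add_apply]
  push_cast
  ring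

/-- The bound for all superpositions from the bounds for exponentials with one cut. -/
theorem bd_of_cuts (φ : E n → ℝ) (hφ : Measurable φ) {p : ℝ} (hp : 1 ≤ p) {C : ℝ≥0∞} (hC : C ≠ ∞)
    (H0 : ∀ l : ℝ, ∫⁻ ξ, ‖extn (fun x => Complex.exp (((l * φ x : ℝ) : ℂ) * Complex.I)) ξ‖ₑ ^ p ≤ C)
    (H1 : ∀ l t : ℝ, ∫⁻ ξ, ‖extn (fun x => Complex.exp (((l * φ x : ℝ) : ℂ) * Complex.I) *
      if t < φ x then 1 else 0) ξ‖ₑ ^ p ≤ C)
    (H2 : ∀ l t : ℝ, ∫⁻ ξ, ‖extn (fun x => Complex.exp (((l * φ x : ℝ) : ℂ) * Complex.I) *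
      if φ x < t then 1 else 0) ξ‖ₑ ^ p ≤ C) : Bd n φ p := by
  have h2 : (2:ℝ≥0∞) ^ p ≠ ∞ := ENNReal.rpow_ne_top_of_nonneg (by linarith) (by norm_num)
  have h3 : (3:ℝ≥0∞) ^ p ≠ ∞ := ENNReal.rpow_ne_top_of_nonneg (by linarith) (by norm_num)
  refine ⟨2 ^ p * (2 ^ p * (2 ^ p * (3 ^ p * (2 ^ p * C)))),
    ENNReal.mul_ne_top h2 (ENNReal.mul_ne_top h2 (ENNReal.mul_ne_top h2 (ENNReal.mul_ne_top h3
      (ENNReal.mul_ne_top h2 hC)))), fun W _ ν _ R η l B hR hη hl hBm hB hv => ?_⟩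
  refine lintegral_mix_le hp (fun g => ∃ (c : ℝ) (b : ℝ → ℂ), (∀ t, ‖b t‖ ≤ 1) ∧
    eVariationOn b univ ≤ 1 ∧ g = fun x => Complex.exp (((c * φ x : ℝ) : ℂ) * Complex.I) * b (φ x))
    ?_ ν R η (fun w x => Complex.exp (((l w * φ x : ℝ) : ℂ) * Complex.I) * B w (φ x)) hR hη ?_ ?_
    fun w => ⟨l w, B w, hB w, hv w, rfl⟩
  · rintro g _ _ ⟨c, b, hb, hbv, rfl⟩
    exact bv_single φ hφ hp H0 H1 H2 c b hb hbv
  · simp only [Function.uncurry_def]
    have h4 : Measurable fun q : W × E n => (l q.1 * φ q.2 : ℝ) :=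
      (hl.comp measurable_fst).mul (hφ.comp measurable_snd)
    have h5 : Measurable fun q : W × E n => B q.1 (φ q.2) :=
      hBm.comp (f := fun q : W × E n => (q.1, φ q.2))
        (measurable_fst.prodMk (hφ.comp measurable_snd))
    exact (Complex.measurable_exp.comp ((Complex.measurable_ofReal.comp h4).mul_const _)).mul h5
  · intro w x
    rw [norm_mul, Complex.norm_exp_ofReal_mul_I, one_mul]
    exact hB w _

end

end Pool.Agent.GNP
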