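import Pool.Agent.MP_6cbfb8_an.Super

/-!
Bounds for all superpositions of one-variable functions of a phase.
-/

namespace Pool.Agent.GNP

open MeasureTheory Set Pool.Agent.MP_6cbfb8_an
open scoped ENNReal Real

/-- There is a finite `C` such that `∫ |(gσ)^|^p ≤ C ‖ν‖^p` for all superpositions
`g(x) = ∫ e^{i⟨η_w, x⟩} F_w(φ(R_w x)) dν(w)`, where the `R_w` are linear isometries and
`F_w(t) = e^{i l_w t} B_w(t)` with `|B_w| ≤ 1` of total variation at most 1. -/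
def Bd (n : ℕ) (φ : E n → ℝ) (p : ℝ) : Prop :=
  ∃ C : ℝ≥0∞, C ≠ ∞ ∧
    ∀ (W : Type) (_ : MeasurableSpace W) (ν : Measure W) (_ : IsFiniteMeasure ν)
      (R : W → E n ≃ₗᵢ[ℝ] E n) (η : W → E n) (l : W → ℝ) (B : W → ℝ → ℂ),
      (Measurable fun q : W × E n => R q.1 q.2) → Measurable η → Measurable l →
      (Measurable fun q : W × ℝ => B q.1 q.2) → (∀ w t, ‖B w t‖ ≤ 1) →
      (∀ w, eVariationOn (B w) univ ≤ 1) →
      ∫⁻ ξ, ‖extn (mix ν R η fun w x =>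
        Complex.exp (((l w * φ x : ℝ) : ℂ) * Complex.I) * B w (φ x)) ξ‖ₑ ^ p ≤ C * ν univ ^ p

end Pool.Agent.GNP
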