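import Mathlib.MeasureTheory.Constructions.Pi
import Mathlib.MeasureTheory.Measure.Lebesgue.Basic
import Mathlib.Algebra.MvPolynomial.Equiv
import Mathlib.Algebra.MvPolynomial.Funext
import Mathlib.Topology.Algebra.MvPolynomial
import Mathlib.LinearAlgebra.Dimension.Finite
import Mathlib.Tactic

/-!
Polynomial maps have at most `J(d, D)` preimages of almost every point.
-/

namespace Pool.Agent.GNP

open MeasureTheory Set
open scoped ENNReal

/-- The zero set of a polynomial that is not zero is a null set. -/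
theorem null_zeros : ∀ (d : ℕ) (p : MvPolynomial (Fin d) ℝ), p ≠ 0 →
    volume {y : Fin d → ℝ | MvPolynomial.eval y p = 0} = 0 := by
  intro d
  induction d with
  | zero =>
    intro p hp
    have h : {y : Fin 0 → ℝ | MvPolynomial.eval y p = 0} = ∅ := by
      by_contra hne
      obtain ⟨y, hy⟩ := Set.nonempty_iff_ne_empty.mpr hne
      apply hp
      apply MvPolynomial.funext
      intro x
      rw [Subsingleton.elim x y, map_zero]
      exact hy
    rw [h]
    exact measure_empty
  | succ d ih =>
    intro p hp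
    set f := MvPolynomial.finSuccEquiv ℝ d p with hf
    have hf0 : f ≠ 0 := by
      intro h
      apply hp
      have := (MvPolynomial.finSuccEquiv ℝ d).injective (a₁ := p) (a₂ := 0)
      apply this
      rw [map_zero]
      exact h
    have hlc : f.leadingCoeff ≠ 0 := Polynomial.leadingCoeff_ne_zero.mpr hf0
    have hae : ∀ᵐ s : Fin d → ℝ, MvPolynomial.eval s f.leadingCoeff ≠ 0 := by
      rw [ae_iff]
      simpa using ih _ hlc
    have hmp := volume_preserving_piFinSuccAbove (fun _ : Fin (d + 1) => ℝ) 0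
    set e := MeasurableEquiv.piFinSuccAbove (fun _ : Fin (d + 1) => ℝ) 0 with he
    set S : Set (ℝ × (Fin d → ℝ)) :=
      {x | MvPolynomial.eval (Fin.cons x.1 x.2 : Fin (d + 1) → ℝ) p = 0} with hS
    have hcont : Continuous fun x : ℝ × (Fin d → ℝ) =>
        MvPolynomial.eval (Fin.cons x.1 x.2 : Fin (d + 1) → ℝ) p := by
      refine (MvPolynomial.continuous_eval p).comp (continuous_pi fun i => ?_)
      refine Fin.cases ?_ (fun j => ?_) i
      · simpa using continuous_fst
      · have h1 : Continuous fun a : ℝ × (Fin d → ℝ) => a.2 j :=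
          (continuous_apply j).comp continuous_snd
        simpa using h1
    have hSm : MeasurableSet S := (isClosed_singleton.preimage hcont).measurableSet
    have hpre : {y : Fin (d + 1) → ℝ | MvPolynomial.eval y p = 0} = e ⁻¹' S := by
      ext y
      simp only [mem_ofPred_eq, mem_preimage, hS]
      have : (Fin.cons (e y).1 (e y).2 : Fin (d + 1) → ℝ) = y := by
        funext i
        refine Fin.cases ?_ (fun j => ?_) i
        · rfl
        · simp [he, MeasurableEquiv.piFinSuccAbove, Fin.insertNthEquiv, Fin.tail]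
      rw [this]
    rw [hpre, hmp.measure_preimage hSm.nullMeasurableSet]
    have hsw : (volume : Measure (ℝ × (Fin d → ℝ))) S =
        ((volume : Measure (Fin d → ℝ)).prod (volume : Measure ℝ)) (Prod.swap ⁻¹' S) := by
      have h1 : MeasurePreserving (Prod.swap : (Fin d → ℝ) × ℝ → ℝ × (Fin d → ℝ))
          ((volume : Measure (Fin d → ℝ)).prod (volume : Measure ℝ))
          ((volume : Measure ℝ).prod (volume : Measure (Fin d → ℝ))) :=
        Measure.measurePreserving_swap
      exact (h1.measure_preimage hSm.nullMeasurableSet).symm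
    rw [hsw, Measure.measure_prod_null (measurable_swap hSm)]
    filter_upwards [hae] with s hs
    have hfin : (Prod.mk s ⁻¹' (Prod.swap ⁻¹' S)).Finite := by
      have hq : Polynomial.map (MvPolynomial.eval s) f ≠ 0 := by
        intro h
        apply hs
        have := congrArg (fun q => Polynomial.coeff q f.natDegree) h
        simpa [Polynomial.coeff_map, Polynomial.coeff_natDegree] using this
      refine ((Polynomial.map (MvPolynomial.eval s) f).roots.toFinset.finite_toSet).subset ?_
      intro t ht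
      have ht' : MvPolynomial.eval (Fin.cons t s : Fin (d + 1) → ℝ) p = 0 := ht
      rw [MvPolynomial.eval_eq_eval_mv_eval'] at ht'
      simp only [Finset.mem_coe, Multiset.mem_toFinset]
      rw [Polynomial.mem_roots hq]
      exact ht'
    exact hfin.measure_zero _

/-- The monomial `P ^ a * X_k ^ j`. -/
noncomputable def mon {d : ℕ} (P : Fin d → MvPolynomial (Fin d) ℝ) (k : Fin d) (J : ℕ)
    (x : (Fin d → Fin (J + 1)) × Fin (J + 1)) : MvPolynomial (Fin d) ℝ :=
  (∏ i, P i ^ (x.1 i : ℕ)) * MvPolynomial.X k ^ (x.2 : ℕ)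

theorem mon_deg {d D : ℕ} (P : Fin d → MvPolynomial (Fin d) ℝ)
    (hP : ∀ i, (P i).totalDegree ≤ D) (k : Fin d) (J : ℕ)
    (x : (Fin d → Fin (J + 1)) × Fin (J + 1)) : (mon P k J x).totalDegree ≤ d * J * D + J := by
  unfold mon
  refine (MvPolynomial.totalDegree_mul _ _).trans (add_le_add ?_ ?_)
  · refine (MvPolynomial.totalDegree_finsetProd _ _).trans ?_
    calc ∑ i : Fin d, (P i ^ (x.1 i : ℕ)).totalDegree ≤ ∑ _i : Fin d, J * D := by
          refine Finset.sum_le_sum fun i _ => ?_
          refine (MvPolynomial.totalDegree_pow _ _).trans ?_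
          exact Nat.mul_le_mul (Nat.lt_succ_iff.mp (x.1 i).2) (hP i)
      _ = d * J * D := by simp [mul_assoc]
  · refine (MvPolynomial.totalDegree_pow _ _).trans ?_
    rw [MvPolynomial.totalDegree_X, mul_one]
    exact Nat.lt_succ_iff.mp x.2.2

/-- Algebraic dependence of `P 0, ..., P (d-1)` and `X k`, with bounded degrees. -/
theorem alg_dep {d D : ℕ} (P : Fin d → MvPolynomial (Fin d) ℝ)
    (hP : ∀ i, (P i).totalDegree ≤ D) (k : Fin d) (J : ℕ) (hJ : J = (d * D + 1) ^ d) :
    ∃ c : (Fin d → Fin (J + 1)) × Fin (J + 1) → ℝ, c ≠ 0 ∧ ∑ x, c x • mon P k J x = 0 := by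
  classical
  set N := d * J * D + J with hN
  set T : ((Fin d → Fin (J + 1)) × Fin (J + 1) → ℝ) →ₗ[ℝ] ((Fin d → Fin (N + 1)) → ℝ) :=
    LinearMap.pi fun b => (MvPolynomial.lcoeff ℝ
      (Finsupp.equivFunOnFinite.symm fun i => (b i : ℕ))) ∘ₗ
        (Fintype.linearCombination ℝ (mon P k J)) with hT
  have hlt : Module.finrank ℝ ((Fin d → Fin (N + 1)) → ℝ) <
      Module.finrank ℝ ((Fin d → Fin (J + 1)) × Fin (J + 1) → ℝ) := by
    rw [Module.finrank_fintype_fun_eq_card, Module.finrank_fintype_fun_eq_card]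
    simp only [Fintype.card_fun, Fintype.card_fin, Fintype.card_prod]
    have h1 : N + 1 ≤ (J + 1) * (d * D + 1) := by
      rw [hN]; nlinarith [Nat.zero_le (d * D)]
    calc (N + 1) ^ d ≤ ((J + 1) * (d * D + 1)) ^ d := Nat.pow_le_pow_left h1 d
      _ = (J + 1) ^ d * J := by rw [mul_pow, ← hJ]
      _ < (J + 1) ^ d * (J + 1) := by
          apply Nat.mul_lt_mul_of_pos_left (Nat.lt_succ_self J)
          positivity
  have hker := LinearMap.ker_ne_bot_of_finrank_lt (f := T) hlt
  obtain ⟨c, hc, hc0⟩ := (Submodule.ne_bot_iff _).mp hker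
  refine ⟨c, hc0, ?_⟩
  have hTc : T c = 0 := hc
  ext b
  rw [MvPolynomial.coeff_zero]
  by_cases hb : ∀ i, b i < N + 1
  · have h2 := congrFun hTc (fun i => ⟨b i, hb i⟩)
    have h3 : (Finsupp.equivFunOnFinite.symm fun i => b i : Fin d →₀ ℕ) = b := by
      ext i; simp
    simpa [hT, Fintype.linearCombination_apply, h3, MvPolynomial.coeff_sum,
      MvPolynomial.coeff_smul] using h2
  · push Not at hb
    obtain ⟨i, hi⟩ := hb
    apply MvPolynomial.coeff_eq_zero_of_totalDegree_lt
    have h4 : (∑ x, c x • mon P k J x).totalDegree ≤ N := by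
      refine MvPolynomial.totalDegree_finsetSum_le fun x _ => ?_
      exact (MvPolynomial.totalDegree_smul_le _ _).trans (mon_deg P hP k J x)
    have h5 : b i ≤ ∑ j ∈ b.support, b j := by
      apply Finset.single_le_sum (f := fun j => b j) (fun _ _ => Nat.zero_le _)
      rw [Finsupp.mem_support_iff]; omega
    omega

/-- For almost every `z` the set of the `y` with `P y = z` lies in a product of `d` sets of at most
`J` elements. -/
theorem ae_pi {d D : ℕ} (P : Fin d → MvPolynomial (Fin d) ℝ)
    (hP : ∀ i, (P i).totalDegree ≤ D) (k : Fin d) (J : ℕ) (hJ : J = (d * D + 1) ^ d) :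
    ∀ᵐ z : Fin d → ℝ, ∃ s : Finset ℝ, s.card ≤ J ∧
      ∀ y : Fin d → ℝ, (∀ i, MvPolynomial.eval y (P i) = z i) → y k ∈ s := by
  classical
  obtain ⟨c, hc0, hc⟩ := alg_dep P hP k J hJ
  obtain ⟨x, hx⟩ := Function.ne_iff.mp hc0
  set A : Fin (J + 1) → MvPolynomial (Fin d) ℝ := fun j =>
    ∑ a : Fin d → Fin (J + 1), MvPolynomial.monomial
      (Finsupp.equivFunOnFinite.symm fun i => (a i : ℕ)) (c (a, j)) with hA
  have hAx : A x.2 ≠ 0 := by
    intro h
    have h1 := congrArg (MvPolynomial.coeff
      (Finsupp.equivFunOnFinite.symm fun i => (x.1 i : ℕ))) h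
    rw [hA] at h1
    simp only [MvPolynomial.coeff_sum, MvPolynomial.coeff_monomial, MvPolynomial.coeff_zero] at h1
    rw [Finset.sum_eq_single x.1] at h1
    · simp at h1
      exact hx h1
    · intro a _ ha
      rw [if_neg]
      intro h2
      apply ha
      funext i
      have := DFunLike.congr_fun h2 i
      simp at this
      exact Fin.ext this
    · simp
  have hae : ∀ᵐ z : Fin d → ℝ, MvPolynomial.eval z (A x.2) ≠ 0 := by
    rw [ae_iff]
    simpa using null_zeros _ _ hAx
  filter_upwards [hae] with z hz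
  set Q : Polynomial ℝ := ∑ j : Fin (J + 1),
    Polynomial.monomial (j : ℕ) (MvPolynomial.eval z (A j)) with hQ
  have hQc : Q.coeff (x.2 : ℕ) = MvPolynomial.eval z (A x.2) := by
    rw [hQ, Polynomial.finsetSum_coeff, Finset.sum_eq_single x.2]
    · simp
    · intro j _ hj
      rw [Polynomial.coeff_monomial, if_neg]
      intro h
      exact hj (Fin.ext h)
    · simp
  have hQ0 : Q ≠ 0 := by
    intro h
    apply hz
    rw [← hQc, h, Polynomial.coeff_zero]
  have hQd : Q.natDegree ≤ J := by
    rw [hQ]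
    refine Polynomial.natDegree_sum_le_of_forall_le _ _ fun j _ => ?_
    exact (Polynomial.natDegree_monomial_le _).trans (Nat.lt_succ_iff.mp j.2)
  refine ⟨Q.roots.toFinset, ?_, ?_⟩
  · exact (Multiset.toFinset_card_le _).trans ((Polynomial.card_roots' Q).trans hQd)
  · intro y hy
    rw [Multiset.mem_toFinset, Polynomial.mem_roots hQ0, Polynomial.IsRoot.def]
    have h1 := congrArg (MvPolynomial.eval y) hc
    rw [map_zero, map_sum] at h1
    rw [← h1, hQ, Polynomial.eval_finsetSum, Fintype.sum_prod_type, Finset.sum_comm]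
    refine Finset.sum_congr rfl fun j _ => ?_
    rw [Polynomial.eval_monomial, hA, map_sum, Finset.sum_mul]
    refine Finset.sum_congr rfl fun a _ => ?_
    rw [MvPolynomial.eval_monomial, MvPolynomial.smul_eval, mon]
    simp only [map_mul, map_prod, map_pow, MvPolynomial.eval_X, hy]
    rw [Finsupp.prod_fintype _ _ (fun i => pow_zero _)]
    simp [mul_assoc]

/-- A polynomial map of degree at most `D` has at most `J(d, D)` preimages of almost every point. -/
theorem ae_mult (d D : ℕ) : ∃ J : ℕ, ∀ P : Fin d → MvPolynomial (Fin d) ℝ,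
    (∀ i, (P i).totalDegree ≤ D) → ∀ᵐ z : Fin d → ℝ,
      {y : Fin d → ℝ | ∀ i, MvPolynomial.eval y (P i) = z i}.encard ≤ J := by
  classical
  refine ⟨((d * D + 1) ^ d) ^ d, fun P hP => ?_⟩
  have h : ∀ᵐ z : Fin d → ℝ, ∀ k : Fin d, ∃ s : Finset ℝ, s.card ≤ (d * D + 1) ^ d ∧
      ∀ y : Fin d → ℝ, (∀ i, MvPolynomial.eval y (P i) = z i) → y k ∈ s :=
    ae_all_iff.mpr fun k => ae_pi P hP k _ rfl
  filter_upwards [h] with z hz
  choose s hs hys using hz
  have hsub : {y : Fin d → ℝ | ∀ i, MvPolynomial.eval y (P i) = z i} ⊆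
      (Fintype.piFinset s : Set (Fin d → ℝ)) := by
    intro y hy
    rw [Finset.mem_coe, Fintype.mem_piFinset]
    exact fun k => hys k y hy
  refine (Set.encard_le_encard hsub).trans ?_
  rw [Set.encard_coe_eq_coe_finsetCard, Fintype.card_piFinset]
  have : ∏ k, (s k).card ≤ ((d * D + 1) ^ d) ^ d := by
    calc ∏ k, (s k).card ≤ ∏ _k : Fin d, (d * D + 1) ^ d :=
          Finset.prod_le_prod' fun k _ => hs k
      _ = ((d * D + 1) ^ d) ^ d := by simp
  exact_mod_cast this

end Pool.Agent.GNP
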