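import Mathlib

/-!
GP row P5, area formula half: the area formula and the area inequality for a map of a
finite-dimensional space, with multiplicity counted for almost every value.
-/

set_option autoImplicit false

namespace Pool.Agent.GNP

open MeasureTheory Set
open scoped ENNReal Real

variable {E : Type*} [NormedAddCommGroup E] [NormedSpace ℝ E] [FiniteDimensional ℝ E]

theorem area_loc (f : E → E) (L : E →L[ℝ] E) (y : E)
    (hf : HasStrictFDerivAt f L y) (hd : L.det ≠ 0) :
    ∃ U : Set E, IsOpen U ∧ y ∈ U ∧ InjOn f U := by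
  have : CompleteSpace E := FiniteDimensional.complete ℝ E
  have h1 : HasStrictFDerivAt f
      ((L.toContinuousLinearEquivOfDetNeZero hd : E ≃L[ℝ] E) : E →L[ℝ] E) y := by
    rw [ContinuousLinearMap.coe_toContinuousLinearEquivOfDetNeZero]
    exact hf
  refine ⟨(h1.toOpenPartialHomeomorph f).source, (h1.toOpenPartialHomeomorph f).open_source,
    h1.mem_toOpenPartialHomeomorph_source, ?_⟩
  have h2 := (h1.toOpenPartialHomeomorph f).injOn
  rwa [h1.toOpenPartialHomeomorph_coe] at h2

/-- A set on which a strictly differentiable map has invertible derivative is a countable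
disjoint union of measurable pieces on which the map is injective. -/
theorem area_pieces [MeasurableSpace E] [BorelSpace E]
    (f : E → E) (f' : E → E →L[ℝ] E) (A : Set E) (hA : MeasurableSet A)
    (hf : ∀ y ∈ A, HasStrictFDerivAt f (f' y) y) (hdet : ∀ y ∈ A, (f' y).det ≠ 0) :
    ∃ V : ℕ → Set E, (∀ j, MeasurableSet (V j)) ∧ (Pairwise fun i j => Disjoint (V i) (V j)) ∧
      (∀ j, InjOn f (A ∩ V j)) ∧ A = ⋃ j, A ∩ V j := by
  classical
  rcases A.eq_empty_or_nonempty with hAe | hAn
  · subst hAe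
    refine ⟨fun _ => ∅, fun _ => MeasurableSet.empty, fun i j _ => disjoint_bot_left,
      fun j => ?_, ?_⟩
    · simp
    · simp
  have hloc : ∀ y : E, ∃ U : Set E, y ∈ A → IsOpen U ∧ y ∈ U ∧ InjOn f U := by
    intro y
    by_cases hy : y ∈ A
    · obtain ⟨U, hU⟩ := area_loc f (f' y) y (hf y hy) (hdet y hy)
      exact ⟨U, fun _ => hU⟩
    · exact ⟨∅, fun h => absurd h hy⟩
  choose U hU using hloc
  have : SecondCountableTopology E := by
    have : ProperSpace E := FiniteDimensional.proper ℝ E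
    infer_instance
  obtain ⟨t, htA, htc, htU⟩ := TopologicalSpace.countable_cover_nhdsWithin (f := U) (s := A)
    (fun y hy => mem_nhdsWithin_of_mem_nhds ((hU y hy).1.mem_nhds (hU y hy).2.1))
  have htn : t.Nonempty := by
    obtain ⟨y, hy⟩ := hAn
    obtain ⟨x, hx⟩ := Set.mem_iUnion.1 (htU hy)
    obtain ⟨hx1, -⟩ := Set.mem_iUnion.1 hx
    exact ⟨x, hx1⟩
  obtain ⟨u, hu⟩ := htc.exists_eq_range htn
  have huA : ∀ j, u j ∈ A := fun j => htA (hu ▸ Set.mem_range_self j)
  refine ⟨disjointed (fun j => U (u j)), fun j =>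
    MeasurableSet.disjointed (fun i => (hU _ (huA i)).1.measurableSet) j,
    disjoint_disjointed _, fun j =>
    (hU _ (huA j)).2.2.mono (inter_subset_right.trans (disjointed_subset _ j)), ?_⟩
  rw [← Set.inter_iUnion, iUnion_disjointed]
  refine (Set.inter_eq_left.2 ?_).symm
  intro y hy
  obtain ⟨x, hx⟩ := Set.mem_iUnion.1 (htU hy)
  obtain ⟨hx1, hx2⟩ := Set.mem_iUnion.1 hx
  rw [hu] at hx1
  obtain ⟨j, rfl⟩ := hx1
  exact Set.mem_iUnion.2 ⟨j, hx2⟩

/-- The area formula on a set where the derivative is invertible: the integral of the absolute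
value of the Jacobian is the integral of the number of preimages. -/
theorem area_formula_of_ne_zero [MeasurableSpace E] [BorelSpace E] (μ : Measure E)
    [μ.IsAddHaarMeasure] (f : E → E) (f' : E → E →L[ℝ] E) (A : Set E) (hA : MeasurableSet A)
    (hf : ∀ y ∈ A, HasStrictFDerivAt f (f' y) y) (hdet : ∀ y ∈ A, (f' y).det ≠ 0) :
    ∫⁻ y in A, ENNReal.ofReal |(f' y).det| ∂μ =
      ∫⁻ z, ((A ∩ f ⁻¹' {z}).encard : ℝ≥0∞) ∂μ := by
  classical
  have : MeasurableSingletonClass E := inferInstance
  obtain ⟨V, hVm, hVd, hinj, hAV⟩ := area_pieces f f' A hA hf hdet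
  have hAm : ∀ j, MeasurableSet (A ∩ V j) := fun j => hA.inter (hVm j)
  have hder : ∀ j, ∀ y ∈ A ∩ V j, HasFDerivWithinAt f (f' y) (A ∩ V j) y := fun j y hy =>
    (hf y hy.1).hasFDerivAt.hasFDerivWithinAt
  have himm : ∀ j, MeasurableSet (f '' (A ∩ V j)) := fun j =>
    measurable_image_of_fderivWithin (hAm j) (hder j) (hinj j)
  have hcount : ∀ z : E, ((A ∩ f ⁻¹' {z}).encard : ℝ≥0∞) =
      ∑' j, (f '' (A ∩ V j)).indicator (fun _ => (1 : ℝ≥0∞)) z := by
    intro z
    have hsub : ∀ j, (A ∩ V j ∩ f ⁻¹' {z}).Subsingleton := by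
      intro j x hx y hy
      exact hinj j hx.1 hy.1 (by rw [show f x = z from hx.2, show f y = z from hy.2])
    have e1 : A ∩ f ⁻¹' {z} = ⋃ j, A ∩ V j ∩ f ⁻¹' {z} := by
      rw [← Set.iUnion_inter, ← hAV]
    have hms : MeasurableSet (A ∩ f ⁻¹' {z}) := by
      rw [e1]
      exact MeasurableSet.iUnion fun j => (hsub j).measurableSet
    rw [← Measure.count_apply hms, e1, measure_iUnion]
    · refine tsum_congr fun j => ?_
      by_cases hz : z ∈ f '' (A ∩ V j)
      · rw [indicator_of_mem hz]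
        obtain ⟨y, hy, hyz⟩ := hz
        have e2 : A ∩ V j ∩ f ⁻¹' {z} = {y} := by
          refine (hsub j).eq_singleton_of_mem ⟨hy, hyz⟩
        rw [e2, Measure.count_singleton]
      · rw [indicator_of_notMem hz]
        have e2 : A ∩ V j ∩ f ⁻¹' {z} = ∅ := by
          rw [Set.eq_empty_iff_forall_notMem]
          rintro y ⟨hy, hyz⟩
          exact hz ⟨y, hy, hyz⟩
        rw [e2, measure_empty]
    · intro i j hij
      exact (hVd hij).mono (fun x hx => hx.1.2) (fun x hx => hx.1.2)
    · exact fun j => (hsub j).measurableSet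
  simp_rw [hcount]
  rw [lintegral_tsum (fun j => (measurable_const.indicator (himm j)).aemeasurable)]
  conv_lhs => rw [hAV]
  rw [lintegral_iUnion hAm (fun i j hij => (hVd hij).mono inter_subset_right inter_subset_right)]
  refine tsum_congr fun j => ?_
  rw [lintegral_abs_det_fderiv_eq_addHaar_image μ (hAm j) (hder j) (hinj j),
    lintegral_indicator (himm j), setLIntegral_one]

/-- The area formula: the integral of the absolute value of the Jacobian is the integral of the
number of nondegenerate preimages. -/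
theorem area_formula [MeasurableSpace E] [BorelSpace E] (μ : Measure E)
    [μ.IsAddHaarMeasure] (f : E → E) (f' : E → E →L[ℝ] E) (A : Set E) (hA : MeasurableSet A)
    (hf : ∀ y ∈ A, HasStrictFDerivAt f (f' y) y) :
    ∫⁻ y in A, ENNReal.ofReal |(f' y).det| ∂μ =
      ∫⁻ z, (({y | y ∈ A ∧ (f' y).det ≠ 0} ∩ f ⁻¹' {z}).encard : ℝ≥0∞) ∂μ := by
  classical
  have : CompleteSpace E := FiniteDimensional.complete ℝ E
  have e0 : {y | y ∈ A ∧ (f' y).det ≠ 0} = A ∩ {y | (fderiv ℝ f y).det ≠ 0} := by
    ext y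
    constructor
    · rintro ⟨h1, h2⟩
      refine ⟨h1, ?_⟩
      show (fderiv ℝ f y).det ≠ 0
      rwa [(hf y h1).hasFDerivAt.fderiv]
    · rintro ⟨h1, h2⟩
      refine ⟨h1, ?_⟩
      have h3 : (fderiv ℝ f y).det ≠ 0 := h2
      rwa [(hf y h1).hasFDerivAt.fderiv] at h3
  have hm : MeasurableSet {y | (fderiv ℝ f y).det ≠ 0} := by
    have h1 : Measurable fun y => (fderiv ℝ f y).det :=
      (ContinuousLinearMap.continuous_det (𝕜 := ℝ) (E := E)).measurable.comp (measurable_fderiv ℝ f)
    exact (h1 (measurableSet_singleton 0)).compl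
  have hB : MeasurableSet {y | y ∈ A ∧ (f' y).det ≠ 0} := by
    rw [e0]; exact hA.inter hm
  rw [← area_formula_of_ne_zero μ f f' {y | y ∈ A ∧ (f' y).det ≠ 0} hB (fun y hy => hf y hy.1)
    (fun y hy => hy.2)]
  have e1 : A = {y | y ∈ A ∧ (f' y).det ≠ 0} ∪ (A \ {y | y ∈ A ∧ (f' y).det ≠ 0}) := by
    rw [Set.union_sdiff_cancel]
    exact fun y hy => hy.1
  conv_lhs => rw [e1]
  rw [lintegral_union (hA.diff hB) disjoint_sdiff_right]
  have e2 : ∫⁻ y in A \ {y | y ∈ A ∧ (f' y).det ≠ 0}, ENNReal.ofReal |(f' y).det| ∂μ = 0 := by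
    rw [setLIntegral_congr_fun (g := fun _ => 0) (hA.diff hB) ?_, lintegral_zero]
    intro y hy
    have h1 : (f' y).det = 0 := by
      by_contra h2
      exact hy.2 ⟨hy.1, h2⟩
    simp [h1]
  rw [e2, add_zero]

/-- Area inequality, almost everywhere multiplicity: if almost every `z` has at most `N`
nondegenerate preimages in `A`, then the integral of `|det f'|` over `A` is at most `N` times
the measure of any set containing `f '' A`. -/
theorem area_lintegral_le [MeasurableSpace E] [BorelSpace E] (μ : Measure E)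
    [μ.IsAddHaarMeasure] (f : E → E) (f' : E → E →L[ℝ] E) (A T : Set E) (N : ℕ)
    (hA : MeasurableSet A) (hf : ∀ y ∈ A, HasStrictFDerivAt f (f' y) y) (hmaps : MapsTo f A T)
    (hN : ∀ᵐ z ∂μ, ∀ Z : Finset E, (∀ y ∈ Z, y ∈ A ∧ f y = z) → Z.card ≤ N) :
    ∫⁻ y in A, ENNReal.ofReal |(f' y).det| ∂μ ≤ N * μ T := by
  classical
  rw [area_formula μ f f' A hA hf]
  have hT' : μ (toMeasurable μ T) = μ T := measure_toMeasurable T
  rw [← hT']
  calc ∫⁻ z, (({y | y ∈ A ∧ (f' y).det ≠ 0} ∩ f ⁻¹' {z}).encard : ℝ≥0∞) ∂μ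
      ≤ ∫⁻ z, (toMeasurable μ T).indicator (fun _ => (N : ℝ≥0∞)) z ∂μ := by
        refine lintegral_mono_ae ?_
        filter_upwards [hN] with z hz
        by_cases hzT : z ∈ toMeasurable μ T
        · rw [indicator_of_mem hzT]
          have h1 : ({y | y ∈ A ∧ (f' y).det ≠ 0} ∩ f ⁻¹' {z}).encard ≤ N := by
            by_contra hcon
            push Not at hcon
            obtain ⟨Z, hZs, hZc⟩ := Set.exists_subset_encard_eq (Order.add_one_le_of_lt hcon)
            have hZf : Z.Finite := by
              apply Set.finite_of_encard_eq_coe (k := N + 1)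
              rw [hZc]; push_cast; rfl
            have h2 := hz hZf.toFinset (by
              intro y hy
              have := hZs ((Set.Finite.mem_toFinset hZf).1 hy)
              exact ⟨this.1.1, this.2⟩)
            have h3 : (hZf.toFinset.card : ℕ∞) = N + 1 := by
              rw [← hZc, hZf.encard_eq_coe_toFinset_card]
            have h4 : (hZf.toFinset.card : ℕ∞) ≤ N := by exact_mod_cast h2
            rw [h3] at h4
            have h5 : ((N + 1 : ℕ) : ℕ∞) ≤ (N : ℕ∞) := by exact_mod_cast h4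
            have h6 : N + 1 ≤ N := by exact_mod_cast h5
            omega
          have h2 : (({y | y ∈ A ∧ (f' y).det ≠ 0} ∩ f ⁻¹' {z}).encard : ℝ≥0∞) ≤
              ((N : ℕ∞) : ℝ≥0∞) := by exact_mod_cast h1
          simpa using h2
        · rw [indicator_of_notMem hzT]
          refine le_of_eq ?_
          have e : {y | y ∈ A ∧ (f' y).det ≠ 0} ∩ f ⁻¹' {z} = ∅ := by
            rw [Set.eq_empty_iff_forall_notMem]
            rintro y ⟨hy, hyz⟩
            apply hzT
            apply subset_toMeasurable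
            have : f y = z := hyz
            rw [← this]
            exact hmaps hy.1
          rw [e]
          simp
    _ = N * μ (toMeasurable μ T) := by
        rw [lintegral_indicator (measurableSet_toMeasurable μ T), setLIntegral_const]

/-- Area inequality, lower bound for the determinant. -/
theorem area_ineq [MeasurableSpace E] [BorelSpace E] (μ : Measure E)
    [μ.IsAddHaarMeasure] (f : E → E) (f' : E → E →L[ℝ] E) (A T : Set E) (N : ℕ) (δ : ℝ)
    (hA : MeasurableSet A)
    (hf : ∀ y ∈ A, HasStrictFDerivAt f (f' y) y) (hdet : ∀ y ∈ A, δ ≤ |(f' y).det|)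
    (hmaps : MapsTo f A T)
    (hN : ∀ᵐ z ∂μ, ∀ Z : Finset E, (∀ y ∈ Z, y ∈ A ∧ f y = z) → Z.card ≤ N) :
    ENNReal.ofReal δ * μ A ≤ N * μ T := by
  refine le_trans ?_ (area_lintegral_le μ f f' A T N hA hf hmaps hN)
  rw [← setLIntegral_const]
  exact setLIntegral_mono' hA fun y hy => ENNReal.ofReal_le_ofReal (hdet y hy)

end Pool.Agent.GNP
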