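import Pool.Agent.GNP.P0x
import Pool.Agent.GNP.P5a
import Pool.Agent.GNP.P5b

/-!
The gradient map of a polynomial: derivatives, and the integral of the absolute value of the
Hessian determinant over a set which is mapped into a ball.
-/

set_option autoImplicit false

namespace Pool.Agent.GNP

open MeasureTheory Set Pool.Agent.MP_6cbfb8_an
open scoped ENNReal Real RealInnerProductSpace ContDiff

theorem contDiff_pe {d : ℕ} (P : MvPolynomial (Fin d) ℝ) : ContDiff ℝ ∞ (pe P) := by
  unfold pe
  induction P using MvPolynomial.induction_on with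
  | C a => simp only [MvPolynomial.eval_C]; exact contDiff_const
  | add p q hp hq => simp only [map_add]; exact hp.add hq
  | mul_X p i hp =>
    simp only [map_mul, MvPolynomial.eval_X]
    exact hp.mul (contDiff_piLp_apply (i := i) (p := 2))

theorem gr_apply {d : ℕ} (q : E d → ℝ) (y : E d) (i : Fin d) :
    gr q y i = fderiv ℝ q y (EuclideanSpace.single i 1) := by
  rw [← inner_gr, EuclideanSpace.inner_single_right]
  simp

theorem hasFDerivAt_pe {d : ℕ} (P : MvPolynomial (Fin d) ℝ) (y v : E d) :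
    fderiv ℝ (pe P) y v = ∑ i, v i * pe (MvPolynomial.pderiv i P) y := by
  induction P using MvPolynomial.induction_on with
  | C a =>
    have h1 : pe (d := d) (MvPolynomial.C a) = fun _ => a := by
      funext z; simp [pe]
    rw [h1]
    simp [pe]
  | add p q hp hq =>
    have h1 : pe (d := d) (p + q) = fun z => pe p z + pe q z := by
      funext z; simp [pe]
    rw [h1, fderiv_fun_add ((contDiff_pe p).differentiable (by simp) y)
      ((contDiff_pe q).differentiable (by simp) y), add_apply, hp, hq,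
      ← Finset.sum_add_distrib]
    refine Finset.sum_congr rfl fun i _ => ?_
    simp only [map_add, pe]
    ring
  | mul_X p j hp =>
    have h1 : pe (d := d) (p * MvPolynomial.X j) = fun z => pe p z * z j := by
      funext z; simp [pe]
    have h2 : HasFDerivAt (fun z : E d => z j) (EuclideanSpace.proj j : E d →L[ℝ] ℝ) y :=
      (EuclideanSpace.proj j : E d →L[ℝ] ℝ).hasFDerivAt
    have h3 := (((contDiff_pe p).differentiable (by simp) y).hasFDerivAt).mul h2
    have h4 : fderiv ℝ (fun z : E d => pe p z * z j) y =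
        pe p y • (EuclideanSpace.proj j : E d →L[ℝ] ℝ) + y j • fderiv ℝ (pe p) y := h3.fderiv
    rw [h1, h4]
    simp only [add_apply, smul_apply, smul_eq_mul, hp]
    have h5 : ∀ i, v i * pe (MvPolynomial.pderiv i (p * MvPolynomial.X j)) y =
        (if i = j then v i * pe p y else 0) + y j * (v i * pe (MvPolynomial.pderiv i p) y) := by
      intro i
      rw [Derivation.leibniz]
      by_cases hij : i = j
      · subst hij
        simp only [MvPolynomial.pderiv_X_self, pe, smul_eq_mul, map_add, map_mul, map_one,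
          MvPolynomial.eval_X, if_true]
        ring
      · rw [MvPolynomial.pderiv_X_of_ne (fun h => hij h.symm)]
        simp only [pe, smul_eq_mul, map_add, map_mul, map_zero, MvPolynomial.eval_X, if_neg hij]
        ring
    simp only [h5, Finset.sum_add_distrib, Finset.sum_ite_eq', Finset.mem_univ, if_true,
      ← Finset.mul_sum]
    have h6 : (EuclideanSpace.proj j : E d →L[ℝ] ℝ) v = v j := rfl
    rw [h6]
    ring

theorem gr_pe {d : ℕ} (P : MvPolynomial (Fin d) ℝ) (y : E d) (i : Fin d) :
    gr (pe P) y i = pe (MvPolynomial.pderiv i P) y := by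
  rw [gr_apply, hasFDerivAt_pe]
  simp

theorem totalDegree_pderiv_le {d : ℕ} (i : Fin d) (P : MvPolynomial (Fin d) ℝ) :
    (MvPolynomial.pderiv i P).totalDegree ≤ P.totalDegree := by
  classical
  conv_lhs => rw [MvPolynomial.as_sum P, map_sum]
  refine MvPolynomial.totalDegree_finsetSum_le fun s hs => ?_
  rw [MvPolynomial.pderiv_monomial]
  by_cases h0 : MvPolynomial.coeff s P * (s i : ℝ) = 0
  · rw [h0, map_zero, MvPolynomial.totalDegree_zero]
    exact Nat.zero_le _
  · rw [MvPolynomial.totalDegree_monomial _ h0]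
    have h1 : (s.sum fun _ e => e) ≤ P.totalDegree := MvPolynomial.le_totalDegree hs
    refine le_trans ?_ h1
    rw [Finsupp.sum_fintype _ _ (by simp), Finsupp.sum_fintype _ _ (by simp)]
    refine Finset.sum_le_sum fun j _ => ?_
    simp

/-- Integral form of the area estimate for gradient maps of polynomials, from the bound of the
number of preimages of almost every point. -/
theorem poly_area_int_of (d D J : ℕ)
    (hJ : ∀ P : Fin d → MvPolynomial (Fin d) ℝ, (∀ i, (P i).totalDegree ≤ D) →
      ∀ᵐ z : Fin d → ℝ, ∀ Z : Finset (Fin d → ℝ),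
        (∀ y ∈ Z, ∀ i, MvPolynomial.eval y (P i) = z i) → Z.card ≤ J)
    (P : MvPolynomial (Fin d) ℝ) (hP : P.totalDegree ≤ D) (A T : Set (E d)) (hA : MeasurableSet A)
    (hT : ∀ y ∈ A, gr (pe P) y ∈ T) :
    ∫⁻ y in A, ENNReal.ofReal |(Hs (pe P) y).det| ≤ J * volume T := by
  have hst : ∀ y ∈ A, HasStrictFDerivAt (gr (pe P)) (Hs (pe P) y) y := by
    intro y _
    have h1 := contDiff_gr (contDiff_pe P)
    exact (h1.contDiffAt (x := y)).hasStrictFDerivAt (by simp)
  refine area_lintegral_le volume (gr (pe P)) (Hs (pe P)) A T J hA hst hT ?_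
  have h0 := hJ (fun i => MvPolynomial.pderiv i P) (fun i =>
    (totalDegree_pderiv_le i P).trans hP)
  have h1 := (EuclideanSpace.volume_preserving_symm_measurableEquiv_toLp (Fin d)).quasiMeasurePreserving.ae h0
  filter_upwards [h1] with z hz Z hZ
  classical
  have h2 := hz (Z.image fun y => (fun i => y i)) (by
    intro y hy i
    obtain ⟨w, hw, rfl⟩ := Finset.mem_image.1 hy
    have h3 := (hZ w hw).2
    have h4 := congrArg (fun u : E d => u i) h3
    simp only [gr_pe] at h4
    exact h4)
  rwa [Finset.card_image_of_injective] at h2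
  intro a b hab
  ext i
  exact congrFun hab i

/-- Integral form of the area estimate for gradient maps of polynomials. -/
theorem poly_area_set (d D : ℕ) : ∃ J : ℕ, ∀ P : MvPolynomial (Fin d) ℝ, P.totalDegree ≤ D →
    ∀ A T : Set (E d), MeasurableSet A → (∀ y ∈ A, gr (pe P) y ∈ T) →
    ∫⁻ y in A, ENNReal.ofReal |(Hs (pe P) y).det| ≤ J * volume T := by
  obtain ⟨J, hJ⟩ := ae_mult d D
  refine ⟨J, fun P hP A T hA hT => poly_area_int_of d D J (fun P hP => ?_) P hP A T hA hT⟩
  filter_upwards [hJ P hP] with z hz Z hZ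
  have h1 : (Z : Set (Fin d → ℝ)) ⊆ {y : Fin d → ℝ | ∀ i, MvPolynomial.eval y (P i) = z i} :=
    fun y hy => hZ y (Finset.mem_coe.1 hy)
  have h2 := (Set.encard_le_encard h1).trans hz
  rw [Set.encard_coe_eq_coe_finsetCard] at h2
  exact_mod_cast h2

/-- The set is mapped into a ball of radius `ρ`. -/
theorem poly_area_int (d D : ℕ) : ∃ C : ℝ, 0 < C ∧ ∀ P : MvPolynomial (Fin d) ℝ,
    P.totalDegree ≤ D → ∀ (x : E d) (ρ : ℝ), 0 ≤ ρ → ∀ A : Set (E d), MeasurableSet A →
    (∀ y ∈ A, ‖gr (pe P) y - x‖ ≤ ρ) →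
    ∫⁻ y in A, ENNReal.ofReal |(Hs (pe P) y).det| ≤ ENNReal.ofReal (C * ρ ^ d) := by
  obtain ⟨J, hJ⟩ := poly_area_set d D
  have hfin : volume (Metric.closedBall (0 : E d) 1) ≠ ⊤ :=
    (isCompact_closedBall _ _).measure_ne_top
  refine ⟨J * (volume (Metric.closedBall (0 : E d) 1)).toReal + 1, by positivity,
    fun P hP x ρ hρ A hA hx => ?_⟩
  refine (hJ P hP A (Metric.closedBall x ρ) hA fun y hy => ?_).trans ?_
  · rw [Metric.mem_closedBall, dist_eq_norm]
    exact hx y hy
  · have h1 : volume (Metric.closedBall x ρ) =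
        ENNReal.ofReal (ρ ^ d) * volume (Metric.closedBall (0 : E d) 1) := by
      rw [Measure.addHaar_closedBall' volume x hρ]
      simp
    rw [h1]
    have h2 : volume (Metric.closedBall (0 : E d) 1) =
        ENNReal.ofReal (volume (Metric.closedBall (0 : E d) 1)).toReal :=
      (ENNReal.ofReal_toReal hfin).symm
    rw [h2, ← ENNReal.ofReal_natCast, ← ENNReal.ofReal_mul (by positivity),
      ← ENNReal.ofReal_mul (by positivity)]
    refine ENNReal.ofReal_le_ofReal ?_
    rw [ENNReal.toReal_ofReal ENNReal.toReal_nonneg]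
    nlinarith [pow_nonneg hρ d]

/-- P5a. Almost every point has at most `C` preimages. -/
theorem poly_mult (d D : ℕ) : ∃ C : ℕ, ∀ p : Fin d → MvPolynomial (Fin d) ℝ,
    (∀ i, (p i).totalDegree ≤ D) →
    ∀ᵐ w : E d, {y : E d | ∀ i, pe (p i) y = w i}.encard ≤ C := by
  obtain ⟨J, hJ⟩ := ae_mult d D
  refine ⟨J, fun p hp => ?_⟩
  have h1 := (PiLp.volume_preserving_ofLp (Fin d)).quasiMeasurePreserving.ae (hJ p hp)
  filter_upwards [h1] with w hw
  refine le_trans ?_ hw
  have hinj : Function.Injective (fun y : E d => (fun i => y i : Fin d → ℝ)) := by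
    intro a b hab
    ext i
    exact congrFun hab i
  rw [← hinj.encard_image]
  refine Set.encard_le_encard ?_
  rintro _ ⟨y, hy, rfl⟩ i
  exact hy i

/-- P5b. Area formula with multiplicity. -/
theorem area_mult (d : ℕ) (C : ℕ) (G : E d → E d) (G' : E d → E d →L[ℝ] E d)
    (hG : ∀ y, HasFDerivAt G (G' y) y) (hG' : Continuous G')
    (hC : ∀ᵐ w : E d, {y : E d | G y = w}.encard ≤ C) (Y W : Set (E d)) (hY : MeasurableSet Y)
    (_hW : MeasurableSet W) (hYW : ∀ y ∈ Y, G y ∈ W) :
    ∫⁻ y in Y, ENNReal.ofReal |(G' y).det| ≤ C * volume W := by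
  refine area_lintegral_le volume G G' Y W C hY (fun y _ => ?_) hYW ?_
  · exact hasStrictFDerivAt_of_hasFDerivAt_of_continuousAt (Filter.Eventually.of_forall hG)
      hG'.continuousAt
  · filter_upwards [hC] with w hw Z hZ
    have h1 : (Z : Set (E d)) ⊆ {y : E d | G y = w} := fun y hy => (hZ y (Finset.mem_coe.1 hy)).2
    have h2 := (Set.encard_le_encard h1).trans hw
    rw [Set.encard_coe_eq_coe_finsetCard] at h2
    exact_mod_cast h2

/-- P5. -/
theorem poly_area (d D : ℕ) : ∃ C : ℝ, 0 < C ∧ ∀ P : MvPolynomial (Fin d) ℝ, P.totalDegree ≤ D →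
    ∀ (x : E d) (ρ : ℝ), 0 ≤ ρ →
    ∫⁻ y in {y : E d | ‖gr (pe P) y - x‖ ≤ ρ}, ENNReal.ofReal |(Hs (pe P) y).det| ≤
      ENNReal.ofReal (C * ρ ^ d) := by
  obtain ⟨C, hC, hI⟩ := poly_area_int d D
  refine ⟨C, hC, fun P hP x ρ hρ => hI P hP x ρ hρ _ ?_ fun y hy => hy⟩
  exact (isClosed_le (((continuous_gr (contDiff_pe P)).sub continuous_const).norm)
    continuous_const).measurableSet

end Pool.Agent.GNP
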