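import Pool.Agent.GNP.P0

/-!
Row TP: Taylor polynomials in several variables.
-/

namespace Pool.Agent.GNP

open MeasureTheory Set Pool.Agent.MP_6cbfb8_an
open scoped ENNReal Real RealInnerProductSpace ContDiff

section Perm

variable {V F : Type*} [NormedAddCommGroup V] [NormedSpace ℝ V] [NormedAddCommGroup F]
  [NormedSpace ℝ F]

theorem TP_diff {f : V → F} (hf : ContDiff ℝ ∞ f) (n : ℕ) :
    ContDiff ℝ ∞ (iteratedFDeriv ℝ n f) :=
  hf.iteratedFDeriv_right (m := ∞) (by norm_cast)

theorem TP_differentiable {f : V → F} (hf : ContDiff ℝ ∞ f) (n : ℕ) :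
    Differentiable ℝ (iteratedFDeriv ℝ n f) :=
  (TP_diff hf n).differentiable (by norm_num)

theorem TP_left {f : V → F} (hf : ContDiff ℝ ∞ f) (n : ℕ) (x : V) (m : Fin (n + 1) → V) :
    iteratedFDeriv ℝ (n + 1) f x m =
      fderiv ℝ (fun y => iteratedFDeriv ℝ n f y (Fin.tail m)) x (m 0) :=
  (TP_differentiable hf n x).iteratedFDeriv_succ_apply_left'

theorem TP_left2 {f : V → F} (hf : ContDiff ℝ ∞ f) (n : ℕ) (x : V) (m : Fin (n + 1 + 1) → V) :
    iteratedFDeriv ℝ (n + 1 + 1) f x m =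
      fderiv ℝ (fderiv ℝ (iteratedFDeriv ℝ n f)) x (m 0) (m 1) (Fin.tail (Fin.tail m)) := by
  rw [TP_left hf]
  set g := iteratedFDeriv ℝ n f with hg
  have hgs : ContDiff ℝ ∞ g := TP_diff hf n
  have h1 : (fun y => iteratedFDeriv ℝ (n + 1) f y (Fin.tail m)) =
      fun y => (fderiv ℝ g y (m 1)) (Fin.tail (Fin.tail m)) := by
    funext y
    rw [iteratedFDeriv_succ_apply_left]
    rfl
  rw [h1]
  have h2 : HasFDerivAt (fderiv ℝ g) (fderiv ℝ (fderiv ℝ g) x) x :=
    (((hgs.fderiv_right (m := ∞) (by norm_cast)).differentiable (by norm_num)) x).hasFDerivAt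
  have h3 := (h2.clm_apply (hasFDerivAt_const (m 1) x)).continuousMultilinear_apply_const
    (Fin.tail (Fin.tail m))
  rw [h3.fderiv]
  simp

theorem TP_swap {f : V → F} (hf : ContDiff ℝ ∞ f) : ∀ (n : ℕ) (i : Fin n) (x : V)
    (v : Fin (n + 1) → V),
    iteratedFDeriv ℝ (n + 1) f x (v ∘ Equiv.swap i.castSucc i.succ) =
      iteratedFDeriv ℝ (n + 1) f x v := by
  intro n
  induction n with
  | zero => intro i; exact i.elim0
  | succ n ih =>
    intro i x v
    refine Fin.cases ?_ (fun j => ?_) i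
    · rw [TP_left2 hf, TP_left2 hf]
      have h0 : (v ∘ Equiv.swap (Fin.castSucc (0 : Fin (n + 1))) (Fin.succ 0)) 0 = v 1 := by
        simp
      have h1 : (v ∘ Equiv.swap (Fin.castSucc (0 : Fin (n + 1))) (Fin.succ 0)) 1 = v 0 := by
        simp
      have h2 : Fin.tail (Fin.tail (v ∘ Equiv.swap (Fin.castSucc (0 : Fin (n + 1)))
          (Fin.succ 0))) = Fin.tail (Fin.tail v) := by
        funext k
        simp only [Fin.tail, Function.comp_apply]
        rw [Equiv.swap_apply_of_ne_of_ne]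
        · exact Fin.succ_ne_zero _
        · intro h
          exact Fin.succ_ne_zero k (Fin.succ_injective _ h)
      rw [h0, h1, h2]
      have hs : IsSymmSndFDerivAt ℝ (iteratedFDeriv ℝ n f) x :=
        ((TP_diff hf n).contDiffAt (x := x)).isSymmSndFDerivAt (by simp; norm_cast)
      rw [hs (v 1) (v 0)]
    · rw [TP_left hf, TP_left hf]
      have h0 : (v ∘ Equiv.swap (Fin.castSucc j.succ) (Fin.succ j.succ)) 0 = v 0 := by
        simp only [Function.comp_apply]
        rw [Equiv.swap_apply_of_ne_of_ne]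
        · intro h
          rw [Fin.castSucc_succ] at h
          exact (Fin.succ_ne_zero _ h.symm)
        · exact (Fin.succ_ne_zero _).symm
      have h1 : Fin.tail (v ∘ Equiv.swap (Fin.castSucc j.succ) (Fin.succ j.succ)) =
          Fin.tail v ∘ Equiv.swap j.castSucc j.succ := by
        funext k
        simp only [Fin.tail, Function.comp_apply]
        congr 1
        rw [Fin.castSucc_succ]
        exact (Fin.succ_injective _).swap_apply _ _ _
      rw [h0, h1]
      congr 2
      funext y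
      exact ih j y (Fin.tail v)

theorem TP_perm {f : V → F} (hf : ContDiff ℝ ∞ f) (n : ℕ) (x : V) (v : Fin n → V)
    (σ : Equiv.Perm (Fin n)) : iteratedFDeriv ℝ n f x (v ∘ σ) = iteratedFDeriv ℝ n f x v := by
  cases n with
  | zero => congr 1; funext i; exact i.elim0
  | succ n =>
    have hσ : σ ∈ Submonoid.closure (Set.range fun i : Fin n => Equiv.swap i.castSucc i.succ) := by
      rw [Equiv.Perm.mclosure_swap_castSucc_succ]
      trivial
    revert v
    induction hσ using Submonoid.closure_induction with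
    | mem τ hτ =>
      obtain ⟨i, rfl⟩ := hτ
      intro v
      exact TP_swap hf n i x v
    | one => intro v; rfl
    | mul τ ρ _ _ h1 h2 =>
      intro v
      have h3 : v ∘ ⇑(τ * ρ) = (v ∘ ⇑τ) ∘ ⇑ρ := rfl
      rw [h3, h2, h1]

end Perm

section Taylor

variable {V : Type*} [NormedAddCommGroup V] [NormedSpace ℝ V]

/-- The coefficients of the Taylor series of order `N`. -/
noncomputable def TPp (q : V → ℝ) (y0 : V) (N : ℕ) : FormalMultilinearSeries ℝ V ℝ := fun k =>
  if k ≤ N then ((k.factorial : ℝ)⁻¹) • iteratedFDeriv ℝ k q y0 else 0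

/-- The Taylor polynomial of degree `N`. -/
noncomputable def TPT (q : V → ℝ) (y0 : V) (N : ℕ) (y : V) : ℝ :=
  ∑ k ∈ Finset.range (N + 1), TPp q y0 N k (fun _ => y - y0)

theorem TPT_series (q : V → ℝ) (y0 : V) (N : ℕ) :
    HasFPowerSeriesOnBall (TPT q y0 N) (TPp q y0 N) y0 ∞ := by
  constructor
  · rw [FormalMultilinearSeries.radius_eq_top_of_forall_image_add_eq_zero (TPp q y0 N) (N + 1)]
    intro m
    simp only [TPp]
    rw [if_neg (by omega)]
  · exact ENNReal.zero_lt_top
  · intro y _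
    have h1 : TPT q y0 N (y0 + y) = ∑ k ∈ Finset.range (N + 1), TPp q y0 N k (fun _ => y) := by
      simp [TPT]
    rw [h1]
    apply hasSum_sum_of_ne_finset_zero
    intro k hk
    simp only [Finset.mem_range, not_lt] at hk
    simp only [TPp]
    rw [if_neg (by omega)]
    rfl

theorem TPT_low [CompleteSpace V] {q : V → ℝ} (hq : ContDiff ℝ ∞ q) (y0 : V) (N k : ℕ)
    (hk : k ≤ N) : iteratedFDeriv ℝ k (TPT q y0 N) y0 = iteratedFDeriv ℝ k q y0 := by
  ext v
  rw [(TPT_series q y0 N).iteratedFDeriv_eq_sum_of_completeSpace]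
  have h1 : ∀ σ : Equiv.Perm (Fin k), TPp q y0 N k (fun i => v (σ i)) =
      ((k.factorial : ℝ)⁻¹) * iteratedFDeriv ℝ k q y0 v := by
    intro σ
    simp only [TPp]
    rw [if_pos hk]
    have := TP_perm hq k y0 v σ
    rw [← this]
    rfl
  rw [Finset.sum_congr rfl (fun σ _ => h1 σ), Finset.sum_const, Finset.card_univ,
    Fintype.card_perm, Fintype.card_fin, nsmul_eq_mul, ← mul_assoc,
    mul_inv_cancel₀ (by positivity), one_mul]

theorem TP_hom_zero {k : ℕ} (A : ContinuousMultilinearMap ℝ (fun _ : Fin k => V) ℝ) (y0 : V)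
    (j : ℕ) (hj : k < j) : iteratedFDeriv ℝ j (fun y => A (fun _ => y - y0)) = 0 := by
  have h0 : iteratedFDeriv ℝ k (fun y => A (fun _ => y - y0)) =
      fun _ => iteratedFDeriv ℝ k (fun y => A (fun _ => y)) 0 := by
    funext y
    have h1 := iteratedFDeriv_comp_sub (𝕜 := ℝ) (f := fun z : V => A (fun _ => z)) k y0 y
    rw [h1]
    ext v
    rw [ContinuousMultilinearMap.iteratedFDeriv_comp_diagonal,
      ContinuousMultilinearMap.iteratedFDeriv_comp_diagonal]
  induction j with
  | zero => omega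
  | succ j ih =>
    rcases Nat.lt_succ_iff_lt_or_eq.mp hj with h | h
    · funext y
      rw [iteratedFDeriv_succ_eq_comp_left, ih h]
      simp only [Function.comp_apply, fderiv_zero, Pi.zero_apply]
      exact LinearIsometryEquiv.map_zero _
    · subst h
      funext y
      rw [iteratedFDeriv_succ_eq_comp_left, h0]
      simp only [Function.comp_apply, fderiv_fun_const, Pi.zero_apply]
      exact LinearIsometryEquiv.map_zero _

theorem TPT_smooth (q : V → ℝ) (y0 : V) (N : ℕ) : ContDiff ℝ ∞ (TPT q y0 N) := by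
  unfold TPT
  apply ContDiff.sum
  intro k _
  exact (TPp q y0 N k).contDiff.comp (contDiff_pi.mpr fun _ => contDiff_id.sub contDiff_const)

theorem TPT_high (q : V → ℝ) (y0 : V) (N : ℕ) (y : V) :
    iteratedFDeriv ℝ (N + 1) (TPT q y0 N) y = 0 := by
  unfold TPT
  have h : ∀ k ∈ Finset.range (N + 1), ContDiff ℝ (N + 1 : ℕ)
      (fun y => TPp q y0 N k (fun _ => y - y0)) := fun k _ =>
    (TPp q y0 N k).contDiff.comp (contDiff_pi.mpr fun _ => contDiff_id.sub contDiff_const)
  rw [iteratedFDeriv_sum h]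
  rw [Finset.sum_apply]
  apply Finset.sum_eq_zero
  intro k hk
  rw [TP_hom_zero _ _ _ (Finset.mem_range.mp hk)]
  rfl

theorem TP_remainder [CompleteSpace V] {q : V → ℝ} (hq : ContDiff ℝ ∞ q) (y0 : V) (N : ℕ)
    (δ B : ℝ) (hδ : 0 < δ)
    (hB : ∀ y, ‖y - y0‖ ≤ δ → ‖iteratedFDeriv ℝ (N + 1) q y‖ ≤ B) :
    ∀ k ≤ N + 1, ∀ y, ‖y - y0‖ ≤ δ →
      ‖iteratedFDeriv ℝ (N + 1 - k) (fun y => q y - TPT q y0 N y) y‖ ≤ B * δ ^ k := by
  have hf : ContDiff ℝ ∞ (fun y => q y - TPT q y0 N y) := hq.sub (TPT_smooth q y0 N)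
  have hsub : ∀ (j : ℕ) (y : V), iteratedFDeriv ℝ j (fun y => q y - TPT q y0 N y) y =
      iteratedFDeriv ℝ j q y - iteratedFDeriv ℝ j (TPT q y0 N) y := by
    intro j y
    have h1 : ContDiffAt ℝ j q y := (hq.of_le (by norm_cast; exact le_top)).contDiffAt
    have h2 : ContDiffAt ℝ j (TPT q y0 N) y :=
      ((TPT_smooth q y0 N).of_le (by norm_cast; exact le_top)).contDiffAt
    exact iteratedFDeriv_sub_apply h1 h2
  intro k
  induction k with
  | zero =>
    intro _ y hy
    rw [Nat.sub_zero, hsub, TPT_high, sub_zero, pow_zero, mul_one]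
    exact hB y hy
  | succ k ih =>
    intro hk y hy
    set j := N + 1 - (k + 1) with hj
    have hj1 : N + 1 - k = j + 1 := by omega
    have ih' := ih (by omega)
    rw [hj1] at ih'
    have h0 : iteratedFDeriv ℝ j (fun y => q y - TPT q y0 N y) y0 = 0 := by
      rw [hsub, TPT_low hq y0 N j (by omega), sub_self]
    have h1 := Convex.norm_image_sub_le_of_norm_fderiv_le (𝕜 := ℝ)
      (f := iteratedFDeriv ℝ j (fun y => q y - TPT q y0 N y))
      (s := Metric.closedBall y0 δ) (C := B * δ ^ k) (x := y0) (y := y)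
      (fun x _ => TP_differentiable hf j x)
      (fun x hx => by
        rw [norm_fderiv_iteratedFDeriv]
        exact ih' x (by simpa [dist_eq_norm] using hx))
      (convex_closedBall y0 δ) (by simp [hδ.le]) (by simpa [dist_eq_norm] using hy)
    rw [h0, sub_zero] at h1
    have hB0 : 0 ≤ B := (norm_nonneg _).trans (hB y0 (by simp [hδ.le]))
    calc ‖iteratedFDeriv ℝ j (fun y => q y - TPT q y0 N y) y‖ ≤ B * δ ^ k * ‖y - y0‖ := h1
      _ ≤ B * δ ^ k * δ := by gcongr
      _ = B * δ ^ (k + 1) := by ring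

end Taylor

/-- The Taylor polynomial as an element of `MvPolynomial`. -/
theorem TP_poly {d : ℕ} (q : E d → ℝ) (y0 : E d) (N : ℕ) :
    ∃ P : MvPolynomial (Fin d) ℝ, P.totalDegree ≤ N ∧ pe P = TPT q y0 N := by
  classical
  refine ⟨∑ k ∈ Finset.range (N + 1), ∑ r : Fin k → Fin d,
    MvPolynomial.C (TPp q y0 N k (fun i => EuclideanSpace.single (r i) (1 : ℝ))) *
      ∏ i, (MvPolynomial.X (r i) - MvPolynomial.C (y0 (r i))), ?_, ?_⟩
  · apply MvPolynomial.totalDegree_finsetSum_le
    intro k hk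
    apply MvPolynomial.totalDegree_finsetSum_le
    intro r _
    refine (MvPolynomial.totalDegree_mul _ _).trans ?_
    rw [MvPolynomial.totalDegree_C, zero_add]
    refine (MvPolynomial.totalDegree_finsetProd _ _).trans ?_
    have h1 : ∀ i ∈ (Finset.univ : Finset (Fin k)),
        (MvPolynomial.X (r i) - MvPolynomial.C (y0 (r i)) :
          MvPolynomial (Fin d) ℝ).totalDegree ≤ 1 := by
      intro i _
      refine (MvPolynomial.totalDegree_sub _ _).trans ?_
      simp
    refine (Finset.sum_le_sum h1).trans ?_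
    simp only [Finset.sum_const, Finset.card_univ, Fintype.card_fin, smul_eq_mul, mul_one]
    have := Finset.mem_range.mp hk
    omega
  · funext y
    unfold pe TPT
    rw [map_sum]
    apply Finset.sum_congr rfl
    intro k _
    rw [map_sum]
    have hy : (fun _ : Fin k => y - y0) = fun _ : Fin k => ∑ i, (y i - y0 i) •
        (EuclideanSpace.single i (1 : ℝ) : E d) := by
      funext _
      have h1 := (EuclideanSpace.basisFun (Fin d) ℝ).sum_repr (y - y0)
      simp only [EuclideanSpace.basisFun_apply, EuclideanSpace.basisFun_repr] at h1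
      rw [← h1]
      simp
    rw [hy]
    have h2 := (TPp q y0 N k).toMultilinearMap.map_sum
      (fun _ i => (y i - y0 i) • (EuclideanSpace.single i (1 : ℝ) : E d))
    simp only [ContinuousMultilinearMap.coe_coe] at h2
    rw [h2]
    apply Finset.sum_congr rfl
    intro r _
    rw [map_mul, MvPolynomial.eval_C, map_prod]
    have h3 := (TPp q y0 N k).toMultilinearMap.map_smul_univ (fun i => (y (r i) - y0 (r i)))
      (fun i => (EuclideanSpace.single (r i) (1 : ℝ) : E d))
    simp only [ContinuousMultilinearMap.coe_coe] at h3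
    rw [h3, smul_eq_mul, mul_comm]
    congr 1
    apply Finset.prod_congr rfl
    intro i _
    simp

theorem taylor_poly (d D : ℕ) : ∃ C : ℝ, 0 < C ∧ ∀ (q : E d → ℝ) (y0 : E d) (δ B : ℝ),
    ContDiff ℝ ∞ q → 0 < δ → δ ≤ 1 →
    (∀ y, ‖y - y0‖ ≤ δ → ‖iteratedFDeriv ℝ (D + 3) q y‖ ≤ B) →
    ∃ P : MvPolynomial (Fin d) ℝ, P.totalDegree ≤ D + 2 ∧ ∀ y, ‖y - y0‖ ≤ δ →
      ‖gr q y - gr (pe P) y‖ ≤ C * B * δ ^ (D + 2) ∧
      ‖Hs q y - Hs (pe P) y‖ ≤ C * B * δ ^ (D + 1) := by
  refine ⟨1, one_pos, ?_⟩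
  intro q y0 δ B hq hδ _ hB
  obtain ⟨P, hP, hPT⟩ := TP_poly q y0 (D + 2)
  refine ⟨P, hP, ?_⟩
  intro y hy
  have hT := TPT_smooth q y0 (D + 2)
  have hf : ContDiff ℝ ∞ (fun y => q y - TPT q y0 (D + 2) y) := hq.sub hT
  have hrem := TP_remainder hq y0 (D + 2) δ B hδ hB
  have hph : (fun y => q y - TPT q y0 (D + 2) y) = ph q (TPT q y0 (D + 2)) 1 1 := by
    funext z
    simp [ph]
  rw [hPT, one_mul]
  constructor
  · have h1 : gr q y - gr (TPT q y0 (D + 2)) y = gr (fun y => q y - TPT q y0 (D + 2) y) y := by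
      rw [hph, gr_ph hq hT]
      simp
    rw [h1, gr_eq, P0J_norm, ← norm_iteratedFDeriv_zero (𝕜 := ℝ), norm_iteratedFDeriv_fderiv]
    have h2 := hrem (D + 2) (by omega) y hy
    rwa [show D + 2 + 1 - (D + 2) = 0 + 1 by omega] at h2
  · have h1 : Hs q y - Hs (TPT q y0 (D + 2)) y = Hs (fun y => q y - TPT q y0 (D + 2) y) y := by
      rw [hph, Hs_ph hq hT]
      simp
    rw [h1, norm_Hs_eq hf]
    have h2 := hrem (D + 1) (by omega) y hy
    rwa [show D + 2 + 1 - (D + 1) = 2 by omega] at h2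

end Pool.Agent.GNP
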