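import Pool.Agent.GNP.CountInt
import Pool.Agent.GNP.P5
import Pool.Agent.GNP.TP

/-!
Area bound for the gradient map of a phase.
-/

namespace Pool.Agent.GNP

open MeasureTheory Set Pool.Agent.MP_6cbfb8_an
open scoped ENNReal Real RealInnerProductSpace ContDiff

theorem areaRow (d D : ℕ) : AreaRow d D := by
  obtain ⟨M, hM, h⟩ := poly_area d D
  refine ⟨M, hM, fun P hP S _ x ρ hρ hx => ?_⟩
  simp only [Real.enorm_eq_ofReal_abs]
  exact (lintegral_mono_set fun y hy => hx y hy).trans (h P hP x ρ hρ)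

/-- C2. Area bound for the gradient map of a phase. -/
theorem count_int (d : ℕ) (A : ℕ → ℝ) (r' ε : ℝ) (hε : 0 < ε) : ∃ K : ℝ, 0 < K ∧
    ∀ (q : E d → ℝ) (R : ℝ), 1 ≤ R → Phq d A R q → ∀ Y : Set (E d), MeasurableSet Y →
      Y ⊆ Metric.closedBall 0 r' → ∀ x : E d, (∀ y ∈ Y, ‖x - gr q y‖ ≤ R) →
        ∫⁻ y in Y, ENNReal.ofReal |(Hs q y).det| ≤ ENNReal.ofReal (K * R ^ ((d : ℝ) + ε)) := by
  obtain ⟨K, hK, h⟩ := count_int_of d (fun D => taylor_poly d D) (areaRow d) A (max r' 1) 1 ε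
    (by positivity) one_pos hε
  refine ⟨K, hK, fun q R hR hq Y hY hYr x hx => ?_⟩
  have h1 := h q R hR hq Y hY (fun y hy => by
    have := hYr hy
    rw [mem_closedBall_zero_iff] at this
    exact this.trans (le_max_left _ _)) x (fun y hy => by
    rw [one_mul, ← norm_neg, neg_sub]
    exact hx y hy)
  simpa only [Real.enorm_eq_ofReal_abs] using h1

end Pool.Agent.GNP
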