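import Pool.Agent.GNP.C4T

/-!
Every phase in few dimensions: the integration in `s`, assembly.
-/

namespace Pool.Agent.GNP

open MeasureTheory Set Pool.Agent.MP_6cbfb8_an
open scoped ENNReal Real RealInnerProductSpace ContDiff

theorem c4_fr (r t : ℝ) (R : ℝ) (hR : r = R⁻¹) :
    √(1 + t / R ^ 2) / max 1 (t / R) = fr r t := by
  subst hR
  unfold fr
  congr 2
  · rw [inv_pow]
    ring_nf
  · rw [inv_mul_eq_div]

theorem c4_Vv_nonneg {d : ℕ} (Φ h : E d → ℝ) (c s R : ℝ) (hR : 0 ≤ R) (y : E d) :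
    0 ≤ Vv Φ h c s R y := by
  unfold Vv Sd
  exact div_nonneg (div_nonneg (pow_nonneg hR d) (Finset.sum_nonneg fun _ _ => abs_nonneg _))
    (AA_nonneg _)

/-- Large `c`. -/
theorem c4_big (d : ℕ) (hd : 2 ≤ d) (A : ℕ → ℝ) (r r' b p ε C1 : ℝ) (hr : 0 < r)
    (hr' : r < r') (hb : 0 < b) (hp : 2 / (d : ℝ) < p - 2) (hp2 : p - 2 < 2)
    (hp3 : 2 / 3 ≤ p - 2) (hε : 0 < ε) :
    ∃ K : ℝ, 0 < K ∧ ∀ (Φ h : E d → ℝ) (a : E d → ℂ), Sm d A Φ → Sm d A h → Amp d A r a →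
      Df d b r' h → ∀ c : ℝ, K ≤ |c| →
      ∫⁻ s in {s : ℝ | |s| ≤ C1 * (1 + |c|)}, ∫⁻ x, ‖uu a (ph Φ h c s) x‖ₑ ^ p ≤
        ENNReal.ofReal (K * (1 + |c|) ^ (3 * ε)) := by
  set J : ℕ := ⌈1 / ε⌉₊ with hJ
  have hJ1 : 1 ≤ ((J : ℝ) + 1) * ε := by
    have h1 : 1 / ε ≤ J := Nat.le_ceil _
    rw [div_le_iff₀ hε] at h1
    nlinarith
  obtain ⟨m, Ks, hKs, hfix⟩ := fixed_s d J (by omega) A r r' b p ε C1 hr hr' hb (by linarith) hε hJ1
  obtain ⟨Cv, hCv, hV⟩ := V_le d (by omega) A r' b hb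
  obtain ⟨c1, C2, Kb, κ1, hc1, hC2, hKb, hκ1, hbad⟩ := bad d J m hd A b r' ε hb (by linarith) hε
  obtain ⟨Ka, hKa, habs⟩ := as2_abs d hd (p - 2) hp hp2 hp3 (c1 / Cv) (C2 * Cv) Cv
    (by positivity) (by positivity) hCv
  set V : ℝ := (volume (Metric.closedBall (0 : E d) r')).toReal with hVd
  have hV0 : 0 ≤ V := ENNReal.toReal_nonneg
  have hVe : volume (Metric.closedBall (0 : E d) r') = ENNReal.ofReal V :=
    (ENNReal.ofReal_toReal measure_closedBall_lt_top.ne).symm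
  set K : ℝ := max (max Ks (κ1 ^ (1 / ε)))
    (Ks * ((Ks + 1) * (Ka * ((2 ^ (m + 3) + Cv / c1) * V + V + Kb)))) with hK
  refine ⟨K, lt_of_lt_of_le hKs ((le_max_left _ _).trans (le_max_left _ _)), ?_⟩
  intro Φ h a hΦ hh ha hdef c hc
  set κ : ℝ := (1 + |c|) ^ ε with hκ
  have hc0 : 1 ≤ 1 + |c| := by linarith [abs_nonneg c]
  have hκone : 1 ≤ κ := Real.one_le_rpow hc0 hε.le
  have hκ' : κ1 ≤ κ := by
    have h1 : κ1 ^ (1 / ε) ≤ 1 + |c| := by
      have : κ1 ^ (1 / ε) ≤ K := (le_max_right _ _).trans (le_max_left _ _)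
      linarith
    calc κ1 = (κ1 ^ (1 / ε)) ^ ε := by
          rw [← Real.rpow_mul (by linarith), one_div, inv_mul_cancel₀ hε.ne', Real.rpow_one]
      _ ≤ κ := Real.rpow_le_rpow (by positivity) h1 hε.le
  have hKsc : Ks ≤ |c| := ((le_max_left _ _).trans (le_max_left _ _)).trans hc
  obtain ⟨e, N, hem, hNm, he1, hN1, hN2⟩ := hbad Φ h hΦ hh hdef c
  -- the roots
  have hroot : ∀ y : E d, ∃ μ : Fin d → ℝ, ‖y‖ ≤ r' → ∀ s R : ℝ, 1 ≤ R →
      0 < Sd Φ h c s R y ∧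
      Vv Φ h c s R y ≤ Cv * ∏ i, (√(1 + |s - μ i| / R ^ 2) / max 1 (|s - μ i| / R)) ∧
      ∃ i, ‖Hs (ph Φ h c s) y‖ ≤ Cv * |s - μ i| := by
    intro y
    by_cases hy : ‖y‖ ≤ r'
    · obtain ⟨μ, hμ⟩ := hV Φ h hΦ hh hdef y hy c
      exact ⟨μ, fun _ => hμ⟩
    · exact ⟨0, fun h => absurd h hy⟩
  choose ρ hρ using hroot
  set n : ℕ := ⌈Ks * κ⌉₊ - 1 with hn
  have hceil : 1 ≤ ⌈Ks * κ⌉₊ := Nat.one_le_ceil_iff.2 (by positivity)
  have hn1 : n + 1 = ⌈Ks * κ⌉₊ := by omega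
  have hpow : ∀ k : ℕ, (1 : ℝ) ≤ 2 ^ k := fun k => one_le_pow₀ (by norm_num)
  have hmain := habs (volume.restrict (Metric.closedBall (0 : E d) r'))
    (fun s => ∫⁻ x, ‖uu a (ph Φ h c s) x‖ₑ ^ p) {s : ℝ | |s| ≤ C1 * (1 + |c|)} n
    (ENNReal.ofReal (Ks * κ)) (2 ^ (m + 3) * κ + Cv / c1) (Kb * κ)
    (fun k => {z : ℝ × E d | z.2 ∈ Fl J κ (ph Φ h c z.1) r' m k})
    (fun k z => Vv Φ h c z.1 (2 ^ k) z.2) ρ N e
    (measurableSet_le (by fun_prop) measurable_const) (by positivity) hem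
    (fun k _ => measurableSet_lev d J κ Φ h hΦ.sm hh.sm c r' m k)
    (fun k _ => measurable_Vv d Φ h hΦ.sm hh.sm c (2 ^ k)) ?_ ?_ ?_
  · -- the conclusion
    refine hmain.trans ?_
    rw [Measure.restrict_apply_univ, hVe]
    have hn2 : ((n : ℝ≥0∞) + 1) ≤ ENNReal.ofReal ((Ks + 1) * κ) := by
      have h1 : ((n : ℝ≥0∞) + 1) = ENNReal.ofReal ((n + 1 : ℕ) : ℝ) := by
        rw [ENNReal.ofReal_natCast]
        push_cast
        rfl
      rw [h1, hn1]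
      refine ENNReal.ofReal_le_ofReal ?_
      have h2 : ((⌈Ks * κ⌉₊ : ℕ) : ℝ) < Ks * κ + 1 := Nat.ceil_lt_add_one (by positivity)
      nlinarith
    rw [← ENNReal.ofReal_mul (by positivity), ← ENNReal.ofReal_add (by positivity) hV0,
      ← ENNReal.ofReal_add (by positivity) (by positivity), ← ENNReal.ofReal_mul (by positivity)]
    refine (mul_le_mul_right (mul_le_mul_left hn2 _) _).trans ?_
    rw [← ENNReal.ofReal_mul (by positivity), ← ENNReal.ofReal_mul (by positivity)]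
    refine ENNReal.ofReal_le_ofReal ?_
    have h3 : (1 + |c|) ^ (3 * ε) = κ * κ * κ := by
      rw [hκ, ← Real.rpow_add (by linarith), ← Real.rpow_add (by linarith)]
      congr 1
      ring
    rw [h3]
    have h4 : (2 ^ (m + 3) * κ + Cv / c1) * V + V + Kb * κ ≤
        ((2 ^ (m + 3) + Cv / c1) * V + V + Kb) * κ := by
      have h5 : 0 ≤ Cv / c1 := by positivity
      nlinarith [mul_nonneg h5 hV0, mul_nonneg (mul_nonneg h5 hV0) (sub_nonneg.2 hκone),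
        mul_nonneg hV0 (sub_nonneg.2 hκone)]
    calc Ks * κ * ((Ks + 1) * κ * (Ka * ((2 ^ (m + 3) * κ + Cv / c1) * V + V + Kb * κ)))
        ≤ Ks * κ * ((Ks + 1) * κ * (Ka * (((2 ^ (m + 3) + Cv / c1) * V + V + Kb) * κ))) := by
          gcongr
      _ = (Ks * ((Ks + 1) * (Ka * ((2 ^ (m + 3) + Cv / c1) * V + V + Kb)))) * (κ * κ * κ) := by
          ring
      _ ≤ K * (κ * κ * κ) := by
          gcongr
          exact le_max_right _ _
  · -- fixed `s`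
    intro s hs
    refine (hfix Φ h a hΦ hh ha hdef c s hKsc hs).trans ?_
    rw [← hκ, hn1]
    refine mul_le_mul_right (Finset.sum_le_sum fun k _ => le_of_eq ?_) _
    have hFm : MeasurableSet (Fl J κ (ph Φ h c s) r' m k) :=
      measurableSet_Fl d J κ _ (contDiff_ph hΦ.sm hh.sm c s) r' m k
    have h1 : ∀ y, ({z : ℝ × E d | z.2 ∈ Fl J κ (ph Φ h c z.1) r' m k}).indicator
        (fun z => ENNReal.ofReal (Vv Φ h c z.1 (2 ^ k) z.2 ^ (p - 2))) (s, y) =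
        (Fl J κ (ph Φ h c s) r' m k).indicator
          (fun y => ENNReal.ofReal (Vv Φ h c s (2 ^ k) y ^ (p - 2))) y := by
      intro y
      by_cases hy : y ∈ Fl J κ (ph Φ h c s) r' m k
      · rw [indicator_of_mem hy, indicator_of_mem (show (s, y) ∈
          {z : ℝ × E d | z.2 ∈ Fl J κ (ph Φ h c z.1) r' m k} from hy)]
      · rw [indicator_of_notMem hy, indicator_of_notMem (show (s, y) ∉
          {z : ℝ × E d | z.2 ∈ Fl J κ (ph Φ h c z.1) r' m k} from hy)]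
    simp_rw [h1]
    rw [lintegral_indicator hFm, Measure.restrict_restrict hFm]
    congr 2
    refine (inter_eq_self_of_subset_left fun y hy => ?_).symm
    exact mem_closedBall_zero_iff.2 hy.1
  · -- the density
    intro k _ s y hy
    have hy' : ‖y‖ ≤ r' := hy.1
    refine ⟨c4_Vv_nonneg Φ h c s _ (by positivity) y, ?_⟩
    have h1 := (hρ y hy' s (2 ^ k) (hpow k)).2.1
    refine h1.trans (le_of_eq ?_)
    congr 1
    exact Finset.prod_congr rfl fun i _ => c4_fr _ _ _ rfl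
  · -- the levels
    intro k _
    rcases le_or_gt ((2 : ℝ) ^ k) (2 ^ (m + 3) * κ + Cv / c1) with hP | hP
    · exact Or.inl hP
    · refine Or.inr ⟨?_, hNm k, ?_, ?_, ?_⟩
      · have h1 : Cv / c1 ≤ 2 ^ k := by
          have : 0 ≤ 2 ^ (m + 3) * κ := by positivity
          linarith
        rw [inv_le_comm₀ (by positivity) (by positivity), inv_div]
        exact h1
      · intro s y hy hall
        have hy' : ‖y‖ ≤ r' := hy.1
        obtain ⟨i, hi⟩ := (hρ y hy' s (2 ^ k) (hpow k)).2.2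
        refine hN1 κ hκ' k s y hy ?_ ?_
        · have : 0 ≤ Cv / c1 := by positivity
          linarith
        · refine hi.trans ?_
          have h2 := hall i
          calc Cv * |s - ρ y i| ≤ Cv * (c1 / Cv / (((2 : ℝ) ^ k)⁻¹) ^ 3) := by gcongr
            _ = c1 * (2 ^ k) ^ 3 := by
              rw [inv_pow, div_inv_eq_mul]
              field_simp
      · intro s y hy
        have hy' : ‖y‖ ≤ r' := hy.1
        obtain ⟨i, hi⟩ := (hρ y hy' s (2 ^ k) (hpow k)).2.2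
        refine ⟨i, (he1 y hy' s).trans ?_⟩
        rw [mul_assoc]
        gcongr
      · intro δ hδ
        have hδ' : ((2 : ℝ) ^ k) ^ 2 ≤ δ := by
          rw [inv_pow, one_div, inv_inv] at hδ
          exact hδ
        have hset : MeasurableSet {y | y ∈ N k ∧ e y ≤ δ} :=
          (hNm k).inter (measurableSet_le hem measurable_const)
        rw [Measure.restrict_apply hset]
        refine (measure_mono ?_).trans ((hN2 k δ hδ').trans (le_of_eq ?_))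
        · rintro y ⟨⟨h1, h2⟩, h3⟩
          exact ⟨mem_closedBall_zero_iff.1 h3, h1, h2⟩
        · congr 1
          rw [inv_pow, ← hκ]
          field_simp

/-- Small `c`. -/
theorem c4_small (d : ℕ) (hd : 1 ≤ d) (A : ℕ → ℝ) (r r' p C1 c0 : ℝ) (hr : 0 < r)
    (hr' : r < r') (hp : 2 < p) (hC1 : 0 < C1) (hc0 : 0 ≤ c0) :
    ∃ K : ℝ, 0 < K ∧ ∀ (Φ h : E d → ℝ) (a : E d → ℂ), Sm d A Φ → Sm d A h → Amp d A r a →
      ∀ c : ℝ, |c| ≤ c0 →
      ∫⁻ s in {s : ℝ | |s| ≤ C1 * (1 + |c|)}, ∫⁻ x, ‖uu a (ph Φ h c s) x‖ₑ ^ p ≤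
        ENNReal.ofReal K := by
  obtain ⟨K, hK, H⟩ := near_s d hd A r r' p hr hr' hp
  set T : ℝ := C1 * (1 + c0) with hT
  have hT0 : 0 < T := by positivity
  refine ⟨K * (1 + c0 + T) * (2 * T), by positivity, ?_⟩
  intro Φ h a hΦ hh ha c hc
  have hsub : {s : ℝ | |s| ≤ C1 * (1 + |c|)} ⊆ Icc (-T) T := by
    intro s hs
    refine abs_le.1 (le_trans hs ?_)
    rw [hT]
    gcongr
  refine (lintegral_mono_set hsub).trans ?_
  refine (setLIntegral_mono' measurableSet_Icc (g := fun _ => ENNReal.ofReal (K * (1 + c0 + T)))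
    fun s hs => (H Φ h a hΦ hh ha c s).trans (ENNReal.ofReal_le_ofReal ?_)).trans ?_
  · have h1 : |s| ≤ T := abs_le.2 hs
    gcongr
  · rw [setLIntegral_const, Real.volume_Icc, ← ENNReal.ofReal_mul (by positivity)]
    exact ENNReal.ofReal_le_ofReal (le_of_eq (by ring))

/-- The range of small exponents. -/
theorem c4_aux (d : ℕ) (hd : 2 ≤ d) (A : ℕ → ℝ) (r r' b p ε : ℝ) (hr : 0 < r)
    (hr' : r < r') (hb : 0 < b) (hp : 2 / (d : ℝ) < p - 2) (hp2 : p - 2 < 2)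
    (hp3 : 2 / 3 ≤ p - 2) (hε : 0 < ε) :
    ∃ K : ℝ, 0 < K ∧ ∀ (Φ h : E d → ℝ) (a : E d → ℂ), Sm d A Φ → Sm d A h → Amp d A r a →
      Df d b r' h → ∀ c : ℝ, ∫⁻ s : ℝ, ∫⁻ x, ‖uu a (ph Φ h c s) x‖ₑ ^ p ≤
        ENNReal.ofReal (K * (1 + |c|) ^ ε) := by
  have hd0 : (0 : ℝ) < d := by
    have : (2 : ℝ) ≤ d := by exact_mod_cast hd
    linarith
  have hp' : 2 * ((d : ℝ) + 1) / d < p := by
    rw [div_lt_iff₀ hd0] at hp ⊢
    linarith
  obtain ⟨Kf, C1, hKf, hC1, hfar⟩ := far_s d (by omega) A r r' b p hr hr' hb hp'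
  obtain ⟨K1, hK1, hbig⟩ := c4_big d hd A r r' b p (ε / 3) C1 hr hr' hb hp hp2 hp3 (by positivity)
  obtain ⟨K2, hK2, hsmall⟩ := c4_small d (by omega) A r r' p C1 K1 hr hr' (by linarith) hC1 hK1.le
  refine ⟨Kf + K1 + K2, by positivity, ?_⟩
  intro Φ h a hΦ hh ha hdef c
  have hc1 : 1 ≤ (1 + |c|) ^ ε := Real.one_le_rpow (by linarith [abs_nonneg c]) hε.le
  have hnear : ∫⁻ s in {s : ℝ | |s| ≤ C1 * (1 + |c|)}, ∫⁻ x, ‖uu a (ph Φ h c s) x‖ₑ ^ p ≤
      ENNReal.ofReal ((K1 + K2) * (1 + |c|) ^ ε) := by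
    rcases le_total K1 |c| with hc | hc
    · refine (hbig Φ h a hΦ hh ha hdef c hc).trans (ENNReal.ofReal_le_ofReal ?_)
      rw [show 3 * (ε / 3) = ε by ring]
      gcongr
      linarith
    · refine (hsmall Φ h a hΦ hh ha c hc).trans (ENNReal.ofReal_le_ofReal ?_)
      nlinarith
  have huniv : (univ : Set ℝ) ⊆ {s : ℝ | |s| ≤ C1 * (1 + |c|)} ∪ {s : ℝ | C1 * (1 + |c|) ≤ |s|} :=
    fun s _ => (le_total |s| (C1 * (1 + |c|))).imp id id
  calc ∫⁻ s : ℝ, ∫⁻ x, ‖uu a (ph Φ h c s) x‖ₑ ^ p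
      = ∫⁻ s in univ, ∫⁻ x, ‖uu a (ph Φ h c s) x‖ₑ ^ p := by rw [Measure.restrict_univ]
    _ ≤ ∫⁻ s in {s : ℝ | |s| ≤ C1 * (1 + |c|)} ∪ {s : ℝ | C1 * (1 + |c|) ≤ |s|},
          ∫⁻ x, ‖uu a (ph Φ h c s) x‖ₑ ^ p := lintegral_mono_set huniv
    _ ≤ _ := lintegral_union_le _ _ _
    _ ≤ ENNReal.ofReal ((K1 + K2) * (1 + |c|) ^ ε) + ENNReal.ofReal Kf :=
        add_le_add hnear (hfar Φ h a hΦ hh ha hdef c)
    _ ≤ _ := by
        rw [← ENNReal.ofReal_add (by positivity) hKf.le]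
        refine ENNReal.ofReal_le_ofReal ?_
        nlinarith

theorem c4_uu_le {d : ℕ} {A : ℕ → ℝ} {r : ℝ} {a : E d → ℂ} (ha : Amp d A r a) (q : E d → ℝ)
    (x : E d) : ‖uu a q x‖ ≤ A 0 * (volume (Metric.closedBall (0 : E d) r)).toReal := by
  have hA : ∀ y, ‖a y‖ ≤ A 0 := fun y => by
    have := ha.bd 0 y
    rwa [norm_iteratedFDeriv_zero] at this
  have hA0 : 0 ≤ A 0 := (norm_nonneg _).trans (hA 0)
  unfold uu
  have h1 : ∫ y, a y * Complex.exp (((q y - ⟪x, y⟫ : ℝ) : ℂ) * Complex.I) =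
      ∫ y in Metric.closedBall (0 : E d) r,
        a y * Complex.exp (((q y - ⟪x, y⟫ : ℝ) : ℂ) * Complex.I) := by
    symm
    refine setIntegral_eq_integral_of_forall_compl_eq_zero fun y hy => ?_
    rw [ha.supp y (by simpa using hy), zero_mul]
  rw [h1]
  refine norm_setIntegral_le_of_norm_le_const measure_closedBall_lt_top fun y _ => ?_
  rw [norm_mul, Complex.norm_exp_ofReal_mul_I, mul_one]
  exact hA y

/-- Every phase: the bound in a chart, with a loss of `(1 + |c|)^ε`. -/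
theorem core4 (d : ℕ) (hd : 2 ≤ d) (A : ℕ → ℝ) (r r' b p ε : ℝ) (hr : 0 < r)
    (hr' : r < r') (hb : 0 < b) (hp : 2 * ((d : ℝ) + 1) / d < p) (hp3 : 8 / 3 ≤ p) (hε : 0 < ε) :
    ∃ K : ℝ, 0 < K ∧ ∀ (Φ h : E d → ℝ) (a : E d → ℂ), Sm d A Φ → Sm d A h → Amp d A r a →
      Df d b r' h → ∀ c : ℝ, ∫⁻ s : ℝ, ∫⁻ x, ‖uu a (ph Φ h c s) x‖ₑ ^ p ≤
        ENNReal.ofReal (K * (1 + |c|) ^ ε) := by
  have hd2 : (2 : ℝ) ≤ d := by exact_mod_cast hd
  have hd0 : (0 : ℝ) < d := by linarith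
  have hp' : 2 / (d : ℝ) < p - 2 := by
    rw [div_lt_iff₀ hd0] at hp ⊢
    linarith
  have hd1 : 2 / (d : ℝ) ≤ 1 := by
    rw [div_le_iff₀ hd0]
    linarith
  set p0 : ℝ := min p (7 / 2) with hp0
  have hp0p : p0 ≤ p := min_le_left _ _
  obtain ⟨K, hK, H⟩ := c4_aux d hd A r r' b p0 ε hr hr' hb
    (by rw [hp0]; rcases min_choice p (7 / 2 : ℝ) with h | h <;> rw [h] <;> linarith)
    (by have := min_le_right p (7 / 2 : ℝ); linarith)
    (by rw [hp0]; rcases min_choice p (7 / 2 : ℝ) with h | h <;> rw [h] <;> linarith) hε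
  set B : ℝ := |A 0| * (volume (Metric.closedBall (0 : E d) r)).toReal + 1 with hB
  have hB0 : 0 < B := by positivity
  refine ⟨B ^ (p - p0) * K, by positivity, ?_⟩
  intro Φ h a hΦ hh ha hdef c
  have hp00 : 0 ≤ p0 := by
    rw [hp0]; rcases min_choice p (7 / 2 : ℝ) with h | h <;> rw [h] <;> linarith
  have hpt : ∀ s x, ‖uu a (ph Φ h c s) x‖ₑ ^ p ≤
      ENNReal.ofReal (B ^ (p - p0)) * ‖uu a (ph Φ h c s) x‖ₑ ^ p0 := by
    intro s x
    have h1 : ‖uu a (ph Φ h c s) x‖ ≤ B := by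
      refine (c4_uu_le ha _ x).trans ?_
      rw [hB]
      have : A 0 * (volume (Metric.closedBall (0 : E d) r)).toReal ≤
          |A 0| * (volume (Metric.closedBall (0 : E d) r)).toReal :=
        mul_le_mul_of_nonneg_right (le_abs_self _) ENNReal.toReal_nonneg
      linarith
    have h2 : ‖uu a (ph Φ h c s) x‖ₑ ≤ ENNReal.ofReal B := by
      rw [← ofReal_norm]
      exact ENNReal.ofReal_le_ofReal h1
    calc ‖uu a (ph Φ h c s) x‖ₑ ^ p = ‖uu a (ph Φ h c s) x‖ₑ ^ (p - p0) *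
          ‖uu a (ph Φ h c s) x‖ₑ ^ p0 := by
          rw [← ENNReal.rpow_add_of_nonneg _ _ (by linarith) hp00]
          congr 1
          ring
      _ ≤ ENNReal.ofReal B ^ (p - p0) * ‖uu a (ph Φ h c s) x‖ₑ ^ p0 := by
          gcongr
      _ = _ := by rw [ENNReal.ofReal_rpow_of_pos hB0]
  calc ∫⁻ s : ℝ, ∫⁻ x, ‖uu a (ph Φ h c s) x‖ₑ ^ p
      ≤ ∫⁻ s : ℝ, ENNReal.ofReal (B ^ (p - p0)) * ∫⁻ x, ‖uu a (ph Φ h c s) x‖ₑ ^ p0 := by
        refine lintegral_mono fun s => ?_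
        rw [← lintegral_const_mul' _ _ ENNReal.ofReal_ne_top]
        exact lintegral_mono fun x => hpt s x
    _ = ENNReal.ofReal (B ^ (p - p0)) * ∫⁻ s : ℝ, ∫⁻ x, ‖uu a (ph Φ h c s) x‖ₑ ^ p0 :=
        lintegral_const_mul' _ _ ENNReal.ofReal_ne_top
    _ ≤ ENNReal.ofReal (B ^ (p - p0)) * ENNReal.ofReal (K * (1 + |c|) ^ ε) := by
        gcongr
        exact H Φ h a hΦ hh ha hdef c
    _ = _ := by
        rw [← ENNReal.ofReal_mul (by positivity)]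
        congr 1
        ring

end Pool.Agent.GNP
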