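import Pool.Agent.GNP.AS2a
import Pool.Agent.GNP.Far4
import Pool.Agent.GNP.VLe
import Pool.Agent.GNP.MV
import Pool.Agent.GNP.BAD
import Pool.Agent.GNP.NearS
import Pool.Agent.GNP.FS4
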