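import Pool.Agent.GNP.GEOT

/-!
The sets of unstable points of all scales, from the row `gap` (only the floor `1` is used).
-/

namespace Pool.Agent.GNP

open MeasureTheory Set Pool.Agent.MP_6cbfb8_an
open scoped ENNReal Real RealInnerProductSpace ContDiff

theorem stab_floor {d : ℕ} {s : E d → Fin d → ℝ} {K w w' σ : ℝ} {y : E d} (hK : 1 ≤ K)
    (hw : w ≤ w') (h : Stab s K w σ y) : Stab s K w' σ y := by
  intro y' hy' a b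
  have h1 := h y' hy' a b
  nlinarith

/-- The sets `X j` of the points which are unstable at the scale `2 * 2^-j`. -/
theorem fam_gap (d C : ℕ) (A : ℕ → ℝ) (b r : ℝ) (n0 : ℕ)
    (hgap : ∃ K0 : ℝ, 1 ≤ K0 ∧ ∀ K, K0 ≤ K → ∀ (Φ h : E d → ℝ) (z : E d) (c : ℝ), Sm d A Φ →
      Sm d A h → ‖z‖ ≤ n0 → DfB b z (2 * r) h → |c| ≤ K ^ n0 → ∀ w σ : ℝ, 1 ≤ w → 0 < σ →
      ∃ X : Set (E d), MeasurableSet X ∧ volume (X ∩ Metric.closedBall z r) ≤ ENNReal.ofReal (K * σ) ∧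
        ∀ y, ‖y - z‖ ≤ r → y ∉ X → Stab (mu Φ h c) K w σ y) :
    ∃ K0 : ℝ, 1 ≤ K0 ∧ ∀ K, K0 ≤ K → ∀ (Φ h : E d → ℝ) (z : E d) (c : ℝ), Sm d A Φ → Sm d A h →
      ‖z‖ ≤ n0 → DfB b z (2 * r) h → |c| ≤ K ^ n0 →
      ∃ X : ℕ → Set (E d), (∀ j, MeasurableSet (X j)) ∧
        (∀ j, volume (X j ∩ Metric.closedBall z r) ≤
          ENNReal.ofReal (K ^ (C + 2) * ((2 : ℝ) ^ j)⁻¹)) ∧
        (∀ (j : ℕ) (t : ℝ) (y : E d), ‖y - z‖ ≤ r → t ≤ 2 * ((2 : ℝ) ^ j)⁻¹ →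
          (∃ k : ℕ, ¬ Stab (mu Φ h c) K (2 ^ k) (K ^ C * t) y) → y ∈ X j) ∧
        ∀ (ρ t : ℝ) (y : E d), ‖y - z‖ ≤ r → Uns C K ρ (mu Φ h c) y t →
          ρ ≤ K ^ C * t ∨ ∀ j : ℕ, t ≤ 2 * ((2 : ℝ) ^ j)⁻¹ → y ∈ X j := by
  obtain ⟨K1, hK1, hg⟩ := hgap
  refine ⟨max K1 2, hK1.trans (le_max_left _ _), fun K hK Φ h z c hΦ hh hz hD hc => ?_⟩
  have hK1' : K1 ≤ K := (le_max_left _ _).trans hK
  have hK2 : 2 ≤ K := (le_max_right _ _).trans hK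
  have hK0 : 0 < K := by linarith
  have hex : ∀ j : ℕ, ∃ X : Set (E d), MeasurableSet X ∧
      volume (X ∩ Metric.closedBall z r) ≤ ENNReal.ofReal (K * (K ^ C * (2 * ((2 : ℝ) ^ j)⁻¹))) ∧
        ∀ y, ‖y - z‖ ≤ r → y ∉ X → Stab (mu Φ h c) K 1 (K ^ C * (2 * ((2 : ℝ) ^ j)⁻¹)) y :=
    fun j => hg K hK1' Φ h z c hΦ hh hz hD hc 1 (K ^ C * (2 * ((2 : ℝ) ^ j)⁻¹)) le_rfl
      (by positivity)
  choose X hXm hXv hXs using hex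
  have key : ∀ (j : ℕ) (t : ℝ) (y : E d), ‖y - z‖ ≤ r → t ≤ 2 * ((2 : ℝ) ^ j)⁻¹ →
      (∃ k : ℕ, ¬ Stab (mu Φ h c) K (2 ^ k) (K ^ C * t) y) → y ∈ X j := by
    rintro j t y hy ht ⟨k, hk⟩
    by_contra hyX
    refine hk (stab_mono (stab_floor (by linarith) (one_le_pow₀ (by norm_num)) (hXs j y hy hyX)) ?_)
    exact mul_le_mul_of_nonneg_left ht (by positivity)
  refine ⟨X, hXm, fun j => (hXv j).trans (ENNReal.ofReal_le_ofReal ?_), key, ?_⟩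
  · have h2 : (0 : ℝ) ≤ K ^ (C + 1) * ((2 : ℝ) ^ j)⁻¹ := by positivity
    calc K * (K ^ C * (2 * ((2 : ℝ) ^ j)⁻¹)) = 2 * (K ^ (C + 1) * ((2 : ℝ) ^ j)⁻¹) := by ring
      _ ≤ K * (K ^ (C + 1) * ((2 : ℝ) ^ j)⁻¹) := mul_le_mul_of_nonneg_right hK2 h2
      _ = K ^ (C + 2) * ((2 : ℝ) ^ j)⁻¹ := by ring
  · rintro ρ t y hy (hU | hU)
    · exact Or.inl hU
    · exact Or.inr fun j hj => key j t y hy hj hU

end Pool.Agent.GNP
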