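import Mathlib

/-!
# Sorted roots of a definite pencil (Weyl / Courant–Fischer)

For symmetric `M` and positive definite `B` (real `d × d` matrices) there are an invertible `Q`
and a sorted `s : Fin d → ℝ` with `Qᵀ B Q = 1`, `Qᵀ M Q = diag (-s)`; then
`det (M + t B) = det B * ∏ (t - s a)`. The sorted roots depend on `(M, B)` in a Lipschitz way
(`Dg.sub_le`).
-/

set_option autoImplicit false

open Matrix

namespace Pool.Agent.GNP.WEYL

variable {d : ℕ}

/-- `(Q, s)` diagonalises the pencil `M + t B`: `Qᵀ B Q = 1`, `Qᵀ M Q = diag (-s)`, `s` sorted. -/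
structure Dg (M B : Matrix (Fin d) (Fin d) ℝ) (Q : Matrix (Fin d) (Fin d) ℝ)
    (s : Fin d → ℝ) : Prop where
  mono : Monotone s
  one : Qᵀ * B * Q = 1
  dia : Qᵀ * M * Q = diagonal (fun a => -s a)

theorem exists_dg {M B : Matrix (Fin d) (Fin d) ℝ} (hM : M.IsHermitian) (hB : B.PosDef) :
    ∃ (Q : Matrix (Fin d) (Fin d) ℝ) (s : Fin d → ℝ), Dg M B Q s := by
  open scoped MatrixOrder in
  obtain ⟨C, hC⟩ := CStarAlgebra.nonneg_iff_eq_star_mul_self.mp hB.posSemidef.nonneg
  have hC' : B = Cᵀ * C := by rw [hC]; rfl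
  have hdet : C.det ≠ 0 := by
    intro h0
    have := hB.det_pos
    rw [hC', det_mul, h0, mul_zero] at this
    exact lt_irrefl _ this
  have hu : IsUnit C.det := isUnit_iff_ne_zero.mpr hdet
  have hut : IsUnit (Cᵀ).det := by rw [det_transpose]; exact hu
  set N : Matrix (Fin d) (Fin d) ℝ := (C⁻¹)ᵀ * M * C⁻¹ with hN
  have hNh : N.IsHermitian := by
    have h1 : Mᵀ = M := hM
    show Nᵀ = N
    rw [hN, transpose_mul, transpose_mul, transpose_transpose, h1, Matrix.mul_assoc]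
  set U : Matrix (Fin d) (Fin d) ℝ := (hNh.eigenvectorUnitary : Matrix (Fin d) (Fin d) ℝ) with hU
  have hUU : Uᵀ * U = 1 := by
    have := Unitary.coe_star_mul_self hNh.eigenvectorUnitary
    exact this
  have hUN : Uᵀ * N * U = diagonal hNh.eigenvalues := by
    have := hNh.conjStarAlgAut_star_eigenvectorUnitary
    rw [Unitary.conjStarAlgAut_star_apply] at this
    exact this
  set σ : Equiv.Perm (Fin d) := Tuple.sort (fun a => -hNh.eigenvalues a) with hσ
  refine ⟨C⁻¹ * U.submatrix id σ, fun a => -hNh.eigenvalues (σ a), ?_, ?_, ?_⟩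
  · exact Tuple.monotone_sort (fun a => -hNh.eigenvalues a)
  · have e1 : (C⁻¹ * U.submatrix id σ)ᵀ * B * (C⁻¹ * U.submatrix id σ)
        = (U.submatrix id σ)ᵀ * ((C⁻¹)ᵀ * Cᵀ) * (C * C⁻¹) * U.submatrix id σ := by
      rw [hC', transpose_mul]; simp only [Matrix.mul_assoc]
    rw [e1, mul_nonsing_inv _ hu, ← transpose_mul, mul_nonsing_inv _ hu, transpose_one,
      Matrix.mul_one, Matrix.mul_one]
    have e2 : (U.submatrix id σ)ᵀ * U.submatrix id σ = (Uᵀ * U).submatrix σ σ := by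
      rw [transpose_submatrix, submatrix_mul_equiv Uᵀ U σ (Equiv.refl _) σ |>.symm.trans rfl]
      rfl
    rw [e2, hUU]
    exact submatrix_one_equiv σ
  · have e1 : (C⁻¹ * U.submatrix id σ)ᵀ * M * (C⁻¹ * U.submatrix id σ)
        = (U.submatrix id σ)ᵀ * N * U.submatrix id σ := by
      rw [hN, transpose_mul]; simp only [Matrix.mul_assoc]
    rw [e1]
    ext a b
    have h2 := congrFun (congrFun hUN (σ a)) (σ b)
    have h3 : ((U.submatrix id σ)ᵀ * N * U.submatrix id σ) a b = (Uᵀ * N * U) (σ a) (σ b) := by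
      simp [Matrix.mul_apply]
    rw [h3, h2]
    by_cases hab : a = b
    · subst hab; simp
    · rw [diagonal_apply_ne _ hab, diagonal_apply_ne _ (fun h => hab (σ.injective h))]

theorem Dg.det_ne {M B Q : Matrix (Fin d) (Fin d) ℝ} {s : Fin d → ℝ} (h : Dg M B Q s) :
    Q.det ≠ 0 := by
  intro h0
  have := congrArg det h.one
  rw [det_mul, h0, mul_zero, det_one] at this
  exact zero_ne_one this

theorem Dg.det_pencil {M B Q : Matrix (Fin d) (Fin d) ℝ} {s : Fin d → ℝ} (h : Dg M B Q s)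
    (t : ℝ) : (M + t • B).det = B.det * ∏ a, (t - s a) := by
  have h1 : Qᵀ * (M + t • B) * Q = diagonal (fun a => t - s a) := by
    rw [Matrix.mul_add, Matrix.add_mul, h.dia, Matrix.mul_smul, Matrix.smul_mul, h.one]
    ext a b
    by_cases hab : a = b
    · subst hab; simp; ring
    · simp [diagonal_apply_ne _ hab, Matrix.one_apply_ne hab]
  have h2 := congrArg det h1
  rw [det_mul, det_mul, det_transpose, det_diagonal] at h2
  have h3 := congrArg det h.one
  rw [det_mul, det_mul, det_transpose, det_one] at h3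
  have h4 : Q.det ^ 2 * (M + t • B).det = ∏ a, (t - s a) := by rw [← h2]; ring
  have h5 : Q.det ^ 2 * B.det = 1 := by rw [← h3]; ring
  calc (M + t • B).det = (Q.det ^ 2 * B.det) * (M + t • B).det := by rw [h5, one_mul]
    _ = B.det * (Q.det ^ 2 * (M + t • B).det) := by ring
    _ = _ := by rw [h4]

/-- Sorted roots are determined by the polynomial. -/
theorem sorted_unique {s s' : Fin d → ℝ} (hs : Monotone s) (hs' : Monotone s')
    (h : ∀ t : ℝ, ∏ a, (t - s a) = ∏ a, (t - s' a)) : s = s' := by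
  classical
  have hp : (∏ a, (Polynomial.X - Polynomial.C (s a)) : Polynomial ℝ)
      = ∏ a, (Polynomial.X - Polynomial.C (s' a)) := by
    apply Polynomial.funext
    intro t
    simpa [Polynomial.eval_prod] using h t
  have hr : Multiset.map s Finset.univ.val = Multiset.map s' Finset.univ.val := by
    have := congrArg Polynomial.roots hp
    have e : ∀ f : Fin d → ℝ, (∏ a, (Polynomial.X - Polynomial.C (f a)) : Polynomial ℝ).roots
        = Multiset.map f Finset.univ.val := by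
      intro f
      have : (∏ a, (Polynomial.X - Polynomial.C (f a)) : Polynomial ℝ)
          = ((Multiset.map f Finset.univ.val).map (fun c => Polynomial.X - Polynomial.C c)).prod := by
        rw [Multiset.map_map]; rfl
      rw [this, Polynomial.roots_multiset_prod_X_sub_C]
    rwa [e, e] at this
  have hl : List.ofFn s = List.ofFn s' := by
    have e : ∀ f : Fin d → ℝ, Multiset.map f Finset.univ.val = (List.ofFn f : Multiset ℝ) := by
      intro f
      rw [List.ofFn_eq_map, ← Multiset.map_coe]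
      rfl
    rw [e, e, Multiset.coe_eq_coe] at hr
    exact List.Perm.eq_of_pairwise (fun a b _ _ h1 h2 => le_antisymm h1 h2)
      (List.pairwise_ofFn.mpr (fun i j hij => hs hij.le))
      (List.pairwise_ofFn.mpr (fun i j hij => hs' hij.le)) hr
  exact List.ofFn_injective hl

theorem Dg.unique {M B Q Q' : Matrix (Fin d) (Fin d) ℝ} {s s' : Fin d → ℝ} (h : Dg M B Q s)
    (h' : Dg M B Q' s') : s = s' := by
  have hB : B.det ≠ 0 := by
    intro h0
    have := congrArg det h.one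
    rw [det_mul, det_mul, h0, mul_zero, zero_mul, det_one] at this
    exact zero_ne_one this
  refine sorted_unique h.mono h'.mono fun t => ?_
  exact mul_left_cancel₀ hB ((h.det_pencil t).symm.trans (h'.det_pencil t))

/-- Values of the two forms in the coordinates of `Q`. -/
theorem Dg.form_M {M B Q : Matrix (Fin d) (Fin d) ℝ} {s : Fin d → ℝ} (h : Dg M B Q s)
    (u : Fin d → ℝ) : (Q *ᵥ u) ⬝ᵥ (M *ᵥ (Q *ᵥ u)) = ∑ a, -s a * u a ^ 2 := by
  have : (Q *ᵥ u) ⬝ᵥ (M *ᵥ (Q *ᵥ u)) = u ⬝ᵥ ((Qᵀ * M * Q) *ᵥ u) := by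
    rw [← Matrix.mulVec_mulVec, ← Matrix.mulVec_mulVec, Matrix.dotProduct_mulVec u Qᵀ,
      Matrix.vecMul_transpose]
  rw [this, h.dia]
  simp only [dotProduct, mulVec_diagonal]
  exact Finset.sum_congr rfl fun a _ => by ring

theorem Dg.form_B {M B Q : Matrix (Fin d) (Fin d) ℝ} {s : Fin d → ℝ} (h : Dg M B Q s)
    (u : Fin d → ℝ) : (Q *ᵥ u) ⬝ᵥ (B *ᵥ (Q *ᵥ u)) = ∑ a, u a ^ 2 := by
  have : (Q *ᵥ u) ⬝ᵥ (B *ᵥ (Q *ᵥ u)) = u ⬝ᵥ ((Qᵀ * B * Q) *ᵥ u) := by
    rw [← Matrix.mulVec_mulVec, ← Matrix.mulVec_mulVec, Matrix.dotProduct_mulVec u Qᵀ,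
      Matrix.vecMul_transpose]
  rw [this, h.one]
  simp only [dotProduct, one_mulVec]
  exact Finset.sum_congr rfl fun a _ => by ring

/-- The dimension count. -/
theorem exists_common {Q Q' : Matrix (Fin d) (Fin d) ℝ} (hQ : Q.det ≠ 0) (hQ' : Q'.det ≠ 0)
    (a : Fin d) : ∃ u v : Fin d → ℝ, (∀ b, a < b → u b = 0) ∧ (∀ b, b < a → v b = 0) ∧
      Q *ᵥ u = Q' *ᵥ v ∧ Q *ᵥ u ≠ 0 := by
  classical
  let p : Submodule ℝ (Fin d → ℝ) :=
    { carrier := {u | ∀ b, a < b → u b = 0}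
      add_mem' := fun {x y} hx hy b hb => by simp [hx b hb, hy b hb]
      zero_mem' := fun b _ => rfl
      smul_mem' := fun c x hx b hb => by simp [hx b hb] }
  let q : Submodule ℝ (Fin d → ℝ) :=
    { carrier := {u | ∀ b, b < a → u b = 0}
      add_mem' := fun {x y} hx hy b hb => by simp [hx b hb, hy b hb]
      zero_mem' := fun b _ => rfl
      smul_mem' := fun c x hx b hb => by simp [hx b hb] }
  have hp : a.val + 1 ≤ Module.finrank ℝ p := by
    let f : (Fin (a.val + 1) → ℝ) →ₗ[ℝ] p :=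
      { toFun := fun x => ⟨fun b => if hb : b.val < a.val + 1 then x ⟨b.val, hb⟩ else 0,
          fun b hb => by
            have : ¬ b.val < a.val + 1 := by have : a.val < b.val := hb; omega
            simp [this]⟩
        map_add' := fun x y => by
          ext b; simp only [Pi.add_apply, Submodule.coe_add]; split_ifs <;> simp
        map_smul' := fun c x => by
          ext b; simp only [Pi.smul_apply, Submodule.coe_smul, RingHom.id_apply, smul_eq_mul]
          split_ifs <;> simp }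
    have hf : Function.Injective f := by
      intro x y hxy
      ext i
      have hi : i.val < d := lt_of_lt_of_le i.isLt a.isLt
      have h1 : (⟨i.val, hi⟩ : Fin d) ≤ a := by
        show i.val ≤ a.val
        have := i.isLt; omega
      have := congrFun (congrArg Subtype.val hxy) ⟨i.val, hi⟩
      simpa [f, h1] using this
    have := LinearMap.finrank_le_finrank_of_injective hf
    simpa using this
  have hq : d - a.val ≤ Module.finrank ℝ q := by
    let f : (Fin (d - a.val) → ℝ) →ₗ[ℝ] q :=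
      { toFun := fun x => ⟨fun b => if hb : a.val ≤ b.val then
            x ⟨b.val - a.val, by have := b.isLt; omega⟩ else 0,
          fun b hb => by
            have : ¬ a.val ≤ b.val := by have : b.val < a.val := hb; omega
            simp [this]⟩
        map_add' := fun x y => by
          ext b; simp only [Pi.add_apply, Submodule.coe_add]; split_ifs <;> simp
        map_smul' := fun c x => by
          ext b; simp only [Pi.smul_apply, Submodule.coe_smul, RingHom.id_apply, smul_eq_mul]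
          split_ifs <;> simp }
    have hf : Function.Injective f := by
      intro x y hxy
      ext i
      have hi : a.val + i.val < d := by have := i.isLt; omega
      have h1 : a ≤ (⟨a.val + i.val, hi⟩ : Fin d) := by
        show a.val ≤ a.val + i.val
        omega
      have := congrFun (congrArg Subtype.val hxy) ⟨a.val + i.val, hi⟩
      simpa [f, h1] using this
    have := LinearMap.finrank_le_finrank_of_injective hf
    simpa using this
  let g : (p × q) →ₗ[ℝ] (Fin d → ℝ) :=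
    (Q.mulVecLin.comp p.subtype).coprod (-(Q'.mulVecLin.comp q.subtype))
  have hg : ¬ Function.Injective g := by
    intro hi
    have := LinearMap.finrank_le_finrank_of_injective hi
    rw [Module.finrank_prod] at this
    simp only [Module.finrank_fintype_fun_eq_card, Fintype.card_fin] at this
    have := a.isLt
    omega
  have hg' : ∃ z : p × q, z ≠ 0 ∧ g z = 0 := by
    by_contra hno
    push Not at hno
    apply hg
    rw [injective_iff_map_eq_zero]
    intro z hz
    by_contra hz0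
    exact hno z hz0 hz
  obtain ⟨⟨u, v⟩, hz0, hz⟩ := hg'
  have hgz : Q *ᵥ u.1 - Q' *ᵥ v.1 = 0 := by
    simpa [g, sub_eq_add_neg] using hz
  have he : Q *ᵥ u.1 = Q' *ᵥ v.1 := sub_eq_zero.mp hgz
  have inj : ∀ {R : Matrix (Fin d) (Fin d) ℝ}, R.det ≠ 0 → ∀ x, R *ᵥ x = 0 → x = 0 := by
    intro R hR x hx
    by_contra hx0
    exact hR (Matrix.exists_mulVec_eq_zero_iff.mp ⟨x, hx0, hx⟩)
  refine ⟨u.1, v.1, u.2, v.2, he, fun h0 => hz0 ?_⟩
  have hu : u.1 = 0 := inj hQ _ h0
  have hv : v.1 = 0 := inj hQ' _ (he ▸ h0)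
  ext1
  · exact Subtype.ext hu
  · exact Subtype.ext hv

/-- **Weyl's inequality for definite pencils**, one-sided, with explicit constants; the first
bound uses the form `B`, the second one the form `B'`. -/
theorem Dg.sub_le {M B Q M' B' Q' : Matrix (Fin d) (Fin d) ℝ} {s s' : Fin d → ℝ}
    (h : Dg M B Q s) (h' : Dg M' B' Q' s') {c e e2 : ℝ} (hc : 0 < c) (he : 0 ≤ e) (he2 : 0 ≤ e2)
    (hMM : ∀ x : Fin d → ℝ, |x ⬝ᵥ (M *ᵥ x) - x ⬝ᵥ (M' *ᵥ x)| ≤ e * (x ⬝ᵥ x))
    (hBB : ∀ x : Fin d → ℝ, |x ⬝ᵥ (B *ᵥ x) - x ⬝ᵥ (B' *ᵥ x)| ≤ e2 * (x ⬝ᵥ x)) (a : Fin d) :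
    ((∀ x : Fin d → ℝ, c * (x ⬝ᵥ x) ≤ x ⬝ᵥ (B *ᵥ x)) → s' a - s a ≤ (e + e2 * |s' a|) / c) ∧
    ((∀ x : Fin d → ℝ, c * (x ⬝ᵥ x) ≤ x ⬝ᵥ (B' *ᵥ x)) → s' a - s a ≤ (e + e2 * |s a|) / c) := by
  obtain ⟨u, v, hu, hv, huv, hne⟩ := exists_common h.det_ne h'.det_ne a
  set x := Q *ᵥ u with hx
  have hxx : 0 < x ⬝ᵥ x := by
    have h0 : 0 ≤ x ⬝ᵥ x := Finset.sum_nonneg fun i _ => mul_self_nonneg _
    rcases h0.lt_or_eq with h1 | h1
    · exact h1
    · exact absurd (dotProduct_self_eq_zero.mp h1.symm) hne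
  have h1 : -s a * (x ⬝ᵥ (B *ᵥ x)) ≤ x ⬝ᵥ (M *ᵥ x) := by
    rw [hx, h.form_M, h.form_B, Finset.mul_sum]
    refine Finset.sum_le_sum fun b _ => ?_
    rcases le_or_gt b a with hb | hb
    · have := h.mono hb
      nlinarith [sq_nonneg (u b)]
    · rw [hu b hb]; simp
  have h2 : x ⬝ᵥ (M' *ᵥ x) ≤ -s' a * (x ⬝ᵥ (B' *ᵥ x)) := by
    rw [huv, h'.form_M, h'.form_B, Finset.mul_sum]
    refine Finset.sum_le_sum fun b _ => ?_
    rcases le_or_gt a b with hb | hb
    · have := h'.mono hb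
      nlinarith [sq_nonneg (v b)]
    · rw [hv b hb]; simp
  have h3 := abs_le.mp (hMM x)
  have key : ∀ r : ℝ, |r * (x ⬝ᵥ (B *ᵥ x)) - r * (x ⬝ᵥ (B' *ᵥ x))| ≤ e2 * |r| * (x ⬝ᵥ x) := by
    intro r
    rw [← mul_sub, abs_mul]
    calc |r| * |x ⬝ᵥ (B *ᵥ x) - x ⬝ᵥ (B' *ᵥ x)| ≤ |r| * (e2 * (x ⬝ᵥ x)) :=
          mul_le_mul_of_nonneg_left (hBB x) (abs_nonneg _)
      _ = e2 * |r| * (x ⬝ᵥ x) := by ring
  have fin : ∀ (w q : ℝ), 0 ≤ w → c * (x ⬝ᵥ x) ≤ q →
      (s' a - s a) * q ≤ w * (x ⬝ᵥ x) → s' a - s a ≤ w / c := by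
    intro w q hw hq h7
    rcases le_or_gt (s' a - s a) 0 with h8 | h8
    · exact h8.trans (by positivity)
    · rw [le_div_iff₀ hc]
      have h9 : (s' a - s a) * (c * (x ⬝ᵥ x)) ≤ w * (x ⬝ᵥ x) :=
        (mul_le_mul_of_nonneg_left hq h8.le).trans h7
      have h10 : ((s' a - s a) * c) * (x ⬝ᵥ x) ≤ w * (x ⬝ᵥ x) := by
        calc ((s' a - s a) * c) * (x ⬝ᵥ x) = (s' a - s a) * (c * (x ⬝ᵥ x)) := by ring
          _ ≤ _ := h9
      exact le_of_mul_le_mul_right h10 hxx
  constructor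
  · intro hB
    refine fin (e + e2 * |s' a|) _ (by positivity) (hB x) ?_
    have h4 := abs_le.mp (key (s' a))
    nlinarith [h1, h2, h3.1, h3.2, h4.1, h4.2]
  · intro hB'
    refine fin (e + e2 * |s a|) _ (by positivity) (hB' x) ?_
    have h4 := abs_le.mp (key (s a))
    nlinarith [h1, h2, h3.1, h3.2, h4.1, h4.2]

/-- The roots are bounded. -/
theorem Dg.abs_le {M B Q : Matrix (Fin d) (Fin d) ℝ} {s : Fin d → ℝ}
    (h : Dg M B Q s) {c A : ℝ} (hc : 0 < c) (hA : 0 ≤ A)
    (hB : ∀ x : Fin d → ℝ, c * (x ⬝ᵥ x) ≤ x ⬝ᵥ (B *ᵥ x))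
    (hM : ∀ x : Fin d → ℝ, |x ⬝ᵥ (M *ᵥ x)| ≤ A * (x ⬝ᵥ x)) (a : Fin d) :
    |s a| ≤ A / c := by
  have h1 := h.form_M (Pi.single a 1)
  have h2 := h.form_B (Pi.single a 1)
  have e1 : ∑ b, -s b * (Pi.single a (1 : ℝ) : Fin d → ℝ) b ^ 2 = -s a := by
    rw [Finset.sum_eq_single a]
    · simp
    · intro b _ hb; simp [Pi.single_eq_of_ne hb]
    · simp
  have e2 : ∑ b, (Pi.single a (1 : ℝ) : Fin d → ℝ) b ^ 2 = 1 := by
    rw [Finset.sum_eq_single a]
    · simp
    · intro b _ hb; simp [Pi.single_eq_of_ne hb]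
    · simp
  rw [e1] at h1
  rw [e2] at h2
  set x := Q *ᵥ Pi.single a 1 with hx
  have h3 := hB x
  have h4 := hM x
  rw [h1, abs_neg] at h4
  rw [h2] at h3
  have h5 : x ⬝ᵥ x ≤ 1 / c := by rw [le_div_iff₀ hc]; linarith
  calc |s a| ≤ A * (x ⬝ᵥ x) := h4
    _ ≤ A * (1 / c) := mul_le_mul_of_nonneg_left h5 hA
    _ = A / c := by ring

end Pool.Agent.GNP.WEYL
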