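import Pool.Agent.GNP.Defs
import Pool.Agent.GNP.WEYL

/-!
# Sorted roots of the pencil `P - s Q`

For symmetric `P`, `Q` on `E d` with `Q ≥ b > 0`: `rt P Q : Fin d → ℝ` is the antitone list of the
roots of `det (P - s Q)`; simultaneous diagonalisation, Lipschitz dependence, continuity.
-/

set_option autoImplicit false

namespace Pool.Agent.GNP.RT

open Set Pool.Agent.MP_6cbfb8_an Matrix
open scoped Real RealInnerProductSpace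

/-- The matrix of an operator. -/
noncomputable def mt {d : ℕ} (P : E d →L[ℝ] E d) : Matrix (Fin d) (Fin d) ℝ :=
  (Matrix.toEuclideanCLM (n := Fin d) (𝕜 := ℝ)).symm P

theorem toE_mt {d : ℕ} (P : E d →L[ℝ] E d) :
    Matrix.toEuclideanCLM (n := Fin d) (𝕜 := ℝ) (mt P) = P := by simp [mt]

theorem mt_sub {d : ℕ} (P Q : E d →L[ℝ] E d) : mt (P - Q) = mt P - mt Q := by simp [mt]

theorem mt_smul {d : ℕ} (c : ℝ) (P : E d →L[ℝ] E d) : mt (c • P) = c • mt P := by simp [mt]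

theorem inner_mt {d : ℕ} (P : E d →L[ℝ] E d) (x y : E d) :
    ⟪x, P y⟫ = x.ofLp ⬝ᵥ (mt P *ᵥ y.ofLp) := by
  conv_lhs => rw [← toE_mt P]
  exact Matrix.inner_toEuclideanCLM _ _ _

theorem mulVec_mt {d : ℕ} (P : E d →L[ℝ] E d) (y : E d) : mt P *ᵥ y.ofLp = (P y).ofLp := by
  conv_rhs => rw [← toE_mt P]
  rfl

theorem norm_sq_dot {d : ℕ} (x : Fin d → ℝ) :
    ‖(WithLp.toLp 2 x : E d)‖ ^ 2 = x ⬝ᵥ x := by
  rw [EuclideanSpace.norm_sq_eq]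
  simp [dotProduct, sq]

theorem det_mt {d : ℕ} (P : E d →L[ℝ] E d) : (mt P).det = P.det := by
  have h : ((Matrix.toEuclideanCLM (n := Fin d) (𝕜 := ℝ) (mt P) : E d →L[ℝ] E d) :
      E d →ₗ[ℝ] E d) = Matrix.toLin (EuclideanSpace.basisFun (Fin d) ℝ).toBasis
        (EuclideanSpace.basisFun (Fin d) ℝ).toBasis (mt P) := by
    rw [Matrix.coe_toEuclideanCLM_eq_toEuclideanLin, Matrix.toEuclideanLin_eq_toLin_orthonormal]
  conv_rhs => rw [← toE_mt P]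
  change _ = LinearMap.det ((Matrix.toEuclideanCLM (n := Fin d) (𝕜 := ℝ) (mt P) :
    E d →L[ℝ] E d) : E d →ₗ[ℝ] E d)
  rw [h, LinearMap.det_toLin]

theorem herm_mt {d : ℕ} {P : E d →L[ℝ] E d} (hP : Sy P) : (mt P).IsHermitian := by
  have hs : ∀ x y : Fin d → ℝ, x ⬝ᵥ (mt P *ᵥ y) = y ⬝ᵥ (mt P *ᵥ x) := by
    intro x y
    have h1 := inner_mt P (WithLp.toLp 2 x) (WithLp.toLp 2 y)
    have h2 := inner_mt P (WithLp.toLp 2 y) (WithLp.toLp 2 x)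
    rw [← hP, real_inner_comm] at h1
    exact h1.symm.trans h2
  show (mt P)ᵀ = mt P
  ext i j
  have := hs (Pi.single j 1) (Pi.single i 1)
  simpa [Matrix.transpose_apply] using this

/-- `Q ≥ b`. -/
def Ge {d : ℕ} (Q : E d →L[ℝ] E d) (b : ℝ) : Prop := ∀ v, b * ‖v‖ ^ 2 ≤ ⟪Q v, v⟫

theorem form_ge {d : ℕ} {Q : E d →L[ℝ] E d} {b : ℝ} (h : ∀ v, b * ‖v‖ ^ 2 ≤ ⟪Q v, v⟫)
    (x : Fin d → ℝ) : b * (x ⬝ᵥ x) ≤ x ⬝ᵥ (mt Q *ᵥ x) := by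
  have h1 := h (WithLp.toLp 2 x)
  rw [norm_sq_dot, real_inner_comm, inner_mt] at h1
  exact h1

theorem form_abs {d : ℕ} (Q : E d →L[ℝ] E d) (x : Fin d → ℝ) :
    |x ⬝ᵥ (mt Q *ᵥ x)| ≤ ‖Q‖ * (x ⬝ᵥ x) := by
  have h1 := inner_mt Q (WithLp.toLp 2 x) (WithLp.toLp 2 x)
  have h2 : x ⬝ᵥ (mt Q *ᵥ x) = ⟪(WithLp.toLp 2 x : E d), Q (WithLp.toLp 2 x)⟫ := h1.symm
  rw [h2, ← norm_sq_dot]
  calc |⟪(WithLp.toLp 2 x : E d), Q (WithLp.toLp 2 x)⟫|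
      ≤ ‖(WithLp.toLp 2 x : E d)‖ * ‖Q (WithLp.toLp 2 x)‖ := abs_real_inner_le_norm _ _
    _ ≤ ‖(WithLp.toLp 2 x : E d)‖ * (‖Q‖ * ‖(WithLp.toLp 2 x : E d)‖) :=
        mul_le_mul_of_nonneg_left (Q.le_opNorm _) (norm_nonneg _)
    _ = _ := by ring

theorem posDef_mt {d : ℕ} {Q : E d →L[ℝ] E d} {b : ℝ} (hQ : Sy Q) (hb : 0 < b)
    (h : ∀ v, b * ‖v‖ ^ 2 ≤ ⟪Q v, v⟫) : (mt Q).PosDef := by
  refine Matrix.PosDef.of_dotProduct_mulVec_pos (herm_mt hQ) fun {x} hx => ?_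
  have h1 := form_ge h x
  have h2 : 0 < x ⬝ᵥ x := by
    have h0 : 0 ≤ x ⬝ᵥ x := Finset.sum_nonneg fun i _ => mul_self_nonneg _
    rcases h0.lt_or_eq with h3 | h3
    · exact h3
    · exact absurd (dotProduct_self_eq_zero.mp h3.symm) hx
  have h3 : star x = x := by ext i; simp
  rw [h3]
  exact (mul_pos hb h2).trans_le h1

/-- The sorted (antitone) roots of `det (P - s Q)`; zero if the pencil is not diagonalisable. -/
noncomputable def rt {d : ℕ} (P Q : E d →L[ℝ] E d) : Fin d → ℝ := by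
  classical
  exact if h : ∃ (s : Fin d → ℝ) (R : Matrix (Fin d) (Fin d) ℝ), WEYL.Dg (mt P) (mt Q) R s then
    fun i => -h.choose i else 0

theorem rt_dg {d : ℕ} {P Q : E d →L[ℝ] E d} {b : ℝ} (hP : Sy P) (hQ : Sy Q) (hb : 0 < b)
    (h : ∀ v, b * ‖v‖ ^ 2 ≤ ⟪Q v, v⟫) :
    ∃ R : Matrix (Fin d) (Fin d) ℝ, WEYL.Dg (mt P) (mt Q) R (fun i => -rt P Q i) := by
  obtain ⟨R, s, hs⟩ := WEYL.exists_dg (herm_mt hP) (posDef_mt hQ hb h)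
  have hex : ∃ (s : Fin d → ℝ) (R : Matrix (Fin d) (Fin d) ℝ), WEYL.Dg (mt P) (mt Q) R s :=
    ⟨s, R, hs⟩
  obtain ⟨R', hR'⟩ := hex.choose_spec
  refine ⟨R', ?_⟩
  have e : (fun i => -rt P Q i) = hex.choose := by
    funext i
    simp only [rt]
    rw [dif_pos hex, neg_neg]
  rw [e]
  exact hR'

theorem rt_antitone {d : ℕ} {P Q : E d →L[ℝ] E d} {b : ℝ} (hP : Sy P) (hQ : Sy Q) (hb : 0 < b)
    (h : ∀ v, b * ‖v‖ ^ 2 ≤ ⟪Q v, v⟫) : Antitone (rt P Q) := by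
  obtain ⟨R, hR⟩ := rt_dg hP hQ hb h
  intro i j hij
  have := hR.mono hij
  simpa using this

/-- **Simultaneous diagonalisation.** -/
theorem rt_spec {d : ℕ} {P Q : E d →L[ℝ] E d} {b : ℝ} (hP : Sy P) (hQ : Sy Q) (hb : 0 < b)
    (h : ∀ v, b * ‖v‖ ^ 2 ≤ ⟪Q v, v⟫) :
    Antitone (rt P Q) ∧ ∃ v : Fin d → E d,
      (∀ i j, ⟪Q (v i), v j⟫ = if i = j then 1 else 0) ∧ ∀ i, P (v i) = rt P Q i • Q (v i) := by
  refine ⟨rt_antitone hP hQ hb h, ?_⟩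
  obtain ⟨R, hR⟩ := rt_dg hP hQ hb h
  refine ⟨fun i => WithLp.toLp 2 (R *ᵥ Pi.single i 1), ?_, ?_⟩
  · intro i j
    rw [real_inner_comm, inner_mt]
    have e : ∀ x y : Fin d → ℝ, (R *ᵥ x) ⬝ᵥ (mt Q *ᵥ (R *ᵥ y)) = x ⬝ᵥ y := by
      intro x y
      have : (R *ᵥ x) ⬝ᵥ (mt Q *ᵥ (R *ᵥ y)) = x ⬝ᵥ ((Rᵀ * mt Q * R) *ᵥ y) := by
        rw [← Matrix.mulVec_mulVec, ← Matrix.mulVec_mulVec, Matrix.dotProduct_mulVec x Rᵀ,
          Matrix.vecMul_transpose]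
      rw [this, hR.one, one_mulVec]
    show (R *ᵥ Pi.single j 1) ⬝ᵥ (mt Q *ᵥ (R *ᵥ Pi.single i 1)) = _
    rw [e]
    by_cases hij : i = j
    · subst hij; simp
    · rw [if_neg hij]; simp [hij]
  · intro i
    have hdet : (Rᵀ).det ≠ 0 := by rw [det_transpose]; exact hR.det_ne
    have inj : ∀ x, Rᵀ *ᵥ x = 0 → x = 0 := by
      intro x hx
      by_contra hx0
      exact hdet (Matrix.exists_mulVec_eq_zero_iff.mp ⟨x, hx0, hx⟩)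
    have e : mt P *ᵥ (R *ᵥ Pi.single i 1) - rt P Q i • (mt Q *ᵥ (R *ᵥ Pi.single i 1)) = 0 := by
      apply inj
      rw [Matrix.mulVec_sub, Matrix.mulVec_smul, Matrix.mulVec_mulVec, Matrix.mulVec_mulVec,
        Matrix.mulVec_mulVec, Matrix.mulVec_mulVec, hR.dia, hR.one, one_mulVec]
      ext j
      by_cases hij : i = j
      · subst hij; simp
      · simp [Ne.symm hij]
    have e2 := sub_eq_zero.mp e
    have e3 : (P (WithLp.toLp 2 (R *ᵥ Pi.single i 1))).ofLp =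
        (rt P Q i • Q (WithLp.toLp 2 (R *ᵥ Pi.single i 1))).ofLp := by
      rw [← mulVec_mt]
      show _ = rt P Q i • (Q (WithLp.toLp 2 (R *ᵥ Pi.single i 1))).ofLp
      rw [← mulVec_mt]
      exact e2
    exact (WithLp.ofLp_injective 2) e3

theorem rt_det {d : ℕ} {P Q : E d →L[ℝ] E d} {b : ℝ} (hP : Sy P) (hQ : Sy Q) (hb : 0 < b)
    (h : ∀ v, b * ‖v‖ ^ 2 ≤ ⟪Q v, v⟫) (s : ℝ) :
    (P - s • Q).det = Q.det * ∏ i, (rt P Q i - s) := by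
  obtain ⟨R, hR⟩ := rt_dg hP hQ hb h
  have h1 := hR.det_pencil (-s)
  rw [← det_mt, ← det_mt, mt_sub, mt_smul]
  have e : mt P - s • mt Q = mt P + (-s) • mt Q := by rw [neg_smul, sub_eq_add_neg]
  rw [e, h1]
  congr 1
  exact Finset.prod_congr rfl fun i _ => by ring

/-- Uniqueness: an antitone list with the same product formula is `rt`. -/
theorem rt_eq {d : ℕ} {P Q : E d →L[ℝ] E d} {b : ℝ} (hP : Sy P) (hQ : Sy Q) (hb : 0 < b)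
    (h : ∀ v, b * ‖v‖ ^ 2 ≤ ⟪Q v, v⟫) {μ : Fin d → ℝ} (hμ : Antitone μ)
    (hd : ∀ s : ℝ, (P - s • Q).det = Q.det * ∏ i, (μ i - s)) : rt P Q = μ := by
  have hQd : Q.det ≠ 0 := by
    rw [← det_mt]; exact (posDef_mt hQ hb h).det_pos.ne'
  have h1 : (fun i => -rt P Q i) = fun i => -μ i := by
    refine WEYL.sorted_unique (fun i j hij => neg_le_neg (rt_antitone hP hQ hb h hij))
      (fun i j hij => neg_le_neg (hμ hij)) fun t => ?_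
    have h2 := (rt_det hP hQ hb h (-t)).symm.trans (hd (-t))
    have h3 := mul_left_cancel₀ hQd h2
    calc ∏ i, (t - -rt P Q i) = ∏ i, (rt P Q i - -t) :=
          Finset.prod_congr rfl fun i _ => by ring
      _ = ∏ i, (μ i - -t) := h3
      _ = _ := Finset.prod_congr rfl fun i _ => by ring
  funext i
  exact neg_injective (congrFun h1 i)

theorem rt_bound {d : ℕ} {P Q : E d →L[ℝ] E d} {b : ℝ} (hP : Sy P) (hQ : Sy Q) (hb : 0 < b)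
    (h : ∀ v, b * ‖v‖ ^ 2 ≤ ⟪Q v, v⟫) (i : Fin d) : |rt P Q i| ≤ ‖P‖ / b := by
  obtain ⟨R, hR⟩ := rt_dg hP hQ hb h
  have := hR.abs_le hb (norm_nonneg P) (form_ge h) (form_abs P) i
  rwa [abs_neg] at this

theorem rt_sub_le {d : ℕ} {P Q P' Q' : E d →L[ℝ] E d} {b : ℝ} (hP : Sy P) (hQ : Sy Q)
    (hP' : Sy P') (hQ' : Sy Q') (hb : 0 < b) (h : ∀ v, b * ‖v‖ ^ 2 ≤ ⟪Q v, v⟫)
    (h' : ∀ v, b * ‖v‖ ^ 2 ≤ ⟪Q' v, v⟫) (i : Fin d) :
    |rt P Q i - rt P' Q' i| ≤ (‖P - P'‖ + ‖Q - Q'‖ * |rt P Q i|) / b := by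
  obtain ⟨R, hR⟩ := rt_dg hP hQ hb h
  obtain ⟨R', hR'⟩ := rt_dg hP' hQ' hb h'
  have hM : ∀ (A A' : E d →L[ℝ] E d) (x : Fin d → ℝ),
      |x ⬝ᵥ (mt A *ᵥ x) - x ⬝ᵥ (mt A' *ᵥ x)| ≤ ‖A - A'‖ * (x ⬝ᵥ x) := by
    intro A A' x
    have := form_abs (A - A') x
    rwa [mt_sub, Matrix.sub_mulVec, dotProduct_sub] at this
  have h1 := (hR.sub_le hR' hb (norm_nonneg _) (norm_nonneg _) (hM P P') (hM Q Q') i).2 (form_ge h')
  have h2 := (hR'.sub_le hR hb (norm_nonneg _) (norm_nonneg _) (hM P' P) (hM Q' Q) i).1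
    (form_ge h')
  rw [norm_sub_rev P' P, norm_sub_rev Q' Q] at h2
  simp only [abs_neg] at h1 h2
  rw [abs_le]
  constructor <;> linarith

/-- **Lipschitz dependence of the sorted roots.** -/
theorem rt_lip (d : ℕ) (b : ℝ) (hb : 0 < b) : ∃ C : ℝ, 0 < C ∧
    ∀ (P P' Q Q' : E d →L[ℝ] E d), Sy P → Sy P' → Sy Q → Sy Q' →
      (∀ v, b * ‖v‖ ^ 2 ≤ ⟪Q v, v⟫) → (∀ v, b * ‖v‖ ^ 2 ≤ ⟪Q' v, v⟫) →
      ∀ i, |rt P Q i - rt P' Q' i| ≤ C * (‖P - P'‖ + ‖P‖ * ‖Q - Q'‖) := by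
  refine ⟨(1 + 1 / b) / b, by positivity, fun P P' Q Q' hP hP' hQ hQ' h h' i => ?_⟩
  refine (rt_sub_le hP hQ hP' hQ' hb h h' i).trans ?_
  rw [div_mul_eq_mul_div]
  refine div_le_div_of_nonneg_right ?_ hb.le
  have h1 := rt_bound hP hQ hb h i
  have h2 : ‖Q - Q'‖ * |rt P Q i| ≤ ‖Q - Q'‖ * (‖P‖ / b) :=
    mul_le_mul_of_nonneg_left h1 (norm_nonneg _)
  have h3 : (1 + 1 / b) * (‖P - P'‖ + ‖P‖ * ‖Q - Q'‖) = ‖P - P'‖ + ‖Q - Q'‖ * (‖P‖ / b) +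
      (1 / b * ‖P - P'‖ + ‖P‖ * ‖Q - Q'‖) := by ring
  have h4 : 0 ≤ 1 / b * ‖P - P'‖ + ‖P‖ * ‖Q - Q'‖ := by positivity
  linarith

/-- **Continuity of the sorted roots.** -/
theorem rt_cont {d : ℕ} {X : Type*} [TopologicalSpace X] {S : Set X} {P Q : X → E d →L[ℝ] E d}
    {b : ℝ} (hb : 0 < b) (hP : ∀ x ∈ S, Sy (P x)) (hQ : ∀ x ∈ S, Sy (Q x))
    (h : ∀ x ∈ S, ∀ v, b * ‖v‖ ^ 2 ≤ ⟪Q x v, v⟫) (hPc : ContinuousOn P S)
    (hQc : ContinuousOn Q S) (i : Fin d) : ContinuousOn (fun x => rt (P x) (Q x) i) S := by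
  intro x hx
  obtain ⟨C, hC, hlip⟩ := rt_lip d b hb
  have h1 : Filter.Tendsto (fun y => C * (‖P x - P y‖ + ‖P x‖ * ‖Q x - Q y‖))
      (nhdsWithin x S) (nhds 0) := by
    have hp : Filter.Tendsto (fun y => ‖P x - P y‖) (nhdsWithin x S) (nhds 0) := by
      have := (tendsto_const_nhds (x := P x)).sub (hPc x hx)
      simpa using this.norm
    have hq : Filter.Tendsto (fun y => ‖Q x - Q y‖) (nhdsWithin x S) (nhds 0) := by
      have := (tendsto_const_nhds (x := Q x)).sub (hQc x hx)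
      simpa using this.norm
    have := (hp.add (hq.const_mul ‖P x‖)).const_mul C
    simpa using this
  refine tendsto_iff_dist_tendsto_zero.mpr ?_
  refine tendsto_of_tendsto_of_tendsto_of_le_of_le' tendsto_const_nhds h1
    (Filter.Eventually.of_forall fun _ => dist_nonneg) ?_
  filter_upwards [self_mem_nhdsWithin] with y hy
  rw [dist_comm, Real.dist_eq]
  exact hlip _ _ _ _ (hP x hx) (hP y hy) (hQ x hx) (hQ y hy) (h x hx) (h y hy) i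

end Pool.Agent.GNP.RT
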