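-- Pool/Agent/GNP/Defs6.lean
import Pool.Agent.GNP.Defs4
import Pool.Agent.GNP.Defs5
import Pool.Agent.GNP.RT

/-!
Every phase, all dimensions: the roots of the pencil, stable points, types of the pairs `(s, y)`.
-/

namespace Pool.Agent.GNP

open MeasureTheory Set Pool.Agent.MP_6cbfb8_an
open scoped ENNReal Real RealInnerProductSpace ContDiff

/-- `h` is strictly concave on the ball of centre `z` and radius `r`. -/
def DfB {d : ℕ} (b : ℝ) (z : E d) (r : ℝ) (h : E d → ℝ) : Prop :=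
  ∀ y, ‖y - z‖ ≤ r → ∀ v, ⟪Hs h y v, v⟫ ≤ -(b * ‖v‖ ^ 2)

/-- The slopes at which `c D²Φ - s D²h` is singular (the roots), at `y`. -/
noncomputable def mu {d : ℕ} (Φ h : E d → ℝ) (c : ℝ) (y : E d) : Fin d → ℝ :=
  RT.rt (-(c • Hs Φ y)) (-Hs h y)

/-- The point `y` is unstable at the scale `r`, up to powers of `K`. -/
def Unst {d : ℕ} (s : E d → Fin d → ℝ) (K : ℝ) (C : ℕ) (y : E d) (r : ℝ) : Prop :=
  1 ≤ K ^ C * r ∨ ∃ k : ℕ, ¬ Stab s K (2 ^ k) (K ^ C * r) y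

/-- What a chain with the value `w` at `(y, s)` gives: `μ` are the roots at `y`. (`n`: lower bound for
the scale.) -/
def GeoN (d C n : ℕ) (K : ℝ) (μ : Fin d → ℝ) (Un : ℝ → Prop) (s w : ℝ) : Prop :=
  w * ∏ i, √(1 + |s - μ i|) ≤ K ^ C ∨
  ∃ (I : Finset (Fin d)) (r : ℝ), 1 ≤ I.card ∧ 1 ≤ K ^ n * r ∧ r ≤ 1 ∧
    (∀ i ∈ I, |s - μ i| * r ^ 2 ≤ K ^ C) ∧ w ≤ K ^ C * r ^ (d - I.card) ∧
    w * ∏ i ∈ I, (r * |s - μ i|) ≤ K ^ C * r ^ (d - I.card) ∧ (2 ≤ I.card → Un r)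

end Pool.Agent.GNP
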