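import Pool.Agent.GNP.GapD
import Pool.Agent.GNP.Defs6

/-!
The gaps of the roots are stable outside a small set: the form for a ball with any centre.
-/

namespace Pool.Agent.GNP

open MeasureTheory Set Pool.Agent.MP_6cbfb8_an
open scoped ENNReal Real RealInnerProductSpace ContDiff

theorem gap_gr_add {d : ℕ} (q : E d → ℝ) (z : E d) :
    gr (fun y => q (y + z)) = fun y => gr q (y + z) := by
  funext y
  rw [gr, gr, fderiv_comp_add_right]

theorem gap_Hs_add {d : ℕ} (q : E d → ℝ) (z y : E d) :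
    Hs (fun y => q (y + z)) y = Hs q (y + z) := by
  rw [Hs, Hs, gap_gr_add, fderiv_comp_add_right]

theorem gap_Sm_add {d : ℕ} {A : ℕ → ℝ} {q : E d → ℝ} (hq : Sm d A q) (z : E d) :
    Sm d A (fun y => q (y + z)) := by
  refine ⟨hq.sm.comp (contDiff_id.add contDiff_const), fun j y => ?_⟩
  rw [iteratedFDeriv_comp_add_right]
  exact hq.bd j _

theorem gap_Stab_mono {d : ℕ} {s : E d → Fin d → ℝ} {K K' w w' σ : ℝ} {y : E d} (hK : 1 ≤ K)
    (hKK : K ≤ K') (hw : 0 ≤ w) (hww : w ≤ w') (h : Stab s K w σ y) : Stab s K' w' σ y := by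
  intro y' hy' a b
  have h1 := h y' hy' a b
  have h2 : 0 ≤ |s y a - s y b| := abs_nonneg _
  have h3 : K * (|s y a - s y b| + w) + K * (w' - w) = K * (|s y a - s y b| + w') := by ring
  have h4 : w' - w ≤ K * (w' - w) := le_mul_of_one_le_left (by linarith) hK
  have h5 : K * (|s y a - s y b| + w') ≤ K' * (|s y a - s y b| + w') :=
    mul_le_mul_of_nonneg_right hKK (by linarith)
  linarith

/-- **Row GAP.** -/
theorem gap (d : ℕ) (A : ℕ → ℝ) (b r : ℝ) (hb : 0 < b) (hr : 0 < r) (n0 : ℕ) :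
    ∃ K0 : ℝ, 1 ≤ K0 ∧ ∀ K, K0 ≤ K → ∀ (Φ h : E d → ℝ) (z : E d) (c : ℝ), Sm d A Φ → Sm d A h →
      ‖z‖ ≤ n0 → DfB b z (2 * r) h → |c| ≤ K ^ n0 → ∀ w σ : ℝ, 1 ≤ w → 0 < σ →
      ∃ X : Set (E d), MeasurableSet X ∧ volume (X ∩ Metric.closedBall z r) ≤ ENNReal.ofReal (K * σ) ∧
        ∀ y, ‖y - z‖ ≤ r → y ∉ X → Stab (mu Φ h c) K w σ y := by
  set ε : ℝ := 1 / (2 * (n0 + 1)) with hε
  have hε0 : 0 < ε := by positivity
  obtain ⟨K1, hK1, H⟩ := gap0 d A r (2 * r) b ε hr (by linarith) hb hε0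
  refine ⟨K1 ^ 2, one_le_pow₀ hK1, fun K hK Φ h z c hΦ hh _ hD hc w σ hw hσ => ?_⟩
  have hK11 : K1 ≤ K1 ^ 2 := le_self_pow₀ hK1 two_ne_zero
  have hKge : 1 ≤ K := (hK1.trans hK11).trans hK
  have hK0 : 0 < K := one_pos.trans_le hKge
  obtain ⟨N, hN, hv, hS⟩ := H (fun y => Φ (y + z)) (fun y => h (y + z)) (gap_Sm_add hΦ z)
    (gap_Sm_add hh z) (fun y hy v => by
      rw [gap_Hs_add]
      exact hD _ (by simpa using hy) v) c (K ^ (n0 + 1)) 1 σ (one_le_pow₀ hKge)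
    (hc.trans (pow_le_pow_right₀ hKge (Nat.le_succ n0))) le_rfl
    (one_le_pow₀ (one_le_pow₀ hKge)) hσ
  have hvol : volume ((fun y => y - z) ⁻¹' N) = volume N := by
    have : (fun y : E d => y - z) = fun y => y + (-z) := by funext y; exact sub_eq_add_neg y z
    rw [this]
    exact measure_preimage_add_right volume (-z) N
  refine ⟨(fun y => y - z) ⁻¹' N, hN.preimage (measurable_id.sub_const z), ?_, ?_⟩
  · refine (measure_mono Set.inter_subset_left).trans ?_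
    rw [hvol]
    refine hv.trans (ENNReal.ofReal_le_ofReal (mul_le_mul_of_nonneg_right ?_ hσ.le))
    have h1 : (K ^ (n0 + 1)) ^ ε = √K := by
      rw [← Real.rpow_natCast, ← Real.rpow_mul hK0.le, Real.sqrt_eq_rpow, hε]
      congr 1
      push_cast
      field_simp
    rw [h1]
    have h2 : K1 ≤ √K := Real.le_sqrt_of_sq_le hK
    calc K1 * √K ≤ √K * √K := mul_le_mul_of_nonneg_right h2 (Real.sqrt_nonneg K)
      _ = K := Real.mul_self_sqrt hK0.le
  · intro y hy hyX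
    have h1 := hS (y - z) hy hyX
    have h2 : Stab (mu Φ h c) K1 1 σ y := by
      intro y' hy' a b'
      have h3 := h1 (y' - z) (by simpa using hy') a b'
      simp only [gap_Hs_add, sub_add_cancel] at h3
      exact h3
    exact gap_Stab_mono hK1 (hK11.trans hK) zero_le_one hw h2

theorem gap6 (d : ℕ) (A : ℕ → ℝ) (b r : ℝ) (hb : 0 < b) (hr : 0 < r) (n0 : ℕ) :
    ∃ K0 : ℝ, 1 ≤ K0 ∧ ∀ K, K0 ≤ K → ∀ (Φ h : E d → ℝ) (z : E d) (c : ℝ), Sm d A Φ → Sm d A h →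
      ‖z‖ ≤ n0 → DfB b z (2 * r) h → |c| ≤ K ^ n0 → ∀ w σ : ℝ, 1 ≤ w → 0 < σ →
      ∃ X : Set (E d), MeasurableSet X ∧ volume (X ∩ Metric.closedBall z r) ≤ ENNReal.ofReal (K * σ) ∧
        ∀ y, ‖y - z‖ ≤ r → y ∉ X → Stab (mu Φ h c) K w σ y :=
  gap d A b r hb hr n0

end Pool.Agent.GNP
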