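-- Pool/Agent/GNP/N5SLA.lean
import Mathlib

/-!
Roots of a definite pencil against a lift of a small operator.
-/

namespace Pool.Agent.GNP.SLA

open Module
open scoped RealInnerProductSpace

section SH

variable {V : Type*} [NormedAddCommGroup V] [InnerProductSpace ℝ V]

/-- the operator which is diagonal in the orthonormal basis `e` -/
noncomputable def shd {n : ℕ} (e : OrthonormalBasis (Fin n) ℝ V) (g : Fin n → ℝ) : V →ₗ[ℝ] V :=
  e.toBasis.constr ℝ (fun i => g i • e i)

theorem shd_basis {n : ℕ} (e : OrthonormalBasis (Fin n) ℝ V) (g : Fin n → ℝ) (i : Fin n) :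
    shd e g (e i) = g i • e i := by
  have := e.toBasis.constr_basis ℝ (fun i => g i • e i) i
  rw [OrthonormalBasis.coe_toBasis] at this
  exact this

theorem shd_apply {n : ℕ} (e : OrthonormalBasis (Fin n) ℝ V) (g : Fin n → ℝ) (v : V) :
    shd e g v = ∑ i, (g i * ⟪e i, v⟫) • e i := by
  conv_lhs => rw [← e.sum_repr' v]
  rw [map_sum]
  refine Finset.sum_congr rfl fun i _ => ?_
  rw [map_smul, shd_basis, smul_smul, mul_comm]

theorem inner_shd {n : ℕ} (e : OrthonormalBasis (Fin n) ℝ V) (g : Fin n → ℝ) (v : V) (i : Fin n) :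
    ⟪e i, shd e g v⟫ = g i * ⟪e i, v⟫ := by
  rw [shd_apply, inner_sum, Finset.sum_eq_single i]
  · rw [inner_smul_right, real_inner_self_eq_norm_sq, e.orthonormal.1 i]
    ring
  · intro j _ hj
    rw [inner_smul_right, e.orthonormal.2 hj.symm, mul_zero]
  · intro h
    exact absurd (Finset.mem_univ i) h

theorem shd_shd {n : ℕ} (e : OrthonormalBasis (Fin n) ℝ V) (g h : Fin n → ℝ) (v : V) :
    shd e g (shd e h v) = shd e (fun i => g i * h i) v := by
  rw [shd_apply e g, shd_apply e (fun i => g i * h i)]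
  refine Finset.sum_congr rfl fun i _ => ?_
  rw [inner_shd, mul_assoc]

theorem shd_one {n : ℕ} (e : OrthonormalBasis (Fin n) ℝ V) (v : V) :
    shd e (fun _ => 1) v = v := by
  rw [shd_apply]
  simp only [one_mul]
  exact e.sum_repr' v

theorem shd_symm {n : ℕ} (e : OrthonormalBasis (Fin n) ℝ V) (g : Fin n → ℝ) (v w : V) :
    ⟪shd e g v, w⟫ = ⟪v, shd e g w⟫ := by
  rw [← e.sum_inner_mul_inner (shd e g v) w, ← e.sum_inner_mul_inner v (shd e g w)]
  refine Finset.sum_congr rfl fun i _ => ?_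
  rw [inner_shd, real_inner_comm, inner_shd, real_inner_comm v (e i)]
  ring

theorem norm_shd_ge {n : ℕ} (e : OrthonormalBasis (Fin n) ℝ V) (g : Fin n → ℝ) {c : ℝ} (hc : 0 ≤ c)
    (hg : ∀ i, c ≤ |g i|) (v : V) : c * ‖v‖ ≤ ‖shd e g v‖ := by
  apply le_of_sq_le_sq ?_ (norm_nonneg _)
  rw [mul_pow, ← e.sum_sq_norm_inner_right v, ← e.sum_sq_norm_inner_right (shd e g v),
    Finset.mul_sum]
  refine Finset.sum_le_sum fun i _ => ?_
  rw [inner_shd, norm_mul, mul_pow]
  refine mul_le_mul_of_nonneg_right ?_ (by positivity)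
  rw [Real.norm_eq_abs]
  exact pow_le_pow_left₀ hc (hg i) 2

theorem norm_shd_le {n : ℕ} (e : OrthonormalBasis (Fin n) ℝ V) (g : Fin n → ℝ) {c : ℝ} (hc : 0 ≤ c)
    (hg : ∀ i, |g i| ≤ c) (v : V) : ‖shd e g v‖ ≤ c * ‖v‖ := by
  apply le_of_sq_le_sq ?_ (by positivity)
  rw [mul_pow, ← e.sum_sq_norm_inner_right v, ← e.sum_sq_norm_inner_right (shd e g v),
    Finset.mul_sum]
  refine Finset.sum_le_sum fun i _ => ?_
  rw [inner_shd, norm_mul, mul_pow]
  refine mul_le_mul_of_nonneg_right ?_ (by positivity)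
  rw [Real.norm_eq_abs]
  exact pow_le_pow_left₀ (abs_nonneg _) (hg i) 2

theorem norm_shd_le' {n : ℕ} (e : OrthonormalBasis (Fin n) ℝ V) (g : Fin n → ℝ) {c : ℝ}
    (hc : 0 ≤ c) (v : V) (hg : ∀ i, |g i| ≤ c ∨ ⟪e i, v⟫ = 0) : ‖shd e g v‖ ≤ c * ‖v‖ := by
  apply le_of_sq_le_sq ?_ (by positivity)
  rw [mul_pow, ← e.sum_sq_norm_inner_right v, ← e.sum_sq_norm_inner_right (shd e g v),
    Finset.mul_sum]
  refine Finset.sum_le_sum fun i _ => ?_
  rw [inner_shd, norm_mul, mul_pow]
  rcases hg i with h | h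
  · refine mul_le_mul_of_nonneg_right ?_ (by positivity)
    rw [Real.norm_eq_abs]
    exact pow_le_pow_left₀ (abs_nonneg _) h 2
  · rw [h]
    simp

theorem det_shd {n : ℕ} (e : OrthonormalBasis (Fin n) ℝ V) (g : Fin n → ℝ) :
    LinearMap.det (shd e g) = ∏ i, g i := by
  classical
  rw [← LinearMap.det_toMatrix e.toBasis, ← Matrix.det_diagonal]
  congr 1
  ext i j
  rw [LinearMap.toMatrix_apply, OrthonormalBasis.coe_toBasis, shd_basis, map_smul,
    Finsupp.smul_apply, smul_eq_mul, OrthonormalBasis.coe_toBasis_repr_apply,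
    OrthonormalBasis.repr_self, Matrix.diagonal_apply]
  by_cases h : i = j
  · subst h
    simp
  · simp [h]

/-- simultaneous diagonalisation -/
theorem sh_struct [FiniteDimensional ℝ V] (A B : V →ₗ[ℝ] V) (hA : A.IsSymmetric) (hB : B.IsSymmetric) {b : ℝ} (hb : 0 < b)
    (hpos : ∀ v, b * ‖v‖ ^ 2 ≤ ⟪B v, v⟫) :
    ∃ (T S : V →ₗ[ℝ] V) (f : OrthonormalBasis (Fin (finrank ℝ V)) ℝ V)
      (lam : Fin (finrank ℝ V) → ℝ), (∀ v w, ⟪T v, w⟫ = ⟪v, T w⟫) ∧ (∀ v, T (S v) = v) ∧
      (∀ v, S (T v) = v) ∧ (∀ v, T (T v) = B v) ∧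
      ∀ (s : ℝ) (v : V), A v + s • B v = T (shd f (fun i => lam i + s) (T v)) := by
  classical
  set e := hB.eigenvectorBasis rfl with he
  set ev := hB.eigenvalues rfl with hev
  have hev1 : ∀ i, B (e i) = ev i • e i := by
    intro i
    exact hB.apply_eigenvectorBasis rfl i
  have hev2 : ∀ i, b ≤ ev i := by
    intro i
    have h1 := hpos (e i)
    rw [hev1, inner_smul_left, real_inner_self_eq_norm_sq, e.orthonormal.1 i] at h1
    simpa using h1
  have hev3 : ∀ i, 0 < ev i := fun i => hb.trans_le (hev2 i)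
  set T := shd e (fun i => √(ev i)) with hT
  set S := shd e (fun i => (√(ev i))⁻¹) with hS
  have hTS : ∀ v, T (S v) = v := by
    intro v
    rw [hT, hS, shd_shd]
    have : (fun i => √(ev i) * (√(ev i))⁻¹) = fun _ : Fin (finrank ℝ V) => (1 : ℝ) := by
      funext i
      exact mul_inv_cancel₀ (Real.sqrt_pos.2 (hev3 i)).ne'
    rw [this, shd_one]
  have hST : ∀ v, S (T v) = v := by
    intro v
    rw [hT, hS, shd_shd]
    have : (fun i => (√(ev i))⁻¹ * √(ev i)) = fun _ : Fin (finrank ℝ V) => (1 : ℝ) := by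
      funext i
      exact inv_mul_cancel₀ (Real.sqrt_pos.2 (hev3 i)).ne'
    rw [this, shd_one]
  have hTT : ∀ v, T (T v) = B v := by
    intro v
    rw [hT, shd_shd]
    have : (fun i => √(ev i) * √(ev i)) = ev := by
      funext i
      exact Real.mul_self_sqrt (hev3 i).le
    rw [this]
    have h2 : shd e ev = B := by
      apply e.toBasis.ext
      intro i
      rw [OrthonormalBasis.coe_toBasis, shd_basis, hev1]
    rw [h2]
  set C : V →ₗ[ℝ] V := S ∘ₗ A ∘ₗ S with hC
  have hCs : C.IsSymmetric := by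
    intro v w
    simp only [hC, LinearMap.comp_apply]
    rw [hS, shd_symm, hA, shd_symm]
  set f := hCs.eigenvectorBasis rfl with hf
  set lam := hCs.eigenvalues rfl with hlam
  have hC2 : C = shd f lam := by
    apply f.toBasis.ext
    intro i
    rw [OrthonormalBasis.coe_toBasis, shd_basis]
    exact hCs.apply_eigenvectorBasis rfl i
  refine ⟨T, S, f, lam, shd_symm _ _, hTS, hST, hTT, fun s v => ?_⟩
  have h2 : shd f (fun i => lam i + s) (T v) = C (T v) + s • T v := by
    rw [hC2]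
    generalize T v = y
    rw [shd_apply, shd_apply]
    nth_rewrite 3 [← f.sum_repr' y]
    rw [Finset.smul_sum, ← Finset.sum_add_distrib]
    refine Finset.sum_congr rfl fun i _ => ?_
    rw [smul_smul, ← add_smul]
    congr 1
    ring
  rw [h2, map_add, map_smul, hTT]
  simp only [hC, LinearMap.comp_apply, hST, hTS]


theorem norm_shd_sq {n : ℕ} (e : OrthonormalBasis (Fin n) ℝ V) (g : Fin n → ℝ) (v : V) :
    ‖shd e g v‖ ^ 2 = ∑ i, (g i * ⟪e i, v⟫) ^ 2 := by
  have h := e.sum_sq_norm_inner_right (shd e g v)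
  rw [← h]
  refine Finset.sum_congr rfl fun i _ => ?_
  rw [inner_shd, Real.norm_eq_abs, sq_abs]

end SH

section Count

variable {V : Type*} [NormedAddCommGroup V] [InnerProductSpace ℝ V] [FiniteDimensional ℝ V]

/-- A subspace on which `P + s Q` is at most `θ` has dimension at most the number of the roots
with `|s - μ| ≤ θ / b`. -/
theorem count_le (P Q : V →ₗ[ℝ] V) (hP : P.IsSymmetric) (hQ : Q.IsSymmetric) {b : ℝ} (hb : 0 < b)
    (hpos : ∀ v, b * ‖v‖ ^ 2 ≤ ⟪Q v, v⟫) :
    ∃ μ : Fin (finrank ℝ V) → ℝ,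
      (∀ s : ℝ, LinearMap.det (P + s • Q) = LinearMap.det Q * ∏ i, (s - μ i)) ∧
      ∀ (s θ : ℝ) (W : Submodule ℝ V), (∀ w ∈ W, ‖(P + s • Q) w‖ ≤ θ * ‖w‖) →
        finrank ℝ W ≤ (Finset.univ.filter fun i => |s - μ i| ≤ θ / b).card := by
  classical
  obtain ⟨T, S, f, lam, hTs, hTS, hST, hTT, hfor⟩ := sh_struct P Q hP hQ hb hpos
  have hTTc : T ∘ₗ T = Q := LinearMap.ext fun v => hTT v
  have hTn : ∀ v, ‖T v‖ ^ 2 = ⟪Q v, v⟫ := by
    intro v
    rw [← real_inner_self_eq_norm_sq, hTs, hTT, real_inner_comm]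
  have hM : ∀ s : ℝ, P + s • Q = T ∘ₗ (shd f (fun i => lam i + s)) ∘ₗ T := by
    intro s
    ext v
    exact hfor s v
  have hlow : ∀ v, b * ‖v‖ ^ 2 ≤ ‖T v‖ ^ 2 := by
    intro v
    rw [hTn]
    exact hpos v
  refine ⟨fun i => - lam i, fun s => ?_, fun s θ W hW => ?_⟩
  · have hg : ∀ i, s - (-lam i) = lam i + s := fun i => by ring
    rw [hM, LinearMap.det_comp, LinearMap.det_comp, det_shd, ← hTTc, LinearMap.det_comp]
    simp only [hg]
    ring
  · by_contra hlt
    push Not at hlt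
    set N := Finset.univ.filter fun i => |s - (-lam i)| ≤ θ / b with hN
    let φ : W →ₗ[ℝ] (N → ℝ) := LinearMap.pi fun i =>
      ((innerSL ℝ (f (i : Fin (finrank ℝ V)))).toLinearMap ∘ₗ T) ∘ₗ W.subtype
    have hφ : ∀ (w : W) (i : N), φ w i = ⟪f (i : Fin (finrank ℝ V)), T (w : V)⟫ := by
      intro w i
      rfl
    have hker : LinearMap.ker φ ≠ ⊥ := by
      apply LinearMap.ker_ne_bot_of_finrank_lt
      rw [Module.finrank_fintype_fun_eq_card]
      simpa using hlt
    obtain ⟨w, hw, hw0⟩ := Submodule.exists_mem_ne_zero_of_ne_bot hker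
    have hw1 : ∀ i ∈ N, ⟪f i, T (w : V)⟫ = 0 := by
      intro i hi
      have := congrFun (LinearMap.mem_ker.1 hw) ⟨i, hi⟩
      rwa [hφ] at this
    have hwV : (w : V) ≠ 0 := by
      intro h
      exact hw0 (Subtype.ext h)
    have hTw : 0 < ‖T (w : V)‖ ^ 2 := by
      have := hlow w
      have h2 : 0 < ‖(w : V)‖ ^ 2 := by positivity
      nlinarith
    have hθ : 0 ≤ θ := by
      have h1 := hW w w.2
      have h2 : 0 < ‖(w : V)‖ := norm_pos_iff.2 hwV
      by_contra h3
      push Not at h3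
      nlinarith [norm_nonneg ((P + s • Q) (w : V))]
    have hc : 0 ≤ θ / b := by positivity
    have h1 : (θ / b) ^ 2 * ‖T (w : V)‖ ^ 2 < ‖shd f (fun i => lam i + s) (T (w : V))‖ ^ 2 := by
      rw [norm_shd_sq]
      have h2 : ‖T (w : V)‖ ^ 2 = ∑ i, ⟪f i, T (w : V)⟫ ^ 2 := by
        have h := f.sum_sq_norm_inner_right (T (w : V))
        rw [← h]
        refine Finset.sum_congr rfl fun i _ => ?_
        rw [Real.norm_eq_abs, sq_abs]
      have hex : ∃ j, ⟪f j, T (w : V)⟫ ≠ 0 := by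
        by_contra h
        push Not at h
        rw [h2] at hTw
        simp [h] at hTw
      obtain ⟨j, hj⟩ := hex
      rw [h2, Finset.mul_sum]
      refine Finset.sum_lt_sum (fun i _ => ?_) ⟨j, Finset.mem_univ j, ?_⟩
      · by_cases hi : i ∈ N
        · rw [hw1 i hi]; simp
        · have h3 : θ / b < |s - (-lam i)| := by
            by_contra h4
            push Not at h4
            exact hi (by simp only [hN, Finset.mem_filter, Finset.mem_univ, true_and]; exact h4)
          rw [mul_pow]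
          refine mul_le_mul_of_nonneg_right ?_ (sq_nonneg _)
          rw [← sq_abs (lam i + s), show lam i + s = s - (-lam i) by ring]
          exact pow_le_pow_left₀ hc h3.le 2
      · have hjN : j ∉ N := fun h => hj (hw1 j h)
        have h3 : θ / b < |s - (-lam j)| := by
          by_contra h4
          push Not at h4
          exact hjN (by simp only [hN, Finset.mem_filter, Finset.mem_univ, true_and]; exact h4)
        rw [mul_pow]
        refine mul_lt_mul_of_pos_right ?_ (by positivity)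
        rw [← sq_abs (lam j + s), show lam j + s = s - (-lam j) by ring]
        exact pow_lt_pow_left₀ h3 hc (by norm_num)
    have h2 : ‖(P + s • Q) (w : V)‖ ^ 2 ≤ θ ^ 2 * ‖(w : V)‖ ^ 2 := by
      rw [← mul_pow]
      exact pow_le_pow_left₀ (norm_nonneg _) (hW w w.2) 2
    rw [hM] at h2
    simp only [LinearMap.comp_apply] at h2
    have h3 := hlow (shd f (fun i => lam i + s) (T (w : V)))
    have h4 := hlow (w : V)
    have h5 : b * ((θ / b) ^ 2 * ‖T (w : V)‖ ^ 2) < θ ^ 2 * ‖(w : V)‖ ^ 2 :=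
      (mul_lt_mul_of_pos_left h1 hb).trans_le (h3.trans h2)
    have h6 : θ ^ 2 * ‖(w : V)‖ ^ 2 ≤ b * ((θ / b) ^ 2 * ‖T (w : V)‖ ^ 2) := by
      calc θ ^ 2 * ‖(w : V)‖ ^ 2 = b * ((θ / b) ^ 2 * (b * ‖(w : V)‖ ^ 2)) := by
            field_simp
        _ ≤ _ := by gcongr
    linarith

end Count

/-- the number of the indices with a property depends only on the polynomial -/
theorem card_filter_eq {d : ℕ} (μ ν : Fin d → ℝ) (h : ∀ s : ℝ, ∏ i, (s - μ i) = ∏ i, (s - ν i))
    (p : ℝ → Prop) [DecidablePred p] :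
    (Finset.univ.filter fun i => p (μ i)).card = (Finset.univ.filter fun i => p (ν i)).card := by
  have hpoly : (Finset.univ.val.map μ |>.map fun a => Polynomial.X - Polynomial.C a).prod =
      (Finset.univ.val.map ν |>.map fun a => Polynomial.X - Polynomial.C a).prod := by
    apply Polynomial.funext
    intro r
    rw [Polynomial.eval_multiset_prod, Polynomial.eval_multiset_prod]
    simp only [Multiset.map_map, Function.comp_apply, Polynomial.eval_sub, Polynomial.eval_X,
      Polynomial.eval_C]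
    exact h r
  have hm : Finset.univ.val.map μ = Finset.univ.val.map ν := by
    rw [← Polynomial.roots_multiset_prod_X_sub_C (Finset.univ.val.map μ), hpoly,
      Polynomial.roots_multiset_prod_X_sub_C]
  have h1 : ∀ κ : Fin d → ℝ, (Finset.univ.filter fun i => p (κ i)).card =
      (Finset.univ.val.map κ).countP p := by
    intro κ
    rw [Multiset.countP_map, Finset.card_def, Finset.filter_val]
  rw [h1, h1, hm]

/-- A small operator `Sc` in `m` variables, lifted to `P + s Q` in `d` variables: `m` of the roots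
are near `s`, and their product is at most a multiple of the determinant. -/
theorem sla (d m : ℕ) (P Q : EuclideanSpace ℝ (Fin d) →L[ℝ] EuclideanSpace ℝ (Fin d))
    (hP : ∀ v w, ⟪P v, w⟫ = ⟪v, P w⟫) (hQ : ∀ v w, ⟪Q v, w⟫ = ⟪v, Q w⟫) {b : ℝ} (hb : 0 < b)
    (hpos : ∀ v, b * ‖v‖ ^ 2 ≤ ⟪Q v, v⟫) (μ : Fin d → ℝ)
    (hμ : ∀ s : ℝ, (P + s • Q).det = Q.det * ∏ i, (s - μ i)) (s : ℝ)
    (X : EuclideanSpace ℝ (Fin m) →ₗ[ℝ] EuclideanSpace ℝ (Fin d))
    (Sc : EuclideanSpace ℝ (Fin m) →ₗ[ℝ] EuclideanSpace ℝ (Fin m)) {cX C : ℝ} (hcX : 0 < cX)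
    (hC : 0 ≤ C) (hX : ∀ v, cX * ‖v‖ ≤ ‖X v‖) (hS : ∀ v, ‖(P + s • Q) (X v)‖ ≤ C * ‖Sc v‖) :
    ∃ I : Finset (Fin d), I.card = m ∧
      (∀ t : ℝ, (∀ v, ‖Sc v‖ ≤ t * ‖v‖) → ∀ i ∈ I, |s - μ i| ≤ C / (b * cX) * t) ∧
      ∏ i ∈ I, |s - μ i| ≤ (C / (b * cX)) ^ m * |LinearMap.det Sc| := by
  classical
  -- roots
  have hfd : finrank ℝ (EuclideanSpace ℝ (Fin d)) = d := finrank_euclideanSpace_fin
  have hfm : finrank ℝ (EuclideanSpace ℝ (Fin m)) = m := finrank_euclideanSpace_fin
  obtain ⟨ν0, hν1, hν2⟩ := count_le (P : EuclideanSpace ℝ (Fin d) →ₗ[ℝ] EuclideanSpace ℝ (Fin d))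
    (Q : EuclideanSpace ℝ (Fin d) →ₗ[ℝ] EuclideanSpace ℝ (Fin d)) hP hQ hb hpos
  have hQdet : LinearMap.det (Q : EuclideanSpace ℝ (Fin d) →ₗ[ℝ] EuclideanSpace ℝ (Fin d)) ≠ 0 := by
    intro h0
    have hex : ∃ v, v ≠ 0 ∧ Q v = 0 := by
      have := LinearMap.bot_lt_ker_of_det_eq_zero h0
      obtain ⟨v, hv, hv0⟩ := Submodule.exists_mem_ne_zero_of_ne_bot this.ne'
      exact ⟨v, hv0, LinearMap.mem_ker.1 hv⟩
    obtain ⟨v, hv0, hv⟩ := hex
    have h1 := hpos v
    rw [hv, inner_zero_left] at h1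
    have h2 : 0 < ‖v‖ ^ 2 := by positivity
    nlinarith
  have hν : ∃ ν : Fin d → ℝ, (∀ s : ℝ, ∏ i, (s - ν i) = ∏ i, (s - μ i)) ∧
      ∀ (s θ : ℝ) (W : Submodule ℝ (EuclideanSpace ℝ (Fin d))),
        (∀ w ∈ W, ‖(P + s • Q) w‖ ≤ θ * ‖w‖) →
        finrank ℝ W ≤ (Finset.univ.filter fun i => |s - ν i| ≤ θ / b).card := by
    clear hX hS
    revert ν0
    rw [hfd]
    intro ν0 hν1 hν2
    refine ⟨ν0, fun s => ?_, hν2⟩
    have h1 := hν1 s
    have h2 : LinearMap.det ((P : EuclideanSpace ℝ (Fin d) →ₗ[ℝ] EuclideanSpace ℝ (Fin d)) +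
        s • (Q : EuclideanSpace ℝ (Fin d) →ₗ[ℝ] EuclideanSpace ℝ (Fin d))) =
        LinearMap.det (Q : EuclideanSpace ℝ (Fin d) →ₗ[ℝ] EuclideanSpace ℝ (Fin d)) *
          ∏ i, (s - μ i) := hμ s
    rw [h1] at h2
    exact mul_left_cancel₀ hQdet h2
  obtain ⟨ν, hν3, hν4⟩ := hν
  have hcount : ∀ (θ : ℝ) (W : Submodule ℝ (EuclideanSpace ℝ (Fin d))),
      (∀ w ∈ W, ‖(P + s • Q) w‖ ≤ θ * ‖w‖) →
      finrank ℝ W ≤ (Finset.univ.filter fun i => |s - μ i| ≤ θ / b).card := by
    intro θ W hW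
    refine (hν4 s θ W hW).trans_eq ?_
    exact card_filter_eq ν μ hν3 (fun x => |s - x| ≤ θ / b)
  -- singular values of `Sc`
  set A := LinearMap.adjoint Sc ∘ₗ Sc with hA
  have hAs : A.IsSymmetric := by
    intro v w
    simp only [hA, LinearMap.comp_apply]
    rw [LinearMap.adjoint_inner_left, LinearMap.adjoint_inner_right]
  set e := hAs.eigenvectorBasis hfm with he
  set ev := hAs.eigenvalues hfm with hev
  have hev1 : ∀ i, A (e i) = ev i • e i := fun i => hAs.apply_eigenvectorBasis hfm i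
  have hSv : ∀ v, ‖Sc v‖ ^ 2 = ∑ j, ev j * ⟪e j, v⟫ ^ 2 := by
    intro v
    have h1 : ‖Sc v‖ ^ 2 = ⟪A v, v⟫ := by
      rw [← real_inner_self_eq_norm_sq]
      simp only [hA, LinearMap.comp_apply]
      rw [LinearMap.adjoint_inner_left]
    have h2 : A v = shd e ev v := by
      have h3 : A = shd e ev := by
        apply e.toBasis.ext
        intro i
        rw [OrthonormalBasis.coe_toBasis, shd_basis, hev1]
      rw [h3]
    rw [h1, h2, shd_apply, sum_inner]
    refine Finset.sum_congr rfl fun i _ => ?_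
    rw [real_inner_smul_left]
    ring
  have hSe : ∀ j, ‖Sc (e j)‖ ^ 2 = ev j := by
    intro j
    rw [hSv]
    rw [Finset.sum_eq_single j]
    · rw [real_inner_self_eq_norm_sq, e.orthonormal.1 j]; ring
    · intro i _ hij
      rw [e.orthonormal.2 hij]; ring
    · intro h; exact absurd (Finset.mem_univ j) h
  set κ : ℝ := C / (b * cX) with hκ
  have hκ0 : 0 ≤ κ := by positivity
  -- Hall
  let t : Fin m → Finset (Fin d) := fun j => Finset.univ.filter fun i => |s - μ i| ≤ κ * ‖Sc (e j)‖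
  have hall : ∀ F : Finset (Fin m), F.card ≤ (F.biUnion t).card := by
    intro F
    rcases F.eq_empty_or_nonempty with h | h
    · simp [h]
    obtain ⟨j, hj, hmax⟩ := F.exists_max_image (fun j => ‖Sc (e j)‖) h
    set θ := ‖Sc (e j)‖ with hθ
    set V0 : Submodule ℝ (EuclideanSpace ℝ (Fin m)) :=
      Submodule.span ℝ (Set.range fun i : F => e (i : Fin m)) with hV0
    have hdim : finrank ℝ V0 = F.card := by
      have hli : LinearIndependent ℝ (fun i : F => e (i : Fin m)) := by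
        have := e.orthonormal.linearIndependent
        exact this.comp (fun i : F => (i : Fin m)) Subtype.val_injective
      rw [hV0, finrank_span_eq_card hli]
      simp
    have hXinj : Function.Injective X := by
      rw [injective_iff_map_eq_zero]
      intro v hv
      have := hX v
      rw [hv, norm_zero] at this
      have h2 : ‖v‖ ≤ 0 := by
        by_contra h3
        push Not at h3
        nlinarith
      exact norm_le_zero_iff.1 h2
    have hperp : ∀ v ∈ V0, ∀ i, i ∉ F → ⟪e i, v⟫ = 0 := by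
      intro v hv i hi
      have hle : V0 ≤ LinearMap.ker (innerSL ℝ (e i)).toLinearMap := by
        rw [hV0, Submodule.span_le]
        rintro _ ⟨k, rfl⟩
        rw [SetLike.mem_coe, LinearMap.mem_ker]
        change ⟪e i, e (k : Fin m)⟫ = 0
        apply e.orthonormal.2
        intro h'
        exact hi (h' ▸ k.2)
      exact LinearMap.mem_ker.1 (hle hv)
    have hsm : ∀ v ∈ V0, ‖Sc v‖ ≤ θ * ‖v‖ := by
      intro v hv
      apply le_of_sq_le_sq _ (by positivity)
      rw [mul_pow, hSv]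
      have h2 : ‖v‖ ^ 2 = ∑ i, ⟪e i, v⟫ ^ 2 := by
        have h := e.sum_sq_norm_inner_right v
        rw [← h]
        refine Finset.sum_congr rfl fun i _ => ?_
        rw [Real.norm_eq_abs, sq_abs]
      rw [h2, Finset.mul_sum]
      refine Finset.sum_le_sum fun i _ => ?_
      by_cases hi : i ∈ F
      · refine mul_le_mul_of_nonneg_right ?_ (sq_nonneg _)
        rw [← hSe]
        exact pow_le_pow_left₀ (norm_nonneg _) (hmax i hi) 2
      · rw [hperp v hv i hi]; simp
    have hW : ∀ w ∈ V0.map X, ‖(P + s • Q) w‖ ≤ (C * θ / cX) * ‖w‖ := by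
      rintro _ ⟨v, hv, rfl⟩
      calc ‖(P + s • Q) (X v)‖ ≤ C * ‖Sc v‖ := hS v
        _ ≤ C * (θ * ‖v‖) := by gcongr; exact hsm v hv
        _ = (C * θ / cX) * (cX * ‖v‖) := by field_simp
        _ ≤ (C * θ / cX) * ‖X v‖ := by gcongr; exact hX v
    have h3 := hcount _ _ hW
    rw [← (Submodule.equivMapOfInjective X hXinj V0).finrank_eq, hdim] at h3
    refine h3.trans ((Finset.card_le_card ?_).trans
      (Finset.card_le_card (Finset.subset_biUnion_of_mem t hj)))
    intro i hi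
    simp only [t, Finset.mem_filter, Finset.mem_univ, true_and] at hi ⊢
    refine hi.trans_eq ?_
    rw [hκ, ← hθ]
    field_simp
  obtain ⟨g, hg1, hg2⟩ := (Finset.all_card_le_biUnion_card_iff_exists_injective t).1 hall
  have hg3 : ∀ j, |s - μ (g j)| ≤ κ * ‖Sc (e j)‖ := by
    intro j
    have := hg2 j
    simp only [t, Finset.mem_filter, Finset.mem_univ, true_and] at this
    exact this
  refine ⟨Finset.univ.image g, ?_, fun t0 ht i hi => ?_, ?_⟩
  · rw [Finset.card_image_of_injective _ hg1, Finset.card_univ, Fintype.card_fin]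
  · obtain ⟨j, -, rfl⟩ := Finset.mem_image.1 hi
    refine (hg3 j).trans ?_
    have := ht (e j)
    rw [e.orthonormal.1 j, mul_one] at this
    gcongr
  · rw [Finset.prod_image fun a _ b _ h => hg1 h]
    have h1 : ∏ j, ‖Sc (e j)‖ = |LinearMap.det Sc| := by
      have h2 : (∏ j, ‖Sc (e j)‖) ^ 2 = |LinearMap.det Sc| ^ 2 := by
        rw [← Finset.prod_pow]
        simp only [hSe]
        have h3 : LinearMap.det A = ∏ i, ev i := by
          have h4 : A = shd e ev := by
            apply e.toBasis.ext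
            intro i
            rw [OrthonormalBasis.coe_toBasis, shd_basis, hev1]
          rw [h4, det_shd]
        have h5 : ((LinearMap.normDet Sc ^ 2 : ℝ)) = LinearMap.det A := by
          rw [hA]
          exact_mod_cast LinearMap.normDet_sq Sc
        rw [← h3, ← h5, LinearMap.normDet_eq_abs_det]
      have h6 : 0 ≤ ∏ j, ‖Sc (e j)‖ := Finset.prod_nonneg fun _ _ => norm_nonneg _
      exact (sq_eq_sq₀ h6 (abs_nonneg _)).1 h2
    calc ∏ j, |s - μ (g j)| ≤ ∏ j, κ * ‖Sc (e j)‖ :=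
          Finset.prod_le_prod (fun _ _ => abs_nonneg _) fun j _ => hg3 j
      _ = κ ^ m * |LinearMap.det Sc| := by
          rw [Finset.prod_mul_distrib, h1, Finset.prod_const, Finset.card_univ, Fintype.card_fin]

end Pool.Agent.GNP.SLA
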