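import Pool.Agent.GNP.Defs5
import Pool.Agent.GNP.P0
import Pool.Agent.GNP.SLA

/-!
A reduction at one point: the reduced Hessian against the roots of the pencil.
-/

namespace Pool.Agent.GNP

open MeasureTheory Set Pool.Agent.MP_6cbfb8_an
open scoped ENNReal Real RealInnerProductSpace ContDiff

section

variable {d m : ℕ} {Λ : ℕ → ℝ} {q : E d → ℝ} {R ρ : ℝ} {ι : E m →ₗᵢ[ℝ] E d} {Y : E m → E d}
  {Q : E m → ℝ} {v : E m}

theorem red_nhds (hρ : 0 < ρ) : ∀ᶠ u in nhds v, ‖u - v‖ ≤ ρ := by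
  filter_upwards [Metric.closedBall_mem_nhds v hρ] with u hu
  simpa [dist_eq_norm] using hu

/-- The tangent vectors of the leaf: the Hessian of `q` maps them to the directions which are left,
as the Hessian of the reduced phase does. -/
theorem red_inv (hρ : 0 < ρ) (h : Red d m Λ q R ρ ι Y Q v) (hq : ContDiff ℝ ∞ q) (x : E m) :
    Hs q (Y v) (fderiv ℝ Y v x) = ι (Hs Q v x) ∧ ‖x‖ ≤ ‖fderiv ℝ Y v x‖ := by
  have hY : HasFDerivAt Y (fderiv ℝ Y v) v :=
    ((h.smY.differentiable (by simp)) v).hasFDerivAt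
  have hgq : HasFDerivAt (fun u => gr q (Y u)) ((Hs q (Y v)).comp (fderiv ℝ Y v)) v :=
    (hasFDerivAt_gr hq (Y v)).comp v hY
  have hgQ : HasFDerivAt (gr Q) (Hs Q v) v := hasFDerivAt_gr h.smQ v
  -- the section
  have hsec : ∀ x' : E m, ⟪fderiv ℝ Y v x, ι x'⟫ = ⟪x, x'⟫ := by
    intro x'
    have h1 : HasFDerivAt (fun u => ⟪Y u, ι x'⟫)
        ((innerSL ℝ (ι x')).comp (fderiv ℝ Y v)) v := by
      have := (innerSL ℝ (ι x') : E d →L[ℝ] ℝ).hasFDerivAt.comp v hY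
      refine this.congr_of_eventuallyEq (Filter.Eventually.of_forall fun u => ?_)
      simp [real_inner_comm]
    have h2 : HasFDerivAt (fun u : E m => ⟪u, x'⟫) (innerSL ℝ x' : E m →L[ℝ] ℝ) v := by
      have := (innerSL ℝ x' : E m →L[ℝ] ℝ).hasFDerivAt (x := v)
      refine this.congr_of_eventuallyEq (Filter.Eventually.of_forall fun u => ?_)
      simp [real_inner_comm]
    have h3 : (fun u => ⟪Y u, ι x'⟫) =ᶠ[nhds v] fun u : E m => ⟪u, x'⟫ := by
      filter_upwards [red_nhds hρ] with u hu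
      exact h.sec u hu x'
    have h4 := h1.unique (h2.congr_of_eventuallyEq h3)
    have h5 := congrArg (fun f : E m →L[ℝ] ℝ => f x) h4
    simpa [real_inner_comm] using h5
  -- the gradient
  have hgrad : ∀ x' : E m, ⟪Hs q (Y v) (fderiv ℝ Y v x), ι x'⟫ = ⟪Hs Q v x, x'⟫ := by
    intro x'
    have h1 : HasFDerivAt (fun u => ⟪gr q (Y u), ι x'⟫)
        ((innerSL ℝ (ι x')).comp ((Hs q (Y v)).comp (fderiv ℝ Y v))) v := by
      have := (innerSL ℝ (ι x') : E d →L[ℝ] ℝ).hasFDerivAt.comp v hgq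
      refine this.congr_of_eventuallyEq (Filter.Eventually.of_forall fun u => ?_)
      simp [real_inner_comm]
    have h2 : HasFDerivAt (fun u : E m => ⟪gr Q u, x'⟫)
        ((innerSL ℝ x' : E m →L[ℝ] ℝ).comp (Hs Q v)) v := by
      have := (innerSL ℝ x' : E m →L[ℝ] ℝ).hasFDerivAt.comp v hgQ
      refine this.congr_of_eventuallyEq (Filter.Eventually.of_forall fun u => ?_)
      simp [real_inner_comm]
    have h3 : (fun u : E m => ⟪gr Q u, x'⟫) =ᶠ[nhds v] fun u => ⟪gr q (Y u), ι x'⟫ := by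
      filter_upwards [red_nhds hρ] with u hu
      exact h.grad u hu x'
    have h4 := h2.unique (h1.congr_of_eventuallyEq h3)
    have h5 := congrArg (fun f : E m →L[ℝ] ℝ => f x) h4
    simpa [real_inner_comm] using h5.symm
  -- the leaf
  have hleaf : ∀ f : E d, (∀ x', ⟪f, ι x'⟫ = 0) → ⟪Hs q (Y v) (fderiv ℝ Y v x), f⟫ = 0 := by
    intro f hf
    have h1 : HasFDerivAt (fun u => ⟪gr q (Y u), f⟫)
        ((innerSL ℝ f).comp ((Hs q (Y v)).comp (fderiv ℝ Y v))) v := by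
      have := (innerSL ℝ f : E d →L[ℝ] ℝ).hasFDerivAt.comp v hgq
      refine this.congr_of_eventuallyEq (Filter.Eventually.of_forall fun u => ?_)
      simp [real_inner_comm]
    have h2 : HasFDerivAt (fun _ : E m => ⟪gr q (Y v), f⟫) (0 : E m →L[ℝ] ℝ) v :=
      hasFDerivAt_const _ _
    have h3 : (fun _ : E m => ⟪gr q (Y v), f⟫) =ᶠ[nhds v] fun u => ⟪gr q (Y u), f⟫ := by
      filter_upwards [red_nhds hρ] with u hu
      exact (h.leaf u hu f hf).symm
    have h4 := h2.unique (h1.congr_of_eventuallyEq h3)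
    have h5 := congrArg (fun f : E m →L[ℝ] ℝ => f x) h4
    simpa [real_inner_comm] using h5.symm
  constructor
  · set z : E d := Hs q (Y v) (fderiv ℝ Y v x) with hz
    set f : E d := z - ι (Hs Q v x) with hf
    have hf0 : ∀ x', ⟪f, ι x'⟫ = 0 := by
      intro x'
      rw [hf, inner_sub_left, hgrad, ι.inner_map_map, sub_self]
    have h1 : ⟪z, f⟫ = 0 := hleaf f hf0
    have h2 : ⟪ι (Hs Q v x), f⟫ = 0 := by
      rw [real_inner_comm]
      exact hf0 _
    have h3 : ⟪f, f⟫ = 0 := by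
      conv_lhs => rw [hf]
      rw [inner_sub_left, h1, h2, sub_zero]
    have h4 : f = 0 := inner_self_eq_zero.1 h3
    rw [hf, sub_eq_zero] at h4
    exact h4
  · have h1 := hsec x
    rw [real_inner_self_eq_norm_sq] at h1
    have h2 : ‖x‖ ^ 2 ≤ ‖fderiv ℝ Y v x‖ * ‖x‖ := by
      rw [← h1]
      refine (real_inner_le_norm _ _).trans (le_of_eq ?_)
      rw [ι.norm_map]
    by_cases hx : ‖x‖ = 0
    · rw [hx]
      exact norm_nonneg _
    · have h3 : 0 < ‖x‖ := lt_of_le_of_ne (norm_nonneg _) (Ne.symm hx)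
      rw [sq] at h2
      exact le_of_mul_le_mul_right h2 h3

/-- There are `m` roots at distance at most `‖D²Q(v)‖ / b` from `s`, and the product of these
distances is at most `|det D²Q(v)| / b^m`. -/
theorem red_roots (hρ : 0 < ρ) (h : Red d m Λ q R ρ ι Y Q v) (hq : ContDiff ℝ ∞ q)
    {P B : E d →L[ℝ] E d} (hP : Sy P) (hB : Sy B) {b : ℝ} (hb : 0 < b)
    (hpos : ∀ x, b * ‖x‖ ^ 2 ≤ ⟪B x, x⟫) {μ : Fin d → ℝ}
    (hμ : ∀ s : ℝ, (P + s • B).det = B.det * ∏ i, (s - μ i)) {s : ℝ}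
    (hH : Hs q (Y v) = P + s • B) :
    ∃ I : Finset (Fin d), I.card = m ∧ (∀ i ∈ I, |s - μ i| ≤ b⁻¹ * ‖Hs Q v‖) ∧
      ∏ i ∈ I, |s - μ i| ≤ (b⁻¹) ^ m * |(Hs Q v).det| := by
  obtain ⟨I, hI, h1, h2⟩ := SLA.sla d m P B hP hB hb hpos μ hμ s
    (fderiv ℝ Y v : E m →ₗ[ℝ] E d) (Hs Q v : E m →ₗ[ℝ] E m) (cX := 1) (C := 1) one_pos zero_le_one
    (fun x => by
      rw [one_mul]
      exact (red_inv hρ h hq x).2)
    (fun x => by
      rw [one_mul, ← hH]
      refine le_of_eq ?_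
      have h3 := (red_inv hρ h hq x).1
      have h4 : ‖Hs q (Y v) (fderiv ℝ Y v x)‖ = ‖Hs Q v x‖ := by rw [h3, ι.norm_map]
      exact h4)
  have e : (1 : ℝ) / (b * 1) = b⁻¹ := by rw [mul_one, one_div]
  rw [e] at h1 h2
  exact ⟨I, hI, h1 ‖Hs Q v‖ fun x => (Hs Q v).le_opNorm x, h2⟩

end

end Pool.Agent.GNP
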