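-- Pool/Agent/GNP/GEO0.lean
import Pool.Agent.GNP.Defs5

/-! Level facts for the chains (real numbers only). -/

namespace Pool.Agent.GNP

open MeasureTheory Set Pool.Agent.MP_6cbfb8_an
open scoped ENNReal Real RealInnerProductSpace ContDiff

/-- A bound of order `j ≥ 3` at the scale `K r ≤ ρ` is at most the bound of order two. -/
theorem geo_pow {K R ρ r Λj D : ℝ} {j : ℕ} (hK : 1 ≤ K) (hΛ : Λj ≤ K) (hR : 0 < R) (hρ : 0 < ρ)
    (hr : 0 < r) (hj : 2 ≤ j) (hD : D ≤ Λj * (R * ρ ^ 2) / ρ ^ j) :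
    D * (K * r) ^ j ≤ K * (R * (K * r) ^ 2 * (K * r / ρ) ^ (j - 2)) := by
  have hK0 : 0 < K := by linarith
  have hx : 0 < K * r := by positivity
  obtain ⟨i, rfl⟩ : ∃ i, j = i + 2 := ⟨j - 2, by omega⟩
  have h1 : D * (K * r) ^ (i + 2) ≤ Λj * (R * ρ ^ 2) / ρ ^ (i + 2) * (K * r) ^ (i + 2) :=
    mul_le_mul_of_nonneg_right hD (by positivity)
  have h2 : Λj * (R * ρ ^ 2) / ρ ^ (i + 2) * (K * r) ^ (i + 2) =
      Λj * (R * (K * r) ^ 2 * (K * r / ρ) ^ i) := by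
    rw [div_pow]
    generalize K * r = x
    field_simp
    ring
  rw [h2] at h1
  refine h1.trans ?_
  rw [Nat.add_sub_cancel]
  exact mul_le_mul_of_nonneg_right hΛ (by positivity)

/-- The size of a level: `r⁻² ≤ K⁶ R`. -/
theorem geo_lev {m : ℕ} {K R ρ r : ℝ} {Λ : ℕ → ℝ} {J : ℕ} {Q : E m → ℝ} {v : E m} (hK : 1 ≤ K)
    (hΛ : ∀ j, j ≤ J → Λ j ≤ K) (hR : 0 < R) (hρ : 0 < ρ) (h2 : 1 ≤ K ^ 2 * (R * ρ ^ 2))
    (hb : ∀ j, 2 ≤ j → ‖iteratedFDeriv ℝ j Q v‖ ≤ Λ j * (R * ρ ^ 2) / ρ ^ j)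
    (hL : Lv K J ρ Q v r) : 1 ≤ K ^ 6 * (R * r ^ 2) := by
  have hK0 : 0 < K := by linarith
  obtain ⟨hr, hKr, hL | ⟨j, hj, hjJ, hL⟩⟩ := hL
  · have h1 : ρ ^ 2 ≤ (K ^ 2 * r) ^ 2 := pow_le_pow_left₀ hρ.le hL 2
    calc 1 ≤ K ^ 2 * (R * ρ ^ 2) := h2
      _ ≤ K ^ 2 * (R * (K ^ 2 * r) ^ 2) := by gcongr
      _ = K ^ 6 * (R * r ^ 2) := by ring
  · have h1 := geo_pow hK (hΛ j hjJ) hR hρ hr (by omega) (hb j (by omega))
    have h3 : (K * r / ρ) ^ (j - 2) ≤ 1 :=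
      pow_le_one₀ (by positivity) (by rw [div_le_one hρ]; exact hKr)
    have h4 : (1 : ℝ) ≤ K * (‖iteratedFDeriv ℝ j Q v‖ * (K * r) ^ j) := (le_max_right _ _).trans hL
    have h5 : R * (K * r) ^ 2 * (K * r / ρ) ^ (j - 2) ≤ R * (K * r) ^ 2 * 1 :=
      mul_le_mul_of_nonneg_left h3 (by positivity)
    calc (1 : ℝ) ≤ K * (K * (R * (K * r) ^ 2 * 1)) :=
          h4.trans (mul_le_mul_of_nonneg_left (h1.trans (mul_le_mul_of_nonneg_left h5 hK0.le)) hK0.le)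
      _ = K ^ 4 * (R * r ^ 2) := by ring
      _ ≤ K ^ 6 * (R * r ^ 2) := by
          have h6 : K ^ 4 ≤ K ^ 6 := pow_le_pow_right₀ hK (by norm_num)
          gcongr

/-- A real drop: the phase is bad at the scale `K r`, and the size `W` at that scale is much smaller
than `R`. -/
theorem geo_drop {m : ℕ} {K R ρ r : ℝ} {Λ : ℕ → ℝ} {J c : ℕ} {Q : E m → ℝ} {v : E m} (hK : 1 < K)
    (hΛ : ∀ j, j ≤ J → Λ j ≤ K) (hR : 0 < R) (hρ : 0 < ρ) (hρ1 : ρ ≤ 1) (hc : 2 ≤ c)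
    (hb : ∀ j, 2 ≤ j → ‖iteratedFDeriv ℝ j Q v‖ ≤ Λ j * (R * ρ ^ 2) / ρ ^ j)
    (hL : Lv K J ρ Q v r) (hr : K ^ c * r < ρ) :
    ∃ k : ℕ, ‖Hs Q v‖ ≤ 2 ^ k ∧ (2 : ℝ) ^ k * K ^ c ≤ 2 * K ^ 3 * R ∧ ∃ j, 3 ≤ j ∧ j ≤ J ∧
      (2 : ℝ) ^ k * (K * r) ^ 2 ≤ 2 * K * (‖iteratedFDeriv ℝ j Q v‖ * (K * r) ^ j) := by
  have hK0 : 0 < K := by linarith
  have hK1 : 1 ≤ K := hK.le
  obtain ⟨hr0, hKr, hL | ⟨j, hj, hjJ, hL⟩⟩ := hL
  · exfalso
    have h1 : K ^ 2 * r ≤ K ^ c * r :=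
      mul_le_mul_of_nonneg_right (pow_le_pow_right₀ hK1 hc) hr0.le
    linarith
  · have hx : 0 < K * r := by positivity
    have hx1 : K * r ≤ 1 := hKr.trans hρ1
    set W : ℝ := max ‖Hs Q v‖ ((K * r) ^ 2)⁻¹ with hW
    have hW1 : 1 ≤ W := by
      refine le_trans ?_ (le_max_right _ _)
      rw [one_le_inv₀ (by positivity)]
      exact pow_le_one₀ hx.le hx1
    have hWx : W * (K * r) ^ 2 = max (‖Hs Q v‖ * (K * r) ^ 2) 1 := by
      rw [hW, max_mul_of_nonneg _ _ (by positivity), inv_mul_cancel₀ (by positivity)]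
    obtain ⟨k, hk1, hk2⟩ : ∃ k : ℕ, W ≤ 2 ^ k ∧ (2 : ℝ) ^ k ≤ 2 * W := by
      obtain ⟨k, hk1, hk2⟩ := exists_nat_pow_near hW1 (by norm_num : (1 : ℝ) < 2)
      exact ⟨k + 1, hk2.le, by rw [pow_succ]; linarith⟩
    refine ⟨k, (le_max_left _ _).trans hk1, ?_, j, hj, hjJ, ?_⟩
    · have h1 := geo_pow hK1 (hΛ j hjJ) hR hρ hr0 (by omega) (hb j (by omega))
      have h2 : K * r / ρ ≤ K / K ^ c := by
        rw [div_le_div_iff₀ hρ (by positivity)]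
        nlinarith
      have h3 : (K * r / ρ) ^ (j - 2) ≤ K / K ^ c := by
        have h4 : (K * r / ρ) ^ (j - 2) ≤ (K * r / ρ) ^ 1 :=
          pow_le_pow_of_le_one (by positivity) (by rw [div_le_one hρ]; exact hKr) (by omega)
        rw [pow_one] at h4
        exact h4.trans h2
      have h5 : W * (K * r) ^ 2 ≤ K * (K * (R * (K * r) ^ 2 * (K / K ^ c))) := by
        rw [hWx]
        refine hL.trans (mul_le_mul_of_nonneg_left (h1.trans (mul_le_mul_of_nonneg_left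
          (mul_le_mul_of_nonneg_left h3 (by positivity)) hK0.le)) hK0.le)
      have h6 : K * (K * (R * (K * r) ^ 2 * (K / K ^ c))) = (K ^ 3 * R / K ^ c) * (K * r) ^ 2 := by
        field_simp
      rw [h6] at h5
      have h7 : W ≤ K ^ 3 * R / K ^ c := le_of_mul_le_mul_right h5 (by positivity)
      rw [le_div_iff₀ (by positivity)] at h7
      calc (2 : ℝ) ^ k * K ^ c ≤ 2 * W * K ^ c := by gcongr
        _ = 2 * (W * K ^ c) := by ring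
        _ ≤ 2 * (K ^ 3 * R) := by linarith
        _ = _ := by ring
    · calc (2 : ℝ) ^ k * (K * r) ^ 2 ≤ 2 * W * (K * r) ^ 2 := by gcongr
        _ = 2 * (W * (K * r) ^ 2) := by ring
        _ ≤ 2 * (K * (‖iteratedFDeriv ℝ j Q v‖ * (K * r) ^ j)) := by
            rw [hWx]
            linarith
        _ = _ := by ring

/-- What a chain starting with a reduction to `m` variables at the scales `(R, ρ)` gives for its
value `w`: `μ y` are the roots at the point `y` of `R^d`. -/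
def GI {d : ℕ} (m C : ℕ) (K R ρ : ℝ) (μ : E d → Fin d → ℝ) (y : E d) (s w : ℝ) : Prop :=
  (∃ I : Finset (Fin d), I.card = m ∧ w * ∏ i ∈ I, √(1 + |s - μ y i|) ≤ K ^ C) ∨
  ∃ (I : Finset (Fin d)) (r : ℝ), 1 ≤ I.card ∧ I.card ≤ m ∧ 0 < r ∧ r ≤ ρ ∧
    (∀ i ∈ I, |s - μ y i| * r ^ 2 ≤ K ^ C) ∧ w ≤ K ^ C * r ^ (m - I.card) ∧
    w * ∏ i ∈ I, (r * |s - μ y i|) ≤ K ^ C * r ^ (m - I.card) ∧
    1 ≤ K ^ C * (R * r ^ 2) ∧
    (2 ≤ I.card → ρ ≤ K ^ C * r ∨ ∃ k : ℕ, ¬ Stab μ K (2 ^ k) (K ^ C * r) y)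

/-- Stability at a larger radius gives stability at a smaller one. -/
theorem stab_mono {d : ℕ} {s : E d → Fin d → ℝ} {K w σ σ' : ℝ} {y : E d} (h : Stab s K w σ y)
    (hσ : σ' ≤ σ) : Stab s K w σ' y :=
  fun y' hy' => h y' (hy'.trans hσ)

/-- The contradiction between the bound of the structure lemma at the radius `K^c r` and the bad
derivative at the scale `K r`. -/
theorem geo_contra {K r w D : ℝ} {j a c : ℕ} (hK : 2 ≤ K) (hr : 0 < r) (hw : 0 < w)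
    (hj : 3 ≤ j) (hc : a + 4 ≤ c) (h1 : w * (K * r) ^ 2 ≤ 2 * K * (D * (K * r) ^ j))
    (h2 : D ≤ K ^ a * (w * (K ^ c * r) ^ 2) / (K ^ c * r) ^ j) : False := by
  have hK0 : 0 < K := by linarith
  have hK1 : 1 ≤ K := by linarith
  obtain ⟨i, rfl⟩ : ∃ i, j = i + 3 := ⟨j - 3, by omega⟩
  obtain ⟨e, rfl⟩ : ∃ e, c = e + a + 4 := ⟨c - (a + 4), by omega⟩
  have h3 : D * (K * r) ^ (i + 3) ≤ K ^ a * (w * (K ^ (e + a + 4) * r) ^ 2) /
      (K ^ (e + a + 4) * r) ^ (i + 3) * (K * r) ^ (i + 3) :=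
    mul_le_mul_of_nonneg_right h2 (by positivity)
  have h4 : K ^ a * (w * (K ^ (e + a + 4) * r) ^ 2) /
      (K ^ (e + a + 4) * r) ^ (i + 3) * (K * r) ^ (i + 3) =
      K ^ a * (w * (K * r) ^ 2) / (K ^ (e + a + 3)) ^ (i + 1) := by
    have e1 : K ^ (e + a + 4) * r = K ^ (e + a + 3) * (K * r) := by ring
    rw [e1]
    have hx : 0 < K * r := by positivity
    have hy : 0 < K ^ (e + a + 3) := by positivity
    generalize K * r = x at hx ⊢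
    generalize K ^ (e + a + 3) = y at hy ⊢
    rw [mul_pow y x 2, mul_pow y x (i + 3)]
    field_simp
    ring
  rw [h4] at h3
  have h5 : K ^ (a + 3) ≤ (K ^ (e + a + 3)) ^ (i + 1) := by
    rw [← pow_mul]
    refine pow_le_pow_right₀ hK1 ?_
    nlinarith
  have hX : 0 < w * (K * r) ^ 2 := by positivity
  have h6 : K ^ a * (w * (K * r) ^ 2) / (K ^ (e + a + 3)) ^ (i + 1) ≤
      K ^ a * (w * (K * r) ^ 2) / K ^ (a + 3) := by
    gcongr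
  have h7 : w * (K * r) ^ 2 ≤ 2 * K * (K ^ a * (w * (K * r) ^ 2) / K ^ (a + 3)) :=
    h1.trans (mul_le_mul_of_nonneg_left (h3.trans h6) (by positivity))
  have h8 : 2 * K * (K ^ a * (w * (K * r) ^ 2) / K ^ (a + 3)) = 2 / K ^ 2 * (w * (K * r) ^ 2) := by
    rw [pow_add]
    field_simp
  rw [h8] at h7
  have h9 : 2 / K ^ 2 < 1 := by
    rw [div_lt_one (by positivity)]
    nlinarith
  nlinarith

end Pool.Agent.GNP
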