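-- Pool/Agent/GNP/GEOa.lean
import Pool.Agent.GNP.GEO0

/-! One stage of a chain: the terminal stage and the step, given the facts on the roots. -/

namespace Pool.Agent.GNP

open MeasureTheory Set Pool.Agent.MP_6cbfb8_an
open scoped ENNReal Real RealInnerProductSpace ContDiff

/-- The value drops with the exponent. -/
theorem gi_mono {d m C C' : ℕ} {K R ρ : ℝ} {μ : E d → Fin d → ℝ} {y : E d} {s w : ℝ} (hK : 1 ≤ K)
    (hR : 0 < R) (h : GI m C K R ρ μ y s w) (hC : C ≤ C') : GI m C' K R ρ μ y s w := by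
  have hp : K ^ C ≤ K ^ C' := pow_le_pow_right₀ hK hC
  rcases h with ⟨I, h1, h2⟩ | ⟨I, r, h1, h2, h3, h4, h5, h6, h7, h8, h9⟩
  · exact Or.inl ⟨I, h1, h2.trans hp⟩
  · refine Or.inr ⟨I, r, h1, h2, h3, h4, fun i hi => (h5 i hi).trans hp, h6.trans ?_, h7.trans ?_,
      h8.trans ?_, fun h => ?_⟩
    · exact mul_le_mul_of_nonneg_right hp (by positivity)
    · exact mul_le_mul_of_nonneg_right hp (by positivity)
    · exact mul_le_mul_of_nonneg_right hp (by positivity)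
    · rcases h9 h with h10 | ⟨k, h10⟩
      · exact Or.inl (h10.trans (mul_le_mul_of_nonneg_right hp h3.le))
      · exact Or.inr ⟨k, fun h11 => h10 (stab_mono h11 (mul_le_mul_of_nonneg_right hp h3.le))⟩

/-- The terminal stage. -/
theorem gi_term {d m c : ℕ} {K R ρ r b : ℝ} {μ : E d → Fin d → ℝ} {y : E d} {s w H D : ℝ}
    (hK : 1 ≤ K) (hb : 0 < b) (hbK : b⁻¹ ≤ K) (hρr : K * r ≤ ρ) (hr : 0 < r)
    (hlev : 1 ≤ K ^ 6 * (R * r ^ 2)) (hR : 0 < R) (hm : 1 ≤ m) (hw : 0 ≤ w) (hw1 : w ≤ 1)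
    (hH : H * r ^ 2 ≤ K ^ 2) (hD : w * (r ^ m * D) ≤ 1)
    (I : Finset (Fin d)) (hI : I.card = m) (hIH : ∀ i ∈ I, |s - μ y i| ≤ b⁻¹ * H)
    (hID : ∏ i ∈ I, |s - μ y i| ≤ b⁻¹ ^ m * D)
    (hdrop : 2 ≤ m → ρ ≤ K ^ c * r ∨ ∃ k : ℕ, ¬ Stab μ K (2 ^ k) (K ^ c * r) y) :
    GI m (c + m + 6) K R ρ μ y s w := by
  have hK0 : 0 < K := by linarith
  have hb0 : 0 < b⁻¹ := inv_pos.2 hb
  have hone : ∀ n : ℕ, (1 : ℝ) ≤ K ^ n := fun n => one_le_pow₀ hK
  refine Or.inr ⟨I, r, by omega, hI.le, hr, ?_, ?_, ?_, ?_, ?_, ?_⟩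
  · nlinarith
  · intro i hi
    calc |s - μ y i| * r ^ 2 ≤ b⁻¹ * H * r ^ 2 :=
          mul_le_mul_of_nonneg_right (hIH i hi) (by positivity)
      _ = b⁻¹ * (H * r ^ 2) := by ring
      _ ≤ b⁻¹ * K ^ 2 := mul_le_mul_of_nonneg_left hH hb0.le
      _ ≤ K * K ^ 2 := mul_le_mul_of_nonneg_right hbK (by positivity)
      _ = K ^ 3 := by ring
      _ ≤ K ^ (c + m + 6) := pow_le_pow_right₀ hK (by omega)
  · rw [hI, Nat.sub_self, pow_zero, mul_one]
    exact hw1.trans (hone _)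
  · rw [hI, Nat.sub_self, pow_zero, mul_one, Finset.prod_mul_distrib, Finset.prod_const, hI]
    calc w * (r ^ m * ∏ i ∈ I, |s - μ y i|) ≤ w * (r ^ m * (b⁻¹ ^ m * D)) := by gcongr
      _ = b⁻¹ ^ m * (w * (r ^ m * D)) := by ring
      _ ≤ b⁻¹ ^ m * 1 := mul_le_mul_of_nonneg_left hD (by positivity)
      _ ≤ K ^ m * 1 := by gcongr
      _ = K ^ m := mul_one _
      _ ≤ K ^ (c + m + 6) := pow_le_pow_right₀ hK (by omega)
  · refine hlev.trans (mul_le_mul_of_nonneg_right (pow_le_pow_right₀ hK (by omega)) (by positivity))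
  · intro h2
    have hp : K ^ c ≤ K ^ (c + m + 6) := pow_le_pow_right₀ hK (by omega)
    rcases hdrop (by omega) with h10 | ⟨k, h10⟩
    · exact Or.inl (h10.trans (mul_le_mul_of_nonneg_right hp hr.le))
    · exact Or.inr ⟨k, fun h11 => h10 (stab_mono h11 (mul_le_mul_of_nonneg_right hp hr.le))⟩

/-- The step. -/
theorem gi_step {d m C c : ℕ} {K R ρ r0 R' r' : ℝ} {μ : E d → Fin d → ℝ} {y : E d} {s w : ℝ}
    (hK : 2 ≤ K) (hr' : 0 < r') (hr0 : r0 ≤ K * r') (hr'0 : r' ≤ r0) (hρr : K * r0 ≤ ρ)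
    (hR'1 : 1 ≤ R') (hR0 : 0 < R) (hRR : R' ≤ K * R) (hw : 0 ≤ w)
    (hcard : m < (Finset.univ.filter fun i => |s - μ y i| ≤ K * R').card)
    (hdrop : 2 ≤ m + 1 → ρ ≤ K ^ c * r0 ∨ ∃ k : ℕ, ¬ Stab μ K (2 ^ k) (K ^ c * r0) y)
    (ih : GI m C K R' r' μ y s (w * √R')) : GI (m + 1) (2 * C + c + 2) K R ρ μ y s w := by
  classical
  have hK0 : 0 < K := by linarith
  have hK1 : 1 ≤ K := by linarith
  have hR'0 : 0 < R' := by linarith
  have hs0 : 0 < √R' := Real.sqrt_pos.2 hR'0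
  rcases ih with ⟨I, h1, h2⟩ | ⟨I, r, h1, h2, h3, h4, h5, h6, h7, h8, h9⟩
  · left
    obtain ⟨i', hi', hi'I⟩ : ∃ i', |s - μ y i'| ≤ K * R' ∧ i' ∉ I := by
      by_contra hcon
      push Not at hcon
      have h3 : (Finset.univ.filter fun i => |s - μ y i| ≤ K * R') ⊆ I := fun i hi =>
        hcon i (Finset.mem_filter.1 hi).2
      have h4 := Finset.card_le_card h3
      omega
    refine ⟨insert i' I, by rw [Finset.card_insert_of_notMem hi'I, h1], ?_⟩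
    rw [Finset.prod_insert hi'I]
    have h3 : √(1 + |s - μ y i'|) ≤ K * √R' := by
      rw [show K * √R' = √(K ^ 2 * R') by
        rw [Real.sqrt_mul (by positivity), Real.sqrt_sq hK0.le]]
      refine Real.sqrt_le_sqrt ?_
      have h5 : 1 + K ≤ K ^ 2 := by nlinarith
      have h6 : (1 + K) * R' ≤ K ^ 2 * R' := mul_le_mul_of_nonneg_right h5 hR'0.le
      linarith
    have h4 : 0 ≤ ∏ i ∈ I, √(1 + |s - μ y i|) := Finset.prod_nonneg fun i _ => Real.sqrt_nonneg _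
    calc w * (√(1 + |s - μ y i'|) * ∏ i ∈ I, √(1 + |s - μ y i|))
        ≤ w * (K * √R' * ∏ i ∈ I, √(1 + |s - μ y i|)) := by gcongr
      _ = K * (w * √R' * ∏ i ∈ I, √(1 + |s - μ y i|)) := by ring
      _ ≤ K * K ^ C := mul_le_mul_of_nonneg_left h2 hK0.le
      _ = K ^ (C + 1) := by ring
      _ ≤ K ^ (2 * C + c + 2) := pow_le_pow_right₀ hK1 (by omega)
  · right
    have hsr : 1 ≤ K ^ C * √R' * r := by
      have h10 : (1 : ℝ) ≤ (K ^ C * √R' * r) ^ 2 := by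
        have h11 : (K ^ C * √R' * r) ^ 2 = K ^ C * (K ^ C * (R' * r ^ 2)) := by
          rw [mul_pow, mul_pow, Real.sq_sqrt hR'0.le]
          ring
        rw [h11]
        calc (1 : ℝ) ≤ K ^ C * 1 := by rw [mul_one]; exact one_le_pow₀ hK1
          _ ≤ _ := mul_le_mul_of_nonneg_left h8 (by positivity)
      by_contra hcon
      push Not at hcon
      have h12 : (K ^ C * √R' * r) ^ 2 < 1 := by
        have h13 : 0 ≤ K ^ C * √R' * r := by positivity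
        nlinarith
      linarith
    have hkey : ∀ x : ℝ, 0 ≤ x → x * √R' ≤ K ^ C * r ^ (m - I.card) →
        x ≤ K ^ (2 * C + c + 2) * r ^ (m + 1 - I.card) := by
      intro x hx h10
      have h11 : m + 1 - I.card = (m - I.card) + 1 := by omega
      calc x = x * 1 := (mul_one x).symm
        _ ≤ x * (K ^ C * √R' * r) := mul_le_mul_of_nonneg_left hsr hx
        _ = K ^ C * r * (x * √R') := by ring
        _ ≤ K ^ C * r * (K ^ C * r ^ (m - I.card)) :=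
            mul_le_mul_of_nonneg_left h10 (by positivity)
        _ = K ^ (2 * C) * r ^ (m + 1 - I.card) := by rw [h11]; ring
        _ ≤ K ^ (2 * C + c + 2) * r ^ (m + 1 - I.card) :=
            mul_le_mul_of_nonneg_right (pow_le_pow_right₀ hK1 (by omega)) (by positivity)
    have hrρ : r ≤ ρ := by nlinarith
    refine ⟨I, r, h1, by omega, h3, hrρ, fun i hi => (h5 i hi).trans
      (pow_le_pow_right₀ hK1 (by omega)), hkey w hw h6, ?_, ?_, fun h => ?_⟩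
    · refine hkey _ (mul_nonneg hw (Finset.prod_nonneg fun i _ => by positivity)) ?_
      calc w * (∏ i ∈ I, r * |s - μ y i|) * √R' = w * √R' * ∏ i ∈ I, (r * |s - μ y i|) := by ring
        _ ≤ _ := h7
    · calc (1 : ℝ) ≤ K ^ C * (R' * r ^ 2) := h8
        _ ≤ K ^ C * (K * R * r ^ 2) := by gcongr
        _ = K ^ (C + 1) * (R * r ^ 2) := by ring
        _ ≤ K ^ (2 * C + c + 2) * (R * r ^ 2) :=
            mul_le_mul_of_nonneg_right (pow_le_pow_right₀ hK1 (by omega)) (by positivity)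
    · have hCC : K ^ C ≤ K ^ (2 * C + c + 2) := pow_le_pow_right₀ hK1 (by omega)
      rcases h9 h with h10 | ⟨k, h10⟩
      · have h11 : r0 ≤ K ^ (C + 1) * r := by
          calc r0 ≤ K * r' := hr0
            _ ≤ K * (K ^ C * r) := mul_le_mul_of_nonneg_left h10 hK0.le
            _ = _ := by ring
        have h12 : K ^ c * r0 ≤ K ^ (2 * C + c + 2) * r := by
          calc K ^ c * r0 ≤ K ^ c * (K ^ (C + 1) * r) :=
                mul_le_mul_of_nonneg_left h11 (by positivity)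
            _ = K ^ (C + c + 1) * r := by ring
            _ ≤ _ := mul_le_mul_of_nonneg_right (pow_le_pow_right₀ hK1 (by omega)) h3.le
        rcases hdrop (by omega) with h13 | ⟨k, h13⟩
        · exact Or.inl (h13.trans h12)
        · exact Or.inr ⟨k, fun h14 => h13 (stab_mono h14 h12)⟩
      · exact Or.inr ⟨k, fun h11 => h10 (stab_mono h11 (mul_le_mul_of_nonneg_right hCC h3.le))⟩

/-- The last real drop, given the structure lemma `hstr` at the stage. -/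
theorem gi_drop {d m : ℕ} {K R ρ r : ℝ} {Λ : ℕ → ℝ} {J a c : ℕ} {Q : E m → ℝ} {v : E m}
    {μ : E d → Fin d → ℝ} {y : E d} (hK : 2 ≤ K)
    (hΛ : ∀ j, j ≤ J → Λ j ≤ K) (hR : 0 < R) (hρ : 0 < ρ) (hρ1 : ρ ≤ 1) (hc : a + 4 ≤ c)
    (hb : ∀ j, 2 ≤ j → ‖iteratedFDeriv ℝ j Q v‖ ≤ Λ j * (R * ρ ^ 2) / ρ ^ j)
    (hL : Lv K J ρ Q v r)
    (hstr : ∀ k : ℕ, Stab μ K (2 ^ k) (K ^ c * r) y → ‖Hs Q v‖ ≤ 2 ^ k → K ^ a * 2 ^ k ≤ R →
      K ^ a * (K ^ c * r) ≤ ρ → ∀ j, 3 ≤ j → j ≤ J →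
        ‖iteratedFDeriv ℝ j Q v‖ ≤ K ^ a * (2 ^ k * (K ^ c * r) ^ 2) / (K ^ c * r) ^ j) :
    ρ ≤ K ^ (a + c) * r ∨ ∃ k : ℕ, ¬ Stab μ K (2 ^ k) (K ^ (a + c) * r) y := by
  have hK0 : 0 < K := by linarith
  have hK1 : 1 < K := by linarith
  have hr : 0 < r := hL.1
  by_cases hdr : ρ ≤ K ^ (a + c) * r
  · exact Or.inl hdr
  right
  push Not at hdr
  obtain ⟨k, hk1, hk2, j, hj3, hjJ, hk3⟩ := geo_drop hK1 hΛ hR hρ hρ1 (by omega) hb hL hdr
  refine ⟨k, fun hst => ?_⟩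
  have h1 : K ^ a * (2 : ℝ) ^ k ≤ R := by
    have h2 : K ^ a * (2 : ℝ) ^ k * K ^ c ≤ 2 * K ^ 3 * R := by
      rw [pow_add] at hk2
      linarith
    have h3 : 2 * K ^ 3 ≤ K ^ c := by
      calc 2 * K ^ 3 ≤ K * K ^ 3 := mul_le_mul_of_nonneg_right hK (by positivity)
        _ = K ^ 4 := by ring
        _ ≤ K ^ c := pow_le_pow_right₀ hK1.le (by omega)
    have h4 : K ^ a * (2 : ℝ) ^ k * K ^ c ≤ R * K ^ c := by
      refine h2.trans ?_
      rw [mul_comm R]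
      exact mul_le_mul_of_nonneg_right h3 hR.le
    exact le_of_mul_le_mul_right h4 (by positivity)
  have h2 : K ^ a * (K ^ c * r) ≤ ρ := by
    rw [← mul_assoc, ← pow_add]
    exact hdr.le
  have h3 : K ^ c * r ≤ K ^ (a + c) * r :=
    mul_le_mul_of_nonneg_right (pow_le_pow_right₀ hK1.le (by omega)) hr.le
  exact geo_contra hK hr (by positivity) hj3 hc hk3
    (hstr k (stab_mono hst h3) hk1 h1 h2 j hj3 hjJ)

end Pool.Agent.GNP
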