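import Mathlib

/-!
Every smooth phase, all dimensions, row LIN: globalisation. A phase whose derivatives of order `≥ 2`
are controlled on a ball is replaced by its quadratic part plus a small perturbation: the new phase
agrees with the old one on a smaller ball, is controlled everywhere, and its second derivative is
everywhere close to the one at the centre.
-/

namespace Pool.Agent.GNP

open Set Metric
open scoped ContDiff

section Aff

universe u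

variable {V : Type u} [NormedAddCommGroup V] [NormedSpace ℝ V]

theorem fderiv_aff {F : Type*} [NormedAddCommGroup F] [NormedSpace ℝ F] {f : V → F}
    (hf : ContDiff ℝ ∞ f) (r : ℝ) (z y : V) :
    fderiv ℝ (fun y => f (r • (y - z))) y = r • fderiv ℝ f (r • (y - z)) := by
  have h1 : HasFDerivAt f (fderiv ℝ f (r • (y - z))) (r • (y - z)) :=
    (hf.differentiable (by simp) _).hasFDerivAt
  have h2 : HasFDerivAt (fun y : V => r • (y - z)) (r • ContinuousLinearMap.id ℝ V) y :=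
    ((hasFDerivAt_id y).sub_const z).const_smul r
  have h3 : HasFDerivAt (fun y => f (r • (y - z)))
      ((fderiv ℝ f (r • (y - z))).comp (r • ContinuousLinearMap.id ℝ V)) y := h1.comp y h2
  rw [h3.fderiv]
  ext v
  simp

theorem contDiff_aff {F : Type*} [NormedAddCommGroup F] [NormedSpace ℝ F] {f : V → F}
    (hf : ContDiff ℝ ∞ f) (r : ℝ) (z : V) : ContDiff ℝ ∞ (fun y => f (r • (y - z))) :=
  hf.comp ((contDiff_id.sub contDiff_const).const_smul r)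

theorem norm_iteratedFDeriv_aff (j : ℕ) : ∀ {F : Type u} [NormedAddCommGroup F] [NormedSpace ℝ F]
    {f : V → F}, ContDiff ℝ ∞ f → ∀ (r : ℝ) (z y : V),
    ‖iteratedFDeriv ℝ j (fun y => f (r • (y - z))) y‖ =
      |r| ^ j * ‖iteratedFDeriv ℝ j f (r • (y - z))‖ := by
  induction j with
  | zero =>
    intro F _ _ f hf r z y
    simp
  | succ j ih =>
    intro F _ _ f hf r z y
    have h1 : fderiv ℝ (fun y => f (r • (y - z))) =
        r • fun y => (fderiv ℝ f) (r • (y - z)) := by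
      funext y
      exact fderiv_aff hf r z y
    have h2 : ContDiff ℝ ∞ (fderiv ℝ f) := hf.fderiv_right (by exact le_rfl)
    have h3 : ContDiff ℝ j (fun y => (fderiv ℝ f) (r • (y - z))) :=
      (contDiff_aff h2 r z).of_le (by exact_mod_cast le_top)
    rw [← norm_iteratedFDeriv_fderiv, h1, iteratedFDeriv_const_smul_apply h3.contDiffAt, norm_smul,
      ih h2, norm_iteratedFDeriv_fderiv, Real.norm_eq_abs, pow_succ]
    ring

/-- The case of a real function. -/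
theorem norm_iteratedFDeriv_aff_real (j : ℕ) {f : V → ℝ} (hf : ContDiff ℝ ∞ f) (r : ℝ) (z y : V) :
    ‖iteratedFDeriv ℝ j (fun y => f (r • (y - z))) y‖ =
      |r| ^ j * ‖iteratedFDeriv ℝ j f (r • (y - z))‖ := by
  rcases j with _ | j
  · simp
  · have h1 : fderiv ℝ (fun y => f (r • (y - z))) =
        r • fun y => (fderiv ℝ f) (r • (y - z)) := by
      funext y
      exact fderiv_aff hf r z y
    have h2 : ContDiff ℝ ∞ (fderiv ℝ f) := hf.fderiv_right (by exact le_rfl)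
    have h3 : ContDiff ℝ j (fun y => (fderiv ℝ f) (r • (y - z))) :=
      (contDiff_aff h2 r z).of_le (by exact_mod_cast le_top)
    rw [← norm_iteratedFDeriv_fderiv, h1, iteratedFDeriv_const_smul_apply h3.contDiffAt, norm_smul,
      norm_iteratedFDeriv_aff j h2, norm_iteratedFDeriv_fderiv, Real.norm_eq_abs, pow_succ]
    ring

theorem fderiv2_aff {f : V → ℝ} (hf : ContDiff ℝ ∞ f) (r : ℝ) (z y : V) :
    fderiv ℝ (fderiv ℝ (fun y => f (r • (y - z)))) y =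
      (r ^ 2) • fderiv ℝ (fderiv ℝ f) (r • (y - z)) := by
  have h1 : fderiv ℝ (fun y => f (r • (y - z))) =
      r • fun y => (fderiv ℝ f) (r • (y - z)) := by
    funext y
    exact fderiv_aff hf r z y
  have h2 : ContDiff ℝ ∞ (fderiv ℝ f) := hf.fderiv_right (by exact le_rfl)
  rw [h1, fderiv_const_smul ((contDiff_aff h2 r z).differentiable (by simp) y),
    fderiv_aff h2 r z y, smul_smul, pow_two]

end Aff

theorem two_le_infty : (2 : WithTop ℕ∞) ≤ ∞ := by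
  exact WithTop.coe_le_coe.2 le_top

section Unit

variable {V : Type*} [NormedAddCommGroup V] [NormedSpace ℝ V]

/-- A smooth function minus its Taylor polynomial of degree two at the origin. -/
noncomputable def rest2 (ψ : V → ℝ) (u : V) : ℝ :=
  ψ u - (ψ 0 + fderiv ℝ ψ 0 u + 1 / 2 * fderiv ℝ (fderiv ℝ ψ) 0 u u)

/-- The Taylor polynomial of degree two at the origin. -/
noncomputable def tay2 (ψ : V → ℝ) (u : V) : ℝ :=
  ψ 0 + fderiv ℝ ψ 0 u + 1 / 2 * fderiv ℝ (fderiv ℝ ψ) 0 u u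

theorem contDiff_tay2 (ψ : V → ℝ) : ContDiff ℝ ∞ (tay2 ψ) := by
  have h1 : ContDiff ℝ ∞ (fun u : V => fderiv ℝ (fderiv ℝ ψ) 0 u u) :=
    ((fderiv ℝ (fderiv ℝ ψ) 0).contDiff).clm_apply contDiff_id
  exact (contDiff_const.add (fderiv ℝ ψ 0).contDiff).add (contDiff_const.mul h1)

theorem contDiff_rest2 {ψ : V → ℝ} (hψ : ContDiff ℝ ∞ ψ) : ContDiff ℝ ∞ (rest2 ψ) :=
  hψ.sub (contDiff_tay2 ψ)

theorem lin_symm2 {ψ : V → ℝ} (hψ : ContDiff ℝ ∞ ψ) (x u v : V) :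
    fderiv ℝ (fderiv ℝ ψ) x u v = fderiv ℝ (fderiv ℝ ψ) x v u :=
  (hψ.contDiffAt.isSymmSndFDerivAt (by simpa using two_le_infty)) u v

theorem hasFDerivAt_tay2 {ψ : V → ℝ} (hψ : ContDiff ℝ ∞ ψ) (u : V) :
    HasFDerivAt (tay2 ψ) (fderiv ℝ ψ 0 + fderiv ℝ (fderiv ℝ ψ) 0 u) u := by
  set H := fderiv ℝ (fderiv ℝ ψ) 0 with hH
  have h1 : HasFDerivAt (fun u : V => H u u)
      ((H u).comp (ContinuousLinearMap.id ℝ V) + (H).flip u) u := by
    have h2 : HasFDerivAt (fun u : V => H u) H u := H.hasFDerivAt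
    have h3 := h2.clm_apply (hasFDerivAt_id u)
    exact h3
  have h4 : HasFDerivAt (tay2 ψ) (0 + fderiv ℝ ψ 0 +
      (1 / 2 : ℝ) • ((H u).comp (ContinuousLinearMap.id ℝ V) + H.flip u)) u :=
    ((hasFDerivAt_const (ψ 0) u).add (fderiv ℝ ψ 0).hasFDerivAt).add (h1.const_mul (1 / 2 : ℝ))
  refine h4.congr_fderiv ?_
  ext v
  have h5 : H v u = H u v := lin_symm2 hψ 0 v u
  simp only [add_apply, smul_apply,
    ContinuousLinearMap.comp_apply, ContinuousLinearMap.id_apply, ContinuousLinearMap.flip_apply,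
    zero_apply, smul_eq_mul, h5]
  ring

theorem fderiv_tay2 {ψ : V → ℝ} (hψ : ContDiff ℝ ∞ ψ) :
    fderiv ℝ (tay2 ψ) = fun u => fderiv ℝ ψ 0 + fderiv ℝ (fderiv ℝ ψ) 0 u := by
  funext u
  exact (hasFDerivAt_tay2 hψ u).fderiv

theorem fderiv2_tay2 {ψ : V → ℝ} (hψ : ContDiff ℝ ∞ ψ) :
    fderiv ℝ (fderiv ℝ (tay2 ψ)) = fun _ => fderiv ℝ (fderiv ℝ ψ) 0 := by
  funext u
  rw [fderiv_tay2 hψ, fderiv_const_add]
  exact (fderiv ℝ (fderiv ℝ ψ) 0).fderiv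

theorem fderiv_rest2 {ψ : V → ℝ} (hψ : ContDiff ℝ ∞ ψ) :
    fderiv ℝ (rest2 ψ) = fun u => fderiv ℝ ψ u - fderiv ℝ (tay2 ψ) u := by
  funext u
  exact fderiv_sub (hψ.differentiable (by simp) u) ((contDiff_tay2 ψ).differentiable (by simp) u)

theorem fderiv2_rest2 {ψ : V → ℝ} (hψ : ContDiff ℝ ∞ ψ) :
    fderiv ℝ (fderiv ℝ (rest2 ψ)) = fun u =>
      fderiv ℝ (fderiv ℝ ψ) u - fderiv ℝ (fderiv ℝ ψ) 0 := by
  funext u
  have h1 : ContDiff ℝ ∞ (fderiv ℝ ψ) := hψ.fderiv_right (by exact le_rfl)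
  have h2 : ContDiff ℝ ∞ (fderiv ℝ (tay2 ψ)) := (contDiff_tay2 ψ).fderiv_right (by exact le_rfl)
  rw [fderiv_rest2 hψ]
  have h3 : fderiv ℝ (fun u => fderiv ℝ ψ u - fderiv ℝ (tay2 ψ) u) u =
      fderiv ℝ (fderiv ℝ ψ) u - fderiv ℝ (fderiv ℝ (tay2 ψ)) u :=
    fderiv_sub (h1.differentiable (by simp) u) (h2.differentiable (by simp) u)
  rw [h3, fderiv2_tay2 hψ]

theorem norm_fderiv2 {f : V → ℝ} (u : V) : ‖fderiv ℝ (fderiv ℝ f) u‖ = ‖iteratedFDeriv ℝ 2 f u‖ := by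
  rw [← norm_iteratedFDeriv_fderiv, ← norm_iteratedFDeriv_fderiv, norm_iteratedFDeriv_zero]

/-- The second derivative of the rest. -/
theorem rest2_two {ψ : V → ℝ} (hψ : ContDiff ℝ ∞ ψ) {A : ℝ}
    (h3 : ∀ u, ‖u‖ < 1 → ‖iteratedFDeriv ℝ 3 ψ u‖ ≤ A) {u : V} (hu : ‖u‖ < 1) :
    ‖fderiv ℝ (fderiv ℝ (rest2 ψ)) u‖ ≤ A * ‖u‖ := by
  have h1 : ContDiff ℝ ∞ (fderiv ℝ ψ) := hψ.fderiv_right (by exact le_rfl)
  have h2 : ContDiff ℝ ∞ (fderiv ℝ (fderiv ℝ ψ)) := h1.fderiv_right (by exact le_rfl)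
  rw [fderiv2_rest2 hψ]
  have h4 := (convex_ball (0 : V) 1).norm_image_sub_le_of_norm_fderiv_le (𝕜 := ℝ)
    (f := fderiv ℝ (fderiv ℝ ψ)) (C := A) (x := 0) (y := u)
    (fun x _ => h2.differentiable (by simp) x)
    (fun x hx => by
      rw [← norm_iteratedFDeriv_one, norm_iteratedFDeriv_fderiv, norm_iteratedFDeriv_fderiv]
      exact h3 x (by simpa using hx)) (by simp) (by simpa using hu)
  simpa using h4

theorem rest2_one {ψ : V → ℝ} (hψ : ContDiff ℝ ∞ ψ) {A : ℝ} (hA : 0 ≤ A)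
    (h3 : ∀ u, ‖u‖ < 1 → ‖iteratedFDeriv ℝ 3 ψ u‖ ≤ A) {u : V} (hu : ‖u‖ < 1) :
    ‖fderiv ℝ (rest2 ψ) u‖ ≤ A * ‖u‖ ^ 2 := by
  have h1 : ContDiff ℝ ∞ (fderiv ℝ (rest2 ψ)) := (contDiff_rest2 hψ).fderiv_right (by exact le_rfl)
  have h4 := (convex_closedBall (0 : V) ‖u‖).norm_image_sub_le_of_norm_fderiv_le (𝕜 := ℝ)
    (f := fderiv ℝ (rest2 ψ)) (C := A * ‖u‖) (x := 0) (y := u)
    (fun x _ => h1.differentiable (by simp) x)
    (fun x hx => by
      have hx' : ‖x‖ ≤ ‖u‖ := by simpa using hx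
      exact (rest2_two hψ h3 (lt_of_le_of_lt hx' hu)).trans
        (mul_le_mul_of_nonneg_left hx' hA)) (by simp) (by simp)
  have h5 : fderiv ℝ (rest2 ψ) 0 = 0 := by
    rw [fderiv_rest2 hψ]
    simp only [fderiv_tay2 hψ]
    simp
  rw [h5, sub_zero, sub_zero] at h4
  calc ‖fderiv ℝ (rest2 ψ) u‖ ≤ A * ‖u‖ * ‖u‖ := h4
    _ = A * ‖u‖ ^ 2 := by ring

theorem rest2_zero {ψ : V → ℝ} (hψ : ContDiff ℝ ∞ ψ) {A : ℝ} (hA : 0 ≤ A)
    (h3 : ∀ u, ‖u‖ < 1 → ‖iteratedFDeriv ℝ 3 ψ u‖ ≤ A) {u : V} (hu : ‖u‖ < 1) :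
    ‖rest2 ψ u‖ ≤ A * ‖u‖ ^ 3 := by
  have h4 := (convex_closedBall (0 : V) ‖u‖).norm_image_sub_le_of_norm_fderiv_le (𝕜 := ℝ)
    (f := rest2 ψ) (C := A * ‖u‖ ^ 2) (x := 0) (y := u)
    (fun x _ => (contDiff_rest2 hψ).differentiable (by simp) x)
    (fun x hx => by
      have hx' : ‖x‖ ≤ ‖u‖ := by simpa using hx
      refine (rest2_one hψ hA h3 (lt_of_le_of_lt hx' hu)).trans ?_
      gcongr) (by simp) (by simp)
  have h5 : rest2 ψ 0 = 0 := by simp [rest2]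
  rw [h5, sub_zero, sub_zero] at h4
  calc ‖rest2 ψ u‖ ≤ A * ‖u‖ ^ 2 * ‖u‖ := h4
    _ = A * ‖u‖ ^ 3 := by ring

theorem norm_smul_sub_smul {F : Type*} [NormedAddCommGroup F] [NormedSpace ℝ F] {R : ℝ}
    (hR : 0 < R) (a b : F) : ‖R • a - R • b‖ = R * ‖a - b‖ := by
  rw [← smul_sub, norm_smul, Real.norm_eq_abs, abs_of_pos hR]

theorem norm_iteratedFDeriv_const_le {F : Type*} [NormedAddCommGroup F] [NormedSpace ℝ F] (i : ℕ)
    (H : F) (u : V) : ‖iteratedFDeriv ℝ i (fun _ : V => H) u‖ ≤ ‖H‖ := by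
  rcases Nat.eq_zero_or_pos i with rfl | hi
  · rw [norm_iteratedFDeriv_zero]
  · rw [iteratedFDeriv_const_of_ne (by omega)]
    simp

/-- Derivatives of order at least two of a function whose second derivative differs by a
constant. -/
theorem norm_iteratedFDeriv_of_fderiv2 {f g : V → ℝ} (hg : ContDiff ℝ ∞ g)
    {H : V →L[ℝ] V →L[ℝ] ℝ}
    (h : fderiv ℝ (fderiv ℝ f) = fun u => fderiv ℝ (fderiv ℝ g) u + H) {j : ℕ} (hj : 2 ≤ j)
    (u : V) : ‖iteratedFDeriv ℝ j f u‖ ≤ ‖iteratedFDeriv ℝ j g u‖ + ‖H‖ := by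
  obtain ⟨i, rfl⟩ : ∃ i, j = i + 1 + 1 := ⟨j - 2, by omega⟩
  rw [← norm_iteratedFDeriv_fderiv, ← norm_iteratedFDeriv_fderiv, h]
  have h1 : ContDiff ℝ ∞ (fderiv ℝ g) := hg.fderiv_right (by exact le_rfl)
  have h2 : ContDiff ℝ ∞ (fderiv ℝ (fderiv ℝ g)) := h1.fderiv_right (by exact le_rfl)
  have h3 : ContDiff ℝ i (fderiv ℝ (fderiv ℝ g)) := h2.of_le (by exact_mod_cast le_top)
  have h4 : (fun u => fderiv ℝ (fderiv ℝ g) u + H) = fderiv ℝ (fderiv ℝ g) + fun _ => H := rfl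
  rw [h4, iteratedFDeriv_add_apply h3.contDiffAt contDiffAt_const]
  refine (norm_add_le _ _).trans (add_le_add ?_ ?_)
  · rw [norm_iteratedFDeriv_fderiv, norm_iteratedFDeriv_fderiv]
  · exact norm_iteratedFDeriv_const_le i H u

end Unit

section Cut

variable (V : Type*) [NormedAddCommGroup V] [NormedSpace ℝ V] [FiniteDimensional ℝ V]

/-- The cut-off: one on the ball of radius `1/2`, zero off the unit ball. -/
noncomputable def cut0 : ContDiffBump (0 : V) := ⟨1 / 2, 1, by norm_num, by norm_num⟩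

theorem exists_cut_bound : ∃ B : ℕ → ℝ, ∀ j (u : V), ‖iteratedFDeriv ℝ j (cut0 V) u‖ ≤ B j := by
  have h : ∀ j : ℕ, ∃ C, ∀ u : V, ‖iteratedFDeriv ℝ j (cut0 V) u‖ ≤ C := fun j => by
    have h1 : ContDiff ℝ j (cut0 V) := (cut0 V).contDiff
    exact (h1.continuous_iteratedFDeriv le_rfl).bounded_above_of_compact_support
      ((cut0 V).hasCompactSupport.iteratedFDeriv j)
  choose B hB using h
  exact ⟨B, hB⟩

/-- The unit scale. -/
theorem lin_unit (A : ℕ → ℝ) {c : ℝ} (hc : 0 < c) : ∃ κ ∈ Ioo (0 : ℝ) 1, ∃ A' : ℕ → ℝ,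
    ∀ ψ : V → ℝ, ContDiff ℝ ∞ ψ →
      (∀ j, 2 ≤ j → ∀ u, ‖u‖ < 1 → ‖iteratedFDeriv ℝ j ψ u‖ ≤ A j) →
      ∃ ψ' : V → ℝ, ContDiff ℝ ∞ ψ' ∧ (∀ u, ‖u‖ < κ → ψ' u = ψ u) ∧
        (∀ j, 2 ≤ j → ∀ u, ‖iteratedFDeriv ℝ j ψ' u‖ ≤ A' j) ∧
        ∀ u, ‖fderiv ℝ (fderiv ℝ ψ') u - fderiv ℝ (fderiv ℝ ψ) 0‖ ≤ c := by
  obtain ⟨B, hB⟩ := exists_cut_bound V
  have hB0 : ∀ j, 0 ≤ B j := fun j => (norm_nonneg _).trans (hB j 0)
  set M : ℝ := |A 3| * (B 0 + 2 * B 1 + B 2) with hM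
  have hM0 : 0 ≤ M := by
    have := hB0 0; have := hB0 1; have := hB0 2
    positivity
  set k : ℝ := min (1 / 2) (c / (M + 1)) with hk
  have hk0 : 0 < k := lt_min (by norm_num) (by positivity)
  have hk1 : k ≤ 1 / 2 := min_le_left _ _
  have hkc : k * M ≤ c := by
    have h1 : k ≤ c / (M + 1) := min_le_right _ _
    have h2 : k * (M + 1) ≤ c := by
      rwa [le_div_iff₀ (by positivity)] at h1
    nlinarith
  set G : ℕ → ℝ := fun l => |A 3| + |A l| + |A 2| with hG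
  refine ⟨k / 2, ⟨by positivity, by linarith⟩, fun j => |A 2| +
    ∑ i ∈ Finset.range (j + 1), (j.choose i : ℝ) * (k⁻¹ ^ i * B i) * G (j - i), ?_⟩
  intro ψ hψ hA
  have hA2 : ‖fderiv ℝ (fderiv ℝ ψ) 0‖ ≤ |A 2| := by
    rw [norm_fderiv2]
    exact (hA 2 le_rfl 0 (by simp)).trans (le_abs_self _)
  have hA3 : ∀ u : V, ‖u‖ < 1 → ‖iteratedFDeriv ℝ 3 ψ u‖ ≤ |A 3| := fun u hu =>
    (hA 3 (by norm_num) u hu).trans (le_abs_self _)
  set g : V → ℝ := rest2 ψ with hg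
  have hgs : ContDiff ℝ ∞ g := contDiff_rest2 hψ
  set χ : V → ℝ := fun u => cut0 V (k⁻¹ • (u - 0)) with hχ
  have hχs : ContDiff ℝ ∞ χ := contDiff_aff (cut0 V).contDiff k⁻¹ 0
  have hχb : ∀ j u, ‖iteratedFDeriv ℝ j χ u‖ ≤ k⁻¹ ^ j * B j := fun j u => by
    rw [hχ, norm_iteratedFDeriv_aff_real j (cut0 V).contDiff, abs_of_pos (by positivity)]
    exact mul_le_mul_of_nonneg_left (hB j _) (by positivity)
  -- the derivatives of the rest on the small ball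
  have hg0 : ∀ u : V, ‖u‖ ≤ k → ‖iteratedFDeriv ℝ 0 g u‖ ≤ |A 3| * k ^ 3 := fun u hu => by
    rw [norm_iteratedFDeriv_zero]
    refine (rest2_zero hψ (abs_nonneg _) hA3 (by linarith)).trans ?_
    gcongr
  have hg1 : ∀ u : V, ‖u‖ ≤ k → ‖iteratedFDeriv ℝ 1 g u‖ ≤ |A 3| * k ^ 2 := fun u hu => by
    rw [norm_iteratedFDeriv_one]
    refine (rest2_one hψ (abs_nonneg _) hA3 (by linarith)).trans ?_
    gcongr
  have hg2 : ∀ u : V, ‖u‖ ≤ k → ‖iteratedFDeriv ℝ 2 g u‖ ≤ |A 3| * k := fun u hu => by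
    rw [← norm_fderiv2]
    refine (rest2_two hψ hA3 (by linarith)).trans ?_
    gcongr
  have hgl : ∀ l : ℕ, ∀ u : V, ‖u‖ ≤ k → ‖iteratedFDeriv ℝ l g u‖ ≤ G l := fun l u hu => by
    have hk3 : k ^ 3 ≤ 1 := pow_le_one₀ hk0.le (by linarith)
    have hk2 : k ^ 2 ≤ 1 := pow_le_one₀ hk0.le (by linarith)
    have ha := abs_nonneg (A 3)
    have hb := abs_nonneg (A l)
    have hb2 := abs_nonneg (A 2)
    rcases lt_or_ge l 2 with hl | hl
    · interval_cases l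
      · refine (hg0 u hu).trans ?_
        have : |A 3| * k ^ 3 ≤ |A 3| * 1 := mul_le_mul_of_nonneg_left hk3 ha
        simp only [hG]
        linarith
      · refine (hg1 u hu).trans ?_
        have : |A 3| * k ^ 2 ≤ |A 3| * 1 := mul_le_mul_of_nonneg_left hk2 ha
        simp only [hG]
        linarith
    · have h1 : fderiv ℝ (fderiv ℝ g) = fun u => fderiv ℝ (fderiv ℝ ψ) u +
          (-fderiv ℝ (fderiv ℝ ψ) 0) := by
        rw [hg, fderiv2_rest2 hψ]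
        funext u
        rw [sub_eq_add_neg]
      have h2 := norm_iteratedFDeriv_of_fderiv2 hψ h1 hl u
      have hneg : ∀ H : V →L[ℝ] V →L[ℝ] ℝ, ‖-H‖ = ‖H‖ := fun H => norm_neg H
      have h2' : ‖-fderiv ℝ (fderiv ℝ ψ) 0‖ ≤ |A 2| := (hneg _).le.trans hA2
      have h3 := (hA l hl u (by linarith)).trans (le_abs_self _)
      simp only [hG]
      linarith
  set P : V → ℝ := fun u => χ u * g u with hP
  have hPs : ContDiff ℝ ∞ P := hχs.mul hgs
  have hP0 : ∀ u : V, k < ‖u‖ → ∀ j, iteratedFDeriv ℝ j P u = 0 := fun u hu j => by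
    have h1 : P =ᶠ[nhds u] fun _ => 0 := by
      have h2 : {w : V | k < ‖w‖} ∈ nhds u := (isOpen_lt continuous_const continuous_norm).mem_nhds hu
      filter_upwards [h2] with w hw
      have h3 : cut0 V (k⁻¹ • (w - 0)) = 0 := by
        refine (cut0 V).zero_of_le_dist ?_
        rw [dist_zero_right, norm_smul, sub_zero, norm_inv, Real.norm_eq_abs, abs_of_pos hk0]
        show (1 : ℝ) ≤ k⁻¹ * ‖w‖
        rw [inv_mul_eq_div, le_div_iff₀ hk0]
        have hw' : k < ‖w‖ := hw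
        linarith
      simp only [hP, hχ, h3, zero_mul]
    rw [(h1.iteratedFDeriv ℝ j).eq_of_nhds]
    rcases Nat.eq_zero_or_pos j with rfl | hj
    · ext v; simp
    · rw [iteratedFDeriv_const_of_ne (by omega)]
      rfl
  have hPb : ∀ j u, ‖iteratedFDeriv ℝ j P u‖ ≤
      ∑ i ∈ Finset.range (j + 1), (j.choose i : ℝ) * (k⁻¹ ^ i * B i) * G (j - i) := fun j u => by
    have hG0 : ∀ l, 0 ≤ G l := fun l => by positivity
    rcases lt_or_ge k ‖u‖ with hu | hu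
    · rw [hP0 u hu j, norm_zero]
      exact Finset.sum_nonneg fun i _ => mul_nonneg (mul_nonneg (by positivity)
        (mul_nonneg (by positivity) (hB0 i))) (hG0 _)
    · refine (norm_iteratedFDeriv_mul_le (n := j) hχs hgs u (by exact_mod_cast le_top)).trans ?_
      refine Finset.sum_le_sum fun i _ => ?_
      exact mul_le_mul (mul_le_mul_of_nonneg_left (hχb i u) (by positivity)) (hgl (j - i) u hu)
        (norm_nonneg _) (mul_nonneg (by positivity) (mul_nonneg (by positivity) (hB0 i)))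
  have hP2 : ∀ u, ‖iteratedFDeriv ℝ 2 P u‖ ≤ c := fun u => by
    rcases lt_or_ge k ‖u‖ with hu | hu
    · rw [hP0 u hu 2, norm_zero]
      exact hc.le
    · refine (norm_iteratedFDeriv_mul_le (n := 2) hχs hgs u two_le_infty).trans ?_
      have h0 := hχb 0 u
      have h1 := hχb 1 u
      have h2 := hχb 2 u
      have e0 := hg0 u hu
      have e1 := hg1 u hu
      have e2 := hg2 u hu
      have f0 : ‖iteratedFDeriv ℝ 0 χ u‖ * ‖iteratedFDeriv ℝ 2 g u‖ ≤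
          (k⁻¹ ^ 0 * B 0) * (|A 3| * k) :=
        mul_le_mul h0 e2 (norm_nonneg _) (mul_nonneg (by positivity) (hB0 0))
      have f1 : ‖iteratedFDeriv ℝ 1 χ u‖ * ‖iteratedFDeriv ℝ 1 g u‖ ≤
          (k⁻¹ ^ 1 * B 1) * (|A 3| * k ^ 2) :=
        mul_le_mul h1 e1 (norm_nonneg _) (mul_nonneg (by positivity) (hB0 1))
      have f2 : ‖iteratedFDeriv ℝ 2 χ u‖ * ‖iteratedFDeriv ℝ 0 g u‖ ≤
          (k⁻¹ ^ 2 * B 2) * (|A 3| * k ^ 3) :=
        mul_le_mul h2 e0 (norm_nonneg _) (mul_nonneg (by positivity) (hB0 2))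
      have g0 : (k⁻¹ ^ 0 * B 0) * (|A 3| * k) = k * (|A 3| * B 0) := by ring
      have g1 : (k⁻¹ ^ 1 * B 1) * (|A 3| * k ^ 2) = k * (|A 3| * B 1) := by
        field_simp
      have g2 : (k⁻¹ ^ 2 * B 2) * (|A 3| * k ^ 3) = k * (|A 3| * B 2) := by
        field_simp
      rw [g0] at f0
      rw [g1] at f1
      rw [g2] at f2
      have hs : ∑ i ∈ Finset.range (2 + 1), ((2 : ℕ).choose i : ℝ) * ‖iteratedFDeriv ℝ i χ u‖ *
          ‖iteratedFDeriv ℝ (2 - i) g u‖ = ‖iteratedFDeriv ℝ 0 χ u‖ * ‖iteratedFDeriv ℝ 2 g u‖ +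
          2 * (‖iteratedFDeriv ℝ 1 χ u‖ * ‖iteratedFDeriv ℝ 1 g u‖) +
          ‖iteratedFDeriv ℝ 2 χ u‖ * ‖iteratedFDeriv ℝ 0 g u‖ := by
        rw [Finset.sum_range_succ, Finset.sum_range_succ, Finset.sum_range_succ,
          Finset.sum_range_zero]
        have e3 : ((2 : ℕ).choose 0 : ℝ) = 1 := by norm_num
        have e4 : ((2 : ℕ).choose 1 : ℝ) = 2 := by norm_num
        have e5 : ((2 : ℕ).choose 2 : ℝ) = 1 := by norm_num
        rw [e3, e4, e5]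
        ring
      rw [hs]
      have hkM : k * M = k * (|A 3| * B 0) + 2 * (k * (|A 3| * B 1)) + k * (|A 3| * B 2) := by
        rw [hM]
        ring
      linarith
  have hD2 : fderiv ℝ (fderiv ℝ (fun u => tay2 ψ u + P u)) = fun u =>
      fderiv ℝ (fderiv ℝ P) u + fderiv ℝ (fderiv ℝ ψ) 0 := by
    have hT := contDiff_tay2 ψ
    have h1 : fderiv ℝ (fun u => tay2 ψ u + P u) = fun u =>
        fderiv ℝ (tay2 ψ) u + fderiv ℝ P u := by
      funext u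
      exact fderiv_add (hT.differentiable (by simp) u) (hPs.differentiable (by simp) u)
    have h2 : ContDiff ℝ ∞ (fderiv ℝ (tay2 ψ)) := hT.fderiv_right (by exact le_rfl)
    have h3 : ContDiff ℝ ∞ (fderiv ℝ P) := hPs.fderiv_right (by exact le_rfl)
    funext u
    rw [h1]
    have h4 : fderiv ℝ (fun u => fderiv ℝ (tay2 ψ) u + fderiv ℝ P u) u =
        fderiv ℝ (fderiv ℝ (tay2 ψ)) u + fderiv ℝ (fderiv ℝ P) u :=
      fderiv_add (h2.differentiable (by simp) u) (h3.differentiable (by simp) u)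
    rw [h4, fderiv2_tay2 hψ, add_comm]
  refine ⟨fun u => tay2 ψ u + P u, (contDiff_tay2 ψ).add hPs, fun u hu => ?_, fun j hj u => ?_,
    fun u => ?_⟩
  · have h1 : cut0 V (k⁻¹ • (u - 0)) = 1 := by
      refine (cut0 V).one_of_mem_closedBall ?_
      rw [mem_closedBall, dist_zero_right, norm_smul, sub_zero, norm_inv, Real.norm_eq_abs,
        abs_of_pos hk0]
      show k⁻¹ * ‖u‖ ≤ 1 / 2
      rw [inv_mul_eq_div, div_le_iff₀ hk0]
      linarith
    simp only [hP, hχ, h1, one_mul, hg, rest2, tay2]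
    ring
  · refine (norm_iteratedFDeriv_of_fderiv2 hPs hD2 hj u).trans ?_
    have := hPb j u
    linarith
  · rw [hD2]
    simp only [add_sub_cancel_right]
    rw [norm_fderiv2]
    exact hP2 u

/-- **Globalisation.** -/
theorem lin (A : ℕ → ℝ) {c : ℝ} (hc : 0 < c) : ∃ κ ∈ Ioo (0 : ℝ) 1, ∃ A' : ℕ → ℝ,
    ∀ (R ρ : ℝ), 0 < R → 0 < ρ → ∀ (z : V) (q : V → ℝ), ContDiff ℝ ∞ q →
      (∀ j, 2 ≤ j → ∀ y, dist y z < ρ → ‖iteratedFDeriv ℝ j q y‖ ≤ A j * (R * ρ ^ 2 / ρ ^ j)) →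
      ∃ q' : V → ℝ, ContDiff ℝ ∞ q' ∧ (∀ y, dist y z < κ * ρ → q' y = q y) ∧
        (∀ j, 2 ≤ j → ∀ y, ‖iteratedFDeriv ℝ j q' y‖ ≤ A' j * (R * ρ ^ 2 / ρ ^ j)) ∧
        ∀ y, ‖fderiv ℝ (fderiv ℝ q') y - fderiv ℝ (fderiv ℝ q) z‖ ≤ c * R := by
  obtain ⟨κ, hκ, A', H⟩ := lin_unit V A hc
  refine ⟨κ, hκ, A', fun R ρ hR hρ z q hq hA => ?_⟩
  have hS : 0 < R * ρ ^ 2 := by positivity
  -- the normalised phase
  set f : V → ℝ := fun y => q (ρ • (y - (-(ρ⁻¹ • z)))) with hf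
  have hfs : ContDiff ℝ ∞ f := contDiff_aff hq ρ _
  have hfz : ∀ u : V, ρ • (u - (-(ρ⁻¹ • z))) = ρ • u + z := fun u => by
    rw [sub_neg_eq_add, smul_add, smul_smul, mul_inv_cancel₀ hρ.ne', one_smul]
  set ψ : V → ℝ := fun u => (R * ρ ^ 2)⁻¹ * f u with hψ
  have hψs : ContDiff ℝ ∞ ψ := contDiff_const.mul hfs
  have hψb : ∀ j, 2 ≤ j → ∀ u, ‖u‖ < 1 → ‖iteratedFDeriv ℝ j ψ u‖ ≤ A j := fun j hj u hu => by
    have h1 : ψ = (R * ρ ^ 2)⁻¹ • f := rfl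
    have h2 : ContDiff ℝ j f := hfs.of_le (by exact_mod_cast le_top)
    rw [h1, iteratedFDeriv_const_smul_apply h2.contDiffAt, norm_smul, hf,
      norm_iteratedFDeriv_aff_real j hq, hfz, abs_of_pos hρ, norm_inv, Real.norm_eq_abs,
      abs_of_pos hS]
    have h3 : dist (ρ • u + z) z < ρ := by
      rw [dist_eq_norm, add_sub_cancel_right, norm_smul, Real.norm_eq_abs, abs_of_pos hρ]
      nlinarith
    have h4 := hA j hj _ h3
    calc (R * ρ ^ 2)⁻¹ * (ρ ^ j * ‖iteratedFDeriv ℝ j q (ρ • u + z)‖)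
        ≤ (R * ρ ^ 2)⁻¹ * (ρ ^ j * (A j * (R * ρ ^ 2 / ρ ^ j))) := by gcongr
      _ = A j := by field_simp
  obtain ⟨ψ', h1, h2, h3, h4⟩ := H ψ hψs hψb
  set p : V → ℝ := fun y => ψ' (ρ⁻¹ • (y - z)) with hp
  have hps : ContDiff ℝ ∞ p := contDiff_aff h1 ρ⁻¹ z
  refine ⟨fun y => (R * ρ ^ 2) * p y, contDiff_const.mul hps, fun y hy => ?_, fun j hj y => ?_,
    fun y => ?_⟩
  · have h5 : ‖ρ⁻¹ • (y - z)‖ < κ := by
      rw [norm_smul, norm_inv, Real.norm_eq_abs, abs_of_pos hρ, ← dist_eq_norm,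
        inv_mul_eq_div, div_lt_iff₀ hρ]
      exact hy
    simp only [hp]
    rw [h2 _ h5]
    simp only [hψ, hf, hfz]
    rw [smul_smul, mul_inv_cancel₀ hρ.ne', one_smul, sub_add_cancel]
    field_simp
  · have h5 : (fun y => (R * ρ ^ 2) * p y) = (R * ρ ^ 2) • p := rfl
    have h6 : ContDiff ℝ j p := hps.of_le (by exact_mod_cast le_top)
    rw [h5, iteratedFDeriv_const_smul_apply h6.contDiffAt, norm_smul, hp,
      norm_iteratedFDeriv_aff_real j h1, norm_mul, norm_pow, Real.norm_eq_abs, Real.norm_eq_abs,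
      abs_of_pos hR, abs_of_pos hρ, abs_of_pos (by positivity : (0 : ℝ) < ρ⁻¹)]
    have h7 := h3 j hj (ρ⁻¹ • (y - z))
    calc R * ρ ^ 2 * (ρ⁻¹ ^ j * ‖iteratedFDeriv ℝ j ψ' (ρ⁻¹ • (y - z))‖)
        ≤ R * ρ ^ 2 * (ρ⁻¹ ^ j * A' j) := by gcongr
      _ = A' j * (R * ρ ^ 2 / ρ ^ j) := by
        rw [inv_pow]
        field_simp
  · have h5 : (fun y => (R * ρ ^ 2) * p y) = (R * ρ ^ 2) • p := rfl
    have h6 : fderiv ℝ (fderiv ℝ ((R * ρ ^ 2) • p)) y = (R * ρ ^ 2) • fderiv ℝ (fderiv ℝ p) y := by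
      have h7 : fderiv ℝ ((R * ρ ^ 2) • p) = (R * ρ ^ 2) • fderiv ℝ p := by
        funext y
        exact fderiv_const_smul (hps.differentiable (by simp) y) _
      have h8 : ContDiff ℝ ∞ (fderiv ℝ p) := hps.fderiv_right (by exact le_rfl)
      rw [h7]
      exact fderiv_const_smul (h8.differentiable (by simp) y) _
    have h9 : fderiv ℝ (fderiv ℝ ψ) 0 = R⁻¹ • fderiv ℝ (fderiv ℝ q) z := by
      have h10 : fderiv ℝ ((R * ρ ^ 2)⁻¹ • f) = (R * ρ ^ 2)⁻¹ • fderiv ℝ f := by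
        funext y
        exact fderiv_const_smul (hfs.differentiable (by simp) y) _
      have h11 : ContDiff ℝ ∞ (fderiv ℝ f) := hfs.fderiv_right (by exact le_rfl)
      have h12 : ψ = (R * ρ ^ 2)⁻¹ • f := rfl
      rw [h12, h10]
      have h13 : fderiv ℝ ((R * ρ ^ 2)⁻¹ • fderiv ℝ f) 0 =
          (R * ρ ^ 2)⁻¹ • fderiv ℝ (fderiv ℝ f) 0 :=
        fderiv_const_smul (h11.differentiable (by simp) 0) _
      rw [h13, hf, fderiv2_aff hq ρ _ 0, hfz, smul_zero, zero_add, smul_smul]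
      congr 1
      field_simp
    have h14 := h4 (ρ⁻¹ • (y - z))
    rw [h5, h6, hp, fderiv2_aff h1 ρ⁻¹ z y, smul_smul]
    have h15 : R * ρ ^ 2 * ρ⁻¹ ^ 2 = R := by
      rw [inv_pow]
      field_simp
    rw [h15]
    have h16 : fderiv ℝ (fderiv ℝ q) z = R • fderiv ℝ (fderiv ℝ ψ) 0 := by
      rw [h9, smul_smul, mul_inv_cancel₀ hR.ne', one_smul]
    have h17 : ∀ a b : V →L[ℝ] V →L[ℝ] ℝ, ‖R • a - R • b‖ = R * ‖a - b‖ := fun a b =>
      norm_smul_sub_smul hR a b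
    rw [h16, mul_comm c R]
    exact (h17 _ _).le.trans (mul_le_mul_of_nonneg_left h14 hR.le)

end Cut

end Pool.Agent.GNP
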