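import Pool.Agent.GNP.Defs5
import Pool.Agent.GNP.P0
import Pool.Agent.GNP.LIN

/-! ## STEP-RED: a reduction followed by one partial Legendre transform is a reduction -/

namespace Pool.Agent.GNP

open MeasureTheory Set Topology Pool.Agent.MP_6cbfb8_an
open scoped ENNReal Real RealInnerProductSpace ContDiff Nat

/-! ### The map `join` -/

theorem rs_inner_join {n : ℕ} (x y : E n) (s t : ℝ) :
    ⟪join x s, join y t⟫ = ⟪x, y⟫ + s * t := by
  unfold join
  rw [PiLp.inner_apply, PiLp.inner_apply, Fin.sum_univ_castSucc]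
  simp [mul_comm]

theorem rs_join_add {n : ℕ} (x y : E n) (s t : ℝ) :
    join (x + y) (s + t) = join x s + join y t := by
  unfold join
  ext i
  refine Fin.lastCases ?_ (fun j => ?_) i
  · simp
  · simp

theorem rs_join_smul {n : ℕ} (c : ℝ) (x : E n) (t : ℝ) :
    join (c • x) (c * t) = c • join x t := by
  unfold join
  ext i
  refine Fin.lastCases ?_ (fun j => ?_) i
  · simp
  · simp

theorem rs_join_surj {n : ℕ} (w : E (n + 1)) : ∃ (x : E n) (s : ℝ), join x s = w := by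
  refine ⟨WithLp.toLp 2 fun i => w (Fin.castSucc i), w (Fin.last n), ?_⟩
  unfold join
  ext i
  refine Fin.lastCases ?_ (fun j => ?_) i
  · simp
  · simp

theorem rs_norm_join_zero {n : ℕ} (x : E n) : ‖join x 0‖ = ‖x‖ := by
  have h : ‖join x 0‖ ^ 2 = ‖x‖ ^ 2 := by
    rw [← real_inner_self_eq_norm_sq, rs_inner_join, real_inner_self_eq_norm_sq]
    ring
  exact (pow_left_inj₀ (norm_nonneg _) (norm_nonneg _) two_ne_zero).1 h

theorem rs_norm_join_one {n : ℕ} : ‖join (0 : E n) 1‖ = 1 := by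
  have h : ‖join (0 : E n) 1‖ ^ 2 = 1 ^ 2 := by
    rw [← real_inner_self_eq_norm_sq, rs_inner_join]
    simp
  exact (pow_left_inj₀ (norm_nonneg _) zero_le_one two_ne_zero).1 h

theorem rs_join_split {n : ℕ} (x : E n) (s : ℝ) :
    join x s = join x 0 + s • join (0 : E n) 1 := by
  rw [← rs_join_smul, ← rs_join_add]
  simp

/-- The inclusion `x ↦ (x, 0)`. -/
noncomputable def j0 (n : ℕ) : E n →ₗᵢ[ℝ] E (n + 1) where
  toFun x := join x 0
  map_add' x y := by
    rw [← rs_join_add, add_zero]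
  map_smul' c x := by
    rw [RingHom.id_apply, ← rs_join_smul, mul_zero]
  norm_map' x := rs_norm_join_zero x

theorem j0_apply {n : ℕ} (x : E n) : j0 n x = join x 0 := rfl

/-! ### Scaled composition -/

/-- Composition of functions with scaled bounds at a point. -/
theorem comp_scaled {X Y Z : Type} [NormedAddCommGroup X] [NormedSpace ℝ X]
    [NormedAddCommGroup Y] [NormedSpace ℝ Y] [NormedAddCommGroup Z] [NormedSpace ℝ Z]
    {j : ℕ} (hj : 1 ≤ j) {g : Y → Z} {f : X → Y} (hg : ContDiff ℝ ∞ g) (hf : ContDiff ℝ ∞ f)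
    {r a M N : ℝ} (hr : 0 < r) (ha : 0 < a) (x : X)
    (h1 : ∀ i, 1 ≤ i → i ≤ j → ‖iteratedFDeriv ℝ i g (f x)‖ ≤ M * (a / r ^ i)) (hN : 1 ≤ N)
    (h2 : ∀ i, 1 ≤ i → i ≤ j → ‖iteratedFDeriv ℝ i f x‖ ≤ N * (r / r ^ i)) :
    ‖iteratedFDeriv ℝ j (fun u => g (f u)) x‖ ≤ j ! * M * N ^ j * (a / r ^ j) := by
  have hM : 0 ≤ M := by
    have := (norm_nonneg _).trans (h1 1 le_rfl hj)
    exact nonneg_of_mul_nonneg_left this (by positivity)
  have hz : ∀ u : X, r • (u - (-(r⁻¹ • x))) = r • u + x := fun u => by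
    rw [sub_neg_eq_add, smul_add, smul_smul, mul_inv_cancel₀ hr.ne', one_smul]
  -- the rescaled functions
  set f1 : X → Y := fun u => f (r • (u - (-(r⁻¹ • x)))) with hf1
  have hf1s : ContDiff ℝ ∞ f1 := contDiff_aff hf r _
  set f2 : X → Y := r⁻¹ • f1 with hf2
  have hf2s : ContDiff ℝ ∞ f2 := hf1s.const_smul r⁻¹
  set g1 : Y → Z := fun w => g (r • (w - 0)) with hg1
  have hg1s : ContDiff ℝ ∞ g1 := contDiff_aff hg r _
  set g2 : Y → Z := a⁻¹ • (g1 + fun _ => -(g (f x))) with hg2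
  have hg2s : ContDiff ℝ ∞ g2 := (hg1s.add contDiff_const).const_smul a⁻¹
  have hf20 : f2 0 = r⁻¹ • f x := by
    simp only [hf2, hf1, Pi.smul_apply, hz, smul_zero, zero_add]
  have hrf : r • (f2 0 - 0) = f x := by
    rw [hf20, sub_zero, smul_smul, mul_inv_cancel₀ hr.ne', one_smul]
  have hC : ∀ i, i ≤ j → ‖iteratedFDeriv ℝ i g2 (f2 0)‖ ≤ M := fun i hi => by
    rcases Nat.eq_zero_or_pos i with rfl | hi0
    · rw [norm_iteratedFDeriv_zero]
      have : g2 (f2 0) = 0 := by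
        simp only [hg2, hg1, Pi.smul_apply, Pi.add_apply, hrf, add_neg_cancel, smul_zero]
      rw [this, norm_zero]
      exact hM
    · have k1 : ContDiff ℝ i g1 := hg1s.of_le (by exact_mod_cast le_top)
      have k2 : ContDiff ℝ i (g1 + fun _ => -(g (f x))) := k1.add contDiff_const
      rw [hg2, iteratedFDeriv_const_smul_apply k2.contDiffAt,
        iteratedFDeriv_add_apply k1.contDiffAt contDiff_const.contDiffAt,
        iteratedFDeriv_const_of_ne (by omega), Pi.zero_apply, add_zero, norm_smul, hg1,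
        norm_iteratedFDeriv_aff i hg, hrf, norm_inv, Real.norm_eq_abs, abs_of_pos ha,
        abs_of_pos hr]
      calc a⁻¹ * (r ^ i * ‖iteratedFDeriv ℝ i g (f x)‖)
          ≤ a⁻¹ * (r ^ i * (M * (a / r ^ i))) := by
            gcongr
            exact h1 i hi0 hi
        _ = M := by field_simp
  have hD : ∀ i, 1 ≤ i → i ≤ j → ‖iteratedFDeriv ℝ i f2 0‖ ≤ N ^ i := fun i hi0 hi => by
    have k1 : ContDiff ℝ i f1 := hf1s.of_le (by exact_mod_cast le_top)
    rw [hf2, iteratedFDeriv_const_smul_apply k1.contDiffAt, norm_smul, hf1,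
      norm_iteratedFDeriv_aff i hf, hz, norm_inv, Real.norm_eq_abs, abs_of_pos hr, smul_zero,
      zero_add]
    calc r⁻¹ * (r ^ i * ‖iteratedFDeriv ℝ i f x‖)
        ≤ r⁻¹ * (r ^ i * (N * (r / r ^ i))) := by
          gcongr
          exact h2 i hi0 hi
      _ = N := by field_simp
      _ = N ^ 1 := (pow_one N).symm
      _ ≤ N ^ i := pow_le_pow_right₀ hN hi0
  have key := norm_iteratedFDeriv_comp_le hg2s hf2s
    (by exact_mod_cast le_top) 0 hC hD
  -- the composition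
  have hgf : ContDiff ℝ ∞ (fun u => g (f u)) := hg.comp hf
  set p : X → Z := fun u => (fun u => g (f u)) (r • (u - (-(r⁻¹ • x)))) with hp
  have hps : ContDiff ℝ ∞ p := contDiff_aff hgf r _
  have hcomp : g2 ∘ f2 = a⁻¹ • (p + fun _ => -(g (f x))) := by
    funext u
    simp only [Function.comp_apply, hg2, hf2, hf1, hg1, hp, Pi.smul_apply, Pi.add_apply, sub_zero]
    rw [smul_smul, mul_inv_cancel₀ hr.ne', one_smul]
  have k1 : ContDiff ℝ j p := hps.of_le (by exact_mod_cast le_top)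
  have k2 : ContDiff ℝ j (p + fun _ => -(g (f x))) := k1.add contDiff_const
  rw [hcomp, iteratedFDeriv_const_smul_apply k2.contDiffAt,
    iteratedFDeriv_add_apply k1.contDiffAt contDiff_const.contDiffAt,
    iteratedFDeriv_const_of_ne (by omega), Pi.zero_apply, add_zero, norm_smul, hp,
    norm_iteratedFDeriv_aff j hgf, hz, norm_inv, Real.norm_eq_abs, abs_of_pos ha,
    abs_of_pos hr, smul_zero, zero_add] at key
  have hpos : 0 < a / r ^ j := by positivity
  rw [← div_le_iff₀ hpos]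
  calc ‖iteratedFDeriv ℝ j (fun u => g (f u)) x‖ / (a / r ^ j)
      = a⁻¹ * (r ^ j * ‖iteratedFDeriv ℝ j (fun u => g (f u)) x‖) := by field_simp
    _ ≤ j ! * M * N ^ j := key

/-! ### The derivatives of the identities of a reduction -/

section Diff

variable {d m : ℕ} {Λ : ℕ → ℝ} {q : E d → ℝ} {R ρ : ℝ} {ι : E m →ₗᵢ[ℝ] E d} {Y : E m → E d}
  {Q : E m → ℝ} {v : E m}

theorem rs_near {u : E m} (hu : ‖u - v‖ < ρ) : ∀ᶠ u' in 𝓝 u, ‖u' - v‖ ≤ ρ := by
  have h1 : Continuous fun u' : E m => ‖u' - v‖ := by fun_prop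
  filter_upwards [h1.continuousAt.eventually_lt_const hu] with u' hu'
  exact hu'.le

/-- `⟪DY x', ι x⟫ = ⟪x', x⟫`. -/
theorem rs_dsec (h : Red d m Λ q R ρ ι Y Q v) {u : E m} (hu : ‖u - v‖ < ρ) (x' x : E m) :
    ⟪fderiv ℝ Y u x', ι x⟫ = ⟪x', x⟫ := by
  have h1 : HasFDerivAt (fun u => ⟪ι x, Y u⟫)
      ((innerSL ℝ (ι x)).comp (fderiv ℝ Y u)) u :=
    (innerSL ℝ (ι x)).hasFDerivAt.comp u (h.smY.differentiable (by simp) u).hasFDerivAt
  have h2 : HasFDerivAt (fun u => ⟪ι x, Y u⟫) (innerSL ℝ x) u := by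
    refine (innerSL ℝ x).hasFDerivAt.congr_of_eventuallyEq ?_
    filter_upwards [rs_near hu] with u' hu'
    rw [real_inner_comm, h.sec u' hu' x, real_inner_comm]
    rfl
  have h3 := congrArg (fun L : E m →L[ℝ] ℝ => L x') (h1.unique h2)
  simp only [ContinuousLinearMap.comp_apply, innerSL_apply_apply] at h3
  rw [real_inner_comm, h3, real_inner_comm]

/-- `⟪D²q (DY x'), f⟫ = 0` for `f` orthogonal to the directions which are left. -/
theorem rs_dleaf (h : Red d m Λ q R ρ ι Y Q v) (hq : ContDiff ℝ ∞ q) {u : E m}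
    (hu : ‖u - v‖ < ρ) (x' : E m) (f : E d) (hf : ∀ x, ⟪f, ι x⟫ = 0) :
    ⟪Hs q (Y u) (fderiv ℝ Y u x'), f⟫ = 0 := by
  have h1 : HasFDerivAt (fun u => ⟪f, gr q (Y u)⟫)
      ((innerSL ℝ f).comp ((Hs q (Y u)).comp (fderiv ℝ Y u))) u :=
    (innerSL ℝ f).hasFDerivAt.comp u
      ((hasFDerivAt_gr hq (Y u)).comp u (h.smY.differentiable (by simp) u).hasFDerivAt)
  have h2 : HasFDerivAt (fun u => ⟪f, gr q (Y u)⟫) (0 : E m →L[ℝ] ℝ) u := by
    refine (hasFDerivAt_const (⟪f, gr q (Y v)⟫) u).congr_of_eventuallyEq ?_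
    filter_upwards [rs_near hu] with u' hu'
    rw [real_inner_comm, h.leaf u' hu' f hf, real_inner_comm]
  have h3 := congrArg (fun L : E m →L[ℝ] ℝ => L x') (h1.unique h2)
  simp only [ContinuousLinearMap.comp_apply, innerSL_apply_apply, zero_apply] at h3
  rw [real_inner_comm, h3]

/-- `⟪D²Q x', x⟫ = ⟪D²q (DY x'), ι x⟫`. -/
theorem rs_dgrad (h : Red d m Λ q R ρ ι Y Q v) (hq : ContDiff ℝ ∞ q) {u : E m}
    (hu : ‖u - v‖ < ρ) (x' x : E m) :
    ⟪Hs Q u x', x⟫ = ⟪Hs q (Y u) (fderiv ℝ Y u x'), ι x⟫ := by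
  have h1 : HasFDerivAt (fun u => ⟪ι x, gr q (Y u)⟫)
      ((innerSL ℝ (ι x)).comp ((Hs q (Y u)).comp (fderiv ℝ Y u))) u :=
    (innerSL ℝ (ι x)).hasFDerivAt.comp u
      ((hasFDerivAt_gr hq (Y u)).comp u (h.smY.differentiable (by simp) u).hasFDerivAt)
  have h2 : HasFDerivAt (fun u => ⟪ι x, gr q (Y u)⟫) ((innerSL ℝ x).comp (Hs Q u)) u := by
    refine ((innerSL ℝ x).hasFDerivAt.comp u
      (hasFDerivAt_gr h.smQ u)).congr_of_eventuallyEq ?_
    filter_upwards [rs_near hu] with u' hu'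
    rw [real_inner_comm, ← h.grad u' hu' x, real_inner_comm]
    rfl
  have h3 := congrArg (fun L : E m →L[ℝ] ℝ => L x') (h2.unique h1)
  simp only [ContinuousLinearMap.comp_apply, innerSL_apply_apply] at h3
  rw [real_inner_comm, h3, real_inner_comm]

end Diff

/-! ### The trivial reduction -/

theorem red_refl {d : ℕ} {Λ : ℕ → ℝ} {q : E d → ℝ} {R ρ : ℝ} {v : E d} (hq : ContDiff ℝ ∞ q)
    (hρ : 0 < ρ) (h0 : ∀ j, 0 ≤ Λ j) (h1 : 1 ≤ Λ 1)
    (bd : ∀ j, 2 ≤ j → ∀ u, ‖u - v‖ ≤ ρ →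
      ‖iteratedFDeriv ℝ j q u‖ ≤ Λ j * (R * ρ ^ 2) / ρ ^ j) :
    Red d d Λ q R ρ LinearIsometry.id (fun u => u) q v := by
  have hz : ∀ f : E d, (∀ x, ⟪f, (LinearIsometry.id : E d →ₗᵢ[ℝ] E d) x⟫ = 0) → f = 0 :=
    fun f hf => by
    have := hf f
    simpa using this
  refine ⟨contDiff_id, hq, fun u _ x => rfl, fun u _ x => rfl, fun u _ f hf => ?_,
    fun u _ f hf => ⟨0, by simp, by simp, ?_⟩, fun j hj u _ => ?_, bd⟩
  · rw [hz f hf, inner_zero_right, inner_zero_right]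
  · rw [hz f hf, norm_zero, mul_zero, inner_zero_right, abs_zero, mul_zero]
  · rcases Nat.lt_or_ge j 2 with h2 | h2
    · obtain rfl : j = 1 := by omega
      rw [norm_iteratedFDeriv_one]
      have h3 : fderiv ℝ (fun u : E d => u) u = ContinuousLinearMap.id ℝ (E d) := fderiv_id
      rw [h3, pow_one, mul_div_assoc, div_self hρ.ne', mul_one]
      exact ContinuousLinearMap.norm_id_le.trans h1
    · obtain ⟨i, rfl⟩ : ∃ i, j = i + 2 := ⟨j - 2, by omega⟩
      rw [← norm_iteratedFDeriv_fderiv]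
      have h4 : fderiv ℝ (fun u : E d => u) = fun _ => ContinuousLinearMap.id ℝ (E d) := by
        funext u
        exact fderiv_id
      rw [h4, iteratedFDeriv_const_of_ne (by omega)]
      simp only [Pi.zero_apply, norm_zero]
      have := h0 (i + 2)
      positivity

/-! ### One more step -/

section Step

variable {d m : ℕ} {Λ A : ℕ → ℝ} {q : E d → ℝ} {R ρ : ℝ} {ι : E (m + 1) →ₗᵢ[ℝ] E d}
  {Y : E (m + 1) → E d} {Q : E (m + 1) → ℝ} {y : E (m + 1)}

/-- Nondegeneracy on one direction more. -/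
theorem rs_nd (h : Red d (m + 1) Λ q R ρ ι Y Q y) (hq : ContDiff ℝ ∞ q) (hR : 0 < R)
    (hρ : 0 < ρ) {R' B : ℝ} (hR' : 0 < R') {u : E (m + 1)} (hu : ‖u - y‖ < ρ)
    {U : E (m + 1) ≃ₗᵢ[ℝ] E (m + 1)}
    (hpiv : R' ≤ B * |⟪Hs Q u (U (join 0 1)), U (join 0 1)⟫|) (f : E d)
    (hf : ∀ x : E m, ⟪f, ι (U (join x 0))⟫ = 0) :
    ∃ g : E d, (∀ x : E m, ⟪g, ι (U (join x 0))⟫ = 0) ∧ ‖g‖ ≤ 1 ∧
      R' * ‖f‖ ≤ (2 * B * Λ 1 ^ 2 + 2 * B * |Λ 2| * |Λ 0|) * |⟪Hs q (Y u) f, g⟫| := by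
  set e : E (m + 1) := U (join 0 1) with he
  set τ : E d := fderiv ℝ Y u e with hτ
  have hB : 0 < B := by
    by_contra hB
    push Not at hB
    have := mul_nonpos_of_nonpos_of_nonneg hB (abs_nonneg ⟪Hs Q u e, e⟫)
    linarith
  have he1 : ‖e‖ = 1 := by rw [he, U.norm_map, rs_norm_join_one]
  have hτi : ∀ x, ⟪τ, ι x⟫ = ⟪e, x⟫ := fun x => rs_dsec h hu e x
  have hτn : ‖τ‖ ≤ Λ 1 := by
    have h1 := h.bdY 1 le_rfl u hu.le
    rw [norm_iteratedFDeriv_one, pow_one, mul_div_assoc, div_self hρ.ne', mul_one] at h1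
    calc ‖τ‖ ≤ ‖fderiv ℝ Y u‖ * ‖e‖ := (fderiv ℝ Y u).le_opNorm e
      _ ≤ Λ 1 := by rw [he1, mul_one]; exact h1
  have hτ1 : 1 ≤ ‖τ‖ := by
    have h1 : ⟪τ, ι e⟫ = 1 := by rw [hτi, real_inner_self_eq_norm_sq, he1, one_pow]
    have h2 := real_inner_le_norm τ (ι e)
    rw [h1, ι.norm_map, he1, mul_one] at h2
    exact h2
  have heτ : ∀ x : E m, ⟪τ, ι (U (join x 0))⟫ = 0 := fun x => by
    rw [hτi, he, U.inner_map_map, rs_inner_join]
    simp
  have hHττ : ⟪Hs q (Y u) τ, τ⟫ = ⟪Hs Q u e, e⟫ := by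
    have h1 : ∀ x, ⟪τ - ι e, ι x⟫ = 0 := fun x => by
      rw [inner_sub_left, hτi, ι.inner_map_map, sub_self]
    have h2 := rs_dleaf h hq hu e (τ - ι e) h1
    rw [inner_sub_right] at h2
    rw [rs_dgrad h hq hu e e]
    linarith
  set a : ℝ := |⟪Hs Q u e, e⟫| with ha
  have ha0 : 0 ≤ a := abs_nonneg _
  set c : ℝ := ⟪f, ι e⟫ with hc
  set f1 : E d := f - c • τ with hf1
  have hf1o : ∀ x, ⟪f1, ι x⟫ = 0 := fun x => by
    obtain ⟨x', s, hxs⟩ := rs_join_surj (U.symm x)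
    have hx : x = U (join x' 0) + s • e := by
      rw [he, ← U.map_smul, ← U.map_add, ← rs_join_split, hxs, U.apply_symm_apply]
    have h1 : ⟪e, U (join x' 0)⟫ = 0 := by
      rw [he, U.inner_map_map, rs_inner_join]
      simp
    rw [hf1, inner_sub_left, inner_smul_left, hτi, hx, map_add, map_smul, inner_add_right,
      inner_smul_right, hf, inner_add_right, inner_smul_right, h1, real_inner_self_eq_norm_sq, he1]
    simp only [conj_trivial]
    rw [← hc]
    ring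
  have hHf1τ : ⟪Hs q (Y u) f1, τ⟫ = 0 := by
    rw [Hs_symm hq, real_inner_comm]
    exact rs_dleaf h hq hu e f1 hf1o
  have hff : f = f1 + c • τ := by rw [hf1]; abel
  have hHfτ : ⟪Hs q (Y u) f, τ⟫ = c * ⟪Hs Q u e, e⟫ := by
    rw [hff, map_add, map_smul, inner_add_left, inner_smul_left, hHf1τ, hHττ]
    simp
  have hnorm : ‖f‖ ≤ ‖f1‖ + |c| * ‖τ‖ := by
    calc ‖f‖ = ‖f1 + c • τ‖ := by rw [← hff]
      _ ≤ ‖f1‖ + ‖c • τ‖ := norm_add_le _ _
      _ = ‖f1‖ + |c| * ‖τ‖ := by rw [norm_smul, Real.norm_eq_abs]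
  rcases le_or_gt ‖f‖ (2 * (|c| * ‖τ‖)) with hcase | hcase
  · refine ⟨‖τ‖⁻¹ • τ, fun x => by rw [inner_smul_left, heτ, mul_zero], ?_, ?_⟩
    · rw [norm_smul, norm_inv, norm_norm, inv_mul_cancel₀ (by positivity)]
    · have h1 : |⟪Hs q (Y u) f, ‖τ‖⁻¹ • τ⟫| = ‖τ‖⁻¹ * (|c| * a) := by
        rw [inner_smul_right, hHfτ, abs_mul, abs_mul, abs_of_nonneg (inv_nonneg.2 (norm_nonneg τ))]
      rw [h1]
      have hτ0 : 0 < ‖τ‖ := by linarith
      have h2 : R' * ‖f‖ ≤ (B * a) * (2 * (|c| * ‖τ‖)) := by gcongr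
      have h3 : (B * a) * (2 * (|c| * ‖τ‖)) = (2 * B * ‖τ‖ ^ 2) * (‖τ‖⁻¹ * (|c| * a)) := by
        field_simp
      have h4 : (2 * B * ‖τ‖ ^ 2) ≤ 2 * B * Λ 1 ^ 2 + 2 * B * |Λ 2| * |Λ 0| := by
        have h5 : 2 * B * ‖τ‖ ^ 2 ≤ 2 * B * Λ 1 ^ 2 := by gcongr
        have h6 : 0 ≤ 2 * B * |Λ 2| * |Λ 0| := by positivity
        linarith
      calc R' * ‖f‖ ≤ (2 * B * ‖τ‖ ^ 2) * (‖τ‖⁻¹ * (|c| * a)) := by rw [← h3]; exact h2
        _ ≤ _ := by gcongr
  · obtain ⟨g, hg1, hg2, hg3⟩ := h.nd u hu.le f1 hf1o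
    refine ⟨g, fun x => hg1 _, hg2, ?_⟩
    have h1 : ⟪Hs q (Y u) f, g⟫ = ⟪Hs q (Y u) f1, g⟫ := by
      rw [hff, map_add, map_smul, inner_add_left, inner_smul_left,
        rs_dleaf h hq hu e g hg1]
      simp
    rw [h1]
    have h2 : ‖f‖ ≤ 2 * ‖f1‖ := by linarith
    have h3 : R' ≤ B * (|Λ 2| * R) := by
      have h4 : a ≤ ‖Hs Q u‖ := by
        have h5 := abs_real_inner_le_norm (Hs Q u e) e
        have h6 := (Hs Q u).le_opNorm e
        rw [he1, mul_one] at h5 h6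
        exact h5.trans h6
      have h7 := h.bdQ 2 le_rfl u hu.le
      have h8 : Λ 2 * (R * ρ ^ 2) / ρ ^ 2 = Λ 2 * R := by field_simp
      rw [h8] at h7
      have h9 : a ≤ |Λ 2| * R :=
        (h4.trans (norm_Hs_le h.smQ u)).trans (h7.trans (by gcongr; exact le_abs_self _))
      exact hpiv.trans (by gcongr)
    have h10 : R * ‖f1‖ ≤ |Λ 0| * |⟪Hs q (Y u) f1, g⟫| :=
      hg3.trans (by gcongr; exact le_abs_self _)
    calc R' * ‖f‖ ≤ (B * (|Λ 2| * R)) * (2 * ‖f1‖) := by gcongr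
      _ = (2 * B * |Λ 2|) * (R * ‖f1‖) := by ring
      _ ≤ (2 * B * |Λ 2|) * (|Λ 0| * |⟪Hs q (Y u) f1, g⟫|) := by gcongr
      _ = (2 * B * |Λ 2| * |Λ 0|) * |⟪Hs q (Y u) f1, g⟫| := by ring
      _ ≤ _ := by
        gcongr
        have : 0 ≤ 2 * B * Λ 1 ^ 2 := by positivity
        linarith

/-- The scaled bounds of `u ↦ U (u, η u)`. -/
theorem rs_bdG {η : E m → ℝ} (hη : ContDiff ℝ ∞ η) (U : E (m + 1) ≃ₗᵢ[ℝ] E (m + 1)) {r B : ℝ}
    (hr : 0 < r) {u : E m} (j : ℕ) (hj : 1 ≤ j)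
    (hb : ‖iteratedFDeriv ℝ j η u‖ ≤ B * r / r ^ j) :
    ‖iteratedFDeriv ℝ j (fun u => U (join u (η u))) u‖ ≤ (1 + |B|) * (r / r ^ j) := by
  set L : E m →L[ℝ] E (m + 1) :=
    (U.toLinearIsometry.comp (j0 m)).toContinuousLinearMap with hL
  have hLn : ‖L‖ ≤ 1 := (U.toLinearIsometry.comp (j0 m)).norm_toContinuousLinearMap_le
  set D : ℝ →L[ℝ] E (m + 1) := (ContinuousLinearMap.id ℝ ℝ).smulRight (U (join (0 : E m) 1))
    with hD
  have hDn : ‖D‖ ≤ 1 := by
    refine ContinuousLinearMap.opNorm_le_bound _ zero_le_one fun s => ?_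
    rw [hD, ContinuousLinearMap.smulRight_apply, norm_smul, U.norm_map, rs_norm_join_one]
    simp
  have hG : (fun u => U (join u (η u))) = (fun u => L u) + fun u => D (η u) := by
    funext u
    rw [rs_join_split, U.map_add, U.map_smul]
    rfl
  have h1 : ContDiff ℝ ∞ (fun u => D (η u)) := D.contDiff.comp hη
  have k1 : ContDiff ℝ j (fun u => L u) := L.contDiff
  have k2 : ContDiff ℝ j (fun u => D (η u)) := h1.of_le (by exact_mod_cast le_top)
  have h2 : ‖iteratedFDeriv ℝ j (fun u => D (η u)) u‖ ≤ |B| * (r / r ^ j) := by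
    refine (D.norm_iteratedFDeriv_comp_left (n := j) (N := ∞) hη.contDiffAt
      (by exact_mod_cast le_top)).trans ?_
    calc ‖D‖ * ‖iteratedFDeriv ℝ j η u‖ ≤ 1 * (|B| * (r / r ^ j)) := by
          refine mul_le_mul hDn (hb.trans ?_) (norm_nonneg _) zero_le_one
          rw [mul_div_assoc]
          gcongr
          exact le_abs_self _
      _ = |B| * (r / r ^ j) := one_mul _
  have h3 : ‖iteratedFDeriv ℝ j (fun u => L u) u‖ ≤ 1 * (r / r ^ j) := by
    rcases Nat.lt_or_ge j 2 with h2 | h2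
    · obtain rfl : j = 1 := by omega
      rw [norm_iteratedFDeriv_one, L.hasFDerivAt.fderiv, pow_one, div_self hr.ne', mul_one]
      exact hLn
    · obtain ⟨i, rfl⟩ : ∃ i, j = i + 2 := ⟨j - 2, by omega⟩
      rw [← norm_iteratedFDeriv_fderiv]
      have h4 : fderiv ℝ (fun u => L u) = fun _ => L := by
        funext u
        exact L.hasFDerivAt.fderiv
      rw [h4, iteratedFDeriv_const_of_ne (by omega)]
      simp only [Pi.zero_apply, norm_zero]
      positivity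
  rw [hG, iteratedFDeriv_add_apply k1.contDiffAt k2.contDiffAt]
  calc ‖iteratedFDeriv ℝ j (fun u => L u) u + iteratedFDeriv ℝ j (fun u => D (η u)) u‖
      ≤ 1 * (r / r ^ j) + |B| * (r / r ^ j) := (norm_add_le _ _).trans (add_le_add h3 h2)
    _ = _ := by ring

end Step

/-- **STEP-RED.** A reduction followed by one partial Legendre transform is a reduction. -/
theorem reds_step {d m : ℕ} (Λ A : ℕ → ℝ) : ∃ Λ' : ℕ → ℝ, ∀ (q : E d → ℝ) (R ρ : ℝ)
    (ι : E (m + 1) →ₗᵢ[ℝ] E d) (Y : E (m + 1) → E d) (Q : E (m + 1) → ℝ) (y : E (m + 1))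
    (R' r : ℝ) (U : E (m + 1) ≃ₗᵢ[ℝ] E (m + 1)) (t : ℝ) (v : E m) (η ψ : E m → ℝ),
    ContDiff ℝ ∞ q → 0 < R → 0 < R' → 0 < r → 2 * (1 + |A 1|) * r ≤ ρ →
    Red d (m + 1) Λ q R ρ ι Y Q y → Leg A Q R' r U t v η ψ → y = U (join v (η v)) →
    Red d m Λ' q R' r (ι.comp (U.toLinearIsometry.comp (j0 m)))
      (fun u => Y (U (join u (η u)))) ψ v := by
  refine ⟨fun j => max (A j) (max (2 * A 0 * Λ 1 ^ 2 + 2 * A 0 * |Λ 2| * |Λ 0|)
    (j ! * (∑ i ∈ Finset.range (j + 1), |Λ i|) *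
      (1 + ∑ i ∈ Finset.range (j + 1), |A i|) ^ j)), fun q R ρ ι Y Q y R' r U t v η ψ hq hR hR' hr
        hrρ h hL hy => ?_⟩
  have hA1 : 0 ≤ |A 1| := abs_nonneg _
  have hρ : 0 < ρ := by
    have : 0 < 2 * (1 + |A 1|) * r := by positivity
    linarith
  -- the points of the leaf
  have hU : ∀ u, ‖u - v‖ ≤ r → ‖U (join u (η u)) - y‖ < ρ := fun u hu => by
    have h1 : ‖η u - η v‖ ≤ |A 1| * ‖u - v‖ := by
      refine (convex_closedBall v r).norm_image_sub_le_of_norm_fderiv_le (f := η)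
        (fun x _ => hL.smη.differentiable (by simp) x) (fun x hx => ?_) ?_ ?_
      · rw [mem_closedBall_iff_norm] at hx
        have h2 := hL.bdη 1 le_rfl x hx
        rw [norm_iteratedFDeriv_one, pow_one, mul_div_assoc, div_self hr.ne', mul_one] at h2
        exact h2.trans (le_abs_self _)
      · exact Metric.mem_closedBall_self hr.le
      · rwa [mem_closedBall_iff_norm]
    rw [hy, ← U.map_sub, U.norm_map]
    have h3 : join u (η u) - join v (η v) = join (u - v) (η u - η v) := by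
      have := rs_join_add (u - v) v (η u - η v) (η v)
      rw [sub_add_cancel, sub_add_cancel] at this
      rw [this, add_sub_cancel_right]
    rw [h3, rs_join_split]
    calc ‖join (u - v) 0 + (η u - η v) • join (0 : E m) 1‖
        ≤ ‖join (u - v) 0‖ + ‖(η u - η v) • join (0 : E m) 1‖ := norm_add_le _ _
      _ = ‖u - v‖ + ‖η u - η v‖ := by
          rw [rs_norm_join_zero, norm_smul, rs_norm_join_one, mul_one]
      _ ≤ r + |A 1| * r := by
          refine add_le_add hu (h1.trans ?_)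
          gcongr
      _ < 2 * (1 + |A 1|) * r := by nlinarith
      _ ≤ ρ := hrρ
  have hι : ∀ x : E m, (ι.comp (U.toLinearIsometry.comp (j0 m))) x = ι (U (join x 0)) :=
    fun x => rfl
  have hGs : ContDiff ℝ ∞ (fun u => U (join u (η u))) := by
    have h1 : (fun u => U (join u (η u))) =
        fun u => (U.toLinearIsometry.comp (j0 m)) u + (η u) • U (join (0 : E m) 1) := by
      funext u
      rw [rs_join_split, U.map_add, U.map_smul]
      rfl
    rw [h1]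
    exact (U.toLinearIsometry.comp (j0 m)).contDiff.add (hL.smη.smul contDiff_const)
  -- the orthogonal complement of the directions which are left
  have hsplit : ∀ f : E d, (∀ x : E m, ⟪f, ι (U (join x 0))⟫ = 0) →
      ∀ x, ⟪f - ⟪f, ι (U (join 0 1))⟫ • ι (U (join 0 1)), ι x⟫ = 0 := fun f hf x => by
    obtain ⟨x', s, hxs⟩ := rs_join_surj (U.symm x)
    have hx : x = U (join x' 0) + s • U (join (0 : E m) 1) := by
      rw [← U.map_smul, ← U.map_add, ← rs_join_split, hxs, U.apply_symm_apply]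
    rw [hx, map_add, map_smul, inner_sub_left, inner_add_right, inner_smul_right, hf,
      inner_smul_left, inner_add_right, inner_smul_right, ι.inner_map_map, ι.inner_map_map,
      U.inner_map_map, U.inner_map_map, rs_inner_join, rs_inner_join]
    simp
    ring
  refine ⟨h.smY.comp hGs, hL.smψ, fun u hu x => ?_, fun u hu x => ?_, fun u hu f hf => ?_,
    fun u hu f hf => ?_, fun j hj u hu => ?_, fun j hj u hu => ?_⟩
  · rw [hι, h.sec _ (hU u hu).le, U.inner_map_map, rs_inner_join]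
    simp
  · rw [hL.grad u hu x, h.grad _ (hU u hu).le, hι]
  · have hf' : ∀ x : E m, ⟪f, ι (U (join x 0))⟫ = 0 := fun x => by rw [← hι]; exact hf x
    have hv : ‖v - v‖ ≤ r := by
      rw [sub_self, norm_zero]
      exact hr.le
    have hff : f = (f - ⟪f, ι (U (join 0 1))⟫ • ι (U (join (0 : E m) 1)))
        + ⟪f, ι (U (join 0 1))⟫ • ι (U (join (0 : E m) 1)) := by abel
    have h1 := h.leaf _ (hU u hu).le _ (hsplit f hf')
    have h2 := h.leaf _ (hU v hv).le _ (hsplit f hf')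
    have h3 : ⟪gr q (Y (U (join u (η u)))), ι (U (join (0 : E m) 1))⟫ = t := by
      rw [← h.grad _ (hU u hu).le, hL.crit u hu]
    have h4 : ⟪gr q (Y (U (join v (η v)))), ι (U (join (0 : E m) 1))⟫ = t := by
      rw [← h.grad _ (hU v hv).le, hL.crit v hv]
    rw [hff, inner_add_right, inner_add_right, inner_smul_right, inner_smul_right, h1, h2, h3, h4]
  · have hf' : ∀ x : E m, ⟪f, ι (U (join x 0))⟫ = 0 := fun x => by rw [← hι]; exact hf x
    obtain ⟨g, hg1, hg2, hg3⟩ := rs_nd h hq hR hρ hR' (hU u hu) (hL.piv u hu) f hf'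
    refine ⟨g, fun x => by rw [hι]; exact hg1 x, hg2, hg3.trans ?_⟩
    gcongr
    exact (le_max_left _ _).trans (le_max_right _ _)
  · have hsum : ∀ (B : ℕ → ℝ) (i : ℕ), i ≤ j → |B i| ≤ ∑ i ∈ Finset.range (j + 1), |B i| :=
      fun B i hi => Finset.single_le_sum (f := fun i => |B i|) (fun i _ => abs_nonneg _)
        (Finset.mem_range.2 (by omega))
    have hS : 0 ≤ ∑ i ∈ Finset.range (j + 1), |A i| :=
      Finset.sum_nonneg fun _ _ => abs_nonneg _
    have hS' : 0 ≤ ∑ i ∈ Finset.range (j + 1), |Λ i| :=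
      Finset.sum_nonneg fun _ _ => abs_nonneg _
    have hrρ' : r ≤ ρ := by nlinarith
    have key := comp_scaled (j := j) hj h.smY hGs (r := r) (a := r)
      (M := ∑ i ∈ Finset.range (j + 1), |Λ i|)
      (N := 1 + ∑ i ∈ Finset.range (j + 1), |A i|) hr hr u (fun i hi1 hi2 => ?_)
      (by linarith) (fun i hi1 hi2 => ?_)
    · have h5 : (j ! * (∑ i ∈ Finset.range (j + 1), |Λ i|) *
          (1 + ∑ i ∈ Finset.range (j + 1), |A i|) ^ j) * (r / r ^ j) ≤
          (max (A j) (max (2 * A 0 * Λ 1 ^ 2 + 2 * A 0 * |Λ 2| * |Λ 0|)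
          (j ! * (∑ i ∈ Finset.range (j + 1), |Λ i|) *
            (1 + ∑ i ∈ Finset.range (j + 1), |A i|) ^ j))) * (r / r ^ j) := by
        gcongr
        exact (le_max_right _ _).trans (le_max_right _ _)
      rw [mul_div_assoc]
      exact key.trans h5
    · refine (h.bdY i hi1 _ (hU u hu).le).trans ?_
      obtain ⟨l, rfl⟩ : ∃ l, i = l + 1 := ⟨i - 1, by omega⟩
      have h6 : ρ / ρ ^ (l + 1) ≤ r / r ^ (l + 1) := by
        have e1 : ρ / ρ ^ (l + 1) = (ρ ^ l)⁻¹ := by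
          rw [pow_succ]
          field_simp
        have e2 : r / r ^ (l + 1) = (r ^ l)⁻¹ := by
          rw [pow_succ]
          field_simp
        rw [e1, e2]
        gcongr
      rw [mul_div_assoc]
      calc Λ (l + 1) * (ρ / ρ ^ (l + 1)) ≤ |Λ (l + 1)| * (ρ / ρ ^ (l + 1)) := by
            gcongr
            exact le_abs_self _
        _ ≤ (∑ i ∈ Finset.range (j + 1), |Λ i|) * (r / r ^ (l + 1)) := by
            gcongr
            exact hsum Λ _ hi2
    · refine (rs_bdG hL.smη U hr i hi1 (hL.bdη i hi1 u hu)).trans ?_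
      gcongr
      exact hsum A i hi2
  · refine (hL.bdψ j hj u hu).trans ?_
    have h5 : 0 ≤ R' * r ^ 2 / r ^ j := by positivity
    have h6 : ∀ a : ℝ, a * (R' * r ^ 2) / r ^ j = a * (R' * r ^ 2 / r ^ j) :=
      fun a => mul_div_assoc _ _ _
    rw [h6, h6]
    exact mul_le_mul_of_nonneg_right (le_max_left _ _) h5

end Pool.Agent.GNP
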