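-- Pool/Agent/GNP/GEO.lean
import Pool.Agent.GNP.GEOa
import Pool.Agent.GNP.GEO1
import Pool.Agent.GNP.REDS
import Pool.Agent.GNP.Defs6

/-! From the chains to the types: the induction along the chain. -/

namespace Pool.Agent.GNP

open MeasureTheory Set Pool.Agent.MP_6cbfb8_an
open scoped ENNReal Real RealInnerProductSpace ContDiff

/-- The roots and the Hessian of `ph Φ h c s`. -/
theorem geo_det {d : ℕ} {Φ h : E d → ℝ} {b : ℝ} {y : E d} (hΦ : ContDiff ℝ ∞ Φ)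
    (hh : ContDiff ℝ ∞ h) (hb : 0 < b) (hD : ∀ v, ⟪Hs h y v, v⟫ ≤ -(b * ‖v‖ ^ 2)) (c s : ℝ) :
    (c • Hs Φ y + s • (-Hs h y)).det = (-Hs h y).det * ∏ i, (s - mu Φ h c y i) := by
  have hP : Sy (-(c • Hs Φ y)) := by
    intro v w
    simp only [neg_apply, smul_apply, inner_neg_left,
      inner_neg_right, real_inner_smul_left, real_inner_smul_right]
    rw [Hs_symm hΦ y v w]
  have hQ : Sy (-Hs h y) := by
    intro v w
    simp only [neg_apply, inner_neg_left, inner_neg_right]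
    rw [Hs_symm hh y v w]
  have hpos : ∀ v, b * ‖v‖ ^ 2 ≤ ⟪(-Hs h y) v, v⟫ := by
    intro v
    rw [neg_apply, inner_neg_left]
    linarith [hD v]
  have h1 := RT.rt_det hP hQ hb hpos s
  have h2 : -(c • Hs Φ y) - s • (-Hs h y) = (-1 : ℝ) • (c • Hs Φ y + s • (-Hs h y)) := by
    module
  rw [h2] at h1
  have h3 : ((-1 : ℝ) • (c • Hs Φ y + s • (-Hs h y))).det =
      (-1) ^ d * (c • Hs Φ y + s • (-Hs h y)).det := by
    have h4 := LinearMap.det_smul (-1 : ℝ) ((c • Hs Φ y + s • (-Hs h y) : E d →L[ℝ] E d) :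
      E d →ₗ[ℝ] E d)
    rw [finrank_euclideanSpace_fin] at h4
    exact h4
  rw [h3] at h1
  have h5 : ∏ i, (RT.rt (-(c • Hs Φ y)) (-Hs h y) i - s) = (-1) ^ d * ∏ i, (s - mu Φ h c y i) := by
    have h6 : ∀ i : Fin d, RT.rt (-(c • Hs Φ y)) (-Hs h y) i - s = (-1) * (s - mu Φ h c y i) := by
      intro i
      show mu Φ h c y i - s = _
      ring
    rw [Finset.prod_congr rfl fun i _ => h6 i, Finset.prod_mul_distrib, Finset.prod_const,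
      Finset.card_univ, Fintype.card_fin]
  rw [h5] at h1
  have h7 : ((-1 : ℝ) ^ d) ≠ 0 := pow_ne_zero _ (by norm_num)
  apply mul_left_cancel₀ h7
  rw [h1]
  ring

/-- The roots at a point of a reduction. -/
theorem geo_roots {d m : ℕ} {Λ : ℕ → ℝ} {Φ h : E d → ℝ} {c s R ρ b : ℝ} {ι : E m →ₗᵢ[ℝ] E d}
    {Y : E m → E d} {Q : E m → ℝ} {v : E m} (hΦ : ContDiff ℝ ∞ Φ) (hh : ContDiff ℝ ∞ h)
    (hb : 0 < b) (hρ : 0 < ρ) (hR : Red d m Λ (ph Φ h c s) R ρ ι Y Q v)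
    (hD : ∀ x, ⟪Hs h (Y v) x, x⟫ ≤ -(b * ‖x‖ ^ 2)) :
    ∃ I : Finset (Fin d), I.card = m ∧ (∀ i ∈ I, |s - mu Φ h c (Y v) i| ≤ b⁻¹ * ‖Hs Q v‖) ∧
      ∏ i ∈ I, |s - mu Φ h c (Y v) i| ≤ b⁻¹ ^ m * |(Hs Q v).det| := by
  have hP : Sy (c • Hs Φ (Y v)) := by
    intro x w
    simp only [smul_apply, real_inner_smul_left, real_inner_smul_right]
    rw [Hs_symm hΦ (Y v) x w]
  have hQ : Sy (-Hs h (Y v)) := by
    intro x w
    simp only [neg_apply, inner_neg_left, inner_neg_right]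
    rw [Hs_symm hh (Y v) x w]
  have hpos : ∀ x, b * ‖x‖ ^ 2 ≤ ⟪(-Hs h (Y v)) x, x⟫ := by
    intro x
    rw [neg_apply, inner_neg_left]
    linarith [hD x]
  refine red_roots hρ hR (contDiff_ph hΦ hh c s) hP hQ hb hpos
    (fun t => geo_det hΦ hh hb hD c t) ?_
  rw [Hs_ph hΦ hh]
  module

/-- The structure lemma, as a hypothesis with its exponent `C`. -/
def STRst (d m C : ℕ) : Prop :=
  ∀ (A Λ : ℕ → ℝ) (b δ : ℝ), 0 < b → 0 < δ →
    ∀ n0 J : ℕ, ∃ K0 : ℝ, 1 ≤ K0 ∧ ∀ K, K0 ≤ K →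
    ∀ (Φ h : E d → ℝ) (c s R ρ σ w : ℝ) (ι : E m →ₗᵢ[ℝ] E d) (Y : E m → E d) (Q : E m → ℝ)
      (v : E m), Sm d A Φ → Sm d A h → |c| ≤ K ^ n0 → |s| ≤ K ^ n0 → 0 ≤ R → R ≤ K ^ n0 →
      0 < ρ → ρ ≤ 1 → 1 ≤ w → 1 ≤ K ^ n0 * σ → K ^ C * σ ≤ ρ → (m = d ∨ K ^ C * w ≤ R) →
      Red d m Λ (ph Φ h c s) R ρ ι Y Q v → DfB b (Y v) δ h → ‖Hs Q v‖ ≤ w →
      Stab (mu Φ h c) K w σ (Y v) →
      ∀ j, 3 ≤ j → j ≤ J → ‖iteratedFDeriv ℝ j Q v‖ ≤ K ^ C * (w * σ ^ 2) / σ ^ j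

/-- The facts at one stage which do not depend on the rest of the chain. -/
theorem geo_stage {d m : ℕ} (hS : 2 ≤ m → ∃ C : ℕ, STRst d m C) : ∃ c : ℕ, 6 ≤ c ∧
    ∀ (A Λ : ℕ → ℝ) (b δ : ℝ), 0 < b → 0 < δ →
    ∀ n0 J : ℕ, ∃ K0 : ℝ, 2 ≤ K0 ∧ ∀ K, K0 ≤ K →
    ∀ (Φ h : E d → ℝ) (c' s R ρ r : ℝ) (ι : E m →ₗᵢ[ℝ] E d) (Y : E m → E d) (Q : E m → ℝ)
      (v : E m), Sm d A Φ → Sm d A h → |c'| ≤ K ^ n0 → |s| ≤ K ^ n0 → 0 < R → R ≤ K ^ n0 →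
      0 < ρ → ρ ≤ 1 → 1 ≤ K ^ 2 * (R * ρ ^ 2) →
      Red d m Λ (ph Φ h c' s) R ρ ι Y Q v → DfB b (Y v) δ h → Lv K J ρ Q v r →
      1 ≤ K ^ 6 * (R * r ^ 2) ∧
      (2 ≤ m → ρ ≤ K ^ c * r ∨ ∃ k : ℕ, ¬ Stab (mu Φ h c') K (2 ^ k) (K ^ c * r) (Y v)) := by
  classical
  obtain ⟨a, ha⟩ : ∃ a : ℕ, 2 ≤ m → STRst d m a := by
    by_cases hm : 2 ≤ m
    · obtain ⟨a, ha⟩ := hS hm
      exact ⟨a, fun _ => ha⟩
    · exact ⟨0, fun h => absurd h hm⟩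
  refine ⟨a + (a + 6), by omega, fun A Λ b δ hb hδ n0 J => ?_⟩
  obtain ⟨K1, hK1, hstr⟩ : ∃ K1 : ℝ, 1 ≤ K1 ∧ (2 ≤ m → ∀ K, K1 ≤ K →
    ∀ (Φ h : E d → ℝ) (c s R ρ σ w : ℝ) (ι : E m →ₗᵢ[ℝ] E d) (Y : E m → E d) (Q : E m → ℝ)
      (v : E m), Sm d A Φ → Sm d A h → |c| ≤ K ^ (n0 + 6) → |s| ≤ K ^ (n0 + 6) → 0 ≤ R →
      R ≤ K ^ (n0 + 6) → 0 < ρ → ρ ≤ 1 → 1 ≤ w → 1 ≤ K ^ (n0 + 6) * σ → K ^ a * σ ≤ ρ →
      (m = d ∨ K ^ a * w ≤ R) →
      Red d m Λ (ph Φ h c s) R ρ ι Y Q v → DfB b (Y v) δ h → ‖Hs Q v‖ ≤ w →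
      Stab (mu Φ h c) K w σ (Y v) →
      ∀ j, 3 ≤ j → j ≤ J → ‖iteratedFDeriv ℝ j Q v‖ ≤ K ^ a * (w * σ ^ 2) / σ ^ j) := by
    by_cases hm : 2 ≤ m
    · obtain ⟨K1, h1, h2⟩ := ha hm A Λ b δ hb hδ (n0 + 6) J
      exact ⟨K1, h1, fun _ => h2⟩
    · exact ⟨1, le_rfl, fun h => absurd h hm⟩
  have hsum : ∀ j, j ≤ J → Λ j ≤ ∑ i ∈ Finset.range (J + 1), |Λ i| := fun j hj =>
    (le_abs_self _).trans (Finset.single_le_sum (f := fun i => |Λ i|) (fun i _ => abs_nonneg _)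
      (Finset.mem_range.2 (by omega)))
  refine ⟨max (max 2 K1) (∑ i ∈ Finset.range (J + 1), |Λ i|),
    le_max_of_le_left (le_max_left _ _), fun K hK Φ h c' s R ρ r ι Y Q v hΦ hh hc hs hR hRK hρ
      hρ1 hRρ hRed hD hL => ?_⟩
  have hK2 : 2 ≤ K := (le_max_of_le_left (le_max_left _ _)).trans hK
  have hKK1 : K1 ≤ K := (le_max_of_le_left (le_max_right _ _)).trans hK
  have hΛ : ∀ j, j ≤ J → Λ j ≤ K := fun j hj => (hsum j hj).trans ((le_max_right _ _).trans hK)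
  have hK1' : 1 ≤ K := by linarith
  have hK0 : 0 < K := by linarith
  have hbd : ∀ j, 2 ≤ j → ‖iteratedFDeriv ℝ j Q v‖ ≤ Λ j * (R * ρ ^ 2) / ρ ^ j := fun j hj =>
    hRed.bdQ j hj v (by rw [sub_self, norm_zero]; exact hρ.le)
  have hlev := geo_lev hK1' hΛ hR hρ hRρ hbd hL
  refine ⟨hlev, fun hm => ?_⟩
  have hr : 0 < r := hL.1
  have hp : ∀ n : ℕ, K ^ n ≤ K ^ (n + 6) := fun n => pow_le_pow_right₀ hK1' (by omega)
  refine gi_drop hK2 hΛ hR hρ hρ1 (by omega) hbd hL fun k hst hHs hkR hKρ j hj3 hjJ => ?_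
  refine hstr hm K hKK1 Φ h c' s R ρ (K ^ (a + 6) * r) (2 ^ k) ι Y Q v hΦ hh
    (hc.trans (hp n0)) (hs.trans (hp n0)) hR.le (hRK.trans (hp n0)) hρ hρ1
    (one_le_pow₀ (by norm_num)) ?_ hKρ (Or.inr hkR) hRed hD hHs hst j hj3 hjJ
  -- `σ` is not too small
  have h1 : r ≤ 1 := by
    have := hL.2.1
    nlinarith
  have h2 : 1 ≤ K ^ (n0 + 6) * r ^ 2 := by
    calc (1 : ℝ) ≤ K ^ 6 * (R * r ^ 2) := hlev
      _ ≤ K ^ 6 * (K ^ n0 * r ^ 2) := by gcongr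
      _ = K ^ (n0 + 6) * r ^ 2 := by ring
  have h3 : r ^ 2 ≤ r := by nlinarith
  have h4 : (1 : ℝ) ≤ K ^ (a + 6) := one_le_pow₀ hK1'
  calc (1 : ℝ) ≤ K ^ (n0 + 6) * r ^ 2 := h2
    _ ≤ K ^ (n0 + 6) * r := mul_le_mul_of_nonneg_left h3 (by positivity)
    _ = K ^ (n0 + 6) * (1 * r) := by ring
    _ ≤ K ^ (n0 + 6) * (K ^ (a + 6) * r) := by gcongr

/-- The induction along the chain. -/
theorem gi_of_wt (d : ℕ) (hS : ∀ m, 2 ≤ m → m ≤ d → ∃ C : ℕ, STRst d m C) : ∀ m, m ≤ d →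
    ∃ C : ℕ, ∀ (A : ℕ → ℝ) (A' : ℕ → ℕ → ℝ) (Λ : ℕ → ℝ) (b δ : ℝ), 0 < b → 0 < δ →
    ∀ n0 J : ℕ, ∃ K0 : ℝ, 2 ≤ K0 ∧ ∀ K, K0 ≤ K →
    ∀ (Φ h : E d → ℝ) (c s R ρ w : ℝ) (ι : E m →ₗᵢ[ℝ] E d) (Y : E m → E d) (Q : E m → ℝ)
      (v : E m), Sm d A Φ → Sm d A h → |c| ≤ K ^ n0 → |s| ≤ K ^ n0 → 0 < R → R ≤ K ^ n0 →
      0 < ρ → ρ ≤ 1 → 1 ≤ K ^ 2 * (R * ρ ^ 2) →
      Red d m Λ (ph Φ h c s) R ρ ι Y Q v → DfB b (Y v) δ h → 0 ≤ w → Wt A' K J m ρ Q v w →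
      GI m C K R ρ (mu Φ h c) (Y v) s w := by
  intro m
  induction m with
  | zero =>
    intro _
    refine ⟨0, fun A A' Λ b δ hb hδ n0 J => ⟨2, le_rfl, fun K hK Φ h c s R ρ w ι Y Q v hΦ hh hc hs hR
      hRK hρ hρ1 hRρ hRed hD hw hWt => ?_⟩⟩
    left
    refine ⟨∅, Finset.card_empty, ?_⟩
    rw [Finset.prod_empty, mul_one, pow_zero]
    exact hWt
  | succ m ih =>
    intro hmd
    obtain ⟨C, hC⟩ := ih (by omega)
    obtain ⟨cs, hcs, hst⟩ := geo_stage (d := d) (m := m + 1) fun h => hS (m + 1) h hmd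
    refine ⟨2 * C + cs + (m + 1) + 6, fun A A' Λ b δ hb hδ n0 J => ?_⟩
    obtain ⟨Λ', hΛ'⟩ := reds_step (d := d) (m := m) Λ (A' m)
    obtain ⟨K1, hK1, h1⟩ := hst A Λ b δ hb hδ n0 J
    obtain ⟨K2, hK2, h2⟩ := hC A A' Λ' b δ hb hδ (n0 + 1) J
    refine ⟨max (max K1 K2) (max b⁻¹ (max (2 * (1 + |A' m 1|)) (max (|A' m 0| * |Λ 2|)
      (b⁻¹ * |A' m 0|)))), hK1.trans (le_max_of_le_left (le_max_left _ _)),
      fun K hK Φ h c s R ρ w ι Y Q v hΦ hh hc hs hR hRK hρ hρ1 hRρ hRed hD hw hWt => ?_⟩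
    have hKK1 : K1 ≤ K := (le_max_of_le_left (le_max_left _ _)).trans hK
    have hKK2 : K2 ≤ K := (le_max_of_le_left (le_max_right _ _)).trans hK
    have hKb : b⁻¹ ≤ K := (le_max_of_le_right (le_max_left _ _)).trans hK
    have hKA : 2 * (1 + |A' m 1|) ≤ K :=
      (le_max_of_le_right (le_max_of_le_right (le_max_left _ _))).trans hK
    have hKR : |A' m 0| * |Λ 2| ≤ K :=
      (le_max_of_le_right (le_max_of_le_right (le_max_of_le_right (le_max_left _ _)))).trans hK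
    have hKH : b⁻¹ * |A' m 0| ≤ K :=
      (le_max_of_le_right (le_max_of_le_right (le_max_of_le_right (le_max_right _ _)))).trans hK
    have hK2' : 2 ≤ K := hK1.trans hKK1
    have hK1' : 1 ≤ K := by linarith
    have hK0 : 0 < K := by linarith
    have hb0 : 0 < b⁻¹ := inv_pos.2 hb
    have hDy : ∀ x, ⟪Hs h (Y v) x, x⟫ ≤ -(b * ‖x‖ ^ 2) := hD (Y v) (by
      rw [sub_self, norm_zero]; exact hδ.le)
    obtain ⟨r, hL, hWt⟩ := hWt
    obtain ⟨hlev, hdrop⟩ := h1 K hKK1 Φ h c s R ρ r ι Y Q v hΦ hh hc hs hR hRK hρ hρ1 hRρ hRed hD hL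
    obtain ⟨I, hIc, hIH, hID⟩ := geo_roots hΦ.sm hh.sm hb hρ hRed hDy
    rcases hWt with ⟨hH, hw1, hdet⟩ | ⟨R', r', t, U, v', η, ψ, hRr, hr'0, hrr', hr'r, hv, hLeg, hWt⟩
    · exact gi_mono hK1' hR (gi_term hK1' hb hKb hL.2.1 hL.1 hlev hR (by omega) hw hw1 hH hdet I hIc
        hIH hID hdrop) (by omega)
    · -- the step
      have hr0 : 0 < r := hL.1
      have hr1 : r ≤ 1 := by
        have := hL.2.1
        nlinarith
      have hR'0 : 0 < R' := by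
        by_contra hcon
        push Not at hcon
        have : R' * r ^ 2 ≤ 0 := mul_nonpos_of_nonpos_of_nonneg hcon (by positivity)
        linarith
      have hR'1 : 1 ≤ R' := by
        have h3 : r ^ 2 ≤ 1 := pow_le_one₀ hr0.le hr1
        nlinarith
      have hself : ‖v' - v'‖ ≤ r' := by rw [sub_self, norm_zero]; exact hr'0.le
      have hpiv := hLeg.piv v' hself
      have hhes := hLeg.hes v' hself
      rw [← hv] at hpiv hhes
      have hHR : ‖Hs Q v‖ ≤ |Λ 2| * R := by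
        have h3 := norm_Hs_le hRed.smQ v
        have h4 := hRed.bdQ 2 le_rfl v (by rw [sub_self, norm_zero]; exact hρ.le)
        have h5 : Λ 2 * (R * ρ ^ 2) / ρ ^ 2 = Λ 2 * R := by field_simp
        rw [h5] at h4
        exact h3.trans (h4.trans (mul_le_mul_of_nonneg_right (le_abs_self _) hR.le))
      have hjn : ‖U (join (0 : E m) (1 : ℝ))‖ = 1 := by
        rw [LinearIsometryEquiv.norm_map]
        have h3 := rs_inner_join (0 : E m) 0 1 1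
        rw [real_inner_self_eq_norm_sq] at h3
        simp at h3
        rcases h3 with h3 | h3
        · exact h3
        · have := norm_nonneg (join (0 : E m) (1 : ℝ))
          linarith
      have hRR : R' ≤ K * R := by
        have h3 : |⟪Hs Q v (U (join 0 1)), U (join 0 1)⟫| ≤ ‖Hs Q v‖ := by
          refine (abs_real_inner_le_norm _ _).trans ?_
          rw [hjn, mul_one]
          have h4 := (Hs Q v).le_opNorm (U (join 0 1))
          rwa [hjn, mul_one] at h4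
        calc R' ≤ A' m 0 * |⟪Hs Q v (U (join 0 1)), U (join 0 1)⟫| := hpiv
          _ ≤ |A' m 0| * |⟪Hs Q v (U (join 0 1)), U (join 0 1)⟫| :=
              mul_le_mul_of_nonneg_right (le_abs_self _) (abs_nonneg _)
          _ ≤ |A' m 0| * (|Λ 2| * R) := mul_le_mul_of_nonneg_left (h3.trans hHR) (abs_nonneg _)
          _ = |A' m 0| * |Λ 2| * R := by ring
          _ ≤ K * R := mul_le_mul_of_nonneg_right hKR hR.le
      have hcard : m < (Finset.univ.filter fun i => |s - mu Φ h c (Y v) i| ≤ K * R').card := by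
        have h3 : I ⊆ Finset.univ.filter fun i => |s - mu Φ h c (Y v) i| ≤ K * R' := by
          intro i hi
          rw [Finset.mem_filter]
          refine ⟨Finset.mem_univ _, (hIH i hi).trans ?_⟩
          calc b⁻¹ * ‖Hs Q v‖ ≤ b⁻¹ * (A' m 0 * R') := mul_le_mul_of_nonneg_left hhes hb0.le
            _ ≤ b⁻¹ * (|A' m 0| * R') := by
                refine mul_le_mul_of_nonneg_left ?_ hb0.le
                exact mul_le_mul_of_nonneg_right (le_abs_self _) hR'0.le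
            _ = b⁻¹ * |A' m 0| * R' := by ring
            _ ≤ K * R' := mul_le_mul_of_nonneg_right hKH hR'0.le
        have h4 := Finset.card_le_card h3
        omega
      have hr'ρ : 2 * (1 + |A' m 1|) * r' ≤ ρ := by
        calc 2 * (1 + |A' m 1|) * r' ≤ K * r' := mul_le_mul_of_nonneg_right hKA hr'0.le
          _ ≤ K * r := mul_le_mul_of_nonneg_left hr'r hK0.le
          _ ≤ ρ := hL.2.1
      have hRed' := hΛ' (ph Φ h c s) R ρ ι Y Q v R' r' U t v' η ψ (contDiff_ph hΦ.sm hh.sm c s) hR hR'0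
        hr'0 hr'ρ hRed hLeg hv
      have hpp : K ^ n0 ≤ K ^ (n0 + 1) := pow_le_pow_right₀ hK1' (by omega)
      have hRK' : R' ≤ K ^ (n0 + 1) := by
        calc R' ≤ K * R := hRR
          _ ≤ K * K ^ n0 := mul_le_mul_of_nonneg_left hRK hK0.le
          _ = _ := by ring
      have hR'r' : 1 ≤ K ^ 2 * (R' * r' ^ 2) := by
        calc (1 : ℝ) ≤ R' * r ^ 2 := hRr
          _ ≤ R' * (K * r') ^ 2 := by gcongr
          _ = _ := by ring
      have hy : Y (U (join v' (η v'))) = Y v := by rw [← hv]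
      have hih := h2 K hKK2 Φ h c s R' r' (w * √R') _ (fun u => Y (U (join u (η u)))) ψ v' hΦ hh
        (hc.trans hpp) (hs.trans hpp) hR'0 hRK' hr'0 (by linarith) hR'r' hRed'
        (by show DfB b (Y (U (join v' (η v')))) δ h; rw [hy]; exact hD)
        (mul_nonneg hw (Real.sqrt_nonneg _)) hWt
      have hih' : GI m C K R' r' (mu Φ h c) (Y v) s (w * √R') := by
        rw [← hy]; exact hih
      exact gi_mono hK1' hR (gi_step hK2' hr'0 hrr' hr'r hL.2.1 hR'1 hR hRR hw hcard hdrop hih')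
        (by omega)

end Pool.Agent.GNP
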