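-- Pool/Agent/GNP/GEOT.lean
import Pool.Agent.GNP.Defs6
import Pool.Agent.GNP.GEO0

/-! The top of the chain: `q` itself is a reduction of `q`, and `GI` at the top gives `Geo`, `GeoN`. -/

namespace Pool.Agent.GNP

open MeasureTheory Set Pool.Agent.MP_6cbfb8_an
open scoped ENNReal Real RealInnerProductSpace ContDiff

/-- A phase is a reduction of itself. -/
theorem red_top (d : ℕ) (A : ℕ → ℝ) (q : E d → ℝ) (T ρ : ℝ) (y : E d) (hq : ContDiff ℝ ∞ q)
    (hT : 0 ≤ T) (hρ : 0 < ρ) (h : ∀ j, 2 ≤ j → ∀ u, ‖u - y‖ ≤ ρ → ‖iteratedFDeriv ℝ j q u‖ ≤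
      A j * (T * ρ ^ 2) / ρ ^ j) :
    Red d d (fun j => 1 + |A j|) q T ρ (LinearIsometry.id) id q y := by
  have hz : ∀ f : E d, (∀ x : E d, ⟪f, (LinearIsometry.id : E d →ₗᵢ[ℝ] E d) x⟫ = 0) → f = 0 :=
    fun f hf => by simpa using hf f
  refine ⟨contDiff_id, hq, fun u _ x => rfl, fun u _ x => rfl, ?_, ?_, ?_, ?_⟩
  · intro u _ f hf
    rw [hz f hf]; simp
  · intro u _ f hf
    exact ⟨0, by simp, by simp, by rw [hz f hf]; simp⟩
  · intro j hj u _
    have hl : 0 ≤ (1 + |A j|) * ρ / ρ ^ j := by positivity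
    rcases eq_or_lt_of_le hj with rfl | hj2
    · rw [pow_one, mul_div_assoc, div_self hρ.ne', mul_one]
      have h1 : ‖iteratedFDeriv ℝ 1 (id : E d → E d) u‖ ≤ 1 := by
        rw [norm_iteratedFDeriv_one, fderiv_id]
        exact ContinuousLinearMap.norm_id_le
      linarith [abs_nonneg (A 1)]
    · have h0 : iteratedFDeriv ℝ j (id : E d → E d) u = 0 := by
        have h2 : ‖iteratedFDeriv ℝ j (id : E d → E d) u‖ = 0 := by
          obtain ⟨k, rfl⟩ : ∃ k, j = k + 1 + 1 := ⟨j - 2, by omega⟩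
          rw [← norm_iteratedFDeriv_fderiv]
          have : fderiv ℝ (id : E d → E d) = fun _ => ContinuousLinearMap.id ℝ (E d) := by
            funext x; exact fderiv_id
          rw [this, iteratedFDeriv_const_of_ne (by omega)]
          simp
        exact norm_eq_zero.1 h2
      rw [h0, norm_zero]; exact hl
  · intro j hj u hu
    refine (h j hj u hu).trans ?_
    have h4 : A j * (T * ρ ^ 2) ≤ (1 + |A j|) * (T * ρ ^ 2) :=
      mul_le_mul_of_nonneg_right (by linarith [le_abs_self (A j)]) (by positivity)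
    exact div_le_div_of_nonneg_right h4 (by positivity)

/-- The exceptional scales in a cell of radius `ρ`: either `r` is comparable to `ρ`, or the gaps of
the roots are not stable at the scale `K^C r` for some floor. -/
def Uns {d : ℕ} (C : ℕ) (K ρ : ℝ) (μ : E d → Fin d → ℝ) (y : E d) (r : ℝ) : Prop :=
  ρ ≤ K ^ C * r ∨ ∃ k : ℕ, ¬ Stab μ K (2 ^ k) (K ^ C * r) y

theorem Uns.mono {d C : ℕ} {K ρ : ℝ} {μ : E d → Fin d → ℝ} {y : E d} {r r' : ℝ} (hK : 0 ≤ K)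
    (h : Uns C K ρ μ y r) (hr : r ≤ r') : Uns C K ρ μ y r' := by
  have h1 : K ^ C * r ≤ K ^ C * r' := mul_le_mul_of_nonneg_left hr (by positivity)
  rcases h with h | ⟨k, h⟩
  · exact Or.inl (h.trans h1)
  · exact Or.inr ⟨k, fun h2 => h (stab_mono h2 h1)⟩

theorem Uns.mono_exp {d C C' : ℕ} {K ρ : ℝ} {μ : E d → Fin d → ℝ} {y : E d} {r : ℝ} (hK : 1 ≤ K)
    (hr : 0 ≤ r) (hC : C ≤ C') (h : Uns C K ρ μ y r) : Uns C' K ρ μ y r := by
  have h1 : K ^ C * r ≤ K ^ C' * r :=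
    mul_le_mul_of_nonneg_right (pow_le_pow_right₀ hK hC) hr
  rcases h with h | ⟨k, h⟩
  · exact Or.inl (h.trans h1)
  · exact Or.inr ⟨k, fun h2 => h (stab_mono h2 h1)⟩

/-- For `ρ ≥ 1/K`. -/
theorem Uns.unst {d C : ℕ} {K ρ : ℝ} {μ : E d → Fin d → ℝ} {y : E d} {r : ℝ} (hK : 1 ≤ K)
    (hr : 0 ≤ r) (hρ : 1 ≤ K * ρ) (h : Uns C K ρ μ y r) : Unst μ K (C + 1) y r := by
  rcases h with h | ⟨k, h⟩
  · left
    calc (1 : ℝ) ≤ K * ρ := hρ
      _ ≤ K * (K ^ C * r) := mul_le_mul_of_nonneg_left h (by linarith)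
      _ = K ^ (C + 1) * r := by ring
  · refine Or.inr ⟨k, fun h2 => h (stab_mono h2 ?_)⟩
    exact mul_le_mul_of_nonneg_right (pow_le_pow_right₀ hK (by omega)) hr

/-- The top of the chain. -/
theorem geo_of_GI {d C : ℕ} {K R ρ : ℝ} {μ : E d → Fin d → ℝ} {y : E d} {s w : ℝ} (hρ1 : ρ ≤ 1)
    (h : GI d C K R ρ μ y s w) : Geo d C K (μ y) (Uns C K ρ μ y) s w := by
  rcases h with ⟨I, hI, hw⟩ | ⟨I, r, h1, _, hr, hrρ, ht, hw, hp, _, hU⟩
  · left
    have h2 : I = Finset.univ := Finset.card_eq_iff_eq_univ I |>.1 (by rw [hI, Fintype.card_fin])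
    rwa [h2] at hw
  · exact Or.inr ⟨I, r, h1, hr, hrρ.trans hρ1, ht, hw, hp, hU⟩

/-- The top of the chain, with the lower bound for the scale; any radius `ρ`. -/
theorem geoN_of_GI' {d C n : ℕ} {K R ρ : ℝ} {μ : E d → Fin d → ℝ} {y : E d} {s w : ℝ}
    (hK : 1 ≤ K) (hρ1 : ρ ≤ 1) (hR : R ≤ K ^ n) (h : GI d C K R ρ μ y s w) :
    GeoN d C (n + C) K (μ y) (Uns C K ρ μ y) s w := by
  rcases h with ⟨I, hI, hw⟩ | ⟨I, r, h1, _, hr, hrρ, ht, hw, hp, hl, hU⟩
  · left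
    have h2 : I = Finset.univ := Finset.card_eq_iff_eq_univ I |>.1 (by rw [hI, Fintype.card_fin])
    rwa [h2] at hw
  · refine Or.inr ⟨I, r, h1, ?_, hrρ.trans hρ1, ht, hw, hp, hU⟩
    have hr1 : r ≤ 1 := hrρ.trans hρ1
    have h3 : R * r ^ 2 ≤ K ^ n * r := by
      calc R * r ^ 2 ≤ K ^ n * r ^ 2 := mul_le_mul_of_nonneg_right hR (by positivity)
        _ ≤ K ^ n * r := by
            refine mul_le_mul_of_nonneg_left ?_ (by positivity)
            nlinarith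
    calc (1 : ℝ) ≤ K ^ C * (R * r ^ 2) := hl
      _ ≤ K ^ C * (K ^ n * r) := mul_le_mul_of_nonneg_left h3 (by positivity)
      _ = K ^ (n + C) * r := by ring

/-- The form of `geo` in the skeleton: `ρ ≥ 1/K`. -/
theorem geoN_of_GI {d C n : ℕ} {K R ρ : ℝ} {μ : E d → Fin d → ℝ} {y : E d} {s w : ℝ}
    (hK : 1 ≤ K) (hρ1 : ρ ≤ 1) (hρ : 1 ≤ K * ρ) (hR : R ≤ K ^ n)
    (h : GI d C K R ρ μ y s w) :
    GeoN d (C + 1) (n + (C + 1)) K (μ y) (Unst μ K (C + 1) y) s w := by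
  have hK0 : 0 < K := by linarith
  have e1 : K ^ C ≤ K ^ (C + 1) := pow_le_pow_right₀ hK (by omega)
  rcases geoN_of_GI' hK hρ1 hR h with h | ⟨I, r, h1, hr, hr1, ht, hw, hp, hU⟩
  · exact Or.inl (h.trans e1)
  · have hr0 : 0 < r := by
      by_contra h0
      push Not at h0
      have : K ^ (n + C) * r ≤ 0 := mul_nonpos_of_nonneg_of_nonpos (by positivity) h0
      linarith
    have e2 : K ^ C * r ^ (d - I.card) ≤ K ^ (C + 1) * r ^ (d - I.card) :=
      mul_le_mul_of_nonneg_right e1 (by positivity)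
    refine Or.inr ⟨I, r, h1, hr.trans ?_, hr1, fun i hi => (ht i hi).trans e1, hw.trans e2,
      hp.trans e2, fun h2 => (hU h2).unst hK hr0.le hρ⟩
    exact mul_le_mul_of_nonneg_right (pow_le_pow_right₀ hK (by omega)) hr0.le

end Pool.Agent.GNP
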