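-- Pool/Agent/GNP/GEOG.lean
import Pool.Agent.GNP.GEO
import Pool.Agent.GNP.GEOT

/-! From the chains to the types: the top of the chain. -/

namespace Pool.Agent.GNP

open MeasureTheory Set Pool.Agent.MP_6cbfb8_an
open scoped ENNReal Real RealInnerProductSpace ContDiff

theorem GeoN.mono {d C C' n : ℕ} {K : ℝ} {μ : Fin d → ℝ} {Un Un' : ℝ → Prop} {s w : ℝ}
    (hK : 1 ≤ K) (hC : C ≤ C') (hU : ∀ r, 0 < r → Un r → Un' r) (h : GeoN d C n K μ Un s w) :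
    GeoN d C' n K μ Un' s w := by
  have hK0 : 0 < K := by linarith
  have e1 : K ^ C ≤ K ^ C' := pow_le_pow_right₀ hK hC
  rcases h with h | ⟨I, r, h1, hr, hr1, ht, hw, hp, hU'⟩
  · exact Or.inl (h.trans e1)
  · have hr0 : 0 < r := by
      by_contra h0
      push Not at h0
      have : K ^ n * r ≤ 0 := mul_nonpos_of_nonneg_of_nonpos (by positivity) h0
      linarith
    have e2 : K ^ C * r ^ (d - I.card) ≤ K ^ C' * r ^ (d - I.card) :=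
      mul_le_mul_of_nonneg_right e1 (by positivity)
    exact Or.inr ⟨I, r, h1, hr, hr1, fun i hi => (ht i hi).trans e1, hw.trans e2, hp.trans e2,
      fun h2 => hU r hr0 (hU' h2)⟩

/-- The top of the chain in terms of `GI`, for a size `R` of the derivatives of the phase. -/
theorem geo_top {d : ℕ} (hS : ∀ m, 2 ≤ m → m ≤ d → ∃ C : ℕ, STRst d m C) : ∃ C : ℕ,
    ∀ (A : ℕ → ℝ) (A' : ℕ → ℕ → ℝ) (b δ : ℝ), 0 < b → 0 < δ → ∀ n0 n1 J : ℕ, n0 < n1 →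
    ∃ K0 : ℝ, 2 ≤ K0 ∧ ∀ K, K0 ≤ K →
    ∀ (Φ h : E d → ℝ) (c s ρ w : ℝ) (y : E d), Sm d A Φ → Sm d A h → |c| ≤ K ^ n0 →
      |s| ≤ K ^ n0 → DfB b y δ h → 0 < ρ → ρ ≤ 1 → 1 ≤ K ^ 2 * (K ^ n1 * ρ ^ 2) → 0 ≤ w →
      Wt A' K J d ρ (ph Φ h c s) y w → GI d C K (K ^ n1) ρ (mu Φ h c) y s w := by
  obtain ⟨C, hC⟩ := gi_of_wt d hS d le_rfl
  refine ⟨C, fun A A' b δ hb hδ n0 n1 J hn => ?_⟩
  obtain ⟨K1, hK1, h1⟩ := hC A A' (fun j => 1 + |A j|) b δ hb hδ n1 J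
  refine ⟨K1, hK1, fun K hK Φ h c s ρ w y hΦ hh hc hs hD hρ hρ1 hRρ hw hWt => ?_⟩
  have hK2 : 2 ≤ K := hK1.trans hK
  have hK1' : 1 ≤ K := by linarith
  have hK0 : 0 < K := by linarith
  have hpp : K ^ n0 ≤ K ^ n1 := pow_le_pow_right₀ hK1' hn.le
  have hR : 0 < K ^ n1 := by positivity
  have hcs : |c| + |s| ≤ K ^ n1 := by
    calc |c| + |s| ≤ 2 * K ^ n0 := by linarith
      _ ≤ K * K ^ n0 := mul_le_mul_of_nonneg_right hK2 (by positivity)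
      _ = K ^ (n0 + 1) := by ring
      _ ≤ K ^ n1 := pow_le_pow_right₀ hK1' (by omega)
  have hRed : Red d d (fun j => 1 + |A j|) (ph Φ h c s) (K ^ n1) ρ LinearIsometry.id id
      (ph Φ h c s) y := by
    refine red_top d A (ph Φ h c s) (K ^ n1) ρ y (contDiff_ph hΦ.sm hh.sm c s) hR.le hρ
      fun j hj u hu => ?_
    have hA : 0 ≤ A j := (norm_nonneg _).trans (hΦ.bd j u)
    have h2 : ‖iteratedFDeriv ℝ j (ph Φ h c s) u‖ ≤ (|c| + |s|) * A j := by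
      refine (ph_bound hΦ.sm hh.sm c s j u).trans ?_
      have h3 := mul_le_mul_of_nonneg_left (hΦ.bd j u) (abs_nonneg c)
      have h4 := mul_le_mul_of_nonneg_left (hh.bd j u) (abs_nonneg s)
      linarith
    obtain ⟨i, rfl⟩ : ∃ i, j = i + 2 := ⟨j - 2, by omega⟩
    have h3 : A (i + 2) * (K ^ n1 * ρ ^ 2) / ρ ^ (i + 2) = A (i + 2) * K ^ n1 / ρ ^ i := by
      rw [pow_add ρ i 2]
      field_simp
    rw [h3, le_div_iff₀ (by positivity)]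
    have h4 : ρ ^ i ≤ 1 := pow_le_one₀ hρ.le hρ1
    calc ‖iteratedFDeriv ℝ (i + 2) (ph Φ h c s) u‖ * ρ ^ i
        ≤ ‖iteratedFDeriv ℝ (i + 2) (ph Φ h c s) u‖ * 1 :=
          mul_le_mul_of_nonneg_left h4 (norm_nonneg _)
      _ ≤ (|c| + |s|) * A (i + 2) := by rw [mul_one]; exact h2
      _ ≤ K ^ n1 * A (i + 2) := mul_le_mul_of_nonneg_right hcs hA
      _ = A (i + 2) * K ^ n1 := by ring
  exact h1 K hK Φ h c s (K ^ n1) ρ w LinearIsometry.id id (ph Φ h c s) y hΦ hh (hc.trans hpp)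
    (hs.trans hpp) hR le_rfl hρ hρ1 hRρ hRed hD hw hWt

/-- From the chains to the types, given the structure lemma; cells of radius about one. -/
theorem geo_of_str {d : ℕ} (hS : ∀ m, 2 ≤ m → m ≤ d → ∃ C : ℕ, STRst d m C) : ∃ C : ℕ,
    ∀ (A : ℕ → ℝ) (A' : ℕ → ℕ → ℝ) (b δ : ℝ), 0 < b →
    0 < δ → ∀ n0 J : ℕ, ∃ K0 : ℝ, 1 ≤ K0 ∧ ∀ K, K0 ≤ K →
    ∀ (Φ h : E d → ℝ) (c s ρ w : ℝ) (y : E d), Sm d A Φ → Sm d A h → |c| ≤ K ^ n0 →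
      |s| ≤ K ^ n0 → DfB b y δ h → 1 ≤ K * ρ → ρ ≤ 1 → 0 ≤ w →
      Wt A' K J d ρ (ph Φ h c s) y w →
      GeoN d C (n0 + C) K (mu Φ h c y) (Unst (mu Φ h c) K C y) s w := by
  obtain ⟨C, hC⟩ := geo_top hS
  refine ⟨C + 2, fun A A' b δ hb hδ n0 J => ?_⟩
  obtain ⟨K1, hK1, h1⟩ := hC A A' b δ hb hδ n0 (n0 + 1) J (by omega)
  refine ⟨K1, by linarith, fun K hK Φ h c s ρ w y hΦ hh hc hs hD hKρ hρ1 hw hWt => ?_⟩
  have hK1' : 1 ≤ K := by linarith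
  have hK0 : 0 < K := by linarith
  have hρ : 0 < ρ := by
    by_contra h0
    push Not at h0
    nlinarith
  have hRρ : 1 ≤ K ^ 2 * (K ^ (n0 + 1) * ρ ^ 2) := by
    have h2 : 1 ≤ K ^ (n0 + 1) := one_le_pow₀ hK1'
    have h3 : 1 ≤ (K * ρ) ^ 2 := one_le_pow₀ hKρ
    calc (1 : ℝ) ≤ K ^ (n0 + 1) * (K * ρ) ^ 2 := one_le_mul_of_one_le_of_one_le h2 h3
      _ = _ := by ring
  have h2 := geoN_of_GI hK1' hρ1 hKρ (n := n0 + 1) le_rfl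
    (h1 K hK Φ h c s ρ w y hΦ hh hc hs hD hρ hρ1 hRρ hw hWt)
  have h3 : n0 + 1 + (C + 1) = n0 + (C + 2) := by ring
  rw [h3] at h2
  refine h2.mono hK1' (by omega) fun r hr hU => ?_
  have e1 : K ^ (C + 1) * r ≤ K ^ (C + 2) * r :=
    mul_le_mul_of_nonneg_right (pow_le_pow_right₀ hK1' (by omega)) hr.le
  rcases hU with hU | ⟨k, hU⟩
  · exact Or.inl (hU.trans e1)
  · exact Or.inr ⟨k, fun h4 => hU (stab_mono h4 e1)⟩

/-- The same for cells of any radius `ρ`. -/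
theorem geo_rho_of_str {d : ℕ} (hS : ∀ m, 2 ≤ m → m ≤ d → ∃ C : ℕ, STRst d m C) : ∃ C : ℕ,
    ∀ (A : ℕ → ℝ) (A' : ℕ → ℕ → ℝ) (b δ : ℝ), 0 < b →
    0 < δ → ∀ n0 J : ℕ, ∃ K0 : ℝ, 1 ≤ K0 ∧ ∀ K, K0 ≤ K →
    ∀ (Φ h : E d → ℝ) (c s ρ w : ℝ) (y : E d), Sm d A Φ → Sm d A h → |c| ≤ K ^ n0 →
      |s| ≤ K ^ n0 → DfB b y δ h → 1 ≤ K ^ n0 * ρ → ρ ≤ 1 → 0 ≤ w →
      Wt A' K J d ρ (ph Φ h c s) y w →
      GeoN d C (2 * n0 + C) K (mu Φ h c y) (Uns C K ρ (mu Φ h c) y) s w := by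
  obtain ⟨C, hC⟩ := geo_top hS
  refine ⟨C + 1, fun A A' b δ hb hδ n0 J => ?_⟩
  obtain ⟨K1, hK1, h1⟩ := hC A A' b δ hb hδ n0 (2 * n0 + 1) J (by omega)
  refine ⟨K1, by linarith, fun K hK Φ h c s ρ w y hΦ hh hc hs hD hKρ hρ1 hw hWt => ?_⟩
  have hK1' : 1 ≤ K := by linarith
  have hK0 : 0 < K := by linarith
  have hρ : 0 < ρ := by
    by_contra h0
    push Not at h0
    have : K ^ n0 * ρ ≤ 0 := mul_nonpos_of_nonneg_of_nonpos (by positivity) h0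
    linarith
  have hRρ : 1 ≤ K ^ 2 * (K ^ (2 * n0 + 1) * ρ ^ 2) := by
    have h2 : 1 ≤ K ^ 3 := one_le_pow₀ hK1'
    have h3 : 1 ≤ (K ^ n0 * ρ) ^ 2 := one_le_pow₀ hKρ
    calc (1 : ℝ) ≤ K ^ 3 * (K ^ n0 * ρ) ^ 2 := one_le_mul_of_one_le_of_one_le h2 h3
      _ = _ := by ring
  have h2 := geoN_of_GI' hK1' hρ1 (n := 2 * n0 + 1) le_rfl
    (h1 K hK Φ h c s ρ w y hΦ hh hc hs hD hρ hρ1 hRρ hw hWt)
  have h3 : 2 * n0 + 1 + C = 2 * n0 + (C + 1) := by ring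
  rw [h3] at h2
  exact h2.mono hK1' (by omega) fun r hr hU => hU.mono_exp hK1' hr.le (by omega)

end Pool.Agent.GNP
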