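import Pool.Agent.GNP.LAND
import Pool.Agent.GNP.TLg

/-!
The function `h` along a leaf, minus its first order Taylor polynomial.
-/

namespace Pool.Agent.GNP

open MeasureTheory Set Pool.Agent.MP_6cbfb8_an Pool.Agent.AP4X
open scoped ENNReal Real RealInnerProductSpace ContDiff

theorem TPT_zero {V : Type*} [NormedAddCommGroup V] [NormedSpace ℝ V] (q : V → ℝ) (y0 : V)
    (N i : ℕ) (hi : N < i) : iteratedFDeriv ℝ i (TPT q y0 N) = 0 := by
  have h : ∀ k ∈ Finset.range (N + 1), ContDiff ℝ (i : ℕ)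
      (fun y => TPp q y0 N k (fun _ => y - y0)) := fun k _ =>
    (TPp q y0 N k).contDiff.comp (contDiff_pi.mpr fun _ => contDiff_id.sub contDiff_const)
  have h1 : TPT q y0 N = fun y => ∑ k ∈ Finset.range (N + 1), TPp q y0 N k (fun _ => y - y0) := rfl
  rw [h1, iteratedFDeriv_sum h]
  apply Finset.sum_eq_zero
  intro k hk
  have hk' := Finset.mem_range.1 hk
  exact TP_hom_zero _ _ _ (by omega)

/-- The remainder of order two and its derivatives. -/
theorem hh_F {d : ℕ} {h : E d → ℝ} (hh : ContDiff ℝ ∞ h) (y0 y : E d) {δ B : ℝ} (hδ : 0 < δ)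
    (hB : ∀ y, ‖iteratedFDeriv ℝ 2 h y‖ ≤ B) (hy : ‖y - y0‖ ≤ δ) :
    |h y - TPT h y0 1 y| ≤ B * δ ^ 2 ∧
    ‖iteratedFDeriv ℝ 1 (fun y => h y - TPT h y0 1 y) y‖ ≤ B * δ ∧
    ∀ i, 2 ≤ i → iteratedFDeriv ℝ i (fun y => h y - TPT h y0 1 y) y = iteratedFDeriv ℝ i h y := by
  have h1 := TP_remainder hh y0 1 δ B hδ (fun y _ => hB y)
  refine ⟨?_, ?_, fun i hi => ?_⟩
  · have h2 := h1 2 le_rfl y hy
    rwa [Nat.sub_self, norm_iteratedFDeriv_zero, Real.norm_eq_abs] at h2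
  · have h2 := h1 1 (by norm_num) y hy
    simpa using h2
  · have h3 : ContDiffAt ℝ i h y := (hh.of_le (by norm_cast; exact le_top)).contDiffAt
    have h4 : ContDiffAt ℝ i (TPT h y0 1) y :=
      ((TPT_smooth h y0 1).of_le (by norm_cast; exact le_top)).contDiffAt
    have h5 : iteratedFDeriv ℝ i (fun y => h y - TPT h y0 1 y) y =
        iteratedFDeriv ℝ i h y - iteratedFDeriv ℝ i (TPT h y0 1) y :=
      iteratedFDeriv_sub_apply h3 h4
    rw [h5, TPT_zero h y0 1 i (by omega)]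
    simp

/-- The second derivative of a composition. -/
theorem hh_second {m d : ℕ} {F : E d → ℝ} {Y : E m → E d} (hF : ContDiff ℝ ∞ F)
    (hY : ContDiff ℝ ∞ Y) (v x u : E m) :
    ⟪Hs (F ∘ Y) v x, u⟫ = ⟪Hs F (Y v) (fderiv ℝ Y v x), fderiv ℝ Y v u⟫ +
      fderiv ℝ F (Y v) (fderiv ℝ (fderiv ℝ Y) v x u) := by
  rw [← pd_pd_eq (hF.comp hY), ← pd_pd_eq hF]
  have hdF : ∀ y, DifferentiableAt ℝ F y := fun y => (hF.differentiable (by simp)).differentiableAt
  have hdY : ∀ v, DifferentiableAt ℝ Y v := fun v => (hY.differentiable (by simp)).differentiableAt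
  have hdF2 : ∀ y, DifferentiableAt ℝ (fderiv ℝ F) y := fun y =>
    ((hF.fderiv_right (m := ∞) (by simp)).differentiable (by simp)).differentiableAt
  have hdY2 : ∀ v, DifferentiableAt ℝ (fderiv ℝ Y) v := fun v =>
    ((hY.fderiv_right (m := ∞) (by simp)).differentiable (by simp)).differentiableAt
  have h1 : pd u (F ∘ Y) = fun v => fderiv ℝ F (Y v) (fderiv ℝ Y v u) := by
    funext v
    rw [pd, fderiv_comp v (hdF _) (hdY v)]
    rfl
  have h2 : HasFDerivAt (fun v => fderiv ℝ F (Y v))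
      ((fderiv ℝ (fderiv ℝ F) (Y v)).comp (fderiv ℝ Y v)) v :=
    (hdF2 (Y v)).hasFDerivAt.comp v (hdY v).hasFDerivAt
  have h3 : HasFDerivAt (fun v => fderiv ℝ Y v u)
      ((ContinuousLinearMap.apply ℝ (E d) u).comp (fderiv ℝ (fderiv ℝ Y) v)) v :=
    (ContinuousLinearMap.apply ℝ (E d) u).hasFDerivAt.comp v (hdY2 v).hasFDerivAt
  have h4 := h2.clm_apply h3
  have h5 : pd (fderiv ℝ Y v x) (pd (fderiv ℝ Y v u) F) (Y v) =
      fderiv ℝ (fderiv ℝ F) (Y v) (fderiv ℝ Y v x) (fderiv ℝ Y v u) := by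
    have h6 : pd (fderiv ℝ Y v u) F = fun z => fderiv ℝ F z (fderiv ℝ Y v u) := rfl
    rw [pd, h6, fderiv_clm_apply (hdF2 _) (differentiableAt_const _)]
    simp
  rw [h1, pd, h4.fderiv, h5]
  simp only [add_apply, ContinuousLinearMap.comp_apply, ContinuousLinearMap.flip_apply,
    ContinuousLinearMap.apply_apply]
  ring

theorem hh_exists (m d : ℕ) (A A' : ℕ → ℝ) : ∃ C : ℕ → ℝ, (∀ j, 0 < C j) ∧
    ∀ (h : E d → ℝ) (Y : E m → E d) (v0 : E m) (ρ : ℝ), Sm d A h → ContDiff ℝ ∞ Y → 0 < ρ →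
    ρ ≤ 1 → (∀ v, ‖v - v0‖ ≤ ρ → ∀ j, 1 ≤ j → ‖iteratedFDeriv ℝ j Y v‖ ≤ A' j * ρ / ρ ^ j) →
    ∃ hh : E m → ℝ, ContDiff ℝ ∞ hh ∧
      (∀ v, ‖v - v0‖ ≤ ρ → ∀ j, ‖iteratedFDeriv ℝ j hh v‖ ≤ C j * (ρ ^ 2 / ρ ^ j)) ∧
      ∀ σ, 0 < σ → σ ≤ ρ → ∀ v, ‖v - v0‖ ≤ σ → ∀ x u,
        |⟪Hs hh v x, u⟫ - ⟪Hs h (Y v) (fderiv ℝ Y v x), fderiv ℝ Y v u⟫| ≤
          C 0 * (σ / ρ) * ‖x‖ * ‖u‖ := by
  set B : ℝ := |A 2| with hB
  have hB0 : 0 ≤ B := abs_nonneg _
  set D1 : ℝ := |A' 1| + 1 with hD1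
  have hD10 : 0 < D1 := by positivity
  set D0 : ℕ → ℝ := fun n => 1 + ∑ i ∈ Finset.range (n + 1), |A' i| with hD0
  have hD01 : ∀ n, 1 ≤ D0 n := fun n => by
    have : 0 ≤ ∑ i ∈ Finset.range (n + 1), |A' i| := Finset.sum_nonneg fun _ _ => abs_nonneg _
    simp only [hD0]
    linarith
  set C0 : ℕ → ℝ := fun n => B * (1 + D1) ^ 2 + ∑ i ∈ Finset.range (n + 1), |A i| with hC0
  have hC00 : ∀ n, 0 ≤ C0 n := fun n => by
    have : 0 ≤ ∑ i ∈ Finset.range (n + 1), |A i| := Finset.sum_nonneg fun _ _ => abs_nonneg _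
    simp only [hC0]
    positivity
  refine ⟨fun n => n.factorial * C0 n * D0 n ^ n + B * D1 * (|A' 2| + 1) + 1, fun n => ?_, ?_⟩
  · have := hC00 n
    have := hD01 n
    positivity
  intro h Y v0 ρ hh hY hρ hρ1 hYb
  set y0 : E d := Y v0 with hy0
  set F : E d → ℝ := fun y => h y - TPT h y0 1 y with hF
  have hFs : ContDiff ℝ ∞ F := hh.sm.sub (TPT_smooth h y0 1)
  have hB2 : ∀ y, ‖iteratedFDeriv ℝ 2 h y‖ ≤ B := fun y => (hh.bd 2 y).trans (le_abs_self _)
  -- `Y` is Lipschitz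
  have hlip : ∀ σ, 0 < σ → σ ≤ ρ → ∀ v, ‖v - v0‖ ≤ σ → ‖Y v - y0‖ ≤ D1 * σ := by
    intro σ hσ hσρ v hv
    have h1 := Convex.norm_image_sub_le_of_norm_fderiv_le (𝕜 := ℝ) (f := Y)
      (s := Metric.closedBall v0 ρ) (C := D1) (x := v0) (y := v)
      (fun x _ => (hY.differentiable (by simp)).differentiableAt)
      (fun x hx => by
        rw [mem_closedBall_iff_norm] at hx
        have h2 := hYb x hx 1 le_rfl
        rw [norm_iteratedFDeriv_one] at h2
        refine h2.trans ?_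
        rw [pow_one, mul_div_assoc, div_self hρ.ne', mul_one]
        have := le_abs_self (A' 1)
        linarith)
      (convex_closedBall v0 ρ) (by simp [hρ.le]) (by
        rw [mem_closedBall_iff_norm]
        exact hv.trans hσρ)
    exact h1.trans (mul_le_mul_of_nonneg_left hv hD10.le)
  refine ⟨F ∘ Y, hFs.comp hY, ?_, ?_⟩
  · intro v hv n
    set f : E m → E d := fun v => ρ⁻¹ • Y v with hf
    set g : E d → ℝ := fun z => F (ρ • z) with hg
    have hgf : F ∘ Y = g ∘ f := by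
      funext v
      simp only [Function.comp_apply, hg, hf]
      rw [smul_inv_smul₀ hρ.ne']
    have hgs : ContDiff ℝ ∞ g := hFs.comp (contDiff_id.const_smul ρ)
    have hfs : ContDiff ℝ ∞ f := hY.const_smul ρ⁻¹
    have hn : ((n : ℕ∞) : WithTop ℕ∞) ≤ (∞ : WithTop ℕ∞) := by exact_mod_cast le_top
    have hfv : ρ • f v = Y v := by
      simp only [hf]
      rw [smul_inv_smul₀ hρ.ne']
    have hFv := hh_F hh.sm y0 (Y v) (mul_pos hD10 hρ) hB2 (hlip ρ hρ le_rfl v hv)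
    have hgb : ∀ i, i ≤ n → ‖iteratedFDeriv ℝ i g (f v)‖ ≤ C0 n * ρ ^ 2 := by
      intro i hi
      have h1 := land_scale hFs (0 : E d) hρ i (f v)
      simp only [zero_add] at h1
      rw [hfv] at h1
      have h2 : ‖iteratedFDeriv ℝ i g (f v)‖ = ρ ^ i * ‖iteratedFDeriv ℝ i F (Y v)‖ := h1
      rw [h2]
      have hsum0 : 0 ≤ ∑ i ∈ Finset.range (n + 1), |A i| :=
        Finset.sum_nonneg fun _ _ => abs_nonneg _
      rcases i with _ | _ | i
      · rw [pow_zero, one_mul, norm_iteratedFDeriv_zero, Real.norm_eq_abs]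
        refine hFv.1.trans ?_
        simp only [hC0]
        rw [add_mul]
        have h3 : B * (D1 * ρ) ^ 2 ≤ B * (1 + D1) ^ 2 * ρ ^ 2 := by
          rw [mul_pow, mul_assoc]
          gcongr
          linarith
        have : 0 ≤ (∑ i ∈ Finset.range (n + 1), |A i|) * ρ ^ 2 := by positivity
        linarith
      · have h4 : ‖iteratedFDeriv ℝ (0 + 1) F (Y v)‖ ≤ B * (D1 * ρ) := hFv.2.1
        calc ρ ^ (0 + 1) * ‖iteratedFDeriv ℝ (0 + 1) F (Y v)‖ ≤ ρ ^ (0 + 1) * (B * (D1 * ρ)) := by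
              gcongr
          _ = B * D1 * ρ ^ 2 := by ring
          _ ≤ C0 n * ρ ^ 2 := by
              simp only [hC0]
              have h5 : B * D1 ≤ B * (1 + D1) ^ 2 := by
                refine mul_le_mul_of_nonneg_left ?_ hB0
                nlinarith
              refine mul_le_mul_of_nonneg_right ?_ (by positivity)
              linarith
      · rw [hFv.2.2 (i + 1 + 1) (by omega)]
        have h5 : ‖iteratedFDeriv ℝ (i + 1 + 1) h (Y v)‖ ≤ |A (i + 1 + 1)| :=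
          (hh.bd _ _).trans (le_abs_self _)
        have h6 : |A (i + 1 + 1)| ≤ ∑ i ∈ Finset.range (n + 1), |A i| :=
          Finset.single_le_sum (f := fun i => |A i|) (fun _ _ => abs_nonneg _)
            (Finset.mem_range.2 (by omega))
        have h7 : ρ ^ (i + 1 + 1) ≤ ρ ^ 2 := pow_le_pow_of_le_one hρ.le hρ1 (by omega)
        calc ρ ^ (i + 1 + 1) * ‖iteratedFDeriv ℝ (i + 1 + 1) h (Y v)‖
            ≤ ρ ^ 2 * ∑ i ∈ Finset.range (n + 1), |A i| :=
              mul_le_mul h7 (h5.trans h6) (norm_nonneg _) (by positivity)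
          _ ≤ C0 n * ρ ^ 2 := by
              simp only [hC0]
              have : 0 ≤ B * (1 + D1) ^ 2 * ρ ^ 2 := by positivity
              linarith
    have hfb : ∀ i, 1 ≤ i → i ≤ n → ‖iteratedFDeriv ℝ i f v‖ ≤ (D0 n / ρ) ^ i := by
      intro i hi hin
      have h1 : iteratedFDeriv ℝ i f v = ρ⁻¹ • iteratedFDeriv ℝ i Y v := by
        have hi' : ((i : ℕ∞) : WithTop ℕ∞) ≤ (∞ : WithTop ℕ∞) := by exact_mod_cast le_top
        have h11 : f = ρ⁻¹ • Y := rfl
        rw [h11]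
        exact iteratedFDeriv_const_smul_apply (a := ρ⁻¹) (f := Y) (hY.of_le hi').contDiffAt
      rw [h1, norm_smul, Real.norm_eq_abs, abs_of_pos (inv_pos.2 hρ), div_pow]
      have h2 := hYb v hv i hi
      have h3 : |A' i| ≤ ∑ i ∈ Finset.range (n + 1), |A' i| :=
        Finset.single_le_sum (f := fun i => |A' i|) (fun _ _ => abs_nonneg _)
          (Finset.mem_range.2 (by omega))
      have h4 : A' i ≤ D0 n ^ i := by
        have h5 : D0 n ≤ D0 n ^ i := le_self_pow₀ (hD01 n) (by omega)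
        have h6 := le_abs_self (A' i)
        have h7 : |A' i| ≤ D0 n := by
          simp only [hD0]
          linarith
        linarith
      calc ρ⁻¹ * ‖iteratedFDeriv ℝ i Y v‖ ≤ ρ⁻¹ * (A' i * ρ / ρ ^ i) := by gcongr
        _ = A' i / ρ ^ i := by field_simp
        _ ≤ D0 n ^ i / ρ ^ i := by gcongr
    have h8 := norm_iteratedFDeriv_comp_le hgs hfs hn v hgb hfb
    rw [hgf]
    refine h8.trans ?_
    rw [div_pow]
    have h9 : 0 ≤ ρ ^ 2 / ρ ^ n := by positivity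
    calc (n.factorial : ℝ) * (C0 n * ρ ^ 2) * (D0 n ^ n / ρ ^ n)
        = (n.factorial * C0 n * D0 n ^ n) * (ρ ^ 2 / ρ ^ n) := by ring
      _ ≤ _ := by
          refine mul_le_mul_of_nonneg_right ?_ h9
          have : 0 ≤ B * D1 * (|A' 2| + 1) := by positivity
          linarith
  · intro σ hσ hσρ v hv x u
    have hvρ : ‖v - v0‖ ≤ ρ := hv.trans hσρ
    have hFv := hh_F hh.sm y0 (Y v) (mul_pos hD10 hσ) hB2 (hlip σ hσ hσρ v hv)
    have h1 := hh_second hFs hY v x u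
    have h2 : ∀ a b, ⟪Hs F (Y v) a, b⟫ = ⟪Hs h (Y v) a, b⟫ := by
      intro a b
      have h3 := hFv.2.2 2 le_rfl
      have h4 := congrArg (fun T => T ![a, b]) h3
      simp only [iteratedFDeriv_two_apply, Matrix.cons_val_zero, Matrix.cons_val_one] at h4
      rw [← pd_pd_eq hFs, ← pd_pd_eq hh.sm]
      have h5 : ∀ {f : E d → ℝ}, ContDiff ℝ ∞ f → pd a (pd b f) (Y v) =
          fderiv ℝ (fderiv ℝ f) (Y v) a b := by
        intro f hf
        have hd : DifferentiableAt ℝ (fderiv ℝ f) (Y v) :=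
          ((hf.fderiv_right (m := ∞) (by simp)).differentiable (by simp)).differentiableAt
        have h6 : pd b f = fun z => fderiv ℝ f z b := rfl
        rw [pd, h6, fderiv_clm_apply hd (differentiableAt_const _)]
        simp
      rw [h5 hFs, h5 hh.sm]
      exact h4
    rw [h1, h2, add_sub_cancel_left]
    have h3 : ‖fderiv ℝ F (Y v)‖ ≤ B * (D1 * σ) := by
      rw [← norm_iteratedFDeriv_one]
      exact hFv.2.1
    have h4 : ‖fderiv ℝ (fderiv ℝ Y) v‖ ≤ |A' 2| / ρ := by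
      have h5 := hYb v hvρ 2 (by norm_num)
      rw [← norm_iteratedFDeriv_fderiv, norm_iteratedFDeriv_one] at h5
      refine h5.trans ?_
      rw [div_le_div_iff₀ (by positivity) hρ]
      have := le_abs_self (A' 2)
      have h6 : 0 ≤ ρ ^ 2 := by positivity
      nlinarith
    rw [← Real.norm_eq_abs]
    calc ‖fderiv ℝ F (Y v) (fderiv ℝ (fderiv ℝ Y) v x u)‖
        ≤ ‖fderiv ℝ F (Y v)‖ * (‖fderiv ℝ (fderiv ℝ Y) v‖ * ‖x‖ * ‖u‖) := by
          refine (ContinuousLinearMap.le_opNorm _ _).trans ?_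
          refine mul_le_mul_of_nonneg_left ?_ (norm_nonneg _)
          refine (ContinuousLinearMap.le_opNorm _ _).trans ?_
          exact mul_le_mul_of_nonneg_right (ContinuousLinearMap.le_opNorm _ _) (norm_nonneg _)
      _ ≤ (B * (D1 * σ)) * (|A' 2| / ρ * ‖x‖ * ‖u‖) := by gcongr
      _ = B * D1 * |A' 2| * (σ / ρ) * ‖x‖ * ‖u‖ := by ring
      _ ≤ _ := by
          have h7 : 0 ≤ (Nat.factorial 0 : ℝ) * C0 0 * D0 0 ^ 0 := by
            have := hC00 0
            positivity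
          have h8 : B * D1 * |A' 2| ≤
              (Nat.factorial 0 : ℝ) * C0 0 * D0 0 ^ 0 + B * D1 * (|A' 2| + 1) + 1 := by
            have : 0 ≤ B * D1 := by positivity
            nlinarith
          gcongr

end Pool.Agent.GNP
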