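import Pool.Agent.GNP.TP
import Mathlib.LinearAlgebra.Lagrange

/-!
Interpolation between the size of a function and its high derivatives, on balls, with values in a
normed space.
-/

namespace Pool.Agent.GNP

open Set Polynomial
open scoped ContDiff

universe u

/-- The coefficients of a polynomial are controlled by its values on the unit interval. -/
theorem int_coeff (N : ℕ) : ∃ C : ℝ, 0 < C ∧ ∀ (c : ℕ → ℝ) (M : ℝ),
    (∀ t : ℝ, 0 ≤ t → t ≤ 1 → |∑ k ∈ Finset.range (N + 1), c k * t ^ k| ≤ M) →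
    ∀ k ≤ N, |c k| ≤ C * M := by
  classical
  set v : ℕ → ℝ := fun j => (j : ℝ) / (N + 1) with hv
  have hinj : Set.InjOn v (Finset.range (N + 1) : Finset ℕ) := by
    intro i _ j _ hij
    have h0 : ((N : ℝ) + 1) ≠ 0 := by positivity
    simp only [hv] at hij
    rw [div_left_inj' h0] at hij
    exact_mod_cast hij
  set C : ℝ := ∑ k ∈ Finset.range (N + 1), ∑ j ∈ Finset.range (N + 1),
    |(Lagrange.basis (Finset.range (N + 1)) v j).coeff k| with hC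
  have hC0 : 0 ≤ C := Finset.sum_nonneg fun _ _ => Finset.sum_nonneg fun _ _ => abs_nonneg _
  refine ⟨C + 1, by positivity, ?_⟩
  intro c M h k hk
  have hM : 0 ≤ M := (abs_nonneg _).trans (h 0 le_rfl zero_le_one)
  set P : ℝ[X] := ∑ k ∈ Finset.range (N + 1), Polynomial.C (c k) * X ^ k with hP
  have hPe : ∀ t : ℝ, P.eval t = ∑ k ∈ Finset.range (N + 1), c k * t ^ k := by
    intro t
    rw [hP, eval_finsetSum]
    simp
  have hPc : ∀ k ≤ N, P.coeff k = c k := by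
    intro k hk
    rw [hP, finsetSum_coeff]
    simp only [coeff_C_mul_X_pow]
    rw [Finset.sum_ite_eq, if_pos (Finset.mem_range.2 (Nat.lt_succ_of_le hk))]
  have hdeg : P.degree < (Finset.range (N + 1)).card := by
    rw [Finset.card_range, hP]
    exact (degree_lt_iff_coeff_zero _ _).2 fun m hm => by
      rw [finsetSum_coeff]
      refine Finset.sum_eq_zero fun k hk => ?_
      rw [coeff_C_mul_X_pow, if_neg]
      have := Finset.mem_range.1 hk
      omega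
  have hint := Lagrange.eq_interpolate hinj hdeg
  have h1 : c k = ∑ j ∈ Finset.range (N + 1),
      P.eval (v j) * (Lagrange.basis (Finset.range (N + 1)) v j).coeff k := by
    rw [← hPc k hk]
    conv_lhs => rw [hint]
    rw [Lagrange.interpolate_apply, finsetSum_coeff]
    simp only [coeff_C_mul]
  have h2 : ∀ j ∈ Finset.range (N + 1), |P.eval (v j)| ≤ M := by
    intro j hj
    rw [hPe]
    refine h _ (by simp only [hv]; positivity) ?_
    simp only [hv]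
    rw [div_le_one (by positivity)]
    have := Finset.mem_range.1 hj
    exact_mod_cast this.le
  rw [h1]
  calc |∑ j ∈ Finset.range (N + 1),
        P.eval (v j) * (Lagrange.basis (Finset.range (N + 1)) v j).coeff k|
      ≤ ∑ j ∈ Finset.range (N + 1),
        |P.eval (v j) * (Lagrange.basis (Finset.range (N + 1)) v j).coeff k| :=
        Finset.abs_sum_le_sum_abs _ _
    _ ≤ ∑ j ∈ Finset.range (N + 1),
        M * |(Lagrange.basis (Finset.range (N + 1)) v j).coeff k| := by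
        refine Finset.sum_le_sum fun j hj => ?_
        rw [abs_mul]
        exact mul_le_mul_of_nonneg_right (h2 j hj) (abs_nonneg _)
    _ = M * ∑ j ∈ Finset.range (N + 1),
        |(Lagrange.basis (Finset.range (N + 1)) v j).coeff k| := by rw [Finset.mul_sum]
    _ ≤ M * C := by
        refine mul_le_mul_of_nonneg_left ?_ hM
        exact Finset.single_le_sum (f := fun k => ∑ j ∈ Finset.range (N + 1),
          |(Lagrange.basis (Finset.range (N + 1)) v j).coeff k|)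
          (fun _ _ => Finset.sum_nonneg fun _ _ => abs_nonneg _)
          (Finset.mem_range.2 (Nat.lt_succ_of_le hk))
    _ ≤ (C + 1) * M := by nlinarith

/-- The first derivative, real valued functions. -/
theorem int_first_real (N : ℕ) (hN : 1 ≤ N) : ∃ C : ℝ, 0 < C ∧ ∀ (V : Type u)
    [NormedAddCommGroup V] [NormedSpace ℝ V] [CompleteSpace V] (q : V → ℝ) (v : V) (τ a b : ℝ),
    ContDiff ℝ ∞ q → 0 < τ → (∀ y, ‖y - v‖ ≤ τ → |q y| ≤ a) →
    (∀ y, ‖y - v‖ ≤ τ → ‖iteratedFDeriv ℝ (N + 1) q y‖ ≤ b) → ∀ e : V, ‖e‖ ≤ 1 →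
    |fderiv ℝ q v e| ≤ C * τ⁻¹ * (a + b * τ ^ (N + 1)) := by
  obtain ⟨C, hC, hc⟩ := int_coeff N
  refine ⟨C, hC, ?_⟩
  intro V _ _ _ q v τ a b hq hτ ha hb e he
  have hrem := TP_remainder hq v N τ b hτ hb (N + 1) le_rfl
  set c : ℕ → ℝ := fun k => ((k.factorial : ℝ)⁻¹ * iteratedFDeriv ℝ k q v fun _ => e) * τ ^ k
    with hcdef
  have h1 : ∀ t : ℝ, TPT q v N (v + (t * τ) • e) =
      ∑ k ∈ Finset.range (N + 1), c k * t ^ k := by
    intro t
    unfold TPT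
    refine Finset.sum_congr rfl fun k hk => ?_
    have hk' : k ≤ N := Nat.lt_succ_iff.1 (Finset.mem_range.1 hk)
    unfold TPp
    rw [if_pos hk']
    simp only [add_sub_cancel_left, smul_apply, smul_eq_mul, hcdef]
    rw [(iteratedFDeriv ℝ k q v).map_smul_univ (fun _ => t * τ) (fun _ => e)]
    simp only [Finset.prod_const, Finset.card_univ, Fintype.card_fin, smul_eq_mul]
    rw [mul_pow]
    ring
  have h2 : ∀ t : ℝ, 0 ≤ t → t ≤ 1 →
      |∑ k ∈ Finset.range (N + 1), c k * t ^ k| ≤ a + b * τ ^ (N + 1) := by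
    intro t ht0 ht1
    rw [← h1]
    have hy : ‖v + (t * τ) • e - v‖ ≤ τ := by
      rw [add_sub_cancel_left, norm_smul, Real.norm_of_nonneg (by positivity)]
      calc t * τ * ‖e‖ ≤ 1 * τ * 1 := by gcongr
        _ = τ := by ring
    have h3 := hrem _ hy
    rw [Nat.sub_self, norm_iteratedFDeriv_zero, Real.norm_eq_abs] at h3
    have h4 := ha _ hy
    have h5 : TPT q v N (v + (t * τ) • e) = q (v + (t * τ) • e) -
        (q (v + (t * τ) • e) - TPT q v N (v + (t * τ) • e)) := by ring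
    rw [h5]
    exact (abs_sub _ _).trans (add_le_add h4 h3)
  have h6 := hc c _ h2 1 hN
  have h7 : c 1 = fderiv ℝ q v e * τ := by
    simp only [hcdef, Nat.factorial_one, Nat.cast_one, inv_one, one_mul, pow_one]
    rw [iteratedFDeriv_one_apply]
  rw [h7, abs_mul, abs_of_pos hτ] at h6
  rw [show C * τ⁻¹ * (a + b * τ ^ (N + 1)) = C * (a + b * τ ^ (N + 1)) / τ by
    rw [div_eq_mul_inv]; ring, le_div_iff₀ hτ]
  exact h6

/-- The first derivative. -/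
theorem int_first (N : ℕ) (hN : 1 ≤ N) : ∃ C : ℝ, 0 < C ∧ ∀ (V F : Type u)
    [NormedAddCommGroup V] [NormedSpace ℝ V] [CompleteSpace V] [NormedAddCommGroup F]
    [NormedSpace ℝ F] (f : V → F) (v : V) (τ a b : ℝ),
    ContDiff ℝ ∞ f → 0 < τ → 0 ≤ a → 0 ≤ b → (∀ y, ‖y - v‖ ≤ τ → ‖f y‖ ≤ a) →
    (∀ y, ‖y - v‖ ≤ τ → ‖iteratedFDeriv ℝ (N + 1) f y‖ ≤ b) →
    ‖fderiv ℝ f v‖ ≤ C * τ⁻¹ * (a + b * τ ^ (N + 1)) := by
  obtain ⟨C, hC, hc⟩ := int_first_real.{u} N hN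
  refine ⟨C, hC, ?_⟩
  intro V F _ _ _ _ _ f v τ a b hf hτ ha0 hb0 ha hb
  have hM : 0 ≤ C * τ⁻¹ * (a + b * τ ^ (N + 1)) := by positivity
  refine ContinuousLinearMap.opNorm_le_of_unit_norm hM fun e he => ?_
  refine NormedSpace.norm_le_dual_bound ℝ _ hM fun φ => ?_
  have h1 : fderiv ℝ (fun y => φ (f y)) v e = φ (fderiv ℝ f v e) := by
    have h2 : HasFDerivAt (fun y => φ (f y)) (φ.comp (fderiv ℝ f v)) v :=
      φ.hasFDerivAt.comp v ((hf.differentiable (by simp)) v).hasFDerivAt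
    rw [h2.fderiv]
    rfl
  have h3 := hc V (fun y => φ (f y)) v τ (‖φ‖ * a) (‖φ‖ * b) (φ.contDiff.comp hf) hτ
    (fun y hy => (φ.le_opNorm _).trans (mul_le_mul_of_nonneg_left (ha y hy) (norm_nonneg _)))
    (fun y hy => by
      have h4 : ‖iteratedFDeriv ℝ (N + 1) (φ ∘ f) y‖ ≤ ‖φ‖ * ‖iteratedFDeriv ℝ (N + 1) f y‖ :=
        φ.norm_iteratedFDeriv_comp_left hf.contDiffAt (by exact_mod_cast le_top)
      exact h4.trans (mul_le_mul_of_nonneg_left (hb y hy) (norm_nonneg _))) e he.le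
  rw [h1] at h3
  rw [Real.norm_eq_abs]
  refine h3.trans (le_of_eq ?_)
  ring

/-- All derivatives, by induction on the order. -/
theorem int_iter (N : ℕ) (hN : 1 ≤ N) : ∃ C : ℝ, 1 ≤ C ∧ ∀ (i : ℕ) (V F : Type u)
    [NormedAddCommGroup V] [NormedSpace ℝ V] [CompleteSpace V] [NormedAddCommGroup F]
    [NormedSpace ℝ F] (f : V → F) (v : V) (ρ τ a b : ℝ),
    ContDiff ℝ ∞ f → 0 < τ → 0 ≤ a → 0 ≤ b → (∀ y, ‖y - v‖ ≤ ρ → ‖f y‖ ≤ a) →
    (∀ j, N < j → j ≤ N + i → ∀ y, ‖y - v‖ ≤ ρ → ‖iteratedFDeriv ℝ j f y‖ ≤ b * τ⁻¹ ^ j) →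
    ∀ y, ‖y - v‖ ≤ ρ - i * τ → ‖iteratedFDeriv ℝ i f y‖ ≤ C ^ i * (a + b) * τ⁻¹ ^ i := by
  obtain ⟨C, hC, hc⟩ := int_first.{u} N hN
  refine ⟨C + 1, by linarith, ?_⟩
  intro i
  induction i with
  | zero =>
    intro V F _ _ _ _ _ f v ρ τ a b hf hτ ha0 hb0 ha hb y hy
    rw [norm_iteratedFDeriv_zero, pow_zero, pow_zero]
    have := ha y (by simpa using hy)
    linarith
  | succ i ih =>
    intro V F _ _ _ _ _ f v ρ τ a b hf hτ ha0 hb0 ha hb y hy
    have hτi : 0 < τ⁻¹ := inv_pos.2 hτ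
    have hg : ContDiff ℝ ∞ (fderiv ℝ f) := hf.fderiv_right (by simp)
    have h1 : ∀ y, ‖y - v‖ ≤ ρ - τ → ‖fderiv ℝ f y‖ ≤ C * τ⁻¹ * (a + b) := by
      intro y hy
      have hsub : ∀ z, ‖z - y‖ ≤ τ → ‖z - v‖ ≤ ρ := by
        intro z hz
        have h2 : z - v = (z - y) + (y - v) := by abel
        rw [h2]
        exact (norm_add_le _ _).trans (by linarith)
      have h2 := hc V F f y τ a (b * τ⁻¹ ^ (N + 1)) hf hτ ha0 (by positivity)
        (fun z hz => ha z (hsub z hz))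
        (fun z hz => hb (N + 1) (by omega) (by omega) z (hsub z hz))
      refine h2.trans (le_of_eq ?_)
      rw [mul_assoc b, ← mul_pow, inv_mul_cancel₀ hτ.ne', one_pow, mul_one]
    have h3 := ih V (V →L[ℝ] F) (fderiv ℝ f) v (ρ - τ) τ (C * τ⁻¹ * (a + b)) (b * τ⁻¹) hg hτ
      (by positivity) (by positivity) h1 (by
        intro j hj1 hj2 z hz
        rw [norm_iteratedFDeriv_fderiv]
        refine (hb (j + 1) (by omega) (by omega) z (hz.trans (by linarith))).trans (le_of_eq ?_)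
        rw [pow_succ]
        ring) y (by push_cast at hy; linarith)
    rw [norm_iteratedFDeriv_fderiv] at h3
    refine h3.trans ?_
    have h4 : C * τ⁻¹ * (a + b) + b * τ⁻¹ ≤ (C + 1) * (a + b) * τ⁻¹ := by
      have : b * τ⁻¹ ≤ (a + b) * τ⁻¹ := mul_le_mul_of_nonneg_right (by linarith) hτi.le
      nlinarith
    calc (C + 1) ^ i * (C * τ⁻¹ * (a + b) + b * τ⁻¹) * τ⁻¹ ^ i
        ≤ (C + 1) ^ i * ((C + 1) * (a + b) * τ⁻¹) * τ⁻¹ ^ i := by gcongr
      _ = (C + 1) ^ (i + 1) * (a + b) * τ⁻¹ ^ (i + 1) := by ring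

/-- Interpolation on a ball. -/
theorem interp_ball (N : ℕ) (hN : 1 ≤ N) : ∃ C : ℝ, 0 < C ∧ ∀ (V F : Type u)
    [NormedAddCommGroup V] [NormedSpace ℝ V] [CompleteSpace V] [NormedAddCommGroup F]
    [NormedSpace ℝ F] (f : V → F) (v0 : V) (σ a b : ℝ),
    ContDiff ℝ ∞ f → 0 < σ → 0 ≤ a → 0 ≤ b → (∀ y, ‖y - v0‖ ≤ σ → ‖f y‖ ≤ a) →
    (∀ j, N < j → j ≤ 2 * N → ∀ y, ‖y - v0‖ ≤ σ → ‖iteratedFDeriv ℝ j f y‖ ≤ b * σ⁻¹ ^ j) →
    ∀ i ≤ N, ∀ y, ‖y - v0‖ ≤ σ / 2 →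
      ‖iteratedFDeriv ℝ i f y‖ ≤ C * (a + b) * σ⁻¹ ^ i := by
  obtain ⟨C, hC, hc⟩ := int_iter.{u} N hN
  have hN0 : (0 : ℝ) < N := by exact_mod_cast hN
  have hN1 : (1 : ℝ) ≤ N := by exact_mod_cast hN
  refine ⟨(C * (2 * N)) ^ N, by positivity, ?_⟩
  intro V F _ _ _ _ _ f v0 σ a b hf hσ ha0 hb0 ha hb i hi y hy
  have hσi : 0 < σ⁻¹ := inv_pos.2 hσ
  have hi' : (i : ℝ) ≤ N := by exact_mod_cast hi
  have h1 := hc i V F f v0 σ (σ / (2 * N)) a b hf (by positivity) ha0 hb0 ha (by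
    intro j hj1 hj2 z hz
    refine (hb j hj1 (by omega) z hz).trans ?_
    refine mul_le_mul_of_nonneg_left ?_ hb0
    refine pow_le_pow_left₀ hσi.le ?_ j
    refine inv_anti₀ (by positivity) ?_
    exact div_le_self hσ.le (by linarith)) y (by
      have h2 : (i : ℝ) * (σ / (2 * N)) ≤ σ / 2 := by
        calc (i : ℝ) * (σ / (2 * N)) ≤ N * (σ / (2 * N)) := by gcongr
          _ = σ / 2 := by field_simp
      linarith)
  refine h1.trans ?_
  have h3 : (σ / (2 * N))⁻¹ = 2 * N * σ⁻¹ := by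
    rw [inv_div]
    ring
  rw [h3, mul_pow (2 * (N : ℝ))]
  have h4 : C ^ i * (2 * N) ^ i ≤ (C * (2 * N)) ^ N := by
    rw [← mul_pow]
    exact pow_le_pow_right₀ (by nlinarith) hi
  calc C ^ i * (a + b) * ((2 * N) ^ i * σ⁻¹ ^ i)
      = C ^ i * (2 * N) ^ i * (a + b) * σ⁻¹ ^ i := by ring
    _ ≤ (C * (2 * N)) ^ N * (a + b) * σ⁻¹ ^ i := by gcongr

/-- Interpolation with a loss of powers of `K`. -/
theorem interp_loss (J n0 : ℕ) : ∃ (N : ℕ) (C : ℝ), J ≤ N ∧ 0 < C ∧ ∀ (V F : Type u)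
    [NormedAddCommGroup V] [NormedSpace ℝ V] [CompleteSpace V] [NormedAddCommGroup F]
    [NormedSpace ℝ F] (f : V → F) (v0 : V) (σ a K : ℝ),
    ContDiff ℝ ∞ f → 1 ≤ K → 0 < σ → 0 ≤ a → (∀ y, ‖y - v0‖ ≤ σ → ‖f y‖ ≤ a) →
    (∀ j, J < j → j ≤ 2 * N → ∀ y, ‖y - v0‖ ≤ σ →
      ‖iteratedFDeriv ℝ j f y‖ ≤ K ^ n0 * a * σ⁻¹ ^ j) →
    ∀ i ≤ J, ∀ y, ‖y - v0‖ ≤ σ / 2 →
      ‖iteratedFDeriv ℝ i f y‖ ≤ C * K ^ i * a * σ⁻¹ ^ i := by
  set N : ℕ := J + n0 + 1 with hN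
  obtain ⟨C, hC, hc⟩ := interp_ball.{u} N (by omega)
  refine ⟨N, C * 2 * 2 ^ N, by omega, by positivity, ?_⟩
  intro V F _ _ _ _ _ f v0 σ a K hf hK hσ ha0 ha hb i hi y hy
  have hK0 : 0 < K := by linarith
  have hσi : 0 < σ⁻¹ := inv_pos.2 hσ
  have hsub : ∀ z, ‖z - y‖ ≤ σ / (2 * K) → ‖z - v0‖ ≤ σ := by
    intro z hz
    have h2 : z - v0 = (z - y) + (y - v0) := by abel
    have h3 : σ / (2 * K) ≤ σ / 2 := by gcongr; linarith
    rw [h2]
    exact (norm_add_le _ _).trans (by linarith)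
  have h1 := hc V F f y (σ / (2 * K)) a a hf (by positivity) ha0 ha0
    (fun z hz => ha z (hsub z hz)) (by
      intro j hj1 hj2 z hz
      refine (hb j (by omega) hj2 z (hsub z hz)).trans ?_
      have h4 : (σ / (2 * K))⁻¹ = 2 * K * σ⁻¹ := by
        rw [inv_div]
        ring
      rw [h4, mul_pow, mul_pow]
      have h5 : K ^ n0 ≤ K ^ j := pow_le_pow_right₀ hK (by omega)
      have h6 : (1 : ℝ) ≤ 2 ^ j := one_le_pow₀ one_le_two
      calc K ^ n0 * a * σ⁻¹ ^ j ≤ K ^ j * a * σ⁻¹ ^ j := by gcongr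
        _ = a * (1 * K ^ j * σ⁻¹ ^ j) := by ring
        _ ≤ a * (2 ^ j * K ^ j * σ⁻¹ ^ j) := by gcongr) i (by omega) y (by
          rw [sub_self, norm_zero]; positivity)
  refine h1.trans ?_
  have h4 : (σ / (2 * K))⁻¹ = 2 * K * σ⁻¹ := by
    rw [inv_div]
    ring
  rw [h4, mul_pow, mul_pow]
  have h7 : (2 : ℝ) ^ i ≤ 2 ^ N := pow_le_pow_right₀ one_le_two (by omega)
  calc C * (a + a) * (2 ^ i * K ^ i * σ⁻¹ ^ i) = C * 2 * 2 ^ i * K ^ i * a * σ⁻¹ ^ i := by ring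
    _ ≤ C * 2 * 2 ^ N * K ^ i * a * σ⁻¹ ^ i := by gcongr

end Pool.Agent.GNP
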