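-- Pool/Agent/GNP/STRa.lean  (helper86)
import Pool.Agent.GNP.TL
import Pool.Agent.GNP.P0x
import Pool.Agent.GNP.INT

/-!
If the Hessian of `q` is, up to a small error, a multiple of the Hessian of `h`, then the derivatives
of `q` of order at least three are small.
-/

set_option autoImplicit false

namespace Pool.Agent.GNP

open MeasureTheory Set Pool.Agent.MP_6cbfb8_an Finset Pool.Agent.AP4X
open scoped ENNReal Real RealInnerProductSpace ContDiff

/-- The derivative of order `k + 3` of `q` is controlled by the derivatives of order `k + 1` of the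
trace free part and, with a factor that bounds the derivatives of `h` of order at least three, by the
derivatives of `q` of lower order (at least two). -/
theorem tl_bound2 {d : ℕ} (hd : 2 ≤ d) (k : ℕ) {b A : ℝ} (hb : 0 < b) (hA : 0 ≤ A) :
    ∃ C : ℝ, 0 < C ∧ ∀ (q h : E d → ℝ) (x : E d) (A3 : ℝ), 0 ≤ A3 → ContDiff ℝ ∞ q →
      ContDiff ℝ ∞ h → ‖iteratedFDeriv ℝ 2 h x‖ ≤ A →
      (∀ j, 3 ≤ j → j ≤ k + 3 → ‖iteratedFDeriv ℝ j h x‖ ≤ A3) →
      (∀ v : Fin d → ℝ, b * ∑ i, v i ^ 2 ≤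
        |∑ i, ∑ j, v i * v j * pd (be i) (pd (be j) h) x|) →
      ‖iteratedFDeriv ℝ (k + 3) q x‖ ≤ C * ((∑ a, ∑ c, ∑ e, ∑ e',
        ‖iteratedFDeriv ℝ (k + 1) (TL q h a c e e') x‖)
        + A3 * ∑ i ∈ range (k + 1), ‖iteratedFDeriv ℝ (i + 2) q x‖) := by
  classical
  set C0 : ℝ := 1 + 2 * (2 : ℝ) ^ (k + 1) with hC0
  have hC0p : 0 < C0 := by positivity
  refine ⟨(d : ℝ) ^ 3 * ((4 * A / b + 1) / b) * C0 + 1, by positivity, ?_⟩
  intro q h x A3 hA3 hq hh hbd2 hbd hpos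
  set S1 : ℝ := ∑ a, ∑ c, ∑ e, ∑ e', ‖iteratedFDeriv ℝ (k + 1) (TL q h a c e e') x‖ with hS1
  set S2 : ℝ := A3 * ∑ i ∈ range (k + 1), ‖iteratedFDeriv ℝ (i + 2) q x‖ with hS2
  have hS1p : 0 ≤ S1 := sum_nonneg fun _ _ => sum_nonneg fun _ _ => sum_nonneg fun _ _ =>
    sum_nonneg fun _ _ => norm_nonneg _
  have hS2p : 0 ≤ S2 := mul_nonneg hA3 (sum_nonneg fun _ _ => norm_nonneg _)
  have hq2 : ∀ a c : Fin d, ContDiff ℝ ∞ (pd (be a) (pd (be c) q)) := fun a c =>
    pd_contDiff (pd_contDiff hq)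
  have hh2 : ∀ a c : Fin d, ContDiff ℝ ∞ (pd (be a) (pd (be c) h)) := fun a c =>
    pd_contDiff (pd_contDiff hh)
  have n2 : ∀ (f : (E d) → ℝ), ContDiff ℝ ∞ f → ∀ (a c : Fin d) (i : ℕ),
      ‖iteratedFDeriv ℝ i (pd (be a) (pd (be c) f)) x‖ ≤ ‖iteratedFDeriv ℝ (i + 2) f x‖ := by
    intro f hf a c i
    exact (norm_pd_le (by rw [norm_be]) (pd_contDiff hf) x).trans
      (norm_pd_le (by rw [norm_be]) hf x)
  -- the frozen product
  have fz : ∀ a c e e' : Fin d,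
      ‖iteratedFDeriv ℝ (k + 1) (fun y => pd (be a) (pd (be c) q) y * pd (be e) (pd (be e') h) y) x
        - pd (be e) (pd (be e') h) x • iteratedFDeriv ℝ (k + 1) (pd (be a) (pd (be c) q)) x‖
      ≤ (2 : ℝ) ^ (k + 1) * S2 := by
    intro a c e e'
    refine (freeze (hq2 a c) (hh2 e e') x).trans ?_
    rw [hS2, mul_sum, mul_sum]
    refine sum_le_sum fun i hi => ?_
    have hi' : i < k + 1 := mem_range.mp hi
    have h1 : ((k + 1).choose i : ℝ) ≤ 2 ^ (k + 1) := by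
      exact_mod_cast Nat.choose_le_two_pow (k + 1) i
    have h2 := n2 q hq a c i
    have h3 : ‖iteratedFDeriv ℝ (k + 1 - i) (pd (be e) (pd (be e') h)) x‖ ≤ A3 :=
      (n2 h hh e e' _).trans (hbd _ (by omega) (by omega))
    calc _ ≤ 2 ^ (k + 1) * ‖iteratedFDeriv ℝ (i + 2) q x‖ * A3 := by gcongr
      _ = _ := by ring
  -- the derivative of the trace free part
  have tl : ∀ a c e e' : Fin d,
      ‖iteratedFDeriv ℝ (k + 1) (TL q h a c e e') x
        - (pd (be e) (pd (be e') h) x • iteratedFDeriv ℝ (k + 1) (pd (be a) (pd (be c) q)) x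
          - pd (be a) (pd (be c) h) x • iteratedFDeriv ℝ (k + 1) (pd (be e) (pd (be e') q)) x)‖
      ≤ 2 * (2 : ℝ) ^ (k + 1) * S2 := by
    intro a c e e'
    have hk : (((k + 1 : ℕ) : ℕ∞) : WithTop ℕ∞) ≤ (∞ : WithTop ℕ∞) := by exact_mod_cast le_top
    have e0 : iteratedFDeriv ℝ (k + 1) (TL q h a c e e') x
        = iteratedFDeriv ℝ (k + 1)
            (fun y => pd (be a) (pd (be c) q) y * pd (be e) (pd (be e') h) y) x
          - iteratedFDeriv ℝ (k + 1)
            (fun y => pd (be e) (pd (be e') q) y * pd (be a) (pd (be c) h) y) x := by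
      have := iteratedFDeriv_sub (𝕜 := ℝ) (i := k + 1)
        (f := fun y => pd (be a) (pd (be c) q) y * pd (be e) (pd (be e') h) y)
        (g := fun y => pd (be e) (pd (be e') q) y * pd (be a) (pd (be c) h) y)
        (((hq2 a c).mul (hh2 e e')).of_le hk) (((hq2 e e').mul (hh2 a c)).of_le hk)
      exact congrFun this x
    have f1 := fz a c e e'
    have f2 := fz e e' a c
    rw [e0]
    set X1 := iteratedFDeriv ℝ (k + 1)
      (fun y => pd (be a) (pd (be c) q) y * pd (be e) (pd (be e') h) y) x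
    set X2 := iteratedFDeriv ℝ (k + 1)
      (fun y => pd (be e) (pd (be e') q) y * pd (be a) (pd (be c) h) y) x
    set Y1 := pd (be e) (pd (be e') h) x • iteratedFDeriv ℝ (k + 1) (pd (be a) (pd (be c) q)) x
    set Y2 := pd (be a) (pd (be c) h) x • iteratedFDeriv ℝ (k + 1) (pd (be e) (pd (be e') q)) x
    have : X1 - X2 - (Y1 - Y2) = (X1 - Y1) - (X2 - Y2) := by abel
    rw [this]
    calc _ ≤ ‖X1 - Y1‖ + ‖X2 - Y2‖ := norm_sub_le _ _
      _ ≤ _ := by linarith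
  have hle : ∀ a c e e' : Fin d, ‖iteratedFDeriv ℝ (k + 1) (TL q h a c e e') x‖ ≤ S1 := by
    intro a c e e'
    rw [hS1]
    calc _ ≤ ∑ e', ‖iteratedFDeriv ℝ (k + 1) (TL q h a c e e') x‖ :=
          single_le_sum (f := fun e' => ‖iteratedFDeriv ℝ (k + 1) (TL q h a c e e') x‖)
            (fun _ _ => norm_nonneg _) (mem_univ e')
      _ ≤ ∑ e, ∑ e', ‖iteratedFDeriv ℝ (k + 1) (TL q h a c e e') x‖ :=
          single_le_sum (f := fun e => ∑ e', ‖iteratedFDeriv ℝ (k + 1) (TL q h a c e e') x‖)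
            (fun _ _ => sum_nonneg fun _ _ => norm_nonneg _) (mem_univ e)
      _ ≤ ∑ c, ∑ e, ∑ e', ‖iteratedFDeriv ℝ (k + 1) (TL q h a c e e') x‖ :=
          single_le_sum (f := fun c => ∑ e, ∑ e',
            ‖iteratedFDeriv ℝ (k + 1) (TL q h a c e e') x‖)
            (fun _ _ => sum_nonneg fun _ _ => sum_nonneg fun _ _ => norm_nonneg _) (mem_univ c)
      _ ≤ _ :=
          single_le_sum (f := fun a => ∑ c, ∑ e, ∑ e',
            ‖iteratedFDeriv ℝ (k + 1) (TL q h a c e e') x‖)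
            (fun _ _ => sum_nonneg fun _ _ => sum_nonneg fun _ _ => sum_nonneg fun _ _ =>
              norm_nonneg _) (mem_univ a)
  -- the array `T` for fixed vectors `m`
  have hTT : ∀ (m : Fin k → E d) (g a c : Fin d),
      |TT q x m g a c| ≤ (4 * A / b + 1) * ((C0 * (S1 + S2)) * ∏ i, ‖m i‖) / b := by
    intro m g a c
    refine algebra hd (A := A) (η := (C0 * (S1 + S2)) * ∏ i, ‖m i‖) hb ?_
      (fun i j => pd (be i) (pd (be j) h) x) ?_ hpos
      (fun g a c => TT q x m g a c) ?_ ?_ g a c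
    · exact mul_nonneg (mul_nonneg hC0p.le (add_nonneg hS1p hS2p))
        (prod_nonneg fun _ _ => norm_nonneg _)
    · intro i j
      have h1 := n2 h hh i j 0
      rw [norm_iteratedFDeriv_zero, Real.norm_eq_abs] at h1
      exact h1.trans hbd2
    · intro g a c
      simp only [TT]
      rw [pd_comm (pd_contDiff hq)]
    · intro g a c e e'
      have h1 := tl a c e e'
      have h2 := ContinuousMultilinearMap.le_opNorm
        (iteratedFDeriv ℝ (k + 1) (TL q h a c e e') x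
        - (pd (be e) (pd (be e') h) x • iteratedFDeriv ℝ (k + 1) (pd (be a) (pd (be c) q)) x
          - pd (be a) (pd (be c) h) x • iteratedFDeriv ℝ (k + 1) (pd (be e) (pd (be e') q)) x))
        (Fin.snoc m (be g))
      have h3 := ContinuousMultilinearMap.le_opNorm
        (iteratedFDeriv ℝ (k + 1) (TL q h a c e e') x) (Fin.snoc m (be g))
      have hp : ∏ i, ‖(Fin.snoc m (be g) : Fin (k + 1) → E d) i‖ = ∏ i, ‖m i‖ := by
        rw [Fin.prod_univ_castSucc]
        simp only [Fin.snoc_castSucc, Fin.snoc_last, norm_be, mul_one]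
      rw [hp] at h2 h3
      simp only [sub_apply, smul_apply,
        smul_eq_mul] at h2
      rw [TT_eq hq, TT_eq hq, Real.norm_eq_abs] at h2
      rw [Real.norm_eq_abs] at h3
      set P := ∏ i, ‖m i‖
      have hP : 0 ≤ P := prod_nonneg fun _ _ => norm_nonneg _
      set Z := iteratedFDeriv ℝ (k + 1) (TL q h a c e e') x (Fin.snoc m (be g))
      set W := pd (be e) (pd (be e') h) x * TT q x m g a c
        - pd (be a) (pd (be c) h) x * TT q x m g e e'
      have h4 : |W| ≤ |Z| + |Z - W| := by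
        calc |W| = |Z - (Z - W)| := by ring_nf
          _ ≤ _ := abs_sub _ _
      have h5 : TT q x m g a c * pd (be e) (pd (be e') h) x
          - TT q x m g e e' * pd (be a) (pd (be c) h) x = W := by simp only [W]; ring
      rw [h5]
      calc |W| ≤ |Z| + |Z - W| := h4
        _ ≤ S1 * P + (2 * (2 : ℝ) ^ (k + 1) * S2) * P := by
            gcongr
            · exact h3.trans (mul_le_mul_of_nonneg_right (hle a c e e') hP)
            · exact h2.trans (mul_le_mul_of_nonneg_right h1 hP)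
        _ ≤ (C0 * (S1 + S2)) * P := by
            rw [← add_mul]
            refine mul_le_mul_of_nonneg_right ?_ hP
            rw [hC0]
            have : 0 ≤ 2 * (2 : ℝ) ^ (k + 1) := by positivity
            nlinarith [mul_nonneg this hS1p, mul_nonneg this hS2p]
  -- from basis vectors to all vectors
  have hall : ‖iteratedFDeriv ℝ (k + 3) q x‖
      ≤ (d : ℝ) ^ 3 * ((4 * A / b + 1) * (C0 * (S1 + S2)) / b) := by
    have hC0' : 0 ≤ C0 * (S1 + S2) := mul_nonneg hC0p.le (add_nonneg hS1p hS2p)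
    have hB : 0 ≤ (4 * A / b + 1) * (C0 * (S1 + S2)) / b :=
      div_nonneg (mul_nonneg (by positivity) hC0') hb.le
    refine norm_le_of_TT hq x hB fun m g a c => ?_
    refine (hTT m g a c).trans (le_of_eq ?_)
    ring
  calc _ ≤ (d : ℝ) ^ 3 * ((4 * A / b + 1) * (C0 * (S1 + S2)) / b) := hall
    _ = ((d : ℝ) ^ 3 * ((4 * A / b + 1) / b) * C0) * (S1 + S2) := by ring
    _ ≤ _ := by
      refine mul_le_mul_of_nonneg_right ?_ (add_nonneg hS1p hS2p)
      linarith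


theorem stra_pd_pd {d : ℕ} {f : E d → ℝ} (hf : ContDiff ℝ ∞ f) (a c : Fin d) (x : E d) :
    pd (be a) (pd (be c) f) x = ⟪Hs f x (be a), be c⟫ := by
  have h1 : (pd (be c) f : E d → ℝ) = fun y => fderiv ℝ f y (be c) := rfl
  rw [inner_Hs hf]
  show fderiv ℝ (pd (be c) f) x (be a) = _
  rw [h1]
  have h2 : HasFDerivAt (fderiv ℝ f) (fderiv ℝ (fderiv ℝ f) x) x :=
    (differentiable_fderiv hf x).hasFDerivAt
  have h3 : HasFDerivAt (fun y => fderiv ℝ f y (be c))
      ((ContinuousLinearMap.apply ℝ ℝ (be c : E d)).comp (fderiv ℝ (fderiv ℝ f) x)) x :=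
    (ContinuousLinearMap.apply ℝ ℝ (be c : E d)).hasFDerivAt.comp x h2
  rw [h3.fderiv]
  simp

theorem abs_inner_be_le {d : ℕ} (T : E d →L[ℝ] E d) (a c : Fin d) :
    |⟪T (be a : E d), (be c : E d)⟫| ≤ ‖T‖ := by
  calc |⟪T (be a : E d), (be c : E d)⟫| ≤ ‖T (be a)‖ * ‖(be c : E d)‖ := abs_real_inner_le_norm _ _
    _ ≤ ‖T‖ * ‖(be a : E d)‖ * ‖(be c : E d)‖ := by
        gcongr
        exact T.le_opNorm _
    _ = ‖T‖ := by rw [norm_be, norm_be]; ring

theorem tl_val {d : ℕ} {q h : E d → ℝ} (hq : ContDiff ℝ ∞ q) (hh : ContDiff ℝ ∞ h) {x : E d}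
    {μ ρ A : ℝ} (hA : ‖Hs h x‖ ≤ A) (hρ : ‖Hs q x + μ • Hs h x‖ ≤ ρ) (a c e e' : Fin d) :
    |TL q h a c e e' x| ≤ 2 * A * ρ := by
  have h1 : ∀ i j : Fin d, |⟪Hs q x (be i), (be j : E d)⟫ + μ * ⟪Hs h x (be i), (be j : E d)⟫| ≤ ρ := by
    intro i j
    have := (abs_inner_be_le (Hs q x + μ • Hs h x) i j).trans hρ
    simpa [inner_add_left, inner_smul_left] using this
  have h2 : ∀ i j : Fin d, |⟪Hs h x (be i), (be j : E d)⟫| ≤ A := fun i j =>
    (abs_inner_be_le _ i j).trans hA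
  unfold TL
  rw [stra_pd_pd hq, stra_pd_pd hh, stra_pd_pd hq, stra_pd_pd hh]
  have h3 := h1 a c
  have h4 := h1 e e'
  have h5 := h2 a c
  have h6 := h2 e e'
  set qa := ⟪Hs q x (be a), (be c : E d)⟫
  set qe := ⟪Hs q x (be e), (be e' : E d)⟫
  set ha := ⟪Hs h x (be a), (be c : E d)⟫
  set he := ⟪Hs h x (be e), (be e' : E d)⟫
  have hρ0 : 0 ≤ ρ := (abs_nonneg _).trans h3
  have hA0 : 0 ≤ A := (abs_nonneg _).trans h5
  calc |qa * he - qe * ha| = |(qa + μ * ha) * he - (qe + μ * he) * ha| := by ring_nf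
    _ ≤ |(qa + μ * ha) * he| + |(qe + μ * he) * ha| := abs_sub _ _
    _ = |qa + μ * ha| * |he| + |qe + μ * he| * |ha| := by rw [abs_mul, abs_mul]
    _ ≤ ρ * A + ρ * A := by gcongr
    _ = 2 * A * ρ := by ring

theorem pos_val {d : ℕ} {h : E d → ℝ} (hh : ContDiff ℝ ∞ h) {x : E d} {b : ℝ}
    (hb : ∀ u : E d, b * ‖u‖ ^ 2 ≤ |⟪Hs h x u, u⟫|) (v : Fin d → ℝ) :
    b * ∑ i, v i ^ 2 ≤ |∑ i, ∑ j, v i * v j * pd (be i) (pd (be j) h) x| := by
  set u : E d := ∑ i, v i • (be i : E d) with hu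
  have h1 : ∀ i, u i = v i := by
    intro i
    simp [hu, be, Finset.sum_apply, Pi.single_apply]
  have h2 : ‖u‖ ^ 2 = ∑ i, v i ^ 2 := by
    rw [EuclideanSpace.norm_sq_eq]
    refine sum_congr rfl fun i _ => ?_
    rw [h1, Real.norm_eq_abs, sq_abs]
  have h3 : ⟪Hs h x u, u⟫ = ∑ i, ∑ j, v i * v j * pd (be i) (pd (be j) h) x := by
    have e1 : Hs h x u = ∑ i, v i • Hs h x (be i) := by
      rw [hu, map_sum]
      simp
    rw [e1, sum_inner]
    refine sum_congr rfl fun i _ => ?_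
    rw [hu, inner_sum]
    refine sum_congr rfl fun j _ => ?_
    rw [stra_pd_pd hh, inner_smul_left, inner_smul_right]
    simp
    ring
  rw [← h3, ← h2]
  exact hb u

theorem tl_der {d : ℕ} {q h : E d → ℝ} (hq : ContDiff ℝ ∞ q) (hh : ContDiff ℝ ∞ h) {x : E d}
    {M A : ℝ} (hM : 0 ≤ M) {n : ℕ}
    (h1 : ∀ j, 2 ≤ j → j ≤ n + 2 → ‖iteratedFDeriv ℝ j q x‖ ≤ M)
    (h2 : ∀ j, 2 ≤ j → j ≤ n + 2 → ‖iteratedFDeriv ℝ j h x‖ ≤ A) (a c e e' : Fin d) :
    ‖iteratedFDeriv ℝ n (TL q h a c e e') x‖ ≤ 2 * 2 ^ n * (M * A) := by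
  have n2 : ∀ (f : E d → ℝ), ContDiff ℝ ∞ f → ∀ (a c : Fin d) (i : ℕ),
      ‖iteratedFDeriv ℝ i (pd (be a) (pd (be c) f)) x‖ ≤ ‖iteratedFDeriv ℝ (i + 2) f x‖ := by
    intro f hf a c i
    exact (norm_pd_le (by rw [norm_be]) (pd_contDiff hf) x).trans
      (norm_pd_le (by rw [norm_be]) hf x)
  have hq2 : ∀ a c : Fin d, ContDiff ℝ ∞ (pd (be a) (pd (be c) q)) := fun a c =>
    pd_contDiff (pd_contDiff hq)
  have hh2 : ∀ a c : Fin d, ContDiff ℝ ∞ (pd (be a) (pd (be c) h)) := fun a c =>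
    pd_contDiff (pd_contDiff hh)
  have hk : ((n : ℕ∞) : WithTop ℕ∞) ≤ (∞ : WithTop ℕ∞) := by exact_mod_cast le_top
  have key : ∀ a c e e' : Fin d, ‖iteratedFDeriv ℝ n
      (fun y => pd (be a) (pd (be c) q) y * pd (be e) (pd (be e') h) y) x‖ ≤ 2 ^ n * (M * A) := by
    intro a c e e'
    refine (norm_iteratedFDeriv_mul_le (hq2 a c) (hh2 e e') x hk).trans ?_
    have h3 : ∀ i ∈ range (n + 1), (n.choose i : ℝ) *
        ‖iteratedFDeriv ℝ i (pd (be a) (pd (be c) q)) x‖ *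
        ‖iteratedFDeriv ℝ (n - i) (pd (be e) (pd (be e') h)) x‖ ≤ (n.choose i : ℝ) * (M * A) := by
      intro i hi
      have hi' : i < n + 1 := mem_range.mp hi
      have h4 := (n2 q hq a c i).trans (h1 (i + 2) (by omega) (by omega))
      have h5 := (n2 h hh e e' (n - i)).trans (h2 (n - i + 2) (by omega) (by omega))
      rw [mul_assoc]
      gcongr
    refine (sum_le_sum h3).trans (le_of_eq ?_)
    rw [← sum_mul]
    congr 1
    exact_mod_cast Nat.sum_range_choose n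
  have e0 : iteratedFDeriv ℝ n (TL q h a c e e') x
      = iteratedFDeriv ℝ n (fun y => pd (be a) (pd (be c) q) y * pd (be e) (pd (be e') h) y) x
        - iteratedFDeriv ℝ n
          (fun y => pd (be e) (pd (be e') q) y * pd (be a) (pd (be c) h) y) x := by
    have := iteratedFDeriv_sub (𝕜 := ℝ) (i := n)
      (f := fun y => pd (be a) (pd (be c) q) y * pd (be e) (pd (be e') h) y)
      (g := fun y => pd (be e) (pd (be e') q) y * pd (be a) (pd (be c) h) y)
      (((hq2 a c).mul (hh2 e e')).of_le hk) (((hq2 e e').mul (hh2 a c)).of_le hk)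
    exact congrFun this x
  rw [e0]
  refine (norm_sub_le _ _).trans ?_
  have := key a c e e'
  have := key e e' a c
  linarith

/-- The hypotheses on the ball of radius `r` round `v`. -/
def SD (d N n0 : ℕ) (b A : ℝ) (q h μ : E d → ℝ) (v : E d) (r K w η : ℝ) : Prop :=
  ∀ u, ‖u - v‖ ≤ r → (∀ j, 2 ≤ j → j ≤ N → ‖iteratedFDeriv ℝ j q u‖ ≤ K ^ n0 * w) ∧
    ‖iteratedFDeriv ℝ 2 h u‖ ≤ A ∧ (∀ j, 3 ≤ j → j ≤ N → ‖iteratedFDeriv ℝ j h u‖ ≤ η) ∧
    (∀ x : E d, b * ‖x‖ ^ 2 ≤ |⟪Hs h u x, x⟫|) ∧ ‖Hs q u + μ u • Hs h u‖ ≤ w + η * |μ u|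

theorem SD.mono {d N n0 : ℕ} {b A : ℝ} {q h μ : E d → ℝ} {v v' : E d} {r r' K w η : ℝ}
    (H : SD d N n0 b A q h μ v r K w η) (h1 : ‖v' - v‖ + r' ≤ r) :
    SD d N n0 b A q h μ v' r' K w η := by
  intro u hu
  refine H u ?_
  calc ‖u - v‖ = ‖(u - v') + (v' - v)‖ := by congr 1; abel
    _ ≤ ‖u - v'‖ + ‖v' - v‖ := norm_add_le _ _
    _ ≤ r := by linarith

theorem stra_step (d J n0 : ℕ) (hd : 2 ≤ d) {b A : ℝ} (hb : 0 < b) (hA : 1 ≤ A) :
    ∃ (N : ℕ) (K0 C : ℝ), J ≤ N ∧ 1 ≤ K0 ∧ 0 < C ∧ ∀ (q h μ : E d → ℝ) (v : E d)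
      (r K w η m : ℝ), ContDiff ℝ ∞ q → ContDiff ℝ ∞ h → K0 ≤ K → 0 < r → r ≤ 1 → 0 < w → 0 ≤ η →
      η ≤ 1 → SD d N n0 b A q h μ v r K w η → (∀ u, ‖u - v‖ ≤ r → |μ u| ≤ m) →
      ∀ j, 3 ≤ j → j ≤ J → ‖iteratedFDeriv ℝ j q v‖ ≤ C * (K / r) ^ (j - 2) * (w + η * m) := by
  obtain ⟨N1, C1, hN1, hC1, hI⟩ := interp_loss.{0} J (n0 + 1)
  have main : ∀ n : ℕ, ∃ Q : ℝ, 0 < Q ∧ ∀ (q h μ : E d → ℝ) (v : E d)
      (r K w η m : ℝ), ContDiff ℝ ∞ q → ContDiff ℝ ∞ h → 2 ^ (2 * N1 + 1) ≤ K → 0 < r → r ≤ 1 →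
      0 < w → 0 ≤ η → η ≤ 1 → SD d (2 * N1 + 2 + J) n0 b A q h μ v r K w η →
      (∀ u, ‖u - v‖ ≤ r → |μ u| ≤ m) →
      ∀ j, 3 ≤ j → j ≤ n + 2 → j ≤ J →
        ‖iteratedFDeriv ℝ j q v‖ ≤ Q * (K / r) ^ (j - 2) * (w + η * m) := by
    intro n
    induction n with
    | zero => exact ⟨1, one_pos, fun _ _ _ _ _ _ _ _ _ _ _ _ _ _ _ _ _ _ _ j h1 h2 => by omega⟩
    | succ n ih =>
      obtain ⟨Q, hQ, hQ'⟩ := ih
      obtain ⟨C2, hC2, h2⟩ := tl_bound2 (d := d) hd n hb (by linarith : (0 : ℝ) ≤ A)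
      refine ⟨Q + C2 * ((d : ℝ) ^ 4 * (C1 * (2 * A)) + (1 + A + n * Q)), by positivity, ?_⟩
      intro q h μ v r K w η m hq hh hK hr hr1 hw hη hη1 hS hm j hj3 hjn hjJ
      have hK1 : 1 ≤ K := le_trans (one_le_pow₀ (by norm_num)) hK
      have hvv : ‖v - v‖ ≤ r := by simp [hr.le]
      have hm0 : 0 ≤ m := (abs_nonneg _).trans (hm v hvv)
      have hX : 0 ≤ w + η * m := by positivity
      have hKr : 1 ≤ K / r := by rw [le_div_iff₀ hr]; linarith
      have hKr0 : 0 < K / r := by positivity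
      rcases Nat.lt_or_ge j (n + 3) with hlt | hge
      · refine (hQ' q h μ v r K w η m hq hh hK hr hr1 hw hη hη1 hS hm j hj3 (by omega) hjJ).trans ?_
        have : 0 ≤ C2 * ((d : ℝ) ^ 4 * (C1 * (2 * A)) + (1 + A + n * Q)) * (K / r) ^ (j - 2) *
          (w + η * m) := by positivity
        nlinarith
      have hjn' : j = n + 3 := by omega
      subst hjn'
      have hKJ : 1 ≤ (K / r) ^ (n + 1) := one_le_pow₀ hKr
      -- the trace free part
      have hT : ∀ a c e e' : Fin d, ‖iteratedFDeriv ℝ (n + 1) (TL q h a c e e') v‖ ≤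
          C1 * (K / r) ^ (n + 1) * (2 * A * (w + η * m)) := by
        intro a c e e'
        have h3 := hI (E d) ℝ (TL q h a c e e') v r (2 * A * (w + η * m)) K
          (by
            have e1 : TL q h a c e e' = fun y => pd (be a) (pd (be c) q) y * pd (be e) (pd (be e') h) y
                - pd (be e) (pd (be e') q) y * pd (be a) (pd (be c) h) y := rfl
            rw [e1]
            exact ((pd_contDiff (pd_contDiff hq)).mul (pd_contDiff (pd_contDiff hh))).sub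
              ((pd_contDiff (pd_contDiff hq)).mul (pd_contDiff (pd_contDiff hh)))) hK1 hr
          (by positivity)
          (by
            intro y hy
            obtain ⟨-, g2, -, -, g5⟩ := hS y hy
            rw [Real.norm_eq_abs]
            refine (tl_val hq hh ((norm_Hs_le hh y).trans g2) g5 a c e e').trans ?_
            have := hm y hy
            gcongr)
          (by
            intro j hj1 hj2 y hy
            obtain ⟨g1, g2, g3, -, -⟩ := hS y hy
            have h4 := tl_der hq hh (x := y) (M := K ^ n0 * w) (A := A) (by positivity) (n := j)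
              (fun i i1 i2 => g1 i i1 (by omega))
              (fun i i1 i2 => by
                rcases Nat.lt_or_ge i 3 with h5 | h5
                · have : i = 2 := by omega
                  subst this
                  exact g2
                · exact (g3 i h5 (by omega)).trans (hη1.trans hA)) a c e e'
            refine h4.trans ?_
            have h6 : (2 : ℝ) * 2 ^ j ≤ K := by
              calc (2 : ℝ) * 2 ^ j = 2 ^ (j + 1) := by ring
                _ ≤ 2 ^ (2 * N1 + 1) := pow_le_pow_right₀ (by norm_num) (by omega)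
                _ ≤ K := hK
            have h7 : 1 ≤ r⁻¹ ^ j := one_le_pow₀ ((one_le_inv₀ hr).2 hr1)
            calc 2 * 2 ^ j * (K ^ n0 * w * A) ≤ K * (K ^ n0 * w * A) := by gcongr
              _ = K ^ (n0 + 1) * (A * w) * 1 := by ring
              _ ≤ K ^ (n0 + 1) * (2 * A * (w + η * m)) * r⁻¹ ^ j := by
                have hA0 : 0 < A := by linarith
                have h9 : A * w ≤ 2 * A * (w + η * m) := by
                  have : 0 ≤ A * (η * m) := mul_nonneg hA0.le (mul_nonneg hη hm0)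
                  have : 0 < A * w := mul_pos hA0 hw
                  nlinarith
                exact mul_le_mul (mul_le_mul_of_nonneg_left h9 (by positivity)) h7 zero_le_one
                  (by positivity))
          (n + 1) (by omega) v (by rw [sub_self, norm_zero]; positivity)
        refine h3.trans (le_of_eq ?_)
        rw [div_eq_mul_inv, mul_pow]
        ring
      obtain ⟨g1, g2, g3, g4, g5⟩ := hS v hvv
      have h5 := h2 q h v η hη hq hh g2 (fun i i1 i2 => g3 i i1 (by omega)) (pos_val hh g4)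
      have h6 : (∑ a : Fin d, ∑ c : Fin d, ∑ e : Fin d, ∑ e' : Fin d,
          ‖iteratedFDeriv ℝ (n + 1) (TL q h a c e e') v‖) ≤
          (d : ℝ) ^ 4 * (C1 * (K / r) ^ (n + 1) * (2 * A * (w + η * m))) := by
        calc _ ≤ ∑ _a : Fin d, ∑ _c : Fin d, ∑ _e : Fin d, ∑ _e' : Fin d,
              C1 * (K / r) ^ (n + 1) * (2 * A * (w + η * m)) := by
              refine sum_le_sum fun a _ => sum_le_sum fun c _ => sum_le_sum fun e _ =>
                sum_le_sum fun e' _ => hT a c e e'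
          _ = _ := by
            simp only [sum_const, card_univ, Fintype.card_fin, nsmul_eq_mul]
            ring
      have h7 : η * ∑ i ∈ range (n + 1), ‖iteratedFDeriv ℝ (i + 2) q v‖ ≤
          (1 + A + n * Q) * (K / r) ^ (n + 1) * (w + η * m) := by
        rw [sum_range_succ']
        have h8 : ∑ i ∈ range n, ‖iteratedFDeriv ℝ (i + 1 + 2) q v‖ ≤
            n * (Q * (K / r) ^ (n + 1) * (w + η * m)) := by
          calc _ ≤ ∑ _i ∈ range n, Q * (K / r) ^ (n + 1) * (w + η * m) := by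
                refine sum_le_sum fun i hi => ?_
                have := mem_range.mp hi
                refine (hQ' q h μ v r K w η m hq hh hK hr hr1 hw hη hη1 hS hm (i + 1 + 2)
                  (by omega) (by omega) (by omega)).trans ?_
                have e1 : (K / r) ^ (i + 1 + 2 - 2) ≤ (K / r) ^ (n + 1) :=
                  pow_le_pow_right₀ hKr (by omega)
                gcongr
            _ = _ := by simp
        have h9 : ‖iteratedFDeriv ℝ (0 + 2) q v‖ ≤ (w + η * m) + m * A := by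
          have e1 : ‖iteratedFDeriv ℝ (0 + 2) q v‖ = ‖Hs q v‖ := (norm_Hs_eq hq v).symm
          rw [e1]
          have e2 : Hs q v = (Hs q v + μ v • Hs h v) - μ v • Hs h v := by abel
          rw [e2]
          refine (norm_sub_le _ _).trans ?_
          have e3 : ‖μ v • Hs h v‖ ≤ m * A := by
            rw [norm_smul, Real.norm_eq_abs]
            have := hm v hvv
            have := (norm_Hs_le hh v).trans g2
            gcongr
          have e4 : w + η * |μ v| ≤ w + η * m := by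
            have := hm v hvv
            gcongr
          linarith
        have h10 : η * (n * (Q * (K / r) ^ (n + 1) * (w + η * m))) ≤
            n * Q * (K / r) ^ (n + 1) * (w + η * m) := by
          have : 0 ≤ n * Q * (K / r) ^ (n + 1) * (w + η * m) := by positivity
          calc η * (n * (Q * (K / r) ^ (n + 1) * (w + η * m))) =
                η * (n * Q * (K / r) ^ (n + 1) * (w + η * m)) := by ring
            _ ≤ 1 * (n * Q * (K / r) ^ (n + 1) * (w + η * m)) := by gcongr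
            _ = _ := one_mul _
        have h11 : η * ((w + η * m) + m * A) ≤ (1 + A) * (K / r) ^ (n + 1) * (w + η * m) := by
          have e1 : η * ((w + η * m) + m * A) ≤ (1 + A) * (w + η * m) := by
            have e2 : η * (w + η * m) ≤ 1 * (w + η * m) := by gcongr
            have e4 : η * m * A ≤ A * (w + η * m) := by
              have : 0 ≤ A * w := by positivity
              nlinarith
            nlinarith
          have e3 : (1 + A) * (w + η * m) * 1 ≤ (1 + A) * (w + η * m) * (K / r) ^ (n + 1) :=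
            mul_le_mul_of_nonneg_left hKJ (by positivity)
          calc η * ((w + η * m) + m * A) ≤ (1 + A) * (w + η * m) * 1 := by rw [mul_one]; exact e1
            _ ≤ _ := e3
            _ = _ := by ring
        rw [mul_add]
        have h12 : η * ∑ i ∈ range n, ‖iteratedFDeriv ℝ (i + 1 + 2) q v‖ ≤
            η * (n * (Q * (K / r) ^ (n + 1) * (w + η * m))) := mul_le_mul_of_nonneg_left h8 hη
        have h13 : η * ‖iteratedFDeriv ℝ (0 + 2) q v‖ ≤ η * ((w + η * m) + m * A) :=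
          mul_le_mul_of_nonneg_left h9 hη
        calc _ ≤ n * Q * (K / r) ^ (n + 1) * (w + η * m) +
              (1 + A) * (K / r) ^ (n + 1) * (w + η * m) :=
              add_le_add (h12.trans h10) (h13.trans h11)
          _ = _ := by ring
      have e0 : n + 3 - 2 = n + 1 := by omega
      rw [e0]
      calc ‖iteratedFDeriv ℝ (n + 3) q v‖ ≤ _ := h5
        _ ≤ C2 * ((d : ℝ) ^ 4 * (C1 * (K / r) ^ (n + 1) * (2 * A * (w + η * m))) +
            (1 + A + n * Q) * (K / r) ^ (n + 1) * (w + η * m)) :=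
            mul_le_mul_of_nonneg_left (add_le_add h6 h7) hC2.le
        _ = C2 * ((d : ℝ) ^ 4 * (C1 * (2 * A)) + (1 + A + n * Q)) * (K / r) ^ (n + 1) *
            (w + η * m) := by ring
        _ ≤ _ := by
          have : 0 ≤ Q * (K / r) ^ (n + 1) * (w + η * m) := by positivity
          nlinarith
  obtain ⟨Q, hQ, h⟩ := main J
  refine ⟨2 * N1 + 2 + J, 2 ^ (2 * N1 + 1), Q, by omega, one_le_pow₀ (by norm_num), hQ, ?_⟩
  intro q h' μ v r K w η m hq hh hK hr hr1 hw hη hη1 hS hm j hj3 hjJ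
  exact h q h' μ v r K w η m hq hh hK hr hr1 hw hη hη1 hS hm j hj3 (by omega) hjJ

/-- The factor at a point where the Hessian of `q` is at most `X`. -/
theorem mu_val {d : ℕ} (hd : 2 ≤ d) {q h : E d → ℝ} {u : E d} {b μ X ρ : ℝ}
    (g4 : ∀ x : E d, b * ‖x‖ ^ 2 ≤ |⟪Hs h u x, x⟫|) (g5 : ‖Hs q u + μ • Hs h u‖ ≤ ρ)
    (hX : ‖Hs q u‖ ≤ X) : b * |μ| ≤ X + ρ := by
  obtain ⟨x, hx⟩ : ∃ x : E d, ‖x‖ = 1 := ⟨be ⟨0, by omega⟩, norm_be _⟩
  have h1 := g4 x
  rw [hx, one_pow, mul_one] at h1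
  have h2 : |μ| * |⟪Hs h u x, x⟫| ≤ ‖μ • Hs h u‖ := by
    have e1 : |μ| * |⟪Hs h u x, x⟫| = |⟪(μ • Hs h u) x, x⟫| := by
      rw [← abs_mul]
      simp [inner_smul_left]
    rw [e1]
    calc |⟪(μ • Hs h u) x, x⟫| ≤ ‖(μ • Hs h u) x‖ * ‖x‖ := abs_real_inner_le_norm _ _
      _ ≤ ‖μ • Hs h u‖ * ‖x‖ * ‖x‖ := by
        gcongr
        exact (μ • Hs h u).le_opNorm x
      _ = _ := by rw [hx]; ring
  have h3 : ‖μ • Hs h u‖ ≤ X + ρ := by
    have e2 : μ • Hs h u = (Hs q u + μ • Hs h u) - Hs q u := by abel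
    rw [e2]
    refine (norm_sub_le _ _).trans ?_
    linarith
  calc b * |μ| = |μ| * b := mul_comm _ _
    _ ≤ |μ| * |⟪Hs h u x, x⟫| := by gcongr
    _ ≤ _ := h2.trans h3

/-- One step of the iteration for the size of the factor. -/
theorem stra_num {K w η m b A C p P T : ℝ} (hK : 1 ≤ K) (hw : 0 < w) (hη : 0 ≤ η)
    (hηK : η * K ^ 2 ≤ 1) (hb : 0 < b) (hA : 1 ≤ A) (hC : 0 < C) (hp : 0 < p) (hP : 0 < P)
    (hT : 0 ≤ T) (hm : m = P * (K + T) * w) {x : ℝ}
    (h : b * x ≤ (2 + A) * w + C * (K / p) * (w + η * m) + (w + η * m)) :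
    x ≤ (4 + A + C * (1 / p)) / b * (1 + P) * (K + T * K⁻¹) * w := by
  have hKp : 0 < K := by linarith
  have hm0 : 0 ≤ m := by rw [hm]; positivity
  have hX : 0 ≤ w + η * m := by positivity
  have e3 : w + η * m ≤ K * (w + η * m) := le_mul_of_one_le_left hX hK
  have e4 : w ≤ K * (w + η * m) := by
    have : 0 ≤ η * m := by positivity
    linarith
  have e5 : (2 + A) * w ≤ (2 + A) * (K * (w + η * m)) := by gcongr
  have e6 : C * (K / p) * (w + η * m) = C * (1 / p) * (K * (w + η * m)) := by ring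
  have h11 : b * x ≤ (4 + A + C * (1 / p)) * (K * (w + η * m)) := by
    have : 0 ≤ K * (w + η * m) := by positivity
    calc b * x ≤ (2 + A) * w + C * (K / p) * (w + η * m) + (w + η * m) := h
      _ ≤ (2 + A) * (K * (w + η * m)) + C * (1 / p) * (K * (w + η * m)) + K * (w + η * m) := by
          rw [e6]; linarith
      _ ≤ _ := by linarith
  have h12 : K * (w + η * m) ≤ (1 + P) * (K + T * K⁻¹) * w := by
    have f1 : η * K ≤ K⁻¹ := by
      rw [← one_div, le_div_iff₀ hKp]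
      calc η * K * K = η * K ^ 2 := by ring
        _ ≤ 1 := hηK
    have f2 : K⁻¹ ≤ 1 := inv_le_one_of_one_le₀ hK
    have f3 : η * K * m ≤ K⁻¹ * m := mul_le_mul_of_nonneg_right f1 hm0
    have f4 : K⁻¹ * m ≤ P * (K + T * K⁻¹) * w := by
      have f5 : K⁻¹ * K ≤ K := mul_le_of_le_one_left hKp.le f2
      have f6 : K⁻¹ * m = P * (K⁻¹ * K + T * K⁻¹) * w := by
        rw [hm]; ring
      rw [f6]
      gcongr
    have f7 : K * w ≤ (K + T * K⁻¹) * w := by
      refine mul_le_mul_of_nonneg_right ?_ hw.le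
      have : 0 ≤ T * K⁻¹ := by positivity
      linarith
    calc K * (w + η * m) = K * w + η * K * m := by ring
      _ ≤ (K + T * K⁻¹) * w + P * (K + T * K⁻¹) * w := by linarith
      _ = _ := by ring
  have hc0 : 0 ≤ 4 + A + C * (1 / p) := by positivity
  have h13 : b * x ≤ (4 + A + C * (1 / p)) * ((1 + P) * (K + T * K⁻¹) * w) :=
    h11.trans (mul_le_mul_of_nonneg_left h12 hc0)
  have h14 : x ≤ ((4 + A + C * (1 / p)) * ((1 + P) * (K + T * K⁻¹) * w)) / b := by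
    rw [le_div_iff₀ hb]
    linarith
  refine h14.trans (le_of_eq ?_)
  ring

/-- Normalised form: the ball of radius one. -/
theorem stra_unit (d J n0 : ℕ) (hd : 2 ≤ d) (hJ : 3 ≤ J) {b A : ℝ} (hb : 0 < b) (hA : 1 ≤ A) :
    ∃ (N : ℕ) (K0 C : ℝ), J ≤ N ∧ 1 ≤ K0 ∧ 0 < C ∧ ∀ (q h μ : E d → ℝ) (v0 : E d)
      (K w η : ℝ), ContDiff ℝ ∞ q → ContDiff ℝ ∞ h → K0 ≤ K → 0 < w → 0 ≤ η →
      η * K ^ 2 ≤ 1 → SD d N n0 b A q h μ v0 1 K w η → |μ v0| ≤ w →
      ∀ v, ‖v - v0‖ ≤ 1 / 4 → |μ v| ≤ C * K * w ∧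
        ∀ j, 3 ≤ j → j ≤ J → ‖iteratedFDeriv ℝ j q v‖ ≤ C * K ^ (j - 2) * w := by
  obtain ⟨N, K0, C, hJN, hK0, hC, hstep⟩ := stra_step d J n0 hd hb hA
  set I : ℕ := n0 + 1 with hI
  set r' : ℝ := 1 / (2 * I) with hr'
  have hI1 : (1 : ℝ) ≤ I := by rw [hI]; push_cast; linarith [(Nat.cast_nonneg n0 : (0 : ℝ) ≤ n0)]
  have hI0 : (0 : ℝ) < I := by linarith
  have hr'0 : 0 < r' := by rw [hr']; positivity
  have hr'1 : r' ≤ 1 := by
    rw [hr', div_le_one (by positivity)]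
    linarith
  have hIr : (I : ℝ) * r' = 1 / 2 := by rw [hr']; field_simp
  -- the constants of the iteration
  set Q : ℝ := (4 + A + C * (1 / r')) / b with hQ
  have hQ0 : 0 < Q := by rw [hQ]; positivity
  obtain ⟨P, hP0, hPs⟩ : ∃ P : ℕ → ℝ, P 0 = 4 / b ∧ ∀ i, P (i + 1) = Q * (1 + P i) :=
    ⟨fun n => Nat.rec (4 / b) (fun _ x => Q * (1 + x)) n, rfl, fun i => rfl⟩
  have hPp : ∀ i, 0 < P i := by
    intro i
    induction i with
    | zero => rw [hP0]; positivity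
    | succ i ih => rw [hPs]; positivity
  have hPI := hPp I
  refine ⟨N, max K0 (2 / b), 2 * P I + C * 4 ^ J * (1 + 2 * P I), hJN, hK0.trans (le_max_left _ _),
    by positivity, ?_⟩
  intro q h μ v0 K w η hq hh hK hw hη hηK hS hμ0
  have hKK0 : K0 ≤ K := (le_max_left _ _).trans hK
  have hKb : 2 / b ≤ K := (le_max_right _ _).trans hK
  have hK1 : 1 ≤ K := hK0.trans hKK0
  have hKp : 0 < K := by linarith
  have hηK1 : η * K ≤ 1 := by
    have : η * K ≤ η * K ^ 2 := mul_le_mul_of_nonneg_left (by nlinarith) hη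
    linarith
  have hη1 : η ≤ 1 := by nlinarith
  have hηb : η ≤ b / 2 := by
    have h1 : 2 ≤ K * b := by rwa [div_le_iff₀ hb] at hKb
    nlinarith [mul_nonneg hη hKp.le]
  -- the iteration
  have hit : ∀ i ≤ I, ∀ v, ‖v - v0‖ ≤ 1 - i * r' →
      |μ v| ≤ P i * (K + K ^ n0 * K⁻¹ ^ i) * w := by
    intro i
    induction i with
    | zero =>
      intro _ v hv
      have hv1 : ‖v - v0‖ ≤ 1 := by simpa using hv
      obtain ⟨g1, -, -, g4, g5⟩ := hS v hv1
      have h1 : ‖Hs q v‖ ≤ K ^ n0 * w := (norm_Hs_le hq v).trans (g1 2 le_rfl (by omega))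
      have h2 := mu_val hd g4 g5 h1
      have h3 : η * |μ v| ≤ b / 2 * |μ v| := mul_le_mul_of_nonneg_right hηb (abs_nonneg _)
      have h4 : w ≤ K ^ n0 * w := le_mul_of_one_le_left hw.le (one_le_pow₀ hK1)
      have h5 : |μ v| ≤ 4 / b * (K ^ n0 * w) := by
        rw [div_mul_eq_mul_div, le_div_iff₀ hb]
        linarith
      rw [hP0, pow_zero, mul_one]
      have h6 : 0 ≤ 4 / b * (K * w) := by positivity
      calc |μ v| ≤ 4 / b * (K ^ n0 * w) := h5
        _ ≤ 4 / b * (K ^ n0 * w) + 4 / b * (K * w) := by linarith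
        _ = _ := by ring
    | succ i ih =>
      intro hi v hv
      have hi' : i ≤ I := by omega
      have hiI : ((i : ℝ) + 1) * r' ≤ 1 / 2 := by
        rw [← hIr]
        have : ((i : ℝ) + 1) ≤ I := by exact_mod_cast hi
        gcongr
      have hir0 : 0 ≤ (i : ℝ) * r' := by positivity
      set m : ℝ := P i * (K + K ^ n0 * K⁻¹ ^ i) * w with hm
      have hm0 : 0 ≤ m := by
        have := hPp i
        positivity
      push_cast at hv
      have hball : ∀ u, ‖u - v0‖ ≤ 1 - (i + 1) * r' → ∀ z, ‖z - u‖ ≤ r' → |μ z| ≤ m := by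
        intro u hu z hz
        refine ih hi' z ?_
        calc ‖z - v0‖ = ‖(z - u) + (u - v0)‖ := by congr 1; abel
          _ ≤ ‖z - u‖ + ‖u - v0‖ := norm_add_le _ _
          _ ≤ 1 - i * r' := by linarith
      have h3 : ∀ u, ‖u - v0‖ ≤ 1 - (i + 1) * r' →
          ‖iteratedFDeriv ℝ 3 q u‖ ≤ C * (K / r') * (w + η * m) := by
        intro u hu
        have := hstep q h μ u r' K w η m hq hh hKK0 hr'0 hr'1 hw hη hη1
          (hS.mono (by linarith)) (hball u hu) 3 le_rfl hJ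
        simpa using this
      have hv1 : ‖v - v0‖ ≤ 1 := by linarith
      have h00 : ‖v0 - v0‖ ≤ 1 - ((i : ℝ) + 1) * r' := by
        rw [sub_self, norm_zero]
        linarith
      have h4 : ‖Hs q v - Hs q v0‖ ≤ C * (K / r') * (w + η * m) := by
        have h5 := Hs_lip_on hq (convex_closedBall v0 (1 - ((i : ℝ) + 1) * r'))
          (B := C * (K / r') * (w + η * m))
          (fun y hy => h3 y (by simpa [dist_eq_norm] using hy))
          (y := v) (z := v0) (by simpa [dist_eq_norm] using hv) (by simpa [dist_eq_norm] using h00)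
        refine h5.trans ?_
        have h6 : 0 ≤ C * (K / r') * (w + η * m) := by positivity
        exact mul_le_of_le_one_right h6 hv1
      have h7 : ‖Hs q v0‖ ≤ (2 + A) * w := by
        obtain ⟨-, g2, -, -, g5⟩ := hS v0 (by simp)
        have e2 : Hs q v0 = (Hs q v0 + μ v0 • Hs h v0) - μ v0 • Hs h v0 := by abel
        rw [e2]
        refine (norm_sub_le _ _).trans ?_
        have e3 : ‖μ v0 • Hs h v0‖ ≤ w * A := by
          rw [norm_smul, Real.norm_eq_abs]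
          have := (norm_Hs_le hh v0).trans g2
          gcongr
        have e4 : η * |μ v0| ≤ 1 * w := by gcongr
        linarith
      have h8 : ‖Hs q v‖ ≤ (2 + A) * w + C * (K / r') * (w + η * m) := by
        calc ‖Hs q v‖ = ‖Hs q v0 + (Hs q v - Hs q v0)‖ := by congr 1; abel
          _ ≤ _ := (norm_add_le _ _).trans (by linarith)
      have h10 : η * |μ v| ≤ η * m := by
        refine mul_le_mul_of_nonneg_left ?_ hη
        exact hball v hv v (by rw [sub_self, norm_zero]; exact hr'0.le)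
      obtain ⟨-, -, -, g4, g5⟩ := hS v hv1
      have h9 : b * |μ v| ≤ (2 + A) * w + C * (K / r') * (w + η * m) + (w + η * m) :=
        mu_val hd g4 (g5.trans (by linarith)) h8
      have h11 := stra_num hK1 hw hη hηK hb hA hC hr'0 (hPp i)
        (T := K ^ n0 * K⁻¹ ^ i) (by positivity) hm h9
      rw [hPs, hQ, pow_succ, ← mul_assoc]
      exact h11
  -- conclusion
  have hfin : ∀ v, ‖v - v0‖ ≤ 1 / 2 → |μ v| ≤ 2 * P I * K * w := by
    intro v hv
    have h1 := hit I le_rfl v (by rw [hIr]; linarith)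
    have h2 : K ^ n0 * K⁻¹ ^ I ≤ K := by
      have : K ^ n0 * K⁻¹ ^ I = K⁻¹ := by
        rw [hI, pow_succ, ← mul_assoc, ← mul_pow, mul_inv_cancel₀ hKp.ne', one_pow, one_mul]
      rw [this]
      exact (inv_le_one_of_one_le₀ hK1).trans hK1
    have h3 : P I * (K + K ^ n0 * K⁻¹ ^ I) * w ≤ P I * (K + K) * w := by
      gcongr
    calc |μ v| ≤ _ := h1
      _ ≤ _ := h3
      _ = _ := by ring
  intro v hv
  constructor
  · refine (hfin v (by linarith)).trans ?_
    have : 0 ≤ C * 4 ^ J * (1 + 2 * P I) * K * w := by positivity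
    linarith [add_mul (2 * P I) (C * 4 ^ J * (1 + 2 * P I)) (K * w)]
  · intro j hj3 hjJ
    set m : ℝ := 2 * P I * K * w with hm
    have hm0 : 0 ≤ m := by positivity
    have h1 := hstep q h μ v (1 / 4) K w η m hq hh hKK0 (by norm_num) (by norm_num) hw hη hη1
      (hS.mono (by linarith)) (fun z hz => hfin z (by
        calc ‖z - v0‖ = ‖(z - v) + (v - v0)‖ := by congr 1; abel
          _ ≤ ‖z - v‖ + ‖v - v0‖ := norm_add_le _ _
          _ ≤ 1 / 2 := by linarith)) j hj3 hjJ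
    have h2 : η * m ≤ 2 * P I * w := by
      calc η * m = (η * K) * (2 * P I * w) := by rw [hm]; ring
        _ ≤ 1 * (2 * P I * w) := by gcongr
        _ = _ := one_mul _
    have h3 : (K / (1 / 4)) ^ (j - 2) ≤ 4 ^ J * K ^ (j - 2) := by
      have e1 : K / (1 / 4) = 4 * K := by ring
      rw [e1, mul_pow]
      have : (4 : ℝ) ^ (j - 2) ≤ 4 ^ J := pow_le_pow_right₀ (by norm_num) (by omega)
      gcongr
    calc ‖iteratedFDeriv ℝ j q v‖ ≤ _ := h1
      _ ≤ C * (4 ^ J * K ^ (j - 2)) * (w + 2 * P I * w) := by gcongr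
      _ = C * 4 ^ J * (1 + 2 * P I) * K ^ (j - 2) * w := by ring
      _ ≤ _ := by
        have : 0 ≤ 2 * P I * (K ^ (j - 2) * w) := by positivity
        have e1 : (2 * P I + C * 4 ^ J * (1 + 2 * P I)) * K ^ (j - 2) * w =
          2 * P I * (K ^ (j - 2) * w) + C * 4 ^ J * (1 + 2 * P I) * K ^ (j - 2) * w := by ring
        rw [e1]
        linarith

theorem stra_scale {d : ℕ} {f : E d → ℝ} (hf : ContDiff ℝ ∞ f) (z : E d) {σ : ℝ} (hσ : 0 < σ)
    (i : ℕ) (v : E d) : ‖iteratedFDeriv ℝ i (fun v => f (z + σ • v)) v‖ =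
      σ ^ i * ‖iteratedFDeriv ℝ i f (z + σ • v)‖ := by
  set g : E d →L[ℝ] E d := σ • ContinuousLinearMap.id ℝ (E d) with hg
  have hf' : ContDiff ℝ ∞ (fun v => f (z + v)) := hf.comp (contDiff_const.add contDiff_id)
  have hi : ((i : ℕ∞) : WithTop ℕ∞) ≤ (∞ : WithTop ℕ∞) := by exact_mod_cast le_top
  have h1 : (fun v => f (z + σ • v)) = (fun v => f (z + v)) ∘ g := by
    funext v
    simp [hg]
  rw [h1, g.iteratedFDeriv_comp_right hf' v hi]
  have h2 : iteratedFDeriv ℝ i (fun v => f (z + v)) (g v) = iteratedFDeriv ℝ i f (z + σ • v) := by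
    rw [iteratedFDeriv_comp_add_left]
    simp [hg]
  rw [h2]
  set T := iteratedFDeriv ℝ i f (z + σ • v)
  have h3 : T.compContinuousLinearMap (fun _ => g) = σ ^ i • T := by
    ext m
    simp only [ContinuousMultilinearMap.compContinuousLinearMap_apply, smul_apply]
    have := T.map_smul_univ (fun _ => σ) m
    simp only [prod_const, card_univ, Fintype.card_fin] at this
    rw [← this]
    simp [hg]
  rw [h3, norm_smul, Real.norm_eq_abs, abs_of_pos (by positivity)]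

theorem stra_fderiv {d : ℕ} {F : Type*} [NormedAddCommGroup F] [NormedSpace ℝ F] {f : E d → F}
    (hf : Differentiable ℝ f) (z : E d) (σ : ℝ) (v : E d) :
    fderiv ℝ (fun v => f (z + σ • v)) v = σ • fderiv ℝ f (z + σ • v) := by
  have h1 : HasFDerivAt (fun v : E d => z + σ • v) (σ • ContinuousLinearMap.id ℝ (E d)) v :=
    ((hasFDerivAt_id v).const_smul σ).const_add z
  have h2 := (hf (z + σ • v)).hasFDerivAt.comp v h1
  have h3 := h2.fderiv
  simp only [Function.comp_def] at h3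
  rw [h3]
  ext x
  simp

theorem stra_Hs {d : ℕ} {f : E d → ℝ} (hf : ContDiff ℝ ∞ f) (z : E d) (σ : ℝ) (v : E d) :
    Hs (fun v => f (z + σ • v)) v = σ ^ 2 • Hs f (z + σ • v) := by
  have hg : ContDiff ℝ ∞ (fun v => f (z + σ • v)) :=
    hf.comp (contDiff_const.add (contDiff_id.const_smul σ))
  refine ContinuousLinearMap.ext fun x => ext_inner_right ℝ fun y => ?_
  rw [inner_Hs hg]
  have h1 : fderiv ℝ (fun v => f (z + σ • v)) = fun v => σ • fderiv ℝ f (z + σ • v) := by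
    funext v
    exact stra_fderiv (hf.differentiable (by simp)) z σ v
  have h2 : fderiv ℝ (fun v => σ • fderiv ℝ f (z + σ • v)) v =
      σ • (σ • fderiv ℝ (fderiv ℝ f) (z + σ • v)) := by
    have h3 : Differentiable ℝ (fun v => fderiv ℝ f (z + σ • v)) :=
      (differentiable_fderiv hf).comp
        ((differentiable_const z).add ((differentiable_const σ).smul differentiable_id))
    rw [fderiv_fun_const_smul (h3 v), stra_fderiv (differentiable_fderiv hf)]
  rw [h1, h2]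
  have h4 := inner_Hs hf (z + σ • v) x y
  simp only [smul_apply, inner_smul_left, h4]
  simp
  ring

theorem stra_Hs2 {d : ℕ} {f : E d → ℝ} (hf : ContDiff ℝ ∞ f) (c : ℝ) (v : E d) :
    Hs (fun v => c * f v) v = c • Hs f v := by
  have hg : ContDiff ℝ ∞ (fun v => c * f v) := contDiff_const.mul hf
  refine ContinuousLinearMap.ext fun x => ext_inner_right ℝ fun y => ?_
  rw [inner_Hs hg]
  have h1 : fderiv ℝ (fun v => c * f v) = fun v => c • fderiv ℝ f v := by
    funext v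
    exact fderiv_const_mul (hf.differentiable (by simp) v) c
  rw [h1, fderiv_fun_const_smul (differentiable_fderiv hf v)]
  have h4 := inner_Hs hf v x y
  simp only [smul_apply, inner_smul_left, h4]
  simp

theorem stra_Hs3 {d : ℕ} {f : E d → ℝ} (hf : ContDiff ℝ ∞ f) (z : E d) {σ : ℝ} (hσ : 0 < σ)
    (v : E d) : Hs (fun v => σ⁻¹ ^ 2 * f (z + σ • v)) v = Hs f (z + σ • v) := by
  have hg : ContDiff ℝ ∞ (fun v => f (z + σ • v)) :=
    hf.comp (contDiff_const.add (contDiff_id.const_smul σ))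
  rw [stra_Hs2 hg, stra_Hs hf, smul_smul, ← mul_pow, inv_mul_cancel₀ hσ.ne', one_pow, one_smul]

theorem stra_scale2 {d : ℕ} {f : E d → ℝ} (hf : ContDiff ℝ ∞ f) (z : E d) {σ : ℝ} (hσ : 0 < σ)
    {j : ℕ} (hj : 2 ≤ j) (v : E d) :
    ‖iteratedFDeriv ℝ j (fun v => σ⁻¹ ^ 2 * f (z + σ • v)) v‖ =
      σ ^ (j - 2) * ‖iteratedFDeriv ℝ j f (z + σ • v)‖ := by
  have hg : ContDiff ℝ ∞ (fun v => f (z + σ • v)) :=
    hf.comp (contDiff_const.add (contDiff_id.const_smul σ))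
  have hi : ((j : ℕ∞) : WithTop ℕ∞) ≤ (∞ : WithTop ℕ∞) := by exact_mod_cast le_top
  have h1 : iteratedFDeriv ℝ j (fun v => σ⁻¹ ^ 2 * f (z + σ • v)) v =
      σ⁻¹ ^ 2 • iteratedFDeriv ℝ j (fun v => f (z + σ • v)) v :=
    iteratedFDeriv_const_smul_apply (a := σ⁻¹ ^ 2) (hg.of_le hi).contDiffAt
  rw [h1, norm_smul, stra_scale hf z hσ, Real.norm_eq_abs, abs_of_pos (by positivity), ← mul_assoc]
  congr 1
  obtain ⟨k, rfl⟩ := Nat.exists_eq_add_of_le hj
  rw [Nat.add_sub_cancel_left, pow_add, ← mul_assoc, ← mul_pow, inv_mul_cancel₀ hσ.ne', one_pow,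
    one_mul]

/-- **(STRa)** If the Hessian of `q` is a multiple `-μ` of the Hessian of `h` up to `w + η |μ|` on a
ball of radius `σ`, and `|μ| ≤ w` at the centre, then the derivatives of `q` of order `j ≥ 3` are at
most `C K ^ (j - 2) w σ ^ (2 - j)` and `|μ| ≤ C K w` on the ball of radius `σ / 4`. -/
theorem stra (d J n0 : ℕ) (hd : 2 ≤ d) (hJ : 3 ≤ J) {b A : ℝ} (hb : 0 < b) (hA : 1 ≤ A) :
    ∃ (N : ℕ) (K0 C : ℝ), J ≤ N ∧ 1 ≤ K0 ∧ 0 < C ∧ ∀ (q h μ : E d → ℝ) (v0 : E d)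
      (σ K w η : ℝ), ContDiff ℝ ∞ q → ContDiff ℝ ∞ h → K0 ≤ K → 0 < σ → 0 < w → 0 ≤ η →
      η * K ^ 2 ≤ 1 →
      (∀ v, ‖v - v0‖ ≤ σ →
        (∀ j, 2 ≤ j → j ≤ N → ‖iteratedFDeriv ℝ j q v‖ ≤ K ^ n0 * w * σ⁻¹ ^ (j - 2)) ∧
        ‖iteratedFDeriv ℝ 2 h v‖ ≤ A ∧
        (∀ j, 3 ≤ j → j ≤ N → ‖iteratedFDeriv ℝ j h v‖ ≤ η * σ⁻¹ ^ (j - 2)) ∧
        (∀ u : E d, b * ‖u‖ ^ 2 ≤ |⟪Hs h v u, u⟫|) ∧
        ‖Hs q v + μ v • Hs h v‖ ≤ w + η * |μ v|) →
      |μ v0| ≤ w →
      ∀ v, ‖v - v0‖ ≤ σ / 4 → |μ v| ≤ C * K * w ∧ ∀ j, 3 ≤ j → j ≤ J →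
        ‖iteratedFDeriv ℝ j q v‖ ≤ C * K ^ (j - 2) * w * σ⁻¹ ^ (j - 2) := by
  obtain ⟨N, K0, C, hJN, hK0, hC, H⟩ := stra_unit d J n0 hd hJ hb hA
  refine ⟨N, K0, C, hJN, hK0, hC, ?_⟩
  intro q h μ v0 σ K w η hq hh hK hσ hw hη hηK hS hμ0 v hv
  have hcd : ∀ f : E d → ℝ, ContDiff ℝ ∞ f → ContDiff ℝ ∞ (fun v => σ⁻¹ ^ 2 * f (v0 + σ • v)) :=
    fun f hf => contDiff_const.mul (hf.comp (contDiff_const.add (contDiff_id.const_smul σ)))
  have hσj : ∀ k : ℕ, σ ^ k * σ⁻¹ ^ k = 1 := fun k => by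
    rw [← mul_pow, mul_inv_cancel₀ hσ.ne', one_pow]
  have hSD : SD d N n0 b A (fun v => σ⁻¹ ^ 2 * q (v0 + σ • v)) (fun v => σ⁻¹ ^ 2 * h (v0 + σ • v))
      (fun v => μ (v0 + σ • v)) 0 1 K w η := by
    intro u hu
    rw [sub_zero] at hu
    have hu' : ‖v0 + σ • u - v0‖ ≤ σ := by
      rw [add_sub_cancel_left, norm_smul, Real.norm_eq_abs, abs_of_pos hσ]
      exact mul_le_of_le_one_right hσ.le hu
    obtain ⟨g1, g2, g3, g4, g5⟩ := hS _ hu'
    refine ⟨fun j hj hjN => ?_, ?_, fun j hj hjN => ?_, ?_, ?_⟩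
    · rw [stra_scale2 hq v0 hσ hj]
      calc σ ^ (j - 2) * ‖iteratedFDeriv ℝ j q (v0 + σ • u)‖
          ≤ σ ^ (j - 2) * (K ^ n0 * w * σ⁻¹ ^ (j - 2)) :=
            mul_le_mul_of_nonneg_left (g1 j hj hjN) (by positivity)
        _ = (σ ^ (j - 2) * σ⁻¹ ^ (j - 2)) * (K ^ n0 * w) := by ring
        _ = _ := by rw [hσj, one_mul]
    · rw [stra_scale2 hh v0 hσ le_rfl]
      simpa using g2
    · rw [stra_scale2 hh v0 hσ (by omega)]
      calc σ ^ (j - 2) * ‖iteratedFDeriv ℝ j h (v0 + σ • u)‖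
          ≤ σ ^ (j - 2) * (η * σ⁻¹ ^ (j - 2)) :=
            mul_le_mul_of_nonneg_left (g3 j hj hjN) (by positivity)
        _ = (σ ^ (j - 2) * σ⁻¹ ^ (j - 2)) * η := by ring
        _ = _ := by rw [hσj, one_mul]
    · rw [stra_Hs3 hh v0 hσ]
      exact g4
    · rw [stra_Hs3 hh v0 hσ, stra_Hs3 hq v0 hσ]
      exact g5
  have h0 : |μ (v0 + σ • (0 : E d))| ≤ w := by simpa using hμ0
  have hu : ‖σ⁻¹ • (v - v0) - 0‖ ≤ 1 / 4 := by
    rw [sub_zero, norm_smul, Real.norm_eq_abs, abs_of_pos (inv_pos.2 hσ), inv_mul_le_iff₀ hσ]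
    linarith
  have h1 := H _ _ _ 0 K w η (hcd q hq) (hcd h hh) hK hw hη hηK hSD h0 (σ⁻¹ • (v - v0)) hu
  have h2 : v0 + σ • (σ⁻¹ • (v - v0)) = v := by
    rw [smul_smul, mul_inv_cancel₀ hσ.ne', one_smul]
    abel
  rw [h2] at h1
  refine ⟨h1.1, fun j hj hjJ => ?_⟩
  have h3 := h1.2 j hj hjJ
  rw [stra_scale2 hq v0 hσ (by omega), h2] at h3
  calc ‖iteratedFDeriv ℝ j q v‖ = (σ ^ (j - 2) * σ⁻¹ ^ (j - 2)) * ‖iteratedFDeriv ℝ j q v‖ := by
        rw [hσj, one_mul]
    _ = (σ ^ (j - 2) * ‖iteratedFDeriv ℝ j q v‖) * σ⁻¹ ^ (j - 2) := by ring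
    _ ≤ (C * K ^ (j - 2) * w) * σ⁻¹ ^ (j - 2) := by gcongr

/-- **(STRa), uniform form**: the loss is one factor `K` for all the orders `3 ≤ j ≤ J`, and only
`η K ≤ 1` is needed (`stra` for the `J`-th root of `K`). -/
theorem stra_uni (d J n0 : ℕ) (hd : 2 ≤ d) (hJ : 3 ≤ J) {b A : ℝ} (hb : 0 < b) (hA : 1 ≤ A) :
    ∃ (N : ℕ) (K0 C : ℝ), J ≤ N ∧ 1 ≤ K0 ∧ 0 < C ∧ ∀ (q h μ : E d → ℝ) (v0 : E d)
      (σ K w η : ℝ), ContDiff ℝ ∞ q → ContDiff ℝ ∞ h → K0 ≤ K → 0 < σ → 0 < w → 0 ≤ η →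
      η * K ≤ 1 →
      (∀ v, ‖v - v0‖ ≤ σ →
        (∀ j, 2 ≤ j → j ≤ N → ‖iteratedFDeriv ℝ j q v‖ ≤ K ^ n0 * w * σ⁻¹ ^ (j - 2)) ∧
        ‖iteratedFDeriv ℝ 2 h v‖ ≤ A ∧
        (∀ j, 3 ≤ j → j ≤ N → ‖iteratedFDeriv ℝ j h v‖ ≤ η * σ⁻¹ ^ (j - 2)) ∧
        (∀ u : E d, b * ‖u‖ ^ 2 ≤ |⟪Hs h v u, u⟫|) ∧
        ‖Hs q v + μ v • Hs h v‖ ≤ w + η * |μ v|) →
      |μ v0| ≤ w →
      ∀ v, ‖v - v0‖ ≤ σ / 4 → |μ v| ≤ C * K * w ∧ ∀ j, 3 ≤ j → j ≤ J →
        ‖iteratedFDeriv ℝ j q v‖ ≤ C * K * w * σ⁻¹ ^ (j - 2) := by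
  obtain ⟨N, K0, C, hJN, hK0, hC, H⟩ := stra d J (n0 * J) hd hJ hb hA
  refine ⟨N, K0 ^ J, C, hJN, one_le_pow₀ hK0, hC, ?_⟩
  intro q h μ v0 σ K w η hq hh hK hσ hw hη hηK hS hμ0 v hv
  have hK1 : 1 ≤ K := (one_le_pow₀ hK0).trans hK
  have hKp : 0 < K := by linarith
  have hJ0 : (J : ℝ) ≠ 0 := by positivity
  set k : ℝ := K ^ ((J : ℝ)⁻¹) with hk
  have hkJ : k ^ J = K := by
    rw [hk, ← Real.rpow_natCast, ← Real.rpow_mul hKp.le, inv_mul_cancel₀ hJ0, Real.rpow_one]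
  have hk1 : 1 ≤ k := Real.one_le_rpow hK1 (by positivity)
  have hk0 : K0 ≤ k := by
    refine le_of_pow_le_pow_left₀ (n := J) (by omega) (by linarith) ?_
    rw [hkJ]
    exact hK
  have hkle : ∀ i, i ≤ J → k ^ i ≤ K := fun i hi => by
    rw [← hkJ]
    exact pow_le_pow_right₀ hk1 hi
  have hn : k ^ (n0 * J) = K ^ n0 := by rw [mul_comm, pow_mul, hkJ]
  have h1 := H q h μ v0 σ k w η hq hh hk0 hσ hw hη
    ((mul_le_mul_of_nonneg_left (hkle 2 (by omega)) hη).trans hηK)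
    (by rw [hn]; exact hS) hμ0 v hv
  have hσi : 0 < σ⁻¹ := inv_pos.2 hσ
  refine ⟨h1.1.trans ?_, fun j hj hjJ => (h1.2 j hj hjJ).trans ?_⟩
  · have := hkle 1 (by omega)
    rw [pow_one] at this
    gcongr
  · have := hkle (j - 2) (by omega)
    gcongr

end Pool.Agent.GNP
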