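import Pool.Agent.GNP.RT

/-!
Definite pencils: the number of roots near a given point and subspaces on which the pencil is small
or large. Abstract form: `μ` and a basis `v`, orthonormal for `Q`, with `P (v i) = μ i • Q (v i)`.
-/

namespace Pool.Agent.GNP

open Module Pool.Agent.MP_6cbfb8_an
open scoped RealInnerProductSpace

namespace RTC

/-- two subspaces of complementary dimension plus one meet -/
theorem exists_ne_zero {V : Type*} [NormedAddCommGroup V] [InnerProductSpace ℝ V]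
    [FiniteDimensional ℝ V] (U W : Submodule ℝ V)
    (h : finrank ℝ V < finrank ℝ U + finrank ℝ W) : ∃ x, x ∈ U ∧ x ∈ W ∧ x ≠ 0 := by
  have h1 := Submodule.finrank_sup_add_finrank_inf_eq U W
  have h2 : finrank ℝ ↥(U ⊔ W) ≤ finrank ℝ V := Submodule.finrank_le _
  have h3 : 0 < finrank ℝ ↥(U ⊓ W) := by omega
  have h4 : (U ⊓ W) ≠ ⊥ := by
    intro h0
    rw [h0] at h3
    simp at h3
  obtain ⟨x, hx, hx0⟩ := Submodule.exists_mem_ne_zero_of_ne_bot h4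
  exact ⟨x, hx.1, hx.2, hx0⟩

/-- The span of a part of the basis. -/
def spn {d : ℕ} (v : Fin d → E d) (O : Finset (Fin d)) : Submodule ℝ (E d) :=
  Submodule.span ℝ (Set.range fun i : O => v i)

/-- The data: a basis which is orthonormal for `Q` and diagonal for `P`. -/
structure Dg {d : ℕ} (b : ℝ) (P Q : E d →L[ℝ] E d) (μ : Fin d → ℝ) (v : Fin d → E d) : Prop where
  hb : 0 < b
  symP : Sy P
  symQ : Sy Q
  pos : ∀ x, b * ‖x‖ ^ 2 ≤ ⟪Q x, x⟫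
  orth : ∀ i j, ⟪Q (v i), v j⟫ = if i = j then 1 else 0
  eig : ∀ i, P (v i) = μ i • Q (v i)

variable {d : ℕ} {b : ℝ} {P Q : E d →L[ℝ] E d} {μ : Fin d → ℝ} {v : Fin d → E d}

theorem Dg.linInd (h : Dg b P Q μ v) : LinearIndependent ℝ v := by
  rw [Fintype.linearIndependent_iff]
  intro g hg j
  have h1 : ⟪Q (∑ i, g i • v i), v j⟫ = g j := by
    rw [map_sum, sum_inner, Finset.sum_eq_single j]
    · rw [map_smul, real_inner_smul_left, h.orth]; simp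
    · intro i _ hij
      rw [map_smul, real_inner_smul_left, h.orth]; simp [hij]
    · intro hj; exact absurd (Finset.mem_univ j) hj
  rw [hg, map_zero, inner_zero_left] at h1
  exact h1.symm

theorem Dg.finrank_spn (h : Dg b P Q μ v) (O : Finset (Fin d)) :
    finrank ℝ (spn v O) = O.card := by
  have h1 : LinearIndependent ℝ (fun i : O => v i) :=
    h.linInd.comp _ Subtype.coe_injective
  exact (finrank_span_eq_card h1).trans (Fintype.card_coe O)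

/-- the coordinates -/
theorem Dg.sum_eq (h : Dg b P Q μ v) (x : E d) : ∑ i, ⟪Q x, v i⟫ • v i = x := by
  have hsp : Submodule.span ℝ (Set.range v) = ⊤ :=
    h.linInd.span_eq_top_of_card_eq_finrank' (by simp)
  have hx : x ∈ Submodule.span ℝ (Set.range v) := by rw [hsp]; trivial
  rw [Submodule.mem_span_range_iff_exists_fun] at hx
  obtain ⟨c, hc⟩ := hx
  have h1 : ∀ j, ⟪Q x, v j⟫ = c j := by
    intro j
    rw [← hc, map_sum, sum_inner, Finset.sum_eq_single j]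
    · rw [map_smul, real_inner_smul_left, h.orth]; simp
    · intro i _ hij
      rw [map_smul, real_inner_smul_left, h.orth]; simp [hij]
    · intro hj; exact absurd (Finset.mem_univ j) hj
  simp_rw [h1]
  exact hc

theorem Dg.coord_zero (h : Dg b P Q μ v) {O : Finset (Fin d)} {x : E d} (hx : x ∈ spn v O)
    {i : Fin d} (hi : i ∉ O) : ⟪Q x, v i⟫ = 0 := by
  refine Submodule.span_induction (p := fun x _ => ⟪Q x, v i⟫ = 0) ?_ ?_ ?_ ?_ hx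
  · rintro _ ⟨j, rfl⟩
    have hij : (j : Fin d) ≠ i := fun h => hi (h ▸ j.2)
    simp [h.orth, hij]
  · simp
  · intro x y _ _ hx hy
    rw [map_add, inner_add_left, hx, hy, add_zero]
  · intro a x _ hx
    rw [map_smul, real_inner_smul_left, hx, mul_zero]

theorem Dg.quad_sum (h : Dg b P Q μ v) (a : Fin d → ℝ) :
    ⟪Q (∑ i, a i • v i), ∑ i, a i • v i⟫ = ∑ i, a i ^ 2 := by
  rw [map_sum, sum_inner]
  refine Finset.sum_congr rfl fun i _ => ?_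
  rw [map_smul, real_inner_smul_left, inner_sum, Finset.sum_eq_single i]
  · rw [real_inner_smul_right, h.orth]; simp; ring
  · intro j _ hij
    rw [real_inner_smul_right, h.orth]; simp [hij.symm]
  · intro hj; exact absurd (Finset.mem_univ i) hj

theorem Dg.quad (h : Dg b P Q μ v) (x : E d) : ⟪Q x, x⟫ = ∑ i, ⟪Q x, v i⟫ ^ 2 := by
  have h1 := h.quad_sum (fun i => ⟪Q x, v i⟫)
  rw [h.sum_eq x] at h1
  exact h1

theorem Dg.sub_eq (h : Dg b P Q μ v) (s : ℝ) (x : E d) :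
    P x - s • Q x = Q (∑ i, ((μ i - s) * ⟪Q x, v i⟫) • v i) := by
  conv_lhs => rw [← h.sum_eq x]
  rw [map_sum, map_sum, map_sum, Finset.smul_sum, ← Finset.sum_sub_distrib]
  refine Finset.sum_congr rfl fun i _ => ?_
  rw [map_smul, map_smul, map_smul, h.eig, smul_smul, smul_smul, ← sub_smul]
  congr 1
  ring

theorem Dg.norm_le (h : Dg b P Q μ v) (z : E d) : b * ‖z‖ ≤ ‖Q z‖ := by
  rcases eq_or_ne z 0 with rfl | hz
  · simp
  · have h1 := h.pos z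
    have h2 : ⟪Q z, z⟫ ≤ ‖Q z‖ * ‖z‖ := real_inner_le_norm _ _
    have h3 : 0 < ‖z‖ := norm_pos_iff.2 hz
    have h4 : b * ‖z‖ * ‖z‖ ≤ ‖Q z‖ * ‖z‖ := by
      calc b * ‖z‖ * ‖z‖ = b * ‖z‖ ^ 2 := by ring
        _ ≤ _ := h1.trans h2
    exact le_of_mul_le_mul_right h4 h3

/-- upper bound of the coordinates of `z` by `‖Q z‖` -/
theorem Dg.sum_le (h : Dg b P Q μ v) (a : Fin d → ℝ) :
    b * ∑ i, a i ^ 2 ≤ ‖Q (∑ i, a i • v i)‖ ^ 2 := by
  set z := ∑ i, a i • v i with hz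
  have h1 : ⟪Q z, z⟫ = ∑ i, a i ^ 2 := h.quad_sum a
  have h2 : ⟪Q z, z⟫ ≤ ‖Q z‖ * ‖z‖ := real_inner_le_norm _ _
  have h3 := h.norm_le z
  rw [← h1]
  calc b * ⟪Q z, z⟫ ≤ b * (‖Q z‖ * ‖z‖) := mul_le_mul_of_nonneg_left h2 h.hb.le
    _ = ‖Q z‖ * (b * ‖z‖) := by ring
    _ ≤ ‖Q z‖ * ‖Q z‖ := mul_le_mul_of_nonneg_left h3 (norm_nonneg _)
    _ = ‖Q z‖ ^ 2 := by ring

theorem Dg.le_sum (h : Dg b P Q μ v) {B : ℝ} (hB : ‖Q‖ ≤ B) (a : Fin d → ℝ) :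
    b * ‖Q (∑ i, a i • v i)‖ ^ 2 ≤ B ^ 2 * ∑ i, a i ^ 2 := by
  set z := ∑ i, a i • v i with hz
  have hB0 : 0 ≤ B := (norm_nonneg Q).trans hB
  have h1 : ⟪Q z, z⟫ = ∑ i, a i ^ 2 := h.quad_sum a
  have h2 : ‖Q z‖ ≤ B * ‖z‖ := (Q.le_opNorm z).trans (mul_le_mul_of_nonneg_right hB (norm_nonneg _))
  have h3 := h.pos z
  rw [← h1]
  calc b * ‖Q z‖ ^ 2 ≤ b * (B * ‖z‖) ^ 2 :=
        mul_le_mul_of_nonneg_left (pow_le_pow_left₀ (norm_nonneg _) h2 2) h.hb.le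
    _ = B ^ 2 * (b * ‖z‖ ^ 2) := by ring
    _ ≤ B ^ 2 * ⟪Q z, z⟫ := mul_le_mul_of_nonneg_left h3 (sq_nonneg _)

/-- (a) -/
theorem many (h : Dg b P Q μ v) (U : Submodule ℝ (E d)) (s w : ℝ) (hw : 0 ≤ w)
    (hU : ∀ u ∈ U, ‖P u - s • Q u‖ ≤ w * ‖u‖) :
    finrank ℝ U ≤ (Finset.univ.filter fun i => |s - μ i| ≤ b⁻¹ * w).card := by
  by_contra hcon
  push Not at hcon
  have hb := h.hb
  set O := Finset.univ.filter fun i => ¬ |s - μ i| ≤ b⁻¹ * w with hO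
  have hc : (Finset.univ.filter fun i => |s - μ i| ≤ b⁻¹ * w).card + O.card = d := by
    rw [hO, Finset.card_filter_add_card_filter_not]
    simp
  obtain ⟨x, hxU, hxW, hx0⟩ := exists_ne_zero U (spn v O)
    (by rw [h.finrank_spn, finrank_euclideanSpace_fin]; omega)
  have hne : ∃ j, ⟪Q x, v j⟫ ≠ 0 := by
    by_contra h0
    push Not at h0
    have h1 := h.sum_eq x
    simp only [h0, zero_smul, Finset.sum_const_zero] at h1
    exact hx0 h1.symm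
  obtain ⟨j, hj⟩ := hne
  have hjO : j ∈ O := by
    by_contra hjO
    exact hj (h.coord_zero hxW hjO)
  have h1 := hU x hxU
  have h2 : b * ∑ i, ((μ i - s) * ⟪Q x, v i⟫) ^ 2 ≤ (w * ‖x‖) ^ 2 := by
    refine (h.sum_le _).trans ?_
    rw [← h.sub_eq s x]
    exact pow_le_pow_left₀ (norm_nonneg _) h1 2
  have h3 : b * ‖x‖ ^ 2 ≤ ∑ i, ⟪Q x, v i⟫ ^ 2 := by
    rw [← h.quad x]; exact h.pos x
  have h4 : (b⁻¹ * w) ^ 2 * ∑ i, ⟪Q x, v i⟫ ^ 2 < ∑ i, ((μ i - s) * ⟪Q x, v i⟫) ^ 2 := by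
    rw [Finset.mul_sum]
    have hbig : ∀ i ∈ O, b⁻¹ * w < |s - μ i| := by
      intro i hi
      simpa [hO] using hi
    refine Finset.sum_lt_sum (fun i _ => ?_) ⟨j, Finset.mem_univ j, ?_⟩
    · by_cases hi : i ∈ O
      · rw [mul_pow (μ i - s)]
        refine mul_le_mul_of_nonneg_right ?_ (sq_nonneg _)
        rw [← sq_abs (μ i - s), abs_sub_comm]
        exact pow_le_pow_left₀ (by positivity) (hbig i hi).le 2
      · rw [h.coord_zero hxW hi]; simp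
    · rw [mul_pow (μ j - s)]
      refine mul_lt_mul_of_pos_right ?_ (by positivity)
      rw [← sq_abs (μ j - s), abs_sub_comm]
      exact pow_lt_pow_left₀ (hbig j hjO) (by positivity) two_ne_zero
  have h5 : b * ((b⁻¹ * w) ^ 2 * (b * ‖x‖ ^ 2)) < (w * ‖x‖) ^ 2 := by
    calc b * ((b⁻¹ * w) ^ 2 * (b * ‖x‖ ^ 2))
        ≤ b * ((b⁻¹ * w) ^ 2 * ∑ i, ⟪Q x, v i⟫ ^ 2) := by
          refine mul_le_mul_of_nonneg_left ?_ hb.le
          exact mul_le_mul_of_nonneg_left h3 (sq_nonneg _)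
      _ < b * ∑ i, ((μ i - s) * ⟪Q x, v i⟫) ^ 2 := mul_lt_mul_of_pos_left h4 hb
      _ ≤ _ := h2
  have h6 : b * ((b⁻¹ * w) ^ 2 * (b * ‖x‖ ^ 2)) = (w * ‖x‖) ^ 2 := by
    field_simp
  linarith

/-- (c) -/
theorem span_small (h : Dg b P Q μ v) {B : ℝ} (hB : ‖Q‖ ≤ B) (O : Finset (Fin d)) (s w : ℝ)
    (hO : ∀ i ∈ O, |s - μ i| ≤ w) {u : E d} (hu : u ∈ spn v O) :
    b * ‖P u - s • Q u‖ ^ 2 ≤ B ^ 3 * (w * ‖u‖) ^ 2 := by
  have hb := h.hb
  have hB0 : 0 ≤ B := (norm_nonneg Q).trans hB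
  have h1 := h.le_sum hB (fun i => (μ i - s) * ⟪Q u, v i⟫)
  rw [← h.sub_eq s u] at h1
  have h2 : ∑ i, ((μ i - s) * ⟪Q u, v i⟫) ^ 2 ≤ w ^ 2 * ∑ i, ⟪Q u, v i⟫ ^ 2 := by
    rw [Finset.mul_sum]
    refine Finset.sum_le_sum fun i _ => ?_
    by_cases hi : i ∈ O
    · rw [mul_pow]
      refine mul_le_mul_of_nonneg_right ?_ (sq_nonneg _)
      rw [← sq_abs (μ i - s), abs_sub_comm]
      exact pow_le_pow_left₀ (abs_nonneg _) (hO i hi) 2
    · rw [h.coord_zero hu hi]; simp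
  have h3 : ∑ i, ⟪Q u, v i⟫ ^ 2 ≤ B * ‖u‖ ^ 2 := by
    rw [← h.quad u]
    calc ⟪Q u, u⟫ ≤ ‖Q u‖ * ‖u‖ := real_inner_le_norm _ _
      _ ≤ (B * ‖u‖) * ‖u‖ := mul_le_mul_of_nonneg_right
          ((Q.le_opNorm u).trans (mul_le_mul_of_nonneg_right hB (norm_nonneg _))) (norm_nonneg _)
      _ = B * ‖u‖ ^ 2 := by ring
  calc b * ‖P u - s • Q u‖ ^ 2 ≤ B ^ 2 * ∑ i, ((μ i - s) * ⟪Q u, v i⟫) ^ 2 := h1
    _ ≤ B ^ 2 * (w ^ 2 * (B * ‖u‖ ^ 2)) := by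
        refine mul_le_mul_of_nonneg_left (h2.trans ?_) (sq_nonneg _)
        exact mul_le_mul_of_nonneg_left h3 (sq_nonneg _)
    _ = B ^ 3 * (w * ‖u‖) ^ 2 := by ring

/-- (b) -/
theorem few (h : Dg b P Q μ v) {B C : ℝ} (hB : ‖Q‖ ≤ B) (hC : 0 < C) (hCB : B ^ 3 < b * C ^ 2)
    (U : Submodule ℝ (E d)) (s w : ℝ) (hw : 0 < w)
    (hU : ∀ u ∈ U, w * ‖u‖ ≤ ‖P u - s • Q u‖) :
    (Finset.univ.filter fun i => |s - μ i| < w / C).card + finrank ℝ U ≤ d := by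
  by_contra hcon
  push Not at hcon
  set O := Finset.univ.filter fun i => |s - μ i| < w / C with hO
  obtain ⟨x, hxU, hxW, hx0⟩ := exists_ne_zero U (spn v O)
    (by rw [h.finrank_spn, finrank_euclideanSpace_fin]; omega)
  have h1 := span_small h hB O s (w / C)
    (fun i hi => by
      have : |s - μ i| < w / C := by simpa [hO] using hi
      exact this.le) hxW
  have h2 : (w * ‖x‖) ^ 2 ≤ ‖P x - s • Q x‖ ^ 2 := pow_le_pow_left₀ (by positivity) (hU x hxU) 2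
  have h3 : b * (w * ‖x‖) ^ 2 ≤ B ^ 3 * (w / C * ‖x‖) ^ 2 :=
    (mul_le_mul_of_nonneg_left h2 h.hb.le).trans h1
  have hx : 0 < ‖x‖ := norm_pos_iff.2 hx0
  have h4 : B ^ 3 * (w / C * ‖x‖) ^ 2 < b * (w * ‖x‖) ^ 2 := by
    have h5 : B ^ 3 * (w / C * ‖x‖) ^ 2 = B ^ 3 / C ^ 2 * (w * ‖x‖) ^ 2 := by
      field_simp
    rw [h5]
    refine mul_lt_mul_of_pos_right ?_ (by positivity)
    rw [div_lt_iff₀ (by positivity)]
    exact hCB
  linarith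

end RTC

namespace RT

/-- A subspace on which the pencil is small gives many roots near `s`. -/
theorem rt_many (d : ℕ) (b : ℝ) (hb : 0 < b) : ∃ C : ℝ, 0 < C ∧
    ∀ P Q : E d →L[ℝ] E d, Sy P → Sy Q → (∀ v, b * ‖v‖ ^ 2 ≤ ⟪Q v, v⟫) →
      ∀ (U : Submodule ℝ (E d)) (s w : ℝ), 0 ≤ w → (∀ u ∈ U, ‖P u - s • Q u‖ ≤ w * ‖u‖) →
        finrank ℝ U ≤ (Finset.univ.filter fun i => |s - rt P Q i| ≤ C * w).card := by
  refine ⟨b⁻¹, by positivity, ?_⟩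
  intro P Q hP hQ hpos U s w hw hU
  obtain ⟨-, v, hv, he⟩ := rt_spec hP hQ hb hpos
  exact RTC.many ⟨hb, hP, hQ, hpos, hv, he⟩ U s w hw hU

/-- A subspace on which the pencil is large leaves few roots near `s`. -/
theorem rt_few (d : ℕ) (b B : ℝ) (hb : 0 < b) : ∃ C : ℝ, 0 < C ∧
    ∀ P Q : E d →L[ℝ] E d, Sy P → Sy Q → (∀ v, b * ‖v‖ ^ 2 ≤ ⟪Q v, v⟫) → ‖Q‖ ≤ B →
      ∀ (U : Submodule ℝ (E d)) (s w : ℝ), 0 < w → (∀ u ∈ U, w * ‖u‖ ≤ ‖P u - s • Q u‖) →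
        (Finset.univ.filter fun i => |s - rt P Q i| < w / C).card + finrank ℝ U ≤ d := by
  refine ⟨(|B| ^ 3 + 1) / b + 1, by positivity, ?_⟩
  intro P Q hP hQ hpos hB U s w hw hU
  obtain ⟨-, v, hv, he⟩ := rt_spec hP hQ hb hpos
  refine RTC.few ⟨hb, hP, hQ, hpos, hv, he⟩ (hB.trans (le_abs_self B)) (by positivity) ?_ U s w hw hU
  have h1 : 0 < (|B| ^ 3 + 1) / b := by positivity
  have h2 : (|B| ^ 3 + 1) / b + 1 ≤ ((|B| ^ 3 + 1) / b + 1) ^ 2 := by nlinarith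
  calc |B| ^ 3 < b * ((|B| ^ 3 + 1) / b + 1) := by
        rw [mul_add, mul_div_cancel₀ _ hb.ne']
        linarith
    _ ≤ b * ((|B| ^ 3 + 1) / b + 1) ^ 2 := mul_le_mul_of_nonneg_left h2 hb.le

/-- The roots near `s` give a subspace on which the pencil is small. -/
theorem rt_span (d : ℕ) (b B : ℝ) (hb : 0 < b) : ∃ C : ℝ, 0 < C ∧
    ∀ P Q : E d →L[ℝ] E d, Sy P → Sy Q → (∀ v, b * ‖v‖ ^ 2 ≤ ⟪Q v, v⟫) → ‖Q‖ ≤ B →
      ∀ (O : Finset (Fin d)) (s w : ℝ), (∀ i ∈ O, |s - rt P Q i| ≤ w) →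
        ∃ U : Submodule ℝ (E d), finrank ℝ U = O.card ∧
          ∀ u ∈ U, ‖P u - s • Q u‖ ≤ C * w * ‖u‖ := by
  refine ⟨(|B| ^ 3 + 1) / b + 1, by positivity, ?_⟩
  intro P Q hP hQ hpos hB O s w hO
  obtain ⟨-, v, hv, he⟩ := rt_spec hP hQ hb hpos
  have h : RTC.Dg b P Q (rt P Q) v := ⟨hb, hP, hQ, hpos, hv, he⟩
  refine ⟨RTC.spn v O, h.finrank_spn O, fun u hu => ?_⟩
  rcases O.eq_empty_or_nonempty with rfl | ⟨i0, hi0⟩
  · have hu0 : u = 0 := by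
      have h1 := h.sum_eq u
      rw [← h1]
      refine Finset.sum_eq_zero fun i _ => ?_
      rw [h.coord_zero hu (Finset.notMem_empty i), zero_smul]
    rw [hu0]
    simp
  · have hw : 0 ≤ w := (abs_nonneg _).trans (hO i0 hi0)
    have h1 := RTC.span_small h (hB.trans (le_abs_self B)) O s w hO hu
    set C := (|B| ^ 3 + 1) / b + 1 with hC
    have h2 : 0 < (|B| ^ 3 + 1) / b := by positivity
    have h3 : |B| ^ 3 ≤ b * C ^ 2 := by
      calc |B| ^ 3 ≤ b * C := by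
            rw [hC, mul_add, mul_div_cancel₀ _ hb.ne']
            linarith
        _ ≤ b * C ^ 2 := mul_le_mul_of_nonneg_left (by nlinarith) hb.le
    have h4 : b * ‖P u - s • Q u‖ ^ 2 ≤ b * (C * w * ‖u‖) ^ 2 := by
      calc b * ‖P u - s • Q u‖ ^ 2 ≤ |B| ^ 3 * (w * ‖u‖) ^ 2 := h1
        _ ≤ b * C ^ 2 * (w * ‖u‖) ^ 2 := mul_le_mul_of_nonneg_right h3 (sq_nonneg _)
        _ = _ := by ring
    have h5 : ‖P u - s • Q u‖ ^ 2 ≤ (C * w * ‖u‖) ^ 2 := le_of_mul_le_mul_left h4 hb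
    exact le_of_sq_le_sq h5 (by positivity)

end RT

end Pool.Agent.GNP
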