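import Mathlib

/-!
The matrix lemma of the structure lemma: the reduced Hessian is a multiple of the reduced form.
-/

namespace Pool.Agent.GNP

open Module
open scoped RealInnerProductSpace

theorem str_ml {X W : Type*} [NormedAddCommGroup X] [InnerProductSpace ℝ X]
    [FiniteDimensional ℝ X] [NormedAddCommGroup W] [InnerProductSpace ℝ W] [FiniteDimensional ℝ W]
    {H B : X →L[ℝ] X} {T : W →ₗᵢ[ℝ] X} {Ts : X →L[ℝ] W} {D : W →L[ℝ] X} {S : W →L[ℝ] W}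
    {A τ w μ : ℝ} (hA : 1 ≤ A) (hτ : 0 < τ) (hw : 0 ≤ w)
    (hH : ∀ x y, ⟪H x, y⟫ = ⟪x, H y⟫) (hB : ∀ x, ‖B x‖ ≤ A * ‖x‖)
    (hTs : ∀ u x, ⟪T u, x⟫ = ⟪u, Ts x⟫) (hTD : ∀ u, Ts (D u) = u) (hD : ∀ u, ‖D u‖ ≤ A * ‖u‖)
    (hinv : ∀ u, H (D u) = T (S u))
    (hF : ∀ z, Ts z = 0 → τ * ‖z‖ ≤ A * ‖H z - T (Ts (H z))‖)
    (N : Submodule ℝ X) (hN : finrank ℝ W ≤ finrank ℝ N)
    (hn : ∀ n ∈ N, ‖H n - μ • B n‖ ≤ w * ‖n‖)
    (hs : 4 * A * (w + A * |μ|) ≤ τ) (x u : W) :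
    |⟪x, S u⟫ - μ * ⟪B (D x), D u⟫| ≤
      (2 * A ^ 2 * w + 4 * A ^ 4 * |μ| * (w + A * |μ|) / τ) * ‖x‖ * ‖u‖ := by
  have hA0 : 0 < A := by linarith
  have hμ := abs_nonneg μ
  have hTsT : ∀ v, Ts (T v) = v := by
    intro v
    refine ext_inner_left ℝ fun y => ?_
    rw [← hTs, LinearIsometry.inner_map_map]
  have hTsn : ∀ y, ‖T (Ts y)‖ ≤ ‖y‖ := by
    intro y
    rw [T.norm_map]
    have h1 : ⟪T (Ts y), y⟫ = ⟪Ts y, Ts y⟫ := hTs _ _
    rw [real_inner_self_eq_norm_sq] at h1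
    have h2 := real_inner_le_norm (T (Ts y)) y
    rw [h1, T.norm_map] at h2
    rcases (norm_nonneg (Ts y)).eq_or_lt with h3 | h3
    · rw [← h3]; exact norm_nonneg _
    · nlinarith
  -- the decomposition
  have hz : ∀ n ∈ N, τ * ‖n - D (Ts n)‖ ≤ 2 * A * (w + A * |μ|) * ‖n‖ ∧ ‖n‖ ≤ 2 * A * ‖Ts n‖ := by
    intro n hnN
    have h1 : Ts (n - D (Ts n)) = 0 := by rw [map_sub, hTD, sub_self]
    have h2 := hF _ h1
    have h3 : H (n - D (Ts n)) - T (Ts (H (n - D (Ts n)))) = H n - T (Ts (H n)) := by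
      rw [map_sub, hinv, map_sub, hTsT, map_sub]
      abel
    rw [h3] at h2
    have h4 : ‖H n‖ ≤ (w + A * |μ|) * ‖n‖ := by
      have h5 : H n = (H n - μ • B n) + μ • B n := by abel
      rw [h5]
      refine (norm_add_le _ _).trans ?_
      rw [norm_smul, Real.norm_eq_abs]
      have h6 := hn n hnN
      have h7 := mul_le_mul_of_nonneg_left (hB n) hμ
      nlinarith
    have h5 : ‖H n - T (Ts (H n))‖ ≤ 2 * ((w + A * |μ|) * ‖n‖) := by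
      refine (norm_sub_le _ _).trans ?_
      linarith [hTsn (H n)]
    have h6 : τ * ‖n - D (Ts n)‖ ≤ 2 * A * (w + A * |μ|) * ‖n‖ := by
      have := mul_le_mul_of_nonneg_left h5 hA0.le
      nlinarith
    refine ⟨h6, ?_⟩
    have h7 : ‖n - D (Ts n)‖ ≤ ‖n‖ / 2 := by
      have h8 : τ * ‖n - D (Ts n)‖ ≤ τ * (‖n‖ / 2) := by
        have := mul_le_mul_of_nonneg_right hs (norm_nonneg n)
        nlinarith
      exact le_of_mul_le_mul_left h8 hτ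
    have h8 : ‖n‖ ≤ ‖n - D (Ts n)‖ + ‖D (Ts n)‖ := by
      have := norm_add_le (n - D (Ts n)) (D (Ts n))
      simpa using this
    have h9 := hD (Ts n)
    linarith
  -- surjectivity
  have hsur : ∃ n ∈ N, Ts n = x := by
    let f : N →ₗ[ℝ] W := (Ts : X →ₗ[ℝ] W).comp N.subtype
    have hinj : Function.Injective f := by
      rw [← LinearMap.ker_eq_bot, LinearMap.ker_eq_bot']
      rintro ⟨n, hnN⟩ h0
      have h1 : Ts n = 0 := h0
      have h2 := (hz n hnN).2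
      rw [h1, norm_zero, mul_zero] at h2
      have h3 : n = 0 := norm_le_zero_iff.1 h2
      exact Subtype.ext h3
    have hfin : finrank ℝ N = finrank ℝ W := le_antisymm
      (LinearMap.finrank_le_finrank_of_injective hinj) hN
    have hs2 : Function.Surjective f :=
      (LinearMap.injective_iff_surjective_of_finrank_eq_finrank hfin).1 hinj
    obtain ⟨⟨n, hnN⟩, h⟩ := hs2 x
    exact ⟨n, hnN, h⟩
  obtain ⟨n, hnN, rfl⟩ := hsur
  obtain ⟨hz1, hz2⟩ := hz n hnN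
  set z := n - D (Ts n) with hzdef
  have h1 : ⟪Ts n, S u⟫ = ⟪H n, D u⟫ := by
    rw [hH, hinv, ← real_inner_comm n, hTs, real_inner_comm]
  have h2 : ⟪Ts n, S u⟫ - μ * ⟪B (D (Ts n)), D u⟫ =
      ⟪H n - μ • B n, D u⟫ + μ * ⟪B z, D u⟫ := by
    rw [h1, hzdef, map_sub, inner_sub_left, inner_sub_left, inner_smul_left]
    simp only [conj_trivial]
    ring
  rw [h2]
  have hTn := norm_nonneg (Ts n)
  have hu := norm_nonneg u
  have h3 : |⟪H n - μ • B n, D u⟫| ≤ 2 * A ^ 2 * w * ‖Ts n‖ * ‖u‖ := by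
    refine (abs_real_inner_le_norm _ _).trans ?_
    have h5 : ‖H n - μ • B n‖ ≤ w * (2 * A * ‖Ts n‖) :=
      (hn n hnN).trans (mul_le_mul_of_nonneg_left hz2 hw)
    calc ‖H n - μ • B n‖ * ‖D u‖ ≤ (w * (2 * A * ‖Ts n‖)) * (A * ‖u‖) :=
          mul_le_mul h5 (hD u) (norm_nonneg _) (by positivity)
      _ = _ := by ring
  have h4 : |μ * ⟪B z, D u⟫| ≤ 4 * A ^ 4 * |μ| * (w + A * |μ|) / τ * ‖Ts n‖ * ‖u‖ := by
    rw [abs_mul]
    have h5 : |⟪B z, D u⟫| ≤ (A * ‖z‖) * (A * ‖u‖) := (abs_real_inner_le_norm _ _).trans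
      (mul_le_mul (hB z) (hD u) (norm_nonneg _) (by positivity))
    have h6 : ‖z‖ ≤ 2 * A * (w + A * |μ|) * (2 * A * ‖Ts n‖) / τ := by
      rw [le_div_iff₀ hτ, mul_comm]
      refine hz1.trans (mul_le_mul_of_nonneg_left hz2 ?_)
      positivity
    calc |μ| * |⟪B z, D u⟫| ≤ |μ| * ((A * (2 * A * (w + A * |μ|) * (2 * A * ‖Ts n‖) / τ)) *
          (A * ‖u‖)) := by
          refine mul_le_mul_of_nonneg_left (h5.trans ?_) hμ
          refine mul_le_mul_of_nonneg_right ?_ (by positivity)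
          exact mul_le_mul_of_nonneg_left h6 hA0.le
      _ = 4 * A ^ 4 * |μ| * (w + A * |μ|) / τ * ‖Ts n‖ * ‖u‖ := by ring
  calc |⟪H n - μ • B n, D u⟫ + μ * ⟪B z, D u⟫|
      ≤ |⟪H n - μ • B n, D u⟫| + |μ * ⟪B z, D u⟫| := abs_add_le _ _
    _ ≤ 2 * A ^ 2 * w * ‖Ts n‖ * ‖u‖ + 4 * A ^ 4 * |μ| * (w + A * |μ|) / τ * ‖Ts n‖ * ‖u‖ :=
        add_le_add h3 h4
    _ = _ := by ring

end Pool.Agent.GNP
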