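import Mathlib

/-!
Constancy of the labels of a cluster on a connected set.
-/

namespace Pool.Agent.GNP

open Set

theorem lab_const {X : Type*} [TopologicalSpace X] {P : Set X} (hP : IsPreconnected P)
    {f : X → ℝ} (hf : ContinuousOn f P) {e c : ℝ} (hec : e < c)
    (h : ∀ v ∈ P, f v ≤ e ∨ c ≤ f v) {v0 v : X} (h0 : v0 ∈ P) (hv : v ∈ P) (h1 : f v0 ≤ e) :
    f v ≤ e := by
  rcases h v hv with h2 | h2
  · exact h2
  · exfalso
    have h3 : (e + c) / 2 ∈ Icc (f v0) (f v) := ⟨by linarith, by linarith⟩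
    obtain ⟨z, hz, hz2⟩ := hP.intermediate_value h0 hv hf h3
    rcases h z hz with h4 | h4
    · linarith
    · linarith

/-- If at every point of a connected set at least `m` of the values are `≤ e` and at most `m` are
`< c`, then the same `m` labels have values `≤ e` everywhere and the others have values `≥ c`. -/
theorem lab_all {X ι : Type*} [TopologicalSpace X] [Fintype ι] {P : Set X}
    (hP : IsPreconnected P) (hne : P.Nonempty) {f : ι → X → ℝ} (hf : ∀ a, ContinuousOn (f a) P)
    {e c : ℝ} (hec : e < c) {m : ℕ}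
    (h1 : ∀ v ∈ P, m ≤ (Finset.univ.filter fun a => f a v ≤ e).card)
    (h2 : ∀ v ∈ P, (Finset.univ.filter fun a => f a v < c).card ≤ m) :
    ∃ O : Finset ι, O.card = m ∧ ∀ v ∈ P, ∀ a, (a ∈ O → f a v ≤ e) ∧ (a ∉ O → c ≤ f a v) := by
  classical
  have hsub : ∀ v, (Finset.univ.filter fun a => f a v ≤ e) ⊆
      Finset.univ.filter fun a => f a v < c := by
    intro v a ha
    rw [Finset.mem_filter] at ha ⊢
    exact ⟨ha.1, lt_of_le_of_lt ha.2 hec⟩
  have heq : ∀ v ∈ P, (Finset.univ.filter fun a => f a v ≤ e) =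
      Finset.univ.filter fun a => f a v < c := by
    intro v hv
    exact Finset.eq_of_subset_of_card_le (hsub v) ((h2 v hv).trans (h1 v hv))
  have hcard : ∀ v ∈ P, (Finset.univ.filter fun a => f a v ≤ e).card = m := by
    intro v hv
    refine le_antisymm ?_ (h1 v hv)
    rw [heq v hv]
    exact h2 v hv
  have hdic : ∀ v ∈ P, ∀ a, f a v ≤ e ∨ c ≤ f a v := by
    intro v hv a
    by_cases h3 : f a v ≤ e
    · exact Or.inl h3
    · right
      by_contra h4
      push Not at h4
      have h5 : a ∈ Finset.univ.filter fun a => f a v < c := by simp [h4]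
      rw [← heq v hv, Finset.mem_filter] at h5
      exact h3 h5.2
  obtain ⟨v0, hv0⟩ := hne
  refine ⟨Finset.univ.filter fun a => f a v0 ≤ e, hcard v0 hv0, fun v hv a => ⟨fun ha => ?_,
    fun ha => ?_⟩⟩
  · rw [Finset.mem_filter] at ha
    exact lab_const hP (hf a) hec (fun v hv => hdic v hv a) hv0 hv ha.2
  · rcases hdic v hv a with h3 | h3
    · exfalso
      apply ha
      rw [Finset.mem_filter]
      exact ⟨Finset.mem_univ _, lab_const hP (hf a) hec (fun v hv => hdic v hv a) hv hv0 h3⟩
    · exact h3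

end Pool.Agent.GNP
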