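-- Pool/Agent/GNP/STRs.lean
import Pool.Agent.GNP.Defs5
import Pool.Agent.GNP.P0x
import Pool.Agent.GNP.RTC
import Pool.Agent.GNP.STRm
import Pool.Agent.GNP.STRr

/-!
The structure lemma, first half: a reduction with a small Hessian at a stable point has its Hessian
close to a multiple of the reduced form.
-/

namespace Pool.Agent.GNP

open MeasureTheory Set Module Filter Topology Pool.Agent.MP_6cbfb8_an RT
open scoped ENNReal Real RealInnerProductSpace ContDiff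

section red

variable {d m : ℕ} {Λ : ℕ → ℝ} {q : E d → ℝ} {R ρ : ℝ} {ι : E m →ₗᵢ[ℝ] E d} {Y : E m → E d}
  {Q : E m → ℝ} {v : E m}

/-- Equal functions on a ball have equal derivatives inside. -/
theorem str_deriv_eq {X : Type*} [NormedAddCommGroup X] [NormedSpace ℝ X] {f g : E m → X}
    {f' g' : E m →L[ℝ] X} {u v : E m} {ρ : ℝ} (hu : ‖u - v‖ < ρ) (hf : HasFDerivAt f f' u)
    (hg : HasFDerivAt g g' u) (h : ∀ u, ‖u - v‖ ≤ ρ → f u = g u) : f' = g' := by
  refine hf.unique (hg.congr_of_eventuallyEq ?_)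
  have h1 : ∀ᶠ z in 𝓝 u, ‖z - v‖ < ρ := by
    have h2 : Continuous fun z : E m => ‖z - v‖ := by fun_prop
    exact h2.continuousAt.eventually_lt continuousAt_const hu
  filter_upwards [h1] with z hz
  exact h z hz.le

theorem Red.hasY (h : Red d m Λ q R ρ ι Y Q v) (u : E m) : HasFDerivAt Y (fderiv ℝ Y u) u :=
  (h.smY.differentiable (by simp) u).hasFDerivAt

theorem Red.inner_dY (h : Red d m Λ q R ρ ι Y Q v) {u : E m} (hu : ‖u - v‖ < ρ) (x x' : E m) :
    ⟪fderiv ℝ Y u x, ι x'⟫ = ⟪x, x'⟫ := by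
  have h1 : HasFDerivAt (fun u => ⟪ι x', Y u⟫) ((innerSL ℝ (ι x')).comp (fderiv ℝ Y u)) u :=
    (innerSL ℝ (ι x')).hasFDerivAt.comp u (h.hasY u)
  have h2 : HasFDerivAt (fun u : E m => ⟪x', u⟫) (innerSL ℝ x') u := (innerSL ℝ x').hasFDerivAt
  have h3 := str_deriv_eq hu h1 h2 (fun u hu => by
    rw [real_inner_comm, h.sec u hu, real_inner_comm])
  have h4 := congrArg (fun T : E m →L[ℝ] ℝ => T x) h3
  simp only [ContinuousLinearMap.coe_comp, Function.comp_apply, innerSL_apply_apply] at h4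
  rw [real_inner_comm, h4, real_inner_comm]

theorem Red.norm_le_dY (h : Red d m Λ q R ρ ι Y Q v) {u : E m} (hu : ‖u - v‖ < ρ) (x : E m) :
    ‖x‖ ≤ ‖fderiv ℝ Y u x‖ := by
  have h1 := h.inner_dY hu x x
  rw [real_inner_self_eq_norm_sq] at h1
  have h2 := real_inner_le_norm (fderiv ℝ Y u x) (ι x)
  rw [h1, ι.norm_map] at h2
  rcases (norm_nonneg x).eq_or_lt with h3 | h3
  · rw [← h3]; exact norm_nonneg _
  · nlinarith

theorem Red.inv (hq : ContDiff ℝ ∞ q) (h : Red d m Λ q R ρ ι Y Q v) {u : E m}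
    (hu : ‖u - v‖ < ρ) (x : E m) : Hs q (Y u) (fderiv ℝ Y u x) = ι (Hs Q u x) := by
  have hY := h.hasY u
  have hg : HasFDerivAt (fun u => gr q (Y u)) ((Hs q (Y u)).comp (fderiv ℝ Y u)) u :=
    (hasFDerivAt_gr hq (Y u)).comp u hY
  have hQ : HasFDerivAt (gr Q) (Hs Q u) u := hasFDerivAt_gr h.smQ u
  have ha : ∀ x', ⟪ι x', Hs q (Y u) (fderiv ℝ Y u x)⟫ = ⟪x', Hs Q u x⟫ := by
    intro x'
    have h1 : HasFDerivAt (fun u => ⟪ι x', gr q (Y u)⟫)
        ((innerSL ℝ (ι x')).comp ((Hs q (Y u)).comp (fderiv ℝ Y u))) u :=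
      (innerSL ℝ (ι x')).hasFDerivAt.comp u hg
    have h2 : HasFDerivAt (fun u : E m => ⟪x', gr Q u⟫) ((innerSL ℝ x').comp (Hs Q u)) u :=
      (innerSL ℝ x').hasFDerivAt.comp u hQ
    have h3 := str_deriv_eq hu h1 h2 (fun u hu => by
      rw [real_inner_comm, ← h.grad u hu, real_inner_comm])
    have h4 := congrArg (fun T : E m →L[ℝ] ℝ => T x) h3
    simpa only [ContinuousLinearMap.coe_comp, Function.comp_apply, innerSL_apply_apply] using h4
  have hb : ∀ f : E d, (∀ x, ⟪f, ι x⟫ = 0) → ⟪f, Hs q (Y u) (fderiv ℝ Y u x)⟫ = 0 := by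
    intro f hf
    have h1 : HasFDerivAt (fun u => ⟪f, gr q (Y u)⟫)
        ((innerSL ℝ f).comp ((Hs q (Y u)).comp (fderiv ℝ Y u))) u :=
      (innerSL ℝ f).hasFDerivAt.comp u hg
    have h2 : HasFDerivAt (fun _ : E m => ⟪f, gr q (Y v)⟫) (0 : E m →L[ℝ] ℝ) u :=
      hasFDerivAt_const _ _
    have h3 := str_deriv_eq hu h1 h2 (fun u hu => by
      rw [real_inner_comm, h.leaf u hu f hf, real_inner_comm])
    have h4 := congrArg (fun T : E m →L[ℝ] ℝ => T x) h3
    simpa only [ContinuousLinearMap.coe_comp, Function.comp_apply, innerSL_apply_apply,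
      zero_apply] using h4
  set z := Hs q (Y u) (fderiv ℝ Y u x) - ι (Hs Q u x) with hz
  have h1 : ∀ x', ⟪z, ι x'⟫ = 0 := by
    intro x'
    rw [hz, inner_sub_left, real_inner_comm, ha, LinearIsometry.inner_map_map, real_inner_comm,
      sub_self]
  have h2 : ⟪z, z⟫ = 0 := by
    conv_lhs => rw [hz]
    rw [inner_sub_right, ← hz, hb z h1, h1, sub_self]
  have h3 : z = 0 := inner_self_eq_zero.1 h2
  exact sub_eq_zero.1 h3

theorem Red.norm_dY (h : Red d m Λ q R ρ ι Y Q v) (hρ : 0 < ρ) {u : E m} (hu : ‖u - v‖ ≤ ρ) :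
    ‖fderiv ℝ Y u‖ ≤ Λ 1 := by
  have h1 := h.bdY 1 le_rfl u hu
  rw [norm_iteratedFDeriv_one, pow_one, mul_div_cancel_right₀ _ hρ.ne'] at h1
  exact h1

theorem Red.dist_Y (h : Red d m Λ q R ρ ι Y Q v) (hρ : 0 < ρ) {u : E m} (hu : ‖u - v‖ ≤ ρ) :
    ‖Y u - Y v‖ ≤ Λ 1 * ‖u - v‖ := by
  have hv : v ∈ Metric.closedBall v ρ := Metric.mem_closedBall_self hρ.le
  have hu' : u ∈ Metric.closedBall v ρ := by rwa [mem_closedBall_iff_norm]
  refine (convex_closedBall v ρ).norm_image_sub_le_of_norm_fderiv_le (𝕜 := ℝ) (f := Y)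
    (fun z _ => h.smY.differentiable (by simp) z) (fun z hz => h.norm_dY hρ ?_) hv hu'
  rwa [← mem_closedBall_iff_norm]

end red

end Pool.Agent.GNP
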