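-- Pool/Agent/GNP/STRq.lean
import Pool.Agent.GNP.STRs

/-!
The structure lemma: the labels of the cluster, and the Hessian of the reduction as a multiple of
the reduced form.
-/

namespace Pool.Agent.GNP

open MeasureTheory Set Module Filter Topology Pool.Agent.MP_6cbfb8_an RT
open scoped ENNReal Real RealInnerProductSpace ContDiff

/-- The adjoint of the inclusion. -/
noncomputable def adI {d m : ℕ} (ι : E m →ₗᵢ[ℝ] E d) : E d →L[ℝ] E m :=
  ContinuousLinearMap.adjoint ι.toContinuousLinearMap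

theorem inner_adI {d m : ℕ} (ι : E m →ₗᵢ[ℝ] E d) (u : E m) (x : E d) :
    ⟪ι u, x⟫ = ⟪u, adI ι x⟫ := by
  rw [adI, ContinuousLinearMap.adjoint_inner_right]
  rfl

theorem adI_eq_zero {d m : ℕ} {ι : E m →ₗᵢ[ℝ] E d} {f : E d} :
    adI ι f = 0 ↔ ∀ x, ⟪f, ι x⟫ = 0 := by
  constructor
  · intro h x
    rw [real_inner_comm, inner_adI, h, inner_zero_right]
  · intro h
    refine ext_inner_left ℝ fun y => ?_
    rw [← inner_adI, real_inner_comm, h, inner_zero_right]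

section red

variable {d m : ℕ} {Λ : ℕ → ℝ} {q : E d → ℝ} {R ρ : ℝ} {ι : E m →ₗᵢ[ℝ] E d} {Y : E m → E d}
  {Q : E m → ℝ} {v : E m}

theorem Red.adI_dY (h : Red d m Λ q R ρ ι Y Q v) {u : E m} (hu : ‖u - v‖ < ρ) (x : E m) :
    adI ι (fderiv ℝ Y u x) = x := by
  refine ext_inner_left ℝ fun y => ?_
  rw [← inner_adI, real_inner_comm, h.inner_dY hu, real_inner_comm]

theorem Red.few_hF (h : Red d m Λ q R ρ ι Y Q v) {A : ℝ} (hA : Λ 0 ≤ A) (hA0 : 0 ≤ A) {u : E m}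
    (hu : ‖u - v‖ ≤ ρ) (z : E d) (hz : adI ι z = 0) :
    R * ‖z‖ ≤ A * ‖Hs q (Y u) z - ι (adI ι (Hs q (Y u) z))‖ := by
  obtain ⟨g, hg, hg1, hg2⟩ := h.nd u hu z (adI_eq_zero.1 hz)
  have h1 : ⟪Hs q (Y u) z, g⟫ = ⟪Hs q (Y u) z - ι (adI ι (Hs q (Y u) z)), g⟫ := by
    rw [inner_sub_left, real_inner_comm g (ι _), hg, sub_zero]
  rw [h1] at hg2
  set a := Hs q (Y u) z - ι (adI ι (Hs q (Y u) z))
  have h2 : |⟪a, g⟫| ≤ ‖a‖ := by
    refine (abs_real_inner_le_norm _ _).trans ?_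
    have := mul_le_mul_of_nonneg_left hg1 (norm_nonneg a)
    linarith
  refine hg2.trans ?_
  exact (mul_le_mul_of_nonneg_right hA (abs_nonneg _)).trans (mul_le_mul_of_nonneg_left h2 hA0)

theorem Red.m_le (ι : E m →ₗᵢ[ℝ] E d) : m ≤ d := by
  have h1 := LinearMap.finrank_le_finrank_of_injective (f := ι.toLinearMap) ι.injective
  rwa [finrank_euclideanSpace_fin, finrank_euclideanSpace_fin] at h1

theorem Red.finrank_range (h : Red d m Λ q R ρ ι Y Q v) {u : E m} (hu : ‖u - v‖ < ρ) :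
    finrank ℝ (LinearMap.range (fderiv ℝ Y u : E m →ₗ[ℝ] E d)) = m := by
  have hinj : Function.Injective (fderiv ℝ Y u : E m →ₗ[ℝ] E d) := by
    rw [← LinearMap.ker_eq_bot, LinearMap.ker_eq_bot']
    intro x hx
    have h1 := h.norm_le_dY hu x
    have h2 : fderiv ℝ Y u x = 0 := hx
    rw [h2, norm_zero] at h1
    exact norm_le_zero_iff.1 h1
  rw [LinearMap.finrank_range_of_inj hinj, finrank_euclideanSpace_fin]

theorem finrank_orth_range (ι : E m →ₗᵢ[ℝ] E d) :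
    finrank ℝ (LinearMap.range ι.toLinearMap)ᗮ + m = d := by
  have h1 := Submodule.finrank_add_finrank_orthogonal (LinearMap.range ι.toLinearMap)
  rw [LinearMap.finrank_range_of_inj (f := ι.toLinearMap) ι.injective, finrank_euclideanSpace_fin,
    finrank_euclideanSpace_fin] at h1
  omega

end red

/-- **Roots and labels.** On a connected set of points at which the pencil is small on a space of
dimension `m` and large on a space of dimension `d - m` the labels of the `m` roots near `s` are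
constant; at a stable centre they stay together. -/
theorem str_roots (d : ℕ) (b B : ℝ) (hb : 0 < b) : ∃ C : ℝ, 1 ≤ C ∧ ∀ (m : ℕ),
    ∀ {X : Type} [TopologicalSpace X] (Z : Set X) (P Qh : X → E d →L[ℝ] E d) (s e τ : ℝ),
      IsPreconnected Z → Z.Nonempty → m ≤ d →
      ContinuousOn P Z → ContinuousOn Qh Z → (∀ u ∈ Z, Sy (P u)) → (∀ u ∈ Z, Sy (Qh u)) →
      (∀ u ∈ Z, ∀ x, b * ‖x‖ ^ 2 ≤ ⟪Qh u x, x⟫) → (∀ u ∈ Z, ‖Qh u‖ ≤ B) →
      0 ≤ e → 0 < τ → C * e < τ →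
      (∀ u ∈ Z, ∃ U : Submodule ℝ (E d), m ≤ finrank ℝ U ∧ ∀ x ∈ U, ‖P u x - s • Qh u x‖ ≤ e * ‖x‖) →
      (∀ u ∈ Z, ∃ F : Submodule ℝ (E d), d ≤ finrank ℝ F + m ∧
        ∀ x ∈ F, τ * ‖x‖ ≤ ‖P u x - s • Qh u x‖) →
      ∃ O : Finset (Fin d), O.card = m ∧ ∀ u ∈ Z, ∀ a,
        (a ∈ O → |s - rt (P u) (Qh u) a| ≤ C * e) ∧ (a ∉ O → τ ≤ C * |s - rt (P u) (Qh u) a|) := by
  obtain ⟨C1, hC1, H1⟩ := rt_many d b hb
  obtain ⟨C2, hC2, H2⟩ := rt_few d b B hb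
  refine ⟨1 + C1 + C2 + C1 * C2, by nlinarith [mul_pos hC1 hC2], ?_⟩
  intro m X _ Z P Qh s e τ hZ hne hmd hPc hQc hP hQ hge hB he hτ hsm hmany hfew
  have hC12 := mul_pos hC1 hC2
  have hec : C1 * e < τ / C2 := by
    rw [lt_div_iff₀ hC2]
    nlinarith
  obtain ⟨O, hO, hO2⟩ := lab_all hZ hne (f := fun a u => |s - rt (P u) (Qh u) a|) (e := C1 * e)
    (c := τ / C2) (m := m)
    (fun a => (continuousOn_const.sub (rt_cont hb hP hQ hge hPc hQc a)).abs) hec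
    (fun u hu => by
      obtain ⟨U, hU, hU2⟩ := hmany u hu
      exact hU.trans (H1 _ _ (hP u hu) (hQ u hu) (hge u hu) U s e he hU2))
    (fun u hu => by
      obtain ⟨F, hF, hF2⟩ := hfew u hu
      have := H2 _ _ (hP u hu) (hQ u hu) (hge u hu) (hB u hu) F s τ hτ hF2
      omega)
  refine ⟨O, hO, fun u hu a => ⟨fun ha => ?_, fun ha => ?_⟩⟩
  · refine ((hO2 u hu a).1 ha).trans (mul_le_mul_of_nonneg_right ?_ he)
    linarith
  · have h1 := (hO2 u hu a).2 ha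
    rw [div_le_iff₀ hC2] at h1
    have h2 := abs_nonneg (s - rt (P u) (Qh u) a)
    nlinarith

theorem str_const {A C0 C1 c1 : ℝ} (hA : 0 < A) (hC0 : 0 < C0) (hC1 : 0 < C1) (hc1 : 0 < c1) :
    ∃ C : ℝ, 2 ≤ C ∧ A ≤ C ∧ C0 ≤ C ∧ C1 ≤ C ∧ 2 * (C0 * A) ≤ C ∧ 2 * (C0 * C1 * A) ≤ C ∧
      8 * (A * c1) ≤ C ∧ 8 * (A ^ 2 * C0) ≤ C ∧ 2 * A ^ 2 * c1 ≤ C ∧ 4 * A ^ 4 * c1 ≤ C ∧
      4 * A ^ 5 ≤ C := by
  have p1 : 0 < C0 * A := by positivity
  have p2 : 0 < C0 * C1 * A := by positivity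
  have p3 : 0 < A * c1 := by positivity
  have p4 : 0 < A ^ 2 * C0 := by positivity
  have p5 : 0 < 2 * A ^ 2 * c1 := by positivity
  have p6 : 0 < 4 * A ^ 4 * c1 := by positivity
  have p7 : 0 < 4 * A ^ 5 := by positivity
  refine ⟨2 + A + C0 + C1 + 2 * (C0 * A) + 2 * (C0 * C1 * A) + 8 * (A * c1) + 8 * (A ^ 2 * C0) +
    2 * A ^ 2 * c1 + 4 * A ^ 4 * c1 + 4 * A ^ 5, ?_, ?_, ?_, ?_, ?_, ?_, ?_, ?_, ?_, ?_, ?_⟩ <;>
    linarith

theorem str_ar1 {C0 A C e R : ℝ} (hR : 0 < R) (hA : 0 < A) (h : 2 * (C0 * A) ≤ C) (he : 0 ≤ e)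
    (hCe : C * e ≤ R) : C0 * e < R / A := by
  rw [lt_div_iff₀ hA]
  have h1 := mul_le_mul_of_nonneg_right h he
  linarith

theorem str_ar2 {C0 C1 A C w K R x : ℝ} (hR : 0 < R) (hA : 0 < A) (hC0 : 0 < C0) (hC : 0 < C)
    (h : 2 * (C0 * C1 * A) ≤ C) (hw : 0 ≤ w) (hwK : w ≤ K * w) (hCK : C * (K * w) ≤ R)
    (hx : x ≤ C1 * w) (h3 : R ≤ C0 * x * A) : False := by
  have h5 : C0 * x * A ≤ C0 * (C1 * w) * A :=
    mul_le_mul_of_nonneg_right (mul_le_mul_of_nonneg_left hx hC0.le) hA.le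
  have h6 := mul_le_mul_of_nonneg_right h hw
  have h7 := mul_le_mul_of_nonneg_left hwK hC.le
  linarith

theorem str_ar3 {A c1 C0 C K w e R m : ℝ} (hA : 0 < A) (h6 : 8 * (A * c1) ≤ C)
    (h7 : 8 * (A ^ 2 * C0) ≤ C) (hKw : 0 ≤ K * w) (he : 0 ≤ e) (hm : m ≤ C0 * e)
    (h1 : C * e ≤ R) (h2 : C * (K * w) ≤ R) : 4 * A * (c1 * (K * w) + A * m) ≤ R := by
  have e1 := mul_le_mul_of_nonneg_right h6 hKw
  have e2 := mul_le_mul_of_nonneg_right h7 he
  have h3 : A * m ≤ A * (C0 * e) := mul_le_mul_of_nonneg_left hm hA.le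
  have h4 : 4 * A * (c1 * (K * w) + A * m) ≤ 4 * A * (c1 * (K * w) + A * (C0 * e)) :=
    mul_le_mul_of_nonneg_left (by linarith) (by positivity)
  have h5 : 4 * A * (c1 * (K * w) + A * (C0 * e)) =
      (8 * (A * c1) * (K * w)) / 2 + (8 * (A ^ 2 * C0) * e) / 2 := by ring
  linarith

theorem str_ar4 {A c1 C K w R m : ℝ} (hR : 0 < R) (hm : 0 ≤ m) (h8 : 2 * A ^ 2 * c1 ≤ C)
    (h9 : 4 * A ^ 4 * c1 ≤ C) (h10 : 4 * A ^ 5 ≤ C) (hKw : 0 ≤ K * w) :
    2 * A ^ 2 * (c1 * (K * w)) + 4 * A ^ 4 * m * (c1 * (K * w) + A * m) / R ≤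
      C * (K * w + m * (K * w + m) / R) := by
  have e1 : 2 * A ^ 2 * (c1 * (K * w)) ≤ C * (K * w) := by
    have := mul_le_mul_of_nonneg_right h8 hKw
    linarith
  have e2 : 4 * A ^ 4 * (c1 * (K * w) + A * m) ≤ C * (K * w + m) := by
    have h1 := mul_le_mul_of_nonneg_right h9 hKw
    have h2 := mul_le_mul_of_nonneg_right h10 hm
    have h3 : 4 * A ^ 4 * (c1 * (K * w) + A * m) = 4 * A ^ 4 * c1 * (K * w) + 4 * A ^ 5 * m := by
      ring
    rw [h3]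
    linarith
  have e3 : 4 * A ^ 4 * m * (c1 * (K * w) + A * m) / R ≤ C * (m * (K * w + m) / R) := by
    rw [← mul_div_assoc]
    refine div_le_div_of_nonneg_right ?_ hR.le
    have h1 := mul_le_mul_of_nonneg_left e2 hm
    have h2 : m * (4 * A ^ 4 * (c1 * (K * w) + A * m)) =
        4 * A ^ 4 * m * (c1 * (K * w) + A * m) := by ring
    rw [h2] at h1
    refine h1.trans (le_of_eq ?_)
    ring
  have e4 : C * (K * w + m * (K * w + m) / R) = C * (K * w) + C * (m * (K * w + m) / R) := by ring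
  rw [e4]
  exact add_le_add e1 e3

theorem str_ar5 {K C1 w g g0 : ℝ} (hK : 0 ≤ K) (hw : 0 ≤ w) (h : g + w ≤ K * (g0 + w))
    (h3 : g0 ≤ 2 * C1 * w) : g ≤ K * (2 * C1 + 1) * w := by
  have h4 : K * (g0 + w) ≤ K * (2 * C1 * w + w) := mul_le_mul_of_nonneg_left (by linarith) hK
  have h5 : K * (2 * C1 * w + w) = K * (2 * C1 + 1) * w := by ring
  linarith

/-- **Structure lemma, first half.** A reduction with a small Hessian at a stable point: the Hessian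
of the reduced phase is a multiple of the reduced form, up to the floor. -/
theorem str_mu (d m : ℕ) (b B : ℝ) (hb : 0 < b) (Λ : ℕ → ℝ) : ∃ C : ℝ, 2 ≤ C ∧
    ∀ (Φ h : E d → ℝ) (c s R ρ : ℝ) (ι : E m →ₗᵢ[ℝ] E d) (Y : E m → E d) (Q : E m → ℝ) (v : E m)
      (σ w e K : ℝ), ContDiff ℝ ∞ Φ → ContDiff ℝ ∞ h →
      Red d m Λ (ph Φ h c s) R ρ ι Y Q v → 1 ≤ m → 0 < σ → C * σ ≤ ρ → 0 < R → 1 ≤ K → 0 ≤ w →
      (∀ u, ‖u - v‖ ≤ σ → (∀ x, b * ‖x‖ ^ 2 ≤ ⟪(-(Hs h (Y u))) x, x⟫) ∧ ‖Hs h (Y u)‖ ≤ B ∧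
        ‖Hs Q u‖ ≤ e) →
      C * e ≤ R → C * (K * w) ≤ R → ‖Hs Q v‖ ≤ w →
      Stab (fun y => rt (-(c • Hs Φ y)) (-(Hs h y))) K w (C * σ) (Y v) →
      ∃ μ : E m → ℝ, |μ v| ≤ C * w ∧ ∀ u, ‖u - v‖ ≤ σ → |μ u| ≤ C * e ∧ ∀ x x' : E m,
        |⟪x, Hs Q u x'⟫ - μ u * ⟪(-(Hs h (Y u))) (fderiv ℝ Y u x), fderiv ℝ Y u x'⟫| ≤
          C * (K * w + |μ u| * (K * w + |μ u|) / R) * ‖x‖ * ‖x'‖ := by
  obtain ⟨C0, hC0, H0⟩ := str_roots d b B hb
  obtain ⟨C1, hC1, H1⟩ := rt_many d b hb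
  obtain ⟨C3, hC3, H3⟩ := rt_span d b B hb
  set A : ℝ := 1 + |Λ 0| + |Λ 1| + |B| with hAdef
  have a0 := abs_nonneg (Λ 0)
  have a1 := abs_nonneg (Λ 1)
  have aB := abs_nonneg B
  have hA1 : 1 ≤ A := by rw [hAdef]; linarith
  have hA0 : 0 < A := by linarith
  have hAΛ0 : Λ 0 ≤ A := by rw [hAdef]; linarith [le_abs_self (Λ 0)]
  have hAΛ1 : Λ 1 ≤ A := by rw [hAdef]; linarith [le_abs_self (Λ 1)]
  have hAB : B ≤ A := by rw [hAdef]; linarith [le_abs_self B]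
  obtain ⟨c1, hc1⟩ : ∃ c1 : ℝ, c1 = C3 * (2 * C1 + 1) := ⟨_, rfl⟩
  have hc1p : 0 < c1 := by rw [hc1]; positivity
  have hC0p : 0 < C0 := by linarith
  clear_value A
  clear hAdef a0 a1 aB
  obtain ⟨C, hC2, k1, k2, k3, k4, k5, k6, k7, k8, k9, k10⟩ := str_const hA0 hC0p hC1 hc1p
  have hCp : 0 < C := by linarith
  refine ⟨C, hC2, ?_⟩
  intro Φ h c s R ρ ι Y Q v σ w e K hΦ hh hred hm hσ hσρ hR hK hw hball he hKw hv hst
  have hρσ : σ < ρ := by
    have h1 := mul_le_mul_of_nonneg_right hC2 hσ.le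
    linarith
  have hρ : 0 < ρ := by linarith
  have hq : ContDiff ℝ ∞ (ph Φ h c s) := by
    unfold ph
    exact (contDiff_const.mul hΦ).sub (contDiff_const.mul hh)
  have hvv : ‖v - v‖ ≤ σ := by simpa using hσ.le
  have he0 : 0 ≤ e := (norm_nonneg _).trans (hball v hvv).2.2
  have hKw0 : 0 ≤ K * w := by positivity
  have hwKw : w ≤ K * w := le_mul_of_one_le_left hw hK
  set P : E m → E d →L[ℝ] E d := fun u => -(c • Hs Φ (Y u)) with hP
  set Qh : E m → E d →L[ℝ] E d := fun u => -(Hs h (Y u)) with hQh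
  have hHs : ∀ u x, P u x - s • Qh u x = -(Hs (ph Φ h c s) (Y u) x) := by
    intro u x
    rw [Hs_ph hΦ hh]
    simp only [hP, hQh, neg_apply, FunLike.coe_smul, Pi.smul_apply, FunLike.coe_sub, Pi.sub_apply]
    module
  have hHn : ∀ u x, ‖P u x - s • Qh u x‖ = ‖Hs (ph Φ h c s) (Y u) x‖ := by
    intro u x
    rw [hHs, norm_neg]
  have hPs : ∀ u, Sy (P u) := by
    intro u x y
    simp only [hP, neg_apply, FunLike.coe_smul, Pi.smul_apply, inner_neg_left, inner_neg_right,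
      inner_smul_left, inner_smul_right, conj_trivial]
    rw [Hs_symm hΦ]
  have hQs : ∀ u, Sy (Qh u) := by
    intro u x y
    simp only [hQh, neg_apply, inner_neg_left, inner_neg_right]
    rw [Hs_symm hh]
  have hQB : ∀ u, ‖u - v‖ ≤ σ → ‖Qh u‖ ≤ B := by
    intro u hu
    simp only [hQh, norm_neg]
    exact (hball u hu).2.1
  have hmd : m ≤ d := Red.m_le ι
  -- the operator on the image of the derivative
  have himg : ∀ u, ‖u - v‖ ≤ σ → ∀ x, Hs (ph Φ h c s) (Y u) (fderiv ℝ Y u x) = ι (Hs Q u x) :=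
    fun u hu x => hred.inv hq (lt_of_le_of_lt hu hρσ) x
  have hmany : ∀ u, ‖u - v‖ ≤ σ → ∀ e', ‖Hs Q u‖ ≤ e' → ∃ U : Submodule ℝ (E d),
      m ≤ finrank ℝ U ∧ ∀ x ∈ U, ‖P u x - s • Qh u x‖ ≤ e' * ‖x‖ := by
    intro u hu e' he'
    refine ⟨LinearMap.range (fderiv ℝ Y u : E m →ₗ[ℝ] E d),
      (hred.finrank_range (lt_of_le_of_lt hu hρσ)).ge, ?_⟩
    rintro _ ⟨x, rfl⟩
    rw [hHn]
    show ‖Hs (ph Φ h c s) (Y u) (fderiv ℝ Y u x)‖ ≤ e' * ‖fderiv ℝ Y u x‖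
    rw [himg u hu, ι.norm_map]
    calc ‖Hs Q u x‖ ≤ ‖Hs Q u‖ * ‖x‖ := (Hs Q u).le_opNorm x
      _ ≤ e' * ‖fderiv ℝ Y u x‖ := mul_le_mul he' (hred.norm_le_dY (lt_of_le_of_lt hu hρσ) x)
          (norm_nonneg _) ((norm_nonneg _).trans he')
  have hfew : ∀ u, ‖u - v‖ ≤ σ → ∃ F : Submodule ℝ (E d), d ≤ finrank ℝ F + m ∧
      ∀ x ∈ F, R / A * ‖x‖ ≤ ‖P u x - s • Qh u x‖ := by
    intro u hu
    refine ⟨(LinearMap.range ι.toLinearMap)ᗮ, (finrank_orth_range ι).ge, fun f hf => ?_⟩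
    have hf0 : ∀ x, ⟪f, ι x⟫ = 0 := by
      intro x
      have := (Submodule.mem_orthogonal _ _).1 hf (ι x) ⟨x, rfl⟩
      rwa [real_inner_comm] at this
    obtain ⟨g, -, hg1, hg2⟩ := hred.nd u (hu.trans hρσ.le) f hf0
    rw [hHn, div_mul_eq_mul_div, div_le_iff₀ hA0]
    have h1 : |⟪Hs (ph Φ h c s) (Y u) f, g⟫| ≤ ‖Hs (ph Φ h c s) (Y u) f‖ := by
      refine (abs_real_inner_le_norm _ _).trans ?_
      have := mul_le_mul_of_nonneg_left hg1 (norm_nonneg (Hs (ph Φ h c s) (Y u) f))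
      linarith
    have h2 := (mul_le_mul_of_nonneg_right hAΛ0 (abs_nonneg ⟪Hs (ph Φ h c s) (Y u) f, g⟫)).trans
      (mul_le_mul_of_nonneg_left h1 hA0.le)
    linarith
  have hec : C0 * e < R / A := str_ar1 hR hA0 k4 he0 he
  obtain ⟨O, hO, hO2⟩ := H0 m (Metric.closedBall v σ) P Qh s e (R / A)
    (convex_closedBall v σ).isPreconnected ⟨v, Metric.mem_closedBall_self hσ.le⟩ hmd
    (((continuous_Hs hΦ).comp hred.smY.continuous).const_smul c).neg.continuousOn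
    ((continuous_Hs hh).comp hred.smY.continuous).neg.continuousOn
    (fun u _ => hPs u) (fun u _ => hQs u)
    (fun u hu => (hball u (mem_closedBall_iff_norm.1 hu)).1)
    (fun u hu => hQB u (mem_closedBall_iff_norm.1 hu)) he0 (by positivity) hec
    (fun u hu => hmany u (mem_closedBall_iff_norm.1 hu) e (hball u (mem_closedBall_iff_norm.1 hu)).2.2)
    (fun u hu => hfew u (mem_closedBall_iff_norm.1 hu))
  -- the labels at the centre
  have hOv : ∀ a ∈ O, |s - rt (P v) (Qh v) a| ≤ C1 * w := by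
    obtain ⟨U, hU, hU2⟩ := hmany v hvv w hv
    have h1 := hU.trans (H1 _ _ (hPs v) (hQs v) (hball v hvv).1 U s w hw hU2)
    have h2 : (Finset.univ.filter fun i => |s - rt (P v) (Qh v) i| ≤ C1 * w) ⊆ O := by
      intro a ha
      by_contra hna
      have h3 := (hO2 v (Metric.mem_closedBall_self hσ.le) a).2 hna
      rw [div_le_iff₀ hA0] at h3
      have h4 := (Finset.mem_filter.1 ha).2
      exact str_ar2 hR hA0 hC0p hCp k5 hw hwKw hKw h4 h3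
    have h3 := Finset.eq_of_subset_of_card_le h2 (by rw [hO]; exact h1)
    intro a ha
    rw [← h3] at ha
    exact (Finset.mem_filter.1 ha).2
  obtain ⟨o, ho⟩ : O.Nonempty := Finset.card_pos.1 (by omega)
  refine ⟨fun u => s - rt (P u) (Qh u) o, (hOv o ho).trans (mul_le_mul_of_nonneg_right k3 hw), ?_⟩
  intro u hu
  have hu' : ‖u - v‖ < ρ := lt_of_le_of_lt hu hρσ
  have huZ : u ∈ Metric.closedBall v σ := mem_closedBall_iff_norm.2 hu
  set μ := s - rt (P u) (Qh u) o with hμ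
  have hμe : |μ| ≤ C0 * e := (hO2 u huZ o).1 ho
  refine ⟨hμe.trans (mul_le_mul_of_nonneg_right k2 he0), ?_⟩
  have hgap : ∀ i ∈ O, |rt (P u) (Qh u) o - rt (P u) (Qh u) i| ≤ K * (2 * C1 + 1) * w := by
    intro i hi
    have h1 : ‖Y u - Y v‖ ≤ C * σ :=
      ((hred.dist_Y hρ hu'.le).trans
        (mul_le_mul_of_nonneg_right (hAΛ1.trans k1) (norm_nonneg _))).trans
        (mul_le_mul_of_nonneg_left hu hCp.le)
    have h2 : |rt (P u) (Qh u) o - rt (P u) (Qh u) i| + w ≤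
        K * (|rt (P v) (Qh v) o - rt (P v) (Qh v) i| + w) := hst (Y u) h1 o i
    have h3 : |rt (P v) (Qh v) o - rt (P v) (Qh v) i| ≤ 2 * C1 * w := by
      have h4 := hOv o ho
      have h5 := hOv i hi
      have h6 : rt (P v) (Qh v) o - rt (P v) (Qh v) i =
          (s - rt (P v) (Qh v) i) - (s - rt (P v) (Qh v) o) := by ring
      rw [h6]
      refine (abs_sub _ _).trans ?_
      linarith
    exact str_ar5 (by linarith) hw h2 h3
  obtain ⟨U, hU, hU2⟩ := H3 (P u) (Qh u) (hPs u) (hQs u) (hball u hu).1 (hQB u hu) O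
    (rt (P u) (Qh u) o) (K * (2 * C1 + 1) * w) hgap
  have hw' : C3 * (K * (2 * C1 + 1) * w) = c1 * (K * w) := by rw [hc1]; ring
  rw [hw'] at hU2
  have hμ0 := abs_nonneg μ
  intro x x'
  have key := str_ml (H := Hs (ph Φ h c s) (Y u)) (B := Qh u) (T := ι) (Ts := adI ι)
    (D := fderiv ℝ Y u) (S := Hs Q u) (A := A) (τ := R) (w := c1 * (K * w)) (μ := μ) hA1 hR
    (by positivity) (Hs_symm hq (Y u))
    (fun x => ((Qh u).le_opNorm x).trans
      (mul_le_mul_of_nonneg_right ((hQB u hu).trans hAB) (norm_nonneg _)))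
    (inner_adI ι) (hred.adI_dY hu')
    (fun x => ((fderiv ℝ Y u).le_opNorm x).trans
      (mul_le_mul_of_nonneg_right ((hred.norm_dY hρ hu'.le).trans hAΛ1) (norm_nonneg _)))
    (himg u hu) (fun z hz => hred.few_hF hAΛ0 hA0.le hu'.le z hz) U
    (by rw [hU, hO, finrank_euclideanSpace_fin])
    (fun n hn => by
      have h1 := hU2 n hn
      have h2 : Hs (ph Φ h c s) (Y u) n - μ • Qh u n =
          -(P u n - rt (P u) (Qh u) o • Qh u n) := by
        have h3 := hHs u n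
        have h4 : Hs (ph Φ h c s) (Y u) n = -(P u n - s • Qh u n) := by rw [h3, neg_neg]
        rw [h4, hμ]
        module
      rw [h2, norm_neg]
      exact h1)
    (str_ar3 hA0 k6 k7 hKw0 he0 hμe he hKw)
    x x'
  refine key.trans ?_
  refine mul_le_mul_of_nonneg_right (mul_le_mul_of_nonneg_right ?_ (norm_nonneg _))
    (norm_nonneg _)
  exact str_ar4 hR hμ0 k8 k9 k10 hKw0

end Pool.Agent.GNP
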