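import Pool.Agent.GNP.Defs6
import Pool.Agent.GNP.HH
import Pool.Agent.GNP.STRa
import Pool.Agent.GNP.STRq

/-!
The structure lemma: if a reduction of the phase has a small Hessian at a point where the labelled
gaps of the roots are stable, then all its derivatives of order at least three are small.
-/

set_option autoImplicit false

namespace Pool.Agent.GNP

open MeasureTheory Set Module Filter Topology Pool.Agent.MP_6cbfb8_an RT
open scoped ENNReal Real RealInnerProductSpace ContDiff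

/-- The operator norm from the bilinear form. -/
theorem str_opNorm {m : ℕ} {T : E m →L[ℝ] E m} {M : ℝ} (hM : 0 ≤ M)
    (h : ∀ x u, |⟪T x, u⟫| ≤ M * ‖x‖ * ‖u‖) : ‖T‖ ≤ M := by
  refine T.opNorm_le_bound hM fun x => ?_
  have h1 := h x (T x)
  rw [real_inner_self_eq_norm_sq, abs_of_nonneg (sq_nonneg _)] at h1
  rcases (norm_nonneg (T x)).eq_or_lt with h2 | h2
  · rw [← h2]; positivity
  · rw [pow_two] at h1
    exact le_of_mul_le_mul_right h1 h2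

/-- The Hessian of the reduced phase on the ball of radius `σ`. -/
theorem str_Hs_ball {d m : ℕ} {Λ : ℕ → ℝ} {q : E d → ℝ} {R ρ : ℝ} {ι : E m →ₗᵢ[ℝ] E d}
    {Y : E m → E d} {Q : E m → ℝ} {v : E m} (h : Red d m Λ q R ρ ι Y Q v) (hρ : 0 < ρ)
    {u : E m} (hu : ‖u - v‖ ≤ ρ) : ‖Hs Q u‖ ≤ ‖Hs Q v‖ + Λ 3 * R / ρ * ‖u - v‖ := by
  have h1 : ‖Hs Q u - Hs Q v‖ ≤ Λ 3 * R / ρ * ‖u - v‖ := by
    refine Hs_lip_on h.smQ (convex_closedBall v ρ) (fun y hy => ?_)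
      (by rwa [mem_closedBall_iff_norm]) (Metric.mem_closedBall_self hρ.le)
    rw [mem_closedBall_iff_norm] at hy
    refine (h.bdQ 3 (by norm_num) y hy).trans (le_of_eq ?_)
    field_simp
  have h2 : Hs Q u = Hs Q v + (Hs Q u - Hs Q v) := by abel
  calc ‖Hs Q u‖ = ‖Hs Q v + (Hs Q u - Hs Q v)‖ := by rw [← h2]
    _ ≤ ‖Hs Q v‖ + ‖Hs Q u - Hs Q v‖ := norm_add_le _ _
    _ ≤ _ := by linarith

/-- The structure lemma, with explicit powers. -/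
theorem str_core (d m : ℕ) (hm : 2 ≤ m) {b : ℝ} (hb : 0 < b) (A Λ : ℕ → ℝ) :
    ∃ C0 : ℝ, 1 ≤ C0 ∧ ∀ n0 J : ℕ, ∃ K0 : ℝ, 1 ≤ K0 ∧ ∀ K, K0 ≤ K →
    ∀ (Φ h : E d → ℝ) (c s R ρ σ w : ℝ) (ι : E m →ₗᵢ[ℝ] E d) (Y : E m → E d) (Q : E m → ℝ)
      (v : E m), ContDiff ℝ ∞ Φ → Sm d A h → Red d m Λ (ph Φ h c s) R ρ ι Y Q v → ρ ≤ 1 →
      0 < w → 0 < σ → K ^ 4 * w ≤ R → R ≤ K ^ n0 * w → K ^ 4 * σ ≤ ρ → ‖Hs Q v‖ ≤ w →
      (∀ u, ‖u - v‖ ≤ ρ → ∀ x, b * ‖x‖ ^ 2 ≤ ⟪(-(Hs h (Y u))) x, x⟫) →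
      Stab (fun y => rt (-(c • Hs Φ y)) (-(Hs h y))) K w (C0 * σ) (Y v) →
      ∀ u, ‖u - v‖ ≤ σ / 4 → ∀ j, 3 ≤ j → j ≤ J →
        ‖iteratedFDeriv ℝ j Q u‖ ≤ K ^ 3 * w * σ⁻¹ ^ (j - 2) := by
  obtain ⟨C1, hC1, hmu⟩ := str_mu d m b (A 2) hb Λ
  refine ⟨C1, by linarith, fun n0 J => ?_⟩
  obtain ⟨CH, hCH, hhex⟩ := hh_exists m d A Λ
  obtain ⟨N, K1, Ca, hN, hK1, hCa, hst⟩ := stra_uni m (J + 3) (n0 + 1) hm (by omega)
    (b := b / 2) (A := 1 + CH 2) (by positivity) (by linarith [hCH 2])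
  set S : ℝ := ∑ j ∈ Finset.range (N + 1), (CH j + |Λ j|) with hS
  have hS0 : 0 ≤ S := Finset.sum_nonneg fun j _ => add_nonneg (hCH j).le (abs_nonneg _)
  have hSj : ∀ j, j ≤ N → CH j ≤ S ∧ |Λ j| ≤ S := by
    intro j hj
    have h1 : CH j + |Λ j| ≤ S := Finset.single_le_sum
      (f := fun j => CH j + |Λ j|) (fun i _ => add_nonneg (hCH i).le (abs_nonneg _))
      (Finset.mem_range.2 (by omega))
    constructor
    · linarith [abs_nonneg (Λ j)]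
    · linarith [(hCH j).le]
  have hC1' : 1 ≤ C1 := by linarith
  have hC10 : 0 < C1 := by linarith
  refine ⟨max K1 (8 * C1 ^ 2 * (1 + S) * (1 + 1 / b) + Ca * C1 + 1), le_max_of_le_left hK1, ?_⟩
  intro K hK Φ h c s R ρ σ w ι Y Q v hΦ hh hred hρ1 hw hσ hwR hRw hσρ hQv hpos hstab
  have hKa : K1 ≤ K := (le_max_left _ _).trans hK
  have hKb : 8 * C1 ^ 2 * (1 + S) * (1 + 1 / b) + Ca * C1 + 1 ≤ K := (le_max_right _ _).trans hK
  have hK1' : 1 ≤ K := hK1.trans hKa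
  have hK0 : 0 < K := by linarith
  have hib : 0 < 1 / b := by positivity
  have hCaC : 0 < Ca * C1 := by positivity
  have hC1K : 8 * C1 ^ 2 * (1 + S) ≤ K := by
    have h1 : 8 * C1 ^ 2 * (1 + S) * 1 ≤ 8 * C1 ^ 2 * (1 + S) * (1 + 1 / b) :=
      mul_le_mul_of_nonneg_left (by linarith) (by positivity)
    linarith
  have hbK : 8 * C1 ^ 2 * (1 + S) * (1 / b) ≤ K := by
    have h1 : 8 * C1 ^ 2 * (1 + S) * (1 / b) ≤ 8 * C1 ^ 2 * (1 + S) * (1 + 1 / b) :=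
      mul_le_mul_of_nonneg_left (by linarith) (by positivity)
    linarith
  have hCsq : 1 ≤ C1 ^ 2 := one_le_pow₀ hC1'
  have hCC : C1 ≤ C1 ^ 2 := le_self_pow₀ hC1' (by norm_num)
  have hKK : K ≤ K ^ 2 := le_self_pow₀ hK1' (by norm_num)
  have hS1 : 1 + S ≤ K / 8 := by
    have h1 : 1 * (1 + S) ≤ C1 ^ 2 * (1 + S) := mul_le_mul_of_nonneg_right hCsq (by linarith)
    linarith
  have hK8 : 8 ≤ K := by linarith
  have hC1K8 : C1 ≤ K / 8 := by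
    have h2 : 8 * C1 ^ 2 * 1 ≤ 8 * C1 ^ 2 * (1 + S) :=
      mul_le_mul_of_nonneg_left (by linarith) (by positivity)
    linarith
  have hK4 : 0 < K ^ 4 := by positivity
  have hR : 0 < R := lt_of_lt_of_le (by positivity) hwR
  have hρ : 0 < ρ := lt_of_lt_of_le (by positivity) hσρ
  have hK41 : 8 ≤ K ^ 4 := by
    calc (8 : ℝ) ≤ K := hK8
      _ = K ^ 1 := (pow_one K).symm
      _ ≤ K ^ 4 := pow_le_pow_right₀ hK1' (by norm_num)
  have hσρ' : σ < ρ := by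
    have h1 : 8 * σ ≤ K ^ 4 * σ := mul_le_mul_of_nonneg_right hK41 hσ.le
    linarith
  set θ : ℝ := σ / ρ with hθ
  have hθ0 : 0 < θ := by positivity
  have hθK : K ^ 4 * θ ≤ 1 := by
    rw [hθ, ← mul_div_assoc, div_le_one hρ]
    exact hσρ
  have hθ1 : θ ≤ 1 := by
    have h1 : 8 * θ ≤ K ^ 4 * θ := mul_le_mul_of_nonneg_right hK41 hθ0.le
    linarith
  -- the size of the Hessian on the ball
  set e : ℝ := w + S * R * θ with he
  have hSC : 0 ≤ S * R * θ := by positivity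
  have heR : K ^ 4 * e ≤ (1 + S) * R := by
    have h1 : K ^ 4 * (S * R * θ) = S * R * (K ^ 4 * θ) := by ring
    have h2 : S * R * (K ^ 4 * θ) ≤ S * R * 1 := mul_le_mul_of_nonneg_left hθK (by positivity)
    calc K ^ 4 * e = K ^ 4 * w + K ^ 4 * (S * R * θ) := by rw [he]; ring
      _ ≤ R + S * R * 1 := by rw [h1]; exact add_le_add hwR h2
      _ = (1 + S) * R := by ring
  have he0 : 0 < e := by rw [he]; linarith
  have hHs : ∀ u, ‖u - v‖ ≤ σ → ‖Hs Q u‖ ≤ e := by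
    intro u hu
    have h1 := str_Hs_ball hred hρ (hu.trans hσρ'.le)
    have h2 : Λ 3 * R / ρ * ‖u - v‖ ≤ S * R * θ := by
      calc Λ 3 * R / ρ * ‖u - v‖ ≤ |Λ 3| * R / ρ * ‖u - v‖ := by
            gcongr
            exact le_abs_self _
        _ ≤ S * R / ρ * σ := by
            gcongr
            exact (hSj 3 (by omega)).2
        _ = S * R * θ := by rw [hθ]; ring
    rw [he]
    linarith
  have hBh : ∀ u, ‖u - v‖ ≤ σ → (∀ x, b * ‖x‖ ^ 2 ≤ ⟪(-(Hs h (Y u))) x, x⟫) ∧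
      ‖Hs h (Y u)‖ ≤ A 2 ∧ ‖Hs Q u‖ ≤ e :=
    fun u hu => ⟨hpos u (hu.trans hσρ'.le), (norm_Hs_le hh.sm _).trans (hh.bd 2 _), hHs u hu⟩
  have hKK4 : K ≤ K ^ 4 := by
    calc K = K ^ 1 := (pow_one K).symm
      _ ≤ K ^ 4 := pow_le_pow_right₀ hK1' (by norm_num)
  have hK24 : K ^ 2 ≤ K ^ 4 := pow_le_pow_right₀ hK1' (by norm_num)
  have i1 : C1 * σ ≤ ρ := by
    have : C1 ≤ K ^ 4 := by linarith
    calc C1 * σ ≤ K ^ 4 * σ := by gcongr
      _ ≤ ρ := hσρ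
  have hCS : C1 * (1 + S) ≤ K / 8 := by
    have h2 : C1 * (1 + S) ≤ C1 ^ 2 * (1 + S) := mul_le_mul_of_nonneg_right hCC (by linarith)
    linarith
  have hCS2 : C1 ^ 2 * (1 + S) ≤ K / 8 := by linarith
  have i2a : K ^ 4 * (C1 * e) ≤ K / 8 * R := by
    calc K ^ 4 * (C1 * e) = C1 * (K ^ 4 * e) := by ring
      _ ≤ C1 * ((1 + S) * R) := by gcongr
      _ = C1 * (1 + S) * R := by ring
      _ ≤ K / 8 * R := by gcongr
  have i2 : C1 * e ≤ R := by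
    have h1 : K ^ 4 * (C1 * e) ≤ K ^ 4 * R := by
      refine i2a.trans ?_
      have : K / 8 ≤ K ^ 4 := by linarith
      gcongr
    exact le_of_mul_le_mul_left h1 hK4
  have i3 : C1 * (K * w) ≤ R := by
    calc C1 * (K * w) ≤ K * (K * w) := by
          have : C1 ≤ K := by linarith
          gcongr
      _ = K ^ 2 * w := by ring
      _ ≤ K ^ 4 * w := by gcongr
      _ ≤ R := hwR
  obtain ⟨μ, hμv, hμ⟩ := hmu Φ h c s R ρ ι Y Q v σ w e K hΦ hh.sm hred (by omega) hσ i1 hR hK1'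
    hw.le hBh i2 i3 hQv hstab
  obtain ⟨hhf, hhs, hhb, hhH⟩ := hhex h Y v ρ hh hred.smY hρ hρ1 (fun u hu j hj => hred.bdY j hj u hu)
  -- the quadratic structure
  have hη : (K ^ 2)⁻¹ * K ≤ 1 := by
    rw [inv_mul_le_iff₀ (by positivity), mul_one]
    exact hKK
  have hη0 : 0 ≤ (K ^ 2)⁻¹ := by positivity
  have hst1 : ∀ u, ‖u - v‖ ≤ σ →
      ‖Hs Q u + μ u • Hs hhf u‖ ≤ C1 * (K * w) + (K ^ 2)⁻¹ * |μ u| := by
    intro u hu
    obtain ⟨hμu, hμf⟩ := hμ u hu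
    have hc0 := (hSj 0 (by omega)).1
    have k1 : C1 * (K * w + |μ u|) / R + CH 0 * θ ≤ (K ^ 2)⁻¹ := by
      have j1 : C1 * (K * w) / R ≤ 1 / 8 * (K ^ 2)⁻¹ := by
        rw [div_le_iff₀ hR]
        have a1 : C1 * (K * w) ≤ K / 8 * (K * w) := by gcongr
        have a2 : K / 8 * (K * w) = 1 / 8 * (K ^ 2)⁻¹ * (K ^ 4 * w) := by
          field_simp
        rw [a2] at a1
        refine a1.trans ?_
        gcongr
      have j2 : C1 * |μ u| / R ≤ 1 / 8 * (K ^ 2)⁻¹ := by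
        rw [div_le_iff₀ hR]
        have a1 : C1 * |μ u| ≤ C1 * (C1 * e) := by gcongr
        have a2 : K ^ 4 * (C1 * (C1 * e)) ≤ K / 8 * R := by
          calc K ^ 4 * (C1 * (C1 * e)) = C1 ^ 2 * (K ^ 4 * e) := by ring
            _ ≤ C1 ^ 2 * ((1 + S) * R) := by gcongr
            _ = C1 ^ 2 * (1 + S) * R := by ring
            _ ≤ K / 8 * R := by gcongr
        have a3 : K / 8 * R ≤ K ^ 4 * (1 / 8 * (K ^ 2)⁻¹ * R) := by
          have : K ^ 4 * (1 / 8 * (K ^ 2)⁻¹ * R) = K ^ 2 / 8 * R := by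
            field_simp
          rw [this]
          gcongr
        exact a1.trans (le_of_mul_le_mul_left (a2.trans a3) hK4)
      have j3 : CH 0 * θ ≤ 1 / 8 * (K ^ 2)⁻¹ := by
        have a1 : K ^ 4 * (CH 0 * θ) ≤ K / 8 := by
          calc K ^ 4 * (CH 0 * θ) = CH 0 * (K ^ 4 * θ) := by ring
            _ ≤ CH 0 * 1 := by
              have := (hCH 0).le
              gcongr
            _ ≤ K / 8 := by linarith
        have a2 : K / 8 ≤ K ^ 4 * (1 / 8 * (K ^ 2)⁻¹) := by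
          have : K ^ 4 * (1 / 8 * (K ^ 2)⁻¹) = K ^ 2 / 8 := by
            field_simp
          rw [this]
          gcongr
        exact le_of_mul_le_mul_left (a1.trans a2) hK4
      have j4 : C1 * (K * w + |μ u|) / R = C1 * (K * w) / R + C1 * |μ u| / R := by ring
      have j5 := hη0
      rw [j4]
      linarith
    refine str_opNorm (by positivity) fun x x' => ?_
    have h1 := hμf x x'
    have h2 := hhH σ hσ hσρ'.le u hu x x'
    have h3 : ⟪(Hs Q u + μ u • Hs hhf u) x, x'⟫ =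
        (⟪x, Hs Q u x'⟫ - μ u * ⟪(-(Hs h (Y u))) (fderiv ℝ Y u x), fderiv ℝ Y u x'⟫) +
        μ u * (⟪Hs hhf u x, x'⟫ - ⟪Hs h (Y u) (fderiv ℝ Y u x), fderiv ℝ Y u x'⟫) := by
      rw [add_apply, smul_apply, inner_add_left, real_inner_smul_left, Hs_symm hred.smQ, neg_apply,
        inner_neg_left]
      ring
    rw [h3]
    refine (abs_add_le _ _).trans ?_
    rw [abs_mul]
    have h4 : |μ u| * |⟪Hs hhf u x, x'⟫ - ⟪Hs h (Y u) (fderiv ℝ Y u x), fderiv ℝ Y u x'⟫| ≤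
        |μ u| * (CH 0 * (σ / ρ) * ‖x‖ * ‖x'‖) := by gcongr
    have h5 : C1 * (K * w + |μ u| * (K * w + |μ u|) / R) * ‖x‖ * ‖x'‖ +
        |μ u| * (CH 0 * (σ / ρ) * ‖x‖ * ‖x'‖) =
        (C1 * (K * w) + (C1 * (K * w + |μ u|) / R + CH 0 * θ) * |μ u|) * ‖x‖ * ‖x'‖ := by
      rw [hθ]; ring
    refine (add_le_add h1 h4).trans (h5.trans_le ?_)
    gcongr
  have hCb : 1 + S ≤ b * (K / 8) := by
    have h1 : 1 ≤ C1 ^ 2 := one_le_pow₀ hC1'
    have h2 : 8 * 1 * (1 + S) * (1 / b) ≤ 8 * C1 ^ 2 * (1 + S) * (1 / b) := by gcongr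
    have h3 : 8 * 1 * (1 + S) * (1 / b) ≤ K := h2.trans hbK
    have h4 : b * (8 * 1 * (1 + S) * (1 / b)) ≤ b * K := by gcongr
    have h5 : b * (8 * 1 * (1 + S) * (1 / b)) = 8 * (1 + S) := by field_simp
    linarith
  have hst2 : ∀ u, ‖u - v‖ ≤ σ → ∀ x, b / 2 * ‖x‖ ^ 2 ≤ |⟪Hs hhf u x, x⟫| := by
    intro u hu x
    have h2 := hhH σ hσ hσρ'.le u hu x x
    have h3 := hpos u (hu.trans hσρ'.le) (fderiv ℝ Y u x)
    have h4 := hred.norm_le_dY (lt_of_le_of_lt hu hσρ') x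
    have h5 : ‖x‖ ^ 2 ≤ ‖fderiv ℝ Y u x‖ ^ 2 := by gcongr
    have h6 : CH 0 * (σ / ρ) * ‖x‖ * ‖x‖ ≤ b / 2 * ‖x‖ ^ 2 := by
      have k1 : CH 0 * (σ / ρ) ≤ b / 2 := by
        have a0 := (hSj 0 (by omega)).1
        have a1 : K ^ 4 * (CH 0 * θ) ≤ b * (K / 8) := by
          calc K ^ 4 * (CH 0 * θ) = CH 0 * (K ^ 4 * θ) := by ring
            _ ≤ CH 0 * 1 := by
              have := (hCH 0).le
              gcongr
            _ ≤ b * (K / 8) := by linarith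
        have a2 : b * (K / 8) ≤ K ^ 4 * (b / 2) := by
          have : b * (K / 8) ≤ b * (K ^ 4 / 2) := by
            have : K / 8 ≤ K ^ 4 / 2 := by linarith
            gcongr
          linarith
        exact le_of_mul_le_mul_left (a1.trans a2) hK4
      calc CH 0 * (σ / ρ) * ‖x‖ * ‖x‖ = CH 0 * (σ / ρ) * ‖x‖ ^ 2 := by ring
        _ ≤ b / 2 * ‖x‖ ^ 2 := by gcongr
    have h7 : b * ‖x‖ ^ 2 ≤ b * ‖fderiv ℝ Y u x‖ ^ 2 := by gcongr
    rw [neg_apply, inner_neg_left] at h3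
    have h8 := (abs_le.1 h2).2
    have h9 : b / 2 * ‖x‖ ^ 2 ≤ -⟪Hs hhf u x, x⟫ := by linarith
    exact h9.trans (neg_le_abs _)
  have hst3 : ∀ u, ‖u - v‖ ≤ σ → ∀ j, 2 ≤ j → j ≤ N →
      ‖iteratedFDeriv ℝ j Q u‖ ≤ K ^ (n0 + 1) * (C1 * (K * w)) * σ⁻¹ ^ (j - 2) := by
    intro u hu j hj hjN
    have h1 := hred.bdQ j hj u (hu.trans hσρ'.le)
    have h2 : Λ j * (R * ρ ^ 2) / ρ ^ j = Λ j * R * ρ⁻¹ ^ (j - 2) := by
      obtain ⟨i, rfl⟩ : ∃ i, j = i + 2 := ⟨j - 2, by omega⟩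
      rw [Nat.add_sub_cancel, inv_pow, pow_add]
      field_simp
    rw [h2] at h1
    refine h1.trans ?_
    have h3 : ρ⁻¹ ^ (j - 2) ≤ σ⁻¹ ^ (j - 2) := by gcongr
    calc Λ j * R * ρ⁻¹ ^ (j - 2) ≤ |Λ j| * R * ρ⁻¹ ^ (j - 2) := by gcongr; exact le_abs_self _
      _ ≤ |Λ j| * R * σ⁻¹ ^ (j - 2) := by gcongr
      _ ≤ K ^ (n0 + 1) * (C1 * (K * w)) * σ⁻¹ ^ (j - 2) := by
        have h5 : |Λ j| * R ≤ K ^ (n0 + 1) * (C1 * (K * w)) := by
          calc |Λ j| * R ≤ K * (K ^ n0 * w) := by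
                have := (hSj j hjN).2
                have : |Λ j| ≤ K := by linarith
                gcongr
            _ = K ^ (n0 + 1) * (1 * (1 * w)) := by ring
            _ ≤ K ^ (n0 + 1) * (C1 * (K * w)) := by gcongr
        gcongr
  have hst4 : ∀ u, ‖u - v‖ ≤ σ → ‖iteratedFDeriv ℝ 2 hhf u‖ ≤ 1 + CH 2 := by
    intro u hu
    have h1 := hhb u (hu.trans hσρ'.le) 2
    rw [div_self (by positivity), mul_one] at h1
    linarith
  have hst5 : ∀ u, ‖u - v‖ ≤ σ → ∀ j, 3 ≤ j → j ≤ N →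
      ‖iteratedFDeriv ℝ j hhf u‖ ≤ (K ^ 2)⁻¹ * σ⁻¹ ^ (j - 2) := by
    intro u hu j hj hjN
    refine (hhb u (hu.trans hσρ'.le) j).trans ?_
    obtain ⟨i, rfl⟩ : ∃ i, j = i + 3 := ⟨j - 3, by omega⟩
    have e1 : i + 3 - 2 = i + 1 := by omega
    have h2 : CH (i + 3) * (ρ ^ 2 / ρ ^ (i + 3)) = CH (i + 3) * θ ^ (i + 1) * σ⁻¹ ^ (i + 1) := by
      rw [hθ, div_pow, inv_pow]
      field_simp
      ring
    have h3 : θ ^ (i + 1) ≤ θ := by
      rw [pow_succ]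
      exact mul_le_of_le_one_left hθ0.le (pow_le_one₀ hθ0.le hθ1)
    have h4 : CH (i + 3) * θ ^ (i + 1) ≤ (K ^ 2)⁻¹ := by
      have a0 := (hSj (i + 3) hjN).1
      have a1 : K ^ 4 * (CH (i + 3) * θ) ≤ K / 8 := by
        calc K ^ 4 * (CH (i + 3) * θ) = CH (i + 3) * (K ^ 4 * θ) := by ring
          _ ≤ CH (i + 3) * 1 := by
            have := (hCH (i + 3)).le
            gcongr
          _ ≤ K / 8 := by linarith
      have a2 : K / 8 ≤ K ^ 4 * (K ^ 2)⁻¹ := by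
        have : K ^ 4 * (K ^ 2)⁻¹ = K ^ 2 := by
          field_simp
        rw [this]
        linarith
      refine le_trans ?_ (le_of_mul_le_mul_left (a1.trans a2) hK4)
      have := (hCH (i + 3)).le
      gcongr
    rw [h2, e1]
    gcongr
  intro u hu j hj3 hjJ
  have hw' : 0 < C1 * (K * w) := by positivity
  have hfin := (hst Q hhf μ v σ K (C1 * (K * w)) ((K ^ 2)⁻¹) hred.smQ hhs hKa hσ hw' hη0 hη
    (fun u hu => ⟨hst3 u hu, hst4 u hu, hst5 u hu, hst2 u hu, hst1 u hu⟩)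
    (hμv.trans (by
      have : C1 * w = C1 * (1 * w) := by ring
      rw [this]
      gcongr)) u hu).2 j hj3 (by omega)
  refine hfin.trans ?_
  have h1 : Ca * K * (C1 * (K * w)) ≤ K ^ 3 * w := by
    calc Ca * K * (C1 * (K * w)) = Ca * C1 * (K * K * w) := by ring
      _ ≤ K * (K * K * w) := by
        have : Ca * C1 ≤ K := by
          have : 0 ≤ 8 * C1 ^ 2 * (1 + S) * (1 + 1 / b) := by positivity
          linarith
        gcongr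
      _ = K ^ 3 * w := by ring
  gcongr

/-- Smaller ball and, for `m = d`, larger size. -/
theorem str_red_mono {d m : ℕ} {Λ : ℕ → ℝ} {q : E d → ℝ} {R R' ρ ρ' : ℝ} {ι : E m →ₗᵢ[ℝ] E d}
    {Y : E m → E d} {Q : E m → ℝ} {v : E m} (h : Red d m Λ q R ρ ι Y Q v) (hρ' : 0 < ρ')
    (hρ : ρ' ≤ ρ) (hR : 0 ≤ R) (hR' : R ≤ R') (hm : R' = R ∨ m = d) :
    Red d m (fun j => |Λ j|) q R' ρ' ι Y Q v := by
  have hρ0 : 0 < ρ := hρ'.trans_le hρ
  have hR'0 : 0 ≤ R' := hR.trans hR'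
  refine ⟨h.smY, h.smQ, fun u hu => h.sec u (hu.trans hρ), fun u hu => h.grad u (hu.trans hρ),
    fun u hu => h.leaf u (hu.trans hρ), fun u hu f hf => ?_, fun j hj u hu => ?_,
    fun j hj u hu => ?_⟩
  · rcases hm with hm | hm
    · obtain ⟨g, hg, hg1, hg2⟩ := h.nd u (hu.trans hρ) f hf
      refine ⟨g, hg, hg1, ?_⟩
      rw [hm]
      refine hg2.trans ?_
      gcongr
      exact le_abs_self _
    · subst hm
      refine ⟨0, fun x => by rw [inner_zero_left], by simp, ?_⟩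
      have h1 : f = 0 := by
        have hs : Function.Surjective ι := by
          have h2 : Function.Injective ι.toLinearMap := ι.injective
          exact LinearMap.injective_iff_surjective.1 h2
        obtain ⟨x, hx⟩ := hs f
        have h3 := hf x
        rw [hx] at h3
        exact inner_self_eq_zero.1 h3
      rw [h1]
      simp
  · refine (h.bdY j hj u (hu.trans hρ)).trans ?_
    obtain ⟨i, rfl⟩ : ∃ i, j = i + 1 := ⟨j - 1, by omega⟩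
    have e1 : Λ (i + 1) * ρ / ρ ^ (i + 1) = Λ (i + 1) * (ρ⁻¹ ^ i) := by
      rw [inv_pow, pow_succ]
      field_simp
    have e2 : |Λ (i + 1)| * ρ' / ρ' ^ (i + 1) = |Λ (i + 1)| * (ρ'⁻¹ ^ i) := by
      rw [inv_pow, pow_succ]
      field_simp
    rw [e1, e2]
    have h1 : ρ⁻¹ ^ i ≤ ρ'⁻¹ ^ i := by gcongr
    have h2 : 0 ≤ ρ⁻¹ ^ i := by positivity
    calc Λ (i + 1) * ρ⁻¹ ^ i ≤ |Λ (i + 1)| * ρ⁻¹ ^ i := by
          gcongr
          exact le_abs_self _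
      _ ≤ _ := by gcongr
  · refine (h.bdQ j hj u (hu.trans hρ)).trans ?_
    obtain ⟨i, rfl⟩ : ∃ i, j = i + 2 := ⟨j - 2, by omega⟩
    have e1 : Λ (i + 2) * (R * ρ ^ 2) / ρ ^ (i + 2) = Λ (i + 2) * (R * ρ⁻¹ ^ i) := by
      rw [inv_pow, pow_add]
      field_simp
    have e2 : |Λ (i + 2)| * (R' * ρ' ^ 2) / ρ' ^ (i + 2) = |Λ (i + 2)| * (R' * ρ'⁻¹ ^ i) := by
      rw [inv_pow, pow_add]
      field_simp
    rw [e1, e2]
    have h1 : ρ⁻¹ ^ i ≤ ρ'⁻¹ ^ i := by gcongr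
    have h2 : 0 ≤ ρ⁻¹ ^ i := by positivity
    calc Λ (i + 2) * (R * ρ⁻¹ ^ i) ≤ |Λ (i + 2)| * (R * ρ⁻¹ ^ i) := by
          gcongr
          exact le_abs_self _
      _ ≤ _ := by gcongr

/-- **The structure lemma.** -/
theorem str (d m : ℕ) (hm : 2 ≤ m) : ∃ C : ℕ, ∀ (A Λ : ℕ → ℝ) (b δ : ℝ), 0 < b → 0 < δ →
    ∀ n0 J : ℕ, ∃ K0 : ℝ, 1 ≤ K0 ∧ ∀ K, K0 ≤ K →
    ∀ (Φ h : E d → ℝ) (c s R ρ σ w : ℝ) (ι : E m →ₗᵢ[ℝ] E d) (Y : E m → E d) (Q : E m → ℝ)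
      (v : E m), Sm d A Φ → Sm d A h → |c| ≤ K ^ n0 → |s| ≤ K ^ n0 → 0 ≤ R → R ≤ K ^ n0 →
      0 < ρ → ρ ≤ 1 → 1 ≤ w → 1 ≤ K ^ n0 * σ → K ^ C * σ ≤ ρ → (m = d ∨ K ^ C * w ≤ R) →
      Red d m Λ (ph Φ h c s) R ρ ι Y Q v → DfB b (Y v) δ h → ‖Hs Q v‖ ≤ w →
      Stab (mu Φ h c) K w σ (Y v) →
      ∀ j, 3 ≤ j → j ≤ J → ‖iteratedFDeriv ℝ j Q v‖ ≤ K ^ C * (w * σ ^ 2) / σ ^ j := by
  refine ⟨5, fun A Λ b δ hb hδ n0 J => ?_⟩
  obtain ⟨C0, hC0, H0⟩ := str_core d m hm hb A (fun j => |Λ j|)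
  obtain ⟨K0, hK0, H⟩ := H0 (n0 + 4) J
  refine ⟨max K0 ((1 + |Λ 1|) / δ + C0 ^ J), le_max_of_le_left hK0,
    fun K hK Φ h c s R ρ σ w ι Y Q v hΦ hh hc hs hR0 hRn hρ hρ1 hw hσn hσρ hmR hred hD hQv hstab
    j hj hjJ => ?_⟩
  have hK0' : K0 ≤ K := (le_max_left _ _).trans hK
  have hKm : (1 + |Λ 1|) / δ + C0 ^ J ≤ K := (le_max_right _ _).trans hK
  have hKδ : (1 + |Λ 1|) / δ ≤ K := by
    have : 0 < C0 ^ J := by positivity
    linarith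
  have hKJ : C0 ^ J ≤ K := by
    have : 0 ≤ (1 + |Λ 1|) / δ := by positivity
    linarith
  have hK1 : 1 ≤ K := hK0.trans hK0'
  have hKp : 0 < K := by linarith
  have hw0 : 0 < w := by linarith
  have hσ : 0 < σ := by
    by_contra hcon
    have h1 : K ^ n0 * σ ≤ 0 := mul_nonpos_of_nonneg_of_nonpos (by positivity) (not_lt.1 hcon)
    linarith
  set σ' : ℝ := σ / C0 with hσ'
  have hσ'0 : 0 < σ' := by positivity
  have hσσ : C0 * σ' = σ := by rw [hσ']; field_simp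
  have hσ'σ : σ' ≤ σ := by
    rw [← hσσ]
    exact le_mul_of_one_le_left hσ'0.le hC0
  set ρ' : ℝ := K ^ 4 * σ' with hρ'
  have hρ'0 : 0 < ρ' := by positivity
  have hρK : K * ρ' ≤ ρ := by
    have : K * ρ' = K ^ 5 * σ' := by rw [hρ']; ring
    rw [this]
    refine le_trans ?_ hσρ
    gcongr
  have hρρ : ρ' ≤ ρ := (le_mul_of_one_le_left hρ'0.le hK1).trans hρK
  have hρδ : |Λ 1| * ρ' ≤ δ := by
    have h1 : (1 + |Λ 1|) ≤ K * δ := by rwa [div_le_iff₀ hδ] at hKδ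
    have h2 : K * (|Λ 1| * ρ') ≤ K * δ := by
      calc K * (|Λ 1| * ρ') = |Λ 1| * (K * ρ') := by ring
        _ ≤ |Λ 1| * 1 := by
          have := abs_nonneg (Λ 1)
          gcongr
          linarith
        _ ≤ K * δ := by linarith
    exact le_of_mul_le_mul_left h2 hKp
  have hDf : ∀ u, ‖u - v‖ ≤ ρ' → ∀ x, b * ‖x‖ ^ 2 ≤ ⟪(-(Hs h (Y u))) x, x⟫ := by
    intro u hu x
    have h1 := hred.dist_Y hρ (hu.trans hρρ)
    have h2 : ‖Y u - Y v‖ ≤ δ := by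
      refine h1.trans (le_trans ?_ hρδ)
      calc Λ 1 * ‖u - v‖ ≤ |Λ 1| * ‖u - v‖ := by gcongr; exact le_abs_self _
        _ ≤ |Λ 1| * ρ' := by gcongr
    have h3 := hD (Y u) h2 x
    rw [neg_apply, inner_neg_left]
    linarith
  have hfin : ∃ R' : ℝ, R ≤ R' ∧ (R' = R ∨ m = d) ∧ K ^ 4 * w ≤ R' ∧ R' ≤ K ^ (n0 + 4) * w := by
    have hKn : K ^ n0 ≤ K ^ (n0 + 4) := pow_le_pow_right₀ hK1 (by omega)
    have hRn' : R ≤ K ^ (n0 + 4) * w := by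
      calc R ≤ K ^ n0 * 1 := by rw [mul_one]; exact hRn
        _ ≤ K ^ (n0 + 4) * w := by gcongr
    rcases hmR with hmR | hmR
    · refine ⟨max R (K ^ 4 * w), le_max_left _ _, Or.inr hmR, le_max_right _ _, max_le hRn' ?_⟩
      have : K ^ 4 ≤ K ^ (n0 + 4) := pow_le_pow_right₀ hK1 (by omega)
      gcongr
    · refine ⟨R, le_rfl, Or.inl rfl, le_trans ?_ hmR, hRn'⟩
      have : K ^ 4 ≤ K ^ 5 := pow_le_pow_right₀ hK1 (by norm_num)
      gcongr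
  obtain ⟨R', hRR, hRm, hR1, hR2⟩ := hfin
  have hred' := str_red_mono hred hρ'0 hρρ hR0 hRR hRm
  have hstab' : Stab (fun y => rt (-(c • Hs Φ y)) (-(Hs h y))) K w (C0 * σ') (Y v) := by
    rw [hσσ]
    exact hstab
  refine (H K hK0' Φ h c s R' ρ' σ' w ι Y Q v hΦ.sm hh hred' (hρρ.trans hρ1) hw0 hσ'0 hR1 hR2
    le_rfl hQv hDf hstab' v (by rw [sub_self, norm_zero]; positivity) j hj hjJ).trans ?_
  obtain ⟨i, rfl⟩ : ∃ i, j = i + 2 := ⟨j - 2, by omega⟩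
  rw [Nat.add_sub_cancel]
  have h1 : σ'⁻¹ ^ i = C0 ^ i * σ⁻¹ ^ i := by
    rw [hσ', inv_div, div_pow, inv_pow]
    ring
  have h2 : C0 ^ i ≤ K := (pow_le_pow_right₀ hC0 (by omega)).trans hKJ
  have h3 : K ^ 5 * (w * σ ^ 2) / σ ^ (i + 2) = K ^ 5 * w * σ⁻¹ ^ i := by
    rw [inv_pow, pow_add]
    field_simp
  rw [h1, h3]
  calc K ^ 3 * w * (C0 ^ i * σ⁻¹ ^ i) ≤ K ^ 3 * w * (K * σ⁻¹ ^ i) := by gcongr
    _ = K ^ 4 * w * σ⁻¹ ^ i := by ring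
    _ ≤ K ^ 5 * w * σ⁻¹ ^ i := by
      have : K ^ 4 ≤ K ^ 5 := pow_le_pow_right₀ hK1 (by norm_num)
      gcongr

end Pool.Agent.GNP
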