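-- Pool/Agent/GNP/GEO6.lean
import Pool.Agent.GNP.GEOG
import Pool.Agent.GNP.STR

/-! From the chains to the types. -/

namespace Pool.Agent.GNP

open MeasureTheory Set Pool.Agent.MP_6cbfb8_an
open scoped ENNReal Real RealInnerProductSpace ContDiff

theorem geo (d : ℕ) (_hd : 1 ≤ d) : ∃ C : ℕ, ∀ (A : ℕ → ℝ) (A' : ℕ → ℕ → ℝ) (b δ : ℝ), 0 < b →
    0 < δ → ∀ n0 J : ℕ, ∃ K0 : ℝ, 1 ≤ K0 ∧ ∀ K, K0 ≤ K →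
    ∀ (Φ h : E d → ℝ) (c s ρ w : ℝ) (y : E d), Sm d A Φ → Sm d A h → |c| ≤ K ^ n0 →
      |s| ≤ K ^ n0 → DfB b y δ h → 1 ≤ K * ρ → ρ ≤ 1 → 0 ≤ w →
      Wt A' K J d ρ (ph Φ h c s) y w →
      GeoN d C (n0 + C) K (mu Φ h c y) (Unst (mu Φ h c) K C y) s w :=
  geo_of_str fun m hm _ => str d m hm

/-- The same for cells of any radius `ρ`. -/
theorem geo_rho (d : ℕ) (_hd : 1 ≤ d) : ∃ C : ℕ, ∀ (A : ℕ → ℝ) (A' : ℕ → ℕ → ℝ) (b δ : ℝ), 0 < b →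
    0 < δ → ∀ n0 J : ℕ, ∃ K0 : ℝ, 1 ≤ K0 ∧ ∀ K, K0 ≤ K →
    ∀ (Φ h : E d → ℝ) (c s ρ w : ℝ) (y : E d), Sm d A Φ → Sm d A h → |c| ≤ K ^ n0 →
      |s| ≤ K ^ n0 → DfB b y δ h → 1 ≤ K ^ n0 * ρ → ρ ≤ 1 → 0 ≤ w →
      Wt A' K J d ρ (ph Φ h c s) y w →
      GeoN d C (2 * n0 + C) K (mu Φ h c y) (Uns C K ρ (mu Φ h c) y) s w :=
  geo_rho_of_str fun m hm _ => str d m hm

end Pool.Agent.GNP
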