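import Pool.Agent.GNP.MU

/-!
Every phase, all dimensions: the roots, cut off to a ball, are measurable.
-/

namespace Pool.Agent.GNP

open MeasureTheory Set Pool.Agent.MP_6cbfb8_an
open scoped ENNReal Real RealInnerProductSpace ContDiff

theorem mu_cut {d : ℕ} {Φ h : E d → ℝ} {b r : ℝ} {z : E d} (hΦ : ContDiff ℝ ∞ Φ)
    (hh : ContDiff ℝ ∞ h) (hb : 0 < b) (hD : DfB b z r h) (c : ℝ) :
    ∃ μ : E d → Fin d → ℝ, (∀ i, Measurable fun y => μ y i) ∧
      ∀ y, ‖y - z‖ ≤ r → μ y = mu Φ h c y := by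
  classical
  refine ⟨fun y i => ({y | ‖y - z‖ ≤ r} : Set (E d)).piecewise (fun y => mu Φ h c y i)
    (fun _ => 0) y, fun i => ?_, fun y hy => ?_⟩
  · have hm : MeasurableSet {y : E d | ‖y - z‖ ≤ r} :=
      (isClosed_le (by fun_prop) continuous_const).measurableSet
    exact (mu_cont hΦ hh hb hD c i).measurable_piecewise continuousOn_const hm
  · funext i
    exact piecewise_eq_of_mem _ _ _ hy

end Pool.Agent.GNP
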