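import Pool.Agent.GNP.P5

/-!
Every value of the gradient of a polynomial, along any affine subspace, is taken at most `M(d, D)`
times at points where the Hessian along the subspace is nondegenerate.
-/

set_option autoImplicit false

namespace Pool.Agent.GNP

open MeasureTheory Set Pool.Agent.MP_6cbfb8_an
open scoped ENNReal Real RealInnerProductSpace ContDiff Topology

/-- If almost every value is taken at most `J` times, then every value is taken at most `J` times at
the points where the derivative is invertible. -/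
theorem encard_nondeg {V : Type*} [NormedAddCommGroup V] [NormedSpace ℝ V] [FiniteDimensional ℝ V]
    [MeasurableSpace V] [BorelSpace V] (μ : Measure V) [μ.IsOpenPosMeasure] (f : V → V)
    (f' : V → V →L[ℝ] V) (J : ℕ) (hJ : ∀ᵐ z ∂μ, {y | f y = z}.encard ≤ J) (x : V) :
    {y | f y = x ∧ HasStrictFDerivAt f (f' y) y ∧ (f' y).det ≠ 0}.encard ≤ J := by
  classical
  have : CompleteSpace V := FiniteDimensional.complete ℝ V
  by_contra hlt
  rw [not_le] at hlt
  obtain ⟨Z, hZs, hZc⟩ := Set.exists_subset_encard_eq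
    (k := ((J + 1 : ℕ) : ℕ∞)) (by exact_mod_cast Order.add_one_le_of_lt hlt)
  have hZf : Z.Finite := Set.finite_of_encard_eq_coe hZc
  obtain ⟨U, hU, hUd⟩ := hZf.t2_separation
  have h1 : ∀ y ∈ Z, f '' (U y) ∈ 𝓝 x := by
    intro y hy
    obtain ⟨h2, h3, h4⟩ := hZs hy
    have h5 : HasStrictFDerivAt f
        (((f' y).toContinuousLinearEquivOfDetNeZero h4 : V ≃L[ℝ] V) : V →L[ℝ] V) y := by
      rw [ContinuousLinearMap.coe_toContinuousLinearEquivOfDetNeZero]
      exact h3
    have h6 := h5.map_nhds_eq_of_equiv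
    rw [h2] at h6
    rw [← h6]
    exact Filter.image_mem_map ((hU y).2.mem_nhds (hU y).1)
  have h2 : (⋂ y ∈ Z, f '' (U y)) ∈ 𝓝 x := (Filter.biInter_mem hZf).mpr h1
  obtain ⟨z, hz⟩ := (Measure.dense_of_ae hJ).inter_nhds_nonempty h2
  obtain ⟨hzJ, hzU⟩ := hz
  rw [mem_iInter₂] at hzU
  choose t ht1 ht2 using hzU
  set g : V → V := fun y => if h : y ∈ Z then t y h else y with hg
  have hgm : MapsTo g Z {y | f y = z} := by
    intro y hy
    simp only [hg, dif_pos hy, mem_setOf_eq]
    exact ht2 y hy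
  have hgi : InjOn g Z := by
    intro y hy y' hy' h
    by_contra hne
    simp only [hg, dif_pos hy, dif_pos hy'] at h
    exact (Set.disjoint_left.mp (hUd hy hy' hne) (ht1 y hy)) (h ▸ ht1 y' hy')
  have h3 := (Set.encard_le_encard_of_injOn hgm hgi).trans hzJ
  rw [hZc] at h3
  have h4 : J + 1 ≤ J := by exact_mod_cast h3
  omega

/-- The case of the gradient of a polynomial. -/
theorem poly_nondeg (d D : ℕ) : ∃ J : ℕ, ∀ P : MvPolynomial (Fin d) ℝ, P.totalDegree ≤ D →
    ∀ x : E d, {y : E d | gr (pe P) y = x ∧ (Hs (pe P) y).det ≠ 0}.encard ≤ J := by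
  obtain ⟨J, hJ⟩ := poly_mult d D
  refine ⟨J, fun P hP x => ?_⟩
  have h1 : ∀ᵐ z : E d, {y : E d | gr (pe P) y = z}.encard ≤ J := by
    filter_upwards [hJ (fun i => MvPolynomial.pderiv i P) fun i =>
      (totalDegree_pderiv_le i P).trans hP] with z hz
    refine (encard_le_encard fun y hy i => ?_).trans hz
    have hy' : gr (pe P) y = z := hy
    rw [← hy', gr_pe]
  refine (encard_le_encard fun y hy => ?_).trans
    (encard_nondeg volume (gr (pe P)) (Hs (pe P)) J h1 x)
  refine ⟨hy.1, ?_, hy.2⟩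
  exact ((contDiff_gr (contDiff_pe P)).contDiffAt (x := y)).hasStrictFDerivAt (by simp)

/-- The polynomial `P (y₀ + U t)`. -/
noncomputable def afp {k d : ℕ} (y0 : E d) (U : E k →L[ℝ] E d) (P : MvPolynomial (Fin d) ℝ) :
    MvPolynomial (Fin k) ℝ :=
  MvPolynomial.bind₁ (fun i => MvPolynomial.C (y0 i) +
    ∑ j, MvPolynomial.C (U (EuclideanSpace.single j 1) i) * MvPolynomial.X j) P

theorem totalDegree_bind1 {σ τ : Type*} (f : σ → MvPolynomial τ ℝ)
    (hf : ∀ i, (f i).totalDegree ≤ 1) (p : MvPolynomial σ ℝ) :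
    (MvPolynomial.bind₁ f p).totalDegree ≤ p.totalDegree := by
  classical
  conv_lhs => rw [MvPolynomial.as_sum p, map_sum]
  refine MvPolynomial.totalDegree_finsetSum_le fun m hm => ?_
  rw [MvPolynomial.bind₁_monomial]
  refine (MvPolynomial.totalDegree_mul _ _).trans ?_
  rw [MvPolynomial.totalDegree_C, zero_add]
  refine (MvPolynomial.totalDegree_finsetProd _ _).trans ?_
  refine le_trans (Finset.sum_le_sum (g := fun i => m i) fun i _ => ?_)
    (MvPolynomial.le_totalDegree hm)
  refine (MvPolynomial.totalDegree_pow _ _).trans ?_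
  calc m i * (f i).totalDegree ≤ m i * 1 := Nat.mul_le_mul_left _ (hf i)
    _ = m i := mul_one _

theorem totalDegree_afp {k d : ℕ} (y0 : E d) (U : E k →L[ℝ] E d) (P : MvPolynomial (Fin d) ℝ) :
    (afp y0 U P).totalDegree ≤ P.totalDegree := by
  refine totalDegree_bind1 _ (fun i => ?_) P
  refine (MvPolynomial.totalDegree_add _ _).trans (max_le ?_ ?_)
  · rw [MvPolynomial.totalDegree_C]; exact zero_le'
  · refine MvPolynomial.totalDegree_finsetSum_le fun j _ => ?_
    refine (MvPolynomial.totalDegree_mul _ _).trans ?_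
    rw [MvPolynomial.totalDegree_C, MvPolynomial.totalDegree_X]

theorem pe_afp {k d : ℕ} (y0 : E d) (U : E k →L[ℝ] E d) (P : MvPolynomial (Fin d) ℝ) (t : E k) :
    pe (afp y0 U P) t = pe P (y0 + U t) := by
  have ht : ∀ i, (U t) i = ∑ j, U (EuclideanSpace.single j 1) i * t j := by
    intro i
    have h1 : t = ∑ j, t j • EuclideanSpace.single j (1 : ℝ) := by
      ext l
      simp [Finset.sum_apply, Pi.single_apply]
    conv_lhs => rw [h1, map_sum]
    simp [mul_comm]
  unfold pe afp
  induction P using MvPolynomial.induction_on with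
  | C a => simp
  | add p q hp hq => rw [map_add, map_add, map_add, hp, hq]
  | mul_X p i hp =>
    rw [map_mul, map_mul, map_mul, hp, MvPolynomial.bind₁_X_right, MvPolynomial.eval_X]
    congr 1
    simp [ht]

theorem gr_afp {k d : ℕ} (y0 : E d) (U : E k →L[ℝ] E d) (P : MvPolynomial (Fin d) ℝ) (t : E k) :
    gr (pe (afp y0 U P)) t = ContinuousLinearMap.adjoint U (gr (pe P) (y0 + U t)) := by
  refine ext_inner_right ℝ fun v => ?_
  rw [inner_gr, ContinuousLinearMap.adjoint_inner_left, inner_gr]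
  have h1 : pe (afp y0 U P) = fun t => pe P (y0 + U t) := funext (pe_afp y0 U P)
  rw [h1]
  have h2 : HasFDerivAt (fun t : E k => y0 + U t) U t := U.hasFDerivAt.const_add y0
  have h3 : HasFDerivAt (pe P) (fderiv ℝ (pe P) (y0 + U t)) (y0 + U t) :=
    ((contDiff_pe P).differentiable (by simp) _).hasFDerivAt
  have h4 := (h3.comp t h2).fderiv
  rw [show (fun t : E k => pe P (y0 + U t)) = pe P ∘ fun t : E k => y0 + U t from rfl, h4]
  rfl

theorem Hs_afp {k d : ℕ} (y0 : E d) (U : E k →L[ℝ] E d) (P : MvPolynomial (Fin d) ℝ) (t v w : E k) :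
    ⟪Hs (pe (afp y0 U P)) t v, w⟫ = ⟪Hs (pe P) (y0 + U t) (U v), U w⟫ := by
  have h1 : gr (pe (afp y0 U P)) = fun t => ContinuousLinearMap.adjoint U (gr (pe P) (y0 + U t)) :=
    funext (gr_afp y0 U P)
  have h2 : HasFDerivAt (fun t : E k => y0 + U t) U t := U.hasFDerivAt.const_add y0
  have h3 : HasFDerivAt (gr (pe P)) (Hs (pe P) (y0 + U t)) (y0 + U t) :=
    ((contDiff_gr (contDiff_pe P)).differentiable (by simp) _).hasFDerivAt
  have h4 := ((ContinuousLinearMap.adjoint U).hasFDerivAt.comp t (h3.comp t h2)).fderiv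
  have h5 : Hs (pe (afp y0 U P)) t =
      (ContinuousLinearMap.adjoint U).comp ((Hs (pe P) (y0 + U t)).comp U) := by
    unfold Hs
    rw [h1]
    exact h4
  rw [h5, ContinuousLinearMap.comp_apply, ContinuousLinearMap.comp_apply,
    ContinuousLinearMap.adjoint_inner_left]

/-- MULT: for a polynomial of degree at most `D`, along any affine subspace, every value of the
gradient is taken at most `M(d, D)` times at points where the Hessian along the subspace is
nondegenerate. -/
theorem mult_poly (d D : ℕ) : ∃ M : ℕ, ∀ P : MvPolynomial (Fin d) ℝ, P.totalDegree ≤ D →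
    ∀ (F : Submodule ℝ (E d)) (y0 ξ : E d),
    {y : E d | y - y0 ∈ F ∧ (∀ v ∈ F, ⟪gr (pe P) y - ξ, v⟫ = 0) ∧
      (∀ v ∈ F, (∀ w ∈ F, ⟪Hs (pe P) y v, w⟫ = 0) → v = 0)}.encard ≤ M := by
  classical
  choose J hJ using fun k => poly_nondeg k D
  refine ⟨∑ k ∈ Finset.range (d + 1), J k, fun P hP F y0 ξ => ?_⟩
  set k := Module.finrank ℝ F with hk
  have hkd : k ≤ d := by
    have := Submodule.finrank_le F
    rw [finrank_euclideanSpace, Fintype.card_fin] at this
    exact this
  set B := stdOrthonormalBasis ℝ F with hB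
  set U : E k →ₗᵢ[ℝ] E d := F.subtypeₗᵢ.comp B.repr.symm.toLinearIsometry with hU
  have hUF : ∀ t, U t ∈ F := fun t => (B.repr.symm t).2
  have hFU : ∀ v ∈ F, ∃ t, U t = v := by
    intro v hv
    refine ⟨B.repr ⟨v, hv⟩, ?_⟩
    have : U (B.repr ⟨v, hv⟩) = ((B.repr.symm (B.repr ⟨v, hv⟩) : F) : E d) := rfl
    rw [this, LinearIsometryEquiv.symm_apply_apply]
  set Uc : E k →L[ℝ] E d := U.toContinuousLinearMap with hUc
  have h1 := hJ k (afp y0 Uc P) ((totalDegree_afp y0 Uc P).trans hP)
    (ContinuousLinearMap.adjoint Uc ξ)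
  have h2 : J k ≤ ∑ k ∈ Finset.range (d + 1), J k :=
    Finset.single_le_sum (f := J) (fun _ _ => Nat.zero_le _)
      (Finset.mem_range.mpr (Nat.lt_succ_of_le hkd))
  refine le_trans ?_ (h1.trans (by exact_mod_cast h2))
  set S := {y : E d | y - y0 ∈ F ∧ (∀ v ∈ F, ⟪gr (pe P) y - ξ, v⟫ = 0) ∧
      (∀ v ∈ F, (∀ w ∈ F, ⟪Hs (pe P) y v, w⟫ = 0) → v = 0)} with hS
  have hex : ∀ y : E d, ∃ t : E k, y ∈ S → y0 + Uc t = y := by
    intro y
    by_cases hy : y ∈ S
    · obtain ⟨t, ht⟩ := hFU _ hy.1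
      refine ⟨t, fun _ => ?_⟩
      have : Uc t = y - y0 := ht
      rw [this]
      abel
    · exact ⟨0, fun h => absurd h hy⟩
  choose g hg using hex
  refine Set.encard_le_encard_of_injOn (f := g) (fun y hy => ?_) (fun y hy y' hy' h => ?_)
  · have hyt := hg y hy
    refine ⟨?_, ?_⟩
    · rw [gr_afp, hyt]
      refine ext_inner_right ℝ fun v => ?_
      rw [ContinuousLinearMap.adjoint_inner_left, ContinuousLinearMap.adjoint_inner_left]
      have := hy.2.1 (Uc v) (hUF v)
      rw [inner_sub_left, sub_eq_zero] at this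
      exact this
    · intro hdet
      have h3 := LinearMap.bot_lt_ker_of_det_eq_zero (f :=
        (Hs (pe (afp y0 Uc P)) (g y) : E k →ₗ[ℝ] E k)) hdet
      obtain ⟨v, hv, hv0⟩ := (Submodule.ne_bot_iff _).mp h3.ne'
      refine hv0 ?_
      have h4 : Uc v = 0 := by
        refine hy.2.2 (Uc v) (hUF v) fun w hw => ?_
        obtain ⟨w', rfl⟩ := hFU w hw
        have h5 := Hs_afp y0 Uc P (g y) v w'
        rw [hyt] at h5
        have h6 : Hs (pe (afp y0 Uc P)) (g y) v = 0 := hv
        rw [h6, inner_zero_left] at h5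
        exact h5.symm
      exact U.injective (by rw [map_zero]; exact h4)
  · rw [← hg y hy, ← hg y' hy', h]

end Pool.Agent.GNP
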