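import Pool.Agent.GNP.Defs4
import Pool.Agent.GNP.P1g

/-!
The tree of cells: a smooth amplitude on a ball is cut by partitions of unity at the scales `ρ / K ^ l`, until a
test is passed.
-/

namespace Pool.Agent.GNP

open MeasureTheory Set Pool.Agent.MP_6cbfb8_an
open scoped ENNReal Real RealInnerProductSpace ContDiff

theorem tr_contDiff_th : ContDiff ℝ ∞ th := by
  unfold th
  exact (Real.smoothTransition.contDiff.comp (contDiff_id.add contDiff_const)).sub
    Real.smoothTransition.contDiff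

theorem tr_th_zero {x : ℝ} (h : 1 ≤ |x|) : th x = 0 := by
  unfold th
  rcases le_abs.1 h with h1 | h1
  · rw [Real.smoothTransition.one_of_one_le (by linarith), Real.smoothTransition.one_of_one_le h1,
      sub_self]
  · rw [Real.smoothTransition.zero_of_nonpos (by linarith),
      Real.smoothTransition.zero_of_nonpos (by linarith), sub_self]

theorem tr_contDiff_ch {d : ℕ} : ContDiff ℝ ∞ (ch (d := d)) := by
  unfold ch
  refine contDiff_prod fun i _ => tr_contDiff_th.comp ?_
  exact (EuclideanSpace.proj (𝕜 := ℝ) i).contDiff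

theorem tr_ch_zero {d : ℕ} {z : E d} (h : √d < ‖z‖) : ch z = 0 := by
  have h1 : ∃ i, 1 ≤ |z i| := by
    by_contra hc
    push Not at hc
    have h2 : ‖z‖ ^ 2 ≤ d := by
      rw [EuclideanSpace.norm_sq_eq]
      calc ∑ i, ‖z i‖ ^ 2 ≤ ∑ _i : Fin d, (1 : ℝ) := Finset.sum_le_sum fun i _ => by
            rw [Real.norm_eq_abs]
            exact pow_le_one₀ (abs_nonneg _) (hc i).le
        _ = d := by simp
    have h3 : ‖z‖ ≤ √d := Real.le_sqrt_of_sq_le h2
    linarith
  obtain ⟨i, hi⟩ := h1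
  exact Finset.prod_eq_zero (Finset.mem_univ i) (tr_th_zero hi)

theorem tr_ch_bound (d : ℕ) : ∃ B : ℕ → ℝ, (∀ j, 0 ≤ B j) ∧
    ∀ j z, ‖iteratedFDeriv ℝ j (ch (d := d)) z‖ ≤ B j := by
  have hs : HasCompactSupport (ch (d := d)) := by
    refine HasCompactSupport.intro (isCompact_closedBall (0 : E d) √d) fun y hy => tr_ch_zero ?_
    rwa [Metric.mem_closedBall, dist_zero_right, not_le] at hy
  have h1 : ∀ j : ℕ, ∃ B : ℝ, ∀ z, ‖iteratedFDeriv ℝ j (ch (d := d)) z‖ ≤ B := by
    intro j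
    have h2 : Continuous (iteratedFDeriv ℝ j (ch (d := d))) :=
      tr_contDiff_ch.continuous_iteratedFDeriv (by exact_mod_cast le_top)
    obtain ⟨B, hB⟩ := (hs.iteratedFDeriv j).exists_bound_of_continuous h2
    exact ⟨B, hB⟩
  choose B hB using h1
  exact ⟨fun j => |B j|, fun j => abs_nonneg _, fun j z => (hB j z).trans (le_abs_self _)⟩

/-- The lattice points used. -/
noncomputable def trp {d : ℕ} (M : ℕ) (k : Fin d → ℕ) : E d := WithLp.toLp 2 fun i => (k i : ℝ) - M

theorem tr_sum_ch (d M : ℕ) (z : E d) (hz : ∀ i, |z i| ≤ M) :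
    ∑ k ∈ Fintype.piFinset (fun _ : Fin d => Finset.range (2 * M + 1)), ch (z - trp M k) = 1 := by
  have h1 : ∀ k : Fin d → ℕ, ch (z - trp M k) = ∏ i, th (z i - ((k i : ℝ) - M)) := by
    intro k
    unfold ch trp
    simp
  simp only [h1]
  rw [← Finset.prod_univ_sum (fun _ : Fin d => Finset.range (2 * M + 1))
    (fun i j => th (z i - ((j : ℝ) - M)))]
  refine Finset.prod_eq_one fun i _ => ?_
  have h2 : ∀ j : ℕ, th (z i - ((j : ℝ) - M)) =
      Real.smoothTransition (z i + M + 1 - j) - Real.smoothTransition (z i + M + 1 - (j + 1 : ℕ)) := by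
    intro j
    unfold th
    congr 2
    · ring
    · push_cast
      ring
  simp only [h2]
  rw [Finset.sum_range_sub' (fun j : ℕ => Real.smoothTransition (z i + M + 1 - j))]
  have h3 := abs_le.1 (hz i)
  rw [Real.smoothTransition.one_of_one_le (by push_cast; linarith [h3.1]),
    Real.smoothTransition.zero_of_nonpos (by push_cast; linarith [h3.2]), sub_zero]

theorem tr_coord_le {d : ℕ} (z : E d) (i : Fin d) : |z i| ≤ ‖z‖ := by
  have := EuclideanSpace.norm_sq_eq (𝕜 := ℝ) z
  have h1 : |z i| ^ 2 ≤ ‖z‖ ^ 2 := by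
    rw [this, ← Real.norm_eq_abs]
    exact Finset.single_le_sum (f := fun i => ‖z i‖ ^ 2) (fun i _ => by positivity) (Finset.mem_univ i)
  exact abs_le_of_sq_le_sq' h1 (norm_nonneg _) |> fun h => by
    have h2 := abs_le.2 h
    rwa [abs_abs] at h2

/-- Lattice points in a ball. -/
theorem tr_count (d : ℕ) (t : ℝ) (M : ℕ) (x : E d) (Z : Finset (Fin d → ℕ))
    (hZ : ∀ k ∈ Z, ‖x - trp M k‖ ≤ t) : Z.card ≤ (2 * ⌈2 * t⌉₊ + 1) ^ d := by
  classical
  rcases Z.eq_empty_or_nonempty with h0 | ⟨k0, hk0⟩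
  · rw [h0]
    simp
  have hkey : ∀ k ∈ Z, ∀ i, |(k i : ℝ) - k0 i| ≤ 2 * t := by
    intro k hk i
    have h1 := (tr_coord_le (x - trp M k) i).trans (hZ k hk)
    have h2 := (tr_coord_le (x - trp M k0) i).trans (hZ k0 hk0)
    have h3 : (k i : ℝ) - k0 i = (x - trp M k0) i - (x - trp M k) i := by
      unfold trp
      simp
    rw [h3]
    exact (abs_sub _ _).trans (by linarith)
  have hsub : Z ⊆ Fintype.piFinset fun i => Finset.Icc (k0 i - ⌈2 * t⌉₊) (k0 i + ⌈2 * t⌉₊) := by
    intro k hk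
    rw [Fintype.mem_piFinset]
    intro i
    have h1 := hkey k hk i
    have h2 : 2 * t ≤ (⌈2 * t⌉₊ : ℝ) := Nat.le_ceil _
    have h3 := abs_le.1 (h1.trans h2)
    rw [Finset.mem_Icc]
    constructor
    · have : (k0 i : ℝ) ≤ k i + (⌈2 * t⌉₊ : ℕ) := by linarith [h3.1]
      have h4 : k0 i ≤ k i + ⌈2 * t⌉₊ := by exact_mod_cast this
      omega
    · have : (k i : ℝ) ≤ k0 i + (⌈2 * t⌉₊ : ℕ) := by linarith [h3.2]
      exact_mod_cast this
  refine (Finset.card_le_card hsub).trans ?_
  rw [Fintype.card_piFinset]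
  calc ∏ i, (Finset.Icc (k0 i - ⌈2 * t⌉₊) (k0 i + ⌈2 * t⌉₊)).card
      ≤ ∏ _i : Fin d, (2 * ⌈2 * t⌉₊ + 1) := by
        refine Finset.prod_le_prod' fun i _ => ?_
        rw [Nat.card_Icc]
        omega
    _ = _ := by simp

/-- One generation of the tree. -/
theorem tr_split (d : ℕ) (κ0 κ : ℝ) (hκ0 : 0 < κ0) (hκ : 0 < κ) : ∃ (O : ℝ → ℕ) (C : ℝ),
    1 ≤ C ∧ ∀ B : ℕ → ℝ, ∃ B' : ℕ → ℝ,
    ∀ (K ρ : ℝ) (z : E d) (a : E d → ℂ), 1 ≤ K → 0 < ρ → ContDiff ℝ ∞ a →
      (∀ y, κ0 * ρ < ‖y - z‖ → a y = 0) → (∀ j y, ‖iteratedFDeriv ℝ j a y‖ ≤ B j / ρ ^ j) →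
      ∃ (T : Finset (Fin d → ℕ)) (ζ : (Fin d → ℕ) → E d) (b : (Fin d → ℕ) → E d → ℂ),
        (∀ y, a y = ∑ k ∈ T, b k y) ∧ (∀ k, ContDiff ℝ ∞ (b k)) ∧
        (∀ k y, κ * (ρ / K) < ‖y - ζ k‖ → b k y = 0) ∧
        (∀ k j y, ‖iteratedFDeriv ℝ j (b k) y‖ ≤ B' j / (ρ / K) ^ j) ∧
        (∀ k ∈ T, ‖ζ k - z‖ ≤ κ0 * ρ + κ * (ρ / K)) ∧
        (∀ t y, ∀ Z : Finset (Fin d → ℕ), (∀ k ∈ Z, ‖y - ζ k‖ ≤ t * (ρ / K)) → Z.card ≤ O t) ∧
        (T.card : ℝ) ≤ (C * K) ^ d := by
  obtain ⟨Bc, hBc0, hBc⟩ := tr_ch_bound d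
  set κ' : ℝ := κ / (√d + 1) with hκ'
  have hsd : 0 ≤ √(d:ℝ) := Real.sqrt_nonneg _
  have hκ'0 : 0 < κ' := by positivity
  refine ⟨fun t => (2 * ⌈2 * (t / κ')⌉₊ + 1) ^ d, 2 * (κ0 / κ') + 3, by
    have : 0 < κ0 / κ' := by positivity
    linarith, fun B => ⟨fun j => ∑ i ∈ Finset.range (j + 1), (j.choose i : ℝ) *
      (Bc i * (κ'⁻¹) ^ i) * |B (j - i)|, fun K ρ z a hK hρ ha hsupp hbd => ?_⟩⟩
  have hK0 : 0 < K := by linarith
  set r : ℝ := ρ / K with hr
  have hr0 : 0 < r := by positivity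
  have hrρ : r ≤ ρ := div_le_self hρ.le hK
  set M : ℕ := ⌈K * (κ0 / κ')⌉₊ with hM
  have hMle : K * (κ0 / κ') ≤ M := Nat.le_ceil _
  set s : ℝ := κ' * r with hs
  have hs0 : 0 < s := by positivity
  set ζ : (Fin d → ℕ) → E d := fun k => z + s • trp M k with hζ
  set b : (Fin d → ℕ) → E d → ℂ := fun k y => (ch (s⁻¹ • (y - ζ k)) : ℝ) • a y with hb
  set T0 : Finset (Fin d → ℕ) := Fintype.piFinset (fun _ : Fin d => Finset.range (2 * M + 1)) with hT0
  have hchz : ∀ k y, κ * r < ‖y - ζ k‖ → ch (s⁻¹ • (y - ζ k)) = 0 := by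
    intro k y hy
    refine tr_ch_zero ?_
    rw [norm_smul, norm_inv, Real.norm_of_nonneg hs0.le, inv_mul_eq_div, lt_div_iff₀ hs0]
    refine lt_of_le_of_lt ?_ hy
    rw [hs, hκ']
    have : √(d:ℝ) * (κ / (√d + 1) * r) = κ * r * (√d / (√d + 1)) := by ring
    rw [this]
    have h1 : √(d:ℝ) / (√d + 1) ≤ 1 := by
      rw [div_le_one (by positivity)]
      linarith
    nlinarith [mul_pos hκ hr0]
  classical
  refine ⟨T0.filter (fun k => ‖ζ k - z‖ ≤ κ0 * ρ + κ * r), ζ, b, ?_, ?_, ?_, ?_, ?_, ?_, ?_⟩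
  · -- the sum
    intro y
    by_cases hy : κ0 * ρ < ‖y - z‖
    · rw [hsupp y hy]
      refine (Finset.sum_eq_zero fun k _ => ?_).symm
      rw [hb]
      simp only
      rw [hsupp y hy, smul_zero]
    · rw [Finset.sum_filter_of_ne]
      · have h1 := tr_sum_ch d M (s⁻¹ • (y - z)) (fun i => by
          refine (tr_coord_le _ i).trans ?_
          rw [norm_smul, norm_inv, Real.norm_of_nonneg hs0.le, inv_mul_eq_div, div_le_iff₀ hs0]
          refine (not_lt.1 hy).trans ?_
          calc κ0 * ρ = K * (κ0 / κ') * s := by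
                rw [hs, hr]
                field_simp
            _ ≤ M * s := mul_le_mul_of_nonneg_right hMle hs0.le)
        have h2 : ∀ k, b k y = ((ch (s⁻¹ • (y - z) - trp M k) : ℝ) : ℂ) * a y := by
          intro k
          rw [hb]
          simp only
          rw [Complex.real_smul]
          congr 3
          rw [hζ]
          simp only
          rw [← sub_sub, smul_sub s⁻¹ (y - z), smul_smul, inv_mul_cancel₀ hs0.ne', one_smul]
        simp only [h2]
        rw [← Finset.sum_mul, ← Complex.ofReal_sum, h1, Complex.ofReal_one, one_mul]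
      · intro k _ hne
        by_contra hc
        apply hne
        rw [hb]
        simp only
        rw [hchz k y, zero_smul]
        rw [not_le] at hc
        have h3 : ‖ζ k - z‖ ≤ ‖y - ζ k‖ + ‖y - z‖ := by
          have h4 : ζ k - z = (y - z) - (y - ζ k) := by abel
          rw [h4]
          refine (norm_sub_le _ _).trans (by linarith)
        linarith [not_lt.1 hy]
  · -- smoothness
    intro k
    rw [hb]
    exact (tr_contDiff_ch.comp ((contDiff_id.sub contDiff_const).const_smul _)).smul ha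
  · -- support
    intro k y hy
    rw [hb]
    simp only
    rw [hchz k y hy, zero_smul]
  · -- derivatives
    intro k j y
    have hf : ContDiff ℝ ∞ fun y : E d => ch (s⁻¹ • (y - ζ k)) :=
      tr_contDiff_ch.comp ((contDiff_id.sub contDiff_const).const_smul _)
    have hfb : ∀ i, ‖iteratedFDeriv ℝ i (fun y : E d => ch (s⁻¹ • (y - ζ k))) y‖ ≤
        Bc i * (κ'⁻¹) ^ i / r ^ i := by
      intro i
      have h1 := iter_affine (tr_contDiff_ch (d := d)) (-(s⁻¹ • ζ k)) s⁻¹ i y
      have h2 : (fun v : E d => ch (-(s⁻¹ • ζ k) + s⁻¹ • v)) = fun y => ch (s⁻¹ • (y - ζ k)) := by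
        funext v
        congr 1
        rw [smul_sub]
        abel
      rw [h2] at h1
      refine h1.trans ?_
      rw [abs_of_pos (inv_pos.2 hs0)]
      calc s⁻¹ ^ i * ‖iteratedFDeriv ℝ i ch (-(s⁻¹ • ζ k) + s⁻¹ • y)‖ ≤ s⁻¹ ^ i * Bc i :=
            mul_le_mul_of_nonneg_left (hBc _ _) (by positivity)
        _ = Bc i * (κ'⁻¹) ^ i / r ^ i := by
            rw [hs, mul_inv, mul_pow, inv_pow r]
            field_simp
    have h3 := norm_iteratedFDeriv_smul_le (𝕜 := ℝ) hf ha y (n := j) (by exact_mod_cast le_top)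
    rw [hb]
    simp only
    refine h3.trans ?_
    rw [Finset.sum_div]
    refine Finset.sum_le_sum fun i hi => ?_
    have hij : i ≤ j := by
      have := Finset.mem_range.1 hi
      omega
    have h4 : ‖iteratedFDeriv ℝ (j - i) a y‖ ≤ |B (j - i)| / r ^ (j - i) := by
      refine (hbd _ _).trans ?_
      have h5 : r ^ (j - i) ≤ ρ ^ (j - i) := pow_le_pow_left₀ hr0.le hrρ _
      calc B (j - i) / ρ ^ (j - i) ≤ |B (j - i)| / ρ ^ (j - i) := by
            gcongr
            exact le_abs_self _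
        _ ≤ |B (j - i)| / r ^ (j - i) := by gcongr
    calc (j.choose i : ℝ) * ‖iteratedFDeriv ℝ i (fun y : E d => ch (s⁻¹ • (y - ζ k))) y‖ *
          ‖iteratedFDeriv ℝ (j - i) a y‖
        ≤ (j.choose i : ℝ) * (Bc i * (κ'⁻¹) ^ i / r ^ i) * (|B (j - i)| / r ^ (j - i)) := by
          have := hfb i
          have h6 := hBc0 i
          gcongr
      _ = (j.choose i : ℝ) * (Bc i * (κ'⁻¹) ^ i) * |B (j - i)| / r ^ j := by
          have h7 : r ^ j = r ^ i * r ^ (j - i) := by
            rw [← pow_add]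
            congr 1
            omega
          rw [h7]
          field_simp
  · intro k hk
    exact (Finset.mem_filter.1 hk).2
  · -- overlap
    intro t y Z hZ
    refine tr_count d (t / κ') M (s⁻¹ • (y - z)) Z fun k hk => ?_
    have h1 : s⁻¹ • (y - z) - trp M k = s⁻¹ • (y - ζ k) := by
      rw [hζ]
      simp only
      rw [← sub_sub, smul_sub s⁻¹ (y - z), smul_smul, inv_mul_cancel₀ hs0.ne', one_smul]
    rw [h1, norm_smul, norm_inv, Real.norm_of_nonneg hs0.le, inv_mul_eq_div, div_le_iff₀ hs0]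
    refine (hZ k hk).trans (le_of_eq ?_)
    rw [hs]
    field_simp
  · -- number
    have h1 : (T0.filter (fun k => ‖ζ k - z‖ ≤ κ0 * ρ + κ * r)).card ≤ (2 * M + 1) ^ d := by
      refine (Finset.card_filter_le _ _).trans ?_
      rw [hT0, Fintype.card_piFinset]
      simp
    have h2 : ((2 * M + 1 : ℕ) : ℝ) ≤ (2 * (κ0 / κ') + 3) * K := by
      have h3 : (M : ℝ) < K * (κ0 / κ') + 1 := Nat.ceil_lt_add_one (by positivity)
      push_cast
      nlinarith
    calc ((T0.filter (fun k => ‖ζ k - z‖ ≤ κ0 * ρ + κ * r)).card : ℝ) ≤ (((2 * M + 1) ^ d : ℕ) : ℝ) := by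
          exact_mod_cast h1
      _ = ((2 * M + 1 : ℕ) : ℝ) ^ d := by push_cast; ring
      _ ≤ _ := pow_le_pow_left₀ (by positivity) h2 d

/-- **The tree.** -/
theorem tr_tree (d : ℕ) (κ : ℝ) (hκ : 0 < κ) : ∀ n : ℕ, ∀ κ0 : ℝ, 0 < κ0 → ∃ (O : ℝ → ℕ) (C : ℝ),
    1 ≤ C ∧ ∀ B : ℕ → ℝ, ∃ B' : ℕ → ℝ,
    ∀ (K ρ : ℝ) (z : E d) (a : E d → ℂ) (P : ℕ → E d → Prop), 2 ≤ K → 0 < ρ → ContDiff ℝ ∞ a →
      (∀ y, κ0 * ρ < ‖y - z‖ → a y = 0) → (∀ j y, ‖iteratedFDeriv ℝ j a y‖ ≤ B j / ρ ^ j) →
      (∀ ζ, P (n + 1) ζ) →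
      ∃ (ι : Type) (_ : Fintype ι) (l : ι → ℕ) (ζ : ι → E d) (b : ι → E d → ℂ),
        (Fintype.card ι : ℝ) ≤ (C * K) ^ (d * (n + 1)) ∧ (∀ y, a y = ∑ i, b i y) ∧
        (∀ t y, ∀ Z : Finset ι, (∀ i ∈ Z, ‖y - ζ i‖ ≤ t * (ρ / K ^ l i)) → Z.card ≤ O t) ∧
        ∀ i, 1 ≤ l i ∧ l i ≤ n + 1 ∧ P (l i) (ζ i) ∧ ‖ζ i - z‖ ≤ (κ0 + 4 * κ / K) * ρ ∧
          (2 ≤ l i → ∃ ζ', ‖ζ i - ζ'‖ ≤ 3 * κ * (ρ / K ^ (l i - 1)) ∧ ¬ P (l i - 1) ζ') ∧
          ContDiff ℝ ∞ (b i) ∧ (∀ y, κ * (ρ / K ^ l i) < ‖y - ζ i‖ → b i y = 0) ∧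
          ∀ j y, ‖iteratedFDeriv ℝ j (b i) y‖ ≤ B' j / (ρ / K ^ l i) ^ j := by
  classical
  intro n
  induction n with
  | zero =>
      intro κ0 hκ0
      obtain ⟨O, C, hC, h⟩ := tr_split d κ0 κ hκ0 hκ
      refine ⟨O, C, hC, fun B => ?_⟩
      obtain ⟨B', hB'⟩ := h B
      refine ⟨B', fun K ρ z a P hK hρ ha hsupp hbd hP => ?_⟩
      obtain ⟨T, ζ, b, h1, h2, h3, h4, h5, h6, h7⟩ := hB' K ρ z a (by linarith) hρ ha hsupp hbd
      refine ⟨T, inferInstance, fun _ => 1, fun k => ζ k, fun k => b k, ?_, ?_, ?_, ?_⟩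
      · simpa using h7
      · intro y
        rw [h1 y, ← Finset.sum_coe_sort T (fun k => b k y)]
      · intro t y Z hZ
        have h8 := h6 t y (Z.image (fun k : T => (k : Fin d → ℕ))) (by
          intro k hk
          obtain ⟨k', hk', rfl⟩ := Finset.mem_image.1 hk
          simpa using hZ k' hk')
        rwa [Finset.card_image_of_injective _ Subtype.val_injective] at h8
      · rintro ⟨k, hk⟩
        refine ⟨le_rfl, le_rfl, hP _, ?_, fun h => absurd h (by norm_num), h2 k, ?_, ?_⟩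
        · refine (h5 k hk).trans ?_
          have : 0 ≤ κ * (ρ / K) := by positivity
          calc κ0 * ρ + κ * (ρ / K) ≤ κ0 * ρ + 4 * (κ * (ρ / K)) := by linarith
            _ = _ := by ring
        · simpa using h3 k
        · simpa using h4 k
  | succ n ih =>
      intro κ0 hκ0
      obtain ⟨Os, Cs, hCs, hsp⟩ := tr_split d κ0 κ hκ0 hκ
      obtain ⟨Or, Cr, hCr, hrec⟩ := ih κ hκ
      refine ⟨fun t => max 1 (Or t) * Os (t + 3 * κ), max Cs Cr, hCs.trans (le_max_left _ _),
        fun B => ?_⟩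
      obtain ⟨Bs, hBs⟩ := hsp B
      obtain ⟨Br, hBr⟩ := hrec Bs
      refine ⟨fun j => max (Bs j) (Br j), fun K ρ z a P hK hρ ha hsupp hbd hP => ?_⟩
      have hK0 : 0 < K := by linarith
      obtain ⟨T, ζ, b, h1, h2, h3, h4, h5, h6, h7⟩ := hBs K ρ z a (by linarith) hρ ha hsupp hbd
      have hr : 0 < ρ / K := by positivity
      -- the family below one child
      have hch : ∀ k : T, ∃ (ι : Type) (_ : Fintype ι) (l : ι → ℕ) (ζ' : ι → E d)
          (b' : ι → E d → ℂ),
          (Fintype.card ι : ℝ) ≤ (max Cs Cr * K) ^ (d * (n + 1)) ∧ (∀ y, b k y = ∑ i, b' i y) ∧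
          (∀ t y, ∀ Z : Finset ι, (∀ i ∈ Z, ‖y - ζ' i‖ ≤ t * (ρ / K ^ l i)) → Z.card ≤ max 1 (Or t)) ∧
          ∀ i, 1 ≤ l i ∧ l i ≤ n + 1 + 1 ∧ P (l i) (ζ' i) ∧ ‖ζ' i - ζ k‖ ≤ 3 * κ * (ρ / K) ∧
            (2 ≤ l i → ∃ ζ'', ‖ζ' i - ζ''‖ ≤ 3 * κ * (ρ / K ^ (l i - 1)) ∧ ¬ P (l i - 1) ζ'') ∧
            ContDiff ℝ ∞ (b' i) ∧ (∀ y, κ * (ρ / K ^ l i) < ‖y - ζ' i‖ → b' i y = 0) ∧
            ∀ j y, ‖iteratedFDeriv ℝ j (b' i) y‖ ≤ max (Bs j) (Br j) / (ρ / K ^ l i) ^ j := by
        rintro ⟨k, hk⟩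
        by_cases hPk : P 1 (ζ k)
        · refine ⟨Unit, inferInstance, fun _ => 1, fun _ => ζ k, fun _ => b k, ?_, ?_, ?_, ?_⟩
          · simp only [Fintype.card_unit, Nat.cast_one]
            refine one_le_pow₀ ?_
            have : 1 ≤ max Cs Cr := hCs.trans (le_max_left _ _)
            nlinarith
          · intro y
            simp
          · intro t y Z _
            refine le_trans ?_ (le_max_left _ _)
            exact (Finset.card_le_univ Z).trans (by simp)
          · intro _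
            refine ⟨le_rfl, by show 1 ≤ n + 1 + 1; omega, hPk, ?_, fun h => absurd h (by norm_num),
              h2 k, ?_, ?_⟩
            · simp only [sub_self, norm_zero]
              positivity
            · simpa using h3 k
            · intro j y
              have := h4 k j y
              simp only [pow_one]
              refine this.trans ?_
              gcongr
              exact le_max_left _ _
        · obtain ⟨ι, hι, l, ζ', b', g1, g2, g3, g4⟩ := hBr K (ρ / K) (ζ k) (b k)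
            (fun l ξ => P (l + 1) ξ) hK hr (h2 k) (h3 k) (h4 k) hP
          have hpow : ∀ l : ℕ, ρ / K / K ^ l = ρ / K ^ (l + 1) := by
            intro l
            rw [div_div, ← pow_succ']
          refine ⟨ι, hι, fun i => l i + 1, ζ', b', ?_, g2, ?_, ?_⟩
          · refine g1.trans (pow_le_pow_left₀ (by positivity) ?_ _)
            exact mul_le_mul_of_nonneg_right (le_max_right _ _) hK0.le
          · intro t y Z hZ
            refine (g3 t y Z fun i hi => ?_).trans (le_max_right _ _)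
            rw [hpow]
            exact hZ i hi
          · intro i
            obtain ⟨k1, k2, k3, k4, k5, k6, k7, k8⟩ := g4 i
            refine ⟨by show 1 ≤ l i + 1; omega, by show l i + 1 ≤ n + 1 + 1; omega, k3, ?_, ?_, k6, ?_,
              ?_⟩
            · refine k4.trans ?_
              refine mul_le_mul_of_nonneg_right ?_ hr.le
              have : 4 * κ / K ≤ 2 * κ := by
                rw [div_le_iff₀ hK0]
                nlinarith
              linarith
            · intro _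
              by_cases hl : 2 ≤ l i
              · obtain ⟨ζ'', q1, q2⟩ := k5 hl
                refine ⟨ζ'', ?_, ?_⟩
                · rw [hpow] at q1
                  have e1 : l i - 1 + 1 = l i + 1 - 1 := by omega
                  rwa [e1] at q1
                · have e1 : l i - 1 + 1 = l i + 1 - 1 := by omega
                  rwa [e1] at q2
              · have hl1 : l i = 1 := by omega
                refine ⟨ζ k, ?_, ?_⟩
                · simp only
                  rw [hl1]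
                  simp only [Nat.add_sub_cancel, pow_one]
                  refine k4.trans ?_
                  refine mul_le_mul_of_nonneg_right ?_ hr.le
                  have : 4 * κ / K ≤ 2 * κ := by
                    rw [div_le_iff₀ hK0]
                    nlinarith
                  linarith
                · simp only
                  rw [hl1]
                  simpa using hPk
            · intro y hy
              refine k7 y ?_
              rwa [hpow]
            · intro j y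
              have := k8 j y
              rw [hpow] at this
              refine this.trans ?_
              have : 0 < ρ / K ^ (l i + 1) := by positivity
              gcongr
              exact le_max_right _ _
      choose ι hι l ζ' b' g1 g2 g3 g4 using hch
      refine ⟨Σ k : T, ι k, inferInstance, fun x => l x.1 x.2, fun x => ζ' x.1 x.2,
        fun x => b' x.1 x.2, ?_, ?_, ?_, ?_⟩
      · rw [Fintype.card_sigma]
        push_cast
        calc ∑ k : T, (Fintype.card (ι k) : ℝ) ≤ ∑ _k : T, (max Cs Cr * K) ^ (d * (n + 1)) :=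
              Finset.sum_le_sum fun k _ => g1 k
          _ = (T.card : ℝ) * (max Cs Cr * K) ^ (d * (n + 1)) := by
              rw [Finset.sum_const, Finset.card_univ, Fintype.card_coe, nsmul_eq_mul]
          _ ≤ (max Cs Cr * K) ^ d * (max Cs Cr * K) ^ (d * (n + 1)) := by
              refine mul_le_mul_of_nonneg_right (h7.trans (pow_le_pow_left₀ (by positivity) ?_ _))
                (by positivity)
              exact mul_le_mul_of_nonneg_right (le_max_left _ _) hK0.le
          _ = _ := by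
              rw [← pow_add]
              congr 1
              ring
      · intro y
        rw [h1 y, ← Finset.sum_coe_sort T (fun k => b k y), Fintype.sum_sigma]
        exact Finset.sum_congr rfl fun k _ => g2 k y
      · intro t y Z hZ
        have h8 : (Z.image (fun x : (Σ k : T, ι k) => ((x.1 : T) : Fin d → ℕ))).card ≤
            Os (t + 3 * κ) := by
          refine h6 (t + 3 * κ) y _ fun k hk => ?_
          obtain ⟨x, hx, rfl⟩ := Finset.mem_image.1 hk
          have q1 := hZ x hx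
          obtain ⟨k1, k2, k3, k4, -⟩ := g4 x.1 x.2
          have hx0 : 0 < ρ / K ^ l x.1 x.2 := by positivity
          have ht : 0 ≤ t := by
            by_contra hc
            rw [not_le] at hc
            have := (norm_nonneg _).trans q1
            nlinarith
          have hle : ρ / K ^ l x.1 x.2 ≤ ρ / K := by
            gcongr
            calc K = K ^ 1 := (pow_one K).symm
              _ ≤ K ^ l x.1 x.2 := pow_le_pow_right₀ (by linarith) k1
          have e1 : y - ζ x.1 = (y - ζ' x.1 x.2) + (ζ' x.1 x.2 - ζ x.1) := by abel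
          rw [e1]
          refine (norm_add_le _ _).trans ?_
          have : t * (ρ / K ^ l x.1 x.2) ≤ t * (ρ / K) := mul_le_mul_of_nonneg_left hle ht
          linarith
        refine (Finset.card_le_mul_card_image Z (max 1 (Or t)) fun k hk => ?_).trans
          (Nat.mul_le_mul_left _ h8)
        obtain ⟨x0, hx0, rfl⟩ := Finset.mem_image.1 hk
        set Z' : Finset (ι x0.1) := Finset.univ.filter fun j => (⟨x0.1, j⟩ : Σ k : T, ι k) ∈ Z with hZ'
        have h9 : Z'.card ≤ max 1 (Or t) := g3 x0.1 t y Z' fun j hj =>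
          hZ ⟨x0.1, j⟩ (Finset.mem_filter.1 hj).2
        refine le_trans (Finset.card_le_card ?_)
          ((Finset.card_image_le (s := Z') (f := fun j => (⟨x0.1, j⟩ : Σ k : T, ι k))).trans h9)
        rintro ⟨k1, j1⟩ hx
        obtain ⟨hx1, hx2⟩ := Finset.mem_filter.1 hx
        have hk1 : k1 = x0.1 := Subtype.ext hx2
        subst hk1
        exact Finset.mem_image.2 ⟨j1, Finset.mem_filter.2 ⟨Finset.mem_univ _, hx1⟩, rfl⟩
      · rintro ⟨k, i⟩
        obtain ⟨k1, k2, k3, k4, k5, k6, k7, k8⟩ := g4 k i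
        refine ⟨k1, k2, k3, ?_, k5, k6, k7, k8⟩
        have e1 : ζ' k i - z = (ζ' k i - ζ k) + (ζ k - z) := by abel
        simp only
        rw [e1]
        refine (norm_add_le _ _).trans ?_
        have q1 := h5 k k.2
        calc ‖ζ' k i - ζ k‖ + ‖ζ k - z‖ ≤ 3 * κ * (ρ / K) + (κ0 * ρ + κ * (ρ / K)) :=
              add_le_add k4 q1
          _ = _ := by ring

end Pool.Agent.GNP
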