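import Pool.Agent.GNP.Defs5
import Pool.Agent.GNP.N5TREE
import Pool.Agent.GNP.MULT

/-!
The fixed time theorem for one polynomial phase and one amplitude at the scale `1/P`: the amplitude is cut into
cells of radius `κ / P`.
-/

namespace Pool.Agent.GNP

open MeasureTheory Set Pool.Agent.MP_6cbfb8_an
open scoped ENNReal Real RealInnerProductSpace ContDiff

theorem sc_encard_le {α : Type*} (S : Set α) (n : ℕ)
    (h : ∀ Z : Finset α, (∀ x ∈ Z, x ∈ S) → Z.card ≤ n) : S.encard ≤ n := by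
  by_cases hf : S.Finite
  · rw [hf.encard_eq_coe_toFinset_card]
    exact_mod_cast h hf.toFinset fun x hx => by simpa using hx
  · exfalso
    obtain ⟨T, hT, hTc⟩ := (Set.not_finite.1 hf : S.Infinite).exists_subset_card_eq (n + 1)
    have h1 := h T fun x hx => hT hx
    omega

/-- The multiplicity of a family of balls with one polynomial phase. -/
theorem mult_const (d D : ℕ) : ∃ M : ℕ, ∀ Q : MvPolynomial (Fin d) ℝ, Q.totalDegree ≤ D →
    ∀ (ι : Type) (ρ : ℝ) (z : ι → E d) (O : ℕ),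
      (∀ y, ∀ Z : Finset ι, (∀ i ∈ Z, ‖y - z i‖ < ρ) → Z.card ≤ O) →
      Mult (O * M) ρ z (fun _ => pe Q) := by
  classical
  obtain ⟨M, hM⟩ := mult_poly d D
  refine ⟨M, fun Q hQ ι ρ z O hO F y0 ξ => ?_⟩
  refine sc_encard_le _ _ fun Z hZ => ?_
  have h1 : (Z.image Prod.snd).card ≤ M := by
    have h2 : ((Z.image Prod.snd : Finset (E d)) : Set (E d)) ⊆ {y : E d | y - y0 ∈ F ∧
        (∀ v ∈ F, ⟪gr (pe Q) y - ξ, v⟫ = 0) ∧
        (∀ v ∈ F, (∀ w ∈ F, ⟪Hs (pe Q) y v, w⟫ = 0) → v = 0)} := by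
      intro y hy
      obtain ⟨x, hx, rfl⟩ := Finset.mem_image.1 (Finset.mem_coe.1 hy)
      obtain ⟨-, g1, g2, g3⟩ := hZ x hx
      exact ⟨g1, g2, g3⟩
    have h3 := (Set.encard_le_encard h2).trans (hM Q hQ F y0 ξ)
    rw [Set.encard_coe_eq_coe_finsetCard] at h3
    exact_mod_cast h3
  refine (Finset.card_le_mul_card_image Z O fun y hy => ?_).trans (Nat.mul_le_mul_left _ h1)
  have h4 : ({x ∈ Z | x.2 = y}).card ≤ (({x ∈ Z | x.2 = y}).image Prod.fst).card := by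
    refine le_of_eq (Finset.card_image_of_injOn ?_).symm
    intro a ha b hb hab
    rw [Finset.mem_coe, Finset.mem_filter] at ha hb
    exact Prod.ext hab (ha.2.trans hb.2.symm)
  refine h4.trans (hO y _ fun i hi => ?_)
  obtain ⟨x, hx, rfl⟩ := Finset.mem_image.1 hi
  obtain ⟨hx1, hx2⟩ := Finset.mem_filter.1 hx
  rw [← hx2]
  exact (hZ x hx1).1

/-- An amplitude at the scale `1/P` is cut into cells of radius `κ / P`. -/
theorem cut_scale (d : ℕ) (r κ : ℝ) (hr : 0 < r) (hκ : 0 < κ) (hκ1 : κ ≤ 1) : ∃ (O : ℕ) (C : ℝ),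
    1 ≤ C ∧ ∀ B : ℕ → ℝ, ∃ B' : ℕ → ℝ,
    ∀ (P : ℝ) (a : E d → ℂ), 1 ≤ P → ContDiff ℝ ∞ a →
      (∀ y, r < ‖y‖ → a y = 0) → (∀ j y, ‖iteratedFDeriv ℝ j a y‖ ≤ B j * P ^ j) →
      ∃ (T : Finset (Fin d → ℕ)) (ζ : (Fin d → ℕ) → E d) (b : (Fin d → ℕ) → E d → ℂ),
        (∀ y, a y = ∑ k ∈ T, b k y) ∧ (∀ k, ContDiff ℝ ∞ (b k)) ∧
        (∀ k y, 1 / 2 * (κ / P) < ‖y - ζ k‖ → b k y = 0) ∧
        (∀ k j y, ‖iteratedFDeriv ℝ j (b k) y‖ ≤ B' j / (κ / P) ^ j) ∧
        (∀ k ∈ T, ∃ y, a y ≠ 0 ∧ ‖y - ζ k‖ ≤ 1 / 2 * (κ / P)) ∧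
        (∀ y, ∀ Z : Finset (Fin d → ℕ), (∀ k ∈ Z, ‖y - ζ k‖ ≤ κ / P) → Z.card ≤ O) ∧
        (T.card : ℝ) ≤ (C * P) ^ d := by
  obtain ⟨Bc, hBc0, hBc⟩ := tr_ch_bound d
  have hsd : 0 ≤ √(d:ℝ) := Real.sqrt_nonneg _
  set κ' : ℝ := (1 / 2) / (√d + 1) with hκ'
  have hκ'0 : 0 < κ' := by positivity
  refine ⟨(2 * ⌈2 * (1 / κ')⌉₊ + 1) ^ d, 2 * (r / (κ' * κ)) + 3, by
    have : 0 < r / (κ' * κ) := by positivity
    linarith, fun B => ⟨fun j => ∑ i ∈ Finset.range (j + 1), (j.choose i : ℝ) *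
      (Bc i * (κ'⁻¹) ^ i) * |B (j - i)|, fun P a hP ha hsupp hbd => ?_⟩⟩
  have hP0 : 0 < P := by linarith
  set t : ℝ := κ / P with ht
  have ht0 : 0 < t := by positivity
  set M : ℕ := ⌈P * (r / (κ' * κ))⌉₊ with hM
  have hMle : P * (r / (κ' * κ)) ≤ M := Nat.le_ceil _
  set s : ℝ := κ' * t with hs
  have hs0 : 0 < s := by positivity
  set ζ : (Fin d → ℕ) → E d := fun k => s • trp M k with hζ
  set b : (Fin d → ℕ) → E d → ℂ := fun k y => (ch (s⁻¹ • (y - ζ k)) : ℝ) • a y with hb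
  set T0 : Finset (Fin d → ℕ) := Fintype.piFinset (fun _ : Fin d => Finset.range (2 * M + 1)) with hT0
  have hchz : ∀ k y, 1 / 2 * t < ‖y - ζ k‖ → ch (s⁻¹ • (y - ζ k)) = 0 := by
    intro k y hy
    refine tr_ch_zero ?_
    rw [norm_smul, norm_inv, Real.norm_of_nonneg hs0.le, inv_mul_eq_div, lt_div_iff₀ hs0]
    refine lt_of_le_of_lt ?_ hy
    rw [hs, hκ']
    have : √(d:ℝ) * ((1 / 2) / (√d + 1) * t) = 1 / 2 * t * (√d / (√d + 1)) := by ring
    rw [this]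
    have h1 : √(d:ℝ) / (√d + 1) ≤ 1 := by
      rw [div_le_one (by positivity)]
      linarith
    nlinarith
  classical
  refine ⟨T0.filter (fun k => ∃ y, a y ≠ 0 ∧ ‖y - ζ k‖ ≤ 1 / 2 * t), ζ, b, ?_, ?_, ?_, ?_, ?_, ?_, ?_⟩
  · -- the sum
    intro y
    by_cases hy : a y = 0
    · rw [hy]
      refine (Finset.sum_eq_zero fun k _ => ?_).symm
      rw [hb]
      simp only
      rw [hy, smul_zero]
    · rw [Finset.sum_filter_of_ne]
      · have hyr : ‖y‖ ≤ r := by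
          by_contra hc
          exact hy (hsupp y (not_le.1 hc))
        have h1 := tr_sum_ch d M (s⁻¹ • y) (fun i => by
          refine (tr_coord_le _ i).trans ?_
          rw [norm_smul, norm_inv, Real.norm_of_nonneg hs0.le, inv_mul_eq_div, div_le_iff₀ hs0]
          refine hyr.trans ?_
          calc r = P * (r / (κ' * κ)) * s := by
                rw [hs, ht]
                field_simp
            _ ≤ M * s := mul_le_mul_of_nonneg_right hMle hs0.le)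
        have h2 : ∀ k, b k y = ((ch (s⁻¹ • y - trp M k) : ℝ) : ℂ) * a y := by
          intro k
          rw [hb]
          simp only
          rw [Complex.real_smul]
          congr 3
          rw [hζ]
          simp only
          rw [smul_sub s⁻¹ y, smul_smul, inv_mul_cancel₀ hs0.ne', one_smul]
        simp only [h2]
        rw [← Finset.sum_mul, ← Complex.ofReal_sum, h1, Complex.ofReal_one, one_mul]
      · intro k _ hne
        refine ⟨y, hy, ?_⟩
        by_contra hc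
        apply hne
        rw [hb]
        simp only
        rw [hchz k y (not_le.1 hc), zero_smul]
  · -- smoothness
    intro k
    rw [hb]
    exact (tr_contDiff_ch.comp ((contDiff_id.sub contDiff_const).const_smul _)).smul ha
  · -- support
    intro k y hy
    rw [hb]
    simp only
    rw [hchz k y hy, zero_smul]
  · -- derivatives
    intro k j y
    have hf : ContDiff ℝ ∞ fun y : E d => ch (s⁻¹ • (y - ζ k)) :=
      tr_contDiff_ch.comp ((contDiff_id.sub contDiff_const).const_smul _)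
    have hfb : ∀ i, ‖iteratedFDeriv ℝ i (fun y : E d => ch (s⁻¹ • (y - ζ k))) y‖ ≤
        Bc i * (κ'⁻¹) ^ i / t ^ i := by
      intro i
      have h1 := iter_affine (tr_contDiff_ch (d := d)) (-(s⁻¹ • ζ k)) s⁻¹ i y
      have h2 : (fun v : E d => ch (-(s⁻¹ • ζ k) + s⁻¹ • v)) = fun y => ch (s⁻¹ • (y - ζ k)) := by
        funext v
        congr 1
        rw [smul_sub]
        abel
      rw [h2] at h1
      refine h1.trans ?_
      rw [abs_of_pos (inv_pos.2 hs0)]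
      calc s⁻¹ ^ i * ‖iteratedFDeriv ℝ i ch (-(s⁻¹ • ζ k) + s⁻¹ • y)‖ ≤ s⁻¹ ^ i * Bc i :=
            mul_le_mul_of_nonneg_left (hBc _ _) (by positivity)
        _ = Bc i * (κ'⁻¹) ^ i / t ^ i := by
            rw [hs, mul_inv, mul_pow, inv_pow t]
            field_simp
    have h3 := norm_iteratedFDeriv_smul_le (𝕜 := ℝ) hf ha y (n := j) (by exact_mod_cast le_top)
    rw [hb]
    simp only
    refine h3.trans ?_
    rw [Finset.sum_div]
    refine Finset.sum_le_sum fun i hi => ?_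
    have hij : i ≤ j := by
      have := Finset.mem_range.1 hi
      omega
    have h4 : ‖iteratedFDeriv ℝ (j - i) a y‖ ≤ |B (j - i)| / t ^ (j - i) := by
      refine (hbd _ _).trans ?_
      have h5 : P ≤ 1 / t := by
        rw [ht, one_div_div]
        exact le_div_self hP0.le hκ hκ1
      calc B (j - i) * P ^ (j - i) ≤ |B (j - i)| * (1 / t) ^ (j - i) := by
            gcongr
            exact le_abs_self _
        _ = |B (j - i)| / t ^ (j - i) := by rw [one_div, inv_pow]; rfl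
    calc (j.choose i : ℝ) * ‖iteratedFDeriv ℝ i (fun y : E d => ch (s⁻¹ • (y - ζ k))) y‖ *
          ‖iteratedFDeriv ℝ (j - i) a y‖
        ≤ (j.choose i : ℝ) * (Bc i * (κ'⁻¹) ^ i / t ^ i) * (|B (j - i)| / t ^ (j - i)) := by
          have := hfb i
          have h6 := hBc0 i
          gcongr
      _ = (j.choose i : ℝ) * (Bc i * (κ'⁻¹) ^ i) * |B (j - i)| / t ^ j := by
          have h7 : t ^ j = t ^ i * t ^ (j - i) := by
            rw [← pow_add]
            congr 1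
            omega
          rw [h7]
          field_simp
  · intro k hk
    exact (Finset.mem_filter.1 hk).2
  · -- overlap
    intro y Z hZ
    refine tr_count d (1 / κ') M (s⁻¹ • y) Z fun k hk => ?_
    have h1 : s⁻¹ • y - trp M k = s⁻¹ • (y - ζ k) := by
      rw [hζ]
      simp only
      rw [smul_sub s⁻¹ y, smul_smul, inv_mul_cancel₀ hs0.ne', one_smul]
    rw [h1, norm_smul, norm_inv, Real.norm_of_nonneg hs0.le, inv_mul_eq_div, div_le_iff₀ hs0]
    refine (hZ k hk).trans (le_of_eq ?_)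
    rw [hs]
    field_simp
  · -- number
    have h1 : (T0.filter (fun k => ∃ y, a y ≠ 0 ∧ ‖y - ζ k‖ ≤ 1 / 2 * t)).card ≤ (2 * M + 1) ^ d := by
      refine (Finset.card_filter_le _ _).trans ?_
      rw [hT0, Fintype.card_piFinset]
      simp
    have h2 : ((2 * M + 1 : ℕ) : ℝ) ≤ (2 * (r / (κ' * κ)) + 3) * P := by
      have h3 : (M : ℝ) < P * (r / (κ' * κ)) + 1 := Nat.ceil_lt_add_one (by positivity)
      push_cast
      nlinarith
    calc ((T0.filter (fun k => ∃ y, a y ≠ 0 ∧ ‖y - ζ k‖ ≤ 1 / 2 * t)).card : ℝ) ≤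
          (((2 * M + 1) ^ d : ℕ) : ℝ) := by
          exact_mod_cast h1
      _ = ((2 * M + 1 : ℕ) : ℝ) ^ d := by push_cast; ring
      _ ≤ _ := pow_le_pow_left₀ (by positivity) h2 d

theorem sc_integrable {d : ℕ} {a : E d → ℂ} {q : E d → ℝ} (ha : Continuous a) {r : ℝ}
    (has : ∀ y, r < ‖y‖ → a y = 0) (hq : Continuous q) (x : E d) :
    Integrable fun y => a y * Complex.exp (((q y - ⟪x, y⟫ : ℝ) : ℂ) * Complex.I) := by
  have hs : HasCompactSupport fun y => a y * Complex.exp (((q y - ⟪x, y⟫ : ℝ) : ℂ) * Complex.I) := by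
    refine HasCompactSupport.intro (isCompact_closedBall (0 : E d) r) fun y hy => ?_
    rw [Metric.mem_closedBall, dist_zero_right, not_le] at hy
    rw [has y hy, zero_mul]
  refine Continuous.integrable_of_hasCompactSupport ?_ hs
  refine ha.mul (Complex.continuous_exp.comp ((Complex.continuous_ofReal.comp ?_).mul continuous_const))
  exact hq.sub (continuous_const.inner continuous_id)

theorem sc_uu_sum {d : ℕ} {κ : Type*} (T : Finset κ) (b : κ → E d → ℂ) (a : E d → ℂ) (q : E d → ℝ)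
    (r : ℝ) (hb : ∀ k ∈ T, Continuous (b k)) (hbs : ∀ k ∈ T, ∀ y, r < ‖y‖ → b k y = 0)
    (hq : Continuous q) (hab : ∀ y, a y = ∑ k ∈ T, b k y) (x : E d) :
    uu a q x = ∑ k ∈ T, uu (b k) q x := by
  unfold uu
  rw [← integral_finsetSum T fun k hk => sc_integrable (hb k hk) (hbs k hk) hq x]
  refine integral_congr_ae (Filter.Eventually.of_forall fun y => ?_)
  simp only
  rw [hab y, Finset.sum_mul]

theorem sc_overlap {d : ℕ} {κ : Type*} (T : Finset κ) (ζ : κ → E d) (ρ : ℝ) (O : ℕ) (S : Set (E d))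
    (hS : MeasurableSet S) (hO : ∀ y, ∀ Z : Finset κ, (∀ k ∈ Z, ‖y - ζ k‖ ≤ ρ) → Z.card ≤ O)
    (hsub : ∀ k ∈ T, Metric.ball (ζ k) ρ ⊆ S) (f : E d → ℝ≥0∞) (hf : Measurable f) :
    ∑ k ∈ T, ∫⁻ y in Metric.ball (ζ k) ρ, f y ≤ O * ∫⁻ y in S, f y := by
  classical
  calc ∑ k ∈ T, ∫⁻ y in Metric.ball (ζ k) ρ, f y
      = ∑ k ∈ T, ∫⁻ y, (Metric.ball (ζ k) ρ).indicator f y := by
        refine Finset.sum_congr rfl fun k _ => ?_
        rw [lintegral_indicator Metric.isOpen_ball.measurableSet]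
    _ = ∫⁻ y, ∑ k ∈ T, (Metric.ball (ζ k) ρ).indicator f y := by
        rw [lintegral_finsetSum]
        intro k _
        exact hf.indicator Metric.isOpen_ball.measurableSet
    _ ≤ ∫⁻ y, (O : ℝ≥0∞) * S.indicator f y := by
        refine lintegral_mono fun y => ?_
        by_cases hy : y ∈ S
        · rw [indicator_of_mem hy]
          calc ∑ k ∈ T, (Metric.ball (ζ k) ρ).indicator f y
              = ∑ k ∈ T.filter (fun k => y ∈ Metric.ball (ζ k) ρ), f y := by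
                rw [Finset.sum_filter]
                refine Finset.sum_congr rfl fun k _ => ?_
                by_cases hk : y ∈ Metric.ball (ζ k) ρ
                · rw [indicator_of_mem hk, if_pos hk]
                · rw [indicator_of_notMem hk, if_neg hk]
            _ = ((T.filter (fun k => y ∈ Metric.ball (ζ k) ρ)).card : ℝ≥0∞) * f y := by
                rw [Finset.sum_const, nsmul_eq_mul]
            _ ≤ O * f y := by
                gcongr
                refine hO y _ fun k hk => ?_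
                have := (Finset.mem_filter.1 hk).2
                rw [Metric.mem_ball, dist_eq_norm] at this
                exact this.le
        · rw [indicator_of_notMem hy, mul_zero]
          refine le_of_eq (Finset.sum_eq_zero fun k hk => ?_)
          exact indicator_of_notMem (fun h => hy (hsub k hk h)) _
    _ = O * ∫⁻ y in S, f y := by
        rw [lintegral_const_mul' _ _ (ENNReal.natCast_ne_top O), lintegral_indicator hS]

theorem sc_gr_congr {d : ℕ} {q q' : E d → ℝ} {B : Set (E d)} (hB : IsOpen B)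
    (h : ∀ y ∈ B, q y = q' y) {y : E d} (hy : y ∈ B) : gr q y = gr q' y := by
  unfold gr
  rw [(Filter.eventuallyEq_of_mem (hB.mem_nhds hy) h : q =ᶠ[nhds y] q').fderiv_eq]

theorem sc_Hs_congr {d : ℕ} {q q' : E d → ℝ} {B : Set (E d)} (hB : IsOpen B)
    (h : ∀ y ∈ B, q y = q' y) {y : E d} (hy : y ∈ B) : Hs q y = Hs q' y := by
  unfold Hs
  rw [(Filter.eventuallyEq_of_mem (hB.mem_nhds hy) (fun z hz => sc_gr_congr hB h hz) :
    gr q =ᶠ[nhds y] gr q').fderiv_eq]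

theorem mult_congr {m : ℕ} {ι : Type} {M : ℕ} {ρ : ℝ} {z : ι → E m} {q q' : ι → E m → ℝ}
    (hM : Mult M ρ z q') (h : ∀ i y, ‖y - z i‖ < ρ → q i y = q' i y) : Mult M ρ z q := by
  intro F y0 ξ
  refine le_trans (Set.encard_le_encard ?_) (hM F y0 ξ)
  rintro ⟨i, y⟩ ⟨h1, h2, h3, h4⟩
  have hy : y ∈ Metric.ball (z i) ρ := by
    rw [Metric.mem_ball, dist_eq_norm]
    exact h1
  have hq : ∀ y ∈ Metric.ball (z i) ρ, q i y = q' i y := fun y hy => h i y (by
    rwa [Metric.mem_ball, dist_eq_norm] at hy)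
  have e1 := sc_gr_congr Metric.isOpen_ball hq hy
  have e2 := sc_Hs_congr Metric.isOpen_ball hq hy
  refine ⟨h1, h2, fun f hf => ?_, fun f hf hg => h4 f hf fun g hg' => ?_⟩
  · have := h3 f hf
    simp only at this ⊢
    rwa [e1] at this
  · have := hg g hg'
    simp only at this ⊢
    rwa [e2]

/-- **The fixed time theorem for one phase and an amplitude at the scale `1/P`.** The phase is a polynomial
on `S`. -/
theorem ft_scaleQ (d D : ℕ) (p : ℝ) (hp : 2 < p) (C1 : ℕ) (h : FTst d p C1) (A : ℕ → ℝ)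
    (hA : ∀ j, 0 ≤ A j) (r κ : ℝ) (hr : 0 < r) (hκ : 0 < κ) (hκ1 : κ ≤ 1) : ∃ A' : ℕ → ℕ → ℝ,
    ∀ n0 : ℕ, ∃ J0 : ℕ, ∀ J, J0 ≤ J → ∀ (B : ℕ → ℝ) (N : ℕ), ∃ K0 : ℝ, 1 ≤ K0 ∧ ∀ K, K0 ≤ K →
    ∀ (q : E d → ℝ) (Q : MvPolynomial (Fin d) ℝ) (a : E d → ℂ) (P T : ℝ) (S : Set (E d))
      (G : E d → ℝ≥0∞), ContDiff ℝ ∞ q → (∀ y ∈ S, q y = pe Q y) →
      Q.totalDegree ≤ D → 1 ≤ P → P ≤ K ^ n0 → 0 ≤ T → T ≤ K ^ n0 → ContDiff ℝ ∞ a →
      (∀ y, r < ‖y‖ → a y = 0) → (∀ j y, ‖iteratedFDeriv ℝ j a y‖ ≤ B j * P ^ j) →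
      MeasurableSet S → (∀ y, a y ≠ 0 → Metric.closedBall y (3 / 2 * (κ / P)) ⊆ S) →
      (∀ y ∈ S, ∀ j, 2 ≤ j → ‖iteratedFDeriv ℝ j q y‖ ≤ A j * T) → Measurable G →
      (∀ y ∈ S, ∀ w, 0 ≤ w → Wt A' K J d (κ / P) q y w → ENNReal.ofReal w ≤ G y) →
      ∫⁻ x, ‖uu a q x‖ₑ ^ p ≤
        ENNReal.ofReal (K0 * K ^ C1) * (∫⁻ y in S, G y ^ (p - 2)) + ENNReal.ofReal ((K ^ N)⁻¹) := by
  obtain ⟨O, C, hC1, hcut⟩ := cut_scale d r κ hr hκ hκ1
  obtain ⟨M, hM⟩ := mult_const d D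
  obtain ⟨A', hA'⟩ := h A
  refine ⟨A', fun n0 => ?_⟩
  set n1 : ℕ := n0 + 1 + ⌈r⌉₊ with hn1
  obtain ⟨J0, hJ0⟩ := hA' n1
  refine ⟨J0, fun J hJ B N => ?_⟩
  obtain ⟨B', hB'⟩ := hcut B
  set N1 : ℕ := N + ⌈((n0 + 1) * d : ℕ) * p⌉₊ with hN1
  obtain ⟨K0, hK01, hK0⟩ := hJ0 J hJ B' N1
  set m : ℕ := O * M with hm
  refine ⟨max (max K0 (max C κ⁻¹)) (K0 * (m + 1) ^ C1 * (O + 1)), ?_, fun K hK q Q a P T S G hq hqQ hQ hP hPK hT
    hTK ha hsupp hbd hS hSsub hder hG hw => ?_⟩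
  · exact hK01.trans ((le_max_left _ _).trans (le_max_left _ _))
  set K2 : ℝ := max (max K0 (max C κ⁻¹)) (K0 * (m + 1) ^ C1 * (O + 1)) with hK2
  have hKK0 : K0 ≤ K := ((le_max_left _ _).trans (le_max_left _ _)).trans hK
  have hKC : C ≤ K := (((le_max_left _ _).trans (le_max_right _ _)).trans (le_max_left _ _)).trans hK
  have hKκ : κ⁻¹ ≤ K := (((le_max_right _ _).trans (le_max_right _ _)).trans (le_max_left _ _)).trans hK
  have hK1 : 1 ≤ K := hK01.trans hKK0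
  have hKpos : 0 < K := by linarith
  have hP0 : 0 < P := by linarith
  obtain ⟨Tf, ζ, b, g1, g2, g3, g4, g5, g6, g7⟩ := hB' P a hP ha hsupp hbd
  set ρ : ℝ := κ / P with hρ
  have hρ0 : 0 < ρ := by positivity
  have hρ1 : ρ ≤ 1 := by
    rw [hρ, div_le_one hP0]
    linarith
  have hsubS : ∀ k ∈ Tf, Metric.closedBall (ζ k) ρ ⊆ S := by
    intro k hk y hy
    obtain ⟨y0, hy0, hy1⟩ := g5 k hk
    refine hSsub y0 hy0 ?_
    rw [Metric.mem_closedBall, dist_eq_norm] at hy ⊢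
    have e1 : y - y0 = (y - ζ k) - (y0 - ζ k) := by abel
    rw [e1]
    refine (norm_sub_le _ _).trans ?_
    linarith
  have hFT := hK0 K hKK0 Tf (fun k => ζ k) (fun _ => q) (fun k => b k) ρ T m (fun _ => G)
    (by
      rw [hρ, hn1, le_div_iff₀ hP0, inv_mul_le_iff₀ (by positivity)]
      calc P ≤ K ^ n0 := hPK
        _ = K ^ n0 * (κ⁻¹ * κ) := by rw [inv_mul_cancel₀ hκ.ne', mul_one]
        _ ≤ K ^ n0 * (K * κ) := by gcongr
        _ = K ^ (n0 + 1) * κ := by ring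
        _ ≤ K ^ (n0 + 1 + ⌈r⌉₊) * κ :=
            mul_le_mul_of_nonneg_right (pow_le_pow_right₀ hK1 (by omega)) hκ.le)
    hρ1 hT (hTK.trans (pow_le_pow_right₀ hK1 (by omega)))
    (by
      rintro ⟨k, hk⟩
      obtain ⟨y0, hy0, hy1⟩ := g5 k hk
      have h1 : ‖y0‖ ≤ r := by
        by_contra hc
        exact hy0 (hsupp y0 (not_le.1 hc))
      have h2 : ‖ζ k‖ ≤ ‖y0‖ + ‖y0 - ζ k‖ := by
        have e1 : ζ k = y0 - (y0 - ζ k) := by abel
        calc ‖ζ k‖ = ‖y0 - (y0 - ζ k)‖ := by rw [← e1]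
          _ ≤ _ := norm_sub_le _ _
      have h3 : r ≤ (⌈r⌉₊ : ℝ) := Nat.le_ceil _
      have h4 : (n1 : ℝ) = n0 + 1 + ⌈r⌉₊ := by
        rw [hn1]
        push_cast
        ring
      rw [h4]
      have h5 : (0:ℝ) ≤ n0 := Nat.cast_nonneg _
      simp only
      linarith)
    (by
      rintro ⟨k, hk⟩
      refine ⟨hq, g2 k, fun y hy => g3 k y hy, fun j y => g4 k j y, ?_⟩
      intro j hj y hy
      have h1 := hder y (hsubS k hk (by rwa [Metric.mem_closedBall, dist_eq_norm])) j hj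
      refine h1.trans ?_
      have h2 : (1:ℝ) ≤ ρ ^ 2 / ρ ^ j := by
        rw [one_le_div (by positivity)]
        exact pow_le_pow_of_le_one hρ0.le hρ1 hj
      calc A j * T = A j * T * 1 := (mul_one _).symm
        _ ≤ A j * T * (ρ ^ 2 / ρ ^ j) := mul_le_mul_of_nonneg_left h2 (mul_nonneg (hA j) hT)
        _ = A j * (T * ρ ^ 2) / ρ ^ j := by ring)
    (mult_congr (hM Q hQ Tf ρ (fun k => ζ k) O fun y Z hZ => by
      have h1 := g6 y (Z.image (fun k : Tf => (k : Fin d → ℕ))) (by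
        intro k hk
        obtain ⟨k', hk', rfl⟩ := Finset.mem_image.1 hk
        exact (hZ k' hk').le)
      rwa [Finset.card_image_of_injective _ Subtype.val_injective] at h1) (by
      rintro ⟨k, hk⟩ y hy
      exact hqQ y (hsubS k hk (by rw [Metric.mem_closedBall, dist_eq_norm]; exact hy.le))))
    (fun _ => hG)
    (by
      rintro ⟨k, hk⟩ y w hy hw0 hwt
      exact hw y (hsubS k hk (by rw [Metric.mem_closedBall, dist_eq_norm]; exact hy.le)) w hw0 hwt)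
  unfold Bnd at hFT
  have huu : ∀ x, uu a q x = ∑ k : Tf, uu (b k) q x := by
    intro x
    rw [sc_uu_sum Tf b a q (r + 2) (fun k _ => (g2 k).continuous) ?_ hq.continuous
      g1 x, ← Finset.sum_coe_sort Tf (fun k => uu (b k) q x)]
    intro k hk y hy
    refine g3 k y ?_
    obtain ⟨y0, hy0, hy1⟩ := g5 k hk
    have h1 : ‖y0‖ ≤ r := by
      by_contra hc
      exact hy0 (hsupp y0 (not_le.1 hc))
    have h2 : ‖y‖ ≤ ‖y - ζ k‖ + ‖y0 - ζ k‖ + ‖y0‖ := by
      have e1 : y = (y - ζ k) - (y0 - ζ k) + y0 := by abel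
      calc ‖y‖ = ‖(y - ζ k) - (y0 - ζ k) + y0‖ := by rw [← e1]
        _ ≤ ‖(y - ζ k) - (y0 - ζ k)‖ + ‖y0‖ := norm_add_le _ _
        _ ≤ _ := by gcongr; exact norm_sub_le _ _
    linarith
  calc ∫⁻ x, ‖uu a q x‖ₑ ^ p = ∫⁻ x, ‖∑ k : Tf, uu (b k) q x‖ₑ ^ p := by
        refine lintegral_congr fun x => ?_
        rw [huu x]
    _ ≤ _ := hFT
    _ ≤ ENNReal.ofReal (K0 * (K * m) ^ C1) * (O * ∫⁻ y in S, G y ^ (p - 2)) +
        ENNReal.ofReal ((K ^ N)⁻¹) := by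
        refine add_le_add (mul_le_mul_right ?_ _) (ENNReal.ofReal_le_ofReal ?_)
        · have h1 := sc_overlap Tf ζ ρ O S hS g6 (fun k hk =>
            Metric.ball_subset_closedBall.trans (hsubS k hk)) (fun y => G y ^ (p - 2))
            (hG.pow_const _)
          rwa [← Finset.sum_coe_sort Tf (fun k => ∫⁻ y in Metric.ball (ζ k) ρ, G y ^ (p - 2))] at h1
        · rw [Fintype.card_coe]
          have h1 : (Tf.card : ℝ) ≤ K ^ ((n0 + 1) * d) := by
            refine g7.trans ?_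
            rw [pow_mul]
            refine pow_le_pow_left₀ (by positivity) ?_ _
            calc C * P ≤ K * K ^ n0 := by gcongr
              _ = K ^ (n0 + 1) := by ring
          have h2 : (Tf.card : ℝ) ^ p ≤ K ^ ⌈((n0 + 1) * d : ℕ) * p⌉₊ := by
            calc (Tf.card : ℝ) ^ p ≤ (K ^ ((n0 + 1) * d)) ^ p :=
                  Real.rpow_le_rpow (Nat.cast_nonneg _) h1 (by linarith)
              _ = K ^ ((((n0 + 1) * d : ℕ) : ℝ) * p) := by
                  rw [← Real.rpow_natCast, ← Real.rpow_mul hKpos.le]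
              _ ≤ K ^ ((⌈((n0 + 1) * d : ℕ) * p⌉₊ : ℕ) : ℝ) :=
                  Real.rpow_le_rpow_of_exponent_le hK1 (Nat.le_ceil _)
              _ = _ := Real.rpow_natCast _ _
          rw [hN1, pow_add]
          calc (K ^ N * K ^ ⌈((n0 + 1) * d : ℕ) * p⌉₊)⁻¹ * (Tf.card : ℝ) ^ p
              ≤ (K ^ N * K ^ ⌈((n0 + 1) * d : ℕ) * p⌉₊)⁻¹ * K ^ ⌈((n0 + 1) * d : ℕ) * p⌉₊ := by gcongr
            _ = (K ^ N)⁻¹ := by
                rw [mul_inv, mul_assoc, inv_mul_cancel₀ (by positivity), mul_one]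
    _ ≤ _ := by
        refine add_le_add ?_ le_rfl
        rw [← mul_assoc, ← ENNReal.ofReal_natCast, ← ENNReal.ofReal_mul (by positivity)]
        refine mul_le_mul_left (ENNReal.ofReal_le_ofReal ?_) _
        calc K0 * (K * m) ^ C1 * O = K0 * (m:ℝ) ^ C1 * O * K ^ C1 := by rw [mul_pow]; ring
          _ ≤ K0 * ((m:ℝ) + 1) ^ C1 * (O + 1) * K ^ C1 := by
              gcongr <;> linarith
          _ ≤ K2 * K ^ C1 := by
              gcongr
              exact le_max_right _ _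

/-- The same for a polynomial phase. -/
theorem ft_scale (d D : ℕ) (p : ℝ) (hp : 2 < p) (C1 : ℕ) (h : FTst d p C1) (A : ℕ → ℝ)
    (hA : ∀ j, 0 ≤ A j) (r κ : ℝ) (hr : 0 < r) (hκ : 0 < κ) (hκ1 : κ ≤ 1) : ∃ A' : ℕ → ℕ → ℝ,
    ∀ n0 : ℕ, ∃ J0 : ℕ, ∀ J, J0 ≤ J → ∀ (B : ℕ → ℝ) (N : ℕ), ∃ K0 : ℝ, 1 ≤ K0 ∧ ∀ K, K0 ≤ K →
    ∀ (Q : MvPolynomial (Fin d) ℝ) (a : E d → ℂ) (P T : ℝ) (S : Set (E d)) (G : E d → ℝ≥0∞),
      Q.totalDegree ≤ D → 1 ≤ P → P ≤ K ^ n0 → 0 ≤ T → T ≤ K ^ n0 → ContDiff ℝ ∞ a →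
      (∀ y, r < ‖y‖ → a y = 0) → (∀ j y, ‖iteratedFDeriv ℝ j a y‖ ≤ B j * P ^ j) →
      MeasurableSet S → (∀ y, a y ≠ 0 → Metric.closedBall y (3 / 2 * (κ / P)) ⊆ S) →
      (∀ y ∈ S, ∀ j, 2 ≤ j → ‖iteratedFDeriv ℝ j (pe Q) y‖ ≤ A j * T) → Measurable G →
      (∀ y ∈ S, ∀ w, 0 ≤ w → Wt A' K J d (κ / P) (pe Q) y w → ENNReal.ofReal w ≤ G y) →
      ∫⁻ x, ‖uu a (pe Q) x‖ₑ ^ p ≤
        ENNReal.ofReal (K0 * K ^ C1) * (∫⁻ y in S, G y ^ (p - 2)) + ENNReal.ofReal ((K ^ N)⁻¹) := by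
  obtain ⟨A', H⟩ := ft_scaleQ d D p hp C1 h A hA r κ hr hκ hκ1
  refine ⟨A', fun n0 => ?_⟩
  obtain ⟨J0, H⟩ := H n0
  refine ⟨J0, fun J hJ B N => ?_⟩
  obtain ⟨K0, h1, H⟩ := H J hJ B N
  exact ⟨K0, h1, fun K hK Q a P T S G hQ => H K hK (pe Q) Q a P T S G (contDiff_pe Q) (fun _ _ => rfl) hQ⟩

end Pool.Agent.GNP
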