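import Pool.Agent.GNP.SUMN
import Pool.Agent.GNP.GEO6
import Pool.Agent.GNP.N5SC
import Pool.Agent.GNP.MUM
import Pool.Agent.GNP.FAMG
import Pool.Agent.GNP.GAP

/-!
Every phase, all dimensions: one amplitude at an arbitrary scale `1/R`, supported well inside a set
`S`, for a phase which is a polynomial near `S`. The bound depends on the volume of `S`.
-/

namespace Pool.Agent.GNP

open MeasureTheory Set Pool.Agent.MP_6cbfb8_an
open scoped ENNReal Real RealInnerProductSpace ContDiff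

theorem cb_poly {d : ℕ} (P P' : MvPolynomial (Fin d) ℝ) (c s : ℝ) (y : E d) :
    pe (MvPolynomial.C c * P - MvPolynomial.C s * P') y = c * pe P y - s * pe P' y := by
  unfold pe
  simp

theorem cb_deg {d D : ℕ} {P P' : MvPolynomial (Fin d) ℝ} (hP : P.totalDegree ≤ D)
    (hP' : P'.totalDegree ≤ D) (c s : ℝ) :
    (MvPolynomial.C c * P - MvPolynomial.C s * P').totalDegree ≤ D := by
  refine (MvPolynomial.totalDegree_sub _ _).trans (max_le ?_ ?_)
  · refine (MvPolynomial.totalDegree_mul _ _).trans ?_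
    rw [MvPolynomial.totalDegree_C, zero_add]
    exact hP
  · refine (MvPolynomial.totalDegree_mul _ _).trans ?_
    rw [MvPolynomial.totalDegree_C, zero_add]
    exact hP'

theorem geo_of_geoN {d C n : ℕ} {K : ℝ} {μ : Fin d → ℝ} {Un : ℝ → Prop} {s w : ℝ} (hK : 0 < K)
    (h : GeoN d C n K μ Un s w) : Geo d C K μ Un s w := by
  rcases h with h | ⟨I, r, h1, hr, hr1, ht, hw, hp, h2⟩
  · exact Or.inl h
  · have hr0 : 0 < r := by
      by_contra h0
      push Not at h0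
      have : K ^ n * r ≤ 0 := mul_nonpos_of_nonneg_of_nonpos (by positivity) h0
      linarith
    exact Or.inr ⟨I, r, h1, hr0, hr1, ht, hw, hp, h2⟩

/-- **Row CBV.** -/
theorem cell_bv_of (d : ℕ) (hd : 2 ≤ d) (p : ℝ) (hp : 2 * ((d : ℝ) + 1) / d < p)
    (hp' : ∀ m : ℕ, (m : ℝ) * (p - 2) ≠ 1) (hft : ∃ C1 : ℕ, FTst d p C1)
    (hgap : ∀ (A : ℕ → ℝ) (b r : ℝ), 0 < b → 0 < r → ∀ n0 : ℕ,
      ∃ K0 : ℝ, 1 ≤ K0 ∧ ∀ K, K0 ≤ K → ∀ (Φ h : E d → ℝ) (z : E d) (c : ℝ), Sm d A Φ →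
        Sm d A h → ‖z‖ ≤ n0 → DfB b z (2 * r) h → |c| ≤ K ^ n0 → ∀ w σ : ℝ, 1 ≤ w → 0 < σ →
        ∃ X : Set (E d), MeasurableSet X ∧
          volume (X ∩ Metric.closedBall z r) ≤ ENNReal.ofReal (K * σ) ∧
          ∀ y, ‖y - z‖ ≤ r → y ∉ X → Stab (mu Φ h c) K w σ y) : ∃ C : ℕ,
    ∀ (A B : ℕ → ℝ) (b r : ℝ) (D n0 : ℕ), 0 < b → 0 < r → ∃ K0 : ℝ, 1 ≤ K0 ∧ ∀ K, K0 ≤ K →
    ∀ (Φ h : E d → ℝ) (P P' : MvPolynomial (Fin d) ℝ) (z : E d) (c R : ℝ) (S : Set (E d)),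
      Sm d A Φ → Sm d A h → P.totalDegree ≤ D → P'.totalDegree ≤ D →
      (∀ y, ‖y - z‖ ≤ 2 * r → Φ y = pe P y ∧ h y = pe P' y) → DfB b z (2 * r) h → ‖z‖ ≤ n0 →
      1 + |c| ≤ K ^ n0 → 1 ≤ R → R ≤ K ^ n0 → MeasurableSet S → S ⊆ Metric.closedBall z r →
      ∃ H : ℝ → ℝ≥0∞, Measurable H ∧
      (∫⁻ s in {s : ℝ | |s| ≤ K ^ n0}, H s) ≤
        ENNReal.ofReal (K ^ C) * (1 + ENNReal.ofReal R * volume S) ∧
      ∀ s, |s| ≤ K ^ n0 → ∀ a : E d → ℂ, ContDiff ℝ ∞ a →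
        (∀ j y, ‖iteratedFDeriv ℝ j a y‖ ≤ B j * R ^ j) →
        (∀ y, a y ≠ 0 → Metric.closedBall y (2 / R) ⊆ S) →
        ∫⁻ x, ‖uu a (ph Φ h c s) x‖ₑ ^ p ≤ H s := by
  have hd0 : (0 : ℝ) < d := by
    have : 0 < d := by omega
    exact_mod_cast this
  have hp2 : 2 < p := by
    refine lt_of_le_of_lt ?_ hp
    rw [le_div_iff₀ hd0]
    linarith
  have hal : 2 / (d : ℝ) < p - 2 := by
    have h1 : 2 * ((d : ℝ) + 1) / d = 2 + 2 / d := by
      field_simp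
    rw [h1] at hp
    linarith
  obtain ⟨C1, hC1⟩ := hft
  obtain ⟨Cg, hgeo⟩ := geo_rho d (by omega)
  obtain ⟨Cs, hsum⟩ := sumn d (Cg + 2) hd (p - 2) hal hp'
  refine ⟨C1 + Cs + 3, fun A B b r D n0 hb hr => ?_⟩
  -- the constants
  obtain ⟨A', hA'⟩ := ft_scaleQ d D p hp2 C1 hC1 (fun j => |A j|) (fun j => abs_nonneg _) (r + n0) 1
    (by positivity) one_pos le_rfl
  obtain ⟨J, hJ⟩ := hA' (n0 + 1)
  obtain ⟨K1, hK11, hft⟩ := hJ J le_rfl B n0
  obtain ⟨K2, hK21, hgeo⟩ := hgeo A A' b r hb hr n0 J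
  obtain ⟨K3, hK31, hg⟩ := fam_gap d Cg A b r n0 (hgap A b r hb hr n0)
  obtain ⟨K4, hK41, hsum⟩ := hsum n0
  set V : ℝ := (volume (Metric.closedBall (0 : E d) r)).toReal with hV
  have hV0 : 0 ≤ V := ENNReal.toReal_nonneg
  refine ⟨max (max (max K1 K2) (max K3 K4)) (max V 4), le_max_of_le_left (le_max_of_le_left
    (le_max_of_le_left hK11)), fun K hK Φ h P P' z c R S hΦ hh hP hP' hpe hD hz hc hR1 hRK hS
    hSz => ?_⟩
  have hKK1 : K1 ≤ K := ((le_max_left _ _).trans ((le_max_left _ _).trans (le_max_left _ _))).trans hK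
  have hKK2 : K2 ≤ K := ((le_max_right _ _).trans ((le_max_left _ _).trans (le_max_left _ _))).trans hK
  have hKK3 : K3 ≤ K := ((le_max_left _ _).trans ((le_max_right _ _).trans (le_max_left _ _))).trans hK
  have hKK4 : K4 ≤ K := ((le_max_right _ _).trans ((le_max_right _ _).trans (le_max_left _ _))).trans hK
  have hKV : V ≤ K := ((le_max_left _ _).trans (le_max_right _ _)).trans hK
  have hK4' : 4 ≤ K := ((le_max_right _ _).trans (le_max_right _ _)).trans hK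
  have hK1 : 1 ≤ K := by linarith
  have hK0 : 0 < K := by linarith
  have hR0 : 0 < R := by linarith
  have hcK : |c| ≤ K ^ n0 := by linarith
  -- the roots and the sets of instability
  obtain ⟨μ, hμm, hμ⟩ := mu_cut (r := 2 * r) hΦ.sm hh.sm hb hD c
  obtain ⟨X, hXm, hXv, -, hX⟩ := hg K hKK3 Φ h z c hΦ hh hz hD hcK
  have hvol : volume (Metric.closedBall z r) = ENNReal.ofReal V := by
    rw [hV, ENNReal.ofReal_toReal (measure_closedBall_lt_top.ne)]
    exact Measure.addHaar_closedBall_center volume z r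
  have hSv : volume S ≤ ENNReal.ofReal K :=
    (measure_mono hSz).trans (by rw [hvol]; exact ENNReal.ofReal_le_ofReal hKV)
  have hSr : ∀ y ∈ S, ‖y - z‖ ≤ r := fun y hy => by simpa [dist_eq_norm] using hSz hy
  have hρ0 : (0 : ℝ) < 1 / R := by positivity
  have hρ1 : 1 / R ≤ 1 := by
    rw [div_le_one hR0]
    exact hR1
  have hρK : 1 ≤ K ^ n0 * (1 / R) := by
    rw [mul_one_div, le_div_iff₀ hR0, one_mul]
    exact hRK
  obtain ⟨G, hGm, hG, hGi⟩ := hsum K hKK4 S μ (1 / R) X hS hSv hρ0 hρ1 hρK hμm hXm (fun j =>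
    (measure_mono (inter_subset_inter_right _ hSz)).trans (hXv j))
  refine ⟨fun s => ENNReal.ofReal (K1 * K ^ C1) * (∫⁻ y in S, G s y ^ (p - 2)) +
    ENNReal.ofReal ((K ^ n0)⁻¹), ?_, ?_, ?_⟩
  · refine Measurable.add_const (Measurable.const_mul ?_ _) _
    have h1 : Measurable fun x : ℝ × E d => G x.1 x.2 ^ (p - 2) := hGm.pow_const _
    exact Measurable.lintegral_prod_right' (f := fun x : ℝ × E d => G x.1 x.2 ^ (p - 2)) h1
  · -- the integral in `s`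
    have h1 : Measurable fun x : ℝ × E d => G x.1 x.2 ^ (p - 2) := hGm.pow_const _
    have h2 : Measurable fun s : ℝ => ∫⁻ y in S, G s y ^ (p - 2) :=
      Measurable.lintegral_prod_right' (f := fun x : ℝ × E d => G x.1 x.2 ^ (p - 2)) h1
    rw [lintegral_add_right _ measurable_const, lintegral_const_mul _ h2, setLIntegral_const]
    have h3 : volume {s : ℝ | |s| ≤ K ^ n0} = ENNReal.ofReal (2 * K ^ n0) := by
      have : {s : ℝ | |s| ≤ K ^ n0} = Metric.closedBall 0 (K ^ n0) := by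
        ext s
        simp
      rw [this, Real.volume_closedBall]
    have h4 : ENNReal.ofReal ((K ^ n0)⁻¹) * volume {s : ℝ | |s| ≤ K ^ n0} = 2 := by
      rw [h3, ← ENNReal.ofReal_mul (by positivity)]
      rw [show (K ^ n0)⁻¹ * (2 * K ^ n0) = 2 by field_simp]
      norm_num
    rw [h4]
    set Y : ℝ≥0∞ := 1 + ENNReal.ofReal R * volume S with hY
    have hY1 : 1 ≤ Y := le_self_add
    have h5 : 1 + volume S / ENNReal.ofReal (1 / R) = Y := by
      rw [hY, ENNReal.div_eq_inv_mul, ← ENNReal.ofReal_inv_of_pos hρ0, one_div, inv_inv]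
    have h6 : ∫⁻ s in {s : ℝ | |s| ≤ K ^ n0}, ∫⁻ y in S, G s y ^ (p - 2) ≤
        ENNReal.ofReal (K ^ Cs) * Y := by
      rw [← h5]
      exact hGi
    calc ENNReal.ofReal (K1 * K ^ C1) *
          (∫⁻ s in {s : ℝ | |s| ≤ K ^ n0}, ∫⁻ y in S, G s y ^ (p - 2)) + 2
        ≤ ENNReal.ofReal (K1 * K ^ C1) * (ENNReal.ofReal (K ^ Cs) * Y) + 2 * Y := by
          gcongr
          calc (2 : ℝ≥0∞) = 2 * 1 := (mul_one 2).symm
            _ ≤ 2 * Y := by gcongr
      _ = (ENNReal.ofReal (K1 * K ^ C1 * K ^ Cs) + 2) * Y := by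
          rw [add_mul, ENNReal.ofReal_mul (p := K1 * K ^ C1) (q := K ^ Cs) (by positivity),
            mul_assoc]
      _ = ENNReal.ofReal (K1 * K ^ C1 * K ^ Cs + 2) * Y := by
          rw [ENNReal.ofReal_add (by positivity) (by norm_num)]
          norm_num
      _ ≤ ENNReal.ofReal (K ^ (C1 + Cs + 3)) * Y := by
          refine mul_le_mul_left (ENNReal.ofReal_le_ofReal ?_) _
          have e1 : K1 * K ^ C1 * K ^ Cs ≤ K * K ^ C1 * K ^ Cs := by gcongr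
          have e2 : (1 : ℝ) ≤ K ^ (C1 + Cs) := one_le_pow₀ hK1
          have e3 : K * K ^ C1 * K ^ Cs = K * K ^ (C1 + Cs) := by ring
          have e4 : K ^ (C1 + Cs + 3) = K ^ 3 * K ^ (C1 + Cs) := by ring
          have e5 : K + 2 ≤ K ^ 3 := by nlinarith [sq_nonneg (K - 1)]
          rw [e4]
          calc K1 * K ^ C1 * K ^ Cs + 2 ≤ K * K ^ (C1 + Cs) + 2 * K ^ (C1 + Cs) := by
                rw [← e3]
                linarith
            _ = (K + 2) * K ^ (C1 + Cs) := by ring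
            _ ≤ _ := by gcongr
  · -- one slope
    intro s hs a ha hbd haS
    have hsm : ContDiff ℝ ∞ (ph Φ h c s) :=
      (contDiff_const.mul hΦ.sm).sub (contDiff_const.mul hh.sm)
    have hGs : Measurable (G s) := hGm.comp measurable_prodMk_left
    have hKn : (1 : ℝ) ≤ K ^ n0 := one_le_pow₀ hK1
    refine hft K hKK1 (ph Φ h c s) (MvPolynomial.C c * P - MvPolynomial.C s * P') a R
      (2 * K ^ n0) S (G s) hsm (fun y hy => ?_) (cb_deg hP hP' c s) hR1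
      (hRK.trans (pow_le_pow_right₀ hK1 (Nat.le_succ n0))) (by positivity) ?_ ha (fun y hy => ?_)
      hbd hS (fun y hy => ?_) (fun y hy j hj => ?_) hGs (fun y hy w hw hW => ?_)
    · obtain ⟨e1, e2⟩ := hpe y ((hSr y hy).trans (by linarith))
      rw [cb_poly, ← e1, ← e2]
      rfl
    · rw [pow_succ]
      nlinarith
    · by_contra h0
      have h1 : y ∈ S := haS y h0 (Metric.mem_closedBall_self (by positivity))
      have h2 : ‖y‖ ≤ r + n0 := by
        calc ‖y‖ = ‖(y - z) + z‖ := by rw [sub_add_cancel]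
          _ ≤ ‖y - z‖ + ‖z‖ := norm_add_le _ _
          _ ≤ r + n0 := add_le_add (hSr y h1) hz
      linarith
    · refine (Metric.closedBall_subset_closedBall ?_).trans (haS y hy)
      rw [mul_one_div]
      gcongr
      norm_num
    · refine (ph_bound hΦ.sm hh.sm c s j y).trans ?_
      have h1 : ‖iteratedFDeriv ℝ j Φ y‖ ≤ |A j| := (hΦ.bd j y).trans (le_abs_self _)
      have h2 : ‖iteratedFDeriv ℝ j h y‖ ≤ |A j| := (hh.bd j y).trans (le_abs_self _)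
      calc |c| * ‖iteratedFDeriv ℝ j Φ y‖ + |s| * ‖iteratedFDeriv ℝ j h y‖
          ≤ K ^ n0 * |A j| + K ^ n0 * |A j| := by gcongr
        _ = |A j| * (2 * K ^ n0) := by ring
    · have hy1 : ‖y - z‖ ≤ r := hSr y hy
      have hDy : DfB b y r h := fun u hu => hD u (by
        calc ‖u - z‖ = ‖(u - y) + (y - z)‖ := by rw [sub_add_sub_cancel]
          _ ≤ ‖u - y‖ + ‖y - z‖ := norm_add_le _ _
          _ ≤ 2 * r := by linarith)
      have h1 := hgeo K hKK2 Φ h c s (1 / R) w y hΦ hh hcK hs hDy hρK hρ1 hw hW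
      have h2 := h1.mono (C' := Cg + 2)
        (Un' := fun t => 1 / R ≤ K ^ (Cg + 2) * t ∨
          ∀ j : ℕ, t ≤ 2 * ((2 : ℝ) ^ j)⁻¹ → y ∈ X j) hK1 (by omega) fun t ht hU => by
        rcases hX (1 / R) t y hy1 hU with h3 | h3
        · left
          refine h3.trans ?_
          gcongr
          omega
        · exact Or.inr h3
      have h3 := geo_of_geoN hK0 h2
      rw [← hμ y (hy1.trans (by linarith))] at h3
      exact hG s y hy w hw h3

/-- Row CBV, over the fixed time theorem. -/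
theorem cell_bv (d : ℕ) (hd : 2 ≤ d) (p : ℝ) (hp : 2 * ((d : ℝ) + 1) / d < p)
    (hp' : ∀ m : ℕ, (m : ℝ) * (p - 2) ≠ 1) (hft : ∃ C1 : ℕ, FTst d p C1) : ∃ C : ℕ,
    ∀ (A B : ℕ → ℝ) (b r : ℝ) (D n0 : ℕ), 0 < b → 0 < r → ∃ K0 : ℝ, 1 ≤ K0 ∧ ∀ K, K0 ≤ K →
    ∀ (Φ h : E d → ℝ) (P P' : MvPolynomial (Fin d) ℝ) (z : E d) (c R : ℝ) (S : Set (E d)),
      Sm d A Φ → Sm d A h → P.totalDegree ≤ D → P'.totalDegree ≤ D →
      (∀ y, ‖y - z‖ ≤ 2 * r → Φ y = pe P y ∧ h y = pe P' y) → DfB b z (2 * r) h → ‖z‖ ≤ n0 →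
      1 + |c| ≤ K ^ n0 → 1 ≤ R → R ≤ K ^ n0 → MeasurableSet S → S ⊆ Metric.closedBall z r →
      ∃ H : ℝ → ℝ≥0∞, Measurable H ∧
      (∫⁻ s in {s : ℝ | |s| ≤ K ^ n0}, H s) ≤
        ENNReal.ofReal (K ^ C) * (1 + ENNReal.ofReal R * volume S) ∧
      ∀ s, |s| ≤ K ^ n0 → ∀ a : E d → ℂ, ContDiff ℝ ∞ a →
        (∀ j y, ‖iteratedFDeriv ℝ j a y‖ ≤ B j * R ^ j) →
        (∀ y, a y ≠ 0 → Metric.closedBall y (2 / R) ⊆ S) →
        ∫⁻ x, ‖uu a (ph Φ h c s) x‖ₑ ^ p ≤ H s :=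
  cell_bv_of d hd p hp hp' hft fun A b r hb hr n0 => gap d A b r hb hr n0

end Pool.Agent.GNP
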