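import Pool.Agent.GNP.Defs5

/-!
The slices of a cell (structure of the skeleton, word for word).
-/

namespace Pool.Agent.GNP

open MeasureTheory Set Pool.Agent.MP_6cbfb8_an
open scoped ENNReal Real RealInnerProductSpace ContDiff

/-- The slices of a cell in the direction `U (0,1)`: centre `(v0, w0)`, radius `κ1 ρ`. -/
structure Slc (m : ℕ) (A B : ℕ → ℝ) (N : ℕ) (κ1 ρ R : ℝ) (U : E (m + 1) ≃ₗᵢ[ℝ] E (m + 1))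
    (z : E (m + 1)) (q : E (m + 1) → ℝ) (a : E (m + 1) → ℂ) (η ψ : ℝ → E m → ℝ)
    (b : ℝ → E m → ℂ) (v0 : E m) (w0 t0 : ℝ) : Prop where
  cen : z = U (join v0 w0)
  tee : t0 = ⟪gr q z, U (join 0 1)⟫
  con : Continuous fun x : ℝ × E m => η x.1 x.2
  sli : ∀ t x, uu a q (U (join x t)) = ((√R)⁻¹ : ℝ) * uu (b t) (ψ t) x
  cel : ∀ t, Cel m A B (1 / 2) (κ1 * ρ) R v0 (ψ t) (b t)
  cov : ∀ (v : E m) (F : ℝ → ℝ≥0∞), Measurable F →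
    ∫⁻ t, F (η t v) ≤ ENNReal.ofReal (A 0 * R) * ∫⁻ w, F w
  act : ∀ t, |η t v0 - w0| ≤ κ1 * ρ → ∀ v, ‖v - v0‖ ≤ κ1 * ρ →
    ‖U (join v (η t v)) - z‖ < ρ ∧ Leg A q R (κ1 * ρ) U t v (η t) (ψ t)
  dec : ∀ t y, ‖b t y‖ ≤ B 0 / (1 + |t - t0| / (R * ρ)) ^ N
  ina : ∀ t, κ1 * ρ < |η t v0 - w0| → ∀ y,
    ‖b t y‖ ≤ B 0 / ((R * ρ ^ 2) ^ N * (1 + |t - t0| / (R * ρ)) ^ N)

end Pool.Agent.GNP
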