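import Pool.Agent.GNP.CELLb
import Pool.Agent.GNP.Slc

/-!
Every smooth phase, all dimensions, row CELL: the slices of one cell with a pivot.
-/

namespace Pool.Agent.GNP

open MeasureTheory Set Pool.Agent.MP_6cbfb8_an
open scoped ENNReal Real RealInnerProductSpace ContDiff

variable {m : ℕ}

/-- **The amplitude of a slice.** -/
theorem ce_spp (m : ℕ) (B C : ℕ → ℝ) {c κa : ℝ} (hc : 0 < c) (hκa : 0 < κa) (N : ℕ) :
    ∃ Cs : ℕ → ℝ, ∀ (κ R ρ : ℝ) (U : E (m + 1) ≃ₗᵢ[ℝ] E (m + 1)) (q0 : E (m + 1) → ℝ)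
      (a : E (m + 1) → ℂ) (p0 : E m × ℝ) (q w Q : E m × ℝ → ℝ) (t : ℝ), 0 < R → 0 < ρ →
      1 ≤ R * ρ ^ 2 → κa < κ / 2 → ContDiff ℝ ∞ q0 → ContDiff ℝ ∞ a →
      (∀ y, κa * ρ < ‖y - ceT U p0‖ → a y = 0) →
      (∀ j y, ‖iteratedFDeriv ℝ j a y‖ ≤ B j / ρ ^ j) →
      CeL m C c κ R (ρ / 2) p0 (fun p => q0 (ceT U p)) q w Q →
      ∃ b : E m → ℂ, ContDiff ℝ ∞ b ∧ (∀ v, κa * ρ < ‖v - p0.1‖ → b v = 0) ∧
        (∀ j v, ‖iteratedFDeriv ℝ j b v‖ ≤ Cs j / ρ ^ j) ∧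
        (∀ v, ‖b v‖ ≤ Cs 0 / (1 + |w (v, t) - p0.2| / ρ) ^ N) ∧
        (∀ v, 2 * κa * ρ ≤ |w (v, t) - p0.2| →
          ‖b v‖ ≤ Cs 0 / ((R * ρ ^ 2) ^ N * (1 + |w (v, t) - p0.2| / ρ) ^ N)) ∧
        ∀ x, uu a q0 (U (join x t)) = ((√R)⁻¹ : ℝ) * uu b (fun v => Q (v, t)) x := by
  obtain ⟨Cs, hCs⟩ := spp (E m) (fun j => 2 ^ j * |C j|) (fun j => 2 ^ j * |C j|)
    (fun j => 2 ^ j * |B j|) (c / 2) κa (by positivity) hκa N
  refine ⟨Cs, fun κ R ρ U q0 a p0 q w Q t hR hρ hRρ hκκ hq0 ha hsupp hB h => ?_⟩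
  have hS : 0 < R * ρ ^ 2 := by positivity
  -- the normalised critical point
  set wn : E m → ℝ := fun v' => ρ⁻¹ * (w (p0.1 + ρ • v', t) - p0.2) with hwn
  have hwt : ContDiff ℝ ∞ (fun v => w (v, t)) := h.smw.comp (contDiff_id.prodMk contDiff_const)
  have harg : ∀ v' : E m, ρ • (v' - (-(ρ⁻¹ • p0.1))) = p0.1 + ρ • v' := fun v' => by
    rw [sub_neg_eq_add, smul_add, smul_smul, mul_inv_cancel₀ hρ.ne', one_smul, add_comm]
  have hwn' : wn = fun v' => ρ⁻¹ * ((fun v => w (v, t)) (ρ • (v' - (-(ρ⁻¹ • p0.1)))) - p0.2) := by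
    funext v'
    simp only [hwn, harg]
  have hwa : ContDiff ℝ ∞ (fun v' => (fun v => w (v, t)) (ρ • (v' - (-(ρ⁻¹ • p0.1))))) :=
    contDiff_aff hwt ρ _
  have hwns : ContDiff ℝ ∞ wn := by
    rw [hwn']
    exact contDiff_const.mul (hwa.sub contDiff_const)
  have hwnb : ∀ j, 1 ≤ j → ∀ v', ‖iteratedFDeriv ℝ j wn v'‖ ≤ 2 ^ j * |C j| := by
    intro j hj v'
    have h1 : wn = ρ⁻¹ • ((fun v' => (fun v => w (v, t)) (ρ • (v' - (-(ρ⁻¹ • p0.1))))) +
        fun _ => -p0.2) := by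
      rw [hwn']
      funext v'
      simp [sub_eq_add_neg]
    have h2 : ContDiff ℝ j (fun v' => (fun v => w (v, t)) (ρ • (v' - (-(ρ⁻¹ • p0.1))))) :=
      hwa.of_le (by exact_mod_cast le_top)
    have h2' : ContDiffAt ℝ j ((fun v' => (fun v => w (v, t)) (ρ • (v' - (-(ρ⁻¹ • p0.1))))) +
        fun _ => -p0.2) v' := h2.contDiffAt.add contDiffAt_const
    rw [h1, iteratedFDeriv_const_smul_apply h2', norm_smul,
      iteratedFDeriv_add_apply h2.contDiffAt contDiffAt_const,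
      iteratedFDeriv_const_of_ne (by omega)]
    have h3 : ∀ (x : ContinuousMultilinearMap ℝ (fun _ : Fin j => E m) ℝ),
        x + (0 : E m → ContinuousMultilinearMap ℝ (fun _ : Fin j => E m) ℝ) v' = x := fun x => by
      simp
    rw [h3, norm_iteratedFDeriv_aff_real j hwt, abs_of_pos hρ, norm_inv, Real.norm_eq_abs,
      abs_of_pos hρ]
    have h4 := (h.bdw j hj t (ρ • (v' - (-(ρ⁻¹ • p0.1))))).trans
      (mul_le_mul_of_nonneg_right (le_abs_self (C j)) (by positivity))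
    calc ρ⁻¹ * (ρ ^ j * ‖iteratedFDeriv ℝ j (fun v => w (v, t)) (ρ • (v' - (-(ρ⁻¹ • p0.1))))‖)
        ≤ ρ⁻¹ * (ρ ^ j * (|C j| * (ρ / 2 / (ρ / 2) ^ j))) := by gcongr
      _ = 1 / 2 * (2 ^ j * |C j|) := by
        rw [div_pow]
        field_simp
      _ ≤ 2 ^ j * |C j| := by
        have : 0 ≤ 2 ^ j * |C j| := by positivity
        linarith
  -- the normalised amplitude
  set f : E m × ℝ → ℂ := fun p => a (ceT U p) with hf
  have hfs : ContDiff ℝ ∞ f := ceT_contDiff U ha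
  set bn : E m × ℝ → ℂ := fun p => f (ρ • (p - (-(ρ⁻¹ • p0)))) with hbn
  have hbns : ContDiff ℝ ∞ bn := contDiff_aff hfs ρ _
  have hbnb : ∀ j p, ‖iteratedFDeriv ℝ j bn p‖ ≤ 2 ^ j * |B j| := by
    intro j p
    rw [hbn, norm_iteratedFDeriv_aff j hfs, abs_of_pos hρ]
    have h1 := ceT_iter U ha j (ρ • (p - (-(ρ⁻¹ • p0))))
    have h2 := hB j (ceT U (ρ • (p - (-(ρ⁻¹ • p0)))))
    calc ρ ^ j * ‖iteratedFDeriv ℝ j f (ρ • (p - (-(ρ⁻¹ • p0))))‖
        ≤ ρ ^ j * (2 ^ j * (|B j| / ρ ^ j)) := by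
          refine mul_le_mul_of_nonneg_left (h1.trans ?_) (by positivity)
          refine mul_le_mul_of_nonneg_left (h2.trans ?_) (by positivity)
          exact div_le_div_of_nonneg_right (le_abs_self _) (by positivity)
      _ = 2 ^ j * |B j| := by field_simp
  have hbn0 : ∀ p, κa < ‖p‖ → bn p = 0 := by
    intro p hp
    simp only [hbn, hf]
    rw [ceN_arg hρ]
    refine hsupp _ ?_
    rw [← map_sub, add_sub_cancel_left]
    refine lt_of_lt_of_le ?_ (le_ceT_norm U _)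
    rw [norm_smul, Real.norm_eq_abs, abs_of_pos hρ]
    nlinarith
  -- the normalised phase
  have hsgn : (∀ p, c / 2 ≤ fderiv ℝ (fderiv ℝ (ceN R ρ p0 q)) p (0, 1) (0, 1)) ∨
      (∀ p, fderiv ℝ (fderiv ℝ (ceN R ρ p0 q)) p (0, 1) (0, 1) ≤ -(c / 2)) := by
    rcases h.sgn with h1 | h1
    · left
      intro p
      rw [ceN_fderiv2 hR hρ p0 h.smq, inv_mul_eq_div, le_div_iff₀ hR]
      exact h1 _
    · right
      intro p
      rw [ceN_fderiv2 hR hρ p0 h.smq, inv_mul_eq_div, div_le_iff₀ hR]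
      have := h1 (p0 + ρ • p)
      linarith
  have hpt : ∀ v' : E m, p0 + ρ • (v', wn v') = (p0.1 + ρ • v', w (p0.1 + ρ • v', t)) := by
    intro v'
    refine Prod.ext ?_ ?_
    · simp
    · simp only [hwn, Prod.snd_add, Prod.smul_snd, smul_eq_mul]
      field_simp
      ring
  have hcrit : ∀ v', fderiv ℝ (ceN R ρ p0 q) (v', wn v') (0, 1) = t / (R * ρ) := by
    intro v'
    rw [ceN_fderiv hR hρ p0 h.smq, hpt]
    rw [smul_apply, h.crit, smul_eq_mul, inv_mul_eq_div]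
  obtain ⟨an, h1, h2, h3, h4, h5, h6⟩ := hCs (R * ρ ^ 2) (ceN R ρ p0 q) (t / (R * ρ)) wn bn hRρ
    (ceN_contDiff R ρ p0 h.smq)
    (fun j hj p => ceN_bd hR hρ p0 h.smq (h.bdq j hj) p) hsgn hwns hwnb hcrit hbns hbnb hbn0
  -- back to the original units
  have hv : ∀ v : E m, p0.1 + ρ • (ρ⁻¹ • (v - p0.1)) = v := fun v => by
    rw [smul_smul, mul_inv_cancel₀ hρ.ne', one_smul]
    abel
  have hwv : ∀ v : E m, wn (ρ⁻¹ • (v - p0.1)) = ρ⁻¹ * (w (v, t) - p0.2) := fun v => by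
    simp only [hwn, hv]
  have hwva : ∀ v : E m, |wn (ρ⁻¹ • (v - p0.1))| = |w (v, t) - p0.2| / ρ := fun v => by
    rw [hwv, abs_mul, abs_of_pos (by positivity : (0 : ℝ) < ρ⁻¹), inv_mul_eq_div]
  refine ⟨fun v => an (ρ⁻¹ • (v - p0.1)), contDiff_aff h1 ρ⁻¹ _, fun v hvn => ?_, fun j v => ?_,
    fun v => ?_, fun v hvn => ?_, fun x => ?_⟩
  · refine h2 _ ?_
    rw [norm_smul, norm_inv, Real.norm_eq_abs, abs_of_pos hρ, inv_mul_eq_div, lt_div_iff₀ hρ]
    exact hvn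
  · rw [norm_iteratedFDeriv_aff j h1, abs_of_pos (by positivity : (0 : ℝ) < ρ⁻¹), inv_pow,
      inv_mul_eq_div]
    exact div_le_div_of_nonneg_right (h3 j _) (by positivity)
  · have h7 := h4 (ρ⁻¹ • (v - p0.1))
    rwa [hwva] at h7
  · have h7 := h5 (ρ⁻¹ • (v - p0.1))
    rw [hwva] at h7
    refine h7 ?_
    rw [le_div_iff₀ hρ]
    exact hvn
  · -- the identity
    have hint : Integrable (fun y => a (U y)) := by
      have hc1 : Continuous (fun y => a (U y)) := ha.continuous.comp U.continuous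
      refine hc1.integrable_of_hasCompactSupport ?_
      refine HasCompactSupport.intro
        (isCompact_closedBall (U.symm (ceT U p0)) (κa * ρ)) fun y hy => ?_
      refine hsupp _ ?_
      rw [Metric.mem_closedBall, not_le, dist_eq_norm] at hy
      have h8 : ‖U y - ceT U p0‖ = ‖y - U.symm (ceT U p0)‖ := by
        rw [← U.norm_map (y - U.symm (ceT U p0)), map_sub, U.apply_symm_apply]
      rw [h8]
      exact hy
    rw [uu_rot, uu_join _ (fun y => q0 (U y)) hint (hq0.continuous.comp U.continuous)]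
    have hline : ∀ v : E m, ∫ s : ℝ, a (U (join v s)) *
        Complex.exp (((q0 (U (join v s)) - t * s : ℝ) : ℂ) * Complex.I) =
        ((√R)⁻¹ : ℝ) * (an (ρ⁻¹ • (v - p0.1)) *
          Complex.exp (((Q (v, t) : ℝ) : ℂ) * Complex.I)) := by
      intro v
      have h9 : ∀ s : ℝ, a (U (join v s)) *
          Complex.exp (((q0 (U (join v s)) - t * s : ℝ) : ℂ) * Complex.I) =
          f (v, s) * Complex.exp (((q (v, s) - t * s : ℝ) : ℂ) * Complex.I) := by
        intro s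
        by_cases h10 : ‖ceT U (v, s) - ceT U p0‖ ≤ κa * ρ
        · have h11 : dist ((v, s) : E m × ℝ) p0 < κ * (ρ / 2) := by
            refine lt_of_le_of_lt ((ceT_dist' U _ _).trans h10) ?_
            nlinarith
          rw [h.eq _ h11]
          rfl
        · have h11 : a (ceT U (v, s)) = 0 := hsupp _ (not_le.1 h10)
          have h12 : a (U (join v s)) = 0 := h11
          simp only [hf, h11, h12, zero_mul]
      simp only [h9]
      refine ce_line hR hρ p0 (fun v => h.Qdef v t) f v _ ?_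
      have h13 := h6 (ρ⁻¹ • (v - p0.1))
      simp only [hwv] at h13
      have h14 : ∀ p, bn p = f (p0 + ρ • p) := fun p => by
        simp only [hbn]
        rw [ceN_arg hρ]
      simp only [h14, ceN_apply hρ] at h13
      exact h13
    simp only [hline]
    rw [uu, ← integral_const_mul]
    refine integral_congr_ae (Filter.Eventually.of_forall fun v => ?_)
    simp only
    rw [mul_assoc, mul_assoc, ← Complex.exp_add, ← add_mul, ← Complex.ofReal_add]
    rfl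

/-- **The row CELL.** -/
theorem cell (m : ℕ) (c : ℝ) (hc : 0 < c) (A : ℕ → ℝ) : ∃ (κ κ1 : ℝ) (A' : ℕ → ℝ), 0 < κ ∧
    κ ≤ 1 / 4 ∧ 0 < κ1 ∧ κ1 ≤ 1 / 4 ∧ ∀ (B : ℕ → ℝ) (N : ℕ), ∃ B' : ℕ → ℝ,
    ∀ (U : E (m + 1) ≃ₗᵢ[ℝ] E (m + 1)) (ρ R : ℝ) (z : E (m + 1)) (q : E (m + 1) → ℝ)
      (a : E (m + 1) → ℂ), 0 < ρ → 1 ≤ R * ρ ^ 2 → Cel (m + 1) A B κ ρ R z q a →
      c * R ≤ |⟪Hs q z (U (join 0 1)), U (join 0 1)⟫| →
      ∃ (η ψ : ℝ → E m → ℝ) (b : ℝ → E m → ℂ) (v0 : E m) (w0 t0 : ℝ),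
        Slc m A' B' N κ1 ρ R U z q a η ψ b v0 w0 t0 := by
  obtain ⟨κL, ⟨hκL0, hκL1⟩, C, hC⟩ := ce_leg m (fun j => 4 * |A j|) hc
  have hC1 : 0 ≤ |C 1| := abs_nonneg _
  set κ1 : ℝ := κL / (8 * (|C 1| + 1)) with hκ1
  have hκ1p : 0 < κ1 := by positivity
  have hκ1e : κ1 * (8 * (|C 1| + 1)) = κL := by
    rw [hκ1]
    field_simp
  have hκ1q : κ1 ≤ 1 / 8 := by nlinarith
  set κ : ℝ := κ1 / (4 * (|C 1| + 1)) with hκ
  have hκp : 0 < κ := by positivity
  have hκe : κ * (4 * (|C 1| + 1)) = κ1 := by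
    rw [hκ]
    field_simp
  have hκκ1 : κ ≤ κ1 / 4 := by nlinarith
  refine ⟨κ, κ1, fun j => |C j| + 2 / c + |A 2| + |C 2|, hκp, by linarith, hκ1p, by linarith,
    fun B N => ?_⟩
  obtain ⟨Cs, hCs⟩ := ce_spp m B C hc hκp N
  refine ⟨fun j => |Cs j| * (1 + |C 2|) ^ N, fun U ρ R z q0 a hρ hRρ hcel hpiv => ?_⟩
  have hR : 0 < R := by
    by_contra hcon
    have : R * ρ ^ 2 ≤ 0 := mul_nonpos_of_nonpos_of_nonneg (not_lt.1 hcon) (by positivity)
    linarith
  have hA'C : ∀ j, |C j| ≤ |C j| + 2 / c + |A 2| + |C 2| := fun j => by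
    have h1 : 0 ≤ 2 / c := by positivity
    have h2 := abs_nonneg (A 2)
    have h3 := abs_nonneg (C 2)
    linarith
  have hone : (1 : ℝ) ≤ (1 + |C 2|) ^ N := one_le_pow₀ (by linarith [abs_nonneg (C 2)])
  -- the centre
  set p0 : E m × ℝ := (ceT U).symm z with hp0
  have hz : ceT U p0 = z := (ceT U).apply_symm_apply z
  set F : E m × ℝ → ℝ := fun p => q0 (ceT U p) with hF
  have hFs : ContDiff ℝ ∞ F := ceT_contDiff U hcel.smq
  have hFb : ∀ j, 2 ≤ j → ∀ y, dist y p0 < ρ / 2 → ‖iteratedFDeriv ℝ j F y‖ ≤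
      4 * |A j| * (R * (ρ / 2) ^ 2 / (ρ / 2) ^ j) := by
    intro j hj y hy
    have h1 : ‖ceT U y - z‖ ≤ ρ := by
      rw [← hz]
      refine (ceT_dist U y p0).trans ?_
      have h2 : √2 ≤ 2 := by
        rw [Real.sqrt_le_left (by norm_num)]
        norm_num
      have h3 : 0 ≤ dist y p0 := dist_nonneg
      nlinarith [Real.sqrt_nonneg 2]
    have h2 := (ceT_iter U hcel.smq j y).trans
      (mul_le_mul_of_nonneg_left (hcel.bdq j hj _ h1) (by positivity))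
    refine h2.trans ?_
    have h3 : 4 * |A j| * (R * (ρ / 2) ^ 2 / (ρ / 2) ^ j) =
        2 ^ j * (|A j| * (R * ρ ^ 2) / ρ ^ j) := by
      rw [div_pow, div_pow]
      field_simp
      ring
    rw [h3]
    have h4 : A j ≤ |A j| := le_abs_self _
    gcongr
  have hFc : c * R ≤ |fderiv ℝ (fderiv ℝ F) p0 (0, 1) (0, 1)| := by
    rw [hF, ceT_fderiv2 U hcel.smq, hz]
    exact hpiv
  obtain ⟨q, w, Q, h⟩ := hC R (ρ / 2) hR (by positivity) p0 F hFs hFb hFc
  have hκκL : κ < κL / 2 := by nlinarith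
  have hsp := fun t => hCs κL R ρ U q0 a p0 q w Q t hR hρ hRρ hκκL hcel.smq hcel.sma
    (fun y hy => hcel.supp y (by rwa [hz] at hy)) hcel.bda h
  choose b hb1 hb2 hb3 hb4 hb5 hb6 using hsp
  -- the relation between `t` and the critical point
  have ht0 : ⟪gr q0 z, U (join 0 1)⟫ = fderiv ℝ q p0 (0, 1) := by
    rw [h.fd (by rw [dist_self]; positivity), hF, ceT_fderiv U hcel.smq, hz]
    rfl
  have hdist : ∀ t v, ‖v - p0.1‖ ≤ κ * ρ →
      |t - ⟪gr q0 z, U (join 0 1)⟫| ≤ |C 2| * R * (ρ + |w (v, t) - p0.2|) := by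
    intro t v hv
    rw [ht0]
    have h1 : ContDiff ℝ ∞ (fderiv ℝ q) := h.smq.fderiv_right (by exact le_rfl)
    have h2 := (convex_univ (𝕜 := ℝ) (E := E m × ℝ)).norm_image_sub_le_of_norm_fderiv_le (𝕜 := ℝ)
      (f := fderiv ℝ q) (C := |C 2| * R) (x := p0) (y := (v, w (v, t)))
      (fun x _ => h1.differentiable (by simp) x)
      (fun x _ => by
        have h3 := h.bdq 2 le_rfl x
        rw [← norm_iteratedFDeriv_one, norm_iteratedFDeriv_fderiv]
        refine h3.trans ?_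
        have h4 : R * (ρ / 2) ^ 2 / (ρ / 2) ^ 2 = R := by field_simp
        rw [h4]
        exact mul_le_mul_of_nonneg_right (le_abs_self _) hR.le) (mem_univ _) (mem_univ _)
    have h5 : ‖(v, w (v, t)) - p0‖ ≤ ρ + |w (v, t) - p0.2| := by
      rw [Prod.norm_def]
      refine max_le ?_ ?_
      · have : ‖v - p0.1‖ ≤ ρ := by nlinarith
        have h6 := abs_nonneg (w (v, t) - p0.2)
        simp only [Prod.fst_sub]
        linarith
      · simp only [Prod.snd_sub, Real.norm_eq_abs]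
        linarith
    have h6 : |(fderiv ℝ q (v, w (v, t)) - fderiv ℝ q p0) (0, 1)| ≤
        ‖fderiv ℝ q (v, w (v, t)) - fderiv ℝ q p0‖ := by
      have h7 := (fderiv ℝ q (v, w (v, t)) - fderiv ℝ q p0).le_opNorm (0, 1)
      have hn01 : ‖((0, 1) : E m × ℝ)‖ = 1 := by
        rw [Prod.norm_def]
        simp
      rw [hn01, mul_one] at h7
      exact h7
    rw [sub_apply, h.crit] at h6
    refine h6.trans (h2.trans ?_)
    exact mul_le_mul_of_nonneg_left h5 (by positivity)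
  have hden : ∀ t v, ‖v - p0.1‖ ≤ κ * ρ →
      1 + |t - ⟪gr q0 z, U (join 0 1)⟫| / (R * ρ) ≤
        (1 + |C 2|) * (1 + |w (v, t) - p0.2| / ρ) := by
    intro t v hv
    have h1 := hdist t v hv
    have h2 : |t - ⟪gr q0 z, U (join 0 1)⟫| / (R * ρ) ≤ |C 2| * (1 + |w (v, t) - p0.2| / ρ) := by
      rw [div_le_iff₀ (by positivity)]
      refine h1.trans (le_of_eq ?_)
      field_simp
    have h3 : 0 ≤ |w (v, t) - p0.2| / ρ := by positivity
    linarith
  have hpos : ∀ t, 0 < 1 + |t - ⟪gr q0 z, U (join 0 1)⟫| / (R * ρ) := fun t => by positivity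
  have hcmp : ∀ t v, ‖v - p0.1‖ ≤ κ * ρ → ∀ D : ℝ, 0 < D →
      Cs 0 / (D * (1 + |w (v, t) - p0.2| / ρ) ^ N) ≤ |Cs 0| * (1 + |C 2|) ^ N /
        (D * (1 + |t - ⟪gr q0 z, U (join 0 1)⟫| / (R * ρ)) ^ N) := by
    intro t v hv D hD
    have h1 := hden t v hv
    have h2 : 0 < 1 + |w (v, t) - p0.2| / ρ := by positivity
    have h3 := hpos t
    rw [div_le_div_iff₀ (by positivity) (by positivity)]
    have h4 : (1 + |t - ⟪gr q0 z, U (join 0 1)⟫| / (R * ρ)) ^ N ≤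
        (1 + |C 2|) ^ N * (1 + |w (v, t) - p0.2| / ρ) ^ N := by
      rw [← mul_pow]
      exact pow_le_pow_left₀ h3.le h1 N
    have h5 : Cs 0 ≤ |Cs 0| := le_abs_self _
    have h6 := abs_nonneg (Cs 0)
    calc Cs 0 * (D * (1 + |t - ⟪gr q0 z, U (join 0 1)⟫| / (R * ρ)) ^ N)
        ≤ |Cs 0| * (D * ((1 + |C 2|) ^ N * (1 + |w (v, t) - p0.2| / ρ) ^ N)) := by gcongr
      _ = |Cs 0| * (1 + |C 2|) ^ N * (D * (1 + |w (v, t) - p0.2| / ρ) ^ N) := by ring
  have hB'0 : ∀ j, Cs j ≤ |Cs j| * (1 + |C 2|) ^ N := fun j => by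
    have h5 : Cs j ≤ |Cs j| := le_abs_self _
    have h6 := abs_nonneg (Cs j)
    nlinarith
  refine ⟨fun t v => w (v, t), fun t v => Q (v, t), b, p0.1, p0.2,
    ⟪gr q0 z, U (join 0 1)⟫, ?_⟩
  refine ⟨hz.symm, rfl, ?_, hb6, ?_, ?_, ?_, ?_, ?_⟩
  · exact h.smw.continuous.comp (continuous_snd.prodMk continuous_fst)
  · intro t
    refine ⟨h.smQ.comp (contDiff_id.prodMk contDiff_const), hb1 t, fun y hy => ?_, fun j y => ?_,
      fun j hj y _ => ?_⟩
    · refine hb2 t y (lt_of_le_of_lt ?_ hy)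
      have : κ ≤ κ1 / 2 := by linarith
      nlinarith
    · refine (hb3 t j y).trans ?_
      have h1 : (κ1 * ρ) ^ j ≤ ρ ^ j := by
        refine pow_le_pow_left₀ (by positivity) ?_ j
        nlinarith
      have h2 : 0 ≤ |Cs j| * (1 + |C 2|) ^ N := by positivity
      calc Cs j / ρ ^ j ≤ |Cs j| * (1 + |C 2|) ^ N / ρ ^ j :=
            div_le_div_of_nonneg_right (hB'0 j) (by positivity)
        _ ≤ |Cs j| * (1 + |C 2|) ^ N / (κ1 * ρ) ^ j :=
            div_le_div_of_nonneg_left h2 (by positivity) h1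
    · exact h.bdQ' hR hρ hκ1p (by linarith) hA'C j hj t y
  · intro v G hG
    refine (h.cov (by positivity) v G hG).trans ?_
    gcongr
    have h1 : C 2 ≤ |C 2| := le_abs_self _
    have h2 : 0 ≤ 2 / c := by positivity
    have h3 := abs_nonneg (A 2)
    have h4 := abs_nonneg (C 0)
    linarith
  · intro t ht v hv
    have h1 := ce_act (A := A) (A' := fun j => |C j| + 2 / c + |A 2| + |C 2|) hcel.smq h hc hR hρ
      hκL1 hκ1p (by linarith) (by nlinarith)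
      (fun y hy => by
        rw [hz] at hy
        exact hcel.bdq 2 le_rfl y hy)
      (by
        have h3 := abs_nonneg (A 2)
        have h4 := abs_nonneg (C 0)
        have h5 := abs_nonneg (C 2)
        linarith)
      (by
        have h3 := le_abs_self (A 2)
        have h4 := abs_nonneg (C 0)
        have h5 := abs_nonneg (C 2)
        have h2 : 0 ≤ 2 / c := by positivity
        linarith)
      hA'C ht hv
    rw [hz] at h1
    exact h1
  · intro t y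
    by_cases hy : ‖y - p0.1‖ ≤ κ * ρ
    · have h1 := hcmp t y hy 1 one_pos
      rw [one_mul, one_mul] at h1
      exact (hb4 t y).trans h1
    · rw [hb2 t y (not_le.1 hy), norm_zero]
      have := hpos t
      positivity
  · intro t ht y
    by_cases hy : ‖y - p0.1‖ ≤ κ * ρ
    · have h1 := hcmp t y hy ((R * ρ ^ 2) ^ N) (by positivity)
      refine (hb5 t y ?_).trans h1
      have h2 := h.w_lip (by positivity) t y p0.1
      have h3 : C 1 * ‖y - p0.1‖ ≤ |C 1| * (κ * ρ) :=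
        (mul_le_mul_of_nonneg_right (le_abs_self _) (norm_nonneg _)).trans
          (mul_le_mul_of_nonneg_left hy hC1)
      have h4 : |w (p0.1, t) - p0.2| ≤ |w (y, t) - p0.2| + |w (y, t) - w (p0.1, t)| := by
        have h5 : w (p0.1, t) - p0.2 = (w (y, t) - p0.2) - (w (y, t) - w (p0.1, t)) := by ring
        rw [h5]
        exact abs_sub _ _
      have h6 : κ * (2 + |C 1|) * ρ ≤ κ1 * ρ := by
        refine mul_le_mul_of_nonneg_right ?_ hρ.le
        nlinarith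
      nlinarith
    · rw [hb2 t y (not_le.1 hy), norm_zero]
      have := hpos t
      positivity

end Pool.Agent.GNP
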