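import Pool.Agent.GNP.IMP

/-! ## IMPs: the critical point, both signs of the second derivative -/

namespace Pool.Agent.GNP

open Set Filter Topology
open scoped ContDiff Nat

variable {V W : Type*} [NormedAddCommGroup V] [NormedSpace ℝ V] [NormedAddCommGroup W]
  [NormedSpace ℝ W]

/-- The reflection `(v, ξ) ↦ (v, -ξ)`. -/
noncomputable def refl2 (V : Type*) [NormedAddCommGroup V] [NormedSpace ℝ V] :
    V × ℝ →L[ℝ] V × ℝ := (ContinuousLinearMap.fst ℝ V ℝ).prod (-ContinuousLinearMap.snd ℝ V ℝ)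

theorem refl2_apply (v : V) (t : ℝ) : refl2 V (v, t) = (v, -t) := rfl

theorem norm_refl2 : ‖refl2 V‖ ≤ 1 := by
  refine ContinuousLinearMap.opNorm_le_bound _ zero_le_one fun p => ?_
  obtain ⟨v, t⟩ := p
  rw [refl2_apply, Prod.norm_def, Prod.norm_def, norm_neg, one_mul]

theorem norm_iter_refl2 {f : V × ℝ → W} (hf : ContDiff ℝ ∞ f) (j : ℕ) (y : V × ℝ) :
    ‖iteratedFDeriv ℝ j (fun y => f (refl2 V y)) y‖ ≤ ‖iteratedFDeriv ℝ j f (refl2 V y)‖ := by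
  have h1 := (refl2 V).iteratedFDeriv_comp_right (i := j) (n := ∞) hf y (by exact_mod_cast le_top)
  have h2 : iteratedFDeriv ℝ j (fun y => f (refl2 V y)) y
      = (iteratedFDeriv ℝ j f (refl2 V y)).compContinuousLinearMap fun _ => refl2 V := h1
  rw [h2]
  refine (ContinuousMultilinearMap.norm_compContinuousLinearMap_le _ _).trans ?_
  have h3 : ∏ _i : Fin j, ‖refl2 V‖ ≤ 1 :=
    Finset.prod_le_one (fun _ _ => norm_nonneg _) fun _ _ => norm_refl2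
  calc ‖iteratedFDeriv ℝ j f (refl2 V y)‖ * ∏ _i : Fin j, ‖refl2 V‖
      ≤ ‖iteratedFDeriv ℝ j f (refl2 V y)‖ * 1 := by gcongr
    _ = _ := mul_one _

/-- IMP for both signs of `∂_w² ψ`. -/
theorem imp_sign (V : Type*) [NormedAddCommGroup V] [NormedSpace ℝ V] [CompleteSpace V]
    (A : ℕ → ℝ) (c : ℝ) (hc : 0 < c) : ∃ C : ℕ → ℝ, ∀ ψ : V × ℝ → ℝ, ContDiff ℝ ∞ ψ →
    (∀ j, 2 ≤ j → ∀ p, ‖iteratedFDeriv ℝ j ψ p‖ ≤ A j) →
    ((∀ p, c ≤ fderiv ℝ (fderiv ℝ ψ) p (0, 1) (0, 1)) ∨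
      (∀ p, fderiv ℝ (fderiv ℝ ψ) p (0, 1) (0, 1) ≤ -c)) → ∃ w Q : V × ℝ → ℝ,
      ContDiff ℝ ∞ w ∧ (∀ j, 1 ≤ j → ∀ y, ‖iteratedFDeriv ℝ j w y‖ ≤ C j) ∧
      ContDiff ℝ ∞ Q ∧ (∀ j, 2 ≤ j → ∀ y, ‖iteratedFDeriv ℝ j Q y‖ ≤ C j) ∧
      (∀ v ξ, fderiv ℝ ψ (v, w (v, ξ)) (0, 1) = ξ) ∧
      (∀ v t, w (v, fderiv ℝ ψ (v, t) (0, 1)) = t) ∧
      (∀ v ξ, Q (v, ξ) = ψ (v, w (v, ξ)) - ξ * w (v, ξ)) ∧
      (∀ v ξ δ τ, fderiv ℝ w (v, ξ) (δ, τ) =
        (τ - fderiv ℝ (fderiv ℝ ψ) (v, w (v, ξ)) (δ, 0) (0, 1)) /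
          fderiv ℝ (fderiv ℝ ψ) (v, w (v, ξ)) (0, 1) (0, 1)) ∧
      (∀ v ξ δ τ, fderiv ℝ Q (v, ξ) (δ, τ) =
        fderiv ℝ ψ (v, w (v, ξ)) (δ, 0) - τ * w (v, ξ)) ∧
      (∀ v ξ δ δ', fderiv ℝ (fderiv ℝ Q) (v, ξ) (δ, 0) (δ', 0) =
        fderiv ℝ (fderiv ℝ ψ) (v, w (v, ξ)) (δ, 0) (δ', 0) -
          fderiv ℝ (fderiv ℝ ψ) (v, w (v, ξ)) (δ, 0) (0, 1) *
          fderiv ℝ (fderiv ℝ ψ) (v, w (v, ξ)) (0, 1) (δ', 0) /
            fderiv ℝ (fderiv ℝ ψ) (v, w (v, ξ)) (0, 1) (0, 1)) := by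
  obtain ⟨C, hC⟩ := imp V A c hc
  refine ⟨C, fun ψ hψ hb hs => ?_⟩
  rcases hs with hs | hs
  · exact hC ψ hψ hb hs
  -- the other sign: `-ψ`
  have hneg1 : fderiv ℝ (fun p => -ψ p) = fun p => -fderiv ℝ ψ p := by
    ext1 p
    exact fderiv_neg
  have hneg2 : fderiv ℝ (fderiv ℝ (fun p => -ψ p)) = fun p => -fderiv ℝ (fderiv ℝ ψ) p := by
    rw [hneg1]
    ext1 p
    exact fderiv_neg
  obtain ⟨w, Q, hw, hwb, hQ, hQb, h1, h2, h3, h4, h5, h6⟩ := hC (fun p => -ψ p) hψ.neg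
    (fun j hj p => by
      have : iteratedFDeriv ℝ j (fun p => -ψ p) p = -iteratedFDeriv ℝ j ψ p :=
        iteratedFDeriv_neg_apply
      rw [this, norm_neg]
      exact hb j hj p)
    (fun p => by
      rw [hneg2]
      have := hs p
      simp only [neg_apply]
      linarith)
  rw [hneg2] at h4 h6
  rw [hneg1] at h1 h2 h5
  simp only [neg_apply] at h1 h2 h4 h5 h6
  have hwd : ∀ y, HasFDerivAt (fun y => w (refl2 V y)) ((fderiv ℝ w (refl2 V y)).comp (refl2 V)) y :=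
    fun y => (hw.differentiable (by simp) _).hasFDerivAt.comp y (refl2 V).hasFDerivAt
  have hQd : ∀ y, HasFDerivAt (fun y => -Q (refl2 V y))
      (-(fderiv ℝ Q (refl2 V y)).comp (refl2 V)) y :=
    fun y => ((hQ.differentiable (by simp) _).hasFDerivAt.comp y (refl2 V).hasFDerivAt).neg
  have hQd2 : fderiv ℝ (fun y => -Q (refl2 V y))
      = fun y => -(fderiv ℝ Q (refl2 V y)).comp (refl2 V) := by
    ext1 y
    exact (hQd y).fderiv
  refine ⟨fun y => w (refl2 V y), fun y => -Q (refl2 V y), hw.comp (refl2 V).contDiff,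
    fun j hj y => (norm_iter_refl2 hw j y).trans (hwb j hj _),
    (hQ.comp (refl2 V).contDiff).neg, fun j hj y => ?_, fun v ξ => ?_, fun v t => ?_,
    fun v ξ => ?_, fun v ξ δ τ => ?_, fun v ξ δ τ => ?_, fun v ξ δ δ' => ?_⟩
  · have : iteratedFDeriv ℝ j (fun y => -Q (refl2 V y)) y
        = -iteratedFDeriv ℝ j (fun y => Q (refl2 V y)) y := iteratedFDeriv_neg_apply
    rw [this, norm_neg]
    exact (norm_iter_refl2 hQ j y).trans (hQb j hj _)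
  · have := h1 v (-ξ)
    simp only [refl2_apply]
    linarith
  · simp only [refl2_apply]
    exact h2 v t
  · simp only [refl2_apply]
    rw [h3]
    ring
  · rw [(hwd (v, ξ)).fderiv]
    simp only [ContinuousLinearMap.comp_apply, refl2_apply]
    rw [h4, ← neg_div_neg_eq]
    congr 1
    · ring
    · ring
  · rw [hQd2]
    simp only [neg_apply, ContinuousLinearMap.comp_apply, refl2_apply]
    rw [h5]
    ring
  · have h7 : HasFDerivAt (fun y => -(fderiv ℝ Q (refl2 V y)).comp (refl2 V))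
        (-(((ContinuousLinearMap.compL ℝ (V × ℝ) (V × ℝ) ℝ).flip (refl2 V)).comp
          ((fderiv ℝ (fderiv ℝ Q) (refl2 V (v, ξ))).comp (refl2 V)))) (v, ξ) := by
      refine HasFDerivAt.neg ?_
      refine ((ContinuousLinearMap.compL ℝ (V × ℝ) (V × ℝ) ℝ).flip
        (refl2 V)).hasFDerivAt.comp (v, ξ) ?_
      exact (((hQ.fderiv_right (m := ∞) (by simp)).differentiable (by simp)
        _).hasFDerivAt).comp (v, ξ) (refl2 V).hasFDerivAt
    rw [hQd2, h7.fderiv]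
    simp only [neg_apply, ContinuousLinearMap.comp_apply, ContinuousLinearMap.flip_apply,
      ContinuousLinearMap.compL_apply, refl2_apply, neg_zero]
    rw [h6]
    rw [neg_sub, neg_mul_neg, div_neg]
    ring

end Pool.Agent.GNP
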