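import Pool.Agent.GNP.LIN
import Pool.Agent.GNP.IMPs

/-! ## LEG: the partial Legendre transform of one cell, in original units -/

namespace Pool.Agent.GNP

open Set Filter Topology
open scoped ContDiff Nat

section Formulas

variable {V : Type*} [NormedAddCommGroup V] [NormedSpace ℝ V]

/-- The iterated derivatives of a slice. -/
theorem norm_iter_slice {W : Type*} [NormedAddCommGroup W] [NormedSpace ℝ W] {f : V × ℝ → W}
    (hf : ContDiff ℝ ∞ f) (ξ : ℝ) (j : ℕ) (v : V) :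
    ‖iteratedFDeriv ℝ j (fun v => f (v, ξ)) v‖ ≤ ‖iteratedFDeriv ℝ j f (v, ξ)‖ := by
  set g : V × ℝ → W := fun y => f (y + (0, ξ)) with hg
  have hgs : ContDiff ℝ ∞ g := hf.comp (contDiff_id.add contDiff_const)
  have h1 := (ContinuousLinearMap.inl ℝ V ℝ).iteratedFDeriv_comp_right (i := j) (n := ∞) hgs v
    (by exact_mod_cast le_top)
  have h2 : (fun v => f (v, ξ)) = g ∘ (ContinuousLinearMap.inl ℝ V ℝ) := by
    funext v
    simp [hg]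
  rw [h2, h1]
  refine (ContinuousMultilinearMap.norm_compContinuousLinearMap_le _ _).trans ?_
  have h3 : ∏ _i : Fin j, ‖ContinuousLinearMap.inl ℝ V ℝ‖ ≤ 1 :=
    Finset.prod_le_one (fun _ _ => norm_nonneg _) fun _ _ =>
      ContinuousLinearMap.norm_inl_le_one ℝ V ℝ
  have h4 : iteratedFDeriv ℝ j g (ContinuousLinearMap.inl ℝ V ℝ v)
      = iteratedFDeriv ℝ j f (v, ξ) := by
    rw [hg, iteratedFDeriv_comp_add_right]
    simp
  rw [h4]
  calc ‖iteratedFDeriv ℝ j f (v, ξ)‖ * ∏ _i : Fin j, ‖ContinuousLinearMap.inl ℝ V ℝ‖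
      ≤ ‖iteratedFDeriv ℝ j f (v, ξ)‖ * 1 := by gcongr
    _ = _ := mul_one _

theorem fderiv_dw {ψ : V × ℝ → ℝ} (hψ : ContDiff ℝ ∞ ψ) (p δ : V × ℝ) :
    fderiv ℝ (dw ψ) p δ = fderiv ℝ (fderiv ℝ ψ) p δ (0, 1) := by
  have h1 : HasFDerivAt (fun p => (ContinuousLinearMap.apply ℝ ℝ ((0, 1) : V × ℝ)) (fderiv ℝ ψ p))
      ((ContinuousLinearMap.apply ℝ ℝ ((0, 1) : V × ℝ)).comp (fderiv ℝ (fderiv ℝ ψ) p)) p :=
    (ContinuousLinearMap.apply ℝ ℝ ((0, 1) : V × ℝ)).hasFDerivAt.comp p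
      ((hψ.fderiv_right (m := ∞) (by simp)).differentiable (by simp) p).hasFDerivAt
  have h2 : dw ψ = fun p => (ContinuousLinearMap.apply ℝ ℝ ((0, 1) : V × ℝ)) (fderiv ℝ ψ p) := rfl
  rw [h2, h1.fderiv]
  rfl

/-- The derivative formulas of a critical point `w` and its reduced phase `Q`. -/
theorem leg_formulas {ψ w Q : V × ℝ → ℝ} (hψ : ContDiff ℝ ∞ ψ) (hw : ContDiff ℝ ∞ w)
    (hQ : ∀ v ξ, Q (v, ξ) = ψ (v, w (v, ξ)) - ξ * w (v, ξ))
    (h1 : ∀ v ξ, fderiv ℝ ψ (v, w (v, ξ)) (0, 1) = ξ)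
    (hne : ∀ v ξ, fderiv ℝ (fderiv ℝ ψ) (v, w (v, ξ)) (0, 1) (0, 1) ≠ 0) :
    (∀ v ξ δ τ, fderiv ℝ w (v, ξ) (δ, τ) =
        (τ - fderiv ℝ (fderiv ℝ ψ) (v, w (v, ξ)) (δ, 0) (0, 1)) /
          fderiv ℝ (fderiv ℝ ψ) (v, w (v, ξ)) (0, 1) (0, 1)) ∧
      (∀ v ξ δ τ, fderiv ℝ Q (v, ξ) (δ, τ) =
        fderiv ℝ ψ (v, w (v, ξ)) (δ, 0) - τ * w (v, ξ)) ∧
      (∀ v ξ δ δ', fderiv ℝ (fderiv ℝ Q) (v, ξ) (δ, 0) (δ', 0) =
        fderiv ℝ (fderiv ℝ ψ) (v, w (v, ξ)) (δ, 0) (δ', 0) -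
          fderiv ℝ (fderiv ℝ ψ) (v, w (v, ξ)) (δ, 0) (0, 1) *
          fderiv ℝ (fderiv ℝ ψ) (v, w (v, ξ)) (0, 1) (δ', 0) /
            fderiv ℝ (fderiv ℝ ψ) (v, w (v, ξ)) (0, 1) (0, 1)) := by
  have hQe : Q = fun y : V × ℝ => ψ (y.1, w y) - y.2 * w y := by
    funext y
    exact hQ y.1 y.2
  have hQsm : ContDiff ℝ ∞ Q := by
    rw [hQe]
    exact (hψ.comp (contDiff_fst.prodMk hw)).sub (contDiff_snd.mul hw)
  have hD1 : ContDiff ℝ ∞ (fderiv ℝ ψ) := hψ.fderiv_right (by simp)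
  have hgs : ContDiff ℝ ∞ (dw ψ) :=
    (ContinuousLinearMap.apply ℝ ℝ ((0, 1) : V × ℝ)).contDiff.comp hD1
  have hwfd : ∀ v ξ δ τ, fderiv ℝ w (v, ξ) (δ, τ) =
        (τ - fderiv ℝ (fderiv ℝ ψ) (v, w (v, ξ)) (δ, 0) (0, 1)) /
          fderiv ℝ (fderiv ℝ ψ) (v, w (v, ξ)) (0, 1) (0, 1) := by
    intro v ξ δ τ
    have k1 : HasFDerivAt (fun y : V × ℝ => dw ψ (y.1, w y))
        ((fderiv ℝ (dw ψ) (v, w (v, ξ))).comp
          ((ContinuousLinearMap.fst ℝ V ℝ).prod (fderiv ℝ w (v, ξ)))) (v, ξ) :=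
      HasFDerivAt.comp (g := dw ψ) (f := fun y : V × ℝ => ((y.1, w y) : V × ℝ)) (v, ξ)
        (hgs.differentiable (by simp) (v, w (v, ξ))).hasFDerivAt
        (hasFDerivAt_fst.prodMk (hw.differentiable (by simp) (v, ξ)).hasFDerivAt)
    have k2 : HasFDerivAt (fun y : V × ℝ => dw ψ (y.1, w y)) (ContinuousLinearMap.snd ℝ V ℝ)
        (v, ξ) := by
      have : (fun y : V × ℝ => dw ψ (y.1, w y)) = fun y => y.2 := by
        ext1 y
        exact h1 y.1 y.2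
      rw [this]
      exact hasFDerivAt_snd
    have k3 := congrArg (fun L : V × ℝ →L[ℝ] ℝ => L (δ, τ)) (k1.unique k2)
    simp only [ContinuousLinearMap.comp_apply, ContinuousLinearMap.prod_apply,
      ContinuousLinearMap.coe_fst', ContinuousLinearMap.coe_snd'] at k3
    rw [clm_pair, fderiv_dw hψ, fderiv_dw hψ] at k3
    rw [eq_div_iff (hne v ξ)]
    linarith
  have hQ1 : ∀ v ξ δ τ, fderiv ℝ Q (v, ξ) (δ, τ) =
        fderiv ℝ ψ (v, w (v, ξ)) (δ, 0) - τ * w (v, ξ) := by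
    intro v ξ δ τ
    rw [hQe, (imp_Q_fderiv hψ hw (fun y => h1 y.1 y.2) (v, ξ)).fderiv]
    simp only [sub_apply, ContinuousLinearMap.comp_apply, ContinuousLinearMap.coe_fst',
      ContinuousLinearMap.inl_apply, smul_apply, ContinuousLinearMap.coe_snd', smul_eq_mul]
    ring
  refine ⟨hwfd, hQ1, fun v ξ δ δ' => ?_⟩
  have k1 : HasFDerivAt (fun y => fderiv ℝ Q y (δ', 0))
      ((ContinuousLinearMap.apply ℝ ℝ ((δ', 0) : V × ℝ)).comp (fderiv ℝ (fderiv ℝ Q) (v, ξ)))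
      (v, ξ) :=
    (ContinuousLinearMap.apply ℝ ℝ ((δ', 0) : V × ℝ)).hasFDerivAt.comp (v, ξ)
      ((hQsm.fderiv_right (m := ∞) (by simp)).differentiable (by simp) (v, ξ)).hasFDerivAt
  have k2 : HasFDerivAt (fun y : V × ℝ => fderiv ℝ ψ (y.1, w y) (δ', 0))
      ((ContinuousLinearMap.apply ℝ ℝ ((δ', 0) : V × ℝ)).comp
        ((fderiv ℝ (fderiv ℝ ψ) (v, w (v, ξ))).comp
          ((ContinuousLinearMap.fst ℝ V ℝ).prod (fderiv ℝ w (v, ξ))))) (v, ξ) := by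
    refine (ContinuousLinearMap.apply ℝ ℝ ((δ', 0) : V × ℝ)).hasFDerivAt.comp (v, ξ) ?_
    exact (hD1.differentiable (by simp) (v, w (v, ξ))).hasFDerivAt.comp (v, ξ)
      (hasFDerivAt_fst.prodMk (hw.differentiable (by simp) (v, ξ)).hasFDerivAt)
  have k3 : (fun y => fderiv ℝ Q y (δ', 0)) = fun y : V × ℝ => fderiv ℝ ψ (y.1, w y) (δ', 0) := by
    ext1 y
    obtain ⟨v, ξ⟩ := y
    rw [hQ1]
    ring
  rw [k3] at k1
  have k4 := congrArg (fun L : V × ℝ →L[ℝ] ℝ => L (δ, 0)) (k1.unique k2)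
  simp only [ContinuousLinearMap.comp_apply, ContinuousLinearMap.prod_apply,
    ContinuousLinearMap.coe_fst', ContinuousLinearMap.apply_apply] at k4
  rw [k4]
  have k5 : ((δ, fderiv ℝ w (v, ξ) (δ, 0)) : V × ℝ)
      = (δ, 0) + (fderiv ℝ w (v, ξ) (δ, 0)) • (0, 1) := by simp
  rw [k5, map_add, map_smul, add_apply, smul_apply, smul_eq_mul, hwfd]
  ring

end Formulas

variable (V : Type*) [NormedAddCommGroup V] [NormedSpace ℝ V] [FiniteDimensional ℝ V]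

/-- **LEG.** The partial Legendre transform of one cell `(z, ρ)` in the last variable. -/
theorem leg (A : ℕ → ℝ) {c : ℝ} (hc : 0 < c) : ∃ κ ∈ Ioo (0 : ℝ) 1, ∃ C : ℕ → ℝ,
    ∀ (R ρ : ℝ), 0 < R → 0 < ρ → ∀ (z : V × ℝ) (q : V × ℝ → ℝ), ContDiff ℝ ∞ q →
      (∀ j, 2 ≤ j → ∀ y, dist y z < ρ → ‖iteratedFDeriv ℝ j q y‖ ≤ A j * (R * ρ ^ 2 / ρ ^ j)) →
      c * R ≤ |fderiv ℝ (fderiv ℝ q) z (0, 1) (0, 1)| →
      ∃ q' w Q : V × ℝ → ℝ, ContDiff ℝ ∞ q' ∧ ContDiff ℝ ∞ w ∧ ContDiff ℝ ∞ Q ∧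
        (∀ y, dist y z < κ * ρ → q' y = q y) ∧
        (∀ j, 2 ≤ j → ∀ y, ‖iteratedFDeriv ℝ j q' y‖ ≤ C j * (R * ρ ^ 2 / ρ ^ j)) ∧
        ((∀ y, c / 2 * R ≤ fderiv ℝ (fderiv ℝ q') y (0, 1) (0, 1)) ∨
          (∀ y, fderiv ℝ (fderiv ℝ q') y (0, 1) (0, 1) ≤ -(c / 2 * R))) ∧
        (∀ v ξ, fderiv ℝ q' (v, w (v, ξ)) (0, 1) = ξ) ∧
        (∀ v t, w (v, fderiv ℝ q' (v, t) (0, 1)) = t) ∧
        (∀ v ξ, Q (v, ξ) = q' (v, w (v, ξ)) - ξ * w (v, ξ)) ∧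
        (∀ j, 1 ≤ j → ∀ ξ v, ‖iteratedFDeriv ℝ j (fun v => w (v, ξ)) v‖ ≤ C j * (ρ / ρ ^ j)) ∧
        (∀ j, 2 ≤ j → ∀ ξ v, ‖iteratedFDeriv ℝ j (fun v => Q (v, ξ)) v‖
          ≤ C j * (R * ρ ^ 2 / ρ ^ j)) ∧
        (∀ v ξ ξ', |w (v, ξ) - w (v, ξ')| ≤ 2 / (c * R) * |ξ - ξ'|) := by
  have hc2 : 0 < c / 2 := by positivity
  obtain ⟨κ, hκ, A', H⟩ := lin (V × ℝ) A hc2
  obtain ⟨C0, hC0⟩ := imp_sign V A' (c / 2) hc2
  refine ⟨κ, hκ, fun j => max (A' j) (C0 j), fun R ρ hR hρ z q hq hA hcz => ?_⟩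
  obtain ⟨q', hq', hqq, hb, hd2⟩ := H R ρ hR hρ z q hq hA
  have hS : 0 < R * ρ ^ 2 := by positivity
  have hRρ : 0 < R * ρ := by positivity
  -- the sign of the second derivative
  have hn01 : ‖((0, 1) : V × ℝ)‖ = 1 := by
    rw [Prod.norm_def]
    simp
  have hclose : ∀ y, |fderiv ℝ (fderiv ℝ q') y (0, 1) (0, 1)
      - fderiv ℝ (fderiv ℝ q) z (0, 1) (0, 1)| ≤ c / 2 * R := fun y => by
    have h1 := (fderiv ℝ (fderiv ℝ q') y - fderiv ℝ (fderiv ℝ q) z).le_opNorm₂ (0, 1) (0, 1)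
    rw [hn01, mul_one, mul_one] at h1
    exact h1.trans (hd2 y)
  have hsign : (∀ y, c / 2 * R ≤ fderiv ℝ (fderiv ℝ q') y (0, 1) (0, 1)) ∨
      (∀ y, fderiv ℝ (fderiv ℝ q') y (0, 1) (0, 1) ≤ -(c / 2 * R)) := by
    rcases le_or_gt 0 (fderiv ℝ (fderiv ℝ q) z (0, 1) (0, 1)) with h0 | h0
    · left
      intro y
      rw [abs_of_nonneg h0] at hcz
      have := (abs_le.1 (hclose y)).1
      linarith
    · right
      intro y
      rw [abs_of_neg h0] at hcz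
      have := (abs_le.1 (hclose y)).2
      linarith
  -- the normalised phase
  set f : V × ℝ → ℝ := fun y => q' (ρ • (y - (-(ρ⁻¹ • z)))) with hf
  have hfs : ContDiff ℝ ∞ f := contDiff_aff hq' ρ _
  have hfz : ∀ u : V × ℝ, ρ • (u - (-(ρ⁻¹ • z))) = ρ • u + z := fun u => by
    rw [sub_neg_eq_add, smul_add, smul_smul, mul_inv_cancel₀ hρ.ne', one_smul]
  set ψ : V × ℝ → ℝ := fun u => (R * ρ ^ 2)⁻¹ * f u with hψ
  have hψs : ContDiff ℝ ∞ ψ := contDiff_const.mul hfs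
  have hψv : ∀ u, ψ u = (R * ρ ^ 2)⁻¹ * q' (ρ • u + z) := fun u => by
    simp only [hψ, hf, hfz]
  have hψb : ∀ j, 2 ≤ j → ∀ u, ‖iteratedFDeriv ℝ j ψ u‖ ≤ A' j := fun j hj u => by
    have h1 : ψ = (R * ρ ^ 2)⁻¹ • f := rfl
    have h2 : ContDiff ℝ j f := hfs.of_le (by exact_mod_cast le_top)
    rw [h1, iteratedFDeriv_const_smul_apply h2.contDiffAt, norm_smul, hf,
      norm_iteratedFDeriv_aff_real j hq', hfz, abs_of_pos hρ, norm_inv, Real.norm_eq_abs,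
      abs_of_pos hS]
    calc (R * ρ ^ 2)⁻¹ * (ρ ^ j * ‖iteratedFDeriv ℝ j q' (ρ • u + z)‖)
        ≤ (R * ρ ^ 2)⁻¹ * (ρ ^ j * (A' j * (R * ρ ^ 2 / ρ ^ j))) := by
          gcongr
          exact hb j hj _
      _ = A' j := by field_simp
  have hψ1 : fderiv ℝ ψ = fun u => (R * ρ)⁻¹ • fderiv ℝ q' (ρ • u + z) := by
    funext u
    have h1 : ψ = (R * ρ ^ 2)⁻¹ • f := rfl
    rw [h1, fderiv_const_smul (hfs.differentiable (by simp) u), hf, fderiv_aff hq', hfz, smul_smul]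
    congr 1
    field_simp
  have hψ2 : ∀ u, fderiv ℝ (fderiv ℝ ψ) u = R⁻¹ • fderiv ℝ (fderiv ℝ q') (ρ • u + z) := by
    intro u
    have h1 : ψ = (R * ρ ^ 2)⁻¹ • f := rfl
    have h2 : fderiv ℝ ((R * ρ ^ 2)⁻¹ • f) = (R * ρ ^ 2)⁻¹ • fderiv ℝ f := by
      funext y
      exact fderiv_const_smul (hfs.differentiable (by simp) y) _
    have h3 : ContDiff ℝ ∞ (fderiv ℝ f) := hfs.fderiv_right (by exact le_rfl)
    have h4 : fderiv ℝ ((R * ρ ^ 2)⁻¹ • fderiv ℝ f) u =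
        (R * ρ ^ 2)⁻¹ • fderiv ℝ (fderiv ℝ f) u :=
      fderiv_const_smul (h3.differentiable (by simp) u) _
    rw [h1, h2, h4, hf, fderiv2_aff hq' ρ _ u, hfz, smul_smul]
    congr 1
    field_simp
  have hψsign : (∀ p, c / 2 ≤ fderiv ℝ (fderiv ℝ ψ) p (0, 1) (0, 1)) ∨
      (∀ p, fderiv ℝ (fderiv ℝ ψ) p (0, 1) (0, 1) ≤ -(c / 2)) := by
    rcases hsign with h | h
    · left
      intro p
      rw [hψ2]
      simp only [smul_apply, smul_eq_mul]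
      rw [← div_eq_inv_mul, le_div_iff₀ hR]
      exact h _
    · right
      intro p
      rw [hψ2]
      simp only [smul_apply, smul_eq_mul]
      rw [← div_eq_inv_mul, div_le_iff₀ hR, neg_mul]
      exact h _
  obtain ⟨w₀, Q₀, hw₀, hw₀b, hQ₀, hQ₀b, e1, e2, e3, -, -, -⟩ := hC0 ψ hψs hψb hψsign
  -- back to the original units
  set w : V × ℝ → ℝ := fun y => ρ * w₀ (ρ⁻¹ • (y.1 - z.1), (R * ρ)⁻¹ * y.2) + z.2 with hw
  have hpt : ∀ v ξ, ρ • ((ρ⁻¹ • (v - z.1), w₀ (ρ⁻¹ • (v - z.1), (R * ρ)⁻¹ * ξ)) : V × ℝ) + z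
      = (v, w (v, ξ)) := fun v ξ => by
    refine Prod.ext ?_ ?_
    · simp only [Prod.smul_mk, Prod.fst_add]
      rw [smul_smul, mul_inv_cancel₀ hρ.ne', one_smul, sub_add_cancel]
    · simp only [Prod.smul_mk, Prod.snd_add, smul_eq_mul, hw]
  have harg : ContDiff ℝ ∞ (fun y : V × ℝ => ((ρ⁻¹ • (y.1 - z.1), (R * ρ)⁻¹ * y.2) : V × ℝ)) :=
    ((contDiff_fst.sub contDiff_const).const_smul _).prodMk (contDiff_const.mul contDiff_snd)
  have hws : ContDiff ℝ ∞ w := (contDiff_const.mul (hw₀.comp harg)).add contDiff_const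
  set Q : V × ℝ → ℝ := fun y => q' (y.1, w y) - y.2 * w y with hQ
  have hQs : ContDiff ℝ ∞ Q :=
    (hq'.comp (contDiff_fst.prodMk hws)).sub (contDiff_snd.mul hws)
  have hcrit : ∀ v ξ, fderiv ℝ q' (v, w (v, ξ)) (0, 1) = ξ := fun v ξ => by
    have h1 := e1 (ρ⁻¹ • (v - z.1)) ((R * ρ)⁻¹ * ξ)
    rw [hψ1] at h1
    simp only [smul_apply, smul_eq_mul] at h1
    rw [hpt] at h1
    exact mul_left_cancel₀ (inv_ne_zero hRρ.ne') h1
  have hQe : ∀ v ξ, Q (v, ξ) = R * ρ ^ 2 * Q₀ (ρ⁻¹ • (v - z.1), (R * ρ)⁻¹ * ξ) - ξ * z.2 :=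
    fun v ξ => by
    rw [e3, hψv, hpt]
    simp only [hQ, hw]
    field_simp
    ring
  refine ⟨q', w, Q, hq', hws, hQs, hqq, fun j hj y => (hb j hj y).trans ?_, hsign, hcrit,
    fun v t => ?_, fun v ξ => rfl, fun j hj ξ v => ?_, fun j hj ξ v => ?_, fun v ξ ξ' => ?_⟩
  · gcongr
    exact le_max_left _ _
  · -- uniqueness
    have h1 := e2 (ρ⁻¹ • (v - z.1)) (ρ⁻¹ * (t - z.2))
    have h2 : ρ • ((ρ⁻¹ • (v - z.1), ρ⁻¹ * (t - z.2)) : V × ℝ) + z = (v, t) := by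
      refine Prod.ext ?_ ?_
      · simp only [Prod.smul_mk, Prod.fst_add]
        rw [smul_smul, mul_inv_cancel₀ hρ.ne', one_smul, sub_add_cancel]
      · simp only [Prod.smul_mk, Prod.snd_add, smul_eq_mul]
        field_simp
        ring
    rw [hψ1] at h1
    simp only [smul_apply, smul_eq_mul] at h1
    rw [h2] at h1
    simp only [hw]
    rw [h1]
    field_simp
    ring
  · -- the bounds of `w`
    set g : V → ℝ := fun u => w₀ (u, (R * ρ)⁻¹ * ξ) with hg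
    have hgs : ContDiff ℝ ∞ g := hw₀.comp (contDiff_id.prodMk contDiff_const)
    have hge : (fun v => w (v, ξ)) = (ρ • fun v => g (ρ⁻¹ • (v - z.1))) + fun _ => z.2 := by
      funext v
      simp [hw, hg]
    have h2 : ContDiff ℝ j (fun v => g (ρ⁻¹ • (v - z.1))) :=
      (contDiff_aff hgs ρ⁻¹ z.1).of_le (by exact_mod_cast le_top)
    have h2' : ContDiff ℝ j (ρ • fun v => g (ρ⁻¹ • (v - z.1))) := h2.const_smul ρ
    rw [hge, iteratedFDeriv_add_apply h2'.contDiffAt contDiff_const.contDiffAt,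
      iteratedFDeriv_const_smul_apply h2.contDiffAt, iteratedFDeriv_const_of_ne (by omega),
      Pi.zero_apply, add_zero, norm_smul, norm_iteratedFDeriv_aff_real j hgs, Real.norm_eq_abs,
      abs_of_pos hρ, abs_of_pos (by positivity : (0 : ℝ) < ρ⁻¹)]
    have h3 : ‖iteratedFDeriv ℝ j g (ρ⁻¹ • (v - z.1))‖ ≤ C0 j :=
      (norm_iter_slice hw₀ _ j _).trans (hw₀b j hj _)
    calc ρ * (ρ⁻¹ ^ j * ‖iteratedFDeriv ℝ j g (ρ⁻¹ • (v - z.1))‖)
        ≤ ρ * (ρ⁻¹ ^ j * max (A' j) (C0 j)) := by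
          gcongr
          exact h3.trans (le_max_right _ _)
      _ = max (A' j) (C0 j) * (ρ / ρ ^ j) := by
          rw [inv_pow]
          field_simp
  · -- the bounds of `Q`
    set g : V → ℝ := fun u => Q₀ (u, (R * ρ)⁻¹ * ξ) with hg
    have hgs : ContDiff ℝ ∞ g := hQ₀.comp (contDiff_id.prodMk contDiff_const)
    have hge : (fun v => Q (v, ξ))
        = ((R * ρ ^ 2) • fun v => g (ρ⁻¹ • (v - z.1))) + fun _ => -(ξ * z.2) := by
      funext v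
      rw [hQe]
      simp [hg, sub_eq_add_neg]
    have h2 : ContDiff ℝ j (fun v => g (ρ⁻¹ • (v - z.1))) :=
      (contDiff_aff hgs ρ⁻¹ z.1).of_le (by exact_mod_cast le_top)
    have h2' : ContDiff ℝ j ((R * ρ ^ 2) • fun v => g (ρ⁻¹ • (v - z.1))) :=
      h2.const_smul (R * ρ ^ 2)
    rw [hge, iteratedFDeriv_add_apply h2'.contDiffAt contDiff_const.contDiffAt,
      iteratedFDeriv_const_smul_apply h2.contDiffAt, iteratedFDeriv_const_of_ne (by omega),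
      Pi.zero_apply, add_zero, norm_smul, norm_iteratedFDeriv_aff_real j hgs, Real.norm_eq_abs,
      abs_of_pos hS, abs_of_pos (by positivity : (0 : ℝ) < ρ⁻¹)]
    have h3 : ‖iteratedFDeriv ℝ j g (ρ⁻¹ • (v - z.1))‖ ≤ C0 j :=
      (norm_iter_slice hQ₀ _ j _).trans (hQ₀b j hj _)
    calc R * ρ ^ 2 * (ρ⁻¹ ^ j * ‖iteratedFDeriv ℝ j g (ρ⁻¹ • (v - z.1))‖)
        ≤ R * ρ ^ 2 * (ρ⁻¹ ^ j * max (A' j) (C0 j)) := by
          gcongr
          exact h3.trans (le_max_right _ _)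
      _ = max (A' j) (C0 j) * (R * ρ ^ 2 / ρ ^ j) := by
          rw [inv_pow]
          field_simp
  · -- Lipschitz in `ξ`
    have hne : ∀ v ξ, fderiv ℝ (fderiv ℝ q') (v, w (v, ξ)) (0, 1) (0, 1) ≠ 0 ∧
        c / 2 * R ≤ |fderiv ℝ (fderiv ℝ q') (v, w (v, ξ)) (0, 1) (0, 1)| := fun v ξ => by
      have hp : 0 < c / 2 * R := by positivity
      rcases hsign with h | h
      · have := h (v, w (v, ξ))
        exact ⟨(lt_of_lt_of_le hp this).ne', by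
          rw [abs_of_pos (lt_of_lt_of_le hp this)]
          exact this⟩
      · have := h (v, w (v, ξ))
        have hneg : fderiv ℝ (fderiv ℝ q') (v, w (v, ξ)) (0, 1) (0, 1) < 0 := by linarith
        exact ⟨hneg.ne, by
          rw [abs_of_neg hneg]
          linarith⟩
    have hfor := (leg_formulas hq' hws (fun v ξ => rfl : ∀ v ξ, Q (v, ξ) =
      q' (v, w (v, ξ)) - ξ * w (v, ξ)) hcrit fun v ξ => (hne v ξ).1).1
    have hder : ∀ t, HasDerivAt (fun t => w (v, t)) (dw w (v, t)) t :=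
      fun t => hasDerivAt_line (hws.differentiable (by simp)) v t
    have hbd : ∀ t, ‖dw w (v, t)‖ ≤ 2 / (c * R) := fun t => by
      rw [dw, hfor]
      have h00 : ((0, 0) : V × ℝ) = 0 := rfl
      rw [h00, map_zero, zero_apply, sub_zero, norm_div, norm_one, Real.norm_eq_abs,
        one_div]
      have h5 := (hne v t).2
      have h6 : 2 / (c * R) = (c / 2 * R)⁻¹ := by field_simp
      rw [h6]
      exact inv_anti₀ (by positivity) h5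
    have := Convex.norm_image_sub_le_of_norm_hasDerivWithin_le (f := fun t => w (v, t))
      (fun t _ => (hder t).hasDerivWithinAt) (fun t _ => hbd t) convex_univ (mem_univ ξ')
      (mem_univ ξ)
    simpa [Real.norm_eq_abs] using this

end Pool.Agent.GNP
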