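import Pool.Agent.GNP.Defs5
import Pool.Agent.GNP.LEG
import Pool.Agent.GNP.N5Cov
import Pool.Agent.GNP.P0x

/-!
Every smooth phase, all dimensions, row CELL, part a: the slices of a cell, geometry.
-/

namespace Pool.Agent.GNP

open MeasureTheory Set Pool.Agent.MP_6cbfb8_an
open scoped ENNReal Real RealInnerProductSpace ContDiff

variable {m : ℕ}

/-- The linear homeomorphism `(v, w) ↦ U (join v w)`. -/
noncomputable def ceT (U : E (m + 1) ≃ₗᵢ[ℝ] E (m + 1)) : (E m × ℝ) ≃L[ℝ] E (m + 1) :=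
  (joinL m).trans U.toContinuousLinearEquiv

theorem ceT_apply (U : E (m + 1) ≃ₗᵢ[ℝ] E (m + 1)) (p : E m × ℝ) :
    ceT U p = U (join p.1 p.2) := rfl

theorem ceT_norm_le (U : E (m + 1) ≃ₗᵢ[ℝ] E (m + 1)) (p : E m × ℝ) :
    ‖ceT U p‖ ≤ √2 * ‖p‖ := by
  rw [ceT_apply, U.norm_map]
  exact j5_norm_le p

theorem le_ceT_norm (U : E (m + 1) ≃ₗᵢ[ℝ] E (m + 1)) (p : E m × ℝ) : ‖p‖ ≤ ‖ceT U p‖ := by
  rw [ceT_apply, U.norm_map]
  exact j5_le_norm p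

theorem ceT_opNorm_le (U : E (m + 1) ≃ₗᵢ[ℝ] E (m + 1)) :
    ‖(ceT U : (E m × ℝ) →L[ℝ] E (m + 1))‖ ≤ 2 := by
  refine ContinuousLinearMap.opNorm_le_bound _ (by norm_num) fun p => ?_
  refine (ceT_norm_le U p).trans ?_
  have h1 : √2 ≤ 2 := by
    rw [Real.sqrt_le_left (by norm_num)]
    norm_num
  exact mul_le_mul_of_nonneg_right h1 (norm_nonneg _)

theorem ceT_iter {G : Type*} [NormedAddCommGroup G] [NormedSpace ℝ G]
    (U : E (m + 1) ≃ₗᵢ[ℝ] E (m + 1)) {f : E (m + 1) → G} (hf : ContDiff ℝ ∞ f) (j : ℕ)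
    (p : E m × ℝ) :
    ‖iteratedFDeriv ℝ j (fun p => f (ceT U p)) p‖ ≤ 2 ^ j * ‖iteratedFDeriv ℝ j f (ceT U p)‖ := by
  have h1 := (ceT U : (E m × ℝ) →L[ℝ] E (m + 1)).iteratedFDeriv_comp_right (i := j) (n := ∞) hf p
    (by exact_mod_cast le_top)
  have h2 : (fun p => f (ceT U p)) = f ∘ (ceT U : (E m × ℝ) →L[ℝ] E (m + 1)) := rfl
  rw [h2, h1]
  refine (ContinuousMultilinearMap.norm_compContinuousLinearMap_le _ _).trans ?_
  rw [Finset.prod_const, Finset.card_univ, Fintype.card_fin, mul_comm]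
  exact mul_le_mul_of_nonneg_right (pow_le_pow_left₀ (norm_nonneg _) (ceT_opNorm_le U) _)
    (norm_nonneg _)

theorem ceT_hasFDerivAt {G : Type*} [NormedAddCommGroup G] [NormedSpace ℝ G]
    (U : E (m + 1) ≃ₗᵢ[ℝ] E (m + 1)) {f : E (m + 1) → G} (hf : ContDiff ℝ ∞ f) (p : E m × ℝ) :
    HasFDerivAt (fun p => f (ceT U p))
      ((fderiv ℝ f (ceT U p)).comp (ceT U : (E m × ℝ) →L[ℝ] E (m + 1))) p := by
  have h1 : HasFDerivAt f (fderiv ℝ f (ceT U p)) (ceT U p) :=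
    (hf.differentiable (by simp) _).hasFDerivAt
  exact h1.comp p (ceT U : (E m × ℝ) →L[ℝ] E (m + 1)).hasFDerivAt

theorem ceT_fderiv (U : E (m + 1) ≃ₗᵢ[ℝ] E (m + 1)) {q : E (m + 1) → ℝ} (hq : ContDiff ℝ ∞ q)
    (p δ : E m × ℝ) :
    fderiv ℝ (fun p => q (ceT U p)) p δ = ⟪gr q (ceT U p), ceT U δ⟫ := by
  rw [(ceT_hasFDerivAt U hq p).fderiv, inner_gr]
  rfl

theorem ceT_fderiv2 (U : E (m + 1) ≃ₗᵢ[ℝ] E (m + 1)) {q : E (m + 1) → ℝ} (hq : ContDiff ℝ ∞ q)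
    (p δ δ' : E m × ℝ) :
    fderiv ℝ (fderiv ℝ (fun p => q (ceT U p))) p δ δ' =
      ⟪Hs q (ceT U p) (ceT U δ), ceT U δ'⟫ := by
  have h1 : ContDiff ℝ ∞ (fderiv ℝ q) := hq.fderiv_right (by exact le_rfl)
  have h2 : fderiv ℝ (fun p => q (ceT U p)) = fun p =>
      (fderiv ℝ q (ceT U p)).comp (ceT U : (E m × ℝ) →L[ℝ] E (m + 1)) := by
    funext p
    exact (ceT_hasFDerivAt U hq p).fderiv
  have h3 : HasFDerivAt (fun p => (fderiv ℝ q (ceT U p)).comp (ceT U : (E m × ℝ) →L[ℝ] E (m + 1)))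
      (((ContinuousLinearMap.compL ℝ (E m × ℝ) (E (m + 1)) ℝ).flip
        (ceT U : (E m × ℝ) →L[ℝ] E (m + 1))).comp
        ((fderiv ℝ (fderiv ℝ q) (ceT U p)).comp (ceT U : (E m × ℝ) →L[ℝ] E (m + 1)))) p :=
    ((ContinuousLinearMap.compL ℝ (E m × ℝ) (E (m + 1)) ℝ).flip
      (ceT U : (E m × ℝ) →L[ℝ] E (m + 1))).hasFDerivAt.comp p (ceT_hasFDerivAt U h1 p)
  rw [h2, h3.fderiv, inner_Hs hq]
  rfl

theorem ceT_contDiff {G : Type*} [NormedAddCommGroup G] [NormedSpace ℝ G]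
    (U : E (m + 1) ≃ₗᵢ[ℝ] E (m + 1)) {f : E (m + 1) → G} (hf : ContDiff ℝ ∞ f) :
    ContDiff ℝ ∞ (fun p => f (ceT U p)) :=
  hf.comp (ceT U : (E m × ℝ) →L[ℝ] E (m + 1)).contDiff

/-- What `leg` gives. -/
structure CeL (m : ℕ) (C : ℕ → ℝ) (c κ R ρ : ℝ) (z : E m × ℝ) (F q w Q : E m × ℝ → ℝ) :
    Prop where
  smF : ContDiff ℝ ∞ F
  smq : ContDiff ℝ ∞ q
  smw : ContDiff ℝ ∞ w
  smQ : ContDiff ℝ ∞ Q
  eq : ∀ y, dist y z < κ * ρ → q y = F y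
  bdq : ∀ j, 2 ≤ j → ∀ y, ‖iteratedFDeriv ℝ j q y‖ ≤ C j * (R * ρ ^ 2 / ρ ^ j)
  sgn : (∀ y, c / 2 * R ≤ fderiv ℝ (fderiv ℝ q) y (0, 1) (0, 1)) ∨
    (∀ y, fderiv ℝ (fderiv ℝ q) y (0, 1) (0, 1) ≤ -(c / 2 * R))
  crit : ∀ v ξ, fderiv ℝ q (v, w (v, ξ)) (0, 1) = ξ
  inv : ∀ v t, w (v, fderiv ℝ q (v, t) (0, 1)) = t
  Qdef : ∀ v ξ, Q (v, ξ) = q (v, w (v, ξ)) - ξ * w (v, ξ)
  bdw : ∀ j, 1 ≤ j → ∀ ξ v, ‖iteratedFDeriv ℝ j (fun v => w (v, ξ)) v‖ ≤ C j * (ρ / ρ ^ j)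
  bdQ : ∀ j, 2 ≤ j → ∀ ξ v, ‖iteratedFDeriv ℝ j (fun v => Q (v, ξ)) v‖ ≤
    C j * (R * ρ ^ 2 / ρ ^ j)

theorem ce_leg (m : ℕ) (A : ℕ → ℝ) {c : ℝ} (hc : 0 < c) : ∃ κ ∈ Ioo (0 : ℝ) 1, ∃ C : ℕ → ℝ,
    ∀ (R ρ : ℝ), 0 < R → 0 < ρ → ∀ (z : E m × ℝ) (F : E m × ℝ → ℝ), ContDiff ℝ ∞ F →
      (∀ j, 2 ≤ j → ∀ y, dist y z < ρ → ‖iteratedFDeriv ℝ j F y‖ ≤ A j * (R * ρ ^ 2 / ρ ^ j)) →
      c * R ≤ |fderiv ℝ (fderiv ℝ F) z (0, 1) (0, 1)| →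
      ∃ q w Q : E m × ℝ → ℝ, CeL m C c κ R ρ z F q w Q := by
  obtain ⟨κ, hκ, C, H⟩ := leg (E m) A hc
  refine ⟨κ, hκ, C, fun R ρ hR hρ z F hF hA hcz => ?_⟩
  obtain ⟨q, w, Q, h1, h2, h3, h4, h5, h6, h7, h8, h9, h10, h11, _⟩ := H R ρ hR hρ z F hF hA hcz
  exact ⟨q, w, Q, hF, h1, h2, h3, h4, h5, h6, h7, h8, h9, h10, h11⟩

section

variable {C : ℕ → ℝ} {c κ R ρ : ℝ} {z : E m × ℝ} {F q w Q : E m × ℝ → ℝ}

theorem CeL.abs_dd_le (h : CeL m C c κ R ρ z F q w Q) (hρ : 0 < ρ) (y : E m × ℝ) :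
    |fderiv ℝ (fderiv ℝ q) y (0, 1) (0, 1)| ≤ C 2 * R := by
  have h1 := (fderiv ℝ (fderiv ℝ q) y).le_opNorm₂ (0, 1) (0, 1)
  have hn01 : ‖((0, 1) : E m × ℝ)‖ = 1 := by
    rw [Prod.norm_def]
    simp
  rw [hn01, mul_one, mul_one] at h1
  refine h1.trans ?_
  have h2 := h.bdq 2 le_rfl y
  rw [norm_fderiv2]
  have h3 : R * ρ ^ 2 / ρ ^ 2 = R := by field_simp
  rwa [h3] at h2

theorem CeL.dd_ne (h : CeL m C c κ R ρ z F q w Q) (hc : 0 < c) (hR : 0 < R) (y : E m × ℝ) :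
    fderiv ℝ (fderiv ℝ q) y (0, 1) (0, 1) ≠ 0 := by
  have hcR : 0 < c / 2 * R := by positivity
  rcases h.sgn with h1 | h1
  · exact (lt_of_lt_of_le hcR (h1 y)).ne'
  · have := h1 y
    intro h2
    rw [h2] at this
    linarith

theorem CeL.le_abs_dd (h : CeL m C c κ R ρ z F q w Q) (y : E m × ℝ) :
    c / 2 * R ≤ |fderiv ℝ (fderiv ℝ q) y (0, 1) (0, 1)| := by
  rcases h.sgn with h1 | h1
  · exact (h1 y).trans (le_abs_self _)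
  · have := h1 y
    have h2 := neg_le_abs (fderiv ℝ (fderiv ℝ q) y (0, 1) (0, 1))
    linarith

/-- The change of variables on one line. -/
theorem CeL.cov (h : CeL m C c κ R ρ z F q w Q) (hρ : 0 < ρ) (v : E m) (G : ℝ → ℝ≥0∞)
    (hG : Measurable G) :
    ∫⁻ t, G (w (v, t)) ≤ ENNReal.ofReal (C 2 * R) * ∫⁻ s, G s := by
  have hd : ∀ s : ℝ, HasDerivAt (fun s => fderiv ℝ q (v, s) (0, 1))
      (fderiv ℝ (fderiv ℝ q) (v, s) (0, 1) (0, 1)) s := by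
    intro s
    have h1 : ContDiff ℝ ∞ (fderiv ℝ q) := h.smq.fderiv_right (by exact le_rfl)
    have h2 : HasFDerivAt (fderiv ℝ q) (fderiv ℝ (fderiv ℝ q) (v, s)) (v, s) :=
      (h1.differentiable (by simp) _).hasFDerivAt
    have h3 : HasDerivAt (fun s : ℝ => ((v, s) : E m × ℝ)) (0, 1) s :=
      (hasDerivAt_const s v).prodMk (hasDerivAt_id s)
    have h4 : HasDerivAt (fun s => fderiv ℝ q (v, s)) (fderiv ℝ (fderiv ℝ q) (v, s) (0, 1)) s :=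
      h2.comp_hasDerivAt s h3
    have h5 := (ContinuousLinearMap.apply ℝ ℝ ((0, 1) : E m × ℝ)).hasFDerivAt.comp_hasDerivAt s h4
    exact h5
  have h1 := cov_eq (X := Unit) (Measure.dirac ()) (fun _ s => fderiv ℝ q (v, s) (0, 1))
    (fun _ s => fderiv ℝ (fderiv ℝ q) (v, s) (0, 1) (0, 1)) (fun _ t => w (v, t))
    (fun _ s => hd s) (fun _ s => h.inv v s) (fun _ t => h.crit v t)
    (by
      have : Continuous fun x : Unit × ℝ => w (v, x.2) :=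
        h.smw.continuous.comp (continuous_const.prodMk continuous_snd)
      exact this.measurable)
    (fun _ s => G s) (by exact hG.comp measurable_snd)
  simp only [lintegral_dirac] at h1
  rw [h1, ← lintegral_const_mul _ hG]
  refine lintegral_mono fun s => ?_
  exact mul_le_mul_left (ENNReal.ofReal_le_ofReal (h.abs_dd_le hρ (v, s))) _

/-- The critical point moves slowly. -/
theorem CeL.w_lip (h : CeL m C c κ R ρ z F q w Q) (hρ : 0 < ρ) (t : ℝ) (u v : E m) :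
    |w (u, t) - w (v, t)| ≤ C 1 * ‖u - v‖ := by
  have h1 : ContDiff ℝ ∞ (fun v => w (v, t)) := h.smw.comp (contDiff_id.prodMk contDiff_const)
  have h2 := (convex_univ (𝕜 := ℝ) (E := E m)).norm_image_sub_le_of_norm_fderiv_le (𝕜 := ℝ)
    (f := fun v => w (v, t)) (C := C 1) (x := v) (y := u)
    (fun x _ => h1.differentiable (by simp) x)
    (fun x _ => by
      have h3 := h.bdw 1 le_rfl t x
      have h4 : ρ / ρ ^ 1 = 1 := by field_simp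
      rw [norm_iteratedFDeriv_one, h4, mul_one] at h3
      exact h3) (mem_univ _) (mem_univ _)
  exact h2

theorem CeL.ev (h : CeL m C c κ R ρ z F q w Q) {y : E m × ℝ} (hy : dist y z < κ * ρ) :
    q =ᶠ[nhds y] F := by
  have h1 : Metric.ball z (κ * ρ) ∈ nhds y := Metric.isOpen_ball.mem_nhds hy
  filter_upwards [h1] with x hx
  exact h.eq x hx

theorem CeL.fd (h : CeL m C c κ R ρ z F q w Q) {y : E m × ℝ} (hy : dist y z < κ * ρ) :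
    fderiv ℝ q y = fderiv ℝ F y := (h.ev hy).fderiv_eq

theorem CeL.fd2 (h : CeL m C c κ R ρ z F q w Q) {y : E m × ℝ} (hy : dist y z < κ * ρ) :
    fderiv ℝ (fderiv ℝ q) y = fderiv ℝ (fderiv ℝ F) y := (h.ev hy).fderiv.fderiv_eq

/-- The derivative of the reduced phase. -/
theorem CeL.Q_fd (h : CeL m C c κ R ρ z F q w Q) (hc : 0 < c) (hR : 0 < R) (t : ℝ) (u x : E m) :
    fderiv ℝ (fun u => Q (u, t)) u x = fderiv ℝ q (u, w (u, t)) (x, 0) := by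
  have h1 := (leg_formulas h.smq h.smw h.Qdef h.crit (fun v ξ => h.dd_ne hc hR _)).2.1 u t x 0
  have h2 : HasFDerivAt Q (fderiv ℝ Q (u, t)) (u, t) :=
    (h.smQ.differentiable (by simp) _).hasFDerivAt
  have h3 : HasFDerivAt (fun u : E m => ((u, t) : E m × ℝ))
      ((ContinuousLinearMap.id ℝ (E m)).prod 0) u :=
    (hasFDerivAt_id u).prodMk (hasFDerivAt_const t u)
  have h4 : HasFDerivAt (fun u => Q (u, t))
      ((fderiv ℝ Q (u, t)).comp ((ContinuousLinearMap.id ℝ (E m)).prod 0)) u := h2.comp u h3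
  rw [h4.fderiv]
  simp only [ContinuousLinearMap.comp_apply, ContinuousLinearMap.prod_apply,
    ContinuousLinearMap.id_apply, zero_apply]
  rw [h1, zero_mul, sub_zero]

end

theorem div_pow_anti {a b : ℝ} (ha : 0 < a) (hab : a ≤ b) {k j : ℕ} (hkj : k ≤ j) :
    b ^ k / b ^ j ≤ a ^ k / a ^ j := by
  obtain ⟨i, rfl⟩ := Nat.exists_eq_add_of_le hkj
  have hb : 0 < b := lt_of_lt_of_le ha hab
  have h1 : b ^ k / b ^ (k + i) = (b ^ i)⁻¹ := by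
    rw [pow_add]
    field_simp
  have h2 : a ^ k / a ^ (k + i) = (a ^ i)⁻¹ := by
    rw [pow_add]
    field_simp
  rw [h1, h2]
  exact inv_anti₀ (by positivity) (pow_le_pow_left₀ ha.le hab i)

theorem ceT_dist (U : E (m + 1) ≃ₗᵢ[ℝ] E (m + 1)) (p p' : E m × ℝ) :
    ‖ceT U p - ceT U p'‖ ≤ √2 * dist p p' := by
  rw [← map_sub, dist_eq_norm]
  exact ceT_norm_le U _

theorem ceT_dist' (U : E (m + 1) ≃ₗᵢ[ℝ] E (m + 1)) (p p' : E m × ℝ) :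
    dist p p' ≤ ‖ceT U p - ceT U p'‖ := by
  rw [← map_sub, dist_eq_norm]
  exact le_ceT_norm U _

theorem ceT_e (U : E (m + 1) ≃ₗᵢ[ℝ] E (m + 1)) : ceT U ((0, 1) : E m × ℝ) = U (join 0 1) := rfl

/-- The bounds of the critical point and of the reduced phase, at the scale `κ1 ρ`. -/
theorem CeL.bdw' {C : ℕ → ℝ} {c κ R ρ κ1 : ℝ} {z : E m × ℝ} {F q w Q : E m × ℝ → ℝ}
    (h : CeL m C c κ R (ρ / 2) z F q w Q) (hρ : 0 < ρ) (hκ1 : 0 < κ1) (hκ1' : κ1 ≤ 1 / 4)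
    {A' : ℕ → ℝ} (hA' : ∀ j, |C j| ≤ A' j) (j : ℕ) (hj : 1 ≤ j) (t : ℝ) (u : E m) :
    ‖iteratedFDeriv ℝ j (fun u => w (u, t)) u‖ ≤ A' j * (κ1 * ρ) / (κ1 * ρ) ^ j := by
  refine (h.bdw j hj t u).trans ?_
  have h1 := div_pow_anti (k := 1) (j := j) (a := κ1 * ρ) (b := ρ / 2) (by positivity)
    (by nlinarith) hj
  rw [pow_one, pow_one] at h1
  have h2 : C j ≤ A' j := (le_abs_self _).trans (hA' j)
  have h3 : 0 ≤ A' j := (abs_nonneg _).trans (hA' j)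
  rw [mul_div_assoc]
  have h4 : 0 ≤ ρ / 2 / (ρ / 2) ^ j := by positivity
  exact (mul_le_mul_of_nonneg_right h2 h4).trans (mul_le_mul_of_nonneg_left h1 h3)

theorem CeL.bdQ' {C : ℕ → ℝ} {c κ R ρ κ1 : ℝ} {z : E m × ℝ} {F q w Q : E m × ℝ → ℝ}
    (h : CeL m C c κ R (ρ / 2) z F q w Q) (hR : 0 < R) (hρ : 0 < ρ) (hκ1 : 0 < κ1)
    (hκ1' : κ1 ≤ 1 / 4) {A' : ℕ → ℝ} (hA' : ∀ j, |C j| ≤ A' j) (j : ℕ) (hj : 2 ≤ j) (t : ℝ)
    (u : E m) : ‖iteratedFDeriv ℝ j (fun u => Q (u, t)) u‖ ≤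
      A' j * (R * (κ1 * ρ) ^ 2) / (κ1 * ρ) ^ j := by
  refine (h.bdQ j hj t u).trans ?_
  have h1 := div_pow_anti (k := 2) (j := j) (a := κ1 * ρ) (b := ρ / 2) (by positivity)
    (by nlinarith) hj
  have h2 : C j ≤ A' j := (le_abs_self _).trans (hA' j)
  have h3 : 0 ≤ A' j := (abs_nonneg _).trans (hA' j)
  have h4 : 0 ≤ (ρ / 2) ^ 2 / (ρ / 2) ^ j := by positivity
  calc C j * (R * (ρ / 2) ^ 2 / (ρ / 2) ^ j) = (C j * R) * ((ρ / 2) ^ 2 / (ρ / 2) ^ j) := by ring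
    _ ≤ (A' j * R) * ((ρ / 2) ^ 2 / (ρ / 2) ^ j) := by gcongr
    _ ≤ (A' j * R) * ((κ1 * ρ) ^ 2 / (κ1 * ρ) ^ j) := by gcongr
    _ = A' j * (R * (κ1 * ρ) ^ 2) / (κ1 * ρ) ^ j := by ring

/-- The active times. -/
theorem ce_act {A A' C : ℕ → ℝ} {c κ κ1 R ρ : ℝ} {U : E (m + 1) ≃ₗᵢ[ℝ] E (m + 1)}
    {q0 : E (m + 1) → ℝ} (hq0 : ContDiff ℝ ∞ q0) {p0 : E m × ℝ} {q w Q : E m × ℝ → ℝ}
    (h : CeL m C c κ R (ρ / 2) p0 (fun p => q0 (ceT U p)) q w Q) (hc : 0 < c) (hR : 0 < R)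
    (hρ : 0 < ρ) (hκ : κ < 1) (hκ1 : 0 < κ1) (hκ1' : κ1 ≤ 1 / 4)
    (hκκ : κ1 * (2 * |C 1| + 2) < κ / 2)
    (hb : ∀ y, ‖y - ceT U p0‖ ≤ ρ → ‖iteratedFDeriv ℝ 2 q0 y‖ ≤ A 2 * (R * ρ ^ 2) / ρ ^ 2)
    (hA0 : 2 / c ≤ A' 0) (hA2 : A 2 ≤ A' 0) (hA' : ∀ j, |C j| ≤ A' j)
    {t : ℝ} (ht : |w (p0.1, t) - p0.2| ≤ κ1 * ρ) {v : E m} (hv : ‖v - p0.1‖ ≤ κ1 * ρ) :
    ‖U (join v (w (v, t))) - ceT U p0‖ < ρ ∧
      Leg A' q0 R (κ1 * ρ) U t v (fun u => w (u, t)) (fun u => Q (u, t)) := by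
  have hC1 : 0 ≤ |C 1| := abs_nonneg _
  have hreg : ∀ u : E m, ‖u - v‖ ≤ κ1 * ρ → dist ((u, w (u, t)) : E m × ℝ) p0 < κ * (ρ / 2) := by
    intro u hu
    have h1 : ‖u - p0.1‖ ≤ 2 * (κ1 * ρ) := by
      have : u - p0.1 = (u - v) + (v - p0.1) := by abel
      rw [this]
      exact (norm_add_le _ _).trans (by linarith)
    have h2 : |w (u, t) - p0.2| ≤ |C 1| * (2 * (κ1 * ρ)) + κ1 * ρ := by
      have h3 := h.w_lip (by positivity) t u p0.1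
      have h4 : C 1 * ‖u - p0.1‖ ≤ |C 1| * (2 * (κ1 * ρ)) :=
        (mul_le_mul_of_nonneg_right (le_abs_self _) (norm_nonneg _)).trans
          (mul_le_mul_of_nonneg_left h1 hC1)
      have h5 : w (u, t) - p0.2 = (w (u, t) - w (p0.1, t)) + (w (p0.1, t) - p0.2) := by ring
      rw [h5]
      exact (abs_add_le _ _).trans (by linarith)
    have h6 : κ1 * (2 * |C 1| + 2) * ρ < κ / 2 * ρ := mul_lt_mul_of_pos_right hκκ hρ
    rw [Prod.dist_eq]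
    refine max_lt ?_ ?_
    · rw [dist_eq_norm]
      have : 0 ≤ κ1 * |C 1| * ρ := by positivity
      nlinarith
    · rw [Real.dist_eq]
      have : 0 ≤ κ1 * ρ := by positivity
      nlinarith
  have hin : ∀ u : E m, ‖u - v‖ ≤ κ1 * ρ → ‖ceT U (u, w (u, t)) - ceT U p0‖ < ρ := by
    intro u hu
    have h1 := hreg u hu
    have h2 : √2 < 2 := by
      rw [Real.sqrt_lt' (by norm_num)]
      norm_num
    have h3 : 0 ≤ dist ((u, w (u, t)) : E m × ℝ) p0 := dist_nonneg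
    have h4 : dist ((u, w (u, t)) : E m × ℝ) p0 < ρ / 2 := h1.trans_le (by nlinarith)
    refine (ceT_dist U _ _).trans_lt ?_
    nlinarith [Real.sqrt_nonneg 2]
  have hrr : 0 < κ1 * ρ := by positivity
  refine ⟨hin v (by simpa using hrr.le), ?_⟩
  have hA'0 : 0 ≤ A' 0 := (abs_nonneg _).trans (hA' 0)
  refine ⟨h.smw.comp (contDiff_id.prodMk contDiff_const),
    h.smQ.comp (contDiff_id.prodMk contDiff_const), ?_, ?_, ?_, ?_, ?_, ?_⟩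
  · intro u hu
    have h1 := ceT_fderiv U hq0 (u, w (u, t)) (0, 1)
    rw [← h.fd (hreg u hu), h.crit] at h1
    exact h1.symm
  · intro u hu x
    have h1 := ceT_fderiv U hq0 (u, w (u, t)) (x, 0)
    rw [← h.fd (hreg u hu), ← h.Q_fd hc hR t u x] at h1
    rw [inner_gr]
    exact h1
  · intro u hu
    have h1 := ceT_fderiv2 U hq0 (u, w (u, t)) (0, 1) (0, 1)
    rw [← h.fd2 (hreg u hu)] at h1
    have h2 := h.le_abs_dd (u, w (u, t))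
    rw [h1] at h2
    have h3 : R ≤ A' 0 * (c / 2 * R) := by
      have h4 : 1 ≤ A' 0 * (c / 2) := by
        rw [div_le_iff₀ hc] at hA0
        linarith
      nlinarith
    exact h3.trans (mul_le_mul_of_nonneg_left h2 hA'0)
  · intro u hu
    refine (norm_Hs_le hq0 _).trans ((hb _ (hin u hu).le).trans ?_)
    have h1 : A 2 * (R * ρ ^ 2) / ρ ^ 2 = A 2 * R := by field_simp
    rw [h1]
    exact mul_le_mul_of_nonneg_right hA2 hR.le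
  · intro j hj u _
    exact h.bdw' hρ hκ1 hκ1' hA' j hj t u
  · intro j hj u _
    exact h.bdQ' hR hρ hκ1 hκ1' hA' j hj t u

end Pool.Agent.GNP
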