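import Pool.Agent.GNP.SPg

/-!
Every smooth phase, all dimensions: stationary phase in one variable with parameters.
-/

namespace Pool.Agent.GNP

open MeasureTheory Set
open scoped ContDiff ComplexConjugate

theorem spp (V : Type) [NormedAddCommGroup V] [NormedSpace ℝ V] [FiniteDimensional ℝ V]
    (A W B : ℕ → ℝ) (c r : ℝ) (hc : 0 < c) (hr : 0 < r) (N : ℕ) : ∃ C : ℕ → ℝ,
    ∀ (τ : ℝ) (ψ : V × ℝ → ℝ) (x : ℝ) (w : V → ℝ) (b : V × ℝ → ℂ), 1 ≤ τ → ContDiff ℝ ∞ ψ →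
      (∀ j, 2 ≤ j → ∀ p, ‖iteratedFDeriv ℝ j ψ p‖ ≤ A j) →
      ((∀ p, c ≤ fderiv ℝ (fderiv ℝ ψ) p (0, 1) (0, 1)) ∨
        (∀ p, fderiv ℝ (fderiv ℝ ψ) p (0, 1) (0, 1) ≤ -c)) →
      ContDiff ℝ ∞ w → (∀ j, 1 ≤ j → ∀ v, ‖iteratedFDeriv ℝ j w v‖ ≤ W j) →
      (∀ v, fderiv ℝ ψ (v, w v) (0, 1) = x) →
      ContDiff ℝ ∞ b → (∀ j p, ‖iteratedFDeriv ℝ j b p‖ ≤ B j) → (∀ p, r < ‖p‖ → b p = 0) →
      ∃ a : V → ℂ, ContDiff ℝ ∞ a ∧ (∀ v, r < ‖v‖ → a v = 0) ∧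
        (∀ j v, ‖iteratedFDeriv ℝ j a v‖ ≤ C j) ∧ (∀ v, ‖a v‖ ≤ C 0 / (1 + |w v|) ^ N) ∧
        (∀ v, 2 * r ≤ |w v| → ‖a v‖ ≤ C 0 / (τ ^ N * (1 + |w v|) ^ N)) ∧
        ∀ v, ∫ s : ℝ, b (v, s) *
          Complex.exp (((τ * (ψ (v, s) - x * s) : ℝ) : ℂ) * Complex.I) =
          ((√τ)⁻¹ : ℝ) *
            (Complex.exp (((τ * (ψ (v, w v) - x * w v) : ℝ) : ℂ) * Complex.I) * a v) := by
  have : ProperSpace V := FiniteDimensional.proper ℝ V
  set J : ℂ →L[ℝ] ℂ := (Complex.conjCLE : ℂ →L[ℝ] ℂ) with hJ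
  have hJn : ∀ z, ‖J z‖ = ‖z‖ := fun z => by
    simp [hJ]
  have hJ1 : ‖J‖ ≤ 1 := ContinuousLinearMap.opNorm_le_bound _ zero_le_one fun z => by
    rw [hJn, one_mul]
  have hJe : ∀ z, J z = conj z := fun z => rfl
  obtain ⟨C, hC⟩ := spp_pos V A W B c r hc hr N
  refine ⟨C, fun τ ψ x w b hτ hψ hA hcc hw hW hcr hb hB hs => ?_⟩
  rcases hcc with hcc | hcc
  · exact hC τ ψ x w b hτ hψ hA hcc hw hW hcr hb hB hs
  have hneg : fderiv ℝ (fun p => -ψ p) = fun p => -fderiv ℝ ψ p := by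
    funext p
    exact fderiv_neg
  obtain ⟨a, ha1, ha2, ha3, ha4, ha5, ha6⟩ := hC τ (fun p => -ψ p) (-x) w (fun p => J (b p)) hτ
    hψ.neg (fun j hj p => by
      have h1 : iteratedFDeriv ℝ j (fun p => -ψ p) p = iteratedFDeriv ℝ j (-ψ) p := rfl
      rw [h1, iteratedFDeriv_neg_apply, norm_neg]
      exact hA j hj p) (fun p => by
      rw [hneg]
      have h1 : fderiv ℝ (fun p => -fderiv ℝ ψ p) p = -fderiv ℝ (fderiv ℝ ψ) p := fderiv_neg
      rw [h1]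
      have := hcc p
      simp only [neg_apply]
      linarith) hw hW (fun v => by
      rw [hneg]
      simp only [neg_apply]
      rw [hcr]) (J.contDiff.comp hb) (fun j p => by
      refine (norm_iter_clm_comp J hb j p).trans ?_
      have h1 := hB j p
      have h0 := norm_nonneg (iteratedFDeriv ℝ j b p)
      nlinarith) (fun p hp => by rw [hs p hp, map_zero])
  refine ⟨fun v => J (a v), J.contDiff.comp ha1, fun v hv => by
      simp only
      rw [ha2 v hv, map_zero], fun j v => ?_, fun v => ?_, fun v hv => ?_, fun v => ?_⟩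
  · refine (norm_iter_clm_comp J ha1 j v).trans ?_
    have h1 := ha3 j v
    have h0 := norm_nonneg (iteratedFDeriv ℝ j a v)
    nlinarith
  · rw [hJn]
    exact ha4 v
  · rw [hJn]
    exact ha5 v hv
  · have h1 := congrArg J (ha6 v)
    rw [hJe, ← integral_conj] at h1
    have h2 : ∀ y : ℝ, conj (Complex.exp ((y : ℂ) * Complex.I)) =
        Complex.exp (((-y : ℝ) : ℂ) * Complex.I) := fun y => by
      rw [← Complex.exp_conj, map_mul, Complex.conj_ofReal, Complex.conj_I]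
      push_cast
      ring_nf
    simp only [hJe, map_mul, Complex.conj_conj, h2, Complex.conj_ofReal] at h1
    have h3 : ∀ s : ℝ, -(τ * (-ψ (v, s) - -x * s)) = τ * (ψ (v, s) - x * s) := fun s => by ring
    simp only [h3] at h1
    exact h1

end Pool.Agent.GNP
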