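import Pool.Agent.GNP.CELLa
import Pool.Agent.GNP.SPPs

/-!
Every smooth phase, all dimensions, row CELL, part b: the amplitude of a slice.
-/

namespace Pool.Agent.GNP

open MeasureTheory Set Pool.Agent.MP_6cbfb8_an
open scoped ENNReal Real RealInnerProductSpace ContDiff

variable {m : ℕ}

/-- The substitution `w = w0 + ρ s`. -/
theorem ce_subst (f : ℝ → ℂ) (w0 : ℝ) {ρ : ℝ} (hρ : 0 < ρ) :
    ∫ w, f w = (ρ : ℂ) * ∫ s, f (w0 + ρ * s) := by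
  have h1 := MeasureTheory.Measure.integral_comp_mul_left (fun y => f (w0 + y)) ρ
  rw [h1, integral_add_left_eq_self f w0, abs_of_pos (by positivity), Complex.real_smul,
    ← mul_assoc]
  have h2 : (ρ : ℂ) * ((ρ⁻¹ : ℝ) : ℂ) = 1 := by
    rw [← Complex.ofReal_mul, mul_inv_cancel₀ hρ.ne', Complex.ofReal_one]
  rw [h2, one_mul]

/-- The integral over one line. -/
theorem ce_line {R ρ : ℝ} (hR : 0 < R) (hρ : 0 < ρ) (p0 : E m × ℝ) {q w Q : E m × ℝ → ℝ} {t : ℝ}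
    (hQ : ∀ v, Q (v, t) = q (v, w (v, t)) - t * w (v, t)) (α : E m × ℝ → ℂ) (v : E m) (A : ℂ)
    (h : ∫ s : ℝ, α (p0 + ρ • (ρ⁻¹ • (v - p0.1), s)) *
        Complex.exp (((R * ρ ^ 2 * ((R * ρ ^ 2)⁻¹ * q (p0 + ρ • (ρ⁻¹ • (v - p0.1), s)) -
          t / (R * ρ) * s) : ℝ) : ℂ) * Complex.I) =
        ((√(R * ρ ^ 2))⁻¹ : ℝ) * (Complex.exp (((R * ρ ^ 2 * ((R * ρ ^ 2)⁻¹ *
          q (p0 + ρ • (ρ⁻¹ • (v - p0.1), ρ⁻¹ * (w (v, t) - p0.2))) -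
            t / (R * ρ) * (ρ⁻¹ * (w (v, t) - p0.2))) : ℝ) : ℂ) * Complex.I) * A)) :
    ∫ s : ℝ, α (v, s) * Complex.exp (((q (v, s) - t * s : ℝ) : ℂ) * Complex.I) =
      ((√R)⁻¹ : ℝ) * (A * Complex.exp (((Q (v, t) : ℝ) : ℂ) * Complex.I)) := by
  have hpt : ∀ s : ℝ, p0 + ρ • (ρ⁻¹ • (v - p0.1), s) = (v, p0.2 + ρ * s) := by
    intro s
    refine Prod.ext ?_ ?_
    · simp [smul_smul, mul_inv_cancel₀ hρ.ne']
    · simp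
  have hw : p0.2 + ρ * (ρ⁻¹ * (w (v, t) - p0.2)) = w (v, t) := by
    field_simp
    ring
  rw [hpt, hw] at h
  simp only [hpt] at h
  rw [ce_subst _ p0.2 hρ]
  have h1 : ∀ s : ℝ, α (v, p0.2 + ρ * s) *
      Complex.exp (((q (v, p0.2 + ρ * s) - t * (p0.2 + ρ * s) : ℝ) : ℂ) * Complex.I) =
      Complex.exp (((-(t * p0.2) : ℝ) : ℂ) * Complex.I) * (α (v, p0.2 + ρ * s) *
        Complex.exp (((R * ρ ^ 2 * ((R * ρ ^ 2)⁻¹ * q (v, p0.2 + ρ * s) -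
          t / (R * ρ) * s) : ℝ) : ℂ) * Complex.I)) := by
    intro s
    rw [mul_left_comm, ← Complex.exp_add, ← add_mul, ← Complex.ofReal_add]
    congr 4
    field_simp
    ring
  simp only [h1]
  rw [integral_const_mul, h]
  have h2 : √(R * ρ ^ 2) = √R * ρ := by
    rw [Real.sqrt_mul hR.le, Real.sqrt_sq hρ.le]
  have h3 : Complex.exp (((-(t * p0.2) : ℝ) : ℂ) * Complex.I) *
      Complex.exp (((R * ρ ^ 2 * ((R * ρ ^ 2)⁻¹ * q (v, w (v, t)) -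
        t / (R * ρ) * (ρ⁻¹ * (w (v, t) - p0.2))) : ℝ) : ℂ) * Complex.I) =
      Complex.exp (((Q (v, t) : ℝ) : ℂ) * Complex.I) := by
    rw [← Complex.exp_add, ← add_mul, ← Complex.ofReal_add]
    congr 3
    rw [hQ]
    field_simp
    ring
  rw [← h3, h2]
  have h4 : ((√R * ρ)⁻¹ : ℝ) = (√R)⁻¹ * ρ⁻¹ := by rw [mul_inv]
  rw [h4, Complex.ofReal_mul]
  have h5 : (ρ : ℂ) * ((ρ⁻¹ : ℝ) : ℂ) = 1 := by
    rw [← Complex.ofReal_mul, mul_inv_cancel₀ hρ.ne', Complex.ofReal_one]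
  linear_combination (((√R)⁻¹ : ℝ) : ℂ) * (Complex.exp (((-(t * p0.2) : ℝ) : ℂ) * Complex.I) *
      (Complex.exp (((R * ρ ^ 2 * ((R * ρ ^ 2)⁻¹ * q (v, w (v, t)) -
        t / (R * ρ) * (ρ⁻¹ * (w (v, t) - p0.2))) : ℝ) : ℂ) * Complex.I) * A)) * h5

/-- The normalised phase. -/
noncomputable def ceN (R ρ : ℝ) (p0 : E m × ℝ) (q : E m × ℝ → ℝ) (p : E m × ℝ) : ℝ :=
  (R * ρ ^ 2)⁻¹ * q (ρ • (p - (-(ρ⁻¹ • p0))))

theorem ceN_arg {ρ : ℝ} (hρ : 0 < ρ) (p0 p : E m × ℝ) :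
    ρ • (p - (-(ρ⁻¹ • p0))) = p0 + ρ • p := by
  rw [sub_neg_eq_add, smul_add, smul_smul, mul_inv_cancel₀ hρ.ne', one_smul, add_comm]

theorem ceN_apply {R ρ : ℝ} (hρ : 0 < ρ) (p0 : E m × ℝ) (q : E m × ℝ → ℝ) (p : E m × ℝ) :
    ceN R ρ p0 q p = (R * ρ ^ 2)⁻¹ * q (p0 + ρ • p) := by
  rw [ceN, ceN_arg hρ]

theorem ceN_eq (R ρ : ℝ) (p0 : E m × ℝ) (q : E m × ℝ → ℝ) :
    ceN R ρ p0 q = (R * ρ ^ 2)⁻¹ • fun p => q (ρ • (p - (-(ρ⁻¹ • p0)))) := rfl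

theorem ceN_contDiff (R ρ : ℝ) (p0 : E m × ℝ) {q : E m × ℝ → ℝ} (hq : ContDiff ℝ ∞ q) :
    ContDiff ℝ ∞ (ceN R ρ p0 q) :=
  contDiff_const.mul (contDiff_aff hq ρ _)

theorem ceN_fderiv {R ρ : ℝ} (hR : 0 < R) (hρ : 0 < ρ) (p0 : E m × ℝ) {q : E m × ℝ → ℝ}
    (hq : ContDiff ℝ ∞ q) (p : E m × ℝ) :
    fderiv ℝ (ceN R ρ p0 q) p = (R * ρ)⁻¹ • fderiv ℝ q (p0 + ρ • p) := by
  rw [ceN_eq, fderiv_const_smul ((contDiff_aff hq ρ _).differentiable (by simp) p),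
    fderiv_aff hq, ceN_arg hρ, smul_smul]
  congr 1
  field_simp

theorem ceN_fderiv2 {R ρ : ℝ} (hR : 0 < R) (hρ : 0 < ρ) (p0 : E m × ℝ) {q : E m × ℝ → ℝ}
    (hq : ContDiff ℝ ∞ q) (p : E m × ℝ) :
    fderiv ℝ (fderiv ℝ (ceN R ρ p0 q)) p (0, 1) (0, 1) =
      R⁻¹ * fderiv ℝ (fderiv ℝ q) (p0 + ρ • p) (0, 1) (0, 1) := by
  have h1 : ContDiff ℝ ∞ (fun p => q (ρ • (p - (-(ρ⁻¹ • p0))))) := contDiff_aff hq ρ _
  have h2 : fderiv ℝ (ceN R ρ p0 q) =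
      (R * ρ ^ 2)⁻¹ • fderiv ℝ (fun p => q (ρ • (p - (-(ρ⁻¹ • p0))))) := by
    funext y
    rw [ceN_eq]
    exact fderiv_const_smul (h1.differentiable (by simp) y) _
  have h3 : ContDiff ℝ ∞ (fderiv ℝ (fun p => q (ρ • (p - (-(ρ⁻¹ • p0)))))) :=
    h1.fderiv_right (by exact le_rfl)
  have h4 : fderiv ℝ ((R * ρ ^ 2)⁻¹ • fderiv ℝ (fun p => q (ρ • (p - (-(ρ⁻¹ • p0)))))) p =
      (R * ρ ^ 2)⁻¹ • fderiv ℝ (fderiv ℝ (fun p => q (ρ • (p - (-(ρ⁻¹ • p0)))))) p :=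
    fderiv_const_smul (h3.differentiable (by simp) p) _
  rw [h2, h4, fderiv2_aff hq, ceN_arg hρ]
  have h5 : ∀ (a b : ℝ) (L : E m × ℝ →L[ℝ] E m × ℝ →L[ℝ] ℝ),
      (a • b • L) (0, 1) (0, 1) = a * (b * L (0, 1) (0, 1)) := fun a b L => rfl
  rw [h5]
  field_simp

theorem ceN_bd {C : ℕ → ℝ} {R ρ : ℝ} (hR : 0 < R) (hρ : 0 < ρ) (p0 : E m × ℝ)
    {q : E m × ℝ → ℝ} (hq : ContDiff ℝ ∞ q) {j : ℕ}
    (h : ∀ y, ‖iteratedFDeriv ℝ j q y‖ ≤ C j * (R * (ρ / 2) ^ 2 / (ρ / 2) ^ j)) (p : E m × ℝ) :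
    ‖iteratedFDeriv ℝ j (ceN R ρ p0 q) p‖ ≤ 2 ^ j * |C j| := by
  have h1 : ContDiff ℝ j (fun p => q (ρ • (p - (-(ρ⁻¹ • p0))))) :=
    (contDiff_aff hq ρ _).of_le (by exact_mod_cast le_top)
  have hS : 0 < R * ρ ^ 2 := by positivity
  rw [ceN_eq, iteratedFDeriv_const_smul_apply h1.contDiffAt, norm_smul,
    norm_iteratedFDeriv_aff_real j hq, abs_of_pos hρ, norm_inv, Real.norm_eq_abs, abs_of_pos hS]
  have h2 := (h (ρ • (p - (-(ρ⁻¹ • p0))))).trans (mul_le_mul_of_nonneg_right (le_abs_self (C j))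
    (by positivity))
  calc (R * ρ ^ 2)⁻¹ * (ρ ^ j * ‖iteratedFDeriv ℝ j q (ρ • (p - (-(ρ⁻¹ • p0))))‖)
      ≤ (R * ρ ^ 2)⁻¹ * (ρ ^ j * (|C j| * (R * (ρ / 2) ^ 2 / (ρ / 2) ^ j))) := by gcongr
    _ = 1 / 4 * (2 ^ j * |C j|) := by
      rw [div_pow, div_pow]
      field_simp
      ring
    _ ≤ 2 ^ j * |C j| := by
      have : 0 ≤ 2 ^ j * |C j| := by positivity
      linarith

end Pool.Agent.GNP
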