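import Pool.Agent.GNP.CHa

namespace Pool.Agent.GNP

open MeasureTheory Set Pool.Agent.MP_6cbfb8_an
open scoped ENNReal Real RealInnerProductSpace ContDiff

theorem ch_scale {V : Type*} [NormedAddCommGroup V] [NormedSpace ℝ V] [FiniteDimensional ℝ V]
    [MeasurableSpace V] [BorelSpace V] (μ : Measure V) [μ.IsAddHaarMeasure] (f : V → ℝ≥0∞) (c : ℝ)
    (hc : 1 ≤ c) : ∫⁻ x, f (c • x) ∂μ ≤ ∫⁻ x, f x ∂μ := by
  have hc0 : c ≠ 0 := by positivity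
  have h := (Homeomorph.smulOfNeZero c hc0).measurableEmbedding.lintegral_map (μ := μ) f
  have h2 : Measure.map (Homeomorph.smulOfNeZero c hc0 : V → V) μ =
      ENNReal.ofReal |(c ^ Module.finrank ℝ V)⁻¹| • μ := Measure.map_addHaar_smul μ hc0
  have h3 : ∫⁻ x, f (c • x) ∂μ = ∫⁻ x, f ((Homeomorph.smulOfNeZero c hc0 : V → V) x) ∂μ := rfl
  rw [h3, ← h, h2, lintegral_smul_measure, smul_eq_mul]
  have h4 : ENNReal.ofReal |(c ^ Module.finrank ℝ V)⁻¹| ≤ 1 := by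
    rw [ENNReal.ofReal_le_one, abs_of_nonneg (by positivity)]
    exact inv_le_one_of_one_le₀ (one_le_pow₀ hc)
  calc ENNReal.ofReal |(c ^ Module.finrank ℝ V)⁻¹| * ∫⁻ x, f x ∂μ ≤ 1 * ∫⁻ x, f x ∂μ := by gcongr
    _ = ∫⁻ x, f x ∂μ := one_mul _

theorem ch_join_exists {n : ℕ} (x : E (n + 1)) : ∃ (y : E n) (t : ℝ),
    t = x (Fin.last n) ∧ join y t = x := by
  refine ⟨WithLp.toLp 2 fun i => x (Fin.castSucc i), x (Fin.last n), rfl, ?_⟩
  unfold join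
  ext i
  refine Fin.lastCases ?_ (fun i => ?_) i <;> simp

/-- The transform of a density supported in the upper half sphere, in the chart. -/
theorem ch_formula (n : ℕ) (r : ℝ) (hr1 : r < 1) (a : E (n + 2) → ℂ)
    (ha : Continuous a) (φ : E (n + 2) → ℝ) (hφ : Continuous φ)
    (hsupp : ∀ (y : E (n + 1)) (t : ℝ), ‖y‖ ^ 2 + t ^ 2 = 1 → (r < ‖y‖ ∨ t ≤ 0) →
      a (join y t) = 0)
    (a' : E (n + 1) → ℂ) (Φ h : E (n + 1) → ℝ)
    (h1 : ∀ y, ‖y‖ ≤ r → a' y = ((1 / hs y : ℝ) : ℂ) * a (join y (hs y)))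
    (h2 : ∀ y, r < ‖y‖ → a' y = 0) (h3 : ∀ y, ‖y‖ ≤ r → Φ y = φ (join y (hs y)))
    (h4 : ∀ y, ‖y‖ ≤ r → h y = hs y) (c : ℝ) (X : E (n + 1)) (t : ℝ) :
    extn (fun x => a x * Complex.exp (((c * φ x : ℝ) : ℂ) * Complex.I)) (join X t) =
      uu a' (ph Φ h c (2 * π * t)) ((2 * π) • X) := by
  classical
  obtain ⟨M, hM⟩ := (isCompact_closedBall (0 : E (n + 2)) 1).exists_bound_of_continuousOn
    ha.continuousOn
  set M' : ℝ := max M 1 with hM'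
  have hM0 : 0 < M' := lt_of_lt_of_le one_pos (le_max_right _ _)
  have hMb : ∀ x : E (n + 2), ‖x‖ ≤ 1 → ‖a x‖ ≤ M' := fun x hx =>
    (hM x (by simpa using hx)).trans (le_max_left _ _)
  set F : E (n + 2) → ℂ := fun x => a x * Complex.exp (((c * φ x : ℝ) : ℂ) * Complex.I) with hF
  have hFc : Continuous F := by
    rw [hF]
    fun_prop
  have hFn : ∀ x, ‖F x‖ = ‖a x‖ := fun x => by
    rw [hF]
    simp only
    rw [norm_mul, Complex.norm_exp_ofReal_mul_I, mul_one]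
  set g : E (n + 2) → ℂ := fun x => if ‖x‖ ≤ 1 then ((M'⁻¹ : ℝ) : ℂ) * F x else 0 with hg
  have hgm : Measurable g := by
    refine Measurable.ite (measurableSet_le (by fun_prop) measurable_const) ?_ measurable_const
    exact (hFc.measurable).const_mul _
  have hgb : ∀ x, ‖g x‖ ≤ 1 := by
    intro x
    rw [hg]
    simp only
    split_ifs with hx
    · rw [norm_mul, Complex.norm_real, Real.norm_of_nonneg (by positivity), hFn]
      calc M'⁻¹ * ‖a x‖ ≤ M'⁻¹ * M' := by gcongr; exact hMb x hx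
        _ = 1 := inv_mul_cancel₀ hM0.ne'
    · simp
  have key := Pool.Agent.MST.chart n g hgm hgb X t
  have e1 : extn F (join X t) = (M' : ℂ) *
      extn (fun x : E (n + 2) => if 0 < x (Fin.last (n + 1)) then g x else 0) (join X t) := by
    unfold extn
    rw [← integral_const_mul]
    refine integral_congr_ae (Filter.Eventually.of_forall fun x => ?_)
    simp only
    have hx1 : ‖(x : E (n + 2))‖ = 1 := by simp
    obtain ⟨y, u, hu, hyu⟩ := ch_join_exists (x : E (n + 2))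
    by_cases hx : 0 < (x : E (n + 2)) (Fin.last (n + 1))
    · rw [if_pos hx, hg]
      simp only
      rw [if_pos hx1.le]
      have : (M' : ℂ) ≠ 0 := by exact_mod_cast hM0.ne'
      push_cast
      field_simp
    · rw [if_neg hx]
      have h0 : a (x : E (n + 2)) = 0 := by
        rw [← hyu]
        refine hsupp y u ?_ (Or.inr (by rw [hu]; exact not_lt.mp hx))
        rw [← norm_join_sq, hyu, hx1, one_pow]
      rw [hF]
      simp [h0]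
  rw [e1, key, ← integral_const_mul]
  have e2 : uu a' (ph Φ h c (2 * π * t)) ((2 * π) • X) = ∫ y in Metric.ball (0 : E (n + 1)) 1,
      a' y * Complex.exp (((ph Φ h c (2 * π * t) y - ⟪(2 * π) • X, y⟫ : ℝ) : ℂ) * Complex.I) := by
    unfold uu
    rw [setIntegral_eq_integral_of_forall_compl_eq_zero]
    intro y hy
    have hy1 : 1 ≤ ‖y‖ := by simpa using hy
    rw [h2 y (by linarith), zero_mul]
  rw [e2]
  refine setIntegral_congr_fun measurableSet_ball fun u hu => ?_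
  have hu1 : ‖u‖ < 1 := by simpa using hu
  have hu2 : 0 < 1 - ‖u‖ ^ 2 := by nlinarith [norm_nonneg u]
  have hsq : √(1 - ‖u‖ ^ 2) ^ 2 = 1 - ‖u‖ ^ 2 := Real.sq_sqrt hu2.le
  have hj : ‖join u √(1 - ‖u‖ ^ 2)‖ = 1 := by
    have h5 := norm_join_sq u √(1 - ‖u‖ ^ 2)
    rw [hsq] at h5
    nlinarith [norm_nonneg (join u √(1 - ‖u‖ ^ 2))]
  have hgj : g (join u √(1 - ‖u‖ ^ 2)) = ((M'⁻¹ : ℝ) : ℂ) * F (join u √(1 - ‖u‖ ^ 2)) := by
    rw [hg]
    simp only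
    rw [if_pos hj.le]
  rw [hgj]
  by_cases hur : ‖u‖ ≤ r
  · rw [h1 u hur]
    have e3 : ph Φ h c (2 * π * t) u - ⟪(2 * π) • X, u⟫ = c * φ (join u √(1 - ‖u‖ ^ 2)) +
        -(2 * π * (inner ℝ u X + √(1 - ‖u‖ ^ 2) * t)) := by
      unfold ph
      rw [h3 u hur, h4 u hur, real_inner_smul_left, real_inner_comm]
      unfold hs
      ring
    rw [e3]
    have e4 : Complex.exp (((c * φ (join u √(1 - ‖u‖ ^ 2)) +
        -(2 * π * (inner ℝ u X + √(1 - ‖u‖ ^ 2) * t)) : ℝ) : ℂ) * Complex.I) =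
        Complex.exp (((c * φ (join u √(1 - ‖u‖ ^ 2)) : ℝ) : ℂ) * Complex.I) *
        Pool.Agent.MST.ex (inner ℝ u X + √(1 - ‖u‖ ^ 2) * t) := by
      unfold Pool.Agent.MST.ex
      rw [← Complex.exp_add]
      congr 1
      push_cast
      ring
    rw [e4, hF]
    simp only
    unfold hs
    have : (M' : ℂ) ≠ 0 := by exact_mod_cast hM0.ne'
    push_cast
    field_simp
  · have h0 : a (join u √(1 - ‖u‖ ^ 2)) = 0 :=
      hsupp u _ (by rw [hsq]; ring) (Or.inl (not_le.mp hur))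
    rw [h2 u (not_le.mp hur), hF]
    simp [h0]

theorem ch_lint (n : ℕ) (r : ℝ) (hr1 : r < 1) (a : E (n + 2) → ℂ)
    (ha : Continuous a) (φ : E (n + 2) → ℝ) (hφ : Continuous φ)
    (hsupp : ∀ (y : E (n + 1)) (t : ℝ), ‖y‖ ^ 2 + t ^ 2 = 1 → (r < ‖y‖ ∨ t ≤ 0) →
      a (join y t) = 0)
    (a' : E (n + 1) → ℂ) (Φ h : E (n + 1) → ℝ)
    (h1 : ∀ y, ‖y‖ ≤ r → a' y = ((1 / hs y : ℝ) : ℂ) * a (join y (hs y)))
    (h2 : ∀ y, r < ‖y‖ → a' y = 0) (h3 : ∀ y, ‖y‖ ≤ r → Φ y = φ (join y (hs y)))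
    (h4 : ∀ y, ‖y‖ ≤ r → h y = hs y) (p : ℝ) (c : ℝ) :
    ∫⁻ ξ, ‖extn (fun x => a x * Complex.exp (((c * φ x : ℝ) : ℂ) * Complex.I)) ξ‖ₑ ^ p ≤
      ∫⁻ s : ℝ, ∫⁻ x, ‖uu a' (ph Φ h c s) x‖ₑ ^ p := by
  set F : E (n + 2) → ℂ := fun x => a x * Complex.exp (((c * φ x : ℝ) : ℂ) * Complex.I) with hF
  have hFc : Continuous F := by
    rw [hF]
    fun_prop
  have hm : Measurable fun ξ => ‖extn F ξ‖ₑ ^ p := (measurable_extn F hFc.measurable).enorm.pow_const p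
  have hm2 : Measurable fun q : E (n + 1) × ℝ => ‖extn F (join q.1 q.2)‖ₑ ^ p :=
    hm.comp continuous_join.measurable
  rw [lintegral_join (n + 1) _ hm, lintegral_lintegral_swap hm2.aemeasurable]
  have hpi : (1:ℝ) ≤ 2 * π := by linarith [Real.pi_gt_three]
  calc ∫⁻ t : ℝ, ∫⁻ X : E (n + 1), ‖extn F (join X t)‖ₑ ^ p
      = ∫⁻ t : ℝ, ∫⁻ X : E (n + 1), ‖uu a' (ph Φ h c (2 * π * t)) ((2 * π) • X)‖ₑ ^ p := by
        refine lintegral_congr fun t => lintegral_congr fun X => ?_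
        rw [hF, ch_formula n r hr1 a ha φ hφ hsupp a' Φ h h1 h2 h3 h4 c X t]
    _ ≤ ∫⁻ t : ℝ, ∫⁻ x : E (n + 1), ‖uu a' (ph Φ h c (2 * π * t)) x‖ₑ ^ p := by
        refine lintegral_mono fun t => ?_
        exact ch_scale volume (fun x => ‖uu a' (ph Φ h c (2 * π * t)) x‖ₑ ^ p) (2 * π) hpi
    _ ≤ ∫⁻ s : ℝ, ∫⁻ x : E (n + 1), ‖uu a' (ph Φ h c s) x‖ₑ ^ p := by
        have := ch_scale (volume : Measure ℝ)
          (fun s => ∫⁻ x : E (n + 1), ‖uu a' (ph Φ h c s) x‖ₑ ^ p) (2 * π) hpi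
        simpa only [smul_eq_mul] using this

/-- The chart: from the sphere to the ball, with the vertical variable as the parameter. -/
theorem chart_red (d : ℕ) (hd : 1 ≤ d) (r ρ : ℝ) (hr : 0 < r) (hrρ : r < ρ) (hρ : ρ < 1)
    (φ : E (d + 1) → ℝ) (hφ : ContDiff ℝ ∞ φ) (a : E (d + 1) → ℂ) (ha : ContDiff ℝ ∞ a)
    (hsupp : ∀ (y : E d) (t : ℝ), ‖y‖ ^ 2 + t ^ 2 = 1 → (r < ‖y‖ ∨ t ≤ 0) → a (join y t) = 0) :
    ∃ (A : ℕ → ℝ) (Φ h : E d → ℝ) (a' : E d → ℂ), Sm d A Φ ∧ Sm d A h ∧ Amp d A r a' ∧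
      (∀ y, ‖y‖ < ρ → h y = hs y) ∧ (∀ y, ‖y‖ < ρ → Φ y = φ (join y (hs y))) ∧
      ∀ (p : ℝ), 0 < p → ∀ c : ℝ,
        ∫⁻ ξ, ‖extn (fun x => a x * Complex.exp (((c * φ x : ℝ) : ℂ) * Complex.I)) ξ‖ₑ ^ p ≤
          ∫⁻ s : ℝ, ∫⁻ x, ‖uu a' (ph Φ h c s) x‖ₑ ^ p := by
  obtain ⟨A1, h, hh, hh'⟩ := cha_h (d := d) ρ hρ
  obtain ⟨A2, Φ, hΦ, hΦ'⟩ := cha_Phi (d := d) ρ hρ φ hφ
  obtain ⟨A3, a', haa, haa'⟩ := cha_amp (d := d) r (hrρ.trans hρ) a ha hsupp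
  refine ⟨fun j => max (A1 j) (max (A2 j) (A3 j)), Φ, h, a', ⟨hΦ.sm, fun j y => ?_⟩,
    ⟨hh.sm, fun j y => ?_⟩, ⟨haa.sm, haa.supp, fun j y => ?_⟩, hh', hΦ', fun p _ c => ?_⟩
  · exact (hΦ.bd j y).trans ((le_max_left _ _).trans (le_max_right _ _))
  · exact (hh.bd j y).trans (le_max_left _ _)
  · exact (haa.bd j y).trans ((le_max_right _ _).trans (le_max_right _ _))
  · obtain ⟨n, rfl⟩ : ∃ n, d = n + 1 := ⟨d - 1, by omega⟩
    refine ch_lint n r (hrρ.trans hρ) a ha.continuous φ hφ.continuous hsupp a' Φ h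
      (fun y hy => ?_) haa.supp (fun y hy => hΦ' y (hy.trans_lt hrρ))
      (fun y hy => hh' y (hy.trans_lt hrρ)) p c
    rw [haa' y (hy.trans_lt (hrρ.trans hρ)), mul_comm]

end Pool.Agent.GNP
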