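import Pool.Agent.GNP.HI

/-! Row CH, calculus part. -/

namespace Pool.Agent.GNP

open MeasureTheory Set Metric Pool.Agent.MP_6cbfb8_an
open scoped ENNReal Real RealInnerProductSpace ContDiff

theorem cha_join {d : ℕ} : ContDiff ℝ ∞ fun q : E d × ℝ => (join q.1 q.2 : E (d + 1)) := by
  rw [contDiff_euclidean]
  intro i
  refine Fin.lastCases ?_ (fun j => ?_) i
  · simp only [join, Fin.snoc_last]
    exact contDiff_snd
  · simp only [join, Fin.snoc_castSucc]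
    exact (contDiff_euclidean.mp (contDiff_fst (𝕜 := ℝ) (n := ∞) (E := E d) (F := ℝ))) j

theorem cha_pos {d : ℕ} {y : E d} (hy : y ∈ ball (0 : E d) 1) : 0 < 1 - ‖y‖ ^ 2 := by
  have h1 : ‖y‖ < 1 := by simpa using hy
  nlinarith [norm_nonneg y]

theorem cha_hs_pos {d : ℕ} {y : E d} (hy : y ∈ ball (0 : E d) 1) : 0 < hs y :=
  Real.sqrt_pos.mpr (cha_pos hy)

theorem cha_hs_sq {d : ℕ} {y : E d} (hy : y ∈ ball (0 : E d) 1) : ‖y‖ ^ 2 + hs y ^ 2 = 1 := by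
  rw [hs, Real.sq_sqrt (cha_pos hy).le]
  ring

theorem cha_hs_smooth {d : ℕ} : ContDiffOn ℝ ∞ (hs : E d → ℝ) (ball 0 1) := by
  unfold hs
  refine ContDiffOn.sqrt ?_ fun y hy => (cha_pos hy).ne'
  exact (contDiff_const.sub (contDiff_norm_sq ℝ)).contDiffOn

theorem cha_graph_smooth {d : ℕ} :
    ContDiffOn ℝ ∞ (fun y : E d => (join y (hs y) : E (d + 1))) (ball 0 1) :=
  cha_join.comp_contDiffOn (contDiffOn_id.prodMk cha_hs_smooth)

/-- smooth cut-off: functions with values in a normed space -/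
theorem cha_cut {F : Type*} [NormedAddCommGroup F] [NormedSpace ℝ F] {d : ℕ} (ρ : ℝ) (hρ : ρ < 1)
    (f : E d → F) (hf : ContDiffOn ℝ ∞ f (ball 0 1)) :
    ∃ (A : ℕ → ℝ) (g : E d → F), ContDiff ℝ ∞ g ∧ (∀ j y, ‖iteratedFDeriv ℝ j g y‖ ≤ A j) ∧
      (∀ y, ‖y‖ ≤ ρ → g y = f y) ∧ (∀ y, 1 ≤ ‖y‖ → g y = 0) ∧ ∀ y, f y = 0 → g y = 0 := by
  obtain ⟨r1, hr1, hr1'⟩ := exists_between (max_lt hρ one_pos)
  obtain ⟨r2, hr2, hr2'⟩ := exists_between hr1'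
  have hr10 : 0 < r1 := lt_of_le_of_lt (le_max_right _ _) hr1
  let χ : ContDiffBump (0 : E d) := ⟨r1, r2, hr10, hr2⟩
  have hχ0 : ∀ y : E d, r2 ≤ ‖y‖ → χ y = 0 := fun y hy =>
    χ.zero_of_le_dist (by simpa using hy)
  have hg : ContDiff ℝ ∞ fun y => χ y • f y := by
    rw [contDiff_iff_contDiffAt]
    intro y
    by_cases hy : y ∈ ball (0 : E d) 1
    · exact (χ.contDiff.contDiffAt).smul (hf.contDiffAt (isOpen_ball.mem_nhds hy))
    · have hy1 : 1 ≤ ‖y‖ := by simpa using hy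
      have h2 : {w : E d | r2 < ‖w‖} ∈ nhds y :=
        (isOpen_lt continuous_const continuous_norm).mem_nhds (lt_of_lt_of_le hr2' hy1)
      have h3 : (fun w => χ w • f w) =ᶠ[nhds y] fun _ => 0 := by
        filter_upwards [h2] with w hw
        rw [hχ0 w (le_of_lt hw), zero_smul]
      exact contDiffAt_const.congr_of_eventuallyEq h3
  have hcs : HasCompactSupport fun y => χ y • f y := by
    refine HasCompactSupport.intro (isCompact_closedBall (0 : E d) r2) fun y hy => ?_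
    have hy1 : r2 < ‖y‖ := by simpa using hy
    rw [hχ0 y hy1.le, zero_smul]
  have hb : ∀ j : ℕ, ∃ C : ℝ, ∀ y, ‖iteratedFDeriv ℝ j (fun y => χ y • f y) y‖ ≤ C := fun j =>
    (hg.continuous_iteratedFDeriv (m := j) (by exact_mod_cast le_top)).bounded_above_of_compact_support
      (hcs.iteratedFDeriv j)
  choose A hA using hb
  refine ⟨A, fun y => χ y • f y, hg, hA, fun y hy => ?_, fun y hy => ?_, fun y hy => ?_⟩
  · have : χ y = 1 := χ.one_of_mem_closedBall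
      (by simpa using hy.trans ((le_max_left _ _).trans hr1.le))
    simp only [this, one_smul]
  · simp only [hχ0 y (hr2'.le.trans hy), zero_smul]
  · simp only [hy, smul_zero]

/-- the cut-off height -/
theorem cha_h {d : ℕ} (ρ : ℝ) (hρ : ρ < 1) : ∃ (A : ℕ → ℝ) (h : E d → ℝ), Sm d A h ∧
    ∀ y, ‖y‖ < ρ → h y = hs y := by
  obtain ⟨A, g, h1, h2, h3, -⟩ := cha_cut ρ hρ hs (cha_hs_smooth (d := d))
  exact ⟨A, g, ⟨h1, h2⟩, fun y hy => h3 y hy.le⟩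

/-- the cut-off phase -/
theorem cha_Phi' {d : ℕ} (ρ : ℝ) (hρ : ρ < 1) (φ : E (d + 1) → ℝ)
    (hφ : ∀ x, ‖x‖ = 1 → ContDiffAt ℝ ∞ φ x) :
    ∃ (A : ℕ → ℝ) (Φ : E d → ℝ), Sm d A Φ ∧ ∀ y, ‖y‖ < ρ → Φ y = φ (join y (hs y)) := by
  obtain ⟨A, g, h1, h2, h3, -⟩ := cha_cut ρ hρ (fun y : E d => φ (join y (hs y)))
    (fun y hy => (hi_phi_at hφ (by simpa using hy)).contDiffWithinAt)
  exact ⟨A, g, ⟨h1, h2⟩, fun y hy => h3 y hy.le⟩

/-- the cut-off phase -/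
theorem cha_Phi {d : ℕ} (ρ : ℝ) (hρ : ρ < 1) (φ : E (d + 1) → ℝ) (hφ : ContDiff ℝ ∞ φ) :
    ∃ (A : ℕ → ℝ) (Φ : E d → ℝ), Sm d A Φ ∧ ∀ y, ‖y‖ < ρ → Φ y = φ (join y (hs y)) :=
  cha_Phi' ρ hρ φ fun _ _ => hφ.contDiffAt

/-- the amplitude -/
theorem cha_amp {d : ℕ} (r : ℝ) (hr1 : r < 1) (a : E (d + 1) → ℂ)
    (ha : ContDiff ℝ ∞ a)
    (hsupp : ∀ (y : E d) (t : ℝ), ‖y‖ ^ 2 + t ^ 2 = 1 → (r < ‖y‖ ∨ t ≤ 0) → a (join y t) = 0) :
    ∃ (A : ℕ → ℝ) (a' : E d → ℂ), Amp d A r a' ∧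
      ∀ y, ‖y‖ < 1 → a' y = a (join y (hs y)) * ((1 / hs y : ℝ) : ℂ) := by
  have h0 : ContDiffOn ℝ ∞ (fun y : E d => a (join y (hs y)) * ((1 / hs y : ℝ) : ℂ)) (ball 0 1) := by
    refine (ha.comp_contDiffOn cha_graph_smooth).mul ?_
    refine Complex.ofRealCLM.contDiff.comp_contDiffOn ?_
    exact contDiffOn_const.div cha_hs_smooth fun y hy => (cha_hs_pos hy).ne'
  obtain ⟨A, g, h1, h2, h3, h4, h5⟩ := cha_cut r hr1 _ h0
  have hz : ∀ y : E d, r < ‖y‖ → ‖y‖ < 1 → a (join y (hs y)) = 0 := fun y hy hy1 =>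
    hsupp y (hs y) (cha_hs_sq (by simpa using hy1)) (Or.inl hy)
  refine ⟨A, g, ⟨h1, fun y hy => ?_, h2⟩, fun y hy => ?_⟩
  · rcases lt_or_ge ‖y‖ 1 with hy1 | hy1
    · exact h5 y (by rw [hz y hy hy1, zero_mul])
    · exact h4 y hy1
  · rcases le_or_gt ‖y‖ r with hy1 | hy1
    · exact h3 y hy1
    · rw [h5 y (by rw [hz y hy1 hy, zero_mul]), hz y hy1 hy, zero_mul]

end Pool.Agent.GNP
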