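import Pool.Agent.GNP.KE

/-!
The key estimate for amplitudes which are smooth at the scale of the packets.
-/

namespace Pool.Agent.GNP

open MeasureTheory Set Pool.Agent.MP_6cbfb8_an
open scoped ENNReal Real RealInnerProductSpace ContDiff Nat

/-- Amplitudes at scale `1/R`: smooth, zero outside the ball of radius `r`, with derivatives bounded
by `A j * R ^ j`. -/
structure AmpR (d : ℕ) (A : ℕ → ℝ) (r R : ℝ) (a : E d → ℂ) : Prop where
  sm : ContDiff ℝ ∞ a
  supp : ∀ y, r < ‖y‖ → a y = 0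
  bd : ∀ j y, ‖iteratedFDeriv ℝ j a y‖ ≤ A j * R ^ j

theorem AmpR.mono {d : ℕ} {A : ℕ → ℝ} {r R R' : ℝ} {a : E d → ℂ} (h : AmpR d A r R a)
    (hR : 0 < R) (hRR : R ≤ R') : AmpR d A r R' a := by
  refine ⟨h.sm, h.supp, fun j y => (h.bd j y).trans ?_⟩
  have h1 : 0 ≤ A j := by
    have h2 := (norm_nonneg _).trans (h.bd j y)
    by_contra h3
    rw [not_le] at h3
    exact absurd h2 (not_le.2 (mul_neg_of_neg_of_pos h3 (by positivity)))
  exact mul_le_mul_of_nonneg_left (pow_le_pow_left₀ hR.le hRR j) h1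

theorem Amp.ampR {d : ℕ} {A : ℕ → ℝ} {r R : ℝ} {a : E d → ℂ} (h : Amp d A r a) (hR : 1 ≤ R) :
    AmpR d A r R a := by
  have h1 : AmpR d A r 1 a := ⟨h.sm, h.supp, fun j y => by simpa using h.bd j y⟩
  exact h1.mono one_pos hR

/-- General wave packets: amplitude `κ (R (y - y0)) a(y)`. -/
theorem packet_genR (d : ℕ) (A : ℕ → ℝ) (κ : E d → ℂ) (hκ : ContDiff ℝ ∞ κ) (ρ : ℝ)
    (hκ0 : ∀ z, ρ < ‖z‖ → κ z = 0) : ∃ K : ℝ, 0 < K ∧
    ∀ (a : E d → ℂ) (q : E d → ℝ) (r R : ℝ), 1 ≤ R → AmpR d A r R a → Phq d A R q →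
    ∀ y0 x, ‖uu (fun y => κ (R • (y - y0)) * a y) q x‖ ≤
      K * (R ^ d)⁻¹ * ((1 + ‖x - gr q y0‖ / R) ^ (d + 1))⁻¹ := by
  obtain ⟨M, hM1, hM⟩ := rem_bound (d := d) (d + 1) A ρ
  -- bounds of the kernel
  have hcs : HasCompactSupport κ :=
    HasCompactSupport.intro (isCompact_closedBall (0 : E d) ρ) (fun z hz => hκ0 z (by
      rw [Metric.mem_closedBall, dist_zero_right, not_le] at hz
      exact hz))
  have hkb : ∀ j, ∃ B : ℝ, ∀ z, ‖iteratedFDeriv ℝ j κ z‖ ≤ B := fun j =>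
    (hcs.iteratedFDeriv j).exists_bound_of_continuous
      (hκ.continuous_iteratedFDeriv (by exact_mod_cast le_top))
  choose Bk hBk using hkb
  set F : ℝ := ∑ j ∈ Finset.range (d + 2), |Bk j| with hF
  set G : ℝ := ∑ j ∈ Finset.range (d + 2), |A j| with hG
  have hF0 : 0 ≤ F := Finset.sum_nonneg fun _ _ => abs_nonneg _
  have hG0 : 0 ≤ G := Finset.sum_nonneg fun _ _ => abs_nonneg _
  obtain ⟨C, hC0, hC⟩ := GPH.fourier_decay d (d + 1) ρ
  set M2 : ℝ := 2 ^ (d + 1) * (2 ^ (d + 1) * (F * G)) * ((d + 1)! * M ^ (d + 1)) with hM2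
  have hM20 : 0 ≤ M2 := by
    have : 0 ≤ M := by linarith
    positivity
  refine ⟨C * M2 * (2 * π) ^ (d + 1) + 1, by positivity, ?_⟩
  intro a q r R hR ha hq y0 x
  have hR0 : 0 < R := by linarith
  -- the rescaled amplitude
  set at0 : E d → ℂ := fun v => a (y0 + R⁻¹ • v) with hat0
  have hat : ContDiff ℝ ∞ at0 := ha.sm.comp (contDiff_const.add (contDiff_id.const_smul _))
  have hatb : ∀ j ≤ d + 1, ∀ v, ‖iteratedFDeriv ℝ j at0 v‖ ≤ G := by
    intro j hj v
    refine (iter_affine ha.sm y0 R⁻¹ j v).trans ?_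
    have h2 := ha.bd j (y0 + R⁻¹ • v)
    have h3 : |A j| ≤ G := Finset.single_le_sum (f := fun j => |A j|)
      (fun _ _ => abs_nonneg _) (Finset.mem_range.2 (by omega))
    rw [abs_of_pos (inv_pos.2 hR0)]
    calc (R⁻¹) ^ j * ‖iteratedFDeriv ℝ j a (y0 + R⁻¹ • v)‖
        ≤ (R⁻¹) ^ j * (A j * R ^ j) := mul_le_mul_of_nonneg_left h2 (by positivity)
      _ = A j := by
          rw [inv_pow]
          field_simp
      _ ≤ G := (le_abs_self _).trans h3
  set am : E d → ℂ := fun v => κ v * at0 v with ham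
  have hamc : ContDiff ℝ ∞ am := hκ.mul hat
  have hamb : ∀ j ≤ d + 1, ∀ v, ‖iteratedFDeriv ℝ j am v‖ ≤ 2 ^ (d + 1) * (F * G) := by
    intro j hj v
    refine mul_bd hκ hat (d + 1) F G v (fun i hi => ?_) (fun i hi => hatb i hi v) j hj
    exact (hBk i v).trans ((le_abs_self _).trans (Finset.single_le_sum (f := fun j => |Bk j|)
      (fun _ _ => abs_nonneg _) (Finset.mem_range.2 (by omega))))
  set b : E d → ℂ := fun v => am v * GPH.ee (rem q R y0 v) with hb
  have hbc : ContDiff ℝ ∞ b := hamc.mul (GPH.contDiff_ee.comp (contDiff_rem hq.sm R y0))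
  have hb0 : ∀ v, ρ < ‖v‖ → b v = 0 := by
    intro v hv
    simp only [hb, ham, hκ0 v hv, zero_mul]
  have hbb : ∀ j ≤ d + 1, ∀ v, ‖v‖ ≤ ρ → ‖iteratedFDeriv ℝ j b v‖ ≤ M2 := by
    intro j hj v hv
    refine GPH.deriv_amp (d + 1) am (rem q R y0) (hamc.of_le (by exact_mod_cast le_top))
      ((contDiff_rem hq.sm R y0).of_le (by exact_mod_cast le_top)) v _ M (by positivity) hM1
      (fun i hi => hamb i hi v) (fun i h1 h2 => ?_) j hj
    exact hM q R y0 hR hq.sm (fun i hi w _ => hq.bd i hi _) v hv i h1 h2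
  -- change of variables
  set η : E d := R⁻¹ • (gr q y0 - x) with hη
  have hG : ∀ v, (fun y => (κ (R • (y - y0)) * a y) *
      Complex.exp (((q y - ⟪x, y⟫ : ℝ) : ℂ) * Complex.I)) (y0 + R⁻¹ • v) =
      (b v * Complex.exp (((⟪η, v⟫ : ℝ) : ℂ) * Complex.I)) *
        Complex.exp (((q y0 - ⟪x, y0⟫ : ℝ) : ℂ) * Complex.I) := by
    intro v
    have h1 : R • (y0 + R⁻¹ • v - y0) = v := by
      rw [add_sub_cancel_left, smul_smul, mul_inv_cancel₀ hR0.ne', one_smul]
    have h2 : q (y0 + R⁻¹ • v) - ⟪x, y0 + R⁻¹ • v⟫ =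
        rem q R y0 v + ⟪η, v⟫ + (q y0 - ⟪x, y0⟫) := by
      rw [hη, rem, inner_smul_left, inner_smul_left, inner_sub_left, inner_add_right,
        inner_smul_right]
      simp only [conj_trivial]
      ring
    simp only [h1, h2, hb, ham, hat0, GPH.ee]
    push_cast
    rw [add_mul, add_mul, Complex.exp_add, Complex.exp_add]
    ring
  have hint : uu (fun y => κ (R • (y - y0)) * a y) q x = ((R ^ d)⁻¹ : ℝ) •
      ((∫ v, b v * Complex.exp (((⟪η, v⟫ : ℝ) : ℂ) * Complex.I)) *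
        Complex.exp (((q y0 - ⟪x, y0⟫ : ℝ) : ℂ) * Complex.I)) := by
    rw [← integral_mul_const]
    simp_rw [← hG]
    set H : E d → ℂ := fun y => (κ (R • (y - y0)) * a y) *
      Complex.exp (((q y - ⟪x, y⟫ : ℝ) : ℂ) * Complex.I) with hH
    have h3 : ∫ v, H (y0 + R⁻¹ • v) = |((R⁻¹) ^ d)⁻¹| • ∫ y, H y := by
      have h4 := Measure.integral_comp_smul (volume : Measure (E d)) (fun w => H (y0 + w)) R⁻¹
      rw [h4, finrank_euclideanSpace, Fintype.card_fin, integral_add_left_eq_self H y0]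
    change ∫ y, H y = ((R ^ d)⁻¹ : ℝ) • ∫ v, H (y0 + R⁻¹ • v)
    rw [h3, smul_smul, inv_pow, inv_inv, abs_of_pos (by positivity),
      inv_mul_cancel₀ (by positivity), one_smul]
  rw [hint, norm_smul, norm_mul, Complex.norm_exp_ofReal_mul_I, mul_one,
    Real.norm_of_nonneg (by positivity)]
  -- Fourier transform
  set w : E d := -((2 * π)⁻¹ • η) with hw
  have hFou : ∫ z, b z * Complex.exp (((⟪η, z⟫ : ℝ) : ℂ) * Complex.I) =
      FourierTransform.fourier b w := by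
    rw [Real.fourier_eq']
    refine integral_congr_ae (Filter.Eventually.of_forall fun z => ?_)
    simp only [smul_eq_mul]
    rw [mul_comm]
    congr 3
    rw [hw, inner_neg_right, inner_smul_right, real_inner_comm z η]
    field_simp
  rw [hFou]
  have h9 := hC b M2 (hbc.of_le (by exact_mod_cast le_top)) hb0 hbb w
  have hwn : ‖x - gr q y0‖ / R = 2 * π * ‖w‖ := by
    rw [hw, norm_neg, norm_smul, Real.norm_of_nonneg (by positivity), hη, norm_smul,
      Real.norm_of_nonneg (by positivity), norm_sub_rev]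
    field_simp
  rw [hwn]
  have h10 : (1 + 2 * π * ‖w‖) ^ (d + 1) ≤ (2 * π) ^ (d + 1) * (1 + ‖w‖) ^ (d + 1) := by
    rw [← mul_pow]
    refine pow_le_pow_left₀ (by positivity) ?_ _
    have : (1 : ℝ) ≤ 2 * π := by linarith [Real.two_le_pi]
    nlinarith [norm_nonneg w]
  have h11 : ‖FourierTransform.fourier b w‖ ≤
      (C * M2 * (2 * π) ^ (d + 1) + 1) * ((1 + 2 * π * ‖w‖) ^ (d + 1))⁻¹ := by
    rw [← div_eq_mul_inv, le_div_iff₀ (by positivity)]
    calc ‖FourierTransform.fourier b w‖ * (1 + 2 * π * ‖w‖) ^ (d + 1)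
        ≤ ‖FourierTransform.fourier b w‖ * ((2 * π) ^ (d + 1) * (1 + ‖w‖) ^ (d + 1)) :=
          mul_le_mul_of_nonneg_left h10 (norm_nonneg _)
      _ = (2 * π) ^ (d + 1) * (‖FourierTransform.fourier b w‖ * (1 + ‖w‖) ^ (d + 1)) := by ring
      _ ≤ (2 * π) ^ (d + 1) * (C * M2) := mul_le_mul_of_nonneg_left h9 (by positivity)
      _ ≤ _ := by linarith
  calc (R ^ d)⁻¹ * ‖FourierTransform.fourier b w‖
      ≤ (R ^ d)⁻¹ * ((C * M2 * (2 * π) ^ (d + 1) + 1) * ((1 + 2 * π * ‖w‖) ^ (d + 1))⁻¹) :=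
        mul_le_mul_of_nonneg_left h11 (by positivity)
    _ = _ := by ring

/-- A1. Packets are localised. -/
theorem packet_cR (d : ℕ) (A : ℕ → ℝ) (κ : ℝ) (ρ : E d → ℝ) (hρ : Ker κ ρ) : ∃ K : ℝ, 0 < K ∧
    ∀ (a : E d → ℂ) (q : E d → ℝ) (r R : ℝ), 1 ≤ R → AmpR d A r R a → Phq d A R q →
    ∀ z x, ‖uz ρ a q R z x‖ ≤ K * ((1 + ‖x - gr q z‖ / R) ^ (d + 1))⁻¹ := by
  obtain ⟨K, hK, h⟩ := packet_genR d A (fun v => (ρ v : ℂ))
    (Complex.ofRealCLM.contDiff.comp hρ.sm) κ (fun v hv => by rw [hρ.supp v hv]; rfl)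
  refine ⟨K, hK, fun a q r R hR ha hq z x => ?_⟩
  have h1 := h a q r R hR ha hq z x
  have hR0 : 0 < R := by linarith
  have hRd : 0 < R ^ d := by positivity
  have h2 : uz ρ a q R z x = ((R ^ d : ℝ) : ℂ) * uu (fun y => (ρ (R • (y - z)) : ℂ) * a y) q x := by
    unfold uz uu
    rw [← integral_const_mul]
    refine integral_congr_ae (Filter.Eventually.of_forall fun y => ?_)
    push_cast
    ring
  rw [h2, norm_mul, Complex.norm_real, Real.norm_of_nonneg hRd.le]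
  calc R ^ d * ‖uu (fun y => (ρ (R • (y - z)) : ℂ) * a y) q x‖
      ≤ R ^ d * (K * (R ^ d)⁻¹ * ((1 + ‖x - gr q z‖ / R) ^ (d + 1))⁻¹) :=
        mul_le_mul_of_nonneg_left h1 hRd.le
    _ = K * ((1 + ‖x - gr q z‖ / R) ^ (d + 1))⁻¹ := by
        field_simp

/-- A3. `L^2` bound (Plancherel). -/
theorem L2_cR (d : ℕ) (A : ℕ → ℝ) (κ : ℝ) (ρ : E d → ℝ) (hρ : Ker κ ρ) : ∃ K : ℝ, 0 < K ∧
    ∀ (a : E d → ℂ) (q : E d → ℝ) (r R : ℝ), 1 ≤ R → AmpR d A r R a → Continuous q →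
    ∀ F : Set (E d), MeasurableSet F →
      ∫⁻ x, ‖uF ρ a q R F x‖ₑ ^ (2 : ℝ) ≤ ENNReal.ofReal K * volume F := by
  have hρc : Continuous ρ := hρ.sm.continuous
  have hρs : HasCompactSupport ρ := by
    refine HasCompactSupport.of_support_subset_isCompact (isCompact_closedBall (0 : E d) κ) ?_
    intro v hv
    by_contra h
    have h1 : κ < ‖v‖ := by simpa using h
    exact hv (hρ.supp v h1)
  have hρi : Integrable ρ := hρc.integrable_of_hasCompactSupport hρs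
  set B : ℝ := (∫⁻ v, ‖ρ v‖ₑ).toReal with hB
  have hB0 : 0 ≤ B := ENNReal.toReal_nonneg
  have hBe : ∫⁻ v, ‖ρ v‖ₑ = ENNReal.ofReal B := (ENNReal.ofReal_toReal hρi.2.ne).symm
  refine ⟨(2 * π) ^ d * ((|A 0|) ^ 2 * B ^ 2) + 1, by positivity, ?_⟩
  intro a q r R hR ha hq F hF
  have hR0 : 0 < R := by linarith
  by_cases hFt : volume F = ⊤
  · rw [hFt, ENNReal.mul_top]
    · exact le_top
    · exact (ENNReal.ofReal_pos.2 (by positivity)).ne'
  have hab : ∀ y, ‖a y‖ ≤ |A 0| := by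
    intro y
    have := ha.bd 0 y
    rw [norm_iteratedFDeriv_zero, pow_zero, mul_one] at this
    exact this.trans (le_abs_self _)
  have hkm : Measurable (Function.uncurry fun z y : E d => R ^ d * ρ (R • (y - z))) := by
    have : Continuous (fun p : E d × E d => R ^ d * ρ (R • (p.2 - p.1))) := by fun_prop
    exact this.measurable
  have h := (L2_ker d |A 0| B (abs_nonneg _) hB0 a ha.sm.continuous.measurable hab q hq.measurable
    (fun z y => R ^ d * ρ (R • (y - z))) hkm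
    (fun y => by rw [← hBe]; exact ((lint_scaled d ρ R hR0).2 y).le)
    (fun z => by rw [← hBe]; exact ((lint_scaled d ρ R hR0).1 z).le) F hFt).2
  calc ∫⁻ x, ‖uF ρ a q R F x‖ₑ ^ (2 : ℝ)
      ≤ ENNReal.ofReal ((2 * π) ^ d * ((|A 0|) ^ 2 * B ^ 2)) * volume F := h
    _ ≤ _ := by
      gcongr
      linarith

/-- A4. Supremum bound. -/
theorem sup_cR (d : ℕ) (A : ℕ → ℝ) (κ : ℝ) (ρ : E d → ℝ) (hρ : Ker κ ρ) : ∃ K : ℝ, 0 < K ∧
    ∀ (a : E d → ℂ) (q : E d → ℝ) (r R : ℝ), 1 ≤ R → AmpR d A r R a → Phq d A R q →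
    ∀ F : Set (E d), MeasurableSet F → ∀ N : ℝ≥0∞,
      (∀ x, volume {z | z ∈ F ∧ ‖x - gr q z‖ ≤ R} ≤ N) → ∀ x,
        ‖uF ρ a q R F x‖ₑ ≤ ENNReal.ofReal K * N := by
  obtain ⟨K, hK, hp⟩ := packet_cR d A κ ρ hρ
  obtain ⟨C, hC, h⟩ := sup_gen d
  refine ⟨C * K, by positivity, fun a q r R hR ha hq F _ N hN x => ?_⟩
  exact h (gr q) (uz ρ a q R) K R F N (continuous_gr hq.sm).measurable hK.le (by linarith)
    (hp a q r R hR ha hq) hN x

/-- A5. `L^p` bound. -/
theorem fam_cR (d : ℕ) (A : ℕ → ℝ) (κ : ℝ) (ρ : E d → ℝ) (hρ : Ker κ ρ) (p : ℝ) (hp : 2 ≤ p) :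
    ∃ K : ℝ, 0 < K ∧
    ∀ (a : E d → ℂ) (q : E d → ℝ) (r R : ℝ), 1 ≤ R → AmpR d A r R a → Phq d A R q →
    ∀ F : Set (E d), MeasurableSet F → ∀ N : ℝ≥0∞,
      (∀ x, volume {z | z ∈ F ∧ ‖x - gr q z‖ ≤ R} ≤ N) →
        ∫⁻ x, ‖uF ρ a q R F x‖ₑ ^ p ≤ ENNReal.ofReal K * N ^ (p - 2) * volume F := by
  obtain ⟨K1, hK1, h1⟩ := sup_cR d A κ ρ hρ
  obtain ⟨K2, hK2, h2⟩ := L2_cR d A κ ρ hρ
  refine ⟨K1 ^ (p - 2) * K2, by positivity, ?_⟩
  intro a q r R hR ha hq F hF N hN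
  have hp0 : 0 < p := by linarith
  -- a null set
  rcases eq_or_ne (volume F) 0 with hF0 | hF0
  · have h3 : ∀ x, uF ρ a q R F x = 0 := by
      intro x
      rw [uF, Measure.restrict_eq_zero.2 hF0, integral_zero_measure]
    simp only [h3, enorm_zero, ENNReal.zero_rpow_of_pos hp0, lintegral_zero, zero_le]
  have hL2 := h2 a q r R hR ha hq.sm.continuous F hF
  rcases eq_or_lt_of_le hp with rfl | hp2
  · rw [sub_self, ENNReal.rpow_zero, mul_one, Real.rpow_zero, one_mul]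
    exact hL2
  rcases eq_or_ne N ⊤ with rfl | hNt
  · rw [ENNReal.top_rpow_of_pos (by linarith), ENNReal.mul_top, ENNReal.top_mul hF0]
    · exact le_top
    · exact (ENNReal.ofReal_pos.2 (by positivity)).ne'
  have hS : ENNReal.ofReal K1 * N ≠ ⊤ := ENNReal.mul_ne_top ENNReal.ofReal_ne_top hNt
  calc ∫⁻ x, ‖uF ρ a q R F x‖ₑ ^ p
      ≤ (ENNReal.ofReal K1 * N) ^ (p - 2) * ∫⁻ x, ‖uF ρ a q R F x‖ₑ ^ (2 : ℝ) :=
        interp volume _ hp hS (h1 a q r R hR ha hq F hF N hN)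
    _ ≤ (ENNReal.ofReal K1 * N) ^ (p - 2) * (ENNReal.ofReal K2 * volume F) := by gcongr
    _ = ENNReal.ofReal (K1 ^ (p - 2) * K2) * N ^ (p - 2) * volume F := by
        rw [ENNReal.mul_rpow_of_nonneg _ _ (by linarith),
          ENNReal.ofReal_rpow_of_nonneg hK1.le (by linarith),
          ENNReal.ofReal_mul (by positivity)]
        ring

theorem keyR (d : ℕ) (hd : 1 ≤ d) (A : ℕ → ℝ) (r r' p ε α : ℝ) (hr : 0 < r) (hr' : r < r')
    (hp : 2 < p) (hε : 0 < ε) (hα : 0 ≤ α) (hαp : α ≤ p - 2) : ∃ K : ℝ, 0 < K ∧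
    ∀ (a : E d → ℂ) (q : E d → ℝ) (R : ℝ), 1 ≤ R → AmpR d A r R a → Phq d A R q →
    ∫⁻ x, ‖uu a q x‖ₑ ^ p ≤ ENNReal.ofReal (K * R ^ ε) *
      ∫⁻ y in Metric.closedBall (0 : E d) r',
        ENNReal.ofReal ((1 + |(Hs q y).det| / R ^ d) ^ (-α)) := by
  set β : ℝ := p - 2 with hβ
  have hβ0 : 0 < β := by rw [hβ]; linarith
  set ε' : ℝ := ε / (2 * β) with hε'
  have hε'0 : 0 < ε' := by positivity
  obtain ⟨ρ, hρ, hρ1⟩ := exists_ker d (r' - r) (by linarith)
  obtain ⟨K5, hK5, hfam⟩ := fam_cR d A (r' - r) ρ hρ p hp.le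
  obtain ⟨K2, hK2, hcnt⟩ := count_int d A r' ε' hε'0
  -- bound for the determinant
  set C1 : ℝ := 2 + |A 2| ^ d with hC1
  have hC11 : 1 ≤ C1 := by
    have : 0 ≤ |A 2| ^ d := by positivity
    linarith
  obtain ⟨CL, hCL, hcount⟩ := classes_count' p (ε / 2) d (by linarith) (by linarith)
    (Nat.cast_nonneg d) C1 hC11
  set V : ℝ := (volume (Metric.closedBall (0 : E d) r')).toReal with hV
  have hVt : volume (Metric.closedBall (0 : E d) r') ≠ ⊤ :=
    (isCompact_closedBall (0 : E d) r').measure_ne_top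
  have hV0 : 0 ≤ V := ENNReal.toReal_nonneg
  set K3 : ℝ := V + 2 * K2 with hK3
  have hK30 : 0 < K3 := by positivity
  refine ⟨CL * (K5 * K3 ^ β * 2 ^ β), by positivity, fun a q R hR hA hQ => ?_⟩
  have hR0 : 0 < R := by linarith
  have hqc : Continuous q := hQ.sm.continuous
  have hac : Continuous a := hA.sm.continuous
  set D : E d → ℝ := fun y => |(Hs q y).det| / R ^ d with hD
  have hDc : Continuous D := ((continuous_det_Hs hQ.sm).abs).div_const _
  have hD0 : ∀ y, 0 ≤ D y := fun y => by rw [hD]; positivity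
  have hDle : ∀ y, 1 + D y ≤ C1 * R ^ (d : ℝ) := by
    intro y
    have h1 : |(Hs q y).det| ≤ ‖Hs q y‖ ^ d := abs_det_le _
    have h2 : ‖Hs q y‖ ≤ |A 2| * R ^ 2 :=
      (norm_Hs_le hQ.sm y).trans ((hQ.bd 2 le_rfl y).trans
        (mul_le_mul_of_nonneg_right (le_abs_self _) (by positivity)))
    have h3 : |(Hs q y).det| ≤ |A 2| ^ d * (R ^ d * R ^ d) := by
      refine h1.trans ((pow_le_pow_left₀ (norm_nonneg _) h2 d).trans (le_of_eq ?_))
      rw [mul_pow]; ring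
    have h4 : D y ≤ |A 2| ^ d * R ^ d := by
      rw [hD]
      simp only
      rw [div_le_iff₀ (by positivity)]
      linarith
    rw [Real.rpow_natCast]
    have h5 : (1 : ℝ) ≤ R ^ d := one_le_pow₀ hR
    rw [hC1]
    nlinarith
  set cl : E d → ℕ := fun y => ⌊Real.logb 2 (1 + D y)⌋₊ with hcl
  have hclm : Measurable cl := by
    refine Nat.measurable_floor.comp ?_
    exact (Real.measurable_log.comp (by fun_prop)).div_const _
  set L : ℕ := ⌊Real.logb 2 (C1 * R ^ (d : ℝ))⌋₊ + 1 with hL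
  set F : ℕ → Set (E d) := fun j => Metric.closedBall 0 r' ∩ {y | cl y = j} with hF
  have hFm : ∀ j, MeasurableSet (F j) := fun j =>
    measurableSet_closedBall.inter (hclm (measurableSet_singleton j))
  have hFd : ∀ i j, i ≠ j → Disjoint (F i) (F j) := by
    intro i j hij
    rw [Set.disjoint_left]
    rintro y ⟨-, h1⟩ ⟨-, h2⟩
    exact hij (h1.symm.trans h2)
  have hFU : (⋃ j ∈ Finset.range L, F j) = Metric.closedBall (0 : E d) r' := by
    ext y
    simp only [Set.mem_iUnion, Finset.mem_range, exists_prop]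
    constructor
    · rintro ⟨j, -, h, -⟩
      exact h
    · intro hy
      refine ⟨cl y, ?_, hy, rfl⟩
      rw [hL, Nat.lt_succ_iff]
      apply Nat.floor_le_floor
      exact Real.logb_le_logb_of_le (by norm_num) (by linarith [hD0 y]) (hDle y)
  -- bounds on the classes
  have hbd : ∀ j, ∀ y ∈ F j, (2 : ℝ) ^ j ≤ 1 + D y ∧ 1 + D y ≤ 2 * 2 ^ j := by
    rintro j y ⟨-, hj⟩
    have hpos : 0 < 1 + D y := by linarith [hD0 y]
    have hln : 0 ≤ Real.logb 2 (1 + D y) := Real.logb_nonneg (by norm_num) (by linarith [hD0 y])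
    have h3 : (j : ℝ) ≤ Real.logb 2 (1 + D y) := by
      rw [← hj]
      exact Nat.floor_le hln
    have h4 : Real.logb 2 (1 + D y) ≤ (j : ℝ) + 1 := by
      rw [← hj]
      exact (Nat.lt_floor_add_one _).le
    constructor
    · have := (Real.le_logb_iff_rpow_le (by norm_num) hpos).1 h3
      rwa [Real.rpow_natCast] at this
    · have h5 := (Real.logb_le_iff_le_rpow (by norm_num) hpos).1 h4
      rw [Real.rpow_add (by norm_num), Real.rpow_one, Real.rpow_natCast] at h5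
      linarith
  -- multiplicities
  have hmul : ∀ j x, volume {z | z ∈ F j ∧ ‖x - gr q z‖ ≤ R} ≤
      ENNReal.ofReal (K3 * R ^ ε' * ((2 : ℝ) ^ j)⁻¹) := by
    intro j x
    have hgr : Continuous (gr q) := (contDiff_gr hQ.sm).continuous
    have hYm : MeasurableSet {z | z ∈ F j ∧ ‖x - gr q z‖ ≤ R} := by
      refine (hFm j).inter ?_
      exact measurableSet_le ((continuous_const.sub hgr).norm.measurable) measurable_const
    set Y : Set (E d) := {z | z ∈ F j ∧ ‖x - gr q z‖ ≤ R} with hY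
    have hYB : Y ⊆ Metric.closedBall 0 r' := fun z hz => hz.1.1
    have hRε : 1 ≤ R ^ ε' := Real.one_le_rpow hR hε'0.le
    rcases Nat.eq_zero_or_pos j with rfl | hj
    · refine (measure_mono hYB).trans ?_
      rw [← ENNReal.ofReal_toReal hVt]
      apply ENNReal.ofReal_le_ofReal
      rw [← hV, pow_zero, inv_one, mul_one]
      have : V ≤ K3 := by rw [hK3]; linarith
      calc V ≤ K3 * 1 := by linarith
        _ ≤ K3 * R ^ ε' := mul_le_mul_of_nonneg_left hRε hK30.le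
    · have h1 := hcnt q R hR hQ Y hYm hYB x fun y hy => hy.2
      have h2 : ENNReal.ofReal (2 ^ j / 2 * R ^ d) * volume Y ≤
          ∫⁻ y in Y, ENNReal.ofReal |(Hs q y).det| := by
        rw [← setLIntegral_const]
        refine setLIntegral_mono' hYm fun y hy => ENNReal.ofReal_le_ofReal ?_
        have h3 := (hbd j y hy.1).1
        have h4 : (2 : ℝ) ≤ 2 ^ j := by
          calc (2 : ℝ) = 2 ^ 1 := by norm_num
            _ ≤ 2 ^ j := pow_le_pow_right₀ (by norm_num) hj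
        have h5 : 2 ^ j / 2 ≤ D y := by linarith
        rw [hD] at h5
        simp only at h5
        rwa [le_div_iff₀ (by positivity)] at h5
      have h6 := h2.trans h1
      have h7 : volume Y ≤ ENNReal.ofReal (K2 * R ^ ((d : ℝ) + ε')) /
          ENNReal.ofReal (2 ^ j / 2 * R ^ d) := by
        rw [ENNReal.le_div_iff_mul_le (Or.inl ?_) (Or.inl ENNReal.ofReal_ne_top), mul_comm]
        · exact h6
        · rw [Ne, ENNReal.ofReal_eq_zero, not_le]
          positivity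
      refine h7.trans ?_
      rw [← ENNReal.ofReal_div_of_pos (by positivity)]
      apply ENNReal.ofReal_le_ofReal
      rw [Real.rpow_add hR0, Real.rpow_natCast]
      have h8 : K2 * (R ^ d * R ^ ε') / (2 ^ j / 2 * R ^ d) = 2 * K2 * R ^ ε' * ((2 : ℝ) ^ j)⁻¹ := by
        field_simp
      rw [h8]
      have h9 : 2 * K2 ≤ K3 := by rw [hK3]; linarith
      exact mul_le_mul_of_nonneg_right (mul_le_mul_of_nonneg_right h9 (by positivity))
        (by positivity)
  -- one class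
  set g : E d → ℝ≥0∞ := fun y => ENNReal.ofReal ((1 + |(Hs q y).det| / R ^ d) ^ (-α)) with hg
  have hRhalf : (R ^ ε') ^ β = R ^ (ε / 2) := by
    rw [← Real.rpow_mul hR0.le]
    congr 1
    rw [hε']
    field_simp
  have hone : ∀ j, ∫⁻ x, ‖uF ρ a q R (F j) x‖ₑ ^ p ≤
      ENNReal.ofReal (K5 * K3 ^ β * 2 ^ β * R ^ (ε / 2)) * ∫⁻ y in F j, g y := by
    intro j
    refine (hfam a q r R hR hA hQ (F j) (hFm j) _ (hmul j)).trans ?_
    rw [← hβ, ENNReal.ofReal_rpow_of_nonneg (by positivity) hβ0.le, ← ENNReal.ofReal_mul hK5.le]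
    have e1 : K5 * (K3 * R ^ ε' * ((2 : ℝ) ^ j)⁻¹) ^ β =
        (K5 * K3 ^ β * 2 ^ β * R ^ (ε / 2)) * ((2 * (2 : ℝ) ^ j) ^ (-β)) := by
      rw [Real.mul_rpow (by positivity) (by positivity), Real.mul_rpow hK30.le (by positivity),
        hRhalf, Real.mul_rpow (by norm_num) (by positivity), Real.rpow_neg (by norm_num),
        Real.rpow_neg (by positivity), Real.inv_rpow (by positivity)]
      have : (2 : ℝ) ^ β ≠ 0 := by positivity
      field_simp
    rw [e1, ENNReal.ofReal_mul (by positivity), mul_assoc]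
    refine mul_le_mul_right ?_ _
    rw [← setLIntegral_const]
    refine setLIntegral_mono' (hFm j) fun y hy => ENNReal.ofReal_le_ofReal ?_
    obtain ⟨h1, h2⟩ := hbd j y hy
    have h3 : (1 : ℝ) ≤ 1 + D y := by linarith [hD0 y]
    calc (2 * (2 : ℝ) ^ j) ^ (-β) ≤ (1 + D y) ^ (-β) :=
          Real.rpow_le_rpow_of_nonpos (by linarith) h2 (by linarith)
      _ ≤ (1 + D y) ^ (-α) := Real.rpow_le_rpow_of_exponent_le h3 (by linarith)
  -- the sum
  have hsum : ∀ x, uu a q x = ∑ j ∈ Finset.range L, uF ρ a q R (F j) x := by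
    intro x
    rw [← uF_biUnion d (r' - r) ρ hρ a q r R hR hac hA.supp hqc F hFm hFd x L, hFU]
    exact (fubini_all d (r' - r) ρ hρ hρ1 a q r r' R hR (by linarith) hac hA.supp hqc x).symm
  have hpm : ∀ x, ‖uu a q x‖ₑ ^ p ≤ (L : ℝ≥0∞) ^ (p - 1) *
      ∑ j ∈ Finset.range L, ‖uF ρ a q R (F j) x‖ₑ ^ p := by
    intro x
    rw [hsum x]
    have h1 := ENNReal.rpow_sum_le_const_mul_sum_rpow (Finset.range L)
      (fun j => ‖uF ρ a q R (F j) x‖ₑ) (by linarith : (1 : ℝ) ≤ p)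
    rw [Finset.card_range] at h1
    exact (ENNReal.rpow_le_rpow (enorm_sum_le _ _) (by linarith)).trans h1
  have hLp : (L : ℝ≥0∞) ^ (p - 1) ≤ ENNReal.ofReal (CL * R ^ (ε / 2)) := by
    rw [← ENNReal.ofReal_natCast, ENNReal.ofReal_rpow_of_nonneg (by positivity) (by linarith)]
    exact ENNReal.ofReal_le_ofReal (hcount R hR)
  have hcont : ∀ j, Continuous (uF ρ a q R (F j)) := fun j =>
    continuous_uF d (r' - r) ρ hρ a q r R hR hac hA.supp hqc (F j) (hFm j)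
  calc ∫⁻ x, ‖uu a q x‖ₑ ^ p
      ≤ ∫⁻ x, (L : ℝ≥0∞) ^ (p - 1) * ∑ j ∈ Finset.range L, ‖uF ρ a q R (F j) x‖ₑ ^ p :=
        lintegral_mono hpm
    _ = (L : ℝ≥0∞) ^ (p - 1) * ∑ j ∈ Finset.range L, ∫⁻ x, ‖uF ρ a q R (F j) x‖ₑ ^ p := by
        rw [lintegral_const_mul' _ _ (by
          exact ENNReal.rpow_ne_top_of_nonneg (by linarith) (ENNReal.natCast_ne_top L)),
          lintegral_finsetSum]
        intro j _
        exact ((hcont j).enorm.measurable).pow_const _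
    _ ≤ ENNReal.ofReal (CL * R ^ (ε / 2)) * ∑ j ∈ Finset.range L,
          ENNReal.ofReal (K5 * K3 ^ β * 2 ^ β * R ^ (ε / 2)) * ∫⁻ y in F j, g y :=
        mul_le_mul' hLp (Finset.sum_le_sum fun j _ => hone j)
    _ = ENNReal.ofReal (CL * (K5 * K3 ^ β * 2 ^ β) * R ^ ε) *
          ∫⁻ y in Metric.closedBall (0 : E d) r', g y := by
        rw [← Finset.mul_sum, ← mul_assoc, ← ENNReal.ofReal_mul (by positivity)]
        congr 1
        · congr 1
          have : R ^ ε = R ^ (ε / 2) * R ^ (ε / 2) := by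
            rw [← Real.rpow_add hR0]; congr 1; ring
          rw [this]; ring
        · rw [← lintegral_biUnion_finset ?_ (fun j _ => hFm j), hFU]
          intro i _ j _ hij
          exact hFd i j hij

end Pool.Agent.GNP
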