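import Pool.Agent.GNP.Defs3
import Pool.Agent.GNP.KR

namespace Pool.Agent.GNP

open MeasureTheory Set Pool.Agent.MP_6cbfb8_an
open scoped ENNReal Real RealInnerProductSpace ContDiff

/-! ## Mollification: the error in `L¹` -/

theorem mo_bd {d : ℕ} {κ : ℝ} {η : E d → ℝ} (hη : Ker κ η) : ∃ M : ℝ, 0 < M ∧ ∀ v, |η v| ≤ M := by
  have hc : HasCompactSupport η := by
    refine HasCompactSupport.intro (isCompact_closedBall (0 : E d) κ) fun v hv => hη.supp v ?_
    rw [mem_closedBall_zero_iff, not_le] at hv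
    exact hv
  obtain ⟨M, hM⟩ := hc.exists_bound_of_continuous hη.sm.continuous
  exact ⟨max M 1, by positivity, fun v => (hM v).trans (le_max_left _ _)⟩

theorem mo_one {d : ℕ} {η : E d → ℝ} (h1 : ∫ v, η v = 1) {P : ℝ} (hP : 0 < P) (y : E d) :
    ∫ v, P ^ d * η (P • (y - v)) = 1 := by
  rw [integral_const_mul]
  have h2 : ∫ v, η (P • (y - v)) = ∫ v, η (P • v) :=
    integral_sub_left_eq_self (fun v => η (P • v)) volume y
  rw [h2, Measure.integral_comp_smul, h1, finrank_euclideanSpace_fin, smul_eq_mul, mul_one,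
    abs_of_pos (by positivity), mul_inv_cancel₀ (by positivity)]

theorem mo_hcs {d : ℕ} {η : E d → ℝ} (hη : Ker 1 η) {P : ℝ} (hP : 0 < P) (y v : E d)
    (hv : v ∉ Metric.closedBall y (1 / P)) : η (P • (y - v)) = 0 := by
  apply hη.supp
  rw [Metric.mem_closedBall, not_le, dist_comm, dist_eq_norm, div_lt_iff₀ hP] at hv
  rw [norm_smul, Real.norm_of_nonneg hP.le, mul_comm]
  exact hv

theorem mo_cont {d : ℕ} {η : E d → ℝ} (hη : Ker 1 η) (P : ℝ) (y : E d) :
    Continuous fun v => P ^ d * η (P • (y - v)) := by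
  have := hη.sm.continuous
  fun_prop

theorem mo_ker_int {d : ℕ} {η : E d → ℝ} (hη : Ker 1 η) {P : ℝ} (hP : 0 < P) (y : E d) :
    Integrable fun v => P ^ d * η (P • (y - v)) := by
  refine (mo_cont hη P y).integrable_of_hasCompactSupport ?_
  refine HasCompactSupport.intro (isCompact_closedBall y (1 / P)) fun v hv => ?_
  rw [mo_hcs hη hP y v hv, mul_zero]

theorem mo_sub {d : ℕ} {η : E d → ℝ} (hη : Ker 1 η) (h1 : ∫ v, η v = 1) {M : ℝ}
    (hM : ∀ v, |η v| ≤ M) {a : E d → ℂ} (ham : Measurable a) (ha : ∀ y, ‖a y‖ ≤ 1) {P : ℝ}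
    (hP : 0 < P) (y : E d) :
    ‖mo η a P y - a y‖ₑ ≤
      ENNReal.ofReal (M * P ^ d) * ∫⁻ v in Metric.closedBall y (1 / P), ‖a y - a v‖ₑ := by
  have hM0 : 0 ≤ M := (abs_nonneg _).trans (hM 0)
  have hk := mo_ker_int hη hP y
  have hk' : Integrable fun v => ((P ^ d * η (P • (y - v)) : ℝ) : ℂ) := hk.ofReal
  have hka : Integrable fun v => ((P ^ d * η (P • (y - v)) : ℝ) : ℂ) * a v := by
    refine hk'.mul_bdd (c := 1) ham.aestronglyMeasurable (Filter.Eventually.of_forall ha)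
  have h2 : a y = ∫ v, ((P ^ d * η (P • (y - v)) : ℝ) : ℂ) * a y := by
    rw [integral_mul_const, integral_complex_ofReal, mo_one h1 hP]
    simp
  have h3 : mo η a P y - a y = ∫ v, ((P ^ d * η (P • (y - v)) : ℝ) : ℂ) * (a v - a y) := by
    conv_lhs => rw [h2]
    unfold mo
    rw [← integral_sub hka (hk'.mul_const _)]
    refine integral_congr_ae (Filter.Eventually.of_forall fun v => ?_)
    simp only
    ring
  rw [h3]
  refine (enorm_integral_le_lintegral_enorm _).trans ?_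
  rw [← lintegral_const_mul' _ _ ENNReal.ofReal_ne_top,
    ← lintegral_indicator Metric.isClosed_closedBall.measurableSet]
  refine lintegral_mono fun v => ?_
  by_cases hv : v ∈ Metric.closedBall y (1 / P)
  · rw [indicator_of_mem hv, enorm_mul, ← enorm_neg (a v - a y), neg_sub]
    gcongr
    rw [← ofReal_norm, Complex.norm_real, Real.norm_eq_abs, abs_mul, abs_of_pos (by positivity),
      mul_comm]
    exact ENNReal.ofReal_le_ofReal (mul_le_mul_of_nonneg_right (hM _) (by positivity))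
  · rw [indicator_of_notMem hv, mo_hcs hη hP y v hv]
    simp

/-- The error of the mollification in `L¹`. -/
theorem mo_err {d : ℕ} {η : E d → ℝ} (hη : Ker 1 η) (h1 : ∫ v, η v = 1) {M : ℝ}
    (hM : ∀ v, |η v| ≤ M) {a : E d → ℂ} (ham : Measurable a) (ha : ∀ y, ‖a y‖ ≤ 1) {s V P : ℝ}
    (hV : BVE d s V a) (hP : 0 < P) :
    ∫⁻ y, ‖mo η a P y - a y‖ₑ ≤ ENNReal.ofReal (M * V * P ^ (-s)) := by
  have hM0 : 0 ≤ M := (abs_nonneg _).trans (hM 0)
  refine (lintegral_mono fun y => mo_sub hη h1 hM ham ha hP y).trans ?_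
  rw [lintegral_const_mul' _ _ ENNReal.ofReal_ne_top]
  refine (mul_le_mul_right (hV (1 / P) (by positivity)) _).trans ?_
  rw [← ENNReal.ofReal_mul (by positivity)]
  apply ENNReal.ofReal_le_ofReal
  apply le_of_eq
  have h2 : (1 / P) ^ ((d : ℝ) + s) = (P ^ d)⁻¹ * P ^ (-s) := by
    rw [one_div, Real.inv_rpow hP.le, ← Real.rpow_neg hP.le, neg_add, Real.rpow_add hP,
      Real.rpow_neg hP.le, Real.rpow_natCast]
  rw [h2]
  have h3 : P ^ d ≠ 0 := by positivity
  field_simp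

theorem mo_measurable {d : ℕ} {η : E d → ℝ} (hη : Ker 1 η) {a : E d → ℂ} (ham : Measurable a)
    (P : ℝ) : StronglyMeasurable (mo η a P) := by
  have h1 : Measurable fun z : E d × E d => ((P ^ d * η (P • (z.1 - z.2)) : ℝ) : ℂ) * a z.2 := by
    refine Measurable.mul ?_ (ham.comp measurable_snd)
    have := hη.sm.continuous
    have h2 : Continuous fun z : E d × E d => ((P ^ d * η (P • (z.1 - z.2)) : ℝ) : ℂ) := by
      fun_prop
    exact h2.measurable
  exact h1.stronglyMeasurable.integral_prod_right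

/-- The pieces of the Littlewood-Paley decomposition in `L¹`. -/
theorem mf_err {d : ℕ} {η : E d → ℝ} (hη : Ker 1 η) (h1 : ∫ v, η v = 1) {M : ℝ}
    (hM : ∀ v, |η v| ≤ M) {a : E d → ℂ} (ham : Measurable a) (ha : ∀ y, ‖a y‖ ≤ 1) {s V P : ℝ}
    (hs : 0 ≤ s) (hV0 : 0 ≤ V) (hV : BVE d s V a) (hP : 0 < P) :
    ∫⁻ y, ‖mf η a P y‖ₑ ≤ ENNReal.ofReal (2 * M * V * P ^ (-s)) := by
  have hM0 : 0 ≤ M := (abs_nonneg _).trans (hM 0)
  have h2 := mo_err hη h1 hM ham ha hV hP
  have h3 := mo_err hη h1 hM ham ha hV (P := 2 * P) (by positivity)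
  have h4 : ∫⁻ y, ‖mf η a P y‖ₑ ≤
      (∫⁻ y, ‖mo η a (2 * P) y - a y‖ₑ) + ∫⁻ y, ‖mo η a P y - a y‖ₑ := by
    rw [← lintegral_add_left]
    · refine lintegral_mono fun y => ?_
      have h5 : mf η a P y = (mo η a (2 * P) y - a y) - (mo η a P y - a y) := by
        unfold mf
        ring
      rw [h5]
      exact enorm_sub_le
    · exact (((mo_measurable hη ham (2 * P)).measurable.sub ham)).enorm
  refine h4.trans ((add_le_add h3 h2).trans ?_)
  rw [← ENNReal.ofReal_add (by positivity) (by positivity)]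
  apply ENNReal.ofReal_le_ofReal
  have h6 : (2 * P) ^ (-s) ≤ P ^ (-s) :=
    Real.rpow_le_rpow_of_nonpos hP (by linarith) (by linarith)
  have h7 : M * V * (2 * P) ^ (-s) ≤ M * V * P ^ (-s) := by gcongr
  linarith

/-- The integral depends continuously on the amplitude in `L¹`. -/
theorem uu_sub_le {d : ℕ} {a a' : E d → ℂ} {q : E d → ℝ} (hq : Measurable q) (ha : Integrable a)
    (ha' : Integrable a') (x : E d) : ‖uu a q x - uu a' q x‖ₑ ≤ ∫⁻ y, ‖a y - a' y‖ₑ := by
  have hE : ∀ b : E d → ℂ, Integrable b →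
      Integrable fun y => b y * Complex.exp (((q y - ⟪x, y⟫ : ℝ) : ℂ) * Complex.I) := by
    intro b hb
    refine hb.mul_bdd (c := 1) ?_ (Filter.Eventually.of_forall fun y => ?_)
    · exact (Complex.measurable_exp.comp ((Complex.measurable_ofReal.comp (hq.sub
        (measurable_const.inner measurable_id))).mul measurable_const)).aestronglyMeasurable
    · rw [Complex.norm_exp_ofReal_mul_I]
  unfold uu
  rw [← integral_sub (hE a ha) (hE a' ha')]
  refine (enorm_integral_le_lintegral_enorm _).trans (lintegral_mono fun y => ?_)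
  rw [← sub_mul, enorm_mul]
  have : ‖Complex.exp (((q y - ⟪x, y⟫ : ℝ) : ℂ) * Complex.I)‖ₑ = 1 := by
    rw [← ofReal_norm, Complex.norm_exp_ofReal_mul_I]
    simp
  rw [this, mul_one]

theorem amp_int {d : ℕ} {a : E d → ℂ} (ham : Measurable a) (ha : ∀ y, ‖a y‖ ≤ 1) {r : ℝ}
    (hr : ∀ y, r < ‖y‖ → a y = 0) : Integrable a := by
  have h1 : Integrable (indicator (Metric.closedBall (0 : E d) r) fun _ => (1 : ℝ)) := by
    rw [integrable_indicator_iff Metric.isClosed_closedBall.measurableSet]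
    exact integrableOn_const (measure_closedBall_lt_top.ne)
  refine h1.mono' ham.aestronglyMeasurable (Filter.Eventually.of_forall fun y => ?_)
  by_cases hy : y ∈ Metric.closedBall (0 : E d) r
  · rw [indicator_of_mem hy]
    exact ha y
  · rw [indicator_of_notMem hy, hr y]
    · simp
    · rw [mem_closedBall_zero_iff, not_le] at hy
      exact hy

theorem mo_integrable {d : ℕ} {η : E d → ℝ} (hη : Ker 1 η) (h1 : ∫ v, η v = 1)
    {a : E d → ℂ} (ham : Measurable a) (ha : ∀ y, ‖a y‖ ≤ 1) {r : ℝ}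
    (hr : ∀ y, r < ‖y‖ → a y = 0) {s V P : ℝ} (hV : BVE d s V a) (hP : 0 < P) :
    Integrable (mo η a P) := by
  obtain ⟨M, hM0, hM⟩ := mo_bd hη
  have h2 := mo_err hη h1 hM ham ha hV hP
  have h3 : Integrable fun y => mo η a P y - a y := by
    refine ⟨((mo_measurable hη ham P).measurable.sub ham).aestronglyMeasurable, ?_⟩
    exact h2.trans_lt ENNReal.ofReal_lt_top
  have h4 := h3.add (amp_int ham ha hr)
  refine h4.congr (Filter.Eventually.of_forall fun y => ?_)
  simp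

/-- MO4. -/
theorem mf_L1 (d : ℕ) (η : E d → ℝ) (hη : Ker 1 η) (h1 : ∫ v, η v = 1) (s : ℝ) (hs0 : 0 ≤ s) :
    ∃ K : ℝ, 0 < K ∧ ∀ (a : E d → ℂ) (V r P : ℝ), 0 ≤ V → 1 ≤ P → Measurable a →
    (∀ y, ‖a y‖ ≤ 1) → (∀ y, r < ‖y‖ → a y = 0) → BVE d s V a →
    ∫⁻ y, ‖mf η a P y‖ₑ ≤ ENNReal.ofReal (K * V * P ^ (-s)) ∧
    ∫⁻ y, ‖a y - mo η a P y‖ₑ ≤ ENNReal.ofReal (K * V * P ^ (-s)) := by
  obtain ⟨M, hM0, hM⟩ := mo_bd hη
  refine ⟨2 * M, by positivity, fun a V r P hV0 hP ham ha _ hV => ?_⟩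
  have hP0 : 0 < P := by linarith
  refine ⟨mf_err hη h1 hM ham ha hs0 hV0 hV hP0, ?_⟩
  have h3 : ∫⁻ y, ‖a y - mo η a P y‖ₑ = ∫⁻ y, ‖mo η a P y - a y‖ₑ := by
    refine lintegral_congr fun y => ?_
    rw [← enorm_neg, neg_sub]
  rw [h3]
  refine (mo_err hη h1 hM ham ha hV hP0).trans (ENNReal.ofReal_le_ofReal ?_)
  have h4 : 0 ≤ M * V * P ^ (-s) := by positivity
  linarith

/-- MO5. -/
theorem mo_conv (d : ℕ) (η : E d → ℝ) (hη : Ker 1 η) (h1 : ∫ v, η v = 1) (s : ℝ) (_hs0 : 0 ≤ s) :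
    ∃ K : ℝ, 0 < K ∧
    ∀ (a : E d → ℂ) (q : E d → ℝ) (V r P : ℝ), 0 ≤ V → 1 ≤ P → Measurable a → (∀ y, ‖a y‖ ≤ 1) →
    (∀ y, r < ‖y‖ → a y = 0) → BVE d s V a → Measurable q → ∀ x,
      ‖uu a q x - uu (mo η a P) q x‖ ≤ K * V * P ^ (-s) := by
  obtain ⟨M, hM0, hM⟩ := mo_bd hη
  refine ⟨M, hM0, fun a q V r P hV0 hP ham ha hr hV hq x => ?_⟩
  have hP0 : 0 < P := by linarith
  have h2 := uu_sub_le hq (amp_int ham ha hr) (mo_integrable hη h1 ham ha hr hV hP0) x
  have h3 : ∫⁻ y, ‖a y - mo η a P y‖ₑ = ∫⁻ y, ‖mo η a P y - a y‖ₑ := by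
    refine lintegral_congr fun y => ?_
    rw [← enorm_neg, neg_sub]
  rw [h3] at h2
  have h4 := h2.trans (mo_err hη h1 hM ham ha hV hP0)
  rw [← ofReal_norm, ENNReal.ofReal_le_ofReal_iff (by positivity)] at h4
  exact h4

/-! ## MO1, MO3: the kernel and the size of the mollifications -/

/-- MO1. -/
theorem exists_ker_nn (d : ℕ) : ∃ η : E d → ℝ, Ker 1 η ∧ (∀ v, 0 ≤ η v) ∧ ∫ v, η v = 1 := by
  let f : ContDiffBump (0 : E d) := ⟨1 / 2, 1, by norm_num, by norm_num⟩
  refine ⟨f.normed volume, ⟨f.contDiff_normed, fun v hv => ?_⟩, f.nonneg_normed,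
    f.integral_normed⟩
  have h1 : v ∉ Function.support (f.normed volume) := by
    rw [f.support_normed_eq, Metric.mem_ball, dist_zero_right, not_lt]
    exact hv.le
  rwa [Function.notMem_support] at h1

/-- MO3, first half. -/
theorem mo_le_one {d : ℕ} {η : E d → ℝ} (hη : Ker 1 η) (h0 : ∀ v, 0 ≤ η v) (h1 : ∫ v, η v = 1)
    {a : E d → ℂ} (ha : ∀ y, ‖a y‖ ≤ 1) {P : ℝ} (hP : 0 < P) (y : E d) : ‖mo η a P y‖ ≤ 1 := by
  have h2 : ‖mo η a P y‖ₑ ≤ ENNReal.ofReal 1 := by
    refine (enorm_integral_le_lintegral_enorm _).trans ?_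
    rw [← mo_one h1 hP y, ofReal_integral_eq_lintegral_ofReal (mo_ker_int hη hP y)
      (Filter.Eventually.of_forall fun v => mul_nonneg (by positivity) (h0 _))]
    refine lintegral_mono fun v => ?_
    have h3 : 0 ≤ P ^ d * η (P • (y - v)) := mul_nonneg (by positivity) (h0 _)
    rw [enorm_mul, ← ofReal_norm, ← ofReal_norm, Complex.norm_real, Real.norm_of_nonneg h3,
      ← ENNReal.ofReal_mul h3]
    exact ENNReal.ofReal_le_ofReal (mul_le_of_le_one_right h3 (ha v))
  rw [← ofReal_norm, ENNReal.ofReal_le_ofReal_iff zero_le_one] at h2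
  exact h2

/-- MO3. -/
theorem mo_le (d : ℕ) (η : E d → ℝ) (hη : Ker 1 η) (h0 : ∀ v, 0 ≤ η v) (h1 : ∫ v, η v = 1)
    (a : E d → ℂ) (ha : ∀ y, ‖a y‖ ≤ 1) (P : ℝ) (hP : 0 < P) (y : E d) :
    ‖mo η a P y‖ ≤ 1 ∧ ‖mf η a P y‖ ≤ 2 := by
  have h2 := mo_le_one hη h0 h1 ha hP y
  have h3 := mo_le_one hη h0 h1 ha (P := 2 * P) (by positivity) y
  refine ⟨h2, (norm_sub_le _ _).trans ?_⟩
  linarith

/-! ## MO2: derivatives -/

open scoped Convolution

/-- Derivatives of a convolution. -/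
theorem conv_bound {d : ℕ} {g : E d → ℂ} (hg1 : ∀ v, ‖g v‖ ≤ 1)
    (hgi : LocallyIntegrable g volume) (κ : ℝ) (j : ℕ) :
    ∀ {F G : Type} [NormedAddCommGroup F] [NormedSpace ℝ F] [NormedAddCommGroup G]
      [NormedSpace ℝ G] (L : F →L[ℝ] ℂ →L[ℝ] G) (f : E d → F) (B : ℝ), ContDiff ℝ ∞ f →
      (∀ v, κ < ‖v‖ → f v = 0) → (∀ v, ‖iteratedFDeriv ℝ j f v‖ ≤ B) → ∀ y,
      ‖iteratedFDeriv ℝ j (f ⋆[L, volume] g) y‖ ≤
        ‖L‖ * B * volume.real (Metric.closedBall (0 : E d) κ) := by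
  induction j with
  | zero =>
    intro F G _ _ _ _ L f B hf h0 hB y
    rw [norm_iteratedFDeriv_zero]
    have hB' : ∀ v, ‖f v‖ ≤ B := fun v => by simpa using hB v
    have hB0 : 0 ≤ B := (norm_nonneg _).trans (hB' 0)
    have h1 : ∀ t, ‖L (f t) (g (y - t))‖ ≤
        indicator (Metric.closedBall (0 : E d) κ) (fun _ => ‖L‖ * B) t := by
      intro t
      by_cases ht : t ∈ Metric.closedBall (0 : E d) κ
      · rw [indicator_of_mem ht]
        refine (L.le_opNorm₂ _ _).trans ?_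
        calc ‖L‖ * ‖f t‖ * ‖g (y - t)‖ ≤ ‖L‖ * B * 1 := by
              gcongr
              · exact hB' t
              · exact hg1 _
          _ = ‖L‖ * B := mul_one _
      · rw [indicator_of_notMem ht, h0 t]
        · simp
        · rw [mem_closedBall_zero_iff, not_le] at ht
          exact ht
    have h2 : Integrable (indicator (Metric.closedBall (0 : E d) κ) fun _ => ‖L‖ * B) := by
      rw [integrable_indicator_iff Metric.isClosed_closedBall.measurableSet]
      exact integrableOn_const (measure_closedBall_lt_top.ne)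
    refine (norm_integral_le_of_norm_le h2 (Filter.Eventually.of_forall h1)).trans ?_
    rw [integral_indicator Metric.isClosed_closedBall.measurableSet, setIntegral_const,
      smul_eq_mul, mul_comm]
  | succ j ih =>
    intro F G _ _ _ _ L f B hf h0 hB y
    have hcs : HasCompactSupport f :=
      HasCompactSupport.intro (isCompact_closedBall (0 : E d) κ) fun v hv => h0 v (by
        rw [mem_closedBall_zero_iff, not_le] at hv
        exact hv)
    have h1 : fderiv ℝ (f ⋆[L, volume] g) = (fderiv ℝ f ⋆[L.precompL (E d), volume] g) := by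
      funext x
      exact (hcs.hasFDerivAt_convolution_left L (hf.of_le (by norm_cast)) hgi x).fderiv
    rw [← norm_iteratedFDeriv_fderiv, h1]
    have h2 : ContDiff ℝ ∞ (fderiv ℝ f) := hf.fderiv_right (by norm_cast)
    have h3 : ∀ v, κ < ‖v‖ → fderiv ℝ f v = 0 := by
      intro v hv
      have h4 : f =ᶠ[nhds v] fun _ => 0 := by
        filter_upwards [(isOpen_lt continuous_const continuous_norm).mem_nhds hv] with z hz
        exact h0 z hz
      rw [h4.fderiv_eq]
      simp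
    have h5 : ∀ v, ‖iteratedFDeriv ℝ j (fderiv ℝ f) v‖ ≤ B := by
      intro v
      rw [norm_iteratedFDeriv_fderiv]
      exact hB v
    refine (ih (L.precompL (E d)) (fderiv ℝ f) B h2 h3 h5 y).trans ?_
    have hB0 : 0 ≤ B := (norm_nonneg _).trans (h5 0)
    gcongr
    exact L.norm_precompL_le (E d)

theorem mo_eq_conv {d : ℕ} (η : E d → ℝ) (a : E d → ℂ) (P : ℝ) :
    mo η a P = ((fun v => P ^ d * η (P • v)) ⋆[ContinuousLinearMap.lsmul ℝ ℝ, volume] a) := by
  funext y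
  rw [convolution_eq_swap]
  unfold mo
  refine integral_congr_ae (Filter.Eventually.of_forall fun v => ?_)
  simp only [ContinuousLinearMap.lsmul_apply, Complex.real_smul]

theorem mo_contDiff {d : ℕ} {η : E d → ℝ} (hη : Ker 1 η) {a : E d → ℂ}
    (hai : LocallyIntegrable a volume) {P : ℝ} (hP : 0 < P) : ContDiff ℝ ∞ (mo η a P) := by
  rw [mo_eq_conv]
  refine HasCompactSupport.contDiff_convolution_left _ ?_ ?_ hai
  · refine HasCompactSupport.intro (isCompact_closedBall (0 : E d) (1 / P)) fun v hv => ?_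
    have h1 := mo_hcs hη hP 0 (-v) (by
      rw [mem_closedBall_zero_iff] at hv ⊢
      rwa [norm_neg])
    rw [zero_sub, neg_neg] at h1
    rw [h1, mul_zero]
  · exact contDiff_const.mul (hη.sm.comp (contDiff_id.const_smul P))

/-- The derivatives of the kernel. -/
theorem ker_der {d : ℕ} {η : E d → ℝ} (hη : Ker 1 η) (j : ℕ) : ∃ B : ℝ, 0 ≤ B ∧ ∀ (P : ℝ), 0 < P →
    ∀ v, ‖iteratedFDeriv ℝ j (fun v => P ^ d * η (P • v)) v‖ ≤ P ^ d * (P ^ j * B) := by
  have hcs : HasCompactSupport η :=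
    HasCompactSupport.intro (isCompact_closedBall (0 : E d) 1) fun v hv => hη.supp v (by
      rw [mem_closedBall_zero_iff, not_le] at hv
      exact hv)
  obtain ⟨B, hB⟩ := (hcs.iteratedFDeriv (𝕜 := ℝ) j).exists_bound_of_continuous
    (hη.sm.continuous_iteratedFDeriv (by exact_mod_cast le_top))
  refine ⟨B, (norm_nonneg _).trans (hB 0), fun P hP v => ?_⟩
  have h1 : ContDiff ℝ j η := hη.sm.of_le (by exact_mod_cast le_top)
  have h2 : (fun v => P ^ d * η (P • v)) = fun v => P ^ d • η (P • v) := rfl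
  have h3 : ContDiff ℝ j fun v : E d => η (P • v) := h1.comp (contDiff_id.const_smul P)
  rw [h2, iteratedFDeriv_const_smul_apply' h3.contDiffAt,
    iteratedFDeriv_comp_const_smul P h1, norm_smul, norm_smul,
    Real.norm_of_nonneg (by positivity), Real.norm_of_nonneg (by positivity)]
  gcongr
  exact hB _

open scoped Pointwise in
theorem vol_ball_scale {d : ℕ} {P : ℝ} (hP : 0 < P) :
    volume.real (Metric.closedBall (0 : E d) (1 / P)) =
      (P ^ d)⁻¹ * volume.real (Metric.closedBall (0 : E d) 1) := by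
  have h1 : Metric.closedBall (0 : E d) (1 / P) = P⁻¹ • Metric.closedBall (0 : E d) 1 := by
    rw [smul_unitClosedBall_of_nonneg (by positivity), one_div]
  rw [h1, measureReal_def, measureReal_def, Measure.addHaar_smul, finrank_euclideanSpace_fin,
    ENNReal.toReal_mul, ENNReal.toReal_ofReal (abs_nonneg _), abs_of_pos (by positivity), inv_pow]

theorem mo_der {d : ℕ} {η : E d → ℝ} (hη : Ker 1 η) (j : ℕ) : ∃ A : ℝ, 0 ≤ A ∧
    ∀ (a : E d → ℂ) (P : ℝ), 0 < P → LocallyIntegrable a volume → (∀ y, ‖a y‖ ≤ 1) → ∀ y,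
    ‖iteratedFDeriv ℝ j (mo η a P) y‖ ≤ A * P ^ j := by
  obtain ⟨B, hB0, hB⟩ := ker_der hη j
  refine ⟨‖(ContinuousLinearMap.lsmul ℝ ℝ : ℝ →L[ℝ] ℂ →L[ℝ] ℂ)‖ * B *
    volume.real (Metric.closedBall (0 : E d) 1), by positivity, fun a P hP hai ha y => ?_⟩
  rw [mo_eq_conv]
  have h1 := conv_bound ha hai (1 / P) j (ContinuousLinearMap.lsmul ℝ ℝ : ℝ →L[ℝ] ℂ →L[ℝ] ℂ)
    (fun v => P ^ d * η (P • v)) (P ^ d * (P ^ j * B))
    (contDiff_const.mul (hη.sm.comp (contDiff_id.const_smul P))) (fun v hv => ?_) (hB P hP) y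
  · refine h1.trans (le_of_eq ?_)
    rw [vol_ball_scale hP]
    have h2 : P ^ d ≠ 0 := by positivity
    field_simp
  · have h1 := mo_hcs hη hP 0 (-v) (by
      rw [mem_closedBall_zero_iff, norm_neg, not_le]
      exact hv)
    rw [zero_sub, neg_neg] at h1
    rw [h1, mul_zero]

theorem mo_supp {d : ℕ} {η : E d → ℝ} (hη : Ker 1 η) {a : E d → ℂ} {r : ℝ}
    (hr : ∀ y, r < ‖y‖ → a y = 0) {P : ℝ} (hP : 0 < P) (y : E d) (hy : r + 1 / P < ‖y‖) :
    mo η a P y = 0 := by
  unfold mo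
  rw [← integral_zero (E d) ℂ]
  refine integral_congr_ae (Filter.Eventually.of_forall fun v => ?_)
  by_cases hv : v ∈ Metric.closedBall y (1 / P)
  · have h1 : a v = 0 := by
      apply hr
      rw [Metric.mem_closedBall, dist_comm, dist_eq_norm] at hv
      have h2 : ‖y‖ ≤ ‖y - v‖ + ‖v‖ := by
        have := norm_add_le (y - v) v
        rwa [sub_add_cancel] at this
      linarith
    simp only [h1, mul_zero]
  · simp only [mo_hcs hη hP y v hv, mul_zero, Complex.ofReal_zero, zero_mul]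

/-- MO2. -/
theorem mo_amp (d : ℕ) (η : E d → ℝ) (hη : Ker 1 η) : ∃ A : ℕ → ℝ,
    ∀ (a : E d → ℂ) (r P : ℝ), 1 ≤ P → Measurable a → (∀ y, ‖a y‖ ≤ 1) →
    (∀ y, r < ‖y‖ → a y = 0) →
    AmpR d A (r + 1 / P) P (mo η a P) ∧ AmpR d A (r + 1 / P) P (mf η a P) := by
  choose A hA0 hA using fun j => mo_der hη j
  refine ⟨fun j => A j + A j * 2 ^ j, fun a r P hP ham ha hr => ?_⟩
  have hP0 : 0 < P := by linarith
  have hai : LocallyIntegrable a volume := (amp_int ham ha hr).locallyIntegrable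
  have h1 := mo_contDiff hη hai hP0
  have h2 := mo_contDiff hη hai (P := 2 * P) (by positivity)
  refine ⟨⟨h1, mo_supp hη hr hP0, fun j y => ?_⟩, ⟨h2.sub h1, fun y hy => ?_, fun j y => ?_⟩⟩
  · refine (hA j a P hP0 hai ha y).trans ?_
    have h3 : 0 ≤ A j * 2 ^ j * P ^ j := by
      have := hA0 j
      positivity
    linarith
  · unfold mf
    rw [mo_supp hη hr hP0 y hy, mo_supp hη hr (P := 2 * P) (by positivity) y, sub_zero]
    refine lt_of_le_of_lt ?_ hy
    have : 1 / (2 * P) ≤ 1 / P := by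
      apply one_div_le_one_div_of_le hP0
      linarith
    linarith
  · have h3 : mf η a P = mo η a (2 * P) - mo η a P := rfl
    have h4 : ContDiffAt ℝ j (mo η a (2 * P)) y := (h2.of_le (by exact_mod_cast le_top)).contDiffAt
    have h5 : ContDiffAt ℝ j (mo η a P) y := (h1.of_le (by exact_mod_cast le_top)).contDiffAt
    rw [h3, iteratedFDeriv_sub_apply h4 h5]
    refine (norm_sub_le _ _).trans ?_
    have h6 := hA j a (2 * P) (by positivity) hai ha y
    have h7 := hA j a P hP0 hai ha y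
    rw [mul_pow] at h6
    calc _ ≤ A j * (2 ^ j * P ^ j) + A j * P ^ j := add_le_add h6 h7
      _ = _ := by ring

end Pool.Agent.GNP
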