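import Pool.Agent.GNP.LL
import Pool.Agent.GNP.WMO

/-!
AP4: stable classes. For a measurable set `F` the amplitude `a` times the mollified indicator
function of `F` is again an amplitude at the same scale, supported near `F`.
-/

namespace Pool.Agent.GNP

open MeasureTheory Set Pool.Agent.MP_6cbfb8_an
open scoped ENNReal Real RealInnerProductSpace ContDiff

/-- The weight of the class `F`. -/
noncomputable def wF {d : ℕ} (ρ : E d → ℝ) (R : ℝ) (F : Set (E d)) (y : E d) : ℝ :=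
  ∫ z in F, R ^ d * ρ (R • (y - z))

/-- The amplitude of the class `F`. -/
noncomputable def aF {d : ℕ} (ρ : E d → ℝ) (a : E d → ℂ) (R : ℝ) (F : Set (E d)) (y : E d) : ℂ :=
  ((wF ρ R F y : ℝ) : ℂ) * a y

theorem Ker.mono {d : ℕ} {κ κ' : ℝ} {ρ : E d → ℝ} (h : Ker κ ρ) (hκ : κ ≤ κ') : Ker κ' ρ :=
  ⟨h.sm, fun v hv => h.supp v (by linarith)⟩

theorem wF_eq_mo {d : ℕ} (ρ : E d → ℝ) (R : ℝ) (F : Set (E d)) (hF : MeasurableSet F) (y : E d) :
    ((wF ρ R F y : ℝ) : ℂ) = mo ρ (F.indicator fun _ => (1 : ℂ)) R y := by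
  unfold wF mo
  rw [← integral_complex_ofReal, ← integral_indicator hF]
  refine integral_congr_ae (Filter.Eventually.of_forall fun z => ?_)
  simp only
  by_cases hz : z ∈ F
  · rw [indicator_of_mem hz, indicator_of_mem hz, mul_one]
  · rw [indicator_of_notMem hz, indicator_of_notMem hz, mul_zero]

theorem loc_ind {d : ℕ} (F : Set (E d)) (hF : MeasurableSet F) :
    LocallyIntegrable (F.indicator fun _ => (1 : ℂ)) (volume : Measure (E d)) :=
  (locallyIntegrable_const (1 : ℂ)).indicator hF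

/-- **Stable classes.** -/
theorem class_amp (d : ℕ) (κ : ℝ) (hκ : κ ≤ 1) (ρ : E d → ℝ) (hρ : Ker κ ρ) (A : ℕ → ℝ) :
    ∃ A' : ℕ → ℝ, ∀ (a : E d → ℂ) (r R : ℝ), 1 ≤ R → AmpR d A r R a →
      ∀ F : Set (E d), MeasurableSet F → AmpR d A' r R (aF ρ a R F) := by
  have hρ1 : Ker 1 ρ := hρ.mono hκ
  choose B hB0 hB using fun j => mo_der hρ1 j
  refine ⟨fun j => ∑ i ∈ Finset.range (j + 1), (j.choose i : ℝ) * B i * A (j - i), ?_⟩
  intro a r R hR ha F hF
  have hR0 : 0 < R := by linarith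
  have h1 : ∀ y, ‖F.indicator (fun _ => (1 : ℂ)) y‖ ≤ 1 := by
    intro y
    by_cases hy : y ∈ F
    · rw [indicator_of_mem hy, norm_one]
    · rw [indicator_of_notMem hy, norm_zero]
      exact zero_le_one
  have hw : ContDiff ℝ ∞ fun y => ((wF ρ R F y : ℝ) : ℂ) := by
    have : (fun y => ((wF ρ R F y : ℝ) : ℂ)) = mo ρ (F.indicator fun _ => (1 : ℂ)) R := by
      funext y
      exact wF_eq_mo ρ R F hF y
    rw [this]
    exact mo_contDiff hρ1 (loc_ind F hF) hR0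
  have hwb : ∀ i y, ‖iteratedFDeriv ℝ i (fun y => ((wF ρ R F y : ℝ) : ℂ)) y‖ ≤ B i * R ^ i := by
    intro i y
    have : (fun y => ((wF ρ R F y : ℝ) : ℂ)) = mo ρ (F.indicator fun _ => (1 : ℂ)) R := by
      funext y
      exact wF_eq_mo ρ R F hF y
    rw [this]
    exact hB i _ R hR0 (loc_ind F hF) h1 y
  refine ⟨hw.mul ha.sm, fun y hy => ?_, fun j y => ?_⟩
  · unfold aF
    rw [ha.supp y hy, mul_zero]
  · refine (norm_iteratedFDeriv_mul_le hw ha.sm y (n := j) (by exact_mod_cast le_top)).trans ?_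
    rw [Finset.sum_mul]
    refine Finset.sum_le_sum fun i hi => ?_
    rw [Finset.mem_range] at hi
    have h4 := hwb i y
    have h5 := ha.bd (j - i) y
    have h6 : 0 ≤ B i * R ^ i := (norm_nonneg _).trans h4
    have h7 : R ^ j = R ^ i * R ^ (j - i) := by
      rw [← pow_add]
      congr 1
      omega
    calc ((j.choose i : ℕ) : ℝ) * ‖iteratedFDeriv ℝ i (fun y => ((wF ρ R F y : ℝ) : ℂ)) y‖ *
          ‖iteratedFDeriv ℝ (j - i) a y‖
        ≤ ((j.choose i : ℕ) : ℝ) * (B i * R ^ i) * (A (j - i) * R ^ (j - i)) := by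
          gcongr
      _ = (j.choose i : ℝ) * B i * A (j - i) * R ^ j := by
          rw [h7]
          ring

/-- The class amplitude is supported near `F`. -/
theorem class_supp {d : ℕ} {κ : ℝ} {ρ : E d → ℝ} (hρ : Ker κ ρ) {a : E d → ℂ} {R : ℝ} (hR : 0 < R)
    {F : Set (E d)} {y : E d} (h : aF ρ a R F y ≠ 0) : a y ≠ 0 ∧ ∃ z ∈ F, ‖y - z‖ ≤ κ / R := by
  unfold aF at h
  obtain ⟨h1, h2⟩ := mul_ne_zero_iff.1 h
  refine ⟨h2, ?_⟩
  by_contra hcon
  push Not at hcon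
  refine h1 ?_
  rw [Complex.ofReal_eq_zero]
  unfold wF
  refine setIntegral_eq_zero_of_forall_eq_zero fun z hz => ?_
  have h3 := hcon z hz
  rw [hρ.supp, mul_zero]
  rw [norm_smul, Real.norm_of_nonneg hR.le]
  rw [div_lt_iff₀ hR] at h3
  linarith

theorem integrable_wF {d : ℕ} {κ : ℝ} {ρ : E d → ℝ} (hρ : Ker κ ρ) {R : ℝ} (hR : 0 < R) (y : E d) :
    Integrable fun z : E d => R ^ d * ρ (R • (y - z)) := by
  have hρc := hρ.sm.continuous
  have hc : Continuous fun z : E d => R ^ d * ρ (R • (y - z)) := by fun_prop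
  refine hc.integrable_of_hasCompactSupport ?_
  refine HasCompactSupport.intro (isCompact_closedBall y (|κ| / R)) fun z hz => ?_
  rw [Metric.mem_closedBall, not_le, dist_comm, dist_eq_norm, div_lt_iff₀ hR] at hz
  rw [hρ.supp, mul_zero]
  rw [norm_smul, Real.norm_of_nonneg hR.le]
  have := le_abs_self κ
  linarith

/-- The classes of a finite measurable partition add up. -/
theorem class_sum {d : ℕ} {κ : ℝ} {ρ : E d → ℝ} (hρ : Ker κ ρ) (h1 : ∫ v, ρ v = 1) {ι : Type*}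
    (s : Finset ι) (F : ι → Set (E d)) (hF : ∀ i ∈ s, MeasurableSet (F i))
    (hd : (s : Set ι).PairwiseDisjoint F) (hU : ⋃ i ∈ s, F i = univ) (a : E d → ℂ) {R : ℝ}
    (hR : 0 < R) (y : E d) : ∑ i ∈ s, aF ρ a R (F i) y = a y := by
  have h2 : ∑ i ∈ s, wF ρ R (F i) y = 1 := by
    unfold wF
    rw [← integral_biUnion_finset s hF hd fun i _ => (integrable_wF hρ hR y).integrableOn, hU,
      setIntegral_univ]
    exact mo_one h1 hR y
  unfold aF
  rw [← Finset.sum_mul, ← Complex.ofReal_sum, h2, Complex.ofReal_one, one_mul]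

/-- **Classes** in the form used for one level: kernel `chi`. -/
theorem classes (d : ℕ) (A : ℕ → ℝ) : ∃ A' : ℕ → ℝ, ∀ (a : E d → ℂ) (r R : ℝ), 1 ≤ R →
    AmpR d A r R a →
    (∀ F : Set (E d), MeasurableSet F →
      AmpR d A' r R (aF chi a R F) ∧
      ∀ y, aF chi a R F y ≠ 0 → a y ≠ 0 ∧ ∃ z ∈ F, ‖y - z‖ ≤ 1 / (4 * R)) ∧
    ∀ {ι : Type} (s : Finset ι) (F : ι → Set (E d)), (∀ i ∈ s, MeasurableSet (F i)) →
      (s : Set ι).PairwiseDisjoint F → ⋃ i ∈ s, F i = univ →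
      ∀ y, ∑ i ∈ s, aF chi a R (F i) y = a y := by
  obtain ⟨A', hA'⟩ := class_amp d (1 / 4) (by norm_num) chi (ker_chi d) A
  refine ⟨A', fun a r R hR ha => ⟨fun F hF => ⟨hA' a r R hR ha F hF, fun y hy => ?_⟩, ?_⟩⟩
  · obtain ⟨h1, z, hz, h2⟩ := class_supp (ker_chi d) (by linarith : (0:ℝ) < R) hy
    refine ⟨h1, z, hz, h2.trans (le_of_eq ?_)⟩
    rw [div_div]
  · intro ι s F hF hd hU y
    exact class_sum (ker_chi d) (integral_chi d) s F hF hd hU a (by linarith) y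

/-- The oscillatory integral of a class. -/
theorem uF_eq_uu (d : ℕ) (κ : ℝ) (ρ : E d → ℝ) (hρ : Ker κ ρ) (a : E d → ℂ) (q : E d → ℝ)
    (r R : ℝ) (hR : 1 ≤ R) (ha : Continuous a) (has : ∀ y, r < ‖y‖ → a y = 0) (hq : Continuous q)
    (F : Set (E d)) (hF : MeasurableSet F) (x : E d) : uF ρ a q R F x = uu (aF ρ a R F) q x :=
  fubini_c d κ ρ hρ a q r R hR ha has hq F hF x

end Pool.Agent.GNP
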