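import Pool.Agent.GNP.SUB
import Pool.Agent.VAN.F

/-!
Cuts in the phase.
-/

namespace Pool.Agent.GNP

open MeasureTheory Set Metric Pool.Agent.MP_6cbfb8_an
open scoped ENNReal Real RealInnerProductSpace ContDiff

lemma CUT_fam {n : ℕ} (f : E n → ℝ) (c : Fin 2 → ℝ) (x : E n) :
    VAN.fam ![fun _ => 1, f] c x = c 0 + c 1 * f x := by
  unfold VAN.fam
  rw [Fin.sum_univ_two]
  simp

lemma CUT_const {n : ℕ} (a : ℂ) (g : E n → ℂ) (ξ : E n) :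
    extn (fun x => a * g x) ξ = a * extn g ξ := by
  unfold extn
  rw [← integral_const_mul]
  refine integral_congr_ae (Filter.Eventually.of_forall fun x => ?_)
  simp only
  ring

/-- Bounds for the exponentials and the sublevel estimate give bounds with cuts. -/
theorem cuts_of_exp {n : ℕ} (p0 : ℝ) (hp0 : 1 ≤ p0) (f : E n → ℝ) (hf : Continuous f)
    (hs : ∃ K κ : ℝ, 0 ≤ K ∧ 0 < κ ∧ ∀ c : Fin 2 → ℝ, ‖c‖ = 1 → ∀ δ : ℝ, 0 ≤ δ →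
      sm n {x : S n | |VAN.fam ![fun _ => 1, f] c x| ≤ δ} ≤ ENNReal.ofReal (K * δ ^ κ))
    (H : ∀ p : ℝ, p0 < p → ∃ C : ℝ≥0∞, C ≠ ⊤ ∧ ∀ c : ℝ,
      ∫⁻ ξ, ‖extn (fun x : E n => Complex.exp (((c * f x : ℝ) : ℂ) * Complex.I)) ξ‖ₑ ^ p ≤ C)
    (N : ℕ) : ∀ p : ℝ, p0 < p → ∃ C : ℝ≥0∞, C ≠ ⊤ ∧
      ∀ (c : Fin 2 → ℝ) (cs : Fin N → Fin 2 → ℝ),
        ∫⁻ ξ, ‖extn (VAN.famc ![fun _ => 1, f] c cs) ξ‖ₑ ^ p ≤ C := by
  obtain ⟨B0, hB0⟩ := (isCompact_sphere (0 : E n) 1).exists_bound_of_continuousOn hf.continuousOn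
  refine VAN.cuts p0 hp0 ![fun _ => 1, f] ?_ ?_ hs ?_ N
  · intro j
    refine Fin.cases ?_ (fun i => ?_) j
    · exact measurable_const
    · refine Fin.cases ?_ (fun k => k.elim0) i
      exact hf.measurable
  · refine ⟨max 1 B0, fun j x hx => ?_⟩
    have hx' : x ∈ sphere (0 : E n) 1 := by simpa using hx
    revert j
    intro j
    refine Fin.cases ?_ (fun i => ?_) j
    · simp
    · refine Fin.cases ?_ (fun k => k.elim0) i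
      exact le_trans (by simpa using hB0 x hx') (le_max_right _ _)
  · intro p hp
    obtain ⟨C, hC, h⟩ := H p hp
    refine ⟨C, hC, fun c => ?_⟩
    refine le_trans (le_of_eq ?_) (h (c 1))
    have h1 : (fun x : E n => Complex.exp (((VAN.fam ![fun _ => 1, f] c x : ℝ) : ℂ) * Complex.I)) =
        fun x => Complex.exp (((c 0 : ℝ) : ℂ) * Complex.I) *
          Complex.exp (((c 1 * f x : ℝ) : ℂ) * Complex.I) := by
      funext x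
      rw [CUT_fam, ← Complex.exp_add]
      congr 1
      push_cast
      ring
    rw [h1]
    refine lintegral_congr fun ξ => ?_
    rw [CUT_const, enorm_mul]
    have h2 : ‖Complex.exp (((c 0 : ℝ) : ℂ) * Complex.I)‖ₑ = 1 := by
      rw [← ofReal_norm, Complex.norm_exp_ofReal_mul_I, ENNReal.ofReal_one]
    rw [h2, one_mul]

/-- Cuts in almost every phase, in every dimension `d + 1 ≥ 2`, from the bounds without cuts. -/
theorem main_cuts_of (d : ℕ) (hd : 1 ≤ d) (φ : E (d + 1) → ℝ) (hφ : Continuous φ) (p0 : ℝ)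
    (hp0 : 1 ≤ p0)
    (H : ∀ᵐ b : Fin (d + 1) → ℝ, ∀ p : ℝ, p0 < p → ∃ C : ℝ≥0∞, C ≠ ⊤ ∧ ∀ c : ℝ,
      ∫⁻ ξ, ‖extn (fun x => Complex.exp (((c * pb φ b x : ℝ) : ℂ) * Complex.I)) ξ‖ₑ ^ p ≤ C) :
    ∀ᵐ b : Fin (d + 1) → ℝ, ∀ (N : ℕ) (p : ℝ), p0 < p → ∃ C : ℝ≥0∞, C ≠ ⊤ ∧
      ∀ (c : Fin 2 → ℝ) (cs : Fin N → Fin 2 → ℝ),
        ∫⁻ ξ, ‖extn (VAN.famc ![fun _ => 1, pb φ b] c cs) ξ‖ₑ ^ p ≤ C := by
  filter_upwards [H, ae_sublevel d hd φ hφ] with b hb hs N p hp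
  refine cuts_of_exp p0 hp0 (pb φ b) ?_ hs hb N p hp
  unfold pb
  fun_prop

lemma CUT_ite (a b : Prop) [Decidable a] [Decidable b] (h : a ↔ b) :
    (if a then (1 : ℂ) else 0) = if b then 1 else 0 := by
  by_cases ha : a
  · rw [if_pos ha, if_pos (h.1 ha)]
  · rw [if_neg ha, if_neg fun hb => ha (h.2 hb)]

lemma CUT_famc_one {n : ℕ} (f : E n → ℝ) (l u v : ℝ) (x : E n) :
    VAN.famc ![fun _ => 1, f] ![0, l] (fun _ : Fin 1 => ![u, v]) x =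
      Complex.exp (((l * f x : ℝ) : ℂ) * Complex.I) * (if 0 < u + v * f x then 1 else 0) := by
  unfold VAN.famc
  rw [Fin.prod_univ_one]
  congr 1
  · rw [CUT_fam]
    simp
  · refine CUT_ite _ _ ?_
    rw [CUT_fam]
    simp only [Matrix.cons_val_zero, Matrix.cons_val_one]

/-- One cut, written out: `e^{i l f}`, `e^{i l f} 1_{t < f}` and `e^{i l f} 1_{f < t}`. -/
theorem half_lines {n : ℕ} (f : E n → ℝ) (p : ℝ) (h : ∀ N : ℕ, ∃ C : ℝ≥0∞, C ≠ ⊤ ∧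
      ∀ (c : Fin 2 → ℝ) (cs : Fin N → Fin 2 → ℝ),
        ∫⁻ ξ, ‖extn (VAN.famc ![fun _ => 1, f] c cs) ξ‖ₑ ^ p ≤ C) :
    ∃ C : ℝ≥0∞, C ≠ ⊤ ∧ ∀ l t : ℝ,
      (∫⁻ ξ, ‖extn (fun x => Complex.exp (((l * f x : ℝ) : ℂ) * Complex.I)) ξ‖ₑ ^ p ≤ C) ∧
      (∫⁻ ξ, ‖extn (fun x => Complex.exp (((l * f x : ℝ) : ℂ) * Complex.I) *
        (if t < f x then 1 else 0)) ξ‖ₑ ^ p ≤ C) ∧
      (∫⁻ ξ, ‖extn (fun x => Complex.exp (((l * f x : ℝ) : ℂ) * Complex.I) *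
        (if f x < t then 1 else 0)) ξ‖ₑ ^ p ≤ C) := by
  obtain ⟨C0, hC0, h0⟩ := h 0
  obtain ⟨C1, hC1, h1⟩ := h 1
  refine ⟨C0 + C1, ENNReal.add_ne_top.2 ⟨hC0, hC1⟩, fun l t => ⟨?_, ?_, ?_⟩⟩
  · refine le_trans (le_of_eq ?_) ((h0 ![0, l] (fun i => i.elim0)).trans le_self_add)
    congr 1
    funext ξ
    congr 3
    funext x
    unfold VAN.famc
    rw [Fin.prod_univ_zero, mul_one, CUT_fam]
    simp
  · refine le_trans (le_of_eq ?_) ((h1 ![0, l] (fun _ => ![-t, 1])).trans le_add_self)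
    congr 1
    funext ξ
    congr 3
    funext x
    rw [CUT_famc_one]
    congr 1
    exact CUT_ite _ _ (by constructor <;> intro h <;> linarith)
  · refine le_trans (le_of_eq ?_) ((h1 ![0, l] (fun _ => ![t, -1])).trans le_add_self)
    congr 1
    funext ξ
    congr 3
    funext x
    rw [CUT_famc_one]
    congr 1
    exact CUT_ite _ _ (by constructor <;> intro h <;> linarith)

/-- Half lines of almost every phase, from the bounds for the exponentials. -/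
theorem half_lines_ae (d : ℕ) (hd : 1 ≤ d) (φ : E (d + 1) → ℝ) (hφ : Continuous φ) (p0 : ℝ)
    (hp0 : 1 ≤ p0)
    (H : ∀ᵐ b : Fin (d + 1) → ℝ, ∀ p : ℝ, p0 < p → ∃ C : ℝ≥0∞, C ≠ ⊤ ∧ ∀ c : ℝ,
      ∫⁻ ξ, ‖extn (fun x => Complex.exp (((c * pb φ b x : ℝ) : ℂ) * Complex.I)) ξ‖ₑ ^ p ≤ C) :
    ∀ᵐ b : Fin (d + 1) → ℝ, ∀ p : ℝ, p0 < p → ∃ C : ℝ≥0∞, C ≠ ⊤ ∧ ∀ l t : ℝ,
      (∫⁻ ξ, ‖extn (fun x => Complex.exp (((l * pb φ b x : ℝ) : ℂ) * Complex.I)) ξ‖ₑ ^ p ≤ C) ∧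
      (∫⁻ ξ, ‖extn (fun x => Complex.exp (((l * pb φ b x : ℝ) : ℂ) * Complex.I) *
        (if t < pb φ b x then 1 else 0)) ξ‖ₑ ^ p ≤ C) ∧
      (∫⁻ ξ, ‖extn (fun x => Complex.exp (((l * pb φ b x : ℝ) : ℂ) * Complex.I) *
        (if pb φ b x < t then 1 else 0)) ξ‖ₑ ^ p ≤ C) := by
  filter_upwards [main_cuts_of d hd φ hφ p0 hp0 H] with b hb p hp
  exact half_lines (pb φ b) p fun N => hb N p hp

end Pool.Agent.GNP
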