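import Pool.Agent.GNP.CoreBig

/-!
Integration in `s`: the range `|c| ≤ 1`.
-/

namespace Pool.Agent.GNP

open MeasureTheory Set Pool.Agent.MP_6cbfb8_an
open scoped ENNReal Real RealInnerProductSpace ContDiff

/-- The bound for definite pencils, as a statement. -/
def DetDef (d : ℕ) : Prop := ∀ (P Q : E d →L[ℝ] E d) (b M t : ℝ), 0 < b → ‖P‖ ≤ M →
    (∀ v, b * ‖v‖ ^ 2 ≤ ⟪Q v, v⟫) → 2 * M / b ≤ |t| →
    (b * |t| / 2) ^ d ≤ |(P + t • Q).det|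

theorem core_small_u (d : ℕ) (hd : 1 ≤ d) (A : ℕ → ℝ) (r r' b α p : ℝ) (hb : 0 < b)
    (hα : 2 / (d : ℝ) < α) (hkey : KeyEst d A r r' p ((d * α - 2) / 2) α) (hdet : DetDef d) :
    ∃ K : ℝ≥0∞, K ≠ ⊤ ∧ ∀ (Φ h : E d → ℝ) (a : E d → ℂ), Sm d A Φ → Sm d A h → Amp d A r a →
      (∀ y, ‖y‖ ≤ r' → ∀ v, ⟪Hs h y v, v⟫ ≤ -(b * ‖v‖ ^ 2)) → ∀ c : ℝ, |c| ≤ 1 →
      ∫⁻ s : ℝ, ∫⁻ x, ‖uu a (ph Φ h c s) x‖ₑ ^ p ≤ K := by
  obtain ⟨K, hK, key⟩ := hkey
  have hd0 : (0 : ℝ) < d := by exact_mod_cast hd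
  have hda : 2 < (d : ℝ) * α := by
    rw [div_lt_iff₀ hd0] at hα
    linarith
  have hα0 : 0 < α := by
    by_contra hcon
    nlinarith
  set s0 : ℝ := max 1 (2 * A 2 / b) with hs0
  have hs01 : 1 ≤ s0 := le_max_left _ _
  set c1 : ℝ := min (1 / √(1 + s0)) (b / (4 * √2)) with hc1
  have hc1p : 0 < c1 := lt_min (by positivity) (by positivity)
  set ε : ℝ := (d * α - 2) / 2 with hε
  have hεp : 0 < ε := by rw [hε]; linarith
  set τ : ℝ := (d * α + 2) / 4 with hτ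
  set V : ℝ≥0∞ := volume (Metric.closedBall (0 : E d) r') with hV
  have hVt : V ≠ ⊤ := measure_closedBall_lt_top.ne
  set C1 : ℝ := K * √2 ^ ε * c1 ^ (-((d : ℝ) * α)) with hC1
  have hC1p : 0 < C1 := by positivity
  have hτ1 : (Module.finrank ℝ ℝ : ℝ) < τ := by
    rw [Module.finrank_self, hτ]; push_cast; linarith
  refine ⟨ENNReal.ofReal C1 * V * ∫⁻ s : ℝ, ENNReal.ofReal ((1 + ‖s‖) ^ (-τ)),
    ENNReal.mul_ne_top (ENNReal.mul_ne_top ENNReal.ofReal_ne_top hVt)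
      (finite_integral_one_add_norm hτ1).ne, ?_⟩
  intro Φ h a hΦ hh ha hdef
  have hA2 : 0 ≤ A 2 := (norm_nonneg _).trans (hΦ.bd 2 0)
  -- the lower bound of the determinant
  have hlow : ∀ c s : ℝ, |c| ≤ 1 → ∀ y : E d, ‖y‖ ≤ r' →
      (c1 * √(1 + |s|)) ^ d ≤ 1 + |(Hs (ph Φ h c s) y).det| / √(1 + |c| + |s|) ^ d := by
    intro c s hc y hy
    have hX0 : 0 < √(1 + |c| + |s|) := by positivity
    rcases le_total |s| s0 with hs | hs
    · have h1 : c1 * √(1 + |s|) ≤ 1 := by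
        have h2 : √(1 + |s|) ≤ √(1 + s0) := Real.sqrt_le_sqrt (by linarith)
        have h3 : 0 < √(1 + s0) := by positivity
        calc c1 * √(1 + |s|) ≤ 1 / √(1 + s0) * √(1 + s0) :=
              mul_le_mul (min_le_left _ _) h2 (by positivity) (by positivity)
          _ = 1 := by field_simp
      have h4 : (c1 * √(1 + |s|)) ^ d ≤ 1 := pow_le_one₀ (by positivity) h1
      have h5 : 0 ≤ |(Hs (ph Φ h c s) y).det| / √(1 + |c| + |s|) ^ d := by positivity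
      linarith
    · have hs1 : 1 ≤ |s| := hs01.trans hs
      have h1 : (b * |s| / 2) ^ d ≤ |(Hs (ph Φ h c s) y).det| := by
        have h2 := hdet (c • Hs Φ y) (-(Hs h y)) b (A 2) s hb ?_ ?_ ((le_max_right _ _).trans hs)
        · rwa [smul_neg, ← sub_eq_add_neg, ← Hs_ph hΦ.sm hh.sm] at h2
        · rw [norm_smul, Real.norm_eq_abs]
          have h3 := (norm_Hs_le hΦ.sm y).trans (hΦ.bd 2 y)
          nlinarith [norm_nonneg (Hs Φ y), abs_nonneg c]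
        · intro v
          have h4 := hdef y hy v
          have h5 : ⟪(-(Hs h y)) v, v⟫ = -⟪Hs h y v, v⟫ := by
            rw [_root_.neg_apply, inner_neg_left]
          rw [h5]; linarith
      have h6 : c1 * √(1 + |s|) ≤ b * |s| / 2 / √(1 + |c| + |s|) := by
        rw [le_div_iff₀ hX0]
        have h7 : √(1 + |c| + |s|) ≤ √2 * √(1 + |s|) := by
          rw [← Real.sqrt_mul (by norm_num)]
          exact Real.sqrt_le_sqrt (by linarith)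
        have h8 : √(1 + |s|) * √(1 + |s|) = 1 + |s| := Real.mul_self_sqrt (by positivity)
        have h9 : c1 ≤ b / (4 * √2) := min_le_right _ _
        have h10 : 0 < √2 := by positivity
        calc c1 * √(1 + |s|) * √(1 + |c| + |s|)
            ≤ b / (4 * √2) * √(1 + |s|) * (√2 * √(1 + |s|)) := by gcongr
          _ = b / 4 * (√(1 + |s|) * √(1 + |s|)) := by field_simp
          _ = b / 4 * (1 + |s|) := by rw [h8]
          _ ≤ b * |s| / 2 := by nlinarith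
      calc (c1 * √(1 + |s|)) ^ d ≤ (b * |s| / 2 / √(1 + |c| + |s|)) ^ d :=
            pow_le_pow_left₀ (by positivity) h6 d
        _ = (b * |s| / 2) ^ d / √(1 + |c| + |s|) ^ d := by rw [div_pow]
        _ ≤ |(Hs (ph Φ h c s) y).det| / √(1 + |c| + |s|) ^ d := by gcongr
        _ ≤ 1 + |(Hs (ph Φ h c s) y).det| / √(1 + |c| + |s|) ^ d := by linarith
  -- the bound for fixed `s`
  have hmain : ∀ c s : ℝ, |c| ≤ 1 → ∫⁻ x, ‖uu a (ph Φ h c s) x‖ₑ ^ p ≤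
      ENNReal.ofReal C1 * V * ENNReal.ofReal ((1 + ‖s‖) ^ (-τ)) := by
    intro c s hc
    rw [Real.norm_eq_abs]
    have hX1 : 1 ≤ 1 + |c| + |s| := by have := abs_nonneg c; have := abs_nonneg s; linarith
    have hR1 : 1 ≤ √(1 + |c| + |s|) := by
      rw [show (1 : ℝ) = √1 by simp]
      exact Real.sqrt_le_sqrt (by simpa using hX1)
    have hR0 : 0 < √(1 + |c| + |s|) := by linarith
    have hY0 : 0 < √(1 + |s|) := by positivity
    have h1 := key a (ph Φ h c s) (√(1 + |c| + |s|)) hR1 ha (core_phq hΦ hh c s)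
    refine h1.trans ?_
    have h2 : ∫⁻ y in Metric.closedBall (0 : E d) r',
        ENNReal.ofReal ((1 + |(Hs (ph Φ h c s) y).det| / √(1 + |c| + |s|) ^ d) ^ (-α)) ≤
        ENNReal.ofReal ((c1 * √(1 + |s|)) ^ (-((d : ℝ) * α))) * V := by
      rw [hV, ← setLIntegral_const]
      refine setLIntegral_mono measurable_const ?_
      intro y hy
      refine ENNReal.ofReal_le_ofReal ?_
      have h3 := hlow c s hc y (by simpa using hy)
      have h4 : 0 < (c1 * √(1 + |s|)) ^ d := by positivity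
      refine (Real.rpow_le_rpow_of_nonpos h4 h3 (by linarith)).trans (le_of_eq ?_)
      rw [← Real.rpow_natCast, ← Real.rpow_mul (by positivity)]
      congr 1; ring
    refine (mul_le_mul_right h2 _).trans ?_
    rw [← mul_assoc, ← ENNReal.ofReal_mul (by positivity), mul_right_comm (ENNReal.ofReal C1),
      ← ENNReal.ofReal_mul hC1p.le]
    refine mul_le_mul_left (ENNReal.ofReal_le_ofReal ?_) _
    have h5 : √(1 + |c| + |s|) ≤ √2 * √(1 + |s|) := by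
      rw [← Real.sqrt_mul (by norm_num)]
      exact Real.sqrt_le_sqrt (by have := abs_nonneg s; linarith)
    have h6 : √(1 + |c| + |s|) ^ ε ≤ √2 ^ ε * √(1 + |s|) ^ ε := by
      rw [← Real.mul_rpow (by positivity) (by positivity)]
      exact Real.rpow_le_rpow hR0.le h5 hεp.le
    have h7 : √(1 + |s|) ^ ε * √(1 + |s|) ^ (-((d : ℝ) * α)) = (1 + |s|) ^ (-τ) := by
      rw [← Real.rpow_add hY0, Real.sqrt_eq_rpow, ← Real.rpow_mul (by positivity)]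
      congr 1
      rw [hε, hτ]; ring
    calc K * √(1 + |c| + |s|) ^ ε * (c1 * √(1 + |s|)) ^ (-((d : ℝ) * α))
        ≤ K * (√2 ^ ε * √(1 + |s|) ^ ε) * (c1 * √(1 + |s|)) ^ (-((d : ℝ) * α)) := by gcongr
      _ = K * (√2 ^ ε * √(1 + |s|) ^ ε) *
          (c1 ^ (-((d : ℝ) * α)) * √(1 + |s|) ^ (-((d : ℝ) * α))) := by
            rw [Real.mul_rpow hc1p.le hY0.le]
      _ = C1 * (√(1 + |s|) ^ ε * √(1 + |s|) ^ (-((d : ℝ) * α))) := by rw [hC1]; ring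
      _ = C1 * (1 + |s|) ^ (-τ) := by rw [h7]
  intro c hc
  rw [← lintegral_const_mul' _ _ (ENNReal.mul_ne_top ENNReal.ofReal_ne_top hVt)]
  exact lintegral_mono fun s => hmain c s hc

theorem core_small (d : ℕ) (hd : 1 ≤ d) (A : ℕ → ℝ) (r r' b α p : ℝ) (hb : 0 < b)
    (hα : 2 / (d : ℝ) < α)
    (Φ h : E d → ℝ) (a : E d → ℂ) (hΦ : Sm d A Φ) (hh : Sm d A h) (ha : Amp d A r a)
    (hdef : ∀ y, ‖y‖ ≤ r' → ∀ v, ⟪Hs h y v, v⟫ ≤ -(b * ‖v‖ ^ 2))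
    (hkey : KeyEst d A r r' p ((d * α - 2) / 2) α) (hdet : DetDef d) :
    ∃ C : ℝ≥0∞, C ≠ ⊤ ∧ ∀ c : ℝ, |c| ≤ 1 →
      ∫⁻ s : ℝ, ∫⁻ x, ‖uu a (ph Φ h c s) x‖ₑ ^ p ≤ C := by
  obtain ⟨K, hK, h1⟩ := core_small_u d hd A r r' b α p hb hα hkey hdet
  exact ⟨K, hK, h1 Φ h a hΦ hh ha hdef⟩

/-- Integration in `s`, with the key estimate and the bound for definite pencils as hypotheses;
the constant `K` does not depend on `Φ`, `h`, `a`. -/
theorem core_unif_of (d : ℕ) (hd : 1 ≤ d) (A : ℕ → ℝ) (r r' b α p : ℝ)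
    (hb : 0 < b) (hα : 2 / (d : ℝ) < α)
    (hkey : KeyEst d A r r' p ((d * α - 2) / 2) α) (hdet : DetDef d) :
    ∃ K : ℝ≥0∞, K ≠ ⊤ ∧ ∀ (Φ h : E d → ℝ) (a : E d → ℂ), Sm d A Φ → Sm d A h → Amp d A r a →
      (∀ y, ‖y‖ ≤ r' → ∀ v, ⟪Hs h y v, v⟫ ≤ -(b * ‖v‖ ^ 2)) → ∀ c : ℝ,
      ∫⁻ s : ℝ, ∫⁻ x, ‖uu a (ph Φ h c s) x‖ₑ ^ p ≤ K * (1 + JJ d r' α (kap d α) Φ h) := by
  obtain ⟨C1, h1, h2⟩ := core_big_u d hd A r r' α p hα hkey
  obtain ⟨C2, h3, h4⟩ := core_small_u d hd A r r' b α p hb hα hkey hdet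
  refine ⟨max C1 C2, (max_lt h1.lt_top h3.lt_top).ne, ?_⟩
  intro Φ h a hΦ hh ha hdef c
  rcases le_total 1 |c| with hc | hc
  · refine (h2 Φ h a hΦ hh ha c hc).trans ?_
    exact mul_le_mul' (le_max_left _ _) le_add_self
  · refine (h4 Φ h a hΦ hh ha hdef c hc).trans ?_
    calc C2 ≤ max C1 C2 * 1 := by rw [mul_one]; exact le_max_right _ _
      _ ≤ _ := mul_le_mul' le_rfl le_self_add

/-- Integration in `s`, with the key estimate and the bound for definite pencils as hypotheses. -/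
theorem core_of (d : ℕ) (hd : 1 ≤ d) (A : ℕ → ℝ) (r r' b α p : ℝ)
    (hb : 0 < b) (hα : 2 / (d : ℝ) < α) (Φ h : E d → ℝ) (a : E d → ℂ)
    (hΦ : Sm d A Φ) (hh : Sm d A h) (ha : Amp d A r a)
    (hdef : ∀ y, ‖y‖ ≤ r' → ∀ v, ⟪Hs h y v, v⟫ ≤ -(b * ‖v‖ ^ 2))
    (hJ : JJ d r' α (kap d α) Φ h ≠ ⊤)
    (hkey : KeyEst d A r r' p ((d * α - 2) / 2) α) (hdet : DetDef d) :
    ∃ C : ℝ≥0∞, C ≠ ⊤ ∧ ∀ c : ℝ, ∫⁻ s : ℝ, ∫⁻ x, ‖uu a (ph Φ h c s) x‖ₑ ^ p ≤ C := by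
  obtain ⟨K, hK, h1⟩ := core_unif_of d hd A r r' b α p hb hα hkey hdet
  exact ⟨K * (1 + JJ d r' α (kap d α) Φ h),
    ENNReal.mul_ne_top hK (ENNReal.add_ne_top.2 ⟨ENNReal.one_ne_top, hJ⟩),
    h1 Φ h a hΦ hh ha hdef⟩

end Pool.Agent.GNP
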