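import Pool.Agent.GNP.KE
import Pool.Agent.GNP.DD
import Pool.Agent.GNP.CoreSmall

/-!
Integration in `s`.
-/

namespace Pool.Agent.GNP

open MeasureTheory Set Pool.Agent.MP_6cbfb8_an
open scoped ENNReal Real RealInnerProductSpace ContDiff

/-- The constant `K` does not depend on `Φ`, `h`, `a`. -/
theorem core_unif (d : ℕ) (hd : 1 ≤ d) (A : ℕ → ℝ) (r r' b α p : ℝ) (hr : 0 < r) (hr' : r < r')
    (hb : 0 < b) (hα : 2 / (d : ℝ) < α) (hαp : α ≤ p - 2) :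
    ∃ K : ℝ≥0∞, K ≠ ⊤ ∧ ∀ (Φ h : E d → ℝ) (a : E d → ℂ), Sm d A Φ → Sm d A h → Amp d A r a →
      (∀ y, ‖y‖ ≤ r' → ∀ v, ⟪Hs h y v, v⟫ ≤ -(b * ‖v‖ ^ 2)) → ∀ c : ℝ,
      ∫⁻ s : ℝ, ∫⁻ x, ‖uu a (ph Φ h c s) x‖ₑ ^ p ≤ K * (1 + JJ d r' α (kap d α) Φ h) := by
  have hd0 : (0 : ℝ) < d := by exact_mod_cast hd
  have hda : 2 < (d : ℝ) * α := by
    rw [div_lt_iff₀ hd0] at hα
    linarith
  have hα0 : 0 < α := (div_pos two_pos hd0).trans hα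
  exact core_unif_of d hd A r r' b α p hb hα
    (key d hd A r r' p ((d * α - 2) / 2) α hr hr' (by linarith) (by linarith) hα0.le hαp)
    (fun P Q b M t h1 h2 h3 h4 => det_def d P Q b M t h1 h2 h3 h4)

theorem core (d : ℕ) (hd : 1 ≤ d) (A : ℕ → ℝ) (r r' b α p : ℝ) (hr : 0 < r) (hr' : r < r')
    (hb : 0 < b) (hα : 2 / (d : ℝ) < α) (hαp : α ≤ p - 2) (Φ h : E d → ℝ) (a : E d → ℂ)
    (hΦ : Sm d A Φ) (hh : Sm d A h) (ha : Amp d A r a)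
    (hdef : ∀ y, ‖y‖ ≤ r' → ∀ v, ⟪Hs h y v, v⟫ ≤ -(b * ‖v‖ ^ 2))
    (hJ : JJ d r' α (kap d α) Φ h ≠ ⊤) :
    ∃ C : ℝ≥0∞, C ≠ ⊤ ∧ ∀ c : ℝ, ∫⁻ s : ℝ, ∫⁻ x, ‖uu a (ph Φ h c s) x‖ₑ ^ p ≤ C := by
  obtain ⟨K, hK, h1⟩ := core_unif d hd A r r' b α p hr hr' hb hα hαp
  exact ⟨K * (1 + JJ d r' α (kap d α) Φ h),
    ENNReal.mul_ne_top hK (ENNReal.add_ne_top.2 ⟨ENNReal.one_ne_top, hJ⟩),
    h1 Φ h a hΦ hh ha hdef⟩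

end Pool.Agent.GNP
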