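import Pool.Agent.GNP.KR
import Pool.Agent.GNP.Core

/-!
Integration in `s` for amplitudes which may depend on `c` and are smooth at the scale
`(1 + |c|)^(-1/2)`.
-/

namespace Pool.Agent.GNP

open MeasureTheory Set Pool.Agent.MP_6cbfb8_an
open scoped ENNReal Real RealInnerProductSpace ContDiff

/-- The key estimate for amplitudes at the scale of the packets, as a statement. -/
def KeyEstR (d : ℕ) (A : ℕ → ℝ) (r r' p ε α : ℝ) : Prop := ∃ K : ℝ, 0 < K ∧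
    ∀ (a : E d → ℂ) (q : E d → ℝ) (R : ℝ), 1 ≤ R → AmpR d A r R a → Phq d A R q →
    ∫⁻ x, ‖uu a q x‖ₑ ^ p ≤ ENNReal.ofReal (K * R ^ ε) *
      ∫⁻ y in Metric.closedBall (0 : E d) r',
        ENNReal.ofReal ((1 + |(Hs q y).det| / R ^ d) ^ (-α))

theorem core_big_uR (d : ℕ) (hd : 1 ≤ d) (A : ℕ → ℝ) (r r' α p : ℝ) (hα : 2 / (d : ℝ) < α)
    (hkey : KeyEstR d A r r' p ((d * α - 2) / 2) α) : ∃ K : ℝ≥0∞, K ≠ ⊤ ∧
    ∀ (Φ h : E d → ℝ) (a : E d → ℂ) (c : ℝ), Sm d A Φ → Sm d A h → AmpR d A r (√(1 + |c|)) a →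
      1 ≤ |c| →
      ∫⁻ s : ℝ, ∫⁻ x, ‖uu a (ph Φ h c s) x‖ₑ ^ p ≤ K * JJ d r' α (kap d α) Φ h := by
  obtain ⟨K, hK, key⟩ := hkey
  have hd0 : (0 : ℝ) < d := by exact_mod_cast hd
  have hda : 2 < (d : ℝ) * α := by
    rw [div_lt_iff₀ hd0] at hα
    linarith
  have hα0 : 0 < α := by
    by_contra hcon
    nlinarith
  set κ : ℝ := kap d α with hκ
  have hκ2 : κ = (3 * d * α - 2) / 4 := rfl
  have hκ0 : 0 < κ := by rw [hκ2]; nlinarith
  refine ⟨ENNReal.ofReal (K * 2 ^ κ), ENNReal.ofReal_ne_top, ?_⟩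
  intro Φ h a c hΦ hh ha hc
  have hc0 : 0 < |c| := by linarith
  have hcne : c ≠ 0 := abs_pos.1 hc0
  have hmain : ∀ σ : ℝ, ∫⁻ x, ‖uu a (ph Φ h c (c * σ)) x‖ₑ ^ p ≤
      ENNReal.ofReal (K * 2 ^ κ * |c| ^ (κ - d * α)) *
        ∫⁻ y in Metric.closedBall (0 : E d) r',
          ENNReal.ofReal ((1 + |σ|) ^ κ) * ‖(Hs Φ y - σ • Hs h y).det‖ₑ ^ (-α) := by
    intro σ
    set X : ℝ := 1 + |c| + |c * σ| with hX
    have hX1 : 1 ≤ X := by have := abs_nonneg (c * σ); linarith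
    have hX0 : 0 < X := by linarith
    have hR1 : 1 ≤ √X := by
      rw [show (1 : ℝ) = √1 by simp]
      exact Real.sqrt_le_sqrt hX1
    have hR0 : 0 < √X := by linarith
    have hRR : √(1 + |c|) ≤ √X := Real.sqrt_le_sqrt (by
      have := abs_nonneg (c * σ)
      rw [hX]; linarith)
    have h1 := key a (ph Φ h c (c * σ)) (√X) hR1 (ha.mono (by positivity) hRR)
      (core_phq hΦ hh c (c * σ))
    refine h1.trans ?_
    have h2 : ∀ y : E d, ENNReal.ofReal ((1 + |(Hs (ph Φ h c (c * σ)) y).det| / √X ^ d) ^ (-α)) ≤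
        ENNReal.ofReal (√X ^ ((d : ℝ) * α) * (|c| ^ d) ^ (-α)) *
          ‖(Hs Φ y - σ • Hs h y).det‖ₑ ^ (-α) := by
      intro y
      have h3 : (Hs (ph Φ h c (c * σ)) y).det = c ^ d * (Hs Φ y - σ • Hs h y).det := by
        rw [Hs_ph hΦ.sm hh.sm, ← core_det_smul]
        congr 1
        rw [smul_sub, smul_smul]
      rw [h3, abs_mul, abs_pow]
      exact pt_le d _ (by positivity) hR0 hα0
    have h4 : ∫⁻ y in Metric.closedBall (0 : E d) r',
        ENNReal.ofReal ((1 + |(Hs (ph Φ h c (c * σ)) y).det| / √X ^ d) ^ (-α)) ≤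
        ENNReal.ofReal (√X ^ ((d : ℝ) * α) * (|c| ^ d) ^ (-α)) *
          ∫⁻ y in Metric.closedBall (0 : E d) r', ‖(Hs Φ y - σ • Hs h y).det‖ₑ ^ (-α) := by
      rw [← lintegral_const_mul' _ _ ENNReal.ofReal_ne_top]
      exact lintegral_mono h2
    rw [lintegral_const_mul' _ _ ENNReal.ofReal_ne_top, ← mul_assoc,
      ← ENNReal.ofReal_mul (by positivity)]
    refine (mul_le_mul_right h4 _).trans ?_
    rw [← mul_assoc, ← ENNReal.ofReal_mul (by positivity)]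
    refine mul_le_mul_left (ENNReal.ofReal_le_ofReal ?_) _
    have e1 : √X ^ (((d : ℝ) * α - 2) / 2) * √X ^ ((d : ℝ) * α) = X ^ κ := by
      rw [← Real.rpow_add hR0, Real.sqrt_eq_rpow, ← Real.rpow_mul hX0.le]
      congr 1
      rw [hκ2]; ring
    have e2 : (|c| ^ d) ^ (-α) = |c| ^ (-((d : ℝ) * α)) := by
      rw [← Real.rpow_natCast, ← Real.rpow_mul hc0.le]
      congr 1; ring
    have e3 : X ^ κ ≤ 2 ^ κ * |c| ^ κ * (1 + |σ|) ^ κ := by
      rw [← Real.mul_rpow (by norm_num) hc0.le, ← Real.mul_rpow (by positivity) (by positivity)]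
      refine Real.rpow_le_rpow hX0.le ?_ hκ0.le
      rw [hX, abs_mul]
      nlinarith [abs_nonneg σ, mul_nonneg hc0.le (abs_nonneg σ)]
    have e4 : |c| ^ κ * |c| ^ (-((d : ℝ) * α)) = |c| ^ (κ - d * α) := by
      rw [← Real.rpow_add hc0]; congr 1
    calc K * √X ^ (((d : ℝ) * α - 2) / 2) * (√X ^ ((d : ℝ) * α) * (|c| ^ d) ^ (-α))
        = K * (√X ^ (((d : ℝ) * α - 2) / 2) * √X ^ ((d : ℝ) * α)) * |c| ^ (-((d : ℝ) * α)) := by
          rw [e2]; ring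
      _ = K * X ^ κ * |c| ^ (-((d : ℝ) * α)) := by rw [e1]
      _ ≤ K * (2 ^ κ * |c| ^ κ * (1 + |σ|) ^ κ) * |c| ^ (-((d : ℝ) * α)) := by gcongr
      _ = K * 2 ^ κ * (|c| ^ κ * |c| ^ (-((d : ℝ) * α))) * (1 + |σ|) ^ κ := by ring
      _ = K * 2 ^ κ * |c| ^ (κ - d * α) * (1 + |σ|) ^ κ := by rw [e4]
  rw [lint_scale _ hcne]
  calc ENNReal.ofReal |c| * ∫⁻ σ, ∫⁻ x, ‖uu a (ph Φ h c (c * σ)) x‖ₑ ^ p
      ≤ ENNReal.ofReal |c| * ∫⁻ σ : ℝ, ENNReal.ofReal (K * 2 ^ κ * |c| ^ (κ - d * α)) *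
        ∫⁻ y in Metric.closedBall (0 : E d) r',
          ENNReal.ofReal ((1 + |σ|) ^ κ) * ‖(Hs Φ y - σ • Hs h y).det‖ₑ ^ (-α) := by
        gcongr with σ
        exact hmain σ
    _ = ENNReal.ofReal (|c| * (K * 2 ^ κ * |c| ^ (κ - d * α))) * JJ d r' α κ Φ h := by
        rw [lintegral_const_mul' _ _ ENNReal.ofReal_ne_top, ← mul_assoc,
          ← ENNReal.ofReal_mul (abs_nonneg c)]
        rfl
    _ ≤ ENNReal.ofReal (K * 2 ^ κ) * JJ d r' α κ Φ h := by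
        refine mul_le_mul_left (ENNReal.ofReal_le_ofReal ?_) _
        have h5 : |c| * |c| ^ (κ - d * α) ≤ 1 := by
          have : |c| * |c| ^ (κ - d * α) = |c| ^ (1 + (κ - d * α)) := by
            rw [Real.rpow_add hc0, Real.rpow_one]
          rw [this]
          refine Real.rpow_le_one_of_one_le_of_nonpos hc ?_
          rw [hκ2]; nlinarith
        have h6 : 0 < K * 2 ^ κ := by positivity
        nlinarith

theorem core_small_uR (d : ℕ) (hd : 1 ≤ d) (A : ℕ → ℝ) (r r' b α p : ℝ) (hb : 0 < b)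
    (hα : 2 / (d : ℝ) < α) (hkey : KeyEstR d A r r' p ((d * α - 2) / 2) α) (hdet : DetDef d) :
    ∃ K : ℝ≥0∞, K ≠ ⊤ ∧ ∀ (Φ h : E d → ℝ) (a : E d → ℂ) (c : ℝ), Sm d A Φ → Sm d A h →
      AmpR d A r (√(1 + |c|)) a →
      (∀ y, ‖y‖ ≤ r' → ∀ v, ⟪Hs h y v, v⟫ ≤ -(b * ‖v‖ ^ 2)) → |c| ≤ 1 →
      ∫⁻ s : ℝ, ∫⁻ x, ‖uu a (ph Φ h c s) x‖ₑ ^ p ≤ K := by
  obtain ⟨K, hK, key⟩ := hkey
  have hd0 : (0 : ℝ) < d := by exact_mod_cast hd
  have hda : 2 < (d : ℝ) * α := by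
    rw [div_lt_iff₀ hd0] at hα
    linarith
  have hα0 : 0 < α := by
    by_contra hcon
    nlinarith
  set s0 : ℝ := max 1 (2 * A 2 / b) with hs0
  have hs01 : 1 ≤ s0 := le_max_left _ _
  set c1 : ℝ := min (1 / √(1 + s0)) (b / (4 * √2)) with hc1
  have hc1p : 0 < c1 := lt_min (by positivity) (by positivity)
  set ε : ℝ := (d * α - 2) / 2 with hε
  have hεp : 0 < ε := by rw [hε]; linarith
  set τ : ℝ := (d * α + 2) / 4 with hτ
  set V : ℝ≥0∞ := volume (Metric.closedBall (0 : E d) r') with hV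
  have hVt : V ≠ ⊤ := measure_closedBall_lt_top.ne
  set C1 : ℝ := K * √2 ^ ε * c1 ^ (-((d : ℝ) * α)) with hC1
  have hC1p : 0 < C1 := by positivity
  have hτ1 : (Module.finrank ℝ ℝ : ℝ) < τ := by
    rw [Module.finrank_self, hτ]; push_cast; linarith
  refine ⟨ENNReal.ofReal C1 * V * ∫⁻ s : ℝ, ENNReal.ofReal ((1 + ‖s‖) ^ (-τ)),
    ENNReal.mul_ne_top (ENNReal.mul_ne_top ENNReal.ofReal_ne_top hVt)
      (finite_integral_one_add_norm hτ1).ne, ?_⟩
  intro Φ h a c hΦ hh ha hdef hc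
  have hA2 : 0 ≤ A 2 := (norm_nonneg _).trans (hΦ.bd 2 0)
  -- the lower bound of the determinant
  have hlow : ∀ s : ℝ, ∀ y : E d, ‖y‖ ≤ r' →
      (c1 * √(1 + |s|)) ^ d ≤ 1 + |(Hs (ph Φ h c s) y).det| / √(1 + |c| + |s|) ^ d := by
    intro s y hy
    have hX0 : 0 < √(1 + |c| + |s|) := by positivity
    rcases le_total |s| s0 with hs | hs
    · have h1 : c1 * √(1 + |s|) ≤ 1 := by
        have h2 : √(1 + |s|) ≤ √(1 + s0) := Real.sqrt_le_sqrt (by linarith)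
        have h3 : 0 < √(1 + s0) := by positivity
        calc c1 * √(1 + |s|) ≤ 1 / √(1 + s0) * √(1 + s0) :=
              mul_le_mul (min_le_left _ _) h2 (by positivity) (by positivity)
          _ = 1 := by field_simp
      have h4 : (c1 * √(1 + |s|)) ^ d ≤ 1 := pow_le_one₀ (by positivity) h1
      have h5 : 0 ≤ |(Hs (ph Φ h c s) y).det| / √(1 + |c| + |s|) ^ d := by positivity
      linarith
    · have hs1 : 1 ≤ |s| := hs01.trans hs
      have h1 : (b * |s| / 2) ^ d ≤ |(Hs (ph Φ h c s) y).det| := by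
        have h2 := hdet (c • Hs Φ y) (-(Hs h y)) b (A 2) s hb ?_ ?_ ((le_max_right _ _).trans hs)
        · rwa [smul_neg, ← sub_eq_add_neg, ← Hs_ph hΦ.sm hh.sm] at h2
        · rw [norm_smul, Real.norm_eq_abs]
          have h3 := (norm_Hs_le hΦ.sm y).trans (hΦ.bd 2 y)
          nlinarith [norm_nonneg (Hs Φ y), abs_nonneg c]
        · intro v
          have h4 := hdef y hy v
          have h5 : ⟪(-(Hs h y)) v, v⟫ = -⟪Hs h y v, v⟫ := by
            rw [_root_.neg_apply, inner_neg_left]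
          rw [h5]; linarith
      have h6 : c1 * √(1 + |s|) ≤ b * |s| / 2 / √(1 + |c| + |s|) := by
        rw [le_div_iff₀ hX0]
        have h7 : √(1 + |c| + |s|) ≤ √2 * √(1 + |s|) := by
          rw [← Real.sqrt_mul (by norm_num)]
          exact Real.sqrt_le_sqrt (by linarith)
        have h8 : √(1 + |s|) * √(1 + |s|) = 1 + |s| := Real.mul_self_sqrt (by positivity)
        have h9 : c1 ≤ b / (4 * √2) := min_le_right _ _
        have h10 : 0 < √2 := by positivity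
        calc c1 * √(1 + |s|) * √(1 + |c| + |s|)
            ≤ b / (4 * √2) * √(1 + |s|) * (√2 * √(1 + |s|)) := by gcongr
          _ = b / 4 * (√(1 + |s|) * √(1 + |s|)) := by field_simp
          _ = b / 4 * (1 + |s|) := by rw [h8]
          _ ≤ b * |s| / 2 := by nlinarith
      calc (c1 * √(1 + |s|)) ^ d ≤ (b * |s| / 2 / √(1 + |c| + |s|)) ^ d :=
            pow_le_pow_left₀ (by positivity) h6 d
        _ = (b * |s| / 2) ^ d / √(1 + |c| + |s|) ^ d := by rw [div_pow]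
        _ ≤ |(Hs (ph Φ h c s) y).det| / √(1 + |c| + |s|) ^ d := by gcongr
        _ ≤ 1 + |(Hs (ph Φ h c s) y).det| / √(1 + |c| + |s|) ^ d := by linarith
  -- the bound for fixed `s`
  have hmain : ∀ s : ℝ, ∫⁻ x, ‖uu a (ph Φ h c s) x‖ₑ ^ p ≤
      ENNReal.ofReal C1 * V * ENNReal.ofReal ((1 + ‖s‖) ^ (-τ)) := by
    intro s
    rw [Real.norm_eq_abs]
    have hX1 : 1 ≤ 1 + |c| + |s| := by have := abs_nonneg c; have := abs_nonneg s; linarith
    have hR1 : 1 ≤ √(1 + |c| + |s|) := by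
      rw [show (1 : ℝ) = √1 by simp]
      exact Real.sqrt_le_sqrt (by simpa using hX1)
    have hR0 : 0 < √(1 + |c| + |s|) := by linarith
    have hY0 : 0 < √(1 + |s|) := by positivity
    have hRR : √(1 + |c|) ≤ √(1 + |c| + |s|) := Real.sqrt_le_sqrt (by
      have := abs_nonneg s
      linarith)
    have h1 := key a (ph Φ h c s) (√(1 + |c| + |s|)) hR1 (ha.mono (by positivity) hRR)
      (core_phq hΦ hh c s)
    refine h1.trans ?_
    have h2 : ∫⁻ y in Metric.closedBall (0 : E d) r',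
        ENNReal.ofReal ((1 + |(Hs (ph Φ h c s) y).det| / √(1 + |c| + |s|) ^ d) ^ (-α)) ≤
        ENNReal.ofReal ((c1 * √(1 + |s|)) ^ (-((d : ℝ) * α))) * V := by
      rw [hV, ← setLIntegral_const]
      refine setLIntegral_mono measurable_const ?_
      intro y hy
      refine ENNReal.ofReal_le_ofReal ?_
      have h3 := hlow s y (by simpa using hy)
      have h4 : 0 < (c1 * √(1 + |s|)) ^ d := by positivity
      refine (Real.rpow_le_rpow_of_nonpos h4 h3 (by linarith)).trans (le_of_eq ?_)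
      rw [← Real.rpow_natCast, ← Real.rpow_mul (by positivity)]
      congr 1; ring
    refine (mul_le_mul_right h2 _).trans ?_
    rw [← mul_assoc, ← ENNReal.ofReal_mul (by positivity), mul_right_comm (ENNReal.ofReal C1),
      ← ENNReal.ofReal_mul hC1p.le]
    refine mul_le_mul_left (ENNReal.ofReal_le_ofReal ?_) _
    have h5 : √(1 + |c| + |s|) ≤ √2 * √(1 + |s|) := by
      rw [← Real.sqrt_mul (by norm_num)]
      exact Real.sqrt_le_sqrt (by have := abs_nonneg s; linarith)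
    have h6 : √(1 + |c| + |s|) ^ ε ≤ √2 ^ ε * √(1 + |s|) ^ ε := by
      rw [← Real.mul_rpow (by positivity) (by positivity)]
      exact Real.rpow_le_rpow hR0.le h5 hεp.le
    have h7 : √(1 + |s|) ^ ε * √(1 + |s|) ^ (-((d : ℝ) * α)) = (1 + |s|) ^ (-τ) := by
      rw [← Real.rpow_add hY0, Real.sqrt_eq_rpow, ← Real.rpow_mul (by positivity)]
      congr 1
      rw [hε, hτ]; ring
    calc K * √(1 + |c| + |s|) ^ ε * (c1 * √(1 + |s|)) ^ (-((d : ℝ) * α))
        ≤ K * (√2 ^ ε * √(1 + |s|) ^ ε) * (c1 * √(1 + |s|)) ^ (-((d : ℝ) * α)) := by gcongr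
      _ = K * (√2 ^ ε * √(1 + |s|) ^ ε) *
          (c1 ^ (-((d : ℝ) * α)) * √(1 + |s|) ^ (-((d : ℝ) * α))) := by
            rw [Real.mul_rpow hc1p.le hY0.le]
      _ = C1 * (√(1 + |s|) ^ ε * √(1 + |s|) ^ (-((d : ℝ) * α))) := by rw [hC1]; ring
      _ = C1 * (1 + |s|) ^ (-τ) := by rw [h7]
  rw [← lintegral_const_mul' _ _ (ENNReal.mul_ne_top ENNReal.ofReal_ne_top hVt)]
  exact lintegral_mono fun s => hmain s

/-- The constant `K` does not depend on `Φ`, `h`, `c`, `a`. -/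
theorem core_R (d : ℕ) (hd : 1 ≤ d) (A : ℕ → ℝ) (r r' b α p : ℝ) (hr : 0 < r) (hr' : r < r')
    (hb : 0 < b) (hα : 2 / (d : ℝ) < α) (hαp : α ≤ p - 2) :
    ∃ K : ℝ≥0∞, K ≠ ⊤ ∧ ∀ (Φ h : E d → ℝ) (a : E d → ℂ) (c : ℝ), Sm d A Φ → Sm d A h →
      AmpR d A r (√(1 + |c|)) a →
      (∀ y, ‖y‖ ≤ r' → ∀ v, ⟪Hs h y v, v⟫ ≤ -(b * ‖v‖ ^ 2)) →
      ∫⁻ s : ℝ, ∫⁻ x, ‖uu a (ph Φ h c s) x‖ₑ ^ p ≤ K * (1 + JJ d r' α (kap d α) Φ h) := by
  have hd0 : (0 : ℝ) < d := by exact_mod_cast hd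
  have hda : 2 < (d : ℝ) * α := by
    rw [div_lt_iff₀ hd0] at hα
    linarith
  have hα0 : 0 < α := (div_pos two_pos hd0).trans hα
  have hkey : KeyEstR d A r r' p ((d * α - 2) / 2) α :=
    keyR d hd A r r' p ((d * α - 2) / 2) α hr hr' (by linarith) (by linarith) hα0.le hαp
  have hdet : DetDef d := fun P Q b M t h1 h2 h3 h4 => det_def d P Q b M t h1 h2 h3 h4
  obtain ⟨C1, h1, h2⟩ := core_big_uR d hd A r r' α p hα hkey
  obtain ⟨C2, h3, h4⟩ := core_small_uR d hd A r r' b α p hb hα hkey hdet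
  refine ⟨max C1 C2, (max_lt h1.lt_top h3.lt_top).ne, ?_⟩
  intro Φ h a c hΦ hh ha hdef
  rcases le_total 1 |c| with hc | hc
  · refine (h2 Φ h a c hΦ hh ha hc).trans ?_
    exact mul_le_mul' (le_max_left _ _) le_add_self
  · refine (h4 Φ h a c hΦ hh ha hdef hc).trans ?_
    calc C2 ≤ max C1 C2 * 1 := by rw [mul_one]; exact le_max_right _ _
      _ ≤ _ := mul_le_mul' le_rfl le_self_add

end Pool.Agent.GNP
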