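import Mathlib

/-!
Covering a ball by small balls.
-/

namespace Pool.Agent.GNP

open Module MeasureTheory Set
open scoped InnerProductSpace ENNReal

theorem norm_le_sum_abs {d : ℕ} (v : EuclideanSpace ℝ (Fin d)) : ‖v‖ ≤ ∑ i, |v i| := by
  have h := (EuclideanSpace.basisFun (Fin d) ℝ).sum_repr v
  conv_lhs => rw [← h]
  refine (norm_sum_le _ _).trans (Finset.sum_le_sum fun i _ => ?_)
  rw [norm_smul, (EuclideanSpace.basisFun (Fin d) ℝ).norm_eq_one i, mul_one]
  simp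

theorem cover_ball (d : ℕ) (ρ : ℝ) (hρ : 0 ≤ ρ) : ∃ C : ℝ, 0 < C ∧ ∀ δ : ℝ, 0 < δ → δ ≤ 1 →
    ∃ Y : Finset (EuclideanSpace ℝ (Fin d)), (Y.card : ℝ) ≤ C * (δ ^ d)⁻¹ ∧
      ∀ y : EuclideanSpace ℝ (Fin d), ‖y‖ ≤ ρ → ∃ z ∈ Y, ‖y - z‖ ≤ δ := by
  classical
  refine ⟨(2 * (ρ * (d + 1)) + 5) ^ d, by positivity, fun δ hδ hδ1 => ?_⟩
  set e : ℝ := δ / (d + 1) with he
  have hd : (0 : ℝ) < d + 1 := by positivity
  have he0 : 0 < e := by positivity
  set N : ℕ := ⌈ρ / e⌉₊ + 1 with hN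
  set pt : (Fin d → ℤ) → EuclideanSpace ℝ (Fin d) := fun k => WithLp.toLp 2 fun i => e * (k i : ℝ)
    with hpt
  refine ⟨(Fintype.piFinset fun _ : Fin d => Finset.Icc (-(N : ℤ)) N).image pt, ?_, ?_⟩
  · have h1 : ((Fintype.piFinset fun _ : Fin d => Finset.Icc (-(N : ℤ)) N).image pt).card ≤
        (2 * N + 1) ^ d := by
      refine Finset.card_image_le.trans ?_
      rw [Fintype.card_piFinset, Finset.prod_const, Finset.card_univ, Int.card_Icc, Fintype.card_fin]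
      apply Nat.pow_le_pow_left
      omega
    have h2 : (((Fintype.piFinset fun _ : Fin d => Finset.Icc (-(N : ℤ)) N).image pt).card : ℝ) ≤
        (2 * (N : ℝ) + 1) ^ d := by exact_mod_cast h1
    refine h2.trans ?_
    rw [← inv_pow, ← mul_pow]
    apply pow_le_pow_left₀ (by positivity)
    have h3 : (⌈ρ / e⌉₊ : ℝ) < ρ / e + 1 := Nat.ceil_lt_add_one (by positivity)
    have h4 : ρ / e = ρ * (d + 1) * δ⁻¹ := by
      rw [he]; field_simp
    have h5 : 1 ≤ δ⁻¹ := (one_le_inv₀ hδ).2 hδ1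
    have h6 : (N : ℝ) = (⌈ρ / e⌉₊ : ℝ) + 1 := by
      rw [hN]; push_cast; ring
    have h7 : ρ / e + 1 = ρ * (d + 1) * δ⁻¹ + 1 := by rw [h4]
    rw [h6]
    nlinarith
  · intro y hy
    refine ⟨pt fun i => ⌊y i / e⌋, Finset.mem_image_of_mem _ ?_, ?_⟩
    · rw [Fintype.mem_piFinset]
      intro i
      have hyi : |y i| ≤ ρ := by
        have h1 := EuclideanSpace.norm_eq y
        have h2 : ‖y i‖ ≤ ‖y‖ := PiLp.norm_apply_le y i
        rw [Real.norm_eq_abs] at h2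
        exact h2.trans hy
      have h1 := abs_le.1 hyi
      have h2 : ρ / e ≤ (⌈ρ / e⌉₊ : ℝ) := Nat.le_ceil _
      have h3 : y i / e ≤ ρ / e := by gcongr; exact h1.2
      have h4 : -(ρ / e) ≤ y i / e := by
        rw [← neg_div]; gcongr; exact h1.1
      rw [Finset.mem_Icc]
      constructor
      · have h5 : y i / e - 1 < ⌊y i / e⌋ := Int.sub_one_lt_floor _
        have h6 : ((-(N : ℤ) : ℤ) : ℝ) ≤ ⌊y i / e⌋ := by
          rw [hN]; push_cast; linarith
        exact_mod_cast h6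
      · have h5 : (⌊y i / e⌋ : ℝ) ≤ y i / e := Int.floor_le _
        have h6 : (⌊y i / e⌋ : ℝ) ≤ ((N : ℤ) : ℝ) := by
          rw [hN]; push_cast; linarith
        exact_mod_cast h6
    · refine (norm_le_sum_abs _).trans ?_
      have h1 : ∀ i, |(y - pt fun i => ⌊y i / e⌋) i| ≤ e := by
        intro i
        have h2 : (y - pt fun i => ⌊y i / e⌋) i = y i - e * (⌊y i / e⌋ : ℝ) := rfl
        rw [h2]
        have h3 : (⌊y i / e⌋ : ℝ) ≤ y i / e := Int.floor_le _
        have h4 : y i / e < ⌊y i / e⌋ + 1 := Int.lt_floor_add_one _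
        rw [le_div_iff₀ he0] at h3
        rw [div_lt_iff₀ he0] at h4
        rw [abs_le]
        constructor <;> nlinarith
      refine (Finset.sum_le_sum fun i _ => h1 i).trans ?_
      rw [Finset.sum_const, Finset.card_univ, Fintype.card_fin, nsmul_eq_mul, he, mul_div_assoc',
        div_le_iff₀ hd]
      nlinarith

end Pool.Agent.GNP
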