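import Mathlib

/-!
The determinant is locally Lipschitz.
-/

namespace Pool.Agent.GNP

open Module MeasureTheory Set
open scoped InnerProductSpace ENNReal

theorem det_lip_max (d : ℕ) : ∃ C : ℝ, 0 < C ∧
    ∀ A B : EuclideanSpace ℝ (Fin d) →L[ℝ] EuclideanSpace ℝ (Fin d),
    |A.det - B.det| ≤ C * max ‖A‖ ‖B‖ ^ (d - 1) * ‖A - B‖ := by
  set b := (EuclideanSpace.basisFun (Fin d) ℝ).toBasis with hb
  have hcont : Continuous fun v : Fin d → EuclideanSpace ℝ (Fin d) => b.det v := by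
    have h : (fun v : Fin d → EuclideanSpace ℝ (Fin d) => b.det v) =
        fun v => (Matrix.of fun i j => (v j) i : Matrix (Fin d) (Fin d) ℝ).det := by
      funext v
      rw [Basis.det_apply]
      congr 1
    rw [h]
    apply Continuous.matrix_det
    fun_prop
  set f : ContinuousMultilinearMap ℝ (fun _ : Fin d => EuclideanSpace ℝ (Fin d)) ℝ :=
    { toMultilinearMap := b.det.toMultilinearMap
      cont := hcont } with hf
  refine ⟨(‖f‖ + 1) * (d + 1), by positivity, fun A B => ?_⟩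
  have hdet : ∀ A : EuclideanSpace ℝ (Fin d) →L[ℝ] EuclideanSpace ℝ (Fin d),
      A.det = f fun i => A (b i) := by
    intro A
    show LinearMap.det A.toLinearMap = b.det fun i => A (b i)
    have h := b.det_comp A.toLinearMap b
    rw [b.det_self, mul_one] at h
    exact h.symm
  have hn : ∀ A : EuclideanSpace ℝ (Fin d) →L[ℝ] EuclideanSpace ℝ (Fin d),
      ‖fun i => A (b i)‖ ≤ ‖A‖ := by
    intro A
    rw [pi_norm_le_iff_of_nonneg (norm_nonneg A)]
    intro i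
    have h1 : ‖b i‖ = 1 := by
      rw [hb, OrthonormalBasis.coe_toBasis]
      exact (EuclideanSpace.basisFun (Fin d) ℝ).norm_eq_one i
    have := A.le_opNorm (b i)
    rwa [h1, mul_one] at this
  rw [hdet A, hdet B, ← Real.norm_eq_abs]
  refine (f.norm_image_sub_le _ _).trans ?_
  rw [Fintype.card_fin]
  have h1 : ‖(fun i => A (b i)) - fun i => B (b i)‖ ≤ ‖A - B‖ := hn (A - B)
  have h2 : max ‖fun i => A (b i)‖ ‖fun i => B (b i)‖ ≤ max ‖A‖ ‖B‖ := max_le_max (hn A) (hn B)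
  have h3 : 0 ≤ max ‖fun i => A (b i)‖ ‖fun i => B (b i)‖ := le_max_of_le_left (norm_nonneg _)
  have h4 : ‖f‖ * (d : ℝ) ≤ (‖f‖ + 1) * (d + 1) := by
    have := norm_nonneg f
    have h5 : (0 : ℝ) ≤ d := Nat.cast_nonneg d
    nlinarith
  gcongr

/-- Determinants are locally Lipschitz. -/
theorem det_lip (d : ℕ) : ∃ C : ℝ, 0 < C ∧
    ∀ (S T : EuclideanSpace ℝ (Fin d) →L[ℝ] EuclideanSpace ℝ (Fin d)) (B : ℝ), 1 ≤ B → ‖S‖ ≤ B →
    ‖T‖ ≤ B → |S.det - T.det| ≤ C * B ^ d * ‖S - T‖ := by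
  obtain ⟨C, hC, h⟩ := det_lip_max d
  refine ⟨C, hC, fun S T B hB hS hT => (h S T).trans ?_⟩
  have h1 : max ‖S‖ ‖T‖ ^ (d - 1) ≤ B ^ d :=
    (pow_le_pow_left₀ (le_max_of_le_left (norm_nonneg S)) (max_le hS hT) (d - 1)).trans
      (pow_le_pow_right₀ hB (Nat.sub_le d 1))
  gcongr

end Pool.Agent.GNP
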