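import Pool.Agent.GNP.C2

/-!
Area bound for the gradient map of a phase: the radius of the ball is independent of the size of
the phase.
-/

namespace Pool.Agent.GNP

open MeasureTheory Set Pool.Agent.MP_6cbfb8_an
open scoped ENNReal Real RealInnerProductSpace ContDiff

/-- Area bound with an independent radius `R1`. -/
theorem count_int' (d : ℕ) (A : ℕ → ℝ) (r ε : ℝ) (hr : 0 < r) (hε : 0 < ε) : ∃ K : ℝ, 0 < K ∧
    ∀ (q : E d → ℝ) (R : ℝ), 1 ≤ R → Phq d A R q → ∀ S : Set (E d), MeasurableSet S →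
    (∀ y ∈ S, ‖y‖ ≤ r) → ∀ (x : E d) (R1 : ℝ), 1 ≤ R1 → (∀ y ∈ S, ‖gr q y - x‖ ≤ R1) →
    ∫⁻ y in S, ‖(Hs q y).det‖ₑ ≤ ENNReal.ofReal (K * R ^ ε * R1 ^ d) := by
  -- exponents
  set e : ℝ := ε / (d + 1) with he
  have hd1 : (0 : ℝ) < d + 1 := by positivity
  have he0 : 0 < e := by positivity
  obtain ⟨D, hD⟩ := exists_nat_ge ((2 * (d : ℝ) + 2) / e)
  have hDe : 2 * (d : ℝ) + 2 ≤ e * (D + 1) := by
    rw [div_le_iff₀ he0] at hD
    nlinarith
  obtain ⟨CT, hCT, hT⟩ := taylor_poly d D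
  obtain ⟨M, hM, hP⟩ := areaRow d (D + 2)
  obtain ⟨CL, hCL, hL⟩ := det_lip_max d
  obtain ⟨CY, hCY, hY⟩ := cover_ball d r hr.le
  set a : ℝ := CT * |A (D + 3)| with ha
  have ha0 : 0 ≤ a := by positivity
  set b : ℝ := |A 2| + a with hb
  have hb0 : 0 ≤ b := by positivity
  set C3 : ℝ := CL * b ^ (d - 1) * a with hC3
  have hC30 : 0 ≤ C3 := by positivity
  set v1 : ℝ := (volume (Metric.closedBall (0 : E d) 1)).toReal with hv1
  have hv10 : 0 ≤ v1 := ENNReal.toReal_nonneg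
  set C4 : ℝ := M * (1 + a) ^ d + C3 * v1 with hC4
  have hC40 : 0 < C4 := by positivity
  refine ⟨CY * C4, by positivity, fun q R hR hq S hS hSr x R1 hR1 hx => ?_⟩
  have hR0 : 0 < R := by linarith
  set δ : ℝ := R ^ (-e) with hδ
  have hδ0 : 0 < δ := Real.rpow_pos_of_pos hR0 _
  have hδ1 : δ ≤ 1 := Real.rpow_le_one_of_one_le_of_nonpos hR (by linarith)
  obtain ⟨Y, hYc, hYm⟩ := hY δ hδ0 hδ1
  have hδD : δ ^ (D + 1) ≤ R ^ (-(2 * (d : ℝ) + 2)) := by
    rw [hδ, ← Real.rpow_natCast, ← Real.rpow_mul hR0.le]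
    apply Real.rpow_le_rpow_of_exponent_le hR
    push_cast
    linarith
  -- one small ball
  have hone : ∀ z ∈ Y, ∫⁻ y in S ∩ Metric.closedBall z δ, ‖(Hs q y).det‖ₑ ≤
      ENNReal.ofReal (C4 * R1 ^ d) := by
    intro z hz
    obtain ⟨P, hPd, hPy⟩ := hT q z δ (|A (D + 3)| * R ^ 2) hq.sm hδ0 hδ1 (by
      intro y _
      refine (hq.bd (D + 3) (by omega) y).trans ?_
      gcongr
      exact le_abs_self _)
    have h2 : R ^ (-(2 * (d : ℝ) + 2)) * R ^ 2 = R ^ (-(2 * (d : ℝ))) := by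
      rw [← Real.rpow_natCast R 2, ← Real.rpow_add hR0]
      congr 1
      push_cast
      ring
    have herr : ∀ y, ‖y - z‖ ≤ δ → ‖Hs q y - Hs (pe P) y‖ ≤ a * R ^ (-(2 * (d : ℝ))) := by
      intro y hy
      refine (hPy y hy).2.trans ?_
      calc CT * (|A (D + 3)| * R ^ 2) * δ ^ (D + 1)
          ≤ CT * (|A (D + 3)| * R ^ 2) * R ^ (-(2 * (d : ℝ) + 2)) := by gcongr
        _ = a * (R ^ (-(2 * (d : ℝ) + 2)) * R ^ 2) := by rw [ha]; ring
        _ = _ := by rw [h2]
    have hle1 : R ^ (-(2 * (d : ℝ))) ≤ 1 :=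
      Real.rpow_le_one_of_one_le_of_nonpos hR (by
        have : (0 : ℝ) ≤ d := Nat.cast_nonneg d
        linarith)
    have hgr : ∀ y ∈ S ∩ Metric.closedBall z δ, ‖gr (pe P) y - x‖ ≤ (1 + a) * R1 := by
      intro y hy
      have hyz : ‖y - z‖ ≤ δ := by
        have := hy.2
        rwa [Metric.mem_closedBall, dist_eq_norm] at this
      have h3 := (hPy y hyz).1
      have h4 : CT * (|A (D + 3)| * R ^ 2) * δ ^ (D + 2) ≤ a := by
        have h5 : δ ^ (D + 2) ≤ δ ^ (D + 1) := pow_le_pow_of_le_one hδ0.le hδ1 (by omega)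
        calc CT * (|A (D + 3)| * R ^ 2) * δ ^ (D + 2)
            ≤ CT * (|A (D + 3)| * R ^ 2) * R ^ (-(2 * (d : ℝ) + 2)) := by
              gcongr
              exact h5.trans hδD
          _ = a * (R ^ (-(2 * (d : ℝ) + 2)) * R ^ 2) := by rw [ha]; ring
          _ = a * R ^ (-(2 * (d : ℝ))) := by rw [h2]
          _ ≤ a * 1 := by gcongr
          _ = a := mul_one a
      have h6 : gr (pe P) y - x = (gr q y - x) - (gr q y - gr (pe P) y) := by abel
      rw [h6]
      refine (norm_sub_le _ _).trans ?_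
      have h7 := hx y hy.1
      nlinarith
    have hdet : ∀ y ∈ S ∩ Metric.closedBall z δ, ‖(Hs q y).det‖ₑ ≤
        ‖(Hs (pe P) y).det‖ₑ + ENNReal.ofReal C3 := by
      intro y hy
      have hyz : ‖y - z‖ ≤ δ := by
        have := hy.2
        rwa [Metric.mem_closedBall, dist_eq_norm] at this
      have h3 := hL (Hs q y) (Hs (pe P) y)
      have h4 := herr y hyz
      have h5 : ‖Hs q y‖ ≤ |A 2| * R ^ 2 :=
        (norm_Hs_le hq.sm y).trans ((hq.bd 2 le_rfl y).trans (by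
          gcongr
          exact le_abs_self _))
      have hR2 : 1 ≤ R ^ 2 := one_le_pow₀ hR
      have h6 : ‖Hs (pe P) y‖ ≤ b * R ^ 2 := by
        have h7 : Hs (pe P) y = Hs q y - (Hs q y - Hs (pe P) y) := by abel
        rw [h7]
        refine (norm_sub_le _ _).trans ?_
        have h8 : a * R ^ (-(2 * (d : ℝ))) ≤ a * R ^ 2 := by
          gcongr
          linarith
        rw [hb, add_mul]
        linarith
      have h7 : max ‖Hs q y‖ ‖Hs (pe P) y‖ ≤ b * R ^ 2 := by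
        apply max_le _ h6
        rw [hb, add_mul]
        have : 0 ≤ a * R ^ 2 := by positivity
        linarith
      have h8 : |(Hs q y).det - (Hs (pe P) y).det| ≤ C3 := by
        refine h3.trans ?_
        have h9 : (R ^ 2) ^ (d - 1) * R ^ (-(2 * (d : ℝ))) ≤ 1 := by
          have h10 : (R ^ 2) ^ (d - 1) ≤ (R ^ 2) ^ d := pow_le_pow_right₀ hR2 (Nat.sub_le d 1)
          have h11 : (R ^ 2) ^ d * R ^ (-(2 * (d : ℝ))) = 1 := by
            rw [← pow_mul, ← Real.rpow_natCast R (2 * d), ← Real.rpow_add hR0]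
            push_cast
            rw [add_neg_cancel, Real.rpow_zero]
          calc (R ^ 2) ^ (d - 1) * R ^ (-(2 * (d : ℝ)))
              ≤ (R ^ 2) ^ d * R ^ (-(2 * (d : ℝ))) := by gcongr
            _ = 1 := h11
        calc CL * max ‖Hs q y‖ ‖Hs (pe P) y‖ ^ (d - 1) * ‖Hs q y - Hs (pe P) y‖
            ≤ CL * (b * R ^ 2) ^ (d - 1) * (a * R ^ (-(2 * (d : ℝ)))) := by gcongr
          _ = C3 * ((R ^ 2) ^ (d - 1) * R ^ (-(2 * (d : ℝ)))) := by rw [hC3, mul_pow]; ring
          _ ≤ C3 * 1 := by gcongr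
          _ = C3 := mul_one _
      rw [Real.enorm_eq_ofReal_abs, Real.enorm_eq_ofReal_abs, ← ENNReal.ofReal_add (abs_nonneg _) hC30]
      apply ENNReal.ofReal_le_ofReal
      have h9 : |(Hs q y).det| ≤ |(Hs (pe P) y).det| + |(Hs q y).det - (Hs (pe P) y).det| := by
        have := abs_add_le (Hs (pe P) y).det ((Hs q y).det - (Hs (pe P) y).det)
        rwa [add_sub_cancel] at this
      linarith
    have hmeas : MeasurableSet (S ∩ Metric.closedBall z δ) := hS.inter Metric.isClosed_closedBall.measurableSet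
    have h3 : ∫⁻ y in S ∩ Metric.closedBall z δ, ‖(Hs q y).det‖ₑ ≤
        ∫⁻ y in S ∩ Metric.closedBall z δ, (‖(Hs (pe P) y).det‖ₑ + ENNReal.ofReal C3) :=
      setLIntegral_mono' hmeas hdet
    refine h3.trans ?_
    rw [lintegral_add_right _ measurable_const, setLIntegral_const]
    have h4 := hP P hPd (S ∩ Metric.closedBall z δ) hmeas x ((1 + a) * R1) (by positivity) hgr
    have h5 : volume (S ∩ Metric.closedBall z δ) ≤ ENNReal.ofReal v1 := by
      rw [hv1, ENNReal.ofReal_toReal (measure_closedBall_lt_top).ne]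
      refine (measure_mono inter_subset_right).trans ?_
      have h6 : volume (Metric.closedBall z δ) = volume (Metric.closedBall (0 : E d) δ) := by
        rw [Measure.addHaar_closedBall_center]
      rw [h6]
      exact measure_mono (Metric.closedBall_subset_closedBall hδ1)
    have hRd : 1 ≤ R1 ^ d := one_le_pow₀ hR1
    calc (∫⁻ y in S ∩ Metric.closedBall z δ, ‖(Hs (pe P) y).det‖ₑ) +
          ENNReal.ofReal C3 * volume (S ∩ Metric.closedBall z δ)
        ≤ ENNReal.ofReal (M * ((1 + a) * R1) ^ d) + ENNReal.ofReal C3 * ENNReal.ofReal v1 := by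
          gcongr
      _ = ENNReal.ofReal (M * ((1 + a) * R1) ^ d + C3 * v1) := by
          rw [← ENNReal.ofReal_mul hC30, ← ENNReal.ofReal_add (by positivity) (by positivity)]
      _ ≤ ENNReal.ofReal (C4 * R1 ^ d) := by
          apply ENNReal.ofReal_le_ofReal
          have e1 : M * ((1 + a) * R1) ^ d = M * (1 + a) ^ d * R1 ^ d := by rw [mul_pow]; ring
          have e2 : C3 * v1 * 1 ≤ C3 * v1 * R1 ^ d := by gcongr
          have e3 : C4 * R1 ^ d = M * (1 + a) ^ d * R1 ^ d + C3 * v1 * R1 ^ d := by rw [hC4]; ring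
          rw [e1, e3]
          linarith
  have hcov : S ⊆ ⋃ z ∈ Y, Metric.closedBall z δ := by
    intro y hy
    obtain ⟨z, hz, hyz⟩ := hYm y (hSr y hy)
    simp only [mem_iUnion]
    exact ⟨z, hz, by rwa [Metric.mem_closedBall, dist_eq_norm]⟩
  have h1 := lintegral_cover_le Y S (fun z => Metric.closedBall z δ) hcov
    (fun y => ‖(Hs q y).det‖ₑ) _ hone
  refine h1.trans ?_
  have h2 : ((Y.card : ℕ) : ℝ≥0∞) = ENNReal.ofReal (Y.card : ℝ) := by
    rw [ENNReal.ofReal_natCast]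
  rw [h2, ← ENNReal.ofReal_mul (Nat.cast_nonneg _)]
  apply ENNReal.ofReal_le_ofReal
  have h3 : (δ ^ d)⁻¹ ≤ R ^ ε := by
    rw [hδ, ← Real.rpow_natCast, ← Real.rpow_mul hR0.le, ← Real.rpow_neg hR0.le]
    apply Real.rpow_le_rpow_of_exponent_le hR
    rw [he]
    have : (0 : ℝ) ≤ d := Nat.cast_nonneg d
    rw [neg_mul, neg_neg, div_mul_eq_mul_div, div_le_iff₀ hd1]
    nlinarith
  calc (Y.card : ℝ) * (C4 * R1 ^ d) ≤ (CY * (δ ^ d)⁻¹) * (C4 * R1 ^ d) := by gcongr
    _ ≤ (CY * R ^ ε) * (C4 * R1 ^ d) := by gcongr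
    _ = CY * C4 * R ^ ε * R1 ^ d := by ring

end Pool.Agent.GNP
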