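import Pool.Agent.GNP.Defs
import Mathlib.Topology.MetricSpace.HausdorffDimension

/-!
A covering lemma for upper limits of sets in `R^m` (copy of `Pool.Agent.AXD.pi_cover`).
-/

namespace Pool.Agent.GNP

open MeasureTheory Set Pool.Agent.MP_6cbfb8_an
open scoped ENNReal NNReal Real

/-- The cube of half side `K`. -/
def cb (m : ℕ) (K : ℝ) : Set (Fin m → ℝ) := {l | ∀ i, |l i| ≤ K}

/-- The index of the half open dyadic cube of side `2^(-k)` containing `l`. -/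
noncomputable def gcv_fl {m : ℕ} (k : ℕ) (l : Fin m → ℝ) : Fin m → ℤ :=
  fun i => ⌊l i * (2:ℝ) ^ k⌋

theorem gcv_fl_meas {m : ℕ} (k : ℕ) : Measurable (gcv_fl (m := m) k) := by
  unfold gcv_fl
  refine measurable_pi_lambda _ fun i => ?_
  have h1 : Measurable fun l : Fin m → ℝ => l i * (2:ℝ) ^ k :=
    (measurable_pi_apply i).mul_const _
  exact h1.floor

theorem gcv_cube {m : ℕ} (k : ℕ) (z : Fin m → ℤ) :
    gcv_fl k ⁻¹' {z} = Set.pi univ (fun i =>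
      Ico ((z i : ℝ) / (2:ℝ) ^ k) (((z i : ℝ) + 1) / (2:ℝ) ^ k)) := by
  have h2 : (0:ℝ) < (2:ℝ) ^ k := by positivity
  ext l
  simp only [mem_preimage, mem_singleton_iff, Set.mem_pi, mem_univ, true_imp_iff, mem_Ico]
  constructor
  · intro h i
    have h3 : ⌊l i * (2:ℝ) ^ k⌋ = z i := congrFun h i
    rw [Int.floor_eq_iff] at h3
    rw [div_le_iff₀ h2, lt_div_iff₀ h2]
    exact h3
  · intro h
    funext i
    have h3 := h i
    rw [div_le_iff₀ h2, lt_div_iff₀ h2] at h3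
    exact Int.floor_eq_iff.2 h3

theorem gcv_vol {m : ℕ} (k : ℕ) (z : Fin m → ℤ) :
    volume (gcv_fl k ⁻¹' {z}) = ENNReal.ofReal ((((2:ℝ) ^ k)⁻¹) ^ m) := by
  have h2 : (0:ℝ) < (2:ℝ) ^ k := by positivity
  rw [gcv_cube, volume_pi_pi]
  have h3 : ∀ j : Fin m, volume (Ico ((z j : ℝ) / (2:ℝ) ^ k) (((z j : ℝ) + 1) / (2:ℝ) ^ k)) =
      ENNReal.ofReal (((2:ℝ) ^ k)⁻¹) := by
    intro j
    rw [Real.volume_Ico]
    congr 1
    field_simp
    ring
  rw [Finset.prod_congr rfl fun j _ => h3 j, Finset.prod_const, Finset.card_univ,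
    Fintype.card_fin, ← ENNReal.ofReal_pow (by positivity)]

theorem gcv_close {m : ℕ} {k : ℕ} {l l' : Fin m → ℝ} (h : gcv_fl k l = gcv_fl k l')
    (i : Fin m) : |l i - l' i| ≤ 1 / (2:ℝ) ^ k := by
  have h2 : (0:ℝ) < (2:ℝ) ^ k := by positivity
  have h3 : ⌊l i * (2:ℝ) ^ k⌋ = ⌊l' i * (2:ℝ) ^ k⌋ := congrFun h i
  have h4 := Int.floor_le (l i * (2:ℝ) ^ k)
  have h5 := Int.lt_floor_add_one (l i * (2:ℝ) ^ k)
  have h6 := Int.floor_le (l' i * (2:ℝ) ^ k)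
  have h7 := Int.lt_floor_add_one (l' i * (2:ℝ) ^ k)
  rw [← h3] at h6 h7
  have h8 : |(l i - l' i) * (2:ℝ) ^ k| ≤ 1 := by
    rw [abs_le]
    constructor <;> nlinarith
  rw [abs_mul, abs_of_pos h2] at h8
  rw [le_div_iff₀ h2]
  exact h8

theorem gcv_ediam {m : ℕ} (k : ℕ) (z : Fin m → ℤ) :
    Metric.ediam (gcv_fl (m := m) k ⁻¹' {z}) ≤ ENNReal.ofReal (((2:ℝ) ^ k)⁻¹) := by
  refine Metric.ediam_le fun l hl l' hl' => ?_
  refine edist_pi_le_iff.2 fun i => ?_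
  rw [edist_dist, Real.dist_eq]
  apply ENNReal.ofReal_le_ofReal
  rw [← one_div]
  exact gcv_close ((mem_singleton_iff.1 hl).trans (mem_singleton_iff.1 hl').symm) i

theorem gcv_cb_meas (m : ℕ) (K : ℝ) : MeasurableSet (cb m K) := by
  have h1 : cb m K = ⋂ i, {l : Fin m → ℝ | |l i| ≤ K} := by
    ext l
    simp [cb]
  rw [h1]
  refine MeasurableSet.iInter fun i => ?_
  have h2 : Measurable fun l : Fin m → ℝ => |l i| := (measurable_pi_apply i).abs
  exact h2 measurableSet_Iic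

/-- Counting the cubes of one level. -/
theorem gcv_count (m : ℕ) (K : ℝ) (d : ℝ) (k : ℕ) (V : (Fin m → ℝ) → ℝ≥0∞)
    (thr B : ℝ) (hthr : 0 < thr) (hB0 : 0 ≤ B)
    (hB : ∫⁻ M in cb m (K + 1), V M ≤ ENNReal.ofReal B)
    (hit : (Fin m → ℤ) → Prop) [DecidablePred hit]
    (hhit : ∀ z, hit z → ∀ M, gcv_fl k M = z → M ∈ cb m (K + 1) ∧ ENNReal.ofReal thr ≤ V M) :
    ∑' z, (if hit z then (ENNReal.ofReal (((2:ℝ) ^ k)⁻¹)) ^ d else 0) ≤
      ENNReal.ofReal (B / thr * ((2:ℝ) ^ k) ^ m * (((2:ℝ) ^ k)⁻¹) ^ d) := by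
  have h2 : (0:ℝ) < (2:ℝ) ^ k := by positivity
  have h2i : (0:ℝ) < ((2:ℝ) ^ k)⁻¹ := by positivity
  set v : ℝ := (((2:ℝ) ^ k)⁻¹) ^ m with hv
  have hv0 : 0 < v := by positivity
  set c : ℝ≥0∞ := (ENNReal.ofReal (((2:ℝ) ^ k)⁻¹)) ^ d with hc
  set C : ℝ≥0∞ := (ENNReal.ofReal (thr * v))⁻¹ * c with hC
  have hne : ENNReal.ofReal (thr * v) ≠ 0 := by
    rw [Ne, ENNReal.ofReal_eq_zero, not_le]
    positivity
  have h1 : ∀ z, (if hit z then c else 0) ≤
      (∫⁻ M in gcv_fl k ⁻¹' {z} ∩ cb m (K + 1), V M) * C := by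
    intro z
    by_cases hz : hit z
    · rw [if_pos hz, hC, ← mul_assoc]
      have hsub : gcv_fl (m := m) k ⁻¹' {z} ⊆ cb m (K + 1) := fun M hM => (hhit z hz M hM).1
      rw [inter_eq_left.2 hsub]
      have h3 : ENNReal.ofReal (thr * v) ≤ ∫⁻ M in gcv_fl k ⁻¹' {z}, V M := by
        calc ENNReal.ofReal (thr * v) = ∫⁻ M in gcv_fl (m := m) k ⁻¹' {z}, ENNReal.ofReal thr := by
              rw [setLIntegral_const, gcv_vol, ENNReal.ofReal_mul hthr.le]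
          _ ≤ ∫⁻ M in gcv_fl k ⁻¹' {z}, V M := by
              refine setLIntegral_mono' (gcv_fl_meas k (measurableSet_singleton z)) fun M hM => ?_
              exact (hhit z hz M hM).2
      have h4 : 1 ≤ (∫⁻ M in gcv_fl k ⁻¹' {z}, V M) * (ENNReal.ofReal (thr * v))⁻¹ := by
        rw [← ENNReal.mul_inv_cancel hne ENNReal.ofReal_ne_top]
        exact mul_le_mul_left h3 _
      calc c = 1 * c := (one_mul c).symm
        _ ≤ _ := mul_le_mul_left h4 _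
    · rw [if_neg hz]
      exact zero_le
  refine (ENNReal.tsum_le_tsum h1).trans ?_
  rw [ENNReal.tsum_mul_right, ← lintegral_iUnion
    (fun z => (gcv_fl_meas k (measurableSet_singleton z)).inter (gcv_cb_meas m (K + 1)))
    (by
      intro z z' hzz
      refine Disjoint.mono inter_subset_left inter_subset_left ?_
      rw [Set.disjoint_left]
      intro M hM hM'
      exact hzz ((mem_singleton_iff.1 hM).symm.trans (mem_singleton_iff.1 hM')))]
  have h5 : (⋃ z, gcv_fl (m := m) k ⁻¹' {z} ∩ cb m (K + 1)) = cb m (K + 1) := by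
    ext M
    simp
  rw [h5]
  refine (mul_le_mul_left hB C).trans ?_
  rw [hC, hc, ENNReal.ofReal_rpow_of_pos h2i, ← ENNReal.ofReal_inv_of_pos (by positivity),
    ← ENNReal.ofReal_mul (by positivity), ← ENNReal.ofReal_mul hB0]
  apply ENNReal.ofReal_le_ofReal
  apply le_of_eq
  have h6 : v⁻¹ = ((2:ℝ) ^ k) ^ m := by
    rw [hv, inv_pow, inv_inv]
  rw [mul_inv, h6]
  field_simp

/-- The set of points of the cube which belong to infinitely many of the sets `bad k` has dimension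
at most `d`, when `bad k` is covered by few cubes of side `2^(-k)`. -/
theorem pi_cover (m : ℕ) (K : ℝ) (d : ℝ≥0) (V : ℕ → (Fin m → ℝ) → ℝ≥0∞)
    (thr B : ℕ → ℝ) (hthr : ∀ k, 0 < thr k) (hB0 : ∀ k, 0 ≤ B k)
    (hB : ∀ k, ∫⁻ l in cb m (K + 1), V k l ≤ ENNReal.ofReal (B k))
    (hsum : Summable fun k : ℕ => B k / thr k * ((2:ℝ) ^ k) ^ m * (((2:ℝ) ^ k)⁻¹) ^ (d : ℝ))
    (bad : ℕ → Set (Fin m → ℝ))
    (hbad : ∀ k, ∀ l ∈ bad k, l ∈ cb m K → ∀ l' : Fin m → ℝ,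
      (∀ i, |l i - l' i| ≤ 1 / (2:ℝ) ^ k) → ENNReal.ofReal (thr k) ≤ V k l') :
    dimH {l : Fin m → ℝ | l ∈ cb m K ∧ ∃ᶠ k in Filter.atTop, l ∈ bad k} ≤ d := by
  classical
  set hit : ℕ × (Fin m → ℤ) → Prop := fun x =>
    ∃ M ∈ bad x.1, M ∈ cb m K ∧ gcv_fl x.1 M = x.2 with hhit
  set f : ℕ × (Fin m → ℤ) → ℝ≥0∞ := fun x =>
    if hit x then (ENNReal.ofReal (((2:ℝ) ^ x.1)⁻¹)) ^ (d : ℝ) else 0 with hf
  have hfsum : ∑' x, f x ≠ ∞ := by
    rw [ENNReal.tsum_prod (f := fun k z => f (k, z))]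
    have h1 : ∀ k : ℕ, ∑' z, f (k, z) ≤ ENNReal.ofReal
        (B k / thr k * ((2:ℝ) ^ k) ^ m * (((2:ℝ) ^ k)⁻¹) ^ (d : ℝ)) := by
      intro k
      refine gcv_count m K d k (V k) (thr k) (B k) (hthr k) (hB0 k) (hB k)
        (fun z => hit (k, z)) ?_
      rintro z ⟨M, hM, hMK, hMz⟩ M' hM'
      have h3 : ∀ i, |M i - M' i| ≤ 1 / (2:ℝ) ^ k :=
        fun i => gcv_close (hMz.trans hM'.symm) i
      refine ⟨fun i => ?_, hbad k M hM hMK M' h3⟩
      have h4 : 1 / (2:ℝ) ^ k ≤ 1 := by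
        rw [div_le_one (by positivity)]
        exact one_le_pow₀ (by norm_num)
      have h5 := h3 i
      have h6 := hMK i
      rw [abs_le] at h5 h6 ⊢
      constructor <;> linarith
    refine ne_top_of_le_ne_top ?_ (ENNReal.tsum_le_tsum h1)
    have h2 : ∀ k : ℕ, 0 ≤ B k / thr k * ((2:ℝ) ^ k) ^ m * (((2:ℝ) ^ k)⁻¹) ^ (d : ℝ) := by
      intro k
      have := hthr k
      have := hB0 k
      positivity
    rw [← ENNReal.ofReal_tsum_of_nonneg h2 hsum]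
    exact ENNReal.ofReal_ne_top
  apply dimH_le_of_hausdorffMeasure_ne_top
  refine ne_top_of_le_ne_top hfsum ?_
  refine (Measure.hausdorffMeasure_le_liminf_tsum (ι := fun k0 : ℕ =>
    {x : ℕ × (Fin m → ℤ) // hit x ∧ k0 ≤ x.1}) (d : ℝ) _ (l := Filter.atTop)
    (fun k0 : ℕ => ENNReal.ofReal (((2:ℝ) ^ k0)⁻¹)) ?_
    (fun k0 x => gcv_fl x.1.1 ⁻¹' {x.1.2}) ?_ ?_).trans ?_
  · rw [← ENNReal.ofReal_zero]
    apply ENNReal.tendsto_ofReal
    have := tendsto_pow_atTop_nhds_zero_of_lt_one (r := (2⁻¹ : ℝ)) (by norm_num) (by norm_num)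
    simpa only [inv_pow] using this
  · refine Filter.Eventually.of_forall fun k0 x => ?_
    refine (gcv_ediam _ _).trans (ENNReal.ofReal_le_ofReal ?_)
    apply inv_anti₀ (by positivity)
    exact pow_le_pow_right₀ (by norm_num) x.2.2
  · refine Filter.Eventually.of_forall fun k0 M hM => ?_
    obtain ⟨k, hk, hMk⟩ := (Filter.frequently_atTop.1 hM.2) k0
    rw [mem_iUnion]
    exact ⟨⟨(k, gcv_fl k M), ⟨M, hMk, hM.1, rfl⟩, hk⟩, rfl⟩
  · apply Filter.liminf_le_of_frequently_le'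
    apply Filter.Eventually.frequently
    refine Filter.Eventually.of_forall fun k0 => ?_
    have h1 : ∀ x : {x : ℕ × (Fin m → ℤ) // hit x ∧ k0 ≤ x.1},
        Metric.ediam (gcv_fl (m := m) x.1.1 ⁻¹' {x.1.2}) ^ (d : ℝ) ≤ f x.1 := by
      intro x
      simp only [hf]
      rw [if_pos x.2.1]
      exact ENNReal.rpow_le_rpow (gcv_ediam _ _) d.2
    exact (ENNReal.tsum_le_tsum h1).trans
      (ENNReal.tsum_comp_le_tsum_of_injective Subtype.val_injective f)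

end Pool.Agent.GNP
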