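import Pool.Agent.GNP.AEB
import Pool.Agent.GNP.DetLip
import Pool.Agent.GNP.Cov

/-!
ROW DJ: the set of `b` for which `JJ` is infinite has dimension at most `d + α`.
-/

namespace Pool.Agent.GNP

open MeasureTheory Set Pool.Agent.MP_6cbfb8_an
open scoped ENNReal NNReal Real RealInnerProductSpace ContDiff

/-- One if `|x| ≤ δ`, zero otherwise. -/
noncomputable def ind (δ x : ℝ) : ℝ≥0∞ := (Icc (-δ) δ).indicator (fun _ => 1) x

theorem measurable_ind (δ : ℝ) : Measurable (ind δ) :=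
  measurable_const.indicator measurableSet_Icc

theorem ind_le_one (δ x : ℝ) : ind δ x ≤ 1 := by
  unfold ind
  exact indicator_le_self' (fun _ _ => zero_le) x |>.trans (by simp)

theorem ind_of {δ x : ℝ} (h : |x| ≤ δ) : ind δ x = 1 := by
  unfold ind
  rw [indicator_of_mem]
  exact abs_le.1 h

theorem ind_not {δ x : ℝ} (h : ¬ |x| ≤ δ) : ind δ x = 0 := by
  unfold ind
  rw [indicator_of_notMem]
  exact fun h1 => h (abs_le.2 h1)

theorem ind_mono {δ δ' x x' : ℝ} (h : |x| ≤ δ → |x'| ≤ δ') : ind δ x ≤ ind δ' x' := by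
  by_cases h1 : |x| ≤ δ
  · rw [ind_of h1, ind_of (h h1)]
  · rw [ind_not h1]
    exact zero_le

/-- Chebyshev. -/
theorem ind_le {δ β x : ℝ} (hδ : 0 < δ) (hβ : 0 ≤ β) :
    ind δ x ≤ ENNReal.ofReal (δ ^ β) * ‖x‖ₑ ^ (-β) := by
  by_cases h1 : |x| ≤ δ
  · rw [ind_of h1]
    have h2 : ‖x‖ₑ ≤ ENNReal.ofReal δ := by
      rw [← ofReal_norm, Real.norm_eq_abs]
      exact ENNReal.ofReal_le_ofReal h1
    calc (1 : ℝ≥0∞) = ENNReal.ofReal (δ ^ β) * ENNReal.ofReal δ ^ (-β) := by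
          rw [ENNReal.ofReal_rpow_of_pos hδ, ← ENNReal.ofReal_mul (by positivity),
            ← Real.rpow_add hδ, add_neg_cancel, Real.rpow_zero, ENNReal.ofReal_one]
      _ ≤ _ := by
          refine mul_le_mul' le_rfl ?_
          rw [ENNReal.rpow_neg, ENNReal.rpow_neg]
          exact ENNReal.inv_le_inv.2 (ENNReal.rpow_le_rpow h2 hβ)
  · rw [ind_not h1]
    exact zero_le

/-- Dyadic shells. -/
theorem shells {α x : ℝ} (hα : 0 < α) :
    ‖x‖ₑ ^ (-α) ≤ 1 + ∑' k : ℕ, ENNReal.ofReal (((2:ℝ) ^ (k + 1)) ^ α) * ind (1 / 2 ^ k) x := by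
  by_cases hx : x = 0
  · have h1 : ∀ k : ℕ, (1 : ℝ≥0∞) ≤ ENNReal.ofReal (((2:ℝ) ^ (k + 1)) ^ α) * ind (1 / 2 ^ k) x := by
      intro k
      have h2 : |x| ≤ 1 / 2 ^ k := by
        rw [hx, abs_zero]
        positivity
      rw [ind_of h2, mul_one, ENNReal.one_le_ofReal]
      exact Real.one_le_rpow (one_le_pow₀ (by norm_num)) hα.le
    have h3 : ∑' _ : ℕ, (1 : ℝ≥0∞) = ⊤ := ENNReal.tsum_const_eq_top_of_ne_zero one_ne_zero
    have h4 := ENNReal.tsum_le_tsum h1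
    rw [h3, top_le_iff] at h4
    rw [h4, add_top]
    exact le_top
  · have hx0 : 0 < |x| := abs_pos.2 hx
    by_cases h1 : 1 ≤ |x|
    · refine le_trans ?_ le_self_add
      have h2 : (1 : ℝ≥0∞) ≤ ‖x‖ₑ := by
        rw [← ofReal_norm, Real.norm_eq_abs, ENNReal.one_le_ofReal]
        exact h1
      rw [ENNReal.rpow_neg, ENNReal.inv_le_one]
      exact ENNReal.one_le_rpow h2 hα
    · push Not at h1
      obtain ⟨k, hk1, hk2⟩ := exists_nat_pow_near_of_lt_one hx0 h1.le (y := (1 / 2 : ℝ))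
        (by norm_num) (by norm_num)
      have h2 : |x| ≤ 1 / 2 ^ k := by
        rw [one_div_pow] at hk2
        exact hk2
      refine le_trans ?_ le_add_self
      refine le_trans ?_ (ENNReal.le_tsum k)
      rw [ind_of h2, mul_one]
      have h3 : ‖x‖ₑ = ENNReal.ofReal |x| := by
        rw [← ofReal_norm, Real.norm_eq_abs]
      rw [h3, ENNReal.ofReal_rpow_of_pos hx0]
      apply ENNReal.ofReal_le_ofReal
      rw [Real.rpow_neg hx0.le, ← Real.inv_rpow hx0.le]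
      apply Real.rpow_le_rpow (by positivity) _ hα.le
      rw [inv_le_comm₀ hx0 (by positivity), ← one_div, ← one_div_pow]
      exact hk1.le

/-- The measure of the set of all `(σ, y)` with `|σ| ≤ s`, `|y| ≤ r` where the determinant of the
pencil is at most `δ`. -/
noncomputable def mb {d : ℕ} (φ : E (d + 1) → ℝ) (r s : ℝ) (b : Fin (d + 1) → ℝ) (δ : ℝ) : ℝ≥0∞ :=
  ∫⁻ σ in {σ : ℝ | |σ| ≤ s}, ∫⁻ y in Metric.closedBall (0 : E d) r, ind δ (pen φ b σ y).det

theorem measurable_ind_det {d : ℕ} (φ : E (d + 1) → ℝ) (δ : ℝ) :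
    Measurable fun q : ((Fin (d + 1) → ℝ) × ℝ) × E d => ind δ (pen φ q.1.1 q.1.2 q.2).det :=
  (measurable_ind δ).comp (ContinuousLinearMap.continuous_det.measurable.comp (measurable_pen φ))

theorem measurable_mb {d : ℕ} (φ : E (d + 1) → ℝ) (r s δ : ℝ) :
    Measurable fun b : Fin (d + 1) → ℝ => mb φ r s b δ := by
  unfold mb
  have hm1 : Measurable fun q : (Fin (d + 1) → ℝ) × ℝ =>
      ∫⁻ y in Metric.closedBall (0 : E d) r, ind δ (pen φ q.1 q.2 y).det :=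
    (measurable_ind_det (d := d) φ δ).lintegral_prod_right'
  exact hm1.lintegral_prod_right'

theorem mb_le {d : ℕ} (φ : E (d + 1) → ℝ) (r s : ℝ) (b : Fin (d + 1) → ℝ) (δ : ℝ) :
    mb φ r s b δ ≤ volume (Metric.closedBall (0 : E d) r) * volume {σ : ℝ | |σ| ≤ s} := by
  unfold mb
  calc _ ≤ ∫⁻ _ in {σ : ℝ | |σ| ≤ s}, volume (Metric.closedBall (0 : E d) r) := by
        refine lintegral_mono fun σ => ?_
        calc _ ≤ ∫⁻ _ in Metric.closedBall (0 : E d) r, (1 : ℝ≥0∞) :=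
              lintegral_mono fun y => ind_le_one _ _
          _ = _ := by rw [setLIntegral_const, one_mul]
    _ = _ := by rw [setLIntegral_const]

theorem vol_s (s : ℝ) : volume {σ : ℝ | |σ| ≤ s} ≠ ⊤ := by
  have : {σ : ℝ | |σ| ≤ s} = Icc (-s) s := by
    ext σ
    simp [abs_le]
  rw [this]
  exact isCompact_Icc.measure_lt_top.ne

/-- The integral over `b` of `mb`. -/
theorem int_mb (d : ℕ) (r β M s : ℝ) (hβ : 0 ≤ β) (hβ1 : β < 1) :
    ∃ C : ℝ, 0 ≤ C ∧ ∀ (φ : E (d + 1) → ℝ) (δ : ℝ), 0 < δ →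
      ∫⁻ b in cb (d + 1) M, mb φ r s b δ ≤ ENNReal.ofReal (C * δ ^ β) := by
  obtain ⟨C, hC, hC1⟩ := near_J d r β 0 M s hβ hβ1 le_rfl
  refine ⟨C.toReal, ENNReal.toReal_nonneg, fun φ δ hδ => ?_⟩
  have hcb : cb (d + 1) M = Icc (fun _ : Fin (d + 1) => -M) (fun _ => M) := by
    ext l
    simp only [cb, mem_ofPred_eq, mem_Icc, Pi.le_def, abs_le]
    exact forall_and
  rw [hcb]
  have h1 : ∀ b, mb φ r s b δ ≤ ENNReal.ofReal (δ ^ β) *
      ∫⁻ σ in {σ : ℝ | |σ| ≤ s}, ∫⁻ y in Metric.closedBall (0 : E d) r, penF β 0 φ b σ y := by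
    intro b
    unfold mb
    have hm := measurable_penF (d := d) β 0 φ
    have hmy : ∀ σ, Measurable fun y : E d => penF β 0 φ b σ y := fun σ =>
      hm.comp (f := fun y : E d => ((b, σ), y)) (by fun_prop)
    rw [← lintegral_const_mul' _ _ ENNReal.ofReal_ne_top]
    refine lintegral_mono fun σ => ?_
    rw [← lintegral_const_mul' _ _ ENNReal.ofReal_ne_top]
    refine lintegral_mono fun y => ?_
    refine (ind_le hδ hβ).trans (le_of_eq ?_)
    unfold penF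
    rw [Real.rpow_zero, ENNReal.ofReal_one, one_mul]
  refine (lintegral_mono h1).trans ?_
  rw [lintegral_const_mul' _ _ ENNReal.ofReal_ne_top]
  refine (mul_le_mul' le_rfl (hC1 φ)).trans (le_of_eq ?_)
  rw [mul_comm, ENNReal.ofReal_mul ENNReal.toReal_nonneg, ENNReal.ofReal_toReal hC]

/-- Lipschitz continuity in `b`. -/
theorem det_pen_lip {d : ℕ} {φ : E (d + 1) → ℝ} (hφ : ∀ x, ‖x‖ = 1 → ContDiffAt ℝ ∞ φ x)
    {r : ℝ} (hr1 : r < 1) (M s : ℝ) (hM : 0 ≤ M) (hs0 : 0 ≤ s) :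
    ∃ L : ℝ, 0 < L ∧ ∀ b b' : Fin (d + 1) → ℝ, (∀ j, |b j| ≤ M) → (∀ j, |b' j| ≤ M) →
      ∀ δ : ℝ, (∀ j, |b j - b' j| ≤ δ) → ∀ σ : ℝ, |σ| ≤ s → ∀ y : E d, ‖y‖ ≤ r →
        |(pen φ b σ y).det - (pen φ b' σ y).det| ≤ L * δ := by
  obtain ⟨K0, hK0⟩ := Hs_phi_bound hφ hr1
  obtain ⟨H0, hH0⟩ := (isCompact_closedBall (0 : E d) r).exists_bound_of_continuousOn
    (continuousOn_Hs_hs.mono (Metric.closedBall_subset_ball hr1))
  obtain ⟨C, hC, hlip⟩ := det_lip d
  set B : ℝ := max 1 (K0 + 4 * M + s * H0) with hB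
  refine ⟨C * B ^ d * 4, by positivity, fun b b' hb hb' δ hbb σ hσ y hy => ?_⟩
  have hnorm : ∀ c : Fin (d + 1) → ℝ, (∀ j, |c j| ≤ M) → ‖pen φ c σ y‖ ≤ B := by
    intro c hc
    unfold pen
    refine le_trans ((norm_sub_le _ _).trans (add_le_add (pen_norm hM hK0 hc hy) ?_))
      (le_max_right _ _)
    rw [norm_smul, Real.norm_eq_abs]
    exact mul_le_mul hσ (hH0 y (by simpa using hy)) (norm_nonneg _) hs0
  have h1 := hlip (pen φ b σ y) (pen φ b' σ y) B (le_max_left _ _) (hnorm b hb) (hnorm b' hb')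
  refine h1.trans ?_
  rw [mul_assoc (C * B ^ d)]
  refine mul_le_mul_of_nonneg_left ?_ (by positivity)
  have hδ : 0 ≤ δ := (abs_nonneg _).trans (hbb 0)
  have h2 : pen φ b σ y - pen φ b' σ y =
      dg (fun j => 2 * ((b j.castSucc - b' j.castSucc) - (b (Fin.last d) - b' (Fin.last d)))) := by
    unfold pen
    ext v i
    simp only [sub_apply, add_apply, PiLp.sub_apply,
      PiLp.add_apply, dg_apply]
    ring
  rw [h2]
  refine aef_norm_dg _ _ (by positivity) fun j => ?_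
  rw [abs_mul, abs_two]
  have h3 := abs_sub (b j.castSucc - b' j.castSucc) (b (Fin.last d) - b' (Fin.last d))
  linarith [hbb j.castSucc, hbb (Fin.last d)]

theorem mb_stab {d : ℕ} {φ : E (d + 1) → ℝ} {r s L : ℝ} {b b' : Fin (d + 1) → ℝ} {δ : ℝ}
    (h : ∀ σ : ℝ, |σ| ≤ s → ∀ y : E d, ‖y‖ ≤ r →
        |(pen φ b σ y).det - (pen φ b' σ y).det| ≤ L * δ) :
    mb φ r s b δ ≤ mb φ r s b' ((L + 1) * δ) := by
  unfold mb
  have hms : MeasurableSet {σ : ℝ | |σ| ≤ s} := measurableSet_le (by fun_prop) measurable_const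
  refine setLIntegral_mono' hms fun σ hσ => ?_
  refine setLIntegral_mono' measurableSet_closedBall fun y hy => ?_
  refine ind_mono fun h1 => ?_
  have h2 := h σ hσ y (by simpa using hy)
  have h3 : |(pen φ b' σ y).det| ≤ |(pen φ b σ y).det| +
      |(pen φ b σ y).det - (pen φ b' σ y).det| := by
    rw [← abs_neg ((pen φ b σ y).det - (pen φ b' σ y).det)]
    refine le_trans (le_of_eq ?_) (abs_add_le _ _)
    congr 1
    ring
  linarith

end Pool.Agent.GNP
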