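import Pool.Agent.GNP.DJ

/-!
ROW DJ, second part: the dimension of the set of `b` for which `JJ` is infinite.
-/

namespace Pool.Agent.GNP

open MeasureTheory Set Pool.Agent.MP_6cbfb8_an
open scoped ENNReal NNReal Real RealInnerProductSpace ContDiff

theorem dk_pow (x : ℝ) (k : ℕ) : ((2:ℝ) ^ k) ^ x = ((2:ℝ) ^ x) ^ k := by
  rw [← Real.rpow_natCast, ← Real.rpow_mul two_pos.le, mul_comm, Real.rpow_mul two_pos.le,
    Real.rpow_natCast]

theorem dk_tsum {α α' : ℝ} (hαα : α < α') (m : ℕ → ℝ≥0∞) (hm : ∀ k, m k ≠ ⊤) (k0 : ℕ)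
    (h : ∀ k, k0 ≤ k → m k ≤ ENNReal.ofReal (((2:ℝ) ^ k) ^ (-α'))) :
    ∑' k : ℕ, ENNReal.ofReal (((2:ℝ) ^ (k + 1)) ^ α) * m k ≠ ⊤ := by
  set f : ℕ → ℝ≥0∞ := fun k => ENNReal.ofReal (((2:ℝ) ^ (k + 1)) ^ α) * m k with hf
  have h1 : ∑ i ∈ Finset.range k0, f i + ∑' i, f (i + k0) = ∑' i, f i :=
    Summable.sum_add_tsum_nat_add' (f := f) (k := k0) ENNReal.summable
  rw [← h1]
  refine ENNReal.add_ne_top.2 ⟨?_, ?_⟩
  · exact (ENNReal.sum_lt_top.2 fun k _ =>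
      ENNReal.mul_lt_top ENNReal.ofReal_lt_top (hm k).lt_top).ne
  · set ρ : ℝ := (2:ℝ) ^ (α - α') with hρ
    have hρ0 : 0 < ρ := by positivity
    have hρ1 : ρ < 1 := Real.rpow_lt_one_of_one_lt_of_neg one_lt_two (by linarith)
    have h2 : ∀ k, f (k + k0) ≤ ENNReal.ofReal ((2:ℝ) ^ α * ρ ^ k) := by
      intro k
      have h3 := h (k + k0) (Nat.le_add_left _ _)
      refine (mul_le_mul' le_rfl h3).trans ?_
      rw [← ENNReal.ofReal_mul (by positivity)]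
      apply ENNReal.ofReal_le_ofReal
      have e1 : ((2:ℝ) ^ (k + k0 + 1)) ^ α = (2:ℝ) ^ α * ((2:ℝ) ^ α) ^ (k + k0) := by
        rw [dk_pow, pow_succ]
        ring
      have e2 : ((2:ℝ) ^ α) ^ (k + k0) * ((2:ℝ) ^ (-α')) ^ (k + k0) = ρ ^ (k + k0) := by
        rw [← mul_pow, hρ, ← Real.rpow_add two_pos]
        rfl
      rw [e1, dk_pow (-α'), mul_assoc, e2, pow_add]
      have h4 : ρ ^ k0 ≤ 1 := pow_le_one₀ hρ0.le hρ1.le
      have h5 : 0 ≤ ρ ^ k := by positivity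
      have h6 : 0 ≤ (2:ℝ) ^ α := by positivity
      exact mul_le_mul_of_nonneg_left (mul_le_of_le_one_right h5 h4) h6
    refine ne_top_of_le_ne_top ?_ (ENNReal.tsum_le_tsum h2)
    rw [← ENNReal.ofReal_tsum_of_nonneg (fun k => by positivity)
      ((summable_geometric_of_lt_one hρ0.le hρ1).mul_left _)]
    exact ENNReal.ofReal_ne_top

/-- The part `|σ| ≤ s` is finite when `mb` decays. -/
theorem near_fin {d : ℕ} (φ : E (d + 1) → ℝ) {r s α α' κ : ℝ} (hα : 0 < α)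
    (hαα : α < α') (hκ : 0 ≤ κ) (b : Fin (d + 1) → ℝ) (k0 : ℕ)
    (h : ∀ k, k0 ≤ k → mb φ r s b (1 / 2 ^ k) ≤ ENNReal.ofReal (((2:ℝ) ^ k) ^ (-α'))) :
    ∫⁻ σ in {σ : ℝ | |σ| ≤ s}, ∫⁻ y in Metric.closedBall (0 : E d) r, penF α κ φ b σ y ≠ ⊤ := by
  have hms : MeasurableSet {σ : ℝ | |σ| ≤ s} := measurableSet_le (by fun_prop) measurable_const
  have hmy : ∀ (δ σ : ℝ), Measurable fun y : E d => ind δ (pen φ b σ y).det := fun δ σ =>
    (measurable_ind_det (d := d) φ δ).comp (f := fun y : E d => ((b, σ), y)) (by fun_prop)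
  have hmσ : ∀ δ : ℝ, Measurable fun σ : ℝ =>
      ∫⁻ y in Metric.closedBall (0 : E d) r, ind δ (pen φ b σ y).det := by
    intro δ
    have h1 : Measurable fun q : ℝ × E d => ind δ (pen φ b q.1 q.2).det :=
      (measurable_ind_det (d := d) φ δ).comp (f := fun q : ℝ × E d => ((b, q.1), q.2))
        (by fun_prop)
    exact h1.lintegral_prod_right'
  set w : ℝ≥0∞ := ENNReal.ofReal ((1 + s) ^ κ) with hw
  set c : ℕ → ℝ≥0∞ := fun k => ENNReal.ofReal (((2:ℝ) ^ (k + 1)) ^ α) with hc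
  have key : ∫⁻ σ in {σ : ℝ | |σ| ≤ s}, ∫⁻ y in Metric.closedBall (0 : E d) r, penF α κ φ b σ y ≤
      w * (volume (Metric.closedBall (0 : E d) r) * volume {σ : ℝ | |σ| ≤ s} +
        ∑' k : ℕ, c k * mb φ r s b (1 / 2 ^ k)) := by
    calc _ ≤ ∫⁻ σ in {σ : ℝ | |σ| ≤ s}, w * (volume (Metric.closedBall (0 : E d) r) +
            ∑' k : ℕ, c k * ∫⁻ y in Metric.closedBall (0 : E d) r,
              ind (1 / 2 ^ k) (pen φ b σ y).det) := by
          refine setLIntegral_mono' hms fun σ hσ => ?_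
          calc _ ≤ ∫⁻ y in Metric.closedBall (0 : E d) r, w * (1 + ∑' k : ℕ, c k *
                ind (1 / 2 ^ k) (pen φ b σ y).det) := by
                refine lintegral_mono fun y => ?_
                unfold penF
                refine mul_le_mul' (ENNReal.ofReal_le_ofReal ?_) (shells hα)
                have hσ' : |σ| ≤ s := hσ
                exact Real.rpow_le_rpow (by positivity) (by linarith) hκ
            _ = _ := by
                rw [lintegral_const_mul' _ _ ENNReal.ofReal_ne_top, lintegral_add_left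
                  measurable_const, setLIntegral_const, one_mul, lintegral_tsum
                  fun k => ((hmy _ σ).const_mul _).aemeasurable]
                congr 2
                refine tsum_congr fun k => ?_
                rw [lintegral_const_mul' _ _ ENNReal.ofReal_ne_top]
      _ = _ := by
          rw [lintegral_const_mul' _ _ ENNReal.ofReal_ne_top, lintegral_add_left
            measurable_const, setLIntegral_const, lintegral_tsum
            fun k => ((hmσ _).const_mul _).aemeasurable]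
          congr 2
          refine tsum_congr fun k => ?_
          rw [lintegral_const_mul' _ _ ENNReal.ofReal_ne_top]
          rfl
  refine ne_top_of_le_ne_top (ENNReal.mul_ne_top ENNReal.ofReal_ne_top
    (ENNReal.add_ne_top.2 ⟨?_, ?_⟩)) key
  · exact ENNReal.mul_ne_top (isCompact_closedBall _ _).measure_lt_top.ne (vol_s s)
  · refine dk_tsum hαα _ (fun k => ?_) k0 h
    exact ne_top_of_le_ne_top
      (ENNReal.mul_ne_top (isCompact_closedBall _ _).measure_lt_top.ne (vol_s s)) (mb_le _ _ _ _ _)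

theorem dk_sum (m : ℕ) {β α' C L : ℝ} {s : ℝ≥0} (hL : 0 < L) (h : (m : ℝ) + α' - β < s) :
    Summable fun k : ℕ => C * ((L + 1) * (1 / 2 ^ k)) ^ β / ((2:ℝ) ^ k) ^ (-α') * ((2:ℝ) ^ k) ^ m *
      (((2:ℝ) ^ k)⁻¹) ^ (s : ℝ) := by
  set ρ : ℝ := (2:ℝ) ^ ((m : ℝ) + α' - β - s) with hρ
  have hρ0 : 0 < ρ := by positivity
  have hρ1 : ρ < 1 := Real.rpow_lt_one_of_one_lt_of_neg one_lt_two (by linarith)
  refine ((summable_geometric_of_lt_one hρ0.le hρ1).mul_left (C * (L + 1) ^ β)).congr fun k => ?_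
  have h2 : (0:ℝ) < 2 ^ k := by positivity
  have e1 : ((L + 1) * (1 / 2 ^ k)) ^ β = (L + 1) ^ β * ((2:ℝ) ^ k) ^ (-β) := by
    rw [Real.mul_rpow (by linarith) (by positivity), one_div, Real.inv_rpow h2.le,
      Real.rpow_neg h2.le]
  have e2 : (((2:ℝ) ^ k)⁻¹) ^ (s : ℝ) = ((2:ℝ) ^ k) ^ (-(s : ℝ)) := by
    rw [Real.inv_rpow h2.le, Real.rpow_neg h2.le]
  have e3 : ((2:ℝ) ^ k) ^ m = ((2:ℝ) ^ k) ^ (m : ℝ) := by rw [Real.rpow_natCast]
  have e4 : ρ ^ k = ((2:ℝ) ^ k) ^ (-β) / ((2:ℝ) ^ k) ^ (-α') * ((2:ℝ) ^ k) ^ (m : ℝ) *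
      ((2:ℝ) ^ k) ^ (-(s : ℝ)) := by
    rw [← Real.rpow_sub h2, ← Real.rpow_add h2, ← Real.rpow_add h2, dk_pow, hρ]
    congr 2
    ring
  rw [e4, e1, e2, e3]
  ring

/-- The dimension of the set of `b` in a cube where `JJ` is infinite. -/
theorem dim_cube (d : ℕ) (hd : 3 ≤ d) (φ : E (d + 1) → ℝ)
    (hφ : ∀ x, ‖x‖ = 1 → ContDiffAt ℝ ∞ φ x) (r α M : ℝ) (hr1 : r < 1)
    (hα : 2 / (d : ℝ) < α) (hα1 : α < 1) (hM : 0 ≤ M) (s : ℝ≥0) (hsd : (d : ℝ) + α < s) :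
    dimH {b : Fin (d + 1) → ℝ | b ∈ cb (d + 1) M ∧
      JJ d r α (kap d α) (fun y => pb φ b (join y (hs y))) hs = ⊤} ≤ s := by
  have hd0 : (0 : ℝ) < d := by
    have : (3 : ℝ) ≤ d := by exact_mod_cast hd
    linarith
  have hα0 : 0 < α := lt_of_le_of_lt (by positivity) hα
  have hdα : 2 < d * α := by
    rw [div_lt_iff₀ hd0] at hα
    linarith
  have hκ : 0 ≤ kap d α := by
    unfold kap
    nlinarith
  obtain ⟨K0, hK0⟩ := Hs_phi_bound hφ hr1
  obtain ⟨s0, hs0, C1, hC1, hfar⟩ := far_pen d (by omega) r α M K0 hr1 hα hM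
  -- the exponents
  obtain ⟨ε, hε, hε1, hε2⟩ : ∃ ε : ℝ, 0 < ε ∧ ε < 1 ∧ (d : ℝ) + α + 2 * ε < s := by
    refine ⟨min (1 / 2) ((s - (d + α)) / 3), lt_min (by norm_num) (by linarith), ?_, ?_⟩
    · exact lt_of_le_of_lt (min_le_left _ _) (by norm_num)
    · have := min_le_right (1 / 2 : ℝ) ((s - (d + α)) / 3)
      linarith
  obtain ⟨C, hC0, hC⟩ := int_mb d r (1 - ε) (M + 1) s0 (by linarith) (by linarith)
  obtain ⟨L, hL, hlip⟩ := det_pen_lip hφ hr1 (M + 1) s0 (by linarith) hs0.le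
  set bad : ℕ → Set (Fin (d + 1) → ℝ) := fun k =>
    {b | ENNReal.ofReal (((2:ℝ) ^ k) ^ (-(α + ε))) ≤ mb φ r s0 b (1 / 2 ^ k)} with hbad
  have hcov := pi_cover (d + 1) M s (fun k b => mb φ r s0 b ((L + 1) * (1 / 2 ^ k)))
    (fun k => ((2:ℝ) ^ k) ^ (-(α + ε)))
    (fun k => C * ((L + 1) * (1 / 2 ^ k)) ^ (1 - ε)) (fun k => by positivity)
    (fun k => by positivity) (fun k => hC φ _ (by positivity))
    (dk_sum (d + 1) hL (by push_cast; linarith)) bad ?_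
  · refine le_trans (dimH_mono ?_) hcov
    rintro b ⟨hb, hJ⟩
    refine ⟨hb, ?_⟩
    by_contra hcon
    rw [Filter.not_frequently, Filter.eventually_atTop] at hcon
    obtain ⟨k0, hk0⟩ := hcon
    have hnear := near_fin (κ := kap d α) φ (r := r) (s := s0) hα0 (show α < α + ε by linarith) hκ
      b k0 (fun k hk => (not_le.1 (hk0 k hk)).le)
    have hfar' := hfar φ hK0 b hb
    have hmS : MeasurableSet {σ : ℝ | s0 < |σ|} := measurableSet_lt measurable_const (by fun_prop)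
    have hcompl : {σ : ℝ | s0 < |σ|}ᶜ = {σ : ℝ | |σ| ≤ s0} := by
      ext σ
      simp
    rw [JJ_eq_pen hφ hr1 b, ← lintegral_add_compl _ hmS, hcompl] at hJ
    exact (ENNReal.add_ne_top.2 ⟨ne_top_of_le_ne_top hC1 hfar', hnear⟩) hJ
  · intro k l hl hlM l' hll
    refine le_trans hl ?_
    have h1 : (1 : ℝ) / 2 ^ k ≤ 1 := by
      rw [div_le_one (by positivity)]
      exact one_le_pow₀ (by norm_num)
    refine mb_stab fun σ hσ y hy => hlip l l' (fun j => ?_) (fun j => ?_) _ hll σ hσ y hy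
    · linarith [hlM j]
    · have h2 := hll j
      have h3 := hlM j
      rw [abs_le] at h2 h3 ⊢
      constructor <;> linarith

/-- The dimension of the set of `b` where `JJ` is infinite. -/
theorem dim_J (d : ℕ) (hd : 3 ≤ d) (φ : E (d + 1) → ℝ)
    (hφ : ∀ x, ‖x‖ = 1 → ContDiffAt ℝ ∞ φ x) (r α : ℝ) (hr1 : r < 1)
    (hα : 2 / (d : ℝ) < α) (hα1 : α < 1) :
    dimH {b : Fin (d + 1) → ℝ |
      JJ d r α (kap d α) (fun y => pb φ b (join y (hs y))) hs = ⊤} ≤ ENNReal.ofReal (d + α) := by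
  have hα0 : 0 < α := lt_of_le_of_lt (by positivity) hα
  have h1 : {b : Fin (d + 1) → ℝ |
      JJ d r α (kap d α) (fun y => pb φ b (join y (hs y))) hs = ⊤} ⊆
      ⋃ M : ℕ, {b : Fin (d + 1) → ℝ | b ∈ cb (d + 1) M ∧
        JJ d r α (kap d α) (fun y => pb φ b (join y (hs y))) hs = ⊤} := by
    intro b hb
    obtain ⟨M, hM⟩ := exists_nat_ge (∑ j, |b j|)
    refine mem_iUnion.2 ⟨M, fun j => ?_, hb⟩
    exact (Finset.single_le_sum (f := fun j => |b j|) (fun j _ => abs_nonneg _)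
      (Finset.mem_univ j)).trans hM
  refine (dimH_mono h1).trans ?_
  rw [dimH_iUnion]
  refine iSup_le fun M => ?_
  refine ENNReal.le_of_forall_pos_le_add fun ε hε _ => ?_
  have h2 := dim_cube d hd φ hφ r α M hr1 hα hα1 (Nat.cast_nonneg M)
    (Real.toNNReal (d + α) + ε) (by
      rw [NNReal.coe_add, Real.coe_toNNReal _ (by positivity)]
      have : (0:ℝ) < ε := hε
      linarith)
  refine h2.trans (le_of_eq ?_)
  rw [ENNReal.coe_add]
  rfl

/-- The exceptional set: outside it `JJ` is finite for suitable exponents `α` arbitrarily close to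
`2/d`. -/
theorem dim_exc (d : ℕ) (hd : 3 ≤ d) (φ : E (d + 1) → ℝ)
    (hφ : ∀ x, ‖x‖ = 1 → ContDiffAt ℝ ∞ φ x) (r : ℝ) (hr1 : r < 1) :
    dimH {b : Fin (d + 1) → ℝ | ∃ ε : ℝ, 0 < ε ∧ ∀ α : ℝ, 2 / (d : ℝ) < α → α < 1 →
      α < 2 / (d : ℝ) + ε → JJ d r α (kap d α) (fun y => pb φ b (join y (hs y))) hs = ⊤} ≤
      ENNReal.ofReal (d + 2 / d) := by
  have hd0 : (3 : ℝ) ≤ d := by exact_mod_cast hd
  have h21 : 2 / (d : ℝ) < 1 := by
    rw [div_lt_one (by linarith)]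
    linarith
  refine ENNReal.le_of_forall_pos_le_add fun η hη _ => ?_
  have hη' : (0:ℝ) < η := hη
  -- exponents
  set a : ℕ → ℝ := fun j => 2 / (d : ℝ) + min (1 - 2 / (d : ℝ)) η / (j + 2) with ha
  have hmin : 0 < min (1 - 2 / (d : ℝ)) (η : ℝ) := lt_min (by linarith) hη'
  have ha1 : ∀ j, 2 / (d : ℝ) < a j := fun j => by
    simp only [ha]
    have : 0 < min (1 - 2 / (d : ℝ)) (η : ℝ) / ((j : ℝ) + 2) := by positivity
    linarith
  have ha2 : ∀ j, a j < 2 / (d : ℝ) + min (1 - 2 / (d : ℝ)) η := fun j => by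
    simp only [ha]
    have : min (1 - 2 / (d : ℝ)) (η : ℝ) / ((j : ℝ) + 2) < min (1 - 2 / (d : ℝ)) (η : ℝ) := by
      rw [div_lt_iff₀ (by positivity)]
      have : (0:ℝ) ≤ j := Nat.cast_nonneg j
      nlinarith
    linarith
  have ha3 : ∀ j, a j < 1 := fun j => by
    have h1 := ha2 j
    have h2 := min_le_left (1 - 2 / (d : ℝ)) (η : ℝ)
    linarith
  have ha4 : ∀ j, a j ≤ 2 / (d : ℝ) + η := fun j => by
    have h1 := ha2 j
    have h2 := min_le_right (1 - 2 / (d : ℝ)) (η : ℝ)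
    linarith
  have hsub : {b : Fin (d + 1) → ℝ | ∃ ε : ℝ, 0 < ε ∧ ∀ α : ℝ, 2 / (d : ℝ) < α → α < 1 →
      α < 2 / (d : ℝ) + ε → JJ d r α (kap d α) (fun y => pb φ b (join y (hs y))) hs = ⊤} ⊆
      ⋃ j : ℕ, {b : Fin (d + 1) → ℝ |
        JJ d r (a j) (kap d (a j)) (fun y => pb φ b (join y (hs y))) hs = ⊤} := by
    rintro b ⟨ε, hε, hb⟩
    obtain ⟨j, hj⟩ := exists_nat_gt (min (1 - 2 / (d : ℝ)) (η : ℝ) / ε)
    refine mem_iUnion.2 ⟨j, hb (a j) (ha1 j) (ha3 j) ?_⟩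
    simp only [ha]
    have : min (1 - 2 / (d : ℝ)) (η : ℝ) / ((j : ℝ) + 2) < ε := by
      rw [div_lt_iff₀ (by positivity)]
      rw [div_lt_iff₀ hε] at hj
      nlinarith
    linarith
  refine (dimH_mono hsub).trans ?_
  rw [dimH_iUnion]
  refine iSup_le fun j => (dim_J d hd φ hφ r (a j) hr1 (ha1 j) (ha3 j)).trans ?_
  rw [← ENNReal.ofReal_coe_nnreal, ← ENNReal.ofReal_add (by positivity) hη'.le]
  apply ENNReal.ofReal_le_ofReal
  linarith [ha4 j]

end Pool.Agent.GNP
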