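import Pool.Agent.GNP.CUT
import Pool.Agent.GNP.DK
import Pool.Agent.MP_6cbfb8_an.Slice

/-!
The set of `b` for which the sublevel estimate fails has dimension at most `n - 1`.
-/

namespace Pool.Agent.GNP

open MeasureTheory Set Metric Pool.Agent.MP_6cbfb8_an Pool.Agent.QPH
open scoped ENNReal NNReal Real RealInnerProductSpace ContDiff

/-- Negative powers of one coordinate on the sphere. -/
lemma ds_coord (d : ℕ) (hd : 2 ≤ d) {s : ℝ} (hs0 : 0 ≤ s) (hs : s < 1) :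
    ∃ C : ℝ≥0∞, C ≠ ⊤ ∧ ∀ t : ℝ, ∫⁻ w : S (d + 1),
      ENNReal.ofReal |(w : E (d + 1)) (Fin.last d) - t| ^ (-s) ∂(sm (d + 1)) ≤ C := by
  obtain ⟨j, rfl⟩ : ∃ j, d = j + 1 := ⟨d - 1, by omega⟩
  have hj : 1 ≤ j := by omega
  obtain ⟨C, hC, h1⟩ := W_one_kernel hs0 hs
  refine ⟨sm (j + 1) univ * (ENNReal.ofReal (Real.exp 1) * C),
    ENNReal.mul_ne_top (measure_ne_top _ _) (ENNReal.mul_ne_top ENNReal.ofReal_ne_top hC),
    fun t => ?_⟩
  have hm : Measurable fun x : E (j + 2) => ENNReal.ofReal |x (Fin.last (j + 1)) - t| ^ (-s) := by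
    fun_prop
  have hg : Measurable fun v : ℝ => ENNReal.ofReal |v - t| ^ (-s) := by fun_prop
  have himg : Real.cos '' Ioo 0 π ⊆ Icc (-1) 1 := by
    rintro _ ⟨θ, _, rfl⟩
    exact ⟨Real.neg_one_le_cos θ, Real.cos_le_one θ⟩
  have hcv := lintegral_image_eq_lintegral_abs_deriv_mul (s := Ioo 0 π) (f := Real.cos)
    (f' := fun θ => -Real.sin θ) measurableSet_Ioo
    (fun θ _ => (Real.hasDerivAt_cos θ).hasDerivWithinAt)
    (Real.injOn_cos.mono Ioo_subset_Icc_self) (fun v => ENNReal.ofReal |v - t| ^ (-s))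
  calc ∫⁻ w : S (j + 2), ENNReal.ofReal |(w : E (j + 2)) (Fin.last (j + 1)) - t| ^ (-s)
        ∂(sm (j + 2))
      = ∫⁻ θ in Ioo 0 π, ENNReal.ofReal (Real.sin θ ^ j) *
        (∫⁻ v : S (j + 1), ENNReal.ofReal |(pt θ (v : E (j + 1))) (Fin.last (j + 1)) - t| ^ (-s)
          ∂(sm (j + 1))) := lintegral_slice j _ hm
    _ ≤ ∫⁻ θ in Ioo 0 π, sm (j + 1) univ * (ENNReal.ofReal |-Real.sin θ| *
        ENNReal.ofReal |Real.cos θ - t| ^ (-s)) := by
        refine setLIntegral_mono' measurableSet_Ioo fun θ hθ => ?_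
        have hsin : 0 < Real.sin θ := Real.sin_pos_of_pos_of_lt_pi hθ.1 hθ.2
        have e1 : ∀ v : S (j + 1), (pt θ (v : E (j + 1))) (Fin.last (j + 1)) = Real.cos θ := by
          intro v
          unfold pt
          exact join_last _ _
        simp only [e1]
        rw [lintegral_const, mul_comm (ENNReal.ofReal |Real.cos θ - t| ^ (-s)), ← mul_assoc,
          mul_comm (ENNReal.ofReal (Real.sin θ ^ j)), mul_assoc]
        gcongr
        rw [abs_neg, abs_of_pos hsin]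
        calc Real.sin θ ^ j ≤ Real.sin θ ^ 1 :=
              pow_le_pow_of_le_one hsin.le (Real.sin_le_one θ) hj
          _ = Real.sin θ := pow_one _
    _ = sm (j + 1) univ * ∫⁻ v in Real.cos '' Ioo 0 π, ENNReal.ofReal |v - t| ^ (-s) := by
        rw [lintegral_const_mul' _ _ (measure_ne_top _ _), hcv]
    _ ≤ sm (j + 1) univ * ∫⁻ v, ENNReal.ofReal (Real.exp 1) *
        (ENNReal.ofReal (Real.exp (-1 * v ^ 2)) * ENNReal.ofReal |v - t| ^ (-s)) := by
        refine mul_le_mul' le_rfl ?_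
        refine le_trans (lintegral_mono_set himg) ?_
        refine le_trans (setLIntegral_mono' measurableSet_Icc fun v hv => ?_)
          (setLIntegral_le_lintegral _ _)
        rw [← mul_assoc, ← ENNReal.ofReal_mul (Real.exp_pos _).le, ← Real.exp_add]
        refine le_mul_of_one_le_left bot_le ?_
        rw [ENNReal.one_le_ofReal]
        refine Real.one_le_exp ?_
        have : v ^ 2 ≤ 1 := by
          rw [sq_le_one_iff_abs_le_one, abs_le]
          exact hv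
        linarith
    _ ≤ sm (j + 1) univ * (ENNReal.ofReal (Real.exp 1) * C) := by
        rw [lintegral_const_mul' _ _ ENNReal.ofReal_ne_top]
        gcongr
        exact h1 t

lemma ds_point {s : ℝ} (hs0 : 0 ≤ s) (a u : ℝ) : ENNReal.ofReal |a ^ 2 - u ^ 2| ^ (-s) ≤
    ENNReal.ofReal |u - 0| ^ (-s) *
      (ENNReal.ofReal |a - u| ^ (-s) + ENNReal.ofReal |a - (-u)| ^ (-s)) := by
  have e1 : |a ^ 2 - u ^ 2| = |a - u| * |a - (-u)| := by
    rw [← abs_mul]
    congr 1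
    ring
  have key : ∀ x y : ℝ, |u| ≤ |y| → ENNReal.ofReal (|x| * |y|) ^ (-s) ≤
      ENNReal.ofReal |u - 0| ^ (-s) * ENNReal.ofReal |x| ^ (-s) := by
    intro x y h
    rw [sub_zero, mul_comm (ENNReal.ofReal |u| ^ (-s)),
      ← ENNReal.mul_rpow_of_ne_top ENNReal.ofReal_ne_top ENNReal.ofReal_ne_top,
      ← ENNReal.ofReal_mul (abs_nonneg _)]
    exact W_rpow_anti hs0 (ENNReal.ofReal_le_ofReal
      (mul_le_mul_of_nonneg_left h (abs_nonneg _)))
  rw [e1, mul_add]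
  by_cases h : |u| ≤ |a - (-u)|
  · exact (key _ _ h).trans le_self_add
  · have h2 : |u| ≤ |a - u| := by
      push Not at h
      have h3 : |2 * u| ≤ |a - u| + |a - (-u)| := by
        have : 2 * u = (a - (-u)) - (a - u) := by ring
        rw [this]
        exact (abs_sub _ _).trans (le_of_eq (add_comm _ _))
      rw [abs_mul, abs_two] at h3
      linarith
    rw [mul_comm |a - u|]
    exact (key _ _ h2).trans le_add_self

lemma ds_pair (d : ℕ) (hd : 2 ≤ d) {s : ℝ} (hs0 : 0 ≤ s) (hs : s < 1) :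
    ∫⁻ z : S (d + 1) × S (d + 1), ENNReal.ofReal
      |(z.1 : E (d + 1)) (Fin.last d) ^ 2 - (z.2 : E (d + 1)) (Fin.last d) ^ 2| ^ (-s)
        ∂((sm (d + 1)).prod (sm (d + 1))) ≠ ⊤ := by
  obtain ⟨C, hC, h1⟩ := ds_coord d hd hs0 hs
  have hm : Measurable fun z : S (d + 1) × S (d + 1) => ENNReal.ofReal
      |(z.1 : E (d + 1)) (Fin.last d) ^ 2 - (z.2 : E (d + 1)) (Fin.last d) ^ 2| ^ (-s) := by fun_prop
  rw [lintegral_prod_symm' _ hm]
  refine ne_top_of_le_ne_top (b := C * (C + C)) (ENNReal.mul_ne_top hC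
    (ENNReal.add_ne_top.2 ⟨hC, hC⟩)) ?_
  calc _ ≤ ∫⁻ y : S (d + 1), ENNReal.ofReal |(y : E (d + 1)) (Fin.last d) - 0| ^ (-s) * (C + C)
        ∂(sm (d + 1)) := by
        refine lintegral_mono fun y => ?_
        refine le_trans (lintegral_mono fun x : S (d + 1) =>
          ds_point hs0 ((x : E (d + 1)) (Fin.last d)) ((y : E (d + 1)) (Fin.last d))) ?_
        rw [lintegral_const_mul _ (by fun_prop), lintegral_add_left (by fun_prop)]
        gcongr
        · exact h1 _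
        · exact h1 _
    _ ≤ C * (C + C) := by
        rw [lintegral_mul_const' _ _ (ENNReal.add_ne_top.2 ⟨hC, hC⟩)]
        gcongr
        exact h1 0

lemma ds_int {d : ℕ} (φ : E (d + 1) → ℝ) {s : ℝ} (hs0 : 0 < s) (C : ℝ≥0∞)
    (h1 : ∀ (A : ℝ) (a : Fin (d + 1) → ℝ) (J : Fin (d + 1)), a J ≠ 0 →
      ∫⁻ u : Fin (d + 1) → ℝ, ENNReal.ofReal (Real.exp (-1 * ∑ j, u j ^ 2))
        * ENNReal.ofReal |A + ∑ j, u j * a j| ^ (-s) ≤ C * ENNReal.ofReal |a J| ^ (-s))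
    (x y : E (d + 1)) :
    ∫⁻ b : Fin (d + 1) → ℝ, SUB_w b * ENNReal.ofReal |pb φ b x - pb φ b y| ^ (-s) ≤
      (C + 1) * ENNReal.ofReal |x (Fin.last d) ^ 2 - y (Fin.last d) ^ 2| ^ (-s) := by
  by_cases hz : x (Fin.last d) ^ 2 - y (Fin.last d) ^ 2 = 0
  · rw [hz, abs_zero, ENNReal.ofReal_zero, ENNReal.zero_rpow_of_neg (by linarith),
      ENNReal.mul_top (by simp)]
    exact le_top
  · have h2 := h1 (φ x - φ y) (fun j => x j ^ 2 - y j ^ 2) (Fin.last d) hz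
    refine le_trans (le_of_eq ?_) (h2.trans (mul_le_mul_left le_self_add _))
    refine lintegral_congr fun b => ?_
    have h3 : pb φ b x - pb φ b y = φ x - φ y + ∑ j, b j * (x j ^ 2 - y j ^ 2) := by
      unfold pb
      rw [show (∑ j, b j * (x j ^ 2 - y j ^ 2)) =
        (∑ j, b j * x j ^ 2) - ∑ j, b j * y j ^ 2 by
          rw [← Finset.sum_sub_distrib]
          exact Finset.sum_congr rfl fun j _ => by ring]
      ring
    rw [h3]
    rfl

/-- The Gaussian average of the energy is finite for every exponent below one. -/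
lemma ds_energy (d : ℕ) (hd : 2 ≤ d) (φ : E (d + 1) → ℝ) (hφ : Continuous φ) {s : ℝ}
    (hs0 : 0 < s) (hs : s < 1) :
    ∫⁻ b : Fin (d + 1) → ℝ, SUB_w b * SUB_Z s (pb φ b) ≠ ⊤ := by
  obtain ⟨C, hC, h1⟩ := SUB_affine d hs0.le hs
  have hC1 : C + 1 ≠ ⊤ := ENNReal.add_ne_top.2 ⟨hC, ENNReal.one_ne_top⟩
  have hGm : Measurable (Function.uncurry fun (b : Fin (d + 1) → ℝ) (z : S (d + 1) × S (d + 1)) =>
      SUB_w b * ENNReal.ofReal |pb φ b z.1 - pb φ b z.2| ^ (-s)) :=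
    (SUB_w_meas.comp measurable_fst).mul (SUB_meas φ hφ s)
  have e1 : ∀ b : Fin (d + 1) → ℝ, ∫⁻ z : S (d + 1) × S (d + 1),
      SUB_w b * ENNReal.ofReal |pb φ b z.1 - pb φ b z.2| ^ (-s)
        ∂((sm (d + 1)).prod (sm (d + 1))) = SUB_w b * SUB_Z s (pb φ b) := by
    intro b
    unfold SUB_Z
    rw [← lintegral_const_mul' _ _ (by unfold SUB_w; exact ENNReal.ofReal_ne_top)]
  simp_rw [← e1]
  rw [lintegral_lintegral_swap hGm.aemeasurable]
  refine ne_top_of_le_ne_top ?_ (lintegral_mono fun z => ds_int φ hs0 C h1 z.1 z.2)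
  rw [lintegral_const_mul' _ _ hC1]
  exact ENNReal.mul_ne_top hC1 (ds_pair d hd hs0.le hs)

/-- The measure of the pairs with close values. -/
noncomputable def ds_m {n : ℕ} (f : E n → ℝ) (δ : ℝ) : ℝ≥0∞ :=
  ∫⁻ z : S n × S n, ind δ (f z.1 - f z.2) ∂((sm n).prod (sm n))

lemma ds_m_ne_top {n : ℕ} (f : E n → ℝ) (δ : ℝ) : ds_m f δ ≠ ⊤ := by
  refine ne_top_of_le_ne_top (b := ((sm n).prod (sm n)) univ) (measure_ne_top _ _) ?_
  unfold ds_m
  calc _ ≤ ∫⁻ _ : S n × S n, (1 : ℝ≥0∞) ∂((sm n).prod (sm n)) :=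
        lintegral_mono fun z => ind_le_one _ _
    _ = _ := by rw [lintegral_one]

lemma ds_markov {n : ℕ} (f : E n → ℝ) {s δ : ℝ} (hs : 0 ≤ s) (hδ : 0 < δ) :
    ds_m f δ ≤ ENNReal.ofReal (δ ^ s) * SUB_Z s f := by
  unfold ds_m SUB_Z
  rw [← lintegral_const_mul' _ _ ENNReal.ofReal_ne_top]
  refine lintegral_mono fun z => ?_
  have h := ind_le (x := f z.1 - f z.2) hδ hs
  rwa [Real.enorm_eq_ofReal_abs] at h

/-- The integral of `ds_m` over a cube. -/
lemma ds_cube (d : ℕ) (hd : 2 ≤ d) (φ : E (d + 1) → ℝ) (hφ : Continuous φ) {s : ℝ}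
    (hs0 : 0 < s) (hs : s < 1) (K : ℝ) : ∃ C : ℝ, 0 ≤ C ∧ ∀ δ : ℝ, 0 < δ →
      ∫⁻ b in cb (d + 1) K, ds_m (pb φ b) δ ≤ ENNReal.ofReal (C * δ ^ s) := by
  have hI := ds_energy d hd φ hφ hs0 hs
  set I := ∫⁻ b : Fin (d + 1) → ℝ, SUB_w b * SUB_Z s (pb φ b) with hIdef
  refine ⟨Real.exp ((d + 1 : ℕ) * K ^ 2) * I.toReal, by positivity, fun δ hδ => ?_⟩
  have hms : MeasurableSet (cb (d + 1) K) := by
    have : cb (d + 1) K = ⋂ i, {l : Fin (d + 1) → ℝ | |l i| ≤ K} := by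
      ext l
      simp [cb]
    rw [this]
    exact MeasurableSet.iInter fun i => measurableSet_le (by fun_prop) measurable_const
  calc ∫⁻ b in cb (d + 1) K, ds_m (pb φ b) δ
      ≤ ∫⁻ b in cb (d + 1) K, (ENNReal.ofReal (Real.exp ((d + 1 : ℕ) * K ^ 2)) *
          ENNReal.ofReal (δ ^ s)) * (SUB_w b * SUB_Z s (pb φ b)) := by
        refine setLIntegral_mono' hms fun b hb => ?_
        refine (ds_markov (pb φ b) hs0.le hδ).trans ?_
        have h1 : (1 : ℝ≥0∞) ≤ ENNReal.ofReal (Real.exp ((d + 1 : ℕ) * K ^ 2)) * SUB_w b := by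
          unfold SUB_w
          rw [← ENNReal.ofReal_mul (Real.exp_pos _).le, ← Real.exp_add, ENNReal.one_le_ofReal]
          refine Real.one_le_exp ?_
          have h2 : ∑ j, b j ^ 2 ≤ ∑ _j : Fin (d + 1), K ^ 2 := by
            refine Finset.sum_le_sum fun j _ => ?_
            rw [← sq_abs]
            exact pow_le_pow_left₀ (abs_nonneg _) (hb j) 2
          rw [Finset.sum_const, Finset.card_univ, Fintype.card_fin, nsmul_eq_mul] at h2
          linarith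
        calc ENNReal.ofReal (δ ^ s) * SUB_Z s (pb φ b)
            = 1 * (ENNReal.ofReal (δ ^ s) * SUB_Z s (pb φ b)) := by rw [one_mul]
          _ ≤ (ENNReal.ofReal (Real.exp ((d + 1 : ℕ) * K ^ 2)) * SUB_w b) *
              (ENNReal.ofReal (δ ^ s) * SUB_Z s (pb φ b)) := by gcongr
          _ = _ := by ring
    _ ≤ (ENNReal.ofReal (Real.exp ((d + 1 : ℕ) * K ^ 2)) * ENNReal.ofReal (δ ^ s)) * I := by
        rw [lintegral_const_mul' _ _ (ENNReal.mul_ne_top ENNReal.ofReal_ne_top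
          ENNReal.ofReal_ne_top)]
        gcongr
        exact setLIntegral_le_lintegral _ _
    _ = ENNReal.ofReal (Real.exp ((d + 1 : ℕ) * K ^ 2) * I.toReal * δ ^ s) := by
        rw [ENNReal.ofReal_mul (by positivity), ENNReal.ofReal_mul (by positivity),
          ENNReal.ofReal_toReal hI]
        ring

/-- Stability. -/
lemma ds_stab {n : ℕ} (φ : E n → ℝ) {b b' : Fin n → ℝ} {ε δ : ℝ}
    (h : ∀ j, |b j - b' j| ≤ ε) : ds_m (pb φ b) δ ≤ ds_m (pb φ b') (δ + 2 * ε) := by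
  unfold ds_m
  refine lintegral_mono fun z => ind_mono fun h1 => ?_
  have h2 : ∀ x : S n, |∑ j, (b j - b' j) * (x : E n) j ^ 2| ≤ ε := by
    intro x
    refine (Finset.abs_sum_le_sum_abs _ _).trans ?_
    calc ∑ j, |(b j - b' j) * (x : E n) j ^ 2| ≤ ∑ j, ε * (x : E n) j ^ 2 := by
          refine Finset.sum_le_sum fun j _ => ?_
          rw [abs_mul, abs_of_nonneg (sq_nonneg ((x : E n) j))]
          exact mul_le_mul_of_nonneg_right (h j) (sq_nonneg _)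
      _ = ε := by rw [← Finset.mul_sum, SUB_sum_sq x, mul_one]
  have h3 : pb φ b' z.1 - pb φ b' z.2 = (pb φ b z.1 - pb φ b z.2) -
      (∑ j, (b j - b' j) * (z.1 : E n) j ^ 2) + ∑ j, (b j - b' j) * (z.2 : E n) j ^ 2 := by
    unfold pb
    simp only [sub_mul, Finset.sum_sub_distrib]
    ring
  rw [h3]
  have h4 := h2 z.1
  have h5 := h2 z.2
  rw [abs_le] at h1 h4 h5 ⊢
  constructor <;> linarith

/-- Finite energy from the decay of `ds_m`. -/
lemma ds_fin {n : ℕ} (f : E n → ℝ) (hf : Continuous f) {α α' : ℝ} (hα : 0 < α) (hαα : α < α')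
    (k0 : ℕ) (h : ∀ k, k0 ≤ k → ds_m f (1 / 2 ^ k) ≤ ENNReal.ofReal (((2:ℝ) ^ k) ^ (-α'))) :
    SUB_Z α f ≠ ⊤ := by
  have hfm : Measurable fun z : S n × S n => f z.1 - f z.2 := by fun_prop
  have key : SUB_Z α f ≤ ((sm n).prod (sm n)) univ +
      ∑' k : ℕ, ENNReal.ofReal (((2:ℝ) ^ (k + 1)) ^ α) * ds_m f (1 / 2 ^ k) := by
    unfold SUB_Z
    calc _ ≤ ∫⁻ z : S n × S n, (1 + ∑' k : ℕ, ENNReal.ofReal (((2:ℝ) ^ (k + 1)) ^ α) *
            ind (1 / 2 ^ k) (f z.1 - f z.2)) ∂((sm n).prod (sm n)) := by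
          refine lintegral_mono fun z => ?_
          have h1 := shells (x := f z.1 - f z.2) hα
          rwa [Real.enorm_eq_ofReal_abs] at h1
      _ = _ := by
          have hk : ∀ k : ℕ, AEMeasurable (fun z : S n × S n =>
              ENNReal.ofReal (((2:ℝ) ^ (k + 1)) ^ α) * ind (1 / 2 ^ k) (f z.1 - f z.2))
              ((sm n).prod (sm n)) := fun k =>
            (((measurable_ind _).comp hfm).const_mul _).aemeasurable
          rw [lintegral_add_left measurable_const, lintegral_one, lintegral_tsum hk]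
          congr 1
          refine tsum_congr fun k => ?_
          rw [lintegral_const_mul' _ _ ENNReal.ofReal_ne_top]
          rfl
  refine ne_top_of_le_ne_top (ENNReal.add_ne_top.2 ⟨measure_ne_top _ _, ?_⟩) key
  exact dk_tsum hαα _ (fun k => ds_m_ne_top _ _) k0 h

/-- The dimension of the set of `b` in a cube for which the energy is infinite. -/
lemma ds_dim_cube (d : ℕ) (hd : 2 ≤ d) (φ : E (d + 1) → ℝ) (hφ : Continuous φ) (M : ℝ)
    (D : ℝ≥0) (hD : (d : ℝ) < D) : ∃ s : ℝ, 0 < s ∧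
    dimH {b : Fin (d + 1) → ℝ | b ∈ cb (d + 1) M ∧ SUB_Z s (pb φ b) = ⊤} ≤ D := by
  obtain ⟨ε, hε, hε1, hε2⟩ : ∃ ε : ℝ, 0 < ε ∧ ε < 1 ∧ (d : ℝ) + 2 * ε < D := by
    refine ⟨min (1 / 2) ((D - d) / 3), lt_min (by norm_num) (by linarith), ?_, ?_⟩
    · exact lt_of_le_of_lt (min_le_left _ _) (by norm_num)
    · have := min_le_right (1 / 2 : ℝ) ((D - d) / 3)
      linarith
  obtain ⟨C, hC0, hC⟩ := ds_cube d hd φ hφ (s := 1 - ε) (by linarith) (by linarith) (M + 1)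
  refine ⟨ε / 2, by linarith, ?_⟩
  set bad : ℕ → Set (Fin (d + 1) → ℝ) := fun k =>
    {b | ENNReal.ofReal (((2:ℝ) ^ k) ^ (-ε)) ≤ ds_m (pb φ b) (1 / 2 ^ k)} with hbad
  have hcov := pi_cover (d + 1) M D (fun k b => ds_m (pb φ b) ((2 + 1) * (1 / 2 ^ k)))
    (fun k => ((2:ℝ) ^ k) ^ (-ε))
    (fun k => C * ((2 + 1) * (1 / 2 ^ k)) ^ (1 - ε)) (fun k => by positivity)
    (fun k => by positivity) (fun k => hC _ (by positivity))
    (dk_sum (d + 1) two_pos (by push_cast; linarith)) bad ?_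
  · refine le_trans (dimH_mono ?_) hcov
    rintro b ⟨hb, hJ⟩
    refine ⟨hb, ?_⟩
    by_contra hcon
    rw [Filter.not_frequently, Filter.eventually_atTop] at hcon
    obtain ⟨k0, hk0⟩ := hcon
    refine ds_fin (pb φ b) ?_ (α' := ε) (by linarith) (by linarith) k0
      (fun k hk => (not_le.1 (hk0 k hk)).le) hJ
    unfold pb
    fun_prop
  · intro k l hl _ l' hll
    refine le_trans hl ((ds_stab φ hll).trans (le_of_eq ?_))
    congr 1
    ring

/-- The sublevel estimate fails on a set of dimension at most `n - 1`. -/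
theorem dim_sub (d : ℕ) (hd : 2 ≤ d) (φ : E (d + 1) → ℝ) (hφ : Continuous φ) :
    dimH {b : Fin (d + 1) → ℝ | ¬ ∃ K κ : ℝ, 0 ≤ K ∧ 0 < κ ∧ ∀ c : Fin 2 → ℝ, ‖c‖ = 1 →
      ∀ δ : ℝ, 0 ≤ δ → sm (d + 1) {x : S (d + 1) | |VAN.fam ![fun _ => 1, pb φ b] c x| ≤ δ} ≤
        ENNReal.ofReal (K * δ ^ κ)} ≤ d := by
  refine ENNReal.le_of_forall_pos_le_add fun ε hε _ => ?_
  have h1 : {b : Fin (d + 1) → ℝ | ¬ ∃ K κ : ℝ, 0 ≤ K ∧ 0 < κ ∧ ∀ c : Fin 2 → ℝ, ‖c‖ = 1 →
      ∀ δ : ℝ, 0 ≤ δ → sm (d + 1) {x : S (d + 1) | |VAN.fam ![fun _ => 1, pb φ b] c x| ≤ δ} ≤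
        ENNReal.ofReal (K * δ ^ κ)} ⊆
      ⋃ M : ℕ, {b : Fin (d + 1) → ℝ | b ∈ cb (d + 1) M ∧ ∀ s : ℝ, 0 < s →
        SUB_Z s (pb φ b) = ⊤} := by
    intro b hb
    obtain ⟨M, hM⟩ := exists_nat_ge (∑ j, |b j|)
    refine mem_iUnion.2 ⟨M, fun j => ?_, fun s hs => ?_⟩
    · exact (Finset.single_le_sum (f := fun j => |b j|) (fun j _ => abs_nonneg _)
        (Finset.mem_univ j)).trans hM
    · by_contra h2
      refine hb (sublevel_family (pb φ b) ?_ hs h2)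
      unfold pb
      fun_prop
  refine (dimH_mono h1).trans ?_
  rw [dimH_iUnion]
  refine iSup_le fun M => ?_
  have hε' : (0:ℝ) < ε := hε
  obtain ⟨s, hs, h2⟩ := ds_dim_cube d hd φ hφ M ((d : ℝ≥0) + ε) (by
    rw [NNReal.coe_add, NNReal.coe_natCast]
    linarith)
  refine le_trans (dimH_mono (t := {b : Fin (d + 1) → ℝ | b ∈ cb (d + 1) M ∧
    SUB_Z s (pb φ b) = ⊤}) fun b hb => ⟨hb.1, hb.2 s hs⟩) (h2.trans (le_of_eq ?_))
  rw [ENNReal.coe_add, ENNReal.coe_natCast]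

end Pool.Agent.GNP
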