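import Pool.Agent.MST.CH

/-!
Almost every phase, in all dimensions: definitions for the chart version.
-/

namespace Pool.Agent.GNP

open MeasureTheory Set Pool.Agent.MP_6cbfb8_an
open scoped ENNReal Real RealInnerProductSpace ContDiff

/-- The lattice point with coordinates `k`. -/
noncomputable def lp {d : ℕ} (k : Fin d → ℤ) : E d := WithLp.toLp 2 fun i => (k i : ℝ)

/-- A smooth function of one variable, zero for `1 ≤ |x|`, whose integer translates add up to one. -/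
noncomputable def th (x : ℝ) : ℝ := Real.smoothTransition (x + 1) - Real.smoothTransition x

/-- The product of the functions `th` of the coordinates. -/
noncomputable def ch {d : ℕ} (z : E d) : ℝ := ∏ i, th (z i)

/-- The phase `c Φ - s h`. -/
noncomputable def ph {d : ℕ} (Φ h : E d → ℝ) (c s : ℝ) (y : E d) : ℝ := c * Φ y - s * h y

/-- The gradient. -/
noncomputable def gr {d : ℕ} (q : E d → ℝ) (y : E d) : E d :=
  (InnerProductSpace.toDual ℝ (E d)).symm (fderiv ℝ q y)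

/-- The Hessian, as an operator. -/
noncomputable def Hs {d : ℕ} (q : E d → ℝ) (y : E d) : E d →L[ℝ] E d := fderiv ℝ (gr q) y

/-- The oscillatory integral with amplitude `a` and phase `q`. -/
noncomputable def uu {d : ℕ} (a : E d → ℂ) (q : E d → ℝ) (x : E d) : ℂ :=
  ∫ y, a y * Complex.exp (((q y - ⟪x, y⟫ : ℝ) : ℂ) * Complex.I)

/-- The part of the integral near the lattice point `k / R`. -/
noncomputable def uk {d : ℕ} (a : E d → ℂ) (q : E d → ℝ) (R : ℝ) (k : Fin d → ℤ) (x : E d) : ℂ :=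
  uu (fun y => (ch (R • y - lp k) : ℂ) * a y) q x

/-- The lattice points `k` with `|k| ≤ ρ R`. -/
noncomputable def Lam (d : ℕ) (ρ R : ℝ) : Finset (Fin d → ℤ) :=
  (Fintype.piFinset fun _ => Finset.Icc (-⌈ρ * R⌉) ⌈ρ * R⌉).filter fun k => ‖lp k‖ ≤ ρ * R

/-- The lattice points `k` of `F` with `|x - ∇q(k/R)| ≤ R`. -/
noncomputable def near {d : ℕ} (q : E d → ℝ) (R : ℝ) (F : Finset (Fin d → ℤ)) (x : E d) :
    Finset (Fin d → ℤ) :=
  F.filter fun k => ‖x - gr q (R⁻¹ • lp k)‖ ≤ R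

/-- Smooth functions with all derivatives bounded: `A j` for the order `j`. -/
structure Sm (d : ℕ) (A : ℕ → ℝ) (f : E d → ℝ) : Prop where
  sm : ContDiff ℝ ∞ f
  bd : ∀ j y, ‖iteratedFDeriv ℝ j f y‖ ≤ A j

/-- Amplitudes: smooth, zero outside the ball of radius `r`, with derivatives bounded by `A j`. -/
structure Amp (d : ℕ) (A : ℕ → ℝ) (r : ℝ) (a : E d → ℂ) : Prop where
  sm : ContDiff ℝ ∞ a
  supp : ∀ y, r < ‖y‖ → a y = 0
  bd : ∀ j y, ‖iteratedFDeriv ℝ j a y‖ ≤ A j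

/-- Phases: smooth, the derivatives of order `j ≥ 2` are at most `A j * R ^ 2`. -/
structure Phq (d : ℕ) (A : ℕ → ℝ) (R : ℝ) (q : E d → ℝ) : Prop where
  sm : ContDiff ℝ ∞ q
  bd : ∀ j, 2 ≤ j → ∀ y, ‖iteratedFDeriv ℝ j q y‖ ≤ A j * R ^ 2

/-- Symmetric operators. -/
def Sy {d : ℕ} (A : E d →L[ℝ] E d) : Prop := ∀ v w, ⟪A v, w⟫ = ⟪v, A w⟫

/-- A polynomial as a function. -/
noncomputable def pe {d : ℕ} (P : MvPolynomial (Fin d) ℝ) (y : E d) : ℝ :=
  MvPolynomial.eval (fun i => y i) P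

/-- The diagonal operator. -/
noncomputable def dg {d : ℕ} (t : Fin d → ℝ) : E d →L[ℝ] E d :=
  Matrix.toEuclideanCLM (n := Fin d) (𝕜 := ℝ) (Matrix.diagonal t)

/-- The integral of `(1+|σ|)^κ |det(D²Φ - σ D²h)|^(-α)` over `σ ∈ ℝ` and the ball of radius `r`. -/
noncomputable def JJ (d : ℕ) (r α κ : ℝ) (Φ h : E d → ℝ) : ℝ≥0∞ :=
  ∫⁻ σ : ℝ, ∫⁻ y in Metric.closedBall (0 : E d) r,
    ENNReal.ofReal ((1 + |σ|) ^ κ) * ‖(Hs Φ y - σ • Hs h y).det‖ₑ ^ (-α)

/-- The exponent used in `JJ`. -/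
noncomputable def kap (d : ℕ) (α : ℝ) : ℝ := (3 * d * α - 2) / 4

/-- The height of the upper half sphere. -/
noncomputable def hs {d : ℕ} (y : E d) : ℝ := √(1 - ‖y‖ ^ 2)

/-- The phase `φ + ∑ b_j x_j²`. -/
noncomputable def pb {n : ℕ} (φ : E n → ℝ) (b : Fin n → ℝ) (x : E n) : ℝ :=
  φ x + ∑ j, b j * x j ^ 2

end Pool.Agent.GNP
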