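import Pool.Agent.GNP.Defs3
import Pool.Agent.GNP.Defs6
import Pool.Agent.GNP.GEOT

/-!
Every smooth phase, all dimensions, amplitudes with an `L²`-modulus of continuity: definitions.
-/

namespace Pool.Agent.GNP

open MeasureTheory Set Pool.Agent.MP_6cbfb8_an
open scoped ENNReal Real RealInnerProductSpace ContDiff

/-- `a` has `L²`-modulus of continuity of order `s/2` in `R^d`, in the mean over pairs of points. -/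
def BE2 (d : ℕ) (s V : ℝ) (a : E d → ℂ) : Prop :=
  ∀ r : ℝ, 0 < r →
    ∫⁻ x : E d, (∫⁻ y in Metric.closedBall x r, ‖a x - a y‖ₑ ^ 2) ≤
      ENNReal.ofReal (V * r ^ ((d : ℝ) + s))

/-- `a` has `L²`-modulus of continuity of order `s/2` on the unit sphere of `R^n`, in the mean over
pairs of points. -/
def BN2 (n : ℕ) (s V : ℝ) (a : E n → ℂ) : Prop :=
  ∀ r : ℝ, 0 < r →
    ∫⁻ x : S n, (∫⁻ y in Metric.closedBall x r, ‖a x - a y‖ₑ ^ 2 ∂(sm n)) ∂(sm n) ≤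
      ENNReal.ofReal (V * r ^ ((n : ℝ) - 1 + s))

/-- The values of the terminal chains of the top step. -/
def WtT {m : ℕ} (K : ℝ) (J : ℕ) (ρ : ℝ) (q : E m → ℝ) (y : E m) (w : ℝ) : Prop :=
  ∃ r : ℝ, Lv K J ρ q y r ∧ ‖Hs q y‖ * r ^ 2 ≤ K ^ 2 ∧ w ≤ 1 ∧ w * (r ^ m * |(Hs q y).det|) ≤ 1

/-- The values of the active chains of the top step. -/
def WtA (A : ℕ → ℕ → ℝ) (K : ℝ) (J m : ℕ) (ρ : ℝ) (q : E (m + 1) → ℝ) (y : E (m + 1))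
    (w : ℝ) : Prop :=
  ∃ r : ℝ, Lv K J ρ q y r ∧ WtE A K J m r q y w

/-- What a terminal chain with the value `w` at `(s, y)` gives: `μ` are the roots at `y`. -/
def TTr {d : ℕ} (C n : ℕ) (K : ℝ) (μ : Fin d → ℝ) (Un : ℝ → Prop) (s w : ℝ) : Prop :=
  ∃ r : ℝ, 1 ≤ K ^ n * r ∧ r ≤ 1 ∧ w ≤ 1 ∧ w * ∏ i, (r * |s - μ i|) ≤ K ^ C ∧ Un r

/-- The scales which count: comparable to `ρ`, or unstable. -/
def Sc {d : ℕ} (C : ℕ) (K ρ : ℝ) (X : ℕ → Set (E d)) (y : E d) (r : ℝ) : Prop :=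
  ρ ≤ K ^ C * r ∨ ∀ j : ℕ, r ≤ 2 * ((2 : ℝ) ^ j)⁻¹ → y ∈ X j

/-- The statement about one amplitude at the scale `1/R` supported in a set of measure `v`. -/
def CellHS (d : ℕ) (p : ℝ) : Prop := ∃ C : ℕ,
    ∀ (A B : ℕ → ℝ) (b r : ℝ) (D n0 : ℕ), 0 < b → 0 < r → ∃ K0 : ℝ, 1 ≤ K0 ∧ ∀ K, K0 ≤ K →
    ∀ (Φ h : E d → ℝ) (P P' : MvPolynomial (Fin d) ℝ) (z : E d) (c R v : ℝ) (S : Set (E d)),
      Sm d A Φ → Sm d A h → P.totalDegree ≤ D → P'.totalDegree ≤ D →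
      (∀ y, ‖y - z‖ ≤ 2 * r → Φ y = pe P y ∧ h y = pe P' y) → DfB b z (2 * r) h → ‖z‖ ≤ n0 →
      1 + |c| ≤ K ^ n0 → 1 ≤ R → R ≤ K ^ n0 → MeasurableSet S → S ⊆ Metric.closedBall z r →
      0 ≤ v → v ≤ K → volume S ≤ ENNReal.ofReal v → ∃ H : ℝ → ℝ≥0∞, Measurable H ∧
      (∫⁻ s in {s : ℝ | |s| ≤ K ^ n0}, H s) ≤
        ENNReal.ofReal (K ^ C * (1 + R * v ^ (p / 2) + R ^ (1 - 1 / (d : ℝ)) * v)) ∧
      ∀ s, |s| ≤ K ^ n0 → ∀ a : E d → ℂ, ContDiff ℝ ∞ a →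
        (∀ j y, ‖iteratedFDeriv ℝ j a y‖ ≤ B j * R ^ j) →
        (∀ y, a y ≠ 0 → Metric.closedBall y (2 / R) ⊆ S) →
        ∫⁻ x, ‖uu a (ph Φ h c s) x‖ₑ ^ p ≤ H s

end Pool.Agent.GNP
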