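import Pool.Agent.GNP.KR
import Pool.Agent.GNP.CoreBig
import Pool.Agent.GNP.DD
import Mathlib.Analysis.SpecialFunctions.JapaneseBracket

/-!
ROW FAR: the slices in which the Hessian is definite.
-/

namespace Pool.Agent.GNP

open MeasureTheory Set Pool.Agent.MP_6cbfb8_an
open scoped ENNReal Real RealInnerProductSpace ContDiff

/-- FAR. -/
theorem far_lev (d : ℕ) (hd : 1 ≤ d) (A : ℕ → ℝ) (r r' b p : ℝ) (hr : 0 < r) (hr' : r < r')
    (hb : 0 < b) (hp : 2 * ((d : ℝ) + 1) / d < p) : ∃ K τ C1 : ℝ, 0 < K ∧ 0 < τ ∧ 0 < C1 ∧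
    ∀ (f : E d → ℂ) (Φ h : E d → ℝ) (c P : ℝ), 1 ≤ P → 1 + |c| ≤ P ^ 2 → Sm d A Φ → Sm d A h →
    AmpR d A r P f → (∀ y, ‖y‖ ≤ r' → ∀ v, ⟪Hs h y v, v⟫ ≤ -(b * ‖v‖ ^ 2)) →
    ∫⁻ t in {t : ℝ | C1 * P ^ 2 < |t|}, ∫⁻ x, ‖uu f (ph Φ h c t) x‖ₑ ^ p ≤
      ENNReal.ofReal (K * P ^ (-τ)) := by
  have hd0 : (0 : ℝ) < d := by exact_mod_cast hd
  set α : ℝ := p - 2 with hα
  have hda : 2 < (d : ℝ) * α := by
    rw [div_lt_iff₀ hd0] at hp
    rw [hα]
    nlinarith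
  have hα0 : 0 < α := by
    by_contra hcon
    nlinarith
  set ε : ℝ := (d * α - 2) / 2 with hε
  have hεp : 0 < ε := by rw [hε]; linarith
  obtain ⟨K, hK, key⟩ := keyR d hd A r r' p ε α hr hr' (by linarith) hεp hα0.le le_rfl
  -- exponents: `(dα - ε)/2 = σ1 > σ2 > 1`
  set σ1 : ℝ := (d * α + 2) / 4 with hσ1
  set σ2 : ℝ := (1 + σ1) / 2 with hσ2
  have hσ1' : 1 < σ1 := by rw [hσ1]; linarith
  have hσ2' : 1 < σ2 := by rw [hσ2]; linarith
  have hσ12 : σ2 < σ1 := by rw [hσ2]; linarith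
  set C1 : ℝ := max 1 (2 * |A 2| / b) with hC1
  have hC11 : 1 ≤ C1 := le_max_left _ _
  set c1 : ℝ := b / (2 * √2) with hc1
  have hc1p : 0 < c1 := by positivity
  set V : ℝ≥0∞ := volume (Metric.closedBall (0 : E d) r') with hV
  have hVt : V ≠ ⊤ := measure_closedBall_lt_top.ne
  set I : ℝ≥0∞ := ∫⁻ t : ℝ, ENNReal.ofReal ((1 + ‖t‖) ^ (-σ2)) with hI
  have hIt : I ≠ ⊤ := by
    refine (finite_integral_one_add_norm ?_).ne
    rw [Module.finrank_self]; push_cast; linarith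
  set C2 : ℝ := K * √2 ^ ε * c1 ^ (-((d : ℝ) * α)) with hC2
  have hC2p : 0 < C2 := by positivity
  set K' : ℝ := C2 * 2 ^ σ2 * (V * I).toReal + 1 with hK'
  have hVI : 0 ≤ (V * I).toReal := ENNReal.toReal_nonneg
  refine ⟨K', 2 * (σ1 - σ2), C1, by positivity, by linarith, by linarith, ?_⟩
  intro f Φ h c P hP hcP hΦ hh hf hdef
  have hP0 : 0 < P := by linarith
  have hA2 : 0 ≤ A 2 := (norm_nonneg _).trans (hΦ.bd 2 0)
  have hT1 : 1 ≤ P ^ 2 := one_le_pow₀ hP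
  -- one slice
  have hslice : ∀ t : ℝ, C1 * P ^ 2 < |t| → ∫⁻ x, ‖uu f (ph Φ h c t) x‖ₑ ^ p ≤
      ENNReal.ofReal (C2 * 2 ^ σ2 * P ^ (-(2 * (σ1 - σ2)))) * V *
        ENNReal.ofReal ((1 + ‖t‖) ^ (-σ2)) := by
    intro t ht
    have ht2 : P ^ 2 < |t| := lt_of_le_of_lt (le_mul_of_one_le_left (by positivity) hC11) ht
    have ht1 : 1 < |t| := by linarith
    have hX1 : 1 ≤ 1 + |c| + |t| := by have := abs_nonneg c; linarith
    have hR1 : 1 ≤ √(1 + |c| + |t|) := by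
      rw [show (1 : ℝ) = √1 by simp]
      exact Real.sqrt_le_sqrt (by simpa using hX1)
    have hR0 : 0 < √(1 + |c| + |t|) := by linarith
    have hPR : P ≤ √(1 + |c| + |t|) := by
      refine Real.le_sqrt_of_sq_le ?_
      have := abs_nonneg c
      linarith
    have hRt : √(1 + |c| + |t|) ≤ √2 * √|t| := by
      rw [← Real.sqrt_mul (by norm_num)]
      exact Real.sqrt_le_sqrt (by linarith)
    have hY0 : 0 < √|t| := by positivity
    have h1 := key f (ph Φ h c t) (√(1 + |c| + |t|)) hR1 (hf.mono hP0 hPR) (core_phq hΦ hh c t)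
    refine h1.trans ?_
    have hlow : ∀ y : E d, ‖y‖ ≤ r' →
        (c1 * √|t|) ^ d ≤ 1 + |(Hs (ph Φ h c t) y).det| / √(1 + |c| + |t|) ^ d := by
      intro y hy
      have h2 : (b * |t| / 2) ^ d ≤ |(Hs (ph Φ h c t) y).det| := by
        have h3 := det_def d (c • Hs Φ y) (-(Hs h y)) b (|c| * A 2) t hb ?_ ?_ ?_
        · rwa [smul_neg, ← sub_eq_add_neg, ← Hs_ph hΦ.sm hh.sm] at h3
        · rw [norm_smul, Real.norm_eq_abs]
          exact mul_le_mul_of_nonneg_left ((norm_Hs_le hΦ.sm y).trans (hΦ.bd 2 y)) (abs_nonneg c)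
        · intro v
          have h4 := hdef y hy v
          have h5 : ⟪(-(Hs h y)) v, v⟫ = -⟪Hs h y v, v⟫ := by
            rw [_root_.neg_apply, inner_neg_left]
          rw [h5]; linarith
        · have h6 : 2 * |A 2| / b ≤ C1 := le_max_right _ _
          rw [abs_of_nonneg hA2] at h6
          have h7 : |c| ≤ P ^ 2 := by linarith
          calc 2 * (|c| * A 2) / b = |c| * (2 * A 2 / b) := by ring
            _ ≤ P ^ 2 * C1 := by gcongr
            _ = C1 * P ^ 2 := mul_comm _ _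
            _ ≤ |t| := ht.le
      have h6 : c1 * √|t| ≤ b * |t| / 2 / √(1 + |c| + |t|) := by
        rw [le_div_iff₀ hR0]
        have h8 : √|t| * √|t| = |t| := Real.mul_self_sqrt (abs_nonneg t)
        have h10 : 0 < √2 := by positivity
        calc c1 * √|t| * √(1 + |c| + |t|) ≤ c1 * √|t| * (√2 * √|t|) := by gcongr
          _ = b / 2 * (√|t| * √|t|) := by rw [hc1]; field_simp
          _ = b * |t| / 2 := by rw [h8]; ring
      calc (c1 * √|t|) ^ d ≤ (b * |t| / 2 / √(1 + |c| + |t|)) ^ d :=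
            pow_le_pow_left₀ (by positivity) h6 d
        _ = (b * |t| / 2) ^ d / √(1 + |c| + |t|) ^ d := by rw [div_pow]
        _ ≤ |(Hs (ph Φ h c t) y).det| / √(1 + |c| + |t|) ^ d := by gcongr
        _ ≤ 1 + |(Hs (ph Φ h c t) y).det| / √(1 + |c| + |t|) ^ d := by linarith
    have h2 : ∫⁻ y in Metric.closedBall (0 : E d) r',
        ENNReal.ofReal ((1 + |(Hs (ph Φ h c t) y).det| / √(1 + |c| + |t|) ^ d) ^ (-α)) ≤
        ENNReal.ofReal ((c1 * √|t|) ^ (-((d : ℝ) * α))) * V := by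
      rw [hV, ← setLIntegral_const]
      refine setLIntegral_mono measurable_const ?_
      intro y hy
      refine ENNReal.ofReal_le_ofReal ?_
      have h3 := hlow y (by simpa using hy)
      have h4 : 0 < (c1 * √|t|) ^ d := by positivity
      refine (Real.rpow_le_rpow_of_nonpos h4 h3 (by linarith)).trans (le_of_eq ?_)
      rw [← Real.rpow_natCast, ← Real.rpow_mul (by positivity)]
      congr 1; ring
    refine (mul_le_mul_right h2 _).trans ?_
    rw [← mul_assoc, ← ENNReal.ofReal_mul (by positivity),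
      mul_right_comm (ENNReal.ofReal _) V (ENNReal.ofReal _), ← ENNReal.ofReal_mul (by positivity)]
    refine mul_le_mul_left (ENNReal.ofReal_le_ofReal ?_) _
    have h6 : √(1 + |c| + |t|) ^ ε ≤ √2 ^ ε * √|t| ^ ε := by
      rw [← Real.mul_rpow (by positivity) (by positivity)]
      exact Real.rpow_le_rpow hR0.le hRt hεp.le
    have h7 : √|t| ^ ε * √|t| ^ (-((d : ℝ) * α)) = |t| ^ (-σ1) := by
      rw [← Real.rpow_add hY0, Real.sqrt_eq_rpow, ← Real.rpow_mul (by positivity)]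
      congr 1
      rw [hε, hσ1]; ring
    have h8 : |t| ^ (-σ1) ≤ P ^ (-(2 * (σ1 - σ2))) * (2 ^ σ2 * (1 + |t|) ^ (-σ2)) := by
      have h9 : |t| ^ (-σ1) = |t| ^ (-(σ1 - σ2)) * |t| ^ (-σ2) := by
        rw [← Real.rpow_add (by linarith)]
        congr 1; ring
      have h10 : |t| ^ (-(σ1 - σ2)) ≤ P ^ (-(2 * (σ1 - σ2))) := by
        calc |t| ^ (-(σ1 - σ2)) ≤ (P ^ 2) ^ (-(σ1 - σ2)) :=
              Real.rpow_le_rpow_of_nonpos (by positivity) ht2.le (by linarith)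
          _ = P ^ (-(2 * (σ1 - σ2))) := by
              rw [← Real.rpow_natCast, ← Real.rpow_mul hP0.le]
              congr 1; push_cast; ring
      have h11 : |t| ^ (-σ2) ≤ 2 ^ σ2 * (1 + |t|) ^ (-σ2) := by
        calc |t| ^ (-σ2) ≤ ((1 + |t|) / 2) ^ (-σ2) :=
              Real.rpow_le_rpow_of_nonpos (by positivity) (by linarith) (by linarith)
          _ = 2 ^ σ2 * (1 + |t|) ^ (-σ2) := by
              rw [div_eq_inv_mul, Real.mul_rpow (by positivity) (by positivity),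
                Real.inv_rpow (by norm_num), Real.rpow_neg (by norm_num), inv_inv]
      rw [h9]
      exact mul_le_mul h10 h11 (by positivity) (by positivity)
    rw [Real.norm_eq_abs]
    calc K * √(1 + |c| + |t|) ^ ε * (c1 * √|t|) ^ (-((d : ℝ) * α))
        ≤ K * (√2 ^ ε * √|t| ^ ε) * (c1 * √|t|) ^ (-((d : ℝ) * α)) := by gcongr
      _ = K * (√2 ^ ε * √|t| ^ ε) *
          (c1 ^ (-((d : ℝ) * α)) * √|t| ^ (-((d : ℝ) * α))) := by
            rw [Real.mul_rpow hc1p.le hY0.le]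
      _ = C2 * (√|t| ^ ε * √|t| ^ (-((d : ℝ) * α))) := by rw [hC2]; ring
      _ = C2 * |t| ^ (-σ1) := by rw [h7]
      _ ≤ C2 * (P ^ (-(2 * (σ1 - σ2))) * (2 ^ σ2 * (1 + |t|) ^ (-σ2))) := by gcongr
      _ = C2 * 2 ^ σ2 * P ^ (-(2 * (σ1 - σ2))) * (1 + |t|) ^ (-σ2) := by ring
  have hms : MeasurableSet {t : ℝ | C1 * P ^ 2 < |t|} :=
    measurableSet_lt measurable_const (by fun_prop)
  calc ∫⁻ t in {t : ℝ | C1 * P ^ 2 < |t|}, ∫⁻ x, ‖uu f (ph Φ h c t) x‖ₑ ^ p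
      ≤ ∫⁻ t in {t : ℝ | C1 * P ^ 2 < |t|},
        ENNReal.ofReal (C2 * 2 ^ σ2 * P ^ (-(2 * (σ1 - σ2)))) * V *
          ENNReal.ofReal ((1 + ‖t‖) ^ (-σ2)) := setLIntegral_mono' hms hslice
    _ ≤ ∫⁻ t : ℝ, ENNReal.ofReal (C2 * 2 ^ σ2 * P ^ (-(2 * (σ1 - σ2)))) * V *
          ENNReal.ofReal ((1 + ‖t‖) ^ (-σ2)) := setLIntegral_le_lintegral _ _
    _ = ENNReal.ofReal (C2 * 2 ^ σ2 * P ^ (-(2 * (σ1 - σ2)))) * V * I := by
        rw [lintegral_const_mul' _ _ (ENNReal.mul_ne_top ENNReal.ofReal_ne_top hVt)]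
    _ = ENNReal.ofReal (C2 * 2 ^ σ2 * P ^ (-(2 * (σ1 - σ2)))) *
          ENNReal.ofReal (V * I).toReal := by
        rw [ENNReal.ofReal_toReal (ENNReal.mul_ne_top hVt hIt), mul_assoc]
    _ = ENNReal.ofReal (C2 * 2 ^ σ2 * P ^ (-(2 * (σ1 - σ2))) * (V * I).toReal) := by
        rw [← ENNReal.ofReal_mul (by positivity)]
    _ ≤ ENNReal.ofReal (K' * P ^ (-(2 * (σ1 - σ2)))) := by
        refine ENNReal.ofReal_le_ofReal ?_
        have h1 : 0 < P ^ (-(2 * (σ1 - σ2))) := by positivity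
        rw [hK']
        nlinarith

end Pool.Agent.GNP
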