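import Pool.Agent.GNP.Defs3

/-!
Joint measurability of the oscillatory integral.
-/

namespace Pool.Agent.GNP

open MeasureTheory Set Pool.Agent.MP_6cbfb8_an
open scoped ENNReal Real RealInnerProductSpace ContDiff

/-- Row MU. Joint measurability. -/
theorem measurable_uu (d : ℕ) (f : E d → ℂ) (Φ h : E d → ℝ) (c : ℝ) (hf : Integrable f)
    (hΦ : Measurable Φ) (hh : Measurable h) :
    Measurable fun z : ℝ × E d => uu f (ph Φ h c z.1) z.2 := by
  have hg : StronglyMeasurable (hf.1.mk f) := hf.1.stronglyMeasurable_mk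
  have hfg : f =ᵐ[volume] hf.1.mk f := hf.1.ae_eq_mk
  have h1 : (fun z : ℝ × E d => uu f (ph Φ h c z.1) z.2) = fun z : ℝ × E d =>
      ∫ y, hf.1.mk f y * Complex.exp (((ph Φ h c z.1 y - ⟪z.2, y⟫ : ℝ) : ℂ) * Complex.I) := by
    funext z
    unfold uu
    refine integral_congr_ae ?_
    filter_upwards [hfg] with y hy
    rw [← hy]
  rw [h1]
  have h2 : Measurable fun p : (ℝ × E d) × E d => hf.1.mk f p.2 *
      Complex.exp (((ph Φ h c p.1.1 p.2 - ⟪p.1.2, p.2⟫ : ℝ) : ℂ) * Complex.I) := by
    refine (hg.measurable.comp measurable_snd).mul ?_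
    refine Complex.measurable_exp.comp (Measurable.mul_const ?_ _)
    refine Complex.measurable_ofReal.comp ?_
    unfold ph
    have h3 : Measurable fun p : (ℝ × E d) × E d => Φ p.2 := hΦ.comp measurable_snd
    have h4 : Measurable fun p : (ℝ × E d) × E d => h p.2 := hh.comp measurable_snd
    have h5 : Measurable fun p : (ℝ × E d) × E d => ⟪p.1.2, p.2⟫ := by fun_prop
    exact ((h3.const_mul c).sub ((measurable_fst.comp measurable_fst).mul h4)).sub h5
  exact (h2.stronglyMeasurable.integral_prod_right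
    (f := fun (z : ℝ × E d) (y : E d) => hf.1.mk f y *
      Complex.exp (((ph Φ h c z.1 y - ⟪z.2, y⟫ : ℝ) : ℂ) * Complex.I))).measurable

end Pool.Agent.GNP
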