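import Pool.Agent.GNP.Defs
import Pool.Agent.MP_6cbfb8_an.SteinTomas

/-!
The Stein-Tomas inequality in the chart of the upper half sphere, for bounded measurable
densities (no smoothness), with any real measurable phase.
-/

set_option autoImplicit false

namespace Pool.Agent.GNP

open MeasureTheory Set Pool.Agent.MP_6cbfb8_an
open scoped ENNReal Real RealInnerProductSpace ContDiff

theorem lintegral_scale {V : Type*} [NormedAddCommGroup V] [NormedSpace ℝ V]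
    [FiniteDimensional ℝ V] [MeasurableSpace V] [BorelSpace V] (μ : Measure V)
    [μ.IsAddHaarMeasure] (f : V → ℝ≥0∞) (c : ℝ) (hc : 0 < c) :
    ∫⁻ x, f x ∂μ = ENNReal.ofReal (c ^ Module.finrank ℝ V) * ∫⁻ x, f (c • x) ∂μ := by
  have hc0 : c ≠ 0 := hc.ne'
  have h := (Homeomorph.smulOfNeZero c hc0).measurableEmbedding.lintegral_map (μ := μ) f
  have h2 : Measure.map (Homeomorph.smulOfNeZero c hc0 : V → V) μ =
      ENNReal.ofReal |(c ^ Module.finrank ℝ V)⁻¹| • μ := Measure.map_addHaar_smul μ hc0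
  have h3 : ∫⁻ x, f (c • x) ∂μ = ∫⁻ x, f ((Homeomorph.smulOfNeZero c hc0 : V → V) x) ∂μ := rfl
  have hp : 0 < c ^ Module.finrank ℝ V := by positivity
  rw [h3, ← h, h2, lintegral_smul_measure, smul_eq_mul, ← mul_assoc,
    ← ENNReal.ofReal_mul hp.le, abs_of_pos (by positivity), mul_inv_cancel₀ hp.ne',
    ENNReal.ofReal_one, one_mul]

/-- The density on the upper half sphere which corresponds to `f` in the chart. -/
noncomputable def stg {n : ℕ} (f : E (n + 1) → ℂ) (ψ : E (n + 1) → ℝ) (x : E (n + 2)) : ℂ :=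
  if ‖x‖ ≤ 1 ∧ 0 < x (Fin.last (n + 1)) then
    ((1 / 2 : ℝ) : ℂ) * ((x (Fin.last (n + 1)) : ℝ) : ℂ) *
      (f (WithLp.toLp 2 fun i => x (Fin.castSucc i)) *
        Complex.exp (((ψ (WithLp.toLp 2 fun i => x (Fin.castSucc i)) : ℝ) : ℂ) * Complex.I))
  else 0

theorem measurable_init {n : ℕ} :
    Measurable fun x : E (n + 2) => (WithLp.toLp 2 fun i => x (Fin.castSucc i) : E (n + 1)) := by
  have h : Continuous fun x : E (n + 2) =>
      (WithLp.toLp 2 fun i => x (Fin.castSucc i) : E (n + 1)) := by fun_prop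
  exact h.measurable

theorem measurable_stg {n : ℕ} (f : E (n + 1) → ℂ) (hf : Measurable f) (ψ : E (n + 1) → ℝ)
    (hψ : Measurable ψ) : Measurable (stg f ψ) := by
  have hl : Measurable fun x : E (n + 2) => x (Fin.last (n + 1)) := by fun_prop
  have hexp : Measurable fun t : ℝ => Complex.exp ((t : ℂ) * Complex.I) := by fun_prop
  unfold stg
  have hs1 : MeasurableSet {x : E (n + 2) | ‖x‖ ≤ 1} :=
    measurableSet_le measurable_norm measurable_const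
  have hs2 : MeasurableSet {x : E (n + 2) | 0 < x (Fin.last (n + 1))} :=
    measurableSet_lt measurable_const hl
  refine Measurable.ite (hs1.inter hs2) ?_ measurable_const
  refine ((measurable_const.mul (Complex.measurable_ofReal.comp hl))).mul ?_
  exact (hf.comp measurable_init).mul (hexp.comp (hψ.comp measurable_init))

theorem abs_last_le {n : ℕ} (x : E (n + 2)) : |x (Fin.last (n + 1))| ≤ ‖x‖ := by
  have := PiLp.norm_apply_le x (Fin.last (n + 1))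
  simpa using this

theorem norm_stg_le {n : ℕ} (f : E (n + 1) → ℂ) (hf : ∀ y, ‖f y‖ ≤ 2) (ψ : E (n + 1) → ℝ)
    (x : E (n + 2)) : ‖stg f ψ x‖ ≤ 1 := by
  unfold stg
  split_ifs with h
  · rw [norm_mul, norm_mul, norm_mul, Complex.norm_exp_ofReal_mul_I, mul_one, Complex.norm_real,
      Complex.norm_real, Real.norm_of_nonneg (by norm_num : (0:ℝ) ≤ 1 / 2),
      Real.norm_of_nonneg h.2.le]
    have h1 := abs_last_le x
    rw [abs_of_pos h.2] at h1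
    have h2 := hf (WithLp.toLp 2 fun i => x (Fin.castSucc i))
    have h3 : x (Fin.last (n + 1)) ≤ 1 := h1.trans h.1
    have h4 := norm_nonneg (f (WithLp.toLp 2 fun i => x (Fin.castSucc i)))
    nlinarith [h.2, mul_le_mul h3 h2 h4 zero_le_one]
  · simp

theorem join_init {n : ℕ} (u : E (n + 1)) (t : ℝ) :
    (WithLp.toLp 2 fun i => (join u t) (Fin.castSucc i) : E (n + 1)) = u := by
  unfold join
  ext i
  simp

theorem stg_join {n : ℕ} (f : E (n + 1) → ℂ) (ψ : E (n + 1) → ℝ) (u : E (n + 1)) (hu : ‖u‖ < 1) :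
    stg f ψ (join u √(1 - ‖u‖ ^ 2)) = ((1 / 2 : ℝ) : ℂ) * ((√(1 - ‖u‖ ^ 2) : ℝ) : ℂ) *
      (f u * Complex.exp (((ψ u : ℝ) : ℂ) * Complex.I)) := by
  have hu2 : 0 < 1 - ‖u‖ ^ 2 := by nlinarith [norm_nonneg u]
  have hl : (join u √(1 - ‖u‖ ^ 2)) (Fin.last (n + 1)) = √(1 - ‖u‖ ^ 2) := by
    unfold join
    simp
  have hj : ‖join u √(1 - ‖u‖ ^ 2)‖ = 1 := by
    have h5 := norm_join_sq u √(1 - ‖u‖ ^ 2)
    rw [Real.sq_sqrt hu2.le] at h5
    nlinarith [norm_nonneg (join u √(1 - ‖u‖ ^ 2))]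
  unfold stg
  rw [if_pos ⟨hj.le, by rw [hl]; exact Real.sqrt_pos.mpr hu2⟩, hl, join_init]

/-- The extension operator of the density `stg`. -/
theorem extn_stg (n : ℕ) (r : ℝ) (hr1 : r < 1) (f : E (n + 1) → ℂ) (hf : Measurable f)
    (hfb : ∀ y, ‖f y‖ ≤ 2) (hf0 : ∀ y, r < ‖y‖ → f y = 0) (Φ h : E (n + 1) → ℝ)
    (hΦ : Measurable Φ) (hh : ∀ y, ‖y‖ ≤ r → h y = hs y) (c : ℝ) (X : E (n + 1)) (t : ℝ) :
    uu f (ph Φ h c (2 * π * t)) ((2 * π) • X) =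
      2 * extn (stg f fun y => c * Φ y) (join X t) := by
  have hgm := measurable_stg f hf (fun y => c * Φ y) (by fun_prop)
  have hgb := norm_stg_le f hfb (fun y => c * Φ y)
  have key := Pool.Agent.MST.chart n (stg f fun y => c * Φ y) hgm hgb X t
  have e1 : (fun x : E (n + 2) => if 0 < x (Fin.last (n + 1)) then
      stg f (fun y => c * Φ y) x else 0) = stg f fun y => c * Φ y := by
    funext x
    split_ifs with hx
    · rfl
    · unfold stg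
      rw [if_neg (fun h => hx h.2)]
  rw [e1] at key
  rw [key]
  have e2 : uu f (ph Φ h c (2 * π * t)) ((2 * π) • X) = ∫ y in Metric.ball (0 : E (n + 1)) 1,
      f y * Complex.exp (((ph Φ h c (2 * π * t) y - ⟪(2 * π) • X, y⟫ : ℝ) : ℂ) * Complex.I) := by
    unfold uu
    rw [setIntegral_eq_integral_of_forall_compl_eq_zero]
    intro y hy
    have hy1 : 1 ≤ ‖y‖ := by simpa using hy
    rw [hf0 y (by linarith), zero_mul]
  rw [e2, ← integral_const_mul]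
  refine setIntegral_congr_fun measurableSet_ball fun u hu => ?_
  have hu1 : ‖u‖ < 1 := by simpa using hu
  have hu2 : 0 < 1 - ‖u‖ ^ 2 := by nlinarith [norm_nonneg u]
  have hsq : 0 < √(1 - ‖u‖ ^ 2) := Real.sqrt_pos.mpr hu2
  rw [stg_join f _ u hu1]
  by_cases hur : ‖u‖ ≤ r
  · have e3 : ph Φ h c (2 * π * t) u - ⟪(2 * π) • X, u⟫ = c * Φ u +
        -(2 * π * (inner ℝ u X + √(1 - ‖u‖ ^ 2) * t)) := by
      unfold ph
      rw [hh u hur, real_inner_smul_left, real_inner_comm]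
      unfold hs
      ring
    have e4 : Complex.exp (((c * Φ u +
        -(2 * π * (inner ℝ u X + √(1 - ‖u‖ ^ 2) * t)) : ℝ) : ℂ) * Complex.I) =
        Complex.exp (((c * Φ u : ℝ) : ℂ) * Complex.I) *
        Pool.Agent.MST.ex (inner ℝ u X + √(1 - ‖u‖ ^ 2) * t) := by
      unfold Pool.Agent.MST.ex
      rw [← Complex.exp_add]
      congr 1
      push_cast
      ring
    rw [e3, e4]
    have h6 : ((√(1 - ‖u‖ ^ 2) : ℝ) : ℂ) ≠ 0 := by exact_mod_cast hsq.ne'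
    push_cast
    field_simp
  · rw [hf0 u (not_le.mp hur)]
    simp

/-- The square of the `L²` norm of the density. -/
theorem lintegral_stg_sq (n : ℕ) (f : E (n + 1) → ℂ) (hf : Measurable f) (ψ : E (n + 1) → ℝ)
    (hψ : Measurable ψ) :
    ∫⁻ x : S (n + 2), ‖stg f ψ x‖ₑ ^ (2:ℝ) ∂(sm (n + 2)) ≤ ∫⁻ y, ‖f y‖ₑ ^ (2:ℝ) := by
  have hm : Measurable fun x : E (n + 2) => ‖stg f ψ x‖ₑ ^ (2:ℝ) :=
    ((measurable_stg f hf ψ hψ).enorm).pow_const _
  have key := Pool.Agent.MST.chart_lintegral n (fun x => ‖stg f ψ x‖ₑ ^ (2:ℝ)) hm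
  have e1 : ∀ x : E (n + 2), (if 0 < x (Fin.last (n + 1)) then ‖stg f ψ x‖ₑ ^ (2:ℝ) else 0) =
      ‖stg f ψ x‖ₑ ^ (2:ℝ) := by
    intro x
    split_ifs with hx
    · rfl
    · unfold stg
      rw [if_neg (fun h => hx h.2)]
      simp
  simp only [e1] at key
  rw [key]
  refine le_trans ?_ (setLIntegral_le_lintegral (Metric.ball (0 : E (n + 1)) 1) _)
  refine setLIntegral_mono' measurableSet_ball fun u hu => ?_
  have hu1 : ‖u‖ < 1 := by simpa using hu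
  have hu2 : 0 < 1 - ‖u‖ ^ 2 := by nlinarith [norm_nonneg u]
  have hsq : 0 < √(1 - ‖u‖ ^ 2) := Real.sqrt_pos.mpr hu2
  have hsq1 : √(1 - ‖u‖ ^ 2) ≤ 1 := by
    rw [Real.sqrt_le_one]
    nlinarith [norm_nonneg u]
  rw [stg_join f ψ u hu1]
  have h1 : ‖((1 / 2 : ℝ) : ℂ) * ((√(1 - ‖u‖ ^ 2) : ℝ) : ℂ) *
      (f u * Complex.exp (((ψ u : ℝ) : ℂ) * Complex.I))‖ₑ =
      ENNReal.ofReal (√(1 - ‖u‖ ^ 2) / 2) * ‖f u‖ₑ := by
    rw [← ofReal_norm, norm_mul, norm_mul, norm_mul, Complex.norm_exp_ofReal_mul_I, mul_one,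
      Complex.norm_real, Complex.norm_real, Real.norm_of_nonneg (by norm_num : (0:ℝ) ≤ 1 / 2),
      Real.norm_of_nonneg hsq.le, ENNReal.ofReal_mul (by positivity), ofReal_norm]
    congr 2
    ring
  rw [h1, ENNReal.mul_rpow_of_nonneg _ _ (by norm_num), mul_assoc, mul_comm (‖f u‖ₑ ^ (2:ℝ)),
    ← mul_assoc]
  have h2 : ENNReal.ofReal (√(1 - ‖u‖ ^ 2) / 2) ^ (2:ℝ) * ENNReal.ofReal (1 / √(1 - ‖u‖ ^ 2)) ≤ 1 := by
    rw [ENNReal.ofReal_rpow_of_nonneg (by positivity) (by norm_num),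
      ← ENNReal.ofReal_mul (by positivity), ENNReal.ofReal_le_one]
    have h3 : (√(1 - ‖u‖ ^ 2) / 2) ^ (2:ℝ) * (1 / √(1 - ‖u‖ ^ 2)) = √(1 - ‖u‖ ^ 2) / 4 := by
      rw [Real.rpow_two]
      field_simp
      ring
    rw [h3]
    linarith
  calc _ ≤ 1 * ‖f u‖ₑ ^ (2:ℝ) := by gcongr
    _ = _ := one_mul _

/-- Stein-Tomas in the chart: bounded measurable densities supported in the ball of radius
`r < 1`, any measurable real phase `Φ`, height function `h = √(1-|y|²)` on the support. -/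
theorem ST_chart (d : ℕ) (hd : 1 ≤ d) (r : ℝ) (hr1 : r < 1) (q : ℝ)
    (hq : 2 * ((d : ℝ) + 2) / d < q) : ∃ C : ℝ≥0∞, C ≠ ⊤ ∧
    ∀ (f : E d → ℂ) (Φ h : E d → ℝ), Measurable f → (∀ y, ‖f y‖ ≤ 2) →
    (∀ y, r < ‖y‖ → f y = 0) → Measurable Φ → (∀ y, ‖y‖ ≤ r → h y = hs y) → ∀ c : ℝ,
      ∫⁻ s : ℝ, ∫⁻ x, ‖uu f (ph Φ h c s) x‖ₑ ^ q ≤ C * (∫⁻ y, ‖f y‖ₑ ^ (2:ℝ)) ^ (q / 2) := by
  obtain ⟨n, rfl⟩ : ∃ n, d = n + 1 := ⟨d - 1, by omega⟩
  have hn1 : (0:ℝ) < (n:ℝ) + 1 := by positivity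
  have hq' : 2 * ((n : ℝ) + 3) / (n + 1) < q := by
    refine lt_of_eq_of_lt ?_ hq
    push_cast
    congr 1
    ring
  have hq0 : 0 < q := lt_trans (by positivity) hq'
  obtain ⟨C, hC, hST⟩ := stein_tomas n q hq'
  refine ⟨ENNReal.ofReal (2 * π) * ENNReal.ofReal ((2 * π) ^ (n + 1)) * (2:ℝ≥0∞) ^ q * C,
    ENNReal.mul_ne_top (ENNReal.mul_ne_top (ENNReal.mul_ne_top ENNReal.ofReal_ne_top
      ENNReal.ofReal_ne_top) (ENNReal.rpow_ne_top_of_nonneg hq0.le ENNReal.ofNat_ne_top)) hC,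
    fun f Φ h hf hfb hf0 hΦ hh c => ?_⟩
  set G : E (n + 2) → ℂ := stg f fun y => c * Φ y with hG
  have hGm : Measurable G := measurable_stg f hf _ (by fun_prop)
  have hGb : ∀ x, ‖G x‖ ≤ 2 := fun x => (norm_stg_le f hfb _ x).trans (by norm_num)
  have hm : Measurable fun ξ => ‖extn G ξ‖ₑ ^ q := (measurable_extn G hGm).enorm.pow_const q
  have hm2 : Measurable fun p : E (n + 1) × ℝ => ‖extn G (join p.1 p.2)‖ₑ ^ q :=
    hm.comp measurable_join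
  have h1 := lintegral_join (n + 1) _ hm
  rw [lintegral_lintegral_swap hm2.aemeasurable] at h1
  have h2π : 0 < 2 * π := by positivity
  calc ∫⁻ s : ℝ, ∫⁻ x, ‖uu f (ph Φ h c s) x‖ₑ ^ q
      = ENNReal.ofReal (2 * π) * ∫⁻ t : ℝ, ∫⁻ x, ‖uu f (ph Φ h c (2 * π * t)) x‖ₑ ^ q := by
        rw [lintegral_scale volume (fun s : ℝ => ∫⁻ x, ‖uu f (ph Φ h c s) x‖ₑ ^ q) (2 * π) h2π]
        simp [smul_eq_mul]
    _ = ENNReal.ofReal (2 * π) * ∫⁻ t : ℝ, ENNReal.ofReal ((2 * π) ^ (n + 1)) *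
          ∫⁻ X, ‖uu f (ph Φ h c (2 * π * t)) ((2 * π) • X)‖ₑ ^ q := by
        congr 1
        refine lintegral_congr fun t => ?_
        rw [lintegral_scale volume (fun x => ‖uu f (ph Φ h c (2 * π * t)) x‖ₑ ^ q) (2 * π) h2π]
        simp
    _ = ENNReal.ofReal (2 * π) * ∫⁻ t : ℝ, ENNReal.ofReal ((2 * π) ^ (n + 1)) *
          ∫⁻ X : E (n + 1), (2:ℝ≥0∞) ^ q * ‖extn G (join X t)‖ₑ ^ q := by
        congr 1
        refine lintegral_congr fun t => ?_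
        congr 1
        refine lintegral_congr fun X => ?_
        rw [extn_stg n r hr1 f hf hfb hf0 Φ h hΦ hh c X t, enorm_mul,
          ENNReal.mul_rpow_of_nonneg _ _ hq0.le]
        congr 2
        rw [← ofReal_norm]
        norm_num
    _ = ENNReal.ofReal (2 * π) * ENNReal.ofReal ((2 * π) ^ (n + 1)) * (2:ℝ≥0∞) ^ q *
          ∫⁻ ξ, ‖extn G ξ‖ₑ ^ q := by
        rw [h1, mul_assoc, mul_assoc]
        congr 1
        have e1 : ∀ t : ℝ, ∫⁻ X : E (n + 1), (2:ℝ≥0∞) ^ q * ‖extn G (join X t)‖ₑ ^ q =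
            (2:ℝ≥0∞) ^ q * ∫⁻ X : E (n + 1), ‖extn G (join X t)‖ₑ ^ q := fun t =>
          lintegral_const_mul' _ _ (ENNReal.rpow_ne_top_of_nonneg hq0.le ENNReal.ofNat_ne_top)
        simp only [e1]
        rw [lintegral_const_mul' _ _ ENNReal.ofReal_ne_top,
          lintegral_const_mul' _ _ (ENNReal.rpow_ne_top_of_nonneg hq0.le ENNReal.ofNat_ne_top)]
    _ ≤ ENNReal.ofReal (2 * π) * ENNReal.ofReal ((2 * π) ^ (n + 1)) * (2:ℝ≥0∞) ^ q *
          (C * (∫⁻ x : S (n + 2), ‖G x‖ₑ ^ (2:ℝ) ∂(sm (n + 2))) ^ (q / 2)) := by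
        gcongr
        exact hST G hGm hGb
    _ ≤ ENNReal.ofReal (2 * π) * ENNReal.ofReal ((2 * π) ^ (n + 1)) * (2:ℝ≥0∞) ^ q *
          (C * (∫⁻ y, ‖f y‖ₑ ^ (2:ℝ)) ^ (q / 2)) := by
        gcongr
        exact lintegral_stg_sq n f hf _ (by fun_prop)
    _ = _ := by simp only [mul_assoc]

/-- ST. Stein-Tomas in the chart. -/
theorem st_chart (d : ℕ) (hd : 1 ≤ d) (r q : ℝ) (_hr : 0 < r) (hr1 : r < 1)
    (hq : 2 * ((d : ℝ) + 2) / d < q) : ∃ C : ℝ≥0∞, C ≠ ⊤ ∧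
    ∀ (f : E d → ℂ) (Φ h : E d → ℝ) (c : ℝ), Measurable f → (∀ y, ‖f y‖ ≤ 2) →
    (∀ y, r < ‖y‖ → f y = 0) → Measurable Φ → Measurable h → (∀ y, ‖y‖ ≤ r → h y = hs y) →
    ∫⁻ t : ℝ, ∫⁻ x, ‖uu f (ph Φ h c t) x‖ₑ ^ q ≤ C * (∫⁻ y, ‖f y‖ₑ ^ (2 : ℝ)) ^ (q / 2) := by
  obtain ⟨C, hC, h1⟩ := ST_chart d hd r hr1 q hq
  exact ⟨C, hC, fun f Φ h c hf hfb hf0 hΦ _ hh => h1 f Φ h hf hfb hf0 hΦ hh c⟩

end Pool.Agent.GNP
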