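import Pool.Agent.GNP.A3
import Pool.Agent.GNP.WST
import Pool.Agent.GNP.WMU

/-!
Rough amplitudes: one level of frequencies, small values of the last variable.
-/

namespace Pool.Agent.GNP

open MeasureTheory Set Pool.Agent.MP_6cbfb8_an
open scoped ENNReal Real RealInnerProductSpace ContDiff

/-- Log-convexity of the `L^p` norms. -/
theorem wn_interp {X : Type*} [MeasurableSpace X] (μ : Measure X) (F : X → ℝ≥0∞)
    (hF : Measurable F) (q p1 θ : ℝ) (hθ0 : 0 ≤ θ) (hθ1 : θ ≤ 1) (hq : 0 ≤ q)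
    (h : p1 = 2 * θ + q * (1 - θ)) :
    ∫⁻ z, F z ^ p1 ∂μ ≤ (∫⁻ z, F z ^ (2:ℝ) ∂μ) ^ θ * (∫⁻ z, F z ^ q ∂μ) ^ (1 - θ) := by
  refine le_trans (le_of_eq ?_) (ENNReal.lintegral_mul_norm_pow_le
    (f := fun z => F z ^ (2:ℝ)) (g := fun z => F z ^ q)
    (hF.pow_const _).aemeasurable (hF.pow_const _).aemeasurable hθ0 (by linarith) (by ring))
  refine lintegral_congr fun z => ?_
  rw [← ENNReal.rpow_mul, ← ENNReal.rpow_mul, ← ENNReal.rpow_add_of_nonneg _ _ (by positivity)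
    (mul_nonneg hq (by linarith)), h]

theorem wn_sup {d : ℕ} (f : E d → ℂ) (q : E d → ℝ) (x : E d) :
    ‖uu f q x‖ₑ ≤ ∫⁻ y, ‖f y‖ₑ := by
  unfold uu
  refine (enorm_integral_le_lintegral_enorm _).trans (le_of_eq ?_)
  refine lintegral_congr fun y => ?_
  rw [enorm_mul, ← ofReal_norm (Complex.exp _), Complex.norm_exp_ofReal_mul_I, ENNReal.ofReal_one,
    mul_one]

theorem wn_L2 {d : ℕ} (f : E d → ℂ) (hf : Integrable f) (q : E d → ℝ) (hq : Measurable q) :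
    ∫⁻ x, ‖uu f q x‖ₑ ^ (2:ℝ) ≤ ENNReal.ofReal ((2 * π) ^ d) * ∫⁻ y, ‖f y‖ₑ ^ (2:ℝ) := by
  have hm : Measurable fun y => Complex.exp (((q y : ℝ) : ℂ) * Complex.I) :=
    Complex.measurable_exp.comp ((Complex.measurable_ofReal.comp hq).mul measurable_const)
  have hG : Integrable fun y => f y * Complex.exp (((q y : ℝ) : ℂ) * Complex.I) := by
    refine hf.mul_bdd (c := 1) hm.aestronglyMeasurable ?_
    filter_upwards with y
    rw [Complex.norm_exp_ofReal_mul_I]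
  have h := planch d _ hG
  have e1 : ∀ x, uu f q x = ∫ y, (f y * Complex.exp (((q y : ℝ) : ℂ) * Complex.I)) *
      Complex.exp (((-⟪x, y⟫ : ℝ) : ℂ) * Complex.I) := by
    intro x
    unfold uu
    refine integral_congr_ae (ae_of_all _ fun y => ?_)
    simp only
    rw [mul_assoc, ← Complex.exp_add]
    congr 2
    push_cast
    ring
  have e2 : ∀ y, ‖f y * Complex.exp (((q y : ℝ) : ℂ) * Complex.I)‖ₑ = ‖f y‖ₑ := by
    intro y
    rw [enorm_mul, ← ofReal_norm (Complex.exp _), Complex.norm_exp_ofReal_mul_I,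
      ENNReal.ofReal_one, mul_one]
  simp only [e2] at h
  simp only [e1]
  exact h

theorem near_lev (d : ℕ) (hd : 1 ≤ d) (r s p C1 V : ℝ) (hr : 0 < r) (hr1 : r < 1) (hV : 0 ≤ V)
    (hs0 : (d : ℝ) / (d + 1) < s) (hp : 2 * ((d : ℝ) + 1) / d < p) : ∃ K τ : ℝ, 0 < K ∧ 0 < τ ∧
    ∀ (f : E d → ℂ) (Φ h : E d → ℝ) (c P : ℝ), 1 ≤ P → Measurable f → (∀ y, ‖f y‖ ≤ 2) →
    (∀ y, r < ‖y‖ → f y = 0) → Measurable Φ → Measurable h → (∀ y, ‖y‖ ≤ r → h y = hs y) →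
    ∫⁻ y, ‖f y‖ₑ ≤ ENNReal.ofReal (V * P ^ (-s)) →
    ∫⁻ t in {t : ℝ | |t| ≤ C1 * P ^ 2}, ∫⁻ x, ‖uu f (ph Φ h c t) x‖ₑ ^ p ≤
      ENNReal.ofReal (K * P ^ (-τ)) := by
  have hd0 : (0 : ℝ) < d := by exact_mod_cast hd
  set D : ℝ := 1 / (d : ℝ) with hD
  have hD0 : 0 < D := by positivity
  have hdD : (d : ℝ) * D = 1 := by rw [hD]; field_simp
  set s1 : ℝ := min s 1 with hs1
  have hs1s : s1 ≤ s := min_le_left _ _
  have hs11 : s1 ≤ 1 := min_le_right _ _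
  have hcrit : (d : ℝ) / (d + 1) < s1 := by
    refine lt_min hs0 ?_
    rw [div_lt_one (by linarith)]
    linarith
  set δ : ℝ := s1 * (1 + D) - 1 with hδ
  have hδ0 : 0 < δ := by
    have h1 : (d : ℝ) < s1 * (d + 1) := by rwa [div_lt_iff₀ (by linarith)] at hcrit
    have h2 : (d : ℝ) * D < s1 * (d + 1) * D := mul_lt_mul_of_pos_right h1 hD0
    have h3 : s1 * (d + 1) * D = s1 * (1 + D) := by
      have : s1 * ((d : ℝ) + 1) * D = s1 * (d * D + D) := by ring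
      rw [this, hdD]
    rw [hδ]
    linarith
  have hs10 : 0 < s1 := lt_of_le_of_lt (by positivity) hcrit
  set q : ℝ := 2 + 4 * D + 2 * D * δ with hq
  have hp' : 2 + 2 * D < p := by
    have : 2 * ((d : ℝ) + 1) / d = 2 + 2 * D := by rw [hD]; field_simp
    rwa [this] at hp
  set p1 : ℝ := min p (2 + 3 * D) with hp1
  have hp1p : p1 ≤ p := min_le_left _ _
  have hp1D : p1 ≤ 2 + 3 * D := min_le_right _ _
  have hp1c : 2 + 2 * D < p1 := lt_min hp' (by linarith)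
  have hDδ : 0 < D * δ := by positivity
  have hqp : p1 < q := by rw [hq]; nlinarith
  have hq2 : 0 < q - 2 := by rw [hq]; nlinarith
  set θ : ℝ := (q - p1) / (q - 2) with hθ
  have hθ0 : 0 < θ := div_pos (by linarith) hq2
  have hθ1 : θ < 1 := by
    rw [hθ, div_lt_one hq2]
    linarith
  have hθeq : p1 = 2 * θ + q * (1 - θ) := by
    rw [hθ]
    field_simp
    ring
  set τ : ℝ := s1 * (q / 2) * (1 - θ) - (2 - s1) * θ with hτ
  have hτ0 : 0 < τ := by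
    have h1 : τ * (q - 2) = (p1 - 2 - 2 * D) * (2 + s1 * (2 * D + D * δ)) +
        2 * D * (1 + δ) * δ := by
      have h2 : (1 - θ) * (q - 2) = p1 - 2 := by
        rw [hθ]; field_simp; ring
      have h3 : θ * (q - 2) = q - p1 := by
        rw [hθ]; field_simp
      have h4 : τ * (q - 2) = s1 * (q / 2) * ((1 - θ) * (q - 2)) - (2 - s1) * (θ * (q - 2)) := by
        rw [hτ]; ring
      rw [h4, h2, h3, hq]
      have h5 : s1 * (1 + D) = 1 + δ := by rw [hδ]; ring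
      have h6 : s1 * D = 1 + δ - s1 := by linarith
      have h7 : s1 * (1 + D) * δ = (1 + δ) * δ := by rw [h5]
      linear_combination (2 * D) * h7 + (4 * D) * h5
    have h8 : 0 < τ * (q - 2) := by
      rw [h1]
      have : 0 < (p1 - 2 - 2 * D) * (2 + s1 * (2 * D + D * δ)) := by
        apply mul_pos (by linarith)
        positivity
      have : 0 < 2 * D * (1 + δ) * δ := by positivity
      linarith
    exact (mul_pos_iff_of_pos_right hq2).1 h8
  obtain ⟨C, hC, hST⟩ := st_chart d hd r q hr hr1 (by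
    have : 2 * ((d : ℝ) + 2) / d = 2 + 4 * D := by rw [hD]; field_simp; ring
    rw [this, hq]
    linarith)
  set Cr : ℝ := C.toReal with hCr
  have hCr0 : 0 ≤ Cr := ENNReal.toReal_nonneg
  have hCC : C = ENNReal.ofReal Cr := (ENNReal.ofReal_toReal hC).symm
  set M : ℝ := 4 * |C1| * (2 * π) ^ d with hM
  have hM0 : 0 ≤ M := by positivity
  refine ⟨V ^ (p - p1) * ((M * V) ^ θ * (Cr * (2 * V) ^ (q / 2)) ^ (1 - θ)) + 1, τ,
    by positivity, hτ0, ?_⟩
  intro f Φ h c P hP hfm hf2 hfs hΦ hh hhs hf1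
  have hP0 : 0 < P := by linarith
  set v : ℝ := V * P ^ (-s1) with hv
  have hv0 : 0 ≤ v := by positivity
  have hN1 : ∫⁻ y, ‖f y‖ₑ ≤ ENNReal.ofReal v := by
    refine hf1.trans (ENNReal.ofReal_le_ofReal ?_)
    rw [hv]
    gcongr
  have hfi : Integrable f := ⟨hfm.aestronglyMeasurable,
    lt_of_le_of_lt hN1 ENNReal.ofReal_lt_top⟩
  have hN2 : ∫⁻ y, ‖f y‖ₑ ^ (2:ℝ) ≤ ENNReal.ofReal (2 * v) := by
    have h1 : ∀ y, ‖f y‖ₑ ^ (2:ℝ) ≤ ENNReal.ofReal 2 * ‖f y‖ₑ := by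
      intro y
      rw [ENNReal.rpow_two, sq]
      gcongr
      rw [← ofReal_norm]
      exact ENNReal.ofReal_le_ofReal (hf2 y)
    calc ∫⁻ y, ‖f y‖ₑ ^ (2:ℝ) ≤ ∫⁻ y, ENNReal.ofReal 2 * ‖f y‖ₑ := lintegral_mono h1
      _ = ENNReal.ofReal 2 * ∫⁻ y, ‖f y‖ₑ := lintegral_const_mul' _ _ ENNReal.ofReal_ne_top
      _ ≤ ENNReal.ofReal 2 * ENNReal.ofReal v := by gcongr
      _ = ENNReal.ofReal (2 * v) := (ENNReal.ofReal_mul (by norm_num)).symm
  have hphm : ∀ t, Measurable (ph Φ h c t) := fun t =>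
    (hΦ.const_mul c).sub (hh.const_mul t)
  set S : Set ℝ := {t : ℝ | |t| ≤ C1 * P ^ 2} with hS
  have hSm : MeasurableSet S := measurableSet_le measurable_norm measurable_const
  have hSv : volume S ≤ ENNReal.ofReal (2 * |C1| * P ^ 2) := by
    have h1 : S ⊆ Icc (-(|C1| * P ^ 2)) (|C1| * P ^ 2) := by
      intro t ht
      have h2 : |t| ≤ |C1| * P ^ 2 := ht.trans (by gcongr; exact le_abs_self _)
      exact abs_le.1 h2
    refine (measure_mono h1).trans (le_of_eq ?_)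
    rw [Real.volume_Icc]
    congr 1
    ring
  set F : ℝ × E d → ℝ≥0∞ := fun z => ‖uu f (ph Φ h c z.1) z.2‖ₑ with hF
  have hFm : Measurable F := (measurable_uu d f Φ h c hfi hΦ hh).enorm
  set μ : Measure (ℝ × E d) := (volume.restrict S).prod volume with hμ
  have hprod : ∀ e : ℝ, ∫⁻ z, F z ^ e ∂μ =
      ∫⁻ t in S, ∫⁻ x, ‖uu f (ph Φ h c t) x‖ₑ ^ e := by
    intro e
    rw [hμ, lintegral_prod _ (hFm.pow_const e).aemeasurable]
  have hI2 : ∫⁻ z, F z ^ (2:ℝ) ∂μ ≤ ENNReal.ofReal (M * P ^ 2 * v) := by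
    rw [hprod]
    calc ∫⁻ t in S, ∫⁻ x, ‖uu f (ph Φ h c t) x‖ₑ ^ (2:ℝ)
        ≤ ∫⁻ _ in S, ENNReal.ofReal ((2 * π) ^ d) * ENNReal.ofReal (2 * v) := by
          refine lintegral_mono fun t => ?_
          refine (wn_L2 f hfi _ (hphm t)).trans ?_
          gcongr
      _ = ENNReal.ofReal ((2 * π) ^ d) * ENNReal.ofReal (2 * v) * volume S := by simp
      _ ≤ ENNReal.ofReal ((2 * π) ^ d) * ENNReal.ofReal (2 * v) *
          ENNReal.ofReal (2 * |C1| * P ^ 2) := by gcongr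
      _ = ENNReal.ofReal (M * P ^ 2 * v) := by
          rw [← ENNReal.ofReal_mul (by positivity), ← ENNReal.ofReal_mul (by positivity)]
          congr 1
          rw [hM]
          ring
  have hIq : ∫⁻ z, F z ^ q ∂μ ≤ ENNReal.ofReal (Cr * (2 * v) ^ (q / 2)) := by
    rw [hprod]
    calc ∫⁻ t in S, ∫⁻ x, ‖uu f (ph Φ h c t) x‖ₑ ^ q
        ≤ ∫⁻ t, ∫⁻ x, ‖uu f (ph Φ h c t) x‖ₑ ^ q := setLIntegral_le_lintegral _ _
      _ ≤ C * (∫⁻ y, ‖f y‖ₑ ^ (2 : ℝ)) ^ (q / 2) := hST f Φ h c hfm hf2 hfs hΦ hh hhs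
      _ ≤ C * (ENNReal.ofReal (2 * v)) ^ (q / 2) := by
          gcongr
      _ = ENNReal.ofReal (Cr * (2 * v) ^ (q / 2)) := by
          rw [ENNReal.ofReal_rpow_of_nonneg (by positivity) (by linarith), hCC,
            ← ENNReal.ofReal_mul hCr0]
  have hIp1 : ∫⁻ z, F z ^ p1 ∂μ ≤
      ENNReal.ofReal ((M * P ^ 2 * v) ^ θ * (Cr * (2 * v) ^ (q / 2)) ^ (1 - θ)) := by
    refine (wn_interp μ F hFm q p1 θ hθ0.le hθ1.le (by linarith) hθeq).trans ?_
    rw [ENNReal.ofReal_mul (by positivity), ← ENNReal.ofReal_rpow_of_nonneg (by positivity) hθ0.le,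
      ← ENNReal.ofReal_rpow_of_nonneg (by positivity) (by linarith)]
    gcongr
  have hIp : ∫⁻ z, F z ^ p ∂μ ≤ ENNReal.ofReal (v ^ (p - p1)) * ∫⁻ z, F z ^ p1 ∂μ := by
    rw [← lintegral_const_mul' _ _ ENNReal.ofReal_ne_top]
    refine lintegral_mono fun z => ?_
    have h1 : F z ^ p = F z ^ (p - p1) * F z ^ p1 := by
      rw [← ENNReal.rpow_add_of_nonneg _ _ (by linarith) (by linarith)]
      congr 1
      ring
    rw [h1]
    gcongr
    rw [← ENNReal.ofReal_rpow_of_nonneg hv0 (by linarith)]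
    exact ENNReal.rpow_le_rpow ((wn_sup f _ _).trans hN1) (by linarith)
  rw [← hprod p]
  refine (hIp.trans (mul_le_mul_right hIp1 _)).trans ?_
  rw [← ENNReal.ofReal_mul (by positivity)]
  refine ENNReal.ofReal_le_ofReal ?_
  -- powers of P
  have e0 : v ^ (p - p1) ≤ V ^ (p - p1) := by
    refine Real.rpow_le_rpow hv0 ?_ (by linarith)
    rw [hv]
    calc V * P ^ (-s1) ≤ V * 1 := by
          gcongr
          exact Real.rpow_le_one_of_one_le_of_nonpos hP (by linarith)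
      _ = V := mul_one V
  have e1 : (M * P ^ 2 * v) ^ θ = (M * V) ^ θ * P ^ ((2 - s1) * θ) := by
    have h1 : M * P ^ 2 * v = (M * V) * P ^ (2 - s1) := by
      rw [hv, sub_eq_add_neg, Real.rpow_add hP0, Real.rpow_two]
      ring
    rw [h1, Real.mul_rpow (by positivity) (by positivity), ← Real.rpow_mul hP0.le]
  have e2 : (Cr * (2 * v) ^ (q / 2)) ^ (1 - θ) =
      (Cr * (2 * V) ^ (q / 2)) ^ (1 - θ) * P ^ (-(s1 * (q / 2) * (1 - θ))) := by
    have h1 : Cr * (2 * v) ^ (q / 2) = (Cr * (2 * V) ^ (q / 2)) * P ^ (-(s1 * (q / 2))) := by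
      have h2 : 2 * v = (2 * V) * P ^ (-s1) := by rw [hv]; ring
      rw [h2, Real.mul_rpow (by positivity) (by positivity), ← Real.rpow_mul hP0.le]
      rw [neg_mul]
      ring
    rw [h1, Real.mul_rpow (by positivity) (by positivity), ← Real.rpow_mul hP0.le]
    congr 2
    ring
  have e3 : P ^ ((2 - s1) * θ) * P ^ (-(s1 * (q / 2) * (1 - θ))) = P ^ (-τ) := by
    rw [← Real.rpow_add hP0, hτ]
    congr 1
    ring
  calc v ^ (p - p1) * ((M * P ^ 2 * v) ^ θ * (Cr * (2 * v) ^ (q / 2)) ^ (1 - θ))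
      ≤ V ^ (p - p1) * ((M * P ^ 2 * v) ^ θ * (Cr * (2 * v) ^ (q / 2)) ^ (1 - θ)) := by
        gcongr
    _ = V ^ (p - p1) * ((M * V) ^ θ * (Cr * (2 * V) ^ (q / 2)) ^ (1 - θ)) * P ^ (-τ) := by
        rw [e1, e2, ← e3]
        ring
    _ ≤ (V ^ (p - p1) * ((M * V) ^ θ * (Cr * (2 * V) ^ (q / 2)) ^ (1 - θ)) + 1) * P ^ (-τ) := by
        gcongr
        linarith

end Pool.Agent.GNP
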