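import Mathlib

/-! Row SL: summation over the levels (Hoelder for a series with geometric weights). -/

namespace Pool.Agent.GNP

open MeasureTheory Set
open scoped ENNReal Real

lemma wsl_holder (p τ : ℝ) (hp : 1 < p) (hτ : 0 < τ) : ∃ C : ℝ, 0 < C ∧ ∀ u : ℕ → ℝ≥0∞,
    (∑' k, u k) ^ p ≤ ENNReal.ofReal C * ∑' k : ℕ, ENNReal.ofReal (2 ^ (τ * k)) * u k ^ p := by
  have hp0 : 0 < p := by linarith
  have hpq : p.HolderConjugate (p.conjExponent) := Real.HolderConjugate.conjExponent hp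
  set q := p.conjExponent with hq
  have hq0 : 0 < q := hpq.symm.pos
  -- the weights
  set w : ℕ → ℝ≥0∞ := fun k => ENNReal.ofReal (2 ^ (τ / p * k)) with hw
  set v : ℕ → ℝ≥0∞ := fun k => ENNReal.ofReal (2 ^ (-(τ / p * k))) with hv
  have hvw : ∀ k, v k * w k = 1 := by
    intro k
    rw [hv, hw]
    simp only
    rw [← ENNReal.ofReal_mul (by positivity), ← Real.rpow_add (by norm_num), neg_add_cancel,
      Real.rpow_zero, ENNReal.ofReal_one]
  have hwp : ∀ k, w k ^ p = ENNReal.ofReal (2 ^ (τ * k)) := by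
    intro k
    rw [hw]
    simp only
    rw [ENNReal.ofReal_rpow_of_nonneg (by positivity) hp0.le, ← Real.rpow_mul (by norm_num)]
    congr 2
    field_simp
  -- the sum of the weights
  have hvq : ∀ k, v k ^ q = ENNReal.ofReal ((2 ^ (-(τ / p * q))) ^ k) := by
    intro k
    rw [hv]
    simp only
    rw [ENNReal.ofReal_rpow_of_nonneg (by positivity) hq0.le, ← Real.rpow_mul (by norm_num),
      ← Real.rpow_natCast, ← Real.rpow_mul (by norm_num)]
    congr 2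
    ring
  set ρ : ℝ := 2 ^ (-(τ / p * q)) with hρ
  have hρ0 : 0 ≤ ρ := by positivity
  have hρ1 : ρ < 1 := Real.rpow_lt_one_of_one_lt_of_neg (by norm_num) (by
    have : 0 < τ / p * q := by positivity
    linarith)
  have hsum : ∑' k, v k ^ q = ENNReal.ofReal ((1 - ρ)⁻¹) := by
    simp only [hvq]
    rw [← ENNReal.ofReal_tsum_of_nonneg (fun k => by positivity)
      (summable_geometric_of_lt_one hρ0 hρ1), tsum_geometric_of_lt_one hρ0 hρ1]
  have h1ρ : 0 < (1 - ρ)⁻¹ := inv_pos.2 (by linarith)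
  refine ⟨((1 - ρ)⁻¹) ^ (p / q), by positivity, fun u => ?_⟩
  have hH := ENNReal.lintegral_mul_le_Lp_mul_Lq (Measure.count : Measure ℕ) hpq.symm
    (f := v) (g := fun k => w k * u k) (measurable_of_countable _).aemeasurable
    (measurable_of_countable _).aemeasurable
  rw [lintegral_count, lintegral_count, lintegral_count] at hH
  have h1 : ∀ k, (v * fun k => w k * u k) k = u k := by
    intro k
    rw [Pi.mul_apply, ← mul_assoc, hvw, one_mul]
  simp only [h1, hsum] at hH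
  have h2 : ∀ k, (w k * u k) ^ p = ENNReal.ofReal (2 ^ (τ * k)) * u k ^ p := by
    intro k
    rw [ENNReal.mul_rpow_of_nonneg _ _ hp0.le, hwp]
  simp only [h2] at hH
  calc (∑' k, u k) ^ p ≤ (ENNReal.ofReal ((1 - ρ)⁻¹) ^ (1 / q) *
        (∑' k : ℕ, ENNReal.ofReal (2 ^ (τ * k)) * u k ^ p) ^ (1 / p)) ^ p :=
        ENNReal.rpow_le_rpow hH hp0.le
    _ = _ := by
        rw [ENNReal.mul_rpow_of_nonneg _ _ hp0.le, ← ENNReal.rpow_mul, ← ENNReal.rpow_mul,
          one_div_mul_cancel hp0.ne', ENNReal.rpow_one,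
          ENNReal.ofReal_rpow_of_pos h1ρ]
        congr 3
        ring

/-- Row SL. Summation over the levels. -/
theorem sum_lev {X : Type*} [MeasurableSpace X] (μ : Measure X) (p τ : ℝ) (hp : 1 < p)
    (hτ : 0 < τ) : ∃ C : ℝ, 0 < C ∧ ∀ (f : X → ℂ) (g : ℕ → X → ℂ), (∀ k, Measurable (g k)) →
    (∀ x, Filter.Tendsto (fun K => ∑ k ∈ Finset.range K, g k x) Filter.atTop (nhds (f x))) →
    ∫⁻ x, ‖f x‖ₑ ^ p ∂μ ≤
      ENNReal.ofReal C * ∑' k : ℕ, ENNReal.ofReal (2 ^ (τ * k)) * ∫⁻ x, ‖g k x‖ₑ ^ p ∂μ := by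
  obtain ⟨C, hC, h⟩ := wsl_holder p τ hp hτ
  refine ⟨C, hC, fun f g hg hf => ?_⟩
  have h1 : ∀ x, ‖f x‖ₑ ≤ ∑' k, ‖g k x‖ₑ := by
    intro x
    refine le_of_tendsto' ((hf x).enorm) fun K => ?_
    exact (enorm_sum_le _ _).trans (ENNReal.sum_le_tsum _)
  have h2 : ∀ x, ‖f x‖ₑ ^ p ≤
      ENNReal.ofReal C * ∑' k : ℕ, ENNReal.ofReal (2 ^ (τ * k)) * ‖g k x‖ₑ ^ p := fun x =>
    (ENNReal.rpow_le_rpow (h1 x) (by linarith)).trans (h _)
  have hm : ∀ k : ℕ, Measurable fun x => ENNReal.ofReal (2 ^ (τ * (k : ℝ))) * ‖g k x‖ₑ ^ p := fun k =>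
    ((hg k).enorm.pow_const p).const_mul _
  calc ∫⁻ x, ‖f x‖ₑ ^ p ∂μ ≤
      ∫⁻ x, ENNReal.ofReal C * ∑' k : ℕ, ENNReal.ofReal (2 ^ (τ * k)) * ‖g k x‖ₑ ^ p ∂μ :=
        lintegral_mono h2
    _ = ENNReal.ofReal C * ∑' k : ℕ, ∫⁻ x, ENNReal.ofReal (2 ^ (τ * k)) * ‖g k x‖ₑ ^ p ∂μ := by
        rw [lintegral_const_mul _ (Measurable.tsum hm),
          lintegral_tsum fun k => (hm k).aemeasurable]
    _ = _ := by
        congr 1
        refine tsum_congr fun k => ?_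
        rw [lintegral_const_mul _ ((hg k).enorm.pow_const p)]

end Pool.Agent.GNP
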