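import Pool.Agent.GNP.CoreR
import Pool.Agent.GNP.WMO
import Pool.Agent.GNP.WSL
import Pool.Agent.GNP.WMU
import Pool.Agent.GNP.WNear
import Pool.Agent.GNP.WFar

/-!
ROW CR: rough amplitudes in the chart.
-/

namespace Pool.Agent.GNP

open MeasureTheory Set Pool.Agent.MP_6cbfb8_an
open scoped ENNReal Real RealInnerProductSpace ContDiff

theorem wcr_integrable {d : ℕ} {A : ℕ → ℝ} {r R : ℝ} {f : E d → ℂ} (h : AmpR d A r R f) :
    Integrable f := by
  refine h.sm.continuous.integrable_of_hasCompactSupport ?_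
  refine HasCompactSupport.intro (isCompact_closedBall (0 : E d) r) fun x hx => h.supp x ?_
  simpa using hx

theorem wcr_phase {d : ℕ} {f : E d → ℂ} (hf : Integrable f) {q : E d → ℝ} (hq : Measurable q)
    (x : E d) : Integrable fun y => f y * Complex.exp (((q y - ⟪x, y⟫ : ℝ) : ℂ) * Complex.I) := by
  refine hf.mul_bdd (c := 1) ?_ (Filter.Eventually.of_forall fun y => ?_)
  · have : Measurable fun y : E d => Complex.exp (((q y - ⟪x, y⟫ : ℝ) : ℂ) * Complex.I) := by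
      fun_prop
    exact this.aestronglyMeasurable
  · rw [Complex.norm_exp_ofReal_mul_I]

theorem uu_sub {d : ℕ} {f g : E d → ℂ} (hf : Integrable f) (hg : Integrable g) {q : E d → ℝ}
    (hq : Measurable q) (x : E d) :
    uu (fun y => f y - g y) q x = uu f q x - uu g q x := by
  unfold uu
  rw [← integral_sub (wcr_phase hf hq x) (wcr_phase hg hq x)]
  congr 1
  funext y
  ring

theorem measurable_ph {d : ℕ} {Φ h : E d → ℝ} (hΦ : Measurable Φ) (hh : Measurable h) (c t : ℝ) :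
    Measurable (ph Φ h c t) := by
  unfold ph
  fun_prop

theorem AmpR.weaken {d : ℕ} {A B : ℕ → ℝ} {r r' R R' : ℝ} {f : E d → ℂ} (h : AmpR d A r R f)
    (hr : r ≤ r') (hA : ∀ j, A j * R ^ j ≤ B j * R' ^ j) : AmpR d B r' R' f :=
  ⟨h.sm, fun y hy => h.supp y (lt_of_le_of_lt hr hy), fun j y => (h.bd j y).trans (hA j)⟩

theorem Sm.weaken {d : ℕ} {A B : ℕ → ℝ} {f : E d → ℝ} (h : Sm d A f) (hA : ∀ j, A j ≤ B j) :
    Sm d B f := ⟨h.sm, fun j y => (h.bd j y).trans (hA j)⟩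

/-- Row CR. Rough amplitudes in the chart. -/
theorem core_rough (d : ℕ) (hd : 1 ≤ d) (A : ℕ → ℝ) (r r' b α p s V : ℝ) (hr : 0 < r)
    (hr' : r < r') (hr1 : r' < 1) (hb : 0 < b) (hα : 2 / (d : ℝ) < α) (hαp : α ≤ p - 2)
    (hs0 : (d : ℝ) / (d + 1) < s) (hV : 0 ≤ V) : ∃ K : ℝ≥0∞, K ≠ ⊤ ∧
    ∀ (Φ h : E d → ℝ) (a : E d → ℂ), Sm d A Φ → Sm d A h → (∀ y, ‖y‖ ≤ r' → h y = hs y) →
    Measurable a → (∀ y, ‖a y‖ ≤ 1) → (∀ y, r < ‖y‖ → a y = 0) → BVE d s V a →
    (∀ y, ‖y‖ ≤ r' → ∀ v, ⟪Hs h y v, v⟫ ≤ -(b * ‖v‖ ^ 2)) → ∀ c : ℝ,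
    ∫⁻ t : ℝ, ∫⁻ x, ‖uu a (ph Φ h c t) x‖ₑ ^ p ≤ K * (1 + JJ d r' α (kap d α) Φ h) := by
  have hd0 : (0 : ℝ) < d := by exact_mod_cast hd
  have hs1 : 0 < s := lt_trans (by positivity) hs0
  have hp : 2 * ((d : ℝ) + 1) / d < p := by
    have h1 : 2 * ((d : ℝ) + 1) / d = 2 + 2 / d := by field_simp
    rw [h1]
    linarith
  have hp2 : 2 < p := by
    have : 0 < 2 / (d : ℝ) := by positivity
    linarith
  obtain ⟨r1, hr1a, hr1b⟩ := exists_between hr'
  have hr10 : 0 < r1 := by linarith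
  -- the kernel and its constants
  obtain ⟨η, hη, hη0, hη1⟩ := exists_ker_nn d
  obtain ⟨A0, hA0⟩ := mo_amp d η hη
  obtain ⟨Km, hKm, hmf⟩ := mf_L1 d η hη hη1 s hs1.le
  obtain ⟨Kc, hKc, hconv⟩ := mo_conv d η hη hη1 s hs1.le
  set P0 : ℝ := max 1 (1 / (r1 - r)) with hP0
  have hP01 : 1 ≤ P0 := le_max_left _ _
  have hP02 : 1 / P0 ≤ r1 - r := by
    have h1 : 1 / (r1 - r) ≤ P0 := le_max_right _ _
    have h2 : 0 < r1 - r := by linarith
    rw [div_le_iff₀ (by linarith)]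
    rw [div_le_iff₀ h2] at h1
    linarith
  set A1 : ℕ → ℝ := fun j => max (A j) (|A0 j| * P0 ^ j) with hA1
  have hAA1 : ∀ j, A j ≤ A1 j := fun j => le_max_left _ _
  have hA01 : ∀ j, |A0 j| * P0 ^ j ≤ A1 j := fun j => le_max_right _ _
  have hA02 : ∀ j, A0 j ≤ A1 j := by
    intro j
    calc A0 j ≤ |A0 j| := le_abs_self _
      _ = |A0 j| * 1 := (mul_one _).symm
      _ ≤ |A0 j| * P0 ^ j := by
        gcongr
        exact one_le_pow₀ hP01
      _ ≤ A1 j := hA01 j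
  obtain ⟨K1, hK1, hcore⟩ := core_R d hd A1 r1 r' b α p hr10 hr1b hb hα hαp
  obtain ⟨Kf, τf, C1, hKf, hτf, hC1, hfar⟩ := far_lev d hd A1 r1 r' b p hr10 hr1b hb hp
  obtain ⟨Kn, τn, hKn, hτn, hnear⟩ := near_lev d hd r1 s p C1 (Km * V) hr10 (by linarith)
    (by positivity) hs0 hp
  set τ' : ℝ := min τn τf with hτ'
  have hτ'0 : 0 < τ' := lt_min hτn hτf
  obtain ⟨Cs, hCs, hsum⟩ := sum_lev (X := ℝ × E d) (volume : Measure (ℝ × E d)) p (τ' / 2)
    (by linarith) (by linarith)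
  set S : ℝ≥0∞ := ∑' k : ℕ, ENNReal.ofReal ((Kn + Kf) * 2 ^ (τ' / 2) * ((2 : ℝ) ^ (-(τ' / 2))) ^ k)
    with hS
  have hSfin : S ≠ ⊤ := by
    have h1 : Summable fun k : ℕ => (Kn + Kf) * 2 ^ (τ' / 2) * ((2 : ℝ) ^ (-(τ' / 2))) ^ k := by
      refine (summable_geometric_of_lt_one (by positivity) ?_).mul_left _
      exact Real.rpow_lt_one_of_one_lt_of_neg (by norm_num) (by linarith)
    rw [hS, ← ENNReal.ofReal_tsum_of_nonneg (fun k => by positivity) h1]
    exact ENNReal.ofReal_ne_top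
  refine ⟨ENNReal.ofReal Cs * (K1 + S), ENNReal.mul_ne_top ENNReal.ofReal_ne_top
    (ENNReal.add_ne_top.2 ⟨hK1, hSfin⟩), ?_⟩
  intro Φ h a hΦ hh hhs ham ha1 har hBV hdef c
  have hΦm : Measurable Φ := hΦ.sm.continuous.measurable
  have hhm : Measurable h := hh.sm.continuous.measurable
  set R : ℝ := √(1 + |c|) with hR
  have hR1 : 1 ≤ R := by
    rw [hR, Real.one_le_sqrt]
    linarith [abs_nonneg c]
  have hR2 : R ^ 2 = 1 + |c| := Real.sq_sqrt (by positivity)
  have hPk1 : ∀ k : ℕ, 1 ≤ 2 ^ k * (P0 * R) := by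
    intro k
    have h1 : (1 : ℝ) ≤ 2 ^ k := one_le_pow₀ (by norm_num)
    have h2 : 1 ≤ P0 * R := one_le_mul_of_one_le_of_one_le hP01 hR1
    exact one_le_mul_of_one_le_of_one_le h1 h2
  have hPk2 : ∀ k : ℕ, (2 : ℝ) ^ k ≤ 2 ^ k * (P0 * R) := by
    intro k
    have h2 : 1 ≤ P0 * R := one_le_mul_of_one_le_of_one_le hP01 hR1
    exact le_mul_of_one_le_right (by positivity) h2
  have hPk3 : ∀ k : ℕ, P0 * R ≤ 2 ^ k * (P0 * R) := by
    intro k
    exact le_mul_of_one_le_left (by positivity) (one_le_pow₀ (by norm_num))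
  have hPk4 : ∀ k : ℕ, r + 1 / (2 ^ k * (P0 * R)) ≤ r1 := by
    intro k
    have h1 : 1 / (2 ^ k * (P0 * R)) ≤ 1 / P0 := by
      apply one_div_le_one_div_of_le (by positivity)
      refine le_trans ?_ (hPk3 k)
      exact le_mul_of_one_le_right (by positivity) hR1
    linarith
  have hmoA : ∀ k : ℕ, AmpR d A1 r1 (2 ^ k * (P0 * R)) (mo η a (2 ^ k * (P0 * R))) := by
    intro k
    refine (hA0 a r _ (hPk1 k) ham ha1 har).1.weaken (hPk4 k) fun j => ?_
    have := hPk1 k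
    exact mul_le_mul_of_nonneg_right (hA02 j) (by positivity)
  have hmfA : ∀ k : ℕ, AmpR d A1 r1 (2 ^ k * (P0 * R)) (mf η a (2 ^ k * (P0 * R))) := by
    intro k
    refine (hA0 a r _ (hPk1 k) ham ha1 har).2.weaken (hPk4 k) fun j => ?_
    have := hPk1 k
    exact mul_le_mul_of_nonneg_right (hA02 j) (by positivity)
  -- the levels
  set g : ℕ → ℝ × E d → ℂ := fun k z => Nat.casesOn k
    (uu (mo η a (P0 * R)) (ph Φ h c z.1) z.2)
    (fun k => uu (mf η a (2 ^ k * (P0 * R))) (ph Φ h c z.1) z.2) with hg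
  have hg0 : ∀ z, g 0 z = uu (mo η a (P0 * R)) (ph Φ h c z.1) z.2 := fun z => rfl
  have hgs : ∀ k z, g (k + 1) z = uu (mf η a (2 ^ k * (P0 * R))) (ph Φ h c z.1) z.2 :=
    fun k z => rfl
  have hmo0 : AmpR d A1 r1 (P0 * R) (mo η a (P0 * R)) := by simpa using hmoA 0
  have hgm : ∀ k, Measurable (g k) := by
    intro k
    cases k with
    | zero => exact measurable_uu d _ Φ h c (wcr_integrable hmo0) hΦm hhm
    | succ k => exact measurable_uu d _ Φ h c (wcr_integrable (hmfA k)) hΦm hhm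
  have hpart : ∀ (K : ℕ) z, ∑ k ∈ Finset.range (K + 1), g k z =
      uu (mo η a (2 ^ K * (P0 * R))) (ph Φ h c z.1) z.2 := by
    intro K z
    induction K with
    | zero => simp [hg0]
    | succ K ih =>
      rw [Finset.sum_range_succ, ih, hgs]
      have h1 : mf η a (2 ^ K * (P0 * R)) = fun y => mo η a (2 ^ (K + 1) * (P0 * R)) y -
          mo η a (2 ^ K * (P0 * R)) y := by
        funext y
        rw [mf, pow_succ']
        congr 2
        ring
      rw [h1, uu_sub (wcr_integrable (hmoA (K + 1))) (wcr_integrable (hmoA K))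
        (measurable_ph hΦm hhm c z.1)]
      ring
  have htend : ∀ z : ℝ × E d, Filter.Tendsto (fun K => ∑ k ∈ Finset.range K, g k z) Filter.atTop
      (nhds (uu a (ph Φ h c z.1) z.2)) := by
    intro z
    rw [← Filter.tendsto_add_atTop_iff_nat 1]
    rw [tendsto_iff_norm_sub_tendsto_zero]
    have h1 : ∀ K : ℕ, ‖∑ k ∈ Finset.range (K + 1), g k z - uu a (ph Φ h c z.1) z.2‖ ≤
        Kc * V * ((2 : ℝ) ^ (-s)) ^ K := by
      intro K
      rw [hpart, norm_sub_rev]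
      refine (hconv a (ph Φ h c z.1) V r _ hV (hPk1 K) ham ha1 har hBV
        (measurable_ph hΦm hhm c z.1) z.2).trans ?_
      refine mul_le_mul_of_nonneg_left ?_ (by positivity)
      calc (2 ^ K * (P0 * R)) ^ (-s) ≤ ((2 : ℝ) ^ K) ^ (-s) :=
            Real.rpow_le_rpow_of_nonpos (by positivity) (hPk2 K) (by linarith)
        _ = ((2 : ℝ) ^ (-s)) ^ K := by
            rw [← Real.rpow_natCast, ← Real.rpow_natCast, ← Real.rpow_mul (by norm_num),
              ← Real.rpow_mul (by norm_num), mul_comm]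
    refine squeeze_zero (fun _ => norm_nonneg _) h1 ?_
    have h2 : Filter.Tendsto (fun K : ℕ => ((2 : ℝ) ^ (-s)) ^ K) Filter.atTop (nhds 0) :=
      tendsto_pow_atTop_nhds_zero_of_lt_one (by positivity)
        (Real.rpow_lt_one_of_one_lt_of_neg (by norm_num) (by linarith))
    simpa using h2.const_mul (Kc * V)
  have hmain := hsum (fun z => uu a (ph Φ h c z.1) z.2) g hgm htend
  -- from the product measure to iterated integrals
  have hprod : ∀ f : ℝ × E d → ℂ, Measurable f →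
      ∫⁻ z : ℝ × E d, ‖f z‖ₑ ^ p = ∫⁻ t : ℝ, ∫⁻ x : E d, ‖f (t, x)‖ₑ ^ p := by
    intro f hf
    rw [Measure.volume_eq_prod]
    exact lintegral_prod (μ := volume) (ν := volume) (fun z : ℝ × E d => ‖f z‖ₑ ^ p)
      (hf.enorm.pow_const p).aemeasurable
  have haint : Integrable a := by
    have h1 : IntegrableOn a (Metric.closedBall (0 : E d) r) := by
      refine Measure.integrableOn_of_bounded (M := 1) measure_closedBall_lt_top.ne
        ham.aestronglyMeasurable (Filter.Eventually.of_forall ha1)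
    refine h1.integrable_of_forall_notMem_eq_zero fun y hy => har y ?_
    simpa using hy
  have hfm : Measurable fun z : ℝ × E d => uu a (ph Φ h c z.1) z.2 :=
    measurable_uu d a Φ h c haint hΦm hhm
  rw [hprod _ hfm] at hmain
  -- level zero
  have hlev0 : ∫⁻ z : ℝ × E d, ‖g 0 z‖ₑ ^ p ≤ K1 * (1 + JJ d r' α (kap d α) Φ h) := by
    rw [hprod _ (hgm 0)]
    refine hcore Φ h _ c (hΦ.weaken hAA1) (hh.weaken hAA1) ?_ hdef
    refine (hA0 a r (P0 * R) (by simpa using hPk1 0) ham ha1 har).1.weaken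
      (by simpa using hPk4 0) fun j => ?_
    rw [mul_pow, ← mul_assoc]
    refine mul_le_mul_of_nonneg_right ?_ (by positivity)
    exact (mul_le_mul_of_nonneg_right (le_abs_self _) (by positivity)).trans (hA01 j)
  -- level k + 1
  have hlev : ∀ k : ℕ, ∫⁻ z : ℝ × E d, ‖g (k + 1) z‖ₑ ^ p ≤
      ENNReal.ofReal ((Kn + Kf) * ((2 : ℝ) ^ (-τ')) ^ k) := by
    intro k
    rw [hprod _ (hgm (k + 1))]
    set P : ℝ := 2 ^ k * (P0 * R) with hP
    have hP1 : 1 ≤ P := hPk1 k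
    have hms : MeasurableSet {t : ℝ | |t| ≤ C1 * P ^ 2} := by
      exact measurableSet_le (by fun_prop) measurable_const
    rw [← lintegral_add_compl _ hms]
    have hcompl : {t : ℝ | |t| ≤ C1 * P ^ 2}ᶜ = {t : ℝ | C1 * P ^ 2 < |t|} := by
      ext t
      simp
    rw [hcompl]
    have hfm1 : Measurable (mf η a P) := (hmfA k).sm.continuous.measurable
    have hn := hnear (mf η a P) Φ h c P hP1 hfm1
      (fun y => (mo_le d η hη hη0 hη1 a ha1 P (by linarith) y).2) (hmfA k).supp hΦm hhm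
      (fun y hy => hhs y (by linarith)) (hmf a V r P hV hP1 ham ha1 har hBV).1
    have hcP : 1 + |c| ≤ P ^ 2 := by
      rw [← hR2]
      refine pow_le_pow_left₀ (by positivity) ?_ 2
      refine le_trans ?_ (hPk3 k)
      exact le_mul_of_one_le_left (by positivity) hP01
    have hf := hfar (mf η a P) Φ h c P hP1 hcP (hΦ.weaken hAA1) (hh.weaken hAA1) (hmfA k) hdef
    refine (add_le_add hn hf).trans ?_
    rw [← ENNReal.ofReal_add (by positivity) (by positivity)]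
    refine ENNReal.ofReal_le_ofReal ?_
    have hpow : ∀ τ : ℝ, τ' ≤ τ → P ^ (-τ) ≤ ((2 : ℝ) ^ (-τ')) ^ k := by
      intro τ hτ
      calc P ^ (-τ) ≤ P ^ (-τ') := Real.rpow_le_rpow_of_exponent_le hP1 (by linarith)
        _ ≤ ((2 : ℝ) ^ k) ^ (-τ') :=
            Real.rpow_le_rpow_of_nonpos (by positivity) (hPk2 k) (by linarith)
        _ = ((2 : ℝ) ^ (-τ')) ^ k := by
            rw [← Real.rpow_natCast, ← Real.rpow_natCast, ← Real.rpow_mul (by norm_num),
              ← Real.rpow_mul (by norm_num), mul_comm]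
    have h1 := mul_le_mul_of_nonneg_left (hpow τn (min_le_left _ _)) hKn.le
    have h2 := mul_le_mul_of_nonneg_left (hpow τf (min_le_right _ _)) hKf.le
    linarith
  -- summation
  refine hmain.trans ?_
  rw [mul_assoc]
  refine mul_le_mul_right ?_ _
  rw [tsum_eq_zero_add' ENNReal.summable]
  have e0 : ENNReal.ofReal ((2 : ℝ) ^ (τ' / 2 * ((0 : ℕ) : ℝ))) = 1 := by simp
  rw [e0, one_mul, add_mul]
  refine add_le_add hlev0 ?_
  calc ∑' k : ℕ, ENNReal.ofReal ((2 : ℝ) ^ (τ' / 2 * ((k + 1 : ℕ) : ℝ))) *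
        ∫⁻ z : ℝ × E d, ‖g (k + 1) z‖ₑ ^ p
      ≤ ∑' k : ℕ, ENNReal.ofReal ((Kn + Kf) * 2 ^ (τ' / 2) * ((2 : ℝ) ^ (-(τ' / 2))) ^ k) := by
        refine ENNReal.tsum_le_tsum fun k => ?_
        refine (mul_le_mul_right (hlev k) _).trans (le_of_eq ?_)
        rw [← ENNReal.ofReal_mul (by positivity)]
        congr 1
        have h1 : (2 : ℝ) ^ (τ' / 2 * ((k + 1 : ℕ) : ℝ)) = 2 ^ (τ' / 2) * (2 ^ (τ' / 2)) ^ k := by
          push_cast
          rw [mul_add, mul_one, Real.rpow_add (by norm_num), mul_comm, ← Real.rpow_natCast,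
            ← Real.rpow_mul (by norm_num)]
        have h2 : ((2 : ℝ) ^ (-τ')) ^ k = ((2 : ℝ) ^ (-(τ' / 2))) ^ k * ((2 : ℝ) ^ (-(τ' / 2))) ^ k := by
          rw [← mul_pow, ← Real.rpow_add (by norm_num)]
          congr 2
          ring
        have h3 : ((2 : ℝ) ^ (τ' / 2)) ^ k * ((2 : ℝ) ^ (-(τ' / 2))) ^ k = 1 := by
          rw [← mul_pow, ← Real.rpow_add (by norm_num)]
          simp
        rw [h1, h2]
        linear_combination ((2 : ℝ) ^ (τ' / 2) * (Kn + Kf) * ((2 : ℝ) ^ (-(τ' / 2))) ^ k) * h3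
    _ = S := rfl
    _ = S * 1 := (mul_one _).symm
    _ ≤ S * (1 + JJ d r' α (kap d α) Φ h) := by
        gcongr
        exact le_self_add

end Pool.Agent.GNP
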