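import Pool.Agent.GNP.DefsH
import Pool.Agent.GNP.WCR

/-!
Amplitudes with an `L²`-modulus of continuity: the levels of high frequency.
-/

set_option autoImplicit false

namespace Pool.Agent.GNP

open MeasureTheory Set Pool.Agent.MP_6cbfb8_an
open scoped ENNReal Real RealInnerProductSpace ContDiff

/-- One level of frequencies, small values of the last variable, with the `L²` norm of the
amplitude. -/
theorem near_lev2 (d : ℕ) (hd : 1 ≤ d) (r s p C1 V : ℝ) (hr : 0 < r) (hr1 : r < 1) (hV : 0 ≤ V)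
    (hs0 : (d : ℝ) / (d + 1) < s) (hp : 2 * ((d : ℝ) + 1) / d < p) : ∃ K τ : ℝ, 0 < K ∧ 0 < τ ∧
    ∀ (f : E d → ℂ) (Φ h : E d → ℝ) (c P : ℝ), 1 ≤ P → Measurable f → (∀ y, ‖f y‖ ≤ 2) →
    (∀ y, r < ‖y‖ → f y = 0) → Measurable Φ → Measurable h → (∀ y, ‖y‖ ≤ r → h y = hs y) →
    ∫⁻ y, ‖f y‖ₑ ^ 2 ≤ ENNReal.ofReal (V * P ^ (-s)) →
    ∫⁻ t in {t : ℝ | |t| ≤ C1 * P ^ 2}, ∫⁻ x, ‖uu f (ph Φ h c t) x‖ₑ ^ p ≤
      ENNReal.ofReal (K * P ^ (-τ)) := by
  have hd0 : (0 : ℝ) < d := by exact_mod_cast hd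
  set D : ℝ := 1 / (d : ℝ) with hD
  have hD0 : 0 < D := by positivity
  have hdD : (d : ℝ) * D = 1 := by rw [hD]; field_simp
  set s1 : ℝ := min s 1 with hs1
  have hs1s : s1 ≤ s := min_le_left _ _
  have hs11 : s1 ≤ 1 := min_le_right _ _
  have hcrit : (d : ℝ) / (d + 1) < s1 := by
    refine lt_min hs0 ?_
    rw [div_lt_one (by linarith)]
    linarith
  set δ : ℝ := s1 * (1 + D) - 1 with hδ
  have hδ0 : 0 < δ := by
    have h1 : (d : ℝ) < s1 * (d + 1) := by rwa [div_lt_iff₀ (by linarith)] at hcrit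
    have h2 : (d : ℝ) * D < s1 * (d + 1) * D := mul_lt_mul_of_pos_right h1 hD0
    have h3 : s1 * (d + 1) * D = s1 * (1 + D) := by
      have : s1 * ((d : ℝ) + 1) * D = s1 * (d * D + D) := by ring
      rw [this, hdD]
    rw [hδ]
    linarith
  have hs10 : 0 < s1 := lt_of_le_of_lt (by positivity) hcrit
  set q : ℝ := 2 + 4 * D + 2 * D * δ with hq
  have hp' : 2 + 2 * D < p := by
    have : 2 * ((d : ℝ) + 1) / d = 2 + 2 * D := by rw [hD]; field_simp
    rwa [this] at hp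
  set p1 : ℝ := min p (2 + 3 * D) with hp1
  have hp1p : p1 ≤ p := min_le_left _ _
  have hp1D : p1 ≤ 2 + 3 * D := min_le_right _ _
  have hp1c : 2 + 2 * D < p1 := lt_min hp' (by linarith)
  have hDδ : 0 < D * δ := by positivity
  have hqp : p1 < q := by rw [hq]; nlinarith
  have hq2 : 0 < q - 2 := by rw [hq]; nlinarith
  set θ : ℝ := (q - p1) / (q - 2) with hθ
  have hθ0 : 0 < θ := div_pos (by linarith) hq2
  have hθ1 : θ < 1 := by
    rw [hθ, div_lt_one hq2]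
    linarith
  have hθeq : p1 = 2 * θ + q * (1 - θ) := by
    rw [hθ]
    field_simp
    ring
  set τ : ℝ := s1 * (q / 2) * (1 - θ) - (2 - s1) * θ with hτ
  have hτ0 : 0 < τ := by
    have h1 : τ * (q - 2) = (p1 - 2 - 2 * D) * (2 + s1 * (2 * D + D * δ)) +
        2 * D * (1 + δ) * δ := by
      have h2 : (1 - θ) * (q - 2) = p1 - 2 := by
        rw [hθ]; field_simp; ring
      have h3 : θ * (q - 2) = q - p1 := by
        rw [hθ]; field_simp
      have h4 : τ * (q - 2) = s1 * (q / 2) * ((1 - θ) * (q - 2)) - (2 - s1) * (θ * (q - 2)) := by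
        rw [hτ]; ring
      rw [h4, h2, h3, hq]
      have h5 : s1 * (1 + D) = 1 + δ := by rw [hδ]; ring
      have h6 : s1 * D = 1 + δ - s1 := by linarith
      have h7 : s1 * (1 + D) * δ = (1 + δ) * δ := by rw [h5]
      linear_combination (2 * D) * h7 + (4 * D) * h5
    have h8 : 0 < τ * (q - 2) := by
      rw [h1]
      have : 0 < (p1 - 2 - 2 * D) * (2 + s1 * (2 * D + D * δ)) := by
        apply mul_pos (by linarith)
        positivity
      have : 0 < 2 * D * (1 + δ) * δ := by positivity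
      linarith
    exact (mul_pos_iff_of_pos_right hq2).1 h8
  obtain ⟨C, hC, hST⟩ := st_chart d hd r q hr hr1 (by
    have : 2 * ((d : ℝ) + 2) / d = 2 + 4 * D := by rw [hD]; field_simp; ring
    rw [this, hq]
    linarith)
  set Cr : ℝ := C.toReal with hCr
  have hCr0 : 0 ≤ Cr := ENNReal.toReal_nonneg
  have hCC : C = ENNReal.ofReal Cr := (ENNReal.ofReal_toReal hC).symm
  set M : ℝ := 4 * |C1| * (2 * π) ^ d with hM
  have hM0 : 0 ≤ M := by positivity
  set W : ℝ := 2 * (volume (Metric.closedBall (0 : E d) r)).toReal with hW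
  have hW0 : 0 ≤ W := by positivity
  refine ⟨W ^ (p - p1) * ((M * V) ^ θ * (Cr * (2 * V) ^ (q / 2)) ^ (1 - θ)) + 1, τ,
    by positivity, hτ0, ?_⟩
  intro f Φ h c P hP hfm hf2 hfs hΦ hh hhs hf1
  have hP0 : 0 < P := by linarith
  set v : ℝ := V * P ^ (-s1) with hv
  have hv0 : 0 ≤ v := by positivity
  have hN2 : ∫⁻ y, ‖f y‖ₑ ^ (2:ℝ) ≤ ENNReal.ofReal (2 * v) := by
    simp only [ENNReal.rpow_two]
    refine hf1.trans (ENNReal.ofReal_le_ofReal ?_)
    have h1 : V * P ^ (-s) ≤ v := by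
      rw [hv]
      gcongr
    linarith
  have hN1 : ∫⁻ y, ‖f y‖ₑ ≤ ENNReal.ofReal W := by
    have h1 : ∀ y, ‖f y‖ₑ ≤ Set.indicator (Metric.closedBall (0 : E d) r) (fun _ => 2) y := by
      intro y
      by_cases hy : y ∈ Metric.closedBall (0 : E d) r
      · rw [Set.indicator_of_mem hy, ← ofReal_norm]
        refine (ENNReal.ofReal_le_ofReal (hf2 y)).trans (le_of_eq ?_)
        norm_num
      · rw [Set.indicator_of_notMem hy]
        rw [mem_closedBall_zero_iff, not_le] at hy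
        rw [hfs y hy]
        simp
    refine (lintegral_mono h1).trans ?_
    rw [lintegral_indicator Metric.isClosed_closedBall.measurableSet, lintegral_const,
      Measure.restrict_apply MeasurableSet.univ, univ_inter]
    rw [hW, ENNReal.ofReal_mul (by norm_num), ENNReal.ofReal_toReal measure_closedBall_lt_top.ne]
    norm_num
  have hfi : Integrable f := ⟨hfm.aestronglyMeasurable,
    lt_of_le_of_lt hN1 ENNReal.ofReal_lt_top⟩
  have hphm : ∀ t, Measurable (ph Φ h c t) := fun t =>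
    (hΦ.const_mul c).sub (hh.const_mul t)
  set S : Set ℝ := {t : ℝ | |t| ≤ C1 * P ^ 2} with hS
  have hSm : MeasurableSet S := measurableSet_le measurable_norm measurable_const
  have hSv : volume S ≤ ENNReal.ofReal (2 * |C1| * P ^ 2) := by
    have h1 : S ⊆ Icc (-(|C1| * P ^ 2)) (|C1| * P ^ 2) := by
      intro t ht
      have h2 : |t| ≤ |C1| * P ^ 2 := ht.trans (by gcongr; exact le_abs_self _)
      exact abs_le.1 h2
    refine (measure_mono h1).trans (le_of_eq ?_)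
    rw [Real.volume_Icc]
    congr 1
    ring
  set F : ℝ × E d → ℝ≥0∞ := fun z => ‖uu f (ph Φ h c z.1) z.2‖ₑ with hF
  have hFm : Measurable F := (measurable_uu d f Φ h c hfi hΦ hh).enorm
  set μ : Measure (ℝ × E d) := (volume.restrict S).prod volume with hμ
  have hprod : ∀ e : ℝ, ∫⁻ z, F z ^ e ∂μ =
      ∫⁻ t in S, ∫⁻ x, ‖uu f (ph Φ h c t) x‖ₑ ^ e := by
    intro e
    rw [hμ, lintegral_prod _ (hFm.pow_const e).aemeasurable]
  have hI2 : ∫⁻ z, F z ^ (2:ℝ) ∂μ ≤ ENNReal.ofReal (M * P ^ 2 * v) := by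
    rw [hprod]
    calc ∫⁻ t in S, ∫⁻ x, ‖uu f (ph Φ h c t) x‖ₑ ^ (2:ℝ)
        ≤ ∫⁻ _ in S, ENNReal.ofReal ((2 * π) ^ d) * ENNReal.ofReal (2 * v) := by
          refine lintegral_mono fun t => ?_
          refine (wn_L2 f hfi _ (hphm t)).trans ?_
          gcongr
      _ = ENNReal.ofReal ((2 * π) ^ d) * ENNReal.ofReal (2 * v) * volume S := by simp
      _ ≤ ENNReal.ofReal ((2 * π) ^ d) * ENNReal.ofReal (2 * v) *
          ENNReal.ofReal (2 * |C1| * P ^ 2) := by gcongr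
      _ = ENNReal.ofReal (M * P ^ 2 * v) := by
          rw [← ENNReal.ofReal_mul (by positivity), ← ENNReal.ofReal_mul (by positivity)]
          congr 1
          rw [hM]
          ring
  have hIq : ∫⁻ z, F z ^ q ∂μ ≤ ENNReal.ofReal (Cr * (2 * v) ^ (q / 2)) := by
    rw [hprod]
    calc ∫⁻ t in S, ∫⁻ x, ‖uu f (ph Φ h c t) x‖ₑ ^ q
        ≤ ∫⁻ t, ∫⁻ x, ‖uu f (ph Φ h c t) x‖ₑ ^ q := setLIntegral_le_lintegral _ _
      _ ≤ C * (∫⁻ y, ‖f y‖ₑ ^ (2 : ℝ)) ^ (q / 2) := hST f Φ h c hfm hf2 hfs hΦ hh hhs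
      _ ≤ C * (ENNReal.ofReal (2 * v)) ^ (q / 2) := by
          gcongr
      _ = ENNReal.ofReal (Cr * (2 * v) ^ (q / 2)) := by
          rw [ENNReal.ofReal_rpow_of_nonneg (by positivity) (by linarith), hCC,
            ← ENNReal.ofReal_mul hCr0]
  have hIp1 : ∫⁻ z, F z ^ p1 ∂μ ≤
      ENNReal.ofReal ((M * P ^ 2 * v) ^ θ * (Cr * (2 * v) ^ (q / 2)) ^ (1 - θ)) := by
    refine (wn_interp μ F hFm q p1 θ hθ0.le hθ1.le (by linarith) hθeq).trans ?_
    rw [ENNReal.ofReal_mul (by positivity), ← ENNReal.ofReal_rpow_of_nonneg (by positivity) hθ0.le,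
      ← ENNReal.ofReal_rpow_of_nonneg (by positivity) (by linarith)]
    gcongr
  have hIp : ∫⁻ z, F z ^ p ∂μ ≤ ENNReal.ofReal (W ^ (p - p1)) * ∫⁻ z, F z ^ p1 ∂μ := by
    rw [← lintegral_const_mul' _ _ ENNReal.ofReal_ne_top]
    refine lintegral_mono fun z => ?_
    have h1 : F z ^ p = F z ^ (p - p1) * F z ^ p1 := by
      rw [← ENNReal.rpow_add_of_nonneg _ _ (by linarith) (by linarith)]
      congr 1
      ring
    rw [h1]
    gcongr
    rw [← ENNReal.ofReal_rpow_of_nonneg hW0 (by linarith)]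
    exact ENNReal.rpow_le_rpow ((wn_sup f _ _).trans hN1) (by linarith)
  rw [← hprod p]
  refine (hIp.trans (mul_le_mul_right hIp1 _)).trans ?_
  rw [← ENNReal.ofReal_mul (by positivity)]
  refine ENNReal.ofReal_le_ofReal ?_
  -- powers of P
  have e1 : (M * P ^ 2 * v) ^ θ = (M * V) ^ θ * P ^ ((2 - s1) * θ) := by
    have h1 : M * P ^ 2 * v = (M * V) * P ^ (2 - s1) := by
      rw [hv, sub_eq_add_neg, Real.rpow_add hP0, Real.rpow_two]
      ring
    rw [h1, Real.mul_rpow (by positivity) (by positivity), ← Real.rpow_mul hP0.le]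
  have e2 : (Cr * (2 * v) ^ (q / 2)) ^ (1 - θ) =
      (Cr * (2 * V) ^ (q / 2)) ^ (1 - θ) * P ^ (-(s1 * (q / 2) * (1 - θ))) := by
    have h1 : Cr * (2 * v) ^ (q / 2) = (Cr * (2 * V) ^ (q / 2)) * P ^ (-(s1 * (q / 2))) := by
      have h2 : 2 * v = (2 * V) * P ^ (-s1) := by rw [hv]; ring
      rw [h2, Real.mul_rpow (by positivity) (by positivity), ← Real.rpow_mul hP0.le]
      rw [neg_mul]
      ring
    rw [h1, Real.mul_rpow (by positivity) (by positivity), ← Real.rpow_mul hP0.le]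
    congr 2
    ring
  have e3 : P ^ ((2 - s1) * θ) * P ^ (-(s1 * (q / 2) * (1 - θ))) = P ^ (-τ) := by
    rw [← Real.rpow_add hP0, hτ]
    congr 1
    ring
  calc W ^ (p - p1) * ((M * P ^ 2 * v) ^ θ * (Cr * (2 * v) ^ (q / 2)) ^ (1 - θ))
      = W ^ (p - p1) * ((M * V) ^ θ * (Cr * (2 * V) ^ (q / 2)) ^ (1 - θ)) * P ^ (-τ) := by
        rw [e1, e2, ← e3]
        ring
    _ ≤ (W ^ (p - p1) * ((M * V) ^ θ * (Cr * (2 * V) ^ (q / 2)) ^ (1 - θ)) + 1) * P ^ (-τ) := by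
        gcongr
        linarith

/-! ## Mollification: the error in `L²` -/

/-- Cauchy-Schwarz on a set. -/
theorem hs_cs {d : ℕ} {S : Set (E d)} {g : E d → ℝ≥0∞} (hg : Measurable g) :
    (∫⁻ y in S, g y) ^ 2 ≤ volume S * ∫⁻ y in S, g y ^ 2 := by
  have h1 := ENNReal.lintegral_mul_le_Lp_mul_Lq (volume.restrict S)
    (Real.HolderConjugate.two_two) (f := fun _ => (1 : ℝ≥0∞)) (g := g) aemeasurable_const
    hg.aemeasurable
  have h2 : ∫⁻ y in S, g y ≤ (volume S) ^ (1 / 2 : ℝ) * (∫⁻ y in S, g y ^ 2) ^ (1 / 2 : ℝ) := by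
    refine le_trans (le_of_eq ?_) (h1.trans (le_of_eq ?_))
    · simp
    · simp
  calc (∫⁻ y in S, g y) ^ 2
      ≤ ((volume S) ^ (1 / 2 : ℝ) * (∫⁻ y in S, g y ^ 2) ^ (1 / 2 : ℝ)) ^ 2 := by gcongr
    _ = volume S * ∫⁻ y in S, g y ^ 2 := by
      rw [mul_pow, ← ENNReal.rpow_natCast, ← ENNReal.rpow_natCast, ← ENNReal.rpow_mul,
        ← ENNReal.rpow_mul]
      norm_num

/-- The error of the mollification in `L²`. -/
theorem hs_mo_err {d : ℕ} {η : E d → ℝ} (hη : Ker 1 η) (h1 : ∫ v, η v = 1) {M : ℝ}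
    (hM : ∀ v, |η v| ≤ M) {a : E d → ℂ} (ham : Measurable a) (ha : ∀ y, ‖a y‖ ≤ 1) {s V P : ℝ}
    (hV : BE2 d s V a) (hP : 0 < P) :
    ∫⁻ y, ‖mo η a P y - a y‖ₑ ^ 2 ≤ ENNReal.ofReal
      (M ^ 2 * (volume (Metric.ball (0 : E d) 1)).toReal * V * P ^ (-s)) := by
  have hM0 : 0 ≤ M := (abs_nonneg _).trans (hM 0)
  set om : ℝ := (volume (Metric.ball (0 : E d) 1)).toReal with hom
  have hom0 : 0 ≤ om := ENNReal.toReal_nonneg
  have home : volume (Metric.ball (0 : E d) 1) = ENNReal.ofReal om :=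
    (ENNReal.ofReal_toReal measure_ball_lt_top.ne).symm
  have hpt : ∀ y, ‖mo η a P y - a y‖ₑ ^ 2 ≤ ENNReal.ofReal (M ^ 2 * om * P ^ d) *
      ∫⁻ v in Metric.closedBall y (1 / P), ‖a y - a v‖ₑ ^ 2 := by
    intro y
    have h2 := mo_sub hη h1 hM ham ha hP y
    have h3 := hs_cs (S := Metric.closedBall y (1 / P)) (g := fun v => ‖a y - a v‖ₑ)
      (measurable_const.sub ham).enorm
    have h4 : volume (Metric.closedBall y (1 / P)) = ENNReal.ofReal ((1 / P) ^ d * om) := by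
      rw [Measure.addHaar_closedBall _ _ (by positivity), finrank_euclideanSpace_fin, home,
        ENNReal.ofReal_mul (by positivity)]
    rw [h4] at h3
    calc ‖mo η a P y - a y‖ₑ ^ 2 ≤ (ENNReal.ofReal (M * P ^ d) *
          ∫⁻ v in Metric.closedBall y (1 / P), ‖a y - a v‖ₑ) ^ 2 := by gcongr
      _ = ENNReal.ofReal ((M * P ^ d) ^ 2) *
          (∫⁻ v in Metric.closedBall y (1 / P), ‖a y - a v‖ₑ) ^ 2 := by
        rw [mul_pow, ENNReal.ofReal_pow (by positivity)]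
      _ ≤ ENNReal.ofReal ((M * P ^ d) ^ 2) * (ENNReal.ofReal ((1 / P) ^ d * om) *
          ∫⁻ v in Metric.closedBall y (1 / P), ‖a y - a v‖ₑ ^ 2) := by gcongr
      _ = _ := by
        rw [← mul_assoc, ← ENNReal.ofReal_mul (by positivity)]
        congr 2
        have h5 : P ^ d * (1 / P) ^ d = 1 := by
          rw [← mul_pow, mul_one_div_cancel hP.ne', one_pow]
        calc (M * P ^ d) ^ 2 * ((1 / P) ^ d * om) = M ^ 2 * om * P ^ d * (P ^ d * (1 / P) ^ d) := by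
              ring
          _ = _ := by rw [h5, mul_one]
  refine (lintegral_mono hpt).trans ?_
  rw [lintegral_const_mul' _ _ ENNReal.ofReal_ne_top]
  refine (mul_le_mul_right (hV (1 / P) (by positivity)) _).trans ?_
  rw [← ENNReal.ofReal_mul (by positivity)]
  apply ENNReal.ofReal_le_ofReal
  apply le_of_eq
  have h2 : (1 / P) ^ ((d : ℝ) + s) = (P ^ d)⁻¹ * P ^ (-s) := by
    rw [one_div, Real.inv_rpow hP.le, ← Real.rpow_neg hP.le, neg_add, Real.rpow_add hP,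
      Real.rpow_neg hP.le, Real.rpow_natCast]
  rw [h2]
  have h3 : P ^ d ≠ 0 := by positivity
  field_simp

/-- The pieces of the Littlewood-Paley decomposition in `L²`. -/
theorem hs_mf_L2 (d : ℕ) (η : E d → ℝ) (hη : Ker 1 η) (h1 : ∫ v, η v = 1) (s : ℝ) (hs0 : 0 ≤ s) :
    ∃ K : ℝ, 0 < K ∧ ∀ (a : E d → ℂ) (V P : ℝ), 0 ≤ V → 1 ≤ P → Measurable a →
    (∀ y, ‖a y‖ ≤ 1) → BE2 d s V a →
    ∫⁻ y, ‖mf η a P y‖ₑ ^ 2 ≤ ENNReal.ofReal (K * V * P ^ (-s)) := by
  obtain ⟨M, hM0, hM⟩ := mo_bd hη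
  set om : ℝ := (volume (Metric.ball (0 : E d) 1)).toReal with hom
  have hom0 : 0 ≤ om := ENNReal.toReal_nonneg
  refine ⟨4 * M ^ 2 * om + 1, by positivity, fun a V P hV0 hP ham ha hV => ?_⟩
  have hP0 : 0 < P := by linarith
  have h2 := hs_mo_err hη h1 hM ham ha hV hP0
  have h3 := hs_mo_err hη h1 hM ham ha hV (P := 2 * P) (by positivity)
  rw [← hom] at h2 h3
  have h4 : ∫⁻ y, ‖mf η a P y‖ₑ ^ 2 ≤
      2 * ((∫⁻ y, ‖mo η a (2 * P) y - a y‖ₑ ^ 2) + ∫⁻ y, ‖mo η a P y - a y‖ₑ ^ 2) := by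
    have hm2 : Measurable fun y => ‖mo η a (2 * P) y - a y‖ₑ ^ 2 :=
      (((mo_measurable hη ham (2 * P)).measurable.sub ham)).enorm.pow_const 2
    rw [← lintegral_add_left hm2, ← lintegral_const_mul' _ _ (by norm_num)]
    refine lintegral_mono fun y => ?_
    have h5 : mf η a P y = (mo η a (2 * P) y - a y) - (mo η a P y - a y) := by
      unfold mf
      ring
    have h6 : ‖mf η a P y‖ₑ ≤ ‖mo η a (2 * P) y - a y‖ₑ + ‖mo η a P y - a y‖ₑ := by
      rw [h5]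
      exact enorm_sub_le
    have h7 := ENNReal.rpow_add_le_mul_rpow_add_rpow ‖mo η a (2 * P) y - a y‖ₑ
      ‖mo η a P y - a y‖ₑ (p := 2) (by norm_num)
    have h8 : (2 : ℝ≥0∞) ^ ((2 : ℝ) - 1) = 2 := by norm_num
    rw [h8, ENNReal.rpow_two, ENNReal.rpow_two, ENNReal.rpow_two] at h7
    exact le_trans (by gcongr) h7
  have h9 : ∀ x : ℝ≥0∞, 2 * x = ENNReal.ofReal 2 * x := fun x => by norm_num
  rw [h9] at h4
  refine h4.trans ?_
  refine (mul_le_mul_right (add_le_add h3 h2) _).trans ?_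
  have e1 : 0 ≤ M ^ 2 * om * V := by positivity
  rw [← ENNReal.ofReal_add (by positivity) (by positivity), ← ENNReal.ofReal_mul (by norm_num)]
  apply ENNReal.ofReal_le_ofReal
  have h6 : (2 * P) ^ (-s) ≤ P ^ (-s) :=
    Real.rpow_le_rpow_of_nonpos hP0 (by linarith) (by linarith)
  have h7 : M ^ 2 * om * V * (2 * P) ^ (-s) ≤ M ^ 2 * om * V * P ^ (-s) := by gcongr
  have h8 : 0 ≤ V * P ^ (-s) := by positivity
  have h10 : (4 * M ^ 2 * om + 1) * V * P ^ (-s) = 4 * (M ^ 2 * om * V * P ^ (-s)) +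
      V * P ^ (-s) := by ring
  rw [h10]
  linarith

/-- The integral depends continuously on the scale of the mollification. -/
theorem hs_mo_conv (d : ℕ) (η : E d → ℝ) (hη : Ker 1 η) (h1 : ∫ v, η v = 1) (s r V : ℝ)
    (hV0 : 0 ≤ V) : ∃ K : ℝ, 0 < K ∧
    ∀ (a : E d → ℂ) (q : E d → ℝ) (P : ℝ), 1 ≤ P → Measurable a → (∀ y, ‖a y‖ ≤ 1) →
    (∀ y, r < ‖y‖ → a y = 0) → BE2 d s V a → Measurable q → ∀ x,
      ‖uu a q x - uu (mo η a P) q x‖ ≤ K * P ^ (-(s / 2)) := by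
  obtain ⟨M, hM0, hM⟩ := mo_bd hη
  set om : ℝ := (volume (Metric.ball (0 : E d) 1)).toReal with hom
  have hom0 : 0 ≤ om := ENNReal.toReal_nonneg
  set W : ℝ := (volume (Metric.closedBall (0 : E d) (r + 1))).toReal with hW
  have hW0 : 0 ≤ W := ENNReal.toReal_nonneg
  have hWe : volume (Metric.closedBall (0 : E d) (r + 1)) = ENNReal.ofReal W :=
    (ENNReal.ofReal_toReal measure_closedBall_lt_top.ne).symm
  set T : ℝ := W * (M ^ 2 * om * V) with hT
  have hT0 : 0 ≤ T := by positivity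
  refine ⟨√T + 1, by positivity, fun a q P hP ham ha hr hV hq x => ?_⟩
  have hP0 : 0 < P := by linarith
  have hmm := (mo_measurable hη ham P).measurable
  have hms := mo_supp hη hr hP0
  have hmi : Integrable (mo η a P) := by
    have := (mo_amp d η hη)
    obtain ⟨A0, hA0⟩ := this
    exact wcr_integrable (hA0 a r P hP ham ha hr).1
  have h2 := uu_sub_le hq (amp_int ham ha hr) hmi x
  have h3 : ∫⁻ y, ‖a y - mo η a P y‖ₑ =
      ∫⁻ y in Metric.closedBall (0 : E d) (r + 1), ‖mo η a P y - a y‖ₑ := by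
    rw [← lintegral_indicator Metric.isClosed_closedBall.measurableSet]
    refine lintegral_congr fun y => ?_
    by_cases hy : y ∈ Metric.closedBall (0 : E d) (r + 1)
    · rw [indicator_of_mem hy, ← enorm_neg, neg_sub]
    · rw [indicator_of_notMem hy]
      rw [mem_closedBall_zero_iff, not_le] at hy
      have h4 : 1 / P ≤ 1 := by rw [div_le_one hP0]; exact hP
      rw [hr y (by linarith), hms y (by linarith)]
      simp
  have h4 := hs_cs (S := Metric.closedBall (0 : E d) (r + 1))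
    (g := fun y => ‖mo η a P y - a y‖ₑ) (hmm.sub ham).enorm
  have h5 : ∫⁻ y in Metric.closedBall (0 : E d) (r + 1), ‖mo η a P y - a y‖ₑ ^ 2 ≤
      ENNReal.ofReal (M ^ 2 * om * V * P ^ (-s)) :=
    (setLIntegral_le_lintegral _ _).trans (hs_mo_err hη h1 hM ham ha hV hP0)
  rw [h3] at h2
  have h6 : ‖uu a q x - uu (mo η a P) q x‖ₑ ^ 2 ≤ ENNReal.ofReal (T * P ^ (-s)) := by
    calc ‖uu a q x - uu (mo η a P) q x‖ₑ ^ 2
        ≤ (∫⁻ y in Metric.closedBall (0 : E d) (r + 1), ‖mo η a P y - a y‖ₑ) ^ 2 := by gcongr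
      _ ≤ ENNReal.ofReal W * ENNReal.ofReal (M ^ 2 * om * V * P ^ (-s)) := by
        refine h4.trans ?_
        rw [hWe]
        gcongr
      _ = ENNReal.ofReal (T * P ^ (-s)) := by
        rw [← ENNReal.ofReal_mul hW0]
        congr 1
        rw [hT]
        ring
  have h7 : ‖uu a q x - uu (mo η a P) q x‖ ^ 2 ≤ T * P ^ (-s) := by
    rw [← ofReal_norm, ← ENNReal.ofReal_pow (norm_nonneg _),
      ENNReal.ofReal_le_ofReal_iff (by positivity)] at h6
    exact h6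
  have h8 : T * P ^ (-s) = (√T * P ^ (-(s / 2))) ^ 2 := by
    rw [mul_pow, Real.sq_sqrt hT0, ← Real.rpow_natCast (P ^ (-(s / 2))), ← Real.rpow_mul hP0.le]
    congr 2
    push_cast
    ring
  rw [h8] at h7
  have h9 := abs_le_of_sq_le_sq' h7 (by positivity)
  refine h9.2.trans ?_
  gcongr
  linarith

/-- For every phase `Φ`: a rough amplitude may be replaced by its mollification at any scale
`1/P₁`, `P₀ √(1+|c|) ≤ P₁`. -/
theorem rough_zero2 (d : ℕ) (hd : 1 ≤ d) (A : ℕ → ℝ) (r r' b p s V : ℝ) (hr : 0 < r)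
    (hr' : r < r') (hr1 : r' < 1) (hb : 0 < b) (hp : 2 * ((d : ℝ) + 1) / d < p)
    (hs0 : (d : ℝ) / (d + 1) < s) (_hs1 : s ≤ 1) (hV : 0 ≤ V) (η : E d → ℝ) (hη : Ker 1 η)
    (hη0 : ∀ v, 0 ≤ η v) (hη1 : ∫ v, η v = 1) : ∃ P0 K : ℝ, 1 ≤ P0 ∧ 0 < K ∧
    ∀ (Φ h : E d → ℝ) (a : E d → ℂ), Sm d A Φ → Sm d A h → (∀ y, ‖y‖ ≤ r' → h y = hs y) →
    Measurable a → (∀ y, ‖a y‖ ≤ 1) → (∀ y, r < ‖y‖ → a y = 0) → BE2 d s V a →
    (∀ y, ‖y‖ ≤ r' → ∀ v, ⟪Hs h y v, v⟫ ≤ -(b * ‖v‖ ^ 2)) → ∀ c P1 : ℝ,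
    P0 * √(1 + |c|) ≤ P1 →
    ∫⁻ t : ℝ, ∫⁻ x, ‖uu a (ph Φ h c t) x‖ₑ ^ p ≤ ENNReal.ofReal K *
      (1 + ∫⁻ t : ℝ, ∫⁻ x, ‖uu (mo η a P1) (ph Φ h c t) x‖ₑ ^ p) := by
  have hd0 : (0 : ℝ) < d := by exact_mod_cast hd
  have hs1 : 0 < s := lt_trans (by positivity) hs0
  have hp2 : 2 < p := by
    have h1 : 2 * ((d : ℝ) + 1) / d = 2 + 2 / d := by field_simp
    have : 0 < 2 / (d : ℝ) := by positivity
    linarith
  obtain ⟨r1, hr1a, hr1b⟩ := exists_between hr'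
  have hr10 : 0 < r1 := by linarith
  obtain ⟨A0, hA0⟩ := mo_amp d η hη
  obtain ⟨Km, hKm, hmf⟩ := hs_mf_L2 d η hη hη1 s hs1.le
  obtain ⟨Kc, hKc, hconv⟩ := hs_mo_conv d η hη hη1 s r V hV
  set P0 : ℝ := max 1 (1 / (r1 - r)) with hP0
  have hP01 : 1 ≤ P0 := le_max_left _ _
  have hP02 : 1 / P0 ≤ r1 - r := by
    have h1 : 1 / (r1 - r) ≤ P0 := le_max_right _ _
    have h2 : 0 < r1 - r := by linarith
    rw [div_le_iff₀ (by linarith)]
    rw [div_le_iff₀ h2] at h1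
    linarith
  set A1 : ℕ → ℝ := fun j => max (A j) (A0 j) with hA1
  have hAA1 : ∀ j, A j ≤ A1 j := fun j => le_max_left _ _
  have hA02 : ∀ j, A0 j ≤ A1 j := fun j => le_max_right _ _
  obtain ⟨Kf, τf, C1, hKf, hτf, hC1, hfar⟩ := far_lev d hd A1 r1 r' b p hr10 hr1b hb hp
  obtain ⟨Kn, τn, hKn, hτn, hnear⟩ := near_lev2 d hd r1 s p C1 (Km * V) hr10 (by linarith)
    (by positivity) hs0 hp
  set τ' : ℝ := min τn τf with hτ'
  have hτ'0 : 0 < τ' := lt_min hτn hτf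
  obtain ⟨Cs, hCs, hsum⟩ := sum_lev (X := ℝ × E d) (volume : Measure (ℝ × E d)) p (τ' / 2)
    (by linarith) (by linarith)
  set T : ℝ := ∑' k : ℕ, (Kn + Kf) * 2 ^ (τ' / 2) * ((2 : ℝ) ^ (-(τ' / 2))) ^ k with hT
  have hTs : Summable fun k : ℕ => (Kn + Kf) * 2 ^ (τ' / 2) * ((2 : ℝ) ^ (-(τ' / 2))) ^ k := by
    refine (summable_geometric_of_lt_one (by positivity) ?_).mul_left _
    exact Real.rpow_lt_one_of_one_lt_of_neg (by norm_num) (by linarith)
  have hT0 : 0 ≤ T := tsum_nonneg fun k => by positivity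
  have hTe : ∑' k : ℕ, ENNReal.ofReal ((Kn + Kf) * 2 ^ (τ' / 2) * ((2 : ℝ) ^ (-(τ' / 2))) ^ k) =
      ENNReal.ofReal T := (ENNReal.ofReal_tsum_of_nonneg (fun k => by positivity) hTs).symm
  refine ⟨P0, Cs * (1 + T), hP01, by positivity, ?_⟩
  intro Φ h a hΦ hh hhs ham ha1 har hBV hdef c P1 hP1c
  have hΦm : Measurable Φ := hΦ.sm.continuous.measurable
  have hhm : Measurable h := hh.sm.continuous.measurable
  set R : ℝ := √(1 + |c|) with hR
  have hR1 : 1 ≤ R := by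
    rw [hR, Real.one_le_sqrt]
    linarith [abs_nonneg c]
  have hR2 : R ^ 2 = 1 + |c| := Real.sq_sqrt (by positivity)
  have hP10 : P0 ≤ P1 := (le_mul_of_one_le_right (by positivity) hR1).trans hP1c
  have hP11 : 1 ≤ P1 := hP01.trans hP10
  have hPk1 : ∀ k : ℕ, 1 ≤ 2 ^ k * P1 := by
    intro k
    have h1 : (1 : ℝ) ≤ 2 ^ k := one_le_pow₀ (by norm_num)
    exact one_le_mul_of_one_le_of_one_le h1 hP11
  have hPk2 : ∀ k : ℕ, (2 : ℝ) ^ k ≤ 2 ^ k * P1 := by
    intro k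
    exact le_mul_of_one_le_right (by positivity) hP11
  have hPk3 : ∀ k : ℕ, P1 ≤ 2 ^ k * P1 := by
    intro k
    exact le_mul_of_one_le_left (by positivity) (one_le_pow₀ (by norm_num))
  have hPk4 : ∀ k : ℕ, r + 1 / (2 ^ k * P1) ≤ r1 := by
    intro k
    have h1 : 1 / (2 ^ k * P1) ≤ 1 / P0 :=
      one_div_le_one_div_of_le (by positivity) (hP10.trans (hPk3 k))
    linarith
  have hmoA : ∀ k : ℕ, AmpR d A1 r1 (2 ^ k * P1) (mo η a (2 ^ k * P1)) := by
    intro k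
    refine (hA0 a r _ (hPk1 k) ham ha1 har).1.weaken (hPk4 k) fun j => ?_
    have := hPk1 k
    exact mul_le_mul_of_nonneg_right (hA02 j) (by positivity)
  have hmfA : ∀ k : ℕ, AmpR d A1 r1 (2 ^ k * P1) (mf η a (2 ^ k * P1)) := by
    intro k
    refine (hA0 a r _ (hPk1 k) ham ha1 har).2.weaken (hPk4 k) fun j => ?_
    have := hPk1 k
    exact mul_le_mul_of_nonneg_right (hA02 j) (by positivity)
  -- the levels
  set g : ℕ → ℝ × E d → ℂ := fun k z => Nat.casesOn k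
    (uu (mo η a P1) (ph Φ h c z.1) z.2)
    (fun k => uu (mf η a (2 ^ k * P1)) (ph Φ h c z.1) z.2) with hg
  have hg0 : ∀ z, g 0 z = uu (mo η a P1) (ph Φ h c z.1) z.2 := fun z => rfl
  have hgs : ∀ k z, g (k + 1) z = uu (mf η a (2 ^ k * P1)) (ph Φ h c z.1) z.2 :=
    fun k z => rfl
  have hmo0 : AmpR d A1 r1 P1 (mo η a P1) := by simpa using hmoA 0
  have hgm : ∀ k, Measurable (g k) := by
    intro k
    cases k with
    | zero => exact measurable_uu d _ Φ h c (wcr_integrable hmo0) hΦm hhm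
    | succ k => exact measurable_uu d _ Φ h c (wcr_integrable (hmfA k)) hΦm hhm
  have hpart : ∀ (K : ℕ) z, ∑ k ∈ Finset.range (K + 1), g k z =
      uu (mo η a (2 ^ K * P1)) (ph Φ h c z.1) z.2 := by
    intro K z
    induction K with
    | zero => simp [hg0]
    | succ K ih =>
      rw [Finset.sum_range_succ, ih, hgs]
      have h1 : mf η a (2 ^ K * P1) = fun y => mo η a (2 ^ (K + 1) * P1) y -
          mo η a (2 ^ K * P1) y := by
        funext y
        rw [mf, pow_succ']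
        congr 2
        ring
      rw [h1, uu_sub (wcr_integrable (hmoA (K + 1))) (wcr_integrable (hmoA K))
        (measurable_ph hΦm hhm c z.1)]
      ring
  have htend : ∀ z : ℝ × E d, Filter.Tendsto (fun K => ∑ k ∈ Finset.range K, g k z) Filter.atTop
      (nhds (uu a (ph Φ h c z.1) z.2)) := by
    intro z
    rw [← Filter.tendsto_add_atTop_iff_nat 1]
    rw [tendsto_iff_norm_sub_tendsto_zero]
    have h1 : ∀ K : ℕ, ‖∑ k ∈ Finset.range (K + 1), g k z - uu a (ph Φ h c z.1) z.2‖ ≤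
        Kc * ((2 : ℝ) ^ (-(s / 2))) ^ K := by
      intro K
      rw [hpart, norm_sub_rev]
      refine (hconv a (ph Φ h c z.1) _ (hPk1 K) ham ha1 har hBV
        (measurable_ph hΦm hhm c z.1) z.2).trans ?_
      refine mul_le_mul_of_nonneg_left ?_ (by positivity)
      calc (2 ^ K * P1) ^ (-(s / 2)) ≤ ((2 : ℝ) ^ K) ^ (-(s / 2)) :=
            Real.rpow_le_rpow_of_nonpos (by positivity) (hPk2 K) (by linarith)
        _ = ((2 : ℝ) ^ (-(s / 2))) ^ K := by
            rw [← Real.rpow_natCast, ← Real.rpow_natCast, ← Real.rpow_mul (by norm_num),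
              ← Real.rpow_mul (by norm_num), mul_comm]
    refine squeeze_zero (fun _ => norm_nonneg _) h1 ?_
    have h2 : Filter.Tendsto (fun K : ℕ => ((2 : ℝ) ^ (-(s / 2))) ^ K) Filter.atTop (nhds 0) :=
      tendsto_pow_atTop_nhds_zero_of_lt_one (by positivity)
        (Real.rpow_lt_one_of_one_lt_of_neg (by norm_num) (by linarith))
    simpa using h2.const_mul Kc
  have hmain := hsum (fun z => uu a (ph Φ h c z.1) z.2) g hgm htend
  -- from the product measure to iterated integrals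
  have hprod : ∀ f : ℝ × E d → ℂ, Measurable f →
      ∫⁻ z : ℝ × E d, ‖f z‖ₑ ^ p = ∫⁻ t : ℝ, ∫⁻ x : E d, ‖f (t, x)‖ₑ ^ p := by
    intro f hf
    rw [Measure.volume_eq_prod]
    exact lintegral_prod (μ := volume) (ν := volume) (fun z : ℝ × E d => ‖f z‖ₑ ^ p)
      (hf.enorm.pow_const p).aemeasurable
  have haint : Integrable a := by
    have h1 : IntegrableOn a (Metric.closedBall (0 : E d) r) := by
      refine Measure.integrableOn_of_bounded (M := 1) measure_closedBall_lt_top.ne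
        ham.aestronglyMeasurable (Filter.Eventually.of_forall ha1)
    refine h1.integrable_of_forall_notMem_eq_zero fun y hy => har y ?_
    simpa using hy
  have hfm : Measurable fun z : ℝ × E d => uu a (ph Φ h c z.1) z.2 :=
    measurable_uu d a Φ h c haint hΦm hhm
  rw [hprod _ hfm] at hmain
  -- level k + 1
  have hlev : ∀ k : ℕ, ∫⁻ z : ℝ × E d, ‖g (k + 1) z‖ₑ ^ p ≤
      ENNReal.ofReal ((Kn + Kf) * ((2 : ℝ) ^ (-τ')) ^ k) := by
    intro k
    rw [hprod _ (hgm (k + 1))]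
    set P : ℝ := 2 ^ k * P1 with hP
    have hP1 : 1 ≤ P := hPk1 k
    have hms : MeasurableSet {t : ℝ | |t| ≤ C1 * P ^ 2} := by
      exact measurableSet_le (by fun_prop) measurable_const
    rw [← lintegral_add_compl _ hms]
    have hcompl : {t : ℝ | |t| ≤ C1 * P ^ 2}ᶜ = {t : ℝ | C1 * P ^ 2 < |t|} := by
      ext t
      simp
    rw [hcompl]
    have hfm1 : Measurable (mf η a P) := (hmfA k).sm.continuous.measurable
    have hn := hnear (mf η a P) Φ h c P hP1 hfm1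
      (fun y => (mo_le d η hη hη0 hη1 a ha1 P (by linarith) y).2) (hmfA k).supp hΦm hhm
      (fun y hy => hhs y (by linarith)) (hmf a V P hV hP1 ham ha1 hBV)
    have hcP : 1 + |c| ≤ P ^ 2 := by
      rw [← hR2]
      refine pow_le_pow_left₀ (by positivity) ?_ 2
      refine le_trans ?_ (hPk3 k)
      exact (le_mul_of_one_le_left (by positivity) hP01).trans hP1c
    have hf := hfar (mf η a P) Φ h c P hP1 hcP (hΦ.weaken hAA1) (hh.weaken hAA1) (hmfA k) hdef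
    refine (add_le_add hn hf).trans ?_
    rw [← ENNReal.ofReal_add (by positivity) (by positivity)]
    refine ENNReal.ofReal_le_ofReal ?_
    have hpow : ∀ τ : ℝ, τ' ≤ τ → P ^ (-τ) ≤ ((2 : ℝ) ^ (-τ')) ^ k := by
      intro τ hτ
      calc P ^ (-τ) ≤ P ^ (-τ') := Real.rpow_le_rpow_of_exponent_le hP1 (by linarith)
        _ ≤ ((2 : ℝ) ^ k) ^ (-τ') :=
            Real.rpow_le_rpow_of_nonpos (by positivity) (hPk2 k) (by linarith)
        _ = ((2 : ℝ) ^ (-τ')) ^ k := by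
            rw [← Real.rpow_natCast, ← Real.rpow_natCast, ← Real.rpow_mul (by norm_num),
              ← Real.rpow_mul (by norm_num), mul_comm]
    have h1 := mul_le_mul_of_nonneg_left (hpow τn (min_le_left _ _)) hKn.le
    have h2 := mul_le_mul_of_nonneg_left (hpow τf (min_le_right _ _)) hKf.le
    linarith
  -- summation
  refine hmain.trans ?_
  rw [ENNReal.ofReal_mul hCs.le, mul_assoc]
  refine mul_le_mul_right ?_ _
  rw [tsum_eq_zero_add' ENNReal.summable]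
  have e0 : ENNReal.ofReal ((2 : ℝ) ^ (τ' / 2 * ((0 : ℕ) : ℝ))) = 1 := by simp
  rw [e0, one_mul, hprod _ (hgm 0), ENNReal.ofReal_add zero_le_one hT0, ENNReal.ofReal_one]
  set Z : ℝ≥0∞ := ∫⁻ t : ℝ, ∫⁻ x : E d, ‖uu (mo η a P1) (ph Φ h c t) x‖ₑ ^ p with hZ
  have hZ' : ∫⁻ t : ℝ, ∫⁻ x : E d, ‖g 0 (t, x)‖ₑ ^ p = Z := rfl
  rw [hZ']
  have htail : ∑' k : ℕ, ENNReal.ofReal ((2 : ℝ) ^ (τ' / 2 * ((k + 1 : ℕ) : ℝ))) *
        ∫⁻ z : ℝ × E d, ‖g (k + 1) z‖ₑ ^ p ≤ ENNReal.ofReal T := by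
    rw [← hTe]
    refine ENNReal.tsum_le_tsum fun k => ?_
    refine (mul_le_mul_right (hlev k) _).trans (le_of_eq ?_)
    rw [← ENNReal.ofReal_mul (by positivity)]
    congr 1
    have h1 : (2 : ℝ) ^ (τ' / 2 * ((k + 1 : ℕ) : ℝ)) = 2 ^ (τ' / 2) * (2 ^ (τ' / 2)) ^ k := by
      push_cast
      rw [mul_add, mul_one, Real.rpow_add (by norm_num), mul_comm, ← Real.rpow_natCast,
        ← Real.rpow_mul (by norm_num)]
    have h2 : ((2 : ℝ) ^ (-τ')) ^ k = ((2 : ℝ) ^ (-(τ' / 2))) ^ k * ((2 : ℝ) ^ (-(τ' / 2))) ^ k := by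
      rw [← mul_pow, ← Real.rpow_add (by norm_num)]
      congr 2
      ring
    have h3 : ((2 : ℝ) ^ (τ' / 2)) ^ k * ((2 : ℝ) ^ (-(τ' / 2))) ^ k = 1 := by
      rw [← mul_pow, ← Real.rpow_add (by norm_num)]
      simp
    rw [h1, h2]
    linear_combination ((2 : ℝ) ^ (τ' / 2) * (Kn + Kf) * ((2 : ℝ) ^ (-(τ' / 2))) ^ k) * h3
  calc Z + ∑' k : ℕ, ENNReal.ofReal ((2 : ℝ) ^ (τ' / 2 * ((k + 1 : ℕ) : ℝ))) *
        ∫⁻ z : ℝ × E d, ‖g (k + 1) z‖ₑ ^ p
      ≤ Z + ENNReal.ofReal T := by gcongr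
    _ ≤ (1 + ENNReal.ofReal T) * (1 + Z) := by
        rw [add_mul, one_mul, mul_add, mul_one]
        calc Z + ENNReal.ofReal T ≤ (1 + Z) + (ENNReal.ofReal T + ENNReal.ofReal T * Z) := by
              gcongr
              · exact le_add_self
              · exact le_self_add
          _ = _ := rfl

end Pool.Agent.GNP
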