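-- Pool/Agent/GNP/HSO.lean  (helper86)
import Pool.Agent.GNP.DefsH
import Pool.Agent.GNP.AB1

/-!
Rough amplitudes with an `L²` modulus of continuity: classes of local oscillation.
-/

set_option autoImplicit false

namespace Pool.Agent.GNP

open MeasureTheory Set Pool.Agent.MP_6cbfb8_an
open scoped ENNReal Real RealInnerProductSpace ContDiff Convolution

/-- Cauchy-Schwarz on a set. -/
theorem hso_cs {α : Type*} [MeasurableSpace α] (μ : Measure α) {f : α → ℝ≥0∞} (hf : Measurable f) :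
    (∫⁻ x, f x ∂μ) ^ 2 ≤ μ univ * ∫⁻ x, f x ^ 2 ∂μ := by
  have h := ENNReal.lintegral_mul_le_Lp_mul_Lq μ Real.HolderConjugate.two_two hf.aemeasurable
    (aemeasurable_const (b := (1 : ℝ≥0∞)))
  simp only [Pi.mul_apply, mul_one, ENNReal.one_rpow, lintegral_const, one_mul] at h
  calc (∫⁻ x, f x ∂μ) ^ 2 ≤ ((∫⁻ x, f x ^ (2 : ℝ) ∂μ) ^ (1 / 2 : ℝ) * μ univ ^ (1 / 2 : ℝ)) ^ 2 := by
        gcongr
    _ = (∫⁻ x, f x ^ (2 : ℝ) ∂μ) * μ univ := by
        rw [mul_pow, ← ENNReal.rpow_natCast, ← ENNReal.rpow_natCast, ← ENNReal.rpow_mul,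
          ← ENNReal.rpow_mul]
        norm_num
    _ = μ univ * ∫⁻ x, f x ^ 2 ∂μ := by
        rw [mul_comm]
        congr 1
        refine lintegral_congr fun x => ?_
        rw [← ENNReal.rpow_natCast]
        norm_num

theorem hso_vol {d : ℕ} {ϱ P : ℝ} (hϱ : 0 < ϱ) (hP : 0 < P) (y : E d) :
    volume (Metric.closedBall y (ϱ / P)) =
      ENNReal.ofReal (volume.real (Metric.closedBall (0 : E d) 1) * (ϱ / P) ^ d) := by
  have h4 := vol_ball_scale (d := d) (P := P / ϱ) (by positivity)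
  rw [one_div, inv_div] at h4
  rw [Measure.addHaar_closedBall_center, ← ENNReal.ofReal_toReal
    (measure_closedBall_lt_top (x := (0 : E d)) (r := ϱ / P)).ne, ← measureReal_def, h4]
  congr 1
  rw [div_pow, inv_div, div_pow]
  ring

/-- The square of the mean oscillation. -/
theorem hso_OO_sq {d : ℕ} {ϱ P : ℝ} (hϱ : 0 < ϱ) (hP : 0 < P) {a : E d → ℂ} (ha : Measurable a)
    (y : E d) : OO ϱ a P y ^ 2 ≤
      ENNReal.ofReal ((volume.real (Metric.closedBall (0 : E d) 1) * ϱ ^ d) ^ 2 * P ^ (2 * d)) *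
        ∫⁻ w in Metric.closedBall y (ϱ / P), ∫⁻ v in Metric.closedBall y (ϱ / P),
          ‖a v - a w‖ₑ ^ 2 := by
  set om : ℝ := volume.real (Metric.closedBall (0 : E d) 1) with hom
  have hom0 : 0 ≤ om := measureReal_nonneg
  have hm2 : Measurable fun z : E d × E d => ‖a z.2 - a z.1‖ₑ :=
    ((ha.comp measurable_snd).sub (ha.comp measurable_fst)).enorm
  have hm1 : ∀ w, Measurable fun v => ‖a v - a w‖ₑ := fun w => (ha.sub_const _).enorm
  have hm3 : Measurable fun w => ∫⁻ v in Metric.closedBall y (ϱ / P), ‖a v - a w‖ₑ :=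
    hm2.lintegral_prod_right' (ν := volume.restrict (Metric.closedBall y (ϱ / P)))
  have h1 := hso_cs (volume.restrict (Metric.closedBall y (ϱ / P))) hm3
  have h2 : ∀ w, (∫⁻ v in Metric.closedBall y (ϱ / P), ‖a v - a w‖ₑ) ^ 2 ≤
      volume (Metric.closedBall y (ϱ / P)) *
        ∫⁻ v in Metric.closedBall y (ϱ / P), ‖a v - a w‖ₑ ^ 2 := by
    intro w
    have := hso_cs (volume.restrict (Metric.closedBall y (ϱ / P))) (hm1 w)
    rwa [Measure.restrict_apply_univ] at this
  rw [Measure.restrict_apply_univ] at h1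
  have hv := hso_vol hϱ hP y
  have hvt : volume (Metric.closedBall y (ϱ / P)) ≠ ⊤ := measure_closedBall_lt_top.ne
  have h3 : (∫⁻ w in Metric.closedBall y (ϱ / P), ∫⁻ v in Metric.closedBall y (ϱ / P),
      ‖a v - a w‖ₑ) ^ 2 ≤ volume (Metric.closedBall y (ϱ / P)) ^ 2 *
        ∫⁻ w in Metric.closedBall y (ϱ / P), ∫⁻ v in Metric.closedBall y (ϱ / P),
          ‖a v - a w‖ₑ ^ 2 := by
    refine h1.trans ?_
    rw [sq (volume (Metric.closedBall y (ϱ / P))), mul_assoc]
    refine mul_le_mul_right ?_ _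
    rw [← lintegral_const_mul' _ _ hvt]
    exact lintegral_mono h2
  unfold OO
  rw [mul_pow]
  refine (mul_le_mul_right h3 _).trans (le_of_eq ?_)
  rw [← mul_assoc, hv, ← hom, ← ENNReal.ofReal_pow (by positivity), ← ENNReal.ofReal_pow
    (by positivity), ← ENNReal.ofReal_mul (by positivity)]
  congr 2
  rw [div_pow]
  field_simp
  ring

/-- The mean square of the oscillation. -/
theorem hso_osc_L2 (d : ℕ) (ϱ s : ℝ) (hϱ : 0 < ϱ) : ∃ K : ℝ, 0 < K ∧
    ∀ (a : E d → ℂ) (V P : ℝ), 0 < P → 0 ≤ V → Measurable a → BE2 d s V a →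
      ∫⁻ y, OO ϱ a P y ^ 2 ≤ ENNReal.ofReal (K * V * P ^ (-s)) := by
  set om : ℝ := volume.real (Metric.closedBall (0 : E d) 1) with hom
  have hom0 : 0 < om := by
    rw [hom, measureReal_def]
    exact ENNReal.toReal_pos (Metric.measure_closedBall_pos _ _ one_pos).ne'
      measure_closedBall_lt_top.ne
  refine ⟨(om * ϱ ^ d) ^ 2 * (om * ϱ ^ d) * (2 * ϱ) ^ ((d : ℝ) + s), by positivity,
    fun a V P hP hV ham hBV => ?_⟩
  have hr : 0 < 2 * (ϱ / P) := by positivity
  -- the inner integral is at most `G w`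
  set G : E d → ℝ≥0∞ := fun w => ∫⁻ v in Metric.closedBall w (2 * (ϱ / P)), ‖a w - a v‖ₑ ^ 2
    with hG
  have hGm : Measurable G := by
    have h1 : Measurable fun z : E d × E d =>
        indicator (Metric.closedBall z.1 (2 * (ϱ / P))) (fun v => ‖a z.1 - a v‖ₑ ^ 2) z.2 := by
      have hm : MeasurableSet {z : E d × E d | dist z.2 z.1 ≤ 2 * (ϱ / P)} :=
        measurableSet_le (by fun_prop) measurable_const
      have h2 : Measurable fun z : E d × E d => ‖a z.1 - a z.2‖ₑ ^ 2 :=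
        (((ham.comp measurable_fst).sub (ham.comp measurable_snd)).enorm).pow_const 2
      exact h2.indicator hm
    have := h1.lintegral_prod_right' (ν := (volume : Measure (E d)))
    simpa only [lintegral_indicator Metric.isClosed_closedBall.measurableSet] using this
  have h1 : ∀ y, OO ϱ a P y ^ 2 ≤ ENNReal.ofReal ((om * ϱ ^ d) ^ 2 * P ^ (2 * d)) *
      ∫⁻ w, indicator (Metric.closedBall y (ϱ / P)) G w := by
    intro y
    refine (hso_OO_sq hϱ hP ham y).trans ?_
    rw [lintegral_indicator Metric.isClosed_closedBall.measurableSet, ← hom]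
    refine mul_le_mul_right (setLIntegral_mono' Metric.isClosed_closedBall.measurableSet
      fun w hw => ?_) _
    rw [hG]
    simp only
    have hsub : Metric.closedBall y (ϱ / P) ⊆ Metric.closedBall w (2 * (ϱ / P)) := by
      refine Metric.closedBall_subset_closedBall' ?_
      rw [Metric.mem_closedBall, dist_comm] at hw
      linarith
    refine (lintegral_mono_set hsub).trans (le_of_eq ?_)
    refine lintegral_congr fun v => ?_
    rw [← enorm_neg, neg_sub]
  have h2 : ∫⁻ y, ∫⁻ w, indicator (Metric.closedBall y (ϱ / P)) G w =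
      ENNReal.ofReal (om * (ϱ / P) ^ d) * ∫⁻ w, G w := by
    have hm : Measurable fun z : E d × E d => indicator (Metric.closedBall z.1 (ϱ / P)) G z.2 := by
      have hm : MeasurableSet {z : E d × E d | dist z.2 z.1 ≤ ϱ / P} :=
        measurableSet_le (by fun_prop) measurable_const
      exact (hGm.comp measurable_snd).indicator hm
    rw [lintegral_lintegral_swap hm.aemeasurable, ← lintegral_const_mul' _ _ ENNReal.ofReal_ne_top]
    refine lintegral_congr fun w => ?_
    have h3 : ∀ y, indicator (Metric.closedBall y (ϱ / P)) G w =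
        indicator (Metric.closedBall w (ϱ / P)) (fun _ => G w) y := by
      intro y
      by_cases h : dist w y ≤ ϱ / P
      · rw [indicator_of_mem (by exact h), indicator_of_mem (by
          rw [Metric.mem_closedBall, dist_comm]; exact h)]
      · rw [indicator_of_notMem (by exact h), indicator_of_notMem (by
          rw [Metric.mem_closedBall, dist_comm]; exact h)]
    simp only [h3]
    rw [lintegral_indicator Metric.isClosed_closedBall.measurableSet, setLIntegral_const,
      mul_comm, hso_vol hϱ hP w]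
  calc ∫⁻ y, OO ϱ a P y ^ 2
      ≤ ∫⁻ y, ENNReal.ofReal ((om * ϱ ^ d) ^ 2 * P ^ (2 * d)) *
          ∫⁻ w, indicator (Metric.closedBall y (ϱ / P)) G w := lintegral_mono h1
    _ = ENNReal.ofReal ((om * ϱ ^ d) ^ 2 * P ^ (2 * d)) *
          (ENNReal.ofReal (om * (ϱ / P) ^ d) * ∫⁻ w, G w) := by
        rw [lintegral_const_mul' _ _ ENNReal.ofReal_ne_top, h2]
    _ ≤ ENNReal.ofReal ((om * ϱ ^ d) ^ 2 * P ^ (2 * d)) * (ENNReal.ofReal (om * (ϱ / P) ^ d) *
          ENNReal.ofReal (V * (2 * (ϱ / P)) ^ ((d : ℝ) + s))) := by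
        gcongr
        exact hBV _ hr
    _ = ENNReal.ofReal ((om * ϱ ^ d) ^ 2 * (om * ϱ ^ d) * (2 * ϱ) ^ ((d : ℝ) + s) * V *
          P ^ (-s)) := by
        rw [← ENNReal.ofReal_mul (by positivity), ← ENNReal.ofReal_mul (by positivity)]
        congr 1
        have e1 : (2 * (ϱ / P)) ^ ((d : ℝ) + s) =
            (2 * ϱ) ^ ((d : ℝ) + s) * (P ^ d)⁻¹ * P ^ (-s) := by
          rw [← mul_div_assoc, Real.div_rpow (by positivity) hP.le, div_eq_mul_inv,
            ← Real.rpow_neg hP.le, neg_add, Real.rpow_add hP, Real.rpow_neg hP.le,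
            Real.rpow_natCast]
          ring
        rw [e1, div_pow, pow_mul']
        have : P ^ d ≠ 0 := by positivity
        field_simp

/-- Classes of local oscillation, for every bounded amplitude. -/
theorem hso_gen (d : ℕ) (κ : ℝ) (η : E d → ℝ) (hη : Ker 1 η)
    (h1 : ∫ v, η v = 1) : ∃ A : ℕ → ℝ,
    ∀ (a : E d → ℂ) (r P : ℝ), 1 ≤ P → Measurable a → (∀ y, ‖a y‖ ≤ 1) →
    (∀ y, r < ‖y‖ → a y = 0) → ∀ I : ℕ,
    ∃ b : ℕ → E d → ℂ,
      (∀ y, mf η a P y = ∑ i ∈ Finset.range (I + 1), b i y) ∧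
      ∀ i, i ≤ I → AmpR d A (r + 1 / P) P (fun y => ((2 ^ i : ℝ) : ℂ) * b i y) ∧
        (i < I → ∀ y, b i y ≠ 0 → Metric.closedBall y (κ / P) ⊆
          {y | ENNReal.ofReal ((2 ^ i)⁻¹) ≤ OO (4 + κ) a P y}) := by
  obtain ⟨ρ, hρ, hρ0, hρ1⟩ := exists_ker_nn d
  obtain ⟨A1, hA10, hA1⟩ := osc_deriv d η hη h1
  choose A2 hA20 hA2 using fun j => mo_der hρ j
  obtain ⟨A3, hA3⟩ := mo_amp d η hη
  obtain ⟨C0, hC0, hC0b⟩ := OO_le d 1 one_pos
  set C1 : ℝ := max 2 C0 with hC1
  have hC10 : 0 < C1 := lt_max_of_lt_left two_pos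
  refine ⟨fun j => C1 * ∑ l ∈ Finset.range (j + 1), (j.choose l : ℝ) * A1 l * A2 (j - l),
    fun a r P hP ham ha har I => ?_⟩
  have hP0 : 0 < P := by linarith
  have hind : ∀ i y, ‖indicator (Dc a P I i) (fun _ => (1 : ℂ)) y‖ ≤ 1 := by
    intro i y
    by_cases h : y ∈ Dc a P I i
    · simp [indicator_of_mem h]
    · simp [indicator_of_notMem h]
  have hindm : ∀ i, Measurable (indicator (Dc a P I i) fun _ => (1 : ℂ)) := fun i =>
    measurable_const.indicator (measurableSet_Dc ham P I i)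
  set ψ : ℕ → E d → ℂ := fun i => mo ρ (indicator (Dc a P I i) fun _ => (1 : ℂ)) P with hψ
  have hψs : ∀ i, ContDiff ℝ ∞ (ψ i) := fun i => mo_contDiff' hρ (hindm i) (hind i) hP0
  have hψd : ∀ i j y, ‖iteratedFDeriv ℝ j (ψ i) y‖ ≤ A2 j * P ^ j := fun i j y =>
    hA2 j _ P hP0 (bv1_li (hindm i) (hind i)) (hind i) y
  have hψ1 : ∀ y, ∑ i ∈ Finset.range (I + 1), ψ i y = 1 := by
    intro y
    simp only [hψ]
    unfold mo
    rw [← integral_finsetSum _ fun i _ => bv1_ki hρ (hindm i) (hind i) hP0 y]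
    simp only [← Finset.mul_sum, Dc_part, mul_one]
    rw [integral_complex_ofReal, mo_one hρ1 hP0 y]
    simp
  have hamp := (hA3 a r P hP ham ha har).2
  refine ⟨fun i y => mf η a P y * ψ i y, ?_, ?_⟩
  · intro y
    rw [← Finset.mul_sum, hψ1, mul_one]
  · intro i hi
    have hψ0 : ∀ y, ψ i y ≠ 0 → ∃ z ∈ Dc a P I i, ‖y - z‖ ≤ 1 / P := by
      intro y hy
      by_contra hcon
      push Not at hcon
      exact hy (mo_ind_zero hρ hP0 hcon)
    refine ⟨⟨?_, ?_, ?_⟩, ?_⟩
    · exact contDiff_const.mul (hamp.sm.mul (hψs i))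
    · intro y hy
      simp only
      rw [hamp.supp y hy, zero_mul, mul_zero]
    · intro j y
      by_cases hz : ∃ z ∈ Dc a P I i, ‖y - z‖ ≤ 2 / P
      · obtain ⟨z, hzD, hyz⟩ := hz
        -- the oscillation at `y`
        have h3 : OO 1 a P y ≤ ENNReal.ofReal (C1 * (2 ^ i)⁻¹) := by
          rcases Nat.eq_zero_or_pos i with rfl | hi0
          · refine (hC0b a P hP0 ha y).trans (ENNReal.ofReal_le_ofReal ?_)
            rw [pow_zero, inv_one, mul_one]
            exact le_max_right _ _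
          · have h4 : OO 1 a P y ≤ OO 3 a P z := OO_mono a (by
              have : ((3 : ℝ) - 1) / P = 2 / P := by norm_num
              rwa [this])
            refine (h4.trans (hzD.2 hi0).le).trans (ENNReal.ofReal_le_ofReal ?_)
            have h5 : ((2 : ℝ) ^ (i - 1))⁻¹ = 2 * (2 ^ i)⁻¹ := by
              obtain ⟨k, rfl⟩ : ∃ k, i = k + 1 := ⟨i - 1, by omega⟩
              rw [Nat.add_sub_cancel, pow_succ]
              field_simp
            rw [h5]
            exact mul_le_mul_of_nonneg_right (le_max_left _ _) (by positivity)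
        have h4 : ∀ l, ‖iteratedFDeriv ℝ l (mf η a P) y‖ ≤ A1 l * P ^ l * (C1 * (2 ^ i)⁻¹) := by
          intro l
          have h5 := (hA1 a P hP0 ham ha l y).trans (mul_le_mul_right h3 _)
          have h6 : 0 ≤ A1 l * P ^ l := mul_nonneg (hA10 l) (by positivity)
          rw [← ENNReal.ofReal_mul h6, ← ofReal_norm, ENNReal.ofReal_le_ofReal_iff
            (mul_nonneg h6 (by positivity))] at h5
          exact h5
        have h5 : iteratedFDeriv ℝ j (fun y => ((2 ^ i : ℝ) : ℂ) * (mf η a P y * ψ i y)) y =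
            (2 ^ i : ℝ) • iteratedFDeriv ℝ j (fun y => mf η a P y * ψ i y) y := by
          have h6 : (fun y => ((2 ^ i : ℝ) : ℂ) * (mf η a P y * ψ i y)) =
              fun y => (2 ^ i : ℝ) • (mf η a P y * ψ i y) := by
            funext y
            rw [Complex.real_smul]
          rw [h6]
          exact iteratedFDeriv_const_smul_apply'
            (((hamp.sm.mul (hψs i)).of_le (by exact_mod_cast le_top)).contDiffAt)
        rw [h5, norm_smul, Real.norm_of_nonneg (by positivity)]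
        have h6 := norm_iteratedFDeriv_mul_le (n := j) hamp.sm (hψs i) y
          (by exact_mod_cast le_top)
        calc (2 : ℝ) ^ i * ‖iteratedFDeriv ℝ j (fun y => mf η a P y * ψ i y) y‖
            ≤ 2 ^ i * ∑ l ∈ Finset.range (j + 1), (j.choose l : ℝ) *
                (A1 l * P ^ l * (C1 * (2 ^ i)⁻¹)) * (A2 (j - l) * P ^ (j - l)) := by
              refine mul_le_mul_of_nonneg_left (h6.trans (Finset.sum_le_sum fun l _ => ?_))
                (by positivity)
              exact mul_le_mul (mul_le_mul_of_nonneg_left (h4 l) (Nat.cast_nonneg _))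
                (hψd i (j - l) y) (norm_nonneg _)
                (mul_nonneg (Nat.cast_nonneg _) ((norm_nonneg _).trans (h4 l)))
          _ = C1 * (∑ l ∈ Finset.range (j + 1), (j.choose l : ℝ) * A1 l * A2 (j - l)) * P ^ j := by
              rw [Finset.mul_sum, Finset.mul_sum, Finset.sum_mul]
              refine Finset.sum_congr rfl fun l hl => ?_
              rw [Finset.mem_range] at hl
              have h9 : P ^ j = P ^ l * P ^ (j - l) := by
                rw [← pow_add]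
                congr 1
                omega
              rw [h9]
              field_simp
      · push Not at hz
        have h3 : (fun y => ((2 ^ i : ℝ) : ℂ) * (mf η a P y * ψ i y)) =ᶠ[nhds y] fun _ => 0 := by
          filter_upwards [Metric.ball_mem_nhds y (ε := 1 / P) (by positivity)] with y' hy'
          have h4 : ψ i y' = 0 := by
            refine mo_ind_zero hρ hP0 fun z hzD => ?_
            have h5 := hz z hzD
            rw [Metric.mem_ball, dist_comm, dist_eq_norm] at hy'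
            have h6 : ‖y - z‖ ≤ ‖y - y'‖ + ‖y' - z‖ := by
              have := norm_add_le (y - y') (y' - z)
              rwa [sub_add_sub_cancel] at this
            have h7 : 2 / P = 1 / P + 1 / P := by ring
            linarith
          rw [h4, mul_zero, mul_zero]
        rw [(h3.iteratedFDeriv ℝ j).eq_of_nhds, iteratedFDeriv_fun_zero]
        simp only [Pi.zero_apply, norm_zero]
        have h8 : 0 ≤ ∑ l ∈ Finset.range (j + 1), (j.choose l : ℝ) * A1 l * A2 (j - l) :=
          Finset.sum_nonneg fun l _ => mul_nonneg (mul_nonneg (Nat.cast_nonneg _) (hA10 l))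
            (hA20 _)
        positivity
    · intro h y hy
      obtain ⟨z, hzD, hyz⟩ := hψ0 y (right_ne_zero_of_mul hy)
      intro y' hy'
      refine (hzD.1 h).trans (OO_mono a ?_)
      rw [Metric.mem_closedBall, dist_eq_norm] at hy'
      have h6 : ‖z - y'‖ ≤ ‖z - y‖ + ‖y - y'‖ := by
        have := norm_add_le (z - y) (y - y')
        rwa [sub_add_sub_cancel] at this
      rw [norm_sub_rev z y, norm_sub_rev y y'] at h6
      have h7 : (4 + κ - 3) / P = 1 / P + κ / P := by ring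
      linarith

/-- Chebyshev with the square. -/
theorem hso_cheb (d : ℕ) (ϱ s : ℝ) (hϱ : 0 < ϱ) : ∃ K : ℝ, 0 < K ∧
    ∀ (a : E d → ℂ) (V P : ℝ), 0 < P → 0 ≤ V → Measurable a → BE2 d s V a → ∀ t : ℝ, 0 < t →
      volume {y | ENNReal.ofReal t⁻¹ ≤ OO ϱ a P y} ≤
        ENNReal.ofReal (K * V * t ^ 2 * P ^ (-s)) := by
  obtain ⟨K, hK, hKb⟩ := hso_osc_L2 d ϱ s hϱ
  refine ⟨K, hK, fun a V P hP hV ham hBV t ht => ?_⟩
  have h3 := mul_meas_ge_le_lintegral (μ := volume) ((measurable_OO ϱ ham P).pow_const 2)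
    (ENNReal.ofReal t⁻¹ ^ 2)
  have h4 := h3.trans (hKb a V P hP hV ham hBV)
  have h5 : {y | ENNReal.ofReal t⁻¹ ≤ OO ϱ a P y} ⊆
      {y | ENNReal.ofReal t⁻¹ ^ 2 ≤ OO ϱ a P y ^ 2} := fun y hy => by
    simp only [mem_ofPred_eq] at hy ⊢
    gcongr
  calc volume {y | ENNReal.ofReal t⁻¹ ≤ OO ϱ a P y}
      ≤ volume {y | ENNReal.ofReal t⁻¹ ^ 2 ≤ OO ϱ a P y ^ 2} := measure_mono h5
    _ = ENNReal.ofReal (t ^ 2) * (ENNReal.ofReal t⁻¹ ^ 2 *
          volume {y | ENNReal.ofReal t⁻¹ ^ 2 ≤ OO ϱ a P y ^ 2}) := by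
        rw [← mul_assoc, ← ENNReal.ofReal_pow (by positivity), ← ENNReal.ofReal_mul (by positivity),
          ← mul_pow, mul_inv_cancel₀ ht.ne', one_pow, ENNReal.ofReal_one, one_mul]
    _ ≤ ENNReal.ofReal (t ^ 2) * ENNReal.ofReal (K * V * P ^ (-s)) := mul_le_mul_right h4 _
    _ = _ := by
        rw [← ENNReal.ofReal_mul (by positivity)]
        congr 1
        ring

/-- **(OC2)** Classes of local oscillation for amplitudes with an `L²` modulus of continuity. -/
theorem hso_classes_s (d : ℕ) (κ s : ℝ) (hκ : 0 < κ) (η : E d → ℝ) (hη : Ker 1 η)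
    (h1 : ∫ v, η v = 1) : ∃ (A : ℕ → ℝ) (K : ℝ), 0 < K ∧
    ∀ (a : E d → ℂ) (V r P : ℝ), 0 ≤ V → 1 ≤ P → Measurable a → (∀ y, ‖a y‖ ≤ 1) →
    (∀ y, r < ‖y‖ → a y = 0) → BE2 d s V a → ∀ I : ℕ,
    ∃ (b : ℕ → E d → ℂ) (Z : ℕ → Set (E d)),
      (∀ y, mf η a P y = ∑ i ∈ Finset.range (I + 1), b i y) ∧
      ∀ i, i ≤ I → AmpR d A (r + 1 / P) P (fun y => ((2 ^ i : ℝ) : ℂ) * b i y) ∧
        MeasurableSet (Z i) ∧ (∀ y, b i y ≠ 0 → Metric.closedBall y (κ / P) ⊆ Z i) ∧
        (i < I → volume (Z i) ≤ ENNReal.ofReal (K * V * (2 ^ i) ^ 2 * P ^ (-s))) := by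
  obtain ⟨A, hA⟩ := hso_gen d κ η hη h1
  obtain ⟨K, hK, hKb⟩ := hso_cheb d (4 + κ) s (by linarith)
  refine ⟨A, K, hK, fun a V r P hV hP ham ha har hBV I => ?_⟩
  obtain ⟨b, hb, hb2⟩ := hA a r P hP ham ha har I
  refine ⟨b, fun i => if i < I then {y | ENNReal.ofReal ((2 ^ i)⁻¹) ≤ OO (4 + κ) a P y} else univ,
    hb, fun i hi => ⟨(hb2 i hi).1, ?_, ?_, ?_⟩⟩
  · simp only
    split_ifs with h
    · exact measurableSet_le measurable_const (measurable_OO _ ham P)
    · exact MeasurableSet.univ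
  · intro y hy
    simp only
    split_ifs with h
    · exact (hb2 i hi).2 h y hy
    · exact subset_univ _
  · intro hiI
    simp only [hiI, if_true]
    exact hKb a V P (by linarith) hV ham hBV (2 ^ i) (by positivity)

/-- **(OC2)** in the form of the skeleton. -/
theorem osc2 (d : ℕ) (η : E d → ℝ) (hη : Ker 1 η) (_hη0 : ∀ v, 0 ≤ η v) (hη1 : ∫ v, η v = 1)
    (κ0 r s V : ℝ) (hκ0 : 0 < κ0) (_hr : 0 < r) (_hs : 0 < s) (hs1 : s ≤ 1) (hV : 0 ≤ V) :
    ∃ (A' : ℕ → ℝ) (K : ℝ), 0 < K ∧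
    ∀ (a : E d → ℂ) (P : ℝ) (I : ℕ), 1 ≤ P → P ≤ 2 ^ I → Measurable a → (∀ y, ‖a y‖ ≤ 1) →
      (∀ y, r < ‖y‖ → a y = 0) → BE2 d s V a → ∃ (f : ℕ → E d → ℂ) (G : ℕ → Set (E d)),
        (∀ y, mf η a P y = ∑ i ∈ Finset.range (I + 1), ((((2 : ℝ) ^ i)⁻¹ : ℝ) : ℂ) * f i y) ∧
        ∀ i ≤ I, AmpR d A' (r + 1 / P) P (f i) ∧ MeasurableSet (G i) ∧
          (∀ y, f i y ≠ 0 → Metric.closedBall y (κ0 / P) ⊆ G i) ∧
          volume (G i) ≤ ENNReal.ofReal (K * 4 ^ i * P ^ (-s)) ∧
          volume (G i) ≤ ENNReal.ofReal K := by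
  obtain ⟨A, K, hK, H⟩ := hso_classes_s d κ0 s hκ0 η hη hη1
  set U : ℝ := (volume (Metric.closedBall (0 : E d) (r + 1 + κ0))).toReal with hU
  have hU0 : 0 ≤ U := ENNReal.toReal_nonneg
  have hUv : volume (Metric.closedBall (0 : E d) (r + 1 + κ0)) = ENNReal.ofReal U :=
    (ENNReal.ofReal_toReal measure_closedBall_lt_top.ne).symm
  refine ⟨A, K * V + U + 1, by positivity, fun a P I hP hPI ham ha har hBV => ?_⟩
  have hP0 : 0 < P := by linarith
  obtain ⟨b, Z, h1, h2⟩ := H a V r P hV hP ham ha har hBV I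
  refine ⟨fun i y => ((2 ^ i : ℝ) : ℂ) * b i y,
    fun i => Z i ∩ Metric.closedBall 0 (r + 1 + κ0), fun y => ?_, fun i hi => ?_⟩
  · rw [h1 y]
    refine Finset.sum_congr rfl fun i _ => ?_
    rw [← mul_assoc, ← Complex.ofReal_mul, inv_mul_cancel₀ (by positivity), Complex.ofReal_one,
      one_mul]
  · obtain ⟨k1, k2, k3, k4⟩ := h2 i hi
    have hvU : volume (Z i ∩ Metric.closedBall (0 : E d) (r + 1 + κ0)) ≤ ENNReal.ofReal U :=
      (measure_mono inter_subset_right).trans hUv.le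
    refine ⟨k1, k2.inter Metric.isClosed_closedBall.measurableSet, ?_, ?_, ?_⟩
    · intro y hy
      refine subset_inter (k3 y (right_ne_zero_of_mul hy)) ?_
      have hy1 : ‖y‖ ≤ r + 1 / P := by
        by_contra hcon
        exact hy (k1.supp y (not_le.1 hcon))
      refine Metric.closedBall_subset_closedBall' ?_
      rw [dist_zero_right]
      have e1 : 1 / P ≤ 1 := by rw [div_le_one hP0]; exact hP
      have e2 : κ0 / P ≤ κ0 := div_le_self hκ0.le hP
      linarith
    · rcases Nat.lt_or_ge i I with hlt | hge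
      · refine ((measure_mono inter_subset_left).trans (k4 hlt)).trans (ENNReal.ofReal_le_ofReal ?_)
        have e1 : ((2 : ℝ) ^ i) ^ 2 = 4 ^ i := by rw [← pow_mul, mul_comm, pow_mul]; norm_num
        rw [e1]
        have : 0 ≤ P ^ (-s) := by positivity
        have h5 : K * V ≤ K * V + U + 1 := by linarith
        gcongr
      · have hiI : i = I := le_antisymm hi hge
        subst hiI
        refine hvU.trans (ENNReal.ofReal_le_ofReal ?_)
        have h5 : 1 ≤ (4 : ℝ) ^ i * P ^ (-s) := by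
          have e1 : P ^ s ≤ P ^ (1 : ℝ) := Real.rpow_le_rpow_of_exponent_le hP hs1
          rw [Real.rpow_one] at e1
          have e2 : P ^ (-s) = (P ^ s)⁻¹ := Real.rpow_neg hP0.le s
          have e3 : 0 < P ^ s := by positivity
          have e4 : (2 : ℝ) ^ i ≤ 4 ^ i := by gcongr; norm_num
          rw [e2, ← div_eq_mul_inv, le_div_iff₀ e3]
          linarith
        have h6 : U ≤ K * V + U + 1 := by
          have : 0 ≤ K * V := by positivity
          linarith
        calc U ≤ (K * V + U + 1) * 1 := by linarith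
          _ ≤ (K * V + U + 1) * ((4 : ℝ) ^ i * P ^ (-s)) :=
            mul_le_mul_of_nonneg_left h5 (by positivity)
          _ = _ := by ring
    · refine hvU.trans (ENNReal.ofReal_le_ofReal ?_)
      have : 0 ≤ K * V := by positivity
      linarith

end Pool.Agent.GNP
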