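import Pool.Agent.GNP.NB1
import Pool.Agent.GNP.Defs6
import Pool.Agent.GNP.TP

/-!
NB3: one smooth function at the scale `1/P`, every phase.
-/

namespace Pool.Agent.GNP

open MeasureTheory Set Pool.Agent.MP_6cbfb8_an
open scoped ENNReal Real RealInnerProductSpace ContDiff

/-- The statement of `cell_bv`. -/
def CellBV (d : ℕ) (p : ℝ) : Prop := ∃ C : ℕ,
    ∀ (A B : ℕ → ℝ) (b r : ℝ) (D n0 : ℕ), 0 < b → 0 < r → ∃ K0 : ℝ, 1 ≤ K0 ∧ ∀ K, K0 ≤ K →
    ∀ (Φ h : E d → ℝ) (P P' : MvPolynomial (Fin d) ℝ) (z : E d) (c R : ℝ) (S : Set (E d)),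
      Sm d A Φ → Sm d A h → P.totalDegree ≤ D → P'.totalDegree ≤ D →
      (∀ y, ‖y - z‖ ≤ 2 * r → Φ y = pe P y ∧ h y = pe P' y) → DfB b z (2 * r) h → ‖z‖ ≤ n0 →
      1 + |c| ≤ K ^ n0 → 1 ≤ R → R ≤ K ^ n0 → MeasurableSet S → S ⊆ Metric.closedBall z r →
      ∃ H : ℝ → ℝ≥0∞, Measurable H ∧
      (∫⁻ s in {s : ℝ | |s| ≤ K ^ n0}, H s) ≤
        ENNReal.ofReal (K ^ C) * (1 + ENNReal.ofReal R * volume S) ∧
      ∀ s, |s| ≤ K ^ n0 → ∀ a : E d → ℂ, ContDiff ℝ ∞ a →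
        (∀ j y, ‖iteratedFDeriv ℝ j a y‖ ≤ B j * R ^ j) →
        (∀ y, a y ≠ 0 → Metric.closedBall y (2 / R) ⊆ S) →
        ∫⁻ x, ‖uu a (ph Φ h c s) x‖ₑ ^ p ≤ H s

theorem nb3_meas_uu {d : ℕ} {a : E d → ℂ} {q : E d → ℝ} (ha : Continuous a)
    (hq : Continuous q) : Measurable fun x : E d => uu a q x := by
  have h1 : Continuous fun p : E d × E d =>
      a p.2 * Complex.exp (((q p.2 - ⟪p.1, p.2⟫ : ℝ) : ℂ) * Complex.I) := by fun_prop
  exact (h1.stronglyMeasurable.integral_prod_right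
    (f := fun (x : E d) (y : E d) =>
      a y * Complex.exp (((q y - ⟪x, y⟫ : ℝ) : ℂ) * Complex.I))).measurable

theorem nb3_Hs_congr {d : ℕ} {q q' : E d → ℝ} {y : E d} (h : q =ᶠ[nhds y] q') :
    Hs q y = Hs q' y := by
  unfold Hs
  refine Filter.EventuallyEq.fderiv_eq ?_
  filter_upwards [h.fderiv (𝕜 := ℝ)] with z hz
  unfold gr
  rw [hz]

theorem nb3_uu_congr {d : ℕ} {a : E d → ℂ} {q q' : E d → ℝ} (h : ∀ y, a y ≠ 0 → q y = q' y)
    (x : E d) : uu a q x = uu a q' x := by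
  unfold uu
  refine integral_congr_ae (Filter.Eventually.of_forall fun y => ?_)
  by_cases hy : a y = 0
  · simp [hy]
  · simp only [h y hy]

/-- Concavity of the extended Taylor polynomial. -/
theorem nb3_DfB {d N : ℕ} {A : ℕ → ℝ} {h h' : E d → ℝ} {z : E d} {r r' ρ b : ℝ} (hh : Sm d A h)
    (hN : 2 ≤ N) (hD : Df d b r' h) (hz : ‖z‖ ≤ r) (hρ : 0 < ρ) (hρ2 : ρ < 1 / 2)
    (hr : r + ρ ≤ r') (hA : |A (N + 1)| * ρ ≤ b / 2)
    (hh' : ∀ y, ‖y - z‖ ≤ 1 / 2 → h' y = TPT h z N y) : DfB (b / 2) z ρ h' := by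
  intro y hy v
  have h1 : Hs h' y = Hs (TPT h z N) y := by
    refine nb3_Hs_congr ?_
    have h2 : {w : E d | ‖w - z‖ < 1 / 2} ∈ nhds y := by
      refine (isOpen_lt (by fun_prop) continuous_const).mem_nhds ?_
      exact lt_of_le_of_lt hy hρ2
    filter_upwards [h2] with w hw
    exact hh' w (le_of_lt hw)
  rw [h1]
  have h3 : ‖Hs h y - Hs (TPT h z N) y‖ ≤ A (N + 1) * ρ := TPT_Hs hh N hN z hρ (by linarith) hy
  have h4 : ‖y‖ ≤ r' := by
    calc ‖y‖ = ‖(y - z) + z‖ := by rw [sub_add_cancel]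
      _ ≤ ‖y - z‖ + ‖z‖ := norm_add_le _ _
      _ ≤ r' := by linarith
  have h5 := hD y h4 v
  have h6 : ⟪(Hs h y - Hs (TPT h z N) y) v, v⟫ ≥ -(b / 2 * ‖v‖ ^ 2) := by
    have h7 := abs_real_inner_le_norm ((Hs h y - Hs (TPT h z N) y) v) v
    have h8 := (Hs h y - Hs (TPT h z N) y).le_opNorm v
    have h9 : ‖(Hs h y - Hs (TPT h z N) y) v‖ * ‖v‖ ≤ b / 2 * ‖v‖ ^ 2 := by
      have h10 : ‖Hs h y - Hs (TPT h z N) y‖ ≤ b / 2 :=
        (h3.trans (mul_le_mul_of_nonneg_right (le_abs_self _) hρ.le)).trans hA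
      calc ‖(Hs h y - Hs (TPT h z N) y) v‖ * ‖v‖ ≤ (‖Hs h y - Hs (TPT h z N) y‖ * ‖v‖) * ‖v‖ := by
            gcongr
        _ ≤ (b / 2 * ‖v‖) * ‖v‖ := by gcongr
        _ = b / 2 * ‖v‖ ^ 2 := by ring
    have h11 := neg_abs_le ⟪(Hs h y - Hs (TPT h z N) y) v, v⟫
    linarith
  rw [sub_apply, inner_sub_left] at h6
  linarith

/-- NB3 over the statement of `cell_bv`. -/
theorem piece_bv_of (d : ℕ) (p : ℝ) (hp1 : 1 ≤ p) (hcell : CellBV d p) : ∃ C : ℕ,
    ∀ (A B : ℕ → ℝ) (r r' b : ℝ) (n0 : ℕ), 0 < r → r < r' → 0 < b → ∃ K0 : ℝ, 1 ≤ K0 ∧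
    ∀ K, K0 ≤ K → ∀ (Φ h : E d → ℝ) (f : E d → ℂ) (G : Set (E d)) (c P : ℝ),
      Sm d A Φ → Sm d A h → Df d b r' h → 1 + |c| ≤ K ^ n0 → 1 ≤ P → P ^ 2 ≤ K ^ n0 →
      AmpR d B r P f → MeasurableSet G → (∀ y, f y ≠ 0 → Metric.closedBall y (2 / P) ⊆ G) →
      ∫⁻ s in {s : ℝ | |s| ≤ K ^ n0}, ∫⁻ x, ‖uu f (ph Φ h c s) x‖ₑ ^ p ≤
        ENNReal.ofReal (K ^ C) * (1 + ENNReal.ofReal P * volume G) := by
  obtain ⟨C0, hcell⟩ := hcell
  refine ⟨C0 + (d + 1) * ⌈p⌉₊ + 2, fun A B r r' b n0 hr hrr hb => ?_⟩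
  set N : ℕ := n0 + 2 with hN
  obtain ⟨A1, hext⟩ := tp_ext d N A
  obtain ⟨B1, Kz, hKz, hred⟩ := poly_redR d N A B r hr
  set r1 : ℝ := min (1 / 8) (min ((r' - r) / 4) (b / (4 * (|A (N + 1)| + 1)))) with hr1def
  have hA0 : 0 ≤ |A (N + 1)| := abs_nonneg _
  have hr10 : 0 < r1 := lt_min (by norm_num) (lt_min (by linarith) (by positivity))
  have hr18 : r1 ≤ 1 / 8 := min_le_left _ _
  have hr1r : r1 ≤ (r' - r) / 4 := (min_le_right _ _).trans (min_le_left _ _)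
  have hr1b : |A (N + 1)| * (2 * r1) ≤ b / 2 := by
    have h1 : r1 ≤ b / (4 * (|A (N + 1)| + 1)) := (min_le_right _ _).trans (min_le_right _ _)
    rw [le_div_iff₀ (by positivity)] at h1
    have h2 : r1 * (4 * |A (N + 1)|) ≤ r1 * (4 * (|A (N + 1)| + 1)) := by
      gcongr
      linarith
    linarith
  set n1 : ℕ := n0 + 2 + ⌈r + 1⌉₊ with hn1
  obtain ⟨K1, hK11, hc⟩ := hcell A1 B1 (b / 2) r1 N n1 (by positivity) hr10
  refine ⟨max (max K1 4) (max (1 / r1) (Kz * 4 ^ d)), le_max_of_le_left (le_max_of_le_left hK11),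
    fun K hK Φ h f G c P hΦ hh hD hcK hP1 hP2 hf hG hsup => ?_⟩
  have hKK1 : K1 ≤ K := ((le_max_left _ _).trans (le_max_left _ _)).trans hK
  have hK4 : 4 ≤ K := ((le_max_right _ _).trans (le_max_left _ _)).trans hK
  have hKr : 1 / r1 ≤ K := ((le_max_left _ _).trans (le_max_right _ _)).trans hK
  have hKz4 : Kz * 4 ^ d ≤ K := ((le_max_right _ _).trans (le_max_right _ _)).trans hK
  have hK1 : 1 ≤ K := by linarith
  have hK0 : 0 < K := by linarith
  have hP0 : 0 < P := by linarith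
  set R : ℝ := max P (4 * K) with hR
  have hRP : P ≤ R := le_max_left _ _
  have hRK : 4 * K ≤ R := le_max_right _ _
  have hR0 : 0 < R := by linarith
  have hR1 : 1 ≤ R := by linarith
  have hR4 : R ≤ 4 * K * P := by
    refine max_le ?_ ?_
    · exact le_mul_of_one_le_left hP0.le (by linarith)
    · exact le_mul_of_one_le_right (by positivity) hP1
  have hn01 : K ^ n0 ≤ K ^ n1 := pow_le_pow_right₀ hK1 (by omega)
  have hPK : P ≤ K ^ n0 := (le_self_pow₀ hP1 (by norm_num)).trans hP2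
  have hRn : R ≤ K ^ n1 := by
    refine max_le (hPK.trans hn01) ?_
    calc 4 * K ≤ K * K := mul_le_mul_of_nonneg_right hK4 hK0.le
      _ = K ^ 2 := by ring
      _ ≤ K ^ n1 := pow_le_pow_right₀ hK1 (by omega)
  set ρ : ℝ := (4 * K)⁻¹ with hρdef
  have hρ0 : 0 < ρ := by positivity
  have hρ1 : ρ ≤ 1 := inv_le_one_of_one_le₀ (by linarith)
  have hρR : ρ⁻¹ ≤ R := by rw [hρdef, inv_inv]; exact hRK
  have hρr : 3 * ρ ≤ r1 := by
    rw [hρdef]
    rw [div_le_iff₀ hr10] at hKr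
    rw [← div_eq_mul_inv, div_le_iff₀ (by positivity)]
    linarith
  have h2R : 2 / R ≤ 2 * ρ := by
    rw [div_le_iff₀ hR0]
    have h1 : 1 ≤ ρ * R := by
      have := mul_le_mul_of_nonneg_left hρR hρ0.le
      rwa [mul_inv_cancel₀ hρ0.ne'] at this
    linarith
  obtain ⟨Z, hZc, hZn, hb'⟩ := hred ρ hρ0 hρ1
  have hfR : AmpR d B r R f := hf.mono hP0 hRP
  -- extensions and polynomials
  choose Φ' hΦ'1 hΦ'2 using fun z => hext Φ z hΦ
  choose h' hh'1 hh'2 using fun z => hext h z hh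
  choose Q hQ1 hQ2 using fun z => TP_poly Φ z N
  choose Q' hQ'1 hQ'2 using fun z => TP_poly h z N
  -- the majorants
  have key : ∀ z : E d, ∃ H : ℝ → ℝ≥0∞, Measurable H ∧ (z ∈ Z →
      (∫⁻ s in {s : ℝ | |s| ≤ K ^ n1}, H s) ≤
        ENNReal.ofReal (K ^ C0) * (1 + ENNReal.ofReal R * volume G) ∧
      ∀ s, |s| ≤ K ^ n1 → ∀ a : E d → ℂ, ContDiff ℝ ∞ a →
        (∀ j y, ‖iteratedFDeriv ℝ j a y‖ ≤ B1 j * R ^ j) →
        (∀ y, a y ≠ 0 → Metric.closedBall y (2 / R) ⊆ G ∩ Metric.closedBall z r1) →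
        ∫⁻ x, ‖uu a (ph (Φ' z) (h' z) c s) x‖ₑ ^ p ≤ H s) := by
    intro z
    by_cases hz : z ∈ Z
    · have hzn := hZn z hz
      have hzn1 : ‖z‖ ≤ (n1 : ℝ) := by
        have h1 : r + 1 ≤ (⌈r + 1⌉₊ : ℝ) := Nat.le_ceil _
        rw [hn1]
        push_cast
        have h2 : (0 : ℝ) ≤ n0 := Nat.cast_nonneg n0
        linarith
      obtain ⟨H, hHm, hHi, hH⟩ := hc K hKK1 (Φ' z) (h' z) (Q z) (Q' z) z c R
        (G ∩ Metric.closedBall z r1) (hΦ'1 z) (hh'1 z) (hQ1 z) (hQ'1 z)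
        (fun y hy => ⟨by rw [hΦ'2 z y (by linarith), ← hQ2 z],
          by rw [hh'2 z y (by linarith), ← hQ'2 z]⟩)
        (nb3_DfB hh (by omega) hD hzn (by positivity) (by linarith) (by linarith) hr1b (hh'2 z))
        hzn1 (hcK.trans hn01) hR1 hRn (hG.inter Metric.isClosed_closedBall.measurableSet)
        inter_subset_right
      refine ⟨H, hHm, fun _ => ⟨hHi.trans ?_, hH⟩⟩
      gcongr
      exact inter_subset_left
    · exact ⟨fun _ => 0, measurable_const, fun h => absurd h hz⟩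
  choose H hHm hH using key
  -- pointwise in `s`
  have hpt : ∀ s ∈ {s : ℝ | |s| ≤ K ^ n0}, ∫⁻ x, ‖uu f (ph Φ h c s) x‖ₑ ^ p ≤
      (Z.card : ℝ≥0∞) ^ (p - 1) * ∑ z ∈ Z, H z s := by
    intro s hs
    have hs' : |s| ≤ K ^ n0 := hs
    have hKn : (0 : ℝ) < K ^ n0 := by positivity
    obtain ⟨bz, hbz, hsum⟩ := hb' Φ h f c s (2 * K ^ n0) R hΦ hh hfR hρR (by linarith) (by
      rw [hρdef, inv_pow]
      rw [← div_eq_mul_inv, div_le_one (by positivity)]
      have h1 : (4 * K) ^ (N + 1) = 4 ^ (N + 1) * (K ^ n0 * K ^ 3) := by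
        rw [mul_pow, hN]
        ring
      rw [h1]
      have h2 : (4 : ℝ) ≤ 4 ^ (N + 1) := by
        calc (4 : ℝ) = 4 ^ 1 := by norm_num
          _ ≤ 4 ^ (N + 1) := pow_le_pow_right₀ (by norm_num) (by omega)
      have h3 : (1 : ℝ) ≤ K ^ 3 := one_le_pow₀ hK1
      calc 2 * K ^ n0 ≤ 4 * (K ^ n0 * 1) := by linarith
        _ ≤ 4 ^ (N + 1) * (K ^ n0 * K ^ 3) := by gcongr)
    have hcont : ∀ z ∈ Z, Continuous (bz z) := fun z hz => (hbz z hz).1.continuous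
    calc ∫⁻ x, ‖uu f (ph Φ h c s) x‖ₑ ^ p
        = ∫⁻ x, ‖∑ z ∈ Z, uu (bz z) (ph (Φ' z) (h' z) c s) x‖ₑ ^ p := by
          refine lintegral_congr fun x => ?_
          rw [hsum x]
          congr 2
          refine Finset.sum_congr rfl fun z hz => nb3_uu_congr (fun y hy => ?_) x
          have h1 : ‖y - z‖ ≤ 1 / 2 := by
            by_contra h2
            exact hy ((hbz z hz).2.1 y (by linarith))
          unfold ph
          rw [hΦ'2 z y h1, hh'2 z y h1]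
      _ ≤ ∫⁻ x, (Z.card : ℝ≥0∞) ^ (p - 1) *
            ∑ z ∈ Z, ‖uu (bz z) (ph (Φ' z) (h' z) c s) x‖ₑ ^ p := by
          refine lintegral_mono fun x => ?_
          refine le_trans ?_ (ENNReal.rpow_sum_le_const_mul_sum_rpow _ _ hp1)
          exact ENNReal.rpow_le_rpow (enorm_sum_le _ _) (by linarith)
      _ = (Z.card : ℝ≥0∞) ^ (p - 1) *
            ∑ z ∈ Z, ∫⁻ x, ‖uu (bz z) (ph (Φ' z) (h' z) c s) x‖ₑ ^ p := by
          rw [lintegral_const_mul' _ _ (ENNReal.rpow_ne_top_of_nonneg (by linarith)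
            (ENNReal.natCast_ne_top _)), lintegral_finsetSum]
          intro z hz
          have hq : Continuous (ph (Φ' z) (h' z) c s) := by
            unfold ph
            have e1 := (hΦ'1 z).sm.continuous
            have e2 := (hh'1 z).sm.continuous
            fun_prop
          exact (nb3_meas_uu (hcont z hz) hq).enorm.pow_const _
      _ ≤ _ := by
          gcongr with z hz
          refine ((hH z) hz).2 s (hs'.trans hn01) (bz z) (hbz z hz).1 (hbz z hz).2.2.2 fun y hy => ?_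
          have h1 : f y ≠ 0 := fun h0 => hy ((hbz z hz).2.2.1 y h0)
          have h2 : ‖y - z‖ < ρ := by
            by_contra h2
            exact hy ((hbz z hz).2.1 y (not_lt.1 h2))
          refine subset_inter ?_ ?_
          · refine (Metric.closedBall_subset_closedBall ?_).trans (hsup y h1)
            gcongr
          · refine Metric.closedBall_subset_closedBall' ?_
            rw [dist_eq_norm]
            linarith
  -- the sum
  have hSm : MeasurableSet {s : ℝ | |s| ≤ K ^ n0} :=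
    (isClosed_le continuous_abs continuous_const).measurableSet
  have hcard : (Z.card : ℝ) ≤ K ^ (d + 1) := by
    refine hZc.trans ?_
    rw [hρdef, inv_pow, div_inv_eq_mul, mul_pow, ← mul_assoc, pow_succ K d]
    calc Kz * 4 ^ d * K ^ d ≤ K * K ^ d := by gcongr
      _ = K ^ d * K := by ring
  have hcard2 : (Z.card : ℝ≥0∞) ^ p ≤ ENNReal.ofReal (K ^ ((d + 1) * ⌈p⌉₊)) := by
    calc (Z.card : ℝ≥0∞) ^ p ≤ ENNReal.ofReal (K ^ (d + 1)) ^ p := by
          refine ENNReal.rpow_le_rpow ?_ (by linarith)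
          rw [← ENNReal.ofReal_natCast]
          exact ENNReal.ofReal_le_ofReal hcard
      _ ≤ ENNReal.ofReal (K ^ (d + 1)) ^ ((⌈p⌉₊ : ℕ) : ℝ) := by
          refine ENNReal.rpow_le_rpow_of_exponent_le ?_ (Nat.le_ceil p)
          rw [ENNReal.one_le_ofReal]
          exact one_le_pow₀ hK1
      _ = ENNReal.ofReal (K ^ ((d + 1) * ⌈p⌉₊)) := by
          rw [ENNReal.rpow_natCast, ← ENNReal.ofReal_pow (by positivity), ← pow_mul]
  calc ∫⁻ s in {s : ℝ | |s| ≤ K ^ n0}, ∫⁻ x, ‖uu f (ph Φ h c s) x‖ₑ ^ p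
      ≤ ∫⁻ s in {s : ℝ | |s| ≤ K ^ n0}, (Z.card : ℝ≥0∞) ^ (p - 1) * ∑ z ∈ Z, H z s :=
        setLIntegral_mono' hSm hpt
    _ = (Z.card : ℝ≥0∞) ^ (p - 1) * ∑ z ∈ Z, ∫⁻ s in {s : ℝ | |s| ≤ K ^ n0}, H z s := by
        rw [lintegral_const_mul' _ _ (ENNReal.rpow_ne_top_of_nonneg (by linarith)
            (ENNReal.natCast_ne_top _)), lintegral_finsetSum]
        exact fun z _ => hHm z
    _ ≤ (Z.card : ℝ≥0∞) ^ (p - 1) * ∑ _z ∈ Z,
          ENNReal.ofReal (K ^ C0) * (1 + ENNReal.ofReal R * volume G) := by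
        gcongr with z hz
        refine le_trans ?_ ((hH z) hz).1
        exact lintegral_mono_set fun s hs => le_trans hs hn01
    _ = (Z.card : ℝ≥0∞) ^ p *
          (ENNReal.ofReal (K ^ C0) * (1 + ENNReal.ofReal R * volume G)) := by
        rw [Finset.sum_const, nsmul_eq_mul, ← mul_assoc]
        congr 1
        calc (Z.card : ℝ≥0∞) ^ (p - 1) * (Z.card : ℝ≥0∞)
            = (Z.card : ℝ≥0∞) ^ (p - 1) * (Z.card : ℝ≥0∞) ^ (1 : ℝ) := by rw [ENNReal.rpow_one]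
          _ = (Z.card : ℝ≥0∞) ^ p := by
              rw [← ENNReal.rpow_add_of_nonneg _ _ (by linarith) (by norm_num)]
              congr 1
              ring
    _ ≤ ENNReal.ofReal (K ^ ((d + 1) * ⌈p⌉₊)) *
          (ENNReal.ofReal (K ^ C0) * (ENNReal.ofReal (K ^ 2) *
            (1 + ENNReal.ofReal P * volume G))) := by
        gcongr
        rw [mul_add, mul_one, ← mul_assoc, ← ENNReal.ofReal_mul (by positivity)]
        gcongr
        · rw [ENNReal.one_le_ofReal]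
          exact one_le_pow₀ hK1
        · refine hR4.trans ?_
          gcongr
          calc 4 * K ≤ K * K := mul_le_mul_of_nonneg_right hK4 hK0.le
            _ = K ^ 2 := by ring
    _ = _ := by
        rw [← mul_assoc, ← mul_assoc, ← ENNReal.ofReal_mul (by positivity),
          ← ENNReal.ofReal_mul (by positivity)]
        congr 2
        rw [← pow_add, ← pow_add]
        congr 1
        ring

end Pool.Agent.GNP
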