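import Pool.Agent.GNP.HSC
import Pool.Agent.GNP.HSP
import Pool.Agent.GNP.HSO
import Pool.Agent.GNP.HSN
import Pool.Agent.GNP.AB
import Pool.Agent.GNP.WMU
import Pool.Agent.GNP.PLOW

/-!
Every phase, all dimensions, amplitudes with an `L²`-modulus of continuity: the core.
-/

namespace Pool.Agent.GNP

open MeasureTheory Set Pool.Agent.MP_6cbfb8_an
open scoped ENNReal Real RealInnerProductSpace ContDiff

/-- The weights of the classes. -/
theorem hs_weight {d : ℕ} (hd0 : (0 : ℝ) < d) {p s Ko v P : ℝ} (hp : 2 * ((d : ℝ) + 1) / d < p)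
    (hs0 : (d : ℝ) / (d + 1) < s) (hKo : 0 < Ko) (hv0 : 0 ≤ v) {i : ℕ}
    (hv1 : v ≤ Ko * 4 ^ i * P ^ (-s)) (hP : 1 ≤ P) :
    (((2 : ℝ) ^ i)⁻¹) ^ p * (1 + P * v ^ (p / 2) + P ^ (1 - 1 / (d : ℝ)) * v) ≤
      1 + (Ko ^ (p / 2) + Ko) := by
  have hp2 : 2 < p := by
    have h1 : 2 * ((d : ℝ) + 1) / d = 2 + 2 / d := by field_simp
    have h2 : 0 < 2 / (d : ℝ) := by positivity
    linarith
  have hP0 : 0 < P := by linarith
  have h2i : (0 : ℝ) < 2 ^ i := by positivity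
  have h2i1 : (1 : ℝ) ≤ 2 ^ i := one_le_pow₀ (by norm_num)
  set w : ℝ := (((2 : ℝ) ^ i)⁻¹) ^ p with hw
  have hw0 : 0 ≤ w := by positivity
  have hi0 : (0 : ℝ) < ((2 : ℝ) ^ i)⁻¹ := by positivity
  have hi1 : ((2 : ℝ) ^ i)⁻¹ ≤ 1 := inv_le_one_of_one_le₀ h2i1
  have hw1 : w ≤ 1 := Real.rpow_le_one hi0.le hi1 (by linarith)
  have h4 : (4 : ℝ) ^ i = (2 ^ i) ^ 2 := by
    rw [← pow_mul, mul_comm, pow_mul]
    norm_num
  -- the product `w * (4 ^ i) ^ (p / 2)`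
  have h5 : w * ((4 : ℝ) ^ i) ^ (p / 2) = 1 := by
    rw [hw, h4, Real.inv_rpow h2i.le, ← Real.rpow_natCast ((2 : ℝ) ^ i) 2,
      ← Real.rpow_mul h2i.le]
    have : ((2 : ℕ) : ℝ) * (p / 2) = p := by
      push_cast
      ring
    rw [this]
    exact inv_mul_cancel₀ (by positivity)
  have h6 : w * (4 : ℝ) ^ i ≤ 1 := by
    have h7 : w ≤ (((2 : ℝ) ^ i)⁻¹) ^ (2 : ℝ) := Real.rpow_le_rpow_of_exponent_ge hi0 hi1 hp2.le
    have h8 : (((2 : ℝ) ^ i)⁻¹) ^ (2 : ℝ) * 4 ^ i = 1 := by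
      rw [h4, Real.rpow_two, inv_pow]
      exact inv_mul_cancel₀ (by positivity)
    calc w * (4 : ℝ) ^ i ≤ (((2 : ℝ) ^ i)⁻¹) ^ (2 : ℝ) * 4 ^ i := by gcongr
      _ = 1 := h8
  have hd1 : (0 : ℝ) < d + 1 := by linarith
  have hsp : 1 - s * (p / 2) ≤ 0 := by
    have h9 : ((d : ℝ) / (d + 1)) * (((d : ℝ) + 1) / d) = 1 := by field_simp
    have h10 : ((d : ℝ) + 1) / d < p / 2 := by
      have : 2 * ((d : ℝ) + 1) / d = 2 * (((d : ℝ) + 1) / d) := by ring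
      linarith
    have h11 : 0 < (d : ℝ) / (d + 1) := by positivity
    have hs00 : 0 < s := h11.trans hs0
    have h12 : ((d : ℝ) / (d + 1)) * (((d : ℝ) + 1) / d) ≤ s * (p / 2) := by gcongr
    linarith
  have hs2 : 1 - 1 / (d : ℝ) - s ≤ 0 := by
    have h9 : 1 - 1 / (d : ℝ) ≤ (d : ℝ) / (d + 1) := by
      rw [le_div_iff₀ hd1]
      have : (1 - 1 / (d : ℝ)) * (d + 1) = d - 1 / d := by
        field_simp
        ring
      rw [this]
      have : 0 < 1 / (d : ℝ) := by positivity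
      linarith
    linarith
  have k1 : w * (P * v ^ (p / 2)) ≤ Ko ^ (p / 2) := by
    calc w * (P * v ^ (p / 2)) ≤ w * (P * (Ko * 4 ^ i * P ^ (-s)) ^ (p / 2)) := by gcongr
      _ = (w * ((4 : ℝ) ^ i) ^ (p / 2)) * Ko ^ (p / 2) * (P * (P ^ (-s)) ^ (p / 2)) := by
          rw [Real.mul_rpow (by positivity) (by positivity),
            Real.mul_rpow hKo.le (by positivity)]
          ring
      _ = Ko ^ (p / 2) * (P * (P ^ (-s)) ^ (p / 2)) := by rw [h5, one_mul]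
      _ = Ko ^ (p / 2) * P ^ (1 - s * (p / 2)) := by
          rw [← Real.rpow_mul hP0.le, sub_eq_add_neg, Real.rpow_add hP0, Real.rpow_one, neg_mul]
      _ ≤ Ko ^ (p / 2) * 1 := by
          gcongr
          exact Real.rpow_le_one_of_one_le_of_nonpos hP hsp
      _ = _ := mul_one _
  have k2 : w * (P ^ (1 - 1 / (d : ℝ)) * v) ≤ Ko := by
    calc w * (P ^ (1 - 1 / (d : ℝ)) * v)
        ≤ w * (P ^ (1 - 1 / (d : ℝ)) * (Ko * 4 ^ i * P ^ (-s))) := by gcongr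
      _ = (w * (4 : ℝ) ^ i) * Ko * (P ^ (1 - 1 / (d : ℝ)) * P ^ (-s)) := by ring
      _ ≤ 1 * Ko * (P ^ (1 - 1 / (d : ℝ)) * P ^ (-s)) := by gcongr
      _ = Ko * P ^ (1 - 1 / (d : ℝ) - s) := by
          rw [← Real.rpow_add hP0, one_mul, ← sub_eq_add_neg]
      _ ≤ Ko * 1 := by
          gcongr
          exact Real.rpow_le_one_of_one_le_of_nonpos hP hs2
      _ = _ := mul_one _
  calc w * (1 + P * v ^ (p / 2) + P ^ (1 - 1 / (d : ℝ)) * v)
      = w + w * (P * v ^ (p / 2)) + w * (P ^ (1 - 1 / (d : ℝ)) * v) := by ring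
    _ ≤ 1 + Ko ^ (p / 2) + Ko := by linarith
    _ = _ := by ring

/-- The mollified amplitude, large `c`, bounded slopes. -/
theorem hs_near (d : ℕ) (hd : 2 ≤ d) (p : ℝ) (hp : 2 * ((d : ℝ) + 1) / d < p)
    (hp' : ∀ m : ℕ, (m : ℝ) * (p - 2) ≠ 1) (A : ℕ → ℝ)
    (η : E d → ℝ) (hη : Ker 1 η) (hη0 : ∀ v, 0 ≤ η v) (hη1 : ∫ v, η v = 1)
    (r r' b ε C1 s V P0 : ℝ) (hr : 0 < r) (hr' : r < r') (hb : 0 < b) (hε : 0 < ε)
    (hs0 : (d : ℝ) / (d + 1) < s) (hs1 : s ≤ 1) (hV : 0 ≤ V) :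
    ∃ K : ℝ, 0 < K ∧ ∀ (Φ h : E d → ℝ) (a : E d → ℂ),
      Sm d A Φ → Sm d A h → Measurable a → (∀ y, ‖a y‖ ≤ 1) → (∀ y, r < ‖y‖ → a y = 0) →
      BE2 d s V a → Df d b r' h → ∀ (c : ℝ) (N : ℕ), K ≤ |c| → √(1 + |c|) ≤ 2 ^ N →
      2 ^ N ≤ P0 * √(1 + |c|) →
      ∫⁻ s in {s : ℝ | |s| ≤ C1 * (1 + |c|)},
        ∫⁻ x, ‖uu (mo η a (2 ^ N)) (ph Φ h c s) x‖ₑ ^ p ≤ ENNReal.ofReal (K * (1 + |c|) ^ ε) := by
  classical
  have hd0 : (0 : ℝ) < d := by
    have : 0 < d := by omega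
    exact_mod_cast this
  have hp2 : 2 < p := by
    have h1 : 2 * ((d : ℝ) + 1) / d = 2 + 2 / d := by field_simp
    have h2 : 0 < 2 / (d : ℝ) := by positivity
    linarith
  have hp1 : 1 ≤ p := by linarith
  have hp0 : 0 < p := by linarith
  obtain ⟨r1, hr1a, hr1b⟩ := exists_between hr'
  have hr10 : 0 < r1 := hr.trans hr1a
  have hrr : 0 < r1 - r := sub_pos.2 hr1a
  have hs00 : 0 < s := lt_trans (by positivity) hs0
  obtain ⟨C, hC⟩ := piece_hs_of d (by omega) p hp2.le (cell_hs d hd p hp hp')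
  obtain ⟨A2, Ko, hKo, hosc⟩ := osc2 d η hη hη0 hη1 2 r s V two_pos hr hs00 hs1 hV
  obtain ⟨A0, hA0⟩ := mo_amp d η hη
  set B : ℕ → ℝ := fun j => max (A0 j) (A2 j) with hB
  set n1 : ℕ := ⌈2 * C / ε⌉₊ + 1 with hn1
  have hn10 : (0 : ℝ) < n1 := by
    rw [hn1]
    positivity
  have hCn : (C : ℝ) / n1 ≤ ε / 2 := by
    rw [div_le_div_iff₀ hn10 two_pos]
    have h1 : 2 * C / ε ≤ (n1 : ℝ) := by
      rw [hn1]
      push_cast
      have := Nat.le_ceil (2 * (C : ℝ) / ε)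
      linarith
    rw [div_le_iff₀ hε] at h1
    linarith
  obtain ⟨K0, hK0, hpc⟩ := hC A B r1 r' b (n1 + 1) hr10 hr1b hb
  obtain ⟨j0, hj0⟩ := pow_unbounded_of_one_lt (1 / (r1 - r)) (one_lt_two : (1 : ℝ) < 2)
  set ν : ℝ := volume.real (Metric.closedBall (0 : E d) (r1 + 2)) with hν
  have hν0 : 0 ≤ ν := measureReal_nonneg
  obtain ⟨K3, hK3, hnum⟩ := ab_num |P0| (ε / (4 * p)) (by positivity)
  set M0 : ℝ := 1 + (Ko ^ (p / 2) + Ko) +
    (2 ^ j0 * ν ^ (p / 2) + (2 ^ j0) ^ (1 - 1 / (d : ℝ)) * ν) with hM0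
  have hM00 : 0 < M0 := by positivity
  have hδ : (0 : ℝ) < 1 / n1 := by positivity
  obtain ⟨X0, hX0⟩ : ∃ X0 : ℝ, ∀ X ≥ X0, max K0 (max Ko ν) ≤ X ^ (1 / (n1 : ℝ)) ∧
      |C1| ≤ X ^ (1 / (n1 : ℝ)) ∧
      P0 ^ 2 ≤ X ^ (1 / (n1 : ℝ)) ∧ 2 ^ j0 ≤ X ^ (1 / 2 : ℝ) := by
    have t := tendsto_rpow_atTop hδ
    have t1 := t.eventually_ge_atTop (max K0 (max Ko ν))
    have t2 := t.eventually_ge_atTop |C1|
    have t3 := t.eventually_ge_atTop (P0 ^ 2)
    have t4 := (tendsto_rpow_atTop (by norm_num : (0 : ℝ) < 1 / 2)).eventually_ge_atTop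
      ((2 : ℝ) ^ j0)
    obtain ⟨X0, hX0⟩ := Filter.eventually_atTop.1 (t1.and (t2.and (t3.and t4)))
    exact ⟨X0, fun X hX => hX0 X hX⟩
  set K : ℝ := max (max X0 1) (K3 ^ (2 * p) * M0) with hK
  have hKX : X0 ≤ K := (le_max_left _ _).trans (le_max_left _ _)
  have hK1' : 1 ≤ K := (le_max_right _ _).trans (le_max_left _ _)
  have hKM : K3 ^ (2 * p) * M0 ≤ K := le_max_right _ _
  refine ⟨K, by linarith, ?_⟩
  intro Φ h a hΦ hh ham ha1 har hBV hdef c N hc hN1 hN2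
  set X : ℝ := 1 + |c| with hX
  have hX1 : 1 ≤ X := by linarith [abs_nonneg c]
  have hX00 : 0 < X := by linarith
  have hXX0 : X0 ≤ X := by linarith
  obtain ⟨hx0, hx2, hx3, hx4⟩ := hX0 X hXX0
  set κ : ℝ := X ^ (1 / (n1 : ℝ)) with hκ
  have hx1 : K0 ≤ κ := (le_max_left _ _).trans hx0
  have hκo : Ko ≤ κ := ((le_max_left _ _).trans (le_max_right _ _)).trans hx0
  have hκν : ν ≤ κ := ((le_max_right _ _).trans (le_max_right _ _)).trans hx0
  have hκ1 : 1 ≤ κ := Real.one_le_rpow hX1 hδ.le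
  have hκ0 : 0 < κ := by linarith
  have hκn : κ ^ n1 = X := by
    rw [hκ, ← Real.rpow_natCast, ← Real.rpow_mul hX00.le, one_div, inv_mul_cancel₀ hn10.ne',
      Real.rpow_one]
  have hκn0 : κ ^ (n1 + 1) = X * κ := by rw [pow_succ, hκn]
  have hκC : κ ^ C ≤ X ^ (ε / 2) := by
    rw [hκ, ← Real.rpow_natCast, ← Real.rpow_mul hX00.le]
    refine Real.rpow_le_rpow_of_exponent_le hX1 ?_
    rw [one_div_mul_eq_div]
    exact hCn
  have hXκ : X ≤ κ ^ (n1 + 1) := by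
    rw [hκn0]
    nlinarith
  set I : Set ℝ := {s : ℝ | |s| ≤ C1 * X} with hI
  have hIκ : I ⊆ {s : ℝ | |s| ≤ κ ^ (n1 + 1)} := by
    intro s hs
    have hs : |s| ≤ C1 * X := hs
    change |s| ≤ κ ^ (n1 + 1)
    rw [hκn0]
    calc |s| ≤ C1 * X := hs
      _ ≤ |C1| * X := by gcongr; exact le_abs_self _
      _ ≤ κ * X := by gcongr
      _ = X * κ := mul_comm _ _
  have hPκ : ∀ j ≤ N, ((2 : ℝ) ^ j) ^ 2 ≤ κ ^ (n1 + 1) := by
    intro j hj
    have h1 : (2 : ℝ) ^ j ≤ P0 * √X := (pow_le_pow_right₀ (by norm_num) hj).trans hN2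
    calc ((2 : ℝ) ^ j) ^ 2 ≤ (P0 * √X) ^ 2 := pow_le_pow_left₀ (by positivity) h1 2
      _ = P0 ^ 2 * X := by rw [mul_pow, Real.sq_sqrt hX00.le]
      _ ≤ κ * X := by gcongr
      _ = κ ^ (n1 + 1) := by rw [hκn0, mul_comm]
  have hj0N : j0 ≤ N := by
    have h1 : (2 : ℝ) ^ j0 ≤ 2 ^ N := hx4.trans (by rw [← Real.sqrt_eq_rpow]; exact hN1)
    exact (pow_le_pow_iff_right₀ one_lt_two).1 h1
  have hrj : ∀ j, j0 ≤ j → r + 1 / 2 ^ j ≤ r1 := by
    intro j hj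
    have h1 : 1 / (r1 - r) ≤ 2 ^ j := hj0.le.trans (pow_le_pow_right₀ (by norm_num) hj)
    have h2 : 1 / (2 : ℝ) ^ j ≤ r1 - r := by
      rw [div_le_iff₀ hrr] at h1
      rw [div_le_iff₀ (by positivity)]
      linarith
    linarith
  -- the classes
  have hcl : ∀ j, ∃ (f : ℕ → E d → ℂ) (G : ℕ → Set (E d)), j < N →
      (∀ y, mf η a (2 ^ j) y = ∑ i ∈ Finset.range (N + 1), ((((2 : ℝ) ^ i)⁻¹ : ℝ) : ℂ) * f i y) ∧
        ∀ i ≤ N, AmpR d A2 (r + 1 / 2 ^ j) (2 ^ j) (f i) ∧ MeasurableSet (G i) ∧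
          (∀ y, f i y ≠ 0 → Metric.closedBall y (2 / 2 ^ j) ⊆ G i) ∧
          volume (G i) ≤ ENNReal.ofReal (Ko * 4 ^ i * (2 ^ j) ^ (-s)) ∧
          volume (G i) ≤ ENNReal.ofReal Ko := by
    intro j
    by_cases hj : j < N
    · obtain ⟨f, G, h1, h2⟩ := hosc a (2 ^ j) N (one_le_pow₀ (by norm_num))
        (pow_le_pow_right₀ (by norm_num) hj.le) ham ha1 har hBV
      exact ⟨f, G, fun _ => ⟨h1, h2⟩⟩
    · exact ⟨fun _ _ => 0, fun _ => ∅, fun h => absurd h hj⟩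
  choose f G hfG using hcl
  have ampf : ∀ j i, j0 ≤ j → j < N → i ≤ N → AmpR d B r1 (2 ^ j) (f j i) := by
    intro j i hj0j hj hi
    exact ab_wk ((hfG j hj).2 i hi).1 (hrj j hj0j) (by positivity) fun l => le_max_right _ _
  have amp0 : AmpR d B r1 (2 ^ j0) (mo η a (2 ^ j0)) :=
    ab_wk (hA0 a r (2 ^ j0) (one_le_pow₀ (by norm_num)) ham ha1 har).1 (hrj j0 le_rfl)
      (by positivity) fun l => le_max_left _ _
  -- one finite family
  set g : Option (ℕ × ℕ) → E d → ℂ := fun u => Option.casesOn u (mo η a (2 ^ j0))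
    fun t y => ((((2 : ℝ) ^ t.2)⁻¹ : ℝ) : ℂ) * f t.1 t.2 y with hg
  set T : Finset (ℕ × ℕ) := Finset.Ico j0 N ×ˢ Finset.range (N + 1) with hT
  have hTm : ∀ t ∈ T, j0 ≤ t.1 ∧ t.1 < N ∧ t.2 ≤ N := by
    intro t ht
    obtain ⟨h1, h2⟩ := Finset.mem_product.1 ht
    exact ⟨(Finset.mem_Ico.1 h1).1, (Finset.mem_Ico.1 h1).2, Nat.lt_succ_iff.1 (Finset.mem_range.1 h2)⟩
  set U : Finset (Option (ℕ × ℕ)) := Finset.insertNone T with hU
  have intg : ∀ u ∈ U, Integrable (g u) := by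
    intro u hu
    rcases u with _ | t
    · exact ab_int amp0
    · have ht := hTm t (by simpa [hU] using hu)
      exact (ab_int (ampf t.1 t.2 ht.1 ht.2.1 ht.2.2)).const_mul _
  have hsum : ∀ y, ∑ u ∈ U, g u y = mo η a (2 ^ N) y := by
    intro y
    rw [hU, Finset.sum_insertNone, ab_tele η a y hj0N, hT, Finset.sum_product]
    congr 1
    refine Finset.sum_congr rfl fun j hj => ?_
    exact ((hfG j (Finset.mem_Ico.1 hj).2).1 y).symm
  have hqc : ∀ s, Continuous (ph Φ h c s) := fun s =>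
    ((contDiff_const.mul hΦ.sm).sub (contDiff_const.mul hh.sm)).continuous
  have hmeas : ∀ u ∈ U, Measurable fun s : ℝ => ∫⁻ x, ‖uu (g u) (ph Φ h c s) x‖ₑ ^ p := by
    intro u hu
    exact ((measurable_uu d (g u) Φ h c (intg u hu) hΦ.sm.continuous.measurable
      hh.sm.continuous.measurable).enorm.pow_const p).lintegral_prod_right'
  have hpiece : ∀ (f : E d → ℂ) (G : Set (E d)) (j : ℕ) (v : ℝ), j ≤ N → AmpR d B r1 (2 ^ j) f →
      MeasurableSet G → (∀ y, f y ≠ 0 → Metric.closedBall y (2 / 2 ^ j) ⊆ G) → 0 ≤ v → v ≤ κ →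
      volume G ≤ ENNReal.ofReal v →
      ∫⁻ s in I, ∫⁻ x, ‖uu f (ph Φ h c s) x‖ₑ ^ p ≤
        ENNReal.ofReal (κ ^ C * (1 + 2 ^ j * v ^ (p / 2) + (2 ^ j) ^ (1 - 1 / (d : ℝ)) * v)) :=
    fun f G j v hj hf hG hfG hv0 hvκ hv => (lintegral_mono_set hIκ).trans
      (hpc κ hx1 Φ h f G c (2 ^ j) v hΦ hh hdef hXκ (one_le_pow₀ (by norm_num)) (hPκ j hj) hf hG
        hfG hv0 hvκ hv)
  have hu : ∀ u ∈ U, ∫⁻ s in I, ∫⁻ x, ‖uu (g u) (ph Φ h c s) x‖ₑ ^ p ≤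
      ENNReal.ofReal (κ ^ C * M0) := by
    intro u hu
    rcases u with _ | t
    · have h3 : volume (Metric.closedBall (0 : E d) (r1 + 2)) = ENNReal.ofReal ν := by
        rw [hν, ofReal_measureReal measure_closedBall_lt_top.ne]
      refine (hpiece (mo η a (2 ^ j0)) (Metric.closedBall 0 (r1 + 2)) j0 ν hj0N amp0
        Metric.isClosed_closedBall.measurableSet (fun y hy => ?_) hν0 hκν h3.le).trans ?_
      · refine Metric.closedBall_subset_closedBall' ?_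
        have h1 : ‖y‖ ≤ r1 := by
          by_contra h2
          exact hy (amp0.supp y (not_le.1 h2))
        have h2 : 2 / (2 : ℝ) ^ j0 ≤ 2 := by
          rw [div_le_iff₀ (by positivity)]
          have : (1 : ℝ) ≤ 2 ^ j0 := one_le_pow₀ (by norm_num)
          linarith
        rw [dist_zero_right]
        linarith
      · refine ENNReal.ofReal_le_ofReal ?_
        refine mul_le_mul_of_nonneg_left ?_ (by positivity)
        have h4 : 0 ≤ Ko ^ (p / 2) + Ko := by positivity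
        rw [hM0]
        linarith
    · obtain ⟨h0, h1, h2⟩ := hTm t (by simpa [hU] using hu)
      obtain ⟨-, k2, k3, k4, k5⟩ := (hfG t.1 h1).2 t.2 h2
      have h2i : (0 : ℝ) < 2 ^ t.2 := by positivity
      have h2i1 : (1 : ℝ) ≤ 2 ^ t.2 := one_le_pow₀ (by norm_num)
      have h2j : (0 : ℝ) < 2 ^ t.1 := by positivity
      have h2j1 : (1 : ℝ) ≤ 2 ^ t.1 := one_le_pow₀ (by norm_num)
      set v : ℝ := min Ko (Ko * 4 ^ t.2 * (2 ^ t.1) ^ (-s)) with hv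
      have hv0 : 0 ≤ v := le_min hKo.le (by positivity)
      have hvK : v ≤ Ko := min_le_left _ _
      have hv1 : v ≤ Ko * 4 ^ t.2 * (2 ^ t.1) ^ (-s) := min_le_right _ _
      have hvG : volume (G t.1 t.2) ≤ ENNReal.ofReal v := by
        rw [hv, ENNReal.ofReal_min]
        exact le_min k5 k4
      set W : ℝ := 1 + 2 ^ t.1 * v ^ (p / 2) + (2 ^ t.1) ^ (1 - 1 / (d : ℝ)) * v with hW
      have hW0 : 0 ≤ W := by positivity
      have e1 : ∀ s x, ‖uu (g (some t)) (ph Φ h c s) x‖ₑ ^ p =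
          ENNReal.ofReal ((((2 : ℝ) ^ t.2)⁻¹) ^ p) * ‖uu (f t.1 t.2) (ph Φ h c s) x‖ₑ ^ p := by
        intro s x
        have e2 : uu (g (some t)) (ph Φ h c s) x =
            ((((2 : ℝ) ^ t.2)⁻¹ : ℝ) : ℂ) * uu (f t.1 t.2) (ph Φ h c s) x :=
          ab_uu_const _ _ _ _
        rw [e2, enorm_mul, ENNReal.mul_rpow_of_nonneg _ _ hp0.le]
        congr 1
        rw [← ofReal_norm, Complex.norm_real, Real.norm_of_nonneg (by positivity),
          ENNReal.ofReal_rpow_of_nonneg (by positivity) hp0.le]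
      calc ∫⁻ s in I, ∫⁻ x, ‖uu (g (some t)) (ph Φ h c s) x‖ₑ ^ p
          = ∫⁻ s in I, ENNReal.ofReal ((((2 : ℝ) ^ t.2)⁻¹) ^ p) *
              ∫⁻ x, ‖uu (f t.1 t.2) (ph Φ h c s) x‖ₑ ^ p := by
            refine lintegral_congr fun s => ?_
            rw [← lintegral_const_mul' _ _ ENNReal.ofReal_ne_top]
            exact lintegral_congr fun x => e1 s x
        _ = ENNReal.ofReal ((((2 : ℝ) ^ t.2)⁻¹) ^ p) *
              ∫⁻ s in I, ∫⁻ x, ‖uu (f t.1 t.2) (ph Φ h c s) x‖ₑ ^ p :=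
            lintegral_const_mul' _ _ ENNReal.ofReal_ne_top
        _ ≤ ENNReal.ofReal ((((2 : ℝ) ^ t.2)⁻¹) ^ p) * ENNReal.ofReal (κ ^ C * W) := by
            gcongr
            exact hpiece _ (G t.1 t.2) t.1 v h1.le (ampf _ _ h0 h1 h2) k2 k3 hv0 (hvK.trans hκo) hvG
        _ = ENNReal.ofReal (κ ^ C * ((((2 : ℝ) ^ t.2)⁻¹) ^ p * W)) := by
            rw [← ENNReal.ofReal_mul (by positivity)]
            congr 1
            ring
        _ ≤ ENNReal.ofReal (κ ^ C * M0) := by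
            refine ENNReal.ofReal_le_ofReal ?_
            refine mul_le_mul_of_nonneg_left ?_ (by positivity)
            refine (hs_weight hd0 hp hs0 hKo hv0 hv1 h2j1).trans ?_
            have e5 : 0 ≤ 2 ^ j0 * ν ^ (p / 2) + (2 ^ j0) ^ (1 - 1 / (d : ℝ)) * ν := by positivity
            rw [hM0]
            linarith
  -- the sum
  have hcard : (U.card : ℝ) ≤ ((N : ℝ) + 1) ^ 2 := by
    have h1 : U.card = (N - j0) * (N + 1) + 1 := by
      rw [hU, Finset.card_insertNone, hT, Finset.card_product, Nat.card_Ico, Finset.card_range]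
    have h2 : (N - j0) * (N + 1) + 1 ≤ (N + 1) ^ 2 := by
      have h3 : (N - j0) * (N + 1) ≤ N * (N + 1) := Nat.mul_le_mul_right _ (Nat.sub_le _ _)
      nlinarith
    rw [h1]
    exact_mod_cast h2
  have hN : (N : ℝ) + 1 ≤ K3 * X ^ (ε / (4 * p)) := by
    refine hnum X N hX1 (hN2.trans ?_)
    refine mul_le_mul (le_abs_self _) ?_ (Real.sqrt_nonneg _) (abs_nonneg _)
    rw [Real.sqrt_le_left hX00.le]
    nlinarith
  have hcardp : (U.card : ℝ) ^ p ≤ K3 ^ (2 * p) * X ^ (ε / 2) := by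
    have h0 : (0 : ℝ) ≤ (N : ℝ) + 1 := by positivity
    calc (U.card : ℝ) ^ p ≤ (((N : ℝ) + 1) ^ 2) ^ p :=
          Real.rpow_le_rpow (Nat.cast_nonneg _) hcard hp0.le
      _ = ((N : ℝ) + 1) ^ (2 * p) := by
          rw [← Real.rpow_natCast, ← Real.rpow_mul h0]
          norm_num
      _ ≤ (K3 * X ^ (ε / (4 * p))) ^ (2 * p) := Real.rpow_le_rpow h0 hN (by positivity)
      _ = K3 ^ (2 * p) * X ^ (ε / 2) := by
          rw [Real.mul_rpow hK3.le (by positivity), ← Real.rpow_mul hX00.le]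
          congr 2
          field_simp
          norm_num
  have hUc : (U.card : ℝ≥0∞) = ENNReal.ofReal (U.card : ℝ) := (ENNReal.ofReal_natCast _).symm
  have hU0 : (0 : ℝ) < U.card := by
    have h1 : 0 < U.card := Finset.card_pos.2 ⟨none, by simp [hU]⟩
    exact_mod_cast h1
  calc ∫⁻ s in I, ∫⁻ x, ‖uu (mo η a (2 ^ N)) (ph Φ h c s) x‖ₑ ^ p
      ≤ ∫⁻ s in I, (U.card : ℝ≥0∞) ^ (p - 1) *
          ∑ u ∈ U, ∫⁻ x, ‖uu (g u) (ph Φ h c s) x‖ₑ ^ p := by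
        refine lintegral_mono fun s => ?_
        have h1 : ∀ x, uu (mo η a (2 ^ N)) (ph Φ h c s) x = ∑ u ∈ U, uu (g u) (ph Φ h c s) x :=
          uu_sum_fin U g _ _ intg (hqc s) hsum
        simp only [h1]
        exact lint_sum_fin volume U (fun u x => uu (g u) (ph Φ h c s) x) p hp1 fun u hu =>
          (ab_cont (intg u hu) (hqc s).measurable).measurable.aemeasurable
    _ = (U.card : ℝ≥0∞) ^ (p - 1) *
          ∑ u ∈ U, ∫⁻ s in I, ∫⁻ x, ‖uu (g u) (ph Φ h c s) x‖ₑ ^ p := by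
        rw [lintegral_const_mul', lintegral_finsetSum _ hmeas]
        exact ENNReal.rpow_ne_top_of_nonneg (by linarith) (ENNReal.natCast_ne_top _)
    _ ≤ (U.card : ℝ≥0∞) ^ (p - 1) * ((U.card : ℝ≥0∞) * ENNReal.ofReal (κ ^ C * M0)) := by
        gcongr
        refine (Finset.sum_le_card_nsmul _ _ _ hu).trans ?_
        rw [nsmul_eq_mul]
    _ = ENNReal.ofReal ((U.card : ℝ) ^ p * (κ ^ C * M0)) := by
        rw [hUc, ENNReal.ofReal_rpow_of_pos hU0, ← ENNReal.ofReal_mul hU0.le,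
          ← ENNReal.ofReal_mul (by positivity), ← mul_assoc]
        congr 2
        rw [← Real.rpow_add_one hU0.ne', sub_add_cancel]
    _ ≤ ENNReal.ofReal (K * X ^ ε) := by
        refine ENNReal.ofReal_le_ofReal ?_
        calc (U.card : ℝ) ^ p * (κ ^ C * M0) ≤
            (K3 ^ (2 * p) * X ^ (ε / 2)) * (X ^ (ε / 2) * M0) := by gcongr
          _ = (K3 ^ (2 * p) * M0) * (X ^ (ε / 2) * X ^ (ε / 2)) := by ring
          _ = (K3 ^ (2 * p) * M0) * X ^ ε := by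
              rw [← Real.rpow_add hX00, add_halves]
          _ ≤ K * X ^ ε := by gcongr

/-- The core for exponents outside a countable set. -/
theorem core_hs_p (d : ℕ) (hd : 2 ≤ d) (p : ℝ) (hp : 2 * ((d : ℝ) + 1) / d < p)
    (hp' : ∀ m : ℕ, (m : ℝ) * (p - 2) ≠ 1) (A : ℕ → ℝ)
    (r r' b ε s V : ℝ) (hr : 0 < r) (hr' : r < r') (hr1 : r' < 1) (hb : 0 < b) (hε : 0 < ε)
    (hs0 : (d : ℝ) / (d + 1) < s) (hs1 : s ≤ 1) (hV : 0 ≤ V) : ∃ K : ℝ, 0 < K ∧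
    ∀ (Φ h : E d → ℝ) (a : E d → ℂ), Sm d A Φ → Sm d A h → (∀ y, ‖y‖ ≤ r' → h y = hs y) →
      Measurable a → (∀ y, ‖a y‖ ≤ 1) → (∀ y, r < ‖y‖ → a y = 0) → BE2 d s V a → Df d b r' h →
      ∀ c : ℝ, ∫⁻ s : ℝ, ∫⁻ x, ‖uu a (ph Φ h c s) x‖ₑ ^ p ≤
        ENNReal.ofReal (K * (1 + |c|) ^ ε) := by
  have hd1 : 1 ≤ d := by omega
  have hd0 : (0 : ℝ) < d := by exact_mod_cast hd1
  have hp2 : 2 < p := by
    have h1 : 2 * ((d : ℝ) + 1) / d = 2 + 2 / d := by field_simp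
    have h2 : 0 < 2 / (d : ℝ) := by positivity
    linarith
  have hs2 : (d : ℝ) / (d + 1) < 1 := by
    rw [div_lt_one (by linarith)]
    linarith
  obtain ⟨r1, hr1a, hr1b⟩ := exists_between hr'
  have hr10 : 0 < r1 := by linarith
  obtain ⟨η, hη, hη0, hη1⟩ := exists_ker_nn d
  obtain ⟨A0, hA0⟩ := mo_amp d η hη
  set A1 : ℕ → ℝ := fun j => max (A j) (A0 j) with hA1
  have hAA1 : ∀ j, A j ≤ A1 j := fun j => le_max_left _ _
  have hA01 : ∀ j, A0 j ≤ A1 j := fun j => le_max_right _ _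
  obtain ⟨P0, K0, hP0, hK0, hrz⟩ := rough_zero2 d hd1 A r r' b p s V hr hr' hr1 hb hp hs0 hs1 hV
    η hη hη0 hη1
  set P1 : ℝ := max P0 (1 / (r1 - r)) with hP1def
  have hP1 : 1 ≤ P1 := hP0.trans (le_max_left _ _)
  have hP1r : 1 / P1 ≤ r1 - r := by
    have h1 : 1 / (r1 - r) ≤ P1 := le_max_right _ _
    have h2 : 0 < r1 - r := by linarith
    rw [div_le_iff₀ (by linarith)]
    rw [div_le_iff₀ h2] at h1
    linarith
  obtain ⟨Kf, τf, C1, hKf, hτf, hC1, hfar⟩ := far_lev d hd1 A1 r1 r' b p hr10 hr1b hb hp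
  obtain ⟨Kc, hKc0, hlarge⟩ := hs_near d hd p hp hp' A η hη hη0 hη1 r r' b ε
    (4 * C1 * P1 ^ 2) s V (2 * P1) hr hr' hb hε hs0 hs1 hV
  set Pm : ℝ := 2 * (P1 * √(1 + Kc)) with hPm
  have hPm0 : 0 < Pm := by positivity
  set Vm : ℝ := volume.real (Metric.closedBall (0 : E d) r1) * Pm with hVm
  obtain ⟨Kn, τn, hKn, hτn, hnear⟩ := near_lev d hd1 r1 1 p C1 Vm hr10 (by linarith)
    (by positivity) hs2 hp
  refine ⟨K0 * (1 + Kf + Kn + Kc), by positivity, ?_⟩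
  intro Φ h a hΦ hh hhs ham ha1 har hBV hdf c
  have hΦ1 : Sm d A1 Φ := hΦ.weaken hAA1
  have hh1 : Sm d A1 h := hh.weaken hAA1
  have hX1 : 1 ≤ 1 + |c| := by linarith [abs_nonneg c]
  set X : ℝ := 1 + |c| with hX
  have hX0 : 0 < X := by linarith
  have hsX : 1 ≤ √X := by
    rw [Real.one_le_sqrt]
    exact hX1
  have hsX2 : √X ^ 2 = X := Real.sq_sqrt hX0.le
  have hPX : 1 ≤ P1 * √X := one_le_mul_of_one_le_of_one_le hP1 hsX
  obtain ⟨N, hN1, hN2⟩ := ab_pow hPX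
  have h2N : (0 : ℝ) < 2 ^ N := by positivity
  have h2N1 : (1 : ℝ) ≤ 2 ^ N := hPX.trans hN1
  have hsN : √X ≤ 2 ^ N := le_trans (le_mul_of_one_le_left (by positivity) hP1) hN1
  have hP1N : P1 ≤ 2 ^ N := le_trans (le_mul_of_one_le_right (by linarith) hsX) hN1
  have hP0N : P0 * √X ≤ 2 ^ N := by
    refine le_trans ?_ hN1
    exact mul_le_mul_of_nonneg_right (le_max_left _ _) (by positivity)
  set f : E d → ℂ := mo η a (2 ^ N) with hf
  have hfA : AmpR d A1 r1 (2 ^ N) f := by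
    refine (hA0 a r _ h2N1 ham ha1 har).1.weaken ?_ fun j => ?_
    · have h1 : 1 / (2 : ℝ) ^ N ≤ 1 / P1 := one_div_le_one_div_of_le (by linarith) hP1N
      linarith
    · exact mul_le_mul_of_nonneg_right (hA01 j) (by positivity)
  have hf1 : ∀ y, ‖f y‖ ≤ 1 := fun y => mo_le_one hη hη0 hη1 ha1 h2N y
  have hfm : Measurable f := hfA.sm.continuous.measurable
  set F : ℝ → ℝ≥0∞ := fun t => ∫⁻ x, ‖uu f (ph Φ h c t) x‖ₑ ^ p with hF
  have hfarb : ∫⁻ t in {t : ℝ | C1 * (2 ^ N) ^ 2 < |t|}, F t ≤ ENNReal.ofReal Kf := by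
    refine (hfar f Φ h c (2 ^ N) h2N1 ?_ hΦ1 hh1 hfA hdf).trans ?_
    · calc 1 + |c| = √X ^ 2 := hsX2.symm
        _ ≤ (2 ^ N) ^ 2 := pow_le_pow_left₀ (by positivity) hsN 2
    · refine ENNReal.ofReal_le_ofReal ?_
      have h1 : ((2 : ℝ) ^ N) ^ (-τf) ≤ 1 := Real.rpow_le_one_of_one_le_of_nonpos h2N1 (by linarith)
      nlinarith
  have hXε : 1 ≤ X ^ ε := Real.one_le_rpow hX1 hε.le
  have hnearb : ∫⁻ t in {t : ℝ | |t| ≤ C1 * (2 ^ N) ^ 2}, F t ≤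
      ENNReal.ofReal ((Kn + Kc) * X ^ ε) := by
    rcases le_total |c| Kc with hc | hc
    · refine (hnear f Φ h c (2 ^ N) h2N1 hfm (fun y => (hf1 y).trans (by norm_num)) hfA.supp
        hΦ.sm.continuous.measurable hh.sm.continuous.measurable
        (fun y hy => hhs y (hy.trans hr1b.le)) ?_).trans ?_
      · have h1 : ∫⁻ y, ‖f y‖ₑ ≤ volume (Metric.closedBall (0 : E d) r1) := by
          rw [← setLIntegral_one, ← lintegral_indicator Metric.isClosed_closedBall.measurableSet]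
          refine lintegral_mono fun y => ?_
          by_cases hy : y ∈ Metric.closedBall (0 : E d) r1
          · rw [indicator_of_mem hy, ← ofReal_norm]
            exact ENNReal.ofReal_le_one.2 (hf1 y)
          · rw [indicator_of_notMem hy, hfA.supp y (by
              rw [mem_closedBall_zero_iff, not_le] at hy
              exact hy)]
            simp
        refine h1.trans ?_
        have h2 : volume (Metric.closedBall (0 : E d) r1) =
            ENNReal.ofReal (volume.real (Metric.closedBall (0 : E d) r1)) := by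
          rw [ofReal_measureReal measure_closedBall_lt_top.ne]
        rw [h2]
        refine ENNReal.ofReal_le_ofReal ?_
        have h3 : (2 : ℝ) ^ N ≤ Pm := by
          refine hN2.trans ?_
          rw [hPm]
          gcongr
          rw [hX]
          linarith
        rw [hVm, Real.rpow_neg_one, mul_assoc, ← div_eq_mul_inv]
        exact le_mul_of_one_le_right (by positivity) ((one_le_div h2N).2 h3)
      · refine ENNReal.ofReal_le_ofReal ?_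
        have h1 : ((2 : ℝ) ^ N) ^ (-τn) ≤ 1 :=
          Real.rpow_le_one_of_one_le_of_nonpos h2N1 (by linarith)
        nlinarith
    · have h1 : {t : ℝ | |t| ≤ C1 * (2 ^ N) ^ 2} ⊆ {s : ℝ | |s| ≤ 4 * C1 * P1 ^ 2 * (1 + |c|)} := by
        intro t ht
        have ht : |t| ≤ C1 * (2 ^ N) ^ 2 := ht
        change |t| ≤ 4 * C1 * P1 ^ 2 * (1 + |c|)
        refine ht.trans ?_
        have h3 : ((2 : ℝ) ^ N) ^ 2 ≤ (2 * (P1 * √X)) ^ 2 := pow_le_pow_left₀ h2N.le hN2 2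
        calc C1 * ((2 : ℝ) ^ N) ^ 2 ≤ C1 * (2 * (P1 * √X)) ^ 2 := by gcongr
          _ = 4 * C1 * P1 ^ 2 * √X ^ 2 := by ring
          _ = 4 * C1 * P1 ^ 2 * (1 + |c|) := by rw [hsX2]
      refine (lintegral_mono_set h1).trans ?_
      refine (hlarge Φ h a hΦ hh ham ha1 har hBV hdf c N hc hsN (by
        rw [mul_assoc]
        exact hN2)).trans ?_
      refine ENNReal.ofReal_le_ofReal ?_
      rw [← hX]
      nlinarith
  have hS : MeasurableSet {t : ℝ | C1 * (2 ^ N) ^ 2 < |t|} :=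
    measurableSet_lt measurable_const continuous_abs.measurable
  have hSc : {t : ℝ | C1 * (2 ^ N) ^ 2 < |t|}ᶜ = {t : ℝ | |t| ≤ C1 * (2 ^ N) ^ 2} := by
    ext t
    simp
  have htot : ∫⁻ t : ℝ, F t ≤ ENNReal.ofReal (Kf + (Kn + Kc) * X ^ ε) := by
    rw [← lintegral_add_compl F hS, hSc, ENNReal.ofReal_add hKf.le (by positivity)]
    exact add_le_add hfarb hnearb
  refine (hrz Φ h a hΦ hh hhs ham ha1 har hBV hdf c (2 ^ N) hP0N).trans ?_
  calc ENNReal.ofReal K0 * (1 + ∫⁻ t : ℝ, F t) ≤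
      ENNReal.ofReal K0 * (1 + ENNReal.ofReal (Kf + (Kn + Kc) * X ^ ε)) := by gcongr
    _ = ENNReal.ofReal (K0 * (1 + (Kf + (Kn + Kc) * X ^ ε))) := by
        rw [← ENNReal.ofReal_one, ← ENNReal.ofReal_add (by norm_num) (by positivity),
          ← ENNReal.ofReal_mul hK0.le]
    _ ≤ ENNReal.ofReal (K0 * (1 + Kf + Kn + Kc) * X ^ ε) := by
        refine ENNReal.ofReal_le_ofReal ?_
        rw [mul_assoc]
        refine mul_le_mul_of_nonneg_left ?_ hK0.le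
        nlinarith

/-- The core: every smooth phase, bounded amplitudes with an `L²`-modulus of continuity. -/
theorem core_hs (d : ℕ) (hd : 2 ≤ d) (A : ℕ → ℝ) (r r' b p ε s V : ℝ) (hr : 0 < r)
    (hr' : r < r') (hr1 : r' < 1) (hb : 0 < b) (hp : 2 * ((d : ℝ) + 1) / d < p) (hε : 0 < ε)
    (hs0 : (d : ℝ) / (d + 1) < s) (hs1 : s ≤ 1) (hV : 0 ≤ V) : ∃ K : ℝ, 0 < K ∧
    ∀ (Φ h : E d → ℝ) (a : E d → ℂ), Sm d A Φ → Sm d A h → (∀ y, ‖y‖ ≤ r' → h y = hs y) →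
      Measurable a → (∀ y, ‖a y‖ ≤ 1) → (∀ y, r < ‖y‖ → a y = 0) → BE2 d s V a → Df d b r' h →
      ∀ c : ℝ, ∫⁻ s : ℝ, ∫⁻ x, ‖uu a (ph Φ h c s) x‖ₑ ^ p ≤
        ENNReal.ofReal (K * (1 + |c|) ^ ε) := by
  have hd0 : (0 : ℝ) < d := by
    have : 0 < d := by omega
    exact_mod_cast this
  obtain ⟨p', h1, h2, h3⟩ := choose_p d hd p hp
  have hp2 : 2 < p' := by
    have h4 : 2 * ((d : ℝ) + 1) / d = 2 + 2 / d := by field_simp
    have h5 : 0 < 2 / (d : ℝ) := by positivity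
    linarith
  obtain ⟨K, hK, H⟩ := core_hs_p d hd p' h1 h3 A r r' b ε s V hr hr' hr1 hb hε hs0 hs1 hV
  set v : ℝ := volume.real (Metric.closedBall (0 : E d) r) ^ (p - p') with hv
  have hv0 : 0 ≤ v := by positivity
  refine ⟨(v + 1) * K, by positivity, ?_⟩
  intro Φ h a hΦ hh hhs ham ha1 har hBV hdf c
  calc ∫⁻ s : ℝ, ∫⁻ x, ‖uu a (ph Φ h c s) x‖ₑ ^ p ≤
      ∫⁻ s : ℝ, ENNReal.ofReal v * ∫⁻ x, ‖uu a (ph Φ h c s) x‖ₑ ^ p' :=
        lintegral_mono fun s => ab_red ha1 har _ (by linarith) h2.le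
    _ = ENNReal.ofReal v * ∫⁻ s : ℝ, ∫⁻ x, ‖uu a (ph Φ h c s) x‖ₑ ^ p' :=
        lintegral_const_mul' _ _ ENNReal.ofReal_ne_top
    _ ≤ ENNReal.ofReal v * ENNReal.ofReal (K * (1 + |c|) ^ ε) := by
        gcongr
        exact H Φ h a hΦ hh hhs ham ha1 har hBV hdf c
    _ = ENNReal.ofReal (v * (K * (1 + |c|) ^ ε)) := by rw [ENNReal.ofReal_mul hv0]
    _ ≤ ENNReal.ofReal ((v + 1) * K * (1 + |c|) ^ ε) := by
        refine ENNReal.ofReal_le_ofReal ?_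
        have h4 : 0 < K * (1 + |c|) ^ ε := by positivity
        nlinarith

end Pool.Agent.GNP
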