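import Pool.Agent.GNP.DefsH
import Pool.Agent.GNP.WMain
import Pool.Agent.GNP.WCH

/-!
The class `BN2` (functions on the sphere with an `L²`-modulus of continuity) under products with
Lipschitz functions, under isometries and in the chart.
-/

namespace Pool.Agent.GNP

open MeasureTheory Set Metric Pool.Agent.MP_6cbfb8_an
open scoped ENNReal Real RealInnerProductSpace ContDiff

theorem BN2.mono {n : ℕ} {s V V' : ℝ} {a : E n → ℂ} (h : BN2 n s V a) (hV : V ≤ V') :
    BN2 n s V' a := by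
  intro r hr
  refine (h r hr).trans (ENNReal.ofReal_le_ofReal ?_)
  exact mul_le_mul_of_nonneg_right hV (Real.rpow_nonneg hr.le _)

/-- The square of a sum of two extended nonnegative numbers. -/
theorem hs_sq_add (x y : ℝ≥0∞) : (x + y) ^ 2 ≤ 2 * x ^ 2 + 2 * y ^ 2 := by
  have h := ENNReal.rpow_add_le_mul_rpow_add_rpow x y (p := 2) (by norm_num)
  have e : (2 : ℝ≥0∞) ^ ((2 : ℝ) - 1) = 2 := by
    norm_num
  rw [e] at h
  calc (x + y) ^ 2 = (x + y) ^ (2 : ℝ) := by
        rw [← ENNReal.rpow_natCast]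
        norm_num
    _ ≤ 2 * (x ^ (2 : ℝ) + y ^ (2 : ℝ)) := h
    _ = 2 * x ^ 2 + 2 * y ^ 2 := by
        rw [mul_add, ← ENNReal.rpow_natCast, ← ENNReal.rpow_natCast]
        norm_num

theorem hs_sq_le {z : ℂ} (h : ‖z‖ ≤ 2) : ‖z‖ₑ ^ 2 ≤ 2 * ‖z‖ₑ := by
  rw [sq]
  refine mul_le_mul_left ?_ _
  rw [← ofReal_norm]
  calc ENNReal.ofReal ‖z‖ ≤ ENNReal.ofReal 2 := ENNReal.ofReal_le_ofReal h
    _ = 2 := by norm_num

/-- The difference of two products. -/
theorem hs_key {u u' : ℝ} {z z' : ℂ} (hu : |u| ≤ 1) (hu' : |u'| ≤ 1) (hz' : ‖z'‖ ≤ 1) :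
    ‖(u : ℂ) * z - (u' : ℂ) * z'‖ₑ ^ 2 ≤
      2 * ‖z - z'‖ₑ ^ 2 + 4 * ‖(u : ℂ) * 1 - (u' : ℂ) * 1‖ₑ := by
  have e : (u : ℂ) * z - (u' : ℂ) * z' = (u : ℂ) * (z - z') + ((u : ℂ) * 1 - (u' : ℂ) * 1) * z' := by
    ring
  have h1 : ‖(u : ℂ) * z - (u' : ℂ) * z'‖ₑ ≤ ‖z - z'‖ₑ + ‖(u : ℂ) * 1 - (u' : ℂ) * 1‖ₑ := by
    rw [e]
    refine (enorm_add_le _ _).trans (add_le_add ?_ ?_)
    · rw [enorm_mul]
      refine mul_le_of_le_one_left bot_le ?_
      rw [← ofReal_norm, Complex.norm_real, Real.norm_eq_abs]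
      exact ENNReal.ofReal_le_one.2 hu
    · rw [enorm_mul]
      refine mul_le_of_le_one_right bot_le ?_
      rw [← ofReal_norm]
      exact ENNReal.ofReal_le_one.2 hz'
  have h2 : ‖(u : ℂ) * 1 - (u' : ℂ) * 1‖ ≤ 2 := by
    rw [mul_one, mul_one, ← Complex.ofReal_sub, Complex.norm_real, Real.norm_eq_abs]
    calc |u - u'| ≤ |u| + |u'| := abs_sub _ _
      _ ≤ 2 := by linarith
  calc ‖(u : ℂ) * z - (u' : ℂ) * z'‖ₑ ^ 2
      ≤ (‖z - z'‖ₑ + ‖(u : ℂ) * 1 - (u' : ℂ) * 1‖ₑ) ^ 2 := by gcongr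
    _ ≤ 2 * ‖z - z'‖ₑ ^ 2 + 2 * ‖(u : ℂ) * 1 - (u' : ℂ) * 1‖ₑ ^ 2 := hs_sq_add _ _
    _ ≤ 2 * ‖z - z'‖ₑ ^ 2 + 2 * (2 * ‖(u : ℂ) * 1 - (u' : ℂ) * 1‖ₑ) := by
        gcongr
        exact hs_sq_le h2
    _ = _ := by
        rw [← mul_assoc]
        norm_num

theorem hs_meas_ball {n : ℕ} {f : S n → S n → ℝ≥0∞} (hf : Measurable (Function.uncurry f))
    (r : ℝ) : Measurable fun x : S n => ∫⁻ y in Metric.closedBall x r, f x y ∂(sm n) := by
  have e : ∀ x : S n, ∫⁻ y in Metric.closedBall x r, f x y ∂(sm n)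
      = ∫⁻ y, ({q : S n × S n | dist q.2 q.1 ≤ r}.indicator (Function.uncurry f)) (x, y)
        ∂(sm n) := by
    intro x
    rw [← lintegral_indicator Metric.isClosed_closedBall.measurableSet]
    rfl
  simp_rw [e]
  refine Measurable.lintegral_prod_right' (hf.indicator ?_)
  exact measurableSet_le (by fun_prop) measurable_const

theorem hs_ofReal {X Y : ℝ} (hX : 0 ≤ X) (hY : 0 ≤ Y) :
    2 * ENNReal.ofReal X + 4 * ENNReal.ofReal Y = ENNReal.ofReal (2 * X + 4 * Y) := by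
  have e2 : (2 : ℝ≥0∞) = ENNReal.ofReal 2 := by norm_num
  have e4 : (4 : ℝ≥0∞) = ENNReal.ofReal 4 := by norm_num
  rw [e2, e4, ← ENNReal.ofReal_mul (by norm_num), ← ENNReal.ofReal_mul (by norm_num),
    ← ENNReal.ofReal_add (by positivity) (by positivity)]

/-- The sum of two double integrals over balls of the sphere, with constants. -/
theorem hs_dbl {n : ℕ} (f g h : S n → S n → ℝ≥0∞) (hg : Measurable (Function.uncurry g))
    (H : ∀ x y, f x y ≤ 2 * h x y + 4 * g x y) (r : ℝ) :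
    ∫⁻ x : S n, (∫⁻ y in Metric.closedBall x r, f x y ∂(sm n)) ∂(sm n) ≤
      2 * (∫⁻ x : S n, (∫⁻ y in Metric.closedBall x r, h x y ∂(sm n)) ∂(sm n)) +
        4 * ∫⁻ x : S n, (∫⁻ y in Metric.closedBall x r, g x y ∂(sm n)) ∂(sm n) := by
  have hg4 : Measurable (Function.uncurry fun x y : S n => 4 * g x y) := hg.const_mul 4
  calc ∫⁻ x : S n, (∫⁻ y in Metric.closedBall x r, f x y ∂(sm n)) ∂(sm n)
      ≤ ∫⁻ x : S n, ((∫⁻ y in Metric.closedBall x r, 2 * h x y ∂(sm n)) +
          ∫⁻ y in Metric.closedBall x r, 4 * g x y ∂(sm n)) ∂(sm n) := by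
        refine lintegral_mono fun x => ?_
        have hfx : Measurable fun y : S n => 4 * g x y := hg4.comp measurable_prodMk_left
        rw [← lintegral_add_right _ hfx]
        exact lintegral_mono fun y => H x y
    _ = (∫⁻ x : S n, (∫⁻ y in Metric.closedBall x r, 2 * h x y ∂(sm n)) ∂(sm n)) +
          ∫⁻ x : S n, (∫⁻ y in Metric.closedBall x r, 4 * g x y ∂(sm n)) ∂(sm n) :=
        lintegral_add_right _ (hs_meas_ball hg4 r)
    _ = _ := by
        congr 1
        · rw [← lintegral_const_mul' _ _ (by norm_num)]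
          refine lintegral_congr fun x => ?_
          rw [lintegral_const_mul' _ _ (by norm_num)]
        · rw [← lintegral_const_mul' _ _ (by norm_num)]
          refine lintegral_congr fun x => ?_
          rw [lintegral_const_mul' _ _ (by norm_num)]

/-- Product with a Lipschitz function. -/
theorem BN2_mul (n : ℕ) (hn : 2 ≤ n) (s : ℝ) (hs0 : 0 < s) (hs1 : s ≤ 1) : ∃ K : ℝ, 0 < K ∧
    ∀ (V L : ℝ) (a : E n → ℂ) (u : E n → ℝ), 0 ≤ V → 0 ≤ L → Measurable a → (∀ x, ‖a x‖ ≤ 1) →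
    Measurable u → (∀ x, |u x| ≤ 1) →
    (∀ x y, ‖x‖ = 1 → ‖y‖ = 1 → |u x - u y| ≤ L * ‖x - y‖) → BN2 n s V a →
    BN2 n s (2 * V + K * L) (fun x => (u x : ℂ) * a x) := by
  obtain ⟨K, hK, hmul⟩ := BVn_mul n hn s hs0 hs1
  refine ⟨4 * K, by positivity, fun V L a u hV hL _ ha1 hum hu1 hu h r hr => ?_⟩
  have hone : BVn n s 0 fun _ => (1 : ℂ) := by
    intro r _
    simp
  have h1 := hmul 0 L (fun _ => 1) u le_rfl hL measurable_const (fun _ => by simp) hum hu1 hu hone
    r hr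
  have hfm : Measurable (Function.uncurry fun x y : S n =>
      ‖(u x : ℂ) * 1 - (u y : ℂ) * 1‖ₑ) := by
    have h2 : Measurable fun q : S n × S n => (u q.1 : ℂ) * 1 - (u q.2 : ℂ) * 1 := by
      fun_prop
    exact h2.enorm
  have hR : 0 ≤ r ^ ((n : ℝ) - 1 + s) := Real.rpow_nonneg hr.le _
  refine (hs_dbl (fun x y : S n => ‖(u x : ℂ) * a x - (u y : ℂ) * a y‖ₑ ^ 2)
    (fun x y : S n => ‖(u x : ℂ) * 1 - (u y : ℂ) * 1‖ₑ) (fun x y : S n => ‖a x - a y‖ₑ ^ 2) hfm
    (fun x y => hs_key (hu1 _) (hu1 _) (ha1 _)) r).trans ?_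
  refine (add_le_add (mul_le_mul_right (h r hr) 2) (mul_le_mul_right h1 4)).trans (le_of_eq ?_)
  rw [hs_ofReal (mul_nonneg hV hR) (mul_nonneg (by positivity) hR)]
  congr 1
  ring

/-- Invariance under isometries. -/
theorem BN2_iso (n : ℕ) (s V : ℝ) (a : E n → ℂ) (h : BN2 n s V a)
    (R : E n ≃ₗᵢ[ℝ] E n) : BN2 n s V (fun x => a (R x)) := by
  intro r hr
  have hmp := measurePreserving_isometry R
  set e : S n → S n := fun x : S n => (⟨R x, by simp⟩ : S n) with he
  have hc : Continuous e := (R.continuous.comp continuous_subtype_val).subtype_mk _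
  have hinj : Function.Injective e := by
    intro x y hxy
    apply Subtype.ext
    apply R.injective
    exact congrArg Subtype.val hxy
  have hemb : MeasurableEmbedding e := (hc.isClosedEmbedding hinj).measurableEmbedding
  have hin : ∀ x : S n, ∫⁻ y in Metric.closedBall x r, ‖a (R x) - a (R y)‖ₑ ^ 2 ∂(sm n) =
      ∫⁻ y in Metric.closedBall (e x) r, ‖a (e x : E n) - a (y : E n)‖ₑ ^ 2 ∂(sm n) := by
    intro x
    have hpre : e ⁻¹' Metric.closedBall (e x) r = Metric.closedBall x r := by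
      ext y
      simp only [mem_preimage, Metric.mem_closedBall, Subtype.dist_eq, he, R.dist_map]
    rw [← hmp.setLIntegral_comp_preimage_emb hemb
      (fun y : S n => ‖a (e x : E n) - a (y : E n)‖ₑ ^ 2) (Metric.closedBall (e x) r), hpre]
  calc ∫⁻ x : S n, (∫⁻ y in Metric.closedBall x r, ‖a (R x) - a (R y)‖ₑ ^ 2 ∂(sm n)) ∂(sm n)
      = ∫⁻ x : S n, (∫⁻ y in Metric.closedBall (e x) r,
          ‖a (e x : E n) - a (y : E n)‖ₑ ^ 2 ∂(sm n)) ∂(sm n) := lintegral_congr hin
    _ = ∫⁻ x : S n, (∫⁻ y in Metric.closedBall x r,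
          ‖a (x : E n) - a (y : E n)‖ₑ ^ 2 ∂(sm n)) ∂(sm n) :=
        hmp.lintegral_comp_emb hemb (fun x : S n => ∫⁻ y in Metric.closedBall x r,
          ‖a (x : E n) - a (y : E n)‖ₑ ^ 2 ∂(sm n))
    _ ≤ _ := h r hr

theorem chh_be2 (n : ℕ) (r : ℝ) (hr : 0 < r) (hr1 : r < 1) (s V L : ℝ) (hs0 : 0 < s)
    (hs1 : s ≤ 1) (hV : 0 ≤ V) (hL : 0 ≤ L) :
    ∃ V' : ℝ, 1 ≤ V' ∧ ∀ (w : E (n + 1) → ℝ) (a : E (n + 2) → ℂ), Measurable a →
      (∀ x, ‖a x‖ ≤ 1) → Measurable w → (∀ y, |w y| ≤ 1) →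
      (∀ x y, |w x - w y| ≤ L * ‖x - y‖) → (∀ y, r < ‖y‖ → (w y : ℂ) * a (join y (hs y)) = 0) →
      BN2 (n + 2) s V a → BE2 (n + 1) s V' (fun y => (w y : ℂ) * a (join y (hs y))) := by
  classical
  set t0 : ℝ := (1 - r) / 2 with ht0
  have ht00 : 0 < t0 := by rw [ht0]; linarith
  have hr' : r + t0 < 1 := by rw [ht0]; linarith
  obtain ⟨A, g, hg1, hg2, hg3, -⟩ := cha_cut (r + t0) hr'
    (fun y : E (n + 1) => (join y (hs y) : E (n + 2))) cha_graph_smooth
  set Λ : ℝ := max 1 (A 1) with hΛ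
  have hΛ1 : 1 ≤ Λ := le_max_left _ _
  have hlip : ∀ x y : E (n + 1), ‖x‖ ≤ r + t0 → ‖y‖ ≤ r + t0 →
      dist (join y (hs y) : E (n + 2)) (join x (hs x)) ≤ Λ * dist y x := by
    intro x y hx hy
    rw [dist_eq_norm, dist_eq_norm, ← hg3 y hy, ← hg3 x hx]
    refine (chw_lip hg1 hg2 y x).trans ?_
    gcongr
    exact le_max_right _ _
  set β : ℝ≥0∞ := volume (ball (0 : E (n + 1)) 1) with hβ
  have hβt : β ≠ ⊤ := measure_ball_lt_top.ne
  set b : ℝ := β.toReal with hb
  have hb0 : 0 ≤ b := ENNReal.toReal_nonneg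
  have hβb : β = ENNReal.ofReal b := (ENNReal.ofReal_toReal hβt).symm
  set D : ℝ := ((n + 1 : ℕ) : ℝ) + s with hD
  refine ⟨max 1 (2 * V * Λ ^ D + 4 * L * b ^ 2 + 4 * b ^ 2 * t0 ^ (-s)), le_max_left _ _, ?_⟩
  intro w a ha ha1 hw hw1 hwL hsupp hbv t ht
  have hball : ∀ x : E (n + 1), volume (closedBall x t) = ENNReal.ofReal (t ^ (n + 1) * b) := by
    intro x
    rw [Measure.addHaar_closedBall _ x ht.le, finrank_euclideanSpace_fin,
      ENNReal.ofReal_mul (by positivity), ← hβb]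
  set A' : E (n + 1) → ℂ := fun y => (w y : ℂ) * a (join y (hs y)) with hA'
  have hA'm : Measurable A' := by
    rw [hA']
    exact (Complex.measurable_ofReal.comp hw).mul (ha.comp (chw_graph_meas n))
  have hA'1 : ∀ y, ‖A' y‖ ≤ 1 := by
    intro y
    rw [hA']
    simp only
    rw [norm_mul, Complex.norm_real, Real.norm_eq_abs]
    exact mul_le_one₀ (hw1 y) (norm_nonneg _) (ha1 _)
  have hA'int : ∫⁻ y, ‖A' y‖ₑ ≤ ENNReal.ofReal b := by
    rw [← hβb, hβ, ← lintegral_indicator_one measurableSet_ball]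
    refine lintegral_mono fun y => ?_
    by_cases hy : y ∈ ball (0 : E (n + 1)) 1
    · rw [indicator_of_mem hy, ← ofReal_norm]
      simpa using ENNReal.ofReal_le_ofReal (hA'1 y)
    · have hy1 : 1 ≤ ‖y‖ := by simpa using hy
      have : A' y = 0 := hsupp y (hr1.trans_le hy1)
      rw [this]
      simp
  have htD : t ^ D = t ^ (n + 1) * t ^ s := by
    rw [hD, Real.rpow_add ht, Real.rpow_natCast]
  rcases le_or_gt t t0 with htt | htt
  · -- small distances
    set K : E (n + 2) × E (n + 2) → ℝ≥0∞ := fun q =>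
      if dist q.2 q.1 ≤ Λ * t then ‖a q.1 - a q.2‖ₑ ^ 2 else 0 with hK
    have hKm : Measurable K := by
      refine Measurable.ite (measurableSet_le (by fun_prop) measurable_const) ?_ measurable_const
      exact ((ha.comp measurable_fst).sub (ha.comp measurable_snd)).enorm.pow_const 2
    have hpt : ∀ x ∈ ball (0 : E (n + 1)) 1, ∀ y ∈ closedBall x t, ‖A' x - A' y‖ₑ ^ 2 ≤
        (ball (0 : E (n + 1)) 1).indicator (fun y => 2 * K (join x (hs x), join y (hs y))) y +
          ENNReal.ofReal (4 * L * t) := by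
      intro x hx y hy
      have hyx : dist y x ≤ t := hy
      by_cases hc : ‖x‖ ≤ r ∨ ‖y‖ ≤ r
      · have h1 : ‖x‖ ≤ r + t0 ∧ ‖y‖ ≤ r + t0 := by
          rw [dist_eq_norm] at hyx
          rcases hc with hc | hc
          · refine ⟨by linarith, ?_⟩
            have := norm_add_le (y - x) x
            rw [sub_add_cancel] at this
            linarith
          · refine ⟨?_, by linarith⟩
            have := norm_add_le (x - y) y
            rw [sub_add_cancel] at this
            rw [norm_sub_rev] at this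
            linarith
        have hyb : y ∈ ball (0 : E (n + 1)) 1 := by simpa using h1.2.trans_lt hr'
        rw [indicator_of_mem hyb, hK]
        simp only
        rw [if_pos ((hlip x y h1.1 h1.2).trans (by gcongr))]
        refine (hs_key (hw1 x) (hw1 y) (ha1 _)).trans (add_le_add le_rfl ?_)
        have h2 : ‖(w x : ℂ) * 1 - (w y : ℂ) * 1‖ₑ ≤ ENNReal.ofReal (L * t) := by
          rw [← ofReal_norm]
          refine ENNReal.ofReal_le_ofReal ?_
          rw [mul_one, mul_one, ← Complex.ofReal_sub, Complex.norm_real, Real.norm_eq_abs]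
          have h3 : ‖x - y‖ ≤ t := by rw [← dist_eq_norm, dist_comm]; exact hyx
          exact (hwL x y).trans (by gcongr)
        calc 4 * ‖(w x : ℂ) * 1 - (w y : ℂ) * 1‖ₑ ≤ 4 * ENNReal.ofReal (L * t) :=
              mul_le_mul_right h2 4
          _ = ENNReal.ofReal (4 * L * t) := by
              have e4 : (4 : ℝ≥0∞) = ENNReal.ofReal 4 := by norm_num
              rw [e4, ← ENNReal.ofReal_mul (by norm_num), mul_assoc]
      · push Not at hc
        have h1 : A' x = 0 := hsupp x hc.1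
        have h2 : A' y = 0 := hsupp y hc.2
        rw [h1, h2]
        simp
    have hx1 : ∀ x : E (n + 1), ∫⁻ y in closedBall x t, ‖A' x - A' y‖ₑ ^ 2 ≤
        (ball (0 : E (n + 1)) 1).indicator (fun x => (∫⁻ y in ball (0 : E (n + 1)) 1,
          2 * K (join x (hs x), join y (hs y))) +
            ENNReal.ofReal (4 * L * t * (t ^ (n + 1) * b))) x := by
      intro x
      by_cases hx : x ∈ ball (0 : E (n + 1)) 1
      · rw [indicator_of_mem hx]
        calc ∫⁻ y in closedBall x t, ‖A' x - A' y‖ₑ ^ 2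
            ≤ ∫⁻ y in closedBall x t, ((ball (0 : E (n + 1)) 1).indicator
                (fun y => 2 * K (join x (hs x), join y (hs y))) y +
                  ENNReal.ofReal (4 * L * t)) :=
              setLIntegral_mono' measurableSet_closedBall (hpt x hx)
          _ = (∫⁻ y in closedBall x t, (ball (0 : E (n + 1)) 1).indicator
                (fun y => 2 * K (join x (hs x), join y (hs y))) y) +
                ∫⁻ y in closedBall x t, ENNReal.ofReal (4 * L * t) :=
              lintegral_add_right _ measurable_const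
          _ ≤ (∫⁻ y, (ball (0 : E (n + 1)) 1).indicator
                (fun y => 2 * K (join x (hs x), join y (hs y))) y) +
                ENNReal.ofReal (4 * L * t * (t ^ (n + 1) * b)) := by
              refine add_le_add (setLIntegral_le_lintegral _ _) ?_
              rw [setLIntegral_const, hball, ← ENNReal.ofReal_mul (by positivity)]
          _ = _ := by rw [lintegral_indicator measurableSet_ball]
      · rw [indicator_of_notMem hx]
        have hx1 : 1 ≤ ‖x‖ := by simpa using hx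
        refine le_of_eq ?_
        rw [← lintegral_zero (μ := volume.restrict (closedBall x t))]
        refine setLIntegral_congr_fun measurableSet_closedBall fun y hy => ?_
        have hyx : dist y x ≤ t := hy
        have h2 : r < ‖y‖ := by
          rw [dist_eq_norm, norm_sub_rev] at hyx
          have := norm_add_le (x - y) y
          rw [sub_add_cancel] at this
          linarith
        have h3 : A' x = 0 := hsupp x (hr1.trans_le hx1)
        have h4 : A' y = 0 := hsupp y h2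
        simp [h3, h4]
    have hKK : ∫⁻ x in ball (0 : E (n + 1)) 1, ∫⁻ y in ball (0 : E (n + 1)) 1,
          2 * K (join x (hs x), join y (hs y)) ≤ ENNReal.ofReal (2 * V * (Λ * t) ^ D) := by
      have h1 : ∫⁻ x in ball (0 : E (n + 1)) 1, ∫⁻ y in ball (0 : E (n + 1)) 1,
          2 * K (join x (hs x), join y (hs y)) = 2 * ∫⁻ x in ball (0 : E (n + 1)) 1,
            ∫⁻ y in ball (0 : E (n + 1)) 1, K (join x (hs x), join y (hs y)) := by
        rw [← lintegral_const_mul' _ _ (by norm_num)]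
        refine lintegral_congr fun x => ?_
        rw [lintegral_const_mul' _ _ (by norm_num)]
      have h2 : ∫⁻ X : S (n + 2), ∫⁻ Y : S (n + 2), K ((X : E (n + 2)), (Y : E (n + 2)))
          ∂(sm (n + 2)) ∂(sm (n + 2)) ≤ ENNReal.ofReal (V * (Λ * t) ^ D) := by
        have h5 := hbv (Λ * t) (by positivity)
        have h6 : (((n + 2 : ℕ) : ℝ) - 1 + s) = D := by
          rw [hD]
          push_cast
          ring
        rw [h6] at h5
        refine le_trans (le_of_eq ?_) h5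
        refine lintegral_congr fun X => ?_
        rw [← lintegral_indicator measurableSet_closedBall]
        refine lintegral_congr fun Y => ?_
        rw [hK]
        simp only [indicator, mem_closedBall]
        rfl
      have e2 : (2 : ℝ≥0∞) = ENNReal.ofReal 2 := by norm_num
      rw [h1]
      refine (mul_le_mul_right ((chw_two n K hKm).trans h2) 2).trans (le_of_eq ?_)
      rw [e2, ← ENNReal.ofReal_mul (by norm_num), mul_assoc]
    calc ∫⁻ x, ∫⁻ y in closedBall x t, ‖A' x - A' y‖ₑ ^ 2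
        ≤ ∫⁻ x, (ball (0 : E (n + 1)) 1).indicator (fun x => (∫⁻ y in ball (0 : E (n + 1)) 1,
          2 * K (join x (hs x), join y (hs y))) +
            ENNReal.ofReal (4 * L * t * (t ^ (n + 1) * b))) x :=
          lintegral_mono hx1
      _ = ∫⁻ x in ball (0 : E (n + 1)) 1, ((∫⁻ y in ball (0 : E (n + 1)) 1,
          2 * K (join x (hs x), join y (hs y))) +
            ENNReal.ofReal (4 * L * t * (t ^ (n + 1) * b))) :=
          lintegral_indicator measurableSet_ball _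
      _ = (∫⁻ x in ball (0 : E (n + 1)) 1, ∫⁻ y in ball (0 : E (n + 1)) 1,
          2 * K (join x (hs x), join y (hs y))) +
            ENNReal.ofReal (4 * L * t * (t ^ (n + 1) * b)) * β := by
          rw [lintegral_add_right _ measurable_const, setLIntegral_const]
      _ ≤ ENNReal.ofReal (2 * V * (Λ * t) ^ D) +
            ENNReal.ofReal (4 * L * t * (t ^ (n + 1) * b)) * β := add_le_add hKK le_rfl
      _ = ENNReal.ofReal (2 * V * (Λ * t) ^ D + 4 * L * t * (t ^ (n + 1) * b) * b) := by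
          rw [hβb, ← ENNReal.ofReal_mul (by positivity), ← ENNReal.ofReal_add (by positivity)
            (by positivity)]
      _ ≤ _ := by
          refine ENNReal.ofReal_le_ofReal ?_
          have ht1 : t ≤ 1 := by linarith
          have h7 : t ≤ t ^ s := by
            calc t = t ^ (1 : ℝ) := (Real.rpow_one t).symm
              _ ≤ t ^ s := Real.rpow_le_rpow_of_exponent_ge ht ht1 hs1
          have h8 : (Λ * t) ^ D = Λ ^ D * t ^ D :=
            Real.mul_rpow (by positivity) ht.le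
          rw [h8]
          calc 2 * V * (Λ ^ D * t ^ D) + 4 * L * t * (t ^ (n + 1) * b) * b
              = 2 * V * Λ ^ D * t ^ D + 4 * L * b ^ 2 * (t ^ (n + 1) * t) := by ring
            _ ≤ 2 * V * Λ ^ D * t ^ D + 4 * L * b ^ 2 * (t ^ (n + 1) * t ^ s) := by gcongr
            _ = (2 * V * Λ ^ D + 4 * L * b ^ 2) * t ^ D := by rw [← htD]; ring
            _ ≤ max 1 (2 * V * Λ ^ D + 4 * L * b ^ 2 + 4 * b ^ 2 * t0 ^ (-s)) * t ^ D := by
                gcongr
                refine le_trans ?_ (le_max_right _ _)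
                have : 0 ≤ 4 * b ^ 2 * t0 ^ (-s) := by positivity
                linarith
  · -- large distances
    have h1 : ∀ x : E (n + 1), ∫⁻ y in closedBall x t, ‖A' x - A' y‖ₑ ^ 2 ≤
        2 * (‖A' x‖ₑ * ENNReal.ofReal (t ^ (n + 1) * b) + ∫⁻ y in closedBall x t, ‖A' y‖ₑ) := by
      intro x
      calc ∫⁻ y in closedBall x t, ‖A' x - A' y‖ₑ ^ 2
          ≤ ∫⁻ y in closedBall x t, 2 * (‖A' x‖ₑ + ‖A' y‖ₑ) := by
            refine lintegral_mono fun y => ?_
            refine (hs_sq_le ?_).trans (mul_le_mul_right enorm_sub_le 2)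
            refine (norm_sub_le _ _).trans ?_
            linarith [hA'1 x, hA'1 y]
        _ = 2 * ∫⁻ y in closedBall x t, (‖A' x‖ₑ + ‖A' y‖ₑ) :=
            lintegral_const_mul' _ _ (by norm_num)
        _ = 2 * ((∫⁻ y in closedBall x t, ‖A' x‖ₑ) + ∫⁻ y in closedBall x t, ‖A' y‖ₑ) := by
            rw [lintegral_add_left measurable_const _]
        _ = _ := by rw [setLIntegral_const, hball]
    have h2 : ∫⁻ x, ∫⁻ y in closedBall x t, ‖A' y‖ₑ =
        ∫⁻ y, ‖A' y‖ₑ * ENNReal.ofReal (t ^ (n + 1) * b) := by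
      have h3 : ∀ x : E (n + 1), ∫⁻ y in closedBall x t, ‖A' y‖ₑ =
          ∫⁻ y, if dist y x ≤ t then ‖A' y‖ₑ else 0 := by
        intro x
        rw [← lintegral_indicator measurableSet_closedBall]
        refine lintegral_congr fun y => ?_
        simp only [indicator, mem_closedBall]
      simp_rw [h3]
      rw [lintegral_lintegral_swap]
      · refine lintegral_congr fun y => ?_
        have h4 : ∀ x : E (n + 1), (if dist y x ≤ t then ‖A' y‖ₑ else 0) =
            (closedBall y t).indicator (fun _ => ‖A' y‖ₑ) x := by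
          intro x
          simp only [indicator, mem_closedBall, dist_comm x y]
        simp_rw [h4]
        rw [lintegral_indicator measurableSet_closedBall, setLIntegral_const, hball]
      · refine Measurable.aemeasurable ?_
        refine Measurable.ite (measurableSet_le (by fun_prop) measurable_const) ?_
          measurable_const
        exact (hA'm.comp measurable_snd).enorm
    have h3 : ∫⁻ x, (‖A' x‖ₑ * ENNReal.ofReal (t ^ (n + 1) * b) +
        ∫⁻ y in closedBall x t, ‖A' y‖ₑ) ≤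
        ENNReal.ofReal (b * (t ^ (n + 1) * b) + b * (t ^ (n + 1) * b)) := by
      calc ∫⁻ x, (‖A' x‖ₑ * ENNReal.ofReal (t ^ (n + 1) * b) +
            ∫⁻ y in closedBall x t, ‖A' y‖ₑ)
          = (∫⁻ x, ‖A' x‖ₑ * ENNReal.ofReal (t ^ (n + 1) * b)) +
              ∫⁻ x, ∫⁻ y in closedBall x t, ‖A' y‖ₑ :=
            lintegral_add_left (hA'm.enorm.mul_const _) _
        _ = (∫⁻ x, ‖A' x‖ₑ) * ENNReal.ofReal (t ^ (n + 1) * b) +
              (∫⁻ x, ‖A' x‖ₑ) * ENNReal.ofReal (t ^ (n + 1) * b) := by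
            rw [h2, lintegral_mul_const _ hA'm.enorm]
        _ ≤ ENNReal.ofReal b * ENNReal.ofReal (t ^ (n + 1) * b) +
              ENNReal.ofReal b * ENNReal.ofReal (t ^ (n + 1) * b) := by gcongr
        _ = ENNReal.ofReal (b * (t ^ (n + 1) * b) + b * (t ^ (n + 1) * b)) := by
            rw [← ENNReal.ofReal_mul hb0, ← ENNReal.ofReal_add (by positivity) (by positivity)]
    calc ∫⁻ x, ∫⁻ y in closedBall x t, ‖A' x - A' y‖ₑ ^ 2
        ≤ ∫⁻ x, 2 * (‖A' x‖ₑ * ENNReal.ofReal (t ^ (n + 1) * b) +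
            ∫⁻ y in closedBall x t, ‖A' y‖ₑ) := lintegral_mono h1
      _ = 2 * ∫⁻ x, (‖A' x‖ₑ * ENNReal.ofReal (t ^ (n + 1) * b) +
            ∫⁻ y in closedBall x t, ‖A' y‖ₑ) := lintegral_const_mul' _ _ (by norm_num)
      _ ≤ 2 * ENNReal.ofReal (b * (t ^ (n + 1) * b) + b * (t ^ (n + 1) * b)) :=
          mul_le_mul_right h3 2
      _ = ENNReal.ofReal (2 * (b * (t ^ (n + 1) * b) + b * (t ^ (n + 1) * b))) := by
          have e2 : (2 : ℝ≥0∞) = ENNReal.ofReal 2 := by norm_num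
          rw [e2, ← ENNReal.ofReal_mul (by norm_num)]
      _ ≤ _ := by
          refine ENNReal.ofReal_le_ofReal ?_
          have h5 : 1 ≤ t0 ^ (-s) * t ^ s := by
            rw [Real.rpow_neg ht00.le, ← div_eq_inv_mul, ← Real.div_rpow ht.le ht00.le]
            exact Real.one_le_rpow ((one_le_div ht00).2 htt.le) hs0.le
          calc 2 * (b * (t ^ (n + 1) * b) + b * (t ^ (n + 1) * b))
              = 4 * b ^ 2 * t ^ (n + 1) * 1 := by ring
            _ ≤ 4 * b ^ 2 * t ^ (n + 1) * (t0 ^ (-s) * t ^ s) := by gcongr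
            _ = (4 * b ^ 2 * t0 ^ (-s)) * t ^ D := by rw [htD]; ring
            _ ≤ max 1 (2 * V * Λ ^ D + 4 * L * b ^ 2 + 4 * b ^ 2 * t0 ^ (-s)) * t ^ D := by
                gcongr
                refine le_trans ?_ (le_max_right _ _)
                have : 0 ≤ 2 * V * Λ ^ D + 4 * L * b ^ 2 := by positivity
                linarith

/-- The chart for amplitudes with an `L²`-modulus of continuity, with the height chosen first. -/
theorem chart_h (d : ℕ) (hd : 1 ≤ d) (r ρ s V : ℝ) (hr : 0 < r) (hrρ : r < ρ) (hρ : ρ < 1)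
    (hs0 : 0 < s) (hs1 : s ≤ 1) (hV : 0 ≤ V) (B : ℕ → ℝ) :
    ∃ (A : ℕ → ℝ) (V' C0 : ℝ) (h : E d → ℝ), 1 ≤ V' ∧ 1 ≤ C0 ∧ Sm d A h ∧
      (∀ y, ‖y‖ < ρ → h y = hs y) ∧
      ∀ (φ : E (d + 1) → ℝ) (a : E (d + 1) → ℂ), Measurable φ →
        (∀ x, ‖x‖ = 1 → ContDiffAt ℝ ∞ φ x) →
        (∀ k x, ‖x‖ = 1 → ‖iteratedFDeriv ℝ k φ x‖ ≤ B k) → Measurable a →
        (∀ x, ‖a x‖ ≤ 1) → BN2 (d + 1) s V a →
        (∀ (y : E d) (t : ℝ), ‖y‖ ^ 2 + t ^ 2 = 1 → (r < ‖y‖ ∨ t ≤ 0) → a (join y t) = 0) →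
        ∃ (Φ : E d → ℝ) (a' : E d → ℂ), Sm d A Φ ∧ Measurable a' ∧ (∀ y, ‖a' y‖ ≤ 1) ∧
          (∀ y, r < ‖y‖ → a' y = 0) ∧ BE2 d s V' a' ∧
          (∀ y, ‖y‖ < ρ → Φ y = φ (join y (hs y))) ∧
          ∀ (p : ℝ), 0 < p → ∀ c : ℝ,
            ∫⁻ ξ, ‖extn (fun x => a x * Complex.exp (((c * φ x : ℝ) : ℂ) * Complex.I)) ξ‖ₑ ^ p ≤
              ENNReal.ofReal (C0 ^ p) * ∫⁻ t : ℝ, ∫⁻ x, ‖uu a' (ph Φ h c t) x‖ₑ ^ p := by
  obtain ⟨n, rfl⟩ : ∃ n, d = n + 1 := ⟨d - 1, by omega⟩
  obtain ⟨A1, h, hh, hh'⟩ := cha_h (d := n + 1) ρ hρ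
  obtain ⟨r2, hr2, hcut⟩ := chu_cut (d := n + 1) ρ hρ
  obtain ⟨C2, η, hη1, hη2, hη3, hη4⟩ := hcut (fun _ => 1) contDiffOn_const
  obtain ⟨C3, ζ, hζ1, hζ2, hζ3, hζ4⟩ := hcut (fun y => 1 / hs y)
    (contDiffOn_const.div cha_hs_smooth fun y hy => (cha_hs_pos hy).ne')
  obtain ⟨D, hD⟩ := chu_graph (d := n + 1) r2 hr2
  set M : ℕ → ℝ := fun j => j.factorial * (∑ i ∈ Finset.range (j + 1), |B i|) * D j ^ j with hMd
  set A2 : ℕ → ℝ := fun n => ∑ i ∈ Finset.range (n + 1), (n.choose i : ℝ) * C2 i * |M (n - i)|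
    with hA2
  set C0 : ℝ := max 1 (C3 0) with hC0
  have hC01 : 1 ≤ C0 := le_max_left _ _
  have hC00 : 0 < C0 := by linarith
  have hζb : ∀ y, |ζ y| ≤ C0 := by
    intro y
    have h1 := hζ2 0 y
    rw [norm_iteratedFDeriv_zero, Real.norm_eq_abs] at h1
    exact h1.trans (le_max_right _ _)
  have hC31 : 0 ≤ C3 1 := (norm_nonneg _).trans (hζ2 1 0)
  obtain ⟨V', hV'1, hV'⟩ := chh_be2 n r hr (hrρ.trans hρ) s V (C3 1) hs0 hs1 hV hC31
  refine ⟨fun j => max (A1 j) (A2 j), V', C0, h, hV'1, hC01,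
    ⟨hh.sm, fun j y => (hh.bd j y).trans (le_max_left _ _)⟩, hh',
    fun φ a hφm hφ hB ha ha1 hbv hsupp => ?_⟩
  obtain ⟨e1, e2⟩ := hD ℝ φ B hφ hB
  obtain ⟨f1, f2⟩ := chu_mul r2 hr2 C2 M η hη1 hη2 hη4 _ e1 e2
  have g1 : ∀ y : E (n + 1), ‖y‖ < ρ → η y • φ (join y (hs y)) = φ (join y (hs y)) :=
    fun y hy => by rw [hη3 y hy.le, one_smul]
  have g2 : ∀ y : E (n + 1), r < ‖y‖ → (ζ y / C0 = 0 ∨ a (join y (hs y)) = 0) := by
    intro y hy
    rcases lt_or_ge ‖y‖ 1 with hy1 | hy1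
    · exact Or.inr (hsupp y (hs y) (cha_hs_sq (by simpa using hy1)) (Or.inl hy))
    · left
      rw [hζ4 y (hr2.trans_le hy1), zero_div]
  have g3 : ∀ y : E (n + 1), r < ‖y‖ → ((ζ y / C0 : ℝ) : ℂ) * a (join y (hs y)) = 0 := by
    intro y hy
    rcases g2 y hy with h0 | h0
    · rw [h0, Complex.ofReal_zero, zero_mul]
    · rw [h0, mul_zero]
  have g4 : ∀ y : E (n + 1), |ζ y / C0| ≤ 1 := by
    intro y
    rw [abs_div, abs_of_pos hC00, div_le_one hC00]
    exact hζb y
  refine ⟨fun y => η y • φ (join y (hs y)), fun y => ((ζ y / C0 : ℝ) : ℂ) * a (join y (hs y)),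
    ⟨f1, fun j y => (f2 j y).trans (le_max_right _ _)⟩, ?_, fun y => ?_, g3, ?_, g1,
    fun p hp c => ?_⟩
  · exact (Complex.measurable_ofReal.comp (hζ1.continuous.measurable.div_const _)).mul
      (ha.comp (chw_graph_meas n))
  · rw [norm_mul, Complex.norm_real, Real.norm_eq_abs]
    exact mul_le_one₀ (g4 y) (norm_nonneg _) (ha1 _)
  · refine hV' (fun y => ζ y / C0) a ha ha1 (hζ1.continuous.measurable.div_const _) g4
      (fun x y => ?_) g3 hbv
    have h1 := chw_lip hζ1 hζ2 x y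
    rw [Real.norm_eq_abs] at h1
    rw [← sub_div, abs_div, abs_of_pos hC00]
    exact (div_le_self (abs_nonneg _) hC01).trans h1
  · have key := chw_lint n r (hrρ.trans hρ) a ha ha1 φ hφm hsupp
      (fun y => (C0 : ℂ) * (((ζ y / C0 : ℝ) : ℂ) * a (join y (hs y))))
      (fun y => η y • φ (join y (hs y))) h (fun y hy => ?_) (fun y hy => by rw [g3 y hy, mul_zero])
      (fun y hy => g1 y (hy.trans_lt hrρ)) (fun y hy => hh' y (hy.trans_lt hrρ)) p c
    · refine key.trans (le_of_eq ?_)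
      rw [← lintegral_const_mul']
      · refine lintegral_congr fun t => ?_
        rw [← lintegral_const_mul']
        · refine lintegral_congr fun x => ?_
          rw [chw_uu, enorm_mul, ENNReal.mul_rpow_of_nonneg _ _ hp.le]
          congr 1
          rw [← ofReal_norm, Complex.norm_real, Real.norm_of_nonneg hC00.le,
            ENNReal.ofReal_rpow_of_pos hC00]
        · exact ENNReal.ofReal_ne_top
      · exact ENNReal.ofReal_ne_top
    · have h5 : (C0 : ℂ) ≠ 0 := by exact_mod_cast hC00.ne'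
      rw [hζ3 y (hy.trans hrρ.le)]
      push_cast
      field_simp

end Pool.Agent.GNP
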