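import Pool.Agent.GNP.AB6
import Pool.Agent.GNP.MeasNear
import Pool.Agent.GNP.SP5
import Pool.Agent.GNP.HSWa
import Pool.Agent.GNP.HSK

/-!
Every smooth phase on the unit sphere of `R^n`, `n ≥ 3`, amplitudes with an `L²`-modulus of
continuity, full range, with a small loss.
-/

namespace Pool.Agent.GNP

open MeasureTheory Set Pool.Agent.MP_6cbfb8_an
open scoped ENNReal Real RealInnerProductSpace ContDiff

/-- The core statement in the chart for amplitudes with an `L²`-modulus of continuity, with the bound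
`G c`, for phases with the condition `PC r'`. -/
def CoreH (d : ℕ) (s p : ℝ) (G : ℝ → ℝ≥0∞) (PC : ℝ → (E d → ℝ) → (E d → ℝ) → Prop) : Prop :=
  ∀ (A : ℕ → ℝ) (r r' b V : ℝ), 0 < r → r < r' → r' < 1 → 0 < b → 0 ≤ V → ∃ K : ℝ≥0∞, K ≠ ⊤ ∧
    ∀ (Φ h : E d → ℝ) (a : E d → ℂ), Sm d A Φ → Sm d A h → (∀ y, ‖y‖ ≤ r' → h y = hs y) →
      Measurable a → (∀ y, ‖a y‖ ≤ 1) → (∀ y, r < ‖y‖ → a y = 0) → BE2 d s V a →
      (∀ y, ‖y‖ ≤ r' → ∀ v, ⟪Hs h y v, v⟫ ≤ -(b * ‖v‖ ^ 2)) → PC r' Φ h → ∀ c : ℝ,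
      ∫⁻ t : ℝ, ∫⁻ x, ‖uu a (ph Φ h c t) x‖ₑ ^ p ≤ K * G c

/-- From the chart to the sphere, rough amplitudes. -/
theorem sphere_of_core_H (d : ℕ) (hd : 1 ≤ d) (s p : ℝ) (hs0 : 0 < s) (hs1 : s ≤ 1) (hp : 1 ≤ p)
    (G : ℝ → ℝ≥0∞) (PS : (E (d + 1) → ℝ) → Prop) (PC : ℝ → (E d → ℝ) → (E d → ℝ) → Prop)
    (hPS : ∀ φ, PS φ → ∀ R : E (d + 1) ≃ₗᵢ[ℝ] E (d + 1), PS fun x => φ (R x))
    (hT : Trans d PS PC) (hcore : CoreH d s p G PC) (B : ℕ → ℝ) (V : ℝ) :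
    ∃ C : ℝ≥0∞, C ≠ ⊤ ∧ ∀ φ : E (d + 1) → ℝ, Measurable φ → Sb (d + 1) B φ → PS φ →
      ∀ a : E (d + 1) → ℂ, Measurable a → (∀ x, ‖a x‖ ≤ 1) → BN2 (d + 1) s V a → ∀ c : ℝ,
        ∫⁻ ξ, ‖extn (fun x => a x * Complex.exp (((c * φ x : ℝ) : ℂ) * Complex.I)) ξ‖ₑ ^ p ≤
          C * G c := by
  set δ : ℝ := 1 / (2 * √((d : ℝ) + 1)) with hδ
  have hsq : 1 ≤ √((d : ℝ) + 1) := by
    rw [Real.one_le_sqrt]
    have : (0 : ℝ) ≤ d := Nat.cast_nonneg d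
    linarith
  have hδ0 : 0 < δ := by positivity
  have hδ1 : δ < 1 := by
    rw [hδ, div_lt_one (by positivity)]
    linarith
  set r : ℝ := √(1 - δ ^ 2) with hr
  have hr0 : 0 < r := Real.sqrt_pos.mpr (by nlinarith)
  have hr1 : r < 1 := by
    rw [hr, Real.sqrt_lt' one_pos]
    nlinarith
  obtain ⟨r', hrr', hr'1⟩ := exists_between hr1
  obtain ⟨ρ, hr'ρ, hρ1⟩ := exists_between hr'1
  obtain ⟨K, hK, hmul⟩ := BN2_mul (d + 1) (by omega) s hs0 hs1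
  choose L hL0 hL using fun i : Fin (d + 1) × Bool => exists_lip (contDiff_pw (d := d) i)
  set Λ : ℝ := ∑ i, L i with hΛ
  have hLΛ : ∀ i, L i ≤ Λ := fun i =>
    Finset.single_le_sum (f := L) (fun j _ => hL0 j) (Finset.mem_univ i)
  have hΛ0 : 0 ≤ Λ := Finset.sum_nonneg fun j _ => hL0 j
  set V0 : ℝ := max V 0 with hV0
  have hV00 : 0 ≤ V0 := le_max_right _ _
  set V' : ℝ := 2 * V0 + K * Λ with hV'
  have hV'0 : 0 ≤ V' := by
    have := mul_nonneg hK.le hΛ0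
    linarith
  obtain ⟨A, V'', C0, h, hV'', hC0, hh, hhs, hA⟩ := chart_h d hd r ρ s V' hr0
    (hrr'.trans hr'ρ) hρ1 hs0 hs1 hV'0 B
  obtain ⟨K', hK', hcore⟩ := hcore A r r' 1 V'' hr0 hrr' hr'1 one_pos (by linarith)
  have hdef : ∀ y, ‖y‖ ≤ r' → ∀ v, ⟪Hs h y v, v⟫ ≤ -(1 * ‖v‖ ^ 2) := by
    intro y hy v
    rw [Hs_congr_ball hhs (lt_of_le_of_lt hy hr'ρ), one_mul]
    exact Hs_hs y v (lt_of_le_of_lt hy hr'1)
  set N : ℝ≥0∞ := ((Finset.univ : Finset (Fin (d + 1) × Bool)).card : ℝ≥0∞) with hN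
  have hNt : N ≠ ⊤ := ENNReal.natCast_ne_top _
  refine ⟨N ^ (p - 1) * (N * (ENNReal.ofReal (C0 ^ p) * K')), ?_,
    fun φ hφm hφ hφP a ham ha1 haV c => ?_⟩
  · exact ENNReal.mul_ne_top (ENNReal.rpow_ne_top_of_nonneg (by linarith) hNt)
      (ENNReal.mul_ne_top hNt (ENNReal.mul_ne_top ENNReal.ofReal_ne_top hK'))
  · have hwm : ∀ i : Fin (d + 1) × Bool, Measurable (pw (d := d) i) := fun i =>
      (contDiff_pw (d := d) i).continuous.measurable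
    have hem : Measurable fun x : E (d + 1) => Complex.exp (((c * φ x : ℝ) : ℂ) * Complex.I) := by
      fun_prop
    have k1 : ∀ i, Measurable fun x => (pw i x : ℂ) * a x := fun i => by
      have := hwm i
      fun_prop
    have k2 : ∀ i x, ‖(pw i x : ℂ) * a x‖ ≤ 1 := fun i x => by
      rw [norm_mul, Complex.norm_real, Real.norm_eq_abs, abs_of_nonneg (pw_nonneg i x)]
      exact mul_le_one₀ (pw_le_one i x) (norm_nonneg _) (ha1 x)
    have k3 : ∀ i, BN2 (d + 1) s V' fun x => (pw i x : ℂ) * a x := by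
      intro i
      refine hmul V0 Λ a (pw i) hV00 hΛ0 ham ha1 (hwm i) (fun x => ?_) (fun x y hx hy => ?_)
        (haV.mono (le_max_left _ _))
      · rw [abs_of_nonneg (pw_nonneg i x)]
        exact pw_le_one i x
      · exact (hL i x y hx hy).trans (mul_le_mul_of_nonneg_right (hLΛ i) (norm_nonneg _))
    refine (sp_sum_meas Finset.univ (fun i x => ((pw i x : ℂ) * a x) *
      Complex.exp (((c * φ x : ℝ) : ℂ) * Complex.I)) (fun i _ => (k1 i).mul hem)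
      (fun i _ x => ?_) (fun x => ?_) hp).trans ?_
    · rw [norm_mul, Complex.norm_exp_ofReal_mul_I, mul_one]
      exact k2 i x
    · have hx : ‖(x : E (d + 1))‖ = 1 := mem_sphere_zero_iff_norm.mp x.2
      rw [← Finset.sum_mul, ← Finset.sum_mul, ← Complex.ofReal_sum, pw_sum _ hx, Complex.ofReal_one,
        one_mul]
    · rw [mul_assoc]
      refine mul_le_mul_right ?_ _
      rw [mul_assoc, hN, ← nsmul_eq_mul, ← Finset.sum_const]
      refine Finset.sum_le_sum fun i _ => ?_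
      obtain ⟨R, σ, hR, -⟩ := exists_swap i
      rw [← lint_extn_iso _ R]
      have hb1 := hφ.comp_iso R
      obtain ⟨Φ, a', hΦ, ha'm, ha'1, ha's, ha'V, hΦs, hI⟩ := hA (fun x => φ (R x))
        (fun x => (pw i (R x) : ℂ) * a (R x)) (hφm.comp R.continuous.measurable) hb1.sm hb1.bd
        ((k1 i).comp R.continuous.measurable) (fun x => k2 i _)
        (BN2_iso (d + 1) s V' _ (k3 i) R) (by
          intro y t hyt hc
          by_cases hne : pw i (R (join y t)) = 0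
          · rw [hne, Complex.ofReal_zero, zero_mul]
          · exfalso
            have k4 := pw_supp i _ hne
            rw [hR] at k4
            have k5 : (join y t : E (d + 1)) (Fin.last d) = t := by simp [join]
            rw [k5, ← hδ] at k4
            rcases hc with hc | hc
            · have h5 : ‖y‖ ≤ r := by
                rw [hr]
                apply Real.le_sqrt_of_sq_le
                nlinarith
              linarith
            · linarith)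
      have hPCC : PC r' Φ h := hT r' ρ (hr0.trans hrr') hr'ρ hρ1 (fun x => φ (R x)) hb1.sm
        (hPS φ hφP R) Φ h hhs hΦs
      refine (hI p (by linarith) c).trans ?_
      rw [mul_assoc]
      exact mul_le_mul_right (hcore Φ h a' hΦ hh (fun y hy => hhs y (lt_of_le_of_lt hy hr'ρ))
        ha'm ha'1 ha's ha'V hdef hPCC c) _

theorem coreH_all (d : ℕ) (hd : 2 ≤ d) (p ε s : ℝ) (hp : 2 * ((d : ℝ) + 1) / d < p) (hε : 0 < ε)
    (hs0 : (d : ℝ) / (d + 1) < s) (hs1 : s ≤ 1) :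
    CoreH d s p (fun c => ENNReal.ofReal ((1 + |c|) ^ ε)) fun _ _ _ => True := by
  intro A r r' b V hr hr' hr1 hb hV
  obtain ⟨K, hK, h⟩ := core_hs d hd A r r' b p ε s V hr hr' hr1 hb hp hε hs0 hs1 hV
  refine ⟨ENNReal.ofReal K, ENNReal.ofReal_ne_top,
    fun Φ h' a h1 h2 h3 h4 h5 h6 h7 h8 _ c => ?_⟩
  rw [← ENNReal.ofReal_mul hK.le]
  exact h Φ h' a h1 h2 h3 h4 h5 h6 h7 h8 c

/-- Row SP2. -/
theorem sphere_hs_fam (d : ℕ) (hd : 2 ≤ d) (N : ℕ) (p ε s V : ℝ)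
    (hp : 2 * ((d : ℝ) + 1) / d < p) (hε : 0 < ε) (hs0 : (d : ℝ) / (d + 1) < s) (hs1 : s ≤ 1)
    (B : ℕ → ℝ) : ∃ C : ℝ≥0∞, C ≠ ⊤ ∧
    ∀ φ : Fin N → E (d + 1) → ℝ, (∀ j, Sb (d + 1) B (φ j)) →
      ∀ a : E (d + 1) → ℂ, Measurable a → (∀ x, ‖a x‖ ≤ 1) → BN2 (d + 1) s V a →
      ∀ c : Fin N → ℝ, ∫⁻ ξ, ‖extn (fun x => a x *
          Complex.exp (((∑ j, c j * φ j x : ℝ) : ℂ) * Complex.I)) ξ‖ₑ ^ p ≤
        C * ENNReal.ofReal ((1 + ‖c‖) ^ ε) := by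
  have hs00 : 0 < s := by
    have : (0 : ℝ) ≤ (d : ℝ) / (d + 1) := by positivity
    linarith
  obtain ⟨C, hC, h⟩ := sphere_of_core_H d (by omega) s p hs00 hs1 (one_le_of_range hd hp) _
    (fun _ => True) _ (fun _ _ _ => trivial) (trans_true d) (coreH_all d hd p ε s hp hε hs0 hs1)
    (fun k => ∑ _j : Fin N, |B k|) V
  refine ⟨C, hC, fun φ hφ a ham ha1 haV c => ?_⟩
  have h1 : ∀ j, |c j / ‖c‖| ≤ 1 := by
    intro j
    rw [abs_div, abs_norm]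
    exact div_le_one_of_le₀ (norm_le_pi_norm c j) (norm_nonneg _)
  have h2 : ∀ x, ‖c‖ * ∑ j, c j / ‖c‖ * φ j x = ∑ j, c j * φ j x := by
    intro x
    rw [Finset.mul_sum]
    refine Finset.sum_congr rfl fun j _ => ?_
    by_cases h0 : ‖c‖ = 0
    · have h3 : c = 0 := norm_eq_zero.1 h0
      simp [h3]
    · field_simp
  obtain ⟨φ', hm', hS', he'⟩ := exists_meas_near (Sb.comb hφ (fun j => c j / ‖c‖) h1)
  have h3 := h φ' hm' hS' trivial a ham ha1 haV ‖c‖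
  rw [abs_norm] at h3
  have h4 : ∀ ξ, extn (fun x => a x *
      Complex.exp (((∑ j, c j * φ j x : ℝ) : ℂ) * Complex.I)) ξ =
      extn (fun x => a x * Complex.exp (((‖c‖ * φ' x : ℝ) : ℂ) * Complex.I)) ξ := by
    intro ξ
    refine extn_congr (fun x => ?_) ξ
    have hx : ‖(x : E (d + 1))‖ = 1 := mem_sphere_zero_iff_norm.mp x.2
    rw [(he' _ hx).eq_of_nhds, h2]
  simp only [h4]
  exact h3

/-- One phase; the constant depends on the bounds `B` only. -/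
theorem sphere_hs_one (d : ℕ) (hd : 2 ≤ d) (p ε s V : ℝ) (hp : 2 * ((d : ℝ) + 1) / d < p)
    (hε : 0 < ε) (hs0 : (d : ℝ) / (d + 1) < s) (hs1 : s ≤ 1) (B : ℕ → ℝ) :
    ∃ K : ℝ, 0 < K ∧ ∀ (φ : E (d + 1) → ℝ) (w : E (d + 1) → ℂ),
      (∀ x, ‖x‖ = 1 → ContDiffAt ℝ ∞ φ x) →
      (∀ k x, ‖x‖ = 1 → ‖iteratedFDeriv ℝ k φ x‖ ≤ B k) →
      (Measurable w ∧ (∀ x, ‖w x‖ ≤ 1) ∧ BN2 (d + 1) s V w) → ∀ c : ℝ,
      ∫⁻ ξ, ‖extn (fun x => w x * Complex.exp (((c * φ x : ℝ) : ℂ) * Complex.I)) ξ‖ₑ ^ p ≤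
        ENNReal.ofReal (K * (1 + |c|) ^ ε) := by
  obtain ⟨C, hC, h⟩ := sphere_hs_fam d hd 1 p ε s V hp hε hs0 hs1 B
  refine ⟨C.toReal + 1, by positivity, fun φ w h1 h2 h3 c => ?_⟩
  have h4 := h (fun _ => φ) (fun _ => ⟨h1, h2⟩) w h3.1 h3.2.1 h3.2.2 fun _ => c
  have h5 : ‖fun _ : Fin 1 => c‖ = |c| := by simp
  have h6 : ∀ x, ∑ j : Fin 1, (fun _ : Fin 1 => c) j * (fun _ : Fin 1 => φ) j x = c * φ x :=
    fun x => by simp
  simp only [h5, h6] at h4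
  refine h4.trans ?_
  have h7 : C ≤ ENNReal.ofReal (C.toReal + 1) := by
    rw [← ENNReal.ofReal_toReal hC]
    exact ENNReal.ofReal_le_ofReal (by simp [ENNReal.toReal_ofReal])
  rw [ENNReal.ofReal_mul (by positivity)]
  exact mul_le_mul' h7 le_rfl

end Pool.Agent.GNP
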