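import Pool.Agent.GNP.MeasNear

/-!
Finitely many derivatives suffice: from a bound with constants depending on all derivatives of the
phase to a bound by one `C^k` norm.
-/

namespace Pool.Agent.GNP

open MeasureTheory Set Filter Topology Pool.Agent.MP_6cbfb8_an
open scoped ENNReal Real RealInnerProductSpace ContDiff

/-- The estimate with a small loss for one phase; the constant depends on the phase only through the
bounds `B` of its derivatives. -/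
def LossB (n : ℕ) (p ε : ℝ) (𝒲 : (E n → ℂ) → Prop) : Prop :=
  ∀ B : ℕ → ℝ, ∃ K : ℝ, 0 < K ∧ ∀ (φ : E n → ℝ) (w : E n → ℂ),
    (∀ x, ‖x‖ = 1 → ContDiffAt ℝ ∞ φ x) →
    (∀ k x, ‖x‖ = 1 → ‖iteratedFDeriv ℝ k φ x‖ ≤ B k) → 𝒲 w → ∀ c : ℝ,
    ∫⁻ ξ, ‖extn (fun x => w x * Complex.exp (((c * φ x : ℝ) : ℂ) * Complex.I)) ξ‖ₑ ^ p ≤
      ENNReal.ofReal (K * (1 + |c|) ^ ε)

/-- Only finitely many derivatives matter. -/
theorem fink_fin {n : ℕ} {p ε : ℝ} {𝒲 : (E n → ℂ) → Prop} (H : LossB n p ε 𝒲) :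
    ∃ k : ℕ, ∀ (φ : E n → ℝ) (w : E n → ℂ), (∀ x, ‖x‖ = 1 → ContDiffAt ℝ ∞ φ x) →
      (∀ j ≤ k, ∀ x, ‖x‖ = 1 → ‖iteratedFDeriv ℝ j φ x‖ ≤ 1) → 𝒲 w → ∀ c : ℝ,
      ∫⁻ ξ, ‖extn (fun x => w x * Complex.exp (((c * φ x : ℝ) : ℂ) * Complex.I)) ξ‖ₑ ^ p ≤
        ENNReal.ofReal (k * (1 + |c|) ^ ε) := by
  by_contra hcon
  push Not at hcon
  choose φ w hφ hφ1 hw c hc using hcon
  choose B hB using fun j => exists_Sb (hφ j)
  obtain ⟨K, hK, h⟩ := H fun i => max 1 (∑ j ∈ Finset.range i, |B j i|)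
  obtain ⟨k, hk⟩ := exists_nat_ge K
  have h1 : ∀ i x, ‖x‖ = 1 → ‖iteratedFDeriv ℝ i (φ k) x‖ ≤
      max 1 (∑ j ∈ Finset.range i, |B j i|) := by
    intro i x hx
    rcases le_or_gt i k with hi | hi
    · exact (hφ1 k i hi x hx).trans (le_max_left _ _)
    · refine le_trans ?_ (le_max_right _ _)
      refine ((hB k).bd i x hx).trans ((le_abs_self _).trans ?_)
      exact Finset.single_le_sum (f := fun j => |B j i|) (fun j _ => abs_nonneg _)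
        (Finset.mem_range.2 hi)
  have h2 := h (φ k) (w k) (hφ k) h1 (hw k) (c k)
  have h3 : ENNReal.ofReal (K * (1 + |c k|) ^ ε) ≤ ENNReal.ofReal (k * (1 + |c k|) ^ ε) :=
    ENNReal.ofReal_le_ofReal (mul_le_mul_of_nonneg_right hk (by positivity))
  exact absurd (h2.trans h3) (not_le.2 (hc k))

/-- **One `C^k` norm**: smooth phases. -/
theorem fink_smooth {n : ℕ} {p ε : ℝ} (hε : 0 < ε) {𝒲 : (E n → ℂ) → Prop} (H : LossB n p ε 𝒲) :
    ∃ (k : ℕ) (C : ℝ), 0 < C ∧ ∀ (ψ : E n → ℝ) (w : E n → ℂ),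
      (∀ x, ‖x‖ = 1 → ContDiffAt ℝ ∞ ψ x) → 𝒲 w → ∀ N : ℝ, 1 ≤ N →
      (∀ j ≤ k, ∀ x, ‖x‖ = 1 → ‖iteratedFDeriv ℝ j ψ x‖ ≤ N) →
      ∫⁻ ξ, ‖extn (fun x => w x * Complex.exp (((ψ x : ℝ) : ℂ) * Complex.I)) ξ‖ₑ ^ p ≤
        ENNReal.ofReal (C * N ^ ε) := by
  obtain ⟨k, h⟩ := fink_fin H
  refine ⟨k, (k + 1) * 2 ^ ε, by positivity, fun ψ w hψ hw N hN hb => ?_⟩
  have hN0 : 0 < N := by linarith
  have h0 : (fun x => N⁻¹ * ψ x) = N⁻¹ • ψ := by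
    funext x
    simp
  have h1 := h (fun x => N⁻¹ * ψ x) w (fun x hx => contDiffAt_const.mul (hψ x hx))
    (fun j hj x hx => by
      rw [h0, iteratedFDeriv_const_smul_apply ((hψ x hx).of_le (by exact_mod_cast le_top)),
        norm_smul, norm_inv, Real.norm_eq_abs, abs_of_pos hN0, inv_mul_le_iff₀ hN0, mul_one]
      exact hb j hj x hx) hw N
  have h2 : ∀ x, N * (N⁻¹ * ψ x) = ψ x := fun x => by
    rw [← mul_assoc, mul_inv_cancel₀ hN0.ne', one_mul]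
  simp only [h2] at h1
  refine h1.trans (ENNReal.ofReal_le_ofReal ?_)
  rw [abs_of_pos hN0]
  calc (k : ℝ) * (1 + N) ^ ε ≤ (k + 1) * (2 * N) ^ ε := by
        refine mul_le_mul (by linarith) (Real.rpow_le_rpow (by linarith) (by linarith) hε.le)
          (by positivity) (by positivity)
    _ = (k + 1) * 2 ^ ε * N ^ ε := by
        rw [Real.mul_rpow (by norm_num) hN0.le]
        ring

end Pool.Agent.GNP
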