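import Pool.Agent.GNP.FINK

/-!
Phases of class `C^k`: mollification and Fatou's lemma.
-/

namespace Pool.Agent.GNP

open MeasureTheory Set Filter Topology Metric Pool.Agent.MP_6cbfb8_an
open scoped ENNReal Real RealInnerProductSpace ContDiff Convolution

/-- The derivatives of a mollification are bounded by those of the function. -/
theorem fink_conv {n : ℕ} (φ : ContDiffBump (0 : E n)) (j : ℕ) :
    ∀ {F : Type} [NormedAddCommGroup F] [NormedSpace ℝ F] [CompleteSpace F] (g : E n → F) (M : ℝ)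
      (x : E n), ContDiff ℝ j g → HasCompactSupport g → 0 ≤ M →
      (∀ y ∈ ball x φ.rOut, ‖iteratedFDeriv ℝ j g y‖ ≤ M) →
      ‖iteratedFDeriv ℝ j (φ.normed volume ⋆[ContinuousLinearMap.lsmul ℝ ℝ, volume] g) x‖ ≤ M := by
  induction j with
  | zero =>
    intro F _ _ _ g M x hg hc hM h
    rw [norm_iteratedFDeriv_zero]
    have h1 := dist_convolution_le (μ := (volume : Measure (E n))) (f := φ.normed volume)
      (x₀ := x) (R := φ.rOut) (ε := M) (z₀ := (0 : F)) (g := g) hM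
      (φ.support_normed_eq (μ := (volume : Measure (E n)))).subset
      (fun y => φ.nonneg_normed y) φ.integral_normed
      (hg.continuous.aestronglyMeasurable) (fun y hy => by
        rw [dist_zero_right]
        simpa using h y hy)
    rwa [dist_zero_right] at h1
  | succ j ih =>
    intro F _ _ _ g M x hg hc hM h
    have hloc : LocallyIntegrable (φ.normed (volume : Measure (E n))) volume :=
      (φ.contDiff_normed (n := 0)).continuous.locallyIntegrable
    have h1 : fderiv ℝ (φ.normed volume ⋆[ContinuousLinearMap.lsmul ℝ ℝ, volume] g) =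
        (φ.normed volume ⋆[ContinuousLinearMap.lsmul ℝ ℝ, volume] fderiv ℝ g) := by
      funext y
      rw [(hc.hasFDerivAt_convolution_right (ContinuousLinearMap.lsmul ℝ ℝ) hloc
        (hg.of_le (by exact_mod_cast Nat.le_add_left 1 j)) y).fderiv]
      rfl
    rw [← norm_iteratedFDeriv_fderiv, h1]
    refine ih (fderiv ℝ g) M x (hg.fderiv_right (m := j) (by norm_cast)) (hc.fderiv ℝ) hM
      fun y hy => ?_
    rw [norm_iteratedFDeriv_fderiv]
    exact h y hy

/-- A cutoff near the sphere. -/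
theorem fink_cut {n : ℕ} {U : Set (E n)} (hU : IsOpen U) (hS : ∀ x : E n, ‖x‖ = 1 → x ∈ U) :
    ∃ χ : E n → ℝ, ContDiff ℝ ∞ χ ∧ HasCompactSupport χ ∧ tsupport χ ⊆ U ∧
      ∀ x, ‖x‖ = 1 → χ =ᶠ[𝓝 x] 1 := by
  obtain ⟨δ, hδ, hδU⟩ := (isCompact_sphere (0 : E n) 1).exists_thickening_subset_open hU
    (fun x hx => hS x (by simpa using hx))
  set ρ : ℝ := min (δ / 2) (1 / 2) with hρ
  have hρ0 : 0 < ρ := lt_min (by linarith) (by norm_num)
  have hρ1 : ρ ≤ 1 / 2 := min_le_right _ _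
  have hρδ : ρ < δ := (min_le_left _ _).trans_lt (by linarith)
  let f : ContDiffBump (1 : ℝ) := ⟨ρ / 2, ρ, by positivity, by linarith⟩
  have hcont : Continuous fun x : E n => ‖x‖ ^ 2 := by fun_prop
  have hsub : ∀ x : E n, |‖x‖ ^ 2 - 1| ≤ ρ → x ∈ U := by
    intro x hx
    apply hδU
    have hx0 : ‖x‖ ≠ 0 := by
      intro h0
      rw [h0] at hx
      norm_num at hx
      linarith
    rw [mem_thickening_iff]
    refine ⟨‖x‖⁻¹ • x, ?_, ?_⟩
    · rw [mem_sphere_zero_iff_norm, norm_smul, norm_inv, norm_norm, inv_mul_cancel₀ hx0]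
    · rw [dist_eq_norm]
      have h1 : x - ‖x‖⁻¹ • x = (1 - ‖x‖⁻¹) • x := by rw [sub_smul, one_smul]
      have h2 : (1 - ‖x‖⁻¹) * ‖x‖ = ‖x‖ - 1 := by field_simp
      rw [h1, norm_smul, Real.norm_eq_abs]
      have h3 : |1 - ‖x‖⁻¹| * ‖x‖ = |‖x‖ - 1| := by
        rw [← h2, abs_mul, abs_of_nonneg (norm_nonneg x)]
      rw [h3]
      have h4 : |‖x‖ ^ 2 - 1| = |‖x‖ - 1| * (‖x‖ + 1) := by
        rw [show ‖x‖ ^ 2 - 1 = (‖x‖ - 1) * (‖x‖ + 1) by ring, abs_mul,
          abs_of_nonneg (by positivity : 0 ≤ ‖x‖ + 1)]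
      have h5 : |‖x‖ - 1| ≤ |‖x‖ ^ 2 - 1| := by
        rw [h4]
        have := abs_nonneg (‖x‖ - 1)
        nlinarith [norm_nonneg x]
      linarith
  have hts : tsupport (fun x : E n => f (‖x‖ ^ 2)) ⊆ {x : E n | |‖x‖ ^ 2 - 1| ≤ ρ} := by
    refine closure_minimal ?_ (isClosed_le (by fun_prop) continuous_const)
    intro x hx
    have h1 : f (‖x‖ ^ 2) ≠ 0 := hx
    have h2 : ‖x‖ ^ 2 ∈ Function.support f := h1
    rw [f.support_eq] at h2
    exact (mem_ball.1 h2).le
  refine ⟨fun x => f (‖x‖ ^ 2), f.contDiff.comp (contDiff_norm_sq ℝ), ?_,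
    fun x hx => hsub x (hts hx), fun x hx => ?_⟩
  · refine HasCompactSupport.of_support_subset_isCompact (isCompact_closedBall (0 : E n) 2)
      fun x hx => ?_
    have h1 : |‖x‖ ^ 2 - 1| ≤ ρ := hts (subset_tsupport _ hx)
    have h2 : ‖x‖ ^ 2 ≤ 3 / 2 := by
      have := (abs_le.1 h1).2
      linarith
    rw [mem_closedBall_zero_iff]
    nlinarith [norm_nonneg x]
  · have h1 : ∀ᶠ y in 𝓝 x, ‖y‖ ^ 2 ∈ ball (1 : ℝ) (ρ / 2) := by
      refine hcont.continuousAt.eventually (isOpen_ball.mem_nhds ?_)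
      simp [hx, hρ0]
    filter_upwards [h1] with y hy
    exact f.one_of_mem_closedBall (ball_subset_closedBall hy)

/-- **One `C^k` norm**: phases of class `C^k`. -/
theorem fink_Ck {n : ℕ} {p ε : ℝ} (hε : 0 < ε) {𝒲 : (E n → ℂ) → Prop}
    (h𝒲 : ∀ w, 𝒲 w → Measurable w ∧ ∀ x, ‖w x‖ ≤ 1) (H : LossB n p ε 𝒲) :
    ∃ (k : ℕ) (C : ℝ), 0 < C ∧ ∀ (ψ : E n → ℝ) (w : E n → ℂ),
      (∀ x, ‖x‖ = 1 → ContDiffAt ℝ k ψ x) → 𝒲 w → ∀ N : ℝ, 1 ≤ N →
      (∀ j ≤ k, ∀ x, ‖x‖ = 1 → ‖iteratedFDeriv ℝ j ψ x‖ ≤ N) →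
      ∫⁻ ξ, ‖extn (fun x => w x * Complex.exp (((ψ x : ℝ) : ℂ) * Complex.I)) ξ‖ₑ ^ p ≤
        ENNReal.ofReal (C * N ^ ε) := by
  obtain ⟨k, C, hC, h⟩ := fink_smooth hε H
  refine ⟨k, C * 2 ^ ε, by positivity, fun ψ w hψ hw N hN hb => ?_⟩
  have hN0 : 0 < N := by linarith
  obtain ⟨hwm, hw1⟩ := h𝒲 w hw
  -- the phase is `C^k` in a neighbourhood of the sphere
  set U : Set (E n) := {y | ContDiffAt ℝ k ψ y} with hU
  have hUo : IsOpen U := by
    rw [isOpen_iff_mem_nhds]
    intro y hy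
    exact ContDiffAt.eventually hy (by simp)
  obtain ⟨χ, hχ, hχc, hχU, hχ1⟩ := fink_cut hUo hψ
  set g : E n → ℝ := fun x => χ x * ψ x with hg
  have hgk : ContDiff ℝ k g := by
    rw [contDiff_iff_contDiffAt]
    intro y
    by_cases hy : y ∈ tsupport χ
    · exact (hχ.of_le (by exact_mod_cast le_top)).contDiffAt.mul (hχU hy)
    · have h1 : g =ᶠ[𝓝 y] fun _ => 0 := by
        filter_upwards [(isClosed_tsupport χ).isOpen_compl.mem_nhds hy] with z hz
        simp only [hg, image_eq_zero_of_notMem_tsupport hz, zero_mul]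
      exact contDiffAt_const.congr_of_eventuallyEq h1
  have hgc : HasCompactSupport g := hχc.mul_right
  have hge : ∀ x, ‖x‖ = 1 → g =ᶠ[𝓝 x] ψ := by
    intro x hx
    filter_upwards [hχ1 x hx] with y hy
    simp only [hg, hy, Pi.one_apply, one_mul]
  -- the derivatives are at most `2 N` near the sphere
  have hV : ∀ j ≤ k, IsOpen {y | ‖iteratedFDeriv ℝ j g y‖ < 2 * N} := fun j hj =>
    isOpen_lt (hgk.continuous_iteratedFDeriv (by exact_mod_cast hj)).norm continuous_const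
  have hVo : IsOpen (⋂ j ∈ Finset.range (k + 1), {y | ‖iteratedFDeriv ℝ j g y‖ < 2 * N}) :=
    isOpen_biInter_finset fun j hj => hV j (Nat.lt_succ_iff.1 (Finset.mem_range.1 hj))
  obtain ⟨δ, hδ, hδV⟩ := (isCompact_sphere (0 : E n) 1).exists_thickening_subset_open hVo
    (fun x hx => by
      rw [mem_iInter₂]
      intro j hj
      have hx1 : ‖x‖ = 1 := by simpa using hx
      change ‖iteratedFDeriv ℝ j g x‖ < 2 * N
      rw [((hge x hx1).iteratedFDeriv (𝕜 := ℝ) j).eq_of_nhds]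
      have := hb j (Nat.lt_succ_iff.1 (Finset.mem_range.1 hj)) x hx1
      linarith)
  -- the mollifiers
  let φ : ℕ → ContDiffBump (0 : E n) := fun m =>
    ⟨δ / (m + 1) / 2, δ / (m + 1), by positivity, by
      have : 0 < δ / ((m : ℝ) + 1) := by positivity
      linarith⟩
  have hφ0 : Tendsto (fun m => (φ m).rOut) atTop (𝓝 0) :=
    tendsto_const_div_atTop_nhds_zero_nat δ |>.comp (tendsto_add_atTop_nat 1) |>.congr fun m => by
      simp [φ]
  have hφδ : ∀ m, (φ m).rOut ≤ δ := fun m => by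
    change δ / ((m : ℝ) + 1) ≤ δ
    exact div_le_self hδ.le (by linarith [Nat.cast_nonneg (α := ℝ) m])
  set G : ℕ → E n → ℝ := fun m =>
    ((φ m).normed volume ⋆[ContinuousLinearMap.lsmul ℝ ℝ, volume] g) with hG
  have hGs : ∀ m, ContDiff ℝ ∞ (G m) := fun m =>
    (φ m).hasCompactSupport_normed.contDiff_convolution_left _ (φ m).contDiff_normed
      hgk.continuous.locallyIntegrable
  have hGb : ∀ m, ∀ j ≤ k, ∀ x, ‖x‖ = 1 → ‖iteratedFDeriv ℝ j (G m) x‖ ≤ 2 * N := by
    intro m j hj x hx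
    refine fink_conv (φ m) j g (2 * N) x (hgk.of_le (by exact_mod_cast hj)) hgc (by positivity)
      fun y hy => ?_
    have h1 : y ∈ thickening δ (sphere (0 : E n) 1) := by
      rw [mem_thickening_iff]
      exact ⟨x, by simpa using hx, (mem_ball.1 hy).trans_le (hφδ m)⟩
    have h2 := mem_iInter₂.1 (hδV h1) j (Finset.mem_range.2 (Nat.lt_succ_of_le hj))
    exact le_of_lt h2
  have hGt : ∀ x, ‖x‖ = 1 → Tendsto (fun m => G m x) atTop (𝓝 (ψ x)) := by
    intro x hx
    have h1 := ContDiffBump.convolution_tendsto_right_of_continuous (μ := (volume : Measure (E n)))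
      hφ0 hgk.continuous x
    rwa [(hge x hx).eq_of_nhds] at h1
  -- the bound for the mollified phases
  have hm : ∀ m, ∫⁻ ξ, ‖extn (fun x => w x * Complex.exp (((G m x : ℝ) : ℂ) * Complex.I)) ξ‖ₑ ^ p ≤
      ENNReal.ofReal (C * (2 * N) ^ ε) := fun m =>
    h (G m) w (fun x _ => (hGs m).contDiffAt) hw (2 * N) (by linarith) (hGb m)
  have hmeas : ∀ m, Measurable fun x => w x * Complex.exp (((G m x : ℝ) : ℂ) * Complex.I) := by
    intro m
    have h1 : Measurable (G m) := (hGs m).continuous.measurable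
    fun_prop
  have hlim : ∀ ξ, Tendsto (fun m =>
      ‖extn (fun x => w x * Complex.exp (((G m x : ℝ) : ℂ) * Complex.I)) ξ‖ₑ ^ p) atTop
      (𝓝 (‖extn (fun x => w x * Complex.exp (((ψ x : ℝ) : ℂ) * Complex.I)) ξ‖ₑ ^ p)) := by
    intro ξ
    refine (ENNReal.continuous_rpow_const.tendsto _).comp ?_
    refine (continuous_enorm.tendsto _).comp ?_
    unfold extn
    refine tendsto_integral_of_dominated_convergence (fun _ => (1 : ℝ)) (fun m => ?_)
      (integrable_const _) (fun m => Eventually.of_forall fun x => ?_)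
      (Eventually.of_forall fun x => ?_)
    · have h1 := (hmeas m).comp (measurable_subtype_coe (p := fun x => x ∈ S n))
      have h2 : Continuous fun x : S n => Complex.exp
          (((-(2 * π * inner ℝ (x : E n) ξ) : ℝ) : ℂ) * Complex.I) := by fun_prop
      exact (h1.mul h2.measurable).aestronglyMeasurable
    · rw [norm_mul, norm_mul, Complex.norm_exp_ofReal_mul_I, Complex.norm_exp_ofReal_mul_I,
        mul_one, mul_one]
      exact hw1 _
    · have hx : ‖(x : E n)‖ = 1 := mem_sphere_zero_iff_norm.mp x.2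
      refine Tendsto.mul_const _ (Tendsto.const_mul _ ?_)
      have h3 : Continuous fun t : ℝ => Complex.exp ((t : ℂ) * Complex.I) := by fun_prop
      exact (h3.tendsto _).comp (hGt x hx)
  calc ∫⁻ ξ, ‖extn (fun x => w x * Complex.exp (((ψ x : ℝ) : ℂ) * Complex.I)) ξ‖ₑ ^ p
      = ∫⁻ ξ, liminf (fun m =>
          ‖extn (fun x => w x * Complex.exp (((G m x : ℝ) : ℂ) * Complex.I)) ξ‖ₑ ^ p) atTop :=
        lintegral_congr fun ξ => (hlim ξ).liminf_eq.symm
    _ ≤ liminf (fun m => ∫⁻ ξ,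
          ‖extn (fun x => w x * Complex.exp (((G m x : ℝ) : ℂ) * Complex.I)) ξ‖ₑ ^ p) atTop :=
        lintegral_liminf_le fun m => (measurable_extn _ (hmeas m)).enorm.pow_const p
    _ ≤ ENNReal.ofReal (C * (2 * N) ^ ε) :=
        liminf_le_of_le (by isBoundedDefault) fun b hb' => by
          obtain ⟨m, hm'⟩ := hb'.exists
          exact hm'.trans (hm m)
    _ = ENNReal.ofReal (C * 2 ^ ε * N ^ ε) := by
        rw [Real.mul_rpow (by norm_num) hN0.le]
        ring_nf

end Pool.Agent.GNP
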