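import Pool.Agent.GNP.AB6
import Pool.Agent.GNP.MeasNear
import Pool.Agent.GNP.SP5
import Pool.Agent.GNP.NB4

/-!
Every smooth phase on the unit sphere of `R^n`, `n ≥ 3`, amplitudes of bounded variation, full range,
with a small loss.
-/

namespace Pool.Agent.GNP

open MeasureTheory Set Filter Topology Pool.Agent.MP_6cbfb8_an
open scoped ENNReal Real RealInnerProductSpace ContDiff

theorem coreW5 (d : ℕ) (hd : 2 ≤ d) (hft : ∀ p : ℝ, 2 < p → ∃ C1 : ℕ, FTst d p C1) (p ε : ℝ)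
    (hp : 2 * ((d : ℝ) + 1) / d < p) (hε : 0 < ε) :
    CoreW d 1 p (fun c => ENNReal.ofReal ((1 + |c|) ^ ε)) fun _ _ _ => True := by
  intro A r r' b V hr hr' hr1 hb hV
  obtain ⟨K, hK, h⟩ := core5_bv d hd hft A r r' b p ε V hr hr' hr1 hb hp hε hV
  refine ⟨ENNReal.ofReal K, ENNReal.ofReal_ne_top,
    fun Φ h' a h1 h2 h3 h4 h5 h6 h7 h8 _ c => ?_⟩
  rw [← ENNReal.ofReal_mul hK.le]
  exact h Φ h' a h1 h2 h3 h4 h5 h6 h7 h8 c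

/-- Families of phases smooth at the points of the sphere, amplitudes of bounded variation. The
constant is uniform over the families with the bounds `B`. -/
theorem sphere5_bv_fam (d : ℕ) (hd : 2 ≤ d) (hft : ∀ p : ℝ, 2 < p → ∃ C1 : ℕ, FTst d p C1)
    (N : ℕ) (p ε V : ℝ) (hp : 2 * ((d : ℝ) + 1) / d < p) (hε : 0 < ε) (B : ℕ → ℝ) :
    ∃ C : ℝ≥0∞, C ≠ ⊤ ∧
    ∀ φ : Fin N → E (d + 1) → ℝ, (∀ j, Sb (d + 1) B (φ j)) →
      ∀ a : E (d + 1) → ℂ, Measurable a → (∀ x, ‖a x‖ ≤ 1) → BVn (d + 1) 1 V a →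
      ∀ c : Fin N → ℝ, ∫⁻ ξ, ‖extn (fun x => a x *
          Complex.exp (((∑ j, c j * φ j x : ℝ) : ℂ) * Complex.I)) ξ‖ₑ ^ p ≤
        C * ENNReal.ofReal ((1 + ‖c‖) ^ ε) := by
  obtain ⟨C, hC, h⟩ := sphere_of_core_W d (by omega) 1 p one_pos le_rfl (one_le_of_range hd hp) _
    (fun _ => True) _ (fun _ _ _ => trivial) (trans_true d) (coreW5 d hd hft p ε hp hε)
    (fun k => ∑ _j : Fin N, |B k|) V
  refine ⟨C, hC, fun φ hφ a ham ha1 haV c => ?_⟩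
  have h1 : ∀ j, |c j / ‖c‖| ≤ 1 := by
    intro j
    rw [abs_div, abs_norm]
    exact div_le_one_of_le₀ (norm_le_pi_norm c j) (norm_nonneg _)
  have h2 : ∀ x, ‖c‖ * ∑ j, c j / ‖c‖ * φ j x = ∑ j, c j * φ j x := by
    intro x
    rw [Finset.mul_sum]
    refine Finset.sum_congr rfl fun j _ => ?_
    by_cases h0 : ‖c‖ = 0
    · have h3 : c = 0 := norm_eq_zero.1 h0
      simp [h3]
    · field_simp
  obtain ⟨φ', hm', hS', he'⟩ := exists_meas_near (Sb.comb hφ (fun j => c j / ‖c‖) h1)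
  have h3 := h φ' hm' hS' trivial a ham ha1 haV ‖c‖
  rw [abs_norm] at h3
  have h4 : ∀ ξ, extn (fun x => a x *
      Complex.exp (((∑ j, c j * φ j x : ℝ) : ℂ) * Complex.I)) ξ =
      extn (fun x => a x * Complex.exp (((‖c‖ * φ' x : ℝ) : ℂ) * Complex.I)) ξ := by
    intro ξ
    refine extn_congr (fun x => ?_) ξ
    have hx : ‖(x : E (d + 1))‖ = 1 := mem_sphere_zero_iff_norm.mp x.2
    rw [(he' _ hx).eq_of_nhds, h2]
  simp only [h4]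
  exact h3

/-- One phase smooth at the points of the sphere; the constant depends on the bounds `B` only. -/
theorem sphere5_bv_one (d : ℕ) (hd : 2 ≤ d) (hft : ∀ p : ℝ, 2 < p → ∃ C1 : ℕ, FTst d p C1)
    (V p : ℝ) (hp : 2 * ((d : ℝ) + 1) / d < p) (ε : ℝ) (hε : 0 < ε) (B : ℕ → ℝ) :
    ∃ K : ℝ, 0 < K ∧ ∀ (φ : E (d + 1) → ℝ) (w : E (d + 1) → ℂ),
      (∀ x, ‖x‖ = 1 → ContDiffAt ℝ ∞ φ x) →
      (∀ k x, ‖x‖ = 1 → ‖iteratedFDeriv ℝ k φ x‖ ≤ B k) →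
      (Measurable w ∧ (∀ x, ‖w x‖ ≤ 1) ∧ BVn (d + 1) 1 V w) → ∀ c : ℝ,
      ∫⁻ ξ, ‖extn (fun x => w x * Complex.exp (((c * φ x : ℝ) : ℂ) * Complex.I)) ξ‖ₑ ^ p ≤
        ENNReal.ofReal (K * (1 + |c|) ^ ε) := by
  obtain ⟨C, hC, h⟩ := sphere5_bv_fam d hd hft 1 p ε V hp hε B
  refine ⟨C.toReal + 1, by positivity, fun φ w h1 h2 h3 c => ?_⟩
  have h4 := h (fun _ => φ) (fun _ => ⟨h1, h2⟩) w h3.1 h3.2.1 h3.2.2 fun _ => c
  have h5 : ‖fun _ : Fin 1 => c‖ = |c| := by simp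
  have h6 : ∀ x, ∑ j : Fin 1, (fun _ : Fin 1 => c) j * (fun _ : Fin 1 => φ) j x = c * φ x :=
    fun x => by simp
  simp only [h5, h6] at h4
  refine h4.trans ?_
  have h7 : C ≤ ENNReal.ofReal (C.toReal + 1) := by
    rw [← ENNReal.ofReal_toReal hC]
    exact ENNReal.ofReal_le_ofReal (by simp [ENNReal.toReal_ofReal])
  rw [ENNReal.ofReal_mul (by positivity)]
  exact mul_le_mul' h7 le_rfl

/-- One family of phases smooth at the points of the sphere. -/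
theorem sphere5_bv_loss (d : ℕ) (hd : 2 ≤ d) (hft : ∀ p : ℝ, 2 < p → ∃ C1 : ℕ, FTst d p C1)
    {N : ℕ} (φ : Fin N → E (d + 1) → ℝ) (hφ : ∀ j x, ‖x‖ = 1 → ContDiffAt ℝ ∞ (φ j) x) (V p : ℝ)
    (hp : 2 * ((d : ℝ) + 1) / d < p) (ε : ℝ) (hε : 0 < ε) : ∃ C : ℝ≥0∞, C ≠ ⊤ ∧
    ∀ w : E (d + 1) → ℂ, (Measurable w ∧ (∀ x, ‖w x‖ ≤ 1) ∧ BVn (d + 1) 1 V w) →
      ∀ c : Fin N → ℝ, ∫⁻ ξ, ‖extn (fun x => w x *
          Complex.exp (((∑ j, c j * φ j x : ℝ) : ℂ) * Complex.I)) ξ‖ₑ ^ p ≤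
        C * ENNReal.ofReal ((1 + ‖c‖) ^ ε) := by
  obtain ⟨B, hB⟩ := exists_Sb_fin hφ
  obtain ⟨C, hC, h⟩ := sphere5_bv_fam d hd hft N p ε V hp hε B
  exact ⟨C, hC, fun w hw c => h φ hB w hw.1 hw.2.1 hw.2.2 c⟩

end Pool.Agent.GNP
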