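import Pool.Agent.GNP.FINK2
import Pool.Agent.GNP.NB5
import Pool.Agent.GNP.FTn

/-!
Every phase of class `C^k`, amplitudes of bounded variation, all dimensions `n ≥ 3`, full range, with
a small loss in one `C^k` norm of the phase.
-/

namespace Pool.Agent.GNP

open MeasureTheory Set Filter Topology Metric Pool.Agent.MP_6cbfb8_an
open scoped ENNReal Real RealInnerProductSpace ContDiff

/-- `n ≥ 3`, `p > 2n/(n-1)`, `ε > 0`, `V ∈ ℝ`: there are `k` and `C` such that the integral of the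
`p`-th power of the Fourier transform of `w e^{iψ} σ` is at most `C (1 + T)^ε` for all `ψ` of class
`C^k` at the points of the sphere with derivatives of order at most `k` bounded by `T` there, and all
`w`, `|w| ≤ 1`, of variation at most `V`. -/
theorem finreg (n : ℕ) (hn : 3 ≤ n) (p ε : ℝ) (hp : 2 * (n : ℝ) / (n - 1) < p) (hε : 0 < ε)
    (V : ℝ) : ∃ (k : ℕ) (C : ℝ≥0∞), C ≠ ⊤ ∧ ∀ (ψ : E n → ℝ) (w : E n → ℂ) (T : ℝ),
      (∀ x ∈ sphere (0 : E n) 1, ContDiffAt ℝ k ψ x) →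
      (∀ j ≤ k, ∀ x ∈ sphere (0 : E n) 1, ‖iteratedFDeriv ℝ j ψ x‖ ≤ T) →
      Measurable w → (∀ x, ‖w x‖ ≤ 1) → BVn n 1 V w →
      ∫⁻ ξ, ‖extn (fun x => w x * Complex.exp (((ψ x : ℝ) : ℂ) * Complex.I)) ξ‖ₑ ^ p ≤
        C * ENNReal.ofReal ((1 + T) ^ ε) := by
  obtain ⟨d, rfl⟩ : ∃ d, n = d + 1 := ⟨n - 1, by omega⟩
  have hp' : 2 * ((d : ℝ) + 1) / d < p := by
    refine lt_of_eq_of_lt ?_ hp
    push_cast
    congr 1
    ring
  have H : LossB (d + 1) p ε fun w => Measurable w ∧ (∀ x, ‖w x‖ ≤ 1) ∧ BVn (d + 1) 1 V w :=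
    fun B => sphere5_bv_one d (by omega) (ft d) V p hp' ε hε B
  obtain ⟨k, C, hC, h⟩ := fink_Ck hε (fun w hw => ⟨hw.1, hw.2.1⟩) H
  refine ⟨k, ENNReal.ofReal C, ENNReal.ofReal_ne_top, fun ψ w T hψ hb hw hw1 hwV => ?_⟩
  have hT : 0 ≤ T := by
    obtain ⟨x, hx⟩ := NormedSpace.sphere_nonempty (E := E (d + 1)) (x := 0) (r := 1) |>.2 zero_le_one
    exact (norm_nonneg _).trans (hb 0 (Nat.zero_le _) x hx)
  rw [← ENNReal.ofReal_mul hC.le]
  exact h ψ w (fun x hx => hψ x (by simpa using hx)) ⟨hw, hw1, hwV⟩ (1 + T) (by linarith)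
    fun j hj x hx => (hb j hj x (by simpa using hx)).trans (by linarith)

end Pool.Agent.GNP
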