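import Pool.Agent.GNP.WMO

/-!
Partition of an amplitude according to the levels of a slowly varying function.
-/

namespace Pool.Agent.GNP

open MeasureTheory Set Pool.Agent.MP_6cbfb8_an
open scoped ENNReal Real RealInnerProductSpace ContDiff

/-- The indicator function of `{L ≤ P}` in the ball of radius `r + 1`. -/
noncomputable def lvS {d : ℕ} (L : E d → ℝ) (r P : ℝ) : E d → ℂ :=
  indicator ({y | L y ≤ P} ∩ Metric.closedBall 0 (r + 1)) fun _ => 1

/-- Its mollification at scale `1/P`. -/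
noncomputable def lvg {d : ℕ} (η : E d → ℝ) (L : E d → ℝ) (r P : ℝ) : E d → ℂ :=
  mo η (lvS L r P) P

theorem lvS_measurable {d : ℕ} {L : E d → ℝ} (hL : Measurable L) (r P : ℝ) :
    Measurable (lvS L r P) :=
  measurable_const.indicator
    ((measurableSet_le hL measurable_const).inter Metric.isClosed_closedBall.measurableSet)

theorem lvS_le {d : ℕ} (L : E d → ℝ) (r P : ℝ) (y : E d) : ‖lvS L r P y‖ ≤ 1 := by
  unfold lvS
  by_cases h : y ∈ ({y | L y ≤ P} ∩ Metric.closedBall 0 (r + 1) : Set (E d))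
  · rw [indicator_of_mem h, norm_one]
  · rw [indicator_of_notMem h, norm_zero]
    exact zero_le_one

theorem lvS_zero {d : ℕ} (L : E d → ℝ) (r P : ℝ) (y : E d) (hy : r + 1 < ‖y‖) :
    lvS L r P y = 0 := by
  unfold lvS
  apply indicator_of_notMem
  rintro ⟨-, h⟩
  rw [mem_closedBall_zero_iff] at h
  linarith

theorem lvg_one {d : ℕ} {η : E d → ℝ} (hη : Ker 1 η) (h1 : ∫ v, η v = 1) {L : E d → ℝ}
    {C0 r P : ℝ} (hC0 : 1 ≤ C0) (hL1 : ∀ y, 1 ≤ L y)
    (hL : ∀ y w, ‖y‖ ≤ r + 1 → ‖w‖ ≤ 1 / L y → L (y + w) ≤ C0 * L y) (hP : 1 ≤ P) (y : E d)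
    (hy : ‖y‖ ≤ r) (hyP : C0 * L y ≤ P) : lvg η L r P y = 1 := by
  have hP0 : 0 < P := by linarith
  have hLy : L y ≤ P := by
    refine le_trans ?_ hyP
    have := hL1 y
    nlinarith
  have h2 : ∀ v, ((P ^ d * η (P • (y - v)) : ℝ) : ℂ) * lvS L r P v =
      ((P ^ d * η (P • (y - v)) : ℝ) : ℂ) := by
    intro v
    by_cases hv : v ∈ Metric.closedBall y (1 / P)
    · have h3 : lvS L r P v = 1 := by
        unfold lvS
        apply indicator_of_mem
        have h4 : ‖v - y‖ ≤ 1 / P := by rwa [Metric.mem_closedBall, dist_eq_norm] at hv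
        have h5 : (1:ℝ) / P ≤ 1 := by
          rw [div_le_one hP0]
          exact hP
        refine ⟨?_, ?_⟩
        · have h6 : ‖v - y‖ ≤ 1 / L y :=
            h4.trans (one_div_le_one_div_of_le (by linarith [hL1 y]) hLy)
          have h7 := hL y (v - y) (by linarith) h6
          rw [add_sub_cancel] at h7
          exact h7.trans hyP
        · rw [mem_closedBall_zero_iff]
          have h8 : ‖v‖ ≤ ‖v - y‖ + ‖y‖ := by
            have := norm_add_le (v - y) y
            rwa [sub_add_cancel] at this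
          linarith
      rw [h3, mul_one]
    · rw [mo_hcs hη hP0 y v hv, mul_zero, Complex.ofReal_zero, zero_mul]
  unfold lvg mo
  rw [integral_congr_ae (Filter.Eventually.of_forall h2), integral_complex_ofReal,
    mo_one h1 hP0, Complex.ofReal_one]

theorem lvg_zero {d : ℕ} {η : E d → ℝ} (hη : Ker 1 η) {L : E d → ℝ} {C0 r P : ℝ}
    (hC0 : 1 ≤ C0) (hL1 : ∀ y, 1 ≤ L y)
    (hL : ∀ y w, ‖y‖ ≤ r + 1 → ‖w‖ ≤ 1 / L y → L (y + w) ≤ C0 * L y) (hP : 1 ≤ P) (y : E d)
    (hy : ‖y‖ ≤ r) (hyP : C0 * P < L y) : lvg η L r P y = 0 := by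
  have hP0 : 0 < P := by linarith
  unfold lvg mo
  rw [← integral_zero (E d) ℂ]
  refine integral_congr_ae (Filter.Eventually.of_forall fun v => ?_)
  by_cases hv : v ∈ Metric.closedBall y (1 / P)
  · have h3 : lvS L r P v = 0 := by
      unfold lvS
      apply indicator_of_notMem
      rintro ⟨h4, -⟩
      have h4 : L v ≤ P := h4
      have h5 : ‖y - v‖ ≤ 1 / P := by rwa [Metric.mem_closedBall, dist_comm, dist_eq_norm] at hv
      have h6 : (1:ℝ) / P ≤ 1 := by
        rw [div_le_one hP0]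
        exact hP
      have h7 : ‖y - v‖ ≤ 1 / L v :=
        h5.trans (one_div_le_one_div_of_le (by linarith [hL1 v]) h4)
      have h8 : ‖v‖ ≤ r + 1 := by
        have := norm_sub_le y (y - v)
        rw [sub_sub_cancel] at this
        linarith
      have h9 := hL v (y - v) h8 h7
      rw [add_sub_cancel] at h9
      have h10 : C0 * L v ≤ C0 * P := by gcongr
      linarith
    simp only [h3, mul_zero]
  · simp only [mo_hcs hη hP0 y v hv, mul_zero, Complex.ofReal_zero, zero_mul]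

theorem mul_der {d : ℕ} {a g : E d → ℂ} (ha : ContDiff ℝ ∞ a) (hg : ContDiff ℝ ∞ g)
    {A B : ℕ → ℝ} {P : ℝ} (hA : ∀ j y, ‖iteratedFDeriv ℝ j a y‖ ≤ A j * P ^ j)
    (hB : ∀ j y, ‖iteratedFDeriv ℝ j g y‖ ≤ B j * P ^ j) (j : ℕ) (y : E d) :
    ‖iteratedFDeriv ℝ j (fun y => a y * g y) y‖ ≤
      (∑ i ∈ Finset.range (j + 1), (j.choose i : ℝ) * (A i * B (j - i))) * P ^ j := by
  refine (norm_iteratedFDeriv_mul_le (ha.of_le (by exact_mod_cast le_top))
    (hg.of_le (by exact_mod_cast le_top)) y le_rfl).trans ?_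
  rw [Finset.sum_mul]
  refine Finset.sum_le_sum fun i hi => ?_
  have hi' : i ≤ j := Nat.lt_succ_iff.1 (Finset.mem_range.1 hi)
  have h1 : P ^ j = P ^ i * P ^ (j - i) := by rw [← pow_add, Nat.add_sub_cancel' hi']
  have h2 : 0 ≤ A i * P ^ i := (norm_nonneg _).trans (hA i y)
  calc (j.choose i : ℝ) * ‖iteratedFDeriv ℝ i a y‖ * ‖iteratedFDeriv ℝ (j - i) g y‖
      ≤ (j.choose i : ℝ) * (A i * P ^ i) * (B (j - i) * P ^ (j - i)) := by
        gcongr
        · exact hA i y
        · exact hB (j - i) y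
    _ = _ := by
        rw [h1]
        ring

/-- The partition by levels: `f k` lives where `L` is about `2 ^ k` and is smooth at scale
`2 ^ (-k)`. -/
theorem part_lev (d : ℕ) (A : ℕ → ℝ) : ∃ A' : ℕ → ℝ,
    ∀ (L : E d → ℝ) (a : E d → ℂ) (C0 r : ℝ) (K : ℕ), Measurable L → 1 ≤ C0 → (∀ y, 1 ≤ L y) →
    (∀ y, ‖y‖ ≤ r → C0 * L y ≤ 2 ^ K) →
    (∀ y w, ‖y‖ ≤ r + 1 → ‖w‖ ≤ 1 / L y → L (y + w) ≤ C0 * L y) → Amp d A r a →
    ∃ f : ℕ → E d → ℂ, (∀ k, AmpR d A' r (2 ^ k) (f k)) ∧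
      (∀ k y, f k y ≠ 0 → ‖y‖ ≤ r ∧ a y ≠ 0 ∧ 2 ^ k ≤ 2 * (C0 * L y) ∧ L y ≤ C0 * 2 ^ k) ∧
      ∀ y, ∑ k ∈ Finset.range (K + 1), f k y = a y := by
  obtain ⟨η, hη, h0, h1⟩ := exists_ker_nn d
  choose B hB0 hB using fun j => mo_der hη j
  refine ⟨fun j => ∑ i ∈ Finset.range (j + 1), (j.choose i : ℝ) * (|A i| * (2 * B (j - i))), ?_⟩
  intro L a C0 r K hLm hC0 hL1 hLK hL ha
  set g : ℕ → E d → ℂ := fun k => lvg η L r (2 ^ k) with hg
  have hP : ∀ k : ℕ, (1:ℝ) ≤ 2 ^ k := fun k => one_le_pow₀ (by norm_num)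
  have hint : ∀ k : ℕ, LocallyIntegrable (lvS L r (2 ^ k)) volume := fun k =>
    (amp_int (lvS_measurable hLm r _) (lvS_le L r _) (lvS_zero L r _)).locallyIntegrable
  have hgs : ∀ k, ContDiff ℝ ∞ (g k) := fun k =>
    mo_contDiff hη (hint k) (by linarith [hP k])
  have hgb : ∀ k j y, ‖iteratedFDeriv ℝ j (g k) y‖ ≤ B j * (2 ^ k) ^ j := fun k j y =>
    hB j _ _ (by linarith [hP k]) (hint k) (lvS_le L r _) y
  have hab : ∀ (k : ℕ) j y, ‖iteratedFDeriv ℝ j a y‖ ≤ |A j| * (2 ^ k) ^ j := by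
    intro k j y
    refine (ha.bd j y).trans ((le_abs_self _).trans ?_)
    exact le_mul_of_one_le_right (abs_nonneg _) (one_le_pow₀ (hP k))
  set D : ℕ → E d → ℂ := fun k => match k with
    | 0 => g 0
    | (k + 1) => fun y => g (k + 1) y - g k y with hD
  have hDs : ∀ k, ContDiff ℝ ∞ (D k) := by
    intro k
    cases k with
    | zero => exact hgs 0
    | succ k => exact (hgs (k + 1)).sub (hgs k)
  have hDb : ∀ k j y, ‖iteratedFDeriv ℝ j (D k) y‖ ≤ (2 * B j) * (2 ^ k) ^ j := by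
    intro k j y
    cases k with
    | zero =>
      refine (hgb 0 j y).trans ?_
      have : 0 ≤ B j * ((2:ℝ) ^ 0) ^ j := mul_nonneg (hB0 j) (by positivity)
      linarith
    | succ k =>
      have h3 : D (k + 1) = g (k + 1) - g k := rfl
      have h4 : ContDiffAt ℝ j (g (k + 1)) y :=
        ((hgs (k + 1)).of_le (by exact_mod_cast le_top)).contDiffAt
      have h5 : ContDiffAt ℝ j (g k) y := ((hgs k).of_le (by exact_mod_cast le_top)).contDiffAt
      rw [h3, iteratedFDeriv_sub_apply h4 h5]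
      refine (norm_sub_le _ _).trans ?_
      have h6 := hgb (k + 1) j y
      have h7 : B j * ((2:ℝ) ^ k) ^ j ≤ B j * (2 ^ (k + 1)) ^ j := by
        refine mul_le_mul_of_nonneg_left ?_ (hB0 j)
        refine pow_le_pow_left₀ (by positivity) ?_ j
        exact pow_le_pow_right₀ (by norm_num) (Nat.le_succ k)
      have h8 := hgb k j y
      linarith
  have hsum : ∀ (n : ℕ) y, ∑ k ∈ Finset.range (n + 1), D k y = g n y := by
    intro n y
    induction n with
    | zero => simp [hD]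
    | succ n ih =>
      rw [Finset.sum_range_succ, ih]
      simp only [hD]
      ring
  refine ⟨fun k y => a y * D k y, fun k => ⟨ha.sm.mul (hDs k), fun y hy => ?_, fun j y => ?_⟩,
    fun k y hk => ?_, fun y => ?_⟩
  · simp only
    rw [ha.supp y hy, zero_mul]
  · exact mul_der ha.sm (hDs k) (hab k) (hDb k) j y
  · have ha0 : a y ≠ 0 := left_ne_zero_of_mul hk
    have hD0 : D k y ≠ 0 := right_ne_zero_of_mul hk
    have hy : ‖y‖ ≤ r := by
      by_contra h
      exact ha0 (ha.supp y (not_le.1 h))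
    refine ⟨hy, ha0, ?_, ?_⟩
    · by_contra h
      rw [not_le] at h
      cases k with
      | zero =>
        have := hL1 y
        rw [pow_zero] at h
        nlinarith
      | succ k =>
        rw [pow_succ] at h
        have h9 : C0 * L y ≤ 2 ^ k := by linarith
        have h10 : C0 * L y ≤ 2 ^ (k + 1) :=
          h9.trans (pow_le_pow_right₀ (by norm_num) (Nat.le_succ k))
        apply hD0
        simp only [hD, hg]
        rw [lvg_one hη h1 hC0 hL1 hL (hP _) y hy h9, lvg_one hη h1 hC0 hL1 hL (hP _) y hy h10,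
          sub_self]
    · by_contra h
      rw [not_le] at h
      apply hD0
      cases k with
      | zero => exact lvg_zero hη hC0 hL1 hL (hP 0) y hy h
      | succ k =>
        have h9 : C0 * 2 ^ k < L y := by
          refine lt_of_le_of_lt ?_ h
          have : (2:ℝ) ^ k ≤ 2 ^ (k + 1) := pow_le_pow_right₀ (by norm_num) (Nat.le_succ k)
          gcongr
        simp only [hD, hg]
        rw [lvg_zero hη hC0 hL1 hL (hP _) y hy h9, lvg_zero hη hC0 hL1 hL (hP _) y hy h, sub_self]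
  · simp only
    rw [← Finset.mul_sum, hsum]
    by_cases hy : ‖y‖ ≤ r
    · simp only [hg]
      rw [lvg_one hη h1 hC0 hL1 hL (hP K) y hy (hLK y hy), mul_one]
    · rw [ha.supp y (not_le.1 hy), zero_mul]

/-- The integral of a finite sum of amplitudes. -/
theorem uu_sum_fin {d : ℕ} {ι : Type*} (s : Finset ι) (f : ι → E d → ℂ) (a : E d → ℂ)
    (q : E d → ℝ) (hf : ∀ k ∈ s, Integrable (f k)) (hq : Continuous q)
    (hs : ∀ y, ∑ k ∈ s, f k y = a y) (x : E d) : uu a q x = ∑ k ∈ s, uu (f k) q x := by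
  unfold uu
  rw [← integral_finsetSum]
  · refine integral_congr_ae (Filter.Eventually.of_forall fun y => ?_)
    simp only
    rw [← hs y, Finset.sum_mul]
  · intro k hk
    refine (hf k hk).mul_bdd (c := 1) ?_ (Filter.Eventually.of_forall fun y => ?_)
    · have h1 : Continuous fun y : E d => Complex.exp (((q y - ⟪x, y⟫ : ℝ) : ℂ) * Complex.I) := by
        fun_prop
      exact h1.aestronglyMeasurable
    · rw [Complex.norm_exp_ofReal_mul_I]

/-- Finite sums in `L^p`. -/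
theorem lint_sum_fin {X : Type*} [MeasurableSpace X] (μ : Measure X) {ι : Type*} (s : Finset ι)
    (g : ι → X → ℂ) (p : ℝ) (hp : 1 ≤ p) (hg : ∀ k ∈ s, AEMeasurable (g k) μ) :
    ∫⁻ x, ‖∑ k ∈ s, g k x‖ₑ ^ p ∂μ ≤
      (s.card : ℝ≥0∞) ^ (p - 1) * ∑ k ∈ s, ∫⁻ x, ‖g k x‖ₑ ^ p ∂μ := by
  rw [← lintegral_finsetSum' _ fun k hk => ((hg k hk).enorm.pow_const p),
    ← lintegral_const_mul']
  · refine lintegral_mono fun x => ?_
    refine (ENNReal.rpow_le_rpow (enorm_sum_le _ _) (by linarith)).trans ?_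
    exact ENNReal.rpow_sum_le_const_mul_sum_rpow s _ hp
  · exact ENNReal.rpow_ne_top_of_nonneg (by linarith) (ENNReal.natCast_ne_top _)

end Pool.Agent.GNP
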