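import Pool.Agent.GNP.LV
import Pool.Agent.GNP.PT

/-!
The pieces of the amplitude at the levels of the stopping scale, for amplitudes which are smooth at
the largest scale only.
-/

namespace Pool.Agent.GNP

open MeasureTheory Set Metric Pool.Agent.MP_6cbfb8_an
open scoped ENNReal Real RealInnerProductSpace ContDiff

theorem AmpR.monoR {d : ℕ} {A A' : ℕ → ℝ} {r R : ℝ} {a : E d → ℂ} (h : AmpR d A r R a)
    (hR : 0 ≤ R) (hA : ∀ j, A j ≤ A' j) : AmpR d A' r R a :=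
  ⟨h.sm, h.supp, fun j y => (h.bd j y).trans
    (mul_le_mul_of_nonneg_right (hA j) (pow_nonneg hR j))⟩

theorem AmpR.intR {d : ℕ} {A : ℕ → ℝ} {r R : ℝ} {a : E d → ℂ} (h : AmpR d A r R a) :
    Integrable a := by
  refine h.sm.continuous.integrable_of_hasCompactSupport ?_
  refine HasCompactSupport.intro (isCompact_closedBall (0 : E d) r) fun v hv => h.supp v ?_
  rw [mem_closedBall_zero_iff, not_le] at hv
  exact hv

/-- The partition by levels for amplitudes which are smooth at scale `1/κ`, `κ ≤ L`. -/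
theorem part_levR (d : ℕ) (A : ℕ → ℝ) (C0 : ℝ) (hC0 : 1 ≤ C0) : ∃ A' : ℕ → ℝ,
    ∀ (L : E d → ℝ) (a : E d → ℂ) (r κ : ℝ) (K : ℕ), Measurable L → 1 ≤ κ →
    (∀ y, κ ≤ L y) → (∀ y, ‖y‖ ≤ r → C0 * L y ≤ 2 ^ K) →
    (∀ y w, ‖y‖ ≤ r + 1 → ‖w‖ ≤ 1 / L y → L (y + w) ≤ C0 * L y) → AmpR d A r κ a →
    ∃ f : ℕ → E d → ℂ, (∀ k, AmpR d A' r (2 ^ k) (f k)) ∧
      (∀ k y, f k y ≠ 0 → ‖y‖ ≤ r ∧ a y ≠ 0 ∧ 2 ^ k ≤ 2 * (C0 * L y) ∧ L y ≤ C0 * 2 ^ k) ∧
      ∀ y, ∑ k ∈ Finset.range (K + 1), f k y = a y := by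
  obtain ⟨η, hη, h0, h1⟩ := exists_ker_nn d
  choose B hB0 hB using fun j => mo_der hη j
  refine ⟨fun j => ∑ i ∈ Finset.range (j + 1),
    (j.choose i : ℝ) * ((|A i| * C0 ^ i) * (2 * B (j - i))), ?_⟩
  intro L a r κ K hLm hκ hκL hLK hL ha
  have hL1 : ∀ y, 1 ≤ L y := fun y => hκ.trans (hκL y)
  set g : ℕ → E d → ℂ := fun k => lvg η L r (2 ^ k) with hg
  have hP : ∀ k : ℕ, (1:ℝ) ≤ 2 ^ k := fun k => one_le_pow₀ (by norm_num)
  have hint : ∀ k : ℕ, LocallyIntegrable (lvS L r (2 ^ k)) volume := fun k =>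
    (amp_int (lvS_measurable hLm r _) (lvS_le L r _) (lvS_zero L r _)).locallyIntegrable
  have hgs : ∀ k, ContDiff ℝ ∞ (g k) := fun k =>
    mo_contDiff hη (hint k) (by linarith [hP k])
  have hgb : ∀ k j y, ‖iteratedFDeriv ℝ j (g k) y‖ ≤ B j * (2 ^ k) ^ j := fun k j y =>
    hB j _ _ (by linarith [hP k]) (hint k) (lvS_le L r _) y
  have hab : ∀ (k : ℕ), κ ≤ C0 * 2 ^ k → ∀ j y,
      ‖iteratedFDeriv ℝ j a y‖ ≤ (|A j| * C0 ^ j) * (2 ^ k) ^ j := by
    intro k hk j y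
    refine (ha.bd j y).trans ?_
    calc A j * κ ^ j ≤ |A j| * (C0 * 2 ^ k) ^ j := by
          gcongr
          exact le_abs_self _
      _ = _ := by rw [mul_pow, mul_assoc]
  set D : ℕ → E d → ℂ := fun k => match k with
    | 0 => g 0
    | (k + 1) => fun y => g (k + 1) y - g k y with hD
  have hDs : ∀ k, ContDiff ℝ ∞ (D k) := by
    intro k
    cases k with
    | zero => exact hgs 0
    | succ k => exact (hgs (k + 1)).sub (hgs k)
  have hDb : ∀ k j y, ‖iteratedFDeriv ℝ j (D k) y‖ ≤ (2 * B j) * (2 ^ k) ^ j := by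
    intro k j y
    cases k with
    | zero =>
      refine (hgb 0 j y).trans ?_
      have : 0 ≤ B j * ((2:ℝ) ^ 0) ^ j := mul_nonneg (hB0 j) (by positivity)
      linarith
    | succ k =>
      have h3 : D (k + 1) = g (k + 1) - g k := rfl
      have h4 : ContDiffAt ℝ j (g (k + 1)) y :=
        ((hgs (k + 1)).of_le (by exact_mod_cast le_top)).contDiffAt
      have h5 : ContDiffAt ℝ j (g k) y := ((hgs k).of_le (by exact_mod_cast le_top)).contDiffAt
      rw [h3, iteratedFDeriv_sub_apply h4 h5]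
      refine (norm_sub_le _ _).trans ?_
      have h6 := hgb (k + 1) j y
      have h7 : B j * ((2:ℝ) ^ k) ^ j ≤ B j * (2 ^ (k + 1)) ^ j := by
        refine mul_le_mul_of_nonneg_left ?_ (hB0 j)
        refine pow_le_pow_left₀ (by positivity) ?_ j
        exact pow_le_pow_right₀ (by norm_num) (Nat.le_succ k)
      have h8 := hgb k j y
      linarith
  have hsum : ∀ (n : ℕ) y, ∑ k ∈ Finset.range (n + 1), D k y = g n y := by
    intro n y
    induction n with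
    | zero => simp [hD]
    | succ n ih =>
      rw [Finset.sum_range_succ, ih]
      simp only [hD]
      ring
  have hloc : ∀ k y, a y * D k y ≠ 0 →
      ‖y‖ ≤ r ∧ a y ≠ 0 ∧ 2 ^ k ≤ 2 * (C0 * L y) ∧ L y ≤ C0 * 2 ^ k := by
    intro k y hk
    have ha0 : a y ≠ 0 := left_ne_zero_of_mul hk
    have hD0 : D k y ≠ 0 := right_ne_zero_of_mul hk
    have hy : ‖y‖ ≤ r := by
      by_contra h
      exact ha0 (ha.supp y (not_le.1 h))
    refine ⟨hy, ha0, ?_, ?_⟩
    · by_contra h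
      rw [not_le] at h
      cases k with
      | zero =>
        have := hL1 y
        rw [pow_zero] at h
        nlinarith
      | succ k =>
        rw [pow_succ] at h
        have h9 : C0 * L y ≤ 2 ^ k := by linarith
        have h10 : C0 * L y ≤ 2 ^ (k + 1) :=
          h9.trans (pow_le_pow_right₀ (by norm_num) (Nat.le_succ k))
        apply hD0
        simp only [hD, hg]
        rw [lvg_one hη h1 hC0 hL1 hL (hP _) y hy h9, lvg_one hη h1 hC0 hL1 hL (hP _) y hy h10,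
          sub_self]
    · by_contra h
      rw [not_le] at h
      apply hD0
      cases k with
      | zero => exact lvg_zero hη hC0 hL1 hL (hP 0) y hy h
      | succ k =>
        have h9 : C0 * 2 ^ k < L y := by
          refine lt_of_le_of_lt ?_ h
          have : (2:ℝ) ^ k ≤ 2 ^ (k + 1) := pow_le_pow_right₀ (by norm_num) (Nat.le_succ k)
          gcongr
        simp only [hD, hg]
        rw [lvg_zero hη hC0 hL1 hL (hP _) y hy h9, lvg_zero hη hC0 hL1 hL (hP _) y hy h, sub_self]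
  refine ⟨fun k y => a y * D k y, fun k => ⟨ha.sm.mul (hDs k), fun y hy => ?_, fun j y => ?_⟩,
    hloc, fun y => ?_⟩
  · simp only
    rw [ha.supp y hy, zero_mul]
  · by_cases hk : κ ≤ C0 * 2 ^ k
    · exact mul_der ha.sm (hDs k) (hab k hk) (hDb k) j y
    · have h2 : (fun y => a y * D k y) = fun _ => 0 := by
        funext z
        by_contra h3
        have h4 := (hloc k z h3).2.2.2
        exact hk ((hκL z).trans h4)
      have h5 : iteratedFDeriv ℝ j (fun y => a y * D k y) y = 0 := by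
        rw [h2]
        exact congrFun (iteratedFDeriv_fun_zero (𝕜 := ℝ) (E := E d) (F := ℂ) (n := j)) y
      rw [h5, norm_zero]
      refine mul_nonneg (Finset.sum_nonneg fun i _ => ?_) (by positivity)
      have := hB0 (j - i)
      positivity
  · simp only
    rw [← Finset.mul_sum, hsum]
    by_cases hy : ‖y‖ ≤ r
    · simp only [hg]
      rw [lvg_one hη h1 hC0 hL1 hL (hP K) y hy (hLK y hy), mul_one]
    · rw [ha.supp y (not_le.1 hy), zero_mul]

/-- The pieces of the amplitude. -/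
theorem levelsR (d J : ℕ) (A : ℕ → ℝ) (κ0 : ℝ) (hκ0 : 0 < κ0) (r r' : ℝ) (_hr : 0 < r)
    (hr' : r < r') : ∃ (A' : ℕ → ℝ) (m : ℕ) (κ1 : ℝ), 1 ≤ κ1 ∧
    ∀ (a : E d → ℂ) (q : E d → ℝ) (κ : ℝ) (n : ℕ), κ1 ≤ κ → AmpR d A r κ a → High d J A κ q →
      (∀ y, lv J κ q y ≤ n) → ∃ b : ℕ → E d → ℂ,
        (∀ k, AmpR d A' r (2 ^ k) (b k) ∧ Quad d A' (2 ^ k) q (Fl J κ q r' m k) ∧
          ∀ y, b k y ≠ 0 → Metric.closedBall y (κ0 / 2 ^ k) ⊆ Fl J κ q r' m k) ∧
        (∀ y, ∑ k ∈ Finset.range (n + m + 1), b k y = a y) ∧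
        ∀ x, uu a q x = ∑ k ∈ Finset.range (n + m + 1), uu (b k) q x := by
  obtain ⟨C0, hC0, h0⟩ := slow d J A 1
  obtain ⟨C1, hC1, h1⟩ := slow d J A (κ0 * C0)
  obtain ⟨A1, hA1⟩ := part_levR d A C0 hC0
  obtain ⟨m, hm⟩ := pow_unbounded_of_one_lt (2 * (C0 * C1)) (one_lt_two (α := ℝ))
  have hC0' : 0 < C0 := zero_lt_one.trans_le hC0
  have hC1' : 0 < C1 := zero_lt_one.trans_le hC1
  have hrr : 0 < r' - r := sub_pos.2 hr'
  refine ⟨fun j => |A1 j| + max 1 |A j| * (2 ^ m) ^ j, m, max 1 (κ0 * C0 / (r' - r)),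
    le_max_left _ _, ?_⟩
  intro a q κ n hκ ha hq hn
  have hκ1 : 1 ≤ κ := (le_max_left _ _).trans hκ
  have hκp : 0 < κ := zero_lt_one.trans_le hκ1
  have hLp : ∀ y, 0 < Lm J κ q y := fun y => hκp.trans_le (Lm_ge J κ q y)
  have hm0 : C0 ≤ 2 ^ m := by nlinarith
  obtain ⟨f, hf1, hf2, hf3⟩ := hA1 (Lm J κ q) a r κ (n + m) (Lm_cont J κ hq.sm).measurable hκ1
    (fun y => Lm_ge J κ q y)
    (fun y _ => by
      rw [pow_add, mul_comm ((2 : ℝ) ^ n)]
      refine mul_le_mul hm0 ((Lm_le_lv hκp y).trans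
        (pow_le_pow_right₀ one_le_two (hn y))) (hLp y).le (by positivity))
    (fun y w _ hw => (h0 q κ hκ1 hq y w hw).1) ha
  refine ⟨f, fun k => ⟨(hf1 k).monoR (by positivity) fun j => ?_, ⟨hq.sm, fun y hy j hj => ?_⟩,
    fun y hy z hz => ?_⟩, hf3, fun x => ?_⟩
  · have h2 : 0 ≤ max 1 |A j| * ((2 : ℝ) ^ m) ^ j := by positivity
    have h3 := le_abs_self (A1 j)
    linarith
  · obtain ⟨-, -, h2⟩ := hy
    have h3 : Lm J κ q y ≤ 2 ^ m * 2 ^ k := by
      rw [← pow_add, add_comm m k]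
      exact (Lm_le_lv hκp y).trans (pow_le_pow_right₀ one_le_two h2)
    calc ‖iteratedFDeriv ℝ j q y‖ ≤ max 1 |A j| * Lm J κ q y ^ j := der_le hκ1 hq y j hj
      _ ≤ max 1 |A j| * (2 ^ m * 2 ^ k) ^ j :=
          mul_le_mul_of_nonneg_left (pow_le_pow_left₀ (hLp y).le h3 j) (by positivity)
      _ = max 1 |A j| * (2 ^ m) ^ j * (2 ^ k) ^ j := by rw [mul_pow, mul_assoc]
      _ ≤ _ := mul_le_mul_of_nonneg_right (le_add_of_nonneg_left (abs_nonneg _)) (by positivity)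
  · obtain ⟨hyr, -, h2, h3⟩ := hf2 k y hy
    have hk0 : (0 : ℝ) < 2 ^ k := by positivity
    have hzy : ‖z - y‖ ≤ κ0 / 2 ^ k := by rwa [← dist_eq_norm]
    have h4 : κ0 / 2 ^ k ≤ κ0 * C0 / Lm J κ q y := by
      rw [div_le_div_iff₀ hk0 (hLp y)]
      calc κ0 * Lm J κ q y ≤ κ0 * (C0 * 2 ^ k) := mul_le_mul_of_nonneg_left h3 hκ0.le
        _ = κ0 * C0 * 2 ^ k := by ring
    obtain ⟨h5, h6, -⟩ := h1 q κ hκ1 hq y (z - y) (hzy.trans h4)
    rw [add_sub_cancel] at h5 h6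
    refine ⟨?_, ?_, ?_⟩
    · have h7 : κ0 / 2 ^ k ≤ r' - r := by
        have h8 : κ0 * C0 / (r' - r) ≤ Lm J κ q y :=
          ((le_max_right _ _).trans hκ).trans (Lm_ge J κ q y)
        rw [div_le_iff₀ hrr] at h8
        rw [div_le_iff₀ hk0]
        have h9 : κ0 * C0 ≤ C0 * ((r' - r) * 2 ^ k) := by
          calc κ0 * C0 ≤ Lm J κ q y * (r' - r) := h8
            _ ≤ C0 * 2 ^ k * (r' - r) := mul_le_mul_of_nonneg_right h3 hrr.le
            _ = _ := by ring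
        rw [mul_comm κ0] at h9
        exact le_of_mul_le_mul_left h9 hC0'
      calc ‖z‖ = ‖y + (z - y)‖ := by rw [add_sub_cancel]
        _ ≤ ‖y‖ + ‖z - y‖ := norm_add_le _ _
        _ ≤ r + (r' - r) := add_le_add hyr (hzy.trans h7)
        _ = r' := by ring
    · -- `k ≤ lv z + m`
      have h7 : (2 : ℝ) ^ k ≤ 2 ^ (lv J κ q z + m) := by
        calc (2 : ℝ) ^ k ≤ 2 * (C0 * Lm J κ q y) := h2
          _ ≤ 2 * (C0 * (C1 * Lm J κ q z)) := by gcongr
          _ = 2 * (C0 * C1) * Lm J κ q z := by ring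
          _ ≤ 2 ^ m * 2 ^ lv J κ q z :=
              mul_le_mul hm.le (Lm_le_lv hκp z) (hLp z).le (by positivity)
          _ = _ := by rw [← pow_add, add_comm]
      exact (pow_le_pow_iff_right₀ one_lt_two).1 h7
    · have h7 : (2 : ℝ) ^ lv J κ q z ≤ 2 ^ (k + m) := by
        calc (2 : ℝ) ^ lv J κ q z ≤ 2 * Lm J κ q z := (lv_lt_Lm hκ1 z).le
          _ ≤ 2 * (C1 * (C0 * 2 ^ k)) := by
              refine mul_le_mul_of_nonneg_left (h5.trans ?_) zero_le_two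
              exact mul_le_mul_of_nonneg_left h3 hC1'.le
          _ = 2 * (C0 * C1) * 2 ^ k := by ring
          _ ≤ 2 ^ m * 2 ^ k := mul_le_mul_of_nonneg_right hm.le hk0.le
          _ = _ := by rw [← pow_add, add_comm]
      exact (pow_le_pow_iff_right₀ one_lt_two).1 h7
  · exact uu_sum_fin _ f a q (fun k _ => (hf1 k).intR) hq.sm.continuous hf3 x

end Pool.Agent.GNP
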