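import Pool.Agent.GNP.ONE2
import Pool.Agent.GNP.LEVR

/-!
All levels, for fixed `s`.
-/

namespace Pool.Agent.GNP

open MeasureTheory Set Metric Pool.Agent.MP_6cbfb8_an
open scoped ENNReal Real RealInnerProductSpace ContDiff

theorem continuous_uu_x {d : ℕ} {f : E d → ℂ} {q : E d → ℝ} (hf : Integrable f)
    (hq : Measurable q) : Continuous (uu f q) := by
  unfold uu
  refine continuous_of_dominated (bound := fun y => ‖f y‖) (fun x => ?_) (fun x => ?_) hf.norm ?_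
  · exact hf.aestronglyMeasurable.mul (Complex.measurable_exp.comp
      ((Complex.measurable_ofReal.comp (hq.sub
        (measurable_const.inner measurable_id))).mul measurable_const)).aestronglyMeasurable
  · refine Filter.Eventually.of_forall fun y => ?_
    rw [norm_mul, Complex.norm_exp_ofReal_mul_I, mul_one]
  · refine Filter.Eventually.of_forall fun y => ?_
    fun_prop

/-- (a) The high derivatives of the phases `c Φ - s h`. -/
theorem high_ph {d J : ℕ} {A : ℕ → ℝ} {κ C1 : ℝ}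
    {Φ h : E d → ℝ} (hΦ : Sm d A Φ) (hh : Sm d A h) {c s : ℝ} (h3 : 1 + |c| ≤ κ ^ (J + 1))
    (hs : |s| ≤ C1 * (1 + |c|)) :
    High d J (fun j => (1 + |C1|) * |A j|) κ (ph Φ h c s) := by
  have hc : 1 ≤ 1 + |c| := by linarith [abs_nonneg c]
  refine ⟨(contDiff_const.mul hΦ.sm).sub (contDiff_const.mul hh.sm), fun j _ y => ?_⟩
  refine (ph_bound hΦ.sm hh.sm c s j y).trans ?_
  have h1 : ‖iteratedFDeriv ℝ j Φ y‖ ≤ |A j| := (hΦ.bd j y).trans (le_abs_self _)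
  have h2 : ‖iteratedFDeriv ℝ j h y‖ ≤ |A j| := (hh.bd j y).trans (le_abs_self _)
  have h4 : |s| ≤ |C1| * (1 + |c|) := hs.trans (by gcongr; exact le_abs_self _)
  calc |c| * ‖iteratedFDeriv ℝ j Φ y‖ + |s| * ‖iteratedFDeriv ℝ j h y‖
      ≤ (1 + |c|) * |A j| + (|C1| * (1 + |c|)) * |A j| := by
        gcongr
        linarith
    _ = (1 + |C1|) * |A j| * (1 + |c|) := by ring
    _ ≤ (1 + |C1|) * |A j| * κ ^ (J + 1) := by gcongr

/-- (b) The size of the stopping scale. -/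
theorem Lm_ph_le {d J : ℕ} {A : ℕ → ℝ} {ε κ C1 : ℝ} {Φ h : E d → ℝ} (hΦ : Sm d A Φ)
    (hh : Sm d A h) {c s : ℝ} (h0 : κ ≤ (1 + |c|) ^ (max 1 ε)) (hs : |s| ≤ C1 * (1 + |c|))
    (y : E d) :
    Lm J κ (ph Φ h c s) y ≤
      (1 + ∑ j ∈ Finset.Icc 3 J, max 1 ((1 + |C1|) * |A j|)) * (1 + |c|) ^ (max 1 ε) := by
  have hc : 1 ≤ 1 + |c| := by linarith [abs_nonneg c]
  have hX : 1 + |c| ≤ (1 + |c|) ^ (max 1 ε) := by
    calc 1 + |c| = (1 + |c|) ^ (1:ℝ) := (Real.rpow_one _).symm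
      _ ≤ _ := Real.rpow_le_rpow_of_exponent_le hc (le_max_left _ _)
  unfold Lm
  rw [add_mul, one_mul, Finset.sum_mul]
  refine add_le_add h0 (Finset.sum_le_sum fun j hj => ?_)
  have hj3 : 3 ≤ j := (Finset.mem_Icc.1 hj).1
  have h1 : ‖iteratedFDeriv ℝ j Φ y‖ ≤ |A j| := (hΦ.bd j y).trans (le_abs_self _)
  have h2 : ‖iteratedFDeriv ℝ j h y‖ ≤ |A j| := (hh.bd j y).trans (le_abs_self _)
  have h4 : |s| ≤ |C1| * (1 + |c|) := hs.trans (by gcongr; exact le_abs_self _)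
  have h5 : ‖iteratedFDeriv ℝ j (ph Φ h c s) y‖ ≤
      max 1 ((1 + |C1|) * |A j|) * (1 + |c|) ^ (max 1 ε) := by
    refine (ph_bound hΦ.sm hh.sm c s j y).trans ?_
    calc |c| * ‖iteratedFDeriv ℝ j Φ y‖ + |s| * ‖iteratedFDeriv ℝ j h y‖
        ≤ (1 + |c|) * |A j| + (|C1| * (1 + |c|)) * |A j| := by
          gcongr
          linarith
      _ = (1 + |C1|) * |A j| * (1 + |c|) := by ring
      _ ≤ max 1 ((1 + |C1|) * |A j|) * (1 + |c|) ^ (max 1 ε) := by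
          gcongr
          exact le_max_right _ _
  have h6 : 1 ≤ max 1 ((1 + |C1|) * |A j|) * (1 + |c|) ^ (max 1 ε) :=
    one_le_mul_of_one_le_of_one_le (le_max_left _ _) (hc.trans hX)
  calc ‖iteratedFDeriv ℝ j (ph Φ h c s) y‖ ^ ((j : ℝ)⁻¹)
      ≤ (max 1 ((1 + |C1|) * |A j|) * (1 + |c|) ^ (max 1 ε)) ^ ((j : ℝ)⁻¹) :=
        Real.rpow_le_rpow (norm_nonneg _) h5 (by positivity)
    _ ≤ (max 1 ((1 + |C1|) * |A j|) * (1 + |c|) ^ (max 1 ε)) ^ (1:ℝ) := by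
        refine Real.rpow_le_rpow_of_exponent_le h6 (inv_le_one_of_one_le₀ ?_)
        exact_mod_cast (by lia : 1 ≤ j)
    _ = _ := Real.rpow_one _

/-- The number of levels. -/
theorem num_lev (C ε : ℝ) (hε : 0 < ε) : ∃ K : ℝ, 0 < K ∧ ∀ (X : ℝ) (n : ℕ), 1 ≤ X →
    (2 : ℝ) ^ n ≤ C * X → (n : ℝ) ≤ K * X ^ ε := by
  refine ⟨2 * (max C 1) ^ ε / ε, by positivity, ?_⟩
  intro L n hL hn
  have hC1 : 1 ≤ max C 1 := le_max_right _ _
  have h0 : 0 < max C 1 * L := by positivity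
  have h1 : (2 : ℝ) ^ n ≤ max C 1 * L :=
    hn.trans (mul_le_mul_of_nonneg_right (le_max_left _ _) (by linarith))
  have h2 : (n : ℝ) * Real.log 2 ≤ Real.log (max C 1 * L) := by
    rw [← Real.log_pow]
    exact Real.log_le_log (by positivity) h1
  have h3 : Real.log (max C 1 * L) ≤ (max C 1 * L) ^ ε / ε := Real.log_le_rpow_div h0.le hε
  have h4 : (1 : ℝ) / 2 ≤ Real.log 2 := by
    have := Real.log_two_gt_d9
    linarith
  have h5 : (n : ℝ) / 2 ≤ (max C 1 * L) ^ ε / ε := by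
    calc (n : ℝ) / 2 = n * (1 / 2) := by ring
      _ ≤ n * Real.log 2 := by gcongr
      _ ≤ _ := h2.trans h3
  rw [Real.mul_rpow (by positivity) (by linarith)] at h5
  calc (n : ℝ) = 2 * (n / 2) := by ring
    _ ≤ 2 * ((max C 1) ^ ε * L ^ ε / ε) := by gcongr
    _ = 2 * (max C 1) ^ ε / ε * L ^ ε := by ring

/-- FS, for amplitudes which are smooth at the scale `1/κ` only. -/
theorem fixed_sR_of (d J : ℕ) (A : ℕ → ℝ) (r r' b p ε C1 : ℝ) (hr : 0 < r) (hr' : r < r')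
    (hb : 0 < b) (hp : 2 < p) (hε : 0 < ε)
    (hloc : ∀ A' : ℕ → ℝ, LOCS d A' (d + 1) (p - 2)) : ∃ (m : ℕ) (κ1 K : ℝ), 1 ≤ κ1 ∧ 0 < K ∧
    ∀ (Φ h : E d → ℝ) (a : E d → ℂ) (c s κ : ℝ), Sm d A Φ → Sm d A h →
      AmpR d A r κ a → Df d b r' h → κ1 ≤ κ → 1 + |c| ≤ κ ^ (J + 1) →
      κ ≤ (1 + |c|) ^ (max 1 ε) → |s| ≤ C1 * (1 + |c|) →
      ∫⁻ x, ‖uu a (ph Φ h c s) x‖ₑ ^ p ≤ ENNReal.ofReal (K * (1 + |c|) ^ ε) *
        ∑ k ∈ Finset.range ⌈K * (1 + |c|) ^ ε⌉₊,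
          ∫⁻ y in Fl J κ (ph Φ h c s) r' m k,
            ENNReal.ofReal (Vv Φ h c s (2 ^ k) y ^ (p - 2)) := by
  classical
  have hr0 : 0 < r' := hr.trans hr'
  obtain ⟨A', m, κ1, hκ1, hlev⟩ := levelsR d J (fun j => (1 + |C1|) * |A j|) 1 one_pos r r' hr hr'
  set e1 : ℝ := max 1 ε with he1
  have he1' : 1 ≤ e1 := le_max_left _ _
  set C : ℝ := 1 + ∑ j ∈ Finset.Icc 3 J, max 1 ((1 + |C1|) * |A j|) with hC
  have hC1 : 1 ≤ C := by
    have : 0 ≤ ∑ j ∈ Finset.Icc 3 J, max 1 ((1 + |C1|) * |A j|) :=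
      Finset.sum_nonneg fun j _ => le_trans zero_le_one (le_max_left _ _)
    linarith
  obtain ⟨K2, hK2, hone⟩ := one2_of d A A' r' b p (ε / (2 * e1)) hr0 hb hp (by positivity)
    hloc
  obtain ⟨K3, hK3, hnum⟩ := num_lev (2 * C) (ε / (2 * p * e1)) (by positivity)
  set C4 : ℝ := 1 + |C1| + 2 ^ m * (2 * C) with hC4
  have hC40 : 0 < C4 := by positivity
  set K4 : ℝ := (K3 + (m + 1)) ^ (p - 1) * (K2 * C4 ^ (ε / (2 * e1))) with hK4
  have hK40 : 0 < K4 := by positivity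
  refine ⟨m, κ1, K4 + (K3 + (m + 1)), hκ1, by positivity, ?_⟩
  intro Φ h a c s κ hΦ hh ha hdf hκ hκJ hκe hs
  have hc1 : 1 ≤ 1 + |c| := by linarith [abs_nonneg c]
  set X : ℝ := (1 + |c|) ^ e1 with hX
  have hX1 : 1 + |c| ≤ X := by
    calc 1 + |c| = (1 + |c|) ^ (1:ℝ) := (Real.rpow_one _).symm
      _ ≤ _ := Real.rpow_le_rpow_of_exponent_le hc1 he1'
  have hX0 : 1 ≤ X := hc1.trans hX1
  set q : E d → ℝ := ph Φ h c s with hq
  have hκ0 : 1 ≤ κ := hκ1.trans hκ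
  have hhigh := high_ph hΦ hh hκJ hs
  -- the amplitude
  have ha' : AmpR d (fun j => (1 + |C1|) * |A j|) r κ a := by
    refine ha.monoR (by linarith) fun j => (le_abs_self _).trans ?_
    exact le_mul_of_one_le_left (abs_nonneg _) (by linarith [abs_nonneg C1])
  -- the number of levels
  set n : ℕ := ⌈Real.logb 2 (C * X)⌉₊ with hn
  have hCX : 1 ≤ C * X := one_le_mul_of_one_le_of_one_le hC1 hX0
  have hLm0 : ∀ y, 1 ≤ Lm J κ q y := fun y => hκ0.trans (Lm_ge J κ q y)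
  have hlvn : ∀ y, lv J κ q y ≤ n := by
    intro y
    refine Nat.ceil_mono ?_
    refine Real.logb_le_logb_of_le (by norm_num) (by linarith [hLm0 y]) ?_
    exact Lm_ph_le hΦ hh hκe hs y
  have h2n : (2:ℝ) ^ n ≤ 2 * C * X := by
    have h1 : (n : ℝ) < Real.logb 2 (C * X) + 1 :=
      Nat.ceil_lt_add_one (Real.logb_nonneg (by norm_num) hCX)
    calc (2:ℝ) ^ n = (2:ℝ) ^ (n:ℝ) := (Real.rpow_natCast _ _).symm
      _ ≤ (2:ℝ) ^ (Real.logb 2 (C * X) + 1) :=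
          Real.rpow_le_rpow_of_exponent_le (by norm_num) h1.le
      _ = 2 * C * X := by
          rw [Real.rpow_add (by norm_num), Real.rpow_logb (by norm_num) (by norm_num)
            (by linarith), Real.rpow_one]
          ring
  obtain ⟨g, hg, -, hsum⟩ := hlev a q κ n hκ ha' hhigh hlvn
  have hqc : ContDiff ℝ ∞ q := hhigh.sm
  -- the sum over the levels
  have hcard : ((Finset.range (n + m + 1)).card : ℝ) ≤ (K3 + (m + 1)) * X ^ (ε / (2 * p * e1)) := by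
    rw [Finset.card_range]
    have h1 := hnum X n hX0 (h2n.trans (le_of_eq (by ring)))
    have h2 : (1:ℝ) ≤ X ^ (ε / (2 * p * e1)) := Real.one_le_rpow hX0 (by positivity)
    have h3 : ((m:ℝ) + 1) ≤ (m + 1) * X ^ (ε / (2 * p * e1)) :=
      le_mul_of_one_le_right (by positivity) h2
    push_cast
    linarith
  have hXe : X ^ (ε / (2 * p * e1)) = (1 + |c|) ^ (ε / (2 * p)) := by
    rw [hX, ← Real.rpow_mul (by linarith)]
    congr 1
    field_simp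
  have hXe2 : X ^ (ε / (2 * e1)) = (1 + |c|) ^ (ε / 2) := by
    rw [hX, ← Real.rpow_mul (by linarith)]
    congr 1
    field_simp
  have hterm : ∀ k ∈ Finset.range (n + m + 1), ∫⁻ x, ‖uu (g k) q x‖ₑ ^ p ≤
      ENNReal.ofReal (K2 * (C4 * X) ^ (ε / (2 * e1))) *
        ∫⁻ y in Fl J κ q r' m k, ENNReal.ofReal (Vv Φ h c s (2 ^ k) y ^ (p - 2)) := by
    intro k hk
    have hkn : k ≤ n + m := Nat.lt_succ_iff.1 (Finset.mem_range.1 hk)
    obtain ⟨hg1, hg2, hg3⟩ := hg k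
    refine hone Φ h (g k) c s r (2 ^ k) (C4 * X) (Fl J κ q r' m k) hΦ hh hdf
      (one_le_pow₀ (by norm_num)) ?_ hg1 (measurableSet_Fl d J _ q hqc r' m k)
      (fun y hy => hy.1) hg3 (fun y hy j hj => hg2.bd y hy j hj)
    have h1 : (2:ℝ) ^ k ≤ 2 ^ m * (2 * C * X) := by
      calc (2:ℝ) ^ k ≤ 2 ^ (n + m) := pow_le_pow_right₀ (by norm_num) hkn
        _ = 2 ^ m * 2 ^ n := by rw [pow_add]; ring
        _ ≤ _ := by gcongr
    have h2 : |s| ≤ |C1| * X := by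
      refine hs.trans ?_
      calc C1 * (1 + |c|) ≤ |C1| * (1 + |c|) := by gcongr; exact le_abs_self _
        _ ≤ |C1| * X := by gcongr
    rw [hC4]
    calc 1 + |c| + |s| + 2 ^ k ≤ X + |C1| * X + 2 ^ m * (2 * C * X) := by linarith
      _ = _ := by ring
  have hconst : ((K3 + (m + 1)) * X ^ (ε / (2 * p * e1))) ^ (p - 1) *
      (K2 * (C4 * X) ^ (ε / (2 * e1))) ≤ (K4 + (K3 + (m + 1))) * (1 + |c|) ^ ε := by
    rw [hXe, Real.mul_rpow (by positivity) (by positivity),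
      Real.mul_rpow (by positivity) (by positivity), hXe2, ← Real.rpow_mul (by linarith)]
    have h2 : (1 + |c|) ^ (ε / (2 * p) * (p - 1)) ≤ (1 + |c|) ^ (ε / 2) := by
      refine Real.rpow_le_rpow_of_exponent_le hc1 ?_
      rw [div_mul_eq_mul_div, div_le_div_iff₀ (by positivity) (by norm_num)]
      nlinarith
    have h3 : (1 + |c|) ^ (ε / 2) * (1 + |c|) ^ (ε / 2) = (1 + |c|) ^ ε := by
      rw [← Real.rpow_add (by linarith)]
      congr 1
      ring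
    calc (K3 + (m + 1)) ^ (p - 1) * (1 + |c|) ^ (ε / (2 * p) * (p - 1)) *
          (K2 * (C4 ^ (ε / (2 * e1)) * (1 + |c|) ^ (ε / 2)))
        ≤ (K3 + (m + 1)) ^ (p - 1) * (1 + |c|) ^ (ε / 2) *
          (K2 * (C4 ^ (ε / (2 * e1)) * (1 + |c|) ^ (ε / 2))) := by gcongr
      _ = K4 * ((1 + |c|) ^ (ε / 2) * (1 + |c|) ^ (ε / 2)) := by
          rw [hK4]
          ring
      _ = K4 * (1 + |c|) ^ ε := by rw [h3]
      _ ≤ _ := by
          gcongr
          have : 0 ≤ K3 + (m + 1) := by positivity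
          linarith
  have hrange : n + m + 1 ≤ ⌈(K4 + (K3 + (m + 1))) * (1 + |c|) ^ ε⌉₊ := by
    have h4 : ((n + m + 1 : ℕ) : ℝ) ≤ (K4 + (K3 + (m + 1))) * (1 + |c|) ^ ε := by
      rw [Finset.card_range, hXe] at hcard
      refine hcard.trans ?_
      have h5 : (1 + |c|) ^ (ε / (2 * p)) ≤ (1 + |c|) ^ ε := by
        refine Real.rpow_le_rpow_of_exponent_le hc1 ?_
        rw [div_le_iff₀ (by positivity)]
        nlinarith
      have h6 : K3 + (m + 1) ≤ K4 + (K3 + (m + 1)) := by linarith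
      gcongr
    exact Nat.cast_le.1 (h4.trans (Nat.le_ceil _))
  calc ∫⁻ x, ‖uu a q x‖ₑ ^ p = ∫⁻ x, ‖∑ k ∈ Finset.range (n + m + 1), uu (g k) q x‖ₑ ^ p := by
        refine lintegral_congr fun x => ?_
        rw [hsum x]
    _ ≤ ((Finset.range (n + m + 1)).card : ℝ≥0∞) ^ (p - 1) *
          ∑ k ∈ Finset.range (n + m + 1), ∫⁻ x, ‖uu (g k) q x‖ₑ ^ p := by
        refine lint_sum_fin volume _ _ p (by linarith) fun k _ => ?_
        exact (continuous_uu_x (hg k).1.intR hqc.continuous.measurable).aemeasurable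
    _ ≤ ENNReal.ofReal (((K3 + (m + 1)) * X ^ (ε / (2 * p * e1))) ^ (p - 1)) *
          ∑ k ∈ Finset.range (n + m + 1), ENNReal.ofReal (K2 * (C4 * X) ^ (ε / (2 * e1))) *
            ∫⁻ y in Fl J κ q r' m k,
              ENNReal.ofReal (Vv Φ h c s (2 ^ k) y ^ (p - 2)) := by
        gcongr with k hk
        · rw [← ENNReal.ofReal_rpow_of_nonneg (by positivity) (by linarith)]
          refine ENNReal.rpow_le_rpow ?_ (by linarith)
          rw [← ENNReal.ofReal_natCast]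
          exact ENNReal.ofReal_le_ofReal hcard
        · exact hterm k hk
    _ = ENNReal.ofReal (((K3 + (m + 1)) * X ^ (ε / (2 * p * e1))) ^ (p - 1) *
          (K2 * (C4 * X) ^ (ε / (2 * e1)))) *
          ∑ k ∈ Finset.range (n + m + 1),
            ∫⁻ y in Fl J κ q r' m k,
              ENNReal.ofReal (Vv Φ h c s (2 ^ k) y ^ (p - 2)) := by
        rw [← Finset.mul_sum, ← mul_assoc, ← ENNReal.ofReal_mul (by positivity)]
    _ ≤ _ := mul_le_mul' (ENNReal.ofReal_le_ofReal hconst)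
        (Finset.sum_le_sum_of_subset (Finset.range_subset_range.2 hrange))

/-- FS. -/
theorem fixed_s_of (d J : ℕ) (_hd : 1 ≤ d) (A : ℕ → ℝ) (r r' b p ε C1 : ℝ) (hr : 0 < r)
    (hr' : r < r') (hb : 0 < b) (hp : 2 < p) (hε : 0 < ε) (hJ : 1 ≤ ((J : ℝ) + 1) * ε)
    (hloc : ∀ A' : ℕ → ℝ, LOCS d A' (d + 1) (p - 2)) : ∃ (m : ℕ) (K : ℝ), 0 < K ∧
    ∀ (Φ h : E d → ℝ) (a : E d → ℂ), Sm d A Φ → Sm d A h →
      Amp d A r a → Df d b r' h → ∀ c s : ℝ, K ≤ |c| → |s| ≤ C1 * (1 + |c|) →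
      ∫⁻ x, ‖uu a (ph Φ h c s) x‖ₑ ^ p ≤ ENNReal.ofReal (K * (1 + |c|) ^ ε) *
        ∑ k ∈ Finset.range ⌈K * (1 + |c|) ^ ε⌉₊,
          ∫⁻ y in Fl J ((1 + |c|) ^ ε) (ph Φ h c s) r' m k,
            ENNReal.ofReal (Vv Φ h c s (2 ^ k) y ^ (p - 2)) := by
  obtain ⟨m, κ1, K, hκ1, hK, hfs⟩ := fixed_sR_of d J A r r' b p ε C1 hr hr' hb hp hε hloc
  have hκp : 0 < κ1 ^ (ε⁻¹) := by positivity
  refine ⟨m, K + κ1 ^ (ε⁻¹), by positivity, ?_⟩
  intro Φ h a hΦ hh ha hdf c s hc hs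
  have hc1 : 1 ≤ 1 + |c| := by linarith [abs_nonneg c]
  have hκ : κ1 ≤ (1 + |c|) ^ ε := by
    have h1 : κ1 ^ (ε⁻¹) ≤ 1 + |c| := by linarith
    calc κ1 = (κ1 ^ (ε⁻¹)) ^ ε := by
          rw [← Real.rpow_mul (by linarith), inv_mul_cancel₀ hε.ne', Real.rpow_one]
      _ ≤ _ := Real.rpow_le_rpow hκp.le h1 hε.le
  have h3 : 1 + |c| ≤ ((1 + |c|) ^ ε) ^ (J + 1) := by
    rw [← Real.rpow_natCast, ← Real.rpow_mul (by linarith)]
    calc 1 + |c| = (1 + |c|) ^ (1:ℝ) := (Real.rpow_one _).symm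
      _ ≤ _ := by
        refine Real.rpow_le_rpow_of_exponent_le hc1 ?_
        push_cast
        linarith
  have h0 : (1 + |c|) ^ ε ≤ (1 + |c|) ^ (max 1 ε) :=
    Real.rpow_le_rpow_of_exponent_le hc1 (le_max_right _ _)
  have hKle : K * (1 + |c|) ^ ε ≤ (K + κ1 ^ (ε⁻¹)) * (1 + |c|) ^ ε := by
    gcongr
    linarith
  refine (hfs Φ h a c s ((1 + |c|) ^ ε) hΦ hh (ha.ampR (hκ1.trans hκ)) hdf hκ h3 h0 hs).trans ?_
  exact mul_le_mul' (ENNReal.ofReal_le_ofReal hKle)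
    (Finset.sum_le_sum_of_subset (Finset.range_subset_range.2 (Nat.ceil_mono hKle)))

end Pool.Agent.GNP
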