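import Pool.Agent.GNP.Defs5
import Pool.Agent.GNP.P0

/-! ## MULS: the multiplicity passes to the slices -/

namespace Pool.Agent.GNP

open MeasureTheory Set Pool.Agent.MP_6cbfb8_an
open scoped ENNReal Real RealInnerProductSpace ContDiff

theorem muls_last {m : ℕ} (x : E m) (t : ℝ) : (join x t : E (m + 1)) (Fin.last m) = t := by
  simp only [join, Fin.snoc_last]

theorem muls_cast {m : ℕ} (x : E m) (t : ℝ) (i : Fin m) :
    (join x t : E (m + 1)) i.castSucc = x i := by
  simp only [join, Fin.snoc_castSucc]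

theorem muls_ext {m : ℕ} {x y : E (m + 1)} (h : ∀ i : Fin m, x i.castSucc = y i.castSucc)
    (hl : x (Fin.last m) = y (Fin.last m)) : x = y := by
  ext i
  exact Fin.lastCases hl h i

/-- The map `(x, t) ↦ U (x, t)`. -/
noncomputable def mulsJ {m : ℕ} (U : E (m + 1) ≃ₗᵢ[ℝ] E (m + 1)) : E m × ℝ →L[ℝ] E (m + 1) :=
  LinearMap.toContinuousLinearMap
    { toFun := fun x => U (join x.1 x.2)
      map_add' := fun x y => by
        rw [← map_add]
        congr 1
        refine muls_ext (fun i => ?_) ?_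
        · simp only [PiLp.add_apply, muls_cast, Prod.fst_add]
        · simp only [PiLp.add_apply, muls_last, Prod.snd_add]
      map_smul' := fun c x => by
        rw [RingHom.id_apply, ← map_smul]
        congr 1
        refine muls_ext (fun i => ?_) ?_
        · simp only [PiLp.smul_apply, muls_cast, Prod.smul_fst]
        · simp only [PiLp.smul_apply, muls_last, Prod.smul_snd] }

theorem mulsJ_apply {m : ℕ} (U : E (m + 1) ≃ₗᵢ[ℝ] E (m + 1)) (x : E m) (t : ℝ) :
    mulsJ U (x, t) = U (join x t) := rfl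

theorem muls_inner {m : ℕ} (U : E (m + 1) ≃ₗᵢ[ℝ] E (m + 1)) (x y : E m) (s t : ℝ) :
    ⟪U (join x s), U (join y t)⟫ = ⟪x, y⟫ + s * t := by
  rw [LinearIsometryEquiv.inner_map_map, PiLp.inner_apply, PiLp.inner_apply,
    Fin.sum_univ_castSucc]
  simp only [muls_cast, muls_last]
  congr 1
  simp only [RCLike.inner_apply, conj_trivial]
  ring

theorem muls_inj {m : ℕ} (U : E (m + 1) ≃ₗᵢ[ℝ] E (m + 1)) {x y : E m} {s t : ℝ}
    (h : U (join x s) = U (join y t)) : x = y ∧ s = t := by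
  have h1 := U.injective h
  refine ⟨?_, ?_⟩
  · ext i
    have h2 := congrArg (fun z : E (m + 1) => z i.castSucc) h1
    simpa only [muls_cast] using h2
  · have h2 := congrArg (fun z : E (m + 1) => z (Fin.last m)) h1
    simpa only [muls_last] using h2

/-- The derivative of the parametrisation `u ↦ U (u, η u)`. -/
theorem muls_deriv {m : ℕ} (U : E (m + 1) ≃ₗᵢ[ℝ] E (m + 1)) {η : E m → ℝ} (hη : ContDiff ℝ ∞ η)
    (v : E m) : HasFDerivAt (fun u => U (join u (η u)))
      ((mulsJ U).comp ((ContinuousLinearMap.id ℝ (E m)).prod (fderiv ℝ η v))) v :=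
  (mulsJ U).hasFDerivAt.comp v ((hasFDerivAt_id v).prodMk
    ((hη.differentiable (by simp)) v).hasFDerivAt)

/-- The derivatives of the two identities of a reduction. -/
theorem muls_leg {m : ℕ} {A : ℕ → ℝ} {q : E (m + 1) → ℝ} {R r : ℝ}
    {U : E (m + 1) ≃ₗᵢ[ℝ] E (m + 1)} {t : ℝ} {v : E m} {η ψ : E m → ℝ}
    (hq : ContDiff ℝ ∞ q) (hr : 0 < r) (h : Leg A q R r U t v η ψ) :
    (∀ f : E m, ⟪Hs q (U (join v (η v))) (U (join f (fderiv ℝ η v f))), U (join 0 1)⟫ = 0) ∧
    ∀ f x : E m, ⟪Hs ψ v f, x⟫ =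
      ⟪Hs q (U (join v (η v))) (U (join f (fderiv ℝ η v f))), U (join x 0)⟫ := by
  have hY := muls_deriv U h.smη v
  have hG : HasFDerivAt (fun u => gr q (U (join u (η u))))
      ((Hs q (U (join v (η v)))).comp
        ((mulsJ U).comp ((ContinuousLinearMap.id ℝ (E m)).prod (fderiv ℝ η v)))) v :=
    HasFDerivAt.comp (g := gr q) (f := fun u => U (join u (η u))) v
      (hasFDerivAt_gr hq (U (join v (η v)))) hY
  have hnear : ∀ᶠ u in nhds v, ‖u - v‖ ≤ r := by
    filter_upwards [Metric.ball_mem_nhds v hr] with u hu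
    rw [Metric.mem_ball, dist_eq_norm] at hu
    exact hu.le
  have hin : ∀ w : E (m + 1), HasFDerivAt (fun u => ⟪gr q (U (join u (η u))), w⟫)
      ((innerSL ℝ w).comp ((Hs q (U (join v (η v)))).comp
        ((mulsJ U).comp ((ContinuousLinearMap.id ℝ (E m)).prod (fderiv ℝ η v))))) v := by
    intro w
    have h1 := (innerSL ℝ w).hasFDerivAt.comp v hG
    refine h1.congr_of_eventuallyEq (Filter.Eventually.of_forall fun u => ?_)
    simp only [Function.comp_apply, innerSL_apply_apply]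
    exact real_inner_comm _ _
  refine ⟨fun f => ?_, fun f x => ?_⟩
  · have h1 : HasFDerivAt (fun u => ⟪gr q (U (join u (η u))), U (join 0 1)⟫) (0 : E m →L[ℝ] ℝ) v :=
      (hasFDerivAt_const t v).congr_of_eventuallyEq
        (hnear.mono fun u hu => h.crit u hu)
    have h2 := congrArg (fun L : E m →L[ℝ] ℝ => L f) ((hin (U (join 0 1))).unique h1)
    simp only [ContinuousLinearMap.comp_apply, innerSL_apply_apply, ContinuousLinearMap.prod_apply,
      ContinuousLinearMap.id_apply, mulsJ_apply, zero_apply] at h2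
    rw [real_inner_comm]
    exact h2
  · have h1 : HasFDerivAt (fun u => ⟪gr ψ u, x⟫) ((innerSL ℝ x).comp (Hs ψ v)) v := by
      refine ((innerSL ℝ x).hasFDerivAt.comp v (hasFDerivAt_gr h.smψ v)).congr_of_eventuallyEq
        (Filter.Eventually.of_forall fun u => ?_)
      simp only [Function.comp_apply, innerSL_apply_apply]
      exact real_inner_comm _ _
    have h3 := (hin (U (join x 0))).congr_of_eventuallyEq (hnear.mono fun u hu => h.grad u hu x)
    have h2 := congrArg (fun L : E m →L[ℝ] ℝ => L f) (h1.unique h3)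
    simp only [ContinuousLinearMap.comp_apply, innerSL_apply_apply, ContinuousLinearMap.prod_apply,
      ContinuousLinearMap.id_apply, mulsJ_apply] at h2
    rw [real_inner_comm, h2, real_inner_comm]

theorem muls_split {m : ℕ} (U : E (m + 1) ≃ₗᵢ[ℝ] E (m + 1)) (x : E m) (s t : ℝ) :
    U (join x (s + t)) = U (join x s) + t • U (join 0 1) := by
  have h1 : (join x (s + t) : E (m + 1)) = join x s + t • join 0 1 := by
    refine muls_ext (fun i => ?_) ?_
    · simp only [PiLp.add_apply, PiLp.smul_apply, muls_cast, PiLp.zero_apply, smul_zero, add_zero]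
    · simp only [PiLp.add_apply, PiLp.smul_apply, muls_last, smul_eq_mul, mul_one]
  rw [h1, map_add, map_smul]

/-- Nondegeneracy passes to the reduced phase and back. -/
theorem muls_nd {m : ℕ} {A : ℕ → ℝ} {q : E (m + 1) → ℝ} {R r : ℝ}
    {U : E (m + 1) ≃ₗᵢ[ℝ] E (m + 1)} {t : ℝ} {v : E m} {η ψ : E m → ℝ}
    (hq : ContDiff ℝ ∞ q) (hR : 0 < R) (hr : 0 < r) (h : Leg A q R r U t v η ψ)
    (F : Submodule ℝ (E m))
    (hF : ∀ f ∈ F, (∀ g ∈ F, ⟪Hs ψ v f, g⟫ = 0) → f = 0) (f : E m) (hf : f ∈ F) (s : ℝ)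
    (h0 : ∀ g ∈ F, ∀ s' : ℝ,
      ⟪Hs q (U (join v (η v))) (U (join f s)), U (join g s')⟫ = 0) : f = 0 ∧ s = 0 := by
  obtain ⟨h1, h2⟩ := muls_leg hq hr h
  have hp : ⟪Hs q (U (join v (η v))) (U (join 0 1)), U (join 0 1)⟫ ≠ 0 := by
    intro h3
    have h4 := h.piv v (by simpa using hr.le)
    rw [h3] at h4
    simp at h4
    linarith
  have hs : s = fderiv ℝ η v f := by
    have h3 := h0 0 F.zero_mem 1
    have h4 : U (join f s) = U (join f (fderiv ℝ η v f)) +
        (s - fderiv ℝ η v f) • U (join 0 1) := by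
      rw [← muls_split, add_sub_cancel]
    rw [h4, map_add, map_smul, inner_add_left, h1 f, inner_smul_left, zero_add] at h3
    simp only [conj_trivial, mul_eq_zero] at h3
    rcases h3 with h3 | h3
    · linarith
    · exact absurd h3 hp
  have hf0 : f = 0 := by
    refine hF f hf fun g hg => ?_
    rw [h2 f g, ← hs]
    exact h0 g hg 0
  refine ⟨hf0, ?_⟩
  rw [hs, hf0, map_zero]

theorem mult_slice (m : ℕ) {ι : Type} (A : ℕ → ℝ) (U : E (m + 1) ≃ₗᵢ[ℝ] E (m + 1))
    (t R ρ ρ' : ℝ) (M : ℕ) (z : ι → E (m + 1)) (q : ι → E (m + 1) → ℝ) (v0 : ι → E m)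
    (η ψ : ι → E m → ℝ) (hR : 0 < R) (hq : ∀ i, ContDiff ℝ ∞ (q i)) (hM : Mult M ρ z q)
    (h : ∀ i v, ‖v - v0 i‖ < ρ' → ‖U (join v (η i v)) - z i‖ < ρ ∧
      ∃ r, 0 < r ∧ Leg A (q i) R r U t v (η i) (ψ i)) :
    Mult M ρ' v0 ψ := by
  intro F y0 ξ
  set F' : Submodule ℝ (E (m + 1)) := (F.prod ⊤).map (mulsJ U).toLinearMap with hF'
  have hmem : ∀ g : E (m + 1), g ∈ F' ↔ ∃ f ∈ F, ∃ s : ℝ, U (join f s) = g := by
    intro g
    rw [hF', Submodule.mem_map]
    constructor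
    · rintro ⟨⟨f, s⟩, hfs, hg⟩
      exact ⟨f, (Submodule.mem_prod.1 hfs).1, s, hg⟩
    · rintro ⟨f, hf, s, hg⟩
      exact ⟨(f, s), Submodule.mem_prod.2 ⟨hf, Submodule.mem_top⟩, hg⟩
  have hinj : Function.Injective fun x : ι × E m => (x.1, U (join x.2 (η x.1 x.2))) := by
    rintro ⟨i, x⟩ ⟨j, y⟩ hxy
    simp only [Prod.mk.injEq] at hxy
    obtain ⟨h1, h2⟩ := hxy
    subst h1
    rw [Prod.mk.injEq]
    exact ⟨rfl, (muls_inj U h2).1⟩
  rw [← hinj.encard_image]
  refine (encard_le_encard ?_).trans (hM F' (U (join y0 0)) (U (join ξ t)))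
  rintro _ ⟨⟨i, v⟩, ⟨h1, h2, h3, h4⟩, rfl⟩
  simp only at h1 h2 h3 h4
  obtain ⟨h5, r, hr, hL⟩ := h i v h1
  refine ⟨h5, ?_, ?_, ?_⟩
  · refine (hmem _).2 ⟨v - y0, h2, η i v, ?_⟩
    have h6 := map_sub (mulsJ U) (v, η i v) (y0, 0)
    simp only [Prod.mk_sub_mk, sub_zero, mulsJ_apply] at h6
    exact h6
  · intro g hg
    obtain ⟨f, hf, s, rfl⟩ := (hmem g).1 hg
    have h6 : U (join f s) = U (join f 0) + s • U (join 0 1) := by
      rw [← muls_split, zero_add]
    have h7 := h3 f hf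
    have h8 := hL.crit v (by simpa using hr.le)
    have h9 := hL.grad v (by simpa using hr.le) f
    rw [inner_sub_left] at h7 ⊢
    rw [muls_inner, h6, inner_add_right, inner_smul_right, h8, ← h9]
    linarith
  · intro g hg h0
    obtain ⟨f, hf, s, rfl⟩ := (hmem g).1 hg
    have h6 := muls_nd (hq i) hR hr hL F h4 f hf s fun g' hg' s' =>
      h0 _ ((hmem _).2 ⟨g', hg', s', rfl⟩)
    rw [h6.1, h6.2]
    have h7 := map_zero (mulsJ U)
    exact h7

/-- Finite fibres. -/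
theorem muls_fib {α β : Type*} (g : α → β) (S : Set α) (M c : ℕ) (h1 : (g '' S).encard ≤ M)
    (h2 : ∀ b ∈ g '' S, {a ∈ S | g a = b}.encard ≤ c) : S.encard ≤ (M * c : ℕ) := by
  classical
  have hf1 : (g '' S).Finite := Set.finite_of_encard_le_coe h1
  have hfS : S.Finite := by
    have h3 : S = ⋃ b ∈ g '' S, {a ∈ S | g a = b} := by
      ext a
      simp only [mem_iUnion, mem_ofPred_eq, exists_prop]
      exact ⟨fun ha => ⟨g a, mem_image_of_mem g ha, ha, rfl⟩, fun ⟨_, _, ha, _⟩ => ha⟩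
    rw [h3]
    exact hf1.biUnion fun b hb => Set.finite_of_encard_le_coe (h2 b hb)
  obtain ⟨s, rfl⟩ := hfS.exists_finset_coe
  rw [Set.encard_coe_eq_coe_finsetCard]
  have h3 : (s.image g).card ≤ M := by
    rw [← Finset.coe_image, Set.encard_coe_eq_coe_finsetCard] at h1
    exact_mod_cast h1
  have h4 : ∀ b ∈ s.image g, (s.filter fun a => g a = b).card ≤ c := by
    intro b hb
    have h5 := h2 b (by rw [← Finset.coe_image]; exact hb)
    have h6 : {a | a ∈ (s : Set α) ∧ g a = b} = ((s.filter fun a => g a = b : Finset α) : Set α) := by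
      ext a
      simp
    rw [h6, Set.encard_coe_eq_coe_finsetCard] at h5
    exact_mod_cast h5
  have h5 := Finset.card_le_mul_card_image s c h4
  have h6 : s.card ≤ M * c := h5.trans (by rw [Nat.mul_comm]; exact Nat.mul_le_mul_right c h3)
  exact_mod_cast h6

theorem mult_sub (m : ℕ) {ι ι' : Type} (M c0 : ℕ) (ρ ρ' : ℝ) (z : ι → E m) (q : ι → E m → ℝ)
    (f : ι' → ι) (z' : ι' → E m) (hM : Mult M ρ z q)
    (h : ∀ j y, ‖y - z' j‖ < ρ' → ‖y - z (f j)‖ < ρ)
    (hc : ∀ i y, {j | f j = i ∧ ‖y - z' j‖ < ρ'}.encard ≤ c0) :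
    Mult (M * c0) ρ' z' (fun j => q (f j)) := by
  intro F y0 ξ
  refine muls_fib (fun x : ι' × E m => (f x.1, x.2)) _ M c0 ?_ ?_
  · refine (encard_le_encard ?_).trans (hM F y0 ξ)
    rintro _ ⟨⟨j, y⟩, ⟨h1, h2, h3, h4⟩, rfl⟩
    exact ⟨h j y h1, h2, h3, h4⟩
  · rintro ⟨i, y⟩ -
    have h1 : Function.Injective fun j : ι' => (j, y) := fun a b hab => (Prod.mk.inj hab).1
    refine (encard_le_encard ?_).trans ((h1.encard_image {j | f j = i ∧ ‖y - z' j‖ < ρ'}).le.trans
      (hc i y))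
    rintro ⟨j, y'⟩ ⟨h2, h3⟩
    simp only [Prod.mk.injEq] at h3
    obtain ⟨h4, rfl⟩ := h3
    exact ⟨j, ⟨h4, h2.1⟩, rfl⟩

end Pool.Agent.GNP
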