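import Pool.Agent.GNP.Defs5
import Pool.Agent.MP_6cbfb8_an.Sphere

/-!
PIV: finitely many directions which see every symmetric operator.
-/

namespace Pool.Agent.GNP

open MeasureTheory Set Pool.Agent.MP_6cbfb8_an
open scoped ENNReal Real RealInnerProductSpace ContDiff

lemma pv_norm_e (n : ℕ) : ‖join (0 : E n) 1‖ = 1 := by
  have h := norm_join_sq (0 : E n) 1
  have h2 : ‖join (0 : E n) 1‖ ^ 2 = 1 := by
    rw [h]; simp
  nlinarith [norm_nonneg (join (0 : E n) 1)]

lemma pv_exists_rot {n : ℕ} (x : E (n + 1)) (hx : ‖x‖ = 1) :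
    ∃ R : E (n + 1) ≃ₗᵢ[ℝ] E (n + 1), R (join 0 1) = x :=
  ⟨_, Submodule.reflection_sub ((pv_norm_e n).trans hx.symm)⟩

/-- the basis vector -/
noncomputable def pvb (n : ℕ) (i : Fin n) : E n := EuclideanSpace.single i (1 : ℝ)

lemma pv_norm_b (n : ℕ) (i : Fin n) : ‖pvb n i‖ = 1 := by simp [pvb]

lemma pv_sum_ne {n : ℕ} (i j : Fin n) : pvb n i + pvb n j ≠ 0 := by
  intro h
  have h1 := congrArg (fun v : E n => v i) h
  by_cases hij : i = j
  · subst hij
    simp [pvb] at h1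
  · simp [pvb, hij] at h1

lemma pv_op_norm {n : ℕ} (H : E n →L[ℝ] E n) (M : ℝ) (hM : 0 ≤ M)
    (h : ∀ i j, |⟪H (pvb n i), pvb n j⟫| ≤ M) : ‖H‖ ≤ n * n * M := by
  refine ContinuousLinearMap.opNorm_le_bound _ (by positivity) fun v => ?_
  have e1 : v = ∑ i, v i • pvb n i := by
    ext k
    simp [pvb, Finset.sum_apply, Pi.single_apply]
  have e2 : ∀ u : E n, ‖u‖ ≤ ∑ j, |⟪u, pvb n j⟫| := by
    intro u
    have e3 : u = ∑ j, ⟪u, pvb n j⟫ • pvb n j := by
      ext k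
      simp [pvb, Finset.sum_apply, EuclideanSpace.inner_single_right, Pi.single_apply]
    conv_lhs => rw [e3]
    refine (norm_sum_le _ _).trans (Finset.sum_le_sum fun j _ => ?_)
    rw [norm_smul, pv_norm_b, mul_one, Real.norm_eq_abs]
  have h3 : ∀ i, ‖H (pvb n i)‖ ≤ n * M := by
    intro i
    refine (e2 _).trans ((Finset.sum_le_sum fun j _ => h i j).trans ?_)
    simp
  have h4 : ∀ i, |v i| ≤ ‖v‖ := fun i => by
    simpa [Real.norm_eq_abs] using PiLp.norm_apply_le v i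
  calc ‖H v‖ = ‖∑ i, v i • H (pvb n i)‖ := by
        conv_lhs => rw [e1]
        rw [map_sum]
        simp only [map_smul]
    _ ≤ ∑ i, ‖v i • H (pvb n i)‖ := norm_sum_le _ _
    _ ≤ ∑ _i : Fin n, ‖v‖ * (n * M) := by
        refine Finset.sum_le_sum fun i _ => ?_
        rw [norm_smul, Real.norm_eq_abs]
        exact mul_le_mul (h4 i) (h3 i) (norm_nonneg _) (norm_nonneg _)
    _ = n * n * M * ‖v‖ := by
        simp; ring

/-- PIV: there are finitely many directions such that every symmetric operator is comparable to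
its largest diagonal entry in these directions. -/
theorem pivots (m : ℕ) : ∃ (n : ℕ) (U : Fin n → (E (m + 1) ≃ₗᵢ[ℝ] E (m + 1))) (c : ℝ), 0 < c ∧
    ∀ H : E (m + 1) →L[ℝ] E (m + 1), Sy H →
      ∃ i, c * ‖H‖ ≤ |⟪H (U i (join 0 1)), U i (join 0 1)⟫| := by
  set d := m + 1 with hd
  have hv : ∀ p : Fin d × Fin d, ∃ R : E (m + 1) ≃ₗᵢ[ℝ] E (m + 1),
      R (join 0 1) = ‖pvb d p.1 + pvb d p.2‖⁻¹ • (pvb d p.1 + pvb d p.2) := by
    intro p
    refine pv_exists_rot _ ?_
    rw [norm_smul, norm_inv, norm_norm]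
    exact inv_mul_cancel₀ (norm_ne_zero_iff.2 (pv_sum_ne _ _))
  choose V hV using hv
  have hdp : (0 : ℝ) < d := by rw [hd]; positivity
  refine ⟨Fintype.card (Fin d × Fin d), fun i => V ((Fintype.equivFin _).symm i),
    ((d : ℝ) * d * 3)⁻¹, by positivity, fun H hH => ?_⟩
  -- the largest entry
  obtain ⟨p, -, hp⟩ := Finset.exists_max_image (Finset.univ : Finset (Fin d × Fin d))
    (fun p => |⟪H (V p (join 0 1)), V p (join 0 1)⟫|) ⟨(0, 0), Finset.mem_univ _⟩
  refine ⟨Fintype.equivFin _ p, ?_⟩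
  simp only [Equiv.symm_apply_apply]
  set M := |⟪H (V p (join 0 1)), V p (join 0 1)⟫| with hM
  have hM0 : 0 ≤ M := abs_nonneg _
  have hq : ∀ i j, |⟪H (pvb d i + pvb d j), pvb d i + pvb d j⟫| ≤
      ‖pvb d i + pvb d j‖ ^ 2 * M := by
    intro i j
    have h1 := hp (i, j) (Finset.mem_univ _)
    simp only [hV] at h1
    rw [map_smul, inner_smul_left, inner_smul_right] at h1
    simp only [conj_trivial] at h1
    have hn : 0 < ‖pvb d i + pvb d j‖ := norm_pos_iff.2 (pv_sum_ne _ _)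
    rw [← mul_assoc, abs_mul, abs_of_nonneg (by positivity : (0 : ℝ) ≤
      ‖pvb d i + pvb d j‖⁻¹ * ‖pvb d i + pvb d j‖⁻¹)] at h1
    have h2 := mul_le_mul_of_nonneg_left h1 (by positivity : (0 : ℝ) ≤ ‖pvb d i + pvb d j‖ ^ 2)
    have h3 : ‖pvb d i + pvb d j‖ ^ 2 * (‖pvb d i + pvb d j‖⁻¹ * ‖pvb d i + pvb d j‖⁻¹ *
        |⟪H (pvb d i + pvb d j), pvb d i + pvb d j⟫|) =
        |⟪H (pvb d i + pvb d j), pvb d i + pvb d j⟫| := by
      field_simp
    rw [h3] at h2
    simpa only [hM, hV] using h2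
  have hb2 : ∀ i j, ‖pvb d i + pvb d j‖ ^ 2 ≤ 4 := by
    intro i j
    have h1 := norm_add_le (pvb d i) (pvb d j)
    rw [pv_norm_b, pv_norm_b] at h1
    nlinarith [norm_nonneg (pvb d i + pvb d j)]
  have hdiag : ∀ i, |⟪H (pvb d i), pvb d i⟫| ≤ M := by
    intro i
    have h1 := hq i i
    have h2 : pvb d i + pvb d i = (2 : ℝ) • pvb d i := (two_smul ℝ _).symm
    rw [h2, map_smul, inner_smul_left, inner_smul_right, norm_smul, pv_norm_b] at h1
    simp only [conj_trivial] at h1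
    rw [← mul_assoc, abs_mul] at h1
    norm_num at h1
    linarith
  have hoff : ∀ i j, |⟪H (pvb d i), pvb d j⟫| ≤ 3 * M := by
    intro i j
    have h1 := hq i j
    have h2 : ⟪H (pvb d i + pvb d j), pvb d i + pvb d j⟫ = ⟪H (pvb d i), pvb d i⟫ +
        ⟪H (pvb d j), pvb d j⟫ + 2 * ⟪H (pvb d i), pvb d j⟫ := by
      rw [map_add, inner_add_left, inner_add_right, inner_add_right]
      have h3 : ⟪H (pvb d j), pvb d i⟫ = ⟪H (pvb d i), pvb d j⟫ := by
        rw [hH, real_inner_comm]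
      rw [h3]; ring
    rw [h2] at h1
    have h4 := (abs_le.1 (h1.trans (mul_le_mul_of_nonneg_right (hb2 i j) hM0)))
    have h5 := abs_le.1 (hdiag i)
    have h6 := abs_le.1 (hdiag j)
    rw [abs_le]
    constructor <;> linarith [h4.1, h4.2, h5.1, h5.2, h6.1, h6.2]
  have h7 := pv_op_norm H (3 * M) (by positivity) hoff
  rw [inv_mul_le_iff₀ (by positivity)]
  nlinarith

end Pool.Agent.GNP
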