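import Pool.Agent.GNP.Slc
import Pool.Agent.GNP.SLu

/-!
SLICE, the inactive part.
-/

namespace Pool.Agent.GNP

open MeasureTheory Set Pool.Agent.MP_6cbfb8_an
open scoped ENNReal Real RealInnerProductSpace ContDiff

/-- The integral in `t` of the decay. -/
theorem sli_int : ∃ C2 : ℝ, 0 ≤ C2 ∧ ∀ (s t0 : ℝ), 0 < s →
    ∫⁻ t : ℝ, ENNReal.ofReal ((1 + |t - t0| / s) ^ (-2 : ℝ)) ≤ ENNReal.ofReal (C2 * s) := by
  have hg : Integrable (fun u : ℝ => (1 + ‖u‖) ^ (-2 : ℝ)) :=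
    integrable_one_add_norm (E := ℝ) (μ := volume) (r := 2) (by simp)
  refine ⟨∫ u : ℝ, (1 + ‖u‖) ^ (-2 : ℝ), integral_nonneg fun u => by positivity,
    fun s t0 hs => ?_⟩
  have e : ∀ t : ℝ, (1 + |t - t0| / s) ^ (-2 : ℝ) = (1 + ‖(t - t0) / s‖) ^ (-2 : ℝ) := by
    intro t
    rw [Real.norm_eq_abs, abs_div, abs_of_pos hs]
  have hi : Integrable (fun t : ℝ => (1 + ‖(t - t0) / s‖) ^ (-2 : ℝ)) :=
    (hg.comp_div hs.ne').comp_sub_right t0
  simp only [e]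
  rw [← ofReal_integral_eq_lintegral_ofReal hi
    (Filter.Eventually.of_forall fun t => by positivity)]
  apply ENNReal.ofReal_le_ofReal
  rw [integral_sub_right_eq_self (fun t : ℝ => (1 + ‖t / s‖) ^ (-2 : ℝ)) t0,
    Measure.integral_comp_div (fun t : ℝ => (1 + ‖t‖) ^ (-2 : ℝ)) s, abs_of_pos hs, smul_eq_mul,
    mul_comm]

/-- `uu` is measurable. -/
theorem sli_meas {m : ℕ} {b : E m → ℂ} {q : E m → ℝ} (hb : Continuous b) (hq : Continuous q) :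
    Measurable (uu b q) := by
  have h : Continuous fun p : E m × E m =>
      b p.2 * Complex.exp (((q p.2 - ⟪p.1, p.2⟫ : ℝ) : ℂ) * Complex.I) := by fun_prop
  have h2 := h.stronglyMeasurable.integral_prod_right' (ν := (volume : Measure (E m)))
  exact h2.measurable

/-- The sum. -/
theorem sli_sum {m : ℕ} {p : ℝ} (hp : 1 ≤ p) {ι : Type} [Fintype ι] (f : ι → E m → ℂ)
    (hf : ∀ i, Measurable (f i)) (D : ι → ℝ≥0∞) (h : ∀ i, ∫⁻ x, ‖f i x‖ₑ ^ p ≤ D i) :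
    ∫⁻ x, ‖∑ i, f i x‖ₑ ^ p ≤ (Fintype.card ι : ℝ≥0∞) ^ (p - 1) * ∑ i, D i := by
  have hp0 : 0 ≤ p := zero_le_one.trans hp
  calc ∫⁻ x, ‖∑ i, f i x‖ₑ ^ p
      ≤ ∫⁻ x, (Fintype.card ι : ℝ≥0∞) ^ (p - 1) * ∑ i, ‖f i x‖ₑ ^ p := by
        refine lintegral_mono fun x => ?_
        refine (ENNReal.rpow_le_rpow (enorm_sum_le _ _) hp0).trans ?_
        exact ENNReal.rpow_sum_le_const_mul_sum_rpow Finset.univ _ hp
    _ = (Fintype.card ι : ℝ≥0∞) ^ (p - 1) * ∫⁻ x, ∑ i, ‖f i x‖ₑ ^ p := by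
        rw [lintegral_const_mul']
        exact ENNReal.rpow_ne_top_of_nonneg (by linarith) (ENNReal.natCast_ne_top _)
    _ = (Fintype.card ι : ℝ≥0∞) ^ (p - 1) * ∑ i, ∫⁻ x, ‖f i x‖ₑ ^ p := by
        rw [lintegral_finsetSum]
        exact fun i _ => (hf i).enorm.pow_const p
    _ ≤ _ := by
        gcongr with i _
        exact h i

/-- **The inactive part.** -/
theorem slc_inactive (m : ℕ) (p : ℝ) (hp : 2 < p) (κ1 : ℝ) (hκ : 0 < κ1) (hκ1 : κ1 ≤ 1 / 4)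
    (A B : ℕ → ℝ) (n0 N N' : ℕ) (hN : N + n0 + 2 ≤ N') : ∃ K0 : ℝ, 1 ≤ K0 ∧ ∀ K, K0 ≤ K →
    ∀ (ι : Type) [Fintype ι] (U : E (m + 1) ≃ₗᵢ[ℝ] E (m + 1)) (z : ι → E (m + 1))
      (q : ι → E (m + 1) → ℝ) (a : ι → E (m + 1) → ℂ) (ρ R : ℝ) (η ψ : ι → ℝ → E m → ℝ)
      (b : ι → ℝ → E m → ℂ) (v0 : ι → E m) (w0 t0 : ι → ℝ),
      0 < ρ → ρ ≤ 1 → K ≤ 2 * (R * ρ ^ 2) → R ≤ K ^ n0 →
      (∀ i, Slc m A B N' κ1 ρ R U (z i) (q i) (a i) (η i) (ψ i) (b i) (v0 i) (w0 i) (t0 i)) →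
      ∫⁻ t : ℝ, ∫⁻ x : E m, ‖∑ i, if κ1 * ρ < |η i t (v0 i) - w0 i| then
          ((√R)⁻¹ : ℝ) * uu (b i t) (ψ i t) x else 0‖ₑ ^ p ≤
        ENNReal.ofReal ((K ^ N)⁻¹ * (Fintype.card ι : ℝ) ^ p) := by
  obtain ⟨C, hC0, hC⟩ := uu_Lp m p hp
  obtain ⟨C2, hC20, hC2⟩ := sli_int
  have hp0 : 0 < p := by linarith
  have hp1 : 1 ≤ p := by linarith
  set Cs : ℝ := C * |B 0| ^ p * (2 ^ N' * C2) with hCs
  have hB0 : 0 ≤ |B 0| ^ p := by positivity
  have hCs0 : 0 ≤ Cs := by positivity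
  refine ⟨2 + Cs, by linarith, fun K hK ι _ U z q a ρ R η ψ b v0 w0 t0 hρ hρ1 hKR hRK hS => ?_⟩
  have hK2 : 2 ≤ K := by linarith
  have hKC : Cs ≤ K := by linarith
  have hK0 : 0 < K := by linarith
  have hX1 : K / 2 ≤ R * ρ ^ 2 := by linarith
  have hX1' : 1 ≤ R * ρ ^ 2 := by linarith
  have hρ2 : ρ ^ 2 ≤ 1 := pow_le_one₀ hρ.le hρ1
  have hR0 : 0 < R := by
    by_contra h
    push Not at h
    nlinarith [mul_nonneg (neg_nonneg.mpr h) (sq_nonneg ρ)]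
  have hR1 : 1 ≤ R := by nlinarith [sq_nonneg ρ]
  have hs : 0 < R * ρ := by positivity
  -- pointwise
  have key : ∀ t : ℝ, ∫⁻ x : E m, ‖∑ i, if κ1 * ρ < |η i t (v0 i) - w0 i| then
          ((√R)⁻¹ : ℝ) * uu (b i t) (ψ i t) x else 0‖ₑ ^ p ≤
      (Fintype.card ι : ℝ≥0∞) ^ (p - 1) * ∑ i, ENNReal.ofReal
        (C * |B 0| ^ p * ((R * ρ ^ 2) ^ N')⁻¹) *
          ENNReal.ofReal ((1 + |t - t0 i| / (R * ρ)) ^ (-2 : ℝ)) := by
    intro t
    refine sli_sum hp1 (fun i x => if κ1 * ρ < |η i t (v0 i) - w0 i| then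
          ((√R)⁻¹ : ℝ) * uu (b i t) (ψ i t) x else 0) (fun i => ?_) _ (fun i => ?_)
    · have hcel := (hS i).cel t
      have hm := sli_meas hcel.sma.continuous hcel.smq.continuous
      by_cases h : κ1 * ρ < |η i t (v0 i) - w0 i|
      · simp only [h, if_true]
        exact hm.const_mul _
      · simp only [h, if_false]
        exact measurable_const
    · by_cases h : κ1 * ρ < |η i t (v0 i) - w0 i|
      · simp only [h, if_true]
        have hcel := (hS i).cel t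
        set Y : ℝ := 1 + |t - t0 i| / (R * ρ) with hY
        have hY1 : 1 ≤ Y := by
          have : 0 ≤ |t - t0 i| / (R * ρ) := by positivity
          linarith
        have hY0 : 0 < Y := by linarith
        set β : ℝ := |B 0| / ((R * ρ ^ 2) ^ N' * Y ^ N') with hβ
        have hβ0 : 0 ≤ β := by positivity
        have h1 := hC (b i t) (ψ i t) (v0 i) (1 / 2 * (κ1 * ρ)) β hcel.sma.continuous
          hcel.smq.continuous (by nlinarith) hβ0 (fun y => ((hS i).ina t h y).trans (by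
            rw [hβ]
            gcongr
            exact le_abs_self _)) hcel.supp
        have h2 : ∫⁻ x, ‖(((√R)⁻¹ : ℝ) : ℂ) * uu (b i t) (ψ i t) x‖ₑ ^ p ≤
            ∫⁻ x, ‖uu (b i t) (ψ i t) x‖ₑ ^ p := by
          refine lintegral_mono fun x => ?_
          refine ENNReal.rpow_le_rpow ?_ hp0.le
          rw [enorm_mul]
          have h3 : ‖(((√R)⁻¹ : ℝ) : ℂ)‖ₑ ≤ 1 := by
            rw [← ofReal_norm, Complex.norm_real, Real.norm_eq_abs,
              abs_of_nonneg (by positivity)]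
            rw [← ENNReal.ofReal_one]
            apply ENNReal.ofReal_le_ofReal
            apply inv_le_one_of_one_le₀
            exact Real.one_le_sqrt.mpr hR1
          calc _ ≤ 1 * ‖uu (b i t) (ψ i t) x‖ₑ := by gcongr
            _ = _ := one_mul _
        refine h2.trans (h1.trans ?_)
        rw [← ENNReal.ofReal_mul (by positivity)]
        apply ENNReal.ofReal_le_ofReal
        have hX0 : 0 < R * ρ ^ 2 := by linarith
        have hb : β ^ p = |B 0| ^ p * (((R * ρ ^ 2) ^ N') ^ p)⁻¹ * ((Y ^ N') ^ p)⁻¹ := by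
          rw [hβ, Real.div_rpow (by positivity) (by positivity),
            Real.mul_rpow (by positivity) (by positivity)]
          field_simp
        have hx : (((R * ρ ^ 2) ^ N') ^ p)⁻¹ ≤ ((R * ρ ^ 2) ^ N')⁻¹ := by
          apply inv_anti₀ (by positivity)
          calc (R * ρ ^ 2) ^ N' = ((R * ρ ^ 2) ^ N') ^ (1 : ℝ) := (Real.rpow_one _).symm
            _ ≤ _ := Real.rpow_le_rpow_of_exponent_le (one_le_pow₀ hX1') hp1
        have hy : ((Y ^ N') ^ p)⁻¹ ≤ Y ^ (-2 : ℝ) := by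
          rw [Real.rpow_neg hY0.le]
          apply inv_anti₀ (by positivity)
          rw [← Real.rpow_natCast Y N', ← Real.rpow_mul hY0.le]
          apply Real.rpow_le_rpow_of_exponent_le hY1
          have : (2 : ℝ) ≤ (N' : ℝ) := by exact_mod_cast (by omega : 2 ≤ N')
          nlinarith
        rw [hb]
        have hyy : 0 ≤ ((Y ^ N') ^ p)⁻¹ := by positivity
        calc C * (|B 0| ^ p * (((R * ρ ^ 2) ^ N') ^ p)⁻¹ * ((Y ^ N') ^ p)⁻¹)
            = (C * |B 0| ^ p) * (((R * ρ ^ 2) ^ N') ^ p)⁻¹ * ((Y ^ N') ^ p)⁻¹ := by ring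
          _ ≤ (C * |B 0| ^ p) * ((R * ρ ^ 2) ^ N')⁻¹ * Y ^ (-2 : ℝ) := by gcongr
          _ = _ := by ring
      · simp only [h, if_false, enorm_zero, ENNReal.zero_rpow_of_pos hp0, lintegral_zero]
        exact bot_le
  -- integrate
  have hcard : (Fintype.card ι : ℝ≥0∞) ^ (p - 1) ≠ ⊤ :=
    ENNReal.rpow_ne_top_of_nonneg (by linarith) (ENNReal.natCast_ne_top _)
  refine (lintegral_mono key).trans ?_
  rw [lintegral_const_mul' _ _ hcard, lintegral_finsetSum]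
  swap
  · intro i _
    refine Measurable.const_mul ?_ _
    exact ENNReal.measurable_ofReal.comp (by fun_prop)
  have hone : ∀ i : ι, ∫⁻ t : ℝ, ENNReal.ofReal (C * |B 0| ^ p * ((R * ρ ^ 2) ^ N')⁻¹) *
      ENNReal.ofReal ((1 + |t - t0 i| / (R * ρ)) ^ (-2 : ℝ)) ≤
      ENNReal.ofReal ((K ^ N)⁻¹) := by
    intro i
    rw [lintegral_const_mul' _ _ ENNReal.ofReal_ne_top]
    refine (mul_le_mul_right (hC2 (R * ρ) (t0 i) hs) _).trans ?_
    rw [← ENNReal.ofReal_mul (by positivity)]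
    apply ENNReal.ofReal_le_ofReal
    have h1 : ((R * ρ ^ 2) ^ N')⁻¹ ≤ 2 ^ N' * (K ^ N')⁻¹ := by
      have : (K / 2) ^ N' ≤ (R * ρ ^ 2) ^ N' := pow_le_pow_left₀ (by positivity) hX1 N'
      calc ((R * ρ ^ 2) ^ N')⁻¹ ≤ ((K / 2) ^ N')⁻¹ := inv_anti₀ (by positivity) this
        _ = _ := by rw [div_pow]; field_simp
    have h2 : R * ρ ≤ K ^ n0 := by nlinarith
    have h3 : (K ^ N')⁻¹ * K ^ n0 ≤ (K ^ N)⁻¹ * K⁻¹ := by
      rw [← mul_inv, ← div_eq_inv_mul, div_le_iff₀ (by positivity), inv_mul_eq_div,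
        le_div_iff₀ (by positivity), ← pow_succ, ← pow_add]
      exact pow_le_pow_right₀ (by linarith) (by omega)
    calc C * |B 0| ^ p * ((R * ρ ^ 2) ^ N')⁻¹ * (C2 * (R * ρ))
        ≤ C * |B 0| ^ p * (2 ^ N' * (K ^ N')⁻¹) * (C2 * K ^ n0) := by gcongr
      _ = Cs * ((K ^ N')⁻¹ * K ^ n0) := by rw [hCs]; ring
      _ ≤ K * ((K ^ N)⁻¹ * K⁻¹) := by gcongr
      _ = (K ^ N)⁻¹ := by field_simp
  calc (Fintype.card ι : ℝ≥0∞) ^ (p - 1) * ∑ i, ∫⁻ t : ℝ,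
        ENNReal.ofReal (C * |B 0| ^ p * ((R * ρ ^ 2) ^ N')⁻¹) *
          ENNReal.ofReal ((1 + |t - t0 i| / (R * ρ)) ^ (-2 : ℝ))
      ≤ (Fintype.card ι : ℝ≥0∞) ^ (p - 1) * ∑ _i : ι, ENNReal.ofReal ((K ^ N)⁻¹) := by
        gcongr with i _
        exact hone i
    _ = ENNReal.ofReal ((K ^ N)⁻¹) * ((Fintype.card ι : ℝ≥0∞) ^ (p - 1) * Fintype.card ι) := by
        rw [Finset.sum_const, nsmul_eq_mul, Finset.card_univ]; ring
    _ ≤ ENNReal.ofReal ((K ^ N)⁻¹) * (Fintype.card ι : ℝ≥0∞) ^ p := by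
        gcongr
        by_cases h0 : Fintype.card ι = 0
        · simp [h0]
        · have h1 : (Fintype.card ι : ℝ≥0∞) ≠ 0 := by exact_mod_cast h0
          conv_lhs => rw [← ENNReal.rpow_one (Fintype.card ι : ℝ≥0∞), ← ENNReal.rpow_mul, one_mul]
          rw [← ENNReal.rpow_add _ _ h1 (ENNReal.natCast_ne_top _)]
          simp
    _ = _ := by
        rw [ENNReal.ofReal_mul (by positivity),
          ← ENNReal.ofReal_rpow_of_nonneg (by positivity) hp0.le, ENNReal.ofReal_natCast]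

end Pool.Agent.GNP
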