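import Pool.Agent.GNP.Slc
import Pool.Agent.GNP.MULS

/-!
Cells with a common pivot: one slice, by the theorem in the lower dimension.
-/

namespace Pool.Agent.GNP

open MeasureTheory Set Pool.Agent.MP_6cbfb8_an
open scoped ENNReal Real RealInnerProductSpace ContDiff

/-- `Wt` in `m` variables depends on `A k` for `k < m` only. -/
theorem slb_congr {A A2 : ℕ → ℕ → ℝ} {K : ℝ} {J : ℕ} : ∀ {m : ℕ}, (∀ k < m, A k = A2 k) →
    ∀ {ρ : ℝ} {q : E m → ℝ} {y : E m} {w : ℝ}, Wt A K J m ρ q y w → Wt A2 K J m ρ q y w := by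
  intro m
  induction m with
  | zero => intro _ ρ q y w h; exact h
  | succ m ih =>
    intro hA ρ q y w h
    obtain ⟨r, hr, h | ⟨R, r', t, U, v, η, ψ, h1, h2, h3, h4, h5, h6, h7⟩⟩ := h
    · exact ⟨r, hr, Or.inl h⟩
    · refine ⟨r, hr, Or.inr ⟨R, r', t, U, v, η, ψ, h1, h2, h3, h4, h5, ?_, ?_⟩⟩
      · rw [← hA m (Nat.lt_succ_self m)]
        exact h6
      · exact ih (fun k hk => hA k (hk.trans (Nat.lt_succ_self m))) h7

/-- The bound grows with the constant. -/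
theorem slb_mono {m : ℕ} {ι : Type} [Fintype ι] {p K0 K0' K : ℝ} {M C1 N : ℕ} {ρ : ℝ}
    {z : ι → E m} {q : ι → E m → ℝ} {a : ι → E m → ℂ} {G : ι → E m → ℝ≥0∞} (hK : 0 ≤ K)
    (h : K0 ≤ K0') (hb : Bnd p K0 K M C1 N ρ z q a G) : Bnd p K0' K M C1 N ρ z q a G := by
  unfold Bnd at hb ⊢
  refine hb.trans ?_
  gcongr

theorem slb_cen {m : ℕ} {A B : ℕ → ℝ} {N : ℕ} {κ1 ρ R : ℝ} {U : E (m + 1) ≃ₗᵢ[ℝ] E (m + 1)}
    {z : E (m + 1)} {q : E (m + 1) → ℝ} {a : E (m + 1) → ℂ} {η ψ : ℝ → E m → ℝ}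
    {b : ℝ → E m → ℂ} {v0 : E m} {w0 t0 : ℝ} (h : Slc m A B N κ1 ρ R U z q a η ψ b v0 w0 t0) :
    ‖v0‖ ≤ ‖z‖ := by
  have h1 : ‖z‖ = ‖join v0 w0‖ := by rw [h.cen, LinearIsometryEquiv.norm_map]
  have h2 := norm_join_sq v0 w0
  rw [h1]
  refine le_of_sq_le_sq ?_ (norm_nonneg _)
  rw [h2]
  nlinarith [sq_nonneg w0]

/-- One slice of a family of cells with a common pivot. -/
theorem slice_fix (m : ℕ) (p : ℝ) (C1 : ℕ) (h : FTst m p C1) (A : ℕ → ℝ) (κ1 : ℝ)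
    (hκ : 0 < κ1) (hκ1 : κ1 ≤ 1 / 4) : ∃ A' : ℕ → ℕ → ℝ,
    ∀ n0 : ℕ, ∃ J0 : ℕ, ∀ J, J0 ≤ J → ∀ (B : ℕ → ℝ) (N N' : ℕ), ∃ K0 : ℝ, 1 ≤ K0 ∧ ∀ K, K0 ≤ K →
    ∀ (ι : Type) [Fintype ι] (U : E (m + 1) ≃ₗᵢ[ℝ] E (m + 1)) (z : ι → E (m + 1))
      (q : ι → E (m + 1) → ℝ) (a : ι → E (m + 1) → ℂ) (ρ R : ℝ) (M : ℕ)
      (G : ι → E (m + 1) → ℝ≥0∞) (η ψ : ι → ℝ → E m → ℝ) (b : ι → ℝ → E m → ℂ)
      (v0 : ι → E m) (w0 t0 : ι → ℝ),
      (K ^ n0)⁻¹ ≤ ρ → ρ ≤ 1 → K ≤ 2 * (R * ρ ^ 2) → R ≤ K ^ n0 → (∀ i, ‖z i‖ ≤ n0) →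
      (∀ i, ContDiff ℝ ∞ (q i)) → Mult M ρ z q → (∀ i, Measurable (G i)) →
      (∀ i, Slc m A B N' κ1 ρ R U (z i) (q i) (a i) (η i) (ψ i) (b i) (v0 i) (w0 i) (t0 i)) →
      (∀ i y w, ‖y - z i‖ < ρ → 0 ≤ w → WtE A' K J m ρ (q i) y w → ENNReal.ofReal w ≤ G i y) →
      ∀ (t : ℝ) (ι' : Type) [Fintype ι'] (f : ι' → ι), Function.Injective f →
        (∀ j, |η (f j) t (v0 (f j)) - w0 (f j)| ≤ κ1 * ρ) →
        Bnd p K0 K M C1 N (κ1 * ρ) (fun j => v0 (f j)) (fun j => ψ (f j) t)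
          (fun j => b (f j) t)
          (fun j v => ENNReal.ofReal (√R) * G (f j) (U (join v (η (f j) t v)))) := by
  obtain ⟨A'', hA⟩ := h A
  refine ⟨Function.update A'' m A, fun n0 => ?_⟩
  obtain ⟨J0, hJ0⟩ := hA (n0 + 1)
  refine ⟨J0, fun J hJ B N N' => ?_⟩
  obtain ⟨K00, hK00, hK⟩ := hJ0 J hJ B N
  refine ⟨max K00 (max (1 / κ1) 2), hK00.trans (le_max_left _ _), ?_⟩
  intro K hKK ι _ U z q a ρ R M G η ψ b v0 w0 t0 hρ hρ1 hKR hRK hz hq hM hG hS hW t ι' _ f hf hact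
  have hK1 : K00 ≤ K := (le_max_left _ _).trans hKK
  have hK2 : 1 / κ1 ≤ K := (le_max_left _ _).trans ((le_max_right _ _).trans hKK)
  have hK3 : 2 ≤ K := (le_max_right _ _).trans ((le_max_right _ _).trans hKK)
  have hK0 : 0 < K := by linarith
  have hKκ : 1 ≤ K * κ1 := by
    rw [div_le_iff₀ hκ] at hK2
    exact hK2
  have hρ0 : 0 < ρ := lt_of_lt_of_le (by positivity) hρ
  have hRρ : 1 ≤ R * ρ ^ 2 := by linarith
  have hR : 0 < R := by
    by_contra hcon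
    have : R * ρ ^ 2 ≤ 0 := mul_nonpos_of_nonpos_of_nonneg (not_lt.mp hcon) (sq_nonneg _)
    linarith
  have hsR : 0 < √R := Real.sqrt_pos.mpr hR
  have hr0 : 0 < κ1 * ρ := mul_pos hκ hρ0
  refine slb_mono hK0.le (le_max_left _ _) (hK K hK1 ι' (fun j => v0 (f j))
    (fun j => ψ (f j) t) (fun j => b (f j) t) (κ1 * ρ) R M _ ?_ ?_ hR.le ?_ ?_ ?_ ?_ ?_ ?_)
  · have h1 : K⁻¹ ≤ κ1 := by
      rw [inv_le_iff_one_le_mul₀ hK0]
      linarith [mul_comm K κ1]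
    rw [pow_succ, mul_inv, mul_comm]
    exact mul_le_mul h1 hρ (by positivity) hκ.le
  · nlinarith
  · exact hRK.trans (pow_le_pow_right₀ (by linarith) (Nat.le_succ n0))
  · intro j
    have h1 := slb_cen (hS (f j))
    have h2 := hz (f j)
    push_cast
    linarith
  · exact fun j => (hS (f j)).cel t
  · have h1 : Mult (M * 1) ρ (fun j => z (f j)) (fun j => q (f j)) := by
      refine mult_sub (m + 1) M 1 ρ ρ z q f (fun j => z (f j)) hM (fun _ _ h => h) ?_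
      intro i y
      rw [Nat.cast_one, encard_le_one_iff]
      rintro j j' ⟨h2, _⟩ ⟨h3, _⟩
      exact hf (h2.trans h3.symm)
    rw [mul_one] at h1
    refine mult_slice m A U t R ρ (κ1 * ρ) M (fun j => z (f j)) (fun j => q (f j))
      (fun j => v0 (f j)) (fun j => η (f j) t) (fun j => ψ (f j) t) hR (fun j => hq (f j)) h1 ?_
    intro j v hv
    obtain ⟨h2, h3⟩ := (hS (f j)).act t (hact j) v hv.le
    exact ⟨h2, κ1 * ρ, hr0, h3⟩
  · intro j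
    refine Measurable.const_mul ((hG (f j)).comp ?_) _
    have h1 : Continuous fun v : E m => η (f j) t v :=
      (hS (f j)).con.comp (Continuous.prodMk continuous_const continuous_id)
    have h2 : Continuous fun v : E m => join v (η (f j) t v) :=
      continuous_join.comp (Continuous.prodMk continuous_id h1)
    exact (U.continuous.comp h2).measurable
  · intro j y w hy hw hwt
    obtain ⟨h2, h3⟩ := (hS (f j)).act t (hact j) y hy.le
    have h4 : w / √R * √R = w := div_mul_cancel₀ w hsR.ne'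
    have h5 : WtE (Function.update A'' m A) K J m ρ (q (f j)) (U (join y (η (f j) t y)))
        (w / √R) := by
      refine ⟨R, κ1 * ρ, t, U, y, η (f j) t, ψ (f j) t, hRρ, hr0, ?_, ?_, rfl, ?_, ?_⟩
      · nlinarith
      · nlinarith
      · rw [Function.update_self]
        exact h3
      · rw [h4]
        exact slb_congr (fun k hk => (Function.update_of_ne hk.ne _ _).symm) hwt
    have h6 := hW (f j) _ (w / √R) h2 (by positivity) h5
    calc ENNReal.ofReal w = ENNReal.ofReal (√R) * ENNReal.ofReal (w / √R) := by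
          rw [← ENNReal.ofReal_mul hsR.le, mul_comm, h4]
      _ ≤ _ := by gcongr

end Pool.Agent.GNP
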