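import Pool.Agent.GNP.SLa
import Pool.Agent.GNP.SLb
import Pool.Agent.GNP.SLI
import Pool.Agent.GNP.CELL

/-!
Cells with a common pivot: all slices together.
-/

namespace Pool.Agent.GNP

open MeasureTheory Set Pool.Agent.MP_6cbfb8_an
open scoped ENNReal Real RealInnerProductSpace ContDiff

theorem sld_sub {ι : Type} [Fintype ι] {β : Type*} [AddCommMonoid β] (P : ι → Prop)
    [DecidablePred P] [Fintype {i // P i}] (g : ι → β) :
    (∑ i, if P i then g i else 0) = ∑ j : {i // P i}, g j.1 := by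
  rw [← Finset.sum_filter]
  exact Finset.sum_subtype (Finset.univ.filter P) (by simp) g

theorem sld_real {R p : ℝ} (hR : 0 < R) : ((√R)⁻¹) ^ p * (√R) ^ (p - 2) = R⁻¹ := by
  have hs : 0 < √R := Real.sqrt_pos.mpr hR
  have h1 : (√R) ^ (p - 2) = (√R) ^ p * (R)⁻¹ := by
    rw [Real.rpow_sub hs, Real.rpow_two, Real.sq_sqrt hR.le]
    rfl
  rw [h1, Real.inv_rpow hs.le, ← mul_assoc, inv_mul_cancel₀ (Real.rpow_pos_of_pos hs p).ne',
    one_mul]

theorem sld_real2 {R p : ℝ} (hR : 1 ≤ R) (hp : 2 ≤ p) : ((√R)⁻¹) ^ p * R ≤ 1 := by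
  have hs : 1 ≤ √R := by
    rw [Real.one_le_sqrt]
    exact hR
  have hs0 : 0 < √R := by linarith
  have h1 : R = (√R) ^ (2 : ℝ) := by
    rw [Real.rpow_two, Real.sq_sqrt (by linarith)]
  have h2 : (√R) ^ (2 : ℝ) ≤ (√R) ^ p := Real.rpow_le_rpow_of_exponent_le hs hp
  rw [Real.inv_rpow hs0.le]
  have h3 : 0 < (√R) ^ p := Real.rpow_pos_of_pos hs0 p
  rw [inv_mul_le_iff₀ h3, mul_one]
  calc R = (√R) ^ (2 : ℝ) := h1
    _ ≤ _ := h2

/-- The part of the cells which are active at `t`. -/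
theorem slice_act {m : ℕ} {p : ℝ} (hp : 2 < p) {A B : ℕ → ℝ} {N N' M C1 : ℕ}
    {K0 K κ1 ρ R : ℝ} {U : E (m + 1) ≃ₗᵢ[ℝ] E (m + 1)} {ι : Type} [Fintype ι]
    {z : ι → E (m + 1)} {q : ι → E (m + 1) → ℝ} {a : ι → E (m + 1) → ℂ}
    {G : ι → E (m + 1) → ℝ≥0∞} {η ψ : ι → ℝ → E m → ℝ} {b : ι → ℝ → E m → ℂ}
    {v0 : ι → E m} {w0 t0 : ι → ℝ} (hK : 0 < K) (hK0 : 0 ≤ K0) (hR : 1 ≤ R)
    (hκ : 2 * (κ1 * ρ) ≤ 1) (hG : ∀ i, Measurable (G i))
    (hS : ∀ i, Slc m A B N' κ1 ρ R U (z i) (q i) (a i) (η i) (ψ i) (b i) (v0 i) (w0 i) (t0 i))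
    (hfix : ∀ (t : ℝ) (ι' : Type) [Fintype ι'] (f : ι' → ι), Function.Injective f →
        (∀ j, |η (f j) t (v0 (f j)) - w0 (f j)| ≤ κ1 * ρ) →
        Bnd p K0 K M C1 N (κ1 * ρ) (fun j => v0 (f j)) (fun j => ψ (f j) t)
          (fun j => b (f j) t)
          (fun j v => ENNReal.ofReal (√R) * G (f j) (U (join v (η (f j) t v))))) :
    ∫⁻ t : ℝ, ∫⁻ x : E m, ‖∑ i, if |η i t (v0 i) - w0 i| ≤ κ1 * ρ then
        ((√R)⁻¹ : ℝ) * uu (b i t) (ψ i t) x else 0‖ₑ ^ p ≤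
      ENNReal.ofReal (|A 0| * (K0 * (K * M) ^ C1)) *
        (∑ i, ∫⁻ y in Metric.ball (z i) ρ, G i y ^ (p - 2)) +
      ENNReal.ofReal (|A 0| * ((K ^ N)⁻¹ * (Fintype.card ι : ℝ) ^ p)) := by
  classical
  have hR0 : 0 < R := by linarith
  have hs0 : 0 < √R := Real.sqrt_pos.mpr hR0
  have hp0 : 0 ≤ p := by linarith
  have hp2 : 0 ≤ p - 2 := by linarith
  have hηc : ∀ i, Continuous fun x : ℝ × E m => η i x.1 x.2 := fun i => (hS i).con
  have hηt : ∀ i, Continuous fun t : ℝ => |η i t (v0 i) - w0 i| := fun i =>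
    (((hηc i).comp (continuous_id.prodMk continuous_const)).sub continuous_const).abs
  have hPm : ∀ i, MeasurableSet {t : ℝ | |η i t (v0 i) - w0 i| ≤ κ1 * ρ} := fun i =>
    (isClosed_le (hηt i) continuous_const).measurableSet
  -- the main term of one cell
  set I : ι → ℝ → ℝ≥0∞ := fun i t => ∫⁻ v in Metric.ball (v0 i) (κ1 * ρ),
    G i (U (join v (η i t v))) ^ (p - 2) with hI
  have hIm : ∀ i, Measurable (I i) := by
    intro i
    have h1 : Continuous fun x : ℝ × E m => U (join x.2 (η i x.1 x.2)) :=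
      U.continuous.comp (continuous_join.comp (continuous_snd.prodMk (hηc i)))
    exact Measurable.lintegral_prod_right'
      (f := fun x : ℝ × E m => G i (U (join x.2 (η i x.1 x.2))) ^ (p - 2))
      (((hG i).comp h1.measurable).pow_const _)
  -- fixed `t`
  have hfixed : ∀ t : ℝ, ∫⁻ x : E m, ‖∑ i, if |η i t (v0 i) - w0 i| ≤ κ1 * ρ then
        ((√R)⁻¹ : ℝ) * uu (b i t) (ψ i t) x else 0‖ₑ ^ p ≤
      ENNReal.ofReal (K0 * (K * M) ^ C1) * (ENNReal.ofReal R⁻¹ *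
        ∑ i, {t : ℝ | |η i t (v0 i) - w0 i| ≤ κ1 * ρ}.indicator (I i) t) +
      ENNReal.ofReal (((√R)⁻¹) ^ p * (K ^ N)⁻¹) * ENNReal.ofReal
        ((Nat.card {i : ι // |η i t (v0 i) - w0 i| ≤ κ1 * ρ} : ℝ) ^ p) := by
    intro t
    have h1 := hfix t {i : ι // |η i t (v0 i) - w0 i| ≤ κ1 * ρ} (fun j => j.1)
      Subtype.val_injective (fun j => j.2)
    unfold Bnd at h1
    have h2 : ∀ x : E m, ‖∑ i, if |η i t (v0 i) - w0 i| ≤ κ1 * ρ then
        (((√R)⁻¹ : ℝ) : ℂ) * uu (b i t) (ψ i t) x else 0‖ₑ ^ p =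
        ENNReal.ofReal (((√R)⁻¹) ^ p) *
          ‖∑ j : {i : ι // |η i t (v0 i) - w0 i| ≤ κ1 * ρ}, uu (b j.1 t) (ψ j.1 t) x‖ₑ ^ p := by
      intro x
      rw [sld_sub (fun i => |η i t (v0 i) - w0 i| ≤ κ1 * ρ), ← Finset.mul_sum, enorm_mul,
        ENNReal.mul_rpow_of_nonneg _ _ hp0, ← ofReal_norm, Complex.norm_real,
        Real.norm_of_nonneg (by positivity), ENNReal.ofReal_rpow_of_nonneg (by positivity) hp0]
    simp only [h2]
    rw [lintegral_const_mul' _ _ ENNReal.ofReal_ne_top]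
    refine (mul_le_mul_right h1 _).trans ?_
    have h3 : ∀ j : {i : ι // |η i t (v0 i) - w0 i| ≤ κ1 * ρ},
        ∫⁻ v in Metric.ball (v0 j.1) (κ1 * ρ),
          (ENNReal.ofReal (√R) * G j.1 (U (join v (η j.1 t v)))) ^ (p - 2) =
        ENNReal.ofReal ((√R) ^ (p - 2)) * I j.1 t := by
      intro j
      rw [hI, ← lintegral_const_mul' _ _ ENNReal.ofReal_ne_top]
      refine lintegral_congr fun v => ?_
      rw [ENNReal.mul_rpow_of_nonneg _ _ hp2, ENNReal.ofReal_rpow_of_nonneg hs0.le hp2]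
    have h4 : (∑ i, {t : ℝ | |η i t (v0 i) - w0 i| ≤ κ1 * ρ}.indicator (I i) t) =
        ∑ j : {i : ι // |η i t (v0 i) - w0 i| ≤ κ1 * ρ}, I j.1 t := by
      rw [← sld_sub (fun i => |η i t (v0 i) - w0 i| ≤ κ1 * ρ) (fun i => I i t)]
      refine Finset.sum_congr rfl fun i _ => ?_
      simp only [indicator, mem_ofPred_eq]
    have h5 : ENNReal.ofReal R⁻¹ = ENNReal.ofReal (((√R)⁻¹) ^ p) *
        ENNReal.ofReal ((√R) ^ (p - 2)) := by
      rw [← sld_real (p := p) hR0, ENNReal.ofReal_mul (by positivity)]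
    simp only [h3]
    rw [h4, ← Finset.mul_sum, mul_add]
    refine add_le_add (le_of_eq ?_) (le_of_eq ?_)
    · rw [h5]
      ring
    · rw [ENNReal.ofReal_mul (by positivity), ENNReal.ofReal_mul (by positivity),
        Nat.card_eq_fintype_card, mul_assoc]
  -- all `t`
  have hcm : Measurable fun t : ℝ => ENNReal.ofReal
      ((Nat.card {i : ι // |η i t (v0 i) - w0 i| ≤ κ1 * ρ} : ℝ) ^ p) := by
    have h1 : (fun t : ℝ => ENNReal.ofReal
        ((Nat.card {i : ι // |η i t (v0 i) - w0 i| ≤ κ1 * ρ} : ℝ) ^ p)) =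
        fun t : ℝ => ENNReal.ofReal
          ((∑ i, {t : ℝ | |η i t (v0 i) - w0 i| ≤ κ1 * ρ}.indicator (fun _ => (1 : ℝ)) t) ^ p) := by
      funext t
      congr 2
      rw [Nat.card_eq_fintype_card, Fintype.card_subtype]
      simp only [indicator, mem_ofPred_eq]
      rw [Finset.sum_ite]
      simp
    rw [h1]
    refine Measurable.ennreal_ofReal ?_
    refine Measurable.pow_const ?_ _
    exact Finset.measurable_sum _ fun i _ => measurable_const.indicator (hPm i)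
  refine (lintegral_mono hfixed).trans ?_
  rw [lintegral_add_right _ (hcm.const_mul _)]
  refine add_le_add ?_ ?_
  · rw [lintegral_const_mul' _ _ ENNReal.ofReal_ne_top, lintegral_const_mul' _ _
      ENNReal.ofReal_ne_top, lintegral_finsetSum _ fun i _ => (hIm i).indicator (hPm i)]
    have h1 : ∀ i, ∫⁻ t, {t : ℝ | |η i t (v0 i) - w0 i| ≤ κ1 * ρ}.indicator (I i) t ≤
        ENNReal.ofReal (|A 0| * R) * ∫⁻ y in Metric.ball (z i) ρ, G i y ^ (p - 2) := by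
      intro i
      rw [lintegral_indicator (hPm i)]
      refine (slc_main (hS i) (fun y => G i y ^ (p - 2)) ((hG i).pow_const _)).trans ?_
      gcongr
      exact le_abs_self _
    calc _ ≤ ENNReal.ofReal (K0 * (K * M) ^ C1) * (ENNReal.ofReal R⁻¹ *
          ∑ i, ENNReal.ofReal (|A 0| * R) * ∫⁻ y in Metric.ball (z i) ρ, G i y ^ (p - 2)) := by
          gcongr with i
          exact h1 i
      _ = _ := by
          rw [← Finset.mul_sum, ← mul_assoc, ← mul_assoc, ← ENNReal.ofReal_mul (by positivity),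
            ← ENNReal.ofReal_mul (by positivity)]
          congr 2
          field_simp
  · rw [lintegral_const_mul' _ _ ENNReal.ofReal_ne_top]
    refine (mul_le_mul_right (slc_card p (by linarith) hS) _).trans ?_
    have h1 : ENNReal.ofReal (A 0 * R) ≤ ENNReal.ofReal (|A 0| * R) := by
      gcongr
      exact le_abs_self _
    have h2 : ENNReal.ofReal (2 * (κ1 * ρ)) ≤ 1 := by
      rw [← ENNReal.ofReal_one]
      exact ENNReal.ofReal_le_ofReal hκ
    calc _ ≤ ENNReal.ofReal (((√R)⁻¹) ^ p * (K ^ N)⁻¹) * (ENNReal.ofReal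
          ((Fintype.card ι : ℝ) ^ p) * (ENNReal.ofReal (|A 0| * R) * 1)) := by gcongr
      _ = ENNReal.ofReal (((√R)⁻¹) ^ p * (K ^ N)⁻¹ * ((Fintype.card ι : ℝ) ^ p *
          (|A 0| * R))) := by
          rw [mul_one, ← ENNReal.ofReal_mul (by positivity), ← ENNReal.ofReal_mul (by positivity)]
      _ ≤ _ := by
          refine ENNReal.ofReal_le_ofReal ?_
          have h3 := sld_real2 hR hp.le
          have h4 : 0 ≤ |A 0| * ((K ^ N)⁻¹ * (Fintype.card ι : ℝ) ^ p) := by positivity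
          calc ((√R)⁻¹) ^ p * (K ^ N)⁻¹ * ((Fintype.card ι : ℝ) ^ p * (|A 0| * R)) =
                (((√R)⁻¹) ^ p * R) * (|A 0| * ((K ^ N)⁻¹ * (Fintype.card ι : ℝ) ^ p)) := by ring
            _ ≤ 1 * (|A 0| * ((K ^ N)⁻¹ * (Fintype.card ι : ℝ) ^ p)) :=
                mul_le_mul_of_nonneg_right h3 h4
            _ = _ := one_mul _

theorem sld_empty {m : ℕ} {ι : Type} {ρ : ℝ} (hρ : 0 < ρ) {z : ι → E m} {q : ι → E m → ℝ}
    (h : Mult 0 ρ z q) : IsEmpty ι := by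
  refine ⟨fun i => ?_⟩
  have h1 := h ⊥ (z i) 0
  rw [Nat.cast_zero, nonpos_iff_eq_zero, encard_eq_zero] at h1
  refine (eq_empty_iff_forall_notMem.mp h1) (i, z i) ⟨?_, ?_, ?_, ?_⟩
  · simpa using hρ
  · simp
  · intro f hf
    rw [(Submodule.mem_bot ℝ).mp hf, inner_zero_right]
  · intro f hf _
    exact (Submodule.mem_bot ℝ).mp hf

theorem slice_step (m : ℕ) (p : ℝ) (hp : 2 < p) (C1 : ℕ) (h : FTst m p C1) (c : ℝ) (hc : 0 < c)
    (A : ℕ → ℝ) : ∃ (κ : ℝ) (A' : ℕ → ℕ → ℝ), 0 < κ ∧ κ ≤ 1 / 4 ∧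
    ∀ n0 : ℕ, ∃ J0 : ℕ, ∀ J, J0 ≤ J → ∀ (B : ℕ → ℝ) (N : ℕ),
    ∃ K0 : ℝ, 1 ≤ K0 ∧ ∀ K, K0 ≤ K →
    ∀ (ι : Type) [Fintype ι] (U : E (m + 1) ≃ₗᵢ[ℝ] E (m + 1)) (z : ι → E (m + 1))
      (q : ι → E (m + 1) → ℝ) (a : ι → E (m + 1) → ℂ) (ρ R : ℝ) (M : ℕ)
      (G : ι → E (m + 1) → ℝ≥0∞),
      (K ^ n0)⁻¹ ≤ ρ → ρ ≤ 1 → K ≤ 2 * (R * ρ ^ 2) → R ≤ K ^ n0 → (∀ i, ‖z i‖ ≤ n0) →
      (∀ i, Cel (m + 1) A B κ ρ R (z i) (q i) (a i)) →
      (∀ i, c * R ≤ |⟪Hs (q i) (z i) (U (join 0 1)), U (join 0 1)⟫|) → Mult M ρ z q →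
      (∀ i, Measurable (G i)) →
      (∀ i y w, ‖y - z i‖ < ρ → 0 ≤ w → WtE A' K J m ρ (q i) y w → ENNReal.ofReal w ≤ G i y) →
      Bnd p K0 K M (C1 + 1) N ρ z q a G := by
  obtain ⟨κ, κ1, Ac, hκ, hκ4, hκ1, hκ14, hcell⟩ := cell m c hc A
  obtain ⟨A', hA'⟩ := slice_fix m p C1 h Ac κ1 hκ1 hκ14
  refine ⟨κ, A', hκ, hκ4, fun n0 => ?_⟩
  obtain ⟨J0, hJ0⟩ := hA' n0
  refine ⟨J0, fun J hJ B N => ?_⟩
  obtain ⟨B', hB'⟩ := hcell B (N + 1 + n0 + 2)
  obtain ⟨K1, hK11, hK1⟩ := hJ0 J hJ B' (N + 1) (N + 1 + n0 + 2)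
  obtain ⟨K2, hK21, hK2⟩ := slc_inactive m p hp κ1 hκ1 hκ14 Ac B' n0 (N + 1) (N + 1 + n0 + 2)
    (by omega)
  have hc10 : (0 : ℝ) < 2 ^ (p - 1) := Real.rpow_pos_of_pos (by norm_num) _
  set c1 : ℝ := 2 ^ (p - 1) with hc1
  refine ⟨max K1 (max K2 (max (c1 * (|Ac 0| + 1)) 2)), hK11.trans (le_max_left _ _), ?_⟩
  intro K hK ι _ U z q a ρ R M G hρ hρ1 hKR hRK hz hcel hpiv hM hG hW
  have hKK1 : K1 ≤ K := (le_max_left _ _).trans hK
  have hKK2 : K2 ≤ K := (le_max_left _ _).trans ((le_max_right _ _).trans hK)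
  have hKc : c1 * (|Ac 0| + 1) ≤ K :=
    (le_max_left _ _).trans ((le_max_right _ _).trans ((le_max_right _ _).trans hK))
  have hKt : 2 ≤ K :=
    (le_max_right _ _).trans ((le_max_right _ _).trans ((le_max_right _ _).trans hK))
  have hK0 : 0 < K := by linarith
  have hρ0 : 0 < ρ := lt_of_lt_of_le (by positivity) hρ
  have hRρ : 1 ≤ R * ρ ^ 2 := by linarith
  have hRp : 0 < R := by
    by_contra hcon
    have : R * ρ ^ 2 ≤ 0 := mul_nonpos_of_nonpos_of_nonneg (not_lt.mp hcon) (sq_nonneg _)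
    linarith
  have hR : 1 ≤ R := by
    have h1 : ρ ^ 2 ≤ 1 := pow_le_one₀ hρ0.le hρ1
    nlinarith
  choose η ψ b v0 w0 t0 hS using
    fun i => hB' U ρ R (z i) (q i) (a i) hρ0 hRρ (hcel i) (hpiv i)
  rcases Nat.eq_zero_or_pos M with hM0 | hM0
  · have he : IsEmpty ι := by
      rw [hM0] at hM
      exact sld_empty hρ0 hM
    unfold Bnd
    simp only [Finset.univ_eq_empty, Finset.sum_empty, enorm_zero]
    rw [ENNReal.zero_rpow_of_pos (by linarith), lintegral_zero]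
    exact zero_le
  have hM1 : (1 : ℝ) ≤ M := by exact_mod_cast hM0
  -- the active part
  have hact := slice_act hp (K0 := K1) (κ1 := κ1) (ρ := ρ) (M := M) (C1 := C1) (N := N + 1)
    hK0 (by linarith) hR (by nlinarith) hG hS
    (hK1 K hKK1 ι U z q a ρ R M G η ψ b v0 w0 t0 hρ hρ1 hKR hRK hz (fun i => (hcel i).smq) hM hG
      hS hW)
  -- the inactive part
  have hina := hK2 K hKK2 ι U z q a ρ R η ψ b v0 w0 t0 hρ0 hρ1 hKR hRK hS
  -- measurability
  have hηc : ∀ i, Continuous fun x : ℝ × E m => η i x.1 x.2 := fun i => (hS i).con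
  have hηt : ∀ i, Continuous fun x : ℝ × E m => |η i x.1 (v0 i) - w0 i| := fun i =>
    (((hηc i).comp (continuous_fst.prodMk continuous_const)).sub continuous_const).abs
  have hPm : ∀ i, MeasurableSet {x : ℝ × E m | |η i x.1 (v0 i) - w0 i| ≤ κ1 * ρ} := fun i =>
    (isClosed_le (hηt i) continuous_const).measurableSet
  have hQm : ∀ i, MeasurableSet {x : ℝ × E m | κ1 * ρ < |η i x.1 (v0 i) - w0 i|} := fun i =>
    (isOpen_lt continuous_const (hηt i)).measurableSet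
  have huc : ∀ i, Continuous (uu (a i) (q i)) := fun i =>
    continuous_sla (hcel i).sma.continuous (hcel i).supp (hcel i).smq.continuous
  have huj : ∀ i, Measurable fun x : ℝ × E m => uu (a i) (q i) (U (join x.2 x.1)) := fun i =>
    ((huc i).comp (U.continuous.comp (continuous_join.comp
      (continuous_snd.prodMk continuous_fst)))).measurable
  set f1 : ℝ × E m → ℝ≥0∞ := fun x => ‖∑ i, if |η i x.1 (v0 i) - w0 i| ≤ κ1 * ρ then
    uu (a i) (q i) (U (join x.2 x.1)) else 0‖ₑ ^ p with hf1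
  set f2 : ℝ × E m → ℝ≥0∞ := fun x => ‖∑ i, if κ1 * ρ < |η i x.1 (v0 i) - w0 i| then
    uu (a i) (q i) (U (join x.2 x.1)) else 0‖ₑ ^ p with hf2
  have hf1m : Measurable f1 := by
    refine Measurable.pow_const ?_ _
    refine Measurable.enorm ?_
    exact Finset.measurable_sum _ fun i _ => Measurable.ite (hPm i) (huj i) measurable_const
  have hf2m : Measurable f2 := by
    refine Measurable.pow_const ?_ _
    refine Measurable.enorm ?_
    exact Finset.measurable_sum _ fun i _ => Measurable.ite (hQm i) (huj i) measurable_const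
  have hFm : Measurable fun y : E (m + 1) => ‖∑ i, uu (a i) (q i) y‖ₑ ^ p := by
    refine Measurable.pow_const ?_ _
    refine Measurable.enorm ?_
    exact Finset.measurable_sum _ fun i _ => (huc i).measurable
  have hpt : ∀ (t : ℝ) (x : E m), ‖∑ i, uu (a i) (q i) (U (join x t))‖ₑ ^ p ≤
      ENNReal.ofReal c1 * (f1 (t, x) + f2 (t, x)) := by
    intro t x
    have h1 : ∑ i, uu (a i) (q i) (U (join x t)) =
        (∑ i, if |η i t (v0 i) - w0 i| ≤ κ1 * ρ then uu (a i) (q i) (U (join x t)) else 0) +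
        ∑ i, if κ1 * ρ < |η i t (v0 i) - w0 i| then uu (a i) (q i) (U (join x t)) else 0 := by
      rw [← Finset.sum_add_distrib]
      refine Finset.sum_congr rfl fun i _ => ?_
      by_cases h2 : |η i t (v0 i) - w0 i| ≤ κ1 * ρ
      · rw [if_pos h2, if_neg (not_lt.mpr h2), add_zero]
      · rw [if_neg h2, if_pos (not_le.mp h2), zero_add]
    have h2 : ENNReal.ofReal c1 = (2 : ℝ≥0∞) ^ (p - 1) := by
      rw [hc1, ← ENNReal.ofReal_rpow_of_nonneg (by norm_num) (by linarith), ENNReal.ofReal_ofNat]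
    rw [h1, h2]
    refine (ENNReal.rpow_le_rpow (enorm_add_le _ _) (by linarith)).trans ?_
    exact ENNReal.rpow_add_le_mul_rpow_add_rpow _ _ (by linarith)
  have e1 : ∫⁻ t : ℝ, ∫⁻ x : E m, f1 (t, x) ≤
      ENNReal.ofReal (|Ac 0| * (K1 * (K * M) ^ C1)) *
        (∑ i, ∫⁻ y in Metric.ball (z i) ρ, G i y ^ (p - 2)) +
      ENNReal.ofReal (|Ac 0| * ((K ^ (N + 1))⁻¹ * (Fintype.card ι : ℝ) ^ p)) := by
    refine le_trans (le_of_eq ?_) hact
    refine lintegral_congr fun t => lintegral_congr fun x => ?_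
    simp only [hf1, (hS _).sli]
  have e2 : ∫⁻ t : ℝ, ∫⁻ x : E m, f2 (t, x) ≤
      ENNReal.ofReal ((K ^ (N + 1))⁻¹ * (Fintype.card ι : ℝ) ^ p) := by
    refine le_trans (le_of_eq ?_) hina
    refine lintegral_congr fun t => lintegral_congr fun x => ?_
    simp only [hf2, (hS _).sli]
  unfold Bnd
  rw [lintegral_slice U _ hFm]
  calc ∫⁻ t : ℝ, ∫⁻ x : E m, ‖∑ i, uu (a i) (q i) (U (join x t))‖ₑ ^ p
      ≤ ∫⁻ t : ℝ, ∫⁻ x : E m, ENNReal.ofReal c1 * (f1 (t, x) + f2 (t, x)) :=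
        lintegral_mono fun t => lintegral_mono fun x => hpt t x
    _ = ENNReal.ofReal c1 * ((∫⁻ t : ℝ, ∫⁻ x : E m, f1 (t, x)) +
          ∫⁻ t : ℝ, ∫⁻ x : E m, f2 (t, x)) := by
        rw [← lintegral_add_left hf1m.lintegral_prod_right',
          ← lintegral_const_mul' _ _ ENNReal.ofReal_ne_top]
        refine lintegral_congr fun t => ?_
        have h1 : Measurable fun x : E m => f1 (t, x) := hf1m.comp measurable_prodMk_left
        rw [lintegral_const_mul' _ _ ENNReal.ofReal_ne_top, lintegral_add_left h1]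
    _ ≤ ENNReal.ofReal c1 * ((ENNReal.ofReal (|Ac 0| * (K1 * (K * M) ^ C1)) *
        (∑ i, ∫⁻ y in Metric.ball (z i) ρ, G i y ^ (p - 2)) +
        ENNReal.ofReal (|Ac 0| * ((K ^ (N + 1))⁻¹ * (Fintype.card ι : ℝ) ^ p))) +
        ENNReal.ofReal ((K ^ (N + 1))⁻¹ * (Fintype.card ι : ℝ) ^ p)) := by gcongr
    _ = ENNReal.ofReal (c1 * (|Ac 0| * (K1 * (K * M) ^ C1))) *
        (∑ i, ∫⁻ y in Metric.ball (z i) ρ, G i y ^ (p - 2)) +
        ENNReal.ofReal (c1 * ((|Ac 0| + 1) * ((K ^ (N + 1))⁻¹ * (Fintype.card ι : ℝ) ^ p))) := by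
        rw [add_assoc, ← ENNReal.ofReal_add (by positivity) (by positivity), mul_add,
          ← ENNReal.ofReal_mul hc10.le, ← mul_assoc, ← ENNReal.ofReal_mul hc10.le]
        congr 3
        ring
    _ ≤ _ := by
        have h1 : c1 * (|Ac 0| * (K1 * (K * M) ^ C1)) ≤
            max K1 (max K2 (max (c1 * (|Ac 0| + 1)) 2)) * (K * M) ^ (C1 + 1) := by
          have h2 : c1 * |Ac 0| ≤ K * M := by
            have : K ≤ K * M := by nlinarith
            nlinarith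
          have h3 : K1 ≤ max K1 (max K2 (max (c1 * (|Ac 0| + 1)) 2)) := le_max_left _ _
          calc c1 * (|Ac 0| * (K1 * (K * M) ^ C1)) = (c1 * |Ac 0|) * (K1 * (K * M) ^ C1) := by ring
            _ ≤ (K * M) * (max K1 (max K2 (max (c1 * (|Ac 0| + 1)) 2)) * (K * M) ^ C1) := by
                gcongr
            _ = _ := by ring
        have h4 : c1 * ((|Ac 0| + 1) * ((K ^ (N + 1))⁻¹ * (Fintype.card ι : ℝ) ^ p)) ≤
            (K ^ N)⁻¹ * (Fintype.card ι : ℝ) ^ p := by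
          have h5 : c1 * (|Ac 0| + 1) * K⁻¹ ≤ 1 := by
            rw [← div_eq_mul_inv, div_le_one hK0]
            exact hKc
          calc c1 * ((|Ac 0| + 1) * ((K ^ (N + 1))⁻¹ * (Fintype.card ι : ℝ) ^ p)) =
                (c1 * (|Ac 0| + 1) * K⁻¹) * ((K ^ N)⁻¹ * (Fintype.card ι : ℝ) ^ p) := by
                rw [pow_succ, mul_inv]
                ring
            _ ≤ 1 * ((K ^ N)⁻¹ * (Fintype.card ι : ℝ) ^ p) := by
                gcongr
            _ = _ := one_mul _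
        gcongr

end Pool.Agent.GNP
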