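import Pool.Agent.GNP.TERM0
import Pool.Agent.GNP.Defs5

/-!
The terminal bound for a family of cells (definitions of `Defs5`).
-/

namespace Pool.Agent.GNP

open MeasureTheory Set Pool.Agent.MP_6cbfb8_an
open scoped ENNReal Real RealInnerProductSpace ContDiff

/-- Overlap of the balls, from the case `F = ⊥` of `Mult`. -/
theorem Mult.overlap {m : ℕ} {ι : Type} {M : ℕ} {ρ : ℝ} {z : ι → E m} {q : ι → E m → ℝ}
    (h : Mult M ρ z q) (y : E m) : {i : ι | y ∈ Metric.ball (z i) ρ}.encard ≤ M := by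
  have h1 := h ⊥ y 0
  refine le_trans ?_ h1
  have hinj : Function.Injective fun i : ι => (i, y) := fun i j hij => by
    simpa using hij
  rw [← hinj.encard_image]
  refine Set.encard_le_encard ?_
  rintro _ ⟨i, hi, rfl⟩
  refine ⟨?_, ?_, ?_, ?_⟩
  · rw [← dist_eq_norm]
    exact hi
  · simp
  · intro f hf
    rw [(Submodule.mem_bot ℝ).1 hf, inner_zero_right]
  · intro f hf _
    exact (Submodule.mem_bot ℝ).1 hf

/-- Multiplicity of the gradient, from the case `F = ⊤` of `Mult`. -/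
theorem Mult.grad {m : ℕ} {ι : Type} {M : ℕ} {ρ : ℝ} {z : ι → E m} {q : ι → E m → ℝ}
    (h : Mult M ρ z q) (ξ : E m) (Z : Finset (ι × E m)) (hZ : ∀ p ∈ Z,
      p.2 ∈ Metric.ball (z p.1) ρ ∧ gr (q p.1) p.2 = ξ ∧ (Hs (q p.1) p.2).det ≠ 0) :
    Z.card ≤ M := by
  have h1 := h ⊤ 0 ξ
  have h2 : (Z : Set (ι × E m)).encard ≤ M := by
    refine le_trans (Set.encard_le_encard ?_) h1
    intro p hp
    obtain ⟨h3, h4, h5⟩ := hZ p hp
    refine ⟨?_, Submodule.mem_top, ?_, ?_⟩
    · rw [← dist_eq_norm]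
      exact h3
    · intro f _
      rw [h4, sub_self, inner_zero_left]
    · intro f _ hf
      have h6 : Hs (q p.1) p.2 f = 0 := by
        refine ext_inner_right ℝ fun g => ?_
        rw [hf g Submodule.mem_top, inner_zero_left]
      by_contra h7
      refine h5 ?_
      have h8 : LinearMap.ker ((Hs (q p.1) p.2 : E m →L[ℝ] E m) : E m →ₗ[ℝ] E m) ≠ ⊥ := by
        intro h9
        refine h7 ?_
        have h10 : f ∈ LinearMap.ker ((Hs (q p.1) p.2 : E m →L[ℝ] E m) : E m →ₗ[ℝ] E m) := h6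
        rw [h9] at h10
        exact (Submodule.mem_bot ℝ).1 h10
      exact LinearMap.det_eq_zero_iff_ker_ne_bot.2 h8
  rw [Set.encard_coe_eq_coe_finsetCard] at h2
  exact_mod_cast h2

/-- The sum of the volumes of the balls. -/
theorem Mult.vol {m : ℕ} {ι : Type} [Fintype ι] {M : ℕ} {ρ : ℝ} {z : ι → E m}
    {q : ι → E m → ℝ} (h : Mult M ρ z q) (hρ : ρ ≤ 1) {n0 : ℝ} (hz : ∀ i, ‖z i‖ ≤ n0) :
    ∑ i, volume (Metric.ball (z i) ρ) ≤ M * volume (Metric.closedBall (0 : E m) (n0 + 1)) := by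
  classical
  have h1 : ∀ i, volume (Metric.ball (z i) ρ) =
      ∫⁻ y, (Metric.ball (z i) ρ).indicator (fun _ => (1 : ℝ≥0∞)) y := fun i => by
    rw [lintegral_indicator_const Metric.isOpen_ball.measurableSet, one_mul]
  have h2 : (M : ℝ≥0∞) * volume (Metric.closedBall (0 : E m) (n0 + 1)) =
      ∫⁻ y, (Metric.closedBall (0 : E m) (n0 + 1)).indicator (fun _ => (M : ℝ≥0∞)) y := by
    rw [lintegral_indicator_const measurableSet_closedBall]
  simp_rw [h1]
  rw [h2, ← lintegral_finsetSum _ fun i _ =>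
    (measurable_const.indicator Metric.isOpen_ball.measurableSet)]
  refine lintegral_mono fun y => ?_
  by_cases hy : y ∈ Metric.closedBall (0 : E m) (n0 + 1)
  · rw [indicator_of_mem hy]
    have h3 : ∑ i, (Metric.ball (z i) ρ).indicator (fun _ => (1 : ℝ≥0∞)) y =
        ((Finset.univ.filter fun i => y ∈ Metric.ball (z i) ρ).card : ℝ≥0∞) := by
      rw [Finset.card_filter, Nat.cast_sum]
      refine Finset.sum_congr rfl fun i _ => ?_
      by_cases hi : y ∈ Metric.ball (z i) ρ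
      · rw [indicator_of_mem hi, if_pos hi, Nat.cast_one]
      · rw [indicator_of_notMem hi, if_neg hi, Nat.cast_zero]
    rw [h3]
    have h4 := h.overlap y
    have h5 : {i : ι | y ∈ Metric.ball (z i) ρ} =
        ((Finset.univ.filter fun i => y ∈ Metric.ball (z i) ρ : Finset ι) : Set ι) := by
      ext i
      simp
    rw [h5, Set.encard_coe_eq_coe_finsetCard] at h4
    have h6 : (Finset.univ.filter fun i => y ∈ Metric.ball (z i) ρ).card ≤ M := by
      exact_mod_cast h4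
    exact Nat.cast_le.2 h6
  · rw [indicator_of_notMem hy]
    refine le_of_eq (Finset.sum_eq_zero fun i _ => ?_)
    refine indicator_of_notMem (fun hi => hy ?_) _
    rw [Metric.mem_closedBall, dist_zero_right]
    rw [Metric.mem_ball, dist_eq_norm] at hi
    calc ‖y‖ = ‖(y - z i) + z i‖ := by rw [sub_add_cancel]
      _ ≤ ‖y - z i‖ + ‖z i‖ := norm_add_le _ _
      _ ≤ n0 + 1 := by linarith [hz i]

/-- TERM. -/
theorem term (m : ℕ) (p : ℝ) (hp : 2 < p) : ∃ C1 : ℕ, ∀ (A B : ℕ → ℝ) (n0 N : ℕ), ∃ K0 : ℝ,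
    1 ≤ K0 ∧ ∀ K, K0 ≤ K →
    ∀ (ι : Type) [Fintype ι] (z : ι → E m) (q : ι → E m → ℝ) (a : ι → E m → ℂ) (ρ : ℝ) (M : ℕ)
      (G : ι → E m → ℝ≥0∞),
      (K ^ n0)⁻¹ ≤ ρ → ρ ≤ 1 → (∀ i, ‖z i‖ ≤ n0) →
      (∀ i, Cel m A B (1 / 2) ρ (K ^ 2 / ρ ^ 2) (z i) (q i) (a i)) → Mult M ρ z q →
      (∀ i, Measurable (G i)) →
      (∀ i y w, ‖y - z i‖ < ρ → 0 ≤ w → w ≤ 1 → w * (ρ ^ m * |(Hs (q i) y).det|) ≤ 1 →
        ENNReal.ofReal w ≤ G i y) →
      Bnd p K0 K M C1 N ρ z q a G := by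
  set al : ℝ := p - 2 with hal
  have hal0 : 0 < al := by linarith
  obtain ⟨C1, hC1⟩ := exists_nat_ge (max (1 + al) (2 * m * al))
  refine ⟨C1, fun A B n0 N => ?_⟩
  set A' : ℕ → ℝ := fun j => |A j| + |B j| with hA'
  obtain ⟨C, hC, H⟩ := term_fam m A' al hal0
  set Kh : ℝ := max 1 |A 2| with hKh
  have hKh1 : 1 ≤ Kh := le_max_left _ _
  set v : ℝ := (volume (Metric.closedBall (0 : E m) (n0 + 1))).toReal with hv
  have hvt : volume (Metric.closedBall (0 : E m) (n0 + 1)) ≠ ⊤ :=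
    (isCompact_closedBall (0 : E m) _).measure_ne_top
  have hv0 : 0 ≤ v := ENNReal.toReal_nonneg
  refine ⟨2 + C * Kh ^ (m * al / 2) * (v + 1) ^ al, ?_, ?_⟩
  · have : 0 ≤ C * Kh ^ (m * al / 2) * (v + 1) ^ al := by positivity
    linarith
  intro K hK ι _ z q a ρ M G hρK hρ1 hz hcel hMu hG hw
  have hc0 : 0 ≤ C * Kh ^ (m * al / 2) * (v + 1) ^ al := by positivity
  have hK2 : 2 ≤ K := by linarith
  have hK0 : 0 < K := by linarith
  have hρ0 : 0 < ρ := lt_of_lt_of_le (by positivity) hρK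
  have hp2 : p = 2 + al := by rw [hal]; ring
  unfold Bnd
  rw [← hal]
  -- the empty family
  rcases isEmpty_or_nonempty ι with hι | ⟨⟨i0⟩⟩
  · have h1 : ∫⁻ x, ‖∑ i, uu (a i) (q i) x‖ₑ ^ p = 0 := by
      simp [show (0 : ℝ) < p by linarith]
    rw [h1]
    exact zero_le
  have hM1 : 1 ≤ M := by
    have h1 := hMu.overlap (z i0)
    have h2 : (1 : ℕ∞) ≤ {i : ι | z i0 ∈ Metric.ball (z i) ρ}.encard := by
      rw [Set.one_le_encard_iff_nonempty]
      exact ⟨i0, Metric.mem_ball_self hρ0⟩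
    exact_mod_cast h2.trans h1
  have hM1' : (1 : ℝ) ≤ M := by exact_mod_cast hM1
  -- the scale
  set R : ℝ := K ^ 2 / ρ with hR
  have hKK : 1 ≤ K ^ 2 := one_le_pow₀ (by linarith)
  have hR1 : 1 ≤ R := by
    rw [hR, le_div_iff₀ hρ0]
    linarith
  have hρR : ρ⁻¹ ≤ R := by
    rw [hR, inv_eq_one_div]
    exact div_le_div_of_nonneg_right hKK hρ0.le
  have hT : K ^ 2 / ρ ^ 2 * ρ ^ 2 = K ^ 2 := by field_simp
  have hcell : ∀ i ∈ (Finset.univ : Finset ι),
      CellK m A' (n0 + 1) R Kh (a i) (q i) (Metric.ball (z i) ρ) := by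
    intro i _
    obtain ⟨h1, h2, h3, h4, h5⟩ := hcel i
    refine ⟨⟨h2, ?_, ?_⟩, h1, Metric.isOpen_ball.measurableSet, ?_, ?_, ?_⟩
    · intro y hy
      refine h3 y ?_
      have h6 : ‖y‖ ≤ ‖y - z i‖ + ‖z i‖ := by
        calc ‖y‖ = ‖(y - z i) + z i‖ := by rw [sub_add_cancel]
          _ ≤ _ := norm_add_le _ _
      have h7 := hz i
      linarith
    · intro j y
      refine (h4 j y).trans ?_
      rw [div_eq_mul_inv, ← inv_pow]
      calc B j * ρ⁻¹ ^ j ≤ |B j| * ρ⁻¹ ^ j :=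
            mul_le_mul_of_nonneg_right (le_abs_self _) (by positivity)
        _ ≤ |B j| * R ^ j :=
            mul_le_mul_of_nonneg_left (pow_le_pow_left₀ (by positivity) hρR j) (abs_nonneg _)
        _ ≤ A' j * R ^ j := by
            refine mul_le_mul_of_nonneg_right ?_ (by positivity)
            simp only [hA']
            linarith [abs_nonneg (A j)]
    · intro y hy u hu
      have h6 : ‖y - z i‖ ≤ 1 / 2 * ρ := by
        by_contra h7
        exact hy (h3 y (not_le.1 h7))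
      rw [Metric.mem_closedBall] at hu
      rw [Metric.mem_ball]
      have h7 : 3 / 4 / R ≤ 3 / 16 * ρ := by
        rw [hR, div_div_eq_mul_div, div_le_iff₀ (by positivity)]
        have hK4 : 4 ≤ K ^ 2 := by nlinarith
        have h8 : 3 / 16 * ρ * 4 ≤ 3 / 16 * ρ * K ^ 2 :=
          mul_le_mul_of_nonneg_left hK4 (by positivity)
        linarith
      calc dist u (z i) ≤ dist u y + dist y (z i) := dist_triangle _ _ _
        _ ≤ 3 / 16 * ρ + 1 / 2 * ρ := add_le_add (hu.trans h7) (by rw [dist_eq_norm]; exact h6)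
        _ < ρ := by linarith
    · intro y hy j hj
      rw [Metric.mem_ball, dist_eq_norm] at hy
      refine (h5 j (by omega) y hy.le).trans ?_
      rw [hT]
      have h6 : (K ^ 2) / ρ ^ j ≤ R ^ j := by
        rw [hR, div_pow]
        refine div_le_div_of_nonneg_right ?_ (by positivity)
        exact le_self_pow₀ hKK (by omega)
      calc A j * K ^ 2 / ρ ^ j = A j * (K ^ 2 / ρ ^ j) := by ring
        _ ≤ |A j| * (K ^ 2 / ρ ^ j) :=
            mul_le_mul_of_nonneg_right (le_abs_self _) (by positivity)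
        _ ≤ |A j| * R ^ j := mul_le_mul_of_nonneg_left h6 (abs_nonneg _)
        _ ≤ A' j * R ^ j := by
            refine mul_le_mul_of_nonneg_right ?_ (by positivity)
            simp only [hA']
            linarith [abs_nonneg (B j)]
    · intro y hy
      rw [Metric.mem_ball, dist_eq_norm] at hy
      refine (norm_Hs_le h1 y).trans ((h5 2 le_rfl y hy.le).trans ?_)
      rw [hT]
      have h6 : (K ^ 2) / ρ ^ 2 ≤ R ^ 2 := by
        rw [hR, div_pow]
        refine div_le_div_of_nonneg_right ?_ (by positivity)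
        exact le_self_pow₀ hKK (by omega)
      calc A 2 * K ^ 2 / ρ ^ 2 = A 2 * (K ^ 2 / ρ ^ 2) := by ring
        _ ≤ Kh * (K ^ 2 / ρ ^ 2) :=
            mul_le_mul_of_nonneg_right ((le_abs_self _).trans (le_max_right _ _)) (by positivity)
        _ ≤ Kh * R ^ 2 := mul_le_mul_of_nonneg_left h6 (by positivity)
  have hov : ∀ y, {i ∈ ((Finset.univ : Finset ι) : Set ι) | y ∈ Metric.ball (z i) ρ}.ncard ≤ M := by
    intro y
    have h1 := hMu.overlap y
    have h2 : {i ∈ ((Finset.univ : Finset ι) : Set ι) | y ∈ Metric.ball (z i) ρ} =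
        {i : ι | y ∈ Metric.ball (z i) ρ} := by
      ext i
      simp
    rw [h2]
    rw [← Set.Finite.cast_ncard_eq (Set.toFinite _)] at h1
    exact_mod_cast h1
  have hgr : ∀ᵐ ξ : E m, ∀ Z : Finset (ι × E m), (∀ p ∈ Z, p.1 ∈ (Finset.univ : Finset ι) ∧
      p.2 ∈ Metric.ball (z p.1) ρ ∧ gr (q p.1) p.2 = ξ ∧ (Hs (q p.1) p.2).det ≠ 0) →
        Z.card ≤ M := Filter.Eventually.of_forall fun ξ Z hZ => hMu.grad ξ Z fun p hp => (hZ p hp).2
  have hvol : ∑ i ∈ (Finset.univ : Finset ι), volume (Metric.ball (z i) ρ) ≤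
      ENNReal.ofReal (M * v) := by
    refine (hMu.vol hρ1 hz).trans (le_of_eq ?_)
    rw [ENNReal.ofReal_mul (by positivity), hv, ENNReal.ofReal_toReal hvt, ENNReal.ofReal_natCast]
  have h1 := H Finset.univ a q (fun i => Metric.ball (z i) ρ) (n0 + 1) R Kh (M * v) M M hR1 hKh1
    (by positivity) hcell hov hgr hvol
  rw [hp2]
  refine le_trans (b := ENNReal.ofReal ((2 + C * Kh ^ (m * al / 2) * (v + 1) ^ al) *
    (K * M) ^ C1) * ∑ i, ∫⁻ y in Metric.ball (z i) ρ, G i y ^ al) ?_ ?_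
  swap
  · first
    | exact le_self_add
    | exact mul_le_mul_right (Finset.sum_le_sum fun i _ => lintegral_mono fun y => le_self_add) _
  refine h1.trans ?_
  -- the majorants
  have h2 : ∀ i, ∫⁻ y in Metric.ball (z i) ρ,
      ENNReal.ofReal ((max 1 (|(Hs (q i) y).det| / R ^ m))⁻¹ ^ al) ≤
        ENNReal.ofReal (K ^ (2 * m * al)) * ∫⁻ y in Metric.ball (z i) ρ, G i y ^ al := by
    intro i
    rw [← lintegral_const_mul' _ _ ENNReal.ofReal_ne_top]
    refine setLIntegral_mono' Metric.isOpen_ball.measurableSet fun y hy => ?_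
    rw [Metric.mem_ball, dist_eq_norm] at hy
    set D : ℝ := |(Hs (q i) y).det| with hD
    have hD0 : 0 ≤ D := abs_nonneg _
    set w : ℝ := (max 1 (ρ ^ m * D))⁻¹ with hwd
    have hmx : 1 ≤ max 1 (ρ ^ m * D) := le_max_left _ _
    have hmx0 : 0 < max 1 (ρ ^ m * D) := by linarith
    have hw0 : 0 ≤ w := by positivity
    have hw1 : w ≤ 1 := inv_le_one_of_one_le₀ hmx
    have hw2 : w * (ρ ^ m * D) ≤ 1 := by
      calc w * (ρ ^ m * D) ≤ w * max 1 (ρ ^ m * D) :=
            mul_le_mul_of_nonneg_left (le_max_right _ _) hw0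
        _ = 1 := inv_mul_cancel₀ hmx0.ne'
    have h3 := hw i y w hy hw0 hw1 hw2
    have h4 : (max 1 (D / R ^ m))⁻¹ ≤ K ^ (2 * m) * w := by
      have h5 : max 1 (ρ ^ m * D) ≤ K ^ (2 * m) * max 1 (D / R ^ m) := by
        refine max_le ?_ ?_
        · have h6 : 1 ≤ K ^ (2 * m) := one_le_pow₀ (by linarith)
          have h7 : 1 ≤ max 1 (D / R ^ m) := le_max_left _ _
          nlinarith
        · calc ρ ^ m * D = K ^ (2 * m) * (D / R ^ m) := by
                rw [hR, div_pow, ← pow_mul]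
                field_simp
            _ ≤ K ^ (2 * m) * max 1 (D / R ^ m) :=
                mul_le_mul_of_nonneg_left (le_max_right _ _) (by positivity)
      rw [hwd, ← div_eq_mul_inv, le_div_iff₀ hmx0, inv_mul_le_iff₀ (by positivity)]
      calc max 1 (ρ ^ m * D) ≤ K ^ (2 * m) * max 1 (D / R ^ m) := h5
        _ = max 1 (D / R ^ m) * K ^ (2 * m) := mul_comm _ _
    calc ENNReal.ofReal ((max 1 (D / R ^ m))⁻¹ ^ al)
        ≤ ENNReal.ofReal ((K ^ (2 * m) * w) ^ al) :=
          ENNReal.ofReal_le_ofReal (Real.rpow_le_rpow (by positivity) h4 hal0.le)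
      _ = ENNReal.ofReal (K ^ (2 * m * al)) * ENNReal.ofReal w ^ al := by
          rw [Real.mul_rpow (by positivity) hw0, ENNReal.ofReal_mul (by positivity),
            ← ENNReal.ofReal_rpow_of_nonneg hw0 hal0.le, ← Real.rpow_natCast K (2 * m),
            ← Real.rpow_mul hK0.le]
          push_cast
          rfl
      _ ≤ ENNReal.ofReal (K ^ (2 * m * al)) * G i y ^ al :=
          mul_le_mul_right (ENNReal.rpow_le_rpow h3 hal0.le) _
  refine (mul_le_mul_right (Finset.sum_le_sum fun i _ => h2 i) _).trans ?_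
  rw [← Finset.mul_sum, ← mul_assoc, ← ENNReal.ofReal_mul (by positivity)]
  refine mul_le_mul_left (ENNReal.ofReal_le_ofReal ?_) _
  -- the constants
  have h5 : (M * v + M : ℝ) ^ al = (M : ℝ) ^ al * (v + 1) ^ al := by
    rw [show (M * v + M : ℝ) = M * (v + 1) by ring, Real.mul_rpow (by positivity) (by positivity)]
  have h6 : (M : ℝ) * (M : ℝ) ^ al ≤ (M : ℝ) ^ C1 := by
    have h7 : (M : ℝ) * (M : ℝ) ^ al = (M : ℝ) ^ (1 + al) := by
      rw [Real.rpow_add (by linarith), Real.rpow_one]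
    rw [h7, ← Real.rpow_natCast]
    exact Real.rpow_le_rpow_of_exponent_le hM1' ((le_max_left _ _).trans hC1)
  have h7 : K ^ (2 * m * al) ≤ K ^ C1 := by
    rw [← Real.rpow_natCast K C1]
    exact Real.rpow_le_rpow_of_exponent_le (by linarith) ((le_max_right _ _).trans hC1)
  have h8 : (M : ℝ) * (M : ℝ) ^ al * K ^ (2 * m * al) ≤ (K * M) ^ C1 := by
    rw [mul_pow, mul_comm (K ^ C1)]
    exact mul_le_mul h6 h7 (by positivity) (by positivity)
  calc C * M * Kh ^ (m * al / 2) * (M * v + M) ^ al * K ^ (2 * m * al)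
      = (C * Kh ^ (m * al / 2) * (v + 1) ^ al) *
          ((M : ℝ) * (M : ℝ) ^ al * K ^ (2 * m * al)) := by
        rw [h5]
        ring
    _ ≤ (2 + C * Kh ^ (m * al / 2) * (v + 1) ^ al) * (K * M) ^ C1 :=
        mul_le_mul (by linarith) h8 (by positivity) (by positivity)

end Pool.Agent.GNP
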