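import Pool.Agent.GNP.Defs4

/-! Levels: comparability of the stopping scale `Lm` on balls of radius `C / Lm`. -/

namespace Pool.Agent.GNP

open MeasureTheory Set Metric Pool.Agent.MP_6cbfb8_an
open scoped ENNReal Real RealInnerProductSpace ContDiff

theorem Lm_cont {d : ℕ} (J : ℕ) (κ : ℝ) {q : E d → ℝ} (hq : ContDiff ℝ ∞ q) :
    Continuous (Lm J κ q) := by
  refine continuous_const.add (continuous_finsetSum _ fun j _ => ?_)
  have h1 : Continuous fun y => ‖iteratedFDeriv ℝ j q y‖ :=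
    (hq.continuous_iteratedFDeriv (m := j) (by exact_mod_cast le_top)).norm
  exact h1.rpow_const fun _ => Or.inr (by positivity)

theorem Lm_ge {d : ℕ} (J : ℕ) (κ : ℝ) (q : E d → ℝ) (y : E d) : κ ≤ Lm J κ q y :=
  le_add_of_nonneg_right (Finset.sum_nonneg fun _ _ => Real.rpow_nonneg (norm_nonneg _) _)

theorem der_le_Lm {d : ℕ} {J : ℕ} {κ : ℝ} (hκ : 0 ≤ κ) (q : E d → ℝ) (y : E d) {j : ℕ}
    (h3 : 3 ≤ j) (hj : j ≤ J) : ‖iteratedFDeriv ℝ j q y‖ ≤ Lm J κ q y ^ j := by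
  have h1 : ‖iteratedFDeriv ℝ j q y‖ ^ ((j : ℝ)⁻¹) ≤ Lm J κ q y := by
    have h2 : ‖iteratedFDeriv ℝ j q y‖ ^ ((j : ℝ)⁻¹) ≤
        ∑ j ∈ Finset.Icc 3 J, ‖iteratedFDeriv ℝ j q y‖ ^ ((j : ℝ)⁻¹) :=
      Finset.single_le_sum (f := fun j => ‖iteratedFDeriv ℝ j q y‖ ^ ((j : ℝ)⁻¹))
        (fun i _ => Real.rpow_nonneg (norm_nonneg _) _) (Finset.mem_Icc.2 ⟨h3, hj⟩)
    unfold Lm
    linarith
  have h2 : (‖iteratedFDeriv ℝ j q y‖ ^ ((j : ℝ)⁻¹)) ^ j = ‖iteratedFDeriv ℝ j q y‖ :=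
    Real.rpow_inv_natCast_pow (norm_nonneg _) (by omega)
  rw [← h2]
  exact pow_le_pow_left₀ (Real.rpow_nonneg (norm_nonneg _) _) h1 j

/-- the mean value theorem for the derivatives of order `j` -/
theorem der_mv {d : ℕ} {q : E d → ℝ} (hq : ContDiff ℝ ∞ q) (j : ℕ) (y : E d) {ρ B : ℝ}
    (hB : ∀ z ∈ closedBall y ρ, ‖iteratedFDeriv ℝ (j + 1) q z‖ ≤ B) {z : E d}
    (hz : z ∈ closedBall y ρ) :
    ‖iteratedFDeriv ℝ j q z‖ ≤ ‖iteratedFDeriv ℝ j q y‖ + B * ‖z - y‖ := by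
  have h0 : y ∈ closedBall y ρ := mem_closedBall_self (dist_nonneg.trans hz)
  have h1 : ‖iteratedFDeriv ℝ j q z - iteratedFDeriv ℝ j q y‖ ≤ B * ‖z - y‖ := by
    refine (convex_closedBall y ρ).norm_image_sub_le_of_norm_fderiv_le (𝕜 := ℝ)
      (fun x _ => ?_) (fun x hx => ?_) h0 hz
    · exact (hq.differentiable_iteratedFDeriv (m := j) (by
        exact_mod_cast WithTop.coe_lt_top j)).differentiableAt
    · rw [norm_fderiv_iteratedFDeriv]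
      exact hB x hx
  calc ‖iteratedFDeriv ℝ j q z‖ =
        ‖iteratedFDeriv ℝ j q y + (iteratedFDeriv ℝ j q z - iteratedFDeriv ℝ j q y)‖ := by
          rw [add_sub_cancel]
    _ ≤ _ := (norm_add_le _ _).trans (by linarith)

/-- the constants of `Lm_der` -/
noncomputable def lmc (J : ℕ) (A : ℕ → ℝ) (C1 : ℝ) : ℕ → ℝ
  | 0 => |A (J + 1)|
  | k + 1 => 1 + C1 * lmc J A C1 k

theorem lmc_nonneg (J : ℕ) (A : ℕ → ℝ) {C1 : ℝ} (hC1 : 0 ≤ C1) (k : ℕ) : 0 ≤ lmc J A C1 k := by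
  induction k with
  | zero => exact abs_nonneg _
  | succ k ih => exact add_nonneg zero_le_one (mul_nonneg hC1 ih)

theorem Lm_der {d J : ℕ} {A : ℕ → ℝ} {C1 : ℝ} (hC1 : 0 ≤ C1) {κ : ℝ} {q : E d → ℝ}
    (hκ : 0 < κ) (hq : High d J A κ q) (y : E d) (k : ℕ) (hk : k + 3 ≤ J + 1) :
    ∀ z ∈ closedBall y (C1 / Lm J κ q y),
      ‖iteratedFDeriv ℝ (J + 1 - k) q z‖ ≤ lmc J A C1 k * Lm J κ q y ^ (J + 1 - k) := by
  have hp : 0 < Lm J κ q y := hκ.trans_le (Lm_ge J κ q y)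
  induction k with
  | zero =>
    intro z _
    have h2 : κ ^ (J + 1) ≤ Lm J κ q y ^ (J + 1) := pow_le_pow_left₀ hκ.le (Lm_ge J κ q y) _
    calc ‖iteratedFDeriv ℝ (J + 1 - 0) q z‖ ≤ A (J + 1) * κ ^ (J + 1) :=
          hq.bd (J + 1) (by omega) z
      _ ≤ |A (J + 1)| * κ ^ (J + 1) :=
          mul_le_mul_of_nonneg_right (le_abs_self _) (pow_nonneg hκ.le _)
      _ ≤ |A (J + 1)| * Lm J κ q y ^ (J + 1) := mul_le_mul_of_nonneg_left h2 (abs_nonneg _)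
  | succ k ih =>
    intro z hz
    have ih' := ih (by omega)
    have hj : J + 1 - k = (J + 1 - (k + 1)) + 1 := by omega
    rw [hj] at ih'
    have h1 := der_mv hq.sm (J + 1 - (k + 1)) y ih' hz
    have h2 : ‖iteratedFDeriv ℝ (J + 1 - (k + 1)) q y‖ ≤ Lm J κ q y ^ (J + 1 - (k + 1)) :=
      der_le_Lm hκ.le q y (by omega) (by omega)
    have h3 : ‖z - y‖ ≤ C1 / Lm J κ q y := by rwa [← dist_eq_norm]
    have h4 : 0 ≤ lmc J A C1 k * Lm J κ q y ^ (J + 1 - (k + 1) + 1) :=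
      mul_nonneg (lmc_nonneg J A hC1 k) (pow_nonneg hp.le _)
    calc ‖iteratedFDeriv ℝ (J + 1 - (k + 1)) q z‖ ≤ Lm J κ q y ^ (J + 1 - (k + 1)) +
          lmc J A C1 k * Lm J κ q y ^ (J + 1 - (k + 1) + 1) * (C1 / Lm J κ q y) :=
          h1.trans (add_le_add h2 (mul_le_mul_of_nonneg_left h3 h4))
      _ = lmc J A C1 (k + 1) * Lm J κ q y ^ (J + 1 - (k + 1)) := by
          rw [lmc, pow_succ]
          field_simp

/-- the derivatives on the ball of radius `C1 / Lm y` -/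
theorem Lm_der_all (J : ℕ) (A : ℕ → ℝ) (C1 : ℝ) : ∃ A' : ℕ → ℝ, (∀ j, 0 ≤ A' j) ∧
    ∀ (d : ℕ) (κ : ℝ) (q : E d → ℝ), 1 ≤ κ → High d J A κ q →
    ∀ y w, ‖w‖ ≤ C1 / Lm J κ q y → ∀ j, 3 ≤ j →
      ‖iteratedFDeriv ℝ j q (y + w)‖ ≤ A' j * Lm J κ q y ^ j := by
  refine ⟨fun j => if j ≤ J + 1 then lmc J A |C1| (J + 1 - j) else |A j|, fun j => ?_, ?_⟩
  · dsimp only
    split_ifs
    · exact lmc_nonneg J A (abs_nonneg _) _
    · exact abs_nonneg _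
  intro d κ q hκ hq y w hw j hj
  have hκ0 : 0 < κ := zero_lt_one.trans_le hκ
  have hp : 0 < Lm J κ q y := hκ0.trans_le (Lm_ge J κ q y)
  dsimp only
  by_cases hjJ : j ≤ J + 1
  · rw [if_pos hjJ]
    have h1 := Lm_der (C1 := |C1|) (abs_nonneg _) hκ0 hq y (J + 1 - j) (by omega) (y + w)
      (by
        rw [mem_closedBall, dist_eq_norm, add_sub_cancel_left]
        exact hw.trans (div_le_div_of_nonneg_right (le_abs_self _) hp.le))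
    have h2 : J + 1 - (J + 1 - j) = j := by omega
    rwa [h2] at h1
  · rw [if_neg hjJ]
    have h2 : κ ^ (J + 1) ≤ Lm J κ q y ^ (J + 1) := pow_le_pow_left₀ hκ0.le (Lm_ge J κ q y) _
    have h3 : 1 ≤ Lm J κ q y := hκ.trans (Lm_ge J κ q y)
    calc ‖iteratedFDeriv ℝ j q (y + w)‖ ≤ A j * κ ^ (J + 1) := hq.bd j (by omega) _
      _ ≤ |A j| * κ ^ (J + 1) :=
          mul_le_mul_of_nonneg_right (le_abs_self _) (pow_nonneg hκ0.le _)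
      _ ≤ |A j| * Lm J κ q y ^ j :=
          mul_le_mul_of_nonneg_left (h2.trans (pow_le_pow_right₀ h3 (by omega)))
            (abs_nonneg _)

theorem Lm_up (J : ℕ) (A : ℕ → ℝ) (C1 : ℝ) : ∃ C : ℝ, 1 ≤ C ∧
    ∀ (d : ℕ) (κ : ℝ) (q : E d → ℝ), 1 ≤ κ → High d J A κ q →
    ∀ y w, ‖w‖ ≤ C1 / Lm J κ q y → Lm J κ q (y + w) ≤ C * Lm J κ q y := by
  obtain ⟨A', hA', h⟩ := Lm_der_all J A C1
  refine ⟨1 + ∑ j ∈ Finset.Icc 3 J, A' j ^ ((j : ℝ)⁻¹),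
    le_add_of_nonneg_right (Finset.sum_nonneg fun j _ => Real.rpow_nonneg (hA' j) _), ?_⟩
  intro d κ q hκ hq y w hw
  have hp : 0 < Lm J κ q y := (zero_lt_one.trans_le hκ).trans_le (Lm_ge J κ q y)
  have h1 : ∀ j ∈ Finset.Icc 3 J, ‖iteratedFDeriv ℝ j q (y + w)‖ ^ ((j : ℝ)⁻¹) ≤
      A' j ^ ((j : ℝ)⁻¹) * Lm J κ q y := by
    intro j hj
    have hj3 := (Finset.mem_Icc.1 hj).1
    have h2 := h d κ q hκ hq y w hw j hj3
    calc ‖iteratedFDeriv ℝ j q (y + w)‖ ^ ((j : ℝ)⁻¹) ≤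
          (A' j * Lm J κ q y ^ j) ^ ((j : ℝ)⁻¹) :=
          Real.rpow_le_rpow (norm_nonneg _) h2 (by positivity)
      _ = A' j ^ ((j : ℝ)⁻¹) * Lm J κ q y := by
          rw [Real.mul_rpow (hA' j) (pow_nonneg hp.le _), Real.pow_rpow_inv_natCast hp.le
            (by omega)]
  calc Lm J κ q (y + w) = κ +
        ∑ j ∈ Finset.Icc 3 J, ‖iteratedFDeriv ℝ j q (y + w)‖ ^ ((j : ℝ)⁻¹) := rfl
    _ ≤ Lm J κ q y + ∑ j ∈ Finset.Icc 3 J, A' j ^ ((j : ℝ)⁻¹) * Lm J κ q y :=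
        add_le_add (Lm_ge J κ q y) (Finset.sum_le_sum h1)
    _ = _ := by rw [← Finset.sum_mul]; ring

/-- (0.1): derivatives and stopping scale on the ball of radius `C1 / Lm y` -/
theorem Lm_loc (J : ℕ) (A : ℕ → ℝ) (C1 : ℝ) : ∃ (A' : ℕ → ℝ) (C : ℝ), (∀ j, 0 ≤ A' j) ∧ 1 ≤ C ∧
    ∀ (d : ℕ) (κ : ℝ) (q : E d → ℝ), 1 ≤ κ → High d J A κ q →
    ∀ y w, ‖w‖ ≤ C1 / Lm J κ q y →
      (∀ j, 3 ≤ j → ‖iteratedFDeriv ℝ j q (y + w)‖ ≤ A' j * Lm J κ q y ^ j) ∧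
      Lm J κ q (y + w) ≤ C * Lm J κ q y ∧ Lm J κ q y ≤ C * Lm J κ q (y + w) := by
  obtain ⟨A', hA', h⟩ := Lm_der_all J A C1
  obtain ⟨C2, hC2, h2⟩ := Lm_up J A C1
  obtain ⟨C3, hC3, h3⟩ := Lm_up J A (|C1| * C2)
  refine ⟨A', max C2 C3, hA', hC2.trans (le_max_left _ _), ?_⟩
  intro d κ q hκ hq y w hw
  have hκ0 : 0 < κ := zero_lt_one.trans_le hκ
  have hp : 0 < Lm J κ q y := hκ0.trans_le (Lm_ge J κ q y)
  have hp' : 0 < Lm J κ q (y + w) := hκ0.trans_le (Lm_ge J κ q (y + w))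
  have h4 := h2 d κ q hκ hq y w hw
  refine ⟨h d κ q hκ hq y w hw,
    h4.trans (mul_le_mul_of_nonneg_right (le_max_left _ _) hp.le), ?_⟩
  have h5 := h3 d κ q hκ hq (y + w) (-w) (by
    rw [norm_neg]
    refine hw.trans ((div_le_div_of_nonneg_right (le_abs_self _) hp.le).trans ?_)
    rw [div_le_div_iff₀ hp hp', mul_assoc]
    exact mul_le_mul_of_nonneg_left h4 (abs_nonneg _))
  rw [add_neg_cancel_right] at h5
  exact h5.trans (mul_le_mul_of_nonneg_right (le_max_right _ _) hp'.le)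

/-- the stopping scale is at most `κ + C L^(1/3)` -/
theorem Lm_le (J : ℕ) (A : ℕ → ℝ) : ∃ C : ℝ, 0 ≤ C ∧
    ∀ (d : ℕ) (L κ : ℝ) (q : E d → ℝ), 1 ≤ L →
    (∀ j, 3 ≤ j → ∀ y, ‖iteratedFDeriv ℝ j q y‖ ≤ A j * L) →
    ∀ y, Lm J κ q y ≤ κ + C * L ^ (1 / 3 : ℝ) := by
  refine ⟨∑ j ∈ Finset.Icc 3 J, |A j| ^ ((j : ℝ)⁻¹),
    Finset.sum_nonneg fun j _ => Real.rpow_nonneg (abs_nonneg _) _, ?_⟩
  intro d L κ q hL hd y
  unfold Lm
  rw [Finset.sum_mul]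
  refine add_le_add le_rfl (Finset.sum_le_sum fun j hj => ?_)
  have hj3 := (Finset.mem_Icc.1 hj).1
  have hj3' : (3 : ℝ) ≤ j := by exact_mod_cast hj3
  have h0 : 0 ≤ L := zero_le_one.trans hL
  calc ‖iteratedFDeriv ℝ j q y‖ ^ ((j : ℝ)⁻¹) ≤ (|A j| * L) ^ ((j : ℝ)⁻¹) :=
        Real.rpow_le_rpow (norm_nonneg _)
          ((hd j hj3 y).trans (mul_le_mul_of_nonneg_right (le_abs_self _) h0)) (by positivity)
    _ = |A j| ^ ((j : ℝ)⁻¹) * L ^ ((j : ℝ)⁻¹) := Real.mul_rpow (abs_nonneg _) h0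
    _ ≤ |A j| ^ ((j : ℝ)⁻¹) * L ^ (1 / 3 : ℝ) := by
        refine mul_le_mul_of_nonneg_left (Real.rpow_le_rpow_of_exponent_le hL ?_)
          (Real.rpow_nonneg (abs_nonneg _) _)
        rw [← one_div]
        exact one_div_le_one_div_of_le (by norm_num) hj3'

/-- the derivatives of order at most `J` are at most `Lm ^ j`, the others at most `A j Lm ^ j` -/
theorem der_le {d J : ℕ} {A : ℕ → ℝ} {κ : ℝ} {q : E d → ℝ} (hκ : 1 ≤ κ) (hq : High d J A κ q)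
    (y : E d) (j : ℕ) (h3 : 3 ≤ j) :
    ‖iteratedFDeriv ℝ j q y‖ ≤ max 1 |A j| * Lm J κ q y ^ j := by
  have hκ0 : 0 < κ := zero_lt_one.trans_le hκ
  have hp : 0 < Lm J κ q y := hκ0.trans_le (Lm_ge J κ q y)
  by_cases hjJ : j ≤ J
  · calc _ ≤ 1 * Lm J κ q y ^ j := by rw [one_mul]; exact der_le_Lm hκ0.le q y h3 hjJ
      _ ≤ _ := mul_le_mul_of_nonneg_right (le_max_left _ _) (pow_nonneg hp.le _)
  · have h2 : κ ^ (J + 1) ≤ Lm J κ q y ^ (J + 1) := pow_le_pow_left₀ hκ0.le (Lm_ge J κ q y) _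
    have h3 : 1 ≤ Lm J κ q y := hκ.trans (Lm_ge J κ q y)
    calc ‖iteratedFDeriv ℝ j q y‖ ≤ A j * κ ^ (J + 1) := hq.bd j (by omega) _
      _ ≤ |A j| * κ ^ (J + 1) :=
          mul_le_mul_of_nonneg_right (le_abs_self _) (pow_nonneg hκ0.le _)
      _ ≤ |A j| * Lm J κ q y ^ j :=
          mul_le_mul_of_nonneg_left (h2.trans (pow_le_pow_right₀ h3 (by omega)))
            (abs_nonneg _)
      _ ≤ _ := mul_le_mul_of_nonneg_right (le_max_right _ _) (pow_nonneg hp.le _)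

/-- some derivative of order between 3 and `J` is large, if `Lm` is at least `2 κ` -/
theorem exists_large (J : ℕ) : ∃ c : ℝ, 0 < c ∧ ∀ (d : ℕ) (κ : ℝ) (q : E d → ℝ), 1 ≤ κ →
    ∀ y, 2 * κ ≤ Lm J κ q y → ∃ j, 3 ≤ j ∧ j ≤ J ∧ c * Lm J κ q y ^ j ≤ ‖iteratedFDeriv ℝ j q y‖ := by
  refine ⟨((2 * (J + 1 : ℝ)) ^ J)⁻¹, by positivity, ?_⟩
  intro d κ q hκ y hy
  have hκ0 : 0 < κ := zero_lt_one.trans_le hκ
  have hp : 0 < Lm J κ q y := hκ0.trans_le (Lm_ge J κ q y)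
  by_contra hcon
  push Not at hcon
  have h1 : ∀ j ∈ Finset.Icc 3 J, ‖iteratedFDeriv ℝ j q y‖ ^ ((j : ℝ)⁻¹) ≤
      (2 * (J + 1 : ℝ))⁻¹ * Lm J κ q y := by
    intro j hj
    obtain ⟨hj3, hjJ⟩ := Finset.mem_Icc.1 hj
    have h2 := (hcon j hj3 hjJ).le
    have h3 : ((2 * (J + 1 : ℝ)) ^ J)⁻¹ ≤ ((2 * (J + 1 : ℝ))⁻¹) ^ j := by
      rw [inv_pow]
      refine inv_anti₀ (by positivity) (pow_le_pow_right₀ ?_ hjJ)
      have : (0 : ℝ) ≤ J := Nat.cast_nonneg J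
      linarith
    calc ‖iteratedFDeriv ℝ j q y‖ ^ ((j : ℝ)⁻¹) ≤
          ((((2 * (J + 1 : ℝ))⁻¹) * Lm J κ q y) ^ j) ^ ((j : ℝ)⁻¹) := by
          refine Real.rpow_le_rpow (norm_nonneg _) ?_ (by positivity)
          rw [mul_pow]
          exact h2.trans (mul_le_mul_of_nonneg_right h3 (pow_nonneg hp.le _))
      _ = (2 * (J + 1 : ℝ))⁻¹ * Lm J κ q y :=
          Real.pow_rpow_inv_natCast (by positivity) (by omega)
  have h4 : Lm J κ q y ≤ κ + (J : ℝ) * ((2 * (J + 1 : ℝ))⁻¹ * Lm J κ q y) := by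
    have h5 : ∑ j ∈ Finset.Icc 3 J, ‖iteratedFDeriv ℝ j q y‖ ^ ((j : ℝ)⁻¹) ≤
        (J : ℝ) * ((2 * (J + 1 : ℝ))⁻¹ * Lm J κ q y) := by
      calc _ ≤ ∑ j ∈ Finset.Icc 3 J, (2 * (J + 1 : ℝ))⁻¹ * Lm J κ q y := Finset.sum_le_sum h1
        _ = ((J + 1 - 3 : ℕ) : ℝ) * ((2 * (J + 1 : ℝ))⁻¹ * Lm J κ q y) := by
            rw [Finset.sum_const, Nat.card_Icc, nsmul_eq_mul]
        _ ≤ _ := mul_le_mul_of_nonneg_right (by exact_mod_cast (by omega : J + 1 - 3 ≤ J))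
            (by positivity)
    unfold Lm at h5 ⊢
    linarith
  have h6 : (J : ℝ) * ((2 * (J + 1 : ℝ))⁻¹ * Lm J κ q y) < Lm J κ q y / 2 := by
    have h7 : (J : ℝ) * (2 * (J + 1 : ℝ))⁻¹ < 1 / 2 := by
      rw [← div_eq_mul_inv, div_lt_iff₀ (by positivity)]
      linarith
    calc (J : ℝ) * ((2 * (J + 1 : ℝ))⁻¹ * Lm J κ q y) =
          (J : ℝ) * (2 * (J + 1 : ℝ))⁻¹ * Lm J κ q y := by ring
      _ < 1 / 2 * Lm J κ q y := mul_lt_mul_of_pos_right h7 hp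
      _ = _ := by ring
  linarith

/-- Row `slow` -/
theorem slow (d J : ℕ) (A : ℕ → ℝ) (m1 : ℝ) : ∃ C : ℝ, 1 ≤ C ∧ ∀ (q : E d → ℝ) (κ : ℝ), 1 ≤ κ →
    High d J A κ q → ∀ y w : E d, ‖w‖ ≤ m1 / Lm J κ q y →
      Lm J κ q (y + w) ≤ C * Lm J κ q y ∧ Lm J κ q y ≤ C * Lm J κ q (y + w) ∧
      ∀ j, 3 ≤ j → ‖iteratedFDeriv ℝ j q (y + w)‖ ≤ (C + |A j|) * Lm J κ q y ^ j := by
  obtain ⟨A', C, hA', hC, h⟩ := Lm_loc J A m1
  have hS : ∀ j ∈ Finset.range (J + 2), A' j ≤ ∑ k ∈ Finset.range (J + 2), A' k := fun j hj =>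
    Finset.single_le_sum (f := A') (fun i _ => hA' i) hj
  have hS0 : 0 ≤ ∑ k ∈ Finset.range (J + 2), A' k := Finset.sum_nonneg fun i _ => hA' i
  refine ⟨C + ∑ k ∈ Finset.range (J + 2), A' k, by linarith, ?_⟩
  intro q κ hκ hq y w hw
  obtain ⟨h1, h2, h3⟩ := h d κ q hκ hq y w hw
  have hκ0 : 0 < κ := zero_lt_one.trans_le hκ
  have hp : 0 < Lm J κ q y := hκ0.trans_le (Lm_ge J κ q y)
  have hp' : 0 < Lm J κ q (y + w) := hκ0.trans_le (Lm_ge J κ q (y + w))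
  refine ⟨h2.trans (mul_le_mul_of_nonneg_right (by linarith) hp.le),
    h3.trans (mul_le_mul_of_nonneg_right (by linarith) hp'.le), fun j hj => ?_⟩
  by_cases hjJ : j < J + 2
  · refine (h1 j hj).trans (mul_le_mul_of_nonneg_right ?_ (pow_nonneg hp.le _))
    have := hS j (Finset.mem_range.2 hjJ)
    have := abs_nonneg (A j)
    linarith
  · have h4 : κ ^ (J + 1) ≤ Lm J κ q y ^ (J + 1) := pow_le_pow_left₀ hκ0.le (Lm_ge J κ q y) _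
    have h5 : 1 ≤ Lm J κ q y := hκ.trans (Lm_ge J κ q y)
    calc ‖iteratedFDeriv ℝ j q (y + w)‖ ≤ A j * κ ^ (J + 1) := hq.bd j (by omega) _
      _ ≤ |A j| * κ ^ (J + 1) :=
          mul_le_mul_of_nonneg_right (le_abs_self _) (pow_nonneg hκ0.le _)
      _ ≤ |A j| * Lm J κ q y ^ j :=
          mul_le_mul_of_nonneg_left (h4.trans (pow_le_pow_right₀ h5 (by omega)))
            (abs_nonneg _)
      _ ≤ _ := mul_le_mul_of_nonneg_right (by linarith) (pow_nonneg hp.le _)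

theorem measurable_lv {d : ℕ} (J : ℕ) (κ : ℝ) {q : E d → ℝ} (hq : ContDiff ℝ ∞ q) :
    Measurable (lv J κ q) :=
  Nat.measurable_ceil.comp
    ((Real.measurable_log.comp (Lm_cont J κ hq).measurable).div_const _)

theorem measurableSet_Fl (d J : ℕ) (κ : ℝ) (q : E d → ℝ) (hq : ContDiff ℝ ∞ q) (r : ℝ) (m k : ℕ) :
    MeasurableSet (Fl J κ q r m k) := by
  have h1 : Measurable (lv J κ q) := measurable_lv J κ hq
  have h2 : MeasurableSet {y : E d | ‖y‖ ≤ r} := measurableSet_le measurable_norm measurable_const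
  have h3 : MeasurableSet {y : E d | k ≤ lv J κ q y + m} :=
    measurableSet_le measurable_const (h1.add_const _)
  have h4 : MeasurableSet {y : E d | lv J κ q y ≤ k + m} :=
    measurableSet_le h1 measurable_const
  exact h2.inter (h3.inter h4)

/-- The level: `2^(lv-1) < Lm ≤ 2^lv`. -/
theorem Lm_le_lv {d J : ℕ} {κ : ℝ} {q : E d → ℝ} (hκ : 0 < κ) (y : E d) :
    Lm J κ q y ≤ 2 ^ lv J κ q y := by
  have hp : 0 < Lm J κ q y := hκ.trans_le (Lm_ge J κ q y)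
  have h1 : Real.logb 2 (Lm J κ q y) ≤ (lv J κ q y : ℝ) := Nat.le_ceil _
  rwa [Real.logb_le_iff_le_rpow one_lt_two hp, Real.rpow_natCast] at h1

theorem lv_lt_Lm {d J : ℕ} {κ : ℝ} {q : E d → ℝ} (hκ : 1 ≤ κ) (y : E d) :
    (2 : ℝ) ^ lv J κ q y < 2 * Lm J κ q y := by
  have hp1 : 1 ≤ Lm J κ q y := hκ.trans (Lm_ge J κ q y)
  have hp : 0 < Lm J κ q y := zero_lt_one.trans_le hp1
  have h1 : (lv J κ q y : ℝ) < Real.logb 2 (Lm J κ q y) + 1 :=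
    Nat.ceil_lt_add_one (Real.logb_nonneg one_lt_two hp1)
  have h2 : (2 : ℝ) ^ lv J κ q y = 2 ^ ((lv J κ q y : ℝ)) := (Real.rpow_natCast _ _).symm
  rw [h2]
  calc (2 : ℝ) ^ ((lv J κ q y : ℝ)) < 2 ^ (Real.logb 2 (Lm J κ q y) + 1) :=
        Real.rpow_lt_rpow_of_exponent_lt one_lt_two h1
    _ = 2 * Lm J κ q y := by
        rw [Real.rpow_add two_pos, Real.rpow_logb two_pos (by norm_num) hp, Real.rpow_one]
        ring

end Pool.Agent.GNP
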