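import Pool.Agent.GNP.Defs5
import Pool.Agent.GNP.LV
import Pool.Agent.GNP.P0

/-! The test at the centre of a cell: consequences in the whole cell. -/

namespace Pool.Agent.GNP

open MeasureTheory Set Metric Pool.Agent.MP_6cbfb8_an
open scoped ENNReal Real RealInnerProductSpace ContDiff

/-- the constants of `tr_der` -/
noncomputable def trc (C1 : ℝ) : ℕ → ℝ
  | 0 => 1
  | k + 1 => 1 + C1 * trc C1 k

theorem trc_one_le {C1 : ℝ} (hC1 : 0 ≤ C1) (k : ℕ) : 1 ≤ trc C1 k := by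
  cases k with
  | zero => exact le_rfl
  | succ k =>
    have : 0 ≤ trc C1 k := by
      induction k with
      | zero => exact zero_le_one
      | succ k ih => exact add_nonneg zero_le_one (mul_nonneg hC1 ih)
    exact le_add_of_nonneg_right (mul_nonneg hC1 this)

theorem trc_mono {C1 : ℝ} (hC1 : 0 ≤ C1) (k : ℕ) : trc C1 k ≤ trc C1 (k + 1) := by
  induction k with
  | zero => exact trc_one_le hC1 1
  | succ k ih =>
    have h1 : trc C1 (k + 1) = 1 + C1 * trc C1 k := rfl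
    have h2 : trc C1 (k + 1 + 1) = 1 + C1 * trc C1 (k + 1) := rfl
    rw [h1, h2]
    linarith [mul_le_mul_of_nonneg_left ih hC1]

theorem trc_le {C1 : ℝ} (hC1 : 0 ≤ C1) {k n : ℕ} (h : k ≤ n) : trc C1 k ≤ trc C1 n := by
  induction n, h using Nat.le_induction with
  | base => exact le_rfl
  | succ n _ ih => exact ih.trans (trc_mono hC1 n)

/-- If the normalised derivatives of order between `i0` and `J` are at most `Y` at the centre and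
that of order `J + 1` is at most `Y` in the ball, then all of them are at most `C Y` in the ball. -/
theorem tr_der {m : ℕ} {q : E m → ℝ} (hq : ContDiff ℝ ∞ q) {J i0 : ℕ} {ζ : E m} {r C1 Y : ℝ}
    (hr : 0 < r) (hC1 : 0 ≤ C1) (hY : 0 ≤ Y)
    (h1 : ∀ j, i0 ≤ j → j ≤ J → ‖iteratedFDeriv ℝ j q ζ‖ * r ^ j ≤ Y)
    (h2 : ∀ z, ‖z - ζ‖ ≤ C1 * r → ‖iteratedFDeriv ℝ (J + 1) q z‖ * r ^ (J + 1) ≤ Y)
    (k : ℕ) (hk : i0 + k ≤ J + 1) :
    ∀ z, ‖z - ζ‖ ≤ C1 * r →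
      ‖iteratedFDeriv ℝ (J + 1 - k) q z‖ * r ^ (J + 1 - k) ≤ trc C1 k * Y := by
  induction k with
  | zero =>
    intro z hz
    rw [trc, one_mul]
    exact h2 z hz
  | succ k ih =>
    intro z hz
    have ih' := ih (by omega)
    have hj : J + 1 - k = (J + 1 - (k + 1)) + 1 := by omega
    rw [hj] at ih'
    set j := J + 1 - (k + 1) with hjdef
    have hrj : 0 < r ^ j := pow_pos hr j
    have hB : ∀ w ∈ closedBall ζ (C1 * r), ‖iteratedFDeriv ℝ (j + 1) q w‖ ≤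
        trc C1 k * Y / r ^ (j + 1) := by
      intro w hw
      rw [le_div_iff₀ (pow_pos hr _)]
      exact ih' w (by rwa [mem_closedBall, dist_eq_norm] at hw)
    have h3 := der_mv hq j ζ hB (z := z) (by rwa [mem_closedBall, dist_eq_norm])
    have h4 : ‖iteratedFDeriv ℝ j q ζ‖ * r ^ j ≤ Y := h1 j (by omega) (by omega)
    have h5 : 0 ≤ trc C1 k * Y / r ^ (j + 1) :=
      div_nonneg (mul_nonneg (zero_le_one.trans (trc_one_le hC1 k)) hY) (pow_nonneg hr.le _)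
    calc ‖iteratedFDeriv ℝ j q z‖ * r ^ j ≤
          (‖iteratedFDeriv ℝ j q ζ‖ + trc C1 k * Y / r ^ (j + 1) * ‖z - ζ‖) * r ^ j :=
          mul_le_mul_of_nonneg_right h3 hrj.le
      _ ≤ (‖iteratedFDeriv ℝ j q ζ‖ + trc C1 k * Y / r ^ (j + 1) * (C1 * r)) * r ^ j := by
          gcongr
      _ = ‖iteratedFDeriv ℝ j q ζ‖ * r ^ j + C1 * (trc C1 k * Y) := by
          rw [pow_succ]
          field_simp
      _ ≤ Y + C1 * (trc C1 k * Y) := by linarith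
      _ = trc C1 (k + 1) * Y := by rw [trc]; ring

/-- the same for the orders `j` themselves -/
theorem tr_der' {m : ℕ} {q : E m → ℝ} (hq : ContDiff ℝ ∞ q) {J i0 : ℕ} {ζ : E m} {r C1 Y : ℝ}
    (hr : 0 < r) (hC1 : 0 ≤ C1) (hY : 0 ≤ Y)
    (h1 : ∀ j, i0 ≤ j → j ≤ J → ‖iteratedFDeriv ℝ j q ζ‖ * r ^ j ≤ Y)
    (h2 : ∀ z, ‖z - ζ‖ ≤ C1 * r → ‖iteratedFDeriv ℝ (J + 1) q z‖ * r ^ (J + 1) ≤ Y)
    (j : ℕ) (hi : i0 ≤ j) (hj : j ≤ J + 1) (z : E m) (hz : ‖z - ζ‖ ≤ C1 * r) :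
    ‖iteratedFDeriv ℝ j q z‖ * r ^ j ≤ trc C1 (J + 1) * Y := by
  have h3 := tr_der hq hr hC1 hY h1 h2 (J + 1 - j) (by omega) z hz
  have h4 : J + 1 - (J + 1 - j) = j := by omega
  rw [h4] at h3
  exact h3.trans (mul_le_mul_of_nonneg_right (trc_le hC1 (by omega)) hY)

/-- the Hessian is Lipschitz in a ball -/
theorem Hs_lip' {m : ℕ} {q : E m → ℝ} (hq : ContDiff ℝ ∞ q) {ζ : E m} {ρ B : ℝ}
    (hB : ∀ w, ‖w - ζ‖ ≤ ρ → ‖iteratedFDeriv ℝ 3 q w‖ ≤ B) (z : E m) (hz : ‖z - ζ‖ ≤ ρ) :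
    ‖Hs q z - Hs q ζ‖ ≤ B * ‖z - ζ‖ := by
  have h1 : ‖Hs q z - Hs q ζ‖ =
      ‖fderiv ℝ (fderiv ℝ q) z - fderiv ℝ (fderiv ℝ q) ζ‖ := by
    rw [Hs_eq hq, Hs_eq hq, ← ContinuousLinearMap.comp_sub]
    exact (P0J m).norm_toContinuousLinearMap_comp
  have h2 : ContDiff ℝ 2 (fderiv ℝ q) := hq.fderiv_right (m := 2) (by norm_cast)
  have hd := (h2.fderiv_right (m := 1) (by norm_num)).differentiable (by norm_num)
  rw [h1]
  refine (convex_closedBall ζ ρ).norm_image_sub_le_of_norm_fderiv_le (𝕜 := ℝ)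
    (fun x _ => hd x) (fun x hx => ?_) (mem_closedBall_self ((norm_nonneg _).trans hz))
    (by rwa [mem_closedBall, dist_eq_norm])
  have h3 := norm_fderiv_two (fderiv ℝ q) x
  rw [norm_iteratedFDeriv_fderiv] at h3
  exact h3.le.trans (hB x (by rwa [mem_closedBall, dist_eq_norm] at hx))

/-- the Hessian in the ball -/
theorem tr_hes {m : ℕ} {q : E m → ℝ} (hq : ContDiff ℝ ∞ q) {ζ : E m} {r C1 Y : ℝ}
    (hr : 0 < r)
    (h1 : ∀ z, ‖z - ζ‖ ≤ C1 * r → ‖iteratedFDeriv ℝ 3 q z‖ * r ^ 3 ≤ Y)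
    (z : E m) (hz : ‖z - ζ‖ ≤ C1 * r) :
    ‖Hs q z - Hs q ζ‖ * r ^ 2 ≤ Y * (‖z - ζ‖ / r) := by
  have hB : ∀ w, ‖w - ζ‖ ≤ C1 * r → ‖iteratedFDeriv ℝ 3 q w‖ ≤ Y / r ^ 3 := by
    intro w hw
    rw [le_div_iff₀ (pow_pos hr _)]
    exact h1 w hw
  have h2 := Hs_lip' hq hB z hz
  calc ‖Hs q z - Hs q ζ‖ * r ^ 2 ≤ (Y / r ^ 3 * ‖z - ζ‖) * r ^ 2 := by gcongr
    _ = Y * (‖z - ζ‖ / r) := by
        field_simp

/-- The test at the centre `ζ` at the radius `r`. -/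
def Tst {m : ℕ} (J : ℕ) (q : E m → ℝ) (r : ℝ) (ζ : E m) : Prop :=
  ∀ j, 3 ≤ j → j ≤ J → ‖iteratedFDeriv ℝ j q ζ‖ * r ^ j ≤ max (‖Hs q ζ‖ * r ^ 2) 1

/-- A cell which passes the test: the derivatives in the cell. -/
theorem tst_pass {m : ℕ} {q : E m → ℝ} (hq : ContDiff ℝ ∞ q) {J : ℕ} {ζ : E m} {r C1 : ℝ}
    (hr : 0 < r) (hC1 : 0 ≤ C1) (hT : Tst J q r ζ)
    (h2 : ∀ z, ‖z - ζ‖ ≤ C1 * r →
      ‖iteratedFDeriv ℝ (J + 1) q z‖ * r ^ (J + 1) ≤ max (‖Hs q ζ‖ * r ^ 2) 1)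
    (j : ℕ) (hi : 2 ≤ j) (hj : j ≤ J + 1) (z : E m) (hz : ‖z - ζ‖ ≤ C1 * r) :
    ‖iteratedFDeriv ℝ j q z‖ * r ^ j ≤ trc C1 (J + 1) * max (‖Hs q ζ‖ * r ^ 2) 1 := by
  refine tr_der' hq hr hC1 (by positivity) (fun i hi2 hiJ => ?_) h2 j hi hj z hz
  rcases Nat.lt_or_ge i 3 with h | h
  · have h4 : i = 2 := by omega
    subst h4
    rw [← norm_Hs_eq hq]
    exact le_max_left _ _
  · exact hT i h hiJ

/-- If the test fails at the centre `ζ'` then at every point `y` of the cell the phase is not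
quadratic at the same scale. -/
theorem tst_fail (J : ℕ) (C1 : ℝ) (hC1 : 0 ≤ C1) : ∃ K1 : ℝ, 1 ≤ K1 ∧
    ∀ (m : ℕ) (q : E m → ℝ), ContDiff ℝ ∞ q → ∀ (ζ y : E m) (r K : ℝ), 0 < r → K1 ≤ K →
      ¬ Tst J q r ζ → ‖ζ - y‖ ≤ C1 * r →
      (∀ z, ‖z - y‖ ≤ C1 * r → ‖iteratedFDeriv ℝ (J + 1) q z‖ * r ^ (J + 1) ≤ K⁻¹) →
      ∃ j, 3 ≤ j ∧ j ≤ J ∧
        max (‖Hs q y‖ * r ^ 2) 1 ≤ K * (‖iteratedFDeriv ℝ j q y‖ * r ^ j) := by
  set c : ℝ := trc C1 (J + 1) with hc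
  have hc1 : 1 ≤ c := trc_one_le hC1 _
  refine ⟨2 * c * (1 + C1) + 1, by nlinarith [mul_nonneg (zero_le_one.trans hc1) hC1], ?_⟩
  intro m q hq ζ y r K hr hK hT hζ h2
  by_contra hcon
  push Not at hcon
  have hK0 : 0 < K := by nlinarith [mul_nonneg (zero_le_one.trans hc1) hC1]
  set Y : ℝ := max (‖Hs q y‖ * r ^ 2) 1 with hY
  have hY1 : 1 ≤ Y := le_max_right _ _
  have hY0 : 0 < Y := zero_lt_one.trans_le hY1
  have h3 : ∀ j, 3 ≤ j → j ≤ J → ‖iteratedFDeriv ℝ j q y‖ * r ^ j ≤ Y / K := by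
    intro j hj hJ
    rw [le_div_iff₀ hK0, mul_comm]
    exact (hcon j hj hJ).le
  have h4 : ∀ z, ‖z - y‖ ≤ C1 * r →
      ‖iteratedFDeriv ℝ (J + 1) q z‖ * r ^ (J + 1) ≤ Y / K := fun z hz =>
    (h2 z hz).trans (by rw [inv_eq_one_div]; gcongr)
  have h5 : ∀ j, 3 ≤ j → j ≤ J + 1 → ∀ z, ‖z - y‖ ≤ C1 * r →
      ‖iteratedFDeriv ℝ j q z‖ * r ^ j ≤ c * (Y / K) := fun j hj hJ z hz =>
    tr_der' hq hr hC1 (by positivity) h3 h4 j hj hJ z hz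
  rcases Nat.lt_or_ge J 2 with hJ2 | hJ2
  · exact hT fun j h h' => absurd (h.trans h') (by omega)
  have h6 := tr_hes hq hr (h5 3 le_rfl (by omega)) ζ hζ
  have h7 : ‖Hs q ζ - Hs q y‖ * r ^ 2 ≤ c * (Y / K) * C1 := by
    refine h6.trans (mul_le_mul_of_nonneg_left ?_ (by positivity))
    rw [div_le_iff₀ hr]
    exact hζ
  have h8 : ‖Hs q y‖ * r ^ 2 ≤ ‖Hs q ζ‖ * r ^ 2 + c * (Y / K) * C1 := by
    have h9 : ‖Hs q y‖ ≤ ‖Hs q ζ‖ + ‖Hs q ζ - Hs q y‖ := by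
      have := norm_sub_norm_le (Hs q y) (Hs q ζ)
      rw [norm_sub_rev] at this
      linarith
    have := mul_le_mul_of_nonneg_right h9 (sq_nonneg r)
    linarith
  set X : ℝ := max (‖Hs q ζ‖ * r ^ 2) 1 with hX
  have h10 : Y ≤ X + c * (Y / K) * C1 := by
    rw [hY]
    refine max_le (h8.trans ?_) ?_
    · exact add_le_add (le_max_left _ _) le_rfl
    · have : 1 ≤ X := le_max_right _ _
      have : 0 ≤ c * (Y / K) * C1 := by positivity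
      linarith
  have h11 : c * (Y / K) * (1 + C1) ≤ Y / 2 := by
    have h12 : c * (1 + C1) / K ≤ 1 / 2 := by
      rw [div_le_iff₀ hK0]
      linarith
    calc c * (Y / K) * (1 + C1) = Y * (c * (1 + C1) / K) := by ring
      _ ≤ Y * (1 / 2) := mul_le_mul_of_nonneg_left h12 hY0.le
      _ = Y / 2 := by ring
  have h13 : 0 < c * (Y / K) := by positivity
  -- the failing order
  apply hT
  intro j hj hJ
  have h14 := h5 j hj (by omega) ζ hζ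
  refine h14.trans ?_
  change c * (Y / K) ≤ X
  nlinarith

end Pool.Agent.GNP
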