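-- Pool/Agent/GNP/TR1.lean
import Pool.Agent.GNP.TRa

/-!
The tree of cells: the analysis of one cell.
-/

namespace Pool.Agent.GNP

open MeasureTheory Set Metric Pool.Agent.MP_6cbfb8_an
open scoped ENNReal Real RealInnerProductSpace ContDiff Nat

/-- Taylor's inequality for the norms of the derivatives. -/
theorem der_taylor {m : ℕ} {q : E m → ℝ} (hq : ContDiff ℝ ∞ q) (ζ : E m) {ρ : ℝ} (n : ℕ) :
    ∀ (j : ℕ) (M : ℝ), (∀ y, ‖y - ζ‖ ≤ ρ → ‖iteratedFDeriv ℝ (j + n) q y‖ ≤ M) →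
    ∀ y, ‖y - ζ‖ ≤ ρ → ‖iteratedFDeriv ℝ j q y‖ ≤
      ∑ i ∈ Finset.range n, ‖iteratedFDeriv ℝ (j + i) q ζ‖ * (‖y - ζ‖ ^ i / i !) +
        M * (‖y - ζ‖ ^ n / n !) := by
  induction n with
  | zero =>
    intro j M hM y hy
    simpa using hM y hy
  | succ n ih =>
    intro j M hM y hy
    have h1 := ih (j + 1) M (fun y hy => by
      have := hM y hy
      rwa [show j + (n + 1) = j + 1 + n by ring] at this)
    set w : E m := y - ζ with hw
    set f : ℝ → (E m) [×j]→L[ℝ] ℝ := fun s => iteratedFDeriv ℝ j q (ζ + s • w) with hf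
    set f' : ℝ → (E m) [×j]→L[ℝ] ℝ := fun s =>
      fderiv ℝ (iteratedFDeriv ℝ j q) (ζ + s • w) w with hf'
    have hd : ∀ s, HasDerivAt f (f' s) s := by
      intro s
      have h2 : DifferentiableAt ℝ (iteratedFDeriv ℝ j q) (ζ + s • w) :=
        (hq.differentiable_iteratedFDeriv (m := j) (by exact_mod_cast (ENat.natCast_lt_top j))) _
      have h3 : HasDerivAt (fun s : ℝ => ζ + s • w) w s := by
        have := ((hasDerivAt_id s).smul_const w).const_add ζ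
        simpa using this
      exact h2.hasFDerivAt.comp_hasDerivAt s h3
    set B : ℝ → ℝ := fun s => ∑ i ∈ Finset.range (n + 1),
      ‖iteratedFDeriv ℝ (j + i) q ζ‖ * ((s * ‖w‖) ^ i / i !) +
        M * ((s * ‖w‖) ^ (n + 1) / (n + 1)!) with hB
    set B' : ℝ → ℝ := fun s => ‖w‖ * (∑ i ∈ Finset.range n,
      ‖iteratedFDeriv ℝ (j + 1 + i) q ζ‖ * ((s * ‖w‖) ^ i / i !) +
        M * ((s * ‖w‖) ^ n / n !)) with hB'
    have hmono : ∀ (k : ℕ) (s : ℝ), HasDerivAt (fun s : ℝ => (s * ‖w‖) ^ (k + 1) / (k + 1)!)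
        (‖w‖ * ((s * ‖w‖) ^ k / k !)) s := by
      intro k s
      have h4 : HasDerivAt (fun s : ℝ => s * ‖w‖) ‖w‖ s := by
        simpa using (hasDerivAt_id s).mul_const ‖w‖
      have h5 := (h4.fun_pow (k + 1)).div_const ((k + 1)! : ℝ)
      refine h5.congr_deriv ?_
      rw [Nat.factorial_succ, Nat.add_sub_cancel]
      have h6 : ((k ! : ℕ) : ℝ) ≠ 0 := by positivity
      have h7 : ((k : ℝ) + 1) ≠ 0 := by positivity
      push_cast
      field_simp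
    have hBd : ∀ s, HasDerivAt B (B' s) s := by
      intro s
      have h8 : B = fun s => ‖iteratedFDeriv ℝ j q ζ‖ + (∑ i ∈ Finset.range n,
          ‖iteratedFDeriv ℝ (j + 1 + i) q ζ‖ * ((s * ‖w‖) ^ (i + 1) / (i + 1)!) +
            M * ((s * ‖w‖) ^ (n + 1) / (n + 1)!)) := by
        funext s
        simp only [hB]
        rw [Finset.sum_range_succ']
        have h9 : ∀ i, ‖iteratedFDeriv ℝ (j + (i + 1)) q ζ‖ =
            ‖iteratedFDeriv ℝ (j + 1 + i) q ζ‖ := fun i => by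
          rw [show j + (i + 1) = j + 1 + i by ring]
        have h9' : ‖iteratedFDeriv ℝ (j + 0) q ζ‖ = ‖iteratedFDeriv ℝ j q ζ‖ := rfl
        simp only [pow_zero, Nat.factorial_zero, Nat.cast_one, div_one, mul_one, h9, h9']
        ring
      have h10 : HasDerivAt (fun s : ℝ => ∑ i ∈ Finset.range n,
          ‖iteratedFDeriv ℝ (j + 1 + i) q ζ‖ * ((s * ‖w‖) ^ (i + 1) / (i + 1)!))
          (∑ i ∈ Finset.range n,
            ‖iteratedFDeriv ℝ (j + 1 + i) q ζ‖ * (‖w‖ * ((s * ‖w‖) ^ i / i !))) s :=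
        HasDerivAt.fun_sum fun i _ => (hmono i s).const_mul _
      have h11 := (h10.add ((hmono n s).const_mul M)).const_add ‖iteratedFDeriv ℝ j q ζ‖
      rw [h8]
      refine h11.congr_deriv ?_
      simp only [hB']
      rw [mul_add, Finset.mul_sum]
      congr 1
      · exact Finset.sum_congr rfl fun i _ => by ring
      · ring
    have hbound : ∀ s ∈ Ico (0:ℝ) 1, ‖f' s‖ ≤ B' s := by
      intro s hs
      have h12 : ‖(ζ + s • w) - ζ‖ = s * ‖w‖ := by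
        rw [add_sub_cancel_left, norm_smul, Real.norm_of_nonneg hs.1]
      have h13 : ‖(ζ + s • w) - ζ‖ ≤ ρ := by
        rw [h12]
        have : s * ‖w‖ ≤ 1 * ‖w‖ := by gcongr; exact hs.2.le
        linarith
      have h14 := h1 (ζ + s • w) h13
      rw [h12] at h14
      calc ‖f' s‖ ≤ ‖fderiv ℝ (iteratedFDeriv ℝ j q) (ζ + s • w)‖ * ‖w‖ :=
            ContinuousLinearMap.le_opNorm _ _
        _ = ‖iteratedFDeriv ℝ (j + 1) q (ζ + s • w)‖ * ‖w‖ := by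
            rw [norm_fderiv_iteratedFDeriv]
        _ ≤ B' s := by
            simp only [hB']
            rw [mul_comm]
            gcongr
    have hfin := image_norm_le_of_norm_deriv_right_le_deriv_boundary (f := f) (f' := f')
      (B := B) (B' := B') (a := 0) (b := 1)
      (fun s _ => (hd s).continuousAt.continuousWithinAt)
      (fun s _ => (hd s).hasDerivWithinAt) ?_ hBd hbound (x := 1) (by simp)
    · simp only [hf, hB, one_smul, one_mul] at hfin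
      rw [hw, add_sub_cancel] at hfin
      exact hfin
    · simp only [hf, hB, zero_smul, add_zero, zero_mul]
      rw [Finset.sum_range_succ']
      simp

/-- The size of the normalised derivatives of a cell at smaller scales. -/
theorem tr_hi {m : ℕ} {A : ℕ → ℝ} {n0 : ℕ} {K : ℝ} (hK : 1 ≤ K) {z : E m} {q : E m → ℝ}
    {ρ T : ℝ} (hρ : 0 < ρ) (hρ1 : ρ ≤ 1) (hT : 0 ≤ T) (hTK : T ≤ K ^ n0)
    (hbd : ∀ j, 2 ≤ j → ∀ y, ‖y - z‖ ≤ ρ →
      ‖iteratedFDeriv ℝ j q y‖ ≤ A j * (T * ρ ^ 2) / ρ ^ j) {r : ℝ} (hr : 0 < r)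
    (l : ℕ) (hKr : K ^ l * r ≤ ρ) (j : ℕ) (hj : 2 ≤ j) (y : E m) (hy : ‖y - z‖ ≤ ρ) :
    ‖iteratedFDeriv ℝ j q y‖ * r ^ j ≤ |A j| * (K ^ n0 / (K ^ l) ^ j) := by
  have hK0 : 0 < K := by linarith
  have h1 : r ≤ ρ / K ^ l := by
    rw [le_div_iff₀ (by positivity)]
    linarith
  have h2 : T * ρ ^ 2 ≤ K ^ n0 := by
    have : ρ ^ 2 ≤ 1 := pow_le_one₀ hρ.le hρ1
    calc T * ρ ^ 2 ≤ T * 1 := by gcongr
      _ ≤ K ^ n0 := by linarith
  calc ‖iteratedFDeriv ℝ j q y‖ * r ^ j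
      ≤ (A j * (T * ρ ^ 2) / ρ ^ j) * r ^ j := by
        gcongr
        exact hbd j hj y hy
    _ ≤ (|A j| * K ^ n0 / ρ ^ j) * (ρ / K ^ l) ^ j := by
        gcongr
        exact le_abs_self _
    _ = |A j| * (K ^ n0 / (K ^ l) ^ j) := by
        rw [div_pow]
        field_simp

/-- The test passes at the last scale. -/
theorem tr_end (A : ℕ → ℝ) (J n0 : ℕ) : ∃ K1 : ℝ, 1 ≤ K1 ∧ ∀ K, K1 ≤ K →
    ∀ (m : ℕ) (z : E m) (q : E m → ℝ) (ρ T : ℝ), 0 < ρ → ρ ≤ 1 → 0 ≤ T → T ≤ K ^ n0 →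
      (∀ j, 2 ≤ j → ∀ y, ‖y - z‖ ≤ ρ →
        ‖iteratedFDeriv ℝ j q y‖ ≤ A j * (T * ρ ^ 2) / ρ ^ j) →
      ∀ (ζ : E m) (r : ℝ), 0 < r → K ^ (n0 + 1) * r ≤ ρ → ‖ζ - z‖ ≤ ρ → Tst J q r ζ := by
  refine ⟨1 + ∑ j ∈ Finset.range (J + 1), |A j|, ?_, ?_⟩
  · exact le_add_of_nonneg_right (Finset.sum_nonneg fun _ _ => abs_nonneg _)
  intro K hK m z q ρ T hρ hρ1 hT hTK hbd ζ r hr hKr hζ j h3 hjJ
  have hS0 : 0 ≤ ∑ j ∈ Finset.range (J + 1), |A j| :=
    Finset.sum_nonneg fun _ _ => abs_nonneg _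
  have hK1 : 1 ≤ K := by linarith
  have hK0 : 0 < K := by linarith
  have h1 := tr_hi hK1 hρ hρ1 hT hTK hbd hr (n0 + 1) hKr j (by omega) ζ hζ
  have h2 : |A j| ≤ K := by
    have := Finset.single_le_sum (f := fun j => |A j|) (fun i _ => abs_nonneg (A i))
      (Finset.mem_range.2 (Nat.lt_succ_of_le hjJ))
    linarith
  refine (h1.trans ?_).trans (le_max_right _ _)
  have h3 : K ^ n0 * K ≤ (K ^ (n0 + 1)) ^ j := by
    rw [← pow_succ]
    exact le_self_pow₀ (one_le_pow₀ hK1) (by omega)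
  rw [mul_div_assoc', div_le_one (by positivity)]
  calc |A j| * K ^ n0 ≤ K * K ^ n0 := by gcongr
    _ = K ^ n0 * K := mul_comm _ _
    _ ≤ _ := h3

/-- A passed test gives a cell. -/
theorem tr_pass (A : ℕ → ℝ) (J n0 : ℕ) (hJ : n0 + 1 ≤ J) : ∃ K1 : ℝ, 1 ≤ K1 ∧ ∀ K, K1 ≤ K →
    ∀ (m : ℕ) (z : E m) (q : E m → ℝ) (ρ T : ℝ), ContDiff ℝ ∞ q → 0 < ρ → ρ ≤ 1 → 0 ≤ T →
      T ≤ K ^ n0 → (∀ j, 2 ≤ j → ∀ y, ‖y - z‖ ≤ ρ →
        ‖iteratedFDeriv ℝ j q y‖ ≤ A j * (T * ρ ^ 2) / ρ ^ j) →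
      ∀ (ζ : E m) (r : ℝ), 0 < r → K * r ≤ ρ → ‖ζ - z‖ + r ≤ ρ → Tst J q r ζ →
      ∀ j, 2 ≤ j → ∀ y, ‖y - ζ‖ ≤ r →
        ‖iteratedFDeriv ℝ j q y‖ ≤ (4 + |A j|) * (max ‖Hs q ζ‖ (r ^ 2)⁻¹ * r ^ 2) / r ^ j := by
  refine ⟨1 + |A (J + 1)|, by linarith [abs_nonneg (A (J + 1))], ?_⟩
  intro K hK m z q ρ T hqs hρ hρ1 hT hTK hbd ζ r hr hKr hζ htst j hj y hy
  have hA0 := abs_nonneg (A (J + 1))
  have hK1 : 1 ≤ K := by linarith
  have hK0 : 0 < K := by linarith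
  have hin : ∀ y, ‖y - ζ‖ ≤ r → ‖y - z‖ ≤ ρ := by
    intro y hy
    have h1 := norm_add_le (y - ζ) (ζ - z)
    rw [sub_add_sub_cancel] at h1
    linarith
  have hKr' : K ^ 1 * r ≤ ρ := by rwa [pow_one]
  set μ : ℝ := max (‖Hs q ζ‖ * r ^ 2) 1 with hμ
  have hμ1 : 1 ≤ μ := le_max_right _ _
  have hμeq : max ‖Hs q ζ‖ (r ^ 2)⁻¹ * r ^ 2 = μ := by
    rw [hμ, max_mul_of_nonneg _ _ (by positivity), inv_mul_cancel₀ (by positivity)]
  rw [hμeq, le_div_iff₀ (by positivity)]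
  by_cases hjJ : j ≤ J
  · -- Taylor
    have hM : ∀ y, ‖y - ζ‖ ≤ r →
        ‖iteratedFDeriv ℝ (j + (J + 1 - j)) q y‖ ≤ 1 / r ^ (J + 1) := by
      intro y hy
      have h2 : j + (J + 1 - j) = J + 1 := by omega
      rw [h2, le_div_iff₀ (by positivity)]
      have h3 := tr_hi hK1 hρ hρ1 hT hTK hbd hr 1 hKr' (J + 1) (by omega) y (hin y hy)
      refine h3.trans ?_
      rw [pow_one, mul_div_assoc', div_le_one (by positivity)]
      calc |A (J + 1)| * K ^ n0 ≤ K * K ^ n0 := by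
            gcongr
            linarith
        _ = K ^ (n0 + 1) := by rw [pow_succ]; ring
        _ ≤ K ^ (J + 1) := pow_le_pow_right₀ hK1 (by omega)
    have h4 := der_taylor hqs ζ (J + 1 - j) j _ hM y hy
    have ht : ∀ i, ‖y - ζ‖ ^ i / (i ! : ℝ) ≤ r ^ i / i ! := fun i => by gcongr
    have h5 : ∀ i ∈ Finset.range (J + 1 - j),
        ‖iteratedFDeriv ℝ (j + i) q ζ‖ * (‖y - ζ‖ ^ i / i !) * r ^ j ≤ μ * (1 ^ i / i !) := by
      intro i hi
      have hi' : j + i ≤ J := by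
        have := Finset.mem_range.1 hi
        omega
      have h6 : ‖iteratedFDeriv ℝ (j + i) q ζ‖ * r ^ (j + i) ≤ μ := by
        rcases Nat.lt_or_ge (j + i) 3 with h | h
        · have h7 : j + i = 2 := by omega
          rw [h7, ← norm_Hs_eq hqs]
          exact le_max_left _ _
        · exact htst (j + i) h hi'
      calc ‖iteratedFDeriv ℝ (j + i) q ζ‖ * (‖y - ζ‖ ^ i / i !) * r ^ j
          ≤ ‖iteratedFDeriv ℝ (j + i) q ζ‖ * (r ^ i / i !) * r ^ j := by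
            gcongr
        _ = (‖iteratedFDeriv ℝ (j + i) q ζ‖ * r ^ (j + i)) * (1 ^ i / i !) := by
            rw [pow_add, one_pow]
            ring
        _ ≤ _ := by gcongr
    have h8 : (1 / r ^ (J + 1) * (‖y - ζ‖ ^ (J + 1 - j) / (J + 1 - j)!)) * r ^ j ≤ 1 := by
      calc (1 / r ^ (J + 1) * (‖y - ζ‖ ^ (J + 1 - j) / (J + 1 - j)!)) * r ^ j
          ≤ (1 / r ^ (J + 1) * (r ^ (J + 1 - j) / 1)) * r ^ j := by
            gcongr
            exact_mod_cast Nat.one_le_iff_ne_zero.2 (Nat.factorial_ne_zero _)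
        _ = (r ^ (J + 1 - j) * r ^ j) / r ^ (J + 1) := by ring
        _ = 1 := by
            rw [← pow_add, Nat.sub_add_cancel (by omega), div_self (by positivity)]
    calc ‖iteratedFDeriv ℝ j q y‖ * r ^ j
        ≤ (∑ i ∈ Finset.range (J + 1 - j), ‖iteratedFDeriv ℝ (j + i) q ζ‖ * (‖y - ζ‖ ^ i / i !) +
            1 / r ^ (J + 1) * (‖y - ζ‖ ^ (J + 1 - j) / (J + 1 - j)!)) * r ^ j := by gcongr
      _ ≤ (∑ i ∈ Finset.range (J + 1 - j), μ * (1 ^ i / i !)) + 1 := by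
          rw [add_mul, Finset.sum_mul]
          exact add_le_add (Finset.sum_le_sum h5) h8
      _ = μ * (∑ i ∈ Finset.range (J + 1 - j), (1:ℝ) ^ i / i !) + 1 := by rw [Finset.mul_sum]
      _ ≤ μ * Real.exp 1 + μ := by
          gcongr
          exact Real.sum_le_exp_of_nonneg zero_le_one _
      _ ≤ 4 * μ := by
          have h9 := Real.exp_one_lt_d9
          nlinarith
      _ ≤ (4 + |A j|) * μ := by
          have := abs_nonneg (A j)
          nlinarith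
  · rw [not_le] at hjJ
    have h3 := tr_hi hK1 hρ hρ1 hT hTK hbd hr 1 hKr' j hj y (hin y hy)
    refine h3.trans ?_
    have h4 : K ^ n0 / (K ^ 1) ^ j ≤ 1 := by
      rw [pow_one, div_le_one (by positivity)]
      exact pow_le_pow_right₀ hK1 (by omega)
    calc |A j| * (K ^ n0 / (K ^ 1) ^ j) ≤ |A j| * 1 := by gcongr
      _ ≤ (4 + |A j|) * μ := by
          have := abs_nonneg (A j)
          nlinarith

/-- The first generation. -/
theorem tr_one {m : ℕ} {K : ℝ} (hK : 1 ≤ K) {ρ : ℝ} (hρ : 0 < ρ) (J : ℕ) (q : E m → ℝ)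
    (y : E m) : Lv K J ρ q y (ρ / K ^ 1) := by
  have hK0 : 0 < K := by linarith
  rw [pow_one]
  refine ⟨by positivity, (mul_div_cancel₀ _ hK0.ne').le, Or.inl ?_⟩
  have h1 : K ^ 2 * (ρ / K) = K * ρ := by field_simp
  rw [h1]
  nlinarith

/-- A failed test at the scale `K r` gives the level `r`. -/
theorem tr_bad (A : ℕ → ℝ) (J n0 : ℕ) (hJ : n0 + 1 ≤ J) : ∃ K1 : ℝ, 1 ≤ K1 ∧ ∀ K, K1 ≤ K →
    ∀ (m : ℕ) (z : E m) (q : E m → ℝ) (ρ T : ℝ), ContDiff ℝ ∞ q → 0 < ρ → ρ ≤ 1 → 0 ≤ T →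
      T ≤ K ^ n0 → (∀ j, 2 ≤ j → ∀ y, ‖y - z‖ ≤ ρ →
        ‖iteratedFDeriv ℝ j q y‖ ≤ A j * (T * ρ ^ 2) / ρ ^ j) →
      ∀ (ζ y : E m) (r : ℝ), 0 < r → K * (K * r) ≤ ρ → ‖ζ - y‖ ≤ K * r → ‖y - z‖ + K * r ≤ ρ →
      ¬ Tst J q (K * r) ζ → Lv K J ρ q y r := by
  obtain ⟨K1, hK1, hf⟩ := tst_fail J 1 zero_le_one
  refine ⟨K1 + |A (J + 1)|, by linarith [abs_nonneg (A (J + 1))], ?_⟩
  intro K hK m z q ρ T hqs hρ hρ1 hT hTK hbd ζ y r hr hKr hζ hy htst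
  have hA0 := abs_nonneg (A (J + 1))
  have hK1' : 1 ≤ K := by linarith
  have hK0 : 0 < K := by linarith
  refine ⟨hr, by nlinarith, Or.inr ?_⟩
  refine hf m q hqs ζ y (K * r) K (by positivity) (by linarith) htst (by rwa [one_mul]) ?_
  intro w hw
  rw [one_mul] at hw
  have hin : ‖w - z‖ ≤ ρ := by
    have h1 := norm_add_le (w - y) (y - z)
    rw [sub_add_sub_cancel] at h1
    linarith
  have hKr' : K ^ 1 * (K * r) ≤ ρ := by rwa [pow_one]
  have h3 := tr_hi hK1' hρ hρ1 hT hTK hbd (by positivity : 0 < K * r) 1 hKr' (J + 1) (by omega)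
    w hin
  refine h3.trans ?_
  rw [pow_one, mul_div_assoc', div_le_iff₀ (by positivity), inv_mul_eq_div, le_div_iff₀ hK0]
  calc |A (J + 1)| * K ^ n0 * K ≤ K * K ^ n0 * K := by
        gcongr
        linarith
    _ = K ^ (n0 + 2) := by ring
    _ ≤ K ^ (J + 1) := pow_le_pow_right₀ hK1' (by omega)

end Pool.Agent.GNP
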