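-- Pool/Agent/GNP/TREE.lean
import Pool.Agent.GNP.TR1
import Pool.Agent.GNP.N5TREE

/-! TREE: stopping cells by the test at the centre. -/

namespace Pool.Agent.GNP

open MeasureTheory Set Metric Pool.Agent.MP_6cbfb8_an
open scoped ENNReal Real RealInnerProductSpace ContDiff

/-- The cutting lemma (over `tr_tree`). -/
theorem tr_cut (m n0 : ℕ) (κ : ℝ) (hκ : 0 < κ) : ∃ c : ℕ, ∀ B : ℕ → ℝ,
    ∃ B' : ℕ → ℝ, ∀ K : ℝ, 2 ≤ K → ∀ (z : E m) (a : E m → ℂ) (ρ : ℝ), 0 < ρ →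
      ContDiff ℝ ∞ a → (∀ y, 1 / 2 * ρ < ‖y - z‖ → a y = 0) →
      (∀ j y, ‖iteratedFDeriv ℝ j a y‖ ≤ B j / ρ ^ j) →
      ∀ P : ℕ → E m → Prop, (∀ ζ, P (n0 + 1) ζ) →
      ∃ (ι : Type) (_ : Fintype ι) (l : ι → ℕ) (ζ : ι → E m) (b : ι → E m → ℂ),
        (Fintype.card ι : ℝ) ≤ K ^ (m * (n0 + 1)) * c ∧ (∀ y, a y = ∑ i, b i y) ∧
        (∀ y, {i | ‖y - ζ i‖ < ρ / K ^ l i}.encard ≤ c) ∧
        ∀ i, 1 ≤ l i ∧ l i ≤ n0 + 1 ∧ P (l i) (ζ i) ∧ ‖ζ i - z‖ ≤ (1 / 2 + 4 * κ / K) * ρ ∧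
          (2 ≤ l i → ∃ ζ', ‖ζ i - ζ'‖ ≤ 3 * κ * (ρ / K ^ (l i - 1)) ∧ ¬ P (l i - 1) ζ') ∧
          ContDiff ℝ ∞ (b i) ∧ (∀ y, κ * (ρ / K ^ l i) < ‖y - ζ i‖ → b i y = 0) ∧
          ∀ j y, ‖iteratedFDeriv ℝ j (b i) y‖ ≤ B' j / (ρ / K ^ l i) ^ j := by
  obtain ⟨O, C, hC, h⟩ := tr_tree m κ hκ n0 (1 / 2) (by norm_num)
  refine ⟨O 1 + ⌈C ^ (m * (n0 + 1))⌉₊, fun B => ?_⟩
  obtain ⟨B', hB'⟩ := h B
  refine ⟨B', fun K hK z a ρ hρ ha hsupp hbd P hP => ?_⟩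
  obtain ⟨ι, inst, l, ζ, b, hcard, hsum, hov, hi⟩ := hB' K ρ z a P hK hρ ha hsupp hbd hP
  refine ⟨ι, inst, l, ζ, b, ?_, hsum, fun y => ?_, hi⟩
  · refine hcard.trans ?_
    rw [mul_pow, mul_comm]
    refine mul_le_mul_of_nonneg_left ?_ (by positivity)
    push_cast
    have h1 := Nat.le_ceil (C ^ (m * (n0 + 1)))
    have h2 : (0 : ℝ) ≤ (O 1 : ℝ) := Nat.cast_nonneg _
    linarith
  · classical
    have h1 : {i | ‖y - ζ i‖ < ρ / K ^ l i} =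
        ((Finset.univ.filter fun i => ‖y - ζ i‖ < ρ / K ^ l i : Finset ι) : Set ι) := by
      ext i
      simp
    rw [h1, Set.encard_coe_eq_coe_finsetCard]
    have h2 := hov 1 y (Finset.univ.filter fun i => ‖y - ζ i‖ < ρ / K ^ l i) (fun i hi => by
      rw [one_mul]
      exact (Finset.mem_filter.1 hi).2.le)
    exact_mod_cast h2.trans (Nat.le_add_right _ _)

/-- Row TREE. -/
theorem tree (m : ℕ) (A : ℕ → ℝ) (κ : ℝ) (hκ : 0 < κ) (hκ1 : κ ≤ 1 / 4) (n0 : ℕ) :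
    ∃ J0 c0 : ℕ, ∀ J, J0 ≤ J → ∀ B : ℕ → ℝ, ∃ (B' : ℕ → ℝ) (K0 : ℝ), 1 ≤ K0 ∧ ∀ K, K0 ≤ K →
    ∀ (z : E m) (q : E m → ℝ) (a : E m → ℂ) (ρ T : ℝ), (K ^ n0)⁻¹ ≤ ρ → ρ ≤ 1 → 0 ≤ T →
      T ≤ K ^ n0 → Cel m A B (1 / 2) ρ T z q a →
      ∃ (ι : Type) (_ : Fintype ι) (l : ι → ℕ) (ζ : ι → E m) (b : ι → E m → ℂ),
        (Fintype.card ι : ℝ) ≤ K ^ c0 ∧ (∀ y, a y = ∑ i, b i y) ∧
        (∀ y, {i | ‖y - ζ i‖ < ρ / K ^ l i}.encard ≤ c0) ∧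
        ∀ i, 1 ≤ l i ∧ l i ≤ n0 + 1 ∧ ‖ζ i - z‖ ≤ 3 / 4 * ρ ∧
          Cel m (fun j => 4 + |A j|) B' κ (ρ / K ^ l i) (max ‖Hs q (ζ i)‖ ((ρ / K ^ l i) ^ 2)⁻¹)
            (ζ i) q (b i) ∧
          ∀ y, ‖y - ζ i‖ < ρ / K ^ l i → Lv K J ρ q y (ρ / K ^ l i) := by
  obtain ⟨c, hc⟩ := tr_cut m n0 κ hκ
  refine ⟨n0 + 1, m * (n0 + 1) + c, fun J hJ B => ?_⟩
  obtain ⟨B', hB'⟩ := hc B
  obtain ⟨K1, hK1, h1⟩ := tr_pass A J n0 hJ
  obtain ⟨K2, hK2, h2⟩ := tr_bad A J n0 hJ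
  obtain ⟨K3, hK3, h3⟩ := tr_end A J n0
  refine ⟨B', max (max K1 K2) (max K3 8), hK1.trans ((le_max_left _ _).trans (le_max_left _ _)),
    ?_⟩
  intro K hK z q a ρ T hρ0 hρ1 hT0 hT hC
  have hKK1 : K1 ≤ K := ((le_max_left _ _).trans (le_max_left _ _)).trans hK
  have hKK2 : K2 ≤ K := ((le_max_right _ _).trans (le_max_left _ _)).trans hK
  have hKK3 : K3 ≤ K := ((le_max_left _ _).trans (le_max_right _ _)).trans hK
  have hK8 : 8 ≤ K := ((le_max_right _ _).trans (le_max_right _ _)).trans hK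
  have hK0 : 1 ≤ K := by linarith
  have hKp : 0 < K := by linarith
  have hρ : 0 < ρ := lt_of_lt_of_le (by positivity) hρ0
  have hrl : ∀ l : ℕ, 0 < ρ / K ^ l := fun l => by positivity
  have hr4 : ∀ l : ℕ, 1 ≤ l → ρ / K ^ l ≤ ρ / 8 := fun l hl => by
    refine div_le_div_of_nonneg_left hρ.le (by norm_num) (hK8.trans ?_)
    exact le_self_pow₀ hK0 (by omega)
  obtain ⟨ι, inst, l, ζ, b, hcard, hsum, hov, hprop⟩ := hB' K (by linarith) z a ρ hρ hC.sma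
    hC.supp hC.bda (fun l ζ => ‖ζ - z‖ ≤ ρ → Tst J q (ρ / K ^ l) ζ)
    (fun ζ h5 => h3 K hKK3 m z q ρ T hρ hρ1 hT0 hT hC.bdq ζ _ (hrl _)
      (mul_div_cancel₀ ρ (by positivity)).le h5)
  refine ⟨ι, inst, l, ζ, b, ?_, hsum, ?_, fun i => ?_⟩
  · -- the number of cells
    refine hcard.trans ?_
    rw [pow_add K (m * (n0 + 1)) c]
    refine mul_le_mul_of_nonneg_left ?_ (by positivity)
    calc (c : ℝ) ≤ 2 ^ c := by exact_mod_cast Nat.lt_two_pow_self.le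
      _ ≤ K ^ c := pow_le_pow_left₀ zero_le_two (by linarith) c
  · intro y
    refine (hov y).trans ?_
    exact_mod_cast (by omega : c ≤ m * (n0 + 1) + c)
  · obtain ⟨hl1, hln, hF, hζ, hpar, hbs, hbsupp, hbb⟩ := hprop i
    set r : ℝ := ρ / K ^ l i with hr
    have hr0 : 0 < r := hrl _
    have hr4i : r ≤ ρ / 8 := hr4 _ hl1
    have hζ1 : ‖ζ i - z‖ ≤ 5 / 8 * ρ := by
      refine hζ.trans (mul_le_mul_of_nonneg_right ?_ hρ.le)
      have h4 : 4 * κ / K ≤ 1 / 8 := by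
        rw [div_le_iff₀ hKp]
        linarith
      linarith
    have hζρ : ‖ζ i - z‖ ≤ ρ := by linarith
    have hT' : Tst J q r (ζ i) := hF hζρ
    have hKr1 : K * r ≤ ρ := by
      rw [hr, mul_div_assoc', div_le_iff₀ (by positivity), mul_comm ρ]
      exact mul_le_mul_of_nonneg_right (le_self_pow₀ hK0 (by omega)) hρ.le
    refine ⟨hl1, hln, by linarith, ⟨hC.smq, hbs, hbsupp, hbb, ?_⟩, fun y hy => ?_⟩
    · exact h1 K hKK1 m z q ρ T hC.smq hρ hρ1 hT0 hT hC.bdq (ζ i) r hr0 hKr1 (by linarith) hT'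
    · rcases Nat.lt_or_ge (l i) 2 with h4 | h4
      · have h5 : l i = 1 := by omega
        rw [hr, h5]
        exact tr_one hK0 hρ J q y
      · obtain ⟨ζ', hζ', hF'⟩ := hpar h4
        push Not at hF'
        obtain ⟨hζ'ρ, hF'⟩ := hF'
        have h5 : ρ / K ^ (l i - 1) = K * r := by
          have h6 : K ^ l i = K ^ (l i - 1) * K := by
            rw [← pow_succ]
            congr 1
            omega
          rw [hr, h6]
          field_simp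
        have h6 : K * (K * r) ≤ ρ := by
          rw [← h5, mul_div_assoc', div_le_iff₀ (by positivity), mul_comm ρ]
          exact mul_le_mul_of_nonneg_right (le_self_pow₀ hK0 (by omega)) hρ.le
        rw [h5] at hF' hζ'
        have hKr : 0 < K * r := by positivity
        have h7 : K * r ≤ ρ / 8 := by
          rw [← h5]
          exact hr4 _ (by omega)
        have h8 : r ≤ K * r / 8 := by nlinarith
        have hd : ‖ζ' - y‖ ≤ K * r := by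
          calc ‖ζ' - y‖ = ‖(ζ i - y) - (ζ i - ζ')‖ := by rw [sub_sub_sub_cancel_left]
            _ ≤ ‖ζ i - y‖ + ‖ζ i - ζ'‖ := norm_sub_le _ _
            _ ≤ r + 3 * κ * (K * r) := by
                rw [norm_sub_rev (ζ i) y]
                exact add_le_add hy.le hζ'
            _ ≤ r + 3 * (1 / 4) * (K * r) := by gcongr
            _ ≤ K * r := by linarith
        have hyz : ‖y - z‖ + K * r ≤ ρ := by
          have h9 : ‖y - z‖ ≤ ‖y - ζ i‖ + ‖ζ i - z‖ := by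
            have := norm_add_le (y - ζ i) (ζ i - z)
            rwa [sub_add_sub_cancel] at this
          linarith
        exact h2 K hKK2 m z q ρ T hC.smq hρ hρ1 hT0 hT hC.bdq ζ' y r hr0 h6 hd hyz hF'

end Pool.Agent.GNP
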