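import Pool.Agent.GNP.FT5a
import Pool.Agent.GNP.PIV
import Pool.Agent.GNP.TERM
import Pool.Agent.GNP.TREE
import Pool.Agent.GNP.MULS
import Pool.Agent.GNP.SLICE

/-! The induction for the fixed time theorem: the step. -/

namespace Pool.Agent.GNP

open MeasureTheory Set Pool.Agent.MP_6cbfb8_an
open scoped ENNReal Real RealInnerProductSpace ContDiff

theorem uu_sum5 {d : ℕ} {κ : Type} [Fintype κ] (b : κ → E d → ℂ) (q : E d → ℝ)
    (hq : Continuous q) (hb : ∀ i, Integrable (b i)) (x : E d) :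
    uu (fun y => ∑ i, b i y) q x = ∑ i, uu (b i) q x := by
  unfold uu
  rw [← integral_finsetSum]
  · refine integral_congr_ae (Filter.Eventually.of_forall fun y => ?_)
    simp only [Finset.sum_mul]
  · intro i _
    refine (hb i).mul_of_top_left (memLp_top_of_bound (C := 1) ?_ ?_)
    · exact Continuous.aestronglyMeasurable (by fun_prop)
    · refine Filter.Eventually.of_forall fun y => ?_
      rw [Complex.norm_exp_ofReal_mul_I]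

/-- From the classes to the whole family. -/
theorem asm5 {m : ℕ} {p : ℝ} (hp : 1 ≤ p) {ι : Type} [Fintype ι] {ι' : ι → Type}
    [∀ i, Fintype (ι' i)] {γ : Type} [Fintype γ] [DecidableEq γ] (cls : (Σ i, ι' i) → γ)
    (a : ι → E m → ℂ) (q : ι → E m → ℝ) (b : ∀ i, ι' i → E m → ℂ) (ζ : ∀ i, ι' i → E m)
    (r : ∀ i, ι' i → ℝ) (z : ι → E m) (ρ : ℝ) (G : ι → E m → ℝ≥0∞) (c0 : ℕ) (X Y : ℝ≥0∞)
    (hq : ∀ i, Continuous (q i)) (hb : ∀ i j, Integrable (b i j))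
    (hsum : ∀ i y, a i y = ∑ j, b i j y) (hG : ∀ i, Measurable (G i))
    (hsub : ∀ i j, Metric.ball (ζ i j) (r i j) ⊆ Metric.ball (z i) ρ)
    (hov : ∀ i y, {j | ‖y - ζ i j‖ < r i j}.encard ≤ c0)
    (hclass : ∀ o, ∫⁻ x, ‖∑ θ : {θ // cls θ = o}, uu (b θ.1.1 θ.1.2) (q θ.1.1) x‖ₑ ^ p ≤
      X * (∑ θ : {θ // cls θ = o}, ∫⁻ y in Metric.ball (ζ θ.1.1 θ.1.2) (r θ.1.1 θ.1.2),
        G θ.1.1 y ^ (p - 2)) + Y) :
    ∫⁻ x, ‖∑ i, uu (a i) (q i) x‖ₑ ^ p ≤ (Fintype.card γ : ℝ≥0∞) ^ (p - 1) *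
      (X * (c0 * (∑ i, ∫⁻ y in Metric.ball (z i) ρ, G i y ^ (p - 2))) +
        (Fintype.card γ : ℝ≥0∞) * Y) := by
  have h1 : ∀ x, ∑ i, uu (a i) (q i) x =
      ∑ θ : (Σ i, ι' i), uu (b θ.1 θ.2) (q θ.1) x := fun x => by
    rw [Fintype.sum_sigma]
    refine Finset.sum_congr rfl fun i _ => ?_
    rw [← uu_sum5 (b i) (q i) (hq i) (hb i)]
    congr 1
    exact funext (hsum i)
  simp only [h1]
  refine (class_sum5 hp cls (fun θ x => uu (b θ.1 θ.2) (q θ.1) x)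
    fun θ => continuous_uu5 (hb θ.1 θ.2) (hq θ.1)).trans ?_
  gcongr
  calc ∑ o, ∫⁻ x, ‖∑ θ : {θ // cls θ = o}, uu (b θ.1.1 θ.1.2) (q θ.1.1) x‖ₑ ^ p
      ≤ ∑ o, (X * (∑ θ : {θ // cls θ = o}, ∫⁻ y in Metric.ball (ζ θ.1.1 θ.1.2) (r θ.1.1 θ.1.2),
        G θ.1.1 y ^ (p - 2)) + Y) := Finset.sum_le_sum fun o _ => hclass o
    _ = X * (∑ θ : (Σ i, ι' i), ∫⁻ y in Metric.ball (ζ θ.1 θ.2) (r θ.1 θ.2),
        G θ.1 y ^ (p - 2)) + (Fintype.card γ : ℝ≥0∞) * Y := by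
        rw [Finset.sum_add_distrib, ← Finset.mul_sum, Finset.sum_const, nsmul_eq_mul,
          Finset.card_univ]
        congr 2
        exact Fintype.sum_fiberwise cls (fun θ => ∫⁻ y in Metric.ball (ζ θ.1 θ.2) (r θ.1 θ.2),
          G θ.1 y ^ (p - 2))
    _ ≤ _ := by
        gcongr
        rw [Fintype.sum_sigma, Finset.mul_sum]
        refine Finset.sum_le_sum fun i _ => ?_
        exact overlap_sum5 c0 (ζ i) (r i) (z i) ρ (fun y => G i y ^ (p - 2))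
          ((hG i).pow_const _) (hsub i) (hov i)

/-- The constants of the step. -/
theorem const5 {p : ℝ} (hp : 2 < p) (P CC c0 N cγ cΘ cι M : ℕ) (hP : p ≤ P) (K Kc K0 : ℝ)
    (hK : 1 ≤ K) (hKc : 1 ≤ Kc) (hM : 1 ≤ M) (hγ : (cγ : ℝ) ≤ K ^ 2)
    (hΘ : (cΘ : ℝ) ≤ cι * K ^ c0) (hK0 : Kc * ((c0 + 1 : ℕ) : ℝ) ^ (CC + 1) ≤ K0) (S : ℝ≥0∞) :
    (cγ : ℝ≥0∞) ^ (p - 1) *
      (ENNReal.ofReal (Kc * (K * ((M * (c0 + 1) : ℕ) : ℝ)) ^ CC) * (c0 * S) +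
        (cγ : ℝ≥0∞) * ENNReal.ofReal ((K ^ (N + 2 * P + 2 + c0 * P))⁻¹ * (cΘ : ℝ) ^ p)) ≤
    ENNReal.ofReal (K0 * (K * M) ^ (CC + 2 * P)) * S +
      ENNReal.ofReal ((K ^ N)⁻¹ * (cι : ℝ) ^ p) := by
  have hKpos : 0 < K := by linarith
  have hM' : (1 : ℝ) ≤ M := by exact_mod_cast hM
  have hγ' : (cγ : ℝ≥0∞) ≤ ENNReal.ofReal (K ^ 2) := by
    rw [← ENNReal.ofReal_natCast]
    exact ENNReal.ofReal_le_ofReal hγ
  have h1 : (cγ : ℝ≥0∞) ^ (p - 1) ≤ ENNReal.ofReal (K ^ (2 * P)) := by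
    calc (cγ : ℝ≥0∞) ^ (p - 1) ≤ (ENNReal.ofReal (K ^ 2)) ^ (p - 1) :=
          ENNReal.rpow_le_rpow hγ' (by linarith)
      _ = ENNReal.ofReal ((K ^ 2) ^ (p - 1)) := ENNReal.ofReal_rpow_of_pos (by positivity)
      _ ≤ ENNReal.ofReal (K ^ (2 * P)) := by
          apply ENNReal.ofReal_le_ofReal
          calc (K ^ 2) ^ (p - 1) ≤ (K ^ 2) ^ (P : ℝ) :=
                Real.rpow_le_rpow_of_exponent_le (one_le_pow₀ hK) (by linarith)
            _ = K ^ (2 * P) := by rw [Real.rpow_natCast, ← pow_mul]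
  rw [mul_add]
  refine add_le_add ?_ ?_
  · calc (cγ : ℝ≥0∞) ^ (p - 1) *
          (ENNReal.ofReal (Kc * (K * ((M * (c0 + 1) : ℕ) : ℝ)) ^ CC) * (c0 * S))
        ≤ ENNReal.ofReal (K ^ (2 * P)) *
          (ENNReal.ofReal (Kc * (K * ((M * (c0 + 1) : ℕ) : ℝ)) ^ CC) * (ENNReal.ofReal (c0 : ℝ) * S)) := by
          rw [ENNReal.ofReal_natCast]
          gcongr
      _ = ENNReal.ofReal (K ^ (2 * P) * (Kc * (K * ((M * (c0 + 1) : ℕ) : ℝ)) ^ CC) * c0) * S := by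
          have hX : 0 ≤ Kc * (K * ((M * (c0 + 1) : ℕ) : ℝ)) ^ CC := by positivity
          generalize Kc * (K * ((M * (c0 + 1) : ℕ) : ℝ)) ^ CC = X at hX
          rw [ENNReal.ofReal_mul (by positivity), ENNReal.ofReal_mul (by positivity)]
          ring
      _ ≤ ENNReal.ofReal (K0 * (K * M) ^ (CC + 2 * P)) * S := by
          refine mul_le_mul_left (ENNReal.ofReal_le_ofReal ?_) S
          have h2 : K ^ (2 * P) ≤ (K * M) ^ (2 * P) := by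
            gcongr
            nlinarith
          have h3 : (c0 : ℝ) ≤ ((c0 + 1 : ℕ) : ℝ) := by exact_mod_cast Nat.le_succ c0
          calc K ^ (2 * P) * (Kc * (K * ((M * (c0 + 1) : ℕ) : ℝ)) ^ CC) * c0
              ≤ (K * M) ^ (2 * P) * (Kc * (K * ((M * (c0 + 1) : ℕ) : ℝ)) ^ CC) *
                ((c0 + 1 : ℕ) : ℝ) := by gcongr
            _ = (Kc * ((c0 + 1 : ℕ) : ℝ) ^ (CC + 1)) * (K * M) ^ (CC + 2 * P) := by
                rw [Nat.cast_mul, ← mul_assoc K, mul_pow (K * (M : ℝ))]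
                ring
            _ ≤ K0 * (K * M) ^ (CC + 2 * P) := by gcongr
  · calc (cγ : ℝ≥0∞) ^ (p - 1) *
          ((cγ : ℝ≥0∞) * ENNReal.ofReal ((K ^ (N + 2 * P + 2 + c0 * P))⁻¹ * (cΘ : ℝ) ^ p))
        ≤ ENNReal.ofReal (K ^ (2 * P)) * (ENNReal.ofReal (K ^ 2) *
          ENNReal.ofReal ((K ^ (N + 2 * P + 2 + c0 * P))⁻¹ * (cΘ : ℝ) ^ p)) := by
          gcongr
      _ = ENNReal.ofReal (K ^ (2 * P) * (K ^ 2 *
          ((K ^ (N + 2 * P + 2 + c0 * P))⁻¹ * (cΘ : ℝ) ^ p))) := by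
          rw [ENNReal.ofReal_mul (p := K ^ (2 * P)) (by positivity),
            ENNReal.ofReal_mul (p := K ^ 2) (by positivity)]
      _ ≤ ENNReal.ofReal ((K ^ N)⁻¹ * (cι : ℝ) ^ p) := by
          apply ENNReal.ofReal_le_ofReal
          have h4 : (cΘ : ℝ) ^ p ≤ (cι : ℝ) ^ p * K ^ (c0 * P) := by
            calc (cΘ : ℝ) ^ p ≤ (cι * K ^ c0) ^ p :=
                  Real.rpow_le_rpow (by positivity) hΘ (by linarith)
              _ = (cι : ℝ) ^ p * (K ^ c0) ^ p := Real.mul_rpow (by positivity) (by positivity)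
              _ ≤ (cι : ℝ) ^ p * (K ^ c0) ^ (P : ℝ) := by
                  gcongr
                  exact one_le_pow₀ hK
              _ = _ := by rw [Real.rpow_natCast, ← pow_mul]
          calc K ^ (2 * P) * (K ^ 2 * ((K ^ (N + 2 * P + 2 + c0 * P))⁻¹ * (cΘ : ℝ) ^ p))
              ≤ K ^ (2 * P) * (K ^ 2 * ((K ^ (N + 2 * P + 2 + c0 * P))⁻¹ *
                ((cι : ℝ) ^ p * K ^ (c0 * P)))) := by gcongr
            _ = (K ^ N)⁻¹ * (cι : ℝ) ^ p := by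
                rw [pow_add, pow_add, pow_add]
                field_simp

/-- A dyadic exponent. -/
theorem dyad5 {K : ℝ} {n k0 : ℕ} {H : ℝ} (h1 : 1 ≤ H) (h2 : H ≤ K ^ n) (h3 : K ^ n < 2 ^ k0) :
    ∃ k : Fin k0, (2 : ℝ) ^ (k : ℕ) ≤ H ∧ H < 2 ^ ((k : ℕ) + 1) := by
  obtain ⟨k, hk1, hk2⟩ := exists_nat_pow_near h1 (one_lt_two : (1 : ℝ) < 2)
  have h4 : (2 : ℝ) ^ k < 2 ^ k0 := lt_of_le_of_lt (hk1.trans h2) h3
  have h5 : k < k0 := (pow_lt_pow_iff_right₀ (one_lt_two : (1 : ℝ) < 2)).1 h4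
  exact ⟨⟨k, h5⟩, hk1, hk2⟩

/-- Largeness conditions on `K`. -/
theorem large5 (a : ℝ) (n0 n : ℕ) : ∃ K0 : ℝ, 1 ≤ K0 ∧ ∀ K, K0 ≤ K →
    a ≤ K ∧ K ^ (n0 + 1) < 2 ^ ⌊K⌋₊ ∧
      ((n0 + 2) * (⌊K⌋₊ * n + 1) : ℝ) ≤ K ^ 2 := by
  have h1 : Filter.Tendsto (fun K : ℝ => K ^ (n0 + 1) / (2 : ℝ) ^ (⌊K⌋₊ : ℕ)) Filter.atTop
      (nhds 0) := by
    have h2 : Filter.Tendsto (fun k : ℕ => ((k : ℝ) + 1) ^ (n0 + 1) / (2 : ℝ) ^ k) Filter.atTop
        (nhds 0) := by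
      have h3 := (tendsto_pow_const_div_const_pow_of_one_lt (n0 + 1)
        (one_lt_two : (1 : ℝ) < 2)).comp (Filter.tendsto_add_atTop_nat 1)
      have h4 := h3.const_mul 2
      rw [mul_zero] at h4
      refine h4.congr fun k => ?_
      simp only [Function.comp_apply, Nat.cast_add, Nat.cast_one, pow_succ]
      field_simp
    have h5 : Filter.Tendsto (fun K : ℝ => ⌊K⌋₊) Filter.atTop Filter.atTop :=
      tendsto_nat_floor_atTop
    refine tendsto_of_tendsto_of_tendsto_of_le_of_le' tendsto_const_nhds (h2.comp h5) ?_ ?_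
    · filter_upwards [Filter.eventually_ge_atTop 0] with K hK
      positivity
    · filter_upwards [Filter.eventually_ge_atTop 0] with K hK
      simp only [Function.comp_apply]
      gcongr
      exact (Nat.lt_floor_add_one K).le
  have h6 : ∀ᶠ K : ℝ in Filter.atTop, K ^ (n0 + 1) / (2 : ℝ) ^ (⌊K⌋₊ : ℕ) < 1 :=
    h1.eventually (gt_mem_nhds one_pos)
  obtain ⟨K0, hK0⟩ := (h6.and ((Filter.eventually_ge_atTop a).and
    (Filter.eventually_ge_atTop ((n0 + 2 : ℝ) * (n + 1))))).exists_forall_of_atTop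
  refine ⟨max K0 1, le_max_right _ _, fun K hK => ?_⟩
  obtain ⟨h7, h8, h9⟩ := hK0 K ((le_max_left _ _).trans hK)
  have hK1 : 1 ≤ K := (le_max_right _ _).trans hK
  refine ⟨h8, (div_lt_one (by positivity)).1 h7, ?_⟩
  have h10 : (⌊K⌋₊ : ℝ) ≤ K := Nat.floor_le (by linarith)
  have h11 : (⌊K⌋₊ * n + 1 : ℝ) ≤ K * (n + 1) := by nlinarith [(Nat.cast_nonneg n : (0:ℝ) ≤ n)]
  calc ((n0 + 2) * (⌊K⌋₊ * n + 1) : ℝ) ≤ (n0 + 2) * (K * (n + 1)) := by gcongr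
    _ = ((n0 + 2) * (n + 1)) * K := by ring
    _ ≤ K * K := by gcongr
    _ = K ^ 2 := by ring


/-- What the class of a cell records. -/
def ClsP (m n k0 : ℕ) (K c : ℝ) (U : Fin n → (E (m + 1) ≃ₗᵢ[ℝ] E (m + 1)))
    (H : E (m + 1) →L[ℝ] E (m + 1)) (r : ℝ) : Option (Fin k0 × Fin n) → Prop
  | none => ‖H‖ * r ^ 2 ≤ K
  | some (k, i) => K < ‖H‖ * r ^ 2 ∧ (2 : ℝ) ^ (k : ℕ) ≤ ‖H‖ ∧ ‖H‖ < 2 ^ ((k : ℕ) + 1) ∧
      c * ‖H‖ ≤ |⟪H (U i (join 0 1)), U i (join 0 1)⟫|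

theorem exists_cls (m n k0 : ℕ) (K c : ℝ) (n0 : ℕ) (hK : 1 ≤ K)
    (U : Fin n → (E (m + 1) ≃ₗᵢ[ℝ] E (m + 1))) (H : E (m + 1) →L[ℝ] E (m + 1)) (r : ℝ)
    (hr : 0 < r) (hr1 : r ≤ 1) (hH : ‖H‖ ≤ K ^ n0) (hk0 : K ^ n0 < 2 ^ k0)
    (hU : ∃ i, c * ‖H‖ ≤ |⟪H (U i (join 0 1)), U i (join 0 1)⟫|) :
    ∃ o, ClsP m n k0 K c U H r o := by
  rcases le_or_gt (‖H‖ * r ^ 2) K with h | h
  · exact ⟨none, h⟩
  · obtain ⟨i, hi⟩ := hU
    have h1 : 1 ≤ ‖H‖ := by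
      have h2 : r ^ 2 ≤ 1 := pow_le_one₀ hr.le hr1
      nlinarith [norm_nonneg H]
    obtain ⟨k, hk1, hk2⟩ := dyad5 h1 hH hk0
    exact ⟨some (k, i), h, hk1, hk2, hi⟩

theorem ft_succ (m : ℕ) (p : ℝ) (hp : 2 < p) (h : ∃ C1 : ℕ, FTst m p C1) :
    ∃ C1 : ℕ, FTst (m + 1) p C1 := by
  classical
  obtain ⟨C1, h1⟩ := h
  obtain ⟨CT, hT⟩ := term (m + 1) p hp
  obtain ⟨n, U, c, hc, hU⟩ := pivots m
  set CC := max CT (C1 + 1) with hCC
  set P := ⌈p⌉₊ with hP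
  have hpP : p ≤ P := Nat.le_ceil p
  refine ⟨CC + 2 * P, fun A => ?_⟩
  set A1 : ℕ → ℝ := fun j => 4 + |A j| with hA1
  set A2 : ℕ → ℝ := fun j => 2 * A1 j with hA2
  have hA1p : ∀ j, 0 ≤ A1 j := fun j => by positivity
  obtain ⟨κ, A', hκ, hκ1, hS⟩ := slice_step m p hp C1 h1 c hc A2
  refine ⟨A', fun n0 => ?_⟩
  set n1 := 2 * n0 + 2 with hn1
  obtain ⟨JS, hJS⟩ := hS n1
  obtain ⟨JT, c0, hTr⟩ := tree (m + 1) A κ hκ hκ1 n0
  refine ⟨max JS JT, fun J hJ B N => ?_⟩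
  obtain ⟨B', KT, hKT, hTree⟩ := hTr J (le_trans (le_max_right _ _) hJ) B
  set N' := N + 2 * P + 2 + c0 * P with hN'
  obtain ⟨K1, hK1, hSl⟩ := hJS J (le_trans (le_max_left _ _) hJ) B' N'
  obtain ⟨K2, hK2, hTe⟩ := hT A1 B' n1 N'
  obtain ⟨K3, hK3, hLg⟩ := large5 (4 + |A 2|) n0 n
  set Kc := max K1 K2 with hKc
  set K0 := max (max KT K3) (Kc * ((c0 + 1 : ℕ) : ℝ) ^ (CC + 1)) with hK0
  have hKc1 : 1 ≤ Kc := hK1.trans (le_max_left _ _)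
  refine ⟨max K0 Kc, (hKc1).trans (le_max_right _ _), fun K hK ι _ z q a ρ T M G hρ0 hρ1 hT0 hT1
    hz hcel hM hG hGw => ?_⟩
  have hKKT : KT ≤ K := ((le_max_left _ _).trans (le_max_left _ _)).trans ((le_max_left _ _).trans hK)
  have hKK3 : K3 ≤ K := ((le_max_right _ _).trans (le_max_left _ _)).trans ((le_max_left _ _).trans hK)
  have hKK1 : K1 ≤ K := (le_max_left _ _).trans ((le_max_right _ _).trans hK)
  have hKK2 : K2 ≤ K := (le_max_right _ _).trans ((le_max_right _ _).trans hK)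
  obtain ⟨hKA, hKk, hKn⟩ := hLg K hKK3
  have hK4 : 4 ≤ K := by linarith [abs_nonneg (A 2)]
  have hKpos : 0 < K := by linarith
  have hρ : 0 < ρ := lt_of_lt_of_le (by positivity) hρ0
  rcases isEmpty_or_nonempty ι with hι | ⟨⟨i0⟩⟩
  · unfold Bnd
    have h2 : ∀ x : E (m + 1), ‖∑ i : ι, uu (a i) (q i) x‖ₑ ^ p = 0 := fun x => by
      rw [Finset.univ_eq_empty, Finset.sum_empty, enorm_zero, ENNReal.zero_rpow_of_pos (by linarith)]
    simp only [h2, lintegral_zero]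
    exact bot_le
  have hM1 : 1 ≤ M := hM.pos5 hρ i0
  choose ι' hFin l ζ b hcard hsum hov hall using fun i =>
    hTree K hKKT (z i) (q i) (a i) ρ T hρ0 hρ1 hT0 hT1 (hcel i)
  set Θ := Σ i, ι' i with hΘ
  set k0 := ⌊K⌋₊ with hk0
  set γ := Fin (n0 + 2) × Option (Fin k0 × Fin n) with hγ
  -- radii
  set r : ℕ → ℝ := fun l => ρ / K ^ l with hr
  have hrpos : ∀ l, 0 < r l := fun l => by positivity
  have hrle : ∀ l, 1 ≤ l → r l ≤ ρ / 4 := fun l hl => by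
    have h2 : K ^ 1 ≤ K ^ l := pow_le_pow_right₀ (by linarith) hl
    rw [pow_one] at h2
    apply div_le_div_of_nonneg_left hρ.le (by norm_num) (by linarith)
  -- Hessians at the centres
  have hHs : ∀ i j, ‖Hs (q i) (ζ i j)‖ ≤ K ^ (n0 + 1) := fun i j => by
    have h2 := (hcel i).bdq 2 le_rfl (ζ i j) (by
      have := (hall i j).2.2.1
      linarith)
    rw [norm_Hs_eq (hcel i).smq]
    refine h2.trans ?_
    rw [mul_div_assoc, mul_div_cancel_right₀ _ (by positivity : ρ ^ 2 ≠ 0)]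
    calc A 2 * T ≤ |A 2| * K ^ n0 :=
          mul_le_mul (le_abs_self _) hT1 hT0 (abs_nonneg _)
      _ ≤ K * K ^ n0 := by
          gcongr
          linarith
      _ = K ^ (n0 + 1) := by ring
  have hex : ∀ θ : Θ, ∃ o : γ, (o.1 : ℕ) = l θ.1 θ.2 ∧
      ClsP m n k0 K c U (Hs (q θ.1) (ζ θ.1 θ.2)) (r (l θ.1 θ.2)) o.2 := fun θ => by
    obtain ⟨o, ho⟩ := exists_cls m n k0 K c (n0 + 1) (by linarith) U (Hs (q θ.1) (ζ θ.1 θ.2))
      (r (l θ.1 θ.2)) (hrpos _) (by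
        have := hrle _ (hall θ.1 θ.2).1
        linarith) (hHs _ _) hKk (hU _ (Hs_symm (hcel θ.1).smq _))
    have h3 := (hall θ.1 θ.2).2.1
    exact ⟨(⟨l θ.1 θ.2, by omega⟩, o), rfl, ho⟩
  choose cls hcls1 hcls2 using hex
  have hcelb : ∀ θ : Θ, Cel (m + 1) A1 B' κ (r (l θ.1 θ.2))
      (max ‖Hs (q θ.1) (ζ θ.1 θ.2)‖ ((r (l θ.1 θ.2)) ^ 2)⁻¹) (ζ θ.1 θ.2) (q θ.1) (b θ.1 θ.2) :=
    fun θ => (hall θ.1 θ.2).2.2.2.1
  have hball : ∀ θ : Θ, ∀ y, ‖y - ζ θ.1 θ.2‖ < r (l θ.1 θ.2) → ‖y - z θ.1‖ < ρ := fun θ y hy => by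
    have h2 := (hall θ.1 θ.2).2.2.1
    have h3 := hrle _ (hall θ.1 θ.2).1
    calc ‖y - z θ.1‖ = ‖(y - ζ θ.1 θ.2) + (ζ θ.1 θ.2 - z θ.1)‖ := by congr 1; abel
      _ ≤ ‖y - ζ θ.1 θ.2‖ + ‖ζ θ.1 θ.2 - z θ.1‖ := norm_add_le _ _
      _ < ρ := by linarith
  set M' := M * (c0 + 1) with hM'
  have hcen : ∀ θ : Θ, ‖ζ θ.1 θ.2‖ ≤ (n1 : ℕ) := fun θ => by
    have h2 := (hall θ.1 θ.2).2.2.1
    have h3 := hz θ.1
    calc ‖ζ θ.1 θ.2‖ = ‖(ζ θ.1 θ.2 - z θ.1) + z θ.1‖ := by congr 1; abel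
      _ ≤ ‖ζ θ.1 θ.2 - z θ.1‖ + ‖z θ.1‖ := norm_add_le _ _
      _ ≤ (n1 : ℕ) := by
          rw [hn1]
          push_cast
          have : (0 : ℝ) ≤ n0 := Nat.cast_nonneg _
          linarith
  have hrn1 : ∀ l, l ≤ n0 + 1 → (K ^ n1)⁻¹ ≤ r l := fun l hl => by
    have h2 : K ^ l ≤ K ^ (n0 + 1) := pow_le_pow_right₀ (by linarith) hl
    calc (K ^ n1)⁻¹ ≤ (K ^ (n0 + (n0 + 1)))⁻¹ := by
          apply inv_anti₀ (by positivity)
          exact pow_le_pow_right₀ (by linarith) (by omega)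
      _ = (K ^ n0)⁻¹ / K ^ (n0 + 1) := by
          rw [pow_add, mul_inv, div_eq_mul_inv]
      _ ≤ ρ / K ^ l := by
          apply div_le_div₀ hρ.le hρ0 (by positivity) h2
  -- the bound for one class
  have hclass : ∀ o : γ, ∫⁻ x, ‖∑ θ : {θ : Θ // cls θ = o}, uu (b θ.1.1 θ.1.2) (q θ.1.1) x‖ₑ ^ p ≤
      ENNReal.ofReal (Kc * (K * M') ^ CC) *
        (∑ θ : {θ : Θ // cls θ = o}, ∫⁻ y in Metric.ball (ζ θ.1.1 θ.1.2) (r (l θ.1.1 θ.1.2)),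
          G θ.1.1 y ^ (p - 2)) +
        ENNReal.ofReal ((K ^ N')⁻¹ * (Fintype.card {θ : Θ // cls θ = o} : ℝ) ^ p) := by
    intro o
    have hl : ∀ θ : {θ : Θ // cls θ = o}, l θ.1.1 θ.1.2 = (o.1 : ℕ) := fun θ => by
      rw [← hcls1 θ.1, θ.2]
    have hmult : Mult M' (r (o.1 : ℕ)) (fun θ : {θ : Θ // cls θ = o} => ζ θ.1.1 θ.1.2)
        (fun θ : {θ : Θ // cls θ = o} => q θ.1.1) := by
      refine mult_sub (m + 1) M (c0 + 1) ρ (r (o.1 : ℕ)) z q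
        (fun θ : {θ : Θ // cls θ = o} => θ.1.1) _ hM (fun θ y hy => hball θ.1 y ?_)
        (fun i y => ?_)
      · rw [hl θ]; exact hy
      · refine le_trans ?_ ((hov i y).trans (by exact_mod_cast Nat.le_succ c0))
        rw [← Subtype.val_injective.encard_image]
        refine le_trans (Set.encard_le_encard (t := (fun j : ι' i => (⟨i, j⟩ : Θ)) ''
          {j : ι' i | ‖y - ζ i j‖ < ρ / K ^ l i j}) ?_) (Set.encard_image_le _ _)
        rintro _ ⟨θ, ⟨h4, h5⟩, rfl⟩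
        obtain ⟨⟨i', j'⟩, hcl⟩ := θ
        simp only at h4
        subst h4
        refine ⟨j', ?_, rfl⟩
        have h6 := hl ⟨⟨i', j'⟩, hcl⟩
        simp only at h6
        simp only [mem_ofPred_eq]
        rw [h6]
        exact h5
    rcases isEmpty_or_nonempty {θ : Θ // cls θ = o} with he | ⟨⟨θ0⟩⟩
    · have h2 : ∀ x : E (m + 1), ‖∑ θ : {θ : Θ // cls θ = o},
          uu (b θ.1.1 θ.1.2) (q θ.1.1) x‖ₑ ^ p = 0 := fun x => by
        rw [Finset.univ_eq_empty, Finset.sum_empty, enorm_zero,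
          ENNReal.zero_rpow_of_pos (by linarith)]
      simp only [h2, lintegral_zero]
      exact bot_le
    have hlo : (o.1 : ℕ) ≤ n0 + 1 := by
      have := o.1.2
      omega
    have hro1 : r (o.1 : ℕ) ≤ 1 := by
      rw [← hl θ0]
      have := hrle _ (hall θ0.1.1 θ0.1.2).1
      linarith
    have hcelb' : ∀ θ : {θ : Θ // cls θ = o}, Cel (m + 1) A1 B' κ (r (o.1 : ℕ))
        (max ‖Hs (q θ.1.1) (ζ θ.1.1 θ.1.2)‖ ((r (o.1 : ℕ)) ^ 2)⁻¹) (ζ θ.1.1 θ.1.2) (q θ.1.1)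
        (b θ.1.1 θ.1.2) := fun θ => by
      have := hcelb θ.1
      rwa [hl θ] at this
    have hLv : ∀ (θ : {θ : Θ // cls θ = o}) y, ‖y - ζ θ.1.1 θ.1.2‖ < r (o.1 : ℕ) →
        Lv K J ρ (q θ.1.1) y (r (o.1 : ℕ)) := fun θ y hy => by
      have h3 := (hall θ.1.1 θ.1.2).2.2.2.2 y
      rw [← hl θ] at hy ⊢
      exact h3 hy
    have hball' : ∀ (θ : {θ : Θ // cls θ = o}) y, ‖y - ζ θ.1.1 θ.1.2‖ < r (o.1 : ℕ) →
        ‖y - z θ.1.1‖ < ρ := fun θ y hy => by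
      rw [← hl θ] at hy
      exact hball θ.1 y hy
    have hclsP : ∀ θ : {θ : Θ // cls θ = o}, ClsP m n k0 K c U (Hs (q θ.1.1) (ζ θ.1.1 θ.1.2))
        (r (o.1 : ℕ)) o.2 := fun θ => by
      have h3 := hcls2 θ.1
      rw [θ.2] at h3
      rwa [hl θ] at h3
    have hM'1 : (1 : ℝ) ≤ M' := by
      have : 1 ≤ M' := by
        rw [hM']
        nlinarith
      exact_mod_cast this
    have hKM : 1 ≤ K * M' := by nlinarith
    have hrr := hrpos (o.1 : ℕ)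
    have key : ∀ (C' : ℕ) (Kx : ℝ), C' ≤ CC → 0 ≤ Kx → Kx ≤ Kc →
        Bnd p Kx K M' C' N' (r (o.1 : ℕ)) (fun θ : {θ : Θ // cls θ = o} => ζ θ.1.1 θ.1.2)
          (fun θ : {θ : Θ // cls θ = o} => q θ.1.1) (fun θ : {θ : Θ // cls θ = o} => b θ.1.1 θ.1.2)
          (fun θ : {θ : Θ // cls θ = o} => G θ.1.1) →
        ∫⁻ x, ‖∑ θ : {θ : Θ // cls θ = o}, uu (b θ.1.1 θ.1.2) (q θ.1.1) x‖ₑ ^ p ≤
      ENNReal.ofReal (Kc * (K * M') ^ CC) *
        (∑ θ : {θ : Θ // cls θ = o}, ∫⁻ y in Metric.ball (ζ θ.1.1 θ.1.2) (r (l θ.1.1 θ.1.2)),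
          G θ.1.1 y ^ (p - 2)) +
        ENNReal.ofReal ((K ^ N')⁻¹ * (Fintype.card {θ : Θ // cls θ = o} : ℝ) ^ p) := by
      intro C' Kx hC' hKx hKx' hB
      unfold Bnd at hB
      refine hB.trans ?_
      gcongr with θ _
      · rw [hl θ]
    rcases ho : o.2 with _ | ⟨k, pi⟩
    · refine key CT K2 (le_max_left _ _) (by linarith) (le_max_right _ _) ?_
      refine hTe K hKK2 _ _ _ _ _ M' _ (hrn1 _ hlo) hro1 (fun θ => hcen θ.1) (fun θ => ?_) hmult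
        (fun θ => hG _) (fun θ y w hy hw hw1 hw2 => ?_)
      · have h3 := hclsP θ
        rw [ho] at h3
        have h3' : ‖Hs (q θ.1.1) (ζ θ.1.1 θ.1.2)‖ * (r (o.1 : ℕ)) ^ 2 ≤ K := h3
        refine (hcelb' θ).mono5 hrr (by linarith) fun j => ?_
        refine mul_le_mul_of_nonneg_left (max_le ?_ ?_) (hA1p j)
        · rw [le_div_iff₀ (by positivity)]
          nlinarith
        · rw [inv_eq_one_div]
          gcongr
          nlinarith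
      · have h3 := hclsP θ
        rw [ho] at h3
        have h3' : ‖Hs (q θ.1.1) (ζ θ.1.1 θ.1.2)‖ * (r (o.1 : ℕ)) ^ 2 ≤ K := h3
        refine hGw θ.1.1 y w (hball' θ y hy) hw ((Wt_succ _ _ _ _ _ _ _ _).2
          ⟨r (o.1 : ℕ), hLv θ y hy, Or.inl ⟨?_, hw1, hw2⟩⟩)
        have h4 := (hcelb' θ).bdq 2 le_rfl y hy.le
        rw [norm_Hs_eq (hcel θ.1.1).smq]
        rw [mul_div_assoc, mul_div_cancel_right₀ _ (by positivity : (r (o.1 : ℕ)) ^ 2 ≠ 0)] at h4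
        have h5 : max ‖Hs (q θ.1.1) (ζ θ.1.1 θ.1.2)‖ ((r (o.1 : ℕ)) ^ 2)⁻¹ * (r (o.1 : ℕ)) ^ 2 ≤
            K := by
          rw [max_mul_of_nonneg _ _ (by positivity), inv_mul_cancel₀ (by positivity)]
          exact max_le h3' (by linarith)
        calc ‖iteratedFDeriv ℝ 2 (q θ.1.1) y‖ * (r (o.1 : ℕ)) ^ 2
            ≤ (A1 2 * max ‖Hs (q θ.1.1) (ζ θ.1.1 θ.1.2)‖ ((r (o.1 : ℕ)) ^ 2)⁻¹) *
              (r (o.1 : ℕ)) ^ 2 := by gcongr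
          _ = A1 2 * (max ‖Hs (q θ.1.1) (ζ θ.1.1 θ.1.2)‖ ((r (o.1 : ℕ)) ^ 2)⁻¹ *
              (r (o.1 : ℕ)) ^ 2) := by ring
          _ ≤ K * K := by
              gcongr
          _ = K ^ 2 := by ring
    · have hp0 := hclsP θ0
      rw [ho] at hp0
      obtain ⟨hq1, hq2, hq3, -⟩ := hp0
      have hRpos : (0 : ℝ) < 2 ^ (k : ℕ) := by positivity
      refine key (C1 + 1) K1 (le_max_right _ _) (by linarith) (le_max_left _ _) ?_
      refine hSl K hKK1 _ (U pi) _ _ _ _ (2 ^ (k : ℕ)) M' _ (hrn1 _ hlo) hro1 ?_ ?_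
        (fun θ => hcen θ.1) (fun θ => ?_) (fun θ => ?_) hmult (fun θ => hG _)
        (fun θ y w hy hw hw1 => ?_)
      · rw [pow_succ] at hq3
        have : 0 < (r (o.1 : ℕ)) ^ 2 := by positivity
        nlinarith
      · refine (hq2.trans (hHs _ _)).trans ?_
        exact pow_le_pow_right₀ (by linarith) (by omega)
      · have h3 := hclsP θ
        rw [ho] at h3
        obtain ⟨h4, h5, h6, -⟩ := h3
        refine (hcelb' θ).mono5 hrr le_rfl fun j => ?_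
        have h7 : max ‖Hs (q θ.1.1) (ζ θ.1.1 θ.1.2)‖ ((r (o.1 : ℕ)) ^ 2)⁻¹ ≤ 2 * 2 ^ (k : ℕ) := by
          refine max_le (by rw [pow_succ] at h6; linarith) ?_
          rw [inv_eq_one_div, div_le_iff₀ (by positivity)]
          have : 0 < (r (o.1 : ℕ)) ^ 2 := by positivity
          rw [pow_succ] at h6
          nlinarith
        calc A1 j * max ‖Hs (q θ.1.1) (ζ θ.1.1 θ.1.2)‖ ((r (o.1 : ℕ)) ^ 2)⁻¹
            ≤ A1 j * (2 * 2 ^ (k : ℕ)) := mul_le_mul_of_nonneg_left h7 (hA1p j)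
          _ = A2 j * 2 ^ (k : ℕ) := by rw [hA2]; ring
      · have h3 := hclsP θ
        rw [ho] at h3
        obtain ⟨-, h5, -, h6⟩ := h3
        exact le_trans (by gcongr) h6
      · exact hGw θ.1.1 y w (hball' θ y hy) hw ((Wt_succ _ _ _ _ _ _ _ _).2
          ⟨r (o.1 : ℕ), hLv θ y hy, Or.inr hw1⟩)
  -- assembly
  have hcΘ : (Fintype.card Θ : ℝ) ≤ Fintype.card ι * K ^ c0 := by
    have e1 : Fintype.card Θ = ∑ i, Fintype.card (ι' i) := Fintype.card_sigma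
    rw [e1, Nat.cast_sum]
    calc ∑ i, (Fintype.card (ι' i) : ℝ) ≤ ∑ _i : ι, K ^ c0 :=
          Finset.sum_le_sum fun i _ => hcard i
      _ = Fintype.card ι * K ^ c0 := by
          rw [Finset.sum_const, nsmul_eq_mul, Finset.card_univ]
  have hcγ : (Fintype.card γ : ℝ) ≤ K ^ 2 := by
    have e1 : Fintype.card γ = (n0 + 2) * (k0 * n + 1) := by
      show Fintype.card (Fin (n0 + 2) × Option (Fin k0 × Fin n)) = _
      rw [Fintype.card_prod, Fintype.card_option, Fintype.card_prod, Fintype.card_fin,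
        Fintype.card_fin, Fintype.card_fin]
    rw [e1]
    push_cast
    exact hKn
  refine (asm5 (by linarith) cls a q b ζ (fun i j => r (l i j)) z ρ G c0
    (ENNReal.ofReal (Kc * (K * M') ^ CC))
    (ENNReal.ofReal ((K ^ N')⁻¹ * (Fintype.card Θ : ℝ) ^ p)) (fun i => (hcel i).smq.continuous)
    (fun i j => (hcelb ⟨i, j⟩).int5) hsum hG (fun i j y hy => ?_) (fun i y => hov i y)
    (fun o => (hclass o).trans ?_)).trans ?_
  · rw [Metric.mem_ball, dist_eq_norm] at hy ⊢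
    exact hball ⟨i, j⟩ y hy
  · gcongr
    exact Fintype.card_subtype_le _
  · exact const5 hp P CC c0 N _ _ _ M hpP K Kc _ (by linarith) hKc1 hM1 hcγ hcΘ
      ((le_max_right _ _).trans (le_max_left _ _)) _

end Pool.Agent.GNP
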