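import Pool.Agent.GNP.Defs5
import Pool.Agent.GNP.P0x

/-! The induction for the fixed time theorem: preparations. -/

namespace Pool.Agent.GNP

open MeasureTheory Set Pool.Agent.MP_6cbfb8_an
open scoped ENNReal Real RealInnerProductSpace ContDiff

/-- Continuity of the oscillatory integral. -/
theorem continuous_uu5 {d : ℕ} {a : E d → ℂ} {q : E d → ℝ} (ha : Integrable a)
    (hq : Continuous q) : Continuous (uu a q) := by
  unfold uu
  refine continuous_of_dominated (bound := fun y => ‖a y‖) (fun x => ?_) (fun x => ?_) ha.norm ?_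
  · refine ha.1.mul (Continuous.aestronglyMeasurable ?_)
    fun_prop
  · refine Filter.Eventually.of_forall fun y => ?_
    rw [norm_mul, Complex.norm_exp_ofReal_mul_I, mul_one]
  · refine Filter.Eventually.of_forall fun y => ?_
    fun_prop

theorem Cel.int5 {m : ℕ} {A B : ℕ → ℝ} {κ ρ T : ℝ} {z : E m} {q : E m → ℝ} {a : E m → ℂ}
    (h : Cel m A B κ ρ T z q a) : Integrable a := by
  refine (h.sma.continuous).integrable_of_hasCompactSupport ?_
  refine HasCompactSupport.intro (isCompact_closedBall z (κ * ρ)) fun y hy => h.supp y ?_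
  rw [Metric.mem_closedBall, dist_eq_norm, not_le] at hy
  exact hy

theorem Cel.cont5 {m : ℕ} {A B : ℕ → ℝ} {κ ρ T : ℝ} {z : E m} {q : E m → ℝ} {a : E m → ℂ}
    (h : Cel m A B κ ρ T z q a) : Continuous (uu a q) :=
  continuous_uu5 h.int5 h.smq.continuous

theorem Cel.mono5 {m : ℕ} {A A' B : ℕ → ℝ} {κ κ' ρ T T' : ℝ} {z : E m} {q : E m → ℝ} {a : E m → ℂ}
    (h : Cel m A B κ ρ T z q a) (hρ : 0 < ρ) (hκ : κ ≤ κ') (hT : ∀ j, A j * T ≤ A' j * T') :
    Cel m A' B κ' ρ T' z q a where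
  smq := h.smq
  sma := h.sma
  supp y hy := h.supp y (lt_of_le_of_lt (by gcongr) hy)
  bda := h.bda
  bdq j hj y hy := by
    refine (h.bdq j hj y hy).trans ?_
    have h1 : 0 < ρ ^ j := by positivity
    have h2 : 0 ≤ ρ ^ 2 := by positivity
    apply div_le_div_of_nonneg_right _ h1.le
    nlinarith [hT j]

theorem Mult.pos5 {m : ℕ} {ι : Type} {M : ℕ} {ρ : ℝ} {z : ι → E m} {q : ι → E m → ℝ}
    (h : Mult M ρ z q) (hρ : 0 < ρ) (i : ι) : 1 ≤ M := by
  have h1 := h ⊥ (z i) 0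
  have h2 : (1 : ℕ∞) ≤ M := by
    refine le_trans ?_ h1
    rw [Set.one_le_encard_iff_nonempty]
    refine ⟨(i, z i), by simpa using hρ, by simp, fun f hf => ?_, fun f hf _ => ?_⟩
    · rw [Submodule.mem_bot] at hf
      simp [hf]
    · rwa [Submodule.mem_bot] at hf
  exact_mod_cast h2

/-- Splitting into classes. -/
theorem class_sum5 {m : ℕ} {p : ℝ} (hp : 1 ≤ p) {Θ γ : Type} [Fintype Θ] [Fintype γ]
    [DecidableEq γ] (cls : Θ → γ) (F : Θ → E m → ℂ) (hF : ∀ θ, Continuous (F θ)) :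
    ∫⁻ x, ‖∑ θ, F θ x‖ₑ ^ p ≤ (Fintype.card γ : ℝ≥0∞) ^ (p - 1) *
      ∑ c, ∫⁻ x, ‖∑ θ : {θ // cls θ = c}, F θ x‖ₑ ^ p := by
  have hm : ∀ c, Measurable fun x => ‖∑ θ : {θ // cls θ = c}, F θ x‖ₑ ^ p := fun c => by
    have : Continuous fun x => ∑ θ : {θ // cls θ = c}, F θ x :=
      continuous_finset_sum _ fun θ _ => hF θ
    exact this.enorm.measurable.pow_const _
  rw [← lintegral_finset_sum _ fun c _ => hm c, ← lintegral_const_mul _
    (Finset.measurable_sum _ fun c _ => hm c)]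
  refine lintegral_mono fun x => ?_
  have h1 : ∑ θ, F θ x = ∑ c, ∑ θ : {θ // cls θ = c}, F θ x :=
    (Fintype.sum_fiberwise cls (fun θ => F θ x)).symm
  rw [h1]
  calc ‖∑ c, ∑ θ : {θ // cls θ = c}, F θ x‖ₑ ^ p
      ≤ (∑ c, ‖∑ θ : {θ // cls θ = c}, F θ x‖ₑ) ^ p := by
        refine ENNReal.rpow_le_rpow (enorm_sum_le _ _) (by linarith)
    _ ≤ _ := by
        have := ENNReal.rpow_sum_le_const_mul_sum_rpow (s := Finset.univ)
          (f := fun c => ‖∑ θ : {θ // cls θ = c}, F θ x‖ₑ) hp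
        simpa [Finset.card_univ] using this

/-- The cells of a family with bounded overlap inside a ball. -/
theorem overlap_sum5 {m : ℕ} {κ : Type} [Fintype κ] (c0 : ℕ) (ζ : κ → E m) (r : κ → ℝ)
    (z : E m) (ρ : ℝ) (g : E m → ℝ≥0∞) (hg : Measurable g)
    (hsub : ∀ j, Metric.ball (ζ j) (r j) ⊆ Metric.ball z ρ)
    (hc : ∀ y, {j | ‖y - ζ j‖ < r j}.encard ≤ c0) :
    ∑ j, ∫⁻ y in Metric.ball (ζ j) (r j), g y ≤ c0 * ∫⁻ y in Metric.ball z ρ, g y := by
  classical
  have h1 : ∀ j, ∫⁻ y in Metric.ball (ζ j) (r j), g y =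
      ∫⁻ y in Metric.ball z ρ, (Metric.ball (ζ j) (r j)).indicator g y := fun j => by
    rw [lintegral_indicator Metric.isOpen_ball.measurableSet, Measure.restrict_restrict
      Metric.isOpen_ball.measurableSet, inter_eq_self_of_subset_left (hsub j)]
  simp only [h1]
  rw [← lintegral_finset_sum _ fun j _ => hg.indicator Metric.isOpen_ball.measurableSet,
    ← lintegral_const_mul _ hg]
  refine lintegral_mono fun y => ?_
  have h2 : ∑ j, (Metric.ball (ζ j) (r j)).indicator g y =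
      ∑ j ∈ Finset.univ.filter (fun j => ‖y - ζ j‖ < r j), g y := by
    rw [Finset.sum_filter]
    refine Finset.sum_congr rfl fun j _ => ?_
    simp only [indicator, Metric.mem_ball, dist_eq_norm]
  rw [h2, Finset.sum_const, nsmul_eq_mul]
  gcongr
  have h3 := hc y
  have h4 : {j | ‖y - ζ j‖ < r j} = (Finset.univ.filter (fun j => ‖y - ζ j‖ < r j) : Set κ) := by
    ext j
    simp
  rw [h4, Set.encard_coe_eq_coe_finsetCard] at h3
  exact_mod_cast h3

end Pool.Agent.GNP
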