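import Pool.Agent.GNP.FT5

/-! The first step of the fixed time theorem, the terminal part separated. -/

namespace Pool.Agent.GNP

open MeasureTheory Set Pool.Agent.MP_6cbfb8_an
open scoped ENNReal Real RealInnerProductSpace ContDiff

/-- From some of the classes to their sum. -/
theorem asm6 {m : ℕ} {p : ℝ} (hp : 1 ≤ p) {ι : Type} [Fintype ι] {ι' : ι → Type}
    [∀ i, Fintype (ι' i)] {γ : Type} [Fintype γ] [DecidableEq γ] (cls : (Σ i, ι' i) → γ)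
    (q : ι → E m → ℝ) (b : ∀ i, ι' i → E m → ℂ) (ζ : ∀ i, ι' i → E m)
    (r : ∀ i, ι' i → ℝ) (z : ι → E m) (ρ : ℝ) (G : ι → E m → ℝ≥0∞) (c0 : ℕ) (X Y : ℝ≥0∞)
    (S : Finset γ) (hq : ∀ i, Continuous (q i)) (hb : ∀ i j, Integrable (b i j))
    (hG : ∀ i, Measurable (G i))
    (hsub : ∀ i j, Metric.ball (ζ i j) (r i j) ⊆ Metric.ball (z i) ρ)
    (hov : ∀ i y, {j | ‖y - ζ i j‖ < r i j}.encard ≤ c0)
    (hclass : ∀ o ∈ S, ∫⁻ x, ‖∑ θ : {θ // cls θ = o}, uu (b θ.1.1 θ.1.2) (q θ.1.1) x‖ₑ ^ p ≤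
      X * (∑ θ : {θ // cls θ = o}, ∫⁻ y in Metric.ball (ζ θ.1.1 θ.1.2) (r θ.1.1 θ.1.2),
        G θ.1.1 y ^ (p - 2)) + Y) :
    ∫⁻ x, ‖∑ o ∈ S, ∑ θ : {θ // cls θ = o}, uu (b θ.1.1 θ.1.2) (q θ.1.1) x‖ₑ ^ p ≤
      (Fintype.card γ : ℝ≥0∞) ^ (p - 1) *
      (X * (c0 * (∑ i, ∫⁻ y in Metric.ball (z i) ρ, G i y ^ (p - 2))) +
        (Fintype.card γ : ℝ≥0∞) * Y) := by
  have hm : ∀ c, Measurable fun x => ‖∑ θ : {θ // cls θ = c},
      uu (b θ.1.1 θ.1.2) (q θ.1.1) x‖ₑ ^ p := fun c => by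
    have : Continuous fun x => ∑ θ : {θ // cls θ = c}, uu (b θ.1.1 θ.1.2) (q θ.1.1) x :=
      continuous_finsetSum _ fun θ _ => continuous_uu5 (hb _ _) (hq _)
    exact this.enorm.measurable.pow_const _
  have h0 : ∫⁻ x, ‖∑ o ∈ S, ∑ θ : {θ // cls θ = o}, uu (b θ.1.1 θ.1.2) (q θ.1.1) x‖ₑ ^ p ≤
      (Fintype.card γ : ℝ≥0∞) ^ (p - 1) *
        ∑ o ∈ S, ∫⁻ x, ‖∑ θ : {θ // cls θ = o}, uu (b θ.1.1 θ.1.2) (q θ.1.1) x‖ₑ ^ p := by
    rw [← lintegral_finsetSum _ fun c _ => hm c, ← lintegral_const_mul _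
      (Finset.measurable_sum _ fun c _ => hm c)]
    refine lintegral_mono fun x => ?_
    calc ‖∑ c ∈ S, ∑ θ : {θ // cls θ = c}, uu (b θ.1.1 θ.1.2) (q θ.1.1) x‖ₑ ^ p
        ≤ (∑ c ∈ S, ‖∑ θ : {θ // cls θ = c}, uu (b θ.1.1 θ.1.2) (q θ.1.1) x‖ₑ) ^ p := by
          refine ENNReal.rpow_le_rpow (enorm_sum_le _ _) (by linarith)
      _ ≤ (S.card : ℝ≥0∞) ^ (p - 1) *
          ∑ c ∈ S, ‖∑ θ : {θ // cls θ = c}, uu (b θ.1.1 θ.1.2) (q θ.1.1) x‖ₑ ^ p :=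
          ENNReal.rpow_sum_le_const_mul_sum_rpow (s := S)
            (f := fun c => ‖∑ θ : {θ // cls θ = c}, uu (b θ.1.1 θ.1.2) (q θ.1.1) x‖ₑ) hp
      _ ≤ _ := by
          refine mul_le_mul_left (ENNReal.rpow_le_rpow ?_ (by linarith)) _
          exact_mod_cast Finset.card_le_univ S
  refine h0.trans ?_
  gcongr
  calc ∑ o ∈ S, ∫⁻ x, ‖∑ θ : {θ // cls θ = o}, uu (b θ.1.1 θ.1.2) (q θ.1.1) x‖ₑ ^ p
      ≤ ∑ o ∈ S, (X * (∑ θ : {θ // cls θ = o},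
        ∫⁻ y in Metric.ball (ζ θ.1.1 θ.1.2) (r θ.1.1 θ.1.2), G θ.1.1 y ^ (p - 2)) + Y) :=
        Finset.sum_le_sum fun o ho => hclass o ho
    _ ≤ ∑ o, (X * (∑ θ : {θ // cls θ = o},
        ∫⁻ y in Metric.ball (ζ θ.1.1 θ.1.2) (r θ.1.1 θ.1.2), G θ.1.1 y ^ (p - 2)) + Y) :=
        Finset.sum_le_univ_sum_of_nonneg fun _ => bot_le
    _ = X * (∑ θ : (Σ i, ι' i), ∫⁻ y in Metric.ball (ζ θ.1 θ.2) (r θ.1 θ.2),
        G θ.1 y ^ (p - 2)) + (Fintype.card γ : ℝ≥0∞) * Y := by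
        rw [Finset.sum_add_distrib, ← Finset.mul_sum, Finset.sum_const, nsmul_eq_mul,
          Finset.card_univ]
        congr 2
        exact Fintype.sum_fiberwise cls (fun θ => ∫⁻ y in Metric.ball (ζ θ.1 θ.2) (r θ.1 θ.2),
          G θ.1 y ^ (p - 2))
    _ ≤ _ := by
        gcongr
        rw [Fintype.sum_sigma, Finset.mul_sum]
        refine Finset.sum_le_sum fun i _ => ?_
        exact overlap_sum5 c0 (ζ i) (r i) (z i) ρ (fun y => G i y ^ (p - 2))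
          ((hG i).pow_const _) (hsub i) (hov i)

/-- The sup bound for one cell. -/
theorem Cel.sup5 {m : ℕ} {A B : ℕ → ℝ} {κ ρ T : ℝ} {z : E m} {q : E m → ℝ} {a : E m → ℂ}
    (h : Cel m A B κ ρ T z q a) (hρ : 0 < ρ) (hκ : κ < 1) (x : E m) :
    ‖uu a q x‖ₑ ≤ ∫⁻ _y in Metric.ball z ρ, ENNReal.ofReal |B 0| := by
  unfold uu
  refine (enorm_integral_le_lintegral_enorm _).trans ?_
  rw [← lintegral_indicator Metric.isOpen_ball.measurableSet]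
  refine lintegral_mono fun y => ?_
  rw [enorm_mul]
  have h1 : ‖Complex.exp (((q y - ⟪x, y⟫ : ℝ) : ℂ) * Complex.I)‖ₑ = 1 := by
    rw [← ofReal_norm_eq_enorm, Complex.norm_exp_ofReal_mul_I, ENNReal.ofReal_one]
  rw [h1, mul_one]
  by_cases hy : y ∈ Metric.ball z ρ
  · rw [indicator_of_mem hy, ← ofReal_norm_eq_enorm]
    refine ENNReal.ofReal_le_ofReal ?_
    have h2 := h.bda 0 y
    rw [norm_iteratedFDeriv_zero, pow_zero, div_one] at h2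
    exact h2.trans (le_abs_self _)
  · have h2 : a y = 0 := by
      refine h.supp y ?_
      rw [Metric.mem_ball, dist_eq_norm, not_lt] at hy
      nlinarith
    rw [h2, enorm_zero]
    exact bot_le

/-- The first step of the fixed time theorem, with the terminal part separated: a family of cells is
the sum of `F'` (the cells where the phase is terminal) and of `F` (the cells with a pivot). -/
theorem ft_split (m : ℕ) (p p' : ℝ) (hp : 2 < p) (hp' : 2 < p') (h : ∃ C1 : ℕ, FTst m p C1) :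
    ∃ C1 : ℕ, ∀ A : ℕ → ℝ, ∃ A' : ℕ → ℕ → ℝ, ∀ n0 : ℕ, ∃ J0 : ℕ, ∀ J, J0 ≤ J →
    ∀ (B : ℕ → ℝ) (N : ℕ), ∃ K0 : ℝ, 1 ≤ K0 ∧ ∀ K, K0 ≤ K →
    ∀ (ι : Type) [Fintype ι] (z : ι → E (m + 1)) (q : ι → E (m + 1) → ℝ)
      (a : ι → E (m + 1) → ℂ) (ρ T : ℝ) (M : ℕ) (G G' : ι → E (m + 1) → ℝ≥0∞),
      (K ^ n0)⁻¹ ≤ ρ → ρ ≤ 1 → 0 ≤ T → T ≤ K ^ n0 → (∀ i, ‖z i‖ ≤ n0) →
      (∀ i, Cel (m + 1) A B (1 / 2) ρ T (z i) (q i) (a i)) → Mult M ρ z q →
      (∀ i, Measurable (G i)) → (∀ i, Measurable (G' i)) →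
      (∀ i y w r, ‖y - z i‖ < ρ → 0 ≤ w → Lv K J ρ (q i) y r → ‖Hs (q i) y‖ * r ^ 2 ≤ K ^ 2 →
        w ≤ 1 → w * (r ^ (m + 1) * |(Hs (q i) y).det|) ≤ 1 → ENNReal.ofReal w ≤ G' i y) →
      (∀ i y w r, ‖y - z i‖ < ρ → 0 ≤ w → Lv K J ρ (q i) y r → WtE A' K J m r (q i) y w →
        ENNReal.ofReal w ≤ G i y) →
      ∃ F F' : E (m + 1) → ℂ, Continuous F ∧ Continuous F' ∧
        (∀ x, ∑ i, uu (a i) (q i) x = F x + F' x) ∧
        (∀ x, ‖F' x‖ₑ ≤ ENNReal.ofReal (K0 * (K * M) ^ C1) *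
          ∑ i, volume (Metric.ball (z i) ρ)) ∧
        ∫⁻ x, ‖F x‖ₑ ^ p ≤ ENNReal.ofReal (K0 * (K * M) ^ C1) *
          (∑ i, ∫⁻ y in Metric.ball (z i) ρ, G i y ^ (p - 2)) +
          ENNReal.ofReal ((K ^ N)⁻¹ * (Fintype.card ι : ℝ) ^ p) ∧
        ∫⁻ x, ‖F' x‖ₑ ^ p' ≤ ENNReal.ofReal (K0 * (K * M) ^ C1) *
          (∑ i, ∫⁻ y in Metric.ball (z i) ρ, G' i y ^ (p' - 2)) +
          ENNReal.ofReal ((K ^ N)⁻¹ * (Fintype.card ι : ℝ) ^ p') := by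
  classical
  obtain ⟨C1, h1⟩ := h
  obtain ⟨CT, hT⟩ := term (m + 1) p' hp'
  obtain ⟨n, U, c, hc, hU⟩ := pivots m
  set CC := max CT (C1 + 1) with hCC
  set P := max ⌈p⌉₊ ⌈p'⌉₊ with hP
  have hpP : p ≤ P := (Nat.le_ceil p).trans (by exact_mod_cast le_max_left _ _)
  have hpP' : p' ≤ P := (Nat.le_ceil p').trans (by exact_mod_cast le_max_right _ _)
  refine ⟨CC + 2 * P, fun A => ?_⟩
  set A1 : ℕ → ℝ := fun j => 4 + |A j| with hA1
  set A2 : ℕ → ℝ := fun j => 2 * A1 j with hA2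
  have hA1p : ∀ j, 0 ≤ A1 j := fun j => by positivity
  obtain ⟨κ, A', hκ, hκ1, hS⟩ := slice_step m p hp C1 h1 c hc A2
  refine ⟨A', fun n0 => ?_⟩
  set n1 := 2 * n0 + 2 with hn1
  obtain ⟨JS, hJS⟩ := hS n1
  obtain ⟨JT, c0, hTr⟩ := tree (m + 1) A κ hκ hκ1 n0
  refine ⟨max JS JT, fun J hJ B N => ?_⟩
  obtain ⟨B', KT, hKT, hTree⟩ := hTr J (le_trans (le_max_right _ _) hJ) B
  set N' := N + 2 * P + 2 + c0 * P with hN'
  obtain ⟨K1, hK1, hSl⟩ := hJS J (le_trans (le_max_left _ _) hJ) B' N'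
  obtain ⟨K2, hK2, hTe⟩ := hT A1 B' n1 N'
  obtain ⟨K3, hK3, hLg⟩ := large5 (4 + |A 2|) n0 n
  set Kc := max K1 K2 with hKc
  set K0 := max (max (max KT K3) (|B' 0| * c0)) (Kc * ((c0 + 1 : ℕ) : ℝ) ^ (CC + 1)) with hK0
  have hKc1 : 1 ≤ Kc := hK1.trans (le_max_left _ _)
  refine ⟨max K0 Kc, (hKc1).trans (le_max_right _ _), fun K hK ι _ z q a ρ T M G G' hρ0 hρ1 hT0
    hT1 hz hcel hM hG hG' hGw' hGw => ?_⟩
  have hKKT : KT ≤ K := (((le_max_left _ _).trans (le_max_left _ _)).trans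
    (le_max_left _ _)).trans ((le_max_left _ _).trans hK)
  have hKK3 : K3 ≤ K := (((le_max_right _ _).trans (le_max_left _ _)).trans
    (le_max_left _ _)).trans ((le_max_left _ _).trans hK)
  have hKK1 : K1 ≤ K := (le_max_left _ _).trans ((le_max_right _ _).trans hK)
  have hKK2 : K2 ≤ K := (le_max_right _ _).trans ((le_max_right _ _).trans hK)
  obtain ⟨hKA, hKk, hKn⟩ := hLg K hKK3
  have hK4 : 4 ≤ K := by linarith [abs_nonneg (A 2)]
  have hKpos : 0 < K := by linarith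
  have hρ : 0 < ρ := lt_of_lt_of_le (by positivity) hρ0
  rcases isEmpty_or_nonempty ι with hι | ⟨⟨i0⟩⟩
  · refine ⟨0, 0, continuous_zero, continuous_zero, fun x => ?_, fun x => ?_, ?_, ?_⟩
    · rw [Finset.univ_eq_empty, Finset.sum_empty]
      simp
    · simp
    · simp only [Pi.zero_apply, enorm_zero, ENNReal.zero_rpow_of_pos (by linarith : (0:ℝ) < p),
        lintegral_zero]
      exact bot_le
    · simp only [Pi.zero_apply, enorm_zero, ENNReal.zero_rpow_of_pos (by linarith : (0:ℝ) < p'),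
        lintegral_zero]
      exact bot_le
  have hM1 : 1 ≤ M := hM.pos5 hρ i0
  choose ι' hFin l ζ b hcard hsum hov hall using fun i =>
    hTree K hKKT (z i) (q i) (a i) ρ T hρ0 hρ1 hT0 hT1 (hcel i)
  set Θ := Σ i, ι' i with hΘ
  set k0 := ⌊K⌋₊ with hk0
  set γ := Fin (n0 + 2) × Option (Fin k0 × Fin n) with hγ
  -- radii
  set r : ℕ → ℝ := fun l => ρ / K ^ l with hr
  have hrpos : ∀ l, 0 < r l := fun l => by positivity
  have hrle : ∀ l, 1 ≤ l → r l ≤ ρ / 4 := fun l hl => by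
    have h2 : K ^ 1 ≤ K ^ l := pow_le_pow_right₀ (by linarith) hl
    rw [pow_one] at h2
    apply div_le_div_of_nonneg_left hρ.le (by norm_num) (by linarith)
  -- Hessians at the centres
  have hHs : ∀ i j, ‖Hs (q i) (ζ i j)‖ ≤ K ^ (n0 + 1) := fun i j => by
    have h2 := (hcel i).bdq 2 le_rfl (ζ i j) (by
      have := (hall i j).2.2.1
      linarith)
    rw [norm_Hs_eq (hcel i).smq]
    refine h2.trans ?_
    rw [mul_div_assoc, mul_div_cancel_right₀ _ (by positivity : ρ ^ 2 ≠ 0)]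
    calc A 2 * T ≤ |A 2| * K ^ n0 :=
          mul_le_mul (le_abs_self _) hT1 hT0 (abs_nonneg _)
      _ ≤ K * K ^ n0 := by
          gcongr
          linarith
      _ = K ^ (n0 + 1) := by ring
  have hex : ∀ θ : Θ, ∃ o : γ, (o.1 : ℕ) = l θ.1 θ.2 ∧
      ClsP m n k0 K c U (Hs (q θ.1) (ζ θ.1 θ.2)) (r (l θ.1 θ.2)) o.2 := fun θ => by
    obtain ⟨o, ho⟩ := exists_cls m n k0 K c (n0 + 1) (by linarith) U (Hs (q θ.1) (ζ θ.1 θ.2))
      (r (l θ.1 θ.2)) (hrpos _) (by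
        have := hrle _ (hall θ.1 θ.2).1
        linarith) (hHs _ _) hKk (hU _ (Hs_symm (hcel θ.1).smq _))
    have h3 := (hall θ.1 θ.2).2.1
    exact ⟨(⟨l θ.1 θ.2, by omega⟩, o), rfl, ho⟩
  choose cls hcls1 hcls2 using hex
  have hcelb : ∀ θ : Θ, Cel (m + 1) A1 B' κ (r (l θ.1 θ.2))
      (max ‖Hs (q θ.1) (ζ θ.1 θ.2)‖ ((r (l θ.1 θ.2)) ^ 2)⁻¹) (ζ θ.1 θ.2) (q θ.1) (b θ.1 θ.2) :=
    fun θ => (hall θ.1 θ.2).2.2.2.1
  have hball : ∀ θ : Θ, ∀ y, ‖y - ζ θ.1 θ.2‖ < r (l θ.1 θ.2) → ‖y - z θ.1‖ < ρ := fun θ y hy => by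
    have h2 := (hall θ.1 θ.2).2.2.1
    have h3 := hrle _ (hall θ.1 θ.2).1
    calc ‖y - z θ.1‖ = ‖(y - ζ θ.1 θ.2) + (ζ θ.1 θ.2 - z θ.1)‖ := by congr 1; abel
      _ ≤ ‖y - ζ θ.1 θ.2‖ + ‖ζ θ.1 θ.2 - z θ.1‖ := norm_add_le _ _
      _ < ρ := by linarith
  set M' := M * (c0 + 1) with hM'
  have hcen : ∀ θ : Θ, ‖ζ θ.1 θ.2‖ ≤ (n1 : ℕ) := fun θ => by
    have h2 := (hall θ.1 θ.2).2.2.1
    have h3 := hz θ.1
    calc ‖ζ θ.1 θ.2‖ = ‖(ζ θ.1 θ.2 - z θ.1) + z θ.1‖ := by congr 1; abel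
      _ ≤ ‖ζ θ.1 θ.2 - z θ.1‖ + ‖z θ.1‖ := norm_add_le _ _
      _ ≤ (n1 : ℕ) := by
          rw [hn1]
          push_cast
          have : (0 : ℝ) ≤ n0 := Nat.cast_nonneg _
          linarith
  have hrn1 : ∀ l, l ≤ n0 + 1 → (K ^ n1)⁻¹ ≤ r l := fun l hl => by
    have h2 : K ^ l ≤ K ^ (n0 + 1) := pow_le_pow_right₀ (by linarith) hl
    calc (K ^ n1)⁻¹ ≤ (K ^ (n0 + (n0 + 1)))⁻¹ := by
          apply inv_anti₀ (by positivity)
          exact pow_le_pow_right₀ (by linarith) (by omega)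
      _ = (K ^ n0)⁻¹ / K ^ (n0 + 1) := by
          rw [pow_add, mul_inv, div_eq_mul_inv]
      _ ≤ ρ / K ^ l := by
          apply div_le_div₀ hρ.le hρ0 (by positivity) h2
  -- the bound for one class
  have hclass : ∀ o : γ, (o.2 = none →
      ∫⁻ x, ‖∑ θ : {θ : Θ // cls θ = o}, uu (b θ.1.1 θ.1.2) (q θ.1.1) x‖ₑ ^ p' ≤
      ENNReal.ofReal (Kc * (K * M') ^ CC) *
        (∑ θ : {θ : Θ // cls θ = o}, ∫⁻ y in Metric.ball (ζ θ.1.1 θ.1.2) (r (l θ.1.1 θ.1.2)),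
          G' θ.1.1 y ^ (p' - 2)) +
        ENNReal.ofReal ((K ^ N')⁻¹ * (Fintype.card {θ : Θ // cls θ = o} : ℝ) ^ p')) ∧
      (o.2 ≠ none → ∫⁻ x, ‖∑ θ : {θ : Θ // cls θ = o}, uu (b θ.1.1 θ.1.2) (q θ.1.1) x‖ₑ ^ p ≤
      ENNReal.ofReal (Kc * (K * M') ^ CC) *
        (∑ θ : {θ : Θ // cls θ = o}, ∫⁻ y in Metric.ball (ζ θ.1.1 θ.1.2) (r (l θ.1.1 θ.1.2)),
          G θ.1.1 y ^ (p - 2)) +
        ENNReal.ofReal ((K ^ N')⁻¹ * (Fintype.card {θ : Θ // cls θ = o} : ℝ) ^ p)) := by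
    intro o
    have hl : ∀ θ : {θ : Θ // cls θ = o}, l θ.1.1 θ.1.2 = (o.1 : ℕ) := fun θ => by
      rw [← hcls1 θ.1, θ.2]
    have hmult : Mult M' (r (o.1 : ℕ)) (fun θ : {θ : Θ // cls θ = o} => ζ θ.1.1 θ.1.2)
        (fun θ : {θ : Θ // cls θ = o} => q θ.1.1) := by
      refine mult_sub (m + 1) M (c0 + 1) ρ (r (o.1 : ℕ)) z q
        (fun θ : {θ : Θ // cls θ = o} => θ.1.1) _ hM (fun θ y hy => hball θ.1 y ?_)
        (fun i y => ?_)
      · rw [hl θ]; exact hy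
      · refine le_trans ?_ ((hov i y).trans (by exact_mod_cast Nat.le_succ c0))
        rw [← Subtype.val_injective.encard_image]
        refine le_trans (Set.encard_le_encard (t := (fun j : ι' i => (⟨i, j⟩ : Θ)) ''
          {j : ι' i | ‖y - ζ i j‖ < ρ / K ^ l i j}) ?_) (Set.encard_image_le _ _)
        rintro _ ⟨θ, ⟨h4, h5⟩, rfl⟩
        obtain ⟨⟨i', j'⟩, hcl⟩ := θ
        simp only at h4
        subst h4
        refine ⟨j', ?_, rfl⟩
        have h6 := hl ⟨⟨i', j'⟩, hcl⟩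
        simp only at h6
        simp only [mem_ofPred_eq]
        rw [h6]
        exact h5
    rcases isEmpty_or_nonempty {θ : Θ // cls θ = o} with he | ⟨⟨θ0⟩⟩
    · have h2 : ∀ pp : ℝ, 0 < pp → ∀ x : E (m + 1), ‖∑ θ : {θ : Θ // cls θ = o},
          uu (b θ.1.1 θ.1.2) (q θ.1.1) x‖ₑ ^ pp = 0 := fun pp hpp x => by
        rw [Finset.univ_eq_empty, Finset.sum_empty, enorm_zero,
          ENNReal.zero_rpow_of_pos hpp]
      constructor
      · intro _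
        simp only [h2 p' (by linarith), lintegral_zero]
        exact bot_le
      · intro _
        simp only [h2 p (by linarith), lintegral_zero]
        exact bot_le
    have hlo : (o.1 : ℕ) ≤ n0 + 1 := by
      have := o.1.2
      omega
    have hro1 : r (o.1 : ℕ) ≤ 1 := by
      rw [← hl θ0]
      have := hrle _ (hall θ0.1.1 θ0.1.2).1
      linarith
    have hcelb' : ∀ θ : {θ : Θ // cls θ = o}, Cel (m + 1) A1 B' κ (r (o.1 : ℕ))
        (max ‖Hs (q θ.1.1) (ζ θ.1.1 θ.1.2)‖ ((r (o.1 : ℕ)) ^ 2)⁻¹) (ζ θ.1.1 θ.1.2) (q θ.1.1)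
        (b θ.1.1 θ.1.2) := fun θ => by
      have := hcelb θ.1
      rwa [hl θ] at this
    have hLv : ∀ (θ : {θ : Θ // cls θ = o}) y, ‖y - ζ θ.1.1 θ.1.2‖ < r (o.1 : ℕ) →
        Lv K J ρ (q θ.1.1) y (r (o.1 : ℕ)) := fun θ y hy => by
      have h3 := (hall θ.1.1 θ.1.2).2.2.2.2 y
      rw [← hl θ] at hy ⊢
      exact h3 hy
    have hball' : ∀ (θ : {θ : Θ // cls θ = o}) y, ‖y - ζ θ.1.1 θ.1.2‖ < r (o.1 : ℕ) →
        ‖y - z θ.1.1‖ < ρ := fun θ y hy => by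
      rw [← hl θ] at hy
      exact hball θ.1 y hy
    have hclsP : ∀ θ : {θ : Θ // cls θ = o}, ClsP m n k0 K c U (Hs (q θ.1.1) (ζ θ.1.1 θ.1.2))
        (r (o.1 : ℕ)) o.2 := fun θ => by
      have h3 := hcls2 θ.1
      rw [θ.2] at h3
      rwa [hl θ] at h3
    have hM'1 : (1 : ℝ) ≤ M' := by
      have : 1 ≤ M' := by
        rw [hM']
        nlinarith
      exact_mod_cast this
    have hKM : 1 ≤ K * M' := by nlinarith
    have hrr := hrpos (o.1 : ℕ)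
    have key : ∀ (pp : ℝ) (GG : ι → E (m + 1) → ℝ≥0∞) (C' : ℕ) (Kx : ℝ), C' ≤ CC → 0 ≤ Kx →
        Kx ≤ Kc →
        Bnd pp Kx K M' C' N' (r (o.1 : ℕ)) (fun θ : {θ : Θ // cls θ = o} => ζ θ.1.1 θ.1.2)
          (fun θ : {θ : Θ // cls θ = o} => q θ.1.1) (fun θ : {θ : Θ // cls θ = o} => b θ.1.1 θ.1.2)
          (fun θ : {θ : Θ // cls θ = o} => GG θ.1.1) →
        ∫⁻ x, ‖∑ θ : {θ : Θ // cls θ = o}, uu (b θ.1.1 θ.1.2) (q θ.1.1) x‖ₑ ^ pp ≤
      ENNReal.ofReal (Kc * (K * M') ^ CC) *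
        (∑ θ : {θ : Θ // cls θ = o}, ∫⁻ y in Metric.ball (ζ θ.1.1 θ.1.2) (r (l θ.1.1 θ.1.2)),
          GG θ.1.1 y ^ (pp - 2)) +
        ENNReal.ofReal ((K ^ N')⁻¹ * (Fintype.card {θ : Θ // cls θ = o} : ℝ) ^ pp) := by
      intro pp GG C' Kx hC' hKx hKx' hB
      unfold Bnd at hB
      refine hB.trans ?_
      gcongr with θ _
      · rw [hl θ]
    rcases ho : o.2 with _ | ⟨k, pi⟩
    · refine ⟨fun _ => ?_, fun h => absurd rfl h⟩
      refine key p' G' CT K2 (le_max_left _ _) (by linarith) (le_max_right _ _) ?_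
      refine hTe K hKK2 _ _ _ _ _ M' _ (hrn1 _ hlo) hro1 (fun θ => hcen θ.1) (fun θ => ?_) hmult
        (fun θ => hG' _) (fun θ y w hy hw hw1 hw2 => ?_)
      · have h3 := hclsP θ
        rw [ho] at h3
        have h3' : ‖Hs (q θ.1.1) (ζ θ.1.1 θ.1.2)‖ * (r (o.1 : ℕ)) ^ 2 ≤ K := h3
        refine (hcelb' θ).mono5 hrr (by linarith) fun j => ?_
        refine mul_le_mul_of_nonneg_left (max_le ?_ ?_) (hA1p j)
        · rw [le_div_iff₀ (by positivity)]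
          nlinarith
        · rw [inv_eq_one_div]
          gcongr
          nlinarith
      · have h3 := hclsP θ
        rw [ho] at h3
        have h3' : ‖Hs (q θ.1.1) (ζ θ.1.1 θ.1.2)‖ * (r (o.1 : ℕ)) ^ 2 ≤ K := h3
        refine hGw' θ.1.1 y w (r (o.1 : ℕ)) (hball' θ y hy) hw (hLv θ y hy) ?_ hw1 hw2
        have h4 := (hcelb' θ).bdq 2 le_rfl y hy.le
        rw [norm_Hs_eq (hcel θ.1.1).smq]
        rw [mul_div_assoc, mul_div_cancel_right₀ _ (by positivity : (r (o.1 : ℕ)) ^ 2 ≠ 0)] at h4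
        have h5 : max ‖Hs (q θ.1.1) (ζ θ.1.1 θ.1.2)‖ ((r (o.1 : ℕ)) ^ 2)⁻¹ * (r (o.1 : ℕ)) ^ 2 ≤
            K := by
          rw [max_mul_of_nonneg _ _ (by positivity), inv_mul_cancel₀ (by positivity)]
          exact max_le h3' (by linarith)
        calc ‖iteratedFDeriv ℝ 2 (q θ.1.1) y‖ * (r (o.1 : ℕ)) ^ 2
            ≤ (A1 2 * max ‖Hs (q θ.1.1) (ζ θ.1.1 θ.1.2)‖ ((r (o.1 : ℕ)) ^ 2)⁻¹) *
              (r (o.1 : ℕ)) ^ 2 := by gcongr
          _ = A1 2 * (max ‖Hs (q θ.1.1) (ζ θ.1.1 θ.1.2)‖ ((r (o.1 : ℕ)) ^ 2)⁻¹ *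
              (r (o.1 : ℕ)) ^ 2) := by ring
          _ ≤ K * K := by
              gcongr
          _ = K ^ 2 := by ring
    · refine ⟨fun h => absurd h (by simp), fun _ => ?_⟩
      have hp0 := hclsP θ0
      rw [ho] at hp0
      obtain ⟨hq1, hq2, hq3, -⟩ := hp0
      have hRpos : (0 : ℝ) < 2 ^ (k : ℕ) := by positivity
      refine key p G (C1 + 1) K1 (le_max_right _ _) (by linarith) (le_max_left _ _) ?_
      refine hSl K hKK1 _ (U pi) _ _ _ _ (2 ^ (k : ℕ)) M' _ (hrn1 _ hlo) hro1 ?_ ?_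
        (fun θ => hcen θ.1) (fun θ => ?_) (fun θ => ?_) hmult (fun θ => hG _)
        (fun θ y w hy hw hw1 => ?_)
      · rw [pow_succ] at hq3
        have : 0 < (r (o.1 : ℕ)) ^ 2 := by positivity
        nlinarith
      · refine (hq2.trans (hHs _ _)).trans ?_
        exact pow_le_pow_right₀ (by linarith) (by omega)
      · have h3 := hclsP θ
        rw [ho] at h3
        obtain ⟨h4, h5, h6, -⟩ := h3
        refine (hcelb' θ).mono5 hrr le_rfl fun j => ?_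
        have h7 : max ‖Hs (q θ.1.1) (ζ θ.1.1 θ.1.2)‖ ((r (o.1 : ℕ)) ^ 2)⁻¹ ≤ 2 * 2 ^ (k : ℕ) := by
          refine max_le (by rw [pow_succ] at h6; linarith) ?_
          rw [inv_eq_one_div, div_le_iff₀ (by positivity)]
          have : 0 < (r (o.1 : ℕ)) ^ 2 := by positivity
          rw [pow_succ] at h6
          nlinarith
        calc A1 j * max ‖Hs (q θ.1.1) (ζ θ.1.1 θ.1.2)‖ ((r (o.1 : ℕ)) ^ 2)⁻¹
            ≤ A1 j * (2 * 2 ^ (k : ℕ)) := mul_le_mul_of_nonneg_left h7 (hA1p j)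
          _ = A2 j * 2 ^ (k : ℕ) := by rw [hA2]; ring
      · have h3 := hclsP θ
        rw [ho] at h3
        obtain ⟨-, h5, -, h6⟩ := h3
        exact le_trans (by gcongr) h6
      · exact hGw θ.1.1 y w (r (o.1 : ℕ)) (hball' θ y hy) hw (hLv θ y hy) hw1
  -- assembly
  have hcΘ : (Fintype.card Θ : ℝ) ≤ Fintype.card ι * K ^ c0 := by
    have e1 : Fintype.card Θ = ∑ i, Fintype.card (ι' i) := Fintype.card_sigma
    rw [e1, Nat.cast_sum]
    calc ∑ i, (Fintype.card (ι' i) : ℝ) ≤ ∑ _i : ι, K ^ c0 :=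
          Finset.sum_le_sum fun i _ => hcard i
      _ = Fintype.card ι * K ^ c0 := by
          rw [Finset.sum_const, nsmul_eq_mul, Finset.card_univ]
  have hcγ : (Fintype.card γ : ℝ) ≤ K ^ 2 := by
    have e1 : Fintype.card γ = (n0 + 2) * (k0 * n + 1) := by
      show Fintype.card (Fin (n0 + 2) × Option (Fin k0 × Fin n)) = _
      rw [Fintype.card_prod, Fintype.card_option, Fintype.card_prod, Fintype.card_fin,
        Fintype.card_fin, Fintype.card_fin]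
    rw [e1]
    push_cast
    exact hKn
  have hsub : ∀ i j, Metric.ball (ζ i j) (r (l i j)) ⊆ Metric.ball (z i) ρ := fun i j y hy => by
    rw [Metric.mem_ball, dist_eq_norm] at hy ⊢
    exact hball ⟨i, j⟩ y hy
  have hbi : ∀ i j, Integrable (b i j) := fun i j => (hcelb ⟨i, j⟩).int5
  have hqc : ∀ i, Continuous (q i) := fun i => (hcel i).smq.continuous
  set S : Finset γ := Finset.univ.filter fun o => o.2 ≠ none with hS'
  set S' : Finset γ := Finset.univ.filter fun o => ¬ o.2 ≠ none with hS''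
  refine ⟨fun x => ∑ o ∈ S, ∑ θ : {θ : Θ // cls θ = o}, uu (b θ.1.1 θ.1.2) (q θ.1.1) x,
    fun x => ∑ o ∈ S', ∑ θ : {θ : Θ // cls θ = o}, uu (b θ.1.1 θ.1.2) (q θ.1.1) x,
    continuous_finsetSum _ fun o _ => continuous_finsetSum _ fun θ _ =>
      continuous_uu5 (hbi _ _) (hqc _),
    continuous_finsetSum _ fun o _ => continuous_finsetSum _ fun θ _ =>
      continuous_uu5 (hbi _ _) (hqc _), fun x => ?_, fun x => ?_, ?_, ?_⟩
  · rw [hS', hS'', Finset.sum_filter_add_sum_filter_not,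
      Fintype.sum_fiberwise cls (fun θ : Θ => uu (b θ.1 θ.2) (q θ.1) x), Fintype.sum_sigma]
    refine Finset.sum_congr rfl fun i _ => ?_
    rw [← uu_sum5 (b i) (q i) (hqc i) (hbi i)]
    congr 1
    exact funext (hsum i)
  · have hB0 : 0 ≤ |B' 0| := abs_nonneg _
    calc ‖∑ o ∈ S', ∑ θ : {θ : Θ // cls θ = o}, uu (b θ.1.1 θ.1.2) (q θ.1.1) x‖ₑ
        ≤ ∑ o ∈ S', ∑ θ : {θ : Θ // cls θ = o}, ‖uu (b θ.1.1 θ.1.2) (q θ.1.1) x‖ₑ :=
          (enorm_sum_le _ _).trans (Finset.sum_le_sum fun o _ => enorm_sum_le _ _)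
      _ ≤ ∑ o, ∑ θ : {θ : Θ // cls θ = o}, ‖uu (b θ.1.1 θ.1.2) (q θ.1.1) x‖ₑ :=
          Finset.sum_le_univ_sum_of_nonneg fun _ => bot_le
      _ = ∑ i, ∑ j, ‖uu (b i j) (q i) x‖ₑ := by
          rw [Fintype.sum_fiberwise cls (fun θ : Θ => ‖uu (b θ.1 θ.2) (q θ.1) x‖ₑ),
            Fintype.sum_sigma]
      _ ≤ ∑ i, c0 * ∫⁻ _y in Metric.ball (z i) ρ, ENNReal.ofReal |B' 0| := by
          refine Finset.sum_le_sum fun i _ => ?_
          refine le_trans (Finset.sum_le_sum fun j _ =>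
            (hcelb ⟨i, j⟩).sup5 (hrpos _) (by linarith) x) ?_
          exact overlap_sum5 c0 (ζ i) (fun j => r (l i j)) (z i) ρ (fun _ => ENNReal.ofReal |B' 0|)
            measurable_const (hsub i) (hov i)
      _ = ENNReal.ofReal (|B' 0| * c0) * ∑ i, volume (Metric.ball (z i) ρ) := by
          rw [Finset.mul_sum, ENNReal.ofReal_mul hB0, ENNReal.ofReal_natCast]
          refine Finset.sum_congr rfl fun i _ => ?_
          rw [lintegral_const, Measure.restrict_apply_univ]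
          ring
      _ ≤ ENNReal.ofReal (max K0 Kc * (K * M) ^ (CC + 2 * P)) *
          ∑ i, volume (Metric.ball (z i) ρ) := by
          refine mul_le_mul_left (ENNReal.ofReal_le_ofReal ?_) _
          have h2 : |B' 0| * c0 ≤ max K0 Kc := (((le_max_right _ _).trans (le_max_left _ _)).trans
            (le_max_left _ _))
          have h3 : (1 : ℝ) ≤ (K * M) ^ (CC + 2 * P) := by
            have : (1 : ℝ) ≤ M := by exact_mod_cast hM1
            exact one_le_pow₀ (by nlinarith)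
          have h4 : 0 ≤ max K0 Kc := by positivity
          nlinarith
  · refine (asm6 (by linarith) cls q b ζ (fun i j => r (l i j)) z ρ G c0
      (ENNReal.ofReal (Kc * (K * M') ^ CC))
      (ENNReal.ofReal ((K ^ N')⁻¹ * (Fintype.card Θ : ℝ) ^ p)) S hqc hbi hG hsub
      (fun i y => hov i y) (fun o ho => ((hclass o).2 (Finset.mem_filter.1 ho).2).trans
        ?_)).trans ?_
    · gcongr
      exact Fintype.card_subtype_le _
    · exact const5 hp P CC c0 N _ _ _ M hpP K Kc _ (by linarith) hKc1 hM1 hcγ hcΘ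
        ((le_max_right _ _).trans (le_max_left _ _)) _
  · refine (asm6 (by linarith) cls q b ζ (fun i j => r (l i j)) z ρ G' c0
      (ENNReal.ofReal (Kc * (K * M') ^ CC))
      (ENNReal.ofReal ((K ^ N')⁻¹ * (Fintype.card Θ : ℝ) ^ p')) S' hqc hbi hG' hsub
      (fun i y => hov i y) (fun o ho => ((hclass o).1
        (not_not.1 (Finset.mem_filter.1 ho).2)).trans ?_)).trans ?_
    · gcongr
      exact Fintype.card_subtype_le _
    · exact const5 hp' P CC c0 N _ _ _ M hpP' K Kc _ (by linarith) hKc1 hM1 hcγ hcΘ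
        ((le_max_right _ _).trans (le_max_left _ _)) _

end Pool.Agent.GNP
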