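import Pool.Agent.GNP.GapB
import Pool.Agent.GNP.RT
import Mathlib.LinearAlgebra.Matrix.Kronecker
import Mathlib.LinearAlgebra.Matrix.Adjugate

/-!
The gap determinant `det (ad(K)² + v)` of a definite pencil is a product over the gaps of the roots.
-/

namespace Pool.Agent.GNP

open Set Pool.Agent.MP_6cbfb8_an
open scoped RealInnerProductSpace Kronecker

/-- The determinant of `ad(K)² + v` when `K` is diagonalised by `V`. -/
theorem gd_conj {d : ℕ} {K V W : Matrix (Fin d) (Fin d) ℝ} {μ : Fin d → ℝ} (hVW : V * W = 1)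
    (hK : K = V * Matrix.diagonal μ * W) (v : ℝ) :
    gd K v = ∏ a, ∏ b, ((μ a - μ b) ^ 2 + v) := by
  have hWV : W * V = 1 := mul_eq_one_comm.1 hVW
  set D : Matrix (Fin d) (Fin d) ℝ := Matrix.diagonal μ with hD
  set U : Matrix (Fin d × Fin d) (Fin d × Fin d) ℝ := V ⊗ₖ W.transpose with hU
  set U' : Matrix (Fin d × Fin d) (Fin d × Fin d) ℝ := W ⊗ₖ V.transpose with hU'
  set N : Matrix (Fin d × Fin d) (Fin d × Fin d) ℝ :=
    D ⊗ₖ (1 : Matrix (Fin d) (Fin d) ℝ) - (1 : Matrix (Fin d) (Fin d) ℝ) ⊗ₖ D with hN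
  have hWV' : V.transpose * W.transpose = 1 := by
    rw [← Matrix.transpose_mul, hWV, Matrix.transpose_one]
  have hVW' : W.transpose * V.transpose = 1 := by
    rw [← Matrix.transpose_mul, hVW, Matrix.transpose_one]
  have hUU' : U * U' = 1 := by
    rw [hU, hU', ← Matrix.mul_kronecker_mul, hVW, hVW', Matrix.one_kronecker_one]
  have hU'U : U' * U = 1 := mul_eq_one_comm.1 hUU'
  have hKt : K.transpose = W.transpose * D * V.transpose := by
    rw [hK, Matrix.transpose_mul, Matrix.transpose_mul, hD, Matrix.diagonal_transpose, mul_assoc]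
  have e1 : K ⊗ₖ (1 : Matrix (Fin d) (Fin d) ℝ) =
      U * (D ⊗ₖ (1 : Matrix (Fin d) (Fin d) ℝ)) * U' := by
    rw [hU, hU', ← Matrix.mul_kronecker_mul, ← Matrix.mul_kronecker_mul, mul_one, hVW', ← hK]
  have e2 : (1 : Matrix (Fin d) (Fin d) ℝ) ⊗ₖ K.transpose =
      U * ((1 : Matrix (Fin d) (Fin d) ℝ) ⊗ₖ D) * U' := by
    rw [hU, hU', ← Matrix.mul_kronecker_mul, ← Matrix.mul_kronecker_mul, mul_one, hVW, ← hKt]
  have e3 : (K ⊗ₖ (1 : Matrix (Fin d) (Fin d) ℝ) -
      (1 : Matrix (Fin d) (Fin d) ℝ) ⊗ₖ K.transpose) ^ 2 +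
      v • (1 : Matrix (Fin d × Fin d) (Fin d × Fin d) ℝ) = U * (N ^ 2 + v • 1) * U' := by
    have h1 : K ⊗ₖ (1 : Matrix (Fin d) (Fin d) ℝ) -
        (1 : Matrix (Fin d) (Fin d) ℝ) ⊗ₖ K.transpose = U * N * U' := by
      rw [e1, e2, hN, mul_sub, sub_mul]
    have h2 : (U * N * U') ^ 2 = U * N ^ 2 * U' := by
      calc (U * N * U') ^ 2 = U * N * (U' * U) * N * U' := by noncomm_ring
        _ = _ := by rw [hU'U]; noncomm_ring
    have h3 : v • (1 : Matrix (Fin d × Fin d) (Fin d × Fin d) ℝ) = U * (v • 1) * U' := by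
      rw [Matrix.mul_smul, mul_one, Matrix.smul_mul, hUU']
    rw [h1, h2]
    nth_rewrite 1 [h3]
    rw [mul_add, add_mul]
  have e4 : N ^ 2 + v • (1 : Matrix (Fin d × Fin d) (Fin d × Fin d) ℝ) =
      Matrix.diagonal fun p : Fin d × Fin d => (μ p.1 - μ p.2) ^ 2 + v := by
    have h1 : N = Matrix.diagonal fun p : Fin d × Fin d => μ p.1 - μ p.2 := by
      have h2 : (1 : Matrix (Fin d) (Fin d) ℝ) = Matrix.diagonal fun _ => 1 :=
        Matrix.diagonal_one.symm
      rw [hN, hD, h2, Matrix.diagonal_kronecker_diagonal, Matrix.diagonal_kronecker_diagonal,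
        Matrix.diagonal_sub]
      congr 1
      funext p
      ring
    rw [h1, Matrix.diagonal_pow, ← Matrix.diagonal_one, ← Matrix.diagonal_smul,
      Matrix.diagonal_add]
    congr 1
    funext p
    simp
  unfold gd
  rw [e3, e4, Matrix.det_mul, Matrix.det_mul, Matrix.det_diagonal, mul_comm, ← mul_assoc,
    ← Matrix.det_mul, hU'U, Matrix.det_one, one_mul, Fintype.prod_prod_type]

theorem mtx_mulVec {d : ℕ} (T : E d →L[ℝ] E d) (x : E d) (k : Fin d) :
    ∑ l, mtx T k l * x l = (T x) k := by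
  have h1 : x = ∑ l, x l • (EuclideanSpace.basisFun (Fin d) ℝ l) := by
    have := (EuclideanSpace.basisFun (Fin d) ℝ).sum_repr x
    refine this.symm.trans (Finset.sum_congr rfl fun l _ => ?_)
    rw [EuclideanSpace.basisFun_repr]
  conv_rhs => rw [h1]
  rw [map_sum]
  simp only [map_smul]
  rw [WithLp.ofLp_sum, Finset.sum_apply]
  refine Finset.sum_congr rfl fun l _ => ?_
  rw [mtx_apply, WithLp.ofLp_smul, Pi.smul_apply, smul_eq_mul, mul_comm]

theorem det_mtx {d : ℕ} (T : E d →L[ℝ] E d) : (mtx T).det = T.det := by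
  unfold mtx
  rw [LinearMap.det_toMatrix]

/-- The gap determinant of a definite pencil is the product over the gaps of the roots. -/
theorem gd_kp {d : ℕ} (P Q : E d →L[ℝ] E d) (b : ℝ) (hb : 0 < b) (hP : Sy P) (hQ : Sy Q)
    (hQb : ∀ v, b * ‖v‖ ^ 2 ≤ ⟪Q v, v⟫) (v : ℝ) :
    gd (kp P Q) v = ∏ a, ∏ b', ((Q.det * RT.rt P Q a - Q.det * RT.rt P Q b') ^ 2 + v) := by
  obtain ⟨-, w, hw1, hw2⟩ := RT.rt_spec hP hQ hb hQb
  set V : Matrix (Fin d) (Fin d) ℝ := fun k i => w i k with hV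
  have hQV : ∀ k i, (mtx Q * V) k i = (Q (w i)) k := by
    intro k i
    rw [Matrix.mul_apply]
    exact mtx_mulVec Q (w i) k
  have hPV : ∀ k i, (mtx P * V) k i = (P (w i)) k := by
    intro k i
    rw [Matrix.mul_apply]
    exact mtx_mulVec P (w i) k
  have h1 : V.transpose * (mtx Q * V) = 1 := by
    ext i j
    rw [Matrix.mul_apply, Matrix.one_apply]
    have h2 := hw1 j i
    rw [PiLp.inner_apply] at h2
    have h3 : ∑ k, V.transpose i k * (mtx Q * V) k j = ∑ k, ⟪(Q (w j)) k, (w i) k⟫ := by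
      refine Finset.sum_congr rfl fun k _ => ?_
      rw [hQV, Matrix.transpose_apply]
      simp [hV]
    rw [h3, h2]
    simp only [eq_comm]
  have h2 : (V.transpose * mtx Q) * V = 1 := by rw [mul_assoc, h1]
  have h3 : V * (V.transpose * mtx Q) = 1 := mul_eq_one_comm.1 h2
  have h4 : mtx P * V = mtx Q * V * Matrix.diagonal (RT.rt P Q) := by
    ext k i
    rw [hPV, Matrix.mul_diagonal, hQV, hw2]
    simp [mul_comm]
  have h5 : kp P Q * V = V * Matrix.diagonal fun i => Q.det * RT.rt P Q i := by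
    have h6 : (Matrix.diagonal fun i => Q.det * RT.rt P Q i) = Q.det • Matrix.diagonal (RT.rt P Q) := by
      rw [← Matrix.diagonal_smul]
      rfl
    unfold kp
    rw [mul_assoc, h4, ← mul_assoc, ← mul_assoc, Matrix.adjugate_mul, det_mtx, h6, Matrix.smul_mul,
      one_mul, Matrix.smul_mul, Matrix.mul_smul]
  refine gd_conj h3 ?_ v
  rw [← h5, mul_assoc, h3, mul_one]

end Pool.Agent.GNP
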