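import Pool.Agent.GNP.P0x
import Mathlib.LinearAlgebra.Matrix.Kronecker

/-!
Families of smooth functions with polynomially bounded derivatives.
-/

namespace Pool.Agent.GNP

open MeasureTheory Set Pool.Agent.MP_6cbfb8_an
open scoped ENNReal Real RealInnerProductSpace ContDiff

/-- The derivatives of order `j` of the members of the family are at most `A j * L ^ N`. -/
def GB {ι : Type*} {d : ℕ} (L : ι → ℝ) (F : ι → E d → ℝ) : Prop :=
  ∃ (N : ℕ) (A : ℕ → ℝ), ∀ i, ContDiff ℝ ∞ (F i) ∧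
    ∀ j y, ‖iteratedFDeriv ℝ j (F i) y‖ ≤ A j * L i ^ N

section

variable {ι : Type*} {d : ℕ} {L : ι → ℝ}

theorem GB.const (hL : ∀ i, 1 ≤ L i) (a : ι → ℝ) (B : ℝ) (N : ℕ) (ha : ∀ i, |a i| ≤ B * L i ^ N) :
    GB L (fun i (_ : E d) => a i) := by
  refine ⟨N, fun j => |B|, fun i => ⟨contDiff_const, fun j y => ?_⟩⟩
  have hL0 : 0 ≤ L i ^ N := pow_nonneg (zero_le_one.trans (hL i)) N
  rcases Nat.eq_zero_or_pos j with rfl | hj
  · rw [norm_iteratedFDeriv_zero, Real.norm_eq_abs]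
    exact (ha i).trans (mul_le_mul_of_nonneg_right (le_abs_self B) hL0)
  · rw [iteratedFDeriv_const_of_ne hj.ne']
    simp only [Pi.zero_apply, norm_zero]
    exact mul_nonneg (abs_nonneg B) hL0

theorem GB.add {F G : ι → E d → ℝ} (hL : ∀ i, 1 ≤ L i) (hF : GB L F) (hG : GB L G) :
    GB L (fun i y => F i y + G i y) := by
  obtain ⟨N, A, hA⟩ := hF
  obtain ⟨M, B, hB⟩ := hG
  refine ⟨N + M, fun j => |A j| + |B j|, fun i => ⟨(hA i).1.add (hB i).1, fun j y => ?_⟩⟩
  have h1 : L i ^ N ≤ L i ^ (N + M) := pow_le_pow_right₀ (hL i) (Nat.le_add_right N M)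
  have h2 : L i ^ M ≤ L i ^ (N + M) := pow_le_pow_right₀ (hL i) (Nat.le_add_left M N)
  have h3 : iteratedFDeriv ℝ j (fun y => F i y + G i y) y =
      iteratedFDeriv ℝ j (F i) y + iteratedFDeriv ℝ j (G i) y :=
    fun_iteratedFDeriv_add_apply ((hA i).1.of_le (by exact_mod_cast le_top)).contDiffAt
      ((hB i).1.of_le (by exact_mod_cast le_top)).contDiffAt
  have hL0 : ∀ k : ℕ, 0 ≤ L i ^ k := fun k => pow_nonneg (zero_le_one.trans (hL i)) k
  calc _ = ‖iteratedFDeriv ℝ j (F i) y + iteratedFDeriv ℝ j (G i) y‖ := by rw [h3]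
    _ ≤ ‖iteratedFDeriv ℝ j (F i) y‖ + ‖iteratedFDeriv ℝ j (G i) y‖ := norm_add_le _ _
    _ ≤ |A j| * L i ^ (N + M) + |B j| * L i ^ (N + M) := add_le_add
        (((hA i).2 j y).trans (mul_le_mul (le_abs_self _) h1 (hL0 N) (abs_nonneg _)))
        (((hB i).2 j y).trans (mul_le_mul (le_abs_self _) h2 (hL0 M) (abs_nonneg _)))
    _ = _ := by ring

theorem GB.mul {F G : ι → E d → ℝ} (hL : ∀ i, 1 ≤ L i) (hF : GB L F) (hG : GB L G) :
    GB L (fun i y => F i y * G i y) := by
  obtain ⟨N, A, hA⟩ := hF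
  obtain ⟨M, B, hB⟩ := hG
  refine ⟨N + M, fun j => ∑ k ∈ Finset.range (j + 1), (j.choose k : ℝ) * |A k| * |B (j - k)|,
    fun i => ⟨(hA i).1.mul (hB i).1, fun j y => ?_⟩⟩
  have hL0 : ∀ k : ℕ, 0 ≤ L i ^ k := fun k => pow_nonneg (zero_le_one.trans (hL i)) k
  calc _ ≤ ∑ k ∈ Finset.range (j + 1), (j.choose k : ℝ) * ‖iteratedFDeriv ℝ k (F i) y‖ *
        ‖iteratedFDeriv ℝ (j - k) (G i) y‖ :=
        norm_iteratedFDeriv_mul_le (N := ∞) (hA i).1 (hB i).1 y (by exact_mod_cast le_top)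
    _ ≤ ∑ k ∈ Finset.range (j + 1), (j.choose k : ℝ) * (|A k| * L i ^ N) *
        (|B (j - k)| * L i ^ M) := by
        refine Finset.sum_le_sum fun k _ => ?_
        refine mul_le_mul (mul_le_mul_of_nonneg_left
          (((hA i).2 k y).trans (mul_le_mul_of_nonneg_right (le_abs_self _) (hL0 N)))
          (Nat.cast_nonneg _))
          (((hB i).2 _ y).trans (mul_le_mul_of_nonneg_right (le_abs_self _) (hL0 M)))
          (norm_nonneg _) ?_
        exact mul_nonneg (Nat.cast_nonneg _) (mul_nonneg (abs_nonneg _) (hL0 N))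
    _ = _ := by
        rw [Finset.sum_mul]
        refine Finset.sum_congr rfl fun k _ => ?_
        rw [pow_add]
        ring

theorem GB.sum {κ : Type*} (hL : ∀ i, 1 ≤ L i) (s : Finset κ) (F : κ → ι → E d → ℝ)
    (hF : ∀ k ∈ s, GB L (F k)) : GB L (fun i y => ∑ k ∈ s, F k i y) := by
  classical
  induction s using Finset.induction_on with
  | empty => simpa using GB.const (d := d) hL (fun _ => 0) 0 0 (by simp)
  | insert a s ha ih =>
    simp only [Finset.sum_insert ha]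
    exact GB.add hL (hF a (Finset.mem_insert_self a s))
      (ih fun k hk => hF k (Finset.mem_insert_of_mem hk))

theorem GB.prod {κ : Type*} (hL : ∀ i, 1 ≤ L i) (s : Finset κ) (F : κ → ι → E d → ℝ)
    (hF : ∀ k ∈ s, GB L (F k)) : GB L (fun i y => ∏ k ∈ s, F k i y) := by
  classical
  induction s using Finset.induction_on with
  | empty => simpa using GB.const (d := d) hL (fun _ => 1) 1 0 (by simp)
  | insert a s ha ih =>
    simp only [Finset.prod_insert ha]
    exact GB.mul hL (hF a (Finset.mem_insert_self a s))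
      (ih fun k hk => hF k (Finset.mem_insert_of_mem hk))

theorem GB.cst (hL : ∀ i, 1 ≤ L i) (a : ℝ) : GB L (fun _ (_ : E d) => a) :=
  GB.const hL (fun _ => a) |a| 0 (by simp)

theorem GB.neg {F : ι → E d → ℝ} (hL : ∀ i, 1 ≤ L i) (hF : GB L F) :
    GB L (fun i y => -F i y) := by
  have h := GB.mul hL (GB.cst (d := d) hL (-1)) hF
  simpa using h

theorem GB.sub {F G : ι → E d → ℝ} (hL : ∀ i, 1 ≤ L i) (hF : GB L F) (hG : GB L G) :
    GB L (fun i y => F i y - G i y) := by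
  have h := GB.add hL hF (GB.neg hL hG)
  simpa [sub_eq_add_neg] using h

/-- Matrices with entries in the class. -/
def GM {n m : Type*} (L : ι → ℝ) (M : ι → E d → Matrix n m ℝ) : Prop :=
  ∀ a b, GB L (fun i y => M i y a b)

theorem GM.det {n : Type*} [Fintype n] [DecidableEq n] (hL : ∀ i, 1 ≤ L i)
    {M : ι → E d → Matrix n n ℝ} (hM : GM L M) : GB L (fun i y => (M i y).det) := by
  simp only [Matrix.det_apply']
  exact GB.sum hL _ _ fun σ _ => GB.mul hL (GB.cst hL _) (GB.prod hL _ _ fun a _ => hM _ _)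

theorem GM.mul {n m o : Type*} [Fintype m] (hL : ∀ i, 1 ≤ L i)
    {M : ι → E d → Matrix n m ℝ} {M' : ι → E d → Matrix m o ℝ} (hM : GM L M) (hM' : GM L M') :
    GM L (fun i y => M i y * M' i y) := by
  intro a b
  simp only [Matrix.mul_apply]
  exact GB.sum hL _ _ fun k _ => GB.mul hL (hM _ _) (hM' _ _)

theorem GM.add {n m : Type*} (hL : ∀ i, 1 ≤ L i)
    {M M' : ι → E d → Matrix n m ℝ} (hM : GM L M) (hM' : GM L M') :
    GM L (fun i y => M i y + M' i y) := fun a b => GB.add hL (hM a b) (hM' a b)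

theorem GM.sub {n m : Type*} (hL : ∀ i, 1 ≤ L i)
    {M M' : ι → E d → Matrix n m ℝ} (hM : GM L M) (hM' : GM L M') :
    GM L (fun i y => M i y - M' i y) := fun a b => GB.sub hL (hM a b) (hM' a b)

theorem GM.cst {n m : Type*} (hL : ∀ i, 1 ≤ L i) (M : Matrix n m ℝ) :
    GM L (fun _ (_ : E d) => M) := fun a b => GB.cst hL (M a b)

theorem GM.transpose {n m : Type*} {M : ι → E d → Matrix n m ℝ} (hM : GM L M) :
    GM L (fun i y => (M i y).transpose) := fun a b => hM b a

theorem GM.kron {n m o q : Type*} (hL : ∀ i, 1 ≤ L i)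
    {M : ι → E d → Matrix n m ℝ} {M' : ι → E d → Matrix o q ℝ} (hM : GM L M) (hM' : GM L M') :
    GM L (fun i y => Matrix.kroneckerMap (· * ·) (M i y) (M' i y)) :=
  fun _ _ => GB.mul hL (hM _ _) (hM' _ _)

theorem GM.smul {n m : Type*} (hL : ∀ i, 1 ≤ L i) {f : ι → E d → ℝ} (hf : GB L f)
    {M : ι → E d → Matrix n m ℝ} (hM : GM L M) :
    GM L (fun i y => f i y • M i y) := fun a b => GB.mul hL hf (hM a b)

theorem GM.adjugate {n : Type*} [Fintype n] [DecidableEq n] (hL : ∀ i, 1 ≤ L i)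
    {M : ι → E d → Matrix n n ℝ} (hM : GM L M) : GM L (fun i y => (M i y).adjugate) := by
  intro a b
  simp only [Matrix.adjugate_apply]
  refine GM.det (M := fun i y => (M i y).updateRow b (Pi.single a 1)) hL ?_
  intro a' b'
  by_cases h : a' = b
  · subst h
    simp only [Matrix.updateRow_self]
    exact GB.cst hL _
  · simp only [Matrix.updateRow_ne h]
    exact hM a' b'

end

end Pool.Agent.GNP
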