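import Pool.Agent.GNP.GapA

/-!
The function `det (ad(K)² + v)` of the pencil `(-c D²Φ, -D²h)`.
-/

namespace Pool.Agent.GNP

open MeasureTheory Set Pool.Agent.MP_6cbfb8_an
open scoped ENNReal Real RealInnerProductSpace ContDiff Kronecker

/-- The matrix of an operator. -/
noncomputable def mtx {d : ℕ} (T : E d →L[ℝ] E d) : Matrix (Fin d) (Fin d) ℝ :=
  LinearMap.toMatrix (EuclideanSpace.basisFun (Fin d) ℝ).toBasis
    (EuclideanSpace.basisFun (Fin d) ℝ).toBasis (T : E d →ₗ[ℝ] E d)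

theorem mtx_apply {d : ℕ} (T : E d →L[ℝ] E d) (i j : Fin d) :
    mtx T i j = (T (EuclideanSpace.basisFun (Fin d) ℝ j)) i := by
  simp [mtx, LinearMap.toMatrix_apply]

theorem mtx_neg {d : ℕ} (T : E d →L[ℝ] E d) : mtx (-T) = -mtx T := by
  ext i j; simp [mtx_apply]

theorem mtx_smul {d : ℕ} (c : ℝ) (T : E d →L[ℝ] E d) : mtx (c • T) = c • mtx T := by
  ext i j; simp [mtx_apply]

/-- The matrix `K` with `det K = ..`: the adjugate of `Q` times `P`. -/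
noncomputable def kp {d : ℕ} (P Q : E d →L[ℝ] E d) : Matrix (Fin d) (Fin d) ℝ :=
  (mtx Q).adjugate * mtx P

/-- `det (ad(K)² + v)`. -/
noncomputable def gd {d : ℕ} (K : Matrix (Fin d) (Fin d) ℝ) (v : ℝ) : ℝ :=
  ((K ⊗ₖ (1 : Matrix (Fin d) (Fin d) ℝ) - (1 : Matrix (Fin d) (Fin d) ℝ) ⊗ₖ K.transpose) ^ 2 +
    v • (1 : Matrix (Fin d × Fin d) (Fin d × Fin d) ℝ)).det

/-- The gap function of the pencil. -/
noncomputable def gF {d : ℕ} (Φ h : E d → ℝ) (c v : ℝ) (y : E d) : ℝ :=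
  gd (kp (-(c • Hs Φ y)) (-Hs h y)) v

theorem GB_Hs {ι : Type*} {d : ℕ} {L : ι → ℝ} (q : ι → E d → ℝ) (A : ℕ → ℝ)
    (hq : ∀ i, Sm d A (q i)) : GM L (fun i y => mtx (Hs (q i) y)) := by
  intro k j
  set ℓ : (E d →L[ℝ] E d) →L[ℝ] ℝ := (EuclideanSpace.proj k : E d →L[ℝ] ℝ) ∘L
    (ContinuousLinearMap.apply ℝ (E d) (EuclideanSpace.basisFun (Fin d) ℝ j)) with hℓ
  have he : ∀ i, (fun y => mtx (Hs (q i) y) k j) = ℓ ∘ Hs (q i) := by
    intro i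
    funext y
    rw [mtx_apply]
    simp [hℓ]
  refine ⟨0, fun m => ‖ℓ‖ * A (m + 2), fun i => ?_⟩
  show ContDiff ℝ ∞ (fun y => mtx (Hs (q i) y) k j) ∧
    ∀ m y, ‖iteratedFDeriv ℝ m (fun y => mtx (Hs (q i) y) k j) y‖ ≤ ‖ℓ‖ * A (m + 2) * L i ^ 0
  rw [he i]
  have hc : ContDiff ℝ ∞ (Hs (q i)) := contDiff_Hs (hq i).sm
  refine ⟨ℓ.contDiff.comp hc, fun m y => ?_⟩
  rw [ContinuousLinearMap.iteratedFDeriv_comp_left ℓ hc.contDiffAt (by exact_mod_cast le_top)]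
  calc _ ≤ ‖ℓ‖ * ‖iteratedFDeriv ℝ m (Hs (q i)) y‖ :=
        ContinuousLinearMap.norm_compContinuousMultilinearMap_le _ _
    _ ≤ ‖ℓ‖ * A (m + 2) := by
        rw [norm_iteratedFDeriv_Hs (hq i).sm]
        exact mul_le_mul_of_nonneg_left ((hq i).bd _ _) (ContinuousLinearMap.opNorm_nonneg ℓ)
    _ = _ := by ring

/-- The data. -/
structure GD (d : ℕ) (A : ℕ → ℝ) (B : ℝ) where
  Φ : E d → ℝ
  h : E d → ℝ
  c : ℝ
  v : ℝ
  L : ℝ
  hΦ : Sm d A Φ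
  hh : Sm d A h
  hc : |c| ≤ L
  hv : |v| ≤ B * L ^ 6
  hL : 1 ≤ L

theorem gF_bound (d : ℕ) (A : ℕ → ℝ) (B : ℝ) : ∃ (N : ℕ) (A' : ℕ → ℝ),
    ∀ (Φ h : E d → ℝ) (c v L : ℝ), Sm d A Φ → Sm d A h → |c| ≤ L → |v| ≤ B * L ^ 6 → 1 ≤ L →
      ContDiff ℝ ∞ (gF Φ h c v) ∧
      ∀ j y, ‖iteratedFDeriv ℝ j (gF Φ h c v) y‖ ≤ A' j * L ^ N := by
  have hL : ∀ i : GD d A B, 1 ≤ i.L := fun i => i.hL
  have hP : GM (fun i : GD d A B => i.L) (fun i y => mtx (-(i.c • Hs i.Φ y))) := by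
    have h1 := GB_Hs (L := fun i : GD d A B => i.L) (fun i : GD d A B => i.Φ) A (fun i => i.hΦ)
    have h2 := GM.smul (f := fun (i : GD d A B) (_ : E d) => -i.c) hL
      (GB.const hL (fun i => -i.c) 1 1 (fun i => by simpa using i.hc)) h1
    intro a b
    have h3 := h2 a b
    simpa [mtx_neg, mtx_smul] using h3
  have hQ : GM (fun i : GD d A B => i.L) (fun i y => mtx (-Hs i.h y)) := by
    intro a b
    have h1 := GB.neg hL (GB_Hs (L := fun i : GD d A B => i.L) (fun i : GD d A B => i.h) A (fun i => i.hh) a b)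
    simpa [mtx_neg] using h1
  have hK : GM (fun i : GD d A B => i.L) (fun i y => kp (-(i.c • Hs i.Φ y)) (-Hs i.h y)) :=
    GM.mul hL (GM.adjugate hL hQ) hP
  have h1 : GM (fun i : GD d A B => i.L) (fun (_ : GD d A B) (_ : E d) =>
      (1 : Matrix (Fin d) (Fin d) ℝ)) := GM.cst hL 1
  have hD := GM.sub hL (GM.kron hL hK h1) (GM.kron hL h1 (GM.transpose hK))
  have hv : GM (fun i : GD d A B => i.L) (fun (i : GD d A B) (_ : E d) =>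
      i.v • (1 : Matrix (Fin d × Fin d) (Fin d × Fin d) ℝ)) :=
    GM.smul (f := fun (i : GD d A B) (_ : E d) => i.v) hL
      (GB.const hL (fun i => i.v) B 6 (fun i => i.hv)) (GM.cst hL 1)
  have hF := GM.det hL (GM.add hL (GM.mul hL hD hD) hv)
  obtain ⟨N, A', hA'⟩ := hF
  refine ⟨N, A', fun Φ h c v L hΦ hh hc hv hL => ?_⟩
  have h2 := hA' ⟨Φ, h, c, v, L, hΦ, hh, hc, hv, hL⟩
  have h3 : gF Φ h c v = fun y => (((kp (-(c • Hs Φ y)) (-Hs h y)) ⊗ₖ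
      (1 : Matrix (Fin d) (Fin d) ℝ) - (1 : Matrix (Fin d) (Fin d) ℝ) ⊗ₖ
      (kp (-(c • Hs Φ y)) (-Hs h y)).transpose) * ((kp (-(c • Hs Φ y)) (-Hs h y)) ⊗ₖ
      (1 : Matrix (Fin d) (Fin d) ℝ) - (1 : Matrix (Fin d) (Fin d) ℝ) ⊗ₖ
      (kp (-(c • Hs Φ y)) (-Hs h y)).transpose) +
      v • (1 : Matrix (Fin d × Fin d) (Fin d × Fin d) ℝ)).det := by
    funext y
    rw [gF, gd, pow_two]
  rw [h3]
  exact h2

end Pool.Agent.GNP
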