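import Pool.Agent.GNP.SL
import Pool.Agent.GNP.TP

/-!
Sets where a smooth function is not comparable with its derivatives at the scale `σ`.
-/

namespace Pool.Agent.GNP

open MeasureTheory Set Pool.Agent.MP_6cbfb8_an
open scoped ENNReal Real RealInnerProductSpace ContDiff

theorem taylor_stable {d : ℕ} (J : ℕ) {f : E d → ℝ} (hf : ContDiff ℝ ∞ f) {y : E d}
    {X σ B : ℝ} (hσ : 0 < σ) (hX : 0 ≤ X)
    (h : ∀ i, 1 ≤ i → i ≤ J → ‖iteratedFDeriv ℝ i f y‖ ≤ X * σ⁻¹ ^ i)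
    (hB : ∀ z, ‖z - y‖ ≤ σ / 8 → ‖iteratedFDeriv ℝ (J + 1) f z‖ ≤ B)
    (hB' : B * (σ / 8) ^ (J + 1) ≤ X / 4) {z : E d} (hz : ‖z - y‖ ≤ σ / 8) :
    |f z - f y| ≤ X / 2 := by
  have hδ : 0 < σ / 8 := by positivity
  have h1 := TP_remainder hf y J (σ / 8) B hδ hB (J + 1) le_rfl z hz
  rw [Nat.sub_self, norm_iteratedFDeriv_zero, Real.norm_eq_abs] at h1
  have h2 : TPT f y J z - f y = ∑ k ∈ Finset.range J, TPp f y J (k + 1) (fun _ => z - y) := by
    rw [TPT, Finset.sum_range_succ']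
    have : TPp f y J 0 (fun _ => z - y) = f y := by simp [TPp]
    rw [this]
    ring
  have h3 : ∀ k ∈ Finset.range J, |TPp f y J (k + 1) (fun _ => z - y)| ≤ X * (1 / 8) ^ (k + 1) := by
    intro k hk
    have hk' : k + 1 ≤ J := by
      have := Finset.mem_range.mp hk
      omega
    have hfac : (1 : ℝ) ≤ ((k + 1).factorial : ℝ) := by exact_mod_cast Nat.factorial_pos _
    have e : TPp f y J (k + 1) (fun _ => z - y) =
        (((k + 1).factorial : ℝ)⁻¹) * iteratedFDeriv ℝ (k + 1) f y (fun _ => z - y) := by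
      rw [TPp, if_pos hk']
      rfl
    rw [e, abs_mul, abs_of_nonneg (by positivity)]
    have h4 : |iteratedFDeriv ℝ (k + 1) f y (fun _ => z - y)| ≤
        (X * σ⁻¹ ^ (k + 1)) * (σ / 8) ^ (k + 1) := by
      refine ((iteratedFDeriv ℝ (k + 1) f y).le_opNorm _).trans ?_
      simp only [Finset.prod_const, Finset.card_univ, Fintype.card_fin]
      exact mul_le_mul (h (k + 1) (by omega) hk') (pow_le_pow_left₀ (norm_nonneg _) hz _)
        (by positivity) (by positivity)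
    have h5 : (X * σ⁻¹ ^ (k + 1)) * (σ / 8) ^ (k + 1) = X * (1 / 8) ^ (k + 1) := by
      rw [mul_assoc, ← mul_pow]
      congr 2
      field_simp
    calc _ ≤ 1 * |iteratedFDeriv ℝ (k + 1) f y (fun _ => z - y)| :=
          mul_le_mul_of_nonneg_right (inv_le_one_of_one_le₀ hfac) (abs_nonneg _)
      _ ≤ _ := by rw [one_mul, ← h5]; exact h4
  have h6 : |TPT f y J z - f y| ≤ X / 7 := by
    rw [h2]
    refine (Finset.abs_sum_le_sum_abs _ _).trans ((Finset.sum_le_sum h3).trans ?_)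
    rw [← Finset.mul_sum]
    have h7 : ∑ k ∈ Finset.range J, (1 / 8 : ℝ) ^ (k + 1) ≤ 1 / 7 := by
      have h8 : ∀ n : ℕ, ∑ k ∈ Finset.range n, (1 / 8 : ℝ) ^ (k + 1) = 1 / 7 - (1 / 8) ^ n / 7 := by
        intro n
        induction n with
        | zero => simp
        | succ n ih => rw [Finset.sum_range_succ, ih]; ring
      rw [h8]
      have : (0 : ℝ) ≤ (1 / 8) ^ J / 7 := by positivity
      linarith
    calc _ ≤ X * (1 / 7) := mul_le_mul_of_nonneg_left h7 hX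
      _ = X / 7 := by ring
  have h9 : |f z - f y| ≤ |f z - TPT f y J z| + |TPT f y J z - f y| := by
    have : f z - f y = (f z - TPT f y J z) + (TPT f y J z - f y) := by ring
    rw [this]
    exact abs_add_le _ _
  linarith

theorem nat_le_pow (δ : ℝ) (hδ : 0 < δ) : ∃ K : ℝ, 0 < K ∧ ∀ n : ℕ,
    (n : ℝ) + 2 ≤ K * ((2 : ℝ) ^ n) ^ δ := by
  have hl : 0 < Real.log 2 := Real.log_pos (by norm_num)
  refine ⟨2 + 1 / (δ * Real.log 2), by positivity, fun n => ?_⟩
  have h1 : ((2 : ℝ) ^ n) ^ δ = Real.exp (n * (δ * Real.log 2)) := by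
    rw [Real.rpow_def_of_pos (by positivity), Real.log_pow]
    congr 1
    ring
  rw [h1]
  have h2 := Real.add_one_le_exp ((n : ℝ) * (δ * Real.log 2))
  have hx : 0 < δ * Real.log 2 := by positivity
  have h3 : (1 : ℝ) ≤ Real.exp (n * (δ * Real.log 2)) := Real.one_le_exp (by positivity)
  have h4 : (n : ℝ) * (δ * Real.log 2) ≤ Real.exp (n * (δ * Real.log 2)) := by linarith
  have h5 : (n : ℝ) ≤ 1 / (δ * Real.log 2) * Real.exp (n * (δ * Real.log 2)) := by
    rw [one_div, ← div_eq_inv_mul, le_div_iff₀ hx]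
    exact h4
  nlinarith

/-- **Bad sets.** Outside a small set the derivatives of `f ≥ 1` are at most `f σ^(-i)`. -/
theorem gap_bad (d J : ℕ) (A : ℕ → ℝ) (ρ ε : ℝ) (hρ : 0 < ρ) (hε : 0 < ε) :
    ∃ K : ℝ, 0 < K ∧ ∀ (f : E d → ℝ) (L σ : ℝ), 1 ≤ L → 0 < σ → σ ≤ 1 → ContDiff ℝ ∞ f →
      (∀ j y, ‖iteratedFDeriv ℝ j f y‖ ≤ A j * L) →
      ∃ N : Set (E d), MeasurableSet N ∧ volume N ≤ ENNReal.ofReal (K * L ^ ε * σ) ∧
        ∀ y, ‖y‖ ≤ ρ → y ∉ N → 1 ≤ f y → ∀ i, 1 ≤ i → i ≤ J →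
          ‖iteratedFDeriv ℝ i f y‖ ≤ f y * σ⁻¹ ^ i := by
  have hε2 : 0 < ε / 2 := by positivity
  have hS : ∀ i : ℕ, ∃ K : ℝ, 0 < K ∧ (1 ≤ i → ∀ (f : E d → ℝ) (L al be : ℝ), 1 ≤ L → 1 ≤ al →
      1 ≤ be → ContDiff ℝ ∞ f → (∀ j, 1 ≤ j → ∀ y, ‖iteratedFDeriv ℝ j f y‖ ≤ A j * L) →
      volume {y : E d | ‖y‖ ≤ ρ ∧ |f y| ≤ al ∧ be ≤ ‖iteratedFDeriv ℝ i f y‖} ≤
        ENNReal.ofReal (K * L ^ (ε / 2) * (al / be) ^ (1 / (i : ℝ)))) := by
    intro i
    rcases Nat.eq_zero_or_pos i with rfl | hi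
    · exact ⟨1, one_pos, fun h => absurd h (by norm_num)⟩
    · obtain ⟨K, hK, h⟩ := sublevel d i hi A ρ (ε / 2) hρ hε2
      exact ⟨K, hK, fun _ => h⟩
  choose K1 hK1 hS using hS
  obtain ⟨K2, hK2, hn⟩ := nat_le_pow (ε / 2) hε2
  set SK : ℝ := ∑ i ∈ Finset.range (J + 1), K1 i with hSK
  have hSKp : 0 < SK := Finset.sum_pos (fun i _ => hK1 i) ⟨0, by simp⟩
  set A0 : ℝ := |A 0| + 1 with hA0
  have hA0p : 1 ≤ A0 := by have := abs_nonneg (A 0); linarith
  refine ⟨K2 * A0 ^ (ε / 2) * SK * 2, by positivity, fun f L σ hL hσ hσ1 hf hb => ?_⟩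
  have hL0 : 0 < L := one_pos.trans_le hL
  have hAL : 1 ≤ A0 * L := by nlinarith
  obtain ⟨n, hn1, hn2⟩ := exists_nat_pow_near hAL (y := (2 : ℝ)) (by norm_num)
  set S : ℕ → ℕ → Set (E d) := fun t i => {y : E d | ‖y‖ ≤ ρ ∧ |f y| ≤ 2 * 2 ^ t ∧
    (2 : ℝ) ^ t * σ⁻¹ ^ i ≤ ‖iteratedFDeriv ℝ i f y‖} with hSd
  have hmeas : ∀ t i, MeasurableSet (S t i) := by
    intro t i
    have h1 : MeasurableSet {y : E d | ‖y‖ ≤ ρ} :=
      (isClosed_le continuous_norm continuous_const).measurableSet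
    have h2 : MeasurableSet {y : E d | |f y| ≤ 2 * 2 ^ t} :=
      (isClosed_le hf.continuous.abs continuous_const).measurableSet
    have h3 : MeasurableSet {y : E d | (2 : ℝ) ^ t * σ⁻¹ ^ i ≤ ‖iteratedFDeriv ℝ i f y‖} :=
      (isClosed_le continuous_const
        (hf.continuous_iteratedFDeriv (by exact_mod_cast le_top)).norm).measurableSet
    exact h1.inter (h2.inter h3)
  have hσi : 1 ≤ σ⁻¹ := (one_le_inv₀ hσ).mpr hσ1
  have hvol : ∀ t i, 1 ≤ i → volume (S t i) ≤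
      ENNReal.ofReal (K1 i * L ^ (ε / 2) * 2 * σ) := by
    intro t i hi
    have h2t : (1 : ℝ) ≤ 2 ^ t := one_le_pow₀ (by norm_num)
    have h1 := hS i hi f L (2 * 2 ^ t) (2 ^ t * σ⁻¹ ^ i) hL (by linarith)
      (one_le_mul_of_one_le_of_one_le h2t (one_le_pow₀ hσi)) hf (fun j _ y => hb j y)
    refine h1.trans (ENNReal.ofReal_le_ofReal ?_)
    have h2 : (2 * 2 ^ t : ℝ) / (2 ^ t * σ⁻¹ ^ i) = 2 * σ ^ i := by
      rw [inv_pow]
      field_simp
    have h3 : ((2 * 2 ^ t : ℝ) / (2 ^ t * σ⁻¹ ^ i)) ^ (1 / (i : ℝ)) ≤ 2 * σ := by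
      rw [h2, Real.mul_rpow (by norm_num) (by positivity)]
      have h4 : (σ ^ i) ^ (1 / (i : ℝ)) = σ := by
        rw [one_div]
        exact Real.pow_rpow_inv_natCast hσ.le (by omega)
      rw [h4]
      have h5 : (2 : ℝ) ^ (1 / (i : ℝ)) ≤ 2 ^ (1 : ℝ) := by
        refine Real.rpow_le_rpow_of_exponent_le (by norm_num) ?_
        rw [div_le_one (by positivity)]
        exact_mod_cast hi
      rw [Real.rpow_one] at h5
      exact mul_le_mul_of_nonneg_right h5 hσ.le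
    calc K1 i * L ^ (ε / 2) * _ ≤ K1 i * L ^ (ε / 2) * (2 * σ) :=
          mul_le_mul_of_nonneg_left h3 (mul_nonneg (hK1 i).le (by positivity))
      _ = _ := by ring
  refine ⟨⋃ t ∈ Finset.range (n + 1), ⋃ i ∈ Finset.Icc 1 J, S t i,
    Finset.measurableSet_biUnion _ fun t _ => Finset.measurableSet_biUnion _ fun i _ => hmeas t i,
    ?_, ?_⟩
  · have h1 : ∀ t ∈ Finset.range (n + 1), volume (⋃ i ∈ Finset.Icc 1 J, S t i) ≤
        ENNReal.ofReal (SK * (L ^ (ε / 2) * 2 * σ)) := by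
      intro t _
      refine (measure_biUnion_finset_le _ _).trans ?_
      calc _ ≤ ∑ i ∈ Finset.Icc 1 J, ENNReal.ofReal (K1 i * L ^ (ε / 2) * 2 * σ) :=
            Finset.sum_le_sum fun i hi => hvol t i (Finset.mem_Icc.mp hi).1
        _ = ENNReal.ofReal (∑ i ∈ Finset.Icc 1 J, K1 i * L ^ (ε / 2) * 2 * σ) := by
            rw [ENNReal.ofReal_sum_of_nonneg]
            intro i _
            have := hK1 i
            positivity
        _ ≤ ENNReal.ofReal (∑ i ∈ Finset.range (J + 1), K1 i * L ^ (ε / 2) * 2 * σ) := by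
            refine ENNReal.ofReal_le_ofReal ?_
            refine Finset.sum_le_sum_of_subset_of_nonneg ?_ ?_
            · intro i hi
              have := Finset.mem_Icc.mp hi
              simp only [Finset.mem_range]
              omega
            · intro i _ _
              have := hK1 i
              positivity
        _ = _ := by
            congr 1
            rw [hSK, Finset.sum_mul]
            refine Finset.sum_congr rfl fun i _ => ?_
            ring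
    refine (measure_biUnion_finset_le _ _).trans ((Finset.sum_le_sum h1).trans ?_)
    rw [Finset.sum_const, Finset.card_range, nsmul_eq_mul]
    have h2 : ((n + 1 : ℕ) : ℝ≥0∞) = ENNReal.ofReal ((n : ℝ) + 1) := by
      rw [← ENNReal.ofReal_natCast]
      push_cast
      rfl
    rw [h2, ← ENNReal.ofReal_mul (by positivity)]
    refine ENNReal.ofReal_le_ofReal ?_
    have h3 : (n : ℝ) + 1 ≤ K2 * A0 ^ (ε / 2) * L ^ (ε / 2) := by
      have h4 : ((2 : ℝ) ^ n) ^ (ε / 2) ≤ (A0 * L) ^ (ε / 2) :=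
        Real.rpow_le_rpow (by positivity) hn1 hε2.le
      rw [Real.mul_rpow (by linarith) hL0.le] at h4
      have h5 := hn n
      have h6 : K2 * ((2 : ℝ) ^ n) ^ (ε / 2) ≤ K2 * (A0 ^ (ε / 2) * L ^ (ε / 2)) :=
        mul_le_mul_of_nonneg_left h4 hK2.le
      have h7 : K2 * A0 ^ (ε / 2) * L ^ (ε / 2) = K2 * (A0 ^ (ε / 2) * L ^ (ε / 2)) := by ring
      rw [h7]
      linarith
    have h8 : L ^ (ε / 2) * L ^ (ε / 2) = L ^ ε := by
      rw [← Real.rpow_add hL0]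
      congr 1
      ring
    calc ((n : ℝ) + 1) * (SK * (L ^ (ε / 2) * 2 * σ)) ≤
          (K2 * A0 ^ (ε / 2) * L ^ (ε / 2)) * (SK * (L ^ (ε / 2) * 2 * σ)) :=
          mul_le_mul_of_nonneg_right h3 (by positivity)
      _ = K2 * A0 ^ (ε / 2) * SK * 2 * (L ^ (ε / 2) * L ^ (ε / 2)) * σ := by ring
      _ = _ := by rw [h8]
  · intro y hy hyN hfy i hi1 hiJ
    obtain ⟨t, ht1, ht2⟩ := exists_nat_pow_near hfy (y := (2 : ℝ)) (by norm_num)
    have htn : t < n + 1 := by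
      have h1 : (2 : ℝ) ^ t < 2 ^ (n + 1) := by
        refine (ht1.trans ?_).trans_lt hn2
        have h2 := hb 0 y
        rw [norm_iteratedFDeriv_zero, Real.norm_eq_abs] at h2
        have h3 : A 0 * L ≤ A0 * L := mul_le_mul_of_nonneg_right
          (by have := le_abs_self (A 0); linarith) hL0.le
        exact (le_abs_self _).trans (h2.trans h3)
      exact (pow_lt_pow_iff_right₀ (by norm_num)).mp h1
    by_contra hcon
    push Not at hcon
    apply hyN
    simp only [Set.mem_iUnion]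
    refine ⟨t, Finset.mem_range.mpr htn, i, Finset.mem_Icc.mpr ⟨hi1, hiJ⟩, hy, ?_, ?_⟩
    · rw [abs_of_nonneg (by linarith)]
      rw [pow_succ] at ht2
      linarith
    · have : (2 : ℝ) ^ t * σ⁻¹ ^ i ≤ f y * σ⁻¹ ^ i := mul_le_mul_of_nonneg_right ht1 (by positivity)
      linarith

end Pool.Agent.GNP
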