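import Mathlib

/-!
Labelled gaps: positive continuous functions on a connected set, all of whose elementary
symmetric functions vary by a bounded factor, vary by a bounded factor one by one.
Sorted real roots of a continuous family of real-rooted monic polynomials are continuous.
-/

namespace Pool.Agent.GNP

open Finset Set

/-- Elementary symmetric sums over a finite set. -/
noncomputable def esS {ι : Type*} (s : Finset ι) (g : ι → ℝ) (l : ℕ) : ℝ :=
  ∑ S ∈ s.powersetCard l, ∏ i ∈ S, g i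

theorem esS_nonneg {ι : Type*} (s : Finset ι) (g : ι → ℝ) (hg : ∀ i, 0 ≤ g i) (l : ℕ) :
    0 ≤ esS s g l :=
  Finset.sum_nonneg fun _ _ => Finset.prod_nonneg fun i _ => hg i

theorem esS_zero {ι : Type*} (s : Finset ι) (g : ι → ℝ) : esS s g 0 = 1 := by
  simp [esS]

theorem esS_mono {ι : Type*} {s t : Finset ι} (h : s ⊆ t) (g : ι → ℝ) (hg : ∀ i, 0 ≤ g i)
    (l : ℕ) : esS s g l ≤ esS t g l :=
  Finset.sum_le_sum_of_subset_of_nonneg (Finset.powersetCard_mono h)
    fun _ _ _ => Finset.prod_nonneg fun i _ => hg i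

theorem esS_insert {ι : Type*} [DecidableEq ι] {s : Finset ι} {j : ι} (hj : j ∉ s) (g : ι → ℝ)
    (l : ℕ) : esS (insert j s) g (l + 1) = esS s g (l + 1) + g j * esS s g l := by
  unfold esS
  rw [Finset.powersetCard_succ_insert hj, Finset.sum_union, Finset.sum_image, Finset.mul_sum]
  · congr 1
    refine Finset.sum_congr rfl fun S hS => ?_
    rw [Finset.mem_powersetCard] at hS
    rw [Finset.prod_insert fun h => hj (hS.1 h)]
  · intro S hS S' hS' h
    rw [Finset.mem_coe, Finset.mem_powersetCard] at hS hS'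
    have h1 : j ∉ S := fun h => hj (hS.1 h)
    have h2 : j ∉ S' := fun h => hj (hS'.1 h)
    have h3 := congrArg (fun Z => Z.erase j) h
    simpa [Finset.erase_insert h1, Finset.erase_insert h2] using h3
  · rw [Finset.disjoint_left]
    intro S hS hS'
    rw [Finset.mem_powersetCard] at hS
    rw [Finset.mem_image] at hS'
    obtain ⟨S', -, rfl⟩ := hS'
    exact hj (hS.1 (Finset.mem_insert_self _ _))

/-- The product over a set `S` against the product over the large ones. -/
theorem prod_le_large {ι : Type*} [DecidableEq ι] (g : ι → ℝ) (hg : ∀ i, 0 < g i) (S A : Finset ι)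
    (lo hi : ℝ) (hlo : 0 < lo) (hhi : 0 < hi) (hA : ∀ i ∈ A, hi ≤ g i) (hAc : ∀ i, i ∉ A → g i ≤ lo) :
    (∏ i ∈ S, g i) * hi ^ (A \ S).card ≤ (∏ i ∈ A, g i) * lo ^ (S \ A).card := by
  have h1 : ∏ i ∈ S, g i = (∏ i ∈ S ∩ A, g i) * ∏ i ∈ S \ A, g i := by
    rw [← Finset.prod_union (Finset.disjoint_left.2 fun i hi hi' => (Finset.mem_sdiff.1 hi').2
      (Finset.mem_inter.1 hi).2)]
    congr 1
    ext i
    simp only [Finset.mem_union, Finset.mem_inter, Finset.mem_sdiff]
    tauto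
  have h2 : ∏ i ∈ A, g i = (∏ i ∈ S ∩ A, g i) * ∏ i ∈ A \ S, g i := by
    rw [← Finset.prod_union (Finset.disjoint_left.2 fun i hi hi' => (Finset.mem_sdiff.1 hi').2
      (Finset.mem_inter.1 hi).1)]
    congr 1
    ext i
    simp only [Finset.mem_union, Finset.mem_inter, Finset.mem_sdiff]
    tauto
  have h3 : ∏ i ∈ S \ A, g i ≤ lo ^ (S \ A).card := by
    rw [← Finset.prod_const]
    exact Finset.prod_le_prod (fun i _ => (hg i).le) fun i hi => hAc i (Finset.mem_sdiff.1 hi).2
  have h4 : hi ^ (A \ S).card ≤ ∏ i ∈ A \ S, g i := by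
    rw [← Finset.prod_const]
    exact Finset.prod_le_prod (fun i _ => hhi.le) fun i hi => hA i (Finset.mem_sdiff.1 hi).1
  have h5 : 0 < ∏ i ∈ S ∩ A, g i := Finset.prod_pos fun i _ => hg i
  have h6 : 0 < ∏ i ∈ S \ A, g i := Finset.prod_pos fun i _ => hg i
  rw [h1, h2]
  calc (∏ i ∈ S ∩ A, g i) * (∏ i ∈ S \ A, g i) * hi ^ (A \ S).card
      ≤ (∏ i ∈ S ∩ A, g i) * lo ^ (S \ A).card * ∏ i ∈ A \ S, g i := by gcongr
    _ = _ := by ring

/-- A value far (in the logarithmic sense) from all the values of `g` is not taken by `f`. -/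
theorem no_value {ι : Type*} [Fintype ι] [DecidableEq ι] (f g : ι → ℝ) (hf : ∀ i, 0 < f i)
    (hg : ∀ i, 0 < g i) (c : ℝ) (hc : 1 ≤ c)
    (hfg : ∀ l, esS Finset.univ f l ≤ c * esS Finset.univ g l)
    (hgf : ∀ l, esS Finset.univ g l ≤ c * esS Finset.univ f l) (y K : ℝ) (hy : 0 < y)
    (hK : c * c * 2 ^ (Fintype.card ι + 4) ≤ K)
    (hno : ∀ i, g i < y / K ∨ K * y < g i) (j : ι) : f j ≠ y := by
  intro hfj
  have hc0 : 0 < c := by linarith
  have h2p : (0 : ℝ) < 2 ^ (Fintype.card ι) := by positivity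
  have hK0 : 0 < K := lt_of_lt_of_le (by positivity) hK
  set A : Finset ι := Finset.univ.filter fun i => K * y < g i with hA
  set a := A.card with ha
  set P : ℝ := ∏ i ∈ A, g i with hP
  have hP0 : 0 < P := Finset.prod_pos fun i _ => hg i
  have hAl : ∀ i ∈ A, K * y ≤ g i := fun i hi => (Finset.mem_filter.1 hi).2.le
  have hAc : ∀ i, i ∉ A → g i ≤ y / K := fun i hi => by
    rcases hno i with h | h
    · exact h.le
    · exact absurd (Finset.mem_filter.2 ⟨Finset.mem_univ i, h⟩ : i ∈ A) hi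
  have hlo : 0 < y / K := by positivity
  have hhi : 0 < K * y := by positivity
  have hK1 : 1 ≤ K := by
    refine le_trans ?_ hK
    have : (1 : ℝ) ≤ 2 ^ (Fintype.card ι + 4) := one_le_pow₀ (by norm_num)
    nlinarith
  have hlohi : y / K ≤ K * y := by
    rw [div_le_iff₀ hK0]
    nlinarith
  have hmain : ∀ S : Finset ι, (∏ i ∈ S, g i) * (K * y) ^ (A \ S).card ≤
      P * (y / K) ^ (S \ A).card := fun S => prod_le_large g hg S A _ _ hlo hhi hAl hAc
  have hcardS : ∀ S : Finset ι, (S \ A).card + a = (A \ S).card + S.card := fun S => by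
    have h1 := Finset.card_sdiff_add_card_inter S A
    have h2 := Finset.card_sdiff_add_card_inter A S
    rw [Finset.inter_comm] at h2
    omega
  have hcount : ∀ l, ((Finset.univ : Finset ι).powersetCard l).card ≤ 2 ^ Fintype.card ι := by
    intro l
    calc ((Finset.univ : Finset ι).powersetCard l).card ≤ (Finset.univ : Finset ι).powerset.card :=
          Finset.card_le_card fun S _ => Finset.mem_powerset.2 (Finset.subset_univ S)
      _ = 2 ^ Fintype.card ι := by rw [Finset.card_powerset, Finset.card_univ]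
  have hsum : ∀ l (b : ℝ), 0 ≤ b → (∀ S : Finset ι, S.card = l → ∏ i ∈ S, g i ≤ b) →
      esS Finset.univ g l ≤ 2 ^ Fintype.card ι * b := by
    intro l b hb h
    unfold esS
    calc ∑ S ∈ (Finset.univ : Finset ι).powersetCard l, ∏ i ∈ S, g i
        ≤ ∑ S ∈ (Finset.univ : Finset ι).powersetCard l, b :=
          Finset.sum_le_sum fun S hS => h S (Finset.mem_powersetCard.1 hS).2
      _ = ((Finset.univ : Finset ι).powersetCard l).card * b := by
          rw [Finset.sum_const, nsmul_eq_mul]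
      _ ≤ 2 ^ Fintype.card ι * b := by
          refine mul_le_mul_of_nonneg_right ?_ hb
          exact_mod_cast hcount l
  -- lower bound at `a`
  have hEa : P ≤ esS Finset.univ g a := by
    unfold esS
    exact Finset.single_le_sum (f := fun S => ∏ i ∈ S, g i)
      (fun S _ => Finset.prod_nonneg fun i _ => (hg i).le)
      (Finset.mem_powersetCard.2 ⟨Finset.subset_univ A, rfl⟩)
  -- upper bound at `a + 1`
  have hEa1 : esS Finset.univ g (a + 1) ≤ 2 ^ Fintype.card ι * (P * (y / K)) := by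
    refine hsum _ _ (by positivity) fun S hS => ?_
    have h1 := hmain S
    have h2 := hcardS S
    rw [hS] at h2
    have h3 : (S \ A).card = (A \ S).card + 1 := by omega
    rw [h3, pow_succ] at h1
    have h4 : (y / K) ^ (A \ S).card ≤ (K * y) ^ (A \ S).card :=
      pow_le_pow_left₀ hlo.le hlohi _
    have h5 : (0 : ℝ) < (K * y) ^ (A \ S).card := by positivity
    have h6 : (∏ i ∈ S, g i) * (K * y) ^ (A \ S).card ≤
        P * (y / K) * (K * y) ^ (A \ S).card := by
      calc _ ≤ P * ((y / K) ^ (A \ S).card * (y / K)) := h1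
        _ ≤ P * ((K * y) ^ (A \ S).card * (y / K)) := by gcongr
        _ = _ := by ring
    exact le_of_mul_le_mul_right h6 h5
  set s : Finset ι := Finset.univ.erase j with hs
  have hjs : j ∉ s := Finset.notMem_erase j _
  have hins : insert j s = Finset.univ := Finset.insert_erase (Finset.mem_univ j)
  have hf0 : ∀ i, 0 ≤ f i := fun i => (hf i).le
  -- the part of order `a` without `j`
  have hA1 : esS s f a ≤ c * (2 ^ Fintype.card ι * P / K) := by
    have h1 := hfg (a + 1)
    rw [← hins, esS_insert hjs, hfj, hins] at h1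
    have h2 := esS_nonneg s f hf0 (a + 1)
    have h3 : y * esS s f a ≤ y * (c * (2 ^ Fintype.card ι * P / K)) := by
      calc y * esS s f a ≤ c * esS Finset.univ g (a + 1) := by linarith
        _ ≤ c * (2 ^ Fintype.card ι * (P * (y / K))) := by gcongr
        _ = _ := by ring
    exact le_of_mul_le_mul_left h3 hy
  -- the total of order `a`
  have hA2 : esS Finset.univ f a ≤ 2 * (c * (2 ^ Fintype.card ι * P / K)) := by
    rcases Nat.eq_zero_or_pos a with h0 | h0
    · rw [h0, esS_zero]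
      rw [h0, esS_zero] at hA1
      have : 0 < c * (2 ^ Fintype.card ι * P / K) := by positivity
      linarith
    · obtain ⟨b, hb⟩ : ∃ b, a = b + 1 := ⟨a - 1, by omega⟩
      have hEb : esS Finset.univ g b ≤ 2 ^ Fintype.card ι * (P / (K * y)) := by
        refine hsum _ _ (by positivity) fun S hS => ?_
        have h1 := hmain S
        have h2 := hcardS S
        rw [hS] at h2
        have h3 : (A \ S).card = (S \ A).card + 1 := by omega
        rw [h3, pow_succ] at h1
        have h4 : (y / K) ^ (S \ A).card ≤ (K * y) ^ (S \ A).card :=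
          pow_le_pow_left₀ hlo.le hlohi _
        have h5 : (0 : ℝ) < (K * y) ^ (S \ A).card := by positivity
        have h6 : (∏ i ∈ S, g i) * (K * y) * (K * y) ^ (S \ A).card ≤
            P * (K * y) ^ (S \ A).card := by
          calc _ = (∏ i ∈ S, g i) * ((K * y) ^ (S \ A).card * (K * y)) := by ring
            _ ≤ P * (y / K) ^ (S \ A).card := h1
            _ ≤ _ := by gcongr
        have h7 := le_of_mul_le_mul_right h6 h5
        rwa [le_div_iff₀ hhi]
      rw [hb, ← hins, esS_insert hjs, hfj, ← hb]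
      have h3 : y * esS s f b ≤ c * (2 ^ Fintype.card ι * P / K) := by
        calc y * esS s f b ≤ y * esS Finset.univ f b := by
              gcongr
              exact esS_mono (Finset.subset_univ _) f hf0 b
          _ ≤ y * (c * esS Finset.univ g b) := by
              gcongr
              exact hfg b
          _ ≤ y * (c * (2 ^ Fintype.card ι * (P / (K * y)))) := by gcongr
          _ = _ := by field_simp
      linarith
  have h7 := hgf a
  have h8 : P ≤ c * (2 * (c * (2 ^ Fintype.card ι * P / K))) :=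
    hEa.trans (h7.trans (by gcongr))
  have h9 : P * K ≤ c * c * 2 * 2 ^ Fintype.card ι * P := by
    calc P * K ≤ c * (2 * (c * (2 ^ Fintype.card ι * P / K))) * K := by gcongr
      _ = _ := by field_simp
  have h10 : P * (c * c * 2 ^ (Fintype.card ι + 4)) ≤ c * c * 2 * 2 ^ Fintype.card ι * P :=
    le_trans (by gcongr) h9
  rw [pow_add] at h10
  have h11 : 0 < c * c * 2 ^ Fintype.card ι * P := by positivity
  nlinarith

/-- **Labelled values, abstract form.** -/
theorem lab_of_no_value {X ι : Type*} [TopologicalSpace X] [Fintype ι] {T : Set X}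
    (hT : IsPreconnected T) (g : X → ι → ℝ) (hg : ∀ i, ContinuousOn (fun x => g x i) T)
    (hpos : ∀ x ∈ T, ∀ i, 0 < g x i) (K : ℝ) (hK1 : 1 ≤ K) (u v : X) (hu : u ∈ T) (hv : v ∈ T)
    (hno : ∀ t ∈ T, ∀ y : ℝ, 0 < y → (∀ i, g v i < y / K ∨ K * y < g v i) → ∀ j, g t j ≠ y)
    (i : ι) : g u i ≤ (4 * K ^ 2) ^ Fintype.card ι * g v i := by
  classical
  set Λ : ℝ := 4 * K ^ 2 with hΛ
  have hΛ1 : 1 ≤ Λ := by nlinarith
  have hΛ0 : 0 < Λ := by linarith
  by_contra hcon
  push Not at hcon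
  set x := g v i with hx
  have hx0 : 0 < x := hpos v hv i
  -- a free interval
  obtain ⟨k, hk, hfree⟩ : ∃ k : ℕ, k < Fintype.card ι ∧
      ∀ j, g v j ≤ Λ ^ k * x ∨ Λ ^ (k + 1) * x ≤ g v j := by
    by_contra hall
    push Not at hall
    choose φ hφ using fun k : Fin (Fintype.card ι) => hall k.1 k.2
    have hlt : ∀ k k' : Fin (Fintype.card ι), k < k' → g v (φ k) < g v (φ k') := by
      intro k k' h
      calc g v (φ k) < Λ ^ (k.1 + 1) * x := (hφ k).2
        _ ≤ Λ ^ k'.1 * x := by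
            refine mul_le_mul_of_nonneg_right ?_ hx0.le
            exact pow_le_pow_right₀ hΛ1 h
        _ < g v (φ k') := (hφ k').1
    have hinj : Function.Injective φ := by
      intro k k' h
      by_contra hne
      rcases lt_or_gt_of_ne hne with h1 | h1
      · have := hlt _ _ h1
        rw [h] at this
        exact lt_irrefl _ this
      · have := hlt _ _ h1
        rw [h] at this
        exact lt_irrefl _ this
    have hbij : Function.Bijective φ := by
      rw [Fintype.bijective_iff_injective_and_card]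
      exact ⟨hinj, by simp⟩
    obtain ⟨k, hk⟩ := hbij.2 i
    have h1 := (hφ k).1
    rw [hk] at h1
    have h2 : (1 : ℝ) ≤ Λ ^ k.1 := one_le_pow₀ hΛ1
    nlinarith
  set y : ℝ := 2 * K * (Λ ^ k * x) with hy
  have hz0 : 0 < Λ ^ k * x := by positivity
  have hy0 : 0 < y := by positivity
  have hmem : y ∈ (fun z => g z i) '' T := by
    refine hT.intermediate_value hv hu (hg i) ⟨?_, ?_⟩
    · change x ≤ y
      have h2 : (1 : ℝ) ≤ Λ ^ k := one_le_pow₀ hΛ1
      have h3 : x ≤ Λ ^ k * x := by nlinarith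
      rw [hy]
      nlinarith
    · change y ≤ g u i
      refine le_trans ?_ hcon.le
      calc y ≤ Λ * (Λ ^ k * x) := by
            rw [hy]
            refine mul_le_mul_of_nonneg_right ?_ hz0.le
            rw [hΛ]
            nlinarith
        _ = Λ ^ (k + 1) * x := by ring
        _ ≤ Λ ^ Fintype.card ι * x := by
            refine mul_le_mul_of_nonneg_right ?_ hx0.le
            exact pow_le_pow_right₀ hΛ1 hk
  obtain ⟨t, ht, hty⟩ := hmem
  refine hno t ht y hy0 (fun j => ?_) i hty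
  have hK0 : 0 < K := by linarith
  rcases hfree j with h | h
  · left
    refine lt_of_le_of_lt h ?_
    rw [hy, lt_div_iff₀ hK0]
    nlinarith
  · right
    refine lt_of_lt_of_le ?_ h
    calc K * y = 2 * K ^ 2 * (Λ ^ k * x) := by rw [hy]; ring
      _ < 4 * K ^ 2 * (Λ ^ k * x) := by
          refine mul_lt_mul_of_pos_right ?_ hz0
          nlinarith
      _ = Λ ^ (k + 1) * x := by rw [hΛ]; ring

/-- **Labelled gaps**, elementary symmetric functions. -/
theorem lab {X ι : Type*} [TopologicalSpace X] [Fintype ι] {T : Set X} (hT : IsPreconnected T)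
    (g : X → ι → ℝ) (hg : ∀ i, ContinuousOn (fun x => g x i) T)
    (hpos : ∀ x ∈ T, ∀ i, 0 < g x i) (c : ℝ) (hc : 1 ≤ c)
    (hE : ∀ x ∈ T, ∀ y ∈ T, ∀ l, esS Finset.univ (g x) l ≤ c * esS Finset.univ (g y) l) :
    ∀ x ∈ T, ∀ y ∈ T, ∀ i, g x i ≤
      (4 * (c * c * 2 ^ (Fintype.card ι + 4)) ^ 2) ^ Fintype.card ι * g y i := by
  classical
  intro u hu v hv i
  have hK1 : 1 ≤ c * c * 2 ^ (Fintype.card ι + 4) := by
    have : (1 : ℝ) ≤ 2 ^ (Fintype.card ι + 4) := one_le_pow₀ (by norm_num)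
    nlinarith
  exact lab_of_no_value hT g hg hpos _ hK1 u v hu hv (fun t ht y hy h j =>
    no_value (g t) (g v) (hpos t ht) (hpos v hv) c hc (hE t ht v hv) (hE v hv t ht) y _ hy
      le_rfl h j) i

/-- A value far (in the logarithmic sense) from all the values of `g` is not taken by `f`, when
the products `∏ (f i + l)` and `∏ (g i + l)` agree up to a factor `K` for all `l ≥ 0`. -/
theorem no_value_prod {ι : Type*} [Fintype ι] (f g : ι → ℝ) (hf : ∀ i, 0 < f i)
    (hg : ∀ i, 0 < g i) (K : ℝ) (hK : 1 ≤ K)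
    (hfg : ∀ l : ℝ, 0 ≤ l → ∏ i, (f i + l) ≤ K * ∏ i, (g i + l))
    (hgf : ∀ l : ℝ, 0 ≤ l → ∏ i, (g i + l) ≤ K * ∏ i, (f i + l)) (y K1 : ℝ) (hy : 0 < y)
    (hK1 : K ^ 4 * 2 ^ (Fintype.card ι + 3) ≤ K1)
    (hno : ∀ i, g i < y / K1 ∨ K1 * y < g i) (j : ι) : f j ≠ y := by
  classical
  intro hfj
  have hK0 : 0 < K := by linarith
  have hK4 : 1 ≤ K ^ 4 := one_le_pow₀ hK
  have h2M : (1 : ℝ) ≤ 2 ^ (Fintype.card ι) := one_le_pow₀ (by norm_num)
  have hK8 : 8 * (K ^ 4 * 2 ^ Fintype.card ι) ≤ K1 := by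
    refine le_trans (le_of_eq ?_) hK1
    rw [pow_add]
    ring
  have hK11 : 8 ≤ K1 := by nlinarith [mul_le_mul hK4 h2M (by norm_num) (by positivity)]
  have hK10 : 0 < K1 := by linarith
  -- every factor is at most one
  have hle : ∀ z : ℝ, 0 < z → (z + y) ^ 2 ≤ (z + y / K1) * (z + K1 * y) := by
    intro z hz
    have e : (z + y / K1) * (z + K1 * y) = z ^ 2 + (K1 + 1 / K1) * (z * y) + y ^ 2 := by
      field_simp
      ring
    rw [e]
    have h1 : 0 ≤ (K1 + 1 / K1 - 2) * (z * y) := by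
      have : 0 ≤ 1 / K1 := by positivity
      have h3 : 0 ≤ z * y := by positivity
      exact mul_nonneg (by linarith) h3
    nlinarith
  -- the factor of the value `y`
  have hjle : (y + y) ^ 2 ≤ 4 / K1 * ((y + y / K1) * (y + K1 * y)) := by
    have e : 4 / K1 * ((y + y / K1) * (y + K1 * y)) = 4 * y ^ 2 * ((1 + 1 / K1) * (1 + 1 / K1)) := by
      field_simp
      ring
    rw [e]
    have h1 : 1 ≤ (1 + 1 / K1) * (1 + 1 / K1) := by
      have : 0 ≤ 1 / K1 := by positivity
      nlinarith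
    nlinarith [sq_nonneg y, mul_le_mul_of_nonneg_left h1 (by positivity : 0 ≤ 4 * y ^ 2)]
  -- factors away from `y`
  have hge : ∀ z : ℝ, 0 < z → (z < y / K1 ∨ K1 * y < z) →
      (z + y / K1) * (z + K1 * y) ≤ 2 * (z + y) ^ 2 := by
    intro z hz h
    have e : (z + y / K1) * (z + K1 * y) = z ^ 2 + K1 * (z * y) + 1 / K1 * (z * y) + y ^ 2 := by
      field_simp
      ring
    rw [e]
    have h1 : 1 / K1 ≤ 1 := by
      rw [div_le_one hK10]
      linarith
    have h3 : 0 < z * y := by positivity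
    have h4 : 1 / K1 * (z * y) ≤ z * y := by nlinarith
    rcases h with h | h
    · have h5 : K1 * z < y := by
        rw [lt_div_iff₀ hK10] at h
        linarith
      nlinarith
    · nlinarith
  have hF : ∀ u : ι → ℝ, (∏ i, (u i + y)) ^ 2 = ∏ i, (u i + y) ^ 2 := fun u =>
    (Finset.prod_pow _ _ _).symm
  -- for `g`
  have hG : (∏ i, (g i + y / K1)) * (∏ i, (g i + K1 * y)) ≤
      2 ^ Fintype.card ι * (∏ i, (g i + y)) ^ 2 := by
    rw [← Finset.prod_mul_distrib, hF]
    calc ∏ i, (g i + y / K1) * (g i + K1 * y) ≤ ∏ i, (2 * (g i + y) ^ 2) :=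
          Finset.prod_le_prod (fun i _ => by
            have := hg i
            positivity) fun i _ => hge _ (hg i) (hno i)
      _ = _ := by
          rw [Finset.prod_mul_distrib, Finset.prod_const, Finset.card_univ]
  -- for `f`
  have hFf : (∏ i, (f i + y)) ^ 2 ≤
      4 / K1 * ((∏ i, (f i + y / K1)) * (∏ i, (f i + K1 * y))) := by
    rw [← Finset.prod_mul_distrib, hF, ← Finset.mul_prod_erase _ _ (Finset.mem_univ j),
      ← Finset.mul_prod_erase _ (fun i => (f i + y / K1) * (f i + K1 * y)) (Finset.mem_univ j),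
      hfj, ← mul_assoc]
    refine mul_le_mul hjle ?_ (Finset.prod_nonneg fun i _ => by positivity) ?_
    · exact Finset.prod_le_prod (fun i _ => by positivity) fun i _ => hle _ (hf i)
    · positivity
  have hpf : ∀ l : ℝ, 0 ≤ l → 0 < ∏ i, (f i + l) := fun l hl =>
    Finset.prod_pos fun i _ => by have := hf i; positivity
  have hpg : ∀ l : ℝ, 0 ≤ l → 0 < ∏ i, (g i + l) := fun l hl =>
    Finset.prod_pos fun i _ => by have := hg i; positivity
  have hy1 : 0 ≤ y / K1 := by positivity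
  have hy2 : 0 ≤ K1 * y := by positivity
  set a := ∏ i, (f i + y)
  set b := (∏ i, (f i + y / K1)) * (∏ i, (f i + K1 * y)) with hb
  have ha0 : 0 < a := hpf y hy.le
  have hb0 : 0 < b := mul_pos (hpf _ hy1) (hpf _ hy2)
  have h1 : b ≤ K ^ 4 * 2 ^ Fintype.card ι * a ^ 2 := by
    calc b ≤ (K * ∏ i, (g i + y / K1)) * (K * ∏ i, (g i + K1 * y)) :=
          mul_le_mul (hfg _ hy1) (hfg _ hy2) (hpf _ hy2).le
            (mul_nonneg hK0.le (hpg _ hy1).le)
      _ = K ^ 2 * ((∏ i, (g i + y / K1)) * (∏ i, (g i + K1 * y))) := by ring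
      _ ≤ K ^ 2 * (2 ^ Fintype.card ι * (∏ i, (g i + y)) ^ 2) := by gcongr
      _ ≤ K ^ 2 * (2 ^ Fintype.card ι * (K * a) ^ 2) := by
          have := hgf y hy.le
          have h0 := (hpg y hy.le).le
          gcongr
      _ = _ := by ring
  have h2 : K1 * a ^ 2 ≤ 4 * b := by
    calc K1 * a ^ 2 ≤ K1 * (4 / K1 * b) := by gcongr
      _ = 4 * b := by field_simp
  have h3 : 0 < K ^ 4 * 2 ^ Fintype.card ι * a ^ 2 := by positivity
  have h4 : 8 * (K ^ 4 * 2 ^ Fintype.card ι) * a ^ 2 ≤ K1 * a ^ 2 := by gcongr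
  nlinarith

/-- **Labels** (the form of the row LAB). -/
theorem labels (M : ℕ) (K : ℝ) (hK : 1 ≤ K) : ∃ K' : ℝ, 1 ≤ K' ∧ ∀ (σ : Type) [Fintype σ],
    Fintype.card σ ≤ M → ∀ (x : ℝ → σ → ℝ) (v0 : ℝ), 0 < v0 →
    (∀ i, ContinuousOn (fun t => x t i) (Set.Icc 0 1)) →
    (∀ t ∈ Set.Icc (0 : ℝ) 1, ∀ i, 0 ≤ x t i) →
    (∀ t ∈ Set.Icc (0 : ℝ) 1, ∀ v, v0 ≤ v → K⁻¹ * ∏ i, (x 0 i + v) ≤ ∏ i, (x t i + v) ∧
      ∏ i, (x t i + v) ≤ K * ∏ i, (x 0 i + v)) →
    ∀ t ∈ Set.Icc (0 : ℝ) 1, ∀ i, x t i + v0 ≤ K' * (x 0 i + v0) ∧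
      x 0 i + v0 ≤ K' * (x t i + v0) := by
  have hK0 : 0 < K := by linarith
  set K1 : ℝ := (K ^ 2) ^ 4 * 2 ^ (M + 3) with hK1
  have hK11 : 1 ≤ K1 := by
    have h1 : (1 : ℝ) ≤ (K ^ 2) ^ 4 := one_le_pow₀ (one_le_pow₀ hK)
    have h2 : (1 : ℝ) ≤ 2 ^ (M + 3) := one_le_pow₀ (by norm_num)
    nlinarith
  have hΛ : 1 ≤ 4 * K1 ^ 2 := by nlinarith
  refine ⟨(4 * K1 ^ 2) ^ M, one_le_pow₀ hΛ, ?_⟩
  intro σ _ hcard x v0 hv0 hc hx hF
  have hpair : ∀ u ∈ Set.Icc (0 : ℝ) 1, ∀ v ∈ Set.Icc (0 : ℝ) 1, ∀ l : ℝ, 0 ≤ l →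
      ∏ i, (x u i + v0 + l) ≤ K ^ 2 * ∏ i, (x v i + v0 + l) := by
    intro u hu v hv l hl
    have e : ∀ t, ∏ i, (x t i + v0 + l) = ∏ i, (x t i + (v0 + l)) := fun t =>
      Finset.prod_congr rfl fun i _ => by ring
    have h1 := (hF u hu (v0 + l) (by linarith)).2
    have h2 := (hF v hv (v0 + l) (by linarith)).1
    rw [e, e]
    have h3 : ∏ i, (x 0 i + (v0 + l)) ≤ K * ∏ i, (x v i + (v0 + l)) := by
      rw [inv_mul_le_iff₀ hK0] at h2
      exact h2
    calc _ ≤ K * ∏ i, (x 0 i + (v0 + l)) := h1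
      _ ≤ K * (K * ∏ i, (x v i + (v0 + l))) := by gcongr
      _ = _ := by ring
  have hmain : ∀ u ∈ Set.Icc (0 : ℝ) 1, ∀ v ∈ Set.Icc (0 : ℝ) 1, ∀ i,
      x u i + v0 ≤ (4 * K1 ^ 2) ^ M * (x v i + v0) := by
    intro u hu v hv i
    have hpos : ∀ t ∈ Set.Icc (0 : ℝ) 1, ∀ i, 0 < x t i + v0 := fun t ht i => by
      have := hx t ht i
      linarith
    have h1 := lab_of_no_value isPreconnected_Icc (fun t i => x t i + v0)
      (fun i => (hc i).add continuousOn_const) hpos K1 hK11 u v hu hv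
      (fun t ht y hy h j => no_value_prod (fun i => x t i + v0) (fun i => x v i + v0)
        (hpos t ht) (hpos v hv) (K ^ 2) (one_le_pow₀ hK) (fun l hl => hpair t ht v hv l hl)
        (fun l hl => hpair v hv t ht l hl) y K1 hy (by
          rw [hK1]
          refine mul_le_mul_of_nonneg_left ?_ (by positivity)
          exact pow_le_pow_right₀ (by norm_num) (by omega)) h j) i
    refine h1.trans (mul_le_mul_of_nonneg_right ?_ (hpos v hv i).le)
    exact pow_le_pow_right₀ hΛ hcard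
  intro t ht i
  have h0 : (0 : ℝ) ∈ Set.Icc (0 : ℝ) 1 := ⟨le_rfl, zero_le_one⟩
  exact ⟨hmain t ht 0 h0 i, hmain 0 h0 t ht i⟩

/-- Monotone vectors are determined by the polynomial with these roots. -/
theorem monotone_eq_of_prod {d : ℕ} (v w : Fin d → ℝ) (hv : Monotone v) (hw : Monotone w)
    (h : ∀ z : ℝ, ∏ i, (z - v i) = ∏ i, (z - w i)) : v = w := by
  have h1 : (∏ i, (Polynomial.X - Polynomial.C (v i))) =
      ∏ i, (Polynomial.X - Polynomial.C (w i)) := by
    refine Polynomial.funext fun z => ?_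
    rw [Polynomial.eval_prod, Polynomial.eval_prod]
    simpa using h z
  have h2 : (Finset.univ.val.map v : Multiset ℝ) = Finset.univ.val.map w := by
    have e : ∀ u : Fin d → ℝ, (∏ i, (Polynomial.X - Polynomial.C (u i))).roots =
        Finset.univ.val.map u := by
      intro u
      have := Polynomial.roots_multiset_prod_X_sub_C (Finset.univ.val.map u)
      rw [Multiset.map_map] at this
      exact this
    rw [← e v, ← e w, h1]
  have h3 : (List.ofFn v).Perm (List.ofFn w) := by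
    rw [← Multiset.coe_eq_coe]
    have e : ∀ u : Fin d → ℝ, ((List.ofFn u : List ℝ) : Multiset ℝ) = Finset.univ.val.map u := by
      intro u
      rw [List.ofFn_eq_map]
      rfl
    rw [e, e, h2]
  have h4 : List.ofFn v = List.ofFn w :=
    h3.eq_of_pairwise' hv.sortedLE_ofFn.pairwise hw.sortedLE_ofFn.pairwise
  exact List.ofFn_injective h4

/-- **Sorted roots are continuous.** -/
theorem continuousOn_sorted {X : Type*} [TopologicalSpace X] {d : ℕ} {T : Set X}
    (s : X → Fin d → ℝ) (hm : ∀ x ∈ T, Monotone (s x)) (M : ℝ) (hb : ∀ x ∈ T, ∀ i, |s x i| ≤ M)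
    (hp : ∀ z : ℝ, ContinuousOn (fun x => ∏ i, (z - s x i)) T) (i : Fin d) :
    ContinuousOn (fun x => s x i) T := by
  let C : Set (Fin d → ℝ) := {v | Monotone v} ∩ Set.univ.pi fun _ => Set.Icc (-M) M
  have hCc : IsCompact C := by
    refine (isCompact_univ_pi fun _ => isCompact_Icc).inter_left ?_
    have : {v : Fin d → ℝ | Monotone v} = ⋂ (a : Fin d) (b : Fin d) (_ : a ≤ b),
        {v : Fin d → ℝ | v a ≤ v b} := by
      ext v
      simp only [Set.mem_ofPred_eq, Set.mem_iInter, Monotone]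
    rw [this]
    exact isClosed_iInter fun a => isClosed_iInter fun b => isClosed_iInter fun _ =>
      isClosed_le (continuous_apply a) (continuous_apply b)
  have : CompactSpace C := isCompact_iff_compactSpace.1 hCc
  let G : C → ℝ → ℝ := fun v z => ∏ i, (z - v.1 i)
  have hG : Continuous G := by
    refine continuous_pi fun z => ?_
    refine continuous_finsetProd _ fun i _ => ?_
    exact continuous_const.sub ((continuous_apply i).comp continuous_subtype_val)
  have hGi : Function.Injective G := by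
    intro v w h
    exact Subtype.ext (monotone_eq_of_prod _ _ v.2.1 w.2.1 fun z => congrFun h z)
  have hGe : Topology.IsClosedEmbedding G := hG.isClosedEmbedding hGi
  let F : T → C := fun x => ⟨s x.1, hm x.1 x.2, fun i _ => abs_le.1 (hb x.1 x.2 i)⟩
  have hF : Continuous F := by
    rw [hGe.isEmbedding.continuous_iff]
    refine continuous_pi fun z => ?_
    exact continuousOn_iff_continuous_domRestrict.1 (hp z)
  rw [continuousOn_iff_continuous_domRestrict]
  exact (continuous_apply i).comp (continuous_subtype_val.comp hF)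

/-- **Labelled gaps of the sorted roots.** -/
theorem gap_lab (d : ℕ) : ∃ K : ℝ, 1 ≤ K ∧ ∀ (X : Type) [TopologicalSpace X] (T : Set X)
    (s : X → Fin d → ℝ) (w M : ℝ), IsPreconnected T → 0 < w → (∀ x ∈ T, Monotone (s x)) →
    (∀ x ∈ T, ∀ i, |s x i| ≤ M) → (∀ z : ℝ, ContinuousOn (fun x => ∏ i, (z - s x i)) T) →
    ∀ y ∈ T, (∀ x ∈ T, ∀ l,
      esS Finset.univ (fun p : Fin d × Fin d => (s x p.1 - s x p.2) ^ 2 + w ^ 2) l ≤
        2 * esS Finset.univ (fun p : Fin d × Fin d => (s y p.1 - s y p.2) ^ 2 + w ^ 2) l ∧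
      esS Finset.univ (fun p : Fin d × Fin d => (s y p.1 - s y p.2) ^ 2 + w ^ 2) l ≤
        2 * esS Finset.univ (fun p : Fin d × Fin d => (s x p.1 - s x p.2) ^ 2 + w ^ 2) l) →
    ∀ x ∈ T, ∀ x' ∈ T, ∀ a b, |s x a - s x b| + w ≤ K * (|s x' a - s x' b| + w) := by
  set N := Fintype.card (Fin d × Fin d) with hN
  set K0 : ℝ := (4 * (4 * 4 * 2 ^ (N + 4)) ^ 2) ^ N with hK0
  have hK01 : 1 ≤ K0 := by
    refine one_le_pow₀ ?_
    have : (1 : ℝ) ≤ 2 ^ (N + 4) := one_le_pow₀ (by norm_num)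
    nlinarith
  refine ⟨2 * K0, by linarith, ?_⟩
  intro X _ T s w M hT hw hm hb hp y hy hE x hx x' hx' a b
  have hs := continuousOn_sorted s hm M hb hp
  have h1 := lab hT (fun x (p : Fin d × Fin d) => (s x p.1 - s x p.2) ^ 2 + w ^ 2)
    (fun p => (((hs p.1).sub (hs p.2)).pow 2).add continuousOn_const)
    (fun x _ p => by positivity) 4 (by norm_num) (fun z hz z' hz' l => by
      have e1 := (hE z hz l).1
      have e2 := (hE z' hz' l).2
      linarith) x hx x' hx' (a, b)
  simp only [← hN] at h1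
  rw [← hK0] at h1
  set g := |s x a - s x b| with hg
  set g' := |s x' a - s x' b| with hg'
  have hg0 : 0 ≤ g := abs_nonneg _
  have hg0' : 0 ≤ g' := abs_nonneg _
  have e1 : (s x a - s x b) ^ 2 = g ^ 2 := (sq_abs _).symm
  have e2 : (s x' a - s x' b) ^ 2 = g' ^ 2 := (sq_abs _).symm
  rw [e1, e2] at h1
  have h2 : (g + w) ^ 2 ≤ (2 * K0 * (g' + w)) ^ 2 := by
    have h3 : (g + w) ^ 2 ≤ 2 * (g ^ 2 + w ^ 2) := by nlinarith [sq_nonneg (g - w)]
    have h4 : g' ^ 2 + w ^ 2 ≤ (g' + w) ^ 2 := by nlinarith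
    have h5 : 0 ≤ (g' + w) ^ 2 := sq_nonneg _
    calc (g + w) ^ 2 ≤ 2 * (g ^ 2 + w ^ 2) := h3
      _ ≤ 2 * (K0 * (g' ^ 2 + w ^ 2)) := by linarith
      _ ≤ 2 * (K0 * (g' + w) ^ 2) := by gcongr
      _ ≤ (2 * K0) ^ 2 * (g' + w) ^ 2 := by
          nlinarith [mul_nonneg (sub_nonneg.2 hK01) h5, mul_nonneg (mul_nonneg (by linarith : (0:ℝ) ≤ K0) (sub_nonneg.2 hK01)) h5]
      _ = _ := by ring
  exact (pow_le_pow_iff_left₀ (by positivity) (by positivity) (by norm_num)).1 h2

end Pool.Agent.GNP
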