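import Pool.Agent.GNP.GapC
import Pool.Agent.GNP.GF1
import Pool.Agent.GNP.LAB
import Pool.Agent.GNP.DD
import Pool.Agent.GNP.Defs4
import Pool.Agent.GNP.Defs5

/-!
The gaps of the roots of the pencil are stable outside a small set.
-/

namespace Pool.Agent.GNP

open MeasureTheory Set Pool.Agent.MP_6cbfb8_an
open scoped ENNReal Real RealInnerProductSpace ContDiff

theorem prod_add_le {σ : Type} [Fintype σ] (x : σ → ℝ) (hx : ∀ i, 0 ≤ x i) {u v K : ℝ}
    (hu : 0 ≤ u) (huv : u ≤ v) (hK : 1 ≤ K) (hvu : v ≤ K * u) :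
    ∏ i, (x i + u) ≤ ∏ i, (x i + v) ∧
      ∏ i, (x i + v) ≤ K ^ Fintype.card σ * ∏ i, (x i + u) := by
  constructor
  · exact Finset.prod_le_prod (fun i _ => add_nonneg (hx i) hu) fun i _ => by linarith
  · calc ∏ i, (x i + v) ≤ ∏ i, K * (x i + u) := by
          refine Finset.prod_le_prod (fun i _ => add_nonneg (hx i) (hu.trans huv)) fun i _ => ?_
          have h1 : x i ≤ K * x i := le_mul_of_one_le_left (hx i) hK
          have h2 : K * (x i + u) = K * x i + K * u := by ring
          rw [h2]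
          exact add_le_add h1 hvu
      _ = _ := by rw [Finset.prod_mul_distrib]; simp

theorem prod_add_cmp {σ : Type} [Fintype σ] (x x' : σ → ℝ) (hx : ∀ i, 0 ≤ x i)
    (hx' : ∀ i, 0 ≤ x' i) {v : ℝ} (hv : 0 ≤ v) (h : ∀ i, x i ≤ v) :
    ∏ i, (x i + v) ≤ 2 ^ Fintype.card σ * ∏ i, (x' i + v) := by
  calc ∏ i, (x i + v) ≤ ∏ i, 2 * (x' i + v) := by
        refine Finset.prod_le_prod (fun i _ => add_nonneg (hx i) hv) fun i _ => ?_
        have := h i
        have := hx' i
        linarith
    _ = _ := by rw [Finset.prod_mul_distrib]; simp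

/-- **Row GAP.** -/
theorem gap0 (d : ℕ) (A : ℕ → ℝ) (r r' b ε : ℝ) (hr : 0 < r) (hr' : r < r') (hb : 0 < b)
    (hε : 0 < ε) : ∃ K : ℝ, 1 ≤ K ∧ ∀ (Φ h : E d → ℝ), Sm d A Φ → Sm d A h → Df d b r' h →
      ∀ (c L w σ : ℝ), 1 ≤ L → |c| ≤ L → 1 ≤ w → w ≤ L ^ 2 → 0 < σ →
      ∃ N : Set (E d), MeasurableSet N ∧ volume N ≤ ENNReal.ofReal (K * L ^ ε * σ) ∧
        ∀ y, ‖y‖ ≤ r → y ∉ N → Stab (fun z => RT.rt (-(c • Hs Φ z)) (-Hs h z)) K w σ y := by
  -- constants
  set a2 : ℝ := |A 2| + 1 with ha2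
  have ha2p : 1 ≤ a2 := by have := abs_nonneg (A 2); linarith
  set G1 : ℝ := 2 * (a2 ^ d * (a2 / b)) + 1 with hG1
  have hG1p : 1 ≤ G1 := by have : 0 ≤ a2 ^ d * (a2 / b) := by positivity
                           linarith
  obtain ⟨N0, A', hF⟩ := gF_bound d A (4 * G1 ^ 2)
  set J : ℕ := ⌈(N0 : ℝ) / ε⌉₊ with hJ
  have hJε : (N0 : ℝ) ≤ ε * (J + 1) := by
    have h1 := Nat.le_ceil ((N0 : ℝ) / ε)
    rw [← hJ, div_le_iff₀ hε] at h1
    have h2 : ε * ((J : ℝ) + 1) = (J : ℝ) * ε + ε := by ring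
    rw [h2]
    exact h1.trans (le_add_of_nonneg_right hε.le)
  set ε1 : ℝ := ε / (2 * (N0 + 1)) with hε1
  have hε1p : 0 < ε1 := by positivity
  obtain ⟨K3, hK3, hbad⟩ := gap_bad d J A' r ε1 hr hε1p
  obtain ⟨K2, hK2, hn⟩ := nat_le_pow (ε / 2) (by positivity)
  set c2 : ℝ := min (1 / 8) (min (1 / (4 * (|A' (J + 1)| + 1))) (r' - r)) with hc2
  have hc2p : 0 < c2 := by
    rw [hc2]
    refine lt_min (by norm_num) (lt_min (by positivity) (by linarith))
  have hc21 : c2 ≤ 1 / 8 := min_le_left _ _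
  have hc22 : c2 ≤ 1 / (4 * (|A' (J + 1)| + 1)) := (min_le_right _ _).trans (min_le_left _ _)
  have hc23 : c2 ≤ r' - r := (min_le_right _ _).trans (min_le_right _ _)
  obtain ⟨K4, hK4, hlab⟩ := labels (d * d) (2 * 4 ^ (d * d))
    (by have : (1 : ℝ) ≤ 4 ^ (d * d) := one_le_pow₀ (by norm_num)
        linarith)
  set V : ℝ := (volume (Metric.closedBall (0 : E d) r)).toReal with hV
  have hVf : volume (Metric.closedBall (0 : E d) r) = ENNReal.ofReal V := by
    rw [hV, ENNReal.ofReal_toReal measure_closedBall_lt_top.ne]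
  have hV0 : 0 ≤ V := ENNReal.toReal_nonneg
  set KA : ℝ := V / c2 + K2 * G1 ^ (ε / 2) * K3 * 8 with hKA
  have hKA0 : 0 ≤ KA := by positivity
  set KB : ℝ := K4 * (a2 ^ d + 1) / b ^ d + 1 with hKB
  have hKB1 : 1 ≤ KB := by
    have : 0 ≤ K4 * (a2 ^ d + 1) / b ^ d := by positivity
    linarith
  refine ⟨KA + KB, by linarith, fun Φ h hΦ hh hDf c L w σ hL hc hw hwL hσ => ?_⟩
  have hL0 : 0 < L := one_pos.trans_le hL
  have hw0 : 0 < w := one_pos.trans_le hw
  set s : E d → Fin d → ℝ := fun z => RT.rt (-(c • Hs Φ z)) (-Hs h z) with hs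
  by_cases hbig : c2 < L ^ ε * σ
  · -- everything is bad
    refine ⟨Metric.closedBall 0 r, Metric.isClosed_closedBall.measurableSet, ?_, ?_⟩
    · rw [hVf]
      refine ENNReal.ofReal_le_ofReal ?_
      have h1 : V ≤ V / c2 * (L ^ ε * σ) := by
        rw [div_mul_eq_mul_div, le_div_iff₀ hc2p]
        exact mul_le_mul_of_nonneg_left hbig.le hV0
      have h2 : V / c2 * (L ^ ε * σ) ≤ (KA + KB) * (L ^ ε * σ) := by
        refine mul_le_mul_of_nonneg_right ?_ (by positivity)
        have : 0 ≤ K2 * G1 ^ (ε / 2) * K3 * 8 := by positivity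
        linarith
      calc V ≤ (KA + KB) * (L ^ ε * σ) := h1.trans h2
        _ = _ := by ring
    · intro y hy hyN
      exact absurd (by simpa using hy) hyN
  · push Not at hbig
    have hLε : 1 ≤ L ^ ε := Real.one_le_rpow hL hε.le
    have hσc : σ ≤ c2 := by
      calc σ = 1 * σ := (one_mul σ).symm
        _ ≤ L ^ ε * σ := mul_le_mul_of_nonneg_right hLε hσ.le
        _ ≤ c2 := hbig
    have hσ8 : 8 * σ ≤ 1 := by linarith
    -- facts at the points of the ball of radius r'
    have hPs : ∀ z, Sy (-(c • Hs Φ z)) := by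
      intro z v v'
      have := Hs_symm hΦ.sm z v v'
      simp only [neg_apply, smul_apply, inner_neg_left,
        inner_neg_right, real_inner_smul_left, real_inner_smul_right, this]
    have hQs : ∀ z, Sy (-Hs h z) := by
      intro z v v'
      have := Hs_symm hh.sm z v v'
      simp only [neg_apply, inner_neg_left, inner_neg_right, this]
    have hQb : ∀ z, ‖z‖ ≤ r' → ∀ v, b * ‖v‖ ^ 2 ≤ ⟪(-Hs h z) v, v⟫ := by
      intro z hz v
      have := hDf z hz v
      simp only [neg_apply, inner_neg_left]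
      linarith
    have hPn : ∀ z, ‖-(c • Hs Φ z)‖ ≤ L * a2 := by
      intro z
      rw [norm_neg, norm_smul, Real.norm_eq_abs]
      refine mul_le_mul hc ?_ (norm_nonneg _) hL0.le
      have h1 := (norm_Hs_le hΦ.sm z).trans (hΦ.bd 2 z)
      have := le_abs_self (A 2)
      linarith
    have hQn : ∀ z, ‖-Hs h z‖ ≤ a2 := by
      intro z
      rw [norm_neg]
      have h1 := (norm_Hs_le hh.sm z).trans (hh.bd 2 z)
      have := le_abs_self (A 2)
      linarith
    set D : E d → ℝ := fun z => (-Hs h z).det with hD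
    have hD1 : ∀ z, ‖z‖ ≤ r' → b ^ d ≤ |D z| := by
      intro z hz
      have h1 := dd_pow_le_det (-Hs h z) hb.le (fun v => ?_)
      · simpa using h1
      · rcases eq_or_ne v 0 with rfl | hv
        · simp
        · have h2 := hQb z hz v
          have h3 := real_inner_le_norm ((-Hs h z) v) v
          have h4 : 0 < ‖v‖ := norm_pos_iff.mpr hv
          have h5 : b * ‖v‖ * ‖v‖ ≤ ‖(-Hs h z) v‖ * ‖v‖ := by nlinarith
          exact le_of_mul_le_mul_right h5 h4
    have hD2 : ∀ z, |D z| ≤ a2 ^ d := fun z =>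
      (abs_det_le _).trans (pow_le_pow_left₀ (norm_nonneg _) (hQn z) d)
    set x : E d → Fin d × Fin d → ℝ := fun z i => (D z * s z i.1 - D z * s z i.2) ^ 2 with hx
    have hx0 : ∀ z i, 0 ≤ x z i := fun z i => sq_nonneg _
    have hgF : ∀ v z, ‖z‖ ≤ r' → gF Φ h c v z = ∏ i, (x z i + v) := by
      intro v z hz
      rw [gF, gd_kp _ _ b hb (hPs z) (hQs z) (hQb z hz) v, Fintype.prod_prod_type]
    have hxb : ∀ z, ‖z‖ ≤ r' → ∀ i, x z i ≤ (G1 * L) ^ 2 := by
      intro z hz i
      have h1 : ∀ a, |D z * s z a| ≤ a2 ^ d * (a2 / b) * L := by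
        intro a
        have h2 : |s z a| ≤ L * a2 / b := (RT.rt_bound (hPs z) (hQs z) hb (hQb z hz) a).trans
          (div_le_div_of_nonneg_right (hPn z) hb.le)
        rw [abs_mul]
        calc |D z| * |s z a| ≤ a2 ^ d * (L * a2 / b) :=
              mul_le_mul (hD2 z) h2 (abs_nonneg _) (by positivity)
          _ = _ := by ring
      have h3 : |D z * s z i.1 - D z * s z i.2| ≤ G1 * L := by
        have h4 := abs_sub (D z * s z i.1) (D z * s z i.2)
        have h5 := h1 i.1
        have h6 := h1 i.2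
        have h7 : G1 * L = 2 * (a2 ^ d * (a2 / b)) * L + L := by rw [hG1]; ring
        linarith
      rw [hx]
      simp only
      rw [← sq_abs]
      exact pow_le_pow_left₀ (abs_nonneg _) h3 2
    -- the number of the values of `v`
    have hG1L : 1 ≤ G1 * L := one_le_mul_of_one_le_of_one_le hG1p hL
    obtain ⟨n, hn1, hn2⟩ := exists_nat_pow_near hG1L (y := (2 : ℝ)) (by norm_num)
    have hvj : ∀ j : ℕ, j < n + 2 → |(4 : ℝ) ^ j * w ^ 2| ≤ 4 * G1 ^ 2 * L ^ 6 := by
      intro j hj
      rw [abs_of_nonneg (by positivity)]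
      have h1 : (4 : ℝ) ^ j ≤ 4 ^ (n + 1) := pow_le_pow_right₀ (by norm_num) (by omega)
      have h2 : (4 : ℝ) ^ (n + 1) = 4 * (2 ^ n) ^ 2 := by
        rw [pow_succ, ← pow_mul, mul_comm n 2, pow_mul]
        norm_num
        ring
      have h3 : ((2 : ℝ) ^ n) ^ 2 ≤ (G1 * L) ^ 2 := pow_le_pow_left₀ (by positivity) hn1 2
      have h4 : w ^ 2 ≤ (L ^ 2) ^ 2 := pow_le_pow_left₀ hw0.le hwL 2
      calc (4 : ℝ) ^ j * w ^ 2 ≤ (4 * (G1 * L) ^ 2) * (L ^ 2) ^ 2 :=
            mul_le_mul (h1.trans (h2.trans_le (by linarith))) h4 (by positivity) (by positivity)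
        _ = _ := by ring
    set L0 : ℝ := L ^ N0 with hL0d
    have hL01 : 1 ≤ L0 := one_le_pow₀ hL
    have hsm : ∀ j : ℕ, j < n + 2 → ContDiff ℝ ∞ (gF Φ h c (4 ^ j * w ^ 2)) ∧
        ∀ i y, ‖iteratedFDeriv ℝ i (gF Φ h c (4 ^ j * w ^ 2)) y‖ ≤ A' i * L0 :=
      fun j hj => hF Φ h c _ L hΦ hh hc (hvj j hj) hL
    have hB : ∀ j : ℕ, ∃ N : Set (E d), MeasurableSet N ∧
        volume N ≤ ENNReal.ofReal (K3 * L0 ^ ε1 * (8 * σ)) ∧ (j < n + 2 → ∀ y, ‖y‖ ≤ r → y ∉ N →
          1 ≤ gF Φ h c (4 ^ j * w ^ 2) y → ∀ i, 1 ≤ i → i ≤ J →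
          ‖iteratedFDeriv ℝ i (gF Φ h c (4 ^ j * w ^ 2)) y‖ ≤
            gF Φ h c (4 ^ j * w ^ 2) y * (8 * σ)⁻¹ ^ i) := by
      intro j
      by_cases hj : j < n + 2
      · obtain ⟨N, h1, h2, h3⟩ := hbad (gF Φ h c (4 ^ j * w ^ 2)) L0 (8 * σ) hL01 (by positivity)
          hσ8 (hsm j hj).1 (hsm j hj).2
        exact ⟨N, h1, h2, fun _ => h3⟩
      · exact ⟨∅, MeasurableSet.empty, by simp, fun h => absurd h hj⟩
    choose NN hNm hNv hNb using hB
    refine ⟨⋃ j ∈ Finset.range (n + 2), NN j, Finset.measurableSet_biUnion _ fun j _ => hNm j,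
      ?_, ?_⟩
    · refine (measure_biUnion_finset_le _ _).trans ((Finset.sum_le_sum fun j _ => hNv j).trans ?_)
      rw [Finset.sum_const, Finset.card_range, nsmul_eq_mul]
      have h2 : ((n + 2 : ℕ) : ℝ≥0∞) = ENNReal.ofReal ((n : ℝ) + 2) := by
        rw [← ENNReal.ofReal_natCast]
        push_cast
        rfl
      rw [h2, ← ENNReal.ofReal_mul (by positivity)]
      refine ENNReal.ofReal_le_ofReal ?_
      have h3 : (n : ℝ) + 2 ≤ K2 * G1 ^ (ε / 2) * L ^ (ε / 2) := by
        have h4 : ((2 : ℝ) ^ n) ^ (ε / 2) ≤ (G1 * L) ^ (ε / 2) :=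
          Real.rpow_le_rpow (by positivity) hn1 (by positivity)
        rw [Real.mul_rpow (by linarith) hL0.le] at h4
        calc (n : ℝ) + 2 ≤ K2 * ((2 : ℝ) ^ n) ^ (ε / 2) := hn n
          _ ≤ K2 * (G1 ^ (ε / 2) * L ^ (ε / 2)) := mul_le_mul_of_nonneg_left h4 hK2.le
          _ = _ := by ring
      have h5 : L0 ^ ε1 ≤ L ^ (ε / 2) := by
        rw [hL0d, ← Real.rpow_natCast, ← Real.rpow_mul hL0.le]
        refine Real.rpow_le_rpow_of_exponent_le hL ?_
        rw [hε1, mul_div_assoc', div_le_div_iff₀ (by positivity) (by norm_num)]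
        have h7 : ε * (2 * ((N0 : ℝ) + 1)) = (N0 : ℝ) * ε * 2 + 2 * ε := by ring
        rw [h7]
        exact le_add_of_nonneg_right (by positivity)
      have h6 : L ^ (ε / 2) * L ^ (ε / 2) = L ^ ε := by
        rw [← Real.rpow_add hL0]
        congr 1
        ring
      calc ((n : ℝ) + 2) * (K3 * L0 ^ ε1 * (8 * σ)) ≤
            (K2 * G1 ^ (ε / 2) * L ^ (ε / 2)) * (K3 * L ^ (ε / 2) * (8 * σ)) :=
            mul_le_mul h3 (mul_le_mul_of_nonneg_right (mul_le_mul_of_nonneg_left h5 hK3.le)
              (by positivity)) (by positivity) (by positivity)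
        _ = (K2 * G1 ^ (ε / 2) * K3 * 8) * (L ^ (ε / 2) * L ^ (ε / 2)) * σ := by ring
        _ = (K2 * G1 ^ (ε / 2) * K3 * 8) * L ^ ε * σ := by rw [h6]
        _ ≤ (KA + KB) * L ^ ε * σ := by
            refine mul_le_mul_of_nonneg_right (mul_le_mul_of_nonneg_right ?_ (by positivity)) hσ.le
            have : 0 ≤ V / c2 := by positivity
            linarith
    · intro y hy hyN z hz a a'
      simp only [Set.mem_iUnion, not_exists] at hyN
      -- the segment
      set zt : ℝ → E d := fun t => y + t • (z - y) with hzt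
      have hzt0 : zt 0 = y := by simp [hzt]
      have hzt1 : zt 1 = z := by simp [hzt]
      have hztd : ∀ t ∈ Icc (0 : ℝ) 1, ‖zt t - y‖ ≤ σ := by
        intro t ht
        have : zt t - y = t • (z - y) := by simp [hzt]
        rw [this, norm_smul, Real.norm_eq_abs, abs_of_nonneg ht.1]
        calc t * ‖z - y‖ ≤ 1 * ‖z - y‖ := mul_le_mul_of_nonneg_right ht.2 (norm_nonneg _)
          _ ≤ σ := by rw [one_mul]; exact hz
      have hztr : ∀ t ∈ Icc (0 : ℝ) 1, ‖zt t‖ ≤ r' := by
        intro t ht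
        have h1 : ‖zt t‖ ≤ ‖y‖ + ‖zt t - y‖ := by
          have := norm_add_le y (zt t - y)
          simpa using this
        have := hztd t ht
        linarith
      have hztc : Continuous zt := continuous_const.add (continuous_id.smul continuous_const)
      have hyr' : ‖y‖ ≤ r' := hy.trans hr'.le
      -- stability of the functions
      have hst : ∀ j : ℕ, j < n + 2 → ∀ t ∈ Icc (0 : ℝ) 1,
          |gF Φ h c (4 ^ j * w ^ 2) (zt t) - gF Φ h c (4 ^ j * w ^ 2) y| ≤
            gF Φ h c (4 ^ j * w ^ 2) y / 2 := by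
        intro j hj t ht
        have hv1 : (1 : ℝ) ≤ 4 ^ j * w ^ 2 :=
          one_le_mul_of_one_le_of_one_le (one_le_pow₀ (by norm_num)) (one_le_pow₀ hw)
        have hf1 : 1 ≤ gF Φ h c (4 ^ j * w ^ 2) y := by
          rw [hgF _ y hyr']
          have : (1 : ℝ) = ∏ _i : Fin d × Fin d, 1 := by simp
          rw [this]
          exact Finset.prod_le_prod (fun i _ => zero_le_one) fun i _ => by
            have := hx0 y i
            linarith
        refine taylor_stable J (hsm j hj).1 (σ := 8 * σ) (B := |A' (J + 1)| * L0) (by positivity)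
          (by linarith) ?_ ?_ ?_ ?_
        · exact hNb j hj y hy (hyN j (Finset.mem_range.mpr hj)) hf1
        · intro z' _
          exact ((hsm j hj).2 (J + 1) z').trans
            (mul_le_mul_of_nonneg_right (le_abs_self _) (by positivity))
        · have h8 : 8 * σ / 8 = σ := by ring
          rw [h8]
          have h1 : σ ≤ c2 * L ^ (-ε) := by
            rw [Real.rpow_neg hL0.le, ← div_eq_mul_inv, le_div_iff₀ (by positivity), mul_comm]
            exact hbig
          have h2 : σ ^ (J + 1) ≤ c2 * L0⁻¹ := by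
            calc σ ^ (J + 1) ≤ (c2 * L ^ (-ε)) ^ (J + 1) := pow_le_pow_left₀ hσ.le h1 _
              _ = c2 ^ (J + 1) * (L ^ (-ε)) ^ (J + 1) := mul_pow _ _ _
              _ ≤ c2 * L0⁻¹ := by
                refine mul_le_mul ?_ ?_ (by positivity) hc2p.le
                · have := pow_le_pow_of_le_one hc2p.le (by linarith : c2 ≤ 1)
                    (show 1 ≤ J + 1 by omega)
                  simpa using this
                · rw [hL0d, ← Real.rpow_natCast, ← Real.rpow_mul hL0.le, ← Real.rpow_natCast L N0,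
                    ← Real.rpow_neg hL0.le]
                  refine Real.rpow_le_rpow_of_exponent_le hL ?_
                  push_cast
                  linarith
          have h3 : |A' (J + 1)| * L0 * σ ^ (J + 1) ≤ |A' (J + 1)| * L0 * (c2 * L0⁻¹) :=
            mul_le_mul_of_nonneg_left h2 (by positivity)
          have h4 : |A' (J + 1)| * L0 * (c2 * L0⁻¹) = |A' (J + 1)| * c2 := by
            field_simp
          have h5 : |A' (J + 1)| * c2 ≤ 1 / 4 := by
            calc |A' (J + 1)| * c2 ≤ |A' (J + 1)| * (1 / (4 * (|A' (J + 1)| + 1))) :=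
                  mul_le_mul_of_nonneg_left hc22 (abs_nonneg _)
              _ ≤ 1 / 4 := by
                  rw [mul_one_div, div_le_div_iff₀ (by positivity) (by norm_num)]
                  have h9 := abs_nonneg (A' (J + 1))
                  have h10 : 1 * (4 * (|A' (J + 1)| + 1)) = |A' (J + 1)| * 4 + 4 := by ring
                  rw [h10]
                  exact le_add_of_nonneg_right (by norm_num)
          linarith
        · have : 8 * σ / 8 = σ := by ring
          rw [this]
          exact hztd t ht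
      -- labels
      have hlab' := hlab (Fin d × Fin d) (by simp) (fun t => x (zt t)) (w ^ 2) (by positivity)
        ?_ (fun t _ i => hx0 _ i) ?_ 1 (by simp) (a, a')
      · obtain ⟨h1, -⟩ := hlab'
        simp only [hzt0, hzt1] at h1
        have e1 : x z (a, a') = (D z * (s z a - s z a')) ^ 2 := by rw [hx]; ring
        have e0 : x y (a, a') = (D y * (s y a - s y a')) ^ 2 := by rw [hx]; ring
        rw [e1, e0, mul_pow, mul_pow, ← sq_abs (D z), ← sq_abs (D y), ← sq_abs (s z a - s z a'),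
          ← sq_abs (s y a - s y a')] at h1
        have hzr : ‖z‖ ≤ r' := by have := hztr 1 (by simp); rwa [hzt1] at this
        set g1 := |s z a - s z a'| with hg1
        set g0 := |s y a - s y a'| with hg0
        have hg1p : 0 ≤ g1 := abs_nonneg _
        have hg0p : 0 ≤ g0 := abs_nonneg _
        have hbd : 0 < b ^ d := by positivity
        have h2 : (b ^ d * g1) ^ 2 ≤ (K4 * (a2 ^ d * g0 + w)) ^ 2 := by
          have h3 : (b ^ d * g1) ^ 2 ≤ |D z| ^ 2 * g1 ^ 2 := by
            rw [mul_pow]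
            exact mul_le_mul_of_nonneg_right (pow_le_pow_left₀ hbd.le (hD1 z hzr) 2) (sq_nonneg _)
          have h4 : |D y| ^ 2 * g0 ^ 2 ≤ (a2 ^ d * g0) ^ 2 := by
            rw [mul_pow]
            exact mul_le_mul_of_nonneg_right (pow_le_pow_left₀ (abs_nonneg _) (hD2 y) 2)
              (sq_nonneg _)
          have h5 : (a2 ^ d * g0) ^ 2 + w ^ 2 ≤ (a2 ^ d * g0 + w) ^ 2 := by
            have h12 : 0 ≤ 2 * (a2 ^ d * g0 * w) := by positivity
            have h13 : (a2 ^ d * g0 + w) ^ 2 = (a2 ^ d * g0) ^ 2 + w ^ 2 +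
              2 * (a2 ^ d * g0 * w) := by ring
            rw [h13]
            exact le_add_of_nonneg_right h12
          have h6 : K4 ≤ K4 ^ 2 := le_self_pow₀ hK4 two_ne_zero
          calc (b ^ d * g1) ^ 2 ≤ |D z| ^ 2 * g1 ^ 2 + w ^ 2 := by
                have := sq_nonneg w
                linarith
            _ ≤ K4 * (|D y| ^ 2 * g0 ^ 2 + w ^ 2) := h1
            _ ≤ K4 ^ 2 * (a2 ^ d * g0 + w) ^ 2 := by
                refine mul_le_mul h6 (by linarith) (by positivity) (by positivity)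
            _ = _ := by ring
        have h7 : b ^ d * g1 ≤ K4 * (a2 ^ d * g0 + w) :=
          le_of_sq_le_sq h2 (by positivity)
        have h8 : g1 ≤ K4 * (a2 ^ d * g0 + w) / b ^ d := by
          rw [le_div_iff₀ hbd, mul_comm]
          exact h7
        have h9 : K4 * (a2 ^ d * g0 + w) / b ^ d ≤ K4 * (a2 ^ d + 1) / b ^ d * (g0 + w) := by
          rw [div_mul_eq_mul_div]
          refine div_le_div_of_nonneg_right ?_ hbd.le
          have h10 : a2 ^ d * g0 + w ≤ (a2 ^ d + 1) * (g0 + w) := by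
            have h12 : 0 ≤ a2 ^ d * w + g0 := by positivity
            have h13 : (a2 ^ d + 1) * (g0 + w) = a2 ^ d * g0 + w + (a2 ^ d * w + g0) := by ring
            rw [h13]
            exact le_add_of_nonneg_right h12
          calc K4 * (a2 ^ d * g0 + w) ≤ K4 * ((a2 ^ d + 1) * (g0 + w)) :=
                mul_le_mul_of_nonneg_left h10 (by linarith)
            _ = _ := by ring
        have h11 : g1 + w ≤ KB * (g0 + w) := by
          have : KB * (g0 + w) = K4 * (a2 ^ d + 1) / b ^ d * (g0 + w) + (g0 + w) := by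
            rw [hKB]; ring
          linarith
        calc g1 + w ≤ KB * (g0 + w) := h11
          _ ≤ (KA + KB) * (g0 + w) := mul_le_mul_of_nonneg_right (by linarith) (by linarith)
      · intro i
        have hDc : Continuous D := by
          have h1 : Continuous (fun z => -Hs h z) := (continuous_Hs hh.sm).neg
          exact ContinuousLinearMap.continuous_det.comp h1
        have hsc : ∀ a, ContinuousOn (fun t => s (zt t) a) (Icc 0 1) := by
          intro a
          refine RT.rt_cont (P := fun t => -(c • Hs Φ (zt t))) (Q := fun t => -Hs h (zt t)) hb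
            (fun t _ => hPs _) (fun t _ => hQs _) (fun t ht => hQb _ (hztr t ht)) ?_ ?_ a
          · exact (((continuous_Hs hΦ.sm).comp hztc).const_smul c).neg.continuousOn
          · exact ((continuous_Hs hh.sm).comp hztc).neg.continuousOn
        have hDt : ContinuousOn (fun t => D (zt t)) (Icc 0 1) := (hDc.comp hztc).continuousOn
        exact (((hDt.mul (hsc i.1)).sub (hDt.mul (hsc i.2))).pow 2)
      · intro t ht v hv
        simp only [hzt0]
        have hcard : Fintype.card (Fin d × Fin d) = d * d := by simp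
        have hv0 : 0 < v := lt_of_lt_of_le (by positivity) hv
        have h4d : (1 : ℝ) ≤ 4 ^ (d * d) := one_le_pow₀ (by norm_num)
        have hF0 : ∀ z' v', 0 < v' → 0 < ∏ i, (x z' i + v') := fun z' v' hv' =>
          Finset.prod_pos fun i _ => by have := hx0 z' i; linarith
        have h1 : 1 ≤ v / w ^ 2 := by rw [le_div_iff₀ (by positivity)]; linarith
        obtain ⟨j, hj1, hj2⟩ := exists_nat_pow_near h1 (y := (4 : ℝ)) (by norm_num)
        rw [le_div_iff₀ (by positivity)] at hj1
        rw [div_lt_iff₀ (by positivity)] at hj2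
        -- it is enough to compare both ways
        suffices hcmp : (∏ i, (x (zt t) i + v) ≤ 2 * 4 ^ (d * d) * ∏ i, (x y i + v)) ∧
            (∏ i, (x y i + v) ≤ 2 * 4 ^ (d * d) * ∏ i, (x (zt t) i + v)) by
          refine ⟨?_, hcmp.1⟩
          rw [inv_mul_le_iff₀ (by positivity)]
          exact hcmp.2
        by_cases hj : j < n + 2
        · have hvj0 : (0 : ℝ) < 4 ^ j * w ^ 2 := by positivity
          have hs1 := hst j hj t ht
          rw [hgF _ _ (hztr t ht), hgF _ y hyr'] at hs1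
          rw [abs_le] at hs1
          have hv4 : v ≤ 4 * (4 ^ j * w ^ 2) := by
            rw [pow_succ] at hj2
            linarith
          have c1 := prod_add_le (x (zt t)) (hx0 _) hvj0.le hj1 (by norm_num : (1 : ℝ) ≤ 4) hv4
          have c0 := prod_add_le (x y) (hx0 _) hvj0.le hj1 (by norm_num : (1 : ℝ) ≤ 4) hv4
          rw [hcard] at c1 c0
          have p1 := hF0 (zt t) _ hvj0
          have p0 := hF0 y _ hvj0
          constructor
          · calc _ ≤ 4 ^ (d * d) * ∏ i, (x (zt t) i + 4 ^ j * w ^ 2) := c1.2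
              _ ≤ 4 ^ (d * d) * (2 * ∏ i, (x y i + 4 ^ j * w ^ 2)) :=
                  mul_le_mul_of_nonneg_left (by linarith) (by positivity)
              _ ≤ 4 ^ (d * d) * (2 * ∏ i, (x y i + v)) :=
                  mul_le_mul_of_nonneg_left (by linarith [c0.1]) (by positivity)
              _ = _ := by ring
          · calc _ ≤ 4 ^ (d * d) * ∏ i, (x y i + 4 ^ j * w ^ 2) := c0.2
              _ ≤ 4 ^ (d * d) * (2 * ∏ i, (x (zt t) i + 4 ^ j * w ^ 2)) :=
                  mul_le_mul_of_nonneg_left (by linarith) (by positivity)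
              _ ≤ 4 ^ (d * d) * (2 * ∏ i, (x (zt t) i + v)) :=
                  mul_le_mul_of_nonneg_left (by linarith [c1.1]) (by positivity)
              _ = _ := by ring
        · have hjn : n + 1 ≤ j := by omega
          have hvb : (G1 * L) ^ 2 ≤ v := by
            have h2 : (4 : ℝ) ^ (n + 1) ≤ 4 ^ j := pow_le_pow_right₀ (by norm_num) hjn
            have h3 : (G1 * L) ^ 2 ≤ (2 ^ (n + 1)) ^ 2 := pow_le_pow_left₀ (by positivity) hn2.le 2
            have h4 : ((2 : ℝ) ^ (n + 1)) ^ 2 = 4 ^ (n + 1) := by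
              rw [← pow_mul, mul_comm, pow_mul]
              norm_num
            have h5 : (4 : ℝ) ^ j ≤ 4 ^ j * w ^ 2 :=
              le_mul_of_one_le_right (by positivity) (one_le_pow₀ hw)
            linarith
          have h24 : (2 : ℝ) ^ (d * d) ≤ 2 * 4 ^ (d * d) := by
            have : (2 : ℝ) ^ (d * d) ≤ 4 ^ (d * d) := pow_le_pow_left₀ (by norm_num) (by norm_num) _
            linarith
          have c1 := prod_add_cmp (x (zt t)) (x y) (hx0 _) (hx0 _) hv0.le
            (fun i => (hxb _ (hztr t ht) i).trans hvb)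
          have c0 := prod_add_cmp (x y) (x (zt t)) (hx0 _) (hx0 _) hv0.le
            (fun i => (hxb _ hyr' i).trans hvb)
          rw [hcard] at c1 c0
          exact ⟨c1.trans (mul_le_mul_of_nonneg_right h24 (hF0 _ _ hv0).le),
            c0.trans (mul_le_mul_of_nonneg_right h24 (hF0 _ _ hv0).le)⟩

end Pool.Agent.GNP
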