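import Pool.Agent.GNP.CountR

/-!
Area bound for the gradient map of a phase with a polynomial weight, and for all shifts of `s`.
-/

namespace Pool.Agent.GNP

open MeasureTheory Set Pool.Agent.MP_6cbfb8_an
open scoped ENNReal Real RealInnerProductSpace ContDiff

/-- `(1+t)^(-N) ≤ 2^N ∑_i 2^(-iN) 1[t ≤ 2^i]`. -/
theorem weight_shells (N : ℕ) (t : ℝ) (ht : 0 ≤ t) :
    ENNReal.ofReal (((1 + t) ^ N)⁻¹) ≤
      ∑' i : ℕ, ENNReal.ofReal (2 ^ N * ((2 : ℝ) ^ N)⁻¹ ^ i) * ({τ : ℝ | τ ≤ 2 ^ i}.indicator 1 t) := by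
  classical
  have hex : ∃ i : ℕ, t ≤ 2 ^ i := by
    obtain ⟨i, hi⟩ := pow_unbounded_of_one_lt t (one_lt_two : (1 : ℝ) < 2)
    exact ⟨i, hi.le⟩
  set i := Nat.find hex with hi
  have hit : t ≤ 2 ^ i := Nat.find_spec hex
  refine le_trans ?_ (ENNReal.le_tsum i)
  have h1 : ({τ : ℝ | τ ≤ 2 ^ i}.indicator 1 t : ℝ≥0∞) = 1 := by
    rw [indicator_of_mem (by exact hit)]
    rfl
  rw [h1, mul_one]
  apply ENNReal.ofReal_le_ofReal
  rcases Nat.eq_zero_or_pos i with h0 | h0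
  · rw [h0, pow_zero, mul_one]
    have h2 : ((1 + t) ^ N)⁻¹ ≤ 1 := inv_le_one_of_one_le₀ (one_le_pow₀ (by linarith))
    exact h2.trans (one_le_pow₀ (by norm_num))
  · obtain ⟨k, hk⟩ := Nat.exists_eq_succ_of_ne_zero h0.ne'
    have h3 : (2 : ℝ) ^ k < t := by
      by_contra hcon
      have := Nat.find_min hex (m := k) (by rw [← hi, hk]; exact Nat.lt_succ_self k)
      exact this (not_lt.mp hcon)
    have h4 : ((2 : ℝ) ^ k) ^ N ≤ (1 + t) ^ N :=
      pow_le_pow_left₀ (by positivity) (by linarith) N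
    have h5 : 2 ^ N * ((2 : ℝ) ^ N)⁻¹ ^ i = (((2 : ℝ) ^ k) ^ N)⁻¹ := by
      have ha : ((2 : ℝ) ^ N) ≠ 0 := by positivity
      have e1 : ((2 : ℝ) ^ k) ^ N = ((2 : ℝ) ^ N) ^ k := by rw [← pow_mul, ← pow_mul, mul_comm]
      rw [hk, Nat.succ_eq_add_one, e1]
      generalize (2 : ℝ) ^ N = a at ha
      rw [pow_succ, inv_pow]
      field_simp
    rw [h5]
    exact inv_anti₀ (by positivity) h4

/-- Area bound with the weight `(1 + |∇q - x|/R)^(-N)`. -/
theorem count_w (d : ℕ) (A : ℕ → ℝ) (r ε : ℝ) (N : ℕ) (hr : 0 < r) (hε : 0 < ε) (hN : d + 1 ≤ N) :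
    ∃ K : ℝ, 0 < K ∧ ∀ (q : E d → ℝ) (P : ℝ), 1 ≤ P → Phq d A P q → ∀ S : Set (E d),
    MeasurableSet S → (∀ y ∈ S, ‖y‖ ≤ r) → ∀ (x : E d) (R : ℝ), 1 ≤ R →
    ∫⁻ y in S, ENNReal.ofReal (((1 + ‖gr q y - x‖ / R) ^ N)⁻¹) * ‖(Hs q y).det‖ₑ ≤
      ENNReal.ofReal (K * P ^ ε * R ^ d) := by
  obtain ⟨K, hK, hc⟩ := count_int' d A r ε hr hε
  refine ⟨2 ^ N * K * 2, by positivity, fun q P hP hq S hS hSr x R hR => ?_⟩
  have hR0 : 0 < R := by linarith
  have hgr : Measurable (gr q) := (continuous_gr hq.sm).measurable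
  have hdet : Measurable fun y => ‖(Hs q y).det‖ₑ := (continuous_det_Hs hq.sm).measurable.enorm
  have hT : Measurable fun y => ‖gr q y - x‖ / R :=
    ((hgr.sub measurable_const).norm).div_const R
  have hP0 : 0 < P := by linarith
  set F : ℕ → E d → ℝ≥0∞ := fun i y => ENNReal.ofReal (2 ^ N * ((2 : ℝ) ^ N)⁻¹ ^ i) *
    (({y : E d | ‖gr q y - x‖ / R ≤ 2 ^ i}).indicator (fun y => ‖(Hs q y).det‖ₑ) y) with hF
  have hset : ∀ i : ℕ, MeasurableSet {y : E d | ‖gr q y - x‖ / R ≤ 2 ^ i} := fun i =>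
    measurableSet_le hT measurable_const
  have hFm : ∀ i, Measurable (F i) := fun i => (hdet.indicator (hset i)).const_mul _
  have h1 : ∀ y, ENNReal.ofReal (((1 + ‖gr q y - x‖ / R) ^ N)⁻¹) * ‖(Hs q y).det‖ₑ ≤
      ∑' i, F i y := by
    intro y
    have h2 := mul_le_mul_left (weight_shells N (‖gr q y - x‖ / R) (by positivity))
      ‖(Hs q y).det‖ₑ
    refine h2.trans (le_of_eq ?_)
    rw [← ENNReal.tsum_mul_right]
    refine tsum_congr fun i => ?_
    rw [hF]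
    simp only
    rw [mul_assoc]
    congr 1
    by_cases hy : ‖gr q y - x‖ / R ≤ 2 ^ i
    · rw [indicator_of_mem (by exact hy), indicator_of_mem (by exact hy)]
      simp
    · rw [indicator_of_notMem (by exact hy), indicator_of_notMem (by exact hy), zero_mul]
  have h3 : ∀ i, ∫⁻ y in S, F i y ≤ ENNReal.ofReal (2 ^ N * K * P ^ ε * R ^ d) * 2⁻¹ ^ i := by
    intro i
    have h2i : (1 : ℝ) ≤ 2 ^ i := one_le_pow₀ (by norm_num)
    rw [hF]
    simp only
    rw [lintegral_const_mul _ (hdet.indicator (hset i)), lintegral_indicator (hset i),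
      Measure.restrict_restrict (hset i)]
    have h4 := hc q P hP hq ({y : E d | ‖gr q y - x‖ / R ≤ 2 ^ i} ∩ S) ((hset i).inter hS)
      (fun y hy => hSr y hy.2) x (2 ^ i * R) (by nlinarith)
      (fun y hy => by
        have := hy.1
        simp only [mem_ofPred_eq] at this
        rwa [div_le_iff₀ hR0] at this)
    refine (mul_le_mul_right h4 _).trans ?_
    rw [← ENNReal.ofReal_mul (by positivity)]
    have h5 : (2⁻¹ : ℝ≥0∞) ^ i = ENNReal.ofReal ((2⁻¹ : ℝ) ^ i) := by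
      rw [ENNReal.ofReal_pow (by norm_num), ENNReal.ofReal_inv_of_pos (by norm_num)]
      norm_num
    rw [h5, ← ENNReal.ofReal_mul (by positivity)]
    apply ENNReal.ofReal_le_ofReal
    have h6 : ((2 : ℝ) ^ N)⁻¹ * 2 ^ d ≤ 2⁻¹ := by
      have h7 : (2 : ℝ) ^ (d + 1) ≤ 2 ^ N := pow_le_pow_right₀ (by norm_num) hN
      rw [pow_succ] at h7
      rw [inv_mul_le_iff₀ (by positivity)]
      linarith
    have h8 : (((2 : ℝ) ^ N)⁻¹ * 2 ^ d) ^ i ≤ (2⁻¹ : ℝ) ^ i :=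
      pow_le_pow_left₀ (by positivity) h6 i
    calc 2 ^ N * ((2 : ℝ) ^ N)⁻¹ ^ i * (K * P ^ ε * (2 ^ i * R) ^ d)
        = 2 ^ N * K * P ^ ε * R ^ d * (((2 : ℝ) ^ N)⁻¹ * 2 ^ d) ^ i := by
          rw [mul_pow, mul_pow, ← pow_mul 2 i d, mul_comm i d, pow_mul]
          ring
      _ ≤ 2 ^ N * K * P ^ ε * R ^ d * (2⁻¹ : ℝ) ^ i := by
          gcongr
  calc ∫⁻ y in S, ENNReal.ofReal (((1 + ‖gr q y - x‖ / R) ^ N)⁻¹) * ‖(Hs q y).det‖ₑ
      ≤ ∫⁻ y in S, ∑' i, F i y := lintegral_mono fun y => h1 y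
    _ = ∑' i, ∫⁻ y in S, F i y := lintegral_tsum fun i => (hFm i).aemeasurable
    _ ≤ ∑' i : ℕ, ENNReal.ofReal (2 ^ N * K * P ^ ε * R ^ d) * 2⁻¹ ^ i := ENNReal.tsum_le_tsum h3
    _ = ENNReal.ofReal (2 ^ N * K * P ^ ε * R ^ d) * 2 := by
        rw [ENNReal.tsum_mul_left]
        simp [ENNReal.tsum_geometric]
    _ = ENNReal.ofReal (2 ^ N * K * 2 * P ^ ε * R ^ d) := by
        rw [show (2 : ℝ≥0∞) = ENNReal.ofReal 2 by norm_num, ← ENNReal.ofReal_mul (by positivity)]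
        congr 1
        ring

/-- The area bound with weight for the sum over the shifts `s + j k R` of `s`. -/
theorem count_shift (d : ℕ) (A : ℕ → ℝ) (r ε : ℝ) (N m : ℕ) (k : ℝ) (hr : 0 < r) (hε : 0 < ε)
    (hN : d + 1 ≤ N) (hk : 0 ≤ k) : ∃ K : ℝ, 0 < K ∧ ∀ (Φ h : E d → ℝ) (c s P R : ℝ),
    Sm d A Φ → Sm d A h → 1 ≤ P → 1 ≤ R → |c| + |s| + m * k * R ≤ P ^ 2 → ∀ S : Set (E d),
    MeasurableSet S → (∀ y ∈ S, ‖y‖ ≤ r) → ∀ x : E d,
    ∫⁻ y in S, ENNReal.ofReal (((1 + ‖gr (ph Φ h c s) y - x‖ / R) ^ N)⁻¹) *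
      (∑ j ∈ Finset.range (m + 1), ‖(Hs (ph Φ h c (s + j * k * R)) y).det‖ₑ) ≤
      ENNReal.ofReal (K * P ^ ε * R ^ d) := by
  obtain ⟨K, hK, hc⟩ := count_w d (fun j => 1 * A j) r ε N hr hε hN
  set B : ℝ := 1 + m * k * max (A 1) 0 with hB
  have hB1 : 1 ≤ B := by
    have : 0 ≤ m * k * max (A 1) 0 := by positivity
    linarith
  refine ⟨(m + 1) * B ^ N * K, by positivity, fun Φ h c s P R hΦ hh hP hR hcs S hS hSr x => ?_⟩
  have hR0 : 0 < R := by linarith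
  have hj : ∀ j ∈ Finset.range (m + 1),
      ∫⁻ y in S, ENNReal.ofReal (((1 + ‖gr (ph Φ h c s) y - x‖ / R) ^ N)⁻¹) *
        ‖(Hs (ph Φ h c (s + j * k * R)) y).det‖ₑ ≤ ENNReal.ofReal (B ^ N * (K * P ^ ε * R ^ d)) := by
    intro j hj
    have hjm : (j : ℝ) ≤ m := by
      have := Finset.mem_range_succ_iff.mp hj
      exact_mod_cast this
    have hq : Phq d (fun j => 1 * A j) P (ph Φ h c (s + j * k * R)) := by
      refine phq_ph hΦ hh ?_
      rw [one_mul]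
      have h1 : |s + j * k * R| ≤ |s| + m * k * R := by
        refine (abs_add_le _ _).trans ?_
        have h2 : |(j : ℝ) * k * R| = j * k * R := abs_of_nonneg (by positivity)
        rw [h2]
        gcongr
      linarith
    have h3 := hc (ph Φ h c (s + j * k * R)) P hP hq S hS hSr x R hR
    have h4 : ∀ y, ENNReal.ofReal (((1 + ‖gr (ph Φ h c s) y - x‖ / R) ^ N)⁻¹) ≤
        ENNReal.ofReal (B ^ N) *
          ENNReal.ofReal (((1 + ‖gr (ph Φ h c (s + j * k * R)) y - x‖ / R) ^ N)⁻¹) := by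
      intro y
      rw [← ENNReal.ofReal_mul (by positivity)]
      apply ENNReal.ofReal_le_ofReal
      have h5 : gr (ph Φ h c (s + j * k * R)) y - x =
          (gr (ph Φ h c s) y - x) - (j * k * R) • gr h y := by
        rw [gr_ph hΦ.sm hh.sm, gr_ph hΦ.sm hh.sm, add_smul]
        abel
      have h6 : ‖gr h y‖ ≤ max (A 1) 0 := by
        rw [norm_gr]
        exact (hh.bd 1 y).trans (le_max_left _ _)
      have h7 : ‖gr (ph Φ h c (s + j * k * R)) y - x‖ / R ≤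
          ‖gr (ph Φ h c s) y - x‖ / R + m * k * max (A 1) 0 := by
        rw [h5, div_le_iff₀ hR0]
        refine (norm_sub_le _ _).trans ?_
        rw [add_mul, div_mul_cancel₀ _ hR0.ne', norm_smul, Real.norm_eq_abs,
          abs_of_nonneg (by positivity : (0 : ℝ) ≤ j * k * R)]
        have h8 : (j : ℝ) * k * R * ‖gr h y‖ ≤ m * k * R * max (A 1) 0 := by gcongr
        linarith
      have h9 : 0 ≤ ‖gr (ph Φ h c s) y - x‖ / R := by positivity
      have h10 : 0 ≤ ‖gr (ph Φ h c (s + j * k * R)) y - x‖ / R := by positivity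
      have h11 : 0 ≤ m * k * max (A 1) 0 := by positivity
      have h12 : 1 + ‖gr (ph Φ h c (s + j * k * R)) y - x‖ / R ≤
          B * (1 + ‖gr (ph Φ h c s) y - x‖ / R) := by
        rw [hB]
        nlinarith [mul_nonneg h11 h9]
      have h13 := pow_le_pow_left₀ (by positivity) h12 N
      rw [mul_pow] at h13
      rw [← div_eq_mul_inv, inv_eq_one_div, div_le_div_iff₀ (by positivity) (by positivity)]
      linarith
    calc ∫⁻ y in S, ENNReal.ofReal (((1 + ‖gr (ph Φ h c s) y - x‖ / R) ^ N)⁻¹) *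
          ‖(Hs (ph Φ h c (s + j * k * R)) y).det‖ₑ
        ≤ ∫⁻ y in S, ENNReal.ofReal (B ^ N) *
          (ENNReal.ofReal (((1 + ‖gr (ph Φ h c (s + j * k * R)) y - x‖ / R) ^ N)⁻¹) *
            ‖(Hs (ph Φ h c (s + j * k * R)) y).det‖ₑ) := by
          refine lintegral_mono fun y => ?_
          rw [← mul_assoc]
          exact mul_le_mul_left (h4 y) _
      _ = ENNReal.ofReal (B ^ N) * ∫⁻ y in S,
          (ENNReal.ofReal (((1 + ‖gr (ph Φ h c (s + j * k * R)) y - x‖ / R) ^ N)⁻¹) *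
            ‖(Hs (ph Φ h c (s + j * k * R)) y).det‖ₑ) := by
          rw [lintegral_const_mul' _ _ ENNReal.ofReal_ne_top]
      _ ≤ ENNReal.ofReal (B ^ N) * ENNReal.ofReal (K * P ^ ε * R ^ d) := by gcongr
      _ = _ := by rw [← ENNReal.ofReal_mul (by positivity)]
  have hm : ∀ j : ℕ, Measurable fun y : E d =>
      ENNReal.ofReal (((1 + ‖gr (ph Φ h c s) y - x‖ / R) ^ N)⁻¹) *
        ‖(Hs (ph Φ h c (s + j * k * R)) y).det‖ₑ := by
    intro j
    have h1 : Measurable (gr (ph Φ h c s)) :=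
      (continuous_gr (contDiff_ph hΦ.sm hh.sm c s)).measurable
    have h2 : Measurable fun y => ‖(Hs (ph Φ h c (s + j * k * R)) y).det‖ₑ :=
      (continuous_det_Hs (contDiff_ph hΦ.sm hh.sm c _)).measurable.enorm
    exact (((measurable_const.add ((h1.sub measurable_const).norm.div_const R)).pow_const
      N).inv.ennreal_ofReal).mul h2
  calc ∫⁻ y in S, ENNReal.ofReal (((1 + ‖gr (ph Φ h c s) y - x‖ / R) ^ N)⁻¹) *
        (∑ j ∈ Finset.range (m + 1), ‖(Hs (ph Φ h c (s + j * k * R)) y).det‖ₑ)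
      = ∑ j ∈ Finset.range (m + 1),
        ∫⁻ y in S, ENNReal.ofReal (((1 + ‖gr (ph Φ h c s) y - x‖ / R) ^ N)⁻¹) *
          ‖(Hs (ph Φ h c (s + j * k * R)) y).det‖ₑ := by
        rw [← lintegral_finsetSum _ fun j _ => hm j]
        simp_rw [Finset.mul_sum]
    _ ≤ ∑ _j ∈ Finset.range (m + 1), ENNReal.ofReal (B ^ N * (K * P ^ ε * R ^ d)) :=
        Finset.sum_le_sum hj
    _ = ENNReal.ofReal ((m + 1) * B ^ N * K * P ^ ε * R ^ d) := by
        rw [Finset.sum_const, Finset.card_range, nsmul_eq_mul,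
          show ((m + 1 : ℕ) : ℝ≥0∞) = ENNReal.ofReal ((m : ℝ) + 1) by
            rw [← Nat.cast_succ, ENNReal.ofReal_natCast],
          ← ENNReal.ofReal_mul (by positivity)]
        congr 1
        ring

end Pool.Agent.GNP
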