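import Pool.Agent.GNP.Defs

namespace Pool.Agent.GNP

open MeasureTheory Set Pool.Agent.MP_6cbfb8_an
open scoped ENNReal Real RealInnerProductSpace ContDiff

/-! ## HS: the height function -/

theorem HS_pos {d : ℕ} {y : E d} (hy : ‖y‖ < 1) : 0 < 1 - ‖y‖ ^ 2 := by
  nlinarith [norm_nonneg y]

theorem hs_pos_of {d : ℕ} {y : E d} (hy : ‖y‖ < 1) : 0 < hs y := Real.sqrt_pos.2 (HS_pos hy)

theorem hs_sq_of {d : ℕ} {y : E d} (hy : ‖y‖ < 1) : hs y ^ 2 = 1 - ‖y‖ ^ 2 :=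
  Real.sq_sqrt (HS_pos hy).le

theorem contDiffAt_hs {d : ℕ} {y : E d} (hy : ‖y‖ < 1) : ContDiffAt ℝ ∞ (hs : E d → ℝ) y := by
  have h1 : ContDiffAt ℝ ∞ (fun y : E d => 1 - ‖y‖ ^ 2) y :=
    contDiffAt_const.sub (contDiff_norm_sq ℝ).contDiffAt
  exact h1.sqrt (HS_pos hy).ne'

theorem hasFDerivAt_hs {d : ℕ} {y : E d} (hy : ‖y‖ < 1) :
    HasFDerivAt (hs : E d → ℝ) (-((hs y)⁻¹ • innerSL ℝ y)) y := by
  have h1 : HasFDerivAt (fun y : E d => 1 - ‖y‖ ^ 2) (-(2 • innerSL ℝ y)) y := by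
    have := (hasStrictFDerivAt_norm_sq y).hasFDerivAt.const_sub 1
    simpa using this
  have h2 := h1.sqrt (HS_pos hy).ne'
  have h3 : (1 / (2 * √(1 - ‖y‖ ^ 2))) • -(2 • innerSL ℝ y) = -((hs y)⁻¹ • innerSL ℝ y) := by
    ext v
    have : hs y ≠ 0 := (hs_pos_of hy).ne'
    change (1 / (2 * hs y)) * -((2 • innerSL ℝ y) v) = -((hs y)⁻¹ * innerSL ℝ y v)
    rw [smul_apply, nsmul_eq_mul]
    field_simp
    norm_num
  rw [← h3]
  exact h2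

theorem gr_hs {d : ℕ} {y : E d} (hy : ‖y‖ < 1) : gr hs y = -((hs y)⁻¹ • y) := by
  unfold gr
  rw [(hasFDerivAt_hs hy).fderiv]
  apply ext_inner_right ℝ
  intro v
  rw [InnerProductSpace.toDual_symm_apply, inner_neg_left, inner_smul_left]
  simp

theorem HS_nhds {d : ℕ} {y : E d} (hy : ‖y‖ < 1) : ∀ᶠ z in nhds y, ‖z‖ < 1 :=
  (isOpen_lt continuous_norm continuous_const).mem_nhds hy

/-- The second derivative of the height function. -/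
theorem hasFDerivAt_gr_hs {d : ℕ} {y : E d} (hy : ‖y‖ < 1) :
    HasFDerivAt (gr (hs : E d → ℝ))
      (-((hs y)⁻¹ • ContinuousLinearMap.id ℝ (E d) +
        (((hs y) ^ 3)⁻¹ • innerSL ℝ y).smulRight y)) y := by
  have h0 : hs y ≠ 0 := (hs_pos_of hy).ne'
  have h1 : HasFDerivAt (fun z : E d => (hs z)⁻¹) ((((hs y) ^ 3)⁻¹) • innerSL ℝ y) y := by
    have h2 := (hasDerivAt_inv h0).comp_hasFDerivAt y (hasFDerivAt_hs hy)
    have h3 : -((hs y) ^ 2)⁻¹ • -((hs y)⁻¹ • innerSL ℝ y) = (((hs y) ^ 3)⁻¹) • innerSL ℝ y := by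
      rw [smul_neg, neg_smul, neg_neg, smul_smul]
      congr 1
      field_simp
    rw [← h3]
    exact h2
  have h4 : HasFDerivAt (fun z : E d => -((hs z)⁻¹ • z))
      (-((hs y)⁻¹ • ContinuousLinearMap.id ℝ (E d) +
        (((hs y) ^ 3)⁻¹ • innerSL ℝ y).smulRight y)) y := (h1.smul (hasFDerivAt_id y)).neg
  refine h4.congr_of_eventuallyEq ?_
  filter_upwards [HS_nhds hy] with z hz
  exact gr_hs hz

theorem Hs_hs_eq {d : ℕ} {y : E d} (hy : ‖y‖ < 1) :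
    Hs hs y = -((hs y)⁻¹ • ContinuousLinearMap.id ℝ (E d) +
        (((hs y) ^ 3)⁻¹ • innerSL ℝ y).smulRight y) := (hasFDerivAt_gr_hs hy).fderiv

theorem hs_le_one {d : ℕ} (y : E d) : hs y ≤ 1 := by
  unfold hs
  rw [Real.sqrt_le_one]
  nlinarith [sq_nonneg ‖y‖]

/-- The height function is strictly concave. (file HS.lean) -/
theorem Hs_hs {d : ℕ} (y v : E d) (hy : ‖y‖ < 1) : ⟪Hs hs y v, v⟫ ≤ -(‖v‖ ^ 2) := by
  have h0 := hs_pos_of hy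
  have h1 : ⟪Hs hs y v, v⟫ = -((hs y)⁻¹ * ‖v‖ ^ 2 + ((hs y) ^ 3)⁻¹ * ⟪y, v⟫ ^ 2) := by
    rw [Hs_hs_eq hy]
    simp only [neg_apply, add_apply,
      smul_apply, ContinuousLinearMap.id_apply,
      ContinuousLinearMap.smulRight_apply, innerSL_apply_apply, inner_neg_left, inner_add_left,
      inner_smul_left, real_inner_self_eq_norm_sq, smul_eq_mul]
    simp
    ring
  rw [h1]
  have h2 : 1 ≤ (hs y)⁻¹ := (one_le_inv₀ h0).2 (hs_le_one y)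
  have h3 : 0 ≤ ((hs y) ^ 3)⁻¹ * ⟪y, v⟫ ^ 2 := by positivity
  nlinarith [sq_nonneg ‖v‖]

theorem gr_congr {d : ℕ} {Φ Ψ : E d → ℝ} {y : E d} (h : Φ =ᶠ[nhds y] Ψ) :
    gr Φ =ᶠ[nhds y] gr Ψ := by
  filter_upwards [h.fderiv (𝕜 := ℝ)] with z hz
  unfold gr
  rw [hz]

theorem Hs_congr {d : ℕ} {Φ Ψ : E d → ℝ} {y : E d} (h : Φ =ᶠ[nhds y] Ψ) : Hs Φ y = Hs Ψ y :=
  (gr_congr h).fderiv_eq

theorem Hs_congr_ball {d : ℕ} {Φ Ψ : E d → ℝ} {ρ : ℝ} (h : ∀ y, ‖y‖ < ρ → Φ y = Ψ y) {y : E d}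
    (hy : ‖y‖ < ρ) : Hs Φ y = Hs Ψ y := by
  apply Hs_congr
  have : ∀ᶠ z in nhds y, ‖z‖ < ρ := (isOpen_lt continuous_norm continuous_const).mem_nhds hy
  filter_upwards [this] with z hz
  exact h z hz

theorem JJ_congr {d : ℕ} {r ρ α κ : ℝ} (h0 : r < ρ) {Φ Ψ h g : E d → ℝ}
    (h1 : ∀ y, ‖y‖ < ρ → Φ y = Ψ y) (h2 : ∀ y, ‖y‖ < ρ → h y = g y) :
    JJ d r α κ Φ h = JJ d r α κ Ψ g := by
  unfold JJ
  refine lintegral_congr fun σ => ?_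
  refine setLIntegral_congr_fun Metric.isClosed_closedBall.measurableSet fun y hy => ?_
  have hy' : ‖y‖ < ρ := by
    rw [mem_closedBall_zero_iff] at hy
    linarith
  simp only [Hs_congr_ball h1 hy', Hs_congr_ball h2 hy']

end Pool.Agent.GNP
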