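import Pool.Agent.GNP.P0
import Pool.Agent.GNP.HS

/-! Row HI: the Hessian of the phase `φ + ∑ b_j x_j²` in the chart. -/

namespace Pool.Agent.GNP

open MeasureTheory Set Metric Pool.Agent.MP_6cbfb8_an
open scoped ENNReal Real RealInnerProductSpace ContDiff

/-! ## the Hessian at a point of smoothness -/

theorem contDiffAt_gr {d : ℕ} {q : E d → ℝ} {y : E d} (hq : ContDiffAt ℝ ∞ q y) :
    ContDiffAt ℝ ∞ (gr q) y := by
  rw [gr_eq]
  exact (P0J d).toContinuousLinearMap.contDiff.contDiffAt.comp y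
    (hq.fderiv_right (m := ∞) (by simp))

theorem contDiffAt_Hs {d : ℕ} {q : E d → ℝ} {y : E d} (hq : ContDiffAt ℝ ∞ q y) :
    ContDiffAt ℝ ∞ (Hs q) y :=
  (contDiffAt_gr hq).fderiv_right (m := ∞) (by simp)

theorem eventually_diff {d : ℕ} {q : E d → ℝ} {y : E d} (hq : ContDiffAt ℝ ∞ q y) :
    ∀ᶠ z in nhds y, DifferentiableAt ℝ q z := by
  have h1 : ContDiffAt ℝ 1 q y := hq.of_le (by simp)
  filter_upwards [h1.eventually (by simp)] with z hz
  exact hz.differentiableAt (by norm_num)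

theorem gr_add_at {d : ℕ} {f g : E d → ℝ} {y : E d} (hf : ContDiffAt ℝ ∞ f y)
    (hg : ContDiffAt ℝ ∞ g y) : gr (fun z => f z + g z) =ᶠ[nhds y] fun z => gr f z + gr g z := by
  filter_upwards [eventually_diff hf, eventually_diff hg] with z h1 h2
  have h3 : fderiv ℝ (fun z => f z + g z) z = fderiv ℝ f z + fderiv ℝ g z :=
    (h1.hasFDerivAt.add h2.hasFDerivAt).fderiv
  simp only [gr_eq, h3, map_add]

theorem Hs_add_at {d : ℕ} {f g : E d → ℝ} {y : E d} (hf : ContDiffAt ℝ ∞ f y)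
    (hg : ContDiffAt ℝ ∞ g y) : Hs (fun z => f z + g z) y = Hs f y + Hs g y := by
  have h1 := ((contDiffAt_gr hf).differentiableAt (by simp)).hasFDerivAt
  have h2 := ((contDiffAt_gr hg).differentiableAt (by simp)).hasFDerivAt
  unfold Hs
  rw [(gr_add_at hf hg).fderiv_eq]
  exact (h1.add h2).fderiv

theorem Hs_const {d : ℕ} (c : ℝ) (y : E d) : Hs (fun _ => c) y = 0 := by
  have h1 : gr (fun _ : E d => c) = fun _ => 0 := by
    funext z
    simp [gr_eq]
  unfold Hs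
  rw [h1]
  simp

/-! ## diagonal quadratic forms -/

theorem dg_apply {d : ℕ} (t : Fin d → ℝ) (v : E d) (i : Fin d) : dg t v i = t i * v i := by
  simp [dg, Matrix.mulVec_diagonal]

theorem gr_quad {d : ℕ} (c : Fin d → ℝ) (y : E d) :
    gr (fun y : E d => ∑ j, c j * y j ^ 2) y = dg (fun j => 2 * c j) y := by
  have h1 : HasFDerivAt (fun y : E d => ∑ j, c j * y j ^ 2)
      (∑ j, c j • ((2 * y j) • (EuclideanSpace.proj j : E d →L[ℝ] ℝ))) y := by
    refine HasFDerivAt.fun_sum fun j _ => ?_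
    refine HasFDerivAt.const_mul ?_ (c j)
    have h2 : HasFDerivAt (fun y : E d => y j) (EuclideanSpace.proj j : E d →L[ℝ] ℝ) y :=
      (EuclideanSpace.proj j : E d →L[ℝ] ℝ).hasFDerivAt
    have h3 := h2.pow 2
    refine h3.congr_fderiv ?_
    ext v
    simp
  apply ext_inner_right ℝ
  intro v
  rw [inner_gr, h1.fderiv]
  simp only [PiLp.inner_apply, dg_apply]
  simp
  refine Finset.sum_congr rfl fun j _ => ?_
  ring

theorem Hs_quad {d : ℕ} (c : Fin d → ℝ) (y : E d) :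
    Hs (fun y : E d => ∑ j, c j * y j ^ 2) y = dg (fun j => 2 * c j) := by
  unfold Hs
  rw [funext (gr_quad c)]
  exact (dg fun j => 2 * c j).hasFDerivAt.fderiv

/-! ## the chart -/

theorem hi_join {d : ℕ} : ContDiff ℝ ∞ fun q : E d × ℝ => (join q.1 q.2 : E (d + 1)) := by
  rw [contDiff_euclidean]
  intro i
  refine Fin.lastCases ?_ (fun j => ?_) i
  · simp only [join, Fin.snoc_last]
    exact contDiff_snd
  · simp only [join, Fin.snoc_castSucc]
    exact (contDiff_euclidean.mp (contDiff_fst (𝕜 := ℝ) (n := ∞) (E := E d) (F := ℝ))) j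

theorem hi_pos {d : ℕ} {y : E d} (hy : ‖y‖ < 1) : 0 < 1 - ‖y‖ ^ 2 := by
  nlinarith [norm_nonneg y]

theorem hi_sq {d : ℕ} {y : E d} (hy : ‖y‖ < 1) : hs y ^ 2 = 1 - ‖y‖ ^ 2 := by
  rw [hs, Real.sq_sqrt (hi_pos hy).le]

theorem hi_hs_at {d : ℕ} {y : E d} (hy : ‖y‖ < 1) : ContDiffAt ℝ ∞ (hs : E d → ℝ) y := by
  unfold hs
  refine ContDiffAt.sqrt ?_ (hi_pos hy).ne'
  exact (contDiff_const.sub (contDiff_norm_sq ℝ)).contDiffAt

theorem hi_graph_at {d : ℕ} {y : E d} (hy : ‖y‖ < 1) :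
    ContDiffAt ℝ ∞ (fun y : E d => (join y (hs y) : E (d + 1))) y :=
  hi_join.contDiffAt.comp y (contDiffAt_id.prodMk (hi_hs_at hy))

theorem hi_norm {d : ℕ} {y : E d} (hy : ‖y‖ < 1) : ‖(join y (hs y) : E (d + 1))‖ = 1 := by
  have h1 : ‖(join y (hs y) : E (d + 1))‖ ^ 2 = 1 := by
    rw [EuclideanSpace.real_norm_sq_eq, Fin.sum_univ_castSucc]
    simp only [join, Fin.snoc_last, Fin.snoc_castSucc]
    rw [hi_sq hy, EuclideanSpace.real_norm_sq_eq]
    ring
  exact (pow_eq_one_iff_of_nonneg (norm_nonneg _) two_ne_zero).mp h1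

/-- A function smooth at the points of the sphere is smooth in the chart. -/
theorem hi_phi_at {d : ℕ} {φ : E (d + 1) → ℝ} (hφ : ∀ x, ‖x‖ = 1 → ContDiffAt ℝ ∞ φ x) {y : E d}
    (hy : ‖y‖ < 1) : ContDiffAt ℝ ∞ (fun y : E d => φ (join y (hs y))) y :=
  (hφ _ (hi_norm hy)).comp y (hi_graph_at hy)

theorem pb_graph {d : ℕ} (φ : E (d + 1) → ℝ) (b : Fin (d + 1) → ℝ) {y : E d} (hy : ‖y‖ < 1) :
    pb φ b (join y (hs y)) = φ (join y (hs y)) +
      (∑ j, (b j.castSucc - b (Fin.last d)) * y j ^ 2 + b (Fin.last d)) := by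
  rw [pb, Fin.sum_univ_castSucc]
  simp only [join, Fin.snoc_last, Fin.snoc_castSucc]
  rw [hi_sq hy, EuclideanSpace.real_norm_sq_eq]
  simp only [sub_mul, Finset.sum_sub_distrib, ← Finset.mul_sum]
  ring

theorem hi_quad_smooth {d : ℕ} (c : Fin d → ℝ) : ContDiff ℝ ∞ fun y : E d => ∑ j, c j * y j ^ 2 := by
  refine ContDiff.sum fun j _ => contDiff_const.mul (ContDiff.pow ?_ 2)
  exact (EuclideanSpace.proj j : E d →L[ℝ] ℝ).contDiff

/-- The Hessian of the phase `φ + ∑ b_j x_j²` in the chart. -/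
theorem Hs_pb {d : ℕ} (φ : E (d + 1) → ℝ) (hφ : ∀ x, ‖x‖ = 1 → ContDiffAt ℝ ∞ φ x)
    (b : Fin (d + 1) → ℝ) {y : E d} (hy : ‖y‖ < 1) :
    Hs (fun y => pb φ b (join y (hs y))) y = Hs (fun y => φ (join y (hs y))) y +
      dg (fun j => 2 * (b j.castSucc - b (Fin.last d))) := by
  have h1 : (fun y : E d => pb φ b (join y (hs y))) =ᶠ[nhds y] fun y => φ (join y (hs y)) +
      (∑ j, (b j.castSucc - b (Fin.last d)) * y j ^ 2 + b (Fin.last d)) := by
    filter_upwards [(isOpen_lt continuous_norm continuous_const).mem_nhds hy] with z hz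
    exact pb_graph φ b hz
  have h2 : ContDiff ℝ ∞ fun y : E d => ∑ j, (b j.castSucc - b (Fin.last d)) * y j ^ 2 :=
    hi_quad_smooth _
  rw [Hs_congr h1, Hs_add_at (hi_phi_at hφ hy)
    (h2.add contDiff_const).contDiffAt, Hs_add_at h2.contDiffAt contDiffAt_const, Hs_quad,
    Hs_const, add_zero]

theorem dg_sub_const {d : ℕ} (t : Fin d → ℝ) (c : ℝ) :
    dg (fun j => 2 * (t j - c)) = dg (fun j => 2 * t j) - (2 * c) • ContinuousLinearMap.id ℝ (E d) := by
  ext v i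
  simp only [dg_apply, sub_apply, smul_apply, ContinuousLinearMap.id_apply, PiLp.sub_apply,
    PiLp.smul_apply, smul_eq_mul]
  ring

/-- The same, with the part of the last coordinate apart. -/
theorem Hs_pb' {d : ℕ} (φ : E (d + 1) → ℝ) (hφ : ∀ x, ‖x‖ = 1 → ContDiffAt ℝ ∞ φ x)
    (b : Fin (d + 1) → ℝ) {y : E d} (hy : ‖y‖ < 1) :
    Hs (fun y => pb φ b (join y (hs y))) y = Hs (fun y => φ (join y (hs y))) y +
      dg (fun j => 2 * b j.castSucc) - (2 * b (Fin.last d)) • ContinuousLinearMap.id ℝ (E d) := by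
  rw [Hs_pb φ hφ b hy, dg_sub_const (fun j => b j.castSucc) (b (Fin.last d))]
  abel

theorem continuousOn_Hs {d : ℕ} {q : E d → ℝ} (hq : ∀ y, ‖y‖ < 1 → ContDiffAt ℝ ∞ q y) :
    ContinuousOn (Hs q) (ball 0 1) := fun y hy =>
  (contDiffAt_Hs (hq y (by simpa using hy))).continuousAt.continuousWithinAt

theorem continuousOn_Hs_hs {d : ℕ} : ContinuousOn (Hs (hs : E d → ℝ)) (ball 0 1) :=
  continuousOn_Hs fun _ hy => hi_hs_at hy

theorem continuousOn_Hs_phi {d : ℕ} {φ : E (d + 1) → ℝ}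
    (hφ : ∀ x, ‖x‖ = 1 → ContDiffAt ℝ ∞ φ x) :
    ContinuousOn (Hs fun y : E d => φ (join y (hs y))) (ball 0 1) :=
  continuousOn_Hs fun _ hy => hi_phi_at hφ hy

theorem continuous_dg {d : ℕ} : Continuous (dg : (Fin d → ℝ) → E d →L[ℝ] E d) := by
  let L : (Fin d → ℝ) →ₗ[ℝ] (E d →L[ℝ] E d) :=
    { toFun := dg
      map_add' := fun s t => by
        ext v i
        simp only [dg_apply, add_apply, PiLp.add_apply, Pi.add_apply]
        ring
      map_smul' := fun c t => by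
        ext v i
        simp only [dg_apply, smul_apply, PiLp.smul_apply, Pi.smul_apply, smul_eq_mul,
          RingHom.id_apply]
        ring }
  exact L.continuous_of_finiteDimensional

/-- `D²Φ_b - σ D²h` is continuous in `((b, σ), y)`, `‖y‖ < 1`. -/
theorem continuousOn_pencil {d : ℕ} {φ : E (d + 1) → ℝ}
    (hφ : ∀ x, ‖x‖ = 1 → ContDiffAt ℝ ∞ φ x) :
    ContinuousOn (fun q : ((Fin (d + 1) → ℝ) × ℝ) × E d =>
      Hs (fun y => pb φ q.1.1 (join y (hs y))) q.2 - q.1.2 • Hs hs q.2)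
      (univ ×ˢ ball (0 : E d) 1) := by
  have h1 : ContinuousOn (fun q : ((Fin (d + 1) → ℝ) × ℝ) × E d =>
      Hs (fun y => φ (join y (hs y))) q.2 + dg (fun j => 2 * (q.1.1 j.castSucc - q.1.1 (Fin.last d)))
        - q.1.2 • Hs hs q.2) (univ ×ˢ ball (0 : E d) 1) := by
    have h2 : MapsTo (fun q : ((Fin (d + 1) → ℝ) × ℝ) × E d => q.2) (univ ×ˢ ball (0 : E d) 1)
        (ball 0 1) := fun q hq => hq.2
    refine ((continuousOn_Hs_phi hφ).comp continuousOn_snd h2).add ?_ |>.sub ?_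
    · exact (continuous_dg.comp (by fun_prop)).continuousOn
    · exact (continuous_snd.comp continuous_fst).continuousOn.smul
        (continuousOn_Hs_hs.comp continuousOn_snd h2)
  refine h1.congr fun q hq => ?_
  simp only [Hs_pb φ hφ q.1.1 (show ‖q.2‖ < 1 by simpa using hq.2)]

end Pool.Agent.GNP
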