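import Mathlib

/-!
Row HL (AP4, helper15's mail of 21:55Z, part (I)): the Hoelder line.
-/

namespace Pool.Agent.GNP

open MeasureTheory Set
open scoped ENNReal Real

/-- One fixed parameter: Hoelder with the weight `W`. -/
theorem hl_one {Z : Type*} [MeasurableSpace Z] (ν : Measure Z) (w W : Z → ℝ≥0∞)
    (hw : Measurable w) (hW : Measurable W) (hW0 : ∀ᵐ y ∂ν, W y ≠ 0 ∧ W y ≠ ⊤) (α : ℝ)
    (hα : 0 < α) :
    (∫⁻ y, w y ∂ν) ^ (1 + α) ≤ (∫⁻ y, w y * (W y)⁻¹ ∂ν) ^ α * ∫⁻ y, w y * W y ^ α ∂ν := by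
  have h1 : 0 < 1 + α := by linarith
  have hconj : ((1 + α) / α).HolderConjugate (1 + α) := by
    rw [Real.holderConjugate_iff]
    constructor
    · rw [lt_div_iff₀ hα]; linarith
    · field_simp
      ring
  have hf : Measurable fun y => (w y * (W y)⁻¹) ^ (α / (1 + α)) :=
    (hw.mul hW.inv).pow_const _
  have hg : Measurable fun y => (w y * W y ^ α) ^ (1 / (1 + α)) :=
    (hw.mul (hW.pow_const _)).pow_const _
  have hH := ENNReal.lintegral_mul_le_Lp_mul_Lq ν hconj hf.aemeasurable hg.aemeasurable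
  have e0 : ∫⁻ y, w y ∂ν = ∫⁻ y, ((fun y => (w y * (W y)⁻¹) ^ (α / (1 + α))) *
      fun y => (w y * W y ^ α) ^ (1 / (1 + α))) y ∂ν := by
    refine lintegral_congr_ae ?_
    filter_upwards [hW0] with y hy
    obtain ⟨hy0, hyt⟩ := hy
    simp only [Pi.mul_apply]
    rw [ENNReal.mul_rpow_of_nonneg _ _ (by positivity), ENNReal.mul_rpow_of_nonneg _ _ (by positivity),
      ENNReal.inv_rpow, ← ENNReal.rpow_mul]
    have e1 : w y ^ (α / (1 + α)) * (W y ^ (α / (1 + α)))⁻¹ *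
        (w y ^ (1 / (1 + α)) * W y ^ (α * (1 / (1 + α)))) =
        (w y ^ (α / (1 + α)) * w y ^ (1 / (1 + α))) *
        ((W y ^ (α / (1 + α)))⁻¹ * W y ^ (α / (1 + α))) := by
      rw [show α * (1 / (1 + α)) = α / (1 + α) by ring]
      ring
    rw [e1, ← ENNReal.rpow_add_of_nonneg _ _ (by positivity) (by positivity),
      ENNReal.inv_mul_cancel, mul_one]
    · rw [show α / (1 + α) + 1 / (1 + α) = 1 by field_simp; ring, ENNReal.rpow_one]
    · intro h
      rcases ENNReal.rpow_eq_zero_iff.1 h with h | h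
      · exact hy0 h.1
      · exact hyt h.1
    · intro h
      rcases ENNReal.rpow_eq_top_iff.1 h with h | h
      · exact hy0 h.1
      · exact hyt h.1
  have e2 : (∫⁻ y, ((w y * (W y)⁻¹) ^ (α / (1 + α))) ^ ((1 + α) / α) ∂ν) =
      ∫⁻ y, w y * (W y)⁻¹ ∂ν := by
    refine lintegral_congr fun y => ?_
    rw [← ENNReal.rpow_mul, show α / (1 + α) * ((1 + α) / α) = 1 by field_simp, ENNReal.rpow_one]
  have e3 : (∫⁻ y, ((w y * W y ^ α) ^ (1 / (1 + α))) ^ (1 + α) ∂ν) =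
      ∫⁻ y, w y * W y ^ α ∂ν := by
    refine lintegral_congr fun y => ?_
    rw [← ENNReal.rpow_mul, show 1 / (1 + α) * (1 + α) = 1 by field_simp, ENNReal.rpow_one]
  rw [e2, e3] at hH
  rw [e0]
  calc _ ≤ ((∫⁻ y, w y * (W y)⁻¹ ∂ν) ^ (1 / ((1 + α) / α)) *
        (∫⁻ y, w y * W y ^ α ∂ν) ^ (1 / (1 + α))) ^ (1 + α) := ENNReal.rpow_le_rpow hH h1.le
    _ = _ := by
        rw [ENNReal.mul_rpow_of_nonneg _ _ h1.le, ← ENNReal.rpow_mul, ← ENNReal.rpow_mul,
          show 1 / ((1 + α) / α) * (1 + α) = α by field_simp,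
          show 1 / (1 + α) * (1 + α) = 1 by field_simp, ENNReal.rpow_one]

/-- **The Hoelder line**: a kernel `w x y`, a weight `W`. -/
theorem hl_kernel {X Z : Type*} [MeasurableSpace X] [MeasurableSpace Z] (μ : Measure X)
    (ν : Measure Z) [SFinite μ] [SFinite ν] (w : X → Z → ℝ≥0∞)
    (hw : Measurable (Function.uncurry w)) (W : Z → ℝ≥0∞) (hW : Measurable W)
    (hW0 : ∀ᵐ y ∂ν, W y ≠ 0 ∧ W y ≠ ⊤) (α : ℝ) (hα : 0 < α) (K R : ℝ≥0∞)
    (hK : ∀ x, ∫⁻ y, w x y * (W y)⁻¹ ∂ν ≤ K) (hR : ∀ᵐ y ∂ν, ∫⁻ x, w x y ∂μ ≤ R) :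
    ∫⁻ x, (∫⁻ y, w x y ∂ν) ^ (1 + α) ∂μ ≤ K ^ α * R * ∫⁻ y, W y ^ α ∂ν := by
  have hx : ∀ x, Measurable (w x) := fun x => hw.comp measurable_prodMk_left
  have hy : ∀ y, Measurable fun x => w x y := fun y => hw.comp measurable_prodMk_right
  have hm : Measurable (Function.uncurry fun x y => w x y * W y ^ α) :=
    hw.mul ((hW.comp measurable_snd).pow_const _)
  calc ∫⁻ x, (∫⁻ y, w x y ∂ν) ^ (1 + α) ∂μ
      ≤ ∫⁻ x, K ^ α * ∫⁻ y, w x y * W y ^ α ∂ν ∂μ := by
        refine lintegral_mono fun x => (hl_one ν (w x) W (hx x) hW hW0 α hα).trans ?_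
        gcongr
        exact hK x
    _ = K ^ α * ∫⁻ x, ∫⁻ y, w x y * W y ^ α ∂ν ∂μ :=
        lintegral_const_mul _ hm.lintegral_prod_right'
    _ = K ^ α * ∫⁻ y, ∫⁻ x, w x y * W y ^ α ∂μ ∂ν := by
        rw [lintegral_lintegral_swap hm.aemeasurable]
    _ = K ^ α * ∫⁻ y, (∫⁻ x, w x y ∂μ) * W y ^ α ∂ν := by
        congr 1
        refine lintegral_congr fun y => ?_
        rw [lintegral_mul_const _ (hy y)]
    _ ≤ K ^ α * ∫⁻ y, R * W y ^ α ∂ν := by
        gcongr 1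
        refine lintegral_mono_ae ?_
        filter_upwards [hR] with y h
        gcongr
    _ = _ := by
        rw [lintegral_const_mul _ (hW.pow_const _), mul_assoc]

/-- The Hoelder line with the indicator of `|G y - x| ≤ R1`. -/
theorem hl_ball {Z F : Type*} [MeasurableSpace Z] [NormedAddCommGroup F] [MeasurableSpace F]
    [BorelSpace F] [SecondCountableTopology F] (μ : Measure F) [μ.IsAddHaarMeasure] [SFinite μ]
    (ν : Measure Z) [SFinite ν] (G : Z → F) (hG : Measurable G) (W : Z → ℝ≥0∞)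
    (hW : Measurable W) (hW0 : ∀ᵐ y ∂ν, W y ≠ 0 ∧ W y ≠ ⊤) (α : ℝ) (hα : 0 < α) (R1 : ℝ)
    (K : ℝ≥0∞) (hK : ∀ x, ∫⁻ y in {y | ‖G y - x‖ ≤ R1}, (W y)⁻¹ ∂ν ≤ K) :
    ∫⁻ x, (ν {y | ‖G y - x‖ ≤ R1}) ^ (1 + α) ∂μ ≤
      K ^ α * μ (Metric.closedBall 0 R1) * ∫⁻ y, W y ^ α ∂ν := by
  set w : F → Z → ℝ≥0∞ := fun x y => ({y | ‖G y - x‖ ≤ R1} : Set Z).indicator 1 y with hwd
  have hset : MeasurableSet {q : F × Z | ‖G q.2 - q.1‖ ≤ R1} :=
    measurableSet_le ((hG.comp measurable_snd).sub measurable_fst).norm measurable_const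
  have hw : Measurable (Function.uncurry w) := by
    have e : Function.uncurry w = ({q : F × Z | ‖G q.2 - q.1‖ ≤ R1} : Set (F × Z)).indicator 1 := by
      funext q
      simp only [hwd, Function.uncurry_def, indicator_apply, mem_ofPred_eq, Pi.one_apply]
    rw [e]
    exact measurable_one.indicator hset
  have hmx : ∀ x, MeasurableSet {y | ‖G y - x‖ ≤ R1} := fun x =>
    measurableSet_le (hG.sub_const x).norm measurable_const
  have h := hl_kernel μ ν w hw W hW hW0 α hα K (μ (Metric.closedBall 0 R1)) (fun x => ?_) ?_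
  · refine le_trans (le_of_eq ?_) h
    refine lintegral_congr fun x => ?_
    simp only [hwd]
    rw [lintegral_indicator_one (hmx x)]
  · refine le_trans (le_of_eq ?_) (hK x)
    rw [← lintegral_indicator (hmx x)]
    refine lintegral_congr fun y => ?_
    simp only [hwd]
    by_cases hy : y ∈ {y | ‖G y - x‖ ≤ R1}
    · rw [indicator_of_mem hy, indicator_of_mem hy, Pi.one_apply, one_mul]
    · rw [indicator_of_notMem hy, indicator_of_notMem hy, zero_mul]
  · refine Filter.Eventually.of_forall fun y => le_of_eq ?_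
    have e : ∀ x, w x y = (Metric.closedBall (G y) R1).indicator 1 x := by
      intro x
      simp only [hwd]
      by_cases h : ‖G y - x‖ ≤ R1
      · rw [indicator_of_mem (show y ∈ {y | ‖G y - x‖ ≤ R1} from h), indicator_of_mem]
        · rfl
        · rw [Metric.mem_closedBall, dist_eq_norm, norm_sub_rev]
          exact h
      · rw [indicator_of_notMem (show y ∉ {y | ‖G y - x‖ ≤ R1} from h), indicator_of_notMem]
        rw [Metric.mem_closedBall, dist_eq_norm, norm_sub_rev]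
        exact h
    simp_rw [e]
    rw [lintegral_indicator_one Metric.isClosed_closedBall.measurableSet,
      Measure.addHaar_closedBall_center]

end Pool.Agent.GNP
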