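-- Pool/Agent/GNP/N5SINT.lean
import Mathlib

/-!
The integration in `s`, when `m` directions are left.
-/

namespace Pool.Agent.GNP

open MeasureTheory Set
open scoped ENNReal Real

theorem si_pt {m d : ℕ} (hm : 1 ≤ m) {μ : Fin d → ℝ} {δ s F : ℝ} (hδ : 0 < δ)
    (hF0 : 0 ≤ F) (hF1 : F ≤ 1) {I : Finset (Fin d)} (hI : I.card = m)
    (h : F * ∏ i ∈ I, |s - μ i| ≤ δ ^ m) :
    ∃ i ∈ I, F ≤ (2 / (1 + δ⁻¹ * |s - μ i|)) ^ m := by
  have hne : I.Nonempty := Finset.card_pos.1 (by omega)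
  obtain ⟨j, hj, hmin⟩ := I.exists_min_image (fun i => |s - μ i|) hne
  refine ⟨j, hj, ?_⟩
  have h1 : |s - μ j| ^ m ≤ ∏ i ∈ I, |s - μ i| := by
    calc |s - μ j| ^ m = ∏ i ∈ I, |s - μ j| := by rw [Finset.prod_const, hI]
      _ ≤ _ := Finset.prod_le_prod (fun i _ => abs_nonneg _) fun i hi => hmin i hi
  set x : ℝ := δ⁻¹ * |s - μ j| with hx
  have hx0 : 0 ≤ x := by positivity
  have h2 : F * x ^ m ≤ 1 := by
    rw [hx, mul_pow, inv_pow]
    have h3 : F * |s - μ j| ^ m ≤ δ ^ m := (mul_le_mul_of_nonneg_left h1 hF0).trans h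
    have hδm : 0 < δ ^ m := by positivity
    calc F * ((δ ^ m)⁻¹ * |s - μ j| ^ m) = (δ ^ m)⁻¹ * (F * |s - μ j| ^ m) := by ring
      _ ≤ (δ ^ m)⁻¹ * δ ^ m := by gcongr
      _ = 1 := inv_mul_cancel₀ hδm.ne'
  rw [div_pow, le_div_iff₀ (by positivity)]
  rcases le_total x 1 with h4 | h4
  · calc F * (1 + x) ^ m ≤ 1 * 2 ^ m := by
          apply mul_le_mul hF1 _ (by positivity) zero_le_one
          gcongr
          linarith
      _ = 2 ^ m := one_mul _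
  · calc F * (1 + x) ^ m ≤ F * (2 * x) ^ m := by
          gcongr
          linarith
      _ = 2 ^ m * (F * x ^ m) := by rw [mul_pow]; ring
      _ ≤ 2 ^ m * 1 := by gcongr
      _ = 2 ^ m := mul_one _

theorem si_pt_pow {m d : ℕ} (hm : 1 ≤ m) {al : ℝ} (hal : 0 < al) {μ : Fin d → ℝ} {δ s F : ℝ}
    (hδ : 0 < δ) (hF0 : 0 ≤ F) (hF1 : F ≤ 1) {I : Finset (Fin d)} (hI : I.card = m)
    (h : F * ∏ i ∈ I, |s - μ i| ≤ δ ^ m) :
    ∃ i ∈ I, F ^ al ≤ 2 ^ (m * al) * (1 + δ⁻¹ * |s - μ i|) ^ (-(m * al)) := by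
  obtain ⟨i, hi, h1⟩ := si_pt hm hδ hF0 hF1 hI h
  refine ⟨i, hi, ?_⟩
  have h2 : 0 < 1 + δ⁻¹ * |s - μ i| := by positivity
  calc F ^ al ≤ ((2 / (1 + δ⁻¹ * |s - μ i|)) ^ m) ^ al := Real.rpow_le_rpow hF0 h1 hal.le
    _ = (2 / (1 + δ⁻¹ * |s - μ i|)) ^ (m * al) := by
        rw [← Real.rpow_natCast, ← Real.rpow_mul (by positivity)]
    _ = _ := by
        rw [Real.div_rpow (by norm_num) h2.le, Real.rpow_neg h2.le, div_eq_mul_inv]

theorem lint_scale' (f : ℝ → ℝ≥0∞) (hf : Measurable f) {r : ℝ} (hr : 0 < r) :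
    ∫⁻ σ : ℝ, f (r * σ) = ENNReal.ofReal r⁻¹ * ∫⁻ σ : ℝ, f σ := by
  rw [← lintegral_map (μ := volume) hf (measurable_const_mul r), Real.map_volume_mul_left hr.ne',
    lintegral_smul_measure, abs_of_pos (inv_pos.2 hr), smul_eq_mul]

theorem si_int (β : ℝ) (hβ : 1 < β) : ∃ K : ℝ, 0 < K ∧ ∀ (δ s : ℝ), 0 < δ →
    ∫⁻ σ : ℝ, ENNReal.ofReal ((1 + δ⁻¹ * |σ - s|) ^ (-β)) ≤ ENNReal.ofReal (K * δ) := by
  have h := finite_integral_one_add_norm (E := ℝ) (μ := volume) (r := β) (by simpa using hβ)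
  set J0 := ∫⁻ x : ℝ, ENNReal.ofReal ((1 + ‖x‖) ^ (-β)) with hJ0
  refine ⟨J0.toReal + 1, by positivity, fun δ s hδ => ?_⟩
  have hr : 0 < δ⁻¹ := inv_pos.2 hδ
  have h1 : ∫⁻ σ : ℝ, ENNReal.ofReal ((1 + δ⁻¹ * |σ - s|) ^ (-β)) =
      ∫⁻ σ : ℝ, ENNReal.ofReal ((1 + δ⁻¹ * |σ|) ^ (-β)) :=
    lintegral_sub_right_eq_self (fun σ : ℝ => ENNReal.ofReal ((1 + δ⁻¹ * |σ|) ^ (-β))) s
  have h2 : ∫⁻ σ : ℝ, ENNReal.ofReal ((1 + δ⁻¹ * |σ|) ^ (-β)) = ENNReal.ofReal δ * J0 := by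
    have h3 := lint_scale' (fun x : ℝ => ENNReal.ofReal ((1 + ‖x‖) ^ (-β))) (by fun_prop) hr
    rw [inv_inv] at h3
    rw [hJ0, ← h3]
    refine lintegral_congr fun σ => ?_
    rw [Real.norm_eq_abs, abs_mul, abs_of_pos hr]
  rw [h1, h2, mul_comm (J0.toReal + 1), ENNReal.ofReal_mul (by positivity)]
  gcongr
  calc J0 = ENNReal.ofReal J0.toReal := (ENNReal.ofReal_toReal h.ne).symm
    _ ≤ _ := ENNReal.ofReal_le_ofReal (by linarith)

/-- The integral over `s` if `m` roots count and `m α > 1`. -/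
theorem SI1 (m : ℕ) (hm : 1 ≤ m) (al : ℝ) (hal : 1 < m * al) : ∃ K : ℝ, 0 < K ∧
    ∀ (d : ℕ) (μ : Fin d → ℝ) (D : ℝ) (F : ℝ → ℝ) (Sg : Set ℝ), 0 < D →
      (∀ s ∈ Sg, 0 ≤ F s ∧ F s ≤ 1 ∧ ∃ I : Finset (Fin d), I.card = m ∧
        F s * ∏ i ∈ I, |s - μ i| ≤ D) →
      ∫⁻ s in Sg, ENNReal.ofReal (F s ^ al) ≤ ENNReal.ofReal (K * d * D ^ (1 / (m : ℝ))) := by
  have hm0 : (0 : ℝ) < m := by exact_mod_cast hm
  have hal0 : 0 < al := by
    by_contra h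
    push Not at h
    nlinarith
  obtain ⟨K, hK, hint⟩ := si_int (m * al) hal
  refine ⟨2 ^ ((m : ℝ) * al) * K, by positivity, fun d μ D F Sg hD h => ?_⟩
  set δ : ℝ := D ^ (1 / (m : ℝ)) with hδ
  have hδ0 : 0 < δ := Real.rpow_pos_of_pos hD _
  have hδm : δ ^ m = D := by
    rw [hδ, ← Real.rpow_natCast, ← Real.rpow_mul hD.le, one_div, inv_mul_cancel₀ hm0.ne',
      Real.rpow_one]
  have hle : ∀ s ∈ Sg, ENNReal.ofReal (F s ^ al) ≤ ∑ i : Fin d,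
      ENNReal.ofReal (2 ^ ((m : ℝ) * al)) *
        ENNReal.ofReal ((1 + δ⁻¹ * |s - μ i|) ^ (-((m : ℝ) * al))) := by
    intro s hs
    obtain ⟨h0, h1, I, hI, h2⟩ := h s hs
    obtain ⟨i, -, h3⟩ := si_pt_pow hm hal0 hδ0 h0 h1 hI (h2.trans_eq hδm.symm)
    refine (ENNReal.ofReal_le_ofReal h3).trans ?_
    rw [ENNReal.ofReal_mul (by positivity)]
    exact Finset.single_le_sum (f := fun i => ENNReal.ofReal (2 ^ ((m : ℝ) * al)) *
      ENNReal.ofReal ((1 + δ⁻¹ * |s - μ i|) ^ (-((m : ℝ) * al)))) (fun _ _ => zero_le)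
      (Finset.mem_univ i)
  calc ∫⁻ s in Sg, ENNReal.ofReal (F s ^ al)
      ≤ ∫⁻ s in Sg, ∑ i : Fin d, ENNReal.ofReal (2 ^ ((m : ℝ) * al)) *
        ENNReal.ofReal ((1 + δ⁻¹ * |s - μ i|) ^ (-((m : ℝ) * al))) :=
        setLIntegral_mono (by fun_prop) hle
    _ ≤ ∫⁻ s, ∑ i : Fin d, ENNReal.ofReal (2 ^ ((m : ℝ) * al)) *
        ENNReal.ofReal ((1 + δ⁻¹ * |s - μ i|) ^ (-((m : ℝ) * al))) := setLIntegral_le_lintegral _ _
    _ = ∑ i : Fin d, ENNReal.ofReal (2 ^ ((m : ℝ) * al)) *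
        ∫⁻ s, ENNReal.ofReal ((1 + δ⁻¹ * |s - μ i|) ^ (-((m : ℝ) * al))) := by
        rw [lintegral_finsetSum _ fun i _ => by fun_prop]
        refine Finset.sum_congr rfl fun i _ => ?_
        rw [lintegral_const_mul _ (by fun_prop)]
    _ ≤ ∑ i : Fin d, ENNReal.ofReal (2 ^ ((m : ℝ) * al)) * ENNReal.ofReal (K * δ) := by
        gcongr with i
        exact hint δ (μ i) hδ0
    _ = ENNReal.ofReal (2 ^ ((m : ℝ) * al) * K * d * δ) := by
        rw [Finset.sum_const, Finset.card_univ, Fintype.card_fin, nsmul_eq_mul,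
          ← ENNReal.ofReal_mul (by positivity), ← ENNReal.ofReal_natCast,
          ← ENNReal.ofReal_mul (by positivity)]
        congr 1
        ring

theorem si_int2 (β : ℝ) (hβ0 : 0 ≤ β) (hβ : β < 1) (δ T s : ℝ) (hδ : 0 < δ) (hT : 0 ≤ T) :
    ∫⁻ σ in {σ : ℝ | |σ - s| ≤ T}, ENNReal.ofReal ((1 + δ⁻¹ * |σ - s|) ^ (-β)) ≤
      ENNReal.ofReal (2 / (1 - β) * (δ ^ β * T ^ (1 - β))) := by
  have hset : MeasurableSet {σ : ℝ | |σ - s| ≤ T} := by
    apply measurableSet_le <;> fun_prop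
  have h1 : ∫⁻ σ in {σ : ℝ | |σ - s| ≤ T}, ENNReal.ofReal ((1 + δ⁻¹ * |σ - s|) ^ (-β)) =
      ∫⁻ σ in {σ : ℝ | |σ| ≤ T}, ENNReal.ofReal ((1 + δ⁻¹ * |σ|) ^ (-β)) := by
    rw [← lintegral_indicator hset, ← lintegral_indicator (by apply measurableSet_le <;> fun_prop)]
    exact lintegral_sub_right_eq_self ({σ : ℝ | |σ| ≤ T}.indicator
      (fun σ : ℝ => ENNReal.ofReal ((1 + δ⁻¹ * |σ|) ^ (-β)))) s
  have h2 : {σ : ℝ | |σ| ≤ T} = Icc (-T) T := by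
    ext σ; simp [abs_le]
  have h3 : ∫⁻ σ in Ioc 0 T, ENNReal.ofReal (δ ^ β * σ ^ (-β)) =
      ENNReal.ofReal (1 / (1 - β) * (δ ^ β * T ^ (1 - β))) := by
    have hi : IntegrableOn (fun σ : ℝ => δ ^ β * σ ^ (-β)) (Ioc 0 T) := by
      have := (intervalIntegral.intervalIntegrable_rpow' (a := 0) (b := T)
        (r := -β) (by linarith)).const_mul (δ ^ β)
      rwa [intervalIntegrable_iff_integrableOn_Ioc_of_le hT] at this
    rw [← ofReal_integral_eq_lintegral_ofReal hi]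
    · congr 1
      rw [← intervalIntegral.integral_of_le hT, intervalIntegral.integral_const_mul,
        integral_rpow (Or.inl (by linarith)), Real.zero_rpow (by linarith)]
      rw [show -β + 1 = 1 - β by ring]
      field_simp
      ring
    · refine (ae_restrict_iff' measurableSet_Ioc).2 (ae_of_all _ fun σ hσ => ?_)
      have : 0 < σ := hσ.1
      positivity
  have h4 : ∫⁻ σ in Ioc 0 T, ENNReal.ofReal ((1 + δ⁻¹ * |σ|) ^ (-β)) ≤
      ENNReal.ofReal (1 / (1 - β) * (δ ^ β * T ^ (1 - β))) := by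
    rw [← h3]
    refine setLIntegral_mono (by fun_prop) fun σ hσ => ENNReal.ofReal_le_ofReal ?_
    have hσ0 : 0 < σ := hσ.1
    rw [abs_of_pos hσ0]
    calc (1 + δ⁻¹ * σ) ^ (-β) ≤ (δ⁻¹ * σ) ^ (-β) := by
          apply Real.rpow_le_rpow_of_nonpos (by positivity) (by linarith) (by linarith)
      _ = δ ^ β * σ ^ (-β) := by
          rw [Real.mul_rpow (by positivity) hσ0.le, Real.rpow_neg (by positivity),
            Real.inv_rpow hδ.le, inv_inv]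
  have h5 : ∫⁻ σ in Ico (-T) 0, ENNReal.ofReal ((1 + δ⁻¹ * |σ|) ^ (-β)) =
      ∫⁻ σ in Ioc 0 T, ENNReal.ofReal ((1 + δ⁻¹ * |σ|) ^ (-β)) := by
    rw [← lintegral_indicator measurableSet_Ico, ← lintegral_indicator measurableSet_Ioc,
      ← lintegral_neg_eq_self]
    refine lintegral_congr fun σ => ?_
    simp only [indicator, mem_Ico, mem_Ioc, abs_neg]
    congr 1
    apply propext
    constructor
    · rintro ⟨h, h'⟩; constructor <;> linarith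
    · rintro ⟨h, h'⟩; constructor <;> linarith
  rw [h1, h2]
  have h6 : Icc (-T) T ⊆ (Ico (-T) 0 ∪ Ioc 0 T) ∪ {0} := by
    intro σ hσ
    rcases lt_trichotomy σ 0 with h | h | h
    · exact Or.inl (Or.inl ⟨hσ.1, h⟩)
    · exact Or.inr h
    · exact Or.inl (Or.inr ⟨h, hσ.2⟩)
  calc ∫⁻ σ in Icc (-T) T, ENNReal.ofReal ((1 + δ⁻¹ * |σ|) ^ (-β))
      ≤ ∫⁻ σ in (Ico (-T) 0 ∪ Ioc 0 T) ∪ {0}, ENNReal.ofReal ((1 + δ⁻¹ * |σ|) ^ (-β)) :=
        lintegral_mono_set h6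
    _ ≤ (∫⁻ σ in Ico (-T) 0 ∪ Ioc 0 T, ENNReal.ofReal ((1 + δ⁻¹ * |σ|) ^ (-β))) +
        ∫⁻ σ in {0}, ENNReal.ofReal ((1 + δ⁻¹ * |σ|) ^ (-β)) := lintegral_union_le _ _ _
    _ = ∫⁻ σ in Ico (-T) 0 ∪ Ioc 0 T, ENNReal.ofReal ((1 + δ⁻¹ * |σ|) ^ (-β)) := by
        rw [Measure.restrict_eq_zero.2 (by simp : volume ({0} : Set ℝ) = 0)]
        simp
    _ ≤ (∫⁻ σ in Ico (-T) 0, ENNReal.ofReal ((1 + δ⁻¹ * |σ|) ^ (-β))) +
        ∫⁻ σ in Ioc 0 T, ENNReal.ofReal ((1 + δ⁻¹ * |σ|) ^ (-β)) := lintegral_union_le _ _ _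
    _ ≤ ENNReal.ofReal (1 / (1 - β) * (δ ^ β * T ^ (1 - β))) +
        ENNReal.ofReal (1 / (1 - β) * (δ ^ β * T ^ (1 - β))) := by
        rw [h5]; gcongr
    _ = _ := by
        have : 0 < 1 - β := by linarith
        rw [← ENNReal.ofReal_add (by positivity) (by positivity)]
        congr 1
        ring

/-- The integral over `s` if `m` roots count and `m α < 1`. -/
theorem SI2 (m : ℕ) (hm : 1 ≤ m) (al : ℝ) (hal0 : 0 < al) (hal : m * al < 1) : ∃ K : ℝ, 0 < K ∧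
    ∀ (d : ℕ) (μ : Fin d → ℝ) (D T : ℝ) (F : ℝ → ℝ) (Sg : Set ℝ), 0 < D → 0 ≤ T →
      (∀ s ∈ Sg, 0 ≤ F s ∧ F s ≤ 1 ∧ ∃ I : Finset (Fin d), I.card = m ∧
        (∀ i ∈ I, |s - μ i| ≤ T) ∧ F s * ∏ i ∈ I, |s - μ i| ≤ D) →
      ∫⁻ s in Sg, ENNReal.ofReal (F s ^ al) ≤
        ENNReal.ofReal (K * d * D ^ al * T ^ (1 - m * al)) := by
  have hm0 : (0 : ℝ) < m := by exact_mod_cast hm
  have h1b : 0 < 1 - (m : ℝ) * al := by linarith
  refine ⟨2 ^ ((m : ℝ) * al) * (2 / (1 - m * al)), by positivity,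
    fun d μ D T F Sg hD hT h => ?_⟩
  set δ : ℝ := D ^ (1 / (m : ℝ)) with hδ
  have hδ0 : 0 < δ := Real.rpow_pos_of_pos hD _
  have hδm : δ ^ m = D := by
    rw [hδ, ← Real.rpow_natCast, ← Real.rpow_mul hD.le, one_div, inv_mul_cancel₀ hm0.ne',
      Real.rpow_one]
  have hδa : δ ^ ((m : ℝ) * al) = D ^ al := by
    rw [Real.rpow_mul hδ0.le, Real.rpow_natCast, hδm]
  have hset : ∀ i, MeasurableSet {s : ℝ | |s - μ i| ≤ T} := by
    intro i
    apply measurableSet_le <;> fun_prop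
  have hle : ∀ s ∈ Sg, ENNReal.ofReal (F s ^ al) ≤ ∑ i : Fin d,
      ENNReal.ofReal (2 ^ ((m : ℝ) * al)) * {s : ℝ | |s - μ i| ≤ T}.indicator
        (fun s => ENNReal.ofReal ((1 + δ⁻¹ * |s - μ i|) ^ (-((m : ℝ) * al)))) s := by
    intro s hs
    obtain ⟨h0, h1, I, hI, hIT, h2⟩ := h s hs
    obtain ⟨i, hi, h3⟩ := si_pt_pow hm hal0 hδ0 h0 h1 hI (h2.trans_eq hδm.symm)
    refine (ENNReal.ofReal_le_ofReal h3).trans ?_
    rw [ENNReal.ofReal_mul (by positivity)]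
    refine le_trans ?_ (Finset.single_le_sum (f := fun i => ENNReal.ofReal (2 ^ ((m : ℝ) * al)) *
      {s : ℝ | |s - μ i| ≤ T}.indicator
        (fun s => ENNReal.ofReal ((1 + δ⁻¹ * |s - μ i|) ^ (-((m : ℝ) * al)))) s)
      (fun _ _ => zero_le) (Finset.mem_univ i))
    rw [indicator_of_mem (by exact hIT i hi)]
  calc ∫⁻ s in Sg, ENNReal.ofReal (F s ^ al)
      ≤ ∫⁻ s in Sg, ∑ i : Fin d, ENNReal.ofReal (2 ^ ((m : ℝ) * al)) *
        {s : ℝ | |s - μ i| ≤ T}.indicator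
        (fun s => ENNReal.ofReal ((1 + δ⁻¹ * |s - μ i|) ^ (-((m : ℝ) * al)))) s := by
        refine setLIntegral_mono ?_ hle
        refine Finset.measurable_sum _ fun i _ => ?_
        exact (Measurable.indicator (by fun_prop) (hset i)).const_mul _
    _ ≤ ∫⁻ s, ∑ i : Fin d, ENNReal.ofReal (2 ^ ((m : ℝ) * al)) *
        {s : ℝ | |s - μ i| ≤ T}.indicator
        (fun s => ENNReal.ofReal ((1 + δ⁻¹ * |s - μ i|) ^ (-((m : ℝ) * al)))) s :=
        setLIntegral_le_lintegral _ _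
    _ = ∑ i : Fin d, ENNReal.ofReal (2 ^ ((m : ℝ) * al)) * ∫⁻ s in {s : ℝ | |s - μ i| ≤ T},
        ENNReal.ofReal ((1 + δ⁻¹ * |s - μ i|) ^ (-((m : ℝ) * al))) := by
        rw [lintegral_finsetSum _ fun i _ =>
          (Measurable.indicator (by fun_prop) (hset i)).const_mul _]
        refine Finset.sum_congr rfl fun i _ => ?_
        rw [lintegral_const_mul _ (Measurable.indicator (by fun_prop) (hset i)),
          lintegral_indicator (hset i)]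
    _ ≤ ∑ i : Fin d, ENNReal.ofReal (2 ^ ((m : ℝ) * al)) *
        ENNReal.ofReal (2 / (1 - m * al) * (δ ^ ((m : ℝ) * al) * T ^ (1 - (m : ℝ) * al))) := by
        gcongr with i
        exact si_int2 _ (by positivity) hal δ T (μ i) hδ0 hT
    _ = _ := by
        rw [Finset.sum_const, Finset.card_univ, Fintype.card_fin, nsmul_eq_mul,
          ← ENNReal.ofReal_mul (by positivity), ← ENNReal.ofReal_natCast,
          ← ENNReal.ofReal_mul (by positivity), hδa]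
        congr 1
        ring

/-- The integral over `s` if all roots are far. -/
theorem SI0 (d : ℕ) (hd : 1 ≤ d) (al c : ℝ) (hc : 0 < c) (hal : 2 < d * al) : ∃ K : ℝ, 0 < K ∧
    ∀ (μ : Fin d → ℝ) (F : ℝ → ℝ) (Sg : Set ℝ),
      (∀ s ∈ Sg, 0 ≤ F s ∧ F s ≤ ∏ i, (c + |s - μ i|) ^ (-(1 / 2) : ℝ)) →
      ∫⁻ s in Sg, ENNReal.ofReal (F s ^ al) ≤ ENNReal.ofReal K := by
  have hd0 : (0 : ℝ) < d := by exact_mod_cast hd
  have hal0 : 0 < al := by
    by_contra h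
    push Not at h
    nlinarith
  obtain ⟨K, hK, hint⟩ := si_int (d * al / 2) (by linarith)
  refine ⟨d * (c ^ (-(d * al / 2)) * (K * c)), by positivity, fun μ F Sg h => ?_⟩
  have hle : ∀ s ∈ Sg, ENNReal.ofReal (F s ^ al) ≤ ∑ i : Fin d,
      ENNReal.ofReal (c ^ (-(d * al / 2))) *
        ENNReal.ofReal ((1 + c⁻¹ * |s - μ i|) ^ (-(d * al / 2))) := by
    intro s hs
    obtain ⟨h0, h1⟩ := h s hs
    have : Nonempty (Fin d) := ⟨⟨0, hd⟩⟩
    obtain ⟨j, -, hmin⟩ := Finset.exists_min_image Finset.univ (fun i => |s - μ i|)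
      Finset.univ_nonempty
    have h2 : F s ≤ ((c + |s - μ j|) ^ (-(1 / 2) : ℝ)) ^ d := by
      refine h1.trans ?_
      calc ∏ i, (c + |s - μ i|) ^ (-(1 / 2) : ℝ) ≤ ∏ i : Fin d, (c + |s - μ j|) ^ (-(1 / 2) : ℝ) := by
            refine Finset.prod_le_prod (fun i _ => by positivity) fun i hi => ?_
            exact Real.rpow_le_rpow_of_nonpos (by positivity)
              (by linarith [hmin i hi]) (by norm_num)
        _ = _ := by rw [Finset.prod_const, Finset.card_univ, Fintype.card_fin]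
    have h3 : F s ^ al ≤ (c + |s - μ j|) ^ (-(d * al / 2)) := by
      calc F s ^ al ≤ (((c + |s - μ j|) ^ (-(1 / 2) : ℝ)) ^ d) ^ al :=
            Real.rpow_le_rpow h0 h2 hal0.le
        _ = _ := by
            rw [← Real.rpow_natCast, ← Real.rpow_mul (by positivity),
              ← Real.rpow_mul (by positivity)]
            congr 1
            ring
    have h4 : (c + |s - μ j|) ^ (-(d * al / 2)) =
        c ^ (-(d * al / 2)) * (1 + c⁻¹ * |s - μ j|) ^ (-(d * al / 2)) := by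
      rw [← Real.mul_rpow hc.le (by positivity)]
      congr 1
      field_simp
    rw [h4] at h3
    refine (ENNReal.ofReal_le_ofReal h3).trans ?_
    rw [ENNReal.ofReal_mul (by positivity)]
    exact Finset.single_le_sum (f := fun i => ENNReal.ofReal (c ^ (-(d * al / 2))) *
      ENNReal.ofReal ((1 + c⁻¹ * |s - μ i|) ^ (-(d * al / 2)))) (fun _ _ => zero_le)
      (Finset.mem_univ j)
  calc ∫⁻ s in Sg, ENNReal.ofReal (F s ^ al)
      ≤ ∫⁻ s in Sg, ∑ i : Fin d, ENNReal.ofReal (c ^ (-(d * al / 2))) *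
        ENNReal.ofReal ((1 + c⁻¹ * |s - μ i|) ^ (-(d * al / 2))) :=
        setLIntegral_mono (by fun_prop) hle
    _ ≤ ∫⁻ s, ∑ i : Fin d, ENNReal.ofReal (c ^ (-(d * al / 2))) *
        ENNReal.ofReal ((1 + c⁻¹ * |s - μ i|) ^ (-(d * al / 2))) := setLIntegral_le_lintegral _ _
    _ = ∑ i : Fin d, ENNReal.ofReal (c ^ (-(d * al / 2))) *
        ∫⁻ s, ENNReal.ofReal ((1 + c⁻¹ * |s - μ i|) ^ (-(d * al / 2))) := by
        rw [lintegral_finsetSum _ fun i _ => by fun_prop]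
        refine Finset.sum_congr rfl fun i _ => ?_
        rw [lintegral_const_mul _ (by fun_prop)]
    _ ≤ ∑ i : Fin d, ENNReal.ofReal (c ^ (-(d * al / 2))) * ENNReal.ofReal (K * c) := by
        gcongr with i
        exact hint c (μ i) hc
    _ = _ := by
        rw [Finset.sum_const, Finset.card_univ, Fintype.card_fin, nsmul_eq_mul,
          ← ENNReal.ofReal_mul (by positivity), ← ENNReal.ofReal_natCast,
          ← ENNReal.ofReal_mul (by positivity)]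

end Pool.Agent.GNP
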