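import Pool.Agent.GNP.Defs5
import Pool.Agent.GNP.N5SINT

/-!
Every phase, all dimensions: the explicit majorant of the values of the chains and its integral over
the slope and the point.
-/

namespace Pool.Agent.GNP

open MeasureTheory Set
open scoped ENNReal Real

/-- One term of the majorant. -/
noncomputable def GIs (d : ℕ) (M : ℝ) (μ : Fin d → ℝ) (I : Finset (Fin d)) (k : ℕ) (s : ℝ) : ℝ :=
  M * (1 / 2) ^ (k * (d - I.card)) * (max 1 (∏ i ∈ I, ((1 / 2) ^ k * |s - μ i|)))⁻¹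

/-- The set where the term counts. -/
def GS {Y : Type} (d : ℕ) (M : ℝ) (μ : Y → Fin d → ℝ) (U : ℕ → Set Y) (I : Finset (Fin d))
    (k : ℕ) : Set (ℝ × Y) :=
  {z | 1 ≤ I.card ∧ (2 ≤ I.card → z.2 ∈ U k) ∧ ∀ i ∈ I, |z.1 - μ z.2 i| ≤ M * 4 ^ k}

/-- The power `al` of the majorant. -/
noncomputable def GA {Y : Type} (d : ℕ) (al M : ℝ) (μ : Y → Fin d → ℝ) (U : ℕ → Set Y)
    (s : ℝ) (y : Y) : ℝ≥0∞ :=
  ENNReal.ofReal ((M * ∏ i, (1 + |s - μ y i|) ^ (-(1 / 2) : ℝ)) ^ al) +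
    ∑ I : Finset (Fin d), ∑' k : ℕ, (GS d M μ U I k).indicator
      (fun z => ENNReal.ofReal (GIs d M (μ z.2) I k z.1 ^ al)) (s, y)

/-- The majorant. -/
noncomputable def GG {Y : Type} (d : ℕ) (al M : ℝ) (μ : Y → Fin d → ℝ) (U : ℕ → Set Y)
    (s : ℝ) (y : Y) : ℝ≥0∞ := GA d al M μ U s y ^ (1 / al)

theorem GG_rpow {Y : Type} (d : ℕ) {al : ℝ} (hal : 0 < al) (M : ℝ) (μ : Y → Fin d → ℝ)
    (U : ℕ → Set Y) (s : ℝ) (y : Y) : GG d al M μ U s y ^ al = GA d al M μ U s y := by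
  rw [GG, ← ENNReal.rpow_mul, one_div, inv_mul_cancel₀ hal.ne', ENNReal.rpow_one]

theorem le_GG {Y : Type} (d : ℕ) {al : ℝ} (hal : 0 < al) (M : ℝ) (μ : Y → Fin d → ℝ)
    (U : ℕ → Set Y) (s : ℝ) (y : Y) {w : ℝ} (hw : 0 ≤ w)
    (h : ENNReal.ofReal (w ^ al) ≤ GA d al M μ U s y) : ENNReal.ofReal w ≤ GG d al M μ U s y := by
  calc ENNReal.ofReal w = (ENNReal.ofReal (w ^ al)) ^ (1 / al) := by
        rw [← ENNReal.ofReal_rpow_of_nonneg hw hal.le, ← ENNReal.rpow_mul, one_div,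
          mul_inv_cancel₀ hal.ne', ENNReal.rpow_one]
    _ ≤ _ := ENNReal.rpow_le_rpow h (by positivity)

theorem GIs_nonneg (d : ℕ) {M : ℝ} (hM : 0 ≤ M) (μ : Fin d → ℝ) (I : Finset (Fin d)) (k : ℕ)
    (s : ℝ) : 0 ≤ GIs d M μ I k s := by
  unfold GIs
  have : 0 ≤ ∏ i ∈ I, ((1 / 2 : ℝ) ^ k * |s - μ i|) :=
    Finset.prod_nonneg fun i _ => by positivity
  positivity

/-- What the geometry gives is below the majorant. -/
theorem geo_le {Y : Type} (d C : ℕ) {al K M : ℝ} (hal : 0 < al) (hK : 0 < K) (hM : 2 ^ d * K ^ C ≤ M)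
    (μ : Y → Fin d → ℝ) (U : ℕ → Set Y) (Un : ℝ → Y → Prop) (s w : ℝ) (y : Y) (hw : 0 ≤ w)
    (hU : ∀ k r, Un r y → r ≤ 2 * (1 / 2) ^ k → y ∈ U k)
    (hgeo : Geo d C K (μ y) (fun r => Un r y) s w) : ENNReal.ofReal w ≤ GG d al M μ U s y := by
  refine le_GG d hal M μ U s y hw ?_
  have hKC : 0 < K ^ C := pow_pos hK C
  have h2d : (1 : ℝ) ≤ 2 ^ d := one_le_pow₀ (by norm_num)
  have hM1 : K ^ C ≤ M := by nlinarith
  have hM0 : 0 < M := by linarith
  rcases hgeo with h | ⟨I, r, hI, hr0, hr1, hroot, hw1, hw2, hun⟩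
  · -- all roots are far
    refine le_trans (ENNReal.ofReal_le_ofReal (Real.rpow_le_rpow hw ?_ hal.le)) le_self_add
    have h1 : ∏ i, (1 + |s - μ y i|) ^ (-(1 / 2) : ℝ) = (∏ i, √(1 + |s - μ y i|))⁻¹ := by
      rw [← Finset.prod_inv_distrib]
      refine Finset.prod_congr rfl fun i _ => ?_
      rw [Real.sqrt_eq_rpow, ← Real.rpow_neg (by positivity)]
    have h2 : 0 < ∏ i, √(1 + |s - μ y i|) :=
      Finset.prod_pos fun i _ => Real.sqrt_pos.2 (by positivity)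
    rw [h1, ← div_eq_mul_inv, le_div_iff₀ h2]
    linarith
  · -- the dyadic scale
    obtain ⟨k, hk1, hk2⟩ : ∃ k : ℕ, (1 / 2 : ℝ) ^ k ≤ r ∧ r ≤ 2 * (1 / 2) ^ k := by
      obtain ⟨n, hn1, hn2⟩ := exists_nat_pow_near_of_lt_one hr0 hr1 (by norm_num : (0 : ℝ) < 1 / 2)
        (by norm_num)
      refine ⟨n + 1, hn1.le, ?_⟩
      rw [pow_succ]
      linarith
    set r' : ℝ := (1 / 2) ^ k with hr'
    have hr'0 : 0 < r' := by positivity
    have hmem : ((s, y) : ℝ × Y) ∈ GS d M μ U I k := by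
      refine ⟨hI, fun h2 => hU k r (hun h2) hk2, fun i hi => ?_⟩
      have h1 := hroot i hi
      have h2 : |s - μ y i| * r' ^ 2 ≤ K ^ C := by
        refine le_trans ?_ h1
        gcongr
      have h3 : r' ^ 2 * 4 ^ k = 1 := by
        rw [hr', ← pow_mul, mul_comm k 2, pow_mul, ← mul_pow]
        norm_num
      calc |s - μ y i| = |s - μ y i| * r' ^ 2 * 4 ^ k := by rw [mul_assoc, h3, mul_one]
        _ ≤ K ^ C * 4 ^ k := by gcongr
        _ ≤ M * 4 ^ k := by gcongr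
    refine le_trans ?_ (le_add_of_nonneg_left zero_le)
    refine le_trans ?_ (Finset.single_le_sum (f := fun I : Finset (Fin d) => ∑' k : ℕ,
      (GS d M μ U I k).indicator (fun z => ENNReal.ofReal (GIs d M (μ z.2) I k z.1 ^ al)) (s, y))
      (fun _ _ => zero_le) (Finset.mem_univ I))
    refine le_trans ?_ (ENNReal.le_tsum k)
    rw [indicator_of_mem hmem]
    refine ENNReal.ofReal_le_ofReal (Real.rpow_le_rpow hw ?_ hal.le)
    change w ≤ GIs d M (μ y) I k s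
    unfold GIs
    set P : ℝ := ∏ i ∈ I, ((1 / 2 : ℝ) ^ k * |s - μ y i|) with hP
    have hP0 : 0 ≤ P := Finset.prod_nonneg fun i _ => by positivity
    have hcard : d - I.card ≤ d := Nat.sub_le _ _
    have h5 : K ^ C * r ^ (d - I.card) ≤ M * (1 / 2) ^ (k * (d - I.card)) := by
      calc K ^ C * r ^ (d - I.card) ≤ K ^ C * (2 * r') ^ (d - I.card) := by gcongr
        _ = (2 ^ (d - I.card) * K ^ C) * (1 / 2) ^ (k * (d - I.card)) := by
            rw [mul_pow, hr', ← pow_mul]; ring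
        _ ≤ (2 ^ d * K ^ C) * (1 / 2) ^ (k * (d - I.card)) := by
            gcongr
            norm_num
        _ ≤ _ := by gcongr
    have h6 : w * P ≤ K ^ C * r ^ (d - I.card) := by
      refine le_trans (mul_le_mul_of_nonneg_left ?_ hw) hw2
      exact Finset.prod_le_prod (fun i _ => by positivity) fun i _ =>
        mul_le_mul_of_nonneg_right hk1 (abs_nonneg _)
    have h7 : 0 < max 1 P := lt_of_lt_of_le one_pos (le_max_left _ _)
    rw [← div_eq_mul_inv, le_div_iff₀ h7]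
    rcases max_choice 1 P with h | h
    · rw [h, mul_one]
      exact hw1.trans h5
    · rw [h]
      exact h6.trans h5

theorem gi_prod {d : ℕ} (μ : Fin d → ℝ) (I : Finset (Fin d)) (k : ℕ) (s : ℝ) :
    (max 1 (∏ i ∈ I, ((1 / 2 : ℝ) ^ k * |s - μ i|)))⁻¹ * ∏ i ∈ I, |s - μ i| ≤
      2 ^ (k * I.card) := by
  have h1 : ∏ i ∈ I, |s - μ i| = 2 ^ (k * I.card) * ∏ i ∈ I, ((1 / 2 : ℝ) ^ k * |s - μ i|) := by
    rw [Finset.prod_mul_distrib, Finset.prod_const, ← pow_mul, ← mul_assoc, ← mul_pow]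
    norm_num
  set P := ∏ i ∈ I, ((1 / 2 : ℝ) ^ k * |s - μ i|) with hP
  have hP0 : 0 ≤ P := Finset.prod_nonneg fun i _ => by positivity
  have h2 : 0 < max 1 P := lt_of_lt_of_le one_pos (le_max_left _ _)
  rw [h1]
  calc (max 1 P)⁻¹ * (2 ^ (k * I.card) * P) = 2 ^ (k * I.card) * ((max 1 P)⁻¹ * P) := by ring
    _ ≤ 2 ^ (k * I.card) * 1 := by
        gcongr
        rw [inv_mul_le_iff₀ h2, mul_one]
        exact le_max_right _ _
    _ = _ := mul_one _

theorem gi_F {d : ℕ} (μ : Fin d → ℝ) (I : Finset (Fin d)) (k : ℕ) (s : ℝ) :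
    0 ≤ (max 1 (∏ i ∈ I, ((1 / 2 : ℝ) ^ k * |s - μ i|)))⁻¹ ∧
      (max 1 (∏ i ∈ I, ((1 / 2 : ℝ) ^ k * |s - μ i|)))⁻¹ ≤ 1 :=
  ⟨by positivity, inv_le_one_of_one_le₀ (le_max_left _ _)⟩

theorem gi_rpow {d : ℕ} {M al : ℝ} (hM : 0 ≤ M) (μ : Fin d → ℝ) (I : Finset (Fin d))
    (k : ℕ) (s : ℝ) : ENNReal.ofReal (GIs d M μ I k s ^ al) =
      ENNReal.ofReal (M ^ al * (1 / 2 : ℝ) ^ ((k : ℝ) * ((d - I.card : ℕ) * al))) *
      ENNReal.ofReal ((max 1 (∏ i ∈ I, ((1 / 2 : ℝ) ^ k * |s - μ i|)))⁻¹ ^ al) := by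
  have h0 := (gi_F μ I k s).1
  rw [← ENNReal.ofReal_mul (by positivity), GIs, Real.mul_rpow (by positivity) h0,
    Real.mul_rpow hM (by positivity)]
  congr 3
  rw [← Real.rpow_natCast, ← Real.rpow_mul (by norm_num)]
  congr 1
  push_cast
  ring

/-- The integral over the slope if `m al > 1`. -/
theorem gi_int1 (d m : ℕ) (hm : 1 ≤ m) (al : ℝ) (hal : 1 < m * al) : ∃ K : ℝ, 0 < K ∧
    ∀ (M : ℝ) (μ : Fin d → ℝ) (I : Finset (Fin d)) (k : ℕ) (S : Set ℝ), 0 < M → I.card = m →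
      ∫⁻ s in S, ENNReal.ofReal (GIs d M μ I k s ^ al) ≤
        ENNReal.ofReal (K * M ^ al * (1 / 2 : ℝ) ^ ((k : ℝ) * ((d - m : ℕ) * al - 1))) := by
  obtain ⟨K, hK, H⟩ := SI1 m hm al hal
  have hm0 : (0 : ℝ) < m := by exact_mod_cast hm
  refine ⟨K * (d + 1), by positivity, ?_⟩
  intro M μ I k S hM hI
  have h1 := H d μ (2 ^ (k * m)) (fun s => (max 1 (∏ i ∈ I, ((1 / 2 : ℝ) ^ k * |s - μ i|)))⁻¹) S
    (by positivity) fun s _ => ⟨(gi_F μ I k s).1, (gi_F μ I k s).2, I, hI, by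
      have := gi_prod μ I k s
      rwa [hI] at this⟩
  simp only [gi_rpow hM.le]
  rw [lintegral_const_mul' _ _ ENNReal.ofReal_ne_top, hI]
  refine (mul_le_mul_right h1 _).trans ?_
  rw [← ENNReal.ofReal_mul (by positivity)]
  refine ENNReal.ofReal_le_ofReal ?_
  have h2 : ((2 : ℝ) ^ (k * m)) ^ (1 / (m : ℝ)) = (1 / 2 : ℝ) ^ (-(k : ℝ)) := by
    rw [← Real.rpow_natCast, ← Real.rpow_mul (by norm_num), one_div (2 : ℝ),
      Real.inv_rpow (by norm_num), Real.rpow_neg (by norm_num), inv_inv]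
    congr 1
    push_cast
    field_simp
  rw [h2]
  have h3 : (1 / 2 : ℝ) ^ ((k : ℝ) * ((d - m : ℕ) * al - 1)) =
      (1 / 2 : ℝ) ^ ((k : ℝ) * ((d - m : ℕ) * al)) * (1 / 2 : ℝ) ^ (-(k : ℝ)) := by
    rw [← Real.rpow_add (by norm_num)]
    congr 1
    ring
  rw [h3]
  have h4 : K * d ≤ K * (d + 1) := by nlinarith
  calc M ^ al * (1 / 2 : ℝ) ^ ((k : ℝ) * ((d - m : ℕ) * al)) * (K * d * (1 / 2 : ℝ) ^ (-(k : ℝ)))
      = (K * d) * M ^ al * ((1 / 2 : ℝ) ^ ((k : ℝ) * ((d - m : ℕ) * al)) *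
          (1 / 2 : ℝ) ^ (-(k : ℝ))) := by ring
    _ ≤ _ := by gcongr

/-- The integral over the slope if `m al < 1`. -/
theorem gi_int2 (d m : ℕ) (hm : 1 ≤ m) (hmd : m ≤ d) (al : ℝ) (hal0 : 0 < al)
    (hal : m * al < 1) : ∃ K : ℝ, 0 < K ∧
    ∀ (M : ℝ) (μ : Fin d → ℝ) (I : Finset (Fin d)) (k : ℕ) (S : Set ℝ), 1 ≤ M → I.card = m →
      (∀ s ∈ S, ∀ i ∈ I, |s - μ i| ≤ M * 4 ^ k) →
      ∫⁻ s in S, ENNReal.ofReal (GIs d M μ I k s ^ al) ≤
        ENNReal.ofReal (K * M ^ (al + 1) * (1 / 2 : ℝ) ^ ((k : ℝ) * (d * al - 2))) := by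
  obtain ⟨K, hK, H⟩ := SI2 m hm al hal0 hal
  have hm0 : (0 : ℝ) < m := by exact_mod_cast hm
  refine ⟨K * (d + 1), by positivity, ?_⟩
  intro M μ I k S hM hI hS
  have hM0 : 0 < M := by linarith
  have h1 := H d μ (2 ^ (k * m)) (M * 4 ^ k)
    (fun s => (max 1 (∏ i ∈ I, ((1 / 2 : ℝ) ^ k * |s - μ i|)))⁻¹) S
    (by positivity) (by positivity) fun s hs =>
      ⟨(gi_F μ I k s).1, (gi_F μ I k s).2, I, hI, hS s hs, by
      have := gi_prod μ I k s
      rwa [hI] at this⟩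
  simp only [gi_rpow hM0.le]
  rw [lintegral_const_mul' _ _ ENNReal.ofReal_ne_top, hI]
  refine (mul_le_mul_right h1 _).trans ?_
  rw [← ENNReal.ofReal_mul (by positivity)]
  refine ENNReal.ofReal_le_ofReal ?_
  have h2 : ((2 : ℝ) ^ (k * m)) ^ al = (1 / 2 : ℝ) ^ (-((k : ℝ) * (m * al))) := by
    rw [← Real.rpow_natCast, ← Real.rpow_mul (by norm_num), one_div (2 : ℝ),
      Real.inv_rpow (by norm_num), Real.rpow_neg (by norm_num), inv_inv]
    congr 1
    push_cast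
    ring
  have h4 : (M * 4 ^ k) ^ (1 - m * al) ≤ M * (1 / 2 : ℝ) ^ (-((k : ℝ) * (2 * (1 - m * al)))) := by
    rw [Real.mul_rpow hM0.le (by positivity)]
    have h5 : ((4 : ℝ) ^ k) ^ (1 - m * al) = (1 / 2 : ℝ) ^ (-((k : ℝ) * (2 * (1 - m * al)))) := by
      rw [show (4 : ℝ) = 2 ^ (2 : ℝ) by norm_num, ← Real.rpow_natCast, ← Real.rpow_mul (by norm_num),
        ← Real.rpow_mul (by norm_num), one_div, Real.inv_rpow (by norm_num),
        Real.rpow_neg (by norm_num), inv_inv]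
      congr 1
      ring
    rw [h5]
    gcongr
    calc M ^ (1 - m * al) ≤ M ^ (1 : ℝ) :=
          Real.rpow_le_rpow_of_exponent_le hM (by nlinarith)
      _ = M := Real.rpow_one M
  rw [h2]
  have hdm : ((d - m : ℕ) : ℝ) = d - m := by
    rw [Nat.cast_sub hmd]
  have h3 : (1 / 2 : ℝ) ^ ((k : ℝ) * (d * al - 2)) =
      (1 / 2 : ℝ) ^ ((k : ℝ) * ((d - m : ℕ) * al)) * (1 / 2 : ℝ) ^ (-((k : ℝ) * (m * al))) *
        (1 / 2 : ℝ) ^ (-((k : ℝ) * (2 * (1 - m * al)))) := by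
    rw [← Real.rpow_add (by norm_num), ← Real.rpow_add (by norm_num), hdm]
    congr 1
    ring
  rw [h3]
  have h6 : K * d ≤ K * (d + 1) := by nlinarith
  have h7 : M ^ (al + 1) = M ^ al * M := by
    rw [Real.rpow_add hM0, Real.rpow_one]
  rw [h7]
  calc M ^ al * (1 / 2 : ℝ) ^ ((k : ℝ) * ((d - m : ℕ) * al)) *
        (K * d * (1 / 2 : ℝ) ^ (-((k : ℝ) * (m * al))) * (M * 4 ^ k) ^ (1 - m * al))
      ≤ M ^ al * (1 / 2 : ℝ) ^ ((k : ℝ) * ((d - m : ℕ) * al)) *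
        (K * (d + 1) * (1 / 2 : ℝ) ^ (-((k : ℝ) * (m * al))) *
          (M * (1 / 2 : ℝ) ^ (-((k : ℝ) * (2 * (1 - m * al)))))) := by gcongr
    _ = _ := by ring

/-- A geometric series. -/
theorem gi_geom (C q : ℝ) (hC : 0 ≤ C) (hq0 : 0 ≤ q) (hq1 : q < 1) :
    ∑' k : ℕ, ENNReal.ofReal (C * q ^ k) ≤ ENNReal.ofReal (C * (1 - q)⁻¹) := by
  rw [← ENNReal.ofReal_tsum_of_nonneg (fun k => by positivity)
    ((summable_geometric_of_lt_one hq0 hq1).mul_left C), tsum_mul_left,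
    tsum_geometric_of_lt_one hq0 hq1]

theorem gi_half (k : ℕ) (β : ℝ) : (1 / 2 : ℝ) ^ ((k : ℝ) * β) = ((1 / 2 : ℝ) ^ β) ^ k := by
  rw [mul_comm, Real.rpow_mul (by norm_num), Real.rpow_natCast]

theorem gi_half_lt {β : ℝ} (hβ : 0 < β) : (1 / 2 : ℝ) ^ β < 1 :=
  Real.rpow_lt_one (by norm_num) (by norm_num) hβ

theorem gi_le {d : ℕ} {M : ℝ} (hM : 0 ≤ M) (μ : Fin d → ℝ) (I : Finset (Fin d)) (k : ℕ) (s : ℝ) :
    GIs d M μ I k s ≤ M := by
  unfold GIs
  have h1 : (1 / 2 : ℝ) ^ (k * (d - I.card)) ≤ 1 := pow_le_one₀ (by norm_num) (by norm_num)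
  have h2 := (gi_F μ I k s)
  calc M * (1 / 2) ^ (k * (d - I.card)) * (max 1 (∏ i ∈ I, ((1 / 2) ^ k * |s - μ i|)))⁻¹
      ≤ M * 1 * 1 := by
        gcongr
        · exact h2.2
    _ = M := by ring

theorem gi_min {a b θ : ℝ} (ha : 0 ≤ a) (hb : 0 ≤ b) (hθ0 : 0 ≤ θ) (hθ1 : θ ≤ 1) {x : ℝ≥0∞}
    (h1 : x ≤ ENNReal.ofReal a) (h2 : x ≤ ENNReal.ofReal b) :
    x ≤ ENNReal.ofReal (a ^ (1 - θ) * b ^ θ) := by
  have hx : x ≠ ⊤ := ne_top_of_le_ne_top ENNReal.ofReal_ne_top h1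
  calc x = ENNReal.ofReal (x.toReal) := (ENNReal.ofReal_toReal hx).symm
    _ ≤ _ := by
        refine ENNReal.ofReal_le_ofReal ?_
        have h0 : 0 ≤ x.toReal := ENNReal.toReal_nonneg
        have h3 : x.toReal ≤ a := ENNReal.toReal_le_of_le_ofReal ha h1
        have h4 : x.toReal ≤ b := ENNReal.toReal_le_of_le_ofReal hb h2
        calc x.toReal = x.toReal ^ (1 - θ) * x.toReal ^ θ := by
              rw [← Real.rpow_add_of_nonneg h0 (by linarith) hθ0, sub_add_cancel, Real.rpow_one]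
          _ ≤ a ^ (1 - θ) * b ^ θ := by
              gcongr

/-- The slope integral of one term. -/
theorem gi_slope (d : ℕ) (hd : 2 ≤ d) (al θ : ℝ) (hal : 2 / (d : ℝ) < al)
    (hne : ∀ m : ℕ, (m : ℝ) * al ≠ 1) (hθ0 : 0 < θ) (hθ1 : θ < 1) (I : Finset (Fin d))
    (hI : 1 ≤ I.card) : ∃ K β : ℝ, 0 < K ∧ 0 < β ∧
    ∀ (M L : ℝ) (μ : Fin d → ℝ) (k : ℕ) (S : Set ℝ), 1 ≤ M → 1 ≤ L → volume S ≤ ENNReal.ofReal L →
      (∀ s ∈ S, ∀ i ∈ I, |s - μ i| ≤ M * 4 ^ k) →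
      ((I.card < 2 ∨ 2 * I.card ≤ d) → ∫⁻ s in S, ENNReal.ofReal (GIs d M μ I k s ^ al) ≤
        ENNReal.ofReal (K * M ^ (al + 1) * ((1 / 2 : ℝ) ^ β) ^ k)) ∧
      (¬ (I.card < 2 ∨ 2 * I.card ≤ d) → ∫⁻ s in S, ENNReal.ofReal (GIs d M μ I k s ^ al) ≤
        ENNReal.ofReal (K * M ^ al * L ^ θ * ((1 / 2 : ℝ) ^ β) ^ k * 2 ^ k) ∧
        (∀ T : ℝ, 1 ≤ T → 2 ^ k ≤ T → ∫⁻ s in S, ENNReal.ofReal (GIs d M μ I k s ^ al) ≤
          ENNReal.ofReal (K * M ^ al * T ^ (1 + θ) * ((1 / 2 : ℝ) ^ β) ^ k))) := by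
  set m := I.card with hm
  have hmd : m ≤ d := by
    have := Finset.card_le_univ I
    rwa [Fintype.card_fin] at this
  have hd0 : (0 : ℝ) < d := by
    have : (2 : ℝ) ≤ d := by exact_mod_cast hd
    linarith
  have hdal : 2 < d * al := by
    rw [div_lt_iff₀ hd0] at hal
    linarith
  have hal0 : 0 < al := lt_trans (by positivity) hal
  have hdm : ((d - m : ℕ) : ℝ) = d - m := by rw [Nat.cast_sub hmd]
  by_cases hcase : m < 2 ∨ 2 * m ≤ d
  · rcases lt_or_gt_of_ne (hne m) with h | h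
    · obtain ⟨K, hK, H⟩ := gi_int2 d m hI hmd al hal0 h
      refine ⟨K, d * al - 2, hK, by linarith, ?_⟩
      intro M L μ k S hM hL hS hroot
      refine ⟨fun _ => ?_, fun h => absurd hcase h⟩
      rw [← gi_half]
      exact H M μ I k S hM hm.symm hroot
    · obtain ⟨K, hK, H⟩ := gi_int1 d m hI al h
      have h2m : 2 * m ≤ d := by
        rcases hcase with h1 | h1
        · have : m = 1 := by omega
          omega
        · exact h1
      have h2m' : 2 * (m : ℝ) ≤ d := by exact_mod_cast h2m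
      refine ⟨K, (d - m : ℕ) * al - 1, hK, ?_, ?_⟩
      · rw [hdm]
        nlinarith
      intro M L μ k S hM hL hS hroot
      refine ⟨fun _ => ?_, fun h => absurd hcase h⟩
      rw [← gi_half]
      refine (H M μ I k S (by linarith) hm.symm).trans (ENNReal.ofReal_le_ofReal ?_)
      gcongr
      linarith
  · push Not at hcase
    have h1 : 1 < m * al := by
      have : (d : ℝ) < 2 * m := by exact_mod_cast hcase.2
      nlinarith
    obtain ⟨K, hK, H⟩ := gi_int1 d m hI al h1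
    refine ⟨K + 1, θ, by positivity, hθ0, ?_⟩
    intro M L μ k S hM hL hS hroot
    refine ⟨fun h => absurd h (by push Not; exact hcase), fun _ => ?_⟩
    have hM0 : 0 < M := by linarith
    have ha : ∫⁻ s in S, ENNReal.ofReal (GIs d M μ I k s ^ al) ≤
        ENNReal.ofReal ((K + 1) * M ^ al * 2 ^ k) := by
      refine (H M μ I k S (by linarith) hm.symm).trans (ENNReal.ofReal_le_ofReal ?_)
      have h2 : (1 / 2 : ℝ) ^ ((k : ℝ) * ((d - m : ℕ) * al - 1)) ≤ 2 ^ k := by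
        calc (1 / 2 : ℝ) ^ ((k : ℝ) * ((d - m : ℕ) * al - 1)) ≤ (1 / 2 : ℝ) ^ (-(k : ℝ)) := by
              refine Real.rpow_le_rpow_of_exponent_ge (by norm_num) (by norm_num) ?_
              have h3 : 0 ≤ (k : ℝ) * ((d - m : ℕ) * al) := by positivity
              nlinarith
          _ = 2 ^ k := by
              rw [Real.rpow_neg (by norm_num), Real.rpow_natCast, one_div, inv_pow, inv_inv]
      gcongr
      linarith
    have hb : ∫⁻ s in S, ENNReal.ofReal (GIs d M μ I k s ^ al) ≤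
        ENNReal.ofReal (M ^ al * L) := by
      calc ∫⁻ s in S, ENNReal.ofReal (GIs d M μ I k s ^ al)
          ≤ ∫⁻ s in S, ENNReal.ofReal (M ^ al) := by
            refine lintegral_mono fun s => ENNReal.ofReal_le_ofReal ?_
            exact Real.rpow_le_rpow (GIs_nonneg d hM0.le μ I k s) (gi_le hM0.le μ I k s) hal0.le
        _ = ENNReal.ofReal (M ^ al) * volume S := by rw [setLIntegral_const]
        _ ≤ ENNReal.ofReal (M ^ al) * ENNReal.ofReal L := by gcongr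
        _ = _ := by rw [← ENNReal.ofReal_mul (by positivity)]
    refine ⟨?_, ?_⟩
    swap
    · intro T hT hkT
      refine ha.trans (ENNReal.ofReal_le_ofReal ?_)
      have hT0 : 0 < T := by linarith
      have h3 : (2 : ℝ) ^ k ≤ T ^ (1 + θ) * ((1 / 2 : ℝ) ^ θ) ^ k := by
        have h4 : ((2 : ℝ) ^ k) ^ (1 + θ) * ((1 / 2 : ℝ) ^ θ) ^ k = 2 ^ k := by
          have h5 : ((1 / 2 : ℝ) ^ θ) ^ k = (((2 : ℝ) ^ k) ^ θ)⁻¹ := by
            rw [← Real.rpow_natCast, ← Real.rpow_mul (by norm_num), mul_comm,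
              Real.rpow_mul (by norm_num), Real.rpow_natCast, one_div, inv_pow,
              Real.inv_rpow (by positivity)]
          have h6 : 0 < ((2 : ℝ) ^ k) ^ θ := by positivity
          rw [h5, Real.rpow_add (by positivity), Real.rpow_one, mul_assoc, mul_inv_cancel₀ h6.ne',
            mul_one]
        calc (2 : ℝ) ^ k = ((2 : ℝ) ^ k) ^ (1 + θ) * ((1 / 2 : ℝ) ^ θ) ^ k := h4.symm
          _ ≤ T ^ (1 + θ) * ((1 / 2 : ℝ) ^ θ) ^ k := by gcongr
      calc (K + 1) * M ^ al * 2 ^ k ≤ (K + 1) * M ^ al * (T ^ (1 + θ) * ((1 / 2 : ℝ) ^ θ) ^ k) := by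
            gcongr
        _ = _ := by ring
    refine (gi_min (by positivity) (by positivity) hθ0.le hθ1.le ha hb).trans
      (ENNReal.ofReal_le_ofReal ?_)
    have h3 : ((K + 1) * M ^ al * 2 ^ k) ^ (1 - θ) =
        (K + 1) ^ (1 - θ) * (M ^ al) ^ (1 - θ) * (((1 / 2 : ℝ) ^ θ) ^ k * 2 ^ k) := by
      rw [Real.mul_rpow (by positivity) (by positivity), Real.mul_rpow (by positivity)
        (by positivity)]
      congr 1
      rw [← gi_half]
      have h4 : ((2 : ℝ) ^ k) = (1 / 2 : ℝ) ^ (-(k : ℝ)) := by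
        rw [Real.rpow_neg (by norm_num), Real.rpow_natCast, one_div, inv_pow, inv_inv]
      rw [h4, ← Real.rpow_mul (by norm_num), ← Real.rpow_add (by norm_num)]
      congr 1
      ring
    rw [h3, Real.mul_rpow (by positivity) (by positivity)]
    have h5 : (K + 1) ^ (1 - θ) ≤ K + 1 := by
      calc (K + 1) ^ (1 - θ) ≤ (K + 1) ^ (1 : ℝ) :=
            Real.rpow_le_rpow_of_exponent_le (by linarith) (by linarith)
        _ = _ := Real.rpow_one _
    have h6 : (M ^ al) ^ (1 - θ) * (M ^ al) ^ θ = M ^ al := by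
      rw [← Real.rpow_add (by positivity), sub_add_cancel, Real.rpow_one]
    calc (K + 1) ^ (1 - θ) * (M ^ al) ^ (1 - θ) * (((1 / 2 : ℝ) ^ θ) ^ k * 2 ^ k) *
          ((M ^ al) ^ θ * L ^ θ)
        = (K + 1) ^ (1 - θ) * ((M ^ al) ^ (1 - θ) * (M ^ al) ^ θ) * L ^ θ *
          ((1 / 2 : ℝ) ^ θ) ^ k * 2 ^ k := by ring
      _ = (K + 1) ^ (1 - θ) * M ^ al * L ^ θ * ((1 / 2 : ℝ) ^ θ) ^ k * 2 ^ k := by rw [h6]
      _ ≤ _ := by gcongr

theorem measurableSet_GS {Y : Type} [MeasurableSpace Y] (d : ℕ) (M : ℝ) {μ : Y → Fin d → ℝ}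
    (hμ : Measurable μ) {U : ℕ → Set Y} (hU : ∀ k, MeasurableSet (U k)) (I : Finset (Fin d))
    (k : ℕ) : MeasurableSet (GS d M μ U I k) := by
  have h1 : MeasurableSet {z : ℝ × Y | ∀ i ∈ I, |z.1 - μ z.2 i| ≤ M * 4 ^ k} := by
    have : {z : ℝ × Y | ∀ i ∈ I, |z.1 - μ z.2 i| ≤ M * 4 ^ k} =
        ⋂ i ∈ I, {z : ℝ × Y | |z.1 - μ z.2 i| ≤ M * 4 ^ k} := by
      ext z; simp
    rw [this]
    refine Finset.measurableSet_biInter _ fun i _ => ?_
    have h2 : Measurable fun z : ℝ × Y => μ z.2 i := (measurable_pi_iff.1 hμ i).comp measurable_snd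
    exact measurableSet_le (measurable_fst.sub h2).abs measurable_const
  have h3 : MeasurableSet {z : ℝ × Y | 2 ≤ I.card → z.2 ∈ U k} := by
    by_cases h : 2 ≤ I.card
    · simp only [h, true_implies]
      exact measurable_snd (hU k)
    · simp only [h, false_implies]
      exact MeasurableSet.univ
  have h4 : MeasurableSet {_z : ℝ × Y | 1 ≤ I.card} := MeasurableSet.const _
  exact h4.inter (h3.inter h1)

theorem measurable_GIs {Y : Type} [MeasurableSpace Y] (d : ℕ) (al M : ℝ) {μ : Y → Fin d → ℝ}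
    (hμ : Measurable μ) (I : Finset (Fin d)) (k : ℕ) :
    Measurable fun z : ℝ × Y => ENNReal.ofReal (GIs d M (μ z.2) I k z.1 ^ al) := by
  unfold GIs
  refine ENNReal.measurable_ofReal.comp (Measurable.pow_const ?_ _)
  refine Measurable.const_mul ?_ _
  refine Measurable.inv (measurable_const.max ?_)
  refine Finset.measurable_prod _ fun i _ => Measurable.const_mul ?_ _
  have h2 : Measurable fun z : ℝ × Y => μ z.2 i := (measurable_pi_iff.1 hμ i).comp measurable_snd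
  exact (measurable_fst.sub h2).abs

theorem measurable_far {Y : Type} [MeasurableSpace Y] (d : ℕ) (al M : ℝ) {μ : Y → Fin d → ℝ}
    (hμ : Measurable μ) : Measurable fun z : ℝ × Y =>
      ENNReal.ofReal ((M * ∏ i, (1 + |z.1 - μ z.2 i|) ^ (-(1 / 2) : ℝ)) ^ al) := by
  refine ENNReal.measurable_ofReal.comp (Measurable.pow_const ?_ _)
  refine Measurable.const_mul ?_ _
  refine Finset.measurable_prod _ fun i _ => Measurable.pow_const ?_ _
  have h2 : Measurable fun z : ℝ × Y => μ z.2 i := (measurable_pi_iff.1 hμ i).comp measurable_snd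
  exact measurable_const.add (measurable_fst.sub h2).abs

/-- The sum of measurable functions, integrated. -/
theorem lint_split {Y ι : Type} [MeasurableSpace Y] [Fintype ι] (ν : Measure Y) [SFinite ν]
    (S0 : Set ℝ) (F : ℝ × Y → ℝ≥0∞) (f : ι → ℕ → ℝ × Y → ℝ≥0∞) (hF : Measurable F)
    (hf : ∀ I k, Measurable (f I k)) :
    ∫⁻ s in S0, ∫⁻ y, (F (s, y) + ∑ I, ∑' k, f I k (s, y)) ∂ν =
      (∫⁻ s in S0, ∫⁻ y, F (s, y) ∂ν) + ∑ I, ∑' k, ∫⁻ s in S0, ∫⁻ y, f I k (s, y) ∂ν := by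
  have hm1 : ∀ s, Measurable fun y => F (s, y) := fun s => hF.comp measurable_prodMk_left
  have hm2 : ∀ I k s, Measurable fun y => f I k (s, y) := fun I k s =>
    (hf I k).comp measurable_prodMk_left
  have hm3 : ∀ I k, Measurable fun s => ∫⁻ y, f I k (s, y) ∂ν := fun I k =>
    (hf I k).lintegral_prod_right'
  calc ∫⁻ s in S0, ∫⁻ y, (F (s, y) + ∑ I, ∑' k, f I k (s, y)) ∂ν
      = ∫⁻ s in S0, ((∫⁻ y, F (s, y) ∂ν) + ∑ I, ∑' k, ∫⁻ y, f I k (s, y) ∂ν) := by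
        refine lintegral_congr fun s => ?_
        rw [lintegral_add_left (hm1 s), lintegral_finsetSum _ fun I _ =>
          Measurable.tsum fun k => hm2 I k s]
        congr 1
        refine Finset.sum_congr rfl fun I _ => ?_
        rw [lintegral_tsum fun k => (hm2 I k s).aemeasurable]
    _ = _ := by
        have hm4 : ∀ I, Measurable fun s => ∑' k, ∫⁻ y, f I k (s, y) ∂ν := fun I =>
          Measurable.tsum fun k => hm3 I k
        rw [lintegral_add_right _ (Finset.measurable_sum Finset.univ fun I _ => hm4 I),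
          lintegral_finsetSum _ fun I _ => hm4 I]
        congr 1
        refine Finset.sum_congr rfl fun I _ => ?_
        rw [lintegral_tsum fun k => (hm3 I k).aemeasurable]

/-- Tonelli, for a function whose slope integral is bounded on a set. -/
theorem lint_swap_le {Y : Type} [MeasurableSpace Y] (ν : Measure Y) [SFinite ν]
    (S0 : Set ℝ) (f : ℝ × Y → ℝ≥0∞) (hf : Measurable f) (c : ℝ≥0∞) (W : Set Y)
    (hW : MeasurableSet W) (h : ∀ y ∈ W, ∫⁻ s in S0, f (s, y) ≤ c)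
    (h0 : ∀ y, y ∉ W → ∀ s, f (s, y) = 0) :
    ∫⁻ s in S0, ∫⁻ y, f (s, y) ∂ν ≤ c * ν W := by
  have hf2 : AEMeasurable (Function.uncurry fun (s : ℝ) (y : Y) => f (s, y))
      ((volume.restrict S0).prod ν) := hf.aemeasurable
  rw [lintegral_lintegral_swap hf2]
  calc ∫⁻ y, (∫⁻ s in S0, f (s, y)) ∂ν ≤ ∫⁻ y, W.indicator (fun _ => c) y ∂ν := by
        refine lintegral_mono fun y => ?_
        by_cases hy : y ∈ W
        · rw [indicator_of_mem hy]
          exact h y hy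
        · simp [h0 y hy]
    _ = c * ν W := by rw [lintegral_indicator_const hW]

/-- The double integral of one term. -/
theorem gis_term (d : ℕ) (hd : 2 ≤ d) (al θ : ℝ) (hal : 2 / (d : ℝ) < al)
    (hne : ∀ m : ℕ, (m : ℝ) * al ≠ 1) (hθ0 : 0 < θ) (hθ1 : θ < 1) (I : Finset (Fin d)) :
    ∃ K β : ℝ, 0 < K ∧ 0 < β ∧
    ∀ (Y : Type) [MeasurableSpace Y] (ν : Measure Y) [SFinite ν] (V M L T : ℝ)
      (μ : Y → Fin d → ℝ) (U : ℕ → Set Y) (S0 : Set ℝ), Measurable μ → (∀ k, MeasurableSet (U k)) →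
      1 ≤ M → 1 ≤ L → 0 ≤ V → 1 ≤ T → ν univ ≤ ENNReal.ofReal V →
      (∀ k, ν (U k) ≤ ENNReal.ofReal (M * (1 / 2) ^ k) +
        (if 2 ^ k ≤ T then ENNReal.ofReal V else 0)) → volume S0 ≤ ENNReal.ofReal L →
      ∀ k, ∫⁻ s in S0, ∫⁻ y, (GS d M μ U I k).indicator
      (fun z => ENNReal.ofReal (GIs d M (μ z.2) I k z.1 ^ al)) (s, y) ∂ν ≤
      ENNReal.ofReal (K * M ^ (al + 1) * (L ^ θ * T ^ θ) * (1 + V * T) *
        ((1 / 2 : ℝ) ^ β) ^ k) := by
  by_cases hI : 1 ≤ I.card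
  swap
  · refine ⟨1, 1, one_pos, one_pos, ?_⟩
    intro Y _ ν _ V M L T μ U S0 hμ hU hM hL hV hT hνV hνU hvol k
    have : ∀ z, (GS d M μ U I k).indicator
        (fun z => ENNReal.ofReal (GIs d M (μ z.2) I k z.1 ^ al)) z = 0 := fun z =>
      indicator_of_notMem (fun h => hI h.1) _
    simp [this]
  obtain ⟨K, β, hK, hβ, H⟩ := gi_slope d hd al θ hal hne hθ0 hθ1 I hI
  refine ⟨K, β, hK, hβ, ?_⟩
  intro Y _ ν _ V M L T μ U S0 hμ hU hM hL hV hT hνV hνU hvol k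
  have hM0 : 0 < M := by linarith
  have hL0 : 0 < L := by linarith
  have hT0 : 0 < T := by linarith
  have hLθ : 1 ≤ L ^ θ := Real.one_le_rpow hL hθ0.le
  have hTθ : 1 ≤ T ^ θ := Real.one_le_rpow hT hθ0.le
  have hLT : 1 ≤ L ^ θ * T ^ θ := by nlinarith
  have hVT : V ≤ V * T := le_mul_of_one_le_right hV hT
  have hM4 : M ^ (al + 1) = M ^ al * M := by rw [Real.rpow_add hM0, Real.rpow_one]
  have hq : 0 ≤ ((1 / 2 : ℝ) ^ β) ^ k := by positivity
  have hfm : Measurable ((GS d M μ U I k).indicator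
      (fun z => ENNReal.ofReal (GIs d M (μ z.2) I k z.1 ^ al))) :=
    (measurable_GIs d al M hμ I k).indicator (measurableSet_GS d M hμ hU I k)
  have hslope : ∀ (c : ℝ≥0∞) (y : Y),
      ∫⁻ s in S0 ∩ {s | ∀ i ∈ I, |s - μ y i| ≤ M * 4 ^ k},
        ENNReal.ofReal (GIs d M (μ y) I k s ^ al) ≤ c →
      ∫⁻ s in S0, (GS d M μ U I k).indicator
        (fun z => ENNReal.ofReal (GIs d M (μ z.2) I k z.1 ^ al)) (s, y) ≤ c := by
    intro c y hc
    refine le_trans ?_ hc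
    have hms : MeasurableSet {s : ℝ | ∀ i ∈ I, |s - μ y i| ≤ M * 4 ^ k} := by
      have : {s : ℝ | ∀ i ∈ I, |s - μ y i| ≤ M * 4 ^ k} =
          ⋂ i ∈ I, {s : ℝ | |s - μ y i| ≤ M * 4 ^ k} := by
        ext z; simp
      rw [this]
      refine Finset.measurableSet_biInter _ fun i _ => ?_
      exact measurableSet_le (by fun_prop) measurable_const
    rw [inter_comm, ← setLIntegral_indicator hms]
    refine lintegral_mono fun s => ?_
    by_cases hs : (s, y) ∈ GS d M μ U I k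
    · rw [indicator_of_mem hs, indicator_of_mem
        (show s ∈ {s : ℝ | ∀ i ∈ I, |s - μ y i| ≤ M * 4 ^ k} from hs.2.2)]
    · rw [indicator_of_notMem hs]
      exact zero_le
  have hvolS : ∀ y, volume (S0 ∩ {s | ∀ i ∈ I, |s - μ y i| ≤ M * 4 ^ k}) ≤
      ENNReal.ofReal L := fun y => (measure_mono inter_subset_left).trans hvol
  by_cases hcase : I.card < 2 ∨ 2 * I.card ≤ d
  · refine (lint_swap_le ν S0 _ hfm _ univ MeasurableSet.univ (fun y _ => hslope _ y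
      ((H M L (μ y) k _ hM hL (hvolS y) fun s hs => hs.2).1 hcase))
      fun y hy => absurd (mem_univ y) hy).trans ?_
    refine (mul_le_mul_right hνV _).trans ?_
    rw [← ENNReal.ofReal_mul (by positivity)]
    refine ENNReal.ofReal_le_ofReal ?_
    calc K * M ^ (al + 1) * ((1 / 2 : ℝ) ^ β) ^ k * V
        = K * M ^ (al + 1) * 1 * V * ((1 / 2 : ℝ) ^ β) ^ k := by ring
      _ ≤ K * M ^ (al + 1) * (L ^ θ * T ^ θ) * (1 + V * T) * ((1 / 2 : ℝ) ^ β) ^ k := by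
          gcongr
          linarith
  · have h2 : 2 ≤ I.card := by
      push Not at hcase
      exact hcase.1
    set J : ℝ≥0∞ := ⨆ y, ∫⁻ s in S0 ∩ {s | ∀ i ∈ I, |s - μ y i| ≤ M * 4 ^ k},
        ENNReal.ofReal (GIs d M (μ y) I k s ^ al) with hJ
    have hJ1 : J ≤ ENNReal.ofReal (K * M ^ al * L ^ θ * ((1 / 2 : ℝ) ^ β) ^ k * 2 ^ k) :=
      iSup_le fun y => ((H M L (μ y) k _ hM hL (hvolS y) fun s hs => hs.2).2 hcase).1
    have hJ2 : 2 ^ k ≤ T → J ≤ ENNReal.ofReal (K * M ^ al * T ^ (1 + θ) * ((1 / 2 : ℝ) ^ β) ^ k) :=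
      fun hk => iSup_le fun y =>
        ((H M L (μ y) k _ hM hL (hvolS y) fun s hs => hs.2).2 hcase).2 T hT hk
    refine (lint_swap_le ν S0 _ hfm J (U k) (hU k) (fun y _ => hslope _ y
      (le_iSup (fun y => ∫⁻ s in S0 ∩ {s | ∀ i ∈ I, |s - μ y i| ≤ M * 4 ^ k},
        ENNReal.ofReal (GIs d M (μ y) I k s ^ al)) y))
      fun y hy s => indicator_of_notMem (fun h => hy (h.2.1 h2)) _).trans ?_
    refine (mul_le_mul_right (hνU k) _).trans ?_
    rw [mul_add]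
    have h3 : (2 : ℝ) ^ k * (1 / 2) ^ k = 1 := by rw [← mul_pow]; norm_num
    have hA : J * ENNReal.ofReal (M * (1 / 2) ^ k) ≤
        ENNReal.ofReal (K * M ^ (al + 1) * (L ^ θ * T ^ θ) * 1 * ((1 / 2 : ℝ) ^ β) ^ k) := by
      refine (mul_le_mul_left hJ1 _).trans ?_
      rw [← ENNReal.ofReal_mul (by positivity)]
      refine ENNReal.ofReal_le_ofReal ?_
      calc K * M ^ al * L ^ θ * ((1 / 2 : ℝ) ^ β) ^ k * 2 ^ k * (M * (1 / 2) ^ k)
          = K * (M ^ al * M) * (L ^ θ * 1) * 1 * ((1 / 2 : ℝ) ^ β) ^ k *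
            (2 ^ k * (1 / 2) ^ k) := by ring
        _ = K * M ^ (al + 1) * (L ^ θ * 1) * 1 * ((1 / 2 : ℝ) ^ β) ^ k := by
            rw [h3, hM4, mul_one]
        _ ≤ _ := by gcongr
    have hB : J * (if 2 ^ k ≤ T then ENNReal.ofReal V else 0) ≤
        ENNReal.ofReal (K * M ^ (al + 1) * (L ^ θ * T ^ θ) * (V * T) * ((1 / 2 : ℝ) ^ β) ^ k) := by
      split_ifs with hk
      · refine (mul_le_mul_left (hJ2 hk) _).trans ?_
        rw [← ENNReal.ofReal_mul (by positivity)]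
        refine ENNReal.ofReal_le_ofReal ?_
        have h5 : T ^ (1 + θ) = T * T ^ θ := by rw [Real.rpow_add hT0, Real.rpow_one]
        calc K * M ^ al * T ^ (1 + θ) * ((1 / 2 : ℝ) ^ β) ^ k * V
            = K * (M ^ al * 1) * (1 * T ^ θ) * (V * T) * ((1 / 2 : ℝ) ^ β) ^ k := by
              rw [h5]; ring
          _ ≤ K * (M ^ al * M) * (L ^ θ * T ^ θ) * (V * T) * ((1 / 2 : ℝ) ^ β) ^ k := by gcongr
          _ = _ := by rw [hM4]
      · simp
    refine (add_le_add hA hB).trans ?_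
    rw [← ENNReal.ofReal_add (by positivity) (by positivity)]
    refine ENNReal.ofReal_le_ofReal (le_of_eq ?_)
    ring

/-- The double integral of the far term. -/
theorem far_term (d : ℕ) (hd : 2 ≤ d) (al : ℝ) (hal : 2 / (d : ℝ) < al) : ∃ K : ℝ, 0 < K ∧
    ∀ (Y : Type) [MeasurableSpace Y] (ν : Measure Y) [SFinite ν] (V M : ℝ)
      (μ : Y → Fin d → ℝ) (S0 : Set ℝ), Measurable μ → 1 ≤ M → 0 ≤ V →
      ν univ ≤ ENNReal.ofReal V →
      ∫⁻ s in S0, ∫⁻ y, ENNReal.ofReal ((M * ∏ i, (1 + |s - μ y i|) ^ (-(1 / 2) : ℝ)) ^ al)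
        ∂ν ≤ ENNReal.ofReal (K * M ^ al * V) := by
  have hd0 : (0 : ℝ) < d := by
    have : (2 : ℝ) ≤ d := by exact_mod_cast hd
    linarith
  have hdal : 2 < d * al := by
    rw [div_lt_iff₀ hd0] at hal
    linarith
  obtain ⟨K, hK, H⟩ := SI0 d (by omega) al 1 one_pos hdal
  refine ⟨K, hK, ?_⟩
  intro Y _ ν _ V M μ S0 hμ hM hV hνV
  have hM0 : 0 < M := by linarith
  refine (lint_swap_le ν S0 _ (measurable_far d al M hμ) (ENNReal.ofReal (M ^ al * K)) univ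
    MeasurableSet.univ (fun y _ => ?_) fun y hy => absurd (mem_univ y) hy).trans ?_
  · have h1 := H (μ y) (fun s => ∏ i, (1 + |s - μ y i|) ^ (-(1 / 2) : ℝ)) S0
      fun s _ => ⟨Finset.prod_nonneg fun i _ => by positivity, le_rfl⟩
    have h2 : ∀ s, ENNReal.ofReal ((M * ∏ i, (1 + |s - μ y i|) ^ (-(1 / 2) : ℝ)) ^ al) =
        ENNReal.ofReal (M ^ al) *
          ENNReal.ofReal ((∏ i, (1 + |s - μ y i|) ^ (-(1 / 2) : ℝ)) ^ al) := by
      intro s
      have h3 : 0 ≤ ∏ i, (1 + |s - μ y i|) ^ (-(1 / 2) : ℝ) :=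
        Finset.prod_nonneg fun i _ => by positivity
      rw [← ENNReal.ofReal_mul (by positivity), Real.mul_rpow hM0.le h3]
    simp only [h2]
    rw [lintegral_const_mul' _ _ ENNReal.ofReal_ne_top, ENNReal.ofReal_mul (by positivity)]
    gcongr
  · refine (mul_le_mul_right hνV _).trans ?_
    rw [← ENNReal.ofReal_mul (by positivity)]
    refine ENNReal.ofReal_le_ofReal (le_of_eq ?_)
    ring

theorem measurable_GA {Y : Type} [MeasurableSpace Y] (d : ℕ) (al M : ℝ) {μ : Y → Fin d → ℝ}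
    (hμ : Measurable μ) {U : ℕ → Set Y} (hU : ∀ k, MeasurableSet (U k)) :
    Measurable fun z : ℝ × Y => GA d al M μ U z.1 z.2 := by
  unfold GA
  refine (measurable_far d al M hμ).add (Finset.measurable_sum _ fun I _ => ?_)
  refine Measurable.tsum fun k => ?_
  exact (measurable_GIs d al M hμ I k).indicator (measurableSet_GS d M hμ hU I k)

theorem measurable_GG {Y : Type} [MeasurableSpace Y] (d : ℕ) (al M : ℝ) {μ : Y → Fin d → ℝ}
    (hμ : Measurable μ) {U : ℕ → Set Y} (hU : ∀ k, MeasurableSet (U k)) :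
    Measurable (Function.uncurry (GG d al M μ U)) :=
  (measurable_GA d al M hμ hU).pow_const (1 / al)

theorem measurable_GG_right {Y : Type} [MeasurableSpace Y] (d : ℕ) (al M : ℝ) {μ : Y → Fin d → ℝ}
    (hμ : Measurable μ) {U : ℕ → Set Y} (hU : ∀ k, MeasurableSet (U k)) (s : ℝ) :
    Measurable (GG d al M μ U s) :=
  (measurable_GG d al M hμ hU).of_uncurry_left

/-- The integral over the slope and the point of the power `al` of the majorant. -/
theorem sum_all (d : ℕ) (hd : 2 ≤ d) (al θ : ℝ) (hal : 2 / (d : ℝ) < al)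
    (hne : ∀ m : ℕ, (m : ℝ) * al ≠ 1) (hθ0 : 0 < θ) (hθ1 : θ < 1) : ∃ K : ℝ, 0 < K ∧
    ∀ (Y : Type) [MeasurableSpace Y] (ν : Measure Y) [SFinite ν] (V M L T : ℝ)
      (μ : Y → Fin d → ℝ) (U : ℕ → Set Y) (S0 : Set ℝ), Measurable μ → (∀ k, MeasurableSet (U k)) →
      1 ≤ M → 1 ≤ L → 0 ≤ V → 1 ≤ T → ν univ ≤ ENNReal.ofReal V →
      (∀ k, ν (U k) ≤ ENNReal.ofReal (M * (1 / 2) ^ k) +
        (if 2 ^ k ≤ T then ENNReal.ofReal V else 0)) → volume S0 ≤ ENNReal.ofReal L →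
      ∫⁻ s in S0, ∫⁻ y, GG d al M μ U s y ^ al ∂ν ≤
        ENNReal.ofReal (K * M ^ (al + 1) * (L ^ θ * T ^ θ) * (1 + V * T)) := by
  have hd0 : (0 : ℝ) < d := by
    have : (2 : ℝ) ≤ d := by exact_mod_cast hd
    linarith
  have hal0 : 0 < al := lt_trans (by positivity) hal
  obtain ⟨Kf, hKf, Hf⟩ := far_term d hd al hal
  choose KI βI hKI hβI HI using gis_term d hd al θ hal hne hθ0 hθ1
  have hq1 : ∀ I, (1 / 2 : ℝ) ^ βI I < 1 := fun I => gi_half_lt (hβI I)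
  have hq0 : ∀ I, 0 < 1 - (1 / 2 : ℝ) ^ βI I := fun I => by linarith [hq1 I]
  have hsum0 : 0 ≤ ∑ I, KI I * (1 - (1 / 2 : ℝ) ^ βI I)⁻¹ :=
    Finset.sum_nonneg fun I _ => mul_nonneg (hKI I).le (inv_nonneg.2 (hq0 I).le)
  refine ⟨Kf + ∑ I, KI I * (1 - (1 / 2 : ℝ) ^ βI I)⁻¹, by positivity, ?_⟩
  intro Y _ ν _ V M L T μ U S0 hμ hU hM hL hV hT hνV hνU hvol
  have hM0 : 0 < M := by linarith
  have hL0 : 0 < L := by linarith
  have hT0 : 0 < T := by linarith
  have hLθ : 1 ≤ L ^ θ := Real.one_le_rpow hL hθ0.le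
  have hTθ : 1 ≤ T ^ θ := Real.one_le_rpow hT hθ0.le
  have hLT : 1 ≤ L ^ θ * T ^ θ := by nlinarith
  have hVT : V ≤ V * T := le_mul_of_one_le_right hV hT
  have hfar : ∫⁻ s in S0, ∫⁻ y, ENNReal.ofReal ((M * ∏ i, (1 + |s - μ y i|) ^ (-(1 / 2) : ℝ)) ^ al)
      ∂ν ≤ ENNReal.ofReal (Kf * M ^ (al + 1) * (L ^ θ * T ^ θ) * (1 + V * T)) := by
    refine (Hf Y ν V M μ S0 hμ hM hV hνV).trans (ENNReal.ofReal_le_ofReal ?_)
    calc Kf * M ^ al * V = Kf * M ^ al * 1 * V := by ring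
      _ ≤ Kf * M ^ (al + 1) * (L ^ θ * T ^ θ) * (1 + V * T) := by
          gcongr
          · linarith
          · linarith
  have hsplit := lint_split ν S0 _ (fun (I : Finset (Fin d)) k => (GS d M μ U I k).indicator
      (fun z => ENNReal.ofReal (GIs d M (μ z.2) I k z.1 ^ al))) (measurable_far d al M hμ)
      fun I k => (measurable_GIs d al M hμ I k).indicator (measurableSet_GS d M hμ hU I k)
  simp only [GG_rpow d hal0, GA]
  refine (le_of_eq hsplit).trans ?_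
  calc _ ≤ ENNReal.ofReal (Kf * M ^ (al + 1) * (L ^ θ * T ^ θ) * (1 + V * T)) +
          ∑ I : Finset (Fin d), ENNReal.ofReal (KI I * M ^ (al + 1) * (L ^ θ * T ^ θ) *
            (1 + V * T) * (1 - (1 / 2 : ℝ) ^ βI I)⁻¹) := by
        refine add_le_add hfar (Finset.sum_le_sum fun I _ => ?_)
        refine (ENNReal.tsum_le_tsum fun k =>
          HI I Y ν V M L T μ U S0 hμ hU hM hL hV hT hνV hνU hvol k).trans ?_
        have hK := (hKI I).le
        exact gi_geom _ _ (by positivity) (by positivity) (hq1 I)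
    _ = ENNReal.ofReal ((Kf + ∑ I, KI I * (1 - (1 / 2 : ℝ) ^ βI I)⁻¹) * M ^ (al + 1) *
          (L ^ θ * T ^ θ) * (1 + V * T)) := by
        have hnn : ∀ I, 0 ≤ KI I * M ^ (al + 1) * (L ^ θ * T ^ θ) * (1 + V * T) *
            (1 - (1 / 2 : ℝ) ^ βI I)⁻¹ := by
          intro I
          have hK := (hKI I).le
          have := inv_nonneg.2 (hq0 I).le
          positivity
        rw [← ENNReal.ofReal_sum_of_nonneg fun I _ => hnn I, ← ENNReal.ofReal_add (by positivity)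
          (Finset.sum_nonneg fun I _ => hnn I)]
        congr 1
        rw [add_mul, add_mul, add_mul, Finset.sum_mul, Finset.sum_mul, Finset.sum_mul]
        congr 1
        refine Finset.sum_congr rfl fun I _ => ?_
        ring

/-- A smaller exponent without resonance. -/
theorem exists_al0 (d : ℕ) (al : ℝ) (hal : 2 / (d : ℝ) < al) :
    ∃ al0 : ℝ, 2 / (d : ℝ) < al0 ∧ al0 ≤ al ∧ ∀ m : ℕ, (m : ℝ) * al0 ≠ 1 := by
  obtain ⟨x, hx, h1, h2⟩ := exists_irrational_btwn hal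
  refine ⟨x, h1, h2.le, fun m hm => ?_⟩
  have hm0 : (m : ℝ) ≠ 0 := by
    rintro h
    rw [h, zero_mul] at hm
    exact zero_ne_one hm
  apply hx
  refine ⟨(m : ℚ)⁻¹, ?_⟩
  push_cast
  field_simp
  linarith

open Pool.Agent.MP_6cbfb8_an in
/-- The majorant of the values of the chains, with its integral over the slope and the point. -/
theorem sumn (d C : ℕ) (hd : 2 ≤ d) (al : ℝ) (hal : 2 / (d : ℝ) < al)
    (hal' : ∀ m : ℕ, (m : ℝ) * al ≠ 1) : ∃ C' : ℕ, ∀ n : ℕ, ∃ K0 : ℝ, 1 ≤ K0 ∧ ∀ K, K0 ≤ K →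
    ∀ (B : Set (E d)) (μ : E d → Fin d → ℝ) (ρ : ℝ) (X : ℕ → Set (E d)), MeasurableSet B →
      volume B ≤ ENNReal.ofReal K → 0 < ρ → ρ ≤ 1 → 1 ≤ K ^ n * ρ →
      (∀ i, Measurable fun y => μ y i) → (∀ j, MeasurableSet (X j)) →
      (∀ j, volume (X j ∩ B) ≤ ENNReal.ofReal (K ^ C * ((2 : ℝ) ^ j)⁻¹)) →
      ∃ G : ℝ → E d → ℝ≥0∞, Measurable (fun x : ℝ × E d => G x.1 x.2) ∧
        (∀ s, ∀ y ∈ B, ∀ w, 0 ≤ w →
          Geo d C K (μ y) (fun r => ρ ≤ K ^ C * r ∨ ∀ j : ℕ, r ≤ 2 * ((2 : ℝ) ^ j)⁻¹ → y ∈ X j) s w →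
          ENNReal.ofReal w ≤ G s y) ∧
        ∫⁻ s in {s : ℝ | |s| ≤ K ^ n}, ∫⁻ y in B, G s y ^ al ≤
          ENNReal.ofReal (K ^ C') * (1 + volume B / ENNReal.ofReal ρ) := by
  have hal0 : 0 < al := lt_of_le_of_lt (by positivity) hal
  refine ⟨3 + (C + 1) * ⌈al + 1⌉₊ + C, fun n => ?_⟩
  set e : ℕ := 2 * n + C + 3 with he
  have he0 : (0 : ℝ) < e := by rw [he]; positivity
  have he1 : (1 : ℝ) < e := by
    rw [he]
    push_cast
    have : (0 : ℝ) ≤ n := Nat.cast_nonneg n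
    have : (0 : ℝ) ≤ C := Nat.cast_nonneg C
    linarith
  obtain ⟨K', hK', H⟩ := sum_all d hd al (1 / e) hal hal' (by positivity)
    (by rw [div_lt_one he0]; exact he1)
  refine ⟨max (2 ^ d) (max K' 2), (one_le_pow₀ (by norm_num)).trans (le_max_left _ _), ?_⟩
  intro K hK B μ ρ X hB hBK hρ hρ1 hρn hμ hX hXB
  have hKd : (2 : ℝ) ^ d ≤ K := (le_max_left _ _).trans hK
  have hKK' : K' ≤ K := ((le_max_left _ _).trans (le_max_right _ _)).trans hK
  have hK2 : 2 ≤ K := ((le_max_right _ _).trans (le_max_right _ _)).trans hK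
  have hK1 : 1 ≤ K := by linarith
  have hK0 : 0 < K := by linarith
  set M : ℝ := K ^ (C + 1) with hM
  set T : ℝ := 2 * K ^ C / ρ with hT
  set L : ℝ := 2 * K ^ n with hL
  set V : ℝ := (volume B).toReal with hV
  have hKC : 1 ≤ K ^ C := one_le_pow₀ hK1
  have hKn : 1 ≤ K ^ n := one_le_pow₀ hK1
  have hM1 : 1 ≤ M := one_le_pow₀ hK1
  have hT1 : 1 ≤ T := by
    rw [hT, le_div_iff₀ hρ]
    nlinarith
  have hL1 : 1 ≤ L := by rw [hL]; linarith
  have hV0 : 0 ≤ V := ENNReal.toReal_nonneg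
  have hBV : volume B = ENNReal.ofReal V :=
    (ENNReal.ofReal_toReal (ne_top_of_le_ne_top ENNReal.ofReal_ne_top hBK)).symm
  classical
  set U : ℕ → Set (E d) := fun k => if 2 ^ k ≤ T then univ else X k with hU
  have hUm : ∀ k, MeasurableSet (U k) := by
    intro k
    simp only [hU]
    split_ifs
    · exact MeasurableSet.univ
    · exact hX k
  have hhalf : ∀ k : ℕ, (1 / 2 : ℝ) ^ k = ((2 : ℝ) ^ k)⁻¹ := fun k => by rw [one_div, inv_pow]
  have hμm : Measurable μ := measurable_pi_iff.2 hμ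
  refine ⟨GG d al M μ U, measurable_GG d al M hμm hUm, ?_, ?_⟩
  · intro s y _ w hw hgeo
    refine geo_le d C hal0 hK0 (M := M) ?_ μ U
      (fun r y => ρ ≤ K ^ C * r ∨ ∀ j : ℕ, r ≤ 2 * ((2 : ℝ) ^ j)⁻¹ → y ∈ X j) s w y hw ?_ hgeo
    · rw [hM, pow_succ, mul_comm]
      gcongr
    · intro k r hr hk
      simp only [hU]
      split_ifs with hkT
      · exact mem_univ _
      · rw [hhalf] at hk
        rcases hr with hr | hr
        · exfalso
          apply hkT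
          rw [hT, le_div_iff₀ hρ]
          have h2k : (0 : ℝ) < 2 ^ k := by positivity
          calc 2 ^ k * ρ ≤ 2 ^ k * (K ^ C * r) := by gcongr
            _ ≤ 2 ^ k * (K ^ C * (2 * (2 ^ k)⁻¹)) := by gcongr
            _ = 2 * K ^ C := by field_simp
        · exact hr k hk
  · have hmain := H (E d) (volume.restrict B) V M L T μ U {s : ℝ | |s| ≤ K ^ n} hμm hUm hM1 hL1
      hV0 hT1 (by rw [Measure.restrict_apply_univ, hBV]) ?_ ?_
    · refine hmain.trans ?_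
      rw [hBV, ← ENNReal.ofReal_div_of_pos hρ, ← ENNReal.ofReal_one, ← ENNReal.ofReal_add one_pos.le
        (by positivity), ← ENNReal.ofReal_mul (by positivity)]
      refine ENNReal.ofReal_le_ofReal ?_
      -- the powers of `K`
      have h1 : L ^ (1 / (e : ℝ)) * T ^ (1 / (e : ℝ)) ≤ K := by
        rw [← Real.mul_rpow (by positivity) (by positivity)]
        have h2 : L * T ≤ K ^ e := by
          have h3 : ρ⁻¹ ≤ K ^ n := by
            rw [inv_le_iff_one_le_mul₀ hρ]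
            linarith
          calc L * T = 4 * K ^ n * K ^ C * ρ⁻¹ := by
                rw [hL, hT, div_eq_mul_inv]; ring
            _ ≤ (K * K) * K ^ n * K ^ C * K ^ n := by
                gcongr
                nlinarith
            _ = K ^ (2 * n + C + 2) := by ring
            _ ≤ K ^ e := pow_le_pow_right₀ hK1 (by omega)
        calc (L * T) ^ (1 / (e : ℝ)) ≤ (K ^ e) ^ (1 / (e : ℝ)) := by gcongr
          _ = K := by
              rw [← Real.rpow_natCast, ← Real.rpow_mul hK0.le, mul_one_div, div_self he0.ne',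
                Real.rpow_one]
      have h4 : M ^ (al + 1) ≤ K ^ ((C + 1) * ⌈al + 1⌉₊) := by
        rw [hM, pow_mul, ← Real.rpow_natCast (K ^ (C + 1)) ⌈al + 1⌉₊]
        exact Real.rpow_le_rpow_of_exponent_le hM1 (Nat.le_ceil _)
      have h5 : 1 + V * T ≤ K ^ (C + 1) * (1 + V / ρ) := by
        have h6 : V * T = 2 * K ^ C * (V / ρ) := by rw [hT]; ring
        have h7 : 0 ≤ V / ρ := by positivity
        have h8 : 2 * K ^ C ≤ K ^ (C + 1) := by rw [pow_succ, mul_comm]; gcongr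
        have h9 : 1 ≤ K ^ (C + 1) := one_le_pow₀ hK1
        rw [h6]
        nlinarith
      calc K' * M ^ (al + 1) * (L ^ (1 / (e : ℝ)) * T ^ (1 / (e : ℝ))) * (1 + V * T)
          ≤ K * K ^ ((C + 1) * ⌈al + 1⌉₊) * K * (K ^ (C + 1) * (1 + V / ρ)) := by gcongr
        _ = K ^ (3 + (C + 1) * ⌈al + 1⌉₊ + C) * (1 + V / ρ) := by ring
    · intro k
      rw [Measure.restrict_apply (hUm k)]
      simp only [hU]
      split_ifs with hk
      · rw [univ_inter, hBV]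
        exact le_add_of_nonneg_left zero_le
      · rw [add_zero]
        refine (hXB k).trans (ENNReal.ofReal_le_ofReal ?_)
        rw [hhalf, hM]
        gcongr
        omega
    · have h1 : {s : ℝ | |s| ≤ K ^ n} = Icc (-(K ^ n)) (K ^ n) := by
        ext s; simp [abs_le]
      rw [h1, Real.volume_Icc]
      refine ENNReal.ofReal_le_ofReal (le_of_eq ?_)
      rw [hL]; ring

end Pool.Agent.GNP
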