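import Pool.Agent.GNP.Defs6
import Pool.Agent.GNP.SUMN

/-!
Every phase, all dimensions: the majorant of the values of the chains over all slopes, when the
scales are bounded below.
-/

namespace Pool.Agent.GNP

open MeasureTheory Set Pool.Agent.MP_6cbfb8_an
open scoped ENNReal Real

/-- The slope integral of one term, without the length of the set of slopes. -/
theorem gi_slope6 (d : ℕ) (hd : 2 ≤ d) (al : ℝ) (hal : 2 / (d : ℝ) < al)
    (hne : ∀ m : ℕ, (m : ℝ) * al ≠ 1) (I : Finset (Fin d))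
    (hI : 1 ≤ I.card) : ∃ K β : ℝ, 0 < K ∧ 0 < β ∧
    ∀ (M : ℝ) (μ : Fin d → ℝ) (k : ℕ) (S : Set ℝ), 1 ≤ M →
      (∀ s ∈ S, ∀ i ∈ I, |s - μ i| ≤ M * 4 ^ k) →
      ((I.card < 2 ∨ 2 * I.card ≤ d) → ∫⁻ s in S, ENNReal.ofReal (GIs d M μ I k s ^ al) ≤
        ENNReal.ofReal (K * M ^ (al + 1) * ((1 / 2 : ℝ) ^ β) ^ k)) ∧
      (¬ (I.card < 2 ∨ 2 * I.card ≤ d) → ∫⁻ s in S, ENNReal.ofReal (GIs d M μ I k s ^ al) ≤
        ENNReal.ofReal (K * M ^ al * 2 ^ k)) := by
  set m := I.card with hm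
  have hmd : m ≤ d := by
    have := Finset.card_le_univ I
    rwa [Fintype.card_fin] at this
  have hd0 : (0 : ℝ) < d := by
    have : (2 : ℝ) ≤ d := by exact_mod_cast hd
    linarith
  have hdal : 2 < d * al := by
    rw [div_lt_iff₀ hd0] at hal
    linarith
  have hal0 : 0 < al := lt_trans (by positivity) hal
  have hdm : ((d - m : ℕ) : ℝ) = d - m := by rw [Nat.cast_sub hmd]
  by_cases hcase : m < 2 ∨ 2 * m ≤ d
  · rcases lt_or_gt_of_ne (hne m) with h | h
    · obtain ⟨K, hK, H⟩ := gi_int2 d m hI hmd al hal0 h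
      refine ⟨K, d * al - 2, hK, by linarith, ?_⟩
      intro M μ k S hM hroot
      refine ⟨fun _ => ?_, fun h => absurd hcase h⟩
      rw [← gi_half]
      exact H M μ I k S hM hm.symm hroot
    · obtain ⟨K, hK, H⟩ := gi_int1 d m hI al h
      have h2m : 2 * m ≤ d := by
        rcases hcase with h1 | h1
        · have : m = 1 := by omega
          omega
        · exact h1
      have h2m' : 2 * (m : ℝ) ≤ d := by exact_mod_cast h2m
      refine ⟨K, (d - m : ℕ) * al - 1, hK, ?_, ?_⟩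
      · rw [hdm]
        nlinarith
      intro M μ k S hM hroot
      refine ⟨fun _ => ?_, fun h => absurd hcase h⟩
      rw [← gi_half]
      refine (H M μ I k S (by linarith) hm.symm).trans (ENNReal.ofReal_le_ofReal ?_)
      gcongr
      linarith
  · push Not at hcase
    have h1 : 1 < m * al := by
      have : (d : ℝ) < 2 * m := by exact_mod_cast hcase.2
      nlinarith
    obtain ⟨K, hK, H⟩ := gi_int1 d m hI al h1
    refine ⟨K, 1, by positivity, one_pos, ?_⟩
    intro M μ k S hM hroot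
    refine ⟨fun h => absurd h (by push Not; exact hcase), fun _ => ?_⟩
    have hM0 : 0 < M := by linarith
    refine (H M μ I k S (by linarith) hm.symm).trans (ENNReal.ofReal_le_ofReal ?_)
    have h2 : (1 / 2 : ℝ) ^ ((k : ℝ) * ((d - m : ℕ) * al - 1)) ≤ 2 ^ k := by
      calc (1 / 2 : ℝ) ^ ((k : ℝ) * ((d - m : ℕ) * al - 1)) ≤ (1 / 2 : ℝ) ^ (-(k : ℝ)) := by
            refine Real.rpow_le_rpow_of_exponent_ge (by norm_num) (by norm_num) ?_
            have h3 : 0 ≤ (k : ℝ) * ((d - m : ℕ) * al) := by positivity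
            nlinarith
        _ = 2 ^ k := by
            rw [Real.rpow_neg (by norm_num), Real.rpow_natCast, one_div, inv_pow, inv_inv]
    gcongr

/-- The double integral of one term, if the sets of unstable points are empty at small scales. -/
theorem gi_term6 (d : ℕ) (hd : 2 ≤ d) (al : ℝ) (hal : 2 / (d : ℝ) < al)
    (hne : ∀ m : ℕ, (m : ℝ) * al ≠ 1) (I : Finset (Fin d)) :
    ∃ K β : ℝ, 0 < K ∧ 0 < β ∧
    ∀ (Y : Type) [MeasurableSpace Y] (ν : Measure Y) [SFinite ν] (V M : ℝ) (N : ℕ)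
      (μ : Y → Fin d → ℝ) (U : ℕ → Set Y), Measurable μ → (∀ k, MeasurableSet (U k)) →
      1 ≤ M → 0 ≤ V → ν univ ≤ ENNReal.ofReal V →
      (∀ k, ν (U k) ≤ ENNReal.ofReal (M * (1 / 2) ^ k)) → (∀ k, N < k → U k = ∅) →
      ∀ k, ∫⁻ s in (univ : Set ℝ), ∫⁻ y, (GS d M μ U I k).indicator
      (fun z => ENNReal.ofReal (GIs d M (μ z.2) I k z.1 ^ al)) (s, y) ∂ν ≤
      ENNReal.ofReal (K * M ^ (al + 1) * (1 + V) * ((1 / 2 : ℝ) ^ β) ^ k) +
        ENNReal.ofReal (K * M ^ (al + 1) * (1 + V) * if k ≤ N then 1 else 0) := by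
  by_cases hI : 1 ≤ I.card
  swap
  · refine ⟨1, 1, one_pos, one_pos, ?_⟩
    intro Y _ ν _ V M N μ U hμ hU hM hV hνV hνU hvol k
    have : ∀ z, (GS d M μ U I k).indicator
        (fun z => ENNReal.ofReal (GIs d M (μ z.2) I k z.1 ^ al)) z = 0 := fun z =>
      indicator_of_notMem (fun h => hI h.1) _
    simp [this]
  obtain ⟨K, β, hK, hβ, H⟩ := gi_slope6 d hd al hal hne I hI
  refine ⟨K, β, hK, hβ, ?_⟩
  intro Y _ ν _ V M N μ U hμ hU hM hV hνV hνU hN k
  have hM0 : 0 < M := by linarith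
  have hq : 0 ≤ ((1 / 2 : ℝ) ^ β) ^ k := by positivity
  have hfm : Measurable ((GS d M μ U I k).indicator
      (fun z => ENNReal.ofReal (GIs d M (μ z.2) I k z.1 ^ al))) :=
    (measurable_GIs d al M hμ I k).indicator (measurableSet_GS d M hμ hU I k)
  have hslope : ∀ (c : ℝ≥0∞) (y : Y),
      ∫⁻ s in {s | ∀ i ∈ I, |s - μ y i| ≤ M * 4 ^ k},
        ENNReal.ofReal (GIs d M (μ y) I k s ^ al) ≤ c →
      ∫⁻ s in (univ : Set ℝ), (GS d M μ U I k).indicator
        (fun z => ENNReal.ofReal (GIs d M (μ z.2) I k z.1 ^ al)) (s, y) ≤ c := by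
    intro c y hc
    refine le_trans ?_ hc
    have hms : MeasurableSet {s : ℝ | ∀ i ∈ I, |s - μ y i| ≤ M * 4 ^ k} := by
      have : {s : ℝ | ∀ i ∈ I, |s - μ y i| ≤ M * 4 ^ k} =
          ⋂ i ∈ I, {s : ℝ | |s - μ y i| ≤ M * 4 ^ k} := by
        ext z; simp
      rw [this]
      refine Finset.measurableSet_biInter _ fun i _ => ?_
      exact measurableSet_le (by fun_prop) measurable_const
    rw [Measure.restrict_univ, ← lintegral_indicator hms]
    refine lintegral_mono fun s => ?_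
    by_cases hs : (s, y) ∈ GS d M μ U I k
    · rw [indicator_of_mem hs, indicator_of_mem
        (show s ∈ {s : ℝ | ∀ i ∈ I, |s - μ y i| ≤ M * 4 ^ k} from hs.2.2)]
    · rw [indicator_of_notMem hs]
      exact zero_le
  by_cases hcase : I.card < 2 ∨ 2 * I.card ≤ d
  · refine le_trans ?_ le_self_add
    refine (lint_swap_le ν univ _ hfm _ univ MeasurableSet.univ (fun y _ => hslope _ y
      ((H M (μ y) k _ hM fun s hs => hs).1 hcase))
      fun y hy => absurd (mem_univ y) hy).trans ?_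
    refine (mul_le_mul_right hνV _).trans ?_
    rw [← ENNReal.ofReal_mul (by positivity)]
    refine ENNReal.ofReal_le_ofReal ?_
    calc K * M ^ (al + 1) * ((1 / 2 : ℝ) ^ β) ^ k * V
        = K * M ^ (al + 1) * V * ((1 / 2 : ℝ) ^ β) ^ k := by ring
      _ ≤ K * M ^ (al + 1) * (1 + V) * ((1 / 2 : ℝ) ^ β) ^ k := by
          gcongr
          linarith
  · have h2 : 2 ≤ I.card := by
      push Not at hcase
      exact hcase.1
    refine le_trans ?_ le_add_self
    have hz : ∀ y, y ∉ U k → ∀ s, (GS d M μ U I k).indicator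
        (fun z => ENNReal.ofReal (GIs d M (μ z.2) I k z.1 ^ al)) (s, y) = 0 :=
      fun y hy s => indicator_of_notMem (fun h => hy (h.2.1 h2)) _
    by_cases hk : k ≤ N
    · rw [if_pos hk]
      refine (lint_swap_le ν univ _ hfm _ (U k) (hU k) (fun y _ => hslope _ y
        ((H M (μ y) k _ hM fun s hs => hs).2 hcase)) hz).trans ?_
      refine (mul_le_mul_right (hνU k) _).trans ?_
      rw [← ENNReal.ofReal_mul (by positivity)]
      refine ENNReal.ofReal_le_ofReal ?_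
      have h3 : (2 : ℝ) ^ k * (1 / 2) ^ k = 1 := by rw [← mul_pow]; norm_num
      have h4 : M ^ (al + 1) = M ^ al * M := by rw [Real.rpow_add hM0, Real.rpow_one]
      calc K * M ^ al * 2 ^ k * (M * (1 / 2) ^ k)
          = K * (M ^ al * M) * 1 * (2 ^ k * (1 / 2) ^ k) := by ring
        _ = K * M ^ (al + 1) * 1 * 1 := by
            rw [h3, h4]
        _ ≤ K * M ^ (al + 1) * (1 + V) * 1 := by
            gcongr
            linarith
    · push Not at hk
      have h0 : ∀ s y, (GS d M μ U I k).indicator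
        (fun z => ENNReal.ofReal (GIs d M (μ z.2) I k z.1 ^ al)) (s, y) = 0 := fun s y =>
          hz y (by rw [hN k hk]; exact notMem_empty y) s
      simp [h0]

/-- The integral over all slopes and all points of the power `al` of the majorant, if the sets of
unstable points are empty at small scales. -/
theorem sum_all6 (d : ℕ) (hd : 2 ≤ d) (al : ℝ) (hal : 2 / (d : ℝ) < al)
    (hne : ∀ m : ℕ, (m : ℝ) * al ≠ 1) : ∃ K : ℝ, 0 < K ∧
    ∀ (Y : Type) [MeasurableSpace Y] (ν : Measure Y) [SFinite ν] (V M : ℝ) (N : ℕ)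
      (μ : Y → Fin d → ℝ) (U : ℕ → Set Y), Measurable μ → (∀ k, MeasurableSet (U k)) →
      1 ≤ M → 0 ≤ V → ν univ ≤ ENNReal.ofReal V →
      (∀ k, ν (U k) ≤ ENNReal.ofReal (M * (1 / 2) ^ k)) → (∀ k, N < k → U k = ∅) →
      ∫⁻ s, ∫⁻ y, GG d al M μ U s y ^ al ∂ν ≤
        ENNReal.ofReal (K * M ^ (al + 1) * (1 + V) * (N + 2)) := by
  have hd0 : (0 : ℝ) < d := by
    have : (2 : ℝ) ≤ d := by exact_mod_cast hd
    linarith
  have hal0 : 0 < al := lt_trans (by positivity) hal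
  obtain ⟨Kf, hKf, Hf⟩ := far_term d hd al hal
  choose KI βI hKI hβI HI using gi_term6 d hd al hal hne
  have hq1 : ∀ I, (1 / 2 : ℝ) ^ βI I < 1 := fun I => gi_half_lt (hβI I)
  have hq0 : ∀ I, 0 < 1 - (1 / 2 : ℝ) ^ βI I := fun I => by linarith [hq1 I]
  have hq2 : ∀ I, 0 < (1 - (1 / 2 : ℝ) ^ βI I)⁻¹ := fun I => inv_pos.2 (hq0 I)
  have hsum0 : 0 ≤ ∑ I, KI I * ((1 - (1 / 2 : ℝ) ^ βI I)⁻¹ + 1) :=
    Finset.sum_nonneg fun I _ => mul_nonneg (hKI I).le (by linarith [hq2 I])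
  refine ⟨Kf + ∑ I, KI I * ((1 - (1 / 2 : ℝ) ^ βI I)⁻¹ + 1), by positivity, ?_⟩
  intro Y _ ν _ V M N μ U hμ hU hM hV hνV hνU hN
  have hM0 : 0 < M := by linarith
  have hfar : ∫⁻ s in (univ : Set ℝ), ∫⁻ y,
      ENNReal.ofReal ((M * ∏ i, (1 + |s - μ y i|) ^ (-(1 / 2) : ℝ)) ^ al)
      ∂ν ≤ ENNReal.ofReal (Kf * M ^ (al + 1) * (1 + V) * (N + 2)) := by
    refine (Hf Y ν V M μ univ hμ hM hV hνV).trans (ENNReal.ofReal_le_ofReal ?_)
    calc Kf * M ^ al * V = Kf * M ^ al * V * 1 := by ring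
      _ ≤ Kf * M ^ (al + 1) * (1 + V) * (N + 2) := by
          gcongr
          · linarith
          · linarith
          · have : (0 : ℝ) ≤ N := Nat.cast_nonneg N
            linarith
  have hsplit := lint_split ν univ _ (fun (I : Finset (Fin d)) k => (GS d M μ U I k).indicator
      (fun z => ENNReal.ofReal (GIs d M (μ z.2) I k z.1 ^ al))) (measurable_far d al M hμ)
      fun I k => (measurable_GIs d al M hμ I k).indicator (measurableSet_GS d M hμ hU I k)
  have hterm : ∀ I : Finset (Fin d), ∑' k, ∫⁻ s in (univ : Set ℝ), ∫⁻ y,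
      (GS d M μ U I k).indicator
      (fun z => ENNReal.ofReal (GIs d M (μ z.2) I k z.1 ^ al)) (s, y) ∂ν ≤
      ENNReal.ofReal (KI I * ((1 - (1 / 2 : ℝ) ^ βI I)⁻¹ + 1) * M ^ (al + 1) * (1 + V) *
        (N + 2)) := by
    intro I
    have hK := hKI I
    have h1 : (0 : ℝ) ≤ KI I * M ^ (al + 1) * (1 + V) := by positivity
    refine (ENNReal.tsum_le_tsum fun k => HI I Y ν V M N μ U hμ hU hM hV hνV hνU hN k).trans ?_
    rw [ENNReal.tsum_add]
    have h2 : ∑' k : ℕ, ENNReal.ofReal (KI I * M ^ (al + 1) * (1 + V) * if k ≤ N then 1 else 0) =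
        ENNReal.ofReal (KI I * M ^ (al + 1) * (1 + V) * (N + 1)) := by
      rw [tsum_eq_sum (s := Finset.range (N + 1))]
      · have h3 : ∀ k ∈ Finset.range (N + 1),
            ENNReal.ofReal (KI I * M ^ (al + 1) * (1 + V) * if k ≤ N then 1 else 0) =
            ENNReal.ofReal (KI I * M ^ (al + 1) * (1 + V)) := by
          intro k hk
          rw [Finset.mem_range] at hk
          rw [if_pos (by omega), mul_one]
        rw [Finset.sum_congr rfl h3, Finset.sum_const, Finset.card_range, nsmul_eq_mul,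
          show KI I * M ^ (al + 1) * (1 + V) * (N + 1) =
            ((N + 1 : ℕ) : ℝ) * (KI I * M ^ (al + 1) * (1 + V)) by push_cast; ring,
          ENNReal.ofReal_mul (Nat.cast_nonneg _), ENNReal.ofReal_natCast]
      · intro k hk
        rw [Finset.mem_range] at hk
        rw [if_neg (by omega), mul_zero, ENNReal.ofReal_zero]
    rw [h2]
    refine (add_le_add_left (gi_geom _ _ h1 (by positivity) (hq1 I)) _).trans ?_
    have h4 := hq2 I
    rw [← ENNReal.ofReal_add (by positivity) (by positivity)]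
    refine ENNReal.ofReal_le_ofReal ?_
    have h5 : (0 : ℝ) ≤ N := Nat.cast_nonneg N
    calc KI I * M ^ (al + 1) * (1 + V) * (1 - (1 / 2 : ℝ) ^ βI I)⁻¹ +
          KI I * M ^ (al + 1) * (1 + V) * (N + 1)
        = KI I * M ^ (al + 1) * (1 + V) * ((1 - (1 / 2 : ℝ) ^ βI I)⁻¹ + (N + 1)) := by ring
      _ ≤ KI I * M ^ (al + 1) * (1 + V) * (((1 - (1 / 2 : ℝ) ^ βI I)⁻¹ + 1) * (N + 2)) := by
          gcongr
          nlinarith
      _ = _ := by ring
  have hmain : ∫⁻ s, ∫⁻ y, GG d al M μ U s y ^ al ∂ν =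
      (∫⁻ s in (univ : Set ℝ), ∫⁻ y,
        ENNReal.ofReal ((M * ∏ i, (1 + |s - μ y i|) ^ (-(1 / 2) : ℝ)) ^ al) ∂ν) +
      ∑ I : Finset (Fin d), ∑' k, ∫⁻ s in (univ : Set ℝ), ∫⁻ y, (GS d M μ U I k).indicator
      (fun z => ENNReal.ofReal (GIs d M (μ z.2) I k z.1 ^ al)) (s, y) ∂ν := by
    simp only [Measure.restrict_univ] at hsplit ⊢
    simp only [GG_rpow d hal0, GA]
    exact hsplit
  rw [hmain]
  refine (add_le_add hfar (Finset.sum_le_sum fun I _ => hterm I)).trans (le_of_eq ?_)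
  have hnn : ∀ I, 0 ≤ KI I * ((1 - (1 / 2 : ℝ) ^ βI I)⁻¹ + 1) * M ^ (al + 1) * (1 + V) *
      (N + 2) := by
    intro I
    have hK := hKI I
    have := hq2 I
    positivity
  rw [← ENNReal.ofReal_sum_of_nonneg fun I _ => hnn I, ← ENNReal.ofReal_add (by positivity)
    (Finset.sum_nonneg fun I _ => hnn I)]
  congr 1
  rw [add_mul, add_mul, add_mul, Finset.sum_mul, Finset.sum_mul, Finset.sum_mul]

theorem sint6 (d C : ℕ) (hd : 2 ≤ d) (al : ℝ) (hal : 2 / (d : ℝ) < al)
    (hal' : ∀ m : ℕ, (m : ℝ) * al ≠ 1) : ∃ C' : ℕ, ∀ n : ℕ, ∃ K0 : ℝ, 1 ≤ K0 ∧ ∀ K, K0 ≤ K →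
    ∀ (B : Set (E d)) (μ : E d → Fin d → ℝ) (X : ℕ → Set (E d)), MeasurableSet B →
      volume B ≤ ENNReal.ofReal K → (∀ i, Measurable fun y => μ y i) → (∀ j, MeasurableSet (X j)) →
      (∀ j, volume (X j ∩ B) ≤ ENNReal.ofReal (K ^ C * ((2 : ℝ) ^ j)⁻¹)) →
      ∃ G : ℝ → E d → ℝ≥0∞, Measurable (fun x : ℝ × E d => G x.1 x.2) ∧
        (∀ s, ∀ y ∈ B, ∀ w, 0 ≤ w →
          GeoN d C n K (μ y) (fun r => ∀ j : ℕ, r ≤ ((2 : ℝ) ^ j)⁻¹ → y ∈ X j) s w →
          ENNReal.ofReal w ≤ G s y) ∧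
        ∫⁻ s, ∫⁻ y in B, G s y ^ al ≤ ENNReal.ofReal (K ^ C') := by
  have hd0 : (0 : ℝ) < d := by
    have : (2 : ℝ) ≤ d := by exact_mod_cast hd
    linarith
  have hal0 : 0 < al := lt_trans (by positivity) hal
  obtain ⟨W, hW, HW⟩ := sum_all6 d hd al hal hal'
  set c1 : ℕ := ⌈(C : ℝ) * (al + 1)⌉₊ with hc1
  refine ⟨c1 + 3, fun n => ?_⟩
  -- the number of scales is small
  obtain ⟨Ka, hKa⟩ : ∃ Ka : ℝ, ∀ K, Ka ≤ K → 2 * K ^ n < (2 : ℝ) ^ K := by
    have h1 := (isLittleO_pow_exp_pos_mul_atTop (k := n) (Real.log_pos one_lt_two)).bound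
      (show (0 : ℝ) < 1 / 4 by norm_num)
    obtain ⟨Ka, hKa⟩ := Filter.eventually_atTop.1 h1
    refine ⟨Ka, fun K hK => ?_⟩
    have h2 := hKa K hK
    rw [Real.norm_eq_abs, Real.norm_eq_abs, abs_of_pos (Real.exp_pos _)] at h2
    have h3 : (2 : ℝ) ^ K = Real.exp (Real.log 2 * K) := Real.rpow_def_of_pos two_pos K
    rw [h3]
    have h4 := le_abs_self (K ^ n)
    have h5 := Real.exp_pos (Real.log 2 * K)
    linarith
  refine ⟨max 1 (max Ka (6 * W * (2 ^ (d + 1)) ^ (al + 1))), le_max_left _ _, ?_⟩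
  intro K hK B μ X hB hvB hμ hX hvX
  have hK1 : 1 ≤ K := (le_max_left _ _).trans hK
  have hK2 : Ka ≤ K := ((le_max_left _ _).trans (le_max_right _ _)).trans hK
  have hK3 : 6 * W * (2 ^ (d + 1)) ^ (al + 1) ≤ K :=
    ((le_max_right _ _).trans (le_max_right _ _)).trans hK
  have hK0 : 0 < K := by linarith
  set M : ℝ := 2 ^ (d + 1) * K ^ C with hM
  have hKC : 1 ≤ K ^ C := one_le_pow₀ hK1
  have h2d : (1 : ℝ) ≤ 2 ^ d := one_le_pow₀ (by norm_num)
  have h2d1 : (2 : ℝ) ≤ 2 ^ (d + 1) := by rw [pow_succ]; linarith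
  have hM1 : 1 ≤ M := by nlinarith
  set N : ℕ := ⌊K⌋₊ with hN
  set U : ℕ → Set (E d) := fun k => if k ≤ N then X (k - 1) else ∅ with hU
  have hUm : ∀ k, MeasurableSet (U k) := by
    intro k
    simp only [hU]
    split_ifs
    · exact hX _
    · exact MeasurableSet.empty
  have hμ' : Measurable μ := measurable_pi_iff.2 hμ
  refine ⟨GG d al M μ U, measurable_GG d al M hμ' hUm, ?_, ?_⟩
  · intro s y hy w hw hgeo
    refine geo_le d C (K := K) hal0 hK0 ?_ μ U (fun r y => 1 ≤ K ^ n * r ∧ r ≤ 1 ∧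
      ∀ j : ℕ, r ≤ ((2 : ℝ) ^ j)⁻¹ → y ∈ X j) s w y hw ?_ ?_
    · rw [hM, pow_succ]
      nlinarith
    · rintro k r ⟨hr1, hr2, hr3⟩ hrk
      have hkN : k ≤ N := by
        by_contra hlt
        push Not at hlt
        have h1 : K < k := lt_of_lt_of_le (Nat.lt_floor_add_one K) (by exact_mod_cast hlt)
        have h2 : (2 : ℝ) ^ K ≤ 2 ^ k := by
          rw [← Real.rpow_natCast]
          exact Real.rpow_le_rpow_of_exponent_le one_le_two h1.le
        have h3 := hKa K hK2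
        have h4 : (0 : ℝ) < 2 ^ k := by positivity
        have h5 : K ^ n * r ≤ K ^ n * (2 * (1 / 2) ^ k) :=
          mul_le_mul_of_nonneg_left hrk (by positivity)
        have h6 : (1 : ℝ) * 2 ^ k ≤ K ^ n * (2 * (1 / 2) ^ k) * 2 ^ k := by
          gcongr
          linarith
        have h7 : K ^ n * (2 * (1 / 2) ^ k) * 2 ^ k = 2 * K ^ n := by
          have : (1 / 2 : ℝ) ^ k * 2 ^ k = 1 := by rw [← mul_pow]; norm_num
          calc K ^ n * (2 * (1 / 2) ^ k) * 2 ^ k = 2 * K ^ n * ((1 / 2 : ℝ) ^ k * 2 ^ k) := by ring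
            _ = _ := by rw [this, mul_one]
        linarith
      simp only [hU, if_pos hkN]
      refine hr3 _ ?_
      rcases Nat.eq_zero_or_pos k with hk0 | hk0
      · subst hk0
        simpa using hr2
      · obtain ⟨l, rfl⟩ : ∃ l, k = l + 1 := ⟨k - 1, by omega⟩
        refine hrk.trans (le_of_eq ?_)
        rw [Nat.add_sub_cancel, pow_succ, one_div, inv_pow]
        ring
    · rcases hgeo with h | ⟨I, r, hI, hr0, hr1, hroot, hw1, hw2, hun⟩
      · exact Or.inl h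
      · refine Or.inr ⟨I, r, hI, ?_, hr1, hroot, hw1, hw2, fun h2 => ⟨hr0, hr1, hun h2⟩⟩
        by_contra hneg
        push Not at hneg
        have : K ^ n * r ≤ 0 := mul_nonpos_of_nonneg_of_nonpos (by positivity) hneg
        linarith
  · have hνU : ∀ k, (volume.restrict B) (U k) ≤ ENNReal.ofReal (M * (1 / 2) ^ k) := by
      intro k
      by_cases hk : k ≤ N
      · simp only [hU, if_pos hk]
        rw [Measure.restrict_apply (hX _)]
        refine (hvX _).trans (ENNReal.ofReal_le_ofReal ?_)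
        have h1 : ((2 : ℝ) ^ (k - 1))⁻¹ ≤ 2 * (1 / 2) ^ k := by
          rcases Nat.eq_zero_or_pos k with hk0 | hk0
          · subst hk0
            norm_num
          · obtain ⟨l, rfl⟩ : ∃ l, k = l + 1 := ⟨k - 1, by omega⟩
            rw [Nat.add_sub_cancel, pow_succ, one_div, inv_pow]
            linarith [inv_pos.2 (show (0 : ℝ) < 2 ^ l by positivity)]
        calc K ^ C * ((2 : ℝ) ^ (k - 1))⁻¹ ≤ K ^ C * (2 * (1 / 2) ^ k) := by gcongr
          _ = 2 * K ^ C * (1 / 2) ^ k := by ring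
          _ ≤ M * (1 / 2) ^ k := by
              rw [hM]
              gcongr
      · simp only [hU, if_neg hk]
        simp
    have hνB : (volume.restrict B) univ ≤ ENNReal.ofReal K := by
      rw [Measure.restrict_apply MeasurableSet.univ, univ_inter]
      exact hvB
    refine (HW (E d) (volume.restrict B) K M N μ U hμ' hUm hM1 hK0.le hνB hνU ?_).trans
      (ENNReal.ofReal_le_ofReal ?_)
    · intro k hk
      simp only [hU]
      rw [if_neg (by omega)]
    · have hNK : (N : ℝ) ≤ K := Nat.floor_le hK0.le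
      have h1 : M ^ (al + 1) ≤ (2 ^ (d + 1)) ^ (al + 1) * K ^ c1 := by
        rw [hM, Real.mul_rpow (by positivity) (by positivity)]
        gcongr
        rw [← Real.rpow_natCast, ← Real.rpow_mul hK0.le, ← Real.rpow_natCast]
        exact Real.rpow_le_rpow_of_exponent_le hK1 (Nat.le_ceil _)
      calc W * M ^ (al + 1) * (1 + K) * (N + 2)
          ≤ W * ((2 ^ (d + 1)) ^ (al + 1) * K ^ c1) * (2 * K) * (3 * K) := by
            gcongr
            · linarith
            · linarith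
        _ = (6 * W * (2 ^ (d + 1)) ^ (al + 1)) * (K ^ c1 * K * K) := by ring
        _ ≤ K * (K ^ c1 * K * K) := by gcongr
        _ = K ^ (c1 + 3) := by ring

end Pool.Agent.GNP
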