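import Pool.Agent.GNP.DefsH
import Pool.Agent.GNP.SINT6

/-!
Every phase, all dimensions: the majorant of the active chains with value at most `ρ`.
-/

namespace Pool.Agent.GNP

open MeasureTheory Set Pool.Agent.MP_6cbfb8_an
open scoped ENNReal Real RealInnerProductSpace ContDiff

/-- The terms of the majorant at the scales comparable to `ρ`. -/
noncomputable def HSAb {Y : Type} (d : ℕ) (al M ρ : ℝ) (μ : Y → Fin d → ℝ) (k : ℕ)
    (I : Finset (Fin d)) (z : ℝ × Y) : ℝ≥0∞ :=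
  {z : ℝ × Y | 2 ≤ I.card ∧ ρ ≤ M * (1 / 2) ^ k ∧ ∀ i ∈ I, |z.1 - μ z.2 i| ≤ M * 4 ^ k}.indicator
    (fun z => if I.card = d then
      ENNReal.ofReal (ρ ^ (1 / (d : ℝ))) *
        ENNReal.ofReal (GIs d M (μ z.2) I k z.1 ^ (al - 1 / (d : ℝ)))
      else ENNReal.ofReal (GIs d M (μ z.2) I k z.1 ^ al)) z

theorem hsa_measurableSet {Y : Type} [MeasurableSpace Y] (d : ℕ) (M ρ : ℝ) {μ : Y → Fin d → ℝ}
    (hμ : Measurable μ) (k : ℕ) (I : Finset (Fin d)) :
    MeasurableSet {z : ℝ × Y | 2 ≤ I.card ∧ ρ ≤ M * (1 / 2) ^ k ∧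
      ∀ i ∈ I, |z.1 - μ z.2 i| ≤ M * 4 ^ k} := by
  have h1 : MeasurableSet {z : ℝ × Y | ∀ i ∈ I, |z.1 - μ z.2 i| ≤ M * 4 ^ k} := by
    have : {z : ℝ × Y | ∀ i ∈ I, |z.1 - μ z.2 i| ≤ M * 4 ^ k} =
        ⋂ i ∈ I, {z : ℝ × Y | |z.1 - μ z.2 i| ≤ M * 4 ^ k} := by
      ext z; simp
    rw [this]
    refine Finset.measurableSet_biInter _ fun i _ => ?_
    have h2 : Measurable fun z : ℝ × Y => μ z.2 i := (measurable_pi_iff.1 hμ i).comp measurable_snd
    exact measurableSet_le (measurable_fst.sub h2).abs measurable_const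
  exact (MeasurableSet.const (2 ≤ I.card)).inter ((MeasurableSet.const _).inter h1)

theorem hsa_measurable {Y : Type} [MeasurableSpace Y] (d : ℕ) (al M ρ : ℝ) {μ : Y → Fin d → ℝ}
    (hμ : Measurable μ) (k : ℕ) (I : Finset (Fin d)) : Measurable (HSAb d al M ρ μ k I) := by
  unfold HSAb
  refine Measurable.indicator ?_ (hsa_measurableSet d M ρ hμ k I)
  split_ifs
  · exact (measurable_GIs d _ M hμ I k).const_mul _
  · exact measurable_GIs d _ M hμ I k

/-- The slope integral of one term at the scales comparable to `ρ`. -/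
theorem hsa_slope (d : ℕ) (hd : 2 ≤ d) (al : ℝ) (hal : 2 / (d : ℝ) < al)
    (hne : ∀ m : ℕ, (m : ℝ) * al ≠ 1) (I : Finset (Fin d)) (hI : 2 ≤ I.card) :
    ∃ K : ℝ, 0 < K ∧ ∀ (M ρ : ℝ) (μ : Fin d → ℝ) (k : ℕ) (S : Set ℝ), 1 ≤ M → 0 < ρ → ρ ≤ 1 →
      ρ ≤ M * (1 / 2) ^ k → (∀ s ∈ S, ∀ i ∈ I, |s - μ i| ≤ M * 4 ^ k) →
      ∫⁻ s in S, (if I.card = d then ENNReal.ofReal (ρ ^ (1 / (d : ℝ))) *
        ENNReal.ofReal (GIs d M μ I k s ^ (al - 1 / (d : ℝ)))
        else ENNReal.ofReal (GIs d M μ I k s ^ al)) ≤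
        ENNReal.ofReal (K * M ^ (al + 2) * ρ ^ (1 / (d : ℝ) - 1)) := by
  have hmd : I.card ≤ d := by
    have := Finset.card_le_univ I
    rwa [Fintype.card_fin] at this
  have hd2 : (2 : ℝ) ≤ d := by exact_mod_cast hd
  have hd0 : (0 : ℝ) < d := by linarith
  have hdal : 2 < d * al := by
    rw [div_lt_iff₀ hd0] at hal
    linarith
  have hal0 : 0 < al := lt_trans (by positivity) hal
  have hd1 : 1 / (d : ℝ) ≤ 1 := by
    rw [div_le_one hd0]
    linarith
  have hd1' : 0 < 1 / (d : ℝ) := by positivity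
  have hal1 : 1 / (d : ℝ) < al := by
    refine lt_of_le_of_lt ?_ hal
    gcongr
    norm_num
  have hρe : ∀ ρ : ℝ, 0 < ρ → ρ ≤ 1 → 1 ≤ ρ ^ (1 / (d : ℝ) - 1) := fun ρ h0 h1 =>
    Real.one_le_rpow_of_pos_of_le_one_of_nonpos h0 h1 (by linarith)
  by_cases hId : I.card = d
  · have h1 : 1 < (d : ℝ) * (al - 1 / d) := by
      rw [mul_sub, mul_one_div_cancel hd0.ne']
      linarith
    obtain ⟨K, hK, H⟩ := gi_int1 d d (by omega) (al - 1 / (d : ℝ)) h1
    refine ⟨K, hK, ?_⟩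
    intro M ρ μ k S hM hρ hρ1 hρk _
    have hM0 : 0 < M := by linarith
    simp only [if_pos hId]
    rw [lintegral_const_mul' _ _ ENNReal.ofReal_ne_top]
    refine (mul_le_mul_right (H M μ I k S hM0 hId) _).trans ?_
    rw [← ENNReal.ofReal_mul (by positivity)]
    refine ENNReal.ofReal_le_ofReal ?_
    have h2 : (1 / 2 : ℝ) ^ ((k : ℝ) * ((d - d : ℕ) * (al - 1 / (d : ℝ)) - 1)) ≤ M / ρ := by
      rw [Nat.sub_self, Nat.cast_zero, zero_mul, zero_sub, mul_neg, mul_one,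
        Real.rpow_neg (by norm_num), Real.rpow_natCast, le_div_iff₀ hρ,
        inv_mul_le_iff₀ (by positivity)]
      linarith
    have h3 : ρ ^ (1 / (d : ℝ)) * (1 / ρ) = ρ ^ (1 / (d : ℝ) - 1) := by
      rw [Real.rpow_sub_one hρ.ne']
      ring
    have h4 : M ^ (al - 1 / (d : ℝ)) * M ≤ M ^ (al + 2) := by
      rw [← Real.rpow_add_one hM0.ne']
      exact Real.rpow_le_rpow_of_exponent_le hM (by linarith)
    calc ρ ^ (1 / (d : ℝ)) * (K * M ^ (al - 1 / (d : ℝ)) *
          (1 / 2 : ℝ) ^ ((k : ℝ) * ((d - d : ℕ) * (al - 1 / (d : ℝ)) - 1)))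
        ≤ ρ ^ (1 / (d : ℝ)) * (K * M ^ (al - 1 / (d : ℝ)) * (M / ρ)) := by gcongr
      _ = K * (M ^ (al - 1 / (d : ℝ)) * M) * (ρ ^ (1 / (d : ℝ)) * (1 / ρ)) := by ring
      _ ≤ K * M ^ (al + 2) * ρ ^ (1 / (d : ℝ) - 1) := by
          rw [h3]
          gcongr
  · have hmd' : I.card + 1 ≤ d := by omega
    rcases lt_or_gt_of_ne (hne I.card) with h | h
    · obtain ⟨K, hK, H⟩ := gi_int2 d I.card (by omega) hmd al hal0 h
      refine ⟨K, hK, ?_⟩
      intro M ρ μ k S hM hρ hρ1 hρk hroot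
      have hM0 : 0 < M := by linarith
      simp only [if_neg hId]
      refine (H M μ I k S hM rfl hroot).trans (ENNReal.ofReal_le_ofReal ?_)
      have h2 : (1 / 2 : ℝ) ^ ((k : ℝ) * (d * al - 2)) ≤ 1 :=
        Real.rpow_le_one (by norm_num) (by norm_num)
          (mul_nonneg (Nat.cast_nonneg _) (by linarith))
      have h3 := hρe ρ hρ hρ1
      have h4 : M ^ (al + 1) ≤ M ^ (al + 2) :=
        Real.rpow_le_rpow_of_exponent_le hM (by linarith)
      calc K * M ^ (al + 1) * (1 / 2 : ℝ) ^ ((k : ℝ) * (d * al - 2))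
          ≤ K * M ^ (al + 2) * 1 := by gcongr
        _ ≤ K * M ^ (al + 2) * ρ ^ (1 / (d : ℝ) - 1) := by gcongr
    · obtain ⟨K, hK, H⟩ := gi_int1 d I.card (by omega) al h
      refine ⟨K, hK, ?_⟩
      intro M ρ μ k S hM hρ hρ1 hρk _
      have hM0 : 0 < M := by linarith
      simp only [if_neg hId]
      refine (H M μ I k S hM0 rfl).trans (ENNReal.ofReal_le_ofReal ?_)
      have hdm : (1 : ℝ) ≤ ((d - I.card : ℕ) : ℝ) := by exact_mod_cast (by omega : 1 ≤ d - I.card)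
      have h2 : (1 / 2 : ℝ) ^ ((k : ℝ) * ((d - I.card : ℕ) * al - 1)) ≤
          M * ρ ^ (1 / (d : ℝ) - 1) := by
        calc (1 / 2 : ℝ) ^ ((k : ℝ) * ((d - I.card : ℕ) * al - 1))
            ≤ (1 / 2 : ℝ) ^ ((k : ℝ) * (1 / (d : ℝ) - 1)) := by
              refine Real.rpow_le_rpow_of_exponent_ge (by norm_num) (by norm_num) ?_
              have h5 : 1 / (d : ℝ) ≤ (d - I.card : ℕ) * al := by nlinarith
              exact mul_le_mul_of_nonneg_left (by linarith) (Nat.cast_nonneg _)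
          _ = ((1 / 2 : ℝ) ^ k) ^ (1 / (d : ℝ) - 1) := by
              rw [Real.rpow_mul (by norm_num), Real.rpow_natCast]
          _ ≤ (ρ / M) ^ (1 / (d : ℝ) - 1) := by
              refine Real.rpow_le_rpow_of_nonpos (by positivity) ?_ (by linarith)
              rw [div_le_iff₀ hM0]
              linarith
          _ = M ^ (1 - 1 / (d : ℝ)) * ρ ^ (1 / (d : ℝ) - 1) := by
              rw [Real.div_rpow hρ.le hM0.le, div_eq_mul_inv, ← Real.rpow_neg hM0.le, mul_comm]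
              congr 2
              ring
          _ ≤ M ^ (1 : ℝ) * ρ ^ (1 / (d : ℝ) - 1) := by
              gcongr
              linarith
          _ = _ := by rw [Real.rpow_one]
      have h4 : M ^ al * M ≤ M ^ (al + 2) := by
        rw [← Real.rpow_add_one hM0.ne']
        exact Real.rpow_le_rpow_of_exponent_le hM (by linarith)
      calc K * M ^ al * (1 / 2 : ℝ) ^ ((k : ℝ) * ((d - I.card : ℕ) * al - 1))
          ≤ K * M ^ al * (M * ρ ^ (1 / (d : ℝ) - 1)) := by gcongr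
        _ = K * (M ^ al * M) * ρ ^ (1 / (d : ℝ) - 1) := by ring
        _ ≤ _ := by gcongr

/-- The double integral of one term at the scales comparable to `ρ`. -/
theorem hsa_term (d : ℕ) (hd : 2 ≤ d) (al : ℝ) (hal : 2 / (d : ℝ) < al)
    (hne : ∀ m : ℕ, (m : ℝ) * al ≠ 1) (I : Finset (Fin d)) :
    ∃ K : ℝ, 0 < K ∧ ∀ (Y : Type) [MeasurableSpace Y] (ν : Measure Y) [SFinite ν] (M ρ : ℝ)
      (μ : Y → Fin d → ℝ) (k : ℕ) (S0 : Set ℝ), Measurable μ → 1 ≤ M → 0 < ρ → ρ ≤ 1 →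
      ∫⁻ s in S0, ∫⁻ y, HSAb d al M ρ μ k I (s, y) ∂ν ≤
        ENNReal.ofReal (K * M ^ (al + 2) * ρ ^ (1 / (d : ℝ) - 1)) * ν univ := by
  by_cases hI : 2 ≤ I.card
  swap
  · refine ⟨1, one_pos, ?_⟩
    intro Y _ ν _ M ρ μ k S0 hμ hM hρ hρ1
    have : ∀ z, HSAb d al M ρ μ k I z = 0 := fun z =>
      indicator_of_notMem (fun h => hI h.1) _
    simp [this]
  obtain ⟨K, hK, H⟩ := hsa_slope d hd al hal hne I hI
  refine ⟨K, hK, ?_⟩
  intro Y _ ν _ M ρ μ k S0 hμ hM hρ hρ1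
  refine lint_swap_le ν S0 _ (hsa_measurable d al M ρ hμ k I) _ univ MeasurableSet.univ
    (fun y _ => ?_) fun y hy => absurd (mem_univ y) hy
  by_cases hρk : ρ ≤ M * (1 / 2) ^ k
  swap
  · have : ∀ s, HSAb d al M ρ μ k I (s, y) = 0 := fun s =>
      indicator_of_notMem (fun h => hρk h.2.1) _
    simp [this]
  have hms : MeasurableSet {s : ℝ | ∀ i ∈ I, |s - μ y i| ≤ M * 4 ^ k} := by
    have : {s : ℝ | ∀ i ∈ I, |s - μ y i| ≤ M * 4 ^ k} =
        ⋂ i ∈ I, {s : ℝ | |s - μ y i| ≤ M * 4 ^ k} := by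
      ext z; simp
    rw [this]
    refine Finset.measurableSet_biInter _ fun i _ => ?_
    exact measurableSet_le (by fun_prop) measurable_const
  refine le_trans ?_ (H M ρ (μ y) k (S0 ∩ {s | ∀ i ∈ I, |s - μ y i| ≤ M * 4 ^ k}) hM hρ hρ1 hρk
    fun s hs => hs.2)
  rw [inter_comm, ← setLIntegral_indicator hms]
  refine lintegral_mono fun s => ?_
  unfold HSAb
  by_cases hs : ∀ i ∈ I, |s - μ y i| ≤ M * 4 ^ k
  · rw [indicator_of_mem (show ((s, y) : ℝ × Y) ∈ {z : ℝ × Y | 2 ≤ I.card ∧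
      ρ ≤ M * (1 / 2) ^ k ∧ ∀ i ∈ I, |z.1 - μ z.2 i| ≤ M * 4 ^ k} from ⟨hI, hρk, hs⟩),
      indicator_of_mem (show s ∈ {s : ℝ | ∀ i ∈ I, |s - μ y i| ≤ M * 4 ^ k} from hs)]
  · rw [indicator_of_notMem fun h => hs h.2.2]
    exact zero_le

/-- The sum of two measurable functions, integrated twice. -/
theorem hsa_add2 {Y : Type} [MeasurableSpace Y] (ν : Measure Y) [SFinite ν] (S0 : Set ℝ)
    (f g : ℝ → Y → ℝ≥0∞) (hf : Measurable fun x : ℝ × Y => f x.1 x.2) :
    ∫⁻ s in S0, ∫⁻ y, (f s y + g s y) ∂ν =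
      (∫⁻ s in S0, ∫⁻ y, f s y ∂ν) + ∫⁻ s in S0, ∫⁻ y, g s y ∂ν := by
  have h1 : Measurable fun s => ∫⁻ y, f s y ∂ν := hf.lintegral_prod_right'
  rw [← lintegral_add_left h1]
  refine lintegral_congr fun s => ?_
  have h2 : Measurable fun y => f s y := hf.comp measurable_prodMk_left
  rw [lintegral_add_left h2]

/-- Finite sums of measurable functions, integrated twice. -/
theorem hsa_sum2 {Y ι κ : Type} [MeasurableSpace Y] (ν : Measure Y) [SFinite ν] (S0 : Set ℝ)
    (A : Finset ι) (A' : Finset κ) (H : ι → κ → ℝ × Y → ℝ≥0∞) (hH : ∀ k I, Measurable (H k I)) :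
    ∫⁻ s in S0, ∫⁻ y, (∑ k ∈ A, ∑ I ∈ A', H k I (s, y)) ∂ν =
      ∑ k ∈ A, ∑ I ∈ A', ∫⁻ s in S0, ∫⁻ y, H k I (s, y) ∂ν := by
  have hm1 : ∀ k I s, Measurable fun y => H k I (s, y) := fun k I s =>
    (hH k I).comp measurable_prodMk_left
  have hm2 : ∀ k I, Measurable fun s => ∫⁻ y, H k I (s, y) ∂ν := fun k I =>
    (hH k I).lintegral_prod_right'
  calc ∫⁻ s in S0, ∫⁻ y, (∑ k ∈ A, ∑ I ∈ A', H k I (s, y)) ∂ν
      = ∫⁻ s in S0, ∑ k ∈ A, ∑ I ∈ A', ∫⁻ y, H k I (s, y) ∂ν := by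
        refine lintegral_congr fun s => ?_
        rw [lintegral_finsetSum _ fun k _ => Finset.measurable_sum _ fun I _ => hm1 k I s]
        refine Finset.sum_congr rfl fun k _ => ?_
        rw [lintegral_finsetSum _ fun I _ => hm1 k I s]
    _ = _ := by
        rw [lintegral_finsetSum _ fun k _ => Finset.measurable_sum _ fun I _ => hm2 k I]
        refine Finset.sum_congr rfl fun k _ => ?_
        rw [lintegral_finsetSum _ fun I _ => hm2 k I]

theorem sum_aa (d C : ℕ) (hd : 2 ≤ d) (al : ℝ) (hal : 2 / (d : ℝ) < al)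
    (hal' : ∀ m : ℕ, (m : ℝ) * al ≠ 1) : ∃ C' : ℕ, ∀ n : ℕ, ∃ K0 : ℝ, 1 ≤ K0 ∧ ∀ K, K0 ≤ K →
    ∀ (B : Set (E d)) (μ : E d → Fin d → ℝ) (ρ : ℝ) (X : ℕ → Set (E d)), MeasurableSet B →
      volume B ≤ ENNReal.ofReal K → 0 < ρ → ρ ≤ 1 → 1 ≤ K ^ n * ρ →
      (∀ i, Measurable fun y => μ y i) → (∀ j, MeasurableSet (X j)) →
      (∀ j, volume (X j ∩ B) ≤ ENNReal.ofReal (K ^ C * ((2 : ℝ) ^ j)⁻¹)) →
      ∃ G : ℝ → E d → ℝ≥0∞, Measurable (fun x : ℝ × E d => G x.1 x.2) ∧
        (∀ s, ∀ y ∈ B, ∀ w, 0 ≤ w → w ≤ ρ → GeoN d C n K (μ y) (Sc C K ρ X y) s w →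
          ENNReal.ofReal w ≤ G s y) ∧
        ∫⁻ s in {s : ℝ | |s| ≤ K ^ n}, ∫⁻ y in B, G s y ^ al ≤
          ENNReal.ofReal (K ^ C') * (1 + ENNReal.ofReal (ρ ^ (1 / (d : ℝ) - 1)) * volume B) := by
  classical
  have hd2 : (2 : ℝ) ≤ d := by exact_mod_cast hd
  have hd0 : (0 : ℝ) < d := by linarith
  have hal0 : 0 < al := lt_trans (by positivity) hal
  obtain ⟨W, hW, HW⟩ := sum_all6 d hd al hal hal'
  choose KI hKI HI using hsa_term d hd al hal hal'
  set Q : ℝ := ∑ I : Finset (Fin d), KI I with hQ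
  have hQ0 : 0 ≤ Q := Finset.sum_nonneg fun I _ => (hKI I).le
  set c1 : ℕ := ⌈(C : ℝ) * (al + 2)⌉₊ with hc1
  refine ⟨c1 + 3, fun n => ?_⟩
  -- the number of scales is small
  obtain ⟨Ka, hKa⟩ : ∃ Ka : ℝ, ∀ K, Ka ≤ K → 2 * K ^ n < (2 : ℝ) ^ K := by
    have h1 := (isLittleO_pow_exp_pos_mul_atTop (k := n) (Real.log_pos one_lt_two)).bound
      (show (0 : ℝ) < 1 / 4 by norm_num)
    obtain ⟨Ka, hKa⟩ := Filter.eventually_atTop.1 h1
    refine ⟨Ka, fun K hK => ?_⟩
    have h2 := hKa K hK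
    rw [Real.norm_eq_abs, Real.norm_eq_abs, abs_of_pos (Real.exp_pos _)] at h2
    have h3 : (2 : ℝ) ^ K = Real.exp (Real.log 2 * K) := Real.rpow_def_of_pos two_pos K
    rw [h3]
    have h4 := le_abs_self (K ^ n)
    have h5 := Real.exp_pos (Real.log 2 * K)
    linarith
  refine ⟨max 1 (max Ka (6 * (W + Q) * (2 ^ (d + 1)) ^ (al + 2))), le_max_left _ _, ?_⟩
  intro K hK B μ ρ X hB hvB hρ hρ1 hnρ hμ hX hvX
  have hK1 : 1 ≤ K := (le_max_left _ _).trans hK
  have hK2 : Ka ≤ K := ((le_max_left _ _).trans (le_max_right _ _)).trans hK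
  have hK3 : 6 * (W + Q) * (2 ^ (d + 1)) ^ (al + 2) ≤ K :=
    ((le_max_right _ _).trans (le_max_right _ _)).trans hK
  have hK0 : 0 < K := by linarith
  set M : ℝ := 2 ^ (d + 1) * K ^ C with hM
  have hKC : 1 ≤ K ^ C := one_le_pow₀ hK1
  have h2d : (1 : ℝ) ≤ 2 ^ d := one_le_pow₀ (by norm_num)
  have h2d1 : (2 : ℝ) ≤ 2 ^ (d + 1) := by rw [pow_succ]; linarith
  have hM1 : 1 ≤ M := by nlinarith
  have hM0 : 0 < M := by linarith
  have hM2 : 2 * K ^ C ≤ M := by
    rw [hM]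
    gcongr
  set N : ℕ := ⌊K⌋₊ with hN
  have hscale : ∀ (k : ℕ) (r : ℝ), 1 ≤ K ^ n * r → r ≤ 2 * (1 / 2) ^ k → k ≤ N := by
    intro k r hr1 hrk
    by_contra hlt
    push Not at hlt
    have h1 : K < k := lt_of_lt_of_le (Nat.lt_floor_add_one K) (by exact_mod_cast hlt)
    have h2 : (2 : ℝ) ^ K ≤ 2 ^ k := by
      rw [← Real.rpow_natCast]
      exact Real.rpow_le_rpow_of_exponent_le one_le_two h1.le
    have h3 := hKa K hK2
    have h4 : (0 : ℝ) < 2 ^ k := by positivity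
    have h5 : K ^ n * r ≤ K ^ n * (2 * (1 / 2) ^ k) :=
      mul_le_mul_of_nonneg_left hrk (by positivity)
    have h6 : (1 : ℝ) * 2 ^ k ≤ K ^ n * (2 * (1 / 2) ^ k) * 2 ^ k := by
      gcongr
      linarith
    have h7 : K ^ n * (2 * (1 / 2) ^ k) * 2 ^ k = 2 * K ^ n := by
      have : (1 / 2 : ℝ) ^ k * 2 ^ k = 1 := by rw [← mul_pow]; norm_num
      calc K ^ n * (2 * (1 / 2) ^ k) * 2 ^ k = 2 * K ^ n * ((1 / 2 : ℝ) ^ k * 2 ^ k) := by ring
        _ = _ := by rw [this, mul_one]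
    linarith
  set U : ℕ → Set (E d) := fun k => if k ≤ N then X k else ∅ with hU
  have hUm : ∀ k, MeasurableSet (U k) := by
    intro k
    simp only [hU]
    split_ifs
    · exact hX _
    · exact MeasurableSet.empty
  have hμ' : Measurable μ := measurable_pi_iff.2 hμ
  set F : ℝ → E d → ℝ≥0∞ := fun s y =>
    ∑ k ∈ Finset.range (N + 1), ∑ I : Finset (Fin d), HSAb d al M ρ μ k I (s, y) with hF
  have hFm : Measurable fun x : ℝ × E d => F x.1 x.2 := by
    simp only [hF]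
    exact Finset.measurable_sum _ fun k _ => Finset.measurable_sum _ fun I _ =>
      hsa_measurable d al M ρ hμ' k I
  have hGAm := measurable_GA d al M hμ' hUm
  refine ⟨fun s y => (GA d al M μ U s y + F s y) ^ (1 / al), (hGAm.add hFm).pow_const _, ?_, ?_⟩
  · intro s y hy w hw hwρ hgeo
    -- the case of the majorant `GG`
    have hcase1 : GeoN d C n K (μ y) (fun r => ∀ j : ℕ, r ≤ 2 * ((2 : ℝ) ^ j)⁻¹ → y ∈ X j) s w →
        ENNReal.ofReal w ≤ (GA d al M μ U s y + F s y) ^ (1 / al) := by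
      intro hg
      have h1 : ENNReal.ofReal w ≤ GG d al M μ U s y := by
        refine geo_le d C (K := K) hal0 hK0 ?_ μ U (fun r y => 1 ≤ K ^ n * r ∧
          ∀ j : ℕ, r ≤ 2 * ((2 : ℝ) ^ j)⁻¹ → y ∈ X j) s w y hw ?_ ?_
        · rw [hM, pow_succ]
          nlinarith
        · rintro k r ⟨hr1, hr3⟩ hrk
          simp only [hU, if_pos (hscale k r hr1 hrk)]
          refine hr3 _ (hrk.trans (le_of_eq ?_))
          rw [one_div, inv_pow]
        · rcases hg with h | ⟨I, r, hI, hr0, hr1, hroot, hw1, hw2, hun⟩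
          · exact Or.inl h
          · refine Or.inr ⟨I, r, hI, ?_, hr1, hroot, hw1, hw2, fun h2 => ⟨hr0, hun h2⟩⟩
            by_contra hneg
            push Not at hneg
            have : K ^ n * r ≤ 0 := mul_nonpos_of_nonneg_of_nonpos (by positivity) hneg
            linarith
      refine h1.trans ?_
      unfold GG
      exact ENNReal.rpow_le_rpow le_self_add (by positivity)
    rcases hgeo with h | ⟨I, r, hI, hr0, hr1, hroot, hw1, hw2, hun⟩
    · exact hcase1 (Or.inl h)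
    by_cases h2 : 2 ≤ I.card
    swap
    · exact hcase1 (Or.inr ⟨I, r, hI, hr0, hr1, hroot, hw1, hw2, fun h => absurd h h2⟩)
    rcases hun h2 with hρr | hX'
    swap
    · exact hcase1 (Or.inr ⟨I, r, hI, hr0, hr1, hroot, hw1, hw2, fun _ => hX'⟩)
    -- the scale is comparable to `ρ`
    have hrpos : 0 < r := by
      by_contra hneg
      push Not at hneg
      have : K ^ n * r ≤ 0 := mul_nonpos_of_nonneg_of_nonpos (by positivity) hneg
      linarith
    obtain ⟨k, hk1, hk2⟩ : ∃ k : ℕ, (1 / 2 : ℝ) ^ k ≤ r ∧ r ≤ 2 * (1 / 2) ^ k := by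
      obtain ⟨m, hm1, hm2⟩ := exists_nat_pow_near_of_lt_one hrpos hr1
        (by norm_num : (0 : ℝ) < 1 / 2) (by norm_num)
      refine ⟨m + 1, hm1.le, ?_⟩
      rw [pow_succ]
      linarith
    have hkN := hscale k r hr0 hk2
    set r' : ℝ := (1 / 2) ^ k with hr'
    have hr'0 : 0 < r' := by positivity
    have hρk : ρ ≤ M * (1 / 2) ^ k := by
      calc ρ ≤ K ^ C * r := hρr
        _ ≤ K ^ C * (2 * r') := by gcongr
        _ = 2 * K ^ C * r' := by ring
        _ ≤ M * r' := by gcongr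
    have hKM : K ^ C ≤ M := by linarith
    have hmem : ((s, y) : ℝ × E d) ∈ {z : ℝ × E d | 2 ≤ I.card ∧ ρ ≤ M * (1 / 2) ^ k ∧
        ∀ i ∈ I, |z.1 - μ z.2 i| ≤ M * 4 ^ k} := by
      refine ⟨h2, hρk, fun i hi => ?_⟩
      have h1 := hroot i hi
      have h2 : |s - μ y i| * r' ^ 2 ≤ K ^ C := by
        refine le_trans ?_ h1
        gcongr
      have h3 : r' ^ 2 * 4 ^ k = 1 := by
        rw [hr', ← pow_mul, mul_comm k 2, pow_mul, ← mul_pow]
        norm_num
      calc |s - μ y i| = |s - μ y i| * r' ^ 2 * 4 ^ k := by rw [mul_assoc, h3, mul_one]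
        _ ≤ K ^ C * 4 ^ k := by gcongr
        _ ≤ M * 4 ^ k := by gcongr
    have hwG : w ≤ GIs d M (μ y) I k s := by
      unfold GIs
      set P : ℝ := ∏ i ∈ I, ((1 / 2 : ℝ) ^ k * |s - μ y i|) with hP
      have hP0 : 0 ≤ P := Finset.prod_nonneg fun i _ => by positivity
      have hcard : d - I.card ≤ d := Nat.sub_le _ _
      have h5 : K ^ C * r ^ (d - I.card) ≤ M * (1 / 2) ^ (k * (d - I.card)) := by
        calc K ^ C * r ^ (d - I.card) ≤ K ^ C * (2 * r') ^ (d - I.card) := by gcongr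
          _ = (2 ^ (d - I.card) * K ^ C) * (1 / 2) ^ (k * (d - I.card)) := by
              rw [mul_pow, hr', ← pow_mul]; ring
          _ ≤ (2 ^ (d + 1) * K ^ C) * (1 / 2) ^ (k * (d - I.card)) := by
              gcongr
              · norm_num
              · omega
          _ = _ := by rw [hM]
      have h6 : w * P ≤ K ^ C * r ^ (d - I.card) := by
        refine le_trans (mul_le_mul_of_nonneg_left ?_ hw) hw2
        exact Finset.prod_le_prod (fun i _ => by positivity) fun i _ =>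
          mul_le_mul_of_nonneg_right hk1 (abs_nonneg _)
      have h7 : 0 < max 1 P := lt_of_lt_of_le one_pos (le_max_left _ _)
      rw [← div_eq_mul_inv, le_div_iff₀ h7]
      rcases max_choice 1 P with h | h
      · rw [h, mul_one]
        exact hw1.trans h5
      · rw [h]
        exact h6.trans h5
    have hG0 := GIs_nonneg d hM0.le (μ y) I k s
    have hterm : ENNReal.ofReal (w ^ al) ≤ HSAb d al M ρ μ k I (s, y) := by
      unfold HSAb
      rw [indicator_of_mem hmem]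
      simp only
      split_ifs with hId
      · rw [← ENNReal.ofReal_mul (by positivity)]
        refine ENNReal.ofReal_le_ofReal ?_
        have h1 : 1 / (d : ℝ) < al := by
          refine lt_of_le_of_lt ?_ hal
          gcongr
          norm_num
        calc w ^ al = w ^ (1 / (d : ℝ)) * w ^ (al - 1 / (d : ℝ)) := by
              rw [← Real.rpow_add_of_nonneg hw (by positivity) (by linarith)]
              congr 1
              ring
          _ ≤ ρ ^ (1 / (d : ℝ)) * GIs d M (μ y) I k s ^ (al - 1 / (d : ℝ)) := by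
              have h9 : 0 ≤ al - 1 / (d : ℝ) := by linarith
              exact mul_le_mul (Real.rpow_le_rpow hw hwρ (by positivity))
                (Real.rpow_le_rpow hw hwG h9) (by positivity) (by positivity)
      · exact ENNReal.ofReal_le_ofReal (Real.rpow_le_rpow hw hwG hal0.le)
    have hle : ENNReal.ofReal (w ^ al) ≤ GA d al M μ U s y + F s y := by
      refine hterm.trans (le_trans ?_ le_add_self)
      simp only [hF]
      refine le_trans ?_ (Finset.single_le_sum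
        (f := fun k => ∑ I : Finset (Fin d), HSAb d al M ρ μ k I (s, y))
        (fun _ _ => zero_le) (Finset.mem_range.2 (Nat.lt_succ_of_le hkN)))
      exact Finset.single_le_sum (f := fun I => HSAb d al M ρ μ k I (s, y))
        (fun _ _ => zero_le) (Finset.mem_univ I)
    calc ENNReal.ofReal w = (ENNReal.ofReal (w ^ al)) ^ (1 / al) := by
          rw [← ENNReal.ofReal_rpow_of_nonneg hw hal0.le, ← ENNReal.rpow_mul, one_div,
            mul_inv_cancel₀ hal0.ne', ENNReal.rpow_one]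
      _ ≤ _ := ENNReal.rpow_le_rpow hle (by positivity)
  · have hνU : ∀ k, (volume.restrict B) (U k) ≤ ENNReal.ofReal (M * (1 / 2) ^ k) := by
      intro k
      by_cases hk : k ≤ N
      · simp only [hU, if_pos hk]
        rw [Measure.restrict_apply (hX _)]
        refine (hvX _).trans (ENNReal.ofReal_le_ofReal ?_)
        rw [one_div, inv_pow]
        have : K ^ C ≤ M := by linarith
        gcongr
      · simp only [hU, if_neg hk]
        simp
    have hνB : (volume.restrict B) univ ≤ ENNReal.ofReal K := by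
      rw [Measure.restrict_apply MeasurableSet.univ, univ_inter]
      exact hvB
    have h1 := HW (E d) (volume.restrict B) K M N μ U hμ' hUm hM1 hK0.le hνB hνU
      (fun k hk => by simp only [hU]; rw [if_neg (by omega)])
    set S0 : Set ℝ := {s : ℝ | |s| ≤ K ^ n} with hS0
    set R : ℝ≥0∞ := ENNReal.ofReal (ρ ^ (1 / (d : ℝ) - 1)) with hR
    have hNK : (N : ℝ) ≤ K := Nat.floor_le hK0.le
    have hMp : M ^ (al + 2) ≤ (2 ^ (d + 1)) ^ (al + 2) * K ^ c1 := by
      rw [hM, Real.mul_rpow (by positivity) (by positivity)]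
      gcongr
      rw [← Real.rpow_natCast, ← Real.rpow_mul hK0.le, ← Real.rpow_natCast]
      exact Real.rpow_le_rpow_of_exponent_le hK1 (Nat.le_ceil _)
    have hF2 : ∫⁻ s in S0, ∫⁻ y in B, F s y ≤ ENNReal.ofReal (K ^ (c1 + 3)) * (R * volume B) := by
      have h2 : ∫⁻ s in S0, ∫⁻ y in B, F s y = ∑ k ∈ Finset.range (N + 1),
          ∑ I : Finset (Fin d), ∫⁻ s in S0, ∫⁻ y in B, HSAb d al M ρ μ k I (s, y) :=
        hsa_sum2 (volume.restrict B) S0 (Finset.range (N + 1)) Finset.univ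
          (fun k I => HSAb d al M ρ μ k I) fun k I => hsa_measurable d al M ρ hμ' k I
      rw [h2]
      have h3 : ∀ k ∈ Finset.range (N + 1), ∀ I ∈ (Finset.univ : Finset (Finset (Fin d))),
          ∫⁻ s in S0, ∫⁻ y in B, HSAb d al M ρ μ k I (s, y) ≤
          ENNReal.ofReal (KI I * M ^ (al + 2)) * (R * volume B) := by
        intro k _ I _
        refine (HI I (E d) (volume.restrict B) M ρ μ k S0 hμ' hM1 hρ hρ1).trans (le_of_eq ?_)
        rw [Measure.restrict_apply MeasurableSet.univ, univ_inter, hR,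
          ENNReal.ofReal_mul (mul_nonneg (hKI I).le (by positivity)), mul_assoc]
      refine (Finset.sum_le_sum fun k hk => Finset.sum_le_sum (h3 k hk)).trans ?_
      simp only [← Finset.sum_mul]
      rw [Finset.sum_const, Finset.card_range, smul_mul_assoc]
      rw [← ENNReal.ofReal_sum_of_nonneg fun I _ => mul_nonneg (hKI I).le (by positivity),
        ← Finset.sum_mul, nsmul_eq_mul, ← mul_assoc]
      gcongr
      rw [← ENNReal.ofReal_natCast, ← ENNReal.ofReal_mul (Nat.cast_nonneg _)]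
      refine ENNReal.ofReal_le_ofReal ?_
      push_cast
      calc ((N : ℝ) + 1) * (Q * M ^ (al + 2))
          ≤ (2 * K) * (Q * ((2 ^ (d + 1)) ^ (al + 2) * K ^ c1)) := by
            gcongr
            linarith
        _ ≤ (6 * K) * ((W + Q) * ((2 ^ (d + 1)) ^ (al + 2) * K ^ c1)) := by
            gcongr
            · norm_num
            · linarith
        _ = (6 * (W + Q) * (2 ^ (d + 1)) ^ (al + 2)) * (K ^ c1 * K) := by ring
        _ ≤ K * (K ^ c1 * K) := by gcongr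
        _ = K ^ (c1 + 2) := by ring
        _ ≤ K ^ (c1 + 3) := pow_le_pow_right₀ hK1 (by omega)
    have hA2 : ∫⁻ s in S0, ∫⁻ y in B, GA d al M μ U s y ≤ ENNReal.ofReal (K ^ (c1 + 3)) := by
      calc ∫⁻ s in S0, ∫⁻ y in B, GA d al M μ U s y
          ≤ ∫⁻ s, ∫⁻ y in B, GA d al M μ U s y := setLIntegral_le_lintegral _ _
        _ = ∫⁻ s, ∫⁻ y in B, GG d al M μ U s y ^ al := by
            simp only [GG_rpow d hal0]
        _ ≤ _ := h1
        _ ≤ _ := by
            refine ENNReal.ofReal_le_ofReal ?_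
            have h5 : M ^ (al + 1) ≤ M ^ (al + 2) :=
              Real.rpow_le_rpow_of_exponent_le hM1 (by linarith)
            calc W * M ^ (al + 1) * (1 + K) * (N + 2)
                ≤ (W + Q) * ((2 ^ (d + 1)) ^ (al + 2) * K ^ c1) * (2 * K) * (3 * K) := by
                  gcongr
                  · linarith
                  · exact h5.trans hMp
                  · linarith
                  · linarith
              _ = (6 * (W + Q) * (2 ^ (d + 1)) ^ (al + 2)) * (K ^ c1 * K * K) := by ring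
              _ ≤ K * (K ^ c1 * K * K) := by gcongr
              _ = K ^ (c1 + 3) := by ring
    have hpw : ∀ s y, ((GA d al M μ U s y + F s y) ^ (1 / al)) ^ al =
        GA d al M μ U s y + F s y := by
      intro s y
      rw [← ENNReal.rpow_mul, one_div, inv_mul_cancel₀ hal0.ne', ENNReal.rpow_one]
    simp only [hpw]
    calc ∫⁻ s in S0, ∫⁻ y in B, (GA d al M μ U s y + F s y)
        = (∫⁻ s in S0, ∫⁻ y in B, GA d al M μ U s y) + ∫⁻ s in S0, ∫⁻ y in B, F s y :=
          hsa_add2 (volume.restrict B) S0 (fun s y => GA d al M μ U s y) F hGAm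
      _ ≤ ENNReal.ofReal (K ^ (c1 + 3)) + ENNReal.ofReal (K ^ (c1 + 3)) * (R * volume B) :=
          add_le_add hA2 hF2
      _ = _ := by rw [mul_add, mul_one]

end Pool.Agent.GNP
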