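import Pool.Agent.GNP.GEO6
import Pool.Agent.GNP.DefsH

/-! The geometry of the terminal chains of the top step. -/

namespace Pool.Agent.GNP

open MeasureTheory Set Pool.Agent.MP_6cbfb8_an
open scoped ENNReal Real RealInnerProductSpace ContDiff

theorem geo_tt (d : ℕ) (hd : 2 ≤ d) : ∃ C : ℕ, ∀ (A : ℕ → ℝ) (b δ : ℝ), 0 < b → 0 < δ →
    ∀ n0 J : ℕ, ∃ K0 : ℝ, 1 ≤ K0 ∧ ∀ K, K0 ≤ K →
    ∀ (Φ h : E d → ℝ) (c s ρ w : ℝ) (y : E d), Sm d A Φ → Sm d A h → |c| ≤ K ^ n0 →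
      |s| ≤ K ^ n0 → DfB b y δ h → 1 ≤ K ^ n0 * ρ → ρ ≤ 1 → 0 ≤ w →
      WtT K J ρ (ph Φ h c s) y w →
      TTr C (2 * n0 + C) K (mu Φ h c y) (Uns C K ρ (mu Φ h c) y) s w := by
  obtain ⟨C, hC6, hC⟩ := geo_stage (d := d) (m := d) fun h2 => str d d h2
  refine ⟨C + d + 7, fun A b δ hb hδ n0 J => ?_⟩
  obtain ⟨K1, hK1, h1⟩ := hC A (fun j => 1 + |A j|) b δ hb hδ (2 * n0 + 1) J
  refine ⟨max K1 b⁻¹, le_max_of_le_left (by linarith),
    fun K hK Φ h c s ρ w y hΦ hh hc hs hD hKρ hρ1 hw hWt => ?_⟩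
  have hKK1 : K1 ≤ K := (le_max_left _ _).trans hK
  have hKb : b⁻¹ ≤ K := (le_max_right _ _).trans hK
  have hK2 : 2 ≤ K := hK1.trans hKK1
  have hK1' : 1 ≤ K := by linarith
  have hK0 : 0 < K := by linarith
  have hρ : 0 < ρ := by
    by_contra h0
    push Not at h0
    have : K ^ n0 * ρ ≤ 0 := mul_nonpos_of_nonneg_of_nonpos (by positivity) h0
    linarith
  have hRρ : 1 ≤ K ^ 2 * (K ^ (2 * n0 + 1) * ρ ^ 2) := by
    have h2 : 1 ≤ K ^ 3 := one_le_pow₀ hK1'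
    have h3 : 1 ≤ (K ^ n0 * ρ) ^ 2 := one_le_pow₀ hKρ
    calc (1 : ℝ) ≤ K ^ 3 * (K ^ n0 * ρ) ^ 2 := one_le_mul_of_one_le_of_one_le h2 h3
      _ = _ := by ring
  have hpp : K ^ n0 ≤ K ^ (2 * n0 + 1) := pow_le_pow_right₀ hK1' (by omega)
  have hR : 0 < K ^ (2 * n0 + 1) := by positivity
  have hcs : |c| + |s| ≤ K ^ (2 * n0 + 1) := by
    calc |c| + |s| ≤ 2 * K ^ n0 := by linarith
      _ ≤ K * K ^ n0 := mul_le_mul_of_nonneg_right hK2 (by positivity)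
      _ = K ^ (n0 + 1) := by ring
      _ ≤ K ^ (2 * n0 + 1) := pow_le_pow_right₀ hK1' (by omega)
  have hRed : Red d d (fun j => 1 + |A j|) (ph Φ h c s) (K ^ (2 * n0 + 1)) ρ LinearIsometry.id id
      (ph Φ h c s) y := by
    refine red_top d A (ph Φ h c s) (K ^ (2 * n0 + 1)) ρ y (contDiff_ph hΦ.sm hh.sm c s) hR.le hρ
      fun j hj u hu => ?_
    have hA : 0 ≤ A j := (norm_nonneg _).trans (hΦ.bd j u)
    have h2 : ‖iteratedFDeriv ℝ j (ph Φ h c s) u‖ ≤ (|c| + |s|) * A j := by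
      refine (ph_bound hΦ.sm hh.sm c s j u).trans ?_
      have h3 := mul_le_mul_of_nonneg_left (hΦ.bd j u) (abs_nonneg c)
      have h4 := mul_le_mul_of_nonneg_left (hh.bd j u) (abs_nonneg s)
      linarith
    obtain ⟨i, rfl⟩ : ∃ i, j = i + 2 := ⟨j - 2, by omega⟩
    have h3 : A (i + 2) * (K ^ (2 * n0 + 1) * ρ ^ 2) / ρ ^ (i + 2) =
        A (i + 2) * K ^ (2 * n0 + 1) / ρ ^ i := by
      rw [pow_add ρ i 2]
      field_simp
    rw [h3, le_div_iff₀ (by positivity)]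
    have h4 : ρ ^ i ≤ 1 := pow_le_one₀ hρ.le hρ1
    calc ‖iteratedFDeriv ℝ (i + 2) (ph Φ h c s) u‖ * ρ ^ i
        ≤ ‖iteratedFDeriv ℝ (i + 2) (ph Φ h c s) u‖ * 1 :=
          mul_le_mul_of_nonneg_left h4 (norm_nonneg _)
      _ ≤ (|c| + |s|) * A (i + 2) := by rw [mul_one]; exact h2
      _ ≤ K ^ (2 * n0 + 1) * A (i + 2) := mul_le_mul_of_nonneg_right hcs hA
      _ = A (i + 2) * K ^ (2 * n0 + 1) := by ring
  obtain ⟨r, hL, hHr, hw1, hdet⟩ := hWt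
  obtain ⟨hlev, hdrop⟩ := h1 K hKK1 Φ h c s (K ^ (2 * n0 + 1)) ρ r LinearIsometry.id id
    (ph Φ h c s) y hΦ hh (hc.trans hpp) (hs.trans hpp) hR le_rfl hρ hρ1 hRρ hRed hD hL
  have hr : 0 < r := hL.1
  have hr1 : r ≤ 1 := by
    have := hL.2.1
    nlinarith
  have hDy : ∀ x, ⟪Hs h y x, x⟫ ≤ -(b * ‖x‖ ^ 2) := hD y (by
    rw [sub_self, norm_zero]; exact hδ.le)
  obtain ⟨I, hIc, -, hID⟩ := geo_roots (Y := id) hΦ.sm hh.sm hb hρ hRed hDy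
  have hI : I = Finset.univ := Finset.eq_univ_of_card I (by simpa using hIc)
  rw [hI] at hID
  refine ⟨r, ?_, hr1, hw1, ?_, ?_⟩
  · calc (1 : ℝ) ≤ K ^ 6 * (K ^ (2 * n0 + 1) * r ^ 2) := hlev
      _ ≤ K ^ 6 * (K ^ (2 * n0 + 1) * r) := by
          have : r ^ 2 ≤ r := by nlinarith
          gcongr
      _ = K ^ (2 * n0 + 7) * r := by ring
      _ ≤ K ^ (2 * n0 + (C + d + 7)) * r :=
          mul_le_mul_of_nonneg_right (pow_le_pow_right₀ hK1' (by omega)) hr.le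
  · rw [Finset.prod_mul_distrib, Finset.prod_const, Finset.card_univ, Fintype.card_fin]
    have hb0 : 0 < b⁻¹ := inv_pos.2 hb
    have e1 : w * (r ^ d * ∏ i, |s - mu Φ h c y i|) ≤
        w * (r ^ d * (b⁻¹ ^ d * |(Hs (ph Φ h c s) y).det|)) :=
      mul_le_mul_of_nonneg_left (mul_le_mul_of_nonneg_left hID (by positivity)) hw
    calc w * (r ^ d * ∏ i, |s - mu Φ h c y i|)
        ≤ w * (r ^ d * (b⁻¹ ^ d * |(Hs (ph Φ h c s) y).det|)) := e1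
      _ = b⁻¹ ^ d * (w * (r ^ d * |(Hs (ph Φ h c s) y).det|)) := by ring
      _ ≤ b⁻¹ ^ d * 1 := mul_le_mul_of_nonneg_left hdet (by positivity)
      _ ≤ K ^ d := by
          rw [mul_one]
          exact pow_le_pow_left₀ hb0.le hKb d
      _ ≤ K ^ (C + d + 7) := pow_le_pow_right₀ hK1' (by omega)
  · have hU : Uns C K ρ (mu Φ h c) y r := hdrop hd
    exact hU.mono_exp hK1' hr.le (by omega)

end Pool.Agent.GNP
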