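import Pool.Agent.GNP.DefsH

/-!
Values of chains: at most one; the active chains at most the radius of the cell.
-/

namespace Pool.Agent.GNP

open Set Pool.Agent.MP_6cbfb8_an
open scoped RealInnerProductSpace ContDiff

/-- `1/r ≤ √R` when `1 ≤ R r²`. -/
theorem hs_one_le_sqrt {R r : ℝ} (hr : 0 < r) (h : 1 ≤ R * r ^ 2) : 1 ≤ √R * r := by
  have h1 : √(R * r ^ 2) = √R * r := by
    rw [Real.sqrt_mul' _ (sq_nonneg r), Real.sqrt_sq hr.le]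
  rw [← h1]
  exact Real.one_le_sqrt.2 h

/-- The values of the chains are at most one (in cells of radius at most one). -/
theorem hs_Wt_le_one {A : ℕ → ℕ → ℝ} {K : ℝ} {J : ℕ} (hK : 1 ≤ K) : ∀ {m : ℕ} {ρ : ℝ}
    {q : E m → ℝ} {y : E m} {w : ℝ}, ρ ≤ 1 → 0 ≤ w → Wt A K J m ρ q y w → w ≤ 1 := by
  intro m
  induction m with
  | zero => exact fun _ _ h => h
  | succ m ih =>
    intro ρ q y w hρ hw h
    rw [Wt_succ] at h
    obtain ⟨r, ⟨hr0, hKr, -⟩, h | ⟨R, r', t, U, v, η, ψ, h1, h2, h3, h4, h5, h6, h7⟩⟩ := h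
    · exact h.2.1
    · have hrρ : r ≤ 1 := by nlinarith
      have h8 := ih (h4.trans hrρ) (mul_nonneg hw (Real.sqrt_nonneg R)) h7
      have h9 := hs_one_le_sqrt hr0 h1
      have h10 : 1 ≤ √R := by nlinarith [Real.sqrt_nonneg R]
      nlinarith

theorem WtA.wt {A : ℕ → ℕ → ℝ} {K : ℝ} {J m : ℕ} {ρ : ℝ} {q : E (m + 1) → ℝ} {y : E (m + 1)}
    {w : ℝ} (h : WtA A K J m ρ q y w) : Wt A K J (m + 1) ρ q y w := by
  obtain ⟨r, h1, h2⟩ := h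
  exact (Wt_succ A K J m ρ q y w).2 ⟨r, h1, Or.inr h2⟩

theorem WtA.le {A : ℕ → ℕ → ℝ} {K : ℝ} {J m : ℕ} {ρ : ℝ} {q : E (m + 1) → ℝ} {y : E (m + 1)}
    {w : ℝ} (hK : 1 ≤ K) (hρ : ρ ≤ 1) (hw : 0 ≤ w) (h : WtA A K J m ρ q y w) : w ≤ ρ := by
  obtain ⟨r, ⟨hr0, hKr, -⟩, R, r', t, U, v, η, ψ, h1, h2, h3, h4, h5, h6, h7⟩ := h
  have hrρ : r ≤ ρ := by nlinarith
  have h8 := hs_Wt_le_one hK (h4.trans (hrρ.trans hρ)) (mul_nonneg hw (Real.sqrt_nonneg R)) h7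
  have h9 := hs_one_le_sqrt hr0 h1
  have h10 : w ≤ w * (√R * r) := by nlinarith
  have h11 : w * (√R * r) ≤ r := by nlinarith
  linarith

end Pool.Agent.GNP
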