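import Pool.Agent.GNP.DefsH
import Pool.Agent.GNP.N5SC
import Pool.Agent.GNP.FTS
import Pool.Agent.GNP.FTn

/-!
The fixed time theorem with the terminal part apart, for one phase and an amplitude at the scale
`1/P` supported in a set of measure `v`.
-/

namespace Pool.Agent.GNP

open MeasureTheory Set Pool.Agent.MP_6cbfb8_an
open scoped ENNReal Real RealInnerProductSpace ContDiff

/-- The two parts together. -/
theorem hs_two {α : Type*} [MeasurableSpace α] (μ : Measure α) (f F F' : α → ℂ)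
    (hF : Measurable F) (hf : ∀ x, f x = F x + F' x) (p p' Lb K v : ℝ) (N : ℕ) (hp' : 2 < p')
    (hpp : p' ≤ p) (hL : 1 ≤ Lb) (hK : 1 ≤ K) (hv : 0 ≤ v) (hvK : v ≤ K) (I I' : ℝ≥0∞)
    (h1 : ∫⁻ x, ‖F x‖ₑ ^ p ∂μ ≤ ENNReal.ofReal Lb * I +
      ENNReal.ofReal ((K ^ N)⁻¹ * (K ^ ⌈p⌉₊)⁻¹))
    (h2 : ∫⁻ x, ‖F' x‖ₑ ^ p' ∂μ ≤ ENNReal.ofReal Lb * I' +
      ENNReal.ofReal ((K ^ N)⁻¹ * (K ^ ⌈p⌉₊)⁻¹))
    (h3 : ∀ x, ‖F' x‖ₑ ≤ ENNReal.ofReal Lb * ENNReal.ofReal v) :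
    ∫⁻ x, ‖f x‖ₑ ^ p ∂μ ≤ ENNReal.ofReal (2 ^ (⌈p⌉₊ + 1) * Lb ^ (⌈p⌉₊ + 1)) *
      (I + ENNReal.ofReal (v ^ (p - p')) * I' + ENNReal.ofReal ((K ^ N)⁻¹)) := by
  have hp0 : 0 < p := by linarith
  have hK0 : 0 < K := by linarith
  have hL0 : 0 < Lb := by linarith
  have hpc : p ≤ ⌈p⌉₊ := Nat.le_ceil p
  have hq : 0 ≤ p - p' := by linarith
  set V : ℝ≥0∞ := ENNReal.ofReal (v ^ (p - p')) with hV
  set τ : ℝ≥0∞ := ENNReal.ofReal ((K ^ N)⁻¹) with hτ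
  set E0 : ℕ := ⌈p⌉₊ with hE0
  have hLE : ENNReal.ofReal Lb ≤ ENNReal.ofReal (Lb ^ (E0 + 1)) :=
    ENNReal.ofReal_le_ofReal (le_self_pow₀ hL (by omega))
  have h1E : (1 : ℝ≥0∞) ≤ ENNReal.ofReal (Lb ^ (E0 + 1)) := by
    rw [ENNReal.one_le_ofReal]
    exact one_le_pow₀ hL
  have htail : ENNReal.ofReal ((K ^ N)⁻¹ * (K ^ E0)⁻¹) ≤ τ := by
    refine ENNReal.ofReal_le_ofReal (mul_le_of_le_one_right (by positivity) ?_)
    exact inv_le_one_of_one_le₀ (one_le_pow₀ hK)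
  have hvp : v ^ (p - p') ≤ K ^ E0 := by
    calc v ^ (p - p') ≤ K ^ (p - p') := Real.rpow_le_rpow hv hvK hq
      _ ≤ K ^ ((E0 : ℕ) : ℝ) := Real.rpow_le_rpow_of_exponent_le hK (by linarith)
      _ = K ^ E0 := Real.rpow_natCast _ _
  have hvtail : V * ENNReal.ofReal ((K ^ N)⁻¹ * (K ^ E0)⁻¹) ≤ τ := by
    rw [hV, hτ, ← ENNReal.ofReal_mul (Real.rpow_nonneg hv _)]
    refine ENNReal.ofReal_le_ofReal ?_
    calc v ^ (p - p') * ((K ^ N)⁻¹ * (K ^ E0)⁻¹) ≤ K ^ E0 * ((K ^ N)⁻¹ * (K ^ E0)⁻¹) := by gcongr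
      _ = (K ^ N)⁻¹ := by field_simp
  have hA : ∫⁻ x, ‖F x‖ₑ ^ p ∂μ ≤ ENNReal.ofReal (Lb ^ (E0 + 1)) * (I + τ) := by
    refine h1.trans ?_
    rw [mul_add]
    refine add_le_add (mul_le_mul_left hLE _) (htail.trans ?_)
    exact le_mul_of_one_le_left zero_le h1E
  have hB0 : ∀ x, ‖F' x‖ₑ ^ p ≤ (ENNReal.ofReal (Lb ^ E0) * V) * ‖F' x‖ₑ ^ p' := by
    intro x
    calc ‖F' x‖ₑ ^ p = ‖F' x‖ₑ ^ (p - p') * ‖F' x‖ₑ ^ p' := by
          rw [← ENNReal.rpow_add_of_nonneg _ _ hq (by linarith)]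
          congr 1
          ring
      _ ≤ (ENNReal.ofReal Lb * ENNReal.ofReal v) ^ (p - p') * ‖F' x‖ₑ ^ p' :=
          mul_le_mul_left (ENNReal.rpow_le_rpow (h3 x) hq) _
      _ ≤ (ENNReal.ofReal (Lb ^ E0) * V) * ‖F' x‖ₑ ^ p' := by
          refine mul_le_mul_left ?_ _
          rw [ENNReal.mul_rpow_of_nonneg _ _ hq, ENNReal.ofReal_rpow_of_nonneg hL0.le hq,
            ENNReal.ofReal_rpow_of_nonneg hv hq]
          refine mul_le_mul_left (ENNReal.ofReal_le_ofReal ?_) _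
          calc Lb ^ (p - p') ≤ Lb ^ ((E0 : ℕ) : ℝ) :=
                Real.rpow_le_rpow_of_exponent_le hL (by linarith)
            _ = Lb ^ E0 := Real.rpow_natCast _ _
  have hB : ∫⁻ x, ‖F' x‖ₑ ^ p ∂μ ≤ ENNReal.ofReal (Lb ^ (E0 + 1)) * (V * I' + τ) := by
    calc ∫⁻ x, ‖F' x‖ₑ ^ p ∂μ ≤ ∫⁻ x, (ENNReal.ofReal (Lb ^ E0) * V) * ‖F' x‖ₑ ^ p' ∂μ :=
          lintegral_mono hB0
      _ = (ENNReal.ofReal (Lb ^ E0) * V) * ∫⁻ x, ‖F' x‖ₑ ^ p' ∂μ :=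
          lintegral_const_mul' _ _ (ENNReal.mul_ne_top ENNReal.ofReal_ne_top ENNReal.ofReal_ne_top)
      _ ≤ (ENNReal.ofReal (Lb ^ E0) * V) * (ENNReal.ofReal Lb * I' +
            ENNReal.ofReal ((K ^ N)⁻¹ * (K ^ E0)⁻¹)) := by gcongr
      _ = (ENNReal.ofReal (Lb ^ E0) * ENNReal.ofReal Lb) * (V * I') +
            ENNReal.ofReal (Lb ^ E0) * (V * ENNReal.ofReal ((K ^ N)⁻¹ * (K ^ E0)⁻¹)) := by ring
      _ ≤ ENNReal.ofReal (Lb ^ (E0 + 1)) * (V * I') + ENNReal.ofReal (Lb ^ (E0 + 1)) * τ := by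
          refine add_le_add (le_of_eq ?_) (mul_le_mul' (ENNReal.ofReal_le_ofReal ?_) hvtail)
          · rw [← ENNReal.ofReal_mul (by positivity), ← pow_succ]
          · exact pow_le_pow_right₀ hL (by omega)
      _ = _ := by rw [mul_add]
  calc ∫⁻ x, ‖f x‖ₑ ^ p ∂μ ≤ ∫⁻ x, (2 : ℝ≥0∞) ^ (p - 1) * (‖F x‖ₑ ^ p + ‖F' x‖ₑ ^ p) ∂μ := by
        refine lintegral_mono fun x => ?_
        rw [hf x]
        exact (ENNReal.rpow_le_rpow (enorm_add_le _ _) hp0.le).trans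
          (ENNReal.rpow_add_le_mul_rpow_add_rpow _ _ (by linarith))
    _ = (2 : ℝ≥0∞) ^ (p - 1) * (∫⁻ x, ‖F x‖ₑ ^ p ∂μ + ∫⁻ x, ‖F' x‖ₑ ^ p ∂μ) := by
        rw [lintegral_const_mul' _ _ (ENNReal.rpow_ne_top_of_nonneg (by linarith)
          ENNReal.ofNat_ne_top), lintegral_add_left (hF.enorm.pow_const _)]
    _ ≤ (2 : ℝ≥0∞) ^ (p - 1) * (ENNReal.ofReal (Lb ^ (E0 + 1)) * (I + τ) +
          ENNReal.ofReal (Lb ^ (E0 + 1)) * (V * I' + τ)) := by gcongr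
    _ ≤ ENNReal.ofReal (2 ^ E0) * (ENNReal.ofReal (Lb ^ (E0 + 1)) *
          (2 * (I + V * I' + τ))) := by
        refine mul_le_mul' ?_ ?_
        · calc (2 : ℝ≥0∞) ^ (p - 1) ≤ (2 : ℝ≥0∞) ^ ((E0 : ℕ) : ℝ) :=
                ENNReal.rpow_le_rpow_of_exponent_le (by norm_num) (by linarith)
            _ = ENNReal.ofReal (2 ^ E0) := by
                rw [ENNReal.rpow_natCast, ENNReal.ofReal_pow (by norm_num)]
                norm_num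
        · rw [← mul_add]
          refine mul_le_mul_right ?_ _
          calc I + τ + (V * I' + τ) = I + V * I' + 2 * τ := by ring
            _ ≤ 2 * I + 2 * (V * I') + 2 * τ :=
                add_le_add (add_le_add (le_mul_of_one_le_left zero_le one_le_two)
                  (le_mul_of_one_le_left zero_le one_le_two)) le_rfl
            _ = 2 * (I + V * I' + τ) := by ring
    _ = _ := by
        have e1 : (2 : ℝ≥0∞) = ENNReal.ofReal 2 := by norm_num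
        calc ENNReal.ofReal (2 ^ E0) * (ENNReal.ofReal (Lb ^ (E0 + 1)) * (2 * (I + V * I' + τ)))
            = (ENNReal.ofReal (2 ^ E0) * ENNReal.ofReal (Lb ^ (E0 + 1)) * ENNReal.ofReal 2) *
                (I + V * I' + τ) := by rw [e1]; ring
          _ = _ := by
              rw [← ENNReal.ofReal_mul (by positivity), ← ENNReal.ofReal_mul (by positivity)]
              congr 2
              ring

/-- **Row SCS.** -/
theorem ft_splitQ (m : ℕ) (p p' : ℝ) (hp' : 2 < p') (hpp : p' ≤ p) : ∃ C1 : ℕ,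
    ∀ (D : ℕ) (A : ℕ → ℝ) (r κ : ℝ), (∀ j, 0 ≤ A j) → 0 < r → 0 < κ → κ ≤ 1 → ∃ A' : ℕ → ℕ → ℝ,
    ∀ n0 : ℕ, ∃ J0 : ℕ, ∀ J, J0 ≤ J → ∀ (B : ℕ → ℝ) (N : ℕ), ∃ K0 : ℝ, 1 ≤ K0 ∧ ∀ K, K0 ≤ K →
    ∀ (q : E (m + 1) → ℝ) (Q : MvPolynomial (Fin (m + 1)) ℝ) (a : E (m + 1) → ℂ) (P T v : ℝ)
      (S : Set (E (m + 1))) (G G' : E (m + 1) → ℝ≥0∞), ContDiff ℝ ∞ q → (∀ y ∈ S, q y = pe Q y) →
      Q.totalDegree ≤ D → 1 ≤ P → P ≤ K ^ n0 → 0 ≤ T → T ≤ K ^ n0 → ContDiff ℝ ∞ a →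
      (∀ y, r < ‖y‖ → a y = 0) → (∀ j y, ‖iteratedFDeriv ℝ j a y‖ ≤ B j * P ^ j) →
      MeasurableSet S → 0 ≤ v → v ≤ K → volume S ≤ ENNReal.ofReal v →
      (∀ y, a y ≠ 0 → Metric.closedBall y (3 / 2 * (κ / P)) ⊆ S) →
      (∀ y ∈ S, ∀ j, 2 ≤ j → ‖iteratedFDeriv ℝ j q y‖ ≤ A j * T) → Measurable G →
      Measurable G' →
      (∀ y ∈ S, ∀ w, 0 ≤ w → WtA A' K J m (κ / P) q y w → ENNReal.ofReal w ≤ G y) →
      (∀ y ∈ S, ∀ w, 0 ≤ w → WtT K J (κ / P) q y w → ENNReal.ofReal w ≤ G' y) →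
      ∫⁻ x, ‖uu a q x‖ₑ ^ p ≤ ENNReal.ofReal (K0 * K ^ C1) *
        ((∫⁻ y in S, G y ^ (p - 2)) +
          ENNReal.ofReal (v ^ (p - p')) * (∫⁻ y in S, G' y ^ (p' - 2)) +
          ENNReal.ofReal ((K ^ N)⁻¹)) := by
  have hp : 2 < p := by linarith
  obtain ⟨C1, h⟩ := ft_split m p p' hp hp' (ft m p hp)
  refine ⟨C1 * (⌈p⌉₊ + 1), fun D A r κ hA hr hκ hκ1 => ?_⟩
  obtain ⟨O, C, hC1, hcut⟩ := cut_scale (m + 1) r κ hr hκ hκ1
  obtain ⟨M, hM⟩ := mult_const (m + 1) D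
  obtain ⟨A', hA'⟩ := h A
  refine ⟨A', fun n0 => ?_⟩
  set n1 : ℕ := n0 + 1 + ⌈r⌉₊ with hn1
  obtain ⟨J0, hJ0⟩ := hA' n1
  refine ⟨J0, fun J hJ B N => ?_⟩
  obtain ⟨B', hB'⟩ := hcut B
  set N1 : ℕ := N + ⌈((n0 + 1) * (m + 1) : ℕ) * p⌉₊ + ⌈p⌉₊ with hN1
  obtain ⟨K0, hK01, hK0⟩ := hJ0 J hJ B' N1
  set mm : ℕ := O * M with hmm
  refine ⟨max (max K0 (max C κ⁻¹)) (2 ^ (⌈p⌉₊ + 1) * (K0 * (mm + 1) ^ C1 * (O + 1)) ^ (⌈p⌉₊ + 1)), ?_, fun K hK q Q a P T v S G G' hq hqQ hQ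
    hP hPK hT hTK ha hsupp hbd hS hv hvK hSv hSsub hder hG hG' hw hw' => ?_⟩
  · exact hK01.trans ((le_max_left _ _).trans (le_max_left _ _))
  set K2 : ℝ := max (max K0 (max C κ⁻¹)) (2 ^ (⌈p⌉₊ + 1) * (K0 * (mm + 1) ^ C1 * (O + 1)) ^ (⌈p⌉₊ + 1)) with hK2
  have hKK0 : K0 ≤ K := ((le_max_left _ _).trans (le_max_left _ _)).trans hK
  have hKC : C ≤ K := (((le_max_left _ _).trans (le_max_right _ _)).trans (le_max_left _ _)).trans hK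
  have hKκ : κ⁻¹ ≤ K := (((le_max_right _ _).trans (le_max_right _ _)).trans (le_max_left _ _)).trans hK
  have hK1 : 1 ≤ K := hK01.trans hKK0
  have hKpos : 0 < K := by linarith
  have hP0 : 0 < P := by linarith
  obtain ⟨Tf, ζ, b, g1, g2, g3, g4, g5, g6, g7⟩ := hB' P a hP ha hsupp hbd
  set ρ : ℝ := κ / P with hρ
  have hρ0 : 0 < ρ := by positivity
  have hρ1 : ρ ≤ 1 := by
    rw [hρ, div_le_one hP0]
    linarith
  have hsubS : ∀ k ∈ Tf, Metric.closedBall (ζ k) ρ ⊆ S := by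
    intro k hk y hy
    obtain ⟨y0, hy0, hy1⟩ := g5 k hk
    refine hSsub y0 hy0 ?_
    rw [Metric.mem_closedBall, dist_eq_norm] at hy ⊢
    have e1 : y - y0 = (y - ζ k) - (y0 - ζ k) := by abel
    rw [e1]
    refine (norm_sub_le _ _).trans ?_
    linarith
  have hFT := hK0 K hKK0 Tf (fun k => ζ k) (fun _ => q) (fun k => b k) ρ T mm (fun _ => G) (fun _ => G')
    (by
      rw [hρ, hn1, le_div_iff₀ hP0, inv_mul_le_iff₀ (by positivity)]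
      calc P ≤ K ^ n0 := hPK
        _ = K ^ n0 * (κ⁻¹ * κ) := by rw [inv_mul_cancel₀ hκ.ne', mul_one]
        _ ≤ K ^ n0 * (K * κ) := by gcongr
        _ = K ^ (n0 + 1) * κ := by ring
        _ ≤ K ^ (n0 + 1 + ⌈r⌉₊) * κ :=
            mul_le_mul_of_nonneg_right (pow_le_pow_right₀ hK1 (by omega)) hκ.le)
    hρ1 hT (hTK.trans (pow_le_pow_right₀ hK1 (by omega)))
    (by
      rintro ⟨k, hk⟩
      obtain ⟨y0, hy0, hy1⟩ := g5 k hk
      have h1 : ‖y0‖ ≤ r := by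
        by_contra hc
        exact hy0 (hsupp y0 (not_le.1 hc))
      have h2 : ‖ζ k‖ ≤ ‖y0‖ + ‖y0 - ζ k‖ := by
        have e1 : ζ k = y0 - (y0 - ζ k) := by abel
        calc ‖ζ k‖ = ‖y0 - (y0 - ζ k)‖ := by rw [← e1]
          _ ≤ _ := norm_sub_le _ _
      have h3 : r ≤ (⌈r⌉₊ : ℝ) := Nat.le_ceil _
      have h4 : (n1 : ℝ) = n0 + 1 + ⌈r⌉₊ := by
        rw [hn1]
        push_cast
        ring
      rw [h4]
      have h5 : (0:ℝ) ≤ n0 := Nat.cast_nonneg _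
      simp only
      linarith)
    (by
      rintro ⟨k, hk⟩
      refine ⟨hq, g2 k, fun y hy => g3 k y hy, fun j y => g4 k j y, ?_⟩
      intro j hj y hy
      have h1 := hder y (hsubS k hk (by rwa [Metric.mem_closedBall, dist_eq_norm])) j hj
      refine h1.trans ?_
      have h2 : (1:ℝ) ≤ ρ ^ 2 / ρ ^ j := by
        rw [one_le_div (by positivity)]
        exact pow_le_pow_of_le_one hρ0.le hρ1 hj
      calc A j * T = A j * T * 1 := (mul_one _).symm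
        _ ≤ A j * T * (ρ ^ 2 / ρ ^ j) := mul_le_mul_of_nonneg_left h2 (mul_nonneg (hA j) hT)
        _ = A j * (T * ρ ^ 2) / ρ ^ j := by ring)
    (mult_congr (hM Q hQ Tf ρ (fun k => ζ k) O fun y Z hZ => by
      have h1 := g6 y (Z.image (fun k : Tf => (k : Fin (m + 1) → ℕ))) (by
        intro k hk
        obtain ⟨k', hk', rfl⟩ := Finset.mem_image.1 hk
        exact (hZ k' hk').le)
      rwa [Finset.card_image_of_injective _ Subtype.val_injective] at h1) (by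
      rintro ⟨k, hk⟩ y hy
      exact hqQ y (hsubS k hk (by rw [Metric.mem_closedBall, dist_eq_norm]; exact hy.le))))
    (fun _ => hG) (fun _ => hG')
    (by
      rintro ⟨k, hk⟩ y w r' hy hw0 e1 e2 e3 e4
      exact hw' y (hsubS k hk (by rw [Metric.mem_closedBall, dist_eq_norm]; exact hy.le)) w hw0
        ⟨r', e1, e2, e3, e4⟩)
    (by
      rintro ⟨k, hk⟩ y w r' hy hw0 e1 e2
      exact hw y (hsubS k hk (by rw [Metric.mem_closedBall, dist_eq_norm]; exact hy.le)) w hw0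
        ⟨r', e1, e2⟩)
  obtain ⟨F, F', hF, hF', hFF, hsup, hI, hI'⟩ := hFT
  have huu : ∀ x, uu a q x = ∑ k : Tf, uu (b k) q x := by
    intro x
    rw [sc_uu_sum Tf b a q (r + 2) (fun k _ => (g2 k).continuous) ?_ hq.continuous
      g1 x, ← Finset.sum_coe_sort Tf (fun k => uu (b k) q x)]
    intro k hk y hy
    refine g3 k y ?_
    obtain ⟨y0, hy0, hy1⟩ := g5 k hk
    have h1 : ‖y0‖ ≤ r := by
      by_contra hc
      exact hy0 (hsupp y0 (not_le.1 hc))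
    have h2 : ‖y‖ ≤ ‖y - ζ k‖ + ‖y0 - ζ k‖ + ‖y0‖ := by
      have e1 : y = (y - ζ k) - (y0 - ζ k) + y0 := by abel
      calc ‖y‖ = ‖(y - ζ k) - (y0 - ζ k) + y0‖ := by rw [← e1]
        _ ≤ ‖(y - ζ k) - (y0 - ζ k)‖ + ‖y0‖ := norm_add_le _ _
        _ ≤ _ := by gcongr; exact norm_sub_le _ _
    linarith
  set c : ℝ := K0 * (mm + 1) ^ C1 * (O + 1) with hc
  have hmm0 : (0 : ℝ) ≤ mm := Nat.cast_nonneg _
  have hO0 : (0 : ℝ) ≤ O := Nat.cast_nonneg _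
  have hc1 : 1 ≤ c := by
    have e1 : (1 : ℝ) ≤ ((mm : ℝ) + 1) ^ C1 := one_le_pow₀ (by linarith)
    have e2 : (1 : ℝ) ≤ K0 * ((mm : ℝ) + 1) ^ C1 := one_le_mul_of_one_le_of_one_le hK01 e1
    exact one_le_mul_of_one_le_of_one_le e2 (by linarith)
  set Lb : ℝ := c * K ^ C1 with hLb
  have hLb1 : 1 ≤ Lb := one_le_mul_of_one_le_of_one_le hc1 (one_le_pow₀ hK1)
  have hLO : K0 * (K * mm) ^ C1 * O ≤ Lb := by
    calc K0 * (K * mm) ^ C1 * O = K0 * (mm:ℝ) ^ C1 * O * K ^ C1 := by rw [mul_pow]; ring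
      _ ≤ K0 * ((mm:ℝ) + 1) ^ C1 * (O + 1) * K ^ C1 := by
          gcongr <;> linarith
  have hov : ∀ f : E (m + 1) → ℝ≥0∞, Measurable f →
      ENNReal.ofReal (K0 * (K * mm) ^ C1) * (∑ k : Tf, ∫⁻ y in Metric.ball (ζ k) ρ, f y) ≤
        ENNReal.ofReal Lb * ∫⁻ y in S, f y := by
    intro f hf
    have h1 := sc_overlap Tf ζ ρ O S hS g6 (fun k hk =>
      Metric.ball_subset_closedBall.trans (hsubS k hk)) f hf
    rw [← Finset.sum_coe_sort Tf (fun k => ∫⁻ y in Metric.ball (ζ k) ρ, f y)] at h1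
    calc ENNReal.ofReal (K0 * (K * mm) ^ C1) * (∑ k : Tf, ∫⁻ y in Metric.ball (ζ k) ρ, f y)
        ≤ ENNReal.ofReal (K0 * (K * mm) ^ C1) * (O * ∫⁻ y in S, f y) := by gcongr
      _ = ENNReal.ofReal (K0 * (K * mm) ^ C1 * O) * ∫⁻ y in S, f y := by
          rw [← mul_assoc, ← ENNReal.ofReal_natCast, ← ENNReal.ofReal_mul (by positivity)]
      _ ≤ _ := by gcongr
  have hcardK : (Tf.card : ℝ) ≤ K ^ ((n0 + 1) * (m + 1)) := by
    refine g7.trans ?_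
    rw [pow_mul]
    refine pow_le_pow_left₀ (by positivity) ?_ _
    calc C * P ≤ K * K ^ n0 := by gcongr
      _ = K ^ (n0 + 1) := by ring
  have htl : ∀ p0 : ℝ, 0 ≤ p0 → p0 ≤ p → (K ^ N1)⁻¹ * (Fintype.card Tf : ℝ) ^ p0 ≤
      (K ^ N)⁻¹ * (K ^ ⌈p⌉₊)⁻¹ := by
    intro p0 hp00 hp0p
    rw [Fintype.card_coe]
    have h2 : (Tf.card : ℝ) ^ p0 ≤ K ^ ⌈((n0 + 1) * (m + 1) : ℕ) * p⌉₊ := by
      calc (Tf.card : ℝ) ^ p0 ≤ (K ^ ((n0 + 1) * (m + 1))) ^ p0 :=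
            Real.rpow_le_rpow (Nat.cast_nonneg _) hcardK hp00
        _ = K ^ ((((n0 + 1) * (m + 1) : ℕ) : ℝ) * p0) := by
            rw [← Real.rpow_natCast, ← Real.rpow_mul hKpos.le]
        _ ≤ K ^ ((⌈((n0 + 1) * (m + 1) : ℕ) * p⌉₊ : ℕ) : ℝ) := by
            refine Real.rpow_le_rpow_of_exponent_le hK1 (le_trans ?_ (Nat.le_ceil _))
            gcongr
        _ = _ := Real.rpow_natCast _ _
    rw [hN1, pow_add, pow_add]
    calc (K ^ N * K ^ ⌈((n0 + 1) * (m + 1) : ℕ) * p⌉₊ * K ^ ⌈p⌉₊)⁻¹ * (Tf.card : ℝ) ^ p0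
        ≤ (K ^ N * K ^ ⌈((n0 + 1) * (m + 1) : ℕ) * p⌉₊ * K ^ ⌈p⌉₊)⁻¹ *
            K ^ ⌈((n0 + 1) * (m + 1) : ℕ) * p⌉₊ := by gcongr
      _ = _ := by field_simp
  have h1 := hs_two volume (fun x => uu a q x) F F' hF.measurable
    (fun x => (huu x).trans (hFF x)) p p' Lb K v N hp' hpp hLb1 hK1 hv hvK
    (∫⁻ y in S, G y ^ (p - 2)) (∫⁻ y in S, G' y ^ (p' - 2))
    (hI.trans (add_le_add (hov _ (hG.pow_const _))
      (ENNReal.ofReal_le_ofReal (htl p (by linarith) le_rfl))))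
    (hI'.trans (add_le_add (hov _ (hG'.pow_const _))
      (ENNReal.ofReal_le_ofReal (htl p' (by linarith) hpp))))
    (fun x => by
      refine (hsup x).trans ?_
      have e1 := hov (fun _ => 1) measurable_const
      simp only [lintegral_const, Measure.restrict_apply MeasurableSet.univ, univ_inter,
        one_mul] at e1
      exact e1.trans (by gcongr))
  refine h1.trans (mul_le_mul_left (ENNReal.ofReal_le_ofReal ?_) _)
  rw [hLb, mul_pow, ← pow_mul, ← mul_assoc]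
  gcongr
  exact le_max_right _ _

end Pool.Agent.GNP
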