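import Pool.Agent.GNP.DefsH
import Pool.Agent.GNP.SUMN

/-!
Every smooth phase, all dimensions: the majorant of the terminal chains of the top step and its
integral over the slope and the point.
-/

namespace Pool.Agent.GNP

open MeasureTheory Set Pool.Agent.MP_6cbfb8_an
open scoped ENNReal Real

/-- The slope integral of one term if `m al > 1`. -/
theorem sm_slope (d m : ℕ) (hm : 1 ≤ m) (al θ : ℝ) (hal : 1 < m * al) (hal0 : 0 < al)
    (hθ0 : 0 < θ) (hθ1 : θ < 1) : ∃ K : ℝ, 0 < K ∧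
    ∀ (M L : ℝ) (μ : Fin d → ℝ) (I : Finset (Fin d)) (k : ℕ) (S : Set ℝ), 1 ≤ M → 1 ≤ L →
      I.card = m → volume S ≤ ENNReal.ofReal L →
      ∫⁻ s in S, ENNReal.ofReal (GIs d M μ I k s ^ al) ≤
        ENNReal.ofReal (K * M ^ al * L ^ θ * ((1 / 2 : ℝ) ^ θ) ^ k * 2 ^ k) ∧
      (∀ T : ℝ, 1 ≤ T → 2 ^ k ≤ T → ∫⁻ s in S, ENNReal.ofReal (GIs d M μ I k s ^ al) ≤
          ENNReal.ofReal (K * M ^ al * (T ^ (1 + θ) * T ^ (-((d - m : ℕ) * al) ⊔ (-1 : ℝ))) *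
            ((1 / 2 : ℝ) ^ θ) ^ k)) := by
  obtain ⟨K, hK, H⟩ := gi_int1 d m hm al hal
  refine ⟨K + 1, by positivity, ?_⟩
  intro M L μ I k S hM hL hI hS
  have hM0 : 0 < M := by linarith
  have ha0 := H M μ I k S hM0 hI
  have hx0 : 0 ≤ ((d - m : ℕ) : ℝ) * al := by positivity
  have ha : ∫⁻ s in S, ENNReal.ofReal (GIs d M μ I k s ^ al) ≤
      ENNReal.ofReal ((K + 1) * M ^ al * 2 ^ k) := by
    refine ha0.trans (ENNReal.ofReal_le_ofReal ?_)
    have h2 : (1 / 2 : ℝ) ^ ((k : ℝ) * ((d - m : ℕ) * al - 1)) ≤ 2 ^ k := by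
      calc (1 / 2 : ℝ) ^ ((k : ℝ) * ((d - m : ℕ) * al - 1)) ≤ (1 / 2 : ℝ) ^ (-(k : ℝ)) := by
            refine Real.rpow_le_rpow_of_exponent_ge (by norm_num) (by norm_num) ?_
            have h3 : 0 ≤ (k : ℝ) * ((d - m : ℕ) * al) := by positivity
            nlinarith
        _ = 2 ^ k := by
            rw [Real.rpow_neg (by norm_num), Real.rpow_natCast, one_div, inv_pow, inv_inv]
    gcongr
    linarith
  have hb : ∫⁻ s in S, ENNReal.ofReal (GIs d M μ I k s ^ al) ≤ ENNReal.ofReal (M ^ al * L) := by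
    calc ∫⁻ s in S, ENNReal.ofReal (GIs d M μ I k s ^ al)
        ≤ ∫⁻ s in S, ENNReal.ofReal (M ^ al) := by
          refine lintegral_mono fun s => ENNReal.ofReal_le_ofReal ?_
          exact Real.rpow_le_rpow (GIs_nonneg d hM0.le μ I k s) (gi_le hM0.le μ I k s) hal0.le
      _ = ENNReal.ofReal (M ^ al) * volume S := by rw [setLIntegral_const]
      _ ≤ ENNReal.ofReal (M ^ al) * ENNReal.ofReal L := by gcongr
      _ = _ := by rw [← ENNReal.ofReal_mul (by positivity)]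
  refine ⟨?_, ?_⟩
  swap
  · intro T hT hkT
    refine ha0.trans (ENNReal.ofReal_le_ofReal ?_)
    have hT0 : 0 < T := by linarith
    set x : ℝ := ((d - m : ℕ) : ℝ) * al with hx
    have h2k : (1 : ℝ) ≤ 2 ^ k := one_le_pow₀ (by norm_num)
    -- `2^(k (1-x)) ≤ T * T^(max (-x) (-1))`
    have h3 : (1 / 2 : ℝ) ^ ((k : ℝ) * (x - 1)) ≤ T * T ^ (-x ⊔ (-1 : ℝ)) := by
      have h4 : (1 / 2 : ℝ) ^ ((k : ℝ) * (x - 1)) = ((2 : ℝ) ^ k) ^ (1 - x) := by
        rw [← Real.rpow_natCast, ← Real.rpow_mul (by norm_num), one_div,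
          Real.inv_rpow (by norm_num), ← Real.rpow_neg (by norm_num)]
        congr 1
        ring
      have h5 : T * T ^ (-x ⊔ (-1 : ℝ)) = T ^ ((1 - x) ⊔ 0) := by
        have : (1 - x) ⊔ 0 = 1 + (-x ⊔ (-1 : ℝ)) := by
          rw [← max_add_add_left]
          norm_num
          ring_nf
        rw [this, Real.rpow_add hT0, Real.rpow_one]
      rw [h4, h5]
      calc ((2 : ℝ) ^ k) ^ (1 - x) ≤ ((2 : ℝ) ^ k) ^ ((1 - x) ⊔ 0) :=
            Real.rpow_le_rpow_of_exponent_le h2k (le_max_left _ _)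
        _ ≤ T ^ ((1 - x) ⊔ 0) := by
            gcongr
    have h6 : 1 ≤ T ^ θ * ((1 / 2 : ℝ) ^ θ) ^ k := by
      have h7 : ((1 / 2 : ℝ) ^ θ) ^ k = (((2 : ℝ) ^ k) ^ θ)⁻¹ := by
        rw [← Real.rpow_natCast, ← Real.rpow_mul (by norm_num), mul_comm,
          Real.rpow_mul (by norm_num), Real.rpow_natCast, one_div, inv_pow,
          Real.inv_rpow (by positivity)]
      have h8 : 0 < ((2 : ℝ) ^ k) ^ θ := by positivity
      rw [h7, ← div_eq_mul_inv, le_div_iff₀ h8, one_mul]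
      gcongr
    have h9 : T ^ (1 + θ) = T * T ^ θ := by rw [Real.rpow_add hT0, Real.rpow_one]
    have h10 : 0 ≤ K * M ^ al * (T * T ^ (-x ⊔ (-1 : ℝ))) := by positivity
    calc K * M ^ al * (1 / 2 : ℝ) ^ ((k : ℝ) * (x - 1))
        ≤ K * M ^ al * (T * T ^ (-x ⊔ (-1 : ℝ))) := by gcongr
      _ ≤ K * M ^ al * (T * T ^ (-x ⊔ (-1 : ℝ))) * (T ^ θ * ((1 / 2 : ℝ) ^ θ) ^ k) :=
          le_mul_of_one_le_right h10 h6
      _ = K * M ^ al * (T * T ^ θ * T ^ (-x ⊔ (-1 : ℝ))) * ((1 / 2 : ℝ) ^ θ) ^ k := by ring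
      _ ≤ (K + 1) * M ^ al * (T ^ (1 + θ) * T ^ (-x ⊔ (-1 : ℝ))) * ((1 / 2 : ℝ) ^ θ) ^ k := by
          rw [h9]
          gcongr
          linarith
  refine (gi_min (by positivity) (by positivity) hθ0.le hθ1.le ha hb).trans
    (ENNReal.ofReal_le_ofReal ?_)
  have h3 : ((K + 1) * M ^ al * 2 ^ k) ^ (1 - θ) =
      (K + 1) ^ (1 - θ) * (M ^ al) ^ (1 - θ) * (((1 / 2 : ℝ) ^ θ) ^ k * 2 ^ k) := by
    rw [Real.mul_rpow (by positivity) (by positivity), Real.mul_rpow (by positivity)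
      (by positivity)]
    congr 1
    rw [← gi_half]
    have h4 : ((2 : ℝ) ^ k) = (1 / 2 : ℝ) ^ (-(k : ℝ)) := by
      rw [Real.rpow_neg (by norm_num), Real.rpow_natCast, one_div, inv_pow, inv_inv]
    rw [h4, ← Real.rpow_mul (by norm_num), ← Real.rpow_add (by norm_num)]
    congr 1
    ring
  rw [h3, Real.mul_rpow (by positivity) (by positivity)]
  have h5 : (K + 1) ^ (1 - θ) ≤ K + 1 := by
    calc (K + 1) ^ (1 - θ) ≤ (K + 1) ^ (1 : ℝ) :=
          Real.rpow_le_rpow_of_exponent_le (by linarith) (by linarith)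
      _ = _ := Real.rpow_one _
  have h6 : (M ^ al) ^ (1 - θ) * (M ^ al) ^ θ = M ^ al := by
    rw [← Real.rpow_add (by positivity), sub_add_cancel, Real.rpow_one]
  calc (K + 1) ^ (1 - θ) * (M ^ al) ^ (1 - θ) * (((1 / 2 : ℝ) ^ θ) ^ k * 2 ^ k) *
        ((M ^ al) ^ θ * L ^ θ)
      = (K + 1) ^ (1 - θ) * ((M ^ al) ^ (1 - θ) * (M ^ al) ^ θ) * L ^ θ *
        ((1 / 2 : ℝ) ^ θ) ^ k * 2 ^ k := by ring
    _ = (K + 1) ^ (1 - θ) * M ^ al * L ^ θ * ((1 / 2 : ℝ) ^ θ) ^ k * 2 ^ k := by rw [h6]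
    _ ≤ _ := by gcongr

/-- The double integral of a term which is supported in `U`, small or of moderate scale. -/
theorem sm_two {Y : Type} [MeasurableSpace Y] (ν : Measure Y) [SFinite ν] (S0 : Set ℝ)
    (f : ℝ × Y → ℝ≥0∞) (hf : Measurable f) (U : Set Y) (hU : MeasurableSet U)
    (h0 : ∀ y, y ∉ U → ∀ s, f (s, y) = 0) (K al M L θ q T V W : ℝ) (k : ℕ) (hK : 0 ≤ K)
    (hM : 1 ≤ M) (hL : 1 ≤ L) (hV : 0 ≤ V) (hW : 0 ≤ W) (hq : 0 ≤ q)
    (h1 : ∀ y, ∫⁻ s in S0, f (s, y) ≤ ENNReal.ofReal (K * M ^ al * L ^ θ * q ^ k * 2 ^ k))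
    (h2 : 2 ^ k ≤ T → ∀ y, ∫⁻ s in S0, f (s, y) ≤ ENNReal.ofReal (K * M ^ al * W * q ^ k))
    (hν : ν U ≤ ENNReal.ofReal (M * (1 / 2) ^ k) + (if 2 ^ k ≤ T then ENNReal.ofReal V else 0)) :
    ∫⁻ s in S0, ∫⁻ y, f (s, y) ∂ν ≤
      ENNReal.ofReal (K * M ^ (al + 1) * (L ^ θ + V * W) * q ^ k) := by
  have hM0 : 0 < M := by linarith
  have hL0 : 0 < L := by linarith
  set J : ℝ≥0∞ := ⨆ y, ∫⁻ s in S0, f (s, y) with hJ
  have hM4 : M ^ (al + 1) = M ^ al * M := by rw [Real.rpow_add hM0, Real.rpow_one]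
  have hJ1 : J ≤ ENNReal.ofReal (K * M ^ al * L ^ θ * q ^ k * 2 ^ k) := iSup_le h1
  have hJ2 : 2 ^ k ≤ T → J ≤ ENNReal.ofReal (K * M ^ al * W * q ^ k) := fun hk => iSup_le (h2 hk)
  refine (lint_swap_le ν S0 f hf J U hU (fun y _ => le_iSup (fun y => ∫⁻ s in S0, f (s, y)) y)
    h0).trans ?_
  refine (mul_le_mul_right hν _).trans ?_
  rw [mul_add]
  have h3 : (2 : ℝ) ^ k * (1 / 2) ^ k = 1 := by rw [← mul_pow]; norm_num
  have hA : J * ENNReal.ofReal (M * (1 / 2) ^ k) ≤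
      ENNReal.ofReal (K * M ^ (al + 1) * L ^ θ * q ^ k) := by
    refine (mul_le_mul_left hJ1 _).trans ?_
    rw [← ENNReal.ofReal_mul (by positivity)]
    refine ENNReal.ofReal_le_ofReal (le_of_eq ?_)
    calc K * M ^ al * L ^ θ * q ^ k * 2 ^ k * (M * (1 / 2) ^ k)
        = K * (M ^ al * M) * L ^ θ * q ^ k * (2 ^ k * (1 / 2) ^ k) := by ring
      _ = K * M ^ (al + 1) * L ^ θ * q ^ k := by rw [h3, hM4, mul_one]
  have hB : J * (if 2 ^ k ≤ T then ENNReal.ofReal V else 0) ≤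
      ENNReal.ofReal (K * M ^ (al + 1) * (V * W) * q ^ k) := by
    split_ifs with hk
    · refine (mul_le_mul_left (hJ2 hk) _).trans ?_
      rw [← ENNReal.ofReal_mul (by positivity)]
      refine ENNReal.ofReal_le_ofReal ?_
      calc K * M ^ al * W * q ^ k * V = K * (M ^ al * 1) * (V * W) * q ^ k := by ring
        _ ≤ K * (M ^ al * M) * (V * W) * q ^ k := by gcongr
        _ = _ := by rw [hM4]
    · simp
  refine (add_le_add hA hB).trans ?_
  rw [← ENNReal.ofReal_add (by positivity) (by positivity)]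
  refine ENNReal.ofReal_le_ofReal (le_of_eq ?_)
  ring

/-- The sets of the points which count, by scale. -/
theorem sm_U {d : ℕ} {C : ℕ} {K ρ : ℝ} (hK2 : 2 ≤ K) (hρ : 0 < ρ)
    {B : Set (E d)} (hBK : volume B ≤ ENNReal.ofReal K)
    {X : ℕ → Set (E d)} (hX : ∀ j, MeasurableSet (X j))
    (hXB : ∀ j, volume (X j ∩ B) ≤ ENNReal.ofReal (K ^ C * ((2 : ℝ) ^ j)⁻¹)) :
    ∃ U : ℕ → Set (E d), (∀ k, MeasurableSet (U k)) ∧
      (∀ k, volume (U k ∩ B) ≤ ENNReal.ofReal (K ^ (C + 1) * (1 / 2) ^ k) +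
        (if 2 ^ k ≤ 2 * K ^ C / ρ then ENNReal.ofReal (volume B).toReal else 0)) ∧
      ∀ (k : ℕ) (r : ℝ) (y : E d), r ≤ 2 * (1 / 2) ^ k → Sc C K ρ X y r → y ∈ U k := by
  classical
  have hK1 : 1 ≤ K := by linarith
  have hK0 : 0 < K := by linarith
  have hBV : volume B = ENNReal.ofReal (volume B).toReal :=
    (ENNReal.ofReal_toReal (ne_top_of_le_ne_top ENNReal.ofReal_ne_top hBK)).symm
  have hhalf : ∀ k : ℕ, (1 / 2 : ℝ) ^ k = ((2 : ℝ) ^ k)⁻¹ := fun k => by rw [one_div, inv_pow]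
  refine ⟨fun k => if 2 ^ k ≤ 2 * K ^ C / ρ then univ else X k, ?_, ?_, ?_⟩
  · intro k
    dsimp only
    split_ifs
    · exact MeasurableSet.univ
    · exact hX _
  · intro k
    dsimp only
    split_ifs with hk
    · rw [univ_inter]
      nth_rewrite 1 [hBV]
      exact le_add_of_nonneg_left zero_le
    · rw [add_zero]
      refine (hXB k).trans (ENNReal.ofReal_le_ofReal ?_)
      rw [hhalf]
      gcongr
      omega
  · intro k r y hr h
    dsimp only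
    split_ifs with hk
    · exact mem_univ _
    · rw [hhalf] at hr
      rcases h with h | h
      · exfalso
        apply hk
        rw [le_div_iff₀ hρ]
        have h2k : (0 : ℝ) < 2 ^ k := by positivity
        calc 2 ^ k * ρ ≤ 2 ^ k * (K ^ C * r) := by gcongr
          _ ≤ 2 ^ k * (K ^ C * (2 * (2 ^ k)⁻¹)) := by gcongr
          _ = 2 * K ^ C := by field_simp
      · exact h k hr

/-- The powers of `K`. -/
theorem sm_pow {n C : ℕ} {K ρ : ℝ} (hK2 : 2 ≤ K) (hρ : 0 < ρ) (hρn : 1 ≤ K ^ n * ρ) :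
    (2 * K ^ n) ^ (1 / ((2 * n + C + 3 : ℕ) : ℝ)) ≤ K ∧
    (2 * K ^ C / ρ) ^ (1 / ((2 * n + C + 3 : ℕ) : ℝ)) ≤ K := by
  have hK1 : 1 ≤ K := by linarith
  have hK0 : 0 < K := by linarith
  set e : ℕ := 2 * n + C + 3 with he
  have he0 : (0 : ℝ) < e := by rw [he]; positivity
  have key : ∀ x : ℝ, 0 ≤ x → x ≤ K ^ e → x ^ (1 / (e : ℝ)) ≤ K := by
    intro x hx0 hx
    calc x ^ (1 / (e : ℝ)) ≤ (K ^ e) ^ (1 / (e : ℝ)) := by gcongr
      _ = K := by
          rw [← Real.rpow_natCast, ← Real.rpow_mul hK0.le, mul_one_div, div_self he0.ne',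
            Real.rpow_one]
  refine ⟨key _ (by positivity) ?_, key _ (by positivity) ?_⟩
  · calc 2 * K ^ n ≤ K * K ^ n := by gcongr
      _ = K ^ (n + 1) := by ring
      _ ≤ K ^ e := pow_le_pow_right₀ hK1 (by omega)
  · have h3 : ρ⁻¹ ≤ K ^ n := by
      rw [inv_le_iff_one_le_mul₀ hρ]
      linarith
    calc 2 * K ^ C / ρ = 2 * K ^ C * ρ⁻¹ := by rw [div_eq_mul_inv]
      _ ≤ K * K ^ C * K ^ n := by gcongr
      _ = K ^ (n + C + 1) := by ring
      _ ≤ K ^ e := pow_le_pow_right₀ hK1 (by omega)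

/-- The dyadic scale below `r`. -/
theorem sm_dy {r : ℝ} (hr0 : 0 < r) (hr1 : r ≤ 1) :
    ∃ k : ℕ, (1 / 2 : ℝ) ^ k ≤ r ∧ r ≤ 2 * (1 / 2) ^ k := by
  obtain ⟨n, hn1, hn2⟩ := exists_nat_pow_near_of_lt_one hr0 hr1 (by norm_num : (0 : ℝ) < 1 / 2)
    (by norm_num)
  refine ⟨n + 1, hn1.le, ?_⟩
  rw [pow_succ]
  linarith

theorem sm_vol (K : ℝ) (n : ℕ) :
    volume {s : ℝ | |s| ≤ K ^ n} ≤ ENNReal.ofReal (2 * K ^ n) := by
  have h1 : {s : ℝ | |s| ≤ K ^ n} = Icc (-(K ^ n)) (K ^ n) := by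
    ext s; simp [abs_le]
  rw [h1, Real.volume_Icc]
  exact ENNReal.ofReal_le_ofReal (le_of_eq (by ring))

/-- The majorant of the terminal chains. -/
theorem sum_tt (d C : ℕ) (hd : 1 ≤ d) (al : ℝ) (hal : 1 / (d : ℝ) < al) : ∃ C' : ℕ,
    ∀ n : ℕ, ∃ K0 : ℝ, 1 ≤ K0 ∧ ∀ K, K0 ≤ K →
    ∀ (B : Set (E d)) (μ : E d → Fin d → ℝ) (ρ : ℝ) (X : ℕ → Set (E d)), MeasurableSet B →
      volume B ≤ ENNReal.ofReal K → 0 < ρ → ρ ≤ 1 → 1 ≤ K ^ n * ρ →
      (∀ i, Measurable fun y => μ y i) → (∀ j, MeasurableSet (X j)) →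
      (∀ j, volume (X j ∩ B) ≤ ENNReal.ofReal (K ^ C * ((2 : ℝ) ^ j)⁻¹)) →
      ∃ G : ℝ → E d → ℝ≥0∞, Measurable (fun x : ℝ × E d => G x.1 x.2) ∧
        (∀ s, ∀ y ∈ B, ∀ w, 0 ≤ w → TTr C n K (μ y) (Sc C K ρ X y) s w →
          ENNReal.ofReal w ≤ G s y) ∧
        ∫⁻ s in {s : ℝ | |s| ≤ K ^ n}, ∫⁻ y in B, G s y ^ al ≤
          ENNReal.ofReal (K ^ C') * (1 + volume B / ENNReal.ofReal ρ) := by
  have hd0 : (0 : ℝ) < d := by exact_mod_cast (show 0 < d by omega)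
  have hal0 : 0 < al := lt_trans (by positivity) hal
  have hal1 : 1 < d * al := by
    rw [div_lt_iff₀ hd0] at hal
    linarith
  refine ⟨4 + (C + 1) * ⌈al + 1⌉₊ + C, fun n => ?_⟩
  set θ : ℝ := 1 / ((2 * n + C + 3 : ℕ) : ℝ) with hθ
  have he1 : (1 : ℝ) < ((2 * n + C + 3 : ℕ) : ℝ) := by
    push_cast
    have : (0 : ℝ) ≤ n := Nat.cast_nonneg n
    have : (0 : ℝ) ≤ C := Nat.cast_nonneg C
    linarith
  have hθ0 : 0 < θ := by positivity
  have hθ1 : θ < 1 := by rw [hθ, div_lt_one (by linarith)]; exact he1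
  obtain ⟨K', hK', H⟩ := sm_slope d d hd al θ hal1 hal0 hθ0 hθ1
  have hq1 : (1 / 2 : ℝ) ^ θ < 1 := gi_half_lt hθ0
  have hq0 : 0 < 1 - (1 / 2 : ℝ) ^ θ := by linarith
  refine ⟨max 2 (K' * (1 - (1 / 2 : ℝ) ^ θ)⁻¹), le_trans (by norm_num) (le_max_left _ _), ?_⟩
  intro K hK B μ ρ X hB hBK hρ hρ1 hρn hμ hX hXB
  have hK2 : 2 ≤ K := (le_max_left _ _).trans hK
  have hKK' : K' * (1 - (1 / 2 : ℝ) ^ θ)⁻¹ ≤ K := (le_max_right _ _).trans hK
  have hK1 : 1 ≤ K := by linarith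
  have hK0 : 0 < K := by linarith
  set M : ℝ := K ^ (C + 1) with hM
  set T : ℝ := 2 * K ^ C / ρ with hT
  set L : ℝ := 2 * K ^ n with hL
  set V : ℝ := (volume B).toReal with hV
  have hKC : 1 ≤ K ^ C := one_le_pow₀ hK1
  have hKn : 1 ≤ K ^ n := one_le_pow₀ hK1
  have hM1 : 1 ≤ M := one_le_pow₀ hK1
  have hKM : K ^ C ≤ M := pow_le_pow_right₀ hK1 (by omega)
  have hT1 : 1 ≤ T := by
    rw [hT, le_div_iff₀ hρ]
    nlinarith
  have hL1 : 1 ≤ L := by rw [hL]; linarith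
  have hV0 : 0 ≤ V := ENNReal.toReal_nonneg
  have hBV : volume B = ENNReal.ofReal V :=
    (ENNReal.ofReal_toReal (ne_top_of_le_ne_top ENNReal.ofReal_ne_top hBK)).symm
  obtain ⟨U, hUm, hUv, hUmem⟩ := sm_U (C := C) hK2 hρ hBK hX hXB
  have hμm : Measurable μ := measurable_pi_iff.2 hμ
  set f : ℕ → ℝ × E d → ℝ≥0∞ := fun k => (Prod.snd ⁻¹' U k).indicator
      (fun z => ENNReal.ofReal (GIs d M (μ z.2) Finset.univ k z.1 ^ al)) with hf
  have hfm : ∀ k, Measurable (f k) := fun k =>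
    (measurable_GIs d al M hμm Finset.univ k).indicator (measurable_snd (hUm k))
  have hsm : Measurable fun x : ℝ × E d => ∑' k, f k x := Measurable.tsum hfm
  refine ⟨fun s y => (∑' k, f k (s, y)) ^ (1 / al), hsm.pow_const _, ?_, ?_⟩
  · -- the majorant
    intro s y _ w hw hgeo
    obtain ⟨r, hrn, hr1, hw1, hw2, hun⟩ := hgeo
    have hr0 : 0 < r := by
      by_contra hr
      have : K ^ n * r ≤ 0 := mul_nonpos_of_nonneg_of_nonpos (by positivity) (not_lt.1 hr)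
      linarith
    obtain ⟨k, hk1, hk2⟩ := sm_dy hr0 hr1
    have hmem : ((s, y) : ℝ × E d) ∈ (Prod.snd ⁻¹' U k : Set (ℝ × E d)) := hUmem k r y hk2 hun
    have hle : ENNReal.ofReal (w ^ al) ≤ ∑' k, f k (s, y) := by
      refine le_trans ?_ (ENNReal.le_tsum k)
      rw [hf]
      dsimp only
      rw [indicator_of_mem hmem]
      refine ENNReal.ofReal_le_ofReal (Real.rpow_le_rpow hw ?_ hal0.le)
      change w ≤ GIs d M (μ y) Finset.univ k s
      unfold GIs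
      rw [Finset.card_univ, Fintype.card_fin, Nat.sub_self, mul_zero, pow_zero, mul_one]
      set P : ℝ := ∏ i, ((1 / 2 : ℝ) ^ k * |s - μ y i|) with hP
      have hP0 : 0 ≤ P := Finset.prod_nonneg fun i _ => by positivity
      have h6 : w * P ≤ K ^ C := by
        refine le_trans (mul_le_mul_of_nonneg_left ?_ hw) hw2
        exact Finset.prod_le_prod (fun i _ => by positivity) fun i _ =>
          mul_le_mul_of_nonneg_right hk1 (abs_nonneg _)
      have h7 : 0 < max 1 P := lt_of_lt_of_le one_pos (le_max_left _ _)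
      rw [← div_eq_mul_inv, le_div_iff₀ h7]
      rcases max_choice 1 P with h | h
      · rw [h, mul_one]
        exact hw1.trans (hKC.trans hKM)
      · rw [h]
        exact h6.trans hKM
    calc ENNReal.ofReal w = (ENNReal.ofReal (w ^ al)) ^ (1 / al) := by
          rw [← ENNReal.ofReal_rpow_of_nonneg hw hal0.le, ← ENNReal.rpow_mul, one_div,
            mul_inv_cancel₀ hal0.ne', ENNReal.rpow_one]
      _ ≤ _ := ENNReal.rpow_le_rpow hle (by positivity)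
  · -- the integral
    set S0 : Set ℝ := {s : ℝ | |s| ≤ K ^ n} with hS0
    have hpow : ∀ s y, ((∑' k, f k (s, y)) ^ (1 / al)) ^ al = ∑' k, f k (s, y) := by
      intro s y
      rw [← ENNReal.rpow_mul, one_div, inv_mul_cancel₀ hal0.ne', ENNReal.rpow_one]
    simp only [hpow]
    have hswap : ∫⁻ s in S0, ∫⁻ y in B, ∑' k, f k (s, y) =
        ∑' k, ∫⁻ s in S0, ∫⁻ y in B, f k (s, y) := by
      rw [← lintegral_tsum fun k => ((hfm k).lintegral_prod_right').aemeasurable]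
      refine lintegral_congr fun s => ?_
      have hmk : ∀ k, Measurable fun y => f k (s, y) := fun k =>
        (hfm k).comp measurable_prodMk_left
      rw [lintegral_tsum fun k => (hmk k).aemeasurable]
    rw [hswap]
    have hone : ∀ k, ∫⁻ s in S0, ∫⁻ y in B, f k (s, y) ≤
        ENNReal.ofReal (K' * M ^ (al + 1) * (L ^ θ + V * T ^ (1 + θ)) * ((1 / 2 : ℝ) ^ θ) ^ k) := by
      intro k
      have hslope : ∀ y, ∫⁻ s in S0, f k (s, y) ≤
          ∫⁻ s in S0, ENNReal.ofReal (GIs d M (μ y) Finset.univ k s ^ al) := by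
        intro y
        refine lintegral_mono fun s => ?_
        exact indicator_le_self' (fun _ _ => zero_le) (s, y)
      refine sm_two (volume.restrict B) S0 (f k) (hfm k) (U k) (hUm k) ?_ K' al M L θ
        ((1 / 2 : ℝ) ^ θ) T V (T ^ (1 + θ)) k hK'.le hM1 hL1 hV0 (by positivity) (by positivity)
        (fun y => (hslope y).trans (H M L (μ y) Finset.univ k S0 hM1 hL1 (by simp)
          (sm_vol K n)).1) (fun hk y => (hslope y).trans ?_) ?_
      · intro y hy s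
        rw [hf]
        dsimp only
        rw [indicator_of_notMem]
        exact hy
      · refine ((H M L (μ y) Finset.univ k S0 hM1 hL1 (by simp)
          (sm_vol K n)).2 T hT1 hk).trans (ENNReal.ofReal_le_ofReal (le_of_eq ?_))
        rw [Nat.sub_self, Nat.cast_zero, zero_mul, neg_zero, max_eq_left (by norm_num),
          Real.rpow_zero, mul_one]
      · rw [Measure.restrict_apply (hUm k)]
        exact hUv k
    refine (ENNReal.tsum_le_tsum hone).trans ?_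
    refine (gi_geom _ _ (by positivity) (by positivity) hq1).trans ?_
    rw [hBV, ← ENNReal.ofReal_div_of_pos hρ, ← ENNReal.ofReal_one, ← ENNReal.ofReal_add one_pos.le
      (by positivity), ← ENNReal.ofReal_mul (by positivity)]
    refine ENNReal.ofReal_le_ofReal ?_
    obtain ⟨hLK, hTK⟩ := sm_pow (n := n) (C := C) hK2 hρ hρn
    have hLK' : L ^ θ ≤ K := hLK
    have hTK' : T ^ θ ≤ K := hTK
    have h4 : M ^ (al + 1) ≤ K ^ ((C + 1) * ⌈al + 1⌉₊) := by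
      rw [hM, pow_mul, ← Real.rpow_natCast (K ^ (C + 1)) ⌈al + 1⌉₊]
      exact Real.rpow_le_rpow_of_exponent_le hM1 (Nat.le_ceil _)
    have h5 : L ^ θ + V * T ^ (1 + θ) ≤ K ^ (C + 2) * (1 + V / ρ) := by
      have hT0 : 0 < T := by linarith
      have h6 : T ^ (1 + θ) = T * T ^ θ := by rw [Real.rpow_add hT0, Real.rpow_one]
      have h7 : V * (T * T ^ θ) ≤ V * (T * K) := by gcongr
      have h8 : V * (T * K) = 2 * K ^ C * K * (V / ρ) := by rw [hT]; ring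
      have h9 : 2 * K ^ C * K ≤ K ^ (C + 2) := by
        calc 2 * K ^ C * K ≤ K * K ^ C * K := by gcongr
          _ = K ^ (C + 2) := by ring
      have h10 : K ≤ K ^ (C + 2) := by
        calc K = K ^ 1 := (pow_one K).symm
          _ ≤ K ^ (C + 2) := pow_le_pow_right₀ hK1 (by omega)
      have h11 : 0 ≤ V / ρ := by positivity
      rw [h6]
      calc L ^ θ + V * (T * T ^ θ) ≤ K ^ (C + 2) + K ^ (C + 2) * (V / ρ) := by
            refine add_le_add (hLK'.trans h10) (h7.trans ?_)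
            rw [h8]
            gcongr
        _ = _ := by ring
    have hqi : 0 < (1 - (1 / 2 : ℝ) ^ θ)⁻¹ := inv_pos.2 hq0
    calc K' * M ^ (al + 1) * (L ^ θ + V * T ^ (1 + θ)) * (1 - (1 / 2 : ℝ) ^ θ)⁻¹
        = (K' * (1 - (1 / 2 : ℝ) ^ θ)⁻¹) * M ^ (al + 1) * (L ^ θ + V * T ^ (1 + θ)) := by ring
      _ ≤ K * K ^ ((C + 1) * ⌈al + 1⌉₊) * (K ^ (C + 2) * (1 + V / ρ)) := by gcongr
      _ = K ^ (3 + (C + 1) * ⌈al + 1⌉₊ + C) * (1 + V / ρ) := by ring
      _ ≤ K ^ (4 + (C + 1) * ⌈al + 1⌉₊ + C) * (1 + V / ρ) := by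
          gcongr
          omega

end Pool.Agent.GNP
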