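import Pool.Agent.GNP.DefsH
import Pool.Agent.GNP.HSS
import Pool.Agent.GNP.HSG0
import Pool.Agent.GNP.HSG
import Pool.Agent.GNP.HST
import Pool.Agent.GNP.HSA
import Pool.Agent.GNP.GEO6
import Pool.Agent.GNP.MUM
import Pool.Agent.GNP.FAMG
import Pool.Agent.GNP.GAP

/-!
Every phase, all dimensions: one amplitude at the scale `1/R`, supported in a set of measure `v`.
-/

namespace Pool.Agent.GNP

open MeasureTheory Set Pool.Agent.MP_6cbfb8_an
open scoped ENNReal Real RealInnerProductSpace ContDiff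

theorem hsc_poly {d : ℕ} (P P' : MvPolynomial (Fin d) ℝ) (c s : ℝ) (y : E d) :
    pe (MvPolynomial.C c * P - MvPolynomial.C s * P') y = c * pe P y - s * pe P' y := by
  unfold pe
  simp

theorem hsc_deg {d D : ℕ} {P P' : MvPolynomial (Fin d) ℝ} (hP : P.totalDegree ≤ D)
    (hP' : P'.totalDegree ≤ D) (c s : ℝ) :
    (MvPolynomial.C c * P - MvPolynomial.C s * P').totalDegree ≤ D := by
  refine (MvPolynomial.totalDegree_sub _ _).trans (max_le ?_ ?_)
  · refine (MvPolynomial.totalDegree_mul _ _).trans ?_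
    rw [MvPolynomial.totalDegree_C, zero_add]
    exact hP
  · refine (MvPolynomial.totalDegree_mul _ _).trans ?_
    rw [MvPolynomial.totalDegree_C, zero_add]
    exact hP'

theorem hsc_pos {K r : ℝ} {n : ℕ} (hK : 0 < K) (h : 1 ≤ K ^ n * r) : 0 < r := by
  by_contra h0
  push Not at h0
  have : K ^ n * r ≤ 0 := mul_nonpos_of_nonneg_of_nonpos (by positivity) h0
  linarith

theorem hsc_geoN {d C C' n n' : ℕ} {K : ℝ} {μ : Fin d → ℝ} {Un Un' : ℝ → Prop} {s w : ℝ}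
    (hK : 1 ≤ K) (hC : C ≤ C') (hn : n ≤ n') (hU : ∀ r, 0 < r → Un r → Un' r)
    (h : GeoN d C n K μ Un s w) : GeoN d C' n' K μ Un' s w := by
  have hK0 : 0 < K := by linarith
  have e1 : K ^ C ≤ K ^ C' := pow_le_pow_right₀ hK hC
  rcases h with h | ⟨I, r, h1, hr, hr1, ht, hw, hp, hU'⟩
  · exact Or.inl (h.trans e1)
  · have hr0 : 0 < r := hsc_pos hK0 hr
    have e2 : K ^ C * r ^ (d - I.card) ≤ K ^ C' * r ^ (d - I.card) :=
      mul_le_mul_of_nonneg_right e1 (by positivity)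
    exact Or.inr ⟨I, r, h1, hr.trans (mul_le_mul_of_nonneg_right
      (pow_le_pow_right₀ hK hn) hr0.le), hr1, fun i hi => (ht i hi).trans e1, hw.trans e2,
      hp.trans e2, fun h2 => hU r hr0 (hU' h2)⟩

theorem hsc_tt {d C C' n n' : ℕ} {K : ℝ} {μ : Fin d → ℝ} {Un Un' : ℝ → Prop} {s w : ℝ}
    (hK : 1 ≤ K) (hC : C ≤ C') (hn : n ≤ n') (hU : ∀ r, 0 < r → Un r → Un' r)
    (h : TTr C n K μ Un s w) : TTr C' n' K μ Un' s w := by
  have hK0 : 0 < K := by linarith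
  obtain ⟨r, hr, hr1, hw, hp, hU'⟩ := h
  have hr0 : 0 < r := hsc_pos hK0 hr
  exact ⟨r, hr.trans (mul_le_mul_of_nonneg_right (pow_le_pow_right₀ hK hn) hr0.le), hr1, hw,
    hp.trans (pow_le_pow_right₀ hK hC), hU r hr0 hU'⟩

theorem hsc_uns {d C C' : ℕ} {K ρ : ℝ} {μ : E d → Fin d → ℝ} {y : E d} {r : ℝ} (hK : 1 ≤ K)
    (hr : 0 ≤ r) (hC : C ≤ C') (h : Uns C K ρ μ y r) : Uns C' K ρ μ y r := by
  have h1 : K ^ C * r ≤ K ^ C' * r :=
    mul_le_mul_of_nonneg_right (pow_le_pow_right₀ hK hC) hr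
  rcases h with h | ⟨k, h⟩
  · exact Or.inl (h.trans h1)
  · exact Or.inr ⟨k, fun h2 => h (stab_mono h2 h1)⟩

/-- The powers of `v`. -/
theorem hsc_pow {p p' v K R : ℝ} {e : ℕ} (hpp2 : p' < p / 2 + 1)
    (he : p ≤ e) (hp' : 2 < p') (hK : 1 ≤ K) (hv : 0 ≤ v) (hvK : v ≤ K) (hR : 0 ≤ R) :
    v ^ (p - p') * (1 + v * R) ≤ K ^ e * (1 + R * v ^ (p / 2)) := by
  have hKe : ∀ t : ℝ, 0 < t → t ≤ p → v ^ t ≤ K ^ e := by
    intro t ht htp
    calc v ^ t ≤ K ^ t := Real.rpow_le_rpow hv hvK ht.le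
      _ ≤ K ^ (e : ℝ) := Real.rpow_le_rpow_of_exponent_le hK (htp.trans he)
      _ = K ^ e := Real.rpow_natCast K e
  have h1 : v ^ (p - p') ≤ K ^ e := hKe _ (by linarith) (by linarith)
  have h2 : v ^ (p - p') * v ≤ K ^ e * v ^ (p / 2) := by
    rcases hv.eq_or_lt with h0 | h0
    · rw [← h0, mul_zero]
      positivity
    · have e1 : v ^ (p - p') * v = v ^ (p / 2 + 1 - p') * v ^ (p / 2) := by
        conv_lhs => rw [← Real.rpow_one v, ← Real.rpow_mul h0.le]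
        rw [one_mul, ← Real.rpow_add h0, ← Real.rpow_add h0]
        congr 1
        ring
      rw [e1]
      exact mul_le_mul_of_nonneg_right (hKe _ (by linarith) (by linarith)) (by positivity)
  calc v ^ (p - p') * (1 + v * R) = v ^ (p - p') + (v ^ (p - p') * v) * R := by ring
    _ ≤ K ^ e + (K ^ e * v ^ (p / 2)) * R := by gcongr
    _ = _ := by ring

/-- The final sum. -/
theorem hsc_final {K K1 v R α β γ : ℝ} {C1 Ca Ct e : ℕ} (hK : 4 ≤ K)
    (hKK : K1 ≤ K) (hα : 0 ≤ α) (hβ : 0 ≤ β) (hγ : 0 ≤ γ) (h1 : α ≤ K ^ Ca * (1 + R))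
    (h2 : β ≤ K ^ (Ct + e) * (1 + v)) (h3 : γ ≤ 2) (hR : 0 ≤ R) (hv : 0 ≤ v) :
    K1 * K ^ C1 * (α + β + γ) ≤ K ^ (C1 + Ca + Ct + e + 3) * (1 + v + R) := by
  have hK0 : 0 < K := by linarith
  have hK1' : 1 ≤ K := by linarith
  have e1 : K ^ Ca ≤ K ^ (Ca + Ct + e) := pow_le_pow_right₀ hK1' (by omega)
  have e2 : K ^ (Ct + e) ≤ K ^ (Ca + Ct + e) := pow_le_pow_right₀ hK1' (by omega)
  have e3 : (1 : ℝ) ≤ K ^ (Ca + Ct + e) := one_le_pow₀ hK1'
  have e4 : α ≤ K ^ (Ca + Ct + e) * (1 + v + R) :=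
    h1.trans (mul_le_mul e1 (by linarith) (by linarith) (by positivity))
  have e5 : β ≤ K ^ (Ca + Ct + e) * (1 + v + R) :=
    h2.trans (mul_le_mul e2 (by linarith) (by linarith) (by positivity))
  have e6 : γ ≤ 2 * (K ^ (Ca + Ct + e) * (1 + v + R)) := by
    have : 1 ≤ K ^ (Ca + Ct + e) * (1 + v + R) := by
      nlinarith [mul_nonneg (by positivity : (0 : ℝ) ≤ K ^ (Ca + Ct + e)) (add_nonneg hv hR)]
    linarith
  calc K1 * K ^ C1 * (α + β + γ) ≤ K * K ^ C1 * (4 * (K ^ (Ca + Ct + e) * (1 + v + R))) := by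
        gcongr
        linarith
    _ ≤ K * K ^ C1 * (K * (K ^ (Ca + Ct + e) * (1 + v + R))) := by gcongr
    _ = K ^ (C1 + Ca + Ct + e + 2) * (1 + v + R) := by ring
    _ ≤ _ := mul_le_mul_of_nonneg_right (pow_le_pow_right₀ hK1' (by omega)) (by linarith)

/-- The cell, for a given exponent `p'` of the terminal part. -/
theorem hsc_main (m : ℕ) (hd : 2 ≤ m + 1) (p p' : ℝ) (hp'3 : 2 < p') (hp'4 : p' < p)
    (hp'2 : p' < p / 2 + 1) (hp'1 : 1 / ((m + 1 : ℕ) : ℝ) < p' - 2)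
    (hal : 2 / ((m + 1 : ℕ) : ℝ) < p - 2) (hp' : ∀ m : ℕ, (m : ℝ) * (p - 2) ≠ 1) :
    CellHS (m + 1) p := by
  have hd0 : (0 : ℝ) < ((m + 1 : ℕ) : ℝ) := by positivity
  obtain ⟨C1, hft⟩ := ft_splitQ m p p' hp'3 hp'4.le
  obtain ⟨Cg, hgeo⟩ := geo_rho (m + 1) (by omega)
  obtain ⟨Ch, hgtt⟩ := geo_tt (m + 1) hd
  set Cm : ℕ := max Cg Ch with hCm
  have hCg : Cg ≤ Cm := le_max_left _ _
  have hCh : Ch ≤ Cm := le_max_right _ _
  obtain ⟨Ca, hsa⟩ := sum_aa (m + 1) (Cm + 2) hd (p - 2) hal hp'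
  obtain ⟨Ct, hst⟩ := sum_tt (m + 1) (Cm + 2) (by omega) (p' - 2) hp'1
  obtain ⟨e, he⟩ := exists_nat_ge p
  refine ⟨C1 + Ca + Ct + e + 3, fun A B b r D n0 hb hr => ?_⟩
  -- the constants
  set n : ℕ := 2 * n0 + Cm with hn
  obtain ⟨A', hA'⟩ := hft D (fun j => |A j|) (r + n0) 1 (fun j => abs_nonneg _) (by positivity)
    one_pos le_rfl
  obtain ⟨J, hJ⟩ := hA' (n0 + 1)
  obtain ⟨K1, hK11, hft⟩ := hJ J le_rfl B n0
  obtain ⟨K2, hK21, hgeo⟩ := hgeo A A' b r hb hr n0 J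
  obtain ⟨K3, hK31, hg⟩ := fam_gap (m + 1) Cm A b r n0 (gap (m + 1) A b r hb hr n0)
  obtain ⟨K4, hK41, hsa⟩ := hsa n
  obtain ⟨K5, hK51, hst⟩ := hst n
  obtain ⟨K6, hK61, hgtt⟩ := hgtt A b r hb hr n0 J
  set V : ℝ := (volume (Metric.closedBall (0 : E (m + 1)) r)).toReal with hV
  have hV0 : 0 ≤ V := ENNReal.toReal_nonneg
  refine ⟨max (max (max K1 K2) (max K3 K4)) (max (max K5 K6) (max V 4)),
    le_max_of_le_left (le_max_of_le_left (le_max_of_le_left hK11)),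
    fun K hK Φ h P P' z c R v S hΦ hh hP hP' hpe hD hz hc hR1 hRK hS hSz hv0 hvK hSv => ?_⟩
  have hKK1 : K1 ≤ K := ((le_max_left _ _).trans ((le_max_left _ _).trans (le_max_left _ _))).trans hK
  have hKK2 : K2 ≤ K := ((le_max_right _ _).trans ((le_max_left _ _).trans (le_max_left _ _))).trans hK
  have hKK3 : K3 ≤ K := ((le_max_left _ _).trans ((le_max_right _ _).trans (le_max_left _ _))).trans hK
  have hKK4 : K4 ≤ K := ((le_max_right _ _).trans ((le_max_right _ _).trans (le_max_left _ _))).trans hK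
  have hKK5 : K5 ≤ K := ((le_max_left _ _).trans ((le_max_left _ _).trans (le_max_right _ _))).trans hK
  have hKK6 : K6 ≤ K := ((le_max_right _ _).trans ((le_max_left _ _).trans (le_max_right _ _))).trans hK
  have hKV : V ≤ K := ((le_max_left _ _).trans ((le_max_right _ _).trans (le_max_right _ _))).trans hK
  have hK4' : 4 ≤ K := ((le_max_right _ _).trans ((le_max_right _ _).trans (le_max_right _ _))).trans hK
  have hK1 : 1 ≤ K := by linarith
  have hK0 : 0 < K := by linarith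
  have hR0 : 0 < R := by linarith
  have hcK : |c| ≤ K ^ n0 := by linarith
  have hKn : K ^ n0 ≤ K ^ n := pow_le_pow_right₀ hK1 (by omega)
  -- the roots and the sets of instability
  obtain ⟨μ, hμm, hμ⟩ := mu_cut (r := 2 * r) hΦ.sm hh.sm hb hD c
  obtain ⟨X, hXm, hXv, -, hX⟩ := hg K hKK3 Φ h z c hΦ hh hz hD hcK
  have hvol : volume (Metric.closedBall z r) = ENNReal.ofReal V := by
    rw [hV, ENNReal.ofReal_toReal (measure_closedBall_lt_top.ne)]
    exact Measure.addHaar_closedBall_center volume z r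
  have hSK : volume S ≤ ENNReal.ofReal K :=
    (measure_mono hSz).trans (by rw [hvol]; exact ENNReal.ofReal_le_ofReal hKV)
  have hSr : ∀ y ∈ S, ‖y - z‖ ≤ r := fun y hy => by simpa [dist_eq_norm] using hSz hy
  have hρ0 : (0 : ℝ) < 1 / R := by positivity
  have hρ1 : 1 / R ≤ 1 := by
    rw [div_le_one hR0]
    exact hR1
  have hρK : 1 ≤ K ^ n0 * (1 / R) := by
    rw [mul_one_div, le_div_iff₀ hR0, one_mul]
    exact hRK
  have hρKn : 1 ≤ K ^ n * (1 / R) := hρK.trans (mul_le_mul_of_nonneg_right hKn hρ0.le)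
  have hXv' : ∀ j, volume (X j ∩ S) ≤ ENNReal.ofReal (K ^ (Cm + 2) * ((2 : ℝ) ^ j)⁻¹) := fun j =>
    (measure_mono (inter_subset_inter_right _ hSz)).trans (hXv j)
  obtain ⟨G, hGm, hG, hGi⟩ := hsa K hKK4 S μ (1 / R) X hS hSK hρ0 hρ1 hρKn hμm hXm hXv'
  obtain ⟨G', hGm', hG', hGi'⟩ := hst K hKK5 S μ (1 / R) X hS hSK hρ0 hρ1 hρKn hμm hXm hXv'
  have hUn : ∀ C, C ≤ Cm → ∀ y ∈ S, ∀ t : ℝ, 0 < t → Uns C K (1 / R) (mu Φ h c) y t →
      Sc (Cm + 2) K (1 / R) X y t := by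
    intro C hC y hy t ht hU
    rcases hX (1 / R) t y (hSr y hy) (hsc_uns hK1 ht.le hC hU) with h3 | h3
    · refine Or.inl (h3.trans (mul_le_mul_of_nonneg_right (pow_le_pow_right₀ hK1 (by omega)) ht.le))
    · exact Or.inr h3
  -- the majorant
  have hm1 : Measurable fun x : ℝ × E (m + 1) => G x.1 x.2 ^ (p - 2) := hGm.pow_const _
  have hm2 : Measurable fun s : ℝ => ∫⁻ y in S, G s y ^ (p - 2) :=
    Measurable.lintegral_prod_right' (f := fun x : ℝ × E (m + 1) => G x.1 x.2 ^ (p - 2)) hm1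
  have hm1' : Measurable fun x : ℝ × E (m + 1) => G' x.1 x.2 ^ (p' - 2) := hGm'.pow_const _
  have hm2' : Measurable fun s : ℝ => ∫⁻ y in S, G' s y ^ (p' - 2) :=
    Measurable.lintegral_prod_right' (f := fun x : ℝ × E (m + 1) => G' x.1 x.2 ^ (p' - 2)) hm1'
  have hm3' : Measurable fun s : ℝ => ENNReal.ofReal (v ^ (p - p')) *
      (∫⁻ y in S, G' s y ^ (p' - 2)) := hm2'.const_mul _
  have hm4 : Measurable fun s : ℝ => (∫⁻ y in S, G s y ^ (p - 2)) +
      ENNReal.ofReal (v ^ (p - p')) * (∫⁻ y in S, G' s y ^ (p' - 2)) := hm2.add hm3'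
  have hm5 : Measurable fun s : ℝ => (∫⁻ y in S, G s y ^ (p - 2)) +
      ENNReal.ofReal (v ^ (p - p')) * (∫⁻ y in S, G' s y ^ (p' - 2)) +
      ENNReal.ofReal ((K ^ n0)⁻¹) := hm4.add_const _
  refine ⟨fun s => ENNReal.ofReal (K1 * K ^ C1) * ((∫⁻ y in S, G s y ^ (p - 2)) +
    ENNReal.ofReal (v ^ (p - p')) * (∫⁻ y in S, G' s y ^ (p' - 2)) +
    ENNReal.ofReal ((K ^ n0)⁻¹)), ?_, ?_, ?_⟩
  · exact hm5.const_mul _
  · -- the integral in `s`
    have hsub : {s : ℝ | |s| ≤ K ^ n0} ⊆ {s : ℝ | |s| ≤ K ^ n} := fun s hs => le_trans hs hKn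
    beta_reduce
    rw [lintegral_const_mul _ hm5, lintegral_add_left hm4, lintegral_add_left hm2,
      lintegral_const_mul _ hm2', setLIntegral_const]
    have h3 : volume {s : ℝ | |s| ≤ K ^ n0} = ENNReal.ofReal (2 * K ^ n0) := by
      have : {s : ℝ | |s| ≤ K ^ n0} = Metric.closedBall 0 (K ^ n0) := by
        ext s
        simp
      rw [this, Real.volume_closedBall]
    have h4 : ENNReal.ofReal ((K ^ n0)⁻¹) * volume {s : ℝ | |s| ≤ K ^ n0} = ENNReal.ofReal 2 := by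
      rw [h3, ← ENNReal.ofReal_mul (by positivity)]
      rw [show (K ^ n0)⁻¹ * (2 * K ^ n0) = 2 by field_simp]
    rw [h4]
    have h5 : ∫⁻ s in {s : ℝ | |s| ≤ K ^ n0}, ∫⁻ y in S, G s y ^ (p - 2) ≤
        ENNReal.ofReal (K ^ Ca * (1 + R ^ (1 - 1 / ((m + 1 : ℕ) : ℝ)) * v)) := by
      refine (lintegral_mono_set hsub).trans (hGi.trans ?_)
      have e1 : (1 / R) ^ (1 / ((m + 1 : ℕ) : ℝ) - 1) = R ^ (1 - 1 / ((m + 1 : ℕ) : ℝ)) := by
        rw [one_div R, Real.inv_rpow hR0.le, ← Real.rpow_neg hR0.le]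
        congr 1
        ring
      rw [e1, ENNReal.ofReal_mul (by positivity), ENNReal.ofReal_add (by norm_num) (by positivity),
        ENNReal.ofReal_one, ENNReal.ofReal_mul (by positivity)]
      gcongr
    have h6 : ENNReal.ofReal (v ^ (p - p')) *
        (∫⁻ s in {s : ℝ | |s| ≤ K ^ n0}, ∫⁻ y in S, G' s y ^ (p' - 2)) ≤
        ENNReal.ofReal (K ^ (Ct + e) * (1 + R * v ^ (p / 2))) := by
      have e2 : volume S / ENNReal.ofReal (1 / R) ≤ ENNReal.ofReal (v * R) := by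
        rw [ENNReal.div_eq_inv_mul, ← ENNReal.ofReal_inv_of_pos hρ0, one_div, inv_inv, mul_comm v R,
          ENNReal.ofReal_mul hR0.le]
        gcongr
      calc ENNReal.ofReal (v ^ (p - p')) *
            (∫⁻ s in {s : ℝ | |s| ≤ K ^ n0}, ∫⁻ y in S, G' s y ^ (p' - 2))
          ≤ ENNReal.ofReal (v ^ (p - p')) * (ENNReal.ofReal (K ^ Ct) *
              (1 + ENNReal.ofReal (v * R))) := by
            gcongr
            refine (lintegral_mono_set hsub).trans (hGi'.trans ?_)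
            gcongr
        _ = ENNReal.ofReal (K ^ Ct * (v ^ (p - p') * (1 + v * R))) := by
            rw [ENNReal.ofReal_mul (by positivity : 0 ≤ K ^ Ct),
              ENNReal.ofReal_mul (by positivity : 0 ≤ v ^ (p - p')),
              ENNReal.ofReal_add (by norm_num) (by positivity), ENNReal.ofReal_one]
            ring
        _ ≤ _ := by
            apply ENNReal.ofReal_le_ofReal
            rw [pow_add, mul_assoc]
            refine mul_le_mul_of_nonneg_left ?_ (by positivity)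
            exact hsc_pow hp'2 he hp'3 hK1 hv0 hvK hR0.le
    calc ENNReal.ofReal (K1 * K ^ C1) *
          ((∫⁻ s in {s : ℝ | |s| ≤ K ^ n0}, ∫⁻ y in S, G s y ^ (p - 2)) +
            ENNReal.ofReal (v ^ (p - p')) *
              (∫⁻ s in {s : ℝ | |s| ≤ K ^ n0}, ∫⁻ y in S, G' s y ^ (p' - 2)) +
            ENNReal.ofReal 2)
        ≤ ENNReal.ofReal (K1 * K ^ C1) *
          (ENNReal.ofReal (K ^ Ca * (1 + R ^ (1 - 1 / ((m + 1 : ℕ) : ℝ)) * v)) +
            ENNReal.ofReal (K ^ (Ct + e) * (1 + R * v ^ (p / 2))) + ENNReal.ofReal 2) := by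
          gcongr
      _ = ENNReal.ofReal (K1 * K ^ C1 * (K ^ Ca * (1 + R ^ (1 - 1 / ((m + 1 : ℕ) : ℝ)) * v) +
            K ^ (Ct + e) * (1 + R * v ^ (p / 2)) + 2)) := by
          rw [ENNReal.ofReal_mul (p := K1 * K ^ C1) (by positivity),
            ENNReal.ofReal_add (by positivity) (by norm_num),
            ENNReal.ofReal_add (by positivity) (by positivity)]
      _ ≤ _ := by
          apply ENNReal.ofReal_le_ofReal
          refine hsc_final hK4' hKK1 (by positivity) (by positivity) (by norm_num)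
            le_rfl le_rfl le_rfl (by positivity) (by positivity)
  · -- one slope
    intro s hs a ha hbd haS
    have hsm : ContDiff ℝ ∞ (ph Φ h c s) :=
      (contDiff_const.mul hΦ.sm).sub (contDiff_const.mul hh.sm)
    have hGs : Measurable (G s) := hGm.comp measurable_prodMk_left
    have hGs' : Measurable (G' s) := hGm'.comp measurable_prodMk_left
    have hKn1 : (1 : ℝ) ≤ K ^ n0 := one_le_pow₀ hK1
    have hDy : ∀ y ∈ S, DfB b y r h := fun y hy u hu => hD u (by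
        calc ‖u - z‖ = ‖(u - y) + (y - z)‖ := by rw [sub_add_sub_cancel]
          _ ≤ ‖u - y‖ + ‖y - z‖ := norm_add_le _ _
          _ ≤ 2 * r := by linarith [hSr y hy])
    refine hft K hKK1 (ph Φ h c s) (MvPolynomial.C c * P - MvPolynomial.C s * P') a R
      (2 * K ^ n0) v S (G s) (G' s) hsm (fun y hy => ?_) (hsc_deg hP hP' c s) hR1
      (hRK.trans (pow_le_pow_right₀ hK1 (Nat.le_succ n0))) (by positivity) ?_ ha (fun y hy => ?_)
      hbd hS hv0 hvK hSv (fun y hy => ?_) (fun y hy j hj => ?_) hGs hGs' (fun y hy w hw hW => ?_)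
      (fun y hy w hw hW => ?_)
    · obtain ⟨e1, e2⟩ := hpe y ((hSr y hy).trans (by linarith))
      rw [hsc_poly, ← e1, ← e2]
      rfl
    · rw [pow_succ]
      nlinarith
    · by_contra h0
      have h1 : y ∈ S := haS y h0 (Metric.mem_closedBall_self (by positivity))
      have h2 : ‖y‖ ≤ r + n0 := by
        calc ‖y‖ = ‖(y - z) + z‖ := by rw [sub_add_cancel]
          _ ≤ ‖y - z‖ + ‖z‖ := norm_add_le _ _
          _ ≤ r + n0 := add_le_add (hSr y h1) hz
      linarith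
    · refine (Metric.closedBall_subset_closedBall ?_).trans (haS y hy)
      rw [mul_one_div]
      gcongr
      norm_num
    · refine (ph_bound hΦ.sm hh.sm c s j y).trans ?_
      have h1 : ‖iteratedFDeriv ℝ j Φ y‖ ≤ |A j| := (hΦ.bd j y).trans (le_abs_self _)
      have h2 : ‖iteratedFDeriv ℝ j h y‖ ≤ |A j| := (hh.bd j y).trans (le_abs_self _)
      calc |c| * ‖iteratedFDeriv ℝ j Φ y‖ + |s| * ‖iteratedFDeriv ℝ j h y‖
          ≤ K ^ n0 * |A j| + K ^ n0 * |A j| := by gcongr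
        _ = |A j| * (2 * K ^ n0) := by ring
    · have hwρ : w ≤ 1 / R := WtA.le hK1 hρ1 hw hW
      have h1 := hgeo K hKK2 Φ h c s (1 / R) w y hΦ hh hcK hs (hDy y hy) hρK hρ1 hw (WtA.wt hW)
      have h2 := hsc_geoN (C' := Cm + 2) (n' := n) (Un' := Sc (Cm + 2) K (1 / R) X y) hK1
        (by omega) (by omega) (fun t ht hU => hUn Cg hCg y hy t ht hU) h1
      rw [← hμ y ((hSr y hy).trans (by linarith))] at h2
      exact hG s y hy w hw hwρ h2
    · have h1 := hgtt K hKK6 Φ h c s (1 / R) w y hΦ hh hcK hs (hDy y hy) hρK hρ1 hw hW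
      have h2 := hsc_tt (C' := Cm + 2) (n' := n) (Un' := Sc (Cm + 2) K (1 / R) X y) hK1
        (by omega) (by omega) (fun t ht hU => hUn Ch hCh y hy t ht hU) h1
      rw [← hμ y ((hSr y hy).trans (by linarith))] at h2
      exact hG' s y hy w hw h2

/-- **Row CBS.** -/
theorem cell_hs (d : ℕ) (hd : 2 ≤ d) (p : ℝ) (hp : 2 * ((d : ℝ) + 1) / d < p)
    (hp' : ∀ m : ℕ, (m : ℝ) * (p - 2) ≠ 1) : CellHS d p := by
  have hd0 : (0 : ℝ) < d := by
    have : 0 < d := by omega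
    exact_mod_cast this
  have hal : 2 / (d : ℝ) < p - 2 := by
    have h1 : 2 * ((d : ℝ) + 1) / d = 2 + 2 / d := by
      field_simp
    rw [h1] at hp
    linarith
  have hd1 : 0 < 1 / (d : ℝ) := by positivity
  have h2d : 2 / (d : ℝ) = 2 * (1 / (d : ℝ)) := by ring
  -- the exponent of the terminal part
  obtain ⟨p', hp'1, hp'2⟩ : ∃ p', 2 + 1 / (d : ℝ) < p' ∧ p' < p / 2 + 1 :=
    exists_between (by linarith)
  obtain ⟨m, rfl⟩ : ∃ m, d = m + 1 := ⟨d - 1, by omega⟩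
  exact hsc_main m hd p p' (by linarith) (by linarith) hp'2 (by linarith) hal hp'

end Pool.Agent.GNP
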