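import Pool.Agent.GNP.BD

/-! ## IMP: the critical point in one variable, with bounds for all derivatives -/

namespace Pool.Agent.GNP

open Set Filter Topology
open scoped ContDiff Nat

namespace Bk

variable {X Y Z : Type*} [NormedAddCommGroup X] [NormedSpace ℝ X]
  [NormedAddCommGroup Y] [NormedSpace ℝ Y] [NormedAddCommGroup Z] [NormedSpace ℝ Z]

theorem const (y : Y) : Bk 0 (fun _ => ‖y‖) (fun _ : X => y) := by
  refine ⟨contDiff_const, fun j _ x => ?_⟩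
  rcases j with _ | j
  · rw [norm_iteratedFDeriv_zero]
  · rw [iteratedFDeriv_const_of_ne (by omega)]
    simp

theorem of_clm (L : X →L[ℝ] Y) : Bk 1 (fun _ => ‖L‖) (fun x => L x) := by
  have h1 : Bk 0 (fun _ => ‖L‖) (_root_.fderiv ℝ fun x => L x) := by
    have : (_root_.fderiv ℝ fun x => L x) = fun _ => L := by
      ext1 x
      exact L.fderiv
    rw [this]
    exact const L
  exact of_fderiv L.contDiff h1

/-- Composition of functions bounded from order one. -/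
theorem comp1 {A B : ℕ → ℝ} {g : Y → Z} {f : X → Y} (hg : Bk 1 A g) (hf : Bk 1 B f) :
    Bk 1 (fun j => (fun n => ∑ i ∈ Finset.range (n + 1), (n.choose i : ℝ) *
      (i ! * (∑ l ∈ Finset.range (i + 1), |A (l + 1)|)
        * (1 + ∑ l ∈ Finset.range (i + 1), |B l|) ^ i) * B (n - i + 1)) (j - 1))
      (fun x => g (f x)) := by
  have h1 := hg.fderiv.comp hf
  have h2 := hf.fderiv
  have h3 := h1.bilin h2 (ContinuousLinearMap.compL ℝ X Y Z) (ContinuousLinearMap.norm_compL_le ..)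
  have h4 : (fun x => ContinuousLinearMap.compL ℝ X Y Z (_root_.fderiv ℝ g (f x))
      (_root_.fderiv ℝ f x)) = _root_.fderiv ℝ (fun x => g (f x)) := by
    ext1 x
    exact (fderiv_comp x (hg.sm.differentiable (by simp) _)
      (hf.sm.differentiable (by simp) _)).symm
  rw [h4] at h3
  exact of_fderiv (hg.sm.comp hf.sm) h3

/-- Bootstrapping: `Dw = R(G)` with `G = h + J w` and bounded `R` bounds all derivatives of `w`. -/
theorem bootstrap (A : ℕ → ℝ) (h : X →L[ℝ] Y) (J : ℝ →L[ℝ] Y) : ∃ C : ℕ → ℝ,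
    ∀ (w : X → ℝ) (R : Y → (X →L[ℝ] ℝ)), ContDiff ℝ ∞ w → Bk 0 A R →
      (∀ y, _root_.fderiv ℝ w y = R (h y + J (w y))) → Bk 1 C w := by
  have key : ∀ n : ℕ, ∃ C : ℝ, ∀ (w : X → ℝ) (R : Y → (X →L[ℝ] ℝ)), ContDiff ℝ ∞ w → Bk 0 A R →
      (∀ y, _root_.fderiv ℝ w y = R (h y + J (w y))) → ∀ y, ‖iteratedFDeriv ℝ (n + 1) w y‖ ≤ C := by
    intro n
    induction n using Nat.strong_induction_on with
    | _ n ih =>
      choose C hC using ih
      set D : ℝ := 1 + ∑ i ∈ Finset.range (n + 1), (‖h‖ + ‖J‖ * |if hi : i < n then C i hi else 0|)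
        with hD
      refine ⟨n ! * (∑ i ∈ Finset.range (n + 1), |A i|) * D ^ n, fun w R hw hR hwR y => ?_⟩
      have hfd : _root_.fderiv ℝ w = fun y => R (h y + J (w y)) := by
        ext1 y
        exact hwR y
      have hGsm : ContDiff ℝ ∞ fun y => h y + J (w y) := h.contDiff.add (J.contDiff.comp hw)
      rw [← norm_iteratedFDeriv_fderiv, hfd]
      have hD1 : 1 ≤ D := by
        have : 0 ≤ ∑ i ∈ Finset.range (n + 1),
            (‖h‖ + ‖J‖ * |if hi : i < n then C i hi else 0|) :=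
          Finset.sum_nonneg fun _ _ => by positivity
        linarith
      refine norm_iteratedFDeriv_comp_le (N := ∞) hR.sm hGsm (by exact_mod_cast le_top) y
        (fun i hi => ?_) (fun i h1 hi => ?_)
      · refine (hR.bd i (by omega) _).trans ((le_abs_self _).trans ?_)
        exact Finset.single_le_sum (f := fun i => |A i|) (fun _ _ => abs_nonneg _)
          (Finset.mem_range.2 (by omega))
      · obtain ⟨i, rfl⟩ : ∃ l, i = l + 1 := ⟨i - 1, by omega⟩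
        have hin : i < n := by omega
        have h2 : iteratedFDeriv ℝ (i + 1) (fun y => h y + J (w y)) y
            = iteratedFDeriv ℝ (i + 1) (fun y => h y) y
              + iteratedFDeriv ℝ (i + 1) (fun y => J (w y)) y :=
          iteratedFDeriv_add_apply (𝕜 := ℝ) (i := i + 1) (f := fun y => h y)
            (g := fun y => J (w y)) (x := y)
            (h.contDiff.contDiffAt.of_le (by exact_mod_cast le_top))
            ((J.contDiff.comp hw).contDiffAt.of_le (by exact_mod_cast le_top))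
        have h3 : ‖iteratedFDeriv ℝ (i + 1) (fun y => h y) y‖ ≤ ‖h‖ := (of_clm h).bd _ (by omega) _
        have h4 : ‖iteratedFDeriv ℝ (i + 1) (fun y => J (w y)) y‖ ≤ ‖J‖ * |C i hin| := by
          refine (J.norm_iteratedFDeriv_comp_left (n := i + 1) (N := ∞) hw.contDiffAt
            (by exact_mod_cast le_top)).trans ?_
          gcongr
          exact (hC i hin w R hw hR hwR y).trans (le_abs_self _)
        have h5 : ‖h‖ + ‖J‖ * |C i hin| ≤ ∑ i ∈ Finset.range (n + 1),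
            (‖h‖ + ‖J‖ * |if hi : i < n then C i hi else 0|) := by
          have := Finset.single_le_sum
            (f := fun i => ‖h‖ + ‖J‖ * |if hi : i < n then C i hi else 0|)
            (fun _ _ => by positivity) (Finset.mem_range.2 (show i < n + 1 by omega))
          simpa [hin] using this
        rw [h2]
        calc ‖iteratedFDeriv ℝ (i + 1) (fun y => h y) y
              + iteratedFDeriv ℝ (i + 1) (fun y => J (w y)) y‖ ≤ ‖h‖ + ‖J‖ * |C i hin| :=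
              (norm_add_le _ _).trans (add_le_add h3 h4)
          _ ≤ D := by linarith
          _ = D ^ 1 := (pow_one _).symm
          _ ≤ D ^ (i + 1) := pow_le_pow_right₀ hD1 (by omega)
  choose C hC using key
  refine ⟨fun n => C (n - 1), fun w R hw hR hwR => ⟨hw, fun j hj y => ?_⟩⟩
  obtain ⟨j, rfl⟩ : ∃ i, j = i + 1 := ⟨j - 1, by omega⟩
  exact hC j w R hw hR hwR y

end Bk

variable {V : Type*} [NormedAddCommGroup V] [NormedSpace ℝ V]

/-- The derivative in the last variable. -/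
noncomputable def dw (f : V × ℝ → ℝ) (p : V × ℝ) : ℝ := fderiv ℝ f p (0, 1)

theorem dw_bk {k : ℕ} {A : ℕ → ℝ} {f : V × ℝ → ℝ} (hf : Bk (k + 1) A f) :
    Bk k (fun j => ‖ContinuousLinearMap.apply ℝ ℝ ((0, 1) : V × ℝ)‖ * A (j + 1)) (dw f) :=
  hf.fderiv.clm (ContinuousLinearMap.apply ℝ ℝ ((0, 1) : V × ℝ))

theorem hasDerivAt_line {g : V × ℝ → ℝ} (hg : Differentiable ℝ g) (v : V) (t : ℝ) :
    HasDerivAt (fun t => g (v, t)) (dw g (v, t)) t := by
  have h1 : HasFDerivAt g (fderiv ℝ g (v, t)) (v, t) := (hg _).hasFDerivAt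
  have h2 : HasDerivAt (fun t : ℝ => (v, t)) ((0 : V), (1 : ℝ)) t :=
    (hasDerivAt_const t v).prodMk (hasDerivAt_id t)
  exact h1.comp_hasDerivAt t h2

/-- A function with `∂_w g ≥ c > 0` takes every value exactly once on every line. -/
theorem line_bijective {g : V × ℝ → ℝ} (hg : Differentiable ℝ g) {c : ℝ} (hc : 0 < c)
    (h : ∀ p, c ≤ dw g p) (v : V) : Function.Bijective fun t => g (v, t) := by
  have hd : ∀ t, deriv (fun t => g (v, t)) t = dw g (v, t) := fun t => (hasDerivAt_line hg v t).deriv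
  have hdiff : Differentiable ℝ fun t => g (v, t) := fun t => (hasDerivAt_line hg v t).differentiableAt
  have hmono : StrictMono fun t => g (v, t) :=
    strictMono_of_deriv_pos fun t => by
      rw [hd]
      exact lt_of_lt_of_le hc (h _)
  have hgrow : ∀ x y : ℝ, x ≤ y → c * (y - x) ≤ g (v, y) - g (v, x) := fun x y hxy =>
    mul_sub_le_image_sub_of_le_deriv hdiff (fun t => by
      rw [hd]
      exact h _) hxy
  refine ⟨hmono.injective, hdiff.continuous.surjective ?_ ?_⟩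
  · refine tendsto_atTop_mono' atTop ?_
      (tendsto_atTop_add_const_left atTop (g (v, 0)) (tendsto_id.const_mul_atTop hc))
    filter_upwards [eventually_ge_atTop (0 : ℝ)] with t ht
    have := hgrow 0 t ht
    simp only [id, sub_zero] at this ⊢
    linarith
  · refine tendsto_atBot_mono' atBot ?_
      (tendsto_atBot_add_const_left atBot (g (v, 0)) (tendsto_id.const_mul_atBot hc))
    filter_upwards [eventually_le_atBot (0 : ℝ)] with t ht
    have := hgrow t 0 ht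
    simp only [id, zero_sub] at this ⊢
    linarith

theorem clm_pair (L : V × ℝ →L[ℝ] ℝ) (v : V) (t : ℝ) : L (v, t) = L (v, 0) + t * L (0, 1) := by
  have : ((v, t) : V × ℝ) = (v, 0) + t • (0, 1) := by simp
  rw [this, map_add, map_smul, smul_eq_mul]

/-- The derivative of `(v, t) ↦ (v, g(v, t))` as an equivalence. -/
noncomputable def impEquiv (L : V × ℝ →L[ℝ] ℝ) (hL : L (0, 1) ≠ 0) : (V × ℝ) ≃L[ℝ] (V × ℝ) :=
  ContinuousLinearEquiv.equivOfInverse
    ((ContinuousLinearMap.fst ℝ V ℝ).prod L)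
    ((ContinuousLinearMap.fst ℝ V ℝ).prod ((L (0, 1))⁻¹ •
      (ContinuousLinearMap.snd ℝ V ℝ - (L.comp (ContinuousLinearMap.inl ℝ V ℝ)).comp
        (ContinuousLinearMap.fst ℝ V ℝ))))
    (by
      rintro ⟨v, t⟩
      refine Prod.ext rfl ?_
      change (L (0, 1))⁻¹ * (L (v, t) - L (v, 0)) = t
      rw [clm_pair L v t]
      field_simp
      ring)
    (by
      rintro ⟨v, t⟩
      refine Prod.ext rfl ?_
      change L (v, (L (0, 1))⁻¹ * (t - L (v, 0))) = t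
      rw [clm_pair L v]
      field_simp
      ring)

theorem impEquiv_coe (L : V × ℝ →L[ℝ] ℝ) (hL : L (0, 1) ≠ 0) :
    (impEquiv L hL : (V × ℝ) →L[ℝ] (V × ℝ)) = (ContinuousLinearMap.fst ℝ V ℝ).prod L := rfl

variable [CompleteSpace V]

/-- Smoothness of the critical point. -/
theorem imp_smooth {g : V × ℝ → ℝ} (hg : ContDiff ℝ ∞ g) {c : ℝ} (hc : 0 < c)
    (h : ∀ p, c ≤ dw g p) {w : V × ℝ → ℝ} (hw : ∀ y, g (y.1, w y) = y.2) : ContDiff ℝ ∞ w := by
  have hgd : Differentiable ℝ g := hg.differentiable (by simp)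
  set F : V × ℝ → V × ℝ := fun p => (p.1, g p) with hF
  set G : V × ℝ → V × ℝ := fun y => (y.1, w y) with hG
  have hFG : ∀ y, F (G y) = y := fun y => by simp [hF, hG, hw]
  have hFinj : Function.Injective F := by
    rintro ⟨v, t⟩ ⟨v', t'⟩ hh
    simp only [hF, Prod.mk.injEq] at hh
    obtain ⟨rfl, hh⟩ := hh
    rw [(line_bijective hgd hc h v).1 hh]
  have hFsm : ContDiff ℝ ∞ F := contDiff_fst.prodMk hg
  have hGsm : ContDiff ℝ ∞ G := by
    rw [contDiff_iff_contDiffAt]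
    intro y
    have hne : fderiv ℝ g (G y) (0, 1) ≠ 0 := (lt_of_lt_of_le hc (h (G y))).ne'
    have hFd : HasFDerivAt F ((impEquiv (fderiv ℝ g (G y)) hne : (V × ℝ) ≃L[ℝ] (V × ℝ)) :
        (V × ℝ) →L[ℝ] (V × ℝ)) (G y) := by
      rw [impEquiv_coe]
      exact hasFDerivAt_fst.prodMk (hgd _).hasFDerivAt
    have h1 := (hFsm.contDiffAt (x := G y)).to_localInverse hFd (by simp)
    rw [hFG] at h1
    refine h1.congr_of_eventuallyEq ?_
    have h2 := ((hFsm.contDiffAt (x := G y)).hasStrictFDerivAt' hFd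
      (by simp)).eventually_right_inverse
    rw [hFG] at h2
    filter_upwards [h2] with z hz
    exact hFinj (by rw [hFG]; exact hz.symm)
  exact contDiff_snd.comp hGsm

/-- The derivative of the critical point. -/
theorem imp_fderiv {g : V × ℝ → ℝ} (hg : ContDiff ℝ ∞ g) {c : ℝ} (hc : 0 < c)
    (h : ∀ p, c ≤ dw g p) {w : V × ℝ → ℝ} (hw : ∀ y, g (y.1, w y) = y.2) (y δ : V × ℝ) :
    fderiv ℝ w y δ = (δ.2 - fderiv ℝ g (y.1, w y) (δ.1, 0)) / dw g (y.1, w y) := by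
  have hgd : Differentiable ℝ g := hg.differentiable (by simp)
  have hwd : Differentiable ℝ w := (imp_smooth hg hc h hw).differentiable (by simp)
  have h1 : HasFDerivAt (fun y : V × ℝ => g (y.1, w y))
      ((fderiv ℝ g (y.1, w y)).comp ((ContinuousLinearMap.fst ℝ V ℝ).prod (fderiv ℝ w y))) y :=
    (hgd (y.1, w y)).hasFDerivAt.comp y (hasFDerivAt_fst.prodMk (hwd y).hasFDerivAt)
  have h2 : HasFDerivAt (fun y : V × ℝ => g (y.1, w y)) (ContinuousLinearMap.snd ℝ V ℝ) y := by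
    have : (fun y : V × ℝ => g (y.1, w y)) = fun y => y.2 := by
      ext1 y
      exact hw y
    rw [this]
    exact hasFDerivAt_snd
  have h3 := congrArg (fun L : V × ℝ →L[ℝ] ℝ => L δ) (h1.unique h2)
  simp only [ContinuousLinearMap.comp_apply, ContinuousLinearMap.prod_apply,
    ContinuousLinearMap.coe_fst', ContinuousLinearMap.coe_snd'] at h3
  have h4 : fderiv ℝ g (y.1, w y) (δ.1, fderiv ℝ w y δ)
      = fderiv ℝ g (y.1, w y) (δ.1, 0) + fderiv ℝ w y δ * dw g (y.1, w y) := by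
    have : ((δ.1, fderiv ℝ w y δ) : V × ℝ) = (δ.1, 0) + (fderiv ℝ w y δ) • (0, 1) := by simp
    rw [this, map_add, map_smul, smul_eq_mul]
    rfl
  rw [h4] at h3
  have h5 : dw g (y.1, w y) ≠ 0 := (lt_of_lt_of_le hc (h _)).ne'
  rw [eq_div_iff h5]
  linarith

/-- The critical point: `g(v, w(v, ξ)) = ξ` has a unique solution, smooth, and all its derivatives
are bounded in terms of those of `g`. -/
theorem imp_exists (V : Type*) [NormedAddCommGroup V] [NormedSpace ℝ V] [CompleteSpace V]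
    (A : ℕ → ℝ) (c : ℝ) (hc : 0 < c) : ∃ C : ℕ → ℝ, ∀ g : V × ℝ → ℝ, Bk 1 A g →
    (∀ p, c ≤ dw g p) → ∃ w : V × ℝ → ℝ, Bk 1 C w ∧ (∀ y, g (y.1, w y) = y.2) ∧
      (∀ v t, w (v, g (v, t)) = t) := by
  -- the constants of `R`
  set E1 := ContinuousLinearMap.apply ℝ ℝ ((0, 1) : V × ℝ) with hE1
  obtain ⟨Ci, hCi⟩ := Bk.exists_inv (V × ℝ) (fun j => ‖E1‖ * A (j + 1)) c hc
  set T : (V × ℝ →L[ℝ] ℝ) →L[ℝ] (V × ℝ →L[ℝ] ℝ) :=
    (ContinuousLinearMap.compL ℝ (V × ℝ) (V × ℝ) ℝ).flip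
      ((ContinuousLinearMap.inl ℝ V ℝ).comp (ContinuousLinearMap.fst ℝ V ℝ)) with hT
  set S : V × ℝ →L[ℝ] ℝ := ContinuousLinearMap.snd ℝ V ℝ with hS
  obtain ⟨C, hC⟩ := Bk.bootstrap (X := V × ℝ) (Y := V × ℝ)
    (fun n => ∑ i ∈ Finset.range (n + 1), (n.choose i : ℝ) * Ci i *
      (‖S‖ + ‖T‖ * A (n - i + 1)))
    ((ContinuousLinearMap.inl ℝ V ℝ).comp (ContinuousLinearMap.fst ℝ V ℝ))
    (ContinuousLinearMap.inr ℝ V ℝ)
  refine ⟨C, fun g hg h => ?_⟩
  have hgd : Differentiable ℝ g := hg.sm.differentiable (by simp)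
  choose w hw using fun y : V × ℝ => (line_bijective hgd hc h y.1).2 y.2
  refine ⟨w, ?_, hw, fun v t => (line_bijective hgd hc h v).1 (hw (v, g (v, t)))⟩
  have hdw : Bk 0 (fun j => ‖E1‖ * A (j + 1)) (dw g) := dw_bk hg
  have hinv : Bk 0 Ci (fun p => (dw g p)⁻¹) := hCi _ hdw h
  have hR2 : Bk 0 (fun j => ‖S‖ + ‖T‖ * A (j + 1)) (fun p => S + T (- fderiv ℝ g p)) :=
    (Bk.const S).add (hg.fderiv.neg.clm T)
  have hR := hinv.smul hR2
  refine hC w (fun p => (dw g p)⁻¹ • (S + T (- fderiv ℝ g p))) (imp_smooth hg.sm hc h hw) hR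
    fun y => ?_
  have hG : (((ContinuousLinearMap.inl ℝ V ℝ).comp (ContinuousLinearMap.fst ℝ V ℝ)) y
      + (ContinuousLinearMap.inr ℝ V ℝ) (w y) : V × ℝ) = (y.1, w y) := by simp
  rw [hG]
  refine ContinuousLinearMap.ext fun δ => ?_
  rw [imp_fderiv hg.sm hc h hw]
  simp only [hS, hT, smul_apply, add_apply, ContinuousLinearMap.coe_snd',
    ContinuousLinearMap.flip_apply, ContinuousLinearMap.compL_apply,
    ContinuousLinearMap.comp_apply, ContinuousLinearMap.coe_fst', ContinuousLinearMap.inl_apply,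
    neg_apply, smul_eq_mul]
  rw [div_eq_inv_mul, sub_eq_add_neg]

omit [CompleteSpace V] in
/-- The reduced phase `Q(v, ξ) = ψ(v, w) - ξ w`: derivative. -/
theorem imp_Q_fderiv {ψ : V × ℝ → ℝ} (hψ : ContDiff ℝ ∞ ψ) {w : V × ℝ → ℝ} (hwd : ContDiff ℝ ∞ w)
    (hw : ∀ y, dw ψ (y.1, w y) = y.2) (y : V × ℝ) :
    HasFDerivAt (fun y : V × ℝ => ψ (y.1, w y) - y.2 * w y)
      (((fderiv ℝ ψ (y.1, w y)).comp (ContinuousLinearMap.inl ℝ V ℝ)).comp
        (ContinuousLinearMap.fst ℝ V ℝ) - w y • ContinuousLinearMap.snd ℝ V ℝ) y := by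
  have h1 : HasFDerivAt (fun y : V × ℝ => ψ (y.1, w y))
      ((fderiv ℝ ψ (y.1, w y)).comp ((ContinuousLinearMap.fst ℝ V ℝ).prod (fderiv ℝ w y))) y :=
    (hψ.differentiable (by simp) (y.1, w y)).hasFDerivAt.comp y
      (hasFDerivAt_fst.prodMk (hwd.differentiable (by simp) y).hasFDerivAt)
  have h2 : HasFDerivAt (fun y : V × ℝ => y.2 * w y)
      (y.2 • fderiv ℝ w y + w y • ContinuousLinearMap.snd ℝ V ℝ) y :=
    hasFDerivAt_snd.mul (hwd.differentiable (by simp) y).hasFDerivAt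
  refine (h1.sub h2).congr_fderiv (ContinuousLinearMap.ext fun δ => ?_)
  simp only [sub_apply, ContinuousLinearMap.comp_apply, ContinuousLinearMap.prod_apply,
    ContinuousLinearMap.coe_fst', add_apply, smul_apply, ContinuousLinearMap.coe_snd',
    ContinuousLinearMap.inl_apply, smul_eq_mul]
  rw [clm_pair (fderiv ℝ ψ (y.1, w y)) δ.1 (fderiv ℝ w y δ)]
  have := hw y
  rw [dw] at this
  rw [this]
  ring

/-- IMP. The critical point `w` and the reduced phase `Q` of `ψ(v, w) - ξ w` in one variable, for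
`ψ` with `∂_w² ψ ≥ c` everywhere: smoothness, bounds of all derivatives, derivative formulas and the
Schur complement. -/
theorem imp (V : Type*) [NormedAddCommGroup V] [NormedSpace ℝ V] [CompleteSpace V]
    (A : ℕ → ℝ) (c : ℝ) (hc : 0 < c) : ∃ C : ℕ → ℝ, ∀ ψ : V × ℝ → ℝ, ContDiff ℝ ∞ ψ →
    (∀ j, 2 ≤ j → ∀ p, ‖iteratedFDeriv ℝ j ψ p‖ ≤ A j) →
    (∀ p, c ≤ fderiv ℝ (fderiv ℝ ψ) p (0, 1) (0, 1)) → ∃ w Q : V × ℝ → ℝ,
      ContDiff ℝ ∞ w ∧ (∀ j, 1 ≤ j → ∀ y, ‖iteratedFDeriv ℝ j w y‖ ≤ C j) ∧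
      ContDiff ℝ ∞ Q ∧ (∀ j, 2 ≤ j → ∀ y, ‖iteratedFDeriv ℝ j Q y‖ ≤ C j) ∧
      (∀ v ξ, fderiv ℝ ψ (v, w (v, ξ)) (0, 1) = ξ) ∧
      (∀ v t, w (v, fderiv ℝ ψ (v, t) (0, 1)) = t) ∧
      (∀ v ξ, Q (v, ξ) = ψ (v, w (v, ξ)) - ξ * w (v, ξ)) ∧
      (∀ v ξ δ τ, fderiv ℝ w (v, ξ) (δ, τ) =
        (τ - fderiv ℝ (fderiv ℝ ψ) (v, w (v, ξ)) (δ, 0) (0, 1)) /
          fderiv ℝ (fderiv ℝ ψ) (v, w (v, ξ)) (0, 1) (0, 1)) ∧
      (∀ v ξ δ τ, fderiv ℝ Q (v, ξ) (δ, τ) =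
        fderiv ℝ ψ (v, w (v, ξ)) (δ, 0) - τ * w (v, ξ)) ∧
      (∀ v ξ δ δ', fderiv ℝ (fderiv ℝ Q) (v, ξ) (δ, 0) (δ', 0) =
        fderiv ℝ (fderiv ℝ ψ) (v, w (v, ξ)) (δ, 0) (δ', 0) -
          fderiv ℝ (fderiv ℝ ψ) (v, w (v, ξ)) (δ, 0) (0, 1) *
          fderiv ℝ (fderiv ℝ ψ) (v, w (v, ξ)) (0, 1) (δ', 0) /
            fderiv ℝ (fderiv ℝ ψ) (v, w (v, ξ)) (0, 1) (0, 1)) := by
  set E1 := ContinuousLinearMap.apply ℝ ℝ ((0, 1) : V × ℝ) with hE1
  obtain ⟨C1, hC1⟩ := imp_exists V (fun j => ‖E1‖ * A (j + 1)) c hc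
  -- bounds of `Dψ ∘ G` and of `DQ`
  set IL := (ContinuousLinearMap.inl ℝ V ℝ).comp (ContinuousLinearMap.fst ℝ V ℝ) with hIL
  set IR := ContinuousLinearMap.inr ℝ V ℝ with hIR
  set T : (V × ℝ →L[ℝ] ℝ) →L[ℝ] (V × ℝ →L[ℝ] ℝ) :=
    (ContinuousLinearMap.compL ℝ (V × ℝ) (V × ℝ) ℝ).flip IL with hT
  set U : ℝ →L[ℝ] (V × ℝ →L[ℝ] ℝ) :=
    (ContinuousLinearMap.lsmul ℝ ℝ).flip (ContinuousLinearMap.snd ℝ V ℝ) with hU
  have key : ∃ C2 : ℕ → ℝ, ∀ (f : V × ℝ → (V × ℝ →L[ℝ] ℝ)) (w : V × ℝ → ℝ),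
      Bk 1 (fun j => A (j + 1)) f → Bk 1 C1 w →
        Bk 1 C2 (fun y => T (f (IL y + IR (w y))) - U (w y)) := by
    refine ⟨fun j => ‖T‖ * (fun j => (fun n => ∑ i ∈ Finset.range (n + 1), (n.choose i : ℝ) *
        (i ! * (∑ l ∈ Finset.range (i + 1), |A (l + 1 + 1)|)
        * (1 + ∑ l ∈ Finset.range (i + 1), |‖IL‖ + ‖IR‖ * C1 l|) ^ i)
          * (‖IL‖ + ‖IR‖ * C1 (n - i + 1))) (j - 1)) j + ‖U‖ * C1 j, fun f w hf hw => ?_⟩
    · have hG : Bk 1 (fun j => ‖IL‖ + ‖IR‖ * C1 j) (fun y => IL y + IR (w y)) :=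
        (Bk.of_clm IL).add (hw.clm IR)
      have h1 := (hf.comp1 hG).clm T
      have h2 := (hw.clm U).neg
      have h3 := h1.add h2
      simpa only [sub_eq_add_neg] using h3
  obtain ⟨C2, hC2⟩ := key
  refine ⟨fun j => max (C1 j) (C2 (j - 1)), fun ψ hψ hb hcc => ?_⟩
  have hψ2 : Bk 2 A ψ := ⟨hψ, hb⟩
  have hD1 : Bk 1 (fun j => A (j + 1)) (fderiv ℝ ψ) := hψ2.fderiv
  have hg : Bk 1 (fun j => ‖E1‖ * A (j + 1)) (dw ψ) := dw_bk hψ2
  have hfd : ∀ p δ : V × ℝ, fderiv ℝ (dw ψ) p δ = fderiv ℝ (fderiv ℝ ψ) p δ (0, 1) := by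
    intro p δ
    have h1 : HasFDerivAt (fun p => E1 (fderiv ℝ ψ p)) (E1.comp (fderiv ℝ (fderiv ℝ ψ) p)) p :=
      E1.hasFDerivAt.comp p (hD1.sm.differentiable (by simp) p).hasFDerivAt
    have h2 : dw ψ = fun p => E1 (fderiv ℝ ψ p) := rfl
    rw [h2, h1.fderiv]
    rfl
  have hgc : ∀ p, c ≤ dw (dw ψ) p := fun p => by
    rw [dw, hfd]
    exact hcc p
  obtain ⟨w, hwb, hw1, hw2⟩ := hC1 (dw ψ) hg hgc
  set Q : V × ℝ → ℝ := fun y => ψ (y.1, w y) - y.2 * w y with hQ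
  have hQd : ∀ y, HasFDerivAt Q (T (fderiv ℝ ψ (IL y + IR (w y))) - U (w y)) y := by
    intro y
    have h1 := imp_Q_fderiv hψ hwb.sm hw1 y
    refine h1.congr_fderiv (ContinuousLinearMap.ext fun δ => ?_)
    have hG : (IL y + IR (w y) : V × ℝ) = (y.1, w y) := by simp [hIL, hIR]
    rw [hG]
    simp only [hT, hU, hIL, sub_apply, ContinuousLinearMap.comp_apply, smul_apply,
      ContinuousLinearMap.flip_apply, ContinuousLinearMap.compL_apply,
      ContinuousLinearMap.lsmul_apply]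
  have hQfd : fderiv ℝ Q = fun y => T (fderiv ℝ ψ (IL y + IR (w y))) - U (w y) := by
    ext1 y
    exact (hQd y).fderiv
  have hQsm : ContDiff ℝ ∞ Q :=
    (hψ.comp (contDiff_fst.prodMk hwb.sm)).sub (contDiff_snd.mul hwb.sm)
  have hQb : Bk 2 (fun j => C2 (j - 1)) Q := by
    refine Bk.of_fderiv hQsm ?_
    rw [hQfd]
    exact hC2 _ _ hD1 hwb
  have hwfd : ∀ v ξ δ τ, fderiv ℝ w (v, ξ) (δ, τ) =
        (τ - fderiv ℝ (fderiv ℝ ψ) (v, w (v, ξ)) (δ, 0) (0, 1)) /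
          fderiv ℝ (fderiv ℝ ψ) (v, w (v, ξ)) (0, 1) (0, 1) := by
    intro v ξ δ τ
    rw [imp_fderiv hg.sm hc hgc hw1 (v, ξ) (δ, τ), dw, hfd, hfd]
  have hQ1 : ∀ v ξ δ τ, fderiv ℝ Q (v, ξ) (δ, τ) =
        fderiv ℝ ψ (v, w (v, ξ)) (δ, 0) - τ * w (v, ξ) := by
    intro v ξ δ τ
    rw [(imp_Q_fderiv hψ hwb.sm hw1 (v, ξ)).fderiv]
    simp only [sub_apply, ContinuousLinearMap.comp_apply, ContinuousLinearMap.coe_fst',
      ContinuousLinearMap.inl_apply, smul_apply, ContinuousLinearMap.coe_snd', smul_eq_mul]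
    ring
  refine ⟨w, Q, hwb.sm, fun j hj y => (hwb.bd j hj y).trans (le_max_left _ _), hQsm,
    fun j hj y => (hQb.bd j hj y).trans (le_max_right _ _), fun v ξ => hw1 (v, ξ),
    fun v t => hw2 v t, fun v ξ => rfl, hwfd, hQ1, fun v ξ δ δ' => ?_⟩
  -- the Schur complement
  have h1 : HasFDerivAt (fun y => fderiv ℝ Q y (δ', 0))
      ((ContinuousLinearMap.apply ℝ ℝ ((δ', 0) : V × ℝ)).comp (fderiv ℝ (fderiv ℝ Q) (v, ξ)))
      (v, ξ) :=
    (ContinuousLinearMap.apply ℝ ℝ ((δ', 0) : V × ℝ)).hasFDerivAt.comp (v, ξ)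
      ((hQsm.fderiv_right (m := ∞) (by simp)).differentiable (by simp) (v, ξ)).hasFDerivAt
  have h2 : HasFDerivAt (fun y : V × ℝ => fderiv ℝ ψ (y.1, w y) (δ', 0))
      ((ContinuousLinearMap.apply ℝ ℝ ((δ', 0) : V × ℝ)).comp
        ((fderiv ℝ (fderiv ℝ ψ) (v, w (v, ξ))).comp
          ((ContinuousLinearMap.fst ℝ V ℝ).prod (fderiv ℝ w (v, ξ))))) (v, ξ) := by
    refine (ContinuousLinearMap.apply ℝ ℝ ((δ', 0) : V × ℝ)).hasFDerivAt.comp (v, ξ) ?_
    exact (hD1.sm.differentiable (by simp) (v, w (v, ξ))).hasFDerivAt.comp (v, ξ)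
      (hasFDerivAt_fst.prodMk (hwb.sm.differentiable (by simp) (v, ξ)).hasFDerivAt)
  have h3 : (fun y => fderiv ℝ Q y (δ', 0)) = fun y : V × ℝ => fderiv ℝ ψ (y.1, w y) (δ', 0) := by
    ext1 y
    obtain ⟨v, ξ⟩ := y
    rw [hQ1]
    ring
  rw [h3] at h1
  have h4 := congrArg (fun L : V × ℝ →L[ℝ] ℝ => L (δ, 0)) (h1.unique h2)
  simp only [ContinuousLinearMap.comp_apply, ContinuousLinearMap.apply_apply,
    ContinuousLinearMap.prod_apply, ContinuousLinearMap.coe_fst'] at h4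
  rw [h4]
  have h5 : ((δ, fderiv ℝ w (v, ξ) (δ, 0)) : V × ℝ)
      = (δ, 0) + (fderiv ℝ w (v, ξ) (δ, 0)) • ((0 : V), (1 : ℝ)) := by simp
  rw [h5, map_add, map_smul, add_apply, smul_apply, smul_eq_mul, hwfd]
  ring

end Pool.Agent.GNP
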