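import Pool.Agent.GNP.A0
import Pool.Agent.GNP.A2
import Pool.Agent.GNP.A5
import Pool.Agent.GNP.C2
import Pool.Agent.GNP.P0x

/-!
GNP row KE: the key estimate, from the packet bounds and the area bound.
-/

namespace Pool.Agent.GNP

open MeasureTheory Set Pool.Agent.MP_6cbfb8_an
open scoped ENNReal Real RealInnerProductSpace ContDiff

/-- The number of dyadic classes is at most a small power. -/
theorem classes_count' (p ε M : ℝ) (hp : 1 ≤ p) (hε : 0 < ε) (hM : 0 ≤ M) (C1 : ℝ) (hC1 : 1 ≤ C1) :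
    ∃ C : ℝ, 0 < C ∧ ∀ R : ℝ, 1 ≤ R →
      ((⌊Real.logb 2 (C1 * R ^ M)⌋₊ + 1 : ℕ) : ℝ) ^ (p - 1) ≤ C * R ^ ε := by
  have hp0 : 0 < p := by linarith
  set η : ℝ := ε / p with hη
  have hη0 : 0 < η := by positivity
  have hl2 : 0 < Real.log 2 := Real.log_pos (by norm_num)
  have hlc : 0 ≤ Real.logb 2 C1 := Real.logb_nonneg (by norm_num) hC1
  set C2 : ℝ := (Real.logb 2 C1 + 1) + M / (η * Real.log 2) with hC2
  have hC20 : 0 < C2 := by positivity
  refine ⟨C2 ^ p, by positivity, fun R hR => ?_⟩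
  have hR0 : 0 < R := by linarith
  have hRη : 1 ≤ R ^ η := Real.one_le_rpow hR hη0.le
  have hlog : 0 ≤ Real.logb 2 R := Real.logb_nonneg (by norm_num) hR
  have h0 : Real.logb 2 (C1 * R ^ M) = Real.logb 2 C1 + M * Real.logb 2 R := by
    rw [Real.logb_mul (by positivity) (by positivity), Real.logb_rpow_eq_mul_logb_of_pos hR0]
  have h1 : ((⌊Real.logb 2 (C1 * R ^ M)⌋₊ + 1 : ℕ) : ℝ) ≤ C2 * R ^ η := by
    push_cast
    have h2 : ((⌊Real.logb 2 (C1 * R ^ M)⌋₊ : ℕ) : ℝ) ≤ Real.logb 2 C1 + M * Real.logb 2 R := by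
      rw [h0]
      exact Nat.floor_le (by positivity)
    have h3 : Real.logb 2 R ≤ R ^ η / (η * Real.log 2) := by
      rw [Real.logb, ← div_div]
      exact div_le_div_of_nonneg_right (Real.log_le_rpow_div hR0.le hη0) hl2.le
    have h4 : M * Real.logb 2 R ≤ M * (R ^ η / (η * Real.log 2)) := mul_le_mul_of_nonneg_left h3 hM
    have h5 : C2 * R ^ η = (Real.logb 2 C1 + 1) * R ^ η + M * (R ^ η / (η * Real.log 2)) := by
      rw [hC2]
      ring
    have h6 : (Real.logb 2 C1 + 1) * 1 ≤ (Real.logb 2 C1 + 1) * R ^ η :=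
      mul_le_mul_of_nonneg_left hRη (by linarith)
    rw [h5]
    linarith
  have h6 : (1 : ℝ) ≤ ((⌊Real.logb 2 (C1 * R ^ M)⌋₊ + 1 : ℕ) : ℝ) := by
    push_cast
    linarith [(Nat.cast_nonneg ⌊Real.logb 2 (C1 * R ^ M)⌋₊ : (0 : ℝ) ≤ _)]
  calc ((⌊Real.logb 2 (C1 * R ^ M)⌋₊ + 1 : ℕ) : ℝ) ^ (p - 1)
      ≤ ((⌊Real.logb 2 (C1 * R ^ M)⌋₊ + 1 : ℕ) : ℝ) ^ p :=
        Real.rpow_le_rpow_of_exponent_le h6 (by linarith)
    _ ≤ (C2 * R ^ η) ^ p := Real.rpow_le_rpow (by linarith) h1 hp0.le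
    _ = C2 ^ p * R ^ ε := by
        rw [Real.mul_rpow hC20.le (by positivity), ← Real.rpow_mul hR0.le]
        congr 2
        rw [hη]
        field_simp

/-- Superpositions over a finite disjoint union. -/
theorem uF_biUnion (d : ℕ) (κ : ℝ) (ρ : E d → ℝ) (hρ : Ker κ ρ) (a : E d → ℂ) (q : E d → ℝ)
    (r R : ℝ) (hR : 1 ≤ R) (ha : Continuous a) (has : ∀ y, r < ‖y‖ → a y = 0) (hq : Continuous q)
    (F : ℕ → Set (E d)) (hF : ∀ j, MeasurableSet (F j)) (hd : ∀ i j, i ≠ j → Disjoint (F i) (F j))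
    (x : E d) (L : ℕ) :
    uF ρ a q R (⋃ j ∈ Finset.range L, F j) x = ∑ j ∈ Finset.range L, uF ρ a q R (F j) x := by
  induction L with
  | zero => simp [uF]
  | succ L ih =>
    rw [Finset.sum_range_succ, ← ih, Finset.range_add_one]
    rw [Finset.set_biUnion_insert, Set.union_comm]
    refine uF_union d κ ρ hρ a q r R hR ha has hq _ _ ?_ (hF L) ?_ x
    · exact Finset.measurableSet_biUnion _ fun j _ => hF j
    · rw [Set.disjoint_iUnion₂_left]
      intro j hj
      exact hd j L (by simpa using (Finset.mem_range.1 hj).ne)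

theorem key (d : ℕ) (hd : 1 ≤ d) (A : ℕ → ℝ) (r r' p ε α : ℝ) (hr : 0 < r) (hr' : r < r')
    (hp : 2 < p) (hε : 0 < ε) (hα : 0 ≤ α) (hαp : α ≤ p - 2) : ∃ K : ℝ, 0 < K ∧
    ∀ (a : E d → ℂ) (q : E d → ℝ) (R : ℝ), 1 ≤ R → Amp d A r a → Phq d A R q →
    ∫⁻ x, ‖uu a q x‖ₑ ^ p ≤ ENNReal.ofReal (K * R ^ ε) *
      ∫⁻ y in Metric.closedBall (0 : E d) r',
        ENNReal.ofReal ((1 + |(Hs q y).det| / R ^ d) ^ (-α)) := by
  set β : ℝ := p - 2 with hβ
  have hβ0 : 0 < β := by rw [hβ]; linarith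
  set ε' : ℝ := ε / (2 * β) with hε'
  have hε'0 : 0 < ε' := by positivity
  obtain ⟨ρ, hρ, hρ1⟩ := exists_ker d (r' - r) (by linarith)
  obtain ⟨K5, hK5, hfam⟩ := fam_c d A (r' - r) ρ hρ p hp.le
  obtain ⟨K2, hK2, hcnt⟩ := count_int d A r' ε' hε'0
  -- bound for the determinant
  set C1 : ℝ := 2 + |A 2| ^ d with hC1
  have hC11 : 1 ≤ C1 := by
    have : 0 ≤ |A 2| ^ d := by positivity
    linarith
  obtain ⟨CL, hCL, hcount⟩ := classes_count' p (ε / 2) d (by linarith) (by linarith)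
    (Nat.cast_nonneg d) C1 hC11
  set V : ℝ := (volume (Metric.closedBall (0 : E d) r')).toReal with hV
  have hVt : volume (Metric.closedBall (0 : E d) r') ≠ ⊤ :=
    (isCompact_closedBall (0 : E d) r').measure_ne_top
  have hV0 : 0 ≤ V := ENNReal.toReal_nonneg
  set K3 : ℝ := V + 2 * K2 with hK3
  have hK30 : 0 < K3 := by positivity
  refine ⟨CL * (K5 * K3 ^ β * 2 ^ β), by positivity, fun a q R hR hA hQ => ?_⟩
  have hR0 : 0 < R := by linarith
  have hqc : Continuous q := hQ.sm.continuous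
  have hac : Continuous a := hA.sm.continuous
  set D : E d → ℝ := fun y => |(Hs q y).det| / R ^ d with hD
  have hDc : Continuous D := ((continuous_det_Hs hQ.sm).abs).div_const _
  have hD0 : ∀ y, 0 ≤ D y := fun y => by rw [hD]; positivity
  have hDle : ∀ y, 1 + D y ≤ C1 * R ^ (d : ℝ) := by
    intro y
    have h1 : |(Hs q y).det| ≤ ‖Hs q y‖ ^ d := abs_det_le _
    have h2 : ‖Hs q y‖ ≤ |A 2| * R ^ 2 :=
      (norm_Hs_le hQ.sm y).trans ((hQ.bd 2 le_rfl y).trans
        (mul_le_mul_of_nonneg_right (le_abs_self _) (by positivity)))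
    have h3 : |(Hs q y).det| ≤ |A 2| ^ d * (R ^ d * R ^ d) := by
      refine h1.trans ((pow_le_pow_left₀ (norm_nonneg _) h2 d).trans (le_of_eq ?_))
      rw [mul_pow]; ring
    have h4 : D y ≤ |A 2| ^ d * R ^ d := by
      rw [hD]
      simp only
      rw [div_le_iff₀ (by positivity)]
      linarith
    rw [Real.rpow_natCast]
    have h5 : (1 : ℝ) ≤ R ^ d := one_le_pow₀ hR
    rw [hC1]
    nlinarith
  set cl : E d → ℕ := fun y => ⌊Real.logb 2 (1 + D y)⌋₊ with hcl
  have hclm : Measurable cl := by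
    refine Nat.measurable_floor.comp ?_
    exact (Real.measurable_log.comp (by fun_prop)).div_const _
  set L : ℕ := ⌊Real.logb 2 (C1 * R ^ (d : ℝ))⌋₊ + 1 with hL
  set F : ℕ → Set (E d) := fun j => Metric.closedBall 0 r' ∩ {y | cl y = j} with hF
  have hFm : ∀ j, MeasurableSet (F j) := fun j =>
    measurableSet_closedBall.inter (hclm (measurableSet_singleton j))
  have hFd : ∀ i j, i ≠ j → Disjoint (F i) (F j) := by
    intro i j hij
    rw [Set.disjoint_left]
    rintro y ⟨-, h1⟩ ⟨-, h2⟩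
    exact hij (h1.symm.trans h2)
  have hFU : (⋃ j ∈ Finset.range L, F j) = Metric.closedBall (0 : E d) r' := by
    ext y
    simp only [Set.mem_iUnion, Finset.mem_range, exists_prop]
    constructor
    · rintro ⟨j, -, h, -⟩
      exact h
    · intro hy
      refine ⟨cl y, ?_, hy, rfl⟩
      rw [hL, Nat.lt_succ_iff]
      apply Nat.floor_le_floor
      exact Real.logb_le_logb_of_le (by norm_num) (by linarith [hD0 y]) (hDle y)
  -- bounds on the classes
  have hbd : ∀ j, ∀ y ∈ F j, (2 : ℝ) ^ j ≤ 1 + D y ∧ 1 + D y ≤ 2 * 2 ^ j := by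
    rintro j y ⟨-, hj⟩
    have hpos : 0 < 1 + D y := by linarith [hD0 y]
    have hln : 0 ≤ Real.logb 2 (1 + D y) := Real.logb_nonneg (by norm_num) (by linarith [hD0 y])
    have h3 : (j : ℝ) ≤ Real.logb 2 (1 + D y) := by
      rw [← hj]
      exact Nat.floor_le hln
    have h4 : Real.logb 2 (1 + D y) ≤ (j : ℝ) + 1 := by
      rw [← hj]
      exact (Nat.lt_floor_add_one _).le
    constructor
    · have := (Real.le_logb_iff_rpow_le (by norm_num) hpos).1 h3
      rwa [Real.rpow_natCast] at this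
    · have h5 := (Real.logb_le_iff_le_rpow (by norm_num) hpos).1 h4
      rw [Real.rpow_add (by norm_num), Real.rpow_one, Real.rpow_natCast] at h5
      linarith
  -- multiplicities
  have hmul : ∀ j x, volume {z | z ∈ F j ∧ ‖x - gr q z‖ ≤ R} ≤
      ENNReal.ofReal (K3 * R ^ ε' * ((2 : ℝ) ^ j)⁻¹) := by
    intro j x
    have hgr : Continuous (gr q) := (contDiff_gr hQ.sm).continuous
    have hYm : MeasurableSet {z | z ∈ F j ∧ ‖x - gr q z‖ ≤ R} := by
      refine (hFm j).inter ?_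
      exact measurableSet_le ((continuous_const.sub hgr).norm.measurable) measurable_const
    set Y : Set (E d) := {z | z ∈ F j ∧ ‖x - gr q z‖ ≤ R} with hY
    have hYB : Y ⊆ Metric.closedBall 0 r' := fun z hz => hz.1.1
    have hRε : 1 ≤ R ^ ε' := Real.one_le_rpow hR hε'0.le
    rcases Nat.eq_zero_or_pos j with rfl | hj
    · refine (measure_mono hYB).trans ?_
      rw [← ENNReal.ofReal_toReal hVt]
      apply ENNReal.ofReal_le_ofReal
      rw [← hV, pow_zero, inv_one, mul_one]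
      have : V ≤ K3 := by rw [hK3]; linarith
      calc V ≤ K3 * 1 := by linarith
        _ ≤ K3 * R ^ ε' := mul_le_mul_of_nonneg_left hRε hK30.le
    · have h1 := hcnt q R hR hQ Y hYm hYB x fun y hy => hy.2
      have h2 : ENNReal.ofReal (2 ^ j / 2 * R ^ d) * volume Y ≤
          ∫⁻ y in Y, ENNReal.ofReal |(Hs q y).det| := by
        rw [← setLIntegral_const]
        refine setLIntegral_mono' hYm fun y hy => ENNReal.ofReal_le_ofReal ?_
        have h3 := (hbd j y hy.1).1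
        have h4 : (2 : ℝ) ≤ 2 ^ j := by
          calc (2 : ℝ) = 2 ^ 1 := by norm_num
            _ ≤ 2 ^ j := pow_le_pow_right₀ (by norm_num) hj
        have h5 : 2 ^ j / 2 ≤ D y := by linarith
        rw [hD] at h5
        simp only at h5
        rwa [le_div_iff₀ (by positivity)] at h5
      have h6 := h2.trans h1
      have h7 : volume Y ≤ ENNReal.ofReal (K2 * R ^ ((d : ℝ) + ε')) /
          ENNReal.ofReal (2 ^ j / 2 * R ^ d) := by
        rw [ENNReal.le_div_iff_mul_le (Or.inl ?_) (Or.inl ENNReal.ofReal_ne_top), mul_comm]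
        · exact h6
        · rw [Ne, ENNReal.ofReal_eq_zero, not_le]
          positivity
      refine h7.trans ?_
      rw [← ENNReal.ofReal_div_of_pos (by positivity)]
      apply ENNReal.ofReal_le_ofReal
      rw [Real.rpow_add hR0, Real.rpow_natCast]
      have h8 : K2 * (R ^ d * R ^ ε') / (2 ^ j / 2 * R ^ d) = 2 * K2 * R ^ ε' * ((2 : ℝ) ^ j)⁻¹ := by
        field_simp
      rw [h8]
      have h9 : 2 * K2 ≤ K3 := by rw [hK3]; linarith
      exact mul_le_mul_of_nonneg_right (mul_le_mul_of_nonneg_right h9 (by positivity))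
        (by positivity)
  -- one class
  set g : E d → ℝ≥0∞ := fun y => ENNReal.ofReal ((1 + |(Hs q y).det| / R ^ d) ^ (-α)) with hg
  have hRhalf : (R ^ ε') ^ β = R ^ (ε / 2) := by
    rw [← Real.rpow_mul hR0.le]
    congr 1
    rw [hε']
    field_simp
  have hone : ∀ j, ∫⁻ x, ‖uF ρ a q R (F j) x‖ₑ ^ p ≤
      ENNReal.ofReal (K5 * K3 ^ β * 2 ^ β * R ^ (ε / 2)) * ∫⁻ y in F j, g y := by
    intro j
    refine (hfam a q r R hR hA hQ (F j) (hFm j) _ (hmul j)).trans ?_
    rw [← hβ, ENNReal.ofReal_rpow_of_nonneg (by positivity) hβ0.le, ← ENNReal.ofReal_mul hK5.le]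
    have e1 : K5 * (K3 * R ^ ε' * ((2 : ℝ) ^ j)⁻¹) ^ β =
        (K5 * K3 ^ β * 2 ^ β * R ^ (ε / 2)) * ((2 * (2 : ℝ) ^ j) ^ (-β)) := by
      rw [Real.mul_rpow (by positivity) (by positivity), Real.mul_rpow hK30.le (by positivity),
        hRhalf, Real.mul_rpow (by norm_num) (by positivity), Real.rpow_neg (by norm_num),
        Real.rpow_neg (by positivity), Real.inv_rpow (by positivity)]
      have : (2 : ℝ) ^ β ≠ 0 := by positivity
      field_simp
    rw [e1, ENNReal.ofReal_mul (by positivity), mul_assoc]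
    refine mul_le_mul_right ?_ _
    rw [← setLIntegral_const]
    refine setLIntegral_mono' (hFm j) fun y hy => ENNReal.ofReal_le_ofReal ?_
    obtain ⟨h1, h2⟩ := hbd j y hy
    have h3 : (1 : ℝ) ≤ 1 + D y := by linarith [hD0 y]
    calc (2 * (2 : ℝ) ^ j) ^ (-β) ≤ (1 + D y) ^ (-β) :=
          Real.rpow_le_rpow_of_nonpos (by linarith) h2 (by linarith)
      _ ≤ (1 + D y) ^ (-α) := Real.rpow_le_rpow_of_exponent_le h3 (by linarith)
  -- the sum
  have hsum : ∀ x, uu a q x = ∑ j ∈ Finset.range L, uF ρ a q R (F j) x := by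
    intro x
    rw [← uF_biUnion d (r' - r) ρ hρ a q r R hR hac hA.supp hqc F hFm hFd x L, hFU]
    exact (fubini_all d (r' - r) ρ hρ hρ1 a q r r' R hR (by linarith) hac hA.supp hqc x).symm
  have hpm : ∀ x, ‖uu a q x‖ₑ ^ p ≤ (L : ℝ≥0∞) ^ (p - 1) *
      ∑ j ∈ Finset.range L, ‖uF ρ a q R (F j) x‖ₑ ^ p := by
    intro x
    rw [hsum x]
    have h1 := ENNReal.rpow_sum_le_const_mul_sum_rpow (Finset.range L)
      (fun j => ‖uF ρ a q R (F j) x‖ₑ) (by linarith : (1 : ℝ) ≤ p)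
    rw [Finset.card_range] at h1
    exact (ENNReal.rpow_le_rpow (enorm_sum_le _ _) (by linarith)).trans h1
  have hLp : (L : ℝ≥0∞) ^ (p - 1) ≤ ENNReal.ofReal (CL * R ^ (ε / 2)) := by
    rw [← ENNReal.ofReal_natCast, ENNReal.ofReal_rpow_of_nonneg (by positivity) (by linarith)]
    exact ENNReal.ofReal_le_ofReal (hcount R hR)
  have hcont : ∀ j, Continuous (uF ρ a q R (F j)) := fun j =>
    continuous_uF d (r' - r) ρ hρ a q r R hR hac hA.supp hqc (F j) (hFm j)
  calc ∫⁻ x, ‖uu a q x‖ₑ ^ p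
      ≤ ∫⁻ x, (L : ℝ≥0∞) ^ (p - 1) * ∑ j ∈ Finset.range L, ‖uF ρ a q R (F j) x‖ₑ ^ p :=
        lintegral_mono hpm
    _ = (L : ℝ≥0∞) ^ (p - 1) * ∑ j ∈ Finset.range L, ∫⁻ x, ‖uF ρ a q R (F j) x‖ₑ ^ p := by
        rw [lintegral_const_mul' _ _ (by
          exact ENNReal.rpow_ne_top_of_nonneg (by linarith) (ENNReal.natCast_ne_top L)),
          lintegral_finsetSum]
        intro j _
        exact ((hcont j).enorm.measurable).pow_const _
    _ ≤ ENNReal.ofReal (CL * R ^ (ε / 2)) * ∑ j ∈ Finset.range L,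
          ENNReal.ofReal (K5 * K3 ^ β * 2 ^ β * R ^ (ε / 2)) * ∫⁻ y in F j, g y :=
        mul_le_mul' hLp (Finset.sum_le_sum fun j _ => hone j)
    _ = ENNReal.ofReal (CL * (K5 * K3 ^ β * 2 ^ β) * R ^ ε) *
          ∫⁻ y in Metric.closedBall (0 : E d) r', g y := by
        rw [← Finset.mul_sum, ← mul_assoc, ← ENNReal.ofReal_mul (by positivity)]
        congr 1
        · congr 1
          have : R ^ ε = R ^ (ε / 2) * R ^ (ε / 2) := by
            rw [← Real.rpow_add hR0]; congr 1; ring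
          rw [this]; ring
        · rw [← lintegral_biUnion_finset ?_ (fun j _ => hFm j), hFU]
          intro i _ j _ hij
          exact hFd i j hij

end Pool.Agent.GNP
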