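import Pool.Agent.GNP.TP

/-!
Interpolation of derivatives: the value and the derivative of order `N` control the ones between.
-/

namespace Pool.Agent.GNP

open MeasureTheory Set Pool.Agent.MP_6cbfb8_an
open scoped ENNReal Real RealInnerProductSpace ContDiff

theorem land_cd_pe {d : ℕ} (P : MvPolynomial (Fin d) ℝ) : ContDiff ℝ ∞ (pe P) := by
  unfold pe
  induction P using MvPolynomial.induction_on with
  | C a => simp only [MvPolynomial.eval_C]; exact contDiff_const
  | add p q hp hq => simp only [map_add]; exact hp.add hq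
  | mul_X p i hp =>
    simp only [map_mul, MvPolynomial.eval_X]
    exact hp.mul (contDiff_piLp_apply (i := i) (p := 2))

/-- Linear maps from a finite dimensional space with `ker A ≤ ker B`. -/
theorem land_bound {V X Y : Type*} [AddCommGroup V] [Module ℝ V] [Module.Finite ℝ V]
    [NormedAddCommGroup X] [NormedSpace ℝ X] [NormedAddCommGroup Y] [NormedSpace ℝ Y]
    (A : V →ₗ[ℝ] X) (B : V →ₗ[ℝ] Y) (h : LinearMap.ker A ≤ LinearMap.ker B) :
    ∃ C : ℝ, 0 < C ∧ ∀ v, ‖B v‖ ≤ C * ‖A v‖ := by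
  set B' : LinearMap.range A →ₗ[ℝ] Y :=
    ((LinearMap.ker A).liftQ B h).comp A.quotKerEquivRange.symm.toLinearMap with hB'
  have hfin : Module.Finite ℝ (LinearMap.range A) := inferInstance
  set T : LinearMap.range A →L[ℝ] Y := LinearMap.toContinuousLinearMap B' with hT
  refine ⟨‖T‖ + 1, by positivity, fun v => ?_⟩
  have h1 : B' ⟨A v, LinearMap.mem_range_self A v⟩ = B v := by
    have h2 : A.quotKerEquivRange (Submodule.Quotient.mk v) =
        ⟨A v, LinearMap.mem_range_self A v⟩ := by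
      apply Subtype.ext
      exact LinearMap.quotKerEquivRange_apply_mk A v
    rw [hB', LinearMap.comp_apply, ← h2]
    simp
  have h3 := T.le_opNorm ⟨A v, LinearMap.mem_range_self A v⟩
  have h4 : T ⟨A v, LinearMap.mem_range_self A v⟩ = B v := h1
  have h5 : ‖(⟨A v, LinearMap.mem_range_self A v⟩ : LinearMap.range A)‖ = ‖A v‖ := rfl
  rw [h4, h5] at h3
  have := norm_nonneg (A v)
  nlinarith

/-- The derivatives at the centre of a polynomial which is bounded on the unit ball. -/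
theorem markov (d N i : ℕ) : ∃ C : ℝ, 0 < C ∧ ∀ (P : MvPolynomial (Fin d) ℝ) (M : ℝ),
    P.totalDegree ≤ N → (∀ y, ‖y‖ ≤ 1 → |pe P y| ≤ M) →
    ‖iteratedFDeriv ℝ i (pe P) 0‖ ≤ C * M := by
  classical
  set K : Set (E d) := Metric.closedBall 0 1 with hK
  have : CompactSpace K := isCompact_iff_compactSpace.1 (isCompact_closedBall _ _)
  have hi : ((i : ℕ∞) : WithTop ℕ∞) ≤ (∞ : WithTop ℕ∞) := by exact_mod_cast le_top
  set A : MvPolynomial.restrictTotalDegree (Fin d) ℝ N →ₗ[ℝ] C(K, ℝ) :=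
    { toFun := fun P => ⟨fun y => pe (P : MvPolynomial (Fin d) ℝ) y,
        (land_cd_pe _).continuous.comp continuous_subtype_val⟩
      map_add' := by
        intro P Q
        ext y
        simp [pe]
      map_smul' := by
        intro c P
        ext y
        simp [pe, MvPolynomial.smul_eval] } with hA
  set B : MvPolynomial.restrictTotalDegree (Fin d) ℝ N →ₗ[ℝ]
      ContinuousMultilinearMap ℝ (fun _ : Fin i => E d) ℝ :=
    { toFun := fun P => iteratedFDeriv ℝ i (pe (P : MvPolynomial (Fin d) ℝ)) 0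
      map_add' := by
        intro P Q
        have h1 : pe ((P + Q : MvPolynomial.restrictTotalDegree (Fin d) ℝ N) :
            MvPolynomial (Fin d) ℝ) = pe (P : MvPolynomial (Fin d) ℝ) + pe Q := by
          funext y
          simp [pe]
        rw [h1]
        exact iteratedFDeriv_add_apply ((land_cd_pe _).of_le hi).contDiffAt
          ((land_cd_pe _).of_le hi).contDiffAt
      map_smul' := by
        intro c P
        have h1 : pe ((c • P : MvPolynomial.restrictTotalDegree (Fin d) ℝ N) :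
            MvPolynomial (Fin d) ℝ) = c • pe (P : MvPolynomial (Fin d) ℝ) := by
          funext y
          simp [pe, MvPolynomial.smul_eval]
        rw [h1]
        exact iteratedFDeriv_const_smul_apply ((land_cd_pe _).of_le hi).contDiffAt } with hB
  have hker : LinearMap.ker A ≤ LinearMap.ker B := by
    intro P hP
    rw [LinearMap.mem_ker] at hP ⊢
    have h1 : pe (P : MvPolynomial (Fin d) ℝ) =ᶠ[nhds 0] fun _ => (0 : ℝ) := by
      filter_upwards [Metric.closedBall_mem_nhds (0 : E d) one_pos] with y hy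
      have := congrArg (fun g : C(K, ℝ) => g ⟨y, hy⟩) hP
      simpa [hA] using this
    have h2 := (h1.iteratedFDeriv ℝ i).eq_of_nhds
    show iteratedFDeriv ℝ i (pe (P : MvPolynomial (Fin d) ℝ)) 0 = 0
    rw [h2]
    rw [iteratedFDeriv_fun_zero]
    rfl
  obtain ⟨C, hC, hb⟩ := land_bound A B hker
  refine ⟨C, hC, fun P M hP hM => ?_⟩
  have h1 := hb ⟨P, (MvPolynomial.mem_restrictTotalDegree _ _ _).2 hP⟩
  refine h1.trans (mul_le_mul_of_nonneg_left ?_ hC.le)
  have hM0 : 0 ≤ M := (abs_nonneg _).trans (hM 0 (by simp))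
  rw [ContinuousMap.norm_le _ hM0]
  rintro ⟨y, hy⟩
  rw [hK, mem_closedBall_zero_iff] at hy
  exact hM y hy

/-- Interpolation on the unit ball. -/
theorem landau_unit (d N i : ℕ) (hi : i ≤ N) : ∃ C : ℝ, 0 < C ∧ ∀ (f : E d → ℝ) (M0 M1 : ℝ),
    ContDiff ℝ ∞ f → (∀ y, ‖y‖ ≤ 1 → |f y| ≤ M0) →
    (∀ y, ‖y‖ ≤ 1 → ‖iteratedFDeriv ℝ N f y‖ ≤ M1) →
    ‖iteratedFDeriv ℝ i f 0‖ ≤ C * (M0 + M1) := by
  rcases N with _ | N
  · obtain rfl : i = 0 := by omega
    refine ⟨1, one_pos, fun f M0 M1 _ h0 h1 => ?_⟩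
    have h2 := h1 0 (by simp)
    have h3 := (abs_nonneg _).trans (h0 0 (by simp))
    linarith
  · obtain ⟨C, hC, hm⟩ := markov d N i
    refine ⟨C + 1, by positivity, fun f M0 M1 hf h0 h1 => ?_⟩
    obtain ⟨P, hP, hPT⟩ := TP_poly f 0 N
    have hrem := TP_remainder hf 0 N 1 M1 one_pos (by simpa using h1)
    have hM0 : 0 ≤ M0 := (abs_nonneg _).trans (h0 0 (by simp))
    have hM1 : 0 ≤ M1 := (norm_nonneg _).trans (h1 0 (by simp))
    have h2 : ∀ y, ‖y‖ ≤ 1 → |pe P y| ≤ M0 + M1 := by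
      intro y hy
      have h3 := hrem (N + 1) le_rfl y (by simpa using hy)
      rw [Nat.sub_self, norm_iteratedFDeriv_zero, one_pow, mul_one, Real.norm_eq_abs] at h3
      rw [hPT]
      have h4 := h0 y hy
      have h5 : TPT f 0 N y = f y - (f y - TPT f 0 N y) := by ring
      rw [h5]
      exact (abs_sub _ _).trans (add_le_add h4 h3)
    have h6 := hm P (M0 + M1) hP h2
    rw [hPT] at h6
    have h7 := hrem (N + 1 - i) (by omega) 0 (by simp)
    have h8 : N + 1 - (N + 1 - i) = i := by omega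
    rw [h8, one_pow, mul_one] at h7
    have h9 : iteratedFDeriv ℝ i (fun y => f y - TPT f 0 N y) 0 =
        iteratedFDeriv ℝ i f 0 - iteratedFDeriv ℝ i (TPT f 0 N) 0 := by
      have h91 : ContDiffAt ℝ i f 0 := (hf.of_le (by norm_cast; exact le_top)).contDiffAt
      have h92 : ContDiffAt ℝ i (TPT f 0 N) 0 :=
        ((TPT_smooth f 0 N).of_le (by norm_cast; exact le_top)).contDiffAt
      exact iteratedFDeriv_sub_apply h91 h92
    rw [h9] at h7
    have h10 := norm_sub_norm_le (iteratedFDeriv ℝ i f 0) (iteratedFDeriv ℝ i (TPT f 0 N) 0)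
    have h11 : (C + 1) * (M0 + M1) = C * (M0 + M1) + (M0 + M1) := by ring
    rw [h11]
    linarith

/-- The derivatives of `v ↦ f (z + σ v)`. -/
theorem land_scale {d : ℕ} {f : E d → ℝ} (hf : ContDiff ℝ ∞ f) (z : E d) {σ : ℝ} (hσ : 0 < σ)
    (i : ℕ) (v : E d) : ‖iteratedFDeriv ℝ i (fun v => f (z + σ • v)) v‖ =
      σ ^ i * ‖iteratedFDeriv ℝ i f (z + σ • v)‖ := by
  set g : E d →L[ℝ] E d := σ • ContinuousLinearMap.id ℝ (E d) with hg
  have hf' : ContDiff ℝ ∞ (fun v => f (z + v)) := hf.comp (contDiff_const.add contDiff_id)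
  have hi : ((i : ℕ∞) : WithTop ℕ∞) ≤ (∞ : WithTop ℕ∞) := by exact_mod_cast le_top
  have h1 : (fun v => f (z + σ • v)) = (fun v => f (z + v)) ∘ g := by
    funext v
    simp [hg]
  rw [h1, g.iteratedFDeriv_comp_right hf' v hi]
  have h2 : iteratedFDeriv ℝ i (fun v => f (z + v)) (g v) = iteratedFDeriv ℝ i f (z + σ • v) := by
    rw [iteratedFDeriv_comp_add_left]
    simp [hg]
  rw [h2]
  have h3 : ∀ (T : ContinuousMultilinearMap ℝ (fun _ : Fin i => E d) ℝ),
      T.compContinuousLinearMap (fun _ => g) = σ ^ i • T := by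
    intro T
    ext m
    simp only [ContinuousMultilinearMap.compContinuousLinearMap_apply, hg, smul_apply,
      ContinuousLinearMap.coe_id', id_eq]
    rw [T.map_smul_univ (fun _ => σ) m]
    simp
  rw [h3, norm_smul, norm_pow, Real.norm_eq_abs, abs_of_pos hσ]

/-- Interpolation on a ball of radius `σ`. -/
theorem landau (d N i : ℕ) (hi : i ≤ N) : ∃ C : ℝ, 0 < C ∧ ∀ (f : E d → ℝ) (z : E d)
    (σ M0 M1 : ℝ), ContDiff ℝ ∞ f → 0 < σ → (∀ y, ‖y - z‖ ≤ σ → |f y| ≤ M0) →
    (∀ y, ‖y - z‖ ≤ σ → ‖iteratedFDeriv ℝ N f y‖ ≤ M1) →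
    ‖iteratedFDeriv ℝ i f z‖ ≤ C * (M0 / σ ^ i + M1 * σ ^ (N - i)) := by
  obtain ⟨C, hC, h⟩ := landau_unit d N i hi
  refine ⟨C, hC, fun f z σ M0 M1 hf hσ h0 h1 => ?_⟩
  have hf' : ContDiff ℝ ∞ (fun v => f (z + σ • v)) :=
    hf.comp (contDiff_const.add (contDiff_id.const_smul σ))
  have hball : ∀ y : E d, ‖y‖ ≤ 1 → ‖(z + σ • y) - z‖ ≤ σ := by
    intro y hy
    rw [add_sub_cancel_left, norm_smul, Real.norm_eq_abs, abs_of_pos hσ]
    nlinarith
  have h2 := h (fun v => f (z + σ • v)) M0 (σ ^ N * M1) hf' (fun y hy => h0 _ (hball y hy))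
    (fun y hy => by
      rw [land_scale hf z hσ]
      exact mul_le_mul_of_nonneg_left (h1 _ (hball y hy)) (by positivity))
  rw [land_scale hf z hσ, smul_zero, add_zero] at h2
  have hσi : 0 < σ ^ i := by positivity
  have h3 : σ ^ N = σ ^ i * σ ^ (N - i) := by
    rw [← pow_add]
    congr 1
    omega
  have h4 : C * (M0 / σ ^ i + M1 * σ ^ (N - i)) = C * (M0 + σ ^ N * M1) / σ ^ i := by
    rw [h3]
    field_simp
  rw [h4, le_div_iff₀ hσi, mul_comm]
  exact h2

end Pool.Agent.GNP
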