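import Pool.Agent.GNP.LV
import Pool.Agent.GNP.PT

/-! Row `levels`: the pieces of the amplitude at the levels of the stopping scale. -/

namespace Pool.Agent.GNP

open MeasureTheory Set Metric Pool.Agent.MP_6cbfb8_an
open scoped ENNReal Real RealInnerProductSpace ContDiff

theorem AmpR.monoA {d : ℕ} {A A' : ℕ → ℝ} {r R : ℝ} {a : E d → ℂ} (h : AmpR d A r R a)
    (hR : 0 ≤ R) (hA : ∀ j, A j ≤ A' j) : AmpR d A' r R a :=
  ⟨h.sm, h.supp, fun j y => (h.bd j y).trans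
    (mul_le_mul_of_nonneg_right (hA j) (pow_nonneg hR j))⟩

theorem AmpR.integrable' {d : ℕ} {A : ℕ → ℝ} {r R : ℝ} {a : E d → ℂ} (h : AmpR d A r R a) :
    Integrable a := by
  refine h.sm.continuous.integrable_of_hasCompactSupport ?_
  refine HasCompactSupport.intro (isCompact_closedBall (0 : E d) r) fun y hy => h.supp y ?_
  rwa [mem_closedBall, dist_zero_right, not_le] at hy

theorem levels (d J : ℕ) (A : ℕ → ℝ) (κ0 : ℝ) (hκ0 : 0 < κ0) (r r' : ℝ) (hr : 0 < r)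
    (hr' : r < r') : ∃ (A' : ℕ → ℝ) (m : ℕ) (κ1 : ℝ), 1 ≤ κ1 ∧
    ∀ (a : E d → ℂ) (q : E d → ℝ) (κ : ℝ) (n : ℕ), κ1 ≤ κ → Amp d A r a → High d J A κ q →
      (∀ y, lv J κ q y ≤ n) → ∃ b : ℕ → E d → ℂ,
        (∀ k, AmpR d A' r (2 ^ k) (b k) ∧ Quad d A' (2 ^ k) q (Fl J κ q r' m k) ∧
          ∀ y, b k y ≠ 0 → Metric.closedBall y (κ0 / 2 ^ k) ⊆ Fl J κ q r' m k) ∧
        ∀ x, uu a q x = ∑ k ∈ Finset.range (n + m + 1), uu (b k) q x := by
  obtain ⟨C0, hC0, h0⟩ := slow d J A 1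
  obtain ⟨C1, hC1, h1⟩ := slow d J A (κ0 * C0)
  obtain ⟨A1, hA1⟩ := part_lev d A
  obtain ⟨m, hm⟩ := pow_unbounded_of_one_lt (2 * (C0 * C1)) (one_lt_two (α := ℝ))
  have hC0' : 0 < C0 := zero_lt_one.trans_le hC0
  have hC1' : 0 < C1 := zero_lt_one.trans_le hC1
  have hrr : 0 < r' - r := sub_pos.2 hr'
  refine ⟨fun j => |A1 j| + max 1 |A j| * (2 ^ m) ^ j, m, max 1 (κ0 * C0 / (r' - r)),
    le_max_left _ _, ?_⟩
  intro a q κ n hκ ha hq hn
  have hκ1 : 1 ≤ κ := (le_max_left _ _).trans hκ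
  have hκp : 0 < κ := zero_lt_one.trans_le hκ1
  have hLp : ∀ y, 0 < Lm J κ q y := fun y => hκp.trans_le (Lm_ge J κ q y)
  have hm0 : C0 ≤ 2 ^ m := by nlinarith
  obtain ⟨f, hf1, hf2, hf3⟩ := hA1 (Lm J κ q) a C0 r (n + m) (Lm_cont J κ hq.sm).measurable hC0
    (fun y => hκ1.trans (Lm_ge J κ q y))
    (fun y _ => by
      rw [pow_add, mul_comm ((2 : ℝ) ^ n)]
      refine mul_le_mul hm0 ((Lm_le_lv hκp y).trans
        (pow_le_pow_right₀ one_le_two (hn y))) (hLp y).le (by positivity))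
    (fun y w _ hw => (h0 q κ hκ1 hq y w hw).1) ha
  refine ⟨f, fun k => ⟨(hf1 k).monoA (by positivity) fun j => ?_, ⟨hq.sm, fun y hy j hj => ?_⟩,
    fun y hy z hz => ?_⟩, fun x => ?_⟩
  · have h2 : 0 ≤ max 1 |A j| * ((2 : ℝ) ^ m) ^ j := by positivity
    have h3 := le_abs_self (A1 j)
    linarith
  · obtain ⟨-, -, h2⟩ := hy
    have h3 : Lm J κ q y ≤ 2 ^ m * 2 ^ k := by
      rw [← pow_add, add_comm m k]
      exact (Lm_le_lv hκp y).trans (pow_le_pow_right₀ one_le_two h2)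
    calc ‖iteratedFDeriv ℝ j q y‖ ≤ max 1 |A j| * Lm J κ q y ^ j := der_le hκ1 hq y j hj
      _ ≤ max 1 |A j| * (2 ^ m * 2 ^ k) ^ j :=
          mul_le_mul_of_nonneg_left (pow_le_pow_left₀ (hLp y).le h3 j) (by positivity)
      _ = max 1 |A j| * (2 ^ m) ^ j * (2 ^ k) ^ j := by rw [mul_pow, mul_assoc]
      _ ≤ _ := mul_le_mul_of_nonneg_right (le_add_of_nonneg_left (abs_nonneg _)) (by positivity)
  · obtain ⟨hyr, -, h2, h3⟩ := hf2 k y hy
    have hk0 : (0 : ℝ) < 2 ^ k := by positivity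
    have hzy : ‖z - y‖ ≤ κ0 / 2 ^ k := by rwa [← dist_eq_norm]
    have h4 : κ0 / 2 ^ k ≤ κ0 * C0 / Lm J κ q y := by
      rw [div_le_div_iff₀ hk0 (hLp y)]
      calc κ0 * Lm J κ q y ≤ κ0 * (C0 * 2 ^ k) := mul_le_mul_of_nonneg_left h3 hκ0.le
        _ = κ0 * C0 * 2 ^ k := by ring
    obtain ⟨h5, h6, -⟩ := h1 q κ hκ1 hq y (z - y) (hzy.trans h4)
    rw [add_sub_cancel] at h5 h6
    refine ⟨?_, ?_, ?_⟩
    · have h7 : κ0 / 2 ^ k ≤ r' - r := by
        have h8 : κ0 * C0 / (r' - r) ≤ Lm J κ q y :=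
          ((le_max_right _ _).trans hκ).trans (Lm_ge J κ q y)
        rw [div_le_iff₀ hrr] at h8
        rw [div_le_iff₀ hk0]
        have h9 : κ0 * C0 ≤ C0 * ((r' - r) * 2 ^ k) := by
          calc κ0 * C0 ≤ Lm J κ q y * (r' - r) := h8
            _ ≤ C0 * 2 ^ k * (r' - r) := mul_le_mul_of_nonneg_right h3 hrr.le
            _ = _ := by ring
        rw [mul_comm κ0] at h9
        exact le_of_mul_le_mul_left h9 hC0'
      calc ‖z‖ = ‖y + (z - y)‖ := by rw [add_sub_cancel]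
        _ ≤ ‖y‖ + ‖z - y‖ := norm_add_le _ _
        _ ≤ r + (r' - r) := add_le_add hyr (hzy.trans h7)
        _ = r' := by ring
    · -- `k ≤ lv z + m`
      have h7 : (2 : ℝ) ^ k ≤ 2 ^ (lv J κ q z + m) := by
        calc (2 : ℝ) ^ k ≤ 2 * (C0 * Lm J κ q y) := h2
          _ ≤ 2 * (C0 * (C1 * Lm J κ q z)) := by gcongr
          _ = 2 * (C0 * C1) * Lm J κ q z := by ring
          _ ≤ 2 ^ m * 2 ^ lv J κ q z :=
              mul_le_mul hm.le (Lm_le_lv hκp z) (hLp z).le (by positivity)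
          _ = _ := by rw [← pow_add, add_comm]
      exact (pow_le_pow_iff_right₀ one_lt_two).1 h7
    · have h7 : (2 : ℝ) ^ lv J κ q z ≤ 2 ^ (k + m) := by
        calc (2 : ℝ) ^ lv J κ q z ≤ 2 * Lm J κ q z := (lv_lt_Lm hκ1 z).le
          _ ≤ 2 * (C1 * (C0 * 2 ^ k)) := by
              refine mul_le_mul_of_nonneg_left (h5.trans ?_) zero_le_two
              exact mul_le_mul_of_nonneg_left h3 hC1'.le
          _ = 2 * (C0 * C1) * 2 ^ k := by ring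
          _ ≤ 2 ^ m * 2 ^ k := mul_le_mul_of_nonneg_right hm.le hk0.le
          _ = _ := by rw [← pow_add, add_comm]
      exact (pow_le_pow_iff_right₀ one_lt_two).1 h7
  · exact uu_sum_fin _ f a q (fun k _ => (hf1 k).integrable') hq.sm.continuous hf3 x

end Pool.Agent.GNP
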