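import Mathlib

/-!
Leaves: injectivity on boxes and the change of variables.
-/

namespace Pool.Agent.GNP.LF

open MeasureTheory Set Module
open scoped ENNReal NNReal Real

variable {V W : Type*} [NormedAddCommGroup V] [NormedSpace ℝ V] [FiniteDimensional ℝ V]
  [MeasurableSpace V] [BorelSpace V] [NormedAddCommGroup W] [NormedSpace ℝ W]
  [FiniteDimensional ℝ W] [MeasurableSpace W] [BorelSpace W]

/-- A linear map which is bounded below by `c` has determinant at least `c ^ dim V`. -/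
theorem inj_det (μ : Measure V) [μ.IsAddHaarMeasure] (c : ℝ) (hc : 0 < c) (T : V →L[ℝ] V)
    (hT : ∀ v, c * ‖v‖ ≤ ‖T v‖) : c ^ finrank ℝ V ≤ |T.det| := by
  have hinj : Function.Injective T := by
    rw [injective_iff_map_eq_zero]
    intro v hv
    have h1 := hT v
    rw [hv, norm_zero] at h1
    by_contra h2
    exact absurd h1 (not_le.2 (mul_pos hc (norm_pos_iff.2 h2)))
  have hdet : LinearMap.det (T : V →ₗ[ℝ] V) ≠ 0 := by
    intro h0
    have h1 := LinearMap.bot_lt_ker_of_det_eq_zero h0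
    have h2 : LinearMap.ker (T : V →ₗ[ℝ] V) = ⊥ := LinearMap.ker_eq_bot.2 hinj
    rw [h2] at h1
    exact lt_irrefl _ h1
  have hvol := Measure.addHaar_preimage_linearMap μ hdet (Metric.ball (0 : V) 1)
  have hsub : (T : V →ₗ[ℝ] V) ⁻¹' (Metric.ball (0 : V) 1) ⊆ Metric.ball (0 : V) (1 / c) := by
    intro v hv
    simp only [mem_preimage, Metric.mem_ball, dist_zero_right] at hv ⊢
    have h1 : ‖T v‖ < 1 := hv
    rw [lt_div_iff₀ hc]
    linarith [hT v]
  have hle := measure_mono (μ := μ) hsub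
  rw [hvol, Measure.addHaar_ball_of_pos _ _ (by positivity : (0 : ℝ) < 1 / c)] at hle
  set om := μ (Metric.ball (0 : V) 1) with hom
  have hom0 : om ≠ 0 := (Metric.measure_ball_pos _ _ one_pos).ne'
  have homt : om ≠ ⊤ := measure_ball_lt_top.ne
  have hle' : ENNReal.ofReal |(LinearMap.det (T : V →ₗ[ℝ] V))⁻¹| ≤
      ENNReal.ofReal ((1 / c) ^ finrank ℝ V) := by
    by_contra h1
    exact absurd hle (not_le.2 (ENNReal.mul_lt_mul_left hom0 homt (not_le.1 h1)))
  rw [ENNReal.ofReal_le_ofReal_iff (by positivity), abs_inv, one_div, inv_pow] at hle'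
  exact (inv_le_inv₀ (abs_pos.2 hdet) (by positivity)).1 hle'

/-- A map whose derivative is near one linear map, which is bounded below, is injective on a
convex set; the change of variables on a subset. -/
theorem inj_box (μ : Measure V) [μ.IsAddHaarMeasure] (ν : Measure W) [ν.IsAddHaarMeasure]
    (hVW : finrank ℝ V = finrank ℝ W) (c : ℝ) (hc : 0 < c) : ∃ C : ℝ≥0, ∀ (Q G : Set V)
    (F : V → W) (F' : V → V →L[ℝ] W) (A : V →L[ℝ] W), Convex ℝ Q → MeasurableSet G → G ⊆ Q →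
    (∀ x ∈ Q, HasFDerivAt F (F' x) x) → (∀ v, c * ‖v‖ ≤ ‖A v‖) →
    (∀ x ∈ Q, ‖F' x - A‖ ≤ c / 2) → ∀ h : W → ℝ≥0∞,
    ∫⁻ x in G, h (F x) ∂μ ≤ C * ∫⁻ y, h y ∂ν := by
  let e : W ≃L[ℝ] V := ContinuousLinearEquiv.ofFinrankEq hVW.symm
  set L : ℝ := ‖(e.symm : V →L[ℝ] W)‖ + 1 with hL
  have hL0 : 0 < L := by positivity
  set c' : ℝ := c / 2 / L with hc'
  have hc0 : 0 < c' := by positivity
  let em : V ≃ᵐ W := e.symm.toHomeomorph.toMeasurableEquiv
  have hmap : (μ.map em).IsAddHaarMeasure := by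
    have : (μ.map e.symm).IsAddHaarMeasure := e.symm.isAddHaarMeasure_map μ
    exact this
  have hsc : μ.map em = Measure.addHaarScalarFactor (μ.map em) ν • ν :=
    Measure.isAddLeftInvariant_eq_smul (μ.map em) ν
  set s : ℝ≥0 := Measure.addHaarScalarFactor (μ.map em) ν with hs
  refine ⟨(Real.toNNReal (c' ^ finrank ℝ V))⁻¹ * s, ?_⟩
  intro Q G F F' A hQ hG hGQ hd hA hv h
  have hlow : ∀ x ∈ Q, ∀ v, c / 2 * ‖v‖ ≤ ‖F' x v‖ := by
    intro x hx v
    have h1 : ‖(F' x - A) v‖ ≤ c / 2 * ‖v‖ :=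
      ((F' x - A).le_opNorm v).trans (mul_le_mul_of_nonneg_right (hv x hx) (norm_nonneg v))
    have h2 : ‖A v‖ ≤ ‖F' x v‖ + ‖(F' x - A) v‖ := by
      have h3 : A v = F' x v - (F' x - A) v := by
        rw [sub_apply]
        abel
      calc ‖A v‖ = ‖F' x v - (F' x - A) v‖ := by rw [← h3]
        _ ≤ _ := norm_sub_le _ _
    linarith [hA v]
  have hinj : InjOn F Q := by
    intro x hx y hy hxy
    have h1 := hQ.norm_image_sub_le_of_norm_hasFDerivWithin_le
      (f := fun z => F z - A z) (f' := fun z => F' z - A) (C := c / 2) (x := y) (y := x)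
      (fun z hz => ((hd z hz).sub A.hasFDerivAt).hasFDerivWithinAt) hv hy hx
    have h2 : F x - A x - (F y - A y) = - A (x - y) := by
      rw [hxy, map_sub]
      abel
    rw [h2, norm_neg] at h1
    have h3 := (hA (x - y)).trans h1
    have h4 : ‖x - y‖ ≤ 0 := by
      by_contra h5
      have := not_le.1 h5
      nlinarith
    exact sub_eq_zero.1 (norm_le_zero_iff.1 h4)
  have hinj' : InjOn (fun x => e (F x)) G := fun x hx y hy hxy =>
    hinj (hGQ hx) (hGQ hy) (e.injective hxy)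
  have hder : ∀ x ∈ G, HasFDerivWithinAt (fun x => e (F x)) ((e : W →L[ℝ] V).comp (F' x)) G x :=
    fun x hx => (e.hasFDerivAt.comp x (hd x (hGQ hx))).hasFDerivWithinAt
  have harea := lintegral_image_eq_lintegral_abs_det_fderiv_mul μ hG hder hinj'
    (fun y => h (em y))
  have hback : ∀ x, h (em (e (F x))) = h (F x) := by
    intro x
    have : em (e (F x)) = F x := e.symm_apply_apply (F x)
    rw [this]
  simp only [hback] at harea
  have hdet : ∀ x ∈ G, c' ^ finrank ℝ V ≤ |((e : W →L[ℝ] V).comp (F' x)).det| := by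
    intro x hx
    refine inj_det μ c' hc0 _ fun v => ?_
    have h1 := hlow x (hGQ hx) v
    have h2 : ‖F' x v‖ ≤ L * ‖e (F' x v)‖ := by
      calc ‖F' x v‖ = ‖(e.symm : V →L[ℝ] W) (e (F' x v))‖ := by
            rw [ContinuousLinearEquiv.coe_coe, e.symm_apply_apply]
        _ ≤ ‖(e.symm : V →L[ℝ] W)‖ * ‖e (F' x v)‖ := ContinuousLinearMap.le_opNorm _ _
        _ ≤ L * ‖e (F' x v)‖ := by
            gcongr
            rw [hL]
            linarith
    have h3 : ((e : W →L[ℝ] V).comp (F' x)) v = e (F' x v) := rfl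
    rw [h3, hc', div_mul_eq_mul_div, div_le_iff₀ hL0]
    linarith
  have hpos : 0 < c' ^ finrank ℝ V := by positivity
  have h1 : ENNReal.ofReal (c' ^ finrank ℝ V) * ∫⁻ x in G, h (F x) ∂μ ≤ s * ∫⁻ y, h y ∂ν := by
    rw [← lintegral_const_mul' _ _ ENNReal.ofReal_ne_top]
    calc ∫⁻ x in G, ENNReal.ofReal (c' ^ finrank ℝ V) * h (F x) ∂μ
        ≤ ∫⁻ x in G, ENNReal.ofReal |((e : W →L[ℝ] V).comp (F' x)).det| * h (F x) ∂μ := by
          refine setLIntegral_mono' hG fun x hx => ?_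
          gcongr
          exact hdet x hx
      _ = ∫⁻ y in (fun x => e (F x)) '' G, h (em y) ∂μ := harea.symm
      _ ≤ ∫⁻ y, h (em y) ∂μ := setLIntegral_le_lintegral _ _
      _ = ∫⁻ y, h y ∂(μ.map em) := (lintegral_map_equiv h em).symm
      _ = s * ∫⁻ y, h y ∂ν := by
          rw [hsc, lintegral_smul_measure]
          rfl
  have h2 : ((Real.toNNReal (c' ^ finrank ℝ V) : ℝ≥0) : ℝ≥0∞) =
      ENNReal.ofReal (c' ^ finrank ℝ V) := rfl
  have h3 : Real.toNNReal (c' ^ finrank ℝ V) ≠ 0 := by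
    rw [Ne, Real.toNNReal_eq_zero, not_le]
    exact hpos
  calc ∫⁻ x in G, h (F x) ∂μ = (ENNReal.ofReal (c' ^ finrank ℝ V))⁻¹ *
        (ENNReal.ofReal (c' ^ finrank ℝ V) * ∫⁻ x in G, h (F x) ∂μ) := by
        rw [← mul_assoc, ENNReal.inv_mul_cancel (by simpa using hpos) ENNReal.ofReal_ne_top,
          one_mul]
    _ ≤ (ENNReal.ofReal (c' ^ finrank ℝ V))⁻¹ * (s * ∫⁻ y, h y ∂ν) := by gcongr
    _ = _ := by
        rw [ENNReal.coe_mul, ENNReal.coe_inv h3, h2, mul_assoc]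

/-- The same on a bounded convex set, if the derivative is Lipschitz there and bounded below on
the subset. -/
theorem inj_cover (μ : Measure V) [μ.IsAddHaarMeasure] (ν : Measure W) [ν.IsAddHaarMeasure]
    (hVW : finrank ℝ V = finrank ℝ W) (c A S : ℝ) (hc : 0 < c) : ∃ C : ℝ≥0, ∀ (x0 : V)
    (Q G : Set V) (F : V → W) (F' : V → V →L[ℝ] W), Convex ℝ Q → Q ⊆ Metric.closedBall x0 S →
    MeasurableSet G → G ⊆ Q → (∀ x ∈ Q, HasFDerivAt F (F' x) x) →
    (∀ x ∈ Q, ∀ y ∈ Q, ‖F' x - F' y‖ ≤ A * ‖x - y‖) →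
    (∀ x ∈ G, ∀ v, c * ‖v‖ ≤ ‖F' x v‖) → ∀ h : W → ℝ≥0∞,
    ∫⁻ x in G, h (F x) ∂μ ≤ C * ∫⁻ y, h y ∂ν := by
  obtain ⟨C, hC⟩ := inj_box μ ν hVW c hc
  set r : ℝ := c / (4 * (|A| + 1)) with hr
  have hr0 : 0 < r := by positivity
  obtain ⟨t, -, ht, hcov⟩ := (isCompact_closedBall (0 : V) S).finite_cover_balls hr0
  refine ⟨ht.toFinset.card * C, ?_⟩
  intro x0 Q G F F' hQ hQS hG hGQ hd hv hl h
  have hpiece : ∀ u : V, ∫⁻ x in G ∩ Metric.closedBall (x0 + u) r, h (F x) ∂μ ≤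
      C * ∫⁻ y, h y ∂ν := by
    intro u
    rcases (G ∩ Metric.closedBall (x0 + u) r).eq_empty_or_nonempty with h0 | ⟨g, hg⟩
    · rw [h0, Measure.restrict_empty, lintegral_zero_measure]
      exact zero_le
    · refine hC (Q ∩ Metric.closedBall (x0 + u) r) (G ∩ Metric.closedBall (x0 + u) r) F F' (F' g)
        (hQ.inter (convex_closedBall _ _)) (hG.inter measurableSet_closedBall)
        (inter_subset_inter_left _ hGQ) (fun x hx => hd x hx.1) (hl g hg.1) ?_ h
      intro x hx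
      refine (hv x hx.1 g (hGQ hg.1)).trans ?_
      have h1 : ‖x - g‖ ≤ 2 * r := by
        have h2 := hx.2
        have h3 := hg.2
        rw [Metric.mem_closedBall] at h2 h3
        rw [← dist_eq_norm]
        linarith [dist_triangle_right x g (x0 + u)]
      calc A * ‖x - g‖ ≤ (|A| + 1) * (2 * r) :=
            mul_le_mul (by linarith [le_abs_self A]) h1 (norm_nonneg _) (by positivity)
        _ = c / 2 := by
            rw [hr]
            field_simp
            ring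
  have hGcov : G ⊆ ⋃ u : {u // u ∈ ht.toFinset}, G ∩ Metric.closedBall (x0 + u) r := by
    intro x hx
    have h1 : x - x0 ∈ Metric.closedBall (0 : V) S := by
      have := hQS (hGQ hx)
      rw [Metric.mem_closedBall, dist_eq_norm] at this
      rwa [mem_closedBall_zero_iff]
    obtain ⟨u, hu, hxu⟩ := mem_iUnion₂.1 (hcov h1)
    refine mem_iUnion.2 ⟨⟨u, ht.mem_toFinset.2 hu⟩, hx, ?_⟩
    rw [Metric.mem_ball, dist_eq_norm] at hxu
    rw [Metric.mem_closedBall, dist_eq_norm]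
    have h2 : x - (x0 + u) = x - x0 - u := by abel
    rw [h2]
    exact hxu.le
  calc ∫⁻ x in G, h (F x) ∂μ ≤
        ∫⁻ x in ⋃ u : {u // u ∈ ht.toFinset}, G ∩ Metric.closedBall (x0 + u) r, h (F x) ∂μ :=
        lintegral_mono_set hGcov
    _ ≤ ∑' u : {u // u ∈ ht.toFinset}, ∫⁻ x in G ∩ Metric.closedBall (x0 + u) r, h (F x) ∂μ :=
        lintegral_iUnion_le _ _
    _ ≤ ∑' _u : {u // u ∈ ht.toFinset}, C * ∫⁻ y, h y ∂ν :=
        ENNReal.tsum_le_tsum fun u => hpiece u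
    _ = _ := by
        rw [tsum_fintype, Finset.sum_const, nsmul_eq_mul, Finset.card_univ, Fintype.card_coe,
          ENNReal.coe_mul, ENNReal.coe_natCast, mul_assoc]

omit [NormedSpace ℝ V] [FiniteDimensional ℝ V] [MeasurableSpace V] [BorelSpace V] [FiniteDimensional ℝ W]
  [MeasurableSpace W] [BorelSpace W] in
/-- The lower bound of the derivative: one vector `a` of size `ρ` which is transversal to the
range of `T`. -/
theorem inj_low (c c2 C K ρ : ℝ) (hc : 0 < c) (hc2 : 0 < c2) (hC : 0 ≤ C)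
    (T : V → W) (a : W) (l : W →ₗ[ℝ] ℝ) (hT : ∀ z, c * ‖z‖ ≤ ‖T z‖)
    (hl : ∀ w, |l w| ≤ K * ‖w‖) (hlT : ∀ z, l (T z) = 0) (hla : c2 * ρ ≤ |l a|)
    (ha : ‖a‖ ≤ C * ρ) (s : ℝ) (z : V) :
    ρ * |s| + ‖z‖ ≤ (K / c2 + (1 + C * (K / c2)) / c) * ‖s • a + T z‖ := by
  have h1 : ρ * |s| ≤ K / c2 * ‖s • a + T z‖ := by
    have h2 : l (s • a + T z) = s * l a := by
      rw [map_add, map_smul, hlT, add_zero, smul_eq_mul]
    have h3 := hl (s • a + T z)
    rw [h2, abs_mul] at h3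
    rw [div_mul_eq_mul_div, le_div_iff₀ hc2]
    have h4 := mul_le_mul_of_nonneg_left hla (abs_nonneg s)
    linarith
  have h5 : c * ‖z‖ ≤ (1 + C * (K / c2)) * ‖s • a + T z‖ := by
    have h6 : ‖T z‖ ≤ ‖s • a + T z‖ + |s| * ‖a‖ := by
      have h7 : T z = (s • a + T z) - s • a := by abel
      calc ‖T z‖ = ‖(s • a + T z) - s • a‖ := by rw [← h7]
        _ ≤ ‖s • a + T z‖ + ‖s • a‖ := norm_sub_le _ _
        _ = _ := by rw [norm_smul, Real.norm_eq_abs]
    have h7 : |s| * ‖a‖ ≤ C * (K / c2 * ‖s • a + T z‖) := by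
      calc |s| * ‖a‖ ≤ |s| * (C * ρ) := by gcongr
        _ = C * (ρ * |s|) := by ring
        _ ≤ _ := by gcongr
    have h8 := hT z
    linarith
  have h9 : ‖z‖ ≤ (1 + C * (K / c2)) / c * ‖s • a + T z‖ := by
    rw [div_mul_eq_mul_div, le_div_iff₀ hc]
    linarith
  linarith

end Pool.Agent.GNP.LF
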