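import Pool.Agent.GNP.A3

/-!
Local `L²` bounds: the integral of `|u|²` over a ball of radius `R` by the packets at its centre.
-/

namespace Pool.Agent.GNP

open MeasureTheory Set Pool.Agent.MP_6cbfb8_an
open scoped ENNReal Real RealInnerProductSpace ContDiff Convolution

/-- A fixed bump function. -/
noncomputable def chiB (d : ℕ) : ContDiffBump (0 : E d) := ⟨1 / 8, 1 / 4, by norm_num, by norm_num⟩

/-- The same with integral one. -/
noncomputable def chi {d : ℕ} (v : E d) : ℝ := (chiB d).normed volume v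

theorem contDiff_chi {d : ℕ} : ContDiff ℝ ∞ (chi : E d → ℝ) := (chiB d).contDiff_normed

theorem chi_nonneg {d : ℕ} (v : E d) : 0 ≤ chi v := (chiB d).nonneg_normed v

theorem chi_zero {d : ℕ} {v : E d} (hv : 1 / 4 < ‖v‖) : chi v = 0 := by
  have h1 : v ∉ Function.support ((chiB d).normed (volume : Measure (E d))) := by
    rw [(chiB d).support_normed_eq, Metric.mem_ball, dist_zero_right]
    exact not_lt.2 hv.le
  exact Function.notMem_support.1 h1

theorem integral_chi (d : ℕ) : ∫ v : E d, chi v = 1 := (chiB d).integral_normed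

theorem compact_chi (d : ℕ) : HasCompactSupport (chi : E d → ℝ) := (chiB d).hasCompactSupport_normed

theorem integrable_chi (d : ℕ) : Integrable (chi : E d → ℝ) :=
  contDiff_chi.continuous.integrable_of_hasCompactSupport (compact_chi d)

/-- The transform of `chi` is at least one half on the unit ball. -/
theorem chi_half {d : ℕ} (x : E d) (hx : ‖x‖ ≤ 1) :
    1 / 2 ≤ ‖∫ v : E d, ((chi v : ℝ) : ℂ) * Complex.exp (((-⟪x, v⟫ : ℝ) : ℂ) * Complex.I)‖ := by
  have hc1 : Integrable fun v : E d => ((chi v : ℝ) : ℂ) := (integrable_chi d).ofReal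
  have hce : Continuous fun v : E d => Complex.exp (((-⟪x, v⟫ : ℝ) : ℂ) * Complex.I) := by fun_prop
  have hc2 : Integrable fun v : E d => ((chi v : ℝ) : ℂ) *
      Complex.exp (((-⟪x, v⟫ : ℝ) : ℂ) * Complex.I) := by
    refine (Continuous.mul ?_ hce).integrable_of_hasCompactSupport ?_
    · exact Complex.continuous_ofReal.comp contDiff_chi.continuous
    · exact ((compact_chi d).comp_left (g := fun t : ℝ => (t : ℂ)) (by simp)).mul_right
  have h1 : ∫ v : E d, ((chi v : ℝ) : ℂ) = 1 := by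
    rw [integral_complex_ofReal, integral_chi, Complex.ofReal_one]
  have h2 : (∫ v : E d, ((chi v : ℝ) : ℂ) * Complex.exp (((-⟪x, v⟫ : ℝ) : ℂ) * Complex.I)) - 1 =
      ∫ v : E d, ((chi v : ℝ) : ℂ) * (Complex.exp (((-⟪x, v⟫ : ℝ) : ℂ) * Complex.I) - 1) := by
    conv_lhs => rw [← h1]
    rw [← integral_sub hc2 hc1]
    refine integral_congr_ae (Filter.Eventually.of_forall fun v => ?_)
    simp only
    ring
  have h3 : ‖∫ v : E d, ((chi v : ℝ) : ℂ) *
      (Complex.exp (((-⟪x, v⟫ : ℝ) : ℂ) * Complex.I) - 1)‖ ≤ 1 / 2 := by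
    have h4 : ∀ v : E d, ‖((chi v : ℝ) : ℂ) *
        (Complex.exp (((-⟪x, v⟫ : ℝ) : ℂ) * Complex.I) - 1)‖ ≤ chi v * (1 / 2) := by
      intro v
      rw [norm_mul, Complex.norm_real, Real.norm_of_nonneg (chi_nonneg v)]
      by_cases hv : 1 / 4 < ‖v‖
      · rw [chi_zero hv, zero_mul, zero_mul]
      · refine mul_le_mul_of_nonneg_left ?_ (chi_nonneg v)
        have h5 := Real.norm_exp_I_mul_ofReal_sub_one_le (x := -⟪x, v⟫)
        rw [mul_comm] at h5
        refine h5.trans ?_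
        rw [norm_neg, Real.norm_eq_abs]
        refine (abs_real_inner_le_norm _ _).trans ?_
        have := norm_nonneg v
        nlinarith [norm_nonneg x, not_lt.1 hv]
    refine (norm_integral_le_of_norm_le ((integrable_chi d).mul_const _)
      (Filter.Eventually.of_forall h4)).trans (le_of_eq ?_)
    rw [integral_mul_const, integral_chi]
    norm_num
  rw [← h2] at h3
  have h5 := norm_sub_norm_le (1 : ℂ)
    (-((∫ v : E d, ((chi v : ℝ) : ℂ) * Complex.exp (((-⟪x, v⟫ : ℝ) : ℂ) * Complex.I)) - 1))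
  rw [norm_one, norm_neg] at h5
  have h6 : (1 : ℂ) - -((∫ v : E d, ((chi v : ℝ) : ℂ) *
      Complex.exp (((-⟪x, v⟫ : ℝ) : ℂ) * Complex.I)) - 1) =
      ∫ v : E d, ((chi v : ℝ) : ℂ) * Complex.exp (((-⟪x, v⟫ : ℝ) : ℂ) * Complex.I) := by ring
  rw [h6] at h5
  linarith

/-- The kernel of the localisation. -/
noncomputable def llk {d : ℕ} (R : ℝ) (v : E d) : ℂ := ((R ^ d * chi (R • v) : ℝ) : ℂ)

theorem continuous_llk {d : ℕ} (R : ℝ) : Continuous (llk R : E d → ℂ) := by
  unfold llk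
  exact Complex.continuous_ofReal.comp
    (continuous_const.mul (contDiff_chi.continuous.comp (continuous_const_smul R)))

theorem llk_zero {d : ℕ} {R : ℝ} {v : E d} (hv : 1 / 4 < ‖R • v‖) : llk R v = 0 := by
  rw [llk, chi_zero hv, mul_zero, Complex.ofReal_zero]

theorem compact_llk {d : ℕ} {R : ℝ} (hR : 0 < R) : HasCompactSupport (llk R : E d → ℂ) := by
  refine HasCompactSupport.intro (isCompact_closedBall (0 : E d) (R⁻¹)) fun v hv => ?_
  rw [Metric.mem_closedBall, dist_zero_right, not_le] at hv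
  refine llk_zero ?_
  rw [norm_smul, Real.norm_of_nonneg hR.le]
  have : 1 < R * ‖v‖ := by
    rw [inv_lt_iff_one_lt_mul₀ hR] at hv
    linarith
  linarith

theorem llk_half {d : ℕ} {R : ℝ} (hR : 0 < R) (ξ : E d) (hξ : ‖ξ‖ ≤ R) :
    1 / 2 ≤ ‖∫ v : E d, llk R v * Complex.exp (((-⟪ξ, v⟫ : ℝ) : ℂ) * Complex.I)‖ := by
  have h1 := Measure.integral_comp_smul (volume : Measure (E d))
    (fun v => ((chi v : ℝ) : ℂ) * Complex.exp (((-⟪R⁻¹ • ξ, v⟫ : ℝ) : ℂ) * Complex.I)) R
  rw [finrank_euclideanSpace, Fintype.card_fin, abs_of_pos (by positivity)] at h1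
  have h2 : ∫ v : E d, llk R v * Complex.exp (((-⟪ξ, v⟫ : ℝ) : ℂ) * Complex.I) =
      ((R ^ d : ℝ) : ℂ) * ∫ v : E d, ((chi (R • v) : ℝ) : ℂ) *
        Complex.exp (((-⟪R⁻¹ • ξ, R • v⟫ : ℝ) : ℂ) * Complex.I) := by
    rw [← integral_const_mul]
    refine integral_congr_ae (Filter.Eventually.of_forall fun v => ?_)
    simp only [llk]
    rw [real_inner_smul_left, real_inner_smul_right, inv_mul_cancel_left₀ hR.ne']
    push_cast
    ring
  rw [h2, h1, Complex.real_smul, ← mul_assoc, ← Complex.ofReal_mul,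
    mul_inv_cancel₀ (by positivity), Complex.ofReal_one, one_mul]
  refine chi_half _ ?_
  rw [norm_smul, norm_inv, Real.norm_of_nonneg hR.le, inv_mul_le_iff₀ hR, mul_one]
  exact hξ

/-- The bump function is a kernel. -/
theorem ker_chi (d : ℕ) : Ker (1 / 4) (chi : E d → ℝ) := ⟨contDiff_chi, fun _ hv => chi_zero hv⟩

theorem chi_neg {d : ℕ} (v : E d) : chi (-v) = chi v := (chiB d).normed_neg v

/-- **Local `L²` bound**, Plancherel in the position of the packet. -/
theorem local_L2 (d : ℕ) (a : E d → ℂ) (q : E d → ℝ) (r R : ℝ) (hR : 0 < R) (ha : Continuous a)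
    (has : ∀ y, r < ‖y‖ → a y = 0) (hq : Continuous q) (x0 : E d) :
    ∫⁻ x in Metric.closedBall x0 R, ‖uu a q x‖ₑ ^ (2 : ℝ) ≤
      ENNReal.ofReal (4 * (2 * π) ^ d) * ∫⁻ z, ‖uz chi a q R z x0‖ₑ ^ (2 : ℝ) := by
  set g : E d → ℂ := fun y => a y * Complex.exp (((q y - ⟪x0, y⟫ : ℝ) : ℂ) * Complex.I) with hg
  have hacs : HasCompactSupport a := by
    refine HasCompactSupport.intro (isCompact_closedBall (0 : E d) r) fun y hy => has y ?_
    rw [Metric.mem_closedBall, dist_zero_right, not_le] at hy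
    exact hy
  have hexp : ∀ x : E d, Continuous fun y : E d => Complex.exp (((-⟪x, y⟫ : ℝ) : ℂ) * Complex.I) :=
    fun x => by fun_prop
  have hgc : Continuous g := ha.mul (by fun_prop)
  have hgcs : HasCompactSupport g := hacs.mul_right
  -- the packets as a convolution
  set P : E d → ℂ := g ⋆[ContinuousLinearMap.mul ℝ ℂ, volume] (llk R) with hP
  have hPz : ∀ z, P z = uz chi a q R z x0 := by
    intro z
    rw [hP, convolution_def]
    unfold uz uu
    refine integral_congr_ae (Filter.Eventually.of_forall fun y => ?_)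
    simp only [ContinuousLinearMap.mul_apply', g, llk]
    have h1 : chi (R • (z - y)) = chi (R • (y - z)) := by
      rw [← chi_neg (R • (y - z)), ← smul_neg, neg_sub]
    rw [h1]
    ring
  have hgi : Integrable g := hgc.integrable_of_hasCompactSupport hgcs
  have hki : Integrable (llk R : E d → ℂ) :=
    (continuous_llk R).integrable_of_hasCompactSupport (compact_llk hR)
  have hPi : Integrable P := hgi.integrable_convolution _ hki
  -- the transform of the convolution
  have hF : ∀ ξ : E d, ∫ z, P z * Complex.exp (((-⟪ξ, z⟫ : ℝ) : ℂ) * Complex.I) =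
      uu a q (x0 + ξ) * ∫ v : E d, llk R v * Complex.exp (((-⟪ξ, v⟫ : ℝ) : ℂ) * Complex.I) := by
    intro ξ
    set gx : E d → ℂ := fun y => g y * Complex.exp (((-⟪ξ, y⟫ : ℝ) : ℂ) * Complex.I) with hgx
    set kx : E d → ℂ := fun v => llk R v * Complex.exp (((-⟪ξ, v⟫ : ℝ) : ℂ) * Complex.I) with hkx
    have hgxi : Integrable gx :=
      (hgc.mul (hexp ξ)).integrable_of_hasCompactSupport hgcs.mul_right
    have hkxi : Integrable kx :=
      ((continuous_llk R).mul (hexp ξ)).integrable_of_hasCompactSupport (compact_llk hR).mul_right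
    have h1 : ∀ z, P z * Complex.exp (((-⟪ξ, z⟫ : ℝ) : ℂ) * Complex.I) =
        (gx ⋆[ContinuousLinearMap.mul ℝ ℂ, volume] kx) z := by
      intro z
      rw [hP, convolution_def, convolution_def, ← integral_mul_const]
      refine integral_congr_ae (Filter.Eventually.of_forall fun y => ?_)
      simp only [ContinuousLinearMap.mul_apply', gx, kx]
      have h2 : Complex.exp (((-⟪ξ, z⟫ : ℝ) : ℂ) * Complex.I) =
          Complex.exp (((-⟪ξ, y⟫ : ℝ) : ℂ) * Complex.I) *
            Complex.exp (((-⟪ξ, z - y⟫ : ℝ) : ℂ) * Complex.I) := by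
        rw [← Complex.exp_add]
        congr 1
        rw [inner_sub_right]
        push_cast
        ring
      rw [h2]
      ring
    simp_rw [h1]
    rw [integral_convolution _ hgxi hkxi, ContinuousLinearMap.mul_apply']
    congr 1
    unfold uu
    refine integral_congr_ae (Filter.Eventually.of_forall fun y => ?_)
    simp only [gx, g]
    rw [mul_assoc, ← Complex.exp_add]
    congr 2
    rw [inner_add_left]
    push_cast
    ring
  -- pointwise
  have hpt : ∀ ξ ∈ Metric.closedBall (0 : E d) R, ‖uu a q (x0 + ξ)‖ₑ ^ (2 : ℝ) ≤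
      ENNReal.ofReal 4 * ‖∫ z, P z * Complex.exp (((-⟪ξ, z⟫ : ℝ) : ℂ) * Complex.I)‖ₑ ^ (2 : ℝ) := by
    intro ξ hξ
    rw [Metric.mem_closedBall, dist_zero_right] at hξ
    have h1 := llk_half hR ξ hξ
    rw [hF ξ]
    have h2 : ‖uu a q (x0 + ξ)‖ₑ ≤ ENNReal.ofReal 2 * ‖uu a q (x0 + ξ) *
        ∫ v : E d, llk R v * Complex.exp (((-⟪ξ, v⟫ : ℝ) : ℂ) * Complex.I)‖ₑ := by
      rw [← ofReal_norm, ← ofReal_norm, ← ENNReal.ofReal_mul (by norm_num), norm_mul]
      refine ENNReal.ofReal_le_ofReal ?_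
      have := norm_nonneg (uu a q (x0 + ξ))
      nlinarith
    calc ‖uu a q (x0 + ξ)‖ₑ ^ (2 : ℝ) ≤ (ENNReal.ofReal 2 * ‖uu a q (x0 + ξ) *
        ∫ v : E d, llk R v * Complex.exp (((-⟪ξ, v⟫ : ℝ) : ℂ) * Complex.I)‖ₑ) ^ (2 : ℝ) :=
          ENNReal.rpow_le_rpow h2 (by norm_num)
      _ = _ := by
          rw [ENNReal.mul_rpow_of_nonneg _ _ (by norm_num), ENNReal.ofReal_rpow_of_pos (by norm_num)]
          norm_num
  have hpl := planch d P hPi
  have hshift : ∫⁻ x in Metric.closedBall x0 R, ‖uu a q x‖ₑ ^ (2 : ℝ) =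
      ∫⁻ ξ in Metric.closedBall (0 : E d) R, ‖uu a q (x0 + ξ)‖ₑ ^ (2 : ℝ) := by
    rw [← lintegral_indicator measurableSet_closedBall, ← lintegral_indicator measurableSet_closedBall,
      ← lintegral_add_left_eq_self _ x0]
    refine lintegral_congr fun ξ => ?_
    by_cases hξ : ξ ∈ Metric.closedBall (0 : E d) R
    · rw [indicator_of_mem hξ, indicator_of_mem]
      rw [Metric.mem_closedBall, dist_zero_right] at hξ
      rw [Metric.mem_closedBall, dist_eq_norm, add_sub_cancel_left]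
      exact hξ
    · rw [indicator_of_notMem hξ, indicator_of_notMem]
      rw [Metric.mem_closedBall, dist_zero_right] at hξ
      rw [Metric.mem_closedBall, dist_eq_norm, add_sub_cancel_left]
      exact hξ
  rw [hshift]
  calc ∫⁻ ξ in Metric.closedBall (0 : E d) R, ‖uu a q (x0 + ξ)‖ₑ ^ (2 : ℝ)
      ≤ ∫⁻ ξ in Metric.closedBall (0 : E d) R, ENNReal.ofReal 4 *
          ‖∫ z, P z * Complex.exp (((-⟪ξ, z⟫ : ℝ) : ℂ) * Complex.I)‖ₑ ^ (2 : ℝ) :=
        setLIntegral_mono' measurableSet_closedBall hpt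
    _ ≤ ∫⁻ ξ : E d, ENNReal.ofReal 4 *
          ‖∫ z, P z * Complex.exp (((-⟪ξ, z⟫ : ℝ) : ℂ) * Complex.I)‖ₑ ^ (2 : ℝ) :=
        setLIntegral_le_lintegral _ _
    _ = ENNReal.ofReal 4 * ∫⁻ ξ : E d,
          ‖∫ z, P z * Complex.exp (((-⟪ξ, z⟫ : ℝ) : ℂ) * Complex.I)‖ₑ ^ (2 : ℝ) :=
        lintegral_const_mul' _ _ ENNReal.ofReal_ne_top
    _ ≤ ENNReal.ofReal 4 * (ENNReal.ofReal ((2 * π) ^ d) * ∫⁻ z, ‖P z‖ₑ ^ (2 : ℝ)) :=
        mul_le_mul_right hpl _
    _ = _ := by
        simp_rw [hPz]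
        rw [← mul_assoc, ← ENNReal.ofReal_mul (by norm_num)]

end Pool.Agent.GNP
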