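import Pool.Agent.GNP.A3

/-!
Local `L²` bound: the function on a ball of radius `R` against the packets at the centre.
-/

namespace Pool.Agent.GNP

open MeasureTheory Set Pool.Agent.MP_6cbfb8_an
open scoped ENNReal Real RealInnerProductSpace

/-- The Fourier transform of a scaled kernel is at least `1/2` on the ball of radius `R`. -/
theorem ld_ker_low (d : ℕ) (κ : ℝ) (hκ : κ ≤ 1 / 2) (ρ : E d → ℝ) (hρ : Ker κ ρ)
    (hρ0 : ∀ v, 0 ≤ ρ v) (hρ1 : ∫ v, ρ v = 1) (R : ℝ) (hR : 0 < R) (ξ : E d) (hξ : ‖ξ‖ ≤ R) :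
    1 / 2 ≤ ‖∫ v : E d, ((R ^ d * ρ (R • v) : ℝ) : ℂ) * Complex.exp (((⟪ξ, v⟫ : ℝ) : ℂ) * Complex.I)‖ := by
  have hρc : Continuous ρ := hρ.sm.continuous
  have hρs : HasCompactSupport ρ := by
    refine HasCompactSupport.of_support_subset_isCompact (isCompact_closedBall (0 : E d) κ) ?_
    intro v hv
    by_contra h
    have h1 : κ < ‖v‖ := by simpa using h
    exact hv (hρ.supp v h1)
  have hκ0 : 0 ≤ κ := by
    by_contra h
    have h1 : ∀ v, ρ v = 0 := fun v => hρ.supp v (lt_of_lt_of_le (not_le.1 h) (norm_nonneg _))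
    simp [h1] at hρ1
  have hRd : 0 < R ^ d := by positivity
  set k : E d → ℝ := fun v => R ^ d * ρ (R • v) with hk
  have hkc : Continuous k := by fun_prop
  have hks : HasCompactSupport k := by
    refine HasCompactSupport.of_support_subset_isCompact (isCompact_closedBall (0 : E d) (κ / R)) ?_
    intro v hv
    by_contra h
    have h1 : κ / R < ‖v‖ := by simpa using h
    have h2 : κ < ‖R • v‖ := by
      rw [norm_smul, Real.norm_eq_abs, abs_of_pos hR]
      rwa [div_lt_iff₀' hR] at h1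
    exact hv (by simp only [hk]; rw [hρ.supp _ h2, mul_zero])
  have hki : Integrable k := hkc.integrable_of_hasCompactSupport hks
  have hk1 : ∫ v, k v = 1 := by
    simp only [hk]
    rw [integral_const_mul, Measure.integral_comp_smul volume (fun v => ρ v) R, hρ1,
      finrank_euclideanSpace, Fintype.card_fin, abs_of_pos (inv_pos.2 hRd)]
    simp [hRd.ne']
  have hk0 : ∀ v, 0 ≤ k v := fun v => mul_nonneg hRd.le (hρ0 _)
  have hki' : Integrable fun v : E d => ((k v : ℝ) : ℂ) := hki.ofReal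
  have he : Integrable fun v : E d => ((k v : ℝ) : ℂ) *
      Complex.exp (((⟪ξ, v⟫ : ℝ) : ℂ) * Complex.I) := by
    refine (hki'.norm).mono' (by fun_prop) (Filter.Eventually.of_forall fun v => ?_)
    rw [norm_mul, Complex.norm_exp_ofReal_mul_I, mul_one]
  have hdiff : ‖(∫ v : E d, ((k v : ℝ) : ℂ) * Complex.exp (((⟪ξ, v⟫ : ℝ) : ℂ) * Complex.I)) - 1‖ ≤
      κ := by
    have h1 : (∫ v : E d, ((k v : ℝ) : ℂ)) = 1 := by
      have h0 : (∫ v : E d, ((k v : ℝ) : ℂ)) = ((∫ v, k v : ℝ) : ℂ) :=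
        integral_ofReal (𝕜 := ℂ) (μ := volume) (f := k)
      rw [h0, hk1]; simp
    rw [← h1, ← integral_sub he hki']
    refine (norm_integral_le_integral_norm _).trans ?_
    have h2 : ∀ v : E d, ‖((k v : ℝ) : ℂ) * Complex.exp (((⟪ξ, v⟫ : ℝ) : ℂ) * Complex.I) -
        ((k v : ℝ) : ℂ)‖ ≤ κ * k v := by
      intro v
      have h3 : ((k v : ℝ) : ℂ) * Complex.exp (((⟪ξ, v⟫ : ℝ) : ℂ) * Complex.I) -
        ((k v : ℝ) : ℂ) = ((k v : ℝ) : ℂ) *
          (Complex.exp (Complex.I * ((⟪ξ, v⟫ : ℝ) : ℂ)) - 1) := by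
        rw [mul_comm Complex.I]; ring
      rw [h3, norm_mul, Complex.norm_real, Real.norm_eq_abs, abs_of_nonneg (hk0 v), mul_comm]
      by_cases h4 : κ / R < ‖v‖
      · have h2 : κ < ‖R • v‖ := by
          rw [norm_smul, Real.norm_eq_abs, abs_of_pos hR]
          rwa [div_lt_iff₀' hR] at h4
        have h5 : k v = 0 := by simp only [hk]; rw [hρ.supp _ h2, mul_zero]
        rw [h5, mul_zero, mul_zero]
      · refine mul_le_mul_of_nonneg_right ?_ (hk0 v)
        refine Real.norm_exp_I_mul_ofReal_sub_one_le.trans ?_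
        rw [Real.norm_eq_abs]
        refine (abs_real_inner_le_norm ξ v).trans ?_
        calc ‖ξ‖ * ‖v‖ ≤ R * (κ / R) :=
              mul_le_mul hξ (not_lt.1 h4) (norm_nonneg _) hR.le
          _ = κ := by field_simp
    calc ∫ v : E d, ‖((k v : ℝ) : ℂ) * Complex.exp (((⟪ξ, v⟫ : ℝ) : ℂ) * Complex.I) -
          ((k v : ℝ) : ℂ)‖ ≤ ∫ v : E d, κ * k v :=
          integral_mono (he.sub hki').norm (hki.const_mul κ) h2
      _ = κ := by rw [integral_const_mul, hk1, mul_one]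
  have h6 : (1 : ℝ) ≤ ‖∫ v : E d, ((k v : ℝ) : ℂ) *
      Complex.exp (((⟪ξ, v⟫ : ℝ) : ℂ) * Complex.I)‖ + κ := by
    set I := ∫ v : E d, ((k v : ℝ) : ℂ) * Complex.exp (((⟪ξ, v⟫ : ℝ) : ℂ) * Complex.I)
    calc (1 : ℝ) = ‖(1 : ℂ)‖ := by simp
      _ = ‖I - (I - 1)‖ := by congr 1; ring
      _ ≤ ‖I‖ + ‖I - 1‖ := norm_sub_le _ _
      _ ≤ ‖I‖ + κ := by gcongr
  simp only [hk] at h6
  linarith

/-- (d) Local `L²` bound. -/
theorem loc_d (d : ℕ) (κ : ℝ) (hκ : κ ≤ 1 / 2) (ρ : E d → ℝ) (hρ : Ker κ ρ)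
    (hρ0 : ∀ v, 0 ≤ ρ v) (hρ1 : ∫ v, ρ v = 1) (a : E d → ℂ) (ha : Continuous a)
    (hac : HasCompactSupport a) (q : E d → ℝ) (hq : Continuous q) (R : ℝ) (hR : 0 < R)
    (x₀ : E d) :
    ∫⁻ x in Metric.closedBall x₀ R, ‖uu a q x‖ₑ ^ (2 : ℝ) ≤
      ENNReal.ofReal (4 * (2 * π) ^ d) * ∫⁻ z, ‖uz ρ a q R z x₀‖ₑ ^ (2 : ℝ) := by
  have hρc : Continuous ρ := hρ.sm.continuous
  set k : E d → ℝ := fun v => R ^ d * ρ (R • v) with hk
  have hkc : Continuous k := by fun_prop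
  have hk0 : ∀ v, κ / R < ‖v‖ → k v = 0 := by
    intro v h1
    have h2 : κ < ‖R • v‖ := by
      rw [norm_smul, Real.norm_eq_abs, abs_of_pos hR]
      rwa [div_lt_iff₀' hR] at h1
    simp only [hk]; rw [hρ.supp _ h2, mul_zero]
  set g : E d → ℂ := fun y => a y * Complex.exp (((q y - ⟪x₀, y⟫ : ℝ) : ℂ) * Complex.I) with hg
  have hgc : Continuous g := by fun_prop
  set W : E d → ℂ := fun z => uz ρ a q R z x₀ with hW
  have hWz : ∀ z, W z = ∫ y, ((k (y - z) : ℝ) : ℂ) * g y := by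
    intro z
    simp only [hW, uz, uu, hk, hg]
    refine integral_congr_ae (Filter.Eventually.of_forall fun y => ?_)
    simp only
    ring
  -- the function of two variables
  obtain ⟨B, hB⟩ := (hac.isCompact : IsCompact (tsupport a)).isBounded.exists_norm_le
  set P : E d × E d → ℂ := fun p => ((k (p.2 - p.1) : ℝ) : ℂ) * g p.2 with hP
  have hPc : Continuous P := by fun_prop
  have hPs : HasCompactSupport P := by
    refine HasCompactSupport.of_support_subset_isCompact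
      ((isCompact_closedBall (0 : E d) (B + κ / R)).prod (isCompact_closedBall (0 : E d) B)) ?_
    rintro ⟨z, y⟩ hp
    have hp' : P (z, y) ≠ 0 := hp
    have hay : a y ≠ 0 := by
      intro h
      exact hp' (by simp [hP, hg, h])
    have hkk : k (y - z) ≠ 0 := by
      intro h
      exact hp' (by simp [hP, h])
    have hy : ‖y‖ ≤ B := hB y (subset_tsupport a hay)
    have hz : ‖y - z‖ ≤ κ / R := not_lt.1 fun h => hkk (hk0 _ h)
    refine ⟨?_, ?_⟩
    · simp only [Metric.mem_closedBall, dist_zero_right]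
      calc ‖z‖ = ‖y - (y - z)‖ := by congr 1; abel
        _ ≤ ‖y‖ + ‖y - z‖ := norm_sub_le _ _
        _ ≤ B + κ / R := add_le_add hy hz
    · simpa using hy
  have hPi : Integrable P ((volume : Measure (E d)).prod volume) :=
    hPc.integrable_of_hasCompactSupport hPs
  have hWi : Integrable W := by
    have h1 : Integrable (fun z => ∫ y, P (z, y)) := hPi.integral_prod_left
    refine h1.congr (Filter.Eventually.of_forall fun z => ?_)
    simp only [hP]
    exact (hWz z).symm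
  -- the Fourier transform
  have hF : ∀ ξ : E d, ∫ z, W z * Complex.exp (((-⟪ξ, z⟫ : ℝ) : ℂ) * Complex.I) =
      uu a q (x₀ + ξ) * ∫ v : E d, ((k v : ℝ) : ℂ) *
        Complex.exp (((⟪ξ, v⟫ : ℝ) : ℂ) * Complex.I) := by
    intro ξ
    have hPi' : Integrable (Function.uncurry fun z y : E d =>
        P (z, y) * Complex.exp (((-⟪ξ, z⟫ : ℝ) : ℂ) * Complex.I))
        ((volume : Measure (E d)).prod volume) := by
      refine hPi.norm.mono' ?_ (Filter.Eventually.of_forall fun p => ?_)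
      · have : Continuous (Function.uncurry fun z y : E d =>
          P (z, y) * Complex.exp (((-⟪ξ, z⟫ : ℝ) : ℂ) * Complex.I)) := by
          simp only [Function.uncurry_def]
          fun_prop
        exact this.aestronglyMeasurable
      · simp only [Function.uncurry]
        rw [norm_mul, Complex.norm_exp_ofReal_mul_I, mul_one]
    calc ∫ z, W z * Complex.exp (((-⟪ξ, z⟫ : ℝ) : ℂ) * Complex.I)
        = ∫ z, ∫ y, P (z, y) * Complex.exp (((-⟪ξ, z⟫ : ℝ) : ℂ) * Complex.I) := by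
          refine integral_congr_ae (Filter.Eventually.of_forall fun z => ?_)
          simp only
          rw [integral_mul_const, hWz z]
      _ = ∫ y, ∫ z, P (z, y) * Complex.exp (((-⟪ξ, z⟫ : ℝ) : ℂ) * Complex.I) :=
          integral_integral_swap hPi'
      _ = ∫ y, (g y * Complex.exp (((-⟪ξ, y⟫ : ℝ) : ℂ) * Complex.I)) *
          ∫ v : E d, ((k v : ℝ) : ℂ) * Complex.exp (((⟪ξ, v⟫ : ℝ) : ℂ) * Complex.I) := by
          refine integral_congr_ae (Filter.Eventually.of_forall fun y => ?_)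
          simp only
          rw [← integral_const_mul, ← integral_sub_left_eq_self (fun v : E d =>
            g y * Complex.exp (((-⟪ξ, y⟫ : ℝ) : ℂ) * Complex.I) *
            (((k v : ℝ) : ℂ) * Complex.exp (((⟪ξ, v⟫ : ℝ) : ℂ) * Complex.I))) volume y]
          refine integral_congr_ae (Filter.Eventually.of_forall fun z => ?_)
          simp only [hP]
          have h1 : Complex.exp (((-⟪ξ, z⟫ : ℝ) : ℂ) * Complex.I) =
              Complex.exp (((-⟪ξ, y⟫ : ℝ) : ℂ) * Complex.I) *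
              Complex.exp (((⟪ξ, y - z⟫ : ℝ) : ℂ) * Complex.I) := by
            rw [← Complex.exp_add, ← add_mul]
            congr 2
            rw [inner_sub_right]
            push_cast
            ring
          rw [h1]
          ring
      _ = uu a q (x₀ + ξ) * ∫ v : E d, ((k v : ℝ) : ℂ) *
          Complex.exp (((⟪ξ, v⟫ : ℝ) : ℂ) * Complex.I) := by
          rw [integral_mul_const]
          congr 1
          simp only [uu, hg]
          refine integral_congr_ae (Filter.Eventually.of_forall fun y => ?_)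
          simp only
          rw [mul_assoc, ← Complex.exp_add, ← add_mul]
          congr 3
          rw [inner_add_left]
          push_cast
          ring
  have hpl := planch d W hWi
  -- the comparison
  have hpt : ∀ x ∈ Metric.closedBall x₀ R, ‖uu a q x‖ₑ ^ (2 : ℝ) ≤
      4 * ‖∫ z, W z * Complex.exp (((-⟪x - x₀, z⟫ : ℝ) : ℂ) * Complex.I)‖ₑ ^ (2 : ℝ) := by
    intro x hx
    have hx' : ‖x - x₀‖ ≤ R := by
      rw [← dist_eq_norm]; exact hx
    have h1 := ld_ker_low d κ hκ ρ hρ hρ0 hρ1 R hR (x - x₀) hx'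
    rw [hF (x - x₀), show x₀ + (x - x₀) = x by abel, enorm_mul]
    set I := ∫ v : E d, ((k v : ℝ) : ℂ) *
      Complex.exp (((⟪x - x₀, v⟫ : ℝ) : ℂ) * Complex.I) with hI
    have h2 : (1 : ℝ≥0∞) ≤ 2 * ‖I‖ₑ := by
      rw [← ofReal_norm, show (2 : ℝ≥0∞) = ENNReal.ofReal 2 by simp,
        ← ENNReal.ofReal_mul (by norm_num), ENNReal.one_le_ofReal]
      have : (1 : ℝ) / 2 ≤ ‖I‖ := h1
      linarith
    calc ‖uu a q x‖ₑ ^ (2 : ℝ) = (‖uu a q x‖ₑ * 1) ^ (2 : ℝ) := by rw [mul_one]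
      _ ≤ (‖uu a q x‖ₑ * (2 * ‖I‖ₑ)) ^ (2 : ℝ) := by gcongr
      _ = 4 * (‖uu a q x‖ₑ * ‖I‖ₑ) ^ (2 : ℝ) := by
        rw [show ‖uu a q x‖ₑ * (2 * ‖I‖ₑ) = 2 * (‖uu a q x‖ₑ * ‖I‖ₑ) by ring,
          ENNReal.mul_rpow_of_nonneg _ _ (by norm_num)]
        congr 1
        rw [ENNReal.rpow_two]; norm_num
  calc ∫⁻ x in Metric.closedBall x₀ R, ‖uu a q x‖ₑ ^ (2 : ℝ)
      ≤ ∫⁻ x in Metric.closedBall x₀ R,
        4 * ‖∫ z, W z * Complex.exp (((-⟪x - x₀, z⟫ : ℝ) : ℂ) * Complex.I)‖ₑ ^ (2 : ℝ) :=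
        setLIntegral_mono' Metric.isClosed_closedBall.measurableSet hpt
    _ ≤ ∫⁻ x : E d, 4 * ‖∫ z, W z * Complex.exp (((-⟪x - x₀, z⟫ : ℝ) : ℂ) * Complex.I)‖ₑ ^ (2 : ℝ) :=
        setLIntegral_le_lintegral _ _
    _ = 4 * ∫⁻ x : E d, ‖∫ z, W z * Complex.exp (((-⟪x - x₀, z⟫ : ℝ) : ℂ) * Complex.I)‖ₑ ^ (2 : ℝ) :=
        lintegral_const_mul' _ _ (by norm_num)
    _ = 4 * ∫⁻ x : E d, ‖∫ z, W z * Complex.exp (((-⟪x, z⟫ : ℝ) : ℂ) * Complex.I)‖ₑ ^ (2 : ℝ) := by
        congr 1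
        exact lintegral_sub_right_eq_self (fun x : E d =>
          ‖∫ z, W z * Complex.exp (((-⟪x, z⟫ : ℝ) : ℂ) * Complex.I)‖ₑ ^ (2 : ℝ)) x₀
    _ ≤ 4 * (ENNReal.ofReal ((2 * π) ^ d) * ∫⁻ z, ‖W z‖ₑ ^ (2 : ℝ)) := by gcongr
    _ = _ := by
        rw [← mul_assoc, ENNReal.ofReal_mul (by norm_num), show ENNReal.ofReal 4 = 4 by simp]

/-- (d) with natural exponents. -/
theorem loc_d_nat (d : ℕ) (κ : ℝ) (hκ : κ ≤ 1 / 2) (ρ : E d → ℝ) (hρ : Ker κ ρ)
    (hρ0 : ∀ v, 0 ≤ ρ v) (hρ1 : ∫ v, ρ v = 1) (a : E d → ℂ) (ha : Continuous a)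
    (hac : HasCompactSupport a) (q : E d → ℝ) (hq : Continuous q) (R : ℝ) (hR : 0 < R)
    (x₀ : E d) :
    ∫⁻ x in Metric.closedBall x₀ R, ‖uu a q x‖ₑ ^ 2 ≤
      ENNReal.ofReal (4 * (2 * π) ^ d) * ∫⁻ z, ‖uz ρ a q R z x₀‖ₑ ^ 2 := by
  have h := loc_d d κ hκ ρ hρ hρ0 hρ1 a ha hac q hq R hR x₀
  simpa only [ENNReal.rpow_two] using h

end Pool.Agent.GNP
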