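import Pool.Agent.GNP.CL
import Pool.Agent.GNP.LOCd
import Pool.Agent.GNP.Defs4

/-!
AP4, LOC: from the bounds for the packets to the bound for the integral (parts (c) and (e)).
-/

namespace Pool.Agent.GNP

open MeasureTheory Set Pool.Agent.MP_6cbfb8_an
open scoped ENNReal Real RealInnerProductSpace ContDiff

/-- Integrals over balls, integrated over the centre. -/
theorem lint_ball {d : ℕ} (f : E d → ℝ≥0∞) (hf : Measurable f) (t : ℝ) :
    ∫⁻ z, (∫⁻ y in Metric.closedBall z t, f y) = volume (Metric.closedBall (0 : E d) t) * ∫⁻ y, f y := by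
  set S : Set (E d × E d) := {p | ‖p.2 - p.1‖ ≤ t} with hS
  have hSm : MeasurableSet S :=
    measurableSet_le (measurable_snd.sub measurable_fst).norm measurable_const
  have h1 : ∀ z y, (Metric.closedBall z t).indicator f y = S.indicator (fun p => f p.2) (z, y) := by
    intro z y
    have h2 : y ∈ Metric.closedBall z t ↔ (z, y) ∈ S := by
      rw [Metric.mem_closedBall, dist_eq_norm]
      exact Iff.rfl
    by_cases h : (z, y) ∈ S
    · rw [indicator_of_mem h, indicator_of_mem (h2.2 h)]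
    · rw [indicator_of_notMem h, indicator_of_notMem (fun h' => h (h2.1 h'))]
  have hm : Measurable (S.indicator fun p => f p.2) := (hf.comp measurable_snd).indicator hSm
  calc ∫⁻ z, (∫⁻ y in Metric.closedBall z t, f y)
      = ∫⁻ z, ∫⁻ y, S.indicator (fun p => f p.2) (z, y) := by
        refine lintegral_congr fun z => ?_
        rw [← lintegral_indicator measurableSet_closedBall]
        exact lintegral_congr fun y => h1 z y
    _ = ∫⁻ y, ∫⁻ z, S.indicator (fun p => f p.2) (z, y) := lintegral_lintegral_swap hm.aemeasurable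
    _ = ∫⁻ y, volume (Metric.closedBall (0 : E d) t) * f y := by
        refine lintegral_congr fun y => ?_
        have h3 : ∀ z, S.indicator (fun p => f p.2) (z, y) =
            (Metric.closedBall y t).indicator (fun _ => f y) z := by
          intro z
          have h2 : z ∈ Metric.closedBall y t ↔ (z, y) ∈ S := by
            rw [Metric.mem_closedBall, dist_comm, dist_eq_norm]
            exact Iff.rfl
          by_cases h : (z, y) ∈ S
          · rw [indicator_of_mem h, indicator_of_mem (h2.2 h)]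
          · rw [indicator_of_notMem h, indicator_of_notMem (fun h' => h (h2.1 h'))]
        simp_rw [h3]
        rw [lintegral_indicator_const measurableSet_closedBall, mul_comm]
        congr 1
        exact Measure.addHaar_closedBall_center _ _ _
    _ = _ := lintegral_const_mul _ hf

theorem measurable_wt {d : ℕ} (N : ℕ) {q : E d → ℝ} (hq : Continuous (gr q)) (R : ℝ) (x : E d) :
    Measurable fun y => ENNReal.ofReal (wt N q R x y) := by
  unfold wt
  have := hq.measurable
  fun_prop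

theorem wt_pos {d : ℕ} (N : ℕ) (q : E d → ℝ) {R : ℝ} (hR : 0 < R) (x y : E d) :
    0 < wt N q R x y := by
  unfold wt
  positivity

/-- Moving the centre by at most `R`. -/
theorem wt_shift {d : ℕ} (N : ℕ) (q : E d → ℝ) {R : ℝ} (hR : 0 < R) {x x0 : E d} (y : E d)
    (h : ‖x - x0‖ ≤ R) : wt N q R x y ≤ 2 ^ N * wt N q R x0 y := by
  unfold wt
  have h1 : 0 < 1 + ‖gr q y - x‖ / R := by positivity
  have h2 : 0 < 1 + ‖gr q y - x0‖ / R := by positivity
  rw [← div_eq_mul_inv, inv_eq_one_div, div_le_div_iff₀ (by positivity) (by positivity), one_mul,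
    ← mul_pow]
  refine pow_le_pow_left₀ h2.le ?_ N
  have h3 : ‖gr q y - x0‖ ≤ ‖gr q y - x‖ + R := by
    have h4 : gr q y - x0 = (gr q y - x) + (x - x0) := by abel
    rw [h4]
    exact (norm_add_le _ _).trans (by linarith)
  have h5 : ‖gr q y - x0‖ / R ≤ ‖gr q y - x‖ / R + 1 := by
    rw [div_add_one hR.ne']
    exact div_le_div_of_nonneg_right h3 hR.le
  have h6 : 0 ≤ ‖gr q y - x‖ / R := by positivity
  linarith

/-- All packets together. -/
theorem uu_eq_int {d : ℕ} {κ : ℝ} {ρ : E d → ℝ} (hρ : Ker κ ρ) (h1 : ∫ v, ρ v = 1) {a : E d → ℂ}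
    {q : E d → ℝ} {r R : ℝ} (hR : 1 ≤ R) (ha : Continuous a) (has : ∀ y, r < ‖y‖ → a y = 0)
    (hq : Continuous q) (x : E d) : uu a q x = ∫ z, uz ρ a q R z x := by
  have h2 := fubini_c d κ ρ hρ a q r R hR ha has hq univ MeasurableSet.univ x
  unfold uF at h2
  rw [setIntegral_univ] at h2
  rw [h2]
  unfold uu
  refine integral_congr_ae (Filter.Eventually.of_forall fun y => ?_)
  simp only
  rw [setIntegral_univ, mo_one h1 (by linarith : (0:ℝ) < R) y, Complex.ofReal_one, one_mul]

theorem op_compact_supp {d : ℕ} {a : E d → ℂ} {r : ℝ} (has : ∀ y, r < ‖y‖ → a y = 0) :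
    HasCompactSupport a := by
  refine HasCompactSupport.intro (isCompact_closedBall (0 : E d) r) fun y hy => has y ?_
  rw [Metric.mem_closedBall, dist_zero_right, not_le] at hy
  exact hy

/-- **LOC (c), (e).** For any kernel `ρ`. -/
theorem loc_of (d M : ℕ) (κ : ℝ) (hκ : κ ≤ 1 / 2) (ρ : E d → ℝ) (hρ : Ker κ ρ)
    (hρ0 : ∀ v, 0 ≤ ρ v) (hρ1 : ∫ v, ρ v = 1) (t c1 c2 al : ℝ) (ht : 0 ≤ t) (hc1 : 0 ≤ c1)
    (hc2 : 0 ≤ c2) (hal : 0 ≤ al) : ∃ K : ℝ, 0 < K ∧
    ∀ (a : E d → ℂ) (q : E d → ℝ) (r R β : ℝ) (G : Set (E d)), 1 ≤ R → 1 ≤ β → Continuous a →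
      (∀ y, r < ‖y‖ → a y = 0) → ContDiff ℝ ∞ q → MeasurableSet G →
      (∀ z x, ‖uz ρ a q R z x‖ₑ ≤ ENNReal.ofReal (c1 * √β * R ^ d) *
        ∫⁻ y in Metric.closedBall z (t / R), G.indicator (fun y => ENNReal.ofReal (wt M q R x y)) y) →
      (∀ z x, ‖uz ρ a q R z x‖ₑ ^ (2 : ℝ) ≤ ENNReal.ofReal (c2 * R ^ d) *
        ∫⁻ y in Metric.closedBall z (t / R), G.indicator (fun y => ENNReal.ofReal (wt M q R x y)) y) →
      ∫⁻ x, ‖uu a q x‖ₑ ^ (2 + al) ≤ ENNReal.ofReal (K * β ^ (al / 2) * (R ^ d)⁻¹) *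
        ∫⁻ x, (∫⁻ y in G, ENNReal.ofReal (wt M q R x y)) ^ (1 + al) := by
  set vo : ℝ≥0∞ := volume (Metric.closedBall (0 : E d) 1) with hvo
  have hvot : vo ≠ ⊤ := (isCompact_closedBall (0 : E d) 1).measure_ne_top
  have hvo0 : vo ≠ 0 := (Metric.measure_closedBall_pos volume (0 : E d) one_pos).ne'
  set w : ℝ := vo.toReal with hw
  have hw0 : 0 < w := ENNReal.toReal_pos hvo0 hvot
  have hvol : ∀ s : ℝ, 0 ≤ s → volume (Metric.closedBall (0 : E d) s) = ENNReal.ofReal (s ^ d * w) := by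
    intro s hs
    rw [Measure.addHaar_closedBall _ _ hs, finrank_euclideanSpace, Fintype.card_fin,
      ENNReal.ofReal_mul (by positivity), hw, ENNReal.ofReal_toReal hvot, hvo,
      ← Measure.addHaar_unitClosedBall_eq_addHaar_unitBall]
  -- the constants
  set k1 : ℝ := c1 * t ^ d * w * 2 ^ M with hk1
  set k2 : ℝ := 4 * (2 * π) ^ d * (c2 * t ^ d * w) with hk2
  have hk10 : 0 ≤ k1 := by positivity
  have hk20 : 0 ≤ k2 := by positivity
  clear_value k1 k2
  refine ⟨k1 ^ al * k2 * w⁻¹ + 1, by positivity, ?_⟩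
  intro a q r R β G hR hβ ha has hq hG H1 H2
  have hR0 : 0 < R := by linarith
  have hgr : Continuous (gr q) := by
    exact continuous_iff_continuousAt.2 fun y => (hasFDerivAt_gr hq y).continuousAt
  set μ : E d → ℝ≥0∞ := fun x => ∫⁻ y in G, ENNReal.ofReal (wt M q R x y) with hμ
  have hμe : ∀ x, ∫⁻ y, G.indicator (fun y => ENNReal.ofReal (wt M q R x y)) y = μ x := fun x =>
    lintegral_indicator hG _
  have hμm : ∀ x, Measurable (G.indicator (fun y => ENNReal.ofReal (wt M q R x y))) := fun x =>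
    (measurable_wt M hgr R x).indicator hG
  have hscale : R ^ d * (t / R) ^ d = t ^ d := by
    rw [← mul_pow, mul_div_cancel₀ _ hR0.ne']
  -- (c) pointwise
  have hsup : ∀ x, ‖uu a q x‖ₑ ≤ ENNReal.ofReal (c1 * √β * (t ^ d * w)) * μ x := by
    intro x
    rw [uu_eq_int hρ hρ1 hR ha has hq.continuous x]
    calc ‖∫ z, uz ρ a q R z x‖ₑ ≤ ∫⁻ z, ‖uz ρ a q R z x‖ₑ := enorm_integral_le_lintegral_enorm _
      _ ≤ ∫⁻ z, ENNReal.ofReal (c1 * √β * R ^ d) * ∫⁻ y in Metric.closedBall z (t / R),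
            G.indicator (fun y => ENNReal.ofReal (wt M q R x y)) y := lintegral_mono fun z => H1 z x
      _ = ENNReal.ofReal (c1 * √β * R ^ d) * (ENNReal.ofReal ((t / R) ^ d * w) * μ x) := by
          rw [lintegral_const_mul' _ _ ENNReal.ofReal_ne_top, lint_ball _ (hμm x), hμe,
            hvol _ (by positivity)]
      _ = ENNReal.ofReal (c1 * √β * (t ^ d * w)) * μ x := by
          rw [← mul_assoc, ← ENNReal.ofReal_mul (by positivity)]
          congr 2
          rw [← hscale]
          ring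
  -- (d) local L²
  have hL2 : ∀ x0, ∫⁻ x in Metric.closedBall x0 R, ‖uu a q x‖ₑ ^ (2 : ℝ) ≤
      ENNReal.ofReal k2 * μ x0 := by
    intro x0
    refine (loc_d d κ hκ ρ hρ hρ0 hρ1 a ha (op_compact_supp has) q hq.continuous R hR0 x0).trans ?_
    calc ENNReal.ofReal (4 * (2 * π) ^ d) * ∫⁻ z, ‖uz ρ a q R z x0‖ₑ ^ (2 : ℝ)
        ≤ ENNReal.ofReal (4 * (2 * π) ^ d) * ∫⁻ z, ENNReal.ofReal (c2 * R ^ d) *
            ∫⁻ y in Metric.closedBall z (t / R),
              G.indicator (fun y => ENNReal.ofReal (wt M q R x0 y)) y :=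
          mul_le_mul_right (lintegral_mono fun z => H2 z x0) _
      _ = ENNReal.ofReal (4 * (2 * π) ^ d) *
            (ENNReal.ofReal (c2 * R ^ d) * (ENNReal.ofReal ((t / R) ^ d * w) * μ x0)) := by
          rw [lintegral_const_mul' _ _ ENNReal.ofReal_ne_top, lint_ball _ (hμm x0), hμe,
            hvol _ (by positivity)]
      _ = ENNReal.ofReal k2 * μ x0 := by
          rw [← mul_assoc, ← mul_assoc, ← ENNReal.ofReal_mul (by positivity),
            ← ENNReal.ofReal_mul (by positivity)]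
          congr 2
          rw [hk2, ← hscale]
          ring
  -- moving the centre
  have hmove : ∀ x0, ∀ x ∈ Metric.closedBall x0 R, μ x ≤ ENNReal.ofReal (2 ^ M) * μ x0 := by
    intro x0 x hx
    rw [hμ]
    simp only
    rw [← lintegral_const_mul' _ _ ENNReal.ofReal_ne_top]
    refine lintegral_mono fun y => ?_
    rw [← ENNReal.ofReal_mul (by positivity)]
    refine ENNReal.ofReal_le_ofReal (wt_shift M q hR0 y ?_)
    rw [← dist_eq_norm]
    exact hx
  -- one ball
  have hone : ∀ x0, ∫⁻ x in Metric.closedBall x0 R, ‖uu a q x‖ₑ ^ (2 + al) ≤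
      ENNReal.ofReal (k1 ^ al * k2 * β ^ (al / 2)) * μ x0 ^ (1 + al) := by
    intro x0
    have h1 : ∀ x ∈ Metric.closedBall x0 R, ‖uu a q x‖ₑ ^ (2 + al) ≤
        (ENNReal.ofReal (k1 * √β) * μ x0) ^ al * ‖uu a q x‖ₑ ^ (2 : ℝ) := by
      intro x hx
      rw [add_comm, ENNReal.rpow_add_of_nonneg _ _ hal (by norm_num)]
      refine mul_le_mul_left (ENNReal.rpow_le_rpow ?_ hal) _
      calc ‖uu a q x‖ₑ ≤ ENNReal.ofReal (c1 * √β * (t ^ d * w)) * μ x := hsup x
        _ ≤ ENNReal.ofReal (c1 * √β * (t ^ d * w)) * (ENNReal.ofReal (2 ^ M) * μ x0) :=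
            mul_le_mul_right (hmove x0 x hx) _
        _ = ENNReal.ofReal (k1 * √β) * μ x0 := by
            rw [← mul_assoc, ← ENNReal.ofReal_mul (by positivity)]
            congr 2
            rw [hk1]
            ring
    have hmeas : Measurable fun x => ‖uu a q x‖ₑ ^ (2 : ℝ) := by
      have h2 : Continuous (uu a q) := by
        have h3 := continuous_uF d κ ρ hρ a q r R hR ha has hq.continuous univ
          MeasurableSet.univ
        have h4 : uu a q = uF ρ a q R univ := by
          funext x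
          rw [uu_eq_int hρ hρ1 hR ha has hq.continuous x]
          unfold uF
          rw [setIntegral_univ]
        rw [h4]
        exact h3
      exact h2.measurable.enorm.pow_const _
    calc ∫⁻ x in Metric.closedBall x0 R, ‖uu a q x‖ₑ ^ (2 + al)
        ≤ ∫⁻ x in Metric.closedBall x0 R,
            (ENNReal.ofReal (k1 * √β) * μ x0) ^ al * ‖uu a q x‖ₑ ^ (2 : ℝ) :=
          setLIntegral_mono' measurableSet_closedBall h1
      _ = (ENNReal.ofReal (k1 * √β) * μ x0) ^ al *
            ∫⁻ x in Metric.closedBall x0 R, ‖uu a q x‖ₑ ^ (2 : ℝ) := lintegral_const_mul _ hmeas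
      _ ≤ (ENNReal.ofReal (k1 * √β) * μ x0) ^ al * (ENNReal.ofReal k2 * μ x0) :=
          mul_le_mul_right (hL2 x0) _
      _ = ENNReal.ofReal (k1 ^ al * k2 * β ^ (al / 2)) * μ x0 ^ (1 + al) := by
          rw [ENNReal.mul_rpow_of_nonneg _ _ hal, ENNReal.ofReal_rpow_of_nonneg (by positivity) hal,
            Real.mul_rpow hk10 (Real.sqrt_nonneg _), Real.sqrt_eq_rpow,
            ← Real.rpow_mul (by linarith), ENNReal.rpow_add_of_nonneg _ _ zero_le_one hal,
            ENNReal.rpow_one, ENNReal.ofReal_mul (by positivity), ENNReal.ofReal_mul (by positivity),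
            ENNReal.ofReal_mul (by positivity)]
          have : (1 / 2 * al : ℝ) = al / 2 := by ring
          rw [this]
          ring
  -- averaging over the centre
  have hFm : Measurable fun x => ‖uu a q x‖ₑ ^ (2 + al) := by
    have h2 : Continuous (uu a q) := by
      have h3 := continuous_uF d κ ρ hρ a q r R hR ha has hq.continuous univ
        MeasurableSet.univ
      have h4 : uu a q = uF ρ a q R univ := by
        funext x
        rw [uu_eq_int hρ hρ1 hR ha has hq.continuous x]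
        unfold uF
        rw [setIntegral_univ]
      rw [h4]
      exact h3
    exact h2.measurable.enorm.pow_const _
  have hball := lint_ball _ hFm R
  have hV : volume (Metric.closedBall (0 : E d) R) = ENNReal.ofReal (R ^ d * w) := hvol R hR0.le
  have hV0 : ENNReal.ofReal (R ^ d * w) ≠ 0 := by
    rw [Ne, ENNReal.ofReal_eq_zero, not_le]
    positivity
  have hle : ENNReal.ofReal (R ^ d * w) * ∫⁻ x, ‖uu a q x‖ₑ ^ (2 + al) ≤
      ENNReal.ofReal (k1 ^ al * k2 * β ^ (al / 2)) * ∫⁻ x, μ x ^ (1 + al) := by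
    rw [← hV, ← hball, ← lintegral_const_mul' _ _ ENNReal.ofReal_ne_top]
    exact lintegral_mono hone
  calc ∫⁻ x, ‖uu a q x‖ₑ ^ (2 + al)
      = (ENNReal.ofReal (R ^ d * w))⁻¹ *
          (ENNReal.ofReal (R ^ d * w) * ∫⁻ x, ‖uu a q x‖ₑ ^ (2 + al)) := by
        rw [← mul_assoc, ENNReal.inv_mul_cancel hV0 ENNReal.ofReal_ne_top, one_mul]
    _ ≤ (ENNReal.ofReal (R ^ d * w))⁻¹ *
          (ENNReal.ofReal (k1 ^ al * k2 * β ^ (al / 2)) * ∫⁻ x, μ x ^ (1 + al)) :=
        mul_le_mul_right hle _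
    _ = ENNReal.ofReal ((R ^ d * w)⁻¹ * (k1 ^ al * k2 * β ^ (al / 2))) * ∫⁻ x, μ x ^ (1 + al) := by
        rw [← mul_assoc, ← ENNReal.ofReal_inv_of_pos (by positivity),
          ← ENNReal.ofReal_mul (by positivity)]
    _ ≤ _ := by
        refine mul_le_mul_left (ENNReal.ofReal_le_ofReal ?_) _
        have h1 : (R ^ d * w)⁻¹ * (k1 ^ al * k2 * β ^ (al / 2)) =
            (k1 ^ al * k2 * w⁻¹) * β ^ (al / 2) * (R ^ d)⁻¹ := by
          rw [mul_inv]
          ring
        rw [h1]
        have h2 : 0 ≤ β ^ (al / 2) * (R ^ d)⁻¹ := by positivity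
        nlinarith

end Pool.Agent.GNP
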