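import Pool.Agent.GNP.P0
import Pool.Agent.GNP.M6

/-!
Row M7: a condition on the multiplicities of the eigenvalues of the tangential Hessian gives `MopS`
with some positive constant, and the constant may be kept for every phase near the given one.
-/

namespace Pool.Agent.GNP

open MeasureTheory Set Metric Pool.Agent.MP_6cbfb8_an
open scoped ENNReal Real RealInnerProductSpace ContDiff

/-- At every point of the unit sphere every eigenvalue of the tangential Hessian has multiplicity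
less than `n - j`: no real `μ` and no subspace `W` of `x^⊥` of dimension at least `n - j` are such
that `D²φ(x)(w, u) = μ ⟨w, u⟩` for all `w` in `W` and all `u` in `x^⊥`. -/
def MultLt (n j : ℕ) (φ : E n → ℝ) : Prop :=
  ∀ x : E n, ‖x‖ = 1 → ∀ (μ : ℝ) (W : Submodule ℝ (E n)), (∀ w ∈ W, ⟪x, w⟫ = 0) →
    n < Module.finrank ℝ W + j + 1 →
    ∃ w ∈ W, ∃ u : E n, ⟪x, u⟫ = 0 ∧ fderiv ℝ (fderiv ℝ φ) x w u ≠ μ * ⟪w, u⟫

/-- the tangential part of `P w - μ w` -/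
noncomputable def zt {n : ℕ} (D : E n →L[ℝ] E n →L[ℝ] ℝ) (x : E n) (μ : ℝ) (w : E n) : E n :=
  P0J n (D w) - ⟪x, P0J n (D w)⟫ • x - μ • w

theorem zt_inner {n : ℕ} (D : E n →L[ℝ] E n →L[ℝ] ℝ) (x : E n) (μ : ℝ) (w u : E n)
    (hu : ⟪x, u⟫ = 0) : ⟪zt D x μ w, u⟫ = D w u - μ * ⟪w, u⟫ := by
  rw [zt, inner_sub_left, inner_sub_left, inner_smul_left, inner_smul_left, hu, P0J_inner]
  simp

theorem zt_normal {n : ℕ} (D : E n →L[ℝ] E n →L[ℝ] ℝ) (x : E n) (hx : ‖x‖ = 1) (μ : ℝ) (w : E n)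
    (hw : ⟪x, w⟫ = 0) : ⟪x, zt D x μ w⟫ = 0 := by
  rw [zt, inner_sub_right, inner_sub_right, inner_smul_right, inner_smul_right, hw,
    real_inner_self_eq_norm_sq, hx]
  ring

theorem norm_tan {n : ℕ} (x v : E n) (hx : ‖x‖ = 1) : ‖v - ⟪x, v⟫ • x‖ ≤ ‖v‖ := by
  have h1 : ‖v - ⟪x, v⟫ • x‖ ^ 2 = ‖v‖ ^ 2 - ⟪x, v⟫ ^ 2 := by
    have e : ⟪v, x⟫ = ⟪x, v⟫ := real_inner_comm _ _
    rw [norm_sub_sq_real, norm_smul, inner_smul_right, e, hx, Real.norm_eq_abs, mul_one, sq_abs]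
    ring
  exact (sq_le_sq₀ (norm_nonneg _) (norm_nonneg _)).1 (by nlinarith [sq_nonneg ⟪x, v⟫])

theorem zt_far {n : ℕ} (D : E n →L[ℝ] E n →L[ℝ] ℝ) (x : E n) (hx : ‖x‖ = 1) (μ B : ℝ) (w : E n)
    (hw : ‖w‖ = 1) (hD : ‖D‖ ≤ B) (hμ : B + 1 ≤ |μ|) : 1 ≤ ‖zt D x μ w‖ := by
  have h1 : ‖P0J n (D w)‖ ≤ B := by
    rw [P0J_norm]
    calc ‖D w‖ ≤ ‖D‖ * ‖w‖ := D.le_opNorm w
      _ ≤ B := by rw [hw, mul_one]; exact hD
  have h2 := (norm_tan x (P0J n (D w)) hx).trans h1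
  have h3 : ‖μ • w‖ = |μ| := by rw [norm_smul, hw, mul_one, Real.norm_eq_abs]
  have h4 := norm_sub_norm_le (μ • w) (P0J n (D w) - ⟪x, P0J n (D w)⟫ • x)
  rw [h3, norm_sub_rev (μ • w)] at h4
  unfold zt
  linarith

/-- The uniform lower bound. -/
theorem MultLt.bound {n j : ℕ} {φ : E n → ℝ} (hφ : ∀ x, ‖x‖ = 1 → ContDiffAt ℝ 2 φ x)
    (h : MultLt n j φ) :
    ∃ c B : ℝ, 0 < c ∧ 0 ≤ B ∧ ∀ x : E n, ‖x‖ = 1 → ‖fderiv ℝ (fderiv ℝ φ) x‖ ≤ B ∧
      ∀ (μ : ℝ) (W : Submodule ℝ (E n)), (∀ w ∈ W, ⟪x, w⟫ = 0) → n < Module.finrank ℝ W + j + 1 →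
        ∃ w ∈ W, ∃ u : E n, ‖w‖ = 1 ∧ ‖u‖ = 1 ∧ ⟪x, u⟫ = 0 ∧
          c ≤ fderiv ℝ (fderiv ℝ φ) x w u - μ * ⟪w, u⟫ := by
  by_cases hne : ∃ x0 : E n, ‖x0‖ = 1
  swap
  · exact ⟨1, 0, one_pos, le_rfl, fun x hx => absurd ⟨x, hx⟩ hne⟩
  obtain ⟨x0, hx0⟩ := hne
  -- `j < n`
  have hjn : j < n := by
    by_contra hcon
    obtain ⟨w, hw, u, -, hu⟩ := h x0 hx0 0 ⊥ (fun w hw => by
      rw [(Submodule.mem_bot ℝ).1 hw, inner_zero_right]) (by rw [finrank_bot]; omega)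
    rw [(Submodule.mem_bot ℝ).1 hw] at hu
    simp at hu
  obtain ⟨m, hm⟩ : ∃ m, m = n - j := ⟨_, rfl⟩
  have hm1 : 1 ≤ m := by omega
  set D : E n → E n →L[ℝ] E n →L[ℝ] ℝ := fun x => fderiv ℝ (fderiv ℝ φ) x with hDdef
  have hDc : ContinuousOn D (sphere (0 : E n) 1) := by
    intro x hx
    have hx1 : ‖x‖ = 1 := by simpa using hx
    have h0 : ContDiffAt ℝ 1 (fderiv ℝ φ) x := (hφ x hx1).fderiv_right (m := 1) (by norm_num)
    have h1 : ContDiffAt ℝ 0 (fderiv ℝ (fderiv ℝ φ)) x := h0.fderiv_right (m := 0) (by norm_num)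
    exact h1.continuousAt.continuousWithinAt
  obtain ⟨B, hB⟩ := IsCompact.exists_bound_of_continuousOn (α := E n)
    (E := E n →L[ℝ] E n →L[ℝ] ℝ) (isCompact_sphere (0 : E n) 1) (f := D) hDc
  have hB' : ∀ x, ‖x‖ = 1 → ‖D x‖ ≤ B := fun x hx => hB x (by simpa using hx)
  have hB0 : 0 ≤ B := (norm_nonneg (D x0)).trans (hB' x0 hx0)
  -- the compact set of frames
  set K : Set (E n × ℝ × (Fin m → E n)) :=
    ((sphere (0 : E n) 1) ×ˢ (Icc (-(B + 1)) (B + 1)) ×ˢ (Set.pi univ fun _ => closedBall (0 : E n) 1)) ∩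
      ({p | ∀ i k, ⟪p.2.2 i, p.2.2 k⟫ = if i = k then 1 else 0} ∩ {p | ∀ i, ⟪p.1, p.2.2 i⟫ = 0})
    with hK
  have hKc : IsCompact K := by
    refine IsCompact.inter_right ?_ (IsClosed.inter ?_ ?_)
    · exact (isCompact_sphere _ _).prod (isCompact_Icc.prod
        (isCompact_univ_pi fun _ => isCompact_closedBall _ _))
    · simp only [Set.ofPred_forall]
      refine isClosed_iInter fun i => isClosed_iInter fun k => ?_
      refine isClosed_eq ?_ continuous_const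
      exact Continuous.inner (by fun_prop) (by fun_prop)
    · simp only [Set.ofPred_forall]
      refine isClosed_iInter fun i => ?_
      exact isClosed_eq (Continuous.inner (by fun_prop) (by fun_prop)) continuous_const
  set F : E n × ℝ × (Fin m → E n) → ℝ := fun p => ∑ i, ‖zt (D p.1) p.1 p.2.1 (p.2.2 i)‖ with hF
  have hFc : ContinuousOn F K := by
    have h1 : ContinuousOn (fun p : E n × ℝ × (Fin m → E n) => D p.1) K :=
      hDc.comp continuousOn_fst fun p hp => hp.1.1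
    refine continuousOn_finsetSum _ fun i _ => ContinuousOn.norm ?_
    have h2 : ContinuousOn (fun p : E n × ℝ × (Fin m → E n) => P0J n (D p.1 (p.2.2 i))) K := by
      refine (P0J n).continuous.comp_continuousOn ?_
      exact h1.clm_apply (Continuous.continuousOn (by fun_prop))
    have h3 : ContinuousOn (fun p : E n × ℝ × (Fin m → E n) => p.1) K := continuousOn_fst
    have h4 : ContinuousOn (fun p : E n × ℝ × (Fin m → E n) =>
        (⟪p.1, P0J n (D p.1 (p.2.2 i))⟫ : ℝ)) K := ContinuousOn.inner (𝕜 := ℝ) h3 h2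
    unfold zt
    exact (h2.sub (h4.smul h3)).sub (Continuous.continuousOn (by fun_prop))
  have hFpos : ∀ p ∈ K, 0 < F p := by
    rintro ⟨x, μ, w⟩ ⟨⟨hx, hμ, hw⟩, horth, hperp⟩
    have hx1 : ‖x‖ = 1 := by simpa using hx
    have horth' : ∀ i k, ⟪w i, w k⟫ = if i = k then (1 : ℝ) else 0 := horth
    have hperp' : ∀ i, ⟪x, w i⟫ = 0 := hperp
    have hF0 : 0 ≤ F (x, μ, w) := Finset.sum_nonneg fun i _ => norm_nonneg _
    refine lt_of_le_of_ne hF0 fun h0 => ?_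
    have hz : ∀ i, zt (D x) x μ (w i) = 0 := by
      intro i
      have h1 := (Finset.sum_eq_zero_iff_of_nonneg (s := Finset.univ)
        (f := fun i => ‖zt (D x) x μ (w i)‖) (fun i _ => norm_nonneg _)).1 h0.symm i
        (Finset.mem_univ i)
      exact norm_eq_zero.1 h1
    have hon : Orthonormal ℝ w := orthonormal_iff_ite.2 horth'
    obtain ⟨w', hw', u, hu, hne⟩ := h x hx1 μ (Submodule.span ℝ (range w)) (fun v hv => by
        induction hv using Submodule.span_induction with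
        | mem v hv => obtain ⟨i, rfl⟩ := hv; exact hperp' i
        | zero => simp
        | add a b _ _ ha hb => rw [inner_add_right, ha, hb, add_zero]
        | smul c a _ ha => rw [inner_smul_right, ha, mul_zero])
      (by rw [finrank_span_eq_card hon.linearIndependent, Fintype.card_fin]; omega)
    have key : ∀ v ∈ Submodule.span ℝ (range w), D x v u = μ * ⟪v, u⟫ := by
      intro v hv
      clear hne hw'
      induction hv using Submodule.span_induction with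
      | mem v hv =>
        obtain ⟨i, rfl⟩ := hv
        have h1 := zt_inner (D x) x μ (w i) u hu
        rw [hz i, inner_zero_left] at h1
        linarith
      | zero => simp
      | add a b _ _ ha hb =>
        rw [map_add, add_apply, ha, hb, inner_add_left]
        ring
      | smul c a _ ha =>
        rw [map_smul, smul_apply, ha, inner_smul_left]
        simp
        ring
    exact hne (key w' hw')
  -- a positive lower bound
  obtain ⟨c, hc, hcF⟩ : ∃ c : ℝ, 0 < c ∧ ∀ p ∈ K, c ≤ F p := by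
    rcases K.eq_empty_or_nonempty with hKe | hKn
    · exact ⟨1, one_pos, fun p hp => by rw [hKe] at hp; exact absurd hp (notMem_empty p)⟩
    · obtain ⟨p0, hp0, hmin⟩ := hKc.exists_isMinOn hKn hFc
      exact ⟨F p0, hFpos p0 hp0, fun p hp => hmin hp⟩
  set c1 : ℝ := min (c / m) 1 with hc1
  have hmR : (0 : ℝ) < m := by exact_mod_cast hm1
  have hc1' : 0 < c1 := lt_min (div_pos hc hmR) one_pos
  refine ⟨c1, B, hc1', hB0, fun x hx => ⟨hB' x hx, fun μ W hW hdim => ?_⟩⟩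
  -- a frame in `W`
  have hle : m ≤ Module.finrank ℝ W := by omega
  set w : Fin m → E n := fun i => ((stdOrthonormalBasis ℝ W) (Fin.castLE hle i) : E n) with hw
  have hwW : ∀ i, w i ∈ W := fun i => Subtype.coe_prop _
  have horth : ∀ i k, ⟪w i, w k⟫ = if i = k then (1 : ℝ) else 0 := by
    intro i k
    have h1 := orthonormal_iff_ite.1 (stdOrthonormalBasis ℝ W).orthonormal (Fin.castLE hle i)
      (Fin.castLE hle k)
    simp only [Fin.castLE_inj] at h1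
    exact h1
  have hn1 : ∀ i, ‖w i‖ = 1 := by
    intro i
    have h1 := horth i i
    rw [real_inner_self_eq_norm_sq, if_pos rfl] at h1
    exact (pow_eq_one_iff_of_nonneg (norm_nonneg _) two_ne_zero).mp h1
  obtain ⟨i, hi⟩ : ∃ i, c1 ≤ ‖zt (D x) x μ (w i)‖ := by
    rcases le_or_gt |μ| (B + 1) with hμ | hμ
    · have hp : (x, μ, w) ∈ K := by
        refine ⟨⟨by simpa using hx, abs_le.1 hμ, fun i _ => ?_⟩, horth, fun i => hW _ (hwW i)⟩
        simpa using (hn1 i).le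
      have h1 := hcF _ hp
      by_contra hcon
      push Not at hcon
      have h2 : F (x, μ, w) < ∑ _i : Fin m, c / m := by
        have hnon : (Finset.univ : Finset (Fin m)).Nonempty := ⟨⟨0, hm1⟩, Finset.mem_univ _⟩
        exact Finset.sum_lt_sum_of_nonempty hnon fun i _ =>
          (hcon i).trans_le (min_le_left _ _)
      rw [Finset.sum_const, Finset.card_univ, Fintype.card_fin, nsmul_eq_mul,
        mul_div_cancel₀ _ hmR.ne'] at h2
      linarith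
    · exact ⟨⟨0, hm1⟩, (min_le_right _ _).trans
        (zt_far (D x) x hx μ B (w ⟨0, hm1⟩) (hn1 _) (hB' x hx) hμ.le)⟩
  set z := zt (D x) x μ (w i) with hz
  have hz0 : 0 < ‖z‖ := hc1'.trans_le hi
  have hxz : ⟪x, z⟫ = 0 := zt_normal (D x) x hx μ (w i) (hW _ (hwW i))
  have hxu : ⟪x, ‖z‖⁻¹ • z⟫ = 0 := by rw [inner_smul_right, hxz, mul_zero]
  refine ⟨w i, hwW i, ‖z‖⁻¹ • z, hn1 i, ?_, hxu, ?_⟩
  · rw [norm_smul, norm_inv, norm_norm, inv_mul_cancel₀ hz0.ne']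
  · have h1 : D x (w i) (‖z‖⁻¹ • z) - μ * ⟪w i, ‖z‖⁻¹ • z⟫ = ‖z‖ := by
      have h2 := zt_inner (D x) x μ (w i) (‖z‖⁻¹ • z) hxu
      rw [← hz, inner_smul_right, real_inner_self_eq_norm_sq] at h2
      rw [← h2]
      field_simp
    exact hi.trans h1.ge

/-- The condition on the multiplicities gives `MopS`, with one constant for all phases whose second
derivatives on the sphere are near those of `φ`. -/
theorem MopS_of_mult_stable {n j : ℕ} {φ : E n → ℝ} (hφ : ∀ x, ‖x‖ = 1 → ContDiffAt ℝ 2 φ x)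
    (h : MultLt n j φ) :
    ∃ η δ : ℝ, 0 < η ∧ 0 < δ ∧ ∀ ψ : E n → ℝ, ∀ x : E n, ‖x‖ = 1 →
      ‖fderiv ℝ (fderiv ℝ ψ) x - fderiv ℝ (fderiv ℝ φ) x‖ ≤ δ → MopS n j η ψ x := by
  obtain ⟨c, B, hc, hB0, hcB⟩ := h.bound hφ
  refine ⟨(c / 2) / (B + c / 2 + 1), c / 2, by positivity, by positivity, ?_⟩
  intro ψ x hx hψ μ W hW hdim
  obtain ⟨hB, hlow⟩ := hcB x hx
  obtain ⟨w, hw, u, hw1, hu1, hxu, hwu⟩ := hlow μ W hW hdim
  set P := fderiv ℝ (fderiv ℝ φ) x with hP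
  set Q := fderiv ℝ (fderiv ℝ ψ) x with hQ
  have hop : ∀ (T : E n →L[ℝ] E n →L[ℝ] ℝ) (b : ℝ), 0 ≤ b → ‖T‖ ≤ b → ∀ v v' : E n, ‖v‖ ≤ 1 →
      ‖v'‖ ≤ 1 → |T v v'| ≤ b := by
    intro T b hb hT v v' hv hv'
    rw [← Real.norm_eq_abs]
    calc ‖T v v'‖ ≤ ‖T v‖ * ‖v'‖ := (T v).le_opNorm v'
      _ ≤ (‖T‖ * ‖v‖) * ‖v'‖ := by
          gcongr
          exact T.le_opNorm v
      _ ≤ (b * 1) * 1 := by gcongr
      _ = b := by ring
  refine ⟨w, hw, u, 0, hw1.le, hu1.le, hxu, fun v v' hv hv' _ _ => ?_⟩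
  rw [zero_mul, sub_zero]
  have h1 := (abs_le.1 (hop (Q - P) (c / 2) (by positivity) hψ w u hw1.le hu1.le)).1
  have h2 : (Q - P) w u = Q w u - P w u := rfl
  rw [h2] at h1
  have h3 : c / 2 ≤ |Q w u - μ * ⟪w, u⟫| := by
    refine le_trans ?_ (le_abs_self _)
    linarith
  have h4 : ‖Q‖ ≤ B + c / 2 := by
    have h5 : Q = P + (Q - P) := by abel
    calc ‖Q‖ = ‖P + (Q - P)‖ := by rw [← h5]
      _ ≤ ‖P‖ + ‖Q - P‖ := ContinuousLinearMap.opNorm_add_le P (Q - P)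
      _ ≤ B + c / 2 := add_le_add hB hψ
  have h6 := hop Q (B + c / 2) (by positivity) h4 v v' hv hv'
  calc c / 2 / (B + c / 2 + 1) * |Q v v'| ≤ c / 2 / (B + c / 2 + 1) * (B + c / 2 + 1) := by
        gcongr
        linarith
    _ = c / 2 := by field_simp
    _ ≤ _ := h3

/-- The condition on the multiplicities gives `MopS`. -/
theorem MopS_of_mult {n j : ℕ} {φ : E n → ℝ} (hφ : ∀ x, ‖x‖ = 1 → ContDiffAt ℝ ∞ φ x)
    (h : MultLt n j φ) : ∃ η : ℝ, 0 < η ∧ ∀ x, ‖x‖ = 1 → MopS n j η φ x := by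
  obtain ⟨η, δ, hη, hδ, hall⟩ := MopS_of_mult_stable (fun x hx => (hφ x hx).of_le
    (WithTop.coe_le_coe.2 (le_top : (2 : ℕ∞) ≤ ⊤))) h
  refine ⟨η, hη, fun x hx => hall φ x hx ?_⟩
  rw [sub_self, ContinuousLinearMap.opNorm_zero]
  exact hδ.le

end Pool.Agent.GNP
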