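import Pool.Agent.GNP.M5

/-!
Row M8: the estimate with a small loss under condition (M), in all dimensions `n ≥ 3`.
-/

namespace Pool.Agent.GNP

open MeasureTheory Set Pool.Agent.MP_6cbfb8_an
open scoped ENNReal Real RealInnerProductSpace ContDiff

/-- The estimate with a small loss for one phase with condition (M) on the sphere, in the range
`p > p0`. The constant depends on the bounds `B k` and on `η` only. -/
def OneLossM (n j : ℕ) (p0 : ℝ) : Prop :=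
  ∀ p ε η : ℝ, p0 < p → 0 < ε → 0 < η → ∀ B : ℕ → ℝ, ∃ K : ℝ, 0 < K ∧
    ∀ (φ : E n → ℝ) (a : E n → ℂ),
    (∀ x, ‖x‖ = 1 → ContDiffAt ℝ ∞ φ x) → (∀ x, ‖x‖ = 1 → ContDiffAt ℝ ∞ a x) →
    (∀ k x, ‖x‖ = 1 → ‖iteratedFDeriv ℝ k φ x‖ ≤ B k) →
    (∀ k x, ‖x‖ = 1 → ‖iteratedFDeriv ℝ k a x‖ ≤ B k) →
    (∀ x, ‖x‖ = 1 → MopS n j η φ x) → ∀ c : ℝ,
    ∫⁻ ξ, ‖extn (fun x => a x * Complex.exp (((c * φ x : ℝ) : ℂ) * Complex.I)) ξ‖ₑ ^ p ≤
      ENNReal.ofReal (K * (1 + |c|) ^ ε)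

theorem oneLossM (n : ℕ) (hn : 3 ≤ n) : OneLossM n ((n + 1) / 3) (2 * n / (n - 1)) := by
  obtain ⟨d, rfl⟩ : ∃ d, n = d + 1 := ⟨n - 1, by omega⟩
  intro p ε η hp hε hη B
  have hp' : 2 * ((d : ℝ) + 1) / d < p := by
    have h1 : (2 * ((d + 1 : ℕ) : ℝ) / (((d + 1 : ℕ) : ℝ) - 1)) = 2 * ((d : ℝ) + 1) / d := by
      push_cast
      ring_nf
    rwa [← h1]
  obtain ⟨K, hK, h⟩ := sphereM d ((d + 1 + 1) / 3) (by omega) (by omega) (by omega) (by omega) η hη p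
    ε hp' hε B
  exact ⟨K, hK, h⟩

/-- For `n = 3` and `n = 4` the condition always holds. -/
theorem mopS_one_sphere {n : ℕ} (φ : E n → ℝ) : ∀ x, ‖x‖ = 1 → MopS n 1 1 φ x := fun x hx =>
  MopS_one φ (by rintro rfl; simp at hx)

end Pool.Agent.GNP
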