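import Pool.Agent.GNP.Defs6
import Pool.Agent.GNP.P0

/-!
The roots of the pencil `c D²Φ - s D²h`: determinant and continuity.
-/

namespace Pool.Agent.GNP

open MeasureTheory Set Pool.Agent.MP_6cbfb8_an
open scoped ENNReal Real RealInnerProductSpace ContDiff

theorem mu_sy {d : ℕ} {q : E d → ℝ} (hq : ContDiff ℝ ∞ q) (t : ℝ) (y : E d) :
    Sy (-(t • Hs q y)) := by
  intro v w
  have h := Hs_symm hq y v w
  simp only [neg_apply, smul_apply, inner_neg_left,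
    inner_neg_right, real_inner_smul_left, real_inner_smul_right, h]

theorem mu_ge {d : ℕ} {h : E d → ℝ} {b : ℝ} {y : E d}
    (hD : ∀ v, ⟪Hs h y v, v⟫ ≤ -(b * ‖v‖ ^ 2)) (v : E d) :
    b * ‖v‖ ^ 2 ≤ ⟪(-Hs h y) v, v⟫ := by
  have h1 := hD v
  simp only [neg_apply, inner_neg_left]
  linarith

theorem mu_det {d : ℕ} {Φ h : E d → ℝ} {b r : ℝ} {z y : E d} (hΦ : ContDiff ℝ ∞ Φ)
    (hh : ContDiff ℝ ∞ h) (hb : 0 < b) (hD : DfB b z r h) (hy : ‖y - z‖ ≤ r) (c s : ℝ) :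
    (Hs (ph Φ h c s) y).det = (-Hs h y).det * ∏ i, (s - mu Φ h c y i) := by
  have hP : Sy (-(c • Hs Φ y)) := mu_sy hΦ c y
  have hQ : Sy (-Hs h y) := by simpa using mu_sy hh 1 y
  have hg := mu_ge (hD y hy)
  have h1 := RT.rt_det hP hQ hb hg s
  have h2 : Hs (ph Φ h c s) y = -(-(c • Hs Φ y) - s • (-Hs h y)) := by
    rw [Hs_ph hΦ hh]
    simp only [smul_neg, sub_neg_eq_add]
    abel
  have h3 : ∀ T : E d →L[ℝ] E d, (-T).det = (-1) ^ d * T.det := by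
    intro T
    have h4 : ((-T : E d →L[ℝ] E d) : E d →ₗ[ℝ] E d) = (-1 : ℝ) • (T : E d →ₗ[ℝ] E d) := by
      ext v
      simp
    unfold ContinuousLinearMap.det
    rw [h4, LinearMap.det_smul, finrank_euclideanSpace_fin]
  rw [h2, h3, h1]
  have h5 : ∏ i, (s - mu Φ h c y i) = (-1) ^ d * ∏ i, (mu Φ h c y i - s) := by
    have : ∀ i, s - mu Φ h c y i = (-1) * (mu Φ h c y i - s) := fun i => by ring
    simp_rw [this]
    rw [Finset.prod_mul_distrib, Finset.prod_const, Finset.card_univ, Fintype.card_fin]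
  rw [h5]
  unfold mu
  ring

theorem mu_hs_cont {d : ℕ} {q : E d → ℝ} (hq : ContDiff ℝ ∞ q) : Continuous (Hs q) := by
  have h1 : ContDiff ℝ ∞ (gr q) := by
    rw [gr_eq]
    exact (P0J d).toContinuousLinearMap.contDiff.comp (hq.fderiv_right (m := ∞) (by simp))
  exact h1.continuous_fderiv (by simp)

theorem mu_cont {d : ℕ} {Φ h : E d → ℝ} {b r : ℝ} {z : E d} (hΦ : ContDiff ℝ ∞ Φ)
    (hh : ContDiff ℝ ∞ h) (hb : 0 < b) (hD : DfB b z r h) (c : ℝ) (i : Fin d) :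
    ContinuousOn (fun y => mu Φ h c y i) {y | ‖y - z‖ ≤ r} := by
  refine RT.rt_cont hb (fun y _ => mu_sy hΦ c y) (fun y _ => by simpa using mu_sy hh 1 y)
    (fun y hy => mu_ge (hD y hy)) ?_ ?_ i
  · exact ((mu_hs_cont hΦ).const_smul c).neg.continuousOn
  · exact (mu_hs_cont hh).neg.continuousOn

end Pool.Agent.GNP
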