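import Pool.Agent.GNP.Core
import Pool.Agent.GNP.AEB
import Pool.Agent.GNP.CH

/-!
Row PU: one chart, almost every `b`.
-/

namespace Pool.Agent.GNP

open MeasureTheory Set Pool.Agent.MP_6cbfb8_an
open scoped ENNReal Real RealInnerProductSpace ContDiff

theorem contDiff_pb {n : ℕ} {φ : E n → ℝ} (hφ : ContDiff ℝ ∞ φ) (b : Fin n → ℝ) :
    ContDiff ℝ ∞ (pb φ b) := by
  unfold pb
  refine hφ.add (ContDiff.sum fun j _ => contDiff_const.mul ?_)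
  exact (contDiff_euclidean.mp contDiff_id j).pow 2

/-- One chart, almost every `b`. -/
theorem piece_ae (d : ℕ) (hd : 3 ≤ d) (φ : E (d + 1) → ℝ) (hφ : ContDiff ℝ ∞ φ) (r : ℝ)
    (hr : 0 < r) (hr1 : r < 1) : ∀ᵐ b : Fin (d + 1) → ℝ, ∀ a : E (d + 1) → ℂ, ContDiff ℝ ∞ a →
    (∀ (y : E d) (t : ℝ), ‖y‖ ^ 2 + t ^ 2 = 1 → (r < ‖y‖ ∨ t ≤ 0) → a (join y t) = 0) →
    ∀ p : ℝ, 2 * ((d : ℝ) + 1) / d < p → ∃ C : ℝ≥0∞, C ≠ ⊤ ∧ ∀ c : ℝ,
      ∫⁻ ξ, ‖extn (fun x => a x * Complex.exp (((c * pb φ b x : ℝ) : ℂ) * Complex.I)) ξ‖ₑ ^ p ≤ C := by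
  obtain ⟨r', hrr', hr'1⟩ := exists_between hr1
  obtain ⟨ρ, hr'ρ, hρ1⟩ := exists_between hr'1
  have hd0 : (0 : ℝ) < d := by
    have : 0 < d := by omega
    exact_mod_cast this
  have hd3 : (3 : ℝ) ≤ d := by exact_mod_cast hd
  have h2d : 2 / (d : ℝ) < 1 := by
    rw [div_lt_one hd0]
    linarith
  set al : ℕ → ℝ := fun m => 2 / (d : ℝ) + (1 - 2 / (d : ℝ)) / ((m : ℝ) + 2) with hal
  have hal0 : ∀ m, 2 / (d : ℝ) < al m := by
    intro m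
    have : 0 < (1 - 2 / (d : ℝ)) / ((m : ℝ) + 2) := by
      apply div_pos
      · linarith
      · positivity
    simp only [hal]
    linarith
  have hal1 : ∀ m, al m < 1 := by
    intro m
    have h1 : (1 - 2 / (d : ℝ)) / ((m : ℝ) + 2) ≤ (1 - 2 / (d : ℝ)) / 2 := by
      apply div_le_div_of_nonneg_left (by linarith) (by norm_num)
      have : (0 : ℝ) ≤ m := Nat.cast_nonneg m
      linarith
    simp only [hal]
    linarith
  have hJ : ∀ᵐ b : Fin (d + 1) → ℝ, ∀ m : ℕ,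
      JJ d r' (al m) (kap d (al m)) (fun y => pb φ b (join y (hs y))) hs ≠ ⊤ := by
    rw [ae_all_iff]
    intro m
    exact ae_J d hd φ hφ r' (al m) (hr.trans hrr') hr'1 (hal0 m) (hal1 m)
  filter_upwards [hJ] with b hb a ha hs' p hp
  obtain ⟨A, Φ, h, a', hΦ, hh, ha', hhs, hΦs, hB⟩ :=
    chart_red d (by omega) r ρ hr (hrr'.trans hr'ρ) hρ1 (pb φ b) (contDiff_pb hφ b) a ha hs'
  have hp2 : 2 / (d : ℝ) < p - 2 := by
    have : 2 * ((d : ℝ) + 1) / d = 2 + 2 / d := by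
      field_simp
    linarith
  obtain ⟨m, hm⟩ : ∃ m : ℕ, al m ≤ p - 2 := by
    obtain ⟨m, hm⟩ := exists_nat_gt ((1 - 2 / (d : ℝ)) / (p - 2 - 2 / (d : ℝ)))
    refine ⟨m, ?_⟩
    have hpos : 0 < p - 2 - 2 / (d : ℝ) := by linarith
    have h1 : (1 - 2 / (d : ℝ)) / ((m : ℝ) + 2) ≤ p - 2 - 2 / (d : ℝ) := by
      rw [div_le_iff₀ (by positivity)]
      rw [div_lt_iff₀ hpos] at hm
      nlinarith
    simp only [hal]
    linarith
  have hJ' : JJ d r' (al m) (kap d (al m)) Φ h ≠ ⊤ := by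
    rw [JJ_congr hr'ρ hΦs hhs]
    exact hb m
  obtain ⟨C, hC, hCb⟩ := core d (by omega) A r r' 1 (al m) p hr hrr' one_pos (hal0 m) hm Φ h a'
    hΦ hh ha' (fun y hy v => by
      rw [Hs_congr_ball hhs (lt_of_le_of_lt hy hr'ρ), one_mul]
      exact Hs_hs y v (lt_of_le_of_lt hy hr'1)) hJ'
  refine ⟨C, hC, fun c => (hB p ?_ c).trans (hCb c)⟩
  have : 0 < 2 / (d : ℝ) := by positivity
  linarith

end Pool.Agent.GNP
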