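import Pool.Agent.GNP.PUd
import Pool.Agent.GNP.PUc

namespace Pool.Agent.GNP

open MeasureTheory Set Pool.Agent.MP_6cbfb8_an
open scoped ENNReal Real RealInnerProductSpace ContDiff

/-- The final statement before superpositions: `n = d + 1 ≥ 4`. -/
theorem main_ae (d : ℕ) (hd : 3 ≤ d) (φ : E (d + 1) → ℝ) (hφ : ContDiff ℝ ∞ φ) :
    ∀ᵐ b : Fin (d + 1) → ℝ, ∀ a : E (d + 1) → ℂ, ContDiff ℝ ∞ a →
    ∀ p : ℝ, 2 * ((d : ℝ) + 1) / d < p → ∃ C : ℝ≥0∞, C ≠ ⊤ ∧ ∀ c : ℝ,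
      ∫⁻ ξ, ‖extn (fun x => a x * Complex.exp (((c * pb φ b x : ℝ) : ℂ) * Complex.I)) ξ‖ₑ ^ p ≤ C := by
  have h : ∀ᵐ b : Fin (d + 1) → ℝ, ∀ (j : Fin (d + 1)) (e : Bool),
      Chart d (rch d) (phc φ j e) (bpc b j) := by
    rw [ae_all_iff]
    intro j
    rw [ae_all_iff]
    intro e
    exact ae_perm _ (Equiv.swap j (Fin.last d))
      (piece_ae d hd (phc φ j e) (contDiff_phc hφ j e) (rch d) (rch_pos d) (rch_lt d))
  filter_upwards [h] with b hb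
  exact full_of_charts d (by omega) φ hφ.continuous b hb

end Pool.Agent.GNP
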