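import Pool.Agent.GNP.MainA
import Pool.Agent.GNP.PU
import Pool.Agent.GNP.CUT
import Pool.Agent.VAN.N3D
import Pool.Agent.VAN.N4

/-!
Almost every phase, all dimensions `n ≥ 3`.
-/

namespace Pool.Agent.GNP

open MeasureTheory Set Pool.Agent.MP_6cbfb8_an
open scoped ENNReal Real RealInnerProductSpace ContDiff

/-- Adding the constant function. -/
lemma nonflat_one {ψ : E 3 → ℝ} (h : VAN.Nonflat fun _ : Fin 1 => ψ) :
    VAN.Nonflat ![fun _ : E 3 => (1:ℝ), ψ] := by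
  have h1 : ∀ (a : Fin 2 → ℝ) (y : E 3), VAN.fam ![fun _ : E 3 => (1:ℝ), ψ] a y =
      a 0 + VAN.fam (fun _ : Fin 1 => ψ) (fun _ => a 1) y := by
    intro a y
    unfold VAN.fam
    rw [Fin.sum_univ_two, Fin.sum_univ_one]
    simp
  refine ⟨fun j x hx => ?_, fun a ζ x hx hf y hy => ?_⟩
  · fin_cases j
    · exact contDiffAt_const
    · exact h.1 0 x hx
  · have h2 : VAN.Flat (fun y => VAN.fam (fun _ : Fin 1 => ψ) (fun _ => a 1) y + inner ℝ y ζ) x := by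
      intro k
      refine (hf k).congr' (Filter.Eventually.of_forall fun z => ?_) Filter.EventuallyEq.rfl
      simp only [h1]
      ring
    have h3 := h.2 (fun _ => a 1) ζ x hx h2 y hy
    rw [h1, h1, add_assoc, add_assoc, h3]

/-- The case of `R^3`. -/
theorem bd_three (φ : E 3 → ℝ) (hφ : ∀ x ∈ Metric.sphere (0 : E 3) 1, ContDiffAt ℝ ∞ φ x) :
    ∀ᵐ b : Fin 3 → ℝ, ∀ p : ℝ, 3 < p → Bd 3 (fun x => φ x + ∑ j, b j * x j ^ 2) p := by
  obtain ⟨ψ, hψ, hψφ⟩ := smooth_ext φ hφ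
  filter_upwards [VAN.ND.ae_nonflat_quad ψ fun x _ => hψ.contDiffAt] with b hb p hp
  obtain ⟨C, hC, H⟩ := VAN.main_nf _ (nonflat_one hb) 1 p hp
  have hm : Measurable fun x : E 3 => ψ x + ∑ j, b j * x j ^ 2 :=
    (hψ.continuous.measurable).add (by fun_prop)
  refine (bd_of_famc _ hm (by linarith) hC H).congr fun x hx => ?_
  rw [hψφ x hx]

/-- The case `n ≥ 4`. -/
theorem bd_high (d : ℕ) (hd : 3 ≤ d) (φ : E (d + 1) → ℝ)
    (hφ : ∀ x ∈ Metric.sphere (0 : E (d + 1)) 1, ContDiffAt ℝ ∞ φ x) :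
    ∀ᵐ b : Fin (d + 1) → ℝ, ∀ p : ℝ, 2 * ((d : ℝ) + 1) / d < p →
      Bd (d + 1) (fun x => φ x + ∑ j, b j * x j ^ 2) p := by
  obtain ⟨ψ, hψ, hψφ⟩ := smooth_ext φ hφ
  have hd3 : (3:ℝ) ≤ d := by exact_mod_cast hd
  have hp0 : 1 ≤ 2 * ((d : ℝ) + 1) / d := by
    rw [le_div_iff₀ (by linarith)]
    linarith
  have hone : ContDiff ℝ ∞ (fun _ : E (d + 1) => (1 : ℂ)) := contDiff_const
  have H : ∀ᵐ b : Fin (d + 1) → ℝ, ∀ p : ℝ, 2 * ((d : ℝ) + 1) / d < p → ∃ C : ℝ≥0∞, C ≠ ⊤ ∧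
      ∀ c : ℝ, ∫⁻ ξ, ‖extn (fun x => Complex.exp (((c * pb ψ b x : ℝ) : ℂ) * Complex.I)) ξ‖ₑ ^ p ≤
        C := by
    filter_upwards [main_ae d hd ψ hψ] with b hb p hp
    have h := hb _ hone p hp
    simpa only [one_mul] using h
  filter_upwards [main_cuts_of d (by omega) ψ hψ.continuous _ hp0 H] with b h1 p hp
  obtain ⟨C, hC, H⟩ := h1 1 p hp
  have hm : Measurable fun x : E (d + 1) => ψ x + ∑ j, b j * x j ^ 2 :=
    (hψ.continuous.measurable).add (by fun_prop)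
  refine (bd_of_famc _ hm (hp0.trans hp.le) hC H).congr fun x hx => ?_
  rw [hψφ x hx]

/-- All dimensions `n ≥ 3`. -/
theorem bd_all (n : ℕ) (hn : 3 ≤ n) (φ : E n → ℝ)
    (hφ : ∀ x ∈ Metric.sphere (0 : E n) 1, ContDiffAt ℝ ∞ φ x) :
    ∀ᵐ b : Fin n → ℝ, ∀ p : ℝ, 2 * (n : ℝ) / (n - 1) < p →
      Bd n (fun x => φ x + ∑ j, b j * x j ^ 2) p := by
  rcases hn.eq_or_lt with h | h
  · subst h
    filter_upwards [bd_three φ hφ] with b hb p hp
    refine hb p ?_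
    norm_num at hp
    exact hp
  · obtain ⟨d, rfl⟩ : ∃ d, n = d + 1 := ⟨n - 1, by omega⟩
    filter_upwards [bd_high d (by omega) φ hφ] with b h1 p hp
    refine h1 p ?_
    push_cast at hp
    rwa [add_sub_cancel_right] at hp

end Pool.Agent.GNP
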