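import Pool.Agent.GNP.BV
import Pool.Agent.VAN.Defs

/-!
Functions which are smooth at the points of the sphere; from families with cuts to `Bd`.
-/

namespace Pool.Agent.GNP

open MeasureTheory Set Pool.Agent.MP_6cbfb8_an
open scoped ENNReal Real RealInnerProductSpace ContDiff

/-- A function which is smooth at every point of the sphere agrees on the sphere with a smooth
function. -/
theorem smooth_ext {n : ℕ} (φ : E n → ℝ) (hφ : ∀ x ∈ Metric.sphere (0 : E n) 1, ContDiffAt ℝ ∞ φ x) :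
    ∃ ψ : E n → ℝ, ContDiff ℝ ∞ ψ ∧ ∀ x : E n, ‖x‖ = 1 → ψ x = φ x := by
  refine ⟨fun x => Real.smoothTransition (2 * ‖x‖ ^ 2 - 1 / 2) * φ (‖x‖⁻¹ • x), ?_, ?_⟩
  · rw [contDiff_iff_contDiffAt]
    intro x
    by_cases hx : x = 0
    · have h0 : (fun x : E n => Real.smoothTransition (2 * ‖x‖ ^ 2 - 1 / 2) * φ (‖x‖⁻¹ • x))
          =ᶠ[nhds x] fun _ => 0 := by
        have h1 : Metric.ball (0 : E n) (1 / 2) ∈ nhds x := by
          rw [hx]
          exact Metric.ball_mem_nhds _ (by norm_num)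
        filter_upwards [h1] with y hy
        rw [mem_ball_zero_iff] at hy
        have h2 : 2 * ‖y‖ ^ 2 - 1 / 2 ≤ 0 := by nlinarith [norm_nonneg y]
        rw [Real.smoothTransition.zero_of_nonpos h2, zero_mul]
      exact contDiffAt_const.congr_of_eventuallyEq h0
    · have hn : ‖x‖ ≠ 0 := norm_ne_zero_iff.2 hx
      have h1 : ContDiffAt ℝ ∞ (fun y : E n => ‖y‖⁻¹ • y) x :=
        ((contDiffAt_norm ℝ hx).inv hn).smul contDiffAt_id
      have h2 : ‖x‖⁻¹ • x ∈ Metric.sphere (0 : E n) 1 := by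
        rw [mem_sphere_zero_iff_norm, norm_smul, norm_inv, norm_norm, inv_mul_cancel₀ hn]
      have h3 : ContDiffAt ℝ ∞ (fun y : E n => φ (‖y‖⁻¹ • y)) x :=
        ContDiffAt.comp (f := fun y : E n => ‖y‖⁻¹ • y) x (hφ _ h2) h1
      have h4 : ContDiff ℝ ∞ fun y : E n => Real.smoothTransition (2 * ‖y‖ ^ 2 - 1 / 2) :=
        Real.smoothTransition.contDiff.comp
          ((contDiff_const.mul (contDiff_norm_sq ℝ)).sub contDiff_const)
      exact h4.contDiffAt.mul h3
  · intro x hx
    simp only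
    rw [hx, Real.smoothTransition.one_of_one_le (by norm_num), one_mul, inv_one, one_smul]

/-- The Fourier transform only depends on the values on the sphere. -/
lemma extn_congr_sphere {n : ℕ} {g g' : E n → ℂ} (h : ∀ x, ‖x‖ = 1 → g x = g' x) (ξ : E n) :
    extn g ξ = extn g' ξ := by
  unfold extn
  refine integral_congr_ae (ae_of_all _ fun x => ?_)
  simp only
  rw [h x (norm_eq_of_mem_sphere x)]

/-- `Bd` only depends on the values on the sphere. -/
theorem Bd.congr {n : ℕ} {φ ψ : E n → ℝ} {p : ℝ} (h : ∀ x : E n, ‖x‖ = 1 → φ x = ψ x)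
    (H : Bd n φ p) : Bd n ψ p := by
  obtain ⟨C, hC, H⟩ := H
  refine ⟨C, hC, fun W _ ν hν R η l B hR hη hl hBm hB hv => ?_⟩
  refine le_trans (le_of_eq ?_) (H W _ ν hν R η l B hR hη hl hBm hB hv)
  refine lintegral_congr fun ξ => ?_
  have h3 : extn (mix ν R η fun w x =>
        Complex.exp (((l w * ψ x : ℝ) : ℂ) * Complex.I) * B w (ψ x)) ξ =
      extn (mix ν R η fun w x =>
        Complex.exp (((l w * φ x : ℝ) : ℂ) * Complex.I) * B w (φ x)) ξ := by
    refine extn_congr_sphere (fun x hx => ?_) ξ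
    unfold mix
    refine integral_congr_ae (ae_of_all _ fun w => ?_)
    simp only
    rw [h (R w x) (by rw [(R w).norm_map]; exact hx)]
  rw [h3]

/-- From the family `1, φ` with one cut to `Bd`. -/
theorem bd_of_famc {n : ℕ} (φ : E n → ℝ) (hφ : Measurable φ) {p : ℝ} (hp : 1 ≤ p) {C : ℝ≥0∞}
    (hC : C ≠ ⊤) (H : ∀ (c : Fin 2 → ℝ) (cs : Fin 1 → Fin 2 → ℝ),
      ∫⁻ ξ, ‖extn (VAN.famc ![fun _ => 1, φ] c cs) ξ‖ₑ ^ p ≤ C) : Bd n φ p := by
  have hf : ∀ (a b : ℝ) (x : E n), VAN.fam ![fun _ => 1, φ] ![a, b] x = a + b * φ x := by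
    intro a b x
    unfold VAN.fam
    rw [Fin.sum_univ_two]
    simp
  have hfc : ∀ l a b : ℝ, VAN.famc ![fun _ : E n => (1:ℝ), φ] ![0, l] (fun _ : Fin 1 => ![a, b]) =
      fun x => Complex.exp (((l * φ x : ℝ) : ℂ) * Complex.I) *
        if 0 < a + b * φ x then 1 else 0 := by
    intro l a b
    funext x
    unfold VAN.famc
    rw [Fin.prod_univ_one, hf, hf, zero_add]
  refine bd_of_cuts φ hφ hp hC (fun l => ?_) (fun l t => ?_) (fun l t => ?_)
  · have h := H ![0, l] (fun _ => ![1, 0])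
    rw [hfc] at h
    refine le_trans (le_of_eq ?_) h
    refine lintegral_congr fun ξ => ?_
    congr 3
    funext x
    rw [if_pos (by rw [zero_mul, add_zero]; exact one_pos), mul_one]
  · have h := H ![0, l] (fun _ => ![-t, 1])
    rw [hfc] at h
    refine le_trans (le_of_eq ?_) h
    refine lintegral_congr fun ξ => ?_
    congr 3
    funext x
    congr 1
    refine if_congr ?_ rfl rfl
    constructor <;> intro h1 <;> linarith
  · have h := H ![0, l] (fun _ => ![t, -1])
    rw [hfc] at h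
    refine le_trans (le_of_eq ?_) h
    refine lintegral_congr fun ξ => ?_
    congr 3
    funext x
    congr 1
    refine if_congr ?_ rfl rfl
    constructor <;> intro h1 <;> linarith

end Pool.Agent.GNP
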