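import Pool.Agent.VAN.FVC
import Pool.Agent.GNP.CUT

/-!
WA2: cuts in the phase, with amplitudes.
-/

namespace Pool.Agent.GNP

open MeasureTheory Set Metric Pool.Agent.MP_6cbfb8_an
open scoped ENNReal Real RealInnerProductSpace ContDiff

lemma WA2_norm_exp (u : ℝ) : ‖Complex.exp (((u : ℝ) : ℂ) * Complex.I)‖ₑ = 1 := by
  rw [← ofReal_norm, Complex.norm_exp_ofReal_mul_I, ENNReal.ofReal_one]

/-- Bounds for the exponentials with amplitudes of a class `A` and the sublevel estimate give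
bounds with cuts. -/
theorem cuts_amp_of {n : ℕ} (p0 : ℝ) (hp0 : 1 ≤ p0) (f : E n → ℝ) (hf : Continuous f)
    (hs : ∃ K κ : ℝ, 0 ≤ K ∧ 0 < κ ∧ ∀ c : Fin 2 → ℝ, ‖c‖ = 1 → ∀ δ : ℝ, 0 ≤ δ →
      sm n {x : S n | |VAN.fam ![fun _ => 1, f] c x| ≤ δ} ≤ ENNReal.ofReal (K * δ ^ κ))
    (A : (E n → ℂ) → Prop) (hA : ∀ a, A a → Measurable a ∧ ∀ x, ‖a x‖ ≤ 1)
    (H : ∀ p : ℝ, p0 < p → ∃ C : ℝ≥0∞, C ≠ ⊤ ∧ ∀ a, A a → ∀ c : ℝ,
      ∫⁻ ξ, ‖extn (fun x : E n => a x * Complex.exp (((c * f x : ℝ) : ℂ) * Complex.I)) ξ‖ₑ ^ p ≤ C)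
    (N : ℕ) : ∀ p : ℝ, p0 < p → ∃ C : ℝ≥0∞, C ≠ ⊤ ∧ ∀ a, A a →
      ∀ (c : Fin 2 → ℝ) (cs : Fin N → Fin 2 → ℝ),
        ∫⁻ ξ, ‖extn (fun x => a x * VAN.famc ![fun _ => 1, f] c cs x) ξ‖ₑ ^ p ≤ C := by
  obtain ⟨B0, hB0⟩ := (isCompact_sphere (0 : E n) 1).exists_bound_of_continuousOn hf.continuousOn
  obtain ⟨K, κ, hK, hκ, hsub⟩ := hs
  have key := VAN.FT.cuts_amp (n := n) (d := 2) p0 hp0
    (P := fun phi a => phi = ![fun _ => 1, f] ∧ A a) ?_ ?_ ?_ ?_ N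
  · intro p hp
    obtain ⟨C, hC, h⟩ := key p hp
    refine ⟨C, hC, fun a ha c cs => ?_⟩
    refine le_trans (le_of_eq ?_) (h _ a ⟨rfl, ha⟩ c cs)
    refine lintegral_congr fun ξ => ?_
    congr 3
    funext x
    rw [mul_comm]
  · rintro phi a ⟨rfl, ha⟩
    refine ⟨fun j => ?_, hA a ha⟩
    refine Fin.cases ?_ (fun i => ?_) j
    · exact measurable_const
    · refine Fin.cases ?_ (fun k => k.elim0) i
      exact hf.measurable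
  · refine ⟨max 1 B0, ?_⟩
    rintro phi a ⟨rfl, _⟩ j x hx
    have hx' : x ∈ sphere (0 : E n) 1 := by simpa using hx
    revert j
    intro j
    refine Fin.cases ?_ (fun i => ?_) j
    · simp
    · refine Fin.cases ?_ (fun k => k.elim0) i
      exact le_trans (by simpa using hB0 x hx') (le_max_right _ _)
  · refine ⟨K, κ, hK, hκ, ?_⟩
    rintro phi a ⟨rfl, _⟩
    exact hsub
  · intro p hp
    obtain ⟨C, hC, h⟩ := H p hp
    refine ⟨C, hC, ?_⟩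
    rintro phi a ⟨rfl, ha⟩ c
    refine le_trans (le_of_eq ?_) (h a ha (c 1))
    have h1 : (fun x : E n => Complex.exp (((VAN.fam ![fun _ => 1, f] c x : ℝ) : ℂ) * Complex.I) *
        a x) = fun x => Complex.exp (((c 0 : ℝ) : ℂ) * Complex.I) *
          (a x * Complex.exp (((c 1 * f x : ℝ) : ℂ) * Complex.I)) := by
      funext x
      have h2 : Complex.exp (((VAN.fam ![fun _ => 1, f] c x : ℝ) : ℂ) * Complex.I) =
          Complex.exp (((c 0 : ℝ) : ℂ) * Complex.I) *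
          Complex.exp (((c 1 * f x : ℝ) : ℂ) * Complex.I) := by
        rw [CUT_fam, ← Complex.exp_add]
        congr 1
        push_cast
        ring
      rw [h2]
      ring
    rw [h1]
    refine lintegral_congr fun ξ => ?_
    rw [CUT_const, enorm_mul, WA2_norm_exp, one_mul]

/-- One cut, written out, with amplitudes: `a e^{i l f}`, `a e^{i l f} 1_{t < f}` and
`a e^{i l f} 1_{f < t}`. -/
theorem half_lines_amp {n : ℕ} (f : E n → ℝ) (p : ℝ) (A : (E n → ℂ) → Prop)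
    (h : ∀ N : ℕ, ∃ C : ℝ≥0∞, C ≠ ⊤ ∧ ∀ a, A a →
      ∀ (c : Fin 2 → ℝ) (cs : Fin N → Fin 2 → ℝ),
        ∫⁻ ξ, ‖extn (fun x => a x * VAN.famc ![fun _ => 1, f] c cs x) ξ‖ₑ ^ p ≤ C) :
    ∃ C : ℝ≥0∞, C ≠ ⊤ ∧ ∀ a, A a → ∀ l t : ℝ,
      (∫⁻ ξ, ‖extn (fun x => a x * Complex.exp (((l * f x : ℝ) : ℂ) * Complex.I)) ξ‖ₑ ^ p ≤ C) ∧
      (∫⁻ ξ, ‖extn (fun x => a x * (Complex.exp (((l * f x : ℝ) : ℂ) * Complex.I) *
        (if t < f x then 1 else 0))) ξ‖ₑ ^ p ≤ C) ∧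
      (∫⁻ ξ, ‖extn (fun x => a x * (Complex.exp (((l * f x : ℝ) : ℂ) * Complex.I) *
        (if f x < t then 1 else 0))) ξ‖ₑ ^ p ≤ C) := by
  obtain ⟨C0, hC0, h0⟩ := h 0
  obtain ⟨C1, hC1, h1⟩ := h 1
  refine ⟨C0 + C1, ENNReal.add_ne_top.2 ⟨hC0, hC1⟩, fun a ha l t => ⟨?_, ?_, ?_⟩⟩
  · refine le_trans (le_of_eq ?_) ((h0 a ha ![0, l] (fun i => i.elim0)).trans le_self_add)
    refine lintegral_congr fun ξ => ?_
    congr 3
    funext x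
    congr 1
    unfold VAN.famc
    rw [Fin.prod_univ_zero, mul_one, CUT_fam]
    simp
  · refine le_trans (le_of_eq ?_) ((h1 a ha ![0, l] (fun _ => ![-t, 1])).trans le_add_self)
    refine lintegral_congr fun ξ => ?_
    congr 3
    funext x
    congr 1
    rw [CUT_famc_one]
    congr 1
    refine CUT_ite _ _ ?_
    constructor
    · intro h; linarith
    · intro h; linarith
  · refine le_trans (le_of_eq ?_) ((h1 a ha ![0, l] (fun _ => ![t, -1])).trans le_add_self)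
    refine lintegral_congr fun ξ => ?_
    congr 3
    funext x
    congr 1
    rw [CUT_famc_one]
    congr 1
    refine CUT_ite _ _ ?_
    constructor
    · intro h; linarith
    · intro h; linarith

/-- Cuts with amplitudes from exponentials with amplitudes, one phase. -/
theorem half_lines_amp_of {n : ℕ} (p0 : ℝ) (hp0 : 1 ≤ p0) (f : E n → ℝ) (hf : Continuous f)
    (hs : ∃ K κ : ℝ, 0 ≤ K ∧ 0 < κ ∧ ∀ c : Fin 2 → ℝ, ‖c‖ = 1 → ∀ δ : ℝ, 0 ≤ δ →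
      sm n {x : S n | |VAN.fam ![fun _ => 1, f] c x| ≤ δ} ≤ ENNReal.ofReal (K * δ ^ κ))
    (A : (E n → ℂ) → Prop) (hA : ∀ a, A a → Measurable a ∧ ∀ x, ‖a x‖ ≤ 1)
    (H : ∀ p : ℝ, p0 < p → ∃ C : ℝ≥0∞, C ≠ ⊤ ∧ ∀ a, A a → ∀ c : ℝ,
      ∫⁻ ξ, ‖extn (fun x : E n => a x * Complex.exp (((c * f x : ℝ) : ℂ) * Complex.I)) ξ‖ₑ ^ p ≤ C)
    (p : ℝ) (hp : p0 < p) :
    ∃ C : ℝ≥0∞, C ≠ ⊤ ∧ ∀ a, A a → ∀ l t : ℝ,
      (∫⁻ ξ, ‖extn (fun x => a x * Complex.exp (((l * f x : ℝ) : ℂ) * Complex.I)) ξ‖ₑ ^ p ≤ C) ∧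
      (∫⁻ ξ, ‖extn (fun x => a x * (Complex.exp (((l * f x : ℝ) : ℂ) * Complex.I) *
        (if t < f x then 1 else 0))) ξ‖ₑ ^ p ≤ C) ∧
      (∫⁻ ξ, ‖extn (fun x => a x * (Complex.exp (((l * f x : ℝ) : ℂ) * Complex.I) *
        (if f x < t then 1 else 0))) ξ‖ₑ ^ p ≤ C) :=
  half_lines_amp f p A fun N => cuts_amp_of p0 hp0 f hf hs A hA H N p hp

/-- Cuts with amplitudes for almost every phase: the exceptional set depends on `φ` only (it is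
the set where the sublevel estimate fails). -/
theorem ae_cuts_amp (d : ℕ) (hd : 1 ≤ d) (φ : E (d + 1) → ℝ) (hφ : Continuous φ) :
    ∀ᵐ b : Fin (d + 1) → ℝ, ∀ (p0 : ℝ), 1 ≤ p0 → ∀ (A : (E (d + 1) → ℂ) → Prop),
      (∀ a, A a → Measurable a ∧ ∀ x, ‖a x‖ ≤ 1) →
      (∀ p : ℝ, p0 < p → ∃ C : ℝ≥0∞, C ≠ ⊤ ∧ ∀ a, A a → ∀ c : ℝ,
        ∫⁻ ξ, ‖extn (fun x => a x * Complex.exp (((c * pb φ b x : ℝ) : ℂ) * Complex.I)) ξ‖ₑ ^ p
          ≤ C) →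
      ∀ p : ℝ, p0 < p → ∃ C : ℝ≥0∞, C ≠ ⊤ ∧ ∀ a, A a → ∀ l t : ℝ,
        (∫⁻ ξ, ‖extn (fun x => a x *
          Complex.exp (((l * pb φ b x : ℝ) : ℂ) * Complex.I)) ξ‖ₑ ^ p ≤ C) ∧
        (∫⁻ ξ, ‖extn (fun x => a x * (Complex.exp (((l * pb φ b x : ℝ) : ℂ) * Complex.I) *
          (if t < pb φ b x then 1 else 0))) ξ‖ₑ ^ p ≤ C) ∧
        (∫⁻ ξ, ‖extn (fun x => a x * (Complex.exp (((l * pb φ b x : ℝ) : ℂ) * Complex.I) *
          (if pb φ b x < t then 1 else 0))) ξ‖ₑ ^ p ≤ C) := by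
  filter_upwards [ae_sublevel d hd φ hφ] with b hs p0 hp0 A hA H p hp
  refine half_lines_amp_of p0 hp0 (pb φ b) ?_ hs A hA H p hp
  unfold pb
  fun_prop

end Pool.Agent.GNP
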