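import Pool.Agent.GNP.BV
import Pool.Agent.GNP.Defs3

/-!
From cuts to functions of bounded variation, with amplitudes.
-/

namespace Pool.Agent.GNP

open MeasureTheory Set Pool.Agent.MP_6cbfb8_an
open scoped ENNReal Real

/-- There is a finite `C` such that `∫ |(gσ)^|^p ≤ C ‖ν‖^p` for all superpositions
`g(x) = ∫ e^{2πi⟨η_w, x⟩} F_w(R_w x) dν(w)`, where the `R_w` are linear isometries and
`F_w(x) = a_w(x) e^{i l_w φ(x)} B_w(φ(x))` with `|B_w| ≤ 1` of total variation at most 1 and with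
amplitudes `a_w` in the class `A`. -/
def BdC (n : ℕ) (A : (E n → ℂ) → Prop) (φ : E n → ℝ) (p : ℝ) : Prop :=
  ∃ C : ℝ≥0∞, C ≠ ∞ ∧
    ∀ (W : Type) (_ : MeasurableSpace W) (ν : Measure W) (_ : IsFiniteMeasure ν)
      (R : W → E n ≃ₗᵢ[ℝ] E n) (η : W → E n) (l : W → ℝ) (B : W → ℝ → ℂ) (a : W → E n → ℂ),
      (Measurable fun q : W × E n => R q.1 q.2) → Measurable η → Measurable l →
      (Measurable fun q : W × ℝ => B q.1 q.2) → (Measurable fun q : W × E n => a q.1 q.2) →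
      (∀ w t, ‖B w t‖ ≤ 1) → (∀ w, eVariationOn (B w) univ ≤ 1) → (∀ w, A (a w)) →
      ∫⁻ ξ, ‖extn (mix ν R η fun w x => a w x *
        (Complex.exp (((l w * φ x : ℝ) : ℂ) * Complex.I) * B w (φ x))) ξ‖ₑ ^ p ≤ C * ν univ ^ p

/-- The class of the amplitudes bounded by one with `L¹`-modulus of order `s` on the sphere. -/
def BdA (n : ℕ) (s V : ℝ) (φ : E n → ℝ) (p : ℝ) : Prop :=
  ∃ C : ℝ≥0∞, C ≠ ∞ ∧
    ∀ (W : Type) (_ : MeasurableSpace W) (ν : Measure W) (_ : IsFiniteMeasure ν)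
      (R : W → E n ≃ₗᵢ[ℝ] E n) (η : W → E n) (l : W → ℝ) (B : W → ℝ → ℂ) (a : W → E n → ℂ),
      (Measurable fun q : W × E n => R q.1 q.2) → Measurable η → Measurable l →
      (Measurable fun q : W × ℝ => B q.1 q.2) → (Measurable fun q : W × E n => a q.1 q.2) →
      (∀ w t, ‖B w t‖ ≤ 1) → (∀ w, eVariationOn (B w) univ ≤ 1) →
      (∀ w x, ‖a w x‖ ≤ 1) → (∀ w, BVn n s V (a w)) →
      ∫⁻ ξ, ‖extn (mix ν R η fun w x => a w x *
        (Complex.exp (((l w * φ x : ℝ) : ℂ) * Complex.I) * B w (φ x))) ξ‖ₑ ^ p ≤ C * ν univ ^ p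

section

variable {n : ℕ}

/-- Half lines. -/
lemma gv_upper (φ : E n → ℝ) (hφ : Measurable φ) {G : E n → ℂ} (hG : Measurable G)
    (hG1 : ∀ x, ‖G x‖ ≤ 1) {p : ℝ} (hp : 1 ≤ p) {C : ℝ≥0∞}
    (H0 : ∫⁻ ξ, ‖extn G ξ‖ₑ ^ p ≤ C)
    (H1 : ∀ t : ℝ, ∫⁻ ξ, ‖extn (fun x => G x * if t < φ x then 1 else 0) ξ‖ₑ ^ p ≤ C)
    (H2 : ∀ t : ℝ, ∫⁻ ξ, ‖extn (fun x => G x * if φ x < t then 1 else 0) ξ‖ₑ ^ p ≤ C)
    (U : Set ℝ) (hU : IsUpperSet U) [DecidablePred (· ∈ U)] :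
    ∫⁻ ξ, ‖extn (fun x => G x * if φ x ∈ U then 1 else 0) ξ‖ₑ ^ p ≤ 2 ^ p * C := by
  have hC : C ≤ 2 ^ p * C := by
    refine le_mul_of_one_le_left bot_le ?_
    exact ENNReal.one_le_rpow (by norm_num) (by linarith)
  rcases upper_cases U hU with h | h | ⟨t, h⟩ | ⟨t, h⟩
  · have h1 : (fun x => G x * if φ x ∈ U then (1:ℂ) else 0) = fun x => (0:ℂ) * 0 := by
      funext x
      rw [if_neg (by rw [h]; exact notMem_empty _), mul_zero, mul_zero]
    rw [h1]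
    have h3 : ∀ ξ : E n, ‖extn (fun x : E n => (0:ℂ) * 0) ξ‖ₑ ^ p = 0 := by
      intro ξ
      rw [bv_extn_mul, zero_mul, enorm_zero, ENNReal.zero_rpow_of_pos (by linarith)]
    simp only [h3, lintegral_zero, zero_le]
  · have h1 : (fun x => G x * if φ x ∈ U then (1:ℂ) else 0) = G := by
      funext x
      rw [if_pos (by rw [h]; exact mem_univ _), mul_one]
    rw [h1]
    exact H0.trans hC
  · have h1 : (fun x => G x * if φ x ∈ U then (1:ℂ) else 0) =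
        fun x => G x * if t < φ x then 1 else 0 := by
      funext x
      simp only [h, mem_Ioi]
    rw [h1]
    exact (H1 t).trans hC
  · have h1 : (fun x => G x * if φ x ∈ U then (1:ℂ) else 0) = fun x => G x +
        (-1) * (G x * if φ x < t then 1 else 0) := by
      funext x
      simp only [h, mem_Ici]
      by_cases h2 : t ≤ φ x
      · rw [if_pos h2, if_neg (not_lt.2 h2)]
        ring
      · rw [if_neg h2, if_pos (not_le.1 h2)]
        ring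
    rw [h1]
    have hcm : Measurable fun x : E n => G x * if φ x < t then 1 else 0 :=
      hG.mul (Measurable.ite (measurableSet_lt hφ measurable_const) measurable_const
        measurable_const)
    refine bv_add (K := 1) (K' := 1) hG (hcm.const_mul _) hG1 ?_ hp H0 ?_
    · intro x
      rw [norm_mul, norm_mul, norm_neg, norm_one, one_mul]
      refine mul_le_one₀ (hG1 x) (norm_nonneg _) ?_
      split_ifs <;> simp
    · refine le_trans (bv_mul (-1) (a := 1) (by simp) (by linarith) (by simp) (H2 t)) ?_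
      rw [ENNReal.one_rpow, one_mul]

/-- Monotone functions. -/
lemma gv_mono (φ : E n → ℝ) (hφ : Measurable φ) {G : E n → ℂ} (hG : Measurable G)
    (hG1 : ∀ x, ‖G x‖ ≤ 1) {p : ℝ} (hp : 1 ≤ p) {C : ℝ≥0∞}
    (H0 : ∫⁻ ξ, ‖extn G ξ‖ₑ ^ p ≤ C)
    (H1 : ∀ t : ℝ, ∫⁻ ξ, ‖extn (fun x => G x * if t < φ x then 1 else 0) ξ‖ₑ ^ p ≤ C)
    (H2 : ∀ t : ℝ, ∫⁻ ξ, ‖extn (fun x => G x * if φ x < t then 1 else 0) ξ‖ₑ ^ p ≤ C)
    (M : ℝ → ℝ) (hM : Monotone M) (hM0 : ∀ t, 0 ≤ M t) (hM1 : ∀ t, M t ≤ 1) :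
    ∫⁻ ξ, ‖extn (fun x => G x * (M (φ x) : ℂ)) ξ‖ₑ ^ p ≤ 2 ^ p * C := by
  classical
  have hMm : Measurable fun x : E n => M (φ x) := hM.measurable.comp hφ
  have key := lintegral_mix_le (n := n) hp (C := 2 ^ p * C)
    (fun g => ∃ U : Set ℝ, IsUpperSet U ∧ g = fun x => G x * if φ x ∈ U then 1 else 0)
    (by
      rintro g _ _ ⟨U, hU, rfl⟩
      exact gv_upper φ hφ hG hG1 hp H0 H1 H2 U hU)
    ((volume : Measure ℝ).restrict (Ioc 0 1)) (fun _ => LinearIsometryEquiv.refl ℝ (E n))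
    (fun _ => 0) (fun s x => G x * if s < M (φ x) then 1 else 0)
    (by simpa using measurable_snd) measurable_const
    (by
      simp only [Function.uncurry_def]
      refine (hG.comp measurable_snd).mul (Measurable.ite (measurableSet_lt measurable_fst
        (hMm.comp measurable_snd)) measurable_const measurable_const))
    (by
      intro s x
      rw [norm_mul]
      refine mul_le_one₀ (hG1 x) (norm_nonneg _) ?_
      split_ifs <;> simp)
    (by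
      intro s
      refine ⟨{t | s < M t}, fun a b hab ha => lt_of_lt_of_le ha (hM hab), ?_⟩
      funext x
      simp only [mem_ofPred_eq])
  have hν : ((volume : Measure ℝ).restrict (Ioc 0 1)) univ = 1 := by
    rw [Measure.restrict_apply MeasurableSet.univ, univ_inter, Real.volume_Ioc]
    simp
  rw [hν, ENNReal.one_rpow, mul_one] at key
  refine le_trans (le_of_eq ?_) key
  refine lintegral_congr fun ξ => ?_
  congr 3
  funext x
  unfold mix
  have h3 : ∀ s : ℝ, Complex.exp (((2 * π * inner ℝ x (0 : E n) : ℝ) : ℂ) * Complex.I) *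
      (G ((LinearIsometryEquiv.refl ℝ (E n)) x) *
        if s < M (φ ((LinearIsometryEquiv.refl ℝ (E n)) x)) then 1 else 0) =
      G x * ((if s < M (φ x) then (1:ℝ) else 0 : ℝ) : ℂ) := by
    intro s
    rw [inner_zero_right, mul_zero, Complex.ofReal_zero, zero_mul, Complex.exp_zero, one_mul]
    simp only [LinearIsometryEquiv.coe_refl, id_eq]
    by_cases h : s < M (φ x)
    · simp [h]
    · simp [h]
  simp only [h3]
  rw [integral_const_mul, integral_complex_ofReal]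
  congr 2
  have h4 : (fun s : ℝ => if s < M (φ x) then (1:ℝ) else 0) =
      (Iio (M (φ x))).indicator (fun _ => (1:ℝ)) := by
    funext s
    simp only [indicator, mem_Iio]
  rw [h4, integral_indicator measurableSet_Iio, setIntegral_const, smul_eq_mul, mul_one,
    measureReal_restrict_apply measurableSet_Iio]
  have h6 : Iio (M (φ x)) ∩ Ioc 0 1 = Ioo 0 (M (φ x)) := by
    ext s
    simp only [mem_inter_iff, mem_Iio, mem_Ioc, mem_Ioo]
    constructor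
    · rintro ⟨h7, h8, -⟩
      exact ⟨h8, h7⟩
    · rintro ⟨h7, h8⟩
      exact ⟨h8, h7, h8.le.trans (hM1 _)⟩
  rw [h6, Real.volume_real_Ioo_of_le (hM0 _), sub_zero]

/-- Functions of bounded variation. -/
theorem gv_single (φ : E n → ℝ) (hφ : Measurable φ) {G : E n → ℂ} (hG : Measurable G)
    (hG1 : ∀ x, ‖G x‖ ≤ 1) {p : ℝ} (hp : 1 ≤ p) {C : ℝ≥0∞}
    (H0 : ∫⁻ ξ, ‖extn G ξ‖ₑ ^ p ≤ C)
    (H1 : ∀ t : ℝ, ∫⁻ ξ, ‖extn (fun x => G x * if t < φ x then 1 else 0) ξ‖ₑ ^ p ≤ C)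
    (H2 : ∀ t : ℝ, ∫⁻ ξ, ‖extn (fun x => G x * if φ x < t then 1 else 0) ξ‖ₑ ^ p ≤ C)
    (B : ℝ → ℂ) (hB : ∀ t, ‖B t‖ ≤ 1) (hv : eVariationOn B univ ≤ 1) :
    ∫⁻ ξ, ‖extn (fun x => G x * B (φ x)) ξ‖ₑ ^ p ≤
      2 ^ p * (2 ^ p * (2 ^ p * (3 ^ p * (2 ^ p * C)))) := by
  have h2p : (1:ℝ≥0∞) ≤ 2 ^ p := ENNReal.one_le_rpow (by norm_num) (by linarith)
  have hup : ∀ D : ℝ≥0∞, D ≤ 2 ^ p * D := fun D => le_mul_of_one_le_left bot_le h2p
  obtain ⟨V1, M1, hV1, hM1, hV1a, hV1b, hM1a, hM1b, hf1⟩ := jordan (fun t => (B t).re) (by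
    refine le_trans ?_ hv
    unfold eVariationOn
    refine iSup_mono fun q => Finset.sum_le_sum fun i _ => ?_
    rw [edist_dist, edist_dist]
    refine ENNReal.ofReal_le_ofReal ?_
    rw [Real.dist_eq, Complex.dist_eq, ← Complex.sub_re]
    exact Complex.abs_re_le_norm _) (fun t => (Complex.abs_re_le_norm _).trans (hB t))
  obtain ⟨V2, M2, hV2, hM2, hV2a, hV2b, hM2a, hM2b, hf2⟩ := jordan (fun t => (B t).im) (by
    refine le_trans ?_ hv
    unfold eVariationOn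
    refine iSup_mono fun q => Finset.sum_le_sum fun i _ => ?_
    rw [edist_dist, edist_dist]
    refine ENNReal.ofReal_le_ofReal ?_
    rw [Real.dist_eq, Complex.dist_eq, ← Complex.sub_im]
    exact Complex.abs_im_le_norm _) (fun t => (Complex.abs_im_le_norm _).trans (hB t))
  have hmon := fun (M : ℝ → ℝ) (hM : Monotone M) (h0 : ∀ t, 0 ≤ M t) (h1 : ∀ t, M t ≤ 1) =>
    gv_mono φ hφ hG hG1 hp H0 H1 H2 M hM h0 h1
  have hmm : ∀ (c : ℂ) (M : ℝ → ℝ), Monotone M → Measurable fun x : E n =>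
      c * (G x * (M (φ x) : ℂ)) := by
    intro c M hM
    exact (hG.mul (Complex.measurable_ofReal.comp (hM.measurable.comp hφ))).const_mul c
  have hbb : ∀ (c : ℂ) (M : ℝ → ℝ), (∀ t, 0 ≤ M t) → (∀ t, M t ≤ 1) → ∀ x : E n,
      ‖c * (G x * (M (φ x) : ℂ))‖ ≤ ‖c‖ := by
    intro c M h0 h1 x
    rw [norm_mul, norm_mul, Complex.norm_real, Real.norm_eq_abs, abs_of_nonneg (h0 _)]
    exact mul_le_of_le_one_right (norm_nonneg _) (mul_le_one₀ (hG1 x) (h0 _) (h1 _))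
  have hb3 : ∀ c : ℂ, ‖c‖ ≤ 3 → ‖c‖ₑ ≤ 3 := by
    intro c hc
    rw [← ofReal_norm]
    refine (ENNReal.ofReal_le_ofReal hc).trans ?_
    norm_num
  have hone : ∀ (c : ℂ), ‖c‖ ≤ 3 → ∀ (M : ℝ → ℝ), Monotone M → (∀ t, 0 ≤ M t) →
      (∀ t, M t ≤ 1) → ∫⁻ ξ, ‖extn (fun x => c * (G x * (M (φ x) : ℂ))) ξ‖ₑ ^ p ≤
        3 ^ p * (2 ^ p * C) := by
    intro c hc M hM h0 h1
    exact bv_mul c (hb3 c hc) (by linarith) (by norm_num) (hmon M hM h0 h1)
  have hI : ‖(1 + Complex.I : ℂ)‖ ≤ 3 := by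
    refine (norm_add_le _ _).trans ?_
    rw [norm_one, Complex.norm_I]
    norm_num
  have h12 := bv_add (K := ‖(1:ℂ)‖) (K' := ‖(-3:ℂ)‖) (hmm 1 V1 hV1) (hmm (-3) M1 hM1)
    (hbb 1 V1 hV1a hV1b) (hbb (-3) M1 hM1a hM1b) hp (hone 1 (by norm_num) V1 hV1 hV1a hV1b)
    (hone (-3) (by norm_num) M1 hM1 hM1a hM1b)
  have h34 := bv_add (K := ‖Complex.I‖) (K' := ‖(-3 * Complex.I:ℂ)‖) (hmm Complex.I V2 hV2)
    (hmm (-3 * Complex.I) M2 hM2) (hbb Complex.I V2 hV2a hV2b) (hbb (-3 * Complex.I) M2 hM2a hM2b)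
    hp (hone Complex.I (by rw [Complex.norm_I]; norm_num) V2 hV2 hV2a hV2b)
    (hone (-3 * Complex.I) (by rw [norm_mul, Complex.norm_I]; norm_num) M2 hM2 hM2a hM2b)
  have h5 := hone (1 + Complex.I) hI (fun _ => 1) monotone_const (fun _ => zero_le_one)
    (fun _ => le_rfl)
  have h1234 := bv_add (K := ‖(1:ℂ)‖ + ‖(-3:ℂ)‖) (K' := ‖Complex.I‖ + ‖(-3 * Complex.I:ℂ)‖)
    ((hmm 1 V1 hV1).add (hmm (-3) M1 hM1)) ((hmm Complex.I V2 hV2).add (hmm (-3 * Complex.I) M2 hM2))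
    (fun x => (norm_add_le _ _).trans (add_le_add (hbb 1 V1 hV1a hV1b x) (hbb (-3) M1 hM1a hM1b x)))
    (fun x => (norm_add_le _ _).trans (add_le_add (hbb Complex.I V2 hV2a hV2b x)
      (hbb (-3 * Complex.I) M2 hM2a hM2b x))) hp h12 h34
  have hall := bv_add (K := (‖(1:ℂ)‖ + ‖(-3:ℂ)‖) + (‖Complex.I‖ + ‖(-3 * Complex.I:ℂ)‖))
    (K' := ‖(1 + Complex.I : ℂ)‖)
    (((hmm 1 V1 hV1).add (hmm (-3) M1 hM1)).add
      ((hmm Complex.I V2 hV2).add (hmm (-3 * Complex.I) M2 hM2)))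
    (hmm (1 + Complex.I) (fun _ => 1) monotone_const)
    (fun x => (norm_add_le _ _).trans (add_le_add
      ((norm_add_le _ _).trans (add_le_add (hbb 1 V1 hV1a hV1b x) (hbb (-3) M1 hM1a hM1b x)))
      ((norm_add_le _ _).trans (add_le_add (hbb Complex.I V2 hV2a hV2b x)
      (hbb (-3 * Complex.I) M2 hM2a hM2b x)))))
    (hbb (1 + Complex.I) (fun _ => 1) (fun _ => zero_le_one) (fun _ => le_rfl)) hp h1234
    (h5.trans ((hup _).trans (hup _)))
  refine le_trans (le_of_eq ?_) hall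
  refine lintegral_congr fun ξ => ?_
  congr 3
  funext x
  have h6 : B (φ x) = ((B (φ x)).re : ℂ) + ((B (φ x)).im : ℂ) * Complex.I :=
    (Complex.re_add_im _).symm
  rw [h6, show (B (φ x)).re = _ from hf1 (φ x), show (B (φ x)).im = _ from hf2 (φ x)]
  simp only [Pi.add_apply]
  push_cast
  ring

/-- The bound for all superpositions with amplitudes, from the bounds for exponentials with one
cut. -/
theorem bdC_of_cuts (A : (E n → ℂ) → Prop) (hA : ∀ a, A a → Measurable a ∧ ∀ x, ‖a x‖ ≤ 1)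
    (φ : E n → ℝ) (hφ : Measurable φ) {p : ℝ} (hp : 1 ≤ p) {C : ℝ≥0∞} (hC : C ≠ ∞)
    (H0 : ∀ a, A a → ∀ l : ℝ, ∫⁻ ξ, ‖extn (fun x => a x *
      Complex.exp (((l * φ x : ℝ) : ℂ) * Complex.I)) ξ‖ₑ ^ p ≤ C)
    (H1 : ∀ a, A a → ∀ l t : ℝ, ∫⁻ ξ, ‖extn (fun x => a x *
      (Complex.exp (((l * φ x : ℝ) : ℂ) * Complex.I) * if t < φ x then 1 else 0)) ξ‖ₑ ^ p ≤ C)
    (H2 : ∀ a, A a → ∀ l t : ℝ, ∫⁻ ξ, ‖extn (fun x => a x *
      (Complex.exp (((l * φ x : ℝ) : ℂ) * Complex.I) * if φ x < t then 1 else 0)) ξ‖ₑ ^ p ≤ C) :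
    BdC n A φ p := by
  have h2 : (2:ℝ≥0∞) ^ p ≠ ∞ := ENNReal.rpow_ne_top_of_nonneg (by linarith) (by norm_num)
  have h3 : (3:ℝ≥0∞) ^ p ≠ ∞ := ENNReal.rpow_ne_top_of_nonneg (by linarith) (by norm_num)
  have hem : ∀ l : ℝ, Measurable fun x : E n => Complex.exp (((l * φ x : ℝ) : ℂ) * Complex.I) := by
    intro l
    have h2 : Measurable fun x : E n => (l * φ x : ℝ) := measurable_const.mul hφ
    exact Complex.measurable_exp.comp ((Complex.measurable_ofReal.comp h2).mul_const _)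
  refine ⟨2 ^ p * (2 ^ p * (2 ^ p * (3 ^ p * (2 ^ p * C)))),
    ENNReal.mul_ne_top h2 (ENNReal.mul_ne_top h2 (ENNReal.mul_ne_top h2 (ENNReal.mul_ne_top h3
      (ENNReal.mul_ne_top h2 hC)))), fun W _ ν _ R η l B a hR hη hl hBm ham hB hv hAa => ?_⟩
  refine lintegral_mix_le hp (fun g => ∃ (a : E n → ℂ) (c : ℝ) (b : ℝ → ℂ), A a ∧
    (∀ t, ‖b t‖ ≤ 1) ∧ eVariationOn b univ ≤ 1 ∧
    g = fun x => a x * (Complex.exp (((c * φ x : ℝ) : ℂ) * Complex.I) * b (φ x)))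
    ?_ ν R η (fun w x => a w x * (Complex.exp (((l w * φ x : ℝ) : ℂ) * Complex.I) * B w (φ x)))
    hR hη ?_ ?_ fun w => ⟨a w, l w, B w, hAa w, hB w, hv w, rfl⟩
  · rintro g _ _ ⟨a, c, b, ha, hb, hbv, rfl⟩
    obtain ⟨ham, ha1⟩ := hA a ha
    have key := gv_single φ hφ (G := fun x => a x *
        Complex.exp (((c * φ x : ℝ) : ℂ) * Complex.I)) (ham.mul (hem c))
      (fun x => by
        rw [norm_mul, Complex.norm_exp_ofReal_mul_I, mul_one]
        exact ha1 x) hp (H0 a ha c)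
      (fun t => by
        simp only [mul_assoc]
        exact H1 a ha c t)
      (fun t => by
        simp only [mul_assoc]
        exact H2 a ha c t) b hb hbv
    simp only [mul_assoc] at key ⊢
    exact key
  · simp only [Function.uncurry_def]
    have h4 : Measurable fun q : W × E n => (l q.1 * φ q.2 : ℝ) :=
      (hl.comp measurable_fst).mul (hφ.comp measurable_snd)
    have h5 : Measurable fun q : W × E n => B q.1 (φ q.2) :=
      hBm.comp (f := fun q : W × E n => (q.1, φ q.2))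
        (measurable_fst.prodMk (hφ.comp measurable_snd))
    exact ham.mul ((Complex.measurable_exp.comp
      ((Complex.measurable_ofReal.comp h4).mul_const _)).mul h5)
  · intro w x
    rw [norm_mul, norm_mul, Complex.norm_exp_ofReal_mul_I, one_mul]
    exact mul_le_one₀ ((hA _ (hAa w)).2 x) (norm_nonneg _) (hB w _)

/-- The same for the amplitudes with `L¹`-modulus of order `s`. -/
theorem bdA_of_cuts (s V : ℝ) (φ : E n → ℝ) (hφ : Measurable φ) {p : ℝ} (hp : 1 ≤ p) {C : ℝ≥0∞}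
    (hC : C ≠ ∞)
    (H : ∀ a : E n → ℂ, Measurable a → (∀ x, ‖a x‖ ≤ 1) → BVn n s V a → ∀ l t : ℝ,
      (∫⁻ ξ, ‖extn (fun x => a x *
        Complex.exp (((l * φ x : ℝ) : ℂ) * Complex.I)) ξ‖ₑ ^ p ≤ C) ∧
      (∫⁻ ξ, ‖extn (fun x => a x *
        (Complex.exp (((l * φ x : ℝ) : ℂ) * Complex.I) * if t < φ x then 1 else 0)) ξ‖ₑ ^ p ≤ C) ∧
      (∫⁻ ξ, ‖extn (fun x => a x *
        (Complex.exp (((l * φ x : ℝ) : ℂ) * Complex.I) * if φ x < t then 1 else 0)) ξ‖ₑ ^ p ≤ C)) :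
    BdA n s V φ p := by
  obtain ⟨C', hC', h⟩ := bdC_of_cuts
    (fun a : E n → ℂ => Measurable a ∧ (∀ x, ‖a x‖ ≤ 1) ∧ BVn n s V a)
    (fun a ha => ⟨ha.1, ha.2.1⟩) φ hφ hp hC
    (fun a ha l => (H a ha.1 ha.2.1 ha.2.2 l 0).1)
    (fun a ha l t => (H a ha.1 ha.2.1 ha.2.2 l t).2.1)
    (fun a ha l t => (H a ha.1 ha.2.1 ha.2.2 l t).2.2)
  refine ⟨C', hC', fun W _ ν _ R η l B a hR hη hl hBm ham hB hv ha1 hbv => ?_⟩
  exact h W ‹_› ν ‹_› R η l B a hR hη hl hBm ham hB hv fun w =>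
    ⟨ham.comp (f := fun x : E n => (w, x)) (by fun_prop), ha1 w, hbv w⟩

/-- Without amplitudes: the constant one. -/
theorem BdA.bd {s V : ℝ} {φ : E n → ℝ} {p : ℝ} (h : BdA n s V φ p) : Bd n φ p := by
  obtain ⟨C, hC, h⟩ := h
  refine ⟨C, hC, fun W _ ν _ R η l B hR hη hl hBm hB hv => ?_⟩
  refine le_trans (le_of_eq ?_) (h W _ ν ‹_› R η l B (fun _ _ => 1) hR hη hl hBm measurable_const hB
    hv (fun _ _ => by simp) fun _ r hr => ?_)
  · simp only [one_mul]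
  · simp

end

end Pool.Agent.GNP
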