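import Pool.Agent.GNP.PUe

/-!
Row PU, deterministic form: the estimate for the whole sphere follows from the estimates in the
`2n` charts (for the transformed phases and the permuted coefficients).
-/

namespace Pool.Agent.GNP

open MeasureTheory Set Pool.Agent.MP_6cbfb8_an
open scoped ENNReal Real RealInnerProductSpace ContDiff

/-- The estimate for amplitudes supported in the upper chart. -/
def Chart (d : ℕ) (r : ℝ) (φ : E (d + 1) → ℝ) (b : Fin (d + 1) → ℝ) : Prop :=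
  ∀ a : E (d + 1) → ℂ, ContDiff ℝ ∞ a →
    (∀ (y : E d) (t : ℝ), ‖y‖ ^ 2 + t ^ 2 = 1 → (r < ‖y‖ ∨ t ≤ 0) → a (join y t) = 0) →
    ∀ p : ℝ, 2 * ((d : ℝ) + 1) / d < p → ∃ C : ℝ≥0∞, C ≠ ⊤ ∧ ∀ c : ℝ,
      ∫⁻ ξ, ‖extn (fun x => a x * Complex.exp (((c * pb φ b x : ℝ) : ℂ) * Complex.I)) ξ‖ₑ ^ p ≤ C

/-- The estimate for all amplitudes. -/
def Full (d : ℕ) (φ : E (d + 1) → ℝ) (b : Fin (d + 1) → ℝ) : Prop :=
  ∀ a : E (d + 1) → ℂ, ContDiff ℝ ∞ a → ∀ p : ℝ, 2 * ((d : ℝ) + 1) / d < p →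
    ∃ C : ℝ≥0∞, C ≠ ⊤ ∧ ∀ c : ℝ,
      ∫⁻ ξ, ‖extn (fun x => a x * Complex.exp (((c * pb φ b x : ℝ) : ℂ) * Complex.I)) ξ‖ₑ ^ p ≤ C

/-- The phase in the chart at the coordinate `j` with the sign `e`. -/
noncomputable def phc {d : ℕ} (φ : E (d + 1) → ℝ) (j : Fin (d + 1)) (e : Bool) (x : E (d + 1)) : ℝ :=
  φ (if e then pis (Equiv.swap j (Fin.last d)) x else - pis (Equiv.swap j (Fin.last d)) x)

/-- The coefficients in the chart at the coordinate `j`. -/
def bpc {d : ℕ} (b : Fin (d + 1) → ℝ) (j : Fin (d + 1)) : Fin (d + 1) → ℝ :=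
  fun i => b (Equiv.swap j (Fin.last d) i)

theorem contDiff_phc {d : ℕ} {φ : E (d + 1) → ℝ} (hφ : ContDiff ℝ ∞ φ) (j : Fin (d + 1))
    (e : Bool) : ContDiff ℝ ∞ (phc φ j e) := by
  unfold phc
  cases e
  · simp only [Bool.false_eq_true, if_false]
    exact hφ.comp ((pis (Equiv.swap j (Fin.last d))).contDiff.neg)
  · simp only [if_true]
    exact hφ.comp (pis (Equiv.swap j (Fin.last d))).contDiff

theorem pb_phc {d : ℕ} (φ : E (d + 1) → ℝ) (b : Fin (d + 1) → ℝ) (j : Fin (d + 1)) (e : Bool)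
    (x : E (d + 1)) : pb φ b (if e then pis (Equiv.swap j (Fin.last d)) x
      else - pis (Equiv.swap j (Fin.last d)) x) = pb (phc φ j e) (bpc b j) x := by
  cases e
  · simp only [Bool.false_eq_true, if_false]
    rw [pb_neg, pb_pis]
    rfl
  · simp only [if_true]
    rw [pb_pis]
    rfl

/-- The isometry of the chart. -/
noncomputable def isc {d : ℕ} (j : Fin (d + 1)) (e : Bool) : E (d + 1) ≃ₗᵢ[ℝ] E (d + 1) :=
  if e then pis (Equiv.swap j (Fin.last d)) else
    (pis (Equiv.swap j (Fin.last d))).trans (LinearIsometryEquiv.neg ℝ)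

theorem isc_apply {d : ℕ} (j : Fin (d + 1)) (e : Bool) (x : E (d + 1)) :
    isc j e x = if e then pis (Equiv.swap j (Fin.last d)) x
      else - pis (Equiv.swap j (Fin.last d)) x := by
  unfold isc
  cases e <;> simp

theorem chart_local (d : ℕ) (φ : E (d + 1) → ℝ) (b : Fin (d + 1) → ℝ) (δ : ℝ) (hδ : 0 < δ)
    (hδ1 : δ < 1) (j : Fin (d + 1)) (e : Bool)
    (H : Chart d √(1 - δ ^ 2) (phc φ j e) (bpc b j)) (a : E (d + 1) → ℂ) (ha : ContDiff ℝ ∞ a)
    (hs : ∀ x : E (d + 1), ‖x‖ = 1 → a x ≠ 0 → δ ≤ if e then x j else - x j)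
    (p : ℝ) (hp : 2 * ((d : ℝ) + 1) / d < p) : ∃ C : ℝ≥0∞, C ≠ ⊤ ∧ ∀ c : ℝ,
      ∫⁻ ξ, ‖extn (fun x => a x *
        Complex.exp (((c * pb φ b x : ℝ) : ℂ) * Complex.I)) ξ‖ₑ ^ p ≤ C := by
  obtain ⟨C, hC, hCb⟩ := H (fun x => a (isc j e x)) (ha.comp (isc j e).contDiff) (by
    intro y t hyt hc
    by_contra hne
    have hn : ‖join y t‖ = 1 := by
      have h2 : ‖join y t‖ ^ 2 = 1 := by rw [norm_join_sq, hyt]
      nlinarith [norm_nonneg (join y t)]
    have h3 := hs (isc j e (join y t)) (by rw [LinearIsometryEquiv.norm_map, hn]) hne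
    have h4 : (if e then (isc j e (join y t)) j else - (isc j e (join y t)) j) = t := by
      rw [isc_apply]
      cases e <;> simp [pis_apply, Equiv.symm_swap, join]
    rw [h4] at h3
    rcases hc with hc | hc
    · have h5 : ‖y‖ ≤ √(1 - δ ^ 2) := by
        apply Real.le_sqrt_of_sq_le
        nlinarith
      linarith
    · linarith) p hp
  refine ⟨C, hC, fun c => ?_⟩
  refine le_trans (le_of_eq ?_) (hCb c)
  rw [← lint_extn_iso _ (isc j e)]
  refine lintegral_congr fun ξ => ?_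
  congr 3
  funext x
  rw [← pb_phc, ← isc_apply]

/-- The radius of the charts. -/
noncomputable def rch (d : ℕ) : ℝ := √(1 - (1 / (2 * √((d : ℝ) + 1))) ^ 2)

theorem delta_lt (d : ℕ) : 0 < 1 / (2 * √((d : ℝ) + 1)) ∧ 1 / (2 * √((d : ℝ) + 1)) < 1 := by
  have hn : (0 : ℝ) < (d : ℝ) + 1 := by positivity
  have hs : 0 < √((d : ℝ) + 1) := Real.sqrt_pos.2 hn
  refine ⟨by positivity, ?_⟩
  rw [div_lt_one (by positivity)]
  have : 1 ≤ √((d : ℝ) + 1) := by
    rw [Real.one_le_sqrt]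
    have : (0 : ℝ) ≤ d := Nat.cast_nonneg d
    linarith
  linarith

theorem rch_pos (d : ℕ) : 0 < rch d := by
  obtain ⟨h0, h1⟩ := delta_lt d
  exact Real.sqrt_pos.mpr (by nlinarith)

theorem rch_lt (d : ℕ) : rch d < 1 := by
  obtain ⟨h0, h1⟩ := delta_lt d
  unfold rch
  rw [Real.sqrt_lt' one_pos]
  nlinarith

/-- The whole sphere from the charts. -/
theorem full_of_charts (d : ℕ) (hd : 1 ≤ d) (φ : E (d + 1) → ℝ) (hφ : Continuous φ)
    (b : Fin (d + 1) → ℝ)
    (H : ∀ (j : Fin (d + 1)) (e : Bool), Chart d (rch d) (phc φ j e) (bpc b j)) : Full d φ b := by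
  obtain ⟨hδ0, hδ1⟩ := delta_lt d
  intro a ha
  have h1 := peel hd hφ (b := b) (cu (d := d)) Finset.univ contDiff_cu ?_ a ha
  · have h2 : Good d φ b a := h1.congr fun x => by
      rw [prod_cu (x : E (d + 1)) (by simp)]
      simp
    exact h2
  · rintro ⟨j, e⟩ - a ha p hp
    refine chart_local d φ b _ hδ0 hδ1 j e (H j e) _
      ((Complex.ofRealCLM.contDiff.comp (contDiff_cu (j, e))).mul ha) ?_ p hp
    intro x _ hne
    by_contra hcon
    push Not at hcon
    apply hne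
    have h3 : cu (j, e) x = 0 := by
      unfold cu
      apply Real.smoothTransition.zero_of_nonpos
      simp only
      have hs : 0 < √((d : ℝ) + 1) := Real.sqrt_pos.2 (by positivity)
      have h4 : (if e = true then x j else - x j) * (2 * √((d : ℝ) + 1)) ≤ 1 :=
        ((lt_div_iff₀ (by positivity)).1 hcon).le
      linarith
    simp only [Function.comp_apply, h3]
    simp

/-- The exceptional set is covered by `2n` permuted exceptional sets of the chart. -/
theorem not_full_subset (d : ℕ) (hd : 1 ≤ d) (φ : E (d + 1) → ℝ) (hφ : Continuous φ) :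
    {b | ¬ Full d φ b} ⊆
      ⋃ i : Fin (d + 1) × Bool, {b | ¬ Chart d (rch d) (phc φ i.1 i.2) (bpc b i.1)} := by
  intro b hb
  by_contra hcon
  simp only [mem_iUnion, mem_ofPred_eq, not_exists, not_not] at hcon
  exact hb (full_of_charts d hd φ hφ b fun j e => hcon (j, e))

end Pool.Agent.GNP
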