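import Pool.Agent.GNP.WMain
import Pool.Agent.GNP.PUd
import Pool.Agent.GNP.DK

/-!
Rough amplitudes, for every coefficient vector `b` outside an exceptional set of small dimension
(which does not depend on the amplitude, on its modulus of continuity, or on `p`).
-/

namespace Pool.Agent.GNP

open MeasureTheory Set Pool.Agent.MP_6cbfb8_an
open scoped ENNReal NNReal Real RealInnerProductSpace ContDiff Topology

/-- `JJ` is finite for exponents `α` arbitrarily close to `2/d`. -/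
def JOk (d : ℕ) (r : ℝ) (φ : E (d + 1) → ℝ) (b : Fin (d + 1) → ℝ) : Prop :=
  ∀ ε : ℝ, 0 < ε → ∃ α : ℝ, 2 / (d : ℝ) < α ∧ α < 1 ∧ α < 2 / (d : ℝ) + ε ∧
    JJ d r α (kap d α) (fun y => pb φ b (join y (hs y))) hs ≠ ⊤

theorem dim_JOk (d : ℕ) (hd : 3 ≤ d) (φ : E (d + 1) → ℝ)
    (hφ : ∀ x, ‖x‖ = 1 → ContDiffAt ℝ ∞ φ x) (r : ℝ) (hr1 : r < 1) :
    dimH {b : Fin (d + 1) → ℝ | ¬ JOk d r φ b} ≤ ENNReal.ofReal (d + 2 / d) := by
  refine (dimH_mono ?_).trans (dim_exc d hd φ hφ r hr1)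
  intro b hb
  simp only [JOk, mem_ofPred_eq] at hb ⊢
  push Not at hb
  obtain ⟨ε, hε, h⟩ := hb
  exact ⟨ε, hε, fun α h1 h2 h3 => h α h1 h2 h3⟩

/-- The coefficient vectors for which the estimate will be proved. -/
def GoodB (d : ℕ) (r : ℝ) (φ : E (d + 1) → ℝ) (b : Fin (d + 1) → ℝ) : Prop :=
  ∀ (j : Fin (d + 1)) (e : Bool), JOk d r (phc φ j e) (bpc b j)

theorem bpc_bpc {d : ℕ} (b : Fin (d + 1) → ℝ) (j : Fin (d + 1)) : bpc (bpc b j) j = b := by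
  funext i
  simp [bpc]

theorem isometry_bpc {d : ℕ} (j : Fin (d + 1)) : Isometry fun b : Fin (d + 1) → ℝ => bpc b j := by
  refine Isometry.of_dist_eq fun b b' => ?_
  refine le_antisymm ?_ ?_
  · exact (dist_pi_le_iff dist_nonneg).2 fun i => dist_le_pi_dist b b' _
  · refine (dist_pi_le_iff dist_nonneg).2 fun i => ?_
    have := dist_le_pi_dist (bpc b j) (bpc b' j) (Equiv.swap j (Fin.last d) i)
    simpa [bpc] using this

/-- The exceptional set has Hausdorff dimension at most `d + 2/d`. -/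
theorem dim_GoodB (d : ℕ) (hd : 3 ≤ d) (φ : E (d + 1) → ℝ) (hφ : ContDiff ℝ ∞ φ) (r : ℝ)
    (hr1 : r < 1) : dimH {b : Fin (d + 1) → ℝ | ¬ GoodB d r φ b} ≤ ENNReal.ofReal (d + 2 / d) := by
  have h1 : {b : Fin (d + 1) → ℝ | ¬ GoodB d r φ b} ⊆ ⋃ i : Fin (d + 1) × Bool,
      (fun b : Fin (d + 1) → ℝ => bpc b i.1) '' {b | ¬ JOk d r (phc φ i.1 i.2) b} := by
    intro b hb
    simp only [GoodB, mem_ofPred_eq] at hb
    push Not at hb
    obtain ⟨j, e, h⟩ := hb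
    exact mem_iUnion.2 ⟨(j, e), bpc b j, h, bpc_bpc b j⟩
  refine (dimH_mono h1).trans ?_
  rw [dimH_iUnion]
  refine iSup_le fun i => ?_
  rw [(isometry_bpc i.1).dimH_image]
  exact dim_JOk d hd _ (fun x _ => (contDiff_phc hφ i.1 i.2).contDiffAt) r hr1

theorem ae_JOk (d : ℕ) (hd : 3 ≤ d) (φ : E (d + 1) → ℝ) (hφ : ContDiff ℝ ∞ φ) (r : ℝ)
    (hr : 0 < r) (hr1 : r < 1) : ∀ᵐ b : Fin (d + 1) → ℝ, JOk d r φ b := by
  have hd0 : (0 : ℝ) < d := by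
    have : 0 < d := by omega
    exact_mod_cast this
  have hd3 : (3 : ℝ) ≤ d := by exact_mod_cast hd
  have h2d : 2 / (d : ℝ) < 1 := by
    rw [div_lt_one hd0]
    linarith
  have h1 : ∀ k : ℕ, ∃ α : ℝ, 2 / (d : ℝ) < α ∧ α < 1 ∧ α < 2 / (d : ℝ) + 1 / ((k : ℝ) + 1) := by
    intro k
    obtain ⟨α, h1, h2⟩ := exists_between (lt_min h2d
      (show 2 / (d : ℝ) < 2 / (d : ℝ) + 1 / ((k : ℝ) + 1) by
        have : 0 < 1 / ((k : ℝ) + 1) := by positivity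
        linarith))
    exact ⟨α, h1, h2.trans_le (min_le_left _ _), h2.trans_le (min_le_right _ _)⟩
  choose al h2 h3 h4 using h1
  have hJ : ∀ᵐ b : Fin (d + 1) → ℝ, ∀ k : ℕ,
      JJ d r (al k) (kap d (al k)) (fun y => pb φ b (join y (hs y))) hs ≠ ⊤ := by
    rw [ae_all_iff]
    exact fun k => ae_J d hd φ hφ r (al k) hr hr1 (h2 k) (h3 k)
  filter_upwards [hJ] with b hb ε hε
  obtain ⟨k, hk⟩ := exists_nat_one_div_lt hε
  exact ⟨al k, h2 k, h3 k, (h4 k).trans (by linarith), hb k⟩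

theorem ae_GoodB (d : ℕ) (hd : 3 ≤ d) (φ : E (d + 1) → ℝ) (hφ : ContDiff ℝ ∞ φ) (r : ℝ)
    (hr : 0 < r) (hr1 : r < 1) : ∀ᵐ b : Fin (d + 1) → ℝ, GoodB d r φ b := by
  unfold GoodB
  rw [ae_all_iff]
  intro j
  rw [ae_all_iff]
  intro e
  exact ae_perm _ (Equiv.swap j (Fin.last d)) (ae_JOk d hd _ (contDiff_phc hφ j e) r hr hr1)

/-- One chart: one constant for the whole class of amplitudes, all frequencies. -/
theorem chart_det (d : ℕ) (hd : 3 ≤ d) (r r' : ℝ) (hr : 0 < r) (hrr' : r < r') (hr'1 : r' < 1)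
    (φ : E (d + 1) → ℝ) (hφ : ContDiff ℝ ∞ φ) (b : Fin (d + 1) → ℝ) (hb : JOk d r' φ b)
    (s V p : ℝ) (hsd : (d : ℝ) / (d + 1) < s) (hs1 : s ≤ 1) (hV : 0 ≤ V)
    (hp : 2 * ((d : ℝ) + 1) / d < p) : ∃ C : ℝ≥0∞, C ≠ ⊤ ∧ ∀ a : E (d + 1) → ℂ, Measurable a →
      (∀ x, ‖a x‖ ≤ 1) → BVn (d + 1) s V a →
      (∀ (y : E d) (t : ℝ), ‖y‖ ^ 2 + t ^ 2 = 1 → (r < ‖y‖ ∨ t ≤ 0) → a (join y t) = 0) →
      ∀ c : ℝ, ∫⁻ ξ, ‖extn (fun x => a x *
        Complex.exp (((c * pb φ b x : ℝ) : ℂ) * Complex.I)) ξ‖ₑ ^ p ≤ C := by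
  obtain ⟨ρ, hr'ρ, hρ1⟩ := exists_between hr'1
  have hd0 : (0 : ℝ) < d := by
    have : 0 < d := by omega
    exact_mod_cast this
  have hp2 : 0 < p - 2 - 2 / (d : ℝ) := by
    have : 2 * ((d : ℝ) + 1) / d = 2 + 2 / d := by
      field_simp
    linarith
  have hp0 : 0 < p := by
    have : 0 < 2 / (d : ℝ) := by positivity
    linarith
  have hs0 : 0 < s := lt_trans (by positivity) hsd
  obtain ⟨α, hα0, hα1, hα2, hJ⟩ := hb _ hp2
  have hpc : ContDiff ℝ ∞ (pb φ b) := by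
    unfold pb
    refine hφ.add (ContDiff.sum fun j _ => contDiff_const.mul ?_)
    exact (contDiff_euclidean.mp contDiff_id j).pow 2
  obtain ⟨B, hB⟩ := exists_PhB hpc
  obtain ⟨A, V', C0, h, hV', hC0, hh, hhs, hA⟩ := chart_w' d (by omega) r ρ s V hr
    (hrr'.trans hr'ρ) hρ1 hs0 hs1 hV B
  obtain ⟨K, hK, hcore⟩ := core_rough d (by omega) A r r' 1 α p s V' hr hrr' hr'1 one_pos hα0
    (by linarith) hsd (by linarith)
  refine ⟨ENNReal.ofReal (C0 ^ p) * (K *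
    (1 + JJ d r' α (kap d α) (fun y => pb φ b (join y (hs y))) hs)), ?_, ?_⟩
  · exact ENNReal.mul_ne_top ENNReal.ofReal_ne_top (ENNReal.mul_ne_top hK
      (ENNReal.add_ne_top.2 ⟨ENNReal.one_ne_top, hJ⟩))
  · intro a ham ha1 haV hsupp c
    obtain ⟨Φ, a', hΦ, ha'm, ha'1, ha's, ha'V, hΦs, hI⟩ := hA (pb φ b) a hpc.continuous.measurable
      (fun x _ => hpc.contDiffAt) (fun k x hx => hB.2 k x (by rw [hx]; norm_num)) ham ha1 haV hsupp
    have hdef : ∀ y, ‖y‖ ≤ r' → ∀ v, ⟪Hs h y v, v⟫ ≤ -(1 * ‖v‖ ^ 2) := by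
      intro y hy v
      rw [Hs_congr_ball hhs (lt_of_le_of_lt hy hr'ρ), one_mul]
      exact Hs_hs y v (lt_of_le_of_lt hy hr'1)
    refine (hI p hp0 c).trans ?_
    refine mul_le_mul_right ((hcore Φ h a' hΦ hh (fun y hy => hhs y (lt_of_le_of_lt hy hr'ρ))
      ha'm ha'1 ha's ha'V hdef c).trans (le_of_eq ?_)) _
    rw [JJ_congr hr'ρ hΦs hhs]

/-- **The deterministic form.** For every `b` in `GoodB`: one constant for all amplitudes of the
class and all frequencies. -/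
theorem det_w (d : ℕ) (hd : 3 ≤ d) (φ : E (d + 1) → ℝ) (hφ : ContDiff ℝ ∞ φ) (r' : ℝ)
    (hr' : rch d < r') (hr'1 : r' < 1) (b : Fin (d + 1) → ℝ) (hb : GoodB d r' φ b) (s V p : ℝ)
    (hsd : (d : ℝ) / (d + 1) < s) (hs1 : s ≤ 1) (hp : 2 * ((d : ℝ) + 1) / d < p) :
    ∃ C : ℝ≥0∞, C ≠ ⊤ ∧ ∀ a : E (d + 1) → ℂ, Measurable a → (∀ x, ‖a x‖ ≤ 1) →
      BVn (d + 1) s V a → ∀ c : ℝ, ∫⁻ ξ, ‖extn (fun x => a x *
        Complex.exp (((c * pb φ b x : ℝ) : ℂ) * Complex.I)) ξ‖ₑ ^ p ≤ C := by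
  have hd0 : (0 : ℝ) < d := by
    have : 0 < d := by omega
    exact_mod_cast this
  have hs0 : 0 < s := lt_of_le_of_lt (by positivity) hsd
  have hp1 : 1 ≤ p := by
    have : (1 : ℝ) ≤ 2 * ((d : ℝ) + 1) / d := by
      rw [le_div_iff₀ hd0]
      linarith
    linarith
  obtain ⟨K, hK, hmul⟩ := BVn_mul (d + 1) (by omega) s hs0 hs1
  choose L hL0 hL using fun i : Fin (d + 1) × Bool => exists_lip (contDiff_pw (d := d) i)
  set Λ : ℝ := ∑ i, L i with hΛ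
  have hLΛ : ∀ i, L i ≤ Λ := fun i =>
    Finset.single_le_sum (f := L) (fun j _ => hL0 j) (Finset.mem_univ i)
  have hΛ0 : 0 ≤ Λ := Finset.sum_nonneg fun j _ => hL0 j
  set V0 : ℝ := max V 0 with hV0
  have hV00 : 0 ≤ V0 := le_max_right _ _
  set V' : ℝ := V0 + K * Λ with hV'
  have hV'0 : 0 ≤ V' := by
    have := mul_nonneg hK.le hΛ0
    linarith
  obtain ⟨hδ0, hδ1⟩ := delta_lt d
  have hpc : Continuous φ := hφ.continuous
  have hch : ∀ i : Fin (d + 1) × Bool, ∃ C : ℝ≥0∞, C ≠ ⊤ ∧ ∀ a : E (d + 1) → ℂ, Measurable a →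
      (∀ x, ‖a x‖ ≤ 1) → BVn (d + 1) s V' a →
      (∀ (y : E d) (t : ℝ), ‖y‖ ^ 2 + t ^ 2 = 1 → (rch d < ‖y‖ ∨ t ≤ 0) → a (join y t) = 0) →
      ∀ c : ℝ, ∫⁻ ξ, ‖extn (fun x => a x *
        Complex.exp (((c * pb (phc φ i.1 i.2) (bpc b i.1) x : ℝ) : ℂ) * Complex.I)) ξ‖ₑ ^ p ≤ C :=
    fun i => chart_det d hd (rch d) r' (rch_pos d) hr' hr'1 (phc φ i.1 i.2)
      (contDiff_phc hφ i.1 i.2) (bpc b i.1) (hb i.1 i.2) s V' p hsd hs1 hV'0 hp
  choose C hC hCb using hch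
  set 𝒜 : Set (E (d + 1) → ℂ) :=
    {a | Measurable a ∧ (∀ x, ‖a x‖ ≤ 1) ∧ BVn (d + 1) s V a} with hA
  set N : ℝ≥0∞ := ((Finset.univ : Finset (Fin (d + 1) × Bool)).card : ℝ≥0∞) with hN
  have hNt : N ≠ ⊤ := ENNReal.natCast_ne_top _
  have hFF : FF 𝒜 p φ b ≤ N ^ (p - 1) * ∑ i, C i := by
    refine (FF_sum Finset.univ pw (fun i _ => (contDiff_pw i).continuous) (fun i _ x => ?_)
      (fun x hx => pw_sum x hx) 𝒜 (fun a ha => ha.1) (fun a ha => ha.2.1) hpc hp1 b).trans ?_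
    · rw [abs_of_nonneg (pw_nonneg i x)]
      exact pw_le_one i x
    · refine mul_le_mul_right (Finset.sum_le_sum fun i _ => ?_) _
      rw [FF_iso _ p φ b (isc i.1 i.2) (phc φ i.1 i.2) (bpc b i.1)
        (fun x => by rw [isc_apply]; exact pb_phc φ b i.1 i.2 x)]
      unfold FF
      refine iSup₂_le ?_
      rintro _ ⟨_, ⟨a, ⟨ham, ha1, haV⟩, rfl⟩, rfl⟩
      refine iSup_le fun c => ?_
      have hw := (contDiff_pw (d := d) i).continuous.measurable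
      have k1 : Measurable fun x => (pw i x : ℂ) * a x := by fun_prop
      have k2 : ∀ x, ‖(pw i x : ℂ) * a x‖ ≤ 1 := fun x => by
        rw [norm_mul, Complex.norm_real, Real.norm_eq_abs, abs_of_nonneg (pw_nonneg i x)]
        exact mul_le_one₀ (pw_le_one i x) (norm_nonneg _) (ha1 x)
      have k3 : BVn (d + 1) s V' fun x => (pw i x : ℂ) * a x := by
        refine hmul V0 Λ a (pw i) hV00 hΛ0 ham ha1 hw (fun x => ?_) (fun x y hx hy => ?_)
          (haV.mono (le_max_left _ _))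
        · rw [abs_of_nonneg (pw_nonneg i x)]
          exact pw_le_one i x
        · exact (hL i x y hx hy).trans (mul_le_mul_of_nonneg_right (hLΛ i) (norm_nonneg _))
      refine hCb i (fun x => (pw i (isc i.1 i.2 x) : ℂ) * a (isc i.1 i.2 x))
        (k1.comp (isc i.1 i.2).continuous.measurable) (fun x => k2 _)
        (BVn_iso (d + 1) s V' _ k1 k3 (isc i.1 i.2)) ?_ c
      intro y t hyt hc
      by_cases hne : pw i (isc i.1 i.2 (join y t)) = 0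
      · rw [hne, Complex.ofReal_zero, zero_mul]
      · exfalso
        have k4 := pw_supp i _ hne
        have k5 : (if i.2 then (isc i.1 i.2 (join y t)) i.1 else - (isc i.1 i.2 (join y t)) i.1) =
            t := by
          rcases i with ⟨j, e⟩
          rw [isc_apply]
          cases e <;> simp [pis_apply, Equiv.symm_swap, join]
        rw [k5] at k4
        rcases hc with hc | hc
        · have h5 : ‖y‖ ≤ rch d := by
            unfold rch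
            apply Real.le_sqrt_of_sq_le
            nlinarith
          linarith
        · linarith
  refine ⟨N ^ (p - 1) * ∑ i, C i, ?_, fun a ham ha1 haV c => ?_⟩
  · exact ENNReal.mul_ne_top (ENNReal.rpow_ne_top_of_nonneg (by linarith) hNt)
      (ENNReal.sum_ne_top.2 fun i _ => hC i)
  · refine le_trans ?_ hFF
    unfold FF
    exact le_iSup₂_of_le a (⟨ham, ha1, haV⟩ : a ∈ 𝒜) (le_iSup_of_le c le_rfl)

/-- **Outside a set of dimension `n - 1 + 2/(n-1)`** (`n = d + 1`): the full range for all rough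
amplitudes, with one constant for all amplitudes of the class and all frequencies. -/
theorem dim_w (d : ℕ) (hd : 3 ≤ d) (φ : E (d + 1) → ℝ) (hφ : ContDiff ℝ ∞ φ) :
    ∃ X : Set (Fin (d + 1) → ℝ), volume X = 0 ∧ dimH X ≤ ENNReal.ofReal (d + 2 / d) ∧
      ∀ b ∉ X, ∀ s V p : ℝ, (d : ℝ) / (d + 1) < s → s ≤ 1 → 2 * ((d : ℝ) + 1) / d < p →
      ∃ C : ℝ≥0∞, C ≠ ⊤ ∧ ∀ a : E (d + 1) → ℂ, Measurable a → (∀ x, ‖a x‖ ≤ 1) →
      BVn (d + 1) s V a → ∀ c : ℝ, ∫⁻ ξ, ‖extn (fun x => a x *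
        Complex.exp (((c * pb φ b x : ℝ) : ℂ) * Complex.I)) ξ‖ₑ ^ p ≤ C := by
  obtain ⟨r', hr', hr'1⟩ := exists_between (rch_lt d)
  refine ⟨{b | ¬ GoodB d r' φ b}, ?_, dim_GoodB d hd φ hφ r' hr'1, fun b hb s V p h1 h2 h3 => ?_⟩
  · exact ae_GoodB d hd φ hφ r' ((rch_pos d).trans hr') hr'1
  · exact det_w d hd φ hφ r' hr' hr'1 b (by simpa using hb) s V p h1 h2 h3

end Pool.Agent.GNP
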