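import Pool.Agent.GNP.MainA
import Pool.Agent.GNP.WD
import Pool.Agent.GNP.WA2
import Pool.Agent.GNP.WA3
import Pool.Agent.GNP.DSub

/-!
All `b` outside a small set, with rough amplitudes, cuts and superpositions: `n ≥ 4`.
-/

namespace Pool.Agent.GNP

open MeasureTheory Set Pool.Agent.MP_6cbfb8_an
open scoped ENNReal Real RealInnerProductSpace ContDiff

/-- `BdA` only depends on the values of the phase on the sphere. -/
theorem BdA.congr {n : ℕ} {s V : ℝ} {φ ψ : E n → ℝ} {p : ℝ} (h : ∀ x : E n, ‖x‖ = 1 → φ x = ψ x)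
    (H : BdA n s V φ p) : BdA n s V ψ p := by
  obtain ⟨C, hC, H⟩ := H
  refine ⟨C, hC, fun W _ ν hν R η l B a hR hη hl hBm ham hB hv ha1 hbv => ?_⟩
  refine le_trans (le_of_eq ?_) (H W _ ν hν R η l B a hR hη hl hBm ham hB hv ha1 hbv)
  refine lintegral_congr fun ξ => ?_
  have h3 : extn (mix ν R η fun w x => a w x *
        (Complex.exp (((l w * ψ x : ℝ) : ℂ) * Complex.I) * B w (ψ x))) ξ =
      extn (mix ν R η fun w x => a w x *
        (Complex.exp (((l w * φ x : ℝ) : ℂ) * Complex.I) * B w (φ x))) ξ := by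
    refine extn_congr_sphere (fun x hx => ?_) ξ
    unfold mix
    refine integral_congr_ae (ae_of_all _ fun w => ?_)
    simp only
    rw [h (R w x) (by rw [(R w).norm_map]; exact hx)]
  rw [h3]

/-- The case `n = d + 1 ≥ 4`: one exceptional set for all orders, classes of amplitudes and
exponents. -/
theorem bdA_high (d : ℕ) (hd : 3 ≤ d) (φ : E (d + 1) → ℝ)
    (hφ : ∀ x ∈ Metric.sphere (0 : E (d + 1)) 1, ContDiffAt ℝ ∞ φ x) :
    ∃ X : Set (Fin (d + 1) → ℝ), volume X = 0 ∧ dimH X ≤ ENNReal.ofReal (d + 2 / d) ∧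
      ∀ b ∉ X, ∀ s V p : ℝ, (d : ℝ) / (d + 1) < s → s ≤ 1 → 2 * ((d : ℝ) + 1) / d < p →
        BdA (d + 1) s V (fun x => φ x + ∑ j, b j * x j ^ 2) p := by
  obtain ⟨ψ, hψ, hψφ⟩ := smooth_ext φ hφ
  have hd3 : (3:ℝ) ≤ d := by exact_mod_cast hd
  have hp0 : 1 ≤ 2 * ((d : ℝ) + 1) / d := by
    rw [le_div_iff₀ (by linarith)]
    linarith
  obtain ⟨X, hX0, hXd, hX⟩ := dim_w d hd ψ hψ
  set Y : Set (Fin (d + 1) → ℝ) := {b | ¬ ∃ K κ : ℝ, 0 ≤ K ∧ 0 < κ ∧ ∀ c : Fin 2 → ℝ, ‖c‖ = 1 →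
      ∀ δ : ℝ, 0 ≤ δ → sm (d + 1) {x : S (d + 1) | |VAN.fam ![fun _ => 1, pb ψ b] c x| ≤ δ} ≤
        ENNReal.ofReal (K * δ ^ κ)} with hY
  have hYd : dimH Y ≤ d := dim_sub d (by omega) ψ hψ.continuous
  have hY0 : volume Y = 0 := by
    have h := ae_sublevel d (by omega) ψ hψ.continuous
    rwa [ae_iff] at h
  refine ⟨X ∪ Y, measure_union_null hX0 hY0, ?_, fun b hb s V p h1 h2 hp => ?_⟩
  · rw [dimH_union]
    refine max_le hXd (hYd.trans ?_)
    rw [← ENNReal.ofReal_natCast]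
    refine ENNReal.ofReal_le_ofReal ?_
    have : (0:ℝ) ≤ 2 / d := by positivity
    linarith
  · rw [mem_union, not_or] at hb
    have hs := not_not.1 hb.2
    have hc : Continuous (pb ψ b) := by
      unfold pb
      exact hψ.continuous.add (by fun_prop)
    obtain ⟨C, hC, H⟩ := half_lines_amp_of _ hp0 (pb ψ b) hc hs
      (fun a : E (d + 1) → ℂ => Measurable a ∧ (∀ x, ‖a x‖ ≤ 1) ∧ BVn (d + 1) s V a)
      (fun a ha => ⟨ha.1, ha.2.1⟩)
      (fun q hq => by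
        obtain ⟨C, hC, H⟩ := hX b hb.1 s V q h1 h2 hq
        exact ⟨C, hC, fun a ha c => H a ha.1 ha.2.1 ha.2.2 c⟩) p hp
    have h3 : BdA (d + 1) s V (pb ψ b) p :=
      bdA_of_cuts s V (pb ψ b) hc.measurable (hp0.trans hp.le) hC
        (fun a ham ha1 hbv l t => H a ⟨ham, ha1, hbv⟩ l t)
    refine h3.congr fun x hx => ?_
    unfold pb
    rw [hψφ x hx]

end Pool.Agent.GNP
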