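import Pool.Agent.VAN.N3D
import Pool.Agent.GNP.Cov

/-!
For `n = 3` the set of the coefficients `b` for which `φ + ∑ b_m x_m^2` is not nonflat has Hausdorff
dimension at most one.
-/

set_option autoImplicit false

namespace Pool.Agent.GNP.N3

open MeasureTheory Set Filter Topology Asymptotics Pool.Agent.MP_6cbfb8_an Pool.Agent.VAN
open Pool.Agent.VAN.K Pool.Agent.VAN.ND
open Pool.Agent.VAN.NG hiding PP
open scoped ENNReal NNReal Real ContDiff

/-! ### The covering argument -/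

/-- The shear of `R^3`. -/
noncomputable def shear : (Fin 3 → ℝ) →ₗ[ℝ] (Fin 3 → ℝ) :=
  Matrix.toLin' !![1, 0, -1; 0, 1, -1; 0, 0, 1]

lemma shear_apply (b : Fin 3 → ℝ) : shear b = ![b 0 - b 2, b 1 - b 2, b 2] := by
  unfold shear
  rw [Matrix.toLin'_apply]
  ext m
  fin_cases m <;> simp [Matrix.mulVec, dotProduct, Fin.sum_univ_three] <;> ring

lemma shear_det : LinearMap.det shear = 1 := by
  unfold shear
  rw [LinearMap.det_toLin', Matrix.det_fin_three]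
  simp

/-- The condition of closeness. -/
def near (A1 A2 : ℝ × ℝ → ℝ) (ρ : ℝ) (b : Fin 3 → ℝ) (w : ℝ × ℝ) : Prop :=
  |A1 w - (b 0 - b 2)| ≤ ρ ∧ |A2 w - (b 1 - b 2)| ≤ ρ

lemma near_vol (c1 c2 ρ L : ℝ) (hρ : 0 ≤ ρ) :
    volume {b : Fin 3 → ℝ | |b 2| ≤ L ∧ |c1 - (b 0 - b 2)| ≤ ρ ∧ |c2 - (b 1 - b 2)| ≤ ρ} ≤
      ENNReal.ofReal ((2 * ρ) * (2 * ρ) * (2 * L)) := by
  have h1 : {b : Fin 3 → ℝ | |b 2| ≤ L ∧ |c1 - (b 0 - b 2)| ≤ ρ ∧ |c2 - (b 1 - b 2)| ≤ ρ} ⊆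
      shear ⁻¹' (Set.pi univ (fun i : Fin 3 => Icc ((![c1 - ρ, c2 - ρ, -L] : Fin 3 → ℝ) i)
        ((![c1 + ρ, c2 + ρ, L] : Fin 3 → ℝ) i))) := by
    rintro b ⟨h2, h3, h4⟩
    rw [mem_preimage, shear_apply, Set.mem_univ_pi]
    rw [abs_le] at h2 h3 h4
    intro m
    fin_cases m
    · constructor <;> simp <;> linarith
    · constructor <;> simp <;> linarith
    · constructor <;> simp <;> linarith
  refine (measure_mono h1).trans ?_
  rw [Measure.addHaar_preimage_linearMap volume (by rw [shear_det]; norm_num), shear_det,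
    volume_pi_pi, Fin.prod_univ_three]
  simp only [Real.volume_Icc]
  have e0 : (![c1 + ρ, c2 + ρ, L] : Fin 3 → ℝ) 0 - (![c1 - ρ, c2 - ρ, -L] : Fin 3 → ℝ) 0 =
      2 * ρ := by simp; ring
  have e1 : (![c1 + ρ, c2 + ρ, L] : Fin 3 → ℝ) 1 - (![c1 - ρ, c2 - ρ, -L] : Fin 3 → ℝ) 1 =
      2 * ρ := by simp; ring
  have e2 : (![c1 + ρ, c2 + ρ, L] : Fin 3 → ℝ) 2 - (![c1 - ρ, c2 - ρ, -L] : Fin 3 → ℝ) 2 =
      2 * L := by simp; ring
  rw [e0, e1, e2, inv_one, abs_one, ENNReal.ofReal_one, one_mul,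
    ← ENNReal.ofReal_mul (by linarith), ← ENNReal.ofReal_mul (by positivity)]

/-- The square of the parameters. -/
def sq (a : ℝ) : Set (ℝ × ℝ) := Icc (-a) a ×ˢ Icc (-a) a

/-- The measure of the parameters which are close to `b`. -/
noncomputable def VV3 (A1 A2 : ℝ × ℝ → ℝ) (ρ : ℝ) (b : Fin 3 → ℝ) : ℝ≥0∞ :=
  ∫⁻ w in sq 5, {w | near A1 A2 ρ b w}.indicator 1 w

lemma meas_near {A1 A2 : ℝ × ℝ → ℝ} (h1 : Measurable A1) (h2 : Measurable A2) (ρ : ℝ) :
    MeasurableSet {z : (Fin 3 → ℝ) × (ℝ × ℝ) | near A1 A2 ρ z.1 z.2} := by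
  have g1 : Measurable fun z : (Fin 3 → ℝ) × (ℝ × ℝ) => |A1 z.2 - (z.1 0 - z.1 2)| := by
    have := h1.comp (measurable_snd : Measurable (Prod.snd : (Fin 3 → ℝ) × (ℝ × ℝ) → ℝ × ℝ))
    exact (this.sub (by fun_prop)).abs
  have g2 : Measurable fun z : (Fin 3 → ℝ) × (ℝ × ℝ) => |A2 z.2 - (z.1 1 - z.1 2)| := by
    have := h2.comp (measurable_snd : Measurable (Prod.snd : (Fin 3 → ℝ) × (ℝ × ℝ) → ℝ × ℝ))
    exact (this.sub (by fun_prop)).abs
  exact (g1 measurableSet_Iic).inter (g2 measurableSet_Iic)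

lemma VV3_int {A1 A2 : ℝ × ℝ → ℝ} (h1 : Measurable A1) (h2 : Measurable A2) {ρ : ℝ}
    (hρ : 0 ≤ ρ) {L : ℝ} (hL : 0 ≤ L) :
    ∫⁻ b in cb 3 L, VV3 A1 A2 ρ b ≤ ENNReal.ofReal (800 * L * ρ ^ 2) := by
  unfold VV3
  rw [lintegral_lintegral_swap]
  · calc ∫⁻ w in sq 5, ∫⁻ b in cb 3 L, {w | near A1 A2 ρ b w}.indicator 1 w
        ≤ ∫⁻ _ in sq 5, ENNReal.ofReal ((2 * ρ) * (2 * ρ) * (2 * L)) := by
          refine lintegral_mono fun w => ?_
          have hm : MeasurableSet {b : Fin 3 → ℝ | near A1 A2 ρ b w} :=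
            (meas_near h1 h2 ρ).preimage (measurable_prodMk_right (y := w))
          have e : ∀ b : Fin 3 → ℝ, {w | near A1 A2 ρ b w}.indicator (1 : ℝ × ℝ → ℝ≥0∞) w =
              {b : Fin 3 → ℝ | near A1 A2 ρ b w}.indicator 1 b := by
            intro b
            by_cases h : near A1 A2 ρ b w
            · simp [Set.indicator, h]
            · simp [Set.indicator, h]
          simp_rw [e]
          rw [lintegral_indicator_one hm, Measure.restrict_apply hm]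
          refine (measure_mono ?_).trans (near_vol (A1 w) (A2 w) ρ L hρ)
          rintro b ⟨hb, hc⟩
          exact ⟨hc 2, hb⟩
      _ = ENNReal.ofReal (800 * L * ρ ^ 2) := by
          rw [setLIntegral_const, sq, Measure.volume_eq_prod, Measure.prod_prod, Real.volume_Icc,
            ← ENNReal.ofReal_mul (by norm_num), ← ENNReal.ofReal_mul (by positivity)]
          congr 1
          ring
  · refine Measurable.aemeasurable ?_
    have e : (Function.uncurry fun (b : Fin 3 → ℝ) (w : ℝ × ℝ) =>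
        {w | near A1 A2 ρ b w}.indicator (1 : ℝ × ℝ → ℝ≥0∞) w) =
        {z : (Fin 3 → ℝ) × (ℝ × ℝ) | near A1 A2 ρ z.1 z.2}.indicator 1 := by
      funext z
      by_cases h : near A1 A2 ρ z.1 z.2
      · simp [Set.indicator, Function.uncurry, h]
      · simp [Set.indicator, Function.uncurry, h]
    rw [e]
    exact measurable_one.indicator (meas_near h1 h2 ρ)

lemma VV3_ge {A1 A2 : ℝ × ℝ → ℝ} {ρ : ℝ} {b : Fin 3 → ℝ} {w0 : ℝ × ℝ} (hw0 : w0 ∈ sq 4) {r : ℝ}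
    (hr0 : 0 ≤ r) (hr : r ≤ 1) (h : ∀ w : ℝ × ℝ, |w.1 - w0.1| ≤ r → |w.2 - w0.2| ≤ r →
      near A1 A2 ρ b w) : ENNReal.ofReal (4 * r ^ 2) ≤ VV3 A1 A2 ρ b := by
  have hsub : Icc (w0.1 - r) (w0.1 + r) ×ˢ Icc (w0.2 - r) (w0.2 + r) ⊆ sq 5 := by
    rintro w ⟨⟨a1, a2⟩, a3, a4⟩
    obtain ⟨⟨c1, c2⟩, c3, c4⟩ := hw0
    refine ⟨⟨?_, ?_⟩, ?_, ?_⟩ <;> linarith
  unfold VV3
  calc ENNReal.ofReal (4 * r ^ 2)
      = ∫⁻ _ in Icc (w0.1 - r) (w0.1 + r) ×ˢ Icc (w0.2 - r) (w0.2 + r), (1 : ℝ≥0∞) := by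
        rw [setLIntegral_one, Measure.volume_eq_prod, Measure.prod_prod, Real.volume_Icc,
          Real.volume_Icc, ← ENNReal.ofReal_mul (by linarith)]
        congr 1
        ring
    _ ≤ ∫⁻ w in Icc (w0.1 - r) (w0.1 + r) ×ˢ Icc (w0.2 - r) (w0.2 + r),
        {w | near A1 A2 ρ b w}.indicator 1 w := by
        refine setLIntegral_mono' (measurableSet_Icc.prod measurableSet_Icc) fun w hw => ?_
        obtain ⟨⟨a1, a2⟩, a3, a4⟩ := hw
        have hw := h w (by rw [abs_le]; constructor <;> linarith)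
          (by rw [abs_le]; constructor <;> linarith)
        simp [Set.indicator, hw]
    _ ≤ _ := lintegral_mono_set hsub

/-- The coefficients determined up to order `k` at some point. -/
def exc (A1 A2 : ℝ × ℝ → ℝ) (m δ : ℝ) (k : ℕ) : Set (Fin 3 → ℝ) :=
  {b | ∃ w0 ∈ sq 4, ∀ r : ℝ, 0 < r → r ≤ δ → ∀ w : ℝ × ℝ, |w.1 - w0.1| ≤ r → |w.2 - w0.2| ≤ r →
    near A1 A2 (m * r ^ k) b w}

/-- The dimension of these sets. -/
theorem dim_exc3 {A1 A2 : ℝ × ℝ → ℝ} (h1 : Measurable A1) (h2 : Measurable A2) {m δ : ℝ}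
    (hm : 0 ≤ m) (hδ : 0 < δ) {k : ℕ} (hk : 1 ≤ k) {K : ℝ} (hK : 0 ≤ K) {d : ℝ≥0}
    (hd : 1 + 2 / (k : ℝ) < d) : dimH (cb 3 K ∩ exc A1 A2 m δ k) ≤ d := by
  have hk0 : (0 : ℝ) < k := by exact_mod_cast hk
  set t : ℕ → ℝ := fun j => ((2:ℝ) ^ j)⁻¹ with ht
  have ht0 : ∀ j, 0 < t j := fun j => by positivity
  set r : ℕ → ℝ := fun j => (t j) ^ (1 / (k : ℝ)) with hr
  have hr0 : ∀ j, 0 < r j := fun j => Real.rpow_pos_of_pos (ht0 j) _
  have hrk : ∀ j, r j ^ k = t j := fun j => by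
    rw [hr, ← Real.rpow_natCast, ← Real.rpow_mul (ht0 j).le, one_div_mul_cancel hk0.ne',
      Real.rpow_one]
  have htt : Tendsto t atTop (𝓝 0) := by
    have := tendsto_pow_atTop_nhds_zero_of_lt_one (r := (2⁻¹ : ℝ)) (by norm_num) (by norm_num)
    simpa only [ht, inv_pow] using this
  have hrt : Tendsto r atTop (𝓝 0) := by
    have := htt.rpow_const (p := 1 / (k : ℝ)) (Or.inr (by positivity))
    rwa [Real.zero_rpow (by positivity)] at this
  have hev : ∀ᶠ j in atTop, r j ≤ min δ 1 := by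
    filter_upwards [hrt.eventually_lt_const (show (0:ℝ) < min δ 1 by positivity)] with j hj
    exact hj.le
  set bad : ℕ → Set (Fin 3 → ℝ) := fun j => {b | r j ≤ min δ 1 ∧ b ∈ exc A1 A2 m δ k} with hbad
  have hcov := pi_cover 3 K d (fun j => VV3 A1 A2 ((m + 2) * t j)) (fun j => 4 * r j ^ 2)
    (fun j => 800 * (K + 1) * ((m + 2) * t j) ^ 2) (fun j => by have := hr0 j; positivity)
    (fun j => by positivity) (fun j => VV3_int h1 h2 (by have := ht0 j; positivity)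
      (by positivity)) ?_ bad ?_
  · refine (dimH_mono ?_).trans hcov
    rintro b ⟨hb, he⟩
    exact ⟨hb, (hev.mono fun j hj => ⟨hj, he⟩).frequently⟩
  · have hq : (0:ℝ) < (d : ℝ) - 1 - 2 / k := by linarith
    set q : ℝ := (2⁻¹ : ℝ) ^ ((d : ℝ) - 1 - 2 / k) with hqd
    have hq0 : 0 < q := by positivity
    have hq1 : q < 1 := Real.rpow_lt_one (by norm_num) (by norm_num) hq
    have e : (fun j : ℕ => 800 * (K + 1) * ((m + 2) * t j) ^ 2 / (4 * r j ^ 2) * ((2:ℝ) ^ j) ^ 3 *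
        (((2:ℝ) ^ j)⁻¹) ^ (d : ℝ)) = fun j => 200 * (K + 1) * (m + 2) ^ 2 * q ^ j := by
      funext j
      have p0 := ht0 j
      have e1 : ((2:ℝ) ^ j) ^ 3 = (t j) ^ (-3 : ℝ) := by
        rw [Real.rpow_neg p0.le, ← Real.rpow_natCast ((2:ℝ) ^ j) 3]
        simp only [ht]
        rw [Real.inv_rpow (by positivity), inv_inv]
        norm_num
      have e2 : r j ^ 2 = (t j) ^ (2 / (k : ℝ)) := by
        rw [hr, ← Real.rpow_natCast, ← Real.rpow_mul p0.le]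
        congr 1
        push_cast
        ring
      have e3 : q ^ j = (t j) ^ ((d : ℝ) - 1 - 2 / k) := by
        simp only [ht, hqd]
        rw [← Real.rpow_natCast (2:ℝ) j, ← Real.rpow_neg (by norm_num), ← Real.rpow_mul (by norm_num),
          ← Real.rpow_natCast ((2⁻¹:ℝ) ^ _) j, ← Real.rpow_mul (by norm_num),
          Real.inv_rpow (by norm_num), ← Real.rpow_neg (by norm_num)]
        congr 1
        ring
      have e4 : (t j) ^ ((d : ℝ) - 1 - 2 / k) = (t j) ^ (2:ℝ) * ((t j) ^ (2 / (k:ℝ)))⁻¹ *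
          (t j) ^ (-3 : ℝ) * (t j) ^ (d : ℝ) := by
        rw [← Real.rpow_neg p0.le, ← Real.rpow_add p0, ← Real.rpow_add p0, ← Real.rpow_add p0]
        congr 1
        ring
      rw [e1, e2, e3, e4]
      show 800 * (K + 1) * ((m + 2) * t j) ^ 2 / (4 * (t j) ^ (2 / (k : ℝ))) * (t j) ^ (-3 : ℝ) *
        (t j) ^ (d : ℝ) = _
      rw [show (t j) ^ (2:ℝ) = (t j) ^ 2 from by
        rw [← Real.rpow_natCast (t j) 2]; norm_num]
      have hp : (0:ℝ) < (t j) ^ (2 / (k : ℝ)) := by positivity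
      field_simp
      ring
    rw [e]
    exact (summable_geometric_of_lt_one hq0.le hq1).mul_left _
  · rintro j b ⟨hrj, w0, hw0, hw⟩ _ b' hb'
    refine VV3_ge hw0 (hr0 j).le (hrj.trans (min_le_right _ _)) fun w a1 a2 => ?_
    obtain ⟨c1, c2⟩ := hw (r j) (hr0 j) (hrj.trans (min_le_left _ _)) w a1 a2
    rw [hrk] at c1 c2
    have d0 := hb' 0
    have d1 := hb' 1
    have d2 := hb' 2
    have hj : (1:ℝ) / 2 ^ j = t j := by simp [ht]
    rw [hj] at d0 d1 d2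
    rw [abs_le] at c1 c2 d0 d1 d2
    refine ⟨?_, ?_⟩ <;> rw [abs_le] <;> constructor <;> linarith

/-! ### The parametrization -/

/-- Polar coordinates with two parameters. -/
noncomputable def pl2 (w : ℝ × ℝ) : E 3 := pol ![w.1, w.2, 0]

lemma pl2_0 (w : ℝ × ℝ) : pl2 w 0 = Real.cos w.1 * Real.cos w.2 := by
  unfold pl2; rw [pol_0]; simp

lemma pl2_1 (w : ℝ × ℝ) : pl2 w 1 = Real.sin w.1 * Real.cos w.2 := by
  unfold pl2; rw [pol_1]; simp

lemma pl2_2 (w : ℝ × ℝ) : pl2 w 2 = Real.sin w.2 := by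
  unfold pl2; rw [pol_2]; simp

lemma norm_pl2 (w : ℝ × ℝ) : ‖pl2 w‖ = 1 := by
  have h1 : ‖pl2 w‖ ^ 2 = 1 := by
    rw [EuclideanSpace.norm_sq_eq, Fin.sum_univ_three, pl2_0, pl2_1, pl2_2]
    simp only [Real.norm_eq_abs, sq_abs]
    have a := Real.sin_sq_add_cos_sq w.1
    have b := Real.sin_sq_add_cos_sq w.2
    linear_combination (Real.cos w.2 ^ 2) * a + b
  have h2 : (‖pl2 w‖ - 1) * (‖pl2 w‖ + 1) = 0 := by linear_combination h1
  rcases mul_eq_zero.1 h2 with h3 | h3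
  · linarith
  · have := norm_nonneg (pl2 w)
    linarith

lemma measurable_pl2 : Measurable pl2 := by
  have h : Continuous fun w : ℝ × ℝ => (![w.1, w.2, 0] : Fin 3 → ℝ) := by
    refine continuous_pi fun m => ?_
    fin_cases m
    · exact continuous_fst
    · exact continuous_snd
    · exact continuous_const
  exact (differentiable_pol.continuous.comp h).measurable

lemma pl2_lip (w v : ℝ × ℝ) {r : ℝ} (h1 : |w.1 - v.1| ≤ r) (h2 : |w.2 - v.2| ≤ r) :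
    ‖pl2 w - pl2 v‖ ≤ 6 * r := by
  have hr : 0 ≤ r := (abs_nonneg _).trans h1
  have ec : pl2 w - pl2 v = (pl2 w 0 - pl2 v 0) • (EuclideanSpace.single 0 (1:ℝ) : E 3) +
      (pl2 w 1 - pl2 v 1) • (EuclideanSpace.single 1 (1:ℝ) : E 3) +
      (pl2 w 2 - pl2 v 2) • (EuclideanSpace.single 2 (1:ℝ) : E 3) := by
    ext m
    fin_cases m <;> simp
  have c1 := Real.abs_cos_sub_cos_le w.1 v.1
  have c2 := Real.abs_cos_sub_cos_le w.2 v.2
  have s1 := Real.abs_sin_sub_sin_le w.1 v.1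
  have s2 := Real.abs_sin_sub_sin_le w.2 v.2
  have b1 := Real.abs_cos_le_one w.2
  have b2 := Real.abs_cos_le_one v.1
  have b3 := Real.abs_sin_le_one v.1
  have mul1 : ∀ {x y : ℝ}, |x| ≤ r → |y| ≤ 1 → |x * y| ≤ r := by
    intro x y hx hy
    rw [abs_mul]
    calc |x| * |y| ≤ r * 1 := mul_le_mul hx hy (abs_nonneg _) hr
      _ = r := mul_one r
  have k0 : |pl2 w 0 - pl2 v 0| ≤ 2 * r := by
    rw [pl2_0, pl2_0]
    have e : Real.cos w.1 * Real.cos w.2 - Real.cos v.1 * Real.cos v.2 =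
        (Real.cos w.1 - Real.cos v.1) * Real.cos w.2 +
          (Real.cos w.2 - Real.cos v.2) * Real.cos v.1 := by ring
    rw [e]
    refine (abs_add_le _ _).trans ?_
    have := mul1 (c1.trans h1) b1
    have := mul1 (c2.trans h2) b2
    linarith
  have k1 : |pl2 w 1 - pl2 v 1| ≤ 2 * r := by
    rw [pl2_1, pl2_1]
    have e : Real.sin w.1 * Real.cos w.2 - Real.sin v.1 * Real.cos v.2 =
        (Real.sin w.1 - Real.sin v.1) * Real.cos w.2 +
          (Real.cos w.2 - Real.cos v.2) * Real.sin v.1 := by ring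
    rw [e]
    refine (abs_add_le _ _).trans ?_
    have := mul1 (s1.trans h1) b1
    have := mul1 (c2.trans h2) b3
    linarith
  have k2 : |pl2 w 2 - pl2 v 2| ≤ r := by
    rw [pl2_2, pl2_2]
    exact s2.trans h2
  rw [ec]
  refine (norm_add_le _ _).trans ?_
  refine (add_le_add (norm_add_le _ _) le_rfl).trans ?_
  rw [norm_smul, norm_smul, norm_smul]
  simp only [PiLp.norm_single, Real.norm_eq_abs, norm_one, mul_one]
  linarith

lemma exists_pl2 {x : E 3} (hx : ‖x‖ = 1) : ∃ w ∈ sq 4, pl2 w = x := by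
  have h := norm_three hx
  have h2 : x 2 ∈ Icc (-1 : ℝ) 1 := by
    constructor <;> nlinarith [sq_nonneg (x 0), sq_nonneg (x 1), sq_nonneg (x 2 + 1),
      sq_nonneg (x 2 - 1)]
  obtain ⟨θ0, h30, h40⟩ := exists_polar (a := x 0) (b := x 1) (c := Real.cos (Real.arcsin (x 2)))
    (Real.cos_arcsin_nonneg _) (by
      rw [Real.cos_arcsin, Real.sq_sqrt (by nlinarith [h2.1, h2.2])]
      linarith)
  obtain ⟨θ, hθ, h3, h4⟩ : ∃ θ ∈ Icc (-4 : ℝ) 4, x 0 = Real.cos (Real.arcsin (x 2)) * Real.cos θ ∧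
      x 1 = Real.cos (Real.arcsin (x 2)) * Real.sin θ := by
    obtain ⟨n, hn⟩ : ∃ n : ℤ, θ0 + n * (2 * π) ∈ Ico (-π) (-π + 2 * π) := by
      obtain ⟨n, hn, _⟩ := existsUnique_add_zsmul_mem_Ico Real.two_pi_pos θ0 (-π)
      exact ⟨n, by simpa using hn⟩
    have hpi := Real.pi_lt_four
    refine ⟨θ0 + n * (2 * π), ⟨?_, ?_⟩, ?_, ?_⟩
    · linarith [hn.1]
    · linarith [hn.2]
    · rw [Real.cos_add_int_mul_two_pi]; exact h30
    · rw [Real.sin_add_int_mul_two_pi]; exact h40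
  refine ⟨(θ, Real.arcsin (x 2)), ⟨hθ, ?_, ?_⟩, ?_⟩
  · have := Real.neg_pi_div_two_le_arcsin (x 2)
    have hpi := Real.pi_lt_four
    show -4 ≤ Real.arcsin (x 2)
    linarith
  · have := Real.arcsin_le_pi_div_two (x 2)
    have hpi := Real.pi_lt_four
    show Real.arcsin (x 2) ≤ 4
    linarith
  · ext m
    fin_cases m
    · show pl2 _ 0 = x 0
      rw [pl2_0, h3]
      exact mul_comm _ _
    · show pl2 _ 1 = x 1
      rw [pl2_1, h4]
      exact mul_comm _ _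
    · show pl2 _ 2 = x 2
      rw [pl2_2]
      exact Real.sin_arcsin h2.1 h2.2

/-! ### The coefficients as functions of the flat point -/

variable {i l j : Fin 3}

lemma flat_add' {f g : E 3 → ℝ} {x : E 3} (hf : Flat f x) (hg : Flat g x) :
    Flat (fun y => f y + g y) x := by
  intro k
  refine ((hf k).add (hg k)).congr_left fun y => ?_
  ring

lemma rotD_zero {f : E 3 → ℝ} (hf : ContDiff ℝ ∞ f) {x : E 3} (hx : ‖x‖ = 1) (h : Flat f x)
    (hil : i ≠ l) : rotD i l f x = 0 := by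
  simpa using rotD_of_flat hf hx h hil 1 le_rfl

lemma flat_PP {f : E 3 → ℝ} (hf : ContDiff ℝ ∞ f) {x : E 3} (hx : ‖x‖ = 1) (h : Flat f x)
    (hil : i ≠ l) : Flat (PP i l f) x :=
  flat_add' (flat_iter hf hx h hil 3) (flat_rotD hf hx h hil)

lemma PP_zero {f : E 3 → ℝ} (hf : ContDiff ℝ ∞ f) {x : E 3} (hx : ‖x‖ = 1) (h : Flat f x)
    (hil : i ≠ l) : PP i l f x = 0 := by
  unfold PP
  rw [rotD_of_flat hf hx h hil 3 (by norm_num), rotD_zero hf hx h hil, add_zero]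

/-- A derivative of `PP`. -/
noncomputable def T2 (i l : Fin 3) (f : E 3 → ℝ) : E 3 → ℝ := rotD i l (PP i l f)

/-- A second derivative of `PP`. -/
noncomputable def T3 (i l j : Fin 3) (f : E 3 → ℝ) : E 3 → ℝ := rotD i j (rotD l j (PP i l f))

lemma diff_of {f : E 3 → ℝ} (hf : ContDiff ℝ ∞ f) : Differentiable ℝ f :=
  hf.differentiable (by simp)

lemma T2_sum {F : E 3 → ℝ} (hF : ContDiff ℝ ∞ F) (b ζ : Fin 3 → ℝ) (hil : i ≠ l) (hij : i ≠ j)
    (hjl : j ≠ l) : T2 i l (fun y => F y + qf b 0 ζ y) =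
      fun x => T2 i l F x + -6 * (b i - b l) * (x l ^ 2 - x i ^ 2) := by
  unfold T2
  rw [PP_sum hF b ζ hil hij hjl, rotD_add (diff_of (contDiff_PP hF)) (by fun_prop),
    rotD_cmul _ (by fun_prop), rotD_mul (by fun_prop) (by fun_prop), rotD_i hil, rotD_l hil]
  funext x
  ring

lemma T3_sum {F : E 3 → ℝ} (hF : ContDiff ℝ ∞ F) (b ζ : Fin 3 → ℝ) (hil : i ≠ l) (hij : i ≠ j)
    (hjl : j ≠ l) : T3 i l j (fun y => F y + qf b 0 ζ y) =
      fun x => T3 i l j F x + -6 * (b i - b l) * (x j ^ 2 - x i ^ 2) := by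
  unfold T3
  rw [PP_sum hF b ζ hil hij hjl, rotD_add (diff_of (contDiff_PP hF)) (by fun_prop),
    rotD_cmul _ (by fun_prop), rotD_mul (by fun_prop) (by fun_prop), rotD_i hjl.symm,
    rotD_j hil hij]
  have e : (fun x : E 3 => rotD l j (PP i l F) x + -6 * (b i - b l) * (x i * x j + x l * 0)) =
      fun x => rotD l j (PP i l F) x + -6 * (b i - b l) * (x i * x j) := by
    funext x
    ring
  rw [e, rotD_add (diff_of (contDiff_rotD (contDiff_PP hF))) (by fun_prop),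
    rotD_cmul _ (by fun_prop), rotD_mul (by fun_prop) (by fun_prop), rotD_i hij, rotD_l hij]
  funext x
  ring

/-- The difference `b_i - b_l` as a function of the flat point. -/
noncomputable def Bf (i l j : Fin 3) (F : E 3 → ℝ) (x : E 3) : ℝ :=
  ((x i * x l) * PP i l F x + (x l ^ 2 - x i ^ 2) * T2 i l F x +
    (x j ^ 2 - x i ^ 2) * T3 i l j F x) /
    (6 * ((x i * x l) ^ 2 + (x l ^ 2 - x i ^ 2) ^ 2 + (x j ^ 2 - x i ^ 2) ^ 2))

lemma measurable_Bf {F : E 3 → ℝ} (hF : ContDiff ℝ ∞ F) : Measurable (Bf i l j F) := by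
  have c1 : Measurable (PP i l F) := (contDiff_PP hF).continuous.measurable
  have c2 : Measurable (T2 i l F) := (contDiff_rotD (contDiff_PP hF)).continuous.measurable
  have c3 : Measurable (T3 i l j F) :=
    (contDiff_rotD (contDiff_rotD (contDiff_PP hF))).continuous.measurable
  have m : ∀ a : Fin 3, Measurable fun x : E 3 => x a := fun a => by fun_prop
  unfold Bf
  exact ((((m i).mul (m l)).mul c1).add ((((m l).pow_const 2).sub ((m i).pow_const 2)).mul c2)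
    |>.add ((((m j).pow_const 2).sub ((m i).pow_const 2)).mul c3)).div (by fun_prop)

lemma S_ge {u v w : ℝ} (h : u ^ 2 + v ^ 2 + w ^ 2 = 1) :
    1 / 11 ≤ (u * v) ^ 2 + (v ^ 2 - u ^ 2) ^ 2 + (w ^ 2 - u ^ 2) ^ 2 := by
  have hw : w ^ 2 = 1 - u ^ 2 - v ^ 2 := by linarith
  rw [hw, mul_pow]
  generalize u ^ 2 = U
  generalize v ^ 2 = V
  nlinarith [sq_nonneg (U - 4 * (1 - 2 * U - V)), sq_nonneg (V - 2 * (1 - 2 * U - V)),
    sq_nonneg (2 * V - U), sq_nonneg (U - V)]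

lemma Bf_alg {c P Q R u v w : ℝ} (h : u ^ 2 + v ^ 2 + w ^ 2 = 1) :
    |((u * v) * P + (v ^ 2 - u ^ 2) * Q + (w ^ 2 - u ^ 2) * R) /
      (6 * ((u * v) ^ 2 + (v ^ 2 - u ^ 2) ^ 2 + (w ^ 2 - u ^ 2) ^ 2)) - c| ≤
      2 * (|P + -6 * c * (u * v)| + |Q + -6 * c * (v ^ 2 - u ^ 2)| +
        |R + -6 * c * (w ^ 2 - u ^ 2)|) := by
  have hS := S_ge h
  set S := (u * v) ^ 2 + (v ^ 2 - u ^ 2) ^ 2 + (w ^ 2 - u ^ 2) ^ 2 with hSd
  have hS0 : 0 < 6 * S := by linarith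
  have e : ((u * v) * P + (v ^ 2 - u ^ 2) * Q + (w ^ 2 - u ^ 2) * R) / (6 * S) - c =
      ((u * v) * (P + -6 * c * (u * v)) + (v ^ 2 - u ^ 2) * (Q + -6 * c * (v ^ 2 - u ^ 2)) +
        (w ^ 2 - u ^ 2) * (R + -6 * c * (w ^ 2 - u ^ 2))) / (6 * S) := by
    rw [eq_div_iff hS0.ne', sub_mul, div_mul_cancel₀ _ hS0.ne', hSd]
    ring
  have m1 : |u * v| ≤ 1 := by
    rw [abs_le]
    constructor <;> nlinarith [sq_nonneg (u + v), sq_nonneg (u - v), sq_nonneg w]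
  have m2 : |v ^ 2 - u ^ 2| ≤ 1 := by
    rw [abs_le]
    constructor <;> nlinarith [sq_nonneg u, sq_nonneg v, sq_nonneg w]
  have m3 : |w ^ 2 - u ^ 2| ≤ 1 := by
    rw [abs_le]
    constructor <;> nlinarith [sq_nonneg u, sq_nonneg v, sq_nonneg w]
  generalize P + -6 * c * (u * v) = P' at *
  generalize Q + -6 * c * (v ^ 2 - u ^ 2) = Q' at *
  generalize R + -6 * c * (w ^ 2 - u ^ 2) = R' at *
  rw [e, abs_div, abs_of_pos hS0, div_le_iff₀ hS0]
  have n1 : |u * v * P'| ≤ |P'| := by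
    rw [abs_mul]
    exact mul_le_of_le_one_left (abs_nonneg _) m1
  have n2 : |(v ^ 2 - u ^ 2) * Q'| ≤ |Q'| := by
    rw [abs_mul]
    exact mul_le_of_le_one_left (abs_nonneg _) m2
  have n3 : |(w ^ 2 - u ^ 2) * R'| ≤ |R'| := by
    rw [abs_mul]
    exact mul_le_of_le_one_left (abs_nonneg _) m3
  have n4 := abs_add_le (u * v * P' + (v ^ 2 - u ^ 2) * Q') ((w ^ 2 - u ^ 2) * R')
  have n5 := abs_add_le (u * v * P') ((v ^ 2 - u ^ 2) * Q')
  have n6 : 0 ≤ |P'| + |Q'| + |R'| := by positivity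
  nlinarith

lemma bigO_zero {g : E 3 → ℝ} {x : E 3} (h : Flat g x) (h0 : g x = 0) (k : ℕ) :
    g =O[𝓝[Metric.sphere 0 1] x] fun y => ‖y - x‖ ^ k := by
  have := h k
  simpa [h0] using this

theorem Bf_flat {F : E 3 → ℝ} (hF : ContDiff ℝ ∞ F) {b ζ : Fin 3 → ℝ} {x : E 3} (hx : ‖x‖ = 1)
    (h : Flat (fun y => F y + qf b 0 ζ y) x) (hil : i ≠ l) (hij : i ≠ j) (hjl : j ≠ l) (k : ℕ) :
    (fun y => Bf i l j F y - (b i - b l)) =O[𝓝[Metric.sphere 0 1] x] fun y => ‖y - x‖ ^ k := by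
  have hf : ContDiff ℝ ∞ (fun y => F y + qf b 0 ζ y) := hF.add (contDiff_qf b 0 ζ)
  have g1 : ContDiff ℝ ∞ (PP i l (fun y => F y + qf b 0 ζ y)) := contDiff_PP hf
  have f1 := flat_PP hf hx h hil
  have z1 := PP_zero hf hx h hil
  have f2 := flat_rotD g1 hx f1 hil
  have z2 := rotD_zero g1 hx f1 hil
  have f3a := flat_rotD g1 hx f1 hjl.symm
  have f3 := flat_rotD (contDiff_rotD g1) hx f3a hij
  have z3 := rotD_zero (contDiff_rotD g1) hx f3a hij
  have o := (((bigO_zero f1 z1 k).abs_left.add (bigO_zero f2 z2 k).abs_left).add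
    (bigO_zero f3 z3 k).abs_left)
  refine (IsBigO.of_bound 2 ?_).trans o
  filter_upwards [self_mem_nhdsWithin] with y hy
  have hyn : ‖y‖ = 1 := by simpa using hy
  have hsum : y i ^ 2 + y l ^ 2 + y j ^ 2 = 1 := by
    have h5 := norm_three hyn
    have h6 := sum_three hil hij hjl (fun m => y m ^ 2)
    rw [Fin.sum_univ_three] at h6
    simp only at h6
    linarith
  have e1 := congrFun (PP_sum hF b ζ hil hij hjl) y
  have e2 := congrFun (T2_sum hF b ζ hil hij hjl) y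
  have e3 := congrFun (T3_sum hF b ζ hil hij hjl) y
  have key := Bf_alg (c := b i - b l) (P := PP i l F y) (Q := T2 i l F y) (R := T3 i l j F y) hsum
  unfold T2 at e2 key
  unfold T3 at e3 key
  simp only at e1 e2 e3
  rw [Real.norm_eq_abs, Real.norm_eq_abs]
  rw [e1, e2, e3]
  rw [abs_of_nonneg (a := |_| + |_| + |_|) (by positivity)]
  exact key

/-! ### The dimension of the exceptional set -/

/-- Local form of `Bf_flat`. -/
lemma Bf_local {F : E 3 → ℝ} (hF : ContDiff ℝ ∞ F) {b ζ : Fin 3 → ℝ} {x : E 3} (hx : ‖x‖ = 1)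
    (h : Flat (fun y => F y + qf b 0 ζ y) x) (hil : i ≠ l) (hij : i ≠ j) (hjl : j ≠ l) (k : ℕ) :
    ∃ N0 : ℕ, ∀ N : ℕ, N0 ≤ N → ∀ r : ℝ, 0 < r → r ≤ 1 / ((N : ℝ) + 1) → ∀ w0 w : ℝ × ℝ,
      pl2 w0 = x → |w.1 - w0.1| ≤ r → |w.2 - w0.2| ≤ r →
        |Bf i l j F (pl2 w) - (b i - b l)| ≤ N * r ^ k := by
  obtain ⟨C, hC⟩ := (Bf_flat hF hx h hil hij hjl k).bound
  rw [Filter.Eventually, Metric.mem_nhdsWithin_iff] at hC
  obtain ⟨ε, hε, hC⟩ := hC
  refine ⟨⌈max (|C| * 6 ^ k) (6 / ε)⌉₊, fun N hN r hr0 hr w0 w hw0 h1 h2 => ?_⟩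
  have hN' : max (|C| * 6 ^ k) (6 / ε) ≤ N := (Nat.le_ceil _).trans (by exact_mod_cast hN)
  have hN1 : |C| * 6 ^ k ≤ N := (le_max_left _ _).trans hN'
  have hN2 : 6 / ε ≤ N := (le_max_right _ _).trans hN'
  have hd : ‖pl2 w - x‖ ≤ 6 * r := by
    rw [← hw0]
    exact pl2_lip w w0 h1 h2
  have hN0 : (0:ℝ) < (N : ℝ) + 1 := by positivity
  have hlt : ‖pl2 w - x‖ < ε := by
    refine hd.trans_lt ?_
    have h3 : 6 * r ≤ 6 * (1 / ((N : ℝ) + 1)) := by linarith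
    refine h3.trans_lt ?_
    rw [mul_one_div, div_lt_iff₀ hN0]
    rw [div_le_iff₀ hε] at hN2
    nlinarith
  have h4 := hC (⟨by rw [Metric.mem_ball, dist_eq_norm]; exact hlt, by simp [norm_pl2]⟩ :
    pl2 w ∈ Metric.ball x ε ∩ Metric.sphere 0 1)
  simp only [mem_ofPred_eq, norm_pow, Real.norm_eq_abs, abs_norm] at h4
  refine h4.trans ?_
  calc C * ‖pl2 w - x‖ ^ k ≤ |C| * (6 * r) ^ k := by
        refine mul_le_mul (le_abs_self C) (pow_le_pow_left₀ (norm_nonneg _) hd k) (by positivity)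
          (abs_nonneg C)
    _ = |C| * 6 ^ k * r ^ k := by rw [mul_pow, mul_assoc]
    _ ≤ N * r ^ k := mul_le_mul_of_nonneg_right hN1 (by positivity)

/-- The coefficients with a flat point. -/
def flatset (F : E 3 → ℝ) : Set (Fin 3 → ℝ) :=
  {b | ∃ (ζ : Fin 3 → ℝ) (x : E 3), ‖x‖ = 1 ∧ Flat (fun y => F y + qf b 0 ζ y) x}

lemma flatset_sub {F : E 3 → ℝ} (hF : ContDiff ℝ ∞ F) (k : ℕ) :
    flatset F ⊆ ⋃ (N : ℕ), cb 3 (N : ℝ) ∩ exc (fun w => Bf 0 2 1 F (pl2 w))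
      (fun w => Bf 1 2 0 F (pl2 w)) (N : ℝ) (1 / ((N : ℝ) + 1)) k := by
  rintro b ⟨ζ, x, hx, h⟩
  obtain ⟨N1, h1⟩ := Bf_local hF hx h (i := 0) (l := 2) (j := 1) (by decide) (by decide)
    (by decide) k
  obtain ⟨N2, h2⟩ := Bf_local hF hx h (i := 1) (l := 2) (j := 0) (by decide) (by decide)
    (by decide) k
  obtain ⟨w0, hw0, hwx⟩ := exists_pl2 hx
  set N := max (max N1 N2) ⌈|b 0| + |b 1| + |b 2|⌉₊ with hN
  rw [mem_iUnion]
  refine ⟨N, ?_, w0, hw0, fun r hr0 hr w a1 a2 => ⟨?_, ?_⟩⟩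
  · have h3 : |b 0| + |b 1| + |b 2| ≤ N :=
      (Nat.le_ceil _).trans (by exact_mod_cast le_max_right _ _)
    intro m
    have p0 := abs_nonneg (b 0)
    have p1 := abs_nonneg (b 1)
    have p2 := abs_nonneg (b 2)
    fin_cases m
    · show |b 0| ≤ N
      linarith
    · show |b 1| ≤ N
      linarith
    · show |b 2| ≤ N
      linarith
  · exact h1 N ((le_max_left _ _).trans (le_max_left _ _)) r hr0 hr w0 w hwx a1 a2
  · exact h2 N ((le_max_right _ _).trans (le_max_left _ _)) r hr0 hr w0 w hwx a1 a2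

/-- The set of the coefficients with a flat point has dimension at most one. -/
theorem dim_flatset {F : E 3 → ℝ} (hF : ContDiff ℝ ∞ F) : dimH (flatset F) ≤ 1 := by
  refine ENNReal.le_of_forall_pos_le_add fun ε hε _ => ?_
  obtain ⟨k, hk⟩ := exists_nat_gt (2 / (ε : ℝ))
  have hε' : (0:ℝ) < ε := by exact_mod_cast hε
  have hk0 : (0:ℝ) < k := lt_trans (by positivity) hk
  have hk1 : 1 ≤ k := by
    have : 0 < k := by exact_mod_cast hk0
    omega
  have hlt : 1 + 2 / (k : ℝ) < ((1 + ε : ℝ≥0) : ℝ) := by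
    push_cast
    have : 2 / (k : ℝ) < ε := by
      rw [div_lt_iff₀ hk0]
      rw [div_lt_iff₀ hε'] at hk
      linarith
    linarith
  have hm1 : Measurable fun w : ℝ × ℝ => Bf 0 2 1 F (pl2 w) := (measurable_Bf hF).comp measurable_pl2
  have hm2 : Measurable fun w : ℝ × ℝ => Bf 1 2 0 F (pl2 w) := (measurable_Bf hF).comp measurable_pl2
  calc dimH (flatset F) ≤ dimH (⋃ (N : ℕ), cb 3 (N : ℝ) ∩ exc (fun w => Bf 0 2 1 F (pl2 w))
        (fun w => Bf 1 2 0 F (pl2 w)) (N : ℝ) (1 / ((N : ℝ) + 1)) k) :=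
        dimH_mono (flatset_sub hF k)
    _ ≤ ((1 + ε : ℝ≥0) : ℝ≥0∞) := by
        rw [dimH_iUnion]
        exact iSup_le fun N => dim_exc3 hm1 hm2 (Nat.cast_nonneg N) (by positivity) hk1
          (Nat.cast_nonneg N) hlt
    _ = 1 + (ε : ℝ≥0∞) := by push_cast; rfl

/-- For every function `φ` smooth near the unit sphere of `R^3` the set of the `b` in `R^3` for which
the function `φ + ∑ b_m x_m^2` is not nonflat has dimension at most one. -/
theorem dim_nonflat_quad (φ : E 3 → ℝ)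
    (hs : ∀ x ∈ Metric.sphere (0 : E 3) 1, ContDiffAt ℝ ((⊤ : ℕ∞) : WithTop ℕ∞) φ x) :
    ∃ X : Set (Fin 3 → ℝ), dimH X ≤ 1 ∧ ∀ b : Fin 3 → ℝ, b ∉ X →
      Nonflat fun (_ : Fin 1) (x : E 3) => φ x + ∑ m, b m * x m ^ 2 := by
  obtain ⟨F, hF, _, hFS⟩ := extend φ hs
  refine ⟨flatset F, dim_flatset hF, fun b hb => ?_⟩
  refine ⟨fun _ x hx => (hs x hx).add ?_, fun a ζ x hx hflat => ?_⟩
  · have : ContDiff ℝ ∞ fun x : E 3 => ∑ m, b m * x m ^ 2 := by fun_prop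
    exact this.contDiffAt
  have hin : ∀ y : E 3, inner ℝ y ζ = ∑ m, ζ m * y m := fun y => by
    rw [PiLp.inner_apply]
    rfl
  by_cases ha : a 0 = 0
  · have e : (fun y : E 3 => fam (fun (_ : Fin 1) (x : E 3) => φ x + ∑ m, b m * x m ^ 2) a y +
        inner ℝ y ζ) = qf 0 0 (fun m => ζ m) := by
      funext y
      rw [hin]
      simp [fam, qf, ha]
    rw [e] at hflat
    have h1 := linear_flat hx hflat
    have h2 : ζ = 0 := by
      ext m
      exact congrFun h1 m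
    intro y _
    subst h2
    simp [fam, ha]
  · exfalso
    refine hb ⟨fun m => (a 0)⁻¹ * ζ m, x, hx, fun k => ?_⟩
    have e : ∀ y : E 3, ‖y‖ = 1 → F y + qf b 0 (fun m => (a 0)⁻¹ * ζ m) y = (a 0)⁻¹ *
        (fam (fun (_ : Fin 1) (x : E 3) => φ x + ∑ m, b m * x m ^ 2) a y + inner ℝ y ζ) := by
      intro y hy
      have f1 : fam (fun (_ : Fin 1) (x : E 3) => φ x + ∑ m, b m * x m ^ 2) a y =
          a 0 * (φ y + ∑ m, b m * y m ^ 2) := by simp [fam]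
      have f2 : qf b 0 (fun m => (a 0)⁻¹ * ζ m) y =
          (∑ m, b m * y m ^ 2) + (a 0)⁻¹ * ∑ m, ζ m * y m := by
        unfold qf
        rw [Finset.mul_sum, ← Finset.sum_add_distrib]
        refine Finset.sum_congr rfl fun m _ => ?_
        simp only [Pi.zero_apply]
        ring
      rw [hin, hFS y (by simpa using hy), f1, f2, mul_add, ← mul_assoc, inv_mul_cancel₀ ha]
      ring
    refine ((hflat k).const_mul_left (a 0)⁻¹).congr' ?_ EventuallyEq.rfl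
    filter_upwards [self_mem_nhdsWithin] with y hy
    rw [e y (by simpa using hy), e x hx]
    ring

/-- A set of dimension smaller than `n` is a null set. -/
theorem vol_of_dim {n : ℕ} {X : Set (Fin n → ℝ)} (h : dimH X < n) : volume X = 0 := by
  have h1 := hausdorffMeasure_of_dimH_lt (s := X) (d := (n : ℝ≥0)) (by simpa using h)
  rw [← hausdorffMeasure_pi_real]
  simpa using h1

end Pool.Agent.GNP.N3
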