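import Pool.Agent.GNP.MainW
import Pool.Agent.GNP.Main
import Pool.Agent.GNP.N3dim
import Pool.Agent.VAN.FVY

/-!
WA4: amplitudes of bounded variation, almost every phase, `R^3`.
-/

namespace Pool.Agent.GNP

open MeasureTheory Set Pool.Agent.MP_6cbfb8_an
open scoped ENNReal Real RealInnerProductSpace ContDiff

/-- The two forms of the `L¹`-modulus agree in `R^3`. -/
lemma bvar_of_bvn {V : ℝ} {a : E 3 → ℂ} (h : BVn 3 1 V a) : BVA.BVar 1 V a := by
  intro r hr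
  refine (h r hr).trans (le_of_eq ?_)
  norm_num

/-- The case of `R^3`: every smooth `φ`, all `b` outside a set of dimension at most one, all
constants `V` and all `p > 3`. -/
theorem bdA_three (φ : E 3 → ℝ) (hφ : ∀ x ∈ Metric.sphere (0 : E 3) 1, ContDiffAt ℝ ∞ φ x) :
    ∃ X : Set (Fin 3 → ℝ), volume X = 0 ∧ dimH X ≤ 1 ∧ ∀ b ∉ X, ∀ V p : ℝ, 3 < p →
      BdA 3 1 V (fun x => φ x + ∑ j, b j * x j ^ 2) p := by
  obtain ⟨ψ, hψ, hψφ⟩ := smooth_ext φ hφ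
  obtain ⟨X, hX, hXn⟩ := N3.dim_nonflat_quad ψ fun x _ => hψ.contDiffAt
  refine ⟨X, N3.vol_of_dim (lt_of_le_of_lt hX (by norm_num)), hX, fun b hbX V p hp => ?_⟩
  have hb := hXn b hbX
  have hm : Measurable fun x : E 3 => ψ x + ∑ j, b j * x j ^ 2 :=
    (hψ.continuous.measurable).add (by fun_prop)
  obtain ⟨C, hC, H⟩ := half_lines_amp (fun x : E 3 => ψ x + ∑ j, b j * x j ^ 2) p
    (fun a : E 3 → ℂ => Measurable a ∧ (∀ x, ‖a x‖ ≤ 1) ∧ BVn 3 1 V a) fun N => by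
      obtain ⟨C, hC, H⟩ := VAN.main_nf_amp _ (nonflat_one hb) N V p hp
      exact ⟨C, hC, fun a ha c cs => H a ha.1 ha.2.1 (bvar_of_bvn ha.2.2) c cs⟩
  refine (bdA_of_cuts 1 V _ hm (by linarith) hC fun a ham ha1 hbv l t => ?_).congr fun x hx => ?_
  · exact H a ⟨ham, ha1, hbv⟩ l t
  · rw [hψφ x hx]

end Pool.Agent.GNP
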