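import Pool.Agent.GNP.MainW
import Pool.Agent.GNP.WA4

/-!
All `b` outside a small set: all dimensions `n ≥ 3`.
-/

namespace Pool.Agent.GNP

open MeasureTheory Set Pool.Agent.MP_6cbfb8_an
open scoped ENNReal Real RealInnerProductSpace ContDiff

/-- All dimensions `n ≥ 3`: amplitudes of bounded variation. -/
theorem bdA_all (n : ℕ) (hn : 3 ≤ n) (φ : E n → ℝ)
    (hφ : ∀ x ∈ Metric.sphere (0 : E n) 1, ContDiffAt ℝ ∞ φ x) :
    ∃ X : Set (Fin n → ℝ), volume X = 0 ∧ dimH X ≤ ENNReal.ofReal (n - 1 + 2 / (n - 1)) ∧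
      (n = 3 → dimH X ≤ 1) ∧ ∀ b ∉ X, ∀ p V : ℝ, 2 * (n : ℝ) / (n - 1) < p →
        BdA n 1 V (fun x => φ x + ∑ j, b j * x j ^ 2) p := by
  rcases hn.eq_or_lt with h | h
  · subst h
    obtain ⟨X, hX0, hX1, hX⟩ := bdA_three φ hφ
    refine ⟨X, hX0, hX1.trans ?_, fun _ => hX1, fun b hb p V hp => hX b hb V p ?_⟩
    · rw [ENNReal.one_le_ofReal]
      norm_num
    · norm_num at hp
      exact hp
  · obtain ⟨d, rfl⟩ : ∃ d, n = d + 1 := ⟨n - 1, by omega⟩
    obtain ⟨X, hX0, hXd, hX⟩ := bdA_high d (by omega) φ hφ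
    have hd0 : (0:ℝ) < d := by
      have : 0 < d := by omega
      exact_mod_cast this
    refine ⟨X, hX0, ?_, fun h3 => absurd h3 (by omega), fun b hb p V hp =>
      hX b hb 1 V p ?_ le_rfl ?_⟩
    · push_cast
      rwa [add_sub_cancel_right]
    · rw [div_lt_one (by linarith)]
      linarith
    · push_cast at hp
      rwa [add_sub_cancel_right] at hp

end Pool.Agent.GNP
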