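import Pool.Agent.GNP.Defs4
import Pool.Agent.GNP.P5b
import Pool.Agent.GNP.P0x

/-!
The terminal stage: finite families of cells at one scale, the measure half. Multiplicity of the gradients,
area formula, Hoelder's inequality. No phase estimate is used.
-/

namespace Pool.Agent.GNP

open MeasureTheory Set Pool.Agent.MP_6cbfb8_an
open scoped ENNReal Real RealInnerProductSpace ContDiff

theorem sum_encard_le {ι X : Type*} (s : Finset ι) (S : ι → Set X) (M : ℕ)
    (h : ∀ Z : Finset (ι × X), (∀ p ∈ Z, p.1 ∈ s ∧ p.2 ∈ S p.1) → Z.card ≤ M) :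
    ∑ i ∈ s, ((S i).encard : ℝ≥0∞) ≤ (M : ℝ≥0∞) := by
  classical
  have hfin : ∀ i : s, (S i).Finite := by
    rintro ⟨i, hi⟩
    by_contra hinf
    obtain ⟨T, hT, hTc⟩ := (Set.not_finite.1 hinf : (S i).Infinite).exists_subset_card_eq (M + 1)
    have h1 := h (T.image fun y => (i, y)) (by
      intro p hp
      obtain ⟨y, hy, rfl⟩ := Finset.mem_image.1 hp
      exact ⟨hi, hT hy⟩)
    rw [Finset.card_image_of_injective _ (Prod.mk_right_injective i), hTc] at h1
    omega
  have hinj : Function.Injective (fun p : (_ : s) × X => ((p.1, p.2) : ι × X)) := by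
    rintro ⟨⟨a, ha⟩, b⟩ ⟨⟨c, hc⟩, d⟩ h
    simp only [Prod.mk.injEq] at h
    obtain ⟨h1, rfl⟩ := h
    subst h1
    rfl
  have h2 := h ((Finset.univ.sigma fun i : s => (hfin i).toFinset).image
      (fun p : (_ : s) × X => ((p.1, p.2) : ι × X))) (by
      intro p hp
      obtain ⟨⟨⟨a, ha⟩, b⟩, hab, rfl⟩ := Finset.mem_image.1 hp
      exact ⟨ha, by simpa using hab⟩)
  rw [Finset.card_image_of_injective _ hinj, Finset.card_sigma] at h2
  calc ∑ i ∈ s, ((S i).encard : ℝ≥0∞) = ∑ i : s, ((S i).encard : ℝ≥0∞) := by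
        rw [← Finset.sum_coe_sort s (fun i => ((S i).encard : ℝ≥0∞))]
    _ = ∑ i : s, (((hfin i).toFinset.card : ℕ) : ℝ≥0∞) := by
        refine Finset.sum_congr rfl fun i _ => ?_
        rw [(hfin i).encard_eq_coe_toFinset_card]
        simp
    _ = ((∑ i : s, (hfin i).toFinset.card : ℕ) : ℝ≥0∞) := by push_cast; rfl
    _ ≤ M := by
        exact_mod_cast h2

theorem sum_lint_le {X ι : Type*} [MeasurableSpace X] {μ : Measure X} (s : Finset ι)
    (f : ι → X → ℝ≥0∞) : ∑ i ∈ s, ∫⁻ x, f i x ∂μ ≤ ∫⁻ x, ∑ i ∈ s, f i x ∂μ := by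
  classical
  induction s using Finset.induction_on with
  | empty => simp
  | insert a s ha ih =>
      simp only [Finset.sum_insert ha]
      exact (add_le_add le_rfl ih).trans (le_lintegral_add _ _)

/-- The area formula for families, with multiplicity. -/
theorem area_fam {m : ℕ} {ι : Type*} (s : Finset ι) (q : ι → E m → ℝ) (G : ι → Set (E m)) (M : ℕ)
    (hq : ∀ i ∈ s, ContDiff ℝ ∞ (q i)) (hG : ∀ i ∈ s, MeasurableSet (G i))
    (h : ∀ᵐ x : E m, ∀ Z : Finset (ι × E m), (∀ p ∈ Z, p.1 ∈ s ∧ p.2 ∈ G p.1 ∧ gr (q p.1) p.2 = x ∧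
      (Hs (q p.1) p.2).det ≠ 0) → Z.card ≤ M)
    (f : E m → ℝ≥0∞) (hf : Measurable f) :
    ∑ i ∈ s, ∫⁻ y in G i, f (gr (q i) y) * ‖(Hs (q i) y).det‖ₑ ≤ M * ∫⁻ x, f x := by
  classical
  have hst : ∀ i ∈ s, ∀ y, HasStrictFDerivAt (gr (q i)) (Hs (q i) y) y := by
    intro i hi y
    exact ((contDiff_gr (hq i hi)).contDiffAt (x := y)).hasStrictFDerivAt (by simp)
  have hgm : ∀ i ∈ s, Measurable (gr (q i)) := fun i hi => (continuous_gr (hq i hi)).measurable
  have hdm : ∀ i ∈ s, Measurable fun y => ‖(Hs (q i) y).det‖ₑ := fun i hi =>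
    (continuous_det_Hs (hq i hi)).measurable.enorm
  set ν : ι → Measure (E m) := fun i =>
    Measure.map (gr (q i)) ((volume.restrict (G i)).withDensity fun y => ‖(Hs (q i) y).det‖ₑ) with hν
  have h1 : ∀ i ∈ s, ∫⁻ y in G i, f (gr (q i) y) * ‖(Hs (q i) y).det‖ₑ = ∫⁻ x, f x ∂(ν i) := by
    intro i hi
    rw [hν]
    simp only
    rw [lintegral_map hf (hgm i hi)]
    have h0 := lintegral_withDensity_eq_lintegral_mul (volume.restrict (G i)) (hdm i hi)
      (hf.comp (hgm i hi))
    simp only [Function.comp] at h0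
    rw [h0]
    refine lintegral_congr fun y => ?_
    simp only [Pi.mul_apply, Function.comp_apply]
    rw [mul_comm]
  have h2 : (∑ i ∈ s, ν i) ≤ (M : ℝ≥0∞) • (volume : Measure (E m)) := by
    refine Measure.le_iff.2 fun T hT => ?_
    rw [Measure.finsetSum_apply, Measure.smul_apply, smul_eq_mul]
    have h3 : ∀ i ∈ s, ν i T = ∫⁻ z, (T.indicator (fun z =>
        (({y | y ∈ G i ∧ (Hs (q i) y).det ≠ 0} ∩ gr (q i) ⁻¹' {z}).encard : ℝ≥0∞)) z) := by
      intro i hi
      rw [hν]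
      simp only
      rw [Measure.map_apply (hgm i hi) hT, withDensity_apply _ ((hgm i hi) hT),
        Measure.restrict_restrict ((hgm i hi) hT)]
      have h4 := area_formula volume (gr (q i)) (Hs (q i)) (gr (q i) ⁻¹' T ∩ G i)
        (((hgm i hi) hT).inter (hG i hi)) (fun y _ => hst i hi y)
      have h5 : ∀ y, ‖(Hs (q i) y).det‖ₑ = ENNReal.ofReal |(Hs (q i) y).det| := fun y =>
        Real.enorm_eq_ofReal_abs _
      simp only [h5]
      rw [h4]
      refine lintegral_congr fun z => ?_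
      by_cases hz : z ∈ T
      · rw [indicator_of_mem hz]
        congr 2
        ext y
        simp only [mem_inter_iff, mem_ofPred_eq, mem_preimage, mem_singleton_iff]
        constructor
        · rintro ⟨⟨⟨_, h6⟩, h7⟩, h8⟩
          exact ⟨⟨h6, h7⟩, h8⟩
        · rintro ⟨⟨h6, h7⟩, h8⟩
          exact ⟨⟨⟨h8 ▸ hz, h6⟩, h7⟩, h8⟩
      · rw [indicator_of_notMem hz]
        have h6 : ({y | y ∈ gr (q i) ⁻¹' T ∩ G i ∧ (Hs (q i) y).det ≠ 0} ∩ gr (q i) ⁻¹' {z}) = ∅ := by
          ext y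
          simp only [mem_inter_iff, mem_ofPred_eq, mem_preimage, mem_singleton_iff, mem_empty_iff_false,
            iff_false, not_and]
          rintro ⟨⟨h7, _⟩, _⟩ h8
          exact hz (h8 ▸ h7)
        rw [h6]
        simp
    calc ∑ i ∈ s, ν i T = ∑ i ∈ s, ∫⁻ z, (T.indicator (fun z =>
        (({y | y ∈ G i ∧ (Hs (q i) y).det ≠ 0} ∩ gr (q i) ⁻¹' {z}).encard : ℝ≥0∞)) z) :=
          Finset.sum_congr rfl fun i hi => h3 i hi
      _ ≤ ∫⁻ z, ∑ i ∈ s, (T.indicator (fun z =>
        (({y | y ∈ G i ∧ (Hs (q i) y).det ≠ 0} ∩ gr (q i) ⁻¹' {z}).encard : ℝ≥0∞)) z) := by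
          exact sum_lint_le s _
      _ ≤ ∫⁻ z, (T.indicator (fun _ => (M : ℝ≥0∞)) z) := by
          refine lintegral_mono_ae ?_
          filter_upwards [h] with z hz
          by_cases hzT : z ∈ T
          · simp only [indicator_of_mem hzT]
            refine sum_encard_le s (fun i => {y | y ∈ G i ∧ (Hs (q i) y).det ≠ 0} ∩ gr (q i) ⁻¹' {z}) M
              fun Z hZ => hz Z fun p hp => ?_
            obtain ⟨h6, ⟨h7, h8⟩, h9⟩ := hZ p hp
            exact ⟨h6, h7, h9, h8⟩
          · simp only [indicator_of_notMem hzT, Finset.sum_const_zero, le_refl]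
      _ = M * volume T := by
          rw [lintegral_indicator_const hT]
  calc ∑ i ∈ s, ∫⁻ y in G i, f (gr (q i) y) * ‖(Hs (q i) y).det‖ₑ = ∑ i ∈ s, ∫⁻ x, f x ∂(ν i) :=
        Finset.sum_congr rfl fun i hi => h1 i hi
    _ = ∫⁻ x, f x ∂(∑ i ∈ s, ν i) := by rw [lintegral_finsetSum_measure]
    _ ≤ ∫⁻ x, f x ∂((M : ℝ≥0∞) • (volume : Measure (E m))) := lintegral_mono' h2 le_rfl
    _ = M * ∫⁻ x, f x := by rw [lintegral_smul_measure]; rfl

/-- Hoelder's inequality for finite sums of integrals. -/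
theorem holder_fam {X ι : Type*} [MeasurableSpace X] {μ : Measure X} (s : Finset ι) (G : ι → Set X)
    (w W : ι → X → ℝ) (al : ℝ) (hal : 0 < al) (hw : ∀ i ∈ s, Measurable (w i))
    (hW : ∀ i ∈ s, Measurable (W i)) (hw0 : ∀ i x, 0 ≤ w i x) (hW0 : ∀ i x, 0 < W i x) :
    (∑ i ∈ s, ∫⁻ y in G i, ENNReal.ofReal (w i y) ∂μ) ^ (1 + al) ≤
      (∑ i ∈ s, ∫⁻ y in G i, ENNReal.ofReal (w i y / W i y) ∂μ) ^ al *
        ∑ i ∈ s, ∫⁻ y in G i, ENNReal.ofReal (w i y * W i y ^ al) ∂μ := by
  have h1al : 0 < 1 + al := by linarith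
  have hpq : ((1 + al) / al).HolderConjugate (1 + al) := by
    rw [Real.holderConjugate_iff]
    constructor
    · rw [lt_div_iff₀ hal]; linarith
    · field_simp
      ring
  set θ : ℝ := al / (1 + al) with hθ
  have h1 : ∀ i ∈ s, ∫⁻ y in G i, ENNReal.ofReal (w i y) ∂μ ≤
      (∫⁻ y in G i, ENNReal.ofReal (w i y / W i y) ∂μ) ^ (1 / ((1 + al) / al)) *
      (∫⁻ y in G i, ENNReal.ofReal (w i y * W i y ^ al) ∂μ) ^ (1 / (1 + al)) := by
    intro i hi
    have h2 := ENNReal.lintegral_mul_le_Lp_mul_Lq (μ.restrict (G i)) hpq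
      (f := fun y => ENNReal.ofReal (w i y / W i y) ^ (1 / ((1 + al) / al)))
      (g := fun y => ENNReal.ofReal (w i y * W i y ^ al) ^ (1 / (1 + al)))
      (((hw i hi).div (hW i hi)).ennreal_ofReal.pow_const _).aemeasurable
      (((hw i hi).mul ((hW i hi).pow_const _)).ennreal_ofReal.pow_const _).aemeasurable
    refine le_trans (le_of_eq ?_) (h2.trans (le_of_eq ?_))
    · refine lintegral_congr fun y => ?_
      simp only [Pi.mul_apply]
      have hWy := hW0 i y
      have hwy := hw0 i y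
      rw [ENNReal.ofReal_rpow_of_nonneg (by positivity) (by positivity),
        ENNReal.ofReal_rpow_of_nonneg (by positivity) (by positivity),
        ← ENNReal.ofReal_mul (by positivity)]
      congr 1
      rcases hwy.eq_or_lt with h0 | h0
      · rw [← h0, zero_div, zero_mul, Real.zero_rpow, Real.zero_rpow, zero_mul]
        · positivity
        · positivity
      · rw [Real.div_rpow h0.le hWy.le, Real.mul_rpow h0.le (by positivity), ← Real.rpow_mul hWy.le]
        have e1 : 1 / ((1 + al) / al) = al / (1 + al) := by field_simp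
        have e2 : al * (1 / (1 + al)) = al / (1 + al) := by field_simp
        rw [e1, e2]
        have e3 : w i y ^ (al / (1 + al)) * w i y ^ (1 / (1 + al)) = w i y := by
          rw [← Real.rpow_add h0]
          have : al / (1 + al) + 1 / (1 + al) = 1 := by
            field_simp
            ring
          rw [this, Real.rpow_one]
        have h4 : (W i y) ^ (al / (1 + al)) ≠ 0 := by positivity
        field_simp
        linarith [e3]
    · congr 1
      · congr 1
        refine lintegral_congr fun y => ?_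
        rw [← ENNReal.rpow_mul]
        have : 1 / ((1 + al) / al) * ((1 + al) / al) = 1 := by field_simp
        rw [this, ENNReal.rpow_one]
      · congr 1
        refine lintegral_congr fun y => ?_
        rw [← ENNReal.rpow_mul]
        have : 1 / (1 + al) * (1 + al) = 1 := by field_simp
        rw [this, ENNReal.rpow_one]
  have h3 : ∑ i ∈ s, ∫⁻ y in G i, ENNReal.ofReal (w i y) ∂μ ≤
      (∑ i ∈ s, ∫⁻ y in G i, ENNReal.ofReal (w i y / W i y) ∂μ) ^ (1 / ((1 + al) / al)) *
      (∑ i ∈ s, ∫⁻ y in G i, ENNReal.ofReal (w i y * W i y ^ al) ∂μ) ^ (1 / (1 + al)) := by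
    refine (Finset.sum_le_sum h1).trans ?_
    refine (ENNReal.inner_le_Lp_mul_Lq s _ _ hpq).trans (le_of_eq ?_)
    congr 2
    · refine Finset.sum_congr rfl fun i _ => ?_
      rw [← ENNReal.rpow_mul]
      have : 1 / ((1 + al) / al) * ((1 + al) / al) = 1 := by field_simp
      rw [this, ENNReal.rpow_one]
    · refine Finset.sum_congr rfl fun i _ => ?_
      rw [← ENNReal.rpow_mul]
      have : 1 / (1 + al) * (1 + al) = 1 := by field_simp
      rw [this, ENNReal.rpow_one]
  calc (∑ i ∈ s, ∫⁻ y in G i, ENNReal.ofReal (w i y) ∂μ) ^ (1 + al)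
      ≤ ((∑ i ∈ s, ∫⁻ y in G i, ENNReal.ofReal (w i y / W i y) ∂μ) ^ (1 / ((1 + al) / al)) *
      (∑ i ∈ s, ∫⁻ y in G i, ENNReal.ofReal (w i y * W i y ^ al) ∂μ) ^ (1 / (1 + al))) ^ (1 + al) :=
        ENNReal.rpow_le_rpow h3 h1al.le
    _ = _ := by
        rw [ENNReal.mul_rpow_of_nonneg _ _ h1al.le, ← ENNReal.rpow_mul, ← ENNReal.rpow_mul]
        have e1 : 1 / ((1 + al) / al) * (1 + al) = al := by field_simp
        have e2 : 1 / (1 + al) * (1 + al) = 1 := by field_simp
        rw [e1, e2, ENNReal.rpow_one]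

/-- The integral of the radial weight. -/
theorem tm_lint (d N : ℕ) (hN : d < N) : ∃ C : ℝ, 0 < C ∧ ∀ (z : E d) (R : ℝ), 0 < R →
    ∫⁻ x, ENNReal.ofReal (((1 + ‖x - z‖ / R) ^ N)⁻¹) ≤ ENNReal.ofReal (C * R ^ d) := by
  have hint : Integrable fun x : E d => (1 + ‖x‖) ^ (-(N : ℝ)) := by
    refine integrable_one_add_norm ?_
    rw [finrank_euclideanSpace_fin]
    exact_mod_cast hN
  refine ⟨(∫ x : E d, (1 + ‖x‖) ^ (-(N : ℝ))) + 1, by positivity, fun z R hR => ?_⟩
  have h1 : ∀ x : E d, ENNReal.ofReal (((1 + ‖x - z‖ / R) ^ N)⁻¹) =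
      ENNReal.ofReal ((1 + ‖R⁻¹ • (x - z)‖) ^ (-(N : ℝ))) := by
    intro x
    congr 1
    rw [norm_smul, Real.norm_of_nonneg (by positivity), Real.rpow_neg (by positivity),
      Real.rpow_natCast, div_eq_inv_mul]
  simp only [h1]
  have h2 : ∫⁻ x : E d, ENNReal.ofReal ((1 + ‖R⁻¹ • (x - z)‖) ^ (-(N : ℝ))) =
      ∫⁻ x : E d, ENNReal.ofReal ((1 + ‖R⁻¹ • x‖) ^ (-(N : ℝ))) :=
    lintegral_sub_right_eq_self
      (fun x : E d => ENNReal.ofReal ((1 + ‖R⁻¹ • x‖) ^ (-(N : ℝ)))) z
  rw [h2]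
  have hint2 : Integrable fun x : E d => (1 + ‖R⁻¹ • x‖) ^ (-(N : ℝ)) :=
    hint.comp_smul (inv_ne_zero hR.ne')
  rw [← ofReal_integral_eq_lintegral_ofReal hint2
    (Filter.Eventually.of_forall fun x => by positivity)]
  refine ENNReal.ofReal_le_ofReal ?_
  rw [Measure.integral_comp_smul volume (fun x : E d => (1 + ‖x‖) ^ (-(N : ℝ))) R⁻¹,
    finrank_euclideanSpace_fin, smul_eq_mul, inv_pow, inv_inv, abs_of_nonneg (by positivity),
    mul_comm]
  gcongr
  linarith

/-- **TERM, the measure half.** With `W = 1 / max 1 (|det Hs q| / R^d)`. -/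
theorem term_meas (d N : ℕ) (hN : d < N) (al : ℝ) (hal : 0 < al) : ∃ C : ℝ, 0 < C ∧
    ∀ {ι : Type*} (s : Finset ι) (q : ι → E d → ℝ) (G : ι → Set (E d)) (R V0 : ℝ) (M1 : ℕ),
      0 < R → 0 ≤ V0 → (∀ i ∈ s, ContDiff ℝ ∞ (q i)) → (∀ i ∈ s, MeasurableSet (G i)) →
      (∀ᵐ ξ : E d, ∀ Z : Finset (ι × E d), (∀ p ∈ Z, p.1 ∈ s ∧ p.2 ∈ G p.1 ∧
        gr (q p.1) p.2 = ξ ∧ (Hs (q p.1) p.2).det ≠ 0) → Z.card ≤ M1) →
      ∑ i ∈ s, volume (G i) ≤ ENNReal.ofReal V0 →
      ∫⁻ x, (∑ i ∈ s, ∫⁻ y in G i, ENNReal.ofReal (wt N (q i) R x y)) ^ (1 + al) ≤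
        ENNReal.ofReal (C * R ^ d * (V0 + M1) ^ al) *
          ∑ i ∈ s, ∫⁻ y in G i, ENNReal.ofReal ((max 1 (|(Hs (q i) y).det| / R ^ d))⁻¹ ^ al) := by
  obtain ⟨C0, hC0, hint⟩ := tm_lint d N hN
  refine ⟨C0 * (C0 + 1) ^ al, by positivity, fun {ι} s q G R V0 M1 hR hV0 hq hG hM hV => ?_⟩
  set W : ι → E d → ℝ := fun i y => (max 1 (|(Hs (q i) y).det| / R ^ d))⁻¹ with hWdef
  have hW0 : ∀ i y, 0 < W i y := fun i y => by
    rw [hWdef]
    positivity
  have hWm : ∀ i ∈ s, Measurable (W i) := by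
    intro i hi
    have h1 := (continuous_det_Hs (hq i hi)).measurable
    rw [hWdef]
    exact (measurable_const.max ((continuous_abs.measurable.comp h1).div_const _)).inv
  have hwm : ∀ i ∈ s, ∀ x, Measurable fun y => wt N (q i) R x y := by
    intro i hi x
    unfold wt
    have := (continuous_gr (hq i hi)).measurable
    fun_prop
  have hwu : ∀ i ∈ s, Measurable (Function.uncurry fun x y => ENNReal.ofReal (wt N (q i) R x y)) := by
    intro i hi
    unfold wt Function.uncurry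
    have h1 : Continuous fun p : E d × E d => ‖gr (q i) p.2 - p.1‖ :=
      (((continuous_gr (hq i hi)).comp continuous_snd).sub continuous_fst).norm
    have h2 : Measurable fun p : E d × E d => ‖gr (q i) p.2 - p.1‖ := h1.measurable
    fun_prop
  have hw0 : ∀ i x y, 0 ≤ wt N (q i) R x y := fun i x y => by
    unfold wt
    positivity
  have hw1 : ∀ i x y, wt N (q i) R x y ≤ 1 := fun i x y => by
    unfold wt
    refine inv_le_one_of_one_le₀ (one_le_pow₀ ?_)
    have : 0 ≤ ‖gr (q i) y - x‖ / R := by positivity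
    linarith
  -- the uniform bound
  set T : ℝ≥0∞ := ENNReal.ofReal ((C0 + 1) * (V0 + M1)) with hT
  have hTb : ∀ x, ∑ i ∈ s, ∫⁻ y in G i, ENNReal.ofReal (wt N (q i) R x y / W i y) ≤ T := by
    intro x
    have h1 : ∀ i ∈ s, ∫⁻ y in G i, ENNReal.ofReal (wt N (q i) R x y / W i y) ≤
        volume (G i) + ENNReal.ofReal ((R ^ d)⁻¹) *
          ∫⁻ y in G i, ENNReal.ofReal (wt N (q i) R x y) * ‖(Hs (q i) y).det‖ₑ := by
      intro i hi
      have h2 : ∀ y, ENNReal.ofReal (wt N (q i) R x y / W i y) ≤ 1 + ENNReal.ofReal ((R ^ d)⁻¹) *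
          (ENNReal.ofReal (wt N (q i) R x y) * ‖(Hs (q i) y).det‖ₑ) := by
        intro y
        have h3 : wt N (q i) R x y / W i y ≤
            1 + (R ^ d)⁻¹ * (wt N (q i) R x y * |(Hs (q i) y).det|) := by
          rw [hWdef]
          simp only
          rw [div_inv_eq_mul]
          have h4 : max 1 (|(Hs (q i) y).det| / R ^ d) ≤ 1 + |(Hs (q i) y).det| / R ^ d :=
            max_le (by linarith [show (0:ℝ) ≤ |(Hs (q i) y).det| / R ^ d by positivity]) (by linarith)
          calc wt N (q i) R x y * max 1 (|(Hs (q i) y).det| / R ^ d)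
              ≤ wt N (q i) R x y * (1 + |(Hs (q i) y).det| / R ^ d) :=
                mul_le_mul_of_nonneg_left h4 (hw0 i x y)
            _ = wt N (q i) R x y + (R ^ d)⁻¹ * (wt N (q i) R x y * |(Hs (q i) y).det|) := by
                field_simp
            _ ≤ _ := by linarith [hw1 i x y]
        refine (ENNReal.ofReal_le_ofReal h3).trans (le_of_eq ?_)
        rw [ENNReal.ofReal_add zero_le_one (mul_nonneg (by positivity)
          (mul_nonneg (hw0 i x y) (abs_nonneg _))), ENNReal.ofReal_one,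
          ENNReal.ofReal_mul (by positivity), ENNReal.ofReal_mul (hw0 i x y), Real.enorm_eq_ofReal_abs]
      calc ∫⁻ y in G i, ENNReal.ofReal (wt N (q i) R x y / W i y)
          ≤ ∫⁻ y in G i, (1 + ENNReal.ofReal ((R ^ d)⁻¹) *
          (ENNReal.ofReal (wt N (q i) R x y) * ‖(Hs (q i) y).det‖ₑ)) := lintegral_mono h2
        _ = _ := by
            rw [lintegral_add_left measurable_const, lintegral_const, Measure.restrict_apply_univ, one_mul,
              lintegral_const_mul']
            exact ENNReal.ofReal_ne_top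
    have h5 := area_fam s q G M1 hq hG hM (fun z => ENNReal.ofReal (((1 + ‖z - x‖ / R) ^ N)⁻¹))
      (by fun_prop)
    calc ∑ i ∈ s, ∫⁻ y in G i, ENNReal.ofReal (wt N (q i) R x y / W i y)
        ≤ ∑ i ∈ s, (volume (G i) + ENNReal.ofReal ((R ^ d)⁻¹) *
          ∫⁻ y in G i, ENNReal.ofReal (wt N (q i) R x y) * ‖(Hs (q i) y).det‖ₑ) := Finset.sum_le_sum h1
      _ = ∑ i ∈ s, volume (G i) + ENNReal.ofReal ((R ^ d)⁻¹) *
          ∑ i ∈ s, ∫⁻ y in G i, ENNReal.ofReal (wt N (q i) R x y) * ‖(Hs (q i) y).det‖ₑ := by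
          rw [Finset.sum_add_distrib, Finset.mul_sum]
      _ ≤ ENNReal.ofReal V0 + ENNReal.ofReal ((R ^ d)⁻¹) * (M1 * ENNReal.ofReal (C0 * R ^ d)) :=
          add_le_add hV (mul_le_mul_right (h5.trans (mul_le_mul_right (hint x R hR) _)) _)
      _ = ENNReal.ofReal (V0 + C0 * M1) := by
          rw [← ENNReal.ofReal_natCast, ← ENNReal.ofReal_mul (by positivity),
            ← ENNReal.ofReal_mul (by positivity), ← ENNReal.ofReal_add hV0 (by positivity)]
          congr 1
          field_simp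
      _ ≤ T := by
          rw [hT]
          refine ENNReal.ofReal_le_ofReal ?_
          have : (0:ℝ) ≤ M1 := Nat.cast_nonneg _
          nlinarith
  have hWu : ∀ i ∈ s, Measurable (Function.uncurry fun x y =>
      ENNReal.ofReal (wt N (q i) R x y * W i y ^ al)) := by
    intro i hi
    have h1 : (Function.uncurry fun x y => ENNReal.ofReal (wt N (q i) R x y * W i y ^ al)) =
        fun p : E d × E d => (Function.uncurry fun x y => ENNReal.ofReal (wt N (q i) R x y)) p *
          ENNReal.ofReal (W i p.2 ^ al) := by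
      funext p
      simp only [Function.uncurry]
      rw [ENNReal.ofReal_mul (hw0 i _ _)]
    rw [h1]
    exact (hwu i hi).mul ((((hWm i hi).pow_const _).ennreal_ofReal).comp measurable_snd)
  -- Hoelder and integration
  calc ∫⁻ x, (∑ i ∈ s, ∫⁻ y in G i, ENNReal.ofReal (wt N (q i) R x y)) ^ (1 + al)
      ≤ ∫⁻ x, T ^ al * ∑ i ∈ s, ∫⁻ y in G i, ENNReal.ofReal (wt N (q i) R x y * W i y ^ al) := by
        refine lintegral_mono fun x => ?_
        refine (holder_fam s G (fun i y => wt N (q i) R x y) W al hal (fun i hi => hwm i hi x) hWm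
          (fun i y => hw0 i x y) hW0).trans ?_
        gcongr
        exact hTb x
    _ = T ^ al * ∑ i ∈ s, ∫⁻ x, ∫⁻ y in G i, ENNReal.ofReal (wt N (q i) R x y * W i y ^ al) := by
        rw [lintegral_const_mul' _ _ (by
          rw [hT]
          exact ENNReal.rpow_ne_top_of_nonneg hal.le ENNReal.ofReal_ne_top), lintegral_finsetSum]
        intro i hi
        exact (hWu i hi).lintegral_prod_right' (ν := volume.restrict (G i))
    _ ≤ T ^ al * ∑ i ∈ s, (ENNReal.ofReal (C0 * R ^ d) * ∫⁻ y in G i, ENNReal.ofReal (W i y ^ al)) := by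
        gcongr with i hi
        rw [lintegral_lintegral_swap (hWu i hi).aemeasurable, ← lintegral_const_mul' _ _ ENNReal.ofReal_ne_top]
        refine lintegral_mono fun y => ?_
        have h1 : ∀ x, ENNReal.ofReal (wt N (q i) R x y * W i y ^ al) =
            ENNReal.ofReal (W i y ^ al) * ENNReal.ofReal (((1 + ‖x - gr (q i) y‖ / R) ^ N)⁻¹) := by
          intro x
          rw [mul_comm, ENNReal.ofReal_mul (Real.rpow_nonneg (hW0 i y).le _)]
          unfold wt
          rw [norm_sub_rev]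
        simp only [h1]
        rw [lintegral_const_mul' _ _ ENNReal.ofReal_ne_top, mul_comm]
        exact mul_le_mul_left (hint _ R hR) _
    _ = _ := by
        rw [← Finset.mul_sum, ← mul_assoc, hT, ENNReal.ofReal_rpow_of_nonneg (by positivity) hal.le,
          ← ENNReal.ofReal_mul (by positivity)]
        congr 2
        rw [Real.mul_rpow (by positivity) (by positivity)]
        ring

end Pool.Agent.GNP
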