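import Pool.Agent.GNP.POLY5
import Pool.Agent.GNP.KR

/-!
NB1: reduction to polynomial phases on small balls for amplitudes at a finer scale.
-/

namespace Pool.Agent.GNP

open MeasureTheory Set Pool.Agent.MP_6cbfb8_an Pool.Agent.GPH
open scoped ENNReal Real RealInnerProductSpace ContDiff Nat

/-- NB1: `poly_red5` for amplitudes at the scale `1/P`, `P ≥ 1/ρ`. -/
theorem poly_redR (d N : ℕ) (A B : ℕ → ℝ) (r : ℝ) (hr : 0 < r) : ∃ (A' : ℕ → ℝ) (K : ℝ), 0 < K ∧
    ∀ ρ : ℝ, 0 < ρ → ρ ≤ 1 → ∃ Z : Finset (E d), (Z.card : ℝ) ≤ K / ρ ^ d ∧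
      (∀ z ∈ Z, ‖z‖ ≤ r + ρ) ∧
      ∀ (Φ h : E d → ℝ) (f : E d → ℂ) (c s L P : ℝ), Sm d A Φ → Sm d A h → AmpR d B r P f →
      ρ⁻¹ ≤ P → 1 + |c| + |s| ≤ L → L * ρ ^ (N + 1) ≤ 1 → ∃ b : E d → E d → ℂ,
        (∀ z ∈ Z, ContDiff ℝ ∞ (b z) ∧ (∀ y, ρ ≤ ‖y - z‖ → b z y = 0) ∧
          (∀ y, f y = 0 → b z y = 0) ∧ ∀ j y, ‖iteratedFDeriv ℝ j (b z) y‖ ≤ A' j * P ^ j) ∧
        ∀ x, uu f (ph Φ h c s) x = ∑ z ∈ Z, uu (b z) (ph (TPT Φ z N) (TPT h z N) c s) x := by
  classical
  set A1 : ℕ → ℝ := fun j => if j = 0 then 1 else 0 with hA1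
  obtain ⟨A', hA'⟩ := amp_piece d A1 fun j => A (N + 1) + A j
  obtain ⟨K, hK, hcard⟩ := card_Lam d (r + 1) (by linarith)
  refine ⟨fun j => ∑ i ∈ Finset.range (j + 1), (j.choose i : ℝ) * (|B i| * |A' (j - i)|),
    K * ((d : ℝ) + 1) ^ d, by positivity, ?_⟩
  intro ρ hρ hρ1
  set R : ℝ := ((d : ℝ) + 1) / ρ with hR
  have hd1 : (0 : ℝ) < (d : ℝ) + 1 := by positivity
  have hR0 : 0 < R := by positivity
  have hRd : (d : ℝ) + 1 ≤ R := by
    rw [hR, le_div_iff₀ hρ]
    nlinarith
  have hR1 : 1 ≤ R := by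
    have : (0 : ℝ) ≤ d := Nat.cast_nonneg d
    linarith
  set z : (Fin d → ℤ) → E d := fun k => R⁻¹ • lp k with hz
  have hzinj : Function.Injective z := by
    intro k k' hkk
    have h1 : lp k = (lp k' : E d) := by
      have h2 := congrArg (fun v => R • v) hkk
      simpa [hz, smul_smul, mul_inv_cancel₀ hR0.ne'] using h2
    funext i
    have h2 := congrArg (fun v : E d => v i) h1
    simpa [lp] using h2
  refine ⟨(Lam d (r + ρ) R).image z, ?_, ?_, ?_⟩
  · have h1 : (((Lam d (r + ρ) R).image z).card : ℝ) ≤ (Lam d (r + 1) R).card := by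
      refine Nat.cast_le.2 (Finset.card_image_le.trans (Finset.card_le_card ?_))
      exact Lam_mono hR0.le (by linarith)
    refine h1.trans ((hcard R hR1).trans (le_of_eq ?_))
    rw [hR, div_pow]
    ring
  · intro w hw
    rw [Finset.mem_image] at hw
    obtain ⟨k, hk, rfl⟩ := hw
    unfold Lam at hk
    rw [Finset.mem_filter] at hk
    rw [hz]
    dsimp only
    rw [norm_smul, Real.norm_eq_abs, abs_of_pos (inv_pos.2 hR0), inv_mul_le_iff₀ hR0, mul_comm]
    exact hk.2
  intro Φ h a c s L Pp hΦ hh ha hPp hL hLρ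
  have hPp0 : 0 < Pp := (inv_pos.2 hρ).trans_le hPp
  set q : E d → ℝ := ph Φ h c s with hq
  have hqs : ContDiff ℝ ∞ q := contDiff_ph hΦ.sm hh.sm c s
  set P : E d → E d → ℝ := fun w => ph (TPT Φ w N) (TPT h w N) c s with hP
  have hPs : ∀ w, ContDiff ℝ ∞ (P w) := fun w =>
    contDiff_ph (TPT_smooth Φ w N) (TPT_smooth h w N) c s
  set b : E d → E d → ℂ := fun w y =>
    a y * (chd d (ρ⁻¹ • (y - w)) * (1 * ee (q y - P w y))) with hb
  have hone : ∀ (j : ℕ) (y : E d), ‖iteratedFDeriv ℝ j (fun _ : E d => (1 : ℂ)) y‖ ≤ A1 j := by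
    intro j y
    rw [hA1]
    rcases Nat.eq_zero_or_pos j with hj | hj
    · subst hj
      simp
    · rw [iteratedFDeriv_const_of_ne (by omega)]
      simp [hj.ne']
  refine ⟨b, ?_, ?_⟩
  · intro w hw
    rw [Finset.mem_image] at hw
    obtain ⟨k, hk, rfl⟩ := hw
    have hg := hA' (fun _ => 1) (fun y => q y - P (z k) y) (z k) ρ hρ hρ1 contDiff_const
      (hqs.sub (hPs _)) hone fun j y hy => ph_rem hΦ hh N (z k) hρ hρ1 hL hLρ j hy
    refine ⟨ha.sm.mul hg.sm, fun y hy => ?_, fun y hy => ?_, fun j y => ?_⟩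
    · have h1 := hg.supp y hy
      show a y * _ = 0
      rw [h1, mul_zero]
    · show a y * _ = 0
      rw [hy, zero_mul]
    · refine (norm_iteratedFDeriv_mul_le ha.sm hg.sm y (n := j) (by exact_mod_cast le_top)).trans ?_
      rw [Finset.sum_mul]
      refine Finset.sum_le_sum fun i hi => ?_
      rw [Finset.mem_range] at hi
      have h1 : ‖iteratedFDeriv ℝ i a y‖ ≤ |B i| * Pp ^ i :=
        (ha.bd i y).trans (mul_le_mul_of_nonneg_right (le_abs_self _) (by positivity))
      have h2 : ‖iteratedFDeriv ℝ (j - i) (fun y => chd d (ρ⁻¹ • (y - z k)) *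
          (1 * ee (q y - P (z k) y))) y‖ ≤ |A' (j - i)| * Pp ^ (j - i) := by
        refine (hg.bd (j - i) y).trans ?_
        rw [div_eq_mul_inv, ← inv_pow]
        refine mul_le_mul (le_abs_self _) (pow_le_pow_left₀ (inv_pos.2 hρ).le hPp _)
          (by positivity) (abs_nonneg _)
      have h3 : Pp ^ j = Pp ^ i * Pp ^ (j - i) := by
        rw [← pow_add]
        congr 1
        omega
      calc (j.choose i : ℝ) * ‖iteratedFDeriv ℝ i a y‖ * ‖iteratedFDeriv ℝ (j - i) (fun y =>
            chd d (ρ⁻¹ • (y - z k)) * (1 * ee (q y - P (z k) y))) y‖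
          ≤ (j.choose i : ℝ) * (|B i| * Pp ^ i) * (|A' (j - i)| * Pp ^ (j - i)) := by
            gcongr
        _ = (j.choose i : ℝ) * (|B i| * |A' (j - i)|) * Pp ^ j := by
            rw [h3]
            ring
  · intro x
    rw [Finset.sum_image fun k _ k' _ h => hzinj h]
    have h0 : uu a q x = ∑ k ∈ Lam d (r + ρ) R, uk a q R k x := by
      have hRr : ((d : ℝ) + 1) / (r + ρ - r) ≤ R := by
        rw [add_sub_cancel_left]
      unfold uk uu
      rw [← integral_finsetSum]
      · refine integral_congr_ae (Filter.Eventually.of_forall fun y => ?_)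
        show a y * _ = ∑ k ∈ Lam d (r + ρ) R, (ch (R • y - lp k) : ℂ) * a y * _
        rw [← Finset.sum_mul, ← Finset.sum_mul]
        by_cases hy : ‖y‖ ≤ r
        · rw [← Complex.ofReal_sum, p1b_ch_sum r (r + ρ) R (by linarith) hRr y hy,
            Complex.ofReal_one, one_mul]
        · rw [ha.supp y (not_le.1 hy)]
          ring
      · intro k _
        have hac : Continuous a := ha.sm.continuous
        have hqc : Continuous q := hqs.continuous
        have hc : Continuous fun y : E d => (ch (R • y - lp k) : ℂ) * a y *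
            Complex.exp (((q y - ⟪x, y⟫ : ℝ) : ℂ) * Complex.I) := by
          have h1 : Continuous fun y : E d => ch (R • y - lp k) :=
            p1b_ch_cont.comp ((continuous_const_smul R).sub continuous_const)
          fun_prop
        refine hc.integrable_of_hasCompactSupport ?_
        refine HasCompactSupport.intro (isCompact_closedBall (0 : E d) r) fun y hy => ?_
        have h3 : r < ‖y‖ := by simpa using hy
        rw [ha.supp y h3]
        ring
    rw [h0]
    refine Finset.sum_congr rfl fun k _ => ?_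
    unfold uk uu
    refine integral_congr_ae (Filter.Eventually.of_forall fun y => ?_)
    show (ch (R • y - lp k) : ℂ) * a y * _ = b (z k) y * _
    have h1 : ((d : ℝ) + 1) • (ρ⁻¹ • (y - z k)) = R • y - lp k := by
      rw [hz]
      dsimp only
      rw [smul_smul, smul_sub, smul_smul, hR, ← div_eq_mul_inv]
      congr 1
      rw [mul_inv_cancel₀ (by positivity), one_smul]
    have h2 : chd d (ρ⁻¹ • (y - z k)) = ((ch (R • y - lp k) : ℝ) : ℂ) := by
      unfold chd
      rw [h1]
    rw [hb]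
    dsimp only
    rw [h2, one_mul, mul_comm ((ch (R • y - lp k) : ℝ) : ℂ) (a y), mul_assoc, mul_assoc, mul_assoc]
    congr 2
    unfold ee
    rw [← Complex.exp_add]
    congr 1
    push_cast
    ring

end Pool.Agent.GNP
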