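import Pool.Agent.GNP.NB3a
import Pool.Agent.GNP.CBV

/-!
NB3: one smooth function at the scale `1/P`, every phase, from `cell_bv`.
-/

namespace Pool.Agent.GNP

open MeasureTheory Set Pool.Agent.MP_6cbfb8_an
open scoped ENNReal Real RealInnerProductSpace ContDiff

/-- **Row NB3.** -/
theorem piece_bv (d : ℕ) (hd : 2 ≤ d) (p : ℝ) (hp : 2 * ((d : ℝ) + 1) / d < p)
    (hp' : ∀ m : ℕ, (m : ℝ) * (p - 2) ≠ 1) (hft : ∃ C1 : ℕ, FTst d p C1) : ∃ C : ℕ,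
    ∀ (A B : ℕ → ℝ) (r r' b : ℝ) (n0 : ℕ), 0 < r → r < r' → 0 < b → ∃ K0 : ℝ, 1 ≤ K0 ∧
    ∀ K, K0 ≤ K → ∀ (Φ h : E d → ℝ) (f : E d → ℂ) (G : Set (E d)) (c P : ℝ),
      Sm d A Φ → Sm d A h → Df d b r' h → 1 + |c| ≤ K ^ n0 → 1 ≤ P → P ^ 2 ≤ K ^ n0 →
      AmpR d B r P f → MeasurableSet G → (∀ y, f y ≠ 0 → Metric.closedBall y (2 / P) ⊆ G) →
      ∫⁻ s in {s : ℝ | |s| ≤ K ^ n0}, ∫⁻ x, ‖uu f (ph Φ h c s) x‖ₑ ^ p ≤
        ENNReal.ofReal (K ^ C) * (1 + ENNReal.ofReal P * volume G) := by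
  refine piece_bv_of d p ?_ (cell_bv d hd p hp hp' hft)
  have hd0 : (0 : ℝ) < d := by
    have : 0 < d := by omega
    exact_mod_cast this
  refine le_trans ?_ hp.le
  rw [le_div_iff₀ hd0]
  linarith

end Pool.Agent.GNP
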