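import Pool.Agent.GNP.AAC
import Pool.Agent.GNP.CL
import Pool.Agent.GNP.HL
import Pool.Agent.GNP.Defs4

/-!
One level: the phase has derivatives of order at least three bounded by powers of `R`, its Hessian is
arbitrary.
-/

namespace Pool.Agent.GNP

open MeasureTheory Set Metric Pool.Agent.MP_6cbfb8_an
open scoped ENNReal Real RealInnerProductSpace ContDiff

/-- The statement of `LOC`. -/
def LOCS (d : ℕ) (A : ℕ → ℝ) (M : ℕ) (al : ℝ) : Prop :=
  ∃ kappa K : ℝ, 0 < kappa ∧ kappa ≤ 1 / 4 ∧ 0 < K ∧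
    ∀ (a : E d → ℂ) (q : E d → ℝ) (r R be : ℝ) (G : Set (E d)), 1 ≤ R → 1 ≤ be →
      AmpR d A r R a → ContDiff ℝ ∞ q → MeasurableSet G →
      (∀ y, a y ≠ 0 → Metric.closedBall y (3 * kappa / R) ⊆ G) →
      (∀ y ∈ G, ∀ j, 3 ≤ j → ‖iteratedFDeriv ℝ j q y‖ ≤ A j * R ^ j) →
      (∀ y ∈ G, ENNReal.ofReal be⁻¹ ≤ volume {v : E d | ‖v‖ ≤ 1 ∧ ‖Hs q y v‖ ≤ R ^ 2}) →
      ∫⁻ x, ‖uu a q x‖ₑ ^ (2 + al) ≤ ENNReal.ofReal (K * be ^ (al / 2) * (R ^ d)⁻¹) *
        ∫⁻ x, (∫⁻ y in G, ENNReal.ofReal (wt M q R x y)) ^ (1 + al)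

theorem measurable_wt_unc {d : ℕ} {q : E d → ℝ} (hq : ContDiff ℝ ∞ q) (R : ℝ) (N : ℕ) :
    Measurable (Function.uncurry fun x y => ENNReal.ofReal (wt N q R x y)) := by
  unfold wt Function.uncurry
  have h1 : Continuous fun p : E d × E d => ‖gr q p.2 - p.1‖ :=
    (((continuous_gr hq).comp continuous_snd).sub continuous_fst).norm
  have h2 : Measurable fun p : E d × E d => ‖gr q p.2 - p.1‖ := h1.measurable
  fun_prop

/-- The integral of the weight in `x`. -/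
theorem lint_wt (d M : ℕ) (hM : d + 1 ≤ M) : ∃ C : ℝ, 0 < C ∧ ∀ (q : E d → ℝ) (R : ℝ), 0 < R →
    ∀ y, ∫⁻ x, ENNReal.ofReal (wt M q R x y) ≤ ENNReal.ofReal (C * R ^ d) := by
  have hint : Integrable fun x : E d => (1 + ‖x‖) ^ (-(M : ℝ)) := by
    refine integrable_one_add_norm ?_
    rw [finrank_euclideanSpace_fin]
    exact_mod_cast hM
  refine ⟨(∫ x : E d, (1 + ‖x‖) ^ (-(M : ℝ))) + 1, by positivity, fun q R hR y => ?_⟩
  have h1 : ∀ x : E d, ENNReal.ofReal (wt M q R x y) =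
      ENNReal.ofReal ((1 + ‖R⁻¹ • (x - gr q y)‖) ^ (-(M : ℝ))) := by
    intro x
    unfold wt
    congr 1
    rw [norm_smul, Real.norm_of_nonneg (by positivity), Real.rpow_neg (by positivity),
      Real.rpow_natCast, norm_sub_rev, div_eq_inv_mul]
  simp only [h1]
  have h2 : ∫⁻ x : E d, ENNReal.ofReal ((1 + ‖R⁻¹ • (x - gr q y)‖) ^ (-(M : ℝ))) =
      ∫⁻ x : E d, ENNReal.ofReal ((1 + ‖R⁻¹ • x‖) ^ (-(M : ℝ))) :=
    lintegral_sub_right_eq_self
      (fun x : E d => ENNReal.ofReal ((1 + ‖R⁻¹ • x‖) ^ (-(M : ℝ)))) (gr q y)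
  rw [h2]
  have hint2 : Integrable fun x : E d => (1 + ‖R⁻¹ • x‖) ^ (-(M : ℝ)) :=
    hint.comp_smul (inv_ne_zero hR.ne')
  rw [← ofReal_integral_eq_lintegral_ofReal hint2
    (Filter.Eventually.of_forall fun x => by positivity)]
  refine ENNReal.ofReal_le_ofReal ?_
  rw [Measure.integral_comp_smul volume (fun x : E d => (1 + ‖x‖) ^ (-(M : ℝ))) R⁻¹,
    finrank_euclideanSpace_fin, smul_eq_mul, inv_pow, inv_inv, abs_of_nonneg (by positivity),
    mul_comm]
  gcongr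
  linarith

theorem AA_smul_ge {d : ℕ} (M : E d →L[ℝ] E d) (hM : Sy M) {c : ℝ} (hc : 0 ≤ c) (hc1 : c ≤ 1) :
    AA M ≤ AA (c • M) := by
  obtain ⟨e, μ, he, -⟩ := exists_eig M hM
  rw [AA_eq M e μ he, AA_eq (c • M) e (fun k => c * μ k) (fun k => by
    rw [smul_apply, he k, smul_smul])]
  refine Finset.prod_le_prod (fun k _ => by positivity) fun k _ => ?_
  refine Real.rpow_le_rpow_of_nonpos (by positivity) ?_ (by norm_num)
  have h1 : (c * μ k) ^ 2 ≤ μ k ^ 2 := by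
    have h2 : c ^ 2 ≤ 1 := pow_le_one₀ hc hc1
    nlinarith [sq_nonneg (μ k)]
  linarith

/-- Lower bound of the factor `AA`. -/
theorem le_AA {d : ℕ} (M : E d →L[ℝ] E d) (hM : Sy M) {T : ℝ} (hT : ‖M‖ ≤ T) :
    (1 + T ^ 2) ^ (-((d : ℝ) / 4)) ≤ AA M := by
  obtain ⟨e, μ, he, -⟩ := exists_eig M hM
  rw [AA_eq M e μ he]
  have hT0 : 0 ≤ T := (norm_nonneg _).trans hT
  have h1 : ∀ k, (1 + T ^ 2) ^ (-(1 / 4) : ℝ) ≤ (1 + μ k ^ 2) ^ (-(1 / 4) : ℝ) := by
    intro k
    refine Real.rpow_le_rpow_of_nonpos (by positivity) ?_ (by norm_num)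
    have h2 : |μ k| ≤ T := by
      have h3 := M.le_opNorm (e k)
      rw [he k, norm_smul, e.orthonormal.1 k, mul_one, mul_one, Real.norm_eq_abs] at h3
      exact h3.trans hT
    have h4 : μ k ^ 2 ≤ T ^ 2 := by
      rw [← sq_abs (μ k)]
      gcongr
    linarith
  calc (1 + T ^ 2) ^ (-((d : ℝ) / 4)) = ∏ _k : Fin d, (1 + T ^ 2) ^ (-(1 / 4) : ℝ) := by
        rw [Finset.prod_const, Finset.card_univ, Fintype.card_fin,
          ← Real.rpow_natCast ((1 + T ^ 2) ^ (-(1 / 4) : ℝ)) d, ← Real.rpow_mul (by positivity)]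
        congr 1
        ring
    _ ≤ _ := Finset.prod_le_prod (fun k _ => by positivity) fun k _ => h1 k


theorem exists_I (e : ℝ) (he : 0 < e) : ∃ K : ℝ, 0 < K ∧ ∀ L : ℝ, 1 ≤ L →
    ∃ I : ℕ, L < 2 ^ I ∧ (I : ℝ) + 1 ≤ K * L ^ e := by
  have hl2 : 0 < Real.log 2 := Real.log_pos one_lt_two
  refine ⟨(e * Real.log 2)⁻¹ + 2, by positivity, fun L hL => ?_⟩
  have hL0 : 0 < L := by linarith
  have hlT : 0 ≤ Real.log L := Real.log_nonneg hL
  set t : ℝ := Real.log L / Real.log 2 with ht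
  have ht0 : 0 ≤ t := by positivity
  refine ⟨⌊t⌋₊ + 1, ?_, ?_⟩
  · have h1 : L = (2 : ℝ) ^ t := by
      nth_rewrite 1 [← Real.exp_log hL0]
      rw [Real.rpow_def_of_pos two_pos, ht]
      congr 1
      field_simp
    nth_rewrite 1 [h1]
    rw [← Real.rpow_natCast]
    refine Real.rpow_lt_rpow_of_exponent_lt one_lt_two ?_
    push_cast
    exact Nat.lt_floor_add_one t
  · have h5 : Real.log L ≤ L ^ e / e := Real.log_le_rpow_div hL0.le he
    have hPe : 1 ≤ L ^ e := Real.one_le_rpow hL he.le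
    have h6 : (⌊t⌋₊ : ℝ) ≤ t := Nat.floor_le ht0
    push_cast
    have h7 : t ≤ (e * Real.log 2)⁻¹ * L ^ e := by
      calc t ≤ L ^ e / e / Real.log 2 := by rw [ht]; gcongr
        _ = _ := by field_simp
    linarith

theorem AmpR.integrable {d : ℕ} {A : ℕ → ℝ} {r R : ℝ} {a : E d → ℂ} (ha : AmpR d A r R a)
    {q : E d → ℝ} (hq : ContDiff ℝ ∞ q) (x : E d) :
    Integrable fun y => a y * Complex.exp (((q y - ⟪x, y⟫ : ℝ) : ℂ) * Complex.I) := by
  have h1 : Continuous a := ha.sm.continuous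
  have h2 : Continuous q := hq.continuous
  have h3 : Continuous fun y => a y * Complex.exp (((q y - ⟪x, y⟫ : ℝ) : ℂ) * Complex.I) := by
    fun_prop
  refine h3.integrable_of_hasCompactSupport (HasCompactSupport.intro
    (isCompact_closedBall (0 : E d) r) fun y hy => ?_)
  rw [Metric.mem_closedBall, dist_zero_right, not_le] at hy
  rw [ha.supp y hy, zero_mul]

theorem AmpR.mono_const {d : ℕ} {A A' : ℕ → ℝ} {r R : ℝ} {a : E d → ℂ} (ha : AmpR d A r R a)
    (hR : 0 < R) (h : ∀ j, A j ≤ A' j) : AmpR d A' r R a :=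
  ⟨ha.sm, ha.supp, fun j y => (ha.bd j y).trans (by
    have := h j
    gcongr)⟩


theorem enorm_sum_rpow_le {n : ℕ} (u : Fin n → ℂ) {p : ℝ} (hp : 1 ≤ p) :
    ‖∑ i, u i‖ₑ ^ p ≤ ENNReal.ofReal ((n : ℝ) ^ (p - 1)) * ∑ i, ‖u i‖ₑ ^ p := by
  have h1 : ∀ z : ℂ, ‖z‖ₑ ^ p = ENNReal.ofReal (‖z‖ ^ p) := fun z => by
    rw [← ofReal_norm, ENNReal.ofReal_rpow_of_nonneg (norm_nonneg _) (by linarith)]
  simp only [h1]
  rw [← ENNReal.ofReal_sum_of_nonneg fun i _ => by positivity,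
    ← ENNReal.ofReal_mul (by positivity)]
  refine ENNReal.ofReal_le_ofReal ?_
  calc ‖∑ i, u i‖ ^ p ≤ (∑ i, ‖u i‖) ^ p :=
        Real.rpow_le_rpow (norm_nonneg _) (norm_sum_le _ _) (by linarith)
    _ ≤ _ := by
        have h2 := Real.rpow_sum_le_const_mul_sum_rpow (Finset.univ : Finset (Fin n))
          (fun i => ‖u i‖) hp
        simpa using h2

theorem measurable_AAHs {d : ℕ} {q : E d → ℝ} (hq : ContDiff ℝ ∞ q) (c : ℝ) :
    Measurable fun z : E d => AA (c • Hs q z) := by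
  have h0 : Continuous fun z : E d => c • Hs q z := (continuous_Hs hq).const_smul c
  exact measurable_AA.comp h0.measurable

/-- The oscillatory integral is measurable. -/
theorem measurable_uu_x {d : ℕ} {a : E d → ℂ} {q : E d → ℝ} (ha : Continuous a)
    (hq : ContDiff ℝ ∞ q) : Measurable fun x : E d => uu a q x := by
  have hq' : Continuous q := hq.continuous
  have h1 : Continuous fun p : E d × E d =>
      a p.2 * Complex.exp (((q p.2 - ⟪p.1, p.2⟫ : ℝ) : ℂ) * Complex.I) := by fun_prop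
  exact (h1.stronglyMeasurable.integral_prod_right
    (f := fun (x : E d) (y : E d) =>
      a y * Complex.exp (((q y - ⟪x, y⟫ : ℝ) : ℂ) * Complex.I))).measurable

/-- The class of the point `z`. -/
noncomputable def cidx {d : ℕ} (q : E d → ℝ) (R : ℝ) (I : ℕ) (z : E d) : Fin (I + 1) :=
  ⟨min ⌊-Real.logb 2 (AA ((R ^ 2)⁻¹ • Hs q z))⌋₊ I, by omega⟩

theorem measurable_cidx {d : ℕ} {q : E d → ℝ} (hq : ContDiff ℝ ∞ q) (R : ℝ) (I : ℕ) :
    Measurable (cidx q R I) := by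
  have h1 : Measurable fun z : E d => AA ((R ^ 2)⁻¹ • Hs q z) := measurable_AAHs hq _
  have h2 : Measurable fun z : E d => ⌊-Real.logb 2 (AA ((R ^ 2)⁻¹ • Hs q z))⌋₊ := by
    refine Nat.measurable_floor.comp (Measurable.neg ?_)
    unfold Real.logb
    exact (Real.measurable_log.comp h1).div_const _
  have h3 : Measurable fun n : ℕ => (⟨min n I, by omega⟩ : Fin (I + 1)) := measurable_from_nat
  exact h3.comp h2

theorem cidx_lt {d : ℕ} {q : E d → ℝ} (hq : ContDiff ℝ ∞ q) (R : ℝ) (I : ℕ) (z : E d)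
    (h : (cidx q R I z : ℕ) < I) :
    (2 : ℝ)⁻¹ ^ ((cidx q R I z : ℕ) + 1) ≤ AA ((R ^ 2)⁻¹ • Hs q z) ∧
      AA ((R ^ 2)⁻¹ • Hs q z) ≤ 2⁻¹ ^ (cidx q R I z : ℕ) := by
  set x := AA ((R ^ 2)⁻¹ • Hs q z) with hx
  have hx0 : 0 < x := AA_pos _ (Sy_smul_Hs hq _ _)
  have hx1 : x ≤ 1 := AA_le_one _ (Sy_smul_Hs hq _ _)
  have ht0 : 0 ≤ -Real.logb 2 x := by
    rw [neg_nonneg]
    exact Real.logb_nonpos one_lt_two hx0.le hx1
  have hxt : x = 2 ^ (-(-Real.logb 2 x)) := by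
    rw [neg_neg, Real.rpow_logb two_pos (by norm_num) hx0]
  have hi : (cidx q R I z : ℕ) = ⌊-Real.logb 2 x⌋₊ := by
    have h1 : (cidx q R I z : ℕ) = min ⌊-Real.logb 2 x⌋₊ I := rfl
    rw [h1] at h ⊢
    omega
  rw [hi]
  have h2 : ∀ n : ℕ, (2 : ℝ)⁻¹ ^ n = 2 ^ (-(n : ℝ)) := fun n => by
    rw [Real.rpow_neg (by norm_num), Real.rpow_natCast, inv_pow]
  rw [h2, h2]
  constructor
  · rw [hxt]
    refine Real.rpow_le_rpow_of_exponent_le one_le_two ?_
    push_cast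
    rw [← hxt]
    linarith [Nat.lt_floor_add_one (-Real.logb 2 x)]
  · nth_rewrite 1 [hxt]
    refine Real.rpow_le_rpow_of_exponent_le one_le_two ?_
    linarith [Nat.floor_le ht0]

theorem cidx_eq {d : ℕ} {q : E d → ℝ} (hq : ContDiff ℝ ∞ q) (R : ℝ) (I : ℕ) (z : E d)
    (h : (cidx q R I z : ℕ) = I) : AA ((R ^ 2)⁻¹ • Hs q z) ≤ 2⁻¹ ^ I := by
  set x := AA ((R ^ 2)⁻¹ • Hs q z) with hx
  have hx0 : 0 < x := AA_pos _ (Sy_smul_Hs hq _ _)
  have hx1 : x ≤ 1 := AA_le_one _ (Sy_smul_Hs hq _ _)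
  have ht0 : 0 ≤ -Real.logb 2 x := by
    rw [neg_nonneg]
    exact Real.logb_nonpos one_lt_two hx0.le hx1
  have hxt : x = 2 ^ (-(-Real.logb 2 x)) := by
    rw [neg_neg, Real.rpow_logb two_pos (by norm_num) hx0]
  have hi : I ≤ ⌊-Real.logb 2 x⌋₊ := by
    have h1 : (cidx q R I z : ℕ) = min ⌊-Real.logb 2 x⌋₊ I := rfl
    rw [h1] at h
    omega
  have h2 : ∀ n : ℕ, (2 : ℝ)⁻¹ ^ n = 2 ^ (-(n : ℝ)) := fun n => by
    rw [Real.rpow_neg (by norm_num), Real.rpow_natCast, inv_pow]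
  rw [h2, hxt]
  refine Real.rpow_le_rpow_of_exponent_le one_le_two ?_
  have h3 : (I : ℝ) ≤ ⌊-Real.logb 2 x⌋₊ := by exact_mod_cast hi
  linarith [Nat.floor_le ht0]


/-- One level, over the statement of `LOC`. -/
theorem ONE_L (d : ℕ) (A : ℕ → ℝ) (M : ℕ) (hM : d + 1 ≤ M) (al eps : ℝ) (hal : 0 < al)
    (heps : 0 < eps) (hloc : ∀ A' : ℕ → ℝ, LOCS d A' M al) :
    ∃ K : ℝ, 0 < K ∧ ∀ (a : E d → ℂ) (q : E d → ℝ) (r R L : ℝ) (G : Set (E d)) (D : E d → ℝ)
      (K1 : ℝ≥0∞), 1 ≤ R → 1 ≤ L → AmpR d A r R a → ContDiff ℝ ∞ q → MeasurableSet G →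
      (∀ y, a y ≠ 0 → Metric.closedBall y (1 / R) ⊆ G) →
      (∀ y ∈ G, L⁻¹ ≤ AA ((R ^ 2)⁻¹ • Hs q y)) →
      (∀ y ∈ G, ∀ j, 3 ≤ j → ‖iteratedFDeriv ℝ j q y‖ ≤ A j * R ^ j) →
      Measurable D → (∀ y ∈ G, 0 < D y) →
      (∀ x, ∫⁻ y in G, ENNReal.ofReal (wt M q R x y) * ENNReal.ofReal (D y) ≤ K1) →
      ∫⁻ x, ‖uu a q x‖ₑ ^ (2 + al) ≤ ENNReal.ofReal (K * L ^ eps) * K1 ^ al *
        ∫⁻ y in G, ENNReal.ofReal ((D y * AA ((R ^ 2)⁻¹ • Hs q y))⁻¹ ^ al) := by
  obtain ⟨A', hcls⟩ := classes d A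
  set A1 : ℕ → ℝ := fun j => max (A' j) (A j) with hA1
  obtain ⟨κ, K0, hκ, hκ4, hK0, hL⟩ := hloc A1
  obtain ⟨C2, hC2, hwt⟩ := lint_wt d M hM
  set e1 : ℝ := eps / (2 + al) with he1
  have he10 : 0 < e1 := by positivity
  obtain ⟨K3, hK3, hI⟩ := exists_I e1 he10
  set B3 : ℝ := max (A 3) 0 with hB3
  have hB30 : 0 ≤ B3 := le_max_right _ _
  set C0 : ℝ := (2 + 2 * (B3 * (2 * 1)) ^ 2) ^ ((d : ℝ) / 4) with hC0
  have hC01 : 1 ≤ C0 := Real.one_le_rpow (by nlinarith [sq_nonneg (B3 * (2 * 1))]) (by positivity)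
  have hC00 : 0 < C0 := by linarith
  set v0 : ℝ := min (volume (Metric.closedBall (0 : E d) 1)).toReal 1 with hv0
  have hVt : volume (Metric.closedBall (0 : E d) 1) ≠ ⊤ := measure_closedBall_lt_top.ne
  have hV0 : volume (Metric.closedBall (0 : E d) 1) ≠ 0 :=
    (Metric.measure_closedBall_pos volume _ one_pos).ne'
  have hv00 : 0 < v0 := lt_min (ENNReal.toReal_pos hV0 hVt) one_pos
  have hv01 : v0 ≤ 1 := min_le_right _ _
  have hv0V : ENNReal.ofReal v0 ≤ volume (Metric.closedBall (0 : E d) 1) := by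
    rw [← ENNReal.ofReal_toReal hVt]
    exact ENNReal.ofReal_le_ofReal (min_le_left _ _)
  set K5 : ℝ := K0 * C2 * (v0⁻¹) ^ (al / 2) * (2 * C0 ^ 2) ^ al with hK5
  have hK50 : 0 < K5 := by positivity
  refine ⟨K5 * K3 ^ (2 + al), by positivity, ?_⟩
  intro a q r R P G D K1 hR hP ha hq hG hsupp hH hder hDm hD hK1
  have hR0 : 0 < R := by linarith
  have hP0 : 0 < P := by linarith
  obtain ⟨I, hI1, hI2⟩ := hI P hP
  obtain ⟨hc1, hc2⟩ := hcls a r R hR ha
  set X : E d → ℝ≥0∞ := fun y =>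
    ENNReal.ofReal ((D y * AA ((R ^ 2)⁻¹ • Hs q y))⁻¹ ^ al) with hX
  have hAApos : ∀ y, 0 < AA ((R ^ 2)⁻¹ • Hs q y) := fun y => AA_pos _ (Sy_smul_Hs hq _ _)
  have hAAm : Measurable fun y : E d => AA ((R ^ 2)⁻¹ • Hs q y) := measurable_AAHs hq _
  set F : Fin (I + 1) → Set (E d) := fun i => cidx q R I ⁻¹' {i} with hF
  have hFm : ∀ i, MeasurableSet (F i) := fun i => measurable_cidx hq R I (measurableSet_singleton i)
  have hFd : ((Finset.univ : Finset (Fin (I + 1))) : Set (Fin (I + 1))).PairwiseDisjoint F := by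
    intro i _ j _ hij
    refine Set.disjoint_left.2 fun z hz hz' => hij ?_
    simp only [hF, mem_preimage, mem_singleton_iff] at hz hz'
    rw [← hz, ← hz']
  have hFu : (⋃ i ∈ (Finset.univ : Finset (Fin (I + 1))), F i) = univ := by
    ext z
    simp [hF]
  have hsum := hc2 Finset.univ F (fun i _ => hFm i) hFd hFu
  -- comparability of the factor
  have hcomp : ∀ y, a y ≠ 0 → ∀ z z', ‖z - y‖ ≤ 1 / R → ‖z' - y‖ ≤ 1 / R →
      AA ((R ^ 2)⁻¹ • Hs q z) ≤ C0 * AA ((R ^ 2)⁻¹ • Hs q z') := by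
    intro y hy z z' hz hz'
    have h1 := hsupp y hy
    refine AA_loc hq hR0 hB30 (z := y) (T := 1) (fun w hw => ?_) hz hz'
    refine (hder w (h1 (by rwa [mem_closedBall_iff_norm])) 3 le_rfl).trans ?_
    gcongr
    exact le_max_left _ _
  -- one class
  have hone : ∀ i : Fin (I + 1), ∫⁻ x, ‖uu (aF chi a R (F i)) q x‖ₑ ^ (2 + al) ≤
      ENNReal.ofReal K5 * K1 ^ al * ∫⁻ y in G, X y := by
    intro i
    rcases lt_or_eq_of_le (Nat.lt_succ_iff.1 i.2) with hi | hi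
    swap
    · -- the last class is empty
      have h0 : ∀ y, aF chi a R (F i) y = 0 := by
        intro y
        by_contra hne
        obtain ⟨hay, z, hz, hyz⟩ := (hc1 (F i) (hFm i)).2 y hne
        have hzG : z ∈ G := by
          refine hsupp y hay ?_
          rw [mem_closedBall_iff_norm, norm_sub_rev]
          refine hyz.trans ?_
          gcongr
          linarith
        have hz' : cidx q R I z = i := hz
        have h1 := cidx_eq hq R I z (by rw [hz']; exact hi)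
        have h4 := (hH z hzG).trans h1
        rw [inv_pow] at h4
        have h5 := (inv_le_inv₀ (by positivity) (by positivity)).1 h4
        linarith
      have h1 : ∀ x, uu (aF chi a R (F i)) q x = 0 := fun x => by
        unfold uu
        simp [h0]
      simp only [h1, enorm_zero]
      rw [ENNReal.zero_rpow_of_pos (by linarith)]
      simp
    -- a proper class
    set n : ℕ := (i : ℕ) with hn
    set T : ℝ := C0 * 2 ^ (n + 1) with hT
    have hT1 : 1 ≤ T := by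
      have : (1:ℝ) ≤ 2 ^ (n + 1) := one_le_pow₀ one_le_two
      nlinarith
    have hT0 : 0 < T := by linarith
    set Gi : Set (E d) := G ∩ {y | T⁻¹ ≤ AA ((R ^ 2)⁻¹ • Hs q y) ∧
      AA ((R ^ 2)⁻¹ • Hs q y) ≤ C0 * 2⁻¹ ^ n} with hGi
    have hGim : MeasurableSet Gi :=
      hG.inter ((measurableSet_le measurable_const hAAm).inter
        (measurableSet_le hAAm measurable_const))
    have hGiG : Gi ⊆ G := inter_subset_left
    set be : ℝ := T ^ 2 * v0⁻¹ with hbe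
    have hbe1 : 1 ≤ be := by
      have h1 : 1 ≤ v0⁻¹ := (one_le_inv₀ hv00).2 hv01
      have h2 : 1 ≤ T ^ 2 := one_le_pow₀ hT1
      nlinarith
    have hbe0 : 0 < be := by linarith
    have hloc := hL (aF chi a R (F i)) q r R be Gi hR hbe1
      ((hc1 (F i) (hFm i)).1.mono_const hR0 fun j => le_max_left _ _) hq hGim
      (by
        intro y hy y' hy'
        obtain ⟨hay, z, hz, hyz⟩ := (hc1 (F i) (hFm i)).2 y hy
        have hzy : ‖z - y‖ ≤ 1 / R := by
          rw [norm_sub_rev]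
          refine hyz.trans ?_
          gcongr
          linarith
        have hyy : ‖y' - y‖ ≤ 1 / R := by
          rw [mem_closedBall_iff_norm] at hy'
          refine hy'.trans ?_
          gcongr
          linarith
        have hz' : cidx q R I z = i := hz
        obtain ⟨h1, h2⟩ := cidx_lt hq R I z (by rw [hz']; exact hi)
        rw [hz'] at h1 h2
        refine ⟨hsupp y hay (by rwa [mem_closedBall_iff_norm]), ?_, ?_⟩
        · have h3 := hcomp y hay z y' hzy hyy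
          have h4 : (2 : ℝ)⁻¹ ^ (n + 1) ≤ C0 * AA ((R ^ 2)⁻¹ • Hs q y') := h1.trans h3
          rw [hT, mul_inv, ← inv_pow, inv_mul_le_iff₀ hC00]
          exact h4
        · have h3 := hcomp y hay y' z hyy hzy
          refine h3.trans ?_
          gcongr)
      (by
        intro y hy j hj
        refine (hder y (hGiG hy) j hj).trans ?_
        gcongr
        exact le_max_right _ _)
      (by
        intro y hy
        have h1 := vol_ellipsoid_le ((R ^ 2)⁻¹ • Hs q y) (Sy_smul_Hs hq _ y) (ρ := 1) zero_le_one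
        have h2 : {v : E d | ‖v‖ ≤ 1 ∧ ‖((R ^ 2)⁻¹ • Hs q y) v‖ ≤ 1} ⊆
            {v : E d | ‖v‖ ≤ 1 ∧ ‖Hs q y v‖ ≤ R ^ 2} := by
          intro v hv
          refine ⟨hv.1, ?_⟩
          have h3 := hv.2
          rw [smul_apply, norm_smul, Real.norm_of_nonneg (by positivity),
            inv_mul_le_iff₀ (by positivity), mul_one] at h3
          exact h3
        refine le_trans ?_ (h1.trans (measure_mono h2))
        refine le_trans ?_ (mul_le_mul_right hv0V _)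
        rw [← ENNReal.ofReal_mul (by positivity)]
        refine ENNReal.ofReal_le_ofReal ?_
        rw [one_pow, one_mul, hbe, mul_inv, inv_inv]
        refine mul_le_mul_of_nonneg_right ?_ hv00.le
        rw [← inv_pow]
        have h4 := hy.2.1
        have h5 : 0 < T⁻¹ := by positivity
        gcongr)
    refine hloc.trans ?_
    -- the Hoelder line
    have hhl := hl_kernel (volume : Measure (E d)) (volume.restrict Gi)
      (fun x y => ENNReal.ofReal (wt M q R x y)) (measurable_wt_unc hq R M) (fun y => (ENNReal.ofReal (D y))⁻¹) hDm.ennreal_ofReal.inv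
      (by
        refine (ae_restrict_iff' hGim).2 (Filter.Eventually.of_forall fun y hy => ?_)
        refine ⟨ENNReal.inv_ne_zero.2 ENNReal.ofReal_ne_top, ENNReal.inv_ne_top.2 ?_⟩
        rw [Ne, ENNReal.ofReal_eq_zero, not_le]
        exact hD y (hGiG hy)) al hal K1 (ENNReal.ofReal (C2 * R ^ d))
      (by
        intro x
        simp only [inv_inv]
        exact (lintegral_mono_set hGiG).trans (hK1 x))
      (Filter.Eventually.of_forall fun y => hwt q R hR0 y)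
    refine (mul_le_mul_right hhl _).trans ?_
    have hstep : ENNReal.ofReal (T ^ al) * ∫⁻ y in Gi, (ENNReal.ofReal (D y))⁻¹ ^ al ≤
        ENNReal.ofReal ((2 * C0 ^ 2) ^ al) * ∫⁻ y in G, X y := by
      rw [← lintegral_const_mul' _ _ ENNReal.ofReal_ne_top,
        ← lintegral_const_mul' _ _ ENNReal.ofReal_ne_top]
      refine le_trans ?_ (lintegral_mono_set hGiG)
      refine setLIntegral_mono' hGim fun y hy => ?_
      have hDy := hD y (hGiG hy)
      have hAy := hAApos y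
      rw [hX]
      simp only
      rw [← ENNReal.ofReal_inv_of_pos hDy, ENNReal.ofReal_rpow_of_nonneg (by positivity) hal.le,
        ← ENNReal.ofReal_mul (by positivity), ← ENNReal.ofReal_mul (by positivity)]
      refine ENNReal.ofReal_le_ofReal ?_
      rw [← Real.mul_rpow (by positivity) (by positivity),
        ← Real.mul_rpow (by positivity) (by positivity)]
      refine Real.rpow_le_rpow (by positivity) ?_ hal.le
      rw [mul_inv, mul_comm (D y)⁻¹, ← mul_assoc]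
      refine mul_le_mul_of_nonneg_right ?_ (by positivity)
      have h1 := hy.2.2
      rw [hT, ← div_eq_mul_inv, le_div_iff₀ hAy]
      calc C0 * 2 ^ (n + 1) * AA ((R ^ 2)⁻¹ • Hs q y)
          ≤ C0 * 2 ^ (n + 1) * (C0 * 2⁻¹ ^ n) := by gcongr
        _ = 2 * C0 ^ 2 * (2 ^ n * 2⁻¹ ^ n) := by ring
        _ = 2 * C0 ^ 2 := by rw [← mul_pow]; norm_num
    have hbeal : be ^ (al / 2) = T ^ al * v0⁻¹ ^ (al / 2) := by
      rw [hbe, Real.mul_rpow (by positivity) (by positivity), ← Real.rpow_natCast,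
        ← Real.rpow_mul hT0.le]
      congr 2
      push_cast
      ring
    calc ENNReal.ofReal (K0 * be ^ (al / 2) * (R ^ d)⁻¹) *
          (K1 ^ al * ENNReal.ofReal (C2 * R ^ d) * ∫⁻ y in Gi, (ENNReal.ofReal (D y))⁻¹ ^ al)
        = ENNReal.ofReal (K0 * C2 * v0⁻¹ ^ (al / 2)) * K1 ^ al *
          (ENNReal.ofReal (T ^ al) * ∫⁻ y in Gi, (ENNReal.ofReal (D y))⁻¹ ^ al) := by
          have h1 : ENNReal.ofReal (K0 * be ^ (al / 2) * (R ^ d)⁻¹) * ENNReal.ofReal (C2 * R ^ d) =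
              ENNReal.ofReal (K0 * C2 * v0⁻¹ ^ (al / 2)) * ENNReal.ofReal (T ^ al) := by
            rw [← ENNReal.ofReal_mul (by positivity), ← ENNReal.ofReal_mul (by positivity), hbeal]
            congr 1
            field_simp
          calc _ = ENNReal.ofReal (K0 * be ^ (al / 2) * (R ^ d)⁻¹) * ENNReal.ofReal (C2 * R ^ d) *
                (K1 ^ al * ∫⁻ y in Gi, (ENNReal.ofReal (D y))⁻¹ ^ al) := by ring
            _ = _ := by rw [h1]; ring
      _ ≤ ENNReal.ofReal (K0 * C2 * v0⁻¹ ^ (al / 2)) * K1 ^ al *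
          (ENNReal.ofReal ((2 * C0 ^ 2) ^ al) * ∫⁻ y in G, X y) := by gcongr
      _ = ENNReal.ofReal K5 * K1 ^ al * ∫⁻ y in G, X y := by
          rw [hK5, ENNReal.ofReal_mul (p := K0 * C2 * v0⁻¹ ^ (al / 2)) (by positivity)]
          ring
  -- the sum over the classes
  have hp1 : 1 ≤ 2 + al := by linarith
  have huu : ∀ x, uu a q x = ∑ i, uu (aF chi a R (F i)) q x := by
    intro x
    unfold uu
    rw [← integral_finsetSum _ fun i _ => (hc1 (F i) (hFm i)).1.integrable hq x]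
    refine integral_congr_ae (Filter.Eventually.of_forall fun y => ?_)
    simp only
    rw [← Finset.sum_mul, hsum y]
  calc ∫⁻ x, ‖uu a q x‖ₑ ^ (2 + al)
      ≤ ∫⁻ x, ENNReal.ofReal (((I + 1 : ℕ) : ℝ) ^ (2 + al - 1)) *
          ∑ i, ‖uu (aF chi a R (F i)) q x‖ₑ ^ (2 + al) := by
        refine lintegral_mono fun x => ?_
        rw [huu x]
        exact enorm_sum_rpow_le _ hp1
    _ = ENNReal.ofReal (((I + 1 : ℕ) : ℝ) ^ (2 + al - 1)) *
          ∑ i, ∫⁻ x, ‖uu (aF chi a R (F i)) q x‖ₑ ^ (2 + al) := by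
        rw [lintegral_const_mul' _ _ ENNReal.ofReal_ne_top, lintegral_finsetSum']
        intro i _
        exact ((measurable_uu_x (hc1 (F i) (hFm i)).1.sm.continuous hq).enorm.pow_const
          _).aemeasurable
    _ ≤ ENNReal.ofReal (((I + 1 : ℕ) : ℝ) ^ (2 + al - 1)) *
          ∑ _i : Fin (I + 1), ENNReal.ofReal K5 * K1 ^ al * ∫⁻ y in G, X y := by
        gcongr with i
        exact hone i
    _ = ENNReal.ofReal (((I + 1 : ℕ) : ℝ) ^ (2 + al) * K5) * K1 ^ al * ∫⁻ y in G, X y := by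
        rw [Finset.sum_const, Finset.card_univ, Fintype.card_fin, nsmul_eq_mul,
          ENNReal.ofReal_mul (p := ((I + 1 : ℕ) : ℝ) ^ (2 + al)) (q := K5) (by positivity)]
        have h1 : ENNReal.ofReal (((I + 1 : ℕ) : ℝ) ^ (2 + al)) =
            ENNReal.ofReal (((I + 1 : ℕ) : ℝ) ^ (2 + al - 1)) * ((I + 1 : ℕ) : ℝ≥0∞) := by
          rw [← ENNReal.ofReal_natCast, ← ENNReal.ofReal_mul (by positivity)]
          congr 1
          nth_rewrite 3 [← Real.rpow_one ((I + 1 : ℕ) : ℝ)]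
          rw [← Real.rpow_add (by positivity)]
          congr 1
          ring
        rw [h1]
        ring
    _ ≤ ENNReal.ofReal (K5 * K3 ^ (2 + al) * P ^ eps) * K1 ^ al * ∫⁻ y in G, X y := by
        refine mul_le_mul' (mul_le_mul' (ENNReal.ofReal_le_ofReal ?_) le_rfl) le_rfl
        have h1 : ((I + 1 : ℕ) : ℝ) ≤ K3 * P ^ e1 := by push_cast; exact hI2
        calc ((I + 1 : ℕ) : ℝ) ^ (2 + al) * K5 ≤ (K3 * P ^ e1) ^ (2 + al) * K5 := by
              gcongr
          _ = K5 * K3 ^ (2 + al) * P ^ eps := by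
              rw [Real.mul_rpow hK3.le (by positivity), ← Real.rpow_mul hP0.le]
              have : e1 * (2 + al) = eps := by
                rw [he1]
                field_simp
              rw [this]
              ring

/-- One level, over the statement of `LOC`: the Hessian is bounded by a power. -/
theorem ONE_of (d : ℕ) (A : ℕ → ℝ) (M : ℕ) (hM : d + 1 ≤ M) (al eps : ℝ) (hal : 0 < al)
    (heps : 0 < eps) (hloc : ∀ A' : ℕ → ℝ, LOCS d A' M al) :
    ∃ K : ℝ, 0 < K ∧ ∀ (a : E d → ℂ) (q : E d → ℝ) (r R P : ℝ) (G : Set (E d)) (D : E d → ℝ)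
      (K1 : ℝ≥0∞), 1 ≤ R → 1 ≤ P → AmpR d A r R a → ContDiff ℝ ∞ q → MeasurableSet G →
      (∀ y, a y ≠ 0 → Metric.closedBall y (1 / R) ⊆ G) →
      (∀ y ∈ G, ‖Hs q y‖ ≤ A 2 * P ^ 2) →
      (∀ y ∈ G, ∀ j, 3 ≤ j → ‖iteratedFDeriv ℝ j q y‖ ≤ A j * R ^ j) →
      Measurable D → (∀ y ∈ G, 0 < D y) →
      (∀ x, ∫⁻ y in G, ENNReal.ofReal (wt M q R x y) * ENNReal.ofReal (D y) ≤ K1) →
      ∫⁻ x, ‖uu a q x‖ₑ ^ (2 + al) ≤ ENNReal.ofReal (K * P ^ eps) * K1 ^ al *
        ∫⁻ y in G, ENNReal.ofReal ((D y * AA ((R ^ 2)⁻¹ • Hs q y))⁻¹ ^ al) := by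
  set e : ℝ := eps / (d + 1) with he
  have he0 : 0 < e := by positivity
  obtain ⟨K, hK, h⟩ := ONE_L d A M hM al e hal he0 hloc
  have hL1 : ∀ P : ℝ, 1 ≤ P → 1 ≤ (1 + (A 2 * P ^ 2) ^ 2) ^ ((d : ℝ) / 4) := fun P hP =>
    Real.one_le_rpow (by nlinarith [sq_nonneg (A 2 * P ^ 2)]) (by positivity)
  refine ⟨K * ((1 + A 2 ^ 2) ^ ((d : ℝ) / 4)) ^ e, by positivity, ?_⟩
  intro a q r R P G D K1 hR hP ha hq hG hsupp hH hder hDm hD hK1
  have hR0 : 0 < R := by linarith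
  have hP0 : 0 < P := by linarith
  refine (h a q r R _ G D K1 hR (hL1 P hP) ha hq hG hsupp (fun y hy => ?_) hder hDm hD hK1).trans ?_
  · rw [← Real.rpow_neg (by positivity)]
    refine le_AA _ (Sy_smul_Hs hq _ y) ?_
    rw [norm_smul, Real.norm_of_nonneg (by positivity)]
    refine (mul_le_of_le_one_left (norm_nonneg _) ?_).trans (hH y hy)
    exact inv_le_one_of_one_le₀ (one_le_pow₀ hR)
  · refine mul_le_mul' (mul_le_mul' (ENNReal.ofReal_le_ofReal ?_) le_rfl) le_rfl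
    rw [mul_assoc]
    refine mul_le_mul_of_nonneg_left ?_ hK.le
    have h3 : 1 ≤ P ^ 4 := one_le_pow₀ hP
    have h4 : 1 + (A 2 * P ^ 2) ^ 2 ≤ (1 + A 2 ^ 2) * P ^ 4 := by nlinarith
    calc ((1 + (A 2 * P ^ 2) ^ 2) ^ ((d : ℝ) / 4)) ^ e
        ≤ (((1 + A 2 ^ 2) * P ^ 4) ^ ((d : ℝ) / 4)) ^ e := by gcongr
      _ = ((1 + A 2 ^ 2) ^ ((d : ℝ) / 4)) ^ e * P ^ ((d : ℝ) * e) := by
          rw [Real.mul_rpow (by positivity) (by positivity),
            Real.mul_rpow (by positivity) (by positivity)]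
          congr 1
          rw [← Real.rpow_natCast, ← Real.rpow_mul hP0.le, ← Real.rpow_mul hP0.le]
          congr 1
          push_cast
          ring
      _ ≤ ((1 + A 2 ^ 2) ^ ((d : ℝ) / 4)) ^ e * P ^ eps := by
          refine mul_le_mul_of_nonneg_left (Real.rpow_le_rpow_of_exponent_le hP ?_) (by positivity)
          rw [he, mul_div_assoc', div_le_iff₀ (by positivity)]
          nlinarith

/-- One level, over the statement of `LOC`: any radius `κ`, weight `W = 1 / D`. -/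
theorem one_level_of (d N : ℕ) (hN : d < N) (A : ℕ → ℝ) (κ : ℝ) (hκ : 0 < κ) (p ε : ℝ) (hp : 2 < p)
    (hε : 0 < ε) (hloc : ∀ A' : ℕ → ℝ, LOCS d A' N (p - 2)) : ∃ K : ℝ, 0 < K ∧
    ∀ (b : E d → ℂ) (q : E d → ℝ) (r R Λ T : ℝ) (G : Set (E d)) (W : E d → ℝ),
      1 ≤ R → 1 ≤ Λ → 0 ≤ T → AmpR d A r R b → Quad d A R q G → MeasurableSet G →
      (∀ y, b y ≠ 0 → Metric.closedBall y (κ / R) ⊆ G) →
      (∀ y ∈ G, Λ⁻¹ ≤ AA (Mz q R y)) → Measurable W → (∀ y ∈ G, 0 < W y) →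
      (∀ x, ∫⁻ y in G, ENNReal.ofReal (wt N q R x y / W y) ≤ ENNReal.ofReal T) →
      ∫⁻ x, ‖uu b q x‖ₑ ^ p ≤ ENNReal.ofReal (K * Λ ^ ε * T ^ (p - 2)) *
        ∫⁻ y in G, ENNReal.ofReal ((W y / AA (Mz q R y)) ^ (p - 2)) := by
  have hal : 0 < p - 2 := by linarith
  obtain ⟨K, hK, h⟩ := ONE_L d (fun j => |A j|) N (by omega) (p - 2) ε hal hε hloc
  set c : ℝ := min κ 1 with hc
  have hc0 : 0 < c := lt_min hκ one_pos
  have hc1 : c ≤ 1 := min_le_right _ _
  have hcκ : c ≤ κ := min_le_left _ _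
  refine ⟨K * ((c ^ N)⁻¹) ^ (p - 2), by positivity, ?_⟩
  intro b q r R Λ T G W hR hΛ hT hb hq hG hsupp hAA hWm hW hT1
  have hR0 : 0 < R := by linarith
  set R' : ℝ := R / c with hR'
  have hRR : R ≤ R' := by
    rw [hR', le_div_iff₀ hc0]
    nlinarith
  have hR'0 : 0 < R' := by linarith
  have hR'1 : 1 ≤ R' := hR.trans hRR
  have hcR : R = c * R' := by rw [hR']; field_simp
  have hAmp : AmpR d (fun j => |A j|) r R' b := by
    refine ⟨hb.sm, hb.supp, fun j y => (hb.bd j y).trans ?_⟩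
    have := le_abs_self (A j)
    gcongr
  -- comparison of the factors
  have hAA' : ∀ y, AA (Mz q R y) ≤ AA ((R' ^ 2)⁻¹ • Hs q y) := by
    intro y
    have h1 : (R' ^ 2)⁻¹ • Hs q y = (c ^ 2) • Mz q R y := by
      unfold Mz
      rw [smul_smul]
      congr 1
      rw [hcR]
      field_simp
    rw [h1]
    exact AA_smul_ge _ (Sy_smul_Hs hq.sm _ y) (by positivity) (pow_le_one₀ hc0.le hc1)
  have hAApos : ∀ y, 0 < AA (Mz q R y) := fun y => AA_pos _ (Sy_smul_Hs hq.sm _ y)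
  have hmain := h b q r R' Λ G (fun y => (W y)⁻¹) (ENNReal.ofReal ((c ^ N)⁻¹ * T)) hR'1 hΛ hAmp hq.sm
    hG (fun y hy => (Metric.closedBall_subset_closedBall (by
      rw [hR', one_div, inv_div]
      gcongr)).trans (hsupp y hy)) (fun y hy => (hAA y hy).trans (hAA' y))
    (fun y hy j hj => (hq.bd y hy j hj).trans (by
      have := le_abs_self (A j)
      gcongr)) hWm.inv (fun y hy => inv_pos.2 (hW y hy)) (by
      intro x
      rw [ENNReal.ofReal_mul (by positivity)]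
      refine le_trans ?_ (mul_le_mul_right (hT1 x) _)
      rw [← lintegral_const_mul' _ _ ENNReal.ofReal_ne_top]
      refine setLIntegral_mono' hG fun y hy => ?_
      have hWy := hW y hy
      rw [← ENNReal.ofReal_mul (by unfold wt; positivity), ← ENNReal.ofReal_mul (by positivity)]
      refine ENNReal.ofReal_le_ofReal ?_
      rw [← div_eq_mul_inv, ← mul_div_assoc]
      gcongr
      unfold wt
      rw [← mul_inv]
      gcongr
      rw [← mul_pow]
      gcongr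
      have h2 : 0 ≤ ‖gr q y - x‖ := norm_nonneg _
      calc c * (1 + ‖gr q y - x‖ / R) = c + ‖gr q y - x‖ / R' := by
            rw [hcR]
            field_simp
        _ ≤ 1 + ‖gr q y - x‖ / R' := by linarith)
  have hp2 : 2 + (p - 2) = p := by ring
  rw [hp2] at hmain
  refine hmain.trans ?_
  refine mul_le_mul' ?_ (setLIntegral_mono' hG fun y hy => ?_)
  · rw [ENNReal.ofReal_rpow_of_nonneg (by positivity) hal.le, ← ENNReal.ofReal_mul (by positivity)]
    refine ENNReal.ofReal_le_ofReal (le_of_eq ?_)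
    rw [Real.mul_rpow (by positivity) hT]
    ring
  · have hWy := hW y hy
    have h1 := hAApos y
    have h2 := hAA' y
    have h3 : 0 < AA ((R' ^ 2)⁻¹ • Hs q y) := h1.trans_le h2
    refine ENNReal.ofReal_le_ofReal ?_
    refine Real.rpow_le_rpow (by positivity) ?_ hal.le
    rw [mul_inv, inv_inv, ← div_eq_mul_inv]
    gcongr

end Pool.Agent.GNP
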