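import Mathlib

/-!
Every phase in few dimensions: the integration in the last variable.
-/

namespace Pool.Agent.GNP

open MeasureTheory Set
open scoped ENNReal Real

/-- The contribution of one root at distance `t`, at the level `r`. -/
noncomputable def fr (r t : ℝ) : ℝ := √(1 + r ^ 2 * t) / max 1 (r * t)

theorem fr_nonneg (r t : ℝ) : 0 ≤ fr r t :=
  div_nonneg (Real.sqrt_nonneg _) (le_trans zero_le_one (le_max_left _ _))

theorem continuous_fr (r : ℝ) : Continuous (fr r) := by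
  unfold fr
  refine Continuous.div (by fun_prop) (by fun_prop) fun t => ?_
  have : (1 : ℝ) ≤ max 1 (r * t) := le_max_left _ _
  linarith

theorem s5_fr_le {r t : ℝ} (hr : 0 < r) (hr1 : r ≤ 1) (ht : 0 ≤ t) :
    fr r t ≤ 2 * ((1 + r * t)⁻¹ + (√(1 + t))⁻¹) := by
  have h1 : 0 < 1 + r * t := by positivity
  have h2 : 0 < √(1 + t) := Real.sqrt_pos.2 (by linarith)
  have h3 : √(1 + r ^ 2 * t) ≤ 1 + r * √t := by
    rw [show (1 : ℝ) + r * √t = √((1 + r * √t) ^ 2) from (Real.sqrt_sq (by positivity)).symm]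
    refine Real.sqrt_le_sqrt ?_
    nlinarith [Real.sq_sqrt ht, Real.sqrt_nonneg t, mul_nonneg hr.le (Real.sqrt_nonneg t)]
  have h4 : (1 + r * t) / 2 ≤ max 1 (r * t) := by
    rcases le_total 1 (r * t) with h | h
    · rw [max_eq_right h]; linarith
    · rw [max_eq_left h]; linarith
  have h5 : √t * √(1 + t) ≤ t + 1 / 2 := by
    have := Real.sq_sqrt ht
    have h6 := Real.sq_sqrt (show (0 : ℝ) ≤ 1 + t by linarith)
    nlinarith [sq_nonneg (√t - √(1 + t))]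
  have h7 : r * √t * √(1 + t) ≤ 1 + r * t := by
    have : r * (√t * √(1 + t)) ≤ r * (t + 1 / 2) := mul_le_mul_of_nonneg_left h5 hr.le
    nlinarith
  have h8 : r * √t / (1 + r * t) ≤ (√(1 + t))⁻¹ := by
    rw [div_le_iff₀ h1, inv_mul_eq_div, le_div_iff₀ h2]
    exact h7
  calc fr r t ≤ (1 + r * √t) / ((1 + r * t) / 2) := by
        unfold fr
        exact div_le_div₀ (by positivity) h3 (by positivity) h4
    _ = 2 * ((1 + r * t)⁻¹ + r * √t / (1 + r * t)) := by field_simp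
    _ ≤ _ := by gcongr

theorem s5_fr_far {r t : ℝ} (hr : 0 < r) (ht : 1 / r ^ 2 ≤ t) :
    fr r t ≤ 2 * t ^ (-(1 / 2) : ℝ) := by
  have hr2 : 0 < r ^ 2 := by positivity
  have ht0 : 0 < t := lt_of_lt_of_le (by positivity) ht
  have h1 : 1 ≤ r ^ 2 * t := by
    rw [div_le_iff₀ hr2] at ht
    linarith
  have h2 : √(1 + r ^ 2 * t) ≤ 2 * (r * √t) := by
    rw [show (2 : ℝ) * (r * √t) = √((2 * (r * √t)) ^ 2) from (Real.sqrt_sq (by positivity)).symm]
    refine Real.sqrt_le_sqrt ?_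
    rw [mul_pow, mul_pow, Real.sq_sqrt ht0.le]
    nlinarith
  have h3 : 0 < r * t := by positivity
  calc fr r t ≤ (2 * (r * √t)) / (r * t) := by
        unfold fr
        exact div_le_div₀ (by positivity) h2 h3 (le_max_right _ _)
    _ = 2 * (√t)⁻¹ := by
        have h4 : t = √t * √t := (Real.mul_self_sqrt ht0.le).symm
        have h5 : 0 < √t := Real.sqrt_pos.2 ht0
        rw [show 2 * (r * √t) / (r * t) = 2 * (√t / t) by field_simp]
        congr 1
        rw [div_eq_iff ht0.ne']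
        nth_rewrite 3 [h4]
        field_simp
    _ = _ := by
        rw [Real.sqrt_eq_rpow, ← Real.rpow_neg ht0.le]

theorem s5_scale (f : ℝ → ℝ≥0∞) (hf : Measurable f) {r : ℝ} (hr : 0 < r) :
    ∫⁻ σ : ℝ, f (r * σ) = ENNReal.ofReal r⁻¹ * ∫⁻ σ : ℝ, f σ := by
  rw [← lintegral_map (μ := volume) hf (measurable_const_mul r), Real.map_volume_mul_left hr.ne',
    lintegral_smul_measure, abs_of_pos (inv_pos.2 hr), smul_eq_mul]

theorem s5_g1_int (β : ℝ) (hβ : 1 < β) : ∃ K : ℝ, 0 < K ∧ ∀ (r s : ℝ), 0 < r →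
    ∫⁻ σ : ℝ, ENNReal.ofReal ((1 + r * |σ - s|) ^ (-β)) ≤ ENNReal.ofReal (K * r⁻¹) := by
  have h := finite_integral_one_add_norm (E := ℝ) (μ := volume) (r := β) (by simpa using hβ)
  set I := ∫⁻ x : ℝ, ENNReal.ofReal ((1 + ‖x‖) ^ (-β)) with hI
  refine ⟨I.toReal + 1, by positivity, fun r s hr => ?_⟩
  have h1 : ∫⁻ σ : ℝ, ENNReal.ofReal ((1 + r * |σ - s|) ^ (-β)) =
      ∫⁻ σ : ℝ, ENNReal.ofReal ((1 + r * |σ|) ^ (-β)) :=
    lintegral_sub_right_eq_self (fun σ : ℝ => ENNReal.ofReal ((1 + r * |σ|) ^ (-β))) s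
  have h2 : ∫⁻ σ : ℝ, ENNReal.ofReal ((1 + r * |σ|) ^ (-β)) = ENNReal.ofReal r⁻¹ * I := by
    rw [hI, ← s5_scale (fun x : ℝ => ENNReal.ofReal ((1 + ‖x‖) ^ (-β))) (by fun_prop) hr]
    refine lintegral_congr fun σ => ?_
    rw [Real.norm_eq_abs, abs_mul, abs_of_pos hr]
  rw [h1, h2, mul_comm (I.toReal + 1), ENNReal.ofReal_mul (by positivity)]
  gcongr
  rw [← ENNReal.ofReal_toReal h.ne]
  exact ENNReal.ofReal_le_ofReal (by rw [ENNReal.toReal_ofReal ENNReal.toReal_nonneg]; linarith)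

theorem s5_g2_base (γ α' : ℝ) (hγ : γ < 1) (h1 : 1 < γ + α') :
    ∫⁻ u : ℝ, ENNReal.ofReal (|u| ^ (-γ) * (max 1 |u|) ^ (-α')) < ∞ := by
  have hle : ∀ u : ℝ, ENNReal.ofReal (|u| ^ (-γ) * (max 1 |u|) ^ (-α')) ≤
      (Icc (-1 : ℝ) 1).indicator (fun u => ENNReal.ofReal (|u| ^ (-γ))) u +
        ENNReal.ofReal (2 ^ (γ + α')) * ENNReal.ofReal ((1 + ‖u‖) ^ (-(γ + α'))) := by
    intro u
    by_cases hu : |u| ≤ 1
    · have hm : u ∈ Icc (-1 : ℝ) 1 := abs_le.1 hu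
      rw [indicator_of_mem hm, max_eq_left hu, Real.one_rpow, mul_one]
      exact le_self_add
    · push Not at hu
      refine le_trans ?_ le_add_self
      rw [← ENNReal.ofReal_mul (by positivity)]
      refine ENNReal.ofReal_le_ofReal ?_
      rw [max_eq_right hu.le, ← Real.rpow_add (by linarith), Real.norm_eq_abs,
        show -γ + -α' = -(γ + α') by ring]
      have h2 : (1 + |u|) / 2 ≤ |u| := by linarith
      have h3 : |u| ^ (-(γ + α')) ≤ ((1 + |u|) / 2) ^ (-(γ + α')) :=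
        Real.rpow_le_rpow_of_nonpos (by linarith) h2 (by linarith)
      refine h3.trans (le_of_eq ?_)
      rw [Real.div_rpow (by linarith) (by norm_num), Real.rpow_neg (by norm_num : (0 : ℝ) ≤ 2),
        div_inv_eq_mul, mul_comm]
  refine (lintegral_mono hle).trans_lt ?_
  rw [lintegral_add_left (by
    refine Measurable.indicator ?_ measurableSet_Icc
    fun_prop), lintegral_indicator measurableSet_Icc, lintegral_const_mul _ (by fun_prop)]
  refine ENNReal.add_lt_top.2 ⟨?_, ENNReal.mul_lt_top ENNReal.ofReal_lt_top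
    (finite_integral_one_add_norm (E := ℝ) (μ := volume) (by simpa using h1))⟩
  have hint : IntegrableOn (fun u : ℝ => |u| ^ (-γ)) (Icc (-1 : ℝ) 1) := by
    have ha : IntegrableOn (fun u : ℝ => |u| ^ (-γ)) (Ioc (0 : ℝ) 1) := by
      have h2 : IntervalIntegrable (fun u : ℝ => u ^ (-γ)) volume 0 1 :=
        intervalIntegral.intervalIntegrable_rpow' (by linarith)
      rw [intervalIntegrable_iff_integrableOn_Ioc_of_le zero_le_one] at h2
      refine h2.congr_fun (fun u hu => ?_) measurableSet_Ioc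
      rw [abs_of_pos hu.1]
    have hb : IntegrableOn (fun u : ℝ => |u| ^ (-γ)) (Ico (-1 : ℝ) 0) := by
      have h3 : IntegrableOn (fun u : ℝ => |(-u)| ^ (-γ)) (Ico (-1 : ℝ) 0) := by
        have h4 := ha.comp_neg
        simpa using h4
      simpa using h3
    have hc : IntegrableOn (fun u : ℝ => |u| ^ (-γ)) (Ico (-1 : ℝ) 0 ∪ {0} ∪ Ioc (0 : ℝ) 1) :=
      (hb.union (by simp)).union ha
    refine hc.mono_set fun u hu => ?_
    rcases lt_trichotomy u 0 with h | h | h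
    · exact Or.inl (Or.inl ⟨hu.1, h⟩)
    · exact Or.inl (Or.inr h)
    · exact Or.inr ⟨h, hu.2⟩
  have := hint.2
  rw [hasFiniteIntegral_iff_ofReal] at this
  · exact this
  · exact Filter.Eventually.of_forall fun u => by positivity

theorem s5_g2_int (γ α' : ℝ) (hγ0 : 0 ≤ γ) (hγ : γ < 1) (hα' : 0 ≤ α') (h1 : 1 < γ + α') :
    ∃ K : ℝ, 0 < K ∧ ∀ (T s : ℝ), 0 < T →
      ∫⁻ σ : ℝ, ENNReal.ofReal ((1 + |σ - s|) ^ (-γ) * (max T |σ - s|) ^ (-α')) ≤
        ENNReal.ofReal (K * T ^ (1 - γ - α')) := by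
  have h := s5_g2_base γ α' hγ h1
  set I := ∫⁻ u : ℝ, ENNReal.ofReal (|u| ^ (-γ) * (max 1 |u|) ^ (-α')) with hI
  refine ⟨I.toReal + 1, by positivity, fun T s hT => ?_⟩
  have hT' : 0 < T⁻¹ := inv_pos.2 hT
  have ha : ∫⁻ σ : ℝ, ENNReal.ofReal ((1 + |σ - s|) ^ (-γ) * (max T |σ - s|) ^ (-α')) =
      ∫⁻ σ : ℝ, ENNReal.ofReal ((1 + |σ|) ^ (-γ) * (max T |σ|) ^ (-α')) :=
    lintegral_sub_right_eq_self
      (fun σ : ℝ => ENNReal.ofReal ((1 + |σ|) ^ (-γ) * (max T |σ|) ^ (-α'))) s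
  have hb : ∫⁻ σ : ℝ, ENNReal.ofReal ((1 + |σ|) ^ (-γ) * (max T |σ|) ^ (-α')) ≤
      ∫⁻ σ : ℝ, ENNReal.ofReal (T ^ (-γ - α')) *
        ENNReal.ofReal (|T⁻¹ * σ| ^ (-γ) * (max 1 |T⁻¹ * σ|) ^ (-α')) := by
    refine lintegral_mono_ae ?_
    filter_upwards [(countable_singleton (0 : ℝ)).ae_notMem volume] with σ hσ
    have hσ0 : 0 < |σ| := abs_pos.2 (by simpa using hσ)
    rw [← ENNReal.ofReal_mul (by positivity)]
    refine ENNReal.ofReal_le_ofReal ?_
    have h2 : max T |σ| = T * max 1 |T⁻¹ * σ| := by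
      rw [abs_mul, abs_of_pos hT', mul_max_of_nonneg _ _ hT.le, mul_one, ← mul_assoc,
        mul_inv_cancel₀ hT.ne', one_mul]
    have h3 : |σ| = T * |T⁻¹ * σ| := by
      rw [abs_mul, abs_of_pos hT', ← mul_assoc, mul_inv_cancel₀ hT.ne', one_mul]
    have h4 : (1 + |σ|) ^ (-γ) ≤ |σ| ^ (-γ) :=
      Real.rpow_le_rpow_of_nonpos hσ0 (by linarith) (by linarith)
    calc (1 + |σ|) ^ (-γ) * (max T |σ|) ^ (-α') ≤ |σ| ^ (-γ) * (max T |σ|) ^ (-α') := by
          gcongr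
      _ = (T ^ (-γ) * |T⁻¹ * σ| ^ (-γ)) * (T ^ (-α') * (max 1 |T⁻¹ * σ|) ^ (-α')) := by
          rw [h2, Real.mul_rpow hT.le (by positivity)]
          congr 1
          nth_rewrite 1 [h3]
          rw [Real.mul_rpow hT.le (by positivity)]
      _ = T ^ (-γ - α') * (|T⁻¹ * σ| ^ (-γ) * (max 1 |T⁻¹ * σ|) ^ (-α')) := by
          rw [show -γ - α' = -γ + -α' by ring, Real.rpow_add hT]
          ring
  rw [ha]
  refine hb.trans ?_
  rw [lintegral_const_mul _ (by fun_prop),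
    s5_scale (fun u : ℝ => ENNReal.ofReal (|u| ^ (-γ) * (max 1 |u|) ^ (-α'))) (by fun_prop) hT',
    ← hI, inv_inv, ← mul_assoc, ← ENNReal.ofReal_mul (by positivity)]
  have h5 : T ^ (-γ - α') * T = T ^ (1 - γ - α') := by
    rw [show 1 - γ - α' = (-γ - α') + 1 by ring, Real.rpow_add hT, Real.rpow_one]
  rw [h5, mul_comm (I.toReal + 1), ENNReal.ofReal_mul (by positivity)]
  gcongr
  rw [← ENNReal.ofReal_toReal h.ne]
  exact ENNReal.ofReal_le_ofReal (by rw [ENNReal.toReal_ofReal ENNReal.toReal_nonneg]; linarith)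

/-- Powers of `fr`. -/
theorem s5_fr_pow {r t β : ℝ} (hr : 0 < r) (hr1 : r ≤ 1) (ht : 0 ≤ t) (hβ : 0 ≤ β) :
    fr r t ^ β ≤ 4 ^ β * ((1 + r * t) ^ (-β) + (1 + t) ^ (-(β / 2))) := by
  have hx : 0 < (1 + r * t)⁻¹ := by positivity
  have hy : 0 < (√(1 + t))⁻¹ := inv_pos.2 (Real.sqrt_pos.2 (by linarith))
  set x := (1 + r * t)⁻¹ with hxd
  set y := (√(1 + t))⁻¹ with hyd
  have h1 : fr r t ≤ 4 * max x y := by
    refine (s5_fr_le hr hr1 ht).trans ?_
    nlinarith [le_max_left x y, le_max_right x y]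
  have h2 : fr r t ^ β ≤ (4 * max x y) ^ β := Real.rpow_le_rpow (fr_nonneg _ _) h1 hβ
  refine h2.trans ?_
  rw [Real.mul_rpow (by norm_num) (by positivity)]
  have h3 : (max x y) ^ β ≤ x ^ β + y ^ β := by
    rcases le_total x y with h | h
    · rw [max_eq_right h]; linarith [Real.rpow_nonneg hx.le β]
    · rw [max_eq_left h]; linarith [Real.rpow_nonneg hy.le β]
  have h4 : x ^ β = (1 + r * t) ^ (-β) := by
    rw [hxd, Real.inv_rpow (by positivity), Real.rpow_neg (by positivity)]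
  have h5 : y ^ β = (1 + t) ^ (-(β / 2)) := by
    rw [hyd, Real.inv_rpow (Real.sqrt_nonneg _), Real.rpow_neg (by linarith), Real.sqrt_eq_rpow,
      ← Real.rpow_mul (by linarith)]
    congr 2
    ring
  rw [← h4, ← h5]
  gcongr

theorem s5_prod_pow_le {ι : Type*} (F : Finset ι) (f : ι → ℝ) (hf : ∀ i, 0 ≤ f i) (hF : F.Nonempty)
    {α : ℝ} (hα : 0 ≤ α) : (∏ i ∈ F, f i) ^ α ≤ ∑ i ∈ F, f i ^ ((F.card : ℝ) * α) := by
  obtain ⟨j, hj, hmax⟩ := F.exists_max_image f hF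
  have h1 : ∏ i ∈ F, f i ≤ f j ^ F.card := by
    calc ∏ i ∈ F, f i ≤ ∏ i ∈ F, f j := Finset.prod_le_prod (fun i _ => hf i) fun i hi => hmax i hi
      _ = _ := by rw [Finset.prod_const]
  have h2 : (∏ i ∈ F, f i) ^ α ≤ (f j ^ F.card) ^ α :=
    Real.rpow_le_rpow (Finset.prod_nonneg fun i _ => hf i) h1 hα
  refine h2.trans ?_
  rw [← Real.rpow_natCast, ← Real.rpow_mul (hf j)]
  exact Finset.single_le_sum (f := fun i => f i ^ ((F.card : ℝ) * α))
    (fun i _ => Real.rpow_nonneg (hf i) _) hj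

theorem s5_fr_int (β : ℝ) (hβ : 2 < β) : ∃ K : ℝ, 0 < K ∧ ∀ (r s : ℝ), 0 < r → r ≤ 1 →
    ∫⁻ σ : ℝ, ENNReal.ofReal (fr r |σ - s| ^ β) ≤ ENNReal.ofReal (K * r⁻¹) := by
  obtain ⟨K1, hK1, h1⟩ := s5_g1_int β (by linarith)
  obtain ⟨K2, hK2, h2⟩ := s5_g1_int (β / 2) (by linarith)
  refine ⟨4 ^ β * (K1 + K2), by positivity, fun r s hr hr1 => ?_⟩
  have hle : ∀ σ : ℝ, ENNReal.ofReal (fr r |σ - s| ^ β) ≤ ENNReal.ofReal (4 ^ β) *
      (ENNReal.ofReal ((1 + r * |σ - s|) ^ (-β)) +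
        ENNReal.ofReal ((1 + 1 * |σ - s|) ^ (-(β / 2)))) := by
    intro σ
    rw [← ENNReal.ofReal_add (by positivity) (by positivity), ← ENNReal.ofReal_mul (by positivity)]
    refine ENNReal.ofReal_le_ofReal ?_
    have := s5_fr_pow hr hr1 (abs_nonneg (σ - s)) (show 0 ≤ β by linarith)
    rwa [one_mul]
  refine (lintegral_mono hle).trans ?_
  rw [lintegral_const_mul _ (by fun_prop), lintegral_add_left (by fun_prop), mul_assoc,
    ENNReal.ofReal_mul (by positivity)]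
  gcongr
  rw [add_mul, ENNReal.ofReal_add (by positivity) (by positivity)]
  refine add_le_add (h1 r s hr) ((h2 1 s one_pos).trans (ENNReal.ofReal_le_ofReal ?_))
  have : 1 ≤ r⁻¹ := (one_le_inv₀ hr).2 hr1
  rw [inv_one]
  gcongr

/-- (a) The integral over all `σ`. -/
theorem S5a (d : ℕ) (hd : 1 ≤ d) (α : ℝ) (hα : 2 / (d : ℝ) < α) : ∃ K : ℝ, 0 < K ∧
    ∀ (r : ℝ) (s : Fin d → ℝ), 0 < r → r ≤ 1 →
    ∫⁻ σ : ℝ, ENNReal.ofReal ((∏ i, fr r |σ - s i|) ^ α) ≤ ENNReal.ofReal (K / r) := by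
  have hd0 : (0 : ℝ) < d := by exact_mod_cast hd
  have hα0 : 0 < α := lt_trans (by positivity) hα
  have hβ : 2 < (d : ℝ) * α := by
    rw [div_lt_iff₀ hd0] at hα
    linarith
  obtain ⟨K, hK, h⟩ := s5_fr_int ((d : ℝ) * α) hβ
  refine ⟨d * K, by positivity, fun r s hr hr1 => ?_⟩
  have : Nonempty (Fin d) := ⟨⟨0, hd⟩⟩
  have hle : ∀ σ : ℝ, ENNReal.ofReal ((∏ i, fr r |σ - s i|) ^ α) ≤
      ∑ i : Fin d, ENNReal.ofReal (fr r |σ - s i| ^ ((d : ℝ) * α)) := by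
    intro σ
    rw [← ENNReal.ofReal_sum_of_nonneg fun i _ => Real.rpow_nonneg (fr_nonneg _ _) _]
    refine ENNReal.ofReal_le_ofReal ?_
    have := s5_prod_pow_le Finset.univ (fun i => fr r |σ - s i|) (fun i => fr_nonneg _ _)
      Finset.univ_nonempty hα0.le
    simpa using this
  refine (lintegral_mono hle).trans ?_
  rw [lintegral_finsetSum' _ fun i _ => by
    refine Measurable.aemeasurable ?_
    have : Measurable fun σ : ℝ => fr r |σ - s i| := (continuous_fr r).measurable.comp (by fun_prop)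
    fun_prop]
  refine (Finset.sum_le_sum fun i _ => h r (s i) hr hr1).trans ?_
  rw [Finset.sum_const, Finset.card_univ, Fintype.card_fin, nsmul_eq_mul,
    show (d : ℝ≥0∞) = ENNReal.ofReal d by simp, ← ENNReal.ofReal_mul (by positivity)]
  exact ENNReal.ofReal_le_ofReal (le_of_eq (by ring))

theorem S5b_one (d : ℕ) (hd : 2 ≤ d) (α : ℝ) (hα : 2 / (d : ℝ) < α) : ∃ K : ℝ, 0 < K ∧
    ∀ (r T : ℝ) (s : Fin d → ℝ) (j : Fin d), 0 < r → r ≤ 1 → 1 / r ^ 2 ≤ T →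
    ∫⁻ σ in {σ : ℝ | T ≤ |σ - s j| ∧ ∀ i, |σ - s i| ≤ |σ - s j|},
      ENNReal.ofReal ((∏ i, fr r |σ - s i|) ^ α) ≤
      ENNReal.ofReal (K * (r⁻¹ * T ^ (-(α / 2)) + 1)) := by
  have hd2 : (2 : ℝ) ≤ d := by exact_mod_cast hd
  have hd0 : (0 : ℝ) < d := by linarith
  have hd1 : (0 : ℝ) < (d : ℝ) - 1 := by linarith
  have hα0 : 0 < α := lt_trans (by positivity) hα
  rw [div_lt_iff₀ hd0] at hα
  set β : ℝ := ((d : ℝ) - 1) * α with hβ
  have hβ1 : 1 < β := by rw [hβ]; nlinarith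
  have hex : ∃ γ : ℝ, 0 ≤ γ ∧ γ < 1 ∧ γ ≤ β / 2 ∧ 1 < γ + α / 2 := by
    rcases lt_or_ge (β / 2) 1 with h | h
    · exact ⟨β / 2, by linarith, h, le_rfl, by rw [hβ]; linarith⟩
    · rcases lt_or_ge α 4 with h4 | h4
      · exact ⟨1 - α / 4, by linarith, by linarith, by linarith, by linarith⟩
      · exact ⟨0, le_rfl, one_pos, by linarith, by linarith⟩
  obtain ⟨γ, hγ0, hγ1, hγβ, hγα⟩ := hex
  obtain ⟨K1, hK1, h1⟩ := s5_g1_int β hβ1
  obtain ⟨K2, hK2, h2⟩ := s5_g2_int γ (α / 2) hγ0 hγ1 (by linarith) hγα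
  refine ⟨2 ^ α * 4 ^ β * d * (K1 + K2), by positivity, fun r T s j hr hr1 hT => ?_⟩
  have hT0 : 0 < T := lt_of_lt_of_le (by positivity) hT
  have hT1 : 1 ≤ T := by
    refine le_trans ?_ hT
    rw [le_div_iff₀ (by positivity)]
    nlinarith
  have hcard : ((Finset.univ.erase j).card : ℝ) = (d : ℝ) - 1 := by
    rw [Finset.card_erase_of_mem (Finset.mem_univ j), Finset.card_univ, Fintype.card_fin,
      Nat.cast_sub (by omega)]
    simp
  have hne : (Finset.univ.erase j).Nonempty := by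
    rw [← Finset.card_pos, Finset.card_erase_of_mem (Finset.mem_univ j), Finset.card_univ,
      Fintype.card_fin]
    omega
  have hpt : ∀ σ ∈ {σ : ℝ | T ≤ |σ - s j| ∧ ∀ i, |σ - s i| ≤ |σ - s j|},
      ENNReal.ofReal ((∏ i, fr r |σ - s i|) ^ α) ≤ ENNReal.ofReal (2 ^ α * 4 ^ β) *
        ∑ i : Fin d, (ENNReal.ofReal (T ^ (-(α / 2))) *
            ENNReal.ofReal ((1 + r * |σ - s i|) ^ (-β)) +
          ENNReal.ofReal ((1 + |σ - s i|) ^ (-γ) * (max T |σ - s i|) ^ (-(α / 2)))) := by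
    rintro σ ⟨hσ1, hσ2⟩
    have hj0 : 0 < |σ - s j| := lt_of_lt_of_le hT0 hσ1
    have ha : fr r |σ - s j| ^ α ≤ 2 ^ α * |σ - s j| ^ (-(α / 2)) := by
      have h3 := Real.rpow_le_rpow (fr_nonneg _ _) (s5_fr_far hr (hT.trans hσ1)) hα0.le
      refine h3.trans (le_of_eq ?_)
      rw [Real.mul_rpow (by norm_num) (by positivity), ← Real.rpow_mul hj0.le]
      congr 2
      ring
    have hb : (∏ i ∈ Finset.univ.erase j, fr r |σ - s i|) ^ α ≤
        ∑ i ∈ Finset.univ.erase j, fr r |σ - s i| ^ β := by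
      have := s5_prod_pow_le (Finset.univ.erase j) (fun i => fr r |σ - s i|)
        (fun i => fr_nonneg _ _) hne hα0.le
      rwa [hcard] at this
    have hc : (∏ i, fr r |σ - s i|) ^ α =
        (∏ i ∈ Finset.univ.erase j, fr r |σ - s i|) ^ α * fr r |σ - s j| ^ α := by
      rw [← Real.mul_rpow (Finset.prod_nonneg fun i _ => fr_nonneg _ _) (fr_nonneg _ _),
        Finset.prod_erase_mul _ _ (Finset.mem_univ j)]
    have hd' : ∀ i : Fin d, fr r |σ - s i| ^ β * (2 ^ α * |σ - s j| ^ (-(α / 2))) ≤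
        2 ^ α * 4 ^ β * (T ^ (-(α / 2)) * (1 + r * |σ - s i|) ^ (-β) +
          (1 + |σ - s i|) ^ (-γ) * (max T |σ - s i|) ^ (-(α / 2))) := by
      intro i
      have h4 := s5_fr_pow hr hr1 (abs_nonneg (σ - s i)) (show 0 ≤ β by linarith)
      have h5 : |σ - s j| ^ (-(α / 2)) ≤ T ^ (-(α / 2)) :=
        Real.rpow_le_rpow_of_nonpos hT0 hσ1 (by linarith)
      have h6 : |σ - s j| ^ (-(α / 2)) ≤ (max T |σ - s i|) ^ (-(α / 2)) :=
        Real.rpow_le_rpow_of_nonpos (lt_of_lt_of_le hT0 (le_max_left _ _))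
          (max_le hσ1 (hσ2 i)) (by linarith)
      have hp1 : 0 ≤ (1 + r * |σ - s i|) ^ (-β) := by positivity
      have hp2 : 0 ≤ (1 + |σ - s i|) ^ (-(β / 2)) := by positivity
      have hp4 : (1 + |σ - s i|) ^ (-(β / 2)) ≤ (1 + |σ - s i|) ^ (-γ) :=
        Real.rpow_le_rpow_of_exponent_le (by linarith [abs_nonneg (σ - s i)]) (by linarith)
      have hp5 : 0 ≤ (1 + |σ - s i|) ^ (-γ) := by positivity
      have hp3 : 0 ≤ |σ - s j| ^ (-(α / 2)) := by positivity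
      calc fr r |σ - s i| ^ β * (2 ^ α * |σ - s j| ^ (-(α / 2)))
          ≤ (4 ^ β * ((1 + r * |σ - s i|) ^ (-β) + (1 + |σ - s i|) ^ (-(β / 2)))) *
            (2 ^ α * |σ - s j| ^ (-(α / 2))) := by gcongr
        _ = 2 ^ α * 4 ^ β * (|σ - s j| ^ (-(α / 2)) * (1 + r * |σ - s i|) ^ (-β) +
            (1 + |σ - s i|) ^ (-(β / 2)) * |σ - s j| ^ (-(α / 2))) := by ring
        _ ≤ _ := by gcongr
    have hsum : (∏ i, fr r |σ - s i|) ^ α ≤ ∑ i : Fin d, 2 ^ α * 4 ^ β *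
        (T ^ (-(α / 2)) * (1 + r * |σ - s i|) ^ (-β) +
          (1 + |σ - s i|) ^ (-γ) * (max T |σ - s i|) ^ (-(α / 2))) := by
      calc (∏ i, fr r |σ - s i|) ^ α
          ≤ (∑ i ∈ Finset.univ.erase j, fr r |σ - s i| ^ β) *
              (2 ^ α * |σ - s j| ^ (-(α / 2))) := by
            rw [hc]
            exact mul_le_mul hb ha (Real.rpow_nonneg (fr_nonneg _ _) _)
              (Finset.sum_nonneg fun i _ => Real.rpow_nonneg (fr_nonneg _ _) _)
        _ = ∑ i ∈ Finset.univ.erase j, fr r |σ - s i| ^ β *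
              (2 ^ α * |σ - s j| ^ (-(α / 2))) := by rw [Finset.sum_mul]
        _ ≤ ∑ i ∈ Finset.univ.erase j, 2 ^ α * 4 ^ β *
              (T ^ (-(α / 2)) * (1 + r * |σ - s i|) ^ (-β) +
              (1 + |σ - s i|) ^ (-γ) * (max T |σ - s i|) ^ (-(α / 2))) :=
            Finset.sum_le_sum fun i _ => hd' i
        _ ≤ _ := Finset.sum_le_sum_of_subset_of_nonneg (Finset.erase_subset _ _)
              fun i _ _ => by positivity
    refine (ENNReal.ofReal_le_ofReal hsum).trans (le_of_eq ?_)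
    rw [ENNReal.ofReal_sum_of_nonneg fun i _ => by positivity, Finset.mul_sum]
    refine Finset.sum_congr rfl fun i _ => ?_
    rw [ENNReal.ofReal_mul (show (0 : ℝ) ≤ 2 ^ α * 4 ^ β by positivity),
      ENNReal.ofReal_add (by positivity) (by positivity),
      ENNReal.ofReal_mul (show (0 : ℝ) ≤ T ^ (-(α / 2)) by positivity)]
  have hms : MeasurableSet {σ : ℝ | T ≤ |σ - s j| ∧ ∀ i, |σ - s i| ≤ |σ - s j|} := by
    have h3 : {σ : ℝ | T ≤ |σ - s j| ∧ ∀ i, |σ - s i| ≤ |σ - s j|} =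
        {σ : ℝ | T ≤ |σ - s j|} ∩ ⋂ i, {σ : ℝ | |σ - s i| ≤ |σ - s j|} := by
      ext σ
      simp
    rw [h3]
    refine MeasurableSet.inter (measurableSet_le (by fun_prop) (by fun_prop))
      (MeasurableSet.iInter fun i => measurableSet_le (by fun_prop) (by fun_prop))
  refine (setLIntegral_mono' hms hpt).trans ((setLIntegral_le_lintegral _ _).trans ?_)
  rw [lintegral_const_mul _ (by fun_prop), lintegral_finsetSum' _ fun i _ => by
    refine Measurable.aemeasurable ?_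
    fun_prop]
  have hone : ∀ i : Fin d, ∫⁻ σ : ℝ, (ENNReal.ofReal (T ^ (-(α / 2))) *
        ENNReal.ofReal ((1 + r * |σ - s i|) ^ (-β)) +
      ENNReal.ofReal ((1 + |σ - s i|) ^ (-γ) * (max T |σ - s i|) ^ (-(α / 2)))) ≤
      ENNReal.ofReal ((K1 + K2) * (r⁻¹ * T ^ (-(α / 2)) + 1)) := by
    intro i
    rw [lintegral_add_left (by fun_prop), lintegral_const_mul _ (by fun_prop)]
    refine (add_le_add (mul_le_mul_right (h1 r (s i) hr) _) (h2 T (s i) hT0)).trans ?_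
    rw [← ENNReal.ofReal_mul (by positivity), ← ENNReal.ofReal_add (by positivity)
      (by positivity)]
    refine ENNReal.ofReal_le_ofReal ?_
    have he : T ^ (1 - γ - α / 2) ≤ 1 :=
      Real.rpow_le_one_of_one_le_of_nonpos hT1 (by linarith)
    have hq1 : 0 ≤ r⁻¹ * T ^ (-(α / 2)) := by positivity
    have hq2 : 0 ≤ T ^ (1 - γ - α / 2) := by positivity
    nlinarith
  refine (mul_le_mul_right (Finset.sum_le_sum fun i _ => hone i) _).trans ?_
  rw [Finset.sum_const, Finset.card_univ, Fintype.card_fin, nsmul_eq_mul,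
    show (d : ℝ≥0∞) = ENNReal.ofReal d by simp, ← ENNReal.ofReal_mul (by positivity),
    ← ENNReal.ofReal_mul (by positivity)]
  exact ENNReal.ofReal_le_ofReal (le_of_eq (by ring))

/-- (b) The integral over the `σ` which are far from some root. -/
theorem S5b (d : ℕ) (hd : 2 ≤ d) (α : ℝ) (hα : 2 / (d : ℝ) < α) : ∃ K : ℝ, 0 < K ∧
    ∀ (r T : ℝ) (s : Fin d → ℝ), 0 < r → r ≤ 1 → 1 / r ^ 2 ≤ T →
    ∫⁻ σ in {σ : ℝ | ∃ j, T ≤ |σ - s j|}, ENNReal.ofReal ((∏ i, fr r |σ - s i|) ^ α) ≤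
      ENNReal.ofReal (K * (r⁻¹ * T ^ (-(α / 2)) + 1)) := by
  obtain ⟨K, hK, h⟩ := S5b_one d hd α hα
  refine ⟨d * K, by positivity, fun r T s hr hr1 hT => ?_⟩
  have hT0 : 0 < T := lt_of_lt_of_le (by positivity) hT
  have : Nonempty (Fin d) := ⟨⟨0, by omega⟩⟩
  have hsub : {σ : ℝ | ∃ j, T ≤ |σ - s j|} ⊆
      ⋃ j, {σ : ℝ | T ≤ |σ - s j| ∧ ∀ i, |σ - s i| ≤ |σ - s j|} := by
    rintro σ ⟨j, hj⟩
    obtain ⟨k, _, hk⟩ := Finset.exists_max_image Finset.univ (fun i => |σ - s i|)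
      Finset.univ_nonempty
    exact mem_iUnion.2 ⟨k, hj.trans (hk j (Finset.mem_univ j)), fun i => hk i (Finset.mem_univ i)⟩
  refine (lintegral_mono_set hsub).trans ((lintegral_iUnion_le _ _).trans ?_)
  rw [tsum_fintype]
  refine (Finset.sum_le_sum fun j _ => h r T s j hr hr1 hT).trans ?_
  rw [Finset.sum_const, Finset.card_univ, Fintype.card_fin, nsmul_eq_mul,
    show (d : ℝ≥0∞) = ENNReal.ofReal d by simp, ← ENNReal.ofReal_mul (by positivity)]
  exact ENNReal.ofReal_le_ofReal (le_of_eq (by ring))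

end Pool.Agent.GNP
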