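import Pool.Agent.GNP.AADef
import Pool.Agent.GNP.S5
import Mathlib.LinearAlgebra.Matrix.SchurComplement

/-!
Definite pencils `P + s Q`: roots, determinants at shifted parameters, the amplitude factor.
-/

namespace Pool.Agent.GNP

open Module Pool.Agent.MP_6cbfb8_an
open scoped RealInnerProductSpace

section SH

variable {V : Type*} [NormedAddCommGroup V] [InnerProductSpace ℝ V]

/-- the operator which is diagonal in the orthonormal basis `e` -/
noncomputable def shd {n : ℕ} (e : OrthonormalBasis (Fin n) ℝ V) (g : Fin n → ℝ) : V →ₗ[ℝ] V :=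
  e.toBasis.constr ℝ (fun i => g i • e i)

theorem shd_basis {n : ℕ} (e : OrthonormalBasis (Fin n) ℝ V) (g : Fin n → ℝ) (i : Fin n) :
    shd e g (e i) = g i • e i := by
  have := e.toBasis.constr_basis ℝ (fun i => g i • e i) i
  rw [OrthonormalBasis.coe_toBasis] at this
  exact this

theorem shd_apply {n : ℕ} (e : OrthonormalBasis (Fin n) ℝ V) (g : Fin n → ℝ) (v : V) :
    shd e g v = ∑ i, (g i * ⟪e i, v⟫) • e i := by
  conv_lhs => rw [← e.sum_repr' v]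
  rw [map_sum]
  refine Finset.sum_congr rfl fun i _ => ?_
  rw [map_smul, shd_basis, smul_smul, mul_comm]

theorem inner_shd {n : ℕ} (e : OrthonormalBasis (Fin n) ℝ V) (g : Fin n → ℝ) (v : V) (i : Fin n) :
    ⟪e i, shd e g v⟫ = g i * ⟪e i, v⟫ := by
  rw [shd_apply, inner_sum, Finset.sum_eq_single i]
  · rw [inner_smul_right, real_inner_self_eq_norm_sq, e.orthonormal.1 i]
    ring
  · intro j _ hj
    rw [inner_smul_right, e.orthonormal.2 hj.symm, mul_zero]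
  · intro h
    exact absurd (Finset.mem_univ i) h

theorem shd_shd {n : ℕ} (e : OrthonormalBasis (Fin n) ℝ V) (g h : Fin n → ℝ) (v : V) :
    shd e g (shd e h v) = shd e (fun i => g i * h i) v := by
  rw [shd_apply e g, shd_apply e (fun i => g i * h i)]
  refine Finset.sum_congr rfl fun i _ => ?_
  rw [inner_shd, mul_assoc]

theorem shd_one {n : ℕ} (e : OrthonormalBasis (Fin n) ℝ V) (v : V) :
    shd e (fun _ => 1) v = v := by
  rw [shd_apply]
  simp only [one_mul]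
  exact e.sum_repr' v

theorem shd_symm {n : ℕ} (e : OrthonormalBasis (Fin n) ℝ V) (g : Fin n → ℝ) (v w : V) :
    ⟪shd e g v, w⟫ = ⟪v, shd e g w⟫ := by
  rw [← e.sum_inner_mul_inner (shd e g v) w, ← e.sum_inner_mul_inner v (shd e g w)]
  refine Finset.sum_congr rfl fun i _ => ?_
  rw [inner_shd, real_inner_comm, inner_shd, real_inner_comm v (e i)]
  ring

theorem norm_shd_ge {n : ℕ} (e : OrthonormalBasis (Fin n) ℝ V) (g : Fin n → ℝ) {c : ℝ} (hc : 0 ≤ c)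
    (hg : ∀ i, c ≤ |g i|) (v : V) : c * ‖v‖ ≤ ‖shd e g v‖ := by
  apply le_of_sq_le_sq ?_ (norm_nonneg _)
  rw [mul_pow, ← e.sum_sq_norm_inner_right v, ← e.sum_sq_norm_inner_right (shd e g v),
    Finset.mul_sum]
  refine Finset.sum_le_sum fun i _ => ?_
  rw [inner_shd, norm_mul, mul_pow]
  refine mul_le_mul_of_nonneg_right ?_ (by positivity)
  rw [Real.norm_eq_abs]
  exact pow_le_pow_left₀ hc (hg i) 2

theorem norm_shd_le {n : ℕ} (e : OrthonormalBasis (Fin n) ℝ V) (g : Fin n → ℝ) {c : ℝ} (hc : 0 ≤ c)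
    (hg : ∀ i, |g i| ≤ c) (v : V) : ‖shd e g v‖ ≤ c * ‖v‖ := by
  apply le_of_sq_le_sq ?_ (by positivity)
  rw [mul_pow, ← e.sum_sq_norm_inner_right v, ← e.sum_sq_norm_inner_right (shd e g v),
    Finset.mul_sum]
  refine Finset.sum_le_sum fun i _ => ?_
  rw [inner_shd, norm_mul, mul_pow]
  refine mul_le_mul_of_nonneg_right ?_ (by positivity)
  rw [Real.norm_eq_abs]
  exact pow_le_pow_left₀ (abs_nonneg _) (hg i) 2

theorem norm_shd_le' {n : ℕ} (e : OrthonormalBasis (Fin n) ℝ V) (g : Fin n → ℝ) {c : ℝ}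
    (hc : 0 ≤ c) (v : V) (hg : ∀ i, |g i| ≤ c ∨ ⟪e i, v⟫ = 0) : ‖shd e g v‖ ≤ c * ‖v‖ := by
  apply le_of_sq_le_sq ?_ (by positivity)
  rw [mul_pow, ← e.sum_sq_norm_inner_right v, ← e.sum_sq_norm_inner_right (shd e g v),
    Finset.mul_sum]
  refine Finset.sum_le_sum fun i _ => ?_
  rw [inner_shd, norm_mul, mul_pow]
  rcases hg i with h | h
  · refine mul_le_mul_of_nonneg_right ?_ (by positivity)
    rw [Real.norm_eq_abs]
    exact pow_le_pow_left₀ (abs_nonneg _) h 2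
  · rw [h]
    simp

theorem det_shd {n : ℕ} (e : OrthonormalBasis (Fin n) ℝ V) (g : Fin n → ℝ) :
    LinearMap.det (shd e g) = ∏ i, g i := by
  classical
  rw [← LinearMap.det_toMatrix e.toBasis, ← Matrix.det_diagonal]
  congr 1
  ext i j
  rw [LinearMap.toMatrix_apply, OrthonormalBasis.coe_toBasis, shd_basis, map_smul,
    Finsupp.smul_apply, smul_eq_mul, OrthonormalBasis.coe_toBasis_repr_apply,
    OrthonormalBasis.repr_self, Matrix.diagonal_apply]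
  by_cases h : i = j
  · subst h
    simp
  · simp [h]

theorem sh_det_comm [FiniteDimensional ℝ V] (f g : V →ₗ[ℝ] V) :
    LinearMap.det (LinearMap.id + f ∘ₗ g) = LinearMap.det (LinearMap.id + g ∘ₗ f) := by
  classical
  set e := (stdOrthonormalBasis ℝ V).toBasis
  rw [← LinearMap.det_toMatrix e, ← LinearMap.det_toMatrix e, map_add, map_add,
    LinearMap.toMatrix_id, LinearMap.toMatrix_comp e e e, LinearMap.toMatrix_comp e e e,
    Matrix.det_one_add_mul_comm]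

variable [FiniteDimensional ℝ V]

/-- the determinant of a symmetric operator with `A ≥ β` is at least `β ^ d` -/
theorem sh_pow_le_det (A : V →ₗ[ℝ] V) (hA : A.IsSymmetric) {β : ℝ} (hβ : 0 ≤ β)
    (h : ∀ v, β * ‖v‖ ^ 2 ≤ ⟪A v, v⟫) : β ^ finrank ℝ V ≤ LinearMap.det A := by
  have h1 : LinearMap.det A = ∏ i, hA.eigenvalues rfl i := by
    have := hA.det_eq_prod_eigenvalues rfl
    simpa using this
  rw [h1]
  have h2 : ∀ i, β ≤ hA.eigenvalues rfl i := by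
    intro i
    have h3 := h (hA.eigenvectorBasis rfl i)
    rw [hA.apply_eigenvectorBasis rfl i] at h3
    have h4 : ‖hA.eigenvectorBasis rfl i‖ = 1 := (hA.eigenvectorBasis rfl).orthonormal.1 i
    rw [real_inner_smul_left, real_inner_self_eq_norm_sq, h4] at h3
    simpa using h3
  calc β ^ finrank ℝ V = ∏ _i : Fin (finrank ℝ V), β := by simp
    _ ≤ _ := Finset.prod_le_prod (fun _ _ => hβ) (fun i _ => h2 i)

/-- simultaneous diagonalisation -/
theorem sh_struct (A B : V →ₗ[ℝ] V) (hA : A.IsSymmetric) (hB : B.IsSymmetric) {b : ℝ} (hb : 0 < b)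
    (hpos : ∀ v, b * ‖v‖ ^ 2 ≤ ⟪B v, v⟫) :
    ∃ (T S : V →ₗ[ℝ] V) (f : OrthonormalBasis (Fin (finrank ℝ V)) ℝ V)
      (lam : Fin (finrank ℝ V) → ℝ), (∀ v w, ⟪T v, w⟫ = ⟪v, T w⟫) ∧ (∀ v, T (S v) = v) ∧
      (∀ v, S (T v) = v) ∧ (∀ v, T (T v) = B v) ∧
      ∀ (s : ℝ) (v : V), A v + s • B v = T (shd f (fun i => lam i + s) (T v)) := by
  classical
  set e := hB.eigenvectorBasis rfl with he
  set ev := hB.eigenvalues rfl with hev
  have hev1 : ∀ i, B (e i) = ev i • e i := by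
    intro i
    exact hB.apply_eigenvectorBasis rfl i
  have hev2 : ∀ i, b ≤ ev i := by
    intro i
    have h1 := hpos (e i)
    rw [hev1, inner_smul_left, real_inner_self_eq_norm_sq, e.orthonormal.1 i] at h1
    simpa using h1
  have hev3 : ∀ i, 0 < ev i := fun i => hb.trans_le (hev2 i)
  set T := shd e (fun i => √(ev i)) with hT
  set S := shd e (fun i => (√(ev i))⁻¹) with hS
  have hTS : ∀ v, T (S v) = v := by
    intro v
    rw [hT, hS, shd_shd]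
    have : (fun i => √(ev i) * (√(ev i))⁻¹) = fun _ : Fin (finrank ℝ V) => (1 : ℝ) := by
      funext i
      exact mul_inv_cancel₀ (Real.sqrt_pos.2 (hev3 i)).ne'
    rw [this, shd_one]
  have hST : ∀ v, S (T v) = v := by
    intro v
    rw [hT, hS, shd_shd]
    have : (fun i => (√(ev i))⁻¹ * √(ev i)) = fun _ : Fin (finrank ℝ V) => (1 : ℝ) := by
      funext i
      exact inv_mul_cancel₀ (Real.sqrt_pos.2 (hev3 i)).ne'
    rw [this, shd_one]
  have hTT : ∀ v, T (T v) = B v := by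
    intro v
    rw [hT, shd_shd]
    have : (fun i => √(ev i) * √(ev i)) = ev := by
      funext i
      exact Real.mul_self_sqrt (hev3 i).le
    rw [this]
    have h2 : shd e ev = B := by
      apply e.toBasis.ext
      intro i
      rw [OrthonormalBasis.coe_toBasis, shd_basis, hev1]
    rw [h2]
  set C : V →ₗ[ℝ] V := S ∘ₗ A ∘ₗ S with hC
  have hCs : C.IsSymmetric := by
    intro v w
    simp only [hC, LinearMap.comp_apply]
    rw [hS, shd_symm, hA, shd_symm]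
  set f := hCs.eigenvectorBasis rfl with hf
  set lam := hCs.eigenvalues rfl with hlam
  have hC2 : C = shd f lam := by
    apply f.toBasis.ext
    intro i
    rw [OrthonormalBasis.coe_toBasis, shd_basis]
    exact hCs.apply_eigenvectorBasis rfl i
  refine ⟨T, S, f, lam, shd_symm _ _, hTS, hST, hTT, fun s v => ?_⟩
  have h2 : shd f (fun i => lam i + s) (T v) = C (T v) + s • T v := by
    rw [hC2]
    generalize T v = y
    rw [shd_apply, shd_apply]
    nth_rewrite 3 [← f.sum_repr' y]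
    rw [Finset.smul_sum, ← Finset.sum_add_distrib]
    refine Finset.sum_congr rfl fun i _ => ?_
    rw [smul_smul, ← add_smul]
    congr 1
    ring
  rw [h2, map_add, map_smul, hTT]
  simp only [hC, LinearMap.comp_apply, hST, hTS]

/-- monotonicity of the determinant -/
theorem sh_det_mono (X Y : V →ₗ[ℝ] V) (hX : X.IsSymmetric) (hY : Y.IsSymmetric) {β : ℝ} (hβ : 0 < β)
    (hpos : ∀ v, β * ‖v‖ ^ 2 ≤ ⟪X v, v⟫) (hle : ∀ v, ⟪X v, v⟫ ≤ ⟪Y v, v⟫) :
    LinearMap.det X ≤ LinearMap.det Y := by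
  obtain ⟨T, S, f, lam, hTs, hTS, hST, hTT, hfor⟩ := sh_struct (Y - X) X (hY.sub hX) hX hβ hpos
  have hTTc : T ∘ₗ T = X := LinearMap.ext fun v => hTT v
  have hY1 : Y = T ∘ₗ (shd f (fun i => lam i + 1)) ∘ₗ T := by
    ext v
    have := hfor 1 v
    simp only [LinearMap.sub_apply, one_smul, sub_add_cancel] at this
    exact this
  have hlam : ∀ i, 0 ≤ lam i := by
    intro i
    have h1 := hfor 0 (S (f i))
    rw [zero_smul, add_zero, hTS] at h1
    have h2 : (fun i => lam i + 0) = lam := by funext i; simp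
    rw [h2, shd_basis] at h1
    have h3 : ⟪(Y - X) (S (f i)), S (f i)⟫ = lam i := by
      rw [h1, hTs, hTS, real_inner_smul_left, real_inner_self_eq_norm_sq, f.orthonormal.1 i]
      ring
    rw [← h3, LinearMap.sub_apply, inner_sub_left, sub_nonneg]
    exact hle _
  have hX0 : 0 ≤ LinearMap.det X :=
    le_trans (by positivity) (sh_pow_le_det X hX hβ.le hpos)
  rw [hY1, LinearMap.det_comp, LinearMap.det_comp, det_shd]
  have h4 : LinearMap.det T * ((∏ i, (lam i + 1)) * LinearMap.det T)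
      = LinearMap.det X * ∏ i, (lam i + 1) := by
    rw [← hTTc, LinearMap.det_comp]
    ring
  rw [h4]
  have h5 : (1 : ℝ) ≤ ∏ i, (lam i + 1) := by
    calc (1 : ℝ) = ∏ _i : Fin (finrank ℝ V), (1 : ℝ) := by simp
      _ ≤ _ := Finset.prod_le_prod (fun _ _ => zero_le_one) (fun i _ => by linarith [hlam i])
  nlinarith

/-- All facts about a definite pencil: `P + s Q` is compared with the diagonal matrix with entries
`s - μ i`. -/
theorem sh_pencil_full (P Q : V →ₗ[ℝ] V) (hP : P.IsSymmetric) (hQ : Q.IsSymmetric) {b B : ℝ} (hb : 0 < b)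
    (hpos : ∀ v, b * ‖v‖ ^ 2 ≤ ⟪Q v, v⟫) (hB : 0 ≤ B) (hup : ∀ v, ⟪Q v, v⟫ ≤ B * ‖v‖ ^ 2) :
    ∃ μ : Fin (finrank ℝ V) → ℝ,
      (∀ s : ℝ, LinearMap.det (P + s • Q) = LinearMap.det Q * ∏ i, (s - μ i)) ∧
      (∀ s t : ℝ, 0 ≤ t → (∀ i, t ≤ |s - μ i|) → ∀ v, b * t * ‖v‖ ≤ ‖(P + s • Q) v‖) ∧
      (∀ s t : ℝ, 0 ≤ t → (∀ i, |s - μ i| ≤ t) → ∀ v, ‖(P + s • Q) v‖ ≤ B * t * ‖v‖) ∧
      (∀ s l : ℝ, LinearMap.det (LinearMap.id + (l • (P + s • Q)) ∘ₗ (l • (P + s • Q))) ≤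
        max 1 (B ^ 2) ^ finrank ℝ V * ∏ i, (1 + l ^ 2 * (s - μ i) ^ 2)) ∧
      (∀ I : Finset (Fin (finrank ℝ V)), ∃ W : Submodule ℝ V, finrank ℝ W = I.card ∧
        ∀ s t : ℝ, 0 ≤ t → (∀ i ∈ I, |s - μ i| ≤ t) → ∀ w ∈ W,
          ‖(P + s • Q) w‖ ≤ B * t * ‖w‖) ∧
      (∀ (s : ℝ) (i : Fin (finrank ℝ V)), ∃ v : V, v ≠ 0 ∧
        b * |s - μ i| * ‖v‖ ≤ ‖(P + s • Q) v‖) := by
  obtain ⟨T, S, f, lam, hTs, hTS, hST, hTT, hfor⟩ := sh_struct P Q hP hQ hb hpos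
  have hTTc : T ∘ₗ T = Q := LinearMap.ext fun v => hTT v
  have hTn : ∀ v, ‖T v‖ ^ 2 = ⟪Q v, v⟫ := by
    intro v
    rw [← real_inner_self_eq_norm_sq, hTs, hTT, real_inner_comm]
  have hM : ∀ s : ℝ, P + s • Q = T ∘ₗ (shd f (fun i => lam i + s)) ∘ₗ T := by
    intro s
    ext v
    exact hfor s v
  have hg : ∀ (s : ℝ) i, s - (-lam i) = lam i + s := fun s i => by ring
  have hlow : ∀ v, √b * ‖v‖ ≤ ‖T v‖ := by
    intro v
    apply le_of_sq_le_sq ?_ (norm_nonneg _)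
    rw [mul_pow, Real.sq_sqrt hb.le, hTn]
    exact hpos v
  have hupT : ∀ v, ‖T v‖ ≤ √B * ‖v‖ := by
    intro v
    apply le_of_sq_le_sq ?_ (by positivity)
    rw [mul_pow, Real.sq_sqrt hB, hTn]
    exact hup v
  refine ⟨fun i => - lam i, fun s => ?_, fun s t ht hst v => ?_, fun s t ht hst v => ?_,
    fun s l => ?_, fun I => ?_, fun s i => ?_⟩
  · rw [hM, LinearMap.det_comp, LinearMap.det_comp, det_shd, ← hTTc, LinearMap.det_comp]
    simp only [hg]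
    ring
  · have h3 := norm_shd_ge f (fun i => lam i + s) ht (fun i => by
      rw [← hg]
      exact hst i) (T v)
    have h4 := hlow (shd f (fun i => lam i + s) (T v))
    have h5 := hlow v
    rw [hM]
    calc b * t * ‖v‖ = √b * (t * (√b * ‖v‖)) := by
          have : √b * √b = b := Real.mul_self_sqrt hb.le
          calc b * t * ‖v‖ = (√b * √b) * t * ‖v‖ := by rw [this]
            _ = _ := by ring
      _ ≤ √b * (t * ‖T v‖) := by gcongr
      _ ≤ √b * ‖shd f (fun i => lam i + s) (T v)‖ := by gcongr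
      _ ≤ _ := h4
  · have h3 := norm_shd_le f (fun i => lam i + s) ht (fun i => by
      rw [← hg]
      exact hst i) (T v)
    have h4 := hupT (shd f (fun i => lam i + s) (T v))
    have h5 := hupT v
    rw [hM]
    calc _ ≤ √B * ‖shd f (fun i => lam i + s) (T v)‖ := h4
      _ ≤ √B * (t * ‖T v‖) := by gcongr
      _ ≤ √B * (t * (√B * ‖v‖)) := by gcongr
      _ = (√B * √B) * t * ‖v‖ := by ring
      _ = B * t * ‖v‖ := by rw [Real.mul_self_sqrt hB]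
  · set g : Fin (finrank ℝ V) → ℝ := fun i => lam i + s with hgdef
    set D := shd f g with hD
    have hDs : ∀ v w, ⟪D v, w⟫ = ⟪v, D w⟫ := shd_symm f g
    have hMs : ∀ v w, ⟪(P + s • Q) v, w⟫ = ⟪v, (P + s • Q) w⟫ := by
      intro v w
      rw [hM]
      simp only [LinearMap.comp_apply]
      rw [hTs, hDs, hTs]
    have hMv : ∀ v, ‖(P + s • Q) v‖ ^ 2 ≤ B * ‖D (T v)‖ ^ 2 := by
      intro v
      rw [hM]
      simp only [LinearMap.comp_apply]
      rw [hTn]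
      exact hup _
    -- first comparison
    set X : V →ₗ[ℝ] V := LinearMap.id + (l • (P + s • Q)) ∘ₗ (l • (P + s • Q)) with hX
    set Y : V →ₗ[ℝ] V := LinearMap.id + ((l ^ 2 * B) • (T ∘ₗ D)) ∘ₗ (D ∘ₗ T) with hY
    set Z : V →ₗ[ℝ] V := LinearMap.id + (D ∘ₗ T) ∘ₗ ((l ^ 2 * B) • (T ∘ₗ D)) with hZ
    have hXi : ∀ v, ⟪X v, v⟫ = ‖v‖ ^ 2 + l ^ 2 * ‖(P + s • Q) v‖ ^ 2 := by
      intro v
      have : X v = v + l • (P + s • Q) (l • (P + s • Q) v) := rfl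
      rw [this, inner_add_left, real_inner_self_eq_norm_sq, map_smul, real_inner_smul_left,
        real_inner_smul_left, hMs, real_inner_self_eq_norm_sq]
      ring
    have hYi : ∀ v, ⟪Y v, v⟫ = ‖v‖ ^ 2 + l ^ 2 * B * ‖D (T v)‖ ^ 2 := by
      intro v
      have : Y v = v + (l ^ 2 * B) • T (D (D (T v))) := rfl
      rw [this, inner_add_left, real_inner_self_eq_norm_sq, real_inner_smul_left, hTs, hDs,
        real_inner_self_eq_norm_sq]
    have hZi : ∀ v, ⟪Z v, v⟫ = ‖v‖ ^ 2 + l ^ 2 * B * ⟪Q (D v), D v⟫ := by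
      intro v
      have : Z v = v + D (T ((l ^ 2 * B) • T (D v))) := rfl
      rw [this, inner_add_left, real_inner_self_eq_norm_sq, map_smul, map_smul,
        real_inner_smul_left, hDs, hTT]
    have hXsym : X.IsSymmetric := by
      intro v w
      have e1 : X v = v + l • (P + s • Q) (l • (P + s • Q) v) := rfl
      have e2 : X w = w + l • (P + s • Q) (l • (P + s • Q) w) := rfl
      rw [e1, e2, inner_add_left, inner_add_right, map_smul, map_smul, real_inner_smul_left,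
        real_inner_smul_left, real_inner_smul_right, real_inner_smul_right, hMs, hMs]
    have hYsym : Y.IsSymmetric := by
      intro v w
      have e1 : Y v = v + (l ^ 2 * B) • T (D (D (T v))) := rfl
      have e2 : Y w = w + (l ^ 2 * B) • T (D (D (T w))) := rfl
      rw [e1, e2, inner_add_left, inner_add_right, real_inner_smul_left, real_inner_smul_right,
        hTs, hDs, hDs, hTs]
    have hZsym : Z.IsSymmetric := by
      intro v w
      have e1 : Z v = v + D (T ((l ^ 2 * B) • T (D v))) := rfl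
      have e2 : Z w = w + D (T ((l ^ 2 * B) • T (D w))) := rfl
      rw [e1, e2, inner_add_left, inner_add_right, map_smul, map_smul, map_smul, map_smul,
        real_inner_smul_left, real_inner_smul_right, hDs, hTs, hTs, hDs]
    have c1 : LinearMap.det X ≤ LinearMap.det Y := by
      refine sh_det_mono X Y hXsym hYsym one_pos (fun v => ?_) (fun v => ?_)
      · rw [hXi]
        nlinarith [mul_nonneg (sq_nonneg l) (sq_nonneg ‖(P + s • Q) v‖)]
      · rw [hXi, hYi]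
        have := mul_le_mul_of_nonneg_left (hMv v) (sq_nonneg l)
        linarith
    have c2 : LinearMap.det Y = LinearMap.det Z := sh_det_comm _ _
    have c3 : LinearMap.det Z ≤ LinearMap.det (shd f (fun i => 1 + l ^ 2 * B ^ 2 * g i ^ 2)) := by
      refine sh_det_mono Z _ hZsym (shd_symm f _) one_pos (fun v => ?_) (fun v => ?_)
      · rw [hZi]
        have h1 : 0 ≤ ⟪Q (D v), D v⟫ := by
          rw [← hTn]
          positivity
        have h2 : 0 ≤ l ^ 2 * B * ⟪Q (D v), D v⟫ := by positivity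
        linarith
      · rw [hZi]
        have h1 := hup (D v)
        have h2 : ⟪shd f (fun i => 1 + l ^ 2 * B ^ 2 * g i ^ 2) v, v⟫ =
            ‖v‖ ^ 2 + l ^ 2 * B ^ 2 * ‖D v‖ ^ 2 := by
          rw [← f.sum_inner_mul_inner (shd f (fun i => 1 + l ^ 2 * B ^ 2 * g i ^ 2) v) v,
            ← f.sum_sq_norm_inner_right v, ← f.sum_sq_norm_inner_right (D v), Finset.mul_sum,
            ← Finset.sum_add_distrib]
          refine Finset.sum_congr rfl fun i _ => ?_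
          rw [real_inner_comm, inner_shd, hD, inner_shd, Real.norm_eq_abs, Real.norm_eq_abs,
            sq_abs, sq_abs]
          ring
        rw [h2]
        have h3 : 0 ≤ l ^ 2 * B := by positivity
        nlinarith [mul_le_mul_of_nonneg_left h1 h3]
    have c4 : LinearMap.det (shd f (fun i => 1 + l ^ 2 * B ^ 2 * g i ^ 2)) ≤
        max 1 (B ^ 2) ^ finrank ℝ V * ∏ i, (1 + l ^ 2 * g i ^ 2) := by
      rw [det_shd]
      have h1 : max 1 (B ^ 2) ^ finrank ℝ V = ∏ _i : Fin (finrank ℝ V), max 1 (B ^ 2) := by simp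
      rw [h1, ← Finset.prod_mul_distrib]
      refine Finset.prod_le_prod (fun i _ => by positivity) (fun i _ => ?_)
      have h2 : (1 : ℝ) ≤ max 1 (B ^ 2) := le_max_left _ _
      have h3 : B ^ 2 ≤ max 1 (B ^ 2) := le_max_right _ _
      have h4 : 0 ≤ l ^ 2 * g i ^ 2 := by positivity
      nlinarith [mul_le_mul_of_nonneg_right h3 h4]
    have h5 : (fun i => 1 + l ^ 2 * (s - -lam i) ^ 2) = fun i => 1 + l ^ 2 * g i ^ 2 := by
      funext i
      rw [hg]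
    rw [h5]
    exact c1.trans (c2.le.trans (c3.trans c4))
  · classical
    have hli : LinearIndependent ℝ (fun i : I => S (f i)) := by
      have h0 : LinearIndependent ℝ (fun i : I => f i) := by
        have h00 := f.toBasis.linearIndependent.comp (fun i : I => (i : Fin (finrank ℝ V)))
          Subtype.coe_injective
        rw [OrthonormalBasis.coe_toBasis] at h00
        exact h00
      exact h0.map' S (LinearMap.ker_eq_bot.2 (Function.LeftInverse.injective hTS))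
    refine ⟨Submodule.span ℝ (Set.range fun i : I => S (f i)), ?_, ?_⟩
    · rcases subsingleton_or_nontrivial V with hV | hV
      · have : finrank ℝ V = 0 := Module.finrank_zero_of_subsingleton
        have hI : I.card = 0 := by
          have := I.card_le_univ
          simp only [Fintype.card_fin] at this
          omega
        rw [hI]
        exact Module.finrank_zero_of_subsingleton
      · rw [finrank_span_eq_card hli, Fintype.card_coe]
    · intro s t ht hst w hw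
      have hort : ∀ k, k ∉ I → ⟪f k, T w⟫ = 0 := by
        intro k hk
        induction hw using Submodule.span_induction with
        | mem x hx =>
          obtain ⟨i, rfl⟩ := hx
          simp only
          rw [hTS]
          exact f.orthonormal.2 (fun hc => hk (hc ▸ i.2))
        | zero => simp
        | add x y _ _ hx hy => rw [map_add, inner_add_right, hx, hy, add_zero]
        | smul a x _ hx => rw [map_smul, inner_smul_right, hx, mul_zero]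
      have h3 := norm_shd_le' f (fun i => lam i + s) ht (T w) (fun i => by
        by_cases hi : i ∈ I
        · left
          rw [← hg]
          exact hst i hi
        · right
          exact hort i hi)
      have h4 := hupT (shd f (fun i => lam i + s) (T w))
      have h5 := hupT w
      rw [hM]
      calc _ ≤ √B * ‖shd f (fun i => lam i + s) (T w)‖ := h4
        _ ≤ √B * (t * ‖T w‖) := by gcongr
        _ ≤ √B * (t * (√B * ‖w‖)) := by gcongr
        _ = (√B * √B) * t * ‖w‖ := by ring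
        _ = B * t * ‖w‖ := by rw [Real.mul_self_sqrt hB]
  · refine ⟨S (f i), ?_, ?_⟩
    · intro hc
      have h0 : f i = 0 := by rw [← hTS (f i), hc, map_zero]
      have h1 := f.orthonormal.1 i
      rw [h0, norm_zero] at h1
      exact zero_ne_one h1
    · have h1 : (P + s • Q) (S (f i)) = (lam i + s) • T (f i) := by
        rw [hM]
        simp only [LinearMap.comp_apply]
        rw [hTS, shd_basis, map_smul]
      rw [h1, norm_smul, Real.norm_eq_abs, hg]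
      have h2 : √b * ‖S (f i)‖ ≤ 1 := by
        have := hlow (S (f i))
        rwa [hTS, f.orthonormal.1 i] at this
      have h3 : √b ≤ ‖T (f i)‖ := by
        have := hlow (f i)
        rwa [f.orthonormal.1 i, mul_one] at this
      have h4 : b * ‖S (f i)‖ ≤ ‖T (f i)‖ := by
        have h5 : √b * √b = b := Real.mul_self_sqrt hb.le
        calc b * ‖S (f i)‖ = √b * (√b * ‖S (f i)‖) := by rw [← mul_assoc, h5]
          _ ≤ √b * 1 := by gcongr
          _ ≤ _ := by rw [mul_one]; exact h3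
      calc b * |lam i + s| * ‖S (f i)‖ = |lam i + s| * (b * ‖S (f i)‖) := by ring
        _ ≤ |lam i + s| * ‖T (f i)‖ := by gcongr

/-- The first four facts of `sh_pencil_full`. -/
theorem sh_pencil (P Q : V →ₗ[ℝ] V) (hP : P.IsSymmetric) (hQ : Q.IsSymmetric) {b B : ℝ} (hb : 0 < b)
    (hpos : ∀ v, b * ‖v‖ ^ 2 ≤ ⟪Q v, v⟫) (hB : 0 ≤ B) (hup : ∀ v, ⟪Q v, v⟫ ≤ B * ‖v‖ ^ 2) :
    ∃ μ : Fin (finrank ℝ V) → ℝ,
      (∀ s : ℝ, LinearMap.det (P + s • Q) = LinearMap.det Q * ∏ i, (s - μ i)) ∧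
      (∀ s t : ℝ, 0 ≤ t → (∀ i, t ≤ |s - μ i|) → ∀ v, b * t * ‖v‖ ≤ ‖(P + s • Q) v‖) ∧
      (∀ s t : ℝ, 0 ≤ t → (∀ i, |s - μ i| ≤ t) → ∀ v, ‖(P + s • Q) v‖ ≤ B * t * ‖v‖) ∧
      (∀ s l : ℝ, LinearMap.det (LinearMap.id + (l • (P + s • Q)) ∘ₗ (l • (P + s • Q))) ≤
        max 1 (B ^ 2) ^ finrank ℝ V * ∏ i, (1 + l ^ 2 * (s - μ i) ^ 2)) := by
  obtain ⟨μ, h1, h2, h3, h4, -, -⟩ := sh_pencil_full P Q hP hQ hb hpos hB hup
  exact ⟨μ, h1, h2, h3, h4⟩

/-- among `d + 1` shifts one avoids `d` given points -/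
theorem sh_shift {d : ℕ} (μ : Fin d → ℝ) (s ρ : ℝ) (hρ : 0 < ρ) :
    ∃ j : ℕ, j ≤ d ∧ ∀ i, max |s - μ i| ρ ≤ (2 * d + 1) * |s + 2 * j * ρ - μ i| := by
  have key : ∃ j : Fin (d + 1), ∀ i, ρ ≤ |s + 2 * (j : ℕ) * ρ - μ i| := by
    by_contra hcon
    push Not at hcon
    choose k hk using hcon
    obtain ⟨a, a', hne, heq⟩ := Fintype.exists_ne_map_eq_of_card_lt k (by simp)
    have h1 := hk a
    have h2 := hk a'
    rw [← heq] at h2
    have h3 : |2 * ((a : ℕ) : ℝ) * ρ - 2 * ((a' : ℕ) : ℝ) * ρ| < 2 * ρ := by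
      have : 2 * ((a : ℕ) : ℝ) * ρ - 2 * ((a' : ℕ) : ℝ) * ρ =
        (s + 2 * ((a : ℕ) : ℝ) * ρ - μ (k a)) - (s + 2 * ((a' : ℕ) : ℝ) * ρ - μ (k a)) := by ring
      rw [this]
      calc _ ≤ |s + 2 * ((a : ℕ) : ℝ) * ρ - μ (k a)| + |s + 2 * ((a' : ℕ) : ℝ) * ρ - μ (k a)| :=
            abs_sub _ _
        _ < ρ + ρ := add_lt_add h1 h2
        _ = 2 * ρ := by ring
    have h4 : |2 * ((a : ℕ) : ℝ) * ρ - 2 * ((a' : ℕ) : ℝ) * ρ|
        = |((a : ℕ) : ℝ) - ((a' : ℕ) : ℝ)| * (2 * ρ) := by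
      rw [show 2 * ((a : ℕ) : ℝ) * ρ - 2 * ((a' : ℕ) : ℝ) * ρ
        = (((a : ℕ) : ℝ) - ((a' : ℕ) : ℝ)) * (2 * ρ) by ring, abs_mul,
        abs_of_pos (by positivity : (0 : ℝ) < 2 * ρ)]
    rw [h4] at h3
    have h5 : |((a : ℕ) : ℝ) - ((a' : ℕ) : ℝ)| < 1 := by
      by_contra hc
      push Not at hc
      nlinarith
    have h6 : |((a : ℕ) : ℤ) - ((a' : ℕ) : ℤ)| < 1 := by
      exact_mod_cast h5
    rw [Int.abs_lt_one_iff] at h6
    apply hne
    apply Fin.ext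
    omega
  obtain ⟨j, hj⟩ := key
  have hjd : (j : ℕ) ≤ d := Nat.lt_succ_iff.1 j.2
  have hjd' : ((j : ℕ) : ℝ) ≤ d := by exact_mod_cast hjd
  have hj0 : (0 : ℝ) ≤ ((j : ℕ) : ℝ) := Nat.cast_nonneg _
  refine ⟨j, hjd, fun i => ?_⟩
  have h1 := hj i
  have h0 : 0 ≤ |s + 2 * ((j : ℕ) : ℝ) * ρ - μ i| := abs_nonneg _
  refine max_le ?_ ?_
  · have h2 : |s - μ i| ≤ |s + 2 * ((j : ℕ) : ℝ) * ρ - μ i| + 2 * ((j : ℕ) : ℝ) * ρ := by
      have : s - μ i = (s + 2 * ((j : ℕ) : ℝ) * ρ - μ i) - 2 * ((j : ℕ) : ℝ) * ρ := by ring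
      calc |s - μ i| = |(s + 2 * ((j : ℕ) : ℝ) * ρ - μ i) - 2 * ((j : ℕ) : ℝ) * ρ| := by rw [← this]
        _ ≤ |s + 2 * ((j : ℕ) : ℝ) * ρ - μ i| + |2 * ((j : ℕ) : ℝ) * ρ| := abs_sub _ _
        _ = _ := by rw [abs_of_nonneg (by positivity : 0 ≤ 2 * ((j : ℕ) : ℝ) * ρ)]
    have h3 : 2 * ((j : ℕ) : ℝ) * ρ ≤ 2 * d * |s + 2 * ((j : ℕ) : ℝ) * ρ - μ i| := by
      calc 2 * ((j : ℕ) : ℝ) * ρ ≤ 2 * ((j : ℕ) : ℝ) * |s + 2 * ((j : ℕ) : ℝ) * ρ - μ i| := by
            gcongr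
        _ ≤ _ := by gcongr
    linarith
  · have h3 : (0 : ℝ) ≤ 2 * d * |s + 2 * ((j : ℕ) : ℝ) * ρ - μ i| := by positivity
    linarith

/-- Pencils: the same with shifts. -/
theorem sh_pencil_shift_full (P Q : V →ₗ[ℝ] V) (hP : P.IsSymmetric) (hQ : Q.IsSymmetric) {b B : ℝ}
    (hb : 0 < b) (hpos : ∀ v, b * ‖v‖ ^ 2 ≤ ⟪Q v, v⟫) (hB : 0 ≤ B)
    (hup : ∀ v, ⟪Q v, v⟫ ≤ B * ‖v‖ ^ 2) :
    ∃ μ : Fin (finrank ℝ V) → ℝ,
      (∀ s : ℝ, LinearMap.det (P + s • Q) = LinearMap.det Q * ∏ i, (s - μ i)) ∧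
      (∀ s t : ℝ, 0 ≤ t → (∀ i, t ≤ |s - μ i|) → ∀ v, b * t * ‖v‖ ≤ ‖(P + s • Q) v‖) ∧
      (∀ s t : ℝ, 0 ≤ t → (∀ i, |s - μ i| ≤ t) → ∀ v, ‖(P + s • Q) v‖ ≤ B * t * ‖v‖) ∧
      (∀ s l : ℝ, LinearMap.det (LinearMap.id + (l • (P + s • Q)) ∘ₗ (l • (P + s • Q))) ≤
        max 1 (B ^ 2) ^ finrank ℝ V * ∏ i, (1 + l ^ 2 * (s - μ i) ^ 2)) ∧
      (∀ s ρ : ℝ, 0 < ρ → ∃ j : ℕ, j ≤ finrank ℝ V ∧
        b ^ finrank ℝ V * ∏ i, max |s - μ i| ρ ≤ (2 * finrank ℝ V + 1) ^ finrank ℝ V *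
          |LinearMap.det (P + (s + 2 * j * ρ) • Q)|) ∧
      (∀ I : Finset (Fin (finrank ℝ V)), ∃ W : Submodule ℝ V, finrank ℝ W = I.card ∧
        ∀ s t : ℝ, 0 ≤ t → (∀ i ∈ I, |s - μ i| ≤ t) → ∀ w ∈ W,
          ‖(P + s • Q) w‖ ≤ B * t * ‖w‖) ∧
      (∀ (s : ℝ) (i : Fin (finrank ℝ V)), ∃ v : V, v ≠ 0 ∧
        b * |s - μ i| * ‖v‖ ≤ ‖(P + s • Q) v‖) := by
  obtain ⟨μ, h1, h2, h3, h4, hI, hn⟩ := sh_pencil_full P Q hP hQ hb hpos hB hup
  refine ⟨μ, h1, h2, h3, h4, fun s ρ hρ => ?_, hI, hn⟩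
  obtain ⟨j, hj, hmax⟩ := sh_shift μ s ρ hρ
  refine ⟨j, hj, ?_⟩
  have hdetQ : b ^ finrank ℝ V ≤ |LinearMap.det Q| :=
    (sh_pow_le_det Q hQ hb.le hpos).trans (le_abs_self _)
  have hprod : ∏ i, max |s - μ i| ρ ≤
      (2 * finrank ℝ V + 1) ^ finrank ℝ V * ∏ i, |s + 2 * j * ρ - μ i| := by
    have e1 : ((2 * finrank ℝ V + 1 : ℝ)) ^ finrank ℝ V
        = ∏ _i : Fin (finrank ℝ V), (2 * finrank ℝ V + 1 : ℝ) := by simp
    rw [e1, ← Finset.prod_mul_distrib]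
    exact Finset.prod_le_prod (fun i _ => by positivity) (fun i _ => hmax i)
  rw [h1, abs_mul, Finset.abs_prod]
  have h5 : 0 ≤ ∏ i, |s + 2 * j * ρ - μ i| := Finset.prod_nonneg fun i _ => abs_nonneg _
  calc b ^ finrank ℝ V * ∏ i, max |s - μ i| ρ
      ≤ b ^ finrank ℝ V * ((2 * finrank ℝ V + 1) ^ finrank ℝ V * ∏ i, |s + 2 * j * ρ - μ i|) := by
        gcongr
    _ = (2 * finrank ℝ V + 1) ^ finrank ℝ V * (b ^ finrank ℝ V * ∏ i, |s + 2 * j * ρ - μ i|) := by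
        ring
    _ ≤ (2 * finrank ℝ V + 1) ^ finrank ℝ V *
        (|LinearMap.det Q| * ∏ i, |s + 2 * j * ρ - μ i|) := by gcongr

end SH

/-- All facts about the pencil `P + s Q` with `Q ≥ b > 0`. -/
theorem pencil_full (d : ℕ) (P Q : E d →L[ℝ] E d) (hP : Sy P) (hQ : Sy Q) (b B : ℝ) (hb : 0 < b)
    (hpos : ∀ v, b * ‖v‖ ^ 2 ≤ ⟪Q v, v⟫) (hB : ‖Q‖ ≤ B) :
    ∃ μ : Fin d → ℝ,
      (∀ s : ℝ, (P + s • Q).det = Q.det * ∏ i, (s - μ i)) ∧
      (∀ s t : ℝ, 0 ≤ t → (∀ i, t ≤ |s - μ i|) → ∀ v, b * t * ‖v‖ ≤ ‖(P + s • Q) v‖) ∧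
      (∀ s t : ℝ, 0 ≤ t → (∀ i, |s - μ i| ≤ t) → ‖P + s • Q‖ ≤ B * t) ∧
      (∀ s l : ℝ, (ContinuousLinearMap.id ℝ (E d) + (l • (P + s • Q)) ∘L (l • (P + s • Q))).det ≤
        max 1 (B ^ 2) ^ d * ∏ i, (1 + l ^ 2 * (s - μ i) ^ 2)) ∧
      (∀ s ρ : ℝ, 0 < ρ → ∃ j : ℕ, j ≤ d ∧
        b ^ d * ∏ i, max |s - μ i| ρ ≤ (2 * d + 1) ^ d * |(P + (s + 2 * j * ρ) • Q).det|) ∧
      (∀ s r X : ℝ, 0 < r → (∀ j : ℕ, j ≤ d → |(P + (s + 2 * j / r) • Q).det| ≤ X) →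
        (r ^ d * X)⁻¹ * (AA (r ^ 2 • (P + s • Q)))⁻¹ ≤
          ((2 * d + 1) / b * max 1 B) ^ d * ∏ i, fr r |s - μ i|) ∧
      (∀ I : Finset (Fin d), ∃ W : Submodule ℝ (E d), finrank ℝ W = I.card ∧
        ∀ s t : ℝ, 0 ≤ t → (∀ i ∈ I, |s - μ i| ≤ t) → ∀ w ∈ W,
          ‖(P + s • Q) w‖ ≤ B * t * ‖w‖) ∧
      (∀ (s : ℝ) (i : Fin d), b * |s - μ i| ≤ ‖P + s • Q‖) := by
  classical
  have hn : finrank ℝ (E d) = d := finrank_euclideanSpace_fin
  have hB0 : 0 ≤ B := (norm_nonneg Q).trans hB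
  have hup : ∀ v, ⟪Q v, v⟫ ≤ B * ‖v‖ ^ 2 := by
    intro v
    calc ⟪Q v, v⟫ ≤ ‖Q v‖ * ‖v‖ := real_inner_le_norm _ _
      _ ≤ (B * ‖v‖) * ‖v‖ := by
        refine mul_le_mul_of_nonneg_right ?_ (norm_nonneg _)
        exact (Q.le_opNorm v).trans (mul_le_mul_of_nonneg_right hB (norm_nonneg _))
      _ = _ := by ring
  have hmain := sh_pencil_shift_full (P : E d →ₗ[ℝ] E d) (Q : E d →ₗ[ℝ] E d) hP hQ hb hpos hB0 hup
  obtain ⟨μ, h1, h2, h3, h4, h5, hI, hnn⟩ : ∃ μ : Fin d → ℝ,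
      (∀ s : ℝ, LinearMap.det ((P : E d →ₗ[ℝ] E d) + s • (Q : E d →ₗ[ℝ] E d)) =
        LinearMap.det (Q : E d →ₗ[ℝ] E d) * ∏ i, (s - μ i)) ∧
      (∀ s t : ℝ, 0 ≤ t → (∀ i, t ≤ |s - μ i|) → ∀ v, b * t * ‖v‖ ≤
        ‖((P : E d →ₗ[ℝ] E d) + s • (Q : E d →ₗ[ℝ] E d)) v‖) ∧
      (∀ s t : ℝ, 0 ≤ t → (∀ i, |s - μ i| ≤ t) → ∀ v,
        ‖((P : E d →ₗ[ℝ] E d) + s • (Q : E d →ₗ[ℝ] E d)) v‖ ≤ B * t * ‖v‖) ∧
      (∀ s l : ℝ, LinearMap.det (LinearMap.id +
        (l • ((P : E d →ₗ[ℝ] E d) + s • (Q : E d →ₗ[ℝ] E d))) ∘ₗ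
        (l • ((P : E d →ₗ[ℝ] E d) + s • (Q : E d →ₗ[ℝ] E d)))) ≤
        max 1 (B ^ 2) ^ d * ∏ i, (1 + l ^ 2 * (s - μ i) ^ 2)) ∧
      (∀ s ρ : ℝ, 0 < ρ → ∃ j : ℕ, j ≤ d ∧
        b ^ d * ∏ i, max |s - μ i| ρ ≤ (2 * d + 1) ^ d *
          |LinearMap.det ((P : E d →ₗ[ℝ] E d) + (s + 2 * j * ρ) • (Q : E d →ₗ[ℝ] E d))|) ∧
      (∀ I : Finset (Fin d), ∃ W : Submodule ℝ (E d), finrank ℝ W = I.card ∧
        ∀ s t : ℝ, 0 ≤ t → (∀ i ∈ I, |s - μ i| ≤ t) → ∀ w ∈ W,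
          ‖((P : E d →ₗ[ℝ] E d) + s • (Q : E d →ₗ[ℝ] E d)) w‖ ≤ B * t * ‖w‖) ∧
      (∀ (s : ℝ) (i : Fin d), ∃ v : E d, v ≠ 0 ∧
        b * |s - μ i| * ‖v‖ ≤ ‖((P : E d →ₗ[ℝ] E d) + s • (Q : E d →ₗ[ℝ] E d)) v‖) := by
    revert hmain
    rw [hn]
    exact fun h => h
  have hdetid : ∀ s l : ℝ,
      (ContinuousLinearMap.id ℝ (E d) + (l • (P + s • Q)) ∘L (l • (P + s • Q))).det ≤
        max 1 (B ^ 2) ^ d * ∏ i, (1 + l ^ 2 * (s - μ i) ^ 2) := fun s l => h4 s l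
  have hshift : ∀ s ρ : ℝ, 0 < ρ → ∃ j : ℕ, j ≤ d ∧
        b ^ d * ∏ i, max |s - μ i| ρ ≤ (2 * d + 1) ^ d * |(P + (s + 2 * j * ρ) • Q).det| :=
    fun s ρ hρ => h5 s ρ hρ
  have hnn' : ∀ (s : ℝ) (i : Fin d), b * |s - μ i| ≤ ‖P + s • Q‖ := by
    intro s i
    obtain ⟨v, hv, hle⟩ := hnn s i
    have h6 : b * |s - μ i| * ‖v‖ ≤ ‖P + s • Q‖ * ‖v‖ := hle.trans ((P + s • Q).le_opNorm v)
    exact le_of_mul_le_mul_right h6 (norm_pos_iff.2 hv)
  refine ⟨μ, h1, h2, fun s t ht hst => ?_, hdetid, hshift, fun s r X hr hX => ?_, hI, hnn'⟩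
  · refine ContinuousLinearMap.opNorm_le_bound _ (by positivity) (fun v => ?_)
    exact h3 s t ht hst v
  · obtain ⟨j, hj, hjle⟩ := hshift s (1 / r) (by positivity)
    have hj2 : s + 2 * j * (1 / r) = s + 2 * j / r := by ring
    rw [hj2] at hjle
    have hXj := hX j hj
    set m : Fin d → ℝ := fun i => max 1 (r * |s - μ i|) with hm
    have hm1 : ∀ i, 1 ≤ m i := fun i => le_max_left _ _
    have hmpos : 0 < ∏ i, m i := Finset.prod_pos fun i _ => lt_of_lt_of_le one_pos (hm1 i)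
    have e1 : ∏ i, max |s - μ i| (1 / r) = (r ^ d)⁻¹ * ∏ i, m i := by
      have e2 : ∀ i, max |s - μ i| (1 / r) = r⁻¹ * m i := by
        intro i
        rw [hm]
        simp only
        rw [mul_max_of_nonneg _ _ (inv_nonneg.2 hr.le), mul_one, inv_mul_cancel_left₀ hr.ne',
          max_comm, one_div]
      simp only [e2]
      rw [Finset.prod_mul_distrib, Finset.prod_const, Finset.card_univ, Fintype.card_fin, inv_pow]
    rw [e1] at hjle
    have hr0 : 0 < r ^ d := by positivity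
    have hc0 : (0 : ℝ) < (2 * d + 1) ^ d := by positivity
    have hX1 : b ^ d * ∏ i, m i ≤ (2 * d + 1) ^ d * (r ^ d * X) := by
      have h6 : b ^ d * ((r ^ d)⁻¹ * ∏ i, m i) ≤ (2 * d + 1) ^ d * X :=
        hjle.trans (mul_le_mul_of_nonneg_left hXj hc0.le)
      calc b ^ d * ∏ i, m i = r ^ d * (b ^ d * ((r ^ d)⁻¹ * ∏ i, m i)) := by
            field_simp
        _ ≤ r ^ d * ((2 * d + 1) ^ d * X) := mul_le_mul_of_nonneg_left h6 hr0.le
        _ = _ := by ring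
    have hbm : 0 < b ^ d * ∏ i, m i := by positivity
    have hrX : 0 < r ^ d * X := by
      by_contra hc
      push Not at hc
      have : (2 * (d : ℝ) + 1) ^ d * (r ^ d * X) ≤ 0 := mul_nonpos_of_nonneg_of_nonpos hc0.le hc
      linarith
    have hfirst : (r ^ d * X)⁻¹ ≤ ((2 * d + 1) / b) ^ d * (∏ i, m i)⁻¹ := by
      rw [inv_le_comm₀ hrX (by positivity), mul_inv, inv_inv, div_pow, inv_div]
      rw [div_mul_eq_mul_div, div_le_iff₀ hc0]
      linarith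
    have hD0 : 0 ≤ (ContinuousLinearMap.id ℝ (E d) +
        (r ^ 2 • (P + s • Q)) ∘L (r ^ 2 • (P + s • Q))).det := by
      have hsymM : ∀ v w, ⟪(r ^ 2 • (P + s • Q)) v, w⟫ = ⟪v, (r ^ 2 • (P + s • Q)) w⟫ := by
        intro v w
        have e3 : ∀ x, (r ^ 2 • (P + s • Q)) x = r ^ 2 • (P x + s • Q x) := fun x => rfl
        rw [e3, e3, real_inner_smul_left, real_inner_smul_right, inner_add_left, inner_add_right,
          real_inner_smul_left, real_inner_smul_right, hP, hQ]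
      have h7 := sh_pow_le_det (((ContinuousLinearMap.id ℝ (E d) +
        (r ^ 2 • (P + s • Q)) ∘L (r ^ 2 • (P + s • Q)) : E d →L[ℝ] E d)) : E d →ₗ[ℝ] E d) (by
          intro v w
          change ⟪v + (r ^ 2 • (P + s • Q)) ((r ^ 2 • (P + s • Q)) v), w⟫
            = ⟪v, w + (r ^ 2 • (P + s • Q)) ((r ^ 2 • (P + s • Q)) w)⟫
          rw [inner_add_left, inner_add_right, hsymM, hsymM]) zero_le_one (by
          intro v
          change 1 * ‖v‖ ^ 2 ≤ ⟪v + (r ^ 2 • (P + s • Q)) ((r ^ 2 • (P + s • Q)) v), v⟫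
          rw [inner_add_left, hsymM, real_inner_self_eq_norm_sq, real_inner_self_eq_norm_sq]
          nlinarith [sq_nonneg ‖(r ^ 2 • (P + s • Q)) v‖])
      exact le_trans (by positivity) h7
    have hsecond : (AA (r ^ 2 • (P + s • Q)))⁻¹ ≤
        (max 1 B) ^ d * ∏ i, √(1 + r ^ 2 * |s - μ i|) := by
      rw [AA, ← Real.rpow_neg (abs_nonneg _), neg_neg, abs_of_nonneg hD0]
      have h8 : (ContinuousLinearMap.id ℝ (E d) +
          (r ^ 2 • (P + s • Q)) ∘L (r ^ 2 • (P + s • Q))).det ≤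
          ((max 1 B) ^ d * ∏ i, √(1 + r ^ 2 * |s - μ i|)) ^ (4 : ℕ) := by
        refine (hdetid s (r ^ 2)).trans ?_
        have h9 : ∀ i, 1 + (r ^ 2) ^ 2 * (s - μ i) ^ 2 ≤ √(1 + r ^ 2 * |s - μ i|) ^ 4 := by
          intro i
          have h10 : √(1 + r ^ 2 * |s - μ i|) ^ 4 = (1 + r ^ 2 * |s - μ i|) ^ 2 := by
            rw [show (4 : ℕ) = 2 * 2 from rfl, pow_mul, Real.sq_sqrt (by positivity)]
          rw [h10]
          have h11 : 0 ≤ r ^ 2 * |s - μ i| := by positivity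
          nlinarith [sq_abs (s - μ i)]
        have h12 : max 1 (B ^ 2) ≤ (max 1 B) ^ 4 := by
          have h13 : (1 : ℝ) ≤ max 1 B := le_max_left _ _
          have h14 : B ≤ max 1 B := le_max_right _ _
          have h15 : (1 : ℝ) ≤ (max 1 B) ^ 2 := one_le_pow₀ h13
          refine max_le (one_le_pow₀ h13) ?_
          calc B ^ 2 ≤ (max 1 B) ^ 2 := pow_le_pow_left₀ hB0 h14 2
            _ ≤ (max 1 B) ^ 4 := pow_le_pow_right₀ h13 (by norm_num)
        calc max 1 (B ^ 2) ^ d * ∏ i, (1 + (r ^ 2) ^ 2 * (s - μ i) ^ 2)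
            ≤ ((max 1 B) ^ 4) ^ d * ∏ i, √(1 + r ^ 2 * |s - μ i|) ^ 4 := by
              refine mul_le_mul (pow_le_pow_left₀ (by positivity) h12 d) ?_ ?_ (by positivity)
              · exact Finset.prod_le_prod (fun i _ => by positivity) (fun i _ => h9 i)
              · exact Finset.prod_nonneg fun i _ => by positivity
          _ = _ := by
              rw [Finset.prod_pow, mul_pow, ← pow_mul, ← pow_mul, mul_comm d 4]
      have h16 : 0 ≤ (max 1 B) ^ d * ∏ i, √(1 + r ^ 2 * |s - μ i|) := by positivity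
      calc _ ≤ (((max 1 B) ^ d * ∏ i, √(1 + r ^ 2 * |s - μ i|)) ^ (4 : ℕ)) ^ (1 / 4 : ℝ) :=
            Real.rpow_le_rpow hD0 h8 (by norm_num)
        _ = _ := by
            rw [← Real.rpow_natCast, ← Real.rpow_mul h16]
            norm_num
    calc (r ^ d * X)⁻¹ * (AA (r ^ 2 • (P + s • Q)))⁻¹
        ≤ (((2 * d + 1) / b) ^ d * (∏ i, m i)⁻¹) *
          ((max 1 B) ^ d * ∏ i, √(1 + r ^ 2 * |s - μ i|)) := by
          refine mul_le_mul hfirst hsecond ?_ (by positivity)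
          exact inv_nonneg.2 (Real.rpow_nonneg (abs_nonneg _) _)
      _ = ((2 * d + 1) / b * max 1 B) ^ d * ∏ i, fr r |s - μ i| := by
          unfold fr
          rw [Finset.prod_div_distrib, mul_pow]
          field_simp
          rfl

/-- All facts about the pencil `P + s Q` with `Q ≥ b > 0`. -/
theorem pencil_all (d : ℕ) (P Q : E d →L[ℝ] E d) (hP : Sy P) (hQ : Sy Q) (b B : ℝ) (hb : 0 < b)
    (hpos : ∀ v, b * ‖v‖ ^ 2 ≤ ⟪Q v, v⟫) (hB : ‖Q‖ ≤ B) :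
    ∃ μ : Fin d → ℝ,
      (∀ s : ℝ, (P + s • Q).det = Q.det * ∏ i, (s - μ i)) ∧
      (∀ s t : ℝ, 0 ≤ t → (∀ i, t ≤ |s - μ i|) → ∀ v, b * t * ‖v‖ ≤ ‖(P + s • Q) v‖) ∧
      (∀ s t : ℝ, 0 ≤ t → (∀ i, |s - μ i| ≤ t) → ‖P + s • Q‖ ≤ B * t) ∧
      (∀ s l : ℝ, (ContinuousLinearMap.id ℝ (E d) + (l • (P + s • Q)) ∘L (l • (P + s • Q))).det ≤
        max 1 (B ^ 2) ^ d * ∏ i, (1 + l ^ 2 * (s - μ i) ^ 2)) ∧
      (∀ s ρ : ℝ, 0 < ρ → ∃ j : ℕ, j ≤ d ∧
        b ^ d * ∏ i, max |s - μ i| ρ ≤ (2 * d + 1) ^ d * |(P + (s + 2 * j * ρ) • Q).det|) ∧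
      (∀ s r X : ℝ, 0 < r → (∀ j : ℕ, j ≤ d → |(P + (s + 2 * j / r) • Q).det| ≤ X) →
        (r ^ d * X)⁻¹ * (AA (r ^ 2 • (P + s • Q)))⁻¹ ≤
          ((2 * d + 1) / b * max 1 B) ^ d * ∏ i, fr r |s - μ i|) := by
  obtain ⟨μ, h1, h2, h3, h4, h5, h6, -, -⟩ := pencil_full d P Q hP hQ b B hb hpos hB
  exact ⟨μ, h1, h2, h3, h4, h5, h6⟩

end Pool.Agent.GNP
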