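import Pool.Agent.GNP.ONE
import Pool.Agent.GNP.HC
import Pool.Agent.GNP.SH

/-!
One level, for the phases `c Φ - s h`.
-/

namespace Pool.Agent.GNP

open MeasureTheory Set Metric Pool.Agent.MP_6cbfb8_an
open scoped ENNReal Real RealInnerProductSpace ContDiff

theorem AmpR.weakenA {d : ℕ} {A A' : ℕ → ℝ} {r R : ℝ} {a : E d → ℂ} (h : AmpR d A r R a)
    (hR : 0 ≤ R) (hA : ∀ j, A j ≤ A' j) : AmpR d A' r R a :=
  ⟨h.sm, h.supp, fun j y => (h.bd j y).trans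
    (mul_le_mul_of_nonneg_right (hA j) (pow_nonneg hR j))⟩

theorem Sd_pos {d : ℕ} {A : ℕ → ℝ} {b r' : ℝ} (hb : 0 < b) {Φ h : E d → ℝ} (hΦ : Sm d A Φ)
    (hh : Sm d A h) (hd : Df d b r' h) (c s : ℝ) {R : ℝ} (hR : 0 < R) (y : E d) (hy : ‖y‖ ≤ r') :
    0 < Sd Φ h c s R y := by
  have hP : Sy (c • Hs Φ y) := fun v w => by
    simp only [smul_apply, inner_smul_left, inner_smul_right]
    rw [Hs_symm hΦ.sm]
    simp
  have hQ : Sy (-(Hs h y)) := fun v w => by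
    simp only [neg_apply, inner_neg_left, inner_neg_right]
    rw [Hs_symm hh.sm]
  have hpos : ∀ v, b * ‖v‖ ^ 2 ≤ ⟪(-(Hs h y)) v, v⟫ := fun v => by
    simp only [neg_apply, inner_neg_left]
    have := hd y hy v
    linarith
  obtain ⟨μ, -, -, -, -, h5, -⟩ := pencil_all d (c • Hs Φ y) (-(Hs h y)) hP hQ b ‖-(Hs h y)‖ hb
    hpos le_rfl
  obtain ⟨j, hj, hjle⟩ := h5 s R hR
  have h6 : 0 < b ^ d * ∏ i, max |s - μ i| R :=
    mul_pos (by positivity) (Finset.prod_pos fun i _ => lt_of_lt_of_le hR (le_max_right _ _))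
  have h7 : 0 < |(c • Hs Φ y + (s + 2 * j * R) • -(Hs h y)).det| := by
    by_contra h8
    have h9 : |(c • Hs Φ y + (s + 2 * j * R) • -(Hs h y)).det| = 0 :=
      le_antisymm (not_lt.1 h8) (abs_nonneg _)
    rw [h9, mul_zero] at hjle
    linarith
  have h8 : c • Hs Φ y + (s + 2 * j * R) • -(Hs h y) = Hs (ph Φ h c (s + 2 * j * R)) y := by
    rw [Hs_ph hΦ.sm hh.sm, smul_neg, sub_eq_add_neg]
  rw [h8] at h7
  unfold Sd
  exact Finset.sum_pos' (fun i _ => abs_nonneg _)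
    ⟨j, Finset.mem_range.2 (Nat.lt_succ_of_le hj), h7⟩

theorem continuous_Sd {d : ℕ} {A : ℕ → ℝ} {Φ h : E d → ℝ} (hΦ : Sm d A Φ)
    (hh : Sm d A h) (c s R : ℝ) : Continuous (Sd Φ h c s R) := by
  unfold Sd
  refine continuous_finsetSum _ fun j _ => ?_
  have h1 : ContDiff ℝ ∞ (ph Φ h c (s + 2 * j * R)) :=
    (contDiff_const.mul hΦ.sm).sub (contDiff_const.mul hh.sm)
  exact (ContinuousLinearMap.continuous_det.comp (continuous_Hs h1)).abs

/-- One level. -/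
theorem one2_of (d : ℕ) (A A' : ℕ → ℝ) (r' b p ε : ℝ) (hr' : 0 < r') (hb : 0 < b) (hp : 2 < p)
    (hε : 0 < ε) (hloc : ∀ A' : ℕ → ℝ, LOCS d A' (d + 1) (p - 2)) : ∃ K : ℝ, 0 < K ∧
    ∀ (Φ h : E d → ℝ) (g : E d → ℂ) (c s r R L : ℝ) (G : Set (E d)), Sm d A Φ → Sm d A h →
      Df d b r' h → 1 ≤ R → 1 + |c| + |s| + R ≤ L → AmpR d A' r R g → MeasurableSet G →
      (∀ y ∈ G, ‖y‖ ≤ r') → (∀ y, g y ≠ 0 → closedBall y (1 / R) ⊆ G) →
      (∀ y ∈ G, ∀ j, 3 ≤ j → ‖iteratedFDeriv ℝ j (ph Φ h c s) y‖ ≤ A' j * R ^ j) →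
      ∫⁻ x, ‖uu g (ph Φ h c s) x‖ₑ ^ p ≤ ENNReal.ofReal (K * L ^ ε) *
        ∫⁻ y in G, ENNReal.ofReal (Vv Φ h c s R y ^ (p - 2)) := by
  have hal : 0 < p - 2 := by linarith
  obtain ⟨K1, hK1, hone⟩ := ONE_of d (fun j => |A' j| + |A j|) (d + 1) le_rfl (p - 2) ε hal hε hloc
  obtain ⟨K2, hK2, hcs⟩ := count_shift d A r' (ε / (p - 2)) (d + 1) d 2 hr' (by positivity)
    le_rfl (by norm_num)
  refine ⟨K1 * K2 ^ (p - 2) * (2 * d + 1) ^ ε, by positivity, ?_⟩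
  intro Φ h g c s r R L G hΦ hh hd hR hL hg hG hGr hgG hGq
  have hR0 : 0 < R := by linarith
  have hL0 : 1 ≤ L := by
    have := abs_nonneg c
    have := abs_nonneg s
    linarith
  have hdL : 1 ≤ (2 * d + 1 : ℝ) * L := by
    have h1 : (1:ℝ) ≤ 2 * d + 1 := by
      have : (0:ℝ) ≤ d := Nat.cast_nonneg d
      linarith
    nlinarith
  set P : ℝ := √((2 * d + 1) * L) with hP
  have hP1 : 1 ≤ P := by
    rw [hP]
    exact Real.one_le_sqrt.2 hdL
  have hP2 : P ^ 2 = (2 * d + 1) * L := Real.sq_sqrt (by linarith)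
  have hq : ContDiff ℝ ∞ (ph Φ h c s) := (contDiff_const.mul hΦ.sm).sub (contDiff_const.mul hh.sm)
  have hLP : |c| + |s| + d * 2 * R ≤ P ^ 2 := by
    rw [hP2]
    have h1 : R ≤ L := by
      have := abs_nonneg c
      have := abs_nonneg s
      linarith
    have h2 : (d:ℝ) * 2 * R ≤ d * 2 * L := by gcongr
    nlinarith
  have hA2 : ∀ y ∈ G, ‖Hs (ph Φ h c s) y‖ ≤ (|A' 2| + |A 2|) * P ^ 2 := by
    intro y _
    refine (norm_Hs_le hq y).trans ((ph_bound hΦ.sm hh.sm c s 2 y).trans ?_)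
    have h1 : ‖iteratedFDeriv ℝ 2 Φ y‖ ≤ |A 2| := (hΦ.bd 2 y).trans (le_abs_self _)
    have h2 : ‖iteratedFDeriv ℝ 2 h y‖ ≤ |A 2| := (hh.bd 2 y).trans (le_abs_self _)
    calc |c| * ‖iteratedFDeriv ℝ 2 Φ y‖ + |s| * ‖iteratedFDeriv ℝ 2 h y‖
        ≤ |c| * |A 2| + |s| * |A 2| := by gcongr
      _ = |A 2| * (|c| + |s|) := by ring
      _ ≤ |A 2| * P ^ 2 := by
          refine mul_le_mul_of_nonneg_left ?_ (abs_nonneg _)
          have h3 : (0:ℝ) ≤ d * 2 * R := by positivity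
          linarith
      _ ≤ (|A' 2| + |A 2|) * P ^ 2 := by
          refine mul_le_mul_of_nonneg_right ?_ (by positivity)
          linarith [abs_nonneg (A' 2)]
  have hD : ∀ y, (∑ j ∈ Finset.range (d + 1), ‖(Hs (ph Φ h c (s + j * 2 * R)) y).det‖ₑ) =
      ENNReal.ofReal (Sd Φ h c s R y) := by
    intro y
    unfold Sd
    rw [ENNReal.ofReal_sum_of_nonneg fun i _ => abs_nonneg _]
    refine Finset.sum_congr rfl fun j _ => ?_
    rw [← ofReal_norm, Real.norm_eq_abs, mul_comm (j:ℝ) 2]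
  have h1 := hone g (ph Φ h c s) r R P G (Sd Φ h c s R)
    (ENNReal.ofReal (K2 * P ^ (ε / (p - 2)) * R ^ d)) hR hP1
    (hg.weakenA hR0.le fun j => (le_abs_self _).trans (le_add_of_nonneg_right (abs_nonneg _))) hq hG
    hgG hA2 (fun y hy j hj => (hGq y hy j hj).trans (mul_le_mul_of_nonneg_right
      ((le_abs_self _).trans (le_add_of_nonneg_right (abs_nonneg _))) (by positivity)))
    (continuous_Sd hΦ hh c s R).measurable
    (fun y hy => Sd_pos hb hΦ hh hd c s hR0 y (hGr y hy)) (fun x => ?_)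
  · rw [show (2 + (p - 2) : ℝ) = p by ring] at h1
    refine h1.trans ?_
    have h2 : ∀ y ∈ G, ENNReal.ofReal
        ((Sd Φ h c s R y * AA ((R ^ 2)⁻¹ • Hs (ph Φ h c s) y))⁻¹ ^ (p - 2)) =
        ENNReal.ofReal ((R ^ d)⁻¹ ^ (p - 2)) * ENNReal.ofReal (Vv Φ h c s R y ^ (p - 2)) := by
      intro y hy
      have h3 := Sd_pos hb hΦ hh hd c s hR0 y (hGr y hy)
      have h4 : 0 ≤ AA ((R ^ 2)⁻¹ • Hs (ph Φ h c s) y) := AA_nonneg _
      have h5 : 0 ≤ Vv Φ h c s R y := by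
        unfold Vv Mz
        positivity
      rw [← ENNReal.ofReal_mul (by positivity), ← Real.mul_rpow (by positivity) h5]
      congr 2
      unfold Vv Mz
      field_simp
    rw [setLIntegral_congr_fun hG h2, lintegral_const_mul' _ _ ENNReal.ofReal_ne_top, ← mul_assoc]
    gcongr
    rw [ENNReal.ofReal_rpow_of_nonneg (by positivity) hal.le, ← ENNReal.ofReal_mul (by positivity),
      ← ENNReal.ofReal_mul (by positivity)]
    apply ENNReal.ofReal_le_ofReal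
    have h6 : (P ^ (ε / (p - 2))) ^ (p - 2) = P ^ ε := by
      rw [← Real.rpow_mul (by positivity)]
      congr 1
      field_simp
    have h7 : P ^ ε * P ^ ε = (2 * d + 1) ^ ε * L ^ ε := by
      rw [← Real.mul_rpow (by positivity) (by positivity), ← sq, hP2,
        Real.mul_rpow (by positivity) (by positivity)]
    have h8 : (R ^ d) ^ (p - 2) * (R ^ d)⁻¹ ^ (p - 2) = 1 := by
      rw [← Real.mul_rpow (by positivity) (by positivity), mul_inv_cancel₀ (by positivity),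
        Real.one_rpow]
    rw [Real.mul_rpow (by positivity) (by positivity), Real.mul_rpow (by positivity) (by positivity),
      h6]
    calc K1 * P ^ ε * (K2 ^ (p - 2) * P ^ ε * (R ^ d) ^ (p - 2)) * (R ^ d)⁻¹ ^ (p - 2)
        = K1 * K2 ^ (p - 2) * (P ^ ε * P ^ ε) * ((R ^ d) ^ (p - 2) * (R ^ d)⁻¹ ^ (p - 2)) := by ring
      _ = K1 * K2 ^ (p - 2) * ((2 * d + 1) ^ ε * L ^ ε) := by rw [h7, h8, mul_one]
      _ ≤ _ := le_of_eq (by ring)
  · have h9 := hcs Φ h c s P R hΦ hh hP1 hR hLP G hG hGr x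
    unfold wt
    simp only [hD] at h9
    exact h9

end Pool.Agent.GNP
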