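import Pool.Agent.GNP.Defs

/-! Row P1b: the pieces add up; the number of lattice points. -/

namespace Pool.Agent.GNP

open MeasureTheory Set Pool.Agent.MP_6cbfb8_an
open scoped ENNReal Real RealInnerProductSpace ContDiff

theorem p1b_th_eq_zero {x : ℝ} (h : 1 ≤ |x|) : th x = 0 := by
  unfold th
  rcases le_abs.1 h with h | h
  · rw [Real.smoothTransition.one_of_one_le (by linarith), Real.smoothTransition.one_of_one_le h, sub_self]
  · rw [Real.smoothTransition.zero_of_nonpos (by linarith), Real.smoothTransition.zero_of_nonpos (by linarith),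
      sub_self]

theorem p1b_th_cont : Continuous th := by
  unfold th
  exact (Real.smoothTransition.continuous.comp (continuous_id.add continuous_const)).sub
    Real.smoothTransition.continuous

theorem p1b_ch_cont {d : ℕ} : Continuous (ch : E d → ℝ) := by
  unfold ch
  refine continuous_finsetProd _ fun i _ => p1b_th_cont.comp ?_
  fun_prop

/-- Telescoping. -/
theorem p1b_th_sum (t : ℝ) (N : ℕ) :
    ∑ j ∈ Finset.range N, th (t - j) =
      Real.smoothTransition (t + 1) - Real.smoothTransition (t + 1 - N) := by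
  induction N with
  | zero => simp
  | succ N ih =>
    rw [Finset.sum_range_succ, ih]
    unfold th
    push_cast
    have h1 : t - N + 1 = t + 1 - N := by ring
    have h2 : t + 1 - (N + 1) = t - N := by ring
    rw [h1, h2]
    ring

theorem p1b_th_sum_Icc (t : ℝ) (M : ℤ) (hM : |t| ≤ M) :
    ∑ j ∈ Finset.Icc (-M) M, th (t - (j : ℝ)) = 1 := by
  have hM0 : 0 ≤ M := by
    have : (0 : ℝ) ≤ M := (abs_nonneg t).trans hM
    exact_mod_cast this
  have h1 : ∑ j ∈ Finset.Icc (-M) M, th (t - (j : ℝ)) =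
      ∑ j ∈ Finset.range (2 * M + 1).toNat, th (t + M - j) := by
    symm
    refine Finset.sum_nbij (fun j => (j : ℤ) - M) ?_ ?_ ?_ ?_
    · intro j hj
      rw [Finset.mem_range] at hj
      rw [Finset.mem_Icc]
      omega
    · intro a _ b _ hab
      simp only at hab
      omega
    · intro j hj
      rw [Finset.mem_coe, Finset.mem_Icc] at hj
      refine ⟨(j + M).toNat, ?_, ?_⟩
      · rw [Finset.mem_coe, Finset.mem_range]
        omega
      · show (((j + M).toNat : ℕ) : ℤ) - M = j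
        omega
    · intro j _
      congr 1
      push_cast
      ring
  rw [h1, p1b_th_sum]
  have h3 : (((2 * M + 1).toNat : ℕ) : ℝ) = 2 * M + 1 := by
    have : (((2 * M + 1).toNat : ℕ) : ℤ) = 2 * M + 1 := Int.toNat_of_nonneg (by omega)
    exact_mod_cast this
  obtain ⟨h4, h5⟩ := abs_le.1 hM
  rw [h3, Real.smoothTransition.one_of_one_le (by linarith),
    Real.smoothTransition.zero_of_nonpos (by linarith), sub_zero]

theorem p1b_norm_lp {d : ℕ} {z : E d} {k : Fin d → ℤ} (h : ch (z - lp k) ≠ 0) :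
    (∀ i, |z i - k i| < 1) ∧ ‖lp k‖ ≤ ‖z‖ + d := by
  have h1 : ∀ i, |z i - k i| < 1 := by
    intro i
    by_contra hcon
    apply h
    unfold ch
    refine Finset.prod_eq_zero (Finset.mem_univ i) (p1b_th_eq_zero ?_)
    exact not_lt.1 hcon
  refine ⟨h1, ?_⟩
  have h2 : ‖z - lp k‖ ≤ d := by
    rw [EuclideanSpace.norm_eq]
    refine Real.sqrt_le_iff.2 ⟨Nat.cast_nonneg _, ?_⟩
    have h3 : ∑ i, ‖(z - lp k) i‖ ^ 2 ≤ ∑ _i : Fin d, (1 : ℝ) := by
      refine Finset.sum_le_sum fun i _ => ?_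
      have h4 : ‖(z - lp k) i‖ ≤ 1 := (h1 i).le
      have h5 := norm_nonneg ((z - lp k) i)
      nlinarith
    rw [Finset.sum_const, Finset.card_univ, Fintype.card_fin, nsmul_eq_mul, mul_one] at h3
    rcases Nat.eq_zero_or_pos d with rfl | hd
    · simp
    · have : (1 : ℝ) ≤ d := by exact_mod_cast hd
      nlinarith
  have h3 : ‖lp k‖ ≤ ‖z‖ + ‖z - lp k‖ := by
    have : lp k = z - (z - lp k) := by abel
    calc ‖lp k‖ = ‖z - (z - lp k)‖ := by rw [← this]
      _ ≤ _ := norm_sub_le _ _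
  linarith

theorem p1b_ch_sum {d : ℕ} (r ρ R : ℝ) (hρ : r < ρ) (hR : ((d : ℝ) + 1) / (ρ - r) ≤ R) (y : E d)
    (hy : ‖y‖ ≤ r) : ∑ k ∈ Lam d ρ R, ch (R • y - lp k) = 1 := by
  have hrR : (d : ℝ) + 1 ≤ (ρ - r) * R := by
    rw [div_le_iff₀ (by linarith)] at hR
    linarith
  have hd0 : (0 : ℝ) ≤ d := Nat.cast_nonneg d
  have hR0 : 0 < R := by
    by_contra hcon
    nlinarith
  have hRy : ‖R • y‖ ≤ r * R := by
    rw [norm_smul, Real.norm_eq_abs, abs_of_pos hR0]
    nlinarith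
  have hM : r * R ≤ (⌈ρ * R⌉ : ℝ) := by
    refine le_trans ?_ (Int.le_ceil _)
    nlinarith
  have h1 : ∑ k ∈ Lam d ρ R, ch (R • y - lp k) =
      ∑ k ∈ Fintype.piFinset fun _ : Fin d => Finset.Icc (-⌈ρ * R⌉) ⌈ρ * R⌉, ch (R • y - lp k) := by
    unfold Lam
    rw [Finset.sum_filter]
    refine Finset.sum_congr rfl fun k _ => ?_
    rw [ite_eq_left_iff]
    intro hk
    by_contra hcon
    apply hk
    have h2 := (p1b_norm_lp (fun h => hcon h.symm)).2
    nlinarith
  rw [h1]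
  have h2 : ∀ k : Fin d → ℤ, ch (R • y - lp k) = ∏ i, th (R * y i - (k i : ℝ)) := by
    intro k
    rfl
  simp only [h2]
  rw [← Finset.prod_univ_sum (fun _ : Fin d => Finset.Icc (-⌈ρ * R⌉) ⌈ρ * R⌉)
    (fun i j => th (R * y i - (j : ℝ)))]
  refine Finset.prod_eq_one fun i _ => p1b_th_sum_Icc _ _ ?_
  refine le_trans ?_ (hRy.trans hM)
  exact PiLp.norm_apply_le (R • y) i

/-- The pieces add up. -/
theorem uu_sum (d : ℕ) (r ρ : ℝ) (hr : 0 < r) (hρ : r < ρ) : ∃ R0 : ℝ, 1 ≤ R0 ∧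
    ∀ (a : E d → ℂ) (q : E d → ℝ) (R : ℝ), R0 ≤ R → Continuous a → (∀ y, r < ‖y‖ → a y = 0) →
    Continuous q → ∀ x, uu a q x = ∑ k ∈ Lam d ρ R, uk a q R k x := by
  have _ := hr
  refine ⟨max 1 (((d : ℝ) + 1) / (ρ - r)), le_max_left _ _, ?_⟩
  intro a q R hR ha hsupp hq x
  have hR1 := (le_max_right _ _).trans hR
  unfold uk uu
  rw [← integral_finsetSum]
  · refine integral_congr_ae (Filter.Eventually.of_forall fun y => ?_)
    show a y * _ = ∑ k ∈ Lam d ρ R, (ch (R • y - lp k) : ℂ) * a y * _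
    rw [← Finset.sum_mul, ← Finset.sum_mul]
    by_cases hy : ‖y‖ ≤ r
    · rw [← Complex.ofReal_sum, p1b_ch_sum r ρ R hρ hR1 y hy, Complex.ofReal_one, one_mul]
    · rw [hsupp y (not_le.1 hy)]
      ring
  · intro k _
    have hc : Continuous fun y : E d => (ch (R • y - lp k) : ℂ) * a y *
        Complex.exp (((q y - ⟪x, y⟫ : ℝ) : ℂ) * Complex.I) := by
      have h1 : Continuous fun y : E d => ch (R • y - lp k) :=
        p1b_ch_cont.comp ((continuous_const_smul R).sub continuous_const)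
      fun_prop
    refine hc.integrable_of_hasCompactSupport ?_
    refine HasCompactSupport.intro (isCompact_closedBall (0 : E d) r) fun y hy => ?_
    have h3 : r < ‖y‖ := by simpa using hy
    rw [hsupp y h3]
    ring

theorem card_Lam (d : ℕ) (ρ : ℝ) (hρ : 0 < ρ) : ∃ K : ℝ, 0 < K ∧ ∀ R : ℝ, 1 ≤ R →
    ((Lam d ρ R).card : ℝ) ≤ K * R ^ d := by
  refine ⟨(2 * ρ + 3) ^ d, by positivity, fun R hR => ?_⟩
  have h1 : (Lam d ρ R).card ≤ (2 * ⌈ρ * R⌉ + 1).toNat ^ d := by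
    unfold Lam
    refine (Finset.card_filter_le _ _).trans (le_of_eq ?_)
    rw [Fintype.card_piFinset]
    simp only [Int.card_Icc]
    rw [Finset.prod_const, Finset.card_univ, Fintype.card_fin]
    congr 2
    ring
  have hrR : 0 ≤ ρ * R := by positivity
  have h2 : (0 : ℤ) ≤ 2 * ⌈ρ * R⌉ + 1 := by
    have := Int.ceil_nonneg hrR
    omega
  have h3 : (((2 * ⌈ρ * R⌉ + 1).toNat : ℕ) : ℝ) ≤ (2 * ρ + 3) * R := by
    have h4 : (((2 * ⌈ρ * R⌉ + 1).toNat : ℕ) : ℝ) = 2 * (⌈ρ * R⌉ : ℝ) + 1 := by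
      have : (((2 * ⌈ρ * R⌉ + 1).toNat : ℕ) : ℤ) = 2 * ⌈ρ * R⌉ + 1 := Int.toNat_of_nonneg h2
      exact_mod_cast this
    rw [h4]
    have h5 := Int.ceil_lt_add_one (ρ * R)
    nlinarith
  calc ((Lam d ρ R).card : ℝ) ≤ (((2 * ⌈ρ * R⌉ + 1).toNat : ℕ) : ℝ) ^ d := by exact_mod_cast h1
    _ ≤ ((2 * ρ + 3) * R) ^ d := by gcongr
    _ = (2 * ρ + 3) ^ d * R ^ d := mul_pow _ _ _

end Pool.Agent.GNP
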