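import Pool.Agent.GNP.GAP

/-!
The unstable sets of the dyadic scales.
-/

namespace Pool.Agent.GNP

open MeasureTheory Set Pool.Agent.MP_6cbfb8_an
open scoped ENNReal Real RealInnerProductSpace ContDiff

theorem Stab.mono_w {d : ℕ} {s : E d → Fin d → ℝ} {K w w' σ : ℝ} {y : E d} (hK : 1 ≤ K)
    (hw : w ≤ w') (h : Stab s K w σ y) : Stab s K w' σ y := by
  intro y' hy' a b
  have h1 := h y' hy' a b
  nlinarith

theorem Stab.mono_σ {d : ℕ} {s : E d → Fin d → ℝ} {K w σ σ' : ℝ} {y : E d}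
    (hσ : σ' ≤ σ) (h : Stab s K w σ y) : Stab s K w σ' y :=
  fun y' hy' a b => h y' (hy'.trans hσ) a b

/-- UNX from `gap` (only the floor `1` is used). -/
theorem unx_of (d : ℕ) (hgap : ∀ (A : ℕ → ℝ) (b r : ℝ), 0 < b → 0 < r → ∀ n0 : ℕ,
    ∃ K0 : ℝ, 1 ≤ K0 ∧ ∀ K, K0 ≤ K → ∀ (Φ h : E d → ℝ) (z : E d) (c : ℝ), Sm d A Φ → Sm d A h →
      ‖z‖ ≤ n0 → DfB b z (2 * r) h → |c| ≤ K ^ n0 → ∀ w σ : ℝ, 1 ≤ w → 0 < σ →
      ∃ X : Set (E d), MeasurableSet X ∧ volume (X ∩ Metric.closedBall z r) ≤ ENNReal.ofReal (K * σ) ∧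
        ∀ y, ‖y - z‖ ≤ r → y ∉ X → Stab (mu Φ h c) K w σ y)
    (C : ℕ) (A : ℕ → ℝ) (b r : ℝ) (hb : 0 < b) (hr : 0 < r) (n0 : ℕ) :
    ∃ K0 : ℝ, 1 ≤ K0 ∧ ∀ K, K0 ≤ K → ∀ (Φ h : E d → ℝ) (z : E d) (c : ℝ), Sm d A Φ → Sm d A h →
      ‖z‖ ≤ n0 → DfB b z (2 * r) h → |c| ≤ K ^ n0 →
      ∃ X : ℕ → Set (E d), (∀ j, MeasurableSet (X j)) ∧
        (∀ j, volume (X j ∩ Metric.closedBall z r) ≤ ENNReal.ofReal (K ^ (C + 3) * ((2 : ℝ) ^ j)⁻¹)) ∧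
        ∀ (j : ℕ) (t : ℝ) (y : E d), ‖y - z‖ ≤ r → 0 < t → t ≤ ((2 : ℝ) ^ j)⁻¹ →
          Unst (mu Φ h c) K C y t → y ∈ X j := by
  obtain ⟨K1, hK1, hg⟩ := hgap A b r hb hr n0
  set V : ℝ := (volume (Metric.closedBall (0 : E d) r)).toReal with hV
  have hVt : volume (Metric.closedBall (0 : E d) r) ≠ ⊤ :=
    (isCompact_closedBall (0 : E d) r).measure_ne_top
  have hV0 : 0 ≤ V := ENNReal.toReal_nonneg
  refine ⟨K1 + V, by linarith, fun K hK Φ h z c hΦ hh hz hD hc => ?_⟩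
  have hKK1 : K1 ≤ K := by linarith
  have hK1' : 1 ≤ K := hK1.trans hKK1
  have hK0 : 0 < K := by linarith
  have hVK : V ≤ K := by linarith
  have hvol : volume (Metric.closedBall z r) = ENNReal.ofReal V := by
    rw [hV, ENNReal.ofReal_toReal hVt, Measure.addHaar_closedBall_center]
  have hX : ∀ j : ℕ, ∃ X : Set (E d), MeasurableSet X ∧
      volume (X ∩ Metric.closedBall z r) ≤ ENNReal.ofReal (K ^ (C + 3) * ((2 : ℝ) ^ j)⁻¹) ∧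
      ∀ (t : ℝ) (y : E d), ‖y - z‖ ≤ r → 0 < t → t ≤ ((2 : ℝ) ^ j)⁻¹ →
        Unst (mu Φ h c) K C y t → y ∈ X := by
    intro j
    have h2 : (0 : ℝ) < ((2 : ℝ) ^ j)⁻¹ := by positivity
    by_cases hj : 1 ≤ K ^ C * ((2 : ℝ) ^ j)⁻¹
    · refine ⟨univ, MeasurableSet.univ, ?_, fun _ _ _ _ _ _ => mem_univ _⟩
      rw [univ_inter, hvol]
      apply ENNReal.ofReal_le_ofReal
      calc V ≤ K := hVK
        _ = K ^ 1 := (pow_one K).symm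
        _ ≤ K ^ 3 := pow_le_pow_right₀ hK1' (by norm_num)
        _ = K ^ 3 * 1 := (mul_one _).symm
        _ ≤ K ^ 3 * (K ^ C * ((2 : ℝ) ^ j)⁻¹) := mul_le_mul_of_nonneg_left hj (by positivity)
        _ = K ^ (C + 3) * ((2 : ℝ) ^ j)⁻¹ := by ring
    · obtain ⟨X, hXm, hXv, hXs⟩ := hg K hKK1 Φ h z c hΦ hh hz hD hc 1 (K ^ C * ((2 : ℝ) ^ j)⁻¹)
        le_rfl (by positivity)
      refine ⟨X, hXm, hXv.trans (ENNReal.ofReal_le_ofReal ?_), ?_⟩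
      · calc K * (K ^ C * ((2 : ℝ) ^ j)⁻¹) = K ^ (C + 1) * ((2 : ℝ) ^ j)⁻¹ := by ring
          _ ≤ K ^ (C + 3) * ((2 : ℝ) ^ j)⁻¹ := mul_le_mul_of_nonneg_right
              (pow_le_pow_right₀ hK1' (by omega)) h2.le
      · intro t y hy ht htj hU
        by_contra hyX
        have hst := hXs y hy hyX
        have hle : K ^ C * t ≤ K ^ C * ((2 : ℝ) ^ j)⁻¹ :=
          mul_le_mul_of_nonneg_left htj (by positivity)
        rcases hU with h1 | ⟨k, hk⟩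
        · exact hj (h1.trans hle)
        · exact hk ((hst.mono_w hK1' (one_le_pow₀ (by norm_num))).mono_σ hle)
  choose X hXm hXv hXs using hX
  exact ⟨X, hXm, hXv, fun j t y => hXs j t y⟩

theorem unx (d C : ℕ) (A : ℕ → ℝ) (b r : ℝ) (hb : 0 < b) (hr : 0 < r) (n0 : ℕ) :
    ∃ K0 : ℝ, 1 ≤ K0 ∧ ∀ K, K0 ≤ K → ∀ (Φ h : E d → ℝ) (z : E d) (c : ℝ), Sm d A Φ → Sm d A h →
      ‖z‖ ≤ n0 → DfB b z (2 * r) h → |c| ≤ K ^ n0 →
      ∃ X : ℕ → Set (E d), (∀ j, MeasurableSet (X j)) ∧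
        (∀ j, volume (X j ∩ Metric.closedBall z r) ≤ ENNReal.ofReal (K ^ (C + 3) * ((2 : ℝ) ^ j)⁻¹)) ∧
        ∀ (j : ℕ) (t : ℝ) (y : E d), ‖y - z‖ ≤ r → 0 < t → t ≤ ((2 : ℝ) ^ j)⁻¹ →
          Unst (mu Φ h c) K C y t → y ∈ X j :=
  unx_of d (fun A b r hb hr n0 => gap d A b r hb hr n0) C A b r hb hr n0

end Pool.Agent.GNP
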