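import Pool.Agent.GNP.MULT
import Pool.Agent.GNP.MU
import Pool.Agent.GNP.UNX
import Pool.Agent.GNP.SINT6
import Pool.Agent.GNP.GEO6
import Pool.Agent.GNP.P0

/-!
One polynomial piece: from the fixed time theorem and the geometry of the chains to the estimate.
-/

namespace Pool.Agent.GNP

open MeasureTheory Set Pool.Agent.MP_6cbfb8_an
open scoped ENNReal Real RealInnerProductSpace ContDiff Topology

/-! ### Multiplicity -/

theorem piece_congr {d : ℕ} {q q' : E d → ℝ} {y : E d} (h : q =ᶠ[𝓝 y] q') :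
    gr q y = gr q' y ∧ Hs q y = Hs q' y := by
  have h1 : gr q =ᶠ[𝓝 y] gr q' := by
    have h2 := h.fderiv (𝕜 := ℝ)
    filter_upwards [h2] with x hx
    unfold gr
    rw [hx]
  exact ⟨h1.self_of_nhds, h1.fderiv_eq⟩

theorem piece_pe {d : ℕ} (P P' : MvPolynomial (Fin d) ℝ) (c s : ℝ) (y : E d) :
    pe (MvPolynomial.C c * P - MvPolynomial.C s * P') y = c * pe P y - s * pe P' y := by
  simp [pe]

theorem piece_deg {d D : ℕ} {P P' : MvPolynomial (Fin d) ℝ} (hP : P.totalDegree ≤ D)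
    (hP' : P'.totalDegree ≤ D) (c s : ℝ) :
    (MvPolynomial.C c * P - MvPolynomial.C s * P').totalDegree ≤ D := by
  refine (MvPolynomial.totalDegree_sub _ _).trans (max_le ?_ ?_)
  · refine (MvPolynomial.totalDegree_mul _ _).trans ?_
    rw [MvPolynomial.totalDegree_C, zero_add]
    exact hP
  · refine (MvPolynomial.totalDegree_mul _ _).trans ?_
    rw [MvPolynomial.totalDegree_C, zero_add]
    exact hP'

theorem piece_mult {d D M : ℕ} (hM : ∀ P : MvPolynomial (Fin d) ℝ, P.totalDegree ≤ D →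
    ∀ (F : Submodule ℝ (E d)) (y0 ξ : E d),
    {y : E d | y - y0 ∈ F ∧ (∀ v ∈ F, ⟪gr (pe P) y - ξ, v⟫ = 0) ∧
      (∀ v ∈ F, (∀ w ∈ F, ⟪Hs (pe P) y v, w⟫ = 0) → v = 0)}.encard ≤ M)
    {Φ h : E d → ℝ} {P P' : MvPolynomial (Fin d) ℝ} (hP : P.totalDegree ≤ D)
    (hP' : P'.totalDegree ≤ D) {z : E d} {r ρ : ℝ}
    (hPP : ∀ y, ‖y - z‖ ≤ 2 * r → Φ y = pe P y ∧ h y = pe P' y) (hρ : ρ ≤ 2 * r) (c s : ℝ) :
    Mult M ρ (fun _ : Unit => z) (fun _ => ph Φ h c s) := by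
  intro F y0 ξ
  refine le_trans ?_ (hM _ (piece_deg hP hP' c s) F y0 ξ)
  have key : ∀ y, ‖y - z‖ < ρ → gr (ph Φ h c s) y =
      gr (pe (MvPolynomial.C c * P - MvPolynomial.C s * P')) y ∧
      Hs (ph Φ h c s) y = Hs (pe (MvPolynomial.C c * P - MvPolynomial.C s * P')) y := by
    intro y hy
    apply piece_congr
    have h1 : ∀ᶠ y' in 𝓝 y, ‖y' - z‖ < ρ :=
      (isOpen_lt (by fun_prop) continuous_const).mem_nhds hy
    filter_upwards [h1] with y' hy'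
    obtain ⟨h2, h3⟩ := hPP y' (by linarith)
    rw [piece_pe, ← h2, ← h3]
    rfl
  refine Set.encard_le_encard_of_injOn (f := Prod.snd) (fun x hx => ?_) (fun x _ x' _ h => ?_)
  · obtain ⟨h1, h2, h3, h4⟩ := hx
    obtain ⟨h5, h6⟩ := key x.2 h1
    simp only [h5, h6] at h3 h4
    exact ⟨h2, h3, h4⟩
  · exact Prod.ext rfl h

/-! ### Geometry -/

theorem GeoN_mono {d C C' n : ℕ} {K : ℝ} {μ : Fin d → ℝ} {Un Un' : ℝ → Prop} {s w : ℝ}
    (hK : 1 ≤ K) (hC : C ≤ C') (hUn : ∀ r, 0 < r → Un r → Un' r) (h : GeoN d C n K μ Un s w) :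
    GeoN d C' n K μ Un' s w := by
  have hKC : K ^ C ≤ K ^ C' := pow_le_pow_right₀ hK hC
  have hK0 : 0 < K := by linarith
  rcases h with h | ⟨I, r, h1, h2, h3, h4, h5, h6, h7⟩
  · exact Or.inl (h.trans hKC)
  · have hr : 0 < r := by
      by_contra hcon
      push Not at hcon
      have : K ^ n * r ≤ 0 := mul_nonpos_of_nonneg_of_nonpos (by positivity) hcon
      linarith
    refine Or.inr ⟨I, r, h1, h2, h3, fun i hi => (h4 i hi).trans hKC, h5.trans ?_, h6.trans ?_,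
      fun h8 => hUn r hr (h7 h8)⟩
    · gcongr
    · gcongr

/-! ### The piece -/

theorem piece (d : ℕ) (hd : 2 ≤ d) (p : ℝ) (hp : 2 * ((d : ℝ) + 1) / d < p)
    (hp' : ∀ m : ℕ, (m : ℝ) * (p - 2) ≠ 1) (hft : ∃ C1 : ℕ, FTst d p C1) : ∃ C : ℕ,
    ∀ (A B : ℕ → ℝ) (b r : ℝ) (D n0 : ℕ), 0 < b → 0 < r → ∃ K0 : ℝ, 1 ≤ K0 ∧ ∀ K, K0 ≤ K →
    ∀ (Φ h : E d → ℝ) (P P' : MvPolynomial (Fin d) ℝ) (z : E d) (c : ℝ),
      Sm d A Φ → Sm d A h → P.totalDegree ≤ D → P'.totalDegree ≤ D →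
      (∀ y, ‖y - z‖ ≤ 2 * r → Φ y = pe P y ∧ h y = pe P' y) → DfB b z (2 * r) h → ‖z‖ ≤ n0 →
      1 + |c| ≤ K ^ n0 → ∃ H : ℝ → ℝ≥0∞, Measurable H ∧
      (∫⁻ s in {s : ℝ | |s| ≤ K ^ n0}, H s) ≤ ENNReal.ofReal (K ^ C) ∧
      ∀ s, |s| ≤ K ^ n0 → ∀ a : E d → ℂ, ContDiff ℝ ∞ a → (∀ y, K⁻¹ / 2 < ‖y - z‖ → a y = 0) →
        (∀ j y, ‖iteratedFDeriv ℝ j a y‖ ≤ B j * K ^ j) →
        ∫⁻ x, ‖uu a (ph Φ h c s) x‖ₑ ^ p ≤ H s := by
  obtain ⟨C1, hft⟩ := hft
  obtain ⟨Cg, hgeo⟩ := geo d (by omega)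
  have hd0 : (0 : ℝ) < d := by
    have : 0 < d := by omega
    exact_mod_cast this
  have hal : 2 / (d : ℝ) < p - 2 := by
    rw [div_lt_iff₀ hd0] at hp ⊢
    linarith
  obtain ⟨C', hsint⟩ := sint6 d (Cg + 3) hd (p - 2) hal hp'
  refine ⟨C1 + C' + 1, fun A B b r D n0 hb hr => ?_⟩
  obtain ⟨M, hM⟩ := mult_poly d D
  obtain ⟨A', hft⟩ := hft (fun j => |A j|)
  obtain ⟨J0, hft⟩ := hft (n0 + 1)
  obtain ⟨K1, hK1, hft⟩ := hft J0 le_rfl B (n0 + 1)
  obtain ⟨K2, hK2, hgeo⟩ := hgeo A A' b r hb hr n0 J0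
  obtain ⟨K3, hK3, hunx⟩ := unx d Cg A b r hb hr n0
  obtain ⟨K4, hK4, hsint⟩ := hsint (n0 + Cg)
  refine ⟨max K1 (max K2 (max K3 (max K4 (max 2 (max r⁻¹ (max
    (volume (Metric.ball (0 : E d) 1)).toReal (K1 * (M : ℝ) ^ C1 + 1))))))), le_max_of_le_left hK1,
    ?_⟩
  intro K hK Φ h P P' z c hΦ hh hP hP' hPP hD hz hc
  simp only [max_le_iff] at hK
  obtain ⟨k1, k2, k3, k4, k5, k6, k7, k8⟩ := hK
  have hK0 : 0 < K := by linarith
  have hK1' : 1 ≤ K := by linarith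
  have hρ0 : 0 < K⁻¹ := inv_pos.2 hK0
  have hρ1 : K⁻¹ ≤ 1 := inv_le_one_of_one_le₀ hK1'
  have hρr : K⁻¹ ≤ r := inv_le_of_inv_le₀ hr k6
  have hc' : |c| ≤ K ^ n0 := by linarith
  obtain ⟨X, hX1, hX2, hX3⟩ := hunx K k3 Φ h z c hΦ hh hz hD hc'
  -- the roots, cut off
  have hD' : DfB b z r h := fun y hy v => hD y (by linarith) v
  have hμ : ∀ i, Measurable fun y => (if ‖y - z‖ ≤ r then mu Φ h c y i else 0 : ℝ) := by
    intro i
    have h1 : MeasurableSet {y : E d | ‖y - z‖ ≤ r} :=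
      (isClosed_le (by fun_prop) continuous_const).measurableSet
    have h2 := (mu_cont hΦ.sm hh.sm hb hD' c i).measurable_piecewise
      (g := fun _ => (0 : ℝ)) continuousOn_const h1
    exact h2
  have hvol : volume (Metric.ball z K⁻¹) ≤ ENNReal.ofReal K := by
    calc volume (Metric.ball z K⁻¹) ≤ volume (Metric.ball z 1) :=
          measure_mono (Metric.ball_subset_ball hρ1)
      _ = volume (Metric.ball (0 : E d) 1) := Measure.addHaar_ball_center _ _ _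
      _ = ENNReal.ofReal (volume (Metric.ball (0 : E d) 1)).toReal :=
          (ENNReal.ofReal_toReal measure_ball_lt_top.ne).symm
      _ ≤ ENNReal.ofReal K := ENNReal.ofReal_le_ofReal k7
  have hX2' : ∀ j, volume (X j ∩ Metric.ball z K⁻¹) ≤
      ENNReal.ofReal (K ^ (Cg + 3) * ((2 : ℝ) ^ j)⁻¹) := fun j =>
    (measure_mono (inter_subset_inter_right _ fun y hy => Metric.mem_closedBall.2
      ((Metric.mem_ball.1 hy).le.trans hρr))).trans (hX2 j)
  obtain ⟨G, hG1, hG2, hG3⟩ := hsint K k4 (Metric.ball z K⁻¹)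
    (fun y i => (if ‖y - z‖ ≤ r then mu Φ h c y i else 0 : ℝ)) X measurableSet_ball hvol hμ hX1 hX2'
  refine ⟨fun s => ENNReal.ofReal (K1 * (K * M) ^ C1) *
    (∫⁻ y in Metric.ball z K⁻¹, G s y ^ (p - 2)) + ENNReal.ofReal ((K ^ (n0 + 1))⁻¹), ?_, ?_, ?_⟩
  · refine (Measurable.const_mul ?_ _).add_const _
    exact Measurable.lintegral_prod_right' (f := fun x : ℝ × E d => G x.1 x.2 ^ (p - 2))
      (hG1.pow_const _)
  rotate_left
  · intro s hs a ha hsupp hbd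
    have hcel : Cel d (fun j => |A j|) B (1 / 2) K⁻¹ (2 * K ^ n0) z (ph Φ h c s) a := by
      refine ⟨contDiff_ph hΦ.sm hh.sm c s, ha, fun y hy => hsupp y (by linarith), fun j y => ?_,
        fun j hj y _ => ?_⟩
      · rw [inv_pow, div_inv_eq_mul]
        exact hbd j y
      · refine (ph_bound hΦ.sm hh.sm c s j y).trans ?_
        rw [le_div_iff₀ (by positivity)]
        have h1 : (K⁻¹) ^ j ≤ (K⁻¹) ^ 2 := pow_le_pow_of_le_one hρ0.le hρ1 hj
        have h2 : ‖iteratedFDeriv ℝ j Φ y‖ ≤ |A j| := (hΦ.bd j y).trans (le_abs_self _)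
        have h3 : ‖iteratedFDeriv ℝ j h y‖ ≤ |A j| := (hh.bd j y).trans (le_abs_self _)
        calc (|c| * ‖iteratedFDeriv ℝ j Φ y‖ + |s| * ‖iteratedFDeriv ℝ j h y‖) * K⁻¹ ^ j
            ≤ (K ^ n0 * |A j| + K ^ n0 * |A j|) * K⁻¹ ^ 2 := by gcongr
          _ = |A j| * (2 * K ^ n0 * K⁻¹ ^ 2) := by ring
    have h1 := hft K k1 Unit (fun _ => z) (fun _ => ph Φ h c s) (fun _ => a) K⁻¹ (2 * K ^ n0) M
      (fun _ => G s) ?_ hρ1 (by positivity) ?_ (fun _ => ?_) (fun _ => hcel)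
      (piece_mult hM hP hP' hPP (by linarith) c s) (fun _ => hG1.comp measurable_prodMk_left) ?_
    · unfold Bnd at h1
      simpa using h1
    · exact inv_anti₀ hK0 (le_self_pow₀ hK1' (by omega))
    · rw [pow_succ]
      have : 0 < K ^ n0 := by positivity
      nlinarith
    · push_cast
      linarith
    · intro _ y w hy hw hW
      have hyr : ‖y - z‖ ≤ r := hy.le.trans hρr
      refine hG2 s y (by rwa [mem_ball_iff_norm]) w hw ?_
      have hDy : DfB b y r h := fun y' hy' v => hD y' (by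
        have := norm_add_le (y' - y) (y - z)
        rw [sub_add_sub_cancel] at this
        linarith) v
      have h2 := hgeo K k2 Φ h c s K⁻¹ w y hΦ hh hc' hs hDy
        (by rw [mul_inv_cancel₀ hK0.ne']) hρ1 hw hW
      have h3 : (fun i => (if ‖y - z‖ ≤ r then mu Φ h c y i else 0 : ℝ)) = mu Φ h c y := by
        funext i
        rw [if_pos hyr]
      rw [h3]
      exact GeoN_mono hK1' (by omega) (fun t ht hU j hj => hX3 j t y hyr ht hj hU) h2
  have hS : {s : ℝ | |s| ≤ K ^ n0} = Icc (-(K ^ n0)) (K ^ n0) := by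
    ext s
    simp [abs_le]
  have hSv : volume {s : ℝ | |s| ≤ K ^ n0} = ENNReal.ofReal (2 * K ^ n0) := by
    rw [hS, Real.volume_Icc]
    congr 1
    ring
  calc ∫⁻ s in {s : ℝ | |s| ≤ K ^ n0}, (ENNReal.ofReal (K1 * (K * M) ^ C1) *
        (∫⁻ y in Metric.ball z K⁻¹, G s y ^ (p - 2)) + ENNReal.ofReal ((K ^ (n0 + 1))⁻¹))
      = ENNReal.ofReal (K1 * (K * M) ^ C1) * (∫⁻ s in {s : ℝ | |s| ≤ K ^ n0},
          (∫⁻ y in Metric.ball z K⁻¹, G s y ^ (p - 2))) +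
        ENNReal.ofReal ((K ^ (n0 + 1))⁻¹) * ENNReal.ofReal (2 * K ^ n0) := by
        rw [lintegral_add_right _ measurable_const, lintegral_const_mul' _ _ ENNReal.ofReal_ne_top,
          setLIntegral_const, hSv]
    _ ≤ ENNReal.ofReal (K1 * (K * M) ^ C1) * ENNReal.ofReal (K ^ C') +
        ENNReal.ofReal ((K ^ (n0 + 1))⁻¹) * ENNReal.ofReal (2 * K ^ n0) := by
        gcongr
        exact (setLIntegral_le_lintegral _ _).trans hG3
    _ = ENNReal.ofReal (K1 * (K * M) ^ C1 * K ^ C' + (K ^ (n0 + 1))⁻¹ * (2 * K ^ n0)) := by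
        rw [← ENNReal.ofReal_mul (by positivity), ← ENNReal.ofReal_mul (by positivity),
          ← ENNReal.ofReal_add (by positivity) (by positivity)]
    _ ≤ ENNReal.ofReal (K ^ (C1 + C' + 1)) := by
        apply ENNReal.ofReal_le_ofReal
        have h1 : (K ^ (n0 + 1))⁻¹ * (2 * K ^ n0) ≤ 1 := by
          rw [inv_mul_le_iff₀ (by positivity), mul_one, pow_succ]
          have : 0 < K ^ n0 := by positivity
          nlinarith
        have h2 : (1 : ℝ) ≤ K ^ (C1 + C') := one_le_pow₀ hK1'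
        calc K1 * (K * M) ^ C1 * K ^ C' + (K ^ (n0 + 1))⁻¹ * (2 * K ^ n0)
            ≤ (K1 * (M : ℝ) ^ C1) * K ^ (C1 + C') + K ^ (C1 + C') := by
              have h3 : K1 * (K * M) ^ C1 * K ^ C' = K1 * (M : ℝ) ^ C1 * K ^ (C1 + C') := by
                rw [mul_pow, pow_add]
                ring
              rw [h3]
              linarith
          _ = (K1 * (M : ℝ) ^ C1 + 1) * K ^ (C1 + C') := by ring
          _ ≤ K * K ^ (C1 + C') := by gcongr
          _ = K ^ (C1 + C' + 1) := by ring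

end Pool.Agent.GNP
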