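-- Pool/Agent/GNP/POLY.lean
import Pool.Agent.GNP.TP
import Pool.Agent.GNP.P0x
import Pool.Agent.GNP.P1b
import Pool.Agent.GNP.P1g

/-!
Reduction to polynomial phases on small balls, without error terms.
-/

namespace Pool.Agent.GNP

open MeasureTheory Set Pool.Agent.MP_6cbfb8_an Pool.Agent.GPH
open scoped ENNReal Real RealInnerProductSpace ContDiff Nat

/-- Amplitudes at scale `ρ`, zero outside the ball of radius `ρ` around `z`. -/
structure AmpZ (d : ℕ) (A : ℕ → ℝ) (ρ : ℝ) (z : E d) (a : E d → ℂ) : Prop where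
  sm : ContDiff ℝ ∞ a
  supp : ∀ y, ρ ≤ ‖y - z‖ → a y = 0
  bd : ∀ j y, ‖iteratedFDeriv ℝ j a y‖ ≤ A j / ρ ^ j

theorem TPT_high' {d : ℕ} (q : E d → ℝ) (z : E d) (N j : ℕ) (hj : N + 1 ≤ j) (y : E d) :
    iteratedFDeriv ℝ j (TPT q z N) y = 0 := by
  induction j, hj using Nat.le_induction generalizing y with
  | base => exact TPT_high q z N y
  | succ j hj ih =>
    rw [iteratedFDeriv_succ_eq_comp_left]
    have h1 : iteratedFDeriv ℝ j (TPT q z N) = fun _ => 0 := funext ih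
    rw [Function.comp_apply, h1]
    simp only [fderiv_fun_const, Pi.zero_apply]
    exact LinearIsometryEquiv.map_zero _

theorem iter_sub {d : ℕ} {f g : E d → ℝ} (hf : ContDiff ℝ ∞ f) (hg : ContDiff ℝ ∞ g) (j : ℕ)
    (y : E d) : iteratedFDeriv ℝ j (fun y => f y - g y) y =
      iteratedFDeriv ℝ j f y - iteratedFDeriv ℝ j g y := by
  have h1 : ContDiffAt ℝ j f y := (hf.of_le (by norm_cast; exact le_top)).contDiffAt
  have h2 : ContDiffAt ℝ j g y := (hg.of_le (by norm_cast; exact le_top)).contDiffAt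
  exact iteratedFDeriv_sub_apply h1 h2

/-- The remainder of the Taylor polynomial, all orders. -/
theorem TP_rem {d : ℕ} {A : ℕ → ℝ} {f : E d → ℝ} (hf : Sm d A f) (N : ℕ) (z : E d) {ρ : ℝ}
    (hρ : 0 < ρ) (j : ℕ) {y : E d} (hy : ‖y - z‖ ≤ ρ) :
    ‖iteratedFDeriv ℝ j (fun y => f y - TPT f z N y) y‖ ≤
      if j ≤ N then A (N + 1) * ρ ^ (N + 1 - j) else A j := by
  split_ifs with hj
  · have h := TP_remainder hf.sm z N ρ (A (N + 1)) hρ (fun y _ => hf.bd (N + 1) y) (N + 1 - j)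
      (by omega) y hy
    rwa [show N + 1 - (N + 1 - j) = j by omega] at h
  · rw [iter_sub hf.sm (TPT_smooth f z N), TPT_high' f z N j (by omega) y, sub_zero]
    exact hf.bd j y

/-- The derivatives of the Taylor polynomial on the unit ball. -/
theorem TPT_bd {d : ℕ} {A : ℕ → ℝ} {f : E d → ℝ} (hf : Sm d A f) (N : ℕ) (z : E d) (j : ℕ)
    {y : E d} (hy : ‖y - z‖ ≤ 1) :
    ‖iteratedFDeriv ℝ j (TPT f z N) y‖ ≤ 2 * A j + A (N + 1) := by
  have hA : ∀ j, 0 ≤ A j := fun j => (norm_nonneg _).trans (hf.bd j 0)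
  have h1 := TP_rem hf N z one_pos j hy
  have h2 : iteratedFDeriv ℝ j (TPT f z N) y =
      iteratedFDeriv ℝ j f y - iteratedFDeriv ℝ j (fun y => f y - TPT f z N y) y := by
    rw [iter_sub hf.sm (TPT_smooth f z N), sub_sub_cancel]
  rw [h2]
  refine (norm_sub_le _ _).trans ?_
  have h3 : ‖iteratedFDeriv ℝ j (fun y => f y - TPT f z N y) y‖ ≤ A j + A (N + 1) := by
    refine h1.trans ?_
    split_ifs
    · rw [one_pow, mul_one]
      linarith [hA j]
    · linarith [hA (N + 1)]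
  have h4 := hf.bd j y
  linarith

/-- The Hessian of the Taylor polynomial. -/
theorem TPT_Hs {d : ℕ} {A : ℕ → ℝ} {f : E d → ℝ} (hf : Sm d A f) (N : ℕ) (hN : 2 ≤ N) (z : E d)
    {ρ : ℝ} (hρ : 0 < ρ) (hρ1 : ρ ≤ 1) {y : E d} (hy : ‖y - z‖ ≤ ρ) :
    ‖Hs f y - Hs (TPT f z N) y‖ ≤ A (N + 1) * ρ := by
  have hA : 0 ≤ A (N + 1) := (norm_nonneg _).trans (hf.bd _ 0)
  have h1 := TP_rem hf N z hρ 2 hy
  rw [if_pos hN] at h1
  have hsm : ContDiff ℝ ∞ (fun y => f y - TPT f z N y) := hf.sm.sub (TPT_smooth f z N)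
  have h2 : Hs (fun y => f y - TPT f z N y) y = Hs f y - Hs (TPT f z N) y := by
    have h3 : (fun y => f y - TPT f z N y) = ph f (TPT f z N) 1 1 := by
      funext y
      simp [ph]
    rw [h3, Hs_ph hf.sm (TPT_smooth f z N), one_smul, one_smul]
  rw [← h2, norm_Hs_eq hsm]
  refine h1.trans (mul_le_mul_of_nonneg_left ?_ hA)
  calc ρ ^ (N + 1 - 2) ≤ ρ ^ 1 := pow_le_pow_of_le_one hρ.le hρ1 (by omega)
    _ = ρ := pow_one ρ

/-- The difference of the phase and its Taylor polynomial. -/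
theorem ph_rem {d : ℕ} {A : ℕ → ℝ} {Φ h : E d → ℝ} (hΦ : Sm d A Φ) (hh : Sm d A h) (N : ℕ)
    (z : E d) {c s L ρ : ℝ} (hρ : 0 < ρ) (hρ1 : ρ ≤ 1) (hL : 1 + |c| + |s| ≤ L)
    (hLρ : L * ρ ^ (N + 1) ≤ 1) (j : ℕ) {y : E d} (hy : ‖y - z‖ ≤ ρ) :
    ‖iteratedFDeriv ℝ j (fun y => ph Φ h c s y - ph (TPT Φ z N) (TPT h z N) c s y) y‖ ≤
      (A (N + 1) + A j) / ρ ^ j := by
  have hA : ∀ j, 0 ≤ A j := fun j => (norm_nonneg _).trans (hh.bd j 0)
  have hρj : 0 < ρ ^ j := by positivity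
  set B : ℝ := if j ≤ N then A (N + 1) * ρ ^ (N + 1 - j) else A j with hB
  have hB0 : 0 ≤ B := by
    rw [hB]
    split_ifs
    · exact mul_nonneg (hA _) (by positivity)
    · exact hA _
  have h1 := TP_rem hΦ N z hρ j hy
  have h2 := TP_rem hh N z hρ j hy
  rw [← hB] at h1 h2
  have hs1 : ContDiff ℝ ∞ (fun y => Φ y - TPT Φ z N y) := hΦ.sm.sub (TPT_smooth Φ z N)
  have hs2 : ContDiff ℝ ∞ (fun y => h y - TPT h z N y) := hh.sm.sub (TPT_smooth h z N)
  have h3 : (fun y => ph Φ h c s y - ph (TPT Φ z N) (TPT h z N) c s y) =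
      ph (fun y => Φ y - TPT Φ z N y) (fun y => h y - TPT h z N y) c s := by
    funext y
    simp only [ph]
    ring
  have h4 : iteratedFDeriv ℝ j (ph (fun y => Φ y - TPT Φ z N y) (fun y => h y - TPT h z N y) c s) y =
      c • iteratedFDeriv ℝ j (fun y => Φ y - TPT Φ z N y) y -
        s • iteratedFDeriv ℝ j (fun y => h y - TPT h z N y) y := iteratedFDeriv_ph hs1 hs2 c s j y
  rw [h3, h4]
  have h5 : ‖c • iteratedFDeriv ℝ j (fun y => Φ y - TPT Φ z N y) y -
      s • iteratedFDeriv ℝ j (fun y => h y - TPT h z N y) y‖ ≤ L * B := by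
    refine (norm_sub_le _ _).trans ?_
    rw [norm_smul, norm_smul, Real.norm_eq_abs, Real.norm_eq_abs]
    have h6 : |c| * ‖iteratedFDeriv ℝ j (fun y => Φ y - TPT Φ z N y) y‖ ≤ |c| * B := by gcongr
    have h7 : |s| * ‖iteratedFDeriv ℝ j (fun y => h y - TPT h z N y) y‖ ≤ |s| * B := by gcongr
    nlinarith
  refine h5.trans ?_
  rw [le_div_iff₀ hρj]
  have hL0 : 0 ≤ L := by linarith [abs_nonneg c, abs_nonneg s]
  rw [hB]
  split_ifs with hj
  · have h6 : ρ ^ (N + 1 - j) * ρ ^ j = ρ ^ (N + 1) := by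
      rw [← pow_add]
      congr 1
      omega
    calc L * (A (N + 1) * ρ ^ (N + 1 - j)) * ρ ^ j
        = A (N + 1) * (L * (ρ ^ (N + 1 - j) * ρ ^ j)) := by ring
      _ ≤ A (N + 1) * 1 := by
        rw [h6]
        exact mul_le_mul_of_nonneg_left hLρ (hA _)
      _ ≤ _ := by linarith [hA j]
  · have h6 : ρ ^ j ≤ ρ ^ (N + 1) := pow_le_pow_of_le_one hρ.le hρ1 (by omega)
    calc L * A j * ρ ^ j = A j * (L * ρ ^ j) := by ring
      _ ≤ A j * (L * ρ ^ (N + 1)) := by
        have := hA j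
        gcongr
      _ ≤ A j * 1 := mul_le_mul_of_nonneg_left hLρ (hA _)
      _ ≤ _ := by linarith [hA (N + 1)]

theorem contDiff_th : ContDiff ℝ ∞ th := by
  unfold th
  exact (Real.smoothTransition.contDiff.comp (contDiff_id.add contDiff_const)).sub
    Real.smoothTransition.contDiff

theorem contDiff_ch' {d : ℕ} : ContDiff ℝ ∞ (ch : E d → ℝ) := by
  unfold ch
  refine contDiff_prod fun i _ => contDiff_th.comp ?_
  fun_prop

theorem ch_zero' {d : ℕ} {z : E d} (h : (d : ℝ) < ‖z‖) : ch z = 0 := by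
  by_contra hcon
  have h0 : (lp (fun _ => 0) : E d) = 0 := by
    ext i
    simp [lp]
  have h1 := p1b_norm_lp (d := d) (z := z) (k := fun _ => 0) (by rwa [h0, sub_zero])
  have h2 : ‖z‖ ≤ d := by
    rw [EuclideanSpace.norm_eq]
    refine Real.sqrt_le_iff.2 ⟨Nat.cast_nonneg _, ?_⟩
    have h3 : ∑ i, ‖z i‖ ^ 2 ≤ ∑ _i : Fin d, (1 : ℝ) := by
      refine Finset.sum_le_sum fun i _ => ?_
      have h4 : ‖z i‖ ≤ 1 := by
        have := h1.1 i
        simp only [Int.cast_zero, sub_zero] at this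
        exact this.le
      have h5 := norm_nonneg (z i)
      nlinarith
    rw [Finset.sum_const, Finset.card_univ, Fintype.card_fin, nsmul_eq_mul, mul_one] at h3
    rcases Nat.eq_zero_or_pos d with rfl | hd
    · simp
    · have : (1 : ℝ) ≤ d := by exact_mod_cast hd
      nlinarith
  linarith

/-- The cut-off function, rescaled: supported in a ball of radius less than one. -/
noncomputable def chd (d : ℕ) (v : E d) : ℂ := ((ch (((d : ℝ) + 1) • v) : ℝ) : ℂ)

theorem contDiff_chd (d : ℕ) : ContDiff ℝ ∞ (chd d) :=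
  Complex.ofRealCLM.contDiff.comp (contDiff_ch'.comp (contDiff_const_smul _))

theorem chd_zero {d : ℕ} {v : E d} (h : (d : ℝ) / (d + 1) < ‖v‖) : chd d v = 0 := by
  unfold chd
  rw [ch_zero', Complex.ofReal_zero]
  rw [norm_smul, Real.norm_eq_abs, abs_of_pos (by positivity)]
  rw [div_lt_iff₀ (by positivity)] at h
  linarith

theorem chd_tsupport (d : ℕ) : tsupport (chd d) ⊆ Metric.closedBall 0 ((d : ℝ) / (d + 1)) := by
  refine closure_minimal (fun v hv => ?_) Metric.isClosed_closedBall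
  rw [mem_closedBall_zero_iff]
  by_contra hcon
  exact hv (chd_zero (not_le.1 hcon))

theorem chd_iter_zero {d : ℕ} {v : E d} (h : 1 ≤ ‖v‖) (j : ℕ) :
    iteratedFDeriv ℝ j (chd d) v = 0 := by
  by_contra hcon
  have h1 := chd_tsupport d (support_iteratedFDeriv_subset (𝕜 := ℝ) j (f := chd d) hcon)
  rw [mem_closedBall_zero_iff] at h1
  have h2 : (d : ℝ) / (d + 1) < 1 := by
    rw [div_lt_one (by positivity)]
    linarith
  linarith

theorem chd_bd (d j : ℕ) : ∃ C : ℝ, 0 ≤ C ∧ ∀ v, ‖iteratedFDeriv ℝ j (chd d) v‖ ≤ C := by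
  have h1 : Continuous (iteratedFDeriv ℝ j (chd d)) :=
    (contDiff_chd d).continuous_iteratedFDeriv (by exact_mod_cast le_top)
  obtain ⟨C, hC⟩ := (isCompact_closedBall (0 : E d) 1).exists_bound_of_continuousOn h1.continuousOn
  refine ⟨max C 0, le_max_right _ _, fun v => ?_⟩
  by_cases hv : ‖v‖ ≤ 1
  · exact (hC v (by simpa using hv)).trans (le_max_left _ _)
  · rw [chd_iter_zero (not_le.1 hv).le, norm_zero]
    exact le_max_right _ _

/-- A uniform bound for the derivatives of `χ(v) a(z + ρ v) e^{i r(z + ρ v)}`. -/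
theorem amp_piece (d : ℕ) (A A1 : ℕ → ℝ) : ∃ A' : ℕ → ℝ, ∀ (a : E d → ℂ) (r : E d → ℝ) (z : E d)
    (ρ : ℝ), 0 < ρ → ρ ≤ 1 → ContDiff ℝ ∞ a → ContDiff ℝ ∞ r →
    (∀ j y, ‖iteratedFDeriv ℝ j a y‖ ≤ A j) →
    (∀ j y, ‖y - z‖ ≤ ρ → ‖iteratedFDeriv ℝ j r y‖ ≤ A1 j / ρ ^ j) →
    AmpZ d A' ρ z (fun y => chd d (ρ⁻¹ • (y - z)) * (a y * ee (r y))) := by
  choose Cc hCc0 hCc using chd_bd d
  -- the constants
  set Bc : ℕ → ℝ := fun N => ∑ j ∈ Finset.range (N + 1), Cc j with hBc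
  set Ba : ℕ → ℝ := fun N => ∑ j ∈ Finset.range (N + 1), |A j| with hBa
  set Br : ℕ → ℝ := fun N => 1 + ∑ j ∈ Finset.range (N + 1), |A1 j| with hBr
  have hBc' : ∀ N, ∀ j ≤ N, Cc j ≤ Bc N := fun N j hj =>
    Finset.single_le_sum (f := Cc) (fun j _ => hCc0 j) (Finset.mem_range.2 (by omega))
  have hBa' : ∀ N, ∀ j ≤ N, A j ≤ Ba N := fun N j hj =>
    (le_abs_self _).trans (Finset.single_le_sum (f := fun j => |A j|) (fun j _ => abs_nonneg _)
      (Finset.mem_range.2 (by omega)))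
  have hBr' : ∀ N, ∀ j ≤ N, A1 j ≤ Br N := fun N j hj => by
    have := (le_abs_self _).trans (Finset.single_le_sum (f := fun j => |A1 j|)
      (fun j _ => abs_nonneg _) (Finset.mem_range.2 (show j < N + 1 by omega)))
    rw [hBr]
    dsimp only
    linarith
  have hBa0 : ∀ N, 0 ≤ Ba N := fun N => Finset.sum_nonneg fun j _ => abs_nonneg _
  have hBr1 : ∀ N, 1 ≤ Br N := fun N => by
    have : 0 ≤ ∑ j ∈ Finset.range (N + 1), |A1 j| := Finset.sum_nonneg fun j _ => abs_nonneg _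
    rw [hBr]
    dsimp only
    linarith
  refine ⟨fun N => 2 ^ N * (Bc N * (2 ^ N * Ba N * (N ! * Br N ^ N))), ?_⟩
  intro a r z ρ hρ hρ1 ha hr hab hrb
  set g : E d → ℂ := fun v => chd d v * (a (z + ρ • v) * ee (r (z + ρ • v))) with hg
  have haf : ContDiff ℝ ∞ fun v : E d => z + ρ • v := contDiff_const.add (contDiff_const_smul _)
  have ha' : ContDiff ℝ ∞ fun v => a (z + ρ • v) := ha.comp haf
  have hr' : ContDiff ℝ ∞ fun v => r (z + ρ • v) := hr.comp haf
  have hG : ContDiff ℝ ∞ fun v => a (z + ρ • v) * ee (r (z + ρ • v)) :=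
    ha'.mul (contDiff_ee.comp hr')
  have hgc : ContDiff ℝ ∞ g := (contDiff_chd d).mul hG
  have hgb : ∀ N v, ‖iteratedFDeriv ℝ N g v‖ ≤
      2 ^ N * (Bc N * (2 ^ N * Ba N * (N ! * Br N ^ N))) := by
    intro N v
    by_cases hv : ‖v‖ ≤ 1
    · refine mul_bd (contDiff_chd d) hG N _ _ v (fun j hj => (hCc j v).trans (hBc' N j hj))
        ?_ N le_rfl
      refine deriv_amp N (fun v => a (z + ρ • v)) (fun v => r (z + ρ • v))
        (ha'.of_le (by exact_mod_cast le_top)) (hr'.of_le (by exact_mod_cast le_top)) v (Ba N)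
        (Br N) (hBa0 N) (hBr1 N) ?_ ?_
      · intro j hj
        refine (iter_affine ha z ρ j v).trans ?_
        rw [abs_of_pos hρ]
        have h1 := hab j (z + ρ • v)
        calc ρ ^ j * ‖iteratedFDeriv ℝ j a (z + ρ • v)‖
            ≤ 1 * ‖iteratedFDeriv ℝ j a (z + ρ • v)‖ := by
              gcongr
              exact pow_le_one₀ hρ.le hρ1
          _ ≤ A j := by linarith
          _ ≤ Ba N := hBa' N j hj
      · intro j _ hj
        refine (iter_affine hr z ρ j v).trans ?_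
        rw [abs_of_pos hρ]
        have h1 := hrb j (z + ρ • v) (by
          rw [add_sub_cancel_left, norm_smul, Real.norm_eq_abs, abs_of_pos hρ]
          nlinarith)
        rw [le_div_iff₀ (by positivity), mul_comm] at h1
        exact h1.trans (hBr' N j hj)
    · have h1 : 0 ≤ ∑ j ∈ Finset.range (N + 1), ‖iteratedFDeriv ℝ j
          (fun v => a (z + ρ • v) * ee (r (z + ρ • v))) v‖ :=
        Finset.sum_nonneg fun j _ => norm_nonneg _
      have h2 := mul_bd (contDiff_chd d) hG N 0 (∑ j ∈ Finset.range (N + 1),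
        ‖iteratedFDeriv ℝ j (fun v => a (z + ρ • v) * ee (r (z + ρ • v))) v‖) v
        (fun j _ => by rw [chd_iter_zero (not_le.1 hv).le, norm_zero])
        (fun j hj => Finset.single_le_sum (f := fun j => ‖iteratedFDeriv ℝ j
          (fun v => a (z + ρ • v) * ee (r (z + ρ • v))) v‖) (fun j _ => norm_nonneg _)
          (Finset.mem_range.2 (by omega))) N le_rfl
      rw [zero_mul, mul_zero] at h2
      refine h2.trans ?_
      have h3 : 0 ≤ Bc N := (hCc0 0).trans (hBc' N 0 (Nat.zero_le _))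
      have h4 := hBa0 N
      have h5 := hBr1 N
      positivity
  have heq : (fun y => chd d (ρ⁻¹ • (y - z)) * (a y * ee (r y))) =
      fun y => g (-(ρ⁻¹ • z) + ρ⁻¹ • y) := by
    funext y
    have h1 : -(ρ⁻¹ • z) + ρ⁻¹ • y = ρ⁻¹ • (y - z) := by
      rw [smul_sub]
      abel
    have h2 : z + ρ • (ρ⁻¹ • (y - z)) = y := by
      rw [smul_smul, mul_inv_cancel₀ hρ.ne', one_smul]
      abel
    rw [h1, hg]
    dsimp only
    rw [h2]
  refine ⟨?_, ?_, ?_⟩
  · rw [heq]
    exact hgc.comp (contDiff_const.add (contDiff_const_smul _))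
  · intro y hy
    have h1 : chd d (ρ⁻¹ • (y - z)) = 0 := by
      refine chd_zero ?_
      rw [norm_smul, Real.norm_eq_abs, abs_of_pos (inv_pos.2 hρ), inv_mul_eq_div]
      have h2 : (d : ℝ) / (d + 1) < 1 := by
        rw [div_lt_one (by positivity)]
        linarith
      refine h2.trans_le ?_
      rwa [le_div_iff₀ hρ, one_mul]
    rw [h1, zero_mul]
  · intro j y
    rw [heq]
    refine (iter_affine hgc _ _ j y).trans ?_
    rw [abs_of_pos (inv_pos.2 hρ), inv_pow, div_eq_inv_mul]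
    exact mul_le_mul_of_nonneg_left (hgb j _) (by positivity)

/-- Reduction to polynomial phases on balls of radius `ρ`. -/
theorem poly_red (d N : ℕ) (A : ℕ → ℝ) (r : ℝ) (hr : 0 < r) : ∃ (A' : ℕ → ℝ) (K : ℝ), 0 < K ∧
    ∀ (Φ h : E d → ℝ) (a : E d → ℂ) (c s L ρ : ℝ), Sm d A Φ → Sm d A h → Amp d A r a →
      0 < ρ → ρ ≤ 1 → 1 + |c| + |s| ≤ L → L * ρ ^ (N + 1) ≤ 1 →
      ∃ (Z : Finset (E d)) (b : E d → E d → ℂ), ((Z.card : ℝ) ≤ K / ρ ^ d) ∧
        (∀ z ∈ Z, ‖z‖ ≤ r + 1 ∧ AmpZ d A' ρ z (b z)) ∧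
        ∀ x, uu a (ph Φ h c s) x =
          ∑ z ∈ Z, uu (b z) (ph (TPT Φ z N) (TPT h z N) c s) x := by
  classical
  obtain ⟨A', hA'⟩ := amp_piece d A fun j => A (N + 1) + A j
  obtain ⟨K, hK, hcard⟩ := card_Lam d (r + 1) (by linarith)
  refine ⟨A', K * ((d : ℝ) + 1) ^ d, by positivity, ?_⟩
  intro Φ h a c s L ρ hΦ hh ha hρ hρ1 hL hLρ
  set R : ℝ := ((d : ℝ) + 1) / ρ with hR
  have hd1 : (0 : ℝ) < (d : ℝ) + 1 := by positivity
  have hR0 : 0 < R := by positivity
  have hRd : (d : ℝ) + 1 ≤ R := by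
    rw [hR, le_div_iff₀ hρ]
    nlinarith
  have hR1 : 1 ≤ R := by
    have : (0 : ℝ) ≤ d := Nat.cast_nonneg d
    linarith
  set z : (Fin d → ℤ) → E d := fun k => R⁻¹ • lp k with hz
  have hzinj : Function.Injective z := by
    intro k k' hkk
    have h1 : lp k = (lp k' : E d) := by
      have h2 := congrArg (fun v => R • v) hkk
      simpa [hz, smul_smul, mul_inv_cancel₀ hR0.ne'] using h2
    funext i
    have h2 := congrArg (fun v : E d => v i) h1
    simpa [lp] using h2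
  set q : E d → ℝ := ph Φ h c s with hq
  have hqs : ContDiff ℝ ∞ q := contDiff_ph hΦ.sm hh.sm c s
  set P : E d → E d → ℝ := fun w => ph (TPT Φ w N) (TPT h w N) c s with hP
  have hPs : ∀ w, ContDiff ℝ ∞ (P w) := fun w =>
    contDiff_ph (TPT_smooth Φ w N) (TPT_smooth h w N) c s
  set b : E d → E d → ℂ := fun w y =>
    chd d (ρ⁻¹ • (y - w)) * (a y * ee (q y - P w y)) with hb
  refine ⟨(Lam d (r + 1) R).image z, b, ?_, ?_, ?_⟩
  · refine (Nat.cast_le.2 Finset.card_image_le).trans ((hcard R hR1).trans (le_of_eq ?_))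
    rw [hR, div_pow]
    ring
  · intro w hw
    rw [Finset.mem_image] at hw
    obtain ⟨k, hk, rfl⟩ := hw
    constructor
    · unfold Lam at hk
      rw [Finset.mem_filter] at hk
      rw [hz]
      dsimp only
      rw [norm_smul, Real.norm_eq_abs, abs_of_pos (inv_pos.2 hR0), inv_mul_le_iff₀ hR0, mul_comm]
      exact hk.2
    · exact hA' a (fun y => q y - P (z k) y) (z k) ρ hρ hρ1 ha.sm (hqs.sub (hPs _)) ha.bd
        fun j y hy => ph_rem hΦ hh N (z k) hρ hρ1 hL hLρ j hy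
  · intro x
    rw [Finset.sum_image fun k _ k' _ h => hzinj h]
    have h0 : uu a q x = ∑ k ∈ Lam d (r + 1) R, uk a q R k x := by
      have hRr : ((d : ℝ) + 1) / (r + 1 - r) ≤ R := by
        rw [add_sub_cancel_left, div_one]
        exact hRd
      unfold uk uu
      rw [← integral_finsetSum]
      · refine integral_congr_ae (Filter.Eventually.of_forall fun y => ?_)
        show a y * _ = ∑ k ∈ Lam d (r + 1) R, (ch (R • y - lp k) : ℂ) * a y * _
        rw [← Finset.sum_mul, ← Finset.sum_mul]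
        by_cases hy : ‖y‖ ≤ r
        · rw [← Complex.ofReal_sum, p1b_ch_sum r (r + 1) R (by linarith) hRr y hy,
            Complex.ofReal_one, one_mul]
        · rw [ha.supp y (not_le.1 hy)]
          ring
      · intro k _
        have hac : Continuous a := ha.sm.continuous
        have hqc : Continuous q := hqs.continuous
        have hc : Continuous fun y : E d => (ch (R • y - lp k) : ℂ) * a y *
            Complex.exp (((q y - ⟪x, y⟫ : ℝ) : ℂ) * Complex.I) := by
          have h1 : Continuous fun y : E d => ch (R • y - lp k) :=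
            p1b_ch_cont.comp ((continuous_const_smul R).sub continuous_const)
          fun_prop
        refine hc.integrable_of_hasCompactSupport ?_
        refine HasCompactSupport.intro (isCompact_closedBall (0 : E d) r) fun y hy => ?_
        have h3 : r < ‖y‖ := by simpa using hy
        rw [ha.supp y h3]
        ring
    rw [h0]
    refine Finset.sum_congr rfl fun k _ => ?_
    unfold uk uu
    refine integral_congr_ae (Filter.Eventually.of_forall fun y => ?_)
    show (ch (R • y - lp k) : ℂ) * a y * _ = b (z k) y * _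
    have h1 : ((d : ℝ) + 1) • (ρ⁻¹ • (y - z k)) = R • y - lp k := by
      rw [hz]
      dsimp only
      rw [smul_smul, smul_sub, smul_smul, hR, ← div_eq_mul_inv]
      congr 1
      rw [mul_inv_cancel₀ (by positivity), one_smul]
    have h2 : chd d (ρ⁻¹ • (y - z k)) = ((ch (R • y - lp k) : ℝ) : ℂ) := by
      unfold chd
      rw [h1]
    rw [hb]
    dsimp only
    rw [h2, mul_assoc, mul_assoc, mul_assoc]
    congr 2
    unfold ee
    rw [← Complex.exp_add]
    congr 1
    push_cast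
    ring

end Pool.Agent.GNP
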