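import Pool.Agent.GNP.Defs

/-!
Row PU, first half: permutations of the coordinates and signs.
-/

namespace Pool.Agent.GNP

open MeasureTheory Set Pool.Agent.MP_6cbfb8_an
open scoped ENNReal Real RealInnerProductSpace ContDiff

/-- The norm of the Fourier transform does not change under a linear isometry. -/
theorem lint_extn_iso {n : ℕ} (g : E n → ℂ) (R : E n ≃ₗᵢ[ℝ] E n) (p : ℝ) :
    ∫⁻ ξ, ‖extn (fun x => g (R x)) ξ‖ₑ ^ p = ∫⁻ ξ, ‖extn g ξ‖ₑ ^ p := by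
  have h1 : ∀ ξ, extn (fun x => g (R x)) ξ = extn g (R ξ) := fun ξ => extn_isometry g R ξ
  simp only [h1]
  exact (R.measurePreserving).lintegral_comp_emb R.toHomeomorph.measurableEmbedding
    fun ξ => ‖extn g ξ‖ₑ ^ p

/-- Permutation of the coordinates. -/
noncomputable def pis {n : ℕ} (σ : Equiv.Perm (Fin n)) : E n ≃ₗᵢ[ℝ] E n :=
  LinearIsometryEquiv.piLpCongrLeft 2 ℝ ℝ σ

theorem pis_apply {n : ℕ} (σ : Equiv.Perm (Fin n)) (x : E n) (i : Fin n) :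
    pis σ x i = x (σ.symm i) := rfl

theorem pb_pis {n : ℕ} (φ : E n → ℝ) (b : Fin n → ℝ) (σ : Equiv.Perm (Fin n)) (x : E n) :
    pb φ b (pis σ x) = pb (fun x => φ (pis σ x)) (fun i => b (σ i)) x := by
  unfold pb
  congr 1
  rw [← Equiv.sum_comp σ]
  refine Finset.sum_congr rfl fun i _ => ?_
  rw [pis_apply, Equiv.symm_apply_apply]

theorem pb_neg {n : ℕ} (φ : E n → ℝ) (b : Fin n → ℝ) (x : E n) :
    pb φ b (-x) = pb (fun x => φ (-x)) b x := by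
  unfold pb
  congr 1
  refine Finset.sum_congr rfl fun i _ => ?_
  rw [PiLp.neg_apply, neg_sq]

theorem ae_perm {n : ℕ} (P : (Fin n → ℝ) → Prop) (σ : Equiv.Perm (Fin n)) (h : ∀ᵐ b, P b) :
    ∀ᵐ b : Fin n → ℝ, P fun i => b (σ i) := by
  have h1 := volume_measurePreserving_piCongrLeft (fun _ : Fin n => ℝ) σ.symm
  have h2 := h1.quasiMeasurePreserving.ae h
  filter_upwards [h2] with b hb
  convert hb using 1
  funext i
  obtain ⟨k, rfl⟩ := σ.symm.surjective i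
  rw [MeasurableEquiv.coe_piCongrLeft, Equiv.piCongrLeft_apply_apply, Equiv.apply_symm_apply]

theorem perm_true (d : ℕ)
    (H : ∀ φ : E (d + 1) → ℝ, ContDiff ℝ ∞ φ → ∀ r : ℝ, 0 < r → r < 1 →
      ∀ᵐ b : Fin (d + 1) → ℝ, ∀ a : E (d + 1) → ℂ, ContDiff ℝ ∞ a →
      (∀ (y : E d) (t : ℝ), ‖y‖ ^ 2 + t ^ 2 = 1 → (r < ‖y‖ ∨ t ≤ 0) → a (join y t) = 0) →
      ∀ p : ℝ, 2 * ((d : ℝ) + 1) / d < p → ∃ C : ℝ≥0∞, C ≠ ⊤ ∧ ∀ c : ℝ,
        ∫⁻ ξ, ‖extn (fun x => a x *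
          Complex.exp (((c * pb φ b x : ℝ) : ℂ) * Complex.I)) ξ‖ₑ ^ p ≤ C)
    (φ : E (d + 1) → ℝ) (hφ : ContDiff ℝ ∞ φ) (δ : ℝ) (hδ : 0 < δ) (hδ1 : δ < 1)
    (j : Fin (d + 1)) :
    ∀ᵐ b : Fin (d + 1) → ℝ, ∀ a : E (d + 1) → ℂ, ContDiff ℝ ∞ a →
      (∀ x : E (d + 1), ‖x‖ = 1 → a x ≠ 0 → δ ≤ x j) →
      ∀ p : ℝ, 2 * ((d : ℝ) + 1) / d < p → ∃ C : ℝ≥0∞, C ≠ ⊤ ∧ ∀ c : ℝ,
        ∫⁻ ξ, ‖extn (fun x => a x *
          Complex.exp (((c * pb φ b x : ℝ) : ℂ) * Complex.I)) ξ‖ₑ ^ p ≤ C := by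
  set σ : Equiv.Perm (Fin (d + 1)) := Equiv.swap j (Fin.last d) with hσ
  have hσs : σ.symm = σ := Equiv.symm_swap _ _
  have hr0 : 0 < √(1 - δ ^ 2) := Real.sqrt_pos.mpr (by nlinarith)
  have hr1 : √(1 - δ ^ 2) < 1 := by
    rw [Real.sqrt_lt' one_pos]
    nlinarith
  have h1 := ae_perm _ σ (H (fun x => φ (pis σ x)) (hφ.comp (pis σ).contDiff) _ hr0 hr1)
  filter_upwards [h1] with b hb a ha hs p hp
  obtain ⟨C, hC, hCb⟩ := hb (fun x => a (pis σ x)) (ha.comp (pis σ).contDiff) (by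
    intro y t hyt hc
    by_contra hne
    have hn : ‖join y t‖ = 1 := by
      have h2 : ‖join y t‖ ^ 2 = 1 := by rw [norm_join_sq, hyt]
      nlinarith [norm_nonneg (join y t)]
    have h3 := hs (pis σ (join y t)) (by rw [LinearIsometryEquiv.norm_map, hn]) hne
    have h4 : pis σ (join y t) j = t := by
      rw [pis_apply, hσs, hσ, Equiv.swap_apply_left]
      simp [join]
    rw [h4] at h3
    rcases hc with hc | hc
    · have h5 : ‖y‖ ≤ √(1 - δ ^ 2) := by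
        apply Real.le_sqrt_of_sq_le
        nlinarith
      linarith
    · linarith) p hp
  refine ⟨C, hC, fun c => ?_⟩
  refine le_trans (le_of_eq ?_) (hCb c)
  rw [← lint_extn_iso _ (pis σ)]
  refine lintegral_congr fun ξ => ?_
  congr 3
  funext x
  rw [pb_pis]

/-- One chart at each coordinate, with a sign. -/
theorem piece_perm (d : ℕ)
    (H : ∀ φ : E (d + 1) → ℝ, ContDiff ℝ ∞ φ → ∀ r : ℝ, 0 < r → r < 1 →
      ∀ᵐ b : Fin (d + 1) → ℝ, ∀ a : E (d + 1) → ℂ, ContDiff ℝ ∞ a →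
      (∀ (y : E d) (t : ℝ), ‖y‖ ^ 2 + t ^ 2 = 1 → (r < ‖y‖ ∨ t ≤ 0) → a (join y t) = 0) →
      ∀ p : ℝ, 2 * ((d : ℝ) + 1) / d < p → ∃ C : ℝ≥0∞, C ≠ ⊤ ∧ ∀ c : ℝ,
        ∫⁻ ξ, ‖extn (fun x => a x *
          Complex.exp (((c * pb φ b x : ℝ) : ℂ) * Complex.I)) ξ‖ₑ ^ p ≤ C)
    (φ : E (d + 1) → ℝ) (hφ : ContDiff ℝ ∞ φ) (δ : ℝ) (hδ : 0 < δ) (hδ1 : δ < 1) :
    ∀ᵐ b : Fin (d + 1) → ℝ, ∀ (j : Fin (d + 1)) (e : Bool), ∀ a : E (d + 1) → ℂ,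
      ContDiff ℝ ∞ a →
      (∀ x : E (d + 1), ‖x‖ = 1 → a x ≠ 0 → δ ≤ if e then x j else - x j) →
      ∀ p : ℝ, 2 * ((d : ℝ) + 1) / d < p → ∃ C : ℝ≥0∞, C ≠ ⊤ ∧ ∀ c : ℝ,
        ∫⁻ ξ, ‖extn (fun x => a x *
          Complex.exp (((c * pb φ b x : ℝ) : ℂ) * Complex.I)) ξ‖ₑ ^ p ≤ C := by
  rw [ae_all_iff]
  intro j
  rw [ae_all_iff]
  intro e
  cases e
  · have hN : ContDiff ℝ ∞ fun x : E (d + 1) => φ (-x) := hφ.comp contDiff_neg
    filter_upwards [perm_true d H (fun x => φ (-x)) hN δ hδ hδ1 j] with b hb a ha hs p hp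
    obtain ⟨C, hC, hCb⟩ := hb (fun x => a (-x)) (ha.comp contDiff_neg) (by
      intro x hx hne
      have h3 := hs (-x) (by rw [norm_neg, hx]) hne
      simpa using h3) p hp
    refine ⟨C, hC, fun c => ?_⟩
    refine le_trans (le_of_eq ?_) (hCb c)
    rw [← lint_extn_iso _ (LinearIsometryEquiv.neg ℝ)]
    refine lintegral_congr fun ξ => ?_
    congr 3
    funext x
    rw [LinearIsometryEquiv.coe_neg, pb_neg]
  · filter_upwards [perm_true d H φ hφ δ hδ hδ1 j] with b hb a ha hs p hp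
    exact hb a ha (fun x hx hne => by simpa using hs x hx hne) p hp

end Pool.Agent.GNP
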