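import Pool.Agent.GNP.PUa

namespace Pool.Agent.GNP

open MeasureTheory Set Pool.Agent.MP_6cbfb8_an
open scoped ENNReal Real RealInnerProductSpace ContDiff

/-- Amplitudes for which the estimate holds. -/
def Good (d : ℕ) (φ : E (d + 1) → ℝ) (b : Fin (d + 1) → ℝ) (a : E (d + 1) → ℂ) : Prop :=
  ∀ p : ℝ, 2 * ((d : ℝ) + 1) / d < p → ∃ C : ℝ≥0∞, C ≠ ⊤ ∧ ∀ c : ℝ,
    ∫⁻ ξ, ‖extn (fun x => a x * Complex.exp (((c * pb φ b x : ℝ) : ℂ) * Complex.I)) ξ‖ₑ ^ p ≤ C

theorem extn_congr {n : ℕ} {f g : E n → ℂ} (h : ∀ x : S n, f x = g x) (ξ : E n) :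
    extn f ξ = extn g ξ := by
  unfold extn
  refine integral_congr_ae (Filter.Eventually.of_forall fun x => ?_)
  simp only [h x]

theorem extn_add {n : ℕ} {f g : E n → ℂ} (hf : Continuous f) (hg : Continuous g) (ξ : E n) :
    extn (fun x => f x + g x) ξ = extn f ξ + extn g ξ := by
  have key : ∀ F : E n → ℂ, Continuous F → Integrable (fun x : S n => F x *
      Complex.exp (((-(2 * π * inner ℝ (x : E n) ξ) : ℝ) : ℂ) * Complex.I)) (sm n) := by
    intro F hF
    have hc : Continuous fun x : S n => F x *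
        Complex.exp (((-(2 * π * inner ℝ (x : E n) ξ) : ℝ) : ℂ) * Complex.I) := by
      have h1 : Continuous fun x : S n => (inner ℝ (x : E n) ξ : ℝ) :=
        continuous_subtype_val.inner continuous_const
      have h2 : Continuous fun x : S n => F (x : E n) := hF.comp continuous_subtype_val
      exact h2.mul (by fun_prop)
    exact hc.integrable_of_hasCompactSupport (HasCompactSupport.of_compactSpace _)
  unfold extn
  rw [← integral_add (key f hf) (key g hg)]
  refine integral_congr_ae (Filter.Eventually.of_forall fun x => ?_)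
  simp only
  ring

theorem Good.congr {d : ℕ} {φ : E (d + 1) → ℝ} {b : Fin (d + 1) → ℝ} {a a' : E (d + 1) → ℂ}
    (h : Good d φ b a) (hc : ∀ x : S (d + 1), a x = a' x) : Good d φ b a' := by
  intro p hp
  obtain ⟨C, hC, h1⟩ := h p hp
  refine ⟨C, hC, fun c => ?_⟩
  have e : ∀ ξ, extn (fun x => a' x * Complex.exp (((c * pb φ b x : ℝ) : ℂ) * Complex.I)) ξ =
      extn (fun x => a x * Complex.exp (((c * pb φ b x : ℝ) : ℂ) * Complex.I)) ξ := fun ξ =>
    extn_congr (fun x => by rw [hc x]) ξ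
  simp only [e]
  exact h1 c

theorem continuous_pb {n : ℕ} {φ : E n → ℝ} (hφ : Continuous φ) (b : Fin n → ℝ) :
    Continuous (pb φ b) := by
  unfold pb
  fun_prop

theorem Good.add {d : ℕ} (hd : 1 ≤ d) {φ : E (d + 1) → ℝ} (hφ : Continuous φ)
    {b : Fin (d + 1) → ℝ} {a a' : E (d + 1) → ℂ} (hc : Continuous a) (hc' : Continuous a')
    (h : Good d φ b a) (h' : Good d φ b a') : Good d φ b (fun x => a x + a' x) := by
  intro p hp
  have hp1 : 1 ≤ p := by
    have hd0 : (0 : ℝ) < d := by exact_mod_cast hd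
    have : (1 : ℝ) ≤ 2 * ((d : ℝ) + 1) / d := by
      rw [le_div_iff₀ hd0]
      linarith
    linarith
  obtain ⟨C, hC, h1⟩ := h p hp
  obtain ⟨C', hC', h1'⟩ := h' p hp
  refine ⟨2 ^ (p - 1) * (C + C'), ?_, fun c => ?_⟩
  · refine ENNReal.mul_ne_top (ENNReal.rpow_ne_top_of_nonneg (by linarith) (by simp)) ?_
    exact ENNReal.add_ne_top.2 ⟨hC, hC'⟩
  · have hpb := continuous_pb hφ b
    have k1 : Continuous fun x => a x * Complex.exp (((c * pb φ b x : ℝ) : ℂ) * Complex.I) := by
      fun_prop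
    have k2 : Continuous fun x => a' x * Complex.exp (((c * pb φ b x : ℝ) : ℂ) * Complex.I) := by
      fun_prop
    have e : ∀ ξ, extn (fun x => (a x + a' x) *
        Complex.exp (((c * pb φ b x : ℝ) : ℂ) * Complex.I)) ξ =
        extn (fun x => a x * Complex.exp (((c * pb φ b x : ℝ) : ℂ) * Complex.I)) ξ +
        extn (fun x => a' x * Complex.exp (((c * pb φ b x : ℝ) : ℂ) * Complex.I)) ξ := by
      intro ξ
      rw [← extn_add k1 k2]
      exact extn_congr (fun x => by ring) ξ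
    calc ∫⁻ ξ, ‖extn (fun x => (a x + a' x) *
          Complex.exp (((c * pb φ b x : ℝ) : ℂ) * Complex.I)) ξ‖ₑ ^ p
        ≤ ∫⁻ ξ, 2 ^ (p - 1) * (‖extn (fun x => a x *
            Complex.exp (((c * pb φ b x : ℝ) : ℂ) * Complex.I)) ξ‖ₑ ^ p +
            ‖extn (fun x => a' x *
            Complex.exp (((c * pb φ b x : ℝ) : ℂ) * Complex.I)) ξ‖ₑ ^ p) := by
          refine lintegral_mono fun ξ => ?_
          rw [e ξ]
          refine le_trans (ENNReal.rpow_le_rpow (enorm_add_le _ _) (by linarith)) ?_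
          exact ENNReal.rpow_add_le_mul_rpow_add_rpow _ _ hp1
      _ = 2 ^ (p - 1) * ((∫⁻ ξ, ‖extn (fun x => a x *
            Complex.exp (((c * pb φ b x : ℝ) : ℂ) * Complex.I)) ξ‖ₑ ^ p) +
          ∫⁻ ξ, ‖extn (fun x => a' x *
            Complex.exp (((c * pb φ b x : ℝ) : ℂ) * Complex.I)) ξ‖ₑ ^ p) := by
          rw [lintegral_const_mul' _ _ (ENNReal.rpow_ne_top_of_nonneg (by linarith) (by simp)),
            lintegral_add_left ((measurable_extn _ k1.measurable).enorm.pow_const p)]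
      _ ≤ 2 ^ (p - 1) * (C + C') := by
          gcongr
          · exact h1 c
          · exact h1' c

/-- Smooth cut-offs can be peeled off one after the other. -/
theorem peel {d : ℕ} (hd : 1 ≤ d) {φ : E (d + 1) → ℝ} (hφ : Continuous φ)
    {b : Fin (d + 1) → ℝ} {ι : Type*} [DecidableEq ι] (u : ι → E (d + 1) → ℝ) (s : Finset ι)
    (hu : ∀ i, ContDiff ℝ ∞ (u i))
    (hg : ∀ i ∈ s, ∀ a : E (d + 1) → ℂ, ContDiff ℝ ∞ a → Good d φ b (fun x => (u i x : ℂ) * a x))
    (a : E (d + 1) → ℂ) (ha : ContDiff ℝ ∞ a) :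
    Good d φ b (fun x => ((1 - ∏ i ∈ s, (1 - u i x) : ℝ) : ℂ) * a x) := by
  induction s using Finset.induction_on with
  | empty =>
    intro p hp
    refine ⟨0, by simp, fun c => ?_⟩
    have hp0 : 0 < p := lt_of_le_of_lt (by positivity) hp
    have e : ∀ ξ, extn (fun x : E (d + 1) => (((1 - ∏ i ∈ (∅ : Finset ι), (1 - u i x) : ℝ) : ℂ) * a x) *
        Complex.exp (((c * pb φ b x : ℝ) : ℂ) * Complex.I)) ξ = 0 := by
      intro ξ
      unfold extn
      simp
    simp only [e, enorm_zero, ENNReal.zero_rpow_of_pos hp0, lintegral_zero, le_refl]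
  | insert i s hi ih =>
    have h1 := ih (fun j hj => hg j (Finset.mem_insert_of_mem hj))
    have hP : ContDiff ℝ ∞ (fun x => ∏ j ∈ s, (1 - u j x)) := by
      apply contDiff_prod
      intro j _
      exact contDiff_const.sub (hu j)
    have hPa : ContDiff ℝ ∞ (fun x => (((∏ j ∈ s, (1 - u j x) : ℝ) : ℂ)) * a x) :=
      (Complex.ofRealCLM.contDiff.comp hP).mul ha
    have h2 := hg i (Finset.mem_insert_self _ _) _ hPa
    have c1 : Continuous fun x => ((1 - ∏ i ∈ s, (1 - u i x) : ℝ) : ℂ) * a x := by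
      have := hP.continuous
      have := ha.continuous
      fun_prop
    have c2 : Continuous fun x => (u i x : ℂ) * ((((∏ j ∈ s, (1 - u j x) : ℝ) : ℂ)) * a x) := by
      have := (hu i).continuous
      have := hPa.continuous
      fun_prop
    refine (Good.add hd hφ c1 c2 h1 h2).congr fun x => ?_
    rw [Finset.prod_insert hi]
    push_cast
    ring

/-- The cut-off at the coordinate `j` with the sign `e`. -/
noncomputable def cu {d : ℕ} (i : Fin (d + 1) × Bool) (x : E (d + 1)) : ℝ :=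
  Real.smoothTransition (2 * √((d : ℝ) + 1) * (if i.2 then x i.1 else - x i.1) - 1)

theorem contDiff_cu {d : ℕ} (i : Fin (d + 1) × Bool) : ContDiff ℝ ∞ (cu (d := d) i) := by
  unfold cu
  refine Real.smoothTransition.contDiff.comp ?_
  refine (contDiff_const.mul ?_).sub contDiff_const
  have h : ContDiff ℝ ∞ fun x : E (d + 1) => x i.1 :=
    (EuclideanSpace.proj (𝕜 := ℝ) i.1).contDiff
  rcases i with ⟨j, e⟩
  cases e
  · simpa using h.neg
  · simpa using h

theorem prod_cu {d : ℕ} (x : E (d + 1)) (hx : ‖x‖ = 1) :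
    ∏ i : Fin (d + 1) × Bool, (1 - cu i x) = 0 := by
  have hn : (0 : ℝ) < (d : ℝ) + 1 := by positivity
  obtain ⟨j, hj⟩ : ∃ j : Fin (d + 1), 1 / ((d : ℝ) + 1) ≤ x j ^ 2 := by
    by_contra hcon
    push Not at hcon
    have h1 : ∑ j, x j ^ 2 < ∑ _j : Fin (d + 1), 1 / ((d : ℝ) + 1) :=
      Finset.sum_lt_sum_of_nonempty Finset.univ_nonempty fun j _ => hcon j
    rw [Finset.sum_const, Finset.card_univ, Fintype.card_fin, nsmul_eq_mul] at h1
    have h2 : ∑ j, x j ^ 2 = 1 := by
      have := EuclideanSpace.norm_sq_eq x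
      rw [hx] at this
      simpa using this.symm
    rw [h2] at h1
    push_cast at h1
    rw [mul_one_div_cancel hn.ne'] at h1
    exact lt_irrefl _ h1
  have hs : 0 < √((d : ℝ) + 1) := Real.sqrt_pos.2 hn
  have hs2 : √((d : ℝ) + 1) ^ 2 = (d : ℝ) + 1 := Real.sq_sqrt hn.le
  have h3 : 1 ≤ √((d : ℝ) + 1) * |x j| := by
    have h4 : 1 ≤ (√((d : ℝ) + 1) * |x j|) ^ 2 := by
      rw [mul_pow, hs2, sq_abs]
      rw [div_le_iff₀ hn] at hj
      linarith
    have h5 : 0 ≤ √((d : ℝ) + 1) * |x j| := by positivity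
    nlinarith
  refine Finset.prod_eq_zero (i := (j, decide (0 ≤ x j))) (Finset.mem_univ _) ?_
  have h6 : (if (decide (0 ≤ x j)) = true then x j else - x j) = |x j| := by
    by_cases h : 0 ≤ x j
    · rw [abs_of_nonneg h]
      simp [h]
    · rw [abs_of_neg (not_le.1 h)]
      simp [h]
  unfold cu
  simp only
  rw [h6, Real.smoothTransition.one_of_one_le, sub_self]
  nlinarith

end Pool.Agent.GNP
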