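import Pool.Agent.GNP.S5

/-!
Phases in all dimensions: the integration in the last variable, when at least `j` roots are far.
-/

namespace Pool.Agent.GNP

open MeasureTheory Set
open scoped ENNReal Real

/-- At least `j` of the points `ρ i` are at distance at least `T` from `σ`. -/
def Farj {d : ℕ} (j : ℕ) (T : ℝ) (ρ : Fin d → ℝ) (σ : ℝ) : Prop :=
  ∃ I : Finset (Fin d), j ≤ I.card ∧ ∀ i ∈ I, T ≤ |σ - ρ i|

/-- The `j` farthest indices. -/
theorem s5j_top {d j : ℕ} (t : Fin d → ℝ) {T : ℝ} (I : Finset (Fin d)) (hI : j ≤ I.card)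
    (hT : ∀ i ∈ I, T ≤ t i) : ∃ I' : Finset (Fin d), I'.card = j ∧ (∀ i ∈ I', T ≤ t i) ∧
      ∀ i ∈ I', ∀ l, l ∉ I' → t l ≤ t i := by
  classical
  have hne : (Finset.powersetCard j (Finset.univ : Finset (Fin d))).Nonempty := by
    rw [Finset.powersetCard_nonempty]
    exact hI.trans (Finset.card_le_univ I)
  obtain ⟨I', hI', hmax⟩ := Finset.exists_max_image _ (fun J => ∑ i ∈ J, t i) hne
  rw [Finset.mem_powersetCard] at hI'
  have hex : ∀ i ∈ I', ∀ l, l ∉ I' → t l ≤ t i := by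
    intro i hi l hl
    have hl' : l ∉ I'.erase i := fun h => hl (Finset.mem_of_mem_erase h)
    have h1 := hmax (insert l (I'.erase i)) (by
      rw [Finset.mem_powersetCard]
      refine ⟨Finset.subset_univ _, ?_⟩
      rw [Finset.card_insert_of_notMem hl', Finset.card_erase_of_mem hi, hI'.2]
      have : 0 < I'.card := Finset.card_pos.2 ⟨i, hi⟩
      omega)
    rw [Finset.sum_insert hl', ← Finset.add_sum_erase I' t hi] at h1
    linarith
  refine ⟨I', hI'.2, fun i hi => ?_, hex⟩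
  by_contra hcon
  push Not at hcon
  have hiI : i ∉ I := fun h => absurd (hT i h) (not_le.2 hcon)
  have h2 : ∃ l ∈ I, l ∉ I' := by
    by_contra hno
    push Not at hno
    have h3 : I ⊆ I'.erase i := fun l hl => Finset.mem_erase.2 ⟨fun h => hiI (h ▸ hl), hno l hl⟩
    have h4 := Finset.card_le_card h3
    rw [Finset.card_erase_of_mem hi, hI'.2] at h4
    have : 0 < I'.card := Finset.card_pos.2 ⟨i, hi⟩
    rw [hI'.2] at this
    omega
  obtain ⟨l, hl, hl'⟩ := h2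
  have := hex i hi l hl'
  linarith [hT l hl]

theorem s5j_one (d j : ℕ) (hj : 1 ≤ j) (hjd : 2 * j ≤ d) (α : ℝ) (hα : 2 / (d : ℝ) < α) :
    ∃ K : ℝ, 0 < K ∧
    ∀ (r T : ℝ) (s : Fin d → ℝ) (I : Finset (Fin d)), I.card = j → 0 < r → r ≤ 1 →
    1 / r ^ 2 ≤ T →
    ∫⁻ σ in {σ : ℝ | ∀ i ∈ I, T ≤ |σ - s i| ∧ ∀ l, l ∉ I → |σ - s l| ≤ |σ - s i|},
      ENNReal.ofReal ((∏ i, fr r |σ - s i|) ^ α) ≤
      ENNReal.ofReal (K * (r⁻¹ * T ^ (-(j * α / 2)) + 1)) := by
  have hj1 : (1 : ℝ) ≤ j := by exact_mod_cast hj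
  have hjd2 : 2 * (j : ℝ) ≤ d := by exact_mod_cast hjd
  have hd0 : (0 : ℝ) < d := by linarith
  have hα0 : 0 < α := lt_trans (by positivity) hα
  rw [div_lt_iff₀ hd0] at hα
  set β : ℝ := ((d : ℝ) - j) * α with hβ
  have hβ1 : 1 < β := by rw [hβ]; nlinarith
  have hex : ∃ γ : ℝ, 0 ≤ γ ∧ γ < 1 ∧ γ ≤ β / 2 ∧ 1 < γ + j * α / 2 := by
    rcases lt_or_ge (β / 2) 1 with h | h
    · exact ⟨β / 2, by linarith, h, le_rfl, by rw [hβ]; linarith⟩
    · have hja : 0 < j * α := by positivity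
      rcases lt_or_ge (j * α) 4 with h4 | h4
      · exact ⟨1 - j * α / 4, by linarith, by linarith, by linarith, by linarith⟩
      · exact ⟨0, le_rfl, one_pos, by linarith, by linarith⟩
  obtain ⟨γ, hγ0, hγ1, hγβ, hγα⟩ := hex
  obtain ⟨K1, hK1, h1⟩ := s5_g1_int β hβ1
  obtain ⟨K2, hK2, h2⟩ := s5_g2_int γ (j * α / 2) hγ0 hγ1 (by positivity) hγα
  refine ⟨2 ^ (j * α) * 4 ^ β * d * (K1 + K2), by positivity, fun r T s I hI hr hr1 hT => ?_⟩
  have hT0 : 0 < T := lt_of_lt_of_le (by positivity) hT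
  have hT1 : 1 ≤ T := by
    refine le_trans ?_ hT
    rw [le_div_iff₀ (by positivity)]
    nlinarith
  have hcard : ((Finset.univ \ I).card : ℝ) = (d : ℝ) - j := by
    rw [Finset.card_sdiff_of_subset (Finset.subset_univ I), Finset.card_univ, Fintype.card_fin, hI,
      Nat.cast_sub (by omega)]
  have hne : (Finset.univ \ I).Nonempty := by
    rw [← Finset.card_pos, Finset.card_sdiff_of_subset (Finset.subset_univ I), Finset.card_univ,
      Fintype.card_fin, hI]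
    omega
  have hpt : ∀ σ ∈ {σ : ℝ | ∀ i ∈ I, T ≤ |σ - s i| ∧ ∀ l, l ∉ I → |σ - s l| ≤ |σ - s i|},
      ENNReal.ofReal ((∏ i, fr r |σ - s i|) ^ α) ≤ ENNReal.ofReal (2 ^ (j * α) * 4 ^ β) *
        ∑ i : Fin d, (ENNReal.ofReal (T ^ (-(j * α / 2))) *
            ENNReal.ofReal ((1 + r * |σ - s i|) ^ (-β)) +
          ENNReal.ofReal ((1 + |σ - s i|) ^ (-γ) * (max T |σ - s i|) ^ (-(j * α / 2)))) := by
    intro σ hσ
    -- the far factors
    have hfar : ∀ X : ℝ, 0 < X → (∀ i ∈ I, X ≤ |σ - s i|) →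
        (∏ i ∈ I, fr r |σ - s i|) ^ α ≤ 2 ^ (j * α) * X ^ (-(j * α / 2)) := by
      intro X hX0 hX
      have h3 : ∏ i ∈ I, fr r |σ - s i| ≤ (2 * X ^ (-(1 / 2) : ℝ)) ^ j := by
        calc ∏ i ∈ I, fr r |σ - s i| ≤ ∏ i ∈ I, (2 * X ^ (-(1 / 2) : ℝ)) := by
              refine Finset.prod_le_prod (fun i _ => fr_nonneg _ _) fun i hi => ?_
              refine (s5_fr_far hr (hT.trans (hσ i hi).1)).trans ?_
              have := Real.rpow_le_rpow_of_nonpos hX0 (hX i hi)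
                (show (-(1 / 2) : ℝ) ≤ 0 by norm_num)
              linarith
          _ = _ := by rw [Finset.prod_const, hI]
      have h4 := Real.rpow_le_rpow (Finset.prod_nonneg fun i _ => fr_nonneg _ _) h3 hα0.le
      refine h4.trans (le_of_eq ?_)
      rw [← Real.rpow_natCast, ← Real.rpow_mul (by positivity),
        Real.mul_rpow (by norm_num) (by positivity), ← Real.rpow_mul hX0.le]
      congr 2
      ring
    have hb : (∏ i ∈ Finset.univ \ I, fr r |σ - s i|) ^ α ≤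
        ∑ i ∈ Finset.univ \ I, fr r |σ - s i| ^ β := by
      have := s5_prod_pow_le (Finset.univ \ I) (fun i => fr r |σ - s i|)
        (fun i => fr_nonneg _ _) hne hα0.le
      rwa [hcard] at this
    have hc : (∏ i, fr r |σ - s i|) ^ α =
        (∏ i ∈ Finset.univ \ I, fr r |σ - s i|) ^ α * (∏ i ∈ I, fr r |σ - s i|) ^ α := by
      rw [← Real.mul_rpow (Finset.prod_nonneg fun i _ => fr_nonneg _ _)
        (Finset.prod_nonneg fun i _ => fr_nonneg _ _),
        Finset.prod_sdiff (Finset.subset_univ I)]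
    have hPI : 0 ≤ (∏ i ∈ I, fr r |σ - s i|) ^ α :=
      Real.rpow_nonneg (Finset.prod_nonneg fun i _ => fr_nonneg _ _) _
    have hd' : ∀ i ∈ Finset.univ \ I, fr r |σ - s i| ^ β * (∏ i ∈ I, fr r |σ - s i|) ^ α ≤
        2 ^ (j * α) * 4 ^ β * (T ^ (-(j * α / 2)) * (1 + r * |σ - s i|) ^ (-β) +
          (1 + |σ - s i|) ^ (-γ) * (max T |σ - s i|) ^ (-(j * α / 2))) := by
      intro i hi
      have hiI : i ∉ I := (Finset.mem_sdiff.1 hi).2
      have h4 := s5_fr_pow hr hr1 (abs_nonneg (σ - s i)) (show 0 ≤ β by linarith)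
      have h5 := hfar T hT0 fun l hl => (hσ l hl).1
      have h6 := hfar (max T |σ - s i|) (lt_of_lt_of_le hT0 (le_max_left _ _))
        fun l hl => max_le (hσ l hl).1 ((hσ l hl).2 i hiI)
      have hp1 : 0 ≤ (1 + r * |σ - s i|) ^ (-β) := by positivity
      have hp4 : (1 + |σ - s i|) ^ (-(β / 2)) ≤ (1 + |σ - s i|) ^ (-γ) :=
        Real.rpow_le_rpow_of_exponent_le (by linarith [abs_nonneg (σ - s i)]) (by linarith)
      have hp5 : 0 ≤ (1 + |σ - s i|) ^ (-γ) := by positivity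
      calc fr r |σ - s i| ^ β * (∏ i ∈ I, fr r |σ - s i|) ^ α
          ≤ (4 ^ β * ((1 + r * |σ - s i|) ^ (-β) + (1 + |σ - s i|) ^ (-γ))) *
            (∏ i ∈ I, fr r |σ - s i|) ^ α := by
            refine mul_le_mul_of_nonneg_right (h4.trans ?_) hPI
            gcongr
        _ = 4 ^ β * ((1 + r * |σ - s i|) ^ (-β) * (∏ i ∈ I, fr r |σ - s i|) ^ α +
            (1 + |σ - s i|) ^ (-γ) * (∏ i ∈ I, fr r |σ - s i|) ^ α) := by ring
        _ ≤ 4 ^ β * ((1 + r * |σ - s i|) ^ (-β) * (2 ^ (j * α) * T ^ (-(j * α / 2))) +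
            (1 + |σ - s i|) ^ (-γ) * (2 ^ (j * α) * (max T |σ - s i|) ^ (-(j * α / 2)))) := by
            gcongr
        _ = _ := by ring
    have hsum : (∏ i, fr r |σ - s i|) ^ α ≤ ∑ i : Fin d, 2 ^ (j * α) * 4 ^ β *
        (T ^ (-(j * α / 2)) * (1 + r * |σ - s i|) ^ (-β) +
          (1 + |σ - s i|) ^ (-γ) * (max T |σ - s i|) ^ (-(j * α / 2))) := by
      calc (∏ i, fr r |σ - s i|) ^ α
          ≤ (∑ i ∈ Finset.univ \ I, fr r |σ - s i| ^ β) *
              (∏ i ∈ I, fr r |σ - s i|) ^ α := by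
            rw [hc]
            exact mul_le_mul_of_nonneg_right hb hPI
        _ = ∑ i ∈ Finset.univ \ I, fr r |σ - s i| ^ β *
              (∏ i ∈ I, fr r |σ - s i|) ^ α := by rw [Finset.sum_mul]
        _ ≤ ∑ i ∈ Finset.univ \ I, 2 ^ (j * α) * 4 ^ β *
              (T ^ (-(j * α / 2)) * (1 + r * |σ - s i|) ^ (-β) +
              (1 + |σ - s i|) ^ (-γ) * (max T |σ - s i|) ^ (-(j * α / 2))) :=
            Finset.sum_le_sum fun i hi => hd' i hi
        _ ≤ _ := Finset.sum_le_sum_of_subset_of_nonneg Finset.sdiff_subset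
              fun i _ _ => by positivity
    refine (ENNReal.ofReal_le_ofReal hsum).trans (le_of_eq ?_)
    rw [ENNReal.ofReal_sum_of_nonneg fun i _ => by positivity, Finset.mul_sum]
    refine Finset.sum_congr rfl fun i _ => ?_
    rw [ENNReal.ofReal_mul (show (0 : ℝ) ≤ 2 ^ (j * α) * 4 ^ β by positivity),
      ENNReal.ofReal_add (by positivity) (by positivity),
      ENNReal.ofReal_mul (show (0 : ℝ) ≤ T ^ (-(j * α / 2)) by positivity)]
  have hms : MeasurableSet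
      {σ : ℝ | ∀ i ∈ I, T ≤ |σ - s i| ∧ ∀ l, l ∉ I → |σ - s l| ≤ |σ - s i|} := by
    have h3 : {σ : ℝ | ∀ i ∈ I, T ≤ |σ - s i| ∧ ∀ l, l ∉ I → |σ - s l| ≤ |σ - s i|} =
        ⋂ i ∈ I, ({σ : ℝ | T ≤ |σ - s i|} ∩ ⋂ l, ⋂ _ : l ∉ I,
          {σ : ℝ | |σ - s l| ≤ |σ - s i|}) := by
      ext σ
      simp
    rw [h3]
    refine MeasurableSet.biInter I.countable_toSet fun i _ => ?_
    refine MeasurableSet.inter (measurableSet_le (by fun_prop) (by fun_prop)) ?_
    exact MeasurableSet.iInter fun l => MeasurableSet.iInter fun _ =>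
      measurableSet_le (by fun_prop) (by fun_prop)
  refine (setLIntegral_mono' hms hpt).trans ((setLIntegral_le_lintegral _ _).trans ?_)
  rw [lintegral_const_mul _ (by fun_prop), lintegral_finsetSum' _ fun i _ => by
    refine Measurable.aemeasurable ?_
    fun_prop]
  have hone : ∀ i : Fin d, ∫⁻ σ : ℝ, (ENNReal.ofReal (T ^ (-(j * α / 2))) *
        ENNReal.ofReal ((1 + r * |σ - s i|) ^ (-β)) +
      ENNReal.ofReal ((1 + |σ - s i|) ^ (-γ) * (max T |σ - s i|) ^ (-(j * α / 2)))) ≤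
      ENNReal.ofReal ((K1 + K2) * (r⁻¹ * T ^ (-(j * α / 2)) + 1)) := by
    intro i
    rw [lintegral_add_left (by fun_prop), lintegral_const_mul _ (by fun_prop)]
    refine (add_le_add (mul_le_mul_right (h1 r (s i) hr) _) (h2 T (s i) hT0)).trans ?_
    rw [← ENNReal.ofReal_mul (by positivity), ← ENNReal.ofReal_add (by positivity)
      (by positivity)]
    refine ENNReal.ofReal_le_ofReal ?_
    have he : T ^ (1 - γ - j * α / 2) ≤ 1 :=
      Real.rpow_le_one_of_one_le_of_nonpos hT1 (by linarith)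
    have hq1 : 0 ≤ r⁻¹ * T ^ (-(j * α / 2)) := by positivity
    have hq2 : 0 ≤ T ^ (1 - γ - j * α / 2) := by positivity
    nlinarith
  refine (mul_le_mul_right (Finset.sum_le_sum fun i _ => hone i) _).trans ?_
  rw [Finset.sum_const, Finset.card_univ, Fintype.card_fin, nsmul_eq_mul,
    show (d : ℝ≥0∞) = ENNReal.ofReal d by simp, ← ENNReal.ofReal_mul (by positivity),
    ← ENNReal.ofReal_mul (by positivity)]
  exact ENNReal.ofReal_le_ofReal (le_of_eq (by ring))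

/-- The integral over the `σ` for which at least `j` roots are far. -/
theorem S5bj (d j : ℕ) (hj : 1 ≤ j) (hjd : 2 * j ≤ d) (α : ℝ) (hα : 2 / (d : ℝ) < α) :
    ∃ K : ℝ, 0 < K ∧ ∀ (r T : ℝ) (s : Fin d → ℝ), 0 < r → r ≤ 1 → 1 / r ^ 2 ≤ T →
    ∫⁻ σ in {σ : ℝ | Farj j T s σ}, ENNReal.ofReal ((∏ i, fr r |σ - s i|) ^ α) ≤
      ENNReal.ofReal (K * (r⁻¹ * T ^ (-(j * α / 2)) + 1)) := by
  classical
  obtain ⟨K, hK, h⟩ := s5j_one d j hj hjd α hα
  refine ⟨((Finset.univ : Finset (Finset (Fin d))).card : ℝ) * K, by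
    have : 0 < (Finset.univ : Finset (Finset (Fin d))).card :=
      Finset.card_pos.2 Finset.univ_nonempty
    positivity, fun r T s hr hr1 hT => ?_⟩
  have hT0 : 0 < T := lt_of_lt_of_le (by positivity) hT
  have hsub : {σ : ℝ | Farj j T s σ} ⊆
      ⋃ I : Finset (Fin d), {σ : ℝ | I.card = j ∧
        ∀ i ∈ I, T ≤ |σ - s i| ∧ ∀ l, l ∉ I → |σ - s l| ≤ |σ - s i|} := by
    rintro σ ⟨I, hI, hIT⟩
    obtain ⟨I', h1, h2, h3⟩ := s5j_top (fun i => |σ - s i|) I hI hIT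
    exact mem_iUnion.2 ⟨I', h1, fun i hi => ⟨h2 i hi, h3 i hi⟩⟩
  have hI : ∀ I : Finset (Fin d), ∫⁻ σ in {σ : ℝ | I.card = j ∧
        ∀ i ∈ I, T ≤ |σ - s i| ∧ ∀ l, l ∉ I → |σ - s l| ≤ |σ - s i|},
        ENNReal.ofReal ((∏ i, fr r |σ - s i|) ^ α) ≤
      ENNReal.ofReal (K * (r⁻¹ * T ^ (-(j * α / 2)) + 1)) := by
    intro I
    by_cases hc : I.card = j
    · exact (lintegral_mono_set fun σ hσ => hσ.2).trans (h r T s I hc hr hr1 hT)
    · have he : {σ : ℝ | I.card = j ∧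
        ∀ i ∈ I, T ≤ |σ - s i| ∧ ∀ l, l ∉ I → |σ - s l| ≤ |σ - s i|} = ∅ := by
        ext σ
        simp [hc]
      rw [he]
      simp
  refine (lintegral_mono_set hsub).trans ((lintegral_iUnion_le _ _).trans ?_)
  rw [tsum_fintype]
  refine (Finset.sum_le_sum fun I _ => hI I).trans ?_
  rw [Finset.sum_const, nsmul_eq_mul, mul_assoc,
    ENNReal.ofReal_mul (p := (((Finset.univ : Finset (Finset (Fin d))).card : ℕ) : ℝ))
      (by positivity), ENNReal.ofReal_natCast]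

end Pool.Agent.GNP
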