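import Pool.Agent.GNP.SL1

/-!
Sublevel sets of smooth functions of several variables: all orders.
-/

namespace Pool.Agent.GNP

open MeasureTheory Set Pool.Agent.MP_6cbfb8_an
open scoped ENNReal Real RealInnerProductSpace ContDiff

/-- Iterated partial derivatives. -/
noncomputable def pdl {d : ℕ} (l : List (Fin d)) (P : MvPolynomial (Fin d) ℝ) :
    MvPolynomial (Fin d) ℝ := l.foldr (fun i Q => MvPolynomial.pderiv i Q) P

theorem pdl_cons {d : ℕ} (i : Fin d) (l : List (Fin d)) (P : MvPolynomial (Fin d) ℝ) :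
    pdl (i :: l) P = MvPolynomial.pderiv i (pdl l P) := rfl

theorem pdl_deg {d : ℕ} (P : MvPolynomial (Fin d) ℝ) (N : ℕ) (hP : P.totalDegree ≤ N)
    (l : List (Fin d)) : (pdl l P).totalDegree ≤ N := by
  induction l with
  | nil => exact hP
  | cons i l ih => exact (totalDegree_pderiv_le _ _).trans ih

theorem chain {d : ℕ} (r : ℝ) (hr : 0 ≤ r) (P : MvPolynomial (Fin d) ℝ) (N : ℕ)
    (hP : P.totalDegree ≤ N) (al t : ℝ) (hal : 0 < al) (ht : 0 < t) (l : List (Fin d)) :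
    volume {y : E d | ‖y‖ ≤ r ∧ |pe P y| ≤ al ∧ al * t⁻¹ ^ l.length < |pe (pdl l P) y|} ≤
      ENNReal.ofReal (l.length * (N * (2 * (2 * r) ^ (d - 1)) * t)) := by
  induction l with
  | nil =>
    have : {y : E d | ‖y‖ ≤ r ∧ |pe P y| ≤ al ∧
        al * t⁻¹ ^ ([] : List (Fin d)).length < |pe (pdl [] P) y|} = ∅ := by
      ext y
      simp only [List.length_nil, pow_zero, mul_one, mem_ofPred_eq, mem_empty_iff_false, iff_false]
      rintro ⟨-, h1, h2⟩
      exact absurd h1 (not_le.2 h2)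
    rw [this]
    simp
  | cons i l ih =>
    set lam : ℝ := al * t⁻¹ ^ l.length with hlam
    set mu : ℝ := al * t⁻¹ ^ (l.length + 1) with hmu
    have hlam0 : 0 < lam := by positivity
    have hmu0 : 0 < mu := by positivity
    have h1 : lam / mu = t := by
      rw [hlam, hmu, pow_succ]
      field_simp
    have h2 := sub_one i r hr (pdl l P) N (pdl_deg P N hP l) lam mu hlam0.le hmu0
    rw [h1] at h2
    have hsub : {y : E d | ‖y‖ ≤ r ∧ |pe P y| ≤ al ∧
        al * t⁻¹ ^ (i :: l).length < |pe (pdl (i :: l) P) y|} ⊆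
        {y : E d | ‖y‖ ≤ r ∧ |pe (pdl l P) y| ≤ lam ∧
          mu ≤ |pe (MvPolynomial.pderiv i (pdl l P)) y|} ∪
        {y : E d | ‖y‖ ≤ r ∧ |pe P y| ≤ al ∧ al * t⁻¹ ^ l.length < |pe (pdl l P) y|} := by
      rintro y ⟨h3, h4, h5⟩
      rcases le_or_gt |pe (pdl l P) y| lam with h6 | h6
      · left
        refine ⟨h3, h6, ?_⟩
        rw [List.length_cons, pdl_cons] at h5
        exact h5.le
      · right
        exact ⟨h3, h4, h6⟩
    refine (measure_mono hsub).trans ((measure_union_le _ _).trans ((add_le_add h2 ih).trans ?_))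
    rw [← ENNReal.ofReal_add (by positivity) (by positivity)]
    apply ENNReal.ofReal_le_ofReal
    rw [List.length_cons]
    push_cast
    linarith

theorem iterated_pe {d : ℕ} (P : MvPolynomial (Fin d) ℝ) (k : ℕ) : ∀ (i : Fin k → Fin d) (y : E d),
    iteratedFDeriv ℝ k (pe P) y (fun a => EuclideanSpace.single (i a) (1 : ℝ)) =
      pe (pdl (List.ofFn i) P) y := by
  induction k with
  | zero =>
    intro i y
    simp [pdl]
  | succ k ih =>
    intro i y
    rw [iteratedFDeriv_succ_apply_left, List.ofFn_succ, pdl_cons]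
    have hd : DifferentiableAt ℝ (iteratedFDeriv ℝ k (pe P)) y :=
      (contDiff_pe P).contDiffAt.differentiableAt_iteratedFDeriv (by
        norm_cast
        exact WithTop.coe_lt_top _)
    have h1 : (fderiv ℝ (iteratedFDeriv ℝ k (pe P)) y (EuclideanSpace.single (i 0) (1 : ℝ)))
        (Fin.tail fun a => EuclideanSpace.single (i a) (1 : ℝ)) =
        fderiv ℝ (fun z => iteratedFDeriv ℝ k (pe P) z
          (Fin.tail fun a => EuclideanSpace.single (i a) (1 : ℝ))) y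
          (EuclideanSpace.single (i 0) (1 : ℝ)) := by
      rw [(hd.hasFDerivAt.continuousMultilinear_apply_const _).fderiv]
      rfl
    rw [h1]
    have h2 : (fun z => iteratedFDeriv ℝ k (pe P) z
        (Fin.tail fun a => EuclideanSpace.single (i a) (1 : ℝ))) =
        pe (pdl (List.ofFn fun a => i a.succ) P) := by
      funext z
      exact ih (fun a => i a.succ) z
    rw [h2, ← gr_apply, gr_pe]

theorem norm_multi_le {d k : ℕ} (T : ContinuousMultilinearMap ℝ (fun _ : Fin k => E d) ℝ) :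
    ‖T‖ ≤ ∑ i : Fin k → Fin d, |T fun a => EuclideanSpace.single (i a) (1 : ℝ)| := by
  classical
  refine ContinuousMultilinearMap.opNorm_le_bound (by positivity) fun m => ?_
  have hm : m = fun a => ∑ j, (m a j) • (EuclideanSpace.single j (1 : ℝ) : E d) := by
    funext a
    have h1 := (EuclideanSpace.basisFun (Fin d) ℝ).sum_repr (m a)
    simp only [EuclideanSpace.basisFun_apply, EuclideanSpace.basisFun_repr] at h1
    exact h1.symm
  have h2 : T m = ∑ i : Fin k → Fin d, (∏ a, m a (i a)) *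
      T fun a => EuclideanSpace.single (i a) (1 : ℝ) := by
    conv_lhs => rw [hm]
    have h3 := T.toMultilinearMap.map_sum
      (fun a j => (m a j) • (EuclideanSpace.single j (1 : ℝ) : E d))
    simp only [ContinuousMultilinearMap.coe_coe] at h3
    rw [h3]
    refine Finset.sum_congr rfl fun i _ => ?_
    have h4 := T.toMultilinearMap.map_smul_univ (fun a => m a (i a))
      (fun a => (EuclideanSpace.single (i a) (1 : ℝ) : E d))
    simp only [ContinuousMultilinearMap.coe_coe] at h4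
    rw [h4, smul_eq_mul]
  rw [h2, Finset.sum_mul]
  refine (norm_sum_le _ _).trans (Finset.sum_le_sum fun i _ => ?_)
  rw [norm_mul, Real.norm_eq_abs, Real.norm_eq_abs, mul_comm]
  refine mul_le_mul_of_nonneg_left ?_ (abs_nonneg _)
  rw [Finset.abs_prod]
  refine Finset.prod_le_prod (fun a _ => abs_nonneg _) fun a _ => ?_
  have := PiLp.norm_apply_le (m a) (i a)
  rwa [Real.norm_eq_abs] at this

/-- Sublevel estimate for polynomials. -/
theorem sub_poly (d k N : ℕ) (hk : 1 ≤ k) (r : ℝ) (hr : 0 ≤ r) : ∃ C : ℝ, 0 < C ∧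
    ∀ P : MvPolynomial (Fin d) ℝ, P.totalDegree ≤ N → ∀ al be : ℝ, 0 < al → 0 < be →
    volume {y : E d | ‖y‖ ≤ r ∧ |pe P y| ≤ al ∧ be ≤ ‖iteratedFDeriv ℝ k (pe P) y‖} ≤
      ENNReal.ofReal (C * (al / be) ^ (1 / (k : ℝ))) := by
  classical
  set M : ℕ := Fintype.card (Fin k → Fin d) with hM
  set c : ℝ := (M : ℝ) + 1 with hc
  have hc0 : 0 < c := by positivity
  have hk0 : (0 : ℝ) < k := by exact_mod_cast hk
  set w : ℝ := N * (2 * (2 * r) ^ (d - 1)) with hw
  have hw0 : 0 ≤ w := by positivity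
  refine ⟨M * (k * (w * c ^ (1 / (k : ℝ)))) + 1, by positivity, fun P hP al be hal hbe => ?_⟩
  set t : ℝ := (al * c / be) ^ (1 / (k : ℝ)) with ht
  have ht0 : 0 < t := Real.rpow_pos_of_pos (by positivity) _
  have htk : al * t⁻¹ ^ k = be / c := by
    have h1 : t ^ k = al * c / be := by
      rw [ht, ← Real.rpow_natCast, ← Real.rpow_mul (by positivity), one_div,
        inv_mul_cancel₀ hk0.ne', Real.rpow_one]
    rw [inv_pow, h1]
    field_simp
  have hsub : {y : E d | ‖y‖ ≤ r ∧ |pe P y| ≤ al ∧ be ≤ ‖iteratedFDeriv ℝ k (pe P) y‖} ⊆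
      ⋃ i : Fin k → Fin d, {y : E d | ‖y‖ ≤ r ∧ |pe P y| ≤ al ∧
        al * t⁻¹ ^ (List.ofFn i).length < |pe (pdl (List.ofFn i) P) y|} := by
    rintro y ⟨h1, h2, h3⟩
    by_contra hcon
    simp only [mem_iUnion, not_exists] at hcon
    have h4 : ∀ i : Fin k → Fin d, |pe (pdl (List.ofFn i) P) y| ≤ be / c := by
      intro i
      by_contra h5
      apply hcon i
      refine ⟨h1, h2, ?_⟩
      rw [List.length_ofFn, htk]
      exact not_le.1 h5
    have h5 := h3.trans (norm_multi_le (iteratedFDeriv ℝ k (pe P) y))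
    have h6 : ∑ i : Fin k → Fin d, |(iteratedFDeriv ℝ k (pe P) y)
        (fun a => EuclideanSpace.single (i a) (1 : ℝ))| ≤ M * (be / c) := by
      have h61 : ∑ i : Fin k → Fin d, |(iteratedFDeriv ℝ k (pe P) y)
          (fun a => EuclideanSpace.single (i a) (1 : ℝ))| ≤ ∑ _i : Fin k → Fin d, be / c :=
        Finset.sum_le_sum fun i _ => by rw [iterated_pe]; exact h4 i
      refine h61.trans (le_of_eq ?_)
      rw [Finset.sum_const, Finset.card_univ, nsmul_eq_mul]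
    have h7 : (M : ℝ) * (be / c) < be := by
      rw [mul_div_assoc', div_lt_iff₀ hc0, hc]
      nlinarith
    linarith
  refine (measure_mono hsub).trans ((measure_iUnion_le _).trans ?_)
  rw [tsum_fintype]
  have h1 : ∀ i : Fin k → Fin d, volume {y : E d | ‖y‖ ≤ r ∧ |pe P y| ≤ al ∧
      al * t⁻¹ ^ (List.ofFn i).length < |pe (pdl (List.ofFn i) P) y|} ≤
      ENNReal.ofReal (k * (w * t)) := by
    intro i
    have := chain r hr P N hP al t hal ht0 (List.ofFn i)
    rwa [List.length_ofFn] at this ⊢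
  refine (Finset.sum_le_sum fun i _ => h1 i).trans ?_
  rw [Finset.sum_const, Finset.card_univ, nsmul_eq_mul, ← hM, ← ENNReal.ofReal_natCast,
    ← ENNReal.ofReal_mul (Nat.cast_nonneg M)]
  apply ENNReal.ofReal_le_ofReal
  have h2 : t = c ^ (1 / (k : ℝ)) * (al / be) ^ (1 / (k : ℝ)) := by
    rw [ht, ← Real.mul_rpow hc0.le (by positivity)]
    congr 1
    ring
  have h3 : 0 ≤ (al / be) ^ (1 / (k : ℝ)) := by positivity
  rw [h2]
  nlinarith

/-- Sublevel estimate for smooth functions, with a loss `L ^ ε`. -/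
theorem sublevel (d k : ℕ) (hk : 1 ≤ k) (A : ℕ → ℝ) (ρ ε : ℝ) (hρ : 0 < ρ) (hε : 0 < ε) :
    ∃ K : ℝ, 0 < K ∧ ∀ (f : E d → ℝ) (L al be : ℝ), 1 ≤ L → 1 ≤ al → 1 ≤ be → ContDiff ℝ ∞ f →
    (∀ j, 1 ≤ j → ∀ y, ‖iteratedFDeriv ℝ j f y‖ ≤ A j * L) →
    volume {y : E d | ‖y‖ ≤ ρ ∧ |f y| ≤ al ∧ be ≤ ‖iteratedFDeriv ℝ k f y‖} ≤
      ENNReal.ofReal (K * L ^ ε * (al / be) ^ (1 / (k : ℝ))) := by
  have hd1 : (0 : ℝ) < d + 1 := by positivity
  set e : ℝ := ε / (d + 1) with he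
  have he0 : 0 < e := by positivity
  obtain ⟨D, hD⟩ := exists_nat_ge (1 / e)
  have hDe : 1 ≤ e * (D + 1 : ℕ) := by
    rw [div_le_iff₀ he0] at hD
    push_cast
    nlinarith
  set N : ℕ := k + D with hN
  have hNk : N + 1 - (D + 1) = k := by omega
  obtain ⟨C, hC, hpoly⟩ := sub_poly d k N hk ρ hρ.le
  obtain ⟨CY, hCY, hY⟩ := cover_ball d ρ hρ.le
  set a : ℝ := |A (N + 1)| with ha
  have ha0 : 0 ≤ a := abs_nonneg _
  set c0 : ℝ := 1 / (2 * (a + 1)) with hc0
  have hc0p : 0 < c0 := by positivity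
  have hc01 : c0 ≤ 1 := by
    rw [hc0, div_le_one (by positivity)]
    linarith
  have hac0 : a * c0 ≤ 1 / 2 := by
    rw [hc0, mul_one_div, div_le_iff₀ (by positivity)]
    linarith
  have hk0 : (0 : ℝ) < k := by exact_mod_cast hk
  refine ⟨CY * (c0 ^ d)⁻¹ * (C * 3 ^ (1 / (k : ℝ))), by positivity, ?_⟩
  intro f L al be hL hal hbe hf hb
  have hL0 : 0 < L := by linarith
  set δ : ℝ := c0 * L ^ (-e) with hδ
  have hδ0 : 0 < δ := by positivity
  have hLe1 : L ^ (-e) ≤ 1 := Real.rpow_le_one_of_one_le_of_nonpos hL (by linarith)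
  have hδ1 : δ ≤ 1 := by
    calc δ = c0 * L ^ (-e) := rfl
      _ ≤ 1 * 1 := mul_le_mul hc01 hLe1 (by positivity) zero_le_one
      _ = 1 := mul_one 1
  have hδD : L * δ ^ (D + 1) ≤ c0 := by
    have h0 : δ ^ (D + 1) = c0 ^ (D + 1) * L ^ (-e * ((D + 1 : ℕ) : ℝ)) := by
      rw [hδ, mul_pow, ← Real.rpow_natCast (L ^ (-e)), ← Real.rpow_mul hL0.le]
    have h1 : L * L ^ (-e * ((D + 1 : ℕ) : ℝ)) ≤ 1 := by
      have h2 : L * L ^ (-e * ((D + 1 : ℕ) : ℝ)) = L ^ (1 + -e * ((D + 1 : ℕ) : ℝ)) := by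
        rw [Real.rpow_add hL0, Real.rpow_one]
      rw [h2]
      exact Real.rpow_le_one_of_one_le_of_nonpos hL (by linarith)
    have h3 : c0 ^ (D + 1) ≤ c0 := by
      calc c0 ^ (D + 1) ≤ c0 ^ 1 := pow_le_pow_of_le_one hc0p.le hc01 (by omega)
        _ = c0 := pow_one c0
    calc L * δ ^ (D + 1) = c0 ^ (D + 1) * (L * L ^ (-e * ((D + 1 : ℕ) : ℝ))) := by rw [h0]; ring
      _ ≤ c0 * 1 := mul_le_mul h3 h1 (by positivity) hc0p.le
      _ = c0 := mul_one c0
  have hδN : L * δ ^ (N + 1) ≤ c0 := by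
    refine le_trans (mul_le_mul_of_nonneg_left ?_ hL0.le) hδD
    exact pow_le_pow_of_le_one hδ0.le hδ1 (by omega)
  obtain ⟨Y, hYc, hYm⟩ := hY δ hδ0 hδ1
  have hB : ∀ y : E d, ‖iteratedFDeriv ℝ (N + 1) f y‖ ≤ a * L := fun y =>
    (hb (N + 1) (by omega) y).trans (mul_le_mul_of_nonneg_right (le_abs_self _) hL0.le)
  have hP : ∀ z : E d, ∃ P : MvPolynomial (Fin d) ℝ, P.totalDegree ≤ N ∧
      ∀ y, ‖y - z‖ ≤ δ → |f y| ≤ al → be ≤ ‖iteratedFDeriv ℝ k f y‖ →
        |pe P y| ≤ 3 / 2 * al ∧ be / 2 ≤ ‖iteratedFDeriv ℝ k (pe P) y‖ := by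
    intro z
    obtain ⟨P, hPd, hPT⟩ := TP_poly f z N
    refine ⟨P, hPd, fun y hy h1 h2 => ?_⟩
    have hrem := TP_remainder hf z N δ (a * L) hδ0 (fun y _ => hB y)
    have h3 := hrem (D + 1) (by omega) y hy
    have h4 := hrem (N + 1) le_rfl y hy
    rw [hNk] at h3
    rw [Nat.sub_self, norm_iteratedFDeriv_zero, Real.norm_eq_abs] at h4
    rw [hPT]
    have h5 : a * L * δ ^ (D + 1) ≤ 1 / 2 := by
      calc a * L * δ ^ (D + 1) = a * (L * δ ^ (D + 1)) := by ring
        _ ≤ a * c0 := mul_le_mul_of_nonneg_left hδD ha0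
        _ ≤ 1 / 2 := hac0
    have h6 : a * L * δ ^ (N + 1) ≤ 1 / 2 := by
      calc a * L * δ ^ (N + 1) = a * (L * δ ^ (N + 1)) := by ring
        _ ≤ a * c0 := mul_le_mul_of_nonneg_left hδN ha0
        _ ≤ 1 / 2 := hac0
    constructor
    · have h7 : |TPT f z N y| ≤ |f y| + |f y - TPT f z N y| := by
        have := abs_sub (f y) (f y - TPT f z N y)
        rwa [sub_sub_cancel] at this
      linarith
    · have h8 : iteratedFDeriv ℝ k (fun y => f y - TPT f z N y) y =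
          iteratedFDeriv ℝ k f y - iteratedFDeriv ℝ k (TPT f z N) y := by
        have h81 : ContDiffAt ℝ k f y := (hf.of_le (by norm_cast; exact le_top)).contDiffAt
        have h82 : ContDiffAt ℝ k (TPT f z N) y :=
          ((TPT_smooth f z N).of_le (by norm_cast; exact le_top)).contDiffAt
        exact iteratedFDeriv_sub_apply h81 h82
      rw [h8] at h3
      have h9 := norm_sub_norm_le (iteratedFDeriv ℝ k f y) (iteratedFDeriv ℝ k (TPT f z N) y)
      linarith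
  choose P hPd hPc using hP
  have hsub : {y : E d | ‖y‖ ≤ ρ ∧ |f y| ≤ al ∧ be ≤ ‖iteratedFDeriv ℝ k f y‖} ⊆
      ⋃ z ∈ Y, {y : E d | ‖y‖ ≤ ρ ∧ |pe (P z) y| ≤ 3 / 2 * al ∧
        be / 2 ≤ ‖iteratedFDeriv ℝ k (pe (P z)) y‖} := by
    rintro y ⟨h1, h2, h3⟩
    obtain ⟨z, hz, hyz⟩ := hYm y h1
    simp only [mem_iUnion]
    exact ⟨z, hz, h1, hPc z y hyz h2 h3⟩
  refine (measure_mono hsub).trans ((measure_biUnion_finset_le Y _).trans ?_)
  have hbe0 : 0 < be := by linarith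
  have hal0 : 0 < al := by linarith
  refine (Finset.sum_le_sum fun z _ => hpoly (P z) (hPd z) (3 / 2 * al) (be / 2)
    (by positivity) (by positivity)).trans ?_
  rw [Finset.sum_const, nsmul_eq_mul, ← ENNReal.ofReal_natCast,
    ← ENNReal.ofReal_mul (Nat.cast_nonneg _)]
  apply ENNReal.ofReal_le_ofReal
  have hr : (3 / 2 * al / (be / 2)) ^ (1 / (k : ℝ)) =
      3 ^ (1 / (k : ℝ)) * (al / be) ^ (1 / (k : ℝ)) := by
    rw [← Real.mul_rpow (by norm_num) (by positivity)]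
    congr 1
    field_simp
  rw [hr]
  have hcard : (Y.card : ℝ) ≤ CY * (c0 ^ d)⁻¹ * L ^ ε := by
    refine hYc.trans ?_
    rw [mul_assoc]
    refine mul_le_mul_of_nonneg_left ?_ hCY.le
    rw [hδ, mul_pow, mul_inv]
    refine mul_le_mul_of_nonneg_left ?_ (by positivity)
    rw [← Real.rpow_natCast, ← Real.rpow_mul hL0.le, ← Real.rpow_neg hL0.le]
    apply Real.rpow_le_rpow_of_exponent_le hL
    rw [he]
    have : ε / (d + 1) * d ≤ ε := by
      rw [div_mul_eq_mul_div, div_le_iff₀ hd1]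
      nlinarith
    linarith
  have h3 : 0 ≤ C * (3 ^ (1 / (k : ℝ)) * (al / be) ^ (1 / (k : ℝ))) := by positivity
  calc (Y.card : ℝ) * (C * (3 ^ (1 / (k : ℝ)) * (al / be) ^ (1 / (k : ℝ)))) ≤
      CY * (c0 ^ d)⁻¹ * L ^ ε * (C * (3 ^ (1 / (k : ℝ)) * (al / be) ^ (1 / (k : ℝ)))) :=
        mul_le_mul_of_nonneg_right hcard h3
    _ = CY * (c0 ^ d)⁻¹ * (C * 3 ^ (1 / (k : ℝ))) * L ^ ε * (al / be) ^ (1 / (k : ℝ)) := by ring

end Pool.Agent.GNP
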