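import Pool.Agent.GNP.TP
import Pool.Agent.GNP.P5
import Pool.Agent.GNP.Cover

/-!
Sublevel sets of smooth functions of several variables.
-/

namespace Pool.Agent.GNP

open MeasureTheory Set Pool.Agent.MP_6cbfb8_an
open scoped ENNReal Real RealInnerProductSpace ContDiff

/-- The box with sides `2 lam` (coordinate `i`) and `2 r` (the others). -/
theorem volume_box_le {d : ℕ} (i : Fin d) (r lam : ℝ) (hr : 0 ≤ r) (hl : 0 ≤ lam) :
    volume {z : E d | |z i| ≤ lam ∧ ∀ j, j ≠ i → |z j| ≤ r} ≤
      ENNReal.ofReal (2 * lam * (2 * r) ^ (d - 1)) := by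
  classical
  set s : Fin d → Set ℝ := fun j => if j = i then Icc (-lam) lam else Icc (-r) r with hs
  have h1 : {z : E d | |z i| ≤ lam ∧ ∀ j, j ≠ i → |z j| ≤ r} =
      (WithLp.ofLp : E d → Fin d → ℝ) ⁻¹' (Set.pi univ s) := by
    ext z
    simp only [mem_ofPred_eq, mem_preimage, mem_univ_pi]
    constructor
    · rintro ⟨h1, h2⟩ j
      by_cases hj : j = i
      · subst hj
        simp only [hs, if_true]
        exact abs_le.1 h1
      · simp only [hs, if_neg hj]
        exact abs_le.1 (h2 j hj)
    · intro h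
      refine ⟨?_, fun j hj => ?_⟩
      · have := h i
        simp only [hs, if_true] at this
        exact abs_le.2 this
      · have := h j
        simp only [hs, if_neg hj] at this
        exact abs_le.2 this
  have hms : MeasurableSet (Set.pi univ s) := by
    apply MeasurableSet.univ_pi
    intro j
    simp only [hs]
    split_ifs <;> exact measurableSet_Icc
  rw [h1, (PiLp.volume_preserving_ofLp (Fin d)).measure_preimage hms.nullMeasurableSet, volume_pi_pi]
  have h2 : ∀ j, volume (s j) = ENNReal.ofReal (if j = i then 2 * lam else 2 * r) := by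
    intro j
    simp only [hs]
    split_ifs
    · rw [Real.volume_Icc]; congr 1; ring
    · rw [Real.volume_Icc]; congr 1; ring
  simp only [h2]
  rw [← ENNReal.ofReal_prod_of_nonneg (fun j _ => by split_ifs <;> positivity)]
  apply ENNReal.ofReal_le_ofReal
  rw [← Finset.mul_prod_erase Finset.univ _ (Finset.mem_univ i), if_pos rfl]
  have h3 : ∏ j ∈ Finset.univ.erase i, (if j = i then 2 * lam else 2 * r) = (2 * r) ^ (d - 1) := by
    rw [Finset.prod_congr rfl (fun j hj => if_neg (Finset.ne_of_mem_erase hj)), Finset.prod_const,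
      Finset.card_erase_of_mem (Finset.mem_univ i), Finset.card_univ, Fintype.card_fin]
  rw [h3]

/-- The map which replaces the coordinate `i` by the value of `P`. -/
noncomputable def repl {d : ℕ} (i : Fin d) (P : MvPolynomial (Fin d) ℝ) (y : E d) : E d :=
  y + (pe P y - y i) • EuclideanSpace.single i (1 : ℝ)

theorem repl_apply_self {d : ℕ} (i : Fin d) (P : MvPolynomial (Fin d) ℝ) (y : E d) :
    repl i P y i = pe P y := by
  simp [repl]

theorem repl_apply_ne {d : ℕ} (i : Fin d) (P : MvPolynomial (Fin d) ℝ) (y : E d) (j : Fin d)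
    (hj : j ≠ i) : repl i P y j = y j := by
  simp [repl, hj]

/-- The derivative of `repl`. -/
noncomputable def repl' {d : ℕ} (i : Fin d) (P : MvPolynomial (Fin d) ℝ) (y : E d) : E d →L[ℝ] E d :=
  ContinuousLinearMap.id ℝ (E d) + (fderiv ℝ (pe P) y - EuclideanSpace.proj i).smulRight
    (EuclideanSpace.single i (1 : ℝ))

theorem hasStrictFDerivAt_repl {d : ℕ} (i : Fin d) (P : MvPolynomial (Fin d) ℝ) (y : E d) :
    HasStrictFDerivAt (repl i P) (repl' i P y) y := by
  have h1 : HasStrictFDerivAt (pe P) (fderiv ℝ (pe P) y) y :=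
    ((contDiff_pe P).contDiffAt (x := y)).hasStrictFDerivAt (by simp)
  have h2 : HasStrictFDerivAt (fun z : E d => z i) (EuclideanSpace.proj i : E d →L[ℝ] ℝ) y :=
    (EuclideanSpace.proj i : E d →L[ℝ] ℝ).hasStrictFDerivAt
  exact (hasStrictFDerivAt_id y).add ((h1.sub h2).smul_const _)

theorem det_repl' {d : ℕ} (i : Fin d) (P : MvPolynomial (Fin d) ℝ) (y : E d) :
    (repl' i P y).det = pe (MvPolynomial.pderiv i P) y := by
  have h1 : ((repl' i P y : E d →L[ℝ] E d) : E d →ₗ[ℝ] E d) =
      LinearMap.transvection ((fderiv ℝ (pe P) y - EuclideanSpace.proj i : E d →L[ℝ] ℝ) :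
        E d →ₗ[ℝ] ℝ) (EuclideanSpace.single i (1 : ℝ)) := by
    ext v
    simp [repl', LinearMap.transvection.apply]
  show LinearMap.det ((repl' i P y : E d →L[ℝ] E d) : E d →ₗ[ℝ] E d) = _
  rw [h1, LinearMap.transvection.det]
  have h2 : (fderiv ℝ (pe P) y) (EuclideanSpace.single i (1 : ℝ)) = pe (MvPolynomial.pderiv i P) y := by
    rw [← gr_apply, gr_pe]
  simp [h2]

theorem mult_repl {d : ℕ} (i : Fin d) (P : MvPolynomial (Fin d) ℝ) (N : ℕ) (hP : P.totalDegree ≤ N)
    (A : Set (E d)) (hA : ∀ y ∈ A, pe (MvPolynomial.pderiv i P) y ≠ 0) (z : E d) (Z : Finset (E d))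
    (hZ : ∀ y ∈ Z, y ∈ A ∧ repl i P y = z) : Z.card ≤ N := by
  classical
  rcases Z.eq_empty_or_nonempty with rfl | ⟨y0, hy0⟩
  · simp
  set f : Fin d → Polynomial ℝ := fun j => if j = i then Polynomial.X else Polynomial.C (z j) with hf
  set g : Polynomial ℝ := MvPolynomial.aeval f P - Polynomial.C (z i) with hg
  have hev : ∀ t : ℝ, (MvPolynomial.aeval f P).eval t =
      MvPolynomial.eval (fun j => if j = i then t else z j) P := by
    intro t
    have h1 : ((Polynomial.aeval t : Polynomial ℝ →ₐ[ℝ] ℝ).comp (MvPolynomial.aeval f)) =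
        MvPolynomial.aeval (fun j => if j = i then t else z j) := by
      ext j
      simp only [AlgHom.comp_apply, MvPolynomial.aeval_X, hf]
      split_ifs <;> simp
    have h2 := congrArg (fun φ => φ P) h1
    simp only [AlgHom.comp_apply, Polynomial.coe_aeval_eq_eval] at h2
    rw [h2]
    rfl
  have hdeg : g.natDegree ≤ N := by
    refine (Polynomial.natDegree_sub_le _ _).trans ?_
    rw [Polynomial.natDegree_C, max_eq_left (Nat.zero_le _)]
    have := MvPolynomial.aeval_natDegree_le (m := N) (n := 1) P hP f (fun j => by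
      simp only [hf]
      split_ifs
      · exact Polynomial.natDegree_X_le
      · rw [Polynomial.natDegree_C]; exact Nat.zero_le _)
    simpa using this
  have hcoord : ∀ y ∈ Z, ∀ j, j ≠ i → y j = z j := by
    intro y hy j hj
    rw [← (hZ y hy).2, repl_apply_ne i P y j hj]
  have hval : ∀ y ∈ Z, pe P y = z i := by
    intro y hy
    rw [← (hZ y hy).2, repl_apply_self]
  have hpt : ∀ y ∈ Z, (fun j => if j = i then y i else z j) = fun j => y j := by
    intro y hy
    funext j
    by_cases hj : j = i
    · subst hj; simp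
    · rw [if_neg hj, hcoord y hy j hj]
  have hroot : ∀ y ∈ Z, g.eval (y i) = 0 := by
    intro y hy
    rw [hg, Polynomial.eval_sub, Polynomial.eval_C, hev, hpt y hy, ← hval y hy]
    simp [pe]
  have hg0 : g ≠ 0 := by
    intro h0
    have h1 : ∀ t : ℝ, pe P (y0 + t • EuclideanSpace.single i (1 : ℝ)) = z i := by
      intro t
      have h2 : (MvPolynomial.aeval f P).eval (y0 i + t) = z i := by
        have := congrArg (Polynomial.eval (y0 i + t)) h0
        rw [hg, Polynomial.eval_sub, Polynomial.eval_C, Polynomial.eval_zero] at this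
        linarith
      rw [hev] at h2
      rw [← h2]
      unfold pe
      congr 1
      congr 1
      funext j
      by_cases hj : j = i
      · subst hj; simp
      · simp [hj, hcoord y0 hy0 j hj]
    have h3 : HasDerivAt (fun t : ℝ => pe P (y0 + t • EuclideanSpace.single i (1 : ℝ)))
        (fderiv ℝ (pe P) (y0 + (0 : ℝ) • EuclideanSpace.single i (1 : ℝ))
          (EuclideanSpace.single i (1 : ℝ))) 0 := by
      have h4 : HasDerivAt (fun t : ℝ => y0 + t • (EuclideanSpace.single i (1 : ℝ) : E d))
          (EuclideanSpace.single i (1 : ℝ)) 0 := by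
        have := ((hasDerivAt_id (0 : ℝ)).smul_const
          (EuclideanSpace.single i (1 : ℝ) : E d)).const_add y0
        simpa using this
      exact (((contDiff_pe P).differentiable (by simp) _).hasFDerivAt).comp_hasDerivAt 0 h4
    have h5 : (fun t : ℝ => pe P (y0 + t • EuclideanSpace.single i (1 : ℝ))) = fun _ => z i :=
      funext h1
    rw [h5] at h3
    have h6 := h3.unique (hasDerivAt_const 0 (z i))
    rw [zero_smul, add_zero, ← gr_apply, gr_pe] at h6
    exact hA y0 (hZ y0 hy0).1 h6
  have hinj : Set.InjOn (fun y : E d => y i) (Z : Set (E d)) := by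
    intro y hy y' hy' h
    ext j
    by_cases hj : j = i
    · subst hj; exact h
    · rw [hcoord y hy j hj, hcoord y' hy' j hj]
  have h1 : (Z.image fun y : E d => y i) ⊆ g.roots.toFinset := by
    intro t ht
    obtain ⟨y, hy, rfl⟩ := Finset.mem_image.1 ht
    rw [Multiset.mem_toFinset, Polynomial.mem_roots hg0]
    exact hroot y hy
  calc Z.card = (Z.image fun y : E d => y i).card := (Finset.card_image_of_injOn hinj).symm
    _ ≤ g.roots.toFinset.card := Finset.card_le_card h1
    _ ≤ g.roots.card := Multiset.toFinset_card_le _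
    _ ≤ g.natDegree := g.card_roots'
    _ ≤ N := hdeg

/-- The first derivative case, for polynomials. -/
theorem sub_one {d : ℕ} (i : Fin d) (r : ℝ) (hr : 0 ≤ r) (P : MvPolynomial (Fin d) ℝ) (N : ℕ)
    (hP : P.totalDegree ≤ N) (lam mu : ℝ) (hl : 0 ≤ lam) (hmu : 0 < mu) :
    volume {y : E d | ‖y‖ ≤ r ∧ |pe P y| ≤ lam ∧ mu ≤ |pe (MvPolynomial.pderiv i P) y|} ≤
      ENNReal.ofReal (N * (2 * (2 * r) ^ (d - 1)) * (lam / mu)) := by
  set A : Set (E d) := {y : E d | ‖y‖ ≤ r ∧ |pe P y| ≤ lam ∧
    mu ≤ |pe (MvPolynomial.pderiv i P) y|} with hA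
  have hcl : IsClosed A := by
    have c1 : Continuous (pe P) := (contDiff_pe P).continuous
    have c2 : Continuous (pe (MvPolynomial.pderiv i P)) := (contDiff_pe _).continuous
    exact (isClosed_le continuous_norm continuous_const).inter
      ((isClosed_le c1.abs continuous_const).inter (isClosed_le continuous_const c2.abs))
  have h1 := area_ineq (volume : Measure (E d)) (repl i P) (repl' i P) A
    {z : E d | |z i| ≤ lam ∧ ∀ j, j ≠ i → |z j| ≤ r} N mu hcl.measurableSet
    (fun y _ => hasStrictFDerivAt_repl i P y)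
    (fun y hy => by rw [det_repl']; exact hy.2.2)
    (by
      intro y hy
      refine ⟨?_, fun j hj => ?_⟩
      · rw [repl_apply_self]; exact hy.2.1
      · rw [repl_apply_ne i P y j hj]
        have := PiLp.norm_apply_le y j
        rw [Real.norm_eq_abs] at this
        exact this.trans hy.1)
    (Filter.Eventually.of_forall fun z Z hZ => mult_repl i P N hP A
      (fun y hy h0 => by
        have h2 : mu ≤ |pe (MvPolynomial.pderiv i P) y| := hy.2.2
        rw [h0, abs_zero] at h2
        linarith) z Z hZ)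
  have h2 : ENNReal.ofReal mu * volume A ≤
      ENNReal.ofReal (N * (2 * (2 * r) ^ (d - 1)) * lam) := by
    refine h1.trans ?_
    have h3 := volume_box_le i r lam hr hl
    calc (N : ℝ≥0∞) * volume {z : E d | |z i| ≤ lam ∧ ∀ j, j ≠ i → |z j| ≤ r}
        ≤ (N : ℝ≥0∞) * ENNReal.ofReal (2 * lam * (2 * r) ^ (d - 1)) := by gcongr
      _ = ENNReal.ofReal (N * (2 * (2 * r) ^ (d - 1)) * lam) := by
        rw [← ENNReal.ofReal_natCast, ← ENNReal.ofReal_mul (Nat.cast_nonneg N)]
        congr 1
        ring
  have h3 : volume A ≤ ENNReal.ofReal (N * (2 * (2 * r) ^ (d - 1)) * lam) / ENNReal.ofReal mu := by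
    rw [ENNReal.le_div_iff_mul_le (Or.inl (by simpa using hmu)) (Or.inl ENNReal.ofReal_ne_top),
      mul_comm]
    exact h2
  rw [← ENNReal.ofReal_div_of_pos hmu] at h3
  rwa [mul_div_assoc] at h3

end Pool.Agent.GNP
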