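import Pool.Agent.GNP.Slc
import Pool.Agent.GNP.N5Cov

/-!
The slice step, part a: Tonelli and the change of variables.
-/

namespace Pool.Agent.GNP

open MeasureTheory Set Pool.Agent.MP_6cbfb8_an
open scoped ENNReal Real RealInnerProductSpace ContDiff

/-- Tonelli in the coordinates `U (join x t)`, outer variable `t`. -/
theorem sla_fub {m : ℕ} (U : E (m + 1) ≃ₗᵢ[ℝ] E (m + 1)) (f : E (m + 1) → ℝ≥0∞)
    (hf : Measurable f) : ∫⁻ y, f y = ∫⁻ t : ℝ, ∫⁻ x : E m, f (U (join x t)) := by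
  rw [← lintegral_rot U f]
  exact lintegral_join5' (fun y => f (U y)) (hf.comp U.continuous.measurable)

/-- Tonelli in the coordinates `U (join v w)`, outer variable `v`. -/
theorem sla_fub' {m : ℕ} (U : E (m + 1) ≃ₗᵢ[ℝ] E (m + 1)) (f : E (m + 1) → ℝ≥0∞)
    (hf : Measurable f) : ∫⁻ y, f y = ∫⁻ v : E m, ∫⁻ w : ℝ, f (U (join v w)) := by
  rw [← lintegral_rot U f]
  exact lintegral_join5 (fun y => f (U y)) (hf.comp U.continuous.measurable)

theorem sla_meas {m : ℕ} (U : E (m + 1) ≃ₗᵢ[ℝ] E (m + 1)) {η : ℝ → E m → ℝ}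
    (hη : Continuous fun x : ℝ × E m => η x.1 x.2) :
    Continuous fun x : ℝ × E m => U (join x.2 (η x.1 x.2)) :=
  U.continuous.comp (continuous_join.comp (continuous_snd.prodMk hη))

/-- The main term of the slice step, for one cell. -/
theorem sla_main {m : ℕ} (U : E (m + 1) ≃ₗᵢ[ℝ] E (m + 1)) (z : E (m + 1)) (v0 : E m)
    (w0 C s ρ : ℝ) (η : ℝ → E m → ℝ) (hη : Continuous fun x : ℝ × E m => η x.1 x.2)
    (hcov : ∀ (v : E m) (F : ℝ → ℝ≥0∞), Measurable F →
      ∫⁻ t, F (η t v) ≤ ENNReal.ofReal C * ∫⁻ w, F w)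
    (hact : ∀ t, |η t v0 - w0| ≤ s → ∀ v, ‖v - v0‖ ≤ s → ‖U (join v (η t v)) - z‖ < ρ)
    (f : E (m + 1) → ℝ≥0∞) (hf : Measurable f) :
    ∫⁻ t in {t | |η t v0 - w0| ≤ s}, ∫⁻ v in Metric.ball v0 s, f (U (join v (η t v))) ≤
      ENNReal.ofReal C * ∫⁻ y in Metric.ball z ρ, f y := by
  classical
  set g : E (m + 1) → ℝ≥0∞ := (Metric.ball z ρ).indicator f with hg
  have hgm : Measurable g := hf.indicator measurableSet_ball
  have hc := sla_meas U hη
  have hjm : Measurable fun x : ℝ × E m => g (U (join x.2 (η x.1 x.2))) :=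
    hgm.comp hc.measurable
  have h1 : ∀ t ∈ {t | |η t v0 - w0| ≤ s}, ∫⁻ v in Metric.ball v0 s, f (U (join v (η t v))) ≤
      ∫⁻ v, g (U (join v (η t v))) := by
    intro t ht
    rw [← lintegral_indicator measurableSet_ball]
    refine lintegral_mono fun v => ?_
    by_cases hv : v ∈ Metric.ball v0 s
    · rw [indicator_of_mem hv, hg, indicator_of_mem]
      rw [Metric.mem_ball, dist_eq_norm]
      rw [Metric.mem_ball, dist_eq_norm] at hv
      exact hact t ht v hv.le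
    · rw [indicator_of_notMem hv]
      exact bot_le
  have hmeas : MeasurableSet {t | |η t v0 - w0| ≤ s} := by
    have : Continuous fun t => |η t v0 - w0| :=
      ((hη.comp (continuous_id.prodMk continuous_const)).sub continuous_const).abs
    exact (isClosed_le this continuous_const).measurableSet
  calc ∫⁻ t in {t | |η t v0 - w0| ≤ s}, ∫⁻ v in Metric.ball v0 s, f (U (join v (η t v)))
      ≤ ∫⁻ t in {t | |η t v0 - w0| ≤ s}, ∫⁻ v, g (U (join v (η t v))) :=
        setLIntegral_mono' hmeas h1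
    _ ≤ ∫⁻ t, ∫⁻ v, g (U (join v (η t v))) := setLIntegral_le_lintegral _ _
    _ = ∫⁻ v, ∫⁻ t, g (U (join v (η t v))) := lintegral_lintegral_swap hjm.aemeasurable
    _ ≤ ∫⁻ v : E m, ENNReal.ofReal C * ∫⁻ w, g (U (join v w)) := by
        refine lintegral_mono fun v => ?_
        have hF : Measurable fun w : ℝ => g (U (join v w)) :=
          hgm.comp (U.continuous.comp
            (continuous_join.comp (continuous_const.prodMk continuous_id))).measurable
        exact hcov v (fun w => g (U (join v w))) hF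
    _ = ENNReal.ofReal C * ∫⁻ v : E m, ∫⁻ w, g (U (join v w)) := by
        rw [lintegral_const_mul' _ _ ENNReal.ofReal_ne_top]
    _ = ENNReal.ofReal C * ∫⁻ y, g y := by rw [← sla_fub' U g hgm]
    _ = ENNReal.ofReal C * ∫⁻ y in Metric.ball z ρ, f y := by
        rw [hg, lintegral_indicator measurableSet_ball]

/-- The measure of the active `t`. -/
theorem sla_act {m : ℕ} (v0 : E m) (w0 C s : ℝ) (η : ℝ → E m → ℝ)
    (hcov : ∀ (v : E m) (F : ℝ → ℝ≥0∞), Measurable F →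
      ∫⁻ t, F (η t v) ≤ ENNReal.ofReal C * ∫⁻ w, F w)
    (hη : Continuous fun x : ℝ × E m => η x.1 x.2) :
    volume {t | |η t v0 - w0| ≤ s} ≤ ENNReal.ofReal C * ENNReal.ofReal (2 * s) := by
  classical
  have hm : MeasurableSet {w : ℝ | |w - w0| ≤ s} :=
    (isClosed_le (by fun_prop) continuous_const).measurableSet
  have hmeas : MeasurableSet {t | |η t v0 - w0| ≤ s} := by
    have : Continuous fun t => |η t v0 - w0| :=
      ((hη.comp (continuous_id.prodMk continuous_const)).sub continuous_const).abs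
    exact (isClosed_le this continuous_const).measurableSet
  have h1 := hcov v0 ({w : ℝ | |w - w0| ≤ s}.indicator fun _ => (1 : ℝ≥0∞))
    (measurable_const.indicator hm)
  have h2 : (fun t => {w : ℝ | |w - w0| ≤ s}.indicator (fun _ => (1 : ℝ≥0∞)) (η t v0)) =
      {t | |η t v0 - w0| ≤ s}.indicator fun _ => 1 := by
    funext t
    simp only [indicator, mem_ofPred_eq]
  rw [h2, lintegral_indicator hmeas, lintegral_indicator hm, setLIntegral_one,
    setLIntegral_one] at h1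
  refine h1.trans (mul_le_mul_right ?_ _)
  have h3 : {w : ℝ | |w - w0| ≤ s} = Icc (w0 - s) (w0 + s) := by
    ext w
    simp only [mem_ofPred_eq, mem_Icc, abs_le]
    constructor <;> intro h <;> constructor <;> linarith [h.1, h.2]
  rw [h3, Real.volume_Icc]
  refine ENNReal.ofReal_le_ofReal (by linarith)

/-- Tonelli for the slices. -/
theorem lintegral_slice {m : ℕ} (U : E (m + 1) ≃ₗᵢ[ℝ] E (m + 1)) (f : E (m + 1) → ℝ≥0∞)
    (hf : Measurable f) : ∫⁻ y, f y = ∫⁻ t : ℝ, ∫⁻ x : E m, f (U (join x t)) :=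
  sla_fub U f hf

/-- The main term of one cell, integrated over the slices where it is active. -/
theorem slc_main {m : ℕ} {A B : ℕ → ℝ} {N : ℕ} {κ1 ρ R : ℝ} {U : E (m + 1) ≃ₗᵢ[ℝ] E (m + 1)}
    {z : E (m + 1)} {q : E (m + 1) → ℝ} {a : E (m + 1) → ℂ} {η ψ : ℝ → E m → ℝ}
    {b : ℝ → E m → ℂ} {v0 : E m} {w0 t0 : ℝ} (h : Slc m A B N κ1 ρ R U z q a η ψ b v0 w0 t0)
    (G : E (m + 1) → ℝ≥0∞) (hG : Measurable G) :
    ∫⁻ t in {t : ℝ | |η t v0 - w0| ≤ κ1 * ρ}, ∫⁻ v in Metric.ball v0 (κ1 * ρ),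
        G (U (join v (η t v))) ≤
      ENNReal.ofReal (A 0 * R) * ∫⁻ y in Metric.ball z ρ, G y :=
  sla_main U z v0 w0 (A 0 * R) (κ1 * ρ) ρ η h.con h.cov (fun t ht v hv => (h.act t ht v hv).1)
    G hG

/-- The slices where the cell is active. -/
theorem slc_vol {m : ℕ} {A B : ℕ → ℝ} {N : ℕ} {κ1 ρ R : ℝ} {U : E (m + 1) ≃ₗᵢ[ℝ] E (m + 1)}
    {z : E (m + 1)} {q : E (m + 1) → ℝ} {a : E (m + 1) → ℂ} {η ψ : ℝ → E m → ℝ}
    {b : ℝ → E m → ℂ} {v0 : E m} {w0 t0 : ℝ} (h : Slc m A B N κ1 ρ R U z q a η ψ b v0 w0 t0) :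
    volume {t : ℝ | |η t v0 - w0| ≤ κ1 * ρ} ≤
      ENNReal.ofReal (A 0 * R) * ENNReal.ofReal (2 * (κ1 * ρ)) :=
  sla_act v0 w0 (A 0 * R) (κ1 * ρ) η h.cov h.con

/-- The number of the active cells to the power `p`. -/
theorem sla_card {m : ℕ} {ι : Type} [Fintype ι] (p : ℝ) (hp : 1 ≤ p) (v0 : ι → E m)
    (w0 : ι → ℝ) (C s : ℝ) (η : ι → ℝ → E m → ℝ)
    (hcov : ∀ i (v : E m) (F : ℝ → ℝ≥0∞), Measurable F →
      ∫⁻ t, F (η i t v) ≤ ENNReal.ofReal C * ∫⁻ w, F w)
    (hη : ∀ i, Continuous fun x : ℝ × E m => η i x.1 x.2) :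
    ∫⁻ t, ENNReal.ofReal
        ((Nat.card {i : ι // |η i t (v0 i) - w0 i| ≤ s} : ℝ) ^ p) ≤
      ENNReal.ofReal ((Fintype.card ι : ℝ) ^ p) *
        (ENNReal.ofReal C * ENNReal.ofReal (2 * s)) := by
  classical
  have hmeas : ∀ i, MeasurableSet {t | |η i t (v0 i) - w0 i| ≤ s} := by
    intro i
    have : Continuous fun t => |η i t (v0 i) - w0 i| :=
      (((hη i).comp (continuous_id.prodMk continuous_const)).sub continuous_const).abs
    exact (isClosed_le this continuous_const).measurableSet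
  rcases isEmpty_or_nonempty ι with he | hne
  · have h0 : ∀ t, Nat.card {i : ι // |η i t (v0 i) - w0 i| ≤ s} = 0 := by
      intro t
      rw [Nat.card_eq_zero]
      left
      exact ⟨fun x => he.false x.1⟩
    simp only [h0, Nat.cast_zero, Real.zero_rpow (by linarith : p ≠ 0), ENNReal.ofReal_zero,
      lintegral_zero]
    exact bot_le
  have hcard : (1 : ℝ) ≤ Fintype.card ι := by exact_mod_cast Fintype.card_pos
  have h1 : ∀ t, ENNReal.ofReal
      ((Nat.card {i : ι // |η i t (v0 i) - w0 i| ≤ s} : ℝ) ^ p) ≤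
      ENNReal.ofReal ((Fintype.card ι : ℝ) ^ (p - 1)) *
        ∑ i, {t | |η i t (v0 i) - w0 i| ≤ s}.indicator (fun _ => (1 : ℝ≥0∞)) t := by
    intro t
    have h2 : (∑ i, {t | |η i t (v0 i) - w0 i| ≤ s}.indicator (fun _ => (1 : ℝ≥0∞)) t) =
        ENNReal.ofReal (Nat.card {i : ι // |η i t (v0 i) - w0 i| ≤ s} : ℝ) := by
      rw [ENNReal.ofReal_natCast, Nat.card_eq_fintype_card, Fintype.card_subtype]
      simp only [indicator, mem_ofPred_eq]
      rw [Finset.sum_ite]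
      simp
    rw [h2, ← ENNReal.ofReal_mul (by positivity)]
    refine ENNReal.ofReal_le_ofReal ?_
    set k : ℕ := Nat.card {i : ι // |η i t (v0 i) - w0 i| ≤ s} with hk
    have hk1 : k ≤ Fintype.card ι := by
      rw [hk, Nat.card_eq_fintype_card]
      exact Fintype.card_subtype_le _
    rcases Nat.eq_zero_or_pos k with h0 | h0
    · rw [h0, Nat.cast_zero, Real.zero_rpow (by linarith), mul_zero]
    · have hkr : (0 : ℝ) < k := by exact_mod_cast h0
      calc (k : ℝ) ^ p = (k : ℝ) ^ (p - 1) * k := by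
            conv_rhs => rw [← Real.rpow_one (k : ℝ)]
            rw [Real.rpow_one, ← Real.rpow_add_one hkr.ne']
            congr 1
            ring
        _ ≤ (Fintype.card ι : ℝ) ^ (p - 1) * k := by
            refine mul_le_mul_of_nonneg_right ?_ hkr.le
            exact Real.rpow_le_rpow hkr.le (by exact_mod_cast hk1) (by linarith)
  calc ∫⁻ t, ENNReal.ofReal ((Nat.card {i : ι // |η i t (v0 i) - w0 i| ≤ s} : ℝ) ^ p)
      ≤ ∫⁻ t, ENNReal.ofReal ((Fintype.card ι : ℝ) ^ (p - 1)) *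
        ∑ i, {t | |η i t (v0 i) - w0 i| ≤ s}.indicator (fun _ => (1 : ℝ≥0∞)) t :=
        lintegral_mono h1
    _ = ENNReal.ofReal ((Fintype.card ι : ℝ) ^ (p - 1)) *
        ∑ i, volume {t | |η i t (v0 i) - w0 i| ≤ s} := by
        rw [lintegral_const_mul' _ _ ENNReal.ofReal_ne_top,
          lintegral_finsetSum _ fun i _ => measurable_const.indicator (hmeas i)]
        congr 1
        refine Finset.sum_congr rfl fun i _ => ?_
        rw [lintegral_indicator (hmeas i), setLIntegral_one]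
    _ ≤ ENNReal.ofReal ((Fintype.card ι : ℝ) ^ (p - 1)) *
        ∑ _i : ι, ENNReal.ofReal C * ENNReal.ofReal (2 * s) := by
        refine mul_le_mul_right (Finset.sum_le_sum fun i _ => ?_) _
        exact sla_act (v0 i) (w0 i) C s (η i) (hcov i) (hη i)
    _ = ENNReal.ofReal ((Fintype.card ι : ℝ) ^ p) *
        (ENNReal.ofReal C * ENNReal.ofReal (2 * s)) := by
        rw [Finset.sum_const, Finset.card_univ, nsmul_eq_mul, ← mul_assoc]
        congr 1
        rw [← ENNReal.ofReal_natCast, ← ENNReal.ofReal_mul (by positivity)]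
        congr 1
        rw [← Real.rpow_add_one (by linarith)]
        congr 1
        ring

/-- The number of the active cells to the power `p`, for slices. -/
theorem slc_card {m : ℕ} {ι : Type} [Fintype ι] (p : ℝ) (hp : 1 ≤ p) {A B : ℕ → ℝ} {N : ℕ}
    {κ1 ρ R : ℝ} {U : E (m + 1) ≃ₗᵢ[ℝ] E (m + 1)}
    {z : ι → E (m + 1)} {q : ι → E (m + 1) → ℝ} {a : ι → E (m + 1) → ℂ}
    {η ψ : ι → ℝ → E m → ℝ} {b : ι → ℝ → E m → ℂ} {v0 : ι → E m} {w0 t0 : ι → ℝ}
    (h : ∀ i, Slc m A B N κ1 ρ R U (z i) (q i) (a i) (η i) (ψ i) (b i) (v0 i) (w0 i) (t0 i)) :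
    ∫⁻ t, ENNReal.ofReal
        ((Nat.card {i : ι // |η i t (v0 i) - w0 i| ≤ κ1 * ρ} : ℝ) ^ p) ≤
      ENNReal.ofReal ((Fintype.card ι : ℝ) ^ p) *
        (ENNReal.ofReal (A 0 * R) * ENNReal.ofReal (2 * (κ1 * ρ))) :=
  sla_card p hp v0 w0 (A 0 * R) (κ1 * ρ) η (fun i => (h i).cov) fun i => (h i).con

end Pool.Agent.GNP
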