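import Pool.Agent.GNP.UPU
import Pool.Agent.GNP.CHU

/-!
From the charts to the whole sphere, for every smooth phase: a bound which depends on the
frequency. Families of phases.
-/

namespace Pool.Agent.GNP

open MeasureTheory Set Pool.Agent.MP_6cbfb8_an
open scoped ENNReal Real RealInnerProductSpace ContDiff

theorem sp_bd {n : ℕ} {F : Type*} [NormedAddCommGroup F] [NormedSpace ℝ F] {f : E n → F}
    (hf : ContDiff ℝ ∞ f) : ∃ B : ℕ → ℝ, (∀ k, 0 ≤ B k) ∧
      ∀ k x, ‖x‖ = 1 → ‖iteratedFDeriv ℝ k f x‖ ≤ B k := by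
  have h : ∀ k : ℕ, ∃ C : ℝ, ∀ x ∈ Metric.sphere (0 : E n) 1, ‖iteratedFDeriv ℝ k f x‖ ≤ C := by
    intro k
    exact (isCompact_sphere (0 : E n) 1).exists_bound_of_continuousOn
      (hf.continuous_iteratedFDeriv (m := k) (by exact_mod_cast le_top)).continuousOn
  choose B hB using h
  refine ⟨fun k => |B k|, fun k => abs_nonneg _, fun k x hx => ?_⟩
  exact (hB k x (mem_sphere_zero_iff_norm.2 hx)).trans (le_abs_self _)

/-- Smooth amplitudes with derivatives bounded on the sphere. -/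
structure Bam (n : ℕ) (B : ℕ → ℝ) (a : E n → ℂ) : Prop where
  sm : ContDiff ℝ ∞ a
  bd : ∀ k x, ‖x‖ = 1 → ‖iteratedFDeriv ℝ k a x‖ ≤ B k

theorem Bam.comp_iso {n : ℕ} {B : ℕ → ℝ} {a : E n → ℂ} (h : Bam n B a) (R : E n ≃ₗᵢ[ℝ] E n) :
    Bam n B fun x => a (R x) where
  sm := h.sm.comp R.contDiff
  bd := by
    intro k x hx
    have h1 := R.norm_iteratedFDeriv_comp_right (𝕜 := ℝ) a x k
    have h2 : iteratedFDeriv ℝ k (fun x => a (R x)) x = iteratedFDeriv ℝ k (a ∘ R) x := rfl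
    rw [h2, h1]
    exact h.bd k (R x) (by rwa [LinearIsometryEquiv.norm_map])

theorem Bam_pw {d : ℕ} (B : ℕ → ℝ) : ∃ B' : ℕ → ℝ, ∀ a : E (d + 1) → ℂ, Bam (d + 1) B a →
    ∀ i, Bam (d + 1) B' fun x => (pw i x : ℂ) * a x := by
  have h1 : ∀ i : Fin (d + 1) × Bool, ContDiff ℝ ∞ fun x : E (d + 1) => (pw i x : ℂ) := fun i =>
    Complex.ofRealCLM.contDiff.comp (contDiff_pw i)
  choose Q hQ0 hQ using fun i : Fin (d + 1) × Bool => sp_bd (h1 i)
  refine ⟨fun k => ∑ i, ∑ m ∈ Finset.range (k + 1), (k.choose m : ℝ) * Q i m * |B (k - m)|,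
    fun a ha i => ⟨(h1 i).mul ha.sm, fun k x hx => ?_⟩⟩
  have h2 := norm_iteratedFDeriv_mul_le (𝕜 := ℝ) (n := k) (N := ∞)
    (f := fun x : E (d + 1) => (pw i x : ℂ)) (g := a) (h1 i) ha.sm x (by exact_mod_cast le_top)
  refine h2.trans ?_
  have h3 : ∑ m ∈ Finset.range (k + 1), (k.choose m : ℝ) *
      ‖iteratedFDeriv ℝ m (fun x : E (d + 1) => (pw i x : ℂ)) x‖ * ‖iteratedFDeriv ℝ (k - m) a x‖ ≤
      ∑ m ∈ Finset.range (k + 1), (k.choose m : ℝ) * Q i m * |B (k - m)| := by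
    refine Finset.sum_le_sum fun m _ => ?_
    refine mul_le_mul (mul_le_mul_of_nonneg_left (hQ i m x hx) (Nat.cast_nonneg _))
      ((ha.bd _ x hx).trans (le_abs_self _)) (norm_nonneg _) ?_
    exact mul_nonneg (Nat.cast_nonneg _) (hQ0 i m)
  refine h3.trans ?_
  exact Finset.single_le_sum (f := fun i => ∑ m ∈ Finset.range (k + 1),
    (k.choose m : ℝ) * Q i m * |B (k - m)|)
    (fun i _ => Finset.sum_nonneg fun m _ => mul_nonneg
      (mul_nonneg (Nat.cast_nonneg _) (hQ0 i m)) (abs_nonneg _)) (Finset.mem_univ i)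

/-- The core statement in the chart, with the bound `G c`. -/
def CoreG (d : ℕ) (p : ℝ) (G : ℝ → ℝ≥0∞) : Prop :=
  ∀ (A : ℕ → ℝ) (r r' b : ℝ), 0 < r → r < r' → 0 < b → ∃ K : ℝ≥0∞, K ≠ ⊤ ∧
    ∀ (Φ h : E d → ℝ) (a : E d → ℂ), Sm d A Φ → Sm d A h → Amp d A r a →
      (∀ y, ‖y‖ ≤ r' → ∀ v, ⟪Hs h y v, v⟫ ≤ -(b * ‖v‖ ^ 2)) → ∀ c : ℝ,
      ∫⁻ s : ℝ, ∫⁻ x, ‖uu a (ph Φ h c s) x‖ₑ ^ p ≤ K * G c

theorem sp_sum {n : ℕ} {ι : Type*} (s : Finset ι) (g : ι → E n → ℂ)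
    (hg : ∀ i ∈ s, Continuous (g i)) {f : E n → ℂ} (hs : ∀ x : S n, f x = ∑ i ∈ s, g i x)
    {p : ℝ} (hp : 1 ≤ p) : ∫⁻ ξ, ‖extn f ξ‖ₑ ^ p ≤ (s.card : ℝ≥0∞) ^ (p - 1) *
      ∑ i ∈ s, ∫⁻ ξ, ‖extn (g i) ξ‖ₑ ^ p := by
  have hi : ∀ i ∈ s, ∀ ξ : E n, Integrable (fun x : S n => g i x *
      Complex.exp (((-(2 * π * inner ℝ (x : E n) ξ) : ℝ) : ℂ) * Complex.I)) (sm n) := by
    intro i hi ξ
    have h1 : Continuous fun x : S n => (inner ℝ (x : E n) ξ : ℝ) :=
      continuous_subtype_val.inner continuous_const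
    have h2 : Continuous fun x : S n => g i (x : E n) := (hg i hi).comp continuous_subtype_val
    have h3 : Continuous fun x : S n => g i x *
      Complex.exp (((-(2 * π * inner ℝ (x : E n) ξ) : ℝ) : ℂ) * Complex.I) := h2.mul (by fun_prop)
    exact h3.integrable_of_hasCompactSupport (HasCompactSupport.of_compactSpace _)
  have h1 : ∀ ξ, extn f ξ = ∑ i ∈ s, extn (g i) ξ := by
    intro ξ
    unfold extn
    rw [← integral_finsetSum s fun i hi' => hi i hi' ξ]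
    refine integral_congr_ae (Filter.Eventually.of_forall fun x => ?_)
    simp only [Finset.sum_mul, hs x]
  calc ∫⁻ ξ, ‖extn f ξ‖ₑ ^ p
      ≤ ∫⁻ ξ, (s.card : ℝ≥0∞) ^ (p - 1) * ∑ i ∈ s, ‖extn (g i) ξ‖ₑ ^ p := by
        refine lintegral_mono fun ξ => ?_
        rw [h1]
        refine (ENNReal.rpow_le_rpow (enorm_sum_le _ _) (by linarith)).trans ?_
        exact ENNReal.rpow_sum_le_const_mul_sum_rpow s _ hp
    _ = _ := by
        rw [lintegral_const_mul', lintegral_finsetSum']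
        · exact fun i hi => ((measurable_extn _ (hg i hi).measurable).enorm.pow_const p).aemeasurable
        · exact ENNReal.rpow_ne_top_of_nonneg (by linarith) (by simp)

/-- From the chart to the sphere. -/
theorem sphere_of_core (d : ℕ) (hd : 1 ≤ d) (p : ℝ) (hp : 1 ≤ p) (G : ℝ → ℝ≥0∞)
    (hcore : CoreG d p G) (B B1 : ℕ → ℝ) : ∃ C : ℝ≥0∞, C ≠ ⊤ ∧ ∀ φ, Bl (d + 1) B φ →
      ∀ a, Bam (d + 1) B1 a → ∀ c : ℝ,
        ∫⁻ ξ, ‖extn (fun x => a x * Complex.exp (((c * φ x : ℝ) : ℂ) * Complex.I)) ξ‖ₑ ^ p ≤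
          C * G c := by
  set δ : ℝ := 1 / (2 * √((d : ℝ) + 1)) with hδ
  have hs1 : 1 ≤ √((d : ℝ) + 1) := by
    rw [Real.one_le_sqrt]
    have : (0 : ℝ) ≤ d := Nat.cast_nonneg d
    linarith
  have hδ0 : 0 < δ := by positivity
  have hδ1 : δ < 1 := by
    rw [hδ, div_lt_one (by positivity)]
    linarith
  set r : ℝ := √(1 - δ ^ 2) with hr
  have hr0 : 0 < r := Real.sqrt_pos.mpr (by nlinarith)
  have hr1 : r < 1 := by
    rw [hr, Real.sqrt_lt' one_pos]
    nlinarith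
  obtain ⟨r', hrr', hr'1⟩ := exists_between hr1
  obtain ⟨ρ, hr'ρ, hρ1⟩ := exists_between hr'1
  obtain ⟨B2, hB2⟩ := Bam_pw (d := d) B1
  obtain ⟨A, h, hh, hhs, hA⟩ := chart_U d hd r ρ (hrr'.trans hr'ρ) hρ1 fun k => max (B k) (B2 k)
  obtain ⟨K, hK, hcore⟩ := hcore A r r' 1 hr0 hrr' one_pos
  have hdef : ∀ y, ‖y‖ ≤ r' → ∀ v, ⟪Hs h y v, v⟫ ≤ -(1 * ‖v‖ ^ 2) := by
    intro y hy v
    rw [Hs_congr_ball hhs (lt_of_le_of_lt hy hr'ρ), one_mul]
    exact Hs_hs y v (lt_of_le_of_lt hy hr'1)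
  set N : ℝ≥0∞ := ((Finset.univ : Finset (Fin (d + 1) × Bool)).card : ℝ≥0∞) with hN
  have hNt : N ≠ ⊤ := ENNReal.natCast_ne_top _
  refine ⟨N ^ (p - 1) * (N * K), ?_, fun φ hφ a ha c => ?_⟩
  · exact ENNReal.mul_ne_top (ENNReal.rpow_ne_top_of_nonneg (by linarith) hNt)
      (ENNReal.mul_ne_top hNt hK)
  · have hpc := hφ.sm.continuous
    have hac := ha.sm.continuous
    refine (sp_sum Finset.univ (fun i x => ((pw i x : ℂ) * a x) *
      Complex.exp (((c * φ x : ℝ) : ℂ) * Complex.I)) (fun i _ => ?_) (fun x => ?_) hp).trans ?_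
    · have := (contDiff_pw (d := d) i).continuous
      fun_prop
    · have hx : ‖(x : E (d + 1))‖ = 1 := mem_sphere_zero_iff_norm.mp x.2
      rw [← Finset.sum_mul, ← Finset.sum_mul, ← Complex.ofReal_sum, pw_sum _ hx, Complex.ofReal_one,
        one_mul]
    · rw [mul_assoc]
      refine mul_le_mul_right ?_ _
      rw [mul_assoc, hN, ← nsmul_eq_mul, ← Finset.sum_const]
      refine Finset.sum_le_sum fun i _ => ?_
      obtain ⟨R, σ, hR, -⟩ := exists_swap i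
      rw [← lint_extn_iso _ R]
      have hb1 := hφ.comp_iso R
      have hb2 := (hB2 a ha i).comp_iso R
      obtain ⟨Φ, a', hΦ, ha', hΦs, hI⟩ := hA (fun x => φ (R x))
        (fun x => (pw i (R x) : ℂ) * a (R x)) (fun x _ => hb1.sm.contDiffAt)
        (fun x _ => hb2.sm.contDiffAt) (fun k x hx => (hb1.bd k x hx).trans (le_max_left _ _))
        (fun k x hx => (hb2.bd k x hx).trans (le_max_right _ _)) (by
          intro y t hyt hc
          by_cases hne : pw i (R (join y t)) = 0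
          · rw [hne, Complex.ofReal_zero, zero_mul]
          · exfalso
            have k2 := pw_supp i _ hne
            rw [hR] at k2
            have k3 : (join y t : E (d + 1)) (Fin.last d) = t := by simp [join]
            rw [k3, ← hδ] at k2
            rcases hc with hc | hc
            · have h5 : ‖y‖ ≤ r := by
                rw [hr]
                apply Real.le_sqrt_of_sq_le
                nlinarith
              linarith
            · linarith)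
      exact (hI p (by linarith) c).trans (hcore Φ h a' hΦ hh ha' hdef c)

/-- Combinations of smooth functions with coefficients at most one in absolute value. -/
theorem Bl.comb {n N : ℕ} {B : ℕ → ℝ} {φ : Fin N → E n → ℝ} (hφ : ∀ j, Bl n B (φ j))
    (c : Fin N → ℝ) (hc : ∀ j, |c j| ≤ 1) : Bl n (fun k => ∑ _j : Fin N, |B k|)
      fun x => ∑ j, c j * φ j x where
  sm := ContDiff.sum fun j _ => contDiff_const.mul (hφ j).sm
  bd := by
    intro k x hx
    have h4 : iteratedFDeriv ℝ k (fun x : E n => ∑ j, c j * φ j x) x =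
        ∑ j, c j • iteratedFDeriv ℝ k (φ j) x := by
      rw [iteratedFDeriv_fun_sum_apply fun j _ => ((contDiff_const.mul (hφ j).sm).of_le
        (by exact_mod_cast le_top)).contDiffAt]
      refine Finset.sum_congr rfl fun j _ => ?_
      exact iteratedFDeriv_const_smul_apply' (a := c j) (f := φ j) (x := x)
        ((((hφ j).sm).of_le (by exact_mod_cast le_top)).contDiffAt)
    rw [h4]
    refine (norm_sum_le _ _).trans (Finset.sum_le_sum fun j _ => ?_)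
    rw [norm_smul, Real.norm_eq_abs]
    calc |c j| * ‖iteratedFDeriv ℝ k (φ j) x‖ ≤ 1 * |B k| :=
          mul_le_mul (hc j) (((hφ j).bd k x hx).trans (le_abs_self _)) (norm_nonneg _) zero_le_one
      _ = |B k| := one_mul _

/-- From the chart to the sphere, for families of phases. -/
theorem sphere_family (d : ℕ) (hd : 1 ≤ d) (p : ℝ) (hp : 1 ≤ p) (G : ℝ → ℝ≥0∞)
    (hcore : CoreG d p G) (N : ℕ) (B B1 : ℕ → ℝ) : ∃ C : ℝ≥0∞, C ≠ ⊤ ∧
      ∀ φ : Fin N → E (d + 1) → ℝ, (∀ j, Bl (d + 1) B (φ j)) →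
      ∀ a, Bam (d + 1) B1 a → ∀ c : Fin N → ℝ,
        ∫⁻ ξ, ‖extn (fun x => a x *
          Complex.exp (((∑ j, c j * φ j x : ℝ) : ℂ) * Complex.I)) ξ‖ₑ ^ p ≤ C * G ‖c‖ := by
  obtain ⟨C, hC, h⟩ := sphere_of_core d hd p hp G hcore (fun k => ∑ _j : Fin N, |B k|) B1
  refine ⟨C, hC, fun φ hφ a ha c => ?_⟩
  have h1 : ∀ j, |c j / ‖c‖| ≤ 1 := by
    intro j
    rw [abs_div, abs_norm]
    exact div_le_one_of_le₀ (norm_le_pi_norm c j) (norm_nonneg _)
  have h2 : ∀ x, ‖c‖ * ∑ j, c j / ‖c‖ * φ j x = ∑ j, c j * φ j x := by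
    intro x
    rw [Finset.mul_sum]
    refine Finset.sum_congr rfl fun j _ => ?_
    by_cases h0 : ‖c‖ = 0
    · have h3 : c = 0 := norm_eq_zero.1 h0
      simp [h3]
    · field_simp
  have h3 := h _ (Bl.comb hφ (fun j => c j / ‖c‖) h1) a ha ‖c‖
  simp only [h2] at h3
  exact h3

end Pool.Agent.GNP
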