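import Pool.Agent.GNP.SP
import Pool.Agent.GNP.C4

/-!
Every phase in `R^3` and `R^4`: the sphere. Phases and amplitudes need only be smooth at the points
of the sphere.
-/

namespace Pool.Agent.GNP

open MeasureTheory Set Pool.Agent.MP_6cbfb8_an
open scoped ENNReal Real RealInnerProductSpace ContDiff

/-- Smooth at the points of the sphere, with bounds for the derivatives there. -/
structure Sb (n : ℕ) {F : Type} [NormedAddCommGroup F] [NormedSpace ℝ F] (B : ℕ → ℝ)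
    (f : E n → F) : Prop where
  sm : ∀ x, ‖x‖ = 1 → ContDiffAt ℝ ∞ f x
  bd : ∀ k x, ‖x‖ = 1 → ‖iteratedFDeriv ℝ k f x‖ ≤ B k

theorem Sb.comp_iso {n : ℕ} {F : Type} [NormedAddCommGroup F] [NormedSpace ℝ F] {B : ℕ → ℝ}
    {f : E n → F} (h : Sb n B f) (R : E n ≃ₗᵢ[ℝ] E n) : Sb n B fun x => f (R x) where
  sm := fun x hx => ContDiffAt.comp (g := f) x (h.sm (R x) (by rwa [LinearIsometryEquiv.norm_map]))
    R.contDiff.contDiffAt
  bd := by
    intro k x hx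
    have h1 := R.norm_iteratedFDeriv_comp_right (𝕜 := ℝ) f x k
    have h2 : iteratedFDeriv ℝ k (fun x => f (R x)) x = iteratedFDeriv ℝ k (f ∘ R) x := rfl
    rw [h2, h1]
    exact h.bd k (R x) (by rwa [LinearIsometryEquiv.norm_map])

theorem Sb.mono {n : ℕ} {F : Type} [NormedAddCommGroup F] [NormedSpace ℝ F] {B B' : ℕ → ℝ}
    {f : E n → F} (h : Sb n B f) (hB : ∀ k, B k ≤ B' k) : Sb n B' f :=
  ⟨h.sm, fun k x hx => (h.bd k x hx).trans (hB k)⟩

theorem Sb.continuousOn {n : ℕ} {F : Type} [NormedAddCommGroup F] [NormedSpace ℝ F] {B : ℕ → ℝ}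
    {f : E n → F} (h : Sb n B f) : ContinuousOn f (Metric.sphere (0 : E n) 1) := fun x hx =>
  (h.sm x (by simpa using hx)).continuousAt.continuousWithinAt

theorem Sb_pw {d : ℕ} (B : ℕ → ℝ) : ∃ B' : ℕ → ℝ, ∀ a : E (d + 1) → ℂ, Sb (d + 1) B a →
    ∀ i, Sb (d + 1) B' fun x => (pw i x : ℂ) * a x := by
  have h1 : ∀ i : Fin (d + 1) × Bool, ContDiff ℝ ∞ fun x : E (d + 1) => (pw i x : ℂ) := fun i =>
    Complex.ofRealCLM.contDiff.comp (contDiff_pw i)
  choose Q hQ0 hQ using fun i : Fin (d + 1) × Bool => sp_bd (contDiff_pw (d := d) i)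
  refine ⟨fun k => ∑ i, ∑ m ∈ Finset.range (k + 1), (k.choose m : ℝ) * Q i m * |B (k - m)|,
    fun a ha i => ⟨fun x hx => (h1 i).contDiffAt.mul (ha.sm x hx), fun k x hx => ?_⟩⟩
  have h2 := chu_smul (η := fun x : E (d + 1) => pw i x) (f := a)
    (contDiff_pw i).contDiffAt (ha.sm x hx) k
  have h0 : (fun x : E (d + 1) => (pw i x : ℂ) * a x) = fun x => pw i x • a x := by
    funext x
    exact (Complex.real_smul).symm
  rw [h0]
  refine h2.trans ?_
  have h3 : ∑ m ∈ Finset.range (k + 1), (k.choose m : ℝ) *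
      ‖iteratedFDeriv ℝ m (fun x : E (d + 1) => pw i x) x‖ * ‖iteratedFDeriv ℝ (k - m) a x‖ ≤
      ∑ m ∈ Finset.range (k + 1), (k.choose m : ℝ) * Q i m * |B (k - m)| := by
    refine Finset.sum_le_sum fun m _ => ?_
    refine mul_le_mul (mul_le_mul_of_nonneg_left (hQ i m x hx) (Nat.cast_nonneg _))
      ((ha.bd _ x hx).trans (le_abs_self _)) (norm_nonneg _) ?_
    exact mul_nonneg (Nat.cast_nonneg _) (hQ0 i m)
  refine h3.trans ?_
  exact Finset.single_le_sum (f := fun i => ∑ m ∈ Finset.range (k + 1),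
    (k.choose m : ℝ) * Q i m * |B (k - m)|)
    (fun i _ => Finset.sum_nonneg fun m _ => mul_nonneg
      (mul_nonneg (Nat.cast_nonneg _) (hQ0 i m)) (abs_nonneg _)) (Finset.mem_univ i)

theorem sp_sum_on {n : ℕ} {ι : Type*} (s : Finset ι) (g : ι → E n → ℂ)
    (hg : ∀ i, ContinuousOn (g i) (Metric.sphere (0 : E n) 1)) {f : E n → ℂ}
    (hs : ∀ x : S n, f x = ∑ i ∈ s, g i x) {p : ℝ} (hp : 1 ≤ p) :
    ∫⁻ ξ, ‖extn f ξ‖ₑ ^ p ≤ (s.card : ℝ≥0∞) ^ (p - 1) * ∑ i ∈ s, ∫⁻ ξ, ‖extn (g i) ξ‖ₑ ^ p := by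
  choose g' hg' hgg using fun i => chu_tietze (g i) (hg i)
  have h1 := sp_sum s g' (fun i _ => hg' i) (f := f) (fun x => by
    rw [hs x]
    refine Finset.sum_congr rfl fun i _ => ?_
    exact (hgg i x (by simp)).symm) hp
  refine h1.trans (le_of_eq ?_)
  congr 1
  refine Finset.sum_congr rfl fun i _ => lintegral_congr fun ξ => ?_
  congr 2
  exact extn_congr (fun x => hgg i x (by simp)) ξ

/-- From the chart to the sphere, for phases and amplitudes smooth at the points of the sphere. -/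
theorem sphere_of_core_at (d : ℕ) (hd : 1 ≤ d) (p : ℝ) (hp : 1 ≤ p) (G : ℝ → ℝ≥0∞)
    (hcore : CoreG d p G) (B B1 : ℕ → ℝ) : ∃ C : ℝ≥0∞, C ≠ ⊤ ∧ ∀ φ : E (d + 1) → ℝ,
      Sb (d + 1) B φ → ∀ a : E (d + 1) → ℂ, Sb (d + 1) B1 a → ∀ c : ℝ,
        ∫⁻ ξ, ‖extn (fun x => a x * Complex.exp (((c * φ x : ℝ) : ℂ) * Complex.I)) ξ‖ₑ ^ p ≤
          C * G c := by
  set δ : ℝ := 1 / (2 * √((d : ℝ) + 1)) with hδ
  have hs1 : 1 ≤ √((d : ℝ) + 1) := by
    rw [Real.one_le_sqrt]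
    have : (0 : ℝ) ≤ d := Nat.cast_nonneg d
    linarith
  have hδ0 : 0 < δ := by positivity
  have hδ1 : δ < 1 := by
    rw [hδ, div_lt_one (by positivity)]
    linarith
  set r : ℝ := √(1 - δ ^ 2) with hr
  have hr0 : 0 < r := Real.sqrt_pos.mpr (by nlinarith)
  have hr1 : r < 1 := by
    rw [hr, Real.sqrt_lt' one_pos]
    nlinarith
  obtain ⟨r', hrr', hr'1⟩ := exists_between hr1
  obtain ⟨ρ, hr'ρ, hρ1⟩ := exists_between hr'1
  obtain ⟨B2, hB2⟩ := Sb_pw (d := d) B1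
  obtain ⟨A, h, hh, hhs, hA⟩ := chart_U d hd r ρ (hrr'.trans hr'ρ) hρ1 fun k => max (B k) (B2 k)
  obtain ⟨K, hK, hcore⟩ := hcore A r r' 1 hr0 hrr' one_pos
  have hdef : ∀ y, ‖y‖ ≤ r' → ∀ v, ⟪Hs h y v, v⟫ ≤ -(1 * ‖v‖ ^ 2) := by
    intro y hy v
    rw [Hs_congr_ball hhs (lt_of_le_of_lt hy hr'ρ), one_mul]
    exact Hs_hs y v (lt_of_le_of_lt hy hr'1)
  set N : ℝ≥0∞ := ((Finset.univ : Finset (Fin (d + 1) × Bool)).card : ℝ≥0∞) with hN
  have hNt : N ≠ ⊤ := ENNReal.natCast_ne_top _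
  refine ⟨N ^ (p - 1) * (N * K), ?_, fun φ hφ a ha c => ?_⟩
  · exact ENNReal.mul_ne_top (ENNReal.rpow_ne_top_of_nonneg (by linarith) hNt)
      (ENNReal.mul_ne_top hNt hK)
  · have hpc := hφ.continuousOn
    have hac := ha.continuousOn
    refine (sp_sum_on Finset.univ (fun i x => ((pw i x : ℂ) * a x) *
      Complex.exp (((c * φ x : ℝ) : ℂ) * Complex.I)) (fun i => ?_) (fun x => ?_) hp).trans ?_
    · have := (contDiff_pw (d := d) i).continuous.continuousOn (s := Metric.sphere (0 : E (d + 1)) 1)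
      fun_prop
    · have hx : ‖(x : E (d + 1))‖ = 1 := mem_sphere_zero_iff_norm.mp x.2
      rw [← Finset.sum_mul, ← Finset.sum_mul, ← Complex.ofReal_sum, pw_sum _ hx, Complex.ofReal_one,
        one_mul]
    · rw [mul_assoc]
      refine mul_le_mul_right ?_ _
      rw [mul_assoc, hN, ← nsmul_eq_mul, ← Finset.sum_const]
      refine Finset.sum_le_sum fun i _ => ?_
      obtain ⟨R, σ, hR, -⟩ := exists_swap i
      rw [← lint_extn_iso _ R]
      have hb1 := hφ.comp_iso R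
      have hb2 := (hB2 a ha i).comp_iso R
      obtain ⟨Φ, a', hΦ, ha', hΦs, hI⟩ := hA (fun x => φ (R x))
        (fun x => (pw i (R x) : ℂ) * a (R x)) hb1.sm hb2.sm
        (fun k x hx => (hb1.bd k x hx).trans (le_max_left _ _))
        (fun k x hx => (hb2.bd k x hx).trans (le_max_right _ _)) (by
          intro y t hyt hc
          by_cases hne : pw i (R (join y t)) = 0
          · rw [hne, Complex.ofReal_zero, zero_mul]
          · exfalso
            have k2 := pw_supp i _ hne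
            rw [hR] at k2
            have k3 : (join y t : E (d + 1)) (Fin.last d) = t := by simp [join]
            rw [k3, ← hδ] at k2
            rcases hc with hc | hc
            · have h5 : ‖y‖ ≤ r := by
                rw [hr]
                apply Real.le_sqrt_of_sq_le
                nlinarith
              linarith
            · linarith)
      exact (hI p (by linarith) c).trans (hcore Φ h a' hΦ hh ha' hdef c)

/-- Combinations with coefficients at most one in absolute value. -/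
theorem Sb.comb {n N : ℕ} {B : ℕ → ℝ} {φ : Fin N → E n → ℝ} (hφ : ∀ j, Sb n B (φ j))
    (c : Fin N → ℝ) (hc : ∀ j, |c j| ≤ 1) : Sb n (fun k => ∑ _j : Fin N, |B k|)
      fun x => ∑ j, c j * φ j x where
  sm := fun x hx => ContDiffAt.sum fun j _ => contDiffAt_const.mul ((hφ j).sm x hx)
  bd := by
    intro k x hx
    have h4 : iteratedFDeriv ℝ k (fun x : E n => ∑ j, c j * φ j x) x =
        ∑ j, c j • iteratedFDeriv ℝ k (φ j) x := by
      rw [iteratedFDeriv_fun_sum_apply fun j _ => ((contDiffAt_const.mul ((hφ j).sm x hx)).of_le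
        (by exact_mod_cast le_top))]
      refine Finset.sum_congr rfl fun j _ => ?_
      exact iteratedFDeriv_const_smul_apply' (a := c j) (f := φ j) (x := x)
        (((hφ j).sm x hx).of_le (by exact_mod_cast le_top))
    rw [h4]
    refine (norm_sum_le _ _).trans (Finset.sum_le_sum fun j _ => ?_)
    rw [norm_smul, Real.norm_eq_abs]
    calc |c j| * ‖iteratedFDeriv ℝ k (φ j) x‖ ≤ 1 * |B k| :=
          mul_le_mul (hc j) (((hφ j).bd k x hx).trans (le_abs_self _)) (norm_nonneg _) zero_le_one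
      _ = |B k| := one_mul _

/-- Families of phases. -/
theorem sphere_family_at (d : ℕ) (hd : 1 ≤ d) (p : ℝ) (hp : 1 ≤ p) (G : ℝ → ℝ≥0∞)
    (hcore : CoreG d p G) (N : ℕ) (B B1 : ℕ → ℝ) : ∃ C : ℝ≥0∞, C ≠ ⊤ ∧
      ∀ φ : Fin N → E (d + 1) → ℝ, (∀ j, Sb (d + 1) B (φ j)) →
      ∀ a : E (d + 1) → ℂ, Sb (d + 1) B1 a → ∀ c : Fin N → ℝ,
        ∫⁻ ξ, ‖extn (fun x => a x *
          Complex.exp (((∑ j, c j * φ j x : ℝ) : ℂ) * Complex.I)) ξ‖ₑ ^ p ≤ C * G ‖c‖ := by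
  obtain ⟨C, hC, h⟩ := sphere_of_core_at d hd p hp G hcore (fun k => ∑ _j : Fin N, |B k|) B1
  refine ⟨C, hC, fun φ hφ a ha c => ?_⟩
  have h1 : ∀ j, |c j / ‖c‖| ≤ 1 := by
    intro j
    rw [abs_div, abs_norm]
    exact div_le_one_of_le₀ (norm_le_pi_norm c j) (norm_nonneg _)
  have h2 : ∀ x, ‖c‖ * ∑ j, c j / ‖c‖ * φ j x = ∑ j, c j * φ j x := by
    intro x
    rw [Finset.mul_sum]
    refine Finset.sum_congr rfl fun j _ => ?_
    by_cases h0 : ‖c‖ = 0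
    · have h3 : c = 0 := norm_eq_zero.1 h0
      simp [h3]
    · field_simp
  have h3 := h _ (Sb.comb hφ (fun j => c j / ‖c‖) h1) a ha ‖c‖
  simp only [h2] at h3
  exact h3

theorem coreG4 (d : ℕ) (hd : 2 ≤ d) (p ε : ℝ) (hp : 2 * ((d : ℝ) + 1) / d < p)
    (hp3 : 8 / 3 ≤ p) (hε : 0 < ε) : CoreG d p fun c => ENNReal.ofReal ((1 + |c|) ^ ε) := by
  intro A r r' b hr hr' hb
  obtain ⟨K, hK, h⟩ := core4 d hd A r r' b p ε hr hr' hb hp hp3 hε
  refine ⟨ENNReal.ofReal K, ENNReal.ofReal_ne_top, fun Φ h' a h1 h2 h3 h4 c => ?_⟩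
  rw [← ENNReal.ofReal_mul hK.le]
  exact h Φ h' a h1 h2 h3 h4 c

theorem sphere4 (d : ℕ) (hd : 2 ≤ d) (p ε : ℝ) (hp : 2 * ((d : ℝ) + 1) / d < p)
    (hp3 : 8 / 3 ≤ p) (hε : 0 < ε) (B : ℕ → ℝ) : ∃ K : ℝ, 0 < K ∧ ∀ (φ : E (d + 1) → ℝ) (a : E (d + 1) → ℂ),
      (∀ x, ‖x‖ = 1 → ContDiffAt ℝ ∞ φ x) → (∀ x, ‖x‖ = 1 → ContDiffAt ℝ ∞ a x) →
      (∀ k x, ‖x‖ = 1 → ‖iteratedFDeriv ℝ k φ x‖ ≤ B k) →
      (∀ k x, ‖x‖ = 1 → ‖iteratedFDeriv ℝ k a x‖ ≤ B k) → ∀ c : ℝ,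
      ∫⁻ ξ, ‖extn (fun x => a x * Complex.exp (((c * φ x : ℝ) : ℂ) * Complex.I)) ξ‖ₑ ^ p ≤
        ENNReal.ofReal (K * (1 + |c|) ^ ε) := by
  have hd0 : (0 : ℝ) < d := by
    have : 0 < d := by omega
    exact_mod_cast this
  have hp1 : 1 ≤ p := by
    have : (1 : ℝ) ≤ 2 * ((d : ℝ) + 1) / d := by
      rw [le_div_iff₀ hd0]
      linarith
    linarith
  obtain ⟨C, hC, h⟩ := sphere_of_core_at d (by omega) p hp1 _ (coreG4 d hd p ε hp hp3 hε) B B
  refine ⟨C.toReal + 1, by positivity, fun φ a h1 h2 h3 h4 c => ?_⟩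
  refine (h φ ⟨h1, h3⟩ a ⟨h2, h4⟩ c).trans ?_
  have h5 : C ≤ ENNReal.ofReal (C.toReal + 1) := by
    rw [← ENNReal.ofReal_toReal hC]
    exact ENNReal.ofReal_le_ofReal (by simp [ENNReal.toReal_ofReal])
  rw [ENNReal.ofReal_mul (by positivity)]
  exact mul_le_mul' h5 le_rfl

end Pool.Agent.GNP
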