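import Pool.Agent.GNP.SP4

/-!
From the charts to the sphere, for phases which satisfy a condition. `PS` is the condition on the
sphere, `PC r'` the condition in the chart over the ball of radius `r'`.
-/

namespace Pool.Agent.GNP

open MeasureTheory Set Pool.Agent.MP_6cbfb8_an
open scoped ENNReal Real RealInnerProductSpace ContDiff

/-- The core statement in the chart, with the bound `G c`, for phases with the condition `PC r'`. -/
def CoreP (d : ℕ) (p : ℝ) (G : ℝ → ℝ≥0∞) (PC : ℝ → (E d → ℝ) → (E d → ℝ) → Prop) : Prop :=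
  ∀ (A : ℕ → ℝ) (r r' b : ℝ), 0 < r → r < r' → r' < 1 → 0 < b → ∃ K : ℝ≥0∞, K ≠ ⊤ ∧
    ∀ (Φ h : E d → ℝ) (a : E d → ℂ), Sm d A Φ → Sm d A h → Amp d A r a →
      (∀ y, ‖y‖ ≤ r' → ∀ v, ⟪Hs h y v, v⟫ ≤ -(b * ‖v‖ ^ 2)) → PC r' Φ h → ∀ c : ℝ,
      ∫⁻ s : ℝ, ∫⁻ x, ‖uu a (ph Φ h c s) x‖ₑ ^ p ≤ K * G c

/-- The condition on the sphere gives the condition in the chart. -/
def Trans (d : ℕ) (PS : (E (d + 1) → ℝ) → Prop) (PC : ℝ → (E d → ℝ) → (E d → ℝ) → Prop) : Prop :=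
  ∀ (r' ρ : ℝ), 0 < r' → r' < ρ → ρ < 1 → ∀ φ : E (d + 1) → ℝ,
    (∀ x, ‖x‖ = 1 → ContDiffAt ℝ ∞ φ x) → PS φ → ∀ Φ h : E d → ℝ,
    (∀ y, ‖y‖ < ρ → h y = hs y) → (∀ y, ‖y‖ < ρ → Φ y = φ (join y (hs y))) → PC r' Φ h

/-- From the chart to the sphere, with a condition. -/
theorem sphere_of_core_P (d : ℕ) (hd : 1 ≤ d) (p : ℝ) (hp : 1 ≤ p) (G : ℝ → ℝ≥0∞)
    (PS : (E (d + 1) → ℝ) → Prop) (PC : ℝ → (E d → ℝ) → (E d → ℝ) → Prop)
    (hPS : ∀ φ, PS φ → ∀ R : E (d + 1) ≃ₗᵢ[ℝ] E (d + 1), PS fun x => φ (R x))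
    (hT : Trans d PS PC) (hcore : CoreP d p G PC) (B B1 : ℕ → ℝ) :
    ∃ C : ℝ≥0∞, C ≠ ⊤ ∧ ∀ φ : E (d + 1) → ℝ, Sb (d + 1) B φ → PS φ →
      ∀ a : E (d + 1) → ℂ, Sb (d + 1) B1 a → ∀ c : ℝ,
        ∫⁻ ξ, ‖extn (fun x => a x * Complex.exp (((c * φ x : ℝ) : ℂ) * Complex.I)) ξ‖ₑ ^ p ≤
          C * G c := by
  set δ : ℝ := 1 / (2 * √((d : ℝ) + 1)) with hδ
  have hs1 : 1 ≤ √((d : ℝ) + 1) := by
    rw [Real.one_le_sqrt]
    have : (0 : ℝ) ≤ d := Nat.cast_nonneg d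
    linarith
  have hδ0 : 0 < δ := by positivity
  have hδ1 : δ < 1 := by
    rw [hδ, div_lt_one (by positivity)]
    linarith
  set r : ℝ := √(1 - δ ^ 2) with hr
  have hr0 : 0 < r := Real.sqrt_pos.mpr (by nlinarith)
  have hr1 : r < 1 := by
    rw [hr, Real.sqrt_lt' one_pos]
    nlinarith
  obtain ⟨r', hrr', hr'1⟩ := exists_between hr1
  obtain ⟨ρ, hr'ρ, hρ1⟩ := exists_between hr'1
  obtain ⟨B2, hB2⟩ := Sb_pw (d := d) B1
  obtain ⟨A, h, hh, hhs, hA⟩ := chart_U d hd r ρ (hrr'.trans hr'ρ) hρ1 fun k => max (B k) (B2 k)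
  obtain ⟨K, hK, hcore⟩ := hcore A r r' 1 hr0 hrr' hr'1 one_pos
  have hdef : ∀ y, ‖y‖ ≤ r' → ∀ v, ⟪Hs h y v, v⟫ ≤ -(1 * ‖v‖ ^ 2) := by
    intro y hy v
    rw [Hs_congr_ball hhs (lt_of_le_of_lt hy hr'ρ), one_mul]
    exact Hs_hs y v (lt_of_le_of_lt hy hr'1)
  set N : ℝ≥0∞ := ((Finset.univ : Finset (Fin (d + 1) × Bool)).card : ℝ≥0∞) with hN
  have hNt : N ≠ ⊤ := ENNReal.natCast_ne_top _
  refine ⟨N ^ (p - 1) * (N * K), ?_, fun φ hφ hφP a ha c => ?_⟩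
  · exact ENNReal.mul_ne_top (ENNReal.rpow_ne_top_of_nonneg (by linarith) hNt)
      (ENNReal.mul_ne_top hNt hK)
  · have hpc := hφ.continuousOn
    have hac := ha.continuousOn
    refine (sp_sum_on Finset.univ (fun i x => ((pw i x : ℂ) * a x) *
      Complex.exp (((c * φ x : ℝ) : ℂ) * Complex.I)) (fun i => ?_) (fun x => ?_) hp).trans ?_
    · have := (contDiff_pw (d := d) i).continuous.continuousOn (s := Metric.sphere (0 : E (d + 1)) 1)
      fun_prop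
    · have hx : ‖(x : E (d + 1))‖ = 1 := mem_sphere_zero_iff_norm.mp x.2
      rw [← Finset.sum_mul, ← Finset.sum_mul, ← Complex.ofReal_sum, pw_sum _ hx, Complex.ofReal_one,
        one_mul]
    · rw [mul_assoc]
      refine mul_le_mul_right ?_ _
      rw [mul_assoc, hN, ← nsmul_eq_mul, ← Finset.sum_const]
      refine Finset.sum_le_sum fun i _ => ?_
      obtain ⟨R, σ, hR, -⟩ := exists_swap i
      rw [← lint_extn_iso _ R]
      have hb1 := hφ.comp_iso R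
      have hb2 := (hB2 a ha i).comp_iso R
      obtain ⟨Φ, a', hΦ, ha', hΦs, hI⟩ := hA (fun x => φ (R x))
        (fun x => (pw i (R x) : ℂ) * a (R x)) hb1.sm hb2.sm
        (fun k x hx => (hb1.bd k x hx).trans (le_max_left _ _))
        (fun k x hx => (hb2.bd k x hx).trans (le_max_right _ _)) (by
          intro y t hyt hc
          by_cases hne : pw i (R (join y t)) = 0
          · rw [hne, Complex.ofReal_zero, zero_mul]
          · exfalso
            have k2 := pw_supp i _ hne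
            rw [hR] at k2
            have k3 : (join y t : E (d + 1)) (Fin.last d) = t := by simp [join]
            rw [k3, ← hδ] at k2
            rcases hc with hc | hc
            · have h5 : ‖y‖ ≤ r := by
                rw [hr]
                apply Real.le_sqrt_of_sq_le
                nlinarith
              linarith
            · linarith)
      have hPCC : PC r' Φ h := hT r' ρ (hr0.trans hrr') hr'ρ hρ1 (fun x => φ (R x)) hb1.sm
        (hPS φ hφP R) Φ h hhs hΦs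
      exact (hI p (by linarith) c).trans (hcore Φ h a' hΦ hh ha' hdef hPCC c)

/-- Families of phases, with a condition for the combinations with coefficients of norm one. -/
theorem sphere_family_P (d : ℕ) (hd : 1 ≤ d) (p : ℝ) (hp : 1 ≤ p) (G : ℝ → ℝ≥0∞)
    (PS : (E (d + 1) → ℝ) → Prop) (PC : ℝ → (E d → ℝ) → (E d → ℝ) → Prop)
    (hPS : ∀ φ, PS φ → ∀ R : E (d + 1) ≃ₗᵢ[ℝ] E (d + 1), PS fun x => φ (R x))
    (hT : Trans d PS PC) (hcore : CoreP d p G PC) (N : ℕ) (B B1 : ℕ → ℝ) :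
    ∃ C : ℝ≥0∞, C ≠ ⊤ ∧ ∀ φ : Fin (N + 1) → E (d + 1) → ℝ, (∀ j, Sb (d + 1) B (φ j)) →
      (∀ c : Fin (N + 1) → ℝ, ‖c‖ = 1 → PS fun x => ∑ j, c j * φ j x) →
      ∀ a : E (d + 1) → ℂ, Sb (d + 1) B1 a → ∀ c : Fin (N + 1) → ℝ,
        ∫⁻ ξ, ‖extn (fun x => a x *
          Complex.exp (((∑ j, c j * φ j x : ℝ) : ℂ) * Complex.I)) ξ‖ₑ ^ p ≤ C * G ‖c‖ := by
  obtain ⟨C, hC, h⟩ := sphere_of_core_P d hd p hp G PS PC hPS hT hcore
    (fun k => ∑ _j : Fin (N + 1), |B k|) B1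
  refine ⟨C, hC, fun φ hφ hM a ha c => ?_⟩
  obtain ⟨u, hu, huc⟩ : ∃ u : Fin (N + 1) → ℝ, ‖u‖ = 1 ∧ ∀ j, ‖c‖ * u j = c j := by
    by_cases h0 : ‖c‖ = 0
    · have h3 : c = 0 := norm_eq_zero.1 h0
      refine ⟨fun _ => 1, by simp, fun j => ?_⟩
      simp [h3]
    · refine ⟨fun j => c j / ‖c‖, ?_, fun j => by field_simp⟩
      have : (fun j => c j / ‖c‖) = ‖c‖⁻¹ • c := by
        funext j
        simp [div_eq_inv_mul]
      rw [this, norm_smul, norm_inv, norm_norm, inv_mul_cancel₀ h0]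
  have h1 : ∀ j, |u j| ≤ 1 := by
    intro j
    have := norm_le_pi_norm u j
    rwa [hu] at this
  have h2 : ∀ x, ‖c‖ * ∑ j, u j * φ j x = ∑ j, c j * φ j x := by
    intro x
    rw [Finset.mul_sum]
    refine Finset.sum_congr rfl fun j _ => ?_
    rw [← mul_assoc, huc]
  have h3 := h _ (Sb.comb hφ u h1) (hM u hu) a ha ‖c‖
  simp only [h2] at h3
  exact h3

end Pool.Agent.GNP
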