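import Mathlib

/-!
Smooth functions with bounded derivatives: products, compositions, parameter integrals, division by
a variable.
-/

namespace Pool.Agent.GNP

open MeasureTheory Set
open scoped ContDiff

section

variable {U V W F : Type*} [NormedAddCommGroup U] [NormedSpace ℝ U] [NormedAddCommGroup V]
  [NormedSpace ℝ V] [NormedAddCommGroup W] [NormedSpace ℝ W] [NormedAddCommGroup F]
  [NormedSpace ℝ F]

/-- Smooth, all derivatives bounded. -/
structure Bs (A : ℕ → ℝ) (f : V → F) : Prop where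
  sm : ContDiff ℝ ∞ f
  bd : ∀ j y, ‖iteratedFDeriv ℝ j f y‖ ≤ A j

/-- Smooth, all derivatives of order at least one bounded. -/
structure B1 (A : ℕ → ℝ) (f : V → F) : Prop where
  sm : ContDiff ℝ ∞ f
  bd : ∀ j, 1 ≤ j → ∀ y, ‖iteratedFDeriv ℝ j f y‖ ≤ A j

theorem Bs.b1 {A : ℕ → ℝ} {f : V → F} (h : Bs A f) : B1 A f := ⟨h.sm, fun j _ y => h.bd j y⟩

theorem Bs.nonneg {A : ℕ → ℝ} {f : V → F} (h : Bs A f) (j : ℕ) : 0 ≤ A j :=
  (norm_nonneg _).trans (h.bd j 0)

theorem Bs.mono {A B : ℕ → ℝ} {f : V → F} (h : Bs A f) (hAB : ∀ j, A j ≤ B j) : Bs B f :=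
  ⟨h.sm, fun j y => (h.bd j y).trans (hAB j)⟩

theorem B1.mono {A B : ℕ → ℝ} {f : V → F} (h : B1 A f) (hAB : ∀ j, 1 ≤ j → A j ≤ B j) : B1 B f :=
  ⟨h.sm, fun j hj y => (h.bd j hj y).trans (hAB j hj)⟩

theorem smn {f : V → F} (h : ContDiff ℝ ∞ f) (n : ℕ) : ContDiff ℝ n f :=
  h.of_le (by exact_mod_cast le_top)

theorem sm_fderiv {f : V → F} (h : ContDiff ℝ ∞ f) : ContDiff ℝ ∞ (fderiv ℝ f) :=
  h.fderiv_right (by norm_cast)

theorem Bs.add {A B : ℕ → ℝ} {f g : V → F} (hf : Bs A f) (hg : Bs B g) :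
    Bs (fun j => A j + B j) (fun y => f y + g y) := by
  refine ⟨hf.sm.add hg.sm, fun j y => ?_⟩
  have h : iteratedFDeriv ℝ j (fun y => f y + g y) y = iteratedFDeriv ℝ j (f + g) y := rfl
  rw [h, iteratedFDeriv_add_apply (smn hf.sm j).contDiffAt (smn hg.sm j).contDiffAt]
  exact (norm_add_le _ _).trans (add_le_add (hf.bd j y) (hg.bd j y))

theorem B1.add {A B : ℕ → ℝ} {f g : V → F} (hf : B1 A f) (hg : B1 B g) :
    B1 (fun j => A j + B j) (fun y => f y + g y) := by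
  refine ⟨hf.sm.add hg.sm, fun j hj y => ?_⟩
  have h : iteratedFDeriv ℝ j (fun y => f y + g y) y = iteratedFDeriv ℝ j (f + g) y := rfl
  rw [h, iteratedFDeriv_add_apply (smn hf.sm j).contDiffAt (smn hg.sm j).contDiffAt]
  exact (norm_add_le _ _).trans (add_le_add (hf.bd j hj y) (hg.bd j hj y))

/-- The bound of a product. -/
noncomputable def cmul (A B : ℕ → ℝ) (n : ℕ) : ℝ :=
  ∑ i ∈ Finset.range (n + 1), (n.choose i : ℝ) * |A i| * |B (n - i)|

theorem Bs.smul {A B : ℕ → ℝ} {f : V → ℝ} {g : V → F} (hf : Bs A f) (hg : Bs B g) :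
    Bs (cmul A B) (fun y => f y • g y) := by
  refine ⟨hf.sm.smul hg.sm, fun n y => ?_⟩
  refine (norm_iteratedFDeriv_smul_le hf.sm hg.sm y (by exact_mod_cast le_top)).trans ?_
  refine Finset.sum_le_sum fun i _ => ?_
  have h1 := (hf.bd i y).trans (le_abs_self _)
  have h2 := (hg.bd (n - i) y).trans (le_abs_self _)
  gcongr

theorem Bs.mul {A B : ℕ → ℝ} {f g : V → ℂ} (hf : Bs A f) (hg : Bs B g) :
    Bs (cmul A B) (fun y => f y * g y) := by
  refine ⟨hf.sm.mul hg.sm, fun n y => ?_⟩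
  refine (norm_iteratedFDeriv_mul_le hf.sm hg.sm y (by exact_mod_cast le_top)).trans ?_
  refine Finset.sum_le_sum fun i _ => ?_
  have h1 := (hf.bd i y).trans (le_abs_self _)
  have h2 := (hg.bd (n - i) y).trans (le_abs_self _)
  gcongr

theorem Bs.fderiv {A : ℕ → ℝ} {f : V → F} (h : Bs A f) :
    Bs (fun j => A (j + 1)) (_root_.fderiv ℝ f) :=
  ⟨sm_fderiv h.sm, fun j y => by rw [norm_iteratedFDeriv_fderiv]; exact h.bd _ _⟩

theorem B1.fderiv {A : ℕ → ℝ} {f : V → F} (h : B1 A f) :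
    Bs (fun j => A (j + 1)) (_root_.fderiv ℝ f) :=
  ⟨sm_fderiv h.sm, fun j y => by rw [norm_iteratedFDeriv_fderiv]; exact h.bd _ (by omega) _⟩

theorem b1_of_fderiv {A : ℕ → ℝ} {f : V → F} (hf : ContDiff ℝ ∞ f)
    (h : Bs A (_root_.fderiv ℝ f)) : B1 (fun j => A (j - 1)) f := by
  refine ⟨hf, fun j hj y => ?_⟩
  obtain ⟨k, rfl⟩ : ∃ k, j = k + 1 := ⟨j - 1, by omega⟩
  rw [← norm_iteratedFDeriv_fderiv]
  exact h.bd k y

theorem Bs.dir {A : ℕ → ℝ} {f : V → F} (h : Bs A f) {e : V} (he : ‖e‖ ≤ 1) :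
    Bs (fun j => A (j + 1)) (fun y => _root_.fderiv ℝ f y e) := by
  refine ⟨(sm_fderiv h.sm).clm_apply contDiff_const, fun j y => ?_⟩
  refine (norm_iteratedFDeriv_clm_apply_const (smn (sm_fderiv h.sm) j).contDiffAt le_rfl).trans ?_
  rw [norm_iteratedFDeriv_fderiv]
  have h1 := h.bd (j + 1) y
  nlinarith [norm_nonneg (iteratedFDeriv ℝ (j + 1) f y)]

theorem B1.dir {A : ℕ → ℝ} {f : V → F} (h : B1 A f) {e : V} (he : ‖e‖ ≤ 1) :
    Bs (fun j => A (j + 1)) (fun y => _root_.fderiv ℝ f y e) := by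
  refine ⟨(sm_fderiv h.sm).clm_apply contDiff_const, fun j y => ?_⟩
  refine (norm_iteratedFDeriv_clm_apply_const (smn (sm_fderiv h.sm) j).contDiffAt le_rfl).trans ?_
  rw [norm_iteratedFDeriv_fderiv]
  have h1 := h.bd (j + 1) (by omega) y
  nlinarith [norm_nonneg (iteratedFDeriv ℝ (j + 1) f y)]

/-- Linear maps. -/
theorem b1_clm (L : V →L[ℝ] F) : B1 (fun _ => ‖L‖) (fun y => L y) := by
  refine ⟨L.contDiff, fun j hj y => ?_⟩
  obtain ⟨k, rfl⟩ : ∃ k, j = k + 1 := ⟨j - 1, by omega⟩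
  rw [← norm_iteratedFDeriv_fderiv]
  have h : _root_.fderiv ℝ (fun y => L y) = fun _ => L := by
    funext y
    exact L.fderiv
  rw [h]
  rcases Nat.eq_zero_or_pos k with rfl | hk
  · rw [norm_iteratedFDeriv_zero]
  · rw [iteratedFDeriv_const_of_ne hk.ne']
    simp

theorem norm_iter_clm_comp (L : F →L[ℝ] W) {f : V → F} (hf : ContDiff ℝ ∞ f) (n : ℕ) (y : V) :
    ‖iteratedFDeriv ℝ n (fun y => L (f y)) y‖ ≤ ‖L‖ * ‖iteratedFDeriv ℝ n f y‖ := by
  have h := L.iteratedFDeriv_comp_left (smn hf n).contDiffAt (le_refl (n : WithTop ℕ∞)) (x := y)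
  have h2 : iteratedFDeriv ℝ n (fun y => L (f y)) y = iteratedFDeriv ℝ n (L ∘ f) y := rfl
  rw [h2, h]
  exact L.norm_compContinuousMultilinearMap_le _

theorem B1.clm {A : ℕ → ℝ} {f : V → F} (h : B1 A f) (L : F →L[ℝ] W) :
    B1 (fun j => ‖L‖ * A j) (fun y => L (f y)) :=
  ⟨L.contDiff.comp h.sm, fun j hj y => (norm_iter_clm_comp L h.sm j y).trans
    (mul_le_mul_of_nonneg_left (h.bd j hj y) (norm_nonneg _))⟩

theorem Bs.clm {A : ℕ → ℝ} {f : V → F} (h : Bs A f) (L : F →L[ℝ] W) :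
    Bs (fun j => ‖L‖ * A j) (fun y => L (f y)) :=
  ⟨L.contDiff.comp h.sm, fun j y => (norm_iter_clm_comp L h.sm j y).trans
    (mul_le_mul_of_nonneg_left (h.bd j y) (norm_nonneg _))⟩

/-- The bound of a composition. -/
noncomputable def ccomp (A B : ℕ → ℝ) (n : ℕ) : ℝ :=
  n.factorial * (∑ i ∈ Finset.range (n + 1), |A i|) * (1 + ∑ i ∈ Finset.range (n + 1), |B i|) ^ n

theorem pow_bound (B : ℕ → ℝ) (n i : ℕ) (hi1 : 1 ≤ i) (hi : i ≤ n) {x : ℝ} (hx : x ≤ B i) :
    x ≤ (1 + ∑ i ∈ Finset.range (n + 1), |B i|) ^ i := by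
  have h1 : |B i| ≤ ∑ i ∈ Finset.range (n + 1), |B i| :=
    Finset.single_le_sum (f := fun i => |B i|) (fun i _ => abs_nonneg _)
      (Finset.mem_range.2 (by omega))
  have h2 : (1 : ℝ) ≤ 1 + ∑ i ∈ Finset.range (n + 1), |B i| := by
    have : 0 ≤ ∑ i ∈ Finset.range (n + 1), |B i| := Finset.sum_nonneg fun i _ => abs_nonneg _
    linarith
  calc x ≤ 1 + ∑ i ∈ Finset.range (n + 1), |B i| := by linarith [le_abs_self (B i)]
    _ = (1 + ∑ i ∈ Finset.range (n + 1), |B i|) ^ 1 := (pow_one _).symm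
    _ ≤ _ := pow_le_pow_right₀ h2 hi1

theorem Bs.comp {A B : ℕ → ℝ} {f : V → F} {γ : U → V} (hf : Bs A f) (hγ : B1 B γ) :
    Bs (ccomp A B) (fun y => f (γ y)) := by
  refine ⟨hf.sm.comp hγ.sm, fun n y => ?_⟩
  have h := norm_iteratedFDeriv_comp_le (g := f) (f := γ) (n := n)
    (N := ((⊤ : ℕ∞) : WithTop ℕ∞)) hf.sm hγ.sm (by exact_mod_cast le_top) y
    (C := ∑ i ∈ Finset.range (n + 1), |A i|) (D := 1 + ∑ i ∈ Finset.range (n + 1), |B i|)
    (fun i hi => ((hf.bd i _).trans (le_abs_self _)).trans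
      (Finset.single_le_sum (f := fun i => |A i|) (fun i _ => abs_nonneg _)
        (Finset.mem_range.2 (by omega))))
    (fun i hi1 hi => pow_bound B n i hi1 hi (hγ.bd i hi1 y))
  exact h

theorem B1.comp {A B : ℕ → ℝ} {f : V → F} {γ : U → V} (hf : B1 A f) (hγ : B1 B γ) :
    B1 (ccomp A B) (fun y => f (γ y)) := by
  refine ⟨hf.sm.comp hγ.sm, fun n hn y => ?_⟩
  set f0 : V → F := fun v => f v - f (γ y) with hf0
  have hf0s : ContDiff ℝ ∞ f0 := hf.sm.sub contDiff_const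
  have hfd : _root_.fderiv ℝ f0 = _root_.fderiv ℝ f := by
    funext v
    rw [hf0, fderiv_sub_const]
  have hfd' : _root_.fderiv ℝ (fun y => f0 (γ y)) = _root_.fderiv ℝ (fun y => f (γ y)) := by
    funext v
    have : (fun y => f0 (γ y)) = fun z => f (γ z) - f (γ y) := rfl
    rw [this, fderiv_sub_const]
  have h := norm_iteratedFDeriv_comp_le (g := f0) (f := γ) (n := n)
    (N := ((⊤ : ℕ∞) : WithTop ℕ∞)) hf0s hγ.sm (by exact_mod_cast le_top) y
    (C := ∑ i ∈ Finset.range (n + 1), |A i|) (D := 1 + ∑ i ∈ Finset.range (n + 1), |B i|)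
    (fun i hi => by
      rcases Nat.eq_zero_or_pos i with rfl | hi0
      · rw [norm_iteratedFDeriv_zero, hf0]
        simp only [sub_self, norm_zero]
        exact Finset.sum_nonneg fun i _ => abs_nonneg _
      · obtain ⟨k, rfl⟩ : ∃ k, i = k + 1 := ⟨i - 1, by omega⟩
        rw [← norm_iteratedFDeriv_fderiv, hfd, norm_iteratedFDeriv_fderiv]
        exact ((hf.bd (k + 1) hi0 _).trans (le_abs_self _)).trans
          (Finset.single_le_sum (f := fun i => |A i|) (fun i _ => abs_nonneg _)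
            (Finset.mem_range.2 (by omega))))
    (fun i hi1 hi => pow_bound B n i hi1 hi (hγ.bd i hi1 y))
  obtain ⟨k, rfl⟩ : ∃ k, n = k + 1 := ⟨n - 1, by omega⟩
  rw [← norm_iteratedFDeriv_fderiv, ← hfd', norm_iteratedFDeriv_fderiv]
  exact h

/-- The bound of an inverse. -/
theorem exists_inv (A : ℕ → ℝ) (c0 : ℝ) (hc0 : 0 < c0) : ∃ C : ℕ → ℝ,
    ∀ (V : Type) [NormedAddCommGroup V] [NormedSpace ℝ V] (κ : V → ℝ), B1 A κ →
      (∀ y, c0 ≤ κ y) → Bs C (fun y => (κ y)⁻¹) := by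
  have key : ∀ n : ℕ, ∃ C : ℕ → ℝ, ∀ (V : Type) [NormedAddCommGroup V] [NormedSpace ℝ V]
      (κ : V → ℝ), B1 A κ → (∀ y, c0 ≤ κ y) → ∀ j ≤ n, ∀ y,
        ‖iteratedFDeriv ℝ j (fun y => (κ y)⁻¹) y‖ ≤ C j := by
    intro n
    induction n with
    | zero =>
      refine ⟨fun _ => c0⁻¹, fun V _ _ κ hκ hc j hj y => ?_⟩
      obtain rfl : j = 0 := by omega
      rw [norm_iteratedFDeriv_zero, norm_inv, Real.norm_eq_abs]
      exact inv_anti₀ hc0 ((hc y).trans (le_abs_self _))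
    | succ n ih =>
      obtain ⟨C, hC⟩ := ih
      set D : ℕ → ℝ := cmul (cmul C C) (fun j => |A (j + 1)|) with hD
      refine ⟨fun j => if j ≤ n then C j else D n, fun V _ _ κ hκ hc j hj y => ?_⟩
      by_cases hjn : j ≤ n
      · simp only [hjn, if_true]
        exact hC V κ hκ hc j hjn y
      · obtain rfl : j = n + 1 := by omega
        simp only [hjn, if_false]
        have hne : ∀ y, κ y ≠ 0 := fun y => (lt_of_lt_of_le hc0 (hc y)).ne'
        have hs : ContDiff ℝ ∞ fun y => (κ y)⁻¹ := hκ.sm.inv hne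
        have hfd : _root_.fderiv ℝ (fun y => (κ y)⁻¹) =
            fun y => ((κ y)⁻¹ • (κ y)⁻¹) • (-_root_.fderiv ℝ κ y) := by
          funext y
          have h1 : DifferentiableAt ℝ κ y := (hκ.sm.differentiable (by simp)) y
          have h2 := (hasDerivAt_inv (hne y)).comp_hasFDerivAt y h1.hasFDerivAt
          have h3 : HasFDerivAt (fun y => (κ y)⁻¹) (-(κ y ^ 2)⁻¹ • _root_.fderiv ℝ κ y) y := h2
          rw [h3.fderiv, smul_neg, neg_smul]
          congr 2
          rw [smul_eq_mul, pow_two, mul_inv]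
        rw [← norm_iteratedFDeriv_fderiv, hfd]
        have hnf : ContDiff ℝ ∞ fun y => -_root_.fderiv ℝ κ y := (sm_fderiv hκ.sm).neg
        have hC0 : ∀ i ≤ n, 0 ≤ C i := fun i hi => (norm_nonneg _).trans (hC V κ hκ hc i hi y)
        have hsq : ∀ m ≤ n, ‖iteratedFDeriv ℝ m (fun y => (κ y)⁻¹ • (κ y)⁻¹) y‖ ≤ cmul C C m := by
          intro m hm
          refine (norm_iteratedFDeriv_smul_le hs hs y (by exact_mod_cast le_top)).trans ?_
          refine Finset.sum_le_sum fun i hi => ?_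
          have hi' : i ≤ m := by
            have := Finset.mem_range.1 hi
            omega
          have h1 := (hC V κ hκ hc i (by omega) y).trans (le_abs_self _)
          have h2 := (hC V κ hκ hc (m - i) (by omega) y).trans (le_abs_self _)
          gcongr
        refine (norm_iteratedFDeriv_smul_le (hs.smul hs) hnf y
          (by exact_mod_cast le_top)).trans ?_
        refine Finset.sum_le_sum fun i hi => ?_
        have hi' : i ≤ n := by
          have := Finset.mem_range.1 hi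
          omega
        have h1 := (hsq i hi').trans (le_abs_self _)
        have h2 : ‖iteratedFDeriv ℝ (n - i) (fun y => -_root_.fderiv ℝ κ y) y‖ ≤
            |(fun j => |A (j + 1)|) (n - i)| := by
          have h3 : iteratedFDeriv ℝ (n - i) (fun y => -_root_.fderiv ℝ κ y) y =
              iteratedFDeriv ℝ (n - i) (-_root_.fderiv ℝ κ) y := rfl
          rw [h3, iteratedFDeriv_neg_apply, norm_neg, norm_iteratedFDeriv_fderiv]
          simp only [abs_abs]
          exact (hκ.bd _ (by omega) y).trans (le_abs_self _)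
        gcongr
        exact h1
  choose C hC using key
  refine ⟨fun j => C j j, fun V _ _ κ hκ hc => ⟨?_, fun j y => hC j V κ hκ hc j le_rfl y⟩⟩
  exact hκ.sm.inv fun y => (lt_of_lt_of_le hc0 (hc y)).ne'

end

end Pool.Agent.GNP
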