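import Pool.Agent.GNP.SPa

/-!
Parameter integrals over compact sets, and division by a variable.
-/

namespace Pool.Agent.GNP

open MeasureTheory Set
open scoped ContDiff

section

variable {V : Type} [NormedAddCommGroup V] [NormedSpace ℝ V] [ProperSpace V]

theorem pint_fderiv {F : Type} [NormedAddCommGroup F] [NormedSpace ℝ F] (μ : Measure ℝ)
    [IsFiniteMeasure μ] {T : Set ℝ} (hT : IsCompact T) (hμ : ∀ᵐ t ∂μ, t ∈ T) {G : V × ℝ → F}
    (hG : ContDiff ℝ ∞ G) (v0 : V) : HasFDerivAt (fun v => ∫ t, G (v, t) ∂μ)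
      (∫ t, (fderiv ℝ G (v0, t)).comp (ContinuousLinearMap.inl ℝ V ℝ) ∂μ) v0 := by
  have hfd : Continuous fun y : V × ℝ =>
      (fderiv ℝ G y).comp (ContinuousLinearMap.inl ℝ V ℝ) :=
    (sm_fderiv hG).continuous.clm_comp continuous_const
  obtain ⟨M, hM⟩ := ((isCompact_closedBall v0 1).prod hT).exists_bound_of_continuousOn
    hfd.continuousOn
  obtain ⟨M0, hM0⟩ := ((isCompact_closedBall v0 1).prod hT).exists_bound_of_continuousOn
    hG.continuous.continuousOn
  refine hasFDerivAt_integral_of_dominated_of_fderiv_le (μ := μ) (F := fun v t => G (v, t))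
    (F' := fun v t => (fderiv ℝ G (v, t)).comp (ContinuousLinearMap.inl ℝ V ℝ))
    (bound := fun _ => M)
    (s := Metric.ball v0 1) (Metric.ball_mem_nhds v0 one_pos) ?_ ?_ ?_ ?_ (integrable_const M) ?_
  · refine Filter.Eventually.of_forall fun v => Continuous.aestronglyMeasurable ?_
    exact hG.continuous.comp (by fun_prop)
  · refine Integrable.of_bound (C := M0) (Continuous.aestronglyMeasurable
      (hG.continuous.comp (by fun_prop))) ?_
    filter_upwards [hμ] with t ht
    exact hM0 (v0, t) ⟨Metric.mem_closedBall_self zero_le_one, ht⟩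
  · exact Continuous.aestronglyMeasurable (hfd.comp (by fun_prop : Continuous fun t : ℝ => (v0, t)))
  · filter_upwards [hμ] with t ht v hv
    exact hM (v, t) ⟨Metric.ball_subset_closedBall hv, ht⟩
  · refine Filter.Eventually.of_forall fun t v _ => ?_
    have h1 : HasFDerivAt G (fderiv ℝ G (v, t)) (v, t) :=
      ((hG.differentiable (by simp)) (v, t)).hasFDerivAt
    have h2 : HasFDerivAt (fun v : V => (v, t)) (ContinuousLinearMap.inl ℝ V ℝ) v :=
      hasFDerivAt_prodMk_left v t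
    exact h1.comp v h2

theorem pint_sm {F : Type} [NormedAddCommGroup F] [NormedSpace ℝ F] (μ : Measure ℝ)
    [IsFiniteMeasure μ] {T : Set ℝ} (hT : IsCompact T) (hμ : ∀ᵐ t ∂μ, t ∈ T) {G : V × ℝ → F}
    (hG : ContDiff ℝ ∞ G) : ContDiff ℝ ∞ fun v => ∫ t, G (v, t) ∂μ := by
  have key : ∀ n : ℕ, ∀ (F : Type) [NormedAddCommGroup F] [NormedSpace ℝ F] (G : V × ℝ → F),
      ContDiff ℝ ∞ G → ContDiff ℝ n fun v => ∫ t, G (v, t) ∂μ := by
    intro n
    induction n with
    | zero =>
      intro F _ _ G hG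
      rw [Nat.cast_zero, contDiff_zero]
      exact continuous_iff_continuousAt.2 fun v => (pint_fderiv μ hT hμ hG v).continuousAt
    | succ n ih =>
      intro F _ _ G hG
      rw [show ((n + 1 : ℕ) : WithTop ℕ∞) = (n : WithTop ℕ∞) + 1 by norm_cast,
        contDiff_succ_iff_fderiv]
      refine ⟨fun v => (pint_fderiv μ hT hμ hG v).differentiableAt, by simp, ?_⟩
      have h1 : (fderiv ℝ fun v => ∫ t, G (v, t) ∂μ) = fun v => ∫ t,
          (fun y : V × ℝ => (fderiv ℝ G y).comp (ContinuousLinearMap.inl ℝ V ℝ)) (v, t) ∂μ := by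
        funext v
        exact (pint_fderiv μ hT hμ hG v).fderiv
      rw [h1]
      exact ih _ _ ((sm_fderiv hG).clm_comp contDiff_const)
  exact contDiff_infty.2 fun n => key n F G hG

theorem pint_bd (μ : Measure ℝ) [IsProbabilityMeasure μ] {T : Set ℝ} (hT : IsCompact T)
    (hμ : ∀ᵐ t ∂μ, t ∈ T) (n : ℕ) : ∀ (F : Type) [NormedAddCommGroup F] [NormedSpace ℝ F]
    (G : V × ℝ → F), ContDiff ℝ ∞ G → ∀ (v : V) (M : ℝ),
      (∀ t ∈ T, ‖iteratedFDeriv ℝ n (fun v => G (v, t)) v‖ ≤ M) →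
      ‖iteratedFDeriv ℝ n (fun v => ∫ t, G (v, t) ∂μ) v‖ ≤ M := by
  induction n with
  | zero =>
    intro F _ _ G hG v M h
    rw [norm_iteratedFDeriv_zero]
    have h1 := norm_integral_le_of_norm_le_const (μ := μ) (f := fun t => G (v, t)) (C := M) (by
      filter_upwards [hμ] with t ht
      have := h t ht
      rwa [norm_iteratedFDeriv_zero] at this)
    simpa using h1
  | succ n ih =>
    intro F _ _ G hG v M h
    rw [← norm_iteratedFDeriv_fderiv]
    have h1 : (fderiv ℝ fun v => ∫ t, G (v, t) ∂μ) = fun v => ∫ t,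
        (fun y : V × ℝ => (fderiv ℝ G y).comp (ContinuousLinearMap.inl ℝ V ℝ)) (v, t) ∂μ := by
      funext v
      exact (pint_fderiv μ hT hμ hG v).fderiv
    rw [h1]
    refine ih _ _ ((sm_fderiv hG).clm_comp contDiff_const) v M fun t ht => ?_
    have h2 : (fun v => (fun y : V × ℝ => (fderiv ℝ G y).comp
        (ContinuousLinearMap.inl ℝ V ℝ)) (v, t)) = fderiv ℝ fun v => G (v, t) := by
      funext v
      have h1 : HasFDerivAt G (fderiv ℝ G (v, t)) (v, t) :=
        ((hG.differentiable (by simp)) (v, t)).hasFDerivAt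
      exact ((h1.comp v (hasFDerivAt_prodMk_left v t)).fderiv).symm
    rw [h2, norm_iteratedFDeriv_fderiv]
    exact h t ht

/-- The probability measure on `[0,1]`. -/
noncomputable def mu01 : Measure ℝ := (volume : Measure ℝ).restrict (Icc 0 1)

instance : IsProbabilityMeasure mu01 := ⟨by
  unfold mu01
  rw [Measure.restrict_apply MeasurableSet.univ, univ_inter, Real.volume_Icc]
  simp⟩

theorem mu01_mem : ∀ᵐ t ∂mu01, t ∈ Icc (0 : ℝ) 1 := ae_restrict_mem measurableSet_Icc

/-- The quotient of `h` by the last variable (Hadamard). -/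
noncomputable def had {F : Type} [NormedAddCommGroup F] [NormedSpace ℝ F] (h : V × ℝ → F)
    (y : V × ℝ) : F := ∫ t, fderiv ℝ h (y.1, t * y.2) (0, 1) ∂mu01

/-- The map `(y, t) ↦ (y.1, t y.2)`. -/
def hmap (z : (V × ℝ) × ℝ) : V × ℝ := (z.1.1, z.2 * z.1.2)

omit [ProperSpace V] in
theorem sm_hmap : ContDiff ℝ ∞ (hmap (V := V)) := by
  unfold hmap
  fun_prop

omit [ProperSpace V] in
theorem b1_hmap {t : ℝ} (ht : t ∈ Icc (0 : ℝ) 1) :
    B1 (fun _ => 1) (fun y : V × ℝ => ((y.1, t * y.2) : V × ℝ)) := by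
  set L : V × ℝ →L[ℝ] V × ℝ := (ContinuousLinearMap.fst ℝ V ℝ).prod
    (t • ContinuousLinearMap.snd ℝ V ℝ) with hL
  have h1 : ‖L‖ ≤ 1 := by
    refine L.opNorm_le_bound zero_le_one fun y => ?_
    rw [one_mul, hL]
    simp only [ContinuousLinearMap.prod_apply, ContinuousLinearMap.coe_fst',
      _root_.smul_apply, ContinuousLinearMap.coe_snd', smul_eq_mul]
    rw [Prod.norm_def, Prod.norm_def]
    refine max_le_max le_rfl ?_
    simp only
    rw [norm_mul, Real.norm_eq_abs t, abs_of_nonneg ht.1]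
    exact mul_le_of_le_one_left (norm_nonneg _) ht.2
  have h2 := b1_clm L
  exact (h2.mono fun _ _ => h1)

theorem had_bs {F : Type} [NormedAddCommGroup F] [NormedSpace ℝ F] {h : V × ℝ → F} {A : ℕ → ℝ}
    (hA : Bs A fun y => fderiv ℝ h y (0, 1)) :
    Bs (ccomp A fun _ => 1) (had h) := by
  have hs : ContDiff ℝ ∞ fun z : (V × ℝ) × ℝ => fderiv ℝ h (hmap z) (0, 1) :=
    hA.sm.comp sm_hmap
  refine ⟨pint_sm mu01 isCompact_Icc mu01_mem hs, fun j y => ?_⟩
  refine pint_bd mu01 isCompact_Icc mu01_mem j F _ hs y _ fun t ht => ?_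
  exact (hA.comp (b1_hmap ht)).bd j y

omit [ProperSpace V] in
theorem had_eq {F : Type} [NormedAddCommGroup F] [NormedSpace ℝ F] [CompleteSpace F]
    {h : V × ℝ → F} (hh : ContDiff ℝ ∞ h) (h0 : ∀ v, h (v, 0) = 0) (v : V) (w : ℝ) :
    h (v, w) = w • had h (v, w) := by
  have hd : ∀ s : ℝ, HasDerivAt (fun s : ℝ => h (v, s * w)) (w • fderiv ℝ h (v, s * w) (0, 1)) s := by
    intro s
    have h1 : HasFDerivAt h (fderiv ℝ h (v, s * w)) (v, s * w) :=
      ((hh.differentiable (by simp)) (v, s * w)).hasFDerivAt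
    have h2 : HasDerivAt (fun s : ℝ => ((v, s * w) : V × ℝ)) ((0, w) : V × ℝ) s := by
      have h3 := (hasDerivAt_const s v).prodMk ((hasDerivAt_id s).mul_const w)
      simpa using h3
    have h4 := h1.comp_hasDerivAt s h2
    have h5 : ((0, w) : V × ℝ) = w • ((0, 1) : V × ℝ) := by simp
    rw [h5, map_smul] at h4
    exact h4
  have hc : Continuous fun s : ℝ => w • fderiv ℝ h (v, s * w) ((0 : V), (1 : ℝ)) := by
    have := (sm_fderiv hh).continuous
    fun_prop
  have h1 := intervalIntegral.integral_eq_sub_of_hasDerivAt (a := 0) (b := 1)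
    (fun s _ => hd s) (hc.intervalIntegrable 0 1)
  rw [one_mul, zero_mul, h0, sub_zero] at h1
  rw [← h1, intervalIntegral.integral_smul, intervalIntegral.integral_of_le zero_le_one]
  unfold had mu01
  rw [integral_Icc_eq_integral_Ioc]

omit [ProperSpace V] in
theorem had_ge {h : V × ℝ → ℝ} (hh : ContDiff ℝ ∞ h) {c : ℝ}
    (hc : ∀ y, c ≤ fderiv ℝ h y (0, 1)) (y : V × ℝ) : c ≤ had h y := by
  have hcont : Continuous fun t : ℝ => fderiv ℝ h (y.1, t * y.2) ((0 : V), (1 : ℝ)) := by
    have := (sm_fderiv hh).continuous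
    fun_prop
  obtain ⟨M, hM⟩ := (isCompact_Icc (a := (0 : ℝ)) (b := 1)).exists_bound_of_continuousOn
    hcont.continuousOn
  have h1 : ∫ _t : ℝ, c ∂mu01 ≤ had h y := by
    unfold had
    refine integral_mono (integrable_const c) ?_ fun t => hc _
    refine Integrable.of_bound (C := M) hcont.aestronglyMeasurable ?_
    filter_upwards [mu01_mem] with t ht
    exact hM t ht
  simpa using h1

omit [ProperSpace V] in
theorem had_zero {F : Type} [NormedAddCommGroup F] [NormedSpace ℝ F] [CompleteSpace F]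
    {h : V × ℝ → F} (v : V) : had h (v, 0) = fderiv ℝ h (v, 0) (0, 1) := by
  unfold had
  simp

end

end Pool.Agent.GNP
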