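import Pool.Agent.GNP.SPb

/-!
Integrals `λ^((j+1)/2) ∫ s^j B e^{iλf} ds` with `∂f/∂s = s / u`: bounds.
-/

namespace Pool.Agent.GNP

open MeasureTheory Set
open scoped ContDiff Real

/-- Integration by parts. -/
theorem sp_ibp {g g' : ℝ → ℂ} {f f' : ℝ → ℝ} (hg : ∀ x, HasDerivAt g (g' x) x)
    (hf : ∀ x, HasDerivAt f (f' x) x) (hg'c : Continuous g') (hf'c : Continuous f') {R : ℝ}
    (hR : ∀ x, R < |x| → g x = 0) {lam : ℝ} (hlam : lam ≠ 0) :
    ∫ x, g x * (f' x : ℂ) * Complex.exp (((lam * f x : ℝ) : ℂ) * Complex.I) =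
      (Complex.I / lam) * ∫ x, g' x * Complex.exp (((lam * f x : ℝ) : ℂ) * Complex.I) := by
  have hgc : Continuous g := continuous_iff_continuousAt.2 fun x => (hg x).continuousAt
  have hfc : Continuous f := continuous_iff_continuousAt.2 fun x => (hf x).continuousAt
  set e : ℝ → ℂ := fun x => Complex.exp (((lam * f x : ℝ) : ℂ) * Complex.I) with he
  have hec : Continuous e := by rw [he]; fun_prop
  have hg'0 : ∀ x, R < |x| → g' x = 0 := by
    intro x hx
    have h1 : g =ᶠ[nhds x] fun _ => 0 := by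
      have : {x : ℝ | R < |x|} ∈ nhds x := (isOpen_lt continuous_const continuous_abs).mem_nhds hx
      filter_upwards [this] with y hy
      exact hR y hy
    have h2 : HasDerivAt g 0 x := (hasDerivAt_const x (0 : ℂ)).congr_of_eventuallyEq h1
    exact (hg x).unique h2
  have hcs : ∀ k : ℝ → ℂ, Continuous k → (∀ x, R < |x| → k x = 0) → Integrable k := by
    intro k hk h0
    refine hk.integrable_of_hasCompactSupport ?_
    refine HasCompactSupport.intro (isCompact_closedBall (0 : ℝ) R) fun x hx => h0 x ?_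
    simpa using hx
  have hde : ∀ x, HasDerivAt e (e x * (((lam * f' x : ℝ) : ℂ) * Complex.I)) x := by
    intro x
    have h1 : HasDerivAt (fun x => ((lam * f x : ℝ) : ℂ)) ((lam * f' x : ℝ) : ℂ) x :=
      ((hf x).const_mul lam).ofReal_comp
    exact (h1.mul_const Complex.I).cexp
  have hK : ∀ x, HasDerivAt (fun x => g x * e x)
      (g' x * e x + g x * (e x * (((lam * f' x : ℝ) : ℂ) * Complex.I))) x :=
    fun x => (hg x).mul (hde x)
  have i1 : Integrable fun x => g' x * e x :=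
    hcs _ (hg'c.mul hec) fun x hx => by rw [hg'0 x hx, zero_mul]
  have i2 : Integrable fun x => g x * (e x * (((lam * f' x : ℝ) : ℂ) * Complex.I)) := by
    refine hcs _ ?_ fun x hx => by rw [hR x hx, zero_mul]
    fun_prop
  have i3 : Integrable fun x => g x * e x :=
    hcs _ (hgc.mul hec) fun x hx => by rw [hR x hx, zero_mul]
  have h0 := integral_eq_zero_of_hasDerivAt_of_integrable hK (i1.add i2) i3
  rw [integral_add i1 i2] at h0
  have h1 : ∫ x, g x * (e x * (((lam * f' x : ℝ) : ℂ) * Complex.I)) =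
      (lam * Complex.I) * ∫ x, g x * (f' x : ℂ) * e x := by
    rw [← integral_const_mul]
    refine integral_congr_ae (Filter.Eventually.of_forall fun x => ?_)
    simp only
    push_cast
    ring
  rw [h1] at h0
  have h2 : (lam : ℂ) ≠ 0 := by exact_mod_cast hlam
  have h3 : ∫ x, g' x * e x = -((lam * Complex.I) * ∫ x, g x * (f' x : ℂ) * e x) :=
    eq_neg_of_add_eq_zero_left h0
  rw [h3]
  field_simp
  rw [Complex.I_sq]
  ring

section

variable {V : Type} [NormedAddCommGroup V] [NormedSpace ℝ V]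

/-- The phases. -/
structure Dat (A : ℕ → ℝ) (w : V → ℝ) (f u : V × ℝ → ℝ) (G : V → V × ℝ → ℝ) : Prop where
  wc : Continuous w
  fs : ContDiff ℝ ∞ f
  us : Bs A u
  uf : ∀ y, u y * fderiv ℝ f y (0, 1) = y.2
  gs : ∀ e, ‖e‖ ≤ 1 → Bs A (G e)
  gf : ∀ e, ‖e‖ ≤ 1 → ∀ y, fderiv ℝ f y (e, 0) = y.2 ^ 2 * G e y

/-- The amplitudes. -/
structure Am (A : ℕ → ℝ) (w : V → ℝ) (B : V × ℝ → ℂ) : Prop where
  bs : Bs A B
  supp : ∀ y, 1 < |y.2 + w y.1| → B y = 0

/-- The integral. -/
noncomputable def TT (lam : ℝ) (f : V × ℝ → ℝ) (j : ℕ) (B : V × ℝ → ℂ) (v : V) : ℂ :=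
  ((lam ^ (((j : ℝ) + 1) / 2) : ℝ) : ℂ) * ∫ s : ℝ, ((s ^ j : ℝ) : ℂ) * B (v, s) *
    Complex.exp (((lam * f (v, s) : ℝ) : ℂ) * Complex.I)

omit [NormedSpace ℝ V] in
theorem norm_01 : ‖((0 : V), (1 : ℝ))‖ ≤ 1 := by simp [Prod.norm_def]

theorem Am.dir {A : ℕ → ℝ} {w : V → ℝ} {B : V × ℝ → ℂ} (hw : Continuous w) (h : Am A w B)
    {e : V × ℝ} (he : ‖e‖ ≤ 1) : Am (fun j => A (j + 1)) w fun y => fderiv ℝ B y e := by
  refine ⟨h.bs.dir he, fun y hy => ?_⟩
  have h1 : B =ᶠ[nhds y] fun _ => 0 := by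
    have : {y : V × ℝ | 1 < |y.2 + w y.1|} ∈ nhds y :=
      (isOpen_lt continuous_const (by fun_prop)).mem_nhds hy
    filter_upwards [this] with z hz
    exact h.supp z hz
  have h2 : fderiv ℝ B y = 0 := by
    rw [h1.fderiv_eq]
    simp
  rw [h2]
  rfl

theorem Am.smul {A D : ℕ → ℝ} {w : V → ℝ} {B : V × ℝ → ℂ} {u : V × ℝ → ℝ} (h : Am A w B)
    (hu : Bs D u) : Am (cmul D A) w fun y => u y • B y :=
  ⟨hu.smul h.bs, fun y hy => by simp [h.supp y hy]⟩

theorem hasDerivAt_slice {F : Type} [NormedAddCommGroup F] [NormedSpace ℝ F] {B : V × ℝ → F}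
    (hB : ContDiff ℝ ∞ B) (v : V) (s : ℝ) :
    HasDerivAt (fun s => B (v, s)) (fderiv ℝ B (v, s) (0, 1)) s := by
  have h1 : HasFDerivAt B (fderiv ℝ B (v, s)) (v, s) :=
    ((hB.differentiable (by simp)) (v, s)).hasFDerivAt
  have h2 : HasDerivAt (fun s : ℝ => ((v, s) : V × ℝ)) ((0, 1) : V × ℝ) s :=
    (hasDerivAt_const s v).prodMk (hasDerivAt_id s)
  exact h1.comp_hasDerivAt s h2

theorem Am.zero_of {A : ℕ → ℝ} {w : V → ℝ} {B : V × ℝ → ℂ} (h : Am A w B) (v : V) {s : ℝ}
    (hs : |w v| + 1 < |s|) : B (v, s) = 0 := by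
  refine h.supp _ ?_
  simp only
  have h1 : |s| ≤ |s + w v| + |w v| := by
    have := abs_sub (s + w v) (w v)
    simpa using this
  linarith

/-- Integration by parts at fixed `v`: `g` in place of `s^j`. -/
theorem TT_ibp {A A' : ℕ → ℝ} {w : V → ℝ} {f u : V × ℝ → ℝ} {G : V → V × ℝ → ℝ} {B : V × ℝ → ℂ}
    (hD : Dat A w f u G) (hB : Am A' w B) {lam : ℝ} (hlam : 1 ≤ lam) (v : V) {g g' : ℝ → ℝ}
    (hg : ∀ s, HasDerivAt g (g' s) s) (hg' : Continuous g') :
    ∫ s : ℝ, ((g s * s : ℝ) : ℂ) * B (v, s) *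
        Complex.exp (((lam * f (v, s) : ℝ) : ℂ) * Complex.I) =
      (Complex.I / lam) * ∫ s : ℝ, (((g' s : ℝ) : ℂ) * (u (v, s) • B (v, s)) +
        ((g s : ℝ) : ℂ) * fderiv ℝ (fun y => u y • B y) (v, s) (0, 1)) *
        Complex.exp (((lam * f (v, s) : ℝ) : ℂ) * Complex.I) := by
  have hsm : ContDiff ℝ ∞ fun y => u y • B y := hD.us.sm.smul hB.bs.sm
  have key := sp_ibp (g := fun s => ((g s : ℝ) : ℂ) * (u (v, s) • B (v, s)))
    (g' := fun s => ((g' s : ℝ) : ℂ) * (u (v, s) • B (v, s)) +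
        ((g s : ℝ) : ℂ) * fderiv ℝ (fun y => u y • B y) (v, s) (0, 1))
    (f := fun s => f (v, s)) (f' := fun s => fderiv ℝ f (v, s) (0, 1)) (R := |w v| + 1)
    (lam := lam) (fun s => ((hg s).ofReal_comp).mul (hasDerivAt_slice hsm v s))
    (fun s => hasDerivAt_slice hD.fs v s) ?_ ?_ ?_ (by linarith)
  · rw [← key]
    refine integral_congr_ae (Filter.Eventually.of_forall fun s => ?_)
    simp only
    have h1 := hD.uf (v, s)
    simp only at h1
    have e : ((g s * s : ℝ) : ℂ) =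
        ((g s : ℝ) : ℂ) * ((u (v, s) * fderiv ℝ f (v, s) (0, 1) : ℝ) : ℂ) := by
      rw [h1]
      push_cast
      ring
    rw [e, Complex.real_smul]
    push_cast
    ring
  · have h1 : Continuous fun s : ℝ => u (v, s) • B (v, s) :=
      hsm.continuous.comp (by fun_prop : Continuous fun s : ℝ => (v, s))
    have h2 : Continuous fun s : ℝ => fderiv ℝ (fun y => u y • B y) (v, s) ((0 : V), (1 : ℝ)) := by
      have := (sm_fderiv hsm).continuous
      fun_prop
    have h3 : Continuous g := continuous_iff_continuousAt.2 fun s => (hg s).continuousAt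
    fun_prop
  · have := (sm_fderiv hD.fs).continuous
    fun_prop
  · intro s hs
    rw [hB.zero_of v hs, smul_zero, mul_zero]

theorem TT_int {A' : ℕ → ℝ} {w : V → ℝ} {f : V × ℝ → ℝ} {B : V × ℝ → ℂ} (hf : ContDiff ℝ ∞ f)
    (hB : Am A' w B) (lam : ℝ) (v : V) {g : ℝ → ℝ} (hg : Continuous g) :
    Integrable fun s : ℝ => ((g s : ℝ) : ℂ) * B (v, s) *
        Complex.exp (((lam * f (v, s) : ℝ) : ℂ) * Complex.I) := by
  have h1 : Continuous fun s : ℝ => B (v, s) :=
    hB.bs.sm.continuous.comp (by fun_prop : Continuous fun s : ℝ => (v, s))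
  have h2 : Continuous fun s : ℝ => f (v, s) :=
    hf.continuous.comp (by fun_prop : Continuous fun s : ℝ => (v, s))
  have h3 : Continuous fun s => ((g s : ℝ) : ℂ) := Complex.continuous_ofReal.comp hg
  have h4 : Continuous fun s => ((lam * f (v, s) : ℝ) : ℂ) :=
    Complex.continuous_ofReal.comp (continuous_const.mul h2)
  refine Continuous.integrable_of_hasCompactSupport
    ((h3.mul h1).mul (Complex.continuous_exp.comp (h4.mul continuous_const))) ?_
  refine HasCompactSupport.intro (isCompact_closedBall (0 : ℝ) (|w v| + 1)) fun s hs => ?_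
  rw [hB.zero_of v (by simpa using hs), mul_zero, zero_mul]

theorem lam_rpow {lam : ℝ} (hlam : 1 ≤ lam) (a b : ℝ) : lam ^ (a + b) = lam ^ a * lam ^ b :=
  Real.rpow_add (by linarith) a b

theorem TT_rec {A A' : ℕ → ℝ} {w : V → ℝ} {f u : V × ℝ → ℝ} {G : V → V × ℝ → ℝ} {B : V × ℝ → ℂ}
    (hD : Dat A w f u G) (hB : Am A' w B) {lam : ℝ} (hlam : 1 ≤ lam) (j : ℕ) (v : V) :
    ‖TT lam f (j + 1) B v‖ ≤ j * ‖TT lam f (j - 1) (fun y => u y • B y) v‖ +
      ‖TT lam f j (fun y => fderiv ℝ (fun y => u y • B y) y (0, 1)) v‖ := by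
  have hl0 : 0 < lam := by linarith
  have hB1 := hB.smul hD.us
  have hB2 := hB1.dir hD.wc norm_01
  have h1 := TT_ibp hD hB hlam v (g := fun s => s ^ j) (g' := fun s => (j : ℝ) * s ^ (j - 1))
    (fun s => hasDerivAt_pow j s) (by fun_prop)
  have h2 : TT lam f (j + 1) B v = ((lam ^ (((j : ℝ) + 2) / 2) : ℝ) : ℂ) * ((Complex.I / lam) *
      ((j : ℂ) * (∫ s : ℝ, ((s ^ (j - 1) : ℝ) : ℂ) * (u (v, s) • B (v, s)) *
        Complex.exp (((lam * f (v, s) : ℝ) : ℂ) * Complex.I)) +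
      ∫ s : ℝ, ((s ^ j : ℝ) : ℂ) * fderiv ℝ (fun y => u y • B y) (v, s) (0, 1) *
        Complex.exp (((lam * f (v, s) : ℝ) : ℂ) * Complex.I))) := by
    unfold TT
    have e0 : (j : ℂ) * (∫ s : ℝ, ((s ^ (j - 1) : ℝ) : ℂ) * (u (v, s) • B (v, s)) *
        Complex.exp (((lam * f (v, s) : ℝ) : ℂ) * Complex.I)) =
        ∫ s : ℝ, (j : ℂ) * (((s ^ (j - 1) : ℝ) : ℂ) * (u (v, s) • B (v, s)) *
        Complex.exp (((lam * f (v, s) : ℝ) : ℂ) * Complex.I)) := (integral_const_mul _ _).symm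
    rw [e0, ← integral_add ((TT_int hD.fs hB1 lam v (by fun_prop)).const_mul _)
      (TT_int hD.fs hB2 lam v (by fun_prop))]
    have e1 : (((j + 1 : ℕ) : ℝ) + 1) / 2 = ((j : ℝ) + 2) / 2 := by push_cast; ring
    rw [e1]
    congr 1
    have e2 : ∀ s : ℝ, ((s ^ (j + 1) : ℝ) : ℂ) = ((s ^ j * s : ℝ) : ℂ) := fun s => by
      rw [pow_succ]
    simp only [e2]
    rw [h1]
    congr 1
    refine integral_congr_ae (Filter.Eventually.of_forall fun s => ?_)
    simp only
    push_cast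
    ring
  have e3 : ((j : ℝ) + 2) / 2 = (j : ℝ) / 2 + 1 := by ring
  have hc : ‖((lam ^ (((j : ℝ) + 2) / 2) : ℝ) : ℂ) * (Complex.I / lam)‖ = lam ^ ((j : ℝ) / 2) := by
    rw [norm_mul, norm_div, Complex.norm_I, Complex.norm_real, Complex.norm_real, Real.norm_eq_abs,
      Real.norm_eq_abs, abs_of_pos (Real.rpow_pos_of_pos hl0 _), abs_of_pos hl0, e3,
      lam_rpow hlam, Real.rpow_one]
    field_simp
  rw [h2, ← mul_assoc, norm_mul, hc]
  have hpos : 0 < lam ^ ((j : ℝ) / 2) := Real.rpow_pos_of_pos hl0 _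
  refine (mul_le_mul_of_nonneg_left (norm_add_le _ _) hpos.le).trans ?_
  rw [mul_add]
  refine add_le_add ?_ ?_
  · rw [norm_mul]
    rcases Nat.eq_zero_or_pos j with rfl | hj
    · simp
    · have e4 : (((j - 1 : ℕ) : ℝ) + 1) / 2 = (j : ℝ) / 2 := by
        rw [Nat.cast_sub hj]
        push_cast
        ring
      unfold TT
      rw [e4, norm_mul, Complex.norm_natCast, Complex.norm_real, Real.norm_eq_abs, abs_of_pos hpos]
      apply le_of_eq
      ring
  · unfold TT
    rw [norm_mul, Complex.norm_real, Real.norm_eq_abs, abs_of_pos (Real.rpow_pos_of_pos hl0 _)]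
    refine mul_le_mul_of_nonneg_right ?_ (norm_nonneg _)
    exact Real.rpow_le_rpow_of_exponent_le hlam (by linarith)

/-- The base case. -/
theorem TT_zero {A A' : ℕ → ℝ} {w : V → ℝ} {f u : V × ℝ → ℝ} {G : V → V × ℝ → ℝ} {B : V × ℝ → ℂ}
    (hD : Dat A w f u G) (hB : Am A' w B) {lam : ℝ} (hlam : 1 ≤ lam) (v : V) :
    ‖TT lam f 0 B v‖ ≤ π * (A' 0 + cmul A A' 0) + cmul A A' 1 := by
  have hl0 : 0 < lam := by linarith
  have hB1 := hB.smul hD.us
  have hB2 := hB1.dir hD.wc norm_01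
  set th : ℝ → ℝ := fun s => (1 + lam * s ^ 2)⁻¹ with hth
  have hth0 : ∀ s, 0 < 1 + lam * s ^ 2 := fun s => by positivity
  have hthc : Continuous th := by
    rw [hth]
    exact Continuous.inv₀ (by fun_prop) fun s => (hth0 s).ne'
  have hd : ∀ s, HasDerivAt (fun s => lam * s * th s)
      (lam * th s - lam * s * (2 * lam * s * th s ^ 2)) s := by
    intro s
    have h1 : HasDerivAt (fun s : ℝ => 1 + lam * s ^ 2) (2 * lam * s) s := by
      refine (((hasDerivAt_pow 2 s).const_mul lam).const_add 1).congr_deriv ?_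
      norm_num
      ring
    have h2 : HasDerivAt th (-(2 * lam * s) / (1 + lam * s ^ 2) ^ 2) s := h1.inv (hth0 s).ne'
    have h3 : HasDerivAt (fun s : ℝ => lam * s) lam s := by
      simpa using (hasDerivAt_id s).const_mul lam
    refine (h3.mul h2).congr_deriv ?_
    rw [hth]
    simp only
    rw [inv_pow]
    ring
  have h1 := TT_ibp hD hB hlam v hd (by fun_prop)
  -- the splitting
  have e1 : ∫ s : ℝ, B (v, s) * Complex.exp (((lam * f (v, s) : ℝ) : ℂ) * Complex.I) =
      (∫ s : ℝ, ((th s : ℝ) : ℂ) * B (v, s) *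
        Complex.exp (((lam * f (v, s) : ℝ) : ℂ) * Complex.I)) +
      ∫ s : ℝ, ((lam * s * th s * s : ℝ) : ℂ) * B (v, s) *
        Complex.exp (((lam * f (v, s) : ℝ) : ℂ) * Complex.I) := by
    rw [← integral_add (TT_int hD.fs hB lam v hthc)
      (TT_int hD.fs hB lam v (g := fun s => lam * s * th s * s) (by fun_prop))]
    refine integral_congr_ae (Filter.Eventually.of_forall fun s => ?_)
    simp only
    rw [← add_mul, ← add_mul, ← Complex.ofReal_add]
    have e2 : th s + lam * s * th s * s = 1 := by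
      have := hth0 s
      rw [hth]
      simp only
      field_simp
    rw [e2, Complex.ofReal_one, one_mul]
  -- the bounds
  set D1 : ℝ := cmul A A' 0 with hD1
  set D2 : ℝ := cmul A A' 1 with hD2
  have b0 : ∀ y, ‖B y‖ ≤ A' 0 := fun y => by
    have := hB.bs.bd 0 y
    rwa [norm_iteratedFDeriv_zero] at this
  have b1 : ∀ y, ‖u y • B y‖ ≤ D1 := fun y => by
    have := hB1.bs.bd 0 y
    rwa [norm_iteratedFDeriv_zero] at this
  have b2 : ∀ y, ‖fderiv ℝ (fun y => u y • B y) y (0, 1)‖ ≤ D2 := fun y => by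
    have := hB2.bs.bd 0 y
    rwa [norm_iteratedFDeriv_zero] at this
  have hthi : Integrable th := by
    have h2 : th = fun s => (1 + (√lam * s) ^ 2)⁻¹ := by
      funext s
      rw [hth, mul_pow, Real.sq_sqrt hl0.le]
    rw [h2]
    exact integrable_inv_one_add_sq.comp_mul_left' (Real.sqrt_pos.2 hl0).ne'
  have hthv : ∫ s, th s = (√lam)⁻¹ * π := by
    have h2 : th = fun s => (fun x : ℝ => (1 + x ^ 2)⁻¹) (√lam * s) := by
      funext s
      simp only
      rw [hth, mul_pow, Real.sq_sqrt hl0.le]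
    rw [h2, Measure.integral_comp_mul_left, integral_univ_inv_one_add_sq, smul_eq_mul,
      abs_of_pos (inv_pos.2 (Real.sqrt_pos.2 hl0))]
  have c1 : ‖∫ s : ℝ, ((th s : ℝ) : ℂ) * B (v, s) *
        Complex.exp (((lam * f (v, s) : ℝ) : ℂ) * Complex.I)‖ ≤ A' 0 * ((√lam)⁻¹ * π) := by
    rw [← hthv, ← integral_const_mul]
    refine norm_integral_le_of_norm_le (hthi.const_mul _) (Filter.Eventually.of_forall fun s => ?_)
    rw [norm_mul, norm_mul, Complex.norm_exp_ofReal_mul_I, mul_one, Complex.norm_real,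
      Real.norm_eq_abs, abs_of_pos (inv_pos.2 (hth0 s)), mul_comm]
    exact mul_le_mul_of_nonneg_right (b0 _) (inv_pos.2 (hth0 s)).le
  have c2 : ‖∫ s : ℝ, (((lam * th s - lam * s * (2 * lam * s * th s ^ 2) : ℝ) : ℂ) *
        (u (v, s) • B (v, s)) + ((lam * s * th s : ℝ) : ℂ) *
        fderiv ℝ (fun y => u y • B y) (v, s) (0, 1)) *
        Complex.exp (((lam * f (v, s) : ℝ) : ℂ) * Complex.I)‖ ≤
      lam * (D1 * ((√lam)⁻¹ * π) + D2 * (√lam)⁻¹) := by
    have hsl : 0 < √lam := Real.sqrt_pos.2 hl0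
    have hsl2 : √lam * √lam = lam := Real.mul_self_sqrt hl0.le
    have hD10 : 0 ≤ D1 := (norm_nonneg _).trans (b1 (v, 0))
    have hD20 : 0 ≤ D2 := (norm_nonneg _).trans (b2 (v, 0))
    set J : Set ℝ := Icc (-1 - w v) (1 - w v) with hJ
    have i2 : Integrable fun s => J.indicator (fun _ => lam * (√lam)⁻¹ / 2 * D2) s := by
      refine (integrable_indicator_iff measurableSet_Icc).2 ?_
      exact (continuous_const.integrableOn_Icc)
    have hbi : Integrable fun s => D1 * (lam * th s) +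
        J.indicator (fun _ => lam * (√lam)⁻¹ / 2 * D2) s :=
      ((hthi.const_mul lam).const_mul D1).add i2
    have hbv : ∫ s, (D1 * (lam * th s) + J.indicator (fun _ => lam * (√lam)⁻¹ / 2 * D2) s) =
        lam * (D1 * ((√lam)⁻¹ * π) + D2 * (√lam)⁻¹) := by
      rw [integral_add ((hthi.const_mul lam).const_mul D1) i2, integral_const_mul,
        integral_const_mul, hthv, integral_indicator measurableSet_Icc, setIntegral_const,
        Real.volume_real_Icc_of_le (by linarith), smul_eq_mul]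
      ring
    rw [← hbv]
    refine norm_integral_le_of_norm_le hbi (Filter.Eventually.of_forall fun s => ?_)
    rw [norm_mul, Complex.norm_exp_ofReal_mul_I, mul_one]
    refine (norm_add_le _ _).trans (add_le_add ?_ ?_)
    · rw [norm_mul, Complex.norm_real, Real.norm_eq_abs, mul_comm D1]
      refine mul_le_mul ?_ (b1 _) (norm_nonneg _) (mul_nonneg hl0.le (inv_pos.2 (hth0 s)).le)
      have h2 : 0 < th s := inv_pos.2 (hth0 s)
      have h3 : lam * s ^ 2 * th s ≤ 1 := by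
        rw [hth]
        simp only
        rw [← div_eq_mul_inv, div_le_one (hth0 s)]
        linarith
      have h4 : 0 ≤ lam * s ^ 2 * th s := by positivity
      rw [abs_le]
      constructor <;> nlinarith [mul_pos hl0 h2]
    · by_cases hs : s ∈ J
      · rw [indicator_of_mem hs, norm_mul, Complex.norm_real, Real.norm_eq_abs]
        refine mul_le_mul ?_ (b2 _) (norm_nonneg _) (by positivity)
        have h2 : 0 < th s := inv_pos.2 (hth0 s)
        rw [abs_mul, abs_mul, abs_of_pos hl0, abs_of_pos h2]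
        have h3 : √lam * |s| ≤ (1 + lam * s ^ 2) / 2 := by
          have h5 : (√lam * |s|) ^ 2 = lam * s ^ 2 := by rw [mul_pow, sq_abs, Real.sq_sqrt hl0.le]
          nlinarith [sq_nonneg (√lam * |s| - 1)]
        have h4 : |s| * th s ≤ (√lam)⁻¹ / 2 := by
          rw [hth]
          simp only
          rw [← div_eq_mul_inv, div_le_iff₀ (hth0 s)]
          calc |s| = (√lam)⁻¹ * (√lam * |s|) := by field_simp
            _ ≤ (√lam)⁻¹ * ((1 + lam * s ^ 2) / 2) := by gcongr
            _ = (√lam)⁻¹ / 2 * (1 + lam * s ^ 2) := by ring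
        calc lam * |s| * th s = lam * (|s| * th s) := by ring
          _ ≤ lam * ((√lam)⁻¹ / 2) := by gcongr
          _ = lam * (√lam)⁻¹ / 2 := by ring
      · rw [indicator_of_notMem hs, hB2.supp (v, s) ?_, mul_zero, norm_zero]
        simp only
        by_contra hcon
        push Not at hcon
        apply hs
        rw [abs_le] at hcon
        exact ⟨by linarith [hcon.1], by linarith [hcon.2]⟩
  have hsl : 0 < √lam := Real.sqrt_pos.2 hl0
  unfold TT
  have e5 : (((0 : ℕ) : ℝ) + 1) / 2 = 1 / 2 := by norm_num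
  rw [e5, ← Real.sqrt_eq_rpow, norm_mul, Complex.norm_real, Real.norm_eq_abs, abs_of_pos hsl]
  have e6 : ∫ s : ℝ, ((s ^ 0 : ℝ) : ℂ) * B (v, s) *
      Complex.exp (((lam * f (v, s) : ℝ) : ℂ) * Complex.I) =
      ∫ s : ℝ, B (v, s) * Complex.exp (((lam * f (v, s) : ℝ) : ℂ) * Complex.I) := by
    refine integral_congr_ae (Filter.Eventually.of_forall fun s => ?_)
    simp
  rw [e6, e1, h1]
  calc √lam * ‖(∫ s : ℝ, ((th s : ℝ) : ℂ) * B (v, s) *
        Complex.exp (((lam * f (v, s) : ℝ) : ℂ) * Complex.I)) + _‖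
      ≤ √lam * (A' 0 * ((√lam)⁻¹ * π) + lam⁻¹ * (lam * (D1 * ((√lam)⁻¹ * π) + D2 * (√lam)⁻¹))) := by
        refine mul_le_mul_of_nonneg_left ((norm_add_le _ _).trans (add_le_add c1 ?_)) hsl.le
        rw [norm_mul, norm_div, Complex.norm_I, Complex.norm_real, Real.norm_eq_abs,
          abs_of_pos hl0, one_div]
        exact mul_le_mul_of_nonneg_left c2 (inv_pos.2 hl0).le
    _ = π * (A' 0 + D1) + D2 := by
        field_simp
        ring

end

end Pool.Agent.GNP
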