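import Pool.Agent.GNP.SPc

/-!
All derivatives of the integrals `TT`.
-/

namespace Pool.Agent.GNP

open MeasureTheory Set
open scoped ContDiff Real

section

variable {V : Type} [NormedAddCommGroup V] [NormedSpace ℝ V]

/-- The bound of `TT`. -/
theorem TT_bound (V : Type) [NormedAddCommGroup V] [NormedSpace ℝ V] (A : ℕ → ℝ) (j : ℕ) :
    ∀ A' : ℕ → ℝ, ∃ C : ℝ, ∀ (w : V → ℝ) (f u : V × ℝ → ℝ) (G : V → V × ℝ → ℝ) (B : V × ℝ → ℂ)
      (lam : ℝ), 1 ≤ lam → Dat A w f u G → Am A' w B → ∀ v, ‖TT lam f j B v‖ ≤ C := by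
  induction j using Nat.strong_induction_on with
  | _ j ih =>
    intro A'
    rcases j with _ | j
    · exact ⟨_, fun w f u G B lam hlam hD hB v => TT_zero hD hB hlam v⟩
    · obtain ⟨C2, hC2⟩ := ih j (by omega) (fun j => cmul A A' (j + 1))
      rcases j with _ | j
      · refine ⟨C2, fun w f u G B lam hlam hD hB v => ?_⟩
        refine (TT_rec hD hB hlam 0 v).trans ?_
        have h2 := hC2 w f u G _ lam hlam hD ((hB.smul hD.us).dir hD.wc norm_01) v
        simpa using h2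
      · obtain ⟨C1, hC1⟩ := ih j (by omega) (cmul A A')
        refine ⟨((j + 1 : ℕ) : ℝ) * C1 + C2, fun w f u G B lam hlam hD hB v => ?_⟩
        refine (TT_rec hD hB hlam (j + 1) v).trans ?_
        have h1 := hC1 w f u G _ lam hlam hD (hB.smul hD.us) v
        have h2 := hC2 w f u G _ lam hlam hD ((hB.smul hD.us).dir hD.wc norm_01) v
        have e : j + 1 - 1 = j := rfl
        rw [e]
        gcongr

variable [ProperSpace V] in
/-- Integrals with moving compact support. -/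
theorem mint_fderiv {F : Type} [NormedAddCommGroup F] [NormedSpace ℝ F] {K : V × ℝ → F}
    (hK : ContDiff ℝ ∞ K) {w : V → ℝ} (hw : Continuous w) (h0 : ∀ y, 1 < |y.2 + w y.1| → K y = 0)
    (v0 : V) : HasFDerivAt (fun v => ∫ s, K (v, s))
      (∫ s, (fderiv ℝ K (v0, s)).comp (ContinuousLinearMap.inl ℝ V ℝ)) v0 := by
  set R : ℝ := |w v0| + 3 with hR
  have hμ : ∀ᵐ t ∂((volume : Measure ℝ).restrict (Icc (-R) R)), t ∈ Icc (-R) R :=
    ae_restrict_mem measurableSet_Icc
  have hfin : IsFiniteMeasure ((volume : Measure ℝ).restrict (Icc (-R) R)) := by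
    refine ⟨?_⟩
    rw [Measure.restrict_apply MeasurableSet.univ, univ_inter, Real.volume_Icc]
    exact ENNReal.ofReal_lt_top
  have h1 := pint_fderiv ((volume : Measure ℝ).restrict (Icc (-R) R)) isCompact_Icc hμ hK v0
  have hz : ∀ v, |w v| < |w v0| + 1 → ∀ s, s ∉ Icc (-R) R → K (v, s) = 0 := by
    intro v hv s hs
    refine h0 _ ?_
    simp only
    have h2 : R < |s| := by
      by_contra hcon
      push Not at hcon
      exact hs ⟨by linarith [(abs_le.1 hcon).1], (abs_le.1 hcon).2⟩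
    have h3 : |s| ≤ |s + w v| + |w v| := by
      have := abs_sub (s + w v) (w v)
      simpa using this
    rw [hR] at h2
    linarith
  have hnb : ∀ᶠ v in nhds v0, |w v| < |w v0| + 1 :=
    (isOpen_lt (by fun_prop : Continuous fun v => |w v|) continuous_const).mem_nhds
      (by simp)
  have h2 : (fun v => ∫ s, K (v, s)) =ᶠ[nhds v0]
      fun v => ∫ s, K (v, s) ∂((volume : Measure ℝ).restrict (Icc (-R) R)) := by
    filter_upwards [hnb] with v hv
    rw [← setIntegral_eq_integral_of_forall_compl_eq_zero (s := Icc (-R) R)]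
    exact hz v hv
  have h3 : ∫ s, (fderiv ℝ K (v0, s)).comp (ContinuousLinearMap.inl ℝ V ℝ) =
      ∫ s, (fderiv ℝ K (v0, s)).comp (ContinuousLinearMap.inl ℝ V ℝ)
        ∂((volume : Measure ℝ).restrict (Icc (-R) R)) := by
    rw [← setIntegral_eq_integral_of_forall_compl_eq_zero (s := Icc (-R) R)]
    intro s hs
    have h4 : K =ᶠ[nhds (v0, s)] fun _ => 0 := by
      have h5 : {y : V × ℝ | 1 < |y.2 + w y.1|} ∈ nhds (v0, s) := by
        refine (isOpen_lt continuous_const (by fun_prop)).mem_nhds ?_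
        change 1 < |s + w v0|
        have h2 : R < |s| := by
          by_contra hcon
          push Not at hcon
          exact hs ⟨by linarith [(abs_le.1 hcon).1], (abs_le.1 hcon).2⟩
        have h3 : |s| ≤ |s + w v0| + |w v0| := by
          have := abs_sub (s + w v0) (w v0)
          simpa using this
        rw [hR] at h2
        linarith
      filter_upwards [h5] with y hy
      exact h0 y hy
    rw [h4.fderiv_eq]
    simp
  rw [h3]
  exact h1.congr_of_eventuallyEq h2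

variable [ProperSpace V] in
theorem mint_sm {K : V × ℝ → ℂ} (hK : ContDiff ℝ ∞ K) {w : V → ℝ} (hw : Continuous w)
    (h0 : ∀ y, 1 < |y.2 + w y.1| → K y = 0) : ContDiff ℝ ∞ fun v => ∫ s, K (v, s) := by
  rw [contDiff_iff_contDiffAt]
  intro v0
  set R : ℝ := |w v0| + 3 with hR
  have hμ : ∀ᵐ t ∂((volume : Measure ℝ).restrict (Icc (-R) R)), t ∈ Icc (-R) R :=
    ae_restrict_mem measurableSet_Icc
  have hfin : IsFiniteMeasure ((volume : Measure ℝ).restrict (Icc (-R) R)) := by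
    refine ⟨?_⟩
    rw [Measure.restrict_apply MeasurableSet.univ, univ_inter, Real.volume_Icc]
    exact ENNReal.ofReal_lt_top
  have h1 := pint_sm ((volume : Measure ℝ).restrict (Icc (-R) R)) isCompact_Icc hμ hK
  have hnb : ∀ᶠ v in nhds v0, |w v| < |w v0| + 1 :=
    (isOpen_lt (by fun_prop : Continuous fun v => |w v|) continuous_const).mem_nhds
      (by simp)
  refine h1.contDiffAt.congr_of_eventuallyEq ?_
  filter_upwards [hnb] with v hv
  rw [← setIntegral_eq_integral_of_forall_compl_eq_zero (s := Icc (-R) R)]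
  intro s hs
  refine h0 _ ?_
  simp only
  have h2 : R < |s| := by
    by_contra hcon
    push Not at hcon
    exact hs ⟨by linarith [(abs_le.1 hcon).1], (abs_le.1 hcon).2⟩
  have h3 : |s| ≤ |s + w v| + |w v| := by
    have := abs_sub (s + w v) (w v)
    simpa using this
  rw [hR] at h2
  linarith

/-- The integrand of `TT`. -/
noncomputable def KK (lam : ℝ) (f : V × ℝ → ℝ) (j : ℕ) (B : V × ℝ → ℂ) (y : V × ℝ) : ℂ :=
  ((y.2 ^ j : ℝ) : ℂ) * B y * Complex.exp (((lam * f y : ℝ) : ℂ) * Complex.I)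

theorem KK_sm {A' : ℕ → ℝ} {w : V → ℝ} {f : V × ℝ → ℝ} {B : V × ℝ → ℂ} (hf : ContDiff ℝ ∞ f)
    (hB : Am A' w B) (lam : ℝ) (j : ℕ) : ContDiff ℝ ∞ (KK lam f j B) := by
  unfold KK
  have h1 := hB.bs.sm
  have h2 : ContDiff ℝ ∞ fun y : V × ℝ => ((y.2 ^ j : ℝ) : ℂ) :=
    Complex.ofRealCLM.contDiff.comp (contDiff_snd.pow j)
  have h3 : ContDiff ℝ ∞ fun y : V × ℝ => (((lam * f y : ℝ) : ℂ) * Complex.I) :=
    (Complex.ofRealCLM.contDiff.comp (contDiff_const.mul hf)).mul contDiff_const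
  exact (h2.mul h1).mul (h3.cexp)

theorem KK_fderiv {A A' : ℕ → ℝ} {w : V → ℝ} {f u : V × ℝ → ℝ} {G : V → V × ℝ → ℝ}
    {B : V × ℝ → ℂ} (hD : Dat A w f u G) (hB : Am A' w B) (lam : ℝ) (j : ℕ) {e : V} (he : ‖e‖ ≤ 1)
    (y : V × ℝ) : fderiv ℝ (KK lam f j B) y (e, 0) =
      KK lam f j (fun y => fderiv ℝ B y (e, 0)) y +
        (Complex.I * lam) * KK lam f (j + 2) (fun y => G e y • B y) y := by
  have h1 : HasFDerivAt (fun y : V × ℝ => ((y.2 ^ j : ℝ) : ℂ))
      (Complex.ofRealCLM.comp ((((j : ℝ) * y.2 ^ (j - 1))) • ContinuousLinearMap.snd ℝ V ℝ)) y := by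
    have h := (hasDerivAt_pow j y.2).comp_hasFDerivAt y (hasFDerivAt_snd (𝕜 := ℝ) (E := V) (F := ℝ))
    exact Complex.ofRealCLM.hasFDerivAt.comp y h
  have h2 : HasFDerivAt B (fderiv ℝ B y) y := ((hB.bs.sm.differentiable (by simp)) y).hasFDerivAt
  have h3 : HasFDerivAt f (fderiv ℝ f y) y := ((hD.fs.differentiable (by simp)) y).hasFDerivAt
  have h4 : HasFDerivAt (fun y => (((lam * f y : ℝ) : ℂ) * Complex.I))
      ((Complex.ofRealCLM.comp (lam • fderiv ℝ f y)).smulRight Complex.I) y := by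
    have h := Complex.ofRealCLM.hasFDerivAt.comp y (h3.const_mul lam)
    exact h.mul_const' Complex.I
  have h5 := ((h1.mul h2).mul h4.cexp).fderiv
  have h6 : fderiv ℝ (KK lam f j B) y = _ := h5
  rw [h6]
  have hg := hD.gf e he y
  simp only [add_apply, smul_apply, ContinuousLinearMap.smulRight_apply,
    ContinuousLinearMap.comp_apply, Pi.mul_apply, smul_eq_mul, Complex.ofRealCLM_apply,
    ContinuousLinearMap.coe_snd', hg, KK, Complex.real_smul]
  push_cast
  ring

theorem TT_eq (lam : ℝ) (f : V × ℝ → ℝ) (j : ℕ) (B : V × ℝ → ℂ) :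
    TT lam f j B = fun v => ((lam ^ (((j : ℝ) + 1) / 2) : ℝ) : ℂ) * ∫ s, KK lam f j B (v, s) := rfl

omit [NormedSpace ℝ V] in
theorem norm_e0 {e : V} (he : ‖e‖ ≤ 1) : ‖(e, (0 : ℝ))‖ ≤ 1 := by
  simpa [Prod.norm_def] using he

theorem KK_supp {A' : ℕ → ℝ} {w : V → ℝ} {f : V × ℝ → ℝ} {B : V × ℝ → ℂ}
    (hB : Am A' w B) (lam : ℝ) (j : ℕ) (y : V × ℝ) (hy : 1 < |y.2 + w y.1|) :
    KK lam f j B y = 0 := by
  unfold KK
  rw [hB.supp y hy, mul_zero, zero_mul]

variable [ProperSpace V]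

theorem TT_sm {A A' : ℕ → ℝ} {w : V → ℝ} {f u : V × ℝ → ℝ} {G : V → V × ℝ → ℝ}
    {B : V × ℝ → ℂ} (hD : Dat A w f u G) (hB : Am A' w B) (lam : ℝ) (j : ℕ) :
    ContDiff ℝ ∞ (TT lam f j B) := by
  rw [TT_eq]
  exact contDiff_const.mul (mint_sm (KK_sm hD.fs hB lam j) hD.wc (KK_supp hB lam j))

theorem TT_fderiv {A A' : ℕ → ℝ} {w : V → ℝ} {f u : V × ℝ → ℝ} {G : V → V × ℝ → ℝ}
    {B : V × ℝ → ℂ} (hD : Dat A w f u G) (hB : Am A' w B) {lam : ℝ} (hlam : 1 ≤ lam) (j : ℕ) {e : V}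
    (he : ‖e‖ ≤ 1) (v : V) : fderiv ℝ (TT lam f j B) v e =
      TT lam f j (fun y => fderiv ℝ B y (e, 0)) v +
        Complex.I * TT lam f (j + 2) (fun y => G e y • B y) v := by
  have hKs := KK_sm hD.fs hB lam j
  have h1 := (mint_fderiv hKs hD.wc (KK_supp hB lam j) v).const_mul
    ((lam ^ (((j : ℝ) + 1) / 2) : ℝ) : ℂ)
  have h2 : fderiv ℝ (TT lam f j B) v = _ := h1.fderiv
  rw [h2]
  have hB1 : Am _ w fun y => fderiv ℝ B y (e, 0) := hB.dir hD.wc (norm_e0 he)
  have hB2 : Am _ w fun y => G e y • B y := hB.smul (hD.gs e he)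
  have hcs : ∀ {F : Type} [NormedAddCommGroup F] [NormedSpace ℝ F] (K : V × ℝ → F),
      Continuous K → (∀ y, 1 < |y.2 + w y.1| → K y = 0) → Integrable fun s => K (v, s) := by
    intro F _ _ K hK h0
    refine (hK.comp (by fun_prop : Continuous fun s : ℝ => (v, s))).integrable_of_hasCompactSupport
      ?_
    refine HasCompactSupport.intro (isCompact_closedBall (0 : ℝ) (|w v| + 1)) fun s hs => ?_
    refine h0 _ ?_
    simp only
    have h2 : |w v| + 1 < |s| := by simpa using hs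
    have h3 : |s| ≤ |s + w v| + |w v| := by
      have := abs_sub (s + w v) (w v)
      simpa using this
    linarith
  have hint : Integrable fun s => (fderiv ℝ (KK lam f j B) (v, s)).comp
      (ContinuousLinearMap.inl ℝ V ℝ) := by
    refine hcs (fun y => (fderiv ℝ (KK lam f j B) y).comp (ContinuousLinearMap.inl ℝ V ℝ))
      ((sm_fderiv hKs).continuous.clm_comp continuous_const) fun y hy => ?_
    have h4 : KK lam f j B =ᶠ[nhds y] fun _ => 0 := by
      have h5 : {y : V × ℝ | 1 < |y.2 + w y.1|} ∈ nhds y :=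
        (isOpen_lt continuous_const (by have := hD.wc; fun_prop)).mem_nhds hy
      filter_upwards [h5] with z hz
      exact KK_supp hB lam j z hz
    rw [h4.fderiv_eq]
    simp
  rw [smul_apply, ContinuousLinearMap.integral_apply hint, smul_eq_mul]
  have h3 : ∀ s : ℝ, ((fderiv ℝ (KK lam f j B) (v, s)).comp (ContinuousLinearMap.inl ℝ V ℝ)) e =
      KK lam f j (fun y => fderiv ℝ B y (e, 0)) (v, s) +
        (Complex.I * lam) * KK lam f (j + 2) (fun y => G e y • B y) (v, s) := fun s => by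
    rw [ContinuousLinearMap.comp_apply, ContinuousLinearMap.inl_apply]
    exact KK_fderiv hD hB lam j he (v, s)
  simp only [h3]
  rw [integral_add (hcs _ (KK_sm hD.fs hB1 lam j).continuous (KK_supp hB1 lam j))
    ((hcs _ (KK_sm hD.fs hB2 lam (j + 2)).continuous (KK_supp hB2 lam (j + 2))).const_mul _),
    integral_const_mul, mul_add, TT_eq, TT_eq]
  simp only
  have e1 : (((j + 2 : ℕ) : ℝ) + 1) / 2 = ((j : ℝ) + 1) / 2 + 1 := by push_cast; ring
  rw [e1, lam_rpow hlam, Real.rpow_one]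
  push_cast
  ring

/-- Iterated derivatives on unit vectors. -/
theorem TT_iter (V : Type) [NormedAddCommGroup V] [NormedSpace ℝ V] [ProperSpace V] (A : ℕ → ℝ)
    (n : ℕ) : ∀ (j : ℕ) (A' : ℕ → ℝ), ∃ C : ℝ, ∀ (w : V → ℝ) (f u : V × ℝ → ℝ)
      (G : V → V × ℝ → ℝ) (B : V × ℝ → ℂ) (lam : ℝ), 1 ≤ lam → Dat A w f u G → Am A' w B →
      ∀ v (m : Fin n → V), (∀ i, ‖m i‖ ≤ 1) → ‖iteratedFDeriv ℝ n (TT lam f j B) v m‖ ≤ C := by
  induction n with
  | zero =>
    intro j A'
    obtain ⟨C, hC⟩ := TT_bound V A j A'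
    refine ⟨C, fun w f u G B lam hlam hD hB v m _ => ?_⟩
    rw [iteratedFDeriv_zero_apply]
    exact hC w f u G B lam hlam hD hB v
  | succ n ih =>
    intro j A'
    obtain ⟨C1, hC1⟩ := ih j (fun i => A' (i + 1))
    obtain ⟨C2, hC2⟩ := ih (j + 2) (cmul A A')
    refine ⟨C1 + C2, fun w f u G B lam hlam hD hB v m hm => ?_⟩
    have he := hm (Fin.last n)
    have hB1 : Am _ w fun y => fderiv ℝ B y (m (Fin.last n), 0) := hB.dir hD.wc (norm_e0 he)
    have hB2 : Am _ w fun y => G (m (Fin.last n)) y • B y := hB.smul (hD.gs _ he)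
    have hTs := TT_sm hD hB lam j
    rw [iteratedFDeriv_succ_apply_right]
    have h1 : iteratedFDeriv ℝ n (fun y => fderiv ℝ (TT lam f j B) y) v (Fin.init m)
        (m (Fin.last n)) = iteratedFDeriv ℝ n (fun y => fderiv ℝ (TT lam f j B) y
        (m (Fin.last n))) v (Fin.init m) := by
      have h := (ContinuousLinearMap.apply ℝ ℂ (m (Fin.last n))).iteratedFDeriv_comp_left
        (f := fun y => fderiv ℝ (TT lam f j B) y) (x := v)
        (smn (sm_fderiv hTs) n).contDiffAt (le_refl (n : WithTop ℕ∞))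
      have h2 : (⇑(ContinuousLinearMap.apply ℝ ℂ (m (Fin.last n))) ∘
          fun y => fderiv ℝ (TT lam f j B) y) = fun y => fderiv ℝ (TT lam f j B) y
          (m (Fin.last n)) := rfl
      rw [h2] at h
      rw [h]
      rfl
    rw [h1]
    have h2 : (fun y => fderiv ℝ (TT lam f j B) y (m (Fin.last n))) =
        TT lam f j (fun y => fderiv ℝ B y (m (Fin.last n), 0)) +
          Complex.I • TT lam f (j + 2) (fun y => G (m (Fin.last n)) y • B y) := by
      funext y
      rw [TT_fderiv hD hB hlam j he]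
      rfl
    have h3 : ContDiffAt ℝ n (Complex.I • TT lam f (j + 2) (fun y => G (m (Fin.last n)) y • B y))
        v := (smn ((TT_sm hD hB2 lam (j + 2)).const_smul Complex.I) n).contDiffAt
    rw [h2, iteratedFDeriv_add_apply (smn (TT_sm hD hB1 lam j) n).contDiffAt h3,
      _root_.add_apply]
    refine (norm_add_le _ _).trans (add_le_add ?_ ?_)
    · exact hC1 w f u G _ lam hlam hD hB1 v _ fun i => hm _
    · rw [iteratedFDeriv_const_smul_apply (smn (TT_sm hD hB2 lam (j + 2)) n).contDiffAt]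
      rw [_root_.smul_apply, norm_smul, Complex.norm_I, one_mul]
      exact hC2 w f u G _ lam hlam hD hB2 v _ fun i => hm _

/-- All derivatives of `TT` are bounded. -/
theorem TT_bs (V : Type) [NormedAddCommGroup V] [NormedSpace ℝ V] [ProperSpace V] (A : ℕ → ℝ)
    (j : ℕ) (A' : ℕ → ℝ) : ∃ C : ℕ → ℝ, ∀ (w : V → ℝ) (f u : V × ℝ → ℝ)
      (G : V → V × ℝ → ℝ) (B : V × ℝ → ℂ) (lam : ℝ), 1 ≤ lam → Dat A w f u G → Am A' w B →
      Bs C (TT lam f j B) := by
  choose C hC using fun n => TT_iter V A n j A'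
  refine ⟨fun n => max (C n) 0, fun w f u G B lam hlam hD hB => ⟨TT_sm hD hB lam j, fun n v => ?_⟩⟩
  refine ContinuousMultilinearMap.opNorm_le_bound (le_max_right _ _) fun m => ?_
  by_cases h0 : ∃ i, m i = 0
  · obtain ⟨i, hi⟩ := h0
    rw [(iteratedFDeriv ℝ n (TT lam f j B) v).map_coord_zero i hi, norm_zero]
    exact mul_nonneg (le_max_right _ _) (Finset.prod_nonneg fun i _ => norm_nonneg _)
  · push Not at h0
    have h1 : m = fun i => ‖m i‖ • ((‖m i‖)⁻¹ • m i) := by
      funext i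
      rw [smul_smul, mul_inv_cancel₀ (norm_ne_zero_iff.2 (h0 i)), one_smul]
    rw [h1, ContinuousMultilinearMap.map_smul_univ, norm_smul, ← h1]
    have h2 : ‖∏ i, ‖m i‖‖ = ∏ i, ‖m i‖ := by
      rw [Real.norm_eq_abs, abs_of_nonneg (Finset.prod_nonneg fun i _ => norm_nonneg _)]
    rw [h2, mul_comm]
    refine mul_le_mul_of_nonneg_right ?_ (Finset.prod_nonneg fun i _ => norm_nonneg _)
    refine (hC n w f u G B lam hlam hD hB v _ fun i => ?_).trans (le_max_left _ _)
    rw [norm_smul, norm_inv, norm_norm, inv_mul_cancel₀ (norm_ne_zero_iff.2 (h0 i))]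

end

end Pool.Agent.GNP
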