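import Pool.Agent.GNP.SPd

/-!
Stationary phase in one variable with parameters: the data of a phase with a nondegenerate critical
point.
-/

namespace Pool.Agent.GNP

open MeasureTheory Set
open scoped ContDiff

section

variable {V : Type} [NormedAddCommGroup V] [NormedSpace ℝ V]

/-- The shift `(v, s) ↦ (v, w v + s)`. -/
def shf (w : V → ℝ) (y : V × ℝ) : V × ℝ := (y.1, w y.1 + y.2)

/-- The graph `(v, s) ↦ (v, w v)`. -/
def gr0 (w : V → ℝ) (y : V × ℝ) : V × ℝ := (y.1, w y.1)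

/-- The bound of the shift. -/
noncomputable def shA (A : ℕ → ℝ) (j : ℕ) : ℝ := 1 + ccomp A (fun _ => 1) j

theorem norm_fst_le : ‖ContinuousLinearMap.fst ℝ V ℝ‖ ≤ 1 := ContinuousLinearMap.norm_fst_le _ _ _

theorem b1_wfst {A : ℕ → ℝ} {w : V → ℝ} (hw : B1 A w) :
    B1 (ccomp A fun _ => 1) (fun y : V × ℝ => w y.1) :=
  hw.comp ((b1_clm (ContinuousLinearMap.fst ℝ V ℝ)).mono fun _ _ => norm_fst_le)

theorem b1_shf {A : ℕ → ℝ} {w : V → ℝ} (hw : B1 A w) : B1 (shA A) (shf w) := by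
  have h1 := (b1_wfst hw).clm (ContinuousLinearMap.inr ℝ V ℝ)
  have h2 := (b1_clm (ContinuousLinearMap.id ℝ (V × ℝ))).add h1
  have h3 : (fun y : V × ℝ => (ContinuousLinearMap.id ℝ (V × ℝ)) y +
      (ContinuousLinearMap.inr ℝ V ℝ) (w y.1)) = shf w := by
    funext y
    simp [shf, Prod.ext_iff, add_comm]
  rw [h3] at h2
  refine h2.mono fun j hj => add_le_add ContinuousLinearMap.norm_id_le ?_
  have h0 : 0 ≤ ccomp A (fun _ => 1) j := (norm_nonneg _).trans ((b1_wfst hw).bd j hj 0)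
  have h4 : ‖ContinuousLinearMap.inr ℝ V ℝ‖ ≤ 1 := ContinuousLinearMap.norm_inr_le_one ℝ V ℝ
  nlinarith

theorem sm_gr0 {w : V → ℝ} (hw : ContDiff ℝ ∞ w) : ContDiff ℝ ∞ (gr0 w) :=
  contDiff_fst.prodMk (hw.comp contDiff_fst)

/-- The phase, normalised at the critical point. -/
def phf (ψ : V × ℝ → ℝ) (w : V → ℝ) (y : V × ℝ) : ℝ := ψ (shf w y) - ψ (gr0 w y)

theorem sm_phf {ψ : V × ℝ → ℝ} (hψ : ContDiff ℝ ∞ ψ) {A : ℕ → ℝ} {w : V → ℝ} (hw : B1 A w) :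
    ContDiff ℝ ∞ (phf ψ w) := (hψ.comp (b1_shf hw).sm).sub (hψ.comp (sm_gr0 hw.sm))

theorem phf_fderiv {ψ : V × ℝ → ℝ} (hψ : ContDiff ℝ ∞ ψ) {A : ℕ → ℝ} {w : V → ℝ} (hw : B1 A w)
    (y e : V × ℝ) : fderiv ℝ (phf ψ w) y e =
      fderiv ℝ ψ (shf w y) (e.1, fderiv ℝ w y.1 e.1 + e.2) -
        fderiv ℝ ψ (gr0 w y) (e.1, fderiv ℝ w y.1 e.1) := by
  have hwd : HasFDerivAt (fun y : V × ℝ => w y.1) ((fderiv ℝ w y.1).comp
      (ContinuousLinearMap.fst ℝ V ℝ)) y :=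
    (hw.sm.differentiable (by simp) y.1).hasFDerivAt.comp y hasFDerivAt_fst
  have h1 : HasFDerivAt (shf w) ((ContinuousLinearMap.fst ℝ V ℝ).prod
      ((fderiv ℝ w y.1).comp (ContinuousLinearMap.fst ℝ V ℝ) + ContinuousLinearMap.snd ℝ V ℝ)) y :=
    hasFDerivAt_fst.prodMk (hwd.add hasFDerivAt_snd)
  have h2 : HasFDerivAt (gr0 w) ((ContinuousLinearMap.fst ℝ V ℝ).prod
      ((fderiv ℝ w y.1).comp (ContinuousLinearMap.fst ℝ V ℝ))) y :=
    hasFDerivAt_fst.prodMk hwd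
  have h3 := ((hψ.differentiable (by simp) (shf w y)).hasFDerivAt.comp y h1).sub
    ((hψ.differentiable (by simp) (gr0 w y)).hasFDerivAt.comp y h2)
  have h4 : HasFDerivAt (phf ψ w) _ y := h3
  rw [h4.fderiv]
  rfl

/-- Symmetry of the second derivative. -/
theorem spe_symm2 {f : V → ℝ} (hf : ContDiff ℝ ∞ f) (y a b : V) :
    fderiv ℝ (fun y => fderiv ℝ f y a) y b = fderiv ℝ (fun y => fderiv ℝ f y b) y a := by
  have h0 : ∀ a b : V, fderiv ℝ (fun y => fderiv ℝ f y a) y b = fderiv ℝ (fderiv ℝ f) y b a := by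
    intro a b
    have h1 : HasFDerivAt (fun y => fderiv ℝ f y a)
        ((ContinuousLinearMap.apply ℝ ℝ a).comp (fderiv ℝ (fderiv ℝ f) y)) y :=
      (ContinuousLinearMap.apply ℝ ℝ a).hasFDerivAt.comp y
        ((sm_fderiv hf).differentiable (by simp) y).hasFDerivAt
    rw [h1.fderiv]
    rfl
  rw [h0, h0]
  have h2 : IsSymmSndFDerivAt ℝ f y :=
    (smn hf 2).contDiffAt.isSymmSndFDerivAt (by simp)
  exact h2 b a

/-- The data. -/
theorem exists_dat (A Aw : ℕ → ℝ) (c : ℝ) (hc : 0 < c) : ∃ C : ℕ → ℝ,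
    ∀ (V : Type) [NormedAddCommGroup V] [NormedSpace ℝ V] [ProperSpace V] (ψ : V × ℝ → ℝ)
      (w : V → ℝ), ContDiff ℝ ∞ ψ → B1 A (fderiv ℝ ψ) → B1 Aw w →
      (∀ p, c ≤ fderiv ℝ (fderiv ℝ ψ) p (0, 1) (0, 1)) → (∀ v, fderiv ℝ ψ (v, w v) (0, 1) = 0) →
      ∃ (u : V × ℝ → ℝ) (G : V → V × ℝ → ℝ), Dat C w (phf ψ w) u G := by
  set A0 : ℕ → ℝ := ccomp A (shA Aw) with hA0
  set A2 : ℕ → ℝ := ccomp (fun j => A0 (j + 1)) (fun _ => 1) with hA2
  obtain ⟨C1, hC1⟩ := exists_inv A2 c hc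
  set A3 : ℕ → ℝ := ccomp (fun j => A2 (j + 1)) (fun _ => 1) with hA3
  refine ⟨fun j => max (C1 j) (A3 j), fun V _ _ _ ψ w hψ hA hw hcc hcrit => ?_⟩
  have hfs := sm_phf hψ hw
  -- the derivative in `s`
  set h : V × ℝ → ℝ := fun y => fderiv ℝ (phf ψ w) y (0, 1) with hh
  have hheq : h = fun y => fderiv ℝ ψ (shf w y) (0, 1) := by
    funext y
    rw [hh]
    simp only
    rw [phf_fderiv hψ hw]
    simp only [map_zero, zero_add]
    rw [Prod.mk_zero_zero, map_zero, sub_zero]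
  have hE : ‖ContinuousLinearMap.apply ℝ ℝ ((0 : V), (1 : ℝ))‖ ≤ 1 := by
    refine ContinuousLinearMap.opNorm_le_bound _ zero_le_one fun L => ?_
    rw [ContinuousLinearMap.apply_apply, one_mul]
    refine (L.le_opNorm _).trans ?_
    have := norm_01 (V := V)
    nlinarith [norm_nonneg L]
  have hb1 : B1 A0 h := by
    rw [hheq]
    have h1 := hA.comp (b1_shf hw)
    have h2 := h1.clm (ContinuousLinearMap.apply ℝ ℝ ((0 : V), (1 : ℝ)))
    refine B1.mono h2 fun j hj => ?_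
    have h0 : 0 ≤ A0 j := (norm_nonneg _).trans (h1.bd j hj 0)
    nlinarith
  have hds : ∀ y, c ≤ fderiv ℝ h y (0, 1) := by
    intro y
    have h1 : HasFDerivAt (shf w) ((ContinuousLinearMap.fst ℝ V ℝ).prod
        ((fderiv ℝ w y.1).comp (ContinuousLinearMap.fst ℝ V ℝ) +
          ContinuousLinearMap.snd ℝ V ℝ)) y :=
      hasFDerivAt_fst.prodMk (((hw.sm.differentiable (by simp) y.1).hasFDerivAt.comp y
        hasFDerivAt_fst).add hasFDerivAt_snd)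
    have h2 : HasFDerivAt (fun y => fderiv ℝ ψ (shf w y)) _ y :=
      ((sm_fderiv hψ).differentiable (by simp) (shf w y)).hasFDerivAt.comp y h1
    have h3 : HasFDerivAt (fun y => fderiv ℝ ψ (shf w y) ((0 : V), (1 : ℝ))) _ y :=
      (ContinuousLinearMap.apply ℝ ℝ ((0 : V), (1 : ℝ))).hasFDerivAt.comp y h2
    rw [hheq, h3.fderiv]
    refine (hcc (shf w y)).trans (le_of_eq ?_)
    simp
  have hh0 : ∀ v, h (v, 0) = 0 := by
    intro v
    rw [hheq]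
    simp only [shf, add_zero]
    exact hcrit v
  have hκ : Bs A2 (had h) := had_bs (hb1.dir norm_01)
  have hκc : ∀ y, c ≤ had h y := had_ge hb1.sm hds
  have hu := hC1 _ (had h) hκ.b1 hκc
  -- the derivatives in `v`
  have hp : ∀ e : V, ‖e‖ ≤ 1 → ContDiff ℝ ∞ (fun y => fderiv ℝ (phf ψ w) y (e, 0)) := fun e _ =>
    (sm_fderiv hfs).clm_apply contDiff_const
  have hp1 : ∀ e : V, ‖e‖ ≤ 1 → ∀ y, fderiv ℝ (fun y => fderiv ℝ (phf ψ w) y (e, 0)) y (0, 1) =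
      fderiv ℝ h y (e, 0) := fun e _ y => spe_symm2 hfs y (e, 0) (0, 1)
  have hp2 : ∀ e : V, ‖e‖ ≤ 1 → Bs (fun j => A0 (j + 1))
      fun y => fderiv ℝ (fun y => fderiv ℝ (phf ψ w) y (e, 0)) y (0, 1) := by
    intro e he
    have h1 := hb1.dir (norm_e0 he)
    refine ⟨?_, fun j y => ?_⟩
    · have h2 : (fun y => fderiv ℝ (fun y => fderiv ℝ (phf ψ w) y (e, 0)) y (0, 1)) =
        fun y => fderiv ℝ h y (e, 0) := funext (hp1 e he)
      rw [h2]
      exact h1.sm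
    · have h2 : (fun y => fderiv ℝ (fun y => fderiv ℝ (phf ψ w) y (e, 0)) y (0, 1)) =
        fun y => fderiv ℝ h y (e, 0) := funext (hp1 e he)
      rw [h2]
      exact h1.bd j y
  have hp3 : ∀ e : V, ‖e‖ ≤ 1 → ∀ v, fderiv ℝ (phf ψ w) (v, 0) (e, 0) = 0 := by
    intro e _ v
    rw [phf_fderiv hψ hw]
    simp [shf, gr0]
  have hq : ∀ e : V, ‖e‖ ≤ 1 → Bs A2 (had fun y => fderiv ℝ (phf ψ w) y (e, 0)) := fun e he =>
    had_bs (hp2 e he)
  have hq0 : ∀ e : V, ‖e‖ ≤ 1 → ∀ v, had (fun y => fderiv ℝ (phf ψ w) y (e, 0)) (v, 0) = 0 := by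
    intro e he v
    rw [had_zero, hp1 e he]
    have h0 : HasFDerivAt h (fderiv ℝ h (v, 0)) (ContinuousLinearMap.inl ℝ V ℝ v) :=
      (hb1.sm.differentiable (by simp) (v, 0)).hasFDerivAt
    have h1 : HasFDerivAt (fun v => h (v, 0)) ((fderiv ℝ h (v, 0)).comp
        (ContinuousLinearMap.inl ℝ V ℝ)) v :=
      h0.comp v (ContinuousLinearMap.inl ℝ V ℝ).hasFDerivAt
    have h2 : (fun v => h (v, 0)) = fun _ : V => (0 : ℝ) := funext hh0
    rw [h2] at h1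
    have h3 := h1.unique (hasFDerivAt_const (0 : ℝ) v)
    have h4 := congrArg (fun L : V →L[ℝ] ℝ => L e) h3
    simpa using h4
  refine ⟨fun y => (had h y)⁻¹, fun e => had (had fun y => fderiv ℝ (phf ψ w) y (e, 0)), ?_⟩
  refine ⟨hw.sm.continuous, hfs, hu.mono fun j => le_max_left _ _, fun y => ?_, fun e he => ?_,
    fun e he y => ?_⟩
  · have h1 := had_eq hb1.sm hh0 y.1 y.2
    have h2 : h y = y.2 * had h y := h1
    have h3 : fderiv ℝ (phf ψ w) y (0, 1) = y.2 * had h y := h2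
    have h4 : had h y ≠ 0 := (lt_of_lt_of_le hc (hκc y)).ne'
    rw [h3]
    field_simp
  · exact (had_bs ((hq e he).dir norm_01)).mono fun j => le_max_right _ _
  · have h1 := had_eq (hp e he) (hp3 e he) y.1 y.2
    have h2 := had_eq (hq e he).sm (hq0 e he) y.1 y.2
    have h3 : fderiv ℝ (phf ψ w) y (e, 0) =
      y.2 * had (fun y => fderiv ℝ (phf ψ w) y (e, 0)) y := h1
    have h4 : had (fun y => fderiv ℝ (phf ψ w) y (e, 0)) y =
      y.2 * had (had fun y => fderiv ℝ (phf ψ w) y (e, 0)) y := h2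
    rw [h3]
    conv_lhs => rw [h4]
    ring

end

end Pool.Agent.GNP
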