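import Pool.Agent.GNP.SPe

/-!
Stationary phase in one variable with parameters: the theorem, with the decay away from the critical
point.
-/

namespace Pool.Agent.GNP

open MeasureTheory Set
open scoped ContDiff

section

variable {V : Type} [NormedAddCommGroup V] [NormedSpace ℝ V]

/-- The amplitude of the integral in the last variable. -/
noncomputable def spg (lam : ℝ) (ψ : V × ℝ → ℝ) (w : V → ℝ) (b : V × ℝ → ℂ) : V → ℂ :=
  TT lam (phf ψ w) 0 fun y => b (shf w y)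

theorem am_shf {Aw Ab : ℕ → ℝ} {w : V → ℝ} (hw : B1 Aw w) {b : V × ℝ → ℂ} (hb : Bs Ab b)
    (hsupp : ∀ y : V × ℝ, 1 < |y.2| → b y = 0) : Am (ccomp Ab (shA Aw)) w fun y => b (shf w y) := by
  refine ⟨hb.comp (b1_shf hw), fun y hy => hsupp _ ?_⟩
  rw [shf]
  simpa [add_comm] using hy

omit [NormedAddCommGroup V] [NormedSpace ℝ V] in
theorem spg_eq {lam : ℝ} (hlam : 0 < lam) (ψ : V × ℝ → ℝ) (w : V → ℝ) (b : V × ℝ → ℂ) (v : V) :
    ∫ t, b (v, t) * Complex.exp (((lam * ψ (v, t) : ℝ) : ℂ) * Complex.I) =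
      ((lam ^ (-(1 / 2) : ℝ) : ℝ) : ℂ) * spg lam ψ w b v *
        Complex.exp (((lam * ψ (v, w v) : ℝ) : ℂ) * Complex.I) := by
  have h1 : ∫ t, b (v, t) * Complex.exp (((lam * ψ (v, t) : ℝ) : ℂ) * Complex.I) =
      ∫ s, b (v, w v + s) * Complex.exp (((lam * ψ (v, w v + s) : ℝ) : ℂ) * Complex.I) :=
    (integral_add_left_eq_self (fun t => b (v, t) *
      Complex.exp (((lam * ψ (v, t) : ℝ) : ℂ) * Complex.I)) (w v)).symm
  have h2 : ∀ s, b (v, w v + s) * Complex.exp (((lam * ψ (v, w v + s) : ℝ) : ℂ) * Complex.I) =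
      Complex.exp (((lam * ψ (v, w v) : ℝ) : ℂ) * Complex.I) * (((s ^ 0 : ℝ) : ℂ) *
        b (shf w (v, s)) * Complex.exp (((lam * phf ψ w (v, s) : ℝ) : ℂ) * Complex.I)) := by
    intro s
    have h3 : Complex.exp (((lam * ψ (v, w v + s) : ℝ) : ℂ) * Complex.I) =
        Complex.exp (((lam * ψ (v, w v) : ℝ) : ℂ) * Complex.I) *
          Complex.exp (((lam * phf ψ w (v, s) : ℝ) : ℂ) * Complex.I) := by
      rw [← Complex.exp_add]
      congr 1
      simp only [phf, shf, gr0]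
      push_cast
      ring
    rw [h3, shf]
    simp only [pow_zero, Complex.ofReal_one, one_mul]
    ring
  rw [h1]
  simp only [h2]
  rw [integral_const_mul, spg, TT]
  have h4 : ((lam ^ (-(1 / 2) : ℝ) : ℝ) : ℂ) * ((lam ^ ((((0 : ℕ) : ℝ) + 1) / 2) : ℝ) : ℂ) = 1 := by
    rw [← Complex.ofReal_mul, ← Real.rpow_add hlam]
    norm_num
  rw [← mul_assoc ((lam ^ (-(1 / 2) : ℝ) : ℝ) : ℂ), h4, one_mul, mul_comm]

/-- A smooth function with bounded derivatives which is `|t|` for `|t| ≥ 1/4`. -/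
theorem exists_abs : ∃ (κ : ℝ → ℝ) (C : ℕ → ℝ), B1 C κ ∧ (∀ t, 1 / 8 ≤ κ t) ∧
    ∀ t, 1 / 4 ≤ |t| → κ t = |t| := by
  set φ : ContDiffBump (0 : ℝ) := ⟨1 / 8, 1 / 4, by norm_num, by norm_num⟩ with hφ
  set κ : ℝ → ℝ := fun t => t * (2 * Real.smoothTransition (4 * t + 1 / 2) - 1) + φ t with hκ
  have hs : ContDiff ℝ ∞ κ := by
    have h1 : ContDiff ℝ ∞ fun t : ℝ => Real.smoothTransition (4 * t + 1 / 2) :=
      Real.smoothTransition.contDiff.comp (by fun_prop)
    have h2 : ContDiff ℝ ∞ (φ : ℝ → ℝ) := φ.contDiff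
    exact (contDiff_id.mul ((contDiff_const.mul h1).sub contDiff_const)).add h2
  have hpos : ∀ t, 1 / 8 ≤ t → κ t = t + φ t := by
    intro t ht
    simp only [hκ]
    rw [Real.smoothTransition.one_of_one_le (by linarith)]
    ring
  have hneg : ∀ t, t ≤ -(1 / 8) → κ t = -t + φ t := by
    intro t ht
    simp only [hκ]
    rw [Real.smoothTransition.zero_of_nonpos (by linarith)]
    ring
  have hφ0 : ∀ t, 1 / 4 ≤ |t| → φ t = 0 := fun t ht =>
    φ.zero_of_le_dist (by rw [Real.dist_eq, sub_zero]; exact ht)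
  have habs : ∀ t, 1 / 4 ≤ |t| → κ t = |t| := by
    intro t ht
    rcases le_total 0 t with h | h
    · rw [abs_of_nonneg h] at ht ⊢
      rw [hpos t (by linarith), hφ0 t (by rwa [abs_of_nonneg h]), add_zero]
    · rw [abs_of_nonpos h] at ht ⊢
      rw [hneg t (by linarith), hφ0 t (by rwa [abs_of_nonpos h]), add_zero]
  have hlow : ∀ t, 1 / 8 ≤ κ t := by
    intro t
    rcases le_or_gt (1 / 8) t with h | h
    · rw [hpos t h]
      have := φ.nonneg (x := t)
      linarith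
    rcases le_or_gt t (-(1 / 8)) with h2 | h2
    · rw [hneg t h2]
      have := φ.nonneg (x := t)
      linarith
    · have h3 : φ t = 1 := φ.one_of_mem_closedBall (by
        rw [mem_closedBall_zero_iff, Real.norm_eq_abs]
        exact abs_le.2 ⟨h2.le, h.le⟩)
      simp only [hκ]
      rw [h3]
      have h4 := Real.smoothTransition.nonneg (4 * t + 1 / 2)
      have h5 := Real.smoothTransition.le_one (4 * t + 1 / 2)
      set σ := Real.smoothTransition (4 * t + 1 / 2)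
      have h6 : |t * (2 * σ - 1)| ≤ 1 / 8 := by
        rw [abs_mul]
        have h7 : |t| ≤ 1 / 8 := abs_le.2 ⟨h2.le, h.le⟩
        have h8 : |2 * σ - 1| ≤ 1 := abs_le.2 ⟨by linarith, by linarith⟩
        nlinarith [abs_nonneg t, abs_nonneg (2 * σ - 1)]
      have := (abs_le.1 h6).1
      linarith
  have hbd : ∀ j : ℕ, ∃ C : ℝ, 1 ≤ j → ∀ t, ‖iteratedFDeriv ℝ j κ t‖ ≤ C := by
    intro j
    have hc : Continuous fun t => iteratedFDeriv ℝ j κ t :=
      hs.continuous_iteratedFDeriv (by exact_mod_cast le_top)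
    obtain ⟨C, hC⟩ := (isCompact_Icc (a := (-1 : ℝ)) (b := 1)).exists_bound_of_continuousOn
      hc.continuousOn
    refine ⟨max C (max ‖ContinuousLinearMap.id ℝ ℝ‖ ‖-ContinuousLinearMap.id ℝ ℝ‖),
      fun hj t => ?_⟩
    by_cases ht : t ∈ Icc (-1 : ℝ) 1
    · exact (hC t ht).trans (le_max_left _ _)
    rw [mem_Icc, not_and_or, not_le, not_le] at ht
    rcases ht with ht | ht
    · have h1 : κ =ᶠ[nhds t] fun t => (-ContinuousLinearMap.id ℝ ℝ) t := by
        filter_upwards [Iio_mem_nhds ht] with x hx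
        have hx' : x < -1 := hx
        rw [habs x (by rw [abs_of_neg (by linarith)]; linarith), abs_of_neg (by linarith)]
        rfl
      rw [(h1.iteratedFDeriv ℝ j).eq_of_nhds]
      exact ((b1_clm (-ContinuousLinearMap.id ℝ ℝ)).bd j hj t).trans
        ((le_max_right _ _).trans (le_max_right _ _))
    · have h1 : κ =ᶠ[nhds t] fun t => (ContinuousLinearMap.id ℝ ℝ) t := by
        filter_upwards [Ioi_mem_nhds ht] with x hx
        have hx' : 1 < x := hx
        rw [habs x (by rw [abs_of_pos (by linarith)]; linarith), abs_of_pos (by linarith)]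
        rfl
      rw [(h1.iteratedFDeriv ℝ j).eq_of_nhds]
      exact ((b1_clm (ContinuousLinearMap.id ℝ ℝ)).bd j hj t).trans
        ((le_max_left _ _).trans (le_max_right _ _))
  choose C hC using hbd
  exact ⟨κ, C, ⟨hs, fun j hj t => hC j hj t⟩, hlow, habs⟩

/-- A smooth cutoff with bounded derivatives. -/
theorem exists_chi : ∃ (χ : ℝ → ℝ) (C : ℕ → ℝ), Bs C χ ∧ (∀ t, |t| ≤ 1 / 8 → χ t = 1) ∧
    ∀ t, 1 / 4 ≤ |t| → χ t = 0 := by
  set φ : ContDiffBump (0 : ℝ) := ⟨1 / 8, 1 / 4, by norm_num, by norm_num⟩ with hφ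
  have hs : ContDiff ℝ ∞ (φ : ℝ → ℝ) := φ.contDiff
  have hbd : ∀ j : ℕ, ∃ C : ℝ, ∀ t, ‖iteratedFDeriv ℝ j φ t‖ ≤ C := by
    intro j
    have hc : Continuous fun t => iteratedFDeriv ℝ j φ t :=
      hs.continuous_iteratedFDeriv (by exact_mod_cast le_top)
    exact (φ.hasCompactSupport.iteratedFDeriv (𝕜 := ℝ) j).exists_bound_of_continuous hc
  choose C hC using hbd
  exact ⟨φ, C, ⟨hs, hC⟩, fun t ht => φ.one_of_mem_closedBall (by
    rw [mem_closedBall_zero_iff, Real.norm_eq_abs]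
    exact ht), fun t ht => φ.zero_of_le_dist (by rw [Real.dist_eq, sub_zero]; exact ht)⟩

/-- The weight. -/
theorem exists_wt (N : ℕ) : ∃ (P : ℝ → ℝ) (C : ℕ → ℝ), Bs C P ∧
    ∀ t, 1 / 4 ≤ |t| → t ^ (2 * N) * P t = 1 := by
  obtain ⟨κ, C, hκ, hlow, habs⟩ := exists_abs
  obtain ⟨C1, hC1⟩ := exists_inv C (1 / 8) (by norm_num)
  have h1 := hC1 ℝ κ hκ hlow
  induction N with
  | zero =>
    refine ⟨fun _ => 1, fun j => if j = 0 then 1 else 0, ⟨contDiff_const, fun j y => ?_⟩,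
      fun t _ => by simp⟩
    rcases Nat.eq_zero_or_pos j with rfl | hj
    · rw [norm_iteratedFDeriv_zero]
      simp
    · rw [iteratedFDeriv_const_of_ne hj.ne']
      simp [hj.ne']
  | succ N ih =>
    obtain ⟨P, C2, hP, hPe⟩ := ih
    refine ⟨fun t => ((κ t)⁻¹ • (κ t)⁻¹) • P t, _, (h1.smul h1).smul hP, fun t ht => ?_⟩
    have h2 := hPe t ht
    simp only
    rw [habs t ht]
    have h3 : (0 : ℝ) < |t| := lt_of_lt_of_le (by norm_num) ht
    have h4 : t ^ (2 * (N + 1)) = t ^ (2 * N) * (|t| * |t|) := by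
      rw [abs_mul_abs_self]
      ring
    rw [h4, smul_eq_mul, smul_eq_mul]
    field_simp
    linarith

/-- The decay of the amplitude away from the critical point. -/
theorem TT_decay (V : Type) [NormedAddCommGroup V] [NormedSpace ℝ V] [ProperSpace V]
    (A Aw A' : ℕ → ℝ) (N : ℕ) : ∃ C : ℕ → ℝ, ∀ (w : V → ℝ) (f u : V × ℝ → ℝ)
      (G : V → V × ℝ → ℝ) (B : V × ℝ → ℂ) (lam : ℝ), 1 ≤ lam → B1 Aw w → Dat A w f u G →
      Am A' w B → ∀ v, 2 ≤ |w v| → ∀ j,
      ‖iteratedFDeriv ℝ j (TT lam f 0 B) v‖ ≤ C j / (lam * (1 + |w v|)) ^ N := by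
  obtain ⟨P, CP, hP, hPe⟩ := exists_wt N
  obtain ⟨χ, Cχ, hχ, hχ1, hχ0⟩ := exists_chi
  set D1 : ℕ → ℝ := ccomp CP fun _ => 1 with hD1
  set D2 : ℕ → ℝ := ccomp Cχ fun j => ccomp Aw (fun _ => 1) j + 0 with hD2
  obtain ⟨C, hC⟩ := TT_bs V A (2 * N) (cmul D2 (cmul D1 A'))
  refine ⟨C, fun w f u G B lam hlam hw hD hB v hv j => ?_⟩
  set ρ : ℝ := |w v| with hρ
  have hρ0 : 0 < ρ := by linarith
  have hlam0 : 0 < lam := by linarith
  -- the two factors
  set L : V × ℝ →L[ℝ] ℝ := ρ⁻¹ • ContinuousLinearMap.snd ℝ V ℝ with hL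
  have hL1 : ‖L‖ ≤ 1 := by
    rw [hL, norm_smul, norm_inv, Real.norm_eq_abs, abs_of_pos hρ0]
    have h1 : ‖ContinuousLinearMap.snd ℝ V ℝ‖ ≤ 1 := ContinuousLinearMap.norm_snd_le _ _ _
    have h2 : ρ⁻¹ ≤ 1 := inv_le_one_of_one_le₀ (by linarith)
    have h3 : 0 < ρ⁻¹ := inv_pos.2 hρ0
    nlinarith [norm_nonneg (ContinuousLinearMap.snd ℝ V ℝ)]
  have hS : Bs D1 fun y : V × ℝ => P (L y) := hP.comp ((b1_clm L).mono fun _ _ => hL1)
  have hwc : B1 (fun j => ccomp Aw (fun _ => 1) j + 0) fun y : V × ℝ => w y.1 + (-w v) := by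
    refine (b1_wfst hw).add ⟨contDiff_const, fun j hj y => ?_⟩
    rw [iteratedFDeriv_const_of_ne (by omega)]
    simp
  have hX : Bs D2 fun y : V × ℝ => χ (w y.1 + (-w v)) := hχ.comp hwc
  set B' : V × ℝ → ℂ := fun y => χ (w y.1 + (-w v)) • (P (L y) • B y) with hB'
  have hAm : Am (cmul D2 (cmul D1 A')) w B' := (hB.smul hS).smul hX
  have hbs := hC w f u G B' lam hlam hD hAm
  -- the identity
  set k : ℝ := lam ^ (-(N : ℝ)) * (ρ ^ (2 * N))⁻¹ with hk
  have hid : TT lam f 0 B =ᶠ[nhds v] k • TT lam f (2 * N) B' := by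
    have hopen : {v' : V | |w v' + (-w v)| < 1 / 8} ∈ nhds v := by
      refine (isOpen_lt (by have := hD.wc; fun_prop) continuous_const).mem_nhds ?_
      simp
    filter_upwards [hopen] with v' hv'
    have hv1 : |w v' + (-w v)| < 1 / 8 := hv'
    have hpt : ∀ s : ℝ, ((s ^ (2 * N) : ℝ) : ℂ) * B' (v', s) *
        Complex.exp (((lam * f (v', s) : ℝ) : ℂ) * Complex.I) = ((ρ ^ (2 * N) : ℝ) : ℂ) *
          (((s ^ 0 : ℝ) : ℂ) * B (v', s) *
            Complex.exp (((lam * f (v', s) : ℝ) : ℂ) * Complex.I)) := by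
      intro s
      by_cases hs : 1 < |s + w v'|
      · have h0 : B (v', s) = 0 := hB.supp (v', s) hs
        simp [hB', h0]
      · push Not at hs
        have h1 : ρ / 4 ≤ |s| := by
          have h2 : |w v| ≤ |s + w v'| + |s| + |w v' + (-w v)| := by
            have h3 : w v = (s + w v') + (-s) + (-(w v' + (-w v))) := by ring
            calc |w v| = |(s + w v') + (-s) + (-(w v' + (-w v)))| := by rw [← h3]
              _ ≤ |(s + w v') + (-s)| + |-(w v' + (-w v))| := abs_add_le _ _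
              _ ≤ |s + w v'| + |-s| + |-(w v' + (-w v))| :=
                add_le_add (abs_add_le _ _) le_rfl
              _ = _ := by rw [abs_neg, abs_neg]
          rw [← hρ] at h2
          linarith
        have h2 : 1 / 4 ≤ |L (v', s)| := by
          simp only [hL, smul_apply, ContinuousLinearMap.coe_snd', smul_eq_mul, abs_mul, abs_inv,
            abs_of_pos hρ0]
          rw [inv_mul_eq_div, le_div_iff₀ hρ0]
          linarith
        have h3 := hPe _ h2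
        have h4 : L (v', s) = ρ⁻¹ * s := by
          simp [hL]
        have h5 : s ^ (2 * N) * P (L (v', s)) = ρ ^ (2 * N) := by
          rw [h4, mul_pow, inv_pow, mul_assoc, inv_mul_eq_iff_eq_mul₀ (pow_pos hρ0 _).ne',
            mul_one] at h3
          rw [h4]
          exact h3
        have h6 : χ (w v' + (-w v)) = 1 := hχ1 _ hv1.le
        simp only [hB', h6, Complex.real_smul, pow_zero, Complex.ofReal_one, one_mul]
        rw [← h5]
        push_cast
        ring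
    rw [Pi.smul_apply]
    simp only [TT]
    simp only [hpt]
    rw [integral_const_mul, Complex.real_smul]
    have h7 : (k : ℂ) * (((lam ^ ((((2 * N : ℕ) : ℝ) + 1) / 2) : ℝ) : ℂ) *
        ((ρ ^ (2 * N) : ℝ) : ℂ)) = ((lam ^ ((((0 : ℕ) : ℝ) + 1) / 2) : ℝ) : ℂ) := by
      rw [← Complex.ofReal_mul, ← Complex.ofReal_mul]
      congr 1
      have h8 : lam ^ ((((2 * N : ℕ) : ℝ) + 1) / 2) = lam ^ (N : ℝ) * lam ^ ((1 : ℝ) / 2) := by
        rw [← lam_rpow hlam]
        congr 1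
        push_cast
        ring
      have h9 : lam ^ (-(N : ℝ)) * lam ^ (N : ℝ) = 1 := by
        rw [← lam_rpow hlam]
        simp
      have h10 : (ρ ^ (2 * N))⁻¹ * ρ ^ (2 * N) = 1 := inv_mul_cancel₀ (pow_pos hρ0 _).ne'
      rw [hk, h8]
      calc lam ^ (-(N : ℝ)) * (ρ ^ (2 * N))⁻¹ * (lam ^ (N : ℝ) * lam ^ ((1 : ℝ) / 2) *
            ρ ^ (2 * N)) = (lam ^ (-(N : ℝ)) * lam ^ (N : ℝ)) * ((ρ ^ (2 * N))⁻¹ *
              ρ ^ (2 * N)) * lam ^ ((1 : ℝ) / 2) := by ring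
        _ = lam ^ ((((0 : ℕ) : ℝ) + 1) / 2) := by
          rw [h9, h10, one_mul, one_mul]
          norm_num
    rw [← h7]
    ring
  rw [(hid.iteratedFDeriv ℝ j).eq_of_nhds, iteratedFDeriv_const_smul_apply
    (smn hbs.sm j).contDiffAt, norm_smul]
  have hk0 : 0 < k := mul_pos (Real.rpow_pos_of_pos hlam0 _) (inv_pos.2 (pow_pos hρ0 _))
  rw [Real.norm_eq_abs, abs_of_pos hk0]
  have hC0 : 0 ≤ C j := hbs.nonneg j
  have hk1 : k ≤ ((lam * (1 + ρ)) ^ N)⁻¹ := by
    rw [hk, Real.rpow_neg hlam0.le, Real.rpow_natCast, ← mul_inv, pow_mul, ← mul_pow]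
    refine inv_anti₀ (by positivity) (pow_le_pow_left₀ (by positivity) ?_ _)
    exact mul_le_mul_of_nonneg_left (by nlinarith) hlam0.le
  calc k * ‖iteratedFDeriv ℝ j (TT lam f (2 * N) B') v‖ ≤ ((lam * (1 + ρ)) ^ N)⁻¹ * C j :=
        mul_le_mul hk1 (hbs.bd j v) (norm_nonneg _) (by positivity)
    _ = C j / (lam * (1 + ρ)) ^ N := by rw [div_eq_inv_mul]

end

end Pool.Agent.GNP
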