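import Pool.Agent.GNP.SPf

/-!
Stationary phase in one variable with parameters: normalisation.
-/

namespace Pool.Agent.GNP

open MeasureTheory Set
open scoped ContDiff

section

variable {V : Type} [NormedAddCommGroup V] [NormedSpace ℝ V]

theorem b1_const {F : Type} [NormedAddCommGroup F] [NormedSpace ℝ F] (y0 : F) :
    B1 (fun _ => 0) fun _ : V => y0 := by
  refine ⟨contDiff_const, fun j hj y => ?_⟩
  rw [iteratedFDeriv_const_of_ne (by omega)]
  simp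

/-- The normalised theorem. -/
theorem spp1 (V : Type) [NormedAddCommGroup V] [NormedSpace ℝ V] [ProperSpace V]
    (A W B : ℕ → ℝ) (c : ℝ) (hc : 0 < c) (N : ℕ) : ∃ C : ℕ → ℝ,
    ∀ (τ : ℝ) (ψ : V × ℝ → ℝ) (w : V → ℝ) (b : V × ℝ → ℂ), 1 ≤ τ → ContDiff ℝ ∞ ψ →
      B1 A (fderiv ℝ ψ) → (∀ p, c ≤ fderiv ℝ (fderiv ℝ ψ) p (0, 1) (0, 1)) → B1 W w →
      (∀ v, fderiv ℝ ψ (v, w v) (0, 1) = 0) → Bs B b → (∀ y : V × ℝ, 1 < |y.2| → b y = 0) →
      Bs C (spg τ ψ w b) ∧ ∀ v, 2 ≤ |w v| → ‖spg τ ψ w b v‖ ≤ C 0 / (τ * (1 + |w v|)) ^ N := by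
  obtain ⟨C1, hC1⟩ := exists_dat A W c hc
  obtain ⟨C2, hC2⟩ := TT_bs V C1 0 (ccomp B (shA W))
  obtain ⟨C3, hC3⟩ := TT_decay V C1 W (ccomp B (shA W)) N
  refine ⟨fun j => max (C2 j) (C3 j), fun τ ψ w b hτ hψ hA hc' hw hcr hb hs => ?_⟩
  obtain ⟨u, G, hD⟩ := hC1 V ψ w hψ hA hw hc' hcr
  have hAm := am_shf hw hb hs
  refine ⟨(hC2 w (phf ψ w) u G _ τ hτ hD hAm).mono fun j => le_max_left _ _, fun v hv => ?_⟩
  have h1 := hC3 w (phf ψ w) u G _ τ hτ hw hD hAm v hv 0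
  rw [norm_iteratedFDeriv_zero] at h1
  refine h1.trans ?_
  have h2 : 0 < τ * (1 + |w v|) := by
    have := abs_nonneg (w v)
    positivity
  gcongr
  exact le_max_right _ _

/-- The rescaling of the last variable. -/
noncomputable def rsc (V : Type) [NormedAddCommGroup V] [NormedSpace ℝ V] (r : ℝ) :
    V × ℝ →L[ℝ] V × ℝ :=
  (ContinuousLinearMap.fst ℝ V ℝ).prod (r • ContinuousLinearMap.snd ℝ V ℝ)

theorem rsc_apply (r : ℝ) (y : V × ℝ) : rsc V r y = (y.1, r * y.2) := rfl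

/-- The rescaled phase. -/
noncomputable def psr (r x : ℝ) (ψ : V × ℝ → ℝ) (y : V × ℝ) : ℝ :=
  ψ (rsc V r y) + (-(x * r) • ContinuousLinearMap.snd ℝ V ℝ) y

theorem psr_apply (r x : ℝ) (ψ : V × ℝ → ℝ) (v : V) (t : ℝ) :
    psr r x ψ (v, t) = ψ (v, r * t) - x * (r * t) := by
  simp only [psr, rsc_apply, smul_apply, ContinuousLinearMap.coe_snd', smul_eq_mul]
  ring

theorem psr_fderiv {r x : ℝ} {ψ : V × ℝ → ℝ} (hψ : ContDiff ℝ ∞ ψ) :
    fderiv ℝ (psr r x ψ) = fun y => ((ContinuousLinearMap.compL ℝ (V × ℝ) (V × ℝ) ℝ).flip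
      (rsc V r)) (fderiv ℝ ψ (rsc V r y)) + (-(x * r) • ContinuousLinearMap.snd ℝ V ℝ) := by
  funext y
  have h1 : HasFDerivAt (fun y => ψ (rsc V r y)) ((fderiv ℝ ψ (rsc V r y)).comp (rsc V r)) y :=
    ((hψ.differentiable (by simp) (rsc V r y)).hasFDerivAt).comp y (rsc V r).hasFDerivAt
  exact (h1.add (-(x * r) • ContinuousLinearMap.snd ℝ V ℝ).hasFDerivAt).fderiv

theorem psr_fderiv2 {r x : ℝ} {ψ : V × ℝ → ℝ} (hψ : ContDiff ℝ ∞ ψ) (p : V × ℝ) :
    fderiv ℝ (fderiv ℝ (psr r x ψ)) p (0, 1) (0, 1) =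
      r ^ 2 * fderiv ℝ (fderiv ℝ ψ) (rsc V r p) (0, 1) (0, 1) := by
  rw [psr_fderiv hψ]
  have h1 : HasFDerivAt (fun y => fderiv ℝ ψ (rsc V r y))
      ((fderiv ℝ (fderiv ℝ ψ) (rsc V r p)).comp (rsc V r)) p :=
    (((sm_fderiv hψ).differentiable (by simp) (rsc V r p)).hasFDerivAt).comp p
      (rsc V r).hasFDerivAt
  have h2 := (((ContinuousLinearMap.compL ℝ (V × ℝ) (V × ℝ) ℝ).flip
    (rsc V r)).hasFDerivAt.comp p h1).add_const (-(x * r) • ContinuousLinearMap.snd ℝ V ℝ)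
  have h3 : HasFDerivAt (fun y => ((ContinuousLinearMap.compL ℝ (V × ℝ) (V × ℝ) ℝ).flip
      (rsc V r)) (fderiv ℝ ψ (rsc V r y)) + (-(x * r) • ContinuousLinearMap.snd ℝ V ℝ)) _ p := h2
  rw [h3.fderiv]
  simp only [ContinuousLinearMap.comp_apply, ContinuousLinearMap.flip_apply,
    ContinuousLinearMap.compL_apply]
  have h4 : rsc V r ((0 : V), (1 : ℝ)) = r • ((0 : V), (1 : ℝ)) := by
    rw [rsc_apply]
    simp
  rw [h4, map_smul, map_smul, smul_apply, smul_eq_mul, smul_eq_mul]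
  ring

theorem psr_b1 {A : ℕ → ℝ} {r x : ℝ} {ψ : V × ℝ → ℝ} (hψ : ContDiff ℝ ∞ ψ)
    (hA : B1 A (fderiv ℝ ψ)) (hr : 0 < r) : B1 (fun j => (1 + r) *
      ccomp A (fun _ => 1 + r) j + 0) (fderiv ℝ (psr r x ψ)) := by
  have hn : ‖rsc V r‖ ≤ 1 + r := by
    refine ContinuousLinearMap.opNorm_le_bound _ (by linarith) fun y => ?_
    rw [rsc_apply, Prod.norm_def, Prod.norm_def]
    refine max_le ?_ ?_
    · have := le_max_left ‖y.1‖ ‖y.2‖
      have h0 := norm_nonneg y.1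
      nlinarith
    · simp only [norm_mul, Real.norm_eq_abs, abs_of_pos hr]
      have := le_max_right ‖y.1‖ ‖y.2‖
      rw [Real.norm_eq_abs] at this
      have h0 := abs_nonneg y.2
      have h1 : 0 ≤ max ‖y.1‖ |y.2| := le_max_of_le_right h0
      nlinarith
  have h1 := hA.comp ((b1_clm (rsc V r)).mono fun _ _ => hn)
  have h2 := h1.clm ((ContinuousLinearMap.compL ℝ (V × ℝ) (V × ℝ) ℝ).flip (rsc V r))
  have h3 := h2.add (b1_const (V := V × ℝ) (-(x * r) • ContinuousLinearMap.snd ℝ V ℝ))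
  rw [psr_fderiv hψ]
  refine B1.mono h3 fun j hj => ?_
  have h0 : 0 ≤ ccomp A (fun _ => 1 + r) j := (norm_nonneg _).trans (h1.bd j hj 0)
  have h4 : ‖(ContinuousLinearMap.compL ℝ (V × ℝ) (V × ℝ) ℝ).flip (rsc V r)‖ ≤ 1 + r := by
    refine ContinuousLinearMap.opNorm_le_bound _ (by linarith) fun T => ?_
    rw [ContinuousLinearMap.flip_apply, ContinuousLinearMap.compL_apply]
    refine (T.opNorm_comp_le _).trans ?_
    rw [mul_comm]
    exact mul_le_mul_of_nonneg_right hn (norm_nonneg _)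
  have := mul_le_mul_of_nonneg_right h4 h0
  linarith

/-- The positive case. -/
theorem spp_pos (V : Type) [NormedAddCommGroup V] [NormedSpace ℝ V] [ProperSpace V]
    (A W B : ℕ → ℝ) (c r : ℝ) (hc : 0 < c) (hr : 0 < r) (N : ℕ) : ∃ C : ℕ → ℝ,
    ∀ (τ : ℝ) (ψ : V × ℝ → ℝ) (x : ℝ) (w : V → ℝ) (b : V × ℝ → ℂ), 1 ≤ τ → ContDiff ℝ ∞ ψ →
      (∀ j, 2 ≤ j → ∀ p, ‖iteratedFDeriv ℝ j ψ p‖ ≤ A j) →
      (∀ p, c ≤ fderiv ℝ (fderiv ℝ ψ) p (0, 1) (0, 1)) →
      ContDiff ℝ ∞ w → (∀ j, 1 ≤ j → ∀ v, ‖iteratedFDeriv ℝ j w v‖ ≤ W j) →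
      (∀ v, fderiv ℝ ψ (v, w v) (0, 1) = x) →
      ContDiff ℝ ∞ b → (∀ j p, ‖iteratedFDeriv ℝ j b p‖ ≤ B j) → (∀ p, r < ‖p‖ → b p = 0) →
      ∃ a : V → ℂ, ContDiff ℝ ∞ a ∧ (∀ v, r < ‖v‖ → a v = 0) ∧
        (∀ j v, ‖iteratedFDeriv ℝ j a v‖ ≤ C j) ∧ (∀ v, ‖a v‖ ≤ C 0 / (1 + |w v|) ^ N) ∧
        (∀ v, 2 * r ≤ |w v| → ‖a v‖ ≤ C 0 / (τ ^ N * (1 + |w v|) ^ N)) ∧
        ∀ v, ∫ s : ℝ, b (v, s) *
          Complex.exp (((τ * (ψ (v, s) - x * s) : ℝ) : ℂ) * Complex.I) =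
          ((√τ)⁻¹ : ℝ) *
            (Complex.exp (((τ * (ψ (v, w v) - x * w v) : ℝ) : ℂ) * Complex.I) * a v) := by
  set A1 : ℕ → ℝ := fun j => (1 + r) * ccomp (fun j => A (j + 1)) (fun _ => 1 + r) j + 0 with hA1
  set W1 : ℕ → ℝ := fun j => ‖r⁻¹ • ContinuousLinearMap.id ℝ ℝ‖ * W j with hW1
  set B1' : ℕ → ℝ := ccomp B fun _ => 1 + r with hB1'
  obtain ⟨C, hC⟩ := spp1 V A1 W1 B1' (r ^ 2 * c) (by positivity) N
  set D : ℝ := r * |C 0| * (1 + 2 * r) ^ N + r * |C 0| * (1 + r) ^ N with hD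
  have hD0 : 0 ≤ D := by positivity
  refine ⟨fun j => r * |C j| + D, fun τ ψ x w b hτ hψ hA hcc hw hW hcr hb hB hs => ?_⟩
  have hτ0 : 0 < τ := by linarith
  have hA' : B1 (fun j => A (j + 1)) (fderiv ℝ ψ) := by
    refine ⟨sm_fderiv hψ, fun j hj y => ?_⟩
    rw [norm_iteratedFDeriv_fderiv]
    exact hA _ (by omega) y
  have hA2 := psr_b1 (x := x) hψ hA' hr
  have hn : ‖rsc V r‖ ≤ 1 + r := by
    refine ContinuousLinearMap.opNorm_le_bound _ (by linarith) fun y => ?_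
    rw [rsc_apply, Prod.norm_def, Prod.norm_def]
    refine max_le ?_ ?_
    · have := le_max_left ‖y.1‖ ‖y.2‖
      have h0 := norm_nonneg y.1
      nlinarith
    · simp only [norm_mul, Real.norm_eq_abs, abs_of_pos hr]
      have := le_max_right ‖y.1‖ ‖y.2‖
      rw [Real.norm_eq_abs] at this
      have h0 := abs_nonneg y.2
      have h1 : 0 ≤ max ‖y.1‖ |y.2| := le_max_of_le_right h0
      nlinarith
  have hpsm : ContDiff ℝ ∞ (psr r x ψ) :=
    (hψ.comp (rsc V r).contDiff).add (ContinuousLinearMap.contDiff _)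
  set w' : V → ℝ := fun v => (r⁻¹ • ContinuousLinearMap.id ℝ ℝ) (w v) with hw'
  have hw'e : ∀ v, w' v = r⁻¹ * w v := fun v => rfl
  have hw1 : B1 W1 w' := B1.clm ⟨hw, hW⟩ _
  set b' : V × ℝ → ℂ := fun y => b (rsc V r y) with hb'
  have hb1 : Bs B1' b' := Bs.comp ⟨hb, hB⟩ ((b1_clm (rsc V r)).mono fun _ _ => hn)
  have hrw : ∀ v, r * w' v = w v := fun v => by
    rw [hw'e, ← mul_assoc, mul_inv_cancel₀ hr.ne', one_mul]
  obtain ⟨h1, h2⟩ := hC τ (psr r x ψ) w' b' hτ hpsm hA2 (fun p => by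
      rw [psr_fderiv2 hψ]
      exact mul_le_mul_of_nonneg_left (hcc _) (by positivity)) hw1 (fun v => by
      rw [psr_fderiv hψ]
      simp only [ContinuousLinearMap.flip_apply, ContinuousLinearMap.compL_apply, add_apply,
        ContinuousLinearMap.comp_apply, smul_apply, ContinuousLinearMap.coe_snd', smul_eq_mul]
      have h4 : rsc V r ((0 : V), (1 : ℝ)) = r • ((0 : V), (1 : ℝ)) := by
        rw [rsc_apply]
        simp
      rw [h4, map_smul, rsc_apply]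
      simp only
      rw [hrw, hcr, smul_eq_mul]
      ring) hb1 (fun y hy => by
      refine hs _ ?_
      rw [rsc_apply, Prod.norm_def]
      refine lt_max_of_lt_right ?_
      simp only [norm_mul, Real.norm_eq_abs, abs_of_pos hr]
      nlinarith)
  set g : V → ℂ := spg τ (psr r x ψ) w' b' with hg
  have hC0 : ∀ j, 0 ≤ C j := fun j => h1.nonneg j
  have hgr : ∀ j v, ‖iteratedFDeriv ℝ j (r • g) v‖ ≤ r * |C j| := fun j v => by
    rw [iteratedFDeriv_const_smul_apply (smn h1.sm j).contDiffAt, norm_smul, Real.norm_eq_abs,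
      abs_of_pos hr]
    exact mul_le_mul_of_nonneg_left ((h1.bd j v).trans (le_abs_self _)) hr.le
  have hg0 : ∀ v, ‖(r • g) v‖ ≤ r * |C 0| := fun v => by
    have := hgr 0 v
    rwa [norm_iteratedFDeriv_zero] at this
  have hgd : ∀ v, 2 * r ≤ |w v| → ‖(r • g) v‖ ≤ (r * |C 0| * (1 + r) ^ N) /
      (τ ^ N * (1 + |w v|) ^ N) := by
    intro v hv
    have h3 : |w' v| = |w v| / r := by
      rw [hw'e, abs_mul, abs_inv, abs_of_pos hr, inv_mul_eq_div]
    have h4 := h2 v (by rw [h3, le_div_iff₀ hr]; exact hv)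
    rw [Pi.smul_apply, norm_smul, Real.norm_eq_abs, abs_of_pos hr]
    have h5 : (1 + |w v|) ≤ (1 + r) * (1 + |w' v|) := by
      rw [h3]
      have h6 : 0 ≤ |w v| := abs_nonneg _
      have h7 : r * (|w v| / r) = |w v| := by field_simp
      have h8 : 0 ≤ |w v| / r := by positivity
      nlinarith
    have h9 : 0 ≤ |w' v| := abs_nonneg _
    have h10 : (1 + |w v|) ^ N ≤ (1 + r) ^ N * (1 + |w' v|) ^ N := by
      rw [← mul_pow]
      exact pow_le_pow_left₀ (by positivity) h5 _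
    calc r * ‖g v‖ ≤ r * (|C 0| / (τ * (1 + |w' v|)) ^ N) := by
          refine mul_le_mul_of_nonneg_left (h4.trans ?_) hr.le
          gcongr
          exact le_abs_self _
      _ ≤ _ := by
          rw [mul_pow, ← mul_div_assoc, div_le_div_iff₀ (by positivity) (by positivity)]
          calc r * |C 0| * (τ ^ N * (1 + |w v|) ^ N) ≤
                r * |C 0| * (τ ^ N * ((1 + r) ^ N * (1 + |w' v|) ^ N)) := by gcongr
            _ = _ := by ring
  refine ⟨r • g, h1.sm.const_smul r, fun v hv => ?_, fun j v => ?_, fun v => ?_, fun v hv => ?_,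
    fun v => ?_⟩
  · have h3 : ∀ s : ℝ, b' (shf w' (v, s)) = 0 := fun s => by
      refine hs _ ?_
      rw [rsc_apply, Prod.norm_def, shf]
      exact lt_max_of_lt_left hv
    rw [Pi.smul_apply, hg, spg, TT]
    simp [h3]
  · exact (hgr j v).trans (by linarith)
  · have h3 : 0 ≤ |w v| := abs_nonneg _
    rw [le_div_iff₀ (by positivity)]
    rcases le_total (2 * r) |w v| with h4 | h4
    · have h5 := hgd v h4
      rw [le_div_iff₀ (by positivity)] at h5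
      have h6 : (1 : ℝ) ≤ τ ^ N := one_le_pow₀ hτ
      have h7 : ‖(r • g) v‖ * (1 + |w v|) ^ N ≤ ‖(r • g) v‖ * (τ ^ N * (1 + |w v|) ^ N) := by
        refine mul_le_mul_of_nonneg_left ?_ (norm_nonneg _)
        have : 0 ≤ (1 + |w v|) ^ N := by positivity
        nlinarith
      have h8 : 0 ≤ r * |C 0| := by positivity
      have h9 : 0 ≤ r * |C 0| * (1 + 2 * r) ^ N := by positivity
      linarith
    · have h5 : (1 + |w v|) ^ N ≤ (1 + 2 * r) ^ N :=
        pow_le_pow_left₀ (by positivity) (by linarith) _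
      have h6 : ‖(r • g) v‖ * (1 + |w v|) ^ N ≤ r * |C 0| * (1 + 2 * r) ^ N :=
        mul_le_mul (hg0 v) h5 (by positivity) (by positivity)
      have h8 : 0 ≤ r * |C 0| := by positivity
      have h9 : 0 ≤ r * |C 0| * (1 + r) ^ N := by positivity
      linarith
  · refine (hgd v hv).trans ?_
    have h3 : 0 ≤ |w v| := abs_nonneg _
    have h8 : 0 ≤ r * |C 0| := by positivity
    have h9 : 0 ≤ r * |C 0| * (1 + 2 * r) ^ N := by positivity
    gcongr
    linarith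
  · have h3 := spg_eq hτ0 (psr r x ψ) w' b' v
    have h4 : ∫ s : ℝ, b (v, s) * Complex.exp (((τ * (ψ (v, s) - x * s) : ℝ) : ℂ) * Complex.I) =
        (r : ℂ) * ∫ t, b' (v, t) *
          Complex.exp (((τ * psr r x ψ (v, t) : ℝ) : ℂ) * Complex.I) := by
      have h5 := Measure.integral_comp_mul_left (fun s => b (v, s) *
        Complex.exp (((τ * (ψ (v, s) - x * s) : ℝ) : ℂ) * Complex.I)) r
      have h6 : ∀ t, b' (v, t) * Complex.exp (((τ * psr r x ψ (v, t) : ℝ) : ℂ) * Complex.I) =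
          b (v, r * t) * Complex.exp (((τ * (ψ (v, r * t) - x * (r * t)) : ℝ) : ℂ) *
            Complex.I) := fun t => by
        rw [psr_apply]
        rfl
      simp only [h6]
      rw [h5, abs_inv, abs_of_pos hr, Complex.real_smul, ← mul_assoc, ← Complex.ofReal_mul,
        mul_inv_cancel₀ hr.ne', Complex.ofReal_one, one_mul]
    have h7 : τ ^ (-(1 / 2) : ℝ) = (√τ)⁻¹ := by
      rw [Real.rpow_neg hτ0.le, Real.sqrt_eq_rpow]
    have h8 : psr r x ψ (v, w' v) = ψ (v, w v) - x * w v := by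
      rw [psr_apply, hrw]
    rw [h4, h3, h7, h8, Pi.smul_apply, Complex.real_smul]
    ring

end

end Pool.Agent.GNP
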