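import Pool.Agent.GNP.Defs
import Pool.Agent.QPH.W
import Pool.Agent.VAN.Defs

/-!
Sublevel sets of almost every phase.
-/

namespace Pool.Agent.GNP

open MeasureTheory Set Metric Pool.Agent.MP_6cbfb8_an Pool.Agent.QPH
open scoped ENNReal Real RealInnerProductSpace ContDiff

/-- Negative powers of quadratic forms on the sphere. -/
lemma SUB_sphere_quad {n : ℕ} (hn : n ≠ 0) {s : ℝ} (hs0 : 0 ≤ s) (hs : s < 1 / 2) :
    ∃ C : ℝ≥0∞, C ≠ ⊤ ∧ ∀ (a : Fin n → ℝ) (J : Fin n), a J ≠ 0 →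
      ∫⁻ w : S n, ENNReal.ofReal |∑ j, a j * (w : E n) j ^ 2| ^ (-s) ∂(sm n)
        ≤ C * ENNReal.ofReal |a J| ^ (-s) := by
  obtain ⟨m, rfl⟩ := Nat.exists_eq_succ_of_ne_zero hn
  obtain ⟨C, hC, h1⟩ := W_quad_pi m hs0 hs
  set A2 := ∫⁻ r in Ioi (0 : ℝ), ENNReal.ofReal (r ^ (m + 1 - 1)) *
      (ENNReal.ofReal (Real.exp (-1 * r ^ 2)) * ENNReal.ofReal r ^ (-(2 * s))) with hA2
  have hA2' : A2 ≠ 0 := W_radial_ne_zero hs0
  set c2 := min A2 1 with hc2
  have hc20 : c2 ≠ 0 := (lt_min (pos_iff_ne_zero.2 hA2') one_pos).ne'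
  have hc2t : c2 ≠ ⊤ := (lt_of_le_of_lt (min_le_right _ _) ENNReal.one_lt_top).ne
  refine ⟨c2⁻¹ * C, ENNReal.mul_ne_top (ENNReal.inv_ne_top.2 hc20) hC, fun a J haJ => ?_⟩
  set H : EuclideanSpace ℝ (Fin (m + 1)) → ℝ≥0∞ :=
    fun u => ENNReal.ofReal |∑ j, a j * u j ^ 2| ^ (-s) with hH
  have hHm : Measurable H := by
    rw [hH]; fun_prop
  have hom : ∀ (r : ℝ) (w : EuclideanSpace ℝ (Fin (m + 1))), 0 < r →
      H (r • w) = ENNReal.ofReal r ^ (-(2 * s)) * H w := fun r w hr => W_hom_quad a s r w hr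
  have p2 := W_polar_mul hn (-(2 * s)) (fun r => ENNReal.ofReal (Real.exp (-1 * r ^ 2)))
    (by fun_prop) H hHm hom
  set T := ∫⁻ w : sphere (0 : EuclideanSpace ℝ (Fin (m + 1))) 1, H w ∂(volume.toSphere) with hT
  have p3 : T * A2 ≤ C * ENNReal.ofReal |a J| ^ (-s) := by
    rw [hA2, ← p2]
    refine le_trans (le_of_eq ?_) (h1 a J haJ)
    rw [← W_eucl_lint (fun u : Fin (m + 1) → ℝ => ENNReal.ofReal (Real.exp (-1 * ∑ j, u j ^ 2))
      * ENNReal.ofReal |∑ j, a j * u j ^ 2| ^ (-s))]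
    refine lintegral_congr fun u => ?_
    rw [EuclideanSpace.norm_sq_eq]
    simp only [Real.norm_eq_abs, sq_abs, hH]
  have p4 : T ≤ c2⁻¹ * (C * ENNReal.ofReal |a J| ^ (-s)) := by
    have : T * c2 ≤ C * ENNReal.ofReal |a J| ^ (-s) :=
      le_trans (mul_le_mul_right (min_le_left _ _) _) p3
    calc T = c2⁻¹ * (T * c2) := by
          rw [mul_left_comm, ENNReal.inv_mul_cancel hc20 hc2t, mul_one]
      _ ≤ _ := mul_le_mul_right this _
  rw [mul_assoc]
  exact p4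

lemma SUB_sum_sq {n : ℕ} (w : S n) : ∑ j, (w : E n) j ^ 2 = 1 := by
  have h1 : ‖(w : E n)‖ = 1 := by simp
  have h2 := EuclideanSpace.norm_sq_eq (w : E n)
  rw [h1] at h2
  simp only [Real.norm_eq_abs, sq_abs, one_pow] at h2
  exact h2.symm

/-- The square of the first coordinate. -/
lemma SUB_coord (d : ℕ) (hd : 1 ≤ d) {s : ℝ} (hs0 : 0 ≤ s) (hs : s < 1 / 2) :
    ∃ C : ℝ≥0∞, C ≠ ⊤ ∧ ∀ u : ℝ,
      ∫⁻ w : S (d + 1), ENNReal.ofReal |(w : E (d + 1)) 0 ^ 2 - u| ^ (-s) ∂(sm (d + 1)) ≤ C := by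
  obtain ⟨C, hC, h1⟩ := SUB_sphere_quad (n := d + 1) (by omega) hs0 hs
  have hfin : C * ENNReal.ofReal (1 / 2) ^ (-s) ≠ ⊤ := by
    refine ENNReal.mul_ne_top hC ?_
    rw [ENNReal.ofReal_rpow_of_pos (by norm_num)]
    exact ENNReal.ofReal_ne_top
  refine ⟨C * ENNReal.ofReal (1 / 2) ^ (-s), hfin, fun u => ?_⟩
  set a : Fin (d + 1) → ℝ := fun j => (if j = 0 then 1 else 0) - u with ha
  have h2 : ∀ w : S (d + 1), ∑ j, a j * (w : E (d + 1)) j ^ 2 = (w : E (d + 1)) 0 ^ 2 - u := by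
    intro w
    simp only [ha, sub_mul, ite_mul, one_mul, zero_mul, Finset.sum_sub_distrib,
      Finset.sum_ite_eq', Finset.mem_univ, if_true, ← Finset.mul_sum]
    rw [SUB_sum_sq]
    ring
  have h3 : ∀ J : Fin (d + 1), 1 / 2 ≤ |a J| →
      ∫⁻ w : S (d + 1), ENNReal.ofReal |(w : E (d + 1)) 0 ^ 2 - u| ^ (-s) ∂(sm (d + 1)) ≤
        C * ENNReal.ofReal (1 / 2) ^ (-s) := by
    intro J hJ
    have h4 := h1 a J (abs_pos.1 (lt_of_lt_of_le (by norm_num) hJ))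
    simp only [h2] at h4
    refine h4.trans (mul_le_mul_right ?_ _)
    exact W_rpow_anti hs0 (ENNReal.ofReal_le_ofReal hJ)
  by_cases hu : 1 / 2 ≤ |1 - u|
  · apply h3 0
    simpa [ha] using hu
  · apply h3 (Fin.last d)
    have hl : Fin.last d ≠ 0 := by
      intro h
      have := congrArg Fin.val h
      simp at this
      omega
    simp only [ha, hl, if_false, zero_sub, abs_neg]
    push Not at hu
    have h5 := abs_sub_abs_le_abs_sub 1 u
    rw [abs_one] at h5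
    linarith

/-- Gaussian average of a negative power of an affine function. -/
lemma SUB_affine (m : ℕ) {s : ℝ} (hs0 : 0 ≤ s) (hs : s < 1) :
    ∃ C : ℝ≥0∞, C ≠ ⊤ ∧ ∀ (A : ℝ) (a : Fin (m + 1) → ℝ) (J : Fin (m + 1)), a J ≠ 0 →
      ∫⁻ u : Fin (m + 1) → ℝ, ENNReal.ofReal (Real.exp (-1 * ∑ j, u j ^ 2))
        * ENNReal.ofReal |A + ∑ j, u j * a j| ^ (-s) ≤ C * ENNReal.ofReal |a J| ^ (-s) := by
  obtain ⟨C, hC, h1⟩ := W_one_kernel hs0 hs
  refine ⟨C * ∫⁻ w : Fin m → ℝ, ENNReal.ofReal (Real.exp (-1 * ∑ i, w i ^ 2)),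
    ENNReal.mul_ne_top hC (W_gauss_pi m), fun A a J haJ => ?_⟩
  set e := MeasurableEquiv.piFinSuccAbove (fun _ : Fin (m + 1) => ℝ) J with he
  have hmp : MeasurePreserving e := volume_preserving_piFinSuccAbove (fun _ => ℝ) J
  set G : (Fin (m + 1) → ℝ) → ℝ≥0∞ := fun u => ENNReal.ofReal (Real.exp (-1 * ∑ j, u j ^ 2))
        * ENNReal.ofReal |A + ∑ j, u j * a j| ^ (-s) with hG
  have hGm : Measurable G := by
    rw [hG]; fun_prop
  have e1 : ∫⁻ u, G u = ∫⁻ z, G (e.symm z) := by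
    rw [← (hmp.symm e).lintegral_comp_emb e.symm.measurableEmbedding]
  have e2 : ∫⁻ z, G (e.symm z) = ∫⁻ w, ∫⁻ v, G (e.symm (v, w)) :=
    lintegral_prod_symm' _ (hGm.comp e.symm.measurable)
  have e3 : ∀ (w : Fin m → ℝ) (v : ℝ), G (e.symm (v, w))
      = ENNReal.ofReal (Real.exp (-1 * ∑ i, w i ^ 2)) * (ENNReal.ofReal (Real.exp (-1 * v ^ 2))
        * ENNReal.ofReal |A + (v * a J + ∑ i, w i * a (J.succAbove i))| ^ (-s)) := by
    intro w v
    have e4 : ∀ i, e.symm (v, w) (J.succAbove i) = w i := by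
      intro i
      simp [he, MeasurableEquiv.piFinSuccAbove, Fin.insertNthEquiv]
    have e5 : e.symm (v, w) J = v := by
      simp [he, MeasurableEquiv.piFinSuccAbove, Fin.insertNthEquiv]
    simp only [hG]
    rw [Fin.sum_univ_succAbove _ J, Fin.sum_univ_succAbove _ J]
    simp only [e4, e5]
    rw [mul_add, Real.exp_add, ENNReal.ofReal_mul (Real.exp_pos _).le]
    ring
  have haJ' : 0 < |a J| := abs_pos.2 haJ
  have h2 : ∀ B : ℝ, ∫⁻ v : ℝ, ENNReal.ofReal (Real.exp (-1 * v ^ 2))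
        * ENNReal.ofReal |A + (v * a J + B)| ^ (-s) ≤ C * ENNReal.ofReal |a J| ^ (-s) := by
    intro B
    have h3 : ∀ v : ℝ, ENNReal.ofReal |A + (v * a J + B)| ^ (-s) =
        ENNReal.ofReal |a J| ^ (-s) * ENNReal.ofReal |v - (-((A + B) / a J))| ^ (-s) := by
      intro v
      rw [← ENNReal.mul_rpow_of_ne_top ENNReal.ofReal_ne_top ENNReal.ofReal_ne_top,
        ← ENNReal.ofReal_mul (abs_nonneg _), ← abs_mul]
      congr 3
      field_simp
      ring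
    simp_rw [h3]
    have h4 : ∀ v : ℝ, ENNReal.ofReal (Real.exp (-1 * v ^ 2)) * (ENNReal.ofReal |a J| ^ (-s) *
        ENNReal.ofReal |v - (-((A + B) / a J))| ^ (-s)) = ENNReal.ofReal |a J| ^ (-s) *
        (ENNReal.ofReal (Real.exp (-1 * v ^ 2)) *
          ENNReal.ofReal |v - (-((A + B) / a J))| ^ (-s)) := fun v => by ring
    simp_rw [h4]
    rw [lintegral_const_mul' _ _ (by
      rw [ENNReal.ofReal_rpow_of_pos haJ']
      exact ENNReal.ofReal_ne_top), mul_comm]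
    exact mul_le_mul_left (h1 _) _
  have e6 : ∀ w : Fin m → ℝ, ∫⁻ v, G (e.symm (v, w))
      ≤ ENNReal.ofReal (Real.exp (-1 * ∑ i, w i ^ 2)) * (C * ENNReal.ofReal |a J| ^ (-s)) := by
    intro w
    simp_rw [e3 w]
    rw [lintegral_const_mul' _ _ ENNReal.ofReal_ne_top]
    exact mul_le_mul_right (h2 _) _
  have hcp : C * ENNReal.ofReal |a J| ^ (-s) ≠ ⊤ := by
    rw [ENNReal.ofReal_rpow_of_pos (abs_pos.2 haJ)]
    exact ENNReal.mul_ne_top hC ENNReal.ofReal_ne_top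
  change ∫⁻ u, G u ≤ _
  rw [e1, e2]
  refine (lintegral_mono e6).trans ?_
  rw [lintegral_mul_const' _ _ hcp]
  apply le_of_eq
  ring

/-- The energy of a function on the sphere. -/
noncomputable def SUB_Z {n : ℕ} (s : ℝ) (f : E n → ℝ) : ℝ≥0∞ :=
  ∫⁻ z : S n × S n, ENNReal.ofReal |f z.1 - f z.2| ^ (-s) ∂((sm n).prod (sm n))

lemma SUB_pair (d : ℕ) (hd : 1 ≤ d) {s : ℝ} (hs0 : 0 ≤ s) (hs : s < 1 / 2) :
    ∫⁻ z : S (d + 1) × S (d + 1), ENNReal.ofReal
      |(z.1 : E (d + 1)) 0 ^ 2 - (z.2 : E (d + 1)) 0 ^ 2| ^ (-s)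
        ∂((sm (d + 1)).prod (sm (d + 1))) ≠ ⊤ := by
  obtain ⟨C, hC, h1⟩ := SUB_coord d hd hs0 hs
  have hm : Measurable fun z : S (d + 1) × S (d + 1) => ENNReal.ofReal
      |(z.1 : E (d + 1)) 0 ^ 2 - (z.2 : E (d + 1)) 0 ^ 2| ^ (-s) := by fun_prop
  rw [lintegral_prod_symm' _ hm]
  refine ne_top_of_le_ne_top (b := ∫⁻ _y : S (d + 1), C ∂(sm (d + 1))) ?_
    (lintegral_mono fun y => h1 ((y : E (d + 1)) 0 ^ 2))
  rw [lintegral_const]
  exact ENNReal.mul_ne_top hC (measure_ne_top _ _)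

lemma SUB_meas {n : ℕ} (φ : E n → ℝ) (hφ : Continuous φ) (s : ℝ) :
    Measurable fun p : (Fin n → ℝ) × (S n × S n) =>
      ENNReal.ofReal |pb φ p.1 p.2.1 - pb φ p.1 p.2.2| ^ (-s) := by
  have h1 : Continuous fun p : (Fin n → ℝ) × (S n × S n) => pb φ p.1 p.2.1 := by
    unfold pb
    have h2 : Continuous fun p : (Fin n → ℝ) × (S n × S n) => φ (p.2.1 : E n) :=
      hφ.comp (by fun_prop)
    refine h2.add (continuous_finsetSum _ fun j _ => ?_)
    fun_prop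
  have h2 : Continuous fun p : (Fin n → ℝ) × (S n × S n) => pb φ p.1 p.2.2 := by
    unfold pb
    have h2 : Continuous fun p : (Fin n → ℝ) × (S n × S n) => φ (p.2.2 : E n) :=
      hφ.comp (by fun_prop)
    refine h2.add (continuous_finsetSum _ fun j _ => ?_)
    fun_prop
  exact ((h1.sub h2).abs.measurable.ennreal_ofReal).pow_const _

/-- The Gaussian weight. -/
noncomputable def SUB_w {n : ℕ} (b : Fin n → ℝ) : ℝ≥0∞ :=
  ENNReal.ofReal (Real.exp (-1 * ∑ j, b j ^ 2))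

lemma SUB_w_meas {n : ℕ} : Measurable (SUB_w : (Fin n → ℝ) → ℝ≥0∞) := by
  unfold SUB_w
  fun_prop

lemma SUB_int {d : ℕ} (φ : E (d + 1) → ℝ) {s : ℝ} (hs0 : 0 < s) (C : ℝ≥0∞)
    (h1 : ∀ (A : ℝ) (a : Fin (d + 1) → ℝ) (J : Fin (d + 1)), a J ≠ 0 →
      ∫⁻ u : Fin (d + 1) → ℝ, ENNReal.ofReal (Real.exp (-1 * ∑ j, u j ^ 2))
        * ENNReal.ofReal |A + ∑ j, u j * a j| ^ (-s) ≤ C * ENNReal.ofReal |a J| ^ (-s))
    (x y : E (d + 1)) :
    ∫⁻ b : Fin (d + 1) → ℝ, SUB_w b * ENNReal.ofReal |pb φ b x - pb φ b y| ^ (-s) ≤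
      (C + 1) * ENNReal.ofReal |x 0 ^ 2 - y 0 ^ 2| ^ (-s) := by
  by_cases hz : x 0 ^ 2 - y 0 ^ 2 = 0
  · rw [hz, abs_zero, ENNReal.ofReal_zero, ENNReal.zero_rpow_of_neg (by linarith),
      ENNReal.mul_top (by simp)]
    exact le_top
  · have h2 := h1 (φ x - φ y) (fun j => x j ^ 2 - y j ^ 2) 0 hz
    refine le_trans (le_of_eq ?_) (h2.trans (mul_le_mul_left le_self_add _))
    refine lintegral_congr fun b => ?_
    have h3 : pb φ b x - pb φ b y = φ x - φ y + ∑ j, b j * (x j ^ 2 - y j ^ 2) := by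
      unfold pb
      rw [show (∑ j, b j * (x j ^ 2 - y j ^ 2)) =
        (∑ j, b j * x j ^ 2) - ∑ j, b j * y j ^ 2 by
          rw [← Finset.sum_sub_distrib]
          exact Finset.sum_congr rfl fun j _ => by ring]
      ring
    rw [h3]
    rfl

/-- The energy of almost every phase is finite. -/
theorem ae_energy (d : ℕ) (hd : 1 ≤ d) (φ : E (d + 1) → ℝ) (hφ : Continuous φ) {s : ℝ}
    (hs0 : 0 < s) (hs : s < 1 / 2) : ∀ᵐ b : Fin (d + 1) → ℝ, SUB_Z s (pb φ b) ≠ ⊤ := by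
  obtain ⟨C, hC, h1⟩ := SUB_affine d hs0.le (by linarith : s < 1)
  have hC1 : C + 1 ≠ ⊤ := ENNReal.add_ne_top.2 ⟨hC, ENNReal.one_ne_top⟩
  have hGm : Measurable (Function.uncurry fun (b : Fin (d + 1) → ℝ) (z : S (d + 1) × S (d + 1)) =>
      SUB_w b * ENNReal.ofReal |pb φ b z.1 - pb φ b z.2| ^ (-s)) :=
    (SUB_w_meas.comp measurable_fst).mul (SUB_meas φ hφ s)
  have e1 : ∀ b : Fin (d + 1) → ℝ, ∫⁻ z : S (d + 1) × S (d + 1),
      SUB_w b * ENNReal.ofReal |pb φ b z.1 - pb φ b z.2| ^ (-s)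
        ∂((sm (d + 1)).prod (sm (d + 1))) = SUB_w b * SUB_Z s (pb φ b) := by
    intro b
    unfold SUB_Z
    rw [← lintegral_const_mul' _ _ (by unfold SUB_w; exact ENNReal.ofReal_ne_top)]
  have e3 : ∫⁻ b : Fin (d + 1) → ℝ, SUB_w b * SUB_Z s (pb φ b) ≠ ⊤ := by
    simp_rw [← e1]
    rw [lintegral_lintegral_swap hGm.aemeasurable]
    refine ne_top_of_le_ne_top ?_ (lintegral_mono fun z => SUB_int φ hs0 C h1 z.1 z.2)
    rw [lintegral_const_mul' _ _ hC1]
    exact ENNReal.mul_ne_top hC1 (SUB_pair d hd hs0.le hs)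
  have hm : Measurable fun b : Fin (d + 1) → ℝ => SUB_w b * SUB_Z s (pb φ b) := by
    simp_rw [← e1]
    exact hGm.lintegral_prod_right'
  filter_upwards [ae_lt_top hm e3] with b hb h
  rw [h, ENNReal.mul_top] at hb
  · exact absurd hb (lt_irrefl _)
  · unfold SUB_w
    exact (ENNReal.ofReal_pos.2 (Real.exp_pos _)).ne'

/-- Sublevel sets of a function with finite energy. -/
theorem sublevel_of_energy {n : ℕ} (f : E n → ℝ) (hf : Continuous f) {s : ℝ} (hs0 : 0 < s)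
    (hZ : SUB_Z s f ≠ ⊤) (t δ : ℝ) (hδ : 0 ≤ δ) :
    sm n {x : S n | |f x - t| ≤ δ} ≤
      ENNReal.ofReal (√((SUB_Z s f).toReal * 2 ^ s) * δ ^ (s / 2)) := by
  set A : Set (S n) := {x : S n | |f x - t| ≤ δ} with hA
  set B : Set (S n × S n) := {z | ENNReal.ofReal (2 * δ) ^ (-s) ≤
    ENNReal.ofReal |f z.1 - f z.2| ^ (-s)} with hB
  have hfm : Measurable fun x : S n => f x := hf.measurable.comp measurable_subtype_coe
  have h1 : A ×ˢ A ⊆ B := by
    rintro ⟨x, y⟩ ⟨hx, hy⟩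
    simp only [hA, mem_setOf_eq] at hx hy
    simp only [hB, mem_setOf_eq]
    refine W_rpow_anti hs0.le (ENNReal.ofReal_le_ofReal ?_)
    have h2 : f x - f y = (f x - t) - (f y - t) := by ring
    rw [h2]
    exact (abs_sub _ _).trans (by linarith)
  have h3 : sm n A * sm n A ≤ ((sm n).prod (sm n)) B := by
    rw [← Measure.prod_prod]
    exact measure_mono h1
  have h4 : ENNReal.ofReal (2 * δ) ^ (-s) * ((sm n).prod (sm n)) B ≤ SUB_Z s f := by
    have hm : Measurable fun z : S n × S n => ENNReal.ofReal |f z.1 - f z.2| ^ (-s) := by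
      fun_prop
    exact mul_meas_ge_le_lintegral hm _
  have h5 : sm n A * sm n A ≤ ENNReal.ofReal (2 * δ) ^ s * SUB_Z s f := by
    refine h3.trans ?_
    rcases hδ.eq_or_lt with h | h
    · subst h
      rw [mul_zero, ENNReal.ofReal_zero, ENNReal.zero_rpow_of_neg (by linarith)] at h4
      rw [mul_zero, ENNReal.ofReal_zero, ENNReal.zero_rpow_of_pos hs0, zero_mul]
      by_contra h6
      push Not at h6
      rw [ENNReal.top_mul h6.ne'] at h4
      exact hZ (top_le_iff.1 h4)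
    · have h6 : ENNReal.ofReal (2 * δ) ^ s ≠ 0 := by
        rw [ENNReal.ofReal_rpow_of_pos (by linarith)]
        exact (ENNReal.ofReal_pos.2 (Real.rpow_pos_of_pos (by linarith) _)).ne'
      have h7 : ENNReal.ofReal (2 * δ) ^ s ≠ ⊤ := by
        rw [ENNReal.ofReal_rpow_of_pos (by linarith)]
        exact ENNReal.ofReal_ne_top
      rw [ENNReal.rpow_neg] at h4
      exact (ENNReal.inv_mul_le_iff h6 h7).1 h4
  have hAt : sm n A ≠ ⊤ := measure_ne_top _ _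
  set Z := (SUB_Z s f).toReal with hZr
  have hZ0 : 0 ≤ Z := ENNReal.toReal_nonneg
  have h8 : (sm n A).toReal ^ 2 ≤ (2 * δ) ^ s * Z := by
    have h9 := ENNReal.toReal_mono (ENNReal.mul_ne_top (by
      rw [ENNReal.ofReal_rpow_of_nonneg (by linarith) hs0.le]
      exact ENNReal.ofReal_ne_top) hZ) h5
    rw [ENNReal.toReal_mul, ENNReal.toReal_mul, ENNReal.ofReal_rpow_of_nonneg (by linarith) hs0.le,
      ENNReal.toReal_ofReal (Real.rpow_nonneg (by linarith) _)] at h9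
    rw [sq]
    exact h9
  rw [← ENNReal.ofReal_toReal hAt]
  apply ENNReal.ofReal_le_ofReal
  have h10 : (√(Z * 2 ^ s) * δ ^ (s / 2)) ^ 2 = (2 * δ) ^ s * Z := by
    rw [mul_pow, Real.sq_sqrt (by positivity), ← Real.rpow_natCast (δ ^ (s / 2)) 2,
      ← Real.rpow_mul hδ, Real.mul_rpow (by norm_num) hδ]
    norm_num
    ring
  refine le_of_sq_le_sq ?_ (by positivity)
  rw [h10]
  exact h8

/-- The sublevel estimate for the family `1, f`. -/
theorem sublevel_family {n : ℕ} (f : E n → ℝ) (hf : Continuous f) {s : ℝ} (hs0 : 0 < s)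
    (hZ : SUB_Z s f ≠ ⊤) : ∃ K κ : ℝ, 0 ≤ K ∧ 0 < κ ∧ ∀ c : Fin 2 → ℝ, ‖c‖ = 1 →
      ∀ δ : ℝ, 0 ≤ δ → sm n {x : S n | |VAN.fam ![fun _ => 1, f] c x| ≤ δ} ≤
        ENNReal.ofReal (K * δ ^ κ) := by
  obtain ⟨B0, hB0⟩ := (isCompact_sphere (0 : E n) 1).exists_bound_of_continuousOn hf.continuousOn
  set B := |B0| with hB
  have hBf : ∀ x : S n, |f x| ≤ B := fun x =>
    (by simpa using hB0 x x.2 : |f x| ≤ B0).trans (le_abs_self _)
  have hB1 : 0 ≤ B := abs_nonneg _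
  set η : ℝ := 1 / (2 * (1 + B)) with hη
  have hη0 : 0 < η := by positivity
  have hη1 : η ≤ 1 / 2 := by
    rw [hη, div_le_div_iff₀ (by positivity) (by norm_num)]
    nlinarith
  have hηB : η * B ≤ 1 / 2 := by
    rw [hη, div_mul_eq_mul_div, div_le_div_iff₀ (by positivity) (by norm_num)]
    nlinarith
  set K1 := √((SUB_Z s f).toReal * 2 ^ s) with hK1
  set K2 := (sm n univ).toReal * 2 ^ (s / 2) with hK2
  have hK1' : 0 ≤ K1 := Real.sqrt_nonneg _
  have hK2' : 0 ≤ K2 := by positivity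
  refine ⟨K1 * (η⁻¹) ^ (s / 2) + K2, s / 2, by positivity, by linarith, fun c hc δ hδ => ?_⟩
  have hfam : ∀ x : E n, VAN.fam ![fun _ => 1, f] c x = c 0 + c 1 * f x := by
    intro x
    unfold VAN.fam
    rw [Fin.sum_univ_two]
    simp
  simp only [hfam]
  by_cases h1 : η ≤ |c 1|
  · have hc1 : c 1 ≠ 0 := by
      intro h
      rw [h, abs_zero] at h1
      linarith
    have h2 : {x : S n | |c 0 + c 1 * f x| ≤ δ} ⊆ {x : S n | |f x - (-(c 0 / c 1))| ≤ η⁻¹ * δ} := by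
      intro x hx
      simp only [mem_setOf_eq] at hx ⊢
      have h3 : c 0 + c 1 * f x = c 1 * (f x - (-(c 0 / c 1))) := by
        field_simp
        ring
      rw [h3, abs_mul] at hx
      have h4 : η * |f x - (-(c 0 / c 1))| ≤ δ :=
        (mul_le_mul_of_nonneg_right h1 (abs_nonneg _)).trans hx
      rw [inv_mul_eq_div, le_div_iff₀ hη0, mul_comm]
      exact h4
    refine (measure_mono h2).trans ((sublevel_of_energy f hf hs0 hZ _ _ (by positivity)).trans ?_)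
    apply ENNReal.ofReal_le_ofReal
    rw [Real.mul_rpow (by positivity) hδ]
    have : 0 ≤ K2 * δ ^ (s / 2) := by positivity
    nlinarith
  · push Not at h1
    have h2 : |c 0| = 1 := by
      have h3 : ‖c‖ = max |c 0| |c 1| := by
        rw [Pi.norm_def]
        simp [Fin.univ_succ, Finset.sup_insert]
      rw [h3] at hc
      rcases max_choice |c 0| |c 1| with h | h
      · rw [← h]; exact hc
      · rw [h] at hc
        linarith
    by_cases h4 : δ < 1 / 2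
    · have h5 : {x : S n | |c 0 + c 1 * f x| ≤ δ} = ∅ := by
        ext x
        simp only [mem_setOf_eq, mem_empty_iff_false, iff_false, not_le]
        have h6 : |c 1 * f x| ≤ 1 / 2 := by
          rw [abs_mul]
          exact (mul_le_mul h1.le (hBf x) (abs_nonneg _) hη0.le).trans hηB
        have h7 : |c 0| - |c 1 * f x| ≤ |c 0 + c 1 * f x| := by
          have := abs_sub_abs_le_abs_sub (c 0) (-(c 1 * f x))
          rwa [abs_neg, sub_neg_eq_add] at this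
        linarith
      rw [h5, measure_empty]
      exact zero_le
    · push Not at h4
      refine (measure_mono (subset_univ _)).trans ?_
      rw [← ENNReal.ofReal_toReal (measure_ne_top (sm n) univ)]
      apply ENNReal.ofReal_le_ofReal
      have h8 : 1 ≤ (2 * δ) ^ (s / 2) := Real.one_le_rpow (by linarith) (by linarith)
      rw [Real.mul_rpow (by norm_num) hδ] at h8
      have h9 : (sm n univ).toReal * 1 ≤ (sm n univ).toReal * (2 ^ (s / 2) * δ ^ (s / 2)) :=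
        mul_le_mul_of_nonneg_left h8 ENNReal.toReal_nonneg
      have : 0 ≤ K1 * (η⁻¹) ^ (s / 2) * δ ^ (s / 2) := by positivity
      nlinarith

/-- The sublevel estimate for almost every phase. -/
theorem ae_sublevel (d : ℕ) (hd : 1 ≤ d) (φ : E (d + 1) → ℝ) (hφ : Continuous φ) :
    ∀ᵐ b : Fin (d + 1) → ℝ, ∃ K κ : ℝ, 0 ≤ K ∧ 0 < κ ∧ ∀ c : Fin 2 → ℝ, ‖c‖ = 1 →
      ∀ δ : ℝ, 0 ≤ δ → sm (d + 1) {x : S (d + 1) | |VAN.fam ![fun _ => 1, pb φ b] c x| ≤ δ} ≤
        ENNReal.ofReal (K * δ ^ κ) := by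
  filter_upwards [ae_energy d hd φ hφ (s := 1 / 4) (by norm_num) (by norm_num)] with b hb
  refine sublevel_family (pb φ b) ?_ (s := 1 / 4) (by norm_num) hb
  unfold pb
  fun_prop

end Pool.Agent.GNP
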