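import Pool.Agent.GNP.TPH
import Pool.Agent.GNP.N5TERM

/-!
The terminal bound for a family of phases at one scale: the two halves together.
-/

namespace Pool.Agent.GNP

open MeasureTheory Set Pool.Agent.MP_6cbfb8_an
open scoped ENNReal Real RealInnerProductSpace ContDiff

/-- **The terminal bound.** -/
theorem term_fam (d : ℕ) (A : ℕ → ℝ) (al : ℝ) (hal : 0 < al) : ∃ C : ℝ, 0 < C ∧
    ∀ {ι : Type*} (s : Finset ι) (a : ι → E d → ℂ) (q : ι → E d → ℝ) (G : ι → Set (E d))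
      (r R K V0 : ℝ) (M0 M1 : ℕ), 1 ≤ R → 1 ≤ K → 0 ≤ V0 →
      (∀ i ∈ s, CellK d A r R K (a i) (q i) (G i)) →
      (∀ y, {i ∈ (s : Set ι) | y ∈ G i}.ncard ≤ M0) →
      (∀ᵐ ξ : E d, ∀ Z : Finset (ι × E d), (∀ p ∈ Z, p.1 ∈ s ∧ p.2 ∈ G p.1 ∧
        gr (q p.1) p.2 = ξ ∧ (Hs (q p.1) p.2).det ≠ 0) → Z.card ≤ M1) →
      ∑ i ∈ s, volume (G i) ≤ ENNReal.ofReal V0 →
      ∫⁻ x, ‖∑ i ∈ s, uu (a i) (q i) x‖ₑ ^ (2 + al) ≤
        ENNReal.ofReal (C * M0 * K ^ (d * al / 2) * (V0 + M1) ^ al) *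
          ∑ i ∈ s, ∫⁻ y in G i, ENNReal.ofReal ((max 1 (|(Hs (q i) y).det| / R ^ d))⁻¹ ^ al) := by
  obtain ⟨C1, hC1, H1⟩ := term_phaseK d (d + 1) A al hal.le
  obtain ⟨C2, hC2, H2⟩ := term_meas d (d + 1) (by omega) al hal
  refine ⟨C1 * C2, by positivity, fun s a q G r R K V0 M0 M1 hR hK hV0 hC hM0 hM1 hV => ?_⟩
  have hR0 : 0 < R := by linarith
  have h1 := H1 s a q G r R K M0 hR hK hC hM0
  have h2 := H2 s q G R V0 M1 hR0 hV0 (fun i hi => (hC i hi).sm) (fun i hi => (hC i hi).meas) hM1 hV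
  refine h1.trans ?_
  unfold muF
  refine (mul_le_mul_right h2 _).trans (le_of_eq ?_)
  rw [← mul_assoc, ← ENNReal.ofReal_mul (by positivity)]
  congr 2
  have h3 : (R ^ d)⁻¹ * R ^ d = 1 := inv_mul_cancel₀ (by positivity)
  calc C1 * M0 * K ^ (d * al / 2) * (R ^ d)⁻¹ * (C2 * R ^ d * (V0 + M1) ^ al)
      = C1 * C2 * M0 * K ^ (d * al / 2) * (V0 + M1) ^ al * ((R ^ d)⁻¹ * R ^ d) := by ring
    _ = _ := by
        rw [h3]
        ring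

end Pool.Agent.GNP
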