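import Mathlib

/-!
From exponents two and four to the exponents between them, for sums of functions which are controlled
by numbers.
-/

namespace Pool.Agent.GNP.TMR

open MeasureTheory Set
open scoped ENNReal

/-- Hölder between the exponents two and four. -/
theorem holder24 {X : Type} [MeasurableSpace X] (μ : Measure X) {p : ℝ} (hp : 2 ≤ p) (hp4 : p ≤ 4)
    (g : X → ℂ) (hg : AEStronglyMeasurable g μ) :
    ∫⁻ x, ‖g x‖ₑ ^ p ∂μ ≤ (∫⁻ x, ‖g x‖ₑ ^ (2 : ℝ) ∂μ) ^ ((4 - p) / 2) *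
      (∫⁻ x, ‖g x‖ₑ ^ (4 : ℝ) ∂μ) ^ ((p - 2) / 2) := by
  have h1 : ∀ x, ‖g x‖ₑ ^ p = (‖g x‖ₑ ^ (2 : ℝ)) ^ ((4 - p) / 2) *
      (‖g x‖ₑ ^ (4 : ℝ)) ^ ((p - 2) / 2) := by
    intro x
    rw [← ENNReal.rpow_mul, ← ENNReal.rpow_mul,
      ← ENNReal.rpow_add_of_nonneg _ _ (by linarith) (by linarith)]
    congr 1
    ring
  simp_rw [h1]
  exact ENNReal.lintegral_mul_norm_pow_le (hg.enorm.pow_const _) (hg.enorm.pow_const _)
    (by linarith) (by linarith) (by ring)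

/-- Triangle inequality for finitely many classes. -/
theorem lp_fsum {X : Type} [MeasurableSpace X] (μ : Measure X) {κ : Type} (s : Finset κ)
    (u : κ → X → ℂ) (hu : ∀ c ∈ s, AEStronglyMeasurable (u c) μ) {p : ℝ} (hp : 1 ≤ p) :
    ∫⁻ x, ‖∑ c ∈ s, u c x‖ₑ ^ p ∂μ ≤
      (s.card : ℝ≥0∞) ^ (p - 1) * ∑ c ∈ s, ∫⁻ x, ‖u c x‖ₑ ^ p ∂μ := by
  have h0 : ∀ x, ‖∑ c ∈ s, u c x‖ₑ ^ p ≤ (s.card : ℝ≥0∞) ^ (p - 1) * ∑ c ∈ s, ‖u c x‖ₑ ^ p := by
    intro x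
    refine (ENNReal.rpow_le_rpow (enorm_sum_le _ _) (by linarith)).trans ?_
    exact ENNReal.rpow_sum_le_const_mul_sum_rpow s _ hp
  refine (lintegral_mono h0).trans ?_
  have hm : ∀ c ∈ s, AEMeasurable (fun x => ‖u c x‖ₑ ^ p) μ := fun c hc =>
    ((hu c hc).enorm).pow_const _
  rw [lintegral_const_mul'' _ (Finset.aemeasurable_fun_sum s hm), lintegral_finsetSum' s hm]

/-- One class: all `a i` between `τ / 2` and `τ`. -/
theorem one_class {X : Type} [MeasurableSpace X] (μ : Measure X) {p : ℝ} (hp : 2 ≤ p) (hp4 : p ≤ 4)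
    {ι : Type} (I : Finset ι) (f : ι → X → ℂ) (a : ι → ℝ) (K2 K4 τ : ℝ)
    (hf : ∀ i, AEStronglyMeasurable (f i) μ) (hK2 : 0 ≤ K2) (hK4 : 0 ≤ K4) (hτ : 0 < τ)
    (h2 : ∫⁻ x, ‖∑ i ∈ I, f i x‖ₑ ^ (2 : ℝ) ∂μ ≤ ENNReal.ofReal (K2 * ∑ i ∈ I, a i ^ 2))
    (h4 : ∫⁻ x, ‖∑ i ∈ I, f i x‖ₑ ^ (4 : ℝ) ∂μ ≤ ENNReal.ofReal (K4 * ∑ i ∈ I, a i ^ 4))
    (hlo : ∀ i ∈ I, τ / 2 ≤ a i) (hhi : ∀ i ∈ I, a i ≤ τ) :
    ∫⁻ x, ‖∑ i ∈ I, f i x‖ₑ ^ p ∂μ ≤
      ENNReal.ofReal (2 ^ p * (K2 ^ ((4 - p) / 2) * K4 ^ ((p - 2) / 2)) * ∑ i ∈ I, a i ^ p) := by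
  have ha : ∀ i ∈ I, 0 ≤ a i := fun i hi => le_trans (by positivity) (hlo i hi)
  have hsm : AEStronglyMeasurable (fun x => ∑ i ∈ I, f i x) μ :=
    Finset.aestronglyMeasurable_fun_sum I fun i _ => hf i
  refine (holder24 μ hp hp4 _ hsm).trans ?_
  have hc0 : (0 : ℝ) ≤ I.card := Nat.cast_nonneg _
  have s2 : ∑ i ∈ I, a i ^ 2 ≤ I.card * τ ^ 2 := by
    rw [← nsmul_eq_mul, ← Finset.sum_const]
    exact Finset.sum_le_sum fun i hi => pow_le_pow_left₀ (ha i hi) (hhi i hi) 2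
  have s4 : ∑ i ∈ I, a i ^ 4 ≤ I.card * τ ^ 4 := by
    rw [← nsmul_eq_mul, ← Finset.sum_const]
    exact Finset.sum_le_sum fun i hi => pow_le_pow_left₀ (ha i hi) (hhi i hi) 4
  have e1 : (0 : ℝ) ≤ (4 - p) / 2 := by linarith
  have e2 : (0 : ℝ) ≤ (p - 2) / 2 := by linarith
  have h5 : (∫⁻ x, ‖∑ i ∈ I, f i x‖ₑ ^ (2 : ℝ) ∂μ) ^ ((4 - p) / 2) ≤
      ENNReal.ofReal ((K2 * (I.card * τ ^ 2)) ^ ((4 - p) / 2)) := by
    rw [← ENNReal.ofReal_rpow_of_nonneg (by positivity) e1]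
    exact ENNReal.rpow_le_rpow (h2.trans (ENNReal.ofReal_le_ofReal
      (mul_le_mul_of_nonneg_left s2 hK2))) e1
  have h6 : (∫⁻ x, ‖∑ i ∈ I, f i x‖ₑ ^ (4 : ℝ) ∂μ) ^ ((p - 2) / 2) ≤
      ENNReal.ofReal ((K4 * (I.card * τ ^ 4)) ^ ((p - 2) / 2)) := by
    rw [← ENNReal.ofReal_rpow_of_nonneg (by positivity) e2]
    exact ENNReal.rpow_le_rpow (h4.trans (ENNReal.ofReal_le_ofReal
      (mul_le_mul_of_nonneg_left s4 hK4))) e2
  refine (mul_le_mul' h5 h6).trans ?_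
  rw [← ENNReal.ofReal_mul (by positivity)]
  apply ENNReal.ofReal_le_ofReal
  have h7 : (K2 * (I.card * τ ^ 2)) ^ ((4 - p) / 2) * (K4 * (I.card * τ ^ 4)) ^ ((p - 2) / 2) =
      (K2 ^ ((4 - p) / 2) * K4 ^ ((p - 2) / 2)) * (I.card * τ ^ p) := by
    rw [Real.mul_rpow hK2 (by positivity), Real.mul_rpow hK4 (by positivity),
      Real.mul_rpow hc0 (by positivity), Real.mul_rpow hc0 (by positivity)]
    have h8 : (I.card : ℝ) ^ ((4 - p) / 2) * (I.card : ℝ) ^ ((p - 2) / 2) = I.card := by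
      rw [← Real.rpow_add_of_nonneg hc0 e1 e2, show (4 - p) / 2 + (p - 2) / 2 = 1 by ring,
        Real.rpow_one]
    have h9 : (τ ^ 2) ^ ((4 - p) / 2) * (τ ^ 4) ^ ((p - 2) / 2) = τ ^ p := by
      rw [← Real.rpow_natCast τ 2, ← Real.rpow_natCast τ 4, ← Real.rpow_mul hτ.le,
        ← Real.rpow_mul hτ.le, ← Real.rpow_add hτ]
      congr 1
      push_cast
      ring
    calc K2 ^ ((4 - p) / 2) * ((I.card : ℝ) ^ ((4 - p) / 2) * (τ ^ 2) ^ ((4 - p) / 2)) *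
          (K4 ^ ((p - 2) / 2) * ((I.card : ℝ) ^ ((p - 2) / 2) * (τ ^ 4) ^ ((p - 2) / 2))) =
        (K2 ^ ((4 - p) / 2) * K4 ^ ((p - 2) / 2)) *
          (((I.card : ℝ) ^ ((4 - p) / 2) * (I.card : ℝ) ^ ((p - 2) / 2)) *
            ((τ ^ 2) ^ ((4 - p) / 2) * (τ ^ 4) ^ ((p - 2) / 2))) := by ring
      _ = _ := by rw [h8, h9]
  rw [h7]
  have h10 : (I.card : ℝ) * τ ^ p ≤ 2 ^ p * ∑ i ∈ I, a i ^ p := by
    rw [← nsmul_eq_mul, ← Finset.sum_const, Finset.mul_sum]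
    refine Finset.sum_le_sum fun i hi => ?_
    rw [← Real.mul_rpow (by norm_num) (ha i hi)]
    exact Real.rpow_le_rpow hτ.le (by linarith [hlo i hi]) (by linarith)
  have h11 : 0 ≤ K2 ^ ((4 - p) / 2) * K4 ^ ((p - 2) / 2) := by positivity
  calc K2 ^ ((4 - p) / 2) * K4 ^ ((p - 2) / 2) * (I.card * τ ^ p) ≤
      K2 ^ ((4 - p) / 2) * K4 ^ ((p - 2) / 2) * (2 ^ p * ∑ i ∈ I, a i ^ p) :=
        mul_le_mul_of_nonneg_left h10 h11
    _ = _ := by ring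

theorem intp (p : ℝ) (hp : 2 ≤ p) (hp4 : p ≤ 4) : ∃ C : ℝ, 0 < C ∧ ∀ {X : Type}
    [MeasurableSpace X] (μ : Measure X) {ι : Type} [Fintype ι] (f : ι → X → ℂ) (a : ι → ℝ)
    (K2 K4 Kp : ℝ), (∀ i, AEStronglyMeasurable (f i) μ) → (∀ i, 0 ≤ a i) → 0 ≤ K2 → 0 ≤ K4 →
    0 ≤ Kp → (∀ I : Finset ι, ∫⁻ x, ‖∑ i ∈ I, f i x‖ₑ ^ (2 : ℝ) ∂μ ≤
      ENNReal.ofReal (K2 * ∑ i ∈ I, a i ^ 2)) →
    (∀ I : Finset ι, ∫⁻ x, ‖∑ i ∈ I, f i x‖ₑ ^ (4 : ℝ) ∂μ ≤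
      ENNReal.ofReal (K4 * ∑ i ∈ I, a i ^ 4)) →
    (∀ I : Finset ι, ∫⁻ x, ‖∑ i ∈ I, f i x‖ₑ ^ p ∂μ ≤
      ENNReal.ofReal (Kp * (∑ i ∈ I, a i) ^ p)) →
    ∫⁻ x, ‖∑ i, f i x‖ₑ ^ p ∂μ ≤ ENNReal.ofReal (C * (2 + Real.log (Fintype.card ι)) ^ p *
      (K2 ^ ((4 - p) / 2) * K4 ^ ((p - 2) / 2) + Kp) * ∑ i, a i ^ p) := by
  classical
  refine ⟨4 ^ p, by positivity, ?_⟩
  intro X _ μ ι _ f a K2 K4 Kp hf ha hK2 hK4 hKp h2 h4 hpp
  have hp0 : 0 < p := by linarith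
  set W : ℝ := K2 ^ ((4 - p) / 2) * K4 ^ ((p - 2) / 2) with hW
  have hW0 : 0 ≤ W := by positivity
  rcases isEmpty_or_nonempty ι with hι | hι
  · simp [hp0]
  obtain ⟨i0, hi0⟩ := Finite.exists_max a
  set A : ℝ := a i0 with hA
  have hA0 : 0 ≤ A := ha i0
  rcases eq_or_lt_of_le hA0 with hz | hApos
  · have h0 : ∀ i, a i = 0 := fun i => le_antisymm (by linarith [hi0 i]) (ha i)
    refine (hpp Finset.univ).trans ?_
    simp [h0, Real.zero_rpow hp0.ne']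
  set N : ℕ := Fintype.card ι with hN
  have hN1 : 1 ≤ N := Fintype.card_pos
  set m0 : ℕ := Nat.log 2 N + 1 with hm0
  have hNm : (N : ℝ) ≤ 2 ^ m0 := by
    have := (Nat.lt_pow_succ_log_self (b := 2) (by norm_num) N).le
    exact_mod_cast this
  have hcls : ∀ i, ∃ m, m ≤ m0 ∧ ((m = m0 ∧ a i ≤ A / 2 ^ m0) ∨
      (m < m0 ∧ A / 2 ^ m / 2 ≤ a i ∧ a i ≤ A / 2 ^ m)) := by
    intro i
    by_cases hi : a i ≤ A / 2 ^ m0
    · exact ⟨m0, le_rfl, Or.inl ⟨rfl, hi⟩⟩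
    · have hex : ∃ m, A / 2 ^ (m + 1) < a i := ⟨m0 - 1, by
        rw [Nat.sub_add_cancel (by omega)]
        exact not_le.1 hi⟩
      have hf1 := Nat.find_spec hex
      have hf2 : Nat.find hex ≤ m0 - 1 := Nat.find_min' hex (by
        rw [Nat.sub_add_cancel (by omega)]
        exact not_le.1 hi)
      refine ⟨Nat.find hex, by omega, Or.inr ⟨by omega, ?_, ?_⟩⟩
      · rw [div_div, ← pow_succ]
        exact hf1.le
      · rcases Nat.eq_zero_or_pos (Nat.find hex) with h0 | h0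
        · rw [h0]
          simpa using hi0 i
        · have := Nat.find_min hex (m := Nat.find hex - 1) (by omega)
          rw [Nat.sub_add_cancel h0] at this
          exact not_lt.1 this
  choose cl hcl1 hcl2 using hcls
  set I : ℕ → Finset ι := fun m => Finset.univ.filter fun i => cl i = m with hI
  have hsum : ∀ x, ∑ i, f i x = ∑ m ∈ Finset.range (m0 + 1), ∑ i ∈ I m, f i x := by
    intro x
    rw [Finset.sum_fiberwise_of_maps_to (g := cl) (t := Finset.range (m0 + 1))]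
    intro i _
    rw [Finset.mem_range]
    exact Nat.lt_succ_of_le (hcl1 i)
  have hsa : ∑ m ∈ Finset.range (m0 + 1), ∑ i ∈ I m, a i ^ p = ∑ i, a i ^ p := by
    rw [Finset.sum_fiberwise_of_maps_to (g := cl) (t := Finset.range (m0 + 1))]
    intro i _
    rw [Finset.mem_range]
    exact Nat.lt_succ_of_le (hcl1 i)
  have hap : ∀ i, 0 ≤ a i ^ p := fun i => Real.rpow_nonneg (ha i) p
  set S : ℝ := ∑ i, a i ^ p with hS
  have hS0 : 0 ≤ S := Finset.sum_nonneg fun i _ => hap i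
  have hAS : A ^ p ≤ S := Finset.single_le_sum (f := fun i => a i ^ p) (fun i _ => hap i)
    (Finset.mem_univ i0)
  -- the classes
  have hc1 : ∀ m ∈ Finset.range m0, ∫⁻ x, ‖∑ i ∈ I m, f i x‖ₑ ^ p ∂μ ≤
      ENNReal.ofReal (2 ^ p * W * ∑ i ∈ I m, a i ^ p) := by
    intro m hm
    rw [Finset.mem_range] at hm
    have hcm : ∀ i ∈ I m, A / 2 ^ m / 2 ≤ a i ∧ a i ≤ A / 2 ^ m := by
      intro i hi
      have h5 : cl i = m := by simpa [hI] using hi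
      rcases hcl2 i with ⟨h6, -⟩ | ⟨-, h7, h8⟩
      · omega
      · rw [h5] at h7 h8
        exact ⟨h7, h8⟩
    exact one_class μ hp hp4 (I m) f a K2 K4 (A / 2 ^ m) hf hK2 hK4 (by positivity) (h2 _) (h4 _)
      (fun i hi => (hcm i hi).1) fun i hi => (hcm i hi).2
  have hc2 : ∫⁻ x, ‖∑ i ∈ I m0, f i x‖ₑ ^ p ∂μ ≤ ENNReal.ofReal (Kp * S) := by
    refine (hpp _).trans (ENNReal.ofReal_le_ofReal (mul_le_mul_of_nonneg_left ?_ hKp))
    refine le_trans ?_ hAS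
    refine Real.rpow_le_rpow (Finset.sum_nonneg fun i _ => ha i) ?_ hp0.le
    have h5 : ∀ i ∈ I m0, a i ≤ A / 2 ^ m0 := by
      intro i hi
      have h6 : cl i = m0 := by simpa [hI] using hi
      rcases hcl2 i with ⟨-, h7⟩ | ⟨h7, -⟩
      · exact h7
      · omega
    calc ∑ i ∈ I m0, a i ≤ ∑ _i ∈ I m0, A / 2 ^ m0 := Finset.sum_le_sum h5
      _ = (I m0).card * (A / 2 ^ m0) := by rw [Finset.sum_const, nsmul_eq_mul]
      _ ≤ N * (A / 2 ^ m0) := by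
        refine mul_le_mul_of_nonneg_right ?_ (by positivity)
        exact_mod_cast Finset.card_le_univ _
      _ ≤ 2 ^ m0 * (A / 2 ^ m0) := mul_le_mul_of_nonneg_right hNm (by positivity)
      _ = A := by field_simp
  simp_rw [hsum]
  have hmeas : ∀ m ∈ Finset.range (m0 + 1),
      AEStronglyMeasurable (fun x => ∑ i ∈ I m, f i x) μ := fun m _ =>
    Finset.aestronglyMeasurable_fun_sum _ fun i _ => hf i
  refine (lp_fsum μ (Finset.range (m0 + 1)) (fun m x => ∑ i ∈ I m, f i x) hmeas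
    (by linarith)).trans ?_
  rw [Finset.sum_range_succ, Finset.card_range]
  have h8 : ∑ m ∈ Finset.range m0, ∫⁻ x, ‖∑ i ∈ I m, f i x‖ₑ ^ p ∂μ ≤
      ENNReal.ofReal (2 ^ p * W * S) := by
    refine (Finset.sum_le_sum hc1).trans ?_
    rw [← ENNReal.ofReal_sum_of_nonneg fun m _ =>
      mul_nonneg (by positivity) (Finset.sum_nonneg fun i _ => hap i)]
    apply ENNReal.ofReal_le_ofReal
    rw [← Finset.mul_sum]
    refine mul_le_mul_of_nonneg_left ?_ (by positivity)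
    have h81 := Finset.sum_range_succ (fun m => ∑ i ∈ I m, a i ^ p) m0
    have h82 : 0 ≤ ∑ i ∈ I m0, a i ^ p := Finset.sum_nonneg fun i _ => hap i
    rw [← hsa, h81]
    linarith
  refine (mul_le_mul_right (add_le_add h8 hc2) _).trans ?_
  rw [← ENNReal.ofReal_add (by positivity) (by positivity), ← ENNReal.ofReal_natCast,
    ENNReal.ofReal_rpow_of_nonneg (by positivity) (by linarith), ← ENNReal.ofReal_mul (by positivity)]
  apply ENNReal.ofReal_le_ofReal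
  have hlog : ((m0 + 1 : ℕ) : ℝ) ≤ 2 * (2 + Real.log N) := by
    have h9 : (Nat.log 2 N : ℝ) ≤ 2 * Real.log N := by
      have h10 : (2 : ℝ) ^ (Nat.log 2 N) ≤ N := by
        exact_mod_cast Nat.pow_log_le_self 2 (by omega)
      have h11 := Real.log_le_log (by positivity) h10
      rw [Real.log_pow] at h11
      have h12 : (1 / 2 : ℝ) ≤ Real.log 2 := by
        have := Real.log_two_gt_d9
        linarith
      have h13 : (0 : ℝ) ≤ (Nat.log 2 N : ℝ) := Nat.cast_nonneg _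
      nlinarith
    rw [hm0]
    push_cast
    linarith
  have hL1 : 1 ≤ 2 * (2 + Real.log N) := by
    have : 0 ≤ Real.log N := Real.log_natCast_nonneg N
    linarith
  have h14 : ((m0 + 1 : ℕ) : ℝ) ^ (p - 1) ≤ (2 * (2 + Real.log N)) ^ p := by
    calc ((m0 + 1 : ℕ) : ℝ) ^ (p - 1) ≤ (2 * (2 + Real.log N)) ^ (p - 1) :=
          Real.rpow_le_rpow (by positivity) hlog (by linarith)
      _ ≤ (2 * (2 + Real.log N)) ^ p := Real.rpow_le_rpow_of_exponent_le hL1 (by linarith)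
  have h15 : 2 ^ p * W * S + Kp * S ≤ 2 ^ p * (W + Kp) * S := by
    have h16 : (1 : ℝ) ≤ 2 ^ p := Real.one_le_rpow (by norm_num) hp0.le
    nlinarith [mul_nonneg hKp hS0]
  have hlogN : 0 ≤ 2 + Real.log N := by
    have : 0 ≤ Real.log N := Real.log_natCast_nonneg N
    linarith
  calc ((m0 + 1 : ℕ) : ℝ) ^ (p - 1) * (2 ^ p * W * S + Kp * S) ≤
      (2 * (2 + Real.log N)) ^ p * (2 ^ p * (W + Kp) * S) :=
        mul_le_mul h14 h15 (by positivity) (by positivity)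
    _ = (2 ^ p * 2 ^ p) * (2 + Real.log N) ^ p * (W + Kp) * S := by
        rw [Real.mul_rpow (by norm_num) hlogN]
        ring
    _ = 4 ^ p * (2 + Real.log N) ^ p * (W + Kp) * S := by
        rw [← Real.mul_rpow (by norm_num) (by norm_num)]
        norm_num

end Pool.Agent.GNP.TMR
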