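import Pool.Agent.MP_6cbfb8_an.Defs
import Mathlib.Analysis.Fourier.Convolution

/-!
Kernels for almost orthogonality on balls of radius `1/ρ`: a nonnegative Schwartz weight whose
Fourier transform has small support, and a reproducing kernel for frequencies in the unit ball.
-/

set_option autoImplicit false

namespace Pool.Agent.GNP.TMR

open MeasureTheory Set Pool.Agent.MP_6cbfb8_an SchwartzMap FourierTransform Convolution
open scoped ENNReal Real RealInnerProductSpace ContDiff

/-- An even nonnegative bump as a Schwartz function. -/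
theorem exists_bump (n : ℕ) : ∃ f : 𝓢(E n, ℂ), (∀ x, f (-x) = f x) ∧ (∀ x, 1 / 16 ≤ ‖x‖ → f x = 0) ∧
    (∀ x, ∃ r : ℝ, 0 ≤ r ∧ f x = r) ∧ ∫ x, f x = 1 := by
  let b : ContDiffBump (0 : E n) := ⟨1 / 32, 1 / 16, by norm_num, by norm_num⟩
  have hb : ContDiff ℝ ∞ (fun x : E n => ((b.normed volume x : ℝ) : ℂ)) :=
    Complex.ofRealCLM.contDiff.comp b.contDiff_normed
  have hc : HasCompactSupport (fun x : E n => ((b.normed volume x : ℝ) : ℂ)) :=
    b.hasCompactSupport_normed.comp_left (g := fun t : ℝ => (t : ℂ)) (by simp)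
  refine ⟨hc.toSchwartzMap hb, fun x => ?_, fun x hx => ?_, fun x => ⟨b.normed volume x,
    b.nonneg_normed x, ?_⟩, ?_⟩
  · simp [ContDiffBump.normed, b.neg]
  · have : b.normed volume x = 0 := by
      have h1 : x ∉ Function.support (b.normed volume) := by
        rw [b.support_normed_eq]
        simp only [Metric.mem_ball, dist_zero_right, not_lt]
        exact hx
      exact Function.notMem_support.1 h1
    simp [this]
  · simp
  · have h1 : ∫ x : E n, ((b.normed volume x : ℝ) : ℂ) = ((∫ x : E n, b.normed volume x : ℝ) : ℂ) :=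
      integral_complex_ofReal
    have h2 : ∫ x : E n, b.normed volume x = 1 := b.integral_normed
    rw [h2] at h1
    simpa using h1

/-- A nonnegative weight with Fourier transform supported in the unit ball. -/
theorem exists_weight (n : ℕ) : ∃ T : 𝓢(E n, ℂ), ∃ t : E n → ℝ, (∀ ξ, T ξ = t ξ) ∧ (∀ ξ, 0 ≤ t ξ) ∧
    (∀ ξ, ‖ξ‖ ≤ 1 → 1 / 4 ≤ t ξ) ∧
    ∀ x : E n, 1 / 4 ≤ ‖x‖ → ∫ ξ, T ξ * Complex.exp (((2 * π * ⟪ξ, x⟫ : ℝ) : ℂ) * Complex.I) = 0 := by
  obtain ⟨f, he, hs, hr, h1⟩ := exists_bump n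
  -- the Fourier transform of `f` is real
  have hF : ∀ ξ, 𝓕 f ξ = ∫ x, Complex.exp (((-2 * π * ⟪x, ξ⟫ : ℝ) : ℂ) * Complex.I) • f x := by
    intro ξ
    rw [fourier_coe, Real.fourier_eq']
  have hconj : ∀ ξ, (starRingEnd ℂ) (𝓕 f ξ) = 𝓕 f ξ := by
    intro ξ
    rw [hF, ← integral_conj]
    rw [← integral_neg_eq_self]
    refine integral_congr_ae (Filter.Eventually.of_forall fun x => ?_)
    obtain ⟨r, -, hr1⟩ := hr x
    simp only [smul_eq_mul, map_mul, he, ← Complex.exp_conj, inner_neg_left, Complex.conj_ofReal,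
      Complex.conj_I]
    rw [hr1, Complex.conj_ofReal]
    congr 2
    push_cast
    ring
  have hre : ∀ ξ, 𝓕 f ξ = ((𝓕 f ξ).re : ℂ) := fun ξ => (Complex.conj_eq_iff_re.1 (hconj ξ)).symm
  refine ⟨SchwartzMap.pairing (ContinuousLinearMap.mul ℂ ℂ) (𝓕 f) (𝓕 f), fun ξ => (𝓕 f ξ).re ^ 2,
    fun ξ => ?_, fun ξ => sq_nonneg _, fun ξ hξ => ?_, fun x hx => ?_⟩
  · rw [SchwartzMap.pairing_apply_apply, ContinuousLinearMap.mul_apply', hre ξ]
    push_cast
    simp [sq]
  · have h2 : ‖𝓕 f ξ - 1‖ ≤ 2 * π * (1 / 16) := by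
      rw [hF, ← h1, ← integral_sub]
      · have h3 : ∀ x, ‖Complex.exp (((-2 * π * ⟪x, ξ⟫ : ℝ) : ℂ) * Complex.I) • f x - f x‖ ≤
            2 * π * (1 / 16) * ‖f x‖ := by
          intro x
          have h4 : Complex.exp (((-2 * π * ⟪x, ξ⟫ : ℝ) : ℂ) * Complex.I) • f x - f x =
              (Complex.exp (Complex.I * ((-2 * π * ⟪x, ξ⟫ : ℝ) : ℂ)) - 1) * f x := by
            rw [smul_eq_mul, mul_comm Complex.I]; ring
          rw [h4, norm_mul]
          by_cases hx : 1 / 16 ≤ ‖x‖
          · rw [hs x hx]; simp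
          · refine mul_le_mul_of_nonneg_right ?_ (norm_nonneg _)
            refine (Real.norm_exp_I_mul_ofReal_sub_one_le).trans ?_
            rw [Real.norm_eq_abs, abs_mul, abs_mul, abs_neg, abs_of_pos (two_pos : (0 : ℝ) < 2),
              abs_of_pos Real.pi_pos]
            refine mul_le_mul_of_nonneg_left ?_ (by positivity)
            refine (abs_real_inner_le_norm _ _).trans ?_
            nlinarith [norm_nonneg x, norm_nonneg ξ]
        have h5 : ∫ x, ‖f x‖ = 1 := by
          have h6 : (fun x => (f x : ℂ)) = fun x => ((‖f x‖ : ℝ) : ℂ) := by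
            funext x
            obtain ⟨r, hr0, hr1⟩ := hr x
            rw [hr1, Complex.norm_real, Real.norm_eq_abs, abs_of_nonneg hr0]
          have h7 : ∫ x, f x = ((∫ x, ‖f x‖ : ℝ) : ℂ) := by
            rw [← integral_complex_ofReal]
            exact congrArg _ h6
          rw [h1] at h7
          exact_mod_cast h7.symm
        calc _ ≤ ∫ x, ‖Complex.exp (((-2 * π * ⟪x, ξ⟫ : ℝ) : ℂ) * Complex.I) • f x - f x‖ :=
              norm_integral_le_integral_norm _
          _ ≤ ∫ x, 2 * π * (1 / 16) * ‖f x‖ := by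
              refine integral_mono_of_nonneg (Filter.Eventually.of_forall fun x => norm_nonneg _)
                (f.integrable.norm.const_mul _) (Filter.Eventually.of_forall h3)
          _ = _ := by rw [integral_const_mul, h5, mul_one]
      · refine (f.integrable (μ := volume)).mono ?_ (Filter.Eventually.of_forall fun x => ?_)
        · have h6 : Continuous fun x : E n =>
              Complex.exp (((-2 * π * ⟪x, ξ⟫ : ℝ) : ℂ) * Complex.I) := by fun_prop
          exact (h6.smul f.continuous).aestronglyMeasurable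
        · rw [norm_smul, Complex.norm_exp_ofReal_mul_I, one_mul]
      · exact f.integrable
    have h3 := Real.pi_lt_d2
    have h4 : |(𝓕 f ξ - 1).re| ≤ 2 * π * (1 / 16) := (Complex.abs_re_le_norm _).trans h2
    rw [Complex.sub_re, Complex.one_re, abs_le] at h4
    nlinarith [h4.1]
  · have h2 : ∫ ξ, SchwartzMap.pairing (ContinuousLinearMap.mul ℂ ℂ) (𝓕 f) (𝓕 f) ξ *
        Complex.exp (((2 * π * ⟪ξ, x⟫ : ℝ) : ℂ) * Complex.I) =
        SchwartzMap.convolution (ContinuousLinearMap.mul ℂ ℂ) f f x := by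
      show _ = (𝓕⁻ (SchwartzMap.pairing (ContinuousLinearMap.mul ℂ ℂ) (𝓕 f) (𝓕 f))) x
      rw [fourierInv_coe, Real.fourierInv_eq']
      refine integral_congr_ae (Filter.Eventually.of_forall fun v => ?_)
      simp only [smul_eq_mul]
      rw [mul_comm]
    rw [h2, SchwartzMap.convolution_apply]
    simp only [convolution_def]
    refine integral_eq_zero_of_ae (Filter.Eventually.of_forall fun t => ?_)
    simp only [ContinuousLinearMap.mul_apply', Pi.zero_apply]
    by_cases ht : 1 / 16 ≤ ‖t‖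
    · rw [hs t ht, zero_mul]
    · rw [hs (x - t), mul_zero]
      have := norm_sub_norm_le x t
      linarith

/-- A reproducing kernel for frequencies in the unit ball. -/
theorem exists_repro (n : ℕ) : ∃ R : 𝓢(E n, ℂ), ∀ x : E n, ‖x‖ ≤ 1 →
    ∫ ξ, R ξ * Complex.exp (((2 * π * ⟪ξ, x⟫ : ℝ) : ℂ) * Complex.I) = 1 := by
  let b : ContDiffBump (0 : E n) := ⟨1, 2, by norm_num, by norm_num⟩
  have hb : ContDiff ℝ ∞ (fun x : E n => ((b x : ℝ) : ℂ)) :=
    Complex.ofRealCLM.contDiff.comp b.contDiff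
  have hc : HasCompactSupport (fun x : E n => ((b x : ℝ) : ℂ)) :=
    b.hasCompactSupport.comp_left (g := fun t : ℝ => (t : ℂ)) (by simp)
  set f : 𝓢(E n, ℂ) := hc.toSchwartzMap hb with hf
  refine ⟨𝓕 f, fun x hx => ?_⟩
  have h1 : 𝓕⁻ (𝓕 f) x = f x := by simp
  have h2 : f x = 1 := by
    have h3 : b x = 1 := b.one_of_mem_closedBall (by simpa using hx)
    simp [hf, h3]
  rw [← h2, ← h1, fourierInv_coe, Real.fourierInv_eq']
  refine integral_congr_ae (Filter.Eventually.of_forall fun v => ?_)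
  simp only [smul_eq_mul]
  rw [mul_comm]

end Pool.Agent.GNP.TMR
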