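import Pool.Agent.GNP.TMO
import Pool.Agent.GNP.TMI
import Pool.Agent.GNP.TMLC

/-!
The rectangle count improves the almost orthogonality in `L^p`, `2 ≤ p ≤ 4`.
-/

set_option autoImplicit false

namespace Pool.Agent.GNP.TMR

open MeasureTheory Set Pool.Agent.MP_6cbfb8_an SchwartzMap
open scoped ENNReal Real RealInnerProductSpace ContDiff ComplexConjugate

theorem lint_scale {n : ℕ} {f : E n → ℝ≥0∞} {ρ : ℝ} (hρ : 0 < ρ) (ξ0 : E n) :
    ∫⁻ ξ, f (ρ • (ξ - ξ0)) = ENNReal.ofReal ((ρ ^ n)⁻¹) * ∫⁻ ξ, f ξ := by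
  rw [lintegral_sub_right_eq_self (fun ξ => f (ρ • ξ)) ξ0]
  have h2 : Measure.map (fun x : E n => ρ • x) volume =
      ENNReal.ofReal |(ρ ^ Module.finrank ℝ (E n))⁻¹| • volume :=
    Measure.map_addHaar_smul volume hρ.ne'
  rw [finrank_euclideanSpace_fin, abs_of_pos (by positivity)] at h2
  have h3 : (∫⁻ ξ, f ξ ∂(Measure.map (fun x : E n => ρ • x) volume)) = ∫⁻ ξ : E n, f (ρ • ξ) := by
    have := (Homeomorph.smulOfNeZero ρ hρ.ne' : E n ≃ₜ E n).measurableEmbedding.lintegral_map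
      (μ := volume) f
    exact this
  rw [← h3, h2, lintegral_smul_measure, smul_eq_mul]

/-- One moment of a Schwartz weight. -/
theorem moment {n : ℕ} {T : 𝓢(E n, ℂ)} {t : E n → ℝ} (hTt : ∀ ξ, T ξ = t ξ) (ht : ∀ ξ, 0 ≤ t ξ)
    (k : ℕ) : ∃ m : ℝ, 0 < m ∧ ∀ ρ : ℝ, 0 < ρ → ∀ ξ0 : E n,
      Integrable (fun ξ : E n => t (ρ • (ξ - ξ0)) * (1 + ρ * ‖ξ - ξ0‖) ^ k) ∧
      ∫ ξ, t (ρ • (ξ - ξ0)) * (1 + ρ * ‖ξ - ξ0‖) ^ k ≤ (ρ ^ n)⁻¹ * m := by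
  have htn : ∀ ξ, ‖T ξ‖ = t ξ := fun ξ => by
    rw [hTt, Complex.norm_real, Real.norm_eq_abs, abs_of_nonneg (ht ξ)]
  have htc : Continuous t := by
    have h1 : t = fun ξ => ‖T ξ‖ := funext fun ξ => (htn ξ).symm
    rw [h1]
    exact T.continuous.norm
  have h0 : Integrable fun ξ : E n => t ξ * (1 + ‖ξ‖) ^ k := by
    have h1 : Integrable fun ξ : E n => 2 ^ (k - 1) * (‖ξ‖ ^ 0 * ‖T ξ‖ + ‖ξ‖ ^ k * ‖T ξ‖) :=
      ((T.integrable_pow_mul volume 0).add (T.integrable_pow_mul volume k)).const_mul _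
    refine h1.mono' (by fun_prop) (Filter.Eventually.of_forall fun ξ => ?_)
    have h2 := add_pow_le (zero_le_one (α := ℝ)) (norm_nonneg ξ) k
    rw [Real.norm_eq_abs, abs_of_nonneg (mul_nonneg (ht _) (by positivity)), htn]
    calc t ξ * (1 + ‖ξ‖) ^ k ≤ t ξ * (2 ^ (k - 1) * (1 ^ k + ‖ξ‖ ^ k)) :=
          mul_le_mul_of_nonneg_left h2 (ht _)
      _ = _ := by rw [one_pow]; ring
  refine ⟨(∫ ξ, t ξ * (1 + ‖ξ‖) ^ k) + 1, ?_, fun ρ hρ ξ0 => ⟨?_, ?_⟩⟩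
  · have : 0 ≤ ∫ ξ, t ξ * (1 + ‖ξ‖) ^ k := integral_nonneg fun ξ => mul_nonneg (ht _) (by positivity)
    linarith
  · have h1 := (h0.comp_smul hρ.ne').comp_sub_right ξ0
    refine h1.congr (Filter.Eventually.of_forall fun ξ => ?_)
    simp only [norm_smul, Real.norm_eq_abs, abs_of_pos hρ]
  · have h2 : ∀ ξ : E n, t (ρ • (ξ - ξ0)) * (1 + ρ * ‖ξ - ξ0‖) ^ k =
        (fun η : E n => (fun ζ : E n => t ζ * (1 + ‖ζ‖) ^ k) (ρ • η)) (ξ - ξ0) := by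
      intro ξ
      simp only [norm_smul, Real.norm_eq_abs, abs_of_pos hρ]
    simp_rw [h2]
    rw [integral_sub_right_eq_self (μ := (volume : Measure (E n)))
      (fun η : E n => (fun ζ : E n => t ζ * (1 + ‖ζ‖) ^ k) (ρ • η)) ξ0,
      Measure.integral_comp_smul (volume : Measure (E n)) (fun ζ : E n => t ζ * (1 + ‖ζ‖) ^ k) ρ,
      finrank_euclideanSpace_fin, abs_of_pos (by positivity), smul_eq_mul]
    refine mul_le_mul_of_nonneg_left ?_ (by positivity)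
    linarith

theorem wN_fin {n N : ℕ} (hN : n < N) :
    ∫⁻ ξ : E n, ENNReal.ofReal (((1 + ‖ξ‖) ^ N)⁻¹) < ⊤ := by
  have h1 := finite_integral_one_add_norm (E := E n) (μ := volume) (r := (N : ℝ))
    (by rw [finrank_euclideanSpace_fin]; exact_mod_cast hN)
  refine lt_of_le_of_lt (le_of_eq ?_) h1
  refine lintegral_congr fun ξ => ?_
  rw [Real.rpow_neg (by positivity), Real.rpow_natCast]

theorem wN_scale {n : ℕ} {ρ : ℝ} (hρ : 0 < ρ) (N : ℕ) (η : E n) :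
    ∫⁻ ξ0 : E n, ENNReal.ofReal (ρ ^ n * ((1 + ρ * ‖η - ξ0‖) ^ N)⁻¹) =
      ∫⁻ ξ : E n, ENNReal.ofReal (((1 + ‖ξ‖) ^ N)⁻¹) := by
  have h1 : ∀ ξ0 : E n, ENNReal.ofReal (ρ ^ n * ((1 + ρ * ‖η - ξ0‖) ^ N)⁻¹) =
      ENNReal.ofReal (ρ ^ n) * (fun ξ : E n => ENNReal.ofReal (((1 + ‖ξ‖) ^ N)⁻¹))
        (ρ • (ξ0 - η)) := by
    intro ξ0
    rw [ENNReal.ofReal_mul (by positivity)]
    simp only [norm_smul, Real.norm_eq_abs, abs_of_pos hρ]
    rw [norm_sub_rev]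
  simp_rw [h1]
  rw [lintegral_const_mul' _ _ ENNReal.ofReal_ne_top,
    lint_scale (f := fun ξ : E n => ENNReal.ofReal (((1 + ‖ξ‖) ^ N)⁻¹)) hρ η, ← mul_assoc,
    ← ENNReal.ofReal_mul (by positivity), mul_inv_cancel₀ (by positivity), ENNReal.ofReal_one,
    one_mul]

theorem wN_scale' {n : ℕ} {ρ : ℝ} (hρ : 0 < ρ) (N : ℕ) (ξ0 : E n) :
    ∫⁻ η : E n, ENNReal.ofReal (ρ ^ n * ((1 + ρ * ‖η - ξ0‖) ^ N)⁻¹) =
      ∫⁻ ξ : E n, ENNReal.ofReal (((1 + ‖ξ‖) ^ N)⁻¹) := by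
  rw [← wN_scale hρ N ξ0]
  refine lintegral_congr fun η => ?_
  rw [norm_sub_rev]

/-- The estimate on one ball of radius `1/ρ`. -/
theorem orthQ_loc {n : ℕ} {T : 𝓢(E n, ℂ)} {t : E n → ℝ} (hTt : ∀ ξ, T ξ = t ξ) (ht : ∀ ξ, 0 ≤ t ξ)
    (hT : ∀ x : E n, 1 / 4 ≤ ‖x‖ →
      ∫ ξ, T ξ * Complex.exp (((2 * π * ⟪ξ, x⟫ : ℝ) : ℂ) * Complex.I) = 0)
    (p : ℝ) (hp : 2 ≤ p) (hp4 : p ≤ 4) (N : ℕ) (hN : n < N) : ∃ C : ℝ, 0 < C ∧ ∀ (ρ : ℝ), 0 < ρ →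
    ∀ {ι : Type} [Fintype ι] [DecidableEq ι] (w : ι → E n) (F : ι → E n → ℂ) (M Q : ℕ),
    1 ≤ M → 1 ≤ Q → (∀ i, Spec (w i) ρ (F i)) →
    (∀ i, ((Finset.univ : Finset ι).filter fun j => ‖w i - w j‖ ≤ 3 * ρ).card ≤ M) →
    (∀ i, ((Finset.univ : Finset (ι × ι × ι)).filter fun τ =>
      ‖w i + w τ.1 - w τ.2.1 - w τ.2.2‖ ≤ 5 * ρ).card ≤ Q) → ∀ ξ0 : E n,
    ∫⁻ ξ, ENNReal.ofReal (t (ρ • (ξ - ξ0))) * ‖∑ i, F i ξ‖ₑ ^ p ≤
      ENNReal.ofReal (C * (2 + Real.log (Fintype.card ι)) ^ p *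
        ((M : ℝ) ^ ((4 - p) / 2) * (Q : ℝ) ^ ((p - 2) / 2)) * (ρ ^ n)⁻¹) *
      ∑ i, ∫⁻ η, ENNReal.ofReal (ρ ^ n * ((1 + ρ * ‖η - ξ0‖) ^ N)⁻¹) * ‖F i η‖ₑ ^ p := by
  obtain ⟨C1, hC1, hloc⟩ := local_const n p (by linarith) N
  obtain ⟨C0, hC0, hint⟩ := intp p hp hp4
  obtain ⟨m, hm, hmom⟩ := moment hTt ht (2 * N)
  have hp0 : 0 < p := by linarith
  have htn : ∀ ξ, ‖T ξ‖ = t ξ := fun ξ => by
    rw [hTt, Complex.norm_real, Real.norm_eq_abs, abs_of_nonneg (ht ξ)]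
  have htc : Continuous t := by
    have h1 : t = fun ξ => ‖T ξ‖ := funext fun ξ => (htn ξ).symm
    rw [h1]
    exact T.continuous.norm
  refine ⟨2 * C0 * (C1 * m), by positivity, ?_⟩
  intro ρ hρ ι _ _ w F M Q hM hQ hF hMc hQc ξ0
  obtain ⟨hWi, hWb⟩ := hmom ρ hρ ξ0
  set c : ℝ := C1 ^ (1 / p) with hc
  have hc0 : 0 < c := by positivity
  have hcp : c ^ p = C1 := by
    rw [hc, ← Real.rpow_mul hC1.le, one_div_mul_cancel hp0.ne', Real.rpow_one]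
  set A : ι → ℝ≥0∞ := fun i =>
    ∫⁻ η, ENNReal.ofReal (ρ ^ n * ((1 + ρ * ‖η - ξ0‖) ^ N)⁻¹) * ‖F i η‖ₑ ^ p with hA
  have hAfin : ∀ i, A i ≠ ⊤ := by
    intro i
    obtain ⟨B, hB0, hB⟩ := (hF i).bdd
    have h1 : A i ≤ ∫⁻ η, ENNReal.ofReal (ρ ^ n * ((1 + ρ * ‖η - ξ0‖) ^ N)⁻¹) *
        ENNReal.ofReal (B ^ p) := by
      refine lintegral_mono fun η => ?_
      beta_reduce
      gcongr
      rw [← ofReal_norm, ENNReal.ofReal_rpow_of_nonneg (norm_nonneg _) hp0.le]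
      exact ENNReal.ofReal_le_ofReal (Real.rpow_le_rpow (norm_nonneg _) (hB η) hp0.le)
    refine (h1.trans_lt ?_).ne
    rw [lintegral_mul_const' _ _ ENNReal.ofReal_ne_top, wN_scale' hρ]
    exact ENNReal.mul_lt_top (wN_fin hN) ENNReal.ofReal_lt_top
  set a : ι → ℝ := fun i => (A i).toReal ^ (1 / p) with ha
  have ha0 : ∀ i, 0 ≤ a i := fun i => by positivity
  have hap : ∀ i, a i ^ p = (A i).toReal := by
    intro i
    simp only [ha]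
    rw [← Real.rpow_mul ENNReal.toReal_nonneg, one_div_mul_cancel hp0.ne', Real.rpow_one]
  -- pointwise bound
  have hpt : ∀ i ξ, ‖F i ξ‖ ≤ c * (1 + ρ * ‖ξ - ξ0‖) ^ ((N : ℝ) / p) * a i := by
    intro i ξ
    have h1 := hloc ρ hρ (w i) (F i) (hF i) ξ0 ξ
    have h2 : ‖F i ξ‖ ^ p ≤ C1 * (1 + ρ * ‖ξ - ξ0‖) ^ N * a i ^ p := by
      rw [hap]
      have h3 : ENNReal.ofReal (C1 * (1 + ρ * ‖ξ - ξ0‖) ^ N) * A i =
          ENNReal.ofReal (C1 * (1 + ρ * ‖ξ - ξ0‖) ^ N * (A i).toReal) := by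
        rw [ENNReal.ofReal_mul (p := C1 * (1 + ρ * ‖ξ - ξ0‖) ^ N) (by positivity),
          ENNReal.ofReal_toReal (hAfin i)]
      have h4 : ENNReal.ofReal (‖F i ξ‖ ^ p) ≤
          ENNReal.ofReal (C1 * (1 + ρ * ‖ξ - ξ0‖) ^ N * (A i).toReal) := h3 ▸ h1
      exact (ENNReal.ofReal_le_ofReal_iff (by positivity)).1 h4
    have h5 : (c * (1 + ρ * ‖ξ - ξ0‖) ^ ((N : ℝ) / p) * a i) ^ p =
        C1 * (1 + ρ * ‖ξ - ξ0‖) ^ N * a i ^ p := by
      rw [Real.mul_rpow (by positivity) (ha0 i), Real.mul_rpow hc0.le (by positivity), hcp,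
        ← Real.rpow_mul (by positivity), div_mul_cancel₀ _ hp0.ne', Real.rpow_natCast]
    rw [← h5] at h2
    exact (Real.rpow_le_rpow_iff (norm_nonneg _) (by positivity) hp0).1 h2
  set m' : ℝ := (ρ ^ n)⁻¹ * m with hm'
  have hm'0 : 0 < m' := by positivity
  clear_value m' c
  -- integrability
  have wint : ∀ (r : ℕ) (I : Finset ι),
      Integrable fun ξ : E n => t (ρ • (ξ - ξ0)) * ‖∑ i ∈ I, F i ξ‖ ^ r := by
    intro r I
    choose B hB0 hB using fun i => (hF i).bdd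
    have hcont : Continuous fun ξ : E n => ∑ i ∈ I, F i ξ :=
      continuous_finsetSum _ fun i _ => (hF i).cont
    have h1 : Integrable fun ξ : E n =>
        T (ρ • (ξ - ξ0)) * ((‖∑ i ∈ I, F i ξ‖ ^ r : ℝ) : ℂ) := by
      refine weight_integrable T hρ ξ0 ?_ (B := (∑ i ∈ I, B i) ^ r) fun ξ => ?_
      · exact Complex.continuous_ofReal.comp (hcont.norm.pow r)
      · rw [Complex.norm_real, Real.norm_eq_abs, abs_of_nonneg (by positivity)]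
        exact pow_le_pow_left₀ (norm_nonneg _)
          ((norm_sum_le _ _).trans (Finset.sum_le_sum fun i _ => hB i ξ)) r
    refine h1.re.congr (Filter.Eventually.of_forall fun ξ => ?_)
    simp only [hTt]
    rw [← Complex.ofReal_mul]
    rfl
  -- one piece
  have hpiece : ∀ r : ℕ, r ≤ 4 → ∀ i, ∫ ξ, t (ρ • (ξ - ξ0)) * ‖F i ξ‖ ^ r ≤
      c ^ r * m' * a i ^ r := by
    intro r hr i
    have h1 : ∫ ξ, t (ρ • (ξ - ξ0)) * ‖F i ξ‖ ^ r ≤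
        ∫ ξ, (c ^ r * a i ^ r) * (t (ρ • (ξ - ξ0)) * (1 + ρ * ‖ξ - ξ0‖) ^ (2 * N)) := by
      refine integral_mono_of_nonneg (Filter.Eventually.of_forall fun ξ =>
        mul_nonneg (ht _) (by positivity)) (hWi.const_mul _)
        (Filter.Eventually.of_forall fun ξ => ?_)
      beta_reduce
      have h2 : ‖F i ξ‖ ^ r ≤ c ^ r * a i ^ r * (1 + ρ * ‖ξ - ξ0‖) ^ (2 * N) := by
        have h3 := pow_le_pow_left₀ (norm_nonneg _) (hpt i ξ) r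
        refine h3.trans ?_
        have h4 : ((1 + ρ * ‖ξ - ξ0‖) ^ ((N : ℝ) / p)) ^ r ≤ (1 + ρ * ‖ξ - ξ0‖) ^ (2 * N) := by
          have h5 : (1 : ℝ) ≤ 1 + ρ * ‖ξ - ξ0‖ := by
            have : 0 ≤ ρ * ‖ξ - ξ0‖ := by positivity
            linarith
          rw [← Real.rpow_natCast, ← Real.rpow_mul (by positivity), ← Real.rpow_natCast _ (2 * N)]
          refine Real.rpow_le_rpow_of_exponent_le h5 ?_
          rw [div_mul_eq_mul_div, div_le_iff₀ hp0]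
          push_cast
          have h6 : (r : ℝ) ≤ 4 := by exact_mod_cast hr
          have h7 : (0 : ℝ) ≤ N := Nat.cast_nonneg _
          nlinarith
        calc (c * (1 + ρ * ‖ξ - ξ0‖) ^ ((N : ℝ) / p) * a i) ^ r =
            c ^ r * a i ^ r * ((1 + ρ * ‖ξ - ξ0‖) ^ ((N : ℝ) / p)) ^ r := by
              rw [mul_pow, mul_pow]; ring
          _ ≤ _ := mul_le_mul_of_nonneg_left h4 (by positivity)
      calc t (ρ • (ξ - ξ0)) * ‖F i ξ‖ ^ r ≤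
          t (ρ • (ξ - ξ0)) * (c ^ r * a i ^ r * (1 + ρ * ‖ξ - ξ0‖) ^ (2 * N)) :=
            mul_le_mul_of_nonneg_left h2 (ht _)
        _ = _ := by ring
    refine h1.trans ?_
    rw [integral_const_mul]
    calc c ^ r * a i ^ r * ∫ ξ, t (ρ • (ξ - ξ0)) * (1 + ρ * ‖ξ - ξ0‖) ^ (2 * N) ≤
        c ^ r * a i ^ r * m' := mul_le_mul_of_nonneg_left hWb (by positivity)
      _ = _ := by ring
  -- the weighted measure
  have htm : Measurable fun ξ : E n => ENNReal.ofReal (t (ρ • (ξ - ξ0))) := by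
    have : Continuous fun ξ : E n => t (ρ • (ξ - ξ0)) := by fun_prop
    exact ENNReal.measurable_ofReal.comp this.measurable
  set μ : Measure (E n) := volume.withDensity fun ξ => ENNReal.ofReal (t (ρ • (ξ - ξ0))) with hμ
  have hcont : ∀ I : Finset ι, Continuous fun ξ : E n => ∑ i ∈ I, F i ξ := fun I =>
      continuous_finsetSum _ fun i _ => (hF i).cont
  have hwd : ∀ (q : ℝ) (I : Finset ι), ∫⁻ x, ‖∑ i ∈ I, F i x‖ₑ ^ q ∂μ =
      ∫⁻ ξ, ENNReal.ofReal (t (ρ • (ξ - ξ0))) * ‖∑ i ∈ I, F i ξ‖ₑ ^ q := by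
    intro q I
    rw [hμ, lintegral_withDensity_eq_lintegral_mul _ htm
      ((hcont I).enorm.measurable.pow_const q)]
    rfl
  have hnat : ∀ (r : ℕ) (I : Finset ι), ∫⁻ x, ‖∑ i ∈ I, F i x‖ₑ ^ (r : ℝ) ∂μ =
      ENNReal.ofReal (∫ ξ, t (ρ • (ξ - ξ0)) * ‖∑ i ∈ I, F i ξ‖ ^ r) := by
    intro r I
    rw [hwd, ofReal_integral_eq_lintegral_ofReal (wint r I)
      (Filter.Eventually.of_forall fun ξ => mul_nonneg (ht _) (by positivity))]
    refine lintegral_congr fun ξ => ?_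
    rw [ENNReal.ofReal_mul (ht _), ENNReal.rpow_natCast, ← ofReal_norm,
      ENNReal.ofReal_pow (norm_nonneg _)]
  have h2 : ∀ I : Finset ι, ∫⁻ x, ‖∑ i ∈ I, F i x‖ₑ ^ (2 : ℝ) ∂μ ≤
      ENNReal.ofReal (M * (c ^ 2 * m') * ∑ i ∈ I, a i ^ 2) := by
    intro I
    have h3 := hnat 2 I
    rw [Nat.cast_ofNat] at h3
    rw [h3]
    refine ENNReal.ofReal_le_ofReal ((l2_orth hTt ht hT I w F hρ hF M (fun i _ => ?_) ξ0).trans ?_)
    · exact (Finset.card_le_card (Finset.filter_subset_filter _ (Finset.subset_univ I))).trans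
        (hMc i)
    · have h5 : ∑ i ∈ I, ∫ ξ, t (ρ • (ξ - ξ0)) * ‖F i ξ‖ ^ 2 ≤ (c ^ 2 * m') * ∑ i ∈ I, a i ^ 2 := by
        rw [Finset.mul_sum]
        exact Finset.sum_le_sum fun i _ => hpiece 2 (by norm_num) i
      rw [mul_assoc]
      exact mul_le_mul_of_nonneg_left h5 (Nat.cast_nonneg _)
  have h4 : ∀ I : Finset ι, ∫⁻ x, ‖∑ i ∈ I, F i x‖ₑ ^ (4 : ℝ) ∂μ ≤
      ENNReal.ofReal (Q * (c ^ 4 * m') * ∑ i ∈ I, a i ^ 4) := by
    intro I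
    have h3 := hnat 4 I
    rw [Nat.cast_ofNat] at h3
    rw [h3]
    refine ENNReal.ofReal_le_ofReal ((l4_orth hTt ht hT I w F hρ hF Q (fun i _ => ?_) ξ0).trans ?_)
    · exact (Finset.card_le_card (Finset.filter_subset_filter _ (Finset.subset_univ _))).trans
        (hQc i)
    · have h5 : ∑ i ∈ I, ∫ ξ, t (ρ • (ξ - ξ0)) * ‖F i ξ‖ ^ 4 ≤ (c ^ 4 * m') * ∑ i ∈ I, a i ^ 4 := by
        rw [Finset.mul_sum]
        exact Finset.sum_le_sum fun i _ => hpiece 4 (by norm_num) i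
      rw [mul_assoc]
      exact mul_le_mul_of_nonneg_left h5 (Nat.cast_nonneg _)
  have hpp : ∀ I : Finset ι, ∫⁻ x, ‖∑ i ∈ I, F i x‖ₑ ^ p ∂μ ≤
      ENNReal.ofReal (c ^ p * m' * (∑ i ∈ I, a i) ^ p) := by
    intro I
    have hs0 : 0 ≤ ∑ i ∈ I, a i := Finset.sum_nonneg fun i _ => ha0 i
    rw [hwd]
    have h5 : ∫⁻ ξ, ENNReal.ofReal (t (ρ • (ξ - ξ0))) * ‖∑ i ∈ I, F i ξ‖ₑ ^ p ≤
        ∫⁻ ξ, ENNReal.ofReal ((c ^ p * (∑ i ∈ I, a i) ^ p) *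
          (t (ρ • (ξ - ξ0)) * (1 + ρ * ‖ξ - ξ0‖) ^ (2 * N))) := by
      refine lintegral_mono fun ξ => ?_
      beta_reduce
      rw [← ofReal_norm, ENNReal.ofReal_rpow_of_nonneg (norm_nonneg _) hp0.le,
        ← ENNReal.ofReal_mul (ht _)]
      refine ENNReal.ofReal_le_ofReal ?_
      have h6 : ‖∑ i ∈ I, F i ξ‖ ≤ c * (1 + ρ * ‖ξ - ξ0‖) ^ ((N : ℝ) / p) * ∑ i ∈ I, a i := by
        refine (norm_sum_le _ _).trans ?_
        rw [Finset.mul_sum]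
        exact Finset.sum_le_sum fun i _ => hpt i ξ
      have h7 := Real.rpow_le_rpow (norm_nonneg _) h6 hp0.le
      rw [Real.mul_rpow (by positivity) hs0, Real.mul_rpow hc0.le (by positivity),
        ← Real.rpow_mul (x := 1 + ρ * ‖ξ - ξ0‖) (by positivity), div_mul_cancel₀ _ hp0.ne',
        Real.rpow_natCast] at h7
      have h8 : (1 + ρ * ‖ξ - ξ0‖) ^ N ≤ (1 + ρ * ‖ξ - ξ0‖) ^ (2 * N) := by
        refine pow_le_pow_right₀ ?_ (by omega)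
        have : 0 ≤ ρ * ‖ξ - ξ0‖ := by positivity
        linarith
      calc t (ρ • (ξ - ξ0)) * ‖∑ i ∈ I, F i ξ‖ ^ p ≤
          t (ρ • (ξ - ξ0)) * (c ^ p * (1 + ρ * ‖ξ - ξ0‖) ^ N * (∑ i ∈ I, a i) ^ p) :=
            mul_le_mul_of_nonneg_left h7 (ht _)
        _ = (c ^ p * (∑ i ∈ I, a i) ^ p) * (t (ρ • (ξ - ξ0)) * (1 + ρ * ‖ξ - ξ0‖) ^ N) := by ring
        _ ≤ _ := mul_le_mul_of_nonneg_left (mul_le_mul_of_nonneg_left h8 (ht _)) (by positivity)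
    refine h5.trans ?_
    rw [← ofReal_integral_eq_lintegral_ofReal (hWi.const_mul _)
      (Filter.Eventually.of_forall fun ξ => mul_nonneg (by positivity)
        (mul_nonneg (ht _) (by positivity)))]
    refine ENNReal.ofReal_le_ofReal ?_
    rw [integral_const_mul]
    calc c ^ p * (∑ i ∈ I, a i) ^ p * ∫ ξ, t (ρ • (ξ - ξ0)) * (1 + ρ * ‖ξ - ξ0‖) ^ (2 * N) ≤
        c ^ p * (∑ i ∈ I, a i) ^ p * m' := mul_le_mul_of_nonneg_left hWb (by positivity)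
      _ = _ := by ring
  have hfin := hint μ F a (M * (c ^ 2 * m')) (Q * (c ^ 4 * m')) (c ^ p * m')
    (fun i => (hF i).cont.aestronglyMeasurable) ha0 (by positivity) (by positivity) (by positivity)
    h2 h4 hpp
  rw [hwd] at hfin
  refine hfin.trans ?_
  have hM0 : (1 : ℝ) ≤ M := by exact_mod_cast hM
  have hQ0 : (1 : ℝ) ≤ Q := by exact_mod_cast hQ
  have hkey : (M * (c ^ 2 * m')) ^ ((4 - p) / 2) * (Q * (c ^ 4 * m')) ^ ((p - 2) / 2) =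
      ((M : ℝ) ^ ((4 - p) / 2) * (Q : ℝ) ^ ((p - 2) / 2)) * (c ^ p * m') := by
    rw [Real.mul_rpow (by positivity) (by positivity), Real.mul_rpow (by positivity) (by positivity),
      Real.mul_rpow (by positivity) (by positivity), Real.mul_rpow (by positivity) (by positivity),
      ← Real.rpow_natCast c 2, ← Real.rpow_natCast c 4, ← Real.rpow_mul hc0.le,
      ← Real.rpow_mul hc0.le]
    have e1 : c ^ p = c ^ (((2 : ℕ) : ℝ) * ((4 - p) / 2)) * c ^ (((4 : ℕ) : ℝ) * ((p - 2) / 2)) := by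
      rw [← Real.rpow_add hc0]
      congr 1
      push_cast
      ring
    have e2 : m' = m' ^ ((4 - p) / 2) * m' ^ ((p - 2) / 2) := by
      rw [← Real.rpow_add hm'0]
      conv_lhs => rw [← Real.rpow_one m']
      congr 1
      ring
    rw [e1]
    conv_rhs => rw [e2]
    ring
  have hMQ : 1 ≤ (M : ℝ) ^ ((4 - p) / 2) * (Q : ℝ) ^ ((p - 2) / 2) :=
    one_le_mul_of_one_le_of_one_le (Real.one_le_rpow hM0 (by linarith))
      (Real.one_le_rpow hQ0 (by linarith))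
  have hsum : ∑ i, A i = ENNReal.ofReal (∑ i, a i ^ p) := by
    rw [ENNReal.ofReal_sum_of_nonneg fun i _ => by positivity]
    refine Finset.sum_congr rfl fun i _ => ?_
    rw [hap, ENNReal.ofReal_toReal (hAfin i)]
  rw [hsum, ← ENNReal.ofReal_mul (by positivity), hkey, hcp]
  refine ENNReal.ofReal_le_ofReal ?_
  set Θ : ℝ := (M : ℝ) ^ ((4 - p) / 2) * (Q : ℝ) ^ ((p - 2) / 2) with hΘ
  have hS : 0 ≤ ∑ i, a i ^ p := Finset.sum_nonneg fun i _ => by positivity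
  have hL : 0 ≤ (2 + Real.log (Fintype.card ι)) ^ p := by
    have : 0 ≤ Real.log (Fintype.card ι) := Real.log_natCast_nonneg _
    positivity
  have h9 : Θ * (C1 * m') + C1 * m' ≤ 2 * Θ * (C1 * m') := by
    have : 0 < C1 * m' := by positivity
    nlinarith
  calc C0 * (2 + Real.log (Fintype.card ι)) ^ p * (Θ * (C1 * m') + C1 * m') * ∑ i, a i ^ p ≤
      C0 * (2 + Real.log (Fintype.card ι)) ^ p * (2 * Θ * (C1 * m')) * ∑ i, a i ^ p := by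
        gcongr
    _ = _ := by rw [hm']; ring

/-- **The rectangle count in `L^p`.** `2 ≤ p ≤ 4`; the functions `F i` have spectrum in balls of
radius `ρ` about `w i`; at most `M` centres lie within `3ρ` of a centre, and at most `Q` triples
satisfy `‖w i + w j - w k - w l‖ ≤ 5ρ` for each `i`. -/
theorem orthQ (n : ℕ) (p : ℝ) (hp : 2 ≤ p) (hp4 : p ≤ 4) : ∃ C : ℝ, 0 < C ∧ ∀ (ρ : ℝ), 0 < ρ →
    ∀ {ι : Type} [Fintype ι] (w : ι → E n) (F : ι → E n → ℂ) (M Q : ℕ),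
    1 ≤ M → 1 ≤ Q → (∀ i, Spec (w i) ρ (F i)) →
    (∀ i, {j : ι | ‖w i - w j‖ ≤ 3 * ρ}.ncard ≤ M) →
    (∀ i, {τ : ι × ι × ι | ‖w i + w τ.1 - w τ.2.1 - w τ.2.2‖ ≤ 5 * ρ}.ncard ≤ Q) →
    ∫⁻ ξ, ‖∑ i, F i ξ‖ₑ ^ p ≤
      ENNReal.ofReal (C * (2 + Real.log (Fintype.card ι)) ^ p *
        ((M : ℝ) ^ ((4 - p) / 2) * (Q : ℝ) ^ ((p - 2) / 2))) * ∑ i, ∫⁻ η, ‖F i η‖ₑ ^ p := by
  obtain ⟨T, t, hTt, ht, ht1, hT⟩ := exists_weight n
  obtain ⟨C, hC, hloc⟩ := orthQ_loc hTt ht hT p hp hp4 (n + 1) (Nat.lt_succ_self n)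
  have htn : ∀ ξ, ‖T ξ‖ = t ξ := fun ξ => by
    rw [hTt, Complex.norm_real, Real.norm_eq_abs, abs_of_nonneg (ht ξ)]
  have htc : Continuous t := by
    have h1 : t = fun ξ => ‖T ξ‖ := funext fun ξ => (htn ξ).symm
    rw [h1]
    exact T.continuous.norm
  -- the total mass of `t`
  set τ0 : ℝ≥0∞ := ∫⁻ ξ : E n, ENNReal.ofReal (t ξ) with hτ0
  set ω0 : ℝ≥0∞ := ∫⁻ ξ : E n, ENNReal.ofReal (((1 + ‖ξ‖) ^ (n + 1))⁻¹) with hω0
  have hω : ω0 ≠ ⊤ := (wN_fin (Nat.lt_succ_self n)).ne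
  have hτfin : τ0 ≠ ⊤ := by
    have h1 : Integrable t := by
      refine (T.integrable (μ := volume)).norm.congr (Filter.Eventually.of_forall fun ξ => ?_)
      exact htn ξ
    exact h1.lintegral_lt_top.ne
  have hτpos : τ0 ≠ 0 := by
    have h1 : ENNReal.ofReal (1 / 4) * volume (Metric.ball (0 : E n) 1) ≤ τ0 := by
      rw [hτ0, ← setLIntegral_const]
      refine (lintegral_mono_ae ?_).trans (setLIntegral_le_lintegral _ _)
      refine (ae_restrict_iff' measurableSet_ball).2 (Filter.Eventually.of_forall fun ξ hξ => ?_)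
      exact ENNReal.ofReal_le_ofReal (ht1 ξ (by simpa using (mem_ball_zero_iff.1 hξ).le))
    have h2 : 0 < ENNReal.ofReal (1 / 4) * volume (Metric.ball (0 : E n) 1) :=
      ENNReal.mul_pos (by simp) (Metric.measure_ball_pos volume 0 one_pos).ne'
    exact (h2.trans_le h1).ne'
  refine ⟨C * (ω0.toReal / τ0.toReal + 1), by positivity, ?_⟩
  intro ρ hρ ι _ w F M Q hM hQ hF hMc hQc
  classical
  set K : ℝ := (2 + Real.log (Fintype.card ι)) ^ p *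
        ((M : ℝ) ^ ((4 - p) / 2) * (Q : ℝ) ^ ((p - 2) / 2)) with hK
  have hK0 : 0 ≤ K := by
    have : 0 ≤ Real.log (Fintype.card ι) := Real.log_natCast_nonneg _
    positivity
  have hcont : Continuous fun ξ : E n => ∑ i, F i ξ := continuous_finsetSum _ fun i _ => (hF i).cont
  have hM' : ∀ i, ((Finset.univ : Finset ι).filter fun j => ‖w i - w j‖ ≤ 3 * ρ).card ≤ M := by
    intro i
    refine le_trans (le_of_eq ?_) (hMc i)
    rw [Set.ncard_eq_toFinset_card', Set.toFinset_ofPred]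
  have hQ' : ∀ i, ((Finset.univ : Finset (ι × ι × ι)).filter fun τ =>
      ‖w i + w τ.1 - w τ.2.1 - w τ.2.2‖ ≤ 5 * ρ).card ≤ Q := by
    intro i
    refine le_trans (le_of_eq ?_) (hQc i)
    rw [Set.ncard_eq_toFinset_card', Set.toFinset_ofPred]
  -- integrate the local estimate
  have h1 : ∫⁻ ξ0 : E n, ∫⁻ ξ, ENNReal.ofReal (t (ρ • (ξ - ξ0))) * ‖∑ i, F i ξ‖ₑ ^ p ≤
      ∫⁻ ξ0 : E n, ENNReal.ofReal (C * K * (ρ ^ n)⁻¹) *
        ∑ i, ∫⁻ η, ENNReal.ofReal (ρ ^ n * ((1 + ρ * ‖η - ξ0‖) ^ (n + 1))⁻¹) * ‖F i η‖ₑ ^ p := by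
    refine lintegral_mono fun ξ0 => ?_
    have h2 := hloc ρ hρ w F M Q hM hQ hF hM' hQ' ξ0
    beta_reduce
    rw [hK, ← mul_assoc C]
    exact h2
  have hL : ∫⁻ ξ0 : E n, ∫⁻ ξ, ENNReal.ofReal (t (ρ • (ξ - ξ0))) * ‖∑ i, F i ξ‖ₑ ^ p =
      ENNReal.ofReal ((ρ ^ n)⁻¹) * τ0 * ∫⁻ ξ, ‖∑ i, F i ξ‖ₑ ^ p := by
    rw [lintegral_lintegral_swap]
    · have h3 : ∀ ξ : E n, ∫⁻ ξ0 : E n, ENNReal.ofReal (t (ρ • (ξ - ξ0))) * ‖∑ i, F i ξ‖ₑ ^ p =
          (ENNReal.ofReal ((ρ ^ n)⁻¹) * τ0) * ‖∑ i, F i ξ‖ₑ ^ p := by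
        intro ξ
        rw [lintegral_mul_const _ (by
          have : Continuous fun ξ0 : E n => t (ρ • (ξ - ξ0)) := by fun_prop
          exact ENNReal.measurable_ofReal.comp this.measurable)]
        congr 1
        have h4 : ∀ ξ0 : E n, ENNReal.ofReal (t (ρ • (ξ - ξ0))) =
            (fun ζ : E n => ENNReal.ofReal (t (-ζ))) (ρ • (ξ0 - ξ)) := by
          intro ξ0
          beta_reduce
          rw [← smul_neg, neg_sub]
        simp_rw [h4]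
        rw [lint_scale (f := fun ζ : E n => ENNReal.ofReal (t (-ζ))) hρ ξ,
          lintegral_neg_eq_self (fun ζ : E n => ENNReal.ofReal (t ζ))]
      simp_rw [h3]
      rw [lintegral_const_mul _ (hcont.enorm.measurable.pow_const p)]
    · refine Measurable.aemeasurable ?_
      have h5 : Continuous fun z : E n × E n => t (ρ • (z.2 - z.1)) := by fun_prop
      exact (ENNReal.measurable_ofReal.comp h5.measurable).mul
        ((hcont.enorm.measurable.pow_const p).comp measurable_snd)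
  have hR : ∀ i, ∫⁻ ξ0 : E n, ∫⁻ η, ENNReal.ofReal (ρ ^ n * ((1 + ρ * ‖η - ξ0‖) ^ (n + 1))⁻¹) *
      ‖F i η‖ₑ ^ p = ω0 * ∫⁻ η, ‖F i η‖ₑ ^ p := by
    intro i
    rw [lintegral_lintegral_swap]
    · have h3 : ∀ η : E n, ∫⁻ ξ0 : E n, ENNReal.ofReal (ρ ^ n *
          ((1 + ρ * ‖η - ξ0‖) ^ (n + 1))⁻¹) * ‖F i η‖ₑ ^ p = ω0 * ‖F i η‖ₑ ^ p := by
        intro η
        rw [lintegral_mul_const _ (by fun_prop), wN_scale hρ]
      simp_rw [h3]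
      rw [lintegral_const_mul _ ((hF i).cont.enorm.measurable.pow_const p)]
    · refine Measurable.aemeasurable ?_
      have h5 : Measurable fun z : E n × E n =>
          ENNReal.ofReal (ρ ^ n * ((1 + ρ * ‖z.2 - z.1‖) ^ (n + 1))⁻¹) := by fun_prop
      exact h5.mul (((hF i).cont.enorm.measurable.pow_const p).comp measurable_snd)
  have hmeas : ∀ i, Measurable fun ξ0 : E n => ∫⁻ η, ENNReal.ofReal (ρ ^ n *
      ((1 + ρ * ‖η - ξ0‖) ^ (n + 1))⁻¹) * ‖F i η‖ₑ ^ p := by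
    intro i
    have h5 : Measurable fun z : E n × E n =>
          ENNReal.ofReal (ρ ^ n * ((1 + ρ * ‖z.2 - z.1‖) ^ (n + 1))⁻¹) := by fun_prop
    exact (h5.mul (((hF i).cont.enorm.measurable.pow_const p).comp
      measurable_snd)).lintegral_prod_right'
  have h6 : ENNReal.ofReal ((ρ ^ n)⁻¹) * τ0 * ∫⁻ ξ, ‖∑ i, F i ξ‖ₑ ^ p ≤
      ENNReal.ofReal (C * K * (ρ ^ n)⁻¹) * (ω0 * ∑ i, ∫⁻ η, ‖F i η‖ₑ ^ p) := by
    rw [← hL]
    refine h1.trans (le_of_eq ?_)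
    rw [lintegral_const_mul' _ _ ENNReal.ofReal_ne_top, lintegral_finsetSum _ fun i _ => hmeas i,
      Finset.mul_sum (a := ω0)]
    congr 1
    exact Finset.sum_congr rfl fun i _ => hR i
  set X : ℝ≥0∞ := ∫⁻ ξ, ‖∑ i, F i ξ‖ₑ ^ p with hX
  set Y : ℝ≥0∞ := ∑ i, ∫⁻ η, ‖F i η‖ₑ ^ p with hY
  have hρn : ENNReal.ofReal ((ρ ^ n)⁻¹) ≠ 0 := by
    rw [ENNReal.ofReal_ne_zero_iff]; positivity
  have h7 : τ0 * X ≤ ENNReal.ofReal (C * K) * (ω0 * Y) := by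
    rw [ENNReal.ofReal_mul (by positivity), mul_comm (ENNReal.ofReal (C * K)), mul_assoc, mul_assoc,
      ENNReal.mul_le_mul_iff_right hρn ENNReal.ofReal_ne_top] at h6
    exact h6
  have h8 : X ≤ ENNReal.ofReal (C * K) * (ω0 * Y) / τ0 := by
    rw [ENNReal.le_div_iff_mul_le (Or.inl hτpos) (Or.inl hτfin), mul_comm]
    exact h7
  refine h8.trans ?_
  have hτr : 0 < τ0.toReal := ENNReal.toReal_pos hτpos hτfin
  have h9 : ENNReal.ofReal (C * K) * (ω0 * Y) / τ0 =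
      ENNReal.ofReal (C * (ω0.toReal / τ0.toReal) * K) * Y := by
    have h10 : ENNReal.ofReal (C * (ω0.toReal / τ0.toReal) * K) =
        ENNReal.ofReal (C * K) * (ω0 / τ0) := by
      rw [show C * (ω0.toReal / τ0.toReal) * K = (C * K) * (ω0.toReal / τ0.toReal) by ring,
        ENNReal.ofReal_mul (by positivity), ENNReal.ofReal_div_of_pos hτr,
        ENNReal.ofReal_toReal hω, ENNReal.ofReal_toReal hτfin]
    rw [h10, ENNReal.div_eq_inv_mul, ENNReal.div_eq_inv_mul]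
    ring
  rw [h9]
  refine mul_le_mul' (ENNReal.ofReal_le_ofReal ?_) le_rfl
  have h11 : C * (ω0.toReal / τ0.toReal + 1) * (2 + Real.log (Fintype.card ι)) ^ p *
      ((M : ℝ) ^ ((4 - p) / 2) * (Q : ℝ) ^ ((p - 2) / 2)) =
      C * (ω0.toReal / τ0.toReal + 1) * K := by rw [hK]; ring
  rw [h11]
  refine mul_le_mul_of_nonneg_right (mul_le_mul_of_nonneg_left ?_ hC.le) hK0
  linarith

end Pool.Agent.GNP.TMR
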