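import Pool.Agent.GNP.TM0

/-!
Covering numbers of finitely many Lipschitz graphs.
-/

set_option autoImplicit false

namespace Pool.Agent.GNP.TMR

open MeasureTheory Set Pool.Agent.MP_6cbfb8_an
open scoped ENNReal Real RealInnerProductSpace ContDiff

/-- Balls of radius `5` are covered by `O(r^(-κ))` balls of radius `r / 3`. -/
theorem cov_ball (κ : ℕ) (y0 : E κ) (r : ℝ) (hr : 0 < r) (hr1 : r ≤ 1) :
    ∃ Z : Finset (E κ), (Z.card : ℝ) ≤ (33 * (κ + 1)) ^ κ * r ^ (-(κ : ℝ)) ∧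
      ∀ y : E κ, ‖y - y0‖ ≤ 5 → ∃ z ∈ Z, ‖y - z‖ < r / 3 := by
  classical
  set s : ℝ := r / (3 * (κ + 1)) with hs
  have hs0 : 0 < s := by positivity
  set M : ℤ := ⌈5 / s⌉ with hM
  set T : Finset (Fin κ → ℤ) := Fintype.piFinset fun _ => Finset.Icc (-M) M with hT
  set Φ : (Fin κ → ℤ) → E κ := fun m => y0 + WithLp.toLp 2 fun i => s * (m i : ℝ) with hΦ
  refine ⟨T.image Φ, ?_, fun y hy => ?_⟩
  · have hM0 : 0 ≤ M := Int.ceil_nonneg (by positivity)
    have h1 : ((T.image Φ).card : ℝ) ≤ T.card := by exact_mod_cast Finset.card_image_le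
    have h2 : (T.card : ℝ) = (2 * (M : ℝ) + 1) ^ κ := by
      rw [hT, Fintype.card_piFinset_const, Int.card_Icc]
      have h3 : (((M + 1 - -M).toNat : ℕ) : ℝ) = 2 * (M : ℝ) + 1 := by
        have h4 : (((M + 1 - -M).toNat : ℤ) : ℝ) = ((M + 1 - -M : ℤ) : ℝ) := by
          rw [Int.toNat_of_nonneg (by omega)]
        rw [Int.cast_natCast] at h4
        rw [h4]
        push_cast
        ring
      push_cast
      rw [h3]
    have h5 : (M : ℝ) ≤ 5 / s + 1 := (Int.ceil_lt_add_one _).le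
    have h6 : 5 / s = 15 * (κ + 1) / r := by rw [hs]; field_simp; ring
    have h7 : 2 * (M : ℝ) + 1 ≤ 33 * (κ + 1) / r := by
      rw [h6] at h5
      have h8 : (3 : ℝ) ≤ 3 * (κ + 1) / r := by
        rw [le_div_iff₀ hr]
        have : (0 : ℝ) ≤ κ := Nat.cast_nonneg _
        nlinarith
      calc 2 * (M : ℝ) + 1 ≤ 2 * (15 * (κ + 1) / r + 1) + 1 := by linarith
        _ = 30 * (κ + 1) / r + 3 := by ring
        _ ≤ 30 * (κ + 1) / r + 3 * (κ + 1) / r := by linarith
        _ = _ := by ring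
    have hM1 : (0 : ℝ) ≤ M := by exact_mod_cast hM0
    calc ((T.image Φ).card : ℝ) ≤ (2 * (M : ℝ) + 1) ^ κ := h1.trans h2.le
      _ ≤ (33 * (κ + 1) / r) ^ κ := pow_le_pow_left₀ (by positivity) h7 κ
      _ = _ := by rw [div_pow, Real.rpow_neg hr.le, Real.rpow_natCast, div_eq_mul_inv]
  · set m : Fin κ → ℤ := fun i => ⌊(y - y0) i / s⌋ with hm
    have hcoord : ∀ i, |(y - y0) i| ≤ 5 := fun i => (by
      have := PiLp.norm_apply_le (y - y0) i
      rw [Real.norm_eq_abs] at this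
      exact this.trans hy)
    refine ⟨Φ m, Finset.mem_image_of_mem _ ?_, ?_⟩
    · rw [hT, Fintype.mem_piFinset]
      intro i
      have h1 := abs_le.1 (hcoord i)
      rw [Finset.mem_Icc]
      constructor
      · rw [hm, hM, ← Int.floor_neg]
        refine Int.floor_le_floor ?_
        rw [neg_div', div_le_div_iff_of_pos_right hs0]
        exact h1.1
      · rw [hm, hM]
        refine (Int.floor_le_floor ((div_le_div_iff_of_pos_right hs0).2 h1.2)).trans
          (Int.floor_le_ceil _)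
    · have h1 : ∀ i, |(y - Φ m) i| ≤ s := by
        intro i
        have h2 : (y - Φ m) i = (y - y0) i - s * (m i : ℝ) := by
          simp only [hΦ, PiLp.sub_apply, PiLp.add_apply]
          ring
        have h3 := Int.floor_le ((y - y0) i / s)
        have h4 := (Int.lt_floor_add_one ((y - y0) i / s)).le
        rw [le_div_iff₀ hs0] at h3
        rw [div_le_iff₀ hs0] at h4
        rw [h2, abs_le]
        constructor
        · simp only [hm]; nlinarith
        · simp only [hm]; nlinarith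
      have h5 : ‖y - Φ m‖ ≤ Real.sqrt κ * s := by
        rw [EuclideanSpace.norm_eq]
        have h6 : ∑ i, ‖(y - Φ m) i‖ ^ 2 ≤ κ * s ^ 2 := by
          calc ∑ i, ‖(y - Φ m) i‖ ^ 2 ≤ ∑ _i : Fin κ, s ^ 2 := Finset.sum_le_sum fun i _ =>
                pow_le_pow_left₀ (norm_nonneg _) (h1 i) 2
            _ = _ := by simp
        calc Real.sqrt (∑ i, ‖(y - Φ m) i‖ ^ 2) ≤ Real.sqrt (κ * s ^ 2) := Real.sqrt_le_sqrt h6
          _ = _ := by rw [Real.sqrt_mul (Nat.cast_nonneg _), Real.sqrt_sq hs0.le]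
      have h7 : Real.sqrt κ < κ + 1 := by
        rw [Real.sqrt_lt' (by positivity)]
        have : (0 : ℝ) ≤ κ := Nat.cast_nonneg _
        nlinarith
      calc ‖y - Φ m‖ ≤ Real.sqrt κ * s := h5
        _ < (κ + 1) * s := mul_lt_mul_of_pos_right h7 hs0
        _ = r / 3 := by rw [hs]; field_simp

open TM in
/-- Sets contained in finitely many Lipschitz graphs of dimension `κ`. -/
theorem cov_graph (n κ P : ℕ) (L : Fin P → (E κ →ₗᵢ[ℝ] E n)) (G : Fin P → E κ → E n)
    (hG : ∀ a u v, ‖G a u - G a v‖ ≤ 1 / 8 * ‖u - v‖) (Sig : Set (E n))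
    (h2 : ∀ z ∈ Sig, ‖z‖ < 2) (hS : ∀ z ∈ Sig, ∃ a y, z = L a y + G a y) :
    Cov (P * (33 * (κ + 1)) ^ κ) κ Sig := by
  classical
  intro r hr hr1
  have hlip : ∀ a u v, ‖(L a u + G a u) - (L a v + G a v)‖ ≤ 9 / 8 * ‖u - v‖ := by
    intro a u v
    calc ‖(L a u + G a u) - (L a v + G a v)‖ = ‖L a (u - v) + (G a u - G a v)‖ := by
          rw [map_sub]; congr 1; abel
      _ ≤ ‖u - v‖ + 1 / 8 * ‖u - v‖ := (norm_add_le _ _).trans
          (add_le_add ((L a).norm_map _).le (hG a u v))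
      _ = _ := by ring
  have hlow : ∀ a u v, 7 / 8 * ‖u - v‖ ≤ ‖(L a u + G a u) - (L a v + G a v)‖ := by
    intro a u v
    have h1 : ‖u - v‖ ≤ ‖(L a u + G a u) - (L a v + G a v)‖ + 1 / 8 * ‖u - v‖ := by
      calc ‖u - v‖ = ‖L a (u - v)‖ := ((L a).norm_map _).symm
        _ = ‖((L a u + G a u) - (L a v + G a v)) - (G a u - G a v)‖ := by
            rw [map_sub]; congr 1; abel
        _ ≤ _ := (norm_sub_le _ _).trans (add_le_add le_rfl (hG a u v))
    linarith
  choose Z hZc hZ using fun y0 : E κ => cov_ball κ y0 r hr hr1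
  set W : Fin P → Finset (E n) := fun a => if h : ∃ y, ‖L a y + G a y‖ < 2 then
    (Z h.choose).image fun y => L a y + G a y else ∅ with hW
  refine ⟨Finset.univ.biUnion W, ?_, fun z hz => ?_⟩
  · have h1 : ∀ a, ((W a).card : ℝ) ≤ (33 * (κ + 1)) ^ κ * r ^ (-(κ : ℝ)) := by
      intro a
      simp only [hW]
      split_ifs with h
      · exact le_trans (by exact_mod_cast Finset.card_image_le) (hZc _)
      · simp only [Finset.card_empty, Nat.cast_zero]; positivity
    calc ((Finset.univ.biUnion W).card : ℝ) ≤ ∑ a, ((W a).card : ℝ) := by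
          exact_mod_cast Finset.card_biUnion_le
      _ ≤ ∑ _a : Fin P, (33 * (κ + 1)) ^ κ * r ^ (-(κ : ℝ)) := Finset.sum_le_sum fun a _ => h1 a
      _ = _ := by rw [Finset.sum_const, Finset.card_univ, Fintype.card_fin, nsmul_eq_mul]; ring
  · obtain ⟨a, y, hy⟩ := hS z hz
    have hex : ∃ y, ‖L a y + G a y‖ < 2 := ⟨y, hy ▸ h2 z hz⟩
    have h3 : ‖y - hex.choose‖ ≤ 5 := by
      have h4 := hlow a y hex.choose
      have h5 := hex.choose_spec
      have h6 : ‖(L a y + G a y) - (L a hex.choose + G a hex.choose)‖ ≤ 2 + 2 :=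
        (norm_sub_le _ _).trans (add_le_add (hy ▸ h2 z hz).le h5.le)
      linarith
    obtain ⟨y', hy', h7⟩ := hZ hex.choose y h3
    have h8 : L a y' + G a y' ∈ Finset.univ.biUnion W := by
      refine Finset.mem_biUnion.2 ⟨a, Finset.mem_univ _, ?_⟩
      simp only [hW]
      rw [dif_pos hex]
      exact Finset.mem_image_of_mem _ hy'
    refine mem_iUnion₂.2 ⟨_, h8, ?_⟩
    rw [Metric.mem_ball, dist_eq_norm, hy]
    have h9 := hlip a y y'
    linarith

end Pool.Agent.GNP.TMR
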