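import Pool.Agent.GNP.TMasm
import Pool.Agent.GNP.TMR5
import Pool.Agent.GNP.TMR6

/-!
# [TAME] R4: singular sets of dimension `κ` in finitely many Lipschitz graphs; the layers are
estimated with the rectangle count.
-/

set_option autoImplicit false

namespace Pool.Agent.GNP.TM

open MeasureTheory Set Filter Topology Pool.Agent.MP_6cbfb8_an Pool.Agent.GNP.TMR
open scoped ENNReal ContDiff Real

/-- Powers of the logarithm. -/
theorem log_pow_le {p η : ℝ} (hp : 0 < p) (hη : 0 < η) {N : ℕ} (hN : 1 ≤ N) :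
    (2 + Real.log N) ^ p ≤ (2 + p / η) ^ p * (N : ℝ) ^ η := by
  have hN' : (1 : ℝ) ≤ N := by exact_mod_cast hN
  have hq : 0 < η / p := by positivity
  have h1 : Real.log N ≤ (N : ℝ) ^ (η / p) / (η / p) :=
    Real.log_le_rpow_div (by positivity) hq
  have h2 : (1 : ℝ) ≤ (N : ℝ) ^ (η / p) := Real.one_le_rpow hN' hq.le
  have h3 : 2 + Real.log N ≤ (2 + p / η) * (N : ℝ) ^ (η / p) := by
    have h4 : (N : ℝ) ^ (η / p) / (η / p) = p / η * (N : ℝ) ^ (η / p) := by
      field_simp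
    rw [h4] at h1
    nlinarith
  have h5 : 0 ≤ Real.log N := Real.log_natCast_nonneg N
  calc (2 + Real.log N) ^ p ≤ ((2 + p / η) * (N : ℝ) ^ (η / p)) ^ p :=
        Real.rpow_le_rpow (by positivity) h3 hp.le
    _ = _ := by
      rw [Real.mul_rpow (by positivity) (by positivity), ← Real.rpow_mul (by positivity),
        div_mul_cancel₀ _ hp.ne']

/-- Phases with singularities along finitely many Lipschitz graphs, over the core statement. -/
theorem tame_surf (d : ℕ) (hd : 1 ≤ d) (κ : ℕ) (hκ2 : 2 ≤ κ) (P : ℕ) (p : ℝ) (hp : 2 ≤ p)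
    (hp4 : p ≤ 4)
    (hexp : (κ : ℝ) + ((2 * κ - 1 : ℕ) : ℝ) * ((p - 2) / 2) < d * p - (d + 2)) (hκd : κ < d)
    (hcore : ∀ ε : ℝ, 0 < ε → CoreG d p fun c => ENNReal.ofReal ((1 + |c|) ^ ε))
    (A : ℕ) (ε : ℝ) (hε : 0 < ε) : ∃ (k : ℕ) (C : ℝ≥0∞), C ≠ ⊤ ∧
    ∀ (Lf : Fin P → (E κ →ₗᵢ[ℝ] E (d + 1))) (Gf : Fin P → E κ → E (d + 1))
      (Sig : Set (E (d + 1))) (lam : ℝ) (ψ : E (d + 1) → ℝ) (a : E (d + 1) → ℂ),
      (∀ b u v, ‖Gf b u - Gf b v‖ ≤ 1 / 8 * ‖u - v‖) → (∀ z ∈ Sig, ‖z‖ < 2) →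
      (∀ z ∈ Sig, ∃ b y, z = Lf b y + Gf b y) →
      0 ≤ lam → PhsF k A lam Sig ψ → AmsF k Sig a →
      ∫⁻ ξ, ‖extn (fun x => a x * Complex.exp (((ψ x : ℝ) : ℂ) * Complex.I)) ξ‖ₑ ^ p ≤
        C * ENNReal.ofReal ((1 + lam) ^ ε) := by
  have hκ : (0 : ℝ) ≤ (κ : ℝ) := Nat.cast_nonneg κ
  set V : ℝ := P * (33 * (κ + 1)) ^ κ with hVd
  have hV : 0 ≤ V := by positivity
  set β : ℝ := ((2 * κ - 1 : ℕ) : ℝ) * ((p - 2) / 2) with hβ
  have hβ0 : 0 ≤ β := mul_nonneg (Nat.cast_nonneg _) (by linarith)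
  set e1 : ℝ := d * p - (d + 2) with he1
  -- the small exponent
  set gap : ℝ := e1 - κ - β with hgap
  have hgap0 : 0 < gap := by rw [hgap]; linarith
  have hA : (0 : ℝ) ≤ A := Nat.cast_nonneg A
  set δ : ℝ := min ε (gap / (2 * ((A : ℝ) + 1))) with hδ
  have hδ0 : 0 < δ := lt_min hε (by positivity)
  have hδε : δ ≤ ε := min_le_left _ _
  have hAδ : (A : ℝ) * δ ≤ gap / 2 := by
    have h1 : δ ≤ gap / (2 * ((A : ℝ) + 1)) := min_le_right _ _
    have h2 : (A : ℝ) * δ ≤ A * (gap / (2 * ((A : ℝ) + 1))) := mul_le_mul_of_nonneg_left h1 hA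
    have h3 : (A : ℝ) * (gap / (2 * ((A : ℝ) + 1))) ≤
        ((A : ℝ) + 1) * (gap / (2 * ((A : ℝ) + 1))) := by
      have : 0 ≤ gap / (2 * ((A : ℝ) + 1)) := by positivity
      nlinarith
    have h4 : ((A : ℝ) + 1) * (gap / (2 * ((A : ℝ) + 1))) = gap / 2 := by
      have : (A : ℝ) + 1 ≠ 0 := by positivity
      field_simp
    linarith
  -- the constants
  obtain ⟨k0, C1, hC1, hcap⟩ := cap_fin (by linarith : 1 ≤ p) hδ0
    (fun B => cap d hd p (by linarith) _ (hcore δ hδ0) B)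
  obtain ⟨B, M, C0, hC0, hpart⟩ := part_near (d + 1) (by omega) κ hκ
  obtain ⟨C2, hC2, horth⟩ := orth (d + 1) M p hp
  obtain ⟨C5, hC5, horthS⟩ := orth_surf (d + 1) κ hκ2 M P p hp hp4
  set η : ℝ := gap / (4 * ((κ : ℝ) + 1)) with hη
  have hη0 : 0 < η := by positivity
  have hκη : (κ : ℝ) * η ≤ gap / 4 := by
    have h1 : (κ : ℝ) * η ≤ ((κ : ℝ) + 1) * η := by nlinarith
    have h2 : ((κ : ℝ) + 1) * η = gap / 4 := by
      rw [hη]
      field_simp
    linarith
  set C6 : ℝ := (2 + p / η) ^ p with hC6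
  have hC60 : 0 < C6 := by positivity
  set M0 : ℝ := ∑ m ∈ Finset.range (k0 + 1), ∑ i ∈ Finset.range (m + 1),
    (m.choose i : ℝ) * |B i| with hM0
  have hM00 : 0 ≤ M0 := Finset.sum_nonneg fun m _ => Finset.sum_nonneg fun i _ => by positivity
  set θ : ℝ := (2 : ℝ) ^ (κ * ((2 + η) - 1) - (e1 - β) + A * δ) with hθ
  have hθ0 : 0 < θ := Real.rpow_pos_of_pos two_pos _
  have hθ1 : θ < 1 := by
    rw [hθ]
    refine Real.rpow_lt_one_of_one_lt_of_neg one_lt_two ?_
    have : (κ : ℝ) * ((2 + η) - 1) - (e1 - β) + A * δ = -gap + κ * η + A * δ := by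
      rw [hgap]; ring
    linarith
  obtain ⟨K3, hK3, hsum⟩ := tm_sumN (volume : Measure (E (d + 1))) p (by linarith) θ hθ0 hθ1
  set c0 : ℝ := 1 / 8 with hc0
  have hc0p : 0 < c0 := by rw [hc0]; norm_num
  set V' : ℝ := C0 * (1 + V) with hV'
  have hV'0 : 0 < V' := by positivity
  set L : ℝ := V' ^ (p - 1) * c0 ^ e1 * (1 + c0 ^ (-(A : ℝ))) ^ δ with hL
  have hL0 : 0 < L := by
    have h2 : 0 < c0 ^ (-(A : ℝ)) := Real.rpow_pos_of_pos hc0p _
    have h3 : 0 < c0 ^ e1 := Real.rpow_pos_of_pos hc0p _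
    positivity
  set L' : ℝ := V' ^ ((2 + η) - 1) * c0 ^ (e1 - β) * (1 + c0 ^ (-(A : ℝ))) ^ δ with hL'
  have hL'0 : 0 < L' := by
    have h2 : 0 < c0 ^ (-(A : ℝ)) := Real.rpow_pos_of_pos hc0p _
    have h3 : 0 < c0 ^ (e1 - β) := Real.rpow_pos_of_pos hc0p _
    positivity
  set D : ℝ≥0∞ := C2 * C1 * ENNReal.ofReal (M0 ^ p * L) +
    C1 * ENNReal.ofReal (C5 * C6 * (M0 ^ p * L')) with hD
  have hDt : D ≠ ⊤ := by
    rw [hD]
    exact ENNReal.add_ne_top.2 ⟨ENNReal.mul_ne_top (ENNReal.mul_ne_top hC2 hC1)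
      ENNReal.ofReal_ne_top, ENNReal.mul_ne_top hC1 ENNReal.ofReal_ne_top⟩
  refine ⟨k0, ENNReal.ofReal K3 * D, ENNReal.mul_ne_top ENNReal.ofReal_ne_top hDt,
    fun Lf Gf Sig lam ψ a hG hS2 hgr hl hψ ha => ?_⟩
  have hcov : Cov V κ Sig := cov_graph (d + 1) κ P Lf Gf hG Sig hS2 hgr
  choose N x b H hN hx hnr hovl hHc hH1 hHs hHn hHσ using hpart V Sig hV hcov
  set w : E (d + 1) → ℂ := fun y => a y * Complex.exp (((ψ y : ℝ) : ℂ) * Complex.I) with hw
  -- the function off the closure of `Sig`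
  have hwc : ∀ y, ‖y‖ = 1 → y ∉ closure Sig → ContinuousAt w y ∧ ‖w y‖ ≤ 1 := by
    intro y hy hyS
    obtain ⟨r, hr0, hr1, hd'⟩ := asm_ball hyS
    obtain ⟨h1, -⟩ := hψ y hy r hr0 hr1 hd'
    obtain ⟨h2, h3⟩ := ha y hy r hr0 hr1 hd'
    refine ⟨h2.continuousAt.mul ?_, ?_⟩
    · exact Complex.continuous_exp.continuousAt.comp
        ((Complex.continuous_ofReal.continuousAt.comp h1.continuousAt).mul continuousAt_const)
    · rw [hw]
      simp only
      rw [norm_mul, Complex.norm_exp_ofReal_mul_I, mul_one]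
      have h4 := h3 0 (Nat.zero_le _)
      rw [norm_iteratedFDeriv_zero] at h4
      simpa using h4
  -- the points near the centres
  have hnear : ∀ K k i y, ‖y - x K k i‖ < 2 * rk k → y ∉ closure Sig := by
    intro K k i y hy hyS
    obtain ⟨-, h1, -⟩ := hx K k i
    have h2 : Disjoint (Metric.ball (x K k i) (2 * rk k)) (closure Sig) :=
      h1.closure_right Metric.isOpen_ball
    exact Set.disjoint_left.1 h2 (mem_ball_iff_norm.2 hy) hyS
  -- the pieces
  set g : ∀ K k, Fin (N K k) → E (d + 1) → ℂ := fun K k i y => (b K k i y : ℂ) * w y with hg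
  have hgc : ∀ K k i, ContinuousOn (g K k i) (Metric.sphere 0 1) := by
    intro K k i y hy
    have hy1 : ‖y‖ = 1 := mem_sphere_zero_iff_norm.1 hy
    obtain ⟨-, -, h3, -, h5⟩ := hx K k i
    refine ContinuousAt.continuousWithinAt ?_
    by_cases hc : ‖y - x K k i‖ < 2 * rk k
    · have h6 := (hwc y hy1 (hnear K k i y hc)).1
      exact (Complex.continuous_ofReal.continuousAt.comp h3.continuous.continuousAt).mul h6
    · have h6 : ∀ᶠ z in 𝓝 y, rk k / 2 < ‖z - x K k i‖ := by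
        have h7 : Continuous fun z => ‖z - x K k i‖ := by fun_prop
        refine h7.continuousAt.eventually_const_lt ?_
        have := asm_rk_pos k
        linarith
      have h8 : (fun _ => (0 : ℂ)) =ᶠ[𝓝 y] g K k i := by
        filter_upwards [h6] with z hz
        rw [hg]
        simp only
        rw [h5 z hz]
        simp
      exact continuousAt_const.congr h8
  -- one piece
  have hone : ∀ K k i, ∫⁻ ξ, ‖extn (g K k i) ξ‖ₑ ^ p ≤ C1 * ENNReal.ofReal
      (M0 ^ p * rk k ^ e1 * (1 + lam / rk k ^ A) ^ δ) := by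
    intro K k i
    obtain ⟨h1, h2, h3, h4, h5⟩ := hx K k i
    have hball : ∀ y, ‖y - x K k i‖ ≤ rk k → Disjoint (Metric.ball y (rk k)) Sig := by
      intro y hy
      refine h2.mono_left fun z hz => ?_
      rw [mem_ball_iff_norm] at hz ⊢
      calc ‖z - x K k i‖ = ‖(z - y) + (y - x K k i)‖ := by congr 1; abel
        _ ≤ ‖z - y‖ + ‖y - x K k i‖ := norm_add_le _ _
        _ < 2 * rk k := by linarith
    have h6 := hcap (x K k i) (rk k) (lam / rk k ^ A) M0 ψ (fun y => (b K k i y : ℂ) * a y) h1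
      (asm_rk_pos k) (asm_rk_le k) (div_nonneg hl (pow_nonneg (asm_rk_pos k).le _)) hM00
      (fun y hy1 hy2 => ?_) (fun y hy1 hy2 => ?_) (fun y _ hy2 => ?_)
    · have e2 : g K k i = fun y => (b K k i y : ℂ) * a y *
          Complex.exp (((ψ y : ℝ) : ℂ) * Complex.I) := by
        funext y
        rw [hg, hw]
        simp only
        ring
      rw [e2]
      exact h6
    · obtain ⟨h7, h8⟩ := hψ y hy1 (rk k) (asm_rk_pos k) (asm_rk_le k) (hball y hy2)
      refine ⟨h7, fun j hj1 hj2 => (h8 j hj1 hj2).trans_eq ?_⟩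
      rw [div_div, ← pow_add]
    · obtain ⟨h7, h8⟩ := ha y hy1 (rk k) (asm_rk_pos k) (asm_rk_le k) (hball y hy2)
      exact asm_mul k0 B (asm_rk_pos k) h3 h4 h7 h8
    · rw [h5 y hy2]
      simp
  -- one layer
  have hgz : ∀ K k i y, rk k / 2 < ‖y - x K k i‖ → g K k i y = 0 := by
    intro K k i y hy
    obtain ⟨-, -, -, -, h5⟩ := hx K k i
    rw [hg]
    simp only
    rw [h5 y hy]
    simp
  have hsumN : ∀ K k, ∑ i, ∫⁻ ξ, ‖extn (g K k i) ξ‖ₑ ^ p ≤ (N K k : ℝ≥0∞) * (C1 * ENNReal.ofReal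
      (M0 ^ p * rk k ^ e1 * (1 + lam / rk k ^ A) ^ δ)) := by
    intro K k
    refine (Finset.sum_le_sum fun i _ => hone K k i).trans ?_
    rw [Finset.sum_const, Finset.card_univ, Fintype.card_fin, nsmul_eq_mul]
  have hNk : ∀ K k, (N K k : ℝ) ≤ V' * (2 : ℝ) ^ ((k : ℝ) * κ) := by
    intro K k
    have h4 := hN K k
    rw [← Real.rpow_natCast (2 : ℝ) k, ← Real.rpow_mul zero_le_two] at h4
    exact h4
  have h6 : ∀ k, (1 + lam / rk k ^ A) ^ δ ≤ (1 + (1 + lam) * rk k ^ (-(A : ℝ))) ^ δ := by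
    intro k
    have hr0 := asm_rk_pos k
    have h5 : 1 + lam / rk k ^ A ≤ 1 + (1 + lam) * rk k ^ (-(A : ℝ)) := by
      rw [Real.rpow_neg hr0.le, Real.rpow_natCast, ← div_eq_mul_inv]
      have : lam / rk k ^ A ≤ (1 + lam) / rk k ^ A := by
        gcongr
        linarith
      linarith
    refine Real.rpow_le_rpow ?_ h5 hδ0.le
    positivity
  have hlay0 : ∀ K, ∫⁻ ξ, ‖extn (fun y => ∑ i, g K 0 i y) ξ‖ₑ ^ p ≤
      C2 * C1 * ENNReal.ofReal (M0 ^ p * L) * ENNReal.ofReal ((1 + lam) ^ δ) := by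
    intro K
    have h1 := horth (N K 0) (rk 0) (x K 0) (g K 0) (asm_rk_pos 0) (asm_rk_le 0) (hgc K 0)
      (fun i y _ hy => hgz K 0 i y (by have := asm_rk_pos 0; linarith)) (hovl K 0)
    refine h1.trans ?_
    have hr0 := asm_rk_pos 0
    have h3 := tm_exp e1 κ p A δ V' lam hV'0.le (by linarith) hl hδ0.le hA 0 (N K 0) c0 hc0p
      (hNk K 0)
    have hrk : c0 * (1 / 2 : ℝ) ^ 0 = rk 0 := rfl
    rw [hrk, pow_zero, mul_one] at h3
    have h7 : (N K 0 : ℝ) ^ (p - 1) * (M0 ^ p * rk 0 ^ e1 * (1 + lam / rk 0 ^ A) ^ δ) ≤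
        M0 ^ p * L * (1 + lam) ^ δ := by
      have h8 : (N K 0 : ℝ) ^ (p - 1) * (rk 0 ^ e1 * (1 + lam / rk 0 ^ A) ^ δ) ≤
          L * (1 + lam) ^ δ := by
        refine le_trans ?_ h3
        have := h6 0
        gcongr
      calc (N K 0 : ℝ) ^ (p - 1) * (M0 ^ p * rk 0 ^ e1 * (1 + lam / rk 0 ^ A) ^ δ)
          = M0 ^ p * ((N K 0 : ℝ) ^ (p - 1) * (rk 0 ^ e1 * (1 + lam / rk 0 ^ A) ^ δ)) := by
            ring
        _ ≤ M0 ^ p * (L * (1 + lam) ^ δ) :=
            mul_le_mul_of_nonneg_left h8 (Real.rpow_nonneg hM00 _)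
        _ = _ := by ring
    calc C2 * (N K 0 : ℝ≥0∞) ^ (p - 2) * ∑ i, ∫⁻ ξ, ‖extn (g K 0 i) ξ‖ₑ ^ p
        ≤ C2 * (N K 0 : ℝ≥0∞) ^ (p - 2) * ((N K 0 : ℝ≥0∞) * (C1 * ENNReal.ofReal
            (M0 ^ p * rk 0 ^ e1 * (1 + lam / rk 0 ^ A) ^ δ))) := mul_le_mul_right (hsumN K 0) _
      _ = C2 * C1 * (((N K 0 : ℝ≥0∞) ^ (p - 2) * (N K 0 : ℝ≥0∞)) * ENNReal.ofReal
            (M0 ^ p * rk 0 ^ e1 * (1 + lam / rk 0 ^ A) ^ δ)) := by ring
      _ ≤ C2 * C1 * (ENNReal.ofReal ((N K 0 : ℝ) ^ (p - 1)) * ENNReal.ofReal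
            (M0 ^ p * rk 0 ^ e1 * (1 + lam / rk 0 ^ A) ^ δ)) := by
          gcongr
          exact asm_card (N K 0) p
      _ = C2 * C1 * ENNReal.ofReal ((N K 0 : ℝ) ^ (p - 1) *
            (M0 ^ p * rk 0 ^ e1 * (1 + lam / rk 0 ^ A) ^ δ)) := by
          rw [← ENNReal.ofReal_mul (p := (N K 0 : ℝ) ^ (p - 1)) (by positivity)]
      _ ≤ C2 * C1 * ENNReal.ofReal (M0 ^ p * L * (1 + lam) ^ δ) := by
          gcongr
      _ = _ := by
          rw [ENNReal.ofReal_mul (by positivity)]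
          ring
  have hlay1 : ∀ K k, 1 ≤ k → ∫⁻ ξ, ‖extn (fun y => ∑ i, g K k i y) ξ‖ₑ ^ p ≤
      C1 * ENNReal.ofReal (C5 * C6 * (M0 ^ p * L')) * ENNReal.ofReal ((1 + lam) ^ δ) *
        ENNReal.ofReal (θ ^ k) := by
    intro K k hk
    have hr0 := asm_rk_pos k
    have h1 := horthS (N K k) (rk k) (x K k) (g K k) Lf Gf (asm_rk_pos k) (asm_rk_le k) (hgc K k)
      (fun i y _ hy => hgz K k i y (by linarith)) (hovl K k) hG (fun i => (hx K k i).1)
      (fun i => ?_)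
    · refine h1.trans ?_
      rcases Nat.eq_zero_or_pos (N K k) with h0 | h0
      · have h2 := hsumN K k
        have h3 : (N K k : ℝ≥0∞) = 0 := by rw [h0, Nat.cast_zero]
        rw [h3, zero_mul] at h2
        rw [nonpos_iff_eq_zero.1 h2, mul_zero]
        exact zero_le
      · have hN1 : (0 : ℝ) < N K k := by exact_mod_cast h0
        have h3 := tm_exp (e1 - β) κ (2 + η) A δ V' lam hV'0.le (by linarith) hl hδ0.le hA k
          (N K k) c0 hc0p (hNk K k)
        have hrk : c0 * (1 / 2 : ℝ) ^ k = rk k := rfl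
        rw [hrk] at h3
        have h8 : (N K k : ℝ) ^ ((2 + η) - 1) * (rk k ^ (e1 - β) * (1 + lam / rk k ^ A) ^ δ) ≤
            L' * (1 + lam) ^ δ * θ ^ k := by
          refine le_trans ?_ h3
          have := h6 k
          gcongr
        have h9 : C5 * (2 + Real.log (N K k)) ^ p * (1 / rk k) ^ β * ((N K k : ℝ) *
            (M0 ^ p * rk k ^ e1 * (1 + lam / rk k ^ A) ^ δ)) ≤
            C5 * C6 * (M0 ^ p * L') * (1 + lam) ^ δ * θ ^ k := by
          have h10 := log_pow_le (p := p) (by linarith) hη0 h0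
          have e5 : (1 / rk k) ^ β * rk k ^ e1 = rk k ^ (e1 - β) := by
            rw [one_div, Real.inv_rpow hr0.le, ← Real.rpow_neg hr0.le, ← Real.rpow_add hr0]
            congr 1
            ring
          have e6 : (N K k : ℝ) ^ η * (N K k : ℝ) = (N K k : ℝ) ^ ((2 + η) - 1) := by
            have e7 : (N K k : ℝ) ^ ((2 + η) - 1) = (N K k : ℝ) ^ η * (N K k : ℝ) ^ (1 : ℝ) := by
              rw [← Real.rpow_add hN1]
              congr 1
              ring
            rw [e7, Real.rpow_one]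
          calc C5 * (2 + Real.log (N K k)) ^ p * (1 / rk k) ^ β * ((N K k : ℝ) *
                (M0 ^ p * rk k ^ e1 * (1 + lam / rk k ^ A) ^ δ))
              ≤ C5 * (C6 * (N K k : ℝ) ^ η) * (1 / rk k) ^ β * ((N K k : ℝ) *
                (M0 ^ p * rk k ^ e1 * (1 + lam / rk k ^ A) ^ δ)) := by
                gcongr
            _ = C5 * C6 * (M0 ^ p * (((N K k : ℝ) ^ η * (N K k : ℝ)) *
                (((1 / rk k) ^ β * rk k ^ e1) * (1 + lam / rk k ^ A) ^ δ))) := by ring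
            _ = C5 * C6 * (M0 ^ p * ((N K k : ℝ) ^ ((2 + η) - 1) *
                (rk k ^ (e1 - β) * (1 + lam / rk k ^ A) ^ δ))) := by rw [e5, e6]
            _ ≤ C5 * C6 * (M0 ^ p * (L' * (1 + lam) ^ δ * θ ^ k)) := by
                gcongr
            _ = _ := by ring
        calc ENNReal.ofReal (C5 * (2 + Real.log (N K k)) ^ p * (1 / rk k) ^ β) *
              ∑ i, ∫⁻ ξ, ‖extn (g K k i) ξ‖ₑ ^ p
            ≤ ENNReal.ofReal (C5 * (2 + Real.log (N K k)) ^ p * (1 / rk k) ^ β) *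
              ((N K k : ℝ≥0∞) * (C1 * ENNReal.ofReal
                (M0 ^ p * rk k ^ e1 * (1 + lam / rk k ^ A) ^ δ))) :=
              mul_le_mul_right (hsumN K k) _
          _ = C1 * (ENNReal.ofReal (C5 * (2 + Real.log (N K k)) ^ p * (1 / rk k) ^ β) *
              (ENNReal.ofReal (N K k : ℝ) * ENNReal.ofReal
                (M0 ^ p * rk k ^ e1 * (1 + lam / rk k ^ A) ^ δ))) := by
              rw [ENNReal.ofReal_natCast]
              ring
          _ = C1 * ENNReal.ofReal (C5 * (2 + Real.log (N K k)) ^ p * (1 / rk k) ^ β *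
              ((N K k : ℝ) * (M0 ^ p * rk k ^ e1 * (1 + lam / rk k ^ A) ^ δ))) := by
              have h11 : 0 ≤ Real.log (N K k) := Real.log_natCast_nonneg _
              rw [← ENNReal.ofReal_mul (p := (N K k : ℝ)) (by positivity),
                ← ENNReal.ofReal_mul (by positivity)]
          _ ≤ C1 * ENNReal.ofReal (C5 * C6 * (M0 ^ p * L') * (1 + lam) ^ δ * θ ^ k) := by
              gcongr
          _ = _ := by
              rw [ENNReal.ofReal_mul (by positivity), ENNReal.ofReal_mul (by positivity)]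
              ring
    · obtain ⟨z, hz, hz2⟩ := hnr K k i hk
      obtain ⟨c, y, hy⟩ := hgr z hz
      refine ⟨c, y, ?_⟩
      rw [← hy]
      have : rk k = 1 / 8 * (1 / 2) ^ k := rfl
      have h2 : (0 : ℝ) < (1 / 2) ^ k := by positivity
      rw [this]
      linarith
  have hlay : ∀ K k, ∫⁻ ξ, ‖extn (fun y => ∑ i, g K k i y) ξ‖ₑ ^ p ≤
      (D * ENNReal.ofReal ((1 + lam) ^ δ)) * ENNReal.ofReal (θ ^ k) := by
    intro K k
    rcases Nat.eq_zero_or_pos k with h0 | h0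
    · subst h0
      refine (hlay0 K).trans ?_
      rw [pow_zero, ENNReal.ofReal_one, mul_one, hD, add_mul]
      exact le_self_add
    · refine (hlay1 K k h0).trans ?_
      rw [hD, add_mul, add_mul]
      exact le_add_self
  have hGc : ∀ K k, ContinuousOn (fun y => ∑ i, g K k i y) (Metric.sphere 0 1) := by
    intro K k
    exact continuousOn_finsetSum _ fun i _ => hgc K k i
  -- the closure of `Sig` is a null set of the sphere
  have hexpneg : (κ : ℝ) - ((d + 1 : ℕ) - 1 : ℝ) < 0 := by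
    have h2 : (κ : ℝ) < d := by exact_mod_cast hκd
    push_cast
    linarith
  have hlim : Tendsto (fun K : ℕ => ENNReal.ofReal (C0 * (1 + V) * ((2 : ℝ) ^ K) ^
      ((κ : ℝ) - ((d + 1 : ℕ) - 1 : ℝ)))) atTop (𝓝 0) := by
    have h1 : Tendsto (fun K : ℕ => ((2 : ℝ) ^ K) ^ ((κ : ℝ) - ((d + 1 : ℕ) - 1 : ℝ))) atTop
        (𝓝 0) := by
      set t : ℝ := -((κ : ℝ) - ((d + 1 : ℕ) - 1 : ℝ)) with ht
      have ht0 : 0 < t := by rw [ht]; linarith
      have h2 := (tendsto_rpow_neg_atTop ht0).comp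
        (tendsto_pow_atTop_atTop_of_one_lt (one_lt_two (α := ℝ)))
      have e3 : -t = (κ : ℝ) - ((d + 1 : ℕ) - 1 : ℝ) := by rw [ht]; ring
      rw [e3] at h2
      exact h2
    have h3 := ENNReal.tendsto_ofReal (h1.const_mul (C0 * (1 + V)))
    rw [mul_zero, ENNReal.ofReal_zero] at h3
    exact h3
  have hσ : Tendsto (fun K => sm (d + 1) {y : S (d + 1) | H K y ≠ 0}) atTop (𝓝 0) :=
    tendsto_of_tendsto_of_tendsto_of_le_of_le tendsto_const_nhds hlim (fun _ => bot_le) hHσ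
  have hcl : sm (d + 1) {y : S (d + 1) | (y : E (d + 1)) ∈ closure Sig} = 0 := by
    refine le_antisymm (ge_of_tendsto' hσ fun K => measure_mono fun y hy => ?_) bot_le
    have h1 := hHs K y (mem_sphere_zero_iff_norm.1 y.2)
    have h2 : ∑ k ∈ Finset.range K, ∑ i, b K k i y = 0 := by
      refine Finset.sum_eq_zero fun k _ => Finset.sum_eq_zero fun i _ => ?_
      obtain ⟨-, -, -, -, h5⟩ := hx K k i
      refine h5 y ?_
      by_contra h6
      exact hnear K k i y (by have := asm_rk_pos k; linarith) hy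
    rw [h2] at h1
    have h3 : H K y = 1 := by linarith
    show H K y ≠ 0
    rw [h3]
    exact one_ne_zero
  have hae : ∀ᵐ y : S (d + 1) ∂(sm (d + 1)), (y : E (d + 1)) ∉ closure Sig := by
    rw [ae_iff]
    simpa using hcl
  have hwm : AEStronglyMeasurable (fun y : S (d + 1) => w y) (sm (d + 1)) := by
    set U : Set (S (d + 1)) := {y : S (d + 1) | (y : E (d + 1)) ∉ closure Sig} with hU
    have hUo : IsOpen U := isClosed_closure.isOpen_compl.preimage continuous_subtype_val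
    have h1 : ContinuousOn (fun y : S (d + 1) => w y) U := by
      intro y hy
      have h2 := (hwc y (mem_sphere_zero_iff_norm.1 y.2) hy).1
      exact (ContinuousAt.comp (f := fun y : S (d + 1) => (y : E (d + 1))) h2
        continuous_subtype_val.continuousAt).continuousWithinAt
    have h3 := h1.aestronglyMeasurable (μ := sm (d + 1)) hUo.measurableSet
    have h4 : (sm (d + 1)).restrict U = sm (d + 1) := Measure.restrict_eq_self_of_ae_mem hae
    rw [h4] at h3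
    exact h3
  have hwb : ∀ᵐ y : S (d + 1) ∂(sm (d + 1)), ‖w y‖ ≤ 1 := by
    filter_upwards [hae] with y hy
    exact (hwc y (mem_sphere_zero_iff_norm.1 y.2) hy).2
  -- the sum
  have hfin := hsum (D * ENNReal.ofReal ((1 + lam) ^ δ))
    (fun K k => extn (fun y => ∑ i, g K k i y)) (extn w)
    (fun K k => (tm_meas (hGc K k)).aestronglyMeasurable) hlay ?_
  · refine hfin.trans ?_
    have h1 : (1 + lam) ^ δ ≤ (1 + lam) ^ ε := Real.rpow_le_rpow_of_exponent_le (by linarith) hδε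
    calc ENNReal.ofReal K3 * (D * ENNReal.ofReal ((1 + lam) ^ δ))
        = ENNReal.ofReal K3 * D * ENNReal.ofReal ((1 + lam) ^ δ) := by ring
      _ ≤ _ := by gcongr
  · intro ξ
    have h1 : ∀ K, ∑ k ∈ Finset.range K, extn (fun y => ∑ i, g K k i y) ξ =
        extn (fun y => ((1 - H K y : ℝ) : ℂ) * w y) ξ := by
      intro K
      rw [← tm_extn_sum (Finset.range K) (fun k y => ∑ i, g K k i y) (fun k _ => hGc K k) ξ]
      unfold extn
      refine integral_congr_ae (Filter.Eventually.of_forall fun y => ?_)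
      simp only
      rw [← hHs K y (mem_sphere_zero_iff_norm.1 y.2)]
      congr 1
      rw [hg]
      simp only
      push_cast
      rw [Finset.sum_mul]
      refine Finset.sum_congr rfl fun k _ => ?_
      rw [Finset.sum_mul]
    simp_rw [h1]
    rw [tendsto_iff_edist_tendsto_0]
    refine tendsto_of_tendsto_of_tendsto_of_le_of_le tendsto_const_nhds hσ (fun _ => bot_le)
      fun K => ?_
    simp only
    rw [edist_eq_enorm_sub]
    exact tm_rem hwm hwb (hHc K) (hH1 K) ξ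

end Pool.Agent.GNP.TM
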