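import Pool.Agent.GNP.TMK

/-!
Functions with spectrum in a ball.
-/

set_option autoImplicit false

namespace Pool.Agent.GNP.TMR

open MeasureTheory Set Pool.Agent.MP_6cbfb8_an SchwartzMap
open scoped ENNReal Real RealInnerProductSpace ContDiff ComplexConjugate

/-- `F` is the Fourier transform of a finite complex measure on the ball of centre `c` and
radius `r`. -/
def Spec {n : ℕ} (c : E n) (r : ℝ) (F : E n → ℂ) : Prop :=
  ∃ (X : Type) (_ : MeasurableSpace X) (μ : Measure X) (h : X → ℂ) (φ : X → E n),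
    IsFiniteMeasure μ ∧ Integrable h μ ∧ Measurable φ ∧ (∀ x, h x ≠ 0 → ‖φ x - c‖ ≤ r) ∧
    ∀ ξ, F ξ = ∫ x, h x * Complex.exp (((-(2 * π * ⟪φ x, ξ⟫) : ℝ) : ℂ) * Complex.I) ∂μ

theorem Spec.mul {n : ℕ} {c c' : E n} {r r' : ℝ} {F G : E n → ℂ} (hF : Spec c r F)
    (hG : Spec c' r' G) : Spec (c + c') (r + r') (fun ξ => F ξ * G ξ) := by
  obtain ⟨X, _, μ, h, φ, hμ, hh, hφ, hs, hr⟩ := hF
  obtain ⟨Y, _, ν, k, ψ, hν, hk, hψ, ht, hu⟩ := hG
  refine ⟨X × Y, inferInstance, μ.prod ν, fun z => h z.1 * k z.2, fun z => φ z.1 + ψ z.2,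
    inferInstance, hh.mul_prod hk, (hφ.comp measurable_fst).add (hψ.comp measurable_snd),
    fun z hz => ?_, fun ξ => ?_⟩
  · have h1 := hs z.1 (left_ne_zero_of_mul hz)
    have h2 := ht z.2 (right_ne_zero_of_mul hz)
    calc ‖φ z.1 + ψ z.2 - (c + c')‖ = ‖(φ z.1 - c) + (ψ z.2 - c')‖ := by congr 1; abel
      _ ≤ _ := (norm_add_le _ _).trans (add_le_add h1 h2)
  · beta_reduce
    rw [hr, hu, ← integral_prod_mul]
    refine integral_congr_ae (Filter.Eventually.of_forall fun z => ?_)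
    simp only [inner_add_left]
    rw [mul_mul_mul_comm, ← Complex.exp_add]
    congr 2
    push_cast
    ring

theorem Spec.conj {n : ℕ} {c : E n} {r : ℝ} {F : E n → ℂ} (hF : Spec c r F) :
    Spec (-c) r (fun ξ => conj (F ξ)) := by
  obtain ⟨X, _, μ, h, φ, hμ, hh, hφ, hs, hr⟩ := hF
  refine ⟨X, inferInstance, μ, fun x => conj (h x), fun x => -φ x, hμ, ?_, hφ.neg,
    fun x hx => ?_, fun ξ => ?_⟩
  · exact (Complex.conjCLE.toContinuousLinearMap.integrable_comp hh)
  · have h1 := hs x (fun h0 => hx (by simp [h0]))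
    calc ‖-φ x - -c‖ = ‖φ x - c‖ := by rw [← norm_neg]; congr 1; abel
      _ ≤ r := h1
  · beta_reduce
    rw [hr, ← integral_conj]
    refine integral_congr_ae (Filter.Eventually.of_forall fun x => ?_)
    simp only [map_mul, ← Complex.exp_conj, inner_neg_left, Complex.conj_ofReal, Complex.conj_I]
    congr 2
    push_cast
    ring

theorem Spec.bdd {n : ℕ} {c : E n} {r : ℝ} {F : E n → ℂ} (hF : Spec c r F) :
    ∃ B : ℝ, 0 ≤ B ∧ ∀ ξ, ‖F ξ‖ ≤ B := by
  obtain ⟨X, _, μ, h, φ, hμ, hh, hφ, hs, hr⟩ := hF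
  refine ⟨∫ x, ‖h x‖ ∂μ, integral_nonneg fun _ => norm_nonneg _, fun ξ => ?_⟩
  rw [hr]
  refine (norm_integral_le_integral_norm _).trans (le_of_eq ?_)
  refine integral_congr_ae (Filter.Eventually.of_forall fun x => ?_)
  simp only [norm_mul, Complex.norm_exp_ofReal_mul_I, mul_one]

theorem Spec.cont {n : ℕ} {c : E n} {r : ℝ} {F : E n → ℂ} (hF : Spec c r F) :
    Continuous F := by
  obtain ⟨X, _, μ, h, φ, hμ, hh, hφ, hs, hr⟩ := hF
  have h1 : F = fun ξ => ∫ x, h x * Complex.exp (((-(2 * π * ⟪φ x, ξ⟫) : ℝ) : ℂ) * Complex.I) ∂μ :=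
    funext hr
  rw [h1]
  refine continuous_of_dominated (bound := fun x => ‖h x‖) (fun ξ => ?_) (fun ξ => ?_) hh.norm ?_
  · refine hh.aestronglyMeasurable.mul ?_
    have h2 : Measurable fun x => Complex.exp (((-(2 * π * ⟪φ x, ξ⟫) : ℝ) : ℂ) * Complex.I) := by
      have h3 : Measurable fun x => ⟪φ x, ξ⟫ := hφ.inner_const
      fun_prop
    exact h2.aestronglyMeasurable
  · refine Filter.Eventually.of_forall fun x => ?_
    simp only [norm_mul, Complex.norm_exp_ofReal_mul_I, mul_one, le_refl]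
  · refine Filter.Eventually.of_forall fun x => ?_
    fun_prop

theorem spec_extn {n : ℕ} {w : E n} {ρ B : ℝ} {g : E n → ℂ} (hg : Measurable g)
    (hB : ∀ x, ‖g x‖ ≤ B) (hs : ∀ x, ρ < ‖x - w‖ → g x = 0) : Spec w ρ (extn g) := by
  refine ⟨S n, inferInstance, sm n, fun x => g x, fun x => (x : E n), inferInstance, ?_,
    measurable_subtype_coe, fun x hx => ?_, fun ξ => rfl⟩
  · refine Integrable.of_bound (hg.comp measurable_subtype_coe).aestronglyMeasurable B
      (Filter.Eventually.of_forall fun x => hB x)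
  · by_contra h
    exact hx (hs x (not_le.1 h))

/-- The average with the weight vanishes if the spectrum is away from the origin. -/
theorem Spec.vanish {n : ℕ} {T : 𝓢(E n, ℂ)} (hT : ∀ x : E n, 1 / 4 ≤ ‖x‖ →
    ∫ ξ, T ξ * Complex.exp (((2 * π * ⟪ξ, x⟫ : ℝ) : ℂ) * Complex.I) = 0) {c : E n} {r : ℝ}
    {F : E n → ℂ} (hF : Spec c r F) {ρ : ℝ} (hρ : 0 < ρ) (hc : r + ρ / 4 ≤ ‖c‖) (ξ0 : E n) :
    ∫ ξ, T (ρ • (ξ - ξ0)) * F ξ = 0 := by
  obtain ⟨X, _, μ, h, φ, hμ, hh, hφ, hs, hr⟩ := hF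
  have hTi : Integrable fun ξ : E n => T (ρ • (ξ - ξ0)) :=
    ((T.integrable (μ := volume)).comp_smul hρ.ne').comp_sub_right ξ0
  have h1 : ∀ ξ, T (ρ • (ξ - ξ0)) * F ξ = ∫ x, T (ρ • (ξ - ξ0)) * (h x *
      Complex.exp (((-(2 * π * ⟪φ x, ξ⟫) : ℝ) : ℂ) * Complex.I)) ∂μ := by
    intro ξ
    rw [hr, integral_const_mul]
  simp_rw [h1]
  rw [integral_integral_swap]
  · refine integral_eq_zero_of_ae (Filter.Eventually.of_forall fun x => ?_)
    simp only [Pi.zero_apply]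
    by_cases hx : h x = 0
    · simp [hx]
    · have h2 := hs x hx
      have h3 : ρ / 4 ≤ ‖φ x‖ := by
        have h4 : ‖c‖ ≤ ‖φ x‖ + ‖φ x - c‖ := by
          calc ‖c‖ = ‖φ x - (φ x - c)‖ := by congr 1; abel
            _ ≤ _ := norm_sub_le _ _
        linarith
      have h5 : ∀ ξ : E n, T (ρ • (ξ - ξ0)) * (h x *
          Complex.exp (((-(2 * π * ⟪φ x, ξ⟫) : ℝ) : ℂ) * Complex.I)) =
          (h x * Complex.exp (((-(2 * π * ⟪φ x, ξ0⟫) : ℝ) : ℂ) * Complex.I)) *
          (fun η : E n => T (ρ • η) * Complex.exp (((2 * π * ⟪ρ • η, -(ρ⁻¹ • φ x)⟫ : ℝ) : ℂ) *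
            Complex.I)) (ξ - ξ0) := by
        intro ξ
        have h6 : ⟪ρ • (ξ - ξ0), -(ρ⁻¹ • φ x)⟫ = -⟪φ x, ξ⟫ + ⟪φ x, ξ0⟫ := by
          rw [inner_neg_right, real_inner_smul_left, real_inner_smul_right, inner_sub_left,
            real_inner_comm, real_inner_comm ξ0]
          field_simp
          ring
        simp only [h6]
        have h7 : Complex.exp (((-(2 * π * ⟪φ x, ξ⟫) : ℝ) : ℂ) * Complex.I) =
            Complex.exp (((-(2 * π * ⟪φ x, ξ0⟫) : ℝ) : ℂ) * Complex.I) *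
            Complex.exp (((2 * π * (-⟪φ x, ξ⟫ + ⟪φ x, ξ0⟫) : ℝ) : ℂ) * Complex.I) := by
          rw [← Complex.exp_add]
          congr 1
          push_cast
          ring
        rw [h7]
        ring
      simp_rw [h5]
      rw [integral_const_mul, integral_sub_right_eq_self (μ := (volume : Measure (E n)))
        (fun η : E n => T (ρ • η) * Complex.exp (((2 * π * ⟪ρ • η, -(ρ⁻¹ • φ x)⟫ : ℝ) : ℂ) *
            Complex.I)) ξ0]
      rw [Measure.integral_comp_smul (volume : Measure (E n)) (fun η : E n => T η *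
        Complex.exp (((2 * π * ⟪η, -(ρ⁻¹ • φ x)⟫ : ℝ) : ℂ) * Complex.I)) ρ]
      rw [hT, smul_zero, mul_zero]
      rw [norm_neg, norm_smul, Real.norm_eq_abs, abs_of_pos (inv_pos.2 hρ), ← div_eq_inv_mul,
        le_div_iff₀ hρ]
      linarith
  · have h2 : Integrable (fun z : E n × X => T (ρ • (z.1 - ξ0)) * h z.2)
        ((volume : Measure (E n)).prod μ) := hTi.mul_prod hh
    refine h2.mono ?_ (Filter.Eventually.of_forall fun z => ?_)
    · have h3 : Measurable fun z : E n × X =>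
          Complex.exp (((-(2 * π * ⟪φ z.2, z.1⟫) : ℝ) : ℂ) * Complex.I) := by
        have h4 : Measurable fun z : E n × X => ⟪φ z.2, z.1⟫ :=
          (hφ.comp measurable_snd).inner measurable_fst
        fun_prop
      have h5 := h2.aestronglyMeasurable.mul h3.aestronglyMeasurable
      refine h5.congr (Filter.Eventually.of_forall fun z => ?_)
      simp only [Pi.mul_apply, Function.uncurry]
      ring
    · simp only [Function.uncurry, norm_mul, Complex.norm_exp_ofReal_mul_I, mul_one, le_refl]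

/-- Integrability of the weight times a bounded continuous function. -/
theorem weight_integrable {n : ℕ} (T : 𝓢(E n, ℂ)) {ρ : ℝ} (hρ : 0 < ρ) (ξ0 : E n) {F : E n → ℂ}
    (hF : Continuous F) {B : ℝ} (hB : ∀ ξ, ‖F ξ‖ ≤ B) :
    Integrable fun ξ : E n => T (ρ • (ξ - ξ0)) * F ξ := by
  have hTi : Integrable fun ξ : E n => T (ρ • (ξ - ξ0)) :=
    ((T.integrable (μ := volume)).comp_smul hρ.ne').comp_sub_right ξ0
  exact hTi.mul_bdd (c := B) hF.aestronglyMeasurable (Filter.Eventually.of_forall hB)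

end Pool.Agent.GNP.TMR
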