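import Pool.Agent.GNP.TMasm
import Pool.Agent.GNP.SP5
import Pool.Agent.GNP.FTn

/-!
# Phases with singularities on the unit sphere of `R^n`, `n ≥ 3`.
-/

set_option autoImplicit false

namespace Pool.Agent.GNP.TM

open MeasureTheory Set Pool.Agent.MP_6cbfb8_an
open scoped ENNReal

/-- Let `n ≥ 3`, `p > 2n/(n-1)`, `κ(p-1) < (n-1)p - (n+1)`, and let `A`, `V`, `ε > 0` be given.
There are `k` and `C` such that for all `Sig` which is covered by `V r^(-κ)` balls of radius `r`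
for `0 < r ≤ 1`, for all `ψ` with `|D^j ψ(x)| ≤ lam / r^(A+j)`, `1 ≤ j ≤ k`, and `a` with
`|D^j a(x)| ≤ 1 / r^j`, `j ≤ k`, whenever the ball of radius `r ≤ 1` about `x ∈ S` does not meet
`Sig`, the integral is at most `C (1 + lam)^ε`. -/
theorem tame_all (n : ℕ) (hn : 3 ≤ n) (p κ : ℝ) (hp : 2 * (n : ℝ) / (n - 1) < p) (hκ : 0 ≤ κ)
    (hexp : κ * (p - 1) < (n - 1) * p - (n + 1)) (A : ℕ) (V ε : ℝ) (hV : 0 ≤ V) (hε : 0 < ε) :
    ∃ (k : ℕ) (C : ℝ≥0∞), C ≠ ⊤ ∧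
    ∀ (Sig : Set (E n)) (lam : ℝ) (ψ : E n → ℝ) (a : E n → ℂ),
      0 ≤ lam → Cov V κ Sig → PhsF k A lam Sig ψ → AmsF k Sig a →
      ∫⁻ ξ, ‖extn (fun x => a x * Complex.exp (((ψ x : ℝ) : ℂ) * Complex.I)) ξ‖ₑ ^ p ≤
        C * ENNReal.ofReal ((1 + lam) ^ ε) := by
  obtain ⟨m, rfl⟩ : ∃ m, n = m + 1 := ⟨n - 1, by omega⟩
  have hm : 2 ≤ m := by omega
  have hm0 : (2 : ℝ) ≤ m := by exact_mod_cast hm
  have hp' : 2 * ((m : ℝ) + 1) / m < p := by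
    refine lt_of_eq_of_lt ?_ hp
    push_cast
    congr 1
    ring
  have hp2 : 2 ≤ p := by
    refine le_of_lt (lt_of_le_of_lt ?_ hp')
    rw [le_div_iff₀ (by linarith)]
    linarith
  refine tame_fin m (by omega) p κ hp2 hκ ?_ (fun ε' hε' => coreG5 m hm (ft m) p ε' hp' hε')
    A V ε hV hε
  push_cast at hexp
  linarith

end Pool.Agent.GNP.TM
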