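import Pool.Agent.GNP.SP4
import Pool.Agent.GNP.LEG

/-! ## The rescaled height of the sphere -/

namespace Pool.Agent.GNP.TM

open MeasureTheory Set Metric Pool.Agent.MP_6cbfb8_an Pool.Agent.GNP
open scoped ENNReal Real RealInnerProductSpace ContDiff

/-- The bump in `y`. -/
noncomputable def hby (d : ℕ) : ContDiffBump (0 : E d) := ⟨4 / 5, 9 / 10, by norm_num, by norm_num⟩

/-- The bump in `ρ`. -/
noncomputable def hbr : ContDiffBump (0 : ℝ) := ⟨1, 21 / 20, by norm_num, by norm_num⟩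

/-- `-|y|²/(1 + √(1 - ρ²|y|²))`. -/
noncomputable def FF0 {d : ℕ} (q : E d × ℝ) : ℝ :=
  -(‖q.1‖ ^ 2) / (1 + √(1 - q.2 ^ 2 * ‖q.1‖ ^ 2))

/-- The same, cut off. -/
noncomputable def FF1 {d : ℕ} (q : E d × ℝ) : ℝ := (hby d q.1 * hbr q.2) * FF0 q

theorem FF0_smooth {d : ℕ} {q : E d × ℝ} (h : q.2 ^ 2 * ‖q.1‖ ^ 2 < 1) :
    ContDiffAt ℝ ∞ (FF0 (d := d)) q := by
  have h1 : ContDiff ℝ ∞ fun q : E d × ℝ => ‖q.1‖ ^ 2 := contDiff_fst.norm_sq ℝ
  have h2 : ContDiff ℝ ∞ fun q : E d × ℝ => 1 - q.2 ^ 2 * ‖q.1‖ ^ 2 :=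
    contDiff_const.sub ((contDiff_snd.pow 2).mul h1)
  have h3 : ContDiffAt ℝ ∞ (fun q : E d × ℝ => √(1 - q.2 ^ 2 * ‖q.1‖ ^ 2)) q :=
    h2.contDiffAt.sqrt (by linarith)
  unfold FF0
  refine h1.contDiffAt.neg.div (contDiffAt_const.add h3) ?_
  have := Real.sqrt_nonneg (1 - q.2 ^ 2 * ‖q.1‖ ^ 2)
  positivity

theorem FF1_smooth (d : ℕ) : ContDiff ℝ ∞ (FF1 (d := d)) := by
  rw [contDiff_iff_contDiffAt]
  rintro ⟨y, ρ⟩
  by_cases h : ‖y‖ ≤ 10 / 11 ∧ |ρ| ≤ 21 / 20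
  · have h1 : ρ ^ 2 * ‖y‖ ^ 2 < 1 := by
      have e1 : ρ ^ 2 ≤ (21 / 20) ^ 2 := by
        rw [← sq_abs]
        gcongr
        exact h.2
      have e2 : ‖y‖ ^ 2 ≤ (10 / 11) ^ 2 := by
        gcongr
        exact h.1
      calc ρ ^ 2 * ‖y‖ ^ 2 ≤ (21 / 20) ^ 2 * (10 / 11) ^ 2 := by gcongr
        _ < 1 := by norm_num
    have h2 : ContDiff ℝ ∞ fun q : E d × ℝ => hby d q.1 * hbr q.2 :=
      ((hby d).contDiff.comp contDiff_fst).mul (hbr.contDiff.comp contDiff_snd)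
    exact h2.contDiffAt.mul (FF0_smooth h1)
  · have h0 : (FF1 (d := d)) =ᶠ[nhds (y, ρ)] fun _ => 0 := by
      rw [not_and_or, not_le, not_le] at h
      rcases h with h | h
      · have h2 : {q : E d × ℝ | 9 / 10 < ‖q.1‖} ∈ nhds (y, ρ) :=
          (isOpen_lt continuous_const (continuous_fst.norm)).mem_nhds (by
            simp only [mem_ofPred_eq]
            linarith)
        filter_upwards [h2] with q hq
        have : hby d q.1 = 0 := (hby d).zero_of_le_dist (by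
          rw [dist_zero_right]
          exact le_of_lt hq)
        simp only [FF1, this, zero_mul]
      · have h2 : {q : E d × ℝ | 21 / 20 < |q.2|} ∈ nhds (y, ρ) :=
          (isOpen_lt continuous_const (continuous_snd.abs)).mem_nhds h
        filter_upwards [h2] with q hq
        have : hbr q.2 = 0 := hbr.zero_of_le_dist (by
          rw [dist_zero_right, Real.norm_eq_abs]
          exact le_of_lt hq)
        simp only [FF1, this, mul_zero, zero_mul]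
    exact contDiffAt_const.congr_of_eventuallyEq h0

theorem FF1_compact (d : ℕ) : HasCompactSupport (FF1 (d := d)) := by
  refine HasCompactSupport.intro
    ((isCompact_closedBall (0 : E d) (9 / 10)).prod (isCompact_closedBall (0 : ℝ) (21 / 20)))
    fun q hq => ?_
  by_contra hne
  apply hq
  refine ⟨?_, ?_⟩
  · rw [mem_closedBall_zero_iff]
    by_contra hc
    rw [not_le] at hc
    apply hne
    have : hby d q.1 = 0 := (hby d).zero_of_le_dist (by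
      rw [dist_zero_right]
      exact le_of_lt hc)
    simp only [FF1, this, zero_mul]
  · rw [mem_closedBall_zero_iff]
    by_contra hc
    rw [not_le] at hc
    apply hne
    have : hbr q.2 = 0 := hbr.zero_of_le_dist (by
      rw [dist_zero_right]
      exact le_of_lt hc)
    simp only [FF1, this, mul_zero, zero_mul]

theorem FF1_bound (d : ℕ) : ∃ A : ℕ → ℝ, ∀ j q, ‖iteratedFDeriv ℝ j (FF1 (d := d)) q‖ ≤ A j := by
  have hb : ∀ j : ℕ, ∃ C : ℝ, ∀ q, ‖iteratedFDeriv ℝ j (FF1 (d := d)) q‖ ≤ C := fun j =>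
    ((FF1_smooth d).continuous_iteratedFDeriv
      (m := j) (by exact_mod_cast le_top)).bounded_above_of_compact_support
      ((FF1_compact d).iteratedFDeriv j)
  choose A hA using hb
  exact ⟨A, hA⟩

theorem FF1_eq {d : ℕ} {y : E d} {ρ : ℝ} (hρ : 0 < ρ) (hρ1 : ρ ≤ 1) (hy : ‖y‖ ≤ 4 / 5) :
    FF1 (y, ρ) = (ρ ^ 2)⁻¹ * (hs (ρ • y) - 1) := by
  have h1 : hby d y = 1 := (hby d).one_of_mem_closedBall (by simpa [hby] using hy)
  have h2 : hbr ρ = 1 := hbr.one_of_mem_closedBall (by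
    rw [mem_closedBall_zero_iff, Real.norm_eq_abs, abs_of_pos hρ]
    exact hρ1)
  have h3 : ρ ^ 2 * ‖y‖ ^ 2 ≤ 1 := by
    have e1 : ρ ^ 2 ≤ 1 := by nlinarith
    have e2 : ‖y‖ ^ 2 ≤ 1 := by nlinarith [norm_nonneg y]
    nlinarith [sq_nonneg ‖y‖, sq_nonneg ρ]
  simp only [FF1, FF0, h1, h2, hs, norm_smul, Real.norm_eq_abs, mul_pow, sq_abs]
  set S : ℝ := √(1 - ρ ^ 2 * ‖y‖ ^ 2) with hS
  have hS0 : 0 ≤ S := Real.sqrt_nonneg _
  have hS2 : S ^ 2 = 1 - ρ ^ 2 * ‖y‖ ^ 2 := Real.sq_sqrt (by linarith)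
  have h4 : 1 + S ≠ 0 := by positivity
  field_simp
  nlinarith

/-- **(C4)** The rescaled height. -/
theorem cap_height (d : ℕ) : ∃ A : ℕ → ℝ, ∀ ρ : ℝ, 0 < ρ → ρ ≤ 1 → ∃ h : E d → ℝ, Sm d A h ∧
    (∀ y, ‖y‖ ≤ 4 / 5 → h y = (ρ ^ 2)⁻¹ * (hs (ρ • y) - 1)) ∧
    ∀ y, ‖y‖ ≤ 3 / 4 → ∀ v, ⟪Hs h y v, v⟫ ≤ -(1 * ‖v‖ ^ 2) := by
  obtain ⟨A, hA⟩ := FF1_bound d
  refine ⟨A, fun ρ hρ hρ1 => ?_⟩
  set h : E d → ℝ := fun y => FF1 (y, ρ) with hh
  have hsm : ContDiff ℝ ∞ h := (FF1_smooth d).comp (contDiff_id.prodMk contDiff_const)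
  have heq : ∀ y, ‖y‖ ≤ 4 / 5 → h y = (ρ ^ 2)⁻¹ * (hs (ρ • y) - 1) := fun y hy =>
    FF1_eq hρ hρ1 hy
  refine ⟨h, ⟨hsm, fun j y => (norm_iter_slice (FF1_smooth d) ρ j y).trans (hA j _)⟩, heq,
    fun y hy v => ?_⟩
  -- the Hessian
  have hρy : ∀ y : E d, ‖y‖ < 4 / 5 → ‖ρ • y‖ < 1 := fun y hy => by
    rw [norm_smul, Real.norm_eq_abs, abs_of_pos hρ]
    nlinarith [norm_nonneg y]
  have hhs : ∀ y : E d, ‖y‖ < 1 → ContDiffAt ℝ ∞ (hs (d := d)) y := fun y hy =>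
    cha_hs_smooth.contDiffAt (isOpen_ball.mem_nhds (by simpa using hy))
  have hopen : ∀ y : E d, ‖y‖ < 4 / 5 → {w : E d | ‖w‖ < 4 / 5} ∈ nhds y := fun y hy =>
    (isOpen_lt continuous_norm continuous_const).mem_nhds hy
  have hgr : ∀ y : E d, ‖y‖ < 4 / 5 → gr h y = ρ⁻¹ • gr hs (ρ • y) := by
    intro y hy
    have e1 : h =ᶠ[nhds y] fun y => (ρ ^ 2)⁻¹ * (hs (ρ • y) - 1) := by
      filter_upwards [hopen y hy] with w hw
      exact heq w (le_of_lt hw)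
    have e2 : HasFDerivAt (fun y : E d => (ρ ^ 2)⁻¹ * (hs (ρ • y) - 1))
        ((ρ ^ 2)⁻¹ • ((fderiv ℝ hs (ρ • y)).comp (ρ • ContinuousLinearMap.id ℝ (E d)))) y := by
      have e3 : HasFDerivAt (fun y : E d => ρ • y) (ρ • ContinuousLinearMap.id ℝ (E d)) y :=
        (hasFDerivAt_id y).const_smul ρ
      have e4 : HasFDerivAt (fun y : E d => hs (ρ • y))
          ((fderiv ℝ hs (ρ • y)).comp (ρ • ContinuousLinearMap.id ℝ (E d))) y :=
        ((hhs _ (hρy y hy)).differentiableAt (by simp)).hasFDerivAt.comp y e3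
      exact (e4.sub_const 1).const_mul ((ρ ^ 2)⁻¹)
    have e5 : fderiv ℝ h y = ρ⁻¹ • fderiv ℝ hs (ρ • y) := by
      rw [e1.fderiv_eq, e2.fderiv]
      ext w
      simp only [smul_apply, ContinuousLinearMap.comp_apply, ContinuousLinearMap.id_apply,
        map_smul, smul_eq_mul]
      field_simp
    unfold gr
    rw [e5, map_smul]
  have hHs : Hs h y = Hs hs (ρ • y) := by
    have hy' : ‖y‖ < 4 / 5 := by linarith
    have e1 : gr h =ᶠ[nhds y] fun y => ρ⁻¹ • gr hs (ρ • y) := by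
      filter_upwards [hopen y hy'] with w hw
      exact hgr w hw
    have e0 : DifferentiableAt ℝ (gr (hs (d := d))) (ρ • y) := by
      have k1 : ContDiffAt ℝ 1 (fderiv ℝ (hs (d := d))) (ρ • y) :=
        (hhs _ (hρy y hy')).fderiv_right (m := 1) (by norm_cast)
      exact (P0J d).toContinuousLinearMap.differentiableAt.comp _
        (k1.differentiableAt (by norm_num))
    have e3 : HasFDerivAt (fun y : E d => ρ • y) (ρ • ContinuousLinearMap.id ℝ (E d)) y :=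
      (hasFDerivAt_id y).const_smul ρ
    have e4 : HasFDerivAt (fun y : E d => ρ⁻¹ • gr hs (ρ • y))
        (ρ⁻¹ • ((Hs hs (ρ • y)).comp (ρ • ContinuousLinearMap.id ℝ (E d)))) y :=
      (e0.hasFDerivAt.comp y e3).const_smul ρ⁻¹
    unfold Hs at e4 ⊢
    rw [e1.fderiv_eq, e4.fderiv]
    ext w : 1
    simp only [smul_apply, ContinuousLinearMap.comp_apply, ContinuousLinearMap.id_apply, map_smul]
    rw [smul_smul, inv_mul_cancel₀ hρ.ne', one_smul]
  rw [hHs, one_mul]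
  exact Hs_hs (ρ • y) v (hρy y (by linarith))

end Pool.Agent.GNP.TM
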