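import Pool.Agent.GNP.TM0
import Pool.Agent.GNP.TMh

/-!
Phases with singularities: the height of the sphere over a cap.
-/

namespace Pool.Agent.GNP.TM

open MeasureTheory Set Pool.Agent.MP_6cbfb8_an
open scoped ENNReal Real RealInnerProductSpace ContDiff

theorem cap_h (d : ℕ) : ∃ A : ℕ → ℝ, ∀ ρ : ℝ, 0 < ρ → ρ ≤ 1 → ∃ h : E d → ℝ, Sm d A h ∧
    (∀ y, ‖y‖ ≤ 7 / 10 → h y = (ρ ^ 2)⁻¹ * (hs (ρ • y) - 1)) ∧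
    ∀ y, ‖y‖ ≤ 3 / 5 → ∀ v, ⟪Hs h y v, v⟫ ≤ -(1 * ‖v‖ ^ 2) := by
  obtain ⟨A, hA⟩ := cap_height d
  refine ⟨A, fun ρ hρ hρ1 => ?_⟩
  obtain ⟨h, h1, h2, h3⟩ := hA ρ hρ hρ1
  exact ⟨h, h1, fun y hy => h2 y (by linarith), fun y hy v => h3 y (by linarith) v⟩

end Pool.Agent.GNP.TM
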