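import Pool.Agent.GNP.TMsc
import Pool.Agent.GNP.TMcapH

/-!
Phases with singularities: the estimate for one cap.
-/

namespace Pool.Agent.GNP.TM

open MeasureTheory Set Metric Pool.Agent.MP_6cbfb8_an
open scoped ENNReal Real RealInnerProductSpace ContDiff

theorem cap_scale0 (d : ℕ) (p : ℝ) (hp : 0 < p) (α : E d → ℂ) (Φ h : E d → ℝ) (c ρ : ℝ)
    (hρ : 0 < ρ) (h0 : h 0 = 0) : ∫⁻ s : ℝ, ∫⁻ x, ‖uu (fun y => α (ρ⁻¹ • y))
      (ph (fun y => Φ (ρ⁻¹ • y)) (fun y => 1 + ρ ^ 2 * h (ρ⁻¹ • y)) c s) x‖ₑ ^ p =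
    ENNReal.ofReal (ρ ^ (d * p - (d + 2))) * ∫⁻ s : ℝ, ∫⁻ x, ‖uu α (ph Φ h c s) x‖ₑ ^ p := by
  rw [cap_scale d p hp _ _ _ c ρ hρ 0 0]
  have h1 : ∀ y : E d, ρ⁻¹ • (0 + ρ • y) = y := fun y => by
    rw [zero_add, smul_smul, inv_mul_cancel₀ hρ.ne', one_smul]
  have h2 : ∀ y : E d, (ρ ^ 2)⁻¹ * (1 + ρ ^ 2 * h y - (1 + ρ ^ 2 * h (ρ⁻¹ • (0 : E d))) -
      ρ * ⟪(0 : E d), y⟫) = h y := fun y => by
    rw [smul_zero, h0, inner_zero_left]
    field_simp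
    ring
  simp only [h1, h2]

theorem cap_iter_scale {U W : Type*} [NormedAddCommGroup U] [NormedSpace ℝ U]
    [NormedAddCommGroup W] [NormedSpace ℝ W] {f : U → W} (hf : ContDiff ℝ ∞ f) (ρ : ℝ) (j : ℕ)
    (y : U) : ‖iteratedFDeriv ℝ j (fun y => f (ρ • y)) y‖ ≤
      |ρ| ^ j * ‖iteratedFDeriv ℝ j f (ρ • y)‖ := by
  set T : U →L[ℝ] U := ρ • ContinuousLinearMap.id ℝ U with hT
  have h1 : (fun y => f (ρ • y)) = f ∘ T := by
    funext y
    simp [hT]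
  have h2 := T.iteratedFDeriv_comp_right hf y (i := j) (by exact_mod_cast le_top)
  have h3 : ‖T‖ ≤ |ρ| := by
    rw [hT, norm_smul, Real.norm_eq_abs]
    exact mul_le_of_le_one_right (abs_nonneg _) ContinuousLinearMap.norm_id_le
  have h4 : T y = ρ • y := by simp [hT]
  rw [h1, h2, h4]
  refine (ContinuousMultilinearMap.norm_compContinuousLinearMap_le _ _).trans ?_
  rw [Finset.prod_const, Finset.card_univ, Fintype.card_fin, mul_comm]
  gcongr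

theorem cap_iter_sub {U W : Type*} [NormedAddCommGroup U] [NormedSpace ℝ U]
    [NormedAddCommGroup W] [NormedSpace ℝ W] (f : U → W) (w : W) (n : ℕ) (hn : 1 ≤ n) (x : U) :
    ‖iteratedFDeriv ℝ n (fun y => f y - w) x‖ = ‖iteratedFDeriv ℝ n f x‖ := by
  obtain ⟨k, rfl⟩ : ∃ k, n = k + 1 := ⟨n - 1, by omega⟩
  rw [← norm_iteratedFDeriv_fderiv, ← norm_iteratedFDeriv_fderiv]
  have h1 : fderiv ℝ (fun y => f y - w) = fderiv ℝ f := by
    funext y
    exact fderiv_sub_const w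
  rw [h1]

theorem cap_comp {U V W : Type*} [NormedAddCommGroup U] [NormedSpace ℝ U] [NormedAddCommGroup V]
    [NormedSpace ℝ V] [NormedAddCommGroup W] [NormedSpace ℝ W] {g : V → W} {f : U → V} {x : U}
    (hg : ContDiffAt ℝ ∞ g (f x)) (hf : ContDiffAt ℝ ∞ f x) (n : ℕ) (hn : 1 ≤ n) {C D : ℝ}
    (hC0 : 0 ≤ C) (hC : ∀ i, 1 ≤ i → i ≤ n → ‖iteratedFDeriv ℝ i g (f x)‖ ≤ C)
    (hD : ∀ i, 1 ≤ i → i ≤ n → ‖iteratedFDeriv ℝ i f x‖ ≤ D ^ i) :
    ‖iteratedFDeriv ℝ n (fun y => g (f y)) x‖ ≤ n.factorial * C * D ^ n := by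
  have h1 := chu_comp (g := fun z => g z - g (f x)) (f := f) (x := x) (hg.sub contDiffAt_const) hf n
    (C := C) (D := D) (fun i hi => by
      rcases Nat.eq_zero_or_pos i with rfl | hi0
      · rw [norm_iteratedFDeriv_zero, sub_self, norm_zero]
        exact hC0
      · rw [cap_iter_sub g _ i hi0]
        exact hC i hi0 hi) hD
  rwa [cap_iter_sub (fun y => g (f y)) _ n hn] at h1

theorem cap_mul {d : ℕ} {W : Type*} [NormedAddCommGroup W] [NormedSpace ℝ W] (r2 R : ℝ)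
    (hr2 : r2 < R) (C M : ℕ → ℝ) (η : E d → ℝ) (hη : ContDiff ℝ ∞ η)
    (hC : ∀ j y, ‖iteratedFDeriv ℝ j η y‖ ≤ C j) (h0 : ∀ y, r2 < ‖y‖ → η y = 0) (f : E d → W)
    (hf : ContDiffOn ℝ ∞ f (ball 0 R)) (hM : ∀ j y, ‖y‖ ≤ r2 → ‖iteratedFDeriv ℝ j f y‖ ≤ M j) :
    ContDiff ℝ ∞ (fun y => η y • f y) ∧ ∀ n y, ‖iteratedFDeriv ℝ n (fun y => η y • f y) y‖ ≤
      ∑ i ∈ Finset.range (n + 1), (n.choose i : ℝ) * C i * |M (n - i)| := by
  have hC0 : ∀ j, 0 ≤ C j := fun j => (norm_nonneg _).trans (hC j 0)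
  have hz : ∀ y : E d, r2 < ‖y‖ → (fun w => η w • f w) =ᶠ[nhds y] fun _ => (0 : W) := by
    intro y hy
    have h2 : {w : E d | r2 < ‖w‖} ∈ nhds y :=
      (isOpen_lt continuous_const continuous_norm).mem_nhds hy
    filter_upwards [h2] with w hw
    rw [h0 w hw, zero_smul]
  constructor
  · rw [contDiff_iff_contDiffAt]
    intro y
    by_cases hy : y ∈ ball (0 : E d) R
    · exact (hη.contDiffAt).smul (hf.contDiffAt (isOpen_ball.mem_nhds hy))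
    · have hy1 : R ≤ ‖y‖ := by simpa using hy
      exact contDiffAt_const.congr_of_eventuallyEq (hz y (hr2.trans_le hy1))
  · intro n y
    rcases le_or_gt ‖y‖ r2 with hy | hy
    · have hyb : y ∈ ball (0 : E d) R := by simpa using hy.trans_lt hr2
      refine (chu_smul hη.contDiffAt (hf.contDiffAt (isOpen_ball.mem_nhds hyb)) n).trans ?_
      refine Finset.sum_le_sum fun i _ => ?_
      have h1 := hC i y
      have h2 := (hM (n - i) y hy).trans (le_abs_self _)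
      have h3 := hC0 i
      gcongr
    · rw [(hz y hy).iteratedFDeriv ℝ n |>.eq_of_nhds]
      have : iteratedFDeriv ℝ n (fun _ : E d => (0 : W)) y = 0 := by
        simp
      rw [this, norm_zero]
      exact Finset.sum_nonneg fun i _ => mul_nonneg (mul_nonneg (by positivity) (hC0 i))
        (abs_nonneg _)

theorem cap_bump (d : ℕ) : ∃ (C : ℕ → ℝ) (η : E d → ℝ), ContDiff ℝ ∞ η ∧
    (∀ j y, ‖iteratedFDeriv ℝ j η y‖ ≤ C j) ∧ (∀ y, ‖y‖ ≤ 7 / 10 → η y = 1) ∧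
    ∀ y, 4 / 5 < ‖y‖ → η y = 0 := by
  let χ : ContDiffBump (0 : E d) := ⟨7 / 10, 4 / 5, by norm_num, by norm_num⟩
  have hb : ∀ j : ℕ, ∃ C : ℝ, ∀ y, ‖iteratedFDeriv ℝ j (χ : E d → ℝ) y‖ ≤ C := fun j =>
    (χ.contDiff.continuous_iteratedFDeriv (m := j)
      (by exact_mod_cast le_top)).bounded_above_of_compact_support
      (χ.hasCompactSupport.iteratedFDeriv j)
  choose A hA using hb
  refine ⟨A, χ, χ.contDiff, hA, fun y hy => χ.one_of_mem_closedBall (by simpa using hy),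
    fun y hy => χ.zero_of_le_dist (by simpa using hy.le)⟩

theorem cap_e_norm (d : ℕ) : ‖(join 0 1 : E (d + 1))‖ = 1 := by
  have h1 := norm_join_sq (0 : E d) 1
  rw [norm_zero] at h1
  nlinarith [norm_nonneg (join 0 1 : E (d + 1))]

theorem cap_dist {d : ℕ} (y : E d) (t : ℝ) :
    ‖(join y t : E (d + 1)) - join 0 1‖ ^ 2 = ‖y‖ ^ 2 + (t - 1) ^ 2 := by
  have h1 : (join y t : E (d + 1)) - join 0 1 = join y (t - 1) := by
    ext i
    refine Fin.lastCases ?_ (fun j => ?_) i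
    · simp [join]
    · simp [join]
  rw [h1, norm_join_sq]

theorem cap_near {d : ℕ} {ρ : ℝ} (hρ : 0 < ρ) (hρ1 : ρ ≤ 1) {y : E d} (hy : ‖y‖ < 17 / 20) :
    ρ • y ∈ ball (0 : E d) 1 ∧ ‖(join (ρ • y) (hs (ρ • y)) : E (d + 1))‖ = 1 ∧
      ‖(join (ρ • y) (hs (ρ • y)) : E (d + 1)) - join 0 1‖ ≤ ρ := by
  have h0 : ‖ρ • y‖ = ρ * ‖y‖ := by rw [norm_smul, Real.norm_eq_abs, abs_of_pos hρ]
  have h1 : ρ • y ∈ ball (0 : E d) 1 := by
    rw [mem_ball_zero_iff, h0]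
    nlinarith [norm_nonneg y]
  refine ⟨h1, chu_norm h1, ?_⟩
  have h2 := cha_hs_sq h1
  have h3 := cha_hs_pos h1
  have h4 := cap_dist (ρ • y) (hs (ρ • y))
  refine le_of_sq_le_sq ?_ hρ.le
  rw [h4]
  have h5 : ‖ρ • y‖ ^ 2 + (hs (ρ • y) - 1) ^ 2 = 2 - 2 * hs (ρ • y) := by nlinarith
  rw [h5]
  have h6 : (1 - ρ ^ 2 / 2) ^ 2 ≤ hs (ρ • y) ^ 2 := by
    have h7 : hs (ρ • y) ^ 2 = 1 - ρ ^ 2 * ‖y‖ ^ 2 := by
      rw [h0] at h2
      nlinarith
    rw [h7]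
    have h8 : ‖y‖ ^ 2 ≤ 289 / 400 := by nlinarith [norm_nonneg y]
    have h9 : ρ ^ 2 ≤ 1 := by nlinarith
    nlinarith [sq_nonneg ρ, mul_le_mul_of_nonneg_left h8 (sq_nonneg ρ)]
  have h10 : 1 - ρ ^ 2 / 2 ≤ hs (ρ • y) := by
    by_contra hc
    push Not at hc
    nlinarith
  linarith

theorem cap_graph (d : ℕ) : ∃ D : ℕ → ℝ, (∀ j, 0 ≤ D j) ∧ ∀ (W : Type)
    [NormedAddCommGroup W] [NormedSpace ℝ W] (f : E (d + 1) → W) (B : ℕ → ℝ) (ρ : ℝ), 0 < ρ →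
    ρ ≤ 1 → (∀ x, ‖x‖ = 1 → ‖x - join 0 1‖ ≤ ρ → ContDiffAt ℝ ∞ f x ∧
      ∀ j, 1 ≤ j → ‖iteratedFDeriv ℝ j f x‖ ≤ B j / ρ ^ j) →
    ContDiffOn ℝ ∞ (fun y : E d => f (join (ρ • y) (hs (ρ • y)))) (ball 0 (17 / 20)) ∧
    ∀ j, 1 ≤ j → ∀ y : E d, ‖y‖ ≤ 4 / 5 →
      ‖iteratedFDeriv ℝ j (fun y : E d => f (join (ρ • y) (hs (ρ • y)))) y‖ ≤
        j.factorial * (∑ i ∈ Finset.range (j + 1), |B i|) * D j ^ j := by
  obtain ⟨A, g, hg1, hg2, hg3, -⟩ := cha_cut (9 / 10) (by norm_num)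
    (fun y : E d => (join y (hs y) : E (d + 1))) cha_graph_smooth
  have hA0 : ∀ j, 0 ≤ A j := fun j => (norm_nonneg _).trans (hg2 j 0)
  have hS0 : ∀ j, 0 ≤ ∑ i ∈ Finset.range (j + 1), A i := fun j =>
    Finset.sum_nonneg fun i _ => hA0 i
  refine ⟨fun j => 1 + ∑ i ∈ Finset.range (j + 1), A i, fun j => by linarith [hS0 j],
    fun W _ _ f B ρ hρ hρ1 hf => ?_⟩
  have hsm : ∀ y : E d, ‖y‖ < 17 / 20 →
      ContDiffAt ℝ ∞ (fun y : E d => (join (ρ • y) (hs (ρ • y)) : E (d + 1))) y := by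
    intro y hy
    have h1 := (cap_near hρ hρ1 hy).1
    exact ContDiffAt.comp (g := fun y : E d => (join y (hs y) : E (d + 1))) y
      (cha_graph_smooth.contDiffAt (isOpen_ball.mem_nhds h1))
      ((contDiff_const_smul ρ).contDiffAt)
  refine ⟨fun y hy => ?_, fun j hj y hy => ?_⟩
  · have hy' : ‖y‖ < 17 / 20 := by simpa using hy
    obtain ⟨-, h2, h3⟩ := cap_near hρ hρ1 hy'
    exact (ContDiffAt.comp (g := f) y (hf _ h2 h3).1 (hsm y hy')).contDiffWithinAt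
  · have hy' : ‖y‖ < 17 / 20 := by linarith
    obtain ⟨-, h2, h3⟩ := cap_near hρ hρ1 hy'
    obtain ⟨h4, h5⟩ := hf _ h2 h3
    have hB0 : 0 ≤ ∑ i ∈ Finset.range (j + 1), |B i| := Finset.sum_nonneg fun i _ => abs_nonneg _
    have h6 := cap_comp (g := f) (f := fun y : E d => (join (ρ • y) (hs (ρ • y)) : E (d + 1)))
      (x := y) h4 (hsm y hy') j hj (C := (∑ i ∈ Finset.range (j + 1), |B i|) / ρ ^ j)
      (D := ρ * (1 + ∑ i ∈ Finset.range (j + 1), A i)) (by positivity) (fun i hi1 hi => ?_)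
      (fun i hi1 hi => ?_)
    · refine h6.trans (le_of_eq ?_)
      rw [mul_pow]
      have : ρ ^ j ≠ 0 := by positivity
      field_simp
    · have h7 : |B i| ≤ ∑ i ∈ Finset.range (j + 1), |B i| :=
        Finset.single_le_sum (f := fun i => |B i|) (fun i _ => abs_nonneg _)
          (Finset.mem_range.2 (by omega))
      have h8 : ρ ^ j ≤ ρ ^ i := pow_le_pow_of_le_one hρ.le hρ1 hi
      calc ‖iteratedFDeriv ℝ i f (join (ρ • y) (hs (ρ • y)))‖ ≤ B i / ρ ^ i := h5 i hi1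
        _ ≤ |B i| / ρ ^ i := div_le_div_of_nonneg_right (le_abs_self _) (by positivity)
        _ ≤ |B i| / ρ ^ j := div_le_div_of_nonneg_left (abs_nonneg _) (by positivity) h8
        _ ≤ _ := div_le_div_of_nonneg_right h7 (by positivity)
    · have h9 : (fun y : E d => (join (ρ • y) (hs (ρ • y)) : E (d + 1))) =ᶠ[nhds y]
          fun y => g (ρ • y) := by
        have h10 : {w : E d | ‖w‖ < 17 / 20} ∈ nhds y :=
          (isOpen_lt continuous_norm continuous_const).mem_nhds hy'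
        filter_upwards [h10] with w hw
        refine (hg3 _ ?_).symm
        rw [norm_smul, Real.norm_eq_abs, abs_of_pos hρ]
        have : ‖w‖ < 17 / 20 := hw
        nlinarith [norm_nonneg w]
      rw [h9.iteratedFDeriv ℝ i |>.eq_of_nhds]
      have h11 : A i ≤ ∑ i ∈ Finset.range (j + 1), A i :=
        Finset.single_le_sum (f := A) (fun i _ => hA0 i) (Finset.mem_range.2 (by omega))
      have h12 := hS0 j
      calc ‖iteratedFDeriv ℝ i (fun y => g (ρ • y)) y‖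
          ≤ |ρ| ^ i * ‖iteratedFDeriv ℝ i g (ρ • y)‖ := cap_iter_scale hg1 ρ i y
        _ ≤ ρ ^ i * (1 + ∑ i ∈ Finset.range (j + 1), A i) := by
            rw [abs_of_pos hρ]
            have := hg2 i (ρ • y)
            gcongr
            linarith
        _ ≤ ρ ^ i * (1 + ∑ i ∈ Finset.range (j + 1), A i) ^ i := by
            gcongr
            exact le_self_pow₀ (by linarith) (by omega)
        _ = _ := by rw [mul_pow]

/-- The distance of the points over the ball of radius `ρ / 2` to the pole. -/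
theorem cap_near2 {d : ℕ} {ρ : ℝ} (hρ : 0 < ρ) (hρ1 : ρ ≤ 1) {y : E d} (hy : ‖y‖ ≤ ρ / 2) :
    ‖(join y (hs y) : E (d + 1)) - join 0 1‖ ≤ 3 / 5 * ρ := by
  have h1 : y ∈ ball (0 : E d) 1 := by
    rw [mem_ball_zero_iff]
    linarith
  have h2 := cha_hs_sq h1
  have h3 := cha_hs_pos h1
  have h4 := cap_dist y (hs y)
  refine le_of_sq_le_sq ?_ (by positivity)
  rw [h4]
  have h5 : ‖y‖ ^ 2 + (hs y - 1) ^ 2 = 2 - 2 * hs y := by nlinarith
  rw [h5]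
  have h8 : ‖y‖ ^ 2 ≤ ρ ^ 2 / 4 := by nlinarith [norm_nonneg y]
  have h9 : ρ ^ 2 ≤ 1 := by nlinarith
  have h6 : (1 - 9 / 50 * ρ ^ 2) ^ 2 ≤ hs y ^ 2 := by
    have h7 : hs y ^ 2 = 1 - ‖y‖ ^ 2 := by linarith
    rw [h7]
    nlinarith [sq_nonneg ρ, mul_le_mul_of_nonneg_left h9 (sq_nonneg ρ)]
  have h10 : 1 - 9 / 50 * ρ ^ 2 ≤ hs y := by
    by_contra hc
    push Not at hc
    nlinarith
  nlinarith

theorem cap_pole (d : ℕ) (hd : 1 ≤ d) (p : ℝ) (hp : 1 ≤ p) (G : ℝ → ℝ≥0∞) (hcore : CoreG d p G)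
    (B : ℕ → ℝ) : ∃ C : ℝ≥0∞, C ≠ ⊤ ∧ ∀ (ρ : ℝ) (φ : E (d + 1) → ℝ)
      (a : E (d + 1) → ℂ), 0 < ρ → ρ ≤ 1 →
      (∀ x, ‖x‖ = 1 → ‖x - join 0 1‖ ≤ ρ → ContDiffAt ℝ ∞ φ x ∧
        ∀ j, 1 ≤ j → ‖iteratedFDeriv ℝ j φ x‖ ≤ B j / ρ ^ j) →
      (∀ x, ‖x‖ = 1 → ‖x - join 0 1‖ ≤ ρ → ContDiffAt ℝ ∞ a x ∧
        ∀ j, ‖iteratedFDeriv ℝ j a x‖ ≤ B j / ρ ^ j) →
      (∀ x, ‖x‖ = 1 → ρ / 2 < ‖x - join 0 1‖ → a x = 0) → ∀ c : ℝ,
      ∫⁻ ξ, ‖extn (fun x => a x * Complex.exp (((c * φ x : ℝ) : ℂ) * Complex.I)) ξ‖ₑ ^ p ≤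
        C * ENNReal.ofReal (ρ ^ (d * p - (d + 2))) * G c := by
  obtain ⟨D, hD0, hD⟩ := cap_graph d
  obtain ⟨Cη, η, hη, hηb, hη1, hη0⟩ := cap_bump d
  obtain ⟨Ah, hh⟩ := cap_h d
  obtain ⟨r2, -, hcut⟩ := chu_cut (d := d) (9 / 10) (by norm_num)
  obtain ⟨Cζ, ζ, hζ, hζb, hζ1, -⟩ := hcut (fun y => 1 / hs y)
    (contDiffOn_const.div cha_hs_smooth fun y hy => (cha_hs_pos hy).ne')
  have hCη0 : ∀ j, 0 ≤ Cη j := fun j => (norm_nonneg _).trans (hηb j 0)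
  have hCζ0 : ∀ j, 0 ≤ Cζ j := fun j => (norm_nonneg _).trans (hζb j 0)
  set M : ℕ → ℝ := fun j => j.factorial * (∑ i ∈ Finset.range (j + 1), |B i|) * D j ^ j with hM
  have hM0 : ∀ j, 0 ≤ M j := fun j => by
    have : 0 ≤ ∑ i ∈ Finset.range (j + 1), |B i| := Finset.sum_nonneg fun i _ => abs_nonneg _
    have := pow_nonneg (hD0 j) j
    simp only [hM]
    positivity
  set M1 : ℕ → ℝ := fun j => if j = 0 then M 1 else M j with hM1
  set M2 : ℕ → ℝ := fun j => if j = 0 then |B 0| else M j with hM2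
  set C2 : ℕ → ℝ := fun n => ∑ i ∈ Finset.range (n + 1), (n.choose i : ℝ) * Cη i * |Cζ (n - i)|
    with hC2
  set A1 : ℕ → ℝ := fun n => ∑ i ∈ Finset.range (n + 1), (n.choose i : ℝ) * Cη i * |M1 (n - i)|
    with hA1
  set A2 : ℕ → ℝ := fun n => ∑ i ∈ Finset.range (n + 1), (n.choose i : ℝ) * C2 i * |M2 (n - i)|
    with hA2
  obtain ⟨K, hK, hcore⟩ := hcore (fun j => max (Ah j) (max (A1 j) (A2 j))) (1 / 2) (3 / 5) 1
    (by norm_num) (by norm_num) one_pos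
  refine ⟨K, hK, fun ρ φ a hρ hρ1 hφ ha ha0 c => ?_⟩
  obtain ⟨h, hhS, hh1, hhD⟩ := hh ρ hρ hρ1
  set e : E (d + 1) := join 0 1 with he
  have he1 : ‖e‖ = 1 := cap_e_norm d
  -- the phase
  obtain ⟨f1, f2⟩ := hD ℝ φ B ρ hρ hρ1 hφ
  obtain ⟨f3, f4⟩ := hD ℂ a B ρ hρ hρ1 fun x hx hx' => ⟨(ha x hx hx').1, fun j _ => (ha x hx hx').2 j⟩
  set F : E d → ℝ := fun y => φ (join (ρ • y) (hs (ρ • y))) - φ e with hF
  set H : E d → ℂ := fun y => a (join (ρ • y) (hs (ρ • y))) with hH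
  have hX0 : (join (ρ • (0 : E d)) (hs (ρ • (0 : E d))) : E (d + 1)) = e := by
    simp [hs, he]
  have hF1 : ContDiffOn ℝ ∞ F (ball 0 (17 / 20)) := f1.sub contDiffOn_const
  have hFb : ∀ j (y : E d), ‖y‖ ≤ 4 / 5 → ‖iteratedFDeriv ℝ j F y‖ ≤ M1 j := by
    intro j y hy
    rcases Nat.eq_zero_or_pos j with rfl | hj
    · rw [norm_iteratedFDeriv_zero]
      simp only [hM1, if_true]
      have hd1 : ∀ z ∈ closedBall (0 : E d) (4 / 5), DifferentiableAt ℝ F z := fun z hz =>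
        (hF1.contDiffAt (isOpen_ball.mem_nhds (by
          rw [mem_ball_zero_iff]
          rw [mem_closedBall_zero_iff] at hz
          linarith))).differentiableAt (by simp)
      have hd2 : ∀ z ∈ closedBall (0 : E d) (4 / 5), ‖fderiv ℝ F z‖ ≤ M 1 := fun z hz => by
        rw [← norm_iteratedFDeriv_one, cap_iter_sub _ _ 1 le_rfl]
        exact f2 1 le_rfl z (by simpa using hz)
      have h1 := (convex_closedBall (0 : E d) (4 / 5)).norm_image_sub_le_of_norm_fderiv_le hd1 hd2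
        (mem_closedBall_self (by norm_num)) (by simpa using hy : y ∈ closedBall (0 : E d) (4 / 5))
      have h2 : F 0 = 0 := by
        simp only [hF, hX0, sub_self]
      rw [h2, sub_zero, sub_zero] at h1
      refine h1.trans ?_
      have := hM0 1
      nlinarith [norm_nonneg y]
    · simp only [hM1, if_neg (by omega : ¬ j = 0)]
      rw [cap_iter_sub _ _ j hj]
      exact f2 j hj y hy
  have hHb : ∀ j (y : E d), ‖y‖ ≤ 4 / 5 → ‖iteratedFDeriv ℝ j H y‖ ≤ M2 j := by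
    intro j y hy
    rcases Nat.eq_zero_or_pos j with rfl | hj
    · rw [norm_iteratedFDeriv_zero]
      simp only [hM2, if_true, hH]
      obtain ⟨-, h2, h3⟩ := cap_near hρ hρ1 (by linarith : ‖y‖ < 17 / 20)
      have h4 := (ha _ h2 h3).2 0
      rw [norm_iteratedFDeriv_zero, pow_zero, div_one] at h4
      exact h4.trans (le_abs_self _)
    · simp only [hM2, if_neg (by omega : ¬ j = 0)]
      exact f4 j hj y hy
  obtain ⟨g1, g2⟩ := cap_mul (4 / 5) (17 / 20) (by norm_num) Cη M1 η hη hηb hη0 F hF1 hFb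
  -- the cut-off with the Jacobian
  set η2 : E d → ℝ := fun y => η y • ζ (ρ • y) with hη2
  have hζs : ContDiff ℝ ∞ fun y : E d => ζ (ρ • y) := hζ.comp (contDiff_const_smul ρ)
  have hζsb : ∀ j (y : E d), ‖iteratedFDeriv ℝ j (fun y : E d => ζ (ρ • y)) y‖ ≤ Cζ j := by
    intro j y
    refine (cap_iter_scale hζ ρ j y).trans ?_
    have h1 : |ρ| ^ j ≤ 1 := pow_le_one₀ (abs_nonneg _) (by rwa [abs_of_pos hρ])
    calc |ρ| ^ j * ‖iteratedFDeriv ℝ j ζ (ρ • y)‖ ≤ 1 * Cζ j :=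
          mul_le_mul h1 (hζb j _) (norm_nonneg _) zero_le_one
      _ = Cζ j := one_mul _
  obtain ⟨g3, g4⟩ := cap_mul (4 / 5) 1 (by norm_num) Cη Cζ η hη hηb hη0 (fun y => ζ (ρ • y))
    hζs.contDiffOn fun j y _ => hζsb j y
  have hη20 : ∀ y, 4 / 5 < ‖y‖ → η2 y = 0 := fun y hy => by
    simp only [hη2, hη0 y hy, zero_smul]
  obtain ⟨g5, g6⟩ := cap_mul (4 / 5) (17 / 20) (by norm_num) C2 M2 η2 g3 g4 hη20 H f3 hHb
  set Φ : E d → ℝ := fun y => η y • F y with hΦ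
  set α : E d → ℂ := fun y => η2 y • H y with hα
  have hα0 : ∀ y, 1 / 2 < ‖y‖ → α y = 0 := by
    intro y hy
    rcases le_or_gt ‖y‖ (4 / 5) with h1 | h1
    · obtain ⟨h2, h3, -⟩ := cap_near hρ hρ1 (by linarith : ‖y‖ < 17 / 20)
      have h4 : H y = 0 := by
        refine ha0 _ h3 ?_
        have h5 := cap_dist (ρ • y) (hs (ρ • y))
        have h6 : ‖ρ • y‖ = ρ * ‖y‖ := by rw [norm_smul, Real.norm_eq_abs, abs_of_pos hρ]
        by_contra hc
        push Not at hc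
        rw [h6] at h5
        have h7 : (ρ / 2) ^ 2 < (ρ * ‖y‖) ^ 2 := by
          apply pow_lt_pow_left₀ _ (by positivity) (by norm_num)
          nlinarith
        nlinarith [sq_nonneg (hs (ρ • y) - 1), norm_nonneg
          ((join (ρ • y) (hs (ρ • y)) : E (d + 1)) - join 0 1)]
      simp only [hα, h4, smul_zero]
    · simp only [hα, hη20 y h1, zero_smul]
  have hSΦ : Sm d (fun j => max (Ah j) (max (A1 j) (A2 j))) Φ :=
    ⟨g1, fun j y => (g2 j y).trans ((le_max_left _ _).trans (le_max_right _ _))⟩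
  have hSh : Sm d (fun j => max (Ah j) (max (A1 j) (A2 j))) h :=
    ⟨hhS.sm, fun j y => (hhS.bd j y).trans (le_max_left _ _)⟩
  have hSα : Amp d (fun j => max (Ah j) (max (A1 j) (A2 j))) (1 / 2) α :=
    ⟨g5, hα0, fun j y => (g6 j y).trans ((le_max_right _ _).trans (le_max_right _ _))⟩
  have key := hcore Φ h α hSΦ hSh hSα hhD c
  -- the sphere
  let χ : ContDiffBump e := ⟨3 / 5 * ρ, 9 / 10 * ρ, by positivity, by nlinarith⟩
  have hχ1 : ∀ x, ‖x - e‖ ≤ 3 / 5 * ρ → χ x = 1 := fun x hx =>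
    χ.one_of_mem_closedBall (by simpa [dist_eq_norm] using hx)
  have hχ0 : ∀ x, 9 / 10 * ρ ≤ ‖x - e‖ → χ x = 0 := fun x hx =>
    χ.zero_of_le_dist (by simpa [dist_eq_norm] using hx)
  set φ2 : E (d + 1) → ℝ := fun x => χ x * (φ x - φ e) with hφ2
  have hcφ : ContinuousOn φ2 (sphere 0 1) := by
    intro x hx
    have hx1 : ‖x‖ = 1 := by simpa using hx
    rcases le_or_gt ‖x - e‖ ρ with h1 | h1
    · exact (χ.continuous.continuousAt.mul
        ((hφ x hx1 h1).1.continuousAt.sub continuousAt_const)).continuousWithinAt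
    · have h2 : {w : E (d + 1) | 9 / 10 * ρ < ‖w - e‖} ∈ nhds x :=
        (isOpen_lt continuous_const (continuous_norm.comp (continuous_id.sub
          continuous_const))).mem_nhds (show 9 / 10 * ρ < ‖x - e‖ by linarith)
      have h3 : φ2 =ᶠ[nhds x] fun _ => 0 := by
        filter_upwards [h2] with w hw
        simp only [hφ2, hχ0 w (le_of_lt hw), zero_mul]
      exact (continuousAt_const.congr h3.symm).continuousWithinAt
  have hca : ContinuousOn a (sphere 0 1) := by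
    intro x hx
    have hx1 : ‖x‖ = 1 := by simpa using hx
    rcases le_or_gt ‖x - e‖ ρ with h1 | h1
    · exact (ha x hx1 h1).1.continuousAt.continuousWithinAt
    · have h2 : {w : E (d + 1) | ρ / 2 < ‖w - e‖} ∈ nhds x :=
        (isOpen_lt continuous_const (continuous_norm.comp (continuous_id.sub
          continuous_const))).mem_nhds (show ρ / 2 < ‖x - e‖ by linarith)
      have h3 : a =ᶠ[nhdsWithin x (sphere 0 1)] fun _ => 0 := by
        filter_upwards [mem_nhdsWithin_of_mem_nhds h2, self_mem_nhdsWithin] with w hw hw'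
        exact ha0 w (by simpa using hw') hw
      exact continuousWithinAt_const.congr_of_eventuallyEq h3
        (ha0 x hx1 (by linarith))
  have hext : ∀ ξ, ‖extn (fun x => a x * Complex.exp (((c * φ x : ℝ) : ℂ) * Complex.I)) ξ‖ₑ =
      ‖extn (fun x => a x * Complex.exp (((c * φ2 x : ℝ) : ℂ) * Complex.I)) ξ‖ₑ := by
    intro ξ
    have h1 : extn (fun x => a x * Complex.exp (((c * φ x : ℝ) : ℂ) * Complex.I)) ξ =
        Complex.exp (((c * φ e : ℝ) : ℂ) * Complex.I) *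
          extn (fun x => a x * Complex.exp (((c * φ2 x : ℝ) : ℂ) * Complex.I)) ξ := by
      unfold extn
      rw [← integral_const_mul]
      refine integral_congr_ae (Filter.Eventually.of_forall fun x => ?_)
      have hx1 : ‖(x : E (d + 1))‖ = 1 := by simp
      simp only
      rcases le_or_gt ‖(x : E (d + 1)) - e‖ (ρ / 2) with h2 | h2
      · have h3 : φ2 x = φ x - φ e := by
          simp only [hφ2, hχ1 x (by linarith), one_mul]
        have h4 : Complex.exp (((c * φ (x : E (d + 1)) : ℝ) : ℂ) * Complex.I) =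
            Complex.exp (((c * φ e : ℝ) : ℂ) * Complex.I) *
              Complex.exp (((c * φ2 x : ℝ) : ℂ) * Complex.I) := by
          rw [← Complex.exp_add, h3]
          congr 1
          push_cast
          ring
        rw [h4]
        ring
      · rw [ha0 x hx1 h2]
        simp
    rw [h1, enorm_mul]
    have h5 : ‖Complex.exp (((c * φ e : ℝ) : ℂ) * Complex.I)‖ₑ = 1 := by
      rw [← ofReal_norm, Complex.norm_exp_ofReal_mul_I, ENNReal.ofReal_one]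
    rw [h5, one_mul]
  simp only [hext]
  obtain ⟨n, rfl⟩ : ∃ n, d = n + 1 := ⟨d - 1, by omega⟩
  have hr1 : ρ / 2 < 1 := by linarith
  have hlt := ch_lint_on n (ρ / 2) hr1 a hca φ2 hcφ (fun y t hyt hc => ?_)
    (fun y => α (ρ⁻¹ • y)) (fun y => Φ (ρ⁻¹ • y)) (fun y => 1 + ρ ^ 2 * h (ρ⁻¹ • y))
    (fun y hy => ?_) (fun y hy => ?_) (fun y hy => ?_) (fun y hy => ?_) p c
  · refine hlt.trans ?_
    rw [cap_scale0 (n + 1) p (by linarith) α Φ h c ρ hρ (by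
      rw [hh1 0 (by rw [norm_zero]; norm_num), smul_zero]
      simp [hs])]
    calc ENNReal.ofReal (ρ ^ (((n + 1 : ℕ) : ℝ) * p - (((n + 1 : ℕ) : ℝ) + 2))) *
          ∫⁻ s : ℝ, ∫⁻ x, ‖uu α (ph Φ h c s) x‖ₑ ^ p
        ≤ ENNReal.ofReal (ρ ^ (((n + 1 : ℕ) : ℝ) * p - (((n + 1 : ℕ) : ℝ) + 2))) * (K * G c) :=
          mul_le_mul_right key _
      _ = _ := by ring
  · -- support
    have h1 : ‖(join y t : E (n + 1 + 1))‖ = 1 := by
      have h5 := norm_join_sq y t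
      rw [hyt] at h5
      nlinarith [norm_nonneg (join y t : E (n + 1 + 1))]
    refine ha0 _ h1 ?_
    have h2 := cap_dist y t
    by_contra hcc
    push Not at hcc
    have h3 : ‖(join y t : E (n + 1 + 1)) - join 0 1‖ ^ 2 ≤ (ρ / 2) ^ 2 :=
      pow_le_pow_left₀ (norm_nonneg _) hcc 2
    rcases hc with hc | hc
    · nlinarith [sq_nonneg (t - 1), norm_nonneg y]
    · nlinarith [sq_nonneg ‖y‖]
  · -- the amplitude
    have h0 : ρ • (ρ⁻¹ • y) = y := by rw [smul_smul, mul_inv_cancel₀ hρ.ne', one_smul]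
    have h1 : ‖ρ⁻¹ • y‖ ≤ 1 / 2 := by
      rw [norm_smul, Real.norm_eq_abs, abs_of_pos (inv_pos.2 hρ), inv_mul_le_iff₀ hρ]
      linarith
    simp only [hα, hη2, hH, h0]
    rw [hη1 _ (by linarith), one_smul, hζ1 y (by linarith), Complex.real_smul]
  · refine hα0 _ ?_
    rw [norm_smul, Real.norm_eq_abs, abs_of_pos (inv_pos.2 hρ), ← div_eq_inv_mul, lt_div_iff₀ hρ]
    linarith
  · have h0 : ρ • (ρ⁻¹ • y) = y := by rw [smul_smul, mul_inv_cancel₀ hρ.ne', one_smul]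
    have h1 : ‖ρ⁻¹ • y‖ ≤ 1 / 2 := by
      rw [norm_smul, Real.norm_eq_abs, abs_of_pos (inv_pos.2 hρ), inv_mul_le_iff₀ hρ]
      linarith
    simp only [hΦ, hF, h0, hφ2]
    rw [hη1 _ (by linarith), one_smul, hχ1 _ (cap_near2 hρ hρ1 hy), one_mul]
  · have h0 : ρ • (ρ⁻¹ • y) = y := by rw [smul_smul, mul_inv_cancel₀ hρ.ne', one_smul]
    have h1 : ‖ρ⁻¹ • y‖ ≤ 1 / 2 := by
      rw [norm_smul, Real.norm_eq_abs, abs_of_pos (inv_pos.2 hρ), inv_mul_le_iff₀ hρ]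
      linarith
    rw [hh1 _ (by linarith), h0]
    field_simp
    ring

theorem cap (d : ℕ) (hd : 1 ≤ d) (p : ℝ) (hp : 1 ≤ p) (G : ℝ → ℝ≥0∞) (hcore : CoreG d p G)
    (B : ℕ → ℝ) : ∃ C : ℝ≥0∞, C ≠ ⊤ ∧ ∀ (x0 : E (d + 1)) (ρ : ℝ) (φ : E (d + 1) → ℝ)
      (a : E (d + 1) → ℂ), ‖x0‖ = 1 → 0 < ρ → ρ ≤ 1 →
      (∀ x, ‖x‖ = 1 → ‖x - x0‖ ≤ ρ → ContDiffAt ℝ ∞ φ x ∧
        ∀ j, 1 ≤ j → ‖iteratedFDeriv ℝ j φ x‖ ≤ B j / ρ ^ j) →
      (∀ x, ‖x‖ = 1 → ‖x - x0‖ ≤ ρ → ContDiffAt ℝ ∞ a x ∧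
        ∀ j, ‖iteratedFDeriv ℝ j a x‖ ≤ B j / ρ ^ j) →
      (∀ x, ‖x‖ = 1 → ρ / 2 < ‖x - x0‖ → a x = 0) → ∀ c : ℝ,
      ∫⁻ ξ, ‖extn (fun x => a x * Complex.exp (((c * φ x : ℝ) : ℂ) * Complex.I)) ξ‖ₑ ^ p ≤
        C * ENNReal.ofReal (ρ ^ (d * p - (d + 2))) * G c := by
  obtain ⟨C, hC, h⟩ := cap_pole d hd p hp G hcore B
  refine ⟨C, hC, fun x0 ρ φ a hx0 hρ hρ1 hφ ha ha0 c => ?_⟩
  set e : E (d + 1) := join 0 1 with he
  have he1 : ‖e‖ = 1 := cap_e_norm d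
  set R : E (d + 1) ≃ₗᵢ[ℝ] E (d + 1) := (ℝ ∙ (e - x0))ᗮ.reflection with hR
  have hRe : R e = x0 := Submodule.reflection_sub (by rw [he1, hx0])
  have hd1 : ∀ x, ‖R x - x0‖ = ‖x - e‖ := fun x => by
    rw [← hRe, ← map_sub, LinearIsometryEquiv.norm_map]
  have hn1 : ∀ x, ‖R x‖ = ‖x‖ := fun x => LinearIsometryEquiv.norm_map R x
  have hit : ∀ {W : Type} [NormedAddCommGroup W] [NormedSpace ℝ W] (f : E (d + 1) → W) (j : ℕ)
      (x : E (d + 1)), ‖iteratedFDeriv ℝ j (fun x => f (R x)) x‖ = ‖iteratedFDeriv ℝ j f (R x)‖ := by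
    intro W _ _ f j x
    exact R.norm_iteratedFDeriv_comp_right (𝕜 := ℝ) f x j
  have key := h ρ (fun x => φ (R x)) (fun x => a (R x)) hρ hρ1 (fun x hx hx' => ?_)
    (fun x hx hx' => ?_) (fun x hx hx' => ?_) c
  · rw [← lint_extn_iso _ R]
    exact key
  · obtain ⟨h1, h2⟩ := hφ (R x) (by rw [hn1, hx]) (by rwa [hd1])
    exact ⟨ContDiffAt.comp (g := φ) x h1 R.contDiff.contDiffAt, fun j hj => by
      rw [hit]; exact h2 j hj⟩
  · obtain ⟨h1, h2⟩ := ha (R x) (by rw [hn1, hx]) (by rwa [hd1])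
    exact ⟨ContDiffAt.comp (g := a) x h1 R.contDiff.contDiffAt, fun j => by
      rw [hit]; exact h2 j⟩
  · exact ha0 (R x) (by rw [hn1, hx]) (by rwa [hd1])

end Pool.Agent.GNP.TM
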