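import Pool.Agent.MP_6cbfb8_an.Defs

/-!
One cap: finitely many derivatives are enough.
-/

namespace Pool.Agent.GNP.TM

open MeasureTheory Set Pool.Agent.MP_6cbfb8_an
open scoped ENNReal Real RealInnerProductSpace ContDiff

/-- The bound `G` for one cap, for phases and amplitudes with given bounds of all derivatives. -/
def CapS (d : ℕ) (p : ℝ) (G : ℝ → ℝ≥0∞) : Prop :=
  ∀ B : ℕ → ℝ, ∃ C : ℝ≥0∞, C ≠ ⊤ ∧ ∀ (x0 : E (d + 1)) (ρ : ℝ) (φ : E (d + 1) → ℝ)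
      (a : E (d + 1) → ℂ), ‖x0‖ = 1 → 0 < ρ → ρ ≤ 1 →
      (∀ x, ‖x‖ = 1 → ‖x - x0‖ ≤ ρ → ContDiffAt ℝ ∞ φ x ∧
        ∀ j, 1 ≤ j → ‖iteratedFDeriv ℝ j φ x‖ ≤ B j / ρ ^ j) →
      (∀ x, ‖x‖ = 1 → ‖x - x0‖ ≤ ρ → ContDiffAt ℝ ∞ a x ∧
        ∀ j, ‖iteratedFDeriv ℝ j a x‖ ≤ B j / ρ ^ j) →
      (∀ x, ‖x‖ = 1 → ρ / 2 < ‖x - x0‖ → a x = 0) → ∀ c : ℝ,
      ∫⁻ ξ, ‖extn (fun x => a x * Complex.exp (((c * φ x : ℝ) : ℂ) * Complex.I)) ξ‖ₑ ^ p ≤
        C * ENNReal.ofReal (ρ ^ (d * p - (d + 2))) * G c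

/-- Derivatives are bounded on the compact piece of the sphere. -/
theorem fin_bd {n : ℕ} {F : Type*} [NormedAddCommGroup F] [NormedSpace ℝ F] {f : E n → F}
    {x0 : E n} {ρ : ℝ} (hf : ∀ x, ‖x‖ = 1 → ‖x - x0‖ ≤ ρ → ContDiffAt ℝ ∞ f x) (j : ℕ) :
    ∃ b : ℝ, 0 ≤ b ∧ ∀ x, ‖x‖ = 1 → ‖x - x0‖ ≤ ρ → ‖iteratedFDeriv ℝ j f x‖ ≤ b := by
  have hK : IsCompact (Metric.sphere (0 : E n) 1 ∩ Metric.closedBall x0 ρ) :=
    (isCompact_sphere _ _).inter_right Metric.isClosed_closedBall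
  have hc : ContinuousOn (iteratedFDeriv ℝ j f)
      (Metric.sphere (0 : E n) 1 ∩ Metric.closedBall x0 ρ) := by
    rintro x ⟨hx1, hx2⟩
    have h1 : ContDiffAt ℝ ∞ f x := hf x (mem_sphere_zero_iff_norm.1 hx1) (by
      rwa [← dist_eq_norm, ← Metric.mem_closedBall])
    have h2 : ContDiffAt ℝ 0 (iteratedFDeriv ℝ j f) x :=
      h1.iteratedFDeriv_right (m := 0) (i := j) (by
        rw [zero_add]
        exact_mod_cast le_top)
    exact h2.continuousAt.continuousWithinAt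
  obtain ⟨b, hb⟩ := hK.exists_bound_of_continuousOn hc
  refine ⟨|b|, abs_nonneg _, fun x hx1 hx2 => ?_⟩
  exact (hb x ⟨mem_sphere_zero_iff_norm.2 hx1, by
    rwa [Metric.mem_closedBall, dist_eq_norm]⟩).trans (le_abs_self _)

theorem fin_smul {n : ℕ} {F : Type*} [NormedAddCommGroup F] [NormedSpace ℝ F]
    {f : E n → F} {x : E n} (hf : ContDiffAt ℝ ∞ f x) (r : ℝ) (j : ℕ) :
    ContDiffAt ℝ ∞ (fun y => r • f y) x ∧
      ‖iteratedFDeriv ℝ j (fun y => r • f y) x‖ = |r| * ‖iteratedFDeriv ℝ j f x‖ := by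
  refine ⟨hf.const_smul r, ?_⟩
  have h1 : iteratedFDeriv ℝ j (fun y => r • f y) x = r • iteratedFDeriv ℝ j f x :=
    iteratedFDeriv_const_smul_apply' (a := r) (hf.of_le (by exact_mod_cast le_top))
  rw [h1, norm_smul, Real.norm_eq_abs]

theorem fin_extn {n : ℕ} (r : ℝ) (g : E n → ℂ) (ξ : E n) :
    extn (fun x => (r : ℂ) * g x) ξ = (r : ℂ) * extn g ξ := by
  unfold extn
  rw [← integral_const_mul]
  refine integral_congr_ae (Filter.Eventually.of_forall fun x => ?_)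
  simp only
  ring

/-- One cap: finitely many derivatives, phases and amplitudes of any size. -/
theorem cap_fin {d : ℕ} {p ε : ℝ} (hp : 1 ≤ p) (hε : 0 < ε)
    (hcap : CapS d p fun c => ENNReal.ofReal ((1 + |c|) ^ ε)) :
    ∃ (k : ℕ) (C : ℝ≥0∞), C ≠ ⊤ ∧ ∀ (x0 : E (d + 1)) (ρ T M : ℝ) (ψ : E (d + 1) → ℝ)
      (a : E (d + 1) → ℂ), ‖x0‖ = 1 → 0 < ρ → ρ ≤ 1 → 0 ≤ T → 0 ≤ M →
      (∀ x, ‖x‖ = 1 → ‖x - x0‖ ≤ ρ → ContDiffAt ℝ ∞ ψ x ∧
        ∀ j, 1 ≤ j → j ≤ k → ‖iteratedFDeriv ℝ j ψ x‖ ≤ T / ρ ^ j) →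
      (∀ x, ‖x‖ = 1 → ‖x - x0‖ ≤ ρ → ContDiffAt ℝ ∞ a x ∧
        ∀ j, j ≤ k → ‖iteratedFDeriv ℝ j a x‖ ≤ M / ρ ^ j) →
      (∀ x, ‖x‖ = 1 → ρ / 2 < ‖x - x0‖ → a x = 0) →
      ∫⁻ ξ, ‖extn (fun x => a x * Complex.exp (((ψ x : ℝ) : ℂ) * Complex.I)) ξ‖ₑ ^ p ≤
        C * ENNReal.ofReal (M ^ p * ρ ^ (d * p - (d + 2)) * (1 + T) ^ ε) := by
  by_contra hcon
  have hp0 : 0 < p := by linarith
  have H : ∀ m : ℕ, ∃ (x0 : E (d + 1)) (ρ T M : ℝ) (ψ : E (d + 1) → ℝ)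
      (a : E (d + 1) → ℂ), ‖x0‖ = 1 ∧ 0 < ρ ∧ ρ ≤ 1 ∧ 0 ≤ T ∧ 0 < M ∧
      (∀ x, ‖x‖ = 1 → ‖x - x0‖ ≤ ρ → ContDiffAt ℝ ∞ ψ x ∧
        ∀ j, 1 ≤ j → j ≤ m → ‖iteratedFDeriv ℝ j ψ x‖ ≤ T / ρ ^ j) ∧
      (∀ x, ‖x‖ = 1 → ‖x - x0‖ ≤ ρ → ContDiffAt ℝ ∞ a x ∧
        ∀ j, j ≤ m → ‖iteratedFDeriv ℝ j a x‖ ≤ M / ρ ^ j) ∧
      (∀ x, ‖x‖ = 1 → ρ / 2 < ‖x - x0‖ → a x = 0) ∧
      (m : ℝ≥0∞) * ENNReal.ofReal (M ^ p * ρ ^ (d * p - (d + 2)) * (1 + T) ^ ε) <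
        ∫⁻ ξ, ‖extn (fun x => a x * Complex.exp (((ψ x : ℝ) : ℂ) * Complex.I)) ξ‖ₑ ^ p := by
    intro m
    by_contra h
    refine hcon ⟨m, m, ENNReal.natCast_ne_top m, fun x0 ρ T M ψ a h1 h2 h3 h4 h5 h6 h7 h8 => ?_⟩
    rcases h5.eq_or_lt with h5' | h5'
    · have h9 : ∀ x : S (d + 1), a x * Complex.exp (((ψ x : ℝ) : ℂ) * Complex.I) = 0 := by
        intro x
        have hx : ‖(x : E (d + 1))‖ = 1 := mem_sphere_zero_iff_norm.1 x.2
        have h10 : a x = 0 := by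
          by_cases h : ‖(x : E (d + 1)) - x0‖ ≤ ρ
          · have h11 := (h7 x hx h).2 0 (Nat.zero_le _)
            rw [norm_iteratedFDeriv_zero, ← h5', zero_div] at h11
            exact norm_le_zero_iff.1 h11
          · exact h8 x hx (by linarith [not_le.1 h])
        rw [h10, zero_mul]
      have h10 : ∀ ξ, extn (fun x => a x * Complex.exp (((ψ x : ℝ) : ℂ) * Complex.I)) ξ = 0 := by
        intro ξ
        unfold extn
        simp only [h9, zero_mul, integral_zero]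
      simp only [h10, enorm_zero, ENNReal.zero_rpow_of_pos hp0, lintegral_zero]
      exact zero_le
    · by_contra h9
      exact h ⟨x0, ρ, T, M, ψ, a, h1, h2, h3, h4, h5', h6, h7, h8, not_le.1 h9⟩
  choose x0 ρ T M ψ a h1 h2 h3 h4 h5 h6 h7 h8 h9 using H
  -- the normalised phases and amplitudes
  set φ : ℕ → E (d + 1) → ℝ := fun m x => (1 + T m)⁻¹ • ψ m x with hφ
  set α : ℕ → E (d + 1) → ℂ := fun m x => (M m)⁻¹ • a m x with hα
  have hT : ∀ m, 0 < 1 + T m := fun m => by linarith [h4 m]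
  choose b hb0 hb using fun m j => fin_bd (f := φ m) (x0 := x0 m) (ρ := ρ m)
    (fun x hx hx' => (fin_smul (h6 m x hx hx').1 (1 + T m)⁻¹ 0).1) j
  choose b' hb'0 hb' using fun m j => fin_bd (f := α m) (x0 := x0 m) (ρ := ρ m)
    (fun x hx hx' => (fin_smul (h7 m x hx hx').1 (M m)⁻¹ 0).1) j
  set B : ℕ → ℝ := fun j => 1 + ∑ m ∈ Finset.range j, (b m j + b' m j) with hB
  have hB1 : ∀ j, 1 ≤ B j := fun j => by
    have : 0 ≤ ∑ m ∈ Finset.range j, (b m j + b' m j) :=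
      Finset.sum_nonneg fun m _ => add_nonneg (hb0 m j) (hb'0 m j)
    rw [hB]
    simp only
    linarith
  have hBb : ∀ m j, m < j → b m j ≤ B j ∧ b' m j ≤ B j := by
    intro m j hmj
    have h := Finset.single_le_sum (f := fun m => b m j + b' m j)
      (fun m _ => add_nonneg (hb0 m j) (hb'0 m j)) (Finset.mem_range.2 hmj)
    have := hb0 m j
    have := hb'0 m j
    rw [hB]
    simp only at h ⊢
    constructor <;> linarith
  have hpow : ∀ m j, (1 : ℝ) ≤ 1 / ρ m ^ j := fun m j => by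
    rw [le_div_iff₀ (pow_pos (h2 m) j), one_mul]
    exact pow_le_one₀ (h2 m).le (h3 m)
  have hup : ∀ m j, B j ≤ B j / ρ m ^ j := fun m j => by
    have := mul_le_mul_of_nonneg_left (hpow m j) (zero_le_one.trans (hB1 j))
    rwa [mul_one, mul_one_div] at this
  obtain ⟨C, hC, hcap⟩ := hcap B
  have key : ∀ m, ∫⁻ ξ, ‖extn (fun x => a m x * Complex.exp (((ψ m x : ℝ) : ℂ) * Complex.I)) ξ‖ₑ
      ^ p ≤ (C * ENNReal.ofReal (2 ^ ε)) *
        ENNReal.ofReal (M m ^ p * ρ m ^ (d * p - (d + 2)) * (1 + T m) ^ ε) := by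
    intro m
    have h10 := hcap (x0 m) (ρ m) (φ m) (α m) (h1 m) (h2 m) (h3 m) ?_ ?_ ?_ (1 + T m)
    · have h11 : ∀ x, a m x * Complex.exp (((ψ m x : ℝ) : ℂ) * Complex.I) =
          ((M m : ℝ) : ℂ) * (α m x * Complex.exp ((((1 + T m) * φ m x : ℝ) : ℂ) * Complex.I)) := by
        intro x
        have e1 : (1 + T m) * φ m x = ψ m x := by
          rw [hφ]
          simp only [smul_eq_mul]
          rw [← mul_assoc, mul_inv_cancel₀ (hT m).ne', one_mul]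
        have e2 : ((M m : ℝ) : ℂ) * α m x = a m x := by
          rw [hα]
          simp only [Complex.real_smul]
          rw [← mul_assoc, ← Complex.ofReal_mul, mul_inv_cancel₀ (h5 m).ne', Complex.ofReal_one,
            one_mul]
        rw [e1, ← mul_assoc, e2]
      have h12 : ∀ ξ, ‖extn (fun x => a m x * Complex.exp (((ψ m x : ℝ) : ℂ) * Complex.I)) ξ‖ₑ ^ p =
          ENNReal.ofReal (M m ^ p) * ‖extn (fun x => α m x *
            Complex.exp ((((1 + T m) * φ m x : ℝ) : ℂ) * Complex.I)) ξ‖ₑ ^ p := by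
        intro ξ
        rw [funext h11, fin_extn, enorm_mul, ENNReal.mul_rpow_of_nonneg _ _ hp0.le]
        congr 1
        rw [← ENNReal.ofReal_rpow_of_nonneg (h5 m).le hp0.le, ← ofReal_norm, Complex.norm_real,
          Real.norm_of_nonneg (h5 m).le]
      simp only [h12]
      rw [lintegral_const_mul' _ _ ENNReal.ofReal_ne_top]
      refine (mul_le_mul_right h10 _).trans ?_
      have h13 : (1 + |1 + T m|) ^ ε ≤ 2 ^ ε * (1 + T m) ^ ε := by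
        rw [← Real.mul_rpow (by norm_num) (hT m).le]
        refine Real.rpow_le_rpow (by positivity) ?_ hε.le
        rw [abs_of_pos (hT m)]
        linarith [h4 m]
      have h14 : 0 ≤ M m ^ p := Real.rpow_nonneg (h5 m).le _
      have h15 : 0 ≤ ρ m ^ (d * p - (d + 2)) := Real.rpow_nonneg (h2 m).le _
      calc ENNReal.ofReal (M m ^ p) * (C * ENNReal.ofReal (ρ m ^ (d * p - (d + 2))) *
            ENNReal.ofReal ((1 + |1 + T m|) ^ ε))
          ≤ ENNReal.ofReal (M m ^ p) * (C * ENNReal.ofReal (ρ m ^ (d * p - (d + 2))) *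
            ENNReal.ofReal (2 ^ ε * (1 + T m) ^ ε)) := by
              gcongr
        _ = _ := by
              rw [ENNReal.ofReal_mul (by positivity), ENNReal.ofReal_mul (by positivity),
                ENNReal.ofReal_mul h14]
              ring
    · intro x hx hx'
      have e := fun j => fin_smul (h6 m x hx hx').1 (1 + T m)⁻¹ j
      refine ⟨(e 0).1, fun j hj => ?_⟩
      rcases Nat.lt_or_ge m j with hmj | hmj
      · exact (hb m j x hx hx').trans ((hBb m j hmj).1.trans (hup m j))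
      · rw [(e j).2, abs_of_pos (inv_pos.2 (hT m))]
        calc (1 + T m)⁻¹ * ‖iteratedFDeriv ℝ j (ψ m) x‖ ≤ (1 + T m)⁻¹ * (T m / ρ m ^ j) :=
              mul_le_mul_of_nonneg_left ((h6 m x hx hx').2 j hj hmj) (inv_pos.2 (hT m)).le
          _ = ((1 + T m)⁻¹ * T m) / ρ m ^ j := by ring
          _ ≤ B j / ρ m ^ j := by
              refine div_le_div_of_nonneg_right ?_ (pow_pos (h2 m) j).le
              refine le_trans ?_ (hB1 j)
              rw [inv_mul_le_iff₀ (hT m)]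
              linarith
    · intro x hx hx'
      have e := fun j => fin_smul (h7 m x hx hx').1 (M m)⁻¹ j
      refine ⟨(e 0).1, fun j => ?_⟩
      rcases Nat.lt_or_ge m j with hmj | hmj
      · exact (hb' m j x hx hx').trans ((hBb m j hmj).2.trans (hup m j))
      · rw [(e j).2, abs_of_pos (inv_pos.2 (h5 m))]
        calc (M m)⁻¹ * ‖iteratedFDeriv ℝ j (a m) x‖ ≤ (M m)⁻¹ * (M m / ρ m ^ j) :=
              mul_le_mul_of_nonneg_left ((h7 m x hx hx').2 j hmj) (inv_pos.2 (h5 m)).le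
          _ = 1 / ρ m ^ j := by
              rw [← mul_div_assoc, inv_mul_cancel₀ (h5 m).ne']
          _ ≤ B j / ρ m ^ j := div_le_div_of_nonneg_right (hB1 j) (pow_pos (h2 m) j).le
    · intro x hx hx'
      show (M m)⁻¹ • a m x = 0
      rw [h8 m x hx hx', smul_zero]
  obtain ⟨m, hm⟩ := ENNReal.exists_nat_gt
    (ENNReal.mul_ne_top hC (ENNReal.ofReal_ne_top (r := (2 : ℝ) ^ ε)))
  have h10 := (h9 m).trans_le (key m)
  exact absurd h10 (not_lt.2 (mul_le_mul_left hm.le _))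

end Pool.Agent.GNP.TM
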