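import Pool.Agent.GNP.TMo4
import Pool.Agent.GNP.PUe

/-!
Phases with singularities: orthogonality of caps.
-/

namespace Pool.Agent.GNP.TM

open MeasureTheory Set Pool.Agent.MP_6cbfb8_an
open scoped ENNReal Real RealInnerProductSpace ContDiff

theorem orth (n M : ℕ) (p : ℝ) (hp : 2 ≤ p) : ∃ C : ℝ≥0∞, C ≠ ⊤ ∧ ∀ (N : ℕ) (ρ : ℝ)
      (x : Fin N → E n) (g : Fin N → E n → ℂ), 0 < ρ → ρ ≤ 1 →
      (∀ i, ContinuousOn (g i) (Metric.sphere 0 1)) →
      (∀ i y, ‖y‖ = 1 → ρ < ‖y - x i‖ → g i y = 0) →
      (∀ y, {i | ‖y - x i‖ < 4 * ρ}.encard ≤ M) →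
      ∫⁻ ξ, ‖extn (fun y => ∑ i, g i y) ξ‖ₑ ^ p ≤
        C * (N : ℝ≥0∞) ^ (p - 2) * ∑ i, ∫⁻ ξ, ‖extn (g i) ξ‖ₑ ^ p := by
  obtain ⟨C, hC, h⟩ := orth_caps n p hp
  refine ⟨ENNReal.ofReal (C * M), ENNReal.ofReal_ne_top, ?_⟩
  intro N ρ x g hρ _ hg hs hM
  set g' : Fin N → E n → ℂ := fun i => (S n).indicator (g i) with hg'
  have hSm : MeasurableSet (S n) := Metric.isClosed_sphere.measurableSet
  have hgm : ∀ i, Measurable (g' i) := by
    intro i
    have h1 : Measurable fun y : S n => g i y := (hg i).domRestrict.measurable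
    refine measurable_of_restrict_of_restrict_compl hSm ?_ ?_
    · have h2 : (S n).domRestrict (g' i) = fun y : S n => g i y := by
        funext y
        simp only [hg', domRestrict_apply]
        exact indicator_of_mem y.2 _
      rw [h2]
      exact h1
    · have h2 : (S n)ᶜ.domRestrict (g' i) = fun _ => 0 := by
        funext y
        simp only [hg', domRestrict_apply]
        exact indicator_of_notMem y.2 _
      rw [h2]
      exact measurable_const
  have hbd : ∃ B : ℝ, ∀ i y, ‖g' i y‖ ≤ B := by
    have h1 : ∀ i, ∃ B : ℝ, ∀ y ∈ S n, ‖g i y‖ ≤ B := fun i =>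
      (isCompact_sphere (0 : E n) 1).exists_bound_of_continuousOn (hg i)
    choose B hB using h1
    refine ⟨∑ i, |B i|, fun i y => ?_⟩
    have h2 : |B i| ≤ ∑ i, |B i| :=
      Finset.single_le_sum (f := fun i => |B i|) (fun i _ => abs_nonneg _) (Finset.mem_univ i)
    by_cases hy : y ∈ S n
    · simp only [hg']
      rw [indicator_of_mem hy]
      exact (hB i y hy).trans ((le_abs_self _).trans h2)
    · simp only [hg']
      rw [indicator_of_notMem hy, norm_zero]
      exact Finset.sum_nonneg fun i _ => abs_nonneg _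
  obtain ⟨B, hB⟩ := hbd
  have hext : ∀ i, extn (g' i) = extn (g i) := by
    intro i
    funext ξ
    refine extn_congr (fun y => ?_) ξ
    simp only [hg']
    exact indicator_of_mem y.2 _
  have hmain := h (Fin N) M x g' B ρ hρ hgm hB (fun i y hy hy' => by
      simp only [hg']
      rw [indicator_of_mem hy]
      exact hs i y (by simpa using hy) hy') (fun i => by
      refine le_trans (Set.encard_le_encard ?_) (hM (x i))
      intro j hj
      simp only [mem_ofPred_eq] at hj ⊢
      linarith)
  have hsum : ∀ ξ, extn (fun y => ∑ i, g i y) ξ = ∑ i, extn (g' i) ξ := by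
    intro ξ
    unfold extn
    rw [← integral_finsetSum]
    · refine integral_congr_ae (Filter.Eventually.of_forall fun y => ?_)
      simp only [hg']
      rw [Finset.sum_mul]
      refine Finset.sum_congr rfl fun i _ => ?_
      rw [indicator_of_mem y.2]
    · intro i _
      refine (integrable_const B).mono' ?_ (Filter.Eventually.of_forall fun y => ?_)
      · have h1 : Measurable fun y : S n => g' i y := (hgm i).comp measurable_subtype_coe
        have h2 : Measurable fun y : S n =>
            Complex.exp (((-(2 * π * inner ℝ (y : E n) ξ) : ℝ) : ℂ) * Complex.I) :=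
          Continuous.measurable (by fun_prop)
        exact (h1.mul h2).aestronglyMeasurable
      · rw [norm_mul, Complex.norm_exp_ofReal_mul_I, mul_one]
        exact hB i y
  simp only [hsum]
  refine hmain.trans (le_of_eq ?_)
  simp only [hext, Fintype.card_fin]
  congr 1
  rw [ENNReal.ofReal_mul (by positivity), ← ENNReal.ofReal_rpow_of_nonneg (by positivity)
    (by linarith), ENNReal.ofReal_natCast]

end Pool.Agent.GNP.TM
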