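import Pool.Agent.GNP.TMasmC
import Pool.Agent.GNP.TMcap
import Pool.Agent.GNP.TMfin
import Pool.Agent.GNP.TMp
import Pool.Agent.GNP.TMorth

/-!
# [TAME] ASM: the assembly over CAP, ORTH and PART.
-/

set_option autoImplicit false

namespace Pool.Agent.GNP.TM

open MeasureTheory Set Filter Topology Pool.Agent.MP_6cbfb8_an
open scoped ENNReal ContDiff Real

/-- Phases: at the points `x` of the unit sphere whose ball of radius `r ≤ 1` does not meet `Sig`,
smooth, the derivatives of order `1 ≤ j ≤ k` are at most `lam / r^(A+j)`. -/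
def PhsF {n : ℕ} (k A : ℕ) (lam : ℝ) (Sig : Set (E n)) (ψ : E n → ℝ) : Prop :=
  ∀ x, ‖x‖ = 1 → ∀ r : ℝ, 0 < r → r ≤ 1 → Disjoint (Metric.ball x r) Sig →
    ContDiffAt ℝ ∞ ψ x ∧ ∀ j, 1 ≤ j → j ≤ k → ‖iteratedFDeriv ℝ j ψ x‖ ≤ lam / r ^ (A + j)

/-- Amplitudes: the same, the derivatives of order `j ≤ k` are at most `1 / r^j`. -/
def AmsF {n : ℕ} (k : ℕ) (Sig : Set (E n)) (a : E n → ℂ) : Prop :=
  ∀ x, ‖x‖ = 1 → ∀ r : ℝ, 0 < r → r ≤ 1 → Disjoint (Metric.ball x r) Sig →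
    ContDiffAt ℝ ∞ a x ∧ ∀ j, j ≤ k → ‖iteratedFDeriv ℝ j a x‖ ≤ 1 / r ^ j

theorem asm_rk_pos (k : ℕ) : 0 < rk k := by unfold rk; positivity

theorem asm_rk_le (k : ℕ) : rk k ≤ 1 := by
  unfold rk
  have : (1 / 2 : ℝ) ^ k ≤ 1 := pow_le_one₀ (by norm_num) (by norm_num)
  linarith

/-- A point off the closure of `Sig` has a small ball which does not meet `Sig`. -/
theorem asm_ball {n : ℕ} {Sig : Set (E n)} {x : E n} (hx : x ∉ closure Sig) :
    ∃ r : ℝ, 0 < r ∧ r ≤ 1 ∧ Disjoint (Metric.ball x r) Sig := by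
  have h1 : (closure Sig)ᶜ ∈ 𝓝 x := isClosed_closure.isOpen_compl.mem_nhds hx
  obtain ⟨r, hr, h2⟩ := Metric.mem_nhds_iff.1 h1
  refine ⟨min r 1, lt_min hr one_pos, min_le_right _ _, ?_⟩
  rw [Set.disjoint_left]
  intro y hy hyS
  exact h2 (Metric.ball_subset_ball (min_le_left _ _) hy) (subset_closure hyS)

theorem asm_card (N : ℕ) (p : ℝ) :
    (N : ℝ≥0∞) ^ (p - 2) * N ≤ ENNReal.ofReal ((N : ℝ) ^ (p - 1)) := by
  rcases Nat.eq_zero_or_pos N with h | h
  · subst h
    simp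
  · have hN : (0 : ℝ) < N := by exact_mod_cast h
    have e1 : (N : ℝ≥0∞) = ENNReal.ofReal (N : ℝ) := by simp
    rw [e1, ENNReal.ofReal_rpow_of_pos hN, ← ENNReal.ofReal_mul (by positivity)]
    refine ENNReal.ofReal_le_ofReal (le_of_eq ?_)
    have : (N : ℝ) ^ (p - 1) = (N : ℝ) ^ (p - 2) * (N : ℝ) ^ (1 : ℝ) := by
      rw [← Real.rpow_add hN]
      congr 1
      ring
    rw [this, Real.rpow_one]

/-- Amplitude times a bump: Leibniz with finitely many derivatives. -/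
theorem asm_mul {n : ℕ} (k : ℕ) (B : ℕ → ℝ) {ρ : ℝ} (hρ : 0 < ρ) {b : E n → ℝ} {a : E n → ℂ}
    {x : E n} (hb : ContDiff ℝ ∞ b) (hbb : ∀ j y, ‖iteratedFDeriv ℝ j b y‖ ≤ B j / ρ ^ j)
    (ha : ContDiffAt ℝ ∞ a x) (hab : ∀ j, j ≤ k → ‖iteratedFDeriv ℝ j a x‖ ≤ 1 / ρ ^ j) :
    ContDiffAt ℝ ∞ (fun y => (b y : ℂ) * a y) x ∧ ∀ j, j ≤ k →
      ‖iteratedFDeriv ℝ j (fun y => (b y : ℂ) * a y) x‖ ≤
        (∑ m ∈ Finset.range (k + 1), ∑ i ∈ Finset.range (m + 1),
          (m.choose i : ℝ) * |B i|) / ρ ^ j := by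
  have e : (fun y => (b y : ℂ) * a y) = fun y => b y • a y := by
    funext y
    rw [Complex.real_smul]
  rw [e]
  refine ⟨hb.contDiffAt.smul ha, fun j hj => ?_⟩
  refine (tm_smul_at hb.contDiffAt ha j).trans ?_
  have h1 : ∑ i ∈ Finset.range (j + 1),
      (j.choose i : ℝ) * ‖iteratedFDeriv ℝ i b x‖ * ‖iteratedFDeriv ℝ (j - i) a x‖ ≤
      (∑ i ∈ Finset.range (j + 1), (j.choose i : ℝ) * |B i|) / ρ ^ j := by
    rw [Finset.sum_div]
    refine Finset.sum_le_sum fun i hi => ?_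
    have hij : i ≤ j := Nat.lt_succ_iff.mp (Finset.mem_range.mp hi)
    calc (j.choose i : ℝ) * ‖iteratedFDeriv ℝ i b x‖ * ‖iteratedFDeriv ℝ (j - i) a x‖
        ≤ (j.choose i : ℝ) * (|B i| / ρ ^ i) * (1 / ρ ^ (j - i)) := by
          have h2 : ‖iteratedFDeriv ℝ i b x‖ ≤ |B i| / ρ ^ i :=
            (hbb i x).trans (div_le_div_of_nonneg_right (le_abs_self _) (by positivity))
          have h3 := hab (j - i) (by omega)
          gcongr
      _ = (j.choose i : ℝ) * |B i| / ρ ^ j := by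
          have : ρ ^ j = ρ ^ i * ρ ^ (j - i) := by rw [← pow_add]; congr 1; omega
          rw [this]
          field_simp
  refine h1.trans (div_le_div_of_nonneg_right ?_ (by positivity))
  exact Finset.single_le_sum (f := fun m => ∑ i ∈ Finset.range (m + 1),
    (m.choose i : ℝ) * |B i|) (fun m _ => Finset.sum_nonneg fun i _ => by positivity)
    (Finset.mem_range.2 (by omega))

/-- Phases with singularities, over the core statement. -/
theorem tame_fin (d : ℕ) (hd : 1 ≤ d) (p κ : ℝ) (hp : 2 ≤ p) (hκ : 0 ≤ κ)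
    (hexp : κ * (p - 1) < d * p - (d + 2))
    (hcore : ∀ ε : ℝ, 0 < ε → CoreG d p fun c => ENNReal.ofReal ((1 + |c|) ^ ε))
    (A : ℕ) (V ε : ℝ) (hV : 0 ≤ V) (hε : 0 < ε) : ∃ (k : ℕ) (C : ℝ≥0∞), C ≠ ⊤ ∧
    ∀ (Sig : Set (E (d + 1))) (lam : ℝ) (ψ : E (d + 1) → ℝ) (a : E (d + 1) → ℂ),
      0 ≤ lam → Cov V κ Sig → PhsF k A lam Sig ψ → AmsF k Sig a →
      ∫⁻ ξ, ‖extn (fun x => a x * Complex.exp (((ψ x : ℝ) : ℂ) * Complex.I)) ξ‖ₑ ^ p ≤
        C * ENNReal.ofReal ((1 + lam) ^ ε) := by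
  set e1 : ℝ := d * p - (d + 2) with he1
  -- the small exponent
  set gap : ℝ := e1 - κ * (p - 1) with hgap
  have hgap0 : 0 < gap := by rw [hgap]; linarith
  have hA : (0 : ℝ) ≤ A := Nat.cast_nonneg A
  set δ : ℝ := min ε (gap / (2 * ((A : ℝ) + 1))) with hδ
  have hδ0 : 0 < δ := lt_min hε (by positivity)
  have hδε : δ ≤ ε := min_le_left _ _
  have hAδ : (A : ℝ) * δ ≤ gap / 2 := by
    have h1 : δ ≤ gap / (2 * ((A : ℝ) + 1)) := min_le_right _ _
    have h2 : (A : ℝ) * δ ≤ A * (gap / (2 * ((A : ℝ) + 1))) := mul_le_mul_of_nonneg_left h1 hA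
    have h3 : (A : ℝ) * (gap / (2 * ((A : ℝ) + 1))) ≤
        ((A : ℝ) + 1) * (gap / (2 * ((A : ℝ) + 1))) := by
      have : 0 ≤ gap / (2 * ((A : ℝ) + 1)) := by positivity
      nlinarith
    have h4 : ((A : ℝ) + 1) * (gap / (2 * ((A : ℝ) + 1))) = gap / 2 := by
      have : (A : ℝ) + 1 ≠ 0 := by positivity
      field_simp
    linarith
  -- the constants
  obtain ⟨k0, C1, hC1, hcap⟩ := cap_fin (by linarith : 1 ≤ p) hδ0
    (fun B => cap d hd p (by linarith) _ (hcore δ hδ0) B)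
  obtain ⟨B, M, C0, hC0, hpart⟩ := part (d + 1) (by omega) κ hκ
  obtain ⟨C2, hC2, horth⟩ := orth (d + 1) M p hp
  set M0 : ℝ := ∑ m ∈ Finset.range (k0 + 1), ∑ i ∈ Finset.range (m + 1),
    (m.choose i : ℝ) * |B i| with hM0
  have hM00 : 0 ≤ M0 := Finset.sum_nonneg fun m _ => Finset.sum_nonneg fun i _ => by positivity
  set θ : ℝ := (2 : ℝ) ^ (κ * (p - 1) - e1 + A * δ) with hθ
  have hθ0 : 0 < θ := Real.rpow_pos_of_pos two_pos _
  have hθ1 : θ < 1 := by
    rw [hθ]
    refine Real.rpow_lt_one_of_one_lt_of_neg one_lt_two ?_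
    have : κ * (p - 1) - e1 + A * δ = -gap + A * δ := by rw [hgap]; ring
    linarith
  obtain ⟨K3, hK3, hsum⟩ := tm_sumN (volume : Measure (E (d + 1))) p (by linarith) θ hθ0 hθ1
  set c0 : ℝ := 1 / 8 with hc0
  have hc0p : 0 < c0 := by rw [hc0]; norm_num
  set V' : ℝ := C0 * (1 + V) with hV'
  have hV'0 : 0 < V' := by positivity
  set L : ℝ := V' ^ (p - 1) * c0 ^ e1 * (1 + c0 ^ (-(A : ℝ))) ^ δ with hL
  have hL0 : 0 < L := by
    have h2 : 0 < c0 ^ (-(A : ℝ)) := Real.rpow_pos_of_pos hc0p _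
    have h3 : 0 < c0 ^ e1 := Real.rpow_pos_of_pos hc0p _
    positivity
  refine ⟨k0, ENNReal.ofReal K3 * (C2 * C1 * ENNReal.ofReal (M0 ^ p * L)), ?_,
    fun Sig lam ψ a hl hcov hψ ha => ?_⟩
  · exact ENNReal.mul_ne_top ENNReal.ofReal_ne_top
      (ENNReal.mul_ne_top (ENNReal.mul_ne_top hC2 hC1) ENNReal.ofReal_ne_top)
  choose N x b H hN hx hovl hHc hH1 hHs hHn hHσ using hpart V Sig hV hcov
  set w : E (d + 1) → ℂ := fun y => a y * Complex.exp (((ψ y : ℝ) : ℂ) * Complex.I) with hw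
  -- the function off the closure of `Sig`
  have hwc : ∀ y, ‖y‖ = 1 → y ∉ closure Sig → ContinuousAt w y ∧ ‖w y‖ ≤ 1 := by
    intro y hy hyS
    obtain ⟨r, hr0, hr1, hd'⟩ := asm_ball hyS
    obtain ⟨h1, -⟩ := hψ y hy r hr0 hr1 hd'
    obtain ⟨h2, h3⟩ := ha y hy r hr0 hr1 hd'
    refine ⟨h2.continuousAt.mul ?_, ?_⟩
    · exact Complex.continuous_exp.continuousAt.comp
        ((Complex.continuous_ofReal.continuousAt.comp h1.continuousAt).mul continuousAt_const)
    · rw [hw]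
      simp only
      rw [norm_mul, Complex.norm_exp_ofReal_mul_I, mul_one]
      have h4 := h3 0 (Nat.zero_le _)
      rw [norm_iteratedFDeriv_zero] at h4
      simpa using h4
  -- the points near the centres
  have hnear : ∀ K k i y, ‖y - x K k i‖ < 2 * rk k → y ∉ closure Sig := by
    intro K k i y hy hyS
    obtain ⟨-, h1, -⟩ := hx K k i
    have h2 : Disjoint (Metric.ball (x K k i) (2 * rk k)) (closure Sig) :=
      h1.closure_right Metric.isOpen_ball
    exact Set.disjoint_left.1 h2 (mem_ball_iff_norm.2 hy) hyS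
  -- the pieces
  set g : ∀ K k, Fin (N K k) → E (d + 1) → ℂ := fun K k i y => (b K k i y : ℂ) * w y with hg
  have hgc : ∀ K k i, ContinuousOn (g K k i) (Metric.sphere 0 1) := by
    intro K k i y hy
    have hy1 : ‖y‖ = 1 := mem_sphere_zero_iff_norm.1 hy
    obtain ⟨-, -, h3, -, h5⟩ := hx K k i
    refine ContinuousAt.continuousWithinAt ?_
    by_cases hc : ‖y - x K k i‖ < 2 * rk k
    · have h6 := (hwc y hy1 (hnear K k i y hc)).1
      exact (Complex.continuous_ofReal.continuousAt.comp h3.continuous.continuousAt).mul h6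
    · have h6 : ∀ᶠ z in 𝓝 y, rk k / 2 < ‖z - x K k i‖ := by
        have h7 : Continuous fun z => ‖z - x K k i‖ := by fun_prop
        refine h7.continuousAt.eventually_const_lt ?_
        have := asm_rk_pos k
        linarith
      have h8 : (fun _ => (0 : ℂ)) =ᶠ[𝓝 y] g K k i := by
        filter_upwards [h6] with z hz
        rw [hg]
        simp only
        rw [h5 z hz]
        simp
      exact continuousAt_const.congr h8
  -- one piece
  have hone : ∀ K k i, ∫⁻ ξ, ‖extn (g K k i) ξ‖ₑ ^ p ≤ C1 * ENNReal.ofReal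
      (M0 ^ p * rk k ^ e1 * (1 + lam / rk k ^ A) ^ δ) := by
    intro K k i
    obtain ⟨h1, h2, h3, h4, h5⟩ := hx K k i
    have hball : ∀ y, ‖y - x K k i‖ ≤ rk k → Disjoint (Metric.ball y (rk k)) Sig := by
      intro y hy
      refine h2.mono_left fun z hz => ?_
      rw [mem_ball_iff_norm] at hz ⊢
      calc ‖z - x K k i‖ = ‖(z - y) + (y - x K k i)‖ := by congr 1; abel
        _ ≤ ‖z - y‖ + ‖y - x K k i‖ := norm_add_le _ _
        _ < 2 * rk k := by linarith
    have h6 := hcap (x K k i) (rk k) (lam / rk k ^ A) M0 ψ (fun y => (b K k i y : ℂ) * a y) h1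
      (asm_rk_pos k) (asm_rk_le k) (div_nonneg hl (pow_nonneg (asm_rk_pos k).le _)) hM00
      (fun y hy1 hy2 => ?_) (fun y hy1 hy2 => ?_) (fun y _ hy2 => ?_)
    · have e2 : g K k i = fun y => (b K k i y : ℂ) * a y *
          Complex.exp (((ψ y : ℝ) : ℂ) * Complex.I) := by
        funext y
        rw [hg, hw]
        simp only
        ring
      rw [e2]
      exact h6
    · obtain ⟨h7, h8⟩ := hψ y hy1 (rk k) (asm_rk_pos k) (asm_rk_le k) (hball y hy2)
      refine ⟨h7, fun j hj1 hj2 => (h8 j hj1 hj2).trans_eq ?_⟩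
      rw [div_div, ← pow_add]
    · obtain ⟨h7, h8⟩ := ha y hy1 (rk k) (asm_rk_pos k) (asm_rk_le k) (hball y hy2)
      exact asm_mul k0 B (asm_rk_pos k) h3 h4 h7 h8
    · rw [h5 y hy2]
      simp
  -- one layer
  have hlay : ∀ K k, ∫⁻ ξ, ‖extn (fun y => ∑ i, g K k i y) ξ‖ₑ ^ p ≤
      (C2 * C1 * ENNReal.ofReal (M0 ^ p * L) * ENNReal.ofReal ((1 + lam) ^ δ)) *
        ENNReal.ofReal (θ ^ k) := by
    intro K k
    have h1 := horth (N K k) (rk k) (x K k) (g K k) (asm_rk_pos k) (asm_rk_le k) (hgc K k)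
      (fun i y _ hy => ?_) (hovl K k)
    · refine h1.trans ?_
      have hr0 := asm_rk_pos k
      have h2 : ∑ i, ∫⁻ ξ, ‖extn (g K k i) ξ‖ₑ ^ p ≤ (N K k : ℝ≥0∞) * (C1 * ENNReal.ofReal
          (M0 ^ p * rk k ^ e1 * (1 + lam / rk k ^ A) ^ δ)) := by
        refine (Finset.sum_le_sum fun i _ => hone K k i).trans ?_
        rw [Finset.sum_const, Finset.card_univ, Fintype.card_fin, nsmul_eq_mul]
      have h3 := tm_exp e1 κ p A δ V' lam hV'0.le (by linarith) hl hδ0.le hA k (N K k) c0 hc0p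
        (by
          have h4 := hN K k
          rw [← Real.rpow_natCast (2 : ℝ) k, ← Real.rpow_mul zero_le_two] at h4
          exact h4)
      have hrk : c0 * (1 / 2 : ℝ) ^ k = rk k := rfl
      rw [hrk] at h3
      have h5 : 1 + lam / rk k ^ A ≤ 1 + (1 + lam) * rk k ^ (-(A : ℝ)) := by
        rw [Real.rpow_neg hr0.le, Real.rpow_natCast, ← div_eq_mul_inv]
        have : lam / rk k ^ A ≤ (1 + lam) / rk k ^ A := by
          gcongr
          linarith
        linarith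
      have h6 : (1 + lam / rk k ^ A) ^ δ ≤ (1 + (1 + lam) * rk k ^ (-(A : ℝ))) ^ δ := by
        refine Real.rpow_le_rpow ?_ h5 hδ0.le
        positivity
      have h7 : (N K k : ℝ) ^ (p - 1) * (M0 ^ p * rk k ^ e1 * (1 + lam / rk k ^ A) ^ δ) ≤
          M0 ^ p * L * (1 + lam) ^ δ * θ ^ k := by
        have h8 : (N K k : ℝ) ^ (p - 1) * (rk k ^ e1 * (1 + lam / rk k ^ A) ^ δ) ≤
            L * (1 + lam) ^ δ * θ ^ k := by
          refine le_trans ?_ h3
          gcongr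
        calc (N K k : ℝ) ^ (p - 1) * (M0 ^ p * rk k ^ e1 * (1 + lam / rk k ^ A) ^ δ)
            = M0 ^ p * ((N K k : ℝ) ^ (p - 1) * (rk k ^ e1 * (1 + lam / rk k ^ A) ^ δ)) := by
              ring
          _ ≤ M0 ^ p * (L * (1 + lam) ^ δ * θ ^ k) :=
              mul_le_mul_of_nonneg_left h8 (Real.rpow_nonneg hM00 _)
          _ = _ := by ring
      calc C2 * (N K k : ℝ≥0∞) ^ (p - 2) * ∑ i, ∫⁻ ξ, ‖extn (g K k i) ξ‖ₑ ^ p
          ≤ C2 * (N K k : ℝ≥0∞) ^ (p - 2) * ((N K k : ℝ≥0∞) * (C1 * ENNReal.ofReal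
              (M0 ^ p * rk k ^ e1 * (1 + lam / rk k ^ A) ^ δ))) := mul_le_mul_right h2 _
        _ = C2 * C1 * (((N K k : ℝ≥0∞) ^ (p - 2) * (N K k : ℝ≥0∞)) * ENNReal.ofReal
              (M0 ^ p * rk k ^ e1 * (1 + lam / rk k ^ A) ^ δ)) := by ring
        _ ≤ C2 * C1 * (ENNReal.ofReal ((N K k : ℝ) ^ (p - 1)) * ENNReal.ofReal
              (M0 ^ p * rk k ^ e1 * (1 + lam / rk k ^ A) ^ δ)) := by
            gcongr
            exact asm_card (N K k) p
        _ = C2 * C1 * ENNReal.ofReal ((N K k : ℝ) ^ (p - 1) *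
              (M0 ^ p * rk k ^ e1 * (1 + lam / rk k ^ A) ^ δ)) := by
            rw [← ENNReal.ofReal_mul (p := (N K k : ℝ) ^ (p - 1)) (by positivity)]
        _ ≤ C2 * C1 * ENNReal.ofReal (M0 ^ p * L * (1 + lam) ^ δ * θ ^ k) := by
            gcongr
        _ = _ := by
            rw [ENNReal.ofReal_mul (by positivity), ENNReal.ofReal_mul (by positivity)]
            ring
    · rw [hg]
      simp only
      obtain ⟨-, -, -, -, h5⟩ := hx K k i
      rw [h5 y (by have := asm_rk_pos k; linarith)]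
      simp
  have hGc : ∀ K k, ContinuousOn (fun y => ∑ i, g K k i y) (Metric.sphere 0 1) := by
    intro K k
    exact continuousOn_finsetSum _ fun i _ => hgc K k i
  -- the closure of `Sig` is a null set of the sphere
  have hexpneg : κ - ((d + 1 : ℕ) - 1 : ℝ) < 0 := by
    have h1 : κ * (p - 1) < d * (p - 1) := by
      have : (d : ℝ) * p - (d + 2) < d * (p - 1) := by linarith
      linarith
    have h2 : κ < d := lt_of_mul_lt_mul_right h1 (by linarith)
    push_cast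
    linarith
  have hlim : Tendsto (fun K : ℕ => ENNReal.ofReal (C0 * (1 + V) * ((2 : ℝ) ^ K) ^
      (κ - ((d + 1 : ℕ) - 1 : ℝ)))) atTop (𝓝 0) := by
    have h1 : Tendsto (fun K : ℕ => ((2 : ℝ) ^ K) ^ (κ - ((d + 1 : ℕ) - 1 : ℝ))) atTop (𝓝 0) := by
      set t : ℝ := -(κ - ((d + 1 : ℕ) - 1 : ℝ)) with ht
      have ht0 : 0 < t := by rw [ht]; linarith
      have h2 := (tendsto_rpow_neg_atTop ht0).comp
        (tendsto_pow_atTop_atTop_of_one_lt (one_lt_two (α := ℝ)))
      have e3 : -t = κ - ((d + 1 : ℕ) - 1 : ℝ) := by rw [ht]; ring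
      rw [e3] at h2
      exact h2
    have h3 := ENNReal.tendsto_ofReal (h1.const_mul (C0 * (1 + V)))
    rw [mul_zero, ENNReal.ofReal_zero] at h3
    exact h3
  have hσ : Tendsto (fun K => sm (d + 1) {y : S (d + 1) | H K y ≠ 0}) atTop (𝓝 0) :=
    tendsto_of_tendsto_of_tendsto_of_le_of_le tendsto_const_nhds hlim (fun _ => bot_le) hHσ
  have hcl : sm (d + 1) {y : S (d + 1) | (y : E (d + 1)) ∈ closure Sig} = 0 := by
    refine le_antisymm (ge_of_tendsto' hσ fun K => measure_mono fun y hy => ?_) bot_le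
    have h1 := hHs K y (mem_sphere_zero_iff_norm.1 y.2)
    have h2 : ∑ k ∈ Finset.range K, ∑ i, b K k i y = 0 := by
      refine Finset.sum_eq_zero fun k _ => Finset.sum_eq_zero fun i _ => ?_
      obtain ⟨-, -, -, -, h5⟩ := hx K k i
      refine h5 y ?_
      by_contra h6
      exact hnear K k i y (by have := asm_rk_pos k; linarith) hy
    rw [h2] at h1
    have h3 : H K y = 1 := by linarith
    show H K y ≠ 0
    rw [h3]
    exact one_ne_zero
  have hae : ∀ᵐ y : S (d + 1) ∂(sm (d + 1)), (y : E (d + 1)) ∉ closure Sig := by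
    rw [ae_iff]
    simpa using hcl
  have hwm : AEStronglyMeasurable (fun y : S (d + 1) => w y) (sm (d + 1)) := by
    set U : Set (S (d + 1)) := {y : S (d + 1) | (y : E (d + 1)) ∉ closure Sig} with hU
    have hUo : IsOpen U := isClosed_closure.isOpen_compl.preimage continuous_subtype_val
    have h1 : ContinuousOn (fun y : S (d + 1) => w y) U := by
      intro y hy
      have h2 := (hwc y (mem_sphere_zero_iff_norm.1 y.2) hy).1
      exact (ContinuousAt.comp (f := fun y : S (d + 1) => (y : E (d + 1))) h2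
        continuous_subtype_val.continuousAt).continuousWithinAt
    have h3 := h1.aestronglyMeasurable (μ := sm (d + 1)) hUo.measurableSet
    have h4 : (sm (d + 1)).restrict U = sm (d + 1) := Measure.restrict_eq_self_of_ae_mem hae
    rw [h4] at h3
    exact h3
  have hwb : ∀ᵐ y : S (d + 1) ∂(sm (d + 1)), ‖w y‖ ≤ 1 := by
    filter_upwards [hae] with y hy
    exact (hwc y (mem_sphere_zero_iff_norm.1 y.2) hy).2
  -- the sum
  have hfin := hsum (C2 * C1 * ENNReal.ofReal (M0 ^ p * L) * ENNReal.ofReal ((1 + lam) ^ δ))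
    (fun K k => extn (fun y => ∑ i, g K k i y)) (extn w)
    (fun K k => (tm_meas (hGc K k)).aestronglyMeasurable) hlay ?_
  · refine hfin.trans ?_
    have h1 : (1 + lam) ^ δ ≤ (1 + lam) ^ ε := Real.rpow_le_rpow_of_exponent_le (by linarith) hδε
    calc ENNReal.ofReal K3 * (C2 * C1 * ENNReal.ofReal (M0 ^ p * L) *
          ENNReal.ofReal ((1 + lam) ^ δ))
        = ENNReal.ofReal K3 * (C2 * C1 * ENNReal.ofReal (M0 ^ p * L)) *
          ENNReal.ofReal ((1 + lam) ^ δ) := by ring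
      _ ≤ _ := by gcongr
  · intro ξ
    have h1 : ∀ K, ∑ k ∈ Finset.range K, extn (fun y => ∑ i, g K k i y) ξ =
        extn (fun y => ((1 - H K y : ℝ) : ℂ) * w y) ξ := by
      intro K
      rw [← tm_extn_sum (Finset.range K) (fun k y => ∑ i, g K k i y) (fun k _ => hGc K k) ξ]
      unfold extn
      refine integral_congr_ae (Filter.Eventually.of_forall fun y => ?_)
      simp only
      rw [← hHs K y (mem_sphere_zero_iff_norm.1 y.2)]
      congr 1
      rw [hg]
      simp only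
      push_cast
      rw [Finset.sum_mul]
      refine Finset.sum_congr rfl fun k _ => ?_
      rw [Finset.sum_mul]
    simp_rw [h1]
    rw [tendsto_iff_edist_tendsto_0]
    refine tendsto_of_tendsto_of_tendsto_of_le_of_le tendsto_const_nhds hσ (fun _ => bot_le)
      fun K => ?_
    simp only
    rw [edist_eq_enorm_sub]
    exact tm_rem hwm hwb (hHc K) (hH1 K) ξ

end Pool.Agent.GNP.TM
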