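import Mathlib

/-!
# [TAME] ASM, interface-free half: summation of the layers.
-/

set_option autoImplicit false

namespace Pool.Agent.GNP

open MeasureTheory Set Filter Topology
open scoped ENNReal

/-- Layers with geometrically decreasing `p`-th moments, summed pointwise. -/
theorem tm_sum {X : Type*} [MeasurableSpace X] (μ : Measure X) (p : ℝ) (hp : 1 ≤ p) (θ : ℝ)
    (hθ0 : 0 < θ) (hθ : θ < 1) : ∃ K : ℝ, 0 < K ∧ ∀ (C : ℝ≥0∞) (F : ℕ → X → ℂ) (f : X → ℂ),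
      (∀ k, AEStronglyMeasurable (F k) μ) →
      (∀ k, ∫⁻ ξ, ‖F k ξ‖ₑ ^ p ∂μ ≤ C * ENNReal.ofReal (θ ^ k)) →
      (∀ ξ, Tendsto (fun N => ∑ k ∈ Finset.range N, F k ξ) atTop (𝓝 (f ξ))) →
      ∫⁻ ξ, ‖f ξ‖ₑ ^ p ∂μ ≤ ENNReal.ofReal K * C := by
  have hp0 : 0 < p := by linarith
  set t : ℝ := θ ^ (1 / p) with ht
  have ht0 : 0 < t := Real.rpow_pos_of_pos hθ0 _
  have ht1 : t < 1 := Real.rpow_lt_one hθ0.le hθ (by positivity)
  have hS : 0 < 1 / (1 - t) := by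
    have : 0 < 1 - t := by linarith
    positivity
  refine ⟨(1 / (1 - t)) ^ p, Real.rpow_pos_of_pos hS _, fun C F f hF hb hf => ?_⟩
  set q : ℝ≥0∞ := ENNReal.ofReal p with hq
  have hq0 : q ≠ 0 := by simp [hq, hp0]
  have hqt : q ≠ ∞ := ENNReal.ofReal_ne_top
  have hqp : q.toReal = p := ENNReal.toReal_ofReal hp0.le
  have hq1 : 1 ≤ q := by
    rw [hq, ← ENNReal.ofReal_one]
    exact ENNReal.ofReal_le_ofReal hp
  have e1 : ∀ G : X → ℂ, eLpNorm G q μ = (∫⁻ ξ, ‖G ξ‖ₑ ^ p ∂μ) ^ (1 / p) := by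
    intro G
    rw [eLpNorm_eq_lintegral_rpow_enorm_toReal hq0 hqt, hqp]
  have e2 : ∀ k, eLpNorm (F k) q μ ≤ C ^ (1 / p) * ENNReal.ofReal (t ^ k) := by
    intro k
    rw [e1]
    calc (∫⁻ ξ, ‖F k ξ‖ₑ ^ p ∂μ) ^ (1 / p) ≤ (C * ENNReal.ofReal (θ ^ k)) ^ (1 / p) := by
          gcongr
          exact hb k
      _ = C ^ (1 / p) * ENNReal.ofReal (t ^ k) := by
          rw [ENNReal.mul_rpow_of_nonneg _ _ (by positivity),
            ENNReal.ofReal_rpow_of_nonneg (by positivity) (by positivity)]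
          congr 2
          rw [ht, ← Real.rpow_natCast, ← Real.rpow_natCast, ← Real.rpow_mul hθ0.le,
            ← Real.rpow_mul hθ0.le]
          congr 1
          ring
  have e3 : ∀ N, ∫⁻ ξ, ‖∑ k ∈ Finset.range N, F k ξ‖ₑ ^ p ∂μ ≤
      ENNReal.ofReal ((1 / (1 - t)) ^ p) * C := by
    intro N
    have h1 : eLpNorm (fun ξ => ∑ k ∈ Finset.range N, F k ξ) q μ ≤
        C ^ (1 / p) * ENNReal.ofReal (1 / (1 - t)) := by
      have h2 : (fun ξ => ∑ k ∈ Finset.range N, F k ξ) = ∑ k ∈ Finset.range N, F k := by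
        funext ξ
        rw [Finset.sum_apply]
      rw [h2]
      calc eLpNorm (∑ k ∈ Finset.range N, F k) q μ
          ≤ ∑ k ∈ Finset.range N, eLpNorm (F k) q μ := eLpNorm_sum_le (fun k _ => hF k) hq1
        _ ≤ ∑ k ∈ Finset.range N, C ^ (1 / p) * ENNReal.ofReal (t ^ k) :=
            Finset.sum_le_sum fun k _ => e2 k
        _ = C ^ (1 / p) * ENNReal.ofReal (∑ k ∈ Finset.range N, t ^ k) := by
            rw [← Finset.mul_sum, ENNReal.ofReal_sum_of_nonneg fun k _ => by positivity]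
        _ ≤ C ^ (1 / p) * ENNReal.ofReal (1 / (1 - t)) := by
            gcongr
            have h3 : Summable fun k : ℕ => t ^ k := summable_geometric_of_lt_one ht0.le ht1
            calc ∑ k ∈ Finset.range N, t ^ k ≤ ∑' k : ℕ, t ^ k :=
                  h3.sum_le_tsum _ (fun k _ => by positivity)
              _ = 1 / (1 - t) := by rw [tsum_geometric_of_lt_one ht0.le ht1, one_div]
    rw [e1] at h1
    have h4 : ((∫⁻ ξ, ‖∑ k ∈ Finset.range N, F k ξ‖ₑ ^ p ∂μ) ^ (1 / p)) ^ p ≤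
        (C ^ (1 / p) * ENNReal.ofReal (1 / (1 - t))) ^ p := by gcongr
    rw [← ENNReal.rpow_mul, one_div_mul_cancel hp0.ne', ENNReal.rpow_one,
      ENNReal.mul_rpow_of_nonneg _ _ hp0.le, ← ENNReal.rpow_mul, one_div_mul_cancel hp0.ne',
      ENNReal.rpow_one, ENNReal.ofReal_rpow_of_nonneg hS.le hp0.le] at h4
    rw [mul_comm] at h4
    exact h4
  have e4 : ∀ ξ, ‖f ξ‖ₑ ^ p =
      liminf (fun N => ‖∑ k ∈ Finset.range N, F k ξ‖ₑ ^ p) atTop := by
    intro ξ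
    have h1 : Tendsto (fun N => ‖∑ k ∈ Finset.range N, F k ξ‖ₑ ^ p) atTop (𝓝 (‖f ξ‖ₑ ^ p)) :=
      ((ENNReal.continuous_rpow_const (y := p)).tendsto _).comp
        ((continuous_enorm.tendsto _).comp (hf ξ))
    exact h1.liminf_eq.symm
  calc ∫⁻ ξ, ‖f ξ‖ₑ ^ p ∂μ
      = ∫⁻ ξ, liminf (fun N => ‖∑ k ∈ Finset.range N, F k ξ‖ₑ ^ p) atTop ∂μ :=
        lintegral_congr e4
    _ ≤ liminf (fun N => ∫⁻ ξ, ‖∑ k ∈ Finset.range N, F k ξ‖ₑ ^ p ∂μ) atTop := by
        refine lintegral_liminf_le' fun N => ?_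
        have : AEStronglyMeasurable (fun ξ => ∑ k ∈ Finset.range N, F k ξ) μ := by
          refine Finset.aestronglyMeasurable_fun_sum _ fun k _ => hF k
        exact this.enorm.pow_const p
    _ ≤ ENNReal.ofReal ((1 / (1 - t)) ^ p) * C := by
        refine liminf_le_of_le (by isBoundedDefault) fun b hb' => ?_
        obtain ⟨N, hN⟩ := hb'.exists
        exact hN.trans (e3 N)

end Pool.Agent.GNP
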