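import Pool.Agent.GNP.TMasmA
import Pool.Agent.MP_6cbfb8_an.Super

/-!
# [TAME] ASM: products at a point, divisions by constants, one layer.
-/

set_option autoImplicit false

namespace Pool.Agent.GNP

open MeasureTheory Set Filter Topology Pool.Agent.MP_6cbfb8_an
open scoped ENNReal ContDiff

/-- Leibniz at one point. -/
theorem tm_smul_at {n : ℕ} {f : E n → ℝ} {g : E n → ℂ} {x : E n} (hf : ContDiffAt ℝ ∞ f x)
    (hg : ContDiffAt ℝ ∞ g x) (j : ℕ) :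
    ‖iteratedFDeriv ℝ j (fun y => f y • g y) x‖ ≤ ∑ i ∈ Finset.range (j + 1),
      (j.choose i : ℝ) * ‖iteratedFDeriv ℝ i f x‖ * ‖iteratedFDeriv ℝ (j - i) g x‖ := by
  have hle : ∀ i : ℕ, ((i : ℕ∞) : ℕ∞ω) ≤ (∞ : ℕ∞ω) := fun i => by exact_mod_cast le_top
  have hfj : ContDiffAt ℝ ((j : ℕ∞) : ℕ∞ω) f x := hf.of_le (hle j)
  have hgj : ContDiffAt ℝ ((j : ℕ∞) : ℕ∞ω) g x := hg.of_le (hle j)
  obtain ⟨u, huo, hxu, hfu⟩ :=
    (hfj.contDiffWithinAt (s := univ)).contDiffOn' le_rfl (by simp)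
  obtain ⟨v, hvo, hxv, hgv⟩ :=
    (hgj.contDiffWithinAt (s := univ)).contDiffOn' le_rfl (by simp)
  rw [insert_eq_of_mem (mem_univ x), univ_inter] at hfu hgv
  have hs : UniqueDiffOn ℝ (u ∩ v) := (huo.inter hvo).uniqueDiffOn
  have hx : x ∈ u ∩ v := ⟨hxu, hxv⟩
  have h := norm_iteratedFDerivWithin_smul_le (𝕜 := ℝ) (𝕜' := ℝ) (s := u ∩ v)
    (hfu.mono inter_subset_left) (hgv.mono inter_subset_right) hs hx (n := j) le_rfl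
  have e1 : iteratedFDerivWithin ℝ j (fun y => f y • g y) (u ∩ v) x =
      iteratedFDeriv ℝ j (fun y => f y • g y) x :=
    iteratedFDerivWithin_eq_iteratedFDeriv hs (hfj.smul hgj) hx
  rw [e1] at h
  refine h.trans_eq (Finset.sum_congr rfl fun i hi => ?_)
  have hij : i ≤ j := Nat.lt_succ_iff.mp (Finset.mem_range.mp hi)
  rw [iteratedFDerivWithin_eq_iteratedFDeriv hs (hf.of_le (hle i)) hx,
    iteratedFDerivWithin_eq_iteratedFDeriv hs (hg.of_le (hle (j - i))) hx]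

/-- Products of functions with bounds at the scale `ρ` at one point. -/
theorem tm_mul_at {n : ℕ} (B B' : ℕ → ℝ) (hB : ∀ j, 0 ≤ B j) {ρ : ℝ}
    (hρ : 0 < ρ) {f : E n → ℝ} {g : E n → ℂ} {x : E n} (hf : ContDiffAt ℝ ∞ f x)
    (hg : ContDiffAt ℝ ∞ g x) (hfb : ∀ j, ‖iteratedFDeriv ℝ j f x‖ ≤ B j / ρ ^ j)
    (hgb : ∀ j, ‖iteratedFDeriv ℝ j g x‖ ≤ B' j / ρ ^ j) (j : ℕ) :
    ‖iteratedFDeriv ℝ j (fun y => (f y : ℂ) * g y) x‖ ≤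
      (∑ i ∈ Finset.range (j + 1), (j.choose i : ℝ) * B i * B' (j - i)) / ρ ^ j := by
  have e : (fun y => (f y : ℂ) * g y) = fun y => f y • g y := by
    funext y
    rw [Complex.real_smul]
  rw [e]
  refine (tm_smul_at hf hg j).trans ?_
  rw [Finset.sum_div]
  refine Finset.sum_le_sum fun i hi => ?_
  have hij : i ≤ j := Nat.lt_succ_iff.mp (Finset.mem_range.mp hi)
  calc (j.choose i : ℝ) * ‖iteratedFDeriv ℝ i f x‖ * ‖iteratedFDeriv ℝ (j - i) g x‖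
      ≤ (j.choose i : ℝ) * (B i / ρ ^ i) * (B' (j - i) / ρ ^ (j - i)) := by
        have h1 : 0 ≤ B i / ρ ^ i := div_nonneg (hB i) (by positivity)
        have h2 := hfb i
        have h3 := hgb (j - i)
        gcongr
    _ = (j.choose i : ℝ) * B i * B' (j - i) / ρ ^ j := by
        have : ρ ^ j = ρ ^ i * ρ ^ (j - i) := by rw [← pow_add]; congr 1; omega
        rw [this]
        field_simp

/-- Division of the phase by a constant. -/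
theorem tm_div_at {n : ℕ} (B : ℕ → ℝ) (hB : ∀ j, 0 ≤ B j) {ρ lam A : ℝ} (hρ : 0 < ρ)
    (hl : 0 ≤ lam) {ψ : E n → ℝ} {x : E n} (j : ℕ) (hψ : ContDiffAt ℝ ∞ ψ x)
    (hb : ‖iteratedFDeriv ℝ j ψ x‖ ≤ lam * B j * ρ ^ (-A) / ρ ^ j) :
    ‖iteratedFDeriv ℝ j (fun y => ((1 + lam) * ρ ^ (-A))⁻¹ * ψ y) x‖ ≤ B j / ρ ^ j := by
  have hle : ((j : ℕ∞) : ℕ∞ω) ≤ (∞ : ℕ∞ω) := by exact_mod_cast le_top
  have hA : 0 < ρ ^ (-A) := Real.rpow_pos_of_pos hρ _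
  have hc : 0 < (1 + lam) * ρ ^ (-A) := by positivity
  have e : (fun y => ((1 + lam) * ρ ^ (-A))⁻¹ * ψ y) = ((1 + lam) * ρ ^ (-A))⁻¹ • ψ := by
    funext y
    simp [smul_eq_mul]
  rw [e, iteratedFDeriv_const_smul_apply (hψ.of_le hle), norm_smul, Real.norm_eq_abs,
    abs_of_pos (inv_pos.mpr hc), inv_mul_le_iff₀ hc]
  refine hb.trans ?_
  have h1 : lam * B j * ρ ^ (-A) / ρ ^ j ≤ (1 + lam) * B j * ρ ^ (-A) / ρ ^ j := by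
    have := hB j
    gcongr
    linarith
  refine h1.trans_eq ?_
  ring

/-- The exponents of one layer. -/
theorem tm_exp (e1 κ p A δ V lam : ℝ) (hV : 0 ≤ V) (hp : 1 ≤ p) (hl : 0 ≤ lam) (hδ : 0 ≤ δ)
    (hA : 0 ≤ A) (k N : ℕ) (c0 : ℝ) (hc0 : 0 < c0)
    (hN : (N : ℝ) ≤ V * (2 : ℝ) ^ ((k : ℝ) * κ)) :
    (N : ℝ) ^ (p - 1) * ((c0 * (1 / 2 : ℝ) ^ k) ^ e1 *
      (1 + (1 + lam) * (c0 * (1 / 2 : ℝ) ^ k) ^ (-A)) ^ δ) ≤
      V ^ (p - 1) * c0 ^ e1 * (1 + c0 ^ (-A)) ^ δ * (1 + lam) ^ δ *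
        ((2 : ℝ) ^ (κ * (p - 1) - e1 + A * δ)) ^ k := by
  have h2 : (1 / 2 : ℝ) ^ k = (2 : ℝ) ^ (-(k : ℝ)) := by
    rw [Real.rpow_neg zero_le_two, Real.rpow_natCast, one_div, inv_pow]
  have hpos : ∀ a : ℝ, 0 < (2 : ℝ) ^ a := fun a => Real.rpow_pos_of_pos two_pos a
  have e0 : ∀ a : ℝ, (c0 * (1 / 2 : ℝ) ^ k) ^ a = c0 ^ a * (2 : ℝ) ^ (-(k : ℝ) * a) := by
    intro a
    rw [h2, Real.mul_rpow hc0.le (hpos _).le, ← Real.rpow_mul zero_le_two]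
  rw [e0, e0]
  have hcA : 0 < c0 ^ (-A) := Real.rpow_pos_of_pos hc0 _
  have h3 : (N : ℝ) ^ (p - 1) ≤ V ^ (p - 1) * (2 : ℝ) ^ ((k : ℝ) * κ * (p - 1)) := by
    calc (N : ℝ) ^ (p - 1) ≤ (V * (2 : ℝ) ^ ((k : ℝ) * κ)) ^ (p - 1) :=
          Real.rpow_le_rpow (Nat.cast_nonneg _) hN (by linarith)
      _ = _ := by
          rw [Real.mul_rpow hV (hpos _).le, ← Real.rpow_mul zero_le_two]
  have h4 : 1 + (1 + lam) * (c0 ^ (-A) * (2 : ℝ) ^ (-(k : ℝ) * -A)) ≤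
      (1 + c0 ^ (-A)) * (1 + lam) * (2 : ℝ) ^ ((k : ℝ) * A) := by
    have h5 : (2 : ℝ) ^ (-(k : ℝ) * -A) = (2 : ℝ) ^ ((k : ℝ) * A) := by congr 1; ring
    have h6 : 1 ≤ (2 : ℝ) ^ ((k : ℝ) * A) := Real.one_le_rpow one_le_two (by positivity)
    have h7 : 1 ≤ (1 + lam) * (2 : ℝ) ^ ((k : ℝ) * A) := by nlinarith
    rw [h5]
    calc 1 + (1 + lam) * (c0 ^ (-A) * (2 : ℝ) ^ ((k : ℝ) * A))
        ≤ (1 + lam) * (2 : ℝ) ^ ((k : ℝ) * A) +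
            (1 + lam) * (c0 ^ (-A) * (2 : ℝ) ^ ((k : ℝ) * A)) := by linarith
      _ = _ := by ring
  have h8 : (1 + (1 + lam) * (c0 ^ (-A) * (2 : ℝ) ^ (-(k : ℝ) * -A))) ^ δ ≤
      (1 + c0 ^ (-A)) ^ δ * (1 + lam) ^ δ * (2 : ℝ) ^ ((k : ℝ) * A * δ) := by
    calc _ ≤ ((1 + c0 ^ (-A)) * (1 + lam) * (2 : ℝ) ^ ((k : ℝ) * A)) ^ δ :=
          Real.rpow_le_rpow (by positivity) h4 hδ
      _ = _ := by
          rw [Real.mul_rpow (by positivity) (hpos _).le, Real.mul_rpow (by positivity)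
            (by positivity), ← Real.rpow_mul zero_le_two]
  calc (N : ℝ) ^ (p - 1) * (c0 ^ e1 * (2 : ℝ) ^ (-(k : ℝ) * e1) *
        (1 + (1 + lam) * (c0 ^ (-A) * (2 : ℝ) ^ (-(k : ℝ) * -A))) ^ δ)
      ≤ (V ^ (p - 1) * (2 : ℝ) ^ ((k : ℝ) * κ * (p - 1))) *
        (c0 ^ e1 * (2 : ℝ) ^ (-(k : ℝ) * e1) *
        ((1 + c0 ^ (-A)) ^ δ * (1 + lam) ^ δ * (2 : ℝ) ^ ((k : ℝ) * A * δ))) := by
        have : 0 ≤ V ^ (p - 1) := Real.rpow_nonneg hV _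
        have := (hpos ((k : ℝ) * κ * (p - 1))).le
        gcongr
    _ = V ^ (p - 1) * c0 ^ e1 * (1 + c0 ^ (-A)) ^ δ * (1 + lam) ^ δ *
        ((2 : ℝ) ^ ((k : ℝ) * κ * (p - 1)) * (2 : ℝ) ^ (-(k : ℝ) * e1) *
          (2 : ℝ) ^ ((k : ℝ) * A * δ)) := by ring
    _ = _ := by
        congr 1
        rw [← Real.rpow_add two_pos, ← Real.rpow_add two_pos, ← Real.rpow_natCast,
          ← Real.rpow_mul zero_le_two]
        congr 1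
        ring

end Pool.Agent.GNP
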