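import Pool.Agent.GNP.TMasmB
import Pool.Agent.GNP.TM0

/-!
# [TAME] ASM: sums of layers which depend on the number of layers, measurability, the remainder.
-/

set_option autoImplicit false

namespace Pool.Agent.GNP.TM

open MeasureTheory Set Filter Topology Pool.Agent.MP_6cbfb8_an
open scoped ENNReal Real ContDiff

/-- Layers with geometrically decreasing `p`-th moments; the layers may depend on the number `N`
of the layers. -/
theorem tm_sumN {X : Type*} [MeasurableSpace X] (μ : Measure X) (p : ℝ) (hp : 1 ≤ p) (θ : ℝ)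
    (hθ0 : 0 < θ) (hθ : θ < 1) : ∃ K : ℝ, 0 < K ∧ ∀ (C : ℝ≥0∞) (F : ℕ → ℕ → X → ℂ) (f : X → ℂ),
      (∀ N k, AEStronglyMeasurable (F N k) μ) →
      (∀ N k, ∫⁻ ξ, ‖F N k ξ‖ₑ ^ p ∂μ ≤ C * ENNReal.ofReal (θ ^ k)) →
      (∀ ξ, Tendsto (fun N => ∑ k ∈ Finset.range N, F N k ξ) atTop (𝓝 (f ξ))) →
      ∫⁻ ξ, ‖f ξ‖ₑ ^ p ∂μ ≤ ENNReal.ofReal K * C := by
  have hp0 : 0 < p := by linarith
  set t : ℝ := θ ^ (1 / p) with ht
  have ht0 : 0 < t := Real.rpow_pos_of_pos hθ0 _
  have ht1 : t < 1 := Real.rpow_lt_one hθ0.le hθ (by positivity)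
  have hS : 0 < 1 / (1 - t) := by
    have : 0 < 1 - t := by linarith
    positivity
  refine ⟨(1 / (1 - t)) ^ p, Real.rpow_pos_of_pos hS _, fun C F f hF hb hf => ?_⟩
  set q : ℝ≥0∞ := ENNReal.ofReal p with hq
  have hq0 : q ≠ 0 := by simp [hq, hp0]
  have hqt : q ≠ ⊤ := ENNReal.ofReal_ne_top
  have hqp : q.toReal = p := ENNReal.toReal_ofReal hp0.le
  have hq1 : 1 ≤ q := by
    rw [hq, ← ENNReal.ofReal_one]
    exact ENNReal.ofReal_le_ofReal hp
  have e1 : ∀ G : X → ℂ, eLpNorm G q μ = (∫⁻ ξ, ‖G ξ‖ₑ ^ p ∂μ) ^ (1 / p) := by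
    intro G
    rw [eLpNorm_eq_lintegral_rpow_enorm_toReal hq0 hqt, hqp]
  have e2 : ∀ N k, eLpNorm (F N k) q μ ≤ C ^ (1 / p) * ENNReal.ofReal (t ^ k) := by
    intro N k
    rw [e1]
    calc (∫⁻ ξ, ‖F N k ξ‖ₑ ^ p ∂μ) ^ (1 / p) ≤ (C * ENNReal.ofReal (θ ^ k)) ^ (1 / p) := by
          gcongr
          exact hb N k
      _ = C ^ (1 / p) * ENNReal.ofReal (t ^ k) := by
          rw [ENNReal.mul_rpow_of_nonneg _ _ (by positivity),
            ENNReal.ofReal_rpow_of_nonneg (by positivity) (by positivity)]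
          congr 2
          rw [ht, ← Real.rpow_natCast, ← Real.rpow_natCast, ← Real.rpow_mul hθ0.le,
            ← Real.rpow_mul hθ0.le]
          congr 1
          ring
  have e3 : ∀ N, ∫⁻ ξ, ‖∑ k ∈ Finset.range N, F N k ξ‖ₑ ^ p ∂μ ≤
      ENNReal.ofReal ((1 / (1 - t)) ^ p) * C := by
    intro N
    have h1 : eLpNorm (fun ξ => ∑ k ∈ Finset.range N, F N k ξ) q μ ≤
        C ^ (1 / p) * ENNReal.ofReal (1 / (1 - t)) := by
      have h2 : (fun ξ => ∑ k ∈ Finset.range N, F N k ξ) = ∑ k ∈ Finset.range N, F N k := by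
        funext ξ
        rw [Finset.sum_apply]
      rw [h2]
      calc eLpNorm (∑ k ∈ Finset.range N, F N k) q μ
          ≤ ∑ k ∈ Finset.range N, eLpNorm (F N k) q μ := eLpNorm_sum_le (fun k _ => hF N k) hq1
        _ ≤ ∑ k ∈ Finset.range N, C ^ (1 / p) * ENNReal.ofReal (t ^ k) :=
            Finset.sum_le_sum fun k _ => e2 N k
        _ = C ^ (1 / p) * ENNReal.ofReal (∑ k ∈ Finset.range N, t ^ k) := by
            rw [← Finset.mul_sum, ENNReal.ofReal_sum_of_nonneg fun k _ => by positivity]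
        _ ≤ C ^ (1 / p) * ENNReal.ofReal (1 / (1 - t)) := by
            gcongr
            have h3 : Summable fun k : ℕ => t ^ k := summable_geometric_of_lt_one ht0.le ht1
            calc ∑ k ∈ Finset.range N, t ^ k ≤ ∑' k : ℕ, t ^ k :=
                  h3.sum_le_tsum _ (fun k _ => by positivity)
              _ = 1 / (1 - t) := by rw [tsum_geometric_of_lt_one ht0.le ht1, one_div]
    rw [e1] at h1
    have h4 : ((∫⁻ ξ, ‖∑ k ∈ Finset.range N, F N k ξ‖ₑ ^ p ∂μ) ^ (1 / p)) ^ p ≤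
        (C ^ (1 / p) * ENNReal.ofReal (1 / (1 - t))) ^ p := by gcongr
    rw [← ENNReal.rpow_mul, one_div_mul_cancel hp0.ne', ENNReal.rpow_one,
      ENNReal.mul_rpow_of_nonneg _ _ hp0.le, ← ENNReal.rpow_mul, one_div_mul_cancel hp0.ne',
      ENNReal.rpow_one, ENNReal.ofReal_rpow_of_nonneg hS.le hp0.le] at h4
    rw [mul_comm] at h4
    exact h4
  have e4 : ∀ ξ, ‖f ξ‖ₑ ^ p =
      liminf (fun N => ‖∑ k ∈ Finset.range N, F N k ξ‖ₑ ^ p) atTop := by
    intro ξ
    have h1 : Tendsto (fun N => ‖∑ k ∈ Finset.range N, F N k ξ‖ₑ ^ p) atTop (𝓝 (‖f ξ‖ₑ ^ p)) :=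
      ((ENNReal.continuous_rpow_const (y := p)).tendsto _).comp
        ((continuous_enorm.tendsto _).comp (hf ξ))
    exact h1.liminf_eq.symm
  calc ∫⁻ ξ, ‖f ξ‖ₑ ^ p ∂μ
      = ∫⁻ ξ, liminf (fun N => ‖∑ k ∈ Finset.range N, F N k ξ‖ₑ ^ p) atTop ∂μ :=
        lintegral_congr e4
    _ ≤ liminf (fun N => ∫⁻ ξ, ‖∑ k ∈ Finset.range N, F N k ξ‖ₑ ^ p ∂μ) atTop := by
        refine lintegral_liminf_le' fun N => ?_
        have : AEStronglyMeasurable (fun ξ => ∑ k ∈ Finset.range N, F N k ξ) μ := by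
          refine Finset.aestronglyMeasurable_fun_sum _ fun k _ => hF N k
        exact this.enorm.pow_const p
    _ ≤ ENNReal.ofReal ((1 / (1 - t)) ^ p) * C := by
        refine liminf_le_of_le (by isBoundedDefault) fun b hb' => ?_
        obtain ⟨N, hN⟩ := hb'.exists
        exact hN.trans (e3 N)

/-- Measurability of the extension of a function which is continuous on the sphere. -/
theorem tm_meas {n : ℕ} {g : E n → ℂ} (hg : ContinuousOn g (Metric.sphere 0 1)) :
    Measurable (extn g) := by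
  classical
  have h1 : Measurable ((Metric.sphere (0 : E n) 1).piecewise g 0) :=
    hg.measurable_piecewise continuousOn_const Metric.isClosed_sphere.measurableSet
  have h2 : extn g = extn ((Metric.sphere (0 : E n) 1).piecewise g 0) := by
    funext ξ
    unfold extn
    refine integral_congr_ae (Filter.Eventually.of_forall fun x => ?_)
    simp only
    rw [piecewise_eq_of_mem _ _ _ x.2]
  rw [h2]
  have h3 : extn ((Metric.sphere (0 : E n) 1).piecewise g 0) = fun ξ => ∫ x : S n,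
    ((Metric.sphere (0 : E n) 1).piecewise g 0) x *
      Complex.exp (((-(2 * π * inner ℝ (x : E n) ξ) : ℝ) : ℂ) * Complex.I) ∂(sm n) := rfl
  rw [h3]
  refine StronglyMeasurable.measurable ?_
  refine StronglyMeasurable.integral_prod_right
    (f := fun (ξ : E n) (x : S n) => ((Metric.sphere (0 : E n) 1).piecewise g 0) x *
      Complex.exp (((-(2 * π * inner ℝ (x : E n) ξ) : ℝ) : ℂ) * Complex.I)) ?_
  refine Measurable.stronglyMeasurable ?_
  have h4 : Measurable fun q : E n × S n =>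
      Complex.exp (((-(2 * π * inner ℝ (q.2 : E n) q.1) : ℝ) : ℂ) * Complex.I) := by
    exact Continuous.measurable (by fun_prop)
  exact (h1.comp (measurable_subtype_coe.comp measurable_snd)).mul h4

/-- Functions which are bounded and measurable almost everywhere on the sphere. -/
theorem tm_int {n : ℕ} {g : E n → ℂ} {R : ℝ}
    (hm : AEStronglyMeasurable (fun x : S n => g x) (sm n))
    (hb : ∀ᵐ x : S n ∂(sm n), ‖g x‖ ≤ R) (ξ : E n) : Integrable (fun x : S n => g x *
      Complex.exp (((-(2 * π * inner ℝ (x : E n) ξ) : ℝ) : ℂ) * Complex.I)) (sm n) := by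
  have h2 : Continuous fun x : S n =>
      Complex.exp (((-(2 * π * inner ℝ (x : E n) ξ) : ℝ) : ℂ) * Complex.I) := by
    have h1 : Continuous fun x : S n => (inner ℝ (x : E n) ξ : ℝ) :=
      continuous_subtype_val.inner continuous_const
    fun_prop
  refine Integrable.mono' (integrable_const R) (hm.mul h2.aestronglyMeasurable) ?_
  filter_upwards [hb] with x hx
  rw [norm_mul, Complex.norm_exp_ofReal_mul_I, mul_one]
  exact hx

/-- The sum of finitely many functions which are continuous on the sphere. -/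
theorem tm_extn_sum {n : ℕ} {ι : Type*} (s : Finset ι) (g : ι → E n → ℂ)
    (hg : ∀ i ∈ s, ContinuousOn (g i) (Metric.sphere 0 1)) (ξ : E n) :
    extn (fun x => ∑ i ∈ s, g i x) ξ = ∑ i ∈ s, extn (g i) ξ := by
  have hi : ∀ i ∈ s, Integrable (fun x : S n => g i x *
      Complex.exp (((-(2 * π * inner ℝ (x : E n) ξ) : ℝ) : ℂ) * Complex.I)) (sm n) := by
    intro i hi
    have h1 : Continuous fun x : S n => (inner ℝ (x : E n) ξ : ℝ) :=
      continuous_subtype_val.inner continuous_const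
    have h2 : Continuous fun x : S n => g i (x : E n) :=
      continuousOn_iff_continuous_domRestrict.1 (hg i hi)
    have h3 : Continuous fun x : S n => g i x *
      Complex.exp (((-(2 * π * inner ℝ (x : E n) ξ) : ℝ) : ℂ) * Complex.I) := h2.mul (by fun_prop)
    exact h3.integrable_of_hasCompactSupport (HasCompactSupport.of_compactSpace _)
  unfold extn
  rw [← integral_finsetSum s fun i hi' => hi i hi']
  refine integral_congr_ae (Filter.Eventually.of_forall fun x => ?_)
  simp only [Finset.sum_mul]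

/-- The remainder: `H` is the part of the partition which is not yet covered. -/
theorem tm_rem {n : ℕ} {w : E n → ℂ} {H : E n → ℝ}
    (hm : AEStronglyMeasurable (fun x : S n => w x) (sm n))
    (hb : ∀ᵐ x : S n ∂(sm n), ‖w x‖ ≤ 1) (hH : Continuous H)
    (hH1 : ∀ y, ‖y‖ = 1 → 0 ≤ H y ∧ H y ≤ 1) (ξ : E n) :
    ‖extn (fun y => ((1 - H y : ℝ) : ℂ) * w y) ξ - extn w ξ‖ₑ ≤ sm n {y : S n | H y ≠ 0} := by
  have h1 : Integrable (fun x : S n => w x *
      Complex.exp (((-(2 * π * inner ℝ (x : E n) ξ) : ℝ) : ℂ) * Complex.I)) (sm n) := tm_int hm hb ξ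
  have hc : Continuous fun x : S n => ((1 - H x : ℝ) : ℂ) :=
    Complex.continuous_ofReal.comp (continuous_const.sub (hH.comp continuous_subtype_val))
  have h2 : Integrable (fun x : S n => ((1 - H x : ℝ) : ℂ) * w x *
      Complex.exp (((-(2 * π * inner ℝ (x : E n) ξ) : ℝ) : ℂ) * Complex.I)) (sm n) := by
    refine tm_int (g := fun y => ((1 - H y : ℝ) : ℂ) * w y) (R := 1)
      (hc.aestronglyMeasurable.mul hm) ?_ ξ
    filter_upwards [hb] with x hx
    obtain ⟨h3, h4⟩ := hH1 x (mem_sphere_zero_iff_norm.1 x.2)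
    rw [norm_mul, Complex.norm_real, Real.norm_eq_abs, abs_of_nonneg (by linarith)]
    calc (1 - H x) * ‖w x‖ ≤ 1 * 1 :=
          mul_le_mul (by linarith) hx (norm_nonneg _) zero_le_one
      _ = 1 := one_mul 1
  unfold extn
  rw [← integral_sub h2 h1]
  refine (enorm_integral_le_lintegral_enorm _).trans ?_
  have hme : MeasurableSet {y : S n | H y ≠ 0} :=
    (isClosed_singleton.isOpen_compl.preimage (hH.comp continuous_subtype_val)).measurableSet
  rw [← lintegral_indicator_one hme]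
  refine lintegral_mono_ae ?_
  filter_upwards [hb] with x hx
  have e : ((1 - H x : ℝ) : ℂ) * w x *
      Complex.exp (((-(2 * π * inner ℝ (x : E n) ξ) : ℝ) : ℂ) * Complex.I) - w x *
      Complex.exp (((-(2 * π * inner ℝ (x : E n) ξ) : ℝ) : ℂ) * Complex.I) =
      -((H x : ℝ) : ℂ) * w x *
        Complex.exp (((-(2 * π * inner ℝ (x : E n) ξ) : ℝ) : ℂ) * Complex.I) := by
    push_cast
    ring
  rw [e]
  by_cases h0 : H x = 0
  · rw [h0]
    simp
  · rw [indicator_of_mem (by exact h0)]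
    obtain ⟨h3, h4⟩ := hH1 x (mem_sphere_zero_iff_norm.1 x.2)
    rw [enorm_mul, enorm_mul, enorm_neg, ← ofReal_norm
      (Complex.exp (((-(2 * π * inner ℝ (x : E n) ξ) : ℝ) : ℂ) * Complex.I)),
      Complex.norm_exp_ofReal_mul_I, ENNReal.ofReal_one, mul_one, ← ofReal_norm (w x),
      ← ofReal_norm (((H x : ℝ) : ℂ)), Complex.norm_real, Real.norm_eq_abs, abs_of_nonneg h3]
    calc ENNReal.ofReal (H x) * ENNReal.ofReal ‖w x‖ ≤ 1 * 1 :=
          mul_le_mul' (ENNReal.ofReal_le_one.2 h4) (ENNReal.ofReal_le_one.2 hx)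
      _ = (1 : S n → ℝ≥0∞) x := by simp

end Pool.Agent.GNP.TM
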