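import Pool.Agent.GNP.Defs

/-!
Orthogonality of caps: the window and the reproducing kernel.
-/

namespace Pool.Agent.GNP

open MeasureTheory Set Pool.Agent.MP_6cbfb8_an
open scoped ENNReal Real RealInnerProductSpace ContDiff SchwartzMap FourierTransform

/-- The weight `(1 + |z|)^(-(n+1))`. -/
noncomputable def ow {n : ℕ} (z : E n) : ℝ := ((1 + ‖z‖) ^ (n + 1))⁻¹

theorem ow_pos {n : ℕ} (z : E n) : 0 < ow z := by unfold ow; positivity

theorem continuous_ow {n : ℕ} : Continuous (ow : E n → ℝ) := by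
  unfold ow
  refine Continuous.inv₀ (by fun_prop) fun z => by positivity

theorem integrable_ow (n : ℕ) : Integrable (ow : E n → ℝ) := by
  have h : Integrable fun x : E n => (1 + ‖x‖) ^ (-((n + 1 : ℕ) : ℝ)) := by
    refine integrable_one_add_norm ?_
    rw [finrank_euclideanSpace_fin]
    push_cast
    linarith
  refine h.congr (Filter.Eventually.of_forall fun z => ?_)
  simp only
  unfold ow
  rw [Real.rpow_neg (by positivity), Real.rpow_natCast]

theorem ow_shift {n : ℕ} (z v : E n) (hv : ‖v‖ ≤ 1) : ow z ≤ 2 ^ (n + 1) * ow (z + v) := by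
  unfold ow
  rw [← div_eq_mul_inv, le_div_iff₀ (by positivity), inv_mul_le_iff₀ (by positivity), ← mul_pow]
  gcongr
  have := norm_add_le z v
  have h0 := norm_nonneg z
  nlinarith

theorem schwartz_ow {n : ℕ} (f : 𝓢(E n, ℂ)) : ∃ C : ℝ, 0 < C ∧ ∀ z, ‖f z‖ ≤ C * ow z := by
  refine ⟨2 ^ (n + 1) * (Finset.Iic ((n + 1 : ℕ), (0 : ℕ))).sup
    (fun m => SchwartzMap.seminorm ℝ m.1 m.2) f + 1, by positivity, fun z => ?_⟩
  have h := SchwartzMap.one_add_le_sup_seminorm_apply (𝕜 := ℝ) (m := ((n + 1 : ℕ), (0 : ℕ)))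
    (k := n + 1) (n := 0) le_rfl le_rfl f z
  rw [norm_iteratedFDeriv_zero] at h
  unfold ow
  rw [← div_eq_mul_inv, le_div_iff₀ (by positivity), mul_comm]
  simp only at h
  linarith

/-- The bump function, translated. -/
noncomputable def wbump (n : ℕ) : ContDiffBump (0 : E n) := ⟨1 / 32, 1 / 16, by norm_num, by norm_num⟩

theorem wbump_zero {n : ℕ} {v : E n} (hv : 1 / 16 < ‖v‖) : (wbump n).normed volume v = 0 := by
  have h1 : v ∉ Function.support ((wbump n).normed (volume : Measure (E n))) := by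
    rw [(wbump n).support_normed_eq, Metric.mem_ball, dist_zero_right]
    exact not_lt.2 hv.le
  exact Function.notMem_support.1 h1

/-- The translated bump as a Schwartz function. -/
noncomputable def wsch {n : ℕ} (a : E n) : 𝓢(E n, ℂ) :=
  HasCompactSupport.toSchwartzMap (f := fun x : E n => (((wbump n).normed volume (x - a) : ℝ) : ℂ))
    (HasCompactSupport.intro (isCompact_closedBall a (1 / 16)) fun x hx => by
      rw [Metric.mem_closedBall, dist_eq_norm, not_le] at hx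
      rw [wbump_zero hx, Complex.ofReal_zero])
    (Complex.ofRealCLM.contDiff.comp
      ((wbump n).contDiff_normed.comp (contDiff_id.sub contDiff_const)))

theorem wsch_apply {n : ℕ} (a x : E n) :
    wsch a x = (((wbump n).normed volume (x - a) : ℝ) : ℂ) := rfl

theorem fourier_wsch {n : ℕ} (a ξ : E n) : 𝓕 (wsch a) ξ =
    Complex.exp (((-(2 * π * ⟪a, ξ⟫) : ℝ) : ℂ) * Complex.I) * 𝓕 (wsch (0 : E n)) ξ := by
  rw [SchwartzMap.fourier_coe, SchwartzMap.fourier_coe, Real.fourier_eq', Real.fourier_eq']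
  have h1 := integral_add_right_eq_self (μ := (volume : Measure (E n)))
    (fun v => Complex.exp ((((-2 * π * ⟪v, ξ⟫ : ℝ)) : ℂ) * Complex.I) • wsch a v) a
  rw [← h1, ← integral_const_mul]
  refine integral_congr_ae (Filter.Eventually.of_forall fun v => ?_)
  simp only [smul_eq_mul]
  rw [wsch_apply, wsch_apply, add_sub_cancel_right, sub_zero, ← mul_assoc, ← Complex.exp_add]
  congr 2
  rw [inner_add_left]
  push_cast
  ring

theorem norm_fourier_wsch {n : ℕ} (ξ : E n) (hξ : ‖ξ‖ ≤ 1) : 1 / 2 ≤ ‖𝓕 (wsch (0 : E n)) ξ‖ := by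
  set b : E n → ℝ := (wbump n).normed volume with hb
  have hbi : Integrable b := (wbump n).integrable_normed
  have hb0 : ∀ v, 0 ≤ b v := (wbump n).nonneg_normed
  have hb1 : ∫ v, b v = 1 := (wbump n).integral_normed
  have h1 : 𝓕 (wsch (0 : E n)) ξ =
      ∫ v, Complex.exp ((((-2 * π * ⟪v, ξ⟫ : ℝ)) : ℂ) * Complex.I) * ((b v : ℝ) : ℂ) := by
    rw [SchwartzMap.fourier_coe, Real.fourier_eq']
    refine integral_congr_ae (Filter.Eventually.of_forall fun v => ?_)
    simp only [smul_eq_mul]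
    rw [wsch_apply, sub_zero]
  have hbc : Integrable fun v : E n => ((b v : ℝ) : ℂ) := hbi.ofReal
  have he : Integrable fun v : E n =>
      Complex.exp ((((-2 * π * ⟪v, ξ⟫ : ℝ)) : ℂ) * Complex.I) * ((b v : ℝ) : ℂ) := by
    refine hbc.norm.mono' (by fun_prop) (Filter.Eventually.of_forall fun v => ?_)
    rw [norm_mul, Complex.norm_exp_ofReal_mul_I, one_mul]
  have h2 : ‖𝓕 (wsch (0 : E n)) ξ - 1‖ ≤ 1 / 2 := by
    have h3 : ∫ v : E n, ((b v : ℝ) : ℂ) = 1 := by
      rw [integral_complex_ofReal, hb1, Complex.ofReal_one]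
    rw [h1, ← h3, ← integral_sub he hbc]
    refine (norm_integral_le_integral_norm _).trans ?_
    calc ∫ v : E n, ‖Complex.exp ((((-2 * π * ⟪v, ξ⟫ : ℝ)) : ℂ) * Complex.I) * ((b v : ℝ) : ℂ) -
          ((b v : ℝ) : ℂ)‖ ≤ ∫ v, 1 / 2 * b v := by
          refine integral_mono_of_nonneg (Filter.Eventually.of_forall fun v => norm_nonneg _)
            (hbi.const_mul _) (Filter.Eventually.of_forall fun v => ?_)
          simp only
          rw [show Complex.exp ((((-2 * π * ⟪v, ξ⟫ : ℝ)) : ℂ) * Complex.I) * ((b v : ℝ) : ℂ) -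
            ((b v : ℝ) : ℂ) = (Complex.exp (Complex.I * (((-2 * π * ⟪v, ξ⟫ : ℝ)) : ℂ)) - 1) *
              ((b v : ℝ) : ℂ) by rw [mul_comm Complex.I]; ring, norm_mul, Complex.norm_real,
              Real.norm_of_nonneg (hb0 v)]
          by_cases hv : 1 / 16 < ‖v‖
          · rw [hb, wbump_zero hv]
            simp
          · refine mul_le_mul_of_nonneg_right ?_ (hb0 v)
            refine Real.norm_exp_I_mul_ofReal_sub_one_le.trans ?_
            rw [Real.norm_eq_abs, abs_mul, abs_mul, abs_neg, abs_two, abs_of_pos Real.pi_pos]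
            have h4 : |⟪v, ξ⟫| ≤ 1 / 16 := by
              refine (abs_real_inner_le_norm v ξ).trans ?_
              calc ‖v‖ * ‖ξ‖ ≤ 1 / 16 * 1 :=
                    mul_le_mul (not_lt.1 hv) hξ (norm_nonneg _) (by norm_num)
                _ = 1 / 16 := by norm_num
            have h5 := Real.pi_lt_four
            have h6 := Real.pi_pos
            nlinarith [abs_nonneg ⟪v, ξ⟫]
      _ = 1 / 2 := by rw [integral_const_mul, hb1, mul_one]
  have h7 : (1 : ℝ) ≤ ‖𝓕 (wsch (0 : E n)) ξ‖ + ‖𝓕 (wsch (0 : E n)) ξ - 1‖ := by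
    calc (1 : ℝ) = ‖𝓕 (wsch (0 : E n)) ξ - (𝓕 (wsch (0 : E n)) ξ - 1)‖ := by simp
      _ ≤ _ := norm_sub_le _ _
  linarith

/-- The window. -/
theorem exists_window (n : ℕ) : ∃ W : E n → ℝ, Continuous W ∧ (∀ z, 0 ≤ W z) ∧
    (∀ z, ‖z‖ ≤ 1 → 1 ≤ W z) ∧ (∃ C : ℝ, 0 < C ∧ ∀ z, W z ≤ C * ow z) ∧
    ∀ a : E n, 1 ≤ ‖a‖ →
      ∫ z, ((W z : ℝ) : ℂ) * Complex.exp (((-(2 * π * ⟪a, z⟫) : ℝ) : ℂ) * Complex.I) = 0 := by
  set F : 𝓢(E n, ℂ) := 𝓕 (wsch (0 : E n)) with hF
  obtain ⟨C, hC, hCb⟩ := schwartz_ow F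
  refine ⟨fun z => 4 * ‖F z‖ ^ 2, by fun_prop, fun z => by positivity, fun z hz => ?_, ?_, ?_⟩
  · have := norm_fourier_wsch z hz
    rw [← hF] at this
    nlinarith
  · refine ⟨4 * C ^ 2, by positivity, fun z => ?_⟩
    have h1 := hCb z
    have h2 : ow z ≤ 1 := by
      unfold ow
      refine inv_le_one_of_one_le₀ (one_le_pow₀ ?_)
      linarith [norm_nonneg z]
    have h3 := ow_pos z
    calc 4 * ‖F z‖ ^ 2 ≤ 4 * (C * ow z) ^ 2 := by gcongr
      _ = 4 * C ^ 2 * (ow z * ow z) := by ring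
      _ ≤ 4 * C ^ 2 * (1 * ow z) := by gcongr
      _ = _ := by ring
  · intro a ha
    have h1 := SchwartzMap.integral_inner_fourier_fourier (wsch (0 : E n)) (wsch a)
    have h2 : ∫ x : E n, inner ℂ (wsch (0 : E n) x) (wsch a x) = 0 := by
      rw [← integral_zero (E n) ℂ]
      refine integral_congr_ae (Filter.Eventually.of_forall fun x => ?_)
      simp only
      rw [wsch_apply, wsch_apply, sub_zero]
      by_cases hx : 1 / 16 < ‖x‖
      · rw [wbump_zero hx]
        simp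
      · have h3 : 1 / 16 < ‖x - a‖ := by
          have h4 := norm_sub_norm_le a x
          rw [norm_sub_rev] at h4
          linarith [not_lt.1 hx]
        rw [wbump_zero h3]
        simp
    rw [h2] at h1
    have h3 : ∀ z : E n, inner ℂ (𝓕 (wsch (0 : E n)) z) (𝓕 (wsch a) z) =
        ((‖F z‖ ^ 2 : ℝ) : ℂ) * Complex.exp (((-(2 * π * ⟪a, z⟫) : ℝ) : ℂ) * Complex.I) := by
      intro z
      rw [fourier_wsch a z, RCLike.inner_apply, ← hF]
      have h4 : F z * (starRingEnd ℂ) (F z) = ((‖F z‖ ^ 2 : ℝ) : ℂ) := by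
        rw [Complex.mul_conj, Complex.normSq_eq_norm_sq]
      rw [← h4]
      ring
    simp only [h3] at h1
    have h5 : ∀ z : E n, (((4 * ‖F z‖ ^ 2 : ℝ)) : ℂ) *
        Complex.exp (((-(2 * π * ⟪a, z⟫) : ℝ) : ℂ) * Complex.I) =
        4 * (((‖F z‖ ^ 2 : ℝ) : ℂ) * Complex.exp (((-(2 * π * ⟪a, z⟫) : ℝ) : ℂ) * Complex.I)) := by
      intro z
      push_cast
      ring
    simp only [h5]
    rw [integral_const_mul, h1, mul_zero]

/-- The reproducing kernel. -/
theorem exists_kernel (n : ℕ) : ∃ K : E n → ℂ, Continuous K ∧ (∃ C : ℝ, 0 < C ∧ ∀ z, ‖K z‖ ≤ C * ow z) ∧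
    ∀ x : E n, ‖x‖ ≤ 1 →
      ∫ z, K z * Complex.exp (((2 * π * ⟪x, z⟫ : ℝ) : ℂ) * Complex.I) = 1 := by
  let b : ContDiffBump (0 : E n) := ⟨1, 2, by norm_num, by norm_num⟩
  set f : 𝓢(E n, ℂ) := HasCompactSupport.toSchwartzMap (f := fun x : E n => ((b x : ℝ) : ℂ))
    (b.hasCompactSupport.comp_left (g := fun t : ℝ => (t : ℂ)) Complex.ofReal_zero)
    (Complex.ofRealCLM.contDiff.comp b.contDiff) with hf
  set F : 𝓢(E n, ℂ) := 𝓕 f with hF
  refine ⟨F, F.continuous, schwartz_ow F, fun x hx => ?_⟩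
  have h1 : 𝓕⁻ F x = f x := by rw [hF, FourierTransform.fourierInv_fourier_eq]
  have h2 : f x = 1 := by
    have h3 : b x = 1 := b.one_of_mem_closedBall (by
      rw [Metric.mem_closedBall, dist_zero_right]
      exact hx)
    change ((b x : ℝ) : ℂ) = 1
    rw [h3, Complex.ofReal_one]
  rw [h2, SchwartzMap.fourierInv_coe, Real.fourierInv_eq'] at h1
  rw [← h1]
  refine integral_congr_ae (Filter.Eventually.of_forall fun z => ?_)
  simp only [smul_eq_mul]
  rw [mul_comm, real_inner_comm]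

end Pool.Agent.GNP
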