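import Pool.Agent.GNP.TMo1
import Pool.Agent.MP_6cbfb8_an.SteinTomas

/-!
Orthogonality of caps: the reproducing formula, the orthogonality and the square function.
-/

namespace Pool.Agent.GNP

open MeasureTheory Set Pool.Agent.MP_6cbfb8_an
open scoped ENNReal Real RealInnerProductSpace ContDiff

theorem norm_extn_le_of {n : ℕ} (g : E n → ℂ) (B : ℝ) (hB : ∀ x, ‖g x‖ ≤ B) (ξ : E n) :
    ‖extn g ξ‖ ≤ B * (sm n).real univ := by
  unfold extn
  refine norm_integral_le_of_norm_le_const (Filter.Eventually.of_forall fun x => ?_)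
  rw [norm_mul, Complex.norm_exp_ofReal_mul_I, mul_one]
  exact hB x

/-- The reproducing formula. -/
theorem extn_repr {n : ℕ} (K : E n → ℂ) (hKi : Integrable K)
    (hK : ∀ x : E n, ‖x‖ ≤ 1 →
      ∫ z, K z * Complex.exp (((2 * π * ⟪x, z⟫ : ℝ) : ℂ) * Complex.I) = 1)
    (g : E n → ℂ) (hg : Measurable g) (B : ℝ) (hB : ∀ x, ‖g x‖ ≤ B) (x0 : E n) (ρ : ℝ) (hρ : 0 < ρ)
    (hs : ∀ x ∈ S n, ρ < ‖x - x0‖ → g x = 0) (ξ : E n) :
    extn g ξ = ∫ z, K z * Complex.exp (((-(2 * π * ⟪x0, ρ⁻¹ • z⟫) : ℝ) : ℂ) * Complex.I) *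
      extn g (ξ - ρ⁻¹ • z) := by
  have hB0 : 0 ≤ B := (norm_nonneg _).trans (hB 0)
  have hgm : Measurable fun x : S n => g x := hg.comp measurable_subtype_coe
  have hprod : Integrable (fun p : E n × S n => K p.1 *
      (g p.2 * Complex.exp (((-(2 * π * ⟪(p.2 : E n), ξ⟫) : ℝ) : ℂ) * Complex.I) *
        Complex.exp (((2 * π * ⟪ρ⁻¹ • ((p.2 : E n) - x0), p.1⟫ : ℝ) : ℂ) * Complex.I)))
      (volume.prod (sm n)) := by
    have h1 : Integrable (fun p : E n × S n => ‖K p.1‖ * B) (volume.prod (sm n)) :=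
      hKi.norm.mul_prod (integrable_const B)
    refine h1.mono' ?_ (Filter.Eventually.of_forall fun p => ?_)
    · refine (hKi.1.comp_fst).mul ?_
      refine Measurable.aestronglyMeasurable ?_
      have h2 : Measurable fun p : E n × S n => g p.2 := hgm.comp measurable_snd
      have h3 : Measurable fun p : E n × S n =>
          Complex.exp (((-(2 * π * ⟪(p.2 : E n), ξ⟫) : ℝ) : ℂ) * Complex.I) :=
        Continuous.measurable (by fun_prop)
      have h4 : Measurable fun p : E n × S n =>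
          Complex.exp (((2 * π * ⟪ρ⁻¹ • ((p.2 : E n) - x0), p.1⟫ : ℝ) : ℂ) * Complex.I) :=
        Continuous.measurable (by fun_prop)
      exact (h2.mul h3).mul h4
    · rw [norm_mul, norm_mul, norm_mul, Complex.norm_exp_ofReal_mul_I,
        Complex.norm_exp_ofReal_mul_I, mul_one, mul_one]
      exact mul_le_mul_of_nonneg_left (hB _) (norm_nonneg _)
  have h5 : ∀ z : E n, K z * Complex.exp (((-(2 * π * ⟪x0, ρ⁻¹ • z⟫) : ℝ) : ℂ) * Complex.I) *
      extn g (ξ - ρ⁻¹ • z) = ∫ x : S n, K z *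
      (g x * Complex.exp (((-(2 * π * ⟪(x : E n), ξ⟫) : ℝ) : ℂ) * Complex.I) *
        Complex.exp (((2 * π * ⟪ρ⁻¹ • ((x : E n) - x0), z⟫ : ℝ) : ℂ) * Complex.I)) ∂(sm n) := by
    intro z
    unfold extn
    rw [← integral_const_mul]
    refine integral_congr_ae (Filter.Eventually.of_forall fun x => ?_)
    simp only
    have h6 : Complex.exp (((-(2 * π * ⟪x0, ρ⁻¹ • z⟫) : ℝ) : ℂ) * Complex.I) *
        (g x * Complex.exp (((-(2 * π * ⟪(x : E n), ξ - ρ⁻¹ • z⟫) : ℝ) : ℂ) * Complex.I)) =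
        g x * (Complex.exp (((-(2 * π * ⟪x0, ρ⁻¹ • z⟫) : ℝ) : ℂ) * Complex.I) *
          Complex.exp (((-(2 * π * ⟪(x : E n), ξ - ρ⁻¹ • z⟫) : ℝ) : ℂ) * Complex.I)) := by ring
    rw [mul_assoc (K z), h6, ← Complex.exp_add, mul_assoc (g x), ← Complex.exp_add]
    congr 3
    rw [inner_sub_right, real_inner_smul_right, real_inner_smul_right, real_inner_smul_left,
      inner_sub_left]
    push_cast
    ring
  simp only [h5]
  rw [integral_integral_swap hprod]
  unfold extn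
  refine integral_congr_ae (Filter.Eventually.of_forall fun x => ?_)
  simp only
  by_cases hx : ρ < ‖(x : E n) - x0‖
  · rw [hs x x.2 hx]
    simp
  · have h7 := hK (ρ⁻¹ • ((x : E n) - x0)) (by
      rw [norm_smul, Real.norm_of_nonneg (by positivity), inv_mul_le_iff₀ hρ, mul_one]
      exact not_lt.1 hx)
    have h8 : ∀ z : E n, K z *
        (g x * Complex.exp (((-(2 * π * ⟪(x : E n), ξ⟫) : ℝ) : ℂ) * Complex.I) *
          Complex.exp (((2 * π * ⟪ρ⁻¹ • ((x : E n) - x0), z⟫ : ℝ) : ℂ) * Complex.I)) =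
        (g x * Complex.exp (((-(2 * π * ⟪(x : E n), ξ⟫) : ℝ) : ℂ) * Complex.I)) *
          (K z * Complex.exp (((2 * π * ⟪ρ⁻¹ • ((x : E n) - x0), z⟫ : ℝ) : ℂ) * Complex.I)) := by
      intro z
      ring
    simp only [h8]
    rw [integral_const_mul, h7, mul_one]

/-- The scaled window has no frequency beyond `ρ`. -/
theorem window_scaled {n : ℕ} (W : E n → ℝ)
    (hW : ∀ a : E n, 1 ≤ ‖a‖ →
      ∫ z, ((W z : ℝ) : ℂ) * Complex.exp (((-(2 * π * ⟪a, z⟫) : ℝ) : ℂ) * Complex.I) = 0)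
    (ρ : ℝ) (hρ : 0 < ρ) (X b : E n) (hb : ρ ≤ ‖b‖) :
    ∫ ξ, ((W (ρ • (ξ - X)) : ℝ) : ℂ) *
      Complex.exp (((-(2 * π * ⟪b, ξ⟫) : ℝ) : ℂ) * Complex.I) = 0 := by
  have h1 := integral_sub_right_eq_self (μ := (volume : Measure (E n)))
    (fun ξ => ((W (ρ • ξ) : ℝ) : ℂ) *
      Complex.exp (((-(2 * π * ⟪b, ξ + X⟫) : ℝ) : ℂ) * Complex.I)) X
  simp only [sub_add_cancel] at h1
  rw [h1]
  have h2 := Measure.integral_comp_smul (volume : Measure (E n)) (fun ξ => ((W ξ : ℝ) : ℂ) *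
    Complex.exp (((-(2 * π * ⟪b, ρ⁻¹ • ξ + X⟫) : ℝ) : ℂ) * Complex.I)) ρ
  simp only [inv_smul_smul₀ hρ.ne'] at h2
  rw [h2]
  have h3 : ∀ ξ : E n, ((W ξ : ℝ) : ℂ) *
      Complex.exp (((-(2 * π * ⟪b, ρ⁻¹ • ξ + X⟫) : ℝ) : ℂ) * Complex.I) =
      Complex.exp (((-(2 * π * ⟪b, X⟫) : ℝ) : ℂ) * Complex.I) * (((W ξ : ℝ) : ℂ) *
        Complex.exp (((-(2 * π * ⟪ρ⁻¹ • b, ξ⟫) : ℝ) : ℂ) * Complex.I)) := by
    intro ξ
    rw [mul_left_comm, ← Complex.exp_add]
    congr 2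
    rw [inner_add_right, real_inner_smul_right, real_inner_smul_left]
    push_cast
    ring
  simp only [h3]
  rw [integral_const_mul, hW (ρ⁻¹ • b) (by
    rw [norm_smul, Real.norm_of_nonneg (by positivity), le_inv_mul_iff₀ hρ, mul_one]
    exact hb), mul_zero, smul_zero]

/-- Orthogonality. -/
theorem extn_orth {n : ℕ} (W : E n → ℝ) (hWc : Continuous W) (ρ : ℝ) (hρ : 0 < ρ) (X : E n)
    (hWi : Integrable fun ξ : E n => W (ρ • (ξ - X)))
    (hW : ∀ a : E n, 1 ≤ ‖a‖ →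
      ∫ z, ((W z : ℝ) : ℂ) * Complex.exp (((-(2 * π * ⟪a, z⟫) : ℝ) : ℂ) * Complex.I) = 0)
    (g g' : E n → ℂ) (hg : Measurable g) (hg' : Measurable g') (B : ℝ) (hB : ∀ x, ‖g x‖ ≤ B)
    (hB' : ∀ x, ‖g' x‖ ≤ B)
    (hsep : ∀ x ∈ S n, ∀ y ∈ S n, g x ≠ 0 → g' y ≠ 0 → ρ ≤ ‖x - y‖) :
    ∫ ξ, ((W (ρ • (ξ - X)) : ℝ) : ℂ) * (extn g ξ * (starRingEnd ℂ) (extn g' ξ)) = 0 := by
  have hB0 : 0 ≤ B := (norm_nonneg _).trans (hB 0)
  have hgm : Measurable fun x : S n => g x := hg.comp measurable_subtype_coe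
  have hgm' : Measurable fun x : S n => g' x := hg'.comp measurable_subtype_coe
  have h1 : ∀ ξ : E n, extn g ξ * (starRingEnd ℂ) (extn g' ξ) =
      ∫ p : S n × S n, g p.1 * (starRingEnd ℂ) (g' p.2) *
        Complex.exp (((-(2 * π * ⟪(p.1 : E n) - (p.2 : E n), ξ⟫) : ℝ) : ℂ) * Complex.I)
          ∂((sm n).prod (sm n)) := by
    intro ξ
    unfold extn
    rw [← integral_conj, ← integral_prod_mul]
    refine integral_congr_ae (Filter.Eventually.of_forall fun p => ?_)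
    simp only
    rw [map_mul, ← Complex.exp_conj]
    have h2 : (starRingEnd ℂ) (((-(2 * π * ⟪(p.2 : E n), ξ⟫) : ℝ) : ℂ) * Complex.I) =
        ((2 * π * ⟪(p.2 : E n), ξ⟫ : ℝ) : ℂ) * Complex.I := by
      rw [map_mul, Complex.conj_ofReal, Complex.conj_I]
      push_cast
      ring
    rw [h2, mul_mul_mul_comm, ← Complex.exp_add]
    congr 2
    rw [inner_sub_left]
    push_cast
    ring
  simp only [h1]
  have hprod : Integrable (fun q : E n × (S n × S n) => ((W (ρ • (q.1 - X)) : ℝ) : ℂ) *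
      (g q.2.1 * (starRingEnd ℂ) (g' q.2.2) *
        Complex.exp (((-(2 * π * ⟪(q.2.1 : E n) - (q.2.2 : E n), q.1⟫) : ℝ) : ℂ) * Complex.I)))
      (volume.prod ((sm n).prod (sm n))) := by
    have h2 : Integrable (fun q : E n × (S n × S n) => ‖W (ρ • (q.1 - X))‖ * (B * B))
        (volume.prod ((sm n).prod (sm n))) := hWi.norm.mul_prod (integrable_const (B * B))
    refine h2.mono' ?_ (Filter.Eventually.of_forall fun q => ?_)
    · refine Measurable.aestronglyMeasurable ?_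
      have h3 : Measurable fun q : E n × (S n × S n) => ((W (ρ • (q.1 - X)) : ℝ) : ℂ) :=
        Continuous.measurable (by fun_prop)
      have h4 : Measurable fun q : E n × (S n × S n) =>
          Complex.exp (((-(2 * π * ⟪(q.2.1 : E n) - (q.2.2 : E n), q.1⟫) : ℝ) : ℂ) * Complex.I) :=
        Continuous.measurable (by fun_prop)
      have h5 : Measurable fun q : E n × (S n × S n) => g q.2.1 :=
        hgm.comp (measurable_fst.comp measurable_snd)
      have h6 : Measurable fun q : E n × (S n × S n) => (starRingEnd ℂ) (g' q.2.2) :=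
        Complex.continuous_conj.measurable.comp (hgm'.comp (measurable_snd.comp measurable_snd))
      exact h3.mul ((h5.mul h6).mul h4)
    · rw [norm_mul, norm_mul, norm_mul, Complex.norm_exp_ofReal_mul_I, mul_one,
        Complex.norm_real, RCLike.norm_conj]
      gcongr
      · exact hB _
      · exact hB' _
  simp only [← integral_const_mul]
  rw [integral_integral_swap hprod]
  rw [← integral_zero (S n × S n) ℂ]
  refine integral_congr_ae (Filter.Eventually.of_forall fun p => ?_)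
  simp only
  have h7 : ∀ ξ : E n, ((W (ρ • (ξ - X)) : ℝ) : ℂ) *
      (g p.1 * (starRingEnd ℂ) (g' p.2) *
        Complex.exp (((-(2 * π * ⟪(p.1 : E n) - (p.2 : E n), ξ⟫) : ℝ) : ℂ) * Complex.I)) =
      g p.1 * (starRingEnd ℂ) (g' p.2) * (((W (ρ • (ξ - X)) : ℝ) : ℂ) *
        Complex.exp (((-(2 * π * ⟪(p.1 : E n) - (p.2 : E n), ξ⟫) : ℝ) : ℂ) * Complex.I)) := by
    intro ξ
    ring
  simp only [h7]
  rw [integral_const_mul]
  by_cases hp : g p.1 = 0
  · rw [hp]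
    simp
  · by_cases hp' : g' p.2 = 0
    · rw [hp']
      simp
    · rw [window_scaled W hW ρ hρ X _ (hsep p.1 p.1.2 p.2 p.2.2 hp hp'), mul_zero]

/-- The square function estimate. -/
theorem extn_sq {n : ℕ} (W : E n → ℝ) (hWc : Continuous W) (hW0 : ∀ z, 0 ≤ W z) (ρ : ℝ) (hρ : 0 < ρ)
    (X : E n) (hWi : Integrable fun ξ : E n => W (ρ • (ξ - X)))
    (hW : ∀ a : E n, 1 ≤ ‖a‖ →
      ∫ z, ((W z : ℝ) : ℂ) * Complex.exp (((-(2 * π * ⟪a, z⟫) : ℝ) : ℂ) * Complex.I) = 0)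
    {ι : Type*} [Fintype ι] (x : ι → E n) (g : ι → E n → ℂ) (hg : ∀ i, Measurable (g i)) (B : ℝ)
    (hB : ∀ i x, ‖g i x‖ ≤ B) (hs : ∀ i, ∀ y ∈ S n, ρ < ‖y - x i‖ → g i y = 0) (M : ℕ)
    (hM : ∀ i, {j | ‖x i - x j‖ ≤ 3 * ρ}.encard ≤ M) :
    ∫ ξ, W (ρ • (ξ - X)) * ‖∑ i, extn (g i) ξ‖ ^ 2 ≤
      M * ∑ i, ∫ ξ, W (ρ • (ξ - X)) * ‖extn (g i) ξ‖ ^ 2 := by
  classical
  set u : ι → E n → ℂ := fun i => extn (g i) with hu
  have hum : ∀ i, Measurable (u i) := fun i => measurable_extn _ (hg i)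
  set C : ℝ := B * (sm n).real univ with hC
  have hub : ∀ i ξ, ‖u i ξ‖ ≤ C := fun i ξ => norm_extn_le_of _ _ (hB i) ξ
  set w : E n → ℝ := fun ξ => W (ρ • (ξ - X)) with hw
  have hw0 : ∀ ξ, 0 ≤ w ξ := fun ξ => hW0 _
  have hij : ∀ i j, Integrable fun ξ => ((w ξ : ℝ) : ℂ) * (u i ξ * (starRingEnd ℂ) (u j ξ)) := by
    intro i j
    have h1 : Integrable fun ξ => w ξ * (C * C) := hWi.mul_const _
    refine h1.mono' ?_ (Filter.Eventually.of_forall fun ξ => ?_)
    · have h2 : Measurable fun ξ => ((w ξ : ℝ) : ℂ) := Continuous.measurable (by fun_prop)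
      exact (h2.mul ((hum i).mul (Complex.continuous_conj.measurable.comp
        (hum j)))).aestronglyMeasurable
    · rw [norm_mul, norm_mul, Complex.norm_real, RCLike.norm_conj, Real.norm_of_nonneg (hw0 ξ)]
      gcongr
      · exact hw0 ξ
      · exact (norm_nonneg _).trans (hub i ξ)
      · exact hub i ξ
      · exact hub j ξ
  have hii : ∀ i, Integrable fun ξ => w ξ * ‖u i ξ‖ ^ 2 := by
    intro i
    refine (hij i i).re.congr (Filter.Eventually.of_forall fun ξ => ?_)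
    simp only [RCLike.re_to_complex]
    rw [Complex.mul_conj, Complex.normSq_eq_norm_sq, ← Complex.ofReal_mul, Complex.ofReal_re]
  -- expansion
  have hexp : ∫ ξ, w ξ * ‖∑ i, u i ξ‖ ^ 2 =
      ∑ i, ∑ j, (∫ ξ, ((w ξ : ℝ) : ℂ) * (u i ξ * (starRingEnd ℂ) (u j ξ))).re := by
    have h1 : ∀ ξ, ((w ξ * ‖∑ i, u i ξ‖ ^ 2 : ℝ) : ℂ) =
        ∑ i, ∑ j, ((w ξ : ℝ) : ℂ) * (u i ξ * (starRingEnd ℂ) (u j ξ)) := by
      intro ξ
      rw [Complex.ofReal_mul, ← Complex.normSq_eq_norm_sq, ← Complex.mul_conj, map_sum,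
        Finset.sum_mul_sum, Finset.mul_sum]
      refine Finset.sum_congr rfl fun i _ => ?_
      rw [Finset.mul_sum]
    have h2 : ((∫ ξ, w ξ * ‖∑ i, u i ξ‖ ^ 2 : ℝ) : ℂ) =
        ∑ i, ∑ j, ∫ ξ, ((w ξ : ℝ) : ℂ) * (u i ξ * (starRingEnd ℂ) (u j ξ)) := by
      rw [← integral_complex_ofReal]
      simp only [h1]
      rw [integral_finsetSum _ fun i _ => integrable_finsetSum _ fun j _ => hij i j]
      refine Finset.sum_congr rfl fun i _ => ?_
      rw [integral_finsetSum _ fun j _ => hij i j]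
    have h3 := congrArg Complex.re h2
    rw [Complex.ofReal_re, Complex.re_sum] at h3
    rw [h3]
    refine Finset.sum_congr rfl fun i _ => ?_
    rw [Complex.re_sum]
  set I : ι → ℝ := fun i => ∫ ξ, w ξ * ‖u i ξ‖ ^ 2 with hI
  have hI0 : ∀ i, 0 ≤ I i := fun i => integral_nonneg fun ξ => mul_nonneg (hw0 ξ) (by positivity)
  -- one pair
  have hpair : ∀ i j, (∫ ξ, ((w ξ : ℝ) : ℂ) * (u i ξ * (starRingEnd ℂ) (u j ξ))).re ≤
      if ‖x i - x j‖ ≤ 3 * ρ then (I i + I j) / 2 else 0 := by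
    intro i j
    split_ifs with h
    · refine (Complex.re_le_norm _).trans ((norm_integral_le_integral_norm _).trans ?_)
      rw [hI]
      simp only
      rw [← integral_add (hii i) (hii j), ← integral_div]
      refine integral_mono_of_nonneg (Filter.Eventually.of_forall fun ξ => norm_nonneg _)
        (((hii i).add (hii j)).div_const 2) (Filter.Eventually.of_forall fun ξ => ?_)
      simp only
      rw [norm_mul, norm_mul, Complex.norm_real, RCLike.norm_conj, Real.norm_of_nonneg (hw0 ξ)]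
      have h1 := hw0 ξ
      have h2 := two_mul_le_add_sq ‖u i ξ‖ ‖u j ξ‖
      nlinarith
    · rw [extn_orth W hWc ρ hρ X hWi hW (g i) (g j) (hg i) (hg j) B (hB i) (hB j), Complex.zero_re]
      intro y hy y' hy' hgy hgy'
      have h1 : ‖y - x i‖ ≤ ρ := by
        by_contra hcon
        exact hgy (hs i y hy (not_le.1 hcon))
      have h2 : ‖y' - x j‖ ≤ ρ := by
        by_contra hcon
        exact hgy' (hs j y' hy' (not_le.1 hcon))
      have h3 : ‖x i - x j‖ ≤ ‖y - x i‖ + ‖y - y'‖ + ‖y' - x j‖ := by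
        calc ‖x i - x j‖ = ‖-(y - x i) + (y - y') + (y' - x j)‖ := by congr 1; abel
          _ ≤ ‖-(y - x i)‖ + ‖y - y'‖ + ‖y' - x j‖ := norm_add₃_le
          _ = _ := by rw [norm_neg]
      linarith [not_le.1 h]
  rw [hexp]
  have hcard : ∀ i, ((Finset.univ.filter fun j => ‖x i - x j‖ ≤ 3 * ρ).card : ℝ) ≤ M := by
    intro i
    have h1 := hM i
    have h2 : {j | ‖x i - x j‖ ≤ 3 * ρ} =
        ((Finset.univ.filter fun j => ‖x i - x j‖ ≤ 3 * ρ : Finset ι) : Set ι) := by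
      ext j
      simp
    rw [h2, Set.encard_coe_eq_coe_finsetCard] at h1
    exact_mod_cast h1
  calc ∑ i, ∑ j, (∫ ξ, ((w ξ : ℝ) : ℂ) * (u i ξ * (starRingEnd ℂ) (u j ξ))).re
      ≤ ∑ i, ∑ j, if ‖x i - x j‖ ≤ 3 * ρ then (I i + I j) / 2 else 0 :=
        Finset.sum_le_sum fun i _ => Finset.sum_le_sum fun j _ => hpair i j
    _ = (∑ i, ∑ j, if ‖x i - x j‖ ≤ 3 * ρ then I i / 2 else 0) +
        ∑ i, ∑ j, if ‖x i - x j‖ ≤ 3 * ρ then I j / 2 else 0 := by
        rw [← Finset.sum_add_distrib]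
        refine Finset.sum_congr rfl fun i _ => ?_
        rw [← Finset.sum_add_distrib]
        refine Finset.sum_congr rfl fun j _ => ?_
        split_ifs <;> ring
    _ = (∑ i, ∑ j, if ‖x i - x j‖ ≤ 3 * ρ then I i / 2 else 0) +
        ∑ i, ∑ j, if ‖x i - x j‖ ≤ 3 * ρ then I i / 2 else 0 := by
        congr 1
        rw [Finset.sum_comm]
        refine Finset.sum_congr rfl fun i _ => Finset.sum_congr rfl fun j _ => ?_
        rw [norm_sub_rev]
    _ = ∑ i, ((Finset.univ.filter fun j => ‖x i - x j‖ ≤ 3 * ρ).card : ℝ) * I i := by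
        rw [← two_mul, Finset.mul_sum]
        refine Finset.sum_congr rfl fun i _ => ?_
        rw [← Finset.sum_filter, Finset.sum_const, nsmul_eq_mul]
        ring
    _ ≤ ∑ i, (M : ℝ) * I i :=
        Finset.sum_le_sum fun i _ => mul_le_mul_of_nonneg_right (hcard i) (hI0 i)
    _ = _ := by rw [Finset.mul_sum]

end Pool.Agent.GNP
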