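import Pool.Agent.GNP.TMo2

/-!
Orthogonality of caps: the local averages and the inequality.
-/

namespace Pool.Agent.GNP

open MeasureTheory Set Pool.Agent.MP_6cbfb8_an
open scoped ENNReal Real RealInnerProductSpace ContDiff

/-- Jensen's inequality with a weight. -/
theorem ojens {α : Type*} [MeasurableSpace α] (μ : Measure α) (w f : α → ℝ≥0∞) (hw : Measurable w)
    (hf : Measurable f) (p : ℝ) (hp : 1 ≤ p) :
    (∫⁻ x, w x * f x ∂μ) ^ p ≤ (∫⁻ x, w x ∂μ) ^ (p - 1) * ∫⁻ x, w x * f x ^ p ∂μ := by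
  rcases hp.eq_or_lt with rfl | hp1
  · simp
  have hp0 : 0 < p := by linarith
  set q : ℝ := p / (p - 1) with hq
  have hpq : p.HolderConjugate q := by
    rw [Real.holderConjugate_iff]
    refine ⟨hp1, ?_⟩
    rw [hq]
    field_simp
    ring
  have hq0 : 0 < q := hpq.symm.pos
  have h1 := ENNReal.lintegral_mul_le_Lp_mul_Lq μ hpq
    (f := fun x => w x ^ (1 / p) * f x) (g := fun x => w x ^ (1 / q))
    ((hw.pow_const _).mul hf).aemeasurable (hw.pow_const _).aemeasurable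
  have h2 : ∀ x, ((fun x => w x ^ (1 / p) * f x) * fun x => w x ^ (1 / q)) x = w x * f x := by
    intro x
    simp only [Pi.mul_apply]
    rw [mul_right_comm, ← ENNReal.rpow_add_of_nonneg _ _ (by positivity) (by positivity)]
    have : 1 / p + 1 / q = 1 := by
      rw [hq]
      field_simp
      ring
    rw [this, ENNReal.rpow_one]
  have h3 : ∀ x, (w x ^ (1 / p) * f x) ^ p = w x * f x ^ p := by
    intro x
    rw [ENNReal.mul_rpow_of_nonneg _ _ hp0.le, ← ENNReal.rpow_mul, one_div,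
      inv_mul_cancel₀ hp0.ne', ENNReal.rpow_one]
  have h4 : ∀ x, (w x ^ (1 / q)) ^ q = w x := by
    intro x
    rw [← ENNReal.rpow_mul, one_div, inv_mul_cancel₀ hq0.ne', ENNReal.rpow_one]
  simp only [h2, h3, h4] at h1
  calc (∫⁻ x, w x * f x ∂μ) ^ p
      ≤ ((∫⁻ x, w x * f x ^ p ∂μ) ^ (1 / p) * (∫⁻ x, w x ∂μ) ^ (1 / q)) ^ p :=
        ENNReal.rpow_le_rpow h1 hp0.le
    _ = _ := by
        rw [ENNReal.mul_rpow_of_nonneg _ _ hp0.le, ← ENNReal.rpow_mul, ← ENNReal.rpow_mul, one_div,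
          inv_mul_cancel₀ hp0.ne', ENNReal.rpow_one, mul_comm]
        congr 2
        rw [hq]
        field_simp

/-- Power means. -/
theorem opow {ι : Type*} [Fintype ι] (A : ι → ℝ≥0∞) (p : ℝ) (hp : 2 ≤ p) :
    (∑ i, A i ^ (1 / p)) ^ (p - 2) * ∑ i, A i ^ (2 / p) ≤
      (Fintype.card ι : ℝ≥0∞) ^ (p - 2) * ∑ i, A i := by
  have hp0 : 0 < p := by linarith
  set N : ℝ≥0∞ := (Fintype.card ι : ℝ≥0∞) with hN
  have hN' : N ≠ ⊤ := ENNReal.natCast_ne_top _
  have hgen : ∀ r : ℝ, 1 ≤ r → ∀ b : ι → ℝ≥0∞, (∑ i, b i) ^ r ≤ N ^ (r - 1) * ∑ i, b i ^ r := by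
    intro r hr b
    let _ : MeasurableSpace ι := ⊤
    have h := ojens (Measure.count : Measure ι) (fun _ => 1) b measurable_const
      (fun _ _ => trivial) r hr
    simp only [one_mul, lintegral_count, tsum_fintype, lintegral_one, Measure.count_apply,
      MeasurableSet.univ] at h
    simpa [hN] using h
  have h1 : (∑ i, A i ^ (1 / p)) ^ (p - 2) ≤ (N ^ (p - 1) * ∑ i, A i) ^ ((p - 2) / p) := by
    have h := hgen p (by linarith) fun i => A i ^ (1 / p)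
    have h2 : ∀ i, (A i ^ (1 / p)) ^ p = A i := by
      intro i
      rw [← ENNReal.rpow_mul, one_div, inv_mul_cancel₀ hp0.ne', ENNReal.rpow_one]
    simp only [h2] at h
    calc (∑ i, A i ^ (1 / p)) ^ (p - 2) = ((∑ i, A i ^ (1 / p)) ^ p) ^ ((p - 2) / p) := by
          rw [← ENNReal.rpow_mul]
          congr 1
          field_simp
      _ ≤ _ := ENNReal.rpow_le_rpow h (by
          have : 0 ≤ p - 2 := by linarith
          positivity)
  have h3 : ∑ i, A i ^ (2 / p) ≤ (N ^ (p / 2 - 1) * ∑ i, A i) ^ (2 / p) := by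
    have h := hgen (p / 2) (by linarith) fun i => A i ^ (2 / p)
    have h2 : ∀ i, (A i ^ (2 / p)) ^ (p / 2) = A i := by
      intro i
      rw [← ENNReal.rpow_mul]
      have : 2 / p * (p / 2) = 1 := by field_simp
      rw [this, ENNReal.rpow_one]
    simp only [h2] at h
    calc ∑ i, A i ^ (2 / p) = ((∑ i, A i ^ (2 / p)) ^ (p / 2)) ^ (2 / p) := by
          rw [← ENNReal.rpow_mul]
          have : p / 2 * (2 / p) = 1 := by field_simp
          rw [this, ENNReal.rpow_one]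
      _ ≤ _ := ENNReal.rpow_le_rpow h (by positivity)
  have hp2 : 0 ≤ (p - 2) / p := by
    have : 0 ≤ p - 2 := by linarith
    positivity
  calc (∑ i, A i ^ (1 / p)) ^ (p - 2) * ∑ i, A i ^ (2 / p)
      ≤ (N ^ (p - 1) * ∑ i, A i) ^ ((p - 2) / p) * (N ^ (p / 2 - 1) * ∑ i, A i) ^ (2 / p) :=
        mul_le_mul' h1 h3
    _ = (N ^ ((p - 1) * ((p - 2) / p)) * N ^ ((p / 2 - 1) * (2 / p))) *
        ((∑ i, A i) ^ ((p - 2) / p) * (∑ i, A i) ^ (2 / p)) := by
        rw [ENNReal.mul_rpow_of_nonneg _ _ hp2, ENNReal.mul_rpow_of_nonneg _ _ (by positivity),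
          ← ENNReal.rpow_mul, ← ENNReal.rpow_mul]
        ring
    _ = N ^ (p - 2) * ∑ i, A i := by
        rw [← ENNReal.rpow_add_of_nonneg _ _ (by
            have : 0 ≤ p - 1 := by linarith
            positivity) (by
            have : 0 ≤ p / 2 - 1 := by linarith
            positivity), ← ENNReal.rpow_add_of_nonneg _ _ hp2 (by positivity)]
        have e1 : (p - 1) * ((p - 2) / p) + (p / 2 - 1) * (2 / p) = p - 2 := by
          field_simp
          ring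
        have e2 : (p - 2) / p + 2 / p = 1 := by
          field_simp
          ring
        rw [e1, e2, ENNReal.rpow_one]

/-- The local average of the `p`-th power. -/
noncomputable def oA {n : ℕ} (p ρ : ℝ) (u : E n → ℂ) (X : E n) : ℝ≥0∞ :=
  ∫⁻ z, ENNReal.ofReal (ow z) * ‖u (X - ρ⁻¹ • z)‖ₑ ^ p

theorem measurable_oA {n : ℕ} (p ρ : ℝ) {u : E n → ℂ} (hu : Measurable u) : Measurable (oA p ρ u) := by
  unfold oA
  refine Measurable.lintegral_prod_right' (f := fun q : E n × E n =>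
    ENNReal.ofReal (ow q.2) * ‖u (q.1 - ρ⁻¹ • q.2)‖ₑ ^ p) ?_
  have h1 : Measurable fun q : E n × E n => ow q.2 := continuous_ow.measurable.comp measurable_snd
  have h2 : Measurable fun q : E n × E n => u (q.1 - ρ⁻¹ • q.2) :=
    hu.comp (Continuous.measurable (by fun_prop))
  exact h1.ennreal_ofReal.mul (h2.enorm.pow_const _)

theorem lint_ow (n : ℕ) : ∫⁻ z : E n, ENNReal.ofReal (ow z) = ENNReal.ofReal (∫ z : E n, ow z) :=
  (ofReal_integral_eq_lintegral_ofReal (integrable_ow n)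
    (Filter.Eventually.of_forall fun z => (ow_pos z).le)).symm

/-- The integral of the local averages. -/
theorem lint_oA {n : ℕ} (p ρ : ℝ) {u : E n → ℂ} (hu : Measurable u) :
    ∫⁻ X, oA p ρ u X = ENNReal.ofReal (∫ z : E n, ow z) * ∫⁻ ξ, ‖u ξ‖ₑ ^ p := by
  unfold oA
  have h1 : Measurable fun q : E n × E n => ow q.2 := continuous_ow.measurable.comp measurable_snd
  have h2 : Measurable fun q : E n × E n => u (q.1 - ρ⁻¹ • q.2) :=
    hu.comp (Continuous.measurable (by fun_prop))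
  rw [lintegral_lintegral_swap (h1.ennreal_ofReal.mul (h2.enorm.pow_const _)).aemeasurable]
  have h3 : ∀ z : E n, ∫⁻ X, ENNReal.ofReal (ow z) * ‖u (X - ρ⁻¹ • z)‖ₑ ^ p =
      ENNReal.ofReal (ow z) * ∫⁻ ξ, ‖u ξ‖ₑ ^ p := by
    intro z
    rw [lintegral_const_mul' _ _ ENNReal.ofReal_ne_top]
    congr 1
    exact lintegral_sub_right_eq_self (fun X => ‖u X‖ₑ ^ p) (ρ⁻¹ • z)
  simp only [h3]
  rw [lintegral_mul_const _ continuous_ow.measurable.ennreal_ofReal, lint_ow]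

/-- Local constancy. -/
theorem osup (n : ℕ) (p : ℝ) (hp : 1 ≤ p) : ∃ C : ℝ, 0 < C ∧
    ∀ (g : E n → ℂ), Measurable g → ∀ B : ℝ, (∀ x, ‖g x‖ ≤ B) → ∀ (x0 : E n) (ρ : ℝ), 0 < ρ →
      (∀ x ∈ S n, ρ < ‖x - x0‖ → g x = 0) → ∀ X ξ : E n, ‖ρ • (ξ - X)‖ ≤ 1 →
        ‖extn g ξ‖ₑ ^ p ≤ ENNReal.ofReal C * oA p ρ (extn g) X := by
  obtain ⟨K, hKc, ⟨CK, hCK, hKb⟩, hK⟩ := exists_kernel n
  have hKi : Integrable K := by
    refine ((integrable_ow n).const_mul CK).mono' hKc.aestronglyMeasurable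
      (Filter.Eventually.of_forall hKb)
  set I0 : ℝ := ∫ z : E n, ow z with hI0
  have hI00 : 0 ≤ I0 := integral_nonneg fun z => (ow_pos z).le
  refine ⟨(CK * I0) ^ (p - 1) * (CK * 2 ^ (n + 1)) + 1, by positivity, ?_⟩
  intro g hg B hB x0 ρ hρ hs X ξ hξ
  have hum : Measurable (extn g) := measurable_extn g hg
  have h1 : ‖extn g ξ‖ₑ ≤ ∫⁻ z, ENNReal.ofReal (CK * ow z) * ‖extn g (ξ - ρ⁻¹ • z)‖ₑ := by
    have h0 := extn_repr K hKi hK g hg B hB x0 ρ hρ hs ξ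
    rw [h0]
    refine (enorm_integral_le_lintegral_enorm _).trans (lintegral_mono fun z => ?_)
    rw [enorm_mul, enorm_mul]
    have h2 : ‖Complex.exp (((-(2 * π * ⟪x0, ρ⁻¹ • z⟫) : ℝ) : ℂ) * Complex.I)‖ₑ = 1 := by
      rw [← ofReal_norm, Complex.norm_exp_ofReal_mul_I, ENNReal.ofReal_one]
    rw [h2, mul_one]
    refine mul_le_mul_left ?_ _
    rw [← ofReal_norm]
    exact ENNReal.ofReal_le_ofReal (hKb z)
  have hwm : Measurable fun z : E n => ENNReal.ofReal (CK * ow z) :=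
    (continuous_ow.measurable.const_mul _).ennreal_ofReal
  have hfm : Measurable fun z : E n => ‖extn g (ξ - ρ⁻¹ • z)‖ₑ :=
    (hum.comp (Continuous.measurable (by fun_prop))).enorm
  have h3 := ojens volume (fun z : E n => ENNReal.ofReal (CK * ow z)) _ hwm hfm p hp
  have h4 : ∫⁻ z : E n, ENNReal.ofReal (CK * ow z) = ENNReal.ofReal (CK * I0) := by
    simp only [ENNReal.ofReal_mul hCK.le]
    rw [lintegral_const_mul' _ _ ENNReal.ofReal_ne_top, lint_ow]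
  have h5 : ∫⁻ z, ENNReal.ofReal (CK * ow z) * ‖extn g (ξ - ρ⁻¹ • z)‖ₑ ^ p ≤
      ENNReal.ofReal (CK * 2 ^ (n + 1)) * oA p ρ (extn g) X := by
    have h6 := lintegral_add_right_eq_self (μ := (volume : Measure (E n)))
      (fun z => ENNReal.ofReal (CK * ow z) * ‖extn g (ξ - ρ⁻¹ • z)‖ₑ ^ p) (ρ • (ξ - X))
    rw [← h6]
    unfold oA
    rw [← lintegral_const_mul' _ _ ENNReal.ofReal_ne_top]
    refine lintegral_mono fun z => ?_
    simp only
    have h7 : ξ - ρ⁻¹ • (z + ρ • (ξ - X)) = X - ρ⁻¹ • z := by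
      rw [smul_add, inv_smul_smul₀ hρ.ne']
      abel
    rw [h7, ← mul_assoc, ← ENNReal.ofReal_mul (by positivity)]
    refine mul_le_mul_left (ENNReal.ofReal_le_ofReal ?_) _
    have h8 := ow_shift (z + ρ • (ξ - X)) (-(ρ • (ξ - X))) (by rwa [norm_neg])
    rw [add_neg_cancel_right] at h8
    calc CK * ow (z + ρ • (ξ - X)) ≤ CK * (2 ^ (n + 1) * ow z) := by gcongr
      _ = _ := by ring
  calc ‖extn g ξ‖ₑ ^ p ≤ (∫⁻ z, ENNReal.ofReal (CK * ow z) * ‖extn g (ξ - ρ⁻¹ • z)‖ₑ) ^ p :=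
        ENNReal.rpow_le_rpow h1 (by linarith)
    _ ≤ _ := h3
    _ ≤ ENNReal.ofReal (CK * I0) ^ (p - 1) *
        (ENNReal.ofReal (CK * 2 ^ (n + 1)) * oA p ρ (extn g) X) := by
        rw [h4]
        exact mul_le_mul_right h5 _
    _ = ENNReal.ofReal ((CK * I0) ^ (p - 1) * (CK * 2 ^ (n + 1))) * oA p ρ (extn g) X := by
        rw [← mul_assoc, ENNReal.ofReal_rpow_of_nonneg (by positivity) (by linarith),
          ← ENNReal.ofReal_mul (by positivity)]
    _ ≤ _ := mul_le_mul_left (ENNReal.ofReal_le_ofReal (by linarith)) _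

/-- The local `L²` norm. -/
theorem oL2 (n : ℕ) (p : ℝ) (hp : 2 ≤ p) (W : E n → ℝ) (hWc : Continuous W)
    (C0 : ℝ) (hC0 : 0 < C0) (hW : ∀ z, W z ≤ C0 * ow z) : ∃ C : ℝ, 0 < C ∧
    ∀ (u : E n → ℂ), Measurable u → ∀ (ρ : ℝ), 0 < ρ → ∀ X : E n,
      ∫⁻ ξ, ENNReal.ofReal (W (ρ • (ξ - X))) * ‖u ξ‖ₑ ^ (2 : ℝ) ≤
        ENNReal.ofReal (C * (ρ ^ n)⁻¹) * oA p ρ u X ^ (2 / p) := by
  set I0 : ℝ := ∫ z : E n, ow z with hI0
  have hI00 : 0 ≤ I0 := integral_nonneg fun z => (ow_pos z).le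
  have hp0 : 0 < p := by linarith
  refine ⟨C0 * I0 ^ ((p / 2 - 1) * (2 / p)) + 1, by positivity, ?_⟩
  intro u hu ρ hρ X
  -- change of variables
  have h1 : ∫⁻ ξ, ENNReal.ofReal (W (ρ • (ξ - X))) * ‖u ξ‖ₑ ^ (2 : ℝ) =
      ENNReal.ofReal ((ρ ^ n)⁻¹) * ∫⁻ z, ENNReal.ofReal (W (-z)) * ‖u (X - ρ⁻¹ • z)‖ₑ ^ (2 : ℝ) := by
    have hf : Measurable fun ξ : E n => ENNReal.ofReal (W (ρ • (ξ - X))) * ‖u ξ‖ₑ ^ (2 : ℝ) := by
      have hf1 : Measurable fun ξ : E n => W (ρ • (ξ - X)) := Continuous.measurable (by fun_prop)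
      exact hf1.ennreal_ofReal.mul (hu.enorm.pow_const _)
    have h2 := lintegral_sub_left_eq_self (μ := (volume : Measure (E n)))
      (fun ξ => ENNReal.ofReal (W (ρ • (ξ - X))) * ‖u ξ‖ₑ ^ (2 : ℝ)) X
    rw [← h2]
    have h4 : ∫⁻ y : E n, ENNReal.ofReal (W (ρ • (X - y - X))) * ‖u (X - y)‖ₑ ^ (2 : ℝ) =
        ∫⁻ z : E n, ENNReal.ofReal (W (-z)) * ‖u (X - ρ⁻¹ • z)‖ₑ ^ (2 : ℝ)
          ∂(Measure.map (fun y : E n => ρ • y) volume) := by
      rw [lintegral_map _ (measurable_const_smul ρ)]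
      · refine lintegral_congr fun y => ?_
        rw [inv_smul_smul₀ hρ.ne']
        congr 3
        rw [← smul_neg]
        congr 1
        abel
      · have hf1 : Measurable fun ξ : E n => W (-ξ) := Continuous.measurable (by fun_prop)
        have hf2 : Measurable fun z : E n => u (X - ρ⁻¹ • z) :=
          hu.comp (Continuous.measurable (by fun_prop))
        exact hf1.ennreal_ofReal.mul (hf2.enorm.pow_const _)
    rw [h4, Measure.map_addHaar_smul volume hρ.ne', lintegral_smul_measure, smul_eq_mul,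
      finrank_euclideanSpace_fin, abs_of_nonneg (by positivity)]
  rw [h1]
  have h5 : ∫⁻ z, ENNReal.ofReal (W (-z)) * ‖u (X - ρ⁻¹ • z)‖ₑ ^ (2 : ℝ) ≤
      ENNReal.ofReal C0 * ∫⁻ z, ENNReal.ofReal (ow z) * ‖u (X - ρ⁻¹ • z)‖ₑ ^ (2 : ℝ) := by
    rw [← lintegral_const_mul' _ _ ENNReal.ofReal_ne_top]
    refine lintegral_mono fun z => ?_
    rw [← mul_assoc, ← ENNReal.ofReal_mul hC0.le]
    refine mul_le_mul_left (ENNReal.ofReal_le_ofReal ?_) _
    have h6 := hW (-z)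
    have h7 : ow (-z) = ow z := by unfold ow; rw [norm_neg]
    rwa [h7] at h6
  have hf2 : Measurable fun z : E n => u (X - ρ⁻¹ • z) :=
    hu.comp (Continuous.measurable (by fun_prop))
  have hfm : Measurable fun z : E n => ‖u (X - ρ⁻¹ • z)‖ₑ ^ (2 : ℝ) := hf2.enorm.pow_const _
  have hom : Measurable fun z : E n => ENNReal.ofReal (ow z) :=
    continuous_ow.measurable.ennreal_ofReal
  have h8 := ojens volume (fun z : E n => ENNReal.ofReal (ow z)) _ hom hfm (p / 2) (by linarith)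
  have h9 : ∀ z : E n, (‖u (X - ρ⁻¹ • z)‖ₑ ^ (2 : ℝ)) ^ (p / 2) = ‖u (X - ρ⁻¹ • z)‖ₑ ^ p := by
    intro z
    rw [← ENNReal.rpow_mul]
    congr 1
    ring
  simp only [h9] at h8
  rw [lint_ow] at h8
  have h10 : ∫⁻ z : E n, ENNReal.ofReal (ow z) * ‖u (X - ρ⁻¹ • z)‖ₑ ^ (2 : ℝ) ≤
      ENNReal.ofReal (I0 ^ ((p / 2 - 1) * (2 / p))) * oA p ρ u X ^ (2 / p) := by
    calc ∫⁻ z : E n, ENNReal.ofReal (ow z) * ‖u (X - ρ⁻¹ • z)‖ₑ ^ (2 : ℝ)
        = ((∫⁻ z : E n, ENNReal.ofReal (ow z) * ‖u (X - ρ⁻¹ • z)‖ₑ ^ (2 : ℝ)) ^ (p / 2)) ^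
            (2 / p) := by
          rw [← ENNReal.rpow_mul]
          have : p / 2 * (2 / p) = 1 := by field_simp
          rw [this, ENNReal.rpow_one]
      _ ≤ (ENNReal.ofReal I0 ^ (p / 2 - 1) * oA p ρ u X) ^ (2 / p) :=
          ENNReal.rpow_le_rpow h8 (by positivity)
      _ = _ := by
          rw [ENNReal.mul_rpow_of_nonneg _ _ (by positivity), ← ENNReal.rpow_mul,
            ENNReal.ofReal_rpow_of_nonneg hI00 (by
              have : 0 ≤ p / 2 - 1 := by linarith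
              positivity)]
  calc ENNReal.ofReal ((ρ ^ n)⁻¹) * ∫⁻ z, ENNReal.ofReal (W (-z)) * ‖u (X - ρ⁻¹ • z)‖ₑ ^ (2 : ℝ)
      ≤ ENNReal.ofReal ((ρ ^ n)⁻¹) * (ENNReal.ofReal C0 *
        (ENNReal.ofReal (I0 ^ ((p / 2 - 1) * (2 / p))) * oA p ρ u X ^ (2 / p))) :=
        mul_le_mul_right (h5.trans (mul_le_mul_right h10 _)) _
    _ = ENNReal.ofReal (C0 * I0 ^ ((p / 2 - 1) * (2 / p)) * (ρ ^ n)⁻¹) * oA p ρ u X ^ (2 / p) := by
        rw [← mul_assoc, ← mul_assoc, ← ENNReal.ofReal_mul (by positivity),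
          ← ENNReal.ofReal_mul (by positivity)]
        congr 2
        ring
    _ ≤ _ := by
        refine mul_le_mul_left (ENNReal.ofReal_le_ofReal ?_) _
        gcongr
        linarith

end Pool.Agent.GNP
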