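import Pool.Agent.GNP.TMo3

/-!
Orthogonality of caps: the inequality.
-/

namespace Pool.Agent.GNP

open MeasureTheory Set Pool.Agent.MP_6cbfb8_an
open scoped ENNReal Real RealInnerProductSpace ContDiff

/-- ORTH. `N` densities on the unit sphere, in balls of radius `ρ` of which at most `M` meet any of
them: the `p`-th power of the `L^p` norm of the sum is at most `C M N^(p-2)` times the sum of the
`p`-th powers, `p ≥ 2`. -/
theorem orth_caps (n : ℕ) (p : ℝ) (hp : 2 ≤ p) : ∃ C : ℝ, 0 < C ∧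
    ∀ (ι : Type) [Fintype ι] (M : ℕ) (x : ι → E n) (g : ι → E n → ℂ) (B ρ : ℝ), 0 < ρ →
      (∀ i, Measurable (g i)) → (∀ i x, ‖g i x‖ ≤ B) →
      (∀ i, ∀ y ∈ S n, ρ < ‖y - x i‖ → g i y = 0) →
      (∀ i, {j | ‖x i - x j‖ ≤ 3 * ρ}.encard ≤ M) →
      ∫⁻ ξ, ‖∑ i, extn (g i) ξ‖ₑ ^ p ≤
        ENNReal.ofReal (C * M * (Fintype.card ι : ℝ) ^ (p - 2)) *
          ∑ i, ∫⁻ ξ, ‖extn (g i) ξ‖ₑ ^ p := by
  have hp0 : 0 < p := by linarith
  have hp2 : 0 ≤ p - 2 := by linarith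
  obtain ⟨W, hWc, hW0, hW1, ⟨CW, hCW, hWb⟩, hW⟩ := exists_window n
  obtain ⟨C1, hC1, hsup⟩ := osup n p (by linarith)
  obtain ⟨C2, hC2, hL2⟩ := oL2 n p hp W hWc CW hCW hWb
  set I0 : ℝ := ∫ z : E n, ow z with hI0
  have hI00 : 0 ≤ I0 := integral_nonneg fun z => (ow_pos z).le
  have hWi : Integrable W := by
    refine ((integrable_ow n).const_mul CW).mono' hWc.aestronglyMeasurable
      (Filter.Eventually.of_forall fun z => ?_)
    rw [Real.norm_of_nonneg (hW0 z)]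
    exact hWb z
  set v0 : ℝ≥0∞ := volume (Metric.closedBall (0 : E n) 1) with hv0
  have hv0t : v0 ≠ ⊤ := measure_closedBall_lt_top.ne
  have hv00 : v0 ≠ 0 := (Metric.measure_closedBall_pos volume _ one_pos).ne'
  set v : ℝ := v0.toReal with hv
  have hvp : 0 < v := ENNReal.toReal_pos hv00 hv0t
  refine ⟨v⁻¹ * (C1 ^ ((p - 2) / p) * C2 * (I0 + 1)), by positivity, ?_⟩
  intro ι _ M x g B ρ hρ hg hB hs hM
  set u : ι → E n → ℂ := fun i => extn (g i) with hu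
  have hum : ∀ i, Measurable (u i) := fun i => measurable_extn _ (hg i)
  set C : ℝ := B * (sm n).real univ with hC
  have hub : ∀ i ξ, ‖u i ξ‖ ≤ C := fun i ξ => norm_extn_le_of _ _ (hB i) ξ
  set N : ℝ≥0∞ := (Fintype.card ι : ℝ≥0∞) with hN
  set F : E n → ℂ := fun ξ => ∑ i, u i ξ with hF
  have hFm : Measurable F := Finset.measurable_fun_sum _ fun i _ => hum i
  have hWX : ∀ X : E n, Integrable fun ξ : E n => W (ρ • (ξ - X)) := by
    intro X
    exact (hWi.comp_smul hρ.ne').comp_sub_right X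
  have hWXm : ∀ X : E n, Measurable fun ξ : E n => W (ρ • (ξ - X)) := fun X =>
    Continuous.measurable (by fun_prop)
  -- the square function
  have hsq : ∀ X : E n, ∫⁻ ξ, ENNReal.ofReal (W (ρ • (ξ - X))) * ‖F ξ‖ₑ ^ (2 : ℝ) ≤
      M * ∑ i, ∫⁻ ξ, ENNReal.ofReal (W (ρ • (ξ - X))) * ‖u i ξ‖ₑ ^ (2 : ℝ) := by
    intro X
    have h1 := extn_sq W hWc hW0 ρ hρ X (hWX X) hW x g hg B hB hs M hM
    have h2 : ∀ f : E n → ℂ, Measurable f → ∀ D : ℝ, (∀ ξ, ‖f ξ‖ ≤ D) →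
        ∫⁻ ξ, ENNReal.ofReal (W (ρ • (ξ - X))) * ‖f ξ‖ₑ ^ (2 : ℝ) =
          ENNReal.ofReal (∫ ξ, W (ρ • (ξ - X)) * ‖f ξ‖ ^ 2) := by
      intro f hf D hD
      have h3 : Integrable fun ξ => W (ρ • (ξ - X)) * ‖f ξ‖ ^ 2 := by
        refine ((hWX X).mul_const (D ^ 2)).mono'
          ((hWXm X).mul (hf.norm.pow_const 2)).aestronglyMeasurable
          (Filter.Eventually.of_forall fun ξ => ?_)
        rw [Real.norm_of_nonneg (mul_nonneg (hW0 _) (by positivity))]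
        exact mul_le_mul_of_nonneg_left (pow_le_pow_left₀ (norm_nonneg _) (hD ξ) 2) (hW0 _)
      rw [ofReal_integral_eq_lintegral_ofReal h3 (Filter.Eventually.of_forall fun ξ =>
        mul_nonneg (hW0 _) (by positivity))]
      refine lintegral_congr fun ξ => ?_
      rw [ENNReal.ofReal_mul (hW0 _), ENNReal.ofReal_pow (norm_nonneg _), ofReal_norm,
        ENNReal.rpow_two]
    have hFb : ∀ ξ, ‖F ξ‖ ≤ Fintype.card ι * C := by
      intro ξ
      refine (norm_sum_le _ _).trans ((Finset.sum_le_sum fun i _ => hub i ξ).trans ?_)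
      rw [Finset.sum_const, Finset.card_univ, nsmul_eq_mul]
    rw [h2 F hFm _ hFb]
    have h4 : ∀ i, ∫⁻ ξ, ENNReal.ofReal (W (ρ • (ξ - X))) * ‖u i ξ‖ₑ ^ (2 : ℝ) =
        ENNReal.ofReal (∫ ξ, W (ρ • (ξ - X)) * ‖u i ξ‖ ^ 2) := fun i => h2 (u i) (hum i) C (hub i)
    simp only [h4]
    rw [← ENNReal.ofReal_sum_of_nonneg fun i _ => integral_nonneg fun ξ =>
      mul_nonneg (hW0 _) (by positivity), ← ENNReal.ofReal_natCast, ← ENNReal.ofReal_mul (by positivity)]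
    exact ENNReal.ofReal_le_ofReal h1
  -- one window
  have hone : ∀ X : E n, ∫⁻ ξ in {ξ | ‖ρ • (ξ - X)‖ ≤ 1}, ‖F ξ‖ₑ ^ p ≤
      ENNReal.ofReal (C1 ^ ((p - 2) / p) * C2 * (ρ ^ n)⁻¹ * M) *
        (N ^ (p - 2) * ∑ i, oA p ρ (u i) X) := by
    intro X
    set A : ι → ℝ≥0∞ := fun i => oA p ρ (u i) X with hA
    have hBm : MeasurableSet {ξ : E n | ‖ρ • (ξ - X)‖ ≤ 1} :=
      measurableSet_le (Continuous.measurable (by fun_prop)) measurable_const
    set Z : ℝ≥0∞ := (ENNReal.ofReal (C1 ^ (1 / p)) * ∑ i, A i ^ (1 / p)) ^ (p - 2) with hZ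
    have h1 : ∀ ξ ∈ {ξ : E n | ‖ρ • (ξ - X)‖ ≤ 1}, ‖F ξ‖ₑ ^ p ≤
        Z * (ENNReal.ofReal (W (ρ • (ξ - X))) * ‖F ξ‖ₑ ^ (2 : ℝ)) := by
      intro ξ hξ
      have h2 : ∀ i, ‖u i ξ‖ₑ ≤ ENNReal.ofReal (C1 ^ (1 / p)) * A i ^ (1 / p) := by
        intro i
        have h3 := hsup (g i) (hg i) B (hB i) (x i) ρ hρ (hs i) X ξ hξ
        calc ‖u i ξ‖ₑ = (‖u i ξ‖ₑ ^ p) ^ (1 / p) := by
              rw [← ENNReal.rpow_mul, mul_one_div_cancel hp0.ne', ENNReal.rpow_one]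
          _ ≤ (ENNReal.ofReal C1 * A i) ^ (1 / p) := ENNReal.rpow_le_rpow h3 (by positivity)
          _ = _ := by
              rw [ENNReal.mul_rpow_of_nonneg _ _ (by positivity),
                ENNReal.ofReal_rpow_of_nonneg hC1.le (by positivity)]
      have h4 : ‖F ξ‖ₑ ≤ ENNReal.ofReal (C1 ^ (1 / p)) * ∑ i, A i ^ (1 / p) := by
        rw [Finset.mul_sum]
        exact (enorm_sum_le _ _).trans (Finset.sum_le_sum fun i _ => h2 i)
      have h5 : ‖F ξ‖ₑ ^ p = ‖F ξ‖ₑ ^ (p - 2) * ‖F ξ‖ₑ ^ (2 : ℝ) := by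
        rw [← ENNReal.rpow_add_of_nonneg _ _ hp2 (by norm_num)]
        congr 1
        ring
      rw [h5]
      refine mul_le_mul' (ENNReal.rpow_le_rpow h4 hp2) ?_
      have h6 : 1 ≤ ENNReal.ofReal (W (ρ • (ξ - X))) := by
        rw [← ENNReal.ofReal_one]
        exact ENNReal.ofReal_le_ofReal (hW1 _ hξ)
      exact le_mul_of_one_le_left zero_le h6
    calc ∫⁻ ξ in {ξ | ‖ρ • (ξ - X)‖ ≤ 1}, ‖F ξ‖ₑ ^ p
        ≤ ∫⁻ ξ in {ξ | ‖ρ • (ξ - X)‖ ≤ 1},
            Z * (ENNReal.ofReal (W (ρ • (ξ - X))) * ‖F ξ‖ₑ ^ (2 : ℝ)) :=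
          setLIntegral_mono' hBm h1
      _ ≤ ∫⁻ ξ, Z * (ENNReal.ofReal (W (ρ • (ξ - X))) * ‖F ξ‖ₑ ^ (2 : ℝ)) :=
          setLIntegral_le_lintegral _ _
      _ = Z * ∫⁻ ξ, ENNReal.ofReal (W (ρ • (ξ - X))) * ‖F ξ‖ₑ ^ (2 : ℝ) :=
          lintegral_const_mul _ ((hWXm X).ennreal_ofReal.mul (hFm.enorm.pow_const _))
      _ ≤ Z * (M * ∑ i, ENNReal.ofReal (C2 * (ρ ^ n)⁻¹) * A i ^ (2 / p)) := by
          refine mul_le_mul_right ((hsq X).trans (mul_le_mul_right ?_ _)) _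
          exact Finset.sum_le_sum fun i _ => hL2 (u i) (hum i) ρ hρ X
      _ = ENNReal.ofReal (C1 ^ ((p - 2) / p) * C2 * (ρ ^ n)⁻¹ * M) *
          ((∑ i, A i ^ (1 / p)) ^ (p - 2) * ∑ i, A i ^ (2 / p)) := by
          rw [hZ, ENNReal.mul_rpow_of_nonneg _ _ hp2,
            ENNReal.ofReal_rpow_of_nonneg (by positivity) hp2, ← Real.rpow_mul hC1.le,
            ← Finset.mul_sum]
          have e1 : 1 / p * (p - 2) = (p - 2) / p := by ring
          rw [e1, ENNReal.ofReal_mul (p := C1 ^ ((p - 2) / p) * C2 * (ρ ^ n)⁻¹) (by positivity),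
            mul_assoc (C1 ^ ((p - 2) / p)), ENNReal.ofReal_mul (p := C1 ^ ((p - 2) / p)) (by positivity),
            ENNReal.ofReal_natCast]
          ring
      _ ≤ _ := mul_le_mul_right (opow A p hp) _
  -- integration over the windows
  have hswap : ∫⁻ X : E n, ∫⁻ ξ in {ξ | ‖ρ • (ξ - X)‖ ≤ 1}, ‖F ξ‖ₑ ^ p =
      ENNReal.ofReal ((ρ ^ n)⁻¹ * v) * ∫⁻ ξ, ‖F ξ‖ₑ ^ p := by
    have hBm : ∀ X : E n, MeasurableSet {ξ : E n | ‖ρ • (ξ - X)‖ ≤ 1} := fun X =>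
      measurableSet_le (Continuous.measurable (by fun_prop)) measurable_const
    have h1 : ∀ X : E n, ∫⁻ ξ in {ξ | ‖ρ • (ξ - X)‖ ≤ 1}, ‖F ξ‖ₑ ^ p =
        ∫⁻ ξ, (Metric.closedBall (0 : E n) 1).indicator (fun _ => (1 : ℝ≥0∞)) (ρ • (ξ - X)) *
          ‖F ξ‖ₑ ^ p := by
      intro X
      rw [← lintegral_indicator (hBm X)]
      refine lintegral_congr fun ξ => ?_
      by_cases h : ‖ρ • (ξ - X)‖ ≤ 1
      · rw [indicator_of_mem (by exact h), indicator_of_mem (by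
          rw [Metric.mem_closedBall, dist_zero_right]
          exact h), one_mul]
      · rw [indicator_of_notMem (by exact h), indicator_of_notMem (by
          rw [Metric.mem_closedBall, dist_zero_right]
          exact h), zero_mul]
    simp only [h1]
    have hind : Measurable fun z : E n =>
        (Metric.closedBall (0 : E n) 1).indicator (fun _ => (1 : ℝ≥0∞)) z :=
      measurable_const.indicator Metric.isClosed_closedBall.measurableSet
    have h2 : Measurable fun q : E n × E n =>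
        (Metric.closedBall (0 : E n) 1).indicator (fun _ => (1 : ℝ≥0∞)) (ρ • (q.2 - q.1)) *
          ‖F q.2‖ₑ ^ p := by
      have h3 : Measurable fun q : E n × E n => ρ • (q.2 - q.1) :=
        Continuous.measurable (by fun_prop)
      exact (hind.comp h3).mul ((hFm.comp measurable_snd).enorm.pow_const _)
    rw [lintegral_lintegral_swap h2.aemeasurable]
    have h4 : ∀ ξ : E n, ∫⁻ X, (Metric.closedBall (0 : E n) 1).indicator (fun _ => (1 : ℝ≥0∞))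
        (ρ • (ξ - X)) * ‖F ξ‖ₑ ^ p = ENNReal.ofReal ((ρ ^ n)⁻¹ * v) * ‖F ξ‖ₑ ^ p := by
      intro ξ
      have h5 : Measurable fun X : E n =>
          (Metric.closedBall (0 : E n) 1).indicator (fun _ => (1 : ℝ≥0∞)) (ρ • (ξ - X)) := by
        have h3 : Measurable fun X : E n => ρ • (ξ - X) := Continuous.measurable (by fun_prop)
        exact hind.comp h3
      rw [lintegral_mul_const _ h5]
      congr 1
      have h6 := lintegral_sub_left_eq_self (μ := (volume : Measure (E n)))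
        (fun Y => (Metric.closedBall (0 : E n) 1).indicator (fun _ => (1 : ℝ≥0∞)) (ρ • Y)) ξ
      rw [h6]
      have h7 : ∫⁻ Y : E n, (Metric.closedBall (0 : E n) 1).indicator (fun _ => (1 : ℝ≥0∞))
          (ρ • Y) = ∫⁻ z : E n, (Metric.closedBall (0 : E n) 1).indicator (fun _ => (1 : ℝ≥0∞)) z
            ∂(Measure.map (fun y : E n => ρ • y) volume) :=
        (lintegral_map hind (measurable_const_smul ρ)).symm
      rw [h7, Measure.map_addHaar_smul volume hρ.ne', lintegral_smul_measure, smul_eq_mul,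
        finrank_euclideanSpace_fin, abs_of_nonneg (by positivity),
        lintegral_indicator_const Metric.isClosed_closedBall.measurableSet, one_mul,
        ENNReal.ofReal_mul (by positivity), hv, ENNReal.ofReal_toReal hv0t]
    simp only [h4]
    rw [lintegral_const_mul' _ _ ENNReal.ofReal_ne_top]
  have hint : ∫⁻ X : E n, ENNReal.ofReal (C1 ^ ((p - 2) / p) * C2 * (ρ ^ n)⁻¹ * M) *
      (N ^ (p - 2) * ∑ i, oA p ρ (u i) X) =
      ENNReal.ofReal (C1 ^ ((p - 2) / p) * C2 * (ρ ^ n)⁻¹ * M) *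
        (N ^ (p - 2) * (ENNReal.ofReal I0 * ∑ i, ∫⁻ ξ, ‖u i ξ‖ₑ ^ p)) := by
    have hNt : N ^ (p - 2) ≠ ⊤ := ENNReal.rpow_ne_top_of_nonneg hp2 (ENNReal.natCast_ne_top _)
    rw [lintegral_const_mul' _ _ ENNReal.ofReal_ne_top, lintegral_const_mul' _ _ hNt,
      lintegral_finsetSum _ fun i _ => measurable_oA p ρ (hum i)]
    congr 2
    rw [Finset.mul_sum]
    exact Finset.sum_congr rfl fun i _ => lint_oA p ρ (hum i)
  have hfin : ENNReal.ofReal ((ρ ^ n)⁻¹ * v) * ∫⁻ ξ, ‖F ξ‖ₑ ^ p ≤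
      ENNReal.ofReal (C1 ^ ((p - 2) / p) * C2 * (ρ ^ n)⁻¹ * M) *
        (N ^ (p - 2) * (ENNReal.ofReal I0 * ∑ i, ∫⁻ ξ, ‖u i ξ‖ₑ ^ p)) := by
    rw [← hswap, ← hint]
    exact lintegral_mono hone
  have hρn : 0 < (ρ ^ n)⁻¹ * v := by positivity
  calc ∫⁻ ξ, ‖F ξ‖ₑ ^ p
      = ENNReal.ofReal ((ρ ^ n)⁻¹ * v)⁻¹ *
          (ENNReal.ofReal ((ρ ^ n)⁻¹ * v) * ∫⁻ ξ, ‖F ξ‖ₑ ^ p) := by
        rw [← mul_assoc, ← ENNReal.ofReal_mul (by positivity), inv_mul_cancel₀ hρn.ne',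
          ENNReal.ofReal_one, one_mul]
    _ ≤ ENNReal.ofReal ((ρ ^ n)⁻¹ * v)⁻¹ *
        (ENNReal.ofReal (C1 ^ ((p - 2) / p) * C2 * (ρ ^ n)⁻¹ * M) *
          (N ^ (p - 2) * (ENNReal.ofReal I0 * ∑ i, ∫⁻ ξ, ‖u i ξ‖ₑ ^ p))) :=
        mul_le_mul_right hfin _
    _ = ENNReal.ofReal (v⁻¹ * (C1 ^ ((p - 2) / p) * C2 * I0) * M *
          (Fintype.card ι : ℝ) ^ (p - 2)) * ∑ i, ∫⁻ ξ, ‖u i ξ‖ₑ ^ p := by
        have e1 : N ^ (p - 2) = ENNReal.ofReal ((Fintype.card ι : ℝ) ^ (p - 2)) := by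
          rw [hN, ← ENNReal.ofReal_natCast, ENNReal.ofReal_rpow_of_nonneg (by positivity) hp2]
        rw [e1, ← mul_assoc, ← mul_assoc, ← mul_assoc, ← ENNReal.ofReal_mul (by positivity),
          ← ENNReal.ofReal_mul (by positivity), ← ENNReal.ofReal_mul (by positivity)]
        congr 2
        field_simp
    _ ≤ _ := by
        refine mul_le_mul_left (ENNReal.ofReal_le_ofReal ?_) _
        gcongr
        linarith

end Pool.Agent.GNP
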