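import Pool.Agent.GNP.SP4

/-! ## Parabolic rescaling of the core integral -/

namespace Pool.Agent.GNP.TM

open MeasureTheory Set Pool.Agent.MP_6cbfb8_an Pool.Agent.GNP
open scoped ENNReal Real RealInnerProductSpace ContDiff

theorem sc_lint {V : Type*} [NormedAddCommGroup V] [NormedSpace ℝ V] [FiniteDimensional ℝ V]
    [MeasurableSpace V] [BorelSpace V] (μ : Measure V) [μ.IsAddHaarMeasure] (f : V → ℝ≥0∞) (c : ℝ)
    (hc : 0 < c) : ∫⁻ x, f (c • x) ∂μ =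
      ENNReal.ofReal ((c ^ Module.finrank ℝ V)⁻¹) * ∫⁻ x, f x ∂μ := by
  have hc0 : c ≠ 0 := hc.ne'
  have h := (Homeomorph.smulOfNeZero c hc0).measurableEmbedding.lintegral_map (μ := μ) f
  have h2 : Measure.map (Homeomorph.smulOfNeZero c hc0 : V → V) μ =
      ENNReal.ofReal |(c ^ Module.finrank ℝ V)⁻¹| • μ := Measure.map_addHaar_smul μ hc0
  have h3 : ∫⁻ x, f (c • x) ∂μ = ∫⁻ x, f ((Homeomorph.smulOfNeZero c hc0 : V → V) x) ∂μ := rfl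
  rw [h3, ← h, h2, lintegral_smul_measure, smul_eq_mul, abs_of_pos (by positivity)]

/-- The phase in the rescaled variable. -/
theorem sc_phase {d : ℕ} (Φ h : E d → ℝ) (c s ρ : ℝ) (hρ : 0 < ρ) (z w x y : E d) :
    ph Φ h c s (z + ρ • y) - ⟪x, z + ρ • y⟫ =
      (ph (fun y => Φ (z + ρ • y))
        (fun y => (ρ ^ 2)⁻¹ * (h (z + ρ • y) - h z - ρ * ⟪w, y⟫)) c (ρ ^ 2 * s) y -
        ⟪ρ • (x + s • w), y⟫) - (s * h z + ⟪x, z⟫) := by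
  unfold ph
  simp only [inner_add_right, inner_smul_left, inner_smul_right, inner_add_left, conj_trivial]
  field_simp
  ring

theorem sc_uu {d : ℕ} (a : E d → ℂ) (Φ h : E d → ℝ) (c s ρ : ℝ) (hρ : 0 < ρ) (z w x : E d) :
    ‖uu a (ph Φ h c s) x‖ₑ = ENNReal.ofReal (ρ ^ d) *
      ‖uu (fun y => a (z + ρ • y)) (ph (fun y => Φ (z + ρ • y))
        (fun y => (ρ ^ 2)⁻¹ * (h (z + ρ • y) - h z - ρ * ⟪w, y⟫)) c (ρ ^ 2 * s))
        (ρ • (x + s • w))‖ₑ := by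
  set F : E d → ℂ := fun y => a y * Complex.exp (((ph Φ h c s y - ⟪x, y⟫ : ℝ) : ℂ) * Complex.I)
    with hF
  have h1 : uu a (ph Φ h c s) x = (ρ ^ d : ℝ) • ∫ y, F (z + ρ • y) := by
    have e1 : ∫ y, F (z + ρ • y) = |(ρ ^ Module.finrank ℝ (E d))⁻¹| • ∫ y, F (z + y) :=
      Measure.integral_comp_smul volume (fun y => F (z + y)) ρ
    have e2 : ∫ y, F (z + y) = ∫ y, F y := integral_add_left_eq_self F z
    rw [e1, e2, finrank_euclideanSpace_fin, abs_of_pos (by positivity), smul_smul,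
      mul_inv_cancel₀ (by positivity), one_smul]
    rfl
  have h2 : ∀ y, F (z + ρ • y) = Complex.exp (((-(s * h z + ⟪x, z⟫) : ℝ) : ℂ) * Complex.I) *
      ((fun y => a (z + ρ • y)) y * Complex.exp (((ph (fun y => Φ (z + ρ • y))
        (fun y => (ρ ^ 2)⁻¹ * (h (z + ρ • y) - h z - ρ * ⟪w, y⟫)) c (ρ ^ 2 * s) y -
        ⟪ρ • (x + s • w), y⟫ : ℝ) : ℂ) * Complex.I)) := fun y => by
    simp only [hF]
    rw [sc_phase Φ h c s ρ hρ z w x y, sub_eq_add_neg _ (s * h z + ⟪x, z⟫), Complex.ofReal_add,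
      add_mul, Complex.exp_add]
    ring
  have h3 : ∫ y, F (z + ρ • y) = Complex.exp (((-(s * h z + ⟪x, z⟫) : ℝ) : ℂ) * Complex.I) *
      uu (fun y => a (z + ρ • y)) (ph (fun y => Φ (z + ρ • y))
        (fun y => (ρ ^ 2)⁻¹ * (h (z + ρ • y) - h z - ρ * ⟪w, y⟫)) c (ρ ^ 2 * s))
        (ρ • (x + s • w)) := by
    unfold uu
    rw [← integral_const_mul]
    exact integral_congr_ae (Filter.Eventually.of_forall fun y => h2 y)
  rw [h1, h3, enorm_smul, enorm_mul]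
  have h4 : ‖Complex.exp (((-(s * h z + ⟪x, z⟫) : ℝ) : ℂ) * Complex.I)‖ₑ = 1 := by
    rw [← ofReal_norm, Complex.norm_exp_ofReal_mul_I, ENNReal.ofReal_one]
  rw [h4, one_mul, Real.enorm_eq_ofReal (by positivity)]

/-- **Parabolic rescaling.** -/
theorem cap_scale (d : ℕ) (p : ℝ) (hp : 0 < p) (a : E d → ℂ) (Φ h : E d → ℝ) (c ρ : ℝ)
    (hρ : 0 < ρ) (z w : E d) :
    ∫⁻ s : ℝ, ∫⁻ x, ‖uu a (ph Φ h c s) x‖ₑ ^ p =
      ENNReal.ofReal (ρ ^ (d * p - (d + 2))) * ∫⁻ s : ℝ, ∫⁻ x, ‖uu (fun y => a (z + ρ • y))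
        (ph (fun y => Φ (z + ρ • y)) (fun y => (ρ ^ 2)⁻¹ * (h (z + ρ • y) - h z - ρ * ⟪w, y⟫))
          c s) x‖ₑ ^ p := by
  set U : ℝ → E d → ℝ≥0∞ := fun s x => ‖uu (fun y => a (z + ρ • y))
        (ph (fun y => Φ (z + ρ • y)) (fun y => (ρ ^ 2)⁻¹ * (h (z + ρ • y) - h z - ρ * ⟪w, y⟫))
          c s) x‖ₑ ^ p with hU
  have h1 : ∀ s : ℝ, ∫⁻ x, ‖uu a (ph Φ h c s) x‖ₑ ^ p =
      ENNReal.ofReal (ρ ^ d) ^ p * (ENNReal.ofReal ((ρ ^ d)⁻¹) * ∫⁻ x, U (ρ ^ 2 * s) x) := by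
    intro s
    have e1 : ∀ x, ‖uu a (ph Φ h c s) x‖ₑ ^ p =
        ENNReal.ofReal (ρ ^ d) ^ p * U (ρ ^ 2 * s) (ρ • (x + s • w)) := fun x => by
      rw [sc_uu a Φ h c s ρ hρ z w x, ENNReal.mul_rpow_of_nonneg _ _ hp.le]
    calc ∫⁻ x, ‖uu a (ph Φ h c s) x‖ₑ ^ p
        = ∫⁻ x, ENNReal.ofReal (ρ ^ d) ^ p * U (ρ ^ 2 * s) (ρ • (x + s • w)) :=
          lintegral_congr e1
      _ = ENNReal.ofReal (ρ ^ d) ^ p * ∫⁻ x, U (ρ ^ 2 * s) (ρ • (x + s • w)) :=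
          lintegral_const_mul' _ _ (ENNReal.rpow_ne_top_of_nonneg hp.le ENNReal.ofReal_ne_top)
      _ = ENNReal.ofReal (ρ ^ d) ^ p * ∫⁻ x, U (ρ ^ 2 * s) (ρ • x) := by
          rw [lintegral_add_right_eq_self (fun x => U (ρ ^ 2 * s) (ρ • x)) (s • w)]
      _ = _ := by
          rw [sc_lint volume (U (ρ ^ 2 * s)) ρ hρ, finrank_euclideanSpace_fin]
  have hne : ENNReal.ofReal (ρ ^ d) ^ p ≠ ⊤ :=
    ENNReal.rpow_ne_top_of_nonneg hp.le ENNReal.ofReal_ne_top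
  have h2 : ∫⁻ s : ℝ, ∫⁻ x, ‖uu a (ph Φ h c s) x‖ₑ ^ p =
      ENNReal.ofReal (ρ ^ d) ^ p * (ENNReal.ofReal ((ρ ^ d)⁻¹) *
        (ENNReal.ofReal ((ρ ^ 2)⁻¹) * ∫⁻ s : ℝ, ∫⁻ x, U s x)) := by
    calc ∫⁻ s : ℝ, ∫⁻ x, ‖uu a (ph Φ h c s) x‖ₑ ^ p
        = ∫⁻ s : ℝ, ENNReal.ofReal (ρ ^ d) ^ p *
            (ENNReal.ofReal ((ρ ^ d)⁻¹) * ∫⁻ x, U (ρ ^ 2 * s) x) := lintegral_congr h1
      _ = ENNReal.ofReal (ρ ^ d) ^ p * (ENNReal.ofReal ((ρ ^ d)⁻¹) *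
            ∫⁻ s : ℝ, ∫⁻ x, U (ρ ^ 2 * s) x) := by
          rw [lintegral_const_mul' _ _ hne, lintegral_const_mul' _ _ ENNReal.ofReal_ne_top]
      _ = _ := by
          have e3 := sc_lint (volume : Measure ℝ) (fun s => ∫⁻ x, U s x) (ρ ^ 2) (by positivity)
          simp only [smul_eq_mul, Module.finrank_self, pow_one] at e3
          rw [e3]
  rw [h2, ← mul_assoc, ← mul_assoc]
  congr 1
  rw [ENNReal.ofReal_rpow_of_nonneg (by positivity) hp.le, ← ENNReal.ofReal_mul (by positivity),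
    ← ENNReal.ofReal_mul (by positivity)]
  congr 1
  rw [Real.rpow_sub hρ, Real.rpow_mul hρ.le, Real.rpow_natCast, Real.rpow_add hρ,
    Real.rpow_natCast, Real.rpow_two]
  field_simp

end Pool.Agent.GNP.TM
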