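import Pool.Agent.GNP.LOC

/-!
The terminal bound for a family of phases at one scale.
-/

namespace Pool.Agent.GNP

open MeasureTheory Set Pool.Agent.MP_6cbfb8_an
open scoped ENNReal Real RealInnerProductSpace ContDiff

/-- From local bounds to a global one: `sup` times `L²` on balls of radius `R`. -/
theorem sup_l2 (d : ℕ) (al : ℝ) (hal : 0 ≤ al) (F : E d → ℂ) (hF : Continuous F) (μ : E d → ℝ≥0∞)
    (k1 k2 R : ℝ) (hk1 : 0 ≤ k1) (hR : 0 < R)
    (h1 : ∀ x0, ∀ x ∈ Metric.closedBall x0 R, ‖F x‖ₑ ≤ ENNReal.ofReal k1 * μ x0)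
    (h2 : ∀ x0, ∫⁻ x in Metric.closedBall x0 R, ‖F x‖ₑ ^ (2 : ℝ) ≤ ENNReal.ofReal k2 * μ x0) :
    ∫⁻ x, ‖F x‖ₑ ^ (2 + al) ≤ ENNReal.ofReal (k1 ^ al * k2 *
      (R ^ d * (volume (Metric.closedBall (0 : E d) 1)).toReal)⁻¹) * ∫⁻ x, μ x ^ (1 + al) := by
  set vo : ℝ≥0∞ := volume (Metric.closedBall (0 : E d) 1) with hvo
  have hvot : vo ≠ ⊤ := (isCompact_closedBall (0 : E d) 1).measure_ne_top
  have hvo0 : vo ≠ 0 := (Metric.measure_closedBall_pos volume (0 : E d) one_pos).ne'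
  set w : ℝ := vo.toReal with hw
  have hw0 : 0 < w := ENNReal.toReal_pos hvo0 hvot
  have hV : volume (Metric.closedBall (0 : E d) R) = ENNReal.ofReal (R ^ d * w) := by
    rw [Measure.addHaar_closedBall _ _ hR.le, finrank_euclideanSpace, Fintype.card_fin,
      ENNReal.ofReal_mul (by positivity), hw, ENNReal.ofReal_toReal hvot, hvo,
      ← Measure.addHaar_unitClosedBall_eq_addHaar_unitBall]
  have hmeas : Measurable fun x => ‖F x‖ₑ ^ (2 : ℝ) := hF.measurable.enorm.pow_const _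
  have hone : ∀ x0, ∫⁻ x in Metric.closedBall x0 R, ‖F x‖ₑ ^ (2 + al) ≤
      ENNReal.ofReal (k1 ^ al * k2) * μ x0 ^ (1 + al) := by
    intro x0
    have h3 : ∀ x ∈ Metric.closedBall x0 R, ‖F x‖ₑ ^ (2 + al) ≤
        (ENNReal.ofReal k1 * μ x0) ^ al * ‖F x‖ₑ ^ (2 : ℝ) := by
      intro x hx
      rw [add_comm, ENNReal.rpow_add_of_nonneg _ _ hal (by norm_num)]
      exact mul_le_mul_left (ENNReal.rpow_le_rpow (h1 x0 x hx) hal) _
    calc ∫⁻ x in Metric.closedBall x0 R, ‖F x‖ₑ ^ (2 + al)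
        ≤ ∫⁻ x in Metric.closedBall x0 R, (ENNReal.ofReal k1 * μ x0) ^ al * ‖F x‖ₑ ^ (2 : ℝ) :=
          setLIntegral_mono' measurableSet_closedBall h3
      _ = (ENNReal.ofReal k1 * μ x0) ^ al *
            ∫⁻ x in Metric.closedBall x0 R, ‖F x‖ₑ ^ (2 : ℝ) := lintegral_const_mul _ hmeas
      _ ≤ (ENNReal.ofReal k1 * μ x0) ^ al * (ENNReal.ofReal k2 * μ x0) :=
          mul_le_mul_right (h2 x0) _
      _ = ENNReal.ofReal (k1 ^ al * k2) * μ x0 ^ (1 + al) := by
          rw [ENNReal.mul_rpow_of_nonneg _ _ hal, ENNReal.ofReal_rpow_of_nonneg hk1 hal,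
            ENNReal.rpow_add_of_nonneg _ _ zero_le_one hal, ENNReal.rpow_one,
            ENNReal.ofReal_mul (by positivity)]
          ring
  have hFm : Measurable fun x => ‖F x‖ₑ ^ (2 + al) := hF.measurable.enorm.pow_const _
  have hball := lint_ball _ hFm R
  have hV0 : ENNReal.ofReal (R ^ d * w) ≠ 0 := by
    rw [Ne, ENNReal.ofReal_eq_zero, not_le]
    positivity
  have hle : ENNReal.ofReal (R ^ d * w) * ∫⁻ x, ‖F x‖ₑ ^ (2 + al) ≤
      ENNReal.ofReal (k1 ^ al * k2) * ∫⁻ x, μ x ^ (1 + al) := by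
    rw [← hV, ← hball, ← lintegral_const_mul' _ _ ENNReal.ofReal_ne_top]
    exact lintegral_mono hone
  calc ∫⁻ x, ‖F x‖ₑ ^ (2 + al)
      = (ENNReal.ofReal (R ^ d * w))⁻¹ *
          (ENNReal.ofReal (R ^ d * w) * ∫⁻ x, ‖F x‖ₑ ^ (2 + al)) := by
        rw [← mul_assoc, ENNReal.inv_mul_cancel hV0 ENNReal.ofReal_ne_top, one_mul]
    _ ≤ (ENNReal.ofReal (R ^ d * w))⁻¹ *
          (ENNReal.ofReal (k1 ^ al * k2) * ∫⁻ x, μ x ^ (1 + al)) :=
        mul_le_mul_right hle _
    _ = _ := by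
        rw [← mul_assoc, ← ENNReal.ofReal_inv_of_pos (by positivity),
          ← ENNReal.ofReal_mul (by positivity), mul_comm (R ^ d * w)⁻¹]

/-- The amplitude of a family. -/
noncomputable def afam {d : ℕ} {ι : Type*} (s : Finset ι) (a : ι → E d → ℂ) (q : ι → E d → ℝ)
    (y : E d) : ℂ :=
  ∑ i ∈ s, a i y * Complex.exp (((q i y : ℝ) : ℂ) * Complex.I)

theorem integrable_uu {d : ℕ} {a : E d → ℂ} {q : E d → ℝ} (ha : Continuous a)
    (hac : HasCompactSupport a) (hq : Continuous q) (x : E d) :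
    Integrable fun y => a y * Complex.exp (((q y - ⟪x, y⟫ : ℝ) : ℂ) * Complex.I) := by
  refine (Continuous.mul ha ?_).integrable_of_hasCompactSupport hac.mul_right
  fun_prop

theorem uu_afam {d : ℕ} {ι : Type*} (s : Finset ι) (a : ι → E d → ℂ) (q : ι → E d → ℝ)
    (ha : ∀ i ∈ s, Continuous (a i)) (hac : ∀ i ∈ s, HasCompactSupport (a i))
    (hq : ∀ i ∈ s, Continuous (q i)) (x : E d) :
    uu (afam s a q) (fun _ => 0) x = ∑ i ∈ s, uu (a i) (q i) x := by
  unfold uu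
  rw [← integral_finsetSum s fun i hi => integrable_uu (ha i hi) (hac i hi) (hq i hi) x]
  refine integral_congr_ae (Filter.Eventually.of_forall fun y => ?_)
  simp only [afam]
  rw [Finset.sum_mul]
  refine Finset.sum_congr rfl fun i _ => ?_
  rw [mul_assoc, ← Complex.exp_add]
  congr 2
  push_cast
  ring

theorem uz_afam {d : ℕ} {ι : Type*} {κ : ℝ} {ρ : E d → ℝ} (hρ : Ker κ ρ) (s : Finset ι)
    (a : ι → E d → ℂ) (q : ι → E d → ℝ) (ha : ∀ i ∈ s, Continuous (a i))
    (hac : ∀ i ∈ s, HasCompactSupport (a i)) (hq : ∀ i ∈ s, Continuous (q i)) (R : ℝ) (z x : E d) :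
    uz ρ (afam s a q) (fun _ => 0) R z x = ∑ i ∈ s, uz ρ (a i) (q i) R z x := by
  unfold uz
  have hk : Continuous fun y : E d => ((R ^ d * ρ (R • (y - z)) : ℝ) : ℂ) := by
    have := hρ.sm.continuous
    fun_prop
  rw [← uu_afam s (fun i y => ((R ^ d * ρ (R • (y - z)) : ℝ) : ℂ) * a i y) q
    (fun i hi => hk.mul (ha i hi)) (fun i hi => (hac i hi).mul_left) hq x]
  congr 1
  funext y
  simp only [afam]
  rw [Finset.mul_sum]
  refine Finset.sum_congr rfl fun i _ => ?_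
  ring

theorem continuous_afam {d : ℕ} {ι : Type*} (s : Finset ι) (a : ι → E d → ℂ) (q : ι → E d → ℝ)
    (ha : ∀ i ∈ s, Continuous (a i)) (hq : ∀ i ∈ s, Continuous (q i)) :
    Continuous (afam s a q) := by
  unfold afam
  refine continuous_finsetSum s fun i hi => ?_
  have h1 := ha i hi
  have h2 := hq i hi
  fun_prop

/-- The square of a sum with few nonzero terms. -/
theorem sum_sq_few {ι : Type*} (s : Finset ι) (f : ι → ℂ) (P : ι → Prop) (M : ℕ)
    (hP : ∀ i ∈ s, ¬ P i → f i = 0) (hM : {i ∈ (s : Set ι) | P i}.ncard ≤ M) :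
    ‖∑ i ∈ s, f i‖ₑ ^ (2 : ℝ) ≤ ENNReal.ofReal M * ∑ i ∈ s, ‖f i‖ₑ ^ (2 : ℝ) := by
  classical
  set s' : Finset ι := s.filter P with hs'
  have hcard : s'.card ≤ M := by
    refine le_trans (le_of_eq ?_) hM
    rw [← Set.ncard_coe_finset]
    congr 1
    ext i
    simp [hs']
  have h1 : ∑ i ∈ s, f i = ∑ i ∈ s', f i := by
    refine (Finset.sum_subset (Finset.filter_subset _ _) fun i hi hi' => ?_).symm
    exact hP i hi fun h => hi' (Finset.mem_filter.2 ⟨hi, h⟩)
  have h2 : ∑ i ∈ s', ‖f i‖ₑ ^ (2 : ℝ) ≤ ∑ i ∈ s, ‖f i‖ₑ ^ (2 : ℝ) :=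
    Finset.sum_le_sum_of_subset (Finset.filter_subset _ _)
  rw [h1]
  refine le_trans ?_ (mul_le_mul_right h2 _)
  have h3 : ‖∑ i ∈ s', f i‖ ^ 2 ≤ (M : ℝ) * ∑ i ∈ s', ‖f i‖ ^ 2 := by
    have h4 : ‖∑ i ∈ s', f i‖ ^ 2 ≤ (∑ i ∈ s', ‖f i‖) ^ 2 :=
      pow_le_pow_left₀ (norm_nonneg _) (norm_sum_le _ _) 2
    have h5 := sq_sum_le_card_mul_sum_sq (s := s') (f := fun i => ‖f i‖)
    refine h4.trans (h5.trans ?_)
    refine mul_le_mul_of_nonneg_right (by exact_mod_cast hcard) ?_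
    exact Finset.sum_nonneg fun i _ => by positivity
  have h6 : ∀ z : ℂ, ‖z‖ₑ ^ (2 : ℝ) = ENNReal.ofReal (‖z‖ ^ 2) := by
    intro z
    rw [← ofReal_norm, ENNReal.ofReal_rpow_of_nonneg (norm_nonneg _) (by norm_num),
      Real.rpow_two]
  rw [h6]
  simp_rw [h6]
  rw [← ENNReal.ofReal_sum_of_nonneg (fun i _ => by positivity), ← ENNReal.ofReal_mul (by positivity)]
  exact ENNReal.ofReal_le_ofReal h3

theorem measurable_lint_ball {d : ℕ} (f : E d → ℝ≥0∞) (hf : Measurable f) (t : ℝ) :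
    Measurable fun z : E d => ∫⁻ y in Metric.closedBall z t, f y := by
  set S : Set (E d × E d) := {p | ‖p.2 - p.1‖ ≤ t} with hS
  have hSm : MeasurableSet S :=
    measurableSet_le (measurable_snd.sub measurable_fst).norm measurable_const
  have hm : Measurable (S.indicator fun p => f p.2) := (hf.comp measurable_snd).indicator hSm
  have h0 : (fun z : E d => ∫⁻ y in Metric.closedBall z t, f y) =
      fun z => ∫⁻ y, S.indicator (fun p => f p.2) (z, y) := by
    funext z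
    rw [← lintegral_indicator measurableSet_closedBall]
    refine lintegral_congr fun y => ?_
    have h2 : y ∈ Metric.closedBall z t ↔ (z, y) ∈ S := by
      rw [Metric.mem_closedBall, dist_eq_norm]
      exact Iff.rfl
    by_cases h : (z, y) ∈ S
    · rw [indicator_of_mem h, indicator_of_mem (h2.2 h)]
    · rw [indicator_of_notMem h, indicator_of_notMem (fun h' => h (h2.1 h'))]
  rw [h0]
  exact hm.lintegral_prod_right'

/-- The hypotheses for one member of a family at the scale `1/R`. -/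
structure Cell (d : ℕ) (A : ℕ → ℝ) (r R β : ℝ) (a : E d → ℂ) (q : E d → ℝ) (G : Set (E d)) :
    Prop where
  amp : AmpR d A r R a
  sm : ContDiff ℝ ∞ q
  meas : MeasurableSet G
  sub : ∀ y, a y ≠ 0 → Metric.closedBall y (3 / 4 / R) ⊆ G
  der : ∀ y ∈ G, ∀ j, 3 ≤ j → ‖iteratedFDeriv ℝ j q y‖ ≤ A j * R ^ j
  vol : ∀ y ∈ G, ENNReal.ofReal β⁻¹ ≤ volume {v : E d | ‖v‖ ≤ 1 ∧ ‖Hs q y v‖ ≤ R ^ 2}

/-- The bounds for the packets. -/
theorem packets (d M : ℕ) (A : ℕ → ℝ) : ∃ (ρ : E d → ℝ) (c1 c2 : ℝ), Ker (1 / 4) ρ ∧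
    (∀ v, 0 ≤ ρ v) ∧ ∫ v, ρ v = 1 ∧ 0 ≤ c1 ∧ 0 ≤ c2 ∧
    ∀ (a : E d → ℂ) (q : E d → ℝ) (r R β : ℝ) (G : Set (E d)), 1 ≤ R → 1 ≤ β →
      Cell d A r R β a q G →
      (∀ z x, z ∉ G → uz ρ a q R z x = 0) ∧
      (∀ z x, ‖uz ρ a q R z x‖ₑ ≤ ENNReal.ofReal (c1 * √β * R ^ d) *
        ∫⁻ y in Metric.closedBall z (1 / 2 / R),
          G.indicator (fun y => ENNReal.ofReal (wt M q R x y)) y) ∧
      (∀ z x, ‖uz ρ a q R z x‖ₑ ^ (2 : ℝ) ≤ ENNReal.ofReal (c2 * R ^ d) *
        ∫⁻ y in Metric.closedBall z (1 / 2 / R),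
          G.indicator (fun y => ENNReal.ofReal (wt M q R x y)) y) := by
  set κ : ℝ := 1 / 4 with hκd
  have hκ : 0 < κ := by norm_num
  obtain ⟨ρ, hρ, hρ0, hρ1⟩ := exists_ker_small d κ hκ
  obtain ⟨Cw, hCw, hW⟩ := uz_wt d (2 * M) A κ hκ ρ hρ
  obtain ⟨Cb, hCb, hB⟩ := loc_half d M κ hκ |A 3| (abs_nonneg _)
  refine ⟨ρ, √Cw * Cb, Cw, hρ, hρ0, hρ1, by positivity, hCw.le, ?_⟩
  intro a q r R β G hR hβ ⟨ha, hq, hG, hGa, hGq, hGv⟩
  have hR0 : 0 < R := by linarith
  have h2κ : (1 / 2 : ℝ) = 2 * κ := by norm_num [hκd]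
  have h3κ : (3 / 4 : ℝ) = 3 * κ := by norm_num [hκd]
  rw [h2κ]
  rw [h3κ] at hGa
  -- the two cases
  have hcase : ∀ z, (Metric.closedBall z (2 * κ / R) ⊆ G) ∨ (∀ x, uz ρ a q R z x = 0) := by
    intro z
    by_cases h : ∃ y ∈ Metric.closedBall z (κ / R), a y ≠ 0
    · obtain ⟨y, hy, hay⟩ := h
      left
      refine Subset.trans ?_ (hGa y hay)
      intro u hu
      rw [Metric.mem_closedBall] at hu hy ⊢
      calc dist u y ≤ dist u z + dist y z := dist_triangle_right u y z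
        _ ≤ 2 * κ / R + κ / R := add_le_add hu hy
        _ = 3 * κ / R := by ring
    · push Not at h
      right
      intro x
      unfold uz uu
      rw [← integral_zero (E d) ℂ (μ := volume)]
      refine integral_congr_ae (Filter.Eventually.of_forall fun y => ?_)
      simp only
      by_cases hy : y ∈ Metric.closedBall z (κ / R)
      · rw [h y hy]
        ring
      · have h1 : ρ (R • (y - z)) = 0 := by
          refine hρ.supp _ ?_
          rw [Metric.mem_closedBall, not_le, dist_eq_norm, div_lt_iff₀ hR0] at hy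
          rw [norm_smul, Real.norm_of_nonneg hR0.le, mul_comm]
          exact hy
        rw [h1]
        simp
  have hsub : ∀ z : E d, Metric.closedBall z (κ / R) ⊆ Metric.closedBall z (2 * κ / R) := by
    intro z
    refine Metric.closedBall_subset_closedBall ?_
    exact div_le_div_of_nonneg_right (by linarith) hR0.le
  have hind : ∀ z x, Metric.closedBall z (2 * κ / R) ⊆ G →
      ∫⁻ y in Metric.closedBall z (2 * κ / R), ENNReal.ofReal (wt M q R x y) =
        ∫⁻ y in Metric.closedBall z (2 * κ / R),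
          G.indicator (fun y => ENNReal.ofReal (wt M q R x y)) y := by
    intro z x h
    refine setLIntegral_congr_fun measurableSet_closedBall fun y hy => ?_
    rw [indicator_of_mem (h hy)]
  have hWz : ∀ z x, Metric.closedBall z (2 * κ / R) ⊆ G → ‖uz ρ a q R z x‖ₑ ^ (2 : ℝ) ≤
      ENNReal.ofReal (Cw * R ^ d) *
        ∫⁻ y in Metric.closedBall z (κ / R), ENNReal.ofReal (wt (2 * M) q R x y) := by
    intro z x h
    have h1 := hW a q R z x hR0 ha.sm hq (fun y _ j => ha.bd j y)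
      (fun y hy j hj => hGq y (h (hsub z (by
        rw [Metric.mem_closedBall, dist_eq_norm]
        exact hy))) j hj)
    simpa only [ENNReal.rpow_two] using h1
  refine ⟨?_, ?_, ?_⟩
  · intro z x hz
    rcases hcase z with h | h
    · exact absurd (h (Metric.mem_closedBall_self (by positivity))) hz
    · exact h x
  · intro z x
    rcases hcase z with h | h
    · have h1 := hWz z x h
      have h2 := hB q R β z x hq hR hβ (fun y hy => (hGq y (h hy) 3 le_rfl).trans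
        (mul_le_mul_of_nonneg_right (le_abs_self _) (by positivity)))
        (fun y hy => hGv y (h (hsub z hy)))
      rw [← hind z x h]
      calc ‖uz ρ a q R z x‖ₑ = (‖uz ρ a q R z x‖ₑ ^ (2 : ℝ)) ^ (1 / 2 : ℝ) := by
            rw [← ENNReal.rpow_mul]
            norm_num
        _ ≤ (ENNReal.ofReal (Cw * R ^ d) * ∫⁻ y in Metric.closedBall z (κ / R),
              ENNReal.ofReal (wt (2 * M) q R x y)) ^ (1 / 2 : ℝ) :=
            ENNReal.rpow_le_rpow h1 (by norm_num)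
        _ = ENNReal.ofReal (√Cw) * (ENNReal.ofReal (R ^ d) * ∫⁻ y in Metric.closedBall z (κ / R),
              ENNReal.ofReal (wt (2 * M) q R x y)) ^ (1 / 2 : ℝ) := by
            rw [ENNReal.ofReal_mul hCw.le, mul_assoc, ENNReal.mul_rpow_of_nonneg _ _ (by norm_num),
              ENNReal.ofReal_rpow_of_pos hCw, ← Real.sqrt_eq_rpow]
        _ ≤ ENNReal.ofReal (√Cw) * (ENNReal.ofReal (Cb * √β * R ^ d) *
              ∫⁻ y in Metric.closedBall z (2 * κ / R), ENNReal.ofReal (wt M q R x y)) :=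
            mul_le_mul_right h2 _
        _ = _ := by
            rw [← mul_assoc, ← ENNReal.ofReal_mul (by positivity)]
            congr 2
            ring
    · rw [h x, enorm_zero]
      exact zero_le
  · intro z x
    rcases hcase z with h | h
    · refine (hWz z x h).trans (mul_le_mul_right ?_ _)
      calc ∫⁻ y in Metric.closedBall z (κ / R), ENNReal.ofReal (wt (2 * M) q R x y)
          ≤ ∫⁻ y in Metric.closedBall z (κ / R), ENNReal.ofReal (wt M q R x y) :=
            lintegral_mono fun y => ENNReal.ofReal_le_ofReal (wt_mono (by omega) q hR0 x y)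
        _ ≤ ∫⁻ y in Metric.closedBall z (2 * κ / R), ENNReal.ofReal (wt M q R x y) :=
            lintegral_mono_set (hsub z)
        _ = _ := hind z x h
    · rw [h x, enorm_zero, ENNReal.zero_rpow_of_pos (by norm_num)]
      exact zero_le

/-- The sum of the weights of a family. -/
noncomputable def muF {d : ℕ} {ι : Type*} (s : Finset ι) (M : ℕ) (q : ι → E d → ℝ)
    (G : ι → Set (E d)) (R : ℝ) (x : E d) : ℝ≥0∞ :=
  ∑ i ∈ s, ∫⁻ y in G i, ENNReal.ofReal (wt M (q i) R x y)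

/-- **The terminal bound**, phase part. -/
theorem term_phase (d M : ℕ) (A : ℕ → ℝ) (al : ℝ) (hal : 0 ≤ al) : ∃ K : ℝ, 0 < K ∧
    ∀ {ι : Type*} (s : Finset ι) (a : ι → E d → ℂ) (q : ι → E d → ℝ) (G : ι → Set (E d))
      (r R β : ℝ) (M0 : ℕ), 1 ≤ R → 1 ≤ β → (∀ i ∈ s, Cell d A r R β (a i) (q i) (G i)) →
      (∀ y, {i ∈ (s : Set ι) | y ∈ G i}.ncard ≤ M0) →
      ∫⁻ x, ‖∑ i ∈ s, uu (a i) (q i) x‖ₑ ^ (2 + al) ≤
        ENNReal.ofReal (K * M0 * β ^ (al / 2) * (R ^ d)⁻¹) * ∫⁻ x, muF s M q G R x ^ (1 + al) := by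
  obtain ⟨ρ, c1, c2, hρ, hρ0, hρ1, hc1, hc2, H⟩ := packets d M A
  set vo : ℝ≥0∞ := volume (Metric.closedBall (0 : E d) 1) with hvo
  have hvot : vo ≠ ⊤ := (isCompact_closedBall (0 : E d) 1).measure_ne_top
  have hvo0 : vo ≠ 0 := (Metric.measure_closedBall_pos volume (0 : E d) one_pos).ne'
  set w : ℝ := vo.toReal with hw
  have hw0 : 0 < w := ENNReal.toReal_pos hvo0 hvot
  have hvol : ∀ s : ℝ, 0 ≤ s → volume (Metric.closedBall (0 : E d) s) = ENNReal.ofReal (s ^ d * w) := by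
    intro s hs
    rw [Measure.addHaar_closedBall _ _ hs, finrank_euclideanSpace, Fintype.card_fin,
      ENNReal.ofReal_mul (by positivity), hw, ENNReal.ofReal_toReal hvot, hvo,
      ← Measure.addHaar_unitClosedBall_eq_addHaar_unitBall]
  set t : ℝ := 1 / 2 with htd
  have ht : 0 < t := by norm_num
  set k1 : ℝ := c1 * (t ^ d * w) * 2 ^ M with hk1
  set k2 : ℝ := 4 * (2 * π) ^ d * (c2 * (t ^ d * w)) with hk2
  have hk10 : 0 ≤ k1 := by positivity
  have hk20 : 0 ≤ k2 := by positivity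
  refine ⟨k1 ^ al * k2 * w⁻¹ + 1, by positivity, ?_⟩
  intro ι s a q G r R β M0 hR hβ hC hM
  have hR0 : 0 < R := by linarith
  have hscale : R ^ d * (t / R) ^ d = t ^ d := by
    rw [← mul_pow, mul_div_cancel₀ _ hR0.ne']
  have hac : ∀ i ∈ s, Continuous (a i) := fun i hi => (hC i hi).amp.sm.continuous
  have has : ∀ i ∈ s, HasCompactSupport (a i) := fun i hi => op_compact_supp (hC i hi).amp.supp
  have hqc : ∀ i ∈ s, Continuous (q i) := fun i hi => (hC i hi).sm.continuous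
  have hgr : ∀ i ∈ s, Continuous (gr (q i)) := fun i hi =>
    continuous_iff_continuousAt.2 fun y => (hasFDerivAt_gr (hC i hi).sm y).continuousAt
  have hμm : ∀ i ∈ s, ∀ x, Measurable ((G i).indicator
      (fun y => ENNReal.ofReal (wt M (q i) R x y))) := fun i hi x =>
    (measurable_wt M (hgr i hi) R x).indicator (hC i hi).meas
  have hint : ∀ i ∈ s, ∀ (x : E d), ∫⁻ z, (∫⁻ y in Metric.closedBall z (t / R),
      (G i).indicator (fun y => ENNReal.ofReal (wt M (q i) R x y)) y) =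
        ENNReal.ofReal ((t / R) ^ d * w) * ∫⁻ y in G i, ENNReal.ofReal (wt M (q i) R x y) := by
    intro i hi x
    rw [lint_ball _ (hμm i hi x), lintegral_indicator (hC i hi).meas, hvol _ (by positivity)]
  set F : E d → ℂ := fun x => ∑ i ∈ s, uu (a i) (q i) x with hF
  have hFe : F = uu (afam s a q) (fun _ => 0) := by
    funext x
    exact (uu_afam s a q hac has hqc x).symm
  have hAc : Continuous (afam s a q) := continuous_afam s a q hac hqc
  have hAs : ∀ y, r < ‖y‖ → afam s a q y = 0 := by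
    intro y hy
    unfold afam
    refine Finset.sum_eq_zero fun i hi => ?_
    rw [(hC i hi).amp.supp y hy, zero_mul]
  have hFc : Continuous F := by
    rw [hFe]
    have h3 := continuous_uF d (1 / 4) ρ hρ (afam s a q) (fun _ => 0) r R hR hAc hAs
      continuous_const univ MeasurableSet.univ
    have h4 : uu (afam s a q) (fun _ => 0) = uF ρ (afam s a q) (fun _ => 0) R univ := by
      funext x
      rw [uu_eq_int hρ hρ1 hR hAc hAs continuous_const x]
      unfold uF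
      rw [setIntegral_univ]
    rw [h4]
    exact h3
  -- pointwise
  have hsup : ∀ x, ‖F x‖ₑ ≤ ENNReal.ofReal (c1 * √β * (t ^ d * w)) * muF s M q G R x := by
    intro x
    have h1 : ∀ i ∈ s, ‖uu (a i) (q i) x‖ₑ ≤ ENNReal.ofReal (c1 * √β * (t ^ d * w)) *
        ∫⁻ y in G i, ENNReal.ofReal (wt M (q i) R x y) := by
      intro i hi
      rw [uu_eq_int hρ hρ1 hR (hac i hi) (hC i hi).amp.supp (hqc i hi) x]
      calc ‖∫ z, uz ρ (a i) (q i) R z x‖ₑ ≤ ∫⁻ z, ‖uz ρ (a i) (q i) R z x‖ₑ :=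
            enorm_integral_le_lintegral_enorm _
        _ ≤ ∫⁻ z, ENNReal.ofReal (c1 * √β * R ^ d) * ∫⁻ y in Metric.closedBall z (t / R),
              (G i).indicator (fun y => ENNReal.ofReal (wt M (q i) R x y)) y :=
            lintegral_mono fun z => (H (a i) (q i) r R β (G i) hR hβ (hC i hi)).2.1 z x
        _ = ENNReal.ofReal (c1 * √β * R ^ d) * (ENNReal.ofReal ((t / R) ^ d * w) *
              ∫⁻ y in G i, ENNReal.ofReal (wt M (q i) R x y)) := by
            rw [lintegral_const_mul' _ _ ENNReal.ofReal_ne_top, hint i hi x]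
        _ = _ := by
            rw [← mul_assoc, ← ENNReal.ofReal_mul (by positivity)]
            congr 2
            rw [← hscale]
            ring
    calc ‖F x‖ₑ ≤ ∑ i ∈ s, ‖uu (a i) (q i) x‖ₑ := enorm_sum_le _ _
      _ ≤ ∑ i ∈ s, ENNReal.ofReal (c1 * √β * (t ^ d * w)) *
            ∫⁻ y in G i, ENNReal.ofReal (wt M (q i) R x y) := Finset.sum_le_sum h1
      _ = _ := by rw [← Finset.mul_sum, muF]
  -- local `L²`
  have hL2 : ∀ x0, ∫⁻ x in Metric.closedBall x0 R, ‖F x‖ₑ ^ (2 : ℝ) ≤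
      ENNReal.ofReal (k2 * M0) * muF s M q G R x0 := by
    intro x0
    rw [hFe]
    refine (loc_d d (1 / 4) (by norm_num) ρ hρ hρ0 hρ1 (afam s a q) hAc (op_compact_supp hAs)
      (fun _ => 0) continuous_const R hR0 x0).trans ?_
    have h1 : ∀ z, ‖uz ρ (afam s a q) (fun _ => 0) R z x0‖ₑ ^ (2 : ℝ) ≤
        ENNReal.ofReal M0 * ∑ i ∈ s, ENNReal.ofReal (c2 * R ^ d) *
          ∫⁻ y in Metric.closedBall z (t / R),
            (G i).indicator (fun y => ENNReal.ofReal (wt M (q i) R x0 y)) y := by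
      intro z
      rw [uz_afam hρ s a q hac has hqc R z x0]
      refine (sum_sq_few s (fun i => uz ρ (a i) (q i) R z x0) (fun i => z ∈ G i) M0
        (fun i hi hz => (H (a i) (q i) r R β (G i) hR hβ (hC i hi)).1 z x0 hz) (hM z)).trans ?_
      exact mul_le_mul_right (Finset.sum_le_sum fun i hi =>
        (H (a i) (q i) r R β (G i) hR hβ (hC i hi)).2.2 z x0) _
    calc ENNReal.ofReal (4 * (2 * π) ^ d) *
          ∫⁻ z, ‖uz ρ (afam s a q) (fun _ => 0) R z x0‖ₑ ^ (2 : ℝ)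
        ≤ ENNReal.ofReal (4 * (2 * π) ^ d) * ∫⁻ z, ENNReal.ofReal M0 * ∑ i ∈ s,
            ENNReal.ofReal (c2 * R ^ d) * ∫⁻ y in Metric.closedBall z (t / R),
              (G i).indicator (fun y => ENNReal.ofReal (wt M (q i) R x0 y)) y :=
          mul_le_mul_right (lintegral_mono h1) _
      _ = ENNReal.ofReal (4 * (2 * π) ^ d) * (ENNReal.ofReal M0 * ∑ i ∈ s,
            ENNReal.ofReal (c2 * R ^ d) * (ENNReal.ofReal ((t / R) ^ d * w) *
              ∫⁻ y in G i, ENNReal.ofReal (wt M (q i) R x0 y))) := by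
          rw [lintegral_const_mul' _ _ ENNReal.ofReal_ne_top, lintegral_finsetSum]
          · congr 2
            refine Finset.sum_congr rfl fun i hi => ?_
            rw [lintegral_const_mul' _ _ ENNReal.ofReal_ne_top, hint i hi x0]
          · intro i hi
            exact (measurable_lint_ball _ (hμm i hi x0) _).const_mul _
      _ = ENNReal.ofReal (4 * (2 * π) ^ d) * (ENNReal.ofReal M0 *
            (ENNReal.ofReal (c2 * (t ^ d * w)) * muF s M q G R x0)) := by
          congr 2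
          rw [muF, Finset.mul_sum]
          refine Finset.sum_congr rfl fun i _ => ?_
          rw [← mul_assoc, ← ENNReal.ofReal_mul (by positivity)]
          congr 2
          rw [← hscale]
          ring
      _ = _ := by
          rw [← mul_assoc, ← mul_assoc, ← ENNReal.ofReal_mul (by positivity),
            ← ENNReal.ofReal_mul (by positivity)]
          congr 2
          rw [hk2]
          ring
  -- moving the centre
  have hmove : ∀ x0, ∀ x ∈ Metric.closedBall x0 R,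
      muF s M q G R x ≤ ENNReal.ofReal (2 ^ M) * muF s M q G R x0 := by
    intro x0 x hx
    unfold muF
    rw [Finset.mul_sum]
    refine Finset.sum_le_sum fun i _ => ?_
    rw [← lintegral_const_mul' _ _ ENNReal.ofReal_ne_top]
    refine lintegral_mono fun y => ?_
    rw [← ENNReal.ofReal_mul (by positivity)]
    refine ENNReal.ofReal_le_ofReal (wt_shift M (q i) hR0 y ?_)
    rw [← dist_eq_norm]
    exact hx
  have h1 : ∀ x0, ∀ x ∈ Metric.closedBall x0 R, ‖F x‖ₑ ≤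
      ENNReal.ofReal (k1 * √β) * muF s M q G R x0 := by
    intro x0 x hx
    calc ‖F x‖ₑ ≤ ENNReal.ofReal (c1 * √β * (t ^ d * w)) * muF s M q G R x := hsup x
      _ ≤ ENNReal.ofReal (c1 * √β * (t ^ d * w)) *
            (ENNReal.ofReal (2 ^ M) * muF s M q G R x0) := mul_le_mul_right (hmove x0 x hx) _
      _ = _ := by
          rw [← mul_assoc, ← ENNReal.ofReal_mul (by positivity)]
          congr 2
          rw [hk1]
          ring
  refine (sup_l2 d al hal F hFc (muF s M q G R) (k1 * √β) (k2 * M0) R (by positivity) hR0 h1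
    hL2).trans ?_
  refine mul_le_mul_left (ENNReal.ofReal_le_ofReal ?_) _
  rw [← hvo, ← hw, Real.mul_rpow hk10 (Real.sqrt_nonneg _), Real.sqrt_eq_rpow,
    ← Real.rpow_mul (by linarith)]
  have h2 : (1 / 2 * al : ℝ) = al / 2 := by ring
  rw [h2, mul_inv]
  have h3 : 0 ≤ (M0 : ℝ) * β ^ (al / 2) * (R ^ d)⁻¹ := by positivity
  have h4 : k1 ^ al * β ^ (al / 2) * (k2 * M0) * ((R ^ d)⁻¹ * w⁻¹) =
      (k1 ^ al * k2 * w⁻¹) * (M0 * β ^ (al / 2) * (R ^ d)⁻¹) := by ring
  rw [h4]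
  nlinarith

/-- A bound for the Hessian gives the lower bound for the volume. -/
theorem vol_of_norm (d : ℕ) : ∃ c : ℝ, 1 ≤ c ∧ ∀ (q : E d → ℝ) (R K : ℝ) (y : E d), 0 < R → 1 ≤ K →
    ‖Hs q y‖ ≤ K * R ^ 2 →
    ENNReal.ofReal (c * K ^ d)⁻¹ ≤ volume {v : E d | ‖v‖ ≤ 1 ∧ ‖Hs q y v‖ ≤ R ^ 2} := by
  set vo : ℝ≥0∞ := volume (Metric.closedBall (0 : E d) 1) with hvo
  have hvot : vo ≠ ⊤ := (isCompact_closedBall (0 : E d) 1).measure_ne_top
  have hvo0 : vo ≠ 0 := (Metric.measure_closedBall_pos volume (0 : E d) one_pos).ne'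
  set w : ℝ := vo.toReal with hw
  have hw0 : 0 < w := ENNReal.toReal_pos hvo0 hvot
  refine ⟨max 1 w⁻¹, le_max_left _ _, fun q R K y hR hK hH => ?_⟩
  have hK0 : 0 < K := by linarith
  have hsub : Metric.closedBall (0 : E d) K⁻¹ ⊆ {v : E d | ‖v‖ ≤ 1 ∧ ‖Hs q y v‖ ≤ R ^ 2} := by
    intro v hv
    rw [Metric.mem_closedBall, dist_zero_right] at hv
    refine ⟨hv.trans (inv_le_one_of_one_le₀ hK), ?_⟩
    calc ‖Hs q y v‖ ≤ ‖Hs q y‖ * ‖v‖ := (Hs q y).le_opNorm v
      _ ≤ (K * R ^ 2) * K⁻¹ := mul_le_mul hH hv (norm_nonneg _) (by positivity)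
      _ = R ^ 2 := by field_simp
  refine le_trans ?_ (measure_mono hsub)
  rw [Measure.addHaar_closedBall _ _ (by positivity), finrank_euclideanSpace, Fintype.card_fin,
    ← Measure.addHaar_unitClosedBall_eq_addHaar_unitBall, ← hvo, ← ENNReal.ofReal_toReal hvot,
    ← hw, ← ENNReal.ofReal_mul (by positivity)]
  refine ENNReal.ofReal_le_ofReal ?_
  have hm : 0 < max 1 w⁻¹ := lt_of_lt_of_le one_pos (le_max_left _ _)
  rw [mul_inv, inv_pow, mul_comm]
  refine mul_le_mul_of_nonneg_left ?_ (by positivity)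
  exact inv_le_of_inv_le₀ hw0 (le_max_right _ _)

/-- The hypotheses for one terminal cell, with a bound for the Hessian. -/
structure CellK (d : ℕ) (A : ℕ → ℝ) (r R K : ℝ) (a : E d → ℂ) (q : E d → ℝ) (G : Set (E d)) :
    Prop where
  amp : AmpR d A r R a
  sm : ContDiff ℝ ∞ q
  meas : MeasurableSet G
  sub : ∀ y, a y ≠ 0 → Metric.closedBall y (3 / 4 / R) ⊆ G
  der : ∀ y ∈ G, ∀ j, 3 ≤ j → ‖iteratedFDeriv ℝ j q y‖ ≤ A j * R ^ j
  hess : ∀ y ∈ G, ‖Hs q y‖ ≤ K * R ^ 2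

/-- **The terminal bound**, phase part, with a bound for the Hessian. -/
theorem term_phaseK (d M : ℕ) (A : ℕ → ℝ) (al : ℝ) (hal : 0 ≤ al) : ∃ K0 : ℝ, 0 < K0 ∧
    ∀ {ι : Type*} (s : Finset ι) (a : ι → E d → ℂ) (q : ι → E d → ℝ) (G : ι → Set (E d))
      (r R K : ℝ) (M0 : ℕ), 1 ≤ R → 1 ≤ K → (∀ i ∈ s, CellK d A r R K (a i) (q i) (G i)) →
      (∀ y, {i ∈ (s : Set ι) | y ∈ G i}.ncard ≤ M0) →
      ∫⁻ x, ‖∑ i ∈ s, uu (a i) (q i) x‖ₑ ^ (2 + al) ≤
        ENNReal.ofReal (K0 * M0 * K ^ (d * al / 2) * (R ^ d)⁻¹) *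
          ∫⁻ x, muF s M q G R x ^ (1 + al) := by
  obtain ⟨K1, hK1, H⟩ := term_phase d M A al hal
  obtain ⟨c, hc, hv⟩ := vol_of_norm d
  refine ⟨K1 * c ^ (al / 2), by positivity, fun s a q G r R K M0 hR hK hC hM => ?_⟩
  have hK0 : 0 < K := by linarith
  have hβ : 1 ≤ c * K ^ d := by
    have := one_le_pow₀ hK (n := d)
    nlinarith
  refine (H s a q G r R (c * K ^ d) M0 hR hβ (fun i hi => ?_) hM).trans (le_of_eq ?_)
  · obtain ⟨h1, h2, h3, h4, h5, h6⟩ := hC i hi
    exact ⟨h1, h2, h3, h4, h5, fun y hy => hv (q i) R K y (by linarith) hK (h6 y hy)⟩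
  · have h1 : (c * K ^ d) ^ (al / 2) = c ^ (al / 2) * K ^ (d * al / 2) := by
      rw [Real.mul_rpow (by linarith) (by positivity), ← Real.rpow_natCast K d,
        ← Real.rpow_mul hK0.le]
      congr 2
      ring
    rw [h1]
    congr 2
    ring

end Pool.Agent.GNP
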