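import Pool.Agent.GNP.PUe

/-!
Row PU in the uniform form: averages over `b`, suprema over the frequency, classes of amplitudes.
-/

namespace Pool.Agent.GNP

open MeasureTheory Set Pool.Agent.MP_6cbfb8_an
open scoped ENNReal Real RealInnerProductSpace ContDiff Topology

/-- The supremum over the amplitudes `a` in `𝒜` and the frequencies `c` of the `L^p` norms (to
the power `p`). -/
noncomputable def FF {n : ℕ} (𝒜 : Set (E n → ℂ)) (p : ℝ) (φ : E n → ℝ) (b : Fin n → ℝ) : ℝ≥0∞ :=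
  ⨆ a ∈ 𝒜, ⨆ c : ℝ, ∫⁻ ξ, ‖extn (fun x => a x *
    Complex.exp (((c * pb φ b x : ℝ) : ℂ) * Complex.I)) ξ‖ₑ ^ p

/-- The box of side `2 M`. -/
def bx (n : ℕ) (M : ℝ) : Set (Fin n → ℝ) := Set.pi univ fun _ => Icc (-M) M

/-- Smooth functions whose derivatives are bounded on the unit sphere: `B k` for the order `k`. -/
structure Bl (n : ℕ) (B : ℕ → ℝ) (φ : E n → ℝ) : Prop where
  sm : ContDiff ℝ ∞ φ
  bd : ∀ k x, ‖x‖ = 1 → ‖iteratedFDeriv ℝ k φ x‖ ≤ B k

theorem Bl.comp_iso {n : ℕ} {B : ℕ → ℝ} {φ : E n → ℝ} (h : Bl n B φ) (R : E n ≃ₗᵢ[ℝ] E n) :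
    Bl n B fun x => φ (R x) where
  sm := h.sm.comp R.contDiff
  bd := by
    intro k x hx
    have h1 := R.norm_iteratedFDeriv_comp_right (𝕜 := ℝ) φ x k
    have h2 : iteratedFDeriv ℝ k (fun x => φ (R x)) x = iteratedFDeriv ℝ k (φ ∘ R) x := rfl
    rw [h2, h1]
    exact h.bd k (R x) (by rwa [LinearIsometryEquiv.norm_map])

/-- The function `FF` under an isometry. -/
theorem FF_iso {n : ℕ} (𝒜 : Set (E n → ℂ)) (p : ℝ) (φ : E n → ℝ) (b : Fin n → ℝ)
    (R : E n ≃ₗᵢ[ℝ] E n) (ψ : E n → ℝ) (b' : Fin n → ℝ) (h : ∀ x, pb φ b (R x) = pb ψ b' x) :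
    FF 𝒜 p φ b = FF ((fun (a : E n → ℂ) x => a (R x)) '' 𝒜) p ψ b' := by
  unfold FF
  rw [iSup_image]
  refine iSup_congr fun a => iSup_congr fun _ => iSup_congr fun c => ?_
  rw [← lint_extn_iso _ R]
  refine lintegral_congr fun ξ => ?_
  congr 3
  funext x
  rw [h]

theorem lint_box_perm {n : ℕ} (M : ℝ) (σ : Equiv.Perm (Fin n)) (F : (Fin n → ℝ) → ℝ≥0∞) :
    ∫⁻ b in bx n M, F (fun i => b (σ i)) = ∫⁻ b in bx n M, F b := by
  have h1 := volume_measurePreserving_piCongrLeft (fun _ : Fin n => ℝ) σ.symm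
  have h2 : ∀ b : Fin n → ℝ, (MeasurableEquiv.piCongrLeft (fun _ : Fin n => ℝ) σ.symm) b =
      fun i => b (σ i) := by
    intro b
    funext i
    obtain ⟨k, rfl⟩ := σ.symm.surjective i
    rw [MeasurableEquiv.coe_piCongrLeft, Equiv.piCongrLeft_apply_apply, Equiv.apply_symm_apply]
  have h3 : (MeasurableEquiv.piCongrLeft (fun _ : Fin n => ℝ) σ.symm) ⁻¹' (bx n M) = bx n M := by
    ext b
    simp only [mem_preimage, h2, bx, Set.mem_pi, mem_univ, true_implies]
    constructor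
    · intro h i
      simpa using h (σ.symm i)
    · intro h i
      exact h (σ i)
  have h4 := h1.setLIntegral_comp_preimage_emb
    (MeasurableEquiv.piCongrLeft (fun _ : Fin n => ℝ) σ.symm).measurableEmbedding F (bx n M)
  rw [h3] at h4
  rw [← h4]
  refine lintegral_congr fun b => ?_
  rw [h2]

theorem measurable_FF {n : ℕ} {𝒜 : Set (E n → ℂ)} (ha : ∀ a ∈ 𝒜, Measurable a)
    (hb : ∀ a ∈ 𝒜, ∀ x, ‖a x‖ ≤ 1) {φ : E n → ℝ} (hφ : Continuous φ) (p : ℝ) :
    Measurable (FF 𝒜 p φ) := by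
  apply LowerSemicontinuous.measurable
  unfold FF
  apply lowerSemicontinuous_biSup
  intro a ha'
  apply lowerSemicontinuous_iSup
  intro c b
  have ha := ha a ha'
  have hb := hb a ha'
  apply lowerSemicontinuousAt_iff_le_liminf.2
  have hm : ∀ b : Fin n → ℝ, Measurable fun x => a x *
      Complex.exp (((c * pb φ b x : ℝ) : ℂ) * Complex.I) := by
    intro b
    have := (continuous_pb hφ b).measurable
    fun_prop
  have hcont : ∀ ξ, Continuous fun b : Fin n → ℝ => extn (fun x => a x *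
      Complex.exp (((c * pb φ b x : ℝ) : ℂ) * Complex.I)) ξ := by
    intro ξ
    unfold extn
    refine continuous_of_dominated (bound := fun _ => 1) ?_ ?_ (integrable_const _) ?_
    · intro b
      have h1 := (hm b).comp (measurable_subtype_coe (p := fun x : E n => x ∈ S n))
      have h2 : Measurable fun x : S n =>
          Complex.exp (((-(2 * π * inner ℝ (x : E n) ξ) : ℝ) : ℂ) * Complex.I) := by
        have h3 : Continuous fun x : S n => (inner ℝ (x : E n) ξ : ℝ) :=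
          continuous_subtype_val.inner continuous_const
        exact (by fun_prop : Continuous fun x : S n =>
          Complex.exp (((-(2 * π * inner ℝ (x : E n) ξ) : ℝ) : ℂ) * Complex.I)).measurable
      exact (h1.mul h2).aestronglyMeasurable
    · intro b
      refine Filter.Eventually.of_forall fun x => ?_
      rw [norm_mul, norm_mul, Complex.norm_exp_ofReal_mul_I, Complex.norm_exp_ofReal_mul_I, mul_one,
        mul_one]
      exact hb _
    · refine Filter.Eventually.of_forall fun x => ?_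
      unfold pb
      fun_prop
  have h1 : ∀ ξ, ‖extn (fun x => a x *
      Complex.exp (((c * pb φ b x : ℝ) : ℂ) * Complex.I)) ξ‖ₑ ^ p =
      Filter.liminf (fun b' : Fin n → ℝ => ‖extn (fun x => a x *
      Complex.exp (((c * pb φ b' x : ℝ) : ℂ) * Complex.I)) ξ‖ₑ ^ p) (𝓝 b) := by
    intro ξ
    have h2 : Continuous fun b' : Fin n → ℝ => ‖extn (fun x => a x *
      Complex.exp (((c * pb φ b' x : ℝ) : ℂ) * Complex.I)) ξ‖ₑ ^ p :=
      ENNReal.continuous_rpow_const.comp (continuous_enorm.comp (hcont ξ))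
    exact (h2.tendsto b).liminf_eq.symm
  simp only [h1]
  exact lintegral_liminf_le fun b' => (measurable_extn _ (hm b')).enorm.pow_const p

/-! ## The partition -/

/-- The two cut-offs at a coordinate. -/
noncomputable def cs {d : ℕ} (j : Fin (d + 1)) (x : E (d + 1)) : ℝ :=
  cu (j, true) x + cu (j, false) x

theorem cu_nonneg {d : ℕ} (i : Fin (d + 1) × Bool) (x : E (d + 1)) : 0 ≤ cu i x :=
  Real.smoothTransition.nonneg _

theorem cu_le_one {d : ℕ} (i : Fin (d + 1) × Bool) (x : E (d + 1)) : cu i x ≤ 1 :=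
  Real.smoothTransition.le_one _

theorem cs_nonneg {d : ℕ} (j : Fin (d + 1)) (x : E (d + 1)) : 0 ≤ cs j x :=
  add_nonneg (cu_nonneg _ _) (cu_nonneg _ _)

theorem cs_le_one {d : ℕ} (j : Fin (d + 1)) (x : E (d + 1)) : cs j x ≤ 1 := by
  have hs : 0 ≤ √((d : ℝ) + 1) := Real.sqrt_nonneg _
  unfold cs
  rcases le_total 0 (x j) with h | h
  · have h1 : cu (j, false) x = 0 := by
      unfold cu
      apply Real.smoothTransition.zero_of_nonpos
      simp only [Bool.false_eq_true, if_false]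
      nlinarith [mul_nonneg hs h]
    rw [h1, add_zero]
    exact cu_le_one _ _
  · have h1 : cu (j, true) x = 0 := by
      unfold cu
      apply Real.smoothTransition.zero_of_nonpos
      simp only [if_true]
      nlinarith [mul_nonneg hs (neg_nonneg.2 h)]
    rw [h1, zero_add]
    exact cu_le_one _ _

theorem contDiff_cs {d : ℕ} (j : Fin (d + 1)) : ContDiff ℝ ∞ (cs (d := d) j) := by
  unfold cs
  exact (contDiff_cu _).add (contDiff_cu _)

/-- The partition of unity of the sphere. -/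
noncomputable def pw {d : ℕ} (i : Fin (d + 1) × Bool) (x : E (d + 1)) : ℝ :=
  cu i x * ∏ k ∈ Finset.univ.filter (· < i.1), (1 - cs k x)

theorem contDiff_pw {d : ℕ} (i : Fin (d + 1) × Bool) : ContDiff ℝ ∞ (pw (d := d) i) := by
  unfold pw
  exact (contDiff_cu i).mul (contDiff_prod fun k _ => contDiff_const.sub (contDiff_cs k))

theorem pw_nonneg {d : ℕ} (i : Fin (d + 1) × Bool) (x : E (d + 1)) : 0 ≤ pw i x :=
  mul_nonneg (cu_nonneg _ _) (Finset.prod_nonneg fun k _ => by linarith [cs_le_one k x])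

theorem pw_le_one {d : ℕ} (i : Fin (d + 1) × Bool) (x : E (d + 1)) : pw i x ≤ 1 := by
  refine mul_le_one₀ (cu_le_one _ _) (Finset.prod_nonneg fun k _ => by linarith [cs_le_one k x]) ?_
  exact Finset.prod_le_one (fun k _ => by linarith [cs_le_one k x])
    fun k _ => by linarith [cs_nonneg k x]

theorem pw_sum {d : ℕ} (x : E (d + 1)) (hx : ‖x‖ = 1) :
    ∑ i : Fin (d + 1) × Bool, pw i x = 1 := by
  have h1 : ∏ j : Fin (d + 1), (1 - cs j x) = 0 := by
    obtain ⟨i, -, hi⟩ := Finset.prod_eq_zero_iff.1 (prod_cu x hx)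
    refine Finset.prod_eq_zero (i := i.1) (Finset.mem_univ _) ?_
    have h2 : 1 ≤ cs i.1 x := by
      rcases i with ⟨j, e⟩
      have h3 := cu_nonneg (j, !e) x
      cases e
      · simp only [Bool.not_false] at h3
        unfold cs
        linarith
      · simp only [Bool.not_true] at h3
        unfold cs
        linarith
    linarith [cs_le_one i.1 x]
  have h2 := Finset.prod_one_sub_ordered (Finset.univ : Finset (Fin (d + 1))) fun j => cs j x
  rw [h1] at h2
  rw [Fintype.sum_prod_type]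
  have h3 : ∀ j : Fin (d + 1), ∑ e : Bool, pw (j, e) x =
      cs j x * ∏ k ∈ Finset.univ.filter (· < j), (1 - cs k x) := by
    intro j
    rw [Fintype.sum_bool]
    unfold pw cs
    ring
  simp only [h3]
  linarith

theorem pw_supp {d : ℕ} (i : Fin (d + 1) × Bool) (x : E (d + 1)) (h : pw i x ≠ 0) :
    1 / (2 * √((d : ℝ) + 1)) ≤ if i.2 then x i.1 else - x i.1 := by
  have hs : 0 < √((d : ℝ) + 1) := Real.sqrt_pos.2 (by positivity)
  by_contra hcon
  push Not at hcon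
  apply h
  have h1 : cu i x = 0 := by
    unfold cu
    apply Real.smoothTransition.zero_of_nonpos
    rw [lt_div_iff₀ (by positivity)] at hcon
    linarith
  unfold pw
  rw [h1, zero_mul]

/-! ## Sums -/

theorem integrable_extn {n : ℕ} {g : E n → ℂ} (hg : Measurable g) (hb : ∀ x, ‖g x‖ ≤ 1) (ξ : E n) :
    Integrable (fun x : S n => g x *
      Complex.exp (((-(2 * π * inner ℝ (x : E n) ξ) : ℝ) : ℂ) * Complex.I)) (sm n) := by
  have h3 : Continuous fun x : S n => (inner ℝ (x : E n) ξ : ℝ) :=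
    continuous_subtype_val.inner continuous_const
  have h2 : Measurable fun x : S n =>
      Complex.exp (((-(2 * π * inner ℝ (x : E n) ξ) : ℝ) : ℂ) * Complex.I) :=
    (by fun_prop : Continuous fun x : S n =>
      Complex.exp (((-(2 * π * inner ℝ (x : E n) ξ) : ℝ) : ℂ) * Complex.I)).measurable
  have h1 := hg.comp (measurable_subtype_coe (p := fun x : E n => x ∈ S n))
  refine Integrable.mono' (integrable_const (1 : ℝ)) (h1.mul h2).aestronglyMeasurable ?_
  refine Filter.Eventually.of_forall fun x => ?_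
  rw [norm_mul, Complex.norm_exp_ofReal_mul_I, mul_one]
  exact hb _

theorem extn_sum {n : ℕ} {ι : Type*} (s : Finset ι) (g : ι → E n → ℂ)
    (hg : ∀ i ∈ s, Measurable (g i)) (hb : ∀ i ∈ s, ∀ x, ‖g i x‖ ≤ 1) (ξ : E n) :
    extn (fun x => ∑ i ∈ s, g i x) ξ = ∑ i ∈ s, extn (g i) ξ := by
  unfold extn
  rw [← integral_finsetSum s fun i hi => integrable_extn (hg i hi) (hb i hi) ξ]
  refine integral_congr_ae (Filter.Eventually.of_forall fun x => ?_)
  simp only [Finset.sum_mul]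

/-- The sum over a partition of unity. -/
theorem FF_sum {n : ℕ} {ι : Type*} (s : Finset ι) (w : ι → E n → ℝ)
    (hw : ∀ i ∈ s, Continuous (w i)) (hw1 : ∀ i ∈ s, ∀ x, |w i x| ≤ 1)
    (hs : ∀ x : E n, ‖x‖ = 1 → ∑ i ∈ s, w i x = 1) (𝒜 : Set (E n → ℂ))
    (ha : ∀ a ∈ 𝒜, Measurable a) (hb : ∀ a ∈ 𝒜, ∀ x, ‖a x‖ ≤ 1) {φ : E n → ℝ}
    (hφ : Continuous φ) {p : ℝ} (hp : 1 ≤ p) (b : Fin n → ℝ) :
    FF 𝒜 p φ b ≤ (s.card : ℝ≥0∞) ^ (p - 1) *
      ∑ i ∈ s, FF ((fun (a : E n → ℂ) x => (w i x : ℂ) * a x) '' 𝒜) p φ b := by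
  conv_lhs => unfold FF
  refine iSup₂_le fun a haA => iSup_le fun c => ?_
  have hpb := continuous_pb hφ b
  set e : E n → ℂ := fun x => Complex.exp (((c * pb φ b x : ℝ) : ℂ) * Complex.I) with he
  have hem : Measurable e := by
    have : Continuous e := by rw [he]; fun_prop
    exact this.measurable
  have he1 : ∀ x, ‖e x‖ = 1 := fun x => Complex.norm_exp_ofReal_mul_I _
  have hgm : ∀ i ∈ s, Measurable fun x => (w i x : ℂ) * a x * e x := by
    intro i hi
    have h1 := (hw i hi).measurable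
    have h2 := ha a haA
    fun_prop
  have hgb : ∀ i ∈ s, ∀ x, ‖(w i x : ℂ) * a x * e x‖ ≤ 1 := by
    intro i hi x
    rw [norm_mul, norm_mul, he1, mul_one, Complex.norm_real, Real.norm_eq_abs]
    exact mul_le_one₀ (hw1 i hi x) (norm_nonneg _) (hb a haA x)
  have h1 : ∀ ξ, extn (fun x => a x * e x) ξ =
      ∑ i ∈ s, extn (fun x => (w i x : ℂ) * a x * e x) ξ := by
    intro ξ
    rw [← extn_sum s _ hgm hgb]
    refine extn_congr (fun x => ?_) ξ
    have hx : ‖(x : E n)‖ = 1 := mem_sphere_zero_iff_norm.mp x.2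
    rw [← Finset.sum_mul, ← Finset.sum_mul, ← Complex.ofReal_sum, hs x hx, Complex.ofReal_one,
      one_mul]
  calc ∫⁻ ξ, ‖extn (fun x => a x * e x) ξ‖ₑ ^ p
      ≤ ∫⁻ ξ, (s.card : ℝ≥0∞) ^ (p - 1) *
          ∑ i ∈ s, ‖extn (fun x => (w i x : ℂ) * a x * e x) ξ‖ₑ ^ p := by
        refine lintegral_mono fun ξ => ?_
        rw [h1]
        refine (ENNReal.rpow_le_rpow (enorm_sum_le _ _) (by linarith)).trans ?_
        exact ENNReal.rpow_sum_le_const_mul_sum_rpow s _ hp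
    _ = (s.card : ℝ≥0∞) ^ (p - 1) *
          ∑ i ∈ s, ∫⁻ ξ, ‖extn (fun x => (w i x : ℂ) * a x * e x) ξ‖ₑ ^ p := by
        rw [lintegral_const_mul', lintegral_finsetSum']
        · exact fun i hi => ((measurable_extn _ (hgm i hi)).enorm.pow_const p).aemeasurable
        · exact ENNReal.rpow_ne_top_of_nonneg (by linarith) (by simp)
    _ ≤ _ := by
        refine mul_le_mul_right (Finset.sum_le_sum fun i hi => ?_) _
        unfold FF
        rw [iSup_image]
        exact le_iSup₂_of_le a haA (le_iSup_of_le c le_rfl)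

/-! ## All charts -/

theorem exists_swap {d : ℕ} (i : Fin (d + 1) × Bool) :
    ∃ (R : E (d + 1) ≃ₗᵢ[ℝ] E (d + 1)) (σ : Equiv.Perm (Fin (d + 1))),
      (∀ x, (if i.2 then (R x) i.1 else - (R x) i.1) = x (Fin.last d)) ∧
      ∀ (φ : E (d + 1) → ℝ) (b : Fin (d + 1) → ℝ) (x : E (d + 1)),
        pb φ b (R x) = pb (fun y => φ (R y)) (fun k => b (σ k)) x := by
  rcases i with ⟨j, e⟩
  set σ : Equiv.Perm (Fin (d + 1)) := Equiv.swap j (Fin.last d) with hσ
  have hσs : σ.symm = σ := Equiv.symm_swap _ _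
  have h1 : ∀ x : E (d + 1), pis σ x j = x (Fin.last d) := by
    intro x
    rw [pis_apply, hσs, hσ, Equiv.swap_apply_left]
  cases e
  · refine ⟨(pis σ).trans (LinearIsometryEquiv.neg ℝ), σ, fun x => ?_, fun φ b x => ?_⟩
    · simp [h1]
    · have h2 : ∀ y, ((pis σ).trans (LinearIsometryEquiv.neg ℝ)) y = - (pis σ y) := fun y => rfl
      simp only [h2]
      rw [pb_neg, pb_pis]
  · exact ⟨pis σ, σ, fun x => by simp [h1], fun φ b x => pb_pis φ b σ x⟩

/-- From one chart to the whole sphere: uniform averages over `b`. -/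
theorem main_U (d : ℕ) (p M : ℝ) (hp : 1 ≤ p) (𝒬 : Set (E (d + 1) → ℝ))
    (hPc : ∀ φ ∈ 𝒬, Continuous φ)
    (hP : ∀ φ ∈ 𝒬, ∀ R : E (d + 1) ≃ₗᵢ[ℝ] E (d + 1), (fun x => φ (R x)) ∈ 𝒬)
    (𝔉 𝔉' : Set (Set (E (d + 1) → ℂ)))
    (hm : ∀ 𝒜 ∈ 𝔉, ∀ a ∈ 𝒜, Measurable a) (hb : ∀ 𝒜 ∈ 𝔉, ∀ a ∈ 𝒜, ∀ x, ‖a x‖ ≤ 1)
    (h1 : ∀ 𝒜 ∈ 𝔉, ∀ i, (fun (a : E (d + 1) → ℂ) x => (pw i x : ℂ) * a x) '' 𝒜 ∈ 𝔉')
    (h2 : ∀ 𝒜 ∈ 𝔉', ∀ R : E (d + 1) ≃ₗᵢ[ℝ] E (d + 1),
      (fun (a : E (d + 1) → ℂ) x => a (R x)) '' 𝒜 ∈ 𝔉')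
    (H : ∀ r : ℝ, 0 < r → r < 1 → ∃ C : ℝ≥0∞, C ≠ ⊤ ∧ ∀ φ ∈ 𝒬, ∀ 𝒜 ∈ 𝔉',
      (∀ a ∈ 𝒜, ∀ (y : E d) (t : ℝ), ‖y‖ ^ 2 + t ^ 2 = 1 → (r < ‖y‖ ∨ t ≤ 0) →
        a (join y t) = 0) →
      ∫⁻ b in bx (d + 1) M, FF 𝒜 p φ b ≤ C) :
    ∃ C : ℝ≥0∞, C ≠ ⊤ ∧ ∀ φ ∈ 𝒬, ∀ 𝒜 ∈ 𝔉, ∫⁻ b in bx (d + 1) M, FF 𝒜 p φ b ≤ C := by
  set δ : ℝ := 1 / (2 * √((d : ℝ) + 1)) with hδ
  have hs : 1 ≤ √((d : ℝ) + 1) := by
    rw [Real.one_le_sqrt]
    have : (0 : ℝ) ≤ d := Nat.cast_nonneg d
    linarith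
  have hδ0 : 0 < δ := by positivity
  have hδ1 : δ < 1 := by
    rw [hδ, div_lt_one (by positivity)]
    linarith
  have hr0 : 0 < √(1 - δ ^ 2) := Real.sqrt_pos.mpr (by nlinarith)
  have hr1 : √(1 - δ ^ 2) < 1 := by
    rw [Real.sqrt_lt' one_pos]
    nlinarith
  obtain ⟨C, hC, hCb⟩ := H _ hr0 hr1
  set N : ℝ≥0∞ := ((Finset.univ : Finset (Fin (d + 1) × Bool)).card : ℝ≥0∞) with hN
  have hNt : N ≠ ⊤ := ENNReal.natCast_ne_top _
  refine ⟨N ^ (p - 1) * ∑ _i : Fin (d + 1) × Bool, C, ?_, fun φ hφ 𝒜 hA => ?_⟩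
  · refine ENNReal.mul_ne_top (ENNReal.rpow_ne_top_of_nonneg (by linarith) hNt) ?_
    rw [Finset.sum_const, nsmul_eq_mul]
    exact ENNReal.mul_ne_top hNt hC
  · have hw : ∀ i ∈ (Finset.univ : Finset (Fin (d + 1) × Bool)), Continuous (pw (d := d) i) :=
      fun i _ => (contDiff_pw i).continuous
    have hw1 : ∀ i ∈ (Finset.univ : Finset (Fin (d + 1) × Bool)), ∀ x : E (d + 1), |pw i x| ≤ 1 := by
      intro i _ x
      rw [abs_of_nonneg (pw_nonneg i x)]
      exact pw_le_one i x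
    have hmeas : ∀ i, Measurable
        (FF ((fun (a : E (d + 1) → ℂ) x => (pw i x : ℂ) * a x) '' 𝒜) p φ) := by
      intro i
      refine measurable_FF ?_ ?_ (hPc φ hφ) p
      · rintro _ ⟨a, ha, rfl⟩
        have k1 := (hw i (Finset.mem_univ _)).measurable
        have k2 := hm 𝒜 hA a ha
        fun_prop
      · rintro _ ⟨a, ha, rfl⟩ x
        rw [norm_mul, Complex.norm_real, Real.norm_eq_abs]
        exact mul_le_one₀ (hw1 i (Finset.mem_univ _) x) (norm_nonneg _) (hb 𝒜 hA a ha x)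
    calc ∫⁻ b in bx (d + 1) M, FF 𝒜 p φ b
        ≤ ∫⁻ b in bx (d + 1) M, N ^ (p - 1) * ∑ i : Fin (d + 1) × Bool,
            FF ((fun (a : E (d + 1) → ℂ) x => (pw i x : ℂ) * a x) '' 𝒜) p φ b := by
          refine lintegral_mono fun b => ?_
          exact FF_sum Finset.univ pw hw hw1 (fun x hx => pw_sum x hx) 𝒜 (hm 𝒜 hA) (hb 𝒜 hA)
            (hPc φ hφ) hp b
      _ = N ^ (p - 1) * ∑ i : Fin (d + 1) × Bool, ∫⁻ b in bx (d + 1) M,
            FF ((fun (a : E (d + 1) → ℂ) x => (pw i x : ℂ) * a x) '' 𝒜) p φ b := by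
          rw [lintegral_const_mul', lintegral_finsetSum]
          · exact fun i _ => hmeas i
          · exact ENNReal.rpow_ne_top_of_nonneg (by linarith) hNt
      _ ≤ N ^ (p - 1) * ∑ _i : Fin (d + 1) × Bool, C := by
          refine mul_le_mul_right (Finset.sum_le_sum fun i _ => ?_) _
          obtain ⟨R, σ, hR, hpb⟩ := exists_swap i
          have k1 : ∀ b, FF ((fun (a : E (d + 1) → ℂ) x => (pw i x : ℂ) * a x) '' 𝒜) p φ b =
              FF ((fun (a : E (d + 1) → ℂ) x => a (R x)) ''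
                ((fun (a : E (d + 1) → ℂ) x => (pw i x : ℂ) * a x) '' 𝒜)) p (fun x => φ (R x))
                fun k => b (σ k) := fun b => FF_iso _ p φ b R _ _ (hpb φ b)
          simp only [k1]
          rw [lint_box_perm M σ fun b => FF ((fun (a : E (d + 1) → ℂ) x => a (R x)) ''
                ((fun (a : E (d + 1) → ℂ) x => (pw i x : ℂ) * a x) '' 𝒜)) p (fun x => φ (R x)) b]
          refine hCb _ (hP φ hφ R) _ (h2 _ (h1 𝒜 hA i) R) ?_
          rintro _ ⟨_, ⟨a, ha, rfl⟩, rfl⟩ y t hyt hc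
          simp only
          by_cases hne : pw i (R (join y t)) = 0
          · rw [hne, Complex.ofReal_zero, zero_mul]
          · exfalso
            have k2 := pw_supp i _ hne
            rw [hR] at k2
            have k3 : (join y t : E (d + 1)) (Fin.last d) = t := by simp [join]
            rw [k3, ← hδ] at k2
            rcases hc with hc | hc
            · have h5 : ‖y‖ ≤ √(1 - δ ^ 2) := by
                apply Real.le_sqrt_of_sq_le
                nlinarith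
              linarith
            · linarith

end Pool.Agent.GNP
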