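import Pool.Agent.GNP.WG2

/-!
The Wigner lemma.
-/

namespace Pool.Agent.GNP

open MeasureTheory Set Pool.Agent.MP_6cbfb8_an
open scoped ENNReal Real RealInnerProductSpace ContDiff

/-- The square of an integral. -/
theorem wig_id {d : ℕ} (k : ℝ) (f : E d → ℂ) (hf : Continuous f) (hf0 : ∀ w, k < ‖w‖ → f w = 0) :
    (∫ w, f w) * (starRingEnd ℂ) (∫ w, f w) =
      ∫ w, ∫ h, f (w + (1 / 2 : ℝ) • h) * (starRingEnd ℂ) (f (w + (-(1 / 2) : ℝ) • h)) := by
  have hcs : HasCompactSupport f := HasCompactSupport.intro (isCompact_closedBall (0 : E d) k)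
    (fun w hw => hf0 w (by simpa using hw))
  -- integrability
  have hint1 : Integrable (Function.uncurry fun y h : E d => f (y + h) * (starRingEnd ℂ) (f y))
      ((volume : Measure (E d)).prod volume) := by
    have hc : Continuous (Function.uncurry fun y h : E d => f (y + h) * (starRingEnd ℂ) (f y)) := by
      change Continuous fun p : E d × E d => f (p.1 + p.2) * (starRingEnd ℂ) (f p.1)
      exact (hf.comp (continuous_fst.add continuous_snd)).mul
        (Complex.continuous_conj.comp (hf.comp continuous_fst))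
    refine hc.integrable_of_hasCompactSupport (HasCompactSupport.intro
      ((isCompact_closedBall (0 : E d) |k|).prod (isCompact_closedBall (0 : E d) (2 * |k|))) ?_)
    rintro ⟨y, h⟩ hyh
    change f (y + h) * (starRingEnd ℂ) (f y) = 0
    by_cases hy : ‖y‖ ≤ |k|
    · have hh : 2 * |k| < ‖h‖ := by
        by_contra hcon
        push Not at hcon
        exact hyh ⟨by simpa using hy, by simpa using hcon⟩
      have h1 : k < ‖y + h‖ := by
        have h2 : ‖h‖ ≤ ‖y + h‖ + ‖y‖ := by
          have h3 := norm_sub_le (y + h) y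
          rwa [add_sub_cancel_left] at h3
        linarith [le_abs_self k]
      rw [hf0 _ h1, zero_mul]
    · push Not at hy
      rw [hf0 y (lt_of_le_of_lt (le_abs_self k) hy), map_zero, mul_zero]
  have hint2 : Integrable (Function.uncurry fun h w : E d =>
      f (w + (1 / 2 : ℝ) • h) * (starRingEnd ℂ) (f (w + (-(1 / 2) : ℝ) • h)))
      ((volume : Measure (E d)).prod volume) := by
    have hc : Continuous (Function.uncurry fun h w : E d =>
      f (w + (1 / 2 : ℝ) • h) * (starRingEnd ℂ) (f (w + (-(1 / 2) : ℝ) • h))) := by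
      change Continuous fun p : E d × E d =>
        f (p.2 + (1 / 2 : ℝ) • p.1) * (starRingEnd ℂ) (f (p.2 + (-(1 / 2) : ℝ) • p.1))
      have h1 : Continuous fun p : E d × E d => p.2 + (1 / 2 : ℝ) • p.1 := by fun_prop
      have h2 : Continuous fun p : E d × E d => p.2 + (-(1 / 2) : ℝ) • p.1 := by fun_prop
      exact (hf.comp h1).mul (Complex.continuous_conj.comp (hf.comp h2))
    refine hc.integrable_of_hasCompactSupport (HasCompactSupport.intro
      ((isCompact_closedBall (0 : E d) (2 * |k|)).prod (isCompact_closedBall (0 : E d) |k|)) ?_)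
    rintro ⟨h, w⟩ hhw
    change f (w + (1 / 2 : ℝ) • h) * (starRingEnd ℂ) (f (w + (-(1 / 2) : ℝ) • h)) = 0
    by_contra hne
    have h1 : ‖w + (1 / 2 : ℝ) • h‖ ≤ k := by
      by_contra hcon
      push Not at hcon
      exact hne (by rw [hf0 _ hcon, zero_mul])
    have h2 : ‖w + (-(1 / 2) : ℝ) • h‖ ≤ k := by
      by_contra hcon
      push Not at hcon
      exact hne (by rw [hf0 _ hcon, map_zero, mul_zero])
    refine hhw ⟨?_, ?_⟩
    · have h3 : h = (w + (1 / 2 : ℝ) • h) - (w + (-(1 / 2) : ℝ) • h) := by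
        rw [add_sub_add_left_eq_sub, ← sub_smul]
        norm_num
      have h4 := norm_sub_le (w + (1 / 2 : ℝ) • h) (w + (-(1 / 2) : ℝ) • h)
      rw [← h3] at h4
      have := le_abs_self k
      simp only [Metric.mem_closedBall, dist_zero_right]
      linarith
    · have h3 : w = (1 / 2 : ℝ) • (w + (1 / 2 : ℝ) • h) + (1 / 2 : ℝ) • (w + (-(1 / 2) : ℝ) • h) := by
        rw [smul_add, smul_add, smul_smul, smul_smul]
        have : (1 / 2 : ℝ) • w + ((1 / 2 : ℝ) * (1 / 2)) • h +
            ((1 / 2 : ℝ) • w + ((1 / 2 : ℝ) * -(1 / 2)) • h) =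
            ((1 / 2 : ℝ) + 1 / 2) • w + ((1 / 2 : ℝ) * (1 / 2) + (1 / 2 : ℝ) * -(1 / 2)) • h := by
          rw [add_smul, add_smul]; abel
        rw [this]
        norm_num
      have h4 := norm_add_le ((1 / 2 : ℝ) • (w + (1 / 2 : ℝ) • h))
        ((1 / 2 : ℝ) • (w + (-(1 / 2) : ℝ) • h))
      rw [← h3, norm_smul, norm_smul, Real.norm_of_nonneg (by norm_num)] at h4
      have := le_abs_self k
      simp only [Metric.mem_closedBall, dist_zero_right]
      linarith
  calc (∫ w, f w) * (starRingEnd ℂ) (∫ w, f w)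
      = ∫ y, (∫ x, f x) * (starRingEnd ℂ) (f y) := by
        rw [integral_const_mul]
        congr 1
        exact integral_conj.symm
    _ = ∫ y, ∫ h, f (y + h) * (starRingEnd ℂ) (f y) := by
        refine integral_congr_ae (Filter.Eventually.of_forall fun y => ?_)
        simp only
        rw [integral_mul_const, integral_add_left_eq_self (fun x => f x) y]
    _ = ∫ h, ∫ y, f (y + h) * (starRingEnd ℂ) (f y) := integral_integral_swap hint1
    _ = ∫ h, ∫ w, f (w + (1 / 2 : ℝ) • h) * (starRingEnd ℂ) (f (w + (-(1 / 2) : ℝ) • h)) := by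
        refine integral_congr_ae (Filter.Eventually.of_forall fun h => ?_)
        simp only
        rw [← integral_add_right_eq_self (fun y => f (y + h) * (starRingEnd ℂ) (f y))
          ((-(1 / 2) : ℝ) • h)]
        refine integral_congr_ae (Filter.Eventually.of_forall fun w => ?_)
        simp only
        have h1 : w + (-(1 / 2) : ℝ) • h + h = w + (1 / 2 : ℝ) • h := by
          have h2 : (-(1 / 2) : ℝ) • h + h = (1 / 2 : ℝ) • h := by
            nth_rewrite 2 [← one_smul ℝ h]
            rw [← add_smul]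
            norm_num
          rw [add_assoc, h2]
        rw [h1]
    _ = _ := integral_integral_swap hint2

/-- W. The Wigner lemma. -/
theorem wigner (d N : ℕ) (A : ℕ → ℝ) (κ : ℝ) (_hκ : 0 < κ) : ∃ C : ℝ, 0 < C ∧
    ∀ (b : E d → ℂ) (φ : E d → ℝ), ContDiff ℝ ∞ b → ContDiff ℝ ∞ φ → (∀ w, κ < ‖w‖ → b w = 0) →
      (∀ j w, ‖iteratedFDeriv ℝ j b w‖ ≤ A j) →
      (∀ w, ‖w‖ ≤ κ → ∀ j, 3 ≤ j → ‖iteratedFDeriv ℝ j φ w‖ ≤ A j) →
      ‖∫ w, b w * Complex.exp ((φ w : ℂ) * Complex.I)‖ ^ 2 ≤
        C * ∫ w in Metric.closedBall (0 : E d) κ, ((1 + ‖gr φ w‖) ^ N)⁻¹ := by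
  obtain ⟨C, hC0, hC⟩ := wig_inner d N A κ
  refine ⟨C + 1, by linarith, ?_⟩
  intro b φ hb hφ hb0 hbA hφA
  set f : E d → ℂ := fun w => b w * Complex.exp ((φ w : ℂ) * Complex.I) with hf
  have hfc : Continuous f :=
    hb.continuous.mul (Complex.continuous_exp.comp
      ((Complex.continuous_ofReal.comp hφ.continuous).mul continuous_const))
  have hf0 : ∀ w, κ < ‖w‖ → f w = 0 := by
    intro w hw
    simp only [hf, hb0 w hw, zero_mul]
  have hid := wig_id κ f hfc hf0
  have hprod : ∀ w h : E d, f (w + (1 / 2 : ℝ) • h) * (starRingEnd ℂ) (f (w + (-(1 / 2) : ℝ) • h)) =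
      b (w + (1 / 2 : ℝ) • h) * (starRingEnd ℂ) (b (w + (-(1 / 2) : ℝ) • h)) *
        Complex.exp (((φ (w + (1 / 2 : ℝ) • h) - φ (w + (-(1 / 2) : ℝ) • h) : ℝ) : ℂ) *
          Complex.I) := by
    intro w h
    simp only [hf]
    rw [map_mul, ← Complex.exp_conj, map_mul, Complex.conj_I, Complex.conj_ofReal,
      mul_mul_mul_comm, ← Complex.exp_add]
    congr 2
    push_cast
    ring
  have hgc : Continuous fun w => ((1 + ‖gr φ w‖) ^ N)⁻¹ := by
    have h1 : Continuous (gr φ) := by
      have h2 : ContDiff ℝ 0 (fderiv ℝ φ) := hφ.fderiv_right (m := 0) (by norm_cast)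
      exact ((InnerProductSpace.toDual ℝ (E d)).symm.continuous).comp h2.continuous
    refine Continuous.inv₀ ((continuous_const.add h1.norm).pow N) fun w => ?_
    have : 0 < 1 + ‖gr φ w‖ := by positivity
    positivity
  have hgi : IntegrableOn (fun w => ((1 + ‖gr φ w‖) ^ N)⁻¹) (Metric.closedBall (0 : E d) κ) :=
    hgc.continuousOn.integrableOn_compact (isCompact_closedBall _ _)
  have hg0 : 0 ≤ ∫ w in Metric.closedBall (0 : E d) κ, ((1 + ‖gr φ w‖) ^ N)⁻¹ :=
    setIntegral_nonneg Metric.isClosed_closedBall.measurableSet fun w _ => by positivity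
  have h1 : ‖∫ w, f w‖ ^ 2 = ‖(∫ w, f w) * (starRingEnd ℂ) (∫ w, f w)‖ := by
    rw [norm_mul, RCLike.norm_conj, sq]
  rw [h1, hid]
  set g : E d → ℝ := (Metric.closedBall (0 : E d) κ).indicator
    fun w => C * ((1 + ‖gr φ w‖) ^ N)⁻¹ with hg
  have h2 : ‖∫ w, ∫ h, f (w + (1 / 2 : ℝ) • h) * (starRingEnd ℂ) (f (w + (-(1 / 2) : ℝ) • h))‖ ≤
      ∫ w, g w := by
    refine norm_integral_le_of_norm_le ?_ (Filter.Eventually.of_forall fun w => ?_)
    · rw [hg, integrable_indicator_iff Metric.isClosed_closedBall.measurableSet]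
      exact hgi.const_mul C
    · by_cases hw : w ∈ Metric.closedBall (0 : E d) κ
      · rw [hg, indicator_of_mem hw]
        simp_rw [hprod]
        exact hC b φ hb hφ hb0 hbA (fun j hj y hy => hφA y hy j hj) w (by simpa using hw)
      · rw [hg, indicator_of_notMem hw]
        have h3 : ∀ h : E d, f (w + (1 / 2 : ℝ) • h) *
            (starRingEnd ℂ) (f (w + (-(1 / 2) : ℝ) • h)) = 0 := by
          intro h
          by_contra hne
          have h4 : ‖w + (1 / 2 : ℝ) • h‖ ≤ κ := by
            by_contra hcon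
            push Not at hcon
            exact hne (by rw [hf0 _ hcon, zero_mul])
          have h5 : ‖w + (-(1 / 2) : ℝ) • h‖ ≤ κ := by
            by_contra hcon
            push Not at hcon
            exact hne (by rw [hf0 _ hcon, map_zero, mul_zero])
          have h6 : w = (1 / 2 : ℝ) • (w + (1 / 2 : ℝ) • h) +
              (1 / 2 : ℝ) • (w + (-(1 / 2) : ℝ) • h) := by
            rw [smul_add, smul_add, smul_smul, smul_smul]
            have : (1 / 2 : ℝ) • w + ((1 / 2 : ℝ) * (1 / 2)) • h +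
                ((1 / 2 : ℝ) • w + ((1 / 2 : ℝ) * -(1 / 2)) • h) =
                ((1 / 2 : ℝ) + 1 / 2) • w +
                  ((1 / 2 : ℝ) * (1 / 2) + (1 / 2 : ℝ) * -(1 / 2)) • h := by
              rw [add_smul, add_smul]; abel
            rw [this]
            norm_num
          have h7 := norm_add_le ((1 / 2 : ℝ) • (w + (1 / 2 : ℝ) • h))
            ((1 / 2 : ℝ) • (w + (-(1 / 2) : ℝ) • h))
          rw [← h6, norm_smul, norm_smul, Real.norm_of_nonneg (by norm_num)] at h7
          exact hw (by simpa using (by linarith : ‖w‖ ≤ κ))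
        simp_rw [h3]
        simp
  refine h2.trans ?_
  rw [hg, integral_indicator Metric.isClosed_closedBall.measurableSet, integral_const_mul]
  nlinarith

end Pool.Agent.GNP
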