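import Pool.Agent.GNP.P1g
import Pool.Agent.GNP.P0

/-!
The Wigner lemma, inner part: decay in the difference variable.
-/

namespace Pool.Agent.GNP

open MeasureTheory Set Pool.Agent.MP_6cbfb8_an
open scoped ENNReal Real RealInnerProductSpace ContDiff Nat

/-- The remainder of the phase in the Wigner identity. -/
noncomputable def wr {d : ℕ} (ψ : E d → ℝ) (w h : E d) : ℝ :=
  ψ (w + (1 / 2 : ℝ) • h) - ψ (w + (-(1 / 2) : ℝ) • h) - ⟪gr ψ w, h⟫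

/-- The amplitude in the Wigner identity, without the remainder. -/
noncomputable def wb {d : ℕ} (b : E d → ℂ) (w h : E d) : ℂ :=
  b (w + (1 / 2 : ℝ) • h) * (starRingEnd ℂ) (b (w + (-(1 / 2) : ℝ) • h))

theorem contDiff_wr {d : ℕ} {ψ : E d → ℝ} (hψ : ContDiff ℝ ∞ ψ) (w : E d) :
    ContDiff ℝ ∞ (wr ψ w) := by
  unfold wr
  exact ((hψ.comp (contDiff_const.add (contDiff_id.const_smul _))).sub
    (hψ.comp (contDiff_const.add (contDiff_id.const_smul _)))).sub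
      (contDiff_const.inner ℝ contDiff_id)

theorem contDiff_wb {d : ℕ} {b : E d → ℂ} (hb : ContDiff ℝ ∞ b) (w : E d) :
    ContDiff ℝ ∞ (wb b w) := by
  unfold wb
  exact (hb.comp (contDiff_const.add (contDiff_id.const_smul _))).mul
    (Complex.conjCLE.contDiff.comp (hb.comp (contDiff_const.add (contDiff_id.const_smul _))))

/-- The set of the differences: a convex set. -/
def wS {d : ℕ} (k : ℝ) (w : E d) : Set (E d) :=
  {h | ‖w + (1 / 2 : ℝ) • h‖ ≤ k ∧ ‖w + (-(1 / 2) : ℝ) • h‖ ≤ k}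

theorem wS_seg {d : ℕ} {k : ℝ} {w : E d} (hw : ‖w‖ ≤ k) {h : E d} (hh : h ∈ wS k w) {t : ℝ}
    (ht0 : 0 ≤ t) (ht1 : t ≤ 1) : t • h ∈ wS k w := by
  have key : ∀ u : ℝ, ‖w + u • h‖ ≤ k → ‖w + u • (t • h)‖ ≤ k := by
    intro u hu
    have h1 : w + u • (t • h) = (1 - t) • w + t • (w + u • h) := by
      rw [smul_add, smul_smul, smul_smul, mul_comm u t, ← add_assoc, ← add_smul]
      simp
    rw [h1]
    refine (norm_add_le _ _).trans ?_
    rw [norm_smul, norm_smul, Real.norm_of_nonneg (by linarith), Real.norm_of_nonneg ht0]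
    nlinarith
  exact ⟨key _ hh.1, key _ hh.2⟩

theorem wS_norm {d : ℕ} {k : ℝ} {w : E d} {h : E d} (hh : h ∈ wS k w) : ‖h‖ ≤ 2 * k := by
  have h1 : h = (w + (1 / 2 : ℝ) • h) - (w + (-(1 / 2) : ℝ) • h) := by
    rw [add_sub_add_left_eq_sub, ← sub_smul]
    norm_num
  calc ‖h‖ = ‖(w + (1 / 2 : ℝ) • h) - (w + (-(1 / 2) : ℝ) • h)‖ := by rw [← h1]
    _ ≤ ‖w + (1 / 2 : ℝ) • h‖ + ‖w + (-(1 / 2) : ℝ) • h‖ := norm_sub_le _ _
    _ ≤ 2 * k := by linarith [hh.1, hh.2]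

theorem hasFDerivAt_aff {d : ℕ} {F : Type*} [NormedAddCommGroup F] [NormedSpace ℝ F]
    {f : E d → F} (hf : Differentiable ℝ f) (w : E d) (u : ℝ) (h : E d) :
    HasFDerivAt (fun h => f (w + u • h)) (u • fderiv ℝ f (w + u • h)) h := by
  have h1 : HasFDerivAt (fun h : E d => w + u • h) (u • ContinuousLinearMap.id ℝ (E d)) h :=
    ((hasFDerivAt_id h).const_smul u).const_add w
  have h2 := (hf (w + u • h)).hasFDerivAt.comp h h1
  have h3 : (fderiv ℝ f (w + u • h)).comp (u • ContinuousLinearMap.id ℝ (E d)) =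
      u • fderiv ℝ f (w + u • h) := by
    ext v
    simp
  rw [h3] at h2
  exact h2

theorem fderiv_wr {d : ℕ} {ψ : E d → ℝ} (hψ : ContDiff ℝ ∞ ψ) (w : E d) :
    fderiv ℝ (wr ψ w) = fun h => (1 / 2 : ℝ) • fderiv ℝ ψ (w + (1 / 2 : ℝ) • h) -
      (-(1 / 2) : ℝ) • fderiv ℝ ψ (w + (-(1 / 2) : ℝ) • h) - fderiv ℝ ψ w := by
  funext h
  have hd : Differentiable ℝ ψ := hψ.differentiable (by norm_num)
  have h1 := hasFDerivAt_aff hd w (1 / 2) h
  have h2 := hasFDerivAt_aff hd w (-(1 / 2)) h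
  have h3 : HasFDerivAt (fun h : E d => ⟪gr ψ w, h⟫) (fderiv ℝ ψ w) h := by
    have h4 : (fun h : E d => ⟪gr ψ w, h⟫) = fderiv ℝ ψ w := by
      funext v
      exact inner_gr ψ w v
    rw [h4]
    exact (fderiv ℝ ψ w).hasFDerivAt
  exact ((h1.sub h2).sub h3).fderiv

theorem fderiv2_wr {d : ℕ} {ψ : E d → ℝ} (hψ : ContDiff ℝ ∞ ψ) (w h : E d) :
    fderiv ℝ (fderiv ℝ (wr ψ w)) h = (1 / 4 : ℝ) • (fderiv ℝ (fderiv ℝ ψ) (w + (1 / 2 : ℝ) • h) -
      fderiv ℝ (fderiv ℝ ψ) (w + (-(1 / 2) : ℝ) • h)) := by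
  rw [fderiv_wr hψ w]
  have hd : Differentiable ℝ (fderiv ℝ ψ) := differentiable_fderiv hψ
  have h1 := (hasFDerivAt_aff hd w (1 / 2) h).const_smul (1 / 2 : ℝ)
  have h2 := (hasFDerivAt_aff hd w (-(1 / 2)) h).const_smul (-(1 / 2) : ℝ)
  have h3 : HasFDerivAt (fun h => (1 / 2 : ℝ) • fderiv ℝ ψ (w + (1 / 2 : ℝ) • h) -
      (-(1 / 2) : ℝ) • fderiv ℝ ψ (w + (-(1 / 2) : ℝ) • h) - fderiv ℝ ψ w) _ h :=
    (h1.sub h2).sub_const (fderiv ℝ ψ w)
  rw [h3.fderiv, smul_smul, smul_smul, smul_sub]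
  norm_num

/-- Second derivatives at two points of the ball. -/
theorem d2_lip {d : ℕ} {ψ : E d → ℝ} (hψ : ContDiff ℝ ∞ ψ) (k B : ℝ)
    (hB : ∀ y, ‖y‖ ≤ k → ‖iteratedFDeriv ℝ 3 ψ y‖ ≤ B) (y z : E d) (hy : ‖y‖ ≤ k) (hz : ‖z‖ ≤ k) :
    ‖fderiv ℝ (fderiv ℝ ψ) y - fderiv ℝ (fderiv ℝ ψ) z‖ ≤ B * ‖y - z‖ := by
  have h2 : ContDiff ℝ 2 (fderiv ℝ ψ) := hψ.fderiv_right (m := 2) (by norm_cast)
  have hd := (h2.fderiv_right (m := 1) (by norm_num)).differentiable (by norm_num)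
  refine norm_image_sub_le_aux (fderiv ℝ (fderiv ℝ ψ)) k B (fun x => hd x)
    (fun x hx => ?_) y z hy hz
  have h3 := norm_fderiv_two (fderiv ℝ ψ) x
  rw [norm_iteratedFDeriv_fderiv] at h3
  exact h3.le.trans (hB x hx)

theorem wr_two {d : ℕ} {ψ : E d → ℝ} (hψ : ContDiff ℝ ∞ ψ) (k B : ℝ)
    (hB : ∀ y, ‖y‖ ≤ k → ‖iteratedFDeriv ℝ 3 ψ y‖ ≤ B) {w h : E d} (hh : h ∈ wS k w) :
    ‖fderiv ℝ (fderiv ℝ (wr ψ w)) h‖ ≤ B * ‖h‖ := by
  have hB0 : 0 ≤ B := (norm_nonneg _).trans (hB _ hh.1)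
  rw [fderiv2_wr hψ]
  have h1 := d2_lip hψ k B hB _ _ hh.1 hh.2
  have h2 : (w + (1 / 2 : ℝ) • h) - (w + (-(1 / 2) : ℝ) • h) = h := by
    rw [add_sub_add_left_eq_sub, ← sub_smul]
    norm_num
  rw [h2] at h1
  have h3 : ‖(1 / 4 : ℝ)‖ ≤ 1 := by norm_num
  refine (ContinuousLinearMap.opNorm_smul_le (1 / 4 : ℝ) _).trans ?_
  calc _ ≤ 1 * (B * ‖h‖) := by gcongr
    _ = _ := one_mul _

theorem wr_one {d : ℕ} {ψ : E d → ℝ} (hψ : ContDiff ℝ ∞ ψ) (k B : ℝ)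
    (hB : ∀ y, ‖y‖ ≤ k → ‖iteratedFDeriv ℝ 3 ψ y‖ ≤ B) {w h : E d} (hw : ‖w‖ ≤ k)
    (hh : h ∈ wS k w) : ‖fderiv ℝ (wr ψ w) h‖ ≤ B * ‖h‖ ^ 2 := by
  have hB0 : 0 ≤ B := (norm_nonneg _).trans (hB _ hh.1)
  have h0 : fderiv ℝ (wr ψ w) 0 = 0 := by
    rw [fderiv_wr hψ]
    simp only [smul_zero, add_zero]
    rw [neg_smul, sub_neg_eq_add, ← add_smul]
    norm_num
  have hd : Differentiable ℝ (fderiv ℝ (wr ψ w)) := differentiable_fderiv (contDiff_wr hψ w)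
  have h1 : ∀ x ∈ segment ℝ (0 : E d) h, ‖fderiv ℝ (fderiv ℝ (wr ψ w)) x‖ ≤ B * ‖h‖ := by
    intro x hx
    rw [segment_eq_image] at hx
    obtain ⟨t, ⟨ht0, ht1⟩, rfl⟩ := hx
    simp only [smul_zero, zero_add]
    refine (wr_two hψ k B hB (wS_seg hw hh ht0 ht1)).trans ?_
    rw [norm_smul, Real.norm_of_nonneg ht0]
    have := norm_nonneg h
    gcongr
    exact mul_le_of_le_one_left this ht1
  have h2 := Convex.norm_image_sub_le_of_norm_fderiv_le (𝕜 := ℝ) (f := fderiv ℝ (wr ψ w))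
    (s := segment ℝ (0 : E d) h) (fun x _ => hd x) h1 (convex_segment _ _)
    (left_mem_segment ℝ _ _) (right_mem_segment ℝ _ _)
  rw [h0, sub_zero, sub_zero] at h2
  calc _ ≤ B * ‖h‖ * ‖h‖ := h2
    _ = _ := by ring

/-- All derivatives of the remainder are bounded on the set of the differences. -/
theorem wr_bound {d : ℕ} (N : ℕ) (A : ℕ → ℝ) (k : ℝ) : ∃ M : ℝ, 1 ≤ M ∧
    ∀ (ψ : E d → ℝ), ContDiff ℝ ∞ ψ →
    (∀ j, 3 ≤ j → ∀ y, ‖y‖ ≤ k → ‖iteratedFDeriv ℝ j ψ y‖ ≤ A j) →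
    ∀ w h, ‖w‖ ≤ k → h ∈ wS k w → ∀ j, 1 ≤ j → j ≤ N → ‖iteratedFDeriv ℝ j (wr ψ w) h‖ ≤ M := by
  set S : ℝ := ∑ j ∈ Finset.range (N + 1), |A j| with hS
  have hS0 : 0 ≤ S := Finset.sum_nonneg fun _ _ => abs_nonneg _
  refine ⟨1 + |A 3| * (2 * |k|) + |A 3| * (2 * |k|) ^ 2 + 2 * S, by
    have : 0 ≤ |A 3| * (2 * |k|) + |A 3| * (2 * |k|) ^ 2 := by positivity
    linarith, fun ψ hψ hA w h hw hh j hj1 hjN => ?_⟩
  have hk0 : 0 ≤ k := (norm_nonneg _).trans hw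
  have hn : ‖h‖ ≤ 2 * |k| := by
    rw [abs_of_nonneg hk0]
    exact wS_norm hh
  have hB : ∀ y, ‖y‖ ≤ k → ‖iteratedFDeriv ℝ 3 ψ y‖ ≤ |A 3| := fun y hy =>
    (hA 3 le_rfl y hy).trans (le_abs_self _)
  have hp1 : 0 ≤ |A 3| * (2 * |k|) := by positivity
  have hp2 : 0 ≤ |A 3| * (2 * |k|) ^ 2 := by positivity
  rcases Nat.lt_or_ge j 3 with h3 | h3
  · have hj : j = 1 ∨ j = 2 := by omega
    rcases hj with rfl | rfl
    · have h5 : ‖iteratedFDeriv ℝ 1 (wr ψ w) h‖ = ‖fderiv ℝ (wr ψ w) h‖ := by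
        have h6 := norm_iteratedFDeriv_fderiv (𝕜 := ℝ) (f := wr ψ w) (x := h) (n := 0)
        rw [norm_iteratedFDeriv_zero] at h6
        exact h6.symm
      rw [h5]
      refine (wr_one hψ k _ hB hw hh).trans ?_
      have : |A 3| * ‖h‖ ^ 2 ≤ |A 3| * (2 * |k|) ^ 2 := by gcongr
      linarith
    · rw [← norm_fderiv_two]
      refine (wr_two hψ k _ hB hh).trans ?_
      have : |A 3| * ‖h‖ ≤ |A 3| * (2 * |k|) := by gcongr
      linarith
  · have hAj : |A j| ≤ S := Finset.single_le_sum (f := fun j => |A j|)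
      (fun _ _ => abs_nonneg _) (Finset.mem_range.2 (by omega))
    have hf : ∀ u : ℝ, |u| ≤ 1 → ‖w + u • h‖ ≤ k →
        ‖iteratedFDeriv ℝ j (fun h => ψ (w + u • h)) h‖ ≤ S := by
      intro u hu hk
      refine (iter_affine hψ w u j h).trans ?_
      calc |u| ^ j * ‖iteratedFDeriv ℝ j ψ (w + u • h)‖
          ≤ 1 * |A j| := mul_le_mul (pow_le_one₀ (abs_nonneg _) hu)
            ((hA j h3 _ hk).trans (le_abs_self _)) (norm_nonneg _) zero_le_one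
        _ ≤ S := by rw [one_mul]; exact hAj
    have hl : iteratedFDeriv ℝ j (fun h : E d => ⟪gr ψ w, h⟫) h = 0 := by
      have h4 : (fun h : E d => ⟪gr ψ w, h⟫) = fderiv ℝ ψ w := by
        funext v
        exact inner_gr ψ w v
      rw [h4]
      obtain ⟨i, rfl⟩ : ∃ i, j = i + 2 := ⟨j - 2, by omega⟩
      have h5 : fderiv ℝ (fderiv ℝ ψ w : E d → ℝ) = fun _ => fderiv ℝ ψ w := by
        funext v
        exact (fderiv ℝ ψ w).fderiv
      rw [← norm_eq_zero, show i + 2 = (i + 1) + 1 from rfl, ← norm_iteratedFDeriv_fderiv, h5,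
        iteratedFDeriv_const_of_ne (Nat.succ_ne_zero i)]
      simp
    have h6 : ContDiffAt ℝ j (fun h : E d => ψ (w + (1 / 2 : ℝ) • h)) h :=
      ((hψ.comp (contDiff_const.add (contDiff_id.const_smul _))).of_le
        (by exact_mod_cast le_top)).contDiffAt
    have h7 : ContDiffAt ℝ j (fun h : E d => ψ (w + (-(1 / 2) : ℝ) • h)) h :=
      ((hψ.comp (contDiff_const.add (contDiff_id.const_smul _))).of_le
        (by exact_mod_cast le_top)).contDiffAt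
    have h8 : ContDiffAt ℝ j (fun h : E d => ⟪gr ψ w, h⟫) h :=
      (contDiff_const.inner ℝ contDiff_id).contDiffAt
    have h9 : wr ψ w = ((fun h : E d => ψ (w + (1 / 2 : ℝ) • h)) -
      (fun h : E d => ψ (w + (-(1 / 2) : ℝ) • h))) - fun h : E d => ⟪gr ψ w, h⟫ := rfl
    have h12 : ContDiffAt ℝ j ((fun h : E d => ψ (w + (1 / 2 : ℝ) • h)) -
      (fun h : E d => ψ (w + (-(1 / 2) : ℝ) • h))) h := h6.sub h7
    rw [h9, iteratedFDeriv_sub_apply h12 h8, hl, sub_zero, iteratedFDeriv_sub_apply h6 h7]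
    refine (norm_sub_le _ _).trans ?_
    have h10 := hf (1 / 2) (by rw [abs_of_pos] <;> norm_num) hh.1
    have h11 := hf (-(1 / 2)) (by rw [abs_neg, abs_of_pos] <;> norm_num) hh.2
    linarith

/-- The amplitude has bounded derivatives. -/
theorem wb_bound {d : ℕ} (N : ℕ) (A : ℕ → ℝ) : ∃ B : ℝ, 0 ≤ B ∧
    ∀ (b : E d → ℂ), ContDiff ℝ ∞ b → (∀ j y, ‖iteratedFDeriv ℝ j b y‖ ≤ A j) →
    ∀ w h, ∀ j ≤ N, ‖iteratedFDeriv ℝ j (wb b w) h‖ ≤ B := by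
  set S : ℝ := ∑ j ∈ Finset.range (N + 1), |A j| with hS
  have hS0 : 0 ≤ S := Finset.sum_nonneg fun _ _ => abs_nonneg _
  refine ⟨2 ^ N * (S * S), by positivity, fun b hb hA w h => ?_⟩
  have hf : ∀ u : ℝ, |u| ≤ 1 → ∀ j ≤ N,
      ‖iteratedFDeriv ℝ j (fun h => b (w + u • h)) h‖ ≤ S := by
    intro u hu j hj
    have hAj : |A j| ≤ S := Finset.single_le_sum (f := fun j => |A j|)
      (fun _ _ => abs_nonneg _) (Finset.mem_range.2 (by omega))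
    refine (iter_affine hb w u j h).trans ?_
    calc |u| ^ j * ‖iteratedFDeriv ℝ j b (w + u • h)‖
        ≤ 1 * |A j| := mul_le_mul (pow_le_one₀ (abs_nonneg _) hu)
          ((hA j _).trans (le_abs_self _)) (norm_nonneg _) zero_le_one
      _ ≤ S := by rw [one_mul]; exact hAj
  refine mul_bd (hb.comp (contDiff_const.add (contDiff_id.const_smul _)))
    (Complex.conjCLE.contDiff.comp (hb.comp (contDiff_const.add (contDiff_id.const_smul _)))) N S S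
    h (hf _ (by rw [abs_of_pos] <;> norm_num)) (fun j hj => ?_)
  have h1 := LinearIsometryEquiv.norm_iteratedFDeriv_comp_left (𝕜 := ℝ)
    Complex.conjLIE (fun h => b (w + (-(1 / 2) : ℝ) • h)) h j
  refine le_trans (le_of_eq ?_) (hf (-(1 / 2)) (by rw [abs_neg, abs_of_pos] <;> norm_num) j hj)
  exact h1

/-- The inner integral of the Wigner identity decays in the gradient. -/
theorem wig_inner (d N : ℕ) (A : ℕ → ℝ) (k : ℝ) : ∃ C : ℝ, 0 ≤ C ∧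
    ∀ (b : E d → ℂ) (ψ : E d → ℝ), ContDiff ℝ ∞ b → ContDiff ℝ ∞ ψ →
    (∀ v, k < ‖v‖ → b v = 0) → (∀ j y, ‖iteratedFDeriv ℝ j b y‖ ≤ A j) →
    (∀ j, 3 ≤ j → ∀ y, ‖y‖ ≤ k → ‖iteratedFDeriv ℝ j ψ y‖ ≤ A j) → ∀ w, ‖w‖ ≤ k →
    ‖∫ h, b (w + (1 / 2 : ℝ) • h) * (starRingEnd ℂ) (b (w + (-(1 / 2) : ℝ) • h)) *
        Complex.exp (((ψ (w + (1 / 2 : ℝ) • h) - ψ (w + (-(1 / 2) : ℝ) • h) : ℝ) : ℂ) *
          Complex.I)‖ ≤ C * ((1 + ‖gr ψ w‖) ^ N)⁻¹ := by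
  obtain ⟨M, hM1, hM⟩ := wr_bound (d := d) N A k
  obtain ⟨B, hB0, hB⟩ := wb_bound (d := d) N A
  obtain ⟨C, hC0, hC⟩ := GPH.fourier_decay d N (2 * k)
  set M2 : ℝ := 2 ^ N * B * (N ! * M ^ N) with hM2
  have hM20 : 0 ≤ M2 := by
    have : 0 ≤ M := by linarith
    positivity
  refine ⟨C * M2 * (2 * π) ^ N, by positivity, fun b ψ hb hψ hb0 hbA hψA w hw => ?_⟩
  set F : E d → ℂ := fun h => wb b w h * GPH.ee (wr ψ w h) with hF
  have hFc : ContDiff ℝ ∞ F := (contDiff_wb hb w).mul (GPH.contDiff_ee.comp (contDiff_wr hψ w))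
  have hz : ∀ h, h ∉ wS k w → wb b w h = 0 := by
    intro h hh
    unfold wS at hh
    rw [mem_ofPred_eq, not_and_or, not_le, not_le] at hh
    unfold wb
    rcases hh with hh | hh
    · rw [hb0 _ hh, zero_mul]
    · rw [hb0 _ hh, map_zero, mul_zero]
  have hF0 : ∀ h, 2 * k < ‖h‖ → F h = 0 := by
    intro h hh
    have : h ∉ wS k w := fun h1 => absurd (wS_norm h1) (not_le.2 hh)
    simp only [hF, hz h this, zero_mul]
  have hc1 : Continuous fun h : E d => ‖w + (1 / 2 : ℝ) • h‖ := by fun_prop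
  have hc2 : Continuous fun h : E d => ‖w + (-(1 / 2) : ℝ) • h‖ := by fun_prop
  have hcl : IsClosed (wS k w) :=
    (isClosed_le hc1 continuous_const).inter (isClosed_le hc2 continuous_const)
  have hbN : ContDiff ℝ N (wb b w) := (contDiff_wb hb w).of_le (by exact_mod_cast le_top)
  have hrN : ContDiff ℝ N (wr ψ w) := (contDiff_wr hψ w).of_le (by exact_mod_cast le_top)
  have hFb : ∀ j ≤ N, ∀ h, ‖h‖ ≤ 2 * k → ‖iteratedFDeriv ℝ j F h‖ ≤ M2 := by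
    intro j hj h _
    by_cases hh : h ∈ wS k w
    · have h4 := hB b hb hbA w h
      have h5 := hM ψ hψ hψA w h hw hh
      have h6 := GPH.deriv_amp N (wb b w) (wr ψ w) hbN hrN h B M hB0 hM1 h4 h5 j hj
      exact h6
    · have h1 : F =ᶠ[nhds h] fun _ => 0 := by
        filter_upwards [hcl.isOpen_compl.mem_nhds hh] with z hz'
        simp only [hF, hz z hz', zero_mul]
      rw [(Filter.EventuallyEq.iteratedFDeriv (𝕜 := ℝ) h1 j).self_of_nhds]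
      have h2 : iteratedFDeriv ℝ j (fun _ : E d => (0 : ℂ)) h = 0 := by
        have := iteratedFDeriv_fun_zero (𝕜 := ℝ) (E := E d) (F := ℂ) (n := j)
        rw [this]
        rfl
      rw [h2, norm_zero]
      exact hM20
  set v : E d := -((2 * π)⁻¹ • gr ψ w) with hv
  have hFou : ∫ h, b (w + (1 / 2 : ℝ) • h) * (starRingEnd ℂ) (b (w + (-(1 / 2) : ℝ) • h)) *
        Complex.exp (((ψ (w + (1 / 2 : ℝ) • h) - ψ (w + (-(1 / 2) : ℝ) • h) : ℝ) : ℂ) *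
          Complex.I) = FourierTransform.fourier F v := by
    rw [Real.fourier_eq']
    refine integral_congr_ae (Filter.Eventually.of_forall fun z => ?_)
    simp only [smul_eq_mul, hF, wb, GPH.ee]
    have h1 : -2 * π * ⟪z, v⟫ = ⟪gr ψ w, z⟫ := by
      rw [hv, inner_neg_right, inner_smul_right, real_inner_comm z (gr ψ w)]
      field_simp
    rw [h1, mul_comm (Complex.exp ((⟪gr ψ w, z⟫ : ℝ) * Complex.I)), mul_assoc, mul_assoc, mul_assoc,
      ← Complex.exp_add]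
    congr 2
    have h2 : ψ (w + (1 / 2 : ℝ) • z) - ψ (w + (-(1 / 2) : ℝ) • z) =
      wr ψ w z + ⟪gr ψ w, z⟫ := by
      unfold wr
      ring
    rw [h2]
    push_cast
    congr 1
    ring
  rw [hFou]
  have h9 := hC F M2 (hFc.of_le (by exact_mod_cast le_top)) hF0 hFb v
  have hwn : ‖gr ψ w‖ = 2 * π * ‖v‖ := by
    rw [hv, norm_neg, norm_smul, Real.norm_of_nonneg (by positivity)]
    field_simp
  rw [hwn]
  have h10 : (1 + 2 * π * ‖v‖) ^ N ≤ (2 * π) ^ N * (1 + ‖v‖) ^ N := by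
    rw [← mul_pow]
    refine pow_le_pow_left₀ (by positivity) ?_ _
    have : (1 : ℝ) ≤ 2 * π := by linarith [Real.two_le_pi]
    nlinarith [norm_nonneg v]
  rw [← div_eq_mul_inv, le_div_iff₀ (by positivity)]
  calc ‖FourierTransform.fourier F v‖ * (1 + 2 * π * ‖v‖) ^ N
      ≤ ‖FourierTransform.fourier F v‖ * ((2 * π) ^ N * (1 + ‖v‖) ^ N) :=
        mul_le_mul_of_nonneg_left h10 (norm_nonneg _)
    _ = (2 * π) ^ N * (‖FourierTransform.fourier F v‖ * (1 + ‖v‖) ^ N) := by ring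
    _ ≤ (2 * π) ^ N * (C * M2) := mul_le_mul_of_nonneg_left h9 (by positivity)
    _ = _ := by ring

end Pool.Agent.GNP
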